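import Mathlib

/-!
# MP_92ef0c_nt, split pairs: merged library part M01

Concatenation of smaller files (each in its own section), only to save build time.
-/

/-! ### from `Lib_MP_92ef0c_spi.IDefs` -/

section

/-!
# MP_92ef0c_nt, split twin, block M, part S2: definitions (multiplicative functions of natural numbers)
-/

set_option autoImplicit false

namespace Pool.Agent.SplI

open Finset

/-- completely multiplicative functions bounded by one (the value at 0 is irrelevant) -/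
structure CF (f : ℕ → ℂ) : Prop where
  one : f 1 = 1
  mul : ∀ m n, m ≠ 0 → n ≠ 0 → f (m * n) = f m * f n
  le : ∀ n, ‖f n‖ ≤ 1

/-- `n ^ (-i t)` -/
noncomputable def et (t : ℝ) (n : ℕ) : ℂ := Complex.exp (-((t * Real.log n : ℝ) : ℂ) * Complex.I)

/-- the primes in `(P, Q]` -/
noncomputable def PrI (P Q : ℝ) : Finset ℕ := (Icc 1 ⌊Q⌋₊).filter (fun p => p.Prime ∧ P < (p : ℝ))

/-- `∑ 1 / p` over the primes in `(P, Q]` -/
noncomputable def Lr (P Q : ℝ) : ℝ := ∑ p ∈ PrI P Q, 1 / (p : ℝ)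

/-- partial sums -/
noncomputable def Sf (f : ℕ → ℂ) (N : ℝ) : ℂ := ∑ n ∈ Icc 1 ⌊N⌋₊, f n

/-- normalised partial sums in the logarithmic scale -/
noncomputable def Ai (f : ℕ → ℂ) (s : ℝ) : ℂ := (Real.exp (-s) : ℂ) * Sf f (Real.exp s)

/-- the number of primes of `(P, Q]` dividing `n` -/
noncomputable def omI (P Q : ℝ) (n : ℕ) : ℝ := (((PrI P Q).filter (fun p => p ∣ n)).card : ℝ)

/-- numbers with all prime factors at least `y` -/
def RoughN (y : ℝ) (n : ℕ) : Prop := ∀ p : ℕ, p.Prime → p ∣ n → y ≤ (p : ℝ)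

/-- the functions `z ^ Ω(n) χ(n)` -/
noncomputable def fzc (z : ℂ) (M : ℕ) (χ : DirichletCharacter ℂ M) (n : ℕ) : ℂ :=
  z ^ ArithmeticFunction.cardFactors n * χ (n : ZMod M)

theorem mem_PrI {P Q : ℝ} {p : ℕ} : p ∈ PrI P Q ↔ p.Prime ∧ P < (p : ℝ) ∧ (p : ℝ) ≤ Q := by
  unfold PrI
  rw [mem_filter, mem_Icc]
  constructor
  · rintro ⟨⟨h1, h2⟩, h3, h4⟩
    exact ⟨h3, h4, (Nat.le_floor_iff' (by omega)).1 h2⟩
  · rintro ⟨h1, h2, h3⟩
    exact ⟨⟨h1.one_lt.le, Nat.le_floor h3⟩, h1, h2⟩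

theorem norm_et (t : ℝ) (n : ℕ) : ‖et t n‖ = 1 := by
  unfold et
  rw [show -((t * Real.log n : ℝ) : ℂ) * Complex.I = ((-(t * Real.log n) : ℝ) : ℂ) * Complex.I by push_cast; ring]
  exact Complex.norm_exp_ofReal_mul_I _

theorem et_add (t y : ℝ) (n : ℕ) : et (t + y) n = et t n * et y n := by
  unfold et
  rw [← Complex.exp_add]
  congr 1
  push_cast
  ring

theorem cf_fzc {q : ℕ} (hq : 0 < q) {z : ℂ} (hz : z ^ q = 1) (M : ℕ) (χ : DirichletCharacter ℂ M) : CF (fzc z M χ) := by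
  have hz1 : ‖z‖ = 1 := Complex.norm_eq_one_of_pow_eq_one hz hq.ne'
  refine ⟨?_, fun m n hm hn => ?_, fun n => ?_⟩
  · simp [fzc]
  · unfold fzc
    rw [ArithmeticFunction.cardFactors_mul hm hn, pow_add, Nat.cast_mul, map_mul]
    ring
  · unfold fzc
    rw [norm_mul, norm_pow, hz1, one_pow, one_mul]
    exact χ.norm_le_one _

theorem et_mul (t : ℝ) {m n : ℕ} (hm : m ≠ 0) (hn : n ≠ 0) : et t (m * n) = et t m * et t n := by
  unfold et
  rw [← Complex.exp_add]
  congr 1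
  push_cast
  rw [Real.log_mul (by exact_mod_cast hm) (by exact_mod_cast hn)]
  push_cast
  ring

theorem cf_et {f : ℕ → ℂ} (hf : CF f) (t : ℝ) : CF (fun n => f n * et t n) := by
  refine ⟨?_, fun m n hm hn => ?_, fun n => ?_⟩
  · simp [hf.one, et]
  · rw [hf.mul m n hm hn, et_mul t hm hn]
    ring
  · rw [norm_mul, norm_et, mul_one]
    exact hf.le n

end Pool.Agent.SplI

end

/-! ### from `Lib_MP_92ef0c_spi.ClsN` -/

section

/-!
# Piece I-CLSN: residue classes in terms of Dirichlet characters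
-/

set_option autoImplicit false

namespace Pool.Agent.SplI

open Finset

/-- Mathlib: `DirichletCharacter.sum_char_inv_mul_char_eq` (`∑_χ χ a⁻¹ χ b = φ(m)` if `a = b`, else `0`) -/
theorem cls_char_n (m : ℕ) [NeZero m] (b : ℕ) (hb : b.Coprime m) : ∃ (n : ℕ) (χ : Fin n → DirichletCharacter ℂ m) (c : Fin n → ℂ),
    (∀ i, ‖c i‖ ≤ 1) ∧ ∀ x : ℕ, ∑ i, c i * χ i (x : ZMod m) = if x ≡ b [MOD m] then 1 else 0 := by
  classical
  have hu : IsUnit ((b : ZMod m)) := (ZMod.isUnit_iff_coprime b m).2 hb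
  have hφ : ((m.totient : ℕ) : ℂ) ≠ 0 := by
    exact_mod_cast (Nat.totient_pos.2 (Nat.pos_of_ne_zero (NeZero.ne m))).ne'
  have hφ1 : (1 : ℝ) ≤ (m.totient : ℝ) := by
    exact_mod_cast (Nat.totient_pos.2 (Nat.pos_of_ne_zero (NeZero.ne m)))
  let e := (Fintype.equivFin (DirichletCharacter ℂ m)).symm
  refine ⟨Fintype.card (DirichletCharacter ℂ m), fun i => e i,
    fun i => ((m.totient : ℕ) : ℂ)⁻¹ * (e i) ((b : ZMod m)⁻¹), ?_, ?_⟩
  · intro i
    rw [norm_mul, norm_inv, Complex.norm_natCast]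
    have h1 : ‖(e i) ((b : ZMod m)⁻¹)‖ ≤ 1 := (e i).norm_le_one _
    have h2 : (m.totient : ℝ)⁻¹ ≤ 1 := inv_le_one_of_one_le₀ hφ1
    calc (m.totient : ℝ)⁻¹ * ‖(e i) ((b : ZMod m)⁻¹)‖ ≤ 1 * 1 :=
          mul_le_mul h2 h1 (norm_nonneg _) zero_le_one
      _ = 1 := one_mul 1
  · intro x
    have h := DirichletCharacter.sum_char_inv_mul_char_eq ℂ hu (x : ZMod m)
    have h2 : ∑ i, ((m.totient : ℕ) : ℂ)⁻¹ * (e i) ((b : ZMod m)⁻¹) * (e i) (x : ZMod m) =
        ((m.totient : ℕ) : ℂ)⁻¹ * ∑ χ : DirichletCharacter ℂ m, χ ((b : ZMod m)⁻¹) * χ (x : ZMod m) := by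
      rw [Finset.mul_sum, ← Equiv.sum_comp e]
      exact Finset.sum_congr rfl fun i _ => by rw [mul_assoc]
    rw [h2, h]
    have h3 : ((b : ZMod m) = (x : ZMod m)) ↔ x ≡ b [MOD m] := by
      rw [ZMod.natCast_eq_natCast_iff]
      exact ⟨fun h => h.symm, fun h => h.symm⟩
    by_cases hx : x ≡ b [MOD m]
    · rw [if_pos hx, if_pos (h3.2 hx), inv_mul_cancel₀ hφ]
    · rw [if_neg hx, if_neg (fun h => hx (h3.1 h)), mul_zero]

end Pool.Agent.SplI

end

/-! ### from `Lib_MP_92ef0c_spi.HHyp` -/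

section

/-!
# The statement of `zs_log` (only to keep the import graph flat)
-/

set_option autoImplicit false

namespace Pool.Agent.SplI

open Finset MeasureTheory

/-- the statement of `zs_log` -/
def ZsLogS : Prop :=
  ∀ (A : ℝ) (hA : 1 ≤ A), ∃ η C : ℝ, 0 < η ∧ η ≤ 1 / 2 ∧ 0 < C ∧ ∀ τ u v : ℝ, 1 ≤ u → u ≤ v → 1 ≤ |τ| → |τ| ≤ u ^ A →
    ‖∑ n ∈ Ioc ⌊u⌋₊ ⌊v⌋₊, et (-τ) n / (n : ℂ) - ((v : ℂ) ^ ((τ : ℂ) * Complex.I) - (u : ℂ) ^ ((τ : ℂ) * Complex.I)) / ((τ : ℂ) * Complex.I)‖ ≤ C * u ^ (-η)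

end Pool.Agent.SplI

end

/-! ### from `Lib_MP_92ef0c_lb.ConvH` -/

section

/-!
# Block B: the convolution quotient of two completely multiplicative functions
-/

set_option autoImplicit false

namespace Pool.Agent.SplB

open Finset Pool.Agent.SplI

/-- as an arithmetic function -/
noncomputable def toA (f : ℕ → ℂ) : ArithmeticFunction ℂ := ⟨fun n => if n = 0 then 0 else f n, by simp⟩

theorem toA_apply (f : ℕ → ℂ) {n : ℕ} (hn : n ≠ 0) : toA f n = f n := by
  change (if n = 0 then 0 else f n) = f n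
  rw [if_neg hn]

/-- `f * (μ f0)` -/
noncomputable def hA (f f0 : ℕ → ℂ) : ArithmeticFunction ℂ :=
  toA f * ((ArithmeticFunction.moebius : ArithmeticFunction ℤ) : ArithmeticFunction ℂ).pmul (toA f0)

theorem toA_mult {f : ℕ → ℂ} (hf : CF f) : (toA f).IsMultiplicative := by
  rw [ArithmeticFunction.IsMultiplicative.iff_ne_zero]
  refine ⟨?_, fun {m n} hm hn _ => ?_⟩
  · rw [toA_apply f one_ne_zero, hf.one]
  · rw [toA_apply f (mul_ne_zero hm hn), toA_apply f hm, toA_apply f hn, hf.mul m n hm hn]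

theorem hA_mult {f f0 : ℕ → ℂ} (hf : CF f) (hf0 : CF f0) : (hA f f0).IsMultiplicative := by
  unfold hA
  exact (toA_mult hf).mul (ArithmeticFunction.isMultiplicative_moebius.intCast.pmul (toA_mult hf0))

/-- `μ f0` is the inverse of `f0` -/
theorem mu_inv {f0 : ℕ → ℂ} (hf0 : CF f0) :
    ((ArithmeticFunction.moebius : ArithmeticFunction ℤ) : ArithmeticFunction ℂ).pmul (toA f0) * toA f0 = 1 := by
  ext n
  by_cases hn : n = 0
  · subst hn
    simp
  rw [ArithmeticFunction.mul_apply]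
  have h1 : ∀ x ∈ n.divisorsAntidiagonal,
      ((ArithmeticFunction.moebius : ArithmeticFunction ℤ) : ArithmeticFunction ℂ).pmul (toA f0) x.1 * toA f0 x.2 =
        f0 n * (((ArithmeticFunction.moebius : ArithmeticFunction ℤ) : ArithmeticFunction ℂ) x.1 *
          ((ArithmeticFunction.zeta : ArithmeticFunction ℕ) : ArithmeticFunction ℂ) x.2) := by
    intro x hx
    rw [Nat.mem_divisorsAntidiagonal] at hx
    have hx1 : x.1 ≠ 0 := by
      rintro h
      rw [h, zero_mul] at hx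
      exact hn hx.1.symm
    have hx2 : x.2 ≠ 0 := by
      rintro h
      rw [h, mul_zero] at hx
      exact hn hx.1.symm
    rw [ArithmeticFunction.pmul_apply, toA_apply f0 hx1, toA_apply f0 hx2, ← hx.1, hf0.mul _ _ hx1 hx2,
      ArithmeticFunction.natCoe_apply, ArithmeticFunction.zeta_apply_ne hx2]
    push_cast
    ring
  rw [sum_congr rfl h1, ← mul_sum, ← ArithmeticFunction.mul_apply,
    ArithmeticFunction.coe_moebius_mul_coe_zeta]
  by_cases h : n = 1
  · subst h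
    rw [ArithmeticFunction.one_one, hf0.one, one_mul]
  · rw [ArithmeticFunction.one_apply_ne h, mul_zero]

theorem hA_conv {f f0 : ℕ → ℂ} (hf0 : CF f0) : hA f f0 * toA f0 = toA f := by
  unfold hA
  rw [mul_assoc, mu_inv hf0, mul_one]

/-- hyperbola identity -/
theorem conv_sum {f f0 : ℕ → ℂ} (hf0 : CF f0) (N : ℕ) :
    ∑ n ∈ Icc 1 N, f n = ∑ d ∈ Icc 1 N, hA f f0 d * ∑ e ∈ Icc 1 (N / d), f0 e := by
  have h := ArithmeticFunction.sum_Ioc_mul_eq_sum_sum (hA f f0) (toA f0) N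
  rw [hA_conv hf0] at h
  have e1 : ∀ M : ℕ, Ioc 0 M = Icc 1 M := by
    intro M
    ext x
    simp only [mem_Ioc, mem_Icc]
    omega
  have e2 : ∀ (g : ℕ → ℂ) (M : ℕ), ∑ n ∈ Icc 1 M, toA g n = ∑ n ∈ Icc 1 M, g n := by
    intro g M
    refine sum_congr rfl fun n hn => toA_apply g ?_
    rw [mem_Icc] at hn
    omega
  rw [e1, e2] at h
  rw [h]
  refine sum_congr rfl fun n _ => ?_
  rw [e1, e2]

/-- the values at prime powers -/
theorem hA_pp {f f0 : ℕ → ℂ} (hf : CF f) (hf0 : CF f0) {p : ℕ} (hp : p.Prime) (k : ℕ) :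
    hA f f0 (p ^ (k + 1)) = f p ^ k * (f p - f0 p) := by
  have hp0 : p ≠ 0 := hp.ne_zero
  have hpow : ∀ (g : ℕ → ℂ), CF g → ∀ j : ℕ, g (p ^ j) = g p ^ j := by
    intro g hg j
    induction j with
    | zero => simp [hg.one]
    | succ j ih => rw [pow_succ, hg.mul _ _ (pow_ne_zero _ hp0) hp0, ih, pow_succ]
  unfold hA
  rw [mul_comm, ArithmeticFunction.mul_apply,
    Nat.sum_divisorsAntidiagonal (f := fun a b =>
      ((ArithmeticFunction.moebius : ArithmeticFunction ℤ) : ArithmeticFunction ℂ).pmul (toA f0) a * toA f b),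
    Nat.sum_divisors_prime_pow hp, Finset.sum_range_succ', Finset.sum_range_succ']
  have hz : ∑ x ∈ range k, ((ArithmeticFunction.moebius : ArithmeticFunction ℤ) : ArithmeticFunction ℂ).pmul (toA f0)
      (p ^ (x + 1 + 1)) * toA f (p ^ (k + 1) / p ^ (x + 1 + 1)) = 0 := by
    refine sum_eq_zero fun x _ => ?_
    rw [ArithmeticFunction.pmul_apply, ArithmeticFunction.intCoe_apply,
      ArithmeticFunction.moebius_apply_prime_pow hp (by omega), if_neg (by omega)]
    simp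
  rw [hz, zero_add, zero_add, pow_zero, pow_one, Nat.div_one]
  have h1 : p ^ (k + 1) / p = p ^ k := by
    rw [pow_succ]
    exact Nat.mul_div_cancel _ hp.pos
  rw [h1, ArithmeticFunction.pmul_apply, ArithmeticFunction.pmul_apply, ArithmeticFunction.intCoe_apply,
    ArithmeticFunction.intCoe_apply, ArithmeticFunction.moebius_apply_prime hp,
    ArithmeticFunction.moebius_apply_one, toA_apply f0 hp0, toA_apply f0 one_ne_zero, hf0.one,
    toA_apply f (pow_ne_zero _ hp0), toA_apply f (pow_ne_zero _ hp0), hpow f hf, hpow f hf]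
  push_cast
  ring

/-- support -/
theorem hA_supp {f f0 : ℕ → ℂ} (hf : CF f) (hf0 : CF f0) {p n : ℕ} (hp : p.Prime) (hpn : p ∣ n) (hn : n ≠ 0)
    (h : f p = f0 p) : hA f f0 n = 0 := by
  obtain ⟨k, m, hm, rfl⟩ := Nat.exists_eq_pow_mul_and_not_dvd hn p hp.ne_one
  have hk : k ≠ 0 := by
    rintro rfl
    rw [pow_zero, one_mul] at hpn
    exact hm hpn
  obtain ⟨j, rfl⟩ := Nat.exists_eq_succ_of_ne_zero hk
  have hc : (p ^ (j + 1)).Coprime m := Nat.Coprime.pow_left _ ((Nat.Prime.coprime_iff_not_dvd hp).2 hm)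
  rw [(hA_mult hf hf0).map_mul_of_coprime hc, hA_pp hf hf0 hp, h, sub_self, mul_zero, zero_mul]

/-- norm bound -/
theorem hA_le {f f0 : ℕ → ℂ} (hf : CF f) (hf0 : CF f0) {n : ℕ} (hn : n ≠ 0) :
    ‖hA f f0 n‖ ≤ 2 ^ ArithmeticFunction.cardFactors n := by
  have h1 : ‖hA f f0 n‖ ≤ (n.divisors.card : ℝ) := by
    unfold hA
    rw [ArithmeticFunction.mul_apply,
      Nat.sum_divisorsAntidiagonal (f := fun a b => toA f a *
      ((ArithmeticFunction.moebius : ArithmeticFunction ℤ) : ArithmeticFunction ℂ).pmul (toA f0) b)]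
    refine (norm_sum_le _ _).trans ?_
    calc ∑ i ∈ n.divisors, ‖toA f i *
          ((ArithmeticFunction.moebius : ArithmeticFunction ℤ) : ArithmeticFunction ℂ).pmul (toA f0) (n / i)‖
        ≤ ∑ _i ∈ n.divisors, (1 : ℝ) := by
          refine sum_le_sum fun i hi => ?_
          have hi' := Nat.mem_divisors.1 hi
          have hi0 : i ≠ 0 := by
            rintro rfl
            exact hn (Nat.eq_zero_of_zero_dvd hi'.1)
          have hni : n / i ≠ 0 := (Nat.div_pos (Nat.le_of_dvd (Nat.pos_of_ne_zero hn) hi'.1)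
            (Nat.pos_of_ne_zero hi0)).ne'
          rw [ArithmeticFunction.pmul_apply, toA_apply f hi0, toA_apply f0 hni, ArithmeticFunction.intCoe_apply,
            norm_mul, norm_mul]
          have h2 : ‖((ArithmeticFunction.moebius (n / i) : ℤ) : ℂ)‖ ≤ 1 := by
            rw [Complex.norm_intCast]
            exact_mod_cast ArithmeticFunction.abs_moebius_le_one
          exact mul_le_one₀ (hf.le _) (by positivity) (mul_le_one₀ h2 (norm_nonneg _) (hf0.le _))
      _ = (n.divisors.card : ℝ) := by simp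
  have h2 : n.divisors.card ≤ 2 ^ ArithmeticFunction.cardFactors n := by
    rw [Nat.card_divisors hn, ArithmeticFunction.cardFactors_eq_sum_factorization, Finsupp.sum,
      ← Finset.prod_pow_eq_pow_sum, Nat.support_factorization]
    refine Finset.prod_le_prod' fun p _ => ?_
    exact Nat.lt_two_pow_self
  refine h1.trans ?_
  exact_mod_cast h2

/-- dependence on a twist -/
theorem hA_twist {f f0 χ : ℕ → ℂ} (hχ : CF χ) {n : ℕ} (hn : n ≠ 0) :
    hA (fun n => f n * χ n) (fun n => f0 n * χ n) n = χ n * hA f f0 n := by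
  unfold hA
  rw [ArithmeticFunction.mul_apply, ArithmeticFunction.mul_apply, mul_sum]
  refine sum_congr rfl fun x hx => ?_
  rw [Nat.mem_divisorsAntidiagonal] at hx
  have hx1 : x.1 ≠ 0 := by
    rintro h
    rw [h, zero_mul] at hx
    exact hn hx.1.symm
  have hx2 : x.2 ≠ 0 := by
    rintro h
    rw [h, mul_zero] at hx
    exact hn hx.1.symm
  rw [ArithmeticFunction.pmul_apply, ArithmeticFunction.pmul_apply, toA_apply _ hx1, toA_apply _ hx2,
    toA_apply _ hx1, toA_apply _ hx2, ← hx.1, hχ.mul _ _ hx1 hx2]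
  ring

end Pool.Agent.SplB

end

/-! ### from `Lib_MP_f1a94e_lp.VDefs` -/

section

/-!
# MP_f1a94e_nt, joint law of the large prime factors: elementary definitions
-/

set_option autoImplicit false

namespace Pool.Agent.LPr

open Finset Filter

/-- product of `φ (log p / log X)` over the prime factors of `n` with multiplicity -/
noncomputable def gx (φ : ℝ → ℂ) (X : ℝ) (n : ℕ) : ℂ :=
  (n.primeFactorsList.map (fun p : ℕ => φ (Real.log p / Real.log X))).prod

/-- step functions of modulus one, equal to one outside finitely many intervals `(u, v]`, `0 < u` -/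
structure StepF (φ : ℝ → ℂ) : Prop where
  un : ∀ t, ‖φ t‖ = 1
  ex : ∃ (r : ℕ) (c : Fin r → ℂ) (u v : Fin r → ℝ), (∀ i, 0 < u i ∧ u i ≤ v i) ∧
    ∀ t, φ t = 1 + ∑ i, if u i < t ∧ t ≤ v i then c i else 0

/-- the mean value over the integers -/
noncomputable def mu (φ : ℝ → ℂ) : ℂ := limUnder atTop (fun X : ℝ => (∑ n ∈ Icc 1 ⌊X⌋₊, gx φ X n) / X)

open Classical in
/-- the mean value of `w ^ Ω(n) gx φ X n` -/
noncomputable def mm (w : ℂ) (φ : ℝ → ℂ) : ℂ := if w = 1 then mu φ else 0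

/-! ### Windows -/

open Classical in
/-- the primes in `(X^u, X^v]` -/
noncomputable def PW (X u v : ℝ) : Finset ℕ := (Icc 1 ⌊X ^ v⌋₊).filter (fun p => p.Prime ∧ X ^ u < (p : ℝ))

/-- `∑ g p / p` over the primes of `(X^u, X^v]` tends to `log (v / u)` -/
structure Mert (g : ℕ → ℝ) : Prop where
  nn : ∀ p, 0 ≤ g p
  lim : ∀ u v : ℝ, 0 < u → u ≤ v →
    Tendsto (fun X : ℝ => ∑ p ∈ PW X u v, g p / p) atTop (nhds (Real.log (v / u)))

/-- lists of windows -/
def Win (l : List (ℝ × ℝ)) : Prop := ∀ w ∈ l, 0 < w.1 ∧ w.1 ≤ w.2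

/-- sum of `∏ g(p_i)/p_i` over the tuples of primes, `p_i` in the `i`-th window, with product at most `X^s` -/
noncomputable def SW (g : ℕ → ℝ) (X : ℝ) : List (ℝ × ℝ) → ℝ → ℝ
  | [], s => if 0 ≤ s then 1 else 0
  | w :: l, s => ∑ p ∈ PW X w.1 w.2, g p / p * SW g X l (s - Real.log p / Real.log X)

/-- the number of tuples of primes, `p_i` in the `i`-th window, with product dividing `n` -/
noncomputable def TW (X : ℝ) : List (ℝ × ℝ) → ℕ → ℝ
  | [], _ => 1
  | w :: l, n => ∑ p ∈ (PW X w.1 w.2).filter (fun p => p ∣ n), TW X l (n / p)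

/-- the limit of `SW` at `s = 1` -/
noncomputable def NW (l : List (ℝ × ℝ)) : ℝ := limUnder atTop (fun X : ℝ => SW (fun _ => 1) X l 1)

/-- expansion of `(∑_i c_i W_i)^j` applied to a functional of lists of windows -/
noncomputable def expd {r : ℕ} (c : Fin r → ℂ) (u v : Fin r → ℝ) : ℕ → (List (ℝ × ℝ) → ℂ) → ℂ
  | 0, Λ => Λ []
  | j + 1, Λ => ∑ i, c i * expd c u v j (fun l => Λ ((u i, v i) :: l))

/-- the mean value in terms of the limits `NW` -/
noncomputable def EV {r : ℕ} (c : Fin r → ℂ) (u v : Fin r → ℝ) (J : ℕ) : ℂ :=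
  ∑ j ∈ range (J + 1), (1 / (j.factorial : ℂ)) * expd c u v j (fun l => (NW l : ℂ))

open Classical in
/-- the number of prime factors of `n` in `(x^u, x^v]`, with multiplicity -/
noncomputable def wc (x u v : ℝ) (n : ℕ) : ℕ :=
  (n.primeFactorsList.filter (fun p : ℕ => x ^ u < (p : ℝ) ∧ (p : ℝ) ≤ x ^ v)).length

theorem mem_PW {X u v : ℝ} (hX : 0 ≤ X) {p : ℕ} : p ∈ PW X u v ↔ p.Prime ∧ X ^ u < (p : ℝ) ∧ (p : ℝ) ≤ X ^ v := by
  classical
  unfold PW
  rw [mem_filter, mem_Icc]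
  constructor
  · rintro ⟨⟨-, h1⟩, h2, h3⟩
    exact ⟨h2, h3, (Nat.le_floor_iff (Real.rpow_nonneg hX v)).1 h1⟩
  · rintro ⟨h1, h2, h3⟩
    exact ⟨⟨h1.one_lt.le, Nat.le_floor h3⟩, h1, h2⟩

end Pool.Agent.LPr

end

/-! ### from `Lib_MP_f1a94e_lp.GxId` -/

section

/-!
# Piece GXID: `gx` in terms of tuples of primes
-/

set_option autoImplicit false

namespace Pool.Agent.LPr

open Finset Filter

/-- the large primes of `n` -/
private noncomputable def LQ (X δ : ℝ) (n : ℕ) : Finset ℕ :=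
  open Classical in n.primeFactors.filter (fun p => X ^ δ < (p : ℝ))

private theorem mem_LQ {X δ : ℝ} {n p : ℕ} (hn : n ≠ 0) :
    p ∈ LQ X δ n ↔ p.Prime ∧ p ∣ n ∧ X ^ δ < (p : ℝ) := by
  classical
  unfold LQ
  rw [mem_filter, Nat.mem_primeFactors]
  tauto

private theorem card_LQ {X δ : ℝ} (hX : 2 ≤ X) {n : ℕ} (hn : n ≠ 0) (hnX : (n : ℝ) ≤ X ^ 2) :
    δ * ((LQ X δ n).card : ℝ) ≤ 2 := by
  classical
  have hX0 : (0 : ℝ) ≤ X := by linarith
  have hX1 : (1 : ℝ) < X := by linarith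
  have h1 : (∏ p ∈ LQ X δ n, p) ∣ n :=
    (Finset.prod_dvd_prod_of_subset _ _ _ (filter_subset _ _)).trans (Nat.prod_primeFactors_dvd n)
  have h2 : ((∏ p ∈ LQ X δ n, p : ℕ) : ℝ) ≤ X ^ 2 := by
    refine le_trans ?_ hnX
    exact_mod_cast Nat.le_of_dvd (Nat.pos_of_ne_zero hn) h1
  have h3 : (X ^ δ) ^ (LQ X δ n).card ≤ ((∏ p ∈ LQ X δ n, p : ℕ) : ℝ) := by
    rw [Nat.cast_prod, ← Finset.prod_const]
    refine Finset.prod_le_prod (fun p _ => Real.rpow_nonneg hX0 δ) (fun p hp => ?_)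
    exact ((mem_LQ hn).1 hp).2.2.le
  have h4 : X ^ (δ * ((LQ X δ n).card : ℝ)) ≤ X ^ (2 : ℝ) := by
    rw [Real.rpow_mul hX0, Real.rpow_natCast, Real.rpow_two]
    exact h3.trans h2
  exact (Real.rpow_le_rpow_left_iff hX1).1 h4

private theorem div_ok {X : ℝ} {n p : ℕ} (hn : n ≠ 0) (hnX : (n : ℝ) ≤ X ^ 2) (hp : p ∣ n) :
    n / p ≠ 0 ∧ ((n / p : ℕ) : ℝ) ≤ X ^ 2 := by
  constructor
  · exact (Nat.div_pos (Nat.le_of_dvd (Nat.pos_of_ne_zero hn) hp) (Nat.pos_of_dvd_of_pos hp (Nat.pos_of_ne_zero hn))).ne'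
  · refine le_trans ?_ hnX
    exact_mod_cast Nat.div_le_self n p

/-- bound for the number of tuples of large primes with product dividing `n` -/
theorem tw_bd (δ : ℝ) (hδ : 0 < δ) (l : List (ℝ × ℝ)) (hl : ∀ w ∈ l, δ ≤ w.1) :
    ∃ B : ℝ, 0 ≤ B ∧ ∀ X : ℝ, 2 ≤ X → ∀ n : ℕ, n ≠ 0 → (n : ℝ) ≤ X ^ 2 → 0 ≤ TW X l n ∧ TW X l n ≤ B := by
  induction l with
  | nil => exact ⟨1, zero_le_one, fun X _ n _ _ => by simp [TW]⟩
  | cons w l ih =>
    obtain ⟨B, hB, h⟩ := ih (fun w' hw' => hl w' (List.mem_cons_of_mem _ hw'))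
    refine ⟨2 / δ * B, by positivity, fun X hX n hn hnX => ?_⟩
    have hX0 : (0 : ℝ) ≤ X := by linarith
    have key : ∀ p ∈ (PW X w.1 w.2).filter (fun p => p ∣ n), 0 ≤ TW X l (n / p) ∧ TW X l (n / p) ≤ B := by
      intro p hp
      have hd := div_ok hn hnX (mem_filter.1 hp).2
      exact h X hX _ hd.1 hd.2
    have hsub : (PW X w.1 w.2).filter (fun p => p ∣ n) ⊆ LQ X δ n := by
      intro p hp
      obtain ⟨hp1, hp2⟩ := mem_filter.1 hp
      obtain ⟨h1, h2, -⟩ := (mem_PW hX0).1 hp1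
      refine (mem_LQ hn).2 ⟨h1, hp2, lt_of_le_of_lt ?_ h2⟩
      exact Real.rpow_le_rpow_of_exponent_le (by linarith) (hl w (List.mem_cons_self))
    have hcard : ((((PW X w.1 w.2).filter (fun p => p ∣ n)).card : ℕ) : ℝ) ≤ 2 / δ := by
      rw [le_div_iff₀ hδ, mul_comm]
      refine le_trans ?_ (card_LQ (δ := δ) hX hn hnX)
      gcongr
    rw [TW]
    refine ⟨Finset.sum_nonneg (fun p hp => (key p hp).1), ?_⟩
    calc ∑ p ∈ (PW X w.1 w.2).filter (fun p => p ∣ n), TW X l (n / p)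
        ≤ ((PW X w.1 w.2).filter (fun p => p ∣ n)).card • B := Finset.sum_le_card_nsmul _ _ _ (fun p hp => (key p hp).2)
      _ = (((PW X w.1 w.2).filter (fun p => p ∣ n)).card : ℝ) * B := by rw [nsmul_eq_mul]
      _ ≤ 2 / δ * B := by gcongr

private theorem expd_sum {r : ℕ} (c : Fin r → ℂ) (u v : Fin r → ℝ) (s : Finset ℕ) (j : ℕ) :
    ∀ Λ : ℕ → List (ℝ × ℝ) → ℂ, expd c u v j (fun l => ∑ p ∈ s, Λ p l) = ∑ p ∈ s, expd c u v j (Λ p) := by
  induction j with
  | zero => intro Λ; simp [expd]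
  | succ j ih =>
    intro Λ
    simp only [expd]
    rw [Finset.sum_comm]
    refine Finset.sum_congr rfl (fun i _ => ?_)
    rw [ih (fun p l => Λ p ((u i, v i) :: l)), Finset.mul_sum]

private theorem esum (y : ℕ → ℂ) (L : Finset ℕ) (j : ℕ) :
    ∑ p ∈ L, y p * ∑ S ∈ powersetCard j (L.erase p), ∏ q ∈ S, y q
      = ((j : ℂ) + 1) * ∑ S ∈ powersetCard (j + 1) L, ∏ q ∈ S, y q := by
  have h1 : ((j : ℂ) + 1) * ∑ S ∈ powersetCard (j + 1) L, ∏ q ∈ S, y q
      = ∑ S ∈ powersetCard (j + 1) L, ∑ p ∈ S, ∏ q ∈ S, y q := by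
    rw [Finset.mul_sum]
    refine Finset.sum_congr rfl (fun S hS => ?_)
    rw [Finset.sum_const, (mem_powersetCard.1 hS).2, nsmul_eq_mul]
    push_cast
    ring
  rw [h1]
  simp only [Finset.mul_sum]
  rw [Finset.sum_sigma', Finset.sum_sigma']
  refine Finset.sum_bij' (fun a _ => ⟨insert a.1 a.2, a.1⟩) (fun a _ => ⟨a.2, a.1.erase a.2⟩) ?_ ?_ ?_ ?_ ?_
  · rintro ⟨p, S⟩ h
    obtain ⟨hp, hS⟩ := mem_sigma.1 h
    obtain ⟨hS1, hS2⟩ := mem_powersetCard.1 hS
    have hpS : p ∉ S := fun hh => (mem_erase.1 (hS1 hh)).1 rfl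
    refine mem_sigma.2 ⟨mem_powersetCard.2 ⟨?_, ?_⟩, mem_insert_self _ _⟩
    · exact insert_subset hp (hS1.trans (erase_subset _ _))
    · simp only [card_insert_of_notMem hpS, hS2]
  · rintro ⟨T, p⟩ h
    obtain ⟨hT, hp⟩ := mem_sigma.1 h
    obtain ⟨hT1, hT2⟩ := mem_powersetCard.1 hT
    refine mem_sigma.2 ⟨hT1 hp, mem_powersetCard.2 ⟨erase_subset_erase _ hT1, ?_⟩⟩
    simp only at hp hT2 ⊢
    rw [card_erase_of_mem hp, hT2]
    rfl
  · rintro ⟨p, S⟩ h
    obtain ⟨hp, hS⟩ := mem_sigma.1 h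
    obtain ⟨hS1, hS2⟩ := mem_powersetCard.1 hS
    have hpS : p ∉ S := fun hh => (mem_erase.1 (hS1 hh)).1 rfl
    simp only [erase_insert hpS]
  · rintro ⟨T, p⟩ h
    obtain ⟨hT, hp⟩ := mem_sigma.1 h
    simp only at hp ⊢
    simp only [insert_erase hp]
  · rintro ⟨p, S⟩ h
    obtain ⟨hp, hS⟩ := mem_sigma.1 h
    obtain ⟨hS1, hS2⟩ := mem_powersetCard.1 hS
    have hpS : p ∉ S := fun hh => (mem_erase.1 (hS1 hh)).1 rfl
    simp only [prod_insert hpS]

private theorem win_iff {X : ℝ} (hX : 2 ≤ X) {p : ℕ} (hp : p.Prime) (a b : ℝ) :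
    (X ^ a < (p : ℝ) ∧ (p : ℝ) ≤ X ^ b) ↔ (a < Real.log p / Real.log X ∧ Real.log p / Real.log X ≤ b) := by
  have hX0 : (0 : ℝ) < X := by linarith
  have hlX : 0 < Real.log X := Real.log_pos (by linarith)
  have hp0 : (0 : ℝ) < p := by exact_mod_cast hp.pos
  rw [lt_div_iff₀ hlX, div_le_iff₀ hlX, ← Real.log_rpow hX0, ← Real.log_rpow hX0,
    Real.log_lt_log_iff (Real.rpow_pos_of_pos hX0 a) hp0, Real.log_le_log_iff hp0 (Real.rpow_pos_of_pos hX0 b)]

private theorem expd_TW {r : ℕ} (c : Fin r → ℂ) (u v : Fin r → ℝ) (δ : ℝ) (hδu : ∀ i, δ ≤ u i)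
    (X : ℝ) (hX : 2 ≤ X) (n : ℕ) (hn : n ≠ 0)
    (hsq : ∀ p : ℕ, p.Prime → X ^ δ < (p : ℝ) → ¬ p ^ 2 ∣ n) (j : ℕ) :
    ∀ m : ℕ, m ∣ n → expd c u v j (fun l => (TW X l m : ℂ)) = (j.factorial : ℂ) *
      ∑ S ∈ powersetCard j (LQ X δ m), ∏ q ∈ S,
        ∑ i, if u i < Real.log q / Real.log X ∧ Real.log q / Real.log X ≤ v i then c i else 0 := by
  classical
  have hX0 : (0 : ℝ) ≤ X := by linarith
  set y : ℕ → ℂ := fun q => ∑ i, if u i < Real.log q / Real.log X ∧ Real.log q / Real.log X ≤ v i then c i else 0 with hy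
  induction j with
  | zero =>
    intro m _
    simp [expd, TW]
  | succ j ih =>
    intro m hm
    have hm0 : m ≠ 0 := fun h => hn (by rw [h] at hm; exact Nat.eq_zero_of_zero_dvd hm)
    have hset : ∀ i, (PW X (u i) (v i)).filter (fun p => p ∣ m) =
        (LQ X δ m).filter (fun p : ℕ => u i < Real.log (p : ℝ) / Real.log X ∧ Real.log (p : ℝ) / Real.log X ≤ v i) := by
      intro i
      ext p
      rw [mem_filter, mem_filter, mem_PW hX0, mem_LQ hm0]
      constructor
      · rintro ⟨⟨h1, h2⟩, h3⟩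
        refine ⟨⟨h1, h3, lt_of_le_of_lt ?_ h2.1⟩, (win_iff hX h1 _ _).1 h2⟩
        exact Real.rpow_le_rpow_of_exponent_le (by linarith) (hδu i)
      · rintro ⟨⟨h1, h3, -⟩, h2⟩
        exact ⟨⟨h1, (win_iff hX h1 _ _).2 h2⟩, h3⟩
    have hstep : expd c u v (j + 1) (fun l => (TW X l m : ℂ)) =
        ∑ p ∈ LQ X δ m, y p * expd c u v j (fun l => (TW X l (m / p) : ℂ)) := by
      rw [expd]
      have h1 : ∀ i, expd c u v j (fun l => ((TW X ((u i, v i) :: l) m : ℝ) : ℂ)) =
          ∑ p ∈ (PW X (u i) (v i)).filter (fun p => p ∣ m), expd c u v j (fun l => (TW X l (m / p) : ℂ)) := by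
        intro i
        rw [← expd_sum c u v _ j (fun p l => (TW X l (m / p) : ℂ))]
        congr 1
        funext l
        rw [TW]
        push_cast
        rfl
      simp only [h1, hset]
      simp only [Finset.sum_filter, Finset.mul_sum, hy, Finset.sum_mul]
      rw [Finset.sum_comm]
      refine Finset.sum_congr rfl (fun p _ => Finset.sum_congr rfl (fun i _ => ?_))
      split_ifs <;> ring
    rw [hstep]
    have h2 : ∀ p ∈ LQ X δ m, y p * expd c u v j (fun l => (TW X l (m / p) : ℂ)) =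
        (j.factorial : ℂ) * (y p * ∑ S ∈ powersetCard j ((LQ X δ m).erase p), ∏ q ∈ S, y q) := by
      intro p hp
      obtain ⟨hp1, hp2, hp3⟩ := (mem_LQ hm0).1 hp
      have hd0 : m / p ≠ 0 := (Nat.div_pos (Nat.le_of_dvd (Nat.pos_of_ne_zero hm0) hp2) hp1.pos).ne'
      have hLe : LQ X δ (m / p) = (LQ X δ m).erase p := by
        ext q
        rw [mem_erase, mem_LQ hd0, mem_LQ hm0]
        constructor
        · rintro ⟨q1, q2, q3⟩
          refine ⟨?_, q1, q2.trans (Nat.div_dvd_of_dvd hp2), q3⟩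
          rintro rfl
          apply hsq q q1 q3
          refine dvd_trans ?_ hm
          rw [pow_two]
          exact (Nat.dvd_div_iff_mul_dvd hp2).1 q2
        · rintro ⟨q0, q1, q2, q3⟩
          refine ⟨q1, ?_, q3⟩
          have : q ∣ p * (m / p) := by rw [Nat.mul_div_cancel' hp2]; exact q2
          rcases (Nat.Prime.dvd_mul q1).1 this with h | h
          · exact absurd ((Nat.prime_dvd_prime_iff_eq q1 hp1).1 h) q0
          · exact h
      rw [ih (m / p) ((Nat.div_dvd_of_dvd hp2).trans hm), hLe]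
      ring
    rw [Finset.sum_congr rfl h2, ← Finset.mul_sum, esum y (LQ X δ m) j, Nat.factorial_succ]
    push_cast
    ring

/-- `gx` in terms of tuples of primes (elementary symmetric polynomials) -/
theorem gx_id {r : ℕ} (c : Fin r → ℂ) (u v : Fin r → ℝ) (φ : ℝ → ℂ)
    (hφ : ∀ t, φ t = 1 + ∑ i, if u i < t ∧ t ≤ v i then c i else 0) (δ : ℝ) (hδ : 0 < δ) (hδu : ∀ i, δ ≤ u i)
    (J : ℕ) (hJ : 2 < (J + 1) * δ) (X : ℝ) (hX : 2 ≤ X) (n : ℕ) (hn : n ≠ 0) (hnX : (n : ℝ) ≤ X ^ 2)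
    (hsq : ∀ p : ℕ, p.Prime → X ^ δ < (p : ℝ) → ¬ p ^ 2 ∣ n) :
    gx φ X n = ∑ j ∈ range (J + 1), (1 / (j.factorial : ℂ)) * expd c u v j (fun l => (TW X l n : ℂ)) := by
  classical
  have hX0 : (0 : ℝ) < X := by linarith
  have hlX : 0 < Real.log X := Real.log_pos (by linarith)
  set y : ℕ → ℂ := fun q => ∑ i, if u i < Real.log q / Real.log X ∧ Real.log q / Real.log X ≤ v i then c i else 0 with hy
  have hφy : ∀ q : ℕ, φ (Real.log q / Real.log X) = 1 + y q := fun q => hφ _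
  have hcardJ : (LQ X δ n).card ≤ J := by
    have h1 := card_LQ (δ := δ) hX hn hnX
    by_contra hcon
    push Not at hcon
    have h2 : ((J : ℝ) + 1) ≤ ((LQ X δ n).card : ℝ) := by exact_mod_cast hcon
    nlinarith
  -- the product
  have hprod : gx φ X n = ∏ p ∈ LQ X δ n, (1 + y p) := by
    unfold gx
    rw [Finset.prod_list_map_count]
    have hsub : LQ X δ n ⊆ n.primeFactorsList.toFinset := by
      intro p hp
      obtain ⟨h1, h2, -⟩ := (mem_LQ hn).1 hp
      rw [List.mem_toFinset, Nat.mem_primeFactorsList hn]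
      exact ⟨h1, h2⟩
    rw [← Finset.prod_subset hsub]
    · refine Finset.prod_congr rfl (fun p hp => ?_)
      obtain ⟨h1, h2, h3⟩ := (mem_LQ hn).1 hp
      rw [hφy, Nat.primeFactorsList_count_eq]
      have h4 : n.factorization p = 1 := by
        apply le_antisymm
        · by_contra hcon
          push Not at hcon
          exact hsq p h1 h3 ((h1.pow_dvd_iff_le_factorization hn).2 hcon)
        · exact (h1.dvd_iff_one_le_factorization hn).1 h2
      rw [h4, pow_one]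
    · intro p hp hpL
      rw [List.mem_toFinset, Nat.mem_primeFactorsList hn] at hp
      have hle : (p : ℝ) ≤ X ^ δ := by
        by_contra hcon
        push Not at hcon
        exact hpL ((mem_LQ hn).2 ⟨hp.1, hp.2, hcon⟩)
      have ht : Real.log p / Real.log X ≤ δ := by
        rw [div_le_iff₀ hlX, ← Real.log_rpow hX0]
        exact Real.log_le_log (by exact_mod_cast hp.1.pos) hle
      have hy0 : y p = 0 := by
        rw [hy]
        refine Finset.sum_eq_zero (fun i _ => ?_)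
        rw [if_neg]
        rintro ⟨h1, -⟩
        linarith [hδu i]
      rw [hφy, hy0, add_zero, one_pow]
  rw [hprod, Finset.prod_one_add, Finset.sum_powerset]
  have hterm : ∀ j, (1 / (j.factorial : ℂ)) * expd c u v j (fun l => (TW X l n : ℂ)) =
      ∑ S ∈ powersetCard j (LQ X δ n), ∏ q ∈ S, y q := by
    intro j
    rw [expd_TW c u v δ hδu X hX n hn hsq j n dvd_rfl, ← mul_assoc, one_div,
      inv_mul_cancel₀ (by exact_mod_cast (Nat.factorial_ne_zero j)), one_mul]
  simp only [hterm]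
  refine Finset.sum_subset (range_subset_range.2 (by omega)) (fun j _ hj => ?_)
  rw [mem_range, not_lt] at hj
  rw [powersetCard_eq_empty.2 (by omega), Finset.sum_empty]

end Pool.Agent.LPr

end

/-! ### from `Lib_MP_f1a94e_lp.SWb` -/

section

/-!
# Piece SWB: simple facts on `SW`
-/

set_option autoImplicit false

namespace Pool.Agent.LPr

open Finset Filter

/-- induction on `l` -/
theorem sw_nn (g : ℕ → ℝ) (hg : ∀ p, 0 ≤ g p) (X : ℝ) (l : List (ℝ × ℝ)) (s : ℝ) : 0 ≤ SW g X l s := by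
  induction l generalizing s with
  | nil =>
    unfold SW
    split_ifs
    · exact zero_le_one
    · exact le_rfl
  | cons w l ih =>
    unfold SW
    exact Finset.sum_nonneg (fun p _ => mul_nonneg (div_nonneg (hg p) (Nat.cast_nonneg p)) (ih _))

/-- induction on `l` -/
theorem sw_mono (g : ℕ → ℝ) (hg : ∀ p, 0 ≤ g p) (X : ℝ) (l : List (ℝ × ℝ)) (s t : ℝ) (h : s ≤ t) :
    SW g X l s ≤ SW g X l t := by
  induction l generalizing s t with
  | nil =>
    unfold SW
    split_ifs with h1 h2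
    · exact le_rfl
    · exact absurd (h1.trans h) h2
    · exact zero_le_one
    · exact le_rfl
  | cons w l ih =>
    unfold SW
    exact Finset.sum_le_sum (fun p _ => mul_le_mul_of_nonneg_left
      (ih _ _ (sub_le_sub_right h _)) (div_nonneg (hg p) (Nat.cast_nonneg p)))

/-- the mass of a window is eventually at most its limit plus one -/
private theorem swb_mass (g : ℕ → ℝ) (hg : Mert g) (u v : ℝ) (hu : 0 < u) (huv : u ≤ v) (δ : ℝ)
    (hδ : 0 < δ) :
    ∀ᶠ X : ℝ in atTop, ∑ p ∈ PW X u v, g p / p ≤ Real.log (v / u) + δ :=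
  (hg.lim u v hu huv).eventually (Iic_mem_nhds (lt_add_of_pos_right _ hδ))

/-- induction on `l`: `B_(w :: l) = (log (w.2 / w.1) + 1) B_l` -/
theorem sw_bd (g : ℕ → ℝ) (hg : Mert g) (l : List (ℝ × ℝ)) (hl : Win l) :
    ∃ B : ℝ, 0 ≤ B ∧ ∀ᶠ X : ℝ in atTop, ∀ s : ℝ, SW g X l s ≤ B := by
  induction l with
  | nil =>
    refine ⟨1, zero_le_one, Eventually.of_forall (fun X s => ?_)⟩
    unfold SW
    split_ifs
    · exact le_rfl
    · exact zero_le_one
  | cons w l ih =>
    obtain ⟨B, hB, hB2⟩ := ih (fun w' hw' => hl w' (List.mem_cons_of_mem _ hw'))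
    obtain ⟨hw1, hw2⟩ := hl w List.mem_cons_self
    have hlog : 0 ≤ Real.log (w.2 / w.1) := Real.log_nonneg ((one_le_div hw1).mpr hw2)
    refine ⟨(Real.log (w.2 / w.1) + 1) * B, mul_nonneg (by linarith) hB, ?_⟩
    filter_upwards [hB2, swb_mass g hg w.1 w.2 hw1 hw2 1 one_pos] with X h1 h2 s
    unfold SW
    calc ∑ p ∈ PW X w.1 w.2, g p / p * SW g X l (s - Real.log p / Real.log X)
        ≤ ∑ p ∈ PW X w.1 w.2, g p / p * B :=
          Finset.sum_le_sum (fun p _ => mul_le_mul_of_nonneg_left (h1 _)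
            (div_nonneg (hg.nn p) (Nat.cast_nonneg p)))
      _ = (∑ p ∈ PW X w.1 w.2, g p / p) * B := by rw [Finset.sum_mul]
      _ ≤ (Real.log (w.2 / w.1) + 1) * B := mul_le_mul_of_nonneg_right h2 hB

private theorem swb_grid (u ρ : ℝ) (N : ℕ) (x : ℝ) (h1 : u ≤ x) (h2 : x < u * ρ ^ N) :
    ∃ i : ℕ, i < N ∧ u * ρ ^ i ≤ x ∧ x < u * ρ ^ (i + 1) := by
  induction N with
  | zero =>
    rw [pow_zero, mul_one] at h2
    exact absurd h2 (not_lt.mpr h1)
  | succ n ih =>
    by_cases h3 : x < u * ρ ^ n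
    · obtain ⟨i, hi, h4⟩ := ih h3
      exact ⟨i, hi.trans (Nat.lt_succ_self n), h4⟩
    · exact ⟨n, Nat.lt_succ_self n, not_lt.mp h3, h2⟩

open Classical in
/-- small windows have small mass -/
private theorem swb_small (g : ℕ → ℝ) (hg : Mert g) (u v : ℝ) (hu : 0 < u) (huv : u ≤ v) (ε : ℝ)
    (hε : 0 < ε) :
    ∃ η : ℝ, 0 < η ∧ ∀ᶠ X : ℝ in atTop, ∀ s : ℝ,
      ∑ p ∈ (PW X u v).filter (fun p : ℕ => s < Real.log p / Real.log X ∧
        Real.log p / Real.log X ≤ s + η), g p / p ≤ ε := by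
  rcases eq_or_lt_of_le huv with h | h
  · refine ⟨1, one_pos, ?_⟩
    filter_upwards [eventually_ge_atTop (0 : ℝ)] with X hX s
    rw [Finset.sum_eq_zero]
    · exact hε.le
    · intro p hp
      have h1 := (mem_PW hX).mp (Finset.mem_filter.mp hp).1
      rw [h] at h1
      exact absurd h1.2.2 (not_le.mpr h1.2.1)
  · have hq : 1 < v / u := (one_lt_div hu).mpr h
    have hlog : 0 < Real.log (v / u) := Real.log_pos hq
    obtain ⟨N, hN⟩ := exists_nat_gt (4 * Real.log (v / u) / ε)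
    have hN0 : (0 : ℝ) < N := lt_of_le_of_lt (by positivity) hN
    have hN1 : N ≠ 0 := by
      rintro rfl
      simp at hN0
    obtain ⟨ρ, hρdef⟩ : ∃ ρ : ℝ, ρ = Real.exp (Real.log (v / u) / N) := ⟨_, rfl⟩
    have hρ1 : 1 < ρ := by
      rw [hρdef]
      exact Real.one_lt_exp_iff.mpr (div_pos hlog hN0)
    have hρ0 : 0 < ρ := lt_trans one_pos hρ1
    have hρN : u * ρ ^ N = v := by
      rw [hρdef, ← Real.exp_nat_mul, mul_div_cancel₀ _ hN0.ne', Real.exp_log (lt_trans one_pos hq)]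
      field_simp
    have hlρ : Real.log ρ = Real.log (v / u) / N := by
      rw [hρdef, Real.log_exp]
    refine ⟨u * (ρ - 1), mul_pos hu (by linarith), ?_⟩
    have hev : ∀ᶠ X : ℝ in atTop, ∀ i ∈ Finset.range N,
        ∑ p ∈ PW X (u * ρ ^ i) (u * ρ ^ (i + 2)), g p / p ≤ ε := by
      rw [Filter.eventually_all_finset]
      intro i _
      have h1 := swb_mass g hg (u * ρ ^ i) (u * ρ ^ (i + 2)) (by positivity)
        (mul_le_mul_of_nonneg_left (pow_le_pow_right₀ hρ1.le (by omega)) hu.le) (ε / 2)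
        (by linarith)
      filter_upwards [h1] with X hX
      refine hX.trans ?_
      have h2 : u * ρ ^ (i + 2) / (u * ρ ^ i) = ρ ^ 2 := by
        rw [mul_div_mul_left _ _ hu.ne', pow_add]
        field_simp
      rw [h2, Real.log_pow, hlρ]
      have h3 : 4 * Real.log (v / u) < N * ε := (div_lt_iff₀ hε).mp hN
      have h4 : Real.log (v / u) / N < ε / 4 := by
        rw [div_lt_div_iff₀ hN0 (by norm_num)]
        linarith
      push_cast
      linarith
    filter_upwards [hev, eventually_gt_atTop (1 : ℝ)] with X hX hX1 s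
    have hlX : 0 < Real.log X := Real.log_pos hX1
    have hX0 : (0 : ℝ) < X := lt_trans one_pos hX1
    -- position of a prime
    have hpos : ∀ p ∈ PW X u v, u < Real.log p / Real.log X ∧ Real.log p / Real.log X ≤ v := by
      intro p hp
      obtain ⟨hp1, hp2, hp3⟩ := (mem_PW hX0.le).mp hp
      have hp0 : (0 : ℝ) < p := by exact_mod_cast hp1.pos
      constructor
      · rw [lt_div_iff₀ hlX, ← Real.log_rpow hX0]
        exact Real.log_lt_log (Real.rpow_pos_of_pos hX0 u) hp2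
      · rw [div_le_iff₀ hlX, ← Real.log_rpow hX0]
        exact Real.log_le_log hp0 hp3
    by_cases hs : max s u < v
    · rw [← hρN] at hs
      obtain ⟨i, hi, hi1, hi2⟩ := swb_grid u ρ N (max s u) (le_max_right _ _) hs
      refine le_trans ?_ (hX i (Finset.mem_range.mpr hi))
      refine Finset.sum_le_sum_of_subset_of_nonneg ?_
        (fun p _ _ => div_nonneg (hg.nn p) (Nat.cast_nonneg p))
      intro p hp
      obtain ⟨hp1, hp2, hp3⟩ := Finset.mem_filter.mp hp
      obtain ⟨hq1, hq2⟩ := hpos p hp1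
      obtain ⟨hr1, hr2, hr3⟩ := (mem_PW hX0.le).mp hp1
      have hp0 : (0 : ℝ) < p := by exact_mod_cast hr1.pos
      have h5 : max s u < Real.log p / Real.log X := max_lt hp2 hq1
      have h6 : Real.log p / Real.log X ≤ u * ρ ^ (i + 2) := by
        have h7 : s ≤ max s u := le_max_left _ _
        have h8 : u * (ρ - 1) ≤ u * ρ ^ (i + 1) * (ρ - 1) := by
          have h9 : (1 : ℝ) ≤ ρ ^ (i + 1) := one_le_pow₀ hρ1.le
          have h10 : 0 ≤ u * (ρ - 1) := mul_nonneg hu.le (by linarith)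
          nlinarith
        have h11 : u * ρ ^ (i + 2) = u * ρ ^ (i + 1) + u * ρ ^ (i + 1) * (ρ - 1) := by ring
        linarith
      have h12 : u * ρ ^ i < Real.log p / Real.log X := lt_of_le_of_lt hi1 h5
      have hpe : (p : ℝ) = X ^ (Real.log p / Real.log X) := by
        rw [Real.rpow_def_of_pos hX0, mul_div_cancel₀ _ hlX.ne', Real.exp_log hp0]
      rw [mem_PW hX0.le]
      refine ⟨hr1, ?_, ?_⟩
      · rw [hpe]
        exact Real.rpow_lt_rpow_of_exponent_lt hX1 h12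
      · conv_lhs => rw [hpe]
        exact Real.rpow_le_rpow_of_exponent_le hX1.le h6
    · rw [Finset.sum_eq_zero]
      · exact hε.le
      · intro p hp
        obtain ⟨hp1, hp2, hp3⟩ := Finset.mem_filter.mp hp
        obtain ⟨hq1, hq2⟩ := hpos p hp1
        exact absurd (lt_of_lt_of_le (max_lt hp2 hq1) hq2) hs

/-- PROOF. Small windows have small mass, uniformly: for `ε > 0` and `0 < u ≤ v` there is `η > 0` such that for `X` large and ALL real `s`, the sum of `g p / p` over the `p ∈ PW X u v` with `s < log p / log X ≤ s + η` is at most `ε`: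
take the grid `u = t_0 < ... < t_N = v`, `t_i = u (v/u)^(i/N)` with `log (v/u) / N ≤ ε / 4`, `η = min_i (t_(i+1) - t_i)`; an interval `(s, s + η]` meets at most two of the windows `(t_i, t_(i+1)]`, and each of these finitely many windows has mass `≤ ε / 2` for `X` large (`Mert.lim`).
(If `u = v` the window is empty.) Then induction on `l`: for `l = [w]`, `SW [w] (s + η) - SW [w] s = ∑_(p, s < log p / log X ≤ s + η) g p / p ≤ ε`. For `l = w :: l'`, `l' ≠ []`:
`SW l (s + η) - SW l s = ∑_p g p / p (SW l' (s + η - log p / log X) - SW l' (s - log p / log X)) ≤ ε' ∑_p g p / p ≤ ε' (log (w.2 / w.1) + 1)`. -/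
theorem sw_equi (g : ℕ → ℝ) (hg : Mert g) (l : List (ℝ × ℝ)) (hl : Win l) (hne : l ≠ []) (ε : ℝ) (hε : 0 < ε) :
    ∃ η : ℝ, 0 < η ∧ ∀ᶠ X : ℝ in atTop, ∀ s : ℝ, SW g X l (s + η) - SW g X l s ≤ ε := by
  classical
  induction l generalizing ε with
  | nil => exact absurd rfl hne
  | cons w l ih =>
    obtain ⟨hw1, hw2⟩ := hl w List.mem_cons_self
    have hl' : Win l := fun w' hw' => hl w' (List.mem_cons_of_mem _ hw')
    by_cases hln : l = []
    · subst hln
      obtain ⟨η, hη, hη2⟩ := swb_small g hg w.1 w.2 hw1 hw2 ε hε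
      refine ⟨η, hη, ?_⟩
      filter_upwards [hη2] with X hX s
      refine le_trans (le_of_eq ?_) (hX s)
      unfold SW
      rw [← Finset.sum_sub_distrib, Finset.sum_filter]
      refine Finset.sum_congr rfl (fun p _ => ?_)
      unfold SW
      rw [← mul_sub]
      by_cases h1 : s < Real.log p / Real.log X
      · rw [if_neg (c := 0 ≤ s - Real.log p / Real.log X) (by linarith), sub_zero]
        by_cases h2 : Real.log p / Real.log X ≤ s + η
        · rw [if_pos (by linarith), if_pos ⟨h1, h2⟩, mul_one]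
        · rw [if_neg (by linarith), if_neg (fun h => h2 h.2), mul_zero]
      · rw [if_pos (c := 0 ≤ s - Real.log p / Real.log X) (by linarith),
          if_pos (by linarith), if_neg (fun h => h1 h.1), sub_self, mul_zero]
    · have hlog : 0 ≤ Real.log (w.2 / w.1) := Real.log_nonneg ((one_le_div hw1).mpr hw2)
      obtain ⟨η, hη, hη2⟩ := ih hl' hln (ε / (Real.log (w.2 / w.1) + 1)) (by positivity)
      refine ⟨η, hη, ?_⟩
      filter_upwards [hη2, swb_mass g hg w.1 w.2 hw1 hw2 1 one_pos] with X h1 h2 s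
      have e1 : SW g X (w :: l) (s + η) - SW g X (w :: l) s = ∑ p ∈ PW X w.1 w.2, g p / p *
          (SW g X l ((s - Real.log p / Real.log X) + η) -
            SW g X l (s - Real.log p / Real.log X)) := by
        show (∑ p ∈ PW X w.1 w.2, g p / p * SW g X l (s + η - Real.log p / Real.log X)) -
          (∑ p ∈ PW X w.1 w.2, g p / p * SW g X l (s - Real.log p / Real.log X)) = _
        rw [← Finset.sum_sub_distrib]
        refine Finset.sum_congr rfl (fun p _ => ?_)
        rw [← mul_sub, show s + η - Real.log p / Real.log X =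
          (s - Real.log p / Real.log X) + η by ring]
      rw [e1]
      calc _ ≤ ∑ p ∈ PW X w.1 w.2, g p / p * (ε / (Real.log (w.2 / w.1) + 1)) :=
            Finset.sum_le_sum (fun p _ => mul_le_mul_of_nonneg_left (h1 _)
              (div_nonneg (hg.nn p) (Nat.cast_nonneg p)))
        _ = (∑ p ∈ PW X w.1 w.2, g p / p) * (ε / (Real.log (w.2 / w.1) + 1)) := by
            rw [Finset.sum_mul]
        _ ≤ (Real.log (w.2 / w.1) + 1) * (ε / (Real.log (w.2 / w.1) + 1)) :=
            mul_le_mul_of_nonneg_right h2 (by positivity)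
        _ = ε := by field_simp

end Pool.Agent.LPr

end

/-! ### from `Lib_MP_f1a94e_lp.ProfD` -/

section

/-!
# Numbers with a given profile of large prime factors: definition
-/

set_option autoImplicit false

namespace Pool.Agent.LPr

open Finset Filter

/-- `n = s p_1 ... p_k` with primes `p_i` between `y^(t i - ε)` and `y^(t i + ε)`, all prime factors of `s` at most `y^ε`
and `s ≤ y^(1 - ∑ t i + ε)` -/
def BigG (k : ℕ) (t : Fin k → ℝ) (ε y : ℝ) (n : ℕ) : Prop :=
  ∃ (s : ℕ) (p : Fin k → ℕ), (∀ i, (p i).Prime ∧ y ^ (t i - ε) ≤ p i ∧ (p i : ℝ) ≤ y ^ (t i + ε)) ∧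
    n = s * ∏ i, p i ∧ (s : ℝ) ≤ y ^ (1 - ∑ i, t i + ε) ∧ ∀ r : ℕ, r.Prime → r ∣ s → (r : ℝ) ≤ y ^ ε

end Pool.Agent.LPr

end
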