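import Mathlib

/-!
# MP_92ef0c_nt, split pairs: merged library part M02

Concatenation of smaller files (each in its own section), only to save build time.
-/

/-! ### from `Lib_MP_f1a94e_mr.Defs` -/

section

/-!
# MP_f1a94e_nt, strong theorem: definitions

Gaussian integers, directions, the set `V X` of odd primitive Gaussian integers of norm at most `X`,
sign functions, Fourier coefficients.
-/

set_option autoImplicit false

namespace Pool.Agent.GaussMR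

open Complex

/-- Gaussian integers -/
abbrev G := GaussianInt

/-- the norm as a natural number -/
def nm (z : G) : ℕ := z.norm.natAbs

/-- determinant of two Gaussian integers, the imaginary part of `star z * w` -/
def det (z w : G) : ℤ := z.re * w.im - z.im * w.re

/-- scalar product of two Gaussian integers, the real part of `star z * w` -/
def dot (z w : G) : ℤ := z.re * w.re + z.im * w.im

/-- primitive Gaussian integers: coprime coordinates -/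
def Prim (z : G) : Prop := IsCoprime z.re z.im

/-- the direction `z / |z|` -/
noncomputable def dir (z : G) : ℂ := (z : ℂ) / ((‖(z : ℂ)‖ : ℝ) : ℂ)

/-- the angular character `(z / |z|) ^ k` -/
noncomputable def xi (k : ℤ) (z : G) : ℂ := dir z ^ k

theorem nm_eq (z : G) : (nm z : ℤ) = z.re ^ 2 + z.im ^ 2 := by
  unfold nm
  rw [Int.natAbs_of_nonneg (GaussianInt.norm_nonneg z), Zsqrtd.norm_def]
  ring

theorem finite_ball (X : ℝ) : {z : G | (nm z : ℝ) ≤ X}.Finite := by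
  have h : {z : G | (nm z : ℝ) ≤ X} ⊆
      (fun p : ℤ × ℤ => (⟨p.1, p.2⟩ : G)) ''
        ((Set.Icc (-(⌈|X|⌉₊ : ℤ)) ⌈|X|⌉₊) ×ˢ (Set.Icc (-(⌈|X|⌉₊ : ℤ)) ⌈|X|⌉₊)) := by
    intro z hz
    have hz' : (nm z : ℝ) ≤ X := hz
    have h1 : (nm z : ℝ) ≤ ⌈|X|⌉₊ := hz'.trans ((le_abs_self X).trans (Nat.le_ceil _))
    have h2 : (nm z : ℤ) ≤ ⌈|X|⌉₊ := by exact_mod_cast h1
    rw [nm_eq] at h2
    set M : ℤ := (⌈|X|⌉₊ : ℤ) with hM
    refine ⟨(z.re, z.im), ?_, rfl⟩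
    have a1 : -M ≤ z.re ∧ z.re ≤ M := by
      constructor <;> nlinarith [sq_nonneg z.im, sq_nonneg z.re, sq_nonneg (z.re + 1), sq_nonneg (z.re - 1)]
    have a2 : -M ≤ z.im ∧ z.im ≤ M := by
      constructor <;> nlinarith [sq_nonneg z.im, sq_nonneg z.re, sq_nonneg (z.im + 1), sq_nonneg (z.im - 1)]
    exact ⟨⟨a1.1, a1.2⟩, ⟨a2.1, a2.2⟩⟩
  exact (((Set.finite_Icc _ _).prod (Set.finite_Icc _ _)).image _).subset h

/-- all Gaussian integers of norm at most `X` -/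
noncomputable def ball (X : ℝ) : Finset G := (finite_ball X).toFinset

open Classical in
/-- the odd primitive Gaussian integers of norm at most `X` (all four associates) -/
noncomputable def V (X : ℝ) : Finset G := (ball X).filter (fun z => Odd (nm z) ∧ Prim z)

open Classical in
/-- the odd Gaussian integers of norm at most `t` -/
noncomputable def ob (t : ℝ) : Finset G := (ball t).filter (fun z => Odd (nm z))

/-- a split prime: the norm is a rational prime `1 mod 4` -/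
def Spl (w : G) : Prop := (nm w).Prime ∧ nm w % 4 = 1

/-- `exp (2 π i x)` -/
noncomputable def ee (x : ℝ) : ℂ := Complex.exp (2 * Real.pi * x * Complex.I)

/-- sign functions on the Gaussian integers of odd norm -/
structure PM (F : G → ℝ) : Prop where
  pm : ∀ z, Odd (nm z) → F z = 1 ∨ F z = -1
  mul : ∀ z w, Odd (nm z) → Odd (nm w) → F (z * w) = F z * F w
  conj : ∀ z, Odd (nm z) → F (star z) = F z
  neg_one : F (-1) = 1

/-- unnormalised Fourier coefficient of `F` on `V X` -/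
noncomputable def fc (F : G → ℝ) (X : ℝ) (k : ℤ) : ℂ := ∑ z ∈ V X, (F z : ℂ) * xi (-k) z

open Classical in
/-- adjacent pairs of odd primitive vectors of norm at most `X` with different signs -/
noncomputable def edges (F : G → ℝ) (X : ℝ) : Finset (G × G) :=
  (V X ×ˢ V X).filter (fun e => |det e.1 e.2| = 1 ∧ F e.1 ≠ F e.2)

open Classical in
/-- one Gaussian prime `a + b i`, `0 < b < a`, above each prime `p = 1 mod 4` with `P < p ≤ Q` -/
noncomputable def PP (P Q : ℝ) : Finset G :=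
  (ball Q).filter (fun w => P < (nm w : ℝ) ∧ (nm w).Prime ∧ 0 < w.im ∧ w.im < w.re)

/-- `∑ 1 / p` over the primes `p = 1 mod 4` with `P < p ≤ Q` -/
noncomputable def Ls (P Q : ℝ) : ℝ := ∑ w ∈ PP P Q, 1 / (nm w : ℝ)

/-- the number of primes of `PP P Q` dividing `z` -/
noncomputable def om (P Q : ℝ) (z : G) : ℝ := (Set.ncard {w : G | w ∈ PP P Q ∧ w ∣ z} : ℝ)

open Classical in
/-- the block of `PP P Q` with norms in `(exp (v ρ), exp ((v + 1) ρ)]` -/
noncomputable def blk (P Q ρ : ℝ) (v : ℕ) : Finset G :=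
  (PP P Q).filter (fun w => Real.exp (v * ρ) < (nm w : ℝ) ∧ (nm w : ℝ) ≤ Real.exp ((v + 1) * ρ))

/-- the prime polynomial of a block -/
noncomputable def U (F : G → ℝ) (P Q ρ : ℝ) (v : ℕ) (k : ℤ) : ℂ :=
  ∑ w ∈ blk P Q ρ v, (F w : ℂ) * xi (-k) w

/-- number of blocks -/
noncomputable def nv (Q ρ : ℝ) : ℕ := ⌊Real.log Q / ρ⌋₊ + 1

/-- the factorised main term of a stage -/
noncomputable def UZ (F : G → ℝ) (P Q ρ X : ℝ) (k : ℤ) : ℂ :=
  ∑ v ∈ Finset.range (nv Q ρ), U F P Q ρ v k * fc F (X * Real.exp (-(v * ρ))) k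

open Classical in
/-- canonical odd Gaussian primes of norm at most `y`: one of each class of associates -/
noncomputable def CP (y : ℝ) : Finset G :=
  (ball y).filter (fun w => Prime w ∧ Odd (nm w) ∧ 0 < w.re ∧ 0 ≤ w.im)

open Classical in
/-- odd primitive almost primes: `X^(12/25) < nm u ≤ X^(13/25)`, all prime factors of norm `≥ X^a` -/
noncomputable def AA (a X : ℝ) : Finset G :=
  (V (X ^ (13 / 25 : ℝ))).filter (fun u => X ^ (12 / 25 : ℝ) < (nm u : ℝ) ∧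
    ∀ p : G, Prime p → p ∣ u → X ^ a ≤ (nm p : ℝ))

/-- trigonometric polynomial on directions -/
noncomputable def Fb (S : Finset ℤ) (d : ℤ → ℂ) (z : G) : ℂ := ∑ k ∈ S, d k * xi k z

/-- frequencies up to `T` -/
noncomputable def fr (T : ℕ) : Finset ℤ := Finset.Icc (-(T : ℤ)) T

/-- the primitive part of a Gaussian integer -/
def pr (z : G) : G := ⟨z.re / Int.gcd z.re z.im, z.im / Int.gcd z.re z.im⟩

/-- natural numbers all of whose prime factors are `1 mod 4` -/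
def N1 (n : ℕ) : Prop := n ≠ 0 ∧ ∀ p : ℕ, p.Prime → p ∣ n → p % 4 = 1

/-- number of ways to write `m ^ 2 + 1 = d d'` with `d, d' ≤ X` -/
noncomputable def tx (X : ℝ) (m : ℕ) : ℕ :=
  Set.ncard {d : ℕ | d ∣ m ^ 2 + 1 ∧ (d : ℝ) ≤ X ∧ ((m ^ 2 + 1 : ℕ) : ℝ) ≤ X * d}

end Pool.Agent.GaussMR

end

/-! ### from `Lib_MP_f1a94e_mr.Basic` -/

section

/-!
# Elementary lemmas about norms, directions, characters, sign functions
-/

set_option autoImplicit false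

namespace Pool.Agent.GaussMR

open Complex

theorem mem_ball {X : ℝ} {z : G} : z ∈ ball X ↔ (nm z : ℝ) ≤ X := by
  simp [ball]

theorem mem_V {X : ℝ} {z : G} : z ∈ V X ↔ (nm z : ℝ) ≤ X ∧ Odd (nm z) ∧ Prim z := by
  classical
  simp [V, mem_ball]

theorem mem_fr {T : ℕ} {k : ℤ} : k ∈ fr T ↔ -(T : ℤ) ≤ k ∧ k ≤ T := by
  simp [fr]

theorem nm_mul (z w : G) : nm (z * w) = nm z * nm w := by
  unfold nm
  rw [Zsqrtd.norm_mul, Int.natAbs_mul]

theorem nm_star (z : G) : nm (star z) = nm z := by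
  have h : (nm (star z) : ℤ) = nm z := by
    rw [nm_eq, nm_eq]
    simp
  exact_mod_cast h

theorem nm_neg (z : G) : nm (-z) = nm z := by
  have h : (nm (-z) : ℤ) = nm z := by
    rw [nm_eq, nm_eq]
    simp
  exact_mod_cast h

@[simp] theorem nm_one : nm 1 = 1 := by
  have h : (nm 1 : ℤ) = 1 := by
    rw [nm_eq]; simp
  exact_mod_cast h

@[simp] theorem nm_zero : nm 0 = 0 := by
  have h : (nm 0 : ℤ) = 0 := by
    rw [nm_eq]; simp
  exact_mod_cast h

theorem nm_eq_zero {z : G} : nm z = 0 ↔ z = 0 := by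
  constructor
  · intro h
    have h' : (nm z : ℤ) = 0 := by exact_mod_cast h
    rw [nm_eq] at h'
    have h1 : z.re = 0 := by nlinarith [sq_nonneg z.re, sq_nonneg z.im]
    have h2 : z.im = 0 := by nlinarith [sq_nonneg z.re, sq_nonneg z.im]
    apply Zsqrtd.ext <;> simp [h1, h2]
  · rintro rfl; exact nm_zero

theorem nm_pos {z : G} (h : z ≠ 0) : 0 < nm z :=
  Nat.pos_of_ne_zero (fun h' => h (nm_eq_zero.1 h'))

theorem ne_zero_of_odd {z : G} (h : Odd (nm z)) : z ≠ 0 := by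
  rintro rfl
  rw [nm_zero] at h
  exact absurd h (by decide)

theorem nm_pos_of_odd {z : G} (h : Odd (nm z)) : 0 < nm z := nm_pos (ne_zero_of_odd h)

theorem nm_eq_one_iff {z : G} : nm z = 1 ↔ IsUnit z := by
  unfold nm
  exact Zsqrtd.norm_eq_one_iff

theorem nm_dvd {z w : G} (h : z ∣ w) : nm z ∣ nm w := by
  obtain ⟨c, rfl⟩ := h
  rw [nm_mul]
  exact dvd_mul_right _ _

theorem odd_nm_mul {z w : G} : Odd (nm (z * w)) ↔ Odd (nm z) ∧ Odd (nm w) := by
  rw [nm_mul, Nat.odd_mul]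

/-- `z` has odd norm iff exactly one of its coordinates is odd -/
theorem odd_nm_iff {z : G} : Odd (nm z) ↔ Odd (z.re + z.im) := by
  rw [← Int.odd_coe_nat, nm_eq]
  constructor
  · intro h
    rcases Int.even_or_odd (z.re + z.im) with h1 | h1
    · exfalso
      have h2 : z.re ^ 2 + z.im ^ 2 = (z.re + z.im) * (z.re + z.im) - 2 * (z.re * z.im) := by ring
      rw [h2] at h
      have h3 : Even ((z.re + z.im) * (z.re + z.im) - 2 * (z.re * z.im)) :=
        (h1.mul_right _).sub (even_two_mul _)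
      exact (Int.not_odd_iff_even.2 h3) h
    · exact h1
  · intro h
    have h2 : z.re ^ 2 + z.im ^ 2 = (z.re + z.im) * (z.re + z.im) - 2 * (z.re * z.im) := by ring
    rw [h2]
    exact (h.mul h).sub_even (even_two_mul _)

theorem star_mul_eq (z w : G) : star z * w = ⟨dot z w, det z w⟩ := by
  apply Zsqrtd.ext
  · simp [dot]
  · simp [det]; ring

theorem dot_sq_add_det_sq (z w : G) : dot z w ^ 2 + det z w ^ 2 = (nm z : ℤ) * nm w := by
  rw [nm_eq, nm_eq]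
  unfold dot det
  ring

theorem det_self (z : G) : det z z = 0 := by unfold det; ring

theorem det_comm (z w : G) : det w z = -det z w := by unfold det; ring

/-! ### complex absolute value -/

theorem toComplex_eq (z : G) : (z : ℂ) = (z.re : ℂ) + (z.im : ℂ) * I := GaussianInt.toComplex_def z

theorem norm_sq_eq (z : G) : ‖(z : ℂ)‖ ^ 2 = (nm z : ℝ) := by
  rw [← Complex.normSq_eq_norm_sq, Complex.normSq_apply]
  have h : ((nm z : ℤ) : ℝ) = ((z.re ^ 2 + z.im ^ 2 : ℤ) : ℝ) := by rw [nm_eq]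
  push_cast at h
  rw [h, GaussianInt.intCast_re, GaussianInt.intCast_im]
  ring

theorem norm_eq_sqrt (z : G) : ‖(z : ℂ)‖ = Real.sqrt (nm z) := by
  rw [← norm_sq_eq, Real.sqrt_sq (norm_nonneg _)]

theorem norm_pos {z : G} (h : z ≠ 0) : 0 < ‖(z : ℂ)‖ := by
  rw [norm_eq_sqrt]
  exact Real.sqrt_pos.2 (by exact_mod_cast nm_pos h)

theorem toComplex_ne_zero {z : G} (h : z ≠ 0) : (z : ℂ) ≠ 0 := norm_pos_iff.1 (norm_pos h)

theorem norm_dir {z : G} (h : z ≠ 0) : ‖dir z‖ = 1 := by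
  unfold dir
  rw [norm_div, Complex.norm_real, norm_norm, div_self (norm_pos h).ne']

theorem dir_ne_zero {z : G} (h : z ≠ 0) : dir z ≠ 0 := by
  intro h'
  have := norm_dir h
  rw [h', norm_zero] at this
  exact zero_ne_one this

theorem dir_mul (z w : G) : dir (z * w) = dir z * dir w := by
  unfold dir
  rw [GaussianInt.toComplex_mul, norm_mul]
  push_cast
  rw [mul_div_mul_comm]

theorem dir_neg (z : G) : dir (-z) = -dir z := by
  unfold dir
  rw [GaussianInt.toComplex_neg, norm_neg, neg_div]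

theorem toComplex_star' (z : G) : ((star z : G) : ℂ) = (starRingEnd ℂ) (z : ℂ) :=
  GaussianInt.toComplex_star z

theorem dir_star (z : G) : dir (star z) = (starRingEnd ℂ) (dir z) := by
  unfold dir
  rw [toComplex_star', map_div₀, Complex.conj_ofReal, RCLike.norm_conj]

theorem conj_dir {z : G} (h : z ≠ 0) : (starRingEnd ℂ) (dir z) = (dir z)⁻¹ := by
  rw [Complex.inv_def, Complex.normSq_eq_norm_sq, norm_dir h]
  simp

theorem xi_mul (k : ℤ) (z w : G) : xi k (z * w) = xi k z * xi k w := by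
  unfold xi
  rw [dir_mul, mul_zpow]

@[simp] theorem xi_zero (z : G) : xi 0 z = 1 := by
  unfold xi
  exact zpow_zero _

theorem norm_xi (k : ℤ) {z : G} (h : z ≠ 0) : ‖xi k z‖ = 1 := by
  unfold xi
  rw [norm_zpow, norm_dir h, one_zpow]

theorem xi_ne_zero (k : ℤ) {z : G} (h : z ≠ 0) : xi k z ≠ 0 := zpow_ne_zero _ (dir_ne_zero h)

theorem xi_add (j k : ℤ) {z : G} (h : z ≠ 0) : xi (j + k) z = xi j z * xi k z := by
  unfold xi
  exact zpow_add₀ (dir_ne_zero h) _ _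

theorem xi_neg (k : ℤ) (z : G) : xi (-k) z = (xi k z)⁻¹ := by
  unfold xi
  exact zpow_neg _ _

theorem conj_xi (k : ℤ) {z : G} (h : z ≠ 0) : (starRingEnd ℂ) (xi k z) = xi (-k) z := by
  unfold xi
  rw [map_zpow₀, conj_dir h, inv_zpow, zpow_neg]

theorem star_ne_zero' {z : G} (h : z ≠ 0) : star z ≠ 0 := by
  intro h'
  apply h
  have := congrArg star h'
  simpa using this

theorem xi_star (k : ℤ) {z : G} (h : z ≠ 0) : xi k (star z) = xi (-k) z := by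
  rw [← conj_xi k h]
  unfold xi
  rw [dir_star, map_zpow₀]

/-- positive integers have direction one -/
theorem dir_natCast {n : ℕ} (h : 0 < n) : dir (n : G) = 1 := by
  unfold dir
  have h1 : (((n : G) : G) : ℂ) = (n : ℂ) := by simp
  rw [h1]
  have h2 : ‖(n : ℂ)‖ = n := by simp
  rw [h2]
  push_cast
  exact div_self (by exact_mod_cast h.ne')

theorem xi_natCast_mul (k : ℤ) {n : ℕ} (h : 0 < n) (z : G) : xi k ((n : G) * z) = xi k z := by
  rw [xi_mul]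
  unfold xi
  rw [dir_natCast h, one_zpow, one_mul]

/-! ### primitive -/

theorem prim_star {z : G} : Prim (star z) ↔ Prim z := by
  unfold Prim
  rw [Zsqrtd.re_star, Zsqrtd.im_star, IsCoprime.neg_right_iff]

theorem prim_neg {z : G} : Prim (-z) ↔ Prim z := by
  unfold Prim
  simp [IsCoprime.neg_neg_iff]

theorem prim_one : Prim 1 := by
  unfold Prim
  exact isCoprime_one_left

theorem mem_V_star {X : ℝ} {z : G} : star z ∈ V X ↔ z ∈ V X := by
  rw [mem_V, mem_V, nm_star, prim_star]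

theorem mem_V_neg {X : ℝ} {z : G} : -z ∈ V X ↔ z ∈ V X := by
  rw [mem_V, mem_V, nm_neg, prim_neg]

theorem V_ne_zero {X : ℝ} {z : G} (h : z ∈ V X) : z ≠ 0 := ne_zero_of_odd (mem_V.1 h).2.1

/-- a primitive Gaussian integer is not divisible by a natural number `> 1` -/
theorem prim_iff {z : G} : Prim z ↔ ∀ n : ℕ, (n : G) ∣ z → n = 1 := by
  have key : ∀ n : ℕ, (n : G) ∣ z ↔ (n : ℤ) ∣ z.re ∧ (n : ℤ) ∣ z.im := by
    intro n
    have := Zsqrtd.intCast_dvd (d := -1) (n : ℤ) z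
    simpa using this
  unfold Prim
  rw [Int.isCoprime_iff_gcd_eq_one]
  constructor
  · intro h n hn
    rw [key] at hn
    have h1 : (n : ℤ) ∣ (Int.gcd z.re z.im : ℤ) := Int.dvd_coe_gcd hn.1 hn.2
    rw [h] at h1
    exact Nat.dvd_one.1 (by exact_mod_cast h1)
  · intro h
    apply h
    rw [key]
    exact ⟨Int.gcd_dvd_left _ _, Int.gcd_dvd_right _ _⟩

theorem prim_of_mul {z w : G} (h : Prim (z * w)) : Prim z ∧ Prim w := by
  rw [prim_iff] at h
  constructor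
  · rw [prim_iff]
    intro n hn
    exact h n (hn.mul_right _)
  · rw [prim_iff]
    intro n hn
    exact h n (hn.mul_left _)

/-! ### sign functions -/

theorem PM.neg {F : G → ℝ} (hF : PM F) {z : G} (h : Odd (nm z)) : F (-z) = F z := by
  have h1 : Odd (nm (-1 : G)) := by rw [nm_neg, nm_one]; exact odd_one
  have := hF.mul (-1) z h1 h
  rw [hF.neg_one, one_mul, neg_one_mul] at this
  exact this

theorem PM.one {F : G → ℝ} (hF : PM F) : F 1 = 1 := by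
  have h1 : Odd (nm (-1 : G)) := by rw [nm_neg, nm_one]; exact odd_one
  have := hF.mul (-1) (-1) h1 h1
  rw [hF.neg_one] at this
  simpa using this

theorem PM.sq {F : G → ℝ} (hF : PM F) {z : G} (h : Odd (nm z)) : F z ^ 2 = 1 := by
  rcases hF.pm z h with h1 | h1 <;> rw [h1] <;> norm_num

theorem PM.abs {F : G → ℝ} (hF : PM F) {z : G} (h : Odd (nm z)) : |F z| = 1 := by
  rcases hF.pm z h with h1 | h1 <;> rw [h1] <;> norm_num

theorem PM.norm {F : G → ℝ} (hF : PM F) {z : G} (h : Odd (nm z)) : ‖(F z : ℂ)‖ = 1 := by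
  rw [Complex.norm_real, Real.norm_eq_abs, hF.abs h]

theorem PM.mul_eq {F : G → ℝ} (hF : PM F) {z w : G} (hz : Odd (nm z)) (hw : Odd (nm w)) :
    F z * F w = 1 - 2 * (if F z ≠ F w then 1 else 0) := by
  rcases hF.pm z hz with h1 | h1 <;> rcases hF.pm w hw with h2 | h2 <;> rw [h1, h2] <;> norm_num

end Pool.Agent.GaussMR

end

/-! ### from `Lib_MP_f1a94e_aq.Defs` -/

section

/-!
# MP_f1a94e_nt, all moduli: definitions

Pairs `(m, d)` with `m` even and `d ∣ m ^ 2 + 1`, kernels, Farey edges in congruence classes.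
-/

set_option autoImplicit false

namespace Pool.Agent.OmAll

open Finset Pool.Agent.GaussMR

/-- the pairs `(m, d)`, `1 ≤ m ≤ x` even, `d ∣ m ^ 2 + 1` -/
noncomputable def pd (x : ℝ) : Finset (ℕ × ℕ) :=
  (Icc 1 ⌊x⌋₊ ×ˢ Icc 1 (⌊x⌋₊ ^ 2 + 1)).filter (fun r => Even r.1 ∧ r.2 ∣ r.1 ^ 2 + 1)

theorem mem_pd {x : ℝ} {r : ℕ × ℕ} :
    r ∈ pd x ↔ 1 ≤ r.1 ∧ (r.1 : ℝ) ≤ x ∧ Even r.1 ∧ r.2 ∣ r.1 ^ 2 + 1 := by
  unfold pd
  rw [mem_filter, mem_product, mem_Icc, mem_Icc]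
  constructor
  · rintro ⟨⟨⟨h1, h2⟩, h3, h4⟩, h5, h6⟩
    exact ⟨h1, (Nat.le_floor_iff' (by omega)).1 h2, h5, h6⟩
  · rintro ⟨h1, h2, h3, h4⟩
    have h5 : r.1 ≤ ⌊x⌋₊ := (Nat.le_floor_iff' (by omega)).2 h2
    refine ⟨⟨⟨h1, h5⟩, Nat.pos_of_dvd_of_pos h4 (by positivity), ?_⟩, h3, h4⟩
    calc r.2 ≤ r.1 ^ 2 + 1 := Nat.le_of_dvd (by positivity) h4
      _ ≤ _ := Nat.add_le_add_right (Nat.pow_le_pow_left h5 2) 1

/-- `log (e / d)` for the factorisation `m ^ 2 + 1 = d e` -/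
noncomputable def tt (r : ℕ × ℕ) : ℝ := Real.log ((r.1 : ℝ) ^ 2 + 1) - 2 * Real.log r.2

/-- the kernel `K_a (t) = a (sin (a t / 2) / (a t / 2)) ^ 2` -/
noncomputable def Kf (a t : ℝ) : ℝ := a * Real.sinc (a * t / 2) ^ 2

/-- difference of two kernels -/
noncomputable def Hf (a b t : ℝ) : ℝ := Kf a t - Kf b t

/-- Fourier transform of the difference of two kernels -/
noncomputable def hh (a b τ : ℝ) : ℝ := max (1 - |τ| / a) 0 - max (1 - |τ| / b) 0

/-- the primes `1 mod 4` up to `T` -/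
def PT (T : ℕ) : Finset ℕ := (range (T + 1)).filter (fun p => p.Prime ∧ p % 4 = 1)

/-- density of the edges `(V, V')` with `p ∣ |V| ^ 2` and `|V| ^ 2 |V'| ^ 2` not divisible by `p ^ 2` -/
noncomputable def Ap (p : ℕ) : ℝ := 2 * ((p : ℝ) - 1) ^ 2 / ((p : ℝ) ^ 2 * (p + 1))

/-- the mean of the number of prime factors `p ≤ T`, `p ^ 2 ∤ n`, of `n = m ^ 2 + 1` over pairs -/
noncomputable def muT (T : ℕ) : ℝ := ∑ p ∈ PT T, 2 * Ap p

/-- pairs of coprime squarefree products of primes of `PT T` -/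
def GG (T : ℕ) : Finset (ℕ × ℕ) :=
  ((∏ p ∈ PT T, p).divisors ×ˢ (∏ p ∈ PT T, p).divisors).filter (fun g => g.1.Coprime g.2)

/-- `g ∣ d`, `g' ∣ (m ^ 2 + 1) / d` and no prime of `g g'` divides `m ^ 2 + 1` twice -/
def Cd (g : ℕ × ℕ) (r : ℕ × ℕ) : Prop :=
  g.1 ∣ r.2 ∧ g.2 ∣ (r.1 ^ 2 + 1) / r.2 ∧ ∀ p ∈ (g.1 * g.2).primeFactors, ¬ p ^ 2 ∣ r.1 ^ 2 + 1

open Classical in
/-- the primes `p ≤ T` dividing `m ^ 2 + 1` exactly once -/
noncomputable def ps (T m : ℕ) : Finset ℕ :=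
  ((m ^ 2 + 1).primeFactors).filter (fun p => p ≤ T ∧ ¬ p ^ 2 ∣ m ^ 2 + 1)

/-- the product of the primes `p ≤ T` dividing `m ^ 2 + 1` exactly once -/
noncomputable def sT (T m : ℕ) : ℕ := ∏ p ∈ ps T m, p

/-- congruence of Gaussian integers modulo `M` -/
def cg (M : ℕ) (u v : G) : Prop := (M : ℤ) ∣ u.re - v.re ∧ (M : ℤ) ∣ u.im - v.im

/-- Farey edges `(V, V')` in a congruence class, `m = V . V' ≤ x`, `e ^ s ≤ |V'|^2 / |V|^2 < e ^ t` -/
def NE (M : ℕ) (γ : G × G) (s t x : ℝ) : Set (G × G) :=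
  {e | det e.1 e.2 = 1 ∧ 0 < dot e.1 e.2 ∧ ((dot e.1 e.2 : ℤ) : ℝ) ≤ x ∧
    Real.exp s * (nm e.1 : ℝ) ≤ (nm e.2 : ℝ) ∧ (nm e.2 : ℝ) < Real.exp t * (nm e.1 : ℝ) ∧
    cg M e.1 γ.1 ∧ cg M e.2 γ.2}

/-- coprime pairs of positive integers in a congruence class, `r r' ≤ Y`, `e ^ s ≤ (r' / r) ^ 2 < e ^ t` -/
def cop (M : ℕ) (b b' : ℤ) (s t Y : ℝ) : Set (ℤ × ℤ) :=
  {r | 0 < r.1 ∧ 0 < r.2 ∧ IsCoprime r.1 r.2 ∧ (M : ℤ) ∣ r.1 - b ∧ (M : ℤ) ∣ r.2 - b' ∧
    ((r.1 * r.2 : ℤ) : ℝ) ≤ Y ∧ Real.exp s * (r.1 : ℝ) ^ 2 ≤ (r.2 : ℝ) ^ 2 ∧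
    (r.2 : ℝ) ^ 2 < Real.exp t * (r.1 : ℝ) ^ 2}

/-- `c` is the density constant for coprime pairs modulo `M` -/
def CopC (M : ℕ) (c : ℝ) : Prop := ∀ b b' : ℤ, Int.gcd (Int.gcd b b') M = 1 → ∀ s t : ℝ, s ≤ t →
  Filter.Tendsto (fun Y : ℝ => ((cop M b b' s t Y).ncard : ℝ) / Y) Filter.atTop (nhds (c * (t - s)))

/-- a unimodular pair in the closed first quadrant -/
def Fr (u v : G) : Prop := |det u v| = 1 ∧ 0 ≤ u.re ∧ 0 ≤ u.im ∧ 0 ≤ v.re ∧ 0 ≤ v.im

/-- the linear functional `re + im` -/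
def ll (u : G) : ℤ := u.re + u.im

/-- the arc of all `α u + β v` with `β > 0`, `S β ≤ α < (S + M) β` -/
def arc (u v : G) (S M : ℕ) : Set G :=
  {z | ∃ α β : ℤ, z = (α : G) * u + (β : G) * v ∧ 0 < β ∧ (S : ℤ) * β ≤ α ∧ α < ((S : ℤ) + M) * β}

/-- the closed cone spanned by `u` and `v` -/
def cone (u v : G) : Set G := {z | ∃ α β : ℤ, z = (α : G) * u + (β : G) * v ∧ 0 ≤ α ∧ 0 ≤ β}

/-- the open cone spanned by `u` and `v` -/
def cone0 (u v : G) : Set G := {z | ∃ α β : ℤ, z = (α : G) * u + (β : G) * v ∧ 0 < α ∧ 0 < β}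

/-- representatives of `SL2 (ℤ / M)`, as pairs of Gaussian integers with coordinates in `[0, M)` -/
noncomputable def cls (M : ℕ) : Finset (G × G) :=
  (((((range M ×ˢ range M) ×ˢ (range M ×ˢ range M)).image
    (fun w : (ℕ × ℕ) × (ℕ × ℕ) => ((⟨(w.1.1 : ℤ), (w.1.2 : ℤ)⟩, ⟨(w.2.1 : ℤ), (w.2.2 : ℤ)⟩) : G × G))).filter
      (fun e => (M : ℤ) ∣ det e.1 e.2 - 1)) : Finset (G × G))

/-- the conditions on an edge corresponding to `Cd` and to even `m` -/
def Ce (g : ℕ × ℕ) (e : G × G) : Prop :=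
  Odd (nm e.1) ∧ Odd (nm e.2) ∧ (∀ p ∈ g.1.primeFactors, p ∣ nm e.1) ∧
    (∀ p ∈ g.2.primeFactors, p ∣ nm e.2) ∧ ∀ p ∈ (g.1 * g.2).primeFactors, ¬ p ^ 2 ∣ nm e.1 * nm e.2

/-- admissible pairs `(g, g')` -/
def Adm (g : ℕ × ℕ) : Prop :=
  Squarefree (g.1 * g.2) ∧ ∀ p ∈ (g.1 * g.2).primeFactors, p % 4 = 1

end Pool.Agent.OmAll

end

/-! ### from `Lib_MP_f1a94e_mr.Ball0` -/

section

/-!
# Piece BALL0: trivial bound for the number of Gaussian integers in a disc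
-/

set_option autoImplicit false

namespace Pool.Agent.GaussMR

open Classical in
/-- for `t < 1` the set is empty, for `t ≥ 1` it has at most `(2 √t + 1)^2 ≤ 9 t` elements -/
theorem card_ball_le (t : ℝ) (ht : 0 ≤ t) : (((ball t).filter (fun z => z ≠ 0)).card : ℝ) ≤ 9 * t := by
  rcases lt_or_ge t 1 with h1 | h1
  · have h : (ball t).filter (fun z => z ≠ 0) = ∅ := by
      rw [Finset.filter_eq_empty_iff]
      intro z hz h0
      rw [mem_ball] at hz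
      have h2 := nm_pos h0
      have h3 : (1 : ℝ) ≤ nm z := by exact_mod_cast h2
      linarith
    rw [h]
    simpa using by linarith
  · set s : ℕ := ⌊Real.sqrt t⌋₊ with hs
    have hs1 : (s : ℝ) ≤ Real.sqrt t := Nat.floor_le (Real.sqrt_nonneg t)
    have hbd : ∀ a : ℤ, ∀ b : ℤ, ((a ^ 2 + b ^ 2 : ℤ) : ℝ) ≤ t → -(s : ℤ) ≤ a ∧ a ≤ s := by
      intro a b hab
      have h2 : (a.natAbs : ℝ) ≤ Real.sqrt t := by
        apply Real.le_sqrt_of_sq_le
        have e1 : (a.natAbs : ℝ) = |(a : ℝ)| := by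
          rw [Nat.cast_natAbs, Int.cast_abs]
        rw [e1, sq_abs]
        push_cast at hab
        nlinarith [sq_nonneg (b : ℝ)]
      have h3 : a.natAbs ≤ s := Nat.le_floor h2
      omega
    have hsub : (ball t).filter (fun z => z ≠ 0) ⊆
        ((Finset.Icc (-(s : ℤ)) s) ×ˢ (Finset.Icc (-(s : ℤ)) s)).image
          (fun p : ℤ × ℤ => (⟨p.1, p.2⟩ : G)) := by
      intro z hz
      rw [Finset.mem_filter, mem_ball] at hz
      have h2 : ((z.re ^ 2 + z.im ^ 2 : ℤ) : ℝ) ≤ t := by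
        have := hz.1
        rw [← nm_eq]
        exact_mod_cast this
      have h3 : ((z.im ^ 2 + z.re ^ 2 : ℤ) : ℝ) ≤ t := by rwa [add_comm]
      rw [Finset.mem_image]
      refine ⟨(z.re, z.im), ?_, rfl⟩
      rw [Finset.mem_product, Finset.mem_Icc, Finset.mem_Icc]
      exact ⟨hbd _ _ h2, hbd _ _ h3⟩
    have hcard : ((ball t).filter (fun z => z ≠ 0)).card ≤ (2 * s + 1) * (2 * s + 1) := by
      refine (Finset.card_le_card hsub).trans (Finset.card_image_le.trans ?_)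
      rw [Finset.card_product, Int.card_Icc]
      have : ((s : ℤ) + 1 - -(s : ℤ)).toNat = 2 * s + 1 := by omega
      rw [this]
    have h4 : (((ball t).filter (fun z => z ≠ 0)).card : ℝ) ≤ (2 * s + 1) * (2 * s + 1) := by
      exact_mod_cast hcard
    have h5 : 1 ≤ Real.sqrt t := Real.one_le_sqrt.2 h1
    have h6 : Real.sqrt t * Real.sqrt t = t := Real.mul_self_sqrt ht
    have h7 : (2 * (s : ℝ) + 1) ≤ 3 * Real.sqrt t := by linarith
    have h8 : (0 : ℝ) ≤ 2 * (s : ℝ) + 1 := by positivity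
    nlinarith

end Pool.Agent.GaussMR

end

/-! ### from `Lib_MP_f1a94e_aq.Local` -/

section

/-!
# Piece LOCAL: local densities
-/

set_option autoImplicit false

namespace Pool.Agent.OmAll

open Finset Pool.Agent.GaussMR

theorem mem_cls {M : ℕ} {e : G × G} : e ∈ cls M ↔ (0 ≤ e.1.re ∧ e.1.re < M) ∧ (0 ≤ e.1.im ∧ e.1.im < M) ∧
    (0 ≤ e.2.re ∧ e.2.re < M) ∧ (0 ≤ e.2.im ∧ e.2.im < M) ∧ (M : ℤ) ∣ det e.1 e.2 - 1 := by
  unfold cls
  rw [mem_filter, mem_image]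
  constructor
  · rintro ⟨⟨w, hw, rfl⟩, h2⟩
    rw [mem_product, mem_product, mem_product, mem_range, mem_range, mem_range, mem_range] at hw
    obtain ⟨⟨h3, h4⟩, h5, h6⟩ := hw
    refine ⟨⟨?_, ?_⟩, ⟨?_, ?_⟩, ⟨?_, ?_⟩, ⟨?_, ?_⟩, h2⟩
    · exact Int.natCast_nonneg _
    · show ((w.1.1 : ℕ) : ℤ) < M
      exact_mod_cast h3
    · exact Int.natCast_nonneg _
    · show ((w.1.2 : ℕ) : ℤ) < M
      exact_mod_cast h4
    · exact Int.natCast_nonneg _
    · show ((w.2.1 : ℕ) : ℤ) < M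
      exact_mod_cast h5
    · exact Int.natCast_nonneg _
    · show ((w.2.2 : ℕ) : ℤ) < M
      exact_mod_cast h6
  · rintro ⟨⟨a1, a2⟩, ⟨b1, b2⟩, ⟨c1, c2⟩, ⟨d1, d2⟩, h⟩
    refine ⟨⟨((e.1.re.toNat, e.1.im.toNat), (e.2.re.toNat, e.2.im.toNat)), ?_, ?_⟩, h⟩
    · rw [mem_product, mem_product, mem_product, mem_range, mem_range, mem_range, mem_range]
      dsimp only
      refine ⟨⟨?_, ?_⟩, ?_, ?_⟩ <;> omega
    · dsimp only
      rw [Int.toNat_of_nonneg a1, Int.toNat_of_nonneg b1, Int.toNat_of_nonneg c1,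
        Int.toNat_of_nonneg d1]

/-- predicates that depend only on the class modulo `M` -/
def Per (M : ℕ) (P : G × G → Prop) : Prop := ∀ e f : G × G, cg M e.1 f.1 → cg M e.2 f.2 → (P e ↔ P f)

/-- reduction of a Gaussian integer modulo `M` -/
def rd (M : ℕ) (u : G) : G := ⟨u.re % M, u.im % M⟩

theorem rd_cg (M : ℕ) (u : G) : cg M (rd M u) u := by
  constructor
  · show (M : ℤ) ∣ u.re % M - u.re
    exact (Int.dvd_sub_self_of_emod_eq rfl)
  · show (M : ℤ) ∣ u.im % M - u.im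
    exact (Int.dvd_sub_self_of_emod_eq rfl)

theorem det_cg {M : ℕ} {u v u' v' : G} (h1 : cg M u u') (h2 : cg M v v') :
    (M : ℤ) ∣ det u v - det u' v' := by
  obtain ⟨a, b⟩ := h1
  obtain ⟨c, d⟩ := h2
  have e : det u v - det u' v' = (u.re - u'.re) * v.im + (v.im - v'.im) * u'.re
      - ((u.im - u'.im) * v.re + (v.re - v'.re) * u'.im) := by
    unfold det
    ring
  rw [e]
  exact dvd_sub (dvd_add (a.mul_right _) (d.mul_right _)) (dvd_add (b.mul_right _) (c.mul_right _))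

theorem cg_mono {M N : ℕ} (h : M ∣ N) {u v : G} (hc : cg N u v) : cg M u v :=
  ⟨(Int.natCast_dvd_natCast.2 h).trans hc.1, (Int.natCast_dvd_natCast.2 h).trans hc.2⟩

theorem cg_symm {M : ℕ} {u v : G} (hc : cg M u v) : cg M v u :=
  ⟨by rw [← neg_sub]; exact (dvd_neg).2 hc.1, by rw [← neg_sub]; exact (dvd_neg).2 hc.2⟩

theorem cg_trans {M : ℕ} {u v w : G} (h1 : cg M u v) (h2 : cg M v w) : cg M u w :=
  ⟨by have := dvd_add h1.1 h2.1; rwa [sub_add_sub_cancel] at this,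
    by have := dvd_add h1.2 h2.2; rwa [sub_add_sub_cancel] at this⟩

theorem rd_mem_cls {M N : ℕ} (hM : 0 < M) (h : M ∣ N) {e : G × G} (he : (N : ℤ) ∣ det e.1 e.2 - 1) :
    (rd M e.1, rd M e.2) ∈ cls M := by
  have hM' : (0 : ℤ) < M := by exact_mod_cast hM
  rw [mem_cls]
  refine ⟨⟨Int.emod_nonneg _ hM'.ne', Int.emod_lt_of_pos _ hM'⟩,
    ⟨Int.emod_nonneg _ hM'.ne', Int.emod_lt_of_pos _ hM'⟩,
    ⟨Int.emod_nonneg _ hM'.ne', Int.emod_lt_of_pos _ hM'⟩,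
    ⟨Int.emod_nonneg _ hM'.ne', Int.emod_lt_of_pos _ hM'⟩, ?_⟩
  have h1 := det_cg (rd_cg M e.1) (rd_cg M e.2)
  have h2 := (Int.natCast_dvd_natCast.2 h).trans he
  have := dvd_add h1 h2
  rwa [sub_add_sub_cancel] at this

theorem loc_eq {M1 M2 : ℕ} (hco : M1.Coprime M2) {x y : ℤ} (hx0 : 0 ≤ x) (hx : x < (M1 * M2 : ℕ))
    (hy0 : 0 ≤ y) (hy : y < (M1 * M2 : ℕ)) (h1 : x % M1 = y % M1) (h2 : x % M2 = y % M2) :
    x = y := by
  have d1 : (M1 : ℤ) ∣ x - y := Int.ModEq.dvd (show y % M1 = x % M1 from h1.symm)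
  have d2 : (M2 : ℤ) ∣ x - y := Int.ModEq.dvd (show y % M2 = x % M2 from h2.symm)
  have hc : IsCoprime (M1 : ℤ) (M2 : ℤ) := Nat.isCoprime_iff_coprime.2 hco
  have d3 := hc.mul_dvd d1 d2
  have h3 : x - y = 0 := by
    apply Int.eq_zero_of_abs_lt_dvd d3
    push_cast at hx hy
    rw [abs_lt]
    constructor <;> linarith
  linarith

theorem loc_crt {M1 M2 : ℕ} (h1 : 0 < M1) (h2 : 0 < M2) (hco : M1.Coprime M2) (a b : ℤ) :
    ∃ x : ℤ, 0 ≤ x ∧ x < (M1 * M2 : ℕ) ∧ (M1 : ℤ) ∣ x - a ∧ (M2 : ℤ) ∣ x - b := by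
  obtain ⟨u, v, huv⟩ : IsCoprime (M1 : ℤ) (M2 : ℤ) := Nat.isCoprime_iff_coprime.2 hco
  have hM : (0 : ℤ) < (M1 * M2 : ℕ) := by exact_mod_cast Nat.mul_pos h1 h2
  have hd : ((M1 * M2 : ℕ) : ℤ) ∣ (a * v * M2 + b * u * M1) % ((M1 * M2 : ℕ) : ℤ)
      - (a * v * M2 + b * u * M1) := Int.dvd_sub_self_of_emod_eq rfl
  refine ⟨(a * v * M2 + b * u * M1) % ((M1 * M2 : ℕ) : ℤ), Int.emod_nonneg _ hM.ne',
    Int.emod_lt_of_pos _ hM, ?_, ?_⟩
  · have e1 : (M1 : ℤ) ∣ ((M1 * M2 : ℕ) : ℤ) := by push_cast; exact dvd_mul_right _ _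
    have e2 := e1.trans hd
    have e3 : (M1 : ℤ) ∣ (a * v * M2 + b * u * M1) - a := by
      refine ⟨(b - a) * u, ?_⟩
      linear_combination a * huv
    have := dvd_add e2 e3
    rwa [sub_add_sub_cancel] at this
  · have e1 : (M2 : ℤ) ∣ ((M1 * M2 : ℕ) : ℤ) := by push_cast; exact dvd_mul_left _ _
    have e2 := e1.trans hd
    have e3 : (M2 : ℤ) ∣ (a * v * M2 + b * u * M1) - b := by
      refine ⟨(a - b) * v, ?_⟩
      linear_combination b * huv
    have := dvd_add e2 e3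
    rwa [sub_add_sub_cancel] at this

theorem loc_crtG {M1 M2 : ℕ} (h1 : 0 < M1) (h2 : 0 < M2) (hco : M1.Coprime M2) (a b : G) :
    ∃ x : G, (0 ≤ x.re ∧ x.re < (M1 * M2 : ℕ)) ∧ (0 ≤ x.im ∧ x.im < (M1 * M2 : ℕ)) ∧
      cg M1 x a ∧ cg M2 x b := by
  obtain ⟨x, hx1, hx2, hx3, hx4⟩ := loc_crt h1 h2 hco a.re b.re
  obtain ⟨y, hy1, hy2, hy3, hy4⟩ := loc_crt h1 h2 hco a.im b.im
  exact ⟨⟨x, y⟩, ⟨hx1, hx2⟩, ⟨hy1, hy2⟩, ⟨hx3, hy3⟩, ⟨hx4, hy4⟩⟩

theorem rd_eq_of_cg {M : ℕ} {u v : G} (h : cg M u v) (h1 : 0 ≤ v.re ∧ v.re < M)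
    (h2 : 0 ≤ v.im ∧ v.im < M) : rd M u = v := by
  apply Zsqrtd.ext
  · show u.re % M = v.re
    have h3 : v.re % M = u.re % M := Int.modEq_iff_dvd.2 h.1
    rw [← h3, Int.emod_eq_of_lt h1.1 h1.2]
  · show u.im % M = v.im
    have h3 : v.im % M = u.im % M := Int.modEq_iff_dvd.2 h.2
    rw [← h3, Int.emod_eq_of_lt h2.1 h2.2]

theorem locG_eq {M1 M2 : ℕ} (hco : M1.Coprime M2) {u v : G}
    (hu : 0 ≤ u.re ∧ u.re < (M1 * M2 : ℕ)) (hu' : 0 ≤ u.im ∧ u.im < (M1 * M2 : ℕ))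
    (hv : 0 ≤ v.re ∧ v.re < (M1 * M2 : ℕ)) (hv' : 0 ≤ v.im ∧ v.im < (M1 * M2 : ℕ))
    (h1 : rd M1 u = rd M1 v) (h2 : rd M2 u = rd M2 v) : u = v := by
  apply Zsqrtd.ext
  · exact loc_eq hco hu.1 hu.2 hv.1 hv.2 (congrArg Zsqrtd.re h1) (congrArg Zsqrtd.re h2)
  · exact loc_eq hco hu'.1 hu'.2 hv'.1 hv'.2 (congrArg Zsqrtd.im h1) (congrArg Zsqrtd.im h2)

open Classical in
/-- Chinese remainder theorem: reduce the four coordinates modulo `M1` and modulo `M2`; a bijection `cls (M1 M2) → cls M1 × cls M2`. -/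
theorem cls_mul (M1 M2 : ℕ) (h1 : 0 < M1) (h2 : 0 < M2) (hco : M1.Coprime M2) (P1 P2 : G × G → Prop)
    (hP1 : Per M1 P1) (hP2 : Per M2 P2) :
    ((cls (M1 * M2)).filter (fun e => P1 e ∧ P2 e)).card =
      ((cls M1).filter P1).card * ((cls M2).filter P2).card := by
  rw [← card_product]
  apply card_bij (fun e _ => (((rd M1 e.1, rd M1 e.2), (rd M2 e.1, rd M2 e.2)) :
    (G × G) × (G × G)))
  · intro e he
    rw [mem_filter, mem_cls] at he
    rw [mem_product, mem_filter, mem_filter]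
    have hd := he.1.2.2.2.2
    refine ⟨⟨rd_mem_cls h1 (dvd_mul_right _ _) hd, ?_⟩, rd_mem_cls h2 (dvd_mul_left _ _) hd, ?_⟩
    · exact (hP1 _ _ (rd_cg M1 e.1) (rd_cg M1 e.2)).2 he.2.1
    · exact (hP2 _ _ (rd_cg M2 e.1) (rd_cg M2 e.2)).2 he.2.2
  · intro e he f hf hef
    rw [mem_filter, mem_cls] at he hf
    rw [Prod.mk.injEq, Prod.mk.injEq, Prod.mk.injEq] at hef
    obtain ⟨⟨a1, a2⟩, a3, a4⟩ := hef
    obtain ⟨⟨b1, b2, b3, b4, _⟩, _⟩ := he
    obtain ⟨⟨c1, c2, c3, c4, _⟩, _⟩ := hf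
    exact Prod.ext (locG_eq hco b1 b2 c1 c2 a1 a3) (locG_eq hco b3 b4 c3 c4 a2 a4)
  · rintro ⟨⟨a1, a2⟩, ⟨b1, b2⟩⟩ hab
    rw [mem_product, mem_filter, mem_filter, mem_cls, mem_cls] at hab
    obtain ⟨⟨⟨c1, c2, c3, c4, c5⟩, c6⟩, ⟨d1, d2, d3, d4, d5⟩, d6⟩ := hab
    dsimp only at c1 c2 c3 c4 c5 c6 d1 d2 d3 d4 d5 d6
    obtain ⟨x, x1, x2, x3, x4⟩ := loc_crtG h1 h2 hco a1 b1
    obtain ⟨y, y1, y2, y3, y4⟩ := loc_crtG h1 h2 hco a2 b2
    have hc : IsCoprime (M1 : ℤ) (M2 : ℤ) := Nat.isCoprime_iff_coprime.2 hco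
    have e1 : (M1 : ℤ) ∣ det x y - 1 := by
      have := dvd_add (det_cg x3 y3) c5
      rwa [sub_add_sub_cancel] at this
    have e2 : (M2 : ℤ) ∣ det x y - 1 := by
      have := dvd_add (det_cg x4 y4) d5
      rwa [sub_add_sub_cancel] at this
    refine ⟨(x, y), ?_, ?_⟩
    · rw [mem_filter, mem_cls]
      refine ⟨⟨x1, x2, y1, y2, ?_⟩, ?_, ?_⟩
      · have := hc.mul_dvd e1 e2
        push_cast
        exact this
      · exact (hP1 (x, y) (a1, a2) x3 y3).2 c6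
      · exact (hP2 (x, y) (b1, b2) x4 y4).2 d6
    · dsimp only
      rw [rd_eq_of_cg x3 c1 c2, rd_eq_of_cg y3 c3 c4, rd_eq_of_cg x4 d1 d2, rd_eq_of_cg y4 d3 d4]

/-- a computable version of `cls 2` -/
def cls2 : Finset (G × G) :=
  (((((range 2 ×ˢ range 2) ×ˢ (range 2 ×ˢ range 2)).image
    (fun w : (ℕ × ℕ) × (ℕ × ℕ) => ((⟨(w.1.1 : ℤ), (w.1.2 : ℤ)⟩, ⟨(w.2.1 : ℤ), (w.2.2 : ℤ)⟩) : G × G))).filter
      (fun e => ((2 : ℕ) : ℤ) ∣ det e.1 e.2 - 1)) : Finset (G × G))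

theorem cls2_eq : cls 2 = cls2 := rfl

theorem cls2_card : cls2.card = 6 := by decide +kernel

theorem cls2_filter : (cls2.filter (fun e => Odd (nm e.1) ∧ Odd (nm e.2))).card = 2 := by
  decide +kernel

open Classical in
/-- `decide` or `simp`/`rfl` computations with the 16 quadruples -/
theorem cls_two : (cls 2).card = 6 ∧ ((cls 2).filter (fun e => Odd (nm e.1) ∧ Odd (nm e.2))).card = 2 := by
  rw [cls2_eq]
  refine ⟨cls2_card, ?_⟩
  rw [← cls2_filter]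

end Pool.Agent.OmAll

end

/-! ### from `Lib_MP_f1a94e_eq.Defs` -/

section

/-!
# MP_f1a94e_nt, equidistribution of `Ω (m ^ 2 + 1)` modulo `q`: definitions

Pairs `(V, V')` of Gaussian integers with `det (V, V') = n`, moves of small primes, limit quantities.
-/

set_option autoImplicit false

namespace Pool.Agent.OmEq

open Finset Pool.Agent.GaussMR Pool.Agent.OmAll

/-- pairs `(V, V')` of determinant `n` with `V` primitive, positive scalar product and `V' = c V` modulo `n`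
for some `c` coprime to `n` -/
def En (n : ℕ) (e : G × G) : Prop :=
  det e.1 e.2 = n ∧ 0 < dot e.1 e.2 ∧ Prim e.1 ∧
    ∃ c : ℤ, IsCoprime c (n : ℤ) ∧ cg n e.2 ((c : G) * e.1)

open Classical in
/-- the pairs of `En n` with scalar product at most `x` -/
noncomputable def EN (n : ℕ) (x : ℝ) : Finset (G × G) :=
  (ball (x ^ 2 + (n : ℝ) ^ 2) ×ˢ ball (x ^ 2 + (n : ℝ) ^ 2)).filter
    (fun e => En n e ∧ ((dot e.1 e.2 : ℤ) : ℝ) ≤ x)

/-- `log (|V'|^2 / |V|^2)` -/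
noncomputable def tE (e : G × G) : ℝ := Real.log (nm e.2) - Real.log (nm e.1)

/-- the scalar product as a real number -/
noncomputable def mE (e : G × G) : ℝ := ((dot e.1 e.2 : ℤ) : ℝ)

/-- the primes `1 mod 4` up to `T` not in `E` -/
def PE (E : Finset ℕ) (T : ℕ) : Finset ℕ := PT T \ E

open Classical in
/-- the primes of `PE E T` dividing `|V|^2 |V'|^2` exactly once -/
noncomputable def ds (E : Finset ℕ) (T : ℕ) (e : G × G) : Finset ℕ :=
  (PE E T).filter (fun p => p ∣ nm e.1 * nm e.2 ∧ ¬ p ^ 2 ∣ nm e.1 * nm e.2)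

/-- all these primes divide `|V'|^2` -/
def bs (E : Finset ℕ) (T : ℕ) (e : G × G) : Prop := ∀ p ∈ ds E T e, ¬ p ∣ nm e.1

/-- `∑ log p` over a finite set of primes -/
noncomputable def lg (a : Finset ℕ) : ℝ := ∑ p ∈ a, Real.log p

/-- functions on pairs that are multiplied by `g p` when a prime `γ` of norm `p ∉ E` moves from `V'` to `V` -/
structure Cmp (n : ℕ) (E : Finset ℕ) (g : ℕ → ℂ) (Φ : G × G → ℂ) : Prop where
  bd : ∀ e, ‖Φ e‖ ≤ 1
  mv : ∀ γ U W : G, (nm γ).Prime → nm γ % 4 = 1 → nm γ ∉ E → En n (γ * U, W) →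
    ¬ (nm γ) ^ 2 ∣ nm (γ * U) * nm W → Φ (γ * U, W) = g (nm γ) * Φ (U, star γ * W)

/-- density of the base pairs with `ds E T e = D` -/
noncomputable def Pr (E : Finset ℕ) (T : ℕ) (D : Finset ℕ) : ℝ :=
  (∏ p ∈ D, Ap p) * ∏ p ∈ PE E T \ D, (1 - 2 * Ap p)

/-- the sum over a cluster with movable primes `D` -/
noncomputable def cs (g : ℕ → ℂ) (w : ℝ → ℂ) (D : Finset ℕ) (t : ℝ) : ℂ :=
  ∑ a ∈ D.powerset, (∏ p ∈ a, g p) * w (t - 2 * lg a)

/-- the limit of the sums of the absolute values of the cluster sums -/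
noncomputable def IT (E : Finset ℕ) (g : ℕ → ℂ) (T : ℕ) (w : ℝ → ℂ) : ℝ :=
  ∑ D ∈ (PE E T).powerset, Pr E T D * ∫ t, ‖cs g w D t‖

/-- `g (p) p^(-2 i τ) / p` has bounded sums up to `(R / 2) log (1 / |τ|)` -/
def NP (E : Finset ℕ) (g : ℕ → ℂ) (R : ℝ) : Prop :=
  ∀ B : ℝ, 0 < B → ∃ C : ℝ, ∀ T : ℕ, 3 ≤ T → ∀ τ : ℝ, 0 < |τ| → |τ| ≤ B →
    ∑ p ∈ PE E T, (g p * Complex.exp (-(2 * τ * Real.log p : ℝ) * Complex.I)).re / p ≤
      R / 2 * max 0 (Real.log (1 / |τ|)) + C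

theorem mem_EN {n : ℕ} (hn : 0 < n) {x : ℝ} {e : G × G} : e ∈ EN n x ↔ En n e ∧ mE e ≤ x := by
  classical
  unfold EN mE
  simp only [mem_filter, mem_product, mem_ball]
  refine ⟨fun h => h.2, fun h => ⟨?_, h⟩⟩
  obtain ⟨⟨h1, h2, -, -⟩, h3⟩ := h
  have h4 := dot_sq_add_det_sq e.1 e.2
  rw [h1] at h4
  have hn' : (1 : ℤ) ≤ (n : ℤ) := by exact_mod_cast hn
  have h5 : (0 : ℤ) < (nm e.1 : ℤ) * nm e.2 := by
    rw [← h4]
    positivity
  have h6 : 0 < nm e.1 * nm e.2 := by exact_mod_cast h5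
  have h7 : 1 ≤ nm e.1 := Nat.pos_of_mul_pos_left h6 |> fun _ => Nat.pos_of_ne_zero (by
    rintro h0
    rw [h0, zero_mul] at h6
    exact lt_irrefl _ h6)
  have h8 : 1 ≤ nm e.2 := Nat.pos_of_ne_zero (by
    rintro h0
    rw [h0, mul_zero] at h6
    exact lt_irrefl _ h6)
  have h9 : ((dot e.1 e.2 : ℤ) : ℝ) ^ 2 + (n : ℝ) ^ 2 = (nm e.1 : ℝ) * nm e.2 := by
    exact_mod_cast h4
  have h10 : (0 : ℝ) < ((dot e.1 e.2 : ℤ) : ℝ) := by exact_mod_cast h2
  have h11 : ((dot e.1 e.2 : ℤ) : ℝ) ^ 2 ≤ x ^ 2 := by nlinarith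
  have h12 : (1 : ℝ) ≤ nm e.1 := by exact_mod_cast h7
  have h13 : (1 : ℝ) ≤ nm e.2 := by exact_mod_cast h8
  constructor <;> nlinarith

theorem mem_PE {E : Finset ℕ} {T p : ℕ} : p ∈ PE E T ↔ p ≤ T ∧ p.Prime ∧ p % 4 = 1 ∧ p ∉ E := by
  unfold PE PT
  rw [mem_sdiff, mem_filter, mem_range]
  constructor
  · rintro ⟨⟨h1, h2, h3⟩, h4⟩
    exact ⟨by omega, h2, h3, h4⟩
  · rintro ⟨h1, h2, h3, h4⟩
    exact ⟨⟨by omega, h2, h3⟩, h4⟩

theorem mE_pos {n : ℕ} {e : G × G} (h : En n e) : 0 < mE e := by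
  unfold mE
  exact_mod_cast h.2.1

end Pool.Agent.OmEq

end

/-! ### from `Lib_MP_f1a94e_lp.UDefs` -/

section

/-!
# MP_f1a94e_nt, joint law of the large prime factors: bounded completely multiplicative functions
-/

set_option autoImplicit false

namespace Pool.Agent.LPr

open Pool.Agent.GaussMR

/-- completely multiplicative functions bounded by one, of modulus one at the primes larger than `P0` -/
structure UF (P0 : ℕ) (f : ℕ → ℂ) : Prop where
  mul : ∀ m n, f (m * n) = f m * f n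
  one : f 1 = 1
  bd : ∀ n, ‖f n‖ ≤ 1
  un : ∀ p : ℕ, p.Prime → P0 < p → ‖f p‖ = 1

/-- a function of the norm times a character -/
noncomputable def FG (f : ℕ → ℂ) (χ : G → ℂ) (z : G) : ℂ := f (nm z) * χ z

end Pool.Agent.LPr

end
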