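import Pool.Agent.Lib_MP_92ef0c_m.M01
import Pool.Agent.Lib_MP_92ef0c_m.M02
import Pool.Agent.Lib_MP_92ef0c_sp.Q4

/-!
# MP_92ef0c_nt, split pairs: merged library part M03

Concatenation of smaller files (each in its own section), only to save build time.
-/

/-! ### from `Lib_MP_92ef0c_sp.SDefs0` -/

section

/-!
# MP_92ef0c_nt, split twin: matrices of fixed determinant
-/

set_option autoImplicit false

namespace Pool.Agent.GaussMR

end Pool.Agent.GaussMR

namespace Pool.Agent.OmAll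

end Pool.Agent.OmAll

namespace Pool.Agent.OmEq

end Pool.Agent.OmEq

namespace Pool.Agent.Spl

open Finset

/-- matrices with positive entries, primitive rows and determinant `n` -/
def Sn (n : ℕ) (e : Q4) : Prop :=
  e.a * e.d = e.b * e.c + n ∧ 0 < e.a ∧ 0 < e.b ∧ 0 < e.c ∧ 0 < e.d ∧ e.a.Coprime e.b ∧ e.c.Coprime e.d

/-- the product `b c` -/
def yS (e : Q4) : ℝ := (e.b : ℝ) * e.c

/-- `log (d / a)` -/
noncomputable def tS (e : Q4) : ℝ := Real.log e.d - Real.log e.a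

/-- `log (c / b)` -/
noncomputable def uS (e : Q4) : ℝ := Real.log e.c - Real.log e.b

open Classical in
/-- the matrices of `Sn n` with `b c ≤ x` -/
noncomputable def SN (n : ℕ) (x : ℝ) : Finset Q4 :=
  (((range (⌊x⌋₊ + n + 1) ×ˢ range (⌊x⌋₊ + n + 1)) ×ˢ (range (⌊x⌋₊ + n + 1) ×ˢ range (⌊x⌋₊ + n + 1))).image
    (fun w : (ℕ × ℕ) × (ℕ × ℕ) => (⟨w.1.1, w.1.2, w.2.1, w.2.2⟩ : Q4))).filter (fun e => Sn n e ∧ yS e ≤ x)

theorem mem_SN {n : ℕ} {x : ℝ} {e : Q4} : e ∈ SN n x ↔ Sn n e ∧ yS e ≤ x := by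
  classical
  unfold SN
  rw [mem_filter, mem_image]
  refine ⟨fun h => h.2, fun h => ⟨?_, h⟩⟩
  obtain ⟨⟨h1, h2, h3, h4, h5, -, -⟩, h6⟩ := h
  have h7 : e.b * e.c ≤ ⌊x⌋₊ := by
    apply Nat.le_floor
    unfold yS at h6
    push_cast
    exact h6
  have hb : e.b ≤ e.b * e.c := Nat.le_mul_of_pos_right _ h4
  have hc : e.c ≤ e.b * e.c := Nat.le_mul_of_pos_left _ h3
  have ha : e.a ≤ e.a * e.d := Nat.le_mul_of_pos_right _ h5
  have hd : e.d ≤ e.a * e.d := Nat.le_mul_of_pos_left _ h2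
  refine ⟨((e.a, e.b), (e.c, e.d)), ?_, rfl⟩
  simp only [mem_product, mem_range]
  omega

theorem yS_pos {n : ℕ} {e : Q4} (h : Sn n e) : 1 ≤ yS e := by
  unfold yS
  have h1 : 0 < e.b * e.c := Nat.mul_pos h.2.2.1 h.2.2.2.1
  have h2 : 1 ≤ e.b * e.c := h1
  exact_mod_cast h2

/-- completely multiplicative functions, bounded by 1, constant on the primes outside `E` -/
structure MF (f : ℕ → ℂ) (E : Finset ℕ) (ω : ℂ) : Prop where
  mul : ∀ m n, f (m * n) = f m * f n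
  bd : ∀ n, ‖f n‖ ≤ 1
  pr : ∀ p : ℕ, p.Prime → p ∉ E → f p = ω

/-! ### the interface of block M -/

/-- coprime pairs in a box -/
noncomputable def PB (C D : ℝ) : Finset (ℕ × ℕ) := ((Icc 1 ⌊C⌋₊) ×ˢ (Icc 1 ⌊D⌋₊)).filter (fun z => z.1.Coprime z.2)

/-- the direction of a pair -/
noncomputable def dirn (z : ℕ × ℕ) : ℝ := Real.log z.2 - Real.log z.1

open Classical in
/-- the sum over an arc and a residue class -/
noncomputable def Ss (f : ℕ → ℂ) (m : ℕ) (b : ℕ × ℕ) (C D δ τ : ℝ) : ℂ :=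
  ∑ z ∈ (PB C D).filter (fun z => (z.1 ≡ b.1 [MOD m] ∧ z.2 ≡ b.2 [MOD m]) ∧ τ ≤ dirn z ∧ dirn z < τ + δ),
    f z.1 * (starRingEnd ℂ) (f z.2)

/-- Matomaki-Radziwill in arcs for `f c * conj (f d)` -/
def MRS (f : ℕ → ℂ) : Prop :=
  ∀ m : ℕ, 0 < m → ∀ b : ℕ × ℕ, ∀ K : ℝ, 1 ≤ K → ∀ ε : ℝ, 0 < ε → ∃ H0 : ℝ, 0 < H0 ∧ ∀ H : ℝ, H0 ≤ H →
    ∃ X0 : ℝ, ∀ X : ℝ, X0 ≤ X →
    ∫ τ, ‖Ss f m b (Real.sqrt X) (K * Real.sqrt X) (H / X) τ‖ ^ 2 ≤ ε * H ^ 2

theorem mem_PB {C D : ℝ} {z : ℕ × ℕ} : z ∈ PB C D ↔ (0 < z.1 ∧ (z.1 : ℝ) ≤ C) ∧ (0 < z.2 ∧ (z.2 : ℝ) ≤ D) ∧ z.1.Coprime z.2 := by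
  unfold PB
  rw [mem_filter, mem_product, mem_Icc, mem_Icc]
  constructor
  · rintro ⟨⟨⟨h1, h2⟩, h3, h4⟩, h5⟩
    exact ⟨⟨h1, (Nat.le_floor_iff' (by omega)).1 h2⟩, ⟨h3, (Nat.le_floor_iff' (by omega)).1 h4⟩, h5⟩
  · rintro ⟨⟨h1, h2⟩, ⟨h3, h4⟩, h5⟩
    exact ⟨⟨⟨h1, Nat.le_floor h2⟩, h3, Nat.le_floor h4⟩, h5⟩

theorem MF.conj {f : ℕ → ℂ} {E : Finset ℕ} {ω : ℂ} (h : MF f E ω) :
    MF (fun n => (starRingEnd ℂ) (f n)) E ((starRingEnd ℂ) ω) := by
  refine ⟨fun m n => ?_, fun n => ?_, fun p hp hE => ?_⟩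
  · simp only [h.mul, map_mul]
  · simp only [RCLike.norm_conj]
    exact h.bd n
  · simp only [h.pr p hp hE]

end Pool.Agent.Spl

end

/-! ### from `Lib_MP_92ef0c_spi.PDefs` -/

section

/-!
# Split twin, block M: polynomials of boxes
-/

set_option autoImplicit false

namespace Pool.Agent.SplI

open Finset Pool.Agent.Spl

/-- the polynomial of a box of coprime pairs -/
noncomputable def Ps (f g : ℕ → ℂ) (C D t : ℝ) : ℂ :=
  ∑ z ∈ PB C D, f z.1 * g z.2 * Complex.exp (((t * dirn z : ℝ) : ℂ) * Complex.I)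

/-- the sum over an arc -/
noncomputable def Sg (f g : ℕ → ℂ) (C D δ τ : ℝ) : ℂ :=
  ∑ z ∈ (PB C D).filter (fun z => τ ≤ dirn z ∧ dirn z < τ + δ), f z.1 * g z.2

/-- small partial sums at height up to `N ^ 3` -/
def PtwS (g : ℕ → ℂ) : Prop := ∀ ε : ℝ, 0 < ε → ∃ N0 : ℝ, 1 < N0 ∧ ∀ N : ℝ, N0 ≤ N → ∀ t : ℝ, |t| ≤ N ^ 3 →
  ‖∑ n ∈ Icc 1 ⌊N⌋₊, g n * et t n‖ ≤ ε * N

end Pool.Agent.SplI

end

/-! ### from `Lib_MP_92ef0c_spi.Mob` -/

section

/-!
# Piece I-MOB: Moebius inversion in a box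
-/

set_option autoImplicit false

namespace Pool.Agent.SplI

open Finset Pool.Agent.Spl

private theorem mob_ind (N x y : ℕ) (hx : 1 ≤ x) (hxN : x ≤ N) :
    (if x.Coprime y then (1 : ℂ) else 0) =
      ∑ k ∈ Icc 1 N, if k ∣ x ∧ k ∣ y then ((ArithmeticFunction.moebius k : ℤ) : ℂ) else 0 := by
  have h1 : ∑ d ∈ (Nat.gcd x y).divisors, ArithmeticFunction.moebius d = if Nat.gcd x y = 1 then 1 else 0 := by
    have h2 := ArithmeticFunction.coe_mul_zeta_apply (f := ArithmeticFunction.moebius) (x := Nat.gcd x y)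
    rw [ArithmeticFunction.moebius_mul_coe_zeta, ArithmeticFunction.one_apply] at h2
    exact h2.symm
  have h3 : (Icc 1 N).filter (fun k => k ∣ x ∧ k ∣ y) = (Nat.gcd x y).divisors := by
    ext k
    rw [mem_filter, mem_Icc, Nat.mem_divisors, Nat.dvd_gcd_iff]
    have hg : Nat.gcd x y ≠ 0 := Nat.gcd_ne_zero_left (by omega)
    constructor
    · rintro ⟨-, h⟩
      exact ⟨h, hg⟩
    · rintro ⟨h, -⟩
      have := Nat.le_of_dvd (by omega) h.1
      have hk : k ≠ 0 := by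
        rintro rfl
        have := Nat.eq_zero_of_zero_dvd h.1
        omega
      exact ⟨⟨by omega, by omega⟩, h⟩
  rw [← sum_filter, h3, ← Int.cast_sum, h1]
  by_cases hc : x.Coprime y
  · rw [if_pos hc, if_pos hc]
    simp
  · rw [if_neg hc, if_neg hc]
    simp

private theorem mob_mult (n k : ℕ) (hk : 1 ≤ k) (a : ℕ → ℂ) :
    ∑ x ∈ (Icc 1 n).filter (fun x => k ∣ x), a x = ∑ x ∈ Icc 1 (n / k), a (k * x) := by
  have h1 : (Icc 1 n).filter (fun x => k ∣ x) = (Icc 1 (n / k)).image (fun x => k * x) := by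
    ext x
    rw [mem_filter, mem_Icc, mem_image]
    constructor
    · rintro ⟨⟨h1, h2⟩, c, rfl⟩
      refine ⟨c, ?_, rfl⟩
      rw [mem_Icc]
      refine ⟨?_, ?_⟩
      · rcases Nat.eq_zero_or_pos c with h | h
        · subst h
          simp at h1
        · exact h
      · rw [Nat.le_div_iff_mul_le (by omega)]
        rw [mul_comm]
        exact h2
    · rintro ⟨c, hc, rfl⟩
      rw [mem_Icc] at hc
      refine ⟨⟨Nat.mul_pos (by omega) (by omega), ?_⟩, Dvd.intro _ rfl⟩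
      rw [Nat.le_div_iff_mul_le (by omega)] at hc
      rw [mul_comm]
      exact hc.2
  rw [h1, sum_image]
  intro x _ y _ h
  exact Nat.eq_of_mul_eq_mul_left (by omega) h

/-- `∑_(k ∣ gcd (x, y)) μ(k) = 1` iff coprime; `x = k x'`, `y = k y'`, `f (k x') = f k f x'`, `et t (k x') et (-t) (k y') = et t x' et (-t) y'`; `exp (i t (log y - log x)) = et t x * et (-t) y`. For `k > D` the last sum is empty. -/
theorem ps_mob (f g : ℕ → ℂ) (hf : CF f) (hg : CF g) (C D t : ℝ) :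
    Ps f g C D t = ∑ k ∈ Icc 1 ⌊C⌋₊, ((ArithmeticFunction.moebius k : ℤ) : ℂ) * (f k * g k) *
      ((∑ x ∈ Icc 1 ⌊C / k⌋₊, f x * et t x) * ∑ y ∈ Icc 1 ⌊D / k⌋₊, g y * et (-t) y) := by
  have hF : ∀ z : ℕ × ℕ, f z.1 * g z.2 * Complex.exp (((t * dirn z : ℝ) : ℂ) * Complex.I) =
      (f z.1 * et t z.1) * (g z.2 * et (-t) z.2) := by
    intro z
    have h : Complex.exp (((t * dirn z : ℝ) : ℂ) * Complex.I) = et t z.1 * et (-t) z.2 := by
      unfold et dirn
      rw [← Complex.exp_add]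
      congr 1
      push_cast
      ring
    rw [h]
    ring
  unfold Ps
  rw [sum_congr rfl (fun z _ => hF z)]
  unfold PB
  rw [sum_filter, sum_product]
  have h1 : ∀ x ∈ Icc 1 ⌊C⌋₊, ∀ y ∈ Icc 1 ⌊D⌋₊,
      (if x.Coprime y then (f x * et t x) * (g y * et (-t) y) else 0) =
      ∑ k ∈ Icc 1 ⌊C⌋₊, ((ArithmeticFunction.moebius k : ℤ) : ℂ) *
        ((if k ∣ x then f x * et t x else 0) * (if k ∣ y then g y * et (-t) y else 0)) := by
    intro x hx y _
    rw [mem_Icc] at hx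
    have h2 := mob_ind ⌊C⌋₊ x y hx.1 hx.2
    have h3 : (if x.Coprime y then (f x * et t x) * (g y * et (-t) y) else 0) =
        (if x.Coprime y then (1 : ℂ) else 0) * ((f x * et t x) * (g y * et (-t) y)) := by
      split_ifs <;> ring
    rw [h3, h2, sum_mul]
    refine sum_congr rfl fun k _ => ?_
    by_cases ha : k ∣ x
    · by_cases hb : k ∣ y
      · rw [if_pos ⟨ha, hb⟩, if_pos ha, if_pos hb]
      · rw [if_neg (fun h => hb h.2), if_neg hb]
        ring
    · rw [if_neg (fun h => ha h.1), if_neg ha]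
      ring
  rw [sum_congr rfl (fun x hx => sum_congr rfl (fun y hy => h1 x hx y hy))]
  have h4 : ∀ x ∈ Icc 1 ⌊C⌋₊, ∑ y ∈ Icc 1 ⌊D⌋₊, ∑ k ∈ Icc 1 ⌊C⌋₊, ((ArithmeticFunction.moebius k : ℤ) : ℂ) *
        ((if k ∣ x then f x * et t x else 0) * (if k ∣ y then g y * et (-t) y else 0)) =
      ∑ k ∈ Icc 1 ⌊C⌋₊, ((ArithmeticFunction.moebius k : ℤ) : ℂ) *
        ((if k ∣ x then f x * et t x else 0) * ∑ y ∈ Icc 1 ⌊D⌋₊, (if k ∣ y then g y * et (-t) y else 0)) := by
    intro x _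
    rw [sum_comm]
    refine sum_congr rfl fun k _ => ?_
    rw [mul_sum, mul_sum]
  rw [sum_congr rfl h4, sum_comm]
  refine sum_congr rfl fun k hk => ?_
  rw [mem_Icc] at hk
  rw [← mul_sum, ← sum_mul, ← sum_filter, ← sum_filter, mob_mult _ k hk.1, mob_mult _ k hk.1,
    Nat.floor_div_natCast, Nat.floor_div_natCast]
  have h5 : ∑ x ∈ Icc 1 (⌊C⌋₊ / k), f (k * x) * et t (k * x) =
      (f k * et t k) * ∑ x ∈ Icc 1 (⌊C⌋₊ / k), f x * et t x := by
    rw [mul_sum]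
    refine sum_congr rfl fun x hx => ?_
    rw [mem_Icc] at hx
    rw [hf.mul k x (by omega) (by omega), et_mul t (by omega) (by omega)]
    ring
  have h6 : ∑ x ∈ Icc 1 (⌊D⌋₊ / k), g (k * x) * et (-t) (k * x) =
      (g k * et (-t) k) * ∑ x ∈ Icc 1 (⌊D⌋₊ / k), g x * et (-t) x := by
    rw [mul_sum]
    refine sum_congr rfl fun x hx => ?_
    rw [mem_Icc] at hx
    rw [hg.mul k x (by omega) (by omega), et_mul (-t) (by omega) (by omega)]
    ring
  have h7 : et t k * et (-t) k = 1 := by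
    rw [← et_add]
    unfold et
    simp
  rw [h5, h6]
  have h8 : (f k * et t k * ∑ x ∈ Icc 1 (⌊C⌋₊ / k), f x * et t x) *
      (g k * et (-t) k * ∑ x ∈ Icc 1 (⌊D⌋₊ / k), g x * et (-t) x) =
      (et t k * et (-t) k) * ((f k * g k) * ((∑ x ∈ Icc 1 (⌊C⌋₊ / k), f x * et t x) *
        ∑ x ∈ Icc 1 (⌊D⌋₊ / k), g x * et (-t) x)) := by
    ring
  rw [h8, h7]
  ring

end Pool.Agent.SplI

end

/-! ### from `Lib_MP_f1a94e_mr.ArgDeriv` -/

section

/-!
# Piece ARG: derivatives of the angle along a row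
-/

set_option autoImplicit false

namespace Pool.Agent.GaussMR

open scoped ContDiff

/-- For `b > 0`: `arg (x + i b) = π / 2 - arctan (x / b)`, so
`xi j ⟨x, b⟩ = I ^ j * ee (-(j / (2 π)) * arctan (x / b))`. -/
theorem xi_row (j : ℤ) (b : ℕ) (hb : 0 < b) (x : ℤ) :
    xi j ⟨x, b⟩ = Complex.I ^ j * ee (-((j : ℝ) / (2 * Real.pi)) * Real.arctan ((x : ℝ) / b)) := by
  have hb0 : (0 : ℝ) < b := by exact_mod_cast hb
  set t : ℝ := Real.arctan ((x : ℝ) / b) with ht
  set R : ℝ := Real.sqrt ((x : ℝ) ^ 2 + (b : ℝ) ^ 2) with hR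
  have hR0 : 0 < R := Real.sqrt_pos.mpr (by positivity)
  have hR2 : R ^ 2 = (x : ℝ) ^ 2 + (b : ℝ) ^ 2 := Real.sq_sqrt (by positivity)
  have hsq : Real.sqrt (1 + ((x : ℝ) / b) ^ 2) = R / b := by
    rw [hR, show (1 : ℝ) + ((x : ℝ) / b) ^ 2 = ((x : ℝ) ^ 2 + (b : ℝ) ^ 2) / b ^ 2 by
      field_simp
      ring, Real.sqrt_div (by positivity), Real.sqrt_sq hb0.le]
  have hcos : Real.cos t = b / R := by
    rw [ht, Real.cos_arctan, hsq]
    field_simp
  have hsin : Real.sin t = x / R := by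
    rw [ht, Real.sin_arctan, hsq]
    field_simp
  have hdir : dir (⟨x, b⟩ : G) = Complex.I * Complex.exp (((-t : ℝ) : ℂ) * Complex.I) := by
    have hn : ‖((⟨x, b⟩ : G) : ℂ)‖ = R := by
      rw [norm_eq_sqrt, hR]
      congr 1
      have := nm_eq (⟨x, b⟩ : G)
      have h' : ((nm (⟨x, b⟩ : G) : ℤ) : ℝ) = ((x ^ 2 + (b : ℤ) ^ 2 : ℤ) : ℝ) := by rw [this]
      push_cast at h'
      exact h'
    unfold dir
    rw [hn, toComplex_eq, Complex.exp_mul_I, ← Complex.ofReal_cos, ← Complex.ofReal_sin,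
      Real.cos_neg, Real.sin_neg, hcos, hsin]
    have hRc : (R : ℂ) ≠ 0 := by exact_mod_cast hR0.ne'
    push_cast
    field_simp
    have hI : Complex.I ^ 2 = -1 := Complex.I_sq
    linear_combination (x : ℂ) * hI
  unfold xi
  rw [hdir, mul_zpow, ← Complex.exp_int_mul]
  congr 1
  unfold ee
  congr 1
  push_cast
  have hpi : (Real.pi : ℂ) ≠ 0 := by exact_mod_cast Real.pi_ne_zero
  field_simp

set_option linter.unusedVariables false in
theorem contDiff_row (c b : ℝ) (hb : 0 < b) : ContDiff ℝ ∞ (fun x : ℝ => c * Real.arctan (x / b)) := by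
  exact contDiff_const.mul (Real.contDiff_arctan.comp (contDiff_id.div_const b))

theorem row_ne_zero (b : ℝ) (hb : 0 < b) (x : ℝ) : (x : ℂ) + b * Complex.I ≠ 0 := by
  intro h
  have := congrArg Complex.im h
  simp at this
  exact hb.ne' this

theorem row_hasDeriv (q : ℕ) (b : ℝ) (hb : 0 < b) (x : ℝ) :
    HasDerivAt (fun x : ℝ => (((x : ℂ) + b * Complex.I) ^ (-(q : ℤ))).im)
      (-(q : ℝ) * (((x : ℂ) + b * Complex.I) ^ (-((q + 1 : ℕ) : ℤ))).im) x := by
  have h1 : HasDerivAt (fun z : ℂ => (z + b * Complex.I) ^ (-(q : ℤ)))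
      (((-(q : ℤ) : ℤ) : ℂ) * ((x : ℂ) + b * Complex.I) ^ (-(q : ℤ) - 1)) (x : ℂ) := by
    have h2 := hasDerivAt_zpow (-(q : ℤ)) ((x : ℂ) + b * Complex.I) (Or.inl (row_ne_zero b hb x))
    exact h2.comp_add_const (x : ℂ) (b * Complex.I)
  have h3 := h1.comp_ofReal
  have h4 := (Complex.imCLM.hasFDerivAt (x := ((x : ℂ) + b * Complex.I) ^ (-(q : ℤ)))).comp_hasDerivAt x h3
  have e : Complex.imCLM (((-(q : ℤ) : ℤ) : ℂ) * ((x : ℂ) + b * Complex.I) ^ (-(q : ℤ) - 1)) =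
      -(q : ℝ) * (((x : ℂ) + b * Complex.I) ^ (-((q + 1 : ℕ) : ℤ))).im := by
    have e1 : (((-(q : ℤ) : ℤ) : ℂ)) = ((-(q : ℝ) : ℝ) : ℂ) := by push_cast; rfl
    rw [Complex.imCLM_apply, e1, Complex.im_ofReal_mul]
    congr 3
    push_cast
    ring
  rw [← e]
  exact h4

/-- `arctan (x / b)' = b / (x² + b²) = - Im (1 / (x + i b))`, and
`(Im (x + i b)^(-q))' = - q Im (x + i b)^(-q-1)`. -/
theorem iteratedDeriv_row (q : ℕ) (hq : 1 ≤ q) (c b : ℝ) (hb : 0 < b) (x : ℝ) :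
    iteratedDeriv q (fun x : ℝ => c * Real.arctan (x / b)) x =
      c * ((-1) ^ q * (q - 1).factorial * (((x : ℂ) + b * Complex.I) ^ (-(q : ℤ))).im) := by
  have main : ∀ q : ℕ, 1 ≤ q → iteratedDeriv q (fun x : ℝ => c * Real.arctan (x / b)) =
      fun x : ℝ => c * ((-1) ^ q * (q - 1).factorial * (((x : ℂ) + b * Complex.I) ^ (-(q : ℤ))).im) := by
    intro q hq
    induction q, hq using Nat.le_induction with
    | base =>
      rw [iteratedDeriv_one]
      funext y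
      have h1 : HasDerivAt (fun x : ℝ => c * Real.arctan (x / b)) (c * (1 / (1 + (y / b) ^ 2) * (1 / b))) y := by
        have h2 : HasDerivAt (fun x : ℝ => x / b) (1 / b) y := (hasDerivAt_id y).div_const b
        exact (h2.arctan).const_mul c
      rw [h1.deriv]
      congr 1
      have h0 := row_ne_zero b hb y
      have him : (((y : ℂ) + b * Complex.I) ^ (-((1 : ℕ) : ℤ))).im = -b / (y ^ 2 + b ^ 2) := by
        rw [Nat.cast_one, zpow_neg_one, Complex.inv_im]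
        have hns : Complex.normSq ((y : ℂ) + b * Complex.I) = y ^ 2 + b ^ 2 := by
          rw [Complex.normSq_apply]
          simp
          ring
        rw [hns]
        simp
      rw [him]
      have : y ^ 2 + b ^ 2 ≠ 0 := by positivity
      simp
      field_simp
      ring
    | succ q hq ih =>
      rw [iteratedDeriv_succ, ih]
      funext y
      have h1 := ((row_hasDeriv q b hb y).const_mul ((-1) ^ q * ((q - 1).factorial : ℝ))).const_mul c
      rw [h1.deriv]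
      have hf : ((q + 1 - 1).factorial : ℝ) = q * ((q - 1).factorial : ℝ) := by
        obtain ⟨p, rfl⟩ : ∃ p, q = p + 1 := ⟨q - 1, by omega⟩
        simp [Nat.factorial_succ]
      rw [hf, pow_succ]
      ring
  rw [main q hq]

/-- the function `h(x) = Im (x + i b)^(-q)` has derivative at most `q / |x + i b|^(q+1)` -/
theorem row_lip (q : ℕ) (hq : 1 ≤ q) (b : ℝ) (hb : 0 < b) (x y : ℝ) :
    |(((x : ℂ) + b * Complex.I) ^ (-(q : ℤ))).im - (((y : ℂ) + b * Complex.I) ^ (-(q : ℤ))).im| ≤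
      q / b ^ (q + 1) * |x - y| := by
  have hbound : ∀ z ∈ (Set.univ : Set ℝ),
      ‖-(q : ℝ) * (((z : ℂ) + b * Complex.I) ^ (-((q + 1 : ℕ) : ℤ))).im‖ ≤ q / b ^ (q + 1) := by
    intro z _
    rw [norm_mul, norm_neg, Real.norm_natCast, div_eq_mul_inv]
    have h1 : |(((z : ℂ) + b * Complex.I) ^ (-((q + 1 : ℕ) : ℤ))).im| ≤ (b ^ (q + 1))⁻¹ := by
      refine (Complex.abs_im_le_norm _).trans ?_
      rw [zpow_neg, zpow_natCast, norm_inv, norm_pow]
      have h2 : b ≤ ‖(z : ℂ) + b * Complex.I‖ := by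
        have := Complex.abs_im_le_norm ((z : ℂ) + b * Complex.I)
        simp at this
        rwa [abs_of_pos hb] at this
      gcongr
    rw [Real.norm_eq_abs]
    gcongr
  have := Convex.norm_image_sub_le_of_norm_hasDerivWithin_le (f := fun x : ℝ => (((x : ℂ) + b * Complex.I) ^ (-(q : ℤ))).im)
    (f' := fun z => -(q : ℝ) * (((z : ℂ) + b * Complex.I) ^ (-((q + 1 : ℕ) : ℤ))).im)
    (fun z _ => (row_hasDeriv q b hb z).hasDerivWithinAt) hbound convex_univ (Set.mem_univ y) (Set.mem_univ x)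
  simpa [Real.norm_eq_abs] using this

end Pool.Agent.GaussMR

end

/-! ### from `Lib_MP_f1a94e_mr.BHa` -/

section

/-!
# Piece BHA: Bonferroni inequalities
-/

set_option autoImplicit false

namespace Pool.Agent.GaussMR

/-! ### auxiliary lemmas -/

theorem bha_alt_succ (b s : ℕ) :
    ∑ k ∈ Finset.range (b + 1), (-1 : ℝ) ^ k * ((s + 1).choose k : ℝ) =
      (-1) ^ b * (s.choose b : ℝ) := by
  induction b with
  | zero => simp
  | succ b ih =>
    rw [Finset.sum_range_succ, ih, Nat.choose_succ_succ s b]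
    push_cast
    ring

theorem bha_alt_zero (b : ℕ) :
    ∑ k ∈ Finset.range (b + 1), (-1 : ℝ) ^ k * ((0 : ℕ).choose k : ℝ) = 1 := by
  rw [Finset.sum_eq_single 0]
  · simp
  · intro k _ hk
    rw [Nat.choose_eq_zero_of_lt (Nat.pos_of_ne_zero hk)]
    simp
  · simp

open Classical in
theorem bha_split {ι : Type*} (S : Finset ι) (n : ℕ) (f : Finset ι → ℝ) :
    ∑ D ∈ S.powerset.filter (fun D => D.card ≤ n), f D =
      ∑ k ∈ Finset.range (n + 1), ∑ D ∈ S.powersetCard k, f D := by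
  rw [← Finset.sum_fiberwise_of_maps_to (s := S.powerset.filter (fun D => D.card ≤ n))
    (t := Finset.range (n + 1)) (g := fun D => D.card)]
  · refine Finset.sum_congr rfl fun k hk => Finset.sum_congr ?_ fun _ _ => rfl
    ext D
    simp only [Finset.mem_filter, Finset.mem_powerset, Finset.mem_powersetCard]
    have := Finset.mem_range.1 hk
    constructor
    · rintro ⟨⟨h1, _⟩, h2⟩
      exact ⟨h1, h2⟩
    · rintro ⟨h1, h2⟩
      exact ⟨⟨h1, by omega⟩, h2⟩
  · intro D hD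
    simp only [Finset.mem_filter, Finset.mem_powerset] at hD
    exact Finset.mem_range.2 (by omega)

open Classical in
theorem bha_card_eq {ι : Type*} (S : Finset ι) (n : ℕ) :
    S.powerset.filter (fun D => D.card = n) = S.powersetCard n := by
  ext D
  simp only [Finset.mem_filter, Finset.mem_powerset, Finset.mem_powersetCard]

open Classical in
theorem bha_alt {ι : Type*} (S : Finset ι) (n : ℕ) :
    ∑ D ∈ S.powerset.filter (fun D => D.card ≤ n), (-1 : ℝ) ^ D.card =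
      ∑ k ∈ Finset.range (n + 1), (-1 : ℝ) ^ k * (S.card.choose k : ℝ) := by
  rw [bha_split]
  refine Finset.sum_congr rfl fun k _ => ?_
  rw [Finset.sum_congr rfl (g := fun _ => (-1 : ℝ) ^ k)]
  · rw [Finset.sum_const, Finset.card_powersetCard, nsmul_eq_mul, mul_comm]
  · intro D hD
    rw [(Finset.mem_powersetCard.1 hD).2]

theorem bha_insert {ι : Type*} [DecidableEq ι] (P : Finset ι) (a : ι) (ha : a ∉ P) (g : ι → ℝ)
    (k : ℕ) :
    ∑ A ∈ (insert a P).powersetCard (k + 1), ∏ p ∈ A, g p =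
      ∑ A ∈ P.powersetCard (k + 1), ∏ p ∈ A, g p +
        g a * ∑ A ∈ P.powersetCard k, ∏ p ∈ A, g p := by
  rw [Finset.powersetCard_succ_insert ha, Finset.sum_union]
  · congr 1
    rw [Finset.sum_image, Finset.mul_sum]
    · apply Finset.sum_congr rfl
      intro A hA
      have hA' : a ∉ A := fun h => ha ((Finset.mem_powersetCard.1 hA).1 h)
      rw [Finset.prod_insert hA']
    · intro A hA B hB hAB
      have hA' : a ∉ A := fun h => ha ((Finset.mem_powersetCard.1 (Finset.mem_coe.1 hA)).1 h)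
      have hB' : a ∉ B := fun h => ha ((Finset.mem_powersetCard.1 (Finset.mem_coe.1 hB)).1 h)
      calc A = (insert a A).erase a := (Finset.erase_insert hA').symm
        _ = (insert a B).erase a := by rw [hAB]
        _ = B := Finset.erase_insert hB'
  · rw [Finset.disjoint_left]
    intro A hA hA2
    obtain ⟨B, -, rfl⟩ := Finset.mem_image.1 hA2
    exact ha ((Finset.mem_powersetCard.1 hA).1 (Finset.mem_insert_self _ _))

theorem bha_empty {ι : Type*} (g : ι → ℝ) (k : ℕ) :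
    ∑ A ∈ (∅ : Finset ι).powersetCard (k + 1), ∏ p ∈ A, g p = 0 := by
  have : (∅ : Finset ι).powersetCard (k + 1) = ∅ :=
    Finset.powersetCard_eq_empty.2 (by simp)
  rw [this, Finset.sum_empty]

theorem bha_pow_step (G x : ℝ) (hG : 0 ≤ G) (hx : 0 ≤ x) (k : ℕ) :
    G ^ (k + 1) + ((k : ℝ) + 1) * x * G ^ k ≤ (G + x) ^ (k + 1) := by
  induction k with
  | zero => simp
  | succ k ih =>
    have h1 : (G + x) * (G ^ (k + 1) + ((k : ℝ) + 1) * x * G ^ k) ≤ (G + x) * (G + x) ^ (k + 1) :=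
      mul_le_mul_of_nonneg_left ih (by linarith)
    have h2 : (G + x) ^ (k + 1 + 1) = (G + x) * (G + x) ^ (k + 1) := by ring
    rw [h2]
    refine le_trans ?_ h1
    push_cast
    have h3 : 0 ≤ ((k : ℝ) + 1) * x * x * G ^ k := by positivity
    have h4 : (G + x) * (G ^ (k + 1) + ((k : ℝ) + 1) * x * G ^ k) =
      G ^ (k + 1 + 1) + ((k : ℝ) + 1 + 1) * x * G ^ (k + 1) + ((k : ℝ) + 1) * x * x * G ^ k := by
      ring
    rw [h4]
    linarith

theorem bha_esymm {ι : Type*} (P : Finset ι) (g : ι → ℝ) (hg : ∀ p ∈ P, 0 ≤ g p) (k : ℕ) :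
    ∑ A ∈ P.powersetCard k, ∏ p ∈ A, g p ≤ (∑ p ∈ P, g p) ^ k / (k.factorial : ℝ) := by
  classical
  induction P using Finset.induction_on generalizing k with
  | empty =>
    cases k with
    | zero => simp
    | succ k => rw [bha_empty]; simp
  | insert a P ha ih =>
    have hg' : ∀ p ∈ P, 0 ≤ g p := fun p hp => hg p (Finset.mem_insert_of_mem hp)
    have hga : 0 ≤ g a := hg a (Finset.mem_insert_self _ _)
    cases k with
    | zero => simp
    | succ k =>
      rw [bha_insert P a ha g k, Finset.sum_insert ha]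
      have h1 := ih hg' (k + 1)
      have h2 := mul_le_mul_of_nonneg_left (ih hg' k) hga
      have hG : 0 ≤ ∑ p ∈ P, g p := Finset.sum_nonneg hg'
      have h3 := bha_pow_step _ _ hG hga k
      have hf : (0 : ℝ) < (k.factorial : ℝ) := by exact_mod_cast k.factorial_pos
      have hf1 : ((k + 1).factorial : ℝ) = ((k : ℝ) + 1) * (k.factorial : ℝ) := by
        rw [Nat.factorial_succ]; push_cast; ring
      have hk1 : (0 : ℝ) < (k : ℝ) + 1 := by positivity
      rw [add_comm (g a)]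
      refine (add_le_add h1 h2).trans ?_
      rw [hf1]
      have h4 : (∑ p ∈ P, g p) ^ (k + 1) / (((k : ℝ) + 1) * (k.factorial : ℝ)) +
          g a * ((∑ p ∈ P, g p) ^ k / (k.factorial : ℝ)) =
          ((∑ p ∈ P, g p) ^ (k + 1) + ((k : ℝ) + 1) * g a * (∑ p ∈ P, g p) ^ k) /
            (((k : ℝ) + 1) * (k.factorial : ℝ)) := by
        field_simp
      rw [h4]
      exact div_le_div_of_nonneg_right h3 (by positivity)

theorem bha_bonf {ι : Type*} (g : ι → ℝ) (P : Finset ι) (hP : ∀ p ∈ P, 0 ≤ g p ∧ g p ≤ 1)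
    (b : ℕ) :
    0 ≤ (-1 : ℝ) ^ b * (∑ k ∈ Finset.range (b + 1), (-1 : ℝ) ^ k *
      ∑ A ∈ P.powersetCard k, ∏ p ∈ A, g p - ∏ p ∈ P, (1 - g p)) := by
  classical
  induction P using Finset.induction_on generalizing b with
  | empty =>
    have : ∑ k ∈ Finset.range (b + 1), (-1 : ℝ) ^ k *
        ∑ A ∈ (∅ : Finset ι).powersetCard k, ∏ p ∈ A, g p = 1 := by
      rw [Finset.sum_range_succ']
      simp only [bha_empty, mul_zero, Finset.sum_const_zero, pow_zero, zero_add]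
      simp
    rw [this]
    simp
  | insert a P ha ih =>
    have hP' : ∀ p ∈ P, 0 ≤ g p ∧ g p ≤ 1 := fun p hp => hP p (Finset.mem_insert_of_mem hp)
    have hga := hP a (Finset.mem_insert_self _ _)
    have hpi0 : 0 ≤ ∏ p ∈ P, (1 - g p) :=
      Finset.prod_nonneg fun p hp => by linarith [(hP' p hp).2]
    have hpi1 : ∏ p ∈ P, (1 - g p) ≤ 1 :=
      Finset.prod_le_one (fun p hp => by linarith [(hP' p hp).2])
        fun p hp => by linarith [(hP' p hp).1]
    rw [Finset.prod_insert ha]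
    cases b with
    | zero =>
      simp only [zero_add, Finset.range_one, Finset.sum_singleton, pow_zero, one_mul]
      simp only [Finset.powersetCard_zero, Finset.sum_singleton, Finset.prod_empty]
      nlinarith
    | succ b =>
      have h1 := ih hP' (b + 1)
      have h2 := mul_nonneg hga.1 (ih hP' b)
      have e0 : ∀ Q : Finset ι, ∑ A ∈ Q.powersetCard 0, ∏ p ∈ A, g p = 1 := by
        intro Q
        simp
      have e1 : ∑ k ∈ Finset.range (b + 1 + 1), (-1 : ℝ) ^ k *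
          ∑ A ∈ (insert a P).powersetCard k, ∏ p ∈ A, g p =
          ∑ k ∈ Finset.range (b + 1 + 1), (-1 : ℝ) ^ k * ∑ A ∈ P.powersetCard k, ∏ p ∈ A, g p -
          g a * ∑ k ∈ Finset.range (b + 1), (-1 : ℝ) ^ k *
            ∑ A ∈ P.powersetCard k, ∏ p ∈ A, g p := by
        rw [Finset.sum_range_succ', Finset.sum_range_succ' (fun k => (-1 : ℝ) ^ k *
          ∑ A ∈ P.powersetCard k, ∏ p ∈ A, g p) (b + 1), e0, e0, Finset.mul_sum]
        have : ∀ k ∈ Finset.range (b + 1), (-1 : ℝ) ^ (k + 1) *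
            ∑ A ∈ (insert a P).powersetCard (k + 1), ∏ p ∈ A, g p =
            (-1 : ℝ) ^ (k + 1) * ∑ A ∈ P.powersetCard (k + 1), ∏ p ∈ A, g p -
            g a * ((-1 : ℝ) ^ k * ∑ A ∈ P.powersetCard k, ∏ p ∈ A, g p) := by
          intro k _
          rw [bha_insert P a ha g k]
          ring
        rw [Finset.sum_congr rfl this, Finset.sum_sub_distrib]
        ring
      rw [e1]
      have e2 : (-1 : ℝ) ^ (b + 1) = -(-1) ^ b := by ring
      rw [e2] at h1 ⊢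
      nlinarith

/-! ### the statements -/

open Classical in
/-- `∑_{j ≤ m'} (-1)^j C(n, j) = (-1)^m' C(n - 1, m')` for `n ≥ 1` -/
theorem bonf_lower {ι : Type*} (S : Finset ι) (m : ℕ) :
    (if S = ∅ then (1 : ℝ) else 0) ≤
      ∑ D ∈ S.powerset.filter (fun D => D.card ≤ 2 * m), (-1 : ℝ) ^ D.card := by
  rw [bha_alt]
  rcases Finset.eq_empty_or_nonempty S with h | h
  · rw [if_pos h, h, Finset.card_empty, bha_alt_zero]
  · rw [if_neg h.ne_empty]
    obtain ⟨s, hs⟩ := Nat.exists_eq_succ_of_ne_zero h.card_pos.ne'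
    rw [hs, Nat.succ_eq_add_one, bha_alt_succ, (even_two_mul m).neg_one_pow]
    positivity

open Classical in
theorem bonf_upper {ι : Type*} (S : Finset ι) (m : ℕ) :
    ∑ D ∈ S.powerset.filter (fun D => D.card ≤ 2 * m), (-1 : ℝ) ^ D.card ≤
      (if S = ∅ then (1 : ℝ) else 0) +
        ((S.powerset.filter (fun D => D.card = 2 * m + 1)).card : ℝ) := by
  rw [bha_alt, bha_card_eq, Finset.card_powersetCard]
  rcases Finset.eq_empty_or_nonempty S with h | h
  · rw [if_pos h, h, Finset.card_empty, bha_alt_zero]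
    simp
  · rw [if_neg h.ne_empty]
    obtain ⟨s, hs⟩ := Nat.exists_eq_succ_of_ne_zero h.card_pos.ne'
    rw [hs, Nat.succ_eq_add_one, bha_alt_succ, (even_two_mul m).neg_one_pow,
      Nat.choose_succ_succ]
    push_cast
    have : (0 : ℝ) ≤ (s.choose (2 * m + 1) : ℝ) := by positivity
    linarith

open Classical in
/-- the same with weights: `∏ (1 - g) ≤ ∑_{|D| ≤ 2m} (-1)^|D| ∏_D g` for `0 ≤ g ≤ 1` (e.g. induction on
`S`, proving at the same time the reverse inequality for odd truncation) -/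
theorem bonf_weight {ι : Type*} (S : Finset ι) (g : ι → ℝ) (h0 : ∀ p ∈ S, 0 ≤ g p)
    (h1 : ∀ p ∈ S, g p ≤ 1) (m : ℕ) :
    ∏ p ∈ S, (1 - g p) ≤
      ∑ D ∈ S.powerset.filter (fun D => D.card ≤ 2 * m), (-1 : ℝ) ^ D.card * ∏ p ∈ D, g p := by
  have h := bha_bonf g S (fun p hp => ⟨h0 p hp, h1 p hp⟩) (2 * m)
  rw [(even_two_mul m).neg_one_pow, one_mul] at h
  rw [bha_split]
  have e : ∑ k ∈ Finset.range (2 * m + 1), ∑ D ∈ S.powersetCard k, (-1 : ℝ) ^ D.card *
      ∏ p ∈ D, g p = ∑ k ∈ Finset.range (2 * m + 1), (-1 : ℝ) ^ k *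
        ∑ A ∈ S.powersetCard k, ∏ p ∈ A, g p := by
    refine Finset.sum_congr rfl fun k _ => ?_
    rw [Finset.mul_sum]
    refine Finset.sum_congr rfl fun D hD => ?_
    rw [(Finset.mem_powersetCard.1 hD).2]
  rw [e]
  linarith

open Classical in
/-- elementary symmetric sums: `e_n(g) ≤ (∑ g)^n / n!` -/
theorem esymm_le {ι : Type*} (S : Finset ι) (g : ι → ℝ) (h0 : ∀ p ∈ S, 0 ≤ g p) (n : ℕ) :
    ∑ D ∈ S.powerset.filter (fun D => D.card = n), ∏ p ∈ D, g p ≤
      (∑ p ∈ S, g p) ^ n / n.factorial := by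
  rw [bha_card_eq]
  exact bha_esymm S g h0 n

/-- `∏ x_i ≥ ∏ y_i - ∑_l e_l ∏_{i ≠ l} y_i` if `0 ≤ x_i ≤ y_i ≤ x_i + e_i` -/
theorem prod_lower (t : ℕ) (x y e : ℕ → ℝ) (h0 : ∀ i < t, 0 ≤ x i) (h1 : ∀ i < t, x i ≤ y i)
    (h2 : ∀ i < t, y i ≤ x i + e i) :
    ∏ i ∈ Finset.range t, y i - ∑ l ∈ Finset.range t, e l * ∏ i ∈ (Finset.range t).erase l, y i ≤
      ∏ i ∈ Finset.range t, x i := by
  have main : ∀ s : Finset ℕ, (∀ i ∈ s, 0 ≤ x i) → (∀ i ∈ s, x i ≤ y i) →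
      ∏ i ∈ s, y i - ∑ l ∈ s, (y l - x l) * ∏ i ∈ s.erase l, y i ≤ ∏ i ∈ s, x i := by
    intro s hx hxy
    induction s using Finset.induction_on with
    | empty => simp
    | insert i t hi ih =>
      have hx' : ∀ j ∈ t, 0 ≤ x j := fun j hj => hx j (Finset.mem_insert_of_mem hj)
      have hxy' : ∀ j ∈ t, x j ≤ y j := fun j hj => hxy j (Finset.mem_insert_of_mem hj)
      have ih' := ih hx' hxy'
      have hxi := hx i (Finset.mem_insert_self i t)
      have hxyi := hxy i (Finset.mem_insert_self i t)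
      rw [Finset.prod_insert hi, Finset.prod_insert hi, Finset.sum_insert hi,
        Finset.erase_insert hi]
      have hsum : ∑ l ∈ t, (y l - x l) * ∏ j ∈ (insert i t).erase l, y j =
          y i * ∑ l ∈ t, (y l - x l) * ∏ j ∈ t.erase l, y j := by
        rw [Finset.mul_sum]
        refine Finset.sum_congr rfl fun l hl => ?_
        have hne : l ≠ i := fun h => hi (h ▸ hl)
        rw [Finset.erase_insert_of_ne hne.symm,
          Finset.prod_insert (fun h => hi (Finset.mem_of_mem_erase h))]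
        ring
      rw [hsum]
      have hD : 0 ≤ ∑ l ∈ t, (y l - x l) * ∏ j ∈ t.erase l, y j := by
        refine Finset.sum_nonneg fun l hl => mul_nonneg (sub_nonneg.2 (hxy' l hl)) ?_
        exact Finset.prod_nonneg fun j hj =>
          (hx' j (Finset.mem_of_mem_erase hj)).trans (hxy' j (Finset.mem_of_mem_erase hj))
      nlinarith [mul_le_mul_of_nonneg_left ih' hxi, mul_nonneg (sub_nonneg.2 hxyi) hD]
  have h := main (Finset.range t) (fun i hi => h0 i (Finset.mem_range.1 hi))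
    (fun i hi => h1 i (Finset.mem_range.1 hi))
  refine le_trans ?_ h
  have : ∑ l ∈ Finset.range t, (y l - x l) * ∏ i ∈ (Finset.range t).erase l, y i ≤
      ∑ l ∈ Finset.range t, e l * ∏ i ∈ (Finset.range t).erase l, y i := by
    refine Finset.sum_le_sum fun l hl => ?_
    have hl' := Finset.mem_range.1 hl
    refine mul_le_mul_of_nonneg_right (by linarith [h2 l hl']) ?_
    refine Finset.prod_nonneg fun j hj => ?_
    have hj' := Finset.mem_range.1 (Finset.mem_of_mem_erase hj)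
    exact (h0 j hj').trans (h1 j hj')
  linarith

end Pool.Agent.GaussMR

end

/-! ### from `Lib_MP_92ef0c_lb.FDefs` -/

section

/-!
# MP_92ef0c_nt, split twin of the joint law: families and the interface of block B
-/

set_option autoImplicit false

namespace Pool.Agent.SplB

open Finset Pool.Agent.Spl MeasureTheory Filter

/-- families of completely multiplicative functions bounded by one, zero at the primes dividing `Q`, equal to `z` at the
other primes up to a power of the index -/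
structure FS (Q : ℕ) (z : ℂ) (f : ℝ → ℕ → ℂ) : Prop where
  mul : ∀ Y m n, f Y (m * n) = f Y m * f Y n
  bd : ∀ Y n, ‖f Y n‖ ≤ 1
  one : ∀ Y, f Y 1 = 1
  zr : ∀ Y (p : ℕ), p.Prime → p ∣ Q → f Y p = 0
  pr : ∃ κ : ℝ, 0 < κ ∧ ∀ Y : ℝ, 1 ≤ Y → ∀ p : ℕ, p.Prime → ¬ p ∣ Q → (p : ℝ) ≤ Y ^ κ → f Y p = z

open Classical in
/-- the indicator of the numbers coprime to `Q` -/
noncomputable def f00 (Q : ℕ) (n : ℕ) : ℂ := if n = 0 ∨ ¬ n.Coprime Q then 0 else 1

/-- the mean value of `f Y` relative to `f00 Q` at `√Y` -/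
noncomputable def mf (Q : ℕ) (f : ℝ → ℕ → ℂ) (Y : ℝ) : ℂ :=
  (∑ n ∈ Icc 1 ⌊Real.sqrt Y⌋₊, f Y n) / ∑ n ∈ Icc 1 ⌊Real.sqrt Y⌋₊, f00 Q n

/-- the sum over an arc and a residue class -/
noncomputable def S2 (F : ℕ × ℕ → ℂ) (m : ℕ) (b : ℕ × ℕ) (C D δ τ : ℝ) : ℂ :=
  ∑ z ∈ (PB C D).filter (fun z => (z.1 ≡ b.1 [MOD m] ∧ z.2 ≡ b.2 [MOD m]) ∧ τ ≤ dirn z ∧ dirn z < τ + δ), F z

/-- product function on pairs -/
def pf (f g : ℕ → ℂ) (z : ℕ × ℕ) : ℂ := f z.1 * g z.2

/-- Matomaki-Radziwill in arcs for the centred product of two families -/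
def MRB (Q : ℕ) (f g : ℝ → ℕ → ℂ) (μ : ℝ → ℂ) : Prop :=
  ∀ m : ℕ, 0 < m → ∀ b : ℕ × ℕ, ∀ K : ℝ, 1 ≤ K → ∀ ε : ℝ, 0 < ε → ∃ H0 : ℝ, 0 < H0 ∧ ∀ H : ℝ, H0 ≤ H →
    ∀ a : ℝ, 0 < a → ∀ᶠ X : ℝ in atTop,
    ∫ τ, ‖S2 (fun z => pf (f (a * X)) (g (a * X)) z - μ (a * X) * pf (f00 Q) (f00 Q) z) m b
      (Real.sqrt X) (K * Real.sqrt X) (H / X) τ‖ ^ 2 ≤ ε * H ^ 2

end Pool.Agent.SplB

end

/-! ### from `Lib_MP_92ef0c_spi.Disc` -/

section

/-!
# Piece I-DISC: discretisation of an integral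
-/

set_option autoImplicit false

namespace Pool.Agent.SplI

open Finset Pool.Agent.Spl

open Pool.Agent.GaussMR in
theorem disc_sum (T : ℕ) (F : ℝ → ℝ) :
    ∑ k ∈ fr T, F (k : ℝ) = ∑ j ∈ range (2 * T + 1), F ((j : ℝ) - T) := by
  refine Finset.sum_nbij' (fun k : ℤ => (k + T).toNat) (fun j : ℕ => (j : ℤ) - T) ?_ ?_ ?_ ?_ ?_
  · intro k hk
    unfold fr at hk
    rw [Finset.mem_Icc] at hk
    rw [Finset.mem_range]
    omega
  · intro j hj
    rw [Finset.mem_range] at hj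
    unfold fr
    rw [Finset.mem_Icc]
    omega
  · intro k hk
    unfold fr at hk
    rw [Finset.mem_Icc] at hk
    omega
  · intro j hj
    omega
  · intro k hk
    unfold fr at hk
    rw [Finset.mem_Icc] at hk
    have : (((k + T).toNat : ℕ) : ℤ) = k + T := by omega
    have h2 : (((k + T).toNat : ℕ) : ℝ) = (k : ℝ) + T := by
      have h3 := congrArg (fun z : ℤ => (z : ℝ)) this
      push_cast at h3
      exact h3
    rw [h2]
    congr 1
    ring

open Pool.Agent.GaussMR in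
/-- `[-T', T'] ⊆ ⋃_(|k| ≤ T) [k/N, (k+1)/N]` for `T ≥ N T'`; substitute `t = (k + s)/N`. -/
theorem disc (h : ℝ → ℝ) (hc : Continuous h) (h0 : ∀ t, 0 ≤ h t) (N T : ℕ) (hN : 0 < N) (T' : ℝ) (hT' : 0 ≤ T') (hT : N * T' ≤ T) (M : ℝ)
    (hM : ∀ s : ℝ, 0 ≤ s → s ≤ 1 → ∑ k ∈ fr T, h ((k + s) / N) ≤ M) : ∫ t in (-T')..T', h t ≤ M / N := by
  have hN0 : (0 : ℝ) < N := by exact_mod_cast hN
  have hInt : ∀ a b : ℝ, IntervalIntegrable h MeasureTheory.volume a b := fun a b => hc.intervalIntegrable a b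
  let a : ℕ → ℝ := fun j => ((j : ℝ) - T) / N
  have h1 : ∫ t in (-T')..T', h t ≤ ∫ t in (a 0)..(a (2 * T + 1)), h t := by
    refine intervalIntegral.integral_mono_interval ?_ (by linarith) ?_
      (Filter.Eventually.of_forall fun t => h0 t) (hInt _ _)
    · simp only [a]
      rw [div_le_iff₀ hN0]
      push_cast
      nlinarith
    · simp only [a]
      rw [le_div_iff₀ hN0]
      push_cast
      nlinarith
  have h2 : ∑ k ∈ range (2 * T + 1), ∫ x in (a k)..(a (k + 1)), h x = ∫ x in (a 0)..(a (2 * T + 1)), h x :=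
    intervalIntegral.sum_integral_adjacent_intervals (fun k _ => hInt _ _)
  have h3 : ∀ k : ℕ, ∫ x in (a k)..(a (k + 1)), h x = (1 / N) * ∫ s in (0:ℝ)..1, h ((((k : ℝ) - T) + s) / N) := by
    intro k
    have h4 := intervalIntegral.integral_comp_mul_add (a := 0) (b := 1) h (c := 1 / (N : ℝ)) (by positivity) (((k : ℝ) - T) / N)
    have e1 : (fun s : ℝ => h ((((k : ℝ) - T) + s) / N)) = fun s => h (1 / (N : ℝ) * s + ((k : ℝ) - T) / N) := by
      funext s; congr 1; ring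
    rw [e1, h4, smul_eq_mul]
    have e2 : 1 / (N : ℝ) * 0 + ((k : ℝ) - T) / N = a k := by simp only [a]; ring
    have e3 : 1 / (N : ℝ) * 1 + ((k : ℝ) - T) / N = a (k + 1) := by simp only [a]; push_cast; ring
    rw [e2, e3]
    field_simp
  have h5 : ∫ x in (a 0)..(a (2 * T + 1)), h x = (1 / N) * ∫ s in (0:ℝ)..1, ∑ k ∈ range (2 * T + 1), h ((((k : ℝ) - T) + s) / N) := by
    rw [← h2, intervalIntegral.integral_finsetSum (fun k _ => (by
      refine Continuous.intervalIntegrable ?_ _ _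
      exact hc.comp (by fun_prop)))]
    rw [mul_sum]
    exact sum_congr rfl fun k _ => h3 k
  have h6 : ∫ s in (0:ℝ)..1, ∑ k ∈ range (2 * T + 1), h ((((k : ℝ) - T) + s) / N) ≤ M := by
    have h7 : ∫ s in (0:ℝ)..1, ∑ k ∈ range (2 * T + 1), h ((((k : ℝ) - T) + s) / N) ≤ ∫ s in (0:ℝ)..1, M := by
      refine intervalIntegral.integral_mono_on (by norm_num) ?_ (by simp) fun s hs => ?_
      · refine Continuous.intervalIntegrable ?_ _ _
        exact continuous_finsetSum _ fun k _ => hc.comp (by fun_prop)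
      · have h8 := hM s hs.1 hs.2
        rw [disc_sum T (fun x => h ((x + s) / N))] at h8
        exact h8
    simpa using h7
  calc _ ≤ _ := h1
    _ = _ := h5
    _ ≤ (1 / N) * M := by gcongr
    _ = M / N := by ring

/-- `Ps` is a trigonometric polynomial -/
theorem ps_cont (f g : ℕ → ℂ) (C D : ℝ) : Continuous (Ps f g C D) := by
  unfold Ps
  refine continuous_finsetSum _ fun z _ => ?_
  fun_prop

end Pool.Agent.SplI

end

/-! ### from `Lib_MP_92ef0c_la.BHyp` -/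

section

/-!
# The interface theorems of block B as one hypothesis (only to keep the import graph flat)
-/

set_option autoImplicit false

namespace Pool.Agent.SplL

open Finset Pool.Agent.Spl Pool.Agent.SplB MeasureTheory Filter

/-- the interface theorems `mrb`, `mf_zero`, `mf_prog` of `Lib_MP_92ef0c_lb/MRB.lean` -/
structure BS : Prop where
  mrb : ∀ (q Q : ℕ), 0 < q → 0 < Q → ∀ (z1 z2 : ℂ), z1 ^ q = 1 → z2 ^ q = 1 → ∀ (f g : ℝ → ℕ → ℂ),
    FS Q z1 f → FS Q z2 g → ∀ (μ : ℝ → ℂ), Tendsto (fun Y => mf Q f Y * mf Q g Y - μ Y) atTop (nhds 0) → MRB Q f g μ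
  mf_zero : ∀ (q Q : ℕ), 0 < q → 0 < Q → ∀ (z : ℂ), z ^ q = 1 → z ≠ 1 → ∀ (f : ℝ → ℕ → ℂ),
    FS Q z f → Tendsto (mf Q f) atTop (nhds 0)
  mf_prog : ∀ (q Q : ℕ), 0 < q → 0 < Q → ∀ (z : ℂ), z ^ q = 1 → ∀ (f : ℝ → ℕ → ℂ), FS Q z f →
    ∀ (m : ℕ), 0 < m → ∀ (r : ℕ) (c : ℝ), 0 < c →
    Tendsto (fun Y : ℝ => (∑ n ∈ (Icc 1 ⌊c * Real.sqrt Y⌋₊).filter (fun n => n ≡ r [MOD m]),
      (f Y n - mf Q f Y * f00 Q n)) / Real.sqrt Y) atTop (nhds 0)

end Pool.Agent.SplL

end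

/-! ### from `Lib_MP_92ef0c_sp.EqDefs` -/

section

/-!
# Equidistribution of matrices in residue classes: definitions
-/

set_option autoImplicit false

namespace Pool.Agent.Spl

open Finset Pool.Agent.GaussMR Pool.Agent.OmAll Pool.Agent.OmEq

/-- congruence of matrices -/
def cq (M : ℕ) (e f : Q4) : Prop := e.a ≡ f.a [MOD M] ∧ e.b ≡ f.b [MOD M] ∧ e.c ≡ f.c [MOD M] ∧ e.d ≡ f.d [MOD M]

/-- predicates that depend only on the class modulo `M` -/
def PerQ (M : ℕ) (P : Q4 → Prop) : Prop := ∀ e f : Q4, cq M e f → (P e ↔ P f)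

open Classical in
/-- representatives of `SL2 (ℤ / M)` -/
noncomputable def clq (M : ℕ) : Finset Q4 :=
  (((range M ×ˢ range M) ×ˢ (range M ×ˢ range M)).image
    (fun w : (ℕ × ℕ) × (ℕ × ℕ) => (⟨w.1.1, w.1.2, w.2.1, w.2.2⟩ : Q4))).filter (fun e => e.a * e.d ≡ e.b * e.c + 1 [MOD M])

/-- `log (b / a)`, the direction of the first row -/
noncomputable def pS (e : Q4) : ℝ := Real.log e.b - Real.log e.a

/-- `log (c / a)` -/
noncomputable def wS (e : Q4) : ℝ := Real.log e.c - Real.log e.a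

/-- `log (im / re)` -/
noncomputable def dl (z : G) : ℝ := Real.log z.im - Real.log z.re

theorem mem_clq {M : ℕ} {e : Q4} : e ∈ clq M ↔ (e.a < M ∧ e.b < M ∧ e.c < M ∧ e.d < M) ∧
    e.a * e.d ≡ e.b * e.c + 1 [MOD M] := by
  classical
  unfold clq
  rw [mem_filter, mem_image]
  constructor
  · rintro ⟨⟨w, hw, rfl⟩, h⟩
    simp only [mem_product, mem_range] at hw
    exact ⟨⟨hw.1.1, hw.1.2, hw.2.1, hw.2.2⟩, h⟩
  · rintro ⟨⟨h1, h2, h3, h4⟩, h⟩
    refine ⟨⟨((e.a, e.b), (e.c, e.d)), ?_, rfl⟩, h⟩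
    simp only [mem_product, mem_range]
    exact ⟨⟨h1, h2⟩, h3, h4⟩

end Pool.Agent.Spl

end

/-! ### from `Lib_MP_92ef0c_sp.EqPos` -/

section

/-!
# A lower bound for the number of matrices of determinant 1
-/

set_option autoImplicit false

namespace Pool.Agent.Spl

open Finset Pool.Agent.GaussMR Pool.Agent.OmAll Pool.Agent.OmEq Filter

private theorem ep_tot (K : ℕ) : K * K ≤ 12 * ∑ d ∈ Ioc 0 K, Nat.totient d := by
  have h1 : ∑ n ∈ Ioc 0 K, n = ∑ d ∈ Ioc 0 K, Nat.totient d * (K / d) := by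
    have h2 : ∀ n ∈ Ioc 0 K, n = ∑ d ∈ (Ioc 0 K).filter (fun d => d ∣ n), Nat.totient d := by
      intro n hn
      rw [mem_Ioc] at hn
      conv_lhs => rw [← Nat.sum_totient n]
      apply sum_congr _ (fun _ _ => rfl)
      ext d
      rw [Nat.mem_divisors, mem_filter, mem_Ioc]
      constructor
      · rintro ⟨hd, -⟩
        exact ⟨⟨Nat.pos_of_dvd_of_pos hd hn.1, (Nat.le_of_dvd hn.1 hd).trans hn.2⟩, hd⟩
      · rintro ⟨-, hd⟩
        exact ⟨hd, by omega⟩
    rw [sum_congr rfl h2]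
    simp_rw [sum_filter]
    rw [sum_comm]
    apply sum_congr rfl
    intro d _
    rw [← sum_filter, sum_const, smul_eq_mul, Nat.Ioc_filter_dvd_card_eq_div, mul_comm]
  have h3 : 2 * ∑ n ∈ Ioc 0 K, n = K * (K + 1) := by
    clear h1
    induction K with
    | zero => simp
    | succ K ih =>
      rw [Finset.sum_Ioc_succ_top (Nat.zero_le K), mul_add, ih]
      ring
  have h4 : ∀ d ∈ Ioc 0 K, 4 * (Nat.totient d * (K / d)) ≤ 12 * Nat.totient d + (if 4 * d ≤ K then 4 * K else 0) := by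
    intro d hd
    rw [mem_Ioc] at hd
    split_ifs with h
    · have h5 : Nat.totient d * (K / d) ≤ K := by
        calc Nat.totient d * (K / d) ≤ d * (K / d) := Nat.mul_le_mul_right _ (Nat.totient_le d)
          _ ≤ K := Nat.mul_div_le K d
      omega
    · have h5 : K / d ≤ 3 := by
        have : K / d < 4 := by
          rw [Nat.div_lt_iff_lt_mul hd.1]
          omega
        omega
      calc 4 * (Nat.totient d * (K / d)) ≤ 4 * (Nat.totient d * 3) := by gcongr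
        _ = 12 * Nat.totient d + 0 := by ring
  have h6 : 4 * ∑ d ∈ Ioc 0 K, Nat.totient d * (K / d) ≤
      12 * ∑ d ∈ Ioc 0 K, Nat.totient d + K * K := by
    rw [mul_sum, mul_sum]
    calc ∑ d ∈ Ioc 0 K, 4 * (Nat.totient d * (K / d))
        ≤ ∑ d ∈ Ioc 0 K, (12 * Nat.totient d + (if 4 * d ≤ K then 4 * K else 0)) := sum_le_sum h4
      _ = ∑ d ∈ Ioc 0 K, 12 * Nat.totient d + ∑ d ∈ Ioc 0 K, (if 4 * d ≤ K then 4 * K else 0) := sum_add_distrib
      _ ≤ ∑ d ∈ Ioc 0 K, 12 * Nat.totient d + K * K := by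
          apply Nat.add_le_add_left
          rw [← sum_filter, sum_const, smul_eq_mul]
          have h7 : ((Ioc 0 K).filter (fun d => 4 * d ≤ K)).card ≤ K / 4 := by
            have h8 : (Ioc 0 K).filter (fun d => 4 * d ≤ K) ⊆ Ioc 0 (K / 4) := by
              intro d hd
              rw [mem_filter, mem_Ioc] at hd
              rw [mem_Ioc]
              omega
            calc _ ≤ (Ioc 0 (K / 4)).card := card_le_card h8
              _ = K / 4 := by simp
          calc _ ≤ (K / 4) * (4 * K) := Nat.mul_le_mul_right _ h7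
            _ = (4 * (K / 4)) * K := by ring
            _ ≤ K * K := Nat.mul_le_mul_right _ (Nat.mul_div_le K 4)
  rw [← h1] at h6
  nlinarith

private theorem ep_ex (a b : ℕ) (ha : 0 < a) (h : a.Coprime b) :
    ∃ c : ℕ, a ≤ c ∧ c < a + a ∧ a ∣ b * c + 1 := by
  have : NeZero a := ⟨by omega⟩
  refine ⟨a + (-((b : ZMod a)⁻¹)).val, by omega, ?_, ?_⟩
  · have := ZMod.val_lt (-((b : ZMod a)⁻¹))
    omega
  · rw [← ZMod.natCast_eq_zero_iff]
    push_cast
    rw [ZMod.natCast_self, ZMod.natCast_zmod_val, zero_add, mul_neg, ZMod.coe_mul_inv_eq_one b h.symm]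
    ring

open Classical in
/-- PROOF. Let `K = ⌊sqrt (x / 3)⌋`. For coprime `a, b` with `K / 2 < a ≤ K`, `K / 2 < b ≤ K` there is exactly one `c` with `a ≤ c < 2 a` and `b c ≡ -1 mod a` (`b` is invertible modulo `a`); put `d = (b c + 1) / a ≥ 1`. Then `a d = b c + 1`, `c` and `d` are coprime, `wS = log (c / a) ∈ [0, log 2)`,
`pS = log (b / a) ∈ (- log 2, log 2) ⊆ [-1, 1)`, `yS = b c < 2 a b ≤ 2 K^2 ≤ x`. So the number in question is at least the number of coprime pairs `(a, b)` in `(K/2, K]^2` (injectivity: `(a, b)` is part of the matrix). The number of all pairs is at least `(K/2 - 1)^2`... more precisely `⌈K/2⌉^2 ≥ K^2/4`, and the number of pairs with a common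
prime divisor is at most `∑_(p ≤ K, p prime) (K/(2p) + 1)^2 ≤ (K^2/4) ∑_(2 ≤ m) 1/m^2 + K ∑_(2 ≤ m ≤ K) 1/m + K ≤ (K^2/4)(3/4) + K (log K + 2)`, (`∑_(m ≥ 2) 1/m^2 ≤ 1/4 + ∑_(m ≥ 3) 1/(m (m-1)) = 1/4 + 1/2`). So at least `K^2/16 - K (log K + 2) ≥ K^2/20` coprime pairs for large `K`, and `K^2 ≥ x/4` for large `x`: `c = 1/80`. -/
theorem eqPos : ∃ c : ℝ, 0 < c ∧ ∀ᶠ x : ℝ in atTop,
    c * x ≤ (((SN 1 x).filter (fun e => (-1 ≤ pS e ∧ pS e < 1) ∧ (0 ≤ wS e ∧ wS e < 1))).card : ℝ) := by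
  have hex : ∀ z : ℕ × ℕ, ∃ e : Q4, 0 < z.1 → z.1.Coprime z.2 → z.1 ≤ z.2 → z.2 < z.1 + z.1 →
      e.a = z.1 ∧ e.b = z.2 ∧ Sn 1 e ∧ e.a ≤ e.c ∧ e.c < e.a + e.a := by
    rintro ⟨a, b⟩
    by_cases h : 0 < a ∧ a.Coprime b ∧ a ≤ b
    · obtain ⟨ha, hab, hle⟩ := h
      obtain ⟨c, hc1, hc2, d, hd⟩ := ep_ex a b ha hab
      refine ⟨⟨a, b, c, d⟩, fun _ _ _ _ => ⟨rfl, rfl, ⟨hd.symm, ha, lt_of_lt_of_le ha hle, lt_of_lt_of_le ha hc1, ?_, hab, ?_⟩, hc1, hc2⟩⟩
      · rcases Nat.eq_zero_or_pos d with h0 | h0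
        · rw [h0, mul_zero] at hd
          omega
        · exact h0
      · show c.Coprime d
        rw [Nat.coprime_iff_gcd_eq_one]
        apply Nat.dvd_one.1
        have h1 : c.gcd d ∣ a * d := (Nat.gcd_dvd_right c d).mul_left a
        have h2 : c.gcd d ∣ b * c := (Nat.gcd_dvd_left c d).mul_left b
        rw [← hd] at h1
        exact (Nat.dvd_add_right h2).1 h1
    · refine ⟨⟨0, 0, 0, 0⟩, fun h1 h2 h3 _ => absurd ⟨h1, h2, h3⟩ h⟩
  choose f hf using hex
  refine ⟨1 / 192, by norm_num, ?_⟩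
  filter_upwards [eventually_ge_atTop (16 : ℝ)] with x hx
  set K : ℕ := ⌊Real.sqrt x / 2⌋₊ with hK
  have hs4 : 4 ≤ Real.sqrt x := by
    have : Real.sqrt 16 = 4 := by
      rw [show (16:ℝ) = 4 ^ 2 by norm_num]
      exact Real.sqrt_sq (by norm_num)
    rw [← this]
    exact Real.sqrt_le_sqrt hx
  have hsq : Real.sqrt x * Real.sqrt x = x := Real.mul_self_sqrt (by linarith)
  have hK1 : (K : ℝ) ≤ Real.sqrt x / 2 := Nat.floor_le (by positivity)
  have hK2 : Real.sqrt x / 2 < K + 1 := Nat.lt_floor_add_one _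
  have hK3 : Real.sqrt x / 4 ≤ K := by linarith
  have hK4 : x / 16 ≤ (K : ℝ) * K := by nlinarith
  have hK5 : 4 * ((K : ℝ) * K) ≤ x := by nlinarith [Nat.cast_nonneg (α := ℝ) K]
  set S : Finset ((_ : ℕ) × ℕ) := (Ioc 0 K).sigma (fun a => (Ico a (a + a)).filter (fun b => a.Coprime b)) with hS
  have hcard : S.card = ∑ d ∈ Ioc 0 K, Nat.totient d := by
    rw [hS, card_sigma]
    exact sum_congr rfl (fun a _ => Nat.filter_coprime_Ico_eq_totient a a)
  have hle : S.card ≤ ((SN 1 x).filter (fun e => (-1 ≤ pS e ∧ pS e < 1) ∧ (0 ≤ wS e ∧ wS e < 1))).card := by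
    apply card_le_card_of_injOn (fun z => f (z.1, z.2))
    · intro z hz
      rw [mem_coe, hS, mem_sigma, mem_filter, mem_Ioc, mem_Ico] at hz
      obtain ⟨⟨h1, h2⟩, ⟨h3, h4⟩, h5⟩ := hz
      obtain ⟨e1, e2, e3, e4, e5⟩ := hf (z.1, z.2) h1 h5 h3 h4
      simp only at e1 e2
      rw [mem_coe, mem_filter, mem_SN]
      have hapos : (0:ℝ) < z.1 := by exact_mod_cast h1
      have hbpos : (0:ℝ) < z.2 := by exact_mod_cast (by omega : 0 < z.2)
      have hcpos : (0:ℝ) < (f (z.1, z.2)).c := by exact_mod_cast e3.2.2.2.1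
      have hlog2 : Real.log 2 < 1 := by linarith [Real.log_two_lt_d9]
      have hb2 : (z.2 : ℝ) < 2 * z.1 := by
        have : z.2 < 2 * z.1 := by omega
        exact_mod_cast this
      have hc2 : ((f (z.1, z.2)).c : ℝ) < 2 * z.1 := by
        have : (f (z.1, z.2)).c < 2 * z.1 := by omega
        exact_mod_cast this
      have hb1 : (z.1 : ℝ) ≤ z.2 := by exact_mod_cast h3
      have hc1 : (z.1 : ℝ) ≤ (f (z.1, z.2)).c := by
        have : z.1 ≤ (f (z.1, z.2)).c := by omega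
        exact_mod_cast this
      have haK : (z.1 : ℝ) ≤ K := by exact_mod_cast h2
      have hup : ∀ y : ℝ, 0 < y → y < 2 * z.1 → Real.log y - Real.log z.1 < 1 := by
        intro y hy hy2
        have : Real.log y < Real.log (2 * z.1) := Real.log_lt_log hy hy2
        rw [Real.log_mul (by norm_num) hapos.ne'] at this
        linarith
      have hlo : ∀ y : ℝ, (z.1 : ℝ) ≤ y → 0 ≤ Real.log y - Real.log z.1 := by
        intro y hy
        have := Real.log_le_log hapos hy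
        linarith
      refine ⟨⟨e3, ?_⟩, ⟨?_, ?_⟩, ?_, ?_⟩
      · unfold yS
        rw [e2]
        calc (z.2 : ℝ) * (f (z.1, z.2)).c ≤ (2 * z.1) * (2 * z.1) := by
              apply mul_le_mul hb2.le hc2.le hcpos.le (by positivity)
          _ ≤ (2 * K) * (2 * K) := by gcongr
          _ ≤ x := by linarith
      · unfold pS
        rw [e1, e2]
        linarith [hlo _ hb1]
      · unfold pS
        rw [e1, e2]
        exact hup _ hbpos hb2
      · unfold wS
        rw [e1]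
        exact hlo _ hc1
      · unfold wS
        rw [e1]
        exact hup _ hcpos hc2
    · intro z hz w hw hzw
      rw [mem_coe, hS, mem_sigma, mem_filter, mem_Ioc, mem_Ico] at hz hw
      obtain ⟨⟨h1, h2⟩, ⟨h3, h4⟩, h5⟩ := hz
      obtain ⟨⟨h1', h2'⟩, ⟨h3', h4'⟩, h5'⟩ := hw
      obtain ⟨e1, e2, -⟩ := hf (z.1, z.2) h1 h5 h3 h4
      obtain ⟨e1', e2', -⟩ := hf (w.1, w.2) h1' h5' h3' h4'
      simp only at hzw e1 e2 e1' e2'
      rw [hzw] at e1 e2
      obtain ⟨z1, z2⟩ := z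
      obtain ⟨w1, w2⟩ := w
      simp only at e1 e2 e1' e2'
      have q1 : z1 = w1 := by rw [← e1, e1']
      have q2 : z2 = w2 := by rw [← e2, e2']
      rw [q1, q2]
  have htot := ep_tot K
  have h12 : (K : ℝ) * K ≤ 12 * (S.card : ℝ) := by
    rw [hcard]
    exact_mod_cast htot
  have hle' : (S.card : ℝ) ≤ (((SN 1 x).filter (fun e => (-1 ≤ pS e ∧ pS e < 1) ∧ (0 ≤ wS e ∧ wS e < 1))).card : ℝ) := by
    exact_mod_cast hle
  linarith

end Pool.Agent.Spl

end

/-! ### from `Lib_MP_92ef0c_sp.EqSA` -/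

section

/-!
# Arcs, cones and directions
-/

set_option autoImplicit false

namespace Pool.Agent.Spl.EqsAux

open Finset Pool.Agent.GaussMR Pool.Agent.OmAll Pool.Agent.OmEq Filter MeasureTheory

/-- positive coordinates -/
def Pos (z : G) : Prop := 0 < z.re ∧ 0 < z.im

theorem dl_eq {z : G} (hz : Pos z) : dl z = Real.log ((z.im : ℝ) / z.re) := by
  have h1 : (0 : ℝ) < z.re := by exact_mod_cast hz.1
  have h2 : (0 : ℝ) < z.im := by exact_mod_cast hz.2
  unfold dl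
  rw [Real.log_div h2.ne' h1.ne']

theorem dl_le {z w : G} (hz : Pos z) (hw : Pos w) : dl z ≤ dl w ↔ 0 ≤ det z w := by
  have h1 : (0 : ℝ) < z.re := by exact_mod_cast hz.1
  have h2 : (0 : ℝ) < z.im := by exact_mod_cast hz.2
  have h3 : (0 : ℝ) < w.re := by exact_mod_cast hw.1
  have h4 : (0 : ℝ) < w.im := by exact_mod_cast hw.2
  rw [dl_eq hz, dl_eq hw, Real.log_le_log_iff (by positivity) (by positivity), div_le_div_iff₀ h1 h3]
  unfold det
  rw [sub_nonneg, mul_comm z.re w.im]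
  exact_mod_cast Iff.rfl

theorem dl_lt {z w : G} (hz : Pos z) (hw : Pos w) : dl z < dl w ↔ 0 < det z w := by
  rw [← not_le, dl_le hw hz, not_le]
  unfold det
  constructor <;> intro h <;> nlinarith

theorem z_re (n : ℤ) (u v : G) : ((n : G) * u + v).re = n * u.re + v.re := by simp

theorem z_im (n : ℤ) (u v : G) : ((n : G) * u + v).im = n * u.im + v.im := by simp

theorem ab_re (α β : ℤ) (u v : G) : ((α : G) * u + (β : G) * v).re = α * u.re + β * v.re := by simp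

theorem ab_im (α β : ℤ) (u v : G) : ((α : G) * u + (β : G) * v).im = α * u.im + β * v.im := by simp

theorem det_cases {u v : G} (h : Fr u v) : det u v = 1 ∨ det u v = -1 := by
  have h1 := h.1
  rcases abs_cases (det u v) with ⟨h2, _⟩ | ⟨h2, _⟩
  · left; omega
  · right; omega

/-- the vectors `n u + v`, `n ≥ 1`, of a frame have positive coordinates -/
theorem pos_z {u v : G} (h : Fr u v) {n : ℤ} (hn : 1 ≤ n) : Pos ((n : G) * u + v) := by
  obtain ⟨h1, h2, h3, h4, h5⟩ := h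
  unfold Pos
  rw [z_re, z_im]
  unfold det at h1
  constructor
  · by_contra hc
    rw [not_lt] at hc
    have a1 : u.re = 0 := by nlinarith
    have a2 : v.re = 0 := by nlinarith
    rw [a1, a2] at h1
    simp at h1
  · by_contra hc
    rw [not_lt] at hc
    have a1 : u.im = 0 := by nlinarith
    have a2 : v.im = 0 := by nlinarith
    rw [a1, a2] at h1
    simp at h1

theorem det_z0 (n α β : ℤ) (u v : G) :
    det ((n : G) * u + v) ((α : G) * u + (β : G) * v) = (n * β - α) * det u v := by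
  unfold det
  rw [ab_re, ab_im, z_re, z_im]
  ring

theorem det_z1 (n α β : ℤ) (u v : G) :
    det ((α : G) * u + (β : G) * v) ((n : G) * u + v) = (α - n * β) * det u v := by
  unfold det
  rw [ab_re, ab_im, z_re, z_im]
  ring

/-- directions of the vectors of an arc -/
theorem arc_dl {u v : G} (h : Fr u v) {S M : ℕ} (hS : 2 ≤ S) {V : G} (hV : Pos V) (hVa : V ∈ arc u v S M) :
    dl V ∈ Set.uIcc (dl (((S : ℤ) : G) * u + v)) (dl ((((S : ℤ) + M : ℤ) : G) * u + v)) := by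
  obtain ⟨α, β, rfl, h1, h2, h3⟩ := hVa
  have p0 : Pos (((S : ℤ) : G) * u + v) := pos_z h (by omega)
  have p1 : Pos ((((S : ℤ) + M : ℤ) : G) * u + v) := pos_z h (by omega)
  rw [Set.mem_uIcc, dl_le p0 hV, dl_le hV p1, dl_le p1 hV, dl_le hV p0, det_z0, det_z1, det_z0, det_z1]
  rcases det_cases h with h4 | h4 <;> rw [h4]
  · right
    constructor <;> linarith
  · left
    constructor <;> linarith

/-- vectors with a direction inside -/
theorem mem_arc_of {u v : G} (h : Fr u v) {S M : ℕ} (hS : 2 ≤ S) {V : G} (hV : Pos V)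
    (h0 : dl (((S : ℤ) : G) * u + v) < dl V ∧ dl V < dl ((((S : ℤ) + M : ℤ) : G) * u + v) ∨
      dl ((((S : ℤ) + M : ℤ) : G) * u + v) < dl V ∧ dl V < dl (((S : ℤ) : G) * u + v)) : V ∈ arc u v S M := by
  have p0 : Pos (((S : ℤ) : G) * u + v) := pos_z h (by omega)
  have p1 : Pos ((((S : ℤ) + M : ℤ) : G) * u + v) := pos_z h (by omega)
  rw [dl_lt p0 hV, dl_lt hV p1, dl_lt p1 hV, dl_lt hV p0] at h0
  have hd : det u v * det u v = 1 := by
    rcases det_cases h with h4 | h4 <;> rw [h4] <;> norm_num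
  have hVeq : V = ((det V v * det u v : ℤ) : G) * u + ((det u V * det u v : ℤ) : G) * v := by
    have e1 : V.re * (det u v * det u v) = det V v * det u v * u.re + det u V * det u v * v.re := by
      unfold det; ring
    have e2 : V.im * (det u v * det u v) = det V v * det u v * u.im + det u V * det u v * v.im := by
      unfold det; ring
    rw [hd, mul_one] at e1 e2
    apply Zsqrtd.ext
    · rw [ab_re]; exact e1
    · rw [ab_im]; exact e2
  generalize det V v * det u v = α at hVeq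
  generalize det u V * det u v = β at hVeq
  rw [hVeq] at h0
  rw [det_z0, det_z1, det_z0, det_z1] at h0
  refine ⟨α, β, hVeq, ?_⟩
  have hM : (0 : ℤ) ≤ M := by positivity
  have hS' : (2 : ℤ) ≤ S := by exact_mod_cast hS
  have hA : (S : ℤ) * β < α ∧ α < ((S : ℤ) + M) * β → 0 < β ∧ (S : ℤ) * β ≤ α ∧ α < ((S : ℤ) + M) * β := by
    rintro ⟨a1, a2⟩
    refine ⟨?_, a1.le, a2⟩
    by_contra hc
    rw [not_lt] at hc
    nlinarith
  have hB : ((S : ℤ) + M) * β < α ∧ α < (S : ℤ) * β → False := by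
    rintro ⟨a1, a2⟩
    have hβ : β < 0 := by
      by_contra hc
      rw [not_lt] at hc
      nlinarith
    have hα : α < 0 := by nlinarith
    have h5 := hV.1
    rw [hVeq, ab_re] at h5
    have h6 := h.2.1
    have h7 := h.2.2.2.1
    nlinarith
  rcases det_cases h with h4 | h4 <;> rw [h4] at h0
  · rcases h0 with h0 | h0
    · exact (hB ⟨by linarith [h0.2], by linarith [h0.1]⟩).elim
    · exact hA ⟨by linarith [h0.2], by linarith [h0.1]⟩
  · rcases h0 with h0 | h0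
    · exact hA ⟨by linarith [h0.1], by linarith [h0.2]⟩
    · exact (hB ⟨by linarith [h0.1], by linarith [h0.2]⟩).elim

/-- rational directions are dense -/
theorem dl_dense (a b : ℝ) (hab : a < b) : ∃ V : G, Pos V ∧ a < dl V ∧ dl V < b := by
  obtain ⟨q, h1, h2⟩ := exists_rat_btwn (Real.exp_lt_exp.2 hab)
  have hq : (0 : ℝ) < q := (Real.exp_pos a).trans h1
  have hq' : 0 < q := by exact_mod_cast hq
  have hp : Pos (⟨(q.den : ℤ), q.num⟩ : G) := ⟨(by show (0 : ℤ) < (q.den : ℤ); exact_mod_cast q.den_pos), Rat.num_pos.2 hq'⟩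
  refine ⟨⟨(q.den : ℤ), q.num⟩, hp, ?_⟩
  rw [dl_eq hp]
  have h3 : ((q.num : ℤ) : ℝ) / ((q.den : ℤ) : ℝ) = (q : ℝ) := by
    rw [Int.cast_natCast]
    exact (Rat.cast_def q).symm
  show a < Real.log (((q.num : ℤ) : ℝ) / ((q.den : ℤ) : ℝ)) ∧ Real.log (((q.num : ℤ) : ℝ) / ((q.den : ℤ) : ℝ)) < b
  rw [h3]
  exact ⟨(Real.lt_log_iff_exp_lt hq).2 h1, (Real.log_lt_iff_lt_exp hq).2 h2⟩

/-- the length of the interval of an arc -/
noncomputable def lam (M : ℕ) (a : G × G × ℕ) : ℝ :=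
  |dl ((((a.2.2 : ℤ) + M : ℤ) : G) * a.1 + a.2.1) - dl (((a.2.2 : ℤ) : G) * a.1 + a.2.1)|

theorem lam_le {u v : G} (h : Fr u v) {S M : ℕ} (hS : 2 ≤ S) : lam M (u, v, S) ≤ M / S := by
  have p0 : Pos (((S : ℤ) : G) * u + v) := pos_z h (by omega)
  have p1 : Pos ((((S : ℤ) + M : ℤ) : G) * u + v) := pos_z h (by omega)
  have hS' : (0 : ℝ) < S := by exact_mod_cast (by omega : 0 < S)
  unfold lam
  simp only
  -- `z1 = z0 + M u`, determinant `± M`
  set z0 := (((S : ℤ) : G) * u + v) with hz0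
  set z1 := ((((S : ℤ) + M : ℤ) : G) * u + v) with hz1
  have hdet : |(z1.im * z0.re - z1.re * z0.im : ℤ)| = M := by
    have h1 : z1.im * z0.re - z1.re * z0.im = -(M * det u v) := by
      rw [hz0, hz1, z_re, z_re, z_im, z_im]
      unfold det
      ring
    rw [h1, abs_neg, abs_mul, h.1, mul_one]
    exact abs_of_nonneg (by positivity)
  have hge : (S : ℤ) ≤ z0.re * z0.im := by
    have hS2 : (2 : ℤ) ≤ S := by exact_mod_cast hS
    have a1 := p0.1
    have a2 := p0.2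
    obtain ⟨h1, h2, h3, h4, h5⟩ := h
    have hu : 1 ≤ u.re ∨ 1 ≤ u.im := by
      by_contra hc
      push Not at hc
      have b1 : u.re = 0 := by omega
      have b2 : u.im = 0 := by omega
      unfold det at h1
      rw [b1, b2] at h1
      simp at h1
    rw [hz0, z_re] at a1 ⊢
    rw [hz0, z_im] at a2
    rw [z_im]
    rcases hu with hu | hu
    · nlinarith
    · nlinarith
  have hr0 : (0 : ℝ) < z0.re := by exact_mod_cast p0.1
  have hi0 : (0 : ℝ) < z0.im := by exact_mod_cast p0.2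
  have hr1 : (z0.re : ℝ) ≤ z1.re := by
    have : z0.re ≤ z1.re := by
      rw [hz0, hz1, z_re, z_re]
      have := h.2.1
      have hM : (0 : ℤ) ≤ M := by positivity
      nlinarith
    exact_mod_cast this
  have hi1 : (z0.im : ℝ) ≤ z1.im := by
    have : z0.im ≤ z1.im := by
      rw [hz0, hz1, z_im, z_im]
      have := h.2.2.1
      have hM : (0 : ℤ) ≤ M := by positivity
      nlinarith
    exact_mod_cast this
  have hge' : (S : ℝ) ≤ z0.re * z0.im := by exact_mod_cast hge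
  have hdet' : |(z1.im : ℝ) * z0.re - z1.re * z0.im| = M := by exact_mod_cast hdet
  -- `|log X - log Y| ≤ |X - Y| / min`
  have hlog : ∀ X Y : ℝ, (S : ℝ) ≤ X → (S : ℝ) ≤ Y → Real.log X - Real.log Y ≤ |X - Y| / S := by
    intro X Y hX hY
    have hY0 : 0 < Y := by linarith
    have hX0 : 0 < X := by linarith
    rw [← Real.log_div hX0.ne' hY0.ne']
    refine (Real.log_le_sub_one_of_pos (by positivity)).trans ?_
    have h1 : X / Y - 1 = (X - Y) / Y := by field_simp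
    rw [h1]
    calc (X - Y) / Y ≤ |X - Y| / Y := by gcongr; exact le_abs_self _
      _ ≤ |X - Y| / S := by gcongr
  have hr1' : (0 : ℝ) < z1.re := by linarith
  have hi1' : (0 : ℝ) < z1.im := by linarith
  have e : dl z1 - dl z0 = Real.log ((z1.im : ℝ) * z0.re) - Real.log ((z1.re : ℝ) * z0.im) := by
    unfold dl
    rw [Real.log_mul hi1'.ne' hr0.ne', Real.log_mul hr1'.ne' hi0.ne']
    ring
  have hX : (S : ℝ) ≤ (z1.im : ℝ) * z0.re := by nlinarith
  have hY : (S : ℝ) ≤ (z1.re : ℝ) * z0.im := by nlinarith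
  rw [e, abs_le]
  constructor
  · have := hlog _ _ hY hX
    rw [abs_sub_comm, hdet'] at this
    linarith
  · have := hlog _ _ hX hY
    rw [hdet'] at this
    exact this

/-! ### cones -/

/-- the coordinate `im / (re + im)` of the direction `log (im / re) = τ` -/
noncomputable def sg (τ : ℝ) : ℝ := Real.exp τ / (1 + Real.exp τ)

/-- the coordinate of a vector -/
noncomputable def TT (z : G) : ℝ := (z.im : ℝ) / (ll z : ℝ)

theorem sg_cont : Continuous sg := by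
  unfold sg
  exact Real.continuous_exp.div (by fun_prop) (fun x => by positivity)

theorem sg_dl {V : G} (hV : Pos V) : sg (dl V) = TT V := by
  have h1 : (0 : ℝ) < V.re := by exact_mod_cast hV.1
  have h2 : (0 : ℝ) < V.im := by exact_mod_cast hV.2
  unfold sg TT ll
  rw [dl_eq hV, Real.exp_log (by positivity)]
  push_cast
  field_simp

theorem sg_lip {p1 p2 x y : ℝ} (hx1 : p1 ≤ x) (hx2 : x ≤ p2) (hy1 : p1 ≤ y) (hy2 : y ≤ p2) :
    |x - y| ≤ (1 + Real.exp p2) ^ 2 * Real.exp (-p1) * |sg x - sg y| := by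
  wlog hxy : y ≤ x generalizing x y
  · rw [abs_sub_comm, abs_sub_comm (sg x)]
    exact this hy1 hy2 hx1 hx2 (le_of_not_ge hxy)
  have h1 : sg x - sg y = (Real.exp x - Real.exp y) / ((1 + Real.exp x) * (1 + Real.exp y)) := by
    unfold sg
    field_simp
    ring
  have h2 : Real.exp y * (x - y) ≤ Real.exp x - Real.exp y := by
    have h3 := Real.add_one_le_exp (x - y)
    have h4 : Real.exp x = Real.exp y * Real.exp (x - y) := by rw [← Real.exp_add]; ring_nf
    rw [h4]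
    nlinarith [Real.exp_pos y]
  have h5 : Real.exp p1 * (x - y) ≤ Real.exp x - Real.exp y := by
    refine le_trans ?_ h2
    gcongr
  have h6 : (1 + Real.exp x) * (1 + Real.exp y) ≤ (1 + Real.exp p2) ^ 2 := by
    rw [sq]
    gcongr
  have h0 : 0 ≤ Real.exp x - Real.exp y := by
    have := Real.exp_le_exp.2 hxy
    linarith
  have h7 : Real.exp p1 * (x - y) / (1 + Real.exp p2) ^ 2 ≤ sg x - sg y := by
    rw [h1]
    gcongr
  rw [abs_of_nonneg (by linarith), abs_of_nonneg (by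
    refine le_trans ?_ h7
    have := Real.exp_pos p1
    positivity)]
  rw [div_le_iff₀ (by positivity)] at h7
  rw [Real.exp_neg]
  have h8 : x - y = (Real.exp p1 * (x - y)) * (Real.exp p1)⁻¹ := by
    field_simp
  rw [h8]
  calc (Real.exp p1 * (x - y)) * (Real.exp p1)⁻¹ ≤ ((sg x - sg y) * (1 + Real.exp p2) ^ 2) * (Real.exp p1)⁻¹ := by gcongr
    _ = _ := by ring

theorem ll_pos' {u v : G} (h : Fr u v) : 0 < ll u ∧ 0 < ll v := by
  obtain ⟨h1, h2, h3, h4, h5⟩ := h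
  unfold ll
  unfold det at h1
  constructor
  · by_contra hc
    have a1 : u.re = 0 := by omega
    have a2 : u.im = 0 := by omega
    rw [a1, a2] at h1
    simp at h1
  · by_contra hc
    have a1 : v.re = 0 := by omega
    have a2 : v.im = 0 := by omega
    rw [a1, a2] at h1
    simp at h1

theorem TT_sub {u v : G} (h : Fr u v) : |TT u - TT v| = 1 / ((ll u : ℝ) * ll v) := by
  obtain ⟨hu, hv⟩ := ll_pos' h
  have hu' : (0 : ℝ) < ll u := by exact_mod_cast hu
  have hv' : (0 : ℝ) < ll v := by exact_mod_cast hv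
  have h1 : TT u - TT v = -((det u v : ℤ) : ℝ) / ((ll u : ℝ) * ll v) := by
    unfold TT
    rw [div_sub_div _ _ hu'.ne' hv'.ne']
    congr 1
    unfold det ll
    push_cast
    ring
  rw [h1, abs_div, abs_of_pos (by positivity : (0 : ℝ) < (ll u : ℝ) * ll v), abs_neg]
  congr 1
  have := h.1
  exact_mod_cast this

/-- the set of directions of a cone -/
def Jc (u v : G) : Set ℝ := {τ | sg τ ∈ Set.uIcc (TT u) (TT v)}

theorem Jc_closed (u v : G) : IsClosed (Jc u v) := (isClosed_Icc).preimage sg_cont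

theorem mem_Jc {u v : G} (h : Fr u v) {V : G} (hV : Pos V) (hc : V ∈ cone u v) : dl V ∈ Jc u v := by
  obtain ⟨hu, hv⟩ := ll_pos' h
  have hu' : (0 : ℝ) < ll u := by exact_mod_cast hu
  have hv' : (0 : ℝ) < ll v := by exact_mod_cast hv
  show sg (dl V) ∈ Set.uIcc (TT u) (TT v)
  rw [sg_dl hV]
  obtain ⟨α, β, rfl, h1, h2⟩ := hc
  have hα : (0 : ℝ) ≤ α := by exact_mod_cast h1
  have hβ : (0 : ℝ) ≤ β := by exact_mod_cast h2
  have hl : (ll ((α : G) * u + (β : G) * v) : ℝ) = α * ll u + β * ll v := by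
    unfold ll
    rw [ab_re, ab_im]
    push_cast
    ring
  have hl0 : (0 : ℝ) < α * ll u + β * ll v := by
    rw [← hl]
    have := hV.1
    have := hV.2
    have h3 : 0 < ll ((α : G) * u + (β : G) * v) := by unfold ll; omega
    exact_mod_cast h3
  have hT : TT ((α : G) * u + (β : G) * v) = (α * ll u * TT u + β * ll v * TT v) / (α * ll u + β * ll v) := by
    unfold TT
    rw [hl, ab_im]
    congr 1
    push_cast
    field_simp
  have h5 : TT ((α : G) * u + (β : G) * v) = (α * ll u / (α * ll u + β * ll v)) * TT u + (β * ll v / (α * ll u + β * ll v)) * TT v := by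
    rw [hT]
    ring
  rw [h5]
  have ha : 0 ≤ (α : ℝ) * (ll u : ℝ) / (α * ll u + β * ll v) := by positivity
  have hb : 0 ≤ (β : ℝ) * (ll v : ℝ) / (α * ll u + β * ll v) := by positivity
  have hab : (α : ℝ) * (ll u : ℝ) / (α * ll u + β * ll v) + (β : ℝ) * (ll v : ℝ) / (α * ll u + β * ll v) = 1 := by
    rw [← add_div, div_self hl0.ne']
  generalize (α : ℝ) * (ll u : ℝ) / (α * ll u + β * ll v) = a at *
  generalize (β : ℝ) * (ll v : ℝ) / (α * ll u + β * ll v) = b at *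
  have hae : a = 1 - b := by linarith
  subst hae
  rw [Set.mem_uIcc]
  rcases le_total (TT u) (TT v) with hle | hle
  · left
    have e1 := mul_nonneg ha (sub_nonneg.2 hle)
    have e2 := mul_nonneg hb (sub_nonneg.2 hle)
    constructor <;> linarith
  · right
    have e1 := mul_nonneg ha (sub_nonneg.2 hle)
    have e2 := mul_nonneg hb (sub_nonneg.2 hle)
    constructor <;> linarith

theorem vol_Jc {u v : G} (h : Fr u v) (p1 p2 : ℝ) :
    volume (Jc u v ∩ Set.Icc p1 p2) ≤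
      ENNReal.ofReal ((1 + Real.exp p2) ^ 2 * Real.exp (-p1) * (1 / ((ll u : ℝ) * ll v))) := by
  refine (Real.volume_le_diam _).trans ?_
  refine Metric.ediam_le ?_
  rintro x ⟨hx, hx1, hx2⟩ y ⟨hy, hy1, hy2⟩
  rw [edist_dist, Real.dist_eq]
  apply ENNReal.ofReal_le_ofReal
  refine (sg_lip hx1 hx2 hy1 hy2).trans ?_
  rw [← TT_sub h]
  apply mul_le_mul_of_nonneg_left _ (by positivity)
  have hx' : sg x ∈ Set.uIcc (TT v) (TT u) := by
    rw [Set.uIcc_comm]
    exact hx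
  have hy' : sg y ∈ Set.uIcc (TT v) (TT u) := by
    rw [Set.uIcc_comm]
    exact hy
  exact Set.abs_sub_le_of_uIcc_subset_uIcc (Set.uIcc_subset_uIcc hy' hx')

/-! ### lengths -/

/-- the closed interval of an arc -/
noncomputable def Ia (M : ℕ) (a : G × G × ℕ) : Set ℝ :=
  Set.uIcc (dl (((a.2.2 : ℤ) : G) * a.1 + a.2.1)) (dl ((((a.2.2 : ℤ) + M : ℤ) : G) * a.1 + a.2.1))

/-- the open interval of an arc -/
noncomputable def Io (M : ℕ) (a : G × G × ℕ) : Set ℝ :=
  Set.uIoo (dl (((a.2.2 : ℤ) : G) * a.1 + a.2.1)) (dl ((((a.2.2 : ℤ) + M : ℤ) : G) * a.1 + a.2.1))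

theorem lam_nonneg (M : ℕ) (a : G × G × ℕ) : 0 ≤ lam M a := abs_nonneg _

theorem vol_Ia (M : ℕ) (a : G × G × ℕ) : volume (Ia M a) = ENNReal.ofReal (lam M a) := by
  unfold Ia lam
  show volume (Set.Icc (min _ _) (max _ _)) = _
  rw [Real.volume_Icc, max_sub_min_eq_abs]

theorem vol_Io (M : ℕ) (a : G × G × ℕ) : volume (Io M a) = ENNReal.ofReal (lam M a) := by
  unfold Io lam
  rw [Set.uIoo, Real.volume_Ioo, max_sub_min_eq_abs]

theorem dist_Ia {M : ℕ} {a : G × G × ℕ} {x y : ℝ} (hx : x ∈ Ia M a) (hy : y ∈ Ia M a) : |x - y| ≤ lam M a := by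
  unfold lam
  exact Set.abs_sub_le_of_uIcc_subset_uIcc (Set.uIcc_subset_uIcc hy hx)

theorem Io_disj {M : ℕ} {a a' : G × G × ℕ} (h : Fr a.1 a.2.1) (h' : Fr a'.1 a'.2.1) (hS : 2 ≤ a.2.2) (hS' : 2 ≤ a'.2.2)
    (hd : Disjoint (arc a.1 a.2.1 a.2.2 M) (arc a'.1 a'.2.1 a'.2.2 M)) : Disjoint (Io M a) (Io M a') := by
  rw [Set.disjoint_left]
  intro x hx hx'
  have h1 : IsOpen (Io M a ∩ Io M a') := isOpen_Ioo.inter isOpen_Ioo
  obtain ⟨l, r, ⟨h2, h3⟩, h4⟩ := mem_nhds_iff_exists_Ioo_subset.1 (h1.mem_nhds ⟨hx, hx'⟩)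
  obtain ⟨V, hV, h5, h6⟩ := dl_dense l r (h2.trans h3)
  obtain ⟨h7, h8⟩ := h4 ⟨h5, h6⟩
  have key : ∀ b : G × G × ℕ, Fr b.1 b.2.1 → 2 ≤ b.2.2 → dl V ∈ Io M b → V ∈ arc b.1 b.2.1 b.2.2 M := by
    intro b hb hSb hVb
    apply mem_arc_of hb hSb hV
    rcases le_total (dl (((b.2.2 : ℤ) : G) * b.1 + b.2.1)) (dl ((((b.2.2 : ℤ) + M : ℤ) : G) * b.1 + b.2.1)) with hle | hle
    · left
      unfold Io at hVb
      rwa [Set.uIoo_of_le hle] at hVb
    · right
      unfold Io at hVb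
      rwa [Set.uIoo_of_ge hle] at hVb
  exact Set.disjoint_left.1 hd (key a h hS h7) (key a' h' hS' h8)

open Classical in
/-- arcs meeting `[p1, p2]` -/
theorem sum_upper {M : ℕ} (A : Finset (G × G × ℕ)) (hA : ∀ a ∈ A, Fr a.1 a.2.1 ∧ 2 ≤ a.2.2)
    (hd : ∀ a ∈ A, ∀ a' ∈ A, a ≠ a' → Disjoint (arc a.1 a.2.1 a.2.2 M) (arc a'.1 a'.2.1 a'.2.2 M))
    {η : ℝ} (hη : 0 ≤ η) (hl : ∀ a ∈ A, lam M a ≤ η) {p1 p2 : ℝ} (hp : p1 ≤ p2) :
    ∑ a ∈ A.filter (fun a => (Ia M a ∩ Set.Icc p1 p2).Nonempty), lam M a ≤ p2 - p1 + 2 * η := by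
  set B := A.filter (fun a => (Ia M a ∩ Set.Icc p1 p2).Nonempty) with hB
  have h1 : volume (⋃ a ∈ B, Io M a) = ∑ a ∈ B, volume (Io M a) := by
    apply measure_biUnion_finset
    · intro a ha a' ha' hne
      obtain ⟨ha, -⟩ := mem_filter.1 ha
      obtain ⟨ha', -⟩ := mem_filter.1 ha'
      exact Io_disj (hA a ha).1 (hA a' ha').1 (hA a ha).2 (hA a' ha').2 (hd a ha a' ha' hne)
    · intro a _
      exact measurableSet_Ioo
  have h2 : (⋃ a ∈ B, Io M a) ⊆ Set.Icc (p1 - η) (p2 + η) := by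
    intro x hx
    simp only [Set.mem_iUnion] at hx
    obtain ⟨a, ha, hx⟩ := hx
    obtain ⟨ha, y, hy, hy1, hy2⟩ := mem_filter.1 ha
    have h3 : x ∈ Ia M a := Set.Ioo_subset_Icc_self hx
    have h4 := dist_Ia h3 hy
    have h5 := hl a ha
    rw [abs_le] at h4
    constructor <;> linarith [h4.1, h4.2]
  have h3 := measure_mono (μ := volume) h2
  rw [h1, Real.volume_Icc] at h3
  simp only [vol_Io] at h3
  rw [← ENNReal.ofReal_sum_of_nonneg (fun a _ => lam_nonneg M a)] at h3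
  rw [ENNReal.ofReal_le_ofReal_iff (by linarith)] at h3
  linarith

open Classical in
/-- arcs contained in `[p1, p2)` -/
theorem sum_lower {M : ℕ} (A : Finset (G × G × ℕ)) (L : Finset (G × G)) (hA : ∀ a ∈ A, Fr a.1 a.2.1 ∧ 2 ≤ a.2.2)
    (hL : ∀ l ∈ L, Fr l.1 l.2)
    (hcov : ∀ V : G, Pos V → (∃ a ∈ A, V ∈ arc a.1 a.2.1 a.2.2 M) ∨ ∃ l ∈ L, V ∈ cone l.1 l.2)
    {η : ℝ} (hη : 0 < η) (hl : ∀ a ∈ A, lam M a < η) {p1 p2 : ℝ} :
    p2 - p1 - 2 * η ≤ ∑ a ∈ A.filter (fun a => Ia M a ⊆ Set.Ico p1 p2), lam M a +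
      (1 + Real.exp p2) ^ 2 * Real.exp (-p1) * ∑ l ∈ L, (1 / ((ll l.1 : ℝ) * ll l.2)) := by
  set B := A.filter (fun a => Ia M a ⊆ Set.Ico p1 p2) with hB
  set C := (1 + Real.exp p2) ^ 2 * Real.exp (-p1) with hC
  have hC0 : 0 ≤ C := by positivity
  -- everything is covered
  have h1 : (⋃ a ∈ A, Ia M a) ∪ (⋃ l ∈ L, Jc l.1 l.2) = Set.univ := by
    have hcl : IsClosed ((⋃ a ∈ A, Ia M a) ∪ (⋃ l ∈ L, Jc l.1 l.2)) := by
      apply IsClosed.union
      · exact isClosed_biUnion_finset (fun a _ => isClosed_Icc)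
      · exact isClosed_biUnion_finset (fun l _ => Jc_closed _ _)
    rw [← hcl.closure_eq]
    apply Dense.closure_eq
    rw [dense_iff_inter_open]
    intro U hU ⟨x, hx⟩
    obtain ⟨l, r, ⟨h2, h3⟩, h4⟩ := mem_nhds_iff_exists_Ioo_subset.1 (hU.mem_nhds hx)
    obtain ⟨V, hV, h5, h6⟩ := dl_dense l r (h2.trans h3)
    refine ⟨dl V, h4 ⟨h5, h6⟩, ?_⟩
    rcases hcov V hV with ⟨a, ha, h7⟩ | ⟨c, hc, h7⟩
    · left
      simp only [Set.mem_iUnion]
      exact ⟨a, ha, arc_dl (hA a ha).1 (hA a ha).2 hV h7⟩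
    · right
      simp only [Set.mem_iUnion]
      exact ⟨c, hc, mem_Jc (hL c hc) hV h7⟩
  have h2 : Set.Icc (p1 + η) (p2 - η) ⊆ (⋃ a ∈ B, Ia M a) ∪ (⋃ l ∈ L, (Jc l.1 l.2 ∩ Set.Icc p1 p2)) := by
    intro x hx
    have hx' : x ∈ (⋃ a ∈ A, Ia M a) ∪ (⋃ l ∈ L, Jc l.1 l.2) := by rw [h1]; trivial
    rcases hx' with h | h
    · left
      simp only [Set.mem_iUnion] at h ⊢
      obtain ⟨a, ha, h⟩ := h
      refine ⟨a, mem_filter.2 ⟨ha, ?_⟩, h⟩
      intro y hy
      have h4 := dist_Ia h hy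
      have h5 := hl a ha
      rw [abs_le] at h4
      exact ⟨by linarith [h4.1, h4.2, hx.1, hx.2], by linarith [h4.1, h4.2, hx.1, hx.2]⟩
    · right
      simp only [Set.mem_iUnion] at h ⊢
      obtain ⟨l, hl', h⟩ := h
      exact ⟨l, hl', h, by linarith [hx.1], by linarith [hx.2]⟩
  have h3 := measure_mono (μ := volume) h2
  rw [Real.volume_Icc] at h3
  have h4 : volume ((⋃ a ∈ B, Ia M a) ∪ (⋃ l ∈ L, (Jc l.1 l.2 ∩ Set.Icc p1 p2))) ≤
      ENNReal.ofReal (∑ a ∈ B, lam M a + C * ∑ l ∈ L, (1 / ((ll l.1 : ℝ) * ll l.2))) := by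
    refine (measure_union_le _ _).trans ?_
    have hl0 : ∀ l ∈ L, 0 ≤ C * (1 / ((ll l.1 : ℝ) * ll l.2)) := by
      intro l hl'
      obtain ⟨hu, hv⟩ := ll_pos' (hL l hl')
      have hu' : (0 : ℝ) < ll l.1 := by exact_mod_cast hu
      have hv' : (0 : ℝ) < ll l.2 := by exact_mod_cast hv
      positivity
    rw [Finset.mul_sum, ENNReal.ofReal_add (Finset.sum_nonneg fun a _ => lam_nonneg M a) (Finset.sum_nonneg hl0),
      ENNReal.ofReal_sum_of_nonneg (fun a _ => lam_nonneg M a), ENNReal.ofReal_sum_of_nonneg hl0]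
    refine add_le_add ?_ ?_
    · refine (measure_biUnion_finset_le _ _).trans (Finset.sum_le_sum fun a _ => ?_)
      rw [vol_Ia]
    · refine (measure_biUnion_finset_le _ _).trans (Finset.sum_le_sum fun l hl' => ?_)
      exact vol_Jc (hL l hl') p1 p2
  have h5 := h3.trans h4
  have h6 : 0 ≤ ∑ a ∈ B, lam M a + C * ∑ l ∈ L, (1 / ((ll l.1 : ℝ) * ll l.2)) := by
    apply add_nonneg (Finset.sum_nonneg fun a _ => lam_nonneg M a)
    apply mul_nonneg hC0
    apply Finset.sum_nonneg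
    intro l hl'
    obtain ⟨hu, hv⟩ := ll_pos' (hL l hl')
    have hu' : (0 : ℝ) < ll l.1 := by exact_mod_cast hu
    have hv' : (0 : ℝ) < ll l.2 := by exact_mod_cast hv
    positivity
  rw [ENNReal.ofReal_le_ofReal_iff h6] at h5
  linarith

end Pool.Agent.Spl.EqsAux

end

/-! ### from `Lib_MP_92ef0c_sp.EqArcL` -/

section

/-!
# Edges of the Farey graph in sectors, lower
-/

set_option autoImplicit false

namespace Pool.Agent.Spl

open Finset Pool.Agent.GaussMR Pool.Agent.OmAll Pool.Agent.OmEq Filter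

namespace EqArc

theorem psi2 {a b R I K : ℝ} (ha : 0 < a) (hb : 0 < b) (hR : 0 < R) (hI : 0 < I)
    (h1 : a * I ≤ K * R * b) (h2 : b * R ≤ K * I * a) :
    (a ^ 2 + b ^ 2) * (R * I) ≤ K * (R ^ 2 + I ^ 2) * (a * b) ∧
    (R ^ 2 + I ^ 2) * (a * b) ≤ K * (a ^ 2 + b ^ 2) * (R * I) := by
  have e1 := mul_le_mul_of_nonneg_left h1 (by positivity : 0 ≤ a * R)
  have e2 := mul_le_mul_of_nonneg_left h2 (by positivity : 0 ≤ b * I)
  have e3 := mul_le_mul_of_nonneg_left h2 (by positivity : 0 ≤ a * R)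
  have e4 := mul_le_mul_of_nonneg_left h1 (by positivity : 0 ≤ b * I)
  constructor
  · linarith
  · linarith

/-- from edges to matrices -/
theorem lo_edge {a b c d : ℤ} (ha : 0 < a) (hb : 0 < b) (hd : a * d - b * c = 1) {R I K w1 w2 δ B x : ℝ}
    (hR : 0 < R) (hI : 0 < I) (hδ : 0 < δ)
    (h1 : (a : ℝ) * I ≤ K * R * b) (h2 : (b : ℝ) * R ≤ K * I * a)
    (hD : 0 < a * c + b * d) (hx : K * ((a * c + b * d : ℤ) : ℝ) * (R * I) ≤ x * (R ^ 2 + I ^ 2))
    (hw1 : Real.exp (2 * w1 + δ) * ((a : ℝ) ^ 2 + b ^ 2) ≤ (c : ℝ) ^ 2 + d ^ 2)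
    (hw2 : (c : ℝ) ^ 2 + d ^ 2 < Real.exp (2 * w2) * ((a : ℝ) ^ 2 + b ^ 2))
    (hB1 : 1 < Real.exp (2 * w1 + δ) * B) (hB : 3 * (K * I) ≤ δ * Real.exp w1 * R * B)
    (hBN : B ≤ (a : ℝ) ^ 2 + b ^ 2) :
    0 < c ∧ 0 < d ∧ Real.exp w1 * a ≤ c ∧ (c : ℝ) < Real.exp w2 * a ∧ (b : ℝ) * c ≤ x := by
  have E1 : a ^ 2 * (c ^ 2 + d ^ 2) = c ^ 2 * (a ^ 2 + b ^ 2) + 2 * b * c + 1 := by
    linear_combination (a * d + b * c + 1) * hd
  have E2 : a * (a * c + b * d) = c * (a ^ 2 + b ^ 2) + b := by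
    linear_combination b * hd
  have har : (1 : ℝ) ≤ a := by exact_mod_cast ha
  have hbr : (1 : ℝ) ≤ b := by exact_mod_cast hb
  have har0 : (0 : ℝ) < a := by linarith
  have hbr0 : (0 : ℝ) < b := by linarith
  have hN : (0 : ℝ) < (a : ℝ) ^ 2 + b ^ 2 := by positivity
  have hc : 0 < c := by
    by_contra hc
    have e1 : 0 < c * (a ^ 2 + b ^ 2) + b := by rw [← E2]; exact mul_pos ha hD
    have e2 : c = 0 := by
      by_contra h0
      have e3 : c ≤ -1 := by omega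
      have e4 : c * (a ^ 2 + b ^ 2) ≤ (-1) * (a ^ 2 + b ^ 2) := mul_le_mul_of_nonneg_right e3 (by positivity)
      nlinarith
    subst e2
    have e3 : a * d = 1 := by linarith
    have e4 : d = 1 := by
      have := Int.isUnit_iff.1 (IsUnit.of_mul_eq_one a (by rw [mul_comm]; exact e3))
      rcases this with h | h
      · exact h
      · rw [h] at e3; omega
    subst e4
    have e5 : Real.exp (2 * w1 + δ) * B ≤ 1 := by
      refine (mul_le_mul_of_nonneg_left hBN (Real.exp_pos _).le).trans ?_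
      refine hw1.trans ?_
      norm_num
    linarith
  have hcr : (1 : ℝ) ≤ c := by exact_mod_cast hc
  have hcr0 : (0 : ℝ) < c := by linarith
  have hdp : 0 < d := by
    have : 0 < a * d := by
      have : 0 < b * c := mul_pos hb hc
      linarith
    exact (mul_pos_iff_of_pos_left ha).1 this
  have E1r : (a : ℝ) ^ 2 * ((c : ℝ) ^ 2 + d ^ 2) = (c : ℝ) ^ 2 * ((a : ℝ) ^ 2 + b ^ 2) + 2 * b * c + 1 := by
    exact_mod_cast E1
  have E2r : (a : ℝ) * ((a * c + b * d : ℤ) : ℝ) = (c : ℝ) * ((a : ℝ) ^ 2 + b ^ 2) + b := by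
    exact_mod_cast E2
  have x1 : Real.exp (2 * w1) = Real.exp w1 ^ 2 := by rw [sq, ← Real.exp_add]; ring_nf
  have x2 : Real.exp (2 * w2) = Real.exp w2 ^ 2 := by rw [sq, ← Real.exp_add]; ring_nf
  have hw1p := Real.exp_pos w1
  have hw2p := Real.exp_pos w2
  have ha2 : (0 : ℝ) < (a : ℝ) ^ 2 := by positivity
  have hbc : (1 : ℝ) ≤ b * c := by nlinarith
  obtain ⟨-, p2⟩ := psi2 har0 hbr0 hR hI h1 h2
  have hK : 0 < K := by
    by_contra hk
    have : K * R * b ≤ 0 := by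
      have : K * (R * b) ≤ 0 := mul_nonpos_of_nonpos_of_nonneg (by linarith) (by positivity)
      linarith
    have : 0 < (a : ℝ) * I := by positivity
    linarith
  refine ⟨hc, hdp, ?_, ?_, ?_⟩
  · by_contra hlt
    push Not at hlt
    have y1 : Real.exp w1 ^ 2 * (1 + δ) ≤ Real.exp (2 * w1 + δ) := by
      rw [Real.exp_add, x1]
      apply mul_le_mul_of_nonneg_left _ (by positivity)
      linarith [Real.add_one_le_exp δ]
    have y2 : 3 * (b : ℝ) ≤ δ * Real.exp w1 * a * ((a : ℝ) ^ 2 + b ^ 2) := by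
      have y3 : 3 * ((b : ℝ) * R) ≤ 3 * (K * I * a) := by linarith
      have y4 : 3 * (K * I) * a ≤ δ * Real.exp w1 * R * B * a := mul_le_mul_of_nonneg_right hB har0.le
      have y5 : δ * Real.exp w1 * R * a * B ≤ δ * Real.exp w1 * R * a * ((a : ℝ) ^ 2 + b ^ 2) :=
        mul_le_mul_of_nonneg_left hBN (by positivity)
      have y6 : (3 * (b : ℝ)) * R ≤ (δ * Real.exp w1 * a * ((a : ℝ) ^ 2 + b ^ 2)) * R := by linarith
      exact le_of_mul_le_mul_right y6 hR
    have g1 : (c : ℝ) ^ 2 < Real.exp w1 ^ 2 * (a : ℝ) ^ 2 := by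
      rw [← mul_pow]; exact pow_lt_pow_left₀ hlt hcr0.le (by norm_num)
    have g3 : (b : ℝ) * c ≤ b * (Real.exp w1 * a) := mul_le_mul_of_nonneg_left hlt.le hbr0.le
    have y7 := mul_le_mul_of_nonneg_left y2 (by positivity : 0 ≤ Real.exp w1 * (a : ℝ))
    have y8 := mul_lt_mul_of_pos_right g1 hN
    have y9 := mul_le_mul_of_nonneg_right y1 (by positivity : 0 ≤ (a : ℝ) ^ 2 * ((a : ℝ) ^ 2 + b ^ 2))
    have y10 := mul_le_mul_of_nonneg_left hw1 ha2.le
    rw [E1r] at y10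
    nlinarith
  · have g1 : (c : ℝ) ^ 2 * ((a : ℝ) ^ 2 + b ^ 2) < Real.exp w2 ^ 2 * (a : ℝ) ^ 2 * ((a : ℝ) ^ 2 + b ^ 2) := by
      rw [x2] at hw2
      have := mul_lt_mul_of_pos_left hw2 ha2
      rw [E1r] at this
      linarith
    have g2 := lt_of_mul_lt_mul_right g1 hN.le
    rw [← mul_pow] at g2
    exact lt_of_pow_lt_pow_left₀ 2 (by positivity) g2
  · -- `c N ≤ a D`
    have f1 : (c : ℝ) * ((a : ℝ) ^ 2 + b ^ 2) ≤ a * ((a * c + b * d : ℤ) : ℝ) := by
      rw [E2r]; linarith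
    have f2 := mul_le_mul_of_nonneg_right f1 (by positivity : 0 ≤ K * (R * I))
    have f3 := mul_le_mul_of_nonneg_left p2 hcr0.le
    have f4 := mul_le_mul_of_nonneg_left hx har0.le
    have f5 : ((b : ℝ) * c) * (a * (R ^ 2 + I ^ 2)) ≤ x * (a * (R ^ 2 + I ^ 2)) := by linarith
    exact le_of_mul_le_mul_right f5 (by positivity)

end EqArc

end Pool.Agent.Spl

end

/-! ### from `Lib_MP_92ef0c_sp.EqArcU` -/

section

/-!
# Edges of the Farey graph in sectors, upper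
-/

set_option autoImplicit false

namespace Pool.Agent.Spl

open Finset Pool.Agent.GaussMR Pool.Agent.OmAll Pool.Agent.OmEq Filter

namespace EqArc

theorem psi1 {a b R I K : ℝ} (ha : 0 < a) (hb : 0 < b) (hR : 0 < R) (hI : 0 < I)
    (h1 : a * I ≤ K * R * b) (h2 : b * R ≤ K * I * a) :
    (a ^ 2 + b ^ 2) * (R * I) ≤ K * (R ^ 2 + I ^ 2) * (a * b) ∧
    (R ^ 2 + I ^ 2) * (a * b) ≤ K * (a ^ 2 + b ^ 2) * (R * I) := by
  have e1 := mul_le_mul_of_nonneg_left h1 (by positivity : 0 ≤ a * R)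
  have e2 := mul_le_mul_of_nonneg_left h2 (by positivity : 0 ≤ b * I)
  have e3 := mul_le_mul_of_nonneg_left h2 (by positivity : 0 ≤ a * R)
  have e4 := mul_le_mul_of_nonneg_left h1 (by positivity : 0 ≤ b * I)
  constructor
  · linarith
  · linarith

/-- an edge with `exp w1 a ≤ c < exp w2 a` -/
theorem up_edge {a b c d : ℝ} (ha : 1 ≤ a) (hb : 1 ≤ b) (hc : 1 ≤ c) (hd : a * d - b * c = 1) {R I K w1 w2 δ B x : ℝ}
    (hR : 0 < R) (hI : 0 < I) (hδ : 0 < δ)
    (h1 : a * I ≤ K * R * b) (h2 : b * R ≤ K * I * a)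
    (hw1 : Real.exp w1 * a ≤ c) (hw2 : c < Real.exp w2 * a) (hx : b * c ≤ x)
    (hB : 3 * (K * I) ≤ δ * Real.exp w2 * R * B) :
    (c ^ 2 + d ^ 2 ≤ (Real.exp (2 * w2) + 3 * Real.exp w2) * (a ^ 2 + b ^ 2)) ∧
    0 < a * c + b * d ∧ (a * c + b * d) * (R * I) ≤ K * (R ^ 2 + I ^ 2) * (x + 1) ∧
    Real.exp (2 * w1) * (a ^ 2 + b ^ 2) ≤ c ^ 2 + d ^ 2 ∧
    (B ≤ a ^ 2 + b ^ 2 → c ^ 2 + d ^ 2 < Real.exp (2 * w2 + δ) * (a ^ 2 + b ^ 2)) := by
  have E1 : a ^ 2 * (c ^ 2 + d ^ 2) = c ^ 2 * (a ^ 2 + b ^ 2) + 2 * b * c + 1 := by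
    linear_combination (a * d + b * c + 1) * hd
  have E2 : a * (a * c + b * d) = c * (a ^ 2 + b ^ 2) + b := by
    linear_combination b * hd
  have ha0 : 0 < a := by linarith
  have hb0 : 0 < b := by linarith
  have hc0 : 0 < c := by linarith
  have ha2 : 0 < a ^ 2 := by positivity
  have hw1p := Real.exp_pos w1
  have hw2p := Real.exp_pos w2
  have x1 : Real.exp (2 * w1) = Real.exp w1 ^ 2 := by rw [sq, ← Real.exp_add]; ring_nf
  have x2 : Real.exp (2 * w2) = Real.exp w2 ^ 2 := by rw [sq, ← Real.exp_add]; ring_nf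
  have hbc : 1 ≤ b * c := by nlinarith
  have hN : 0 < a ^ 2 + b ^ 2 := by positivity
  have g1 : c ^ 2 ≤ Real.exp w2 ^ 2 * a ^ 2 := by
    rw [← mul_pow]; exact pow_le_pow_left₀ hc0.le hw2.le 2
  have g1' : c ^ 2 < Real.exp w2 ^ 2 * a ^ 2 := by
    rw [← mul_pow]; exact pow_lt_pow_left₀ hw2 hc0.le (by norm_num)
  have g2 : Real.exp w1 ^ 2 * a ^ 2 ≤ c ^ 2 := by
    rw [← mul_pow]; exact pow_le_pow_left₀ (by positivity) hw1 2
  have g3 : b * c ≤ b * (Real.exp w2 * a) := mul_le_mul_of_nonneg_left hw2.le hb0.le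
  have g4 : c ^ 2 * (a ^ 2 + b ^ 2) ≤ Real.exp w2 ^ 2 * a ^ 2 * (a ^ 2 + b ^ 2) :=
    mul_le_mul_of_nonneg_right g1 hN.le
  obtain ⟨p1, -⟩ := psi1 ha0 hb0 hR hI h1 h2
  refine ⟨?_, ?_, ?_, ?_, ?_⟩
  · rw [x2]
    have f1 : b * (Real.exp w2 * a) ≤ Real.exp w2 * (a ^ 2 + b ^ 2) * a ^ 2 := by
      have f2 : b * a ≤ (a ^ 2 + b ^ 2) * a ^ 2 := by
        have f3 : a ≤ a ^ 2 := by nlinarith
        have f4 : b ≤ a ^ 2 + b ^ 2 := by nlinarith
        exact mul_le_mul f4 f3 ha0.le hN.le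
      have := mul_le_mul_of_nonneg_left f2 hw2p.le
      linarith
    have f5 : a ^ 2 * (c ^ 2 + d ^ 2) ≤ a ^ 2 * ((Real.exp w2 ^ 2 + 3 * Real.exp w2) * (a ^ 2 + b ^ 2)) := by
      rw [E1]
      linarith
    exact le_of_mul_le_mul_left f5 ha2
  · have : 0 < a * (a * c + b * d) := by rw [E2]; positivity
    exact (mul_pos_iff_of_pos_left ha0).1 this
  · have hK : 0 < K := by
      by_contra hk
      have : K * R * b ≤ 0 := by
        have : K * (R * b) ≤ 0 := mul_nonpos_of_nonpos_of_nonneg (by linarith) (by positivity)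
        linarith
      have : 0 < a * I := by positivity
      linarith
    -- multiply by `a N`
    have f1 : (a * (a * c + b * d)) * (R * I) * (a ^ 2 + b ^ 2) ≤ a * (K * (R ^ 2 + I ^ 2) * (x + 1)) * (a ^ 2 + b ^ 2) := by
      rw [E2]
      have f2 := mul_le_mul_of_nonneg_left p1 (by positivity : 0 ≤ c * (a ^ 2 + b ^ 2) + b)
      have f3 : (c * (a ^ 2 + b ^ 2) + b) * (K * (R ^ 2 + I ^ 2) * (a * b)) =
        a * (K * (R ^ 2 + I ^ 2)) * ((b * c) * (a ^ 2 + b ^ 2) + b ^ 2) := by ring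
      have f4 : (b * c) * (a ^ 2 + b ^ 2) + b ^ 2 ≤ (x + 1) * (a ^ 2 + b ^ 2) := by
        have := mul_le_mul_of_nonneg_right hx hN.le
        have : 0 < a ^ 2 := ha2
        linarith
      have f5 := mul_le_mul_of_nonneg_left f4 (by positivity : 0 ≤ a * (K * (R ^ 2 + I ^ 2)))
      linarith
    have f6 := le_of_mul_le_mul_right f1 hN
    have f7 : a * ((a * c + b * d) * (R * I)) ≤ a * (K * (R ^ 2 + I ^ 2) * (x + 1)) := by linarith
    exact le_of_mul_le_mul_left f7 ha0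
  · rw [x1]
    have f1 := mul_le_mul_of_nonneg_right g2 hN.le
    have f2 : a ^ 2 * (Real.exp w1 ^ 2 * (a ^ 2 + b ^ 2)) ≤ a ^ 2 * (c ^ 2 + d ^ 2) := by
      rw [E1]
      linarith
    exact le_of_mul_le_mul_left f2 ha2
  · intro hBN
    have y1 : Real.exp w2 ^ 2 * (1 + δ) ≤ Real.exp (2 * w2 + δ) := by
      rw [Real.exp_add, x2]
      apply mul_le_mul_of_nonneg_left _ (by positivity)
      linarith [Real.add_one_le_exp δ]
    -- `3 b ≤ δ exp w2 a N`
    have y2 : 3 * b ≤ δ * Real.exp w2 * a * (a ^ 2 + b ^ 2) := by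
      have y3 : 3 * (b * R) ≤ 3 * (K * I * a) := by linarith
      have y4 : 3 * (K * I) * a ≤ δ * Real.exp w2 * R * B * a := mul_le_mul_of_nonneg_right hB ha0.le
      have y5 : δ * Real.exp w2 * R * a * B ≤ δ * Real.exp w2 * R * a * (a ^ 2 + b ^ 2) :=
        mul_le_mul_of_nonneg_left hBN (by positivity)
      have y6 : (3 * b) * R ≤ (δ * Real.exp w2 * a * (a ^ 2 + b ^ 2)) * R := by linarith
      exact le_of_mul_le_mul_right y6 hR
    have y7 := mul_le_mul_of_nonneg_left y2 (by positivity : 0 ≤ Real.exp w2 * a)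
    have y8 := mul_lt_mul_of_pos_right g1' hN
    have y9 := mul_le_mul_of_nonneg_right y1 (by positivity : 0 ≤ a ^ 2 * (a ^ 2 + b ^ 2))
    have y10 : a ^ 2 * (c ^ 2 + d ^ 2) < a ^ 2 * (Real.exp (2 * w2 + δ) * (a ^ 2 + b ^ 2)) := by
      rw [E1]
      nlinarith
    exact lt_of_mul_lt_mul_left y10 ha2.le

end EqArc

end Pool.Agent.Spl

end
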