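import Mathlib

/-!
# MP_92ef0c_nt, split pairs: merged library part M04

Concatenation of smaller files (each in its own section), only to save build time.
-/

/-! ### from `Lib_MP_f1a94e_mr.MertChi` -/

section

/-!
# Piece MERTCHI: Mertens' first theorem twisted by the character mod 4
-/

set_option autoImplicit false

namespace Pool.Agent.GaussMR

open Filter Topology

/-- `χ(n) Λ(n) / n` -/
noncomputable def mcF : ArithmeticFunction ℝ :=
  ⟨fun n => (ZMod.χ₄ (n : ZMod 4) : ℝ) * ArithmeticFunction.vonMangoldt n / (n : ℝ), by simp⟩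

/-- `χ(n) / n` -/
noncomputable def mcG : ArithmeticFunction ℝ :=
  ⟨fun n => (ZMod.χ₄ (n : ZMod 4) : ℝ) / (n : ℝ), by simp⟩

theorem mcF_apply (n : ℕ) : mcF n =
    (ZMod.χ₄ (n : ZMod 4) : ℝ) * ArithmeticFunction.vonMangoldt n / (n : ℝ) := rfl

theorem mcG_apply (n : ℕ) : mcG n = (ZMod.χ₄ (n : ZMod 4) : ℝ) / (n : ℝ) := rfl

theorem mcF_mul_mcG (n : ℕ) :
    (mcF * mcG) n = (ZMod.χ₄ (n : ZMod 4) : ℝ) * (Real.log n / n) := by
  rw [ArithmeticFunction.mul_apply]
  have h : ∀ p ∈ n.divisorsAntidiagonal, mcF p.1 * mcG p.2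
      = ((ZMod.χ₄ (n : ZMod 4) : ℝ) / n) * ArithmeticFunction.vonMangoldt p.1 := by
    intro p hp
    obtain ⟨h1, h2⟩ := Nat.mem_divisorsAntidiagonal.1 hp
    rw [mcF_apply, mcG_apply, ← h1]
    push_cast
    rw [map_mul]
    push_cast
    rw [div_mul_div_comm, div_mul_eq_mul_div]
    ring
  rw [Finset.sum_congr rfl h, ← Finset.mul_sum,
    Nat.sum_divisorsAntidiagonal (fun a _ => ArithmeticFunction.vonMangoldt a),
    ArithmeticFunction.vonMangoldt_sum]
  ring

/-- sums twisted by the character as alternating sums -/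
theorem mc_alt (h : ℕ → ℝ) (k : ℕ) :
    ∑ d ∈ Finset.Ioc 0 k, (ZMod.χ₄ (d : ZMod 4) : ℝ) * h d
      = ∑ i ∈ Finset.range ((k + 1) / 2), (-1) ^ i * h (2 * i + 1) := by
  induction k with
  | zero => simp
  | succ k ih =>
    rw [Finset.sum_Ioc_succ_top (Nat.zero_le k), ih]
    rcases Nat.even_or_odd' k with ⟨j, rfl | rfl⟩
    · have e1 : (2 * j + 1) / 2 = j := by omega
      have e2 : (2 * j + 1 + 1) / 2 = j + 1 := by omega
      rw [e1, e2, Finset.sum_range_succ]
      congr 1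
      have e3 : ZMod.χ₄ ((2 * j + 1 : ℕ) : ZMod 4) = (-1) ^ j := by
        rw [ZMod.χ₄_eq_neg_one_pow (by omega), e1]
      rw [e3]
      push_cast
      ring
    · have e1 : (2 * j + 1 + 1) / 2 = j + 1 := by omega
      have e2 : (2 * j + 1 + 1 + 1) / 2 = j + 1 := by omega
      rw [e1, e2]
      have e3 : ZMod.χ₄ ((2 * j + 1 + 1 : ℕ) : ZMod 4) = 0 := by
        rw [ZMod.χ₄_nat_eq_if_mod_four, if_pos (by omega)]
      rw [e3]
      simp

/-- the error bound for the Leibniz series -/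
theorem mc_leibniz (n : ℕ) :
    |∑ i ∈ Finset.range n, (-1 : ℝ) ^ i * (1 / (2 * (i : ℝ) + 1)) - Real.pi / 4|
      ≤ 1 / (2 * (n : ℝ) + 1) := by
  have hanti : Antitone (fun i : ℕ => 1 / (2 * (i : ℝ) + 1)) := by
    intro i j hij
    have : (i : ℝ) ≤ j := by exact_mod_cast hij
    apply one_div_le_one_div_of_le (by positivity)
    linarith
  have hl : Tendsto (fun n => ∑ i ∈ Finset.range n, (-1 : ℝ) ^ i * (1 / (2 * (i : ℝ) + 1))) atTop
      (𝓝 (Real.pi / 4)) := by
    refine (Real.tendsto_sum_pi_div_four).congr (fun n => ?_)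
    refine Finset.sum_congr rfl (fun i _ => ?_)
    ring
  rcases Nat.even_or_odd' n with ⟨j, rfl | rfl⟩
  · have h1 := hanti.alternating_series_le_tendsto hl j
    have h2 := hanti.tendsto_le_alternating_series hl j
    rw [Finset.sum_range_succ] at h2
    have e : (-1 : ℝ) ^ (2 * j) = 1 := by simp
    rw [e, one_mul] at h2
    push_cast at h2 ⊢
    rw [abs_le]
    constructor <;> linarith
  · have h1 := hanti.alternating_series_le_tendsto hl (j + 1)
    have h2 := hanti.tendsto_le_alternating_series hl j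
    rw [show 2 * (j + 1) = 2 * j + 1 + 1 by ring, Finset.sum_range_succ] at h1
    have e : (-1 : ℝ) ^ (2 * j + 1) = -1 := by
      rw [pow_succ]; simp
    rw [e, neg_one_mul] at h1
    push_cast at h1 ⊢
    have h3 : 0 ≤ 1 / (2 * (2 * (j : ℝ) + 1) + 1) := by positivity
    rw [abs_le]
    constructor <;> linarith

/-- partial sums of an alternating series with an antitone sequence -/
theorem mc_alt_bound (g : ℕ → ℝ) (hg : Antitone g) (h0 : ∀ n, 0 ≤ g n) (n : ℕ) :
    0 ≤ ∑ i ∈ Finset.range n, (-1 : ℝ) ^ i * g i ∧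
      ∑ i ∈ Finset.range n, (-1 : ℝ) ^ i * g i ≤ g 0 := by
  have key : ∀ k : ℕ, 0 ≤ ∑ i ∈ Finset.range (2 * k), (-1 : ℝ) ^ i * g i ∧
      ∑ i ∈ Finset.range (2 * k), (-1 : ℝ) ^ i * g i + g (2 * k) ≤ g 0 := by
    intro k
    induction k with
    | zero => simp
    | succ k ih =>
      have e1 : (-1 : ℝ) ^ (2 * k) = 1 := by simp
      have e2 : (-1 : ℝ) ^ (2 * k + 1) = -1 := by rw [pow_succ]; simp
      rw [show 2 * (k + 1) = 2 * k + 1 + 1 by ring, Finset.sum_range_succ, Finset.sum_range_succ,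
        e1, e2]
      have h1 : g (2 * k + 1) ≤ g (2 * k) := hg (by omega)
      have h2 : g (2 * k + 1 + 1) ≤ g (2 * k + 1) := hg (by omega)
      constructor <;> linarith [ih.1, ih.2]
  rcases Nat.even_or_odd' n with ⟨j, rfl | rfl⟩
  · have := key j
    exact ⟨this.1, by linarith [this.2, h0 (2 * j)]⟩
  · have := key j
    rw [Finset.sum_range_succ]
    have e1 : (-1 : ℝ) ^ (2 * j) = 1 := by simp
    rw [e1, one_mul]
    exact ⟨by linarith [this.1, h0 (2 * j)], this.2⟩

theorem mc_log_antitone :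
    Antitone (fun i : ℕ => Real.log ((2 * (i + 1) + 1 : ℕ) : ℝ) / ((2 * (i + 1) + 1 : ℕ) : ℝ)) := by
  intro i j hij
  have he : Real.exp 1 ≤ 3 := by
    have := Real.exp_one_lt_d9
    linarith
  have h1 : (3 : ℝ) ≤ ((2 * (i + 1) + 1 : ℕ) : ℝ) := by
    push_cast
    have : (0 : ℝ) ≤ i := Nat.cast_nonneg i
    linarith
  have h2 : ((2 * (i + 1) + 1 : ℕ) : ℝ) ≤ ((2 * (j + 1) + 1 : ℕ) : ℝ) := by
    have : 2 * (i + 1) + 1 ≤ 2 * (j + 1) + 1 := by omega
    exact_mod_cast this
  exact Real.log_div_self_antitoneOn (he.trans h1) (he.trans (h1.trans h2)) h2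

/-- `∑ χ(n) log n / n` is bounded -/
theorem mc_T_bound (N : ℕ) :
    |∑ n ∈ Finset.Ioc 0 N, (ZMod.χ₄ (n : ZMod 4) : ℝ) * (Real.log n / n)| ≤ Real.log 3 / 3 := by
  rw [mc_alt (fun n => Real.log n / n)]
  have h3 : 0 ≤ Real.log 3 / 3 := by
    have : 0 ≤ Real.log 3 := Real.log_nonneg (by norm_num)
    positivity
  rcases Nat.eq_zero_or_pos ((N + 1) / 2) with h | h
  · rw [h]
    simpa using h3
  · obtain ⟨n, hn⟩ := Nat.exists_eq_succ_of_ne_zero h.ne'
    rw [hn, Nat.succ_eq_add_one, Finset.sum_range_succ']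
    have hb := mc_alt_bound _ mc_log_antitone (fun i => by
      have : (1 : ℝ) ≤ ((2 * (i + 1) + 1 : ℕ) : ℝ) := by
        have : 1 ≤ 2 * (i + 1) + 1 := by omega
        exact_mod_cast this
      have := Real.log_nonneg this
      positivity) n
    have e1 : ∑ k ∈ Finset.range n, (-1 : ℝ) ^ (k + 1) *
        (Real.log ((2 * (k + 1) + 1 : ℕ) : ℝ) / ((2 * (k + 1) + 1 : ℕ) : ℝ))
        = -∑ k ∈ Finset.range n, (-1 : ℝ) ^ k *
        (Real.log ((2 * (k + 1) + 1 : ℕ) : ℝ) / ((2 * (k + 1) + 1 : ℕ) : ℝ)) := by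
      rw [← Finset.sum_neg_distrib]
      refine Finset.sum_congr rfl (fun k _ => ?_)
      rw [pow_succ]
      ring
    rw [e1]
    have e2 : (-1 : ℝ) ^ 0 * (Real.log ((2 * 0 + 1 : ℕ) : ℝ) / ((2 * 0 + 1 : ℕ) : ℝ)) = 0 := by
      simp
    rw [e2, add_zero, abs_neg, abs_of_nonneg hb.1]
    refine hb.2.trans (le_of_eq ?_)
    norm_num

/-- `∑_{n ≤ N} χ(n) log n / n` is bounded (alternating sum over odd `n` of an eventually decreasing
function) and equals `∑_{m ≤ N} (χ(m) Λ(m) / m) ∑_{d ≤ N/m} χ(d) / d`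
`= L ∑_{m ≤ N} χ(m) Λ(m) / m + O(∑_{m ≤ N} (Λ(m) / m) (m / N))`, where `L = ∑ χ(d) / d ≥ 2/3` and the tail of
this alternating series after `y` is at most `1 / y` (up to a constant); `∑_{m ≤ N} Λ(m) ≤ C N`. -/
theorem mert_chi : ∃ C : ℝ, ∀ N : ℕ, 1 ≤ N →
    |∑ n ∈ Finset.Icc 1 N, (ZMod.χ₄ (n : ZMod 4) : ℝ) * ArithmeticFunction.vonMangoldt n / (n : ℝ)| ≤
      C := by
  have hpi := Real.pi_pos
  refine ⟨(Real.log 3 / 3 + (Real.log 4 + 4)) * (4 / Real.pi), fun N hN => ?_⟩
  have hIcc : Finset.Icc 1 N = Finset.Ioc 0 N := by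
    ext x; simp only [Finset.mem_Icc, Finset.mem_Ioc]; omega
  rw [hIcc]
  have hNpos : (0 : ℝ) < N := by exact_mod_cast hN
  have hT := mc_T_bound N
  have hconv := ArithmeticFunction.sum_Ioc_mul_eq_sum_sum mcF mcG N
  rw [Finset.sum_congr rfl (fun n _ => mcF_mul_mcG n)] at hconv
  rw [hconv] at hT
  -- the inner sums
  have hinner : ∀ k : ℕ, |∑ d ∈ Finset.Ioc 0 k, mcG d - Real.pi / 4| ≤ 1 / ((k : ℝ) + 1) := by
    intro k
    have e1 : ∑ d ∈ Finset.Ioc 0 k, mcG d
        = ∑ i ∈ Finset.range ((k + 1) / 2), (-1 : ℝ) ^ i * (1 / (2 * (i : ℝ) + 1)) := by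
      have e2 := mc_alt (fun d => 1 / (d : ℝ)) k
      have e3 : ∑ d ∈ Finset.Ioc 0 k, mcG d
          = ∑ d ∈ Finset.Ioc 0 k, (ZMod.χ₄ (d : ZMod 4) : ℝ) * (1 / (d : ℝ)) := by
        refine Finset.sum_congr rfl (fun d _ => ?_)
        rw [mcG_apply]
        ring
      rw [e3, e2]
      refine Finset.sum_congr rfl (fun i _ => ?_)
      push_cast
      rfl
    rw [e1]
    refine (mc_leibniz _).trans ?_
    apply one_div_le_one_div_of_le (by positivity)
    have h1 : k ≤ 2 * ((k + 1) / 2) := by omega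
    have h2 : (k : ℝ) ≤ 2 * (((k + 1) / 2 : ℕ) : ℝ) := by exact_mod_cast h1
    linarith
  have hchi : ∀ a : ZMod 4, |(ZMod.χ₄ a : ℝ)| ≤ 1 := by
    intro a
    rcases ZMod.isQuadratic_χ₄ a with h | h | h <;> rw [h] <;> simp
  have hpsi : ∑ n ∈ Finset.Ioc 0 N, ArithmeticFunction.vonMangoldt n ≤ (Real.log 4 + 4) * N := by
    have h1 := Chebyshev.psi_le_const_mul_self (x := (N : ℝ)) hNpos.le
    refine le_trans (le_of_eq ?_) h1
    unfold Chebyshev.psi
    rw [Nat.floor_natCast]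
  set M : ℝ := ∑ n ∈ Finset.Ioc 0 N, mcF n with hM
  have hdiff : |∑ n ∈ Finset.Ioc 0 N, mcF n * ∑ d ∈ Finset.Ioc 0 (N / n), mcG d
      - Real.pi / 4 * M| ≤ Real.log 4 + 4 := by
    have e1 : ∑ n ∈ Finset.Ioc 0 N, mcF n * ∑ d ∈ Finset.Ioc 0 (N / n), mcG d
        - Real.pi / 4 * M
        = ∑ n ∈ Finset.Ioc 0 N, mcF n * (∑ d ∈ Finset.Ioc 0 (N / n), mcG d - Real.pi / 4) := by
      rw [hM, Finset.mul_sum, ← Finset.sum_sub_distrib]
      refine Finset.sum_congr rfl (fun n _ => ?_)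
      ring
    rw [e1]
    refine (Finset.abs_sum_le_sum_abs _ _).trans ?_
    have h1 : ∀ n ∈ Finset.Ioc 0 N, |mcF n * (∑ d ∈ Finset.Ioc 0 (N / n), mcG d - Real.pi / 4)|
        ≤ ArithmeticFunction.vonMangoldt n / N := by
      intro n hn
      rw [Finset.mem_Ioc] at hn
      have hn0 : (0 : ℝ) < n := by exact_mod_cast hn.1
      have hv : 0 ≤ ArithmeticFunction.vonMangoldt n := ArithmeticFunction.vonMangoldt_nonneg
      rw [abs_mul]
      have h2 : |mcF n| ≤ ArithmeticFunction.vonMangoldt n / n := by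
        rw [mcF_apply, abs_div, abs_mul, abs_of_nonneg hv, abs_of_pos hn0]
        apply div_le_div_of_nonneg_right _ hn0.le
        have := hchi (n : ZMod 4)
        nlinarith
      have h3 : |∑ d ∈ Finset.Ioc 0 (N / n), mcG d - Real.pi / 4| ≤ n / N := by
        refine (hinner (N / n)).trans ?_
        rw [div_le_div_iff₀ (by positivity) hNpos, one_mul]
        have h4 : N < n * (N / n + 1) := by
          have := Nat.lt_mul_div_succ N hn.1
          simpa [Nat.succ_eq_add_one] using this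
        have h5 : (N : ℝ) < n * (((N / n : ℕ) : ℝ) + 1) := by exact_mod_cast h4
        linarith
      calc |mcF n| * |∑ d ∈ Finset.Ioc 0 (N / n), mcG d - Real.pi / 4|
          ≤ (ArithmeticFunction.vonMangoldt n / n) * (n / N) := by
            apply mul_le_mul h2 h3 (abs_nonneg _) (by positivity)
        _ = ArithmeticFunction.vonMangoldt n / N := by
            field_simp
    refine (Finset.sum_le_sum h1).trans ?_
    rw [← Finset.sum_div, div_le_iff₀ hNpos]
    exact hpsi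
  have hMeq : ∑ n ∈ Finset.Ioc 0 N, (ZMod.χ₄ (n : ZMod 4) : ℝ) *
      ArithmeticFunction.vonMangoldt n / (n : ℝ) = M := rfl
  rw [hMeq]
  have h6 : |Real.pi / 4 * M| ≤ Real.log 3 / 3 + (Real.log 4 + 4) := by
    have h7 := abs_le.1 hdiff
    have h8 := abs_le.1 hT
    rw [abs_le]
    constructor <;> linarith [h7.1, h7.2, h8.1, h8.2]
  rw [abs_mul, abs_of_pos (by positivity : (0 : ℝ) < Real.pi / 4)] at h6
  have h9 : |M| = (Real.pi / 4 * |M|) * (4 / Real.pi) := by
    field_simp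
  rw [h9]
  exact mul_le_mul_of_nonneg_right h6 (by positivity)

end Pool.Agent.GaussMR

end

/-! ### from `Lib_MP_f1a94e_mr.MertOne` -/

section

/-!
# Piece MERTONE: Mertens' first theorem
-/

set_option autoImplicit false

namespace Pool.Agent.GaussMR

open Finset in
/-- `log N! = ∑_{n ≤ N} Λ(n) ⌊N/n⌋`. -/
theorem mert_one_log_factorial (N : ℕ) :
    Real.log (N.factorial : ℝ)
      = ∑ d ∈ Finset.Icc 1 N, ArithmeticFunction.vonMangoldt d * ((N / d : ℕ) : ℝ) := by
  have h1 : Real.log (N.factorial : ℝ) = ∑ k ∈ Finset.Icc 1 N, Real.log (k : ℝ) := by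
    rw [← Finset.prod_Ico_id_eq_factorial, show Finset.Ico 1 (N + 1) = Finset.Icc 1 N by
      ext x
      simp only [Finset.mem_Ico, Finset.mem_Icc]
      omega]
    push_cast
    rw [Real.log_prod]
    intro k hk
    have : 1 ≤ k := (Finset.mem_Icc.1 hk).1
    positivity
  rw [h1]
  have h2 : ∀ k ∈ Finset.Icc 1 N, Real.log (k : ℝ)
      = ∑ d ∈ Finset.Icc 1 N, if d ∣ k then ArithmeticFunction.vonMangoldt d else 0 := by
    intro k hk
    have hk1 : 1 ≤ k := (Finset.mem_Icc.1 hk).1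
    have hk2 : k ≤ N := (Finset.mem_Icc.1 hk).2
    rw [← ArithmeticFunction.vonMangoldt_sum, ← Finset.sum_filter]
    apply Finset.sum_congr _ fun _ _ => rfl
    ext d
    simp only [Nat.mem_divisors, Finset.mem_filter, Finset.mem_Icc]
    constructor
    · rintro ⟨hd, hk0⟩
      exact ⟨⟨Nat.pos_of_dvd_of_pos hd (by omega), (Nat.le_of_dvd (by omega) hd).trans hk2⟩, hd⟩
    · rintro ⟨_, hd⟩
      exact ⟨hd, by omega⟩
  rw [Finset.sum_congr rfl h2, Finset.sum_comm]
  refine Finset.sum_congr rfl fun d hd => ?_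
  rw [← Finset.sum_filter, Finset.sum_const, nsmul_eq_mul, mul_comm]
  congr 2
  rw [← Nat.Ioc_filter_dvd_card_eq_div N d]
  congr 1

/-- From `log N! = ∑_{n ≤ N} Λ(n) ⌊N/n⌋ = N log N + O(N)` and `∑_{n ≤ N} Λ(n) ≤ C N` (Chebyshev). -/
theorem mert_one : ∃ C : ℝ, ∀ N : ℕ, 1 ≤ N →
    |∑ n ∈ Finset.Icc 1 N, ArithmeticFunction.vonMangoldt n / (n : ℝ) - Real.log N| ≤ C := by
  refine ⟨Real.log 4 + 4, fun N hN => ?_⟩
  have hNpos : (0 : ℝ) < N := by exact_mod_cast hN
  have hfac := mert_one_log_factorial N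
  set S := ∑ n ∈ Finset.Icc 1 N, ArithmeticFunction.vonMangoldt n / (n : ℝ) with hS
  have hfpos : (0 : ℝ) < (N.factorial : ℝ) := by exact_mod_cast N.factorial_pos
  -- bounds of the factorial
  have hlow : (N : ℝ) * Real.log N - N ≤ Real.log (N.factorial : ℝ) := by
    have h1 := Real.pow_div_factorial_le_exp (N : ℝ) hNpos.le N
    have h2 := Real.log_le_log (by positivity) h1
    rw [Real.log_exp, Real.log_div (by positivity) hfpos.ne', Real.log_pow] at h2
    linarith
  have hup : Real.log (N.factorial : ℝ) ≤ (N : ℝ) * Real.log N := by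
    have h1 : (N.factorial : ℝ) ≤ (N : ℝ) ^ N := by exact_mod_cast Nat.factorial_le_pow N
    have h2 := Real.log_le_log hfpos h1
    rwa [Real.log_pow] at h2
  -- comparison of the sum with the floor
  have hNS : (N : ℝ) * S = ∑ d ∈ Finset.Icc 1 N,
      ArithmeticFunction.vonMangoldt d * ((N : ℝ) / d) := by
    rw [hS, Finset.mul_sum]
    exact Finset.sum_congr rfl fun d _ => by ring
  have hge : Real.log (N.factorial : ℝ) ≤ (N : ℝ) * S := by
    rw [hfac, hNS]
    refine Finset.sum_le_sum fun d _ => ?_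
    exact mul_le_mul_of_nonneg_left Nat.cast_div_le ArithmeticFunction.vonMangoldt_nonneg
  have hpsi : ∑ d ∈ Finset.Icc 1 N, ArithmeticFunction.vonMangoldt d ≤ (Real.log 4 + 4) * N := by
    have h1 := Chebyshev.psi_le_const_mul_self (x := (N : ℝ)) hNpos.le
    refine le_trans (le_of_eq ?_) h1
    unfold Chebyshev.psi
    rw [Nat.floor_natCast]
    rfl
  have hle : (N : ℝ) * S ≤ Real.log (N.factorial : ℝ) + (Real.log 4 + 4) * N := by
    refine le_trans ?_ (add_le_add_right hpsi _)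
    rw [hfac, hNS, ← Finset.sum_add_distrib]
    refine Finset.sum_le_sum fun d hd => ?_
    have hd1 : 1 ≤ d := (Finset.mem_Icc.1 hd).1
    have hdpos : (0 : ℝ) < d := by exact_mod_cast hd1
    have h3 : (N : ℝ) / d ≤ ((N / d : ℕ) : ℝ) + 1 := by
      rw [div_le_iff₀ hdpos]
      have h4 : N < d * (N / d + 1) := Nat.lt_mul_div_succ N hd1
      have h5 : (N : ℝ) < d * (((N / d : ℕ) : ℝ) + 1) := by exact_mod_cast h4
      linarith
    calc ArithmeticFunction.vonMangoldt d * ((N : ℝ) / d)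
        ≤ ArithmeticFunction.vonMangoldt d * (((N / d : ℕ) : ℝ) + 1) :=
          mul_le_mul_of_nonneg_left h3 ArithmeticFunction.vonMangoldt_nonneg
      _ = _ := by ring
  have hlog4 : 0 ≤ Real.log 4 := Real.log_nonneg (by norm_num)
  rw [abs_le]
  constructor
  · have h5 : (N : ℝ) * (Real.log N - 1) ≤ N * S := by linarith
    have h6 := le_of_mul_le_mul_left h5 hNpos
    linarith
  · have h5 : (N : ℝ) * S ≤ N * (Real.log N + (Real.log 4 + 4)) := by linarith
    have h6 := le_of_mul_le_mul_left h5 hNpos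
    linarith

end Pool.Agent.GaussMR

end

/-! ### from `Lib_MP_f1a94e_mr.MertensA` -/

section

/-!
# Piece MERTENSA: Mertens' first theorem for primes `1 mod 4`
-/

set_option autoImplicit false

namespace Pool.Agent.GaussMR

/-- The proper prime powers contribute a bounded amount. -/
theorem mertensA_powers : ∃ C : ℝ, ∀ N : ℕ, ∑ n ∈ Finset.Icc 1 N,
    (if n.Prime then 0 else ArithmeticFunction.vonMangoldt n) / (n : ℝ) ≤ C := by
  have h := ArithmeticFunction.vonMangoldt.summable_residueClass_non_primes_div (0 : ZMod 1)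
  have e : ∀ n : ℕ, (if n.Prime then 0 else ArithmeticFunction.vonMangoldt.residueClass
      (0 : ZMod 1) n) / (n : ℝ) =
      (if n.Prime then 0 else ArithmeticFunction.vonMangoldt n) / (n : ℝ) := by
    intro n
    congr 1
    split_ifs
    · rfl
    · rw [ArithmeticFunction.vonMangoldt.residueClass, Set.indicator_of_mem]
      exact Subsingleton.elim _ _
  simp only [e] at h
  refine ⟨∑' n : ℕ, (if n.Prime then 0 else ArithmeticFunction.vonMangoldt n) / (n : ℝ),
    fun N => h.sum_le_tsum _ fun n _ => ?_⟩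
  split_ifs
  · simp
  · exact div_nonneg ArithmeticFunction.vonMangoldt_nonneg n.cast_nonneg

/-- half the sum of `mert_one` and `mert_chi`: `(1 + χ(n)) / 2` is the indicator of `n = 1 mod 4` up to
even numbers; powers of 2 and proper prime powers contribute `O(1)`; `log ⌊x⌋ = log x + O(1)` -/
theorem mertens_log : ∃ C : ℝ, ∀ x : ℝ, 2 ≤ x →
    |∑ p ∈ (Finset.Icc 1 ⌊x⌋₊).filter (fun p => p.Prime ∧ p % 4 = 1), Real.log p / p -
      Real.log x / 2| ≤ C := by
  obtain ⟨C1, h1⟩ := mert_one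
  obtain ⟨C2, h2⟩ := mert_chi
  obtain ⟨C3, h3⟩ := mertensA_powers
  refine ⟨C1 / 2 + C2 / 2 + (C3 + 1) + Real.log 2 / 2, fun x hx => ?_⟩
  set N := ⌊x⌋₊ with hN
  have hN1 : 1 ≤ N := by
    rw [hN, Nat.one_le_floor_iff]
    linarith
  have hNpos : (0 : ℝ) < N := by exact_mod_cast hN1
  have k1 := h1 N hN1
  have k2 := h2 N hN1
  have k3 := h3 N
  set S1 := ∑ n ∈ Finset.Icc 1 N, ArithmeticFunction.vonMangoldt n / (n : ℝ) with hS1
  set S2 := ∑ n ∈ Finset.Icc 1 N,
    (ZMod.χ₄ (n : ZMod 4) : ℝ) * ArithmeticFunction.vonMangoldt n / (n : ℝ) with hS2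
  set A := ∑ p ∈ (Finset.Icc 1 N).filter (fun p => p.Prime ∧ p % 4 = 1), Real.log p / p with hA
  -- comparison of the logarithms
  have hlog : |Real.log N - Real.log x| ≤ Real.log 2 := by
    have a1 : (N : ℝ) ≤ x := Nat.floor_le (by linarith)
    have a2 : x ≤ 2 * N := by
      have := Nat.lt_floor_add_one x
      rw [← hN] at this
      have : (1 : ℝ) ≤ N := by exact_mod_cast hN1
      linarith
    have b1 := Real.log_le_log hNpos a1
    have b2 := Real.log_le_log (by linarith) a2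
    rw [Real.log_mul (by norm_num) hNpos.ne'] at b2
    rw [abs_le]
    constructor <;> linarith [Real.log_nonneg (by norm_num : (1 : ℝ) ≤ 2)]
  -- termwise comparison
  have hterm : ∀ n ∈ Finset.Icc 1 N,
      |(if n.Prime ∧ n % 4 = 1 then Real.log n / (n : ℝ) else 0) -
        (ArithmeticFunction.vonMangoldt n / (n : ℝ) +
          (ZMod.χ₄ (n : ZMod 4) : ℝ) * ArithmeticFunction.vonMangoldt n / (n : ℝ)) / 2| ≤
      (if n.Prime then 0 else ArithmeticFunction.vonMangoldt n) / (n : ℝ) +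
        (if n = 2 then 1 else 0) := by
    intro n hn
    have hn1 : 1 ≤ n := (Finset.mem_Icc.1 hn).1
    have hnpos : (0 : ℝ) < n := by exact_mod_cast hn1
    by_cases hp : n.Prime
    · have hΛ : ArithmeticFunction.vonMangoldt n = Real.log n :=
        ArithmeticFunction.vonMangoldt_apply_prime hp
      rw [if_pos hp, zero_div, zero_add, hΛ]
      rcases hp.eq_two_or_odd with h2 | hodd
      · subst h2
        have hχ : ZMod.χ₄ ((2 : ℕ) : ZMod 4) = 0 := by decide
        rw [hχ]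
        simp only [Nat.reduceMod, Int.cast_zero, if_true]
        have l1 := Real.log_two_lt_d9
        have l2 := Real.log_two_gt_d9
        rw [if_neg (by norm_num), abs_le]
        push_cast
        constructor <;> linarith
      · have hne : n ≠ 2 := by
          rintro rfl
          simp at hodd
        rw [if_neg hne]
        have h4 : n % 4 = 1 ∨ n % 4 = 3 := by omega
        rcases h4 with h4 | h4
        · rw [ZMod.χ₄_nat_one_mod_four h4, if_pos ⟨hp, h4⟩]
          simp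
        · rw [ZMod.χ₄_nat_three_mod_four h4, if_neg (by omega)]
          simp [neg_div]
    · have hne : n ≠ 2 := by
        rintro rfl
        exact hp Nat.prime_two
      rw [if_neg hp, if_neg hne, if_neg (fun h => hp h.1), add_zero, zero_sub, abs_neg]
      have hΛ : 0 ≤ ArithmeticFunction.vonMangoldt n / (n : ℝ) :=
        div_nonneg ArithmeticFunction.vonMangoldt_nonneg hnpos.le
      have hχ : |(ZMod.χ₄ (n : ZMod 4) : ℝ)| ≤ 1 := by
        rw [ZMod.χ₄_nat_eq_if_mod_four]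
        split_ifs <;> norm_num
      rw [mul_div_assoc]
      set L := ArithmeticFunction.vonMangoldt n / (n : ℝ) with hL
      set c := (ZMod.χ₄ (n : ZMod 4) : ℝ) with hc
      rw [abs_le] at hχ ⊢
      constructor <;> nlinarith [hχ.1, hχ.2]
  have hAsum : A = ∑ n ∈ Finset.Icc 1 N, (if n.Prime ∧ n % 4 = 1 then Real.log n / (n : ℝ) else 0) := by
    rw [hA, Finset.sum_filter]
  have hdiff : |A - (S1 + S2) / 2| ≤ C3 + 1 := by
    have e1 : A - (S1 + S2) / 2 = ∑ n ∈ Finset.Icc 1 N,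
        ((if n.Prime ∧ n % 4 = 1 then Real.log n / (n : ℝ) else 0) -
        (ArithmeticFunction.vonMangoldt n / (n : ℝ) +
          (ZMod.χ₄ (n : ZMod 4) : ℝ) * ArithmeticFunction.vonMangoldt n / (n : ℝ)) / 2) := by
      rw [Finset.sum_sub_distrib, ← hAsum, ← Finset.sum_div, Finset.sum_add_distrib]
    rw [e1]
    refine (Finset.abs_sum_le_sum_abs _ _).trans ((Finset.sum_le_sum hterm).trans ?_)
    rw [Finset.sum_add_distrib]
    refine add_le_add k3 ?_
    rw [Finset.sum_ite_eq']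
    split_ifs <;> norm_num
  have e2 : A - Real.log x / 2 = (A - (S1 + S2) / 2) + (S1 - Real.log N) / 2 + S2 / 2 +
      (Real.log N - Real.log x) / 2 := by ring
  rw [e2]
  have t1 : |(S1 - Real.log N) / 2| ≤ C1 / 2 := by
    rw [abs_div, abs_of_pos (by norm_num : (0 : ℝ) < 2)]
    linarith
  have t2 : |S2 / 2| ≤ C2 / 2 := by
    rw [abs_div, abs_of_pos (by norm_num : (0 : ℝ) < 2)]
    linarith
  have t3 : |(Real.log N - Real.log x) / 2| ≤ Real.log 2 / 2 := by
    rw [abs_div, abs_of_pos (by norm_num : (0 : ℝ) < 2)]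
    linarith
  refine (abs_add_le _ _).trans ?_
  have u1 := abs_add_le (A - (S1 + S2) / 2 + (S1 - Real.log N) / 2) (S2 / 2)
  have u2 := abs_add_le (A - (S1 + S2) / 2) ((S1 - Real.log N) / 2)
  linarith

end Pool.Agent.GaussMR

end

/-! ### from `Lib_MP_f1a94e_eq.AppG` -/

section

/-!
# Piece APPG: approximation by step functions and triangles
-/

set_option autoImplicit false

namespace Pool.Agent.OmEq

open Finset

/-- indicator of the cell `(C i / I, C (i+1) / I]` -/
noncomputable def cell (C : ℝ) (I i : ℕ) (x : ℝ) : ℝ := if C * i / I < x ∧ x ≤ C * (i + 1) / I then 1 else 0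

theorem appg_cell (C : ℝ) (I : ℕ) (hC : 0 < C) (hI : 1 ≤ I) (x : ℝ) (hx : 0 < x) (hx' : x ≤ C) :
    ∃ i0 ∈ range I, C * i0 / I < x ∧ x - C * i0 / I ≤ C / I ∧ ∀ a : ℕ → ℝ,
      ∑ i ∈ range I, a i * cell C I i x = a i0 := by
  have hI' : (0 : ℝ) < I := by exact_mod_cast hI
  have h0 : 0 < ⌈x * I / C⌉₊ := Nat.ceil_pos.2 (by positivity)
  obtain ⟨i0, hi0⟩ : ∃ i0, ⌈x * I / C⌉₊ = i0 + 1 := ⟨⌈x * I / C⌉₊ - 1, by omega⟩
  have h1 : (i0 : ℝ) < x * I / C := by
    have := Nat.ceil_lt_add_one (show 0 ≤ x * I / C by positivity)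
    rw [hi0] at this
    push_cast at this
    linarith
  have h2 : x * I / C ≤ (i0 : ℝ) + 1 := by
    have := Nat.le_ceil (x * I / C)
    rw [hi0] at this
    push_cast at this
    exact this
  have h3 : i0 + 1 ≤ I := by
    rw [← hi0]
    apply Nat.ceil_le.2
    rw [div_le_iff₀ hC]
    nlinarith
  have h4 : C * i0 / I < x := by
    rw [div_lt_iff₀ hI']
    rw [lt_div_iff₀ hC] at h1
    linarith
  have h5 : x ≤ C * (i0 + 1) / I := by
    rw [le_div_iff₀ hI']
    rw [div_le_iff₀ hC] at h2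
    linarith
  refine ⟨i0, mem_range.2 (by omega), h4, ?_, ?_⟩
  · have : C * ((i0 : ℝ) + 1) / I = C * i0 / I + C / I := by ring
    linarith
  · intro a
    rw [Finset.sum_eq_single i0]
    · unfold cell
      rw [if_pos ⟨h4, h5⟩, mul_one]
    · intro i _ hi
      unfold cell
      rw [if_neg, mul_zero]
      rintro ⟨h6, h7⟩
      apply hi
      have h8 : C * i / I < C * (i0 + 1) / I := lt_of_lt_of_le h6 h5
      have h9 : C * i0 / I < C * (i + 1) / I := lt_of_lt_of_le h4 h7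
      rw [div_lt_div_iff_of_pos_right hI'] at h8 h9
      have h10 := lt_of_mul_lt_mul_left h8 hC.le
      have h11 := lt_of_mul_lt_mul_left h9 hC.le
      have h12 : i < i0 + 1 := by exact_mod_cast h10
      have h13 : i0 < i + 1 := by exact_mod_cast h11
      omega
    · intro h
      exact absurd (mem_range.2 (by omega)) h

theorem appg_tri (I L : ℕ) (g : ℕ → ℝ) (hg : ∀ l, L ≤ l → g l = 0) (σ : ℝ) (hσ : 0 ≤ σ) :
    ∑ l ∈ range L, g l * max 0 (1 - |I * σ - l|) =
      g ⌊I * σ⌋₊ * (1 - (I * σ - ⌊I * σ⌋₊)) + g (⌊I * σ⌋₊ + 1) * (I * σ - ⌊I * σ⌋₊) := by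
  have hs : 0 ≤ (I : ℝ) * σ := by positivity
  have h1 := Nat.floor_le hs
  have h2 := Nat.lt_floor_add_one ((I : ℝ) * σ)
  set m := ⌊(I : ℝ) * σ⌋₊ with hm
  have e1 : ∑ l ∈ range L, g l * max 0 (1 - |I * σ - l|) =
      ∑ l ∈ range (max L (m + 2)), g l * max 0 (1 - |I * σ - l|) := by
    apply Finset.sum_subset (Finset.range_mono (le_max_left _ _))
    intro l _ hl
    rw [mem_range, not_lt] at hl
    rw [hg l hl, zero_mul]
  have e2 : ∑ l ∈ ({m, m + 1} : Finset ℕ), g l * max 0 (1 - |I * σ - l|) =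
      ∑ l ∈ range (max L (m + 2)), g l * max 0 (1 - |I * σ - l|) := by
    apply Finset.sum_subset
    · intro l hl
      rw [mem_insert, mem_singleton] at hl
      rw [mem_range]
      have := le_max_right L (m + 2)
      omega
    · intro l _ hl
      rw [mem_insert, mem_singleton, not_or] at hl
      have h3 : 1 ≤ |I * σ - l| := by
        rcases lt_or_ge l m with h | h
        · have h4 : (l : ℝ) + 1 ≤ m := by exact_mod_cast h
          rw [le_abs]
          left
          linarith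
        · have h4 : m + 2 ≤ l := by omega
          have h5 : (m : ℝ) + 2 ≤ l := by exact_mod_cast h4
          rw [le_abs]
          right
          linarith
      rw [max_eq_left (by linarith), mul_zero]
  rw [e1, ← e2, Finset.sum_pair (by omega)]
  have h6 : |(I : ℝ) * σ - m| = I * σ - m := abs_of_nonneg (by linarith)
  have h7 : |(I : ℝ) * σ - ((m + 1 : ℕ) : ℝ)| = 1 - (I * σ - m) := by
    push_cast
    rw [abs_of_nonpos (by linarith)]
    ring
  rw [h6, h7, max_eq_right (by linarith), max_eq_right (by linarith)]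
  ring

/-- PROOF. `F` is uniformly continuous (compact support: it vanishes outside `[c0, C0]^2 × [0, B]`). For `x, x' ∈ (0, C0]` exactly one `i` and one `j` have `cell = 1`, `|x - C0 i/I| ≤ C0/I`. For `σ ≥ 0`, `∑_(l ≥ 0) max 0 (1 - |I σ - l|) = 1` and only `l` with
`|σ - l/I| < 1/I` contribute; `F (..) (..) (l/I) = 0` for `l/I ≥ B` and for `l = 0`; for `σ < 0` all contributing terms have `l = 0`. So the difference is at most the modulus of continuity at `(C0 + 1)/I`, times 1. Support: if `x < c0/2` (or `x' < c0/2`) then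
`F x x' σ = 0` and `C0 i/I < x < c0`; if `B + 1 < |σ|` then `F = 0` and the terms with `|I σ - l| < 1` have `l/I > B`. For `I` large. -/
theorem appG (c0 C0 B : ℝ) (hc0 : 0 < c0) (hC0 : c0 ≤ C0) (hB : 0 < B) (F : ℝ → ℝ → ℝ → ℝ)
    (hF : Continuous (fun v : ℝ × ℝ × ℝ => F v.1 v.2.1 v.2.2))
    (h1 : ∀ x x' σ, x ≤ c0 ∨ x' ≤ c0 ∨ C0 ≤ x ∨ C0 ≤ x' ∨ σ ≤ 0 ∨ B ≤ σ → F x x' σ = 0) (ε : ℝ) (hε : 0 < ε) :
    ∃ I : ℕ, 1 ≤ I ∧ ∀ x x' σ : ℝ, 0 < x → x ≤ C0 → 0 < x' → x' ≤ C0 →
      |F x x' σ - ∑ i ∈ range I, ∑ j ∈ range I, ∑ l ∈ range (⌈B⌉₊ * I + 1),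
        F (C0 * i / I) (C0 * j / I) ((l : ℝ) / I) * cell C0 I i x * cell C0 I j x' * max 0 (1 - |I * σ - l|)| ≤
      if c0 / 2 ≤ x ∧ c0 / 2 ≤ x' ∧ |σ| ≤ B + 1 then ε else 0 := by
  have hC0' : 0 < C0 := by linarith
  have hcs : HasCompactSupport (fun v : ℝ × ℝ × ℝ => F v.1 v.2.1 v.2.2) := by
    refine HasCompactSupport.intro (K := Set.Icc c0 C0 ×ˢ Set.Icc c0 C0 ×ˢ Set.Icc 0 B)
      (isCompact_Icc.prod (isCompact_Icc.prod isCompact_Icc)) ?_
    rintro ⟨x, x', σ⟩ hx
    by_contra hne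
    apply hx
    have hn : ¬ (x ≤ c0 ∨ x' ≤ c0 ∨ C0 ≤ x ∨ C0 ≤ x' ∨ σ ≤ 0 ∨ B ≤ σ) := fun h => hne (h1 x x' σ h)
    simp only [not_or, not_le] at hn
    obtain ⟨a1, a2, a3, a4, a5, a6⟩ := hn
    exact ⟨⟨a1.le, a3.le⟩, ⟨a2.le, a4.le⟩, ⟨a5.le, a6.le⟩⟩
  have huc := hcs.uniformContinuous_of_continuous hF
  obtain ⟨δ, hδ, hδF⟩ := Metric.uniformContinuous_iff.1 huc ε hε
  obtain ⟨I0, hI0⟩ := exists_nat_gt ((C0 + 1) / δ)
  have hI : 1 ≤ I0 + 1 := by omega
  have hI' : (0 : ℝ) < ((I0 + 1 : ℕ) : ℝ) := by positivity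
  have hId : (C0 + 1) / ((I0 + 1 : ℕ) : ℝ) < δ := by
    rw [div_lt_iff₀ hI']
    rw [div_lt_iff₀ hδ] at hI0
    push_cast
    nlinarith
  generalize I0 + 1 = I at hI hI' hId
  clear hI0
  have hI1 : (1 : ℝ) ≤ I := by exact_mod_cast hI
  refine ⟨I, hI, ?_⟩
  intro x x' σ hx hxC hx' hxC'
  obtain ⟨i0, hi0, hi1, hi2, hi3⟩ := appg_cell C0 I hC0' hI x hx hxC
  obtain ⟨j0, hj0, hj1, hj2, hj3⟩ := appg_cell C0 I hC0' hI x' hx' hxC'
  have e1 : ∑ i ∈ range I, ∑ j ∈ range I, ∑ l ∈ range (⌈B⌉₊ * I + 1),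
        F (C0 * i / I) (C0 * j / I) ((l : ℝ) / I) * cell C0 I i x * cell C0 I j x' * max 0 (1 - |I * σ - l|) =
      ∑ l ∈ range (⌈B⌉₊ * I + 1), F (C0 * i0 / I) (C0 * j0 / I) ((l : ℝ) / I) * max 0 (1 - |I * σ - l|) := by
    rw [← hi3 (fun i => ∑ l ∈ range (⌈B⌉₊ * I + 1), F (C0 * i / I) (C0 * j0 / I) ((l : ℝ) / I) *
      max 0 (1 - |I * σ - l|))]
    refine Finset.sum_congr rfl fun i _ => ?_
    rw [← hj3 (fun j => ∑ l ∈ range (⌈B⌉₊ * I + 1), F (C0 * i / I) (C0 * j / I) ((l : ℝ) / I) *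
      max 0 (1 - |I * σ - l|)), Finset.sum_mul]
    refine Finset.sum_congr rfl fun j _ => ?_
    rw [Finset.sum_mul, Finset.sum_mul]
    refine Finset.sum_congr rfl fun l _ => ?_
    ring
  rw [e1]
  set a := C0 * i0 / I with ha
  set b := C0 * j0 / I with hb
  have hLz : ∀ l : ℕ, ⌈B⌉₊ * I + 1 ≤ l → F a b ((l : ℝ) / I) = 0 := by
    intro l hl
    apply h1
    refine Or.inr (Or.inr (Or.inr (Or.inr (Or.inr ?_))))
    rw [le_div_iff₀ hI']
    have h2 : ((⌈B⌉₊ * I + 1 : ℕ) : ℝ) ≤ l := by exact_mod_cast hl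
    push_cast at h2
    have h3 := Nat.le_ceil B
    nlinarith
  rcases lt_or_ge σ 0 with hσ | hσ
  · -- `σ < 0`: everything vanishes
    have e2 : ∑ l ∈ range (⌈B⌉₊ * I + 1), F a b ((l : ℝ) / I) * max 0 (1 - |I * σ - l|) = 0 := by
      apply Finset.sum_eq_zero
      intro l _
      rcases Nat.eq_zero_or_pos l with h | h
      · rw [h, h1 a b _ (by simp), zero_mul]
      · have h2 : (1 : ℝ) ≤ l := by exact_mod_cast h
        have h3 : (I : ℝ) * σ < 0 := mul_neg_of_pos_of_neg hI' hσ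
        have h4 : 1 ≤ |(I : ℝ) * σ - l| := by
          rw [le_abs]
          right
          linarith
        rw [max_eq_left (by linarith), mul_zero]
    rw [e2, h1 x x' σ (by simp [hσ.le]), sub_zero, abs_zero]
    split_ifs
    · exact hε.le
    · exact le_refl _
  · rw [appg_tri I _ (fun l => F a b ((l : ℝ) / I)) hLz σ hσ]
    have hs : 0 ≤ (I : ℝ) * σ := by positivity
    have g1 := Nat.floor_le hs
    have g2 := Nat.lt_floor_add_one ((I : ℝ) * σ)
    set m := ⌊(I : ℝ) * σ⌋₊ with hm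
    have hf0 : 0 ≤ (I : ℝ) * σ - m := by linarith
    have hf1 : 0 ≤ 1 - ((I : ℝ) * σ - m) := by linarith
    by_cases hcase : c0 / 2 ≤ x ∧ c0 / 2 ≤ x' ∧ |σ| ≤ B + 1
    · rw [if_pos hcase]
      have k1 : |x - a| < δ := by
        rw [abs_of_pos (by linarith)]
        refine lt_of_le_of_lt hi2 (lt_of_le_of_lt ?_ hId)
        exact div_le_div_of_nonneg_right (by linarith) hI'.le
      have k2 : |x' - b| < δ := by
        rw [abs_of_pos (by linarith)]
        refine lt_of_le_of_lt hj2 (lt_of_le_of_lt ?_ hId)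
        exact div_le_div_of_nonneg_right (by linarith) hI'.le
      have k0 : 1 / (I : ℝ) < δ := lt_of_le_of_lt (div_le_div_of_nonneg_right (by linarith) hI'.le) hId
      have k3 : |σ - (m : ℝ) / I| < δ := by
        refine lt_of_le_of_lt ?_ k0
        rw [abs_le, neg_le_iff_add_nonneg]
        have q1 : σ = (I * σ) / I := by field_simp
        constructor
        · have : σ - (m : ℝ) / I + 1 / I = (I * σ - m + 1) / I := by
            field_simp
          rw [this]
          exact div_nonneg (by linarith) hI'.le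
        · rw [sub_le_iff_le_add, ← add_div, le_div_iff₀ hI']
          linarith
      have k4 : |σ - ((m + 1 : ℕ) : ℝ) / I| < δ := by
        refine lt_of_le_of_lt ?_ k0
        push_cast
        rw [abs_le, neg_le_iff_add_nonneg]
        constructor
        · have : σ - ((m : ℝ) + 1) / I + 1 / I = (I * σ - m) / I := by
            field_simp
            ring
          rw [this]
          exact div_nonneg (by linarith) hI'.le
        · rw [sub_le_iff_le_add, ← add_div, le_div_iff₀ hI']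
          linarith
      have k5 : |F x x' σ - F a b ((m : ℝ) / I)| ≤ ε := by
        have := hδF (a := (x, x', σ)) (b := (a, b, (m : ℝ) / I))
          (by
            rw [Prod.dist_eq, Prod.dist_eq]
            exact max_lt k1 (max_lt k2 k3))
        exact this.le
      have k6 : |F x x' σ - F a b (((m + 1 : ℕ) : ℝ) / I)| ≤ ε := by
        have := hδF (a := (x, x', σ)) (b := (a, b, ((m + 1 : ℕ) : ℝ) / I))
          (by
            rw [Prod.dist_eq, Prod.dist_eq]
            exact max_lt k1 (max_lt k2 k4))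
        exact this.le
      have k7 : F x x' σ - (F a b ((m : ℝ) / I) * (1 - ((I : ℝ) * σ - m)) +
          F a b (((m + 1 : ℕ) : ℝ) / I) * ((I : ℝ) * σ - m)) =
          (F x x' σ - F a b ((m : ℝ) / I)) * (1 - ((I : ℝ) * σ - m)) +
          (F x x' σ - F a b (((m + 1 : ℕ) : ℝ) / I)) * ((I : ℝ) * σ - m) := by ring
      show |F x x' σ - (F a b ((m : ℝ) / I) * (1 - ((I : ℝ) * σ - m)) +
          F a b (((m + 1 : ℕ) : ℝ) / I) * ((I : ℝ) * σ - m))| ≤ ε
      rw [k7]
      refine (abs_add_le _ _).trans ?_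
      rw [abs_mul, abs_mul, abs_of_nonneg hf1, abs_of_nonneg hf0]
      nlinarith
    · rw [if_neg hcase]
      have z1 : F x x' σ = 0 ∧ F a b ((m : ℝ) / I) = 0 ∧ F a b (((m + 1 : ℕ) : ℝ) / I) = 0 := by
        rcases lt_or_ge x (c0 / 2) with h | h
        · exact ⟨h1 _ _ _ (Or.inl (by linarith)), h1 _ _ _ (Or.inl (by linarith)),
            h1 _ _ _ (Or.inl (by linarith))⟩
        rcases lt_or_ge x' (c0 / 2) with h' | h'
        · exact ⟨h1 _ _ _ (Or.inr (Or.inl (by linarith))), h1 _ _ _ (Or.inr (Or.inl (by linarith))),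
            h1 _ _ _ (Or.inr (Or.inl (by linarith)))⟩
        have h'' : B + 1 < σ := by
          by_contra hne
          apply hcase
          refine ⟨h, h', ?_⟩
          rw [abs_of_nonneg hσ]
          linarith
        have h3 : B ≤ (m : ℝ) / I := by
          rw [le_div_iff₀ hI']
          nlinarith
        have h4 : B ≤ ((m + 1 : ℕ) : ℝ) / I := by
          push_cast
          rw [le_div_iff₀ hI']
          rw [le_div_iff₀ hI'] at h3
          linarith
        refine ⟨h1 _ _ _ ?_, h1 _ _ _ ?_, h1 _ _ _ ?_⟩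
        · exact Or.inr (Or.inr (Or.inr (Or.inr (Or.inr (by linarith)))))
        · exact Or.inr (Or.inr (Or.inr (Or.inr (Or.inr h3))))
        · exact Or.inr (Or.inr (Or.inr (Or.inr (Or.inr h4))))
      show |F x x' σ - (F a b ((m : ℝ) / I) * (1 - ((I : ℝ) * σ - m)) +
          F a b (((m + 1 : ℕ) : ℝ) / I) * ((I : ℝ) * σ - m))| ≤ 0
      rw [z1.1, z1.2.1, z1.2.2]
      simp

end Pool.Agent.OmEq

end
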