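import Pool.Agent.Lib_MP_92ef0c_m.M01
import Pool.Agent.Lib_MP_92ef0c_m.M02
import Pool.Agent.Lib_MP_92ef0c_m.M04

/-!
# MP_92ef0c_nt, split pairs: merged library part M05

Concatenation of smaller files (each in its own section), only to save build time.
-/

/-! ### from `Lib_MP_f1a94e_mr.VdC` -/

section

/-!
# Piece VDC: the Weyl - van der Corput inequality
-/

set_option autoImplicit false

namespace Pool.Agent.GaussMR

theorem vdc_norm_ee (x : ℝ) : ‖ee x‖ = 1 := by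
  unfold ee
  rw [show 2 * (Real.pi : ℂ) * x * Complex.I = ((2 * Real.pi * x : ℝ) : ℂ) * Complex.I by push_cast; ring]
  exact Complex.norm_exp_ofReal_mul_I _

theorem vdc_ee_mul_conj (x y : ℝ) : ee x * (starRingEnd ℂ) (ee y) = ee (x - y) := by
  unfold ee
  rw [← Complex.exp_conj, ← Complex.exp_add]
  congr 1
  simp only [map_mul, Complex.conj_ofReal, Complex.conj_I, map_ofNat]
  push_cast
  ring

theorem vdc_sum_shift (f : ℤ → ℂ) (p q c d h : ℤ) (hc : p + h ≤ c) (hd : d ≤ q + h)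
    (hf : ∀ n, ¬ (c ≤ n ∧ n ≤ d) → f n = 0) :
    ∑ m ∈ Finset.Icc p q, f (m + h) = ∑ n ∈ Finset.Icc c d, f n := by
  have e : ∑ m ∈ Finset.Icc p q, f (m + h) = ∑ n ∈ (Finset.Icc p q).image (fun m => m + h), f n := by
    rw [Finset.sum_image]
    intro x _ y _ hxy
    exact add_right_cancel hxy
  rw [e]
  symm
  apply Finset.sum_subset
  · intro n hn
    rw [Finset.mem_Icc] at hn
    rw [Finset.mem_image]
    exact ⟨n - h, Finset.mem_Icc.mpr ⟨by omega, by omega⟩, by ring⟩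
  · intro n _ hn
    apply hf
    rwa [Finset.mem_Icc] at hn

/-- With `N = b - a + 1`: `H S = ∑_{m} ∑_{h < H} x_(m + h)` (`x` extended by zero), Cauchy-Schwarz over
the `N + H - 1 ≤ 2 N` values of `m`, and collect the pairs with difference `h`:
`|S|² ≤ ((N + H - 1) / H²) (H N + 2 ∑_{h=1}^{H-1} (H - h) |S_h|) ≤ 2 N² / H + 4 N M`. -/
theorem vdC (φ : ℤ → ℝ) (a b : ℤ) (hab : a ≤ b) (H : ℕ) (hH : 1 ≤ H) (hH' : (H : ℤ) ≤ b - a + 1)
    (M : ℝ) (hM0 : 0 ≤ M)
    (hM : ∀ h : ℕ, 1 ≤ h → h < H → ‖∑ n ∈ Finset.Icc a (b - h), ee (φ (n + h) - φ n)‖ ≤ M) :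
    ‖∑ n ∈ Finset.Icc a b, ee (φ n)‖ ^ 2 ≤
      2 * ((b : ℝ) - a + 1) ^ 2 / H + 4 * ((b : ℝ) - a + 1) * M := by
  set x : ℤ → ℂ := fun n => if a ≤ n ∧ n ≤ b then ee (φ n) else 0 with hx
  set I : Finset ℤ := Finset.Icc (a - (H : ℤ) + 1) b with hI
  set S : ℂ := ∑ n ∈ Finset.Icc a b, ee (φ n) with hS
  set N : ℝ := (b : ℝ) - a + 1 with hN
  have hab' : (a : ℝ) ≤ b := by exact_mod_cast hab
  have hH0 : (0 : ℝ) < H := by exact_mod_cast hH
  have hN1 : 1 ≤ N := by linarith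
  have hHN : (H : ℝ) ≤ N := by
    have : ((H : ℤ) : ℝ) ≤ ((b - a + 1 : ℤ) : ℝ) := by exact_mod_cast hH'
    push_cast at this
    linarith
  have hxS : ∑ n ∈ Finset.Icc a b, x n = S := by
    rw [hS]
    apply Finset.sum_congr rfl
    intro n hn
    rw [Finset.mem_Icc] at hn
    rw [hx]
    simp only [hn, and_self, if_true]
  have h1 : ∀ h ∈ Finset.range H, ∑ m ∈ I, x (m + h) = S := by
    intro h hh
    rw [Finset.mem_range] at hh
    rw [hI, vdc_sum_shift x (a - (H : ℤ) + 1) b a b h (by omega) (by omega), hxS]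
    intro n hn
    rw [hx]
    simp only [hn, if_false]
  set c : ℕ → ℕ → ℂ := fun h h' => ∑ m ∈ I, x (m + h) * (starRingEnd ℂ) (x (m + h')) with hc
  have hcardI : (I.card : ℝ) ≤ 2 * N := by
    rw [hI, Int.card_Icc]
    have h2 : ((b + 1 - (a - (H : ℤ) + 1)).toNat : ℤ) = b + 1 - (a - (H : ℤ) + 1) :=
      Int.toNat_of_nonneg (by omega)
    have h3 : (((b + 1 - (a - (H : ℤ) + 1)).toNat : ℤ) : ℝ) = ((b + 1 - (a - (H : ℤ) + 1) : ℤ) : ℝ) := by
      rw [h2]
    push_cast at h3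
    have h4 : (((b + 1 - (a - (H : ℤ) + 1)).toNat : ℕ) : ℝ) = b + 1 - (a - H + 1) := by
      exact_mod_cast h3
    rw [h4]
    linarith
  have hclt : ∀ h h' : ℕ, h' < h → h < H → ‖c h h'‖ ≤ M := by
    intro h h' hlt hh
    obtain ⟨k, rfl⟩ : ∃ k, h = h' + k := ⟨h - h', by omega⟩
    have hk1 : 1 ≤ k := by omega
    have e : c (h' + k) h' = ∑ n ∈ Finset.Icc a (b - k), ee (φ (n + k) - φ n) := by
      rw [hc]
      simp only
      have e1 : ∀ m : ℤ, x (m + ((h' + k : ℕ) : ℤ)) * (starRingEnd ℂ) (x (m + h')) =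
          (fun n : ℤ => x (n + k) * (starRingEnd ℂ) (x n)) (m + h') := by
        intro m
        simp only
        rw [show m + ((h' + k : ℕ) : ℤ) = m + h' + k by push_cast; ring]
      rw [Finset.sum_congr rfl (fun m _ => e1 m), hI,
        vdc_sum_shift (fun n : ℤ => x (n + k) * (starRingEnd ℂ) (x n)) (a - (H : ℤ) + 1) b a (b - k) h'
          (by omega) (by omega)]
      · apply Finset.sum_congr rfl
        intro n hn
        rw [Finset.mem_Icc] at hn
        have t1 : x (n + k) = ee (φ (n + k)) := by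
          rw [hx]
          simp only
          rw [if_pos ⟨by omega, by omega⟩]
        have t2 : x n = ee (φ n) := by
          rw [hx]
          simp only
          rw [if_pos ⟨by omega, by omega⟩]
        rw [t1, t2, vdc_ee_mul_conj]
      · intro n hn
        by_cases hna : a ≤ n
        · have : x (n + k) = 0 := by
            rw [hx]
            simp only
            rw [if_neg]
            rintro ⟨_, h6⟩
            exact hn ⟨hna, by omega⟩
          rw [this, zero_mul]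
        · have : x n = 0 := by
            rw [hx]
            simp only
            rw [if_neg]
            rintro ⟨h6, _⟩
            exact hna h6
          rw [this, map_zero, mul_zero]
    rw [e]
    exact hM k hk1 (by omega)
  have hcsymm : ∀ h h' : ℕ, ‖c h h'‖ = ‖c h' h‖ := by
    intro h h'
    have : c h h' = (starRingEnd ℂ) (c h' h) := by
      rw [hc]
      simp only [map_sum, map_mul, Complex.conj_conj]
      apply Finset.sum_congr rfl
      intro m _
      rw [mul_comm]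
    rw [this, Complex.norm_conj]
  have hceq : ∀ h : ℕ, h < H → ‖c h h‖ ≤ N := by
    intro h hh
    have e : c h h = ∑ n ∈ Finset.Icc a b, x n * (starRingEnd ℂ) (x n) := by
      rw [hc]
      simp only
      rw [hI, vdc_sum_shift (fun n : ℤ => x n * (starRingEnd ℂ) (x n)) (a - (H : ℤ) + 1) b a b h
          (by omega) (by omega)]
      intro n hn
      have : x n = 0 := by
        rw [hx]
        simp only [hn, if_false]
      rw [this, zero_mul]
    rw [e]
    refine (norm_sum_le _ _).trans ?_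
    have : ∀ n ∈ Finset.Icc a b, ‖x n * (starRingEnd ℂ) (x n)‖ ≤ 1 := by
      intro n hn
      rw [Finset.mem_Icc] at hn
      have t2 : x n = ee (φ n) := by
        rw [hx]
        simp only
        rw [if_pos hn]
      rw [t2, norm_mul, Complex.norm_conj, vdc_norm_ee, one_mul]
    refine (Finset.sum_le_sum this).trans ?_
    rw [Finset.sum_const, Int.card_Icc, nsmul_eq_mul, mul_one]
    have h2 : ((b + 1 - a).toNat : ℤ) = b + 1 - a := Int.toNat_of_nonneg (by omega)
    have h3 : (((b + 1 - a).toNat : ℤ) : ℝ) = ((b + 1 - a : ℤ) : ℝ) := by rw [h2]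
    push_cast at h3
    linarith
  have key : ((∑ m ∈ I, ‖∑ h ∈ Finset.range H, x (m + h)‖ ^ 2 : ℝ) : ℂ) =
      ∑ h ∈ Finset.range H, ∑ h' ∈ Finset.range H, c h h' := by
    push_cast
    have e1 : ∀ m : ℤ, ((‖∑ h ∈ Finset.range H, x (m + h)‖ : ℂ)) ^ 2 =
        ∑ h ∈ Finset.range H, ∑ h' ∈ Finset.range H, x (m + h) * (starRingEnd ℂ) (x (m + h')) := by
      intro m
      rw [← Complex.mul_conj', map_sum, Finset.sum_mul_sum]
    rw [Finset.sum_congr rfl (fun m _ => e1 m), Finset.sum_comm]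
    apply Finset.sum_congr rfl
    intro h _
    rw [Finset.sum_comm]
  have hsum : ∑ m ∈ I, ‖∑ h ∈ Finset.range H, x (m + h)‖ ^ 2 ≤ H * N + H ^ 2 * M := by
    have e1 : ∑ m ∈ I, ‖∑ h ∈ Finset.range H, x (m + h)‖ ^ 2 =
        ‖∑ h ∈ Finset.range H, ∑ h' ∈ Finset.range H, c h h'‖ := by
      rw [← key, Complex.norm_real, Real.norm_eq_abs, abs_of_nonneg]
      exact Finset.sum_nonneg fun m _ => sq_nonneg _
    rw [e1]
    have e2 : ∀ h ∈ Finset.range H, ∀ h' ∈ Finset.range H, ‖c h h'‖ ≤ (if h = h' then N else 0) + M := by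
      intro h hh h' hh'
      rw [Finset.mem_range] at hh hh'
      rcases lt_trichotomy h h' with hlt | rfl | hlt
      · rw [hcsymm, if_neg (by omega), zero_add]
        exact hclt h' h hlt hh'
      · rw [if_pos rfl]
        linarith [hceq h hh]
      · rw [if_neg (by omega), zero_add]
        exact hclt h h' hlt hh
    calc ‖∑ h ∈ Finset.range H, ∑ h' ∈ Finset.range H, c h h'‖
        ≤ ∑ h ∈ Finset.range H, ∑ h' ∈ Finset.range H, ((if h = h' then N else 0) + M) := by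
          refine (norm_sum_le _ _).trans (Finset.sum_le_sum fun h hh => ?_)
          exact (norm_sum_le _ _).trans (Finset.sum_le_sum fun h' hh' => e2 h hh h' hh')
      _ = H * N + H ^ 2 * M := by
          have : ∀ h ∈ Finset.range H, ∑ h' ∈ Finset.range H, ((if h = h' then N else 0) + M) =
              N + H * M := by
            intro h hh
            rw [Finset.sum_add_distrib, Finset.sum_ite_eq, if_pos hh, Finset.sum_const,
              Finset.card_range, nsmul_eq_mul]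
          rw [Finset.sum_congr rfl this, Finset.sum_const, Finset.card_range, nsmul_eq_mul]
          ring
  have hHS : (H : ℂ) * S = ∑ m ∈ I, ∑ h ∈ Finset.range H, x (m + h) := by
    rw [Finset.sum_comm, Finset.sum_congr rfl h1, Finset.sum_const, Finset.card_range, nsmul_eq_mul]
  have hCS : (H : ℝ) ^ 2 * ‖S‖ ^ 2 ≤ 2 * N * (H * N + H ^ 2 * M) := by
    calc (H : ℝ) ^ 2 * ‖S‖ ^ 2 = ‖(H : ℂ) * S‖ ^ 2 := by
          rw [norm_mul, Complex.norm_natCast]
          ring
      _ = ‖∑ m ∈ I, ∑ h ∈ Finset.range H, x (m + h)‖ ^ 2 := by rw [hHS]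
      _ ≤ (∑ m ∈ I, ‖∑ h ∈ Finset.range H, x (m + h)‖) ^ 2 := by
          gcongr
          exact norm_sum_le _ _
      _ ≤ I.card * ∑ m ∈ I, ‖∑ h ∈ Finset.range H, x (m + h)‖ ^ 2 := sq_sum_le_card_mul_sum_sq
      _ ≤ 2 * N * (H * N + H ^ 2 * M) := by gcongr
  have hfin : ‖S‖ ^ 2 ≤ 2 * N ^ 2 / H + 2 * N * M := by
    have h5 : 2 * N ^ 2 / H + 2 * N * M = (2 * N * (H * N + H ^ 2 * M)) / H ^ 2 := by
      field_simp
    rw [h5, le_div_iff₀ (by positivity)]
    linarith
  have : 0 ≤ N * M := by positivity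
  linarith

end Pool.Agent.GaussMR

end

/-! ### from `Lib_MP_f1a94e_ecm.DTRD` -/

section

/-!
# Derivative tests: definition
-/

set_option autoImplicit false

namespace Pool.Agent.ECM

open Finset Pool.Agent.GaussMR
open scoped ContDiff

/-- the `q`-th derivative test with parameters `β, ρ, η, C` (the old `DTest q β η C` is the case `ρ = 1 / 100`) -/
def DTR (q : ℕ) (β ρ η C : ℝ) : Prop :=
  ∀ (f : ℝ → ℝ), ContDiff ℝ ∞ f → ∀ (a b : ℤ) (L lam Lam : ℝ), a ≤ b → 1 ≤ L → (b : ℝ) - a ≤ L →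
    L ^ (-(7 / 4 : ℝ)) ≤ lam → lam ≤ Lam → Lam ≤ L ^ (-β) → Lam ≤ lam * L ^ ρ →
    (∀ x ∈ Set.Icc (a : ℝ) b, lam ≤ iteratedDeriv q f x ∧ iteratedDeriv q f x ≤ Lam) →
    ‖∑ n ∈ Finset.Icc a b, ee (f n)‖ ≤ C * L ^ (1 - η)

/-- the statement of `dtr_all` (DTwoG.lean) -/
def DTRAll (Q : ℕ) : Prop := ∃ β ρ η C : ℝ, 0 < β ∧ (2 : ℝ) ^ Q * β ≤ 1 / 2 ∧ 0 < ρ ∧ ρ ≤ β ∧ 0 < η ∧ η ≤ 1 / 2 ∧ 0 < C ∧
    ∀ q : ℕ, 2 ≤ q → q ≤ Q → DTR q ((2 : ℝ) ^ (q - 2) * β) ρ η C

end Pool.Agent.ECM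

end

/-! ### from `Lib_MP_92ef0c_spi.Mert` -/

section

/-!
# Piece I-MERT: Mertens theorem
-/

set_option autoImplicit false

namespace Pool.Agent.SplI

open Finset

private theorem mertAll_log : ∃ C : ℝ, ∀ x : ℝ, 2 ≤ x →
    |∑ p ∈ (Finset.Icc 1 ⌊x⌋₊).filter (fun p => p.Prime), Real.log p / p - Real.log x| ≤ C := by
  obtain ⟨C1, h1⟩ := Pool.Agent.GaussMR.mert_one
  obtain ⟨C3, h3⟩ := Pool.Agent.GaussMR.mertensA_powers
  refine ⟨C1 + C3 + Real.log 2, fun x hx => ?_⟩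
  set N := ⌊x⌋₊ with hN
  have hN1 : 1 ≤ N := by
    rw [hN, Nat.one_le_floor_iff]
    linarith
  have hNpos : (0 : ℝ) < N := by exact_mod_cast hN1
  have k1 := h1 N hN1
  have k3 := h3 N
  set S1 := ∑ n ∈ Finset.Icc 1 N, ArithmeticFunction.vonMangoldt n / (n : ℝ) with hS1
  set T := ∑ n ∈ Finset.Icc 1 N,
    (if n.Prime then 0 else ArithmeticFunction.vonMangoldt n) / (n : ℝ) with hT
  set A := ∑ p ∈ (Finset.Icc 1 N).filter (fun p => p.Prime), Real.log p / p with hA
  have hlog : |Real.log N - Real.log x| ≤ Real.log 2 := by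
    have a1 : (N : ℝ) ≤ x := Nat.floor_le (by linarith)
    have a2 : x ≤ 2 * N := by
      have := Nat.lt_floor_add_one x
      rw [← hN] at this
      have : (1 : ℝ) ≤ N := by exact_mod_cast hN1
      linarith
    have b1 := Real.log_le_log hNpos a1
    have b2 := Real.log_le_log (by linarith) a2
    rw [Real.log_mul (by norm_num) hNpos.ne'] at b2
    rw [abs_le]
    constructor <;> linarith [Real.log_nonneg (by norm_num : (1 : ℝ) ≤ 2)]
  have hT0 : 0 ≤ T := by
    rw [hT]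
    refine Finset.sum_nonneg fun n _ => ?_
    split_ifs
    · simp
    · exact div_nonneg ArithmeticFunction.vonMangoldt_nonneg n.cast_nonneg
  have hS : S1 = A + T := by
    rw [hS1, hA, hT, Finset.sum_filter, ← Finset.sum_add_distrib]
    refine Finset.sum_congr rfl fun n _ => ?_
    by_cases hp : n.Prime
    · rw [if_pos hp, if_pos hp, zero_div, add_zero, ArithmeticFunction.vonMangoldt_apply_prime hp]
    · rw [if_neg hp, if_neg hp, zero_add]
  rw [abs_le] at k1 hlog ⊢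
  constructor <;> linarith [k1.1, k1.2, hlog.1, hlog.2]

open MeasureTheory in
/-- partial summation from `mertAll_log` -/
private theorem mertAll : ∃ C : ℝ, ∀ x : ℝ, 2 ≤ x →
    |∑ p ∈ (Finset.Icc 1 ⌊x⌋₊).filter (fun p => p.Prime), (1 : ℝ) / p -
      Real.log (Real.log x)| ≤ C := by
  classical
  obtain ⟨C, hC⟩ := mertAll_log
  have hC0 : 0 ≤ C := (abs_nonneg _).trans (hC 2 le_rfl)
  have hl2 : 0 < Real.log 2 := Real.log_pos one_lt_two
  let c : ℕ → ℝ := fun n => if n.Prime then Real.log n / n else 0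
  have hc0 : c 0 = 0 := by simp [c]
  have hc1 : c 1 = 0 := by simp [c, Nat.not_prime_one]
  have hA : ∀ t : ℝ, ∑ k ∈ Finset.Icc 0 ⌊t⌋₊, c k =
      ∑ p ∈ (Finset.Icc 1 ⌊t⌋₊).filter (fun p => p.Prime), Real.log p / p := by
    intro t
    rw [Finset.sum_filter]
    symm
    refine Finset.sum_subset ?_ ?_
    · intro k hk
      rw [Finset.mem_Icc] at hk ⊢
      exact ⟨Nat.zero_le _, hk.2⟩
    · intro k hk hk'
      have h0 : k = 0 := by
        rw [Finset.mem_Icc] at hk hk'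
        omega
      subst h0
      simp
  let f : ℝ → ℝ := fun t => (Real.log t)⁻¹
  have hlogpos : ∀ t : ℝ, 2 ≤ t → 0 < Real.log t := fun t ht => Real.log_pos (by linarith)
  have hderiv : ∀ t : ℝ, 2 ≤ t → HasDerivAt f (-(t⁻¹) / (Real.log t) ^ 2) t := by
    intro t ht
    exact (Real.hasDerivAt_log (by linarith : t ≠ 0)).inv (hlogpos t ht).ne'
  have hfd : ∀ t : ℝ, 2 ≤ t → deriv f t = -(t⁻¹) / (Real.log t) ^ 2 := fun t ht =>
    (hderiv t ht).deriv
  have hcont : ∀ b : ℝ, ContinuousOn (fun t : ℝ => -(t⁻¹) / (Real.log t) ^ 2) (Set.Icc 2 b) := by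
    intro b
    refine ContinuousOn.div (ContinuousOn.neg (ContinuousOn.inv₀ continuousOn_id ?_)) ?_ ?_
    · intro t ht; have := ht.1; exact (by linarith : t ≠ 0)
    · refine ContinuousOn.pow (ContinuousOn.log continuousOn_id ?_) 2
      intro t ht; have := ht.1; exact (by linarith : t ≠ 0)
    · intro t ht; exact pow_ne_zero 2 (hlogpos t ht.1).ne'
  have hint : ∀ b : ℝ, IntegrableOn (deriv f) (Set.Icc 2 b) := by
    intro b
    refine IntegrableOn.congr_fun ((hcont b).integrableOn_Icc) ?_ measurableSet_Icc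
    intro t ht
    exact (hfd t ht.1).symm
  refine ⟨1 + C / Real.log 2 + C / Real.log 2 + |Real.log (Real.log 2)|, ?_⟩
  intro x hx
  have hlx := hlogpos x hx
  have hAbel := sum_mul_eq_sub_integral_mul₁ c (f := f) hc0 hc1 x
    (fun t ht => (hderiv t ht.1).differentiableAt) (hint x)
  have hL : ∑ k ∈ Finset.Icc 0 ⌊x⌋₊, f k * c k =
      ∑ p ∈ (Finset.Icc 1 ⌊x⌋₊).filter (fun p => p.Prime), (1 : ℝ) / p := by
    rw [Finset.sum_filter]
    symm
    refine Finset.sum_subset_zero_on_sdiff (f := fun a : ℕ => if a.Prime then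
      (1 : ℝ) / a else 0) (g := fun k : ℕ => f k * c k) ?_ ?_ ?_
    · intro k hk
      rw [Finset.mem_Icc] at hk ⊢
      exact ⟨Nat.zero_le _, hk.2⟩
    · intro k hk
      rw [Finset.mem_sdiff, Finset.mem_Icc, Finset.mem_Icc] at hk
      have h0 : k = 0 := by omega
      subst h0
      simp [c]
    · intro k hk
      rw [Finset.mem_Icc] at hk
      simp only [c, f]
      split_ifs with hp
      · have h2 : (2 : ℝ) ≤ k := by exact_mod_cast hp.two_le
        have h3 := (hlogpos k h2).ne'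
        field_simp
      · simp
  have hAint : IntegrableOn (fun t => deriv f t * ∑ k ∈ Finset.Icc 0 ⌊t⌋₊, c k) (Set.Ioc 2 x) :=
    (integrableOn_mul_sum_Icc c (by norm_num : (0 : ℝ) ≤ 2) (hint x)).mono_set
      Set.Ioc_subset_Icc_self
  have hfint : IntegrableOn (deriv f) (Set.Ioc 2 x) := (hint x).mono_set Set.Ioc_subset_Icc_self
  have hgcont : ContinuousOn (fun t : ℝ => (t⁻¹) / Real.log t) (Set.Icc 2 x) := by
    refine ContinuousOn.div (ContinuousOn.inv₀ continuousOn_id ?_) ?_ ?_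
    · intro t ht; have := ht.1; exact (by linarith : t ≠ 0)
    · refine ContinuousOn.log continuousOn_id ?_
      intro t ht; have := ht.1; exact (by linarith : t ≠ 0)
    · intro t ht; exact (hlogpos t ht.1).ne'
  have hgint : IntegrableOn (fun t : ℝ => (t⁻¹) / Real.log t) (Set.Ioc 2 x) :=
    hgcont.integrableOn_Icc.mono_set Set.Ioc_subset_Icc_self
  have hgval : ∫ t in Set.Ioc 2 x, (t⁻¹) / Real.log t =
      Real.log (Real.log x) - Real.log (Real.log 2) := by
    rw [← intervalIntegral.integral_of_le hx]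
    refine intervalIntegral.integral_eq_sub_of_hasDerivAt_of_le
      (f := fun t => Real.log (Real.log t)) (f' := fun t : ℝ => (t⁻¹) / Real.log t) hx ?_ ?_ ?_
    · refine ContinuousOn.log (ContinuousOn.log continuousOn_id ?_) ?_
      · intro t ht; have := ht.1; exact (by linarith : t ≠ 0)
      · intro t ht; exact (hlogpos t ht.1).ne'
    · intro t ht
      exact (Real.hasDerivAt_log (by have := ht.1; linarith : t ≠ 0)).log
        (hlogpos t ht.1.le).ne'
    · rw [intervalIntegrable_iff_integrableOn_Icc_of_le hx]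
      exact hgcont.integrableOn_Icc
  have hfval : ∫ t in Set.Ioc 2 x, deriv f t = (Real.log x)⁻¹ - (Real.log 2)⁻¹ := by
    rw [← intervalIntegral.integral_of_le hx]
    refine intervalIntegral.integral_eq_sub_of_hasDerivAt_of_le
      (f := f) (f' := deriv f) hx ?_ ?_ ?_
    · intro t ht
      exact (hderiv t ht.1).continuousAt.continuousWithinAt
    · intro t ht
      have := hderiv t ht.1.le
      rw [hfd t ht.1.le]
      exact this
    · rw [intervalIntegrable_iff_integrableOn_Icc_of_le hx]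
      exact hint x
  have hpt : ∀ t ∈ Set.Ioc (2 : ℝ) x,
      |deriv f t * ∑ k ∈ Finset.Icc 0 ⌊t⌋₊, c k - (-1 * ((t⁻¹) / Real.log t))| ≤
        -(C * deriv f t) := by
    intro t ht
    have ht2 : 2 ≤ t := ht.1.le
    have hlt := hlogpos t ht2
    have htp : 0 < t := by linarith
    have h1 := hC t ht2
    rw [← hA t] at h1
    have h2 : deriv f t ≤ 0 := by
      rw [hfd t ht2]
      exact div_nonpos_of_nonpos_of_nonneg (by have := inv_pos.mpr htp; linarith) (by positivity)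
    have h3 : (-1 * ((t⁻¹) / Real.log t)) = deriv f t * (Real.log t) := by
      rw [hfd t ht2]
      field_simp
    rw [h3, ← mul_sub, abs_mul, abs_of_nonpos h2]
    calc -deriv f t * |∑ k ∈ Finset.Icc 0 ⌊t⌋₊, c k - Real.log t|
        ≤ -deriv f t * C := mul_le_mul_of_nonneg_left h1 (by linarith)
      _ = -(C * deriv f t) := by ring
  have hI : |(∫ t in Set.Ioc 2 x, deriv f t * ∑ k ∈ Finset.Icc 0 ⌊t⌋₊, c k) -
      (-1 * (Real.log (Real.log x) - Real.log (Real.log 2)))| ≤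
      C * ((Real.log 2)⁻¹ - (Real.log x)⁻¹) := by
    rw [← hgval, ← integral_const_mul, ← integral_sub hAint (hgint.const_mul _)]
    calc |∫ t in Set.Ioc 2 x, (deriv f t * ∑ k ∈ Finset.Icc 0 ⌊t⌋₊, c k -
          -1 * ((t⁻¹) / Real.log t))|
        ≤ ∫ t in Set.Ioc 2 x, |deriv f t * ∑ k ∈ Finset.Icc 0 ⌊t⌋₊, c k -
          -1 * ((t⁻¹) / Real.log t)| := abs_integral_le_integral_abs
      _ ≤ ∫ t in Set.Ioc 2 x, -(C * deriv f t) := by
          refine setIntegral_mono_on ?_ ?_ measurableSet_Ioc hpt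
          · exact (hAint.sub (hgint.const_mul _)).abs
          · exact (hfint.const_mul C).neg
      _ = C * ((Real.log 2)⁻¹ - (Real.log x)⁻¹) := by
          rw [integral_neg, integral_const_mul, hfval]; ring
  have hE := hC x hx
  rw [← hA x] at hE
  rw [← hL, hAbel]
  have hfx : f x = (Real.log x)⁻¹ := rfl
  have h4 : |f x * ∑ k ∈ Finset.Icc 0 ⌊x⌋₊, c k - 1| ≤ C / Real.log 2 := by
    have h5 : f x * ∑ k ∈ Finset.Icc 0 ⌊x⌋₊, c k - 1 =
        f x * (∑ k ∈ Finset.Icc 0 ⌊x⌋₊, c k - Real.log x) := by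
      rw [hfx]; field_simp
    rw [h5, abs_mul, hfx, abs_of_pos (inv_pos.mpr hlx)]
    calc (Real.log x)⁻¹ * |∑ k ∈ Finset.Icc 0 ⌊x⌋₊, c k - Real.log x|
        ≤ (Real.log 2)⁻¹ * C := by
          refine mul_le_mul ?_ hE (abs_nonneg _) (inv_pos.mpr hl2).le
          exact inv_anti₀ hl2 (Real.log_le_log (by norm_num) hx)
      _ = C / Real.log 2 := by rw [div_eq_mul_inv]; ring
  have h6 : C * ((Real.log 2)⁻¹ - (Real.log x)⁻¹) ≤ C / Real.log 2 := by
    rw [div_eq_mul_inv]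
    refine mul_le_mul_of_nonneg_left ?_ hC0
    have := inv_pos.mpr hlx
    linarith
  have h7 := hI.trans h6
  have h8 := le_abs_self (Real.log (Real.log 2))
  have h9 := neg_abs_le (Real.log (Real.log 2))
  rw [abs_le] at h4 h7 ⊢
  constructor <;> linarith [h4.1, h4.2, h7.1, h7.2]

/-- `mert_one` (Lib_MP_f1a94e_mr/MertensA.lean: `∑_(n ≤ N) Λ(n)/n = log N + O(1)`), prime powers `O(1)` (`mertensA_powers`), then partial summation exactly as `mertens`, `Ls_bounds` in MertensB.lean. -/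
theorem Lr_bounds : ∃ C : ℝ, 0 < C ∧ ∀ P Q : ℝ, 2 ≤ P → P ≤ Q →
    |Lr P Q - (Real.log (Real.log Q) - Real.log (Real.log P))| ≤ C := by
  classical
  obtain ⟨C, hC⟩ := mertAll
  have hC0 : 0 ≤ C := (abs_nonneg _).trans (hC 2 le_rfl)
  refine ⟨2 * C + 1, by linarith, ?_⟩
  intro P Q hP hPQ
  have hsplit : ∑ p ∈ (Finset.Icc 1 ⌊Q⌋₊).filter (fun p => p.Prime), (1 : ℝ) / p =
      ∑ p ∈ (Finset.Icc 1 ⌊P⌋₊).filter (fun p => p.Prime), (1 : ℝ) / p + Lr P Q := by
    unfold Lr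
    rw [← Finset.sum_union]
    · refine Finset.sum_congr ?_ fun _ _ => rfl
      have hfl : ⌊P⌋₊ ≤ ⌊Q⌋₊ := Nat.floor_le_floor hPQ
      ext p
      simp only [PrI, Finset.mem_filter, Finset.mem_Icc, Finset.mem_union]
      constructor
      · rintro ⟨⟨h1, h2⟩, h3⟩
        by_cases h5 : p ≤ ⌊P⌋₊
        · exact Or.inl ⟨⟨h1, h5⟩, h3⟩
        · refine Or.inr ⟨⟨h1, h2⟩, h3, ?_⟩
          exact (Nat.floor_lt (by linarith)).1 (by omega)
      · rintro (⟨⟨h1, h2⟩, h3⟩ | ⟨⟨h1, h2⟩, h3, h5⟩)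
        · exact ⟨⟨h1, by omega⟩, h3⟩
        · exact ⟨⟨h1, h2⟩, h3⟩
    · rw [Finset.disjoint_left]
      intro p hp hp'
      simp only [PrI, Finset.mem_filter, Finset.mem_Icc] at hp hp'
      have h1 := (Nat.floor_lt (by linarith : (0 : ℝ) ≤ P)).2 hp'.2.2
      omega
  have h1 := hC P hP
  have h2 := hC Q (hP.trans hPQ)
  rw [hsplit] at h2
  rw [abs_le] at h1 h2 ⊢
  constructor <;> linarith [h1.1, h1.2, h2.1, h2.2]

/-- `∑_(p ≤ x) log p / p ≤ log x + C` -/
theorem mert_up : ∃ C : ℝ, 0 < C ∧ ∀ x : ℝ, 2 ≤ x → ∑ p ∈ PrI 1 x, Real.log p / (p : ℝ) ≤ Real.log x + C := by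
  classical
  obtain ⟨C, hC⟩ := mertAll_log
  have hC0 : 0 ≤ C := (abs_nonneg _).trans (hC 2 le_rfl)
  refine ⟨C + 1, by linarith, fun x hx => ?_⟩
  have h1 := (abs_le.1 (hC x hx)).2
  have h2 : ∑ p ∈ PrI 1 x, Real.log p / (p : ℝ) ≤
      ∑ p ∈ (Finset.Icc 1 ⌊x⌋₊).filter (fun p => p.Prime), Real.log p / p := by
    refine Finset.sum_le_sum_of_subset_of_nonneg ?_ fun p hp _ => ?_
    · intro p hp
      simp only [PrI, Finset.mem_filter] at hp ⊢
      exact ⟨hp.1, hp.2.1⟩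
    · rw [Finset.mem_filter] at hp
      exact div_nonneg (Real.log_nonneg (by exact_mod_cast hp.2.one_lt.le)) p.cast_nonneg
  linarith

end Pool.Agent.SplI

end

/-! ### from `Lib_MP_92ef0c_spi.RoughI` -/

section

/-!
# Piece I-ROUGH: rough numbers
-/

set_option autoImplicit false

namespace Pool.Agent.SplI

open Finset

private theorem rough_list {y : ℝ} (hy : 0 ≤ y) {n : ℕ} (hn : n ≠ 0) (hr : RoughN y n) :
    y ^ n.primeFactorsList.length ≤ (n : ℝ) := by
  have hp : ∀ p ∈ n.primeFactorsList, y ≤ (p : ℝ) := by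
    intro p hp
    exact hr p (Nat.prime_of_mem_primeFactorsList hp) (Nat.dvd_of_mem_primeFactorsList hp)
  have hgen : ∀ l : List ℕ, (∀ p ∈ l, y ≤ (p : ℝ)) → y ^ l.length ≤ ((l.prod : ℕ) : ℝ) := by
    intro l
    induction l with
    | nil => intro _; simp
    | cons q l ih =>
      intro hq
      rw [List.length_cons, List.prod_cons, pow_succ, Nat.cast_mul, mul_comm]
      exact mul_le_mul (hq q (by simp)) (ih fun p hp => hq p (by simp [hp])) (by positivity) (by positivity)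
  have h := hgen _ hp
  rwa [Nat.prod_primeFactorsList hn] at h

/-- A `Y^a`-rough `n ≤ Y` is a product of `r ≤ 1/a` primes of `[Y^a, Y]` (`Nat.primeFactorsList`), so the sum is at most `∑_(r ≤ 1/a) lam^r`, `lam = ∑_(Y^a ≤ p ≤ Y) 1/p ≤ log (1/a) + C` (`Lr_bounds`). -/
theorem rough_i (a : ℝ) (ha : 0 < a) (ha1 : a ≤ 1) : ∃ C : ℝ, 0 < C ∧ ∀ Y : ℝ, (4 : ℝ) ^ (2 / a) ≤ Y →
    open Classical in ∑ n ∈ (Icc 1 ⌊Y⌋₊).filter (RoughN (Y ^ a)), 1 / (n : ℝ) ≤ C := by
  classical
  obtain ⟨C0, hC0, hCP⟩ := Lr_bounds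
  set Lam : ℝ := |Real.log (2 / a)| + C0 with hLam
  have hLam0 : 0 ≤ Lam := by positivity
  set R : ℕ := ⌊1 / a⌋₊ with hR
  refine ⟨∑ r ∈ range (R + 1), Lam ^ r + 1, by positivity, fun Y hY => ?_⟩
  have hY16 : (16 : ℝ) ≤ Y := by
    refine le_trans ?_ hY
    have : (4 : ℝ) ^ (2 : ℝ) ≤ (4 : ℝ) ^ (2 / a) := by
      apply Real.rpow_le_rpow_of_exponent_le (by norm_num)
      rw [le_div_iff₀ ha]
      nlinarith
    have h2 : (4 : ℝ) ^ (2 : ℝ) = 16 := by norm_num
    linarith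
  have hY0 : 0 < Y := by linarith
  have hY1 : 1 < Y := by linarith
  have hYa2 : (4 : ℝ) ≤ Y ^ (a / 2) := by
    have h1 : ((4 : ℝ) ^ (2 / a)) ^ (a / 2) ≤ Y ^ (a / 2) :=
      Real.rpow_le_rpow (by positivity) hY (by positivity)
    rw [← Real.rpow_mul (by norm_num)] at h1
    have h2 : 2 / a * (a / 2) = 1 := by field_simp
    rw [h2, Real.rpow_one] at h1
    exact h1
  have hYsq : Y ^ a = Y ^ (a / 2) * Y ^ (a / 2) := by
    rw [← Real.rpow_add hY0]
    congr 1
    ring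
  have hYa4 : (16 : ℝ) ≤ Y ^ a := by rw [hYsq]; nlinarith
  set S : Finset ℕ := PrI (Y ^ a / 2) Y with hS
  set lam : ℝ := ∑ w ∈ S, 1 / (w : ℝ) with hlam
  have hlam0 : 0 ≤ lam := Finset.sum_nonneg fun w _ => by positivity
  have hlamL : lam ≤ Lam := by
    have h1 := hCP (Y ^ a / 2) Y (by linarith) (by
      have : Y ^ a ≤ Y ^ (1 : ℝ) := Real.rpow_le_rpow_of_exponent_le hY1.le ha1
      rw [Real.rpow_one] at this
      linarith)
    have h1' := (abs_le.1 h1).2
    have h1'' : lam = Lr (Y ^ a / 2) Y := rfl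
    have hlogY : 0 < Real.log Y := Real.log_pos hY1
    have h2 : a / 2 * Real.log Y ≤ Real.log (Y ^ a / 2) := by
      rw [← Real.log_rpow hY0]
      apply Real.log_le_log (by positivity)
      rw [hYsq, le_div_iff₀ (by norm_num)]
      nlinarith
    have h3 : Real.log (a / 2 * Real.log Y) ≤ Real.log (Real.log (Y ^ a / 2)) :=
      Real.log_le_log (by positivity) h2
    rw [Real.log_mul (by positivity) hlogY.ne'] at h3
    have h4 : Real.log (2 / a) = - Real.log (a / 2) := by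
      rw [← Real.log_inv, inv_div]
    have h5 := le_abs_self (Real.log (2 / a))
    rw [hLam]
    linarith
  -- the index set
  let T : Finset (Σ r : ℕ, (Fin r → ℕ)) :=
    (range (R + 1)).sigma (fun r => Fintype.piFinset (fun _ : Fin r => S))
  let g : (Σ r : ℕ, (Fin r → ℕ)) → ℕ := fun t => ∏ i, t.2 i
  have hsec : ∀ u ∈ (Icc 1 ⌊Y⌋₊).filter (RoughN (Y ^ a)), ∃ t ∈ T, g t = u := by
    intro u hu
    rw [mem_filter, mem_Icc] at hu
    obtain ⟨⟨hu1, huf⟩, hu2⟩ := hu
    have hu0 : u ≠ 0 := by omega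
    have huY : (u : ℝ) ≤ Y := (Nat.le_floor_iff' hu0).1 huf
    have hl3 := rough_list (by linarith) hu0 hu2
    refine ⟨⟨u.primeFactorsList.length, fun i => u.primeFactorsList.get i⟩, ?_, ?_⟩
    · simp only [T, mem_sigma, Fintype.mem_piFinset, mem_range]
      refine ⟨?_, ?_⟩
      · have h1 : (Y ^ a) ^ u.primeFactorsList.length ≤ Y := hl3.trans huY
        rw [← Real.rpow_natCast, ← Real.rpow_mul hY0.le] at h1
        have h2 : a * (u.primeFactorsList.length : ℝ) ≤ 1 := by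
          by_contra hcon
          push Not at hcon
          have : Y ^ (1 : ℝ) < Y ^ (a * (u.primeFactorsList.length : ℝ)) :=
            Real.rpow_lt_rpow_of_exponent_lt hY1 hcon
          rw [Real.rpow_one] at this
          linarith
        have h3 : (u.primeFactorsList.length : ℝ) ≤ 1 / a := by
          rw [le_div_iff₀ ha]; linarith
        have h4 : u.primeFactorsList.length ≤ R := Nat.le_floor h3
        omega
      · intro i
        have hmem := List.get_mem u.primeFactorsList i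
        have hpr := Nat.prime_of_mem_primeFactorsList hmem
        have hdv := Nat.dvd_of_mem_primeFactorsList hmem
        have h5 := hu2 _ hpr hdv
        have h6 : ((u.primeFactorsList.get i : ℕ) : ℝ) ≤ u := by
          exact_mod_cast Nat.le_of_dvd (by omega) hdv
        rw [hS, mem_PrI]
        exact ⟨hpr, by linarith, by linarith⟩
    · simp only [g]
      rw [← List.prod_ofFn]
      have : List.ofFn (fun i => u.primeFactorsList.get i) = u.primeFactorsList := by
        simp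
      rw [this]
      exact Nat.prod_primeFactorsList hu0
  choose! sec hsecT hsecg using hsec
  have hF0 : ∀ z : ℕ, 0 ≤ 1 / (z : ℝ) := fun z => by positivity
  have hinj : Set.InjOn sec ((Icc 1 ⌊Y⌋₊).filter (RoughN (Y ^ a)) : Finset ℕ) := by
    intro u hu v hv h
    rw [← hsecg u hu, ← hsecg v hv, h]
  calc ∑ u ∈ (Icc 1 ⌊Y⌋₊).filter (RoughN (Y ^ a)), 1 / (u : ℝ)
      = ∑ u ∈ (Icc 1 ⌊Y⌋₊).filter (RoughN (Y ^ a)), 1 / (g (sec u) : ℝ) := by
        refine Finset.sum_congr rfl fun u hu => ?_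
        rw [hsecg u hu]
    _ = ∑ t ∈ ((Icc 1 ⌊Y⌋₊).filter (RoughN (Y ^ a))).image sec, 1 / (g t : ℝ) := by
        rw [Finset.sum_image hinj]
    _ ≤ ∑ t ∈ T, 1 / (g t : ℝ) := by
        refine Finset.sum_le_sum_of_subset_of_nonneg ?_ fun t _ _ => hF0 _
        intro t ht
        rw [mem_image] at ht
        obtain ⟨u, hu, rfl⟩ := ht
        exact hsecT u hu
    _ = ∑ t ∈ T, ∏ i, 1 / (t.2 i : ℝ) := by
        refine Finset.sum_congr rfl fun t ht => ?_
        simp only [g]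
        rw [Finset.prod_div_distrib, Finset.prod_const_one]
        push_cast
        rfl
    _ = ∑ r ∈ range (R + 1), lam ^ r := by
        rw [Finset.sum_sigma]
        refine Finset.sum_congr rfl fun r _ => ?_
        have h1 := Finset.prod_univ_sum (fun _ : Fin r => S) (fun _ w => 1 / (w : ℝ))
        rw [Finset.prod_const, Finset.card_univ, Fintype.card_fin] at h1
        exact h1.symm
    _ ≤ ∑ r ∈ range (R + 1), Lam ^ r := by
        refine Finset.sum_le_sum fun r _ => pow_le_pow_left₀ hlam0 hlamL r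
    _ ≤ _ := by linarith

end Pool.Agent.SplI

end

/-! ### from `Lib_MP_92ef0c_spi.TKI` -/

section

/-!
# Piece I-TK: Turan-Kubilius
-/

set_option autoImplicit false

namespace Pool.Agent.SplI

open Finset

private theorem tki_cnt (M d : ℕ) : ∑ n ∈ Icc 1 M, (if d ∣ n then (1:ℝ) else 0) = ((M / d : ℕ) : ℝ) := by
  rw [Finset.sum_boole]
  congr 1
  have := Nat.Ioc_filter_dvd_card_eq_div M d
  rw [← this]
  congr 1

private theorem tki_om (P Q : ℝ) (n : ℕ) : omI P Q n = ∑ p ∈ PrI P Q, (if p ∣ n then (1:ℝ) else 0) := by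
  unfold omI
  rw [Finset.sum_boole]

/-- Expand the square: `∑_(n ≤ N) omI = ∑_p ⌊N/p⌋`, `∑ omI² = ∑_(p ≠ p') ⌊N/(p p')⌋ + ∑_p ⌊N/p⌋`; errors: at most `π(Q)² ≤ Q² ≤ N` and `2 L π(Q) ≤ N` (`L ≤ π(Q)`), `∑ 1/p² ≤ 1`. -/
theorem tki : ∃ C : ℝ, 0 < C ∧ ∀ P Q N : ℝ, 2 ≤ P → P ≤ Q → Q ^ 2 ≤ N →
    ∑ n ∈ Icc 1 ⌊N⌋₊, (omI P Q n - Lr P Q) ^ 2 ≤ C * N * (Lr P Q + 1) := by
  refine ⟨1, one_pos, fun P Q N hP hPQ hQN => ?_⟩
  set M := ⌊N⌋₊ with hM
  set L := Lr P Q with hL
  have hQ2 : 2 ≤ Q := hP.trans hPQ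
  have hN0 : 0 ≤ N := le_trans (sq_nonneg Q) hQN
  have hMN : (M : ℝ) ≤ N := Nat.floor_le hN0
  have hNM : N < M + 1 := Nat.lt_floor_add_one N
  have hprime : ∀ p ∈ PrI P Q, p.Prime := fun p hp => (mem_PrI.1 hp).1
  have hp2 : ∀ p ∈ PrI P Q, (2:ℝ) ≤ p := fun p hp => by exact_mod_cast (hprime p hp).two_le
  have hL0 : 0 ≤ L := by
    rw [hL]; unfold Lr
    exact Finset.sum_nonneg (fun p _ => by positivity)
  -- card bound
  have hcard : ((PrI P Q).card : ℝ) ≤ Q := by
    have h1 : (PrI P Q).card ≤ (Icc 1 ⌊Q⌋₊).card := by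
      unfold PrI
      exact Finset.card_filter_le _ _
    rw [Nat.card_Icc, Nat.add_sub_cancel] at h1
    calc ((PrI P Q).card : ℝ) ≤ (⌊Q⌋₊ : ℝ) := by exact_mod_cast h1
      _ ≤ Q := Nat.floor_le (by linarith)
  have hLc : 2 * L ≤ ((PrI P Q).card : ℝ) := by
    rw [hL]; unfold Lr
    rw [Finset.mul_sum]
    have : ∀ p ∈ PrI P Q, 2 * (1 / (p : ℝ)) ≤ 1 := by
      intro p hp
      have := hp2 p hp
      rw [mul_one_div, div_le_one (by linarith)]
      exact this
    calc ∑ p ∈ PrI P Q, 2 * (1 / (p : ℝ)) ≤ ∑ p ∈ PrI P Q, (1:ℝ) := Finset.sum_le_sum this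
      _ = _ := by simp
  -- first moment
  have hfirst : N * L - ((PrI P Q).card : ℝ) ≤ ∑ n ∈ Icc 1 M, omI P Q n := by
    have e : ∑ n ∈ Icc 1 M, omI P Q n = ∑ p ∈ PrI P Q, ((M / p : ℕ) : ℝ) := by
      rw [Finset.sum_congr rfl (fun n _ => tki_om P Q n), Finset.sum_comm]
      exact Finset.sum_congr rfl (fun p _ => tki_cnt M p)
    rw [e, hL]
    unfold Lr
    rw [Finset.mul_sum, Finset.card_eq_sum_ones]
    push_cast
    rw [← Finset.sum_sub_distrib]
    apply Finset.sum_le_sum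
    intro p hp
    have hp0 : (0:ℝ) < p := by linarith [hp2 p hp]
    have h1 : ⌊N / p⌋₊ = M / p := by
      rw [hM]; exact Nat.floor_div_natCast N p
    rw [← h1]
    have := Nat.lt_floor_add_one (N / (p:ℝ))
    have e2 : N * (1 / (p:ℝ)) = N / p := by ring
    rw [e2]
    linarith
  -- second moment
  have hsecond : ∑ n ∈ Icc 1 M, (omI P Q n) ^ 2 ≤ N * L ^ 2 + N * L := by
    have e : ∑ n ∈ Icc 1 M, (omI P Q n) ^ 2 = ∑ p ∈ PrI P Q, ∑ p' ∈ PrI P Q,
        ∑ n ∈ Icc 1 M, (if p ∣ n then (1:ℝ) else 0) * (if p' ∣ n then (1:ℝ) else 0) := by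
      have e1 : ∀ n ∈ Icc 1 M, (omI P Q n) ^ 2 = ∑ p ∈ PrI P Q, ∑ p' ∈ PrI P Q,
          (if p ∣ n then (1:ℝ) else 0) * (if p' ∣ n then (1:ℝ) else 0) := by
        intro n _
        rw [tki_om, sq, Finset.sum_mul_sum]
      rw [Finset.sum_congr rfl e1, Finset.sum_comm]
      apply Finset.sum_congr rfl
      intro p _
      rw [Finset.sum_comm]
    rw [e]
    have hb : ∀ p ∈ PrI P Q, ∀ p' ∈ PrI P Q,
        ∑ n ∈ Icc 1 M, (if p ∣ n then (1:ℝ) else 0) * (if p' ∣ n then (1:ℝ) else 0)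
        ≤ N * ((1 / (p:ℝ)) * (1 / (p':ℝ))) + (if p = p' then N * (1 / (p:ℝ)) else 0) := by
      intro p hp p' hp'
      have hp0 : (0:ℝ) < p := by linarith [hp2 p hp]
      have hp0' : (0:ℝ) < p' := by linarith [hp2 p' hp']
      by_cases hpp : p = p'
      · subst hpp
        simp only [if_true]
        have e1 : ∑ n ∈ Icc 1 M, (if p ∣ n then (1:ℝ) else 0) * (if p ∣ n then (1:ℝ) else 0)
            = ((M / p : ℕ) : ℝ) := by
          rw [← tki_cnt M p]
          apply Finset.sum_congr rfl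
          intro n _
          split_ifs <;> simp
        rw [e1]
        have h2 : ((M / p : ℕ) : ℝ) ≤ N * (1 / (p:ℝ)) := by
          calc ((M / p : ℕ) : ℝ) ≤ (M : ℝ) / p := Nat.cast_div_le
            _ ≤ N / p := by gcongr
            _ = N * (1 / (p:ℝ)) := by ring
        have h3 : 0 ≤ N * ((1 / (p:ℝ)) * (1 / (p:ℝ))) := by positivity
        linarith
      · rw [if_neg hpp, add_zero]
        have e1 : ∑ n ∈ Icc 1 M, (if p ∣ n then (1:ℝ) else 0) * (if p' ∣ n then (1:ℝ) else 0)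
            = ((M / (p * p') : ℕ) : ℝ) := by
          rw [← tki_cnt M (p * p')]
          apply Finset.sum_congr rfl
          intro n _
          have hco : Nat.Coprime p p' := (Nat.coprime_primes (hprime p hp) (hprime p' hp')).2 hpp
          by_cases h1 : p ∣ n
          · by_cases h2 : p' ∣ n
            · rw [if_pos h1, if_pos h2, if_pos (hco.mul_dvd_of_dvd_of_dvd h1 h2)]; ring
            · rw [if_pos h1, if_neg h2, if_neg (fun h => h2 (dvd_trans (dvd_mul_left p' p) h))]; ring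
          · rw [if_neg h1, if_neg (fun h => h1 (dvd_trans (dvd_mul_right p p') h))]; ring
        rw [e1]
        calc ((M / (p * p') : ℕ) : ℝ) ≤ (M : ℝ) / ((p * p' : ℕ) : ℝ) := Nat.cast_div_le
          _ = (M : ℝ) * ((1 / (p:ℝ)) * (1 / (p':ℝ))) := by
              push_cast
              field_simp
          _ ≤ N * ((1 / (p:ℝ)) * (1 / (p':ℝ))) := by gcongr
    calc _ ≤ ∑ p ∈ PrI P Q, ∑ p' ∈ PrI P Q,
          (N * ((1 / (p:ℝ)) * (1 / (p':ℝ))) + (if p = p' then N * (1 / (p:ℝ)) else 0)) :=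
          Finset.sum_le_sum (fun p hp => Finset.sum_le_sum (fun p' hp' => hb p hp p' hp'))
      _ = N * L ^ 2 + N * L := by
          rw [hL]
          unfold Lr
          have e1 : ∀ p ∈ PrI P Q, ∑ p' ∈ PrI P Q,
              (N * ((1 / (p:ℝ)) * (1 / (p':ℝ))) + (if p = p' then N * (1 / (p:ℝ)) else 0))
              = N * ((1 / (p:ℝ)) * ∑ p' ∈ PrI P Q, 1 / (p':ℝ)) + N * (1 / (p:ℝ)) := by
            intro p hp
            rw [Finset.sum_add_distrib, ← Finset.mul_sum, ← Finset.mul_sum, Finset.sum_ite_eq, if_pos hp]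
          rw [Finset.sum_congr rfl e1, Finset.sum_add_distrib, ← Finset.mul_sum, ← Finset.sum_mul,
            ← Finset.mul_sum]
          ring
  have hexp : ∑ n ∈ Icc 1 M, (omI P Q n - L) ^ 2
      = ∑ n ∈ Icc 1 M, (omI P Q n) ^ 2 - 2 * L * ∑ n ∈ Icc 1 M, omI P Q n + L ^ 2 * M := by
    have e1 : ∀ n ∈ Icc 1 M, (omI P Q n - L) ^ 2 = (omI P Q n) ^ 2 - 2 * L * omI P Q n + L ^ 2 := by
      intro n _; ring
    rw [Finset.sum_congr rfl e1, Finset.sum_add_distrib, Finset.sum_sub_distrib, ← Finset.mul_sum]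
    simp only [sum_const, Nat.card_Icc, Nat.add_sub_cancel, nsmul_eq_mul]
    ring
  rw [hexp]
  have hc0 : (0:ℝ) ≤ ((PrI P Q).card : ℝ) := by positivity
  have hk : 2 * L * ((PrI P Q).card : ℝ) ≤ N := by
    calc 2 * L * ((PrI P Q).card : ℝ) ≤ Q * Q := by
          apply mul_le_mul (hLc.trans hcard) hcard hc0 (by linarith)
      _ = Q ^ 2 := by ring
      _ ≤ N := hQN
  have h5 : 2 * L * (N * L - ((PrI P Q).card : ℝ)) ≤ 2 * L * ∑ n ∈ Icc 1 M, omI P Q n :=
    mul_le_mul_of_nonneg_left hfirst (by linarith)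
  have h6 : L ^ 2 * (M:ℝ) ≤ L ^ 2 * N := mul_le_mul_of_nonneg_left hMN (sq_nonneg L)
  nlinarith

end Pool.Agent.SplI

end

/-! ### from `Lib_MP_92ef0c_spi.AiConv` -/

section

/-!
# Piece I-CONV: slow variation and convolution identity
-/

set_option autoImplicit false

namespace Pool.Agent.SplI

open Finset

private theorem sf_bd (f : ℕ → ℂ) (hf : CF f) (N : ℝ) (hN : 0 ≤ N) : ‖Sf f N‖ ≤ N := by
  unfold Sf
  calc ‖∑ n ∈ Icc 1 ⌊N⌋₊, f n‖ ≤ ∑ n ∈ Icc 1 ⌊N⌋₊, ‖f n‖ := norm_sum_le _ _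
    _ ≤ ∑ n ∈ Icc 1 ⌊N⌋₊, (1:ℝ) := Finset.sum_le_sum (fun n _ => hf.le n)
    _ = (⌊N⌋₊ : ℝ) := by simp
    _ ≤ N := Nat.floor_le hN

theorem ai_bd (f : ℕ → ℂ) (hf : CF f) (s : ℝ) (hs : 0 ≤ s) : ‖Ai f s‖ ≤ 1 := by
  unfold Ai
  rw [norm_mul, Complex.norm_real, Real.norm_of_nonneg (Real.exp_pos _).le]
  calc Real.exp (-s) * ‖Sf f (Real.exp s)‖ ≤ Real.exp (-s) * Real.exp s :=
        mul_le_mul_of_nonneg_left (sf_bd f hf _ (Real.exp_pos s).le) (Real.exp_pos _).le
    _ = 1 := by rw [← Real.exp_add]; simp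

private theorem sf_diff (f : ℕ → ℂ) (hf : CF f) (A B : ℝ) (hA : 0 ≤ A) (hAB : A ≤ B) :
    ‖Sf f B - Sf f A‖ ≤ B - A + 1 := by
  have hfl : ⌊A⌋₊ ≤ ⌊B⌋₊ := Nat.floor_le_floor hAB
  have e : Sf f B - Sf f A = ∑ n ∈ Ioc ⌊A⌋₊ ⌊B⌋₊, f n := by
    unfold Sf
    have h1 : ∀ k : ℕ, ∑ n ∈ Icc 1 k, f n = ∑ n ∈ Ioc 0 k, f n := fun k => rfl
    rw [h1, h1, ← Finset.sum_Ioc_consecutive f (Nat.zero_le ⌊A⌋₊) hfl]
    ring
  rw [e]
  calc ‖∑ n ∈ Ioc ⌊A⌋₊ ⌊B⌋₊, f n‖ ≤ ∑ n ∈ Ioc ⌊A⌋₊ ⌊B⌋₊, ‖f n‖ := norm_sum_le _ _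
    _ ≤ ∑ n ∈ Ioc ⌊A⌋₊ ⌊B⌋₊, (1:ℝ) := Finset.sum_le_sum (fun n _ => hf.le n)
    _ = ((⌊B⌋₊ - ⌊A⌋₊ : ℕ) : ℝ) := by simp
    _ = (⌊B⌋₊ : ℝ) - (⌊A⌋₊ : ℝ) := by rw [Nat.cast_sub hfl]
    _ ≤ B - A + 1 := by
        have h1 := Nat.floor_le (hA.trans hAB)
        have h2 := Nat.lt_floor_add_one A
        linarith

/-- `Ai f (s+h) - Ai f s = (exp (-h) - 1) Ai f s + exp (-s-h) ∑_(exp s < n ≤ exp (s+h)) f n`; the last sum has at most `exp s (exp h - 1) + 1 ≤ 2 h exp s + 1` terms. -/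
theorem ai_lip (f : ℕ → ℂ) (hf : CF f) (s h : ℝ) (hs : 0 ≤ s) (hh : 0 ≤ h) (hh1 : h ≤ 1) :
    ‖Ai f (s + h) - Ai f s‖ ≤ 4 * (h + Real.exp (-s)) := by
  have e : Ai f (s + h) - Ai f s = ((Real.exp (-h) - 1 : ℝ) : ℂ) * Ai f s
      + ((Real.exp (-(s + h)) : ℝ) : ℂ) * (Sf f (Real.exp (s + h)) - Sf f (Real.exp s)) := by
    unfold Ai
    have : ((Real.exp (-(s + h)) : ℝ) : ℂ) = ((Real.exp (-h) : ℝ) : ℂ) * ((Real.exp (-s) : ℝ) : ℂ) := by
      rw [← Complex.ofReal_mul, ← Real.exp_add]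
      congr 2
      ring
    rw [this]
    push_cast
    ring
  rw [e]
  have h1 : |Real.exp (-h) - 1| ≤ h := by
    rw [abs_le]
    have h2 := Real.add_one_le_exp (-h)
    have h3 : Real.exp (-h) ≤ 1 := Real.exp_le_one_iff.2 (by linarith)
    constructor <;> linarith
  have h4 : Real.exp (-(s + h)) * (Real.exp (s + h) - Real.exp s + 1) ≤ h + Real.exp (-s) := by
    have e1 : Real.exp (-(s + h)) * Real.exp (s + h) = 1 := by rw [← Real.exp_add]; simp
    have e2 : Real.exp (-(s + h)) * Real.exp s = Real.exp (-h) := by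
      rw [← Real.exp_add]; congr 1; ring
    have e3 : Real.exp (-(s + h)) ≤ Real.exp (-s) := Real.exp_le_exp.2 (by linarith)
    have h2 := Real.add_one_le_exp (-h)
    nlinarith
  have h5 : ‖Sf f (Real.exp (s + h)) - Sf f (Real.exp s)‖ ≤ Real.exp (s + h) - Real.exp s + 1 :=
    sf_diff f hf _ _ (Real.exp_pos s).le (Real.exp_le_exp.2 (by linarith))
  calc _ ≤ ‖((Real.exp (-h) - 1 : ℝ) : ℂ) * Ai f s‖
        + ‖((Real.exp (-(s + h)) : ℝ) : ℂ) * (Sf f (Real.exp (s + h)) - Sf f (Real.exp s))‖ := norm_add_le _ _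
    _ ≤ h * 1 + (h + Real.exp (-s)) := by
        rw [norm_mul, norm_mul, Complex.norm_real, Complex.norm_real, Real.norm_eq_abs,
          Real.norm_of_nonneg (Real.exp_pos (-(s + h))).le]
        apply add_le_add
        · exact mul_le_mul h1 (ai_bd f hf s hs) (norm_nonneg _) hh
        · exact (mul_le_mul_of_nonneg_left h5 (Real.exp_pos _).le).trans h4
    _ ≤ 4 * (h + Real.exp (-s)) := by
        have := Real.exp_pos (-s)
        linarith

private theorem conv_id (f : ℕ → ℂ) (hf : CF f) (P Q N : ℝ) (hN : 0 ≤ N) :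
    ∑ n ∈ Icc 1 ⌊N⌋₊, f n * ((omI P Q n : ℝ) : ℂ) = ∑ p ∈ PrI P Q, f p * Sf f (N / p) := by
  have e1 : ∀ n ∈ Icc 1 ⌊N⌋₊, f n * ((omI P Q n : ℝ) : ℂ)
      = ∑ p ∈ PrI P Q, (if p ∣ n then f n else 0) := by
    intro n _
    unfold omI
    rw [← Finset.sum_filter, Finset.sum_const, nsmul_eq_mul]
    push_cast
    ring
  rw [Finset.sum_congr rfl e1, Finset.sum_comm]
  apply Finset.sum_congr rfl
  intro p hp
  have hpp : p.Prime := (mem_PrI.1 hp).1
  unfold Sf
  rw [Finset.mul_sum, ← Finset.sum_filter]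
  have hfl : ⌊N / p⌋₊ = ⌊N⌋₊ / p := Nat.floor_div_natCast N p
  rw [hfl]
  symm
  apply Finset.sum_bij (fun m _ => p * m)
  · intro m hm
    rw [mem_Icc] at hm
    rw [mem_filter, mem_Icc]
    refine ⟨⟨?_, ?_⟩, dvd_mul_right p m⟩
    · exact Nat.succ_le_of_lt (Nat.mul_pos hpp.pos (by omega))
    · calc p * m ≤ p * (⌊N⌋₊ / p) := Nat.mul_le_mul_left p hm.2
        _ ≤ ⌊N⌋₊ := Nat.mul_div_le _ _
  · intro a _ b _ hab
    exact Nat.eq_of_mul_eq_mul_left hpp.pos hab
  · intro n hn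
    rw [mem_filter, mem_Icc] at hn
    obtain ⟨⟨hn1, hn2⟩, m, rfl⟩ := hn
    refine ⟨m, ?_, rfl⟩
    rw [mem_Icc]
    refine ⟨?_, ?_⟩
    · rcases Nat.eq_zero_or_pos m with h | h
      · subst h; simp at hn1
      · exact h
    · rw [Nat.le_div_iff_mul_le hpp.pos]
      rw [mul_comm]; exact hn2
  · intro m hm
    rw [mem_Icc] at hm
    rw [hf.mul p m hpp.ne_zero (by omega)]

/-- `N = exp s`. `∑_(n ≤ N) f n omI n = ∑_p ∑_(m ≤ N/p) f (p m) = ∑_p f p Sf f (N / p)` exactly, and `|∑ f n (omI n - L)| ≤ N^(1/2) (C N (L + 1))^(1/2)` by Cauchy-Schwarz and `tki`. Divide by `N L`; `exp (-s) Sf f (exp s / p) = Ai f (s - log p) / p`. -/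
theorem ai_conv : ∃ C : ℝ, 0 < C ∧ ∀ P Q s : ℝ, 2 ≤ P → P ≤ Q → Q ^ 2 ≤ Real.exp s → 1 ≤ Lr P Q → ∀ f : ℕ → ℂ, CF f →
    ‖Ai f s - ((1 / Lr P Q : ℝ) : ℂ) * ∑ p ∈ PrI P Q, f p / (p : ℂ) * Ai f (s - Real.log p)‖ ≤ C / Real.sqrt (Lr P Q) := by
  obtain ⟨C, hC, htk⟩ := tki
  refine ⟨Real.sqrt (2 * C), Real.sqrt_pos.2 (by linarith), fun P Q s hP hPQ hQs hL f hf => ?_⟩
  set L := Lr P Q with hLdef
  set N := Real.exp s with hN
  have hN0 : 0 < N := Real.exp_pos s
  have hL0 : 0 < L := by linarith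
  have e1 : ∀ p ∈ PrI P Q, f p / (p : ℂ) * Ai f (s - Real.log p)
      = ((Real.exp (-s) : ℝ) : ℂ) * (f p * Sf f (N / p)) := by
    intro p hp
    have hp0 : (0:ℝ) < p := by exact_mod_cast (mem_PrI.1 hp).1.pos
    have hpc : (p : ℂ) ≠ 0 := by exact_mod_cast hp0.ne'
    unfold Ai
    have h1 : Real.exp (s - Real.log p) = N / p := by
      rw [Real.exp_sub, Real.exp_log hp0]
    have h2 : Real.exp (-(s - Real.log p)) = p * Real.exp (-s) := by
      rw [show -(s - Real.log p) = Real.log p + -s by ring, Real.exp_add, Real.exp_log hp0]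
    rw [h1, h2]
    push_cast
    field_simp
  have e2 : Ai f s - ((1 / L : ℝ) : ℂ) * ∑ p ∈ PrI P Q, f p / (p : ℂ) * Ai f (s - Real.log p)
      = ((Real.exp (-s) * (1 / L) : ℝ) : ℂ) * ∑ n ∈ Icc 1 ⌊N⌋₊, f n * ((L - omI P Q n : ℝ) : ℂ) := by
    rw [Finset.sum_congr rfl e1, ← Finset.mul_sum, ← conv_id f hf P Q N hN0.le]
    have e3 : ∑ n ∈ Icc 1 ⌊N⌋₊, f n * ((L - omI P Q n : ℝ) : ℂ)
        = (L : ℂ) * Sf f N - ∑ n ∈ Icc 1 ⌊N⌋₊, f n * ((omI P Q n : ℝ) : ℂ) := by
      unfold Sf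
      rw [Finset.mul_sum, ← Finset.sum_sub_distrib]
      apply Finset.sum_congr rfl
      intro n _
      push_cast
      ring
    rw [e3]
    unfold Ai
    have hLc : (L : ℂ) ≠ 0 := by exact_mod_cast hL0.ne'
    rw [← hN]
    push_cast
    field_simp
  rw [e2, norm_mul, Complex.norm_real, Real.norm_of_nonneg (by positivity)]
  have h3 : ‖∑ n ∈ Icc 1 ⌊N⌋₊, f n * ((L - omI P Q n : ℝ) : ℂ)‖ ≤ ∑ n ∈ Icc 1 ⌊N⌋₊, |omI P Q n - L| := by
    calc _ ≤ ∑ n ∈ Icc 1 ⌊N⌋₊, ‖f n * ((L - omI P Q n : ℝ) : ℂ)‖ := norm_sum_le _ _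
      _ ≤ _ := by
        apply Finset.sum_le_sum
        intro n _
        rw [norm_mul, Complex.norm_real, Real.norm_eq_abs, abs_sub_comm]
        calc ‖f n‖ * |omI P Q n - L| ≤ 1 * |omI P Q n - L| :=
              mul_le_mul_of_nonneg_right (hf.le n) (abs_nonneg _)
          _ = _ := one_mul _
  have h4 : (∑ n ∈ Icc 1 ⌊N⌋₊, |omI P Q n - L|) ^ 2 ≤ N * (C * N * (L + 1)) := by
    have hcs := Finset.sum_mul_sq_le_sq_mul_sq (Icc 1 ⌊N⌋₊) (fun _ => (1:ℝ)) (fun n => |omI P Q n - L|)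
    simp only [one_mul, one_pow, sum_const, Nat.card_Icc, Nat.add_sub_cancel, nsmul_eq_mul, mul_one, sq_abs] at hcs
    calc _ ≤ (⌊N⌋₊ : ℝ) * ∑ n ∈ Icc 1 ⌊N⌋₊, (omI P Q n - L) ^ 2 := hcs
      _ ≤ N * (C * N * (L + 1)) := by
        apply mul_le_mul (Nat.floor_le hN0.le) (htk P Q N hP hPQ hQs) _ hN0.le
        exact Finset.sum_nonneg (fun n _ => sq_nonneg _)
  have h5 : ∑ n ∈ Icc 1 ⌊N⌋₊, |omI P Q n - L| ≤ N * Real.sqrt (2 * C * L) := by
    apply le_of_sq_le_sq _ (by positivity)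
    rw [mul_pow, Real.sq_sqrt (by positivity)]
    calc _ ≤ N * (C * N * (L + 1)) := h4
      _ ≤ N * (C * N * (2 * L)) := by gcongr; linarith
      _ = N ^ 2 * (2 * C * L) := by ring
  calc Real.exp (-s) * (1 / L) * ‖∑ n ∈ Icc 1 ⌊N⌋₊, f n * ((L - omI P Q n : ℝ) : ℂ)‖
      ≤ Real.exp (-s) * (1 / L) * (N * Real.sqrt (2 * C * L)) := by
        apply mul_le_mul_of_nonneg_left (h3.trans h5) (by positivity)
    _ = Real.sqrt (2 * C) / Real.sqrt L := by
        rw [Real.sqrt_mul (by linarith)]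
        have e5 : Real.exp (-s) * N = 1 := by rw [hN, ← Real.exp_add]; simp
        have e6 : Real.sqrt L / L = 1 / Real.sqrt L := Real.sqrt_div_self'
        calc Real.exp (-s) * (1 / L) * (N * (Real.sqrt (2 * C) * Real.sqrt L))
            = (Real.exp (-s) * N) * Real.sqrt (2 * C) * (Real.sqrt L / L) := by ring
          _ = _ := by rw [e5, e6]; ring

end Pool.Agent.SplI

end

/-! ### from `Lib_MP_92ef0c_spi.HalPt` -/

section

/-!
# Piece I-HALPT: from the mean square to the endpoint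
-/

set_option autoImplicit false

namespace Pool.Agent.SplI

open Finset

/-- Every window of length one above `u` has mass at most `C / u`: `∑_(exp u < p ≤ exp (u+1)) 1/p ≤ (1/(u exp u)) ∑_(p ≤ exp (u+1)) log p` (`Chebyshev.theta_le_log4_mul_x`; see win_mass in Lib_MP_f1a94e_ecm/WinMass.lean). -/
theorem win_i : ∃ C : ℝ, 0 < C ∧ ∀ u : ℝ, 1 ≤ u → Lr (Real.exp u) (Real.exp (u + 1)) ≤ C / u := by
  have hl4 : 0 < Real.log 4 := Real.log_pos (by norm_num)
  refine ⟨Real.log 4 * Real.exp 1, mul_pos hl4 (Real.exp_pos _), ?_⟩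
  intro u hu
  have hu0 : 0 < u := by linarith
  have hE : 0 < Real.exp u := Real.exp_pos u
  unfold Lr
  have h2 : ∑ p ∈ PrI (Real.exp u) (Real.exp (u + 1)), (1 : ℝ) / p ≤
      ∑ p ∈ PrI (Real.exp u) (Real.exp (u + 1)), Real.log p / (u * Real.exp u) := by
    refine Finset.sum_le_sum fun p hp => ?_
    obtain ⟨-, h4, -⟩ := mem_PrI.1 hp
    have h5 : u ≤ Real.log p := by
      rw [Real.le_log_iff_exp_le (hE.trans h4)]
      exact h4.le
    rw [div_le_div_iff₀ (hE.trans h4) (by positivity), one_mul]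
    exact mul_le_mul h5 h4.le hE.le (hu0.le.trans h5)
  have h3 : ∑ p ∈ PrI (Real.exp u) (Real.exp (u + 1)), Real.log p ≤
      Chebyshev.theta (Real.exp (u + 1)) := by
    unfold Chebyshev.theta
    refine Finset.sum_le_sum_of_subset_of_nonneg ?_ ?_
    · intro p hp
      obtain ⟨h4, h5, h6⟩ := mem_PrI.1 hp
      rw [Finset.mem_filter, Finset.mem_Ioc]
      exact ⟨⟨h4.pos, Nat.le_floor h6⟩, h4⟩
    · intro p hp _
      have h5 := (Finset.mem_filter.mp hp).2
      exact Real.log_nonneg (by exact_mod_cast h5.one_lt.le)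
  have h4 := Chebyshev.theta_le_log4_mul_x (Real.exp_pos (u + 1)).le
  refine h2.trans ?_
  rw [← Finset.sum_div, div_le_div_iff₀ (by positivity) hu0]
  have h6 : Real.exp (u + 1) = Real.exp u * Real.exp 1 := Real.exp_add u 1
  have h5 := h3.trans (h4.trans_eq (by rw [h6]))
  calc (∑ p ∈ PrI (Real.exp u) (Real.exp (u + 1)), Real.log p) * u ≤
      (Real.log 4 * (Real.exp u * Real.exp 1)) * u := mul_le_mul_of_nonneg_right h5 hu0.le
    _ = Real.log 4 * Real.exp 1 * (u * Real.exp u) := by ring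

/-- the mass of the primes with a given value of `⌈(s - log p) / h⌉` -/
private theorem ip_mass {C4 : ℝ} (hC4 : 0 < C4)
    (hwin : ∀ u : ℝ, 1 ≤ u → Lr (Real.exp u) (Real.exp (u + 1)) ≤ C4 / u)
    {a s h Q : ℝ} (ha : 1 ≤ a) (hh : 0 < h) (hh1 : h ≤ 1 / 2) (hQ : Q ≤ Real.exp s) (n : ℕ) :
    ∑ p ∈ (PrI (Real.exp a) Q).filter (fun p : ℕ => ⌈(s - Real.log (p : ℝ)) / h⌉₊ = n), 1 / (p : ℝ) ≤
      C4 / a := by
  obtain ⟨u, hu⟩ : ∃ u : ℝ, u = max a (s - n * h + h - 1) := ⟨_, rfl⟩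
  have hau : a ≤ u := by rw [hu]; exact le_max_left _ _
  have hsu : s - n * h + h - 1 ≤ u := by rw [hu]; exact le_max_right _ _
  have h1 : ∑ p ∈ (PrI (Real.exp a) Q).filter (fun p : ℕ => ⌈(s - Real.log (p : ℝ)) / h⌉₊ = n),
      1 / (p : ℝ) ≤ Lr (Real.exp u) (Real.exp (u + 1)) := by
    unfold Lr
    refine sum_le_sum_of_subset_of_nonneg (fun p hp => ?_) fun p _ _ => by positivity
    obtain ⟨hp1, hp2⟩ := mem_filter.1 hp
    obtain ⟨g1, g2, g3⟩ := mem_PrI.1 hp1
    have hpos : (0 : ℝ) < p := lt_trans (Real.exp_pos _) g2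
    have hlog : Real.log p ≤ s := by
      rw [Real.log_le_iff_le_exp hpos]
      exact g3.trans hQ
    have hn0 : 0 ≤ (s - Real.log p) / h := div_nonneg (by linarith) hh.le
    have k1 := Nat.le_ceil ((s - Real.log p) / h)
    have k2 := Nat.ceil_lt_add_one hn0
    rw [hp2] at k1 k2
    rw [div_le_iff₀ hh] at k1
    have k2' : (n : ℝ) * h < s - Real.log p + h := by
      have := mul_lt_mul_of_pos_right k2 hh
      rw [add_mul, div_mul_cancel₀ _ hh.ne', one_mul] at this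
      exact this
    have k3 : a < Real.log p := (Real.lt_log_iff_exp_lt hpos).2 g2
    refine mem_PrI.2 ⟨g1, ?_, ?_⟩
    · rw [← Real.lt_log_iff_exp_lt hpos, hu]
      exact max_lt k3 (by linarith)
    · rw [← Real.log_le_iff_le_exp hpos]
      linarith
  refine h1.trans ((hwin u (ha.trans hau)).trans ?_)
  exact div_le_div_of_nonneg_left hC4.le (by linarith) hau

/-- the sum over the primes grouped by grid points -/
private theorem ip_group {C4 : ℝ} (hC4 : 0 < C4)
    (hwin : ∀ u : ℝ, 1 ≤ u → Lr (Real.exp u) (Real.exp (u + 1)) ≤ C4 / u)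
    {a s h : ℝ} (ha : 1 ≤ a) (hh : 0 < h) (hh1 : h ≤ 1 / 2) (hs : 0 < s) (F : ℝ → ℝ) (hF : ∀ x, 0 ≤ F x) :
    ∑ p ∈ PrI (Real.exp a) (Real.exp (s / 2)), 1 / (p : ℝ) * F ((⌈(s - Real.log (p : ℝ)) / h⌉₊ : ℕ) * h) ≤
      C4 / a * ∑ n ∈ (range (⌊s / h⌋₊ + 1)).filter (fun n : ℕ => s / 2 ≤ (n : ℝ) * h), F (n * h) := by
  have hmaps : ∀ p ∈ PrI (Real.exp a) (Real.exp (s / 2)), ⌈(s - Real.log (p : ℝ)) / h⌉₊ ∈
      (range (⌊s / h⌋₊ + 1)).filter (fun n : ℕ => s / 2 ≤ (n : ℝ) * h) := by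
    intro p hp
    obtain ⟨g1, g2, g3⟩ := mem_PrI.1 hp
    have hpos : (0 : ℝ) < p := lt_trans (Real.exp_pos _) g2
    have hlog : Real.log p ≤ s / 2 := by
      rw [Real.log_le_iff_le_exp hpos]
      exact g3
    have hn0 : 0 ≤ (s - Real.log p) / h := div_nonneg (by linarith) hh.le
    have k1 := Nat.le_ceil ((s - Real.log p) / h)
    have k2 := Nat.ceil_lt_add_one hn0
    have k3 : a < Real.log p := (Real.lt_log_iff_exp_lt hpos).2 g2
    rw [div_le_iff₀ hh] at k1
    have k2' : (⌈(s - Real.log (p : ℝ)) / h⌉₊ : ℝ) * h < s - Real.log p + h := by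
      have := mul_lt_mul_of_pos_right k2 hh
      rw [add_mul, div_mul_cancel₀ _ hh.ne', one_mul] at this
      exact this
    rw [mem_filter, mem_range, Nat.lt_succ_iff]
    refine ⟨Nat.le_floor ?_, ?_⟩
    · rw [le_div_iff₀ hh]
      linarith
    · linarith
  rw [← sum_fiberwise_of_maps_to hmaps, mul_sum]
  refine sum_le_sum fun n _ => ?_
  have h1 : ∑ p ∈ (PrI (Real.exp a) (Real.exp (s / 2))).filter
      (fun p : ℕ => ⌈(s - Real.log (p : ℝ)) / h⌉₊ = n),
      1 / (p : ℝ) * F ((⌈(s - Real.log (p : ℝ)) / h⌉₊ : ℕ) * h) =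
      (∑ p ∈ (PrI (Real.exp a) (Real.exp (s / 2))).filter
        (fun p : ℕ => ⌈(s - Real.log (p : ℝ)) / h⌉₊ = n), 1 / (p : ℝ)) * F (n * h) := by
    rw [sum_mul]
    refine sum_congr rfl fun p hp => ?_
    rw [(mem_filter.1 hp).2]
  rw [h1]
  refine mul_le_mul_of_nonneg_right ?_ (hF _)
  exact ip_mass hC4 hwin ha hh hh1 (Real.exp_le_exp.2 (by linarith)) n

/-- As `point` (Lib_MP_f1a94e_ecm/Point.lean). `P = exp (e' S)`, `Q = exp (S/2)`, `s = S` in `ai_conv` (`Q² = exp S`), `e'` so small that `C / sqrt (Lr P Q) ≤ ε/4` (`Lr_bounds`: `Lr P Q ≥ log (1/(2 e')) - C`). `‖Ai f S‖ ≤ ε/4 + (1/L) ∑_p (1/p) ‖Ai f (S - log p)‖`, all `S - log p ∈ [S/2, S]`;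
`‖Ai f (S - log p)‖ ≤ ‖Ai f (n h)‖ + 4 (h + exp (-S/2))`, `n = ⌈(S - log p)/h⌉` or the grid point just above (stay in `[S/2, S]`; near the right end `log p ≥ e' S > h`), `h ≤ ε / 64`; the `p` of one grid point have total mass `≤ 2 C / (e' S)` (`win_i`). So `‖Ai f S‖ ≤ ε/2 + (2 C/(e' S)) ∑_n ‖Ai f (n h)‖ ≤ ε/2 + (2 C/(e' S)) (S/h + 1)^(1/2) (ε1 S)^(1/2)`
(`L ≥ 1`). Choose `h`, `e'`, then `ε1`. -/
theorem hal_point (ε : ℝ) (hε : 0 < ε) : ∃ h ε1 S0 : ℝ, 0 < h ∧ h ≤ 1 ∧ 0 < ε1 ∧ 0 < S0 ∧ ∀ S : ℝ, S0 ≤ S → ∀ f : ℕ → ℂ, CF f →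
    ∑ n ∈ (range (⌊S / h⌋₊ + 1)).filter (fun n : ℕ => S / 2 ≤ (n : ℝ) * h), ‖Ai f (n * h)‖ ^ 2 ≤ ε1 * S → ‖Ai f S‖ ≤ ε := by
  obtain ⟨C1, hC1, hconv⟩ := ai_conv
  obtain ⟨C4, hC4, hwin⟩ := win_i
  obtain ⟨C5, hC5, hLs⟩ := Lr_bounds
  -- constants
  obtain ⟨K, hK⟩ : ∃ K : ℝ, K = max 1 ((4 * C1 / ε) ^ 2) := ⟨_, rfl⟩
  have hK1 : 1 ≤ K := by rw [hK]; exact le_max_left _ _
  have hK2 : (4 * C1 / ε) ^ 2 ≤ K := by rw [hK]; exact le_max_right _ _
  obtain ⟨e', he'⟩ : ∃ e' : ℝ, e' = 1 / 2 * Real.exp (-(K + C5)) := ⟨_, rfl⟩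
  have he0 : 0 < e' := by rw [he']; positivity
  have he1 : e' ≤ 1 / 2 := by
    rw [he']
    have : Real.exp (-(K + C5)) ≤ 1 := by
      rw [Real.exp_le_one_iff]
      linarith
    linarith
  obtain ⟨h, hh⟩ : ∃ h : ℝ, h = min (1 / 2) (ε / 32) := ⟨_, rfl⟩
  have hh0 : 0 < h := by rw [hh]; positivity
  have hh1 : h ≤ 1 / 2 := by rw [hh]; exact min_le_left _ _
  have hh2 : 4 * h ≤ ε / 8 := by
    have : h ≤ ε / 32 := by rw [hh]; exact min_le_right _ _
    linarith
  obtain ⟨δ, hδ⟩ : ∃ δ : ℝ, δ = ε * e' / (4 * C4) := ⟨_, rfl⟩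
  have hδ0 : 0 < δ := by rw [hδ]; positivity
  refine ⟨h, δ ^ 2 * h / 2, max (1 / e') (-2 * Real.log (ε / 32)), hh0, by linarith, by positivity,
    lt_of_lt_of_le (by positivity) (le_max_left _ _), fun s hs f hf hsq => ?_⟩
  have s1 : 1 / e' ≤ s := (le_max_left _ _).trans hs
  have s3 : -2 * Real.log (ε / 32) ≤ s := (le_max_right _ _).trans hs
  have s2 : 2 ≤ s := by
    refine le_trans ?_ s1
    rw [le_div_iff₀ he0]
    linarith
  have hs0 : 0 < s := by linarith
  have hes : 1 ≤ e' * s := by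
    rw [div_le_iff₀ he0] at s1
    linarith
  have hexp : 4 * Real.exp (-(s / 2)) ≤ ε / 8 := by
    have h1 : Real.exp (-(s / 2)) ≤ ε / 32 := by
      have h2 : -(s / 2) ≤ Real.log (ε / 32) := by linarith
      calc Real.exp (-(s / 2)) ≤ Real.exp (Real.log (ε / 32)) := Real.exp_le_exp.2 h2
        _ = ε / 32 := Real.exp_log (by positivity)
    linarith
  obtain ⟨P, hP⟩ : ∃ P : ℝ, P = Real.exp (e' * s) := ⟨_, rfl⟩
  obtain ⟨Q, hQ⟩ : ∃ Q : ℝ, Q = Real.exp (s / 2) := ⟨_, rfl⟩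
  have hP2 : 2 ≤ P := by
    rw [hP]
    have := Real.add_one_le_exp (e' * s)
    linarith
  have hPQ : P ≤ Q := by
    rw [hP, hQ, Real.exp_le_exp]
    nlinarith
  have hQ2 : Q ^ 2 ≤ Real.exp s := by
    rw [hQ, ← Real.exp_nat_mul]
    apply le_of_eq
    congr 1
    push_cast
    ring
  have hLK : K ≤ Lr P Q := by
    have h1 := hLs P Q hP2 hPQ
    rw [hP, hQ, Real.log_exp, Real.log_exp, ← hP, ← hQ] at h1
    have h2 : Real.log (s / 2) - Real.log (e' * s) = K + C5 := by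
      rw [← Real.log_div (by positivity) (by positivity)]
      have h3 : s / 2 / (e' * s) = Real.exp (K + C5) := by
        rw [he', Real.exp_neg]
        field_simp
      rw [h3, Real.log_exp]
    rw [h2] at h1
    have h4 := (abs_le.1 h1).1
    linarith
  have hL1 : 1 ≤ Lr P Q := hK1.trans hLK
  have hL0 : 0 < Lr P Q := by linarith
  have hc := hconv P Q s hP2 hPQ hQ2 hL1 f hf
  have hc1 : C1 / Real.sqrt (Lr P Q) ≤ ε / 4 := by
    have h1 : 4 * C1 / ε ≤ Real.sqrt (Lr P Q) := by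
      apply Real.le_sqrt_of_sq_le
      exact hK2.trans hLK
    rw [div_le_iff₀ (Real.sqrt_pos.2 hL0)]
    rw [div_le_iff₀ hε] at h1
    linarith
  -- the sum
  have hterm : ∀ p ∈ PrI P Q, ‖f p / (p : ℂ) * Ai f (s - Real.log p)‖ ≤
      1 / (p : ℝ) * ‖Ai f ((⌈(s - Real.log (p : ℝ)) / h⌉₊ : ℕ) * h)‖ + 1 / (p : ℝ) * (ε / 4) := by
    intro p hp
    obtain ⟨g1, g2, g3⟩ := mem_PrI.1 hp
    have hpos : (0 : ℝ) < p := by linarith
    have hlog : Real.log p ≤ s / 2 := by
      rw [Real.log_le_iff_le_exp hpos, ← hQ]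
      exact g3
    set t := s - Real.log p with ht
    have ht1 : s / 2 ≤ t := by rw [ht]; linarith
    set n := ⌈t / h⌉₊ with hn
    have hn0 : 0 ≤ t / h := div_nonneg (by linarith) hh0.le
    have k1 := Nat.le_ceil (t / h)
    have k2 := Nat.ceil_lt_add_one hn0
    rw [← hn] at k1 k2
    rw [div_le_iff₀ hh0] at k1
    have k2' : (n : ℝ) * h < t + h := by
      have := mul_lt_mul_of_pos_right k2 hh0
      rw [add_mul, div_mul_cancel₀ _ hh0.ne', one_mul] at this
      exact this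
    have hl := ai_lip f hf t (n * h - t) (by linarith) (by linarith) (by linarith)
    rw [add_sub_cancel] at hl
    have hl2 : 4 * (n * h - t + Real.exp (-t)) ≤ ε / 4 := by
      have h2 : Real.exp (-t) ≤ Real.exp (-(s / 2)) := Real.exp_le_exp.2 (by linarith)
      linarith
    have hA : ‖Ai f t‖ ≤ ‖Ai f (n * h)‖ + ε / 4 := by
      have := norm_le_norm_add_norm_sub (Ai f (n * h)) (Ai f t)
      linarith
    rw [norm_mul, norm_div, Complex.norm_natCast]
    calc ‖f p‖ / (p : ℝ) * ‖Ai f t‖ ≤ 1 / (p : ℝ) * (‖Ai f (n * h)‖ + ε / 4) := by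
          refine mul_le_mul (div_le_div_of_nonneg_right (hf.le p) hpos.le) hA (norm_nonneg _) (by positivity)
      _ = _ := by ring
  have hLsum : ∑ p ∈ PrI P Q, 1 / (p : ℝ) * (ε / 4) = Lr P Q * (ε / 4) := by
    rw [← sum_mul]
    rfl
  have hgrp : ∑ p ∈ PrI P Q, 1 / (p : ℝ) * ‖Ai f ((⌈(s - Real.log (p : ℝ)) / h⌉₊ : ℕ) * h)‖ ≤
      C4 / (e' * s) * ∑ n ∈ (range (⌊s / h⌋₊ + 1)).filter (fun n : ℕ => s / 2 ≤ (n : ℝ) * h), ‖Ai f (n * h)‖ := by
    rw [hP, hQ]
    exact ip_group hC4 hwin hes hh0 hh1 hs0 (fun x => ‖Ai f x‖) (fun x => norm_nonneg _)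
  obtain ⟨T, hT⟩ : ∃ T : Finset ℕ, T = (range (⌊s / h⌋₊ + 1)).filter (fun n : ℕ => s / 2 ≤ (n : ℝ) * h) := ⟨_, rfl⟩
  rw [← hT] at hsq hgrp
  have hTc : (T.card : ℝ) ≤ 2 * s / h := by
    have h0 : T.card ≤ ⌊s / h⌋₊ + 1 := by
      rw [hT]
      exact (card_filter_le _ _).trans_eq (card_range _)
    have h1 := Nat.floor_le (div_nonneg hs0.le hh0.le)
    have h2 : 1 ≤ s / h := by
      rw [one_le_div hh0]
      linarith
    have h3 : 2 * s / h = s / h + s / h := by ring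
    have h4 : (T.card : ℝ) ≤ (⌊s / h⌋₊ : ℝ) + 1 := by exact_mod_cast h0
    linarith
  have hcs : ∑ n ∈ T, ‖Ai f (n * h)‖ ≤ δ * s := by
    have h1 : (∑ n ∈ T, ‖Ai f (n * h)‖) ^ 2 ≤ (T.card : ℝ) * ∑ n ∈ T, ‖Ai f (n * h)‖ ^ 2 :=
      sq_sum_le_card_mul_sum_sq
    have h3 : (∑ n ∈ T, ‖Ai f (n * h)‖) ^ 2 ≤ (δ * s) ^ 2 := by
      refine h1.trans ?_
      calc (T.card : ℝ) * ∑ n ∈ T, ‖Ai f (n * h)‖ ^ 2 ≤ (2 * s / h) * (δ ^ 2 * h / 2 * s) :=
            mul_le_mul hTc hsq (sum_nonneg fun _ _ => by positivity) (by positivity)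
        _ = (δ * s) ^ 2 := by
            field_simp
    exact le_of_sq_le_sq h3 (by positivity)
  have hfin : C4 / (e' * s) * ∑ n ∈ T, ‖Ai f (n * h)‖ ≤ ε / 4 := by
    calc C4 / (e' * s) * ∑ n ∈ T, ‖Ai f (n * h)‖ ≤ C4 / (e' * s) * (δ * s) :=
          mul_le_mul_of_nonneg_left hcs (by positivity)
      _ = ε / 4 := by
          rw [hδ]
          field_simp
  have hsum : ‖∑ p ∈ PrI P Q, f p / (p : ℂ) * Ai f (s - Real.log p)‖ ≤
      ε / 4 + Lr P Q * (ε / 4) := by
    refine (norm_sum_le _ _).trans ((sum_le_sum hterm).trans ?_)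
    rw [sum_add_distrib, hLsum]
    linarith
  have hlast : ‖((1 / Lr P Q : ℝ) : ℂ) * ∑ p ∈ PrI P Q, f p / (p : ℂ) * Ai f (s - Real.log p)‖ ≤ ε / 2 := by
    rw [norm_mul, Complex.norm_real, Real.norm_eq_abs, abs_of_nonneg (by positivity)]
    calc 1 / Lr P Q * ‖∑ p ∈ PrI P Q, f p / (p : ℂ) * Ai f (s - Real.log p)‖ ≤
          1 / Lr P Q * (ε / 4 + Lr P Q * (ε / 4)) :=
          mul_le_mul_of_nonneg_left hsum (by positivity)
      _ = ε / 4 / Lr P Q + ε / 4 := by
          field_simp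
      _ ≤ ε / 4 + ε / 4 := by
          have : ε / 4 / Lr P Q ≤ ε / 4 := div_le_self (by positivity) hL1
          linarith
      _ = ε / 2 := by ring
  have := norm_le_norm_add_norm_sub' (Ai f s) (((1 / Lr P Q : ℝ) : ℂ) * ∑ p ∈ PrI P Q,
    f p / (p : ℂ) * Ai f (s - Real.log p))
  linarith

end Pool.Agent.SplI

end

/-! ### from `Lib_MP_f1a94e_aq.Kern` -/

section

/-!
# Piece KERN: bounds for the kernels
-/

set_option autoImplicit false

namespace Pool.Agent.OmAll

open Pool.Agent.GaussMR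

theorem Kf_nonneg (a t : ℝ) (ha : 0 ≤ a) : 0 ≤ Kf a t := by
  unfold Kf
  positivity

theorem Kf_cont (a : ℝ) : Continuous (Kf a) := by
  unfold Kf
  have h := Real.continuous_sinc
  fun_prop

theorem Kf_le (a t : ℝ) (ha : 0 ≤ a) : Kf a t ≤ a := by
  unfold Kf
  have h1 : Real.sinc (a * t / 2) ^ 2 ≤ 1 := by
    rw [sq_le_one_iff_abs_le_one, abs_le]
    exact ⟨Real.neg_one_le_sinc _, Real.sinc_le_one _⟩
  calc a * Real.sinc (a * t / 2) ^ 2 ≤ a * 1 := mul_le_mul_of_nonneg_left h1 ha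
    _ = a := mul_one a

/-- `t^2 Kf a t = 4 sin^2 (a t / 2) / a` -/
theorem Kf_le_sq (a t : ℝ) (ha : 0 < a) (ht : t ≠ 0) : Kf a t ≤ 4 / (a * t ^ 2) := by
  unfold Kf
  have hu : a * t / 2 ≠ 0 := by positivity
  rw [Real.sinc_of_ne_zero hu, div_pow]
  have h1 : Real.sin (a * t / 2) ^ 2 ≤ 1 := Real.sin_sq_le_one _
  have h2 : (0 : ℝ) < (a * t / 2) ^ 2 := by positivity
  calc a * (Real.sin (a * t / 2) ^ 2 / (a * t / 2) ^ 2) ≤ a * (1 / (a * t / 2) ^ 2) :=
        mul_le_mul_of_nonneg_left (div_le_div_of_nonneg_right h1 h2.le) ha.le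
    _ = 4 / (a * t ^ 2) := by
        field_simp
        norm_num

/-- `sin u ≥ (2 / π) u` on `[0, π / 2]` -/
theorem Kf_ge (a t : ℝ) (ha : 0 < a) (ht : |a * t| ≤ Real.pi) : a * (2 / Real.pi) ^ 2 ≤ Kf a t := by
  unfold Kf
  apply mul_le_mul_of_nonneg_left _ ha.le
  have hpi := Real.pi_pos
  have key : ∀ u : ℝ, 0 ≤ u → u ≤ Real.pi / 2 → 2 / Real.pi ≤ Real.sinc u := by
    intro u h0 h1
    rcases h0.eq_or_lt with h | h
    · rw [← h, Real.sinc_zero, div_le_one hpi]
      linarith [Real.pi_gt_three]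
    · rw [Real.sinc_of_ne_zero h.ne', le_div_iff₀ h]
      exact Real.mul_le_sin h0 h1
  have h2 : 2 / Real.pi ≤ Real.sinc (a * t / 2) := by
    rw [abs_le] at ht
    rcases le_total 0 (a * t / 2) with h | h
    · exact key _ h (by linarith)
    · rw [← Real.sinc_neg]
      exact key _ (by linarith) (by linarith)
  exact pow_le_pow_left₀ (by positivity) h2 2

theorem Kf_even (a t : ℝ) : Kf a (-t) = Kf a t := by
  unfold Kf
  rw [show a * -t / 2 = -(a * t / 2) by ring, Real.sinc_neg]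

theorem Hf_cont (a b : ℝ) : Continuous (Hf a b) := by
  unfold Hf
  exact (Kf_cont a).sub (Kf_cont b)

/-- `|Hf a b t| ≤ B / (1 + t^2)`, `B = max` of the bounds: `2 b` for `|t| ≤ 1`, `8 / (a t^2)` for `|t| ≥ 1`, e.g. `B = 4 b + 16 / a`. -/
theorem Hf_le (a b t : ℝ) (ha : 0 < a) (hab : a ≤ b) : |Hf a b t| ≤ (4 * b + 16 / a) / (1 + t ^ 2) := by
  have hb : 0 < b := lt_of_lt_of_le ha hab
  have h1 := Kf_nonneg a t ha.le
  have h2 := Kf_nonneg b t hb.le
  have h0 : (0 : ℝ) < 1 + t ^ 2 := by positivity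
  have hmax : ∀ B : ℝ, Kf a t ≤ B → Kf b t ≤ B → |Hf a b t| ≤ B := by
    intro B hA hB
    unfold Hf
    rw [abs_le]
    constructor <;> linarith
  rcases le_or_gt (t ^ 2) 1 with ht | ht
  · have h3 : b ≤ (4 * b + 16 / a) / (1 + t ^ 2) := by
      rw [le_div_iff₀ h0]
      have : 0 < 16 / a := by positivity
      nlinarith
    exact hmax _ ((Kf_le a t ha.le).trans (hab.trans h3)) ((Kf_le b t hb.le).trans h3)
  · have ht0 : t ≠ 0 := by
      rintro rfl
      norm_num at ht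
    have h3 : 4 / (a * t ^ 2) ≤ (4 * b + 16 / a) / (1 + t ^ 2) := by
      have h4 : 4 / (a * t ^ 2) ≤ (16 / a) / (1 + t ^ 2) := by
        rw [div_div, div_le_div_iff₀ (by positivity) (by positivity)]
        nlinarith
      refine h4.trans (div_le_div_of_nonneg_right ?_ h0.le)
      linarith
    have h5 : 4 / (b * t ^ 2) ≤ 4 / (a * t ^ 2) := by
      apply div_le_div_of_nonneg_left (by norm_num) (by positivity)
      exact mul_le_mul_of_nonneg_right hab (by positivity)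
    exact hmax _ ((Kf_le_sq a t ha ht0).trans h3) ((Kf_le_sq b t hb ht0).trans (h5.trans h3))

end Pool.Agent.OmAll

end

/-! ### from `Lib_MP_f1a94e_aq.Planch` -/

section

/-!
# Piece PLANCH: correlations of the kernel difference
-/

set_option autoImplicit false

namespace Pool.Agent.OmAll

open MeasureTheory

theorem hh_cont (a b : ℝ) : Continuous (hh a b) := by
  unfold hh
  fun_prop

theorem hh_even (a b τ : ℝ) : hh a b (-τ) = hh a b τ := by
  unfold hh
  rw [abs_neg]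

/-- `|hh a b τ| ≤ |τ| / a`, and `hh a b τ = 0` for `|τ| ≥ b` (`a ≤ b`) -/
theorem hh_le (a b τ : ℝ) (ha : 0 < a) (hab : a ≤ b) : |hh a b τ| ≤ |τ| / a := by
  have hb : 0 < b := ha.trans_le hab
  have h1 : |τ| / b ≤ |τ| / a := div_le_div_of_nonneg_left (abs_nonneg τ) ha hab
  have h2 : 0 ≤ |τ| / b := by positivity
  have h3 : 0 ≤ |τ| / a := by positivity
  unfold hh
  rw [abs_le]
  constructor
  · rcases le_total (1 - |τ| / b) 0 with h | h
    · rw [max_eq_right h]
      have := le_max_right (1 - |τ| / a) 0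
      linarith
    · rw [max_eq_left h]
      have := le_max_left (1 - |τ| / a) 0
      linarith
  · rcases le_total (1 - |τ| / a) 0 with h | h
    · rw [max_eq_right h]
      have := le_max_right (1 - |τ| / b) 0
      linarith
    · rw [max_eq_left h]
      have := le_max_left (1 - |τ| / b) 0
      linarith

theorem hh_zero (a b τ : ℝ) (ha : 0 < a) (hab : a ≤ b) (hτ : b ≤ |τ|) : hh a b τ = 0 := by
  have hb : 0 < b := ha.trans_le hab
  have h1 : 1 ≤ |τ| / b := by rwa [le_div_iff₀ hb, one_mul]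
  have h2 : 1 ≤ |τ| / a := by
    rw [le_div_iff₀ ha, one_mul]
    exact hab.trans hτ
  unfold hh
  rw [max_eq_right (by linarith), max_eq_right (by linarith), sub_zero]

/-- the Fourier transform of the triangle function -/
theorem Planch_Kf (a t : ℝ) (ha : 0 < a) :
    Integrable (fun τ => max (1 - |τ| / a) 0 * Real.cos (τ * t)) ∧
      Kf a t = ∫ τ, max (1 - |τ| / a) 0 * Real.cos (τ * t) := by
  have hcont : Continuous (fun τ : ℝ => max (1 - |τ| / a) 0 * Real.cos (τ * t)) := by fun_prop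
  have hzero : ∀ τ : ℝ, a ≤ |τ| → max (1 - |τ| / a) 0 = 0 := by
    intro τ h
    apply max_eq_right
    have : 1 ≤ |τ| / a := by rwa [le_div_iff₀ ha, one_mul]
    linarith
  constructor
  · apply hcont.integrable_of_hasCompactSupport
    apply HasCompactSupport.of_support_subset_isCompact (isCompact_Icc (a := -a) (b := a))
    intro τ hτ
    rw [Function.mem_support] at hτ
    rw [Set.mem_Icc, ← abs_le]
    by_contra h
    apply hτ
    rw [hzero τ (not_le.1 h).le, zero_mul]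
  · have h1 : (fun τ : ℝ => max (1 - |τ| / a) 0 * Real.cos (τ * t)) =
        fun τ => (fun u => max (1 - u / a) 0 * Real.cos (u * t)) |τ| := by
      funext τ
      have : Real.cos (|τ| * t) = Real.cos (τ * t) := by
        rcases abs_choice τ with h | h
        · rw [h]
        · rw [h, neg_mul, Real.cos_neg]
      simp only [this]
    rw [h1, integral_comp_abs (f := fun u => max (1 - u / a) 0 * Real.cos (u * t))]
    have h2 : ∫ u in Set.Ioi (0 : ℝ), max (1 - u / a) 0 * Real.cos (u * t) =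
        ∫ u in Set.Ioc 0 a, max (1 - u / a) 0 * Real.cos (u * t) := by
      apply setIntegral_eq_of_subset_of_forall_sdiff_eq_zero measurableSet_Ioi
        Set.Ioc_subset_Ioi_self
      rintro u ⟨hu1, hu2⟩
      have hu3 : a < u := by
        by_contra h
        exact hu2 ⟨hu1, not_lt.1 h⟩
      have h3 := hzero u (by rw [abs_of_pos hu1]; exact hu3.le)
      rw [abs_of_pos hu1] at h3
      rw [h3, zero_mul]
    rw [h2, ← intervalIntegral.integral_of_le ha.le]
    have h3 : ∫ u in (0 : ℝ)..a, max (1 - u / a) 0 * Real.cos (u * t) =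
        ∫ u in (0 : ℝ)..a, (1 - u / a) * Real.cos (u * t) := by
      apply intervalIntegral.integral_congr
      intro u hu
      rw [Set.uIcc_of_le ha.le] at hu
      simp only
      rw [max_eq_left]
      have : u / a ≤ 1 := by rw [div_le_one ha]; exact hu.2
      linarith
    rw [h3]
    unfold Kf
    by_cases ht : t = 0
    · subst ht
      have h4 : ∀ u : ℝ, HasDerivAt (fun u => u - u ^ 2 / (2 * a)) ((1 - u / a) * Real.cos (u * 0)) u := by
        intro u
        have := (hasDerivAt_id u).sub (((hasDerivAt_pow 2 u)).div_const (2 * a))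
        refine this.congr_deriv ?_
        simp
        field_simp
      rw [intervalIntegral.integral_eq_sub_of_hasDerivAt (fun u _ => h4 u)
        (Continuous.intervalIntegrable (by fun_prop) _ _)]
      simp
      field_simp
      norm_num
    · have h4 : ∀ u : ℝ, HasDerivAt
          (fun u => (1 - u / a) * Real.sin (u * t) / t - Real.cos (u * t) / (a * t ^ 2))
          ((1 - u / a) * Real.cos (u * t)) u := by
        intro u
        have e1 : HasDerivAt (fun u => u * t) t u := by simpa using (hasDerivAt_id u).mul_const t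
        have e2 : HasDerivAt (fun u => 1 - u / a) (-(1 / a)) u := by
          simpa using ((hasDerivAt_id u).div_const a).const_sub 1
        have e3 := ((e2.mul e1.sin).div_const t).sub ((e1.cos).div_const (a * t ^ 2))
        refine e3.congr_deriv ?_
        field_simp
        ring
      rw [intervalIntegral.integral_eq_sub_of_hasDerivAt (fun u _ => h4 u)
        (Continuous.intervalIntegrable (by fun_prop) _ _)]
      have h5 : a * t / 2 ≠ 0 := by positivity
      rw [Real.sinc_of_ne_zero h5]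
      have h6 : Real.cos (a * t) = 1 - 2 * Real.sin (a * t / 2) ^ 2 := by
        have := Real.cos_two_mul (a * t / 2)
        rw [show 2 * (a * t / 2) = a * t by ring] at this
        rw [this, Real.cos_sq']
        ring
      simp only [zero_div, sub_zero, zero_mul, Real.sin_zero, mul_zero, Real.cos_zero,
        div_self ha.ne', sub_self]
      rw [h6]
      field_simp
      ring

/-- `Kf a t = ∫_(-a)^a (1 - |τ|/a) cos (τ t) dτ` (explicit antiderivative on `[0, a]`: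
`(1 - τ/a) sin (τ t) / t - cos (τ t) / (a t^2)`; for `t = 0` both sides are `a`), and subtract. -/
theorem Hf_eq (a b t : ℝ) (ha : 0 < a) (hab : a ≤ b) : Hf a b t = ∫ τ, hh a b τ * Real.cos (τ * t) := by
  obtain ⟨h1, h2⟩ := Planch_Kf a t ha
  obtain ⟨h3, h4⟩ := Planch_Kf b t (ha.trans_le hab)
  unfold Hf
  rw [h2, h4, ← integral_sub h1 h3]
  congr 1
  funext τ
  unfold hh
  ring

theorem Planch_supp (a b : ℝ) (ha : 0 < a) (hab : a ≤ b) : HasCompactSupport (hh a b) := by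
  apply HasCompactSupport.of_support_subset_isCompact (isCompact_Icc (a := -b) (b := b))
  intro τ hτ
  rw [Function.mem_support] at hτ
  rw [Set.mem_Icc, ← abs_le]
  by_contra h
  exact hτ (hh_zero a b τ ha hab (not_le.1 h).le)

theorem Planch_int (a b : ℝ) (ha : 0 < a) (hab : a ≤ b) {g : ℝ → ℂ} (hg : Continuous g) :
    Integrable (fun τ => (hh a b τ : ℂ) * g τ) := by
  have h1 : Continuous (fun τ => (hh a b τ : ℂ) * g τ) :=
    (Complex.continuous_ofReal.comp (hh_cont a b)).mul hg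
  apply h1.integrable_of_hasCompactSupport
  have h2 : HasCompactSupport (fun τ => (hh a b τ : ℂ)) :=
    (Planch_supp a b ha hab).comp_left (g := fun x : ℝ => (x : ℂ)) Complex.ofReal_zero
  exact h2.mul_right

theorem Planch_FT (a b t : ℝ) (ha : 0 < a) (hab : a ≤ b) :
    ∫ τ, (hh a b τ : ℂ) * Complex.exp (((-(τ * t) : ℝ) : ℂ) * Complex.I) = (Hf a b t : ℂ) := by
  have hint := Planch_int a b ha hab (g := fun τ => Complex.exp (((-(τ * t) : ℝ) : ℂ) * Complex.I))
    (by fun_prop)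
  have hre : ∀ τ : ℝ, ((hh a b τ : ℂ) * Complex.exp (((-(τ * t) : ℝ) : ℂ) * Complex.I)).re =
      hh a b τ * Real.cos (τ * t) := by
    intro τ
    rw [Complex.re_ofReal_mul, Complex.exp_ofReal_mul_I_re, Real.cos_neg]
  have him : ∀ τ : ℝ, ((hh a b τ : ℂ) * Complex.exp (((-(τ * t) : ℝ) : ℂ) * Complex.I)).im =
      -(hh a b τ * Real.sin (τ * t)) := by
    intro τ
    rw [Complex.im_ofReal_mul, Complex.exp_ofReal_mul_I_im, Real.sin_neg]
    ring
  have h1 := integral_re_add_im hint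
  have h2 : ∫ τ, RCLike.re ((hh a b τ : ℂ) * Complex.exp (((-(τ * t) : ℝ) : ℂ) * Complex.I)) =
      Hf a b t := by
    rw [Hf_eq a b t ha hab]
    exact integral_congr_ae (Filter.Eventually.of_forall hre)
  have h3 : ∫ τ, RCLike.im ((hh a b τ : ℂ) * Complex.exp (((-(τ * t) : ℝ) : ℂ) * Complex.I)) =
      0 := by
    have h4 : ∫ τ, RCLike.im ((hh a b τ : ℂ) *
        Complex.exp (((-(τ * t) : ℝ) : ℂ) * Complex.I)) =
        ∫ τ, -(hh a b τ * Real.sin (τ * t)) :=
      integral_congr_ae (Filter.Eventually.of_forall him)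
    rw [h4]
    have h5 := integral_neg_eq_self (fun τ => -(hh a b τ * Real.sin (τ * t))) volume
    have h6 : ∫ τ, -(hh a b (-τ) * Real.sin (-τ * t)) =
        - ∫ τ, -(hh a b τ * Real.sin (τ * t)) := by
      rw [← integral_neg]
      congr 1
      funext τ
      rw [hh_even, neg_mul, Real.sin_neg]
      ring
    rw [h6] at h5
    linarith
  rw [h2, h3] at h1
  rw [← h1]
  simp

theorem Planch_Hf_int (a b : ℝ) (ha : 0 < a) (hab : a ≤ b) : Integrable (Hf a b) := by
  have h1 : Integrable (fun t : ℝ => (4 * b + 16 / a) * (1 + t ^ 2)⁻¹) :=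
    integrable_inv_one_add_sq.const_mul _
  refine h1.mono' (Hf_cont a b).aestronglyMeasurable (Filter.Eventually.of_forall fun t => ?_)
  rw [Real.norm_eq_abs, ← div_eq_mul_inv]
  exact Hf_le a b t ha hab

open FourierTransform in
/-- `H = Hf a b` is continuous and integrable (`Hf_le`), `h = hh a b` is continuous with compact support, even, and
`H t = ∫ h τ e^(i τ t) dτ`, i.e. `H (2 π x) = 𝓕⁻ h x`-type formula with Mathlib's normalisation. Fourier inversion (Mathlib:
`MeasureTheory.Integrable.fourierInv_fourier_eq` or `Continuous.fourierInv_fourier_eq`) gives `∫ H t e^(i τ t) dt = 2 π h τ`.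
Then Fubini: `∫ H t H (t + u) dt = ∫ H t ∫ h τ cos (τ (t + u)) dτ dt = ∫ h τ (cos (τ u) 2 π h τ - sin (τ u) * 0) dτ`
(`∫ H t sin (τ t) dt = 0`, `H` even). -/
theorem planch (a b u : ℝ) (ha : 0 < a) (hab : a ≤ b) :
    ∫ t, Hf a b t * Hf a b (t + u) = 2 * Real.pi * ∫ τ, hh a b τ ^ 2 * Real.cos (τ * u) := by
  have hpi : (0 : ℝ) < 2 * Real.pi := by positivity
  set F1 : ℝ → ℂ := fun τ => (hh a b τ : ℂ) * Complex.exp (((-(τ * u) : ℝ) : ℂ) * Complex.I)
    with hF1
  set F2 : ℝ → ℂ := fun τ => (hh a b τ : ℂ) with hF2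
  have hF1i : Integrable F1 := Planch_int a b ha hab (by fun_prop)
  have hF2i : Integrable F2 := by
    have := Planch_int a b ha hab (g := fun _ => (1 : ℂ)) continuous_const
    simpa using this
  have hF2c : Continuous F2 := Complex.continuous_ofReal.comp (hh_cont a b)
  have e1 : ∀ w : ℝ, 𝓕 F1 w = (Hf a b (2 * Real.pi * w + u) : ℂ) := by
    intro w
    rw [Real.fourier_real_eq_integral_exp_smul, ← Planch_FT a b _ ha hab]
    congr 1
    funext τ
    rw [hF1, smul_eq_mul, mul_left_comm, ← Complex.exp_add]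
    congr 2
    push_cast
    ring
  have e2 : ∀ w : ℝ, 𝓕 F2 w = (Hf a b (2 * Real.pi * w) : ℂ) := by
    intro w
    rw [Real.fourier_real_eq_integral_exp_smul, ← Planch_FT a b _ ha hab]
    congr 1
    funext τ
    rw [hF2, smul_eq_mul, mul_comm]
    congr 2
    push_cast
    ring
  have e3 : Integrable (𝓕 F2) := by
    have h1 : 𝓕 F2 = fun w => ((Hf a b (2 * Real.pi * w) : ℝ) : ℂ) := funext e2
    rw [h1]
    exact ((Planch_Hf_int a b ha hab).comp_mul_left' hpi.ne').ofReal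
  have e4 : ∀ x : ℝ, 𝓕 (𝓕 F2) x = (hh a b x : ℂ) := by
    intro x
    have h1 := congrFun (hF2c.fourierInv_fourier_eq hF2i e3) (-x)
    rw [Real.fourierInv_eq_fourier_neg, neg_neg] at h1
    rw [h1, hF2]
    simp only
    rw [hh_even]
  have key : ∫ ξ, 𝓕 F1 ξ • 𝓕 F2 ξ = ∫ x, F1 x • 𝓕 (𝓕 F2) x := by
    have := VectorFourier.integral_fourierIntegral_smul_eq_flip (L := innerₗ ℝ)
      Real.continuous_fourierChar continuous_inner hF1i e3
    rw [flip_innerₗ] at this
    exact this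
  simp only [e1, e2, e4, smul_eq_mul] at key
  have k1 : ∫ ξ : ℝ, ((Hf a b (2 * Real.pi * ξ + u) : ℝ) : ℂ) * ((Hf a b (2 * Real.pi * ξ) : ℝ) : ℂ) =
      (((2 * Real.pi)⁻¹ * ∫ t, Hf a b t * Hf a b (t + u) : ℝ) : ℂ) := by
    have h1 := Measure.integral_comp_mul_left (fun t => Hf a b t * Hf a b (t + u)) (2 * Real.pi)
    rw [abs_of_pos (inv_pos.2 hpi), smul_eq_mul] at h1
    have h2 := integral_complex_ofReal
      (f := fun x => Hf a b (2 * Real.pi * x) * Hf a b (2 * Real.pi * x + u)) (μ := volume)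
    rw [← h1, ← h2]
    congr 1
    funext ξ
    push_cast
    ring
  rw [k1] at key
  have k2 := congrArg Complex.re key
  rw [Complex.ofReal_re] at k2
  have k3 : (∫ x, F1 x * (hh a b x : ℂ)).re = ∫ τ, hh a b τ ^ 2 * Real.cos (τ * u) := by
    have hint : Integrable (fun x => F1 x * (hh a b x : ℂ)) := by
      have := Planch_int a b ha hab (g := fun τ =>
        Complex.exp (((-(τ * u) : ℝ) : ℂ) * Complex.I) * (hh a b τ : ℂ)) (by
          have := Complex.continuous_ofReal.comp (hh_cont a b)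
          fun_prop)
      refine this.congr (Filter.Eventually.of_forall fun τ => ?_)
      simp only [hF1]
      ring
    have h1 := integral_re hint
    have h2 : (∫ x, F1 x * (hh a b x : ℂ)).re = ∫ x, RCLike.re (F1 x * (hh a b x : ℂ)) := h1.symm
    rw [h2]
    congr 1
    funext τ
    change (F1 τ * (hh a b τ : ℂ)).re = _
    rw [hF1]
    simp only
    rw [Complex.re_mul_ofReal, Complex.re_ofReal_mul, Complex.exp_ofReal_mul_I_re, Real.cos_neg]
    ring
  rw [k3] at k2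
  rw [← k2]
  field_simp

end Pool.Agent.OmAll

end

/-! ### from `Lib_MP_f1a94e_eq.Mol` -/

section

/-!
# Piece MOL: approximation by band limited functions
-/

set_option autoImplicit false

namespace Pool.Agent.OmEq

open Finset Pool.Agent.OmAll MeasureTheory

theorem mol_kle (a v : ℝ) (ha : 0 < a) : Kf a v * (1 + v ^ 2) ≤ a + 4 / a := by
  have h1 := Kf_le a v ha.le
  have h2 := Kf_nonneg a v ha.le
  have h3 : Kf a v * v ^ 2 ≤ 4 / a := by
    by_cases hv : v = 0
    · rw [hv]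
      have : 0 < 4 / a := by positivity
      simpa using this.le
    · have h4 := Kf_le_sq a v ha hv
      have hv2 : 0 < v ^ 2 := by positivity
      calc Kf a v * v ^ 2 ≤ 4 / (a * v ^ 2) * v ^ 2 := mul_le_mul_of_nonneg_right h4 hv2.le
        _ = 4 / a := by field_simp
  nlinarith

theorem mol_kint : Integrable (Kf 1) := by
  have h1 : Integrable (fun v : ℝ => 5 * (1 + v ^ 2)⁻¹) := integrable_inv_one_add_sq.const_mul 5
  refine h1.mono' (Kf_cont 1).aestronglyMeasurable (Filter.Eventually.of_forall fun v => ?_)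
  rw [Real.norm_eq_abs, abs_of_nonneg (Kf_nonneg 1 v zero_le_one)]
  have h2 := mol_kle 1 v one_pos
  have h3 : (0 : ℝ) < 1 + v ^ 2 := by positivity
  rw [← div_eq_mul_inv, le_div_iff₀ h3]
  linarith

/-- the normalising constant -/
noncomputable def molI : ℝ := ∫ v, Kf 1 v

theorem molI_pos : 0 < molI := by
  refine integral_pos_of_integrable_nonneg_nonzero (x := 0) (Kf_cont 1) mol_kint
    (fun v => Kf_nonneg 1 v zero_le_one) ?_
  unfold Kf
  simp

/-- the normalised kernel -/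
noncomputable def molK (v : ℝ) : ℝ := Kf 1 v / molI

theorem molK_cont : Continuous molK := (Kf_cont 1).div_const _

theorem molK_nonneg (v : ℝ) : 0 ≤ molK v := div_nonneg (Kf_nonneg 1 v zero_le_one) molI_pos.le

theorem molK_int : Integrable molK := mol_kint.div_const _

theorem molK_one : ∫ v, molK v = 1 := by
  unfold molK
  rw [integral_div]
  exact div_self molI_pos.ne'

theorem molK_sq (v : ℝ) : molK v * v ^ 2 ≤ 4 / molI := by
  have h : Kf 1 v * v ^ 2 ≤ 4 := by
    by_cases hv : v = 0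
    · rw [hv]
      norm_num
    · have h4 := Kf_le_sq 1 v one_pos hv
      have hv2 : 0 < v ^ 2 := by positivity
      calc Kf 1 v * v ^ 2 ≤ 4 / (1 * v ^ 2) * v ^ 2 := mul_le_mul_of_nonneg_right h4 hv2.le
        _ = 4 := by field_simp
  unfold molK
  rw [div_mul_eq_mul_div]
  exact div_le_div_of_nonneg_right h molI_pos.le

/-- the mollified function -/
noncomputable def molPsi (w : ℝ → ℂ) (b t : ℝ) : ℂ := ∫ v, ((molK v : ℝ) : ℂ) * w (t - v / b)

theorem mol_bound (w : ℝ → ℂ) (hw : Continuous w) (hwi : Integrable w) (A M b t : ℝ) (hb : 1 ≤ b)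
    (hA : ∀ s, A < |s| → w s = 0) (hM : ∀ s, ‖w s‖ ≤ M) :
    ‖molPsi w b t‖ * (1 + t ^ 2) ≤ 2 * (1 + A ^ 2) * (M + 4 / molI * ∫ s, ‖w s‖) := by
  have hb0 : 0 < b := by linarith
  have hI := molI_pos
  set W := ∫ s, ‖w s‖ with hW
  have hW0 : 0 ≤ W := integral_nonneg fun s => norm_nonneg _
  have e1 : (∫ v, ‖w (t - v / b)‖) = b * W := by
    rw [Measure.integral_comp_div (fun x => ‖w (t - x)‖) b, abs_of_pos hb0, smul_eq_mul,
      integral_sub_left_eq_self (fun x => ‖w x‖) volume t]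
  have i1 : Integrable (fun v => ‖w (t - v / b)‖) :=
    ((hwi.comp_sub_left t).comp_div hb0.ne').norm
  have key : ∀ v : ℝ, (1 + t ^ 2) * (molK v * ‖w (t - v / b)‖) ≤
      2 * (1 + A ^ 2) * (M * molK v + 4 / molI / b ^ 2 * ‖w (t - v / b)‖) := by
    intro v
    have hk := molK_nonneg v
    have hn := norm_nonneg (w (t - v / b))
    by_cases hv : A < |t - v / b|
    · rw [hA _ hv, norm_zero, mul_zero, mul_zero, mul_zero, add_zero]
      have hM0 : 0 ≤ M := (norm_nonneg _).trans (hM 0)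
      positivity
    · push Not at hv
      have h1 : (t - v / b) ^ 2 ≤ A ^ 2 := by
        rw [← sq_abs (t - v / b)]
        exact pow_le_pow_left₀ (abs_nonneg _) hv 2
      have h2 : 1 + t ^ 2 ≤ 2 * (1 + A ^ 2) * (1 + (v / b) ^ 2) := by
        nlinarith [sq_nonneg (t - v / b - v / b), sq_nonneg (A * (v / b)), sq_nonneg (v / b),
          sq_nonneg A]
      have h3 : molK v * (v / b) ^ 2 ≤ 4 / molI / b ^ 2 := by
        have h4 := molK_sq v
        rw [div_pow, ← mul_div_assoc]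
        exact div_le_div_of_nonneg_right h4 (by positivity)
      calc (1 + t ^ 2) * (molK v * ‖w (t - v / b)‖)
          ≤ (2 * (1 + A ^ 2) * (1 + (v / b) ^ 2)) * (molK v * ‖w (t - v / b)‖) :=
            mul_le_mul_of_nonneg_right h2 (by positivity)
        _ = 2 * (1 + A ^ 2) * (molK v * ‖w (t - v / b)‖ +
              molK v * (v / b) ^ 2 * ‖w (t - v / b)‖) := by ring
        _ ≤ 2 * (1 + A ^ 2) * (M * molK v + 4 / molI / b ^ 2 * ‖w (t - v / b)‖) := by
            refine mul_le_mul_of_nonneg_left (add_le_add ?_ ?_) (by positivity)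
            · rw [mul_comm M]
              exact mul_le_mul_of_nonneg_left (hM _) hk
            · exact mul_le_mul_of_nonneg_right h3 hn
  have i2 : Integrable (fun v => molK v * ‖w (t - v / b)‖) := by
    refine (molK_int.mul_const M).mono' ?_ (Filter.Eventually.of_forall fun v => ?_)
    · have := molK_cont
      exact Continuous.aestronglyMeasurable (by fun_prop)
    · rw [norm_mul, norm_norm, Real.norm_eq_abs, abs_of_nonneg (molK_nonneg v)]
      exact mul_le_mul_of_nonneg_left (hM _) (molK_nonneg v)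
  have h5 : ‖molPsi w b t‖ ≤ ∫ v, molK v * ‖w (t - v / b)‖ := by
    unfold molPsi
    refine (norm_integral_le_integral_norm _).trans (le_of_eq ?_)
    refine integral_congr_ae (Filter.Eventually.of_forall fun v => ?_)
    simp only [norm_mul, Complex.norm_real, Real.norm_eq_abs, abs_of_nonneg (molK_nonneg v)]
  calc ‖molPsi w b t‖ * (1 + t ^ 2) ≤ (∫ v, molK v * ‖w (t - v / b)‖) * (1 + t ^ 2) :=
        mul_le_mul_of_nonneg_right h5 (by positivity)
    _ = ∫ v, (1 + t ^ 2) * (molK v * ‖w (t - v / b)‖) := by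
        rw [integral_const_mul, mul_comm]
    _ ≤ ∫ v, 2 * (1 + A ^ 2) * (M * molK v + 4 / molI / b ^ 2 * ‖w (t - v / b)‖) := by
        refine integral_mono (i2.const_mul _) ?_ key
        exact ((molK_int.const_mul _).add (i1.const_mul _)).const_mul _
    _ = 2 * (1 + A ^ 2) * (M + 4 / molI / b ^ 2 * (b * W)) := by
        rw [integral_const_mul, integral_add (molK_int.const_mul _) (i1.const_mul _),
          integral_const_mul, integral_const_mul, molK_one, e1, mul_one]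
    _ ≤ 2 * (1 + A ^ 2) * (M + 4 / molI * W) := by
        refine mul_le_mul_of_nonneg_left (add_le_add le_rfl ?_) (by positivity)
        have h6 : 4 / molI / b ^ 2 * (b * W) = (4 / molI * W) / b := by
          field_simp
        rw [h6]
        exact div_le_self (by positivity) hb

theorem mol_tend (w : ℝ → ℂ) (hw : Continuous w) (M t : ℝ) (hM : ∀ s, ‖w s‖ ≤ M) :
    Filter.Tendsto (fun n : ℕ => molPsi w ((n : ℝ) + 1) t) Filter.atTop (nhds (w t)) := by
  have e : w t = ∫ v, ((molK v : ℝ) : ℂ) * w t := by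
    rw [integral_mul_const, integral_complex_ofReal, molK_one]
    simp
  rw [e]
  unfold molPsi
  refine tendsto_integral_of_dominated_convergence (fun v => molK v * M) (fun n => ?_)
    (molK_int.mul_const M) (fun n => Filter.Eventually.of_forall fun v => ?_)
    (Filter.Eventually.of_forall fun v => ?_)
  · have := molK_cont
    exact Continuous.aestronglyMeasurable (by fun_prop)
  · rw [norm_mul, Complex.norm_real, Real.norm_eq_abs, abs_of_nonneg (molK_nonneg v)]
    exact mul_le_mul_of_nonneg_left (hM _) (molK_nonneg v)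
  · refine Filter.Tendsto.const_mul _ ?_
    have h1 : Filter.Tendsto (fun n : ℕ => t - v / ((n : ℝ) + 1)) Filter.atTop (nhds (t - 0)) := by
      refine tendsto_const_nhds.sub ?_
      have h2 := (tendsto_one_div_add_atTop_nhds_zero_nat (𝕜 := ℝ)).const_mul v
      rw [mul_zero] at h2
      refine h2.congr (fun n => ?_)
      rw [mul_one_div]
    rw [sub_zero] at h1
    exact (hw.tendsto t).comp h1

/-- the Fourier transform -/
noncomputable def molF (w : ℝ → ℂ) (τ : ℝ) : ℂ :=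
  ∫ s, w s * Complex.exp (((-(τ * s) : ℝ) : ℂ) * Complex.I)

theorem molF_cont (w : ℝ → ℂ) (hw : Continuous w) (hwi : Integrable w) : Continuous (molF w) := by
  unfold molF
  refine continuous_of_dominated (bound := fun s => ‖w s‖) (fun τ => ?_)
    (fun τ => Filter.Eventually.of_forall fun s => ?_) hwi.norm
    (Filter.Eventually.of_forall fun s => ?_)
  · exact Continuous.aestronglyMeasurable (by fun_prop)
  · rw [norm_mul, Complex.norm_exp_ofReal_mul_I, mul_one]
  · fun_prop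

/-- the Fourier transform of the mollified function -/
noncomputable def molPhi (w : ℝ → ℂ) (b τ : ℝ) : ℂ :=
  ((max (1 - |τ| / b) 0 / molI : ℝ) : ℂ) * molF w τ

theorem molPhi_cont (w : ℝ → ℂ) (hw : Continuous w) (hwi : Integrable w) (b : ℝ) :
    Continuous (molPhi w b) := by
  unfold molPhi
  have := molF_cont w hw hwi
  fun_prop

theorem mol_tri_zero (b τ : ℝ) (hb : 0 < b) (h : b ≤ |τ|) : max (1 - |τ| / b) 0 = 0 := by
  apply max_eq_right
  have : 1 ≤ |τ| / b := by rwa [le_div_iff₀ hb, one_mul]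
  linarith

theorem molPhi_zero (w : ℝ → ℂ) (b τ : ℝ) (hb : 0 < b) (h : b ≤ |τ|) : molPhi w b τ = 0 := by
  unfold molPhi
  rw [mol_tri_zero b τ hb h]
  simp

theorem mol_tri_exp (b u : ℝ) (hb : 0 < b) :
    ((Kf b u : ℝ) : ℂ) = ∫ τ : ℝ, ((max (1 - |τ| / b) 0 : ℝ) : ℂ) *
      Complex.exp (((τ * u : ℝ) : ℂ) * Complex.I) := by
  have hc : Continuous (fun τ : ℝ => max (1 - |τ| / b) 0) := by fun_prop
  have hs : HasCompactSupport (fun τ : ℝ => max (1 - |τ| / b) 0) := by
    apply HasCompactSupport.of_support_subset_isCompact (isCompact_Icc (a := -b) (b := b))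
    intro τ hτ
    rw [Function.mem_support] at hτ
    rw [Set.mem_Icc, ← abs_le]
    by_contra h
    exact hτ (mol_tri_zero b τ hb (not_le.1 h).le)
  have i1 : Integrable (fun τ : ℝ => max (1 - |τ| / b) 0 * Real.cos (τ * u)) :=
    (Planch_Kf b u hb).1
  have i2 : Integrable (fun τ : ℝ => max (1 - |τ| / b) 0 * Real.sin (τ * u)) :=
    Continuous.integrable_of_hasCompactSupport (by fun_prop) hs.mul_right
  have e0 : ∫ τ : ℝ, max (1 - |τ| / b) 0 * Real.sin (τ * u) = 0 := by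
    have h1 := integral_neg_eq_self (fun τ : ℝ => max (1 - |τ| / b) 0 * Real.sin (τ * u)) volume
    have h2 : (fun τ : ℝ => max (1 - |-τ| / b) 0 * Real.sin (-τ * u)) =
        fun τ : ℝ => -(max (1 - |τ| / b) 0 * Real.sin (τ * u)) := by
      funext τ
      rw [abs_neg, neg_mul, Real.sin_neg, mul_neg]
    rw [h2, integral_neg] at h1
    linarith
  have e1 : (fun τ : ℝ => ((max (1 - |τ| / b) 0 : ℝ) : ℂ) *
      Complex.exp (((τ * u : ℝ) : ℂ) * Complex.I)) =
      fun τ : ℝ => ((max (1 - |τ| / b) 0 * Real.cos (τ * u) : ℝ) : ℂ) +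
        ((max (1 - |τ| / b) 0 * Real.sin (τ * u) : ℝ) : ℂ) * Complex.I := by
    funext τ
    rw [Complex.exp_mul_I, ← Complex.ofReal_cos, ← Complex.ofReal_sin]
    push_cast
    ring
  rw [e1, integral_add i1.ofReal (i2.ofReal.mul_const _), integral_mul_const,
    integral_complex_ofReal, integral_complex_ofReal, e0, ← (Planch_Kf b u hb).2]
  simp

theorem mol_four (w : ℝ → ℂ) (hw : Continuous w) (hc : HasCompactSupport w) (b t : ℝ)
    (hb : 0 < b) :
    molPsi w b t = ∫ τ, molPhi w b τ * Complex.exp ((τ * t : ℝ) * Complex.I) := by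
  have hI := molI_pos
  have e1 : molPsi w b t = ∫ s, w s * ((Kf b (t - s) / molI : ℝ) : ℂ) := by
    unfold molPsi
    have h1 : (fun v : ℝ => ((molK v : ℝ) : ℂ) * w (t - v / b)) =
        fun v => (fun x => ((molK (b * x) : ℝ) : ℂ) * w (t - x)) (v / b) := by
      funext v
      have : b * (v / b) = v := by field_simp
      simp only [this]
    rw [h1, Measure.integral_comp_div (fun x : ℝ => ((molK (b * x) : ℝ) : ℂ) * w (t - x)) b,
      abs_of_pos hb]
    have h2 : (fun x : ℝ => ((molK (b * x) : ℝ) : ℂ) * w (t - x)) =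
        fun x => (fun s => ((molK (b * (t - s)) : ℝ) : ℂ) * w s) (t - x) := by
      funext x
      simp only [sub_sub_cancel]
    rw [h2, integral_sub_left_eq_self (fun s => ((molK (b * (t - s)) : ℝ) : ℂ) * w s) volume t,
      ← integral_smul]
    refine integral_congr_ae (Filter.Eventually.of_forall fun s => ?_)
    simp only [molK, Kf]
    rw [Complex.real_smul]
    have h3 : 1 * (b * (t - s)) / 2 = b * (t - s) / 2 := by ring
    rw [h3]
    push_cast
    ring
  have e2 : ∀ s : ℝ, w s * ((Kf b (t - s) / molI : ℝ) : ℂ) =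
      ∫ τ : ℝ, w s * (((max (1 - |τ| / b) 0 / molI : ℝ) : ℂ) *
        Complex.exp (((τ * (t - s) : ℝ) : ℂ) * Complex.I)) := by
    intro s
    rw [integral_const_mul]
    congr 1
    rw [Complex.ofReal_div, mol_tri_exp b (t - s) hb, ← integral_div]
    refine integral_congr_ae (Filter.Eventually.of_forall fun τ => ?_)
    simp only
    push_cast
    ring
  rw [e1]
  simp only [e2]
  rw [integral_integral_swap_of_hasCompactSupport]
  · refine integral_congr_ae (Filter.Eventually.of_forall fun τ => ?_)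
    simp only
    unfold molPhi molF
    rw [mul_assoc, mul_comm (∫ s, w s * _) _, ← mul_assoc, ← integral_const_mul]
    refine integral_congr_ae (Filter.Eventually.of_forall fun s => ?_)
    simp only
    have h4 : Complex.exp (((τ * (t - s) : ℝ) : ℂ) * Complex.I) =
        Complex.exp (((τ * t : ℝ) : ℂ) * Complex.I) *
          Complex.exp (((-(τ * s) : ℝ) : ℂ) * Complex.I) := by
      rw [← Complex.exp_add]
      congr 1
      push_cast
      ring
    rw [h4]
    ring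
  · unfold Function.uncurry
    fun_prop
  · have hs : HasCompactSupport (fun p : ℝ × ℝ => w p.1 * ((max (1 - |p.2| / b) 0 : ℝ) : ℂ)) := by
      apply HasCompactSupport.of_support_subset_isCompact
        (hc.isCompact.prod (isCompact_Icc (a := -b) (b := b)))
      rintro ⟨s, τ⟩ hp
      rw [Function.mem_support] at hp
      constructor
      · apply subset_tsupport
        rw [Function.mem_support]
        exact left_ne_zero_of_mul hp
      · show τ ∈ Set.Icc (-b) b
        rw [Set.mem_Icc, ← abs_le]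
        by_contra h
        apply right_ne_zero_of_mul hp
        simp only
        rw [mol_tri_zero b τ hb (not_le.1 h).le]
        simp
    have e3 : (Function.uncurry fun s τ : ℝ => w s * (((max (1 - |τ| / b) 0 / molI : ℝ) : ℂ) *
        Complex.exp (((τ * (t - s) : ℝ) : ℂ) * Complex.I))) =
        fun p : ℝ × ℝ => (w p.1 * ((max (1 - |p.2| / b) 0 : ℝ) : ℂ)) *
          ((1 / molI : ℝ) * Complex.exp (((p.2 * (t - p.1) : ℝ) : ℂ) * Complex.I)) := by
      funext p
      unfold Function.uncurry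
      simp only
      push_cast
      ring
    rw [e3]
    exact hs.mul_right

theorem mol_small (w : ℝ → ℂ) (hw : Continuous w) (hc : HasCompactSupport w)
    (h0 : (∫ t, w t) = 0) (b τ : ℝ) (hb : 0 < b) :
    ‖molPhi w b τ‖ ≤ (1 / molI * ∫ s, |s| * ‖w s‖) * |τ| := by
  have hI := molI_pos
  have hwi : Integrable w := hw.integrable_of_hasCompactSupport hc
  have i1 : Integrable (fun s => w s * Complex.exp (((-(τ * s) : ℝ) : ℂ) * Complex.I)) :=
    Continuous.integrable_of_hasCompactSupport (by fun_prop) hc.mul_right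
  have i2 : Integrable (fun s => |s| * ‖w s‖) :=
    Continuous.integrable_of_hasCompactSupport (by fun_prop) hc.norm.mul_left
  have h1 : molF w τ = ∫ s, w s * (Complex.exp (((-(τ * s) : ℝ) : ℂ) * Complex.I) - 1) := by
    have h2 : (fun s => w s * (Complex.exp (((-(τ * s) : ℝ) : ℂ) * Complex.I) - 1)) =
        fun s => w s * Complex.exp (((-(τ * s) : ℝ) : ℂ) * Complex.I) - w s := by
      funext s
      ring
    rw [h2, integral_sub i1 hwi, h0, sub_zero]
    rfl
  have h3 : ‖molF w τ‖ ≤ |τ| * ∫ s, |s| * ‖w s‖ := by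
    rw [h1, ← integral_const_mul]
    refine norm_integral_le_of_norm_le (i2.const_mul _) (Filter.Eventually.of_forall fun s => ?_)
    rw [norm_mul, mul_comm ((-(τ * s) : ℝ) : ℂ) Complex.I]
    have h4 := Real.norm_exp_I_mul_ofReal_sub_one_le (x := -(τ * s))
    rw [Real.norm_eq_abs, abs_neg, abs_mul] at h4
    calc ‖w s‖ * ‖Complex.exp (Complex.I * ((-(τ * s) : ℝ) : ℂ)) - 1‖
        ≤ ‖w s‖ * (|τ| * |s|) := mul_le_mul_of_nonneg_left h4 (norm_nonneg _)
      _ = |τ| * (|s| * ‖w s‖) := by ring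
  have h5 : ‖((max (1 - |τ| / b) 0 / molI : ℝ) : ℂ)‖ ≤ 1 / molI := by
    rw [Complex.norm_real, Real.norm_eq_abs, abs_of_nonneg (by positivity)]
    refine div_le_div_of_nonneg_right ?_ hI.le
    refine max_le ?_ zero_le_one
    have : 0 ≤ |τ| / b := by positivity
    linarith
  unfold molPhi
  rw [norm_mul]
  calc ‖((max (1 - |τ| / b) 0 / molI : ℝ) : ℂ)‖ * ‖molF w τ‖
      ≤ 1 / molI * (|τ| * ∫ s, |s| * ‖w s‖) :=
        mul_le_mul h5 h3 (norm_nonneg _) (by positivity)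
    _ = (1 / molI * ∫ s, |s| * ‖w s‖) * |τ| := by ring

/-- PROOF. `ψ = w * k_b`, `k_b (t) = Kf b t / (2 π)` (`Kf b t = ∫ τ, max (1 - |τ|/b) 0 * cos (τ t)`, `Planch_Kf`), `∫ k_b = 1` (Fourier inversion, or
`∫ sinc^2`; if inconvenient any other nonnegative band limited kernel with `|k(t)| ≤ C/(1+t^2)` and integral 1 may be used, e.g. normalise by
its integral `I > 0`, `k_b (t) = b Kf 1 (b t) / I`). Approximate identity: `∫ ‖w t - ψ t‖ ≤ ∫ k_b (u) ∫ ‖w t - w (t - u)‖ dt du → 0` as `b → ∞` (continuity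
of translation for a continuous function with compact support, and `∫_(|u| > δ) k_b ≤ C/(b δ)`). `φ τ = (1/(2 π)) ŵ(τ) (1 - |τ|/b)^+` up to the normalisation, where
`ŵ τ = ∫ t, w t * exp (- i τ t)`: continuous, zero for `|τ| ≥ b`; Fubini gives `ψ t = ∫ τ, φ τ exp (i τ t)`. Decay: `w` vanishes for `|t| > A`, and
`k_b (u) ≤ C/(b u^2)` (`Kf_le_sq`), so `‖ψ t‖ ≤ C'/(1 + t^2)`. If `∫ w = 0` then `‖ŵ τ‖ = ‖∫ w t (exp (- i τ t) - 1)‖ ≤ |τ| ∫ |t| ‖w t‖`. -/
theorem mol (w : ℝ → ℂ) (hw : Continuous w) (hc : HasCompactSupport w) (ε : ℝ) (hε : 0 < ε) :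
    ∃ (B C : ℝ) (φ ψ : ℝ → ℂ), 0 < B ∧ 0 < C ∧ Continuous φ ∧ (∀ τ, B ≤ |τ| → φ τ = 0) ∧
      (∀ t, ψ t = ∫ τ, φ τ * Complex.exp ((τ * t : ℝ) * Complex.I)) ∧ Continuous ψ ∧
      (∀ t, ‖ψ t‖ ≤ C / (1 + t ^ 2)) ∧ (∫ t, ‖w t - ψ t‖) ≤ ε ∧
      ((∫ t, w t) = 0 → ∀ τ, ‖φ τ‖ ≤ C * |τ|) := by
  have hI := molI_pos
  have hwi : Integrable w := hw.integrable_of_hasCompactSupport hc
  obtain ⟨M, hM⟩ := hw.bounded_above_of_compact_support hc
  obtain ⟨A, hA⟩ : ∃ A : ℝ, ∀ s, A < |s| → w s = 0 := by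
    obtain ⟨A, hA⟩ := hc.isCompact.isBounded.exists_norm_le
    refine ⟨A, fun s hs => ?_⟩
    by_contra h
    have h1 := hA s (subset_tsupport w h)
    rw [Real.norm_eq_abs] at h1
    linarith
  have hM0 : 0 ≤ M := (norm_nonneg _).trans (hM 0)
  set C1 := 2 * (1 + A ^ 2) * (M + 4 / molI * ∫ s, ‖w s‖) with hC1
  have hW0 : 0 ≤ ∫ s, ‖w s‖ := integral_nonneg fun s => norm_nonneg _
  have hC10 : 0 ≤ C1 := by positivity
  set C2 := 1 / molI * ∫ s, |s| * ‖w s‖ with hC2
  have hW1 : 0 ≤ ∫ s, |s| * ‖w s‖ := integral_nonneg fun s => by positivity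
  have hC20 : 0 ≤ C2 := by positivity
  have hb1 : ∀ n : ℕ, (1 : ℝ) ≤ (n : ℝ) + 1 := fun n => by
    have : (0 : ℝ) ≤ n := Nat.cast_nonneg n
    linarith
  have hbd : ∀ (n : ℕ) (t : ℝ), ‖molPsi w ((n : ℝ) + 1) t‖ ≤ C1 / (1 + t ^ 2) := by
    intro n t
    rw [le_div_iff₀ (by positivity)]
    exact mol_bound w hw hwi A M _ t (hb1 n) hA hM
  have hcont : ∀ n : ℕ, Continuous (molPsi w ((n : ℝ) + 1)) := by
    intro n
    have hb0 : (0 : ℝ) < (n : ℝ) + 1 := by have := hb1 n; linarith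
    have h1 : molPsi w ((n : ℝ) + 1) =
        fun t => ∫ τ, molPhi w ((n : ℝ) + 1) τ * Complex.exp ((τ * t : ℝ) * Complex.I) := by
      funext t
      exact mol_four w hw hc _ t hb0
    rw [h1]
    have hp := molPhi_cont w hw hwi ((n : ℝ) + 1)
    have hps : HasCompactSupport (molPhi w ((n : ℝ) + 1)) := by
      apply HasCompactSupport.of_support_subset_isCompact
        (isCompact_Icc (a := -((n : ℝ) + 1)) (b := (n : ℝ) + 1))
      intro τ hτ
      rw [Function.mem_support] at hτ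
      rw [Set.mem_Icc, ← abs_le]
      by_contra h
      exact hτ (molPhi_zero w _ τ hb0 (not_le.1 h).le)
    refine continuous_of_dominated (bound := fun τ => ‖molPhi w ((n : ℝ) + 1) τ‖) (fun t => ?_)
      (fun t => Filter.Eventually.of_forall fun τ => ?_)
      (hp.integrable_of_hasCompactSupport hps).norm (Filter.Eventually.of_forall fun τ => ?_)
    · exact Continuous.aestronglyMeasurable (by fun_prop)
    · rw [norm_mul, Complex.norm_exp_ofReal_mul_I, mul_one]
    · fun_prop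
  have htend : Filter.Tendsto (fun n : ℕ => ∫ t, ‖w t - molPsi w ((n : ℝ) + 1) t‖) Filter.atTop
      (nhds (∫ _t : ℝ, (0 : ℝ))) := by
    refine tendsto_integral_of_dominated_convergence
      (fun t => ‖w t‖ + C1 * (1 + t ^ 2)⁻¹) (fun n => ?_)
      (hwi.norm.add (integrable_inv_one_add_sq.const_mul C1))
      (fun n => Filter.Eventually.of_forall fun t => ?_) (Filter.Eventually.of_forall fun t => ?_)
    · have := hcont n
      exact Continuous.aestronglyMeasurable (by fun_prop)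
    · rw [norm_norm]
      refine (norm_sub_le _ _).trans (add_le_add le_rfl ?_)
      rw [← div_eq_mul_inv]
      exact hbd n t
    · have h1 := (mol_tend w hw M t hM).const_sub (w t)
      rw [sub_self] at h1
      have h2 := h1.norm
      rwa [norm_zero] at h2
  rw [integral_zero] at htend
  obtain ⟨n, hn⟩ := ((tendsto_order.1 htend).2 ε hε).exists
  have hb0 : (0 : ℝ) < (n : ℝ) + 1 := by have := hb1 n; linarith
  refine ⟨(n : ℝ) + 1, C1 + C2 + 1, molPhi w ((n : ℝ) + 1), molPsi w ((n : ℝ) + 1), hb0,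
    by positivity, molPhi_cont w hw hwi _, fun τ hτ => molPhi_zero w _ τ hb0 hτ,
    fun t => mol_four w hw hc _ t hb0, hcont n, fun t => ?_, hn.le, fun h0 τ => ?_⟩
  · refine (hbd n t).trans (div_le_div_of_nonneg_right ?_ (by positivity))
    linarith
  · refine (mol_small w hw hc h0 _ τ hb0).trans (mul_le_mul_of_nonneg_right ?_ (abs_nonneg _))
    linarith

end Pool.Agent.OmEq

end

/-! ### from `Lib_MP_f1a94e_eq.Plan` -/

section

/-!
# Piece PLAN: Plancherel for cluster sums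
-/

set_option autoImplicit false

namespace Pool.Agent.OmEq

open Finset Pool.Agent.OmAll MeasureTheory

theorem plan_supp {B : ℝ} {φ : ℝ → ℂ} (hB : ∀ τ, B ≤ |τ| → φ τ = 0) : HasCompactSupport φ := by
  apply HasCompactSupport.of_support_subset_isCompact (isCompact_Icc (a := -B) (b := B))
  intro τ hτ
  rw [Function.mem_support] at hτ
  rw [Set.mem_Icc, ← abs_le]
  by_contra h
  exact hτ (hB τ (not_le.1 h).le)

theorem plan_int {B : ℝ} {φ : ℝ → ℂ} (hφ : Continuous φ) (hB : ∀ τ, B ≤ |τ| → φ τ = 0)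
    {f : ℝ → ℂ} (hf : Continuous f) : Integrable (fun τ => φ τ * f τ) :=
  (hφ.mul hf).integrable_of_hasCompactSupport ((plan_supp hB).mul_right)

/-- Plancherel for continuous integrable functions with integrable Fourier transform -/
theorem plan_planch {F : ℝ → ℂ} (hc : Continuous F) (hF : Integrable F)
    (hF' : Integrable (FourierTransform.fourier F)) :
    ∫ ξ : ℝ, ‖FourierTransform.fourier F ξ‖ ^ 2 = ∫ x, ‖F x‖ ^ 2 := by
  have h1 := VectorFourier.integral_sesq_fourierIntegral_eq_neg_flip (innerSL ℂ)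
    (L := innerₗ ℝ) Real.continuous_fourierChar continuous_inner hF hF'
  have h2 : ∀ x, VectorFourier.fourierIntegral Real.fourierChar volume (-(innerₗ ℝ).flip)
      (FourierTransform.fourier F) x = F x := by
    intro x
    have h0 := congrFun (hc.fourierInv_fourier_eq hF hF') x
    rw [Real.fourierInv_eq] at h0
    rw [← h0]
    unfold VectorFourier.fourierIntegral
    congr 1
    funext v
    congr 2
    simp
  have h3 : ∀ ξ, VectorFourier.fourierIntegral Real.fourierChar volume (innerₗ ℝ) F ξ =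
      FourierTransform.fourier F ξ := fun ξ => rfl
  simp only [h2, h3] at h1
  have h4 : ∀ z : ℂ, (innerSL ℂ z) z = ((‖z‖ ^ 2 : ℝ) : ℂ) := by
    intro z
    rw [innerSL_apply_apply, inner_self_eq_norm_sq_to_K]
    push_cast
    rfl
  simp only [h4] at h1
  rw [integral_complex_ofReal, integral_complex_ofReal] at h1
  exact_mod_cast h1

theorem plan_cs (B : ℝ) (φ ψ : ℝ → ℂ) (hφ : Continuous φ) (hB : ∀ τ, B ≤ |τ| → φ τ = 0)
    (hψ : ∀ t, ψ t = ∫ τ, φ τ * Complex.exp ((τ * t : ℝ) * Complex.I))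
    (g : ℕ → ℂ) (D : Finset ℕ) (t : ℝ) :
    cs g ψ D t = ∫ τ, (φ τ * ∏ p ∈ D, (1 + g p *
      Complex.exp (-(2 * τ * Real.log p : ℝ) * Complex.I))) *
        Complex.exp ((τ * t : ℝ) * Complex.I) := by
  unfold cs
  have h1 : ∀ a ∈ D.powerset, (∏ p ∈ a, g p) * ψ (t - 2 * lg a) =
      ∫ τ, φ τ * ((∏ p ∈ a, g p) * Complex.exp ((τ * (t - 2 * lg a) : ℝ) * Complex.I)) := by
    intro a _
    rw [hψ, ← integral_const_mul]
    congr 1
    funext τ
    ring
  rw [sum_congr rfl h1, ← integral_finsetSum]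
  · congr 1
    funext τ
    rw [prod_one_add, mul_sum, sum_mul]
    refine sum_congr rfl fun a _ => ?_
    rw [prod_mul_distrib, ← Complex.exp_sum]
    have h2 : ∑ p ∈ a, (-(2 * τ * Real.log p : ℝ) * Complex.I : ℂ) =
        -(2 * τ * lg a : ℝ) * Complex.I := by
      rw [← sum_mul]
      congr 1
      unfold lg
      push_cast
      rw [mul_sum, sum_neg_distrib]
    rw [h2]
    have h3 : Complex.exp ((τ * (t - 2 * lg a) : ℝ) * Complex.I) =
        Complex.exp (-(2 * τ * lg a : ℝ) * Complex.I) * Complex.exp ((τ * t : ℝ) * Complex.I) := by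
      rw [← Complex.exp_add]
      congr 1
      push_cast
      ring
    rw [h3]
    ring
  · intro a _
    exact plan_int hφ hB (by fun_prop)

/-- PROOF. `cs g ψ D t = ∑_a g(a) ∫ τ, φ τ exp (i τ (t - 2 lg a)) = ∫ τ, Φ τ exp (i τ t)` with
`Φ τ = φ τ * ∑_(a ⊆ D) ∏_(p ∈ a) (g p * exp (-2 i τ log p)) = φ τ * ∏_(p ∈ D) (1 + g p * exp (-2 i τ log p))` (`Finset.prod_one_add` / `Finset.prod_add`),
continuous with compact support. So `cs g ψ D t = 𝓕⁻ Φ` up to scaling (`τ = 2 π ξ`), and Plancherel `∫ ‖∫ Φ τ exp (i τ t) dτ‖^2 dt = 2 π ∫ ‖Φ τ‖^2 dτ`. `Φ` is in `L^1` and `L^2`,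
its inverse transform is integrable by `hC` (`‖cs g ψ D t‖ ≤ C'/(1 + t^2)`), so Fourier inversion holds; either use Plancherel of Mathlib
(`MeasureTheory.Lp` Fourier transform, or the method of `planch` in `Lib_MP_f1a94e_aq/Planch.lean`), or directly:
`∫ ‖F‖^2 = ∫ F(t) conj (∫ Φ exp (i τ t) dτ) dt = ∫ conj (Φ τ) (∫ F(t) exp (- i τ t) dt) dτ = ∫ conj (Φ τ) 2 π Φ τ dτ` by Fubini and inversion. -/
theorem plan (B : ℝ) (φ ψ : ℝ → ℂ) (hφ : Continuous φ) (hB : ∀ τ, B ≤ |τ| → φ τ = 0)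
    (hψ : ∀ t, ψ t = ∫ τ, φ τ * Complex.exp ((τ * t : ℝ) * Complex.I)) (hψc : Continuous ψ) (C : ℝ)
    (hC : ∀ t, ‖ψ t‖ ≤ C / (1 + t ^ 2)) (g : ℕ → ℂ) (D : Finset ℕ) :
    ∫ t, ‖cs g ψ D t‖ ^ 2 =
      2 * Real.pi * ∫ τ, ‖φ τ‖ ^ 2 * ∏ p ∈ D, ‖1 + g p * Complex.exp (-(2 * τ * Real.log p : ℝ) * Complex.I)‖ ^ 2 := by
  have hpi : (0 : ℝ) < 2 * Real.pi := by positivity
  have hP : ∃ P : ℝ → ℂ, ∀ τ, P τ = ∏ p ∈ D, (1 + g p *
      Complex.exp (-(2 * τ * Real.log p : ℝ) * Complex.I)) := ⟨_, fun _ => rfl⟩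
  obtain ⟨P, hP⟩ := hP
  have cP : Continuous P := by
    have : P = fun τ => ∏ p ∈ D, (1 + g p *
      Complex.exp (-(2 * τ * Real.log p : ℝ) * Complex.I)) := funext hP
    rw [this]
    fun_prop
  have hF : ∃ F : ℝ → ℂ, F = fun τ => φ (-τ) * P (-τ) := ⟨_, rfl⟩
  obtain ⟨F, hF⟩ := hF
  have hFc : Continuous F := by rw [hF]; fun_prop
  have hFi : Integrable F := by
    have h1 : Integrable (fun τ => φ τ * P τ) := plan_int hφ hB cP
    rw [hF]
    exact h1.comp_neg
  -- Fourier transform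
  have e1 : ∀ w : ℝ, FourierTransform.fourier F w = cs g ψ D (2 * Real.pi * w) := by
    intro w
    rw [plan_cs B φ ψ hφ hB hψ, Real.fourier_real_eq_integral_exp_smul]
    have h1 := integral_neg_eq_self (fun τ : ℝ => (φ τ * P τ) *
      Complex.exp ((τ * (2 * Real.pi * w) : ℝ) * Complex.I)) volume
    simp only [hP] at h1
    rw [← h1]
    congr 1
    funext τ
    rw [hF, smul_eq_mul]
    simp only [hP]
    rw [mul_comm]
    congr 2
    push_cast
    ring
  have hψi : Integrable ψ := by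
    have h1 : Integrable (fun t : ℝ => C * (1 + t ^ 2)⁻¹) := integrable_inv_one_add_sq.const_mul _
    refine h1.mono' hψc.aestronglyMeasurable (Filter.Eventually.of_forall fun t => ?_)
    rw [← div_eq_mul_inv]
    exact hC t
  have hcsi : Integrable (cs g ψ D) := by
    unfold cs
    apply integrable_finsetSum
    intro a _
    exact (hψi.comp_sub_right (2 * lg a)).const_mul _
  have e2 : Integrable (FourierTransform.fourier F) := by
    have h1 : FourierTransform.fourier F = fun w => cs g ψ D (2 * Real.pi * w) := funext e1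
    rw [h1]
    exact hcsi.comp_mul_left' hpi.ne'
  have key := plan_planch hFc hFi e2
  simp only [e1] at key
  have k1 := Measure.integral_comp_mul_left (fun t => ‖cs g ψ D t‖ ^ 2) (2 * Real.pi)
  rw [abs_of_pos (inv_pos.2 hpi), smul_eq_mul] at k1
  rw [k1] at key
  have k2 : ∫ x, ‖F x‖ ^ 2 = ∫ τ, ‖φ τ‖ ^ 2 * ∏ p ∈ D,
      ‖1 + g p * Complex.exp (-(2 * τ * Real.log p : ℝ) * Complex.I)‖ ^ 2 := by
    have h1 := integral_neg_eq_self (fun τ : ℝ => ‖φ τ * P τ‖ ^ 2) volume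
    have h2 : ∫ x, ‖F x‖ ^ 2 = ∫ x : ℝ, ‖φ (-x) * P (-x)‖ ^ 2 := by rw [hF]
    rw [h2, h1]
    congr 1
    funext τ
    rw [norm_mul, mul_pow, hP, norm_prod, prod_pow]
  rw [k2] at key
  rw [← key]
  field_simp

end Pool.Agent.OmEq

end

/-! ### from `Lib_MP_92ef0c_pc.Tur` -/

section

/-!
# Few integers with more than `(1 + ε) log log Y` prime factors (with multiplicity)
-/

set_option autoImplicit false

namespace Pool.Agent.Spc

open Finset ArithmeticFunction Pool.Agent.SplI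

theorem geo (p : ℕ) (hp : 2 ≤ p) (K : ℕ) :
    ∑ k ∈ Icc 2 K, 1 / (p : ℝ) ^ k ≤ 1 / ((p : ℝ) - 1) - 1 / p := by
  have hp2 : (2 : ℝ) ≤ p := by exact_mod_cast hp
  have h1 : (1 : ℝ) / ((p : ℝ) - 1) - 1 / p = 1 / (p * ((p : ℝ) - 1)) := by
    have : (p : ℝ) - 1 ≠ 0 := by linarith
    have : (p : ℝ) ≠ 0 := by linarith
    field_simp
    ring
  have key : ∀ K : ℕ, 1 ≤ K → ∑ k ∈ Icc 2 K, 1 / (p : ℝ) ^ k =
      1 / (p * ((p : ℝ) - 1)) - 1 / ((p : ℝ) ^ K * ((p : ℝ) - 1)) := by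
    intro K hK
    induction K, hK using Nat.le_induction with
    | base => simp
    | succ K hK ih =>
      rw [sum_Icc_succ_top (by omega), ih]
      have h2 : (p : ℝ) - 1 ≠ 0 := by linarith
      have h3 : (p : ℝ) ≠ 0 := by linarith
      have h4 : (p : ℝ) ^ K ≠ 0 := pow_ne_zero _ h3
      field_simp
      ring
  rcases Nat.eq_zero_or_pos K with h | h
  · subst h
    rw [h1]
    have : (0 : ℝ) < p * ((p : ℝ) - 1) := mul_pos (by linarith) (by linarith)
    simp only [Nat.ofNat_pos, Icc_eq_empty_of_lt, sum_empty]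
    positivity
  · rw [h1, key K h]
    have h5 : (0 : ℝ) < (p : ℝ) - 1 := by linarith
    have : 0 ≤ 1 / ((p : ℝ) ^ K * ((p : ℝ) - 1)) := by positivity
    linarith

theorem tele (N : ℕ) : ∑ p ∈ Icc 2 N, (1 / ((p : ℝ) - 1) - 1 / p) ≤ 1 := by
  have key : ∀ N : ℕ, 1 ≤ N → ∑ p ∈ Icc 2 N, (1 / ((p : ℝ) - 1) - 1 / p) = 1 - 1 / N := by
    intro N hN
    induction N, hN using Nat.le_induction with
    | base => simp
    | succ N hN ih =>
      rw [sum_Icc_succ_top (by omega), ih]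
      push_cast
      ring
  rcases Nat.eq_zero_or_pos N with h | h
  · subst h; simp
  · rw [key N h]
    have : (0 : ℝ) ≤ 1 / N := by positivity
    linarith

/-- the excess `Ω - ω` -/
theorem excess_le (N n : ℕ) (hn : 1 ≤ n) (hnN : n ≤ N) :
    (cardFactors n : ℝ) ≤ cardDistinctFactors n +
      ∑ p ∈ Icc 2 N, ∑ k ∈ Icc 2 N, (if p ^ k ∣ n then (1 : ℝ) else 0) := by
  have h1 : cardFactors n = ∑ p ∈ n.primeFactors, n.factorization p := by
    rw [cardFactors_eq_sum_factorization]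
    rfl
  have h2 : cardDistinctFactors n = n.primeFactors.card := by
    rw [cardDistinctFactors_apply]
    rfl
  have h3 : ∀ p ∈ n.primeFactors, (n.factorization p : ℝ) ≤ 1 +
      ∑ k ∈ Icc 2 N, (if p ^ k ∣ n then (1 : ℝ) else 0) := by
    intro p hp
    have hpp := Nat.prime_of_mem_primeFactors hp
    rw [← sum_filter, sum_const, nsmul_eq_mul, mul_one]
    have hv : n.factorization p ≤ N := by
      have h4 : n.factorization p < p ^ n.factorization p := Nat.lt_pow_self hpp.one_lt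
      have h5 : p ^ n.factorization p ≤ n := Nat.ordProj_le p (by omega)
      omega
    have h6 : Icc 2 (n.factorization p) ⊆ (Icc 2 N).filter (fun k => p ^ k ∣ n) := by
      intro k hk
      rw [mem_Icc] at hk
      rw [mem_filter, mem_Icc]
      exact ⟨⟨hk.1, hk.2.trans hv⟩, (pow_dvd_pow p hk.2).trans (Nat.ordProj_dvd n p)⟩
    have h7 := card_le_card h6
    rw [Nat.card_Icc] at h7
    have h8 : n.factorization p ≤ 1 + ((Icc 2 N).filter (fun k => p ^ k ∣ n)).card := by omega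
    exact_mod_cast h8
  rw [h1, h2]
  push_cast
  calc ∑ p ∈ n.primeFactors, (n.factorization p : ℝ)
      ≤ ∑ p ∈ n.primeFactors, (1 + ∑ k ∈ Icc 2 N, (if p ^ k ∣ n then (1 : ℝ) else 0)) := sum_le_sum h3
    _ = (n.primeFactors.card : ℝ) + ∑ p ∈ n.primeFactors, ∑ k ∈ Icc 2 N, (if p ^ k ∣ n then (1 : ℝ) else 0) := by
        rw [sum_add_distrib]; simp
    _ ≤ (n.primeFactors.card : ℝ) + ∑ p ∈ Icc 2 N, ∑ k ∈ Icc 2 N, (if p ^ k ∣ n then (1 : ℝ) else 0) := by
        refine add_le_add le_rfl ?_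
        refine sum_le_sum_of_subset_of_nonneg ?_ ?_
        · intro p hp
          have hpp := Nat.prime_of_mem_primeFactors hp
          rw [mem_Icc]
          exact ⟨hpp.two_le, (Nat.le_of_mem_primeFactors hp).trans hnN⟩
        · intro i _ _
          refine sum_nonneg (fun k _ => ?_)
          split <;> norm_num

theorem excess_sum (N : ℕ) :
    ∑ n ∈ Icc 1 N, ∑ p ∈ Icc 2 N, ∑ k ∈ Icc 2 N, (if p ^ k ∣ n then (1 : ℝ) else 0) ≤ N := by
  rw [sum_comm]
  have h1 : ∀ p ∈ Icc 2 N, ∑ n ∈ Icc 1 N, ∑ k ∈ Icc 2 N, (if p ^ k ∣ n then (1 : ℝ) else 0) ≤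
      N * (1 / ((p : ℝ) - 1) - 1 / p) := by
    intro p hp
    rw [mem_Icc] at hp
    rw [sum_comm]
    have h2 : ∀ k ∈ Icc 2 N, ∑ n ∈ Icc 1 N, (if p ^ k ∣ n then (1 : ℝ) else 0) ≤ N * (1 / (p : ℝ) ^ k) := by
      intro k _
      rw [← sum_filter, sum_const, nsmul_eq_mul, mul_one]
      have h3 : ((Icc 1 N).filter (fun n => p ^ k ∣ n)).card = N / p ^ k := by
        have := Nat.Ioc_filter_dvd_card_eq_div N (p ^ k)
        rw [← this]
        rfl
      rw [h3, mul_one_div]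
      have := @Nat.cast_div_le ℝ _ _ _ N (p ^ k)
      push_cast at this
      exact this
    calc ∑ k ∈ Icc 2 N, ∑ n ∈ Icc 1 N, (if p ^ k ∣ n then (1 : ℝ) else 0)
        ≤ ∑ k ∈ Icc 2 N, N * (1 / (p : ℝ) ^ k) := sum_le_sum h2
      _ = N * ∑ k ∈ Icc 2 N, 1 / (p : ℝ) ^ k := by rw [mul_sum]
      _ ≤ _ := by
          gcongr
          exact geo p hp.1 N
  refine (sum_le_sum h1).trans ?_
  rw [← mul_sum]
  have := tele N
  have hN : (0 : ℝ) ≤ N := Nat.cast_nonneg N
  nlinarith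

/-- at most two more distinct primes -/
theorem omega_le_omI (Y : ℝ) (n : ℕ) (hn : 1 ≤ n) (hnY : (n : ℝ) ≤ Y) :
    (cardDistinctFactors n : ℝ) ≤ omI 2 (Real.sqrt Y) n + 2 := by
  classical
  have h2 : cardDistinctFactors n = n.primeFactors.card := by
    rw [cardDistinctFactors_apply]
    rfl
  have hY : 0 ≤ Y := (Nat.cast_nonneg n).trans hnY
  set A := (PrI 2 (Real.sqrt Y)).filter (fun p => p ∣ n) with hA
  set B := n.primeFactors.filter (fun p : ℕ => Real.sqrt Y < (p : ℝ)) with hB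
  have hB1 : B.card ≤ 1 := by
    rw [card_le_one]
    intro p hp p' hp'
    by_contra hne
    rw [hB, mem_filter] at hp hp'
    have hpp := Nat.prime_of_mem_primeFactors hp.1
    have hpp' := Nat.prime_of_mem_primeFactors hp'.1
    have hd : p * p' ∣ n := Nat.Coprime.mul_dvd_of_dvd_of_dvd ((Nat.coprime_primes hpp hpp').2 hne)
      (Nat.dvd_of_mem_primeFactors hp.1) (Nat.dvd_of_mem_primeFactors hp'.1)
    have hle : p * p' ≤ n := Nat.le_of_dvd (by omega) hd
    have hle' : (p : ℝ) * p' ≤ n := by exact_mod_cast hle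
    have h5 : Y < (p : ℝ) * p' := by
      calc Y = Real.sqrt Y * Real.sqrt Y := (Real.mul_self_sqrt hY).symm
        _ < (p : ℝ) * p' := by
            have h0 := Real.sqrt_nonneg Y
            have := hp.2
            have := hp'.2
            nlinarith
    linarith
  have hsub : n.primeFactors ⊆ {2} ∪ (A ∪ B) := by
    intro p hp
    have hpp := Nat.prime_of_mem_primeFactors hp
    rw [mem_union, mem_union]
    by_cases h1 : p = 2
    · left; simp [h1]
    · right
      by_cases h3 : Real.sqrt Y < (p : ℝ)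
      · right
        rw [hB, mem_filter]
        exact ⟨hp, h3⟩
      · left
        push Not at h3
        rw [hA, mem_filter]
        refine ⟨?_, Nat.dvd_of_mem_primeFactors hp⟩
        unfold PrI
        rw [mem_filter, mem_Icc]
        refine ⟨⟨hpp.one_le, Nat.le_floor h3⟩, hpp, ?_⟩
        have : 2 < p := lt_of_le_of_ne hpp.two_le (Ne.symm h1)
        exact_mod_cast this
  have h6 : n.primeFactors.card ≤ 1 + (A.card + B.card) := by
    refine (card_le_card hsub).trans ((card_union_le _ _).trans ?_)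
    rw [card_singleton]
    gcongr
    exact card_union_le _ _
  have h7 : n.primeFactors.card ≤ A.card + 2 := by omega
  rw [h2]
  unfold omI
  exact_mod_cast h7

open Classical in
/-- few integers with many prime factors -/
theorem few_omega (ε η : ℝ) (hε : 0 < ε) (hη : 0 < η) : ∃ Y0 : ℝ, 3 ≤ Y0 ∧ ∀ Y : ℝ, Y0 ≤ Y →
    (((Icc 1 ⌊Y⌋₊).filter (fun n => (1 + ε) * Real.log (Real.log Y) < (cardFactors n : ℝ))).card : ℝ) ≤ η * Y := by
  obtain ⟨C1, hC1, htk⟩ := tki
  obtain ⟨C2, hC2, hlr⟩ := Lr_bounds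
  have hlim : Filter.Tendsto (fun Y : ℝ => Real.log (Real.log Y)) Filter.atTop Filter.atTop :=
    Real.tendsto_log_atTop.comp Real.tendsto_log_atTop
  set C3 : ℝ := C2 - Real.log (Real.log 2) with hC3
  have hll2 : Real.log (Real.log 2) < 0 := by
    apply Real.log_neg (Real.log_pos (by norm_num))
    have := Real.log_two_lt_d9
    linarith
  have hC3p : 0 < C3 := by rw [hC3]; linarith
  -- threshold
  set M : ℝ := max 1 (max (8 * (C3 + 2) / ε) (max (8 / (ε * η)) (max (32 * C1 * (C3 + 2) / (ε ^ 2 * η)) (2 * C3 + 2)))) with hM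
  obtain ⟨Y1, hY1⟩ := Filter.eventually_atTop.1 (hlim.eventually_ge_atTop M)
  refine ⟨max Y1 16, (by norm_num : (3 : ℝ) ≤ 16).trans (le_max_right _ _), fun Y hY => ?_⟩
  have hY16 : 16 ≤ Y := (le_max_right _ _).trans hY
  have hYM := hY1 Y ((le_max_left _ _).trans hY)
  set L := Real.log (Real.log Y) with hL
  have hM1 : 1 ≤ L := (le_max_left _ _).trans hYM
  have hM2 : 8 * (C3 + 2) / ε ≤ L := ((le_max_left _ _).trans (le_max_right _ _)).trans hYM
  have hM3 : 8 / (ε * η) ≤ L :=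
    (((le_max_left _ _).trans (le_max_right _ _)).trans (le_max_right _ _)).trans hYM
  have hM4 : 32 * C1 * (C3 + 2) / (ε ^ 2 * η) ≤ L :=
    ((((le_max_left _ _).trans (le_max_right _ _)).trans (le_max_right _ _)).trans (le_max_right _ _)).trans hYM
  have hsq4 : 4 ≤ Real.sqrt Y := by
    rw [show (4 : ℝ) = Real.sqrt 16 by rw [show (16 : ℝ) = 4 ^ 2 by norm_num]; simp]
    exact Real.sqrt_le_sqrt hY16
  have hsq2 : 2 ≤ Real.sqrt Y := by linarith
  have hY0 : 0 < Y := by linarith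
  have hsqsq : Real.sqrt Y ^ 2 = Y := Real.sq_sqrt hY0.le
  have hlr1 := hlr 2 (Real.sqrt Y) le_rfl hsq2
  have hLr : Lr 2 (Real.sqrt Y) ≤ L + C3 := by
    have h1 := (abs_le.1 hlr1).2
    have h2 : Real.log (Real.log (Real.sqrt Y)) ≤ L := by
      rw [hL]
      have h3 : 1 < Real.log (Real.sqrt Y) := by
        have h4 : Real.exp 1 < Real.sqrt Y := by
          have := Real.exp_one_lt_d9
          linarith
        have := Real.log_lt_log (Real.exp_pos 1) h4
        rwa [Real.log_exp] at this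
      apply Real.log_le_log (by linarith)
      apply Real.log_le_log (by linarith)
      rw [Real.sqrt_le_left (by linarith)]
      nlinarith
    rw [hC3]
    linarith
  have htk1 := htk 2 (Real.sqrt Y) Y le_rfl hsq2 hsqsq.le
  -- the bad set is covered
  set N := ⌊Y⌋₊ with hN
  have hNY : (N : ℝ) ≤ Y := Nat.floor_le hY0.le
  set E : ℕ → ℝ := fun n => ∑ p ∈ Icc 2 N, ∑ k ∈ Icc 2 N, (if p ^ k ∣ n then (1 : ℝ) else 0) with hE
  set B := (Icc 1 N).filter (fun n => (1 + ε) * L < (cardFactors n : ℝ)) with hB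
  set B1 := (Icc 1 N).filter (fun n => ε / 4 * L < E n) with hB1
  set B2 := (Icc 1 N).filter (fun n => (ε / 4 * L) ^ 2 < (omI 2 (Real.sqrt Y) n - Lr 2 (Real.sqrt Y)) ^ 2) with hB2
  have hsub : B ⊆ B1 ∪ B2 := by
    intro n hn
    rw [hB, mem_filter, mem_Icc] at hn
    obtain ⟨⟨hn1, hn2⟩, hn3⟩ := hn
    rw [mem_union]
    by_contra hcon
    push Not at hcon
    obtain ⟨hc1, hc2⟩ := hcon
    rw [hB1, mem_filter, mem_Icc] at hc1
    rw [hB2, mem_filter, mem_Icc] at hc2
    push Not at hc1 hc2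
    have hc1' := hc1 ⟨hn1, hn2⟩
    have hc2' := hc2 ⟨hn1, hn2⟩
    have h1 := excess_le N n hn1 hn2
    have hnY : (n : ℝ) ≤ Y := le_trans (by exact_mod_cast hn2) hNY
    have h2 := omega_le_omI Y n hn1 hnY
    have h3 : omI 2 (Real.sqrt Y) n - Lr 2 (Real.sqrt Y) ≤ ε / 4 * L := by
      have h4 : 0 ≤ ε / 4 * L := by positivity
      exact le_trans (le_abs_self _) (abs_le_of_sq_le_sq hc2' h4)
    have h5 : (C3 + 2) ≤ ε / 8 * L := by
      rw [div_le_iff₀ hε] at hM2
      linarith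
    have h6 : E n ≤ ε / 4 * L := hc1'
    have h7 : (cardFactors n : ℝ) ≤ cardDistinctFactors n + E n := h1
    nlinarith
  have hc1 : (B1.card : ℝ) * (ε / 4 * L) ≤ Y := by
    have h1 : (B1.card : ℝ) * (ε / 4 * L) ≤ ∑ n ∈ B1, E n := by
      rw [← nsmul_eq_mul]
      apply card_nsmul_le_sum
      intro n hn
      rw [hB1, mem_filter] at hn
      exact hn.2.le
    have h2 : ∑ n ∈ B1, E n ≤ ∑ n ∈ Icc 1 N, E n := by
      apply sum_le_sum_of_subset_of_nonneg (filter_subset _ _)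
      intro n _ _
      refine sum_nonneg (fun p _ => sum_nonneg (fun k _ => ?_))
      split <;> norm_num
    exact h1.trans (h2.trans ((excess_sum N).trans hNY))
  have hc2 : (B2.card : ℝ) * (ε / 4 * L) ^ 2 ≤ C1 * Y * (L + C3 + 1) := by
    have h1 : (B2.card : ℝ) * (ε / 4 * L) ^ 2 ≤
        ∑ n ∈ B2, (omI 2 (Real.sqrt Y) n - Lr 2 (Real.sqrt Y)) ^ 2 := by
      rw [← nsmul_eq_mul]
      apply card_nsmul_le_sum
      intro n hn
      rw [hB2, mem_filter] at hn
      exact hn.2.le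
    have h2 : ∑ n ∈ B2, (omI 2 (Real.sqrt Y) n - Lr 2 (Real.sqrt Y)) ^ 2 ≤
        ∑ n ∈ Icc 1 N, (omI 2 (Real.sqrt Y) n - Lr 2 (Real.sqrt Y)) ^ 2 := by
      apply sum_le_sum_of_subset_of_nonneg (filter_subset _ _)
      intro n _ _
      positivity
    refine h1.trans (h2.trans (htk1.trans ?_))
    gcongr
  have hcard : (B.card : ℝ) ≤ B1.card + B2.card := by
    exact_mod_cast (card_le_card hsub).trans (card_union_le _ _)
  have hL0 : 0 < L := by linarith
  have g1 : (B1.card : ℝ) ≤ η / 2 * Y := by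
    have h1 : 8 ≤ L * (ε * η) := by rwa [div_le_iff₀ (by positivity)] at hM3
    have h2 : (B1.card : ℝ) * (ε / 4 * L) ≤ (η / 2 * Y) * (ε / 4 * L) := by
      refine hc1.trans ?_
      have : Y * 8 ≤ Y * (L * (ε * η)) := by gcongr
      nlinarith
    exact le_of_mul_le_mul_right h2 (by positivity)
  have g2 : (B2.card : ℝ) ≤ η / 2 * Y := by
    have h1 : 32 * C1 * (C3 + 2) ≤ L * (ε ^ 2 * η) := by rwa [div_le_iff₀ (by positivity)] at hM4
    have h2 : (B2.card : ℝ) * (ε / 4 * L) ^ 2 ≤ (η / 2 * Y) * (ε / 4 * L) ^ 2 := by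
      refine hc2.trans ?_
      have h3 : L + C3 + 1 ≤ (C3 + 2) * L := by nlinarith
      have h4 : C1 * Y * (L + C3 + 1) ≤ C1 * Y * ((C3 + 2) * L) := by gcongr
      refine h4.trans ?_
      have h5 : (32 * C1 * (C3 + 2)) * (Y * L) ≤ (L * (ε ^ 2 * η)) * (Y * L) := by gcongr
      calc C1 * Y * ((C3 + 2) * L) = ((32 * C1 * (C3 + 2)) * (Y * L)) / 32 := by ring
        _ ≤ ((L * (ε ^ 2 * η)) * (Y * L)) / 32 := by gcongr
        _ = (η / 2 * Y) * (ε / 4 * L) ^ 2 := by ring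
    exact le_of_mul_le_mul_right h2 (by positivity)
  linarith

end Pool.Agent.Spc

end

/-! ### from `Lib_MP_f1a94e_lp.PertP` -/

section

/-!
# Piece PERTP: distinct exponents
-/

set_option autoImplicit false

namespace Pool.Agent.LPr

open Finset Filter

/-- PROOF. `τ i = t i - η (i + 1)` with `0 < η`, `η (k + 1) < δ`, `η (k + 1) < t i` for all `i`, and `η` different from the finitely many numbers `(t i - t j) / (i - j)`, `i ≠ j` (the interval of the admissible `η` is infinite). Then `τ i = τ j` would give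
`t i - t j = η (i - j)`. -/
theorem pert (k : ℕ) (t : Fin k → ℝ) (ht : ∀ i, 0 < t i) (δ : ℝ) (hδ : 0 < δ) :
    ∃ τ : Fin k → ℝ, Function.Injective τ ∧ ∀ i, 0 < τ i ∧ τ i < t i ∧ t i - δ < τ i := by
  classical
  obtain ⟨m, hm0, hmδ, hmt⟩ : ∃ m : ℝ, 0 < m ∧ m ≤ δ ∧ ∀ i, m ≤ t i := by
    have hne : (insert δ (Finset.univ.image t)).Nonempty := Finset.insert_nonempty _ _
    refine ⟨(insert δ (Finset.univ.image t)).min' hne, ?_, ?_, ?_⟩
    · rw [Finset.lt_min'_iff]
      intro y hy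
      rw [Finset.mem_insert, Finset.mem_image] at hy
      rcases hy with rfl | ⟨i, -, rfl⟩
      · exact hδ
      · exact ht i
    · exact Finset.min'_le _ _ (Finset.mem_insert_self _ _)
    · intro i
      exact Finset.min'_le _ _ (Finset.mem_insert_of_mem (Finset.mem_image_of_mem t (Finset.mem_univ i)))
  have hk : (0 : ℝ) < (k : ℝ) + 1 := by positivity
  have hI : (Set.Ioo (0 : ℝ) (m / (k + 1))).Infinite := Set.Ioo_infinite (by positivity)
  obtain ⟨η, hη, hbad⟩ := hI.exists_notMem_finset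
    ((Finset.univ : Finset (Fin k × Fin k)).image
      (fun x => (t x.1 - t x.2) / (((x.1 : ℕ) : ℝ) - ((x.2 : ℕ) : ℝ))))
  obtain ⟨h0, h1⟩ := hη
  have h1' : η * (k + 1) < m := by rwa [lt_div_iff₀ hk] at h1
  have hi : ∀ i : Fin k, 0 < η * (((i : ℕ) : ℝ) + 1) ∧ η * (((i : ℕ) : ℝ) + 1) < m := by
    intro i
    constructor
    · positivity
    · have h2 : ((i : ℕ) : ℝ) ≤ k := by exact_mod_cast i.2.le
      have h3 : η * (((i : ℕ) : ℝ) + 1) ≤ η * (k + 1) :=
        mul_le_mul_of_nonneg_left (by linarith) h0.le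
      linarith
  refine ⟨fun i => t i - η * (((i : ℕ) : ℝ) + 1), ?_, ?_⟩
  · intro i j hij
    by_contra hne
    have hij' : t i - η * (((i : ℕ) : ℝ) + 1) = t j - η * (((j : ℕ) : ℝ) + 1) := hij
    have hd : ((i : ℕ) : ℝ) - ((j : ℕ) : ℝ) ≠ 0 := by
      intro h
      apply hne
      apply Fin.ext
      have h5 : ((i : ℕ) : ℝ) = ((j : ℕ) : ℝ) := by linarith
      exact_mod_cast h5
    apply hbad
    rw [Finset.mem_image]
    refine ⟨(i, j), Finset.mem_univ _, ?_⟩
    rw [div_eq_iff hd]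
    linarith
  · intro i
    obtain ⟨h2, h3⟩ := hi i
    have h4 := hmt i
    refine ⟨?_, ?_, ?_⟩
    · show 0 < t i - η * (((i : ℕ) : ℝ) + 1)
      linarith
    · show t i - η * (((i : ℕ) : ℝ) + 1) < t i
      linarith
    · show t i - δ < t i - η * (((i : ℕ) : ℝ) + 1)
      linarith

/-- PROOF. The same `s` and `p`: `t i - ε ≤ τ i - ε'`, `τ i + ε' ≤ t i + ε`, `1 - ∑ τ i + ε' ≤ 1 - ∑ t i + k δ + ε' ≤ 1 - ∑ t i + ε`, `ε' ≤ ε`, and `y ≥ 1`. -/
theorem BigG.mono (k : ℕ) (t τ : Fin k → ℝ) (ε ε' δ : ℝ) (h1 : ∀ i, τ i ≤ t i) (h2 : ∀ i, t i - δ ≤ τ i) (hδ : 0 ≤ δ)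
    (h3 : (k + 1) * δ + ε' ≤ ε) (y : ℝ) (hy : 1 ≤ y) (n : ℕ) (h : BigG k τ ε' y n) : BigG k t ε y n := by
  obtain ⟨s, p, hp, hn, hs, hr⟩ := h
  have hkδ : 0 ≤ (k : ℝ) * δ := by positivity
  have hε : ε' ≤ ε := by linarith
  have hsum : ∑ i, t i - k * δ ≤ ∑ i, τ i := by
    have h5 : ∑ i : Fin k, (t i - δ) ≤ ∑ i, τ i := Finset.sum_le_sum fun i _ => h2 i
    rw [Finset.sum_sub_distrib, Finset.sum_const, Finset.card_univ, Fintype.card_fin,
      nsmul_eq_mul] at h5
    exact h5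
  refine ⟨s, p, ?_, hn, ?_, ?_⟩
  · intro i
    obtain ⟨a, b, c⟩ := hp i
    have h4 := h1 i
    have h5 := h2 i
    refine ⟨a, ?_, ?_⟩
    · exact (Real.rpow_le_rpow_of_exponent_le hy (by linarith)).trans b
    · exact c.trans (Real.rpow_le_rpow_of_exponent_le hy (by linarith))
  · exact hs.trans (Real.rpow_le_rpow_of_exponent_le hy (by linarith))
  · intro r hr1 hr2
    exact (hr r hr1 hr2).trans (Real.rpow_le_rpow_of_exponent_le hy hε)

end Pool.Agent.LPr

end
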