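import Pool.Agent.Lib_MP_92ef0c_m.M01
import Pool.Agent.Lib_MP_92ef0c_m.M02
import Pool.Agent.Lib_MP_92ef0c_m.M04

/-!
# MP_92ef0c_nt, split pairs: merged library part M06

Concatenation of smaller files (each in its own section), only to save build time.
-/

/-! ### from `Lib_MP_f1a94e_mr.KL` -/

section

/-!
# Piece KL: Kusmin-Landau inequality (discrete form)
-/

set_option autoImplicit false

namespace Pool.Agent.GaussMR

theorem kl_norm_ee (x : ℝ) : ‖ee x‖ = 1 := by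
  unfold ee
  have h : (2 * Real.pi * x * Complex.I : ℂ) = ((2 * Real.pi * x : ℝ) : ℂ) * Complex.I := by
    push_cast; ring
  rw [h, Complex.norm_exp_ofReal_mul_I]

theorem kl_ee_add (x y : ℝ) : ee (x + y) = ee x * ee y := by
  unfold ee
  rw [← Complex.exp_add]
  congr 1
  push_cast
  ring

theorem kl_ee_int (c : ℤ) : ee (c : ℝ) = 1 := by
  unfold ee
  rw [Complex.exp_eq_one_iff]
  exact ⟨c, by push_cast; ring⟩

/-- `cot (π t)` -/
noncomputable def klCot (t : ℝ) : ℝ := Real.cos (Real.pi * t) / Real.sin (Real.pi * t)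

/-- `1 / (1 - ee t)` -/
noncomputable def klC (t : ℝ) : ℂ := 1 / 2 + ((klCot t / 2 : ℝ) : ℂ) * Complex.I

theorem kl_sin_lower {t θ : ℝ} (hθ : 0 < θ) (h1 : θ ≤ t) (h2 : t ≤ 1 - θ) :
    2 * θ ≤ Real.sin (Real.pi * t) := by
  have hpi := Real.pi_pos
  rcases le_total t (1 / 2) with h | h
  · have ht : 0 ≤ t := by linarith
    have h3 := Real.mul_le_sin (x := Real.pi * t) (by positivity) (by nlinarith)
    have h4 : 2 / Real.pi * (Real.pi * t) = 2 * t := by field_simp
    rw [h4] at h3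
    linarith
  · have h3 := Real.mul_le_sin (x := Real.pi * (1 - t)) (by
      have : 0 ≤ 1 - t := by linarith
      positivity) (by nlinarith)
    have h4 : 2 / Real.pi * (Real.pi * (1 - t)) = 2 * (1 - t) := by field_simp
    have h5 : Real.sin (Real.pi * (1 - t)) = Real.sin (Real.pi * t) := by
      rw [← Real.sin_pi_sub]
      congr 1
      ring
    rw [h4, h5] at h3
    linarith

theorem kl_mul (t : ℝ) (hs : Real.sin (Real.pi * t) ≠ 0) : (1 - ee t) * klC t = 1 := by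
  have he : ee t = ((Real.cos (2 * (Real.pi * t)) : ℝ) : ℂ)
      + ((Real.sin (2 * (Real.pi * t)) : ℝ) : ℂ) * Complex.I := by
    unfold ee
    rw [Complex.ofReal_cos, Complex.ofReal_sin, ← Complex.exp_mul_I]
    congr 1
    push_cast
    ring
  rw [he, Real.cos_two_mul, Real.sin_two_mul]
  unfold klC klCot
  have h1 : Real.sin (Real.pi * t) ^ 2 + Real.cos (Real.pi * t) ^ 2 = 1 := Real.sin_sq_add_cos_sq _
  generalize Real.sin (Real.pi * t) = s at *
  generalize Real.cos (Real.pi * t) = c at *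
  have h2 : (s : ℂ) ^ 2 + (c : ℂ) ^ 2 = 1 := by exact_mod_cast h1
  have h3 : (s : ℂ) ≠ 0 := by exact_mod_cast hs
  push_cast
  field_simp
  linear_combination (-2) * ((s : ℂ) + c * Complex.I) * h2 + 2 * (s : ℂ) * h2
    - 2 * (s : ℂ) * (c : ℂ) ^ 2 * Complex.I_sq

theorem kl_norm_C {t θ : ℝ} (hθ : 0 < θ) (h1 : θ ≤ t) (h2 : t ≤ 1 - θ) :
    ‖klC t‖ ≤ 1 / (4 * θ) ∧ ‖1 - klC t‖ ≤ 1 / (4 * θ) := by
  have hs := kl_sin_lower hθ h1 h2
  have hspos : 0 < Real.sin (Real.pi * t) := by linarith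
  have hn : ∀ z : ℂ, z.re ^ 2 + z.im ^ 2 = (1 / (2 * Real.sin (Real.pi * t))) ^ 2 →
      ‖z‖ ≤ 1 / (4 * θ) := by
    intro z hz
    have h3 : ‖z‖ ^ 2 = (1 / (2 * Real.sin (Real.pi * t))) ^ 2 := by
      rw [← hz, Complex.sq_norm, Complex.normSq_apply]
      ring
    have h4 : ‖z‖ = 1 / (2 * Real.sin (Real.pi * t)) := by
      rwa [sq_eq_sq₀ (norm_nonneg _) (by positivity)] at h3
    rw [h4]
    apply one_div_le_one_div_of_le (by positivity)
    linarith
  have h5 : Real.sin (Real.pi * t) ^ 2 + Real.cos (Real.pi * t) ^ 2 = 1 :=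
    Real.sin_sq_add_cos_sq _
  have h6 : klCot t ^ 2 = 1 / Real.sin (Real.pi * t) ^ 2 - 1 := by
    unfold klCot
    field_simp
    linarith
  have h7 : (1 / (2 * Real.sin (Real.pi * t))) ^ 2 = (1 + klCot t ^ 2) / 4 := by
    rw [h6]
    field_simp
    ring
  have hre : (klC t).re = 1 / 2 := by simp [klC]
  have him : (klC t).im = klCot t / 2 := by simp [klC]
  constructor
  · apply hn
    rw [h7, hre, him]
    ring
  · apply hn
    rw [h7, Complex.sub_re, Complex.sub_im, hre, him]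
    simp
    ring

theorem kl_cot_bound {t θ : ℝ} (hθ : 0 < θ) (h1 : θ ≤ t) (h2 : t ≤ 1 - θ) :
    |klCot t| ≤ 1 / (2 * θ) := by
  have hs := kl_sin_lower hθ h1 h2
  have hspos : 0 < Real.sin (Real.pi * t) := by linarith
  unfold klCot
  rw [abs_div, abs_of_pos hspos]
  calc |Real.cos (Real.pi * t)| / Real.sin (Real.pi * t) ≤ 1 / Real.sin (Real.pi * t) := by
        apply div_le_div_of_nonneg_right (Real.abs_cos_le_one _) hspos.le
    _ ≤ 1 / (2 * θ) := one_div_le_one_div_of_le (by positivity) hs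

theorem kl_cot_anti {t t' θ : ℝ} (hθ : 0 < θ) (h1 : θ ≤ t) (h2 : t ≤ t') (h3 : t' ≤ 1 - θ) :
    klCot t' ≤ klCot t := by
  have hpi := Real.pi_pos
  have hs := kl_sin_lower hθ h1 (h2.trans h3)
  have hs' := kl_sin_lower hθ (h1.trans h2) h3
  have hp : 0 < Real.sin (Real.pi * t) := by linarith
  have hp' : 0 < Real.sin (Real.pi * t') := by linarith
  have hd : 0 ≤ Real.sin (Real.pi * t' - Real.pi * t) := by
    apply Real.sin_nonneg_of_nonneg_of_le_pi
    · nlinarith
    · nlinarith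
  rw [Real.sin_sub] at hd
  unfold klCot
  rw [div_le_div_iff₀ hp' hp]
  linarith

theorem kl_sub {t t' θ : ℝ} (hθ : 0 < θ) (h1 : θ ≤ t) (h2 : t ≤ t') (h3 : t' ≤ 1 - θ) :
    ‖klC t' - klC t‖ = (klCot t - klCot t') / 2 := by
  have h := kl_cot_anti hθ h1 h2 h3
  have h4 : klC t' - klC t = (((klCot t' - klCot t) / 2 : ℝ) : ℂ) * Complex.I := by
    unfold klC
    push_cast
    ring
  rw [h4, norm_mul, Complex.norm_I, mul_one, Complex.norm_real, Real.norm_eq_abs,
    abs_of_nonpos (by linarith)]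
  ring

/-- sums over integer intervals as sums over ranges -/
theorem kl_sum_Icc {M : Type*} [AddCommMonoid M] (f : ℤ → M) (a : ℤ) (N : ℕ) :
    ∑ n ∈ Finset.Icc a (a + N), f n = ∑ k ∈ Finset.range (N + 1), f (a + k) := by
  induction N with
  | zero => simp
  | succ N ih =>
    rw [Finset.sum_range_succ, ← ih]
    have h : Finset.Icc a (a + (N + 1 : ℕ)) = insert (a + (N + 1 : ℕ)) (Finset.Icc a (a + N)) := by
      ext x
      simp only [Finset.mem_Icc, Finset.mem_insert]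
      push_cast
      omega
    rw [h, Finset.sum_insert]
    · rw [add_comm]
    · simp only [Finset.mem_Icc]
      push_cast
      omega

/-- the inequality for sequences indexed by natural numbers -/
theorem kl_range (x : ℕ → ℝ) (N : ℕ) (θ : ℝ) (hθ : 0 < θ) (c : ℤ)
    (hmono : ∀ k, k + 1 < N → x (k + 1) - x k ≤ x (k + 2) - x (k + 1))
    (h1 : ∀ k, k < N → (c : ℝ) + θ ≤ x (k + 1) - x k)
    (h2 : ∀ k, k < N → x (k + 1) - x k ≤ (c : ℝ) + 1 - θ) (n : ℕ) (hn : n + 1 ≤ N) :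
    ‖∑ k ∈ Finset.range (n + 2), ee (x k) - (1 - klC (x (n + 1) - x n - c)) * ee (x (n + 1))‖ ≤
      1 / (4 * θ) + (klCot (x 1 - x 0 - c) - klCot (x (n + 1) - x n - c)) / 2 := by
  have key : ∀ k, k < N → ee (x k) = (ee (x k) - ee (x (k + 1))) * klC (x (k + 1) - x k - c) := by
    intro k hk
    have e1 : ee (x (k + 1)) = ee (x k) * ee (x (k + 1) - x k - c) := by
      have e2 : x (k + 1) = x k + ((x (k + 1) - x k - c) + c) := by ring
      conv_lhs => rw [e2]
      rw [kl_ee_add, kl_ee_add, kl_ee_int, mul_one]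
    have e3 := kl_mul (x (k + 1) - x k - c) (by
      have := kl_sin_lower (t := x (k + 1) - x k - c) hθ (by linarith [h1 k hk])
        (by linarith [h2 k hk])
      exact (by linarith : (0 : ℝ) < _).ne')
    rw [e1]
    calc ee (x k) = ee (x k) * ((1 - ee (x (k + 1) - x k - c)) * klC (x (k + 1) - x k - c)) := by
          rw [e3, mul_one]
      _ = _ := by ring
  induction n with
  | zero =>
    have e1 := key 0 (by omega)
    have e2 : ∑ k ∈ Finset.range (0 + 2), ee (x k) - (1 - klC (x (0 + 1) - x 0 - c)) * ee (x (0 + 1))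
        = klC (x 1 - x 0 - c) * ee (x 0) := by
      rw [Finset.sum_range_succ, Finset.sum_range_one]
      simp only [zero_add] at e1 ⊢
      linear_combination e1
    rw [e2, norm_mul, kl_norm_ee, mul_one]
    simp only [zero_add, sub_self, zero_div, add_zero]
    exact (kl_norm_C hθ (by linarith [h1 0 (by omega)]) (by
      have := h2 0 (by omega)
      simp only [zero_add] at this
      linarith)).1
  | succ n ih =>
    have ih' := ih (by omega)
    have e1 := key (n + 1) (by omega)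
    have e2 : ∑ k ∈ Finset.range (n + 1 + 2), ee (x k)
        - (1 - klC (x (n + 1 + 1) - x (n + 1) - c)) * ee (x (n + 1 + 1))
        = (∑ k ∈ Finset.range (n + 2), ee (x k)
          - (1 - klC (x (n + 1) - x n - c)) * ee (x (n + 1)))
        + (klC (x (n + 1 + 1) - x (n + 1) - c) - klC (x (n + 1) - x n - c)) * ee (x (n + 1)) := by
      rw [Finset.sum_range_succ]
      linear_combination e1
    rw [e2]
    refine (norm_add_le _ _).trans ?_
    rw [norm_mul, kl_norm_ee, mul_one]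
    have e3 := kl_sub (t := x (n + 1) - x n - c) (t' := x (n + 1 + 1) - x (n + 1) - c) hθ
      (by linarith [h1 n (by omega)])
      (by
        have := hmono n (by omega)
        linarith)
      (by linarith [h2 (n + 1) (by omega)])
    rw [e3]
    linarith

/-- Differences `Δ n = φ (n+1) - φ n` monotone and in `[c + θ, c + 1 - θ]` with `c` an integer. With
`C_n = 1 / (1 - ee (Δ n)) = (1 + i cot (π Δ n)) / 2`:
`∑_{n=a}^{b} ee(φ n) = ∑_{n=a}^{b-1} (ee(φ n) - ee(φ (n+1))) C_n + ee(φ b)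
= C_a ee(φ a) + ∑_{n=a+1}^{b-1} (C_n - C_{n-1}) ee(φ n) + (1 - C_{b-1}) ee(φ b)`, `|C_n|, |1 - C_n| ≤
1 / (4 θ)` (`|sin (π Δ)| ≥ 2 θ`), and `∑ |C_n - C_{n-1}| = |cot(π Δ_{b-1}) - cot (π Δ_a)| / 2 ≤ 1 / (2 θ)`
by monotonicity. -/
theorem kusmin_landau (φ : ℤ → ℝ) (a b : ℤ) (hab : a ≤ b) (θ : ℝ) (hθ : 0 < θ) (hθ' : θ ≤ 1 / 2)
    (c : ℤ) (hmono : ∀ n, a ≤ n → n + 1 < b → φ (n + 1) - φ n ≤ φ (n + 2) - φ (n + 1))
    (h1 : ∀ n, a ≤ n → n < b → (c : ℝ) + θ ≤ φ (n + 1) - φ n)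
    (h2 : ∀ n, a ≤ n → n < b → φ (n + 1) - φ n ≤ (c : ℝ) + 1 - θ) :
    ‖∑ n ∈ Finset.Icc a b, ee (φ n)‖ ≤ 1 / θ := by
  obtain ⟨N, rfl⟩ := Int.le.dest hab
  rw [kl_sum_Icc]
  rcases N with _ | n
  · simp only [zero_add, Finset.sum_range_one, kl_norm_ee]
    rw [le_div_iff₀ hθ]
    linarith
  · set x : ℕ → ℝ := fun k => φ (a + k) with hx
    have hx1 : ∀ k : ℕ, x (k + 1) = φ (a + k + 1) := by
      intro k
      simp only [hx]
      congr 1
      push_cast
      ring
    have hx2 : ∀ k : ℕ, x (k + 2) = φ (a + k + 2) := by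
      intro k
      simp only [hx]
      congr 1
      push_cast
      ring
    have hm' : ∀ k : ℕ, k + 1 < n + 1 → x (k + 1) - x k ≤ x (k + 2) - x (k + 1) := by
      intro k hk
      rw [hx1, hx2]
      exact hmono (a + k) (by omega) (by push_cast; omega)
    have h1' : ∀ k : ℕ, k < n + 1 → (c : ℝ) + θ ≤ x (k + 1) - x k := by
      intro k hk
      rw [hx1]
      exact h1 (a + k) (by omega) (by push_cast; omega)
    have h2' : ∀ k : ℕ, k < n + 1 → x (k + 1) - x k ≤ (c : ℝ) + 1 - θ := by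
      intro k hk
      rw [hx1]
      exact h2 (a + k) (by omega) (by push_cast; omega)
    have hmain := kl_range x (n + 1) θ hθ c hm' h1' h2' n le_rfl
    have hC := (kl_norm_C (t := x (n + 1) - x n - c) hθ (by linarith [h1' n (by omega)])
      (by linarith [h2' n (by omega)])).2
    have hc1 := (abs_le.1 (kl_cot_bound (t := x (n + 1) - x n - c) hθ
      (by linarith [h1' n (by omega)]) (by linarith [h2' n (by omega)]))).1
    have hc2 := (abs_le.1 (kl_cot_bound (t := x 1 - x 0 - c) hθ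
      (by
        have := h1' 0 (by omega)
        simp only [zero_add] at this
        linarith)
      (by
        have := h2' 0 (by omega)
        simp only [zero_add] at this
        linarith))).2
    have e1 : ∑ k ∈ Finset.range (n + 1 + 1), ee (φ (a + k))
        = (∑ k ∈ Finset.range (n + 2), ee (x k)
          - (1 - klC (x (n + 1) - x n - c)) * ee (x (n + 1)))
          + (1 - klC (x (n + 1) - x n - c)) * ee (x (n + 1)) := by
      simp only [hx]
      ring
    rw [e1]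
    refine (norm_add_le _ _).trans ?_
    rw [norm_mul, kl_norm_ee, mul_one]
    have e2 : 1 / θ = 1 / (4 * θ) + 1 / (4 * θ) + (1 / (2 * θ) + 1 / (2 * θ)) / 2 := by
      field_simp
      ring
    rw [e2]
    linarith

end Pool.Agent.GaussMR

end

/-! ### from `Lib_MP_f1a94e_mr.SecondDeriv` -/

section

/-!
# Piece SD: van der Corput's second derivative test (discrete form)
-/

set_option autoImplicit false

namespace Pool.Agent.GaussMR

theorem sd_sep (Δ : ℤ → ℝ) (a b : ℤ) (lam Lam : ℝ)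
    (h : ∀ n, a ≤ n → n + 1 < b → lam ≤ Δ (n + 1) - Δ n ∧ Δ (n + 1) - Δ n ≤ Lam) (n : ℤ)
    (hn : a ≤ n) : ∀ m : ℤ, n ≤ m → m < b →
      lam * ((m : ℝ) - n) ≤ Δ m - Δ n ∧ Δ m - Δ n ≤ Lam * ((m : ℝ) - n) := by
  intro m hm
  induction m, hm using Int.leInduction with
  | base =>
    intro _
    simp
  | succ m hm ih =>
    intro hb
    have h1 := ih (by omega)
    have h2 := h m (by omega) hb
    push_cast
    constructor
    · nlinarith [h1.1, h2.1]
    · nlinarith [h1.2, h2.2]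

/-- one block -/
theorem sd_block (φ Δ : ℤ → ℝ) (hΔ : ∀ n, Δ n = φ (n + 1) - φ n) (a b : ℤ) (lam θ : ℝ)
    (h0 : 0 < lam) (hθ : 0 < θ) (hθ' : θ ≤ 1 / 2)
    (hsep : ∀ n m : ℤ, a ≤ n → n ≤ m → m < b → lam * ((m : ℝ) - n) ≤ Δ m - Δ n) (v : ℤ) :
    ‖∑ n ∈ (Finset.Ico a b).filter (fun n => ⌊Δ n + θ⌋ = v), ee (φ n)‖ ≤
      2 * θ / lam + 1 + 1 / θ := by
  classical
  set S := (Finset.Ico a b).filter (fun n => ⌊Δ n + θ⌋ = v) with hS
  have hmem : ∀ n, n ∈ S ↔ (a ≤ n ∧ n < b) ∧ (v : ℝ) - θ ≤ Δ n ∧ Δ n < v + 1 - θ := by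
    intro n
    rw [hS, Finset.mem_filter, Finset.mem_Ico, Int.floor_eq_iff]
    constructor
    · rintro ⟨h1, h2, h3⟩
      exact ⟨h1, by linarith, by linarith⟩
    · rintro ⟨h1, h2, h3⟩
      exact ⟨h1, by linarith, by linarith⟩
  have hmono : ∀ n m : ℤ, a ≤ n → n ≤ m → m < b → Δ n ≤ Δ m := by
    intro n m h1 h2 h3
    have h4 := hsep n m h1 h2 h3
    have h5 : (n : ℝ) ≤ m := by exact_mod_cast h2
    have h6 : 0 ≤ lam * ((m : ℝ) - n) := mul_nonneg h0.le (by linarith)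
    linarith
  rw [← Finset.sum_filter_add_sum_filter_not S (fun n => Δ n < v + θ)]
  refine (norm_add_le _ _).trans (add_le_add ?_ ?_)
  · -- the points close to the integer
    set F := S.filter (fun n => Δ n < v + θ) with hF
    have h1 : ‖∑ n ∈ F, ee (φ n)‖ ≤ F.card := by
      refine (norm_sum_le _ _).trans ?_
      simp [kl_norm_ee]
    refine h1.trans ?_
    rcases F.eq_empty_or_nonempty with he | hne
    · rw [he]
      simp only [Finset.card_empty, Nat.cast_zero]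
      positivity
    · set p := F.min' hne with hp
      set q := F.max' hne with hq
      have hpF : p ∈ F := Finset.min'_mem _ _
      have hqF : q ∈ F := Finset.max'_mem _ _
      have hpq : p ≤ q := Finset.min'_le _ _ hqF
      have hp1 := (hmem p).1 (Finset.mem_filter.1 hpF).1
      have hq1 := (hmem q).1 (Finset.mem_filter.1 hqF).1
      have hq2 : Δ q < v + θ := (Finset.mem_filter.1 hqF).2
      have hsub : F ⊆ Finset.Icc p q := fun n hn =>
        Finset.mem_Icc.2 ⟨Finset.min'_le _ _ hn, Finset.le_max' _ _ hn⟩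
      have hc := Finset.card_le_card hsub
      rw [Int.card_Icc] at hc
      have hc' : (F.card : ℝ) ≤ (q : ℝ) - p + 1 := by
        have h2 : (F.card : ℤ) ≤ q + 1 - p := by omega
        have h3 : ((F.card : ℤ) : ℝ) ≤ ((q + 1 - p : ℤ) : ℝ) := by exact_mod_cast h2
        push_cast at h3
        linarith
      have h4 := hsep p q hp1.1.1 hpq hq1.1.2
      have h5 : (q : ℝ) - p ≤ 2 * θ / lam := by
        rw [le_div_iff₀ h0]
        linarith [hp1.2.1]
      linarith
  · -- the points away from the integers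
    set F := S.filter (fun n => ¬ Δ n < v + θ) with hF
    rcases F.eq_empty_or_nonempty with he | hne
    · rw [he]
      simp only [Finset.sum_empty, norm_zero]
      positivity
    · set p := F.min' hne with hp
      set q := F.max' hne with hq
      have hpF : p ∈ F := Finset.min'_mem _ _
      have hqF : q ∈ F := Finset.max'_mem _ _
      have hpq : p ≤ q := Finset.min'_le _ _ hqF
      have hp1 := (hmem p).1 (Finset.mem_filter.1 hpF).1
      have hp2 := not_lt.1 (Finset.mem_filter.1 hpF).2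
      have hq1 := (hmem q).1 (Finset.mem_filter.1 hqF).1
      have hFeq : F = Finset.Icc p q := by
        ext n
        constructor
        · intro hn
          exact Finset.mem_Icc.2 ⟨Finset.min'_le _ _ hn, Finset.le_max' _ _ hn⟩
        · intro hn
          rw [Finset.mem_Icc] at hn
          have h2 := hmono p n hp1.1.1 hn.1 (by omega)
          have h3 := hmono n q (by omega) hn.2 hq1.1.2
          rw [hF, Finset.mem_filter, hmem]
          exact ⟨⟨⟨by omega, by omega⟩, by linarith, by linarith [hq1.2.2]⟩, by linarith⟩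
      rw [hFeq]
      refine kusmin_landau φ p q hpq θ hθ hθ' v ?_ ?_ ?_
      · intro n hn hn2
        have h2 := hmono n (n + 1) (by omega) (by omega) (by omega)
        rw [hΔ, hΔ, show n + 1 + 1 = n + 2 by ring] at h2
        exact h2
      · intro n hn hn2
        rw [← hΔ]
        have h2 := hmono p n hp1.1.1 hn (by omega)
        linarith
      · intro n hn hn2
        rw [← hΔ]
        have h3 := hmono n q (by omega) hn2.le hq1.1.2
        linarith [hq1.2.2]

/-- Second differences between `lam` and `Lam`, `0 < lam ≤ Lam ≤ 1`. The first differences `Δ n` are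
increasing, with steps in `[lam, Lam]`, total variation `≤ (b - a) Lam`. With `θ = √lam / 2 ≤ 1/2`:
for each integer `ν` the `n` with `|Δ n - ν| < θ` form an interval with at most `2 θ / lam + 1` elements,
those with `Δ n ∈ [ν + θ, ν + 1 - θ]` an interval, on which `kusmin_landau` gives at most `1 / θ` (plus one
endpoint). At most `(b - a) Lam + 2` integers `ν` are needed. -/
theorem second_deriv (φ : ℤ → ℝ) (a b : ℤ) (hab : a ≤ b) (lam Lam : ℝ) (h0 : 0 < lam)
    (hl : lam ≤ Lam) (hL : Lam ≤ 1)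
    (h1 : ∀ n, a ≤ n → n + 1 < b → lam ≤ φ (n + 2) - 2 * φ (n + 1) + φ n)
    (h2 : ∀ n, a ≤ n → n + 1 < b → φ (n + 2) - 2 * φ (n + 1) + φ n ≤ Lam) :
    ‖∑ n ∈ Finset.Icc a b, ee (φ n)‖ ≤ 20 * (((b : ℝ) - a) * Lam + 1) * (1 / Real.sqrt lam + 1) := by
  classical
  have hs : 0 < Real.sqrt lam := Real.sqrt_pos.2 h0
  have hs1 : Real.sqrt lam ≤ 1 := by
    rw [Real.sqrt_le_left (by norm_num)]
    linarith
  have hss : Real.sqrt lam * Real.sqrt lam = lam := Real.mul_self_sqrt h0.le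
  have hi : 0 < 1 / Real.sqrt lam := by positivity
  have hLam : 0 < Lam := by linarith
  rcases hab.eq_or_lt with heq | hlt
  · subst heq
    simp only [Finset.Icc_self, Finset.sum_singleton, kl_norm_ee, sub_self, zero_mul, zero_add,
      mul_one]
    nlinarith
  · set θ : ℝ := Real.sqrt lam / 2 with hθ
    have hθ0 : 0 < θ := by positivity
    have hθ1 : θ ≤ 1 / 2 := by rw [hθ]; linarith
    set Δ : ℤ → ℝ := fun n => φ (n + 1) - φ n with hΔ
    have hstep : ∀ n, a ≤ n → n + 1 < b → lam ≤ Δ (n + 1) - Δ n ∧ Δ (n + 1) - Δ n ≤ Lam := by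
      intro n hn hn2
      have e : Δ (n + 1) - Δ n = φ (n + 2) - 2 * φ (n + 1) + φ n := by
        simp only [hΔ]
        rw [show n + 1 + 1 = n + 2 by ring]
        ring
      rw [e]
      exact ⟨h1 n hn hn2, h2 n hn hn2⟩
    have hsep := sd_sep Δ a b lam Lam hstep
    set B : ℝ := 2 * θ / lam + 1 + 1 / θ with hB
    have hblock := sd_block φ Δ (fun n => rfl) a b lam θ h0 hθ0 hθ1
      (fun n m hn hm hb => (hsep n hn m hm hb).1)
    have hBv : B = 3 * (1 / Real.sqrt lam) + 1 := by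
      have e1 : 2 * θ / lam = 1 / Real.sqrt lam := by
        rw [hθ, div_eq_div_iff h0.ne' hs.ne']
        nlinarith
      have e2 : 1 / θ = 2 * (1 / Real.sqrt lam) := by
        rw [hθ]
        field_simp
      rw [hB, e1, e2]
      ring
    have hIcc : Finset.Icc a b = insert b (Finset.Ico a b) := by
      ext x
      simp only [Finset.mem_Icc, Finset.mem_insert, Finset.mem_Ico]
      omega
    rw [hIcc, Finset.sum_insert (by simp)]
    refine (norm_add_le _ _).trans ?_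
    rw [kl_norm_ee]
    have hmono : ∀ n m : ℤ, a ≤ n → n ≤ m → m < b → Δ n ≤ Δ m := by
      intro n m e1 e2 e3
      have e4 := (hsep n e1 m e2 e3).1
      have e5 : (n : ℝ) ≤ m := by exact_mod_cast e2
      have e6 : 0 ≤ lam * ((m : ℝ) - n) := mul_nonneg h0.le (by linarith)
      linarith
    have hmaps : ∀ n ∈ Finset.Ico a b, ⌊Δ n + θ⌋ ∈ Finset.Icc ⌊Δ a + θ⌋ ⌊Δ (b - 1) + θ⌋ := by
      intro n hn
      rw [Finset.mem_Ico] at hn
      rw [Finset.mem_Icc]
      exact ⟨Int.floor_le_floor (by linarith [hmono a n le_rfl hn.1 hn.2]),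
        Int.floor_le_floor (by linarith [hmono n (b - 1) hn.1 (by omega) (by omega)])⟩
    rw [← Finset.sum_fiberwise_of_maps_to hmaps]
    have hsum : ‖∑ v ∈ Finset.Icc ⌊Δ a + θ⌋ ⌊Δ (b - 1) + θ⌋,
        ∑ n ∈ (Finset.Ico a b).filter (fun n => ⌊Δ n + θ⌋ = v), ee (φ n)‖ ≤
        (Finset.Icc ⌊Δ a + θ⌋ ⌊Δ (b - 1) + θ⌋).card * B := by
      refine (norm_sum_le_of_le _ (fun v _ => hblock v)).trans ?_
      rw [Finset.sum_const, nsmul_eq_mul]
    have hcard : ((Finset.Icc ⌊Δ a + θ⌋ ⌊Δ (b - 1) + θ⌋).card : ℝ) ≤ ((b : ℝ) - a) * Lam + 2 := by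
      rw [Int.card_Icc]
      have e1 : ⌊Δ a + θ⌋ ≤ ⌊Δ (b - 1) + θ⌋ :=
        Int.floor_le_floor (by linarith [hmono a (b - 1) le_rfl (by omega) (by omega)])
      have e2 : (((⌊Δ (b - 1) + θ⌋ + 1 - ⌊Δ a + θ⌋).toNat : ℤ) : ℝ)
          = ((⌊Δ (b - 1) + θ⌋ + 1 - ⌊Δ a + θ⌋ : ℤ) : ℝ) := by
        rw [Int.toNat_of_nonneg (by omega)]
      have e3 : (((⌊Δ (b - 1) + θ⌋ + 1 - ⌊Δ a + θ⌋).toNat : ℕ) : ℝ)
          = (⌊Δ (b - 1) + θ⌋ : ℝ) + 1 - ⌊Δ a + θ⌋ := by
        have := e2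
        push_cast at this
        exact this
      rw [e3]
      have e4 := Int.floor_le (Δ (b - 1) + θ)
      have e5 := Int.lt_floor_add_one (Δ a + θ)
      have e6 := (hsep a le_rfl (b - 1) (by omega) (by omega)).2
      push_cast at e6
      nlinarith
    have hB0 : 0 ≤ B := by rw [hBv]; positivity
    have e7 : ((Finset.Icc ⌊Δ a + θ⌋ ⌊Δ (b - 1) + θ⌋).card : ℝ) * B ≤
        (((b : ℝ) - a) * Lam + 2) * B := mul_le_mul_of_nonneg_right hcard hB0
    have e8 : (0 : ℝ) < (b : ℝ) - a := by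
      have : (a : ℝ) < b := by exact_mod_cast hlt
      linarith
    have e9 : 0 < ((b : ℝ) - a) * Lam := mul_pos e8 hLam
    rw [hBv] at e7
    rw [hBv] at hsum
    have e10 : 0 < ((b : ℝ) - a) * Lam * (1 / Real.sqrt lam) := mul_pos e9 hi
    nlinarith

end Pool.Agent.GaussMR

end

/-! ### from `Lib_MP_f1a94e_mr.DTTwo` -/

section

/-!
# Piece DTTWO: derivative tests (weak form), definition and `q = 2`
-/

set_option autoImplicit false

namespace Pool.Agent.GaussMR

open scoped ContDiff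

/-- the `q`-th derivative test with parameters `β, η, C` -/
def DTest (q : ℕ) (β η C : ℝ) : Prop :=
  ∀ (f : ℝ → ℝ), ContDiff ℝ ∞ f → ∀ (a b : ℤ) (L lam Lam : ℝ), a ≤ b → 1 ≤ L → (b : ℝ) - a ≤ L →
    L ^ (-(7 / 4 : ℝ)) ≤ lam → lam ≤ Lam → Lam ≤ L ^ (-β) → Lam ≤ lam * L ^ (1 / 100 : ℝ) →
    (∀ x ∈ Set.Icc (a : ℝ) b, lam ≤ iteratedDeriv q f x ∧ iteratedDeriv q f x ≤ Lam) →
    ‖∑ n ∈ Finset.Icc a b, ee (f n)‖ ≤ C * L ^ (1 - η)

/-- second difference as a second derivative -/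
theorem dt_second_diff (f : ℝ → ℝ) (hf : ContDiff ℝ ∞ f) (n : ℝ) :
    ∃ x ∈ Set.Icc n (n + 2), f (n + 2) - 2 * f (n + 1) + f n = iteratedDeriv 2 f x := by
  have hd : Differentiable ℝ f := hf.differentiable (by simp)
  have hd1 : ContDiff ℝ ∞ (deriv f) := by
    have := hf.iterate_deriv 1
    simpa using this
  have hd2 : Differentiable ℝ (deriv f) := hd1.differentiable (by simp)
  have hg : ∀ x, HasDerivAt (fun y => f (y + 1) - f y) (deriv f (x + 1) - deriv f x) x := by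
    intro x
    have h1 : HasDerivAt (fun y => f (y + 1)) (deriv f (x + 1)) x := by
      have := (hd (x + 1)).hasDerivAt.comp_add_const x 1
      simpa using this
    exact h1.sub (hd x).hasDerivAt
  obtain ⟨c, hc, hc'⟩ := exists_hasDerivAt_eq_slope (fun y => f (y + 1) - f y)
    (fun x => deriv f (x + 1) - deriv f x) (show n < n + 1 by linarith)
    (fun x _ => (hg x).continuousAt.continuousWithinAt) (fun x _ => hg x)
  obtain ⟨d, hd', hd''⟩ := exists_hasDerivAt_eq_slope (deriv f) (deriv (deriv f))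
    (show c < c + 1 by linarith)
    (fun x _ => (hd2 x).continuousAt.continuousWithinAt) (fun x _ => (hd2 x).hasDerivAt)
  refine ⟨d, ⟨?_, ?_⟩, ?_⟩
  · linarith [hc.1, hd'.1]
  · linarith [hc.2, hd'.2]
  · have e1 : iteratedDeriv 2 f d = deriv (deriv f) d := by
      rw [iteratedDeriv_succ, iteratedDeriv_one]
    rw [e1, hd'']
    have e2 : (f (n + 1 + 1) - f (n + 1) - (f (n + 1) - f n)) / (n + 1 - n) =
      f (n + 2) - 2 * f (n + 1) + f n := by
      rw [show n + 1 - n = 1 by ring, show n + 1 + 1 = n + 2 by ring]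
      ring
    rw [← e2, ← hc']
    simp

/-- from `second_deriv`: `L Lam lam^(-1/2) ≤ L lam^(1/2) L^(1/100) ≤ L^(1 - 1/32 + 1/100)`,
`lam^(-1/2) ≤ L^(7/8)`, `L Lam ≤ L^(15/16)` -/
theorem dt_two : DTest 2 (1 / 16) (1 / 50) 100 := by
  intro f hf a b L lam Lam hab hL hbL h1 h2 h3 h4 h5
  have hL0 : 0 < L := by linarith
  have hlam : 0 < lam := lt_of_lt_of_le (Real.rpow_pos_of_pos hL0 _) h1
  have hLam : 0 < Lam := lt_of_lt_of_le hlam h2
  have hLam1 : Lam ≤ 1 := h3.trans (Real.rpow_le_one_of_one_le_of_nonpos hL (by norm_num))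
  have hsd : ∀ n : ℤ, a ≤ n → n + 1 < b → lam ≤ f ((n : ℤ) + 2 : ℤ) - 2 * f ((n + 1 : ℤ)) + f n ∧
      f ((n : ℤ) + 2 : ℤ) - 2 * f ((n + 1 : ℤ)) + f n ≤ Lam := by
    intro n hn hn'
    obtain ⟨x, hx, hx'⟩ := dt_second_diff f hf n
    have hn1 : (a : ℝ) ≤ n := by exact_mod_cast hn
    have hn2 : (n : ℝ) + 2 ≤ b := by
      have : n + 2 ≤ b := by omega
      exact_mod_cast this
    push_cast
    rw [hx']
    exact h5 x ⟨hn1.trans hx.1, hx.2.trans hn2⟩
  have hmain := second_deriv (fun n : ℤ => f n) a b hab lam Lam hlam h2 hLam1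
    (fun n hn hn' => (hsd n hn hn').1) (fun n hn hn' => (hsd n hn hn').2)
  refine hmain.trans ?_
  have hs : 0 < Real.sqrt lam := Real.sqrt_pos.mpr hlam
  have hba : (0 : ℝ) ≤ (b : ℝ) - a := by
    have : (a : ℝ) ≤ b := by exact_mod_cast hab
    linarith
  have e1 : ((b : ℝ) - a) * Lam ≤ L * L ^ (-(1 / 16) : ℝ) := by gcongr
  have e1' : L * L ^ (-(1 / 16) : ℝ) = L ^ (15 / 16 : ℝ) := by
    nth_rewrite 1 [← Real.rpow_one L]
    rw [← Real.rpow_add hL0]
    norm_num
  have e2 : 1 / Real.sqrt lam ≤ L ^ (7 / 8 : ℝ) := by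
    rw [one_div, inv_le_comm₀ hs (Real.rpow_pos_of_pos hL0 _), ← Real.rpow_neg hL0.le]
    apply Real.le_sqrt_of_sq_le
    rw [← Real.rpow_natCast, ← Real.rpow_mul hL0.le]
    convert h1 using 2
    norm_num
  have e3 : ((b : ℝ) - a) * Lam * (1 / Real.sqrt lam) ≤ L ^ (49 / 50 : ℝ) := by
    have s1 : Real.sqrt lam ≤ L ^ (-(1 / 32) : ℝ) := by
      apply Real.sqrt_le_iff.mpr
      refine ⟨(Real.rpow_pos_of_pos hL0 _).le, ?_⟩
      rw [← Real.rpow_natCast, ← Real.rpow_mul hL0.le]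
      refine (h2.trans h3).trans (le_of_eq ?_)
      norm_num
    have s2 : Lam * (1 / Real.sqrt lam) ≤ Real.sqrt lam * L ^ (1 / 100 : ℝ) := by
      rw [mul_one_div, div_le_iff₀ hs]
      calc Lam ≤ lam * L ^ (1 / 100 : ℝ) := h4
        _ = Real.sqrt lam * L ^ (1 / 100 : ℝ) * Real.sqrt lam := by
          rw [mul_right_comm, Real.mul_self_sqrt hlam.le]
    calc ((b : ℝ) - a) * Lam * (1 / Real.sqrt lam) = ((b : ℝ) - a) * (Lam * (1 / Real.sqrt lam)) := by
          ring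
      _ ≤ L * (L ^ (-(1 / 32) : ℝ) * L ^ (1 / 100 : ℝ)) := by
          apply mul_le_mul hbL (s2.trans _) (by positivity) hL0.le
          gcongr
      _ = L ^ (1 + (-(1 / 32)) + 1 / 100 : ℝ) := by
          rw [Real.rpow_add hL0, Real.rpow_add hL0, Real.rpow_one]
          ring
      _ ≤ L ^ (49 / 50 : ℝ) := by
          apply Real.rpow_le_rpow_of_exponent_le hL
          norm_num
  have g1 : L ^ (15 / 16 : ℝ) ≤ L ^ (49 / 50 : ℝ) := by
    apply Real.rpow_le_rpow_of_exponent_le hL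
    norm_num
  have g2 : L ^ (7 / 8 : ℝ) ≤ L ^ (49 / 50 : ℝ) := by
    apply Real.rpow_le_rpow_of_exponent_le hL
    norm_num
  have g3 : (1 : ℝ) ≤ L ^ (49 / 50 : ℝ) := Real.one_le_rpow hL (by norm_num)
  have e4 : L ^ (1 - 1 / 50 : ℝ) = L ^ (49 / 50 : ℝ) := by norm_num
  rw [e4]
  have e5 : 20 * (((b : ℝ) - a) * Lam + 1) * (1 / Real.sqrt lam + 1) =
      20 * (((b : ℝ) - a) * Lam * (1 / Real.sqrt lam) + ((b : ℝ) - a) * Lam +
        1 / Real.sqrt lam + 1) := by ring
  rw [e5]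
  rw [e1'] at e1
  nlinarith [e1, e2, e3, g1, g2, g3]

end Pool.Agent.GaussMR

end

/-! ### from `Lib_MP_f1a94e_lp.MertT` -/

section

/-!
# Piece MERTT: Mertens' theorem in windows
-/

set_option autoImplicit false

namespace Pool.Agent.LPr

open Finset Pool.Agent.GaussMR Filter


private theorem mw_split (F : ℕ → ℝ) {X s t : ℝ} (hX : 1 < X) (hst : s ≤ t) :
    ∑ p ∈ PW X s t, F p = ∑ p ∈ (Icc 1 ⌊X ^ t⌋₊).filter (fun p => p.Prime), F p -
      ∑ p ∈ (Icc 1 ⌊X ^ s⌋₊).filter (fun p => p.Prime), F p := by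
  classical
  have hX0 : (0 : ℝ) ≤ X := by linarith
  have hle : X ^ s ≤ X ^ t := Real.rpow_le_rpow_of_exponent_le hX.le hst
  have h1 := Finset.sum_filter_add_sum_filter_not ((Icc 1 ⌊X ^ t⌋₊).filter (fun p => p.Prime))
    (fun p : ℕ => X ^ s < (p : ℝ)) F
  have h2 : ((Icc 1 ⌊X ^ t⌋₊).filter (fun p => p.Prime)).filter (fun p : ℕ => X ^ s < (p : ℝ)) =
      PW X s t := by
    ext p
    rw [mem_PW hX0, mem_filter, mem_filter, mem_Icc]
    constructor
    · rintro ⟨⟨⟨-, a⟩, b⟩, c⟩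
      exact ⟨b, c, (Nat.le_floor_iff (Real.rpow_nonneg hX0 t)).1 a⟩
    · rintro ⟨a, b, c⟩
      exact ⟨⟨⟨a.one_lt.le, Nat.le_floor c⟩, a⟩, b⟩
  have h3 : ((Icc 1 ⌊X ^ t⌋₊).filter (fun p => p.Prime)).filter (fun p : ℕ => ¬ X ^ s < (p : ℝ)) =
      (Icc 1 ⌊X ^ s⌋₊).filter (fun p => p.Prime) := by
    ext p
    rw [mem_filter, mem_filter, mem_filter, mem_Icc, mem_Icc, not_lt]
    constructor
    · rintro ⟨⟨⟨a, -⟩, b⟩, c⟩
      exact ⟨⟨a, Nat.le_floor c⟩, b⟩
    · rintro ⟨⟨a, b⟩, c⟩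
      have d := (Nat.le_floor_iff (Real.rpow_nonneg hX0 s)).1 b
      exact ⟨⟨⟨a, Nat.le_floor (d.trans hle)⟩, c⟩, d⟩
  rw [h2, h3] at h1
  linarith

private theorem mw_add (F : ℕ → ℝ) {X s t w : ℝ} (hX : 1 < X) (hst : s ≤ t) (htw : t ≤ w) :
    ∑ p ∈ PW X s w, F p = ∑ p ∈ PW X s t, F p + ∑ p ∈ PW X t w, F p := by
  rw [mw_split F hX hst, mw_split F hX htw, mw_split F hX (hst.trans htw)]
  ring

private theorem mw_one (g : ℕ → ℝ) (hg : ∀ p, 0 ≤ g p) (C : ℝ)
    (h : ∀ x : ℝ, 2 ≤ x → |∑ p ∈ (Icc 1 ⌊x⌋₊).filter (fun p => p.Prime), g p * Real.log p / p - Real.log x| ≤ C)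
    {X s t : ℝ} (hX : 1 < X) (hs : 0 < s) (hst : s ≤ t) (h2 : 2 ≤ X ^ s) :
    1 - s / t - 2 * C / (s * Real.log X) ≤ ∑ p ∈ PW X s t, g p / p ∧
      ∑ p ∈ PW X s t, g p / p ≤ t / s - 1 + 2 * C / (s * Real.log X) := by
  have hX0 : (0 : ℝ) ≤ X := by linarith
  have hXp : (0 : ℝ) < X := by linarith
  have hL : 0 < Real.log X := Real.log_pos hX
  have ht : 0 < t := hs.trans_le hst
  have hle : X ^ s ≤ X ^ t := Real.rpow_le_rpow_of_exponent_le hX.le hst
  have e1 := h (X ^ s) h2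
  have e2 := h (X ^ t) (h2.trans hle)
  rw [Real.log_rpow hXp] at e1 e2
  have hC : 0 ≤ C := (abs_nonneg _).trans e1
  have e3 := mw_split (fun p => g p * Real.log p / p) hX hst
  have b1 : ∑ p ∈ PW X s t, g p * Real.log p / p ≤ t * Real.log X * ∑ p ∈ PW X s t, g p / p := by
    rw [mul_sum]
    refine sum_le_sum fun p hp => ?_
    obtain ⟨hp1, hp2, hp3⟩ := (mem_PW hX0).1 hp
    have hp0 : (0 : ℝ) < p := by exact_mod_cast hp1.pos
    have k1 : Real.log p ≤ t * Real.log X := by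
      rw [← Real.log_rpow hXp]
      exact Real.log_le_log hp0 hp3
    have k2 : 0 ≤ g p / p := div_nonneg (hg p) hp0.le
    calc g p * Real.log p / p = Real.log p * (g p / p) := by ring
      _ ≤ t * Real.log X * (g p / p) := mul_le_mul_of_nonneg_right k1 k2
  have b2 : s * Real.log X * ∑ p ∈ PW X s t, g p / p ≤ ∑ p ∈ PW X s t, g p * Real.log p / p := by
    rw [mul_sum]
    refine sum_le_sum fun p hp => ?_
    obtain ⟨hp1, hp2, hp3⟩ := (mem_PW hX0).1 hp
    have hp0 : (0 : ℝ) < p := by exact_mod_cast hp1.pos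
    have k1 : s * Real.log X ≤ Real.log p := by
      rw [← Real.log_rpow hXp]
      exact Real.log_le_log (Real.rpow_pos_of_pos hXp s) hp2.le
    have k2 : 0 ≤ g p / p := div_nonneg (hg p) hp0.le
    calc s * Real.log X * (g p / p) ≤ Real.log p * (g p / p) := mul_le_mul_of_nonneg_right k1 k2
      _ = g p * Real.log p / p := by ring
  set S := ∑ p ∈ PW X s t, g p / p with hS
  set B := ∑ p ∈ PW X s t, g p * Real.log p / p with hB
  rw [abs_le] at e1 e2
  have f1 : B ≤ (t - s) * Real.log X + 2 * C := by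
    rw [e3]
    nlinarith [e1.1, e2.2]
  have f2 : (t - s) * Real.log X - 2 * C ≤ B := by
    rw [e3]
    nlinarith [e1.2, e2.1]
  have hsL : 0 < s * Real.log X := mul_pos hs hL
  have htL : 0 < t * Real.log X := mul_pos ht hL
  constructor
  · have g1 : ((t - s) * Real.log X - 2 * C) / (t * Real.log X) ≤ S := by
      rw [div_le_iff₀ htL]
      linarith
    have g2 : ((t - s) * Real.log X - 2 * C) / (t * Real.log X) = 1 - s / t - 2 * C / (t * Real.log X) := by
      field_simp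
    have g3 : 2 * C / (t * Real.log X) ≤ 2 * C / (s * Real.log X) :=
      div_le_div_of_nonneg_left (by linarith) hsL (mul_le_mul_of_nonneg_right hst hL.le)
    linarith
  · have g1 : S ≤ ((t - s) * Real.log X + 2 * C) / (s * Real.log X) := by
      rw [le_div_iff₀ hsL]
      linarith
    have g2 : ((t - s) * Real.log X + 2 * C) / (s * Real.log X) = t / s - 1 + 2 * C / (s * Real.log X) := by
      field_simp
    linarith

private theorem mw_grid (g : ℕ → ℝ) (hg : ∀ p, 0 ≤ g p) (C : ℝ)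
    (h : ∀ x : ℝ, 2 ≤ x → |∑ p ∈ (Icc 1 ⌊x⌋₊).filter (fun p => p.Prime), g p * Real.log p / p - Real.log x| ≤ C)
    {X u κ : ℝ} (hX : 1 < X) (hu : 0 < u) (hκ : 1 ≤ κ) (h2 : 2 ≤ X ^ u) (n : ℕ) :
    n * (1 - 1 / κ) - n * (2 * C / (u * Real.log X)) ≤ ∑ p ∈ PW X u (u * κ ^ n), g p / p ∧
      ∑ p ∈ PW X u (u * κ ^ n), g p / p ≤ n * (κ - 1) + n * (2 * C / (u * Real.log X)) := by
  have hL : 0 < Real.log X := Real.log_pos hX
  have hκ0 : 0 < κ := by linarith
  have hC : 0 ≤ C := (abs_nonneg _).trans (h 2 le_rfl)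
  induction n with
  | zero =>
    have e : ∑ p ∈ PW X u (u * κ ^ 0), g p / p = 0 := by
      rw [pow_zero, mul_one, mw_split _ hX le_rfl, sub_self]
    rw [e]
    simp
  | succ n ih =>
    have hn1 : 1 ≤ κ ^ n := one_le_pow₀ hκ
    have hun : u ≤ u * κ ^ n := by nlinarith
    have hunn : u * κ ^ n ≤ u * κ ^ (n + 1) := by
      rw [pow_succ]
      have : 0 < u * κ ^ n := by positivity
      nlinarith
    have hs : 0 < u * κ ^ n := by positivity
    have h2' : 2 ≤ X ^ (u * κ ^ n) := h2.trans (Real.rpow_le_rpow_of_exponent_le hX.le hun)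
    have k := mw_one g hg C h hX hs hunn h2'
    have r1 : u * κ ^ n / (u * κ ^ (n + 1)) = 1 / κ := by
      rw [pow_succ]
      field_simp
    have r2 : u * κ ^ (n + 1) / (u * κ ^ n) = κ := by
      rw [pow_succ]
      field_simp
    have r3 : 2 * C / (u * κ ^ n * Real.log X) ≤ 2 * C / (u * Real.log X) :=
      div_le_div_of_nonneg_left (by linarith) (mul_pos hu hL) (mul_le_mul_of_nonneg_right hun hL.le)
    rw [r1, r2] at k
    rw [mw_add (fun p => g p / p) hX hun hunn]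
    push_cast
    constructor <;> nlinarith [k.1, k.2, ih.1, ih.2]

/-- PROOF. `A x = ∑_(p ≤ x) g p log p / p = log x + O(C)`. If `u = v` the window is empty and `log 1 = 0`. Otherwise let `N ≥ 1`, `t_i = u (v/u)^(i/N)`, `i = 0..N`. For `X` large the window `PW X u v` is the disjoint union of the `PW X t_i t_(i+1)`, and on the latter
`t_i log X < log p ≤ t_(i+1) log X`, so `∑_(p ∈ PW X t_i t_(i+1)) g p / p` lies between `(A (X^t_(i+1)) - A (X^t_i)) / (t_(i+1) log X)` and `(A (X^t_(i+1)) - A (X^t_i)) / (t_i log X)`, where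
`A (X^t_(i+1)) - A (X^t_i) = (t_(i+1) - t_i) log X + O(2 C)`. With `κ = (v/u)^(1/N)`: `(t_(i+1) - t_i) / t_i = κ - 1`, `(t_(i+1) - t_i) / t_(i+1) = 1 - 1/κ`; so
`N (1 - 1/κ) - 2 C N / (u log X) ≤ ∑_(p ∈ PW X u v) g p / p ≤ N (κ - 1) + 2 C N / (u log X)`. Also `1 - 1/κ ≤ log κ ≤ κ - 1`, `N log κ = log (v/u)`, and `N (κ - 1) - N (1 - 1/κ) = N (κ - 1)² / κ → 0` as `N → ∞` (`κ - 1 ≤ e log κ` for `log κ ≤ 1`, so it is
`≤ e² log(v/u)² / N`). Given `ε` choose `N`, then `X` large. -/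
theorem mert_of_log (g : ℕ → ℝ) (hg : ∀ p, 0 ≤ g p) (C : ℝ)
    (h : ∀ x : ℝ, 2 ≤ x → |∑ p ∈ (Icc 1 ⌊x⌋₊).filter (fun p => p.Prime), g p * Real.log p / p - Real.log x| ≤ C) :
    Mert g := by
  refine ⟨hg, fun u v hu huv => ?_⟩
  have hv : 0 < v := hu.trans_le huv
  have hC : 0 ≤ C := (abs_nonneg _).trans (h 2 le_rfl)
  set r := Real.log (v / u) with hr
  have hr0 : 0 ≤ r := Real.log_nonneg ((one_le_div hu).2 huv)
  rw [Metric.tendsto_nhds]
  intro ε hε
  obtain ⟨N, hN⟩ := exists_nat_gt (max 1 (max r (2 * r ^ 2 / ε)))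
  have hN1 : (1 : ℝ) < N := lt_of_le_of_lt (le_max_left _ _) hN
  have hNr : r < N := lt_of_le_of_lt ((le_max_left _ _).trans (le_max_right _ _)) hN
  have hNe : 2 * r ^ 2 / ε < N := lt_of_le_of_lt ((le_max_right _ _).trans (le_max_right _ _)) hN
  have hN0 : (0 : ℝ) < N := by linarith
  set κ := Real.exp (r / N) with hκd
  have hκ : 1 ≤ κ := Real.one_le_exp (div_nonneg hr0 hN0.le)
  have hκN : u * κ ^ N = v := by
    rw [hκd, ← Real.exp_nat_mul, mul_div_cancel₀ _ hN0.ne', hr, Real.exp_log (div_pos hv hu),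
      mul_div_cancel₀ _ hu.ne']
  have hx1 : |r / N| ≤ 1 := by
    rw [abs_of_nonneg (div_nonneg hr0 hN0.le), div_le_one hN0]
    exact hNr.le
  have q1 := Real.abs_exp_sub_one_sub_id_le hx1
  have q2 := Real.abs_exp_sub_one_sub_id_le (x := -(r / N)) (by rwa [abs_neg])
  rw [← hκd, abs_le] at q1
  rw [Real.exp_neg, ← hκd, abs_le] at q2
  have hsq : N * (r / N) ^ 2 < ε / 2 := by
    have : (N : ℝ) * (r / N) ^ 2 = r ^ 2 / N := by field_simp
    rw [this, div_lt_iff₀ hN0]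
    rw [div_lt_iff₀ hε] at hNe
    linarith
  have u1 : N * (κ - 1) ≤ r + N * (r / N) ^ 2 := by
    have e : (N : ℝ) * (r / N) = r := mul_div_cancel₀ _ hN0.ne'
    have := mul_le_mul_of_nonneg_left q1.2 hN0.le
    nlinarith
  have u2 : r - N * (r / N) ^ 2 ≤ N * (1 - 1 / κ) := by
    have e : (N : ℝ) * (r / N) = r := mul_div_cancel₀ _ hN0.ne'
    have := mul_le_mul_of_nonneg_left q2.2 hN0.le
    rw [one_div]
    nlinarith
  have l1 : ∀ᶠ X : ℝ in atTop, 2 ≤ X ^ u := (tendsto_rpow_atTop hu).eventually_ge_atTop 2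
  have l2 : ∀ᶠ X : ℝ in atTop, 4 * C * N / (u * ε) < Real.log X :=
    Real.tendsto_log_atTop.eventually_gt_atTop _
  filter_upwards [l1, l2, eventually_gt_atTop (1 : ℝ)] with X h1 h2 h3
  have hL : 0 < Real.log X := Real.log_pos h3
  have k := mw_grid g hg C h h3 hu hκ h1 N
  rw [hκN] at k
  have w : N * (2 * C / (u * Real.log X)) < ε / 2 := by
    rw [div_lt_iff₀ (mul_pos hu hε)] at h2
    have e : (N : ℝ) * (2 * C / (u * Real.log X)) = (2 * C * N) / (u * Real.log X) := by ring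
    rw [e, div_lt_iff₀ (mul_pos hu hL)]
    nlinarith
  rw [Real.dist_eq, abs_lt]
  constructor <;> linarith [k.1, k.2]

/-- `mert_one`, `mertensA_powers` (the proper prime powers contribute a bounded amount, `Λ p = log p`), `log ⌊x⌋ = log x + O(1)`, `mert_of_log`. -/
theorem mert_all : Mert (fun _ => 1) := by
  obtain ⟨C1, h1⟩ := mert_one
  obtain ⟨C3, h3⟩ := mertensA_powers
  refine mert_of_log _ (fun _ => zero_le_one) (C1 + C3 + Real.log 2) fun x hx => ?_
  set N := ⌊x⌋₊ with hN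
  have hN1 : 1 ≤ N := by
    rw [hN, Nat.one_le_floor_iff]
    linarith
  have hNpos : (0 : ℝ) < N := by exact_mod_cast hN1
  have k1 := h1 N hN1
  have k3 := h3 N
  have hlog : |Real.log N - Real.log x| ≤ Real.log 2 := by
    have a1 : (N : ℝ) ≤ x := Nat.floor_le (by linarith)
    have a2 : x ≤ 2 * N := by
      have := Nat.lt_floor_add_one x
      rw [← hN] at this
      have : (1 : ℝ) ≤ N := by exact_mod_cast hN1
      linarith
    have b1 := Real.log_le_log hNpos a1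
    have b2 := Real.log_le_log (by linarith) a2
    rw [Real.log_mul (by norm_num) hNpos.ne'] at b2
    rw [abs_le]
    constructor <;> linarith [Real.log_nonneg (by norm_num : (1 : ℝ) ≤ 2)]
  have e1 : ∑ p ∈ (Icc 1 N).filter (fun p => p.Prime), (1 : ℝ) * Real.log p / p =
      ∑ n ∈ Icc 1 N, ArithmeticFunction.vonMangoldt n / (n : ℝ) -
        ∑ n ∈ Icc 1 N, (if n.Prime then 0 else ArithmeticFunction.vonMangoldt n) / (n : ℝ) := by
    rw [← sum_sub_distrib, sum_filter]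
    refine sum_congr rfl fun n _ => ?_
    split_ifs with hp
    · rw [ArithmeticFunction.vonMangoldt_apply_prime hp]
      ring
    · ring
  have e2 : 0 ≤ ∑ n ∈ Icc 1 N, (if n.Prime then 0 else ArithmeticFunction.vonMangoldt n) / (n : ℝ) := by
    refine sum_nonneg fun n _ => ?_
    split_ifs
    · simp
    · exact div_nonneg ArithmeticFunction.vonMangoldt_nonneg n.cast_nonneg
  rw [e1]
  rw [abs_le] at k1 hlog ⊢
  constructor <;> linarith [k1.1, k1.2, hlog.1, hlog.2]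

/-- `mertens_log` (twice) and `mert_of_log`. -/
theorem mert_four : Mert (fun p => if p % 4 = 1 then 2 else 0) := by
  obtain ⟨C, h⟩ := mertens_log
  refine mert_of_log _ (fun p => by split_ifs <;> norm_num) (2 * C) fun x hx => ?_
  have k := h x hx
  have e : ∑ p ∈ (Icc 1 ⌊x⌋₊).filter (fun p => p.Prime),
      (if p % 4 = 1 then (2 : ℝ) else 0) * Real.log p / p =
      2 * ∑ p ∈ (Icc 1 ⌊x⌋₊).filter (fun p => p.Prime ∧ p % 4 = 1), Real.log p / p := by
    rw [mul_sum, ← filter_filter, sum_filter (fun p => p % 4 = 1)]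
    refine sum_congr rfl fun p _ => ?_
    split_ifs
    · ring
    · ring
  rw [e]
  rw [abs_le] at k ⊢
  constructor <;> linarith [k.1, k.2]

end Pool.Agent.LPr

end

/-! ### from `Lib_MP_f1a94e_lp.SWlim` -/

section

/-!
# Piece SWLIM: limits of `SW`, independent of the weight
-/

set_option autoImplicit false

namespace Pool.Agent.LPr

open Finset Filter

private lemma swl_split {X u m v : ℝ} (hX : 1 ≤ X) (h1 : u ≤ m) (h2 : m ≤ v) (f : ℕ → ℝ) :
    ∑ p ∈ PW X u v, f p = ∑ p ∈ PW X u m, f p + ∑ p ∈ PW X m v, f p := by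
  classical
  have hX0 : 0 ≤ X := by linarith
  have e1 := Real.rpow_le_rpow_of_exponent_le hX h1
  have e2 := Real.rpow_le_rpow_of_exponent_le hX h2
  rw [← sum_union]
  · congr 1
    ext p
    rw [mem_union, mem_PW hX0, mem_PW hX0, mem_PW hX0]
    constructor
    · rintro ⟨a, b, c⟩
      by_cases h : (p : ℝ) ≤ X ^ m
      · exact Or.inl ⟨a, b, h⟩
      · exact Or.inr ⟨a, not_le.1 h, c⟩
    · rintro (⟨a, b, c⟩ | ⟨a, b, c⟩)
      · exact ⟨a, b, c.trans e2⟩
      · exact ⟨a, e1.trans_lt b, c⟩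
  · rw [disjoint_left]
    intro p hp hq
    rw [mem_PW hX0] at hp hq
    linarith [hp.2.2, hq.2.1]

private lemma swl_grid {X : ℝ} (hX : 1 ≤ X) (t : ℕ → ℝ) (ht : Monotone t) (f : ℕ → ℝ) (n : ℕ) :
    ∑ p ∈ PW X (t 0) (t n), f p = ∑ i ∈ range n, ∑ p ∈ PW X (t i) (t (i + 1)), f p := by
  induction n with
  | zero =>
    have : PW X (t 0) (t 0) = ∅ := by
      rw [eq_empty_iff_forall_notMem]
      intro p hp
      rw [mem_PW (by linarith)] at hp
      linarith [hp.2.1, hp.2.2]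
    rw [this]
    simp
  | succ n ih => rw [sum_range_succ, ← ih, swl_split hX (ht (Nat.zero_le n)) (ht (Nat.le_succ n))]

private lemma swl_log {X a b : ℝ} (hX : 1 < X) {p : ℕ} (hp : p ∈ PW X a b) :
    a < Real.log p / Real.log X ∧ Real.log p / Real.log X ≤ b := by
  have hX0 : 0 < X := by linarith
  rw [mem_PW hX0.le] at hp
  obtain ⟨h1, h2, h3⟩ := hp
  have hl : 0 < Real.log X := Real.log_pos hX
  have hp0 : (0 : ℝ) < p := by exact_mod_cast h1.pos
  constructor
  · rw [lt_div_iff₀ hl, ← Real.log_rpow hX0]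
    exact Real.log_lt_log (Real.rpow_pos_of_pos hX0 _) h2
  · rw [div_le_iff₀ hl, ← Real.log_rpow hX0]
    exact Real.log_le_log hp0 h3

private lemma swl_step (N : ℝ → ℝ) (l : List (ℝ × ℝ)) (u v : ℝ) (hu : 0 < u) (huv : u ≤ v)
    (hN : ∀ s, ∀ g : ℕ → ℝ, Mert g → Tendsto (fun X : ℝ => SW g X l s) atTop (nhds (N s))) (s : ℝ) :
    ∃ L : ℝ, ∀ g : ℕ → ℝ, Mert g → Tendsto (fun X : ℝ => SW g X ((u, v) :: l) s) atTop (nhds L) := by
  set c := Real.log (v / u) with hc
  have hc0 : 0 ≤ c := Real.log_nonneg (by rw [le_div_iff₀ hu]; linarith)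
  obtain ⟨t, ht⟩ : ∃ t : ℕ → ℕ → ℝ, ∀ n i, t n i = u * Real.exp (c * i / n) := ⟨_, fun _ _ => rfl⟩
  have hpos : ∀ n i, 0 < t n i := fun n i => by rw [ht]; positivity
  have htm : ∀ n, Monotone (t n) := by
    intro n i j hij
    rw [ht, ht]
    have : (i : ℝ) ≤ j := by exact_mod_cast hij
    gcongr
  have ht0 : ∀ n, t n 0 = u := by
    intro n
    rw [ht]
    simp
  have htn : ∀ n, 0 < n → t n n = v := by
    intro n hn
    have hn' : (n : ℝ) ≠ 0 := by positivity
    rw [ht, mul_div_cancel_right₀ _ hn', hc, Real.exp_log (div_pos (hu.trans_le huv) hu)]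
    field_simp
  have hlog : ∀ n i, 0 < n → Real.log (t n (i + 1) / t n i) = c / n := by
    intro n i hn
    have hn' : (n : ℝ) ≠ 0 := by positivity
    rw [ht, ht, mul_div_mul_left _ _ hu.ne', ← Real.exp_sub, Real.log_exp]
    push_cast
    field_simp
    ring
  obtain ⟨a, ha⟩ : ∃ a : ℕ → ℝ, ∀ n, a n = ∑ i ∈ range n, c / n * N (s - t n (i + 1)) := ⟨_, fun _ => rfl⟩
  obtain ⟨b, hb⟩ : ∃ b : ℕ → ℝ, ∀ n, b n = ∑ i ∈ range n, c / n * N (s - t n i) := ⟨_, fun _ => rfl⟩
  have hmass : ∀ g : ℕ → ℝ, Mert g → ∀ n, 0 < n → ∀ i, Tendsto (fun X : ℝ => ∑ p ∈ PW X (t n i) (t n (i + 1)), g p / p)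
      atTop (nhds (c / n)) := by
    intro g hg n hn i
    rw [← hlog n i hn]
    exact hg.lim _ _ (hpos n i) (htm n (Nat.le_succ i))
  have hexp : ∀ g : ℕ → ℝ, ∀ n, 0 < n → ∀ X : ℝ, 1 < X → SW g X ((u, v) :: l) s =
      ∑ i ∈ range n, ∑ p ∈ PW X (t n i) (t n (i + 1)), g p / p * SW g X l (s - Real.log p / Real.log X) := by
    intro g n hn X hX
    rw [← swl_grid hX.le (t n) (htm n), ht0, htn n hn]
    rfl
  have hlow : ∀ g : ℕ → ℝ, Mert g → ∀ n, 0 < n → ∀ X : ℝ, 1 < X →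
      ∑ i ∈ range n, (∑ p ∈ PW X (t n i) (t n (i + 1)), g p / p) * SW g X l (s - t n (i + 1)) ≤ SW g X ((u, v) :: l) s := by
    intro g hg n hn X hX
    rw [hexp g n hn X hX]
    refine sum_le_sum fun i _ => ?_
    rw [sum_mul]
    refine sum_le_sum fun p hp => ?_
    refine mul_le_mul_of_nonneg_left ?_ (div_nonneg (hg.nn p) (Nat.cast_nonneg p))
    exact sw_mono g hg.nn X l _ _ (by linarith [(swl_log hX hp).2])
  have hup : ∀ g : ℕ → ℝ, Mert g → ∀ n, 0 < n → ∀ X : ℝ, 1 < X → SW g X ((u, v) :: l) s ≤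
      ∑ i ∈ range n, (∑ p ∈ PW X (t n i) (t n (i + 1)), g p / p) * SW g X l (s - t n i) := by
    intro g hg n hn X hX
    rw [hexp g n hn X hX]
    refine sum_le_sum fun i _ => ?_
    rw [sum_mul]
    refine sum_le_sum fun p hp => ?_
    refine mul_le_mul_of_nonneg_left ?_ (div_nonneg (hg.nn p) (Nat.cast_nonneg p))
    exact sw_mono g hg.nn X l _ _ (by linarith [(swl_log hX hp).1])
  have hlowl : ∀ g : ℕ → ℝ, Mert g → ∀ n, 0 < n → Tendsto (fun X : ℝ =>
      ∑ i ∈ range n, (∑ p ∈ PW X (t n i) (t n (i + 1)), g p / p) * SW g X l (s - t n (i + 1))) atTop (nhds (a n)) := by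
    intro g hg n hn
    rw [ha]
    exact tendsto_finsetSum _ fun i _ => (hmass g hg n hn i).mul (hN _ g hg)
  have hupl : ∀ g : ℕ → ℝ, Mert g → ∀ n, 0 < n → Tendsto (fun X : ℝ =>
      ∑ i ∈ range n, (∑ p ∈ PW X (t n i) (t n (i + 1)), g p / p) * SW g X l (s - t n i)) atTop (nhds (b n)) := by
    intro g hg n hn
    rw [hb]
    exact tendsto_finsetSum _ fun i _ => (hmass g hg n hn i).mul (hN _ g hg)
  have hab : ∀ m n, 0 < m → 0 < n → a m ≤ b n := by
    intro m n hm hn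
    refine le_of_tendsto_of_tendsto (hlowl _ mert_all m hm) (hupl _ mert_all n hn) ?_
    filter_upwards [eventually_gt_atTop (1 : ℝ)] with X hX
    exact (hlow _ mert_all m hm X hX).trans (hup _ mert_all n hn X hX)
  have hdiff : ∀ n, 0 < n → b n - a n = c * (N (s - u) - N (s - v)) / n := by
    intro n hn
    rw [ha, hb, ← sum_sub_distrib]
    have : ∀ i, c / n * N (s - t n i) - c / n * N (s - t n (i + 1)) =
        c / n * (N (s - t n i) - N (s - t n (i + 1))) := fun i => by ring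
    simp only [this]
    rw [← mul_sum, sum_range_sub' (fun i => N (s - t n i)), ht0, htn n hn]
    ring
  have hbdd : BddAbove (Set.range fun n : ℕ => a (n + 1)) := by
    refine ⟨b 1, ?_⟩
    rintro _ ⟨n, rfl⟩
    exact hab _ _ (Nat.succ_pos n) one_pos
  refine ⟨⨆ n : ℕ, a (n + 1), fun g hg => ?_⟩
  have hL1 : ∀ n : ℕ, a (n + 1) ≤ ⨆ n : ℕ, a (n + 1) := fun n => le_ciSup hbdd n
  have hL2 : ∀ n : ℕ, (⨆ n : ℕ, a (n + 1)) ≤ b (n + 1) := fun n =>
    ciSup_le fun m => hab _ _ (Nat.succ_pos m) (Nat.succ_pos n)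
  rw [tendsto_order]
  have hd0 : Tendsto (fun n : ℕ => b (n + 1) - a (n + 1)) atTop (nhds 0) := by
    have h1 : Tendsto (fun n : ℕ => c * (N (s - u) - N (s - v)) / (n : ℝ)) atTop (nhds 0) :=
      tendsto_const_div_atTop_nhds_zero_nat _
    have h2 := h1.comp (tendsto_add_atTop_nat 1)
    refine h2.congr fun n => ?_
    rw [hdiff (n + 1) (Nat.succ_pos n)]
    rfl
  constructor
  · intro x hx
    obtain ⟨n, hn⟩ := (hd0.eventually (gt_mem_nhds (sub_pos.2 hx))).exists
    have h1 : x < a (n + 1) := by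
      have := hL2 n
      linarith
    filter_upwards [(hlowl g hg (n + 1) (Nat.succ_pos n)).eventually (lt_mem_nhds h1), eventually_gt_atTop (1 : ℝ)]
      with X h2 hX
    exact h2.trans_le (hlow g hg (n + 1) (Nat.succ_pos n) X hX)
  · intro x hx
    obtain ⟨n, hn⟩ := (hd0.eventually (gt_mem_nhds (sub_pos.2 hx))).exists
    have h1 : b (n + 1) < x := by
      have := hL1 n
      linarith
    filter_upwards [(hupl g hg (n + 1) (Nat.succ_pos n)).eventually (gt_mem_nhds h1), eventually_gt_atTop (1 : ℝ)]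
      with X h2 hX
    exact (hup g hg (n + 1) (Nat.succ_pos n) X hX).trans_lt h2

/-- PROOF. Induction on `l`, for all `s`: there is `N_l : ℝ → ℝ` with `SW g X l s → N_l s` for all `g` with `Mert g` (choose); `N_l` is monotone (`sw_mono`, limits; use `mert_all`). `l = []`: constant. `l = w :: l'`, `w = (u, v)`: if `u = v` the window is empty, `N = 0`.
If `u < v`: grid `t_i = u (v/u)^(i/n)`, `i ≤ n`; for `p ∈ PW X t_i t_(i+1)`, `t_i < log p / log X ≤ t_(i+1)`, so by monotonicity `∑_i m_i(X) SW g X l' (s - t_(i+1)) ≤ SW g X l s ≤ ∑_i m_i(X) SW g X l' (s - t_i)` with `m_i(X) = ∑_(p ∈ PW X t_i t_(i+1)) g p / p → log (v/u) / n`.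
The two bounds tend to `a_n = (log (v/u) / n) ∑_i N_l' (s - t_(i+1))` and `b_n = (log (v/u) / n) ∑_i N_l' (s - t_i)`, which do not depend on `g`, and `b_n - a_n = (log (v/u) / n) (N_l' (s - u) - N_l' (s - v)) → 0`.
So `a_m ≤ b_n` for all `m, n` (compare for one `g`, `mert_all`), `L = sup_m a_m` satisfies `a_n ≤ L ≤ b_n`, and for every `g` and `ε`, eventually `a_n - ε ≤ SW g X l s ≤ b_n + ε`, hence `SW g X l s → L`. -/
theorem sw_lim (l : List (ℝ × ℝ)) (hl : Win l) (s : ℝ) :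
    ∃ L : ℝ, ∀ g : ℕ → ℝ, Mert g → Tendsto (fun X : ℝ => SW g X l s) atTop (nhds L) := by
  induction l generalizing s with
  | nil => exact ⟨if 0 ≤ s then 1 else 0, fun g _ => tendsto_const_nhds⟩
  | cons w l ih =>
    have hl' : Win l := fun x hx => hl x (List.mem_cons_of_mem _ hx)
    have hw := hl w List.mem_cons_self
    choose N hN using fun s => ih hl' s
    exact swl_step N l w.1 w.2 hw.1 hw.2 hN s

/-- PROOF. `SW g X l 1 → NW l` by `sw_lim` (`NW l` is the limit for `g = 1`, `mert_all`, `Tendsto.limUnder_eq`; the limit is the same for all `g`). `log (a X) / log X = 1 + log a / log X → 1`. For `l = []` both sides are `1` for `X` large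
(`log (a X) / log X ≥ 0`). For `l ≠ []`: given `ε`, take `η` of `sw_equi`; for `X` large `|log (a X) / log X - 1| ≤ η / 2`, so by `sw_mono` both `SW g X l (log (a X) / log X)` and `SW g X l 1` lie in the interval `[SW (1 - η/2), SW (1 + η/2)]` of length at most `ε`. -/
theorem sw_at (g : ℕ → ℝ) (hg : Mert g) (l : List (ℝ × ℝ)) (hl : Win l) (a : ℝ) (ha : 0 < a) :
    Tendsto (fun X : ℝ => SW g X l (Real.log (a * X) / Real.log X)) atTop (nhds (NW l)) := by
  obtain ⟨L, hL⟩ := sw_lim l hl 1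
  have hNW : NW l = L := (hL _ mert_all).limUnder_eq
  rw [hNW]
  have hs : Tendsto (fun X : ℝ => Real.log (a * X) / Real.log X) atTop (nhds 1) := by
    have h1 : Tendsto (fun X : ℝ => Real.log a / Real.log X + 1) atTop (nhds (0 + 1)) :=
      (Real.tendsto_log_atTop.const_div_atTop _).add_const 1
    rw [zero_add] at h1
    refine h1.congr' ?_
    filter_upwards [eventually_gt_atTop (1 : ℝ)] with X hX
    have hl0 : Real.log X ≠ 0 := (Real.log_pos hX).ne'
    rw [Real.log_mul ha.ne' (by linarith), add_div, div_self hl0]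
  by_cases hne : l = []
  · subst hne
    have hL1 : L = 1 := by
      have h1 := hL _ hg
      simp only [SW, zero_le_one, if_true] at h1
      exact tendsto_nhds_unique h1 tendsto_const_nhds |>.symm ▸ rfl
    rw [hL1]
    refine (tendsto_const_nhds (x := (1 : ℝ))).congr' ?_
    filter_upwards [hs.eventually (lt_mem_nhds (zero_lt_one))] with X hX
    simp only [SW]
    rw [if_pos hX.le]
  · have hdiff : Tendsto (fun X : ℝ => SW g X l (Real.log (a * X) / Real.log X) - SW g X l 1) atTop (nhds 0) := by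
      rw [Metric.tendsto_nhds]
      intro ε hε
      obtain ⟨η, hη, hev⟩ := sw_equi g hg l hl hne (ε / 2) (half_pos hε)
      have h1 : ∀ᶠ X : ℝ in atTop, |Real.log (a * X) / Real.log X - 1| < η / 2 := by
        have := (Metric.tendsto_nhds.1 hs) (η / 2) (half_pos hη)
        simpa [Real.dist_eq] using this
      filter_upwards [hev, h1] with X hX h2
      rw [abs_lt] at h2
      rw [Real.dist_eq, sub_zero]
      have h3 := hX (1 - η / 2)
      have e1 := sw_mono g hg.nn X l (1 - η / 2) (Real.log (a * X) / Real.log X) (by linarith [h2.1])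
      have e2 := sw_mono g hg.nn X l (Real.log (a * X) / Real.log X) (1 - η / 2 + η) (by linarith [h2.2])
      have e3 := sw_mono g hg.nn X l (1 - η / 2) 1 (by linarith)
      have e4 := sw_mono g hg.nn X l 1 (1 - η / 2 + η) (by linarith)
      rw [abs_lt]
      constructor <;> linarith
    have := hdiff.add (hL g hg)
    simp only [sub_add_cancel, zero_add] at this
    exact this

end Pool.Agent.LPr

end

/-! ### from `Lib_MP_f1a94e_lp.AbsM` -/

section

/-!
# Piece ABSM: abstract mean values over tuples of primes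
-/

set_option autoImplicit false

namespace Pool.Agent.LPr

open Finset Filter

/-- iterated sums over primes -/
noncomputable def MX (u0 : ℝ → ℂ) (G : ℕ → ℂ) (X : ℝ) : List (ℝ × ℝ) → ℝ → ℂ
  | [], Y => u0 Y
  | w :: l, Y => ∑ p ∈ PW X w.1 w.2, G p * MX u0 G X l (Y / p)

private theorem pw_one {X u v : ℝ} {p : ℕ} (hp : p ∈ PW X u v) : (1 : ℝ) ≤ p := by
  classical
  unfold PW at hp
  rw [mem_filter, mem_Icc] at hp
  exact_mod_cast hp.1.1

private theorem pw_prime {X u v : ℝ} {p : ℕ} (hp : p ∈ PW X u v) : p.Prime ∧ X ^ u < (p : ℝ) := by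
  classical
  unfold PW at hp
  rw [mem_filter, mem_Icc] at hp
  exact hp.2

/-- PROOF. Induction on `l` with `δ` the minimum of the exponents (use `X ≥ 1`) and `C'_(w :: l) = C'_w + C'_l (log (w.2 / w.1) + 1)`:
`U X (w :: l) Y - MX (w :: l) Y = (U X (w :: l) Y - ∑_p G p U X l (Y / p)) + ∑_p G p (U X l (Y / p) - MX l (Y / p))`, `‖G p‖ ≤ g p`, `0 ≤ Y / p ≤ X ^ 2`, `∑_(p ∈ PW) g p / p ≤ log (w.2 / w.1) + 1` for large `X` (`Mert.lim`). -/
theorem u_sub_mx (u0 : ℝ → ℂ) (G : ℕ → ℂ) (g : ℕ → ℝ) (hg : Mert g) (hG : ∀ p, ‖G p‖ ≤ g p)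
    (U : ℝ → List (ℝ × ℝ) → ℝ → ℂ) (hU0 : ∀ X Y, U X [] Y = u0 Y)
    (hrec : ∀ w l, Win (w :: l) → ∃ C' δ : ℝ, 0 < δ ∧ ∀ᶠ X : ℝ in atTop, ∀ Y : ℝ, 0 ≤ Y → Y ≤ X ^ 2 →
      ‖U X (w :: l) Y - ∑ p ∈ PW X w.1 w.2, G p * U X l (Y / p)‖ ≤ C' * Y * X ^ (-δ))
    (l : List (ℝ × ℝ)) (hl : Win l) :
    ∃ C' δ : ℝ, 0 < δ ∧ ∀ᶠ X : ℝ in atTop, ∀ Y : ℝ, 0 ≤ Y → Y ≤ X ^ 2 →
      ‖U X l Y - MX u0 G X l Y‖ ≤ C' * Y * X ^ (-δ) := by
  induction l with
  | nil =>
    refine ⟨0, 1, one_pos, Eventually.of_forall fun X Y _ _ => ?_⟩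
    rw [hU0]
    simp [MX]
  | cons w l ih =>
    have hl' : Win l := fun x hx => hl x (List.mem_cons_of_mem _ hx)
    obtain ⟨C1, δ1, hδ1, h1⟩ := ih hl'
    obtain ⟨C2, δ2, hδ2, h2⟩ := hrec w l hl
    have hw := hl w List.mem_cons_self
    have h3 := (hg.lim w.1 w.2 hw.1 hw.2).eventually_le_const (lt_add_one (Real.log (w.2 / w.1)))
    refine ⟨|C2| + |C1| * (Real.log (w.2 / w.1) + 1), min δ1 δ2, lt_min hδ1 hδ2, ?_⟩
    filter_upwards [h1, h2, h3, eventually_ge_atTop 1] with X h1 h2 h3 hX Y hY0 hY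
    have hX0 : (0 : ℝ) ≤ X := zero_le_one.trans hX
    have hr1 : X ^ (-δ1) ≤ X ^ (-(min δ1 δ2)) :=
      Real.rpow_le_rpow_of_exponent_le hX (neg_le_neg (min_le_left _ _))
    have hr2 : X ^ (-δ2) ≤ X ^ (-(min δ1 δ2)) :=
      Real.rpow_le_rpow_of_exponent_le hX (neg_le_neg (min_le_right _ _))
    have hr0 : 0 ≤ X ^ (-(min δ1 δ2)) := Real.rpow_nonneg hX0 _
    have hr01 : 0 ≤ X ^ (-δ1) := Real.rpow_nonneg hX0 _
    have hr02 : 0 ≤ X ^ (-δ2) := Real.rpow_nonneg hX0 _
    have e1 : U X (w :: l) Y - MX u0 G X (w :: l) Y =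
        (U X (w :: l) Y - ∑ p ∈ PW X w.1 w.2, G p * U X l (Y / p)) +
          ∑ p ∈ PW X w.1 w.2, G p * (U X l (Y / p) - MX u0 G X l (Y / p)) := by
      simp only [MX, mul_sub, sum_sub_distrib]
      ring
    have e2 : ‖∑ p ∈ PW X w.1 w.2, G p * (U X l (Y / p) - MX u0 G X l (Y / p))‖ ≤
        ∑ p ∈ PW X w.1 w.2, g p / p * (|C1| * Y * X ^ (-(min δ1 δ2))) := by
      refine (norm_sum_le _ _).trans (sum_le_sum fun p hp => ?_)
      rw [norm_mul]
      have hp1 : (1 : ℝ) ≤ p := pw_one hp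
      have hp0 : (0 : ℝ) < p := one_pos.trans_le hp1
      have hYp0 : 0 ≤ Y / p := div_nonneg hY0 hp0.le
      have hYp : Y / p ≤ X ^ 2 := (div_le_self hY0 hp1).trans hY
      calc ‖G p‖ * ‖U X l (Y / p) - MX u0 G X l (Y / p)‖ ≤ g p * (C1 * (Y / p) * X ^ (-δ1)) :=
            mul_le_mul (hG p) (h1 _ hYp0 hYp) (norm_nonneg _) (hg.nn p)
        _ ≤ g p * (|C1| * (Y / p) * X ^ (-(min δ1 δ2))) := by
            refine mul_le_mul_of_nonneg_left ?_ (hg.nn p)
            exact mul_le_mul (mul_le_mul_of_nonneg_right (le_abs_self C1) hYp0) hr1 hr01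
              (mul_nonneg (abs_nonneg _) hYp0)
        _ = g p / p * (|C1| * Y * X ^ (-(min δ1 δ2))) := by ring
    have e3 : ∑ p ∈ PW X w.1 w.2, g p / p * (|C1| * Y * X ^ (-(min δ1 δ2))) ≤
        (Real.log (w.2 / w.1) + 1) * (|C1| * Y * X ^ (-(min δ1 δ2))) := by
      rw [← sum_mul]
      exact mul_le_mul_of_nonneg_right h3 (mul_nonneg (mul_nonneg (abs_nonneg _) hY0) hr0)
    have e4 : ‖U X (w :: l) Y - ∑ p ∈ PW X w.1 w.2, G p * U X l (Y / p)‖ ≤ |C2| * Y * X ^ (-(min δ1 δ2)) := by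
      refine (h2 Y hY0 hY).trans ?_
      exact mul_le_mul (mul_le_mul_of_nonneg_right (le_abs_self C2) hY0) hr2 hr02
        (mul_nonneg (abs_nonneg _) hY0)
    rw [e1]
    refine (norm_add_le _ _).trans ((add_le_add e4 (e2.trans e3)).trans (le_of_eq ?_))
    ring

/-- the error term -/
private noncomputable def Er (g : ℕ → ℝ) (ε C2 κ X : ℝ) (l : List (ℝ × ℝ)) (Y : ℝ) : ℝ :=
  ε * Y * SW g X l (Real.log Y / Real.log X) +
    C2 * Y * (SW g X l (Real.log Y / Real.log X) - SW g X l (Real.log Y / Real.log X - κ))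

private theorem er_cons (g : ℕ → ℝ) (ε C2 κ X : ℝ) (w : ℝ × ℝ) (l : List (ℝ × ℝ)) (Y : ℝ) (hY : 0 < Y) :
    Er g ε C2 κ X (w :: l) Y = ∑ p ∈ PW X w.1 w.2, g p * Er g ε C2 κ X l (Y / p) := by
  unfold Er
  simp only [SW]
  rw [mul_sum, ← sum_sub_distrib, mul_sum, ← sum_add_distrib]
  refine sum_congr rfl fun p hp => ?_
  have hp1 : (1 : ℝ) ≤ p := pw_one hp
  have hp0 : (0 : ℝ) < p := one_pos.trans_le hp1
  have hl : Real.log (Y / p) / Real.log X = Real.log Y / Real.log X - Real.log p / Real.log X := by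
    rw [Real.log_div hY.ne' hp0.ne', sub_div]
  rw [hl]
  have h2 : Real.log Y / Real.log X - κ - Real.log p / Real.log X =
      Real.log Y / Real.log X - Real.log p / Real.log X - κ := by ring
  rw [h2]
  ring

private theorem mx_step (u0 : ℝ → ℂ) (ρ : ℂ) (G : ℕ → ℂ) (g : ℕ → ℝ) (hg : Mert g) (hG : ∀ p, ‖G p‖ ≤ g p)
    (hr : ρ = 0 ∨ ∃ P : ℕ, ∀ p : ℕ, P ≤ p → p.Prime → G p = g p) (ε C2 : ℝ) (κ : ℝ → ℝ)
    (h0 : ∀ᶠ X : ℝ in atTop, ∀ Y : ℝ, 0 < Y →
      ‖u0 Y - ρ * Y * SW g X [] (Real.log Y / Real.log X)‖ ≤ Er g ε C2 (κ X) X [] Y)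
    (l : List (ℝ × ℝ)) (hl : Win l) :
    ∀ᶠ X : ℝ in atTop, ∀ Y : ℝ, 0 < Y →
      ‖MX u0 G X l Y - ρ * Y * SW g X l (Real.log Y / Real.log X)‖ ≤ Er g ε C2 (κ X) X l Y := by
  induction l with
  | nil => exact h0
  | cons w l ih =>
    have hl' : Win l := fun x hx => hl x (List.mem_cons_of_mem _ hx)
    have hw := hl w List.mem_cons_self
    have hP : ∀ᶠ X : ℝ in atTop, ρ = 0 ∨ ∀ p ∈ PW X w.1 w.2, G p = g p := by
      rcases hr with hr | ⟨P, hP⟩
      · exact Eventually.of_forall fun _ => Or.inl hr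
      · filter_upwards [(tendsto_rpow_atTop hw.1).eventually_ge_atTop (P : ℝ)] with X hX
        refine Or.inr fun p hp => ?_
        obtain ⟨h1, h2⟩ := pw_prime hp
        exact hP p (by exact_mod_cast (hX.trans h2.le)) h1
    filter_upwards [ih hl', hP] with X h1 hP Y hY
    rw [er_cons g ε C2 (κ X) X w l Y hY]
    have e1 : MX u0 G X (w :: l) Y - ρ * Y * SW g X (w :: l) (Real.log Y / Real.log X) =
        ∑ p ∈ PW X w.1 w.2, (G p * MX u0 G X l (Y / p) -
          ρ * (g p * ((Y / p : ℝ) : ℂ) * SW g X l (Real.log (Y / p) / Real.log X))) := by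
      simp only [MX, SW]
      rw [sum_sub_distrib, ← mul_sum]
      congr 1
      rw [mul_assoc]
      congr 1
      push_cast
      rw [mul_sum]
      refine sum_congr rfl fun p hp => ?_
      have hp1 : (1 : ℝ) ≤ p := pw_one hp
      have hp0 : (0 : ℝ) < p := one_pos.trans_le hp1
      have hl : Real.log (Y / p) / Real.log X = Real.log Y / Real.log X - Real.log p / Real.log X := by
        rw [Real.log_div hY.ne' hp0.ne', sub_div]
      rw [hl]
      ring
    rw [e1]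
    refine (norm_sum_le _ _).trans (sum_le_sum fun p hp => ?_)
    have hp1 : (1 : ℝ) ≤ p := pw_one hp
    have hp0 : (0 : ℝ) < p := one_pos.trans_le hp1
    have hYp : 0 < Y / p := div_pos hY hp0
    have h2 := h1 (Y / p) hYp
    rcases hP with hρ | hP
    · rw [hρ] at h2 ⊢
      rw [zero_mul, sub_zero, norm_mul]
      rw [zero_mul, zero_mul, sub_zero] at h2
      exact mul_le_mul (hG p) h2 (norm_nonneg _) (hg.nn p)
    · rw [hP p hp]
      have e2 : (g p : ℂ) * MX u0 G X l (Y / p) -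
          ρ * (g p * ((Y / p : ℝ) : ℂ) * SW g X l (Real.log (Y / p) / Real.log X)) =
          (g p : ℂ) * (MX u0 G X l (Y / p) -
            ρ * ((Y / p : ℝ) : ℂ) * SW g X l (Real.log (Y / p) / Real.log X)) := by
        ring
      rw [e2, norm_mul, Complex.norm_real, Real.norm_of_nonneg (hg.nn p)]
      exact mul_le_mul_of_nonneg_left h2 (hg.nn p)

private theorem mx_base (u0 : ℝ → ℂ) (ρ : ℂ) (C : ℝ) (h0 : ∀ Y : ℝ, Y < 1 → u0 Y = 0)
    (hb : ∀ Y : ℝ, 0 ≤ Y → ‖u0 Y‖ ≤ C * Y) (g : ℕ → ℝ) (ε K : ℝ) (hε : 0 ≤ ε) (hK : 1 ≤ K)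
    (hlK : ∀ Y : ℝ, K ≤ Y → ‖u0 Y - ρ * Y‖ ≤ ε * Y) :
    ∀ᶠ X : ℝ in atTop, ∀ Y : ℝ, 0 < Y →
      ‖u0 Y - ρ * Y * SW g X [] (Real.log Y / Real.log X)‖ ≤
        Er g ε (C + ‖ρ‖) (Real.log K / Real.log X) X [] Y := by
  filter_upwards [eventually_gt_atTop 1] with X hX Y hY
  have hlX : 0 < Real.log X := Real.log_pos hX
  unfold Er
  simp only [SW]
  rcases lt_or_ge Y 1 with h1 | h1
  · have hlY : Real.log Y < 0 := Real.log_neg hY h1
    have n1 : ¬ 0 ≤ Real.log Y / Real.log X := not_le.2 (div_neg_of_neg_of_pos hlY hlX)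
    have hk : 0 ≤ Real.log K / Real.log X := div_nonneg (Real.log_nonneg hK) hlX.le
    have n2 : ¬ 0 ≤ Real.log Y / Real.log X - Real.log K / Real.log X := by
      intro h
      exact n1 (by linarith)
    rw [if_neg n1, if_neg n2, h0 Y h1]
    simp
  · have y1 : 0 ≤ Real.log Y / Real.log X := div_nonneg (Real.log_nonneg h1) hlX.le
    rw [if_pos y1]
    rcases lt_or_ge Y K with h2 | h2
    · have n2 : ¬ 0 ≤ Real.log Y / Real.log X - Real.log K / Real.log X := by
        rw [← sub_div]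
        exact not_le.2 (div_neg_of_neg_of_pos (sub_neg.2 (Real.log_lt_log hY h2)) hlX)
      rw [if_neg n2]
      have h3 := hb Y hY.le
      calc ‖u0 Y - ρ * Y * ((1 : ℝ) : ℂ)‖ ≤ ‖u0 Y‖ + ‖ρ * Y * ((1 : ℝ) : ℂ)‖ := norm_sub_le _ _
        _ ≤ C * Y + ‖ρ‖ * Y := by
            refine add_le_add h3 (le_of_eq ?_)
            rw [Complex.ofReal_one, mul_one, norm_mul, Complex.norm_real, Real.norm_of_nonneg hY.le]
        _ ≤ ε * Y * 1 + (C + ‖ρ‖) * Y * (1 - 0) := by nlinarith [mul_nonneg hε hY.le]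
    · have y2 : 0 ≤ Real.log Y / Real.log X - Real.log K / Real.log X := by
        rw [← sub_div]
        exact div_nonneg (sub_nonneg.2 (Real.log_le_log (one_pos.trans_le hK) h2)) hlX.le
      rw [if_pos y2, Complex.ofReal_one, mul_one, mul_one, sub_self, mul_zero, add_zero]
      exact hlK Y h2

/-- PROOF. Case 1, `G p = g p` for the primes `p ≥ P`. Write `s Y = log Y / log X` (`X > 1`, `Y > 0`), `1[Y ≥ 1] = 1[s Y ≥ 0] = SW g X [] (s Y)`, `s (Y / p) = s Y - log p / log X`. From the hypotheses on `u0`: for every `ε` there is `K ≥ 1` with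
`‖u0 Y - ρ Y SW g X [] (s Y)‖ ≤ ε Y SW [] (s Y) + C2 Y (SW [] (s Y) - SW [] (s Y - log K / log X))`, `C2 = C + ‖ρ‖` (for `Y < 1` both sides vanish; for `1 ≤ Y < K` the last bracket is `1`; for `Y ≥ K` use the limit). By induction on `l` (for `X` so large that
`X ^ w.1 ≥ P` for the windows of `l`, so `G p = g p`), for all `Y > 0`: `‖MX l Y - ρ Y SW g X l (s Y)‖ ≤ ε Y SW g X l (s Y) + C2 Y (SW g X l (s Y) - SW g X l (s Y - log K / log X))`. At `Y = a X`: the first term is `≤ ε a X (B + 1)` (`sw_bd`), the second is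
`≤ C2 a X ε` for large `X` if `l ≠ []` (`sw_equi`, `log K / log X → 0`), and for `l = []` it vanishes for large `X` (`s Y - log K / log X ≥ 0`). With `sw_at`: `MX l (a X) / X → ρ a NW l`.
Case 2, `ρ = 0`: the same with `‖MX l Y‖ ≤ ε Y SW g X l (s Y) + C Y (SW g X l (s Y) - SW g X l (s Y - log K / log X))` (only `‖G p‖ ≤ g p` is used). -/
theorem mx_lim (u0 : ℝ → ℂ) (ρ : ℂ) (C : ℝ) (h0 : ∀ Y : ℝ, Y < 1 → u0 Y = 0) (hb : ∀ Y : ℝ, 0 ≤ Y → ‖u0 Y‖ ≤ C * Y)
    (hl0 : Tendsto (fun Y : ℝ => u0 Y / Y) atTop (nhds ρ)) (G : ℕ → ℂ) (g : ℕ → ℝ) (hg : Mert g) (hG : ∀ p, ‖G p‖ ≤ g p)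
    (hr : ρ = 0 ∨ ∃ P : ℕ, ∀ p : ℕ, P ≤ p → p.Prime → G p = g p) (l : List (ℝ × ℝ)) (hl : Win l) (a : ℝ) (ha : 0 < a) :
    Tendsto (fun X : ℝ => MX u0 G X l (a * X) / X) atTop (nhds (ρ * a * NW l)) := by
  have hT : Tendsto (fun X : ℝ => ρ * a * (SW g X l (Real.log (a * X) / Real.log X) : ℂ)) atTop
      (nhds (ρ * a * NW l)) :=
    ((Complex.continuous_ofReal.tendsto _).comp (sw_at g hg l hl a ha)).const_mul _
  have hF : Tendsto (fun X : ℝ => MX u0 G X l (a * X) / X -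
      ρ * a * (SW g X l (Real.log (a * X) / Real.log X) : ℂ)) atTop (nhds 0) := by
    rw [Metric.tendsto_nhds]
    intro η hη
    obtain ⟨B, hB0, hB⟩ := sw_bd g hg l hl
    have hC0 : 0 ≤ C := by
      have := (norm_nonneg _).trans (hb 1 zero_le_one)
      linarith
    have hC2 : 0 ≤ C + ‖ρ‖ := add_nonneg hC0 (norm_nonneg _)
    set C2 : ℝ := C + ‖ρ‖ with hC2d
    have hB1 : 0 < B + 1 := by linarith
    have hε : 0 < η / (4 * a * (B + 1)) := by positivity
    set ε : ℝ := η / (4 * a * (B + 1)) with hεd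
    have hε2 : 0 < η / (4 * (C2 * a + 1)) := by positivity
    set ε2 : ℝ := η / (4 * (C2 * a + 1)) with hε2d
    obtain ⟨K0, hK0⟩ := eventually_atTop.1 (Metric.tendsto_nhds.1 hl0 ε hε)
    set K : ℝ := max K0 1 with hKd
    have hK1 : 1 ≤ K := le_max_right _ _
    have hlK : ∀ Y : ℝ, K ≤ Y → ‖u0 Y - ρ * Y‖ ≤ ε * Y := by
      intro Y hY
      have hY0 : 0 < Y := one_pos.trans_le (hK1.trans hY)
      have h1 := hK0 Y ((le_max_left _ _).trans hY)
      rw [dist_eq_norm] at h1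
      have hYc : (Y : ℂ) ≠ 0 := by exact_mod_cast hY0.ne'
      have h2 : u0 Y - ρ * Y = (u0 Y / Y - ρ) * Y := by
        field_simp
      rw [h2, norm_mul, Complex.norm_real, Real.norm_of_nonneg hY0.le]
      exact mul_le_mul_of_nonneg_right h1.le hY0.le
    have hst := mx_step u0 ρ G g hg hG hr ε C2 (fun X => Real.log K / Real.log X)
      (mx_base u0 ρ C h0 hb g ε K hε.le hK1 hlK) l hl
    have hsm : ∀ᶠ X : ℝ in atTop, SW g X l (Real.log (a * X) / Real.log X) -
        SW g X l (Real.log (a * X) / Real.log X - Real.log K / Real.log X) ≤ ε2 := by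
      by_cases hne : l = []
      · subst hne
        filter_upwards [eventually_gt_atTop 1, eventually_ge_atTop (K / a)] with X h1 h2
        have hlX : 0 < Real.log X := Real.log_pos h1
        have hKX : K ≤ a * X := by
          rw [div_le_iff₀ ha] at h2
          linarith
        have y2 : 0 ≤ Real.log (a * X) / Real.log X - Real.log K / Real.log X := by
          rw [← sub_div]
          exact div_nonneg (sub_nonneg.2 (Real.log_le_log (one_pos.trans_le hK1) hKX)) hlX.le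
        have y1 : 0 ≤ Real.log (a * X) / Real.log X :=
          div_nonneg (Real.log_nonneg (hK1.trans hKX)) hlX.le
        simp only [SW]
        rw [if_pos y1, if_pos y2, sub_self]
        exact hε2.le
      · obtain ⟨η', hη', h⟩ := sw_equi g hg l hl hne ε2 hε2
        have hκ : Tendsto (fun X : ℝ => Real.log K / Real.log X) atTop (nhds 0) :=
          Tendsto.div_atTop tendsto_const_nhds Real.tendsto_log_atTop
        filter_upwards [h, hκ.eventually_le_const hη'] with X h1 h2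
        have h3 := h1 (Real.log (a * X) / Real.log X - Real.log K / Real.log X)
        have h4 := sw_mono g hg.nn X l (Real.log (a * X) / Real.log X)
          (Real.log (a * X) / Real.log X - Real.log K / Real.log X + η') (by linarith)
        linarith
    filter_upwards [hst, hsm, hB, eventually_gt_atTop 0] with X h1 h2 h3 hX
    have haX : 0 < a * X := mul_pos ha hX
    have e := h1 (a * X) haX
    unfold Er at e
    have hXc : (X : ℂ) ≠ 0 := by exact_mod_cast hX.ne'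
    have e2 : MX u0 G X l (a * X) / X - ρ * a * (SW g X l (Real.log (a * X) / Real.log X) : ℂ) =
        (MX u0 G X l (a * X) - ρ * ((a * X : ℝ) : ℂ) * SW g X l (Real.log (a * X) / Real.log X)) / X := by
      push_cast
      field_simp
    rw [dist_zero_right, e2, norm_div, Complex.norm_real, Real.norm_of_nonneg hX.le, div_lt_iff₀ hX]
    refine e.trans_lt ?_
    have i1 : ε * (a * X) * SW g X l (Real.log (a * X) / Real.log X) ≤ ε * (a * X) * B :=
      mul_le_mul_of_nonneg_left (h3 _) (mul_nonneg hε.le haX.le)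
    have i2 : C2 * (a * X) * (SW g X l (Real.log (a * X) / Real.log X) -
        SW g X l (Real.log (a * X) / Real.log X - Real.log K / Real.log X)) ≤ C2 * (a * X) * ε2 :=
      mul_le_mul_of_nonneg_left h2 (mul_nonneg hC2 haX.le)
    have i3 : ε * a * B ≤ η / 4 := by
      have h5 : ε * a * (B + 1) = η / 4 := by
        rw [hεd]
        field_simp
      nlinarith [mul_pos hε ha]
    have i4 : C2 * a * ε2 ≤ η / 4 := by
      have h5 : (C2 * a + 1) * ε2 = η / 4 := by
        rw [hε2d]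
        have : C2 * a + 1 ≠ 0 := by positivity
        field_simp
      nlinarith
    have i5 : ε * (a * X) * B = ε * a * B * X := by ring
    have i6 : C2 * (a * X) * ε2 = C2 * a * ε2 * X := by ring
    nlinarith [mul_le_mul_of_nonneg_right i3 hX.le, mul_le_mul_of_nonneg_right i4 hX.le, mul_pos hη hX]
  simpa using hF.add hT

/-- `u_sub_mx` and `mx_lim` (for `X` large `0 ≤ a X ≤ X ^ 2`, and `C' (a X) X^(-δ) / X → 0`). -/
theorem abs_mean (u0 : ℝ → ℂ) (ρ : ℂ) (C : ℝ) (h0 : ∀ Y : ℝ, Y < 1 → u0 Y = 0) (hb : ∀ Y : ℝ, 0 ≤ Y → ‖u0 Y‖ ≤ C * Y)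
    (hl0 : Tendsto (fun Y : ℝ => u0 Y / Y) atTop (nhds ρ)) (G : ℕ → ℂ) (g : ℕ → ℝ) (hg : Mert g) (hG : ∀ p, ‖G p‖ ≤ g p)
    (hr : ρ = 0 ∨ ∃ P : ℕ, ∀ p : ℕ, P ≤ p → p.Prime → G p = g p)
    (U : ℝ → List (ℝ × ℝ) → ℝ → ℂ) (hU0 : ∀ X Y, U X [] Y = u0 Y)
    (hrec : ∀ w l, Win (w :: l) → ∃ C' δ : ℝ, 0 < δ ∧ ∀ᶠ X : ℝ in atTop, ∀ Y : ℝ, 0 ≤ Y → Y ≤ X ^ 2 →
      ‖U X (w :: l) Y - ∑ p ∈ PW X w.1 w.2, G p * U X l (Y / p)‖ ≤ C' * Y * X ^ (-δ))
    (l : List (ℝ × ℝ)) (hl : Win l) (a : ℝ) (ha : 0 < a) :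
    Tendsto (fun X : ℝ => U X l (a * X) / X) atTop (nhds (ρ * a * NW l)) := by
  obtain ⟨C', δ, hδ, h1⟩ := u_sub_mx u0 G g hg hG U hU0 hrec l hl
  have h2 := mx_lim u0 ρ C h0 hb hl0 G g hg hG hr l hl a ha
  have h3 : Tendsto (fun X : ℝ => U X l (a * X) / X - MX u0 G X l (a * X) / X) atTop (nhds 0) := by
    refine squeeze_zero_norm' (a := fun X : ℝ => |C'| * a * X ^ (-δ)) ?_ ?_
    · filter_upwards [h1, eventually_ge_atTop 1, eventually_ge_atTop a] with X h1 hX hXa
      have hX0 : 0 < X := one_pos.trans_le hX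
      have haX : a * X ≤ X ^ 2 := by nlinarith
      have haX0 : 0 ≤ a * X := (mul_pos ha hX0).le
      have e := h1 (a * X) haX0 haX
      have hr0 : 0 ≤ X ^ (-δ) := Real.rpow_nonneg hX0.le _
      rw [← sub_div, norm_div, Complex.norm_real, Real.norm_of_nonneg hX0.le, div_le_iff₀ hX0]
      refine e.trans ?_
      have h4 : C' * (a * X) * X ^ (-δ) ≤ |C'| * (a * X) * X ^ (-δ) :=
        mul_le_mul_of_nonneg_right (mul_le_mul_of_nonneg_right (le_abs_self _) haX0) hr0
      refine h4.trans (le_of_eq ?_)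
      ring
    · simpa using (tendsto_rpow_neg_atTop hδ).const_mul (|C'| * a)
  simpa using h3.add h2

end Pool.Agent.LPr

end

/-! ### from `Lib_MP_f1a94e_lp.TwM` -/

section

/-!
# Piece TWM: mean values of `TW` over the integers
-/

set_option autoImplicit false

namespace Pool.Agent.LPr

open Finset Filter

private lemma twm_dvd (F : ℕ → ℂ) (K p : ℕ) (hp : 0 < p) :
    ∑ n ∈ (Icc 1 K).filter (fun n => p ∣ n), F (n / p) = ∑ m ∈ Icc 1 (K / p), F m := by
  refine sum_nbij' (fun n => n / p) (fun m => m * p) ?_ ?_ ?_ ?_ ?_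
  · intro n hn
    rw [mem_filter, mem_Icc] at hn
    obtain ⟨⟨h1, h2⟩, k, rfl⟩ := hn
    rw [mem_Icc, Nat.mul_div_cancel_left _ hp]
    refine ⟨Nat.pos_of_mul_pos_left h1 |> fun h => h, ?_⟩
    rw [Nat.le_div_iff_mul_le hp, mul_comm]
    exact h2
  · intro m hm
    rw [mem_Icc] at hm
    rw [mem_filter, mem_Icc]
    exact ⟨⟨Nat.mul_pos hm.1 hp, (Nat.le_div_iff_mul_le hp).1 hm.2⟩, Dvd.intro_left m rfl⟩
  · intro n hn
    rw [mem_filter] at hn
    exact Nat.div_mul_cancel hn.2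
  · intro m _
    exact Nat.mul_div_cancel m hp
  · intro n _
    rfl

/-- PROOF. `U X l Y = ∑_(1 ≤ n ≤ Y) TW X l n` (as a complex number), `u0 Y = ⌊Y⌋₊`, `ρ = 1`, `C = 1`, `G = g = 1` (`mert_all`): `U X (w :: l) Y = ∑_(p ∈ PW) ∑_(n ≤ Y, p ∣ n) TW X l (n / p) = ∑_(p ∈ PW) U X l (Y / p)` exactly for `Y ≥ 0`
(`n = p m`, `⌊Y / p⌋₊ = ⌊Y⌋₊ / p`, `Nat.floor_div_natCast`), so `hrec` holds with `C' = 0`, `δ = 1`. `abs_mean` with `a = 1`; real parts. -/
theorem tw_mean (l : List (ℝ × ℝ)) (hl : Win l) :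
    Tendsto (fun X : ℝ => (∑ n ∈ Icc 1 ⌊X⌋₊, TW X l n) / X) atTop (nhds (NW l)) := by
  have key := abs_mean (fun Y => ((⌊Y⌋₊ : ℝ) : ℂ)) 1 1 ?_ ?_ ?_ (fun _ => 1) (fun _ => 1) mert_all (fun _ => by simp)
    (Or.inr ⟨0, fun p _ _ => by simp⟩) (fun X l Y => ∑ n ∈ Icc 1 ⌊Y⌋₊, ((TW X l n : ℝ) : ℂ)) ?_ ?_ l hl 1 one_pos
  · have h1 := (Complex.continuous_re.tendsto _).comp key
    simp only [Complex.ofReal_one, one_mul, Complex.ofReal_re] at h1
    refine h1.congr fun X => ?_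
    simp only [Function.comp_apply]
    rw [← Complex.ofReal_sum, ← Complex.ofReal_div, Complex.ofReal_re]
  · intro Y hY
    have : ⌊Y⌋₊ = 0 := Nat.floor_eq_zero.2 hY
    simp [this]
  · intro Y hY
    rw [one_mul, Complex.norm_real, Real.norm_of_nonneg (Nat.cast_nonneg _)]
    exact Nat.floor_le hY
  · have h1 := tendsto_nat_floor_div_atTop (R := ℝ)
    have h2 := (Complex.continuous_ofReal.tendsto _).comp h1
    rw [Complex.ofReal_one] at h2
    refine h2.congr fun X => ?_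
    simp only [Function.comp_apply]
    rw [Complex.ofReal_div]
  · intro X Y
    simp [TW]
  · intro w l hwl
    refine ⟨0, 1, one_pos, ?_⟩
    filter_upwards [eventually_gt_atTop (0 : ℝ)] with X hX Y hY _
    have : ∑ n ∈ Icc 1 ⌊Y⌋₊, ((TW X (w :: l) n : ℝ) : ℂ) -
        ∑ p ∈ PW X w.1 w.2, 1 * ∑ n ∈ Icc 1 ⌊Y / p⌋₊, ((TW X l n : ℝ) : ℂ) = 0 := by
      rw [sub_eq_zero]
      have e1 : ∀ n, ((TW X (w :: l) n : ℝ) : ℂ) =
          ∑ p ∈ PW X w.1 w.2, if p ∣ n then ((TW X l (n / p) : ℝ) : ℂ) else 0 := by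
        intro n
        rw [← sum_filter]
        simp only [TW]
        rw [Complex.ofReal_sum]
      simp only [e1]
      rw [sum_comm]
      refine sum_congr rfl fun p hp => ?_
      rw [mem_PW hX.le] at hp
      rw [one_mul, ← sum_filter, twm_dvd (fun n => ((TW X l n : ℝ) : ℂ)) _ _ hp.1.pos, Nat.floor_div_natCast]
    rw [this]
    simp

/-- `expd` commutes with limits (induction on `j`; the lists that occur have all their windows among the `(u i, v i)`, so they satisfy `Win`). -/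
theorem expd_lim {r : ℕ} (c : Fin r → ℂ) (u v : Fin r → ℝ) (hw : ∀ i, 0 < u i ∧ u i ≤ v i) (j : ℕ)
    (Λ : ℝ → List (ℝ × ℝ) → ℂ) (Λ' : List (ℝ × ℝ) → ℂ)
    (h : ∀ l, Win l → Tendsto (fun X : ℝ => Λ X l) atTop (nhds (Λ' l))) :
    Tendsto (fun X : ℝ => expd c u v j (Λ X)) atTop (nhds (expd c u v j Λ')) := by
  induction j generalizing Λ Λ' with
  | zero => exact h [] (by intro w hw; simp at hw)
  | succ j ih =>
    simp only [expd]
    refine tendsto_finsetSum _ fun i _ => (ih (fun X l => Λ X ((u i, v i) :: l)) (fun l => Λ' ((u i, v i) :: l)) ?_).const_mul (c i)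
    intro l hl
    refine h _ fun w hwl => ?_
    rw [List.mem_cons] at hwl
    rcases hwl with rfl | hwl
    · exact hw i
    · exact hl w hwl

/-- `expd` is linear: it commutes with finite sums -/
theorem expd_sum {r : ℕ} (c : Fin r → ℂ) (u v : Fin r → ℝ) (j : ℕ) {ι : Type*} (s : Finset ι) (a : ι → ℂ)
    (Λ : ι → List (ℝ × ℝ) → ℂ) :
    expd c u v j (fun l => ∑ n ∈ s, a n * Λ n l) = ∑ n ∈ s, a n * expd c u v j (Λ n) := by
  induction j generalizing Λ with
  | zero => rfl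
  | succ j ih =>
    simp only [expd]
    have e1 : ∀ i, expd c u v j (fun l => ∑ n ∈ s, a n * Λ n ((u i, v i) :: l)) =
        ∑ n ∈ s, a n * expd c u v j (fun l => Λ n ((u i, v i) :: l)) := fun i => ih _
    simp only [e1, mul_sum]
    rw [sum_comm]
    refine sum_congr rfl fun n _ => sum_congr rfl fun i _ => ?_
    ring

/-- `expd` is homogeneous -/
theorem expd_smul {r : ℕ} (c : Fin r → ℂ) (u v : Fin r → ℝ) (j : ℕ) (a : ℂ) (Λ : List (ℝ × ℝ) → ℂ) :
    expd c u v j (fun l => a * Λ l) = a * expd c u v j Λ := by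
  induction j generalizing Λ with
  | zero => rfl
  | succ j ih =>
    simp only [expd]
    have e1 : ∀ i, expd c u v j (fun l => a * Λ ((u i, v i) :: l)) =
        a * expd c u v j (fun l => Λ ((u i, v i) :: l)) := fun i => ih _
    simp only [e1, mul_sum]
    refine sum_congr rfl fun i _ => ?_
    ring

/-- `‖expd c u v j Λ‖ ≤ (∑ ‖c i‖)^j B` if `‖Λ l‖ ≤ B` for all lists `l` of length `j` with windows among the `(u i, v i)` (in particular `Win l` and `δ ≤ w.1` for all `w ∈ l` if `δ ≤ u i` for all `i`) -/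
theorem expd_bd {r : ℕ} (c : Fin r → ℂ) (u v : Fin r → ℝ) (j : ℕ) (Λ : List (ℝ × ℝ) → ℂ) (B : ℝ)
    (h : ∀ l : List (ℝ × ℝ), l.length = j → (∀ w ∈ l, ∃ i, w = (u i, v i)) → ‖Λ l‖ ≤ B) :
    ‖expd c u v j Λ‖ ≤ (∑ i, ‖c i‖) ^ j * B := by
  induction j generalizing Λ with
  | zero =>
    simp only [expd, pow_zero, one_mul]
    exact h [] rfl (by simp)
  | succ j ih =>
    simp only [expd]
    have e1 : ∀ i, ‖expd c u v j (fun l => Λ ((u i, v i) :: l))‖ ≤ (∑ i, ‖c i‖) ^ j * B := by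
      intro i
      refine ih _ fun l hl hw => h _ (by simp [hl]) fun w hwl => ?_
      rw [List.mem_cons] at hwl
      rcases hwl with rfl | hwl
      · exact ⟨i, rfl⟩
      · exact hw w hwl
    calc ‖∑ i, c i * expd c u v j (fun l => Λ ((u i, v i) :: l))‖
        ≤ ∑ i, ‖c i * expd c u v j (fun l => Λ ((u i, v i) :: l))‖ := norm_sum_le _ _
      _ ≤ ∑ i, ‖c i‖ * ((∑ i, ‖c i‖) ^ j * B) := by
          refine sum_le_sum fun i _ => ?_
          rw [norm_mul]
          exact mul_le_mul_of_nonneg_left (e1 i) (norm_nonneg _)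
      _ = (∑ i, ‖c i‖) ^ (j + 1) * B := by
          rw [← sum_mul, pow_succ]
          ring

end Pool.Agent.LPr

end

/-! ### from `Lib_MP_f1a94e_lp.IntM` -/

section

/-!
# Piece INTM: mean values over the integers
-/

set_option autoImplicit false

namespace Pool.Agent.LPr

open Finset Filter

private theorem norm_list (φ : ℝ → ℂ) (hφ1 : ∀ t, ‖φ t‖ = 1) (X : ℝ) (L : List ℕ) :
    ‖(L.map (fun p : ℕ => φ (Real.log p / Real.log X))).prod‖ = 1 := by
  induction L with
  | nil => simp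
  | cons a L ih =>
    rw [List.map_cons, List.prod_cons, norm_mul, ih, hφ1, one_mul]

private theorem norm_gx (φ : ℝ → ℂ) (hφ1 : ∀ t, ‖φ t‖ = 1) (X : ℝ) (n : ℕ) : ‖gx φ X n‖ = 1 :=
  norm_list φ hφ1 X _

/-- the integers `n ≤ Y` divisible by the square of a prime larger than `P ≥ 1` are few: at most `Y ∑_(m > P) 1 / m² ≤ 2 Y / P` (`∑_(m > P, m natural) 1/m² ≤ 2 / P`) -/
theorem sq_few (P Y : ℝ) (hP : 1 ≤ P) (hY : 0 ≤ Y) (S : Finset ℕ) (hS : ∀ n ∈ S, 1 ≤ n ∧ (n : ℝ) ≤ Y ∧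
    ∃ p : ℕ, P < (p : ℝ) ∧ p ^ 2 ∣ n) : (S.card : ℝ) ≤ 2 * Y / P := by
  classical
  set k : ℕ := ⌊P⌋₊ with hk
  set M : ℕ := ⌊Y⌋₊ with hM
  have hk1 : 1 ≤ k := Nat.le_floor (by exact_mod_cast hP)
  have hkP : (k : ℝ) ≤ P := Nat.floor_le (zero_le_one.trans hP)
  have hPk : P < k + 1 := Nat.lt_floor_add_one P
  have hsub : S ⊆ (Ioc k M).biUnion (fun m => (Ioc 0 M).filter (fun n => m ^ 2 ∣ n)) := by
    intro n hn
    obtain ⟨h1, h2, p, h3, h4⟩ := hS n hn
    have hnM : n ≤ M := Nat.le_floor h2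
    have hp0 : k < p := by
      have : (k : ℝ) < p := lt_of_le_of_lt hkP h3
      exact_mod_cast this
    have hpn : p ≤ n := by
      have h5 : p ^ 2 ≤ n := Nat.le_of_dvd h1 h4
      nlinarith
    rw [mem_biUnion]
    refine ⟨p, mem_Ioc.2 ⟨hp0, hpn.trans hnM⟩, ?_⟩
    rw [mem_filter, mem_Ioc]
    exact ⟨⟨h1, hnM⟩, h4⟩
  have h1 : S.card ≤ ∑ m ∈ Ioc k M, M / m ^ 2 := by
    refine (card_le_card hsub).trans (card_biUnion_le.trans (le_of_eq ?_))
    refine sum_congr rfl fun m _ => ?_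
    exact Nat.Ioc_filter_dvd_card_eq_div M (m ^ 2)
  have h2 : (S.card : ℝ) ≤ ∑ m ∈ Ioc k M, Y * ((m : ℝ) ^ 2)⁻¹ := by
    have h3 : (S.card : ℝ) ≤ ((∑ m ∈ Ioc k M, M / m ^ 2 : ℕ) : ℝ) := by exact_mod_cast h1
    refine h3.trans ?_
    rw [Nat.cast_sum]
    refine sum_le_sum fun m _ => ?_
    refine Nat.cast_div_le.trans ?_
    rw [Nat.cast_pow, div_eq_mul_inv]
    exact mul_le_mul_of_nonneg_right (Nat.floor_le hY) (by positivity)
  rcases le_or_gt k M with hkM | hkM
  · rw [← mul_sum] at h2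
    have h3 := sum_Ioc_inv_sq_le_sub (α := ℝ) (Nat.one_le_iff_ne_zero.1 hk1) hkM
    have h4 : (0 : ℝ) ≤ (M : ℝ)⁻¹ := by positivity
    have hk0 : (0 : ℝ) < k := by exact_mod_cast hk1
    have h5 : ((k : ℝ))⁻¹ ≤ 2 / P := by
      rw [inv_eq_one_div, div_le_div_iff₀ hk0 (one_pos.trans_le hP)]
      have : (1 : ℝ) ≤ k := by exact_mod_cast hk1
      linarith
    calc (S.card : ℝ) ≤ Y * ∑ m ∈ Ioc k M, ((m : ℝ) ^ 2)⁻¹ := h2
      _ ≤ Y * (2 / P) := mul_le_mul_of_nonneg_left (h3.trans (by linarith)) hY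
      _ = 2 * Y / P := by ring
  · rw [Ioc_eq_empty (by omega), sum_empty] at h2
    exact h2.trans (by positivity)

/-- PROOF. By `gx_id` for `X` large, `∑_(n ≤ X) gx φ X n = ∑_(j ≤ J) (1/j!) expd c u v j (∑_(n ≤ X) TW X · n) + error` (`expd_sum`); the error comes from the `n ≤ X` divisible by `p²`, `p > X ^ δ`: at most `2 X^(1-δ)` numbers (`sq_few`), each contributes at most
`1 + ∑_j (1/j!) (∑ ‖c i‖)^j B_j` by `expd_bd`, `tw_bd` (`‖gx φ X n‖ = 1` as `|φ| = 1`; `B_j` the maximum over the finitely many lists, or the bound of `tw_bd` applied for each list and summed: the lists of length `j` with entries among the `r` windows are finitely many). Divide by `X`: `expd_smul`, `tw_mean`, `expd_lim`. -/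
theorem int_mean {r : ℕ} (c : Fin r → ℂ) (u v : Fin r → ℝ) (hw : ∀ i, 0 < u i ∧ u i ≤ v i) (φ : ℝ → ℂ) (hφ1 : ∀ t, ‖φ t‖ = 1)
    (hφ : ∀ t, φ t = 1 + ∑ i, if u i < t ∧ t ≤ v i then c i else 0) (δ : ℝ) (hδ : 0 < δ) (hδu : ∀ i, δ ≤ u i)
    (J : ℕ) (hJ : 2 < (J + 1) * δ) :
    Tendsto (fun X : ℝ => (∑ n ∈ Icc 1 ⌊X⌋₊, gx φ X n) / X) atTop (nhds (EV c u v J)) := by
  classical
  choose! Bt hBt0 hBt using fun (l : List (ℝ × ℝ)) (hl : ∀ w ∈ l, δ ≤ w.1) => tw_bd δ hδ l hl
  -- uniform bound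
  have hD : ∃ D : ℝ, 0 ≤ D ∧ ∀ X : ℝ, 2 ≤ X → ∀ n : ℕ, n ≠ 0 → (n : ℝ) ≤ X ^ 2 →
      ‖∑ j ∈ range (J + 1), (1 / (j.factorial : ℂ)) * expd c u v j (fun l => (TW X l n : ℂ))‖ ≤ D := by
    have hlist : ∀ (j : ℕ) (f : Fin j → Fin r), ∀ w ∈ List.ofFn (fun i => (u (f i), v (f i))), δ ≤ w.1 := by
      intro j f w hw
      rw [List.mem_ofFn] at hw
      obtain ⟨i, rfl⟩ := hw
      exact hδu _
    refine ⟨∑ j ∈ range (J + 1), (1 / (j.factorial : ℝ)) * ((∑ i, ‖c i‖) ^ j *
      ∑ f : Fin j → Fin r, Bt (List.ofFn (fun i => (u (f i), v (f i))))), ?_, ?_⟩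
    · refine sum_nonneg fun j _ => mul_nonneg (by positivity) (mul_nonneg (by positivity) ?_)
      exact sum_nonneg fun f _ => hBt0 _ (hlist j f)
    · intro X hX n hn hnX
      refine (norm_sum_le _ _).trans (sum_le_sum fun j _ => ?_)
      rw [norm_mul]
      refine mul_le_mul (le_of_eq ?_) ?_ (norm_nonneg _) (by positivity)
      · rw [norm_div, norm_one, Complex.norm_natCast]
      · refine expd_bd c u v j _ _ fun l hlj hl => ?_
        have hch : ∀ i : Fin j, ∃ k : Fin r, l.get (Fin.cast hlj.symm i) = (u k, v k) := fun i =>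
          hl _ (List.get_mem _ _)
        choose f hf using hch
        have hlf : l = List.ofFn (fun i => (u (f i), v (f i))) := by
          apply List.ext_get
          · rw [List.length_ofFn, hlj]
          · intro m h1 h2
            rw [List.get_ofFn]
            exact hf ⟨m, by rw [← hlj]; exact h1⟩
        rw [hlf]
        have h1 := hBt _ (hlist j f) X hX n hn hnX
        rw [Complex.norm_real, Real.norm_of_nonneg h1.1]
        refine h1.2.trans ?_
        exact single_le_sum (f := fun f : Fin j → Fin r => Bt (List.ofFn (fun i => (u (f i), v (f i)))))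
          (fun g _ => hBt0 _ (hlist j g)) (mem_univ f)
  obtain ⟨D, hD0, hD⟩ := hD
  -- the main term
  have hmain : Tendsto (fun X : ℝ => ∑ j ∈ range (J + 1), (1 / (j.factorial : ℂ)) *
      expd c u v j (fun l => ∑ n ∈ Icc 1 ⌊X⌋₊, ((1 / X : ℝ) : ℂ) * (TW X l n : ℂ))) atTop
      (nhds (EV c u v J)) := by
    unfold EV
    refine tendsto_finsetSum _ fun j _ => Tendsto.const_mul _ ?_
    refine expd_lim c u v hw j (fun X l => ∑ n ∈ Icc 1 ⌊X⌋₊, ((1 / X : ℝ) : ℂ) * (TW X l n : ℂ)) _ ?_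
    intro l hl
    have h1 := (Complex.continuous_ofReal.tendsto _).comp (tw_mean l hl)
    refine h1.congr fun X => ?_
    rw [Function.comp_apply, div_eq_mul_inv, mul_comm, ← one_div, mul_sum]
    push_cast
    rfl
  -- the difference
  have hdiff : Tendsto (fun X : ℝ => (∑ n ∈ Icc 1 ⌊X⌋₊, gx φ X n) / X -
      ∑ j ∈ range (J + 1), (1 / (j.factorial : ℂ)) *
        expd c u v j (fun l => ∑ n ∈ Icc 1 ⌊X⌋₊, ((1 / X : ℝ) : ℂ) * (TW X l n : ℂ))) atTop (nhds 0) := by
    refine squeeze_zero_norm' (a := fun X : ℝ => 2 * (1 + D) * X ^ (-δ)) ?_ ?_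
    · filter_upwards [eventually_ge_atTop 2] with X hX
      have hX0 : (0 : ℝ) < X := two_pos.trans_le hX
      have hX1 : (1 : ℝ) ≤ X := one_le_two.trans hX
      set T : ℕ → ℂ := fun n => ∑ j ∈ range (J + 1), (1 / (j.factorial : ℂ)) *
        expd c u v j (fun l => (TW X l n : ℂ)) with hT
      set bad : Finset ℕ := (Icc 1 ⌊X⌋₊).filter (fun n => ∃ p : ℕ, X ^ δ < (p : ℝ) ∧ p ^ 2 ∣ n) with hbad
      have e1 : ∑ j ∈ range (J + 1), (1 / (j.factorial : ℂ)) *
          expd c u v j (fun l => ∑ n ∈ Icc 1 ⌊X⌋₊, ((1 / X : ℝ) : ℂ) * (TW X l n : ℂ)) =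
          ∑ n ∈ Icc 1 ⌊X⌋₊, ((1 / X : ℝ) : ℂ) * T n := by
        rw [hT]
        simp only [mul_sum]
        rw [sum_comm]
        refine sum_congr rfl fun j _ => ?_
        rw [expd_sum c u v j (Icc 1 ⌊X⌋₊) (fun _ => ((1 / X : ℝ) : ℂ)) (fun n l => (TW X l n : ℂ)), mul_sum]
        refine sum_congr rfl fun n _ => ?_
        ring
      have e2 : (∑ n ∈ Icc 1 ⌊X⌋₊, gx φ X n) / X - ∑ n ∈ Icc 1 ⌊X⌋₊, ((1 / X : ℝ) : ℂ) * T n =
          ∑ n ∈ bad, ((1 / X : ℝ) : ℂ) * (gx φ X n - T n) := by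
        have e3 : (∑ n ∈ Icc 1 ⌊X⌋₊, gx φ X n) / X - ∑ n ∈ Icc 1 ⌊X⌋₊, ((1 / X : ℝ) : ℂ) * T n =
            ∑ n ∈ Icc 1 ⌊X⌋₊, ((1 / X : ℝ) : ℂ) * (gx φ X n - T n) := by
          rw [← mul_sum, ← mul_sum, sum_sub_distrib]
          push_cast
          ring
        rw [e3, hbad, sum_filter]
        refine sum_congr rfl fun n hn => ?_
        split_ifs with hb
        · rfl
        · rw [mem_Icc] at hn
          have hnX : (n : ℝ) ≤ X := (Nat.le_floor_iff hX0.le).1 hn.2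
          have hnX2 : (n : ℝ) ≤ X ^ 2 := by nlinarith
          have hg := gx_id c u v φ hφ δ hδ hδu J hJ X hX n (Nat.one_le_iff_ne_zero.1 hn.1) hnX2
            (fun p _ hp1 hp2 => hb ⟨p, hp1, hp2⟩)
          rw [hg]
          simp [hT]
      rw [e1, e2]
      have hcard : (bad.card : ℝ) ≤ 2 * X / X ^ δ := by
        refine sq_few (X ^ δ) X (Real.one_le_rpow hX1 hδ.le) hX0.le bad fun n hn => ?_
        rw [hbad, mem_filter, mem_Icc] at hn
        exact ⟨hn.1.1, (Nat.le_floor_iff hX0.le).1 hn.1.2, hn.2⟩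
      refine (norm_sum_le _ _).trans ?_
      have hterm : ∀ n ∈ bad, ‖((1 / X : ℝ) : ℂ) * (gx φ X n - T n)‖ ≤ 1 / X * (1 + D) := by
        intro n hn
        rw [hbad, mem_filter, mem_Icc] at hn
        have hnX : (n : ℝ) ≤ X := (Nat.le_floor_iff hX0.le).1 hn.1.2
        have hnX2 : (n : ℝ) ≤ X ^ 2 := by nlinarith
        rw [norm_mul, Complex.norm_real, Real.norm_of_nonneg (by positivity : (0 : ℝ) ≤ 1 / X)]
        refine mul_le_mul_of_nonneg_left ?_ (by positivity)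
        refine (norm_sub_le _ _).trans (add_le_add (le_of_eq (norm_gx φ hφ1 X n)) ?_)
        exact hD X hX n (Nat.one_le_iff_ne_zero.1 hn.1.1) hnX2
      refine (sum_le_sum hterm).trans ?_
      rw [sum_const, nsmul_eq_mul]
      have h5 : (0 : ℝ) ≤ 1 / X * (1 + D) := by positivity
      refine (mul_le_mul_of_nonneg_right hcard h5).trans (le_of_eq ?_)
      rw [Real.rpow_neg hX0.le]
      have h6 : X ^ δ ≠ 0 := (Real.rpow_pos_of_pos hX0 δ).ne'
      field_simp
    · simpa using (tendsto_rpow_neg_atTop hδ).const_mul (2 * (1 + D))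
  simpa using hdiff.add hmain

/-- `mu φ = EV c u v J` -/
theorem mu_eq {r : ℕ} (c : Fin r → ℂ) (u v : Fin r → ℝ) (hw : ∀ i, 0 < u i ∧ u i ≤ v i) (φ : ℝ → ℂ) (hφ1 : ∀ t, ‖φ t‖ = 1)
    (hφ : ∀ t, φ t = 1 + ∑ i, if u i < t ∧ t ≤ v i then c i else 0) (δ : ℝ) (hδ : 0 < δ) (hδu : ∀ i, δ ≤ u i)
    (J : ℕ) (hJ : 2 < (J + 1) * δ) : mu φ = EV c u v J :=
  (int_mean c u v hw φ hφ1 hφ δ hδ hδu J hJ).limUnder_eq

/-- the mean value exists (from `int_mean`: `δ = min u_i`, or `δ = 1` if `r = 0`; `J` large) -/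
theorem mu_tendsto (φ : ℝ → ℂ) (hφ : StepF φ) :
    Tendsto (fun X : ℝ => (∑ n ∈ Icc 1 ⌊X⌋₊, gx φ X n) / X) atTop (nhds (mu φ)) := by
  obtain ⟨r, c, u, v, hw, hv⟩ := hφ.ex
  have hδ : ∃ δ : ℝ, 0 < δ ∧ ∀ i, δ ≤ u i := by
    rcases isEmpty_or_nonempty (Fin r) with h | h
    · exact ⟨1, one_pos, fun i => h.elim i⟩
    · obtain ⟨i0, hi0⟩ := Finite.exists_min u
      exact ⟨u i0, (hw i0).1, hi0⟩
  obtain ⟨δ, hδ, hδu⟩ := hδ
  obtain ⟨J, hJ⟩ := exists_nat_gt (2 / δ)
  have hJ' : 2 < ((J : ℝ) + 1) * δ := by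
    rw [div_lt_iff₀ hδ] at hJ
    nlinarith
  rw [mu_eq c u v hw φ hφ.un hv δ hδ hδu J hJ']
  exact int_mean c u v hw φ hφ.un hv δ hδ hδu J hJ'

/-- `‖mu φ‖ ≤ 1` (`mu_tendsto`, `‖gx φ X n‖ = 1`) -/
theorem mu_le (φ : ℝ → ℂ) (hφ : StepF φ) : ‖mu φ‖ ≤ 1 := by
  refine le_of_tendsto (mu_tendsto φ hφ).norm ?_
  filter_upwards [eventually_gt_atTop 0] with X hX
  rw [norm_div, Complex.norm_real, Real.norm_of_nonneg hX.le, div_le_one hX]
  refine (norm_sum_le _ _).trans ?_
  have h1 : ∑ n ∈ Icc 1 ⌊X⌋₊, ‖gx φ X n‖ = ⌊X⌋₊ := by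
    rw [sum_congr rfl fun n _ => norm_gx φ hφ.un X n]
    simp
  rw [h1]
  exact Nat.floor_le hX.le

end Pool.Agent.LPr

end

/-! ### from `Lib_MP_f1a94e_lp.PosX` -/

section

/-!
# Piece POSX: positivity of the constants
-/

set_option autoImplicit false

namespace Pool.Agent.LPr

open Finset Filter

/-- the product formula for `SW` over equal windows -/
private lemma posx_sw (g : ℕ → ℝ) (k : ℕ) (hk : 0 < k) (u : ℝ) (X : ℝ) (hX : 1 < X) (j : ℕ) :
    ∀ s : ℝ, (j : ℝ) / k ≤ s →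
      SW g X (List.replicate j (u, 1 / (k : ℝ))) s = (∑ p ∈ PW X u (1 / k), g p / p) ^ j := by
  have hk' : (0 : ℝ) < k := by exact_mod_cast hk
  have hlX : 0 < Real.log X := Real.log_pos hX
  induction j with
  | zero =>
    intro s hs
    have h0 : (0 : ℝ) ≤ s := by simpa using hs
    simp [SW, h0]
  | succ j ih =>
    intro s hs
    rw [List.replicate_succ, SW, pow_succ', Finset.sum_mul]
    refine Finset.sum_congr rfl (fun p hp => ?_)
    have hp' := (mem_PW (by linarith : (0 : ℝ) ≤ X)).1 hp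
    have hp0 : (0 : ℝ) < p := by exact_mod_cast hp'.1.pos
    have h1 : Real.log p ≤ 1 / k * Real.log X := by
      have h2 := Real.log_le_log hp0 hp'.2.2
      rwa [Real.log_rpow (by linarith)] at h2
    have h3 : Real.log p / Real.log X ≤ 1 / k := by
      rw [div_le_iff₀ hlX]
      exact h1
    have h4 : (j : ℝ) / k ≤ s - Real.log p / Real.log X := by
      have h5 : ((j + 1 : ℕ) : ℝ) / k = (j : ℝ) / k + 1 / k := by
        push_cast
        ring
      rw [h5] at hs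
      linarith
    rw [ih _ h4]

/-- PROOF. `w = (u, 1/k)`, `l = [w, ..., w]` (`k` times, `List.replicate k w`). For `X > 1` and `s ≥ j / k` we have `SW g X (replicate j w) s = (∑_(p ∈ PW X u (1/k)) g p / p) ^ j` (induction on `j`: `log p / log X ≤ 1/k`, so `s - log p / log X ≥ (j - 1)/k`), so at `s = 1`, `j = k`,
`SW (fun _ => 1) X l 1 = (∑ 1 / p)^k → (log ((1/k)/u))^k` (`mert_all`), hence `NW l = (log (1/(k u)))^k`. -/
theorem nw_replicate (k : ℕ) (hk : 0 < k) (u : ℝ) (hu : 0 < u) (huk : u ≤ 1 / k) :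
    NW (List.replicate k (u, 1 / (k : ℝ))) = Real.log ((1 / k) / u) ^ k := by
  have hk' : (0 : ℝ) < k := by exact_mod_cast hk
  unfold NW
  apply Tendsto.limUnder_eq
  have h1 := (mert_all.lim u (1 / k) hu huk).pow k
  refine h1.congr' ?_
  filter_upwards [eventually_gt_atTop (1 : ℝ)] with X hX
  exact (posx_sw (fun _ => 1) k hk u X hX k 1 (by rw [div_self hk'.ne'])).symm

private lemma posx_wc_mul (x u v : ℝ) {m n : ℕ} (hm : m ≠ 0) (hn : n ≠ 0) :
    wc x u v (m * n) = wc x u v m + wc x u v n := by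
  unfold wc
  rw [((Nat.perm_primeFactorsList_mul hm hn).filter _).length_eq, List.filter_append,
    List.length_append]

private lemma posx_wc_prime (x u v : ℝ) {p : ℕ} (hp : p.Prime) (h1 : x ^ u < (p : ℝ)) (h2 : (p : ℝ) ≤ x ^ v) :
    wc x u v p = 1 := by
  unfold wc
  rw [Nat.primeFactorsList_prime hp, List.filter_cons_of_pos (by simp [h1, h2])]
  simp

private lemma posx_tw_ne (X u v : ℝ) (hX : 0 ≤ X) (j : ℕ) :
    ∀ n : ℕ, n ≠ 0 → TW X (List.replicate j (u, v)) n ≠ 0 → j ≤ wc X u v n := by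
  classical
  induction j with
  | zero =>
    intro n _ _
    exact Nat.zero_le _
  | succ j ih =>
    intro n hn h
    rw [List.replicate_succ, TW] at h
    obtain ⟨p, hp, hpn⟩ := Finset.exists_ne_zero_of_sum_ne_zero h
    rw [mem_filter, mem_PW hX] at hp
    obtain ⟨⟨hpp, h1, h2⟩, hd⟩ := hp
    obtain ⟨m, rfl⟩ := hd
    have hm : m ≠ 0 := by
      rintro rfl
      exact hn (by simp)
    rw [Nat.mul_div_cancel_left m hpp.pos] at hpn
    have h3 := ih m hm hpn
    rw [posx_wc_mul X u v hpp.ne_zero hm, posx_wc_prime X u v hpp h1 h2]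
    omega

private lemma posx_prod_gt (a : ℝ) (ha : 0 < a) :
    ∀ L : List ℕ, (∀ p ∈ L, a < (p : ℝ)) → a ^ L.length ≤ (L.prod : ℝ) ∧ (L ≠ [] → a ^ L.length < (L.prod : ℝ)) := by
  intro L
  induction L with
  | nil =>
    intro _
    simp
  | cons p L ih =>
    intro h
    have h1 := ih (fun q hq => h q (List.mem_cons_of_mem _ hq))
    have h2 : a < (p : ℝ) := h p List.mem_cons_self
    have h3 : a ^ (p :: L).length < ((p :: L).prod : ℝ) := by
      rw [List.length_cons, List.prod_cons, pow_succ']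
      push_cast
      have h4 : 0 < a ^ L.length := by positivity
      calc a * a ^ L.length < p * a ^ L.length := mul_lt_mul_of_pos_right h2 h4
        _ ≤ p * (L.prod : ℝ) := mul_le_mul_of_nonneg_left (by exact_mod_cast h1.1) (by linarith)
        _ = _ := by push_cast; rfl
    exact ⟨h3.le, fun _ => h3⟩

private lemma posx_wc_le (k : ℕ) (u v : ℝ) (hu : 0 < u) (hu1 : 1 ≤ (k + 1) * u) (X : ℝ) (hX : 2 ≤ X) (n : ℕ)
    (hn : n ≠ 0) (hnX : (n : ℝ) ≤ X) : wc X u v n ≤ k := by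
  classical
  by_contra hcon
  push Not at hcon
  set L := n.primeFactorsList.filter (fun p : ℕ => X ^ u < (p : ℝ) ∧ (p : ℝ) ≤ X ^ v) with hL
  have hlen : k + 1 ≤ L.length := hcon
  have hXu : 1 ≤ X ^ u := Real.one_le_rpow (by linarith) hu.le
  have hmem : ∀ p ∈ L, X ^ u < (p : ℝ) := by
    intro p hp
    rw [hL, List.mem_filter] at hp
    have := hp.2
    simp only [decide_eq_true_eq] at this
    exact this.1
  have hne : L ≠ [] := by
    rintro h
    rw [h] at hlen
    simp at hlen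
  have h1 := (posx_prod_gt (X ^ u) (by linarith) L hmem).2 hne
  have h2 : L.prod ∣ n := by
    have h3 : L.prod ∣ n.primeFactorsList.prod := (List.filter_sublist).prod_dvd_prod
    rwa [Nat.prod_primeFactorsList hn] at h3
  have h4 : (L.prod : ℝ) ≤ n := by exact_mod_cast Nat.le_of_dvd (Nat.pos_of_ne_zero hn) h2
  have h5 : X ≤ (X ^ u) ^ L.length := by
    calc X = X ^ (1 : ℝ) := (Real.rpow_one X).symm
      _ ≤ X ^ (u * ((k + 1 : ℕ) : ℝ)) := by
          apply Real.rpow_le_rpow_of_exponent_le (by linarith)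
          push_cast
          linarith
      _ = (X ^ u) ^ (k + 1) := by rw [Real.rpow_mul (by linarith), Real.rpow_natCast]
      _ ≤ (X ^ u) ^ L.length := pow_le_pow_right₀ hXu hlen
  linarith

/-- PROOF. If `TW X (replicate k w) n ≠ 0` then `n` is divisible by a product of `k` primes of the window (nonempty filter at each step), so `wc X u (1/k) n ≥ k`; and if `n ≤ X`, `n ≠ 0` then `wc ≤ k`, since `k + 1` primes of the window (with multiplicity) have a product larger than `X^((k + 1) u) ≥ X`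
(`(k + 1) u ≥ 1`) dividing `n`. And `TW X (replicate k w) n ≤ k^k`... any bound `B` works: `tw_bd` with `δ = u`, `n ≤ X ≤ X²`. -/
theorem tw_le_ind (k : ℕ) (hk : 0 < k) (u : ℝ) (hu : 0 < u) (huk : u < 1 / k) (hu1 : 1 ≤ (k + 1) * u) :
    ∃ B : ℝ, 0 < B ∧ ∀ X : ℝ, 2 ≤ X → ∀ n : ℕ, n ≠ 0 → (n : ℝ) ≤ X →
      TW X (List.replicate k (u, 1 / (k : ℝ))) n ≤ if wc X u (1 / k) n = k then B else 0 := by
  obtain ⟨B, hB0, hB⟩ := tw_bd u hu (List.replicate k (u, 1 / (k : ℝ))) (by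
    intro w hw
    rw [List.eq_of_mem_replicate hw])
  refine ⟨B + 1, by linarith, fun X hX n hn hnX => ?_⟩
  have hnX2 : (n : ℝ) ≤ X ^ 2 := by nlinarith
  split_ifs with h
  · linarith [(hB X hX n hn hnX2).2]
  · by_contra hcon
    push Not at hcon
    have h1 := posx_tw_ne X u (1 / k) (by linarith) k n hn hcon.ne'
    have h2 := posx_wc_le k u (1 / k) hu hu1 X hX n hn hnX
    exact h (le_antisymm h2 h1)

/-- PROOF. `∑_(n ≤ x) TW x l n / x → NW l` (`tw_mean`), `l = replicate k (u, 1/k)`; `∑_(n ≤ x) TW x l n ≤ B #{n ≤ x : wc = k}`, so `NW l ≤ B c`, and `NW l = log (1/(k u))^k > 0`. -/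
theorem pos_law (k : ℕ) (hk : 0 < k) (u : ℝ) (hu : 0 < u) (huk : u < 1 / k) (hu1 : 1 ≤ (k + 1) * u) (c : ℝ)
    (hc : Tendsto (fun x : ℝ => (Set.ncard {n : ℕ | 1 ≤ n ∧ (n : ℝ) ≤ x ∧ wc x u (1 / k) n = k} : ℝ) / x) atTop (nhds c)) :
    0 < c := by
  classical
  have hwin : Win (List.replicate k (u, 1 / (k : ℝ))) := by
    intro w hw
    rw [List.eq_of_mem_replicate hw]
    exact ⟨hu, huk.le⟩
  have h1 := tw_mean _ hwin
  obtain ⟨B, hB0, hB⟩ := tw_le_ind k hk u hu huk hu1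
  have h2 : NW (List.replicate k (u, 1 / (k : ℝ))) ≤ B * c := by
    refine le_of_tendsto_of_tendsto h1 (hc.const_mul B) ?_
    filter_upwards [eventually_ge_atTop (2 : ℝ)] with x hx
    have hset : {n : ℕ | 1 ≤ n ∧ (n : ℝ) ≤ x ∧ wc x u (1 / k) n = k} =
        (((Icc 1 ⌊x⌋₊).filter (fun n => wc x u (1 / k) n = k) : Finset ℕ) : Set ℕ) := by
      ext n
      simp only [Set.mem_setOf_eq, coe_filter, mem_Icc]
      constructor
      · rintro ⟨h3, h4, h5⟩
        exact ⟨⟨h3, Nat.le_floor h4⟩, h5⟩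
      · rintro ⟨⟨h3, h4⟩, h5⟩
        exact ⟨h3, (Nat.le_floor_iff (by linarith)).1 h4, h5⟩
    rw [hset, Set.ncard_coe_finset, ← mul_div_assoc]
    apply div_le_div_of_nonneg_right _ (by linarith : (0 : ℝ) ≤ x)
    calc ∑ n ∈ Icc 1 ⌊x⌋₊, TW x (List.replicate k (u, 1 / (k : ℝ))) n
        ≤ ∑ n ∈ Icc 1 ⌊x⌋₊, (if wc x u (1 / k) n = k then B else 0) := by
          refine Finset.sum_le_sum (fun n hn => ?_)
          rw [mem_Icc] at hn
          exact hB x hx n (by omega) ((Nat.le_floor_iff (by linarith)).1 hn.2)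
      _ = B * (((Icc 1 ⌊x⌋₊).filter (fun n => wc x u (1 / k) n = k)).card : ℝ) := by
          rw [← Finset.sum_filter, Finset.sum_const, nsmul_eq_mul, mul_comm]
  rw [nw_replicate k hk u hu huk.le] at h2
  have h3 : 1 < (1 / (k : ℝ)) / u := by
    rw [lt_div_iff₀ hu]
    linarith
  have h4 : 0 < Real.log ((1 / k) / u) ^ k := pow_pos (Real.log_pos h3) k
  by_contra hcon
  push Not at hcon
  nlinarith [mul_nonneg hB0.le (neg_nonneg.2 hcon)]

end Pool.Agent.LPr

end

/-! ### from `Lib_MP_f1a94e_lp.PosG` -/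

section

/-!
# Piece POSG: positivity of the constants for profiles
-/

set_option autoImplicit false

namespace Pool.Agent.LPr

open Finset Filter

private lemma posg_sw (g : ℕ → ℝ) (X : ℝ) (hX : 1 < X) (l : List (ℝ × ℝ)) :
    ∀ s : ℝ, (l.map (fun w => w.2)).sum ≤ s →
      SW g X l s = (l.map (fun w => ∑ p ∈ PW X w.1 w.2, g p / p)).prod := by
  have hlX : 0 < Real.log X := Real.log_pos hX
  induction l with
  | nil =>
    intro s hs
    have h0 : (0 : ℝ) ≤ s := by simpa using hs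
    simp [SW, h0]
  | cons w l ih =>
    intro s hs
    rw [List.map_cons, List.sum_cons] at hs
    rw [SW, List.map_cons, List.prod_cons, Finset.sum_mul]
    refine Finset.sum_congr rfl (fun p hp => ?_)
    have hp' := (mem_PW (by linarith : (0 : ℝ) ≤ X)).1 hp
    have hp0 : (0 : ℝ) < p := by exact_mod_cast hp'.1.pos
    have h1 : Real.log p ≤ w.2 * Real.log X := by
      have h2 := Real.log_le_log hp0 hp'.2.2
      rwa [Real.log_rpow (by linarith)] at h2
    have h3 : Real.log p / Real.log X ≤ w.2 := by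
      rw [div_le_iff₀ hlX]
      exact h1
    rw [ih _ (by linarith)]

/-- PROOF. As `nw_replicate` (PosX.lean): for `X > 1` and `s ≥` the sum of the second components of `l`, `SW g X l s = ∏_(w ∈ l) ∑_(p ∈ PW X w.1 w.2) g p / p` (induction on `l`, `log p / log X ≤ w.2`); at `s = 1`; limit of the product by `mert_all`
(induction on `l` or `tendsto_list_prod`). -/
theorem nw_prod (l : List (ℝ × ℝ)) (hl : Win l) (hs : (l.map (fun w => w.2)).sum ≤ 1) :
    NW l = (l.map (fun w => Real.log (w.2 / w.1))).prod := by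
  unfold NW
  apply Tendsto.limUnder_eq
  have h1 : ∀ l : List (ℝ × ℝ), Win l →
      Tendsto (fun X : ℝ => (l.map (fun w => ∑ p ∈ PW X w.1 w.2, (fun _ : ℕ => (1 : ℝ)) p / (p : ℝ))).prod) atTop
        (nhds (l.map (fun w => Real.log (w.2 / w.1))).prod) := by
    intro l
    induction l with
    | nil => intro _; simp
    | cons w l ih =>
      intro h
      have h2 := h w List.mem_cons_self
      simp only [List.map_cons, List.prod_cons]
      exact (mert_all.lim w.1 w.2 h2.1 h2.2).mul (ih (fun w' hw' => h w' (List.mem_cons_of_mem _ hw')))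
  refine (h1 l hl).congr' ?_
  filter_upwards [eventually_gt_atTop (1 : ℝ)] with X hX
  exact (posg_sw (fun _ => 1) X hX l 1 hs).symm

private lemma posg_wc_mul (x u v : ℝ) {m n : ℕ} (hm : m ≠ 0) (hn : n ≠ 0) :
    wc x u v (m * n) = wc x u v m + wc x u v n := by
  unfold wc
  rw [((Nat.perm_primeFactorsList_mul hm hn).filter _).length_eq, List.filter_append,
    List.length_append]

private lemma posg_wc_one (x u v : ℝ) {p : ℕ} (hp : p.Prime) (h1 : x ^ u < (p : ℝ)) (h2 : (p : ℝ) ≤ x ^ v) :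
    wc x u v p = 1 := by
  unfold wc
  rw [Nat.primeFactorsList_prime hp, List.filter_cons_of_pos (by simp [h1, h2])]
  simp

private lemma posg_wc_zero (x u v : ℝ) {p : ℕ} (hp : p.Prime) (h : (p : ℝ) ≤ x ^ u ∨ x ^ v < (p : ℝ)) :
    wc x u v p = 0 := by
  unfold wc
  rw [Nat.primeFactorsList_prime hp, List.filter_cons_of_neg, List.filter_nil, List.length_nil]
  simp only [decide_eq_true_eq, not_and, not_le]
  intro h1
  rcases h with h | h
  · exact absurd h (not_le.2 h1)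
  · exact h

private lemma posg_wc_small (x u v : ℝ) {s : ℕ} (hs : (s : ℝ) ≤ x ^ u) :
    wc x u v s = 0 := by
  unfold wc
  rw [List.length_eq_zero_iff, List.filter_eq_nil_iff]
  intro p hp
  simp only [decide_eq_true_eq, not_and, not_le]
  intro h1
  have h2 : p ≤ s := Nat.le_of_mem_primeFactorsList hp
  have h3 : (p : ℝ) ≤ s := by exact_mod_cast h2
  exact absurd (h3.trans hs) (not_le.2 h1)

open Classical in
private lemma posg_tw_ne (X : ℝ) (hX : 1 ≤ X) (l : List (ℝ × ℝ)) :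
    ∀ n : ℕ, n ≠ 0 → TW X l n ≠ 0 → ∃ s : ℕ, s ≠ 0 ∧ (s : ℝ) * X ^ (l.map (fun w => w.1)).sum ≤ n ∧
      ∀ u v : ℝ, (∀ w ∈ l, (u ≤ w.1 ∧ w.2 ≤ v) ∨ w.2 ≤ u ∨ v ≤ w.1) →
        wc X u v n = l.countP (fun w => u ≤ w.1 ∧ w.2 ≤ v) + wc X u v s := by
  have hX0 : (0 : ℝ) < X := by linarith
  induction l with
  | nil =>
    intro n hn _
    exact ⟨n, hn, by simp, fun u v _ => by simp⟩
  | cons w l ih =>
    intro n hn h
    rw [TW] at h
    obtain ⟨p, hp, hpn⟩ := Finset.exists_ne_zero_of_sum_ne_zero h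
    rw [mem_filter, mem_PW hX0.le] at hp
    obtain ⟨⟨hpp, h1, h2⟩, hd⟩ := hp
    obtain ⟨m, rfl⟩ := hd
    have hm : m ≠ 0 := by
      rintro rfl
      exact hn (by simp)
    rw [Nat.mul_div_cancel_left m hpp.pos] at hpn
    obtain ⟨s, hs0, hsm, hs⟩ := ih m hm hpn
    refine ⟨s, hs0, ?_, ?_⟩
    · rw [List.map_cons, List.sum_cons, Real.rpow_add hX0]
      have h3 : 0 < X ^ w.1 := Real.rpow_pos_of_pos hX0 _
      have h4 : (0 : ℝ) ≤ m := Nat.cast_nonneg m
      push_cast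
      calc (s : ℝ) * (X ^ w.1 * X ^ (l.map (fun w => w.1)).sum)
          = X ^ w.1 * ((s : ℝ) * X ^ (l.map (fun w => w.1)).sum) := by ring
        _ ≤ X ^ w.1 * m := mul_le_mul_of_nonneg_left hsm h3.le
        _ ≤ p * m := mul_le_mul_of_nonneg_right h1.le h4
    · intro u v huv
      have h3 := hs u v (fun w' hw' => huv w' (List.mem_cons_of_mem _ hw'))
      rw [posg_wc_mul X u v hpp.ne_zero hm, h3, List.countP_cons]
      by_cases hw : u ≤ w.1 ∧ w.2 ≤ v
      · have h4 : wc X u v p = 1 := posg_wc_one X u v hpp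
          (lt_of_le_of_lt (Real.rpow_le_rpow_of_exponent_le hX hw.1) h1)
          (h2.trans (Real.rpow_le_rpow_of_exponent_le hX hw.2))
        rw [h4, if_pos (by simpa using hw)]
        ring
      · have h4 : wc X u v p = 0 := by
          apply posg_wc_zero X u v hpp
          rcases huv w List.mem_cons_self with h5 | h5 | h5
          · exact absurd h5 hw
          · exact Or.inl (h2.trans (Real.rpow_le_rpow_of_exponent_le hX h5))
          · exact Or.inr (lt_of_le_of_lt (Real.rpow_le_rpow_of_exponent_le hX h5) h1)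
        rw [h4, if_neg (by simpa using hw)]
        ring

/-- PROOF. `ρ = 1 - ∑ t i > 0`, `M ≥ 1` natural with `w := ρ / M ≤ ε / 2`, `l = [(t_i - δ, t_i), i < k] ++ replicate M (w - δ, w)`, `δ ≤ δ0` where `δ0 < w`, `(k + M) δ0 ≤ ε`, `t_i - δ0 ≥ ε`, and `δ0 < |t_i - t_j|` for `i ≠ j`, `δ0 ≤ 1`... (`t_i ≤ 1 ≤ 2`).
Let `2 ≤ X`, `1 ≤ n ≤ X` and `TW X l n ≠ 0`. Then (induction on `l` as in `posx_tw_ne`) `n = (∏ p_i) (∏ r_j) s` with primes `X^(t_i - δ) < p_i ≤ X^(t_i)` and `X^(w - δ) < r_j ≤ X^w`. `n ≤ X` gives `s ≤ X^(1 - ∑ (t_i - δ) - M (w - δ)) = X^((k + M) δ) ≤ X^ε`, `r_j ≤ X^w ≤ X^ε`, `p_i > X^(t_i - δ) ≥ X^ε`.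
`wc X u v` is additive on products of nonzero numbers, `wc X u v p` is `1` or `0` for a prime `p` in or not in the window (`posx_wc_mul`, `posx_wc_prime`; they are private in PosX.lean, copy them), and `wc X ε 2 m = 0` if all primes of `m` are `≤ X^ε`. So `wc X ε 2 n = k` (`X^ε < p_i ≤ X^(t_i) ≤ X^2`) and `wc X (t_i - δ) t_i n = 1`:
`p_i` is in the window, `p_j`, `j ≠ i`, is not (`t_j ≤ t_i - δ` or `t_j - δ ≥ t_i`), and the primes `≤ X^ε ≤ X^(t_i - δ)` are not.
So `TW X l n ≤ B` times the indicator of the event (`tw_bd` with a lower bound of all left ends, `n ≤ X ≤ X²`), and as in `pos_law`: `NW l ≤ B c`, `NW l = ∏ log (t_i / (t_i - δ)) (log (w / (w - δ)))^M > 0` by `nw_prod` (the sum of the second components is `∑ t_i + ρ = 1`). -/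
theorem pos_prof (k : ℕ) (t : Fin k → ℝ) (hinj : Function.Injective t) (ε : ℝ) (hε : 0 < ε) (ht : ∀ i, ε < t i)
    (hsum : ∑ i, t i < 1) :
    ∃ δ0 : ℝ, 0 < δ0 ∧ ∀ δ : ℝ, 0 < δ → δ ≤ δ0 → ∀ c : ℝ,
      Tendsto (fun x : ℝ => (Set.ncard {n : ℕ | 1 ≤ n ∧ (n : ℝ) ≤ x ∧ (∀ i, wc x (t i - δ) (t i) n = 1) ∧
        wc x ε 2 n = k} : ℝ) / x) atTop (nhds c) → 0 < c := by
  classical
  obtain ⟨ρ, hρ⟩ : ∃ ρ : ℝ, ρ = 1 - ∑ i, t i := ⟨_, rfl⟩
  have hρ0 : 0 < ρ := by linarith
  obtain ⟨M, hM⟩ := exists_nat_gt (2 * ρ / ε)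
  have hM0 : (0 : ℝ) < M := lt_trans (by positivity) hM
  obtain ⟨w, hw⟩ : ∃ w : ℝ, w = ρ / M := ⟨_, rfl⟩
  have hw0 : 0 < w := by rw [hw]; positivity
  have hMw : (M : ℝ) * w = ρ := by rw [hw]; field_simp
  have hwε : w ≤ ε / 2 := by
    rw [hw, div_le_iff₀ hM0]
    rw [div_lt_iff₀ hε] at hM
    linarith
  have hti : ∀ i, t i < 1 := by
    intro i
    refine lt_of_le_of_lt ?_ hsum
    exact Finset.single_le_sum (fun j _ => (hε.trans (ht j)).le) (Finset.mem_univ i)
  have hle : ∀ a : ℝ, 0 < a → ∀ᶠ δ in nhdsWithin (0 : ℝ) (Set.Ioi 0), δ < a := fun a ha =>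
    (eventually_lt_nhds ha).filter_mono nhdsWithin_le_nhds
  have hev : ∀ᶠ δ in nhdsWithin (0 : ℝ) (Set.Ioi 0), δ < w ∧ ((k : ℝ) + M) * δ ≤ ε ∧ (∀ i, δ ≤ t i - ε) ∧
      ∀ i j, i ≠ j → δ ≤ |t i - t j| := by
    refine (hle w hw0).and (Filter.Eventually.and ?_ (Filter.Eventually.and ?_ ?_))
    · have hkM : (0 : ℝ) < (k : ℝ) + M := by positivity
      filter_upwards [hle (ε / ((k : ℝ) + M)) (by positivity)] with δ hδ
      rw [lt_div_iff₀ hkM] at hδ
      linarith
    · refine Filter.eventually_all.2 (fun i => ?_)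
      filter_upwards [hle (t i - ε) (by linarith [ht i])] with δ hδ
      exact hδ.le
    · refine Filter.eventually_all.2 (fun i => Filter.eventually_all.2 (fun j => ?_))
      by_cases hij : i = j
      · exact Filter.Eventually.of_forall (fun _ h => absurd hij h)
      · have h1 : 0 < |t i - t j| := abs_pos.2 (sub_ne_zero.2 (fun h => hij (hinj h)))
        filter_upwards [hle _ h1] with δ hδ _
        exact hδ.le
  obtain ⟨δ1, hδ1, hδ2⟩ := (nhdsGT_basis (0 : ℝ)).eventually_iff.1 hev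
  refine ⟨δ1 / 2, by linarith, fun δ hδ hδδ c hc => ?_⟩
  obtain ⟨hc1, hc2, hc3, hc4⟩ := hδ2 ⟨hδ, by linarith⟩
  set l : List (ℝ × ℝ) := (List.finRange k).map (fun i => (t i - δ, t i)) ++ List.replicate M (w - δ, w) with hl
  have hmem : ∀ a ∈ l, (∃ i, a = (t i - δ, t i)) ∨ a = (w - δ, w) := by
    intro a ha
    rw [hl, List.mem_append, List.mem_map] at ha
    rcases ha with ⟨i, -, hi⟩ | ha
    · exact Or.inl ⟨i, hi.symm⟩
    · exact Or.inr (List.eq_of_mem_replicate ha)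
  have hpos : ∀ a ∈ l, 0 < a.1 ∧ a.1 < a.2 := by
    intro a ha
    rcases hmem a ha with ⟨i, rfl⟩ | rfl
    · exact ⟨by simp only; linarith [hc3 i], by simp only; linarith⟩
    · exact ⟨by simp only; linarith, by simp only; linarith⟩
  have hwin : Win l := fun a ha => ⟨(hpos a ha).1, (hpos a ha).2.le⟩
  have hs2 : (l.map (fun w => w.2)).sum = 1 := by
    rw [hl, List.map_append, List.sum_append, List.map_map, List.map_replicate, List.sum_replicate]
    have h1 : (List.map ((fun w : ℝ × ℝ => w.2) ∘ fun i => (t i - δ, t i)) (List.finRange k)).sum = ∑ i, t i :=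
      (Fin.sum_univ_def _).symm
    rw [h1, nsmul_eq_mul, hMw]
    linarith
  have hs1 : (l.map (fun w => w.1)).sum = 1 - ((k : ℝ) + M) * δ := by
    rw [hl, List.map_append, List.sum_append, List.map_map, List.map_replicate, List.sum_replicate]
    have h1 : (List.map ((fun w : ℝ × ℝ => w.1) ∘ fun i => (t i - δ, t i)) (List.finRange k)).sum =
        ∑ i, (t i - δ) := (Fin.sum_univ_def _).symm
    rw [h1, nsmul_eq_mul, Finset.sum_sub_distrib, Finset.sum_const, Finset.card_univ, Fintype.card_fin,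
      nsmul_eq_mul]
    linear_combination hMw + hρ
  -- the structure of `n` with `TW ≠ 0`
  have key : ∀ X : ℝ, 2 ≤ X → ∀ n : ℕ, n ≠ 0 → (n : ℝ) ≤ X → TW X l n ≠ 0 →
      (∀ i, wc X (t i - δ) (t i) n = 1) ∧ wc X ε 2 n = k := by
    intro X hX n hn hnX hT
    have hX0 : 0 < X := by linarith
    have hX1 : 1 ≤ X := by linarith
    obtain ⟨s, hs0, hsn, hs⟩ := posg_tw_ne X hX1 l n hn hT
    have hsε : (s : ℝ) ≤ X ^ ε := by
      have h1 : (s : ℝ) ≤ X ^ (((k : ℝ) + M) * δ) := by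
        have h2 : 0 < X ^ (1 - ((k : ℝ) + M) * δ) := Real.rpow_pos_of_pos hX0 _
        have h3 : X ^ (((k : ℝ) + M) * δ) * X ^ (1 - ((k : ℝ) + M) * δ) = X := by
          rw [← Real.rpow_add hX0]
          rw [show ((k : ℝ) + M) * δ + (1 - ((k : ℝ) + M) * δ) = 1 by ring, Real.rpow_one]
        rw [hs1] at hsn
        exact le_of_mul_le_mul_right (by rw [h3]; linarith) h2
      exact h1.trans (Real.rpow_le_rpow_of_exponent_le hX1 hc2)
    constructor
    · intro i
      rw [hs (t i - δ) (t i) ?_, posg_wc_small X (t i - δ) (t i)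
        (hsε.trans (Real.rpow_le_rpow_of_exponent_le hX1 (by linarith [hc3 i]))), add_zero, hl,
        List.countP_append, List.countP_map]
      · have h1 : List.countP ((fun w : ℝ × ℝ => decide (t i - δ ≤ w.1 ∧ w.2 ≤ t i)) ∘ fun j => (t j - δ, t j))
            (List.finRange k) = List.count i (List.finRange k) := by
          rw [List.count]
          refine List.countP_congr (fun j _ => ?_)
          simp only [Function.comp_apply, decide_eq_true_eq, beq_iff_eq]
          constructor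
          · rintro ⟨h2, h3⟩
            exact hinj (by linarith)
          · rintro rfl
            exact ⟨le_refl _, le_refl _⟩
        have h2 : List.countP (fun w : ℝ × ℝ => decide (t i - δ ≤ w.1 ∧ w.2 ≤ t i))
            (List.replicate M (w - δ, w)) = 0 := by
          rw [List.countP_replicate, if_neg]
          simp only [decide_eq_true_eq, not_and, not_le]
          intro h3
          linarith [ht i]
        rw [h1, h2, List.count_eq_one_of_mem (List.nodup_finRange k) (List.mem_finRange i)]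
      · intro a ha
        rcases hmem a ha with ⟨j, rfl⟩ | rfl
        · by_cases hij : i = j
          · subst hij
            exact Or.inl ⟨le_refl _, le_refl _⟩
          · right
            simp only
            rcases le_abs.1 (hc4 i j hij) with h1 | h1
            · left; linarith
            · right; linarith
        · right; left
          simp only
          linarith [hc3 i]
    · rw [hs ε 2 ?_, posg_wc_small X ε 2 hsε, add_zero, hl, List.countP_append, List.countP_map]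
      · have h1 : List.countP ((fun w : ℝ × ℝ => decide (ε ≤ w.1 ∧ w.2 ≤ 2)) ∘ fun j => (t j - δ, t j))
            (List.finRange k) = k := by
          have h3 : List.countP ((fun w : ℝ × ℝ => decide (ε ≤ w.1 ∧ w.2 ≤ 2)) ∘ fun j => (t j - δ, t j))
              (List.finRange k) = (List.finRange k).length := by
            rw [List.countP_eq_length]
            intro j _
            simp only [Function.comp_apply, decide_eq_true_eq]
            exact ⟨by linarith [hc3 j], by linarith [hti j]⟩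
          rw [h3, List.length_finRange]
        have h2 : List.countP (fun w : ℝ × ℝ => decide (ε ≤ w.1 ∧ w.2 ≤ 2))
            (List.replicate M (w - δ, w)) = 0 := by
          rw [List.countP_replicate, if_neg]
          simp only [decide_eq_true_eq, not_and, not_le]
          intro h3
          linarith
        rw [h1, h2, add_zero]
      · intro a ha
        rcases hmem a ha with ⟨j, rfl⟩ | rfl
        · left
          simp only
          exact ⟨by linarith [hc3 j], by linarith [hti j]⟩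
        · right; left
          simp only
          linarith
  -- the bound
  obtain ⟨d, hd0, hd⟩ : ∃ d : ℝ, 0 < d ∧ ∀ a ∈ l, d ≤ a.1 := by
    refine ⟨min ε (w - δ), lt_min hε (by linarith), fun a ha => ?_⟩
    rcases hmem a ha with ⟨i, rfl⟩ | rfl
    · exact (min_le_left _ _).trans (by simp only; linarith [hc3 i])
    · exact min_le_right _ _
  obtain ⟨B, hB0, hB⟩ := tw_bd d hd0 l hd
  have h1 := tw_mean l hwin
  have h2 : NW l ≤ B * c := by
    refine le_of_tendsto_of_tendsto h1 (hc.const_mul B) ?_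
    filter_upwards [eventually_ge_atTop (2 : ℝ)] with x hx
    have hset : {n : ℕ | 1 ≤ n ∧ (n : ℝ) ≤ x ∧ (∀ i, wc x (t i - δ) (t i) n = 1) ∧ wc x ε 2 n = k} =
        (((Icc 1 ⌊x⌋₊).filter (fun n => (∀ i, wc x (t i - δ) (t i) n = 1) ∧ wc x ε 2 n = k) : Finset ℕ) :
          Set ℕ) := by
      ext n
      simp only [Set.mem_setOf_eq, coe_filter, mem_Icc]
      constructor
      · rintro ⟨h3, h4, h5⟩
        exact ⟨⟨h3, Nat.le_floor h4⟩, h5⟩
      · rintro ⟨⟨h3, h4⟩, h5⟩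
        exact ⟨h3, (Nat.le_floor_iff (by linarith)).1 h4, h5⟩
    rw [hset, Set.ncard_coe_finset, ← mul_div_assoc]
    apply div_le_div_of_nonneg_right _ (by linarith : (0 : ℝ) ≤ x)
    calc ∑ n ∈ Icc 1 ⌊x⌋₊, TW x l n
        ≤ ∑ n ∈ Icc 1 ⌊x⌋₊, (if (∀ i, wc x (t i - δ) (t i) n = 1) ∧ wc x ε 2 n = k then B else 0) := by
          refine Finset.sum_le_sum (fun n hn => ?_)
          rw [mem_Icc] at hn
          have hn0 : n ≠ 0 := by omega
          have hnx : (n : ℝ) ≤ x := (Nat.le_floor_iff (by linarith)).1 hn.2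
          have hnx2 : (n : ℝ) ≤ x ^ 2 := by nlinarith
          split_ifs with h
          · exact (hB x hx n hn0 hnx2).2
          · by_contra hcon
            push Not at hcon
            exact h (key x hx n hn0 hnx hcon.ne')
      _ = B * (((Icc 1 ⌊x⌋₊).filter (fun n => (∀ i, wc x (t i - δ) (t i) n = 1) ∧ wc x ε 2 n = k)).card : ℝ) := by
          rw [← Finset.sum_filter, Finset.sum_const, nsmul_eq_mul, mul_comm]
  rw [nw_prod l hwin hs2.le] at h2
  have h3 : 0 < (l.map (fun w => Real.log (w.2 / w.1))).prod := by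
    apply List.prod_pos
    intro a ha
    rw [List.mem_map] at ha
    obtain ⟨b, hb, rfl⟩ := ha
    have h4 := hpos b hb
    exact Real.log_pos ((one_lt_div h4.1).2 h4.2)
  by_contra hcon
  push Not at hcon
  nlinarith [mul_nonneg hB0 (neg_nonneg.2 hcon)]

end Pool.Agent.LPr

end
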