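import Pool.Agent.Lib_MP_92ef0c_m.M02
import Pool.Agent.Lib_MP_92ef0c_m.M04

/-!
# MP_92ef0c_nt, split pairs: merged library part M07

Concatenation of smaller files (each in its own section), only to save build time.
-/

/-! ### from `Lib_MP_f1a94e_mr.SplitA` -/

section

/-!
# Piece SPLITA: split primes
-/

set_option autoImplicit false

namespace Pool.Agent.GaussMR

theorem Spl.prime {w : G} (h : Spl w) : Prime w := by
  have hp : (nm w).Prime := h.1
  have hirr : Irreducible w := by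
    constructor
    · intro hu
      have := nm_eq_one_iff.2 hu
      rw [this] at hp
      exact Nat.not_prime_one hp
    · intro a b hab
      rw [hab, nm_mul] at hp
      rcases Nat.prime_mul_iff.1 hp with ⟨_, h1⟩ | ⟨_, h1⟩
      · exact Or.inr (nm_eq_one_iff.1 h1)
      · exact Or.inl (nm_eq_one_iff.1 h1)
  exact hirr.prime

theorem Spl.odd {w : G} (h : Spl w) : Odd (nm w) := by
  rw [Nat.odd_iff]
  have := h.2
  omega

theorem spl_nm_natCast (n : ℕ) : nm (n : G) = n ^ 2 := by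
  have h : (nm (n : G) : ℤ) = ((n ^ 2 : ℕ) : ℤ) := by
    rw [nm_eq]
    simp
  exact_mod_cast h

theorem Spl.prim {w : G} (h : Spl w) : Prim w := by
  rw [prim_iff]
  intro n hn
  have h1 := nm_dvd hn
  rw [spl_nm_natCast] at h1
  rcases (Nat.dvd_prime h.1).1 h1 with h2 | h2
  · exact (Nat.pow_eq_one.1 h2).resolve_right (by norm_num)
  · exfalso
    have h3 := h.1
    rw [← h2] at h3
    exact Nat.Prime.not_prime_pow (le_refl 2) h3

theorem Spl.conj {w : G} (h : Spl w) : Spl (star w) := by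
  unfold Spl at h ⊢
  rw [nm_star]
  exact h

/-- a split prime is not associated to its conjugate -/
theorem Spl.not_dvd_star {w : G} (h : Spl w) : ¬(w ∣ star w) := by
  intro hd
  have hpp : Prime ((nm w : ℕ) : ℤ) := Nat.prime_iff_prime_int.1 h.1
  have h2 : ¬(((nm w : ℕ) : ℤ) ∣ 2) := by
    intro h3
    have h4 : nm w ∣ 2 := by exact_mod_cast h3
    have h5 := Nat.le_of_dvd (by norm_num) h4
    have h6 := h.2
    have h7 := h.1.two_le
    omega
  have key : ∀ x : G, w ∣ x → ((nm w : ℕ) : ℤ) ∣ x.re ^ 2 + x.im ^ 2 := by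
    intro x hx
    rw [← nm_eq]
    exact_mod_cast nm_dvd hx
  have h3 : ((nm w : ℕ) : ℤ) ∣ w.re := by
    have h4 := key (star w + w) (dvd_add hd (dvd_refl w))
    have e1 : (star w + w).re = 2 * w.re := by
      simp
      ring
    have e2 : (star w + w).im = 0 := by simp
    rw [e1, e2] at h4
    have h5 : ((nm w : ℕ) : ℤ) ∣ (2 * w.re) ^ 2 := by simpa using h4
    exact (hpp.dvd_mul.1 (hpp.dvd_of_dvd_pow h5)).resolve_left h2
  have h3' : ((nm w : ℕ) : ℤ) ∣ w.im := by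
    have h4 := key (w - star w) (dvd_sub (dvd_refl w) hd)
    have e1 : (w - star w).re = 0 := by simp
    have e2 : (w - star w).im = 2 * w.im := by
      simp
      ring
    rw [e1, e2] at h4
    have h5 : ((nm w : ℕ) : ℤ) ∣ (2 * w.im) ^ 2 := by simpa using h4
    exact (hpp.dvd_mul.1 (hpp.dvd_of_dvd_pow h5)).resolve_left h2
  have h4 : IsCoprime w.re w.im := h.prim
  exact hpp.not_isUnit (h4.isUnit_of_dvd' h3 h3')

theorem spl_mul_star (w : G) : w * star w = ((nm w : ℕ) : G) := by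
  have h := nm_eq w
  ext
  · have e : (((nm w : ℕ) : G)).re = ((nm w : ℕ) : ℤ) := by simp
    rw [e, h]
    simp
    ring
  · simp
    ring

/-- `w z` is primitive iff `star w` does not divide the primitive `z`: if a prime number `q` divides
`w z` then `q ∤ z`; `q ≠ nm w` is impossible (multiply by `star w`), and for `q = nm w = w * star w`
the condition is `star w ∣ z`. -/
theorem prim_mul_iff {w z : G} (h : Spl w) (hz : Prim z) : Prim (w * z) ↔ ¬(star w ∣ z) := by
  have hw0 : w ≠ 0 := h.prime.ne_zero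
  constructor
  · rintro h1 ⟨u, rfl⟩
    have h2 := prim_iff.1 h1 (nm w) ⟨u, by rw [← spl_mul_star]; ring⟩
    have h3 := h.1
    rw [h2] at h3
    exact Nat.not_prime_one h3
  · intro h1
    rw [prim_iff]
    intro n hn
    by_contra hn1
    obtain ⟨q, hq, hqn⟩ := Nat.exists_prime_and_dvd hn1
    have h2 : ((q : ℕ) : G) ∣ w * z := dvd_trans (by exact_mod_cast Nat.cast_dvd_cast hqn) hn
    by_cases hqp : q = nm w
    · rw [hqp, ← spl_mul_star] at h2
      exact h1 ((mul_dvd_mul_iff_left hw0).1 h2)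
    · have h3 : ((q : ℕ) : G) ∣ ((nm w : ℕ) : G) * z := by
        rw [← spl_mul_star]
        have : w * star w * z = star w * (w * z) := by ring
        rw [this]
        exact Dvd.dvd.mul_left h2 _
      have h4 : Nat.Coprime q (nm w) := (Nat.coprime_primes hq h.1).2 hqp
      have h5 : IsCoprime ((q : ℕ) : G) ((nm w : ℕ) : G) := by
        have h6 : IsCoprime ((q : ℕ) : ℤ) ((nm w : ℕ) : ℤ) := Nat.isCoprime_iff_coprime.2 h4
        have h7 := h6.map (Int.castRingHom G)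
        simpa using h7
      have h6 : ((q : ℕ) : G) ∣ z := h5.dvd_of_dvd_mul_left h3
      have h7 := prim_iff.1 hz q h6
      exact hq.one_lt.ne' h7

theorem Spl.coprime {w w' : G} (h : Spl w) (h' : Spl w') (hn : nm w ≠ nm w') : IsCoprime w w' := by
  rw [h.prime.irreducible.coprime_iff_not_dvd]
  intro hd
  have h1 := nm_dvd hd
  rcases (Nat.dvd_prime h'.1).1 h1 with h2 | h2
  · have h3 := h.1
    rw [h2] at h3
    exact Nat.not_prime_one h3
  · exact hn h2

end Pool.Agent.GaussMR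

end

/-! ### from `Lib_MP_f1a94e_mr.Split` -/

section

/-!
# Piece SPLITB: the canonical split primes PP
-/

set_option autoImplicit false

namespace Pool.Agent.GaussMR

theorem mem_PP {P Q : ℝ} {w : G} : w ∈ PP P Q ↔
    P < (nm w : ℝ) ∧ (nm w : ℝ) ≤ Q ∧ (nm w).Prime ∧ 0 < w.im ∧ w.im < w.re := by
  classical
  simp only [PP, Finset.mem_filter, mem_ball]
  tauto

theorem PP_spl {P Q : ℝ} {w : G} (h : w ∈ PP P Q) : Spl w := by
  obtain ⟨_, _, hp, h1, h2⟩ := mem_PP.1 h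
  refine ⟨hp, ?_⟩
  have hn : (nm w : ℤ) = w.re ^ 2 + w.im ^ 2 := nm_eq w
  have h5 : (2 : ℤ) < nm w := by
    rw [hn]
    nlinarith
  have hodd : nm w % 2 = 1 := by
    rcases hp.eq_two_or_odd with h3 | h3
    · rw [h3] at h5
      norm_num at h5
    · exact h3
  have hodd' : (nm w : ℤ) % 2 = 1 := by omega
  have key : ∀ a b : ℤ, (a ^ 2 + b ^ 2) % 2 = 1 → (a ^ 2 + b ^ 2) % 4 = 1 := by
    intro a b hab
    rcases Int.even_or_odd' a with ⟨x, rfl | rfl⟩ <;> rcases Int.even_or_odd' b with ⟨y, rfl | rfl⟩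
    · exfalso
      have : (2 * x) ^ 2 + (2 * y) ^ 2 = 2 * (2 * x ^ 2 + 2 * y ^ 2) := by ring
      omega
    · have : (2 * x) ^ 2 + (2 * y + 1) ^ 2 = 4 * (x ^ 2 + y ^ 2 + y) + 1 := by ring
      omega
    · have : (2 * x + 1) ^ 2 + (2 * y) ^ 2 = 4 * (x ^ 2 + x + y ^ 2) + 1 := by ring
      omega
    · exfalso
      have : (2 * x + 1) ^ 2 + (2 * y + 1) ^ 2 = 2 * (2 * x ^ 2 + 2 * x + 2 * y ^ 2 + 2 * y + 1) := by
        ring
      omega
  have h6 : (nm w : ℤ) % 4 = 1 := by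
    rw [hn]
    apply key
    rw [← hn]
    exact hodd'
  omega

/-- a multiple of `w` with the same norm is `± w` or `± i w` -/
theorem split_assoc {w z : G} (hd : w ∣ z) (hn : nm z = nm w) (hw : nm w ≠ 0) :
    (z.re = w.re ∧ z.im = w.im) ∨ (z.re = -w.re ∧ z.im = -w.im) ∨
      (z.re = -w.im ∧ z.im = w.re) ∨ (z.re = w.im ∧ z.im = -w.re) := by
  obtain ⟨c, rfl⟩ := hd
  have hc : nm c = 1 := by
    rw [nm_mul] at hn
    exact Nat.eq_of_mul_eq_mul_left (Nat.pos_of_ne_zero hw) (by rw [hn, mul_one])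
  have hc' : c.re ^ 2 + c.im ^ 2 = 1 := by
    rw [← nm_eq, hc]
    rfl
  have hre : (w * c).re = w.re * c.re - w.im * c.im := by
    simp
    ring
  have him : (w * c).im = w.re * c.im + w.im * c.re := by simp
  rw [hre, him]
  have h1 : -1 ≤ c.re := by nlinarith [sq_nonneg c.im]
  have h2 : c.re ≤ 1 := by nlinarith [sq_nonneg c.im]
  have h3 : -1 ≤ c.im := by nlinarith [sq_nonneg c.re]
  have h4 : c.im ≤ 1 := by nlinarith [sq_nonneg c.re]
  have h5 : c.re = -1 ∨ c.re = 0 ∨ c.re = 1 := by omega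
  have h6 : c.im = -1 ∨ c.im = 0 ∨ c.im = 1 := by omega
  rcases h5 with h5 | h5 | h5 <;> rcases h6 with h6 | h6 | h6 <;> rw [h5, h6] at hc' ⊢ <;>
    first
    | (left; constructor <;> ring1)
    | (right; left; constructor <;> ring1)
    | (right; right; left; constructor <;> ring1)
    | (right; right; right; constructor <;> ring1)
    | (exfalso; norm_num at hc')

theorem PP_not_dvd_star {P Q P' Q' : ℝ} {w w' : G} (h : w ∈ PP P Q) (h' : w' ∈ PP P' Q') :
    ¬(w ∣ star w') := by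
  intro hd
  obtain ⟨_, _, hp, h1, h2⟩ := mem_PP.1 h
  obtain ⟨_, _, hp', h1', h2'⟩ := mem_PP.1 h'
  have hn : nm (star w') = nm w := by
    have h3 := nm_dvd hd
    rw [nm_star] at h3
    rw [nm_star]
    exact ((Nat.prime_dvd_prime_iff_eq hp hp').1 h3).symm
  have h4 := split_assoc hd hn hp.ne_zero
  have hre : (star w').re = w'.re := rfl
  have him : (star w').im = -w'.im := rfl
  rw [hre, him] at h4
  omega

theorem PP_inj {P Q P' Q' : ℝ} {w w' : G} (h : w ∈ PP P Q) (h' : w' ∈ PP P' Q')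
    (hn : nm w = nm w') : w = w' := by
  obtain ⟨_, _, hp, h1, h2⟩ := mem_PP.1 h
  obtain ⟨_, _, hp', h1', h2'⟩ := mem_PP.1 h'
  have hpr : Prime w := (PP_spl h).prime
  have hdd : w ∣ w' * star w' := by
    have e1 : w * star w = w' * star w' := by
      have e2 : ∀ z : G, z * star z = ((nm z : ℤ) : G) := by
        intro z
        apply Zsqrtd.ext
        · rw [Zsqrtd.re_intCast, nm_eq]
          simp
          ring
        · rw [Zsqrtd.im_intCast]
          simp
          ring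
      rw [e2, e2, hn]
    rw [← e1]
    exact dvd_mul_right _ _
  rcases hpr.dvd_or_dvd hdd with hd | hd
  · have h4 := split_assoc hd hn.symm hp.ne_zero
    apply Zsqrtd.ext <;> omega
  · exact absurd hd (PP_not_dvd_star h h')

theorem PP_dvd {P Q P' Q' : ℝ} {w w' : G} (h : w ∈ PP P Q) (h' : w' ∈ PP P' Q')
    (hd : w ∣ w') : w = w' := by
  obtain ⟨_, _, hp, _, _⟩ := mem_PP.1 h
  obtain ⟨_, _, hp', _, _⟩ := mem_PP.1 h'
  exact PP_inj h h' ((Nat.prime_dvd_prime_iff_eq hp hp').1 (nm_dvd hd))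

/-- Fermat -/
theorem PP_exists {P Q : ℝ} {p : ℕ} (hp : p.Prime) (h1 : p % 4 = 1) (hP : P < (p : ℝ))
    (hQ : (p : ℝ) ≤ Q) : ∃ w ∈ PP P Q, nm w = p := by
  have : Fact p.Prime := ⟨hp⟩
  obtain ⟨a, b, hab⟩ := Nat.Prime.sq_add_sq (p := p) (by omega)
  have aux : ∀ a b : ℕ, a ^ 2 + b ^ 2 = p → b < a → ∃ w ∈ PP P Q, nm w = p := by
    intro a b hab hlt
    have hb : 0 < b := by
      rcases Nat.eq_zero_or_pos b with h0 | h0
      · exfalso
        rw [h0] at hab
        have h2 : p = a * a := by rw [← hab]; ring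
        have h3 : a ∣ p := ⟨a, h2⟩
        rcases (Nat.dvd_prime hp).1 h3 with h4 | h4
        · rw [h4] at h2
          exact hp.one_lt.ne' (by omega)
        · rw [h4] at h2
          have := hp.one_lt
          nlinarith
      · exact h0
    refine ⟨⟨(a : ℤ), (b : ℤ)⟩, ?_, ?_⟩
    · have hn : nm (⟨(a : ℤ), (b : ℤ)⟩ : G) = p := by
        have h2 : (nm (⟨(a : ℤ), (b : ℤ)⟩ : G) : ℤ) = (p : ℤ) := by
          rw [nm_eq, ← hab]
          push_cast
          ring
        exact_mod_cast h2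
      rw [mem_PP, hn]
      refine ⟨hP, hQ, hp, ?_, ?_⟩
      · show (0 : ℤ) < (b : ℤ)
        exact_mod_cast hb
      · show (b : ℤ) < (a : ℤ)
        exact_mod_cast hlt
    · have h2 : (nm (⟨(a : ℤ), (b : ℤ)⟩ : G) : ℤ) = (p : ℤ) := by
        rw [nm_eq, ← hab]
        push_cast
        ring
      exact_mod_cast h2
  rcases lt_trichotomy a b with h | h | h
  · exact aux b a (by omega) h
  · exfalso
    rw [h] at hab
    omega
  · exact aux a b hab h

theorem Ls_eq (P Q : ℝ) (hP : 0 ≤ P) (hQ : 0 ≤ Q) : Ls P Q =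
    ∑ p ∈ (Finset.Icc 1 ⌊Q⌋₊).filter (fun p => p.Prime ∧ p % 4 = 1 ∧ ⌊P⌋₊ < p), (1 : ℝ) / p := by
  unfold Ls
  refine Finset.sum_bij (fun w _ => nm w) ?_ ?_ ?_ ?_
  · intro w hw
    have hs := PP_spl hw
    obtain ⟨h1, h2, h3, _, _⟩ := mem_PP.1 hw
    rw [Finset.mem_filter, Finset.mem_Icc]
    exact ⟨⟨h3.one_lt.le, Nat.le_floor h2⟩, h3, hs.2, (Nat.floor_lt hP).2 h1⟩
  · intro w hw w' hw' he
    exact PP_inj hw hw' he
  · intro p hp
    rw [Finset.mem_filter, Finset.mem_Icc] at hp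
    obtain ⟨⟨_, h2⟩, h3, h4, h5⟩ := hp
    obtain ⟨w, hw, hn⟩ := PP_exists (P := P) (Q := Q) h3 h4 ((Nat.floor_lt hP).1 h5)
      ((Nat.cast_le.2 h2).trans (Nat.floor_le hQ))
    exact ⟨w, hw, hn⟩
  · intro w _
    rfl

theorem card_le_of_PP {P Q Y : ℝ} {s : Finset G} (hs : s ⊆ PP P Q) (hY : 0 ≤ Y)
    (h : ∀ w ∈ s, (nm w : ℝ) ≤ Y) : (s.card : ℝ) ≤ Y := by
  have h1 : s.card ≤ (Finset.Icc 1 ⌊Y⌋₊).card := by
    refine Finset.card_le_card_of_injOn (fun w => nm w) ?_ ?_
    · intro w hw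
      obtain ⟨_, _, h3, _, _⟩ := mem_PP.1 (hs hw)
      simp only [Finset.coe_Icc, Set.mem_Icc]
      exact ⟨h3.one_lt.le, Nat.le_floor (h w hw)⟩
    · intro w hw w' hw' he
      exact PP_inj (hs hw) (hs hw') he
  rw [Nat.card_Icc, Nat.add_sub_cancel] at h1
  exact (Nat.cast_le.2 h1).trans (Nat.floor_le hY)

/-- distinct elements have distinct norms -/
theorem card_PP_le (P Q : ℝ) (hQ : 0 ≤ Q) : ((PP P Q).card : ℝ) ≤ Q :=
  card_le_of_PP (Finset.Subset.refl _) hQ fun _ hw => (mem_PP.1 hw).2.1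

theorem card_blk_le (P Q ρ : ℝ) (v : ℕ) : ((blk P Q ρ v).card : ℝ) ≤ Real.exp ((v + 1) * ρ) := by
  classical
  refine card_le_of_PP (P := P) (Q := Q) ?_ (Real.exp_pos _).le ?_
  · unfold blk
    exact Finset.filter_subset _ _
  · intro w hw
    unfold blk at hw
    exact (Finset.mem_filter.1 hw).2.2

end Pool.Agent.GaussMR

end

/-! ### from `Lib_MP_f1a94e_mr.StageId` -/

section

/-!
# Piece STAGEID: the identity behind a stage
-/

set_option autoImplicit false

namespace Pool.Agent.GaussMR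

open Classical in
/-- terms `w z` with `star w ∣ z` (not primitive) -/
noncomputable def A2 (F : G → ℝ) (P Q ρ X : ℝ) (k : ℤ) : ℂ :=
  ∑ v ∈ Finset.range (nv Q ρ), ∑ w ∈ blk P Q ρ v, (F w : ℂ) * xi (-k) w *
    ∑ z ∈ (V (X * Real.exp (-(v * ρ)))).filter (fun z => star w ∣ z), (F z : ℂ) * xi (-k) z

open Classical in
/-- multiplicity of `z` in the annulus -/
noncomputable def mA (P Q ρ X : ℝ) (z : G) : ℕ :=
  ∑ v ∈ Finset.range (nv Q ρ), ((blk P Q ρ v).filter (fun w => w ∣ z ∧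
    (nm z : ℝ) ≤ X * Real.exp (-(v * ρ)) * nm w)).card

/-- terms `w z` primitive of norm larger than `X` -/
noncomputable def A3 (F : G → ℝ) (P Q ρ X : ℝ) (k : ℤ) : ℂ :=
  ∑ z ∈ V (X * Real.exp ρ) \ V X, (F z : ℂ) * (mA P Q ρ X z : ℂ) * xi (-k) z

theorem mem_blk {P Q ρ : ℝ} {v : ℕ} {w : G} : w ∈ blk P Q ρ v ↔
    w ∈ PP P Q ∧ Real.exp (v * ρ) < (nm w : ℝ) ∧ (nm w : ℝ) ≤ Real.exp ((v + 1) * ρ) := by
  classical
  unfold blk
  rw [Finset.mem_filter]

theorem blk_unique {P Q ρ : ℝ} (hρ : 0 < ρ) {v v' : ℕ} {w : G} (h : w ∈ blk P Q ρ v)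
    (h' : w ∈ blk P Q ρ v') : v = v' := by
  rw [mem_blk] at h h'
  have key : ∀ {a b : ℕ}, Real.exp (a * ρ) < (nm w : ℝ) → (nm w : ℝ) ≤ Real.exp ((b + 1) * ρ) →
      a ≤ b := by
    intro a b h1 h2
    have h3 : (a : ℝ) * ρ < (b + 1) * ρ := Real.exp_lt_exp.mp (h1.trans_le h2)
    have h4 : (a : ℝ) < b + 1 := lt_of_mul_lt_mul_right h3 hρ.le
    exact_mod_cast Nat.lt_succ_iff.mp (by exact_mod_cast h4)
  exact le_antisymm (key h.2.1 h'.2.2) (key h'.2.1 h.2.2)

theorem blk_exists {P Q ρ : ℝ} (hP : 1 ≤ P) (hρ : 0 < ρ) {w : G} (h : w ∈ PP P Q) :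
    ∃ v ∈ Finset.range (nv Q ρ), w ∈ blk P Q ρ v := by
  obtain ⟨h1, h2, -, -, -⟩ := mem_PP.mp h
  have hw1 : (1 : ℝ) < nm w := hP.trans_lt h1
  have hw0 : (0 : ℝ) < nm w := by linarith
  have hlog : 0 < Real.log (nm w) := Real.log_pos hw1
  set c : ℕ := ⌈Real.log (nm w) / ρ⌉₊ with hc
  have hc0 : 0 < c := Nat.ceil_pos.mpr (by positivity)
  obtain ⟨v, hv⟩ : ∃ v, c = v + 1 := ⟨c - 1, by omega⟩
  have hle : Real.log (nm w) / ρ ≤ (v : ℝ) + 1 := by
    have := Nat.le_ceil (Real.log (nm w) / ρ)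
    rw [← hc, hv] at this
    exact_mod_cast this
  have hlt : (v : ℝ) < Real.log (nm w) / ρ := by
    have : v < c := by omega
    exact Nat.lt_ceil.mp this
  rw [div_le_iff₀ hρ] at hle
  rw [lt_div_iff₀ hρ] at hlt
  refine ⟨v, ?_, mem_blk.mpr ⟨h, ?_, ?_⟩⟩
  · rw [Finset.mem_range, nv, Nat.lt_succ_iff]
    refine Nat.le_floor ?_
    rw [le_div_iff₀ hρ]
    exact hlt.le.trans (Real.log_le_log hw0 h2)
  · rw [← Real.lt_log_iff_exp_lt hw0]
    exact hlt
  · rw [← Real.log_le_iff_le_exp hw0]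
    exact hle

open Classical in
theorem mA_eq (P Q ρ X : ℝ) (hρ : 0 < ρ) (z : G) :
    mA P Q ρ X z = ((Finset.range (nv Q ρ)).biUnion fun v => (blk P Q ρ v).filter (fun w => w ∣ z ∧
      (nm z : ℝ) ≤ X * Real.exp (-(v * ρ)) * nm w)).card := by
  rw [Finset.card_biUnion]
  · rfl
  · intro v _ v' _ hvv
    rw [Function.onFun, Finset.disjoint_left]
    intro w hw hw'
    exact hvv (blk_unique hρ (Finset.mem_filter.mp hw).1 (Finset.mem_filter.mp hw').1)

theorem om_finite (P Q : ℝ) (z : G) : {w : G | w ∈ PP P Q ∧ w ∣ z}.Finite :=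
  (PP P Q).finite_toSet.subset fun _ hw => hw.1

/-- `mA ≤ om`: the blocks are disjoint subsets of `PP` -/
theorem mA_le (P Q ρ X : ℝ) (hρ : 0 < ρ) (z : G) (hz : z ≠ 0) : (mA P Q ρ X z : ℝ) ≤ om P Q z := by
  classical
  rw [mA_eq P Q ρ X hρ z, om, Nat.cast_le, ← Set.ncard_coe_finset]
  refine Set.ncard_le_ncard ?_ (om_finite P Q z)
  intro w hw
  rw [Finset.mem_coe, Finset.mem_biUnion] at hw
  obtain ⟨v, _, hw⟩ := hw
  rw [Finset.mem_filter] at hw
  exact ⟨(mem_blk.mp hw.1).1, hw.2.1⟩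

theorem mA_eq_om (P Q ρ X : ℝ) (hP : 1 ≤ P) (hρ : 0 < ρ) (hX : 0 ≤ X) (z : G)
    (hz : (nm z : ℝ) ≤ X) : (mA P Q ρ X z : ℝ) = om P Q z := by
  classical
  rw [mA_eq P Q ρ X hρ z, om, Nat.cast_inj, ← Set.ncard_coe_finset]
  congr 1
  ext w
  rw [Finset.mem_coe, Finset.mem_biUnion, Set.mem_ofPred_eq]
  constructor
  · rintro ⟨v, _, hw⟩
    rw [Finset.mem_filter] at hw
    exact ⟨(mem_blk.mp hw.1).1, hw.2.1⟩
  · rintro ⟨hw, hd⟩
    obtain ⟨v, hv, hvw⟩ := blk_exists hP hρ hw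
    refine ⟨v, hv, Finset.mem_filter.mpr ⟨hvw, hd, hz.trans ?_⟩⟩
    have h1 : Real.exp (v * ρ) < nm w := (mem_blk.mp hvw).2.1
    calc X = X * Real.exp (-(v * ρ)) * Real.exp (v * ρ) := by
          rw [mul_assoc, ← Real.exp_add, neg_add_cancel, Real.exp_zero, mul_one]
      _ ≤ X * Real.exp (-(v * ρ)) * nm w := by gcongr

open Classical in
/-- the substitution `z' = w z` -/
theorem sub_sum (F : G → ℝ) (hF : PM F) {w : G} (hw : Spl w) (Y Y' : ℝ) (k : ℤ)
    (hYY : Y * nm w ≤ Y') :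
    ∑ z ∈ (V Y).filter (fun z => ¬ star w ∣ z), ((F w : ℂ) * xi (-k) w) * ((F z : ℂ) * xi (-k) z) =
      ∑ z ∈ (V Y').filter (fun z => w ∣ z ∧ (nm z : ℝ) ≤ Y * nm w), (F z : ℂ) * xi (-k) z := by
  have hw0 : w ≠ 0 := ne_zero_of_odd hw.odd
  have hnw : (0 : ℝ) < nm w := by exact_mod_cast nm_pos hw0
  refine Finset.sum_bij (fun z _ => w * z) ?_ ?_ ?_ ?_
  · intro z hz
    rw [Finset.mem_filter, mem_V] at hz
    obtain ⟨⟨h1, h2, h3⟩, h4⟩ := hz
    have h5 : (nm (w * z) : ℝ) ≤ Y * nm w := by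
      rw [nm_mul]
      push_cast
      nlinarith
    rw [Finset.mem_filter, mem_V]
    exact ⟨⟨h5.trans hYY, odd_nm_mul.mpr ⟨hw.odd, h2⟩, (prim_mul_iff hw h3).mpr h4⟩,
      dvd_mul_right _ _, h5⟩
  · intro z _ z' _ h
    exact mul_left_cancel₀ hw0 h
  · intro z' hz'
    rw [Finset.mem_filter, mem_V] at hz'
    obtain ⟨⟨h1, h2, h3⟩, ⟨z, rfl⟩, h5⟩ := hz'
    have hz2 : Prim z := (prim_of_mul h3).2
    refine ⟨z, ?_, rfl⟩
    rw [Finset.mem_filter, mem_V]
    refine ⟨⟨?_, (odd_nm_mul.mp h2).2, hz2⟩, (prim_mul_iff hw hz2).mp h3⟩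
    rw [nm_mul] at h5
    push_cast at h5
    have h6 : (nm w : ℝ) * nm z ≤ nm w * Y := by linarith
    exact le_of_mul_le_mul_left h6 hnw
  · intro z hz
    rw [Finset.mem_filter, mem_V] at hz
    rw [hF.mul w z hw.odd hz.1.2.1, xi_mul]
    push_cast
    ring

/-- Every `w ∈ PP P Q` (`P ≥ 1`) lies in exactly one block `v < nv Q ρ`. Expand
`UZ = ∑_v ∑_{w ∈ blk v} ∑_{z ∈ V (X e^(-vρ))} F w F z xi_{-k}(w z)` and split the `z`: `star w ∣ z`
(`A2`); else `w z` is odd primitive (`prim_mul_iff`) of norm `≤ X e^ρ`: norm `> X` (`A3`), or `w z ∈ V X`.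
For `w ∈ blk v` the map `z ↦ w z` is a bijection from `{z ∈ V (X e^(-vρ)) : ¬ star w ∣ z, nm (w z) ≤ X}` to
`{z' ∈ V X : w ∣ z'}` because `nm z' ≤ X` and `nm w > e^(vρ)`. -/
theorem stage_id (F : G → ℝ) (hF : PM F) (P Q ρ X : ℝ) (k : ℤ) (hP : 1 ≤ P) (hPQ : P ≤ Q)
    (hρ : 0 < ρ) (hX : 1 ≤ X) :
    UZ F P Q ρ X k = ∑ z ∈ V X, (F z : ℂ) * (om P Q z : ℂ) * xi (-k) z + A2 F P Q ρ X k +
      A3 F P Q ρ X k := by
  classical
  -- the double sum without the non primitive terms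
  have h1 : UZ F P Q ρ X k = A2 F P Q ρ X k + ∑ v ∈ Finset.range (nv Q ρ), ∑ w ∈ blk P Q ρ v,
      ∑ z ∈ (V (X * Real.exp ρ)).filter (fun z => w ∣ z ∧
        (nm z : ℝ) ≤ X * Real.exp (-(v * ρ)) * nm w), (F z : ℂ) * xi (-k) z := by
    unfold UZ A2
    rw [← Finset.sum_add_distrib]
    refine Finset.sum_congr rfl fun v _ => ?_
    unfold U
    rw [Finset.sum_mul, ← Finset.sum_add_distrib]
    refine Finset.sum_congr rfl fun w hw => ?_
    have hs : Spl w := PP_spl (mem_blk.mp hw).1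
    have hYY : X * Real.exp (-(v * ρ)) * nm w ≤ X * Real.exp ρ := by
      have h2 := (mem_blk.mp hw).2.2
      calc X * Real.exp (-(v * ρ)) * nm w ≤ X * Real.exp (-(v * ρ)) * Real.exp ((v + 1) * ρ) := by
            gcongr
        _ = X * Real.exp ρ := by
            rw [mul_assoc, ← Real.exp_add]
            congr 2
            ring
    rw [← sub_sum F hF hs _ _ k hYY, fc, ← Finset.sum_filter_add_sum_filter_not _
      (fun z => star w ∣ z), mul_add]
    congr 1
    rw [Finset.mul_sum]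
  have h2 : ∑ v ∈ Finset.range (nv Q ρ), ∑ w ∈ blk P Q ρ v,
      ∑ z ∈ (V (X * Real.exp ρ)).filter (fun z => w ∣ z ∧
        (nm z : ℝ) ≤ X * Real.exp (-(v * ρ)) * nm w), (F z : ℂ) * xi (-k) z =
      ∑ z ∈ V (X * Real.exp ρ), (F z : ℂ) * (mA P Q ρ X z : ℂ) * xi (-k) z := by
    have e1 : ∀ v : ℕ, ∑ w ∈ blk P Q ρ v,
        ∑ z ∈ (V (X * Real.exp ρ)).filter (fun z => w ∣ z ∧
          (nm z : ℝ) ≤ X * Real.exp (-(v * ρ)) * nm w), (F z : ℂ) * xi (-k) z =
        ∑ z ∈ V (X * Real.exp ρ), (((blk P Q ρ v).filter (fun w => w ∣ z ∧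
          (nm z : ℝ) ≤ X * Real.exp (-(v * ρ)) * nm w)).card : ℂ) * ((F z : ℂ) * xi (-k) z) := by
      intro v
      simp only [Finset.sum_filter]
      rw [Finset.sum_comm]
      refine Finset.sum_congr rfl fun z _ => ?_
      rw [← Finset.sum_filter, Finset.sum_const, nsmul_eq_mul]
    simp only [e1]
    rw [Finset.sum_comm]
    refine Finset.sum_congr rfl fun z _ => ?_
    rw [← Finset.sum_mul, mA]
    push_cast
    ring
  have hsub : V X ⊆ V (X * Real.exp ρ) := by
    intro z hz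
    rw [mem_V] at hz ⊢
    refine ⟨hz.1.trans ?_, hz.2⟩
    have : 1 ≤ Real.exp ρ := Real.one_le_exp hρ.le
    nlinarith
  have h3 : ∑ z ∈ V X, (F z : ℂ) * (om P Q z : ℂ) * xi (-k) z =
      ∑ z ∈ V X, (F z : ℂ) * (mA P Q ρ X z : ℂ) * xi (-k) z := by
    refine Finset.sum_congr rfl fun z hz => ?_
    have e2 := mA_eq_om P Q ρ X hP hρ (by linarith) z (mem_V.mp hz).1
    rw [← e2]
    push_cast
    ring
  rw [h1, h2, ← Finset.sum_sdiff hsub, h3, A3]
  ring

end Pool.Agent.GaussMR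

end

/-! ### from `Lib_MP_f1a94e_ecc.Defs` -/

section

/-!
# The chain of stages for completely multiplicative complex functions: definitions

Port of `Lib_MP_f1a94e_mr` / `Lib_MP_f1a94e_mu` from sign functions to functions `F : G → ℂ` which are
completely multiplicative on the Gaussian integers of odd norm and bounded by one.
-/

set_option autoImplicit false

namespace Pool.Agent.GaussCM

open Pool.Agent.GaussMR

/-- completely multiplicative complex functions bounded by one on the Gaussian integers of odd norm -/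
structure CM (F : G → ℂ) : Prop where
  mul : ∀ z w, Odd (nm z) → Odd (nm w) → F (z * w) = F z * F w
  bd : ∀ z, Odd (nm z) → ‖F z‖ ≤ 1

/-- unnormalised Fourier coefficient of `F` on `V X` -/
noncomputable def fcC (F : G → ℂ) (X : ℝ) (k : ℤ) : ℂ := ∑ z ∈ V X, F z * xi (-k) z

/-- the prime polynomial of a block -/
noncomputable def UC (F : G → ℂ) (P Q ρ : ℝ) (v : ℕ) (k : ℤ) : ℂ :=
  ∑ w ∈ blk P Q ρ v, F w * xi (-k) w

/-- the factorised main term of a stage -/
noncomputable def UZC (F : G → ℂ) (P Q ρ X : ℝ) (k : ℤ) : ℂ :=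
  ∑ v ∈ Finset.range (nv Q ρ), UC F P Q ρ v k * fcC F (X * Real.exp (-(v * ρ))) k

open Classical in
/-- terms `w z` with `star w ∣ z` (not primitive) -/
noncomputable def A2C (F : G → ℂ) (P Q ρ X : ℝ) (k : ℤ) : ℂ :=
  ∑ v ∈ Finset.range (nv Q ρ), ∑ w ∈ blk P Q ρ v, F w * xi (-k) w *
    ∑ z ∈ (V (X * Real.exp (-(v * ρ)))).filter (fun z => star w ∣ z), F z * xi (-k) z

/-- terms `w z` primitive of norm larger than `X` -/
noncomputable def A3C (F : G → ℂ) (P Q ρ X : ℝ) (k : ℤ) : ℂ :=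
  ∑ z ∈ V (X * Real.exp ρ) \ V X, F z * (mA P Q ρ X z : ℂ) * xi (-k) z

open Classical in
/-- frequencies for which all prime polynomials of stage `j` are small -/
noncomputable def smallSetC (F : G → ℂ) (T : ℕ) (P Q r a : ℝ) : Finset ℤ :=
  (fr T).filter (fun k => ∀ v : ℕ, ‖UC F P Q r v k‖ ≤ Real.exp ((1 - a) * (v * r)))

theorem CM.mul_eq {F : G → ℂ} (hF : CM F) {z w : G} (hz : Odd (nm z)) (hw : Odd (nm w)) :
    F (z * w) = F z * F w := hF.mul z w hz hw

theorem CM.norm {F : G → ℂ} (hF : CM F) {z : G} (h : Odd (nm z)) : ‖F z‖ ≤ 1 := hF.bd z h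

end Pool.Agent.GaussCM

end

/-! ### from `Lib_MP_f1a94e_ecm.MDefs` -/

section

/-!
# MP_f1a94e_nt, Edge Chowla, block M: definitions
Matomaki-Radziwill in arcs of bounded length for `(-1) ^ Ω(nm z)` in residue classes.
-/

set_option autoImplicit false

namespace Pool.Agent.ECM

open Finset Pool.Agent.GaussMR Pool.Agent.GaussCM Pool.Agent.OmAll

/-- completely multiplicative functions of period `D` which vanish on the even elements (`D` even in the applications) -/
structure Chi (D : ℕ) (χ : G → ℂ) : Prop where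
  one : χ 1 = 1
  mul : ∀ z w, χ (z * w) = χ z * χ w
  per : ∀ z w, cg D z w → χ z = χ w
  even : ∀ z, ¬ Odd (nm z) → χ z = 0
  le : ∀ z, ‖χ z‖ ≤ 1

/-- `z` is invertible modulo `D` -/
def Inv (D : ℕ) (z : G) : Prop := ∃ w : G, cg D (z * w) 1

/-- principal characters -/
def Pri (D : ℕ) (χ : G → ℂ) : Prop := ∀ z, Inv D z → χ z = 1

/-- the imaginary unit -/
def ii : G := ⟨0, 1⟩

/-- `i * star w`: exchange of the coordinates -/
def fl (w : G) : G := ⟨w.im, w.re⟩

/-- Liouville function of the norm times a character -/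
noncomputable def FL (χ : G → ℂ) (z : G) : ℂ := (-1 : ℂ) ^ ArithmeticFunction.cardFactors (nm z) * χ z

/-- `arg z` lies in `[θ, θ + w)` modulo `2 π` -/
def InArc (θ w : ℝ) (z : G) : Prop :=
  ∃ j : ℤ, θ ≤ Complex.arg (z : ℂ) + 2 * Real.pi * j ∧ Complex.arg (z : ℂ) + 2 * Real.pi * j < θ + w

open Classical in
/-- the sum over an arc -/
noncomputable def arcS (F : G → ℂ) (X w θ : ℝ) : ℂ := ∑ z ∈ V X, if InArc θ w z then F z else 0

/-- `u` is free of primes of norm less than `y` -/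
def Rough (y : ℝ) (u : G) : Prop := ∀ p : G, Prime p → p ∣ u → y ≤ (nm p : ℝ)

theorem fl_eq (w : G) : fl w = ii * star w := by
  apply Zsqrtd.ext <;> simp [fl, ii]

theorem nm_fl (w : G) : nm (fl w) = nm w := by
  have h : (nm (fl w) : ℤ) = nm w := by
    rw [nm_eq, nm_eq]; simp [fl]; ring
  exact_mod_cast h

theorem fl_fl (w : G) : fl (fl w) = w := rfl

theorem nm_ii : nm ii = 1 := by
  have h : (nm ii : ℤ) = 1 := by
    rw [nm_eq]; simp [ii]
  exact_mod_cast h

end Pool.Agent.ECM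

end

/-! ### from `Lib_MP_f1a94e_ecm.ChiN` -/

section

/-!
# Piece M-CHIN: characters have modulus one on large primes; products of numbers near one
-/

set_option autoImplicit false

namespace Pool.Agent.ECM

open Finset Pool.Agent.GaussMR Pool.Agent.GaussCM Pool.Agent.OmAll

private theorem chin_cop (D : ℕ) (hD : 0 < D) (p : G) (hp : Prime p) (h : (D : ℝ) ^ 2 < (nm p : ℝ)) :
    Nat.Coprime (nm p) D := by
  have h0 : D ^ 2 < nm p := by exact_mod_cast h
  have hself : p * star p = ((nm p : ℕ) : G) := by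
    apply Zsqrtd.ext
    · have := nm_eq p
      simp [this]; ring
    · simp; ring
  have hnp : nm p ≠ 0 := by omega
  -- `p` divides a rational prime `q`
  have hdiv : p ∣ ((nm p : ℕ) : G) := ⟨star p, hself.symm⟩
  have hq : ∃ q : ℕ, q.Prime ∧ p ∣ ((q : ℕ) : G) := by
    have h1 : ((nm p : ℕ) : G) = (((nm p).primeFactorsList.map (fun q : ℕ => ((q : ℕ) : G)))).prod := by
      conv_lhs => rw [← Nat.prod_primeFactorsList hnp]
      rw [Nat.cast_list_prod]
    rw [h1] at hdiv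
    obtain ⟨a, ha, hpa⟩ := (Prime.dvd_prod_iff hp).1 hdiv
    rw [List.mem_map] at ha
    obtain ⟨q, hq, rfl⟩ := ha
    exact ⟨q, Nat.prime_of_mem_primeFactorsList hq, hpa⟩
  obtain ⟨q, hq, hpq⟩ := hq
  have h2 : nm p ∣ q ^ 2 := by
    have h3 := nm_dvd hpq
    have h4 : nm ((q : ℕ) : G) = q ^ 2 := by
      have : (nm ((q : ℕ) : G) : ℤ) = ((q ^ 2 : ℕ) : ℤ) := by
        rw [nm_eq]; simp
      exact_mod_cast this
    rwa [h4] at h3
  refine Nat.Coprime.symm (Nat.Coprime.coprime_dvd_right h2 ?_)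
  refine Nat.Coprime.pow_right 2 ?_
  refine Nat.Coprime.symm ((Nat.Prime.coprime_iff_not_dvd hq).2 ?_)
  intro h5
  have h6 : q ≤ D := Nat.le_of_dvd hD h5
  have h7 : nm p ≤ q ^ 2 := Nat.le_of_dvd (pow_pos hq.pos 2) h2
  have h8 : q ^ 2 ≤ D ^ 2 := Nat.pow_le_pow_left h6 2
  omega

/-- `|χ z| = 1` for `z` invertible modulo `D`: `χ z χ w = χ 1 = 1` and both are at most `1`. A prime `w` of norm `nm w` prime and `> D` (so `nm w` does not divide `D`), or inert, with `nm w > D ^ 2`, is invertible: `star w * w = nm w` is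
coprime to `D`. -/
theorem chi_norm (D : ℕ) (hD : 0 < D) (χ : G → ℂ) (hχ : Chi D χ) (p : G) (hp : Prime p) (h : (D : ℝ) ^ 2 < (nm p : ℝ)) :
    Inv D p ∧ ‖χ p‖ = 1 := by
  have hcop := chin_cop D hD p hp h
  have hinv : ∃ w : G, cg D (p * w) 1 := by
    refine ⟨star p * ((Nat.gcdA (nm p) D : ℤ) : G), ?_⟩
    have hb := Nat.gcd_eq_gcd_ab (nm p) D
    rw [hcop] at hb
    have hself : p * star p = ((nm p : ℕ) : G) := by
      apply Zsqrtd.ext
      · have := nm_eq p
        simp [this]; ring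
      · simp; ring
    rw [← mul_assoc, hself]
    constructor
    · refine ⟨-(Nat.gcdB (nm p) D), ?_⟩
      simp
      push_cast at hb
      linarith
    · simp
  refine ⟨hinv, ?_⟩
  obtain ⟨w, hw⟩ := hinv
  have h1 : χ p * χ w = 1 := by
    rw [← hχ.mul, hχ.per _ _ hw, hχ.one]
  have h2 : ‖χ p‖ * ‖χ w‖ = 1 := by rw [← norm_mul, h1, norm_one]
  have h3 := hχ.le p
  have h4 := hχ.le w
  have h5 := norm_nonneg (χ p)
  refine le_antisymm h3 ?_
  nlinarith

private theorem chin_sub (l : List ℂ) (h : ∀ z ∈ l, ‖z‖ = 1) :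
    ‖l.prod‖ = 1 ∧ ‖1 - l.prod‖ ≤ (l.map (fun z => ‖1 - z‖)).sum := by
  induction l with
  | nil => simp
  | cons a l ih =>
    have hl : ∀ z ∈ l, ‖z‖ = 1 := fun z hz => h z (List.mem_cons_of_mem _ hz)
    have ha : ‖a‖ = 1 := h a List.mem_cons_self
    obtain ⟨i1, i2⟩ := ih hl
    constructor
    · rw [List.prod_cons, norm_mul, ha, i1, one_mul]
    · rw [List.prod_cons, List.map_cons, List.sum_cons]
      have h1 : 1 - a * l.prod = (1 - a) + a * (1 - l.prod) := by ring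
      rw [h1]
      calc ‖(1 - a) + a * (1 - l.prod)‖ ≤ ‖1 - a‖ + ‖a * (1 - l.prod)‖ := norm_add_le _ _
        _ = ‖1 - a‖ + ‖1 - l.prod‖ := by rw [norm_mul, ha, one_mul]
        _ ≤ _ := by linarith

private theorem chin_sq (z : ℂ) (h : ‖z‖ = 1) : ‖1 - z‖ ^ 2 = 2 * (1 - z.re) := by
  have h1 : Complex.normSq z = 1 := by rw [Complex.normSq_eq_norm_sq, h]; norm_num
  rw [← Complex.normSq_eq_norm_sq, Complex.normSq_apply]
  rw [Complex.normSq_apply] at h1
  simp only [Complex.sub_re, Complex.one_re, Complex.sub_im, Complex.one_im]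
  nlinarith

private theorem chin_cs (l : List ℝ) : l.sum ^ 2 ≤ l.length * (l.map (fun a => a ^ 2)).sum := by
  induction l with
  | nil => simp
  | cons a l ih =>
    rw [List.sum_cons, List.length_cons, List.map_cons, List.sum_cons]
    set S := l.sum
    set T := (l.map (fun a => a ^ 2)).sum
    push_cast
    set n : ℝ := (l.length : ℝ) with hn
    have hT : 0 ≤ T := List.sum_nonneg (by
      intro x hx
      rw [List.mem_map] at hx
      obtain ⟨y, _, rfl⟩ := hx
      positivity)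
    rcases Nat.eq_zero_or_pos l.length with h0 | h0
    · have h1 : n = 0 := by rw [hn, h0]; simp
      rw [h1] at ih ⊢
      have h2 : S = 0 := by nlinarith [sq_nonneg S]
      rw [h2]; nlinarith
    · have h1 : 1 ≤ n := by rw [hn]; exact_mod_cast h0
      have h2 : 0 ≤ n * (n * a ^ 2 + T - 2 * a * S) := by
        nlinarith [sq_nonneg (n * a - S)]
      have h3 : 0 ≤ n * a ^ 2 + T - 2 * a * S := by
        by_contra hneg
        push Not at hneg
        nlinarith
      nlinarith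

/-- For numbers of modulus 1: `1 - Re (z_1 ... z_r) ≤ r ∑ (1 - Re z_i)` (`|1 - z_1...z_r| ≤ ∑ |1 - z_i|`, `|1 - z|² = 2 (1 - Re z)`, Cauchy-Schwarz). -/
theorem one_sub_prod_le (l : List ℂ) (h : ∀ z ∈ l, ‖z‖ = 1) : 1 - l.prod.re ≤ l.length * (l.map (fun z => 1 - z.re)).sum := by
  obtain ⟨h1, h2⟩ := chin_sub l h
  have h3 := chin_sq l.prod h1
  have h4 := chin_cs (l.map (fun z => ‖1 - z‖))
  rw [List.map_map, List.length_map] at h4
  have h5 : (l.map ((fun a : ℝ => a ^ 2) ∘ fun z => ‖1 - z‖)).sum = 2 * (l.map (fun z => 1 - z.re)).sum := by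
    have h6 : l.map ((fun a : ℝ => a ^ 2) ∘ fun z => ‖1 - z‖) = l.map (fun z => 2 * (1 - z.re)) := by
      apply List.map_congr_left
      intro z hz
      exact chin_sq z (h z hz)
    rw [h6, List.sum_map_mul_left]
  rw [h5] at h4
  have h7 : ‖1 - l.prod‖ ^ 2 ≤ (l.map (fun z => ‖1 - z‖)).sum ^ 2 :=
    pow_le_pow_left₀ (norm_nonneg _) h2 2
  rw [h3] at h7
  nlinarith

end Pool.Agent.ECM

end

/-! ### from `Lib_MP_f1a94e_mr.MertensB` -/

section

/-!
# Piece MERTENSB: Mertens' second theorem for primes `1 mod 4`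
-/

set_option autoImplicit false

namespace Pool.Agent.GaussMR

open MeasureTheory in
/-- partial summation from `mertens_log` -/
theorem mertens : ∃ C : ℝ, ∀ x : ℝ, 2 ≤ x →
    |∑ p ∈ (Finset.Icc 1 ⌊x⌋₊).filter (fun p => p.Prime ∧ p % 4 = 1), (1 : ℝ) / p -
      Real.log (Real.log x) / 2| ≤ C := by
  classical
  obtain ⟨C, hC⟩ := mertens_log
  have hC0 : 0 ≤ C := (abs_nonneg _).trans (hC 2 le_rfl)
  have hl2 : 0 < Real.log 2 := Real.log_pos one_lt_two
  let c : ℕ → ℝ := fun n => if n.Prime ∧ n % 4 = 1 then Real.log n / n else 0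
  have hc0 : c 0 = 0 := by simp [c]
  have hc1 : c 1 = 0 := by simp [c, Nat.not_prime_one]
  have hA : ∀ t : ℝ, ∑ k ∈ Finset.Icc 0 ⌊t⌋₊, c k =
      ∑ p ∈ (Finset.Icc 1 ⌊t⌋₊).filter (fun p => p.Prime ∧ p % 4 = 1), Real.log p / p := by
    intro t
    rw [Finset.sum_filter]
    symm
    refine Finset.sum_subset ?_ ?_
    · intro k hk
      rw [Finset.mem_Icc] at hk ⊢
      exact ⟨Nat.zero_le _, hk.2⟩
    · intro k hk hk'
      have h0 : k = 0 := by
        rw [Finset.mem_Icc] at hk hk'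
        omega
      subst h0
      simp
  let f : ℝ → ℝ := fun t => (Real.log t)⁻¹
  have hlogpos : ∀ t : ℝ, 2 ≤ t → 0 < Real.log t := fun t ht => Real.log_pos (by linarith)
  have hderiv : ∀ t : ℝ, 2 ≤ t → HasDerivAt f (-(t⁻¹) / (Real.log t) ^ 2) t := by
    intro t ht
    exact (Real.hasDerivAt_log (by linarith : t ≠ 0)).inv (hlogpos t ht).ne'
  have hfd : ∀ t : ℝ, 2 ≤ t → deriv f t = -(t⁻¹) / (Real.log t) ^ 2 := fun t ht =>
    (hderiv t ht).deriv
  have hcont : ∀ b : ℝ, ContinuousOn (fun t : ℝ => -(t⁻¹) / (Real.log t) ^ 2) (Set.Icc 2 b) := by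
    intro b
    refine ContinuousOn.div (ContinuousOn.neg (ContinuousOn.inv₀ continuousOn_id ?_)) ?_ ?_
    · intro t ht; have := ht.1; exact (by linarith : t ≠ 0)
    · refine ContinuousOn.pow (ContinuousOn.log continuousOn_id ?_) 2
      intro t ht; have := ht.1; exact (by linarith : t ≠ 0)
    · intro t ht; exact pow_ne_zero 2 (hlogpos t ht.1).ne'
  have hint : ∀ b : ℝ, IntegrableOn (deriv f) (Set.Icc 2 b) := by
    intro b
    refine IntegrableOn.congr_fun ((hcont b).integrableOn_Icc) ?_ measurableSet_Icc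
    intro t ht
    exact (hfd t ht.1).symm
  refine ⟨1 / 2 + C / Real.log 2 + C / Real.log 2 + |Real.log (Real.log 2)| / 2, ?_⟩
  intro x hx
  have hlx := hlogpos x hx
  have hAbel := sum_mul_eq_sub_integral_mul₁ c (f := f) hc0 hc1 x
    (fun t ht => (hderiv t ht.1).differentiableAt) (hint x)
  -- the left hand side
  have hL : ∑ k ∈ Finset.Icc 0 ⌊x⌋₊, f k * c k =
      ∑ p ∈ (Finset.Icc 1 ⌊x⌋₊).filter (fun p => p.Prime ∧ p % 4 = 1), (1 : ℝ) / p := by
    rw [Finset.sum_filter]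
    symm
    refine Finset.sum_subset_zero_on_sdiff (f := fun a : ℕ => if a.Prime ∧ a % 4 = 1 then
      (1 : ℝ) / a else 0) (g := fun k : ℕ => f k * c k) ?_ ?_ ?_
    · intro k hk
      rw [Finset.mem_Icc] at hk ⊢
      exact ⟨Nat.zero_le _, hk.2⟩
    · intro k hk
      rw [Finset.mem_sdiff, Finset.mem_Icc, Finset.mem_Icc] at hk
      have h0 : k = 0 := by omega
      subst h0
      simp [c]
    · intro k hk
      rw [Finset.mem_Icc] at hk
      simp only [c, f]
      split_ifs with hp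
      · have h2 : (2 : ℝ) ≤ k := by exact_mod_cast hp.1.two_le
        have h3 := (hlogpos k h2).ne'
        field_simp
      · simp
  -- the integral
  have hAint : IntegrableOn (fun t => deriv f t * ∑ k ∈ Finset.Icc 0 ⌊t⌋₊, c k) (Set.Ioc 2 x) :=
    (integrableOn_mul_sum_Icc c (by norm_num : (0 : ℝ) ≤ 2) (hint x)).mono_set
      Set.Ioc_subset_Icc_self
  have hfint : IntegrableOn (deriv f) (Set.Ioc 2 x) := (hint x).mono_set Set.Ioc_subset_Icc_self
  have hgcont : ContinuousOn (fun t : ℝ => (t⁻¹) / Real.log t) (Set.Icc 2 x) := by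
    refine ContinuousOn.div (ContinuousOn.inv₀ continuousOn_id ?_) ?_ ?_
    · intro t ht; have := ht.1; exact (by linarith : t ≠ 0)
    · refine ContinuousOn.log continuousOn_id ?_
      intro t ht; have := ht.1; exact (by linarith : t ≠ 0)
    · intro t ht; exact (hlogpos t ht.1).ne'
  have hgint : IntegrableOn (fun t : ℝ => (t⁻¹) / Real.log t) (Set.Ioc 2 x) :=
    hgcont.integrableOn_Icc.mono_set Set.Ioc_subset_Icc_self
  have hgval : ∫ t in Set.Ioc 2 x, (t⁻¹) / Real.log t =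
      Real.log (Real.log x) - Real.log (Real.log 2) := by
    rw [← intervalIntegral.integral_of_le hx]
    refine intervalIntegral.integral_eq_sub_of_hasDerivAt_of_le
      (f := fun t => Real.log (Real.log t)) (f' := fun t : ℝ => (t⁻¹) / Real.log t) hx ?_ ?_ ?_
    · refine ContinuousOn.log (ContinuousOn.log continuousOn_id ?_) ?_
      · intro t ht; have := ht.1; exact (by linarith : t ≠ 0)
      · intro t ht; exact (hlogpos t ht.1).ne'
    · intro t ht
      exact (Real.hasDerivAt_log (by have := ht.1; linarith : t ≠ 0)).log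
        (hlogpos t ht.1.le).ne'
    · rw [intervalIntegrable_iff_integrableOn_Icc_of_le hx]
      exact hgcont.integrableOn_Icc
  have hfval : ∫ t in Set.Ioc 2 x, deriv f t = (Real.log x)⁻¹ - (Real.log 2)⁻¹ := by
    rw [← intervalIntegral.integral_of_le hx]
    refine intervalIntegral.integral_eq_sub_of_hasDerivAt_of_le
      (f := f) (f' := deriv f) hx ?_ ?_ ?_
    · intro t ht
      exact (hderiv t ht.1).continuousAt.continuousWithinAt
    · intro t ht
      have := hderiv t ht.1.le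
      rw [hfd t ht.1.le]
      exact this
    · rw [intervalIntegrable_iff_integrableOn_Icc_of_le hx]
      exact hint x
  -- pointwise bounds
  have hpt : ∀ t ∈ Set.Ioc (2 : ℝ) x,
      |deriv f t * ∑ k ∈ Finset.Icc 0 ⌊t⌋₊, c k - (-(1 / 2) * ((t⁻¹) / Real.log t))| ≤
        -(C * deriv f t) := by
    intro t ht
    have ht2 : 2 ≤ t := ht.1.le
    have hlt := hlogpos t ht2
    have htp : 0 < t := by linarith
    have h1 := hC t ht2
    rw [← hA t] at h1
    have h2 : deriv f t ≤ 0 := by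
      rw [hfd t ht2]
      exact div_nonpos_of_nonpos_of_nonneg (by have := inv_pos.mpr htp; linarith) (by positivity)
    have h3 : (-(1 / 2) * ((t⁻¹) / Real.log t)) = deriv f t * (Real.log t / 2) := by
      rw [hfd t ht2]
      field_simp
    rw [h3, ← mul_sub, abs_mul, abs_of_nonpos h2]
    calc -deriv f t * |∑ k ∈ Finset.Icc 0 ⌊t⌋₊, c k - Real.log t / 2|
        ≤ -deriv f t * C := mul_le_mul_of_nonneg_left h1 (by linarith)
      _ = -(C * deriv f t) := by ring
  have hI : |(∫ t in Set.Ioc 2 x, deriv f t * ∑ k ∈ Finset.Icc 0 ⌊t⌋₊, c k) -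
      (-(1 / 2) * (Real.log (Real.log x) - Real.log (Real.log 2)))| ≤
      C * ((Real.log 2)⁻¹ - (Real.log x)⁻¹) := by
    rw [← hgval, ← integral_const_mul, ← integral_sub hAint (hgint.const_mul _)]
    calc |∫ t in Set.Ioc 2 x, (deriv f t * ∑ k ∈ Finset.Icc 0 ⌊t⌋₊, c k -
          -(1 / 2) * ((t⁻¹) / Real.log t))|
        ≤ ∫ t in Set.Ioc 2 x, |deriv f t * ∑ k ∈ Finset.Icc 0 ⌊t⌋₊, c k -
          -(1 / 2) * ((t⁻¹) / Real.log t)| := abs_integral_le_integral_abs
      _ ≤ ∫ t in Set.Ioc 2 x, -(C * deriv f t) := by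
          refine setIntegral_mono_on ?_ ?_ measurableSet_Ioc hpt
          · exact (hAint.sub (hgint.const_mul _)).abs
          · exact (hfint.const_mul C).neg
      _ = C * ((Real.log 2)⁻¹ - (Real.log x)⁻¹) := by
          rw [integral_neg, integral_const_mul, hfval]; ring
  have hE := hC x hx
  rw [← hA x] at hE
  rw [← hL, hAbel]
  have hfx : f x = (Real.log x)⁻¹ := rfl
  have h4 : |f x * ∑ k ∈ Finset.Icc 0 ⌊x⌋₊, c k - 1 / 2| ≤ C / Real.log 2 := by
    have h5 : f x * ∑ k ∈ Finset.Icc 0 ⌊x⌋₊, c k - 1 / 2 =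
        f x * (∑ k ∈ Finset.Icc 0 ⌊x⌋₊, c k - Real.log x / 2) := by
      rw [hfx]; field_simp
    rw [h5, abs_mul, hfx, abs_of_pos (inv_pos.mpr hlx)]
    calc (Real.log x)⁻¹ * |∑ k ∈ Finset.Icc 0 ⌊x⌋₊, c k - Real.log x / 2|
        ≤ (Real.log 2)⁻¹ * C := by
          refine mul_le_mul ?_ hE (abs_nonneg _) (inv_pos.mpr hl2).le
          exact inv_anti₀ hl2 (Real.log_le_log (by norm_num) hx)
      _ = C / Real.log 2 := by rw [div_eq_mul_inv]; ring
  have h6 : C * ((Real.log 2)⁻¹ - (Real.log x)⁻¹) ≤ C / Real.log 2 := by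
    rw [div_eq_mul_inv]
    refine mul_le_mul_of_nonneg_left ?_ hC0
    have := inv_pos.mpr hlx
    linarith
  have h7 := hI.trans h6
  have h8 := le_abs_self (Real.log (Real.log 2))
  have h9 := neg_abs_le (Real.log (Real.log 2))
  rw [abs_le] at h4 h7 ⊢
  constructor <;> linarith [h4.1, h4.2, h7.1, h7.2]

theorem Ls_bounds : ∃ C : ℝ, ∀ P Q : ℝ, 2 ≤ P → P ≤ Q →
    |Ls P Q - (Real.log (Real.log Q) - Real.log (Real.log P)) / 2| ≤ C := by
  classical
  obtain ⟨C, hC⟩ := mertens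
  refine ⟨2 * C, ?_⟩
  intro P Q hP hPQ
  have hsplit : ∑ p ∈ (Finset.Icc 1 ⌊Q⌋₊).filter (fun p => p.Prime ∧ p % 4 = 1), (1 : ℝ) / p =
      ∑ p ∈ (Finset.Icc 1 ⌊P⌋₊).filter (fun p => p.Prime ∧ p % 4 = 1), (1 : ℝ) / p + Ls P Q := by
    rw [Ls_eq P Q (by linarith) (by linarith), ← Finset.sum_union]
    · refine Finset.sum_congr ?_ fun _ _ => rfl
      have hfl : ⌊P⌋₊ ≤ ⌊Q⌋₊ := Nat.floor_le_floor hPQ
      ext p
      simp only [Finset.mem_filter, Finset.mem_Icc, Finset.mem_union]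
      constructor
      · rintro ⟨⟨h1, h2⟩, h3, h4⟩
        by_cases h5 : p ≤ ⌊P⌋₊
        · exact Or.inl ⟨⟨h1, h5⟩, h3, h4⟩
        · exact Or.inr ⟨⟨h1, h2⟩, h3, h4, by omega⟩
      · rintro (⟨⟨h1, h2⟩, h3, h4⟩ | ⟨⟨h1, h2⟩, h3, h4, h5⟩)
        · exact ⟨⟨h1, by omega⟩, h3, h4⟩
        · exact ⟨⟨h1, h2⟩, h3, h4⟩
    · rw [Finset.disjoint_left]
      intro p hp hp'
      simp only [Finset.mem_filter, Finset.mem_Icc] at hp hp'
      omega
  have h1 := hC P hP
  have h2 := hC Q (hP.trans hPQ)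
  rw [hsplit] at h2
  rw [abs_le] at h1 h2 ⊢
  constructor <;> linarith [h1.1, h1.2, h2.1, h2.2]

end Pool.Agent.GaussMR

end

/-! ### from `Lib_MP_f1a94e_aq.ZSmooth` -/

section

/-!
# Piece ZSMOOTH: sharp and smooth cutoffs for sums over primes `1 mod 4`
-/

set_option autoImplicit false

namespace Pool.Agent.OmAll

open Finset

namespace ZSm

theorem PT_eq (n : ℕ) :
    PT n = (Icc 1 ⌊(n : ℝ)⌋₊).filter (fun p => p.Prime ∧ p % 4 = 1) := by
  ext p
  simp only [PT, mem_filter, mem_range, mem_Icc, Nat.floor_natCast]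
  constructor
  · rintro ⟨h1, h2, h3⟩
    exact ⟨⟨h2.one_lt.le, by omega⟩, h2, h3⟩
  · rintro ⟨⟨h1, h1'⟩, h2, h3⟩
    exact ⟨by omega, h2, h3⟩

theorem mem_PT {n p : ℕ} : p ∈ PT n ↔ p ≤ n ∧ p.Prime ∧ p % 4 = 1 := by
  simp only [PT, mem_filter, mem_range]
  constructor
  · rintro ⟨h1, h2, h3⟩; exact ⟨by omega, h2, h3⟩
  · rintro ⟨h1, h2, h3⟩; exact ⟨by omega, h2, h3⟩

theorem PT_five {n p : ℕ} (h : p ∈ PT n) : 5 ≤ p := by
  obtain ⟨-, h2, h3⟩ := mem_PT.mp h
  have := h2.two_le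
  omega

theorem PT_mono {m n : ℕ} (h : m ≤ n) : PT m ⊆ PT n := by
  intro p hp
  rw [mem_PT] at hp ⊢
  exact ⟨hp.1.trans h, hp.2⟩

theorem one_le_logT {T : ℕ} (hT : 3 ≤ T) : 1 ≤ Real.log T := by
  have h3 : (3 : ℝ) ≤ T := by exact_mod_cast hT
  rw [Real.le_log_iff_exp_le (by linarith)]
  have := Real.exp_one_lt_d9
  linarith

/-- the mass of the block `T^K < p ≤ T^(K+1)` -/
theorem block (C : ℝ) (hC0 : 0 ≤ C)
    (hA : ∀ n : ℕ, 2 ≤ n → ∑ p ∈ PT n, Real.log p / p ≤ Real.log n / 2 + C)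
    (T : ℕ) (hT : 3 ≤ T) (K : ℕ) (hK : 1 ≤ K) :
    ∑ p ∈ PT (T ^ (K + 1)) \ PT (T ^ K), 1 / (p : ℝ) ^ (1 + 1 / Real.log T) ≤
      (1 + C) * Real.exp (-(K : ℝ)) := by
  have hL := one_le_logT hT
  set L := Real.log T with hLdef
  have hK' : (1 : ℝ) ≤ K := by exact_mod_cast hK
  have hKL : 1 ≤ (K : ℝ) * L := by nlinarith
  have hT2 : 2 ≤ T ^ (K + 1) := by
    calc 2 ≤ T := by omega
      _ = T ^ 1 := (pow_one T).symm
      _ ≤ T ^ (K + 1) := Nat.pow_le_pow_right (by omega) (by omega)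
  have h1 : ∀ p ∈ PT (T ^ (K + 1)) \ PT (T ^ K), 1 / (p : ℝ) ^ (1 + 1 / L) ≤
      Real.exp (-(K : ℝ)) / (K * L) * (Real.log p / p) := by
    intro p hp
    rw [mem_sdiff] at hp
    obtain ⟨hp1, hp2⟩ := hp
    have hp5 := PT_five hp1
    rw [mem_PT] at hp1 hp2
    have hlt : T ^ K < p := by
      by_contra hc
      exact hp2 ⟨by omega, hp1.2⟩
    have hp0 : (0 : ℝ) < p := by exact_mod_cast (by omega : 0 < p)
    have hlog : (K : ℝ) * L ≤ Real.log p := by
      rw [hLdef, ← Real.log_pow]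
      apply Real.log_le_log
      · have : (0 : ℝ) < T := by exact_mod_cast (by omega : 0 < T)
        positivity
      · exact_mod_cast hlt.le
    have e1 : (p : ℝ) ^ (1 + 1 / L) = p * Real.exp (Real.log p / L) := by
      rw [Real.rpow_add hp0, Real.rpow_one, Real.rpow_def_of_pos hp0]
      congr 2
      ring
    have h2 : (K : ℝ) ≤ Real.log p / L := by
      rw [le_div_iff₀ (by linarith)]
      exact hlog
    have h3 : Real.exp (K : ℝ) ≤ Real.exp (Real.log p / L) := Real.exp_le_exp.mpr h2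
    have h4 : 1 / (p * Real.exp (Real.log p / L)) ≤ 1 / (p * Real.exp (K : ℝ)) := by
      apply one_div_le_one_div_of_le
      · positivity
      · exact mul_le_mul_of_nonneg_left h3 hp0.le
    rw [e1]
    refine h4.trans ?_
    have h5 : 1 / ((p : ℝ) * Real.exp (K : ℝ)) = Real.exp (-(K : ℝ)) / p := by
      rw [Real.exp_neg]
      field_simp
    have h6 : Real.exp (-(K : ℝ)) / (K * L) * (Real.log p / p) =
        Real.exp (-(K : ℝ)) / p * (Real.log p / (K * L)) := by
      field_simp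
    rw [h5, h6]
    apply le_mul_of_one_le_right (by positivity)
    rw [one_le_div (by linarith)]
    exact hlog
  calc ∑ p ∈ PT (T ^ (K + 1)) \ PT (T ^ K), 1 / (p : ℝ) ^ (1 + 1 / L)
      ≤ ∑ p ∈ PT (T ^ (K + 1)) \ PT (T ^ K),
          Real.exp (-(K : ℝ)) / (K * L) * (Real.log p / p) := sum_le_sum h1
    _ ≤ ∑ p ∈ PT (T ^ (K + 1)), Real.exp (-(K : ℝ)) / (K * L) * (Real.log p / p) := by
        apply sum_le_sum_of_subset_of_nonneg sdiff_subset
        intro p hp _
        have hp5 := PT_five hp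
        have hp0 : (1 : ℝ) ≤ p := by exact_mod_cast (by omega : 1 ≤ p)
        have := Real.log_nonneg hp0
        positivity
    _ = Real.exp (-(K : ℝ)) / (K * L) * ∑ p ∈ PT (T ^ (K + 1)), (Real.log p / p) := by
        rw [mul_sum]
    _ ≤ Real.exp (-(K : ℝ)) / (K * L) * (((K : ℝ) + 1) * L / 2 + C) := by
        apply mul_le_mul_of_nonneg_left _ (by positivity)
        have h7 := hA _ hT2
        have h8 : Real.log ((T ^ (K + 1) : ℕ) : ℝ) = ((K : ℝ) + 1) * L := by
          push_cast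
          rw [Real.log_pow]
          push_cast
          rfl
        rw [h8] at h7
        exact h7
    _ ≤ (1 + C) * Real.exp (-(K : ℝ)) := by
        have h9 : Real.exp (-(K : ℝ)) / (K * L) * (((K : ℝ) + 1) * L / 2 + C) =
          Real.exp (-(K : ℝ)) * ((((K : ℝ) + 1) * L / 2 + C) / (K * L)) := by
          field_simp
        rw [h9, mul_comm (1 + C)]
        apply mul_le_mul_of_nonneg_left _ (Real.exp_pos _).le
        rw [div_le_iff₀ (by linarith)]
        nlinarith [mul_nonneg hC0 (by linarith : (0 : ℝ) ≤ (K : ℝ) * L - 1)]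

theorem blocks (C : ℝ) (hC0 : 0 ≤ C)
    (hA : ∀ n : ℕ, 2 ≤ n → ∑ p ∈ PT n, Real.log p / p ≤ Real.log n / 2 + C)
    (T : ℕ) (hT : 3 ≤ T) (K : ℕ) :
    ∑ p ∈ PT (T ^ (K + 1)) \ PT T, 1 / (p : ℝ) ^ (1 + 1 / Real.log T) ≤
      (1 + C) * (1 - Real.exp (-(K : ℝ))) := by
  induction K with
  | zero => simp
  | succ K ih =>
    have hsub : T ≤ T ^ (K + 1) := by
      calc T = T ^ 1 := (pow_one T).symm
        _ ≤ T ^ (K + 1) := Nat.pow_le_pow_right (by omega) (by omega)
    have hsub2 : T ^ (K + 1) ≤ T ^ (K + 1 + 1) := Nat.pow_le_pow_right (by omega) (by omega)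
    have hun : PT (T ^ (K + 1 + 1)) \ PT T =
        (PT (T ^ (K + 1)) \ PT T) ∪ (PT (T ^ (K + 1 + 1)) \ PT (T ^ (K + 1))) := by
      ext p
      simp only [mem_sdiff, mem_union]
      constructor
      · rintro ⟨h1, h2⟩
        by_cases h3 : p ∈ PT (T ^ (K + 1))
        · exact Or.inl ⟨h3, h2⟩
        · exact Or.inr ⟨h1, h3⟩
      · rintro (⟨h1, h2⟩ | ⟨h1, h2⟩)
        · exact ⟨PT_mono hsub2 h1, h2⟩
        · exact ⟨h1, fun h3 => h2 (PT_mono hsub h3)⟩
    have hdis : Disjoint (PT (T ^ (K + 1)) \ PT T) (PT (T ^ (K + 1 + 1)) \ PT (T ^ (K + 1))) := by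
      rw [disjoint_left]
      intro p hp hp'
      rw [mem_sdiff] at hp hp'
      exact hp'.2 hp.1
    rw [hun, sum_union hdis]
    have hb := block C hC0 hA T hT (K + 1) (by omega)
    have he : Real.exp (-((K + 1 : ℕ) : ℝ)) * 2 ≤ Real.exp (-(K : ℝ)) := by
      have : Real.exp (-(K : ℝ)) = Real.exp (-((K + 1 : ℕ) : ℝ)) * Real.exp 1 := by
        rw [← Real.exp_add]
        congr 1
        push_cast
        ring
      rw [this]
      apply mul_le_mul_of_nonneg_left _ (Real.exp_pos _).le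
      have := Real.exp_one_gt_d9
      linarith
    have h1C : 0 ≤ 1 + C := by linarith
    nlinarith [mul_nonneg h1C (by linarith : (0 : ℝ) ≤ Real.exp (-(K : ℝ)) -
      Real.exp (-((K + 1 : ℕ) : ℝ)) * 2)]

end ZSm

open ZSm

/-- For `|f| ≤ 1`: `|∑_(p ≤ T, p = 1 (4)) f p / p - ∑'_(p = 1 (4)) f p / p^(1 + 1/log T)| ≤ C`. For `p ≤ T`:
`0 ≤ 1 - p^(-1/log T) ≤ log p / log T`, and `∑_(p ≤ T) log p / p ≤ C log T` (`mertens_log`, mr/MertensA). For `p > T`:
`∑_(T^(2^i) < p ≤ T^(2^(i+1))) 1/p ≤ C` (`mertens`, mr/MertensB: `log log` differences are `log 2`), and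
`p^(-1/log T) ≤ exp(-2^i)` there; sum over `i`. The series converges absolutely. -/
theorem smooth_cut : ∃ C : ℝ, ∀ T : ℕ, 3 ≤ T → ∀ f : ℕ → ℝ, (∀ p, |f p| ≤ 1) →
    Summable (fun p : ℕ => if p.Prime ∧ p % 4 = 1 then f p / (p : ℝ) ^ (1 + 1 / Real.log T) else 0) ∧
    |∑ p ∈ PT T, f p / p -
      ∑' p : ℕ, (if p.Prime ∧ p % 4 = 1 then f p / (p : ℝ) ^ (1 + 1 / Real.log T) else 0)| ≤ C := by
  obtain ⟨C, hC⟩ := Pool.Agent.GaussMR.mertens_log
  have hC0 : 0 ≤ C := (abs_nonneg _).trans (hC 2 le_rfl)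
  have hA : ∀ n : ℕ, 2 ≤ n → ∑ p ∈ PT n, Real.log p / p ≤ Real.log n / 2 + C := by
    intro n hn
    have h1 := hC n (by exact_mod_cast hn)
    rw [← PT_eq, abs_le] at h1
    linarith [h1.2]
  refine ⟨(1 / 2 + C) + (1 + C), fun T hT f hf => ?_⟩
  have hL := ZSm.one_le_logT hT
  set L := Real.log T with hLdef
  have hδ : 0 < 1 / L := by positivity
  have hsum : Summable (fun p : ℕ => if p.Prime ∧ p % 4 = 1 then f p / (p : ℝ) ^ (1 + 1 / L)
      else 0) := by
    have h1 : Summable (fun p : ℕ => 1 / (p : ℝ) ^ (1 + 1 / L)) :=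
      Real.summable_one_div_nat_rpow.mpr (by linarith)
    refine Summable.of_norm_bounded h1 (fun p => ?_)
    split_ifs
    · rw [norm_div, Real.norm_eq_abs, Real.norm_of_nonneg (by positivity)]
      exact div_le_div_of_nonneg_right (hf p) (by positivity)
    · rw [norm_zero]
      positivity
  refine ⟨hsum, ?_⟩
  set a : ℕ → ℝ := fun p : ℕ => if p.Prime ∧ p % 4 = 1 then f p / (p : ℝ) ^ (1 + 1 / L) else 0
    with ha
  have haPT : ∀ n : ℕ, ∑ p ∈ range (n + 1), a p = ∑ p ∈ PT n, f p / (p : ℝ) ^ (1 + 1 / L) := by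
    intro n
    rw [PT, sum_filter]
  -- first part
  have hfirst : |∑ p ∈ PT T, f p / p - ∑ p ∈ PT T, f p / (p : ℝ) ^ (1 + 1 / L)| ≤ 1 / 2 + C := by
    rw [← sum_sub_distrib]
    calc |∑ p ∈ PT T, (f p / p - f p / (p : ℝ) ^ (1 + 1 / L))|
        ≤ ∑ p ∈ PT T, |f p / p - f p / (p : ℝ) ^ (1 + 1 / L)| := abs_sum_le_sum_abs _ _
      _ ≤ ∑ p ∈ PT T, (1 / L) * (Real.log p / p) := by
          apply sum_le_sum
          intro p hp
          have hp5 := PT_five hp
          have hp0 : (0 : ℝ) < p := by exact_mod_cast (by omega : 0 < p)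
          have hp1 : (1 : ℝ) ≤ p := by exact_mod_cast (by omega : 1 ≤ p)
          have hlog := Real.log_nonneg hp1
          have e1 : (p : ℝ) ^ (1 + 1 / L) = p * Real.exp (Real.log p / L) := by
            rw [Real.rpow_add hp0, Real.rpow_one, Real.rpow_def_of_pos hp0]
            congr 2
            ring
          have e2 : f p / p - f p / (p : ℝ) ^ (1 + 1 / L) =
              f p * ((1 - Real.exp (-(Real.log p / L))) / p) := by
            rw [e1, Real.exp_neg]
            field_simp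
          have h1 : 1 - Real.log p / L ≤ Real.exp (-(Real.log p / L)) := by
            have := Real.add_one_le_exp (-(Real.log p / L))
            linarith
          have h2 : Real.exp (-(Real.log p / L)) ≤ 1 := by
            rw [Real.exp_le_one_iff]
            have : 0 ≤ Real.log p / L := by positivity
            linarith
          rw [e2, abs_mul, abs_of_nonneg (div_nonneg (by linarith) hp0.le)]
          calc |f p| * ((1 - Real.exp (-(Real.log p / L))) / p)
              ≤ 1 * ((Real.log p / L) / p) := by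
                apply mul_le_mul (hf p) _ (div_nonneg (by linarith) hp0.le) zero_le_one
                exact div_le_div_of_nonneg_right (by linarith) hp0.le
            _ = (1 / L) * (Real.log p / p) := by ring
      _ = (1 / L) * ∑ p ∈ PT T, Real.log p / p := by rw [mul_sum]
      _ ≤ (1 / L) * (L / 2 + C) :=
          mul_le_mul_of_nonneg_left (hA T (by omega)) (by positivity)
      _ = 1 / 2 + C / L := by
          have : L ≠ 0 := by linarith
          field_simp
      _ ≤ 1 / 2 + C := by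
          have : C / L ≤ C := div_le_self hC0 hL
          linarith
  -- second part
  have hsecond : |∑ p ∈ PT T, f p / (p : ℝ) ^ (1 + 1 / L) - ∑' p : ℕ, a p| ≤ 1 + C := by
    have hT1 : Filter.Tendsto (fun K : ℕ => T ^ (K + 1) + 1) Filter.atTop Filter.atTop := by
      apply Filter.tendsto_atTop_mono (f := fun K : ℕ => K)
      · intro K
        have : K < T ^ K := Nat.lt_pow_self (by omega)
        have : T ^ K ≤ T ^ (K + 1) := Nat.pow_le_pow_right (by omega) (by omega)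
        omega
      · exact Filter.tendsto_id
    have hlim := (hsum.hasSum.tendsto_sum_nat.comp hT1)
    have hlim2 := (hlim.const_sub (∑ p ∈ PT T, f p / (p : ℝ) ^ (1 + 1 / L))).abs
    refine le_of_tendsto hlim2 (Filter.Eventually.of_forall fun K => ?_)
    simp only [Function.comp_apply]
    rw [haPT]
    have hsub : PT T ⊆ PT (T ^ (K + 1)) := PT_mono (by
      calc T = T ^ 1 := (pow_one T).symm
        _ ≤ T ^ (K + 1) := Nat.pow_le_pow_right (by omega) (by omega))
    rw [← sum_sdiff hsub, sub_add_cancel_right, abs_neg]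
    calc |∑ p ∈ PT (T ^ (K + 1)) \ PT T, f p / (p : ℝ) ^ (1 + 1 / L)|
        ≤ ∑ p ∈ PT (T ^ (K + 1)) \ PT T, |f p / (p : ℝ) ^ (1 + 1 / L)| := abs_sum_le_sum_abs _ _
      _ ≤ ∑ p ∈ PT (T ^ (K + 1)) \ PT T, 1 / (p : ℝ) ^ (1 + 1 / L) := by
          apply sum_le_sum
          intro p _
          rw [abs_div, abs_of_nonneg (by positivity : (0 : ℝ) ≤ (p : ℝ) ^ (1 + 1 / L))]
          exact div_le_div_of_nonneg_right (hf p) (by positivity)
      _ ≤ (1 + C) * (1 - Real.exp (-(K : ℝ))) := ZSm.blocks C hC0 hA T hT K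
      _ ≤ 1 + C := by
          have := Real.exp_pos (-(K : ℝ))
          nlinarith
  calc |∑ p ∈ PT T, f p / p - ∑' p : ℕ, a p|
      ≤ |∑ p ∈ PT T, f p / p - ∑ p ∈ PT T, f p / (p : ℝ) ^ (1 + 1 / L)| +
        |∑ p ∈ PT T, f p / (p : ℝ) ^ (1 + 1 / L) - ∑' p : ℕ, a p| := abs_sub_le _ _ _
    _ ≤ _ := add_le_add hfirst hsecond

/-- `0 < 2 Ap p ≤ 4 / p` and `4 / p - 2 Ap p ≤ 12 / p^2` -/
theorem Ap_bound (p : ℕ) (hp : 5 ≤ p) : 0 < Ap p ∧ 2 * Ap p ≤ 4 / p ∧ 4 / (p : ℝ) - 2 * Ap p ≤ 12 / (p : ℝ) ^ 2 := by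
  have hp5 : (5 : ℝ) ≤ p := by exact_mod_cast hp
  have hp0 : (0 : ℝ) < p := by linarith
  refine ⟨?_, ?_, ?_⟩
  · unfold Ap
    have : (0 : ℝ) < (p : ℝ) - 1 := by linarith
    positivity
  · unfold Ap
    have h1 : 2 * (2 * ((p : ℝ) - 1) ^ 2 / ((p : ℝ) ^ 2 * (p + 1))) =
      (4 * ((p : ℝ) - 1) ^ 2) / ((p : ℝ) ^ 2 * (p + 1)) := by ring
    rw [h1, div_le_div_iff₀ (by positivity) hp0]
    nlinarith [mul_pos hp0 hp0, mul_pos (mul_pos hp0 hp0) hp0]
  · unfold Ap
    have h1 : 4 / (p : ℝ) - 2 * (2 * ((p : ℝ) - 1) ^ 2 / ((p : ℝ) ^ 2 * (p + 1))) =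
      (4 * (3 * (p : ℝ) - 1)) / ((p : ℝ) ^ 2 * (p + 1)) := by
      field_simp
      ring
    rw [h1, div_le_div_iff₀ (by positivity) (by positivity)]
    nlinarith [mul_pos hp0 hp0]

/-- `|muT T - 2 log log T| ≤ C`: `mertens`, and `|2 Ap p - 4 / p| ≤ 12 / p^2` (`Ap p = (2/p) (1 - 1/p)^2 / (1 + 1/p)`). -/
theorem mu_bound : ∃ C : ℝ, ∀ T : ℕ, 3 ≤ T → |muT T - 2 * Real.log (Real.log T)| ≤ C := by
  obtain ⟨C, hC⟩ := Pool.Agent.GaussMR.mertens
  have hs : Summable (fun p : ℕ => 12 / (p : ℝ) ^ 2) := by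
    have := (Real.summable_one_div_nat_pow (p := 2)).mpr (by norm_num)
    refine (this.mul_left 12).congr (fun p => ?_)
    ring
  refine ⟨4 * C + ∑' p : ℕ, 12 / (p : ℝ) ^ 2, fun T hT => ?_⟩
  have h1 := hC T (by exact_mod_cast (by omega : 2 ≤ T))
  rw [← PT_eq] at h1
  have h2 : |muT T - 4 * ∑ p ∈ PT T, (1 : ℝ) / p| ≤ ∑' p : ℕ, 12 / (p : ℝ) ^ 2 := by
    unfold muT
    rw [mul_sum, ← sum_sub_distrib]
    calc |∑ p ∈ PT T, (2 * Ap p - 4 * (1 / (p : ℝ)))|
        ≤ ∑ p ∈ PT T, |2 * Ap p - 4 * (1 / (p : ℝ))| := abs_sum_le_sum_abs _ _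
      _ ≤ ∑ p ∈ PT T, 12 / (p : ℝ) ^ 2 := by
          apply sum_le_sum
          intro p hp
          obtain ⟨-, h4, h5⟩ := Ap_bound p (PT_five hp)
          have h6 : 4 * (1 / (p : ℝ)) = 4 / p := by ring
          rw [h6, abs_le]
          constructor
          · linarith
          · have : 0 ≤ 12 / (p : ℝ) ^ 2 := by positivity
            linarith
      _ ≤ ∑' p : ℕ, 12 / (p : ℝ) ^ 2 := hs.sum_le_tsum _ (fun p _ => by positivity)
  rw [abs_le] at h1 h2 ⊢
  constructor <;> linarith [h1.1, h1.2, h2.1, h2.2]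

end Pool.Agent.OmAll

end

/-! ### from `Lib_MP_f1a94e_mr.Perm` -/

section

/-!
# Piece PERM: products of split primes
-/

set_option autoImplicit false

namespace Pool.Agent.GaussMR

/-- products of elements of `PP` are odd and primitive (no prime `p` divides, since `w * star w ∣ ∏`
would force `star w` to be associated to some `x i`) -/
theorem prim_prod {l : ℕ} {P Q : ℝ} (x : Fin l → G) (hx : ∀ i, x i ∈ PP P Q) :
    Prim (∏ i, x i) ∧ Odd (nm (∏ i, x i)) := by
  induction l with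
  | zero =>
    simp only [Finset.univ_eq_empty, Finset.prod_empty]
    exact ⟨prim_one, by rw [nm_one]; exact odd_one⟩
  | succ l ih =>
    rw [Fin.prod_univ_succ]
    obtain ⟨h1, h2⟩ := ih (fun i => x i.succ) (fun i => hx i.succ)
    have h0 : Spl (x 0) := PP_spl (hx 0)
    refine ⟨?_, odd_nm_mul.2 ⟨h0.odd, h2⟩⟩
    rw [prim_mul_iff h0 h1]
    intro hd
    have hp : Prime (star (x 0)) := h0.conj.prime
    obtain ⟨i, -, hi⟩ := (hp.dvd_finsetProd_iff _).1 hd
    obtain ⟨c, hc⟩ := hi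
    apply PP_not_dvd_star (hx 0) (hx i.succ)
    refine ⟨star c, ?_⟩
    rw [hc]
    rw [star_mul', star_star]

/-- two functions on `Fin l` with the same multiset of values differ by a permutation -/
theorem exists_perm_of_map_eq {α : Type*} {l : ℕ} (x y : Fin l → α)
    (h : Multiset.map y Finset.univ.val = Multiset.map x Finset.univ.val) :
    ∃ σ : Equiv.Perm (Fin l), y = x ∘ σ := by
  classical
  have hc : ∀ c : α, Nonempty ({a // y a = c} ≃ {b // x b = c}) := by
    intro c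
    apply Fintype.card_eq.1
    have h1 := congrArg (Multiset.count c) h
    rw [Multiset.count_map, Multiset.count_map] at h1
    rw [Fintype.card_subtype, Fintype.card_subtype]
    have e1 : (Finset.univ.filter (fun a : Fin l => y a = c)).card =
        (Multiset.filter (fun a => c = y a) Finset.univ.val).card := by
      rw [← Finset.filter_val, Finset.card_def]
      congr 2
      ext a
      simp [eq_comm]
    have e2 : (Finset.univ.filter (fun a : Fin l => x a = c)).card =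
        (Multiset.filter (fun a => c = x a) Finset.univ.val).card := by
      rw [← Finset.filter_val, Finset.card_def]
      congr 2
      ext a
      simp [eq_comm]
    rw [e1, e2]
    exact h1
  refine ⟨Equiv.ofFiberEquiv (f := y) (g := x) (fun c => (hc c).some), ?_⟩
  funext i
  exact (Equiv.ofFiberEquiv_map (f := y) (g := x) (fun c => (hc c).some) i).symm

/-- unique factorisation: equal products of elements of `PP` come from permutations -/
theorem prod_fiber {l : ℕ} {P Q : ℝ} (x : Fin l → G) (hx : ∀ i, x i ∈ PP P Q) :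
    Set.ncard {y : Fin l → G | (∀ i, y i ∈ PP P Q) ∧ ∏ i, y i = ∏ i, x i} ≤ l.factorial := by
  have hsub : {y : Fin l → G | (∀ i, y i ∈ PP P Q) ∧ ∏ i, y i = ∏ i, x i} ⊆
      Set.range (fun σ : Equiv.Perm (Fin l) => x ∘ σ) := by
    rintro y ⟨hy, hprod⟩
    have hrel : Multiset.Rel Associated (Multiset.map y Finset.univ.val)
        (Multiset.map x Finset.univ.val) := by
      apply prime_factors_unique
      · intro a ha
        obtain ⟨i, -, rfl⟩ := Multiset.mem_map.1 ha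
        exact (PP_spl (hy i)).prime
      · intro a ha
        obtain ⟨i, -, rfl⟩ := Multiset.mem_map.1 ha
        exact (PP_spl (hx i)).prime
      · have e : (Multiset.map y Finset.univ.val).prod = (Multiset.map x Finset.univ.val).prod :=
          hprod
        rw [e]
        exact Associated.refl _
    have heq : Multiset.map y Finset.univ.val = Multiset.map x Finset.univ.val := by
      rw [← Multiset.rel_eq]
      refine hrel.mono ?_
      intro a ha b hb hab
      obtain ⟨i, -, rfl⟩ := Multiset.mem_map.1 ha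
      obtain ⟨j, -, rfl⟩ := Multiset.mem_map.1 hb
      exact PP_dvd (hy i) (hx j) hab.dvd
    obtain ⟨σ, hσ⟩ := exists_perm_of_map_eq x y heq
    exact ⟨σ, hσ.symm⟩
  refine (Set.ncard_le_ncard hsub (Set.finite_range _)).trans ?_
  rw [← Set.image_univ]
  refine (Set.ncard_image_le (Set.finite_univ)).trans ?_
  rw [Set.ncard_univ, Nat.card_eq_fintype_card, Fintype.card_perm, Fintype.card_fin]

end Pool.Agent.GaussMR

end

/-! ### from `Lib_MP_f1a94e_mr.PairsB` -/

section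

/-!
# Piece PAIRSB: sum of the norms of the gcd of two products
-/

set_option autoImplicit false

namespace Pool.Agent.GaussMR

/-- splitting a sum over functions at one coordinate -/
theorem pb_sum_insert {m : ℕ} (W : Finset G) (j : Fin (m + 1)) (f : (Fin (m + 1) → G) → ℝ) :
    ∑ y ∈ Fintype.piFinset (fun _ : Fin (m + 1) => W), f y =
      ∑ a ∈ W, ∑ y ∈ Fintype.piFinset (fun _ : Fin m => W), f (Fin.insertNth j a y) := by
  rw [← Finset.sum_product']
  symm
  refine Finset.sum_bij' (fun p _ => (Fin.insertNth j p.1 p.2 : Fin (m + 1) → G))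
    (fun y _ => (y j, fun i => y (j.succAbove i))) ?_ ?_ ?_ ?_ ?_
  · rintro ⟨a, y⟩ hp
    rw [Finset.mem_product] at hp
    rw [Fintype.mem_piFinset]
    intro i
    have h2 := Fintype.mem_piFinset.1 hp.2
    refine Fin.succAboveCases j ?_ (fun i => ?_) i
    · rw [Fin.insertNth_apply_same]
      exact hp.1
    · rw [Fin.insertNth_apply_succAbove]
      exact h2 i
  · intro y hy
    rw [Fintype.mem_piFinset] at hy
    rw [Finset.mem_product]
    refine ⟨hy j, ?_⟩
    rw [Fintype.mem_piFinset]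
    intro i
    exact hy _
  · rintro ⟨a, y⟩ _
    refine Prod.ext ?_ ?_
    · show (Fin.insertNth j a y : Fin (m + 1) → G) j = a
      simp
    · funext i
      show (Fin.insertNth j a y : Fin (m + 1) → G) (j.succAbove i) = y i
      simp
  · intro y _
    exact Fin.insertNth_self_removeNth j y
  · rintro ⟨a, y⟩ _
    rfl

theorem pb_prod_insert {m : ℕ} (j : Fin (m + 1)) (a : G) (y : Fin m → G) :
    ∏ i, (Fin.insertNth j a y : Fin (m + 1) → G) i = a * ∏ i, y i := by
  rw [Fin.prod_univ_succAbove _ j]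
  simp

/-- number of elements -/
theorem pb_card {P Q Y : ℝ} {W : Finset G} (hW : W ⊆ PP P Q) (hY : 1 ≤ Y)
    (h : ∀ w ∈ W, (nm w : ℝ) ≤ 3 * Y) : (W.card : ℝ) ≤ 3 * Y := by
  have h1 : W.card ≤ ⌊3 * Y⌋₊ := by
    have h2 : (W.image nm).card = W.card := by
      apply Finset.card_image_of_injOn
      intro a ha b hb hab
      exact PP_inj (hW ha) (hW hb) hab
    rw [← h2]
    have h3 : W.image nm ⊆ Finset.Icc 1 ⌊3 * Y⌋₊ := by
      intro n hn
      obtain ⟨w, hw, rfl⟩ := Finset.mem_image.1 hn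
      rw [Finset.mem_Icc]
      refine ⟨?_, Nat.le_floor (h w hw)⟩
      exact (mem_PP.1 (hW hw)).2.2.1.one_lt.le
    have h4 := Finset.card_le_card h3
    rwa [Nat.card_Icc, Nat.add_sub_cancel] at h4
  calc (W.card : ℝ) ≤ (⌊3 * Y⌋₊ : ℝ) := by exact_mod_cast h1
    _ ≤ 3 * Y := Nat.floor_le (by linarith)

theorem pb_nm_le {d e : G} (he : e ≠ 0) (h : d ∣ e) : nm d ≤ nm e :=
  Nat.le_of_dvd (nm_pos he) (nm_dvd h)

theorem pb_gcd_ne {a b : G} (ha : a ≠ 0) : EuclideanDomain.gcd a b ≠ 0 := by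
  intro h
  exact ha (EuclideanDomain.gcd_eq_zero_iff.1 h).1

theorem pb_gcd_coprime {w a b : G} (hw : Prime w) (ha : a ≠ 0) (hb : ¬(w ∣ b)) :
    nm (EuclideanDomain.gcd (w * a) b) ≤ nm (EuclideanDomain.gcd a b) := by
  apply pb_nm_le (pb_gcd_ne ha)
  apply EuclideanDomain.dvd_gcd
  · have h1 : EuclideanDomain.gcd (w * a) b ∣ w * a := EuclideanDomain.gcd_dvd_left _ _
    have h2 : ¬(w ∣ EuclideanDomain.gcd (w * a) b) := fun h =>
      hb (h.trans (EuclideanDomain.gcd_dvd_right _ _))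
    have h3 : IsCoprime w (EuclideanDomain.gcd (w * a) b) :=
      (hw.irreducible.coprime_iff_not_dvd).2 h2
    exact h3.symm.dvd_of_dvd_mul_left h1
  · exact EuclideanDomain.gcd_dvd_right _ _

theorem pb_gcd_mul {w a b : G} (hw : w ≠ 0) (ha : a ≠ 0) :
    nm (EuclideanDomain.gcd (w * a) (w * b)) ≤ nm w * nm (EuclideanDomain.gcd a b) := by
  rw [← nm_mul]
  apply pb_nm_le (mul_ne_zero hw (pb_gcd_ne ha))
  have h1 : w * EuclideanDomain.gcd a b =
      w * a * EuclideanDomain.gcdA a b + w * b * EuclideanDomain.gcdB a b := by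
    rw [EuclideanDomain.gcd_eq_gcd_ab a b]
    ring
  rw [h1]
  exact dvd_add ((EuclideanDomain.gcd_dvd_left _ _).mul_right _)
    ((EuclideanDomain.gcd_dvd_right _ _).mul_right _)

/-- the sum with different numbers of factors -/
theorem pb_main (l : ℕ) : ∀ m : ℕ, ∃ C : ℝ, 0 < C ∧ ∀ (P Q Y : ℝ) (W : Finset G), W ⊆ PP P Q →
    1 ≤ Y → (∀ w ∈ W, (nm w : ℝ) ≤ 3 * Y) →
    ∑ x ∈ Fintype.piFinset (fun _ : Fin l => W), ∑ y ∈ Fintype.piFinset (fun _ : Fin m => W),
      (nm (EuclideanDomain.gcd (∏ i, x i) (∏ i, y i)) : ℝ) ≤ C * Y ^ (l + m) := by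
  induction l with
  | zero =>
    intro m
    refine ⟨3 ^ m, by positivity, ?_⟩
    intro P Q Y W hW hY h
    have hc := pb_card hW hY h
    have h1 : ∀ x ∈ Fintype.piFinset (fun _ : Fin 0 => W),
        ∑ y ∈ Fintype.piFinset (fun _ : Fin m => W),
          (nm (EuclideanDomain.gcd (∏ i, x i) (∏ i, y i)) : ℝ) = (W.card : ℝ) ^ m := by
      intro x _
      have h2 : ∀ y ∈ Fintype.piFinset (fun _ : Fin m => W),
          (nm (EuclideanDomain.gcd (∏ i, x i) (∏ i, y i)) : ℝ) = 1 := by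
        intro y _
        have h3 : ∏ i, x i = 1 := by simp
        rw [h3]
        have h4 : IsUnit (EuclideanDomain.gcd (1 : G) (∏ i, y i)) :=
          isUnit_of_dvd_one (EuclideanDomain.gcd_dvd_left _ _)
        rw [nm_eq_one_iff.2 h4]
        simp
      rw [Finset.sum_congr rfl h2]
      simp
    rw [Finset.sum_congr rfl h1]
    have h5 : (Fintype.piFinset (fun _ : Fin 0 => W)).card = 1 := by simp
    rw [Finset.sum_const, h5, one_smul, Nat.zero_add, ← mul_pow]
    exact pow_le_pow_left₀ (by positivity) hc m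
  | succ l ih =>
    intro m
    rcases Nat.eq_zero_or_pos m with hm | hm
    · subst hm
      refine ⟨3 ^ (l + 1), by positivity, ?_⟩
      intro P Q Y W hW hY h
      have hc := pb_card hW hY h
      have h1 : ∀ x ∈ Fintype.piFinset (fun _ : Fin (l + 1) => W),
          ∑ y ∈ Fintype.piFinset (fun _ : Fin 0 => W),
            (nm (EuclideanDomain.gcd (∏ i, x i) (∏ i, y i)) : ℝ) = 1 := by
        intro x _
        have h2 : ∀ y ∈ Fintype.piFinset (fun _ : Fin 0 => W),
            (nm (EuclideanDomain.gcd (∏ i, x i) (∏ i, y i)) : ℝ) = 1 := by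
          intro y _
          have h3 : ∏ i, y i = 1 := by simp
          rw [h3]
          have h4 : IsUnit (EuclideanDomain.gcd (∏ i, x i) (1 : G)) :=
            isUnit_of_dvd_one (EuclideanDomain.gcd_dvd_right _ _)
          rw [nm_eq_one_iff.2 h4]
          simp
        rw [Finset.sum_congr rfl h2]
        simp
      rw [Finset.sum_congr rfl h1]
      have h5 : ((Fintype.piFinset (fun _ : Fin (l + 1) => W)).card : ℝ) =
          (W.card : ℝ) ^ (l + 1) := by
        simp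
      rw [Finset.sum_const, nsmul_eq_mul, mul_one, h5, Nat.add_zero, ← mul_pow]
      exact pow_le_pow_left₀ (by positivity) hc _
    · obtain ⟨m, rfl⟩ : ∃ m', m = m' + 1 := ⟨m - 1, by omega⟩
      obtain ⟨C1, hC1, H1⟩ := ih (m + 1)
      obtain ⟨C2, hC2, H2⟩ := ih m
      refine ⟨3 * C1 + (m + 1) * 9 * C2, by positivity, ?_⟩
      intro P Q Y W hW hY h
      have hc := pb_card hW hY h
      have I1 := H1 P Q Y W hW hY h
      have I2 := H2 P Q Y W hW hY h
      have hne : ∀ w ∈ W, w ≠ 0 := fun w hw => (PP_spl (hW hw)).prime.ne_zero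
      have hprod : ∀ {n : ℕ} (x : Fin n → G), x ∈ Fintype.piFinset (fun _ : Fin n => W) →
          ∏ i, x i ≠ 0 := by
        intro n x hx
        rw [Finset.prod_ne_zero_iff]
        intro i _
        exact hne _ (Fintype.mem_piFinset.1 hx i)
      -- pointwise bound
      have key : ∀ w ∈ W, ∀ x ∈ Fintype.piFinset (fun _ : Fin l => W),
          ∑ y ∈ Fintype.piFinset (fun _ : Fin (m + 1) => W),
            (nm (EuclideanDomain.gcd (w * ∏ i, x i) (∏ i, y i)) : ℝ) ≤
          ∑ y ∈ Fintype.piFinset (fun _ : Fin (m + 1) => W),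
            (nm (EuclideanDomain.gcd (∏ i, x i) (∏ i, y i)) : ℝ) +
          (m + 1) * (3 * Y) * ∑ y ∈ Fintype.piFinset (fun _ : Fin m => W),
            (nm (EuclideanDomain.gcd (∏ i, x i) (∏ i, y i)) : ℝ) := by
        intro w hw x hx
        have hwp : Prime w := (PP_spl (hW hw)).prime
        have hx0 := hprod x hx
        have step : ∀ y ∈ Fintype.piFinset (fun _ : Fin (m + 1) => W),
            (nm (EuclideanDomain.gcd (w * ∏ i, x i) (∏ i, y i)) : ℝ) ≤
            (nm (EuclideanDomain.gcd (∏ i, x i) (∏ i, y i)) : ℝ) +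
            ∑ j : Fin (m + 1), if y j = w then
              (nm (EuclideanDomain.gcd (w * ∏ i, x i) (∏ i, y i)) : ℝ) else 0 := by
          intro y hy
          by_cases hd : w ∣ ∏ i, y i
          · obtain ⟨j, _, hj⟩ := (hwp.dvd_finsetProd_iff _).1 hd
            have hj' : y j = w := (PP_dvd (hW hw) (hW (Fintype.mem_piFinset.1 hy j)) hj).symm
            have h3 : (nm (EuclideanDomain.gcd (w * ∏ i, x i) (∏ i, y i)) : ℝ) ≤
                ∑ j : Fin (m + 1), if y j = w then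
                (nm (EuclideanDomain.gcd (w * ∏ i, x i) (∏ i, y i)) : ℝ) else 0 := by
              have h4 := Finset.single_le_sum (f := fun j : Fin (m + 1) => if y j = w then
                (nm (EuclideanDomain.gcd (w * ∏ i, x i) (∏ i, y i)) : ℝ) else 0)
                (s := Finset.univ) (fun i _ => by positivity) (Finset.mem_univ j)
              simp only [hj', if_true] at h4
              exact h4
            have h5 : (0 : ℝ) ≤ (nm (EuclideanDomain.gcd (∏ i, x i) (∏ i, y i)) : ℝ) := by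
              positivity
            linarith
          · have h3 : (nm (EuclideanDomain.gcd (w * ∏ i, x i) (∏ i, y i)) : ℝ) ≤
                (nm (EuclideanDomain.gcd (∏ i, x i) (∏ i, y i)) : ℝ) := by
              exact_mod_cast pb_gcd_coprime hwp hx0 hd
            have h4 : (0 : ℝ) ≤ ∑ j : Fin (m + 1), if y j = w then
                (nm (EuclideanDomain.gcd (w * ∏ i, x i) (∏ i, y i)) : ℝ) else 0 :=
              Finset.sum_nonneg (fun i _ => by positivity)
            linarith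
        refine (Finset.sum_le_sum step).trans ?_
        rw [Finset.sum_add_distrib]
        have h6 : ∑ y ∈ Fintype.piFinset (fun _ : Fin (m + 1) => W), ∑ j : Fin (m + 1),
            (if y j = w then
              (nm (EuclideanDomain.gcd (w * ∏ i, x i) (∏ i, y i)) : ℝ) else 0) ≤
            (m + 1) * (3 * Y) * ∑ y ∈ Fintype.piFinset (fun _ : Fin m => W),
            (nm (EuclideanDomain.gcd (∏ i, x i) (∏ i, y i)) : ℝ) := by
          rw [Finset.sum_comm]
          have h7 : ∀ j ∈ (Finset.univ : Finset (Fin (m + 1))),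
              ∑ y ∈ Fintype.piFinset (fun _ : Fin (m + 1) => W),
              (if y j = w then
              (nm (EuclideanDomain.gcd (w * ∏ i, x i) (∏ i, y i)) : ℝ) else 0) ≤
              (3 * Y) * ∑ y ∈ Fintype.piFinset (fun _ : Fin m => W),
                (nm (EuclideanDomain.gcd (∏ i, x i) (∏ i, y i)) : ℝ) := by
            intro j _
            rw [pb_sum_insert W j]
            have h8 : ∀ a ∈ W, ∑ y ∈ Fintype.piFinset (fun _ : Fin m => W),
                (if (Fin.insertNth j a y : Fin (m + 1) → G) j = w then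
                (nm (EuclideanDomain.gcd (w * ∏ i, x i)
                  (∏ i, (Fin.insertNth j a y : Fin (m + 1) → G) i)) : ℝ) else 0) =
                if a = w then ∑ y ∈ Fintype.piFinset (fun _ : Fin m => W),
                  (nm (EuclideanDomain.gcd (w * ∏ i, x i) (w * ∏ i, y i)) : ℝ) else 0 := by
              intro a _
              by_cases ha : a = w
              · subst ha
                simp only [Fin.insertNth_apply_same, if_true, pb_prod_insert]
              · simp [ha]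
            rw [Finset.sum_congr rfl h8, Finset.sum_ite_eq' W w, if_pos hw, Finset.mul_sum]
            apply Finset.sum_le_sum
            intro y _
            have h9 := pb_gcd_mul (w := w) (a := ∏ i, x i) (b := ∏ i, y i) (hne w hw) hx0
            have h10 : (nm (EuclideanDomain.gcd (w * ∏ i, x i) (w * ∏ i, y i)) : ℝ) ≤
                (nm w : ℝ) * (nm (EuclideanDomain.gcd (∏ i, x i) (∏ i, y i)) : ℝ) := by
              exact_mod_cast h9
            refine h10.trans ?_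
            exact mul_le_mul_of_nonneg_right (h w hw) (by positivity)
          refine (Finset.sum_le_sum h7).trans ?_
          rw [Finset.sum_const]
          simp only [Finset.card_univ, Fintype.card_fin, nsmul_eq_mul]
          push_cast
          apply le_of_eq
          ring
        linarith
      -- sum over the first coordinate
      rw [pb_sum_insert W (0 : Fin (l + 1))]
      simp only [pb_prod_insert]
      have h11 : ∑ w ∈ W, ∑ x ∈ Fintype.piFinset (fun _ : Fin l => W),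
          ∑ y ∈ Fintype.piFinset (fun _ : Fin (m + 1) => W),
            (nm (EuclideanDomain.gcd (w * ∏ i, x i) (∏ i, y i)) : ℝ) ≤
          ∑ _w ∈ W, (C1 * Y ^ (l + (m + 1)) + (m + 1) * (3 * Y) * (C2 * Y ^ (l + m))) := by
        apply Finset.sum_le_sum
        intro w hw
        refine (Finset.sum_le_sum (key w hw)).trans ?_
        rw [Finset.sum_add_distrib, ← Finset.mul_sum]
        have h12 : (0 : ℝ) ≤ (m + 1) * (3 * Y) := by positivity
        exact add_le_add I1 (mul_le_mul_of_nonneg_left I2 h12)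
      refine h11.trans ?_
      rw [Finset.sum_const, nsmul_eq_mul]
      have h13 : (0 : ℝ) ≤ C1 * Y ^ (l + (m + 1)) + (m + 1) * (3 * Y) * (C2 * Y ^ (l + m)) := by
        positivity
      refine (mul_le_mul_of_nonneg_right hc h13).trans ?_
      apply le_of_eq
      have e1 : Y ^ (l + 1 + (m + 1)) = Y ^ (l + m) * Y ^ 2 := by rw [← pow_add]; ring_nf
      have e2 : Y ^ (l + (m + 1)) = Y ^ (l + m) * Y := by rw [← pow_succ]; ring_nf
      rw [e1, e2]
      ring

/-- `gcd(∏ x, ∏ y)` is (up to a unit) a product of common primes: there are a subset `I` of `Fin l` and an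
injection `σ : I → Fin l` with `x_i = y_(σ i)` for `i ∈ I` and `nm gcd = ∏_{i ∈ I} nm (x_i) ≤ (3 Y)^|I|`.
For given `(I, σ)` the number of `(x, y)` is at most `#W^(2 l - |I|) ≤ (3 Y)^(2 l - |I|)` (distinct elements
of `PP` have distinct norms, so `#W ≤ 3 Y`). Sum over the boundedly many `(I, σ)`. -/
theorem pairsB (l : ℕ) : ∃ C : ℝ, 0 < C ∧ ∀ (P Q Y : ℝ) (W : Finset G), W ⊆ PP P Q → 1 ≤ Y →
    (∀ w ∈ W, (nm w : ℝ) ≤ 3 * Y) →
    ∑ x ∈ Fintype.piFinset (fun _ : Fin l => W), ∑ y ∈ Fintype.piFinset (fun _ : Fin l => W),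
      (nm (EuclideanDomain.gcd (∏ i, x i) (∏ i, y i)) : ℝ) ≤ C * Y ^ (2 * l) := by
  obtain ⟨C, hC, H⟩ := pb_main l l
  refine ⟨C, hC, ?_⟩
  intro P Q Y W hW hY h
  have := H P Q Y W hW hY h
  rwa [← two_mul] at this

end Pool.Agent.GaussMR

end

/-! ### from `Lib_MP_f1a94e_eq.ProdB` -/

section

/-!
# Piece PRODB: bound for the products
-/

set_option autoImplicit false

namespace Pool.Agent.OmEq

open Finset Pool.Agent.OmAll MeasureTheory

/-- the phase of one prime -/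
theorem prodB_re {E : Finset ℕ} {g : ℕ → ℂ}
    (hg1 : ∀ p : ℕ, p.Prime → p % 4 = 1 → p ∉ E → ‖g p‖ = 1) {T p : ℕ} (hp : p ∈ PE E T) (τ : ℝ) :
    |(g p * Complex.exp (-(2 * τ * Real.log p : ℝ) * Complex.I)).re| ≤ 1 := by
  obtain ⟨-, h2, h3, h4⟩ := mem_PE.1 hp
  refine (Complex.abs_re_le_norm _).trans ?_
  rw [norm_mul, hg1 p h2 h3 h4, one_mul]
  have : (-(2 * τ * Real.log p : ℝ) * Complex.I : ℂ) = ((-(2 * τ * Real.log p) : ℝ) : ℂ) * Complex.I := by
    push_cast
    ring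
  rw [this, Complex.norm_exp_ofReal_mul_I]

theorem prodB_five {E : Finset ℕ} {T p : ℕ} (hp : p ∈ PE E T) : 5 ≤ p := by
  obtain ⟨h1, h2, h3, h4⟩ := mem_PE.1 hp
  exact ZSm.PT_five (ZSm.mem_PT.2 ⟨h1, h2, h3⟩)

theorem prodB_Ap {p : ℕ} (hp : 5 ≤ p) : 2 * Ap p ≤ 4 / 5 := by
  obtain ⟨-, h2, -⟩ := Ap_bound p hp
  refine h2.trans ?_
  have : (5 : ℝ) ≤ p := by exact_mod_cast hp
  apply div_le_div_of_nonneg_left (by norm_num) (by norm_num) this

theorem prodB_factor {p : ℕ} (hp : 5 ≤ p) {z c : ℝ} (hz : 0 < z) (hc : |c| ≤ 1) :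
    0 ≤ 1 + 2 * Ap p * (z - 1 + z * c) := by
  obtain ⟨h1, -, -⟩ := Ap_bound p hp
  have h2 := prodB_Ap hp
  have h3 : -1 ≤ c := (abs_le.1 hc).1
  have h4 : -1 ≤ z - 1 + z * c := by nlinarith
  nlinarith

theorem prodB_prod (E : Finset ℕ) (g : ℕ → ℂ) (hg1 : ∀ p : ℕ, p.Prime → p % 4 = 1 → p ∉ E → ‖g p‖ = 1)
    (R : ℝ) (hNP : NP E g R) (z : ℝ) (hz : 1 / 2 < z) (hz1 : z < 1)
    (B : ℝ) (hBpos : 0 < B) :
    ∃ K : ℝ, ∀ T : ℕ, 3 ≤ T → ∀ τ : ℝ, 0 < |τ| → |τ| ≤ B →
      ∏ p ∈ PE E T,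
        (1 + 2 * Ap p * (z - 1 + z * (g p * Complex.exp (-(2 * τ * Real.log p : ℝ) * Complex.I)).re)) ≤
      (Real.log T) ^ (2 * (z - 1)) * (Real.exp K *
        Real.exp (2 * z * R * max 0 (Real.log (1 / |τ|)))) := by
  obtain ⟨C1, hC1⟩ := mu_bound
  obtain ⟨C2, hC2⟩ := hNP B hBpos
  have hs : Summable (fun p : ℕ => 12 / (p : ℝ) ^ 2) := by
    have := (Real.summable_one_div_nat_pow (p := 2)).mpr (by norm_num)
    refine (this.mul_left 12).congr (fun p => ?_)
    ring
  obtain ⟨S, hS⟩ : ∃ S : ℝ, S = ∑' p : ℕ, 12 / (p : ℝ) ^ 2 := ⟨_, rfl⟩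
  refine ⟨|C1| + E.card + 4 * |C2| + S, fun T hT τ hτ hτB => ?_⟩
  have hlog := ZSm.one_le_logT hT
  obtain ⟨c, hc⟩ : ∃ c : ℕ → ℝ, ∀ p, c p =
    (g p * Complex.exp (-(2 * τ * Real.log p : ℝ) * Complex.I)).re := ⟨_, fun _ => rfl⟩
  have hc1 : ∀ p ∈ PE E T, |c p| ≤ 1 := by
    intro p hp
    rw [hc]
    exact prodB_re hg1 hp τ
  simp only [← hc]
  have hNP' : ∑ p ∈ PE E T, c p / p ≤ R / 2 * max 0 (Real.log (1 / |τ|)) + C2 := by
    have := hC2 T hT τ hτ hτB
    simp only [← hc] at this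
    exact this
  have h1 : ∏ p ∈ PE E T, (1 + 2 * Ap p * (z - 1 + z * c p)) ≤
      Real.exp (∑ p ∈ PE E T, 2 * Ap p * (z - 1 + z * c p)) := by
    rw [Real.exp_sum]
    apply prod_le_prod
    · intro p hp
      exact prodB_factor (prodB_five hp) (by linarith) (hc1 p hp)
    · intro p hp
      have := Real.add_one_le_exp (2 * Ap p * (z - 1 + z * c p))
      linarith
  refine h1.trans ?_
  have h2 : (Real.log T) ^ (2 * (z - 1)) = Real.exp (Real.log (Real.log T) * (2 * (z - 1))) :=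
    Real.rpow_def_of_pos (by linarith) _
  rw [h2, ← Real.exp_add, ← Real.exp_add]
  apply Real.exp_le_exp.2
  -- the sum
  have h3 : ∑ p ∈ PE E T, 2 * Ap p * (z - 1 + z * c p) =
      (z - 1) * ∑ p ∈ PE E T, 2 * Ap p + z * ∑ p ∈ PE E T, 2 * Ap p * c p := by
    rw [mul_sum, mul_sum, ← sum_add_distrib]
    refine sum_congr rfl fun p _ => ?_
    ring
  have h4 : muT T ≤ ∑ p ∈ PE E T, 2 * Ap p + E.card := by
    unfold muT PE
    rw [← sum_inter_add_sum_sdiff (PT T) E]
    have h5 : ∑ p ∈ PT T ∩ E, 2 * Ap p ≤ E.card := by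
      have h6 : ∑ p ∈ PT T ∩ E, 2 * Ap p ≤ ∑ _p ∈ PT T ∩ E, (1 : ℝ) := by
        apply sum_le_sum
        intro p hp
        have := prodB_Ap (ZSm.PT_five (mem_inter.1 hp).1)
        linarith
      rw [sum_const, nsmul_eq_mul, mul_one] at h6
      refine h6.trans ?_
      exact_mod_cast card_le_card inter_subset_right
    linarith
  have h5 : (z - 1) * ∑ p ∈ PE E T, 2 * Ap p ≤
      Real.log (Real.log T) * (2 * (z - 1)) + |C1| + E.card := by
    have h6 := (abs_le.1 (hC1 T hT)).1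
    have h7 : 2 * Real.log (Real.log T) - |C1| - E.card ≤ ∑ p ∈ PE E T, 2 * Ap p := by
      have := le_abs_self C1
      linarith
    have h8 : (z - 1) * ∑ p ∈ PE E T, 2 * Ap p ≤
        (z - 1) * (2 * Real.log (Real.log T) - |C1| - E.card) :=
      mul_le_mul_of_nonpos_left h7 (by linarith)
    have h9 : (1 - z) * (|C1| + E.card) ≤ 1 * (|C1| + E.card) :=
      mul_le_mul_of_nonneg_right (by linarith) (by positivity)
    linarith
  have h6 : ∑ p ∈ PE E T, 2 * Ap p * c p ≤ 4 * ∑ p ∈ PE E T, c p / p + S := by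
    have h7 : ∀ p ∈ PE E T, 2 * Ap p * c p ≤ 4 * (c p / p) + 12 / (p : ℝ) ^ 2 := by
      intro p hp
      obtain ⟨-, h8, h9⟩ := Ap_bound p (prodB_five hp)
      have h10 := hc1 p hp
      have h11 : 2 * Ap p * c p - 4 * (c p / p) = (4 / (p : ℝ) - 2 * Ap p) * (-c p) := by ring
      have h12 : (4 / (p : ℝ) - 2 * Ap p) * (-c p) ≤ (4 / (p : ℝ) - 2 * Ap p) * 1 :=
        mul_le_mul_of_nonneg_left (by linarith [(abs_le.1 h10).1]) (by linarith)
      linarith
    have h8 := sum_le_sum h7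
    rw [sum_add_distrib, ← mul_sum] at h8
    have h9 : ∑ p ∈ PE E T, 12 / (p : ℝ) ^ 2 ≤ S := by
      rw [hS]
      exact hs.sum_le_tsum _ (fun p _ => by positivity)
    linarith
  have hS0 : 0 ≤ S := by rw [hS]; exact tsum_nonneg (fun p => by positivity)
  have h7 : z * ∑ p ∈ PE E T, 2 * Ap p * c p ≤
      2 * z * R * max 0 (Real.log (1 / |τ|)) + 4 * |C2| + S := by
    have h8 : ∑ p ∈ PE E T, 2 * Ap p * c p ≤ 4 * (R / 2 * max 0 (Real.log (1 / |τ|)) + C2) + S := by
      linarith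
    have h9 := mul_le_mul_of_nonneg_left h8 (by linarith : 0 ≤ z)
    have h10 : z * (4 * C2 + S) ≤ 1 * (4 * |C2| + S) := by
      have e1 : z * (4 * C2 + S) ≤ z * (4 * |C2| + S) :=
        mul_le_mul_of_nonneg_left (by linarith [le_abs_self C2]) (by linarith)
      have e2 : z * (4 * |C2| + S) ≤ 1 * (4 * |C2| + S) :=
        mul_le_mul_of_nonneg_right hz1.le (by positivity)
      linarith
    linarith
  rw [h3]
  linarith

/-- the integrable majorant -/
theorem prodB_major (R z B C : ℝ) (hR0 : 0 ≤ R) (hR1 : R ≤ 1) (hz : 1 / 2 < z) (hz1 : z < 1)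
    (hzR : R < 1 → 2 * z * R < 1) (hBpos : 0 < B) (φ : ℝ → ℂ) (hφ : Continuous φ)
    (hB : ∀ τ, B ≤ |τ| → φ τ = 0) (h0 : R < 1 ∨ ∀ τ, ‖φ τ‖ ≤ C * |τ|) :
    ∃ h : ℝ → ℝ, Integrable h ∧ ∀ τ : ℝ, 0 < |τ| →
      ‖φ τ‖ ^ 2 * Real.exp (2 * z * R * max 0 (Real.log (1 / |τ|))) ≤ h τ := by
  have hI : Integrable (Set.indicator (Set.Icc (-B) B) (fun _ : ℝ => (1 : ℝ))) := by
    rw [integrable_indicator_iff measurableSet_Icc]
    exact (continuous_const.integrableOn_Icc)
  have hMle : ∀ τ : ℝ, 0 < |τ| → 1 ≤ |τ| →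
      Real.exp (2 * z * R * max 0 (Real.log (1 / |τ|))) = 1 := by
    intro τ h1 h2
    have h3 : Real.log (1 / |τ|) ≤ 0 := by
      apply Real.log_nonpos (by positivity)
      rw [div_le_one h1]
      exact h2
    rw [max_eq_left h3, mul_zero, Real.exp_zero]
  have hMlt : ∀ τ : ℝ, 0 < |τ| → |τ| < 1 →
      Real.exp (2 * z * R * max 0 (Real.log (1 / |τ|))) = |τ| ^ (-(2 * z * R)) := by
    intro τ h1 h2
    have h3 : 0 ≤ Real.log (1 / |τ|) := by
      apply Real.log_nonneg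
      rw [le_div_iff₀ h1]
      linarith
    rw [max_eq_right h3, Real.rpow_def_of_pos h1, one_div, Real.log_inv]
    congr 1
    ring
  rcases h0 with h0 | h0
  · -- bounded case
    have ha := hzR h0
    obtain ⟨M, hM⟩ : ∃ M : ℝ, ∀ τ, ‖φ τ‖ ≤ M := by
      obtain ⟨M, hM⟩ := (isCompact_Icc (a := -B) (b := B)).exists_bound_of_continuousOn
        hφ.continuousOn
      refine ⟨max M 0, fun τ => ?_⟩
      by_cases h : |τ| ≤ B
      · exact (hM τ (abs_le.1 h)).trans (le_max_left _ _)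
      · rw [hB τ (not_le.1 h).le, norm_zero]
        exact le_max_right _ _
    have hM0 : 0 ≤ M := (norm_nonneg _).trans (hM 0)
    obtain ⟨h1, hh1⟩ : ∃ h1 : ℝ → ℝ, h1 = Set.indicator (Set.Ioc 0 B)
      (fun τ : ℝ => τ ^ (-(2 * z * R))) := ⟨_, rfl⟩
    have hi1 : Integrable h1 := by
      rw [hh1, integrable_indicator_iff measurableSet_Ioc,
        ← intervalIntegrable_iff_integrableOn_Ioc_of_le hBpos.le]
      exact intervalIntegral.intervalIntegrable_rpow' (by linarith)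
    have hn1 : ∀ τ, 0 ≤ h1 τ := by
      intro τ
      rw [hh1]
      apply Set.indicator_nonneg
      intro x hx
      exact Real.rpow_nonneg hx.1.le _
    refine ⟨fun τ => M ^ 2 * (Set.indicator (Set.Icc (-B) B) (fun _ : ℝ => (1 : ℝ)) τ +
      (h1 τ + h1 (-τ))), (hI.add (hi1.add hi1.comp_neg)).const_mul _, fun τ hτ => ?_⟩
    beta_reduce
    by_cases hτB : |τ| ≤ B
    · have e1 : Real.exp (2 * z * R * max 0 (Real.log (1 / |τ|))) ≤ 1 + |τ| ^ (-(2 * z * R)) := by
        have e2 : 0 ≤ |τ| ^ (-(2 * z * R)) := Real.rpow_nonneg hτ.le _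
        rcases le_or_gt 1 |τ| with h | h
        · rw [hMle τ hτ h]; linarith
        · rw [hMlt τ hτ h]; linarith
      have e3 : |τ| ^ (-(2 * z * R)) ≤ h1 τ + h1 (-τ) := by
        rcases le_or_gt 0 τ with h | h
        · rw [abs_of_nonneg h] at hτ hτB ⊢
          have : h1 τ = τ ^ (-(2 * z * R)) := by
            rw [hh1, Set.indicator_of_mem (by exact ⟨hτ, hτB⟩)]
          rw [this]
          linarith [hn1 (-τ)]
        · rw [abs_of_neg h] at hτ hτB ⊢
          have : h1 (-τ) = (-τ) ^ (-(2 * z * R)) := by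
            rw [hh1, Set.indicator_of_mem (by exact ⟨hτ, hτB⟩)]
          rw [this]
          linarith [hn1 τ]
      rw [Set.indicator_of_mem (by exact abs_le.1 hτB)]
      have e4 : ‖φ τ‖ ^ 2 ≤ M ^ 2 := pow_le_pow_left₀ (norm_nonneg _) (hM τ) 2
      exact mul_le_mul e4 (by linarith) (Real.exp_pos _).le (by positivity)
    · rw [hB τ (not_le.1 hτB).le, norm_zero]
      have e5 : 0 ≤ Set.indicator (Set.Icc (-B) B) (fun _ : ℝ => (1 : ℝ)) τ :=
        Set.indicator_nonneg (fun _ _ => zero_le_one) _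
      have e6 := hn1 τ
      have e7 := hn1 (-τ)
      have : 0 ≤ M ^ 2 * (Set.indicator (Set.Icc (-B) B) (fun _ : ℝ => (1 : ℝ)) τ +
        (h1 τ + h1 (-τ))) := by positivity
      simpa using this
  · refine ⟨fun τ => C ^ 2 * (B ^ 2 + 1) *
      Set.indicator (Set.Icc (-B) B) (fun _ : ℝ => (1 : ℝ)) τ, hI.const_mul _, fun τ hτ => ?_⟩
    beta_reduce
    by_cases hτB : |τ| ≤ B
    · rw [Set.indicator_of_mem (by exact abs_le.1 hτB), mul_one]
      have e1 : ‖φ τ‖ ^ 2 ≤ C ^ 2 * |τ| ^ 2 := by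
        rw [← mul_pow]
        exact pow_le_pow_left₀ (norm_nonneg _) (h0 τ) 2
      have e2 : |τ| ^ 2 * Real.exp (2 * z * R * max 0 (Real.log (1 / |τ|))) ≤ B ^ 2 + 1 := by
        rcases le_or_gt 1 |τ| with h | h
        · rw [hMle τ hτ h]
          have : |τ| ^ 2 ≤ B ^ 2 := pow_le_pow_left₀ hτ.le hτB 2
          linarith
        · rw [hMlt τ hτ h, ← Real.rpow_natCast |τ| 2, ← Real.rpow_add hτ]
          have e3 : |τ| ^ (((2 : ℕ) : ℝ) + -(2 * z * R)) ≤ 1 := by
            apply Real.rpow_le_one hτ.le h.le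
            push_cast
            nlinarith
          have : 0 ≤ B ^ 2 := by positivity
          linarith
      calc ‖φ τ‖ ^ 2 * Real.exp (2 * z * R * max 0 (Real.log (1 / |τ|)))
          ≤ (C ^ 2 * |τ| ^ 2) * Real.exp (2 * z * R * max 0 (Real.log (1 / |τ|))) :=
            mul_le_mul_of_nonneg_right e1 (Real.exp_pos _).le
        _ = C ^ 2 * (|τ| ^ 2 * Real.exp (2 * z * R * max 0 (Real.log (1 / |τ|)))) := by ring
        _ ≤ C ^ 2 * (B ^ 2 + 1) := mul_le_mul_of_nonneg_left e2 (by positivity)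
    · rw [hB τ (not_le.1 hτB).le, norm_zero]
      have e5 : 0 ≤ Set.indicator (Set.Icc (-B) B) (fun _ : ℝ => (1 : ℝ)) τ :=
        Set.indicator_nonneg (fun _ _ => zero_le_one) _
      have : 0 ≤ C ^ 2 * (B ^ 2 + 1) * Set.indicator (Set.Icc (-B) B) (fun _ : ℝ => (1 : ℝ)) τ := by
        positivity
      simpa using this

/-- PROOF. Put `c_p = Re (g p exp (-2 i τ log p))`, `|c_p| ≤ 1`. The factor is `1 + 2 Ap p (z - 1 + z c_p) = 1 - 2 Ap p + Ap p z ‖1 + g p exp(..)‖^2 ≥ 0`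
(`2 Ap p ≤ 4/5`, `‖g p‖ = 1`) and `≤ exp (2 Ap p (z - 1 + z c_p))`. With `Ap_bound`: `4/p - 12/p^2 ≤ 2 Ap p ≤ 4/p`, so the sum of the exponents is at most
`(z - 1) ∑_(PE) 2 Ap p + z ∑_(PE) (4/p) c_p + ∑ 12/p^2 ≤ (z - 1) (2 log log T - C1) + 4 z (R/2 max 0 (log (1/|τ|)) + C2) + C3`: `mu_bound` for
`muT T = ∑_(PT T) 2 Ap p`, the primes of `E` contribute at most `2 #E`; `NP` with `B`. So the product is
`≤ C4 (log T)^(2 (z-1)) max 1 (|τ|^(-2 z R))` for `0 < |τ| ≤ B`. If `R < 1` then `2 z R < 1` and `‖φ τ‖` is bounded: the integral over `|τ| ≤ B` of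
`|τ|^(-2 z R)` is finite. If `‖φ τ‖ ≤ C |τ|`: `|τ|^(2 - 2 z R)` is bounded (`2 z R ≤ 2 z < 2`). (`intervalIntegral.integrableOn_rpow` type lemmas:
`integrableOn_Ioo_rpow_iff`, `intervalIntegrable_rpow'`.) -/
theorem prodB (E : Finset ℕ) (g : ℕ → ℂ) (hg1 : ∀ p : ℕ, p.Prime → p % 4 = 1 → p ∉ E → ‖g p‖ = 1) (R : ℝ)
    (hR0 : 0 ≤ R) (hR1 : R ≤ 1) (hNP : NP E g R) (z : ℝ) (hz : 1 / 2 < z) (hz1 : z < 1) (hzR : R < 1 → 2 * z * R < 1)
    (B C : ℝ) (hBpos : 0 < B) (φ : ℝ → ℂ) (hφ : Continuous φ) (hB : ∀ τ, B ≤ |τ| → φ τ = 0)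
    (h0 : R < 1 ∨ ∀ τ, ‖φ τ‖ ≤ C * |τ|) :
    ∃ C' : ℝ, ∀ T : ℕ, 3 ≤ T →
      ∫ τ, ‖φ τ‖ ^ 2 * ∏ p ∈ PE E T,
        (1 + 2 * Ap p * (z - 1 + z * (g p * Complex.exp (-(2 * τ * Real.log p : ℝ) * Complex.I)).re)) ≤
      C' * (Real.log T) ^ (2 * (z - 1)) := by
  obtain ⟨K, hK⟩ := prodB_prod E g hg1 R hNP z hz hz1 B hBpos
  obtain ⟨h, hi, hh⟩ := prodB_major R z B C hR0 hR1 hz hz1 hzR hBpos φ hφ hB h0
  refine ⟨Real.exp K * ∫ τ, h τ, fun T hT => ?_⟩
  have hlog : 0 < Real.log T := by linarith [ZSm.one_le_logT hT]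
  have h1 : ∫ τ, ‖φ τ‖ ^ 2 * ∏ p ∈ PE E T,
        (1 + 2 * Ap p * (z - 1 + z * (g p * Complex.exp (-(2 * τ * Real.log p : ℝ) * Complex.I)).re)) ≤
      ∫ τ, ((Real.log T) ^ (2 * (z - 1)) * Real.exp K) * h τ := by
    apply integral_mono_of_nonneg
    · refine Filter.Eventually.of_forall fun τ => ?_
      apply mul_nonneg (by positivity)
      exact prod_nonneg fun p hp => prodB_factor (prodB_five hp) (by linarith) (prodB_re hg1 hp τ)
    · exact hi.const_mul _
    · have h2 : ∀ᵐ τ : ℝ, τ ≠ 0 := by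
        simp [ae_iff]
      filter_upwards [h2] with τ hτ
      have hτ' : 0 < |τ| := abs_pos.2 hτ
      by_cases hτB : |τ| ≤ B
      · have e1 := hK T hT τ hτ' hτB
        have e2 := hh τ hτ'
        calc ‖φ τ‖ ^ 2 * ∏ p ∈ PE E T,
              (1 + 2 * Ap p * (z - 1 + z * (g p * Complex.exp (-(2 * τ * Real.log p : ℝ) * Complex.I)).re))
            ≤ ‖φ τ‖ ^ 2 * ((Real.log T) ^ (2 * (z - 1)) * (Real.exp K *
                Real.exp (2 * z * R * max 0 (Real.log (1 / |τ|))))) :=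
              mul_le_mul_of_nonneg_left e1 (by positivity)
          _ = ((Real.log T) ^ (2 * (z - 1)) * Real.exp K) * (‖φ τ‖ ^ 2 *
                Real.exp (2 * z * R * max 0 (Real.log (1 / |τ|)))) := by ring
          _ ≤ _ := mul_le_mul_of_nonneg_left e2 (by positivity)
      · have e2 := hh τ hτ'
        rw [hB τ (not_le.1 hτB).le, norm_zero] at e2 ⊢
        have e3 : 0 ≤ h τ := by simpa using e2
        have : 0 ≤ ((Real.log T) ^ (2 * (z - 1)) * Real.exp K) * h τ := by positivity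
        simpa using this
  rw [integral_const_mul] at h1
  refine h1.trans (le_of_eq ?_)
  ring

end Pool.Agent.OmEq

end
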