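import Pool.Agent.Lib_MP_92ef0c_m.M02

/-!
# MP_92ef0c_nt, split pairs: merged library part M08

Concatenation of smaller files (each in its own section), only to save build time.
-/

/-! ### from `Lib_MP_f1a94e_mr.Ball` -/

section

/-!
# Piece BALL: counting Gaussian integers in discs
-/

set_option autoImplicit false

namespace Pool.Agent.GaussMR

open MeasureTheory

/-- the half open unit square around `z` -/
def sqr (z : G) : Set ℂ :=
  Complex.measurableEquivRealProd ⁻¹'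
    (Set.Ico ((z.re : ℝ) - 1 / 2) (z.re + 1 / 2) ×ˢ Set.Ico ((z.im : ℝ) - 1 / 2) (z.im + 1 / 2))

theorem mem_sqr {z : G} {w : ℂ} : w ∈ sqr z ↔
    ((z.re : ℝ) - 1 / 2 ≤ w.re ∧ w.re < z.re + 1 / 2) ∧
      ((z.im : ℝ) - 1 / 2 ≤ w.im ∧ w.im < z.im + 1 / 2) := by
  unfold sqr
  rw [Set.mem_preimage, Set.mem_prod, Set.mem_Ico, Set.mem_Ico]
  rfl

theorem measurableSet_sqr (z : G) : MeasurableSet (sqr z) :=
  Complex.measurableEquivRealProd.measurable (measurableSet_Ico.prod measurableSet_Ico)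

theorem volume_sqr (z : G) : volume (sqr z) = 1 := by
  unfold sqr
  rw [Complex.volume_preserving_equiv_real_prod.measure_preimage
    (measurableSet_Ico.prod measurableSet_Ico).nullMeasurableSet, Measure.volume_eq_prod,
    Measure.prod_prod, Real.volume_Ico, Real.volume_Ico]
  have h : ∀ x : ℝ, x + 1 / 2 - (x - 1 / 2) = 1 := fun x => by ring
  rw [h, h, ENNReal.ofReal_one, one_mul]

theorem disjoint_sqr {z w : G} (h : z ≠ w) : Disjoint (sqr z) (sqr w) := by
  rw [Set.disjoint_left]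
  intro x hx hy
  rw [mem_sqr] at hx hy
  apply h
  have key : ∀ a b : ℤ, ∀ y : ℝ, (a : ℝ) - 1 / 2 ≤ y → y < a + 1 / 2 → (b : ℝ) - 1 / 2 ≤ y →
      y < b + 1 / 2 → a = b := by
    intro a b y h1 h2 h3 h4
    have e1 : (a : ℝ) < b + 1 := by linarith
    have e2 : (b : ℝ) < a + 1 := by linarith
    have e1' : a < b + 1 := by exact_mod_cast e1
    have e2' : b < a + 1 := by exact_mod_cast e2
    omega
  apply Zsqrtd.ext
  · exact key _ _ _ hx.1.1 hx.1.2 hy.1.1 hy.1.2
  · exact key _ _ _ hx.2.1 hx.2.2 hy.2.1 hy.2.2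

theorem volume_union_sqr (S : Finset G) : volume (⋃ z ∈ S, sqr z) = (S.card : ENNReal) := by
  rw [measure_biUnion_finset (fun z _ w _ h => disjoint_sqr h) (fun z _ => measurableSet_sqr z)]
  simp [volume_sqr]

theorem dist_sqr {z : G} {w : ℂ} (h : w ∈ sqr z) : ‖(z : ℂ) - w‖ < 1 := by
  rw [mem_sqr] at h
  have h1 : ‖(z : ℂ) - w‖ ^ 2 < 1 := by
    rw [← Complex.normSq_eq_norm_sq, Complex.normSq_apply]
    simp only [Complex.sub_re, Complex.sub_im, ← GaussianInt.intCast_re, ← GaussianInt.intCast_im]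
    have a1 : |((z.re : ℝ)) - w.re| ≤ 1 / 2 := by
      rw [abs_le]; constructor <;> linarith [h.1.1, h.1.2]
    have a2 : |((z.im : ℝ)) - w.im| ≤ 1 / 2 := by
      rw [abs_le]; constructor <;> linarith [h.2.1, h.2.2]
    have b1 := abs_le.1 a1
    have b2 := abs_le.1 a2
    nlinarith
  nlinarith [norm_nonneg ((z : ℂ) - w)]

theorem card_ball_upper (t : ℝ) :
    ((ball t).card : ℝ) ≤ Real.pi * (Real.sqrt t + 1) ^ 2 := by
  have hsub : (⋃ z ∈ ball t, sqr z) ⊆ Metric.ball (0 : ℂ) (Real.sqrt t + 1) := by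
    intro w hw
    rw [Set.mem_iUnion₂] at hw
    obtain ⟨z, hz, hw⟩ := hw
    rw [mem_ball] at hz
    rw [mem_ball_zero_iff]
    have h1 := dist_sqr hw
    have h2 : ‖(z : ℂ)‖ ≤ Real.sqrt t := by
      rw [norm_eq_sqrt]
      exact Real.sqrt_le_sqrt hz
    have h3 : ‖w‖ ≤ ‖(z : ℂ)‖ + ‖(z : ℂ) - w‖ := by
      have := norm_sub_le (z : ℂ) ((z : ℂ) - w)
      rwa [sub_sub_cancel] at this
    linarith
  have h1 := measure_mono (μ := volume) hsub
  rw [volume_union_sqr, Complex.volume_ball] at h1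
  have hs : 0 ≤ Real.sqrt t + 1 := by positivity
  have h2 : ENNReal.ofReal (Real.sqrt t + 1) ^ 2 * (NNReal.pi : ENNReal) =
      ENNReal.ofReal (Real.pi * (Real.sqrt t + 1) ^ 2) := by
    rw [mul_comm, ENNReal.ofReal_mul Real.pi_pos.le, ENNReal.ofReal_pow hs]
    congr 1
    rw [← NNReal.coe_real_pi, ENNReal.ofReal_coe_nnreal]
  rw [h2] at h1
  have h3 : ENNReal.ofReal ((ball t).card : ℝ) ≤
      ENNReal.ofReal (Real.pi * (Real.sqrt t + 1) ^ 2) := by
    rwa [ENNReal.ofReal_natCast]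
  exact (ENNReal.ofReal_le_ofReal_iff (by positivity)).1 h3

theorem card_ball_lower (t : ℝ) (ht : 1 ≤ t) :
    Real.pi * (Real.sqrt t - 1) ^ 2 ≤ ((ball t).card : ℝ) := by
  have hs1 : 1 ≤ Real.sqrt t := Real.one_le_sqrt.2 ht
  have hsub : Metric.ball (0 : ℂ) (Real.sqrt t - 1) ⊆ ⋃ z ∈ ball t, sqr z := by
    intro w hw
    rw [mem_ball_zero_iff] at hw
    set z : G := ⟨⌊w.re + 1 / 2⌋, ⌊w.im + 1 / 2⌋⟩ with hz
    have hwz : w ∈ sqr z := by
      rw [mem_sqr, hz]
      have a1 := Int.floor_le (w.re + 1 / 2)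
      have a2 := Int.lt_floor_add_one (w.re + 1 / 2)
      have a3 := Int.floor_le (w.im + 1 / 2)
      have a4 := Int.lt_floor_add_one (w.im + 1 / 2)
      simp only
      refine ⟨⟨by linarith, by linarith⟩, by linarith, by linarith⟩
    rw [Set.mem_iUnion₂]
    refine ⟨z, ?_, hwz⟩
    rw [mem_ball]
    have h1 := dist_sqr hwz
    have h3 : ‖(z : ℂ)‖ ≤ ‖(z : ℂ) - w‖ + ‖w‖ := by
      have := norm_add_le ((z : ℂ) - w) w
      rwa [sub_add_cancel] at this
    have h4 : ‖(z : ℂ)‖ ≤ Real.sqrt t := by linarith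
    have h5 : ‖(z : ℂ)‖ ^ 2 ≤ Real.sqrt t ^ 2 := pow_le_pow_left₀ (norm_nonneg _) h4 2
    rwa [norm_sq_eq, Real.sq_sqrt (by linarith)] at h5
  have h1 := measure_mono (μ := volume) hsub
  rw [volume_union_sqr, Complex.volume_ball] at h1
  have hs : 0 ≤ Real.sqrt t - 1 := by linarith
  have h2 : ENNReal.ofReal (Real.sqrt t - 1) ^ 2 * (NNReal.pi : ENNReal) =
      ENNReal.ofReal (Real.pi * (Real.sqrt t - 1) ^ 2) := by
    rw [mul_comm, ENNReal.ofReal_mul Real.pi_pos.le, ENNReal.ofReal_pow hs]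
    congr 1
    rw [← NNReal.coe_real_pi, ENNReal.ofReal_coe_nnreal]
  rw [h2] at h1
  have h3 : ENNReal.ofReal (Real.pi * (Real.sqrt t - 1) ^ 2) ≤
      ENNReal.ofReal ((ball t).card : ℝ) := by
    rwa [ENNReal.ofReal_natCast]
  exact (ENNReal.ofReal_le_ofReal_iff (by positivity)).1 h3

/-- Gauss circle problem with the trivial error term, constant `π`. -/
theorem ball_asymp_pi (t : ℝ) (ht : 0 ≤ t) :
    |((ball t).card : ℝ) - Real.pi * t| ≤ 2 * Real.pi * (Real.sqrt t + 1) := by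
  have hpi := Real.pi_pos
  have h1 := card_ball_upper t
  have hs0 := Real.sqrt_nonneg t
  have hss := Real.mul_self_sqrt ht
  rw [abs_le]
  constructor
  · rcases lt_or_ge t 1 with h | h
    · have h2 : (0 : ℝ) ≤ ((ball t).card : ℝ) := Nat.cast_nonneg _
      nlinarith
    · have h2 := card_ball_lower t h
      nlinarith
  · nlinarith

/-- Gauss circle problem with the trivial error term. -/
theorem ball_asymp : ∃ κ C : ℝ, 0 < κ ∧ 0 < C ∧ ∀ t : ℝ, 0 ≤ t →
    |((ball t).card : ℝ) - κ * t| ≤ C * (Real.sqrt t + 1) :=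
  ⟨Real.pi, 2 * Real.pi, Real.pi_pos, by positivity, fun t ht => ball_asymp_pi t ht⟩

open Classical in
theorem card_ob (t : ℝ) : ((ob t).card : ℝ) = (ball t).card - (ball (t / 2)).card := by
  have h1 : (ob t).card + ((ball t).filter (fun z => ¬ Odd (nm z))).card = (ball t).card := by
    unfold ob
    exact Finset.card_filter_add_card_filter_not _
  have h2 : ((ball t).filter (fun z => ¬ Odd (nm z))).card = (ball (t / 2)).card := by
    symm
    apply Finset.card_bij (fun w _ => (⟨w.re - w.im, w.re + w.im⟩ : G))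
    · intro w hw
      have e1 : nm (⟨w.re - w.im, w.re + w.im⟩ : G) = 2 * nm w := by
        have : (nm (⟨w.re - w.im, w.re + w.im⟩ : G) : ℤ) = 2 * nm w := by
          rw [nm_eq, nm_eq]; ring
        exact_mod_cast this
      rw [mem_ball] at hw
      rw [Finset.mem_filter, mem_ball, e1]
      refine ⟨by push_cast; linarith, ?_⟩
      rw [Nat.not_odd_iff_even]
      exact even_two_mul _
    · intro w _ w' _ h
      have a1 := congrArg Zsqrtd.re h
      have a2 := congrArg Zsqrtd.im h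
      simp only at a1 a2
      apply Zsqrtd.ext
      · omega
      · omega
    · intro z hz
      rw [Finset.mem_filter, mem_ball] at hz
      obtain ⟨hz1, hz2⟩ := hz
      rw [odd_nm_iff, Int.not_odd_iff_even] at hz2
      obtain ⟨c, hc⟩ := hz2
      refine ⟨⟨c, z.im - c⟩, ?_, ?_⟩
      · rw [mem_ball]
        have e1 : 2 * nm (⟨c, z.im - c⟩ : G) = nm z := by
          have : 2 * (nm (⟨c, z.im - c⟩ : G) : ℤ) = nm z := by
            rw [nm_eq, nm_eq]
            simp only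
            have : z.re = c + c - z.im := by linarith
            rw [this]
            ring
          exact_mod_cast this
        have e2 : (2 : ℝ) * (nm (⟨c, z.im - c⟩ : G) : ℝ) = nm z := by exact_mod_cast e1
        linarith
      · apply Zsqrtd.ext
        · simp only; omega
        · simp only; omega
  rw [h2] at h1
  have h3 : ((ob t).card : ℝ) + (ball (t / 2)).card = (ball t).card := by exact_mod_cast h1
  linarith

theorem ob_eq_empty {t : ℝ} (ht : t < 1) : ob t = ∅ := by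
  classical
  unfold ob
  rw [Finset.filter_eq_empty_iff]
  intro z hz h0
  rw [mem_ball] at hz
  have h2 := nm_pos_of_odd h0
  have h3 : (1 : ℝ) ≤ nm z := by exact_mod_cast h2
  linarith

/-- odd Gaussian integers -/
theorem odd_asymp : ∃ κ C : ℝ, 0 < κ ∧ 0 < C ∧ ∀ t : ℝ, 0 ≤ t →
    |((ob t).card : ℝ) - κ * t| ≤ C * Real.sqrt t := by
  have hpi := Real.pi_pos
  refine ⟨Real.pi / 2, 8 * Real.pi, by positivity, by positivity, fun t ht => ?_⟩
  have hs0 := Real.sqrt_nonneg t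
  have hss := Real.mul_self_sqrt ht
  rcases lt_or_ge t 1 with h | h
  · rw [ob_eq_empty h, Finset.card_empty, Nat.cast_zero, zero_sub, abs_neg,
      abs_of_nonneg (by positivity)]
    have h1 : Real.sqrt t ≤ 1 := Real.sqrt_le_one.2 h.le
    have h2 : t ≤ Real.sqrt t := by nlinarith
    have h3 : Real.pi / 2 * t ≤ Real.pi / 2 * Real.sqrt t :=
      mul_le_mul_of_nonneg_left h2 (by positivity)
    have h4 : 0 ≤ Real.pi * Real.sqrt t := by positivity
    linarith
  · have h1 := ball_asymp_pi t ht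
    have h2 := ball_asymp_pi (t / 2) (by linarith)
    have h3 : Real.sqrt (t / 2) ≤ Real.sqrt t := Real.sqrt_le_sqrt (by linarith)
    have h4 : 1 ≤ Real.sqrt t := Real.one_le_sqrt.2 h
    rw [card_ob, abs_le]
    rw [abs_le] at h1 h2
    have h5 : Real.pi * Real.sqrt (t / 2) ≤ Real.pi * Real.sqrt t :=
      mul_le_mul_of_nonneg_left h3 hpi.le
    have h6 : Real.pi * 1 ≤ Real.pi * Real.sqrt t := mul_le_mul_of_nonneg_left h4 hpi.le
    constructor <;> nlinarith [h1.1, h1.2, h2.1, h2.2]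

end Pool.Agent.GaussMR

end

/-! ### from `Lib_MP_f1a94e_mr.VAsymp` -/

section

/-!
# Piece VASYMP: counting odd primitive Gaussian integers
-/

set_option autoImplicit false

namespace Pool.Agent.GaussMR

open Filter Topology ArithmeticFunction

theorem card_V_le (X : ℝ) (hX : 0 ≤ X) : ((V X).card : ℝ) ≤ 9 * X := by
  classical
  refine le_trans ?_ (card_ball_le X hX)
  have : V X ⊆ (ball X).filter (fun z => z ≠ 0) := by
    intro z hz
    rw [mem_V] at hz
    rw [Finset.mem_filter, mem_ball]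
    exact ⟨hz.1, ne_zero_of_odd hz.2.1⟩
  exact_mod_cast Finset.card_le_card this

theorem mem_ob {t : ℝ} {z : G} : z ∈ ob t ↔ (nm z : ℝ) ≤ t ∧ Odd (nm z) := by
  classical
  simp [ob, mem_ball]

/-- the greatest common divisor of the coordinates -/
def gc (z : G) : ℕ := Int.gcd z.re z.im

theorem gc_sq_le (z : G) (hz : z ≠ 0) : gc z ^ 2 ≤ nm z := by
  obtain ⟨a, ha⟩ := Int.gcd_dvd_left z.re z.im
  obtain ⟨b, hb⟩ := Int.gcd_dvd_right z.re z.im
  have h1 : (nm z : ℤ) = (gc z : ℤ) ^ 2 * (a ^ 2 + b ^ 2) := by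
    rw [nm_eq]
    have e1 : z.re = (gc z : ℤ) * a := ha
    have e2 : z.im = (gc z : ℤ) * b := hb
    rw [e1, e2]
    ring
  have h2 : 0 < (nm z : ℤ) := by exact_mod_cast nm_pos hz
  have h3 : 0 < a ^ 2 + b ^ 2 := by
    by_contra hcon
    push Not at hcon
    nlinarith [sq_nonneg (gc z : ℤ)]
  have h4 : (gc z : ℤ) ^ 2 ≤ nm z := by
    rw [h1]
    nlinarith [sq_nonneg (gc z : ℤ)]
  exact_mod_cast h4

theorem gc_pos (z : G) (hz : z ≠ 0) : 0 < gc z := by
  rw [gc, Int.gcd_pos_iff]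
  by_contra hcon
  push Not at hcon
  exact hz (by apply Zsqrtd.ext <;> simp [hcon.1, hcon.2])

theorem prim_iff_gc (z : G) : Prim z ↔ gc z = 1 := by
  rw [Prim, gc, Int.isCoprime_iff_gcd_eq_one]

/-- the number of odd Gaussian integers divisible by `d` -/
theorem card_ob_dvd (X : ℝ) (d : ℕ) (hd : 0 < d) :
    ((ob X).filter (fun z => d ∣ gc z)).card =
      if Odd d then (ob (X / (d : ℝ) ^ 2)).card else 0 := by
  split_ifs with hodd
  · symm
    apply Finset.card_bij (fun w _ => (⟨d * w.re, d * w.im⟩ : G))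
    · intro w hw
      rw [mem_ob] at hw
      have e1 : nm (⟨d * w.re, d * w.im⟩ : G) = d ^ 2 * nm w := by
        have : (nm (⟨d * w.re, d * w.im⟩ : G) : ℤ) = d ^ 2 * nm w := by
          rw [nm_eq, nm_eq]; ring
        exact_mod_cast this
      rw [Finset.mem_filter, mem_ob, e1]
      have hd0 : (0 : ℝ) < (d : ℝ) ^ 2 := by positivity
      have h1 := hw.1
      rw [le_div_iff₀ hd0] at h1
      refine ⟨⟨by push_cast; linarith, (hodd.pow).mul hw.2⟩, ?_⟩
      unfold gc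
      rw [Int.dvd_gcd_iff]
      simp
    · intro w _ w' _ h
      have a1 := congrArg Zsqrtd.re h
      have a2 := congrArg Zsqrtd.im h
      simp only at a1 a2
      have hd0 : (d : ℤ) ≠ 0 := by exact_mod_cast hd.ne'
      apply Zsqrtd.ext
      · exact mul_left_cancel₀ hd0 a1
      · exact mul_left_cancel₀ hd0 a2
    · intro z hz
      rw [Finset.mem_filter, mem_ob] at hz
      obtain ⟨⟨hz1, hz2⟩, hz3⟩ := hz
      have h1 : (d : ℤ) ∣ z.re := (Int.natCast_dvd_natCast.2 hz3).trans (Int.gcd_dvd_left _ _)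
      have h2 : (d : ℤ) ∣ z.im := (Int.natCast_dvd_natCast.2 hz3).trans (Int.gcd_dvd_right _ _)
      obtain ⟨a, ha⟩ := h1
      obtain ⟨b, hb⟩ := h2
      have e1 : nm z = d ^ 2 * nm (⟨a, b⟩ : G) := by
        have : (nm z : ℤ) = d ^ 2 * nm (⟨a, b⟩ : G) := by
          rw [nm_eq, nm_eq, ha, hb]; ring
        exact_mod_cast this
      refine ⟨⟨a, b⟩, ?_, ?_⟩
      · rw [mem_ob]
        have hd0 : (0 : ℝ) < (d : ℝ) ^ 2 := by positivity
        rw [le_div_iff₀ hd0]
        rw [e1] at hz1 hz2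
        push_cast at hz1
        exact ⟨by linarith, (Nat.odd_mul.1 hz2).2⟩
      · apply Zsqrtd.ext
        · simp [ha]
        · simp [hb]
  · rw [Finset.card_eq_zero, Finset.filter_eq_empty_iff]
    intro z hz hdz
    rw [mem_ob] at hz
    rw [Nat.not_odd_iff_even] at hodd
    have h1 : (2 : ℤ) ∣ z.re := (Int.natCast_dvd_natCast.2 ((even_iff_two_dvd.1 hodd).trans hdz)).trans
      (Int.gcd_dvd_left _ _)
    have h2 : (2 : ℤ) ∣ z.im := (Int.natCast_dvd_natCast.2 ((even_iff_two_dvd.1 hodd).trans hdz)).trans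
      (Int.gcd_dvd_right _ _)
    have h3 := odd_nm_iff.1 hz.2
    rw [Int.odd_iff] at h3
    omega

/-- Moebius inversion -/
theorem card_V_eq (X : ℝ) (D : ℕ) (hD : Real.sqrt X ≤ D + 1) (hX : 0 ≤ X) :
    ((V X).card : ℝ) =
      ∑ d ∈ Finset.range (D + 2), (if Odd d then (moebius d : ℝ) * (ob (X / (d : ℝ) ^ 2)).card
        else 0) := by
  classical
  have h1 : ((V X).card : ℝ) = ∑ z ∈ ob X, if gc z = 1 then (1 : ℝ) else 0 := by
    rw [Finset.sum_ite, Finset.sum_const_zero, add_zero, Finset.sum_const, nsmul_eq_mul, mul_one]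
    congr 2
    ext z
    rw [mem_V, Finset.mem_filter, mem_ob, prim_iff_gc, and_assoc]
  have h2 : ∀ z ∈ ob X, (if gc z = 1 then (1 : ℝ) else 0) =
      ∑ d ∈ Finset.range (D + 2), if (d ∣ gc z ∧ d ≠ 0) then (moebius d : ℝ) else 0 := by
    intro z hz
    rw [mem_ob] at hz
    have hz0 := ne_zero_of_odd hz.2
    have hg := gc_pos z hz0
    have hgD : gc z ≤ D + 1 := by
      have a1 : ((gc z ^ 2 : ℕ) : ℝ) ≤ X := le_trans (by exact_mod_cast gc_sq_le z hz0) hz.1
      push_cast at a1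
      have a2 : (gc z : ℝ) ≤ Real.sqrt X := Real.le_sqrt_of_sq_le a1
      have a3 : (gc z : ℝ) ≤ D + 1 := a2.trans hD
      exact_mod_cast a3
    have h3 : ∑ d ∈ Finset.range (D + 2), (if (d ∣ gc z ∧ d ≠ 0) then (moebius d : ℝ) else 0) =
        ∑ d ∈ (gc z).divisors, (moebius d : ℝ) := by
      rw [← Finset.sum_filter]
      apply Finset.sum_congr _ (fun _ _ => rfl)
      ext d
      rw [Finset.mem_filter, Finset.mem_range, Nat.mem_divisors]
      constructor
      · rintro ⟨_, b1, _⟩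
        exact ⟨b1, hg.ne'⟩
      · rintro ⟨b1, b2⟩
        refine ⟨?_, b1, ?_⟩
        · have := Nat.le_of_dvd hg b1
          omega
        · rintro rfl
          exact b2 (zero_dvd_iff.1 b1)
    rw [h3]
    have h4 : ((∑ d ∈ (gc z).divisors, moebius d : ℤ) : ℝ) = if gc z = 1 then (1 : ℝ) else 0 := by
      rw [← coe_mul_zeta_apply, moebius_mul_coe_zeta, one_apply]
      push_cast
      rfl
    rw [← h4]
    push_cast
    rfl
  rw [h1, Finset.sum_congr rfl h2, Finset.sum_comm]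
  apply Finset.sum_congr rfl
  intro d _
  rcases Nat.eq_zero_or_pos d with rfl | hd
  · simp
  have h5 := card_ob_dvd X d hd
  have h6 : ∑ z ∈ ob X, (if (d ∣ gc z ∧ d ≠ 0) then (moebius d : ℝ) else 0) =
      (moebius d : ℝ) * ((ob X).filter (fun z => d ∣ gc z)).card := by
    have : ∀ z ∈ ob X, (if (d ∣ gc z ∧ d ≠ 0) then (moebius d : ℝ) else 0) =
        if d ∣ gc z then (moebius d : ℝ) else 0 := by
      intro z _
      simp [hd.ne']
    rw [Finset.sum_congr rfl this, ← Finset.sum_filter, Finset.sum_const, nsmul_eq_mul, mul_comm]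
  rw [h6, h5]
  split_ifs <;> simp

/-- the coefficients `μ(d) / d ^ 2`, `d` odd -/
noncomputable def cf (d : ℕ) : ℝ := if Odd d then (moebius d : ℝ) / (d : ℝ) ^ 2 else 0

theorem abs_moebius_le (d : ℕ) : |(moebius d : ℝ)| ≤ 1 := by
  have h := abs_moebius_le_one (n := d)
  exact_mod_cast h

theorem abs_cf_le (d : ℕ) : |cf d| ≤ ((d : ℝ) ^ 2)⁻¹ := by
  unfold cf
  split_ifs with h
  · rw [abs_div, abs_of_nonneg (by positivity : (0 : ℝ) ≤ (d : ℝ) ^ 2), div_eq_mul_inv]
    have h1 := abs_moebius_le d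
    have h2 : 0 ≤ ((d : ℝ) ^ 2)⁻¹ := by positivity
    nlinarith
  · rw [abs_zero]; positivity

theorem summable_cf : Summable cf := by
  apply Summable.of_norm_bounded (g := fun d : ℕ => ((d : ℝ) ^ 2)⁻¹)
  · have := Real.summable_nat_pow_inv (p := 2)
    exact this.2 (by norm_num)
  · intro d
    exact abs_cf_le d

theorem cf_tail (n : ℕ) : |∑' d, cf d - ∑ d ∈ Finset.range (n + 1), cf d| ≤ 2 / (n + 1) := by
  have h1 : Tendsto (fun N => |∑ d ∈ Finset.range N, cf d - ∑ d ∈ Finset.range (n + 1), cf d|) atTop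
      (𝓝 |∑' d, cf d - ∑ d ∈ Finset.range (n + 1), cf d|) :=
    ((summable_cf.hasSum.tendsto_sum_nat).sub_const _).abs
  refine le_of_tendsto h1 ?_
  filter_upwards [eventually_ge_atTop (n + 1)] with N hN
  rw [← Finset.sum_range_add_sum_Ico _ hN, add_sub_cancel_left]
  refine (Finset.abs_sum_le_sum_abs _ _).trans ?_
  have h2 : ∑ d ∈ Finset.Ico (n + 1) N, |cf d| ≤ ∑ d ∈ Finset.Ioo n N, ((d : ℝ) ^ 2)⁻¹ := by
    have : Finset.Ico (n + 1) N = Finset.Ioo n N := by
      ext x; simp only [Finset.mem_Ico, Finset.mem_Ioo]; omega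
    rw [this]
    exact Finset.sum_le_sum fun d _ => abs_cf_le d
  exact h2.trans (sum_Ioo_inv_sq_le n N)

theorem cf_pos : 0 < ∑' d, cf d := by
  -- partial sums are at least `3/4`
  have key : ∀ n : ℕ, |∑ d ∈ Finset.Ico 3 (n + 3), cf d| ≤ 1 / 4 := by
    intro n
    have h : ∀ n : ℕ, ∑ d ∈ Finset.Ico 3 (2 * n + 3), |cf d| ≤ 1 / 4 - 1 / (4 * (n + 1)) := by
      intro n
      induction n with
      | zero => simp
      | succ n ih =>
        have e1 : 2 * (n + 1) + 3 = (2 * n + 3 + 1) + 1 := by ring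
        rw [e1, Finset.sum_Ico_succ_top (by omega), Finset.sum_Ico_succ_top (by omega)]
        have e2 : cf (2 * n + 3 + 1) = 0 := by
          unfold cf
          rw [if_neg]
          rw [Nat.not_odd_iff_even]
          exact ⟨n + 2, by ring⟩
        rw [e2, abs_zero, add_zero]
        have e3 := abs_cf_le (2 * n + 3)
        push_cast at e3 ⊢
        have e4 : ((2 * (n : ℝ) + 3) ^ 2)⁻¹ ≤
              1 / (4 * ((n : ℝ) + 1)) - 1 / (4 * ((n : ℝ) + 1 + 1)) := by
          have : 1 / (4 * ((n : ℝ) + 1)) - 1 / (4 * (n + 1 + 1)) = 1 / (4 * (n + 1) * (n + 1 + 1)) := by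
            field_simp
            ring
          rw [this, ← one_div]
          apply one_div_le_one_div_of_le (by positivity)
          nlinarith [(Nat.cast_nonneg n : (0 : ℝ) ≤ n)]
        linarith
    have h2 : ∑ d ∈ Finset.Ico 3 (n + 3), |cf d| ≤ ∑ d ∈ Finset.Ico 3 (2 * n + 3), |cf d| := by
      apply Finset.sum_le_sum_of_subset_of_nonneg
      · apply Finset.Ico_subset_Ico_right
        omega
      · intro d _ _
        exact abs_nonneg _
    have h3 : (0 : ℝ) < 1 / (4 * ((n : ℝ) + 1)) := by positivity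
    exact (Finset.abs_sum_le_sum_abs _ _).trans (h2.trans (by linarith [h n]))
  have h1 : Tendsto (fun n => ∑ d ∈ Finset.range (n + 3), cf d) atTop (𝓝 (∑' d, cf d)) :=
    summable_cf.hasSum.tendsto_sum_nat.comp (tendsto_add_atTop_nat 3)
  have h2 : (3 / 4 : ℝ) ≤ ∑' d, cf d := by
    refine ge_of_tendsto' h1 fun n => ?_
    rw [← Finset.sum_range_add_sum_Ico _ (by omega : 3 ≤ n + 3)]
    have e1 : ∑ d ∈ Finset.range 3, cf d = 1 := by
      rw [Finset.sum_range_succ, Finset.sum_range_succ, Finset.sum_range_one]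
      have a0 : cf 0 = 0 := by simp [cf]
      have a1 : cf 1 = 1 := by simp [cf]
      have a2 : cf 2 = 0 := by
        unfold cf
        rw [if_neg (by decide)]
      rw [a0, a1, a2]
      norm_num
    rw [e1]
    have := (abs_le.1 (key n)).1
    linarith
  linarith

theorem log_ge_one {X : ℝ} (hX : 0 ≤ X) : 1 ≤ Real.log (X + 3) := by
  rw [Real.le_log_iff_exp_le (by linarith)]
  have := Real.exp_one_lt_d9
  linarith

theorem V_asymp : ∃ κ C : ℝ, 0 < κ ∧ 0 < C ∧ ∀ X : ℝ, 0 ≤ X →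
    |((V X).card : ℝ) - κ * X| ≤ C * Real.sqrt X * Real.log (X + 3) := by
  obtain ⟨κ, C, hκ, hC, h⟩ := odd_asymp
  set σ : ℝ := ∑' d, cf d with hσ
  have hσ0 : 0 < σ := cf_pos
  refine ⟨κ * σ, 4 * C + 2 * κ, by positivity, by positivity, fun X hX => ?_⟩
  set D : ℕ := ⌊Real.sqrt X⌋₊ with hD
  have hs0 := Real.sqrt_nonneg X
  have hss := Real.mul_self_sqrt hX
  have hD1 : (D : ℝ) ≤ Real.sqrt X := Nat.floor_le hs0
  have hD2 : Real.sqrt X < D + 1 := Nat.lt_floor_add_one _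
  have hlog := log_ge_one hX
  rw [card_V_eq X D hD2.le hX]
  -- the main term
  have hterm : ∀ d ∈ Finset.range (D + 2), |(if Odd d then (moebius d : ℝ) *
      (ob (X / (d : ℝ) ^ 2)).card else 0) - κ * X * cf d| ≤ C * Real.sqrt X * ((d : ℝ))⁻¹ := by
    intro d _
    unfold cf
    split_ifs with hodd
    · have hd0 : (0 : ℝ) < d := by
        have : 0 < d := hodd.pos
        exact_mod_cast this
      have h1 := h (X / (d : ℝ) ^ 2) (by positivity)
      have h2 : Real.sqrt (X / (d : ℝ) ^ 2) = Real.sqrt X * (d : ℝ)⁻¹ := by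
        rw [Real.sqrt_div' _ (by positivity), Real.sqrt_sq hd0.le, div_eq_mul_inv]
      have h3 : (moebius d : ℝ) * ((ob (X / (d : ℝ) ^ 2)).card : ℝ) -
          κ * X * ((moebius d : ℝ) / (d : ℝ) ^ 2) =
          (moebius d : ℝ) * (((ob (X / (d : ℝ) ^ 2)).card : ℝ) - κ * (X / (d : ℝ) ^ 2)) := by
        ring
      rw [h3, abs_mul]
      have h4 := abs_moebius_le d
      rw [h2] at h1
      calc |(moebius d : ℝ)| * |((ob (X / (d : ℝ) ^ 2)).card : ℝ) - κ * (X / (d : ℝ) ^ 2)|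
          ≤ 1 * (C * (Real.sqrt X * (d : ℝ)⁻¹)) :=
            mul_le_mul h4 h1 (abs_nonneg _) (by norm_num)
        _ = C * Real.sqrt X * (d : ℝ)⁻¹ := by ring
    · rw [mul_zero, sub_zero, abs_zero]
      positivity
  have hsum1 : |∑ d ∈ Finset.range (D + 2), (if Odd d then (moebius d : ℝ) *
      (ob (X / (d : ℝ) ^ 2)).card else 0) - κ * X * ∑ d ∈ Finset.range (D + 2), cf d| ≤
      C * Real.sqrt X * ∑ d ∈ Finset.range (D + 2), ((d : ℝ))⁻¹ := by
    rw [Finset.mul_sum, Finset.mul_sum, ← Finset.sum_sub_distrib]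
    exact (Finset.abs_sum_le_sum_abs _ _).trans (Finset.sum_le_sum hterm)
  -- the harmonic sum
  have hharm : ∑ d ∈ Finset.range (D + 2), ((d : ℝ))⁻¹ ≤ 4 * Real.log (X + 3) := by
    have e1 : ∑ d ∈ Finset.range (D + 2), ((d : ℝ))⁻¹ = (harmonic (D + 1) : ℝ) := by
      rw [Finset.sum_range_succ', harmonic]
      push_cast
      simp
    rw [e1]
    have e2 := harmonic_le_one_add_log (D + 1)
    have e3 : Real.log ((D + 1 : ℕ) : ℝ) ≤ Real.log (X + 3) := by
      apply Real.log_le_log (by positivity)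
      push_cast
      have : Real.sqrt X ≤ X + 1 := by nlinarith [sq_nonneg (Real.sqrt X - 1)]
      linarith
    linarith
  -- the tail
  have htail := cf_tail (D + 1)
  push_cast at htail
  have hA : |κ * X * ∑ d ∈ Finset.range (D + 2), cf d - κ * σ * X| ≤ 2 * κ * Real.sqrt X := by
    have e1 : κ * X * ∑ d ∈ Finset.range (D + 2), cf d - κ * σ * X =
        -(κ * X * (σ - ∑ d ∈ Finset.range (D + 1 + 1), cf d)) := by ring
    rw [e1, abs_neg, abs_mul, abs_of_nonneg (by positivity : 0 ≤ κ * X)]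
    have e2 : X * (2 / ((D : ℝ) + 1 + 1)) ≤ 2 * Real.sqrt X := by
      rw [mul_div_assoc', div_le_iff₀ (by positivity)]
      nlinarith
    calc κ * X * |σ - ∑ d ∈ Finset.range (D + 1 + 1), cf d|
        ≤ κ * X * (2 / ((D : ℝ) + 1 + 1)) := mul_le_mul_of_nonneg_left htail (by positivity)
      _ = κ * (X * (2 / ((D : ℝ) + 1 + 1))) := by ring
      _ ≤ κ * (2 * Real.sqrt X) := mul_le_mul_of_nonneg_left e2 hκ.le
      _ = 2 * κ * Real.sqrt X := by ring
  have htri := abs_sub_le (∑ d ∈ Finset.range (D + 2), (if Odd d then (moebius d : ℝ) *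
      (ob (X / (d : ℝ) ^ 2)).card else 0)) (κ * X * ∑ d ∈ Finset.range (D + 2), cf d) (κ * σ * X)
  refine htri.trans ?_
  have hB : C * Real.sqrt X * ∑ d ∈ Finset.range (D + 2), ((d : ℝ))⁻¹ ≤
      C * Real.sqrt X * (4 * Real.log (X + 3)) :=
    mul_le_mul_of_nonneg_left hharm (by positivity)
  have hE : 2 * κ * Real.sqrt X ≤ 2 * κ * Real.sqrt X * Real.log (X + 3) := by
    have : 0 ≤ 2 * κ * Real.sqrt X := by positivity
    nlinarith
  calc _ ≤ C * Real.sqrt X * (4 * Real.log (X + 3)) + 2 * κ * Real.sqrt X * Real.log (X + 3) := by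
        linarith
    _ = (4 * C + 2 * κ) * Real.sqrt X * Real.log (X + 3) := by ring

/-- from `V_asymp` for large `X`, and `1 ∈ V X` for `X ≥ 1` -/
theorem card_V_ge : ∃ c : ℝ, 0 < c ∧ ∀ X : ℝ, 1 ≤ X → c * X ≤ ((V X).card : ℝ) := by
  obtain ⟨κ, C, hκ, hC, h⟩ := V_asymp
  set A : ℝ := 32 * C / κ with hA
  have hA0 : 0 < A := by positivity
  set X0 : ℝ := A ^ 4 + 1 with hX0
  have hX00 : 0 < X0 := by positivity
  refine ⟨min (κ / 2) (1 / X0), lt_min (by positivity) (by positivity), fun X hX => ?_⟩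
  have hX0' : 0 ≤ X := by linarith
  rcases le_total X X0 with h1 | h1
  · have h2 : (1 : ℝ) ≤ ((V X).card : ℝ) := by
      have : 0 < (V X).card := by
        rw [Finset.card_pos]
        refine ⟨1, ?_⟩
        rw [mem_V, nm_one]
        refine ⟨by simpa using hX, odd_one, ?_⟩
        rw [prim_iff_gc]
        simp [gc]
      exact_mod_cast this
    calc min (κ / 2) (1 / X0) * X ≤ 1 / X0 * X :=
          mul_le_mul_of_nonneg_right (min_le_right _ _) hX0'
      _ ≤ 1 := by rw [div_mul_eq_mul_div, one_mul, div_le_one hX00]; exact h1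
      _ ≤ _ := h2
  · -- large X
    set y : ℝ := X ^ (1 / 4 : ℝ) with hy
    have hy0 : 0 < y := by positivity
    have hy4 : y ^ 4 = X := by
      rw [hy, ← Real.rpow_natCast, ← Real.rpow_mul hX0']
      norm_num
    have hyA : A ≤ y := by
      by_contra hcon
      push Not at hcon
      have : y ^ 4 < A ^ 4 := pow_lt_pow_left₀ hcon hy0.le (by norm_num)
      linarith
    have hsq : Real.sqrt X = y ^ 2 := by
      rw [← hy4, show y ^ 4 = (y ^ 2) ^ 2 by ring, Real.sqrt_sq (by positivity)]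
    have hlog : Real.log (X + 3) ≤ 16 * y := by
      have h2 := Real.log_le_rpow_div (x := X + 3) (by linarith) (by norm_num : (0 : ℝ) < 1 / 4)
      have h3 : (X + 3) ^ (1 / 4 : ℝ) ≤ (256 * X) ^ (1 / 4 : ℝ) :=
        Real.rpow_le_rpow (by linarith) (by linarith) (by norm_num)
      have h4 : (256 * X) ^ (1 / 4 : ℝ) = 4 * y := by
        rw [Real.mul_rpow (by norm_num) hX0']
        have : (256 : ℝ) ^ (1 / 4 : ℝ) = 4 := by
          rw [show (256 : ℝ) = 4 ^ (4 : ℝ) by norm_num, ← Real.rpow_mul (by norm_num)]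
          norm_num
        rw [this]
      rw [h4] at h3
      have h5 : (X + 3) ^ (1 / 4 : ℝ) / (1 / 4) ≤ 4 * y / (1 / 4) :=
        div_le_div_of_nonneg_right h3 (by norm_num)
      have h6 : 4 * y / (1 / 4) = 16 * y := by ring
      linarith
    have h2 := (abs_le.1 (h X hX0')).1
    have h3 : C * Real.sqrt X * Real.log (X + 3) ≤ κ / 2 * X := by
      rw [hsq]
      have e1 : C * y ^ 2 * Real.log (X + 3) ≤ C * y ^ 2 * (16 * y) :=
        mul_le_mul_of_nonneg_left hlog (by positivity)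
      have e2 : 32 * C ≤ κ * y := by
        rw [hA, div_le_iff₀ hκ] at hyA
        linarith
      have e3 : C * y ^ 2 * (16 * y) = (32 * C) * (y ^ 3 / 2) := by ring
      have e4 : (32 * C) * (y ^ 3 / 2) ≤ (κ * y) * (y ^ 3 / 2) :=
        mul_le_mul_of_nonneg_right e2 (by positivity)
      have e5 : (κ * y) * (y ^ 3 / 2) = κ / 2 * y ^ 4 := by ring
      rw [hy4] at e5
      linarith
    have h4 : κ / 2 * X ≤ ((V X).card : ℝ) := by linarith
    calc min (κ / 2) (1 / X0) * X ≤ κ / 2 * X :=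
          mul_le_mul_of_nonneg_right (min_le_left _ _) hX0'
      _ ≤ _ := h4

end Pool.Agent.GaussMR

end

/-! ### from `Lib_MP_f1a94e_mr.SmallJ` -/

section

/-!
# Piece SMALLJ: the sum of `xi j` over a disc, small `j`
-/

set_option autoImplicit false

namespace Pool.Agent.GaussMR

open Complex

namespace SmallJAux

theorem mem_ball_iff_norm {s : ℝ} (hs : 0 ≤ s) (z : G) : z ∈ ball (s ^ 2) ↔ ‖(z : ℂ)‖ ≤ s := by
  rw [mem_ball, ← norm_sq_eq]
  exact pow_le_pow_iff_left₀ (norm_nonneg _) hs two_ne_zero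

/-- the sup norm -/
def M (u : G) : ℕ := max u.re.natAbs u.im.natAbs

theorem M_le (u : G) : (M u : ℝ) ≤ ‖(u : ℂ)‖ := by
  have h1 : ((u.re.natAbs : ℕ) : ℝ) ≤ ‖(u : ℂ)‖ := by
    have := Complex.abs_re_le_norm (u : ℂ)
    rw [← GaussianInt.intCast_re] at this
    rw [Nat.cast_natAbs, Int.cast_abs]
    exact this
  have h2 : ((u.im.natAbs : ℕ) : ℝ) ≤ ‖(u : ℂ)‖ := by
    have := Complex.abs_im_le_norm (u : ℂ)
    rw [← GaussianInt.intCast_im] at this
    rw [Nat.cast_natAbs, Int.cast_abs]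
    exact this
  unfold M
  rw [Nat.cast_max]
  exact max_le h1 h2

theorem M_pos {u : G} (h : u ≠ 0) : 1 ≤ M u := by
  by_contra hcon
  apply h
  have h0 : M u = 0 := by omega
  unfold M at h0
  have h1 : u.re.natAbs = 0 := by
    have := le_max_left u.re.natAbs u.im.natAbs
    omega
  have h2 : u.im.natAbs = 0 := by
    have := le_max_right u.re.natAbs u.im.natAbs
    omega
  apply Zsqrtd.ext
  · simpa using h1
  · simpa using h2

open Classical in
theorem sum_inv (s : ℝ) (hs : 0 ≤ s) :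
    ∑ u ∈ (ball (s ^ 2)).filter (fun u => u ≠ 0), 1 / ‖(u : ℂ)‖ ≤ 8 * s := by
  have hmap : ∀ u ∈ (ball (s ^ 2)).filter (fun u => u ≠ 0), M u ∈ Finset.Icc 1 ⌊s⌋₊ := by
    intro u hu
    rw [Finset.mem_filter, mem_ball_iff_norm hs] at hu
    rw [Finset.mem_Icc]
    exact ⟨M_pos hu.2, Nat.le_floor ((M_le u).trans hu.1)⟩
  rw [← Finset.sum_fiberwise_of_maps_to hmap]
  have hfib : ∀ m ∈ Finset.Icc 1 ⌊s⌋₊,
      ∑ u ∈ ((ball (s ^ 2)).filter (fun u => u ≠ 0)).filter (fun u => M u = m),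
        1 / ‖(u : ℂ)‖ ≤ 8 := by
    intro m hm
    rw [Finset.mem_Icc] at hm
    have hm0 : (0 : ℝ) < m := by exact_mod_cast hm.1
    have hcard : (((ball (s ^ 2)).filter (fun u => u ≠ 0)).filter (fun u => M u = m)).card ≤
        8 * m := by
      rw [← Int.card_box (by omega : m ≠ 0)]
      refine Finset.card_le_card_of_injOn (fun u : G => (u.re, u.im)) ?_ ?_
      · intro u hu
        have hu' := (Finset.mem_filter.1 (Finset.mem_coe.1 hu)).2
        exact Finset.mem_coe.2 (Int.mem_box.2 hu')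
      · intro u _ v _ huv
        have := Prod.ext_iff.1 huv
        exact Zsqrtd.ext this.1 this.2
    have hterm : ∀ u ∈ ((ball (s ^ 2)).filter (fun u => u ≠ 0)).filter (fun u => M u = m),
        1 / ‖(u : ℂ)‖ ≤ 1 / (m : ℝ) := by
      intro u hu
      have hu' := (Finset.mem_filter.1 hu).2
      have := M_le u
      rw [hu'] at this
      exact one_div_le_one_div_of_le hm0 this
    refine (Finset.sum_le_sum hterm).trans ?_
    rw [Finset.sum_const, nsmul_eq_mul]
    calc _ ≤ ((8 * m : ℕ) : ℝ) * (1 / (m : ℝ)) := by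
          refine mul_le_mul_of_nonneg_right ?_ (by positivity)
          exact_mod_cast hcard
      _ = 8 := by push_cast; field_simp
  refine (Finset.sum_le_sum hfib).trans ?_
  rw [Finset.sum_const, nsmul_eq_mul, Nat.card_Icc, Nat.add_sub_cancel]
  have := Nat.floor_le hs
  linarith

open Classical in
/-- lattice points in an annulus_smallj -/
theorem annulus_smallj : ∃ C : ℝ, 0 < C ∧ ∀ s : ℝ, 1 ≤ s →
    (((ball ((s + 1) ^ 2)).filter (fun u : G => s - 1 < ‖(u : ℂ)‖)).card : ℝ) ≤ C * s := by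
  obtain ⟨κ, C, hκ, hC, hb⟩ := ball_asymp
  refine ⟨9 * κ + 5 * C, by positivity, fun s hs => ?_⟩
  have h1 := hb ((s + 1) ^ 2) (by positivity)
  rw [Real.sqrt_sq (by linarith)] at h1
  have h1' := (abs_le.1 h1).2
  have h2 := hb ((s - 1) ^ 2) (by positivity)
  rw [Real.sqrt_sq (by linarith)] at h2
  have h2' := (abs_le.1 h2).1
  have hsub : (ball ((s + 1) ^ 2)).filter (fun u : G => s - 1 < ‖(u : ℂ)‖) ⊆
      (ball ((s + 1) ^ 2)) \ (ball ((s - 1) ^ 2)) := by
    intro u hu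
    rw [Finset.mem_filter] at hu
    rw [Finset.mem_sdiff]
    refine ⟨hu.1, ?_⟩
    rw [mem_ball_iff_norm (by linarith)]
    exact not_le.2 hu.2
  have hss : ball ((s - 1) ^ 2) ⊆ ball ((s + 1) ^ 2) := by
    intro u hu
    rw [mem_ball_iff_norm (by linarith)] at hu ⊢
    linarith
  have hcard := Finset.card_le_card hsub
  have hc2 := Finset.card_sdiff_add_card_eq_card hss
  have h3 : (((ball ((s + 1) ^ 2)).filter (fun u : G => s - 1 < ‖(u : ℂ)‖)).card : ℝ) ≤
      ((ball ((s + 1) ^ 2)).card : ℝ) - (ball ((s - 1) ^ 2)).card := by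
    have : (((ball ((s + 1) ^ 2)).filter (fun u : G => s - 1 < ‖(u : ℂ)‖)).card : ℝ) ≤
      (((ball ((s + 1) ^ 2)) \ (ball ((s - 1) ^ 2))).card : ℝ) := by exact_mod_cast hcard
    have h4 : ((((ball ((s + 1) ^ 2)) \ (ball ((s - 1) ^ 2))).card : ℝ)) +
      (ball ((s - 1) ^ 2)).card = (ball ((s + 1) ^ 2)).card := by exact_mod_cast hc2
    linarith
  have h5 : κ * (s + 1) ^ 2 - κ * (s - 1) ^ 2 = 4 * κ * s := by ring
  nlinarith [mul_pos hκ (by linarith : (0:ℝ) < s), mul_pos hC (by linarith : (0:ℝ) < s)]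

theorem dir_zero : dir 0 = 0 := by
  unfold dir
  simp

theorem norm_dir_le (z : G) : ‖dir z‖ ≤ 1 := by
  by_cases h : z = 0
  · rw [h, dir_zero, norm_zero]; exact zero_le_one
  · exact (norm_dir h).le

theorem xi_at_zero {j : ℤ} (hj : j ≠ 0) : xi j 0 = 0 := by
  unfold xi
  rw [dir_zero, zero_zpow _ hj]

theorem norm_xi_le (j : ℤ) (z : G) : ‖xi j z‖ ≤ 1 := by
  by_cases h : z = 0
  · by_cases hj : j = 0
    · rw [hj, xi_zero]; simp
    · rw [h, xi_at_zero hj, norm_zero]; exact zero_le_one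
  · exact (norm_xi j h).le

theorem dir_sub (z c : G) (hz : z ≠ 0) : ‖dir (z + c) - dir z‖ ≤ 2 * ‖(c : ℂ)‖ / ‖(z : ℂ)‖ := by
  have hz0 := norm_pos hz
  by_cases h : z + c = 0
  · have hc : c = -z := by
      rw [add_comm] at h
      exact eq_neg_of_add_eq_zero_left h
    rw [h, dir_zero, zero_sub, norm_neg, norm_dir hz, hc, GaussianInt.toComplex_neg, norm_neg,
      mul_div_assoc, div_self hz0.ne']
    norm_num
  · have hw0 := norm_pos h
    have hadd : ((z + c : G) : ℂ) = (z : ℂ) + (c : ℂ) := GaussianInt.toComplex_add z c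
    set w : ℂ := ((z + c : G) : ℂ) with hw
    have e1 : dir (z + c) - dir z =
        w * (((‖(z : ℂ)‖ - ‖w‖ : ℝ) : ℂ) / ((‖w‖ * ‖(z : ℂ)‖ : ℝ) : ℂ)) +
          (c : ℂ) / ((‖(z : ℂ)‖ : ℝ) : ℂ) := by
      unfold dir
      rw [← hw]
      have n1 : ((‖w‖ : ℝ) : ℂ) ≠ 0 := by exact_mod_cast hw0.ne'
      have n2 : ((‖(z : ℂ)‖ : ℝ) : ℂ) ≠ 0 := by exact_mod_cast hz0.ne'
      have hc : (c : ℂ) = w - z := by rw [hadd]; ring
      rw [hc]
      push_cast
      field_simp
      ring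
    rw [e1]
    refine (norm_add_le _ _).trans ?_
    have h1 : ‖w * (((‖(z : ℂ)‖ - ‖w‖ : ℝ) : ℂ) / ((‖w‖ * ‖(z : ℂ)‖ : ℝ) : ℂ))‖ ≤
        ‖(c : ℂ)‖ / ‖(z : ℂ)‖ := by
      rw [norm_mul, norm_div, Complex.norm_real, Complex.norm_real, Real.norm_eq_abs,
        Real.norm_eq_abs, abs_of_pos (mul_pos hw0 hz0)]
      have h2 : |‖(z : ℂ)‖ - ‖w‖| ≤ ‖(c : ℂ)‖ := by
        have := abs_norm_sub_norm_le (z : ℂ) w
        refine this.trans (le_of_eq ?_)
        rw [hadd, ← norm_neg]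
        congr 1
        ring
      calc _ = |‖(z : ℂ)‖ - ‖w‖| / ‖(z : ℂ)‖ := by field_simp
        _ ≤ _ := div_le_div_of_nonneg_right h2 hz0.le
    have h3 : ‖(c : ℂ) / ((‖(z : ℂ)‖ : ℝ) : ℂ)‖ = ‖(c : ℂ)‖ / ‖(z : ℂ)‖ := by
      rw [norm_div, Complex.norm_real, norm_norm]
    rw [h3]
    calc _ ≤ ‖(c : ℂ)‖ / ‖(z : ℂ)‖ + ‖(c : ℂ)‖ / ‖(z : ℂ)‖ := by gcongr
      _ = _ := by ring

theorem pow_sub (a b : ℂ) (ha : ‖a‖ ≤ 1) (hb : ‖b‖ ≤ 1) (n : ℕ) :
    ‖a ^ n - b ^ n‖ ≤ n * ‖a - b‖ := by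
  induction n with
  | zero => simp
  | succ n ih =>
    have : a ^ (n + 1) - b ^ (n + 1) = a * (a ^ n - b ^ n) + (a - b) * b ^ n := by ring
    rw [this]
    refine (norm_add_le _ _).trans ?_
    rw [norm_mul, norm_mul, norm_pow]
    have h1 : ‖a‖ * ‖a ^ n - b ^ n‖ ≤ 1 * ‖a ^ n - b ^ n‖ :=
      mul_le_mul_of_nonneg_right ha (norm_nonneg _)
    have h2 : ‖a - b‖ * ‖b‖ ^ n ≤ ‖a - b‖ * 1 :=
      mul_le_mul_of_nonneg_left (pow_le_one₀ (norm_nonneg _) hb) (norm_nonneg _)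
    push_cast
    linarith

theorem xi_sub (j : ℤ) (hj : j ≠ 0) (z c : G) (hz : z ≠ 0) :
    ‖xi j (z + c) - xi j z‖ ≤ 2 * |(j : ℝ)| * (‖(c : ℂ)‖ / ‖(z : ℂ)‖) := by
  have hd := dir_sub z c hz
  have key : ∃ n : ℕ, (n : ℝ) = |(j : ℝ)| ∧ (((∀ w, xi j w = (dir w) ^ n)) ∨
      (∀ w, xi j w = ((starRingEnd ℂ) (dir w)) ^ n)) := by
    rcases le_total 0 j with h | h
    · refine ⟨j.toNat, ?_, Or.inl fun w => ?_⟩
      · rw [abs_of_nonneg (by exact_mod_cast h)]
        exact_mod_cast Int.toNat_of_nonneg h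
      · unfold xi
        rw [← zpow_natCast, Int.toNat_of_nonneg h]
    · refine ⟨(-j).toNat, ?_, Or.inr fun w => ?_⟩
      · rw [abs_of_nonpos (by exact_mod_cast h)]
        have := Int.toNat_of_nonneg (by omega : 0 ≤ -j)
        exact_mod_cast this
      · unfold xi
        rw [← zpow_natCast, Int.toNat_of_nonneg (by omega : 0 ≤ -j)]
        by_cases hw : w = 0
        · rw [hw, dir_zero, map_zero, zero_zpow _ hj, zero_zpow _ (neg_ne_zero.2 hj)]
        · rw [conj_dir hw, inv_zpow, zpow_neg, inv_inv]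
  obtain ⟨n, hn, h | h⟩ := key
  · rw [h, h]
    refine (pow_sub _ _ (norm_dir_le _) (norm_dir_le _) n).trans ?_
    rw [hn]
    calc _ ≤ |(j : ℝ)| * (2 * ‖(c : ℂ)‖ / ‖(z : ℂ)‖) :=
          mul_le_mul_of_nonneg_left hd (abs_nonneg _)
      _ = _ := by ring
  · rw [h, h]
    refine (pow_sub _ _ ?_ ?_ n).trans ?_
    · rw [RCLike.norm_conj]; exact norm_dir_le _
    · rw [RCLike.norm_conj]; exact norm_dir_le _
    · rw [hn, ← map_sub, RCLike.norm_conj]
      calc _ ≤ |(j : ℝ)| * (2 * ‖(c : ℂ)‖ / ‖(z : ℂ)‖) :=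
            mul_le_mul_of_nonneg_left hd (abs_nonneg _)
        _ = _ := by ring

open Classical in
/-- one residue class -/
theorem class_bound : ∃ C : ℝ, 0 < C ∧ ∀ (s : ℝ) (j : ℤ) (α c : G), 1 ≤ s → j ≠ 0 → α ≠ 0 →
    ‖(c : ℂ)‖ ≤ ‖(α : ℂ)‖ →
    ‖∑ z ∈ (ball ((‖(α : ℂ)‖ * s) ^ 2)).filter (fun z => α ∣ z - c), xi j z -
      xi j α * ∑ z ∈ ball (s ^ 2), xi j z‖ ≤ C * |(j : ℝ)| * s := by
  obtain ⟨C, hC, hann⟩ := annulus_smallj
  refine ⟨33 + C, by positivity, fun s j α c hs hj hα hc => ?_⟩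
  have hs0 : 0 ≤ s := by linarith
  have hα0 := norm_pos hα
  have hj1 : 1 ≤ |(j : ℝ)| := by
    have : 1 ≤ |j| := Int.one_le_abs hj
    exact_mod_cast this
  set B := ball ((s + 1) ^ 2) with hB
  have hlin : ∀ u : G, ((α * u + c : G) : ℂ) = (α : ℂ) * (u : ℂ) + (c : ℂ) := fun u => by
    rw [GaussianInt.toComplex_add, GaussianInt.toComplex_mul]
  have hnear : ∀ u : G, |‖((α * u + c : G) : ℂ)‖ - ‖(α : ℂ)‖ * ‖(u : ℂ)‖| ≤ ‖(α : ℂ)‖ := by
    intro u
    rw [hlin, ← norm_mul]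
    refine (abs_norm_sub_norm_le _ _).trans ?_
    rw [add_sub_cancel_left]
    exact hc
  -- first sum
  have hsum1 : ∑ z ∈ (ball ((‖(α : ℂ)‖ * s) ^ 2)).filter (fun z => α ∣ z - c), xi j z =
      ∑ u ∈ B, (if ‖((α * u + c : G) : ℂ)‖ ≤ ‖(α : ℂ)‖ * s then xi j (α * u + c) else 0) := by
    rw [← Finset.sum_filter]
    symm
    refine Finset.sum_bij (fun u _ => α * u + c) ?_ ?_ ?_ ?_
    · intro u hu
      rw [Finset.mem_filter] at hu ⊢
      refine ⟨(mem_ball_iff_norm (by positivity) _).2 hu.2, ⟨u, by ring⟩⟩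
    · intro u _ v _ huv
      have : α * u = α * v := add_right_cancel huv
      exact mul_left_cancel₀ hα this
    · intro z hz
      rw [Finset.mem_filter, mem_ball_iff_norm (by positivity)] at hz
      obtain ⟨u, hu⟩ := hz.2
      have hzu : α * u + c = z := by rw [← hu]; ring
      refine ⟨u, ?_, hzu⟩
      rw [Finset.mem_filter, hzu]
      refine ⟨?_, hz.1⟩
      rw [hB, mem_ball_iff_norm (by linarith)]
      have h1 := (abs_le.1 (hnear u)).1
      rw [hzu] at h1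
      have h2 : ‖(α : ℂ)‖ * ‖(u : ℂ)‖ ≤ ‖(α : ℂ)‖ * (s + 1) := by linarith [hz.1]
      exact le_of_mul_le_mul_left h2 hα0
    · intro u _
      rfl
  have hsum2 : xi j α * ∑ z ∈ ball (s ^ 2), xi j z =
      ∑ u ∈ B, (if ‖(u : ℂ)‖ ≤ s then xi j (α * u) else 0) := by
    rw [← Finset.sum_filter, Finset.mul_sum]
    have : B.filter (fun u : G => ‖(u : ℂ)‖ ≤ s) = ball (s ^ 2) := by
      ext u
      rw [Finset.mem_filter, hB, mem_ball_iff_norm (by linarith), mem_ball_iff_norm hs0]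
      constructor
      · exact fun h => h.2
      · exact fun h => ⟨by linarith, h⟩
    rw [this]
    exact Finset.sum_congr rfl fun u _ => (xi_mul j α u).symm
  rw [hsum1, hsum2, ← Finset.sum_sub_distrib]
  refine (norm_sum_le _ _).trans ?_
  have hterm : ∀ u ∈ B,
      ‖(if ‖((α * u + c : G) : ℂ)‖ ≤ ‖(α : ℂ)‖ * s then xi j (α * u + c) else 0) -
        (if ‖(u : ℂ)‖ ≤ s then xi j (α * u) else 0)‖ ≤
      (if u ≠ 0 then 2 * |(j : ℝ)| * (1 / ‖(u : ℂ)‖) else 0) + (if u = 0 then 1 else 0) +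
        (if s - 1 < ‖(u : ℂ)‖ then 1 else 0) := by
    intro u hu
    have e1 : (0 : ℝ) ≤ (if u ≠ 0 then 2 * |(j : ℝ)| * (1 / ‖(u : ℂ)‖) else 0) := by
      split_ifs <;> positivity
    have e2 : (0 : ℝ) ≤ (if u = 0 then 1 else 0) := by split_ifs <;> norm_num
    have e3 : (0 : ℝ) ≤ (if s - 1 < ‖(u : ℂ)‖ then 1 else 0) := by split_ifs <;> norm_num
    by_cases h1 : ‖((α * u + c : G) : ℂ)‖ ≤ ‖(α : ℂ)‖ * s
    · by_cases h2 : ‖(u : ℂ)‖ ≤ s
      · rw [if_pos h1, if_pos h2]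
        by_cases h0 : u = 0
        · rw [if_neg (not_not.2 h0), if_pos h0, h0, mul_zero, xi_at_zero hj, sub_zero]
          have := norm_xi_le j (0 + c)
          rw [h0] at e3
          linarith
        · have h3 := xi_sub j hj (α * u) c (mul_ne_zero hα h0)
          rw [if_pos h0, if_neg h0]
          have h4 : ‖(c : ℂ)‖ / ‖((α * u : G) : ℂ)‖ ≤ 1 / ‖(u : ℂ)‖ := by
            rw [GaussianInt.toComplex_mul, norm_mul]
            rw [div_le_div_iff₀ (mul_pos hα0 (norm_pos h0)) (norm_pos h0)]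
            have := norm_pos h0
            nlinarith
          have h5 : 2 * |(j : ℝ)| * (‖(c : ℂ)‖ / ‖((α * u : G) : ℂ)‖) ≤
              2 * |(j : ℝ)| * (1 / ‖(u : ℂ)‖) := mul_le_mul_of_nonneg_left h4 (by positivity)
          linarith
      · rw [if_pos h1, if_neg h2, sub_zero]
        have h3 : s - 1 < ‖(u : ℂ)‖ := by linarith [not_le.1 h2]
        rw [if_pos h3] at e3 ⊢
        have := norm_xi_le j (α * u + c)
        linarith
    · by_cases h2 : ‖(u : ℂ)‖ ≤ s
      · rw [if_neg h1, if_pos h2, zero_sub, norm_neg]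
        have h3 : s - 1 < ‖(u : ℂ)‖ := by
          have h4 := (abs_le.1 (hnear u)).2
          have h5 := not_le.1 h1
          have h6 : ‖(α : ℂ)‖ * (s - 1) < ‖(α : ℂ)‖ * ‖(u : ℂ)‖ := by linarith
          exact lt_of_mul_lt_mul_left h6 hα0.le
        rw [if_pos h3] at e3 ⊢
        have := norm_xi_le j (α * u)
        linarith
      · rw [if_neg h1, if_neg h2, sub_zero, norm_zero]
        linarith
  refine (Finset.sum_le_sum hterm).trans ?_
  rw [Finset.sum_add_distrib, Finset.sum_add_distrib, ← Finset.sum_filter, ← Finset.sum_filter,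
    ← Finset.sum_filter, ← Finset.mul_sum, Finset.sum_const, Finset.sum_const, nsmul_eq_mul,
    nsmul_eq_mul, mul_one, mul_one]
  have a1 := sum_inv (s + 1) (by linarith)
  have a2 := hann s hs
  have a3 : ((B.filter (fun u => u = 0)).card : ℝ) ≤ 1 := by
    have : (B.filter (fun u => u = 0)).card ≤ 1 := by
      refine Finset.card_le_one.2 fun a ha b hb => ?_
      rw [(Finset.mem_filter.1 ha).2, (Finset.mem_filter.1 hb).2]
    exact_mod_cast this
  have a4 : 2 * |(j : ℝ)| * ∑ u ∈ B.filter (fun u => u ≠ 0), 1 / ‖(u : ℂ)‖ ≤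
      2 * |(j : ℝ)| * (8 * (s + 1)) := mul_le_mul_of_nonneg_left a1 (by positivity)
  have a5 : C * s ≤ C * |(j : ℝ)| * s := by
    have : C * s * 1 ≤ C * s * |(j : ℝ)| := mul_le_mul_of_nonneg_left hj1 (by positivity)
    linarith
  have a6 : s ≤ |(j : ℝ)| * s := by nlinarith
  nlinarith

open Classical in
/-- all residue classes -/
theorem all_classes : ∃ C : ℝ, 0 < C ∧ ∀ (α : G), α ≠ 0 → ∃ N : ℝ, 0 < N ∧ ∀ (s : ℝ) (j : ℤ),
    1 ≤ s → j ≠ 0 →
    ‖∑ z ∈ ball ((‖(α : ℂ)‖ * s) ^ 2), xi j z -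
      N * (xi j α * ∑ z ∈ ball (s ^ 2), xi j z)‖ ≤ N * (C * |(j : ℝ)| * s) := by
  obtain ⟨C, hC, hcl⟩ := class_bound
  refine ⟨C, hC, fun α hα => ?_⟩
  let I : Ideal G := Ideal.span {α}
  have hrep : ∀ q : G ⧸ I, ∃ c : G, Ideal.Quotient.mk I c = q ∧ ‖(c : ℂ)‖ ≤ ‖(α : ℂ)‖ := by
    intro q
    obtain ⟨z, rfl⟩ := Ideal.Quotient.mk_surjective q
    refine ⟨z % α, ?_, ?_⟩
    · rw [Ideal.Quotient.eq, Ideal.mem_span_singleton]
      have := EuclideanDomain.div_add_mod z α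
      refine ⟨-(z / α), ?_⟩
      linear_combination this
    · have h1 := GaussianInt.norm_mod_lt z hα
      have h2 : nm (z % α) ≤ nm α := by
        unfold nm
        have h3 := GaussianInt.norm_nonneg (z % α)
        omega
      rw [norm_eq_sqrt, norm_eq_sqrt]
      exact Real.sqrt_le_sqrt (by exact_mod_cast h2)
  choose c hc1 hc2 using hrep
  have hfin : Finite (G ⧸ I) := by
    have hinj : Function.Injective (fun q : G ⧸ I =>
        (⟨c q, (mem_ball_iff_norm (norm_nonneg _) _).2 (hc2 q)⟩ : {z // z ∈ ball (‖(α : ℂ)‖ ^ 2)})) := by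
      intro p q hpq
      have := congrArg (fun x : {z // z ∈ ball (‖(α : ℂ)‖ ^ 2)} => (x : G)) hpq
      rw [← hc1 p, ← hc1 q]
      exact congrArg _ this
    exact Finite.of_injective _ hinj
  have := Fintype.ofFinite (G ⧸ I)
  refine ⟨Fintype.card (G ⧸ I), ?_, fun s j hs hj => ?_⟩
  · have : 0 < Fintype.card (G ⧸ I) := Fintype.card_pos
    exact_mod_cast this
  have h1 : ∑ z ∈ ball ((‖(α : ℂ)‖ * s) ^ 2), xi j z =
      ∑ q : G ⧸ I, ∑ z ∈ (ball ((‖(α : ℂ)‖ * s) ^ 2)).filter (fun z => α ∣ z - c q), xi j z := by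
    rw [← Finset.sum_fiberwise (ball ((‖(α : ℂ)‖ * s) ^ 2)) (fun z => Ideal.Quotient.mk I z)]
    refine Finset.sum_congr rfl fun q _ => ?_
    refine Finset.sum_congr ?_ fun _ _ => rfl
    ext z
    rw [Finset.mem_filter, Finset.mem_filter]
    refine and_congr_right fun _ => ?_
    conv_lhs => rw [← hc1 q]
    rw [Ideal.Quotient.eq, Ideal.mem_span_singleton]
  have h2 : ((Fintype.card (G ⧸ I) : ℕ) : ℂ) * (xi j α * ∑ z ∈ ball (s ^ 2), xi j z) =
      ∑ _q : G ⧸ I, (xi j α * ∑ z ∈ ball (s ^ 2), xi j z) := by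
    rw [Finset.sum_const, Finset.card_univ, nsmul_eq_mul]
  rw [h1]
  push_cast
  rw [h2, ← Finset.sum_sub_distrib]
  refine (norm_sum_le _ _).trans ?_
  refine (Finset.sum_le_sum fun q _ => hcl s j α (c q) hs hj hα (hc2 q)).trans ?_
  rw [Finset.sum_const, Finset.card_univ, nsmul_eq_mul]

theorem sum_neg (X : ℝ) (j : ℤ) : ∑ z ∈ ball X, xi (-j) z = ∑ z ∈ ball X, xi j z := by
  by_cases hj : j = 0
  · rw [hj, neg_zero]
  refine Finset.sum_bij (fun z _ => star z) ?_ ?_ ?_ ?_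
  · intro z hz
    rw [mem_ball, nm_star]
    exact mem_ball.1 hz
  · intro z _ w _ h
    exact star_injective h
  · intro z hz
    refine ⟨star z, ?_, star_star z⟩
    rw [mem_ball, nm_star]
    exact mem_ball.1 hz
  · intro z _
    by_cases hz : z = 0
    · rw [hz, star_zero, xi_at_zero hj, xi_at_zero (neg_ne_zero.2 hj)]
    · rw [xi_star _ hz]

/-- the auxiliary multiplier -/
theorem exists_alpha (j : ℤ) (hj : j ≠ 0) : ∃ α : G, α ≠ 0 ∧ 1 ≤ ‖xi j α - xi (-j) α‖ := by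
  have hj1 : 1 ≤ |j| := Int.one_le_abs hj
  refine ⟨⟨|j|, 1⟩, ?_, ?_⟩
  · intro h
    have := congrArg Zsqrtd.im h
    simp at this
  set α : G := ⟨|j|, 1⟩ with hα
  have hα0 : α ≠ 0 := by
    intro h
    have := congrArg Zsqrtd.im h
    simp [hα] at this
  have hc : (α : ℂ) = ((|j| : ℤ) : ℂ) + I := by
    rw [toComplex_eq]
    simp [hα]
  have hre : (α : ℂ).re = |(j : ℝ)| := by rw [hc]; simp
  have him : (α : ℂ).im = 1 := by rw [hc]; simp
  set a : ℝ := |(j : ℝ)| with ha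
  have ha1 : 1 ≤ a := by
    rw [ha]
    exact_mod_cast hj1
  set θ := Complex.arg (α : ℂ) with hθ
  have hpos := norm_pos hα0
  have hdir : dir α = Complex.exp (θ * I) := by
    unfold dir
    have := Complex.norm_mul_exp_arg_mul_I (α : ℂ)
    rw [div_eq_iff (by exact_mod_cast hpos.ne'), mul_comm]
    exact this.symm
  have hθ0 : 0 ≤ θ := Complex.arg_nonneg_iff.2 (by rw [him]; norm_num)
  have hθ1 : θ < Real.pi / 2 := by
    have := (Complex.abs_arg_lt_pi_div_two_iff (z := (α : ℂ))).2 (Or.inl (by rw [hre]; linarith))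
    exact (le_abs_self _).trans_lt this
  have hsin : Real.sin θ = 1 / ‖(α : ℂ)‖ := by
    rw [hθ, Complex.sin_arg, him]
  have htan : Real.tan θ = 1 / a := by
    rw [hθ, Complex.tan_arg, him, hre]
  have hup : θ ≤ 1 / a := by
    rw [← htan]
    exact Real.le_tan hθ0 hθ1
  have hlow : 1 / ‖(α : ℂ)‖ ≤ θ := by
    rw [← hsin]
    exact Real.sin_le hθ0
  have hnsq : ‖(α : ℂ)‖ ^ 2 = a ^ 2 + 1 := by
    rw [← Complex.normSq_eq_norm_sq, Complex.normSq_apply, hre, him]
    ring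
  have hnle : ‖(α : ℂ)‖ ≤ (3 / 2) * a := by
    have : ‖(α : ℂ)‖ ^ 2 ≤ ((3 / 2) * a) ^ 2 := by
      rw [hnsq]; nlinarith
    exact le_of_sq_le_sq this (by positivity)
  have hx1 : a * θ ≤ 1 := by
    have : a * θ ≤ a * (1 / a) := mul_le_mul_of_nonneg_left hup (by linarith)
    rwa [mul_one_div_cancel (by linarith)] at this
  have hx2 : 2 / 3 ≤ a * θ := by
    have h1 : a * (1 / ‖(α : ℂ)‖) ≤ a * θ := mul_le_mul_of_nonneg_left hlow (by linarith)
    have h2 : 2 / 3 ≤ a * (1 / ‖(α : ℂ)‖) := by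
      rw [mul_one_div, le_div_iff₀ hpos]
      linarith
    linarith
  have hs : 1 / 2 ≤ Real.sin (a * θ) := by
    rw [← Real.sin_pi_div_six]
    have hpi := Real.pi_lt_d2
    have hpi' := Real.pi_gt_three
    apply Real.sin_le_sin_of_le_of_le_pi_div_two <;> linarith
  have hxi : ∀ k : ℤ, xi k α = Complex.exp ((k : ℂ) * (θ * I)) := by
    intro k
    unfold xi
    rw [hdir, ← Complex.exp_int_mul]
  have hdiff : xi j α - xi (-j) α = 2 * I * ((Real.sin ((j : ℝ) * θ) : ℝ) : ℂ) := by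
    rw [hxi, hxi, Complex.ofReal_sin, Complex.sin]
    push_cast
    have e1 : (j : ℂ) * (θ * I) = (j : ℂ) * θ * I := by ring
    have e2 : (-(j : ℂ)) * (θ * I) = -((j : ℂ) * θ) * I := by ring
    rw [e1, e2]
    have hI : I * I = -1 := Complex.I_mul_I
    linear_combination (-(Complex.exp (-((j : ℂ) * θ) * I) - Complex.exp ((j : ℂ) * θ * I))) * hI
  rw [hdiff, norm_mul, norm_mul, Complex.norm_I, Complex.norm_real, Real.norm_eq_abs]
  have habs : |Real.sin ((j : ℝ) * θ)| = |Real.sin (a * θ)| := by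
    rcases abs_choice (j : ℝ) with h | h
    · rw [ha, h]
    · rw [ha, h, neg_mul, Real.sin_neg, abs_neg]
  rw [habs, abs_of_pos (by linarith)]
  simp only [Complex.norm_ofNat, mul_one]
  linarith

end SmallJAux

open SmallJAux

/-- Let `W(t) = ∑_{z ∈ ball t} xi j z` and let `α` be a Gaussian integer with `|xi (2 j) α - 1| ≥ 1`,
e.g. `α = |j| + i`: its angle is `θ = arctan (1/|j|)` and `2 |j| θ ∈ [π/2, 2]`. With `A = nm α`,
`|W(A t) - A xi j α W(t)| ≤ C |j| A √t`: split `ball (A t)` into the `A` residue classes modulo `α`; the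
class of `c` (with `|c| ≤ |α|`) is compared with the class of `0`, i.e. `α * ball t`, by the translation
`z ↦ z - c`: `|xi j z - xi j (z - c)| ≤ 2 |j| |c| / |z|` and the number of `z` with
`√(A t) - |α| ≤ |z| ≤ √(A t) + |α|` is at most `C √(A t) |α|`, and `∑_{z ∈ ball s, z ≠ 0} 1/|z| ≤ C √s`.
The same holds with `star α` (same norm, `xi j (star α) = xi (-j) α`). Subtract:
`A |xi j α - xi (-j) α| |W(t)| ≤ C |j| A √t`. -/
theorem small_j : ∃ C : ℝ, 0 < C ∧ ∀ (t : ℝ) (j : ℤ), 1 ≤ t → j ≠ 0 →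
    ‖∑ z ∈ ball t, xi j z‖ ≤ C * |(j : ℝ)| * Real.sqrt t := by
  obtain ⟨C, hC, hall⟩ := all_classes
  refine ⟨2 * C, by positivity, fun t j ht hj => ?_⟩
  obtain ⟨α, hα0, hα⟩ := exists_alpha j hj
  obtain ⟨N, hN, hNs⟩ := hall α hα0
  set s := Real.sqrt t with hs
  have hs1 : 1 ≤ s := by
    rw [hs, Real.one_le_sqrt]
    exact ht
  have hst : s ^ 2 = t := Real.sq_sqrt (by linarith)
  have h1 := hNs s j hs1 hj
  have h2 := hNs s (-j) hs1 (neg_ne_zero.2 hj)
  rw [sum_neg, sum_neg, hst, Int.cast_neg, abs_neg] at h2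
  rw [hst] at h1
  set W := ∑ z ∈ ball t, xi j z with hW
  set Z := ∑ z ∈ ball ((‖(α : ℂ)‖ * s) ^ 2), xi j z with hZ
  have h3 : ‖(N : ℂ) * ((xi j α - xi (-j) α) * W)‖ ≤
      N * (C * |(j : ℝ)| * s) + N * (C * |(j : ℝ)| * s) := by
    have : (N : ℂ) * ((xi j α - xi (-j) α) * W) =
        (Z - N * (xi (-j) α * W)) - (Z - N * (xi j α * W)) := by ring
    rw [this]
    exact (norm_sub_le _ _).trans (add_le_add h2 h1)
  rw [norm_mul, norm_mul, Complex.norm_real, Real.norm_eq_abs, abs_of_pos hN] at h3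
  have h4 : N * (‖xi j α - xi (-j) α‖ * ‖W‖) ≤ N * (2 * (C * |(j : ℝ)| * s)) := by linarith
  have h5 := le_of_mul_le_mul_left h4 hN
  have h6 : 1 * ‖W‖ ≤ ‖xi j α - xi (-j) α‖ * ‖W‖ := mul_le_mul_of_nonneg_right hα (norm_nonneg _)
  linarith

end Pool.Agent.GaussMR

end
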