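import Pool.Agent.Lib_MP_92ef0c_m.M02

/-!
# MP_92ef0c_nt, split pairs: merged library part M09

Concatenation of smaller files (each in its own section), only to save build time.
-/

/-! ### from `Lib_MP_f1a94e_mr.Bad` -/

section

/-!
# Piece BADPTS: few bad points in a row
-/

set_option autoImplicit false

namespace Pool.Agent.GaussMR

private theorem card_near (ζ R : ℝ) (hR : 0 ≤ R) :
    (((Finset.Icc ⌈ζ - R⌉ ⌊ζ + R⌋).card : ℕ) : ℝ) ≤ 2 * R + 1 := by
  rw [Int.card_Icc]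
  have h1 : ((⌊ζ + R⌋ : ℤ) : ℝ) ≤ ζ + R := Int.floor_le _
  have h2 : ζ - R ≤ ((⌈ζ - R⌉ : ℤ) : ℝ) := Int.le_ceil _
  rcases le_total 0 (⌊ζ + R⌋ + 1 - ⌈ζ - R⌉) with h | h
  · have h3 : (((⌊ζ + R⌋ + 1 - ⌈ζ - R⌉).toNat : ℤ) : ℝ) = ((⌊ζ + R⌋ + 1 - ⌈ζ - R⌉ : ℤ) : ℝ) := by
      rw [Int.toNat_of_nonneg h]
    have h4 : (((⌊ζ + R⌋ + 1 - ⌈ζ - R⌉).toNat : ℕ) : ℝ) =
        (((⌊ζ + R⌋ + 1 - ⌈ζ - R⌉).toNat : ℤ) : ℝ) := by push_cast; rfl
    rw [h4, h3]
    push_cast
    linarith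
  · rw [Int.toNat_of_nonpos h]
    push_cast
    linarith

private theorem cover (m : ℕ) (hm4 : m ≤ 4) (ζ : Fin m → ℝ) (r : ℝ) (hr : 1 ≤ r)
    (b : ℕ) (hb : r ^ (1 - 1 / 2000 : ℝ) ≤ b) (S : Set ℤ)
    (hS : ∀ x ∈ S, (b : ℝ) * ∏ i, |(x : ℝ) - ζ i| < r ^ (-(1 / 1000 : ℝ)) * r ^ (m + 1)) :
    (S.ncard : ℝ) ≤ 12 * r ^ (1 - 1 / 8000 : ℝ) := by
  classical
  have hr0 : 0 < r := by linarith
  set R : ℝ := r ^ (1 - 1 / 8000 : ℝ) with hR
  have hR1 : 1 ≤ R := Real.one_le_rpow hr (by norm_num)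
  have hR0 : 0 ≤ R := by linarith
  have hclose : ∀ x ∈ S, ∃ i, |(x : ℝ) - ζ i| < R := by
    intro x hx
    by_contra hcon
    push Not at hcon
    have h1 := hS x hx
    have h2 : R ^ m ≤ ∏ i, |(x : ℝ) - ζ i| := by
      calc R ^ m = ∏ _i : Fin m, R := by simp
        _ ≤ ∏ i, |(x : ℝ) - ζ i| := Finset.prod_le_prod (fun _ _ => hR0) (fun i _ => hcon i)
    have h3 : r ^ ((m : ℝ) - 1 / 2000) ≤ R ^ m := by
      rw [hR, ← Real.rpow_natCast, ← Real.rpow_mul hr0.le]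
      apply Real.rpow_le_rpow_of_exponent_le hr
      have : (m : ℝ) ≤ 4 := by exact_mod_cast hm4
      nlinarith
    have h4 : r ^ (-(1 / 1000 : ℝ)) * r ^ (m + 1) =
        r ^ (1 - 1 / 2000 : ℝ) * r ^ ((m : ℝ) - 1 / 2000) := by
      rw [← Real.rpow_natCast, ← Real.rpow_add hr0, ← Real.rpow_add hr0]
      congr 1
      push_cast
      ring
    rw [h4] at h1
    have h5 : r ^ (1 - 1 / 2000 : ℝ) * r ^ ((m : ℝ) - 1 / 2000) ≤ (b : ℝ) * ∏ i, |(x : ℝ) - ζ i| :=
      mul_le_mul hb (h3.trans h2) (by positivity) (by positivity)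
    linarith
  set U : Finset ℤ := Finset.univ.biUnion (fun i : Fin m => Finset.Icc ⌈ζ i - R⌉ ⌊ζ i + R⌋) with hU
  have hsub : S ⊆ (U : Set ℤ) := by
    intro x hx
    obtain ⟨i, hi⟩ := hclose x hx
    rw [abs_lt] at hi
    rw [hU, Finset.coe_biUnion]
    refine Set.mem_iUnion₂.2 ⟨i, Finset.mem_coe.2 (Finset.mem_univ i), ?_⟩
    rw [Finset.coe_Icc]
    constructor
    · exact Int.ceil_le.2 (by linarith [hi.1])
    · exact Int.le_floor.2 (by linarith [hi.2])
  have h1 : S.ncard ≤ U.card := by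
    have := Set.ncard_le_ncard hsub (Finset.finite_toSet U)
    rwa [Set.ncard_coe_finset] at this
  have h2 : U.card ≤ ∑ i : Fin m, (Finset.Icc ⌈ζ i - R⌉ ⌊ζ i + R⌋).card := Finset.card_biUnion_le
  calc (S.ncard : ℝ) ≤ ((∑ i : Fin m, (Finset.Icc ⌈ζ i - R⌉ ⌊ζ i + R⌋).card : ℕ) : ℝ) := by
        exact_mod_cast h1.trans h2
    _ = ∑ i : Fin m, (((Finset.Icc ⌈ζ i - R⌉ ⌊ζ i + R⌋).card : ℕ) : ℝ) := by push_cast; rfl
    _ ≤ ∑ _i : Fin m, (2 * R + 1) := Finset.sum_le_sum (fun i _ => card_near (ζ i) R hR0)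
    _ = m * (2 * R + 1) := by
        rw [Finset.sum_const, Finset.card_univ, Fintype.card_fin, nsmul_eq_mul]
    _ ≤ 4 * (3 * R) := by
        have hm' : (m : ℝ) ≤ 4 := by exact_mod_cast hm4
        apply mul_le_mul hm' (by linarith) (by positivity) (by norm_num)
    _ = 12 * R := by ring

private theorem im_bound (q : ℕ) (r : ℝ) (hr : 1 ≤ r) (b : ℕ) (hb : 1 ≤ b) (x : ℤ)
    (h1 : (x : ℝ) ^ 2 + (b : ℝ) ^ 2 ≤ r ^ 2)
    (h2 : |(((x : ℂ) + b * Complex.I) ^ (-(q : ℤ))).im| * ‖(x : ℂ) + b * Complex.I‖ ^ q <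
        r ^ (-(1 / 1000 : ℝ))) :
    |(((x : ℂ) + b * Complex.I) ^ q).im| < r ^ (-(1 / 1000 : ℝ)) * r ^ q := by
  have hr0 : 0 < r := by linarith
  set w : ℂ := (x : ℂ) + b * Complex.I with hw
  have hwre : w.re = x := by rw [hw]; simp
  have hwim : w.im = b := by rw [hw]; simp
  have hnsq : ‖w‖ ^ 2 = (x : ℝ) ^ 2 + (b : ℝ) ^ 2 := by
    rw [← Complex.normSq_eq_norm_sq, Complex.normSq_apply, hwre, hwim]; ring
  have hb' : (1 : ℝ) ≤ b := by exact_mod_cast hb
  have hwpos : 0 < ‖w‖ := by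
    rcases (norm_nonneg w).lt_or_eq with h | h
    · exact h
    · rw [← h] at hnsq
      nlinarith [sq_nonneg (x : ℝ)]
  have hwle : ‖w‖ ≤ r := by
    apply le_of_sq_le_sq _ hr0.le
    rw [hnsq]; exact h1
  have hz : ‖w ^ q‖ = ‖w‖ ^ q := norm_pow _ _
  have e1 : |(w ^ (-(q : ℤ))).im| * ‖w‖ ^ q = |(w ^ q).im| / ‖w‖ ^ q := by
    rw [zpow_neg, zpow_natCast, Complex.inv_im, abs_div, abs_neg, Complex.normSq_eq_norm_sq, hz,
      abs_of_nonneg (by positivity : (0 : ℝ) ≤ (‖w‖ ^ q) ^ 2)]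
    field_simp
  rw [e1, div_lt_iff₀ (by positivity)] at h2
  refine h2.trans_le ?_
  exact mul_le_mul_of_nonneg_left (pow_le_pow_left₀ (norm_nonneg _) hwle q) (by positivity)

/-- `|Im (x + i b)^(-q)| |x + i b|^q = |Im (x + i b)^q| / |x + i b|^q`. The polynomial
`p(x) = Im (x + i b)^q` has degree `q - 1` and leading coefficient `q b`; if `x² + b² ≤ r²` is bad then
`|p x| < κ r^q` with `κ = r^(-1/1000)`, and as `b ≥ κ^(1/2) r` one of the `q - 1` complex roots `ζ` of `p`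
satisfies `|x - ζ| < κ^(1/(2(q-1))) r ≤ κ^(1/8) r`. So at most `4 (2 κ^(1/8) r + 1)` integers `x`. -/
theorem bad_card : ∃ C : ℝ, 0 < C ∧ ∀ (q : ℕ), 2 ≤ q → q ≤ 5 → ∀ (r : ℝ) (b : ℕ), 1 ≤ r →
    r ^ (1 - 1 / 2000 : ℝ) ≤ b →
    (Set.ncard {x : ℤ | (x : ℝ) ^ 2 + (b : ℝ) ^ 2 ≤ r ^ 2 ∧
      |(((x : ℂ) + b * Complex.I) ^ (-(q : ℤ))).im| * ‖(x : ℂ) + b * Complex.I‖ ^ q <
        r ^ (-(1 / 1000 : ℝ))} : ℝ) ≤ C * r ^ (1 - 1 / 8000 : ℝ) := by
  refine ⟨12, by norm_num, ?_⟩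
  intro q hq2 hq5 r b hr hb
  have hb1 : 1 ≤ b := by
    have h1 : (1 : ℝ) ≤ r ^ (1 - 1 / 2000 : ℝ) := Real.one_le_rpow hr (by norm_num)
    exact_mod_cast h1.trans hb
  have hb0 : (0 : ℝ) ≤ b := by positivity
  obtain rfl | rfl | rfl | rfl : q = 2 ∨ q = 3 ∨ q = 4 ∨ q = 5 := by omega
  · -- q = 2
    refine cover 1 (by norm_num) ![0] r hr b hb _ ?_
    rintro x ⟨h1, h2⟩
    have h3 := im_bound 2 r hr b hb1 x h1 h2
    refine lt_of_le_of_lt ?_ h3
    have e : ((((x : ℂ) + b * Complex.I) ^ 2).im : ℝ) = b * (2 * (x : ℝ)) := by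
      simp [pow_succ, Complex.mul_re, Complex.mul_im]; ring
    rw [e, abs_mul, abs_of_nonneg hb0, abs_mul]
    simp only [Fin.prod_univ_one, Matrix.cons_val_zero, sub_zero]
    refine mul_le_mul_of_nonneg_left ?_ hb0
    rw [abs_of_nonneg (by norm_num : (0 : ℝ) ≤ 2)]
    nlinarith [abs_nonneg (x : ℝ)]
  · -- q = 3
    set s : ℝ := Real.sqrt 3 with hs
    have hs2 : s ^ 2 = 3 := Real.sq_sqrt (by norm_num)
    have hs0 : s ≠ 0 := by rw [hs]; positivity
    refine cover 2 (by norm_num) ![(b : ℝ) / s, -((b : ℝ) / s)] r hr b hb _ ?_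
    rintro x ⟨h1, h2⟩
    have h3 := im_bound 3 r hr b hb1 x h1 h2
    refine lt_of_le_of_lt ?_ h3
    have e : ((((x : ℂ) + b * Complex.I) ^ 3).im : ℝ) =
        b * (3 * (((x : ℝ) - b / s) * ((x : ℝ) - -(b / s)))) := by
      have e1 : ((((x : ℂ) + b * Complex.I) ^ 3).im : ℝ) = b * (3 * (x : ℝ) ^ 2 - (b : ℝ) ^ 2) := by
        simp [pow_succ, Complex.mul_re, Complex.mul_im]; ring
      have e2 : 3 * (((x : ℝ) - b / s) * ((x : ℝ) - -(b / s))) =
          3 * (x : ℝ) ^ 2 - 3 * ((b : ℝ) ^ 2 / s ^ 2) := by field_simp; ring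
      rw [e1, e2, hs2]
      ring
    rw [e, abs_mul, abs_of_nonneg hb0, abs_mul, abs_mul]
    simp only [Fin.prod_univ_two, Matrix.cons_val_zero, Matrix.cons_val_one]
    refine mul_le_mul_of_nonneg_left ?_ hb0
    rw [abs_of_nonneg (by norm_num : (0 : ℝ) ≤ 3)]
    nlinarith [mul_nonneg (abs_nonneg ((x : ℝ) - b / s)) (abs_nonneg ((x : ℝ) - -(b / s)))]
  · -- q = 4
    refine cover 3 (by norm_num) ![0, (b : ℝ), -(b : ℝ)] r hr b hb _ ?_
    rintro x ⟨h1, h2⟩
    have h3 := im_bound 4 r hr b hb1 x h1 h2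
    refine lt_of_le_of_lt ?_ h3
    have e : ((((x : ℂ) + b * Complex.I) ^ 4).im : ℝ) =
        b * (4 * (((x : ℝ) - 0) * ((x : ℝ) - b) * ((x : ℝ) - -b))) := by
      simp [pow_succ, Complex.mul_re, Complex.mul_im]; ring
    rw [e, abs_mul, abs_of_nonneg hb0, abs_mul, abs_mul, abs_mul]
    rw [Fin.prod_univ_three]
    simp only [Matrix.cons_val_zero, Matrix.cons_val_one, Matrix.cons_val_two, Matrix.head_cons,
      Matrix.tail_cons]
    refine mul_le_mul_of_nonneg_left ?_ hb0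
    rw [abs_of_nonneg (by norm_num : (0 : ℝ) ≤ 4)]
    nlinarith [mul_nonneg (mul_nonneg (abs_nonneg ((x : ℝ) - 0)) (abs_nonneg ((x : ℝ) - b)))
      (abs_nonneg ((x : ℝ) - -b))]
  · -- q = 5
    set t : ℝ := 2 / Real.sqrt 5 with ht
    have ht2 : t ^ 2 = 4 / 5 := by
      rw [ht, div_pow, Real.sq_sqrt (by norm_num)]; norm_num
    have ht0 : 0 ≤ t := by rw [ht]; positivity
    have ht1 : t < 1 := by nlinarith
    set u : ℝ := Real.sqrt (1 + t) with hu
    set v : ℝ := Real.sqrt (1 - t) with hv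
    have hu2 : u ^ 2 = 1 + t := Real.sq_sqrt (by linarith)
    have hv2 : v ^ 2 = 1 - t := Real.sq_sqrt (by linarith)
    refine cover 4 (by norm_num) ![b * u, -(b * u), b * v, -(b * v)] r hr b hb _ ?_
    rintro x ⟨h1, h2⟩
    have h3 := im_bound 5 r hr b hb1 x h1 h2
    refine lt_of_le_of_lt ?_ h3
    have e : ((((x : ℂ) + b * Complex.I) ^ 5).im : ℝ) =
        b * (5 * (((x : ℝ) - b * u) * ((x : ℝ) - -(b * u)) * ((x : ℝ) - b * v) *
          ((x : ℝ) - -(b * v)))) := by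
      have e1 : ((((x : ℂ) + b * Complex.I) ^ 5).im : ℝ) =
          b * (5 * (x : ℝ) ^ 4 - 10 * (x : ℝ) ^ 2 * (b : ℝ) ^ 2 + (b : ℝ) ^ 4) := by
        simp [pow_succ, Complex.mul_re, Complex.mul_im]; ring
      have e2 : ((x : ℝ) - b * u) * ((x : ℝ) - -(b * u)) * ((x : ℝ) - b * v) *
          ((x : ℝ) - -(b * v)) = ((x : ℝ) ^ 2 - b ^ 2 * u ^ 2) * ((x : ℝ) ^ 2 - b ^ 2 * v ^ 2) := by
        ring
      rw [e1, e2, hu2, hv2]
      have e3 : 5 * (((x : ℝ) ^ 2 - b ^ 2 * (1 + t)) * ((x : ℝ) ^ 2 - b ^ 2 * (1 - t))) =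
          5 * (x : ℝ) ^ 4 - 10 * (x : ℝ) ^ 2 * (b : ℝ) ^ 2 + 5 * (b : ℝ) ^ 4 * (1 - t ^ 2) := by ring
      rw [e3, ht2]
      ring
    rw [e, abs_mul, abs_of_nonneg hb0, abs_mul, abs_mul, abs_mul, abs_mul]
    rw [Fin.prod_univ_four]
    simp only [Matrix.cons_val_zero, Matrix.cons_val_one, Matrix.cons_val_two, Matrix.cons_val_three,
      Matrix.head_cons, Matrix.tail_cons]
    refine mul_le_mul_of_nonneg_left ?_ hb0
    rw [abs_of_nonneg (by norm_num : (0 : ℝ) ≤ 5)]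
    nlinarith [mul_nonneg (mul_nonneg (mul_nonneg (abs_nonneg ((x : ℝ) - b * u))
      (abs_nonneg ((x : ℝ) - -(b * u)))) (abs_nonneg ((x : ℝ) - b * v)))
      (abs_nonneg ((x : ℝ) - -(b * v)))]

end Pool.Agent.GaussMR

end

/-! ### from `Lib_MP_f1a94e_aq.ZEuler` -/

section

/-!
# Piece ZEULER: Euler products near the line 1
-/

set_option autoImplicit false

namespace Pool.Agent.OmAll

namespace ZEuler

open Complex

theorem norm_term_le {N : ℕ} (χ : DirichletCharacter ℂ N) {s : ℂ} (p : Nat.Primes) :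
    ‖χ p * (p : ℂ) ^ (-s)‖ ≤ ((p : ℕ) : ℝ) ^ (-s.re) := by
  rw [norm_mul]
  have h1 : ‖χ (p : ZMod N)‖ ≤ 1 := χ.norm_le_one _
  have h2 : ‖((p : ℕ) : ℂ) ^ (-s)‖ = ((p : ℕ) : ℝ) ^ (-s.re) := by
    rw [Complex.norm_natCast_cpow_of_pos p.2.pos, Complex.neg_re]
  rw [h2]
  have h3 : (0 : ℝ) ≤ ((p : ℕ) : ℝ) ^ (-s.re) := by positivity
  nlinarith

theorem rpow_le {s : ℂ} (hs : 1 < s.re) (p : Nat.Primes) :
    ((p : ℕ) : ℝ) ^ (-s.re) ≤ 1 / ((p : ℕ) : ℝ) := by
  have hp : (1 : ℝ) ≤ ((p : ℕ) : ℝ) := by exact_mod_cast p.2.one_lt.le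
  rw [one_div, ← Real.rpow_neg_one]
  exact Real.rpow_le_rpow_of_exponent_le hp (by linarith)

theorem key {N : ℕ} (χ : DirichletCharacter ℂ N) {s : ℂ} (hs : 1 < s.re) :
    ∑' p : Nat.Primes, (χ p * (p : ℂ) ^ (-s)).re ≤
      Real.log ‖LSeries (χ ·) s‖ + ∑' n : ℕ, 1 / (n : ℝ) ^ 2 := by
  have H := DirichletCharacter.summable_neg_log_one_sub_mul_prime_cpow χ hs
  have hz : ∀ p : Nat.Primes, ‖χ p * (p : ℂ) ^ (-s)‖ ≤ 1 / 2 := by
    intro p
    refine (norm_term_le χ p).trans ((rpow_le hs p).trans ?_)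
    have hp : (2 : ℝ) ≤ ((p : ℕ) : ℝ) := by exact_mod_cast p.2.two_le
    exact one_div_le_one_div_of_le (by norm_num) hp
  have e1 : Real.log ‖LSeries (χ ·) s‖ = ∑' p : Nat.Primes, (-log (1 - χ p * (p : ℂ) ^ (-s))).re := by
    rw [← DirichletCharacter.LSeries_eulerProduct_exp_log χ hs, Complex.norm_exp, Real.log_exp,
      re_tsum H]
  have hs2 : Summable fun n : ℕ => 1 / (n : ℝ) ^ 2 := Real.summable_one_div_nat_pow.2 (by norm_num)
  have hs3 : Summable fun p : Nat.Primes => 1 / ((p : ℕ) : ℝ) ^ 2 := hs2.subtype _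
  have hs1 : Summable fun p : Nat.Primes => (-log (1 - χ p * (p : ℂ) ^ (-s))).re :=
    (hasSum_re H.hasSum).summable
  have hsz : Summable fun p : Nat.Primes => (χ p * (p : ℂ) ^ (-s)).re := by
    have h1 : Summable fun p : Nat.Primes => ((p : ℕ) : ℝ) ^ (-s.re) :=
      Nat.Primes.summable_rpow.2 (by linarith)
    refine Summable.of_norm_bounded h1 fun p => ?_
    exact (Complex.abs_re_le_norm _).trans (norm_term_le χ p)
  have hle : ∑' p : Nat.Primes, 1 / ((p : ℕ) : ℝ) ^ 2 ≤ ∑' n : ℕ, 1 / (n : ℝ) ^ 2 :=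
    hs2.tsum_subtype_le (fun n : ℕ => 1 / (n : ℝ) ^ 2) _ (fun n => by positivity)
  calc ∑' p : Nat.Primes, (χ p * (p : ℂ) ^ (-s)).re
      ≤ ∑' p : Nat.Primes, ((-log (1 - χ p * (p : ℂ) ^ (-s))).re + 1 / ((p : ℕ) : ℝ) ^ 2) := by
        refine hsz.tsum_le_tsum (fun p => ?_) (hs1.add hs3)
        set z := χ p * (p : ℂ) ^ (-s) with hzdef
        have h1 : ‖log (1 - z)⁻¹ - z‖ ≤ ‖z‖ ^ 2 * (1 - ‖z‖)⁻¹ / 2 :=
          Complex.norm_log_one_sub_inv_sub_self_le (lt_of_le_of_lt (hz p) (by norm_num))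
        have h2 : log (1 - z)⁻¹ = -log (1 - z) := by
          rw [Complex.log_inv]
          intro harg
          have h3 : (1 - z).re < 0 ∧ (1 - z).im = 0 := Complex.arg_eq_pi_iff.1 harg
          have h4 : z.re ≤ ‖z‖ := Complex.re_le_norm z
          have h5 := hz p
          have h6 := h3.1
          rw [Complex.sub_re, Complex.one_re] at h6
          linarith
        rw [h2] at h1
        have h3 : (1 - ‖z‖)⁻¹ ≤ 2 := by
          rw [inv_le_comm₀ (by linarith [hz p]) (by norm_num)]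
          linarith [hz p]
        have h4 : ‖z‖ ^ 2 * (1 - ‖z‖)⁻¹ / 2 ≤ ‖z‖ ^ 2 := by
          have := mul_le_mul_of_nonneg_left h3 (sq_nonneg ‖z‖)
          linarith
        have h5 : ‖z‖ ^ 2 ≤ 1 / ((p : ℕ) : ℝ) ^ 2 := by
          have h6 : ‖z‖ ≤ 1 / ((p : ℕ) : ℝ) := (norm_term_le χ p).trans (rpow_le hs p)
          have h7 := pow_le_pow_left₀ (norm_nonneg z) h6 2
          rwa [div_pow, one_pow] at h7
        have h6 : -(-log (1 - z) - z).re ≤ ‖-log (1 - z) - z‖ := by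
          rw [← norm_neg, ← Complex.neg_re]
          exact Complex.re_le_norm _
        rw [Complex.sub_re] at h6
        linarith
    _ = Real.log ‖LSeries (χ ·) s‖ + ∑' p : Nat.Primes, 1 / ((p : ℕ) : ℝ) ^ 2 := by
        rw [hs1.tsum_add hs3, e1]
    _ ≤ _ := by linarith

theorem tsum_ite (f : ℕ → ℝ) :
    ∑' p : ℕ, (if p.Prime then f p else 0) = ∑' p : Nat.Primes, f p := by
  have h := tsum_subtype {p : ℕ | p.Prime} f
  rw [show (∑' p : Nat.Primes, f p) = ∑' x : ↑{p : ℕ | p.Prime}, f ↑x from rfl, h]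
  apply tsum_congr
  intro p
  rw [Set.indicator_apply]
  rfl

theorem re_cpow (p : ℕ) (hp : 0 < p) (δ t : ℝ) :
    ((p : ℂ) ^ (-((1 + δ : ℝ) + (t : ℂ) * I))).re = Real.cos (t * Real.log p) / (p : ℝ) ^ (1 + δ) := by
  have hp' : (p : ℂ) ≠ 0 := by exact_mod_cast hp.ne'
  have hpr : (0 : ℝ) < (p : ℝ) := by exact_mod_cast hp
  rw [Complex.cpow_def_of_ne_zero hp']
  have h1 : Complex.log (p : ℂ) = ((Real.log p : ℝ) : ℂ) := by
    rw [Complex.natCast_log]
  rw [h1]
  have h2 : ((Real.log p : ℝ) : ℂ) * (-((1 + δ : ℝ) + (t : ℂ) * I)) =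
      ((-(Real.log p * (1 + δ)) : ℝ) : ℂ) + ((-(t * Real.log p) : ℝ) : ℂ) * I := by
    push_cast
    ring
  rw [h2, Complex.exp_add_mul_I, ← Complex.ofReal_exp, ← Complex.ofReal_cos, ← Complex.ofReal_sin,
    Complex.re_ofReal_mul, Complex.add_re, Complex.ofReal_re, Complex.re_ofReal_mul, Complex.I_re,
    mul_zero, add_zero, Real.cos_neg, Real.rpow_def_of_pos hpr, Real.exp_neg]
  field_simp

theorem exists_bd {F : ℂ → ℂ} (hF : Continuous F) (N : ℝ) : ∃ B : ℝ, 1 ≤ B ∧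
    ∀ δ t : ℝ, 0 ≤ δ → δ ≤ 1 → |t| ≤ N → ‖F ((1 + δ : ℝ) + (t : ℂ) * I)‖ ≤ B := by
  have hc : Continuous fun q : ℝ × ℝ => F ((1 + q.1 : ℝ) + (q.2 : ℂ) * I) := by
    apply hF.comp
    fun_prop
  obtain ⟨B, hB⟩ := ((isCompact_Icc (a := (0 : ℝ)) (b := 1)).prod
    (isCompact_Icc (a := -N) (b := N))).exists_bound_of_continuousOn hc.continuousOn
  refine ⟨max B 1, le_max_right _ _, fun δ t h1 h2 h3 => (hB (δ, t) ?_).trans (le_max_left _ _)⟩
  exact ⟨⟨h1, h2⟩, abs_le.1 h3⟩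

/-- the character mod 4 with values in `ℂ` -/
noncomputable def ch : DirichletCharacter ℂ 4 := ZMod.χ₄.ringHomComp (Int.castRingHom ℂ)

theorem ch_apply (n : ℕ) : ch (n : ZMod 4) = ((ZMod.χ₄ (n : ZMod 4) : ℤ) : ℂ) := rfl

theorem ch_ne : ch ≠ 1 := by
  intro h
  have h1 : ch ((3 : ℕ) : ZMod 4) = 1 := by
    rw [h]
    apply MulChar.one_apply
    decide
  rw [ch_apply, ZMod.χ₄_nat_three_mod_four (by norm_num)] at h1
  norm_num at h1

end ZEuler

open ZEuler Complex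

/-- `Re ∑_p p^(-s) ≤ log (1/|t|) + C` for `s = 1 + δ + i t`, `0 < δ ≤ 1`, `0 < |t| ≤ N`.
`riemannZeta_eulerProduct_exp_log` (Mathlib.NumberTheory.EulerProduct.DirichletLSeries): `exp (∑' p, -log (1 - p^(-s))) = ζ(s)`, so `∑' Re (-log (1 - p^(-s))) = log |ζ(s)|`;
`|-log (1 - z) - z| ≤ |z|^2` for `|z| ≤ 1/2` and `∑ p^(-2) ≤ 2`. `(s - 1) ζ(s)` extends continuously to the compact set
`1 ≤ Re s ≤ 2`, `|Im s| ≤ N` (`riemannZeta_residue_one`, `differentiableAt_riemannZeta`; or use `Function.update`/`ZetaAsymp`), so is bounded by `e^C`, and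
`|s - 1| ≥ |t|`. -/
theorem zeta_upper (N : ℝ) (hN : 0 < N) : ∃ C : ℝ, ∀ δ t : ℝ, 0 < δ → δ ≤ 1 → 0 < |t| → |t| ≤ N →
    ∑' p : ℕ, (if p.Prime then Real.cos (t * Real.log p) / (p : ℝ) ^ (1 + δ) else 0) ≤
      Real.log (1 / |t|) + C := by
  obtain ⟨B, hB1, hB⟩ := exists_bd
    (DirichletCharacter.differentiable_LFunctionTrivChar₁ 1).continuous N
  refine ⟨Real.log B + ∑' n : ℕ, 1 / (n : ℝ) ^ 2, fun δ t hδ hδ1 ht htN => ?_⟩
  rw [tsum_ite (fun p : ℕ => Real.cos (t * Real.log p) / (p : ℝ) ^ (1 + δ))]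
  set s : ℂ := (1 + δ : ℝ) + (t : ℂ) * I with hsdef
  have hre : s.re = 1 + δ := by simp [hsdef]
  have him : s.im = t := by simp [hsdef]
  have hs : 1 < s.re := by rw [hre]; linarith
  have hs1 : s ≠ 1 := by
    intro h
    rw [h] at hs
    simp at hs
  have h1 := key (1 : DirichletCharacter ℂ 1) hs
  have h2 : ∀ p : Nat.Primes, ((1 : DirichletCharacter ℂ 1) p * (p : ℂ) ^ (-s)).re =
      Real.cos (t * Real.log p) / (p : ℝ) ^ (1 + δ) := by
    intro p
    rw [MulChar.one_apply (isUnit_of_subsingleton _), one_mul, hsdef]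
    exact re_cpow p p.2.pos δ t
  rw [tsum_congr h2, ← DirichletCharacter.LFunction_eq_LSeries _ hs] at h1
  have h3 := hB δ t hδ.le hδ1 htN
  rw [← hsdef, DirichletCharacter.LFunctionTrivChar₁, Function.update_of_ne hs1, norm_mul] at h3
  have h4 : 0 < ‖DirichletCharacter.LFunctionTrivChar 1 s‖ := by
    rw [norm_pos_iff, DirichletCharacter.LFunctionTrivChar,
      DirichletCharacter.LFunction_eq_LSeries _ hs,
      ← DirichletCharacter.LSeries_eulerProduct_exp_log _ hs]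
    exact Complex.exp_ne_zero _
  have h5 : |t| ≤ ‖s - 1‖ := by
    have := Complex.abs_im_le_norm (s - 1)
    rwa [Complex.sub_im, him, Complex.one_im, sub_zero] at this
  have h6 : ‖DirichletCharacter.LFunctionTrivChar 1 s‖ ≤ 1 / |t| * B := by
    rw [one_div_mul_eq_div, le_div_iff₀ ht]
    have := mul_le_mul_of_nonneg_right h5 h4.le
    linarith
  have h7 : Real.log ‖DirichletCharacter.LFunctionTrivChar 1 s‖ ≤ Real.log (1 / |t|) + Real.log B := by
    rw [← Real.log_mul (by positivity) (by positivity)]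
    exact Real.log_le_log h4 h6
  linarith

/-- The same for the character `χ₄` mod 4, without pole: `∑_p χ₄(p) cos (t log p) / p^(1+δ) ≤ C`
(`DirichletCharacter.LSeries_eulerProduct_exp_log`, continuity of `DirichletCharacter.LFunction` on the compact set). `χ₄(p)` is `1` for `p = 1 mod 4`,
`-1` for `p = 3 mod 4`, `0` for `p = 2`; as a real number `(ZMod.χ₄ (p : ZMod 4) : ℝ)`. -/
theorem chi_upper (N : ℝ) (hN : 0 < N) : ∃ C : ℝ, ∀ δ t : ℝ, 0 < δ → δ ≤ 1 → |t| ≤ N →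
    ∑' p : ℕ, (if p.Prime then (ZMod.χ₄ (p : ZMod 4) : ℝ) * Real.cos (t * Real.log p) / (p : ℝ) ^ (1 + δ) else 0) ≤
      C := by
  obtain ⟨B, hB1, hB⟩ := exists_bd (DirichletCharacter.differentiable_LFunction ch_ne).continuous N
  refine ⟨Real.log B + ∑' n : ℕ, 1 / (n : ℝ) ^ 2, fun δ t hδ hδ1 htN => ?_⟩
  rw [tsum_ite (fun p : ℕ => (ZMod.χ₄ (p : ZMod 4) : ℝ) * Real.cos (t * Real.log p) /
    (p : ℝ) ^ (1 + δ))]
  set s : ℂ := (1 + δ : ℝ) + (t : ℂ) * I with hsdef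
  have hre : s.re = 1 + δ := by simp [hsdef]
  have hs : 1 < s.re := by rw [hre]; linarith
  have h1 := key ch hs
  have h2 : ∀ p : Nat.Primes, (ch p * (p : ℂ) ^ (-s)).re =
      (ZMod.χ₄ ((p : ℕ) : ZMod 4) : ℝ) * Real.cos (t * Real.log p) / (p : ℝ) ^ (1 + δ) := by
    intro p
    have h3 : ch ((p : ℕ) : ZMod 4) = (((ZMod.χ₄ ((p : ℕ) : ZMod 4) : ℤ) : ℝ) : ℂ) := by
      rw [ch_apply, Complex.ofReal_intCast]
    rw [h3, Complex.re_ofReal_mul, hsdef, re_cpow p p.2.pos δ t, mul_div_assoc]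
  rw [tsum_congr h2, ← DirichletCharacter.LFunction_eq_LSeries _ hs] at h1
  have h3 := hB δ t hδ.le hδ1 htN
  rw [← hsdef] at h3
  have h4 : 0 < ‖DirichletCharacter.LFunction ch s‖ := by
    rw [norm_pos_iff, DirichletCharacter.LFunction_eq_LSeries _ hs,
      ← DirichletCharacter.LSeries_eulerProduct_exp_log _ hs]
    exact Complex.exp_ne_zero _
  have h7 : Real.log ‖DirichletCharacter.LFunction ch s‖ ≤ Real.log B := Real.log_le_log h4 h3
  linarith

end Pool.Agent.OmAll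

end

/-! ### from `Lib_MP_f1a94e_eq.NpN` -/

section

/-!
# Piece NPN: twisted sums over primes near the line 1
-/

set_option autoImplicit false

namespace Pool.Agent.OmEq

open Complex

/-- values of the character at primes, `0` otherwise -/
noncomputable def npf {N : ℕ} (χ : DirichletCharacter ℂ N) (n : ℕ) : ℂ :=
  if n.Prime then χ (n : ZMod N) else 0

theorem npf_le {N : ℕ} (χ : DirichletCharacter ℂ N) (n : ℕ) : ‖npf χ n‖ ≤ 1 := by
  unfold npf
  split_ifs
  · exact χ.norm_le_one _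
  · simp

theorem npf_abs {N : ℕ} (χ : DirichletCharacter ℂ N) {s : ℂ} (hs : 1 < s.re) :
    LSeries.abscissaOfAbsConv (npf χ) < s.re := by
  refine lt_of_le_of_lt (LSeries.abscissaOfAbsConv_le_of_le_const ⟨1, fun n _ => npf_le χ n⟩) ?_
  exact_mod_cast hs

theorem npf_series {N : ℕ} (χ : DirichletCharacter ℂ N) (s : ℂ) :
    ∑' p : Nat.Primes, χ (((p : ℕ) : ZMod N)) * ((p : ℕ) : ℂ) ^ (-s) = LSeries (npf χ) s := by
  have h := tsum_subtype {p : ℕ | p.Prime} (fun n : ℕ => χ ((n : ZMod N)) * (n : ℂ) ^ (-s))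
  have h1 : ∑' p : Nat.Primes, χ (((p : ℕ) : ZMod N)) * ((p : ℕ) : ℂ) ^ (-s) =
      ∑' x : ↑{p : ℕ | p.Prime}, (fun n : ℕ => χ ((n : ZMod N)) * (n : ℂ) ^ (-s)) ↑x := rfl
  rw [h1, h]
  unfold LSeries
  apply tsum_congr
  intro n
  rw [Set.indicator_apply, LSeries.term_def]
  by_cases hp : n.Prime
  · rw [if_pos (show n ∈ {p : ℕ | p.Prime} from hp), if_neg hp.ne_zero, npf, if_pos hp,
      Complex.cpow_neg, div_eq_mul_inv]
  · rw [if_neg (show ¬ n ∈ {p : ℕ | p.Prime} from hp), npf, if_neg hp, zero_div]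
    simp

/-- the sum over prime powers -/
noncomputable def npC : ℝ := ∑' n : ℕ, (if n.Prime then 0 else ArithmeticFunction.vonMangoldt.residueClass (q := 1) 0 n) / (n : ℝ)

theorem npf_log {N : ℕ} (χ : DirichletCharacter ℂ N) {s : ℂ} (hs : 1 < s.re) :
    ‖LSeries ((fun n : ℕ => χ (n : ZMod N)) * (fun n : ℕ => ((ArithmeticFunction.vonMangoldt n : ℝ) : ℂ))) s -
      LSeries (LSeries.logMul (npf χ)) s‖ ≤ npC := by
  have h1 : LSeriesSummable ((fun n : ℕ => χ (n : ZMod N)) * (fun n : ℕ => ((ArithmeticFunction.vonMangoldt n : ℝ) : ℂ))) s :=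
    DirichletCharacter.LSeriesSummable_twist_vonMangoldt χ hs
  have h2 : LSeriesSummable (LSeries.logMul (npf χ)) s :=
    LSeriesSummable_logMul_of_lt_re (npf_abs χ hs)
  rw [← LSeries_sub h1 h2]
  unfold LSeries npC
  apply tsum_of_norm_bounded (ArithmeticFunction.vonMangoldt.summable_residueClass_non_primes_div (q := 1) 0).hasSum
  intro n
  rw [LSeries.term_def]
  by_cases h0 : n = 0
  · simp [h0]
  · rw [if_neg h0]
    have hn : (1 : ℝ) ≤ n := by exact_mod_cast Nat.pos_of_ne_zero h0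
    by_cases hp : n.Prime
    · rw [if_pos hp]
      have : ((fun n : ℕ => χ (n : ZMod N)) * (fun n : ℕ => ((ArithmeticFunction.vonMangoldt n : ℝ) : ℂ)) -
          LSeries.logMul (npf χ)) n = 0 := by
        simp only [Pi.sub_apply, Pi.mul_apply, LSeries.logMul, npf, if_pos hp]
        rw [ArithmeticFunction.vonMangoldt_apply_prime hp, Complex.natCast_log]
        ring
      rw [this]
      simp
    · rw [if_neg hp, norm_div, Complex.norm_natCast_cpow_of_pos (Nat.pos_of_ne_zero h0)]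
      have h3 : ((fun n : ℕ => χ (n : ZMod N)) * (fun n : ℕ => ((ArithmeticFunction.vonMangoldt n : ℝ) : ℂ)) -
          LSeries.logMul (npf χ)) n = χ (n : ZMod N) * ((ArithmeticFunction.vonMangoldt n : ℝ) : ℂ) := by
        simp only [Pi.sub_apply, Pi.mul_apply, LSeries.logMul, npf, if_neg hp]
        ring
      have h4 : ArithmeticFunction.vonMangoldt.residueClass (q := 1) 0 n = ArithmeticFunction.vonMangoldt n := by
        rw [ArithmeticFunction.vonMangoldt.residueClass, Set.indicator_apply, if_pos]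
        exact Subsingleton.elim _ _
      rw [h3, h4, norm_mul]
      have h5 : ‖χ (n : ZMod N)‖ ≤ 1 := χ.norm_le_one _
      have h6 : ‖((ArithmeticFunction.vonMangoldt n : ℝ) : ℂ)‖ = ArithmeticFunction.vonMangoldt n := by
        rw [Complex.norm_real, Real.norm_eq_abs, abs_of_nonneg ArithmeticFunction.vonMangoldt_nonneg]
      rw [h6]
      have h7 : (n : ℝ) ≤ (n : ℝ) ^ s.re := by
        calc (n : ℝ) = (n : ℝ) ^ (1 : ℝ) := (Real.rpow_one _).symm
          _ ≤ _ := Real.rpow_le_rpow_of_exponent_le hn hs.le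
      have h8 : 0 ≤ ArithmeticFunction.vonMangoldt n := ArithmeticFunction.vonMangoldt_nonneg
      apply div_le_div₀ h8 _ (by linarith) h7
      nlinarith

/-- boundedness of the derivative -/
theorem npf_bd {N : ℕ} [NeZero N] (χ : DirichletCharacter ℂ N) (hχ : χ ≠ 1) (B : ℝ) :
    ∃ C : ℝ, ∀ u t : ℝ, 0 < u → u ≤ 1 → |t| ≤ B →
      ‖LSeries (LSeries.logMul (npf χ)) ((1 + u : ℝ) + (t : ℂ) * I)‖ ≤ C := by
  have hc := DirichletCharacter.continuousOn_neg_logDeriv_LFunction_of_nontriv hχ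
  have hmap : Continuous fun q : ℝ × ℝ => (((1 + q.1 : ℝ) : ℂ) + (q.2 : ℂ) * I) := by fun_prop
  have hre : ∀ u t : ℝ, ((((1 + u : ℝ) : ℂ) + (t : ℂ) * I)).re = 1 + u := by
    intro u t
    simp
  have hmaps : Set.MapsTo (fun q : ℝ × ℝ => (((1 + q.1 : ℝ) : ℂ) + (q.2 : ℂ) * I))
      (Set.Icc (0:ℝ) 1 ×ˢ Set.Icc (-B) B) {s | DirichletCharacter.LFunction χ s ≠ 0} := by
    rintro ⟨u, t⟩ ⟨h1, h2⟩
    apply DirichletCharacter.LFunction_ne_zero_of_one_le_re χ (.inl hχ)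
    rw [hre]
    linarith [h1.1]
  obtain ⟨C, hC⟩ := ((isCompact_Icc (a := (0 : ℝ)) (b := 1)).prod
    (isCompact_Icc (a := -B) (b := B))).exists_bound_of_continuousOn (hc.comp hmap.continuousOn hmaps)
  refine ⟨C + npC, fun u t hu hu1 ht => ?_⟩
  have hs : 1 < ((((1 + u : ℝ) : ℂ) + (t : ℂ) * I)).re := by rw [hre]; linarith
  have h1 := hC (u, t) ⟨⟨hu.le, hu1⟩, abs_le.1 ht⟩
  have h2 := npf_log χ hs
  have h3 := DirichletCharacter.LSeries_twist_vonMangoldt_eq χ hs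
  have h4 : LSeries ((fun n : ℕ => χ (n : ZMod N)) * (fun n : ℕ => ((ArithmeticFunction.vonMangoldt n : ℝ) : ℂ)))
      (((1 + u : ℝ) : ℂ) + (t : ℂ) * I) =
      -deriv (DirichletCharacter.LFunction χ) (((1 + u : ℝ) : ℂ) + (t : ℂ) * I) /
        DirichletCharacter.LFunction χ (((1 + u : ℝ) : ℂ) + (t : ℂ) * I) := by
    rw [DirichletCharacter.deriv_LFunction_eq_deriv_LSeries χ hs,
      DirichletCharacter.LFunction_eq_LSeries χ hs]
    exact h3
  rw [h4] at h2
  simp only [Function.comp] at h1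
  have key : ∀ a b : ℂ, ‖a‖ ≤ C → ‖a - b‖ ≤ npC → ‖b‖ ≤ C + npC := by
    intro a b k1 k2
    have k3 := norm_sub_norm_le b a
    rw [norm_sub_rev] at k3
    linarith
  exact key _ _ h1 h2

/-- PROOF. As in piece NPT, without pole: `∑ χ(n) Λ(n) n^(-s) = -L'/L(s, χ)` for `Re s > 1` extends continuously to `Re s ≥ 1` (Mathlib
`Mathlib/NumberTheory/LSeries/Nonvanishing.lean` / `DirichletContinuation`: `continuousOn_neg_logDeriv_LFunction_of_nontriv`, `LFunction_ne_zero_of_one_le_re`), so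
it is bounded on `1 ≤ Re s ≤ 2`, `|Im s| ≤ B`. `P(δ) - P(1) = ∫_δ^1 ∑_p χ(p) log p p^(-1-u-it) du`, prime powers contribute `O(1)`, `|P(1)| ≤ ∑ p^(-2)`. -/
theorem npN (N : ℕ) [NeZero N] (χ : DirichletCharacter ℂ N) (hχ : χ ≠ 1) (B : ℝ) (hB : 0 < B) :
    ∃ C : ℝ, ∀ δ t : ℝ, 0 < δ → δ ≤ 1 → |t| ≤ B →
      ‖∑' p : Nat.Primes, χ (((p : ℕ) : ZMod N)) * ((p : ℕ) : ℂ) ^ (-((1 + δ : ℝ) + (t : ℂ) * I))‖ ≤ C := by
  obtain ⟨C, hC⟩ := npf_bd χ hχ B
  refine ⟨C + ∑' n : ℕ, 1 / (n : ℝ) ^ 2, fun δ t hδ hδ1 ht => ?_⟩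
  rw [npf_series]
  have hre : ∀ u t : ℝ, ((((1 + u : ℝ) : ℂ) + (t : ℂ) * I)).re = 1 + u := by
    intro u t
    simp
  -- value at `2 + i t`
  have h2 : ‖LSeries (npf χ) (((1 + 1 : ℝ) : ℂ) + (t : ℂ) * I)‖ ≤ ∑' n : ℕ, 1 / (n : ℝ) ^ 2 := by
    unfold LSeries
    apply tsum_of_norm_bounded (Real.summable_one_div_nat_pow.2 (by norm_num)).hasSum
    intro n
    rw [LSeries.term_def]
    by_cases h0 : n = 0
    · simp [h0]
    · rw [if_neg h0, norm_div, Complex.norm_natCast_cpow_of_pos (Nat.pos_of_ne_zero h0), hre]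
      have h3 : (n : ℝ) ^ (1 + 1 : ℝ) = (n : ℝ) ^ 2 := by norm_num
      rw [h3]
      exact div_le_div_of_nonneg_right (npf_le χ n) (by positivity)
  -- derivative along the segment
  have hd : ∀ u ∈ Set.Icc δ 1, HasDerivWithinAt
      (fun u : ℝ => LSeries (npf χ) (((1 + u : ℝ) : ℂ) + (t : ℂ) * I))
      (-LSeries (LSeries.logMul (npf χ)) (((1 + u : ℝ) : ℂ) + (t : ℂ) * I)) (Set.Icc δ 1) u := by
    intro u hu
    have h3 := LSeries_hasDerivAt (npf_abs χ (s := ((1 + u : ℝ) : ℂ) + (t : ℂ) * I)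
      (by rw [hre]; linarith [hu.1]))
    have h4 : HasDerivAt (fun u : ℝ => ((1 + u : ℝ) : ℂ) + (t : ℂ) * I) 1 u := by
      have h5 : HasDerivAt (fun u : ℝ => (1 + u : ℝ)) 1 u := (hasDerivAt_id u).const_add 1
      have h6 := h5.ofReal_comp
      have h7 := h6.add_const ((t : ℂ) * I)
      simpa using h7
    have h8 := h3.comp u h4
    rw [mul_one] at h8
    exact h8.hasDerivWithinAt
  have hb : ∀ u ∈ Set.Ico δ 1,
      ‖-LSeries (LSeries.logMul (npf χ)) (((1 + u : ℝ) : ℂ) + (t : ℂ) * I)‖ ≤ C := by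
    intro u hu
    rw [norm_neg]
    exact hC u t (hδ.trans_le hu.1) hu.2.le ht
  have h3 := norm_image_sub_le_of_norm_deriv_le_segment' hd hb 1 (Set.right_mem_Icc.2 hδ1)
  have h4 : 0 ≤ C := (norm_nonneg _).trans (hC 1 t one_pos le_rfl ht)
  have key : ∀ a b : ℂ, ∀ S : ℝ, ‖a‖ ≤ S → ‖a - b‖ ≤ C * (1 - δ) → ‖b‖ ≤ C + S := by
    intro a b S k1 k2
    have k3 := norm_sub_norm_le b a
    rw [norm_sub_rev] at k3
    have k4 : C * (1 - δ) ≤ C := by nlinarith
    linarith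
  exact key _ _ _ h2 h3

end Pool.Agent.OmEq

end

/-! ### from `Lib_MP_f1a94e_eq.NpT` -/

section

/-!
# Piece NPT: sums over primes near the line 1
-/

set_option autoImplicit false

namespace Pool.Agent.OmEq

open Complex

namespace NpT

open ArithmeticFunction ArithmeticFunction.vonMangoldt LSeries

/-- the indicator function of the primes -/
noncomputable def f (n : ℕ) : ℂ := if n.Prime then 1 else 0

theorem f_absc : abscissaOfAbsConv f ≤ 1 := by
  refine abscissaOfAbsConv_le_of_le_const ⟨1, fun n _ => ?_⟩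
  unfold f
  split_ifs <;> simp

theorem f_absc_lt {s : ℂ} (hs : 1 < s.re) : abscissaOfAbsConv f < s.re :=
  f_absc.trans_lt (by exact_mod_cast hs)

theorem P_eq (s : ℂ) : ∑' p : Nat.Primes, ((p : ℕ) : ℂ) ^ (-s) = LSeries f s := by
  unfold LSeries
  have h1 : (fun p : Nat.Primes => ((p : ℕ) : ℂ) ^ (-s)) =
      fun p : Nat.Primes => (fun n : ℕ => (n : ℂ) ^ (-s)) (p : ℕ) := rfl
  rw [h1]
  have h2 := tsum_subtype {p : ℕ | p.Prime} (fun n : ℕ => (n : ℂ) ^ (-s))
  refine h2.trans (tsum_congr fun n => ?_)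
  unfold Set.indicator f term
  simp only [Set.mem_ofPred_eq]
  by_cases hn : n.Prime
  · rw [if_pos hn, if_neg hn.ne_zero, if_pos hn, cpow_neg, one_div]
  · rw [if_neg hn, if_neg hn, zero_div, ite_self]

/-- the von Mangoldt function outside the primes -/
noncomputable def g (n : ℕ) : ℝ := if n.Prime then 0 else residueClass (0 : ZMod 1) n

theorem g_nonneg (n : ℕ) : 0 ≤ g n := by
  unfold g
  split_ifs
  · exact le_rfl
  · exact residueClass_nonneg _ n

theorem g_term {s : ℂ} (hs : 1 < s.re) (n : ℕ) : ‖term (fun n => (g n : ℂ)) s n‖ ≤ g n / n := by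
  rw [norm_term_eq]
  by_cases hn : n = 0
  · rw [if_pos hn]
    exact div_nonneg (g_nonneg n) (Nat.cast_nonneg n)
  · rw [if_neg hn, Complex.norm_real, Real.norm_eq_abs, abs_of_nonneg (g_nonneg n)]
    have h1 : (1 : ℝ) ≤ n := by exact_mod_cast Nat.one_le_iff_ne_zero.2 hn
    refine div_le_div_of_nonneg_left (g_nonneg n) (by linarith) ?_
    calc (n : ℝ) = (n : ℝ) ^ (1 : ℝ) := (Real.rpow_one _).symm
      _ ≤ (n : ℝ) ^ s.re := Real.rpow_le_rpow_of_exponent_le h1 hs.le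

theorem g_sum : Summable fun n : ℕ => g n / n := summable_residueClass_non_primes_div (0 : ZMod 1)

theorem g_summable {s : ℂ} (hs : 1 < s.re) : LSeriesSummable (fun n => (g n : ℂ)) s :=
  Summable.of_norm_bounded g_sum (g_term hs)

theorem g_bound {s : ℂ} (hs : 1 < s.re) :
    ‖LSeries (fun n => (g n : ℂ)) s‖ ≤ ∑' n : ℕ, g n / n := by
  unfold LSeries
  exact tsum_of_norm_bounded g_sum.hasSum (g_term hs)

theorem L_summable {s : ℂ} (hs : 1 < s.re) :
    LSeriesSummable (fun n => (residueClass (0 : ZMod 1) n : ℂ)) s :=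
  LSeriesSummable_of_abscissaOfAbsConv_lt_re
    ((abscissaOfAbsConv_residueClass_le_one _).trans_lt (by exact_mod_cast hs))

theorem logMul_eq {s : ℂ} (hs : 1 < s.re) : LSeries (logMul f) s =
    LSeries (fun n => (residueClass (0 : ZMod 1) n : ℂ)) s - LSeries (fun n => (g n : ℂ)) s := by
  rw [← LSeries_sub (L_summable hs) (g_summable hs)]
  refine LSeries_congr (fun {n} hn => ?_) s
  unfold logMul f g
  simp only [Pi.sub_apply]
  by_cases hp : n.Prime
  · rw [if_pos hp, if_pos hp, mul_one, ofReal_zero, sub_zero]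
    have h1 : residueClass (0 : ZMod 1) n = vonMangoldt n := by
      unfold residueClass
      rw [Set.indicator_of_mem]
      exact Subsingleton.elim _ _
    rw [h1, vonMangoldt_apply_prime hp, ofReal_log (Nat.cast_nonneg n), ofReal_natCast]
  · rw [if_neg hp, if_neg hp, mul_zero, sub_self]

theorem deriv_bound (B : ℝ) : ∃ C : ℝ, 0 ≤ C ∧ ∀ s : ℂ, 1 < s.re → s.re ≤ 2 → |s.im| ≤ B →
    ‖LSeries (logMul f) s - 1 / (s - 1)‖ ≤ C := by
  have hK : IsCompact (Set.Icc (1 : ℝ) 2 ×ℂ Set.Icc (-B) B) := isCompact_Icc.reProdIm isCompact_Icc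
  have hcont : ContinuousOn (LFunctionResidueClassAux (0 : ZMod 1))
      (Set.Icc (1 : ℝ) 2 ×ℂ Set.Icc (-B) B) := by
    refine (continuousOn_LFunctionResidueClassAux (0 : ZMod 1)).mono ?_
    intro s hs
    exact (mem_reProdIm.1 hs).1.1
  obtain ⟨C, hC⟩ := hK.exists_bound_of_continuousOn hcont
  have hG : 0 ≤ ∑' n : ℕ, g n / n :=
    tsum_nonneg fun n => div_nonneg (g_nonneg n) (Nat.cast_nonneg n)
  refine ⟨max C 0 + ∑' n : ℕ, g n / n, by positivity, fun s h1 h2 h3 => ?_⟩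
  have hm : s ∈ (Set.Icc (1 : ℝ) 2 ×ℂ Set.Icc (-B) B) :=
    mem_reProdIm.2 ⟨⟨h1.le, h2⟩, abs_le.1 h3⟩
  have h4 := hC s hm
  have h5 := eqOn_LFunctionResidueClassAux (a := (0 : ZMod 1)) (isUnit_of_subsingleton _)
    (show s ∈ {s : ℂ | 1 < s.re} from h1)
  rw [h5] at h4
  simp only [Nat.totient_one, Nat.cast_one, inv_one] at h4
  rw [logMul_eq h1]
  have h6 := g_bound h1
  calc ‖LSeries (fun n => (residueClass (0 : ZMod 1) n : ℂ)) s - LSeries (fun n => (g n : ℂ)) s -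
        1 / (s - 1)‖ = ‖(LSeries (fun n => (residueClass (0 : ZMod 1) n : ℂ)) s - 1 / (s - 1)) -
          LSeries (fun n => (g n : ℂ)) s‖ := by congr 1; ring
    _ ≤ C + ∑' n : ℕ, g n / n := (norm_sub_le _ _).trans (add_le_add h4 h6)
    _ ≤ max C 0 + ∑' n : ℕ, g n / n := by
        have := le_max_left C 0
        linarith

end NpT

open NpT in
/-- PROOF. `P(δ) = ∑_p p^(-s)`, `s = 1 + δ + i t`. Let `Z(s) = ∑ Λ(n) n^(-s)`; Mathlib (`Mathlib/NumberTheory/LSeries/Nonvanishing.lean`,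
`continuousOn_neg_logDeriv_LFunctionTrivChar₁` with modulus 1, or the zeta function versions): `Z(s) - 1/(s-1)` extends to a continuous function on `Re s ≥ 1`, so it is bounded by `C1`
on the compact set `1 ≤ Re s ≤ 2`, `|Im s| ≤ B`. Termwise `P(δ) - P(1) = ∑_p p^(-1-it) (p^(-δ) - p^(-1)) = ∫_δ^1 ∑_p log p p^(-1-u-it) du` and
`∑_p log p p^(-1-u-it) = Z(1+u+it) - ∑_(p, k ≥ 2) log p p^(-k(1+u+it))`, the last sum is bounded by `∑ 2 log p/p^2 ≤ C2`. So
`P(δ) = O(1) + ∫_δ^1 du/(u + i t)`, and `∫_δ^1 du/(u+it) = log (1 + i t) - log (δ + i t)` (real part of `δ + it` positive: derivative of `Complex.log`), which differs from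
`Real.log (1/‖δ + i t‖)` by at most `|log ‖1 + i t‖| + π`. (An alternative: `exp (∑' -log (1 - p^(-s))) = ζ(s)` controls only the real part; here the imaginary
part is needed too.) -/
theorem npT (B : ℝ) (hB : 0 < B) : ∃ C : ℝ, ∀ δ t : ℝ, 0 < δ → δ ≤ 1 → |t| ≤ B →
    ‖(∑' p : Nat.Primes, ((p : ℕ) : ℂ) ^ (-((1 + δ : ℝ) + (t : ℂ) * I))) -
      (Real.log (1 / ‖(δ : ℂ) + (t : ℂ) * I‖) : ℂ)‖ ≤ C := by
  obtain ⟨C, hC0, hC⟩ := deriv_bound B
  -- the value at `2 + i t`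
  have hsum : Summable fun p : Nat.Primes => ((p : ℕ) : ℝ) ^ (-(2 : ℝ)) :=
    Nat.Primes.summable_rpow.2 (by norm_num)
  set C3 := ∑' p : Nat.Primes, ((p : ℕ) : ℝ) ^ (-(2 : ℝ)) with hC3
  have h2 : ∀ t : ℝ, ‖LSeries f ((2 : ℝ) + (t : ℂ) * I)‖ ≤ C3 := by
    intro t
    rw [← P_eq]
    refine tsum_of_norm_bounded hsum.hasSum fun p => ?_
    rw [Complex.norm_natCast_cpow_of_pos p.2.pos]
    simp
  set C4 := Real.log (1 + B) + Real.pi with hC4
  have h3 : ∀ t : ℝ, |t| ≤ B → ‖Complex.log ((1 : ℂ) + (t : ℂ) * I)‖ ≤ C4 := by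
    intro t ht
    have hre : ((1 : ℂ) + (t : ℂ) * I).re = 1 := by simp
    have hn1 : 1 ≤ ‖(1 : ℂ) + (t : ℂ) * I‖ := by
      have := Complex.abs_re_le_norm ((1 : ℂ) + (t : ℂ) * I)
      rwa [hre, abs_one] at this
    have hn2 : ‖(1 : ℂ) + (t : ℂ) * I‖ ≤ 1 + B := by
      refine (norm_add_le _ _).trans ?_
      rw [norm_one, norm_mul, Complex.norm_I, mul_one, Complex.norm_real, Real.norm_eq_abs]
      linarith
    refine (Complex.norm_le_abs_re_add_abs_im _).trans ?_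
    rw [Complex.log_re, Complex.log_im]
    refine add_le_add ?_ (Complex.abs_arg_le_pi _)
    rw [abs_of_nonneg (Real.log_nonneg hn1)]
    exact Real.log_le_log (by linarith) hn2
  refine ⟨C + C3 + C4 + Real.pi, fun δ t hδ hδ1 ht => ?_⟩
  rw [P_eq]
  -- `D x = P(1 + x + i t) + log (x + i t)`
  set D : ℝ → ℂ := fun x => LSeries f (((1 + x : ℝ) : ℂ) + (t : ℂ) * I) +
    Complex.log ((x : ℂ) + (t : ℂ) * I) with hD
  have hderiv : ∀ x ∈ Set.Icc δ 1, HasDerivWithinAt D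
      (-(LSeries (LSeries.logMul f) (((1 + x : ℝ) : ℂ) + (t : ℂ) * I) -
        1 / ((((1 + x : ℝ) : ℂ) + (t : ℂ) * I) - 1))) (Set.Icc δ 1) x := by
    intro x hx
    have hx0 : 0 < x := hδ.trans_le hx.1
    have e1 : HasDerivAt (fun x : ℝ => ((1 + x : ℝ) : ℂ) + (t : ℂ) * I) 1 x := by
      have h5 : HasDerivAt (fun x : ℝ => ((1 + x : ℝ) : ℂ)) 1 x := by
        have := ((hasDerivAt_id x).const_add 1).ofReal_comp
        simpa using this
      exact h5.add_const _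
    have e2 : HasDerivAt (fun x : ℝ => (x : ℂ) + (t : ℂ) * I) 1 x := by
      have h5 : HasDerivAt (fun x : ℝ => (x : ℂ)) 1 x := by
        have := (hasDerivAt_id x).ofReal_comp
        simpa using this
      exact h5.add_const _
    have hs : 1 < (((1 + x : ℝ) : ℂ) + (t : ℂ) * I).re := by
      simp
      exact hx0
    have e3 := (LSeries_hasDerivAt (f_absc_lt hs)).comp x e1
    have hsl : (x : ℂ) + (t : ℂ) * I ∈ Complex.slitPlane := by
      left
      simp
      exact hx0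
    have e4 := (Complex.hasDerivAt_log hsl).comp x e2
    have e5 := (e3.add e4).hasDerivWithinAt (s := Set.Icc δ 1)
    refine (e5.congr_deriv ?_)
    have h6 : (((1 + x : ℝ) : ℂ) + (t : ℂ) * I) - 1 = (x : ℂ) + (t : ℂ) * I := by
      push_cast
      ring
    rw [h6, mul_one, mul_one, one_div]
    ring
  have hb : ∀ x ∈ Set.Icc δ 1, ‖(-(LSeries (LSeries.logMul f) (((1 + x : ℝ) : ℂ) + (t : ℂ) * I) -
        1 / ((((1 + x : ℝ) : ℂ) + (t : ℂ) * I) - 1)))‖ ≤ C := by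
    intro x hx
    rw [norm_neg]
    apply hC
    · simp
      exact hδ.trans_le hx.1
    · simp
      linarith [hx.2]
    · simpa using ht
  have hmv := (convex_Icc δ 1).norm_image_sub_le_of_norm_hasDerivWithin_le (C := C) hderiv hb
    (Set.right_mem_Icc.2 hδ1) (Set.left_mem_Icc.2 hδ1)
  have h7 : ‖D δ - D 1‖ ≤ C := by
    refine hmv.trans ?_
    rw [Real.norm_eq_abs, abs_of_nonpos (by linarith)]
    nlinarith
  have h8 : ‖D 1‖ ≤ C3 + C4 := by
    rw [hD]
    simp only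
    refine (norm_add_le _ _).trans (add_le_add ?_ ?_)
    · have := h2 t
      norm_num at this ⊢
      exact this
    · have := h3 t ht
      simpa using this
  have h9 : ‖Complex.log ((δ : ℂ) + (t : ℂ) * I) +
      (Real.log (1 / ‖(δ : ℂ) + (t : ℂ) * I‖) : ℂ)‖ ≤ Real.pi := by
    have h10 : Complex.log ((δ : ℂ) + (t : ℂ) * I) =
        (Real.log ‖(δ : ℂ) + (t : ℂ) * I‖ : ℂ) + (arg ((δ : ℂ) + (t : ℂ) * I) : ℂ) * I := rfl
    rw [h10, one_div, Real.log_inv, ofReal_neg]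
    have h11 : (Real.log ‖(δ : ℂ) + (t : ℂ) * I‖ : ℂ) + (arg ((δ : ℂ) + (t : ℂ) * I) : ℂ) * I +
        -(Real.log ‖(δ : ℂ) + (t : ℂ) * I‖ : ℂ) = (arg ((δ : ℂ) + (t : ℂ) * I) : ℂ) * I := by ring
    rw [h11, norm_mul, Complex.norm_I, mul_one, Complex.norm_real, Real.norm_eq_abs]
    exact Complex.abs_arg_le_pi _
  have h12 : LSeries f (((1 + δ : ℝ) : ℂ) + (t : ℂ) * I) -
      (Real.log (1 / ‖(δ : ℂ) + (t : ℂ) * I‖) : ℂ) = (D δ - D 1) + D 1 -
        (Complex.log ((δ : ℂ) + (t : ℂ) * I) +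
          (Real.log (1 / ‖(δ : ℂ) + (t : ℂ) * I‖) : ℂ)) := by
    rw [hD]
    simp only
    ring
  rw [h12]
  calc ‖(D δ - D 1) + D 1 - (Complex.log ((δ : ℂ) + (t : ℂ) * I) +
          (Real.log (1 / ‖(δ : ℂ) + (t : ℂ) * I‖) : ℂ))‖
      ≤ ‖(D δ - D 1) + D 1‖ + ‖Complex.log ((δ : ℂ) + (t : ℂ) * I) +
          (Real.log (1 / ‖(δ : ℂ) + (t : ℂ) * I‖) : ℂ)‖ := norm_sub_le _ _
    _ ≤ (‖D δ - D 1‖ + ‖D 1‖) + Real.pi := add_le_add (norm_add_le _ _) h9
    _ ≤ C + C3 + C4 + Real.pi := by linarith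

end Pool.Agent.OmEq

end

/-! ### from `Lib_MP_92ef0c_spm.PermN` -/

section

/-!
# tuples of primes with the same product
-/

set_option autoImplicit false

namespace Pool.Agent.SplM

private theorem permN_exists {α : Type*} {l : ℕ} (x y : Fin l → α)
    (h : Multiset.map y Finset.univ.val = Multiset.map x Finset.univ.val) :
    ∃ σ : Equiv.Perm (Fin l), y = x ∘ σ := by
  classical
  have hc : ∀ c : α, Nonempty ({a // y a = c} ≃ {b // x b = c}) := by
    intro c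
    apply Fintype.card_eq.1
    have h1 := congrArg (Multiset.count c) h
    rw [Multiset.count_map, Multiset.count_map] at h1
    rw [Fintype.card_subtype, Fintype.card_subtype]
    have e1 : (Finset.univ.filter (fun a : Fin l => y a = c)).card =
        (Multiset.filter (fun a => c = y a) Finset.univ.val).card := by
      rw [← Finset.filter_val, Finset.card_def]
      congr 2
      ext a
      simp [eq_comm]
    have e2 : (Finset.univ.filter (fun a : Fin l => x a = c)).card =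
        (Multiset.filter (fun a => c = x a) Finset.univ.val).card := by
      rw [← Finset.filter_val, Finset.card_def]
      congr 2
      ext a
      simp [eq_comm]
    rw [e1, e2]
    exact h1
  refine ⟨Equiv.ofFiberEquiv (f := y) (g := x) (fun c => (hc c).some), ?_⟩
  funext i
  exact (Equiv.ofFiberEquiv_map (f := y) (g := x) (fun c => (hc c).some) i).symm

/-- Tuples `y` of primes with `∏ y = ∏ x` are permutations of `x` (`List.ofFn`, `Nat.perm_of_prod_eq..` or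
`Nat.primeFactorsList_unique`); cf. `prod_fiber` in Lib_MP_f1a94e_mr/Perm.lean. -/
theorem prod_fiberN {l : ℕ} (x : Fin l → ℕ) (hx : ∀ i, (x i).Prime) :
    Set.ncard {y : Fin l → ℕ | (∀ i, (y i).Prime) ∧ ∏ i, y i = ∏ i, x i} ≤ l.factorial := by
  have hsub : {y : Fin l → ℕ | (∀ i, (y i).Prime) ∧ ∏ i, y i = ∏ i, x i} ⊆
      Set.range (fun σ : Equiv.Perm (Fin l) => x ∘ σ) := by
    rintro y ⟨hy, hprod⟩
    have hrel : Multiset.Rel Associated (Multiset.map y Finset.univ.val)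
        (Multiset.map x Finset.univ.val) := by
      apply prime_factors_unique
      · intro a ha
        obtain ⟨i, -, rfl⟩ := Multiset.mem_map.1 ha
        exact (hy i).prime
      · intro a ha
        obtain ⟨i, -, rfl⟩ := Multiset.mem_map.1 ha
        exact (hx i).prime
      · have e : (Multiset.map y Finset.univ.val).prod = (Multiset.map x Finset.univ.val).prod :=
          hprod
        rw [e]
        exact Associated.refl _
    have heq : Multiset.map y Finset.univ.val = Multiset.map x Finset.univ.val := by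
      rw [← Multiset.rel_eq]
      refine hrel.mono ?_
      intro a _ b _ hab
      exact associated_iff_eq.1 hab
    obtain ⟨σ, hσ⟩ := permN_exists x y heq
    exact ⟨σ, hσ.symm⟩
  refine (Set.ncard_le_ncard hsub (Set.finite_range _)).trans ?_
  rw [← Set.image_univ]
  refine (Set.ncard_image_le (Set.finite_univ)).trans ?_
  rw [Set.ncard_univ, Nat.card_eq_fintype_card, Fintype.card_perm, Fintype.card_fin]

end Pool.Agent.SplM

end

/-! ### from `Lib_MP_f1a94e_mr.Space` -/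

section

/-!
# Piece SPACE: the directions of `V X` are `1 / X`-separated; primitive parts
-/

set_option autoImplicit false

namespace Pool.Agent.GaussMR

/-- parallel primitive vectors are equal up to sign -/
theorem parallel_prim (z w : G) (hz : Prim z) (hw : Prim w) (h : det z w = 0) :
    w = z ∨ w = -z := by
  obtain ⟨α, β, hab⟩ := hz
  unfold det at h
  set c := α * w.re + β * w.im with hc
  have h1 : w.re = z.re * c := by
    rw [hc]
    linear_combination (-w.re) * hab - β * h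
  have h2 : w.im = z.im * c := by
    rw [hc]
    linear_combination (-w.im) * hab + α * h
  have hu : IsUnit c := by
    refine hw.isUnit_of_dvd' ?_ ?_
    · rw [h1]; exact dvd_mul_left _ _
    · rw [h2]; exact dvd_mul_left _ _
  rcases Int.isUnit_iff.1 hu with h3 | h3
  · left
    apply Zsqrtd.ext
    · rw [h1, h3, mul_one]
    · rw [h2, h3, mul_one]
  · right
    apply Zsqrtd.ext
    · rw [h1, h3]; simp
    · rw [h2, h3]; simp

theorem toComplex_re' (z : G) : (z : ℂ).re = z.re := GaussianInt.intCast_re z |>.symm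

theorem toComplex_im' (z : G) : (z : ℂ).im = z.im := GaussianInt.intCast_im z |>.symm

/-- the distance of two directions is at least the sine of the angle -/
theorem det_le_dist (z w : G) (hz : z ≠ 0) (hw : w ≠ 0) :
    |(det z w : ℝ)| ≤ ‖dir z - dir w‖ * (‖(z : ℂ)‖ * ‖(w : ℂ)‖) := by
  have hz0 := norm_pos hz
  have hw0 := norm_pos hw
  have h1 : ((starRingEnd ℂ) (dir z) * dir w).im = (det z w : ℝ) / (‖(z : ℂ)‖ * ‖(w : ℂ)‖) := by
    unfold dir
    rw [map_div₀, Complex.conj_ofReal, div_mul_div_comm, ← Complex.ofReal_mul,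
      Complex.div_ofReal_im]
    congr 1
    rw [Complex.mul_im, Complex.conj_re, Complex.conj_im, toComplex_re', toComplex_re',
      toComplex_im', toComplex_im']
    unfold det
    push_cast
    ring
  have h2 : ((starRingEnd ℂ) (dir z) * dir w).im =
      ((starRingEnd ℂ) (dir z) * (dir w - dir z)).im := by
    rw [mul_sub, Complex.sub_im]
    have h3 : ((starRingEnd ℂ) (dir z) * dir z).im = 0 := by
      rw [mul_comm, Complex.mul_conj]
      exact Complex.ofReal_im _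
    rw [h3, sub_zero]
  have h4 : |((starRingEnd ℂ) (dir z) * dir w).im| ≤ ‖dir z - dir w‖ := by
    rw [h2]
    refine (Complex.abs_im_le_norm _).trans ?_
    rw [norm_mul, Complex.norm_conj, norm_dir hz, one_mul, norm_sub_rev]
  rw [h1, abs_div, abs_of_pos (mul_pos hz0 hw0), div_le_iff₀ (mul_pos hz0 hw0)] at h4
  exact h4

/-- `‖dir z - dir w‖ ≥ |det z w| / (|z| |w|)`, and `det z w = 0` only for `w = ± z` -/
theorem spaced (X : ℝ) (z w : G) (hz : z ∈ V X) (hw : w ∈ V X) (hne : z ≠ w) :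
    1 / X ≤ ‖dir z - dir w‖ := by
  obtain ⟨hzX, hzo, hzp⟩ := mem_V.1 hz
  obtain ⟨hwX, hwo, hwp⟩ := mem_V.1 hw
  have hz0 := ne_zero_of_odd hzo
  have hw0 := ne_zero_of_odd hwo
  have hnz : (1 : ℝ) ≤ nm z := by exact_mod_cast nm_pos hz0
  have hX : 1 ≤ X := hnz.trans hzX
  have hXpos : 0 < X := by linarith
  by_cases hdet : det z w = 0
  · rcases parallel_prim z w hzp hwp hdet with h | h
    · exact absurd h.symm hne
    · rw [h, dir_neg, sub_neg_eq_add, ← two_mul, norm_mul, norm_dir hz0, mul_one]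
      have h1 : 1 / X ≤ 1 := by
        rw [div_le_one hXpos]
        exact hX
      have h2 : ‖(2 : ℂ)‖ = 2 := by simp
      rw [h2]
      linarith
  · have h1 := det_le_dist z w hz0 hw0
    have h2 : (1 : ℝ) ≤ |(det z w : ℝ)| := by
      rw [← Int.cast_abs]
      exact_mod_cast Int.one_le_abs hdet
    have h3 : ‖(z : ℂ)‖ * ‖(w : ℂ)‖ ≤ X := by
      rw [norm_eq_sqrt, norm_eq_sqrt, ← Real.sqrt_mul (Nat.cast_nonneg _)]
      rw [Real.sqrt_le_left (by linarith), sq]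
      exact mul_le_mul hzX hwX (Nat.cast_nonneg _) (by linarith)
    rw [div_le_iff₀ hXpos]
    have h4 : 0 ≤ ‖dir z - dir w‖ := norm_nonneg _
    nlinarith

/-- the primitive part: `z = g * pr z` with `g = gcd(re, im) > 0` -/
theorem pr_spec (z : G) (hz : z ≠ 0) :
    z = ((Int.gcd z.re z.im : ℕ) : G) * pr z ∧ 0 < Int.gcd z.re z.im ∧ Prim (pr z) := by
  have hg : 0 < Int.gcd z.re z.im := by
    rw [Int.gcd_pos_iff]
    by_contra h
    push Not at h
    exact hz (Zsqrtd.ext h.1 h.2)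
  refine ⟨?_, hg, ?_⟩
  · have h1 : (Int.gcd z.re z.im : ℤ) * (z.re / Int.gcd z.re z.im) = z.re :=
      Int.mul_ediv_cancel' (Int.gcd_dvd_left _ _)
    have h2 : (Int.gcd z.re z.im : ℤ) * (z.im / Int.gcd z.re z.im) = z.im :=
      Int.mul_ediv_cancel' (Int.gcd_dvd_right _ _)
    unfold pr
    apply Zsqrtd.ext
    · simp only [Zsqrtd.re_mul, Zsqrtd.re_natCast, Zsqrtd.im_natCast]
      linarith
    · simp only [Zsqrtd.im_mul, Zsqrtd.re_natCast, Zsqrtd.im_natCast]
      linarith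
  · unfold Prim pr
    rw [Int.isCoprime_iff_gcd_eq_one]
    exact Int.gcd_div_gcd_div_gcd hg

theorem nm_natCast (n : ℕ) : nm (n : G) = n ^ 2 := by
  have h : (nm (n : G) : ℤ) = (n ^ 2 : ℕ) := by
    rw [nm_eq]
    simp
  exact_mod_cast h

theorem nm_pr_mul (z : G) (hz : z ≠ 0) : nm z = Int.gcd z.re z.im ^ 2 * nm (pr z) := by
  have h := (pr_spec z hz).1
  conv_lhs => rw [h]
  rw [nm_mul, nm_natCast]

theorem nm_pr_le (z : G) : nm (pr z) ≤ nm z := by
  by_cases hz : z = 0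
  · subst hz
    have : pr 0 = 0 := by
      unfold pr
      apply Zsqrtd.ext <;> simp
    rw [this]
  · rw [nm_pr_mul z hz]
    have := (pr_spec z hz).2.1
    have h1 : 1 ≤ Int.gcd z.re z.im ^ 2 := Nat.one_le_pow _ _ this
    nlinarith

theorem odd_pr (z : G) (hz : Odd (nm z)) : Odd (nm (pr z)) := by
  rw [nm_pr_mul z (ne_zero_of_odd hz)] at hz
  exact (Nat.odd_mul.1 hz).2

theorem xi_pr (k : ℤ) (z : G) (hz : z ≠ 0) : xi k (pr z) = xi k z := by
  obtain ⟨h1, h2, _⟩ := pr_spec z hz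
  conv_rhs => rw [h1]
  exact (xi_natCast_mul k h2 (pr z)).symm

theorem pr_eq_self (z : G) (hz : Prim z) : pr z = z := by
  unfold Prim at hz
  rw [Int.isCoprime_iff_gcd_eq_one] at hz
  unfold pr
  rw [hz]
  apply Zsqrtd.ext <;> simp

/-- the primitive part of an odd `z` of norm at most `X` lies in `V X` -/
theorem pr_mem_V (X : ℝ) (z : G) (hz : Odd (nm z)) (hX : (nm z : ℝ) ≤ X) : pr z ∈ V X := by
  rw [mem_V]
  refine ⟨?_, odd_pr z hz, (pr_spec z (ne_zero_of_odd hz)).2.2⟩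
  have : (nm (pr z) : ℝ) ≤ nm z := by exact_mod_cast nm_pr_le z
  exact this.trans hX

end Pool.Agent.GaussMR

end

/-! ### from `Lib_MP_f1a94e_eq.Tog` -/

section

/-!
# Piece TOG: moving one small prime
-/

set_option autoImplicit false

namespace Pool.Agent.OmEq

open Finset Pool.Agent.GaussMR Pool.Agent.OmAll

/-- pairs with `p` dividing `|V'|^2`, `p ^ 2` not dividing the product -/
def Bp (n p : ℕ) : Set (G × G) := {e | En n e ∧ p ∣ nm e.2 ∧ ¬ p ^ 2 ∣ nm e.1 * nm e.2}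

/-- pairs with `p` dividing `|V|^2`, `p ^ 2` not dividing the product -/
def Ap' (n p : ℕ) : Set (G × G) := {e | En n e ∧ p ∣ nm e.1 ∧ ¬ p ^ 2 ∣ nm e.1 * nm e.2}

theorem tog_mul_star (z : G) : z * star z = ((nm z : ℕ) : G) := by
  have h := nm_eq z
  apply Zsqrtd.ext
  · simp
    have h2 : ((nm z : ℕ) : ℤ) = z.re ^ 2 + z.im ^ 2 := h
    rw [h2]; ring
  · simp; ring

theorem tog_prime {g : G} (h : (nm g).Prime) : Prime g := by
  rw [← irreducible_iff_prime]
  refine ⟨fun hu => h.one_lt.ne' (nm_eq_one_iff.2 hu), fun b c hbc => ?_⟩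
  have h1 : nm b * nm c = nm g := by rw [hbc, nm_mul]
  rcases (Nat.prime_mul_iff.1 (h1 ▸ h)) with ⟨_, h3⟩ | ⟨_, h3⟩
  · exact Or.inr (nm_eq_one_iff.1 h3)
  · exact Or.inl (nm_eq_one_iff.1 h3)

theorem tog_star_dvd {u v : G} : star u ∣ star v ↔ u ∣ v := by
  constructor
  · rintro ⟨c, hc⟩
    refine ⟨star c, ?_⟩
    have := congrArg star hc
    rwa [star_star, star_mul', star_star] at this
  · rintro ⟨c, rfl⟩
    exact ⟨star c, star_mul' _ _⟩

theorem tog_nm_nat (p : ℕ) : nm ((p : ℕ) : G) = p ^ 2 := by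
  have : (nm ((p : ℕ) : G) : ℤ) = (p : ℤ) ^ 2 := by
    rw [nm_eq]
    simp
  exact_mod_cast this

theorem tog_exists (p : ℕ) (hp : p.Prime) (h4 : p % 4 = 1) : ∃ π : G, nm π = p ∧ ¬ π ∣ star π := by
  have : Fact p.Prime := ⟨hp⟩
  obtain ⟨a, b, hab⟩ := Nat.Prime.sq_add_sq (p := p) (by omega)
  have hn : nm (⟨(a : ℤ), (b : ℤ)⟩ : G) = p := by
    have h2 : (nm (⟨(a : ℤ), (b : ℤ)⟩ : G) : ℤ) = (p : ℤ) := by
      rw [nm_eq, ← hab]
      push_cast
      ring
    exact_mod_cast h2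
  refine ⟨⟨(a : ℤ), (b : ℤ)⟩, hn, fun hd => ?_⟩
  have hsum : (⟨(a : ℤ), (b : ℤ)⟩ : G) + star (⟨(a : ℤ), (b : ℤ)⟩ : G) = ((2 * a : ℕ) : G) := by
    apply Zsqrtd.ext
    · simp
      ring
    · simp
  have h1 : (⟨(a : ℤ), (b : ℤ)⟩ : G) ∣ ((2 * a : ℕ) : G) := by
    rw [← hsum]
    exact dvd_add (dvd_refl _) hd
  have h2 := nm_dvd h1
  rw [hn, tog_nm_nat] at h2
  have h3 : p ∣ 2 * a := hp.dvd_of_dvd_pow h2
  have h5 : p ∣ a := by
    rcases hp.dvd_mul.1 h3 with h | h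
    · exfalso
      have := Nat.le_of_dvd (by norm_num) h
      have := hp.two_le
      have h6 : p = 2 := by omega
      omega
    · exact h
  rcases Nat.eq_zero_or_pos a with h0 | h0
  · rw [h0] at hab
    have h6 : p = b * b := by rw [← hab]; ring
    have h7 : b ∣ p := ⟨b, h6⟩
    rcases (Nat.dvd_prime hp).1 h7 with h8 | h8
    · rw [h8] at h6
      exact hp.one_lt.ne' (by omega)
    · rw [h8] at h6
      have := hp.one_lt
      nlinarith
  · have h6 := Nat.le_of_dvd h0 h5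
    have h7 := hp.one_lt
    nlinarith [sq_nonneg b]

/-- the two candidates -/
def TogC (π γ : G) : Prop := γ = π ∨ γ = star π

theorem tog_cand {p : ℕ} (hp : p.Prime) {π : G} (hn : nm π = p) (hd : ¬ π ∣ star π) {γ : G}
    (h : TogC π γ) : nm γ = p ∧ Prime γ ∧ ¬ γ ∣ star γ ∧ γ * star γ = ((p : ℕ) : G) := by
  rcases h with rfl | rfl
  · exact ⟨hn, tog_prime (by rw [hn]; exact hp), hd, by rw [tog_mul_star, hn]⟩
  · refine ⟨by rw [nm_star, hn], tog_prime (by rw [nm_star, hn]; exact hp), fun h => hd ?_,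
      by rw [tog_mul_star, nm_star, hn]⟩
    exact tog_star_dvd.1 h

theorem tog_dvd_exists {p : ℕ} (hp : p.Prime) {π : G} (hn : nm π = p) {z : G} (h : p ∣ nm z) :
    π ∣ z ∨ star π ∣ z := by
  have hpr : Prime π := tog_prime (by rw [hn]; exact hp)
  have h1 : π ∣ z * star z := by
    rw [tog_mul_star]
    have h2 : ((p : ℕ) : G) ∣ ((nm z : ℕ) : G) := by exact_mod_cast (Nat.cast_dvd_cast (α := G) h)
    refine dvd_trans ?_ h2
    rw [← hn, ← tog_mul_star]
    exact dvd_mul_right _ _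
  rcases hpr.dvd_or_dvd h1 with h2 | h2
  · exact Or.inl h2
  · right
    rw [← tog_star_dvd, star_star]
    exact h2

theorem tog_both {p : ℕ} {γ : G} (hγ : Prime γ) (hd : ¬ γ ∣ star γ)
    (hm : γ * star γ = ((p : ℕ) : G)) {z : G} (h1 : γ ∣ z) (h2 : star γ ∣ z) :
    ((p : ℕ) : G) ∣ z := by
  obtain ⟨w, rfl⟩ := h2
  rcases hγ.dvd_or_dvd h1 with h3 | h3
  · exact absurd h3 hd
  · obtain ⟨v, rfl⟩ := h3
    refine ⟨v, ?_⟩
    rw [← hm]
    ring

theorem tog_sq_dvd {p : ℕ} {z : G} (h : ((p : ℕ) : G) ∣ z) : p ^ 2 ∣ nm z := by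
  have h1 := nm_dvd h
  rwa [tog_nm_nat] at h1

theorem tog_not_dvd {p : ℕ} (hp : p.Prime) {z : G} (hz : Prim z) : ¬ ((p : ℕ) : G) ∣ z :=
  fun h => hp.one_lt.ne' (prim_iff.1 hz p h)

theorem tog_prim {z : G} (h : ∀ l : ℕ, l.Prime → ¬ ((l : ℕ) : G) ∣ z) : Prim z := by
  rw [prim_iff]
  intro n hn
  by_contra hn1
  obtain ⟨q, hq, hqn⟩ := Nat.exists_prime_and_dvd hn1
  exact h q hq (dvd_trans (by exact_mod_cast (Nat.cast_dvd_cast (α := G) hqn)) hn)

theorem tog_cg {n : ℕ} {u v : G} : cg n u v ↔ ((n : ℤ) : G) ∣ u - v := by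
  unfold cg
  rw [Zsqrtd.intCast_dvd]
  simp

theorem tog_det {γ U W : G} : det (γ * U) W = det U (star γ * W) ∧
    dot (γ * U) W = dot U (star γ * W) := by
  have h1 := star_mul_eq (γ * U) W
  have h2 := star_mul_eq U (star γ * W)
  have h3 : star (γ * U) * W = star U * (star γ * W) := by
    rw [star_mul']
    ring
  rw [h3, h2] at h1
  have h4 := congrArg Zsqrtd.re h1
  have h5 := congrArg Zsqrtd.im h1
  exact ⟨h5.symm, h4.symm⟩

theorem tog_nm (γ U W : G) : nm (γ * U) * nm W = nm U * nm (star γ * W) := by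
  rw [nm_mul, nm_mul, nm_star]
  ring

theorem tog_coprime {p n : ℕ} (hp : p.Prime) (hpn : ¬ p ∣ n) : IsCoprime (p : ℤ) (n : ℤ) := by
  rw [Nat.isCoprime_iff_coprime]
  exact (Nat.Prime.coprime_iff_not_dvd hp).2 hpn

theorem tog_fwd {n p : ℕ} (hp : p.Prime) (hpn : ¬ p ∣ n) {γ U W : G}
    (hg : nm γ = p ∧ Prime γ ∧ ¬ γ ∣ star γ ∧ γ * star γ = ((p : ℕ) : G))
    (h : (U, star γ * W) ∈ Bp n p) : (γ * U, W) ∈ Ap' n p := by
  obtain ⟨hn, hpr, hd, hm⟩ := hg
  obtain ⟨⟨h1, h2, h3, c, hc, hcg⟩, h5, h6⟩ := h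
  simp only at h1 h2 h3 hcg h5 h6
  refine ⟨⟨?_, ?_, ?_, ?_⟩, ?_, ?_⟩
  · show det (γ * U) W = n
    rw [tog_det.1]
    exact h1
  · show 0 < dot (γ * U) W
    rw [tog_det.2]
    exact h2
  · show Prim (γ * U)
    refine tog_prim fun l hl hlU => ?_
    by_cases hlp : l = p
    · subst hlp
      rw [← hm] at hlU
      have h7 : star γ ∣ U := (mul_dvd_mul_iff_left hpr.ne_zero).1 hlU
      have h8 : l ∣ nm U := by
        have := nm_dvd h7
        rwa [nm_star, hn] at this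
      apply h6
      rw [sq]
      exact mul_dvd_mul h8 h5
    · have h7 : ((l : ℕ) : G) ∣ ((p : ℕ) : G) * U := by
        rw [← hm]
        have h8 : γ * star γ * U = star γ * (γ * U) := by ring
        rw [h8]
        exact Dvd.dvd.mul_left hlU _
      have hcop : IsCoprime ((l : ℕ) : G) ((p : ℕ) : G) := by
        have h8 : IsCoprime (l : ℤ) (p : ℤ) := by
          rw [Nat.isCoprime_iff_coprime]
          exact (Nat.coprime_primes hl hp).2 hlp
        have h9 := h8.map (Int.castRingHom G)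
        simpa using h9
      exact tog_not_dvd hl h3 (hcop.dvd_of_dvd_mul_left h7)
  · obtain ⟨a, b, hab⟩ := tog_coprime hp hpn
    refine ⟨a * c, IsCoprime.mul_left ⟨p, b, by rw [← hab]; ring⟩ hc, ?_⟩
    rw [tog_cg] at hcg ⊢
    show ((n : ℤ) : G) ∣ W - ((a * c : ℤ) : G) * (γ * U)
    have hab' : (a : G) * ((p : ℕ) : G) + (b : G) * ((n : ℤ) : G) = 1 := by
      have := congrArg (fun t : ℤ => (t : G)) hab
      push_cast at this ⊢
      exact this
    have h7 : W - ((a * c : ℤ) : G) * (γ * U) =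
        ((n : ℤ) : G) * ((b : G) * W) + (star γ * W - (c : G) * U) * ((a : G) * γ) := by
      have h8 : (star γ * W - (c : G) * U) * ((a : G) * γ) =
          (a : G) * (γ * star γ) * W - (a : G) * (c : G) * (γ * U) := by ring
      rw [h8, hm]
      have h9 : W = ((a : G) * ((p : ℕ) : G) + (b : G) * ((n : ℤ) : G)) * W := by
        rw [hab', one_mul]
      calc W - ((a * c : ℤ) : G) * (γ * U)
          = ((a : G) * ((p : ℕ) : G) + (b : G) * ((n : ℤ) : G)) * W
              - ((a * c : ℤ) : G) * (γ * U) := by rw [← h9]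
        _ = _ := by
          push_cast
          ring
    rw [h7]
    exact dvd_add (dvd_mul_right _ _) (Dvd.dvd.mul_right hcg _)
  · show p ∣ nm (γ * U)
    rw [nm_mul, hn]
    exact dvd_mul_right _ _
  · show ¬ p ^ 2 ∣ nm (γ * U) * nm W
    rw [tog_nm]
    exact h6

theorem tog_bwd {n p : ℕ} (hp : p.Prime) (hpn : ¬ p ∣ n) {γ U W : G}
    (hg : nm γ = p ∧ Prime γ ∧ ¬ γ ∣ star γ ∧ γ * star γ = ((p : ℕ) : G))
    (h : (γ * U, W) ∈ Ap' n p) : (U, star γ * W) ∈ Bp n p := by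
  obtain ⟨hn, hpr, hd, hm⟩ := hg
  obtain ⟨⟨h1, h2, h3, c, hc, hcg⟩, h5, h6⟩ := h
  simp only at h1 h2 h3 hcg h5 h6
  refine ⟨⟨?_, ?_, ?_, ?_⟩, ?_, ?_⟩
  · show det U (star γ * W) = n
    rw [← tog_det.1]
    exact h1
  · show 0 < dot U (star γ * W)
    rw [← tog_det.2]
    exact h2
  · show Prim U
    exact tog_prim fun l hl hlU => tog_not_dvd hl h3 (Dvd.dvd.mul_left hlU _)
  · refine ⟨c * p, IsCoprime.mul_left hc (tog_coprime hp hpn), ?_⟩
    rw [tog_cg] at hcg ⊢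
    show ((n : ℤ) : G) ∣ star γ * W - ((c * p : ℤ) : G) * U
    have h7 : star γ * W - ((c * p : ℤ) : G) * U = (W - (c : G) * (γ * U)) * star γ := by
      have h8 : (W - (c : G) * (γ * U)) * star γ = star γ * W - (c : G) * (γ * star γ) * U := by
        ring
      rw [h8, hm]
      push_cast
      ring
    rw [h7]
    exact Dvd.dvd.mul_right hcg _
  · show p ∣ nm (star γ * W)
    rw [nm_mul, nm_star, hn]
    exact dvd_mul_right _ _
  · show ¬ p ^ 2 ∣ nm U * nm (star γ * W)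
    rw [← tog_nm]
    exact h6

/-- PROOF. Fix a Gaussian prime `π` with `nm π = p` (`p = 1 mod 4`: Mathlib `Nat.Prime.sq_add_sq`, or `GaussianInt` prime lemmas; see
also the files of `Lib_MP_f1a94e_mr`). For `e` in `Bp`: `π ∣ p ∣ e.2 * star e.2`, so `π ∣ e.2` or `star π ∣ e.2`; not both, otherwise
`p ∣ e.2` (the two primes are not associated as `p` is odd) and `p ^ 2 ∣ nm e.2`. Let `γ = star π` if `π ∣ e.2` and `γ = π` otherwise, so
`e = (U, star γ * W)`; put `φ e = (γ * U, W)`. `det` and `dot` are unchanged: `star (γ U) * W = star U * (star γ * W)` (`star_mul_eq`).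
`γ U` is primitive: if a prime `ℓ` divides `γ U` and `ℓ ≠ p` then `ℓ ∣ star γ γ U = p U` and `ℓ ∣ U`, contradiction; if `p = γ star γ ∣ γ U` then
`star γ ∣ U`, `p ∣ nm U`, and `p ∣ nm e.2`, so `p ^ 2 ∣ nm e.1 * nm e.2`, contradiction. Class: from `star γ W = c U` mod `n` we get
`p W = c γ U`, and `p p' = 1` mod `n` for some `p'` (coprime to `n`, as is `c p'`).
Conversely for `e' = (V, W)` in `Ap'`: exactly one `γ ∈ {π, star π}` divides `V` (`V` is primitive); `V = γ U`, `e = (U, star γ W)`; `U` is primitive as a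
divisor of `V`; `star γ W = c p U`. These two maps are inverse to each other: in `e = (U, star γ W)` the prime `star γ` is the one dividing `e.2`
(only one does), in `(γ U, W)` `γ` is the one dividing the first component. -/
theorem toggle (n : ℕ) (hn : 0 < n) (p : ℕ) (hp : p.Prime) (h4 : p % 4 = 1) (hpn : ¬ p ∣ n) :
    ∃ φ : G × G → G × G, Set.BijOn φ (Bp n p) (Ap' n p) ∧
      ∀ e ∈ Bp n p, ∃ γ U W : G, nm γ = p ∧ e = (U, star γ * W) ∧ φ e = (γ * U, W) := by
  classical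
  obtain ⟨π, hπ, hd⟩ := tog_exists p hp h4
  set φ : G × G → G × G := fun e =>
    if h : ∃ gw : G × G, TogC π gw.1 ∧ e.2 = star gw.1 * gw.2 then
      (h.choose.1 * e.1, h.choose.2) else e with hφ
  have spec : ∀ e ∈ Bp n p, ∃ γ W : G, TogC π γ ∧ e.2 = star γ * W ∧ φ e = (γ * e.1, W) := by
    intro e he
    have hex : ∃ gw : G × G, TogC π gw.1 ∧ e.2 = star gw.1 * gw.2 := by
      rcases tog_dvd_exists hp hπ he.2.1 with ⟨w, hw⟩ | ⟨w, hw⟩
      · exact ⟨(star π, w), Or.inr rfl, by simpa using hw⟩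
      · exact ⟨(π, w), Or.inl rfl, hw⟩
    refine ⟨hex.choose.1, hex.choose.2, hex.choose_spec.1, hex.choose_spec.2, ?_⟩
    rw [hφ]
    simp only [dif_pos hex]
  have other : ∀ γ γ' : G, TogC π γ → TogC π γ' → γ ≠ γ' → γ' = star γ := by
    rintro γ γ' (rfl | rfl) (rfl | rfl) hne
    · exact absurd rfl hne
    · rfl
    · rw [star_star]
    · exact absurd rfl hne
  refine ⟨φ, ⟨?_, ?_, ?_⟩, ?_⟩
  · intro e he
    obtain ⟨γ, W, hγ, h1, h2⟩ := spec e he
    rw [h2]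
    refine tog_fwd hp hpn (tog_cand hp hπ hd hγ) ?_
    rw [← h1]
    exact he
  · intro e he e' he' hee
    obtain ⟨γ, W, hγ, h1, h2⟩ := spec e he
    obtain ⟨γ', W', hγ', h1', h2'⟩ := spec e' he'
    have hg := tog_cand hp hπ hd hγ
    have hfw : (γ * e.1, W) ∈ Ap' n p := by
      refine tog_fwd hp hpn hg ?_
      rw [← h1]
      exact he
    rw [h2, h2'] at hee
    have h3 : γ * e.1 = γ' * e'.1 := congrArg Prod.fst hee
    have h5 : W = W' := congrArg Prod.snd hee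
    by_cases hgg : γ = γ'
    · subst hgg
      have h6 : e.1 = e'.1 := mul_left_cancel₀ hg.2.1.ne_zero h3
      exact Prod.ext h6 (by rw [h1, h1', h5])
    · exfalso
      have h6 := other γ γ' hγ hγ' hgg
      have h7 : ((p : ℕ) : G) ∣ γ * e.1 := by
        refine tog_both hg.2.1 hg.2.2.1 hg.2.2.2 (dvd_mul_right _ _) ?_
        rw [h3, h6]
        exact dvd_mul_right _ _
      exact tog_not_dvd hp hfw.1.2.2.1 h7
  · intro e' he'
    have hex : ∃ γ U : G, TogC π γ ∧ e'.1 = γ * U := by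
      rcases tog_dvd_exists hp hπ he'.2.1 with ⟨w, hw⟩ | ⟨w, hw⟩
      · exact ⟨π, w, Or.inl rfl, hw⟩
      · exact ⟨star π, w, Or.inr rfl, hw⟩
    obtain ⟨γ, U, hγ, hU⟩ := hex
    have hg := tog_cand hp hπ hd hγ
    have hmem : (U, star γ * e'.2) ∈ Bp n p := by
      refine tog_bwd hp hpn hg ?_
      rw [← hU]
      exact he'
    refine ⟨(U, star γ * e'.2), hmem, ?_⟩
    obtain ⟨γ₁, W₁, hγ₁, h1, h2⟩ := spec _ hmem
    simp only at h1 h2
    have hgg : γ = γ₁ := by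
      by_contra hne
      have h6 := other γ γ₁ hγ hγ₁ hne
      have h7 : ((p : ℕ) : G) ∣ star γ * e'.2 := by
        refine tog_both hg.2.1 hg.2.2.1 hg.2.2.2 ?_ (dvd_mul_right _ _)
        rw [h1, h6, star_star]
        exact dvd_mul_right _ _
      exact hmem.2.2 (Dvd.dvd.mul_left (tog_sq_dvd h7) _)
    subst hgg
    have hne : star γ ≠ 0 := by
      intro h0
      apply hg.2.1.ne_zero
      have := congrArg star h0
      simpa using this
    have h8 : e'.2 = W₁ := mul_left_cancel₀ hne h1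
    rw [h2, ← h8, ← hU]
  · intro e he
    obtain ⟨γ, W, hγ, h1, h2⟩ := spec e he
    exact ⟨γ, e.1, W, (tog_cand hp hπ hd hγ).1, Prod.ext rfl h1, h2⟩

end Pool.Agent.OmEq

end

/-! ### from `Lib_MP_f1a94e_eq.Cls` -/

section

/-!
# Piece CLS: the class of a pair
-/

set_option autoImplicit false

namespace Pool.Agent.OmEq

open Finset Pool.Agent.GaussMR Pool.Agent.OmAll

open Classical in
/-- the class `c mod n` with `V' = c V mod n` -/
noncomputable def cl (n : ℕ) (e : G × G) : ZMod n :=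
  if h : ∃ c : ℤ, IsCoprime c (n : ℤ) ∧ cg n e.2 ((c : G) * e.1) then ((Classical.choose h : ℤ) : ZMod n) else 0

theorem cls_mul (c : ℤ) (V : G) : ((c : G) * V).re = c * V.re ∧ ((c : G) * V).im = c * V.im := by
  constructor <;> simp

/-- two multiples of a primitive vector that agree modulo `M` have factors that agree modulo `M` -/
theorem cls_dvd {M : ℕ} {V : G} (hV : Prim V) {a b : ℤ} (h : cg M ((a : G) * V) ((b : G) * V)) :
    (M : ℤ) ∣ a - b := by
  obtain ⟨h1, h2⟩ := h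
  rw [(cls_mul a V).1, (cls_mul b V).1] at h1
  rw [(cls_mul a V).2, (cls_mul b V).2] at h2
  obtain ⟨u, v, huv⟩ := hV
  have e : a - b = (a * V.re - b * V.re) * u + (a * V.im - b * V.im) * v := by
    linear_combination (b - a) * huv
  rw [e]
  exact dvd_add (h1.mul_right _) (h2.mul_right _)

theorem cls_cg {M : ℕ} (V : G) {a b : ℤ} (h : (M : ℤ) ∣ a - b) : cg M ((a : G) * V) ((b : G) * V) := by
  constructor
  · rw [(cls_mul a V).1, (cls_mul b V).1, ← sub_mul]
    exact h.mul_right _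
  · rw [(cls_mul a V).2, (cls_mul b V).2, ← sub_mul]
    exact h.mul_right _

/-- PROOF. Let `c'` be the chosen integer (`En n e` gives existence). `n ∣ (c - c') e.1.re` and `n ∣ (c - c') e.1.im`, and `e.1` is primitive
(`a e.1.re + b e.1.im = 1`), so `n ∣ c - c'`: `ZMod.intCast_eq_intCast_iff_dvd_sub`. -/
theorem cl_eq {n : ℕ} {e : G × G} (he : En n e) {c : ℤ} (hc : cg n e.2 ((c : G) * e.1)) : cl n e = (c : ZMod n) := by
  classical
  have h := he.2.2.2
  have h1 := (Classical.choose_spec h).2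
  unfold cl
  rw [dif_pos h, ZMod.intCast_eq_intCast_iff_dvd_sub]
  exact cls_dvd he.2.2.1 (cg_trans (cg_symm hc) h1)

/-- from `cl_eq` and `IsCoprime` -/
theorem cl_unit {n : ℕ} {e : G × G} (he : En n e) : IsUnit (cl n e) := by
  obtain ⟨c, hc, hcg⟩ := he.2.2.2
  rw [cl_eq he hcg]
  obtain ⟨a, b, hab⟩ := hc
  have h1 : ((a * c + b * n : ℤ) : ZMod n) = ((1 : ℤ) : ZMod n) := by rw [hab]
  push_cast at h1
  rw [ZMod.natCast_self, mul_zero, add_zero] at h1
  exact IsUnit.of_mul_eq_one (a : ZMod n) (by rw [mul_comm]; exact h1)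

/-- PROOF. `cg n e.2 e.1` iff `cg n e.2 (1 * e.1)`; if `cl n e = 1` then for `c` from `En n e`, `(c : ZMod n) = 1`, `n ∣ c - 1`, and `cg n e.2 (c e.1)`. -/
theorem cl_one {n : ℕ} {e : G × G} (he : En n e) : cl n e = 1 ↔ cg n e.2 e.1 := by
  have h1 : ((1 : ℤ) : G) * e.1 = e.1 := by rw [Int.cast_one, one_mul]
  constructor
  · intro h
    obtain ⟨c, hc, hcg⟩ := he.2.2.2
    rw [cl_eq he hcg, ← Int.cast_one, ZMod.intCast_eq_intCast_iff_dvd_sub] at h
    have h2 := cls_cg e.1 h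
    rw [h1] at h2
    exact cg_trans hcg (cg_symm h2)
  · intro h
    have h2 : cg n e.2 (((1 : ℤ) : G) * e.1) := by rw [h1]; exact h
    rw [cl_eq he h2, Int.cast_one]

/-- PROOF. The pair `(U, star γ W)`: `det (U, star γ W) = det (γ U, W) = n` and the same for `dot` (`star (γ U) * W = star U * (star γ * W)`, `star_mul_eq`), `U` is primitive
(`prim_of_mul`), and from `W = c γ U mod n`: `star γ W = c (star γ * γ) U = c p U mod n`, `p = nm γ` coprime to `n`. (`toggle` in piece TOG contains the same computation.) -/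
theorem En_move {n : ℕ} {γ U W : G} (hp : (nm γ).Prime) (hn : (nm γ).Coprime n) (he : En n (γ * U, W)) :
    En n (U, star γ * W) ∧ cl n (U, star γ * W) = (nm γ : ZMod n) * cl n (γ * U, W) := by
  have he0 := he
  obtain ⟨h1, h2, h3, c, hc, hcg⟩ := he
  simp only at h1 h2 h3 hcg
  have hcg2 : cg n (star γ * W) (((c * nm γ : ℤ) : G) * U) := by
    rw [tog_cg] at hcg ⊢
    have h7 : star γ * W - ((c * nm γ : ℤ) : G) * U = (W - (c : G) * (γ * U)) * star γ := by
      have h8 : (W - (c : G) * (γ * U)) * star γ = star γ * W - (c : G) * (γ * star γ) * U := by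
        ring
      rw [h8, tog_mul_star]
      push_cast
      ring
    rw [h7]
    exact Dvd.dvd.mul_right hcg _
  have hE : En n (U, star γ * W) := by
    refine ⟨?_, ?_, ?_, ?_⟩
    · show det U (star γ * W) = n
      rw [← tog_det.1]
      exact h1
    · show 0 < dot U (star γ * W)
      rw [← tog_det.2]
      exact h2
    · show Prim U
      exact (prim_of_mul h3).2
    · exact ⟨c * nm γ, IsCoprime.mul_left hc (Nat.isCoprime_iff_coprime.2 hn), hcg2⟩
  refine ⟨hE, ?_⟩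
  rw [cl_eq hE hcg2, cl_eq he0 hcg]
  push_cast
  ring

/-- for a multiple `n` of `M` the class modulo `M` is the reduction: `cg M e.2 e.1` iff the class is `1` modulo `M`. PROOF. As `cl_one`: with `c` from `En n e`,
`cg M e.2 (c e.1)`, and `cg M (c e.1) e.1` iff `M ∣ c - 1` (`e.1` primitive). -/
theorem cl_cast {n M : ℕ} (hM : M ∣ n) {e : G × G} (he : En n e) : (ZMod.castHom hM (ZMod M)) (cl n e) = 1 ↔ cg M e.2 e.1 := by
  obtain ⟨c, hc, hcg⟩ := he.2.2.2
  have h1 : ((1 : ℤ) : G) * e.1 = e.1 := by rw [Int.cast_one, one_mul]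
  have hcgM := cg_mono hM hcg
  rw [cl_eq he hcg, map_intCast]
  constructor
  · intro h
    rw [← Int.cast_one, ZMod.intCast_eq_intCast_iff_dvd_sub] at h
    have h2 := cls_cg e.1 h
    rw [h1] at h2
    exact cg_trans hcgM (cg_symm h2)
  · intro h
    have h2 : cg M ((c : G) * e.1) (((1 : ℤ) : G) * e.1) := by
      rw [h1]
      exact cg_trans (cg_symm hcgM) h
    have h3 := cls_dvd he.2.2.1 h2
    rw [← Int.cast_one, ZMod.intCast_eq_intCast_iff_dvd_sub, ← neg_sub]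
    exact (dvd_neg).2 h3

end Pool.Agent.OmEq

end

/-! ### from `Lib_MP_f1a94e_eq.CmpP` -/

section

/-!
# Piece CMPP: products of multiplicative functions are compatible with moves
-/

set_option autoImplicit false

namespace Pool.Agent.OmEq

open Finset Pool.Agent.GaussMR Pool.Agent.OmAll

/-- completely multiplicative functions bounded by 1, equal to `ω` at the primes `1 mod 4` outside `E` -/
structure FF (f : ℕ → ℂ) (E : Finset ℕ) (ω : ℂ) : Prop where
  mul : ∀ m n, f (m * n) = f m * f n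
  bd : ∀ n, ‖f n‖ ≤ 1
  pr : ∀ p : ℕ, p.Prime → p % 4 = 1 → p ∉ E → f p = ω

/-- immediate -/
theorem FF.conj {f : ℕ → ℂ} {E : Finset ℕ} {ω : ℂ} (h : FF f E ω) :
    FF (fun n => (starRingEnd ℂ) (f n)) E ((starRingEnd ℂ) ω) := by
  refine ⟨fun m n => ?_, fun n => ?_, fun p hp h4 hE => ?_⟩
  · rw [h.mul, map_mul]
  · rw [RCLike.norm_conj]
    exact h.bd n
  · rw [h.pr p hp h4 hE]

/-- PROOF. `bd`: `‖χ‖ ≤ 1` (`DirichletCharacter.norm_le_one`). `mv`: `p = nm γ ∉ E ∪ n.primeFactors` is coprime to `n`; by `En_move` and multiplicativity (`nm_mul`, `nm_star`)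
`Φ (γ U, W) = ω1 f1(nm U) f2(nm W) χ(c)` and `Φ (U, star γ W) = f1(nm U) ω2 f2(nm W) χ(p) χ(c)`; `ω1 = (ω1 conj ω2) ω2` (`‖ω2‖ = 1`) and `χ⁻¹(p) χ(p) = 1` (`p` is a unit). -/
theorem cmp_pair (n : ℕ) [NeZero n] (χ : DirichletCharacter ℂ n) (E : Finset ℕ) (f1 f2 : ℕ → ℂ) (ω1 ω2 : ℂ)
    (h1 : FF f1 E ω1) (h2 : FF f2 E ω2) (hω1 : ‖ω1‖ = 1) (hω2 : ‖ω2‖ = 1) :
    Cmp n (E ∪ n.primeFactors) (fun p => ω1 * (starRingEnd ℂ) ω2 * χ⁻¹ (p : ZMod n))
      (fun e => f1 (nm e.1) * f2 (nm e.2) * χ (cl n e)) := by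
  classical
  refine ⟨fun e => ?_, ?_⟩
  · rw [norm_mul, norm_mul]
    have k1 := h1.bd (nm e.1)
    have k2 := h2.bd (nm e.2)
    have k3 := χ.norm_le_one (cl n e)
    exact mul_le_one₀ (mul_le_one₀ k1 (norm_nonneg _) k2) (norm_nonneg _) k3
  · intro γ U W hp h4 hE he _
    have hE1 : nm γ ∉ E := fun h => hE (Finset.mem_union_left _ h)
    have hcop : (nm γ).Coprime n := by
      rw [Nat.Prime.coprime_iff_not_dvd hp]
      intro hd
      exact hE (Finset.mem_union_right _ (Nat.mem_primeFactors.mpr ⟨hp, hd, NeZero.ne n⟩))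
    obtain ⟨_, hcl⟩ := En_move hp hcop he
    have hu : IsUnit ((nm γ : ZMod n)) := (ZMod.isUnit_iff_coprime _ _).mpr hcop
    have e1 : f1 (nm (γ * U)) = ω1 * f1 (nm U) := by
      rw [nm_mul, h1.mul, h1.pr _ hp h4 hE1]
    have e2 : f2 (nm (star γ * W)) = ω2 * f2 (nm W) := by
      rw [nm_mul, nm_star, h2.mul, h2.pr _ hp h4 hE1]
    have e3 : (starRingEnd ℂ) ω2 * ω2 = 1 := by
      rw [mul_comm, Complex.mul_conj, Complex.normSq_eq_norm_sq, hω2]
      norm_num
    have e4 : χ⁻¹ ((nm γ : ZMod n)) * χ ((nm γ : ZMod n)) = 1 := by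
      rw [← MulChar.mul_apply, inv_mul_cancel, MulChar.one_apply hu]
    simp only
    rw [hcl, e1, e2, map_mul]
    calc ω1 * f1 (nm U) * f2 (nm W) * χ (cl n (γ * U, W))
        = ω1 * f1 (nm U) * f2 (nm W) * χ (cl n (γ * U, W)) * ((starRingEnd ℂ) ω2 * ω2) *
          (χ⁻¹ ((nm γ : ZMod n)) * χ ((nm γ : ZMod n))) := by rw [e3, e4, mul_one, mul_one]
      _ = _ := by ring

end Pool.Agent.OmEq

end

/-! ### from `Lib_MP_f1a94e_eq.Clu` -/

section

/-!
# Piece CLU: sums over clusters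
-/

set_option autoImplicit false

namespace Pool.Agent.OmEq

open Finset Pool.Agent.GaussMR Pool.Agent.OmAll

theorem cs_insert (g : ℕ → ℂ) (w : ℝ → ℂ) (D : Finset ℕ) (p : ℕ) (hp : p ∉ D) (t : ℝ) :
    cs g w (insert p D) t = cs g w D t + g p * cs g w D (t - 2 * Real.log p) := by
  unfold cs
  rw [Finset.sum_powerset_insert hp, Finset.mul_sum]
  congr 1
  refine Finset.sum_congr rfl fun a ha => ?_
  have h1 : p ∉ a := fun h => hp (Finset.mem_powerset.mp ha h)
  have h2 : lg (insert p a) = Real.log p + lg a := by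
    unfold lg
    rw [Finset.sum_insert h1]
  rw [Finset.prod_insert h1, h2, mul_assoc]
  congr 3
  ring

/-- moving `γ` changes neither `dot` nor `det` -/
theorem clu_dot (γ U W : G) : dot (γ * U) W = dot U (star γ * W) := by
  have h1 : star (γ * U) * W = star U * (star γ * W) := by
    rw [star_mul, mul_assoc]
  rw [star_mul_eq, star_mul_eq] at h1
  exact congrArg Zsqrtd.re h1

theorem clu_prod (γ U W : G) : nm (γ * U) * nm W = nm U * nm (star γ * W) := by
  rw [nm_mul, nm_mul, nm_star]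
  ring

theorem clu_ds {E : Finset ℕ} {T : ℕ} {e e' : G × G} (h : nm e.1 * nm e.2 = nm e'.1 * nm e'.2) :
    ds E T e = ds E T e' := by
  unfold ds
  rw [h]

theorem clu_nm_ne {n : ℕ} (hn : 0 < n) {e : G × G} (h : En n e) : nm e.1 ≠ 0 ∧ nm e.2 ≠ 0 := by
  have h4 := dot_sq_add_det_sq e.1 e.2
  rw [h.1] at h4
  have hn' : (1 : ℤ) ≤ (n : ℤ) := by exact_mod_cast hn
  have h5 : (0 : ℤ) < (nm e.1 : ℤ) * nm e.2 := by
    rw [← h4]
    positivity
  have h6 : 0 < nm e.1 * nm e.2 := by exact_mod_cast h5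
  exact ⟨fun h0 => by rw [h0, zero_mul] at h6; exact lt_irrefl _ h6,
    fun h0 => by rw [h0, mul_zero] at h6; exact lt_irrefl _ h6⟩

open Classical in
/-- one step of the induction over the primes -/
theorem clu_step (n : ℕ) (hn : 0 < n) (E : Finset ℕ) (hE : n.primeFactors ⊆ E) (g : ℕ → ℂ) (Φ : G × G → ℂ)
    (hΦ : Cmp n E g Φ) (T : ℕ) (x : ℝ) (W : ℝ → ℝ → ℂ) (Q : Finset ℕ) (p : ℕ) (hpQ : p ∉ Q) (hp : p ∈ PE E T) :
    ∑ e ∈ (EN n x).filter (fun e => ∀ q ∈ ds E T e ∩ Q, ¬ q ∣ nm e.1),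
        Φ e * cs g (W (mE e)) (ds E T e ∩ Q) (tE e) =
      ∑ e ∈ (EN n x).filter (fun e => ∀ q ∈ ds E T e ∩ insert p Q, ¬ q ∣ nm e.1),
        Φ e * cs g (W (mE e)) (ds E T e ∩ insert p Q) (tE e) := by
  obtain ⟨-, hpp, hp4, hpE⟩ := mem_PE.mp hp
  have hpn : ¬ p ∣ n := fun h => hpE (hE (Nat.mem_primeFactors.mpr ⟨hpp, h, hn.ne'⟩))
  obtain ⟨φ, hbij, hφ⟩ := toggle n hn p hpp hp4 hpn
  -- split the left side
  have hL : (EN n x).filter (fun e => ∀ q ∈ ds E T e ∩ Q, ¬ q ∣ nm e.1) =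
      (EN n x).filter (fun e => ∀ q ∈ ds E T e ∩ insert p Q, ¬ q ∣ nm e.1) ∪
      (EN n x).filter (fun e => (∀ q ∈ ds E T e ∩ Q, ¬ q ∣ nm e.1) ∧ p ∈ ds E T e ∧ p ∣ nm e.1) := by
    ext e
    simp only [mem_filter, mem_union, mem_inter, mem_insert]
    constructor
    · rintro ⟨h1, h2⟩
      by_cases h3 : p ∈ ds E T e ∧ p ∣ nm e.1
      · exact Or.inr ⟨h1, h2, h3⟩
      · refine Or.inl ⟨h1, fun q hq => ?_⟩
        rcases hq.2 with rfl | h4
        · exact fun h5 => h3 ⟨hq.1, h5⟩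
        · exact h2 q ⟨hq.1, h4⟩
    · rintro (⟨h1, h2⟩ | ⟨h1, h2, -⟩)
      · exact ⟨h1, fun q hq => h2 q ⟨hq.1, Or.inr hq.2⟩⟩
      · exact ⟨h1, h2⟩
  have hdisj : Disjoint ((EN n x).filter (fun e => ∀ q ∈ ds E T e ∩ insert p Q, ¬ q ∣ nm e.1))
      ((EN n x).filter (fun e => (∀ q ∈ ds E T e ∩ Q, ¬ q ∣ nm e.1) ∧ p ∈ ds E T e ∧ p ∣ nm e.1)) := by
    rw [Finset.disjoint_left]
    intro e h1 h2
    rw [mem_filter] at h1 h2
    exact h1.2 p (mem_inter.mpr ⟨h2.2.2.1, mem_insert_self _ _⟩) h2.2.2.2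
  rw [hL, Finset.sum_union hdisj]
  -- the right side
  have hR : ∀ e : G × G, Φ e * cs g (W (mE e)) (ds E T e ∩ insert p Q) (tE e) =
      Φ e * cs g (W (mE e)) (ds E T e ∩ Q) (tE e) +
        if p ∈ ds E T e then Φ e * (g p * cs g (W (mE e)) (ds E T e ∩ Q) (tE e - 2 * Real.log p)) else 0 := by
    intro e
    by_cases h : p ∈ ds E T e
    · rw [if_pos h, Finset.inter_insert_of_mem h, cs_insert g _ _ p (fun h1 => hpQ (mem_inter.mp h1).2), mul_add]
    · rw [if_neg h, Finset.inter_insert_of_notMem h, add_zero]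
  rw [Finset.sum_congr rfl (fun e _ => hR e), Finset.sum_add_distrib, ← Finset.sum_filter]
  congr 1
  symm
  refine Finset.sum_nbij φ ?_ ?_ ?_ ?_
  · intro e he
    rw [mem_filter, mem_filter] at he
    obtain ⟨⟨h1, h2⟩, h3⟩ := he
    have h4 : p ∣ nm e.1 * nm e.2 ∧ ¬ p ^ 2 ∣ nm e.1 * nm e.2 := (mem_filter.mp h3).2
    have h5 : ¬ p ∣ nm e.1 := h2 p (mem_inter.mpr ⟨h3, mem_insert_self _ _⟩)
    have h6 : e ∈ Bp n p := ⟨((mem_EN hn).mp h1).1, (hpp.dvd_mul.mp h4.1).resolve_left h5, h4.2⟩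
    have h7 := hbij.mapsTo h6
    obtain ⟨γ, U, V, hγ, h8, h9⟩ := hφ e h6
    have h10 : nm (φ e).1 * nm (φ e).2 = nm e.1 * nm e.2 := by
      rw [h9, h8]
      exact clu_prod γ U V
    have h11 : ds E T (φ e) = ds E T e := clu_ds h10
    have h12 : mE (φ e) = mE e := by
      unfold mE
      rw [h9, h8]
      show ((dot (γ * U) V : ℤ) : ℝ) = ((dot U (star γ * V) : ℤ) : ℝ)
      rw [clu_dot]
    rw [mem_filter, mem_EN hn]
    refine ⟨⟨h7.1, ?_⟩, ?_, ?_, ?_⟩
    · rw [h12]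
      exact ((mem_EN hn).mp h1).2
    · intro q hq
      rw [h11] at hq
      obtain ⟨hq1, hq2⟩ := mem_inter.mp hq
      have hqp : q.Prime := (mem_PE.mp (mem_filter.mp hq1).1).2.1
      have h13 : ¬ q ∣ nm e.1 := h2 q (mem_inter.mpr ⟨hq1, mem_insert_of_mem hq2⟩)
      rw [h9]
      show ¬ q ∣ nm (γ * U)
      rw [nm_mul, hγ]
      intro h14
      rcases hqp.dvd_mul.mp h14 with h15 | h15
      · have h16 : q = p := (Nat.prime_dvd_prime_iff_eq hqp hpp).mp h15
        exact hpQ (h16 ▸ hq2)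
      · rw [h8] at h13
        exact h13 h15
    · rw [h11]
      exact h3
    · exact h7.2.1
  · intro e he e' he' hee
    rw [mem_coe, mem_filter, mem_filter] at he he'
    have key : ∀ e : G × G, ((e ∈ EN n x ∧ ∀ q ∈ ds E T e ∩ insert p Q, ¬ q ∣ nm e.1) ∧ p ∈ ds E T e) → e ∈ Bp n p := by
      rintro e ⟨⟨h1, h2⟩, h3⟩
      have h4 : p ∣ nm e.1 * nm e.2 ∧ ¬ p ^ 2 ∣ nm e.1 * nm e.2 := (mem_filter.mp h3).2
      have h5 : ¬ p ∣ nm e.1 := h2 p (mem_inter.mpr ⟨h3, mem_insert_self _ _⟩)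
      exact ⟨((mem_EN hn).mp h1).1, (hpp.dvd_mul.mp h4.1).resolve_left h5, h4.2⟩
    exact hbij.injOn (key e he) (key e' he') hee
  · intro e' he'
    rw [mem_coe, mem_filter] at he'
    obtain ⟨h1, h2, h3, h3'⟩ := he'
    have h4 : p ∣ nm e'.1 * nm e'.2 ∧ ¬ p ^ 2 ∣ nm e'.1 * nm e'.2 := (mem_filter.mp h3).2
    have h5 : e' ∈ Ap' n p := ⟨((mem_EN hn).mp h1).1, h3', h4.2⟩
    obtain ⟨e, h6, h7⟩ := hbij.surjOn h5
    obtain ⟨γ, U, V, hγ, h8, h9⟩ := hφ e h6
    have h10 : nm (φ e).1 * nm (φ e).2 = nm e.1 * nm e.2 := by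
      rw [h9, h8]
      exact clu_prod γ U V
    have h11 : ds E T (φ e) = ds E T e := clu_ds h10
    have h12 : mE (φ e) = mE e := by
      unfold mE
      rw [h9, h8]
      show ((dot (γ * U) V : ℤ) : ℝ) = ((dot U (star γ * V) : ℤ) : ℝ)
      rw [clu_dot]
    rw [h7] at h9 h10 h11 h12
    refine ⟨e, ?_, h7⟩
    rw [mem_coe, mem_filter, mem_filter, mem_EN hn]
    refine ⟨⟨⟨h6.1, ?_⟩, ?_⟩, ?_⟩
    · rw [← h12]
      exact ((mem_EN hn).mp h1).2
    · intro q hq
      rw [← h11] at hq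
      obtain ⟨hq1, hq2⟩ := mem_inter.mp hq
      rcases mem_insert.mp hq2 with rfl | hq2
      · intro h13
        refine h6.2.2 ?_
        rw [pow_two]
        exact mul_dvd_mul h13 h6.2.1
      · have h13 : ¬ q ∣ nm e'.1 := h2 q (mem_inter.mpr ⟨hq1, hq2⟩)
        intro h14
        apply h13
        rw [h9]
        show q ∣ nm (γ * U)
        rw [nm_mul]
        rw [h8] at h14
        exact Dvd.dvd.mul_left h14 _
    · rw [← h11]
      exact h3
  · intro e he
    rw [mem_filter, mem_filter] at he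
    obtain ⟨⟨h1, h2⟩, h3⟩ := he
    have h4 : p ∣ nm e.1 * nm e.2 ∧ ¬ p ^ 2 ∣ nm e.1 * nm e.2 := (mem_filter.mp h3).2
    have h5 : ¬ p ∣ nm e.1 := h2 p (mem_inter.mpr ⟨h3, mem_insert_self _ _⟩)
    have h6 : e ∈ Bp n p := ⟨((mem_EN hn).mp h1).1, (hpp.dvd_mul.mp h4.1).resolve_left h5, h4.2⟩
    have h7 := hbij.mapsTo h6
    obtain ⟨γ, U, V, hγ, h8, h9⟩ := hφ e h6
    have h10 : nm (φ e).1 * nm (φ e).2 = nm e.1 * nm e.2 := by
      rw [h9, h8]
      exact clu_prod γ U V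
    have h11 : ds E T (φ e) = ds E T e := clu_ds h10
    have h12 : mE (φ e) = mE e := by
      unfold mE
      rw [h9, h8]
      show ((dot (γ * U) V : ℤ) : ℝ) = ((dot U (star γ * V) : ℤ) : ℝ)
      rw [clu_dot]
    have h13 : tE (φ e) = tE e - 2 * Real.log p := by
      obtain ⟨h14, h15⟩ := clu_nm_ne hn h7.1
      have h16 : nm U ≠ 0 := by
        intro h0
        apply h14
        rw [h9]
        show nm (γ * U) = 0
        rw [nm_mul, h0, mul_zero]
      have h17 : nm V ≠ 0 := by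
        rw [h9] at h15
        exact h15
      have h18 : (p : ℝ) ≠ 0 := by
        exact_mod_cast hpp.ne_zero
      unfold tE
      rw [h9, h8]
      show Real.log (nm V) - Real.log (nm (γ * U)) = Real.log (nm (star γ * V)) - Real.log (nm U) - 2 * Real.log p
      rw [nm_mul, nm_mul, nm_star, hγ]
      push_cast
      rw [Real.log_mul h18 (by exact_mod_cast h16), Real.log_mul h18 (by exact_mod_cast h17)]
      ring
    have h14 : Φ (φ e) = g p * Φ e := by
      have h15 := hΦ.mv γ U V (by rw [hγ]; exact hpp) (by rw [hγ]; exact hp4) (by rw [hγ]; exact hpE)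
        (by rw [← h9]; exact h7.1) (by
          rw [hγ, clu_prod]
          have h16 := h6.2.2
          rw [h8] at h16
          exact h16)
      rw [h9, h8, h15, hγ]
    rw [h11, h12, h13, h14]
    ring

open Classical in
/-- PROOF. Induction over a subset `Q` of `PE E T`: with `b_Q e := ∀ p ∈ ds E T e ∩ Q, ¬ p ∣ nm e.1`, claim
`∑_(e ∈ EN n x) Φ e * W (dot e) (tE e) = ∑_(e ∈ EN n x, b_Q e) Φ e * ∑_(a ⊆ ds E T e ∩ Q) (∏_(p ∈ a) g p) * W (dot e) (tE e - 2 lg a)`.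
`Q = ∅`: trivial. Step `Q → Q ∪ {p}`: the `e` with `b_Q` are of three kinds: `p ∉ ds e` (unchanged), `p ∈ ds e` and `p ∣ nm e.2` (then `p ∤ nm e.1`), `p ∈ ds e` and
`p ∣ nm e.1`. `toggle` gives a bijection `φ` from the second kind to the third: for `e = (U, star γ W)`, `φ e = (γ U, W)`: same `dot`
(`star (γ U) * W = star U * (star γ * W)`, `star_mul_eq`), same product `nm e.1 * nm e.2`, so the same `ds`, membership in `EN` is preserved, the condition `b_Q` too
(for `q ≠ p`, `q ∣ nm (γ U) = p nm U` iff `q ∣ nm U`), `tE (φ e) = tE e - 2 log p` and `Φ (φ e) = g p * Φ e` (`Cmp.mv`; `p ∉ E`, `p % 4 = 1`). So the sum over the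
third kind equals the sum over `e` of the second kind of `Φ e * ∑_(a ⊆ ds e ∩ Q) g p * (∏_(q ∈ a) g q) * W (dot e) (tE e - 2 log p - 2 lg a)`, i.e. the terms
`a ∪ {p}` of the new sum. (`lg (insert p a) = log p + lg a`, `Finset.sum_powerset_insert` or `Finset.prod_add` type lemmas.) At the end `Q = PE E T`
and `ds E T e ∩ PE E T = ds E T e`. -/
theorem cluster (n : ℕ) (hn : 0 < n) (E : Finset ℕ) (hE : n.primeFactors ⊆ E) (g : ℕ → ℂ) (Φ : G × G → ℂ)
    (hΦ : Cmp n E g Φ) (T : ℕ) (x : ℝ) (W : ℝ → ℝ → ℂ) :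
    ∑ e ∈ EN n x, Φ e * W (mE e) (tE e) =
      ∑ e ∈ (EN n x).filter (bs E T), Φ e * cs g (W (mE e)) (ds E T e) (tE e) := by
  have key : ∀ Q : Finset ℕ, Q ⊆ PE E T → ∑ e ∈ EN n x, Φ e * W (mE e) (tE e) =
      ∑ e ∈ (EN n x).filter (fun e => ∀ q ∈ ds E T e ∩ Q, ¬ q ∣ nm e.1),
        Φ e * cs g (W (mE e)) (ds E T e ∩ Q) (tE e) := by
    intro Q
    induction Q using Finset.induction_on with
    | empty =>
      intro _
      have h1 : (EN n x).filter (fun e => ∀ q ∈ ds E T e ∩ (∅ : Finset ℕ), ¬ q ∣ nm e.1) = EN n x := by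
        refine Finset.filter_true_of_mem fun e _ q hq => ?_
        rw [Finset.inter_empty] at hq
        exact absurd hq (Finset.notMem_empty q)
      rw [h1]
      refine Finset.sum_congr rfl fun e _ => ?_
      rw [Finset.inter_empty]
      unfold cs
      rw [Finset.powerset_empty, Finset.sum_singleton, Finset.prod_empty, one_mul]
      unfold lg
      rw [Finset.sum_empty, mul_zero, sub_zero]
    | insert p Q hpQ ih =>
      intro hQ
      rw [ih (fun q hq => hQ (mem_insert_of_mem hq))]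
      exact clu_step n hn E hE g Φ hΦ T x W Q p hpQ (hQ (mem_insert_self _ _))
  rw [key (PE E T) (Finset.Subset.refl _)]
  have h2 : ∀ e : G × G, ds E T e ∩ PE E T = ds E T e := fun e =>
    Finset.inter_eq_left.mpr (Finset.filter_subset _ _)
  refine Finset.sum_congr ?_ fun e _ => ?_
  · refine Finset.filter_congr fun e _ => ?_
    rw [h2]
    exact Iff.rfl
  · rw [h2]

end Pool.Agent.OmEq

end

/-! ### from `Lib_MP_f1a94e_eq.FzD` -/

section

/-!
# Powers of roots of unity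
-/

set_option autoImplicit false

namespace Pool.Agent.OmEq

open Finset Pool.Agent.GaussMR Pool.Agent.OmAll MeasureTheory Filter

/-- `z ^ Ω(n)` on the numbers coprime to `R`, zero otherwise -/
noncomputable def fz (R : ℕ) (z : ℂ) (n : ℕ) : ℂ :=
  if n = 0 ∨ ¬ n.Coprime R then 0 else z ^ ArithmeticFunction.cardFactors n

/-- `exp (2 π i / q)` -/
noncomputable def zq (q : ℕ) : ℂ := Complex.exp (2 * Real.pi * Complex.I / q)

/-- PROOF. `mul`: if `m n = 0` or `m n` is not coprime to `R` both sides vanish (`Nat.Coprime.mul_left` / `Nat.coprime_mul_iff_left`); otherwise `ArithmeticFunction.cardFactors_mul`. `pr`: a prime not in `R.primeFactors` is coprime to `R`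
(`R ≠ 0`), `cardFactors p = 1`. -/
theorem fz_FF (R : ℕ) (hR : 0 < R) (z : ℂ) (hz : ‖z‖ = 1) : FF (fz R z) R.primeFactors z := by
  refine ⟨?_, ?_, ?_⟩
  · intro m n
    unfold fz
    by_cases hm : m = 0
    · subst hm
      simp
    by_cases hn : n = 0
    · subst hn
      simp
    have hmn : m * n ≠ 0 := mul_ne_zero hm hn
    by_cases h1 : m.Coprime R
    · by_cases h2 : n.Coprime R
      · have h3 : (m * n).Coprime R := Nat.Coprime.mul_left h1 h2
        rw [if_neg (by tauto), if_neg (by tauto), if_neg (by tauto),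
          ArithmeticFunction.cardFactors_mul hm hn, pow_add]
      · have h3 : ¬ (m * n).Coprime R := fun h => h2 (Nat.Coprime.coprime_mul_left h)
        rw [if_pos (Or.inr h3), if_pos (Or.inr h2), mul_zero]
    · have h3 : ¬ (m * n).Coprime R := fun h => h1 (Nat.Coprime.coprime_mul_right h)
      rw [if_pos (Or.inr h3), if_pos (Or.inr h1), zero_mul]
  · intro n
    unfold fz
    split_ifs
    · rw [norm_zero]
      exact zero_le_one
    · rw [norm_pow, hz, one_pow]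
  · intro p hp _ hpR
    unfold fz
    have h1 : p.Coprime R := by
      rw [Nat.Prime.coprime_iff_not_dvd hp]
      intro h
      exact hpR (Nat.mem_primeFactors.2 ⟨hp, h, hR.ne'⟩)
    rw [if_neg]
    · rw [ArithmeticFunction.cardFactors_apply_prime hp, pow_one]
    · rintro (h | h)
      · exact hp.ne_zero h
      · exact h h1

theorem fine_prim (q : ℕ) (hq : 0 < q) : IsPrimitiveRoot (zq q) q :=
  Complex.isPrimitiveRoot_exp q hq.ne'

theorem fine_norm (q : ℕ) (hq : 0 < q) (i : ℕ) : ‖zq q ^ i‖ = 1 := by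
  rw [norm_pow, Complex.norm_eq_one_of_pow_eq_one (fine_prim q hq).pow_eq_one hq.ne', one_pow]

theorem fine_ne {q : ℕ} (hq : 0 < q) : zq q ≠ 0 := (fine_prim q hq).ne_zero hq.ne'

/-- powers of the primitive root -/
theorem fine_pow_eq {q : ℕ} (hq : 0 < q) (m n : ℕ) : zq q ^ m = zq q ^ n ↔ m ≡ n [MOD q] := by
  have key : ∀ m n : ℕ, m ≤ n → (zq q ^ m = zq q ^ n ↔ m ≡ n [MOD q]) := by
    intro m n hmn
    rw [Nat.modEq_iff_dvd' hmn, ← (fine_prim q hq).pow_eq_one_iff_dvd]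
    have h1 : zq q ^ n = zq q ^ m * zq q ^ (n - m) := by
      rw [← pow_add, Nat.add_sub_cancel' hmn]
    rw [h1]
    have h2 : zq q ^ m ≠ 0 := pow_ne_zero _ (fine_ne hq)
    constructor
    · intro h
      have h3 : zq q ^ m * 1 = zq q ^ m * zq q ^ (n - m) := by rw [mul_one]; exact h
      exact (mul_left_cancel₀ h2 h3).symm
    · intro h
      rw [h, mul_one]
  rcases le_total m n with h | h
  · exact key m n h
  · rw [eq_comm, Nat.ModEq.comm]
    exact key n m h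

open Classical in
/-- orthogonality -/
theorem fine_orth {q : ℕ} (hq : 0 < q) (n a : ℕ) :
    ∑ i ∈ range q, (zq q ^ (i * a))⁻¹ * (zq q ^ i) ^ n = if n ≡ a [MOD q] then (q : ℂ) else 0 := by
  have h0 := fine_ne hq
  have h1 : ∀ i ∈ range q, (zq q ^ (i * a))⁻¹ * (zq q ^ i) ^ n = (zq q ^ n * (zq q ^ a)⁻¹) ^ i := by
    intro i _
    rw [mul_pow, inv_pow, ← pow_mul, ← pow_mul, ← pow_mul, mul_comm i a, mul_comm i n]
    ring
  rw [sum_congr rfl h1]
  by_cases h : n ≡ a [MOD q]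
  · rw [if_pos h, (fine_pow_eq hq n a).2 h, mul_inv_cancel₀ (pow_ne_zero _ h0)]
    simp
  · rw [if_neg h]
    set y : ℂ := zq q ^ n * (zq q ^ a)⁻¹ with hy
    have hy1 : y ≠ 1 := by
      intro h2
      apply h
      rw [← fine_pow_eq hq]
      rw [hy] at h2
      rw [← div_eq_mul_inv, div_eq_one_iff_eq (pow_ne_zero _ h0)] at h2
      exact h2
    have hyq : y ^ q = 1 := by
      rw [hy, mul_pow, inv_pow, ← pow_mul, ← pow_mul, mul_comm n q, mul_comm a q, pow_mul, pow_mul,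
        (fine_prim q hq).pow_eq_one, one_pow, one_pow, inv_one, mul_one]
    rw [geom_sum_eq hy1, hyq, sub_self, zero_div]

end Pool.Agent.OmEq

end

/-! ### from `Lib_MP_f1a94e_eq.EPrim` -/

section

/-!
# Piece EPRIM: the pairs of `En n` are the pairs of primitive vectors
-/

set_option autoImplicit false

namespace Pool.Agent.OmEq

open Finset Pool.Agent.GaussMR Pool.Agent.OmAll

theorem eprim_mul_re (k : ℤ) (V : G) : ((k : G) * V).re = k * V.re := by simp

theorem eprim_mul_im (k : ℤ) (V : G) : ((k : G) * V).im = k * V.im := by simp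

/-- PROOF. Let `V` be primitive, `W` with `det V W = 1` (Bezout), so every `V' = c V + k W` with integers `c = - det W V'`-like coefficients (`det V V' = k`, `c = det V' W`). With `det V V' = n`: `V' = c V + n W`, so `V' = c V mod n`.
If `c' V = V' mod n` with `c'` coprime to `n` then `c' = c mod n` (`V` primitive), so `c` is coprime to `n`, and `V'` is primitive: a common prime divisor `p` of the coordinates of `V'` divides `c = det V' W` and
`n = det V V'`. Conversely if `V'` is primitive then `c` is coprime to `n`: a prime `p` dividing both divides the coordinates of `c V + n W`. -/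
theorem En_iff {n : ℕ} (hn : 0 < n) (e : G × G) :
    En n e ↔ det e.1 e.2 = n ∧ 0 < dot e.1 e.2 ∧ Prim e.1 ∧ Prim e.2 := by
  obtain ⟨V, V'⟩ := e
  unfold En cg
  simp only [eprim_mul_re, eprim_mul_im]
  constructor
  · rintro ⟨h1, h2, h3, c, ⟨s, t, hst⟩, ⟨x, hx⟩, ⟨y, hy⟩⟩
    refine ⟨h1, h2, h3, ?_⟩
    have hn' : (n : ℤ) ≠ 0 := by exact_mod_cast hn.ne'
    have h4 : V.re * y - V.im * x = 1 := by
      have : (n : ℤ) * (V.re * y - V.im * x) = n * 1 := by
        unfold det at h1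
        linear_combination h1 - V.re * hy + V.im * hx
      exact mul_left_cancel₀ hn' this
    refine ⟨s * y - t * V.im, -s * x + t * V.re, ?_⟩
    linear_combination (s * y - t * V.im) * hx + (-s * x + t * V.re) * hy + hst +
      (s * c + t * n) * h4
  · rintro ⟨h1, h2, h3, h4⟩
    refine ⟨h1, h2, h3, ?_⟩
    obtain ⟨a, b, hab⟩ := h3
    obtain ⟨p, q, hpq⟩ := h4
    unfold det at h1
    refine ⟨V'.re * a + V'.im * b, ⟨p * V.re + q * V.im, -p * b + q * a, ?_⟩, ⟨-b, ?_⟩, ⟨a, ?_⟩⟩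
    · rw [← h1]
      linear_combination hpq + (p * V'.re + q * V'.im) * hab
    · rw [← h1]
      linear_combination (-V'.re) * hab
    · rw [← h1]
      linear_combination (-V'.im) * hab

/-- parallel primitive vectors with positive scalar product are equal. PROOF. `V` primitive and `det V V' = 0` give `V' = c V` (`c = a V'.re + b V'.im` for `a V.re + b V.im = 1`), `V'` primitive gives `c = 1` or `-1`, `dot = c nm V > 0`. -/
theorem eq_of_det_zero {V V' : G} (hV : Prim V) (hV' : Prim V') (h0 : det V V' = 0) (h1 : 0 < dot V V') : V' = V := by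
  obtain ⟨a, b, hab⟩ := hV
  obtain ⟨p, q, hpq⟩ := hV'
  unfold det at h0
  unfold dot at h1
  obtain ⟨c, hc⟩ : ∃ c : ℤ, c = a * V'.re + b * V'.im := ⟨_, rfl⟩
  have h2 : V'.re = c * V.re := by
    rw [hc]
    linear_combination (-V'.re) * hab - b * h0
  have h3 : V'.im = c * V.im := by
    rw [hc]
    linear_combination (-V'.im) * hab + a * h0
  have h4 : c * (p * V.re + q * V.im) = 1 := by
    linear_combination hpq - p * h2 - q * h3
  have h5 : 0 < c := by
    rw [h2, h3] at h1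
    by_contra h6
    rw [not_lt] at h6
    have h7 : V.re * (c * V.re) + V.im * (c * V.im) = c * (V.re ^ 2 + V.im ^ 2) := by ring
    rw [h7] at h1
    have h8 : c * (V.re ^ 2 + V.im ^ 2) ≤ 0 := mul_nonpos_of_nonpos_of_nonneg h6 (by positivity)
    linarith
  have h6 : c = 1 := by
    rcases Int.eq_one_or_neg_one_of_mul_eq_one h4 with h | h
    · exact h
    · omega
  apply Zsqrtd.ext
  · rw [h2, h6, one_mul]
  · rw [h3, h6, one_mul]

end Pool.Agent.OmEq

end
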