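import Pool.Agent.Lib_MP_92ef0c_m.M03
import Pool.Agent.Lib_MP_92ef0c_m.M05
import Pool.Agent.Lib_MP_92ef0c_m.M06
import Pool.Agent.Lib_MP_92ef0c_m.M08
import Pool.Agent.Lib_MP_92ef0c_m.M09

/-!
# MP_92ef0c_nt, split pairs: merged library part M10

Concatenation of smaller files (each in its own section), only to save build time.
-/

/-! ### from `Lib_MP_f1a94e_mr.DT` -/

section

/-!
# Piece DT: higher derivative tests by Weyl differencing
-/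

set_option autoImplicit false

namespace Pool.Agent.GaussMR

open scoped ContDiff

theorem dt_contDiff_shift (f : ℝ → ℝ) (hf : ContDiff ℝ ∞ f) (h : ℝ) :
    ContDiff ℝ ∞ (fun x => f (x + h)) :=
  hf.comp (contDiff_id.add contDiff_const)

/-- the derivative of the difference as a value of the next derivative -/
theorem dt_iter_diff (f : ℝ → ℝ) (hf : ContDiff ℝ ∞ f) (q : ℕ) (h : ℝ) (hh : 0 < h) (x : ℝ) :
    ∃ y ∈ Set.Icc x (x + h), iteratedDeriv q (fun t => f (t + h) - f t) x =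
      h * iteratedDeriv (q + 1) f y := by
  have e1 : iteratedDeriv q (fun t => f (t + h) - f t) x =
      iteratedDeriv q f (x + h) - iteratedDeriv q f x := by
    have hs : (fun t => f (t + h) - f t) = (fun t => f (t + h)) - f := rfl
    rw [hs, iteratedDeriv_sub]
    · congr 1
      have := congrFun (iteratedDeriv_comp_add_const q f h) x
      simpa using this
    · exact (dt_contDiff_shift f hf h).contDiffAt.of_le (by exact_mod_cast le_top)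
    · exact hf.contDiffAt.of_le (by exact_mod_cast le_top)
  have hd : ContDiff ℝ ∞ (iteratedDeriv q f) := by
    rw [iteratedDeriv_eq_iterate]
    exact hf.iterate_deriv q
  have hd' : Differentiable ℝ (iteratedDeriv q f) := hd.differentiable (by simp)
  obtain ⟨c, hc, hc'⟩ := exists_hasDerivAt_eq_slope (iteratedDeriv q f) (deriv (iteratedDeriv q f))
    (show x < x + h by linarith)
    (fun x _ => (hd' x).continuousAt.continuousWithinAt) (fun x _ => (hd' x).hasDerivAt)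
  refine ⟨c, ⟨hc.1.le, hc.2.le⟩, ?_⟩
  rw [e1, iteratedDeriv_succ, hc']
  have : x + h - x = h := by ring
  rw [this]
  field_simp

set_option linter.unusedVariables false in
/-- Weyl differencing with `H = ⌊L^β⌋` (`vdC`; if `b - a + 1 < H` use the trivial bound): for `1 ≤ h < H`
the function `g x = f (x + h) - f x` has `iteratedDeriv q g x = h * iteratedDeriv (q+1) f ξ`
(mean value theorem for `iteratedDeriv q f`), in `[h lam, h Lam]`, and `h Lam ≤ L^β L^(-2β) = L^(-β)`.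
So `|S|² ≤ 2 N² / H + 4 N C L^(1-η)`, `N ≤ 2 L`. -/
theorem dt_step (q : ℕ) (β η C : ℝ) (hβ : 0 < β) (hβ' : β ≤ 1 / 4) (hη : 0 < η) (hη' : η ≤ β)
    (hC : 0 < C) (h : DTest q β η C) : ∃ C' : ℝ, 0 < C' ∧ DTest (q + 1) (2 * β) (η / 2) C' := by
  refine ⟨Real.sqrt (16 + 8 * C) + 1, by positivity, ?_⟩
  intro f hf a b L lam Lam hab hL hbL h1 h2 h3 h4 h5
  have hL0 : 0 < L := by linarith
  have hlam : 0 < lam := lt_of_lt_of_le (Real.rpow_pos_of_pos hL0 _) h1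
  have hLam : 0 < Lam := lt_of_lt_of_le hlam h2
  set P : ℝ := L ^ (1 - η / 2) with hP
  have hP0 : 0 < P := Real.rpow_pos_of_pos hL0 _
  have hLβ : 1 ≤ L ^ β := Real.one_le_rpow hL hβ.le
  set H : ℕ := ⌊L ^ β⌋₊ with hH
  have hH1 : 1 ≤ H := Nat.le_floor (by simpa using hLβ)
  have hHle : (H : ℝ) ≤ L ^ β := Nat.floor_le (by positivity)
  have hHge : L ^ β / 2 ≤ H := by
    have hlt : L ^ β < (H : ℝ) + 1 := Nat.lt_floor_add_one _
    have : (1 : ℝ) ≤ H := by exact_mod_cast hH1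
    linarith
  have hba : (0 : ℝ) ≤ (b : ℝ) - a := by
    have : (a : ℝ) ≤ b := by exact_mod_cast hab
    linarith
  have hsq : P ^ 2 = L ^ (2 - η) := by
    rw [hP, ← Real.rpow_natCast, ← Real.rpow_mul hL0.le]
    norm_num
    ring_nf
  by_cases hcase : (H : ℤ) ≤ b - a + 1
  · -- the main case
    have hM : ∀ k : ℕ, 1 ≤ k → k < H →
        ‖∑ n ∈ Finset.Icc a (b - k), ee (f ((n + k : ℤ)) - f n)‖ ≤ C * L ^ (1 - η) := by
      intro k hk1 hkH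
      have hk0 : (0 : ℝ) < k := by exact_mod_cast hk1
      have hkβ : (k : ℝ) ≤ L ^ β := le_trans (by exact_mod_cast hkH.le) hHle
      have hg : ContDiff ℝ ∞ (fun t => f (t + k) - f t) := (dt_contDiff_shift f hf k).sub hf
      have := h (fun t => f (t + k) - f t) hg a (b - k) L (k * lam) (k * Lam) (by omega) hL
        (by push_cast; linarith) ?_ (by gcongr) ?_ ?_ ?_
      · convert this using 4
        push_cast
        rfl
      · refine h1.trans ?_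
        have : (1 : ℝ) ≤ k := by exact_mod_cast hk1
        nlinarith
      · calc (k : ℝ) * Lam ≤ L ^ β * L ^ (-(2 * β)) := by gcongr
          _ = L ^ (-β) := by
            rw [← Real.rpow_add hL0]
            ring_nf
      · calc (k : ℝ) * Lam ≤ k * (lam * L ^ (1 / 100 : ℝ)) := by gcongr
          _ = k * lam * L ^ (1 / 100 : ℝ) := by ring
      · intro x hx
        obtain ⟨y, hy, hy'⟩ := dt_iter_diff f hf q k hk0 x
        rw [hy']
        have hmem : y ∈ Set.Icc (a : ℝ) b := by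
          refine ⟨hx.1.trans hy.1, hy.2.trans ?_⟩
          have := hx.2
          push_cast at this
          linarith
        obtain ⟨g1, g2⟩ := h5 y hmem
        exact ⟨by gcongr, by gcongr⟩
    have hv := vdC (fun n : ℤ => f n) a b hab H hH1 hcase (C * L ^ (1 - η)) (by positivity) hM
    have hN : (b : ℝ) - a + 1 ≤ 2 * L := by linarith
    have hN0 : (0 : ℝ) ≤ (b : ℝ) - a + 1 := by linarith
    have hH0 : (0 : ℝ) < H := by exact_mod_cast hH1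
    have t1 : 2 * ((b : ℝ) - a + 1) ^ 2 / H ≤ 16 * P ^ 2 := by
      rw [div_le_iff₀ hH0]
      have s1 : L ^ 2 ≤ P ^ 2 * L ^ β := by
        rw [hsq, ← Real.rpow_add hL0, ← Real.rpow_natCast]
        apply Real.rpow_le_rpow_of_exponent_le hL
        push_cast
        linarith
      calc 2 * ((b : ℝ) - a + 1) ^ 2 ≤ 2 * (2 * L) ^ 2 := by gcongr
        _ = 8 * L ^ 2 := by ring
        _ ≤ 8 * (P ^ 2 * L ^ β) := by gcongr
        _ = 16 * P ^ 2 * (L ^ β / 2) := by ring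
        _ ≤ 16 * P ^ 2 * H := by gcongr
    have t2 : 4 * ((b : ℝ) - a + 1) * (C * L ^ (1 - η)) ≤ 8 * C * P ^ 2 := by
      have s2 : L * L ^ (1 - η) = P ^ 2 := by
        rw [hsq]
        nth_rewrite 1 [← Real.rpow_one L]
        rw [← Real.rpow_add hL0]
        ring_nf
      calc 4 * ((b : ℝ) - a + 1) * (C * L ^ (1 - η)) ≤ 4 * (2 * L) * (C * L ^ (1 - η)) := by gcongr
        _ = 8 * C * (L * L ^ (1 - η)) := by ring
        _ = 8 * C * P ^ 2 := by rw [s2]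
    have t3 : ‖∑ n ∈ Finset.Icc a b, ee (f n)‖ ^ 2 ≤ (16 + 8 * C) * P ^ 2 := by
      refine hv.trans ?_
      linarith
    have t4 : ‖∑ n ∈ Finset.Icc a b, ee (f n)‖ ≤ Real.sqrt ((16 + 8 * C) * P ^ 2) :=
      Real.le_sqrt_of_sq_le t3
    rw [Real.sqrt_mul (by positivity), Real.sqrt_sq hP0.le] at t4
    linarith
  · -- the trivial bound
    have hcard : ‖∑ n ∈ Finset.Icc a b, ee (f n)‖ ≤ (b : ℝ) - a + 1 := by
      refine (norm_sum_le _ _).trans ?_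
      rw [Finset.sum_congr rfl (fun (n : ℤ) _ => vdc_norm_ee (f n))]
      rw [Finset.sum_const, Int.card_Icc, nsmul_eq_mul, mul_one]
      have : ((b + 1 - a).toNat : ℤ) = b + 1 - a := Int.toNat_of_nonneg (by omega)
      have h' : (((b + 1 - a).toNat : ℤ) : ℝ) = ((b + 1 - a : ℤ) : ℝ) := by rw [this]
      push_cast at h'
      linarith
    have hlt : (b : ℝ) - a + 1 ≤ H := by
      have : b - a + 1 ≤ (H : ℤ) := by omega
      exact_mod_cast this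
    have hβP : L ^ β ≤ P := by
      apply Real.rpow_le_rpow_of_exponent_le hL
      linarith
    have hsqrt : 0 ≤ Real.sqrt (16 + 8 * C) := Real.sqrt_nonneg _
    calc ‖∑ n ∈ Finset.Icc a b, ee (f n)‖ ≤ P := by linarith
      _ = 1 * P := (one_mul _).symm
      _ ≤ (Real.sqrt (16 + 8 * C) + 1) * P := by
        gcongr
        linarith

theorem DTest.mono {q : ℕ} {β η C : ℝ} (h : DTest q β η C) (η' C' : ℝ) (hη : η' ≤ η) (hC : C ≤ C')
    (hC0 : 0 ≤ C) : DTest q β η' C' := by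
  intro f hf a b L lam Lam hab hL hbL h1 h2 h3 h4 h5
  refine (h f hf a b L lam Lam hab hL hbL h1 h2 h3 h4 h5).trans ?_
  have : L ^ (1 - η) ≤ L ^ (1 - η') := Real.rpow_le_rpow_of_exponent_le hL (by linarith)
  have h0 : 0 ≤ L ^ (1 - η) := by positivity
  have h0' : 0 ≤ C' := hC0.trans hC
  gcongr

/-- `β_q = 2^q / 64` for `q = 2, 3, 4, 5` and a common `η = 1/400` -/
theorem dt_all : ∃ C : ℝ, 0 < C ∧ ∀ q : ℕ, 2 ≤ q → q ≤ 5 → DTest q ((2 : ℝ) ^ q / 64) (1 / 400) C := by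
  obtain ⟨C3, h30, h3⟩ := dt_step 2 (1 / 16) (1 / 50) 100 (by norm_num) (by norm_num) (by norm_num)
    (by norm_num) (by norm_num) dt_two
  obtain ⟨C4, h40, h4⟩ := dt_step 3 (2 * (1 / 16)) (1 / 50 / 2) C3 (by norm_num) (by norm_num)
    (by norm_num) (by norm_num) h30 h3
  obtain ⟨C5, h50, h5⟩ := dt_step 4 (2 * (2 * (1 / 16))) (1 / 50 / 2 / 2) C4 (by norm_num)
    (by norm_num) (by norm_num) (by norm_num) h40 h4
  refine ⟨100 + C3 + C4 + C5, by positivity, ?_⟩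
  intro q hq hq'
  interval_cases q
  · rw [show (2 : ℝ) ^ 2 / 64 = 1 / 16 by norm_num]
    exact dt_two.mono _ _ (by norm_num) (by linarith) (by norm_num)
  · rw [show (2 : ℝ) ^ 3 / 64 = 2 * (1 / 16) by norm_num]
    exact h3.mono _ _ (by norm_num) (by linarith) h30.le
  · rw [show (2 : ℝ) ^ 4 / 64 = 2 * (2 * (1 / 16)) by norm_num]
    exact h4.mono _ _ (by norm_num) (by linarith) h40.le
  · rw [show (2 : ℝ) ^ 5 / 64 = 2 * (2 * (2 * (1 / 16))) by norm_num]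
    exact h5.mono _ _ (by norm_num) (by linarith) h50.le

end Pool.Agent.GaussMR

end

/-! ### from `Lib_MP_f1a94e_mr.Block` -/

section

/-!
# Piece BLOCK: a short block of a row containing a good point
-/

set_option autoImplicit false

namespace Pool.Agent.GaussMR

theorem block_conj_ee (t : ℝ) : (starRingEnd ℂ) (ee t) = ee (-t) := by
  unfold ee
  rw [← Complex.exp_conj]
  congr 1
  simp only [map_mul, Complex.conj_ofReal, Complex.conj_I, map_ofNat]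
  push_cast
  ring

theorem block_sign (s : Finset ℤ) (A : ℤ → ℝ) (c σ : ℝ) (hσ : σ = 1 ∨ σ = -1) :
    ‖∑ x ∈ s, ee (-c * A x)‖ = ‖∑ x ∈ s, ee ((σ * |c|) * A x)‖ := by
  have h : σ * |c| = -c ∨ σ * |c| = c := by
    rcases hσ with rfl | rfl <;> rcases abs_choice c with h | h <;> rw [h] <;> simp
  rcases h with h | h
  · rw [h]
  · rw [h, ← Complex.norm_conj, map_sum]
    congr 1
    apply Finset.sum_congr rfl
    intro x _
    rw [block_conj_ee]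
    congr 1
    ring

private theorem block_normsq {r : ℝ} {b : ℕ} {x0 x1 y : ℤ}
    (hx0 : (x0 : ℝ) ^ 2 + (b : ℝ) ^ 2 ≤ r ^ 2) (hx1 : (x1 : ℝ) ^ 2 + (b : ℝ) ^ 2 ≤ r ^ 2)
    (g1 : (x0 : ℝ) ≤ y) (g2 : (y : ℝ) ≤ x1) : ‖(y : ℂ) + b * Complex.I‖ ^ 2 ≤ r ^ 2 := by
  have e : ‖(y : ℂ) + b * Complex.I‖ ^ 2 = (y : ℝ) ^ 2 + (b : ℝ) ^ 2 := by
    rw [← Complex.normSq_eq_norm_sq, Complex.normSq_apply]
    simp only [Complex.add_re, Complex.intCast_re, Complex.mul_re, Complex.natCast_re,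
      Complex.I_re, Complex.natCast_im, Complex.I_im, Complex.add_im, Complex.intCast_im,
      Complex.mul_im]
    ring
  rw [e]
  rcases le_total 0 (y : ℝ) with g3 | g3
  · have h := pow_le_pow_left₀ g3 g2 2
    linarith only [h, hx1]
  · have h := pow_le_pow_left₀ (neg_nonneg.2 g3) (neg_le_neg g1) 2
    rw [neg_sq, neg_sq] at h
    linarith only [h, hx0]

/-- Put `κ = r^(-1/1000)`, `L = r^(1 - 1/125)` (`= κ^8 r`), `h(x) = Im (x + i b)^(-q)`. At the good point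
`|h(y)| ≥ κ / |y + i b|^q`. On the block `|h(x) - h(y)| ≤ L q / b^(q+1) ≤ |h(y)| / 2` by `row_lip`, since
`b ≥ κ r`, `|y + i b| ≤ r` (for `r` large; small `r` are absorbed in `C`). So `h` has constant sign and
`κ / (2 r^q) ≤ |h| ≤ 1 / (κ r)^q` on the block. Apply `dt_all` to
`f(x) = ∓ (j / (2π)) arctan (x / b)` (sign chosen so that the `q`-th derivative is positive; conjugate the
sum if necessary) with `lam = (|j| / 2π) (q-1)! κ / (2 r^q)`, `Lam = (|j| / 2π) (q-1)! / (κ r)^q`: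
`Lam / lam = 2 κ^(-q-1) ≤ L^(1/100)`, `lam ≥ L^(-7/4)` as `|j| ≥ r^(q - 17/10)`,
`Lam ≤ L^(-2^q/64)` as `|j| ≤ r^(q - 2^q/64 - 1/100)`. -/
theorem block : ∃ C : ℝ, 0 < C ∧ ∀ (q : ℕ), 2 ≤ q → q ≤ 5 → ∀ (r : ℝ) (j : ℤ) (b : ℕ) (x0 x1 y : ℤ),
    1 ≤ r → r ^ ((q : ℝ) - 17 / 10) ≤ |(j : ℝ)| → |(j : ℝ)| ≤ r ^ ((q : ℝ) - 2 ^ q / 64 - 1 / 100) →
    r ^ (1 - 1 / 1000 : ℝ) ≤ b → x0 ≤ x1 → (x1 : ℝ) - x0 ≤ r ^ (1 - 1 / 125 : ℝ) →
    (x0 : ℝ) ^ 2 + (b : ℝ) ^ 2 ≤ r ^ 2 → (x1 : ℝ) ^ 2 + (b : ℝ) ^ 2 ≤ r ^ 2 →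
    x0 ≤ y → y ≤ x1 →
    r ^ (-(1 / 1000 : ℝ)) ≤ |(((y : ℂ) + b * Complex.I) ^ (-(q : ℤ))).im| *
      ‖(y : ℂ) + b * Complex.I‖ ^ q →
    ‖∑ x ∈ Finset.Icc x0 x1, xi j ⟨x, b⟩‖ ≤ C * r ^ (1 - 1 / 125 - 1 / 500 : ℝ) := by
  obtain ⟨C0, hC0, hdt⟩ := dt_all
  obtain ⟨R0, hR01, hRpow⟩ : ∃ R0 : ℝ, 1 ≤ R0 ∧ R0 ^ (1 / 1000 : ℝ) = 10 := by
    refine ⟨10 ^ (1000 : ℝ), Real.one_le_rpow (by norm_num) (by norm_num), ?_⟩
    rw [← Real.rpow_mul (by norm_num)]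
    norm_num
  refine ⟨C0 + 2 * R0, by positivity, ?_⟩
  intro q hq hq' r j b x0 x1 y hr hj1 hj2 hb hx hL hx0 hx1 hy0 hy1 hgood
  have hr0 : 0 < r := by linarith
  have hbR : (0 : ℝ) < b := lt_of_lt_of_le (Real.rpow_pos_of_pos hr0 _) hb
  have hb0 : 0 < b := by exact_mod_cast hbR
  have hxx : (x0 : ℝ) ≤ x1 := by exact_mod_cast hx
  have hone : ∀ e : ℝ, 0 ≤ e → 1 ≤ r ^ e := fun e he => Real.one_le_rpow hr he
  have hpos : ∀ e : ℝ, 0 < r ^ e := fun e => Real.rpow_pos_of_pos hr0 e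
  by_cases hbig : R0 ≤ r
  · -- the main case
    have h10 : 10 ≤ r ^ (1 / 1000 : ℝ) := by
      rw [← hRpow]
      exact Real.rpow_le_rpow (by linarith) hbig (by norm_num)
    have hge : ∀ e : ℝ, 1 / 1000 ≤ e → 10 ≤ r ^ e := fun e he =>
      h10.trans (Real.rpow_le_rpow_of_exponent_le hr he)
    have hge2 : ∀ e : ℝ, 1 / 500 ≤ e → 100 ≤ r ^ e := by
      intro e he
      have h1 : r ^ (1 / 500 : ℝ) = r ^ (1 / 1000 : ℝ) * r ^ (1 / 1000 : ℝ) := by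
        rw [← Real.rpow_add hr0]
        norm_num
      have h2 : 100 ≤ r ^ (1 / 500 : ℝ) := by
        rw [h1]
        calc (100 : ℝ) = 10 * 10 := by norm_num
          _ ≤ r ^ (1 / 1000 : ℝ) * r ^ (1 / 1000 : ℝ) := mul_self_le_mul_self (by norm_num) h10
      exact h2.trans (Real.rpow_le_rpow_of_exponent_le hr he)
    set h : ℝ → ℝ := fun x => (((x : ℂ) + b * Complex.I) ^ (-(q : ℤ))).im with hh
    set c : ℝ := (j : ℝ) / (2 * Real.pi) with hc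
    have hqR : (q : ℝ) ≤ 5 := by exact_mod_cast hq'
    have hqR2 : (2 : ℝ) ≤ q := by exact_mod_cast hq
    have hyb : ‖(y : ℂ) + b * Complex.I‖ ≤ r := by
      have hsq : ‖(y : ℂ) + b * Complex.I‖ ^ 2 ≤ r ^ 2 := by
        have g1 : (x0 : ℝ) ≤ y := by exact_mod_cast hy0
        have g2 : (y : ℝ) ≤ x1 := by exact_mod_cast hy1
        exact block_normsq hx0 hx1 g1 g2
      exact le_of_sq_le_sq hsq hr0.le
    have hnb : ∀ x : ℝ, (b : ℝ) ≤ ‖(x : ℂ) + b * Complex.I‖ := by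
      intro x
      have := Complex.abs_im_le_norm ((x : ℂ) + b * Complex.I)
      simp at this
      exact this
    -- lower bound at the good point
    have hyc : ((y : ℝ) : ℂ) = (y : ℂ) := by push_cast; rfl
    have hhy : r ^ (-(1 / 1000 : ℝ)) * r ^ (-(q : ℝ)) ≤ |h y| := by
      have h1 : 0 < ‖(y : ℂ) + b * Complex.I‖ := by
        have := hnb y
        rw [hyc] at this
        exact lt_of_lt_of_le hbR this
      have h2 : ‖(y : ℂ) + b * Complex.I‖ ^ q ≤ r ^ q := pow_le_pow_left₀ (norm_nonneg _) hyb q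
      have h3 : r ^ (-(1 / 1000 : ℝ)) ≤ |h y| * r ^ q := by
        refine hgood.trans ?_
        rw [hh]
        simp only
        rw [hyc]
        exact mul_le_mul_of_nonneg_left h2 (abs_nonneg _)
      rw [Real.rpow_neg hr0.le (q : ℝ), Real.rpow_natCast, ← div_eq_mul_inv,
        div_le_iff₀ (by positivity)]
      exact h3
    -- variation on the block
    have hvar : ∀ x : ℝ, (x0 : ℝ) ≤ x → x ≤ x1 → |h x - h y| ≤ |h y| / 2 := by
      intro x hxa hxb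
      have g1 : (x0 : ℝ) ≤ y := by exact_mod_cast hy0
      have g2 : (y : ℝ) ≤ x1 := by exact_mod_cast hy1
      have h1 : |h x - h y| ≤ q / (b : ℝ) ^ (q + 1) * |x - y| := by
        have h0 := row_lip q (by omega) b hbR x y
        have hbc : (((b : ℕ) : ℝ) : ℂ) = ((b : ℕ) : ℂ) := by push_cast; rfl
        rw [hbc] at h0
        exact h0
      have h2 : |x - (y : ℝ)| ≤ r ^ (1 - 1 / 125 : ℝ) := by
        rw [abs_le]
        constructor <;> linarith only [hxa, hxb, g1, g2, hL]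
      have h3 : (r ^ (1 - 1 / 1000 : ℝ)) ^ (q + 1) ≤ (b : ℝ) ^ (q + 1) := by
        exact pow_le_pow_left₀ (hpos _).le hb (q + 1)
      have h4 : (r ^ (1 - 1 / 1000 : ℝ)) ^ (q + 1) = r ^ ((999 / 1000 : ℝ) * ((q : ℝ) + 1)) := by
        rw [← Real.rpow_natCast, ← Real.rpow_mul hr0.le]
        push_cast
        norm_num
      have h5 : (q : ℝ) / (b : ℝ) ^ (q + 1) * |x - (y : ℝ)| ≤
          q / r ^ ((999 / 1000 : ℝ) * ((q : ℝ) + 1)) * r ^ (1 - 1 / 125 : ℝ) := by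
        rw [← h4]
        exact mul_le_mul (div_le_div_of_nonneg_left (Nat.cast_nonneg q) (pow_pos (hpos _) _) h3) h2
          (abs_nonneg _) (div_nonneg (Nat.cast_nonneg q) (pow_pos (hpos _) _).le)
      have h6 : q / r ^ ((999 / 1000 : ℝ) * ((q : ℝ) + 1)) * r ^ (1 - 1 / 125 : ℝ) ≤
          (r ^ (-(1 / 1000 : ℝ)) * r ^ (-(q : ℝ))) / 2 := by
        rw [div_mul_eq_mul_div, div_le_iff₀ (hpos _)]
        have e1 : (r ^ (-(1 / 1000 : ℝ)) * r ^ (-(q : ℝ))) / 2 * r ^ ((999 / 1000 : ℝ) * ((q : ℝ) + 1)) =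
            r ^ ((6 - (q : ℝ)) / 1000) / 2 * r ^ (1 - 1 / 125 : ℝ) := by
          have : r ^ (-(1 / 1000 : ℝ)) * r ^ (-(q : ℝ)) * r ^ ((999 / 1000 : ℝ) * ((q : ℝ) + 1)) =
              r ^ ((6 - (q : ℝ)) / 1000) * r ^ (1 - 1 / 125 : ℝ) := by
            rw [← Real.rpow_add hr0, ← Real.rpow_add hr0, ← Real.rpow_add hr0]
            congr 1
            ring
          linear_combination this / 2
        rw [e1]
        have e2 : 10 ≤ r ^ ((6 - (q : ℝ)) / 1000) := hge _ (by linarith only [hqR])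
        have e3 := (hpos (1 - 1 / 125 : ℝ)).le
        exact mul_le_mul_of_nonneg_right (by linarith only [e2, hqR]) e3
      linarith only [h1, h5, h6, hhy]
    -- the sign
    obtain ⟨σ, hσ, hσ'⟩ : ∃ σ : ℝ, (σ = 1 ∨ σ = -1) ∧ σ * (-1) ^ q * h y = |h y| := by
      rcases neg_one_pow_eq_or ℝ q with hq1 | hq1 <;> rcases abs_choice (h y) with hy2 | hy2
      · exact ⟨1, Or.inl rfl, by rw [hq1, hy2]; ring⟩
      · exact ⟨-1, Or.inr rfl, by rw [hq1, hy2]; ring⟩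
      · exact ⟨-1, Or.inr rfl, by rw [hq1, hy2]; ring⟩
      · exact ⟨1, Or.inl rfl, by rw [hq1, hy2]; ring⟩
    have hw : |σ * (-1) ^ q| = 1 := by
      rw [abs_mul, abs_pow, abs_neg, abs_one, one_pow, mul_one]
      rcases hσ with rfl | rfl <;> simp
    have hlow : ∀ x : ℝ, (x0 : ℝ) ≤ x → x ≤ x1 →
        (r ^ (-(1 / 1000 : ℝ)) * r ^ (-(q : ℝ))) / 2 ≤ σ * (-1) ^ q * h x := by
      intro x hxa hxb
      have h1 := hvar x hxa hxb
      have h2 : |σ * (-1) ^ q * (h x - h y)| ≤ |h y| / 2 := by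
        rw [abs_mul, hw, one_mul]
        exact h1
      have h3 := (abs_le.mp h2).1
      have h4 : σ * (-1) ^ q * h x = |h y| + σ * (-1) ^ q * (h x - h y) := by
        rw [← hσ']
        ring
      rw [h4]
      linarith only [h3, hhy]
    have hup : ∀ x : ℝ, σ * (-1) ^ q * h x ≤ r ^ (-(q : ℝ) + (q : ℝ) / 1000) := by
      intro x
      have h1 : σ * (-1) ^ q * h x ≤ |h x| := by
        refine (le_abs_self _).trans ?_
        rw [abs_mul, hw, one_mul]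
      have h2 : |h x| ≤ ((b : ℝ) ^ q)⁻¹ := by
        rw [hh]
        refine (Complex.abs_im_le_norm _).trans ?_
        rw [zpow_neg, zpow_natCast, norm_inv, norm_pow]
        exact inv_anti₀ (pow_pos hbR q) (pow_le_pow_left₀ hbR.le (hnb x) q)
      have h3 : ((b : ℝ) ^ q)⁻¹ ≤ ((r ^ (1 - 1 / 1000 : ℝ)) ^ q)⁻¹ := by
        exact inv_anti₀ (pow_pos (hpos _) q) (pow_le_pow_left₀ (hpos _).le hb q)
      have h4 : ((r ^ (1 - 1 / 1000 : ℝ)) ^ q)⁻¹ = r ^ (-(q : ℝ) + (q : ℝ) / 1000) := by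
        rw [← Real.rpow_natCast, ← Real.rpow_mul hr0.le, ← Real.rpow_neg hr0.le]
        congr 1
        ring
      linarith only [h1, h2, h3, h4]
    -- rewrite the sum
    have hsum : ‖∑ x ∈ Finset.Icc x0 x1, xi j ⟨x, b⟩‖ =
        ‖∑ x ∈ Finset.Icc x0 x1, ee ((fun t : ℝ => (σ * |c|) * Real.arctan (t / b)) x)‖ := by
      rw [Finset.sum_congr rfl (fun x _ => xi_row j b hb0 x), ← Finset.mul_sum, norm_mul, norm_zpow,
        Complex.norm_I, one_zpow, one_mul]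
      exact block_sign (Finset.Icc x0 x1) (fun x : ℤ => Real.arctan ((x : ℝ) / b)) c σ hσ
    rw [hsum]
    set L : ℝ := r ^ (1 - 1 / 125 : ℝ) with hLdef
    have hLe : ∀ e : ℝ, L ^ e = r ^ ((124 / 125 : ℝ) * e) := by
      intro e
      rw [hLdef, ← Real.rpow_mul hr0.le]
      norm_num
    have hL1 : 1 ≤ L := hone _ (by norm_num)
    have hpi1 : 3 < Real.pi := Real.pi_gt_three
    have hpi2 : Real.pi < 4 := Real.pi_lt_four
    have hcabs : |c| = |(j : ℝ)| / (2 * Real.pi) := by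
      rw [hc, abs_div, abs_of_pos (show (0 : ℝ) < 2 * Real.pi by positivity)]
    have hfac1 : (1 : ℝ) ≤ ((q - 1).factorial : ℝ) := by
      exact_mod_cast Nat.factorial_pos _
    have hfac2 : ((q - 1).factorial : ℝ) ≤ 24 := by
      have : (q - 1).factorial ≤ (4).factorial := Nat.factorial_le (by omega)
      calc ((q - 1).factorial : ℝ) ≤ ((4).factorial : ℝ) := by exact_mod_cast this
        _ = 24 := by norm_num [Nat.factorial]
    set K : ℝ := |c| * ((q - 1).factorial : ℝ) with hK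
    have hK0 : 0 < K := by
      rw [hK, hcabs]
      have : 0 < |(j : ℝ)| := lt_of_lt_of_le (hpos _) hj1
      positivity
    have hKlow : r ^ ((q : ℝ) - 17 / 10) / 8 ≤ K := by
      rw [hK, hcabs]
      exact (div_le_div₀ (abs_nonneg _) hj1 (mul_pos two_pos Real.pi_pos)
        (by linarith only [hpi2])).trans (le_mul_of_one_le_right
          (div_nonneg (abs_nonneg _) (mul_pos two_pos Real.pi_pos).le) hfac1)
    have hKup : K ≤ 4 * r ^ ((q : ℝ) - 2 ^ q / 64 - 1 / 100) := by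
      rw [hK, hcabs]
      calc |(j : ℝ)| / (2 * Real.pi) * ((q - 1).factorial : ℝ)
          ≤ r ^ ((q : ℝ) - 2 ^ q / 64 - 1 / 100) / (2 * 3) * 24 :=
            mul_le_mul (div_le_div₀ (hpos _).le hj2 (by norm_num) (by linarith only [hpi1])) hfac2
              (zero_le_one.trans hfac1) (div_nonneg (hpos _).le (by norm_num))
        _ = 4 * r ^ ((q : ℝ) - 2 ^ q / 64 - 1 / 100) := by ring
    have hres := hdt q hq hq' (fun t : ℝ => (σ * |c|) * Real.arctan (t / b))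
      (contDiff_row (σ * |c|) b hbR) x0 x1 L (K * ((r ^ (-(1 / 1000 : ℝ)) * r ^ (-(q : ℝ))) / 2))
      (K * r ^ (-(q : ℝ) + (q : ℝ) / 1000)) hx hL1 hL ?_ ?_ ?_ ?_ ?_
    · refine hres.trans ?_
      rw [hLe]
      have h1 : r ^ ((124 / 125 : ℝ) * (1 - 1 / 400)) ≤ r ^ (1 - 1 / 125 - 1 / 500 : ℝ) :=
        Real.rpow_le_rpow_of_exponent_le hr (by norm_num)
      have h2 := (hpos (1 - 1 / 125 - 1 / 500 : ℝ)).le
      have h3 : C0 ≤ C0 + 2 * R0 := by linarith only [hR01]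
      exact (mul_le_mul_of_nonneg_left h1 hC0.le).trans (mul_le_mul_of_nonneg_right h3 h2)
    · -- `L ^ (-7/4) ≤ lam`
      rw [hLe]
      have h1 : r ^ ((q : ℝ) - 17 / 10) / 8 * ((r ^ (-(1 / 1000 : ℝ)) * r ^ (-(q : ℝ))) / 2) ≤
          K * ((r ^ (-(1 / 1000 : ℝ)) * r ^ (-(q : ℝ))) / 2) :=
        mul_le_mul_of_nonneg_right hKlow
          (div_nonneg (mul_nonneg (hpos _).le (hpos _).le) zero_le_two)
      refine le_trans ?_ h1
      have h2 : r ^ ((q : ℝ) - 17 / 10) / 8 * ((r ^ (-(1 / 1000 : ℝ)) * r ^ (-(q : ℝ))) / 2) =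
          r ^ ((124 / 125 : ℝ) * -(7 / 4)) * r ^ (35 / 1000 : ℝ) / 16 := by
        have : r ^ ((q : ℝ) - 17 / 10) * (r ^ (-(1 / 1000 : ℝ)) * r ^ (-(q : ℝ))) =
            r ^ ((124 / 125 : ℝ) * -(7 / 4)) * r ^ (35 / 1000 : ℝ) := by
          rw [← Real.rpow_add hr0, ← Real.rpow_add hr0, ← Real.rpow_add hr0]
          congr 1
          ring
        linear_combination this / 16
      rw [h2]
      have h3 := hge2 (35 / 1000 : ℝ) (by norm_num)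
      have h4 := hpos ((124 / 125 : ℝ) * -(7 / 4))
      rw [le_div_iff₀ (by norm_num)]
      exact mul_le_mul_of_nonneg_left (by linarith only [h3]) h4.le
    · -- `lam ≤ Lam`
      have h1 : (r ^ (-(1 / 1000 : ℝ)) * r ^ (-(q : ℝ))) / 2 ≤ r ^ (-(q : ℝ) + (q : ℝ) / 1000) := by
        rw [← Real.rpow_add hr0]
        have h2 : r ^ (-(1 / 1000 : ℝ) + -(q : ℝ)) ≤ r ^ (-(q : ℝ) + (q : ℝ) / 1000) :=
          Real.rpow_le_rpow_of_exponent_le hr (by linarith only [hqR2])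
        have h3 := hpos (-(1 / 1000 : ℝ) + -(q : ℝ))
        linarith only [h2, h3]
      exact mul_le_mul_of_nonneg_left h1 hK0.le
    · -- `Lam ≤ L ^ (-β)`
      rw [hLe]
      have h1 : K * r ^ (-(q : ℝ) + (q : ℝ) / 1000) ≤
          4 * r ^ ((q : ℝ) - 2 ^ q / 64 - 1 / 100) * r ^ (-(q : ℝ) + (q : ℝ) / 1000) :=
        mul_le_mul_of_nonneg_right hKup (hpos _).le
      refine h1.trans ?_
      have hβ : (0 : ℝ) ≤ (2 : ℝ) ^ q / 64 := by positivity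
      have h2 : r ^ ((124 / 125 : ℝ) * -((2 : ℝ) ^ q / 64)) =
          r ^ ((q : ℝ) - 2 ^ q / 64 - 1 / 100) * r ^ (-(q : ℝ) + (q : ℝ) / 1000) *
            r ^ ((10 - (q : ℝ)) / 1000 + (2 : ℝ) ^ q / 64 / 125) := by
        rw [← Real.rpow_add hr0, ← Real.rpow_add hr0]
        congr 1
        ring
      rw [h2]
      have h3 : 100 ≤ r ^ ((10 - (q : ℝ)) / 1000 + (2 : ℝ) ^ q / 64 / 125) := by
        apply hge2
        have : (0 : ℝ) ≤ (2 : ℝ) ^ q / 64 / 125 := by positivity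
        linarith only [this, hqR]
      have h4 := hpos ((q : ℝ) - 2 ^ q / 64 - 1 / 100)
      have h5 := hpos (-(q : ℝ) + (q : ℝ) / 1000)
      calc 4 * r ^ ((q : ℝ) - 2 ^ q / 64 - 1 / 100) * r ^ (-(q : ℝ) + (q : ℝ) / 1000) =
            r ^ ((q : ℝ) - 2 ^ q / 64 - 1 / 100) * r ^ (-(q : ℝ) + (q : ℝ) / 1000) * 4 := by ring
        _ ≤ _ := mul_le_mul_of_nonneg_left (by linarith only [h3]) (mul_nonneg h4.le h5.le)
    · -- `Lam ≤ lam * L ^ (1/100)`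
      rw [hLe, mul_assoc K]
      have h1 : r ^ (-(q : ℝ) + (q : ℝ) / 1000) ≤
          r ^ (-(1 / 1000 : ℝ)) * r ^ (-(q : ℝ)) / 2 * r ^ ((124 / 125 : ℝ) * (1 / 100)) := by
        have h2 : r ^ (-(1 / 1000 : ℝ)) * r ^ (-(q : ℝ)) / 2 * r ^ ((124 / 125 : ℝ) * (1 / 100)) =
            r ^ (-(q : ℝ) + (q : ℝ) / 1000) * r ^ ((892 / 100 - (q : ℝ)) / 1000) / 2 := by
          have : r ^ (-(1 / 1000 : ℝ)) * r ^ (-(q : ℝ)) * r ^ ((124 / 125 : ℝ) * (1 / 100)) =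
              r ^ (-(q : ℝ) + (q : ℝ) / 1000) * r ^ ((892 / 100 - (q : ℝ)) / 1000) := by
            rw [← Real.rpow_add hr0, ← Real.rpow_add hr0, ← Real.rpow_add hr0]
            congr 1
            ring
          linear_combination this / 2
        rw [h2]
        have h3 := hge2 ((892 / 100 - (q : ℝ)) / 1000) (by linarith only [hqR])
        have h4 := hpos (-(q : ℝ) + (q : ℝ) / 1000)
        rw [le_div_iff₀ (by norm_num)]
        exact mul_le_mul_of_nonneg_left (by linarith only [h3]) h4.le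
      exact mul_le_mul_of_nonneg_left h1 hK0.le
    · -- the derivative
      intro x hxm
      rw [iteratedDeriv_row q (by omega) (σ * |c|) b hbR x]
      have h1 := hlow x hxm.1 hxm.2
      have h2 := hup x
      have h3 : σ * |c| * ((-1) ^ q * ((q - 1).factorial : ℝ) *
          (((x : ℂ) + b * Complex.I) ^ (-(q : ℤ))).im) = K * (σ * (-1) ^ q * h x) := by
        rw [hK, hh]
        ring
      have h4 : (((b : ℕ) : ℝ) : ℂ) = ((b : ℕ) : ℂ) := by push_cast; rfl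
      rw [h4, h3]
      exact ⟨mul_le_mul_of_nonneg_left h1 hK0.le, mul_le_mul_of_nonneg_left h2 hK0.le⟩
  · -- small `r`
    push Not at hbig
    have hcard : ‖∑ x ∈ Finset.Icc x0 x1, xi j ⟨x, b⟩‖ ≤ (x1 : ℝ) - x0 + 1 := by
      refine (norm_sum_le _ _).trans ?_
      have hne : ∀ x : ℤ, (⟨x, b⟩ : G) ≠ 0 := by
        intro x h0
        have := congrArg Zsqrtd.im h0
        simp at this
        omega
      rw [Finset.sum_congr rfl (fun (x : ℤ) _ => norm_xi j (hne x))]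
      rw [Finset.sum_const, Int.card_Icc, nsmul_eq_mul, mul_one]
      have h1 : ((x1 + 1 - x0).toNat : ℤ) = x1 + 1 - x0 := Int.toNat_of_nonneg (by omega)
      have h' : (((x1 + 1 - x0).toNat : ℤ) : ℝ) = ((x1 + 1 - x0 : ℤ) : ℝ) := by rw [h1]
      push_cast at h'
      linarith only [h']
    have h1 : r ^ (1 - 1 / 125 : ℝ) ≤ r := by
      nth_rewrite 2 [← Real.rpow_one r]
      exact Real.rpow_le_rpow_of_exponent_le hr (by norm_num)
    have h2 := hone (1 - 1 / 125 - 1 / 500 : ℝ) (by norm_num)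
    have h3 : ‖∑ x ∈ Finset.Icc x0 x1, xi j ⟨x, b⟩‖ ≤ 2 * R0 := by
      linarith only [hcard, hL, h1, hbig, hR01]
    calc ‖∑ x ∈ Finset.Icc x0 x1, xi j ⟨x, b⟩‖ ≤ 2 * R0 := h3
      _ ≤ C0 + 2 * R0 := by linarith only [hC0]
      _ = (C0 + 2 * R0) * 1 := (mul_one _).symm
      _ ≤ (C0 + 2 * R0) * r ^ (1 - 1 / 125 - 1 / 500 : ℝ) :=
          mul_le_mul_of_nonneg_left h2 (by linarith only [hC0, hR01])

end Pool.Agent.GaussMR

end

/-! ### from `Lib_MP_f1a94e_ecm.DTwoG` -/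

section

/-!
# Piece M-DT: derivative tests of arbitrary order with small parameters
-/

set_option autoImplicit false

namespace Pool.Agent.ECM

open Finset Pool.Agent.GaussMR
open scoped ContDiff

/-- Copy the proof of `dt_two` (Lib_MP_f1a94e_mr/DTTwo.lean): `L Lam lam^(-1/2) ≤ L lam^(1/2) L^ρ ≤ L^(1 - β/2 + β/4)`, `lam^(-1/2) ≤ L^(7/8) ≤ L^(1 - β/4)`,
`L Lam ≤ L^(1 - β)`. -/
theorem dtr_two (β : ℝ) (hβ : 0 < β) (hβ' : β ≤ 1 / 4) : DTR 2 β (β / 4) (β / 4) 100 := by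
  intro f hf a b L lam Lam hab hL hbL h1 h2 h3 h4 h5
  have hL0 : 0 < L := by linarith
  have hlam : 0 < lam := lt_of_lt_of_le (Real.rpow_pos_of_pos hL0 _) h1
  have hLam : 0 < Lam := lt_of_lt_of_le hlam h2
  have hLam1 : Lam ≤ 1 := h3.trans (Real.rpow_le_one_of_one_le_of_nonpos hL (by linarith))
  have hsd : ∀ n : ℤ, a ≤ n → n + 1 < b → lam ≤ f ((n : ℤ) + 2 : ℤ) - 2 * f ((n + 1 : ℤ)) + f n ∧
      f ((n : ℤ) + 2 : ℤ) - 2 * f ((n + 1 : ℤ)) + f n ≤ Lam := by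
    intro n hn hn'
    obtain ⟨x, hx, hx'⟩ := dt_second_diff f hf n
    have hn1 : (a : ℝ) ≤ n := by exact_mod_cast hn
    have hn2 : (n : ℝ) + 2 ≤ b := by
      have : n + 2 ≤ b := by omega
      exact_mod_cast this
    push_cast
    rw [hx']
    exact h5 x ⟨hn1.trans hx.1, hx.2.trans hn2⟩
  have hmain := second_deriv (fun n : ℤ => f n) a b hab lam Lam hlam h2 hLam1
    (fun n hn hn' => (hsd n hn hn').1) (fun n hn hn' => (hsd n hn hn').2)
  refine hmain.trans ?_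
  have hs : 0 < Real.sqrt lam := Real.sqrt_pos.mpr hlam
  have hba : (0 : ℝ) ≤ (b : ℝ) - a := by
    have : (a : ℝ) ≤ b := by exact_mod_cast hab
    linarith
  have e1 : ((b : ℝ) - a) * Lam ≤ L * L ^ (-β) := by gcongr
  have e1' : L * L ^ (-β) = L ^ (1 - β) := by
    nth_rewrite 1 [← Real.rpow_one L]
    rw [← Real.rpow_add hL0]
    ring_nf
  have e2 : 1 / Real.sqrt lam ≤ L ^ (7 / 8 : ℝ) := by
    rw [one_div, inv_le_comm₀ hs (Real.rpow_pos_of_pos hL0 _), ← Real.rpow_neg hL0.le]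
    apply Real.le_sqrt_of_sq_le
    rw [← Real.rpow_natCast, ← Real.rpow_mul hL0.le]
    have e7 : (-(7 / 8) : ℝ) * ((2 : ℕ) : ℝ) = -(7 / 4) := by norm_num
    rw [e7]
    exact h1
  have e3 : ((b : ℝ) - a) * Lam * (1 / Real.sqrt lam) ≤ L ^ (1 - β / 4) := by
    have s1 : Real.sqrt lam ≤ L ^ (-(β / 2)) := by
      apply Real.sqrt_le_iff.mpr
      refine ⟨(Real.rpow_pos_of_pos hL0 _).le, ?_⟩
      rw [← Real.rpow_natCast, ← Real.rpow_mul hL0.le]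
      refine (h2.trans h3).trans (le_of_eq ?_)
      congr 1
      push_cast
      ring
    have s2 : Lam * (1 / Real.sqrt lam) ≤ Real.sqrt lam * L ^ (β / 4) := by
      rw [mul_one_div, div_le_iff₀ hs]
      calc Lam ≤ lam * L ^ (β / 4) := h4
        _ = Real.sqrt lam * L ^ (β / 4) * Real.sqrt lam := by
          rw [mul_right_comm, Real.mul_self_sqrt hlam.le]
    calc ((b : ℝ) - a) * Lam * (1 / Real.sqrt lam) = ((b : ℝ) - a) * (Lam * (1 / Real.sqrt lam)) := by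
          ring
      _ ≤ L * (L ^ (-(β / 2)) * L ^ (β / 4)) := by
          apply mul_le_mul hbL (s2.trans _) (by positivity) hL0.le
          gcongr
      _ = L ^ (1 + (-(β / 2)) + β / 4) := by
          rw [Real.rpow_add hL0, Real.rpow_add hL0, Real.rpow_one]
          ring
      _ = L ^ (1 - β / 4) := by
          congr 1
          ring
  have g1 : L ^ (1 - β) ≤ L ^ (1 - β / 4) := by
    apply Real.rpow_le_rpow_of_exponent_le hL
    linarith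
  have g2 : L ^ (7 / 8 : ℝ) ≤ L ^ (1 - β / 4) := by
    apply Real.rpow_le_rpow_of_exponent_le hL
    linarith
  have g3 : (1 : ℝ) ≤ L ^ (1 - β / 4) := Real.one_le_rpow hL (by linarith)
  have e5 : 20 * (((b : ℝ) - a) * Lam + 1) * (1 / Real.sqrt lam + 1) =
      20 * (((b : ℝ) - a) * Lam * (1 / Real.sqrt lam) + ((b : ℝ) - a) * Lam +
        1 / Real.sqrt lam + 1) := by ring
  rw [e5]
  rw [e1'] at e1
  linarith [e1, e2, e3, g1, g2, g3]

/-- Copy the proof of `dt_step` (Lib_MP_f1a94e_mr/DT.lean) word by word: the ratio `Lam / lam` is not changed by the differencing. -/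
theorem dtr_step (q : ℕ) (β ρ η C : ℝ) (hβ : 0 < β) (hβ' : β ≤ 1 / 4) (hρ : 0 < ρ) (hη : 0 < η) (hη' : η ≤ β)
    (hC : 0 < C) (h : DTR q β ρ η C) : ∃ C' : ℝ, 0 < C' ∧ DTR (q + 1) (2 * β) ρ (η / 2) C' := by
  refine ⟨Real.sqrt (16 + 8 * C) + 1, by positivity, ?_⟩
  intro f hf a b L lam Lam hab hL hbL h1 h2 h3 h4 h5
  have hL0 : 0 < L := by linarith
  have hlam : 0 < lam := lt_of_lt_of_le (Real.rpow_pos_of_pos hL0 _) h1
  have hLam : 0 < Lam := lt_of_lt_of_le hlam h2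
  set P : ℝ := L ^ (1 - η / 2) with hP
  have hP0 : 0 < P := Real.rpow_pos_of_pos hL0 _
  have hLβ : 1 ≤ L ^ β := Real.one_le_rpow hL hβ.le
  set H : ℕ := ⌊L ^ β⌋₊ with hH
  have hH1 : 1 ≤ H := Nat.le_floor (by simpa using hLβ)
  have hHle : (H : ℝ) ≤ L ^ β := Nat.floor_le (by positivity)
  have hHge : L ^ β / 2 ≤ H := by
    have hlt : L ^ β < (H : ℝ) + 1 := Nat.lt_floor_add_one _
    have : (1 : ℝ) ≤ H := by exact_mod_cast hH1
    linarith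
  have hba : (0 : ℝ) ≤ (b : ℝ) - a := by
    have : (a : ℝ) ≤ b := by exact_mod_cast hab
    linarith
  have hsq : P ^ 2 = L ^ (2 - η) := by
    rw [hP, ← Real.rpow_natCast, ← Real.rpow_mul hL0.le]
    norm_num
    ring_nf
  by_cases hcase : (H : ℤ) ≤ b - a + 1
  · -- the main case
    have hM : ∀ k : ℕ, 1 ≤ k → k < H →
        ‖∑ n ∈ Finset.Icc a (b - k), ee (f ((n + k : ℤ)) - f n)‖ ≤ C * L ^ (1 - η) := by
      intro k hk1 hkH
      have hk0 : (0 : ℝ) < k := by exact_mod_cast hk1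
      have hkβ : (k : ℝ) ≤ L ^ β := le_trans (by exact_mod_cast hkH.le) hHle
      have hg : ContDiff ℝ ∞ (fun t => f (t + k) - f t) := (dt_contDiff_shift f hf k).sub hf
      have := h (fun t => f (t + k) - f t) hg a (b - k) L (k * lam) (k * Lam) (by omega) hL
        (by push_cast; linarith) ?_ (by gcongr) ?_ ?_ ?_
      · convert this using 4
        push_cast
        rfl
      · refine h1.trans ?_
        have : (1 : ℝ) ≤ k := by exact_mod_cast hk1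
        nlinarith
      · calc (k : ℝ) * Lam ≤ L ^ β * L ^ (-(2 * β)) := by gcongr
          _ = L ^ (-β) := by
            rw [← Real.rpow_add hL0]
            ring_nf
      · calc (k : ℝ) * Lam ≤ k * (lam * L ^ ρ) := by gcongr
          _ = k * lam * L ^ ρ := by ring
      · intro x hx
        obtain ⟨y, hy, hy'⟩ := dt_iter_diff f hf q k hk0 x
        rw [hy']
        have hmem : y ∈ Set.Icc (a : ℝ) b := by
          refine ⟨hx.1.trans hy.1, hy.2.trans ?_⟩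
          have := hx.2
          push_cast at this
          linarith
        obtain ⟨g1, g2⟩ := h5 y hmem
        exact ⟨by gcongr, by gcongr⟩
    have hv := vdC (fun n : ℤ => f n) a b hab H hH1 hcase (C * L ^ (1 - η)) (by positivity) hM
    have hN : (b : ℝ) - a + 1 ≤ 2 * L := by linarith
    have hN0 : (0 : ℝ) ≤ (b : ℝ) - a + 1 := by linarith
    have hH0 : (0 : ℝ) < H := by exact_mod_cast hH1
    have t1 : 2 * ((b : ℝ) - a + 1) ^ 2 / H ≤ 16 * P ^ 2 := by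
      rw [div_le_iff₀ hH0]
      have s1 : L ^ 2 ≤ P ^ 2 * L ^ β := by
        rw [hsq, ← Real.rpow_add hL0, ← Real.rpow_natCast]
        apply Real.rpow_le_rpow_of_exponent_le hL
        push_cast
        linarith
      calc 2 * ((b : ℝ) - a + 1) ^ 2 ≤ 2 * (2 * L) ^ 2 := by gcongr
        _ = 8 * L ^ 2 := by ring
        _ ≤ 8 * (P ^ 2 * L ^ β) := by gcongr
        _ = 16 * P ^ 2 * (L ^ β / 2) := by ring
        _ ≤ 16 * P ^ 2 * H := by gcongr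
    have t2 : 4 * ((b : ℝ) - a + 1) * (C * L ^ (1 - η)) ≤ 8 * C * P ^ 2 := by
      have s2 : L * L ^ (1 - η) = P ^ 2 := by
        rw [hsq]
        nth_rewrite 1 [← Real.rpow_one L]
        rw [← Real.rpow_add hL0]
        ring_nf
      calc 4 * ((b : ℝ) - a + 1) * (C * L ^ (1 - η)) ≤ 4 * (2 * L) * (C * L ^ (1 - η)) := by gcongr
        _ = 8 * C * (L * L ^ (1 - η)) := by ring
        _ = 8 * C * P ^ 2 := by rw [s2]
    have t3 : ‖∑ n ∈ Finset.Icc a b, ee (f n)‖ ^ 2 ≤ (16 + 8 * C) * P ^ 2 := by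
      refine hv.trans ?_
      linarith
    have t4 : ‖∑ n ∈ Finset.Icc a b, ee (f n)‖ ≤ Real.sqrt ((16 + 8 * C) * P ^ 2) :=
      Real.le_sqrt_of_sq_le t3
    rw [Real.sqrt_mul (by positivity), Real.sqrt_sq hP0.le] at t4
    linarith
  · -- the trivial bound
    have hcard : ‖∑ n ∈ Finset.Icc a b, ee (f n)‖ ≤ (b : ℝ) - a + 1 := by
      refine (norm_sum_le _ _).trans ?_
      rw [Finset.sum_congr rfl (fun (n : ℤ) _ => vdc_norm_ee (f n))]
      rw [Finset.sum_const, Int.card_Icc, nsmul_eq_mul, mul_one]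
      have : ((b + 1 - a).toNat : ℤ) = b + 1 - a := Int.toNat_of_nonneg (by omega)
      have h' : (((b + 1 - a).toNat : ℤ) : ℝ) = ((b + 1 - a : ℤ) : ℝ) := by rw [this]
      push_cast at h'
      linarith
    have hlt : (b : ℝ) - a + 1 ≤ H := by
      have : b - a + 1 ≤ (H : ℤ) := by omega
      exact_mod_cast this
    have hβP : L ^ β ≤ P := by
      apply Real.rpow_le_rpow_of_exponent_le hL
      linarith
    have hsqrt : 0 ≤ Real.sqrt (16 + 8 * C) := Real.sqrt_nonneg _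
    calc ‖∑ n ∈ Finset.Icc a b, ee (f n)‖ ≤ P := by linarith
      _ = 1 * P := (one_mul _).symm
      _ ≤ (Real.sqrt (16 + 8 * C) + 1) * P := by
        gcongr
        linarith

theorem DTR.mono {q : ℕ} {β ρ η C : ℝ} (h : DTR q β ρ η C) (η' C' : ℝ) (hη : η' ≤ η) (hC : C ≤ C')
    (hC0 : 0 ≤ C) : DTR q β ρ η' C' := by
  intro f hf a b L lam Lam hab hL hbL h1 h2 h3 h4 h5
  refine (h f hf a b L lam Lam hab hL hbL h1 h2 h3 h4 h5).trans ?_
  have : L ^ (1 - η) ≤ L ^ (1 - η') := Real.rpow_le_rpow_of_exponent_le hL (by linarith)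
  have h0 : 0 ≤ L ^ (1 - η) := by positivity
  have h0' : 0 ≤ C' := hC0.trans hC
  gcongr

/-- the tests of order `n + 2`, by induction -/
theorem dtr_iter (Q : ℕ) (β : ℝ) (hβ : 0 < β) (hQ : (2 : ℝ) ^ Q * β ≤ 1 / 4) (n : ℕ) (hn : n ≤ Q) :
    ∃ C : ℝ, 0 < C ∧ DTR (n + 2) ((2 : ℝ) ^ n * β) (β / 4) (β / 4 / (2 : ℝ) ^ n) C := by
  have hpow : ∀ m : ℕ, m ≤ Q → (2 : ℝ) ^ m * β ≤ 1 / 4 := by
    intro m hm
    refine le_trans (mul_le_mul_of_nonneg_right ?_ hβ.le) hQ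
    exact pow_le_pow_right₀ (by norm_num) hm
  induction n with
  | zero =>
    have hb := hpow 0 (Nat.zero_le _)
    rw [pow_zero, one_mul] at hb
    refine ⟨100, by norm_num, ?_⟩
    rw [pow_zero, one_mul, div_one]
    exact dtr_two β hβ hb
  | succ n ih =>
    obtain ⟨C, hC, h⟩ := ih (by omega)
    have h1 : (1 : ℝ) ≤ 2 ^ n := one_le_pow₀ (by norm_num)
    have h2 : β / 4 / (2 : ℝ) ^ n ≤ (2 : ℝ) ^ n * β := by
      have h3 : β / 4 / (2 : ℝ) ^ n ≤ β := by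
        rw [div_le_iff₀ (by positivity)]
        nlinarith
      nlinarith
    obtain ⟨C', hC', h'⟩ := dtr_step (n + 2) ((2 : ℝ) ^ n * β) (β / 4) (β / 4 / (2 : ℝ) ^ n) C
      (by positivity) (hpow n (by omega)) (by positivity) (by positivity) h2 hC h
    refine ⟨C', hC', ?_⟩
    have e1 : 2 * ((2 : ℝ) ^ n * β) = (2 : ℝ) ^ (n + 1) * β := by ring
    have e2 : β / 4 / (2 : ℝ) ^ n / 2 = β / 4 / (2 : ℝ) ^ (n + 1) := by
      rw [pow_succ]
      field_simp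
    rw [e1, e2] at h'
    exact h'

/-- Start with `β = 1 / (2 * 2 ^ Q)`, `dtr_two`, apply `dtr_step` (`2 ^ (q - 2) β ≤ 1 / 4` as long as `q + 1 ≤ Q`); then replace `η_q`, `C_q` by the minimum and the maximum over `q ≤ Q` (`DTR` is monotone in `η` and `C`, as in `DTest.mono`). -/
theorem dtr_all (Q : ℕ) : ∃ β ρ η C : ℝ, 0 < β ∧ (2 : ℝ) ^ Q * β ≤ 1 / 2 ∧ 0 < ρ ∧ ρ ≤ β ∧ 0 < η ∧ η ≤ 1 / 2 ∧ 0 < C ∧
    ∀ q : ℕ, 2 ≤ q → q ≤ Q → DTR q ((2 : ℝ) ^ (q - 2) * β) ρ η C := by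
  have hp : (1 : ℝ) ≤ 2 ^ Q := one_le_pow₀ (by norm_num)
  have hQ4 : (2 : ℝ) ^ Q * (1 / (4 * 2 ^ Q)) ≤ 1 / 4 := by
    apply le_of_eq
    field_simp
  set β : ℝ := 1 / (4 * 2 ^ Q) with hβdef
  have hβ : 0 < β := by positivity
  have hβ4 : β ≤ 1 / 4 := by
    rw [hβdef]
    apply one_div_le_one_div_of_le (by norm_num)
    linarith
  have hex : ∀ n : ℕ, ∃ C : ℝ, 0 < C ∧ (n ≤ Q →
      DTR (n + 2) ((2 : ℝ) ^ n * β) (β / 4) (β / 4 / (2 : ℝ) ^ n) C) := by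
    intro n
    by_cases hn : n ≤ Q
    · obtain ⟨C, hC, h⟩ := dtr_iter Q β hβ hQ4 n hn
      exact ⟨C, hC, fun _ => h⟩
    · exact ⟨1, one_pos, fun h => absurd h hn⟩
  choose C hC0 hC using hex
  refine ⟨β, β / 4, β / 4 / 2 ^ Q, ∑ n ∈ Finset.range (Q + 1), C n, hβ, by linarith, by positivity,
    by linarith, by positivity, ?_, ?_, ?_⟩
  · rw [div_le_iff₀ (by positivity)]
    nlinarith
  · exact Finset.sum_pos (fun n _ => hC0 n) ⟨0, Finset.mem_range.2 (Nat.succ_pos _)⟩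
  · intro q hq hqQ
    obtain ⟨n, rfl⟩ : ∃ n, q = n + 2 := ⟨q - 2, by omega⟩
    have hn : n ≤ Q := by omega
    have e : n + 2 - 2 = n := by omega
    rw [e]
    refine (hC n hn).mono _ _ ?_ ?_ (hC0 n).le
    · apply div_le_div_of_nonneg_left (by positivity) (by positivity)
      exact pow_le_pow_right₀ (by norm_num) hn
    · exact Finset.single_le_sum (f := C) (fun i _ => (hC0 i).le)
        (Finset.mem_range.2 (by omega))

end Pool.Agent.ECM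

end

/-! ### from `Lib_MP_92ef0c_spi.ZSum` -/

section

/-!
# Piece I-ZSUM: zeta sums
-/

set_option autoImplicit false

namespace Pool.Agent.SplI

open Finset

private theorem zsum_pow (τ x : ℝ) (hx : 0 < x) :
    (x : ℂ) ^ ((τ : ℂ) * Complex.I) = Complex.exp (((τ * Real.log x : ℝ) : ℂ) * Complex.I) := by
  rw [Complex.cpow_def_of_ne_zero (by exact_mod_cast hx.ne'), ← Complex.ofReal_log hx.le]
  congr 1
  push_cast
  ring

private theorem zsum_ne (τ : ℝ) : (1 : ℂ) + (τ : ℂ) * Complex.I ≠ 0 := by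
  intro h
  have := congrArg Complex.re h
  simp at this

private theorem zsum_deriv (τ x : ℝ) (hx : 0 < x) :
    HasDerivAt (fun y : ℝ => (y : ℂ) ^ (1 + (τ : ℂ) * Complex.I) / (1 + (τ : ℂ) * Complex.I))
      (Complex.exp (((τ * Real.log x : ℝ) : ℂ) * Complex.I)) x := by
  have h := hasDerivAt_ofReal_cpow_const' hx.ne' (r := (τ : ℂ) * Complex.I) (by
    intro h
    have := congrArg Complex.re h
    simp at this)
  rw [zsum_pow τ x hx, add_comm ((τ : ℂ) * Complex.I) 1] at h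
  exact h

private theorem zsum_lip (τ x y : ℝ) (hx : 0 < x) (hy : 0 < y) :
    ‖(y : ℂ) ^ (1 + (τ : ℂ) * Complex.I) / (1 + (τ : ℂ) * Complex.I) -
      (x : ℂ) ^ (1 + (τ : ℂ) * Complex.I) / (1 + (τ : ℂ) * Complex.I)‖ ≤ |y - x| := by
  have h := Convex.norm_image_sub_le_of_norm_hasDerivWithin_le
    (f := fun y : ℝ => (y : ℂ) ^ (1 + (τ : ℂ) * Complex.I) / (1 + (τ : ℂ) * Complex.I))
    (f' := fun x => Complex.exp (((τ * Real.log x : ℝ) : ℂ) * Complex.I)) (s := Set.Ioi 0) (C := 1)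
    (x := x) (y := y)
    (fun z hz => (zsum_deriv τ z hz).hasDerivWithinAt)
    (fun z _ => (Complex.norm_exp_ofReal_mul_I _).le) (convex_Ioi 0) hx hy
  rw [one_mul, Real.norm_eq_abs] at h
  exact h

private theorem zsum_exp_sub (a b : ℝ) :
    ‖Complex.exp ((a : ℂ) * Complex.I) - Complex.exp ((b : ℂ) * Complex.I)‖ ≤ |a - b| := by
  have h : Complex.exp ((a : ℂ) * Complex.I) - Complex.exp ((b : ℂ) * Complex.I) =
      Complex.exp ((b : ℂ) * Complex.I) * (Complex.exp (Complex.I * ((a - b : ℝ) : ℂ)) - 1) := by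
    rw [mul_sub, ← Complex.exp_add, mul_one]
    congr 2
    push_cast
    ring
  rw [h, norm_mul, Complex.norm_exp_ofReal_mul_I, one_mul]
  exact Real.norm_exp_I_mul_ofReal_sub_one_le

private theorem zsum_et (τ : ℝ) (n : ℕ) : et (-τ) n = Complex.exp (((τ * Real.log n : ℝ) : ℂ) * Complex.I) := by
  unfold et
  congr 1
  push_cast
  ring

private theorem zsum_step (τ : ℝ) (n : ℕ) (hn : 1 ≤ n) :
    ‖et (-τ) (n + 1) - (((n + 1 : ℕ) : ℝ) : ℂ) ^ (1 + (τ : ℂ) * Complex.I) / (1 + (τ : ℂ) * Complex.I) +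
      ((n : ℝ) : ℂ) ^ (1 + (τ : ℂ) * Complex.I) / (1 + (τ : ℂ) * Complex.I)‖ ≤ |τ| / n := by
  have hn0 : (0 : ℝ) < n := by exact_mod_cast hn
  have hder : ∀ z ∈ Set.Icc (n : ℝ) ((n + 1 : ℕ) : ℝ), HasDerivWithinAt
      (fun y : ℝ => (y : ℂ) ^ (1 + (τ : ℂ) * Complex.I) / (1 + (τ : ℂ) * Complex.I) -
        (y : ℂ) * et (-τ) (n + 1))
      (Complex.exp (((τ * Real.log z : ℝ) : ℂ) * Complex.I) - 1 * et (-τ) (n + 1))
      (Set.Icc (n : ℝ) ((n + 1 : ℕ) : ℝ)) z := by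
    intro z hz
    have hz0 : 0 < z := lt_of_lt_of_le hn0 hz.1
    exact ((zsum_deriv τ z hz0).sub ((Complex.ofRealCLM.hasDerivAt).mul_const _)).hasDerivWithinAt
  have h := Convex.norm_image_sub_le_of_norm_hasDerivWithin_le (C := |τ| / n)
    (x := (n : ℝ)) (y := ((n + 1 : ℕ) : ℝ)) hder ?_ (convex_Icc _ _)
    ⟨le_refl _, by push_cast; linarith⟩ ⟨by push_cast; linarith, le_refl _⟩
  · have e1 : ‖((n + 1 : ℕ) : ℝ) - (n : ℝ)‖ = 1 := by
      push_cast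
      rw [add_sub_cancel_left, norm_one]
    rw [e1, mul_one] at h
    rw [← norm_neg]
    refine le_trans (le_of_eq ?_) h
    congr 1
    push_cast
    ring
  · intro z hz
    have hz0 : 0 < z := lt_of_lt_of_le hn0 hz.1
    rw [one_mul, zsum_et]
    refine (zsum_exp_sub _ _).trans ?_
    rw [← mul_sub, abs_mul, div_eq_mul_inv]
    apply mul_le_mul_of_nonneg_left _ (abs_nonneg _)
    have h2 : z ≤ ((n + 1 : ℕ) : ℝ) := hz.2
    rw [abs_sub_comm, abs_of_nonneg (sub_nonneg.2 (Real.log_le_log hz0 h2))]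
    rw [← Real.log_div (by positivity) hz0.ne']
    have h3 := Real.log_le_sub_one_of_pos (x := ((n + 1 : ℕ) : ℝ) / z) (by positivity)
    have h4 : ((n + 1 : ℕ) : ℝ) / z ≤ ((n + 1 : ℕ) : ℝ) / n := by
      have := hz.1
      gcongr
    have h5 : ((n + 1 : ℕ) : ℝ) / n - 1 = (n : ℝ)⁻¹ := by
      push_cast
      field_simp
      ring
    linarith

private theorem zsum_tele (τ : ℝ) (a b : ℕ) (ha : 1 ≤ a) (hab : a ≤ b) :
    ‖∑ n ∈ Ioc a b, et (-τ) n - ((b : ℝ) : ℂ) ^ (1 + (τ : ℂ) * Complex.I) / (1 + (τ : ℂ) * Complex.I) +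
      ((a : ℝ) : ℂ) ^ (1 + (τ : ℂ) * Complex.I) / (1 + (τ : ℂ) * Complex.I)‖ ≤ ((b : ℝ) - a) * (|τ| / a) := by
  induction b, hab using Nat.le_induction with
  | base => simp
  | succ b hb ih =>
    rw [Finset.sum_Ioc_succ_top hb]
    have h1 := zsum_step τ b (ha.trans hb)
    have h2 : |τ| / b ≤ |τ| / a := by
      have ha0 : (0 : ℝ) < a := by exact_mod_cast ha
      have : (a : ℝ) ≤ b := by exact_mod_cast hb
      gcongr
    have e : (∑ n ∈ Ioc a b, et (-τ) n + et (-τ) (b + 1) -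
        (((b + 1 : ℕ) : ℝ) : ℂ) ^ (1 + (τ : ℂ) * Complex.I) / (1 + (τ : ℂ) * Complex.I) +
        ((a : ℝ) : ℂ) ^ (1 + (τ : ℂ) * Complex.I) / (1 + (τ : ℂ) * Complex.I)) =
        (∑ n ∈ Ioc a b, et (-τ) n - ((b : ℝ) : ℂ) ^ (1 + (τ : ℂ) * Complex.I) / (1 + (τ : ℂ) * Complex.I) +
        ((a : ℝ) : ℂ) ^ (1 + (τ : ℂ) * Complex.I) / (1 + (τ : ℂ) * Complex.I)) +
        (et (-τ) (b + 1) - (((b + 1 : ℕ) : ℝ) : ℂ) ^ (1 + (τ : ℂ) * Complex.I) / (1 + (τ : ℂ) * Complex.I) +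
      ((b : ℝ) : ℂ) ^ (1 + (τ : ℂ) * Complex.I) / (1 + (τ : ℂ) * Complex.I)) := by ring
    rw [e]
    refine (norm_add_le _ _).trans ((add_le_add ih (h1.trans h2)).trans (le_of_eq ?_))
    push_cast
    ring

/-- `|∑_(u < n ≤ v) F n - ∫_u^v F| ≤ |F u| + |F v| + ∫_u^v |F'|`, `F x = x^(i τ)`, `|F'| = |τ| / x`. -/
theorem zs_small : ∃ C : ℝ, 0 < C ∧ ∀ τ u v : ℝ, 1 ≤ u → u ≤ v → v ≤ 2 * u →
    ‖∑ n ∈ Ioc ⌊u⌋₊ ⌊v⌋₊, et (-τ) n - ((v : ℂ) ^ (1 + (τ : ℂ) * Complex.I) - (u : ℂ) ^ (1 + (τ : ℂ) * Complex.I)) / (1 + (τ : ℂ) * Complex.I)‖ ≤ C * (1 + |τ|) := by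
  refine ⟨3, by norm_num, ?_⟩
  intro τ u v hu huv hv
  have hu0 : (0 : ℝ) < u := by linarith
  have hv0 : (0 : ℝ) < v := by linarith
  have ha : 1 ≤ ⌊u⌋₊ := Nat.le_floor (by simpa using hu)
  have hab : ⌊u⌋₊ ≤ ⌊v⌋₊ := Nat.floor_le_floor huv
  have ha0 : (1 : ℝ) ≤ (⌊u⌋₊ : ℝ) := by exact_mod_cast ha
  have hb0 : (1 : ℝ) ≤ (⌊v⌋₊ : ℝ) := by exact_mod_cast ha.trans hab
  have h1 := zsum_tele τ _ _ ha hab
  have f1 : (⌊u⌋₊ : ℝ) ≤ u := Nat.floor_le hu0.le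
  have f2 : u < (⌊u⌋₊ : ℝ) + 1 := Nat.lt_floor_add_one u
  have f3 : (⌊v⌋₊ : ℝ) ≤ v := Nat.floor_le hv0.le
  have f4 : v < (⌊v⌋₊ : ℝ) + 1 := Nat.lt_floor_add_one v
  have h2 := zsum_lip τ (⌊u⌋₊ : ℝ) u (by linarith) hu0
  have h3 := zsum_lip τ v (⌊v⌋₊ : ℝ) hv0 (by linarith)
  have h2' : |u - (⌊u⌋₊ : ℝ)| ≤ 1 := by rw [abs_le]; constructor <;> linarith
  have h3' : |(⌊v⌋₊ : ℝ) - v| ≤ 1 := by rw [abs_le]; constructor <;> linarith
  have h4 : ((⌊v⌋₊ : ℝ) - (⌊u⌋₊ : ℝ)) * (|τ| / (⌊u⌋₊ : ℝ)) ≤ 3 * |τ| := by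
    rw [mul_div_assoc', div_le_iff₀ (by linarith)]
    have h5 : (⌊v⌋₊ : ℝ) - (⌊u⌋₊ : ℝ) ≤ 3 * (⌊u⌋₊ : ℝ) := by linarith
    calc ((⌊v⌋₊ : ℝ) - (⌊u⌋₊ : ℝ)) * |τ| ≤ (3 * (⌊u⌋₊ : ℝ)) * |τ| :=
          mul_le_mul_of_nonneg_right h5 (abs_nonneg _)
      _ = _ := by ring
  have e : ∑ n ∈ Ioc ⌊u⌋₊ ⌊v⌋₊, et (-τ) n - ((v : ℂ) ^ (1 + (τ : ℂ) * Complex.I) - (u : ℂ) ^ (1 + (τ : ℂ) * Complex.I)) / (1 + (τ : ℂ) * Complex.I) =
      (∑ n ∈ Ioc ⌊u⌋₊ ⌊v⌋₊, et (-τ) n - ((⌊v⌋₊ : ℝ) : ℂ) ^ (1 + (τ : ℂ) * Complex.I) / (1 + (τ : ℂ) * Complex.I) +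
      ((⌊u⌋₊ : ℝ) : ℂ) ^ (1 + (τ : ℂ) * Complex.I) / (1 + (τ : ℂ) * Complex.I)) +
      ((u : ℂ) ^ (1 + (τ : ℂ) * Complex.I) / (1 + (τ : ℂ) * Complex.I) -
        ((⌊u⌋₊ : ℝ) : ℂ) ^ (1 + (τ : ℂ) * Complex.I) / (1 + (τ : ℂ) * Complex.I)) +
      (((⌊v⌋₊ : ℝ) : ℂ) ^ (1 + (τ : ℂ) * Complex.I) / (1 + (τ : ℂ) * Complex.I) -
        (v : ℂ) ^ (1 + (τ : ℂ) * Complex.I) / (1 + (τ : ℂ) * Complex.I)) := by
    rw [sub_div]
    ring
  rw [e]
  refine (norm_add₃_le).trans ?_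
  have h6 := abs_nonneg τ
  linarith

/-- a smooth positive function equal to `x` for `x ≥ 1/2` -/
private noncomputable def zsum_phi (x : ℝ) : ℝ :=
  x * Real.smoothTransition (4 * x - 1) + (1 - Real.smoothTransition (4 * x - 1))

private theorem zsum_phi_pos (x : ℝ) : 0 < zsum_phi x := by
  unfold zsum_phi
  have h0 := Real.smoothTransition.nonneg (4 * x - 1)
  have h1 := Real.smoothTransition.le_one (4 * x - 1)
  rcases le_or_gt (4 * x - 1) 0 with h | h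
  · rw [Real.smoothTransition.zero_of_nonpos h]
    norm_num
  · have hx : 0 < x := by linarith
    rcases eq_or_lt_of_le h0 with h2 | h2
    · rw [← h2]
      norm_num
    · have := mul_pos hx h2
      linarith

private theorem zsum_phi_eq (x : ℝ) (hx : 1 / 2 ≤ x) : zsum_phi x = x := by
  unfold zsum_phi
  rw [Real.smoothTransition.one_of_one_le (by linarith)]
  ring

open scoped ContDiff in
private theorem zsum_phi_cd : ContDiff ℝ ∞ zsum_phi := by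
  unfold zsum_phi
  have h : ContDiff ℝ ∞ (fun x : ℝ => Real.smoothTransition (4 * x - 1)) :=
    Real.smoothTransition.contDiff.comp ((contDiff_const.mul contDiff_id).sub contDiff_const)
  exact (contDiff_id.mul h).add (contDiff_const.sub h)

open scoped ContDiff in
private theorem zsum_f_cd (c : ℝ) : ContDiff ℝ ∞ (fun x : ℝ => c * Real.log (zsum_phi x)) :=
  contDiff_const.mul (zsum_phi_cd.log (fun x => (zsum_phi_pos x).ne'))

private theorem zsum_iter (c : ℝ) (q : ℕ) (x : ℝ) (hx : 1 / 2 < x) :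
    iteratedDeriv (q + 1) (fun x : ℝ => c * Real.log (zsum_phi x)) x =
      c * ((-1) ^ q * (q.factorial : ℝ) * (x ^ (q + 1))⁻¹) := by
  have h1 : (fun x : ℝ => c * Real.log (zsum_phi x)) =ᶠ[nhds x] (fun x : ℝ => c * Real.log x) := by
    filter_upwards [Ioi_mem_nhds hx] with y hy
    rw [zsum_phi_eq y (le_of_lt hy)]
  rw [h1.iteratedDeriv_eq, iteratedDeriv_const_mul_field, iteratedDeriv_succ', Real.deriv_log',
    iteratedDeriv_eq_iterate, iter_deriv_inv]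
  have hx0 : x ≠ 0 := by linarith
  congr 2
  rw [show (-1 - (q : ℤ)) = -((q + 1 : ℕ) : ℤ) by push_cast; ring, zpow_neg, zpow_natCast]

private theorem zsum_main (q : ℕ) (β ρ η C : ℝ) (hq : 2 ≤ q) (hC : 0 < C) (h : ECM.DTR q β ρ η C)
    (τ u v : ℝ) (hu : 1 ≤ u) (huv : u ≤ v) (hv : v ≤ 2 * u)
    (h1 : u ^ (-(7 / 4 : ℝ)) ≤ |τ| / (2 * Real.pi) * ((q - 1).factorial : ℝ) * ((2 * u) ^ q)⁻¹)
    (h3 : |τ| / (2 * Real.pi) * ((q - 1).factorial : ℝ) * (u ^ q)⁻¹ ≤ u ^ (-β))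
    (h4 : (2 : ℝ) ^ q ≤ u ^ ρ) :
    ‖∑ n ∈ Ioc ⌊u⌋₊ ⌊v⌋₊, et (-τ) n‖ ≤ C * u ^ (1 - η) := by
  have hu0 : (0 : ℝ) < u := by linarith
  have hv0 : (0 : ℝ) < v := by linarith
  have ha : 1 ≤ ⌊u⌋₊ := Nat.le_floor (by simpa using hu)
  have f1 : (⌊u⌋₊ : ℝ) ≤ u := Nat.floor_le hu0.le
  have f2 : u < (⌊u⌋₊ : ℝ) + 1 := Nat.lt_floor_add_one u
  have f3 : (⌊v⌋₊ : ℝ) ≤ v := Nat.floor_le hv0.le
  rcases le_or_gt (⌊v⌋₊) (⌊u⌋₊) with hle | hlt
  · rw [Finset.Ioc_eq_empty (by omega), Finset.sum_empty, norm_zero]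
    positivity
  · -- the function
    obtain ⟨k, rfl⟩ : ∃ k, q = k + 1 := ⟨q - 1, by omega⟩
    set c : ℝ := τ / (2 * Real.pi) with hc
    have hcabs : |c| = |τ| / (2 * Real.pi) := by
      rw [hc, abs_div, abs_of_pos (show (0 : ℝ) < 2 * Real.pi by positivity)]
    have hs1 : ((-1 : ℝ) ^ k = 1 ∨ (-1 : ℝ) ^ k = -1) := neg_one_pow_eq_or ℝ k
    have hs2 : (-1 : ℝ) ^ k * (-1 : ℝ) ^ k = 1 := by
      rcases hs1 with h | h <;> rw [h] <;> norm_num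
    have hsum : ‖∑ n ∈ Ioc ⌊u⌋₊ ⌊v⌋₊, et (-τ) n‖ =
        ‖∑ t ∈ Finset.Icc ((⌊u⌋₊ : ℤ) + 1) (⌊v⌋₊ : ℤ),
          GaussMR.ee ((fun x : ℝ => ((-1 : ℝ) ^ k * |c|) * Real.log (zsum_phi x)) t)‖ := by
      have e1 : ∑ n ∈ Ioc ⌊u⌋₊ ⌊v⌋₊, et (-τ) n =
          ∑ t ∈ Finset.Icc ((⌊u⌋₊ : ℤ) + 1) (⌊v⌋₊ : ℤ), GaussMR.ee (-(-c) * Real.log (zsum_phi t)) := by
        symm
        apply Finset.sum_nbij' (fun t : ℤ => t.toNat) (fun n : ℕ => (n : ℤ))
        · intro t ht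
          rw [Finset.mem_Icc] at ht
          rw [Finset.mem_Ioc]
          omega
        · intro n hn
          rw [Finset.mem_Ioc] at hn
          rw [Finset.mem_Icc]
          omega
        · intro t ht
          rw [Finset.mem_Icc] at ht
          omega
        · intro n hn
          omega
        · intro t ht
          rw [Finset.mem_Icc] at ht
          have ht1 : (1 : ℝ) ≤ (t : ℝ) := by
            have : (1 : ℤ) ≤ t := by omega
            exact_mod_cast this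
          have ht2 : ((t.toNat : ℕ) : ℝ) = (t : ℝ) := by
            have : ((t.toNat : ℕ) : ℤ) = t := by omega
            exact_mod_cast this
          rw [zsum_et, zsum_phi_eq _ (by linarith), ht2]
          unfold GaussMR.ee
          congr 1
          rw [hc]
          have hpi : (Real.pi : ℂ) ≠ 0 := by exact_mod_cast Real.pi_ne_zero
          push_cast
          field_simp
      rw [e1]
      have e2 := GaussMR.block_sign (Finset.Icc ((⌊u⌋₊ : ℤ) + 1) (⌊v⌋₊ : ℤ))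
        (fun t : ℤ => Real.log (zsum_phi t)) (-c) ((-1 : ℝ) ^ k) hs1
      rw [abs_neg] at e2
      exact e2
    rw [hsum]
    have hlt' : (⌊u⌋₊ : ℝ) + 1 ≤ (⌊v⌋₊ : ℝ) := by exact_mod_cast hlt
    have hfac : (0 : ℝ) < (k.factorial : ℝ) := by exact_mod_cast Nat.factorial_pos k
    have hkk : k + 1 - 1 = k := by omega
    rw [hkk, ← hcabs] at h1 h3
    refine h _ (zsum_f_cd _) _ _ u (|c| * (k.factorial : ℝ) * ((2 * u) ^ (k + 1))⁻¹)
      (|c| * (k.factorial : ℝ) * (u ^ (k + 1))⁻¹) (by omega) hu ?_ h1 ?_ h3 ?_ ?_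
    · push_cast
      linarith
    · have : u ^ (k + 1) ≤ (2 * u) ^ (k + 1) := by gcongr; linarith
      gcongr
    · have e3 : |c| * (k.factorial : ℝ) * ((2 * u) ^ (k + 1))⁻¹ * u ^ ρ =
          |c| * (k.factorial : ℝ) * (u ^ (k + 1))⁻¹ * (u ^ ρ / (2 : ℝ) ^ (k + 1)) := by
        rw [mul_pow]
        field_simp
      rw [e3]
      apply le_mul_of_one_le_right (by positivity)
      rw [le_div_iff₀ (by positivity), one_mul]
      exact h4
    · intro x hx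
      have hx1 : u ≤ x := by
        have := hx.1
        push_cast at this
        linarith
      have hx2 : x ≤ 2 * u := by
        have := hx.2
        push_cast at this
        linarith
      rw [zsum_iter _ k x (by linarith)]
      have e4 : (-1 : ℝ) ^ k * |c| * ((-1) ^ k * (k.factorial : ℝ) * (x ^ (k + 1))⁻¹) =
          |c| * (k.factorial : ℝ) * (x ^ (k + 1))⁻¹ := by
        linear_combination (|c| * (k.factorial : ℝ) * (x ^ (k + 1))⁻¹) * hs2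
      rw [e4]
      have hx0 : 0 < x := by linarith
      constructor
      · gcongr
      · gcongr

/-- Derivative tests `dtr_all` (Lib_MP_f1a94e_ecm/DTwoG.lean) with `Q ≥ A + 2`, `f x = (|τ| / 2π) log x` extended smoothly (or a smooth function equal to it on `[u, v]`; see how Lib_MP_f1a94e_ecm/BlockG.lean does it), `L = max 1 u`: `|f^(q)| = (|τ|/2π) (q-1)! x^(-q)` on `[u, 2u]`, ratio at most `2^q ≤ L^ρ` for large `u`; window of `q`:
`C u^(q - 7/4) ≤ |τ| ≤ c u^(q - 2^(q-2) β)`, these windows for `2 ≤ q ≤ Q` cover `u^(1/2) ≤ |τ| ≤ u^A` for large `u` (`2^(q-2) β ≤ 1/8 < 3/4`); small `u`: constant. The sign of `f^(q)` can be changed by complex conjugation. `‖∑‖ ≤ C u^(1 - η)`. -/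
theorem zs_large (A : ℝ) (hA : 1 ≤ A) : ∃ η C : ℝ, 0 < η ∧ η ≤ 1 / 2 ∧ 0 < C ∧ ∀ τ u v : ℝ, 1 ≤ u → u ≤ v → v ≤ 2 * u →
    u ^ (1 / 2 : ℝ) ≤ |τ| → |τ| ≤ u ^ A → ‖∑ n ∈ Ioc ⌊u⌋₊ ⌊v⌋₊, et (-τ) n‖ ≤ C * u ^ (1 - η) := by
  obtain ⟨Q, hQ⟩ : ∃ Q : ℕ, Q = ⌈A⌉₊ + 2 := ⟨_, rfl⟩
  obtain ⟨β, ρ, η, C, hβ, hβQ, hρ, hρβ, hη, hη', hC, hdt⟩ := ECM.dtr_all Q
  -- constants
  obtain ⟨K, hKdef⟩ : ∃ K : ℝ, K = 8 * 2 ^ Q * (Q.factorial : ℝ) := ⟨_, rfl⟩
  have hQf : (1 : ℝ) ≤ (Q.factorial : ℝ) := by exact_mod_cast Nat.factorial_pos Q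
  have h2Q : (1 : ℝ) ≤ 2 ^ Q := one_le_pow₀ (by norm_num)
  have hK8 : 8 ≤ K := by rw [hKdef]; nlinarith
  have hK2 : (2 : ℝ) ^ Q ≤ K := by rw [hKdef]; nlinarith
  have hKf : (Q.factorial : ℝ) ≤ K := by rw [hKdef]; nlinarith
  obtain ⟨σ, hσdef⟩ : ∃ σ : ℝ, σ = min ρ (1 / 8) := ⟨_, rfl⟩
  have hσ0 : 0 < σ := by rw [hσdef]; exact lt_min hρ (by norm_num)
  have hσ1 : σ ≤ 1 / 8 := by rw [hσdef]; exact min_le_right _ _
  have hσ2 : σ ≤ ρ := by rw [hσdef]; exact min_le_left _ _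
  obtain ⟨R0, hR01, hRpow⟩ : ∃ R0 : ℝ, 1 < R0 ∧ R0 ^ σ = K := by
    refine ⟨K ^ (1 / σ), Real.one_lt_rpow (by linarith) (by positivity), ?_⟩
    rw [← Real.rpow_mul (by linarith), one_div_mul_cancel hσ0.ne', Real.rpow_one]
  refine ⟨η, C + 2 * R0, hη, hη', by linarith, ?_⟩
  intro τ u v hu huv hv ht1 ht2
  have hu0 : (0 : ℝ) < u := by linarith
  have hv0 : (0 : ℝ) < v := by linarith
  have hpos : ∀ e : ℝ, 0 < u ^ e := fun e => Real.rpow_pos_of_pos hu0 e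
  by_cases hbig : R0 ≤ u
  · -- large u
    have hKu : K ≤ u ^ σ := by
      rw [← hRpow]
      exact Real.rpow_le_rpow (by linarith) hbig hσ0.le
    have hge : ∀ e : ℝ, σ ≤ e → K ≤ u ^ e := fun e he =>
      hKu.trans (Real.rpow_le_rpow_of_exponent_le hu he)
    have hu1 : 1 < u := lt_of_lt_of_le hR01 hbig
    have htpos : 0 < |τ| := lt_of_lt_of_le (hpos _) ht1
    obtain ⟨θ, hθdef⟩ : ∃ θ : ℝ, θ = Real.logb u |τ| := ⟨_, rfl⟩
    have hθ : |τ| = u ^ θ := by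
      rw [hθdef, Real.rpow_logb hu0 hu1.ne' htpos]
    have hθ1 : 1 / 2 ≤ θ := by
      rw [hθ] at ht1
      exact (Real.rpow_le_rpow_left_iff hu1).1 ht1
    have hθ2 : θ ≤ A := by
      rw [hθ] at ht2
      exact (Real.rpow_le_rpow_left_iff hu1).1 ht2
    obtain ⟨q, hqdef⟩ : ∃ q : ℕ, q = max 2 ⌈θ + 1 / 4⌉₊ := ⟨_, rfl⟩
    have hq2 : 2 ≤ q := by rw [hqdef]; exact le_max_left _ _
    have hq3 : θ + 1 / 4 ≤ q := by
      rw [hqdef]
      refine (Nat.le_ceil _).trans ?_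
      exact_mod_cast le_max_right _ _
    have hq4 : (q : ℝ) - 3 / 2 ≤ θ := by
      rcases le_total ⌈θ + 1 / 4⌉₊ 2 with h | h
      · have : q = 2 := by rw [hqdef]; exact max_eq_left h
        rw [this]
        push_cast
        linarith
      · have h5 : q = ⌈θ + 1 / 4⌉₊ := by rw [hqdef]; exact max_eq_right h
        have h6 := Nat.ceil_lt_add_one (show 0 ≤ θ + 1 / 4 by linarith)
        rw [← h5] at h6
        linarith
    have hqQ : q ≤ Q := by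
      rw [hqdef, hQ]
      apply max_le (by omega)
      apply Nat.ceil_le.2
      push_cast
      have := Nat.le_ceil A
      linarith
    have hfq : ((q - 1).factorial : ℝ) ≤ (Q.factorial : ℝ) := by
      exact_mod_cast Nat.factorial_le (by omega)
    have hfq1 : (1 : ℝ) ≤ ((q - 1).factorial : ℝ) := by exact_mod_cast Nat.factorial_pos _
    have h2q : (2 : ℝ) ^ q ≤ 2 ^ Q := pow_le_pow_right₀ (by norm_num) hqQ
    have hβq : (2 : ℝ) ^ (q - 2) * β ≤ 1 / 8 := by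
      have h7 : (2 : ℝ) ^ (q - 2) * 4 = 2 ^ q := by
        have : (2 : ℝ) ^ q = 2 ^ (q - 2) * 2 ^ 2 := by
          rw [← pow_add]
          congr 1
          omega
        rw [this]
        norm_num
      have h8 : (2 : ℝ) ^ q * β ≤ 2 ^ Q * β := mul_le_mul_of_nonneg_right h2q hβ.le
      nlinarith
    have hpi1 : 3 < Real.pi := Real.pi_gt_three
    have hpi2 : Real.pi < 4 := Real.pi_lt_four
    have huq : u ^ q = u ^ (q : ℝ) := (Real.rpow_natCast u q).symm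
    refine (zsum_main q _ ρ η C hq2 hC (hdt q hq2 hqQ) τ u v hu huv hv ?_ ?_ ?_).trans ?_
    · rw [mul_pow, huq, hθ, mul_inv, ← Real.rpow_neg hu0.le]
      have e1 : u ^ θ / (2 * Real.pi) * ((q - 1).factorial : ℝ) * (((2 : ℝ) ^ q)⁻¹ * u ^ (-(q : ℝ))) =
          u ^ (θ - q + 7 / 4) * u ^ (-(7 / 4) : ℝ) * (((q - 1).factorial : ℝ) / (2 * Real.pi * (2 : ℝ) ^ q)) := by
        rw [← Real.rpow_add hu0]
        have : u ^ (θ - q + 7 / 4 + -(7 / 4)) = u ^ θ * u ^ (-(q : ℝ)) := by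
          rw [← Real.rpow_add hu0]
          congr 1
          ring
        rw [this]
        field_simp
      rw [e1]
      have e2 : K ≤ u ^ (θ - q + 7 / 4) := hge _ (by linarith)
      have e3 : 1 ≤ u ^ (θ - q + 7 / 4) * (((q - 1).factorial : ℝ) / (2 * Real.pi * (2 : ℝ) ^ q)) := by
        rw [mul_div_assoc', le_div_iff₀ (by positivity), one_mul]
        have e4 : 2 * Real.pi * (2 : ℝ) ^ q ≤ K := by
          rw [hKdef]
          have : 2 * Real.pi ≤ 8 := by linarith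
          calc 2 * Real.pi * (2 : ℝ) ^ q ≤ 8 * 2 ^ Q := by gcongr
            _ ≤ 8 * 2 ^ Q * (Q.factorial : ℝ) := le_mul_of_one_le_right (by positivity) hQf
        calc 2 * Real.pi * (2 : ℝ) ^ q ≤ u ^ (θ - q + 7 / 4) := e4.trans e2
          _ ≤ u ^ (θ - q + 7 / 4) * ((q - 1).factorial : ℝ) :=
            le_mul_of_one_le_right (hpos _).le hfq1
      have e5 := hpos (-(7 / 4) : ℝ)
      calc u ^ (-(7 / 4) : ℝ) ≤ u ^ (-(7 / 4) : ℝ) * (u ^ (θ - q + 7 / 4) * (((q - 1).factorial : ℝ) / (2 * Real.pi * (2 : ℝ) ^ q))) :=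
            le_mul_of_one_le_right e5.le e3
        _ = _ := by ring
    · rw [huq, hθ, ← Real.rpow_neg hu0.le]
      have e1 : u ^ θ / (2 * Real.pi) * ((q - 1).factorial : ℝ) * u ^ (-(q : ℝ)) =
          u ^ (θ - q) * ((q - 1).factorial : ℝ) / (2 * Real.pi) := by
        rw [sub_eq_add_neg, Real.rpow_add hu0]
        ring
      rw [e1, div_le_iff₀ (by positivity)]
      have e2 : ((q - 1).factorial : ℝ) ≤ u ^ (1 / 8 : ℝ) := hfq.trans (hKf.trans (hge _ hσ1))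
      calc u ^ (θ - q) * ((q - 1).factorial : ℝ) ≤ u ^ (θ - q) * u ^ (1 / 8 : ℝ) := by
            have := hpos (θ - q)
            gcongr
        _ = u ^ (θ - q + 1 / 8) := by rw [← Real.rpow_add hu0]
        _ ≤ u ^ (-((2 : ℝ) ^ (q - 2) * β)) := Real.rpow_le_rpow_of_exponent_le hu (by linarith)
        _ ≤ u ^ (-((2 : ℝ) ^ (q - 2) * β)) * (2 * Real.pi) :=
            le_mul_of_one_le_right (hpos _).le (by linarith)
    · exact h2q.trans (hK2.trans (hge _ hσ2))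
    · apply mul_le_mul_of_nonneg_right _ (hpos _).le
      linarith
  · -- small u
    have hlt : u < R0 := not_le.1 hbig
    have f2 : u < (⌊u⌋₊ : ℝ) + 1 := Nat.lt_floor_add_one u
    have f3 : (⌊v⌋₊ : ℝ) ≤ v := Nat.floor_le hv0.le
    have h1 : ‖∑ n ∈ Ioc ⌊u⌋₊ ⌊v⌋₊, et (-τ) n‖ ≤ ((⌊v⌋₊ - ⌊u⌋₊ : ℕ) : ℝ) := by
      refine (norm_sum_le _ _).trans ?_
      rw [Finset.sum_congr rfl (fun n _ => norm_et (-τ) n)]
      simp
    have h2 : ((⌊v⌋₊ - ⌊u⌋₊ : ℕ) : ℝ) ≤ 2 * R0 := by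
      rw [Nat.cast_sub (Nat.floor_le_floor huv)]
      linarith
    have h3 : (1 : ℝ) ≤ u ^ (1 - η) := Real.one_le_rpow hu (by linarith)
    have h4 : 2 * R0 ≤ (C + 2 * R0) * u ^ (1 - η) := by
      calc 2 * R0 ≤ C + 2 * R0 := by linarith
        _ ≤ (C + 2 * R0) * u ^ (1 - η) := le_mul_of_one_le_right (by linarith) h3
    linarith

end Pool.Agent.SplI

end

/-! ### from `Lib_MP_92ef0c_spi.ZSumB` -/

section

/-!
# Piece I-ZSUMB: zeta sums, consequences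
-/

set_option autoImplicit false

namespace Pool.Agent.SplI

open Finset MeasureTheory

theorem zb_norm (τ x : ℝ) (hx : 0 < x) : ‖(x : ℂ) ^ (1 + (τ : ℂ) * Complex.I)‖ = x := by
  rw [Complex.norm_cpow_eq_rpow_re_of_pos hx]
  simp

theorem zb_den (τ : ℝ) : 1 ≤ ‖(1 + (τ : ℂ) * Complex.I)‖ := by
  have := Complex.abs_re_le_norm (1 + (τ : ℂ) * Complex.I)
  simpa using this

theorem zb_den2 (τ : ℝ) : |τ| ≤ ‖(1 + (τ : ℂ) * Complex.I)‖ := by
  have := Complex.abs_im_le_norm (1 + (τ : ℂ) * Complex.I)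
  simpa using this

/-- blocks -/
theorem zb_blk (A : ℝ) (hA : 1 ≤ A) : ∃ η C : ℝ, 0 < η ∧ η ≤ 1 / 2 ∧ 0 < C ∧ ∀ τ u v : ℝ, 1 ≤ u → u ≤ v → v ≤ 2 * u →
    |τ| ≤ u ^ A → ‖∑ n ∈ Ioc ⌊u⌋₊ ⌊v⌋₊, et (-τ) n - ((v : ℂ) ^ (1 + (τ : ℂ) * Complex.I) - (u : ℂ) ^ (1 + (τ : ℂ) * Complex.I)) / (1 + (τ : ℂ) * Complex.I)‖ ≤ C * u ^ (1 - η) := by
  obtain ⟨C1, hC1, h1⟩ := zs_small
  obtain ⟨η, C2, hη, hη2, hC2, h2⟩ := zs_large A hA
  refine ⟨η, 2 * C1 + C2 + 3, hη, hη2, by positivity, fun τ u v hu huv hv hτ => ?_⟩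
  have hu0 : (0:ℝ) < u := by linarith
  have hhalf : u ^ (1/2 : ℝ) ≤ u ^ (1 - η) := Real.rpow_le_rpow_of_exponent_le hu (by linarith)
  have hpos : 0 < u ^ (1 - η) := Real.rpow_pos_of_pos hu0 _
  have hpos2 : 0 < u ^ (1/2 : ℝ) := Real.rpow_pos_of_pos hu0 _
  rcases le_total (|τ|) (u ^ (1/2 : ℝ)) with h | h
  · have h0 := h1 τ u v hu huv hv
    have h3 : (1 : ℝ) ≤ u ^ (1/2:ℝ) := Real.one_le_rpow hu (by norm_num)
    calc _ ≤ C1 * (1 + |τ|) := h0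
      _ ≤ C1 * (2 * u ^ (1 - η)) := by gcongr; linarith
      _ ≤ _ := by nlinarith
  · have h0 := h2 τ u v hu huv hv h hτ
    have hm : ‖((v : ℂ) ^ (1 + (τ : ℂ) * Complex.I) - (u : ℂ) ^ (1 + (τ : ℂ) * Complex.I)) / (1 + (τ : ℂ) * Complex.I)‖ ≤ 3 * u ^ (1/2:ℝ) := by
      rw [norm_div]
      have hd := (h.trans (zb_den2 τ))
      rw [div_le_iff₀ (by linarith)]
      have hn : ‖(v : ℂ) ^ (1 + (τ : ℂ) * Complex.I) - (u : ℂ) ^ (1 + (τ : ℂ) * Complex.I)‖ ≤ v + u := by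
        refine (norm_sub_le _ _).trans ?_
        rw [zb_norm τ v (by linarith), zb_norm τ u hu0]
      have hsq : u ^ (1/2:ℝ) * u ^ (1/2:ℝ) = u := by
        rw [← Real.rpow_add hu0]; norm_num
      nlinarith
    calc _ ≤ ‖∑ n ∈ Ioc ⌊u⌋₊ ⌊v⌋₊, et (-τ) n‖ + ‖((v : ℂ) ^ (1 + (τ : ℂ) * Complex.I) - (u : ℂ) ^ (1 + (τ : ℂ) * Complex.I)) / (1 + (τ : ℂ) * Complex.I)‖ := norm_sub_le _ _
      _ ≤ C2 * u ^ (1 - η) + 3 * u ^ (1/2:ℝ) := add_le_add h0 hm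
      _ ≤ _ := by nlinarith

theorem zb_abel (τ u v E : ℝ) (hu : 1 ≤ u) (huv : u ≤ v) (hv : v ≤ 2 * u) (hτ : τ ≠ 0)
    (hE : ∀ x, u ≤ x → x ≤ v → ‖∑ n ∈ Ioc ⌊u⌋₊ ⌊x⌋₊, et (-τ) n - ((x : ℂ) ^ (1 + (τ : ℂ) * Complex.I) - (u : ℂ) ^ (1 + (τ : ℂ) * Complex.I)) / (1 + (τ : ℂ) * Complex.I)‖ ≤ E) :
    ‖∑ n ∈ Ioc ⌊u⌋₊ ⌊v⌋₊, et (-τ) n / (n : ℂ) - ((v : ℂ) ^ ((τ : ℂ) * Complex.I) - (u : ℂ) ^ ((τ : ℂ) * Complex.I)) / ((τ : ℂ) * Complex.I)‖ ≤ 2 * E / u := by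
  have hu0 : (0:ℝ) < u := by linarith
  have hv0 : (0:ℝ) < v := by linarith
  have hE0 : 0 ≤ E := (norm_nonneg _).trans (hE u le_rfl huv)
  set s : ℂ := (τ : ℂ) * Complex.I with hs
  have hs0 : s ≠ 0 := mul_ne_zero (by exact_mod_cast hτ) Complex.I_ne_zero
  have hs1 : (1 + s) ≠ 0 := by
    intro h
    have := zb_den τ
    rw [← hs, h, norm_zero] at this
    linarith
  -- coefficients
  let c : ℕ → ℂ := fun n => if n ≤ ⌊u⌋₊ then 0 else et (-τ) n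
  have hc : ∀ x, u ≤ x → ∑ k ∈ Icc 0 ⌊x⌋₊, c k = ∑ n ∈ Ioc ⌊u⌋₊ ⌊x⌋₊, et (-τ) n := by
    intro x hx
    have hfl : ⌊u⌋₊ ≤ ⌊x⌋₊ := Nat.floor_le_floor hx
    symm
    have hsub : Ioc ⌊u⌋₊ ⌊x⌋₊ ⊆ Icc 0 ⌊x⌋₊ := by
      intro k hk
      rw [mem_Ioc] at hk
      rw [mem_Icc]
      omega
    rw [← sum_subset hsub]
    · refine sum_congr rfl fun k hk => ?_
      rw [mem_Ioc] at hk
      simp only [c]
      rw [if_neg (by omega)]
    · intro k hk hk'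
      rw [mem_Ioc] at hk'
      rw [mem_Icc] at hk
      simp only [c]
      rw [if_pos (by omega)]
  let f : ℝ → ℂ := fun x => ((x⁻¹ : ℝ) : ℂ)
  have hf : ∀ t : ℝ, 0 < t → HasDerivAt f (((-(t^2)⁻¹ : ℝ)) : ℂ) t := fun t ht =>
    (hasDerivAt_inv ht.ne').ofReal_comp
  have hderiv : ∀ t : ℝ, 0 < t → deriv f t = (((-(t^2)⁻¹ : ℝ)) : ℂ) := fun t ht => (hf t ht).deriv
  have hcont : ContinuousOn (fun t : ℝ => (((-(t^2)⁻¹ : ℝ)) : ℂ)) (Set.Icc u v) := by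
    refine Complex.continuous_ofReal.comp_continuousOn ?_
    refine ContinuousOn.neg (ContinuousOn.inv₀ (by fun_prop) ?_)
    intro t ht
    have : 0 < t := lt_of_lt_of_le hu0 ht.1
    positivity
  have hint : IntegrableOn (deriv f) (Set.Icc u v) := by
    refine (hcont.integrableOn_Icc).congr_fun ?_ measurableSet_Icc
    intro t ht
    exact (hderiv t (lt_of_lt_of_le hu0 ht.1)).symm
  have habel := sum_mul_eq_sub_sub_integral_mul c hu0.le huv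
    (fun t ht => (hf t (lt_of_lt_of_le hu0 ht.1)).differentiableAt) hint
  have hSint := integrableOn_mul_sum_Icc (m := 0) c hu0.le hint
  -- the main function
  let M : ℝ → ℂ := fun x => ((x : ℂ) ^ (1 + s) - (u : ℂ) ^ (1 + s)) / (1 + s)
  have hM : ∀ x : ℝ, 0 < x → HasDerivAt M ((x : ℂ) ^ s) x := by
    intro x hx
    have h := ((hasDerivAt_ofReal_cpow_const hx.ne' hs1).sub_const ((u : ℂ) ^ (1 + s))).div_const (1 + s)
    refine h.congr_deriv ?_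
    rw [show (1 : ℂ) + s - 1 = s by ring]
    field_simp
  have hMc : ContinuousOn M (Set.Icc u v) := fun t ht =>
    (hM t (lt_of_lt_of_le hu0 ht.1)).continuousAt.continuousWithinAt
  let G : ℝ → ℂ := fun x => ((x : ℂ) ^ s - (u : ℂ) ^ s) / s - f x * M x
  have hG : ∀ x : ℝ, 0 < x → HasDerivAt G (- ((((-(x^2)⁻¹ : ℝ)) : ℂ) * M x)) x := by
    intro x hx
    have h1 := ((hasDerivAt_ofReal_cpow_const hx.ne' hs0).sub_const ((u : ℂ) ^ s)).div_const s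
    have h2 := (hf x hx).mul (hM x hx)
    have h3 := h1.sub h2
    have hx' : (x : ℂ) ≠ 0 := by exact_mod_cast hx.ne'
    refine h3.congr_deriv ?_
    simp only [f]
    rw [Complex.cpow_sub _ _ hx', Complex.cpow_one]
    push_cast
    field_simp
    ring
  have hGint : IntervalIntegrable (fun x => - ((((-(x^2)⁻¹ : ℝ)) : ℂ) * M x)) volume u v := by
    refine ContinuousOn.intervalIntegrable ?_
    rw [Set.uIcc_of_le huv]
    exact (hcont.mul hMc).neg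
  have hFTC := intervalIntegral.integral_eq_sub_of_hasDerivAt (f := G) (a := u) (b := v)
    (fun x hx => hG x (by rw [Set.uIcc_of_le huv] at hx; exact lt_of_lt_of_le hu0 hx.1)) hGint
  have hGu : G u = 0 := by simp [G, M]
  rw [hGu, sub_zero, intervalIntegral.integral_of_le huv] at hFTC
  -- rewrite Abel
  have hsum : ∑ n ∈ Ioc ⌊u⌋₊ ⌊v⌋₊, et (-τ) n / (n : ℂ) = ∑ k ∈ Ioc ⌊u⌋₊ ⌊v⌋₊, f k * c k := by
    refine sum_congr rfl fun k hk => ?_
    rw [mem_Ioc] at hk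
    simp only [c, f]
    rw [if_neg (by omega)]
    push_cast
    rw [div_eq_mul_inv, mul_comm]
  have hSu : ∑ k ∈ Icc 0 ⌊u⌋₊, c k = 0 := by
    rw [hc u le_rfl]
    simp
  rw [hSu, mul_zero, sub_zero, hc v huv] at habel
  have hI1 : ∫ t in Set.Ioc u v, deriv f t * ∑ k ∈ Icc 0 ⌊t⌋₊, c k = ∫ t in Set.Ioc u v, (((-(t^2)⁻¹ : ℝ)) : ℂ) * ∑ n ∈ Ioc ⌊u⌋₊ ⌊t⌋₊, et (-τ) n := by
    refine setIntegral_congr_fun measurableSet_Ioc fun t ht => ?_
    rw [hderiv t (lt_of_lt_of_le hu0 ht.1.le), hc t ht.1.le]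
  have hInt1 : IntegrableOn (fun t : ℝ => (((-(t^2)⁻¹ : ℝ)) : ℂ) * ∑ n ∈ Ioc ⌊u⌋₊ ⌊t⌋₊, et (-τ) n) (Set.Ioc u v) := by
    refine (hSint.mono_set Set.Ioc_subset_Icc_self).congr_fun ?_ measurableSet_Ioc
    intro t ht
    simp only
    rw [hderiv t (lt_of_lt_of_le hu0 ht.1.le), hc t ht.1.le]
  have hInt2 : IntegrableOn (fun t : ℝ => (((-(t^2)⁻¹ : ℝ)) : ℂ) * M t) (Set.Ioc u v) :=
    (hcont.mul hMc).integrableOn_Icc.mono_set Set.Ioc_subset_Icc_self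
  have key : ∑ n ∈ Ioc ⌊u⌋₊ ⌊v⌋₊, et (-τ) n / (n : ℂ) - ((v : ℂ) ^ s - (u : ℂ) ^ s) / s =
      f v * (∑ n ∈ Ioc ⌊u⌋₊ ⌊v⌋₊, et (-τ) n - M v) -
        ∫ t in Set.Ioc u v, (((-(t^2)⁻¹ : ℝ)) : ℂ) * (∑ n ∈ Ioc ⌊u⌋₊ ⌊t⌋₊, et (-τ) n - M t) := by
    have e1 : ∫ t in Set.Ioc u v, (((-(t^2)⁻¹ : ℝ)) : ℂ) * (∑ n ∈ Ioc ⌊u⌋₊ ⌊t⌋₊, et (-τ) n - M t) =
        (∫ t in Set.Ioc u v, (((-(t^2)⁻¹ : ℝ)) : ℂ) * ∑ n ∈ Ioc ⌊u⌋₊ ⌊t⌋₊, et (-τ) n) -
          ∫ t in Set.Ioc u v, (((-(t^2)⁻¹ : ℝ)) : ℂ) * M t := by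
      rw [← integral_sub hInt1 hInt2]
      refine integral_congr_ae (Filter.Eventually.of_forall fun t => ?_)
      simp only
      ring
    have e2 : ((v : ℂ) ^ s - (u : ℂ) ^ s) / s = f v * M v - ∫ t in Set.Ioc u v, (((-(t^2)⁻¹ : ℝ)) : ℂ) * M t := by
      have e3 : ((v : ℂ) ^ s - (u : ℂ) ^ s) / s = G v + f v * M v := by simp only [G]; ring
      rw [e3, ← hFTC, integral_neg]
      ring
    rw [hsum, habel, hI1, e1, e2]
    ring
  rw [key]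
  have hfv : ‖f v‖ ≤ 1 / u := by
    simp only [f, Complex.norm_real, Real.norm_eq_abs]
    rw [abs_of_pos (by positivity), one_div]
    exact inv_anti₀ hu0 huv
  have hb1 : ‖f v * (∑ n ∈ Ioc ⌊u⌋₊ ⌊v⌋₊, et (-τ) n - M v)‖ ≤ E / u := by
    rw [norm_mul]
    calc _ ≤ (1 / u) * E := mul_le_mul hfv (hE v huv le_rfl) (norm_nonneg _) (by positivity)
      _ = _ := by ring
  have hb2 : ‖∫ t in Set.Ioc u v, (((-(t^2)⁻¹ : ℝ)) : ℂ) * (∑ n ∈ Ioc ⌊u⌋₊ ⌊t⌋₊, et (-τ) n - M t)‖ ≤ E / u := by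
    have h := norm_setIntegral_le_of_norm_le_const (μ := volume) (s := Set.Ioc u v) (C := E / u ^ 2)
      (f := fun t : ℝ => (((-(t^2)⁻¹ : ℝ)) : ℂ) * (∑ n ∈ Ioc ⌊u⌋₊ ⌊t⌋₊, et (-τ) n - M t))
      (by simp) (fun t ht => by
        have ht0 : 0 < t := lt_of_lt_of_le hu0 ht.1.le
        rw [norm_mul, Complex.norm_real, Real.norm_eq_abs, abs_neg, abs_of_pos (by positivity)]
        have : (t ^ 2)⁻¹ ≤ (u ^ 2)⁻¹ := inv_anti₀ (by positivity) (by nlinarith [ht.1])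
        calc _ ≤ (u ^ 2)⁻¹ * E := mul_le_mul this (hE t ht.1.le ht.2) (norm_nonneg _) (by positivity)
          _ = _ := by ring)
    refine h.trans ?_
    rw [Real.volume_real_Ioc_of_le huv]
    calc E / u ^ 2 * (v - u) ≤ E / u ^ 2 * u := by gcongr; linarith
      _ = E / u := by field_simp
  calc _ ≤ E / u + E / u := (norm_sub_le _ _).trans (add_le_add hb1 hb2)
    _ = _ := by ring

/-- Dyadic blocks `(2^j u, 2^(j+1) u]`: Abel summation with `1/n` inside a block from `zs_small` (`|τ| ≤ u'^(1/2)`) or `zs_large` (`|τ| ≥ u'^(1/2)`; the main term `(v^(iτ) - u^(iτ))/(iτ)` is then `O(u'^(-1/2))` per block); the errors `C (2^j u)^(-η)` are summable. -/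
theorem zs_log (A : ℝ) (hA : 1 ≤ A) : ∃ η C : ℝ, 0 < η ∧ η ≤ 1 / 2 ∧ 0 < C ∧ ∀ τ u v : ℝ, 1 ≤ u → u ≤ v → 1 ≤ |τ| → |τ| ≤ u ^ A →
    ‖∑ n ∈ Ioc ⌊u⌋₊ ⌊v⌋₊, et (-τ) n / (n : ℂ) - ((v : ℂ) ^ ((τ : ℂ) * Complex.I) - (u : ℂ) ^ ((τ : ℂ) * Complex.I)) / ((τ : ℂ) * Complex.I)‖ ≤ C * u ^ (-η) := by
  obtain ⟨η, C, hη, hη2, hC, h⟩ := zb_blk A hA
  have hq : (2:ℝ) ^ (-η) < 1 := by
    have := Real.rpow_lt_rpow_of_exponent_lt (x := 2) (by norm_num) (show -η < 0 by linarith)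
    rwa [Real.rpow_zero] at this
  set K : ℝ := 2 * C / (1 - 2 ^ (-η)) with hK
  have hK0 : 0 < K := div_pos (by positivity) (by linarith)
  have hKq : 2 * C + K * 2 ^ (-η) = K := by
    have : K * (1 - 2 ^ (-η)) = 2 * C := by
      rw [hK]; exact div_mul_cancel₀ _ (by linarith)
    linarith
  refine ⟨η, K, hη, hη2, hK0, ?_⟩
  have hblk : ∀ τ u v : ℝ, 1 ≤ u → u ≤ v → v ≤ 2 * u → 1 ≤ |τ| → |τ| ≤ u ^ A →
      ‖∑ n ∈ Ioc ⌊u⌋₊ ⌊v⌋₊, et (-τ) n / (n : ℂ) - ((v : ℂ) ^ ((τ : ℂ) * Complex.I) - (u : ℂ) ^ ((τ : ℂ) * Complex.I)) / ((τ : ℂ) * Complex.I)‖ ≤ 2 * C * u ^ (-η) := by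
    intro τ u v hu huv hv hτ1 hτ
    have hu0 : (0:ℝ) < u := by linarith
    have h0 := zb_abel τ u v (C * u ^ (1 - η)) hu huv hv (by rintro rfl; simp at hτ1; linarith)
      (fun x hx hxv => h τ u x hu hx (by linarith) hτ)
    refine h0.trans (le_of_eq ?_)
    rw [show (1 : ℝ) - η = 1 + (-η) by ring, Real.rpow_add hu0, Real.rpow_one]
    field_simp
  have main : ∀ k : ℕ, ∀ τ u v : ℝ, 1 ≤ u → u ≤ v → v ≤ 2 ^ k * u → 1 ≤ |τ| → |τ| ≤ u ^ A →
      ‖∑ n ∈ Ioc ⌊u⌋₊ ⌊v⌋₊, et (-τ) n / (n : ℂ) - ((v : ℂ) ^ ((τ : ℂ) * Complex.I) - (u : ℂ) ^ ((τ : ℂ) * Complex.I)) / ((τ : ℂ) * Complex.I)‖ ≤ K * u ^ (-η) := by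
    intro k
    induction k with
    | zero =>
      intro τ u v hu huv hv hτ1 hτ
      have : v = u := by rw [pow_zero, one_mul] at hv; exact le_antisymm hv huv
      subst this
      simp only [Ioc_self, sum_empty, sub_self, zero_div, norm_zero]
      positivity
    | succ k ih =>
      intro τ u v hu huv hv hτ1 hτ
      have hu0 : (0:ℝ) < u := by linarith
      rcases le_total v (2 * u) with h2 | h2
      · refine (hblk τ u v hu huv h2 hτ1 hτ).trans ?_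
        have hp : 0 < u ^ (-η) := Real.rpow_pos_of_pos hu0 _
        have hp2 : 0 < (2:ℝ) ^ (-η) := by positivity
        nlinarith [mul_pos hK0 hp2, mul_pos (mul_pos hK0 hp2) hp]
      · have a1 := hblk τ u (2 * u) hu (by linarith) le_rfl hτ1 hτ
        have a2 := ih τ (2 * u) v (by linarith) h2 (by rw [pow_succ] at hv; linarith) hτ1
          (hτ.trans (Real.rpow_le_rpow hu0.le (by linarith) (by linarith)))
        have hsplit : ∑ n ∈ Ioc ⌊u⌋₊ ⌊v⌋₊, et (-τ) n / (n : ℂ) =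
            ∑ n ∈ Ioc ⌊u⌋₊ ⌊2 * u⌋₊, et (-τ) n / (n : ℂ) + ∑ n ∈ Ioc ⌊2 * u⌋₊ ⌊v⌋₊, et (-τ) n / (n : ℂ) := by
          rw [Finset.sum_Ioc_consecutive _ (Nat.floor_le_floor (by linarith)) (Nat.floor_le_floor h2)]
        rw [hsplit]
        have hw : ((v : ℂ) ^ ((τ : ℂ) * Complex.I) - (u : ℂ) ^ ((τ : ℂ) * Complex.I)) / ((τ : ℂ) * Complex.I) =
            (((2 * u : ℝ) : ℂ) ^ ((τ : ℂ) * Complex.I) - (u : ℂ) ^ ((τ : ℂ) * Complex.I)) / ((τ : ℂ) * Complex.I) +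
            ((v : ℂ) ^ ((τ : ℂ) * Complex.I) - ((2 * u : ℝ) : ℂ) ^ ((τ : ℂ) * Complex.I)) / ((τ : ℂ) * Complex.I) := by ring
        rw [hw]
        calc _ ≤ 2 * C * u ^ (-η) + K * (2 * u) ^ (-η) := by
              rw [add_sub_add_comm]
              exact (norm_add_le _ _).trans (add_le_add a1 a2)
          _ = (2 * C + K * 2 ^ (-η)) * u ^ (-η) := by
              rw [Real.mul_rpow (by norm_num) hu0.le]; ring
          _ = _ := by rw [hKq]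
  intro τ u v hu huv hτ1 hτ
  obtain ⟨k, hk⟩ := pow_unbounded_of_one_lt (v / u) (show (1:ℝ) < 2 by norm_num)
  have hu0 : (0:ℝ) < u := by linarith
  exact main k τ u v hu huv (by rw [div_lt_iff₀ hu0] at hk; exact hk.le) hτ1 hτ

/-- Dyadic blocks down to `N^(1/2)` (`zs_small`, `zs_large` with `2 A`), the rest trivially. -/
theorem zs_full (A : ℝ) (hA : 1 ≤ A) : ∃ η C : ℝ, 0 < η ∧ η ≤ 1 / 2 ∧ 0 < C ∧ ∀ τ N : ℝ, 1 ≤ N → 1 ≤ |τ| → |τ| ≤ N ^ A →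
    ‖∑ n ∈ Icc 1 ⌊N⌋₊, et (-τ) n - (N : ℂ) ^ (1 + (τ : ℂ) * Complex.I) / (1 + (τ : ℂ) * Complex.I)‖ ≤ C * N ^ (1 - η) := by
  obtain ⟨η, C, hη, hη2, hC, h⟩ := zb_blk (2 * A) (by linarith)
  refine ⟨η, 4 * C + 4, hη, hη2, by positivity, fun τ N hN hτ1 hτ => ?_⟩
  have hN0 : (0:ℝ) < N := by linarith
  have hh1 : (1 : ℝ) ≤ N ^ (1/2:ℝ) := Real.one_le_rpow hN (by norm_num)
  have hsq : N ^ (1/2:ℝ) * N ^ (1/2:ℝ) = N := by
    rw [← Real.rpow_add hN0]; norm_num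
  have htriv : ∀ x : ℝ, 0 < x → ‖∑ n ∈ Icc 1 ⌊x⌋₊, et (-τ) n - (x : ℂ) ^ (1 + (τ : ℂ) * Complex.I) / (1 + (τ : ℂ) * Complex.I)‖ ≤ 2 * x := by
    intro x hx
    have a1 : ‖∑ n ∈ Icc 1 ⌊x⌋₊, et (-τ) n‖ ≤ x := by
      refine (norm_sum_le _ _).trans ?_
      simp only [norm_et, sum_const, Nat.card_Icc, nsmul_eq_mul, mul_one]
      rw [Nat.add_sub_cancel]
      exact Nat.floor_le hx.le
    have a2 : ‖(x : ℂ) ^ (1 + (τ : ℂ) * Complex.I) / (1 + (τ : ℂ) * Complex.I)‖ ≤ x := by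
      rw [norm_div, zb_norm τ x hx]
      exact div_le_self hx.le (zb_den τ)
    calc _ ≤ x + x := (norm_sub_le _ _).trans (add_le_add a1 a2)
      _ = _ := by ring
  have main : ∀ k : ℕ, ∀ x : ℝ, 0 < x → x ≤ 2 ^ k * (2 * N ^ (1/2:ℝ)) →
      ‖∑ n ∈ Icc 1 ⌊x⌋₊, et (-τ) n - (x : ℂ) ^ (1 + (τ : ℂ) * Complex.I) / (1 + (τ : ℂ) * Complex.I)‖ ≤ 4 * C * x ^ (1 - η) + 4 * N ^ (1/2:ℝ) := by
    intro k
    induction k with
    | zero =>
      intro x hx hxN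
      refine (htriv x hx).trans ?_
      have : 0 < x ^ (1 - η) := Real.rpow_pos_of_pos hx _
      rw [pow_zero, one_mul] at hxN
      nlinarith
    | succ k ih =>
      intro x hx hxN
      rcases le_total x (2 * N ^ (1/2:ℝ)) with h2 | h2
      · refine (htriv x hx).trans ?_
        have : 0 < x ^ (1 - η) := Real.rpow_pos_of_pos hx _
        nlinarith
      · have hx2 : N ^ (1/2:ℝ) ≤ x / 2 := by linarith
        have a1 := ih (x / 2) (by linarith) (by rw [pow_succ] at hxN; linarith)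
        have a2 := h τ (x / 2) x (by linarith) (by linarith) (by linarith) (by
          refine hτ.trans ?_
          calc N ^ A = (N ^ (1/2:ℝ)) ^ (2 * A) := by
                rw [← Real.rpow_mul hN0.le]; congr 1; ring
            _ ≤ (x / 2) ^ (2 * A) := Real.rpow_le_rpow (by positivity) hx2 (by linarith))
        have hsplit : ∑ n ∈ Icc 1 ⌊x⌋₊, et (-τ) n = ∑ n ∈ Icc 1 ⌊x / 2⌋₊, et (-τ) n + ∑ n ∈ Ioc ⌊x / 2⌋₊ ⌊x⌋₊, et (-τ) n := by
          rw [show Icc 1 ⌊x⌋₊ = Ioc 0 ⌊x⌋₊ from rfl, show Icc 1 ⌊x / 2⌋₊ = Ioc 0 ⌊x / 2⌋₊ from rfl,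
            Finset.sum_Ioc_consecutive _ (Nat.zero_le _) (Nat.floor_le_floor (by linarith))]
        rw [hsplit]
        have hw : (x : ℂ) ^ (1 + (τ : ℂ) * Complex.I) / (1 + (τ : ℂ) * Complex.I) =
            ((x / 2 : ℝ) : ℂ) ^ (1 + (τ : ℂ) * Complex.I) / (1 + (τ : ℂ) * Complex.I) +
            ((x : ℂ) ^ (1 + (τ : ℂ) * Complex.I) - ((x / 2 : ℝ) : ℂ) ^ (1 + (τ : ℂ) * Complex.I)) / (1 + (τ : ℂ) * Complex.I) := by ring
        rw [hw]
        have hhalf : (x / 2) ^ (1 - η) ≤ (3 / 4) * x ^ (1 - η) := by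
          rw [div_eq_mul_inv, Real.mul_rpow hx.le (by norm_num)]
          have : ((2:ℝ)⁻¹) ^ (1 - η) ≤ 3 / 4 := by
            calc ((2:ℝ)⁻¹) ^ (1 - η) ≤ ((2:ℝ)⁻¹) ^ (1 / 2 : ℝ) :=
                  Real.rpow_le_rpow_of_exponent_ge (by norm_num) (by norm_num) (by linarith)
              _ ≤ 3 / 4 := by
                  rw [← Real.sqrt_eq_rpow, Real.sqrt_le_left (by norm_num)]
                  norm_num
          have hp : 0 < x ^ (1 - η) := Real.rpow_pos_of_pos hx _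
          nlinarith
        calc _ ≤ (4 * C * (x / 2) ^ (1 - η) + 4 * N ^ (1/2:ℝ)) + C * (x / 2) ^ (1 - η) := by
              rw [add_sub_add_comm]
              exact (norm_add_le _ _).trans (add_le_add a1 a2)
          _ ≤ _ := by nlinarith [Real.rpow_pos_of_pos hx (1 - η)]
  obtain ⟨k, hk⟩ := pow_unbounded_of_one_lt N (show (1:ℝ) < 2 by norm_num)
  have h0 := main k N hN0 (by nlinarith [show (0:ℝ) < 2 ^ k by positivity])
  refine h0.trans ?_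
  have hhalf : N ^ (1/2 : ℝ) ≤ N ^ (1 - η) := Real.rpow_le_rpow_of_exponent_le hN (by linarith)
  nlinarith

end Pool.Agent.SplI

end

/-! ### from `Lib_MP_f1a94e_mr.MidJa` -/

section

/-!
# Piece MIDJ: the sum of `xi j` over a disc, `t^(3/20) ≤ |j| ≤ t^(11/5)`, from the statement of `block`
-/

set_option autoImplicit false

namespace Pool.Agent.GaussMR

/-- the statement of `block` (Block.lean) -/
def BlockS : Prop := ∃ C : ℝ, 0 < C ∧ ∀ (q : ℕ), 2 ≤ q → q ≤ 5 → ∀ (r : ℝ) (j : ℤ) (b : ℕ) (x0 x1 y : ℤ),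
    1 ≤ r → r ^ ((q : ℝ) - 17 / 10) ≤ |(j : ℝ)| → |(j : ℝ)| ≤ r ^ ((q : ℝ) - 2 ^ q / 64 - 1 / 100) →
    r ^ (1 - 1 / 1000 : ℝ) ≤ b → x0 ≤ x1 → (x1 : ℝ) - x0 ≤ r ^ (1 - 1 / 125 : ℝ) →
    (x0 : ℝ) ^ 2 + (b : ℝ) ^ 2 ≤ r ^ 2 → (x1 : ℝ) ^ 2 + (b : ℝ) ^ 2 ≤ r ^ 2 →
    x0 ≤ y → y ≤ x1 →
    r ^ (-(1 / 1000 : ℝ)) ≤ |(((y : ℂ) + b * Complex.I) ^ (-(q : ℤ))).im| *
      ‖(y : ℂ) + b * Complex.I‖ ^ q →
    ‖∑ x ∈ Finset.Icc x0 x1, xi j ⟨x, b⟩‖ ≤ C * r ^ (1 - 1 / 125 - 1 / 500 : ℝ)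

/-- the statement of `row_bound` (MidJ.lean) -/
def RowS : Prop := ∃ C : ℝ, 0 < C ∧ ∀ (q : ℕ), 2 ≤ q → q ≤ 5 → ∀ (r : ℝ) (j : ℤ) (b : ℕ) (s : ℕ),
    1 ≤ r → r ^ ((q : ℝ) - 17 / 10) ≤ |(j : ℝ)| → |(j : ℝ)| ≤ r ^ ((q : ℝ) - 2 ^ q / 64 - 1 / 100) →
    r ^ (1 - 1 / 2000 : ℝ) ≤ b → (s : ℝ) ^ 2 + (b : ℝ) ^ 2 ≤ r ^ 2 →
    ‖∑ x ∈ Finset.Icc (-(s : ℤ)) s, xi j ⟨x, b⟩‖ ≤ C * r ^ (1 - 1 / 8000 : ℝ)

/-- the statement of `mid_j` (MidJ.lean) -/
def MidS : Prop := ∃ C : ℝ, 0 < C ∧ ∀ (t : ℝ) (j : ℤ), 1 ≤ t → t ^ (3 / 20 : ℝ) ≤ |(j : ℝ)| →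
    |(j : ℝ)| ≤ t ^ (11 / 5 : ℝ) → ‖∑ z ∈ ball t, xi j z‖ ≤ C * t ^ (1 - 1 / 16000 : ℝ)

theorem norm_xi_le_one (k : ℤ) (z : G) : ‖xi k z‖ ≤ 1 := by
  by_cases h : z = 0
  · subst h
    unfold xi dir
    have h0 : (((0 : G) : G) : ℂ) = 0 := by simp
    rw [h0, zero_div]
    rcases eq_or_ne k 0 with hk | hk
    · subst hk; simp
    · rw [zero_zpow k hk]; simp
  · exact (norm_xi k h).le

theorem blocks_bound (φ : ℤ → ℂ) (hφ : ∀ x, ‖φ x‖ ≤ 1) (bad : ℤ → Prop) [DecidablePred bad]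
    (m : ℕ) (A : ℝ) (hA : 0 ≤ A) (u0 v0 : ℤ)
    (h : ∀ x0 x1 y : ℤ, u0 ≤ x0 → x1 ≤ v0 → x0 ≤ y → y ≤ x1 → x1 - x0 ≤ m → ¬ bad y →
      ‖∑ x ∈ Finset.Icc x0 x1, φ x‖ ≤ A) :
    ∀ (n : ℕ) (u : ℤ), u0 ≤ u → v0 - u < n * (m + 1) →
      ‖∑ x ∈ Finset.Icc u v0, φ x‖ ≤ n * A + ∑ x ∈ Finset.Icc u v0, (if bad x then (1 : ℝ) else 0) := by
  have hbad0 : ∀ s : Finset ℤ, 0 ≤ ∑ x ∈ s, (if bad x then (1 : ℝ) else 0) := fun s =>
    Finset.sum_nonneg (fun x _ => by split_ifs <;> norm_num)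
  intro n
  induction n with
  | zero =>
    intro u hu hlt
    have he : Finset.Icc u v0 = ∅ := Finset.Icc_eq_empty (by push_cast at hlt; omega)
    rw [he]; simp
  | succ n ih =>
    intro u hu hlt
    by_cases huv : v0 < u
    · have he : Finset.Icc u v0 = ∅ := Finset.Icc_eq_empty (by omega)
      rw [he]; simp; positivity
    push Not at huv
    set w : ℤ := min v0 (u + m) with hw
    have hw1 : w ≤ v0 := min_le_left _ _
    have hw2 : w ≤ u + m := min_le_right _ _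
    have hw3 : u ≤ w := le_min huv (by omega)
    have hsplit : Finset.Icc u v0 = Finset.Icc u w ∪ Finset.Icc (w + 1) v0 := by
      ext x; simp only [Finset.mem_Icc, Finset.mem_union]; omega
    have hd : Disjoint (Finset.Icc u w) (Finset.Icc (w + 1) v0) := by
      rw [Finset.disjoint_left]; intro x; simp only [Finset.mem_Icc]; omega
    have hnn : (0 : ℤ) ≤ n * (m + 1) := by positivity
    have hlt' : v0 - (w + 1) < n * (m + 1) := by
      rcases min_choice v0 (u + (m : ℤ)) with hc | hc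
      · rw [← hw] at hc; omega
      · rw [← hw] at hc
        have : v0 - u < n * (m + 1) + (m + 1) := by
          have e : ((n + 1 : ℕ) : ℤ) * (m + 1) = n * (m + 1) + (m + 1) := by push_cast; ring
          rw [e] at hlt; exact hlt
        omega
    have ih' := ih (w + 1) (by omega) hlt'
    rw [hsplit, Finset.sum_union hd, Finset.sum_union hd]
    have hfirst : ‖∑ x ∈ Finset.Icc u w, φ x‖ ≤
        A + ∑ x ∈ Finset.Icc u w, (if bad x then (1 : ℝ) else 0) := by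
      by_cases hg : ∃ y ∈ Finset.Icc u w, ¬ bad y
      · obtain ⟨y, hy, hyb⟩ := hg
        rw [Finset.mem_Icc] at hy
        have := h u w y hu hw1 hy.1 hy.2 (by omega) hyb
        have := hbad0 (Finset.Icc u w)
        linarith
      · push Not at hg
        have h1 : ∑ x ∈ Finset.Icc u w, (if bad x then (1 : ℝ) else 0) =
            ∑ x ∈ Finset.Icc u w, (1 : ℝ) :=
          Finset.sum_congr rfl (fun x hx => by rw [if_pos (hg x hx)])
        rw [h1]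
        have h2 : ‖∑ x ∈ Finset.Icc u w, φ x‖ ≤ ∑ x ∈ Finset.Icc u w, (1 : ℝ) :=
          (norm_sum_le _ _).trans (Finset.sum_le_sum (fun x _ => hφ x))
        linarith
    have := norm_add_le (∑ x ∈ Finset.Icc u w, φ x) (∑ x ∈ Finset.Icc (w + 1) v0, φ x)
    push_cast
    linarith

theorem row_bound_of (hB : BlockS) : RowS := by
  classical
  obtain ⟨C1, hC1, hblock⟩ := hB
  obtain ⟨C2, hC2, hbad⟩ := bad_card
  refine ⟨3 * C1 + C2, by positivity, ?_⟩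
  intro q hq2 hq5 r j b s hr hj1 hj2 hb hs
  have hr0 : 0 < r := by linarith
  set L : ℝ := r ^ (1 - 1 / 125 : ℝ) with hL
  have hL1 : 1 ≤ L := Real.one_le_rpow hr (by norm_num)
  set m : ℕ := ⌊L⌋₊ with hm
  have hmL : (m : ℝ) ≤ L := Nat.floor_le (by linarith)
  have hLm : L < m + 1 := Nat.lt_floor_add_one L
  set bad : ℤ → Prop := fun x => |(((x : ℂ) + b * Complex.I) ^ (-(q : ℤ))).im| *
      ‖(x : ℂ) + b * Complex.I‖ ^ q < r ^ (-(1 / 1000 : ℝ)) with hbaddef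
  set A : ℝ := C1 * r ^ (1 - 1 / 125 - 1 / 500 : ℝ) with hAdef
  have hA : 0 ≤ A := by positivity
  have hsr : (s : ℝ) ≤ r := by
    have h1 : (s : ℝ) ^ 2 ≤ r ^ 2 := by nlinarith [sq_nonneg (b : ℝ)]
    exact abs_le_of_sq_le_sq' h1 hr0.le |>.2
  have hsq : ∀ x : ℤ, -(s : ℤ) ≤ x → x ≤ s → (x : ℝ) ^ 2 + (b : ℝ) ^ 2 ≤ r ^ 2 := by
    intro x hx1 hx2
    have h1 : (x : ℝ) ≤ s := by exact_mod_cast hx2
    have h2 : -(s : ℝ) ≤ x := by exact_mod_cast hx1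
    have h3 : (x : ℝ) ^ 2 ≤ (s : ℝ) ^ 2 := by nlinarith
    linarith
  have hb' : r ^ (1 - 1 / 1000 : ℝ) ≤ b :=
    (Real.rpow_le_rpow_of_exponent_le hr (by norm_num)).trans hb
  have hgood : ∀ x0 x1 y : ℤ, -(s : ℤ) ≤ x0 → x1 ≤ s → x0 ≤ y → y ≤ x1 → x1 - x0 ≤ m → ¬ bad y →
      ‖∑ x ∈ Finset.Icc x0 x1, xi j ⟨x, b⟩‖ ≤ A := by
    intro x0 x1 y h1 h2 h3 h4 h5 h6
    refine hblock q hq2 hq5 r j b x0 x1 y hr hj1 hj2 hb' (by omega) ?_ (hsq _ h1 (by omega))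
      (hsq _ (by omega) h2) h3 h4 (not_lt.1 h6)
    have h7 : ((x1 - x0 : ℤ) : ℝ) ≤ (m : ℝ) := by exact_mod_cast h5
    push_cast at h7
    linarith
  set n : ℕ := 2 * s / (m + 1) + 1 with hn
  have hn1 : 2 * s < n * (m + 1) := by
    have := Nat.lt_mul_div_succ (2 * s) (Nat.succ_pos m)
    rw [hn, Nat.mul_comm (2 * s / (m + 1) + 1) (m + 1)]
    exact this
  have key := blocks_bound (fun x => xi j ⟨x, b⟩) (fun x => norm_xi_le_one j _) bad m A hA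
    (-(s : ℤ)) s hgood n (-(s : ℤ)) le_rfl (by
      have : ((2 * s : ℕ) : ℤ) < ((n * (m + 1) : ℕ) : ℤ) := by exact_mod_cast hn1
      push_cast at this ⊢
      linarith)
  have hnle : (n : ℝ) ≤ 3 * r ^ (1 / 125 : ℝ) := by
    have h1 : ((2 * s / (m + 1) : ℕ) : ℝ) ≤ ((2 * s : ℕ) : ℝ) / ((m + 1 : ℕ) : ℝ) := Nat.cast_div_le
    have h2 : ((2 * s : ℕ) : ℝ) / ((m + 1 : ℕ) : ℝ) ≤ 2 * r / L := by
      push_cast
      apply div_le_div₀ <;> first | positivity | linarith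
    have h3 : 2 * r / L = 2 * r ^ (1 / 125 : ℝ) := by
      rw [hL, mul_div_assoc]
      congr 1
      rw [div_eq_iff (by positivity), ← Real.rpow_add hr0]
      norm_num
    have h4 : (1 : ℝ) ≤ r ^ (1 / 125 : ℝ) := Real.one_le_rpow hr (by norm_num)
    rw [hn]
    push_cast at h1 ⊢
    push_cast at h2
    linarith
  have hnA : n * A ≤ 3 * C1 * r ^ (1 - 1 / 8000 : ℝ) := by
    calc (n : ℝ) * A ≤ (3 * r ^ (1 / 125 : ℝ)) * A := mul_le_mul_of_nonneg_right hnle hA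
      _ = 3 * C1 * r ^ (1 - 1 / 500 : ℝ) := by
        rw [hAdef]
        have : r ^ (1 / 125 : ℝ) * r ^ (1 - 1 / 125 - 1 / 500 : ℝ) = r ^ (1 - 1 / 500 : ℝ) := by
          rw [← Real.rpow_add hr0]; norm_num
        rw [← this]; ring
      _ ≤ _ := by
        apply mul_le_mul_of_nonneg_left _ (by positivity)
        exact Real.rpow_le_rpow_of_exponent_le hr (by norm_num)
  have hbadsum : ∑ x ∈ Finset.Icc (-(s : ℤ)) s, (if bad x then (1 : ℝ) else 0) ≤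
      C2 * r ^ (1 - 1 / 8000 : ℝ) := by
    refine le_trans ?_ (hbad q hq2 hq5 r b hr hb)
    rw [← Finset.sum_filter, Finset.sum_const, nsmul_eq_mul, mul_one]
    have hfin : {x : ℤ | (x : ℝ) ^ 2 + (b : ℝ) ^ 2 ≤ r ^ 2 ∧
      |(((x : ℂ) + b * Complex.I) ^ (-(q : ℤ))).im| * ‖(x : ℂ) + b * Complex.I‖ ^ q <
        r ^ (-(1 / 1000 : ℝ))}.Finite := by
      apply (Set.finite_Icc (-(⌈r⌉₊ : ℤ)) ⌈r⌉₊).subset
      rintro x ⟨hx, -⟩
      have h1 : (x : ℝ) ^ 2 ≤ r ^ 2 := by nlinarith [sq_nonneg (b : ℝ)]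
      have h2 := abs_le_of_sq_le_sq' h1 hr0.le
      have h3 : r ≤ (⌈r⌉₊ : ℝ) := Nat.le_ceil r
      constructor
      · have : (-(⌈r⌉₊ : ℝ)) ≤ x := by linarith [h2.1]
        exact_mod_cast this
      · have : (x : ℝ) ≤ (⌈r⌉₊ : ℝ) := by linarith [h2.2]
        exact_mod_cast this
    rw [← Set.ncard_coe_finset]
    refine Nat.cast_le.2 (Set.ncard_le_ncard ?_ hfin)
    intro x hx
    simp only [Finset.coe_filter, Finset.mem_Icc, Set.mem_setOf_eq] at hx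
    exact ⟨hsq x hx.1.1 hx.1.2, hx.2⟩
  calc ‖∑ x ∈ Finset.Icc (-(s : ℤ)) s, xi j ⟨x, b⟩‖ ≤ _ := key
    _ ≤ _ := by rw [add_mul]; linarith

/-- the row of a disc -/
theorem row_eq (t : ℝ) (b : ℤ) (hb : (b : ℝ) ^ 2 ≤ t) :
    (ball t).filter (fun z => z.im = b) =
      (Finset.Icc (-(⌊Real.sqrt (t - (b : ℝ) ^ 2)⌋₊ : ℤ)) ⌊Real.sqrt (t - (b : ℝ) ^ 2)⌋₊).map
        ⟨fun x => (⟨x, b⟩ : G), fun x y h => by simpa using congrArg Zsqrtd.re h⟩ := by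
  classical
  ext z
  rw [Finset.mem_filter, mem_ball, Finset.mem_map]
  have hnm : (nm z : ℝ) = (z.re : ℝ) ^ 2 + (z.im : ℝ) ^ 2 := by
    have := nm_eq z
    have h : ((nm z : ℤ) : ℝ) = ((z.re ^ 2 + z.im ^ 2 : ℤ) : ℝ) := by rw [this]
    push_cast at h; exact h
  have hs0 : 0 ≤ t - (b : ℝ) ^ 2 := by linarith
  set s := ⌊Real.sqrt (t - (b : ℝ) ^ 2)⌋₊ with hs
  have hkey : ∀ x : ℤ, (-(s : ℤ) ≤ x ∧ x ≤ s) ↔ (x : ℝ) ^ 2 ≤ t - (b : ℝ) ^ 2 := by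
    intro x
    rw [← abs_le]
    have h1 : |x| = (x.natAbs : ℤ) := Int.abs_eq_natAbs x
    rw [h1, Nat.cast_le, hs, Nat.le_floor_iff (Real.sqrt_nonneg _), Nat.cast_natAbs, Int.cast_abs,
      Real.le_sqrt (abs_nonneg _) hs0, sq_abs]
  constructor
  · rintro ⟨h1, h2⟩
    refine ⟨z.re, ?_, ?_⟩
    · rw [Finset.mem_Icc, hkey, ← h2]
      rw [hnm] at h1
      linarith
    · simp only [Function.Embedding.coeFn_mk]
      rw [← h2]
  · rintro ⟨x, hx, rfl⟩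
    rw [Finset.mem_Icc, hkey] at hx
    simp only [Function.Embedding.coeFn_mk] at hnm ⊢
    refine ⟨?_, trivial⟩
    rw [hnm]; linarith

theorem sum_ball_rows (t : ℝ) (ht : 0 ≤ t) (f : G → ℂ) :
    ∑ z ∈ ball t, f z = ∑ b ∈ Finset.Icc (-(⌊Real.sqrt t⌋₊ : ℤ)) ⌊Real.sqrt t⌋₊,
      ∑ x ∈ Finset.Icc (-(⌊Real.sqrt (t - (b : ℝ) ^ 2)⌋₊ : ℤ)) ⌊Real.sqrt (t - (b : ℝ) ^ 2)⌋₊,
        f ⟨x, b⟩ := by
  classical
  have hmaps : ∀ z ∈ ball t, z.im ∈ Finset.Icc (-(⌊Real.sqrt t⌋₊ : ℤ)) ⌊Real.sqrt t⌋₊ := by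
    intro z hz
    rw [mem_ball] at hz
    have hnm : (nm z : ℝ) = (z.re : ℝ) ^ 2 + (z.im : ℝ) ^ 2 := by
      have := nm_eq z
      have h : ((nm z : ℤ) : ℝ) = ((z.re ^ 2 + z.im ^ 2 : ℤ) : ℝ) := by rw [this]
      push_cast at h; exact h
    rw [Finset.mem_Icc, ← abs_le, Int.abs_eq_natAbs, Nat.cast_le,
      Nat.le_floor_iff (Real.sqrt_nonneg _), Nat.cast_natAbs, Int.cast_abs,
      Real.le_sqrt (abs_nonneg _) ht, sq_abs]
    nlinarith [sq_nonneg (z.re : ℝ)]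
  rw [← Finset.sum_fiberwise_of_maps_to hmaps]
  apply Finset.sum_congr rfl
  intro b hb
  have hb2 : (b : ℝ) ^ 2 ≤ t := by
    rw [Finset.mem_Icc, ← abs_le, Int.abs_eq_natAbs, Nat.cast_le,
      Nat.le_floor_iff (Real.sqrt_nonneg _), Nat.cast_natAbs, Int.cast_abs,
      Real.le_sqrt (abs_nonneg _) ht, sq_abs] at hb
    exact hb
  rw [row_eq t b hb2, Finset.sum_map]
  rfl

/-- `r = √t`. Choose `q ∈ {2,3,4,5}` with `r^(q - 17/10) ≤ |j| ≤ r^(q - 2^q/64 - 1/100)` (the ranges of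
exponents `[0.3, 1.9275]`, `[1.3, 2.865]`, `[2.3, 3.74]`, `[3.3, 4.49]` cover `[0.3, 4.4]`). Rows
`0 < b < r^(1-1/2000)` trivially; other rows `b ≤ r` are cut into at most `2 r / L + 2` blocks of length
`≤ L = r^(1-1/125)`: blocks containing a good point by `block`, blocks consisting of bad points by
`bad_card`. Rows `b < 0` by conjugation (`xi_star`), the row `b = 0` trivially. -/
theorem mid_j_of (hR : RowS) : MidS := by
  classical
  obtain ⟨C, hC, hrow⟩ := hR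
  refine ⟨3 * C + 9, by positivity, ?_⟩
  intro t j ht hj1 hj2
  have ht0 : 0 < t := by linarith
  set r : ℝ := Real.sqrt t with hr
  have hr1 : 1 ≤ r := by rw [hr]; exact Real.one_le_sqrt.2 ht
  have hr0 : 0 < r := by linarith
  have hrt : r ^ 2 = t := Real.sq_sqrt ht0.le
  have htr : ∀ a : ℝ, t ^ a = r ^ (2 * a) := by
    intro a
    rw [← hrt, ← Real.rpow_natCast r 2, ← Real.rpow_mul hr0.le]
    norm_num
  rw [htr] at hj1 hj2
  -- choice of q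
  obtain ⟨q, hq2, hq5, hqa, hqb⟩ : ∃ q : ℕ, 2 ≤ q ∧ q ≤ 5 ∧ r ^ ((q : ℝ) - 17 / 10) ≤ |(j : ℝ)| ∧
      |(j : ℝ)| ≤ r ^ ((q : ℝ) - 2 ^ q / 64 - 1 / 100) := by
    by_cases h2 : |(j : ℝ)| ≤ r ^ (((2 : ℕ) : ℝ) - 2 ^ 2 / 64 - 1 / 100)
    · exact ⟨2, le_rfl, by norm_num,
        (Real.rpow_le_rpow_of_exponent_le hr1 (by norm_num)).trans hj1, h2⟩
    push Not at h2
    by_cases h3 : |(j : ℝ)| ≤ r ^ (((3 : ℕ) : ℝ) - 2 ^ 3 / 64 - 1 / 100)
    · exact ⟨3, by norm_num, by norm_num,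
        (Real.rpow_le_rpow_of_exponent_le hr1 (by norm_num)).trans h2.le, h3⟩
    push Not at h3
    by_cases h4 : |(j : ℝ)| ≤ r ^ (((4 : ℕ) : ℝ) - 2 ^ 4 / 64 - 1 / 100)
    · exact ⟨4, by norm_num, by norm_num,
        (Real.rpow_le_rpow_of_exponent_le hr1 (by norm_num)).trans h3.le, h4⟩
    push Not at h4
    exact ⟨5, by norm_num, le_rfl,
        (Real.rpow_le_rpow_of_exponent_le hr1 (by norm_num)).trans h4.le,
        hj2.trans (Real.rpow_le_rpow_of_exponent_le hr1 (by norm_num))⟩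
  set y : ℝ := r ^ (1 - 1 / 2000 : ℝ) with hy
  have hy1 : 1 ≤ y := Real.one_le_rpow hr1 (by norm_num)
  set B : ℝ := C * r ^ (1 - 1 / 8000 : ℝ) with hB
  have hB0 : 0 ≤ B := by positivity
  rw [sum_ball_rows t ht0.le]
  -- bound of one row
  have hone : ∀ b ∈ Finset.Icc (-(⌊r⌋₊ : ℤ)) ⌊r⌋₊,
      ‖∑ x ∈ Finset.Icc (-(⌊Real.sqrt (t - (b : ℝ) ^ 2)⌋₊ : ℤ)) ⌊Real.sqrt (t - (b : ℝ) ^ 2)⌋₊,
        xi j ⟨x, b⟩‖ ≤ B + (if (b.natAbs : ℝ) < y then 3 * r else 0) := by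
    intro b hb
    have hb2 : (b : ℝ) ^ 2 ≤ t := by
      rw [Finset.mem_Icc, ← abs_le, Int.abs_eq_natAbs, Nat.cast_le,
        Nat.le_floor_iff hr0.le, Nat.cast_natAbs, Int.cast_abs, hr,
        Real.le_sqrt (abs_nonneg _) ht0.le, sq_abs] at hb
      exact hb
    have hs0 : 0 ≤ t - (b : ℝ) ^ 2 := by linarith
    set s := ⌊Real.sqrt (t - (b : ℝ) ^ 2)⌋₊ with hs
    have hs1 : (s : ℝ) ≤ Real.sqrt (t - (b : ℝ) ^ 2) := Nat.floor_le (Real.sqrt_nonneg _)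
    have hs2 : (s : ℝ) ^ 2 ≤ t - (b : ℝ) ^ 2 := by
      rw [← Real.sq_sqrt hs0]
      exact pow_le_pow_left₀ (by positivity) hs1 2
    have hsr : (s : ℝ) ≤ r := by
      rw [hr]
      exact hs1.trans (Real.sqrt_le_sqrt (by nlinarith [sq_nonneg (b : ℝ)]))
    by_cases hby : (b.natAbs : ℝ) < y
    · rw [if_pos hby]
      have h1 : ‖∑ x ∈ Finset.Icc (-(s : ℤ)) s, xi j ⟨x, b⟩‖ ≤
          ∑ x ∈ Finset.Icc (-(s : ℤ)) s, (1 : ℝ) :=
        (norm_sum_le _ _).trans (Finset.sum_le_sum (fun x _ => norm_xi_le_one j _))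
      have h2 : ∑ x ∈ Finset.Icc (-(s : ℤ)) s, (1 : ℝ) = 2 * s + 1 := by
        rw [Finset.sum_const, Int.card_Icc, nsmul_eq_mul, mul_one]
        have : ((s : ℤ) + 1 - -(s : ℤ)).toNat = 2 * s + 1 := by omega
        rw [this]; push_cast; ring
      rw [h2] at h1
      linarith
    · rw [if_neg hby, add_zero]
      push Not at hby
      have hab : ((b.natAbs : ℕ) : ℝ) ^ 2 = (b : ℝ) ^ 2 := by
        rw [Nat.cast_natAbs, Int.cast_abs, sq_abs]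
      have h1 := hrow q hq2 hq5 r j b.natAbs s hr1 hqa hqb hby (by rw [hab, hrt]; linarith)
      rcases Int.natAbs_eq b with hbb | hbb
      · rw [← hbb] at h1
        exact h1
      · have hbne : b ≠ 0 := by
          rintro rfl
          simp at hby
          linarith
        have h2 : ∑ x ∈ Finset.Icc (-(s : ℤ)) s, xi j ⟨x, b⟩ =
            (starRingEnd ℂ) (∑ x ∈ Finset.Icc (-(s : ℤ)) s, xi j ⟨x, (b.natAbs : ℤ)⟩) := by
          rw [map_sum]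
          apply Finset.sum_congr rfl
          intro x _
          have hz : (⟨x, (b.natAbs : ℤ)⟩ : G) ≠ 0 := by
            intro h
            have := congrArg Zsqrtd.im h
            simp at this
            exact hbne this
          rw [conj_xi j hz, ← xi_star j hz]
          congr 1
          apply Zsqrtd.ext
          · simp
          · simp only [Zsqrtd.im_star]
            exact hbb
        rw [h2, RCLike.norm_conj]
        exact h1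
  have hR : ((⌊r⌋₊ : ℕ) : ℝ) ≤ r := Nat.floor_le hr0.le
  have hcount : ∑ b ∈ Finset.Icc (-(⌊r⌋₊ : ℤ)) ⌊r⌋₊, (if (b.natAbs : ℝ) < y then 3 * r else 0) ≤
      (3 * y) * (3 * r) := by
    rw [← Finset.sum_filter, Finset.sum_const, nsmul_eq_mul]
    apply mul_le_mul_of_nonneg_right _ (by positivity)
    have hsub : (Finset.Icc (-(⌊r⌋₊ : ℤ)) ⌊r⌋₊).filter (fun b => (b.natAbs : ℝ) < y) ⊆
        Finset.Icc (-(⌊y⌋₊ : ℤ)) ⌊y⌋₊ := by
      intro b hb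
      rw [Finset.mem_filter] at hb
      rw [Finset.mem_Icc, ← abs_le, Int.abs_eq_natAbs, Nat.cast_le,
        Nat.le_floor_iff (by linarith)]
      exact hb.2.le
    have h1 := Finset.card_le_card hsub
    rw [Int.card_Icc] at h1
    have h2 : ((⌊y⌋₊ : ℤ) + 1 - -(⌊y⌋₊ : ℤ)).toNat = 2 * ⌊y⌋₊ + 1 := by omega
    rw [h2] at h1
    have h3 : ((⌊y⌋₊ : ℕ) : ℝ) ≤ y := Nat.floor_le (by linarith)
    have h4 : ((((Finset.Icc (-(⌊r⌋₊ : ℤ)) ⌊r⌋₊).filter (fun b => (b.natAbs : ℝ) < y)).card : ℕ) : ℝ)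
        ≤ ((2 * ⌊y⌋₊ + 1 : ℕ) : ℝ) := by exact_mod_cast h1
    push_cast at h4
    linarith
  have hBsum : ∑ b ∈ Finset.Icc (-(⌊r⌋₊ : ℤ)) ⌊r⌋₊, B ≤ (3 * r) * B := by
    rw [Finset.sum_const, Int.card_Icc, nsmul_eq_mul]
    apply mul_le_mul_of_nonneg_right _ hB0
    have : ((⌊r⌋₊ : ℤ) + 1 - -(⌊r⌋₊ : ℤ)).toNat = 2 * ⌊r⌋₊ + 1 := by omega
    rw [this]; push_cast; linarith
  have htot : ‖∑ b ∈ Finset.Icc (-(⌊r⌋₊ : ℤ)) ⌊r⌋₊,
      ∑ x ∈ Finset.Icc (-(⌊Real.sqrt (t - (b : ℝ) ^ 2)⌋₊ : ℤ)) ⌊Real.sqrt (t - (b : ℝ) ^ 2)⌋₊,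
        xi j ⟨x, b⟩‖ ≤ (3 * r) * B + (3 * y) * (3 * r) := by
    refine (norm_sum_le _ _).trans ((Finset.sum_le_sum hone).trans ?_)
    rw [Finset.sum_add_distrib]
    linarith
  refine htot.trans ?_
  rw [htr]
  have e1 : r * r ^ (1 - 1 / 8000 : ℝ) = r ^ (2 * (1 - 1 / 16000) : ℝ) := by
    nth_rewrite 1 [← Real.rpow_one r]
    rw [← Real.rpow_add hr0]; norm_num
  have e2 : y * r ≤ r ^ (2 * (1 - 1 / 16000) : ℝ) := by
    rw [hy]
    nth_rewrite 2 [← Real.rpow_one r]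
    rw [← Real.rpow_add hr0]
    exact Real.rpow_le_rpow_of_exponent_le hr1 (by norm_num)
  calc (3 * r) * B + (3 * y) * (3 * r) = 3 * C * (r * r ^ (1 - 1 / 8000 : ℝ)) + 9 * (y * r) := by
        rw [hB]; ring
    _ ≤ 3 * C * r ^ (2 * (1 - 1 / 16000) : ℝ) + 9 * r ^ (2 * (1 - 1 / 16000) : ℝ) := by
        rw [e1]; linarith
    _ = _ := by ring

end Pool.Agent.GaussMR

end

/-! ### from `Lib_MP_f1a94e_mr.MidJ` -/

section

/-!
# Piece MIDJ: the sum of `xi j` over a disc, `t^(3/20) ≤ |j| ≤ t^(11/5)`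
-/

set_option autoImplicit false

namespace Pool.Agent.GaussMR

theorem row_bound : ∃ C : ℝ, 0 < C ∧ ∀ (q : ℕ), 2 ≤ q → q ≤ 5 → ∀ (r : ℝ) (j : ℤ) (b : ℕ) (s : ℕ),
    1 ≤ r → r ^ ((q : ℝ) - 17 / 10) ≤ |(j : ℝ)| → |(j : ℝ)| ≤ r ^ ((q : ℝ) - 2 ^ q / 64 - 1 / 100) →
    r ^ (1 - 1 / 2000 : ℝ) ≤ b → (s : ℝ) ^ 2 + (b : ℝ) ^ 2 ≤ r ^ 2 →
    ‖∑ x ∈ Finset.Icc (-(s : ℤ)) s, xi j ⟨x, b⟩‖ ≤ C * r ^ (1 - 1 / 8000 : ℝ) :=
  row_bound_of block

theorem mid_j : ∃ C : ℝ, 0 < C ∧ ∀ (t : ℝ) (j : ℤ), 1 ≤ t → t ^ (3 / 20 : ℝ) ≤ |(j : ℝ)| →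
    |(j : ℝ)| ≤ t ^ (11 / 5 : ℝ) → ‖∑ z ∈ ball t, xi j z‖ ≤ C * t ^ (1 - 1 / 16000 : ℝ) :=
  mid_j_of row_bound

end Pool.Agent.GaussMR

end
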