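import Mathlib

/-!
# MP_92ef0c_nt, split pairs: merged library part M11

Concatenation of smaller files (each in its own section), only to save build time.
-/

/-! ### from `Lib_MP_f1a94e_ap.Defs` -/

section

/-!
# MP_f1a94e_nt: `Ω(m ^ 2 + 1)` modulo `q`

Integer vectors `(a, b)` are Gaussian integers `a + b i`.
-/

set_option autoImplicit false

namespace Pool.Agent.OmAP

/-- determinant of two integer vectors -/
def dt (u v : ℤ × ℤ) : ℤ := u.1 * v.2 - u.2 * v.1

/-- dot product -/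
def dp (u v : ℤ × ℤ) : ℤ := u.1 * v.1 + u.2 * v.2

/-- norm -/
def nm (u : ℤ × ℤ) : ℤ := u.1 ^ 2 + u.2 ^ 2

/-- the vector `u₁ z + u₂ w` -/
def lin (u z w : ℤ × ℤ) : ℤ × ℤ := (u.1 * z.1 + u.2 * w.1, u.1 * z.2 + u.2 * w.2)

/-- number of prime factors with multiplicity of an integer -/
def om (n : ℤ) : ℕ := ArithmeticFunction.cardFactors n.natAbs

/-- A finite certificate: whatever values `X u` modulo `q` are given to the vectors of `V`, some
pair `u, v` of vectors of `V` with `dt u v ∣ dp u v` has `X u + X v = a + 2 Ω(dt u v)`. -/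
def IsCert (q : ℕ) (a : ZMod q) (V : Finset (ℤ × ℤ)) : Prop :=
  (∀ u ∈ V, Odd (nm u) ∧ u.2 ≠ 0) ∧
  ∀ X : ℤ × ℤ → ZMod q, ∃ u ∈ V, ∃ v ∈ V, dt u v ≠ 0 ∧ dt u v ∣ dp u v ∧
    X u + X v = a + 2 * (om (dt u v) : ZMod q)

/-- there is a certificate for `q` and `a` -/
def Cert (q : ℕ) (a : ZMod q) : Prop := ∃ V : Finset (ℤ × ℤ), IsCert q a V

/-- certificate on the line `{(i, i + 1)}` (one dimensional form) -/
def LineCert (q : ℕ) (a : ZMod q) : Prop :=
  ∃ N : ℕ, ∀ X : ℕ → ZMod q, ∃ i k : ℕ, 0 < k ∧ i + k ≤ N ∧ k ∣ 2 * i ^ 2 + 2 * i + 1 ∧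
    X i + X (i + k) = a + 2 * (ArithmeticFunction.cardFactors k : ZMod q)

theorem dp_sq_add_dt_sq (u v : ℤ × ℤ) : dp u v ^ 2 + dt u v ^ 2 = nm u * nm v := by
  simp only [nm, dp, dt]; ring

theorem dt_lin (u v z w : ℤ × ℤ) : dt (lin u z w) (lin v z w) = dt u v * dt z w := by
  simp only [dt, lin]; ring

theorem Cert.of_line {q : ℕ} {a : ZMod q} (h : LineCert q a) : Cert q a := by
  obtain ⟨N, hN⟩ := h
  refine ⟨(Finset.range (N + 1)).image fun i : ℕ => ((i : ℤ), (i : ℤ) + 1), ?_, ?_⟩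
  · intro u hu
    obtain ⟨i, -, rfl⟩ := Finset.mem_image.mp hu
    refine ⟨⟨(i : ℤ) ^ 2 + i, by simp only [nm]; ring⟩, ?_⟩
    simp only
    omega
  · intro X
    obtain ⟨i, k, hk, hik, hdvd, hX⟩ := hN fun i => X ((i : ℤ), (i : ℤ) + 1)
    refine ⟨_, Finset.mem_image_of_mem _ (Finset.mem_range.mpr (by omega : i < N + 1)),
      _, Finset.mem_image_of_mem _ (Finset.mem_range.mpr (by omega : i + k < N + 1)), ?_, ?_, ?_⟩
    · simp only [dt]; push_cast; intro h0; apply hk.ne'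
      have : (k : ℤ) = 0 := by linear_combination -h0
      exact_mod_cast this
    · have h1 : dt ((i : ℤ), (i : ℤ) + 1) (((i + k : ℕ) : ℤ), ((i + k : ℕ) : ℤ) + 1) = -(k : ℤ) := by
        simp only [dt]; push_cast; ring
      have h2 : dp ((i : ℤ), (i : ℤ) + 1) (((i + k : ℕ) : ℤ), ((i + k : ℕ) : ℤ) + 1) =
          (2 * (i : ℤ) ^ 2 + 2 * i + 1) + k * (2 * i + 1) := by
        simp only [dp]; push_cast; ring
      rw [h1, h2, neg_dvd]
      refine dvd_add ?_ (dvd_mul_right _ _)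
      exact_mod_cast hdvd
    · have h1 : dt ((i : ℤ), (i : ℤ) + 1) (((i + k : ℕ) : ℤ), ((i + k : ℕ) : ℤ) + 1) = -(k : ℤ) := by
        simp only [dt]; push_cast; ring
      have h3 : om (-(k : ℤ)) = ArithmeticFunction.cardFactors k := by
        simp [om]
      rw [h1, h3]
      exact hX

end Pool.Agent.OmAP

end

/-! ### from `Lib_MP_f1a94e_ap.Defs2` -/

section

/-!
# MP_f1a94e_nt: sieve definitions
-/

set_option autoImplicit false

namespace Pool.Agent.OmAP

open Finset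

/-- the primes in `(2K, z]` -/
def PP (K z : ℕ) : Finset ℕ := (Ioc (2 * K) z).filter Nat.Prime

/-- `w + L t z` -/
def shift (L : ℤ) (t : ℕ) (z w : ℤ × ℤ) : ℤ × ℤ := (w.1 + L * t * z.1, w.2 + L * t * z.2)

end Pool.Agent.OmAP

end

/-! ### from `Lib_MP_f1a94e_ap.Blocks` -/

section

/-!
# MP_f1a94e_nt: sums over the powerset of a disjoint union (piece S4)
-/

set_option autoImplicit false

namespace Pool.Agent.OmAP

open Finset

theorem sum_powerset_union (P Q : Finset ℕ) (h : Disjoint P Q) (f : Finset ℕ → ℝ) :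
    ∑ A ∈ (P ∪ Q).powerset, f A = ∑ A ∈ P.powerset, ∑ C ∈ Q.powerset, f (A ∪ C) := by
  rw [← sum_product']
  symm
  refine sum_bij' (fun x _ => x.1 ∪ x.2) (fun A _ => (A ∩ P, A ∩ Q)) ?_ ?_ ?_ ?_ ?_
  · intro x hx
    simp only [mem_product, mem_powerset] at hx ⊢
    exact union_subset_union hx.1 hx.2
  · intro A _
    simp only [mem_product, mem_powerset]
    exact ⟨inter_subset_right, inter_subset_right⟩
  · intro x hx
    simp only [mem_product, mem_powerset] at hx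
    have h1 : (x.1 ∪ x.2) ∩ P = x.1 := by
      rw [union_inter_distrib_right, inter_eq_left.2 hx.1,
        disjoint_iff_inter_eq_empty.1 (h.symm.mono_left hx.2), union_empty]
    have h2 : (x.1 ∪ x.2) ∩ Q = x.2 := by
      rw [union_inter_distrib_right, inter_eq_left.2 hx.2,
        disjoint_iff_inter_eq_empty.1 (h.mono_left hx.1), empty_union]
    exact Prod.ext h1 h2
  · intro A hA
    simp only [mem_powerset] at hA
    show A ∩ P ∪ A ∩ Q = A
    rw [← inter_union_distrib_left, inter_eq_left.2 hA]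
  · intro x _
    rfl

theorem sum_powerset_blocks (m : ℕ) (B : ℕ → Finset ℕ)
    (hd : ∀ i < m, ∀ j < m, i ≠ j → Disjoint (B i) (B j)) (φ : ℕ → Finset ℕ → ℝ) :
    ∑ A ∈ ((range m).biUnion B).powerset, ∏ j ∈ range m, φ j (A ∩ B j) =
      ∏ j ∈ range m, ∑ A ∈ (B j).powerset, φ j A := by
  induction m with
  | zero => simp
  | succ m ih =>
    have hd' : ∀ i < m, ∀ j < m, i ≠ j → Disjoint (B i) (B j) := fun i hi j hj hij =>
      hd i (hi.trans (Nat.lt_succ_self m)) j (hj.trans (Nat.lt_succ_self m)) hij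
    have hdis : Disjoint ((range m).biUnion B) (B m) := by
      rw [disjoint_biUnion_left]
      intro i hi
      have hi' := mem_range.1 hi
      exact hd i (hi'.trans (Nat.lt_succ_self m)) m (Nat.lt_succ_self m) hi'.ne
    have hU : (range (m + 1)).biUnion B = (range m).biUnion B ∪ B m := by
      rw [range_add_one, biUnion_insert, union_comm]
    rw [hU, sum_powerset_union _ _ hdis, prod_range_succ, ← ih hd', sum_mul]
    refine sum_congr rfl fun A hA => ?_
    rw [mul_sum]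
    refine sum_congr rfl fun C hC => ?_
    rw [mem_powerset] at hA hC
    rw [prod_range_succ]
    congr 1
    · refine prod_congr rfl fun j hj => ?_
      have hj' := mem_range.1 hj
      have : C ∩ B j = ∅ := disjoint_iff_inter_eq_empty.1
        ((hd m (Nat.lt_succ_self m) j (hj'.trans (Nat.lt_succ_self m)) hj'.ne').mono_left hC)
      rw [union_inter_distrib_right, this, union_empty]
    · have : A ∩ B m = ∅ := disjoint_iff_inter_eq_empty.1 (hdis.mono_left hA)
      rw [union_inter_distrib_right, this, empty_union, inter_eq_left.2 hC]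

theorem powerset_card_sum (P : Finset ℕ) (b : ℕ) (c : ℕ → ℝ) (g : ℕ → ℝ)
    (hc : ∀ k, b < k → c k = 0) :
    ∑ A ∈ P.powerset, c A.card * ∏ p ∈ A, g p =
      ∑ k ∈ range (b + 1), c k * ∑ A ∈ P.powersetCard k, ∏ p ∈ A, g p := by
  have h1 : ∑ A ∈ P.powerset, c A.card * ∏ p ∈ A, g p =
      ∑ k ∈ range (max b P.card + 1), c k * ∑ A ∈ P.powersetCard k, ∏ p ∈ A, g p := by
    have hmap : ∀ A ∈ P.powerset, A.card ∈ range (max b P.card + 1) := by
      intro A hA
      rw [mem_powerset] at hA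
      rw [mem_range]
      exact Nat.lt_succ_of_le ((card_le_card hA).trans (le_max_right _ _))
    rw [← sum_fiberwise_of_maps_to hmap]
    refine sum_congr rfl fun k _ => ?_
    rw [mul_sum, ← powersetCard_eq_filter]
    refine sum_congr rfl fun A hA => ?_
    rw [(mem_powersetCard.1 hA).2]
  rw [h1]
  symm
  refine sum_subset (range_subset_range.2 (Nat.succ_le_succ (le_max_left _ _))) ?_
  intro k _ hk
  rw [mem_range, not_lt] at hk
  rw [hc k hk, zero_mul]

end Pool.Agent.OmAP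

end

/-! ### from `Lib_MP_f1a94e_ap.Esymm` -/

section

/-!
# MP_f1a94e_nt: elementary symmetric sums
-/

set_option autoImplicit false

namespace Pool.Agent.OmAP

open Finset ArithmeticFunction

namespace Esymm

theorem e_zero (P : Finset ℕ) (g : ℕ → ℝ) :
    ∑ A ∈ P.powersetCard 0, ∏ p ∈ A, g p = 1 := by
  simp

theorem e_empty (g : ℕ → ℝ) (k : ℕ) :
    ∑ A ∈ (∅ : Finset ℕ).powersetCard (k + 1), ∏ p ∈ A, g p = 0 := by
  have : (∅ : Finset ℕ).powersetCard (k + 1) = ∅ :=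
    Finset.powersetCard_eq_empty.2 (by simp)
  rw [this, Finset.sum_empty]

theorem e_insert (P : Finset ℕ) (a : ℕ) (ha : a ∉ P) (g : ℕ → ℝ) (k : ℕ) :
    ∑ A ∈ (insert a P).powersetCard (k + 1), ∏ p ∈ A, g p =
      ∑ A ∈ P.powersetCard (k + 1), ∏ p ∈ A, g p +
        g a * ∑ A ∈ P.powersetCard k, ∏ p ∈ A, g p := by
  rw [Finset.powersetCard_succ_insert ha, Finset.sum_union]
  · congr 1
    rw [Finset.sum_image, Finset.mul_sum]
    · apply Finset.sum_congr rfl
      intro A hA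
      have hA' : a ∉ A := fun h => ha ((Finset.mem_powersetCard.1 hA).1 h)
      rw [Finset.prod_insert hA']
    · intro A hA B hB hAB
      have hA' : a ∉ A := fun h => ha ((Finset.mem_powersetCard.1 (Finset.mem_coe.1 hA)).1 h)
      have hB' : a ∉ B := fun h => ha ((Finset.mem_powersetCard.1 (Finset.mem_coe.1 hB)).1 h)
      calc A = (insert a A).erase a := (Finset.erase_insert hA').symm
        _ = (insert a B).erase a := by rw [hAB]
        _ = B := Finset.erase_insert hB'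
  · rw [Finset.disjoint_left]
    intro A hA hA2
    obtain ⟨B, -, rfl⟩ := Finset.mem_image.1 hA2
    exact ha ((Finset.mem_powersetCard.1 hA).1 (Finset.mem_insert_self _ _))

theorem e_nonneg (P : Finset ℕ) (g : ℕ → ℝ) (hg : ∀ p ∈ P, 0 ≤ g p) (k : ℕ) :
    0 ≤ ∑ A ∈ P.powersetCard k, ∏ p ∈ A, g p :=
  Finset.sum_nonneg fun _ hA => Finset.prod_nonneg fun p hp =>
    hg p ((Finset.mem_powersetCard.1 hA).1 hp)

theorem pow_step (G x : ℝ) (hG : 0 ≤ G) (hx : 0 ≤ x) (k : ℕ) :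
    G ^ (k + 1) + ((k : ℝ) + 1) * x * G ^ k ≤ (G + x) ^ (k + 1) := by
  induction k with
  | zero => simp
  | succ k ih =>
    have h1 : (G + x) * (G ^ (k + 1) + ((k : ℝ) + 1) * x * G ^ k) ≤ (G + x) * (G + x) ^ (k + 1) :=
      mul_le_mul_of_nonneg_left ih (by linarith)
    have h2 : (G + x) ^ (k + 1 + 1) = (G + x) * (G + x) ^ (k + 1) := by ring
    rw [h2]
    refine le_trans ?_ h1
    push_cast
    have h3 : 0 ≤ ((k : ℝ) + 1) * x * x * G ^ k := by positivity
    have h4 : (G + x) * (G ^ (k + 1) + ((k : ℝ) + 1) * x * G ^ k) =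
      G ^ (k + 1 + 1) + ((k : ℝ) + 1 + 1) * x * G ^ (k + 1) + ((k : ℝ) + 1) * x * x * G ^ k := by
      ring
    rw [h4]
    linarith

end Esymm

open Esymm

theorem esymm_le (P : Finset ℕ) (g : ℕ → ℝ) (hg : ∀ p ∈ P, 0 ≤ g p) (k : ℕ) :
    ∑ A ∈ P.powersetCard k, ∏ p ∈ A, g p ≤ (∑ p ∈ P, g p) ^ k / (k.factorial : ℝ) := by
  induction P using Finset.induction_on generalizing k with
  | empty =>
    cases k with
    | zero => simp
    | succ k => rw [e_empty]; simp
  | insert a P ha ih =>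
    have hg' : ∀ p ∈ P, 0 ≤ g p := fun p hp => hg p (Finset.mem_insert_of_mem hp)
    have hga : 0 ≤ g a := hg a (Finset.mem_insert_self _ _)
    cases k with
    | zero => simp
    | succ k =>
      rw [e_insert P a ha g k, Finset.sum_insert ha]
      have h1 := ih hg' (k + 1)
      have h2 := mul_le_mul_of_nonneg_left (ih hg' k) hga
      have hG : 0 ≤ ∑ p ∈ P, g p := Finset.sum_nonneg hg'
      have h3 := pow_step _ _ hG hga k
      have hf : (0 : ℝ) < (k.factorial : ℝ) := by exact_mod_cast k.factorial_pos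
      have hf1 : ((k + 1).factorial : ℝ) = ((k : ℝ) + 1) * (k.factorial : ℝ) := by
        rw [Nat.factorial_succ]; push_cast; ring
      have hk1 : (0 : ℝ) < (k : ℝ) + 1 := by positivity
      rw [add_comm (g a)]
      refine (add_le_add h1 h2).trans ?_
      rw [hf1]
      have h4 : (∑ p ∈ P, g p) ^ (k + 1) / (((k : ℝ) + 1) * (k.factorial : ℝ)) +
          g a * ((∑ p ∈ P, g p) ^ k / (k.factorial : ℝ)) =
          ((∑ p ∈ P, g p) ^ (k + 1) + ((k : ℝ) + 1) * g a * (∑ p ∈ P, g p) ^ k) /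
            (((k : ℝ) + 1) * (k.factorial : ℝ)) := by
        field_simp
      rw [h4]
      exact div_le_div_of_nonneg_right h3 (by positivity)

theorem bonf_prod (P : Finset ℕ) (g : ℕ → ℝ) (hg : ∀ p ∈ P, 0 ≤ g p ∧ g p ≤ 1) (b : ℕ)
    (hb : Even b) :
    ∏ p ∈ P, (1 - g p) ≤
      ∑ k ∈ range (b + 1), (-1 : ℝ) ^ k * ∑ A ∈ P.powersetCard k, ∏ p ∈ A, g p := by
  have main : ∀ P : Finset ℕ, (∀ p ∈ P, 0 ≤ g p ∧ g p ≤ 1) → ∀ b : ℕ,
      0 ≤ (-1 : ℝ) ^ b * (∑ k ∈ range (b + 1), (-1 : ℝ) ^ k *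
        ∑ A ∈ P.powersetCard k, ∏ p ∈ A, g p - ∏ p ∈ P, (1 - g p)) := by
    intro P
    induction P using Finset.induction_on with
    | empty =>
      intro _ b
      have : ∑ k ∈ range (b + 1), (-1 : ℝ) ^ k *
          ∑ A ∈ (∅ : Finset ℕ).powersetCard k, ∏ p ∈ A, g p = 1 := by
        rw [Finset.sum_range_succ', e_zero]
        simp only [e_empty, mul_zero, Finset.sum_const_zero, pow_zero, mul_one, zero_add]
      rw [this]
      simp
    | insert a P ha ih =>
      intro hP b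
      have hP' : ∀ p ∈ P, 0 ≤ g p ∧ g p ≤ 1 := fun p hp => hP p (Finset.mem_insert_of_mem hp)
      have hga := hP a (Finset.mem_insert_self _ _)
      have hpi0 : 0 ≤ ∏ p ∈ P, (1 - g p) :=
        Finset.prod_nonneg fun p hp => by linarith [(hP' p hp).2]
      have hpi1 : ∏ p ∈ P, (1 - g p) ≤ 1 :=
        Finset.prod_le_one (fun p hp => by linarith [(hP' p hp).2])
          fun p hp => by linarith [(hP' p hp).1]
      rw [Finset.prod_insert ha]
      cases b with
      | zero =>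
        simp only [zero_add, Finset.range_one, Finset.sum_singleton, pow_zero, one_mul]
        rw [e_zero]
        nlinarith
      | succ b =>
        have h1 := ih hP' (b + 1)
        have h2 := mul_nonneg hga.1 (ih hP' b)
        have e1 : ∑ k ∈ range (b + 1 + 1), (-1 : ℝ) ^ k *
            ∑ A ∈ (insert a P).powersetCard k, ∏ p ∈ A, g p =
            ∑ k ∈ range (b + 1 + 1), (-1 : ℝ) ^ k * ∑ A ∈ P.powersetCard k, ∏ p ∈ A, g p -
            g a * ∑ k ∈ range (b + 1), (-1 : ℝ) ^ k * ∑ A ∈ P.powersetCard k, ∏ p ∈ A, g p := by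
          rw [Finset.sum_range_succ', Finset.sum_range_succ' (fun k => (-1 : ℝ) ^ k *
            ∑ A ∈ P.powersetCard k, ∏ p ∈ A, g p) (b + 1), e_zero, e_zero, Finset.mul_sum]
          have : ∀ k ∈ range (b + 1), (-1 : ℝ) ^ (k + 1) *
              ∑ A ∈ (insert a P).powersetCard (k + 1), ∏ p ∈ A, g p =
              (-1 : ℝ) ^ (k + 1) * ∑ A ∈ P.powersetCard (k + 1), ∏ p ∈ A, g p -
              g a * ((-1 : ℝ) ^ k * ∑ A ∈ P.powersetCard k, ∏ p ∈ A, g p) := by
            intro k _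
            rw [e_insert P a ha g k]
            ring
          rw [Finset.sum_congr rfl this, Finset.sum_sub_distrib]
          ring
        rw [e1]
        have e2 : (-1 : ℝ) ^ (b + 1) = -(-1) ^ b := by ring
        rw [e2] at h1 ⊢
        nlinarith
  have := main P hg b
  rw [hb.neg_one_pow, one_mul] at this
  linarith

theorem exp_le_prod (P : Finset ℕ) (g : ℕ → ℝ) (hg : ∀ p ∈ P, 0 ≤ g p ∧ g p ≤ 1 / 2) :
    Real.exp (-(2 * ∑ p ∈ P, g p)) ≤ ∏ p ∈ P, (1 - g p) := by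
  rw [Finset.mul_sum, ← Finset.sum_neg_distrib, Real.exp_sum]
  apply Finset.prod_le_prod (fun p _ => (Real.exp_pos _).le)
  intro p hp
  obtain ⟨h0, h1⟩ := hg p hp
  have h2 : 2 * g p + 1 ≤ Real.exp (2 * g p) := Real.add_one_le_exp _
  rw [Real.exp_neg, inv_le_comm₀ (Real.exp_pos _) (by linarith)]
  refine le_trans ?_ h2
  rw [inv_le_iff_one_le_mul₀ (by linarith)]
  nlinarith

end Pool.Agent.OmAP

end

/-! ### from `Lib_MP_f1a94e_ap.Ineq` -/

section

/-!
# MP_f1a94e_nt: elementary inequalities for the Brun-Hooley weights (piece S2)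
-/

set_option autoImplicit false

namespace Pool.Agent.OmAP

open Finset

theorem prod_sub_le {ι : Type*} [DecidableEq ι] (s : Finset ι) (x y : ι → ℝ)
    (hx : ∀ i ∈ s, 0 ≤ x i) (hxy : ∀ i ∈ s, x i ≤ y i) :
    ∏ i ∈ s, y i - ∑ l ∈ s, (y l - x l) * ∏ i ∈ s.erase l, y i ≤ ∏ i ∈ s, x i := by
  induction s using Finset.induction_on with
  | empty => simp
  | insert i t hi ih =>
    have hx' : ∀ j ∈ t, 0 ≤ x j := fun j hj => hx j (mem_insert_of_mem hj)
    have hxy' : ∀ j ∈ t, x j ≤ y j := fun j hj => hxy j (mem_insert_of_mem hj)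
    have ih' := ih hx' hxy'
    have hxi := hx i (mem_insert_self i t)
    have hxyi := hxy i (mem_insert_self i t)
    rw [prod_insert hi, prod_insert hi, sum_insert hi, erase_insert hi]
    have hsum : ∑ l ∈ t, (y l - x l) * ∏ j ∈ (insert i t).erase l, y j =
        y i * ∑ l ∈ t, (y l - x l) * ∏ j ∈ t.erase l, y j := by
      rw [mul_sum]
      refine sum_congr rfl fun l hl => ?_
      have hne : l ≠ i := fun h => hi (h ▸ hl)
      rw [erase_insert_of_ne hne.symm, prod_insert (fun h => hi (mem_of_mem_erase h))]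
      ring
    rw [hsum]
    have hD : 0 ≤ ∑ l ∈ t, (y l - x l) * ∏ j ∈ t.erase l, y j := by
      refine sum_nonneg fun l hl => mul_nonneg (sub_nonneg.2 (hxy' l hl)) ?_
      exact prod_nonneg fun j hj => (hx' j (mem_of_mem_erase hj)).trans (hxy' j (mem_of_mem_erase hj))
    nlinarith [mul_le_mul_of_nonneg_left ih' hxi, mul_nonneg (sub_nonneg.2 hxyi) hD]

/-- the alternating sum of binomial coefficients -/
theorem alt_sum_succ (b s : ℕ) :
    ∑ k ∈ range (b + 1), (-1 : ℝ) ^ k * ((s + 1).choose k : ℝ) = (-1) ^ b * (s.choose b : ℝ) := by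
  induction b with
  | zero => simp
  | succ b ih =>
    rw [sum_range_succ, ih, Nat.choose_succ_succ s b]
    push_cast
    ring

theorem alt_sum_zero (b : ℕ) :
    ∑ k ∈ range (b + 1), (-1 : ℝ) ^ k * ((0 : ℕ).choose k : ℝ) = 1 := by
  rw [sum_eq_single 0]
  · simp
  · intro k _ hk
    rw [Nat.choose_eq_zero_of_lt (Nat.pos_of_ne_zero hk)]
    simp
  · simp

theorem bonf_lower (b s : ℕ) (hb : Even b) :
    (if s = 0 then (1 : ℝ) else 0) ≤ ∑ k ∈ range (b + 1), (-1 : ℝ) ^ k * (s.choose k : ℝ) := by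
  rcases s with _ | s
  · rw [alt_sum_zero]; simp
  · rw [alt_sum_succ, hb.neg_one_pow]
    simp

theorem bonf_upper (b s : ℕ) (hb : Even b) :
    ∑ k ∈ range (b + 1), (-1 : ℝ) ^ k * (s.choose k : ℝ) - (if s = 0 then (1 : ℝ) else 0) ≤
      (s.choose (b + 1) : ℝ) := by
  rcases s with _ | s
  · rw [alt_sum_zero]; simp
  · rw [alt_sum_succ, hb.neg_one_pow, Nat.choose_succ_succ]
    push_cast
    simp

end Pool.Agent.OmAP

end

/-! ### from `Lib_MP_f1a94e_ap.Core` -/

section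

/-!
# MP_f1a94e_nt: Brun-Hooley weights for given blocks
-/

set_option autoImplicit false

namespace Pool.Agent.OmAP

open Finset ArithmeticFunction

/-- truncated Moebius weight -/
noncomputable def cw (b : ℕ → ℕ) (j k : ℕ) : ℝ := if k ≤ b j then (-1) ^ k else 0

/-- correction weight -/
noncomputable def ew (b : ℕ → ℕ) (l k : ℕ) : ℝ := if k = b l + 1 then 1 else 0

/-- Brun-Hooley weight -/
noncomputable def lw (m : ℕ) (B : ℕ → Finset ℕ) (b : ℕ → ℕ) (A : Finset ℕ) : ℝ :=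
  ∏ j ∈ range m, cw b j (A ∩ B j).card -
    ∑ l ∈ range m, ew b l (A ∩ B l).card * ∏ j ∈ (range m).erase l, cw b j (A ∩ B j).card

theorem abs_cw_le (b : ℕ → ℕ) (j k : ℕ) : |cw b j k| ≤ 1 := by
  unfold cw
  split_ifs with h
  · simp [abs_pow]
  · simp

theorem abs_ew_le (b : ℕ → ℕ) (j k : ℕ) : |ew b j k| ≤ 1 := by
  unfold ew
  split_ifs with h
  · simp
  · simp

theorem abs_prod_cw_le (b : ℕ → ℕ) (s : Finset ℕ) (f : ℕ → ℕ) :
    |∏ j ∈ s, cw b j (f j)| ≤ 1 := by
  rw [Finset.abs_prod]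
  exact Finset.prod_le_one (fun i _ => abs_nonneg _) fun i _ => abs_cw_le _ _ _

/-- if block `l0` has more than `b l0` elements only one term is left -/
theorem lw_eq_of_big (m : ℕ) (B : ℕ → Finset ℕ) (b : ℕ → ℕ) (A : Finset ℕ) (l0 : ℕ)
    (hl : l0 < m) (hb : b l0 < (A ∩ B l0).card) :
    lw m B b A = -(ew b l0 (A ∩ B l0).card *
      ∏ j ∈ (range m).erase l0, cw b j (A ∩ B j).card) := by
  have hc0 : cw b l0 (A ∩ B l0).card = 0 := by
    unfold cw
    rw [if_neg (by omega)]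
  have h1 : ∏ j ∈ range m, cw b j (A ∩ B j).card = 0 :=
    Finset.prod_eq_zero (mem_range.mpr hl) hc0
  have h2 : ∑ l ∈ range m, ew b l (A ∩ B l).card * ∏ j ∈ (range m).erase l,
      cw b j (A ∩ B j).card = ew b l0 (A ∩ B l0).card *
      ∏ j ∈ (range m).erase l0, cw b j (A ∩ B j).card := by
    apply Finset.sum_eq_single_of_mem l0 (mem_range.mpr hl)
    intro l _ hne
    have : ∏ j ∈ (range m).erase l, cw b j (A ∩ B j).card = 0 :=
      Finset.prod_eq_zero (Finset.mem_erase.mpr ⟨hne.symm, mem_range.mpr hl⟩) hc0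
    rw [this, mul_zero]
  rw [lw, h1, h2, zero_sub]

theorem abs_lw_le (m : ℕ) (B : ℕ → Finset ℕ) (b : ℕ → ℕ) (A : Finset ℕ) : |lw m B b A| ≤ 1 := by
  by_cases h : ∃ l0 < m, b l0 < (A ∩ B l0).card
  · obtain ⟨l0, hl, hb⟩ := h
    rw [lw_eq_of_big m B b A l0 hl hb, abs_neg, abs_mul]
    exact mul_le_one₀ (abs_ew_le _ _ _) (abs_nonneg _)
      (abs_prod_cw_le b _ fun j => (A ∩ B j).card)
  · push Not at h
    have h2 : ∑ l ∈ range m, ew b l (A ∩ B l).card * ∏ j ∈ (range m).erase l,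
        cw b j (A ∩ B j).card = 0 := by
      apply Finset.sum_eq_zero
      intro l hl
      have := h l (mem_range.mp hl)
      unfold ew
      rw [if_neg (by omega), zero_mul]
    rw [lw, h2, sub_zero]
    exact abs_prod_cw_le b _ fun j => (A ∩ B j).card

theorem lw_card_le (m : ℕ) (B : ℕ → Finset ℕ) (b : ℕ → ℕ) (A : Finset ℕ) (h : lw m B b A ≠ 0)
    (j : ℕ) (hj : j < m) : (A ∩ B j).card ≤ b j + 1 := by
  by_contra hcon
  push Not at hcon
  apply h
  rw [lw_eq_of_big m B b A j hj (by omega)]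
  have : ew b j (A ∩ B j).card = 0 := by
    unfold ew
    rw [if_neg (by omega)]
  rw [this, zero_mul, neg_zero]

theorem prod_blocks (m : ℕ) (B : ℕ → Finset ℕ)
    (hd : ∀ i < m, ∀ j < m, i ≠ j → Disjoint (B i) (B j)) (g : ℕ → ℝ) (A : Finset ℕ)
    (hA : A ⊆ (range m).biUnion B) : ∏ p ∈ A, g p = ∏ j ∈ range m, ∏ p ∈ A ∩ B j, g p := by
  have h1 : A = (range m).biUnion fun j => A ∩ B j := by
    ext p
    simp only [mem_biUnion, mem_inter]
    constructor
    · intro hp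
      obtain ⟨j, hj, hpj⟩ := mem_biUnion.mp (hA hp)
      exact ⟨j, hj, hp, hpj⟩
    · rintro ⟨j, _, hp, _⟩
      exact hp
  conv_lhs => rw [h1]
  apply Finset.prod_biUnion
  intro i hi j hj hij
  have hi' := mem_range.mp (Finset.mem_coe.mp hi)
  have hj' := mem_range.mp (Finset.mem_coe.mp hj)
  exact (hd i hi' j hj' hij).mono inter_subset_right inter_subset_right

/-- `Y_j` -/
noncomputable def Yw (B : ℕ → Finset ℕ) (b : ℕ → ℕ) (g : ℕ → ℝ) (j : ℕ) : ℝ :=
  ∑ k ∈ range (b j + 1), (-1 : ℝ) ^ k * ∑ A ∈ (B j).powersetCard k, ∏ p ∈ A, g p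

/-- `Z_l` -/
noncomputable def Zw (B : ℕ → Finset ℕ) (b : ℕ → ℕ) (g : ℕ → ℝ) (l : ℕ) : ℝ :=
  ∑ A ∈ (B l).powersetCard (b l + 1), ∏ p ∈ A, g p

theorem sum_cw (B : ℕ → Finset ℕ) (b : ℕ → ℕ) (g : ℕ → ℝ) (j : ℕ) :
    ∑ A ∈ (B j).powerset, cw b j A.card * ∏ p ∈ A, g p = Yw B b g j := by
  rw [powerset_card_sum (B j) (b j) (cw b j) g
    (fun k hk => by unfold cw; rw [if_neg (by omega)]), Yw]
  apply Finset.sum_congr rfl
  intro k hk
  have := mem_range.mp hk
  unfold cw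
  rw [if_pos (by omega)]

theorem sum_ew (B : ℕ → Finset ℕ) (b : ℕ → ℕ) (g : ℕ → ℝ) (l : ℕ) :
    ∑ A ∈ (B l).powerset, ew b l A.card * ∏ p ∈ A, g p = Zw B b g l := by
  rw [powerset_card_sum (B l) (b l + 1) (ew b l) g
    (fun k hk => by unfold ew; rw [if_neg (by omega)]), Zw]
  rw [Finset.sum_eq_single_of_mem (b l + 1) (mem_range.mpr (by omega))]
  · unfold ew
    rw [if_pos rfl, one_mul]
  · intro k _ hne
    unfold ew
    rw [if_neg hne, zero_mul]

theorem lw_sum (m : ℕ) (B : ℕ → Finset ℕ) (b : ℕ → ℕ)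
    (hd : ∀ i < m, ∀ j < m, i ≠ j → Disjoint (B i) (B j)) (g : ℕ → ℝ) :
    ∑ A ∈ ((range m).biUnion B).powerset, lw m B b A * ∏ p ∈ A, g p =
      ∏ j ∈ range m, Yw B b g j -
        ∑ l ∈ range m, Zw B b g l * ∏ j ∈ (range m).erase l, Yw B b g j := by
  have key : ∀ A ∈ ((range m).biUnion B).powerset, lw m B b A * ∏ p ∈ A, g p =
      ∏ j ∈ range m, (cw b j (A ∩ B j).card * ∏ p ∈ A ∩ B j, g p) -
      ∑ l ∈ range m, ∏ j ∈ range m, ((if j = l then ew b j (A ∩ B j).card else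
        cw b j (A ∩ B j).card) * ∏ p ∈ A ∩ B j, g p) := by
    intro A hA
    have hA' := mem_powerset.mp hA
    rw [lw, sub_mul, Finset.prod_mul_distrib, ← prod_blocks m B hd g A hA', Finset.sum_mul]
    congr 1
    apply Finset.sum_congr rfl
    intro l hl
    rw [Finset.prod_mul_distrib, ← prod_blocks m B hd g A hA', ← Finset.mul_prod_erase _ _ hl,
      if_pos rfl]
    congr 2
    apply Finset.prod_congr rfl
    intro j hj
    rw [if_neg (Finset.ne_of_mem_erase hj)]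
  rw [Finset.sum_congr rfl key, Finset.sum_sub_distrib, Finset.sum_comm]
  congr 1
  · rw [sum_powerset_blocks m B hd (fun j A => cw b j A.card * ∏ p ∈ A, g p)]
    exact Finset.prod_congr rfl fun j _ => sum_cw B b g j
  · apply Finset.sum_congr rfl
    intro l hl
    rw [sum_powerset_blocks m B hd (fun j A => (if j = l then ew b j A.card else
        cw b j A.card) * ∏ p ∈ A, g p), ← Finset.mul_prod_erase _ _ hl]
    congr 1
    · simp only [if_pos]
      exact sum_ew B b g l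
    · apply Finset.prod_congr rfl
      intro j hj
      simp only [if_neg (Finset.ne_of_mem_erase hj)]
      exact sum_cw B b g j

theorem lw_upper (m : ℕ) (B : ℕ → Finset ℕ) (b : ℕ → ℕ) (hb : ∀ j, Even (b j))
    (hd : ∀ i < m, ∀ j < m, i ≠ j → Disjoint (B i) (B j)) (S : Finset ℕ)
    (hS : S ⊆ (range m).biUnion B) :
    ∑ A ∈ S.powerset, lw m B b A ≤ if S = ∅ then 1 else 0 := by
  set B' : ℕ → Finset ℕ := fun j => S ∩ B j with hB'
  have hd' : ∀ i < m, ∀ j < m, i ≠ j → Disjoint (B' i) (B' j) := fun i hi j hj hij =>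
    (hd i hi j hj hij).mono inter_subset_right inter_subset_right
  have hSU : (range m).biUnion B' = S := by
    ext p
    simp only [hB', mem_biUnion, mem_inter]
    constructor
    · rintro ⟨j, _, hp, _⟩
      exact hp
    · intro hp
      obtain ⟨j, hj, hpj⟩ := mem_biUnion.mp (hS hp)
      exact ⟨j, hj, hp, hpj⟩
  have hlw : ∀ A ∈ S.powerset, lw m B b A = lw m B' b A := by
    intro A hA
    have hA' := mem_powerset.mp hA
    have : ∀ j, A ∩ B' j = A ∩ B j := by
      intro j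
      simp only [hB', ← inter_assoc, inter_eq_left.mpr hA']
    simp only [lw, this]
  have h1 := lw_sum m B' b hd' (fun _ => 1)
  simp only [prod_const_one, mul_one] at h1
  rw [hSU] at h1
  rw [Finset.sum_congr rfl hlw, h1]
  have hY : ∀ j, Yw B' b (fun _ => 1) j =
      ∑ k ∈ range (b j + 1), (-1 : ℝ) ^ k * ((B' j).card.choose k : ℝ) := by
    intro j
    simp [Yw]
  have hZ : ∀ l, Zw B' b (fun _ => 1) l = ((B' l).card.choose (b l + 1) : ℝ) := by
    intro l
    simp [Zw]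
  set x : ℕ → ℝ := fun j => if (B' j).card = 0 then 1 else 0 with hx
  have hx0 : ∀ j, 0 ≤ x j := by
    intro j
    simp only [hx]
    split_ifs <;> norm_num
  have hxy : ∀ j, x j ≤ Yw B' b (fun _ => 1) j := by
    intro j
    rw [hY]
    exact bonf_lower (b j) (B' j).card (hb j)
  have hyx : ∀ j, Yw B' b (fun _ => 1) j - x j ≤ Zw B' b (fun _ => 1) j := by
    intro j
    rw [hY, hZ]
    exact bonf_upper (b j) (B' j).card (hb j)
  have h2 := prod_sub_le (range m) x (Yw B' b fun _ => 1) (fun i _ => hx0 i) fun i _ => hxy i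
  have h3 : ∑ l ∈ range m, (Yw B' b (fun _ => 1) l - x l) *
      ∏ j ∈ (range m).erase l, Yw B' b (fun _ => 1) j ≤
      ∑ l ∈ range m, Zw B' b (fun _ => 1) l *
      ∏ j ∈ (range m).erase l, Yw B' b (fun _ => 1) j := by
    apply Finset.sum_le_sum
    intro l _
    apply mul_le_mul_of_nonneg_right (hyx l)
    exact Finset.prod_nonneg fun j _ => (hx0 j).trans (hxy j)
  have h4 : ∏ i ∈ range m, x i ≤ if S = ∅ then 1 else 0 := by
    split_ifs with hSe
    · exact Finset.prod_le_one (fun i _ => hx0 i) fun i _ => by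
        simp only [hx]
        split_ifs <;> norm_num
    · obtain ⟨p, hp⟩ := Finset.nonempty_iff_ne_empty.mpr hSe
      obtain ⟨j, hj, hpj⟩ := mem_biUnion.mp (hS hp)
      have : x j = 0 := by
        simp only [hx]
        rw [if_neg]
        intro h0
        have h00 := Finset.card_eq_zero.mp h0
        have : p ∈ B' j := mem_inter.mpr ⟨hp, hpj⟩
        rw [h00] at this
        exact absurd this (Finset.notMem_empty p)
      rw [Finset.prod_eq_zero hj this]
  linarith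

theorem lw_lower (m : ℕ) (B : ℕ → Finset ℕ) (b : ℕ → ℕ) (hb : ∀ j, Even (b j))
    (hd : ∀ i < m, ∀ j < m, i ≠ j → Disjoint (B i) (B j)) (g : ℕ → ℝ)
    (hg : ∀ p ∈ (range m).biUnion B, 0 ≤ g p ∧ g p ≤ 1 / 2)
    (hs : ∑ j ∈ range m, (∑ p ∈ B j, g p) ^ (b j + 1) / ((b j + 1).factorial : ℝ) *
      Real.exp (2 * ∑ p ∈ B j, g p) ≤ 1 / 2) :
    1 / 2 * ∏ p ∈ (range m).biUnion B, (1 - g p) ≤
      ∑ A ∈ ((range m).biUnion B).powerset, lw m B b A * ∏ p ∈ A, g p := by
  rw [lw_sum m B b hd g]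
  have hgj : ∀ j ∈ range m, ∀ p ∈ B j, 0 ≤ g p ∧ g p ≤ 1 / 2 := fun j hj p hp =>
    hg p (mem_biUnion.mpr ⟨j, hj, hp⟩)
  have hV : ∀ j ∈ range m, Real.exp (-(2 * ∑ p ∈ B j, g p)) ≤ ∏ p ∈ B j, (1 - g p) :=
    fun j hj => exp_le_prod (B j) g (hgj j hj)
  have hYV : ∀ j ∈ range m, ∏ p ∈ B j, (1 - g p) ≤ Yw B b g j := fun j hj =>
    bonf_prod (B j) g (fun p hp => ⟨(hgj j hj p hp).1, by linarith [(hgj j hj p hp).2]⟩) (b j) (hb j)
  have hY0 : ∀ j ∈ range m, 0 < Yw B b g j := fun j hj =>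
    (Real.exp_pos _).trans_le ((hV j hj).trans (hYV j hj))
  have hZ0 : ∀ l ∈ range m, Zw B b g l ≤
      (∑ p ∈ B l, g p) ^ (b l + 1) / ((b l + 1).factorial : ℝ) := fun l hl =>
    esymm_le (B l) g (fun p hp => (hgj l hl p hp).1) (b l + 1)
  have hP0 : 0 < ∏ j ∈ range m, Yw B b g j := Finset.prod_pos hY0
  have h1 : ∀ l ∈ range m, Zw B b g l * ∏ j ∈ (range m).erase l, Yw B b g j ≤
      ((∑ p ∈ B l, g p) ^ (b l + 1) / ((b l + 1).factorial : ℝ) *
        Real.exp (2 * ∑ p ∈ B l, g p)) * ∏ j ∈ range m, Yw B b g j := by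
    intro l hl
    have hE0 : 0 ≤ ∏ j ∈ (range m).erase l, Yw B b g j :=
      Finset.prod_nonneg fun j hj => (hY0 j (Finset.mem_of_mem_erase hj)).le
    have h2 : (1 : ℝ) ≤ Real.exp (2 * ∑ p ∈ B l, g p) * Yw B b g l := by
      have h3 : Real.exp (-(2 * ∑ p ∈ B l, g p)) ≤ Yw B b g l := (hV l hl).trans (hYV l hl)
      calc (1 : ℝ) = Real.exp (2 * ∑ p ∈ B l, g p) * Real.exp (-(2 * ∑ p ∈ B l, g p)) := by
            rw [← Real.exp_add, add_neg_cancel, Real.exp_zero]
        _ ≤ _ := mul_le_mul_of_nonneg_left h3 (Real.exp_pos _).le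
    have hG0 : 0 ≤ (∑ p ∈ B l, g p) ^ (b l + 1) / ((b l + 1).factorial : ℝ) := by
      apply div_nonneg _ (Nat.cast_nonneg _)
      exact pow_nonneg (Finset.sum_nonneg fun p hp => (hgj l hl p hp).1) _
    calc Zw B b g l * ∏ j ∈ (range m).erase l, Yw B b g j
        ≤ ((∑ p ∈ B l, g p) ^ (b l + 1) / ((b l + 1).factorial : ℝ)) *
          ∏ j ∈ (range m).erase l, Yw B b g j := mul_le_mul_of_nonneg_right (hZ0 l hl) hE0
      _ = ((∑ p ∈ B l, g p) ^ (b l + 1) / ((b l + 1).factorial : ℝ)) *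
          (1 * ∏ j ∈ (range m).erase l, Yw B b g j) := by rw [one_mul]
      _ ≤ ((∑ p ∈ B l, g p) ^ (b l + 1) / ((b l + 1).factorial : ℝ)) *
          ((Real.exp (2 * ∑ p ∈ B l, g p) * Yw B b g l) *
            ∏ j ∈ (range m).erase l, Yw B b g j) :=
          mul_le_mul_of_nonneg_left (mul_le_mul_of_nonneg_right h2 hE0) hG0
      _ = _ := by rw [← Finset.mul_prod_erase _ _ hl]; ring
  have h2 := Finset.sum_le_sum h1
  rw [← Finset.sum_mul] at h2
  have h3 := mul_le_mul_of_nonneg_right hs hP0.le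
  have h4 : ∏ p ∈ (range m).biUnion B, (1 - g p) ≤ ∏ j ∈ range m, Yw B b g j := by
    rw [Finset.prod_biUnion]
    · exact Finset.prod_le_prod
        (fun j hj => (Real.exp_pos _).le.trans (hV j hj)) hYV
    · intro i hi j hj hij
      exact hd i (mem_range.mp (Finset.mem_coe.mp hi)) j (mem_range.mp (Finset.mem_coe.mp hj)) hij
  linarith

/-- Brun-Hooley weights for given blocks -/
theorem core (m : ℕ) (B : ℕ → Finset ℕ) (b : ℕ → ℕ) (hb : ∀ j, Even (b j))
    (hd : ∀ i < m, ∀ j < m, i ≠ j → Disjoint (B i) (B j)) :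
    ∃ lam : Finset ℕ → ℝ, (∀ A, |lam A| ≤ 1) ∧
      (∀ A, lam A ≠ 0 → ∀ j < m, (A ∩ B j).card ≤ b j + 1) ∧
      (∀ S ⊆ (range m).biUnion B, ∑ A ∈ S.powerset, lam A ≤ if S = ∅ then 1 else 0) ∧
      (∀ g : ℕ → ℝ, (∀ p ∈ (range m).biUnion B, 0 ≤ g p ∧ g p ≤ 1 / 2) →
        (∑ j ∈ range m, (∑ p ∈ B j, g p) ^ (b j + 1) / ((b j + 1).factorial : ℝ) *
          Real.exp (2 * ∑ p ∈ B j, g p) ≤ 1 / 2) →
        1 / 2 * ∏ p ∈ (range m).biUnion B, (1 - g p) ≤
          ∑ A ∈ ((range m).biUnion B).powerset, lam A * ∏ p ∈ A, g p) :=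
  ⟨lw m B b, abs_lw_le m B b, lw_card_le m B b, lw_upper m B b hb hd,
    lw_lower m B b hb hd⟩

end Pool.Agent.OmAP

end

/-! ### from `Lib_MP_f1a94e_nt.Defs` -/

section

/-!
# MP_f1a94e_nt: parity of the number of prime factors of `m ^ 2 + 1`

Definitions. Integer vectors `(a, b)` are Gaussian integers `a + b i`.
-/

set_option autoImplicit false

namespace Pool.Agent.ParityQuad

/-- norm of an integer vector (Gaussian integer) -/
def Nm (z : ℤ × ℤ) : ℤ := z.1 ^ 2 + z.2 ^ 2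

/-- determinant -/
def dt (z w : ℤ × ℤ) : ℤ := z.1 * w.2 - z.2 * w.1

/-- dot product -/
def dp (z w : ℤ × ℤ) : ℤ := z.1 * w.1 + z.2 * w.2

/-- product of Gaussian integers -/
def mu (z w : ℤ × ℤ) : ℤ × ℤ := (z.1 * w.1 - z.2 * w.2, z.1 * w.2 + z.2 * w.1)

/-- the complex number of an integer vector -/
noncomputable def tc (z : ℤ × ℤ) : ℂ := (z.1 : ℂ) + (z.2 : ℂ) * Complex.I

/-- direction -/
noncomputable def dir (z : ℤ × ℤ) : ℂ := tc z / (‖tc z‖ : ℂ)

/-- A completely multiplicative sign function on the Gaussian integers of odd norm, trivial on the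
odd rational integers. -/
structure SignFn (F : ℤ × ℤ → ℤ) : Prop where
  pm : ∀ z, F z = 1 ∨ F z = -1
  mul : ∀ z w, Odd (Nm z) → Odd (Nm w) → F (mu z w) = F z * F w
  int : ∀ m : ℤ, Odd m → F (m, 0) = 1

/-- coordinate of `z` in the frame of `β` -/
noncomputable def cr (β : ℂ) (z : ℤ × ℤ) : ℂ := tc z * (starRingEnd ℂ) β

/-- the convex cone around the direction `β` of slope `τ` -/
def Cone (β : ℂ) (τ : ℝ) (z : ℤ × ℤ) : Prop :=
  0 < (cr β z).re ∧ |(cr β z).im| ≤ τ * (cr β z).re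

/-- adjacent pairs of opposite sign, both of odd norm at most `X` -/
def IsOpp (F : ℤ × ℤ → ℤ) (X : ℤ) (p q : ℤ × ℤ) : Prop :=
  dt p q = 1 ∧ Nm p ≤ X ∧ Nm q ≤ X ∧ Odd (Nm p) ∧ Odd (Nm q) ∧ F p ≠ F q

open Classical in
/-- the finite set of such pairs -/
noncomputable def Opp (F : ℤ × ℤ → ℤ) (X : ℤ) : Finset ((ℤ × ℤ) × (ℤ × ℤ)) :=
  ((Finset.Icc (-X) X ×ˢ Finset.Icc (-X) X) ×ˢ (Finset.Icc (-X) X ×ˢ Finset.Icc (-X) X)).filter
    (fun r => IsOpp F X r.1 r.2)

/-- difference with step two -/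
noncomputable def dd (g : ℝ → ℝ) : ℝ → ℝ := fun t => g t - g (t + 2)

theorem Nm_mu (z w : ℤ × ℤ) : Nm (mu z w) = Nm z * Nm w := by
  simp only [Nm, mu]; ring

theorem tc_mu (z w : ℤ × ℤ) : tc (mu z w) = tc z * tc w := by
  simp only [tc, mu]; push_cast
  linear_combination (-(z.2 : ℂ) * (w.2 : ℂ)) * Complex.I_sq

theorem norm_tc_sq (z : ℤ × ℤ) : ‖tc z‖ ^ 2 = (Nm z : ℝ) := by
  rw [← Complex.normSq_eq_norm_sq, tc, Nm]
  simp [Complex.normSq_apply]
  ring

theorem dp_sq_add_dt_sq (z w : ℤ × ℤ) : dp z w ^ 2 + dt z w ^ 2 = Nm z * Nm w := by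
  simp only [Nm, dp, dt]; ring

end Pool.Agent.ParityQuad

end

/-! ### from `Lib_MP_f1a94e_nt.Mult` -/

section

/-!
# Number of unimodular pairs with a given dot product
-/

set_option autoImplicit false

namespace Pool.Agent.ParityQuad

theorem opp_alg1 (p q : ℤ × ℤ) (h : dt p q = 1) :
    p.1 * dp p q - p.2 = q.1 * Nm p := by
  simp only [dt, dp, Nm] at *
  linear_combination p.2 * h

theorem opp_alg2 (p q : ℤ × ℤ) (h : dt p q = 1) :
    p.2 * dp p q + p.1 = q.2 * Nm p := by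
  simp only [dt, dp, Nm] at *
  linear_combination (-p.1) * h

theorem Nm_pos_of_dt (p q : ℤ × ℤ) (h : dt p q = 1) : 0 < Nm p := by
  have h0 : p.1 ≠ 0 ∨ p.2 ≠ 0 := by
    by_contra hc
    push Not at hc
    simp [dt, hc.1, hc.2] at h
  unfold Nm
  rcases h0 with h0 | h0
  · have := sq_pos_of_ne_zero (a := p.1) h0
    nlinarith [sq_nonneg p.2]
  · have := sq_pos_of_ne_zero (a := p.2) h0
    nlinarith [sq_nonneg p.1]

theorem opp_key (p q p' q' : ℤ × ℤ) (h : dt p q = 1) (h' : dt p' q' = 1)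
    (hn : dp p' q' = dp p q) (hg : Nm p' = Nm p) :
    (dp p p', dt p p') = (Nm p, 0) ∨ (dp p p', dt p p') = (-Nm p, 0) ∨
    (dp p p', dt p p') = (0, Nm p) ∨ (dp p p', dt p p') = (0, -Nm p) := by
  have hpos := Nm_pos_of_dt p q h
  have e1 := opp_alg1 p q h
  have e2 := opp_alg1 p' q' h'
  rw [hn, hg] at e2
  obtain ⟨k, hk⟩ : ∃ k : ℤ, dt p p' = Nm p * k := by
    refine ⟨q.1 * p'.1 - p.1 * q'.1, ?_⟩
    have : dt p p' = p.1 * p'.2 - p.2 * p'.1 := rfl
    rw [this]
    linear_combination p'.1 * e1 - p.1 * e2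
  have hs := dp_sq_add_dt_sq p p'
  rw [hg, hk] at hs
  have hk2 : k ^ 2 ≤ 1 := by
    by_contra hc
    push Not at hc
    have h2 : 2 ≤ k ^ 2 := hc
    have h3 : 0 ≤ dp p p' ^ 2 := sq_nonneg _
    have h4 : 0 < Nm p ^ 2 := by positivity
    nlinarith
  have hk3 : k = 0 ∨ k = 1 ∨ k = -1 := by
    have : k ≤ 1 := by nlinarith
    have : -1 ≤ k := by nlinarith
    omega
  rcases hk3 with rfl | rfl | rfl
  · have : dp p p' ^ 2 = Nm p ^ 2 := by linear_combination hs
    rcases sq_eq_sq_iff_eq_or_eq_neg.mp this with h5 | h5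
    · left; simp [h5, hk]
    · right; left; simp [h5, hk]
  · have : dp p p' ^ 2 = 0 := by linear_combination hs
    have h5 : dp p p' = 0 := by simpa using this
    right; right; left
    simp [h5, hk]
  · have : dp p p' ^ 2 = 0 := by linear_combination hs
    have h5 : dp p p' = 0 := by simpa using this
    right; right; right
    simp [h5, hk]

theorem opp_inj (p : ℤ × ℤ) (hp : 0 < Nm p) (u v : ℤ × ℤ) (h1 : dp p u = dp p v)
    (h2 : dt p u = dt p v) : u = v := by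
  have hne : Nm p ≠ 0 := hp.ne'
  simp only [dp, dt] at h1 h2
  have e1 : Nm p * u.1 = Nm p * v.1 := by
    simp only [Nm]
    linear_combination p.1 * h1 - p.2 * h2
  have e2 : Nm p * u.2 = Nm p * v.2 := by
    simp only [Nm]
    linear_combination p.2 * h1 + p.1 * h2
  exact Prod.ext (mul_left_cancel₀ hne e1) (mul_left_cancel₀ hne e2)

theorem opp_fiber (P : Finset ((ℤ × ℤ) × (ℤ × ℤ))) (n g : ℤ)
    (h : ∀ r ∈ P, dt r.1 r.2 = 1 ∧ dp r.1 r.2 = n ∧ Nm r.1 = g) : P.card ≤ 4 := by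
  classical
  rcases P.eq_empty_or_nonempty with hP | ⟨r0, hr0⟩
  · simp [hP]
  obtain ⟨h01, h02, h03⟩ := h r0 hr0
  have hpos := Nm_pos_of_dt r0.1 r0.2 h01
  set T : Finset (ℤ × ℤ) := {(g, 0), (-g, 0), (0, g), (0, -g)} with hT
  have hTc : T.card ≤ 4 := Finset.card_le_four
  refine le_trans (Finset.card_le_card_of_injOn (fun r => (dp r0.1 r.1, dt r0.1 r.1)) ?_ ?_) hTc
  · intro r hr
    obtain ⟨h1, h2, h3⟩ := h r hr
    have := opp_key r0.1 r0.2 r.1 r.2 h01 h1 (h2.trans h02.symm) (h3.trans h03.symm)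
    rw [h03] at this
    simp only [hT, Finset.coe_insert, Finset.coe_singleton, Set.mem_insert_iff,
      Set.mem_singleton_iff]
    exact this
  · intro r hr s hs hrs
    obtain ⟨h1, h2, h3⟩ := h r hr
    obtain ⟨k1, k2, k3⟩ := h s hs
    simp only [Prod.mk.injEq] at hrs
    have e : r.1 = s.1 := opp_inj r0.1 hpos _ _ hrs.1 hrs.2
    have hrpos := Nm_pos_of_dt r.1 r.2 h1
    have a1 := opp_alg1 r.1 r.2 h1
    have a2 := opp_alg2 r.1 r.2 h1
    have b1 := opp_alg1 s.1 s.2 k1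
    have b2 := opp_alg2 s.1 s.2 k1
    rw [h2] at a1 a2
    rw [k2, ← e] at b1 b2
    have c1 : r.2.1 = s.2.1 := mul_right_cancel₀ hrpos.ne' (a1.symm.trans b1)
    have c2 : r.2.2 = s.2.2 := mul_right_cancel₀ hrpos.ne' (a2.symm.trans b2)
    exact Prod.ext e (Prod.ext c1 c2)

theorem opp_card (P : Finset ((ℤ × ℤ) × (ℤ × ℤ))) (S : Finset ℕ) (B : ℕ)
    (h1 : ∀ r ∈ P, dt r.1 r.2 = 1 ∧ (dp r.1 r.2).natAbs ∈ S)
    (h2 : ∀ m ∈ S, (Nat.divisors (m ^ 2 + 1)).card ≤ B) : P.card ≤ 8 * B * S.card := by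
  classical
  set W : Finset (ℤ × ℕ) := S.biUnion
    (fun m => ({(m : ℤ), -(m : ℤ)} : Finset ℤ) ×ˢ (Nat.divisors (m ^ 2 + 1))) with hW
  have hWc : W.card ≤ S.card * (2 * B) := by
    refine Finset.card_biUnion_le_card_mul _ _ _ ?_
    intro m hm
    rw [Finset.card_product]
    exact Nat.mul_le_mul Finset.card_le_two (h2 m hm)
  have hmap : ∀ r ∈ P, (dp r.1 r.2, (Nm r.1).natAbs) ∈ W := by
    intro r hr
    obtain ⟨a1, a2⟩ := h1 r hr
    rw [hW, Finset.mem_biUnion]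
    refine ⟨(dp r.1 r.2).natAbs, a2, ?_⟩
    rw [Finset.mem_product]
    constructor
    · simp only [Finset.mem_insert, Finset.mem_singleton]
      exact Int.natAbs_eq _
    · rw [Nat.mem_divisors]
      refine ⟨?_, by positivity⟩
      have hid := dp_sq_add_dt_sq r.1 r.2
      rw [a1] at hid
      have : (Nm r.1) ∣ ((((dp r.1 r.2).natAbs ^ 2 + 1 : ℕ)) : ℤ) := by
        push_cast
        rw [sq_abs]
        exact ⟨Nm r.2, by linear_combination hid⟩
      exact Int.natAbs_dvd_natAbs.mpr this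
  have hfib : ∀ b ∈ W, (P.filter (fun r => (dp r.1 r.2, (Nm r.1).natAbs) = b)).card ≤ 4 := by
    intro b _
    refine opp_fiber _ b.1 (b.2 : ℤ) ?_
    intro r hr
    rw [Finset.mem_filter] at hr
    obtain ⟨hrP, hrb⟩ := hr
    refine ⟨(h1 r hrP).1, by rw [← hrb], ?_⟩
    rw [← hrb]
    simp only [Int.natCast_natAbs]
    rw [abs_of_pos (Nm_pos_of_dt r.1 r.2 (h1 r hrP).1)]
  have := Finset.card_le_mul_card_image_of_maps_to (s := P) (t := W) hmap 4 hfib
  calc P.card ≤ 4 * W.card := this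
    _ ≤ 4 * (S.card * (2 * B)) := Nat.mul_le_mul_left _ hWc
    _ = 8 * B * S.card := by ring

end Pool.Agent.ParityQuad

end
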