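import Pool.Agent.Lib_MP_92ef0c_m.M07
import Pool.Agent.Lib_MP_92ef0c_m.M09

/-!
# MP_92ef0c_nt, split pairs: merged library part M12

Concatenation of smaller files (each in its own section), only to save build time.
-/

/-! ### from `Lib_MP_f1a94e_eq.Np` -/

section

/-!
# Piece NP: characters times a constant satisfy `NP`
-/

set_option autoImplicit false

namespace Pool.Agent.OmEq

open Finset Pool.Agent.OmAll

namespace NpP

open ZEuler Complex

/-- two sums over primes whose terms agree away from the divisors of `M` -/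
theorem tsum_diff (M : ℕ) (hM : 0 < M) (a b : Nat.Primes → ℂ) (ha : Summable a) (hb : Summable b)
    (h : ∀ p : Nat.Primes, ¬ (p : ℕ) ∣ M → a p = b p) (hbd : ∀ p, ‖a p - b p‖ ≤ 1) :
    ‖∑' p, a p - ∑' p, b p‖ ≤ (M : ℝ) + 1 := by
  classical
  rw [← ha.tsum_sub hb]
  set S : Finset Nat.Primes := M.primeFactors.subtype Nat.Prime with hS
  have hz : ∀ p ∉ S, a p - b p = 0 := by
    intro p hp
    rw [h p, sub_self]
    intro hd
    apply hp
    exact Finset.mem_subtype.mpr (Nat.mem_primeFactors.mpr ⟨p.2, hd, hM.ne'⟩)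
  rw [tsum_eq_sum hz]
  have hc : S.card ≤ M + 1 := by
    refine (Finset.card_subtype Nat.Prime M.primeFactors).le.trans ?_
    calc (M.primeFactors.filter Nat.Prime).card ≤ (range (M + 1)).card := by
          apply card_le_card
          intro p hp
          rw [mem_filter, Nat.mem_primeFactors] at hp
          rw [mem_range]
          have := Nat.le_of_dvd hM hp.1.2.1
          omega
      _ = M + 1 := card_range _
  calc ‖∑ p ∈ S, (a p - b p)‖ ≤ ∑ p ∈ S, ‖a p - b p‖ := norm_sum_le _ _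
    _ ≤ ∑ p ∈ S, (1 : ℝ) := sum_le_sum fun p _ => hbd p
    _ = (S.card : ℝ) := by simp
    _ ≤ (M : ℝ) + 1 := by exact_mod_cast hc

/-- the norm of `p^(-s)` -/
theorem norm_pow (p : Nat.Primes) (δ t : ℝ) :
    ‖((p : ℕ) : ℂ) ^ (-((1 + δ : ℝ) + (t : ℂ) * I))‖ = ((p : ℕ) : ℝ) ^ (-(1 + δ)) := by
  rw [Complex.norm_natCast_cpow_of_pos p.2.pos]
  congr 1
  simp

theorem rpow_half (p : Nat.Primes) {δ : ℝ} (hδ : 0 < δ) :
    ((p : ℕ) : ℝ) ^ (-(1 + δ)) ≤ 1 / 2 := by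
  have hp : (2 : ℝ) ≤ ((p : ℕ) : ℝ) := by exact_mod_cast p.2.two_le
  calc ((p : ℕ) : ℝ) ^ (-(1 + δ)) ≤ ((p : ℕ) : ℝ) ^ (-1 : ℝ) :=
        Real.rpow_le_rpow_of_exponent_le (by linarith) (by linarith)
    _ = 1 / ((p : ℕ) : ℝ) := by rw [Real.rpow_neg_one, one_div]
    _ ≤ 1 / 2 := one_div_le_one_div_of_le (by norm_num) hp

theorem summ (c : Nat.Primes → ℂ) (hc : ∀ p, ‖c p‖ ≤ 1) {δ : ℝ} (hδ : 0 < δ) (t : ℝ) :
    Summable (fun p : Nat.Primes => c p * ((p : ℕ) : ℂ) ^ (-((1 + δ : ℝ) + (t : ℂ) * I))) := by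
  have h1 : Summable fun p : Nat.Primes => ((p : ℕ) : ℝ) ^ (-(1 + δ)) :=
    Nat.Primes.summable_rpow.2 (by linarith)
  refine Summable.of_norm_bounded h1 fun p => ?_
  rw [norm_mul, norm_pow]
  exact mul_le_of_le_one_left (by positivity) (hc p)

/-- prime sums of a character near the line 1 -/
theorem charSum (M : ℕ) [NeZero M] (ψ : DirichletCharacter ℂ M) (B : ℝ) (hB : 0 < B) :
    ∃ C : ℝ, ∀ δ t : ℝ, 0 < δ → δ ≤ 1 → |t| ≤ B →
      ‖(∑' p : Nat.Primes, ψ (((p : ℕ) : ZMod M)) * ((p : ℕ) : ℂ) ^ (-((1 + δ : ℝ) + (t : ℂ) * I))) -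
        (((if ψ = 1 then (1 : ℝ) else 0) * Real.log (1 / ‖(δ : ℂ) + (t : ℂ) * I‖) : ℝ) : ℂ)‖ ≤ C := by
  classical
  by_cases hψ : ψ = 1
  · obtain ⟨C, hC⟩ := npT B hB
    refine ⟨(M : ℝ) + 1 + C, fun δ t hδ hδ1 ht => ?_⟩
    rw [if_pos hψ, one_mul]
    have h1 := hC δ t hδ hδ1 ht
    have h2 : ‖(∑' p : Nat.Primes, ψ (((p : ℕ) : ZMod M)) *
        ((p : ℕ) : ℂ) ^ (-((1 + δ : ℝ) + (t : ℂ) * I))) -
        ∑' p : Nat.Primes, ((p : ℕ) : ℂ) ^ (-((1 + δ : ℝ) + (t : ℂ) * I))‖ ≤ (M : ℝ) + 1 := by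
      apply tsum_diff M (NeZero.pos M)
      · exact summ _ (fun p => ψ.norm_le_one _) hδ t
      · have := summ (fun _ => 1) (fun p => by simp) hδ t
        simpa using this
      · intro p hp
        rw [hψ, MulChar.one_apply, one_mul]
        rw [ZMod.isUnit_iff_coprime]
        exact (Nat.Prime.coprime_iff_not_dvd p.2).mpr hp
      · intro p
        have e : ψ (((p : ℕ) : ZMod M)) * ((p : ℕ) : ℂ) ^ (-((1 + δ : ℝ) + (t : ℂ) * I)) -
            ((p : ℕ) : ℂ) ^ (-((1 + δ : ℝ) + (t : ℂ) * I)) =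
            (ψ (((p : ℕ) : ZMod M)) - 1) * ((p : ℕ) : ℂ) ^ (-((1 + δ : ℝ) + (t : ℂ) * I)) := by ring
        rw [e, norm_mul, norm_pow]
        have h3 : ‖ψ (((p : ℕ) : ZMod M)) - 1‖ ≤ 2 := by
          refine (norm_sub_le _ _).trans ?_
          have := ψ.norm_le_one (((p : ℕ) : ZMod M))
          rw [norm_one]
          linarith
        have h4 := rpow_half p hδ
        have h5 : (0 : ℝ) ≤ ((p : ℕ) : ℝ) ^ (-(1 + δ)) := by positivity
        calc ‖ψ (((p : ℕ) : ZMod M)) - 1‖ * ((p : ℕ) : ℝ) ^ (-(1 + δ)) ≤ 2 * (1 / 2) :=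
              mul_le_mul h3 h4 h5 (by norm_num)
          _ = 1 := by norm_num
    calc _ = ‖((∑' p : Nat.Primes, ψ (((p : ℕ) : ZMod M)) *
          ((p : ℕ) : ℂ) ^ (-((1 + δ : ℝ) + (t : ℂ) * I))) -
          ∑' p : Nat.Primes, ((p : ℕ) : ℂ) ^ (-((1 + δ : ℝ) + (t : ℂ) * I))) +
          ((∑' p : Nat.Primes, ((p : ℕ) : ℂ) ^ (-((1 + δ : ℝ) + (t : ℂ) * I))) -
          (Real.log (1 / ‖(δ : ℂ) + (t : ℂ) * I‖) : ℂ))‖ := by
          congr 1
          ring
      _ ≤ _ := (norm_add_le _ _).trans (add_le_add h2 h1)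
  · obtain ⟨C, hC⟩ := npN M ψ hψ B hB
    refine ⟨C, fun δ t hδ hδ1 ht => ?_⟩
    rw [if_neg hψ, zero_mul, Complex.ofReal_zero, sub_zero]
    exact hC δ t hδ hδ1 ht

/-- the logarithm of the distance to the pole -/
theorem log_pole {ω : ℂ} (hω : ‖ω‖ = 1) {B : ℝ} (hB : 0 < B) {δ τ : ℝ} (hδ : 0 < δ) (hδ1 : δ ≤ 1)
    (h0 : 0 < |τ|) (hτ : |τ| ≤ B) {e : ℝ} (he : e = 0 ∨ e = 1) :
    ω.re / 2 * (e * Real.log (1 / ‖(δ : ℂ) + ((2 * τ : ℝ) : ℂ) * I‖)) ≤
      max 0 ω.re / 2 * max 0 (Real.log (1 / |τ|)) + Real.log (1 + 2 * B) := by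
  have hre : |ω.re| ≤ 1 := by rw [← hω]; exact Complex.abs_re_le_norm ω
  have hlogB : 0 ≤ Real.log (1 + 2 * B) := Real.log_nonneg (by linarith)
  have hR : 0 ≤ max 0 ω.re / 2 * max 0 (Real.log (1 / |τ|)) := by positivity
  rcases he with he | he
  · rw [he, zero_mul, mul_zero]
    linarith
  · rw [he, one_mul]
    set n := ‖(δ : ℂ) + ((2 * τ : ℝ) : ℂ) * I‖ with hn
    have h1 : |τ| ≤ n := by
      have h := Complex.abs_im_le_norm ((δ : ℂ) + ((2 * τ : ℝ) : ℂ) * I)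
      have h' : ((δ : ℂ) + ((2 * τ : ℝ) : ℂ) * I).im = 2 * τ := by simp
      rw [h', abs_mul, abs_two] at h
      linarith
    have h2 : n ≤ 1 + 2 * B := by
      refine (norm_add_le _ _).trans ?_
      rw [norm_mul, Complex.norm_I, mul_one, Complex.norm_real, Complex.norm_real,
        Real.norm_eq_abs, Real.norm_eq_abs, abs_mul, abs_two, abs_of_pos hδ]
      linarith
    have hn0 : 0 < n := by linarith
    rcases le_total 0 ω.re with hs | hs
    · rw [max_eq_right hs]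
      have h3 : Real.log (1 / n) ≤ max 0 (Real.log (1 / |τ|)) := by
        refine le_trans ?_ (le_max_right _ _)
        apply Real.log_le_log (by positivity)
        exact one_div_le_one_div_of_le h0 h1
      have h4 := mul_le_mul_of_nonneg_left h3 (by linarith : 0 ≤ ω.re / 2)
      linarith
    · rw [abs_of_nonpos hs] at hre
      have h3 : -Real.log (1 + 2 * B) ≤ Real.log (1 / n) := by
        rw [one_div, Real.log_inv]
        have := Real.log_le_log hn0 h2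
        linarith
      have h4 := mul_le_mul_of_nonneg_left h3 (by linarith : 0 ≤ -ω.re / 2)
      nlinarith

theorem f_eq (p : ℕ) (hp : 0 < p) (u : ℂ) (δ τ : ℝ) :
    (u * Complex.exp (-(2 * τ * Real.log p : ℝ) * Complex.I)).re / (p : ℝ) ^ (1 + δ) =
      (u * (p : ℂ) ^ (-((1 + δ : ℝ) + ((2 * τ : ℝ) : ℂ) * I))).re := by
  have hp' : (p : ℂ) ≠ 0 := by exact_mod_cast hp.ne'
  have hpr : (0 : ℝ) < (p : ℝ) := by exact_mod_cast hp
  have h1 : Complex.log (p : ℂ) = ((Real.log p : ℝ) : ℂ) := by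
    rw [Complex.natCast_log]
  have h2 : (p : ℂ) ^ (-((1 + δ : ℝ) + ((2 * τ : ℝ) : ℂ) * I)) =
      (((p : ℝ) ^ (1 + δ))⁻¹ : ℝ) * Complex.exp (-(2 * τ * Real.log p : ℝ) * Complex.I) := by
    rw [Complex.cpow_def_of_ne_zero hp', h1, Real.rpow_def_of_pos hpr, ← Real.exp_neg,
      Complex.ofReal_exp, ← Complex.exp_add]
    congr 1
    push_cast
    ring
  rw [h2]
  have h3 : u * ((((p : ℝ) ^ (1 + δ))⁻¹ : ℝ) * Complex.exp (-(2 * τ * Real.log p : ℝ) * Complex.I)) =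
      ((((p : ℝ) ^ (1 + δ))⁻¹ : ℝ) : ℂ) *
        (u * Complex.exp (-(2 * τ * Real.log p : ℝ) * Complex.I)) := by ring
  rw [h3, Complex.re_ofReal_mul]
  ring

end NpP

open NpP ZEuler in
/-- PROOF. `smooth_cut` (real and imaginary part, or directly the real function `f p = Re (ω χ(p) exp (-2 i τ log p))`, `|f| ≤ 1`) replaces the sum over `PT T` of `f p / p` by
`∑'_p f(p) p^(-1-δ)` over the primes `1 mod 4`, `δ = 1/log T` (see the exact statement; for `T = 3`, `δ ≤ 1`), the primes of `E` contribute at most `#E`. For an odd prime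
`1_(p = 1 mod 4) = (1 + χ₄(p))/2`, so the sum is `Re (ω/2 (P_χ + P_(χ χ₄)))` up to `1` (`p = 2`), where `P_ψ = ∑'_p ψ(p) p^(-(1 + δ + 2 i τ))`, `χ` and `χ χ₄` considered modulo
`4 N` (`DirichletCharacter.changeLevel`; it changes only the finitely many primes dividing `4 N`: `O(1)`). Not both of them are trivial (`χ₄` is not trivial modulo `4N`). A
nontrivial one has `|P_ψ| ≤ C` (`npN`), a trivial one `P = log (1/‖δ + 2 i τ‖) + O(1)` (`npT`, up to the primes dividing `4N`), and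
`Re (ω) / 2 * log (1/‖δ + 2 i τ‖) ≤ (max 0 (Re ω)) / 2 * max 0 (log (1/|τ|)) + C`: if `Re ω ≥ 0` since `‖δ + 2 i τ‖ ≥ |τ|`; if `Re ω < 0` since
`‖δ + 2 i τ‖ ≤ 1 + 2 B`. -/
theorem npChi (N : ℕ) [NeZero N] (χ : DirichletCharacter ℂ N) (ω : ℂ) (hω : ‖ω‖ = 1) (E : Finset ℕ) :
    NP E (fun p => ω * χ ((p : ZMod N))) (max 0 ω.re) := by
  classical
  intro B hB
  obtain ⟨C0, hC0⟩ := smooth_cut
  have hM : 0 < 4 * N := by
    have := NeZero.pos N
    omega
  have : NeZero (4 * N) := ⟨hM.ne'⟩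
  set M := 4 * N with hMdef
  have hN : N ∣ M := Dvd.intro_left 4 rfl
  have h4 : 4 ∣ M := Dvd.intro N rfl
  set ψ1 : DirichletCharacter ℂ M := DirichletCharacter.changeLevel hN χ with hψ1
  set ψ4 : DirichletCharacter ℂ M := DirichletCharacter.changeLevel h4 ch with hψ4
  set ψ2 : DirichletCharacter ℂ M := ψ1 * ψ4 with hψ2
  have hψ4ne : ψ4 ≠ 1 := by
    rw [hψ4, Ne, DirichletCharacter.changeLevel_eq_one_iff]
    exact ch_ne
  have hnot : ¬ (ψ1 = 1 ∧ ψ2 = 1) := by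
    rintro ⟨h1, h2⟩
    rw [hψ2, h1, one_mul] at h2
    exact hψ4ne h2
  obtain ⟨C1, hC1⟩ := charSum M ψ1 (2 * B) (by linarith)
  obtain ⟨C2, hC2⟩ := charSum M ψ2 (2 * B) (by linarith)
  refine ⟨C0 + (E.card : ℝ) + ((M : ℝ) + 1) + (C1 + C2) + Real.log (1 + 2 * B), ?_⟩
  intro T hT τ hτ0 hτB
  have hL := ZSm.one_le_logT hT
  set δ : ℝ := 1 / Real.log T with hδdef
  have hδ : 0 < δ := by positivity
  have hδ1 : δ ≤ 1 := by
    rw [hδdef, div_le_one (by linarith)]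
    exact hL
  -- the function
  set f : ℕ → ℝ := fun p => (ω * χ ((p : ZMod N)) *
    Complex.exp (-(2 * τ * Real.log p : ℝ) * Complex.I)).re with hf
  have hf1 : ∀ p, |f p| ≤ 1 := by
    intro p
    refine (Complex.abs_re_le_norm _).trans ?_
    have hexp : ‖Complex.exp (-(2 * τ * Real.log p : ℝ) * Complex.I)‖ = 1 := by
      have : (-(2 * τ * Real.log p : ℝ) * Complex.I : ℂ) =
        ((-(2 * τ * Real.log p) : ℝ) : ℂ) * Complex.I := by push_cast; ring
      rw [this, Complex.norm_exp_ofReal_mul_I]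
    rw [norm_mul, norm_mul, hω, hexp, one_mul, mul_one]
    exact χ.norm_le_one _
  obtain ⟨-, hcut⟩ := hC0 T hT f hf1
  rw [← hδdef] at hcut
  -- the primes of `E`
  have hE : ∑ p ∈ PE E T, f p / p ≤ ∑ p ∈ PT T, f p / p + (E.card : ℝ) := by
    have h1 : ∑ p ∈ PT T \ (PT T \ E), f p / (p : ℝ) + ∑ p ∈ PT T \ E, f p / (p : ℝ) =
        ∑ p ∈ PT T, f p / (p : ℝ) := sum_sdiff sdiff_subset
    have h2 : -(E.card : ℝ) ≤ ∑ p ∈ PT T \ (PT T \ E), f p / (p : ℝ) := by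
      have h3 : |∑ p ∈ PT T \ (PT T \ E), f p / (p : ℝ)| ≤ (E.card : ℝ) := by
        calc |∑ p ∈ PT T \ (PT T \ E), f p / (p : ℝ)|
            ≤ ∑ p ∈ PT T \ (PT T \ E), |f p / (p : ℝ)| := abs_sum_le_sum_abs _ _
          _ ≤ ∑ p ∈ PT T \ (PT T \ E), (1 : ℝ) := by
              refine sum_le_sum fun p hp => ?_
              have hp5 := ZSm.PT_five (mem_sdiff.mp hp).1
              have hp1 : (1 : ℝ) ≤ p := by exact_mod_cast (by omega : 1 ≤ p)
              rw [abs_div, abs_of_pos (by linarith : (0 : ℝ) < p), div_le_one (by linarith)]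
              exact (hf1 p).trans hp1
          _ = ((PT T \ (PT T \ E)).card : ℝ) := by simp
          _ ≤ (E.card : ℝ) := by
              have : PT T \ (PT T \ E) ⊆ E := by
                intro p hp
                rw [mem_sdiff, mem_sdiff] at hp
                by_contra hc
                exact hp.2 ⟨hp.1, hc⟩
              exact_mod_cast card_le_card this
      exact (abs_le.mp h3).1
    have h3 : PE E T = PT T \ E := rfl
    rw [h3]
    linarith
  -- as a sum over primes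
  set a : Nat.Primes → ℂ := fun p => (if (p : ℕ) % 4 = 1 then ω * χ (((p : ℕ) : ZMod N)) else 0) *
    ((p : ℕ) : ℂ) ^ (-((1 + δ : ℝ) + ((2 * τ : ℝ) : ℂ) * Complex.I)) with ha
  set b : Nat.Primes → ℂ := fun p => (ω / 2 * (ψ1 (((p : ℕ) : ZMod M)) + ψ2 (((p : ℕ) : ZMod M)))) *
    ((p : ℕ) : ℂ) ^ (-((1 + δ : ℝ) + ((2 * τ : ℝ) : ℂ) * Complex.I)) with hb
  have hac : ∀ p : Nat.Primes,
      ‖(if (p : ℕ) % 4 = 1 then ω * χ (((p : ℕ) : ZMod N)) else 0 : ℂ)‖ ≤ 1 := by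
    intro p
    split_ifs
    · rw [norm_mul, hω, one_mul]
      exact χ.norm_le_one _
    · simp
  have hbc : ∀ p : Nat.Primes,
      ‖ω / 2 * (ψ1 (((p : ℕ) : ZMod M)) + ψ2 (((p : ℕ) : ZMod M)))‖ ≤ 1 := by
    intro p
    rw [norm_mul, norm_div, hω, Complex.norm_ofNat]
    have h1 := ψ1.norm_le_one (((p : ℕ) : ZMod M))
    have h2 := ψ2.norm_le_one (((p : ℕ) : ZMod M))
    have h3 := norm_add_le (ψ1 (((p : ℕ) : ZMod M))) (ψ2 (((p : ℕ) : ZMod M)))
    linarith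
  have hsa : Summable a := summ _ hac hδ (2 * τ)
  have hsb : Summable b := summ _ hbc hδ (2 * τ)
  have hST : ∑' p : ℕ, (if p.Prime ∧ p % 4 = 1 then f p / (p : ℝ) ^ (1 + δ) else 0) =
      (∑' p, a p).re := by
    rw [Complex.re_tsum hsa]
    have h1 : ∀ p : ℕ, (if p.Prime ∧ p % 4 = 1 then f p / (p : ℝ) ^ (1 + δ) else 0) =
        (if p.Prime then (if p % 4 = 1 then f p / (p : ℝ) ^ (1 + δ) else 0) else 0) := by
      intro p
      by_cases hp : p.Prime <;> simp [hp]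
    rw [tsum_congr h1, tsum_ite (fun p : ℕ => if p % 4 = 1 then f p / (p : ℝ) ^ (1 + δ) else 0)]
    refine tsum_congr fun p => ?_
    rw [ha]
    simp only
    split_ifs with h
    · exact f_eq p p.2.pos _ δ τ
    · simp
  have hdiff : ‖∑' p, a p - ∑' p, b p‖ ≤ (M : ℝ) + 1 := by
    refine tsum_diff M hM a b hsa hsb ?_ ?_
    · intro p hp
      have hcop : Nat.Coprime (p : ℕ) M := (Nat.Prime.coprime_iff_not_dvd p.2).mpr hp
      have hcopZ : IsCoprime ((p : ℕ) : ℤ) (M : ℤ) := Nat.isCoprime_iff_coprime.mpr hcop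
      have e1 : ψ1 (((p : ℕ) : ZMod M)) = χ (((p : ℕ) : ZMod N)) := by
        have := DirichletCharacter.changeLevel_eq_cast_of_dvd' χ hN hcopZ
        simpa using this
      have e4 : ψ4 (((p : ℕ) : ZMod M)) = ch (((p : ℕ) : ZMod 4)) := by
        have := DirichletCharacter.changeLevel_eq_cast_of_dvd' ch h4 hcopZ
        simpa using this
      have e2 : ψ2 (((p : ℕ) : ZMod M)) = χ (((p : ℕ) : ZMod N)) * ch (((p : ℕ) : ZMod 4)) := by
        rw [hψ2, MulChar.mul_apply, e1, e4]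
      rw [ha, hb]
      simp only
      rw [e1, e2, ch_apply]
      have hodd : (p : ℕ) % 4 = 1 ∨ (p : ℕ) % 4 = 3 := by
        rcases p.2.eq_two_or_odd with h | h
        · exfalso
          apply hp
          rw [h]
          exact (by norm_num : 2 ∣ 4).trans h4
        · omega
      rcases hodd with h | h
      · rw [if_pos h, ZMod.χ₄_nat_one_mod_four h]
        push_cast
        ring
      · rw [if_neg (by omega), ZMod.χ₄_nat_three_mod_four h]
        push_cast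
        ring
    · intro p
      refine (norm_sub_le _ _).trans ?_
      have h1 : ‖a p‖ ≤ 1 / 2 := by
        rw [ha]
        simp only
        rw [norm_mul, norm_pow]
        have h3 : (0 : ℝ) ≤ ((p : ℕ) : ℝ) ^ (-(1 + δ)) := by positivity
        exact (mul_le_of_le_one_left h3 (hac p)).trans (rpow_half p hδ)
      have h2 : ‖b p‖ ≤ 1 / 2 := by
        rw [hb]
        simp only
        rw [norm_mul, norm_pow]
        have h3 : (0 : ℝ) ≤ ((p : ℕ) : ℝ) ^ (-(1 + δ)) := by positivity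
        exact (mul_le_of_le_one_left h3 (hbc p)).trans (rpow_half p hδ)
      linarith
  -- the two character sums
  set P1 := ∑' p : Nat.Primes, ψ1 (((p : ℕ) : ZMod M)) *
    ((p : ℕ) : ℂ) ^ (-((1 + δ : ℝ) + ((2 * τ : ℝ) : ℂ) * Complex.I)) with hP1
  set P2 := ∑' p : Nat.Primes, ψ2 (((p : ℕ) : ZMod M)) *
    ((p : ℕ) : ℂ) ^ (-((1 + δ : ℝ) + ((2 * τ : ℝ) : ℂ) * Complex.I)) with hP2
  have hbsum : ∑' p, b p = ω / 2 * (P1 + P2) := by
    have s1 := summ (fun p : Nat.Primes => ψ1 (((p : ℕ) : ZMod M)))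
      (fun p => ψ1.norm_le_one _) hδ (2 * τ)
    have s2 := summ (fun p : Nat.Primes => ψ2 (((p : ℕ) : ZMod M)))
      (fun p => ψ2.norm_le_one _) hδ (2 * τ)
    rw [hP1, hP2, ← s1.tsum_add s2, ← tsum_mul_left]
    refine tsum_congr fun p => ?_
    rw [hb]
    simp only
    ring
  have hτ2 : |2 * τ| ≤ 2 * B := by
    rw [abs_mul, abs_two]
    linarith
  set Lg := Real.log (1 / ‖(δ : ℂ) + ((2 * τ : ℝ) : ℂ) * Complex.I‖) with hLg
  have k1 := hC1 δ (2 * τ) hδ hδ1 hτ2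
  have k2 := hC2 δ (2 * τ) hδ hδ1 hτ2
  rw [← hP1, ← hLg] at k1
  rw [← hP2, ← hLg] at k2
  set e1 : ℝ := if ψ1 = 1 then (1 : ℝ) else 0 with he1
  set e2 : ℝ := if ψ2 = 1 then (1 : ℝ) else 0 with he2
  have he : e1 + e2 = 0 ∨ e1 + e2 = 1 := by
    rw [he1, he2]
    by_cases h1 : ψ1 = 1
    · have h2 : ψ2 ≠ 1 := fun h => hnot ⟨h1, h⟩
      rw [if_pos h1, if_neg h2]
      right; norm_num
    · by_cases h2 : ψ2 = 1
      · rw [if_neg h1, if_pos h2]
        right; norm_num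
      · rw [if_neg h1, if_neg h2]
        left; norm_num
  have hmain : (ω / 2 * (P1 + P2)).re ≤ ω.re / 2 * ((e1 + e2) * Lg) + (C1 + C2) := by
    have h1 : ω / 2 * (P1 + P2) = ((((e1 + e2) * Lg) / 2 : ℝ) : ℂ) * ω +
        ω / 2 * ((P1 - ((e1 * Lg : ℝ) : ℂ)) + (P2 - ((e2 * Lg : ℝ) : ℂ))) := by
      push_cast
      ring
    rw [h1, Complex.add_re, Complex.re_ofReal_mul]
    have h2 : (ω / 2 * ((P1 - ((e1 * Lg : ℝ) : ℂ)) + (P2 - ((e2 * Lg : ℝ) : ℂ)))).re ≤ C1 + C2 := by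
      refine (Complex.re_le_norm _).trans ?_
      rw [norm_mul, norm_div, hω, Complex.norm_ofNat]
      have h3 := norm_add_le (P1 - ((e1 * Lg : ℝ) : ℂ)) (P2 - ((e2 * Lg : ℝ) : ℂ))
      have h4 := norm_nonneg (P1 - ((e1 * Lg : ℝ) : ℂ) + (P2 - ((e2 * Lg : ℝ) : ℂ)))
      linarith
    linarith
  have hpole := log_pole hω hB hδ hδ1 hτ0 hτB he
  rw [← hLg] at hpole
  have hcut' := (abs_le.mp hcut).2
  have hd' : (∑' p, a p).re - (∑' p, b p).re ≤ (M : ℝ) + 1 := by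
    rw [← Complex.sub_re]
    exact (Complex.re_le_norm _).trans hdiff
  rw [hST] at hcut'
  rw [hbsum] at hd'
  have hfin : ∑ p ∈ PE E T, f p / p ≤ max 0 ω.re / 2 * max 0 (Real.log (1 / |τ|)) +
      (C0 + (E.card : ℝ) + ((M : ℝ) + 1) + (C1 + C2) + Real.log (1 + 2 * B)) := by
    linarith
  exact hfin

end Pool.Agent.OmEq

end
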