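import Pool.Agent.Lib_MP_92ef0c_m.M05

/-!
# MP_92ef0c_nt, split pairs: merged library part M13

Concatenation of smaller files (each in its own section), only to save build time.
-/

/-! ### from `Lib_MP_92ef0c_spi.HalAvg` -/

section

/-!
# Piece I-HALAVG: mean square over [S/2, S] of a slowly varying function with a convolution equation (abstract)
-/

set_option autoImplicit false

namespace Pool.Agent.SplI

open Finset
open scoped ComplexConjugate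

private noncomputable def dhat {N : ℕ} [NeZero N] (a : ZMod N → ℂ) (r : ZMod N) : ℂ :=
  ∑ i, a i * ZMod.stdAddChar (-(i * r))

private theorem avg_char_sum {N : ℕ} [NeZero N] (b : ZMod N) :
    ∑ r : ZMod N, (ZMod.stdAddChar (b * r) : ℂ) = if b = 0 then (N : ℂ) else 0 := by
  have h := AddChar.sum_mulShift (ψ := ZMod.stdAddChar (N := N)) b
    (ZMod.isPrimitive_stdAddChar N)
  simp only [ZMod.card] at h
  have h2 : ∑ r : ZMod N, (ZMod.stdAddChar (b * r) : ℂ) =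
      ∑ r : ZMod N, (ZMod.stdAddChar (r * b) : ℂ) :=
    Finset.sum_congr rfl fun r _ => by rw [mul_comm]
  rw [h2, h]
  split_ifs <;> simp

private theorem avg_parseval {N : ℕ} [NeZero N] (a : ZMod N → ℂ) :
    ∑ r, ‖dhat a r‖ ^ 2 = N * ∑ i, ‖a i‖ ^ 2 := by
  have hterm : ∀ r : ZMod N, ((‖dhat a r‖ ^ 2 : ℝ) : ℂ) =
      ∑ i, ∑ j, a i * conj (a j) * ZMod.stdAddChar ((j - i) * r) := by
    intro r
    have h1 : ((‖dhat a r‖ ^ 2 : ℝ) : ℂ) = dhat a r * conj (dhat a r) := by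
      rw [Complex.mul_conj']
      push_cast
      rfl
    have h2 : conj (dhat a r) = ∑ j, conj (a j) * ZMod.stdAddChar (j * r) := by
      unfold dhat
      rw [map_sum]
      apply Finset.sum_congr rfl
      intro j _
      rw [map_mul, ← AddChar.map_neg_eq_conj, neg_neg]
    rw [h1, h2, dhat, Finset.sum_mul_sum]
    apply Finset.sum_congr rfl
    intro i _
    apply Finset.sum_congr rfl
    intro j _
    have h3 : (ZMod.stdAddChar ((j - i) * r) : ℂ) =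
        ZMod.stdAddChar (-(i * r)) * ZMod.stdAddChar (j * r) := by
      rw [← AddChar.map_add_eq_mul]
      congr 1
      ring
    rw [h3]
    ring
  have hC : ((∑ r, ‖dhat a r‖ ^ 2 : ℝ) : ℂ) = ((N * ∑ i, ‖a i‖ ^ 2 : ℝ) : ℂ) := by
    rw [Complex.ofReal_sum, Finset.sum_congr rfl fun r _ => hterm r, Finset.sum_comm]
    have h4 : ∀ i : ZMod N, ∑ r : ZMod N, ∑ j : ZMod N,
        a i * conj (a j) * ZMod.stdAddChar ((j - i) * r) = N * ((‖a i‖ ^ 2 : ℝ) : ℂ) := by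
      intro i
      rw [Finset.sum_comm]
      have h5 : ∀ j : ZMod N, ∑ r : ZMod N,
          a i * conj (a j) * ZMod.stdAddChar ((j - i) * r) =
          if j = i then N * ((‖a i‖ ^ 2 : ℝ) : ℂ) else 0 := by
        intro j
        rw [← Finset.mul_sum, avg_char_sum]
        by_cases hji : j = i
        · subst hji
          rw [if_pos (sub_self j), if_pos rfl, Complex.mul_conj']
          push_cast
          ring
        · rw [if_neg (sub_ne_zero.mpr hji), if_neg hji]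
          simp
      rw [Finset.sum_congr rfl fun j _ => h5 j]
      simp
    rw [Finset.sum_congr rfl fun i _ => h4 i, ← Finset.mul_sum]
    push_cast
    rfl
  exact_mod_cast hC

private theorem avg_shift {N : ℕ} [NeZero N] (a : ZMod N → ℂ) (s r : ZMod N) :
    dhat (fun i => a (i + s)) r = ZMod.stdAddChar (s * r) * dhat a r := by
  rw [dhat, dhat, Finset.mul_sum]
  rw [← Equiv.sum_comp (Equiv.addRight s) fun i : ZMod N =>
    (ZMod.stdAddChar (s * r) : ℂ) * (a i * ZMod.stdAddChar (-(i * r)))]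
  apply Finset.sum_congr rfl
  intro i _
  simp only [Equiv.coe_addRight]
  have h3 : (ZMod.stdAddChar (-(i * r)) : ℂ) =
      ZMod.stdAddChar (s * r) * ZMod.stdAddChar (-((i + s) * r)) := by
    rw [← AddChar.map_add_eq_mul]
    congr 1
    ring
  rw [h3]
  ring

/-- the frequency of `r` -/
private theorem avg_theta {N : ℕ} [NeZero N] (r : ZMod N) : ∃ θ : ℝ, |θ| ≤ Real.pi ∧
    ∀ k : ℤ, (ZMod.stdAddChar ((k : ZMod N) * r) : ℂ) = Complex.exp (((k * θ : ℝ) : ℂ) * Complex.I) := by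
  have hN : (0 : ℝ) < N := by exact_mod_cast Nat.pos_of_ne_zero (NeZero.ne N)
  refine ⟨2 * Real.pi * (r.valMinAbs : ℝ) / N, ?_, fun k => ?_⟩
  · have h1 : r.valMinAbs.natAbs ≤ N / 2 := ZMod.natAbs_valMinAbs_le r
    have h2 : (|(r.valMinAbs : ℝ)|) ≤ N / 2 := by
      have h3 : ((r.valMinAbs.natAbs : ℕ) : ℝ) = |(r.valMinAbs : ℝ)| := by
        rw [Nat.cast_natAbs, Int.cast_abs]
      rw [← h3]
      have h4 : 2 * r.valMinAbs.natAbs ≤ N := by omega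
      have h5 : ((2 * r.valMinAbs.natAbs : ℕ) : ℝ) ≤ N := by exact_mod_cast h4
      push_cast at h5
      rw [Nat.cast_natAbs, Int.cast_abs]
      rw [Nat.cast_natAbs, Int.cast_abs] at h5
      linarith
    rw [abs_div, abs_mul, abs_of_pos (by positivity : (0 : ℝ) < 2 * Real.pi), abs_of_pos hN,
      div_le_iff₀ hN]
    nlinarith [Real.pi_pos]
  · have h1 : (k : ZMod N) * r = ((k * r.valMinAbs : ℤ) : ZMod N) := by
      rw [Int.cast_mul, ZMod.coe_valMinAbs]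
    rw [h1, ZMod.stdAddChar_coe]
    congr 1
    push_cast
    ring

private theorem avg_main {N : ℕ} [NeZero N] {ι : Type*} (I : Finset ι) (c : ι → ℂ) (ρ : ι → ℕ)
    (M : ℕ) (κ : ℝ) (hκ : 0 < κ) (a : ZMod N → ℂ)
    (H : ∀ θ : ℝ, |θ| ≤ Real.pi →
      κ ≤ ‖1 - ∑ i ∈ I, c i * Complex.exp (((-(θ * ρ i) : ℝ) : ℂ) * Complex.I)‖ ∨
      1 ≤ (1 / (M : ℝ)) * ∑ i ∈ range M, ‖Complex.exp (((i * θ : ℝ) : ℂ) * Complex.I) - 1‖ ^ 2) :
    ∑ n, ‖a n‖ ^ 2 ≤ 1 / κ ^ 2 * ∑ n, ‖a n - ∑ i ∈ I, c i * a (n - (ρ i : ZMod N))‖ ^ 2 +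
      (1 / (M : ℝ)) * ∑ i ∈ range M, ∑ n, ‖a (n + (i : ZMod N)) - a n‖ ^ 2 := by
  have hN : (0 : ℝ) < N := by exact_mod_cast Nat.pos_of_ne_zero (NeZero.ne N)
  have hb : ∀ r : ZMod N, dhat (fun n => a n - ∑ i ∈ I, c i * a (n - (ρ i : ZMod N))) r =
      (1 - ∑ i ∈ I, c i * ZMod.stdAddChar (-(ρ i : ZMod N) * r)) * dhat a r := by
    intro r
    have h1 : dhat (fun n => a n - ∑ i ∈ I, c i * a (n - (ρ i : ZMod N))) r =
        dhat a r - ∑ i ∈ I, c i * dhat (fun n => a (n + (-(ρ i : ZMod N)))) r := by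
      unfold dhat
      simp only [sub_mul, Finset.sum_sub_distrib, Finset.sum_mul, Finset.mul_sum]
      rw [Finset.sum_comm]
      congr 1
      apply Finset.sum_congr rfl
      intro i _
      apply Finset.sum_congr rfl
      intro n _
      rw [sub_eq_add_neg n]
      ring
    rw [h1, sub_mul, one_mul, Finset.sum_mul]
    congr 1
    apply Finset.sum_congr rfl
    intro i _
    rw [avg_shift]
    ring
  have hd : ∀ (i : ℕ) (r : ZMod N), dhat (fun n => a (n + (i : ZMod N)) - a n) r =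
      (ZMod.stdAddChar ((i : ZMod N) * r) - 1) * dhat a r := by
    intro i r
    have h1 : dhat (fun n => a (n + (i : ZMod N)) - a n) r =
        dhat (fun n => a (n + (i : ZMod N))) r - dhat a r := by
      unfold dhat
      simp only [sub_mul, Finset.sum_sub_distrib]
    rw [h1, avg_shift]
    ring
  have hpt : ∀ r : ZMod N, ‖dhat a r‖ ^ 2 ≤
      1 / κ ^ 2 * ‖dhat (fun n => a n - ∑ i ∈ I, c i * a (n - (ρ i : ZMod N))) r‖ ^ 2 +
      (1 / (M : ℝ)) * ∑ i ∈ range M, ‖dhat (fun n => a (n + (i : ZMod N)) - a n) r‖ ^ 2 := by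
    intro r
    obtain ⟨θ, hθ, hk⟩ := avg_theta r
    have h1 : ∀ i, (ZMod.stdAddChar (-(ρ i : ZMod N) * r) : ℂ) =
        Complex.exp (((-(θ * ρ i) : ℝ) : ℂ) * Complex.I) := by
      intro i
      have := hk (-(ρ i : ℤ))
      push_cast at this
      rw [this]
      congr 1
      push_cast
      ring
    have h2 : ∀ i : ℕ, (ZMod.stdAddChar ((i : ZMod N) * r) : ℂ) =
        Complex.exp (((i * θ : ℝ) : ℂ) * Complex.I) := by
      intro i
      have := hk (i : ℤ)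
      push_cast at this
      rw [this]
      congr 1
      push_cast
      ring
    rw [hb r]
    simp only [hd, norm_mul, mul_pow, h1, h2]
    rw [← Finset.sum_mul]
    have h3 : (0 : ℝ) ≤ ‖dhat a r‖ ^ 2 := sq_nonneg _
    have h4 : (0 : ℝ) ≤ 1 / κ ^ 2 * ‖1 - ∑ i ∈ I, c i * Complex.exp (((-(θ * ρ i) : ℝ) : ℂ) * Complex.I)‖ ^ 2 := by
      positivity
    have h5 : (0 : ℝ) ≤ (1 / (M : ℝ)) * ∑ i ∈ range M, ‖Complex.exp (((i * θ : ℝ) : ℂ) * Complex.I) - 1‖ ^ 2 := by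
      positivity
    have h6 : 1 ≤ 1 / κ ^ 2 * ‖1 - ∑ i ∈ I, c i * Complex.exp (((-(θ * ρ i) : ℝ) : ℂ) * Complex.I)‖ ^ 2 +
        (1 / (M : ℝ)) * ∑ i ∈ range M, ‖Complex.exp (((i * θ : ℝ) : ℂ) * Complex.I) - 1‖ ^ 2 := by
      rcases H θ hθ with h | h
      · have h7 : κ ^ 2 ≤ ‖1 - ∑ i ∈ I, c i * Complex.exp (((-(θ * ρ i) : ℝ) : ℂ) * Complex.I)‖ ^ 2 :=
          pow_le_pow_left₀ hκ.le h 2
        have h8 : 1 ≤ 1 / κ ^ 2 * ‖1 - ∑ i ∈ I, c i * Complex.exp (((-(θ * ρ i) : ℝ) : ℂ) * Complex.I)‖ ^ 2 := by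
          rw [one_div, inv_mul_eq_div, le_div_iff₀ (by positivity), one_mul]
          exact h7
        linarith
      · linarith
    nlinarith
  have hsum := Finset.sum_le_sum fun (r : ZMod N) (_ : r ∈ Finset.univ) => hpt r
  rw [avg_parseval, Finset.sum_add_distrib, ← Finset.mul_sum, ← Finset.mul_sum, Finset.sum_comm,
    avg_parseval] at hsum
  simp only [avg_parseval] at hsum
  rw [← Finset.mul_sum] at hsum
  have h9 : (N : ℝ) * ∑ n, ‖a n‖ ^ 2 ≤ N * (1 / κ ^ 2 * ∑ n, ‖a n - ∑ i ∈ I, c i * a (n - (ρ i : ZMod N))‖ ^ 2 +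
      (1 / (M : ℝ)) * ∑ i ∈ range M, ∑ n, ‖a (n + (i : ZMod N)) - a n‖ ^ 2) := by
    refine hsum.trans (le_of_eq ?_)
    ring
  exact le_of_mul_le_mul_left h9 hN


private theorem avg_exp_diff (x y : ℝ) :
    ‖Complex.exp ((x : ℂ) * Complex.I) - Complex.exp ((y : ℂ) * Complex.I)‖ ≤ |x - y| := by
  have h1 : Complex.exp ((x : ℂ) * Complex.I) - Complex.exp ((y : ℂ) * Complex.I) =
      Complex.exp ((y : ℂ) * Complex.I) * (Complex.exp (Complex.I * ((x - y : ℝ) : ℂ)) - 1) := by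
    rw [mul_sub, mul_one, ← Complex.exp_add]
    congr 2
    push_cast
    ring
  rw [h1, norm_mul, Complex.norm_exp_ofReal_mul_I, one_mul]
  exact Real.norm_exp_I_mul_ofReal_sub_one_le

private theorem avg_geom (θ : ℝ) (hθ : |θ| ≤ Real.pi) (h0 : θ ≠ 0) (M : ℕ) :
    ‖∑ i ∈ range M, Complex.exp (((i * θ : ℝ) : ℂ) * Complex.I)‖ ≤ Real.pi / |θ| := by
  set z := Complex.exp ((θ : ℂ) * Complex.I) with hz
  have h1 : ∀ i : ℕ, Complex.exp (((i * θ : ℝ) : ℂ) * Complex.I) = z ^ i := by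
    intro i
    rw [hz, ← Complex.exp_nat_mul]
    congr 1
    push_cast
    ring
  simp only [h1]
  have h2 : 2 / Real.pi * |θ| ≤ ‖z - 1‖ := by
    have h3 : ‖z - 1‖ = ‖2 * Real.sin (θ / 2)‖ := by
      rw [← Complex.norm_exp_I_mul_ofReal_sub_one, hz, mul_comm]
    rw [h3, Real.norm_eq_abs, abs_mul, abs_two]
    have h4 := Real.mul_abs_le_abs_sin (x := θ / 2) (by rw [abs_div, abs_two]; linarith)
    rw [abs_div, abs_two] at h4
    linarith
  have hθ0 : 0 < |θ| := abs_pos.2 h0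
  have h5 : 0 < ‖z - 1‖ := lt_of_lt_of_le (by positivity) h2
  have h6 : (∑ i ∈ range M, z ^ i) * (z - 1) = z ^ M - 1 := geom_sum_mul z M
  have h7 : ‖∑ i ∈ range M, z ^ i‖ * ‖z - 1‖ ≤ 2 := by
    rw [← norm_mul, h6]
    refine (norm_sub_le _ _).trans ?_
    rw [norm_pow, hz, Complex.norm_exp_ofReal_mul_I, one_pow, norm_one]
    norm_num
  rw [le_div_iff₀ hθ0]
  have h8 : ‖∑ i ∈ range M, z ^ i‖ * (2 / Real.pi * |θ|) ≤ 2 :=
    (mul_le_mul_of_nonneg_left h2 (norm_nonneg _)).trans h7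
  have h9 : ‖∑ i ∈ range M, z ^ i‖ * (2 / Real.pi * |θ|) =
      2 * (‖∑ i ∈ range M, z ^ i‖ * |θ|) / Real.pi := by ring
  rw [h9, div_le_iff₀ Real.pi_pos] at h8
  linarith

private theorem avg_high (θ : ℝ) (hθ : |θ| ≤ Real.pi) (M : ℕ) (hM : 0 < M)
    (h : 2 * Real.pi / M ≤ |θ|) :
    1 ≤ (1 / (M : ℝ)) * ∑ i ∈ range M, ‖Complex.exp (((i * θ : ℝ) : ℂ) * Complex.I) - 1‖ ^ 2 := by
  have hM' : (0 : ℝ) < M := by exact_mod_cast hM
  have h0 : θ ≠ 0 := by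
    rintro rfl
    rw [abs_zero] at h
    have : (0 : ℝ) < 2 * Real.pi / M := by positivity
    linarith
  have h1 : ∀ i : ℕ, ‖Complex.exp (((i * θ : ℝ) : ℂ) * Complex.I) - 1‖ ^ 2 =
      2 - 2 * (Complex.exp (((i * θ : ℝ) : ℂ) * Complex.I)).re := by
    intro i
    have h2 : Complex.normSq (Complex.exp (((i * θ : ℝ) : ℂ) * Complex.I)) = 1 := by
      rw [Complex.normSq_eq_norm_sq, Complex.norm_exp_ofReal_mul_I, one_pow]
    rw [← Complex.normSq_eq_norm_sq, Complex.normSq_sub, h2, map_one, map_one, mul_one]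
    ring
  simp only [h1]
  rw [Finset.sum_sub_distrib, Finset.sum_const, card_range, ← Finset.mul_sum, ← Complex.re_sum,
    nsmul_eq_mul, one_div, inv_mul_eq_div, le_div_iff₀ hM', one_mul]
  have h3 : (∑ i ∈ range M, Complex.exp (((i * θ : ℝ) : ℂ) * Complex.I)).re ≤ M / 2 := by
    refine (Complex.re_le_norm _).trans ((avg_geom θ hθ h0 M).trans ?_)
    rw [div_le_iff₀ (abs_pos.2 h0)]
    rw [div_le_iff₀ hM'] at h
    linarith
  linarith

private theorem avg_freq {ι : Type*} (I : Finset ι) (c : ι → ℂ) (lam : ι → ℝ) (ρ : ι → ℕ) (M : ℕ)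
    (hM : 0 < M) (T0 h c0 : ℝ) (hh : 0 < h) (hc : ∑ i ∈ I, ‖c i‖ ≤ 1)
    (hρ : ∀ i ∈ I, |ρ i - lam i / h| ≤ 1)
    (hm : ∀ t : ℝ, |t| ≤ T0 →
      (∑ i ∈ I, c i * Complex.exp (-((t * lam i : ℝ) : ℂ) * Complex.I)).re ≤ 1 - c0)
    (h1 : T0 * h ≤ c0 / 2) (h2 : 2 * Real.pi / M ≤ T0 * h) (θ : ℝ) (hθ : |θ| ≤ Real.pi) :
    c0 / 2 ≤ ‖1 - ∑ i ∈ I, c i * Complex.exp (((-(θ * ρ i) : ℝ) : ℂ) * Complex.I)‖ ∨
      1 ≤ (1 / (M : ℝ)) * ∑ i ∈ range M, ‖Complex.exp (((i * θ : ℝ) : ℂ) * Complex.I) - 1‖ ^ 2 := by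
  by_cases hc1 : |θ| ≤ T0 * h
  · left
    have h3 := hm (θ / h) (by rw [abs_div, abs_of_pos hh, div_le_iff₀ hh]; exact hc1)
    set S1 := ∑ i ∈ I, c i * Complex.exp (((-(θ * ρ i) : ℝ) : ℂ) * Complex.I) with hS1
    set S2 := ∑ i ∈ I, c i * Complex.exp (-((θ / h * lam i : ℝ) : ℂ) * Complex.I) with hS2
    have h4 : ‖S1 - S2‖ ≤ |θ| := by
      rw [hS1, hS2, ← Finset.sum_sub_distrib]
      calc ‖∑ i ∈ I, (c i * Complex.exp (((-(θ * ρ i) : ℝ) : ℂ) * Complex.I) -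
            c i * Complex.exp (-((θ / h * lam i : ℝ) : ℂ) * Complex.I))‖
          ≤ ∑ i ∈ I, ‖c i * Complex.exp (((-(θ * ρ i) : ℝ) : ℂ) * Complex.I) -
            c i * Complex.exp (-((θ / h * lam i : ℝ) : ℂ) * Complex.I)‖ := norm_sum_le _ _
        _ ≤ ∑ i ∈ I, ‖c i‖ * |θ| := by
          apply Finset.sum_le_sum
          intro i hi
          rw [← mul_sub, norm_mul]
          apply mul_le_mul_of_nonneg_left _ (norm_nonneg _)
          have h5 := avg_exp_diff (-(θ * ρ i)) (-(θ / h * lam i))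
          rw [Complex.ofReal_neg (θ / h * lam i)] at h5
          refine h5.trans ?_
          have h6 : -(θ * ρ i) - -(θ / h * lam i) = θ * (-(ρ i - lam i / h)) := by ring
          rw [h6, abs_mul, abs_neg]
          have := hρ i hi
          calc |θ| * |(ρ i : ℝ) - lam i / h| ≤ |θ| * 1 :=
                mul_le_mul_of_nonneg_left this (abs_nonneg _)
            _ = |θ| := mul_one _
        _ = (∑ i ∈ I, ‖c i‖) * |θ| := by rw [Finset.sum_mul]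
        _ ≤ 1 * |θ| := mul_le_mul_of_nonneg_right hc (abs_nonneg _)
        _ = |θ| := one_mul _
    have h7 : S1.re - S2.re ≤ ‖S1 - S2‖ := by
      rw [← Complex.sub_re]
      exact Complex.re_le_norm _
    have h8 : (1 - S1).re ≤ ‖1 - S1‖ := Complex.re_le_norm _
    rw [Complex.sub_re, Complex.one_re] at h8
    linarith
  · right
    exact avg_high θ hθ M hM (by push Not at hc1; linarith)

private theorem avg_range {N : ℕ} [NeZero N] (f : ZMod N → ℝ) :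
    ∑ n, f n = ∑ n ∈ range N, f (n : ZMod N) := by
  symm
  refine Finset.sum_bij (fun n _ => (n : ZMod N)) (fun _ _ => Finset.mem_univ _) ?_ ?_
    (fun _ _ => rfl)
  · intro a ha b hb hab
    have h1 := congrArg ZMod.val hab
    rwa [ZMod.val_cast_of_lt (mem_range.1 ha), ZMod.val_cast_of_lt (mem_range.1 hb)] at h1
  · intro b _
    exact ⟨b.val, mem_range.2 (ZMod.val_lt b), by simp⟩

private theorem avg_count (N K M : ℕ) (f : ℕ → ℝ) (α β : ℝ) (hα : 0 ≤ α) (hβ : 0 ≤ β)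
    (h1 : ∀ n < N, f n ≤ β) (h2 : ∀ n < N, K ≤ n → n + M < N → f n ≤ α) :
    ∑ n ∈ range N, f n ≤ α * N + β * (K + M) := by
  have h3 : ∀ n ∈ range N, f n ≤ α + ((if n < K then β else 0) + (if N - M ≤ n then β else 0)) := by
    intro n hn
    rw [mem_range] at hn
    by_cases hK : n < K
    · rw [if_pos hK]
      have := h1 n hn
      split_ifs <;> linarith
    · rw [if_neg hK]
      by_cases hM : N - M ≤ n
      · rw [if_pos hM]
        have := h1 n hn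
        linarith
      · rw [if_neg hM]
        have := h2 n hn (not_lt.1 hK) (by omega)
        linarith
  refine (Finset.sum_le_sum h3).trans ?_
  rw [Finset.sum_add_distrib, Finset.sum_add_distrib, Finset.sum_const, card_range, nsmul_eq_mul,
    ← Finset.sum_filter, ← Finset.sum_filter, Finset.sum_const, Finset.sum_const, nsmul_eq_mul,
    nsmul_eq_mul]
  have h4 : ((range N).filter fun n => n < K).card ≤ K := by
    calc ((range N).filter fun n => n < K).card ≤ (range K).card :=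
          Finset.card_le_card fun n hn => by
            rw [mem_filter] at hn; exact mem_range.2 hn.2
      _ = K := card_range K
  have h5 : ((range N).filter fun n => N - M ≤ n).card ≤ M := by
    calc ((range N).filter fun n => N - M ≤ n).card ≤ (Ico (N - M) N).card :=
          Finset.card_le_card fun n hn => by
            rw [mem_filter, mem_range] at hn; exact mem_Ico.2 ⟨hn.2, hn.1⟩
      _ = N - (N - M) := Nat.card_Ico _ _
      _ ≤ M := by omega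
  have h6 : (((range N).filter fun n => n < K).card : ℝ) ≤ K := by exact_mod_cast h4
  have h7 : (((range N).filter fun n => N - M ≤ n).card : ℝ) ≤ M := by exact_mod_cast h5
  nlinarith


private theorem avg_sum_mul (g : ℕ → ℝ) (m : ℕ) : ∀ N : ℕ,
    ∑ n ∈ range N, ∑ i ∈ range m, g (n * m + i) = ∑ k ∈ range (N * m), g k := by
  intro N
  induction N with
  | zero => simp
  | succ N ih =>
    rw [sum_range_succ, ih, Nat.succ_mul, Finset.sum_range_add]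


private theorem avg_bbig {ι : Type*} (A : ℝ → ℂ)
    (hb : ∀ s, 0 ≤ s → ‖A s‖ ≤ 1) (I : Finset ι) (c : ι → ℂ) (hc : ∑ i ∈ I, ‖c i‖ ≤ 1)
    (x : ℝ) (hx : 0 ≤ x) (y : ι → ℝ) (hy : ∀ i, 0 ≤ y i) :
    ‖A x - ∑ i ∈ I, c i * A (y i)‖ ≤ 2 := by
  refine (norm_sub_le _ _).trans ?_
  have h4 : ‖∑ i ∈ I, c i * A (y i)‖ ≤ 1 := by
    calc _ ≤ ∑ i ∈ I, ‖c i * A (y i)‖ := norm_sum_le _ _
      _ ≤ ∑ i ∈ I, ‖c i‖ * 1 := by
        apply Finset.sum_le_sum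
        intro i _
        rw [norm_mul]
        exact mul_le_mul_of_nonneg_left (hb _ (hy i)) (norm_nonneg _)
      _ = (∑ i ∈ I, ‖c i‖) * 1 := by rw [Finset.sum_mul]
      _ ≤ 1 := by rw [mul_one]; exact hc
  linarith [hb x hx]

private theorem hal_bsmall {N : ℕ} [NeZero N] {ι : Type*} (A : ℝ → ℂ) (δ h1 S s0 κ : ℝ)
    (hh : 0 < h1) (hh1 : h1 ≤ 1) (hS : 0 ≤ S)
    (hl : ∀ s h' : ℝ, 0 ≤ s → 0 ≤ h' → h' ≤ 1 → ‖A (s + h') - A s‖ ≤ 4 * (h' + Real.exp (-s)))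
    (I : Finset ι) (c : ι → ℂ) (lam : ι → ℝ) (hlam : ∀ i ∈ I, 0 ≤ lam i ∧ lam i ≤ κ * S)
    (hκ : κ ≤ 1 / 4) (hc : ∑ i ∈ I, ‖c i‖ ≤ 1)
    (hs : ∀ s, S / 2 ≤ s → s ≤ S → ‖A s - ∑ i ∈ I, c i * A (s - lam i)‖ ≤ δ)
    (hL : 4 * Real.exp (-(S / 4)) ≤ δ) (hCh : 4 * h1 ≤ δ) (hs0 : S / 2 ≤ s0)
    (hN : s0 + N * h1 ≤ S) (n : ℕ) (hn : n < N) (hn2 : κ * S ≤ n * h1) :
    ‖A (s0 + ((n : ZMod N).val : ℝ) * h1) -
      ∑ i ∈ I, c i * A (s0 + (((n : ZMod N) - ((⌊lam i / h1⌋₊ : ℕ) : ZMod N)).val : ℝ) * h1)‖ ≤ 3 * δ := by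
  have hval : (n : ZMod N).val = n := ZMod.val_cast_of_lt hn
  rw [hval]
  have hnN : (n : ℝ) * h1 ≤ N * h1 :=
    mul_le_mul_of_nonneg_right (by exact_mod_cast hn.le) hh.le
  have hn0 : 0 ≤ (n : ℝ) * h1 := by positivity
  have h1' := hs (s0 + n * h1) (by linarith) (by linarith)
  have h2 : ∀ i ∈ I, ‖A (s0 + (((n : ZMod N) - ((⌊lam i / h1⌋₊ : ℕ) : ZMod N)).val : ℝ) * h1) -
      A (s0 + n * h1 - lam i)‖ ≤ 2 * δ := by
    intro i hi
    obtain ⟨hi0, hi1⟩ := hlam i hi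
    set ρ := ⌊lam i / h1⌋₊ with hρ
    have h3 : (ρ : ℝ) * h1 ≤ lam i := by
      have := Nat.floor_le (div_nonneg hi0 hh.le)
      rw [← hρ] at this
      rwa [le_div_iff₀ hh] at this
    have h4 : lam i < (ρ + 1) * h1 := by
      have := Nat.lt_floor_add_one (lam i / h1)
      rw [← hρ] at this
      rwa [div_lt_iff₀ hh] at this
    have h6 : ρ ≤ n := by
      have : (ρ : ℝ) * h1 ≤ n * h1 := by linarith
      have := le_of_mul_le_mul_right this hh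
      exact_mod_cast this
    have h7 : ((n : ZMod N) - (ρ : ZMod N)).val = n - ρ := by
      rw [← Nat.cast_sub h6]
      exact ZMod.val_cast_of_lt (by omega)
    rw [h7]
    have h8 : s0 + (((n - ρ : ℕ) : ℝ)) * h1 = (s0 + n * h1 - lam i) + (lam i - ρ * h1) := by
      rw [Nat.cast_sub h6]; ring
    rw [h8]
    have h85 : S / 4 ≤ s0 + n * h1 - lam i := by
      have : κ * S ≤ 1 / 4 * S := mul_le_mul_of_nonneg_right hκ hS
      linarith
    have h9 := hl (s0 + n * h1 - lam i) (lam i - ρ * h1) (by linarith) (by linarith) (by linarith)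
    refine h9.trans ?_
    have h10 : Real.exp (-(s0 + n * h1 - lam i)) ≤ Real.exp (-(S / 4)) :=
      Real.exp_le_exp.2 (by linarith)
    linarith
  have h3 : A (s0 + n * h1) - ∑ i ∈ I, c i * A (s0 + (((n : ZMod N) - ((⌊lam i / h1⌋₊ : ℕ) : ZMod N)).val : ℝ) * h1) =
      (A (s0 + n * h1) - ∑ i ∈ I, c i * A (s0 + n * h1 - lam i)) -
      ∑ i ∈ I, c i * (A (s0 + (((n : ZMod N) - ((⌊lam i / h1⌋₊ : ℕ) : ZMod N)).val : ℝ) * h1) -
        A (s0 + n * h1 - lam i)) := by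
    simp only [mul_sub, Finset.sum_sub_distrib]
    ring
  rw [h3]
  refine (norm_sub_le _ _).trans ?_
  have h4 : ‖∑ i ∈ I, c i * (A (s0 + (((n : ZMod N) - ((⌊lam i / h1⌋₊ : ℕ) : ZMod N)).val : ℝ) * h1) -
        A (s0 + n * h1 - lam i))‖ ≤ 2 * δ := by
    calc _ ≤ ∑ i ∈ I, ‖c i * (A (s0 + (((n : ZMod N) - ((⌊lam i / h1⌋₊ : ℕ) : ZMod N)).val : ℝ) * h1) -
        A (s0 + n * h1 - lam i))‖ := norm_sum_le _ _
      _ ≤ ∑ i ∈ I, ‖c i‖ * (2 * δ) := by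
        apply Finset.sum_le_sum
        intro i hi
        rw [norm_mul]
        exact mul_le_mul_of_nonneg_left (h2 i hi) (norm_nonneg _)
      _ = (∑ i ∈ I, ‖c i‖) * (2 * δ) := by rw [Finset.sum_mul]
      _ ≤ 1 * (2 * δ) := mul_le_mul_of_nonneg_right hc (by linarith)
      _ = 2 * δ := one_mul _
  linarith

private theorem hal_dsmall {N : ℕ} [NeZero N] (A : ℝ → ℂ) (h1 h0 s0 : ℝ)
    (hh : 0 < h1) (hh0 : h0 ≤ 1) (hs0 : 0 ≤ s0)
    (hl : ∀ s h' : ℝ, 0 ≤ s → 0 ≤ h' → h' ≤ 1 → ‖A (s + h') - A s‖ ≤ 4 * (h' + Real.exp (-s)))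
    (M : ℕ) (hM : M * h1 ≤ h0) (i : ℕ) (hi : i < M) (n : ℕ) (hn : n + M < N)
    (hn1 : Real.exp (-s0) ≤ h0) :
    ‖A (s0 + (((n : ZMod N) + (i : ZMod N)).val : ℝ) * h1) - A (s0 + ((n : ZMod N).val : ℝ) * h1)‖ ≤
      8 * h0 := by
  have h1' : ((n : ZMod N) + (i : ZMod N)).val = n + i := by
    rw [← Nat.cast_add]
    exact ZMod.val_cast_of_lt (by omega)
  have h2 : (n : ZMod N).val = n := ZMod.val_cast_of_lt (by omega)
  have h3 : (i : ℝ) ≤ M := by exact_mod_cast hi.le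
  have h4 : (i : ℝ) * h1 ≤ h0 := (mul_le_mul_of_nonneg_right h3 hh.le).trans hM
  have h5 := hl (s0 + n * h1) (i * h1) (by positivity) (by positivity) (by linarith)
  rw [h1', h2]
  have h6 : s0 + (((n + i : ℕ) : ℝ)) * h1 = s0 + n * h1 + i * h1 := by push_cast; ring
  rw [h6]
  refine h5.trans ?_
  have h7 : Real.exp (-(s0 + n * h1)) ≤ Real.exp (-s0) := by
    apply Real.exp_le_exp.2
    have : 0 ≤ (n : ℝ) * h1 := by positivity
    linarith
  linarith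

private theorem hal_sq (x y z η : ℝ) (hy : 0 ≤ y) (hz : 0 ≤ z) (h3 : y ≤ x + z) (h4 : z ≤ 8 * η) :
    y ^ 2 ≤ 2 * x ^ 2 + 128 * η ^ 2 := by
  have h6 : y ^ 2 ≤ (x + z) ^ 2 := pow_le_pow_left₀ hy h3 2
  have h7 : z ^ 2 ≤ (8 * η) ^ 2 := pow_le_pow_left₀ hz h4 2
  have h8 := sq_nonneg (x - z)
  have e1 : (x + z) ^ 2 + (x - z) ^ 2 = 2 * x ^ 2 + 2 * z ^ 2 := by ring
  have e2 : (8 * η) ^ 2 = 64 * η ^ 2 := by ring
  linarith

private theorem hal_lin (κ S c0 ε' h1 : ℝ) (e6 : κ * S ≤ c0 ^ 2 * ε' / 512 * S) (h : h1 ≤ 1)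
    (t1 : 512 ≤ S * (c0 ^ 2 * ε')) : 16 * κ * S + 16 * h1 ≤ ε' * S * c0 ^ 2 / 16 := by
  have e1 : 16 * κ * S = 16 * (κ * S) := by ring
  have e2 : ε' * S * c0 ^ 2 / 16 = S * (c0 ^ 2 * ε') / 16 := by ring
  have e3 : c0 ^ 2 * ε' / 512 * S = S * (c0 ^ 2 * ε') / 512 := by ring
  rw [e1, e2]
  rw [e3] at e6
  linarith

/-- the mean square over the fine grid -/
private theorem hal_fine (c0 ε' h0 h1 T0 δ κ S s0 : ℝ) (hc0 : 0 < c0)
    (hh0 : 0 < h0) (hh01 : h0 ≤ 1) (hh02 : 64 * h0 ^ 2 ≤ ε' / 4) (hT0 : T0 = 4 * Real.pi / h0)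
    (hδ2 : 1 / (c0 / 2) ^ 2 * (3 * δ) ^ 2 ≤ ε' / 4) (hh : 0 < h1) (hh1 : h1 ≤ h0 / 2)
    (hTh : T0 * h1 ≤ c0 / 2) (hCh : 4 * h1 ≤ δ) (hκ0 : 0 ≤ κ) (hκ : κ ≤ 1 / 4) (hS : 0 < S)
    (hL : 4 * Real.exp (-(S / 4)) ≤ δ) (hL2 : Real.exp (-(S / 4)) ≤ h0)
    (N : ℕ) [NeZero N] (hs0 : S / 2 ≤ s0) (hN : s0 + N * h1 ≤ S)
    (hB1 : 1 / (c0 / 2) ^ 2 * (4 * (κ * S / h1 + 1)) ≤ ε' / 4 * N)
    (hB2 : 4 * (h0 / h1) ≤ ε' / 4 * N)
    (A : ℝ → ℂ) (hA : ∀ s, 0 ≤ s → ‖A s‖ ≤ 1)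
    (hl : ∀ s h' : ℝ, 0 ≤ s → 0 ≤ h' → h' ≤ 1 → ‖A (s + h') - A s‖ ≤ 4 * (h' + Real.exp (-s)))
    (I : Finset ℕ) (c : ℕ → ℂ) (lam : ℕ → ℝ) (hlam : ∀ i ∈ I, 0 ≤ lam i ∧ lam i ≤ κ * S)
    (hc : ∑ i ∈ I, ‖c i‖ ≤ 1)
    (hs : ∀ s, S / 2 ≤ s → s ≤ S → ‖A s - ∑ i ∈ I, c i * A (s - lam i)‖ ≤ δ)
    (hmt : ∀ y : ℝ, |y| ≤ T0 →
      (∑ i ∈ I, c i * Complex.exp (-((y * lam i : ℝ) : ℂ) * Complex.I)).re ≤ 1 - c0) :
    ∑ n ∈ range N, ‖A (s0 + n * h1)‖ ^ 2 ≤ ε' * N := by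
  have hpi := Real.pi_pos
  have hs00 : 0 ≤ s0 := by linarith
  set M : ℕ := ⌊h0 / h1⌋₊ with hMd
  have hq : 2 ≤ h0 / h1 := by
    rw [le_div_iff₀ hh]; linarith
  have hM1 : h0 / h1 - 1 < M := by
    have := Nat.lt_floor_add_one (h0 / h1)
    rw [← hMd] at this
    linarith
  have hM2 : (M : ℝ) ≤ h0 / h1 := Nat.floor_le (by positivity)
  have hM0 : 0 < M := by
    have : (0 : ℝ) < M := by linarith
    exact_mod_cast this
  have hM0' : (0 : ℝ) < M := by exact_mod_cast hM0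
  have hMh : M * h1 ≤ h0 := by rwa [le_div_iff₀ hh] at hM2
  have hMT : 2 * Real.pi / M ≤ T0 * h1 := by
    rw [div_le_iff₀ hM0', hT0]
    have h1' : h0 / h1 ≤ 2 * M := by linarith
    rw [div_le_iff₀ hh] at h1'
    have h2 : 4 * Real.pi / h0 * h1 * M = 2 * Real.pi * ((2 * M * h1) / h0) := by ring
    rw [h2]
    have h3 : 1 ≤ (2 * M * h1) / h0 := by rw [le_div_iff₀ hh0]; linarith
    nlinarith
  set K1 : ℕ := ⌈κ * S / h1⌉₊ with hK1d
  have hK1 : (K1 : ℝ) ≤ κ * S / h1 + 1 := (Nat.ceil_lt_add_one (by positivity)).le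
  have hmain := avg_main (N := N) I c (fun i => ⌊lam i / h1⌋₊) M (c0 / 2) (by positivity)
    (fun n : ZMod N => A (s0 + (n.val : ℝ) * h1))
    (avg_freq I c lam (fun i => ⌊lam i / h1⌋₊) M hM0 T0 h1 c0 hh hc (fun i hi => by
      have h1' := Nat.floor_le (div_nonneg (hlam i hi).1 hh.le)
      have h2 := Nat.lt_floor_add_one (lam i / h1)
      rw [abs_le]
      constructor <;> linarith) hmt hTh hMT)
  rw [avg_range, avg_range] at hmain
  have hE1 : ∑ n ∈ range N, ‖A (s0 + n * h1)‖ ^ 2 =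
      ∑ n ∈ range N, ‖A (s0 + ((n : ZMod N).val : ℝ) * h1)‖ ^ 2 := by
    apply Finset.sum_congr rfl
    intro n hn
    rw [ZMod.val_cast_of_lt (mem_range.1 hn)]
  rw [hE1]
  refine hmain.trans ?_
  have hE2 : ∑ n ∈ range N, ‖A (s0 + ((n : ZMod N).val : ℝ) * h1) - ∑ i ∈ I, c i *
      A (s0 + (((n : ZMod N) - ((⌊lam i / h1⌋₊ : ℕ) : ZMod N)).val : ℝ) * h1)‖ ^ 2 ≤
      (3 * δ) ^ 2 * N + (2 : ℝ) ^ 2 * (K1 + (0 : ℕ)) := by
    apply avg_count N K1 0 _ _ _ (sq_nonneg _) (sq_nonneg _)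
    · intro n _
      exact pow_le_pow_left₀ (norm_nonneg _) (avg_bbig A hA I c hc _ (by positivity) _
        (fun i => by positivity)) 2
    · intro n hn hK _
      have h1' : κ * S ≤ n * h1 := by
        have h2 : κ * S / h1 ≤ n := (Nat.le_ceil _).trans (by exact_mod_cast hK)
        rwa [div_le_iff₀ hh] at h2
      exact pow_le_pow_left₀ (norm_nonneg _) (hal_bsmall A δ h1 S s0 κ hh (by linarith) hS.le
        hl I c lam hlam hκ hc hs hL hCh hs0 hN n hn h1') 2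
  have hE3 : ∀ i ∈ range M, ∑ n : ZMod N, ‖A (s0 + ((n + (i : ZMod N)).val : ℝ) * h1) -
      A (s0 + (n.val : ℝ) * h1)‖ ^ 2 ≤ (8 * h0) ^ 2 * N + (2 : ℝ) ^ 2 * ((0 : ℕ) + M) := by
    intro i hi
    rw [avg_range]
    apply avg_count N 0 M _ _ _ (sq_nonneg _) (sq_nonneg _)
    · intro n _
      refine pow_le_pow_left₀ (norm_nonneg _) ?_ 2
      refine (norm_sub_le _ _).trans ?_
      have h1' := hA (s0 + (((n : ZMod N) + (i : ZMod N)).val : ℝ) * h1) (by positivity)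
      have h2 := hA (s0 + ((n : ZMod N).val : ℝ) * h1) (by positivity)
      linarith
    · intro n hn _ hnM
      refine pow_le_pow_left₀ (norm_nonneg _) (hal_dsmall A h1 h0 s0 hh hh01 hs00 hl M hMh i
        (mem_range.1 hi) n hnM ?_) 2
      refine le_trans (Real.exp_le_exp.2 ?_) hL2
      linarith
  have hE4 := Finset.sum_le_sum hE3
  rw [Finset.sum_const, card_range, nsmul_eq_mul] at hE4
  have hE5 : (1 / (M : ℝ)) * ∑ i ∈ range M, ∑ n : ZMod N, ‖A (s0 + ((n + (i : ZMod N)).val : ℝ) * h1) -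
      A (s0 + (n.val : ℝ) * h1)‖ ^ 2 ≤ (8 * h0) ^ 2 * N + (2 : ℝ) ^ 2 * ((0 : ℕ) + M) := by
    rw [one_div, inv_mul_le_iff₀ hM0']
    exact hE4
  have hE6 : 1 / (c0 / 2) ^ 2 * ∑ n ∈ range N, ‖A (s0 + ((n : ZMod N).val : ℝ) * h1) - ∑ i ∈ I, c i *
      A (s0 + (((n : ZMod N) - ((⌊lam i / h1⌋₊ : ℕ) : ZMod N)).val : ℝ) * h1)‖ ^ 2 ≤
      1 / (c0 / 2) ^ 2 * ((3 * δ) ^ 2 * N + (2 : ℝ) ^ 2 * (K1 + (0 : ℕ))) :=
    mul_le_mul_of_nonneg_left hE2 (by positivity)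
  have hNn : (0 : ℝ) ≤ N := Nat.cast_nonneg _
  have hE7 : 1 / (c0 / 2) ^ 2 * ((3 * δ) ^ 2 * N) ≤ ε' / 4 * N := by
    rw [← mul_assoc]
    exact mul_le_mul_of_nonneg_right hδ2 hNn
  have hE8 : (8 * h0) ^ 2 * N ≤ ε' / 4 * N :=
    mul_le_mul_of_nonneg_right (by nlinarith) hNn
  have hE9 : 1 / (c0 / 2) ^ 2 * ((2 : ℝ) ^ 2 * (K1 + (0 : ℕ))) ≤ ε' / 4 * N := by
    refine le_trans ?_ hB1
    apply mul_le_mul_of_nonneg_left _ (by positivity)
    push_cast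
    linarith
  have hE10 : (2 : ℝ) ^ 2 * (((0 : ℕ) : ℝ) + M) ≤ ε' / 4 * N := by
    push_cast
    linarith
  rw [mul_add] at hE6
  calc _ ≤ (1 / (c0 / 2) ^ 2 * ((3 * δ) ^ 2 * N) + 1 / (c0 / 2) ^ 2 * ((2 : ℝ) ^ 2 * (K1 + (0 : ℕ)))) +
      ((8 * h0) ^ 2 * N + (2 : ℝ) ^ 2 * ((0 : ℕ) + M)) := add_le_add hE6 hE5
    _ ≤ ε' * N := by linarith

/-- The finite version of `avg_core` and `avg_all` (Lib_MP_f1a94e_ecm/Avg.lean, AvgAll.lean), copy the proof. Work on the circle `ZMod N`, `N = ⌊(S/2) / h1⌋`, with `a n = A (S/2 + n h1)`, `h1` a fine mesh (chosen in terms of `c0, ε, h`). The shifts satisfy `lam i ≤ κ S`, so `S/2 + n h1 - lam i` leaves the interval `[S/2, S]` only for a proportion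
`2 κ` of the `n` (wrap around): there `‖b n‖ ≤ 2`. So `∑ ‖b n‖² ≤ ((2 δ)² + 8 κ + small) N`, `b n = a n - ∑_i c i a (n - r_i)`, `r_i = ⌊lam i / h1⌋`; low frequencies `|θ_j| ≤ T0 h1`: `≤ (4 / c0²) ∑ ‖b n‖²`; high frequencies: `C h0² N` by slow variation (`hl`). So the mean square on the fine grid is as small as we like,
and the coarse grid (mesh `h`) follows as in `avg_all` (all arguments are at least `S/2`, `exp (-S/2)` is negligible). -/
theorem hal_avg (c0 ε h : ℝ) (hc0 : 0 < c0) (hε : 0 < ε) (hh : 0 < h) (hh1 : h ≤ 1) :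
    ∃ T0 δ κ S0 : ℝ, 0 < T0 ∧ 0 < δ ∧ 0 < κ ∧ κ ≤ 1 / 4 ∧ 0 < S0 ∧ ∀ S : ℝ, S0 ≤ S → ∀ A : ℝ → ℂ,
    (∀ s, 0 ≤ s → ‖A s‖ ≤ 1) → (∀ s h' : ℝ, 0 ≤ s → 0 ≤ h' → h' ≤ 1 → ‖A (s + h') - A s‖ ≤ 4 * (h' + Real.exp (-s))) →
    ∀ (I : Finset ℕ) (c : ℕ → ℂ) (lam : ℕ → ℝ), (∀ i ∈ I, 0 ≤ lam i ∧ lam i ≤ κ * S) → ∑ i ∈ I, ‖c i‖ ≤ 1 →
    (∀ s, S / 2 ≤ s → s ≤ S → ‖A s - ∑ i ∈ I, c i * A (s - lam i)‖ ≤ δ) →
    (∀ y : ℝ, |y| ≤ T0 → (∑ i ∈ I, c i * Complex.exp (-((y * lam i : ℝ) : ℂ) * Complex.I)).re ≤ 1 - c0) →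
    ∑ n ∈ (range (⌊S / h⌋₊ + 1)).filter (fun n : ℕ => S / 2 ≤ (n : ℝ) * h), ‖A (n * h)‖ ^ 2 ≤ ε * S := by
  -- choice of `η`
  obtain ⟨η, hη0, hηh, hηε⟩ : ∃ η : ℝ, 0 < η ∧ η ≤ h ∧ 128 * η ^ 2 ≤ ε * h / 4 := by
    have hq0 : 0 < Real.sqrt (ε * h) := Real.sqrt_pos.2 (by positivity)
    refine ⟨min h (Real.sqrt (ε * h) / 32), lt_min hh (by positivity), min_le_left _ _, ?_⟩
    set η : ℝ := min h (Real.sqrt (ε * h) / 32) with hη
    have h0 : 0 < η := lt_min hh (by positivity)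
    have h1 : η ≤ Real.sqrt (ε * h) / 32 := min_le_right _ _
    have h2 : η ^ 2 ≤ (Real.sqrt (ε * h) / 32) ^ 2 := pow_le_pow_left₀ h0.le h1 2
    rw [div_pow, Real.sq_sqrt (by positivity)] at h2
    have h3 : 0 < ε * h := by positivity
    linarith
  have hη1 : η ≤ 1 := hηh.trans hh1
  set ε' : ℝ := ε * η / 16 with hε'
  have hε'0 : 0 < ε' := by positivity
  have hsq : 0 < Real.sqrt ε' := Real.sqrt_pos.2 hε'0
  have hsq2 : Real.sqrt ε' ^ 2 = ε' := Real.sq_sqrt hε'0.le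
  obtain ⟨h0, hh0, hh01, hh02⟩ : ∃ h0 : ℝ, 0 < h0 ∧ h0 ≤ 1 ∧ 64 * h0 ^ 2 ≤ ε' / 4 := by
    refine ⟨min 1 (Real.sqrt ε' / 16), lt_min one_pos (by positivity), min_le_left _ _, ?_⟩
    have h1 : min 1 (Real.sqrt ε' / 16) ≤ Real.sqrt ε' / 16 := min_le_right _ _
    have h2 := pow_le_pow_left₀ (le_of_lt (lt_min one_pos (by positivity) :
      (0 : ℝ) < min 1 (Real.sqrt ε' / 16))) h1 2
    rw [div_pow, hsq2] at h2
    linarith
  have hpi := Real.pi_pos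
  set T0 : ℝ := 4 * Real.pi / h0 with hT0
  have hT0p : 0 < T0 := by positivity
  set δ : ℝ := c0 * Real.sqrt ε' / 12 with hδd
  have hδ : 0 < δ := by positivity
  have hδ2 : 1 / (c0 / 2) ^ 2 * (3 * δ) ^ 2 ≤ ε' / 4 := by
    have h1 : (3 * δ) ^ 2 = c0 ^ 2 * Real.sqrt ε' ^ 2 / 16 := by rw [hδd]; ring
    rw [h1, hsq2]
    apply le_of_eq
    field_simp
    ring
  set κ : ℝ := min (1 / 4) (c0 ^ 2 * ε' / 512) with hκd
  have hκ0 : 0 < κ := lt_min (by norm_num) (by positivity)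
  have hκ1 : κ ≤ 1 / 4 := min_le_left _ _
  have hκ2 : κ ≤ c0 ^ 2 * ε' / 512 := min_le_right _ _
  -- choice of `m`
  obtain ⟨m, hm⟩ := exists_nat_ge (2 * h / h0 + 2 * T0 * h / c0 + 4 * h / δ + 2 * h / η)
  have p1 : 0 < 2 * h / h0 := by positivity
  have p2 : 0 < 2 * T0 * h / c0 := by positivity
  have p3 : 0 < 4 * h / δ := by positivity
  have p4 : 0 < 2 * h / η := by positivity
  have hm0 : (0 : ℝ) < m := by linarith
  have hmpos : 0 < m := by exact_mod_cast hm0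
  have hm1 : 2 * h / h0 ≤ m := by linarith
  have hm2 : 2 * T0 * h / c0 ≤ m := by linarith
  have hm3 : 4 * h / δ ≤ m := by linarith
  have hm4 : 2 * h / η ≤ m := by linarith
  set h1 : ℝ := h / m with hh1d
  have hh1p : 0 < h1 := by positivity
  have hmh : (m : ℝ) * h1 = h := by
    rw [hh1d]
    field_simp
  have q1 : h1 ≤ h0 / 2 := by
    rw [div_le_iff₀ hh0] at hm1
    rw [hh1d, div_le_iff₀ hm0]
    linarith
  have q2 : T0 * h1 ≤ c0 / 2 := by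
    rw [div_le_iff₀ hc0] at hm2
    rw [hh1d, ← mul_div_assoc, div_le_iff₀ hm0]
    linarith
  have q3 : 4 * h1 ≤ δ := by
    rw [div_le_iff₀ hδ] at hm3
    rw [hh1d, ← mul_div_assoc, div_le_iff₀ hm0]
    linarith
  have q4 : 2 * h1 ≤ η := by
    rw [div_le_iff₀ hη0] at hm4
    rw [hh1d, ← mul_div_assoc, div_le_iff₀ hm0]
    linarith
  have r1 : 0 < 512 / (c0 ^ 2 * ε') := by positivity
  have r2 : 0 < 64 / ε' := by positivity
  have r3 : 0 < 4 / ε := by positivity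
  have r4 : 0 < 16 / δ := by positivity
  have r5 : 0 < 4 / h0 := by positivity
  have r6 : 0 < 4 / η := by positivity
  refine ⟨T0, δ, κ, 8 + 512 / (c0 ^ 2 * ε') + 64 / ε' + 4 / ε + 16 / δ + 4 / h0 + 4 / η, hT0p, hδ,
    hκ0, hκ1, by positivity, ?_⟩
  intro S hS A hA hl I c lam hlam hc hs hmt
  have t0 : 8 ≤ S := by linarith
  have hSp : 0 < S := by linarith
  have t1 : 512 ≤ S * (c0 ^ 2 * ε') := by
    have : 512 / (c0 ^ 2 * ε') ≤ S := by linarith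
    rwa [div_le_iff₀ (by positivity)] at this
  have t2 : 64 ≤ S * ε' := by
    have : 64 / ε' ≤ S := by linarith
    rwa [div_le_iff₀ hε'0] at this
  have t3 : 4 ≤ S * ε := by
    have : 4 / ε ≤ S := by linarith
    rwa [div_le_iff₀ hε] at this
  have t4 : 16 ≤ S * δ := by
    have : 16 / δ ≤ S := by linarith
    rwa [div_le_iff₀ hδ] at this
  have t5 : 4 ≤ S * h0 := by
    have : 4 / h0 ≤ S := by linarith
    rwa [div_le_iff₀ hh0] at this
  have t6 : 4 ≤ S * η := by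
    have : 4 / η ≤ S := by linarith
    rwa [div_le_iff₀ hη0] at this
  have hexp : S * Real.exp (-(S / 4)) ≤ 4 := by
    rw [Real.exp_neg, ← div_eq_mul_inv, div_le_iff₀ (Real.exp_pos _)]
    have := Real.add_one_le_exp (S / 4)
    linarith
  have e1 : 4 * Real.exp (-(S / 4)) ≤ δ := by
    have : S * (4 * Real.exp (-(S / 4))) ≤ S * δ := by linarith
    exact le_of_mul_le_mul_left this hSp
  have e2 : Real.exp (-(S / 4)) ≤ h0 := by
    have : S * Real.exp (-(S / 4)) ≤ S * h0 := by linarith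
    exact le_of_mul_le_mul_left this hSp
  have e3 : Real.exp (-(S / 4)) ≤ η := by
    have : S * Real.exp (-(S / 4)) ≤ S * η := by linarith
    exact le_of_mul_le_mul_left this hSp
  -- the grids
  set n0 : ℕ := ⌈S / 2 / h⌉₊ with hn0
  have hn01 : S / 2 ≤ n0 * h := by
    have := Nat.le_ceil (S / 2 / h)
    rwa [div_le_iff₀ hh] at this
  have hn02 : (n0 : ℝ) * h < S / 2 + h := by
    have : (n0 : ℝ) < S / 2 / h + 1 := Nat.ceil_lt_add_one (by positivity)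
    have h2 := mul_lt_mul_of_pos_right this hh
    rwa [add_mul, div_mul_cancel₀ _ hh.ne', one_mul] at h2
  have hf1 : (⌊S / h⌋₊ : ℝ) * h ≤ S := by
    have := Nat.floor_le (a := S / h) (by positivity)
    rwa [le_div_iff₀ hh] at this
  have hf2 : S < ((⌊S / h⌋₊ : ℝ) + 1) * h := by
    have := Nat.lt_floor_add_one (S / h)
    rwa [div_lt_iff₀ hh] at this
  have hle : n0 < ⌊S / h⌋₊ := by
    have h2 : (n0 : ℝ) * h < (⌊S / h⌋₊ : ℝ) * h := by
      rw [add_mul, one_mul] at hf2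
      linarith
    have h3 : (n0 : ℝ) < ⌊S / h⌋₊ := lt_of_mul_lt_mul_right h2 hh.le
    exact_mod_cast h3
  obtain ⟨Nc, hNc⟩ : ∃ Nc : ℕ, ⌊S / h⌋₊ = n0 + Nc := ⟨⌊S / h⌋₊ - n0, by omega⟩
  have hNc0 : 0 < Nc := by omega
  rw [hNc] at hf1 hf2 ⊢
  push_cast at hf1 hf2
  have hNcS : S / 4 ≤ Nc * h := by
    have h2 : S < n0 * h + Nc * h + h := by
      have h3 : ((n0 : ℝ) + Nc + 1) * h = n0 * h + Nc * h + h := by ring
      linarith
    linarith
  have hNcS2 : (Nc : ℝ) * h ≤ S := by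
    have h3 : ((n0 : ℝ) + Nc) * h = n0 * h + Nc * h := by ring
    have h4 : 0 ≤ (n0 : ℝ) * h := by positivity
    linarith
  have hNe : NeZero (Nc * m) := ⟨(Nat.mul_pos hNc0 hmpos).ne'⟩
  have hNmh : ((Nc * m : ℕ) : ℝ) * h1 = Nc * h := by
    rw [Nat.cast_mul, mul_assoc, hmh]
  have hNge : S / (4 * h1) ≤ ((Nc * m : ℕ) : ℝ) := by
    rw [div_le_iff₀ (by positivity)]
    have : ((Nc * m : ℕ) : ℝ) * (4 * h1) = 4 * (((Nc * m : ℕ) : ℝ) * h1) := by ring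
    rw [this, hNmh]
    linarith
  have hh1le : h1 ≤ 1 := by linarith
  have hNge2 : ε' / 4 * (S / (4 * h1)) ≤ ε' / 4 * ((Nc * m : ℕ) : ℝ) :=
    mul_le_mul_of_nonneg_left hNge (by positivity)
  have hfine := hal_fine c0 ε' h0 h1 T0 δ κ S (n0 * h) hc0 hh0 hh01 hh02 hT0 hδ2 hh1p q1
    q2 q3 hκ0.le hκ1 hSp e1 e2 (Nc * m) hn01
    (by rw [hNmh]; have h3 : ((n0 : ℝ) + Nc) * h = n0 * h + Nc * h := by ring
        linarith)
    (by
      refine le_trans ?_ hNge2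
      have e4 : 1 / (c0 / 2) ^ 2 * (4 * (κ * S / h1 + 1)) =
          (16 * κ * S + 16 * h1) / (c0 ^ 2 * h1) := by
        field_simp
        ring
      have e5 : ε' / 4 * (S / (4 * h1)) = (ε' * S * c0 ^ 2 / 16) / (c0 ^ 2 * h1) := by
        field_simp
        ring
      rw [e4, e5]
      apply div_le_div_of_nonneg_right _ (by positivity)
      exact hal_lin κ S c0 ε' h1 (mul_le_mul_of_nonneg_right hκ2 hSp.le) hh1le t1)
    (by
      refine le_trans ?_ hNge2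
      have e4 : 4 * (h0 / h1) = (64 * h0) / (16 * h1) := by
        field_simp
        ring
      have e5 : ε' / 4 * (S / (4 * h1)) = (S * ε') / (16 * h1) := by
        field_simp
        ring
      rw [e4, e5]
      apply div_le_div_of_nonneg_right _ (by positivity)
      linarith)
    A hA hl I c lam hlam hc hs hmt
  -- from the fine to the coarse grid
  set M : ℕ := ⌊η / h1⌋₊ with hM
  have hMle : (M : ℝ) ≤ η / h1 := Nat.floor_le (by positivity)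
  have hMh : (M : ℝ) * h1 ≤ η := (le_div_iff₀ hh1p).1 hMle
  have hMge : η / (2 * h1) ≤ M := by
    have h2 : η / h1 < M + 1 := Nat.lt_floor_add_one _
    have h3 : 1 ≤ η / (2 * h1) := by
      rw [le_div_iff₀ (by positivity)]
      linarith
    have h4 : η / h1 = η / (2 * h1) + η / (2 * h1) := by
      field_simp
      ring
    linarith
  have hM0 : (0 : ℝ) < M := lt_of_lt_of_le (by positivity) hMge
  have hMm : M ≤ m := by
    have h2 : (M : ℝ) * h1 ≤ m * h1 := by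
      rw [hmh]
      linarith
    have h3 : (M : ℝ) ≤ m := le_of_mul_le_mul_right h2 hh1p
    exact_mod_cast h3
  have hpt : ∀ j : ℕ, ∀ i ∈ range M, ‖A (n0 * h + j * h)‖ ^ 2 ≤
      2 * ‖A (n0 * h + ((j * m + i : ℕ) : ℝ) * h1)‖ ^ 2 + 128 * η ^ 2 := by
    intro j i hi
    have hiM : (i : ℝ) ≤ M := by exact_mod_cast (mem_range.1 hi).le
    have hi1 : (i : ℝ) * h1 ≤ η := (mul_le_mul_of_nonneg_right hiM hh1p.le).trans hMh
    have hi0 : 0 ≤ (i : ℝ) * h1 := by positivity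
    have hj0 : 0 ≤ (j : ℝ) * h := by positivity
    have e1 : n0 * h + ((j * m + i : ℕ) : ℝ) * h1 = n0 * h + j * h + i * h1 := by
      push_cast
      rw [← hmh]
      ring
    rw [e1]
    have h2 := hl (n0 * h + j * h) (i * h1) (by positivity) hi0 (hi1.trans hη1)
    have h25 : Real.exp (-(n0 * h + j * h)) ≤ η :=
      (Real.exp_le_exp.2 (by linarith)).trans e3
    have h3 : ‖A (n0 * h + j * h)‖ ≤ ‖A (n0 * h + j * h + i * h1)‖ +
        ‖A (n0 * h + j * h + i * h1) - A (n0 * h + j * h)‖ := by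
      have := norm_sub_norm_le (A (n0 * h + j * h)) (A (n0 * h + j * h + i * h1))
      rw [norm_sub_rev] at this
      linarith
    have h4 : ‖A (n0 * h + j * h + i * h1) - A (n0 * h + j * h)‖ ≤ 8 * η := by
      linarith
    exact hal_sq _ _ _ _ (norm_nonneg _) (norm_nonneg _) h3 h4
  have hsum : (M : ℝ) * ∑ j ∈ range Nc, ‖A (n0 * h + j * h)‖ ^ 2 ≤
      2 * (ε' * (Nc * m)) + M * (128 * η ^ 2 * Nc) := by
    calc (M : ℝ) * ∑ j ∈ range Nc, ‖A (n0 * h + j * h)‖ ^ 2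
        = ∑ j ∈ range Nc, ∑ _i ∈ range M, ‖A (n0 * h + j * h)‖ ^ 2 := by
          rw [mul_sum]
          apply sum_congr rfl
          intro n _
          rw [sum_const, card_range, nsmul_eq_mul]
      _ ≤ ∑ j ∈ range Nc, ∑ i ∈ range M, (2 * ‖A (n0 * h + ((j * m + i : ℕ) : ℝ) * h1)‖ ^ 2 +
          128 * η ^ 2) := sum_le_sum fun n _ => sum_le_sum (hpt n)
      _ = 2 * ∑ j ∈ range Nc, ∑ i ∈ range M, ‖A (n0 * h + ((j * m + i : ℕ) : ℝ) * h1)‖ ^ 2 +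
          M * (128 * η ^ 2 * Nc) := by
          simp_rw [sum_add_distrib, sum_const, card_range, nsmul_eq_mul]
          simp_rw [← mul_sum]
          ring
      _ ≤ 2 * (ε' * (Nc * m)) + M * (128 * η ^ 2 * Nc) := by
          have h2 : ∑ j ∈ range Nc, ∑ i ∈ range M, ‖A (n0 * h + ((j * m + i : ℕ) : ℝ) * h1)‖ ^ 2 ≤
              ε' * (Nc * m) := by
            calc ∑ j ∈ range Nc, ∑ i ∈ range M, ‖A (n0 * h + ((j * m + i : ℕ) : ℝ) * h1)‖ ^ 2
                ≤ ∑ j ∈ range Nc, ∑ i ∈ range m, ‖A (n0 * h + ((j * m + i : ℕ) : ℝ) * h1)‖ ^ 2 := by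
                  apply sum_le_sum
                  intro n _
                  apply sum_le_sum_of_subset_of_nonneg
                  · exact range_subset_range.2 hMm
                  · intro i _ _
                    positivity
              _ = ∑ k ∈ range (Nc * m), ‖A (n0 * h + (k : ℝ) * h1)‖ ^ 2 :=
                  avg_sum_mul (fun k => ‖A (n0 * h + (k : ℝ) * h1)‖ ^ 2) m Nc
              _ ≤ ε' * ((Nc * m : ℕ) : ℝ) := hfine
              _ = _ := by push_cast; ring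
          linarith
  have hNcn : (0 : ℝ) ≤ Nc := Nat.cast_nonneg _
  have ht1 : 2 * (ε' * (Nc * m)) ≤ M * (ε / 4 * (Nc * h)) := by
    have h2 : 2 * (ε' * (Nc * m)) = (η / (2 * h1)) * (ε / 4 * (Nc * h)) := by
      rw [hε', ← hmh]
      field_simp
      ring
    rw [h2]
    exact mul_le_mul_of_nonneg_right hMge (by positivity)
  have ht2 : 128 * η ^ 2 * Nc ≤ ε / 4 * (Nc * h) := by
    have := mul_le_mul_of_nonneg_right hηε hNcn
    linarith
  have hcoarse : ∑ j ∈ range Nc, ‖A (n0 * h + j * h)‖ ^ 2 ≤ ε / 2 * (Nc * h) := by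
    have h2 : (M : ℝ) * ∑ j ∈ range Nc, ‖A (n0 * h + j * h)‖ ^ 2 ≤ M * (ε / 2 * (Nc * h)) := by
      have h3 := mul_le_mul_of_nonneg_left ht2 hM0.le
      have h4 : (M : ℝ) * (ε / 2 * (Nc * h)) = M * (ε / 4 * (Nc * h)) + M * (ε / 4 * (Nc * h)) := by
        ring
      linarith
    exact le_of_mul_le_mul_left h2 hM0
  -- the last point
  have hlast : ‖A (n0 * h + Nc * h)‖ ^ 2 ≤ 1 := by
    exact pow_le_one₀ (norm_nonneg _) (hA (n0 * h + Nc * h) (by positivity))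
  have hsub : ∑ n ∈ (range (n0 + Nc + 1)).filter (fun n : ℕ => S / 2 ≤ (n : ℝ) * h), ‖A (n * h)‖ ^ 2 ≤
      ∑ n ∈ Ico n0 (n0 + Nc + 1), ‖A (n * h)‖ ^ 2 := by
    apply sum_le_sum_of_subset_of_nonneg
    · intro n hn
      rw [mem_filter, mem_range] at hn
      rw [mem_Ico]
      refine ⟨?_, hn.1⟩
      apply Nat.ceil_le.2
      rw [div_le_iff₀ hh]
      exact hn.2
    · intro i _ _
      positivity
  refine hsub.trans ?_
  rw [Finset.sum_Ico_eq_sum_range, show n0 + Nc + 1 - n0 = Nc + 1 by omega, sum_range_succ]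
  have hE : ∀ j : ℕ, ((n0 + j : ℕ) : ℝ) * h = n0 * h + j * h := by
    intro j
    push_cast
    ring
  simp_rw [hE]
  have h9 : ε / 2 * (Nc * h) ≤ ε / 2 * S := mul_le_mul_of_nonneg_left hNcS2 (by positivity)
  linarith

end Pool.Agent.SplI

end

/-! ### from `Lib_MP_92ef0c_spi.Hal` -/

section

/-!
# Piece I-HAL: Halasz theorem in a qualitative form (assembly)
-/

set_option autoImplicit false

namespace Pool.Agent.SplI

open Finset

/-- the convolution family has total mass one -/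
private theorem hal_mass {P Q : ℝ} (hL : 0 < Lr P Q) :
    ∑ p ∈ PrI P Q, 1 / ((p : ℝ) * Lr P Q) = 1 := by
  have h1 : ∑ p ∈ PrI P Q, 1 / ((p : ℝ) * Lr P Q) = Lr P Q * (Lr P Q)⁻¹ := by
    conv_rhs => rw [Lr, sum_mul]
    refine sum_congr rfl fun p _ => ?_
    rw [one_div, mul_inv, one_div]
    rfl
  rw [h1, mul_inv_cancel₀ hL.ne']

/-- `hal_point ε` gives `h, ε1`; `hal_avg c0 ε1 h` gives `T0, δ, κ`; `e = κ` (so `e ≤ 1/4`), `e'` so small that `C / sqrt (Lr (exp (e' S)) (exp (e S))) ≤ δ` (`ai_conv`, `Lr_bounds`) and `L0 ≤ log (e / e')`. Family: `I = PrI (exp (e' S)) (exp (e S))`, `c p = f p / (p Lr)`, `lam p = log p ≤ e S`; for `S/2 ≤ s`: `Q² = exp (2 e S) ≤ exp (S/2) ≤ exp s`. -/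
theorem halasz_i (c0 ε L0 : ℝ) (hc0 : 0 < c0) (hε : 0 < ε) : ∃ T0 e e' S0 : ℝ, 0 < T0 ∧ 0 < e' ∧ e' < e ∧ e ≤ 1 / 4 ∧ L0 ≤ Real.log (e / e') ∧ 0 < S0 ∧
    ∀ S : ℝ, S0 ≤ S → ∀ f : ℕ → ℂ, CF f →
    (∀ y : ℝ, |y| ≤ T0 → c0 * Lr (Real.exp (e' * S)) (Real.exp (e * S)) ≤
      ∑ p ∈ PrI (Real.exp (e' * S)) (Real.exp (e * S)), (1 - (f p * et y p).re) / (p : ℝ)) →
    ‖Ai f S‖ ≤ ε := by
  obtain ⟨h, ε1, S1, hh, hh1, hε1, hS1, hpt⟩ := hal_point ε hε
  obtain ⟨T0, δ, κ, S2, hT0, hδ, hκ, hκ4, hS2, havg⟩ := hal_avg c0 ε1 h hc0 hε1 hh hh1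
  obtain ⟨C1, hC1, hLr⟩ := Lr_bounds
  obtain ⟨C2, hC2, hconv⟩ := ai_conv
  set X : ℝ := max L0 (C1 + max 1 ((C2 / δ) ^ 2)) with hX
  have hXL : L0 ≤ X := le_max_left _ _
  have hX1 : C1 + max 1 ((C2 / δ) ^ 2) ≤ X := le_max_right _ _
  have hm1 : (1 : ℝ) ≤ max 1 ((C2 / δ) ^ 2) := le_max_left _ _
  have hm2 : (C2 / δ) ^ 2 ≤ max 1 ((C2 / δ) ^ 2) := le_max_right _ _
  have hX0 : 0 < X := by linarith
  set e' : ℝ := κ * Real.exp (-X) with he'
  have he'0 : 0 < e' := mul_pos hκ (Real.exp_pos _)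
  have he'κ : e' < κ := by
    have : Real.exp (-X) < 1 := by rw [Real.exp_lt_one_iff]; linarith
    calc e' = κ * Real.exp (-X) := rfl
      _ < κ * 1 := mul_lt_mul_of_pos_left this hκ
      _ = κ := mul_one _
  have hlog : Real.log (κ / e') = X := by
    rw [Real.log_div hκ.ne' he'0.ne', he', Real.log_mul hκ.ne' (Real.exp_pos _).ne', Real.log_exp]
    ring
  refine ⟨T0, κ, e', max (max S1 S2) (1 / e'), hT0, he'0, he'κ, hκ4, by rw [hlog]; exact hXL,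
    lt_of_lt_of_le hS1 ((le_max_left _ _).trans (le_max_left _ _)), fun S hS f hf hnp => ?_⟩
  have hSS1 : S1 ≤ S := ((le_max_left _ _).trans (le_max_left _ _)).trans hS
  have hSS2 : S2 ≤ S := ((le_max_right _ _).trans (le_max_left _ _)).trans hS
  have hSe : 1 / e' ≤ S := (le_max_right _ _).trans hS
  have hS0 : 0 < S := lt_of_lt_of_le hS1 hSS1
  have heS : 1 ≤ e' * S := by
    rw [div_le_iff₀ he'0] at hSe
    linarith
  set P : ℝ := Real.exp (e' * S) with hP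
  set Q : ℝ := Real.exp (κ * S) with hQ
  have hP2 : 2 ≤ P := by
    have := Real.add_one_le_exp (e' * S)
    rw [hP]
    linarith
  have hPQ : P ≤ Q := Real.exp_le_exp.2 (mul_le_mul_of_nonneg_right he'κ.le hS0.le)
  have hL : X - C1 ≤ Lr P Q := by
    have h1 := hLr P Q hP2 hPQ
    rw [hP, hQ, Real.log_exp, Real.log_exp, ← hP, ← hQ,
      ← Real.log_div (mul_pos hκ hS0).ne' (mul_pos he'0 hS0).ne', mul_div_mul_right _ _ hS0.ne', hlog] at h1
    have := (abs_le.1 h1).1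
    linarith
  have hL1 : 1 ≤ Lr P Q := by linarith
  have hL0 : 0 < Lr P Q := by linarith
  have hL2 : (C2 / δ) ^ 2 ≤ Lr P Q := by linarith
  have hCδ : C2 / Real.sqrt (Lr P Q) ≤ δ := by
    have h1 : C2 / δ ≤ Real.sqrt (Lr P Q) := Real.le_sqrt_of_sq_le hL2
    have h2 : 0 < Real.sqrt (Lr P Q) := Real.sqrt_pos.2 hL0
    rw [div_le_iff₀ h2]
    rw [div_le_iff₀ hδ] at h1
    linarith
  refine hpt S hSS1 f hf ?_
  refine havg S hSS2 (Ai f) (fun s hs => ai_bd f hf s hs) (fun s h' hs h1 h2 => ai_lip f hf s h' hs h1 h2)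
    (PrI P Q) (fun p => f p / ((p : ℂ) * (Lr P Q : ℂ))) (fun p => Real.log p) ?_ ?_ ?_ ?_
  · intro p hp
    obtain ⟨h1, h2, h3⟩ := mem_PrI.1 hp
    have hp0 : (0 : ℝ) < p := by exact_mod_cast h1.pos
    refine ⟨Real.log_natCast_nonneg p, ?_⟩
    rw [hQ] at h3
    exact (Real.log_le_iff_le_exp hp0).2 h3
  · refine (sum_le_sum fun p hp => ?_).trans (le_of_eq (hal_mass hL0))
    obtain ⟨h1, h2, h3⟩ := mem_PrI.1 hp
    have hp0 : (0 : ℝ) < p := by exact_mod_cast h1.pos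
    rw [norm_div, norm_mul, Complex.norm_natCast, Complex.norm_real, Real.norm_eq_abs, abs_of_pos hL0]
    exact div_le_div_of_nonneg_right (hf.le p) (mul_pos hp0 hL0).le
  · intro s hs1 hs2
    have hQ2 : Q ^ 2 ≤ Real.exp s := by
      rw [hQ, ← Real.exp_nat_mul]
      refine Real.exp_le_exp.2 ?_
      push_cast
      nlinarith
    have h1 := hconv P Q s hP2 hPQ hQ2 hL1 f hf
    have h2 : ∑ p ∈ PrI P Q, f p / ((p : ℂ) * (Lr P Q : ℂ)) * Ai f (s - Real.log p) =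
        ((1 / Lr P Q : ℝ) : ℂ) * ∑ p ∈ PrI P Q, f p / (p : ℂ) * Ai f (s - Real.log p) := by
      rw [mul_sum]
      refine sum_congr rfl fun p _ => ?_
      push_cast
      rw [div_mul_eq_div_div]
      ring
    show ‖Ai f s - ∑ p ∈ PrI P Q, f p / ((p : ℂ) * (Lr P Q : ℂ)) * Ai f (s - Real.log p)‖ ≤ δ
    rw [h2]
    exact h1.trans hCδ
  · intro y hy
    have h1 := hnp y hy
    show (∑ p ∈ PrI P Q, f p / ((p : ℂ) * (Lr P Q : ℂ)) *
      Complex.exp (-((y * Real.log p : ℝ) : ℂ) * Complex.I)).re ≤ 1 - c0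
    rw [Complex.re_sum]
    have h2 : ∀ p ∈ PrI P Q, (f p / ((p : ℂ) * (Lr P Q : ℂ)) *
        Complex.exp (-((y * Real.log p : ℝ) : ℂ) * Complex.I)).re =
        1 / ((p : ℝ) * Lr P Q) - (1 - (f p * et y p).re) / (p : ℝ) * (Lr P Q)⁻¹ := by
      intro p hp
      obtain ⟨h1, -, -⟩ := mem_PrI.1 hp
      have hp0 : (p : ℝ) ≠ 0 := by exact_mod_cast h1.ne_zero
      have h3 : f p / ((p : ℂ) * (Lr P Q : ℂ)) * Complex.exp (-((y * Real.log p : ℝ) : ℂ) * Complex.I) =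
          (((p : ℝ) * Lr P Q)⁻¹ : ℝ) * (f p * et y p) := by
        unfold et
        push_cast
        rw [div_eq_mul_inv]
        ring
      rw [h3, Complex.re_ofReal_mul, one_div, mul_inv]
      field_simp
      ring
    rw [sum_congr rfl h2, sum_sub_distrib, hal_mass hL0, ← sum_mul]
    have h4 : c0 ≤ (∑ p ∈ PrI P Q, (1 - (f p * et y p).re) / (p : ℝ)) * (Lr P Q)⁻¹ := by
      rw [← div_eq_mul_inv, le_div_iff₀ hL0]
      exact h1
    linarith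

end Pool.Agent.SplI

end

/-! ### from `Lib_MP_92ef0c_sp.AppG4` -/

section

/-!
# Approximation of a continuous function of four variables by steps and triangles
-/

set_option autoImplicit false

namespace Pool.Agent.Spl

open Finset Pool.Agent.OmEq

/-- one variable, half line: a convex combination of two nearby values -/
theorem appG4_sig (I : ℕ) (hI : 1 ≤ I) (B : ℝ) (hB : 0 < B) (σ : ℝ) :
    ∃ s0 s1 u0 u1 : ℝ, 0 ≤ u0 ∧ 0 ≤ u1 ∧ u0 + u1 = 1 ∧ |σ - s0| ≤ 1 / I ∧ |σ - s1| ≤ 1 / I ∧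
      ∀ G : ℝ → ℝ, (∀ s, s ≤ 0 ∨ B ≤ s → G s = 0) →
        ∑ l ∈ range (⌈B⌉₊ * I + 1), G ((l : ℝ) / I) * max 0 (1 - |I * σ - l|) = u0 * G s0 + u1 * G s1 := by
  have hI' : (0 : ℝ) < I := by exact_mod_cast hI
  rcases lt_or_ge σ 0 with hσ | hσ
  · refine ⟨σ, σ, 1, 0, zero_le_one, le_refl _, by norm_num, by simp, by simp, ?_⟩
    intro G hG
    rw [hG σ (Or.inl hσ.le)]
    rw [Finset.sum_eq_zero]
    · simp
    intro l _
    rcases Nat.eq_zero_or_pos l with h | h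
    · rw [h, hG _ (by simp), zero_mul]
    · have h2 : (1 : ℝ) ≤ l := by exact_mod_cast h
      have h3 : (I : ℝ) * σ < 0 := mul_neg_of_pos_of_neg hI' hσ
      have h4 : 1 ≤ |(I : ℝ) * σ - l| := by
        rw [le_abs]
        right
        linarith
      rw [max_eq_left (by linarith), mul_zero]
  · have hs : 0 ≤ (I : ℝ) * σ := by positivity
    have g1 := Nat.floor_le hs
    have g2 := Nat.lt_floor_add_one ((I : ℝ) * σ)
    refine ⟨((⌊(I : ℝ) * σ⌋₊ : ℕ) : ℝ) / I, ((⌊(I : ℝ) * σ⌋₊ + 1 : ℕ) : ℝ) / I, 1 - (I * σ - ⌊(I : ℝ) * σ⌋₊),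
      I * σ - ⌊(I : ℝ) * σ⌋₊, by linarith, by linarith, by ring, ?_, ?_, ?_⟩
    · rw [abs_le, neg_le_iff_add_nonneg]
      constructor
      · have : σ - ((⌊(I : ℝ) * σ⌋₊ : ℕ) : ℝ) / I + 1 / I = (I * σ - ⌊(I : ℝ) * σ⌋₊ + 1) / I := by
          field_simp
        rw [this]
        exact div_nonneg (by linarith) hI'.le
      · rw [sub_le_iff_le_add, ← add_div, le_div_iff₀ hI']
        linarith
    · push_cast
      rw [abs_le, neg_le_iff_add_nonneg]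
      constructor
      · have : σ - (((⌊(I : ℝ) * σ⌋₊ : ℕ) : ℝ) + 1) / I + 1 / I = (I * σ - ⌊(I : ℝ) * σ⌋₊) / I := by
          field_simp
          ring
        rw [this]
        exact div_nonneg (by linarith) hI'.le
      · rw [sub_le_iff_le_add, ← add_div, le_div_iff₀ hI']
        linarith
    · intro G hG
      rw [appg_tri I _ (fun l => G ((l : ℝ) / I)) ?_ σ hσ]
      · ring
      · intro l hl
        apply hG
        right
        rw [le_div_iff₀ hI']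
        have h2 : ((⌈B⌉₊ * I + 1 : ℕ) : ℝ) ≤ l := by exact_mod_cast hl
        push_cast at h2
        have h3 := Nat.le_ceil B
        nlinarith

/-- one variable, whole line: a convex combination of two nearby values -/
theorem appG4_tau (I : ℕ) (hI : 1 ≤ I) (B : ℝ) (hB : 0 < B) (τ : ℝ) :
    ∃ t0 t1 w0 w1 : ℝ, 0 ≤ w0 ∧ 0 ≤ w1 ∧ w0 + w1 = 1 ∧ |τ - t0| ≤ 1 / I ∧ |τ - t1| ≤ 1 / I ∧
      ∀ G : ℝ → ℝ, (∀ s, B ≤ |s| → G s = 0) →
        ∑ k ∈ range (2 * ⌈B⌉₊ * I + 1), G ((k : ℝ) / I - ⌈B⌉₊) * max 0 (1 - |I * (τ + ⌈B⌉₊) - k|) =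
          w0 * G t0 + w1 * G t1 := by
  have hI' : (0 : ℝ) < I := by exact_mod_cast hI
  have hc := Nat.le_ceil B
  rcases lt_or_ge (τ + ⌈B⌉₊) 0 with hσ | hσ
  · refine ⟨τ, τ, 1, 0, zero_le_one, le_refl _, by norm_num, by simp, by simp, ?_⟩
    intro G hG
    rw [hG τ (by rw [le_abs]; right; linarith)]
    rw [Finset.sum_eq_zero]
    · simp
    intro l _
    rcases Nat.eq_zero_or_pos l with h | h
    · rw [h, hG _ (by rw [le_abs]; right; simpa using hc), zero_mul]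
    · have h2 : (1 : ℝ) ≤ l := by exact_mod_cast h
      have h3 : (I : ℝ) * (τ + ⌈B⌉₊) < 0 := mul_neg_of_pos_of_neg hI' hσ
      have h4 : 1 ≤ |(I : ℝ) * (τ + ⌈B⌉₊) - l| := by
        rw [le_abs]
        right
        linarith
      rw [max_eq_left (by linarith), mul_zero]
  · set ρ := τ + (⌈B⌉₊ : ℝ) with hρ
    have hs : 0 ≤ (I : ℝ) * ρ := by positivity
    have g1 := Nat.floor_le hs
    have g2 := Nat.lt_floor_add_one ((I : ℝ) * ρ)
    refine ⟨((⌊(I : ℝ) * ρ⌋₊ : ℕ) : ℝ) / I - ⌈B⌉₊, ((⌊(I : ℝ) * ρ⌋₊ + 1 : ℕ) : ℝ) / I - ⌈B⌉₊,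
      1 - (I * ρ - ⌊(I : ℝ) * ρ⌋₊),
      I * ρ - ⌊(I : ℝ) * ρ⌋₊, by linarith, by linarith, by ring, ?_, ?_, ?_⟩
    · have e : τ - (((⌊(I : ℝ) * ρ⌋₊ : ℕ) : ℝ) / I - ⌈B⌉₊) = ρ - ((⌊(I : ℝ) * ρ⌋₊ : ℕ) : ℝ) / I := by
        rw [hρ]; ring
      rw [e, abs_le, neg_le_iff_add_nonneg]
      constructor
      · have : ρ - ((⌊(I : ℝ) * ρ⌋₊ : ℕ) : ℝ) / I + 1 / I = (I * ρ - ⌊(I : ℝ) * ρ⌋₊ + 1) / I := by
          field_simp
        rw [this]
        exact div_nonneg (by linarith) hI'.le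
      · rw [sub_le_iff_le_add, ← add_div, le_div_iff₀ hI']
        linarith
    · have e : τ - (((⌊(I : ℝ) * ρ⌋₊ + 1 : ℕ) : ℝ) / I - ⌈B⌉₊) = ρ - (((⌊(I : ℝ) * ρ⌋₊ : ℕ) : ℝ) + 1) / I := by
        rw [hρ]; push_cast; ring
      rw [e, abs_le, neg_le_iff_add_nonneg]
      constructor
      · have : ρ - (((⌊(I : ℝ) * ρ⌋₊ : ℕ) : ℝ) + 1) / I + 1 / I = (I * ρ - ⌊(I : ℝ) * ρ⌋₊) / I := by
          field_simp
          ring
        rw [this]
        exact div_nonneg (by linarith) hI'.le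
      · rw [sub_le_iff_le_add, ← add_div, le_div_iff₀ hI']
        linarith
    · intro G hG
      rw [appg_tri I _ (fun l => G ((l : ℝ) / I - ⌈B⌉₊)) ?_ ρ hσ]
      · ring
      · intro l hl
        apply hG
        rw [le_abs]
        left
        have h2 : ((2 * ⌈B⌉₊ * I + 1 : ℕ) : ℝ) ≤ l := by exact_mod_cast hl
        push_cast at h2
        have h4 : 2 * (⌈B⌉₊ : ℝ) ≤ (l : ℝ) / I := by
          rw [le_div_iff₀ hI']
          linarith
        linarith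

/-- PROOF. As `appG` (`Lib_MP_f1a94e_eq/AppG.lean`) with one more variable. `F` is uniformly continuous. For `x, x' ∈ (0, C0]` exactly one `i` and one `j` have `cell = 1`, `|x - C0 i/I| ≤ C0/I`. For `|τ| ≤ ⌈B⌉` the triangles `max 0 (1 - |I (τ + ⌈B⌉) - k|)`, `0 ≤ k ≤ 2 ⌈B⌉ I`, add up to `1`; for `|τ| > ⌈B⌉` only `k = 0` or `k = 2 ⌈B⌉ I`
can contribute and there `F = 0` (`|k/I - ⌈B⌉| ≥ B`). For `σ ≥ 0` the triangles in `σ` over all `l ≥ 0` add up to `1`, `F (..) (l/I) = 0` for `l/I ≥ B` and for `l = 0`; for `σ < 0` only `l = 0` contributes. So the difference is at most the modulus of continuity at `(C0 + 1)/I`. Support: if `x < c0/2` (or `x' < c0/2`) then `F x .. = 0` and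
`C0 i/I < x < c0`; if `|τ| > B + 1` or `|σ| > B + 1` both vanish. For `I` large. -/
theorem appG4 (c0 C0 B : ℝ) (hc0 : 0 < c0) (hC0 : c0 ≤ C0) (hB : 0 < B) (F : ℝ → ℝ → ℝ → ℝ → ℝ)
    (hF : Continuous (fun v : ℝ × ℝ × ℝ × ℝ => F v.1 v.2.1 v.2.2.1 v.2.2.2))
    (h1 : ∀ x x' τ σ, x ≤ c0 ∨ x' ≤ c0 ∨ C0 ≤ x ∨ C0 ≤ x' ∨ B ≤ |τ| ∨ σ ≤ 0 ∨ B ≤ σ → F x x' τ σ = 0) (ε : ℝ) (hε : 0 < ε) :
    ∃ I : ℕ, 1 ≤ I ∧ ∀ x x' τ σ : ℝ, 0 < x → x ≤ C0 → 0 < x' → x' ≤ C0 →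
      |F x x' τ σ - ∑ i ∈ range I, ∑ j ∈ range I, ∑ k ∈ range (2 * ⌈B⌉₊ * I + 1), ∑ l ∈ range (⌈B⌉₊ * I + 1),
        F (C0 * i / I) (C0 * j / I) ((k : ℝ) / I - ⌈B⌉₊) ((l : ℝ) / I) * cell C0 I i x * cell C0 I j x' *
          max 0 (1 - |I * (τ + ⌈B⌉₊) - k|) * max 0 (1 - |I * σ - l|)| ≤
      if c0 / 2 ≤ x ∧ c0 / 2 ≤ x' ∧ |τ| ≤ B + 1 ∧ |σ| ≤ B + 1 then ε else 0 := by
  have hC0' : 0 < C0 := by linarith
  have hcs : HasCompactSupport (fun v : ℝ × ℝ × ℝ × ℝ => F v.1 v.2.1 v.2.2.1 v.2.2.2) := by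
    refine HasCompactSupport.intro (K := Set.Icc c0 C0 ×ˢ Set.Icc c0 C0 ×ˢ Set.Icc (-B) B ×ˢ Set.Icc 0 B)
      (isCompact_Icc.prod (isCompact_Icc.prod (isCompact_Icc.prod isCompact_Icc))) ?_
    rintro ⟨x, x', τ, σ⟩ hx
    by_contra hne
    apply hx
    have hn : ¬ (x ≤ c0 ∨ x' ≤ c0 ∨ C0 ≤ x ∨ C0 ≤ x' ∨ B ≤ |τ| ∨ σ ≤ 0 ∨ B ≤ σ) := fun h => hne (h1 x x' τ σ h)
    simp only [not_or, not_le] at hn
    obtain ⟨a1, a2, a3, a4, a5, a6, a7⟩ := hn
    have a8 := abs_lt.1 a5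
    exact ⟨⟨a1.le, a3.le⟩, ⟨a2.le, a4.le⟩, ⟨a8.1.le, a8.2.le⟩, ⟨a6.le, a7.le⟩⟩
  have huc := hcs.uniformContinuous_of_continuous hF
  obtain ⟨δ, hδ, hδF⟩ := Metric.uniformContinuous_iff.1 huc ε hε
  obtain ⟨I0, hI0⟩ := exists_nat_gt ((C0 + 1) / δ)
  have hI : 1 ≤ I0 + 1 := by omega
  have hI' : (0 : ℝ) < ((I0 + 1 : ℕ) : ℝ) := by positivity
  have hId : (C0 + 1) / ((I0 + 1 : ℕ) : ℝ) < δ := by
    rw [div_lt_iff₀ hI']
    rw [div_lt_iff₀ hδ] at hI0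
    push_cast
    nlinarith
  generalize I0 + 1 = I at hI hI' hId
  clear hI0
  have hI1 : (1 : ℝ) ≤ I := by exact_mod_cast hI
  refine ⟨I, hI, ?_⟩
  intro x x' τ σ hx hxC hx' hxC'
  obtain ⟨i0, hi0, hi1, hi2, hi3⟩ := appg_cell C0 I hC0' hI x hx hxC
  obtain ⟨j0, hj0, hj1, hj2, hj3⟩ := appg_cell C0 I hC0' hI x' hx' hxC'
  obtain ⟨s0, s1, u0, u1, hu0, hu1, hu, hs0, hs1, hG⟩ := appG4_sig I hI B hB σ
  obtain ⟨t0, t1, w0, w1, hw0, hw1, hw, ht0, ht1, hT⟩ := appG4_tau I hI B hB τ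
  have e1 : ∑ i ∈ range I, ∑ j ∈ range I, ∑ k ∈ range (2 * ⌈B⌉₊ * I + 1), ∑ l ∈ range (⌈B⌉₊ * I + 1),
        F (C0 * i / I) (C0 * j / I) ((k : ℝ) / I - ⌈B⌉₊) ((l : ℝ) / I) * cell C0 I i x * cell C0 I j x' *
          max 0 (1 - |I * (τ + ⌈B⌉₊) - k|) * max 0 (1 - |I * σ - l|) =
      ∑ k ∈ range (2 * ⌈B⌉₊ * I + 1), ∑ l ∈ range (⌈B⌉₊ * I + 1),
        F (C0 * i0 / I) (C0 * j0 / I) ((k : ℝ) / I - ⌈B⌉₊) ((l : ℝ) / I) *
          max 0 (1 - |I * (τ + ⌈B⌉₊) - k|) * max 0 (1 - |I * σ - l|) := by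
    rw [← hi3 (fun i => ∑ k ∈ range (2 * ⌈B⌉₊ * I + 1), ∑ l ∈ range (⌈B⌉₊ * I + 1),
        F (C0 * i / I) (C0 * j0 / I) ((k : ℝ) / I - ⌈B⌉₊) ((l : ℝ) / I) *
          max 0 (1 - |I * (τ + ⌈B⌉₊) - k|) * max 0 (1 - |I * σ - l|))]
    refine Finset.sum_congr rfl fun i _ => ?_
    rw [← hj3 (fun j => ∑ k ∈ range (2 * ⌈B⌉₊ * I + 1), ∑ l ∈ range (⌈B⌉₊ * I + 1),
        F (C0 * i / I) (C0 * j / I) ((k : ℝ) / I - ⌈B⌉₊) ((l : ℝ) / I) *
          max 0 (1 - |I * (τ + ⌈B⌉₊) - k|) * max 0 (1 - |I * σ - l|)), Finset.sum_mul]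
    refine Finset.sum_congr rfl fun j _ => ?_
    rw [Finset.sum_mul, Finset.sum_mul]
    refine Finset.sum_congr rfl fun k _ => ?_
    rw [Finset.sum_mul, Finset.sum_mul]
    refine Finset.sum_congr rfl fun l _ => ?_
    ring
  rw [e1]
  set a := C0 * i0 / I with ha
  set b := C0 * j0 / I with hb
  have e2 : ∑ k ∈ range (2 * ⌈B⌉₊ * I + 1), ∑ l ∈ range (⌈B⌉₊ * I + 1),
        F a b ((k : ℝ) / I - ⌈B⌉₊) ((l : ℝ) / I) *
          max 0 (1 - |I * (τ + ⌈B⌉₊) - k|) * max 0 (1 - |I * σ - l|) =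
      w0 * (u0 * F a b t0 s0 + u1 * F a b t0 s1) + w1 * (u0 * F a b t1 s0 + u1 * F a b t1 s1) := by
    rw [← hT (fun t => u0 * F a b t s0 + u1 * F a b t s1)]
    · refine Finset.sum_congr rfl fun k _ => ?_
      rw [← hG (fun s => F a b ((k : ℝ) / I - ⌈B⌉₊) s), Finset.sum_mul]
      · refine Finset.sum_congr rfl fun l _ => ?_
        ring
      · intro s hs
        apply h1
        exact Or.inr (Or.inr (Or.inr (Or.inr (Or.inr hs))))
    · intro t ht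
      show u0 * F a b t s0 + u1 * F a b t s1 = 0
      rw [h1 a b t s0 (Or.inr (Or.inr (Or.inr (Or.inr (Or.inl ht))))),
        h1 a b t s1 (Or.inr (Or.inr (Or.inr (Or.inr (Or.inl ht)))))]
      ring
  rw [e2]
  have hI11 : 1 / (I : ℝ) ≤ 1 := by
    rw [div_le_one hI']
    exact hI1
  by_cases hcase : c0 / 2 ≤ x ∧ c0 / 2 ≤ x' ∧ |τ| ≤ B + 1 ∧ |σ| ≤ B + 1
  · rw [if_pos hcase]
    have k0 : 1 / (I : ℝ) < δ := by
      refine lt_of_le_of_lt ?_ hId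
      exact div_le_div_of_nonneg_right (by linarith) hI'.le
    have k1 : |x - a| < δ := by
      rw [abs_of_pos (by linarith)]
      refine lt_of_le_of_lt hi2 (lt_of_le_of_lt ?_ hId)
      exact div_le_div_of_nonneg_right (by linarith) hI'.le
    have k2 : |x' - b| < δ := by
      rw [abs_of_pos (by linarith)]
      refine lt_of_le_of_lt hj2 (lt_of_le_of_lt ?_ hId)
      exact div_le_div_of_nonneg_right (by linarith) hI'.le
    have key : ∀ t s, |τ - t| ≤ 1 / I → |σ - s| ≤ 1 / I → |F x x' τ σ - F a b t s| ≤ ε := by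
      intro t s ht hs
      have := hδF (a := (x, x', τ, σ)) (b := (a, b, t, s))
        (by
          rw [Prod.dist_eq, Prod.dist_eq, Prod.dist_eq]
          exact max_lt k1 (max_lt k2 (max_lt (lt_of_le_of_lt ht k0) (lt_of_le_of_lt hs k0))))
      exact this.le
    have m00 := key t0 s0 ht0 hs0
    have m01 := key t0 s1 ht0 hs1
    have m10 := key t1 s0 ht1 hs0
    have m11 := key t1 s1 ht1 hs1
    have e3 : F x x' τ σ - (w0 * (u0 * F a b t0 s0 + u1 * F a b t0 s1) +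
        w1 * (u0 * F a b t1 s0 + u1 * F a b t1 s1)) =
        w0 * u0 * (F x x' τ σ - F a b t0 s0) + w0 * u1 * (F x x' τ σ - F a b t0 s1) +
        (w1 * u0 * (F x x' τ σ - F a b t1 s0) + w1 * u1 * (F x x' τ σ - F a b t1 s1)) := by
      have e4 : F x x' τ σ = (w0 + w1) * (u0 + u1) * F x x' τ σ := by rw [hw, hu]; ring
      calc F x x' τ σ - (w0 * (u0 * F a b t0 s0 + u1 * F a b t0 s1) +
        w1 * (u0 * F a b t1 s0 + u1 * F a b t1 s1)) = (w0 + w1) * (u0 + u1) * F x x' τ σ -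
          (w0 * (u0 * F a b t0 s0 + u1 * F a b t0 s1) +
            w1 * (u0 * F a b t1 s0 + u1 * F a b t1 s1)) := by rw [← e4]
        _ = _ := by ring
    rw [e3]
    have p : ∀ w u z : ℝ, 0 ≤ w → 0 ≤ u → |z| ≤ ε → |w * u * z| ≤ w * u * ε := by
      intro w u z hw hu hz
      rw [abs_mul, abs_of_nonneg (mul_nonneg hw hu)]
      exact mul_le_mul_of_nonneg_left hz (mul_nonneg hw hu)
    have q00 := p w0 u0 _ hw0 hu0 m00
    have q01 := p w0 u1 _ hw0 hu1 m01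
    have q10 := p w1 u0 _ hw1 hu0 m10
    have q11 := p w1 u1 _ hw1 hu1 m11
    have e5 : w0 * u0 * ε + w0 * u1 * ε + (w1 * u0 * ε + w1 * u1 * ε) = ε := by
      have : w0 * u0 * ε + w0 * u1 * ε + (w1 * u0 * ε + w1 * u1 * ε) = (w0 + w1) * (u0 + u1) * ε := by ring
      rw [this, hw, hu]; ring
    refine (abs_add_le _ _).trans ?_
    refine (add_le_add (abs_add_le _ _) (abs_add_le _ _)).trans ?_
    linarith
  · rw [if_neg hcase]
    have z : F x x' τ σ = 0 ∧ ∀ t s, |τ - t| ≤ 1 / I → |σ - s| ≤ 1 / I → F a b t s = 0 := by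
      rcases lt_or_ge x (c0 / 2) with h | h
      · exact ⟨h1 _ _ _ _ (Or.inl (by linarith)), fun t s _ _ => h1 _ _ _ _ (Or.inl (by linarith))⟩
      rcases lt_or_ge x' (c0 / 2) with h' | h'
      · exact ⟨h1 _ _ _ _ (Or.inr (Or.inl (by linarith))),
          fun t s _ _ => h1 _ _ _ _ (Or.inr (Or.inl (by linarith)))⟩
      rcases lt_or_ge (B + 1) |τ| with h'' | h''
      · refine ⟨h1 _ _ _ _ (Or.inr (Or.inr (Or.inr (Or.inr (Or.inl (by linarith)))))), fun t s ht _ =>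
          h1 _ _ _ _ (Or.inr (Or.inr (Or.inr (Or.inr (Or.inl ?_)))))⟩
        have := abs_sub_abs_le_abs_sub τ t
        linarith
      have h3 : B + 1 < |σ| := by
        by_contra hne
        exact hcase ⟨h, h', h'', not_lt.1 hne⟩
      refine ⟨h1 _ _ _ _ (Or.inr (Or.inr (Or.inr (Or.inr (Or.inr ?_))))), fun t s _ hs =>
          h1 _ _ _ _ (Or.inr (Or.inr (Or.inr (Or.inr (Or.inr ?_)))))⟩
      · rcases lt_abs.1 h3 with h4 | h4
        · right; linarith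
        · left; linarith
      · have h4 := abs_sub_abs_le_abs_sub σ s
        have h5 : B < |s| := by linarith
        rcases lt_abs.1 h5 with h6 | h6
        · right; linarith
        · left; linarith
    obtain ⟨z1, z2⟩ := z
    rw [z1, z2 t0 s0 ht0 hs0, z2 t0 s1 ht0 hs1, z2 t1 s0 ht1 hs0, z2 t1 s1 ht1 hs1]
    simp

end Pool.Agent.Spl

end
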