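import Pool.Agent.Lib_MP_92ef0c_m.M05
import Pool.Agent.Lib_MP_92ef0c_m.M12

/-!
# MP_92ef0c_nt, split pairs: merged library part M14

Concatenation of smaller files (each in its own section), only to save build time.
-/

/-! ### from `Lib_MP_92ef0c_lb.RoughC` -/

section

/-!
# Block B: rough numbers have density zero
-/

set_option autoImplicit false

namespace Pool.Agent.SplB

open Finset Pool.Agent.SplI Filter

private theorem rc_exists (η : ℝ) (hη : 0 < η) : ∃ n : ℕ,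
    ∏ p ∈ (range n).filter Nat.Prime, (1 - 1 / (p : ℝ)) ≤ η := by
  have h1 := not_summable_one_div_on_primes
  have h2 := (not_summable_iff_tendsto_nat_atTop_of_nonneg (fun n => by
    unfold Set.indicator
    split_ifs <;> positivity)).1 h1
  obtain ⟨n, hn⟩ := (h2.eventually (eventually_ge_atTop (-Real.log η))).exists
  refine ⟨n, ?_⟩
  have h3 : ∑ i ∈ range n, Set.indicator {p : ℕ | p.Prime} (fun n : ℕ => (1 : ℝ) / n) i =
      ∑ p ∈ (range n).filter Nat.Prime, 1 / (p : ℝ) := by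
    rw [sum_filter]
    refine sum_congr rfl fun i _ => ?_
    rw [Set.indicator_apply]
    rfl
  rw [h3] at hn
  calc ∏ p ∈ (range n).filter Nat.Prime, (1 - 1 / (p : ℝ))
      ≤ ∏ p ∈ (range n).filter Nat.Prime, Real.exp (-(1 / (p : ℝ))) := by
        refine prod_le_prod (fun p hp => ?_) fun p _ => ?_
        · have hp1 := (mem_filter.1 hp).2.one_lt
          have : (1 : ℝ) ≤ p := by exact_mod_cast hp1.le
          rw [sub_nonneg, div_le_one (by linarith)]
          exact this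
        · have := Real.add_one_le_exp (-(1 / (p : ℝ)))
          linarith
    _ = Real.exp (-∑ p ∈ (range n).filter Nat.Prime, 1 / (p : ℝ)) := by
        rw [← Real.exp_sum, sum_neg_distrib]
    _ ≤ Real.exp (Real.log η) := Real.exp_le_exp.2 (by linarith)
    _ = η := Real.exp_log hη

open Classical in
theorem rough_count (η : ℝ) (hη : 0 < η) : ∃ P u0 : ℝ, 0 < P ∧ 0 < u0 ∧ ∀ u : ℝ, u0 ≤ u → ∀ R : ℝ, P ≤ R →
    (((Icc 1 ⌊u⌋₊).filter (fun n : ℕ => ∀ p : ℕ, p.Prime → p ∣ n → R < (p : ℝ))).card : ℝ) ≤ η * u := by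
  obtain ⟨n, hn⟩ := rc_exists (η / 2) (by positivity)
  set s := (range n).filter Nat.Prime with hs
  set W : ℕ := ∏ p ∈ s, p with hW
  have hsp : ∀ p ∈ s, p.Prime := fun p hp => (mem_filter.1 hp).2
  have hW0 : W ≠ 0 := by
    rw [hW]
    exact prod_ne_zero_iff.2 fun p hp => (hsp p hp).ne_zero
  have hWf : W.primeFactors = s := Nat.primeFactors_prod hsp
  have htot : (W.totient : ℝ) = W * ∏ p ∈ s, (1 - 1 / (p : ℝ)) := by
    have h := Nat.totient_eq_mul_prod_factors W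
    rw [hWf] at h
    have h2 : ((W.totient : ℚ) : ℝ) = ((W * ∏ p ∈ s, (1 - (p : ℚ)⁻¹) : ℚ) : ℝ) := by rw [h]
    push_cast at h2
    rw [h2]
    congr 1
    refine prod_congr rfl fun p _ => by rw [one_div]
  have hWr : (0 : ℝ) < W := by exact_mod_cast Nat.pos_of_ne_zero hW0
  refine ⟨n + 1, 2 * W / η + 1, by positivity, by positivity, fun u hu R hR => ?_⟩
  have hu0 : 0 ≤ u := le_trans (by positivity) hu
  have hsub : (Icc 1 ⌊u⌋₊).filter (fun n : ℕ => ∀ p : ℕ, p.Prime → p ∣ n → R < (p : ℝ)) ⊆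
      (Ico 1 (1 + ⌊u⌋₊)).filter (fun x => W.Coprime x) := by
    intro x hx
    rw [mem_filter, mem_Icc] at hx
    rw [mem_filter, mem_Ico]
    refine ⟨⟨hx.1.1, by omega⟩, ?_⟩
    rw [hW]
    refine Nat.Coprime.prod_left fun p hp => ?_
    rw [Nat.Prime.coprime_iff_not_dvd (hsp p hp)]
    intro hpx
    have h1 := hx.2 p (hsp p hp) hpx
    have h2 : p < n := mem_range.1 (mem_filter.1 hp).1
    have h3 : (p : ℝ) < n := by exact_mod_cast h2
    linarith
  have h1 : ((Icc 1 ⌊u⌋₊).filter (fun n : ℕ => ∀ p : ℕ, p.Prime → p ∣ n → R < (p : ℝ))).card ≤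
      W.totient * (⌊u⌋₊ / W + 1) := (card_le_card hsub).trans (Nat.Ico_filter_coprime_le 1 ⌊u⌋₊ hW0)
  have h2 : (((Icc 1 ⌊u⌋₊).filter (fun n : ℕ => ∀ p : ℕ, p.Prime → p ∣ n → R < (p : ℝ))).card : ℝ) ≤
      W.totient * (u / W + 1) := by
    refine le_trans (by exact_mod_cast h1 : _ ≤ ((W.totient * (⌊u⌋₊ / W + 1) : ℕ) : ℝ)) ?_
    push_cast
    refine mul_le_mul_of_nonneg_left ?_ (Nat.cast_nonneg _)
    have h3 : (((⌊u⌋₊ / W : ℕ)) : ℝ) ≤ (⌊u⌋₊ : ℝ) / W := Nat.cast_div_le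
    have h4 : (⌊u⌋₊ : ℝ) / W ≤ u / W := div_le_div_of_nonneg_right (Nat.floor_le hu0) hWr.le
    linarith
  refine h2.trans ?_
  have h5 : (W.totient : ℝ) ≤ W * (η / 2) := by
    rw [htot]
    exact mul_le_mul_of_nonneg_left hn hWr.le
  have h6 : (W.totient : ℝ) ≤ W := by exact_mod_cast Nat.totient_le W
  have h7 : 2 * W / η ≤ u := by linarith
  rw [div_le_iff₀ hη] at h7
  have h8 : (W.totient : ℝ) * (u / W) ≤ W * (η / 2) * (u / W) :=
    mul_le_mul_of_nonneg_right h5 (by positivity)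
  have h9 : W * (η / 2) * (u / W) = η / 2 * u := by field_simp
  calc (W.totient : ℝ) * (u / W + 1) = W.totient * (u / W) + W.totient := by ring
    _ ≤ η / 2 * u + W := by linarith
    _ ≤ η * u := by linarith

end Pool.Agent.SplB

end

/-! ### from `Lib_MP_f1a94e_eq.NpZ` -/

section

/-!
# Piece NPZ: characters that are not trivial on `1 mod 4` satisfy `NP` with `R = 0`
-/

set_option autoImplicit false

namespace Pool.Agent.OmEq

open Finset Pool.Agent.OmAll

open NpP ZEuler in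
/-- PROOF. As piece NP (`npChi` in Np.lean), with the nontrivial case only: `smooth_cut` replaces the sum over `PT T` of `Re (ω χ(p) exp (-2 i τ log p)) / p` by the sum over all
primes `p = 1 mod 4` of `Re (ω χ(p) p^(-(1 + δ + 2 i τ)))`, `δ = 1/log T`; for odd `p`, `1_(p = 1 mod 4) = (1 + χ₄(p))/2`; so up to `O(1)` it is
`Re (ω/2 (P_χ + P_(χ χ₄)))`, with both characters considered modulo `4 N` (`DirichletCharacter.changeLevel`, differs at the primes dividing `4 N` only). Both are nontrivial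
modulo `4 N`: `a` is coprime to `4 N` and `χ(a) ≠ 1`, `χ(a) χ₄(a) = χ(a) ≠ 1`. So both sums are bounded by `npN` (`|t| = |2 τ| ≤ 2 B`), the primes of `E` contribute at most `#E`. -/
theorem npZ (N : ℕ) [NeZero N] (χ : DirichletCharacter ℂ N) (a : ℕ) (ha : a % 4 = 1) (haN : a.Coprime N)
    (hχ : χ ((a : ZMod N)) ≠ 1) (ω : ℂ) (hω : ‖ω‖ = 1) (E : Finset ℕ) :
    NP E (fun p => ω * χ ((p : ZMod N))) 0 := by
  classical
  intro B hB
  obtain ⟨C0, hC0⟩ := smooth_cut
  have hM : 0 < 4 * N := by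
    have := NeZero.pos N
    omega
  have : NeZero (4 * N) := ⟨hM.ne'⟩
  set M := 4 * N with hMdef
  have hN : N ∣ M := Dvd.intro_left 4 rfl
  have h4 : 4 ∣ M := Dvd.intro N rfl
  set ψ1 : DirichletCharacter ℂ M := DirichletCharacter.changeLevel hN χ with hψ1
  set ψ4 : DirichletCharacter ℂ M := DirichletCharacter.changeLevel h4 ch with hψ4
  set ψ2 : DirichletCharacter ℂ M := ψ1 * ψ4 with hψ2
  have ha0 : Odd a := Nat.odd_iff.mpr (by omega)
  have hcopa : Nat.Coprime a M := by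
    rw [hMdef]
    refine Nat.Coprime.mul_right ?_ haN
    have h2 : Nat.Coprime a 2 := (Nat.coprime_two_right).mpr ha0
    exact Nat.Coprime.pow_right 2 h2
  have hcopaZ : IsCoprime ((a : ℕ) : ℤ) (M : ℤ) := Nat.isCoprime_iff_coprime.mpr hcopa
  have hua : IsUnit ((a : ZMod M)) := (ZMod.isUnit_iff_coprime a M).mpr hcopa
  have ea1 : ψ1 ((a : ZMod M)) = χ ((a : ZMod N)) := by
    have := DirichletCharacter.changeLevel_eq_cast_of_dvd' χ hN hcopaZ
    simpa using this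
  have ea4 : ψ4 ((a : ZMod M)) = 1 := by
    have := DirichletCharacter.changeLevel_eq_cast_of_dvd' ch h4 hcopaZ
    have h5 : ψ4 ((a : ZMod M)) = ch ((a : ZMod 4)) := by simpa using this
    rw [h5, ch_apply, ZMod.χ₄_nat_one_mod_four ha]
    norm_num
  have hψ1ne : ψ1 ≠ 1 := by
    intro h
    apply hχ
    rw [← ea1, h, MulChar.one_apply hua]
  have hψ2ne : ψ2 ≠ 1 := by
    intro h
    apply hχ
    have h6 : ψ2 ((a : ZMod M)) = χ ((a : ZMod N)) := by
      rw [hψ2, MulChar.mul_apply, ea1, ea4, mul_one]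
    rw [← h6, h, MulChar.one_apply hua]
  obtain ⟨C1, hC1⟩ := charSum M ψ1 (2 * B) (by linarith)
  obtain ⟨C2, hC2⟩ := charSum M ψ2 (2 * B) (by linarith)
  refine ⟨C0 + (E.card : ℝ) + ((M : ℝ) + 1) + (C1 + C2), ?_⟩
  intro T hT τ hτ0 hτB
  have hL := ZSm.one_le_logT hT
  set δ : ℝ := 1 / Real.log T with hδdef
  have hδ : 0 < δ := by positivity
  have hδ1 : δ ≤ 1 := by
    rw [hδdef, div_le_one (by linarith)]
    exact hL
  -- the function
  set f : ℕ → ℝ := fun p => (ω * χ ((p : ZMod N)) *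
    Complex.exp (-(2 * τ * Real.log p : ℝ) * Complex.I)).re with hf
  have hf1 : ∀ p, |f p| ≤ 1 := by
    intro p
    refine (Complex.abs_re_le_norm _).trans ?_
    have hexp : ‖Complex.exp (-(2 * τ * Real.log p : ℝ) * Complex.I)‖ = 1 := by
      have : (-(2 * τ * Real.log p : ℝ) * Complex.I : ℂ) =
        ((-(2 * τ * Real.log p) : ℝ) : ℂ) * Complex.I := by push_cast; ring
      rw [this, Complex.norm_exp_ofReal_mul_I]
    rw [norm_mul, norm_mul, hω, hexp, one_mul, mul_one]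
    exact χ.norm_le_one _
  obtain ⟨-, hcut⟩ := hC0 T hT f hf1
  rw [← hδdef] at hcut
  -- the primes of `E`
  have hE : ∑ p ∈ PE E T, f p / p ≤ ∑ p ∈ PT T, f p / p + (E.card : ℝ) := by
    have h1 : ∑ p ∈ PT T \ (PT T \ E), f p / (p : ℝ) + ∑ p ∈ PT T \ E, f p / (p : ℝ) =
        ∑ p ∈ PT T, f p / (p : ℝ) := sum_sdiff sdiff_subset
    have h2 : -(E.card : ℝ) ≤ ∑ p ∈ PT T \ (PT T \ E), f p / (p : ℝ) := by
      have h3 : |∑ p ∈ PT T \ (PT T \ E), f p / (p : ℝ)| ≤ (E.card : ℝ) := by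
        calc |∑ p ∈ PT T \ (PT T \ E), f p / (p : ℝ)|
            ≤ ∑ p ∈ PT T \ (PT T \ E), |f p / (p : ℝ)| := abs_sum_le_sum_abs _ _
          _ ≤ ∑ p ∈ PT T \ (PT T \ E), (1 : ℝ) := by
              refine sum_le_sum fun p hp => ?_
              have hp5 := ZSm.PT_five (mem_sdiff.mp hp).1
              have hp1 : (1 : ℝ) ≤ p := by exact_mod_cast (by omega : 1 ≤ p)
              rw [abs_div, abs_of_pos (by linarith : (0 : ℝ) < p), div_le_one (by linarith)]
              exact (hf1 p).trans hp1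
          _ = ((PT T \ (PT T \ E)).card : ℝ) := by simp
          _ ≤ (E.card : ℝ) := by
              have : PT T \ (PT T \ E) ⊆ E := by
                intro p hp
                rw [mem_sdiff, mem_sdiff] at hp
                by_contra hc
                exact hp.2 ⟨hp.1, hc⟩
              exact_mod_cast card_le_card this
      exact (abs_le.mp h3).1
    have h3 : PE E T = PT T \ E := rfl
    rw [h3]
    linarith
  -- as a sum over primes
  set A : Nat.Primes → ℂ := fun p => (if (p : ℕ) % 4 = 1 then ω * χ (((p : ℕ) : ZMod N)) else 0) *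
    ((p : ℕ) : ℂ) ^ (-((1 + δ : ℝ) + ((2 * τ : ℝ) : ℂ) * Complex.I)) with hA
  set b : Nat.Primes → ℂ := fun p => (ω / 2 * (ψ1 (((p : ℕ) : ZMod M)) + ψ2 (((p : ℕ) : ZMod M)))) *
    ((p : ℕ) : ℂ) ^ (-((1 + δ : ℝ) + ((2 * τ : ℝ) : ℂ) * Complex.I)) with hb
  have hac : ∀ p : Nat.Primes,
      ‖(if (p : ℕ) % 4 = 1 then ω * χ (((p : ℕ) : ZMod N)) else 0 : ℂ)‖ ≤ 1 := by
    intro p
    split_ifs
    · rw [norm_mul, hω, one_mul]
      exact χ.norm_le_one _
    · simp
  have hbc : ∀ p : Nat.Primes,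
      ‖ω / 2 * (ψ1 (((p : ℕ) : ZMod M)) + ψ2 (((p : ℕ) : ZMod M)))‖ ≤ 1 := by
    intro p
    rw [norm_mul, norm_div, hω, Complex.norm_ofNat]
    have h1 := ψ1.norm_le_one (((p : ℕ) : ZMod M))
    have h2 := ψ2.norm_le_one (((p : ℕ) : ZMod M))
    have h3 := norm_add_le (ψ1 (((p : ℕ) : ZMod M))) (ψ2 (((p : ℕ) : ZMod M)))
    linarith
  have hsa : Summable A := summ _ hac hδ (2 * τ)
  have hsb : Summable b := summ _ hbc hδ (2 * τ)
  have hST : ∑' p : ℕ, (if p.Prime ∧ p % 4 = 1 then f p / (p : ℝ) ^ (1 + δ) else 0) =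
      (∑' p, A p).re := by
    rw [Complex.re_tsum hsa]
    have h1 : ∀ p : ℕ, (if p.Prime ∧ p % 4 = 1 then f p / (p : ℝ) ^ (1 + δ) else 0) =
        (if p.Prime then (if p % 4 = 1 then f p / (p : ℝ) ^ (1 + δ) else 0) else 0) := by
      intro p
      by_cases hp : p.Prime <;> simp [hp]
    rw [tsum_congr h1, tsum_ite (fun p : ℕ => if p % 4 = 1 then f p / (p : ℝ) ^ (1 + δ) else 0)]
    refine tsum_congr fun p => ?_
    rw [hA]
    simp only
    split_ifs with h
    · exact f_eq p p.2.pos _ δ τ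
    · simp
  have hdiff : ‖∑' p, A p - ∑' p, b p‖ ≤ (M : ℝ) + 1 := by
    refine tsum_diff M hM A b hsa hsb ?_ ?_
    · intro p hp
      have hcop : Nat.Coprime (p : ℕ) M := (Nat.Prime.coprime_iff_not_dvd p.2).mpr hp
      have hcopZ : IsCoprime ((p : ℕ) : ℤ) (M : ℤ) := Nat.isCoprime_iff_coprime.mpr hcop
      have e1 : ψ1 (((p : ℕ) : ZMod M)) = χ (((p : ℕ) : ZMod N)) := by
        have := DirichletCharacter.changeLevel_eq_cast_of_dvd' χ hN hcopZ
        simpa using this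
      have e4 : ψ4 (((p : ℕ) : ZMod M)) = ch (((p : ℕ) : ZMod 4)) := by
        have := DirichletCharacter.changeLevel_eq_cast_of_dvd' ch h4 hcopZ
        simpa using this
      have e2 : ψ2 (((p : ℕ) : ZMod M)) = χ (((p : ℕ) : ZMod N)) * ch (((p : ℕ) : ZMod 4)) := by
        rw [hψ2, MulChar.mul_apply, e1, e4]
      rw [hA, hb]
      simp only
      rw [e1, e2, ch_apply]
      have hodd : (p : ℕ) % 4 = 1 ∨ (p : ℕ) % 4 = 3 := by
        rcases p.2.eq_two_or_odd with h | h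
        · exfalso
          apply hp
          rw [h]
          exact (by norm_num : 2 ∣ 4).trans h4
        · omega
      rcases hodd with h | h
      · rw [if_pos h, ZMod.χ₄_nat_one_mod_four h]
        push_cast
        ring
      · rw [if_neg (by omega), ZMod.χ₄_nat_three_mod_four h]
        push_cast
        ring
    · intro p
      refine (norm_sub_le _ _).trans ?_
      have h1 : ‖A p‖ ≤ 1 / 2 := by
        rw [hA]
        simp only
        rw [norm_mul, norm_pow]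
        have h3 : (0 : ℝ) ≤ ((p : ℕ) : ℝ) ^ (-(1 + δ)) := by positivity
        exact (mul_le_of_le_one_left h3 (hac p)).trans (rpow_half p hδ)
      have h2 : ‖b p‖ ≤ 1 / 2 := by
        rw [hb]
        simp only
        rw [norm_mul, norm_pow]
        have h3 : (0 : ℝ) ≤ ((p : ℕ) : ℝ) ^ (-(1 + δ)) := by positivity
        exact (mul_le_of_le_one_left h3 (hbc p)).trans (rpow_half p hδ)
      linarith
  -- the two character sums
  set P1 := ∑' p : Nat.Primes, ψ1 (((p : ℕ) : ZMod M)) *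
    ((p : ℕ) : ℂ) ^ (-((1 + δ : ℝ) + ((2 * τ : ℝ) : ℂ) * Complex.I)) with hP1
  set P2 := ∑' p : Nat.Primes, ψ2 (((p : ℕ) : ZMod M)) *
    ((p : ℕ) : ℂ) ^ (-((1 + δ : ℝ) + ((2 * τ : ℝ) : ℂ) * Complex.I)) with hP2
  have hbsum : ∑' p, b p = ω / 2 * (P1 + P2) := by
    have s1 := summ (fun p : Nat.Primes => ψ1 (((p : ℕ) : ZMod M)))
      (fun p => ψ1.norm_le_one _) hδ (2 * τ)
    have s2 := summ (fun p : Nat.Primes => ψ2 (((p : ℕ) : ZMod M)))
      (fun p => ψ2.norm_le_one _) hδ (2 * τ)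
    rw [hP1, hP2, ← s1.tsum_add s2, ← tsum_mul_left]
    refine tsum_congr fun p => ?_
    rw [hb]
    simp only
    ring
  have hτ2 : |2 * τ| ≤ 2 * B := by
    rw [abs_mul, abs_two]
    linarith
  have k1 := hC1 δ (2 * τ) hδ hδ1 hτ2
  have k2 := hC2 δ (2 * τ) hδ hδ1 hτ2
  rw [← hP1, if_neg hψ1ne, zero_mul, Complex.ofReal_zero, sub_zero] at k1
  rw [← hP2, if_neg hψ2ne, zero_mul, Complex.ofReal_zero, sub_zero] at k2
  have hmain : (ω / 2 * (P1 + P2)).re ≤ C1 + C2 := by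
    refine (Complex.re_le_norm _).trans ?_
    rw [norm_mul, norm_div, hω, Complex.norm_ofNat]
    have h3 := norm_add_le P1 P2
    have h4 := norm_nonneg (P1 + P2)
    linarith
  have hcut' := (abs_le.mp hcut).2
  have hd' : (∑' p, A p).re - (∑' p, b p).re ≤ (M : ℝ) + 1 := by
    rw [← Complex.sub_re]
    exact (Complex.re_le_norm _).trans hdiff
  rw [hST] at hcut'
  rw [hbsum] at hd'
  have hfin : ∑ p ∈ PE E T, f p / p ≤ 0 / 2 * max 0 (Real.log (1 / |τ|)) +
      (C0 + (E.card : ℝ) + ((M : ℝ) + 1) + (C1 + C2)) := by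
    linarith
  exact hfin

end Pool.Agent.OmEq

end

/-! ### from `Lib_MP_f1a94e_eq.AnI` -/

section

/-!
# Piece ANI: Cauchy-Schwarz for the cluster sums
-/

set_option autoImplicit false

namespace Pool.Agent.OmEq

open Finset Pool.Agent.OmAll MeasureTheory Filter

open Pool.Agent.OmAll.ZSm

/-! ### tails -/

theorem ani_arctan {x : ℝ} (hx : 0 ≤ x) : Real.arctan x ≤ x := by
  have h := Real.le_tan (Real.arctan_nonneg.2 hx) (Real.arctan_lt_pi_div_two x)
  rwa [Real.tan_arctan] at h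

theorem ani_tail (K : ℝ) (hK : 0 < K) :
    ∫ u in {u : ℝ | K < |u|}, (1 + u ^ 2)⁻¹ ≤ 2 / K := by
  have h1 : {u : ℝ | K < |u|} = Set.Iio (-K) ∪ Set.Ioi K := by
    ext u
    simp only [Set.mem_setOf_eq, Set.mem_union, Set.mem_Iio, Set.mem_Ioi, lt_abs]
    constructor
    · rintro (h | h)
      · exact Or.inr h
      · exact Or.inl (by linarith)
    · rintro (h | h)
      · exact Or.inr (by linarith)
      · exact Or.inl h
  have h2 : Disjoint (Set.Iio (-K)) (Set.Ioi K) := by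
    rw [Set.disjoint_left]
    intro u hu hu'
    rw [Set.mem_Iio] at hu
    rw [Set.mem_Ioi] at hu'
    linarith
  rw [h1, setIntegral_union h2 measurableSet_Ioi integrable_inv_one_add_sq.integrableOn
    integrable_inv_one_add_sq.integrableOn, integral_Ioi_inv_one_add_sq, ← integral_Iic_eq_integral_Iio,
    integral_Iic_inv_one_add_sq, Real.arctan_neg]
  have h3 := Real.arctan_inv_of_pos hK
  have h4 := ani_arctan (inv_pos.2 hK).le
  have h5 : 2 / K = K⁻¹ + K⁻¹ := by ring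
  rw [h5]
  linarith

theorem ani_int {ψ : ℝ → ℂ} (hψ : Continuous ψ) {C : ℝ} (hC : ∀ t, ‖ψ t‖ ≤ C / (1 + t ^ 2)) :
    Integrable ψ := by
  refine Integrable.mono' (integrable_inv_one_add_sq.const_mul C) hψ.aestronglyMeasurable
    (Eventually.of_forall fun t => ?_)
  rw [← div_eq_mul_inv]
  exact hC t

theorem ani_C {ψ : ℝ → ℂ} {C : ℝ} (hC : ∀ t, ‖ψ t‖ ≤ C / (1 + t ^ 2)) : 0 ≤ C := by
  have h := (norm_nonneg _).trans (hC 0)
  simpa using h

/-- the part of a translate outside a window -/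
theorem ani_one {ψ : ℝ → ℂ} (hψ : Continuous ψ) {C : ℝ} (hC : ∀ t, ‖ψ t‖ ≤ C / (1 + t ^ 2))
    {s A K : ℝ} (hs : 0 ≤ s) (hK : 0 < K) (hA : 0 < A) :
    ∫ t in (Set.Icc (-(2 * A + K)) (2 * A + K))ᶜ, ‖ψ (t - 2 * s)‖ ≤ 2 * C / K + 4 * C * s / A := by
  have hC0 := ani_C hC
  have hψi := ani_int hψ hC
  have hsh : Integrable fun t => ‖ψ (t - 2 * s)‖ := (hψi.comp_sub_right (2 * s)).norm
  by_cases h : s ≤ A
  · have hm : MeasurableSet {u : ℝ | K < |u|} := measurableSet_lt measurable_const (by fun_prop)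
    obtain ⟨F, hF⟩ : ∃ F : ℝ → ℝ, F = Set.indicator {u : ℝ | K < |u|} (fun u => C * (1 + u ^ 2)⁻¹) :=
      ⟨_, rfl⟩
    have hFi : Integrable F := by
      rw [hF]
      exact (integrable_inv_one_add_sq.const_mul C).indicator hm
    have hF0 : ∀ u, 0 ≤ F u := by
      intro u
      rw [hF]
      apply Set.indicator_nonneg
      intro x _
      positivity
    have h1 : ∫ t in (Set.Icc (-(2 * A + K)) (2 * A + K))ᶜ, ‖ψ (t - 2 * s)‖ ≤
        ∫ t in (Set.Icc (-(2 * A + K)) (2 * A + K))ᶜ, F (t - 2 * s) := by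
      apply setIntegral_mono_on hsh.integrableOn (hFi.comp_sub_right (2 * s)).integrableOn
        measurableSet_Icc.compl
      intro t ht
      have h2 : K < |t - 2 * s| := by
        rw [Set.mem_compl_iff, Set.mem_Icc, not_and_or, not_le, not_le] at ht
        rw [lt_abs]
        rcases ht with ht | ht
        · right; linarith
        · left; linarith
      rw [hF, Set.indicator_of_mem (show t - 2 * s ∈ {u : ℝ | K < |u|} from h2), ← div_eq_mul_inv]
      exact hC _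
    have h2 : ∫ t in (Set.Icc (-(2 * A + K)) (2 * A + K))ᶜ, F (t - 2 * s) ≤ ∫ t, F (t - 2 * s) :=
      setIntegral_le_integral (hFi.comp_sub_right (2 * s)) (Eventually.of_forall fun t => hF0 _)
    have h3 : ∫ t, F (t - 2 * s) = ∫ t, F t := integral_sub_right_eq_self F (2 * s)
    have h4 : ∫ t, F t ≤ 2 * C / K := by
      rw [hF, integral_indicator hm, integral_const_mul]
      have := mul_le_mul_of_nonneg_left (ani_tail K hK) hC0
      calc _ ≤ C * (2 / K) := this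
        _ = 2 * C / K := by ring
    have h5 : 0 ≤ 4 * C * s / A := by positivity
    linarith
  · push Not at h
    have h1 : ∫ t in (Set.Icc (-(2 * A + K)) (2 * A + K))ᶜ, ‖ψ (t - 2 * s)‖ ≤ ∫ t, ‖ψ (t - 2 * s)‖ :=
      setIntegral_le_integral hsh (Eventually.of_forall fun t => norm_nonneg _)
    have h2 : ∫ t, ‖ψ (t - 2 * s)‖ = ∫ t, ‖ψ t‖ :=
      integral_sub_right_eq_self (fun t => ‖ψ t‖) (2 * s)
    have h3 : ∫ t, ‖ψ t‖ ≤ C * Real.pi := by
      rw [← integral_univ_inv_one_add_sq, ← integral_const_mul]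
      apply integral_mono hψi.norm (integrable_inv_one_add_sq.const_mul C)
      intro t
      simp only
      rw [← div_eq_mul_inv]
      exact hC t
    have h4 : C * Real.pi ≤ 4 * C := by nlinarith [Real.pi_le_four]
    have h5 : 4 * C ≤ 4 * C * s / A := by
      rw [le_div_iff₀ hA]
      nlinarith
    have h6 : 0 ≤ 2 * C / K := by positivity
    linarith

/-! ### product measures on subsets -/

theorem ani_prod (S : Finset ℕ) (x : ℕ → ℝ) (f : ℕ → ℝ) :
    ∑ D ∈ S.powerset, ((∏ p ∈ D, x p) * ∏ p ∈ S \ D, (1 - x p)) * ∑ p ∈ D, f p =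
      ∑ p ∈ S, x p * f p := by
  induction S using Finset.induction_on with
  | empty => simp
  | insert q S hq ih =>
    rw [Finset.sum_powerset_insert hq, Finset.sum_insert hq, ← ih]
    have h1 : ∀ D ∈ S.powerset, ((∏ p ∈ D, x p) * ∏ p ∈ insert q S \ D, (1 - x p)) * ∑ p ∈ D, f p =
        (1 - x q) * (((∏ p ∈ D, x p) * ∏ p ∈ S \ D, (1 - x p)) * ∑ p ∈ D, f p) := by
      intro D hD
      rw [Finset.mem_powerset] at hD
      have hqD : q ∉ D := fun h => hq (hD h)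
      rw [Finset.insert_sdiff_of_notMem _ hqD, Finset.prod_insert (by simp [hq])]
      ring
    have h2 : ∀ D ∈ S.powerset, ((∏ p ∈ insert q D, x p) * ∏ p ∈ insert q S \ insert q D, (1 - x p)) *
        ∑ p ∈ insert q D, f p =
        x q * (((∏ p ∈ D, x p) * ∏ p ∈ S \ D, (1 - x p)) * ∑ p ∈ D, f p) +
          x q * f q * ((∏ p ∈ D, x p) * ∏ p ∈ S \ D, (1 - x p)) := by
      intro D hD
      rw [Finset.mem_powerset] at hD
      have hqD : q ∉ D := fun h => hq (hD h)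
      have hsd : insert q S \ insert q D = S \ D := by
        ext a
        simp only [Finset.mem_sdiff, Finset.mem_insert]
        constructor
        · rintro ⟨h1, h2⟩
          push Not at h2
          exact ⟨h1.resolve_left h2.1, h2.2⟩
        · rintro ⟨k1, k2⟩
          refine ⟨Or.inr k1, ?_⟩
          rintro (rfl | h)
          · exact hq k1
          · exact k2 h
      rw [hsd, Finset.prod_insert hqD, Finset.sum_insert hqD]
      ring
    rw [Finset.sum_congr rfl h1, Finset.sum_congr rfl h2, Finset.sum_add_distrib, ← Finset.mul_sum,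
      ← Finset.mul_sum, ← Finset.mul_sum, ← Finset.prod_add]
    have h3 : ∏ p ∈ S, (x p + (1 - x p)) = 1 := Finset.prod_eq_one fun p _ => by ring
    rw [h3]
    ring

theorem mem_PE' {E : Finset ℕ} {T p : ℕ} (h : p ∈ PE E T) : p ∈ PT T := by
  rw [mem_PE] at h
  rw [mem_PT]
  exact ⟨h.1, h.2.1, h.2.2.1⟩

theorem ani_Ap {E : Finset ℕ} {T p : ℕ} (h : p ∈ PE E T) :
    0 < Ap p ∧ 2 * Ap p ≤ 4 / p ∧ 2 * Ap p ≤ 4 / 5 := by
  have h5 := PT_five (mem_PE' h)
  obtain ⟨h1, h2, -⟩ := Ap_bound p h5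
  refine ⟨h1, h2, h2.trans ?_⟩
  have : (5 : ℝ) ≤ p := by exact_mod_cast h5
  exact div_le_div_of_nonneg_left (by norm_num) (by norm_num) this

theorem ani_Pr (E : Finset ℕ) (T : ℕ) {D : Finset ℕ} (hD : D ⊆ PE E T) : 0 ≤ Pr E T D := by
  unfold Pr
  apply mul_nonneg
  · exact Finset.prod_nonneg fun p hp => (ani_Ap (hD hp)).1.le
  · apply Finset.prod_nonneg
    intro p hp
    have := (ani_Ap (Finset.sdiff_subset hp)).2.2
    linarith

theorem ani_pow (E : Finset ℕ) (T : ℕ) (y : ℝ) :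
    ∑ D ∈ (PE E T).powerset, Pr E T D * y ^ D.card = ∏ p ∈ PE E T, (1 + (y - 2) * Ap p) := by
  have h1 : ∏ p ∈ PE E T, (1 + (y - 2) * Ap p) = ∏ p ∈ PE E T, (y * Ap p + (1 - 2 * Ap p)) :=
    Finset.prod_congr rfl fun p _ => by ring
  rw [h1, Finset.prod_add]
  apply Finset.sum_congr rfl
  intro D _
  unfold Pr
  rw [Finset.prod_mul_distrib, Finset.prod_const]
  ring

theorem ani_two (E : Finset ℕ) (T : ℕ) :
    ∑ D ∈ (PE E T).powerset, Pr E T D * 2 ^ D.card = 1 := by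
  rw [ani_pow]
  apply Finset.prod_eq_one
  intro p _
  ring

theorem lg_nonneg (a : Finset ℕ) : 0 ≤ lg a :=
  Finset.sum_nonneg fun p _ => Real.log_natCast_nonneg p

theorem lg_mono {a D : Finset ℕ} (h : a ⊆ D) : lg a ≤ lg D :=
  Finset.sum_le_sum_of_subset_of_nonneg h fun p _ _ => Real.log_natCast_nonneg p

theorem ani_lg (E : Finset ℕ) (T : ℕ) :
    ∑ D ∈ (PE E T).powerset, Pr E T D * ∑ a ∈ D.powerset, lg a ≤ ∑ p ∈ PE E T, 2 * Ap p * Real.log p := by
  rw [← ani_prod (PE E T) (fun p => 2 * Ap p) (fun p => Real.log p)]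
  apply Finset.sum_le_sum
  intro D hD
  rw [Finset.mem_powerset] at hD
  have h1 : ∑ a ∈ D.powerset, lg a ≤ 2 ^ D.card * lg D := by
    calc ∑ a ∈ D.powerset, lg a ≤ ∑ a ∈ D.powerset, lg D :=
          Finset.sum_le_sum fun a ha => lg_mono (Finset.mem_powerset.1 ha)
      _ = _ := by rw [Finset.sum_const, Finset.card_powerset, nsmul_eq_mul]; push_cast; ring
  refine (mul_le_mul_of_nonneg_left h1 (ani_Pr E T hD)).trans (le_of_eq ?_)
  unfold Pr lg
  rw [Finset.prod_mul_distrib, Finset.prod_const]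
  ring

/-! ### cluster sums -/

theorem ani_cs_cont (g : ℕ → ℂ) {ψ : ℝ → ℂ} (hψ : Continuous ψ) (D : Finset ℕ) :
    Continuous (cs g ψ D) := by
  unfold cs
  fun_prop

theorem ani_cs_int (g : ℕ → ℂ) {ψ : ℝ → ℂ} (hψi : Integrable ψ) (D : Finset ℕ) :
    Integrable (cs g ψ D) := by
  unfold cs
  exact integrable_finset_sum _ fun a _ => (hψi.comp_sub_right (2 * lg a)).const_mul _

theorem ani_gnorm {E : Finset ℕ} {g : ℕ → ℂ}
    (hg1 : ∀ p : ℕ, p.Prime → p % 4 = 1 → p ∉ E → ‖g p‖ = 1) {T : ℕ} {a : Finset ℕ}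
    (ha : a ⊆ PE E T) : ‖∏ p ∈ a, g p‖ = 1 := by
  rw [norm_prod]
  apply Finset.prod_eq_one
  intro p hp
  have := mem_PE.1 (ha hp)
  exact hg1 p this.2.1 this.2.2.1 this.2.2.2

theorem ani_cs_le {E : Finset ℕ} {g : ℕ → ℂ}
    (hg1 : ∀ p : ℕ, p.Prime → p % 4 = 1 → p ∉ E → ‖g p‖ = 1) {T : ℕ} {D : Finset ℕ}
    (hD : D ⊆ PE E T) (ψ : ℝ → ℂ) (t : ℝ) :
    ‖cs g ψ D t‖ ≤ ∑ a ∈ D.powerset, ‖ψ (t - 2 * lg a)‖ := by
  unfold cs
  refine (norm_sum_le _ _).trans (Finset.sum_le_sum fun a ha => ?_)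
  rw [norm_mul, ani_gnorm hg1 ((Finset.mem_powerset.1 ha).trans hD), one_mul]

theorem ani_cs_sq (E : Finset ℕ) (g : ℕ → ℂ)
    (hg1 : ∀ p : ℕ, p.Prime → p % 4 = 1 → p ∉ E → ‖g p‖ = 1) (T : ℕ) (D : Finset ℕ)
    (hD : D ⊆ PE E T) {ψ : ℝ → ℂ} (hψ : Continuous ψ) {C : ℝ} (hC : ∀ t, ‖ψ t‖ ≤ C / (1 + t ^ 2)) :
    Integrable (fun t => ‖cs g ψ D t‖ ^ 2) := by
  have hC0 := ani_C hC
  have hb : ∀ t, ‖cs g ψ D t‖ ≤ ∑ a ∈ D.powerset, C := by
    intro t
    refine (ani_cs_le hg1 hD ψ t).trans (Finset.sum_le_sum fun a _ => (hC _).trans ?_)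
    apply div_le_self hC0
    nlinarith [sq_nonneg (t - 2 * lg a)]
  refine Integrable.mono' ((ani_cs_int g (ani_int hψ hC) D).norm.const_mul (∑ a ∈ D.powerset, C))
    ((ani_cs_cont g hψ D).norm.pow 2).aestronglyMeasurable (Eventually.of_forall fun t => ?_)
  rw [Real.norm_eq_abs, abs_of_nonneg (by positivity), sq]
  exact mul_le_mul_of_nonneg_right (hb t) (norm_nonneg _)

/-- the integral of one cluster sum -/
theorem ani_D (E : Finset ℕ) (g : ℕ → ℂ)
    (hg1 : ∀ p : ℕ, p.Prime → p % 4 = 1 → p ∉ E → ‖g p‖ = 1) (T : ℕ) (D : Finset ℕ)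
    (hD : D ⊆ PE E T) {ψ : ℝ → ℂ} (hψ : Continuous ψ) {C : ℝ} (hC : ∀ t, ‖ψ t‖ ≤ C / (1 + t ^ 2))
    {z A K l : ℝ} (hz : 0 < z) (hK : 0 < K) (hA : 0 < A) (hl : 0 < l) :
    ∫ t, ‖cs g ψ D t‖ ≤ l * (2 * A + K) * (1 / z) ^ D.card +
      1 / (2 * l) * (z ^ D.card * ∫ t, ‖cs g ψ D t‖ ^ 2) +
      (2 * C / K * 2 ^ D.card + 4 * C / A * ∑ a ∈ D.powerset, lg a) := by
  have hψi := ani_int hψ hC
  have hci := (ani_cs_int g hψi D).norm
  have hsq := ani_cs_sq E g hg1 T D hD hψ hC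
  rw [← integral_add_compl (measurableSet_Icc (a := -(2 * A + K)) (b := 2 * A + K)) hci]
  apply add_le_add
  · have hzc : 0 < z ^ D.card := by positivity
    have h1 : ∀ t, ‖cs g ψ D t‖ ≤ l / 2 * (1 / z) ^ D.card +
        1 / (2 * l) * (z ^ D.card * ‖cs g ψ D t‖ ^ 2) := by
      intro t
      obtain ⟨x, hx⟩ : ∃ x, x = ‖cs g ψ D t‖ := ⟨_, rfl⟩
      obtain ⟨y, hy⟩ : ∃ y, y = z ^ D.card := ⟨_, rfl⟩
      rw [← hx, ← hy, one_div_pow, ← hy]
      rw [← hy] at hzc
      have e : l / 2 * (1 / y) + 1 / (2 * l) * (y * x ^ 2) - x =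
          (l - y * x) ^ 2 / (2 * l * y) := by
        field_simp
        ring
      have : 0 ≤ (l - y * x) ^ 2 / (2 * l * y) := by positivity
      linarith
    have hint : Integrable (fun t => 1 / (2 * l) * (z ^ D.card * ‖cs g ψ D t‖ ^ 2)) :=
      (hsq.const_mul _).const_mul _
    calc ∫ t in Set.Icc (-(2 * A + K)) (2 * A + K), ‖cs g ψ D t‖
        ≤ ∫ t in Set.Icc (-(2 * A + K)) (2 * A + K), (l / 2 * (1 / z) ^ D.card +
            1 / (2 * l) * (z ^ D.card * ‖cs g ψ D t‖ ^ 2)) := by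
          apply setIntegral_mono hci.integrableOn _ h1
          exact (continuousOn_const.integrableOn_compact isCompact_Icc).add hint.integrableOn
      _ = (∫ t in Set.Icc (-(2 * A + K)) (2 * A + K), l / 2 * (1 / z) ^ D.card) +
            ∫ t in Set.Icc (-(2 * A + K)) (2 * A + K),
              1 / (2 * l) * (z ^ D.card * ‖cs g ψ D t‖ ^ 2) :=
          integral_add (continuousOn_const.integrableOn_compact isCompact_Icc) hint.integrableOn
      _ ≤ l * (2 * A + K) * (1 / z) ^ D.card +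
            1 / (2 * l) * (z ^ D.card * ∫ t, ‖cs g ψ D t‖ ^ 2) := by
          apply add_le_add
          · rw [setIntegral_const, Measure.real, Real.volume_Icc, smul_eq_mul,
              ENNReal.toReal_ofReal (by linarith)]
            apply le_of_eq
            ring
          · refine (setIntegral_le_integral hint (Eventually.of_forall fun t => ?_)).trans ?_
            · show 0 ≤ 1 / (2 * l) * (z ^ D.card * ‖cs g ψ D t‖ ^ 2)
              positivity
            · rw [integral_const_mul, integral_const_mul]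
  · calc ∫ t in (Set.Icc (-(2 * A + K)) (2 * A + K))ᶜ, ‖cs g ψ D t‖
        ≤ ∫ t in (Set.Icc (-(2 * A + K)) (2 * A + K))ᶜ, ∑ a ∈ D.powerset, ‖ψ (t - 2 * lg a)‖ := by
          apply setIntegral_mono hci.integrableOn _ (ani_cs_le hg1 hD ψ)
          exact (integrable_finset_sum _ fun a _ =>
            (hψi.comp_sub_right (2 * lg a)).norm).integrableOn
      _ = ∑ a ∈ D.powerset, ∫ t in (Set.Icc (-(2 * A + K)) (2 * A + K))ᶜ, ‖ψ (t - 2 * lg a)‖ :=
          integral_finset_sum _ fun a _ => (hψi.comp_sub_right (2 * lg a)).norm.integrableOn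
      _ ≤ ∑ a ∈ D.powerset, (2 * C / K + 4 * C * lg a / A) :=
          Finset.sum_le_sum fun a _ => ani_one hψ hC (lg_nonneg a) hK hA
      _ = _ := by
          rw [Finset.sum_add_distrib, Finset.sum_const, Finset.card_powerset, nsmul_eq_mul,
            Finset.mul_sum]
          push_cast
          congr 1
          · ring
          · exact Finset.sum_congr rfl fun a _ => by ring

/-- the density of the subsets with weight `z^(-#D)` -/
theorem ani_S1 (E : Finset ℕ) (z : ℝ) (hz : 1 / 2 < z) (hz1 : z < 1) :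
    ∃ C4 : ℝ, 0 < C4 ∧ ∀ T : ℕ, 3 ≤ T →
      ∑ D ∈ (PE E T).powerset, Pr E T D * (1 / z) ^ D.card ≤ C4 * (Real.log T) ^ (1 / z - 2) := by
  obtain ⟨C, hC⟩ := mu_bound
  have hz2 : 1 / z - 2 < 0 := by
    have : 1 / z < 2 := by
      rw [div_lt_iff₀ (by linarith)]
      linarith
    linarith
  refine ⟨Real.exp ((2 - 1 / z) * (C / 2 + E.card)), Real.exp_pos _, fun T hT => ?_⟩
  have hL := one_le_logT hT
  rw [ani_pow]
  have h1 : ∏ p ∈ PE E T, (1 + (1 / z - 2) * Ap p) ≤ Real.exp ((1 / z - 2) * ∑ p ∈ PE E T, Ap p) := by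
    rw [Finset.mul_sum, Real.exp_sum]
    apply Finset.prod_le_prod
    · intro p hp
      have h2 := ani_Ap hp
      have h3 : 0 < 1 / z := by positivity
      nlinarith [mul_pos h3 h2.1]
    · intro p _
      have := Real.add_one_le_exp ((1 / z - 2) * Ap p)
      linarith
  refine h1.trans ?_
  -- lower bound for the sum of `Ap`
  have h2 : Real.log (Real.log T) - (C / 2 + E.card) ≤ ∑ p ∈ PE E T, Ap p := by
    have h3 := (abs_le.1 (hC T hT)).1
    have h4 : muT T = 2 * ∑ p ∈ PT T, Ap p := by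
      unfold muT
      rw [Finset.mul_sum]
    have h5 : ∑ p ∈ PT T, Ap p = ∑ p ∈ PE E T, Ap p + ∑ p ∈ PT T ∩ E, Ap p := by
      unfold PE
      rw [← Finset.sum_sdiff (Finset.inter_subset_left (s₁ := PT T) (s₂ := E))]
      congr 1
      apply Finset.sum_congr _ fun _ _ => rfl
      ext a
      simp only [Finset.mem_sdiff, Finset.mem_inter]
      tauto
    have h6 : ∑ p ∈ PT T ∩ E, Ap p ≤ E.card := by
      calc ∑ p ∈ PT T ∩ E, Ap p ≤ ∑ p ∈ PT T ∩ E, 1 := by
            apply Finset.sum_le_sum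
            intro p hp
            rw [Finset.mem_inter] at hp
            have h7 := PT_five hp.1
            obtain ⟨-, h8, -⟩ := Ap_bound p h7
            have h9 : (5 : ℝ) ≤ p := by exact_mod_cast h7
            have h10 : 4 / (p : ℝ) ≤ 4 / 5 :=
              div_le_div_of_nonneg_left (by norm_num) (by norm_num) h9
            linarith
        _ = ((PT T ∩ E).card : ℝ) := by simp
        _ ≤ E.card := by exact_mod_cast Finset.card_le_card Finset.inter_subset_right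
    linarith
  have h3 : (Real.log T) ^ (1 / z - 2) = Real.exp ((1 / z - 2) * Real.log (Real.log T)) := by
    rw [Real.rpow_def_of_pos (by linarith), mul_comm]
  rw [h3, ← Real.exp_add]
  apply Real.exp_le_exp.2
  nlinarith [mul_le_mul_of_nonpos_left h2 hz2.le]

theorem ani_S3 (E : Finset ℕ) : ∃ C1 : ℝ, 0 ≤ C1 ∧ ∀ T : ℕ, 3 ≤ T →
    ∑ p ∈ PE E T, 2 * Ap p * Real.log p ≤ 2 * Real.log T + C1 := by
  obtain ⟨C, hC⟩ := Pool.Agent.GaussMR.mertens_log
  have hC0 : 0 ≤ C := (abs_nonneg _).trans (hC 2 le_rfl)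
  refine ⟨4 * C, by positivity, fun T hT => ?_⟩
  have h1 : ∑ p ∈ PT T, Real.log p / p ≤ Real.log T / 2 + C := by
    have := (abs_le.1 (hC (T : ℝ) (by exact_mod_cast (by omega : 2 ≤ T)))).2
    rw [← PT_eq] at this
    linarith
  calc ∑ p ∈ PE E T, 2 * Ap p * Real.log p ≤ ∑ p ∈ PE E T, 4 * (Real.log p / p) := by
        apply Finset.sum_le_sum
        intro p hp
        have h2 := (ani_Ap hp).2.1
        have h3 := mul_le_mul_of_nonneg_right h2 (Real.log_natCast_nonneg p)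
        calc _ ≤ 4 / (p : ℝ) * Real.log p := h3
          _ = _ := by ring
    _ ≤ ∑ p ∈ PT T, 4 * (Real.log p / p) := by
        apply Finset.sum_le_sum_of_subset_of_nonneg
        · intro p hp
          exact mem_PE' hp
        · intro p _ _
          have := Real.log_natCast_nonneg p
          positivity
    _ = 4 * ∑ p ∈ PT T, Real.log p / p := by rw [Finset.mul_sum]
    _ ≤ _ := by linarith

theorem ani_total (E : Finset ℕ) (g : ℕ → ℂ)
    (hg1 : ∀ p : ℕ, p.Prime → p % 4 = 1 → p ∉ E → ‖g p‖ = 1) (T : ℕ) {ψ : ℝ → ℂ}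
    (hψ : Continuous ψ) {C : ℝ} (hC : ∀ t, ‖ψ t‖ ≤ C / (1 + t ^ 2))
    {z A K l : ℝ} (hz : 0 < z) (hK : 0 < K) (hA : 0 < A) (hl : 0 < l) :
    IT E g T ψ ≤ l * (2 * A + K) * (∑ D ∈ (PE E T).powerset, Pr E T D * (1 / z) ^ D.card) +
      1 / (2 * l) * (∑ D ∈ (PE E T).powerset, Pr E T D * z ^ D.card * ∫ t, ‖cs g ψ D t‖ ^ 2) +
      (2 * C / K + 4 * C / A * ∑ p ∈ PE E T, 2 * Ap p * Real.log p) := by
  have hC0 := ani_C hC
  have h1 : IT E g T ψ ≤ ∑ D ∈ (PE E T).powerset, Pr E T D * (l * (2 * A + K) * (1 / z) ^ D.card +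
      1 / (2 * l) * (z ^ D.card * ∫ t, ‖cs g ψ D t‖ ^ 2) +
      (2 * C / K * 2 ^ D.card + 4 * C / A * ∑ a ∈ D.powerset, lg a)) := by
    unfold IT
    apply Finset.sum_le_sum
    intro D hD
    rw [Finset.mem_powerset] at hD
    exact mul_le_mul_of_nonneg_left (ani_D E g hg1 T D hD hψ hC hz hK hA hl) (ani_Pr E T hD)
  refine h1.trans ?_
  have h2 : ∑ D ∈ (PE E T).powerset, Pr E T D * (l * (2 * A + K) * (1 / z) ^ D.card +
      1 / (2 * l) * (z ^ D.card * ∫ t, ‖cs g ψ D t‖ ^ 2) +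
      (2 * C / K * 2 ^ D.card + 4 * C / A * ∑ a ∈ D.powerset, lg a)) =
      l * (2 * A + K) * (∑ D ∈ (PE E T).powerset, Pr E T D * (1 / z) ^ D.card) +
      1 / (2 * l) * (∑ D ∈ (PE E T).powerset, Pr E T D * z ^ D.card * ∫ t, ‖cs g ψ D t‖ ^ 2) +
      (2 * C / K * (∑ D ∈ (PE E T).powerset, Pr E T D * 2 ^ D.card) +
        4 * C / A * ∑ D ∈ (PE E T).powerset, Pr E T D * ∑ a ∈ D.powerset, lg a) := by
    rw [Finset.mul_sum, Finset.mul_sum, Finset.mul_sum, Finset.mul_sum, ← Finset.sum_add_distrib,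
      ← Finset.sum_add_distrib, ← Finset.sum_add_distrib]
    apply Finset.sum_congr rfl
    intro D _
    ring
  rw [h2, ani_two]
  have h3 := mul_le_mul_of_nonneg_left (ani_lg E T) (by positivity : 0 ≤ 4 * C / A)
  linarith

/-- PROOF. All `Pr E T D ≥ 0` (`0 ≤ 2 Ap p ≤ 4/5`). Let `K ≥ 1`, `A = K log T`, `A1 = K`, window `𝒲 = [-(2 A + A1), 2 A + A1]` (`A ≥ K`, so its length is at most `6 A`).
(i) Outside `𝒲`: `∫_(t ∉ 𝒲) ‖cs g ψ D t‖ ≤ ∑_(a ⊆ D) ∫_(t ∉ 𝒲) ‖ψ (t - 2 lg a)‖`; if `lg a ≤ A` the argument has absolute value `≥ A1`, so the integral is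
`≤ ∫_(|u| ≥ A1) C/(1+u^2) ≤ 2 C/A1`; otherwise it is `≤ ∫ ‖ψ‖ ≤ 4 C ≤ 4 C lg a / A`. Sum with `Pr`: `∑_D Pr D 2^(#D) = ∏ (1 - 2 Ap + 2 Ap) = 1`
(`Finset.prod_add` over `PE E T`), and `∑_D Pr D ∑_(a ⊆ D) lg a = ∑_p Ap p log p ≤ ∑_(p ≤ T) 2 log p / p ≤ C'' log T` (write `lg a = ∑_(p ∈ a) log p` and exchange: for
fixed `p` the sum over `D ∋ p`, `a ∋ p` is `Ap p ∏_(q ≠ p) (1 - 2 Ap q + 2 Ap q)`; Mertens bound in `Lib_MP_f1a94e_mr/MertensA.lean` or
by dyadic blocks from Chebyshev; any bound `∑_(p ∈ PT T) log p / p ≤ C'' log T` will do, e.g. `Ap p ≤ 2/p` and `∑_(m ≤ T) Λ(m)/m ≤ log T + C`). Total `≤ C'''/K`.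
(ii) Inside: Cauchy-Schwarz for sum and integral:
`∑_D Pr D ∫_𝒲 ‖cs‖ ≤ (∑_D Pr D z^(-#D) |𝒲|)^(1/2) (∑_D Pr D z^(#D) ∫ ‖cs‖^2)^(1/2)`, `∑_D Pr D z^(-#D) = ∏ (1 - 2 Ap + Ap / z) ≤ exp ((1/z - 2) ∑ Ap p)`
and `∑_(PE) Ap p = muT T / 2 - O(1) = log log T + O(1)` (`mu_bound`; `1/z - 2 < 0`), so the first factor is `≤ (6 K log T * C4 (log T)^(1/z - 2))^(1/2)`; the second one
`≤ (C' (log T)^(2 (z-1)))^(1/2)`. The exponent is `(1/z + 2 z - 3)/2 < 0` as `(2 z - 1)(z - 1) < 0`: for fixed `K` it tends to `0`. -/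
theorem anI (E : Finset ℕ) (g : ℕ → ℂ) (hg1 : ∀ p : ℕ, p.Prime → p % 4 = 1 → p ∉ E → ‖g p‖ = 1)
    (z : ℝ) (hz : 1 / 2 < z) (hz1 : z < 1) (ψ : ℝ → ℂ) (hψ : Continuous ψ) (C : ℝ) (hC : ∀ t, ‖ψ t‖ ≤ C / (1 + t ^ 2))
    (C' : ℝ) (hL2 : ∀ T : ℕ, 3 ≤ T → ∑ D ∈ (PE E T).powerset, Pr E T D * z ^ D.card * ∫ t, ‖cs g ψ D t‖ ^ 2 ≤
      C' * (Real.log T) ^ (2 * (z - 1))) :
    Tendsto (fun T : ℕ => IT E g T ψ) atTop (nhds 0) := by
  have hz0 : 0 < z := by linarith
  have hC0 := ani_C hC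
  obtain ⟨C4, hC4, hS1⟩ := ani_S1 E z hz hz1
  obtain ⟨C1, hC1, hS3⟩ := ani_S3 E
  -- the exponent
  have hexp : 1 / z - 1 < 2 * (1 - z) := by
    rw [sub_lt_iff_lt_add, div_lt_iff₀ hz0]
    nlinarith
  obtain ⟨m, hm1, hm2⟩ := exists_between hexp
  have hlogT : Tendsto (fun T : ℕ => Real.log (T : ℝ)) atTop atTop :=
    Real.tendsto_log_atTop.comp tendsto_natCast_atTop_atTop
  have hl1 : Tendsto (fun T : ℕ => (Real.log (T : ℝ)) ^ (1 / z - 1 - m)) atTop (nhds 0) := by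
    have h1 := (tendsto_rpow_neg_atTop (y := m - (1 / z - 1)) (by linarith)).comp hlogT
    refine h1.congr fun T => ?_
    simp only [Function.comp]
    congr 1
    ring
  have hl2 : Tendsto (fun T : ℕ => (Real.log (T : ℝ)) ^ (m + 2 * (z - 1))) atTop (nhds 0) := by
    have h1 := (tendsto_rpow_neg_atTop (y := 2 * (1 - z) - m) (by linarith)).comp hlogT
    refine h1.congr fun T => ?_
    simp only [Function.comp]
    congr 1
    ring
  -- the bound for fixed `K`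
  have hbound : ∀ K : ℝ, 1 ≤ K → ∀ T : ℕ, 3 ≤ T → IT E g T ψ ≤
      3 * K * C4 * (Real.log (T : ℝ)) ^ (1 / z - 1 - m) +
      C' / 2 * (Real.log (T : ℝ)) ^ (m + 2 * (z - 1)) + (10 * C + 4 * C * C1) / K := by
    intro K hK T hT
    have hL := one_le_logT hT
    have hL0 : 0 < Real.log (T : ℝ) := by linarith
    obtain ⟨L, hLdef⟩ : ∃ L : ℝ, L = Real.log (T : ℝ) := ⟨_, rfl⟩
    have hK0 : 0 < K := by linarith
    have h1 := ani_total E g hg1 T hψ hC (z := z) (A := K * Real.log T) (K := K)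
      (l := (Real.log (T : ℝ)) ^ (-m)) hz0 hK0 (by positivity) (by positivity)
    have h2 := hS1 T hT
    have h3 := hS3 T hT
    have h4 := hL2 T hT
    rw [← hLdef] at h1 h2 h3 h4 hL hL0 ⊢
    refine h1.trans ?_
    apply add_le_add
    · apply add_le_add
      · have h5 : 0 ≤ L ^ (-m) * (2 * (K * L) + K) := by positivity
        refine (mul_le_mul_of_nonneg_left h2 h5).trans ?_
        have h6 : L ^ (-m) * (2 * (K * L) + K) ≤ L ^ (-m) * (3 * K * L) := by
          apply mul_le_mul_of_nonneg_left _ (by positivity)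
          nlinarith
        refine (mul_le_mul_of_nonneg_right h6 (by positivity)).trans (le_of_eq ?_)
        have h7 : L ^ (1 / z - 1 - m) = L ^ (-m) * L * L ^ (1 / z - 2) := by
          rw [← Real.rpow_add_one hL0.ne', ← Real.rpow_add hL0]
          congr 1
          ring
        rw [h7]
        ring
      · have h5 : 0 ≤ 1 / (2 * L ^ (-m)) := by positivity
        refine (mul_le_mul_of_nonneg_left h4 h5).trans (le_of_eq ?_)
        have h7 : L ^ (m + 2 * (z - 1)) = (L ^ (-m))⁻¹ * L ^ (2 * (z - 1)) := by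
          rw [Real.rpow_neg hL0.le, inv_inv, ← Real.rpow_add hL0]
        rw [h7]
        field_simp
    · have h5 : 4 * C / (K * L) * ∑ p ∈ PE E T, 2 * Ap p * Real.log p ≤
          4 * C / (K * L) * (2 * L + C1) :=
        mul_le_mul_of_nonneg_left h3 (by positivity)
      have h6 : 4 * C / (K * L) * (2 * L + C1) ≤ (8 * C + 4 * C * C1) / K := by
        rw [div_mul_eq_mul_div, div_le_div_iff₀ (by positivity) hK0]
        have h8 : 4 * C * C1 * K ≤ 4 * C * C1 * K * L := by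
          apply le_mul_of_one_le_right (by positivity) hL
        nlinarith
      have h7 : (10 * C + 4 * C * C1) / K = 2 * C / K + (8 * C + 4 * C * C1) / K := by ring
      linarith
  -- conclusion
  have hIT0 : ∀ T, 0 ≤ IT E g T ψ := by
    intro T
    unfold IT
    apply Finset.sum_nonneg
    intro D hD
    rw [Finset.mem_powerset] at hD
    exact mul_nonneg (ani_Pr E T hD) (integral_nonneg fun t => norm_nonneg _)
  rw [Metric.tendsto_atTop]
  intro ε hε
  obtain ⟨K, hK⟩ := exists_nat_gt (max 1 ((10 * C + 4 * C * C1) / (ε / 2)))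
  have hK1 : (1 : ℝ) < K := (le_max_left _ _).trans_lt hK
  have hK2 : (10 * C + 4 * C * C1) / (ε / 2) < K := (le_max_right _ _).trans_lt hK
  have hK3 : (10 * C + 4 * C * C1) / K < ε / 2 := by
    rw [div_lt_iff₀ (by positivity)] at hK2
    rw [div_lt_iff₀ (by linarith)]
    linarith
  have hlim : Tendsto (fun T : ℕ => 3 * K * C4 * (Real.log (T : ℝ)) ^ (1 / z - 1 - m) +
      C' / 2 * (Real.log (T : ℝ)) ^ (m + 2 * (z - 1))) atTop (nhds 0) := by
    have := (hl1.const_mul (3 * K * C4)).add (hl2.const_mul (C' / 2))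
    simpa using this
  obtain ⟨N, hN⟩ := ((hlim.eventually (gt_mem_nhds (show (0:ℝ) < ε / 2 by linarith))).and
    (eventually_ge_atTop 3)).exists_forall_of_atTop
  refine ⟨N, fun T hT => ?_⟩
  obtain ⟨h1, h2⟩ := hN T hT
  have h3 := hbound K hK1.le T h2
  rw [Real.dist_eq, sub_zero, abs_of_nonneg (hIT0 T)]
  linarith

end Pool.Agent.OmEq

end

/-! ### from `Lib_MP_f1a94e_eq.An` -/

section

/-!
# Piece AN: the limit quantity tends to zero
-/

set_option autoImplicit false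

namespace Pool.Agent.OmEq

open Finset Pool.Agent.OmAll MeasureTheory Filter

namespace AnP

theorem Pr_nonneg (E : Finset ℕ) (T : ℕ) (D : Finset ℕ) (hD : D ⊆ PE E T) : 0 ≤ Pr E T D := by
  have h : ∀ p ∈ PE E T, 0 < Ap p ∧ 2 * Ap p ≤ 4 / 5 := by
    intro p hp
    rw [mem_PE] at hp
    have hp5 : 5 ≤ p := by
      have := hp.2.1.two_le
      omega
    obtain ⟨h1, h2, -⟩ := Ap_bound p hp5
    refine ⟨h1, h2.trans ?_⟩
    have : (5 : ℝ) ≤ p := by exact_mod_cast hp5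
    exact div_le_div_of_nonneg_left (by norm_num) (by norm_num) this
  unfold Pr
  apply mul_nonneg
  · exact prod_nonneg fun p hp => (h p (hD hp)).1.le
  · refine prod_nonneg fun p hp => ?_
    have := (h p (mem_sdiff.mp hp).1).2
    linarith

/-- `∑_D Pr D ∏_(p ∈ D) x_p = ∏ (Ap p x_p + 1 - 2 Ap p)` -/
theorem sum_Pr (E : Finset ℕ) (T : ℕ) (x : ℕ → ℝ) :
    ∑ D ∈ (PE E T).powerset, Pr E T D * ∏ p ∈ D, x p =
      ∏ p ∈ PE E T, (Ap p * x p + (1 - 2 * Ap p)) := by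
  rw [prod_add]
  refine sum_congr rfl fun D _ => ?_
  unfold Pr
  rw [prod_mul_distrib]
  ring

theorem sum_Pr_two (E : Finset ℕ) (T : ℕ) :
    ∑ D ∈ (PE E T).powerset, Pr E T D * (2 : ℝ) ^ D.card = 1 := by
  have h := sum_Pr E T (fun _ => 2)
  simp only [prod_const] at h
  rw [h]
  refine prod_eq_one fun p _ => ?_
  ring

theorem norm_coef {E : Finset ℕ} {g : ℕ → ℂ}
    (hg1 : ∀ p : ℕ, p.Prime → p % 4 = 1 → p ∉ E → ‖g p‖ = 1) {T : ℕ} {D a : Finset ℕ}
    (hD : D ⊆ PE E T) (ha : a ⊆ D) : ‖∏ p ∈ a, g p‖ = 1 := by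
  rw [norm_prod]
  refine prod_eq_one fun p hp => ?_
  have := mem_PE.mp (hD (ha hp))
  exact hg1 p this.2.1 this.2.2.1 this.2.2.2

theorem cs_int (g : ℕ → ℂ) (w : ℝ → ℂ) (hw : Integrable w) (D : Finset ℕ) :
    Integrable (fun t => cs g w D t) := by
  unfold cs
  refine integrable_finsetSum _ fun a _ => ?_
  exact (hw.comp_sub_right (2 * lg a)).const_mul _

theorem cs_le {E : Finset ℕ} {g : ℕ → ℂ}
    (hg1 : ∀ p : ℕ, p.Prime → p % 4 = 1 → p ∉ E → ‖g p‖ = 1) {T : ℕ} {D : Finset ℕ}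
    (hD : D ⊆ PE E T) (w : ℝ → ℂ) (hw : Integrable w) :
    ∫ t, ‖cs g w D t‖ ≤ (2 : ℝ) ^ D.card * ∫ t, ‖w t‖ := by
  have hi : ∀ a : Finset ℕ, Integrable (fun t => ‖w (t - 2 * lg a)‖) := fun a =>
    (hw.comp_sub_right (2 * lg a)).norm
  calc ∫ t, ‖cs g w D t‖ ≤ ∫ t, ∑ a ∈ D.powerset, ‖w (t - 2 * lg a)‖ := by
        apply integral_mono (cs_int g w hw D).norm (integrable_finsetSum _ fun a _ => hi a)
        intro t
        refine (norm_sum_le _ _).trans (sum_le_sum fun a ha => ?_)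
        rw [norm_mul, norm_coef hg1 hD (mem_powerset.mp ha), one_mul]
    _ = ∑ a ∈ D.powerset, ∫ t, ‖w (t - 2 * lg a)‖ := integral_finsetSum _ fun a _ => hi a
    _ = ∑ _a ∈ D.powerset, ∫ t, ‖w t‖ := by
        refine sum_congr rfl fun a _ => ?_
        exact integral_sub_right_eq_self (fun t => ‖w t‖) (2 * lg a)
    _ = (2 : ℝ) ^ D.card * ∫ t, ‖w t‖ := by
        rw [sum_const, card_powerset, nsmul_eq_mul]
        push_cast
        ring

theorem cs_sub (g : ℕ → ℂ) (w v : ℝ → ℂ) (D : Finset ℕ) (t : ℝ) :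
    cs g w D t = cs g v D t + cs g (fun u => w u - v u) D t := by
  unfold cs
  rw [← sum_add_distrib]
  refine sum_congr rfl fun a _ => ?_
  ring

theorem IT_nonneg (E : Finset ℕ) (g : ℕ → ℂ) (T : ℕ) (w : ℝ → ℂ) : 0 ≤ IT E g T w := by
  unfold IT
  refine sum_nonneg fun D hD => ?_
  exact mul_nonneg (Pr_nonneg E T D (mem_powerset.mp hD)) (integral_nonneg fun t => norm_nonneg _)

theorem IT_add (E : Finset ℕ) (g : ℕ → ℂ) (T : ℕ) (w v : ℝ → ℂ) (hw : Integrable w)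
    (hv : Integrable v) : IT E g T w ≤ IT E g T v + IT E g T (fun u => w u - v u) := by
  unfold IT
  rw [← sum_add_distrib]
  refine sum_le_sum fun D hD => ?_
  rw [← mul_add]
  refine mul_le_mul_of_nonneg_left ?_ (Pr_nonneg E T D (mem_powerset.mp hD))
  have hs : Integrable (fun t => cs g (fun u => w u - v u) D t) := cs_int g _ (hw.sub hv) D
  rw [← integral_add (cs_int g v hv D).norm hs.norm]
  apply integral_mono (cs_int g w hw D).norm ((cs_int g v hv D).norm.add hs.norm)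
  intro t
  simp only
  rw [cs_sub g w v D t]
  exact norm_add_le _ _

/-- the square of the norm of `1 + u` for `‖u‖ = 1` -/
theorem norm_one_add_sq {u : ℂ} (hu : ‖u‖ = 1) : ‖1 + u‖ ^ 2 = 2 + 2 * u.re := by
  have h1 : u.re * u.re + u.im * u.im = 1 := by
    have := Complex.normSq_eq_norm_sq u
    rw [hu, Complex.normSq_apply] at this
    linarith
  rw [← Complex.normSq_eq_norm_sq, Complex.normSq_apply]
  simp only [Complex.add_re, Complex.one_re, Complex.add_im, Complex.one_im, zero_add]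
  nlinarith

theorem norm_exp_I (x : ℝ) : ‖Complex.exp (-(x : ℝ) * Complex.I)‖ = 1 := by
  have : (-(x : ℝ) * Complex.I : ℂ) = ((-x : ℝ) : ℂ) * Complex.I := by push_cast; ring
  rw [this, Complex.norm_exp_ofReal_mul_I]

/-- the L2 hypothesis of `anI` -/
theorem hL2 (E : Finset ℕ) (g : ℕ → ℂ) (hg1 : ∀ p : ℕ, p.Prime → p % 4 = 1 → p ∉ E → ‖g p‖ = 1)
    (z : ℝ) (B : ℝ) (φ ψ : ℝ → ℂ) (hφ : Continuous φ) (hB : ∀ τ, B ≤ |τ| → φ τ = 0)
    (hψ : ∀ t, ψ t = ∫ τ, φ τ * Complex.exp ((τ * t : ℝ) * Complex.I)) (hψc : Continuous ψ) (C : ℝ)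
    (hC : ∀ t, ‖ψ t‖ ≤ C / (1 + t ^ 2)) (T : ℕ) :
    ∑ D ∈ (PE E T).powerset, Pr E T D * z ^ D.card * ∫ t, ‖cs g ψ D t‖ ^ 2 =
      2 * Real.pi * ∫ τ, ‖φ τ‖ ^ 2 * ∏ p ∈ PE E T,
        (1 + 2 * Ap p * (z - 1 + z * (g p * Complex.exp (-(2 * τ * Real.log p : ℝ) * Complex.I)).re)) := by
  have hint : ∀ D : Finset ℕ, Integrable (fun τ : ℝ => ‖φ τ‖ ^ 2 *
      ∏ p ∈ D, ‖1 + g p * Complex.exp (-(2 * τ * Real.log p : ℝ) * Complex.I)‖ ^ 2) := by
    intro D
    apply Continuous.integrable_of_hasCompactSupport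
    · apply Continuous.mul (by fun_prop)
      apply continuous_finsetProd
      intro p _
      fun_prop
    · apply HasCompactSupport.intro (isCompact_Icc : IsCompact (Set.Icc (-B) B))
      intro τ hτ
      have : B ≤ |τ| := by
        by_contra hc
        push Not at hc
        rw [abs_lt] at hc
        exact hτ ⟨hc.1.le, hc.2.le⟩
      rw [hB τ this]
      simp
  calc ∑ D ∈ (PE E T).powerset, Pr E T D * z ^ D.card * ∫ t, ‖cs g ψ D t‖ ^ 2
      = ∑ D ∈ (PE E T).powerset, ∫ τ, (2 * Real.pi) * ((Pr E T D * z ^ D.card) * (‖φ τ‖ ^ 2 *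
        ∏ p ∈ D, ‖1 + g p * Complex.exp (-(2 * τ * Real.log p : ℝ) * Complex.I)‖ ^ 2)) := by
        refine sum_congr rfl fun D _ => ?_
        rw [plan B φ ψ hφ hB hψ hψc C hC g D, integral_const_mul, integral_const_mul]
        ring
    _ = ∫ τ, ∑ D ∈ (PE E T).powerset, (2 * Real.pi) * ((Pr E T D * z ^ D.card) * (‖φ τ‖ ^ 2 *
        ∏ p ∈ D, ‖1 + g p * Complex.exp (-(2 * τ * Real.log p : ℝ) * Complex.I)‖ ^ 2)) := by
        rw [integral_finsetSum]
        intro D _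
        exact ((hint D).const_mul _).const_mul _
    _ = ∫ τ, (2 * Real.pi) * (‖φ τ‖ ^ 2 * ∏ p ∈ PE E T,
        (1 + 2 * Ap p * (z - 1 + z * (g p * Complex.exp (-(2 * τ * Real.log p : ℝ) *
          Complex.I)).re))) := by
        congr 1
        funext τ
        rw [← mul_sum]
        congr 1
        have h1 : ∑ D ∈ (PE E T).powerset, (Pr E T D * z ^ D.card) * (‖φ τ‖ ^ 2 *
            ∏ p ∈ D, ‖1 + g p * Complex.exp (-(2 * τ * Real.log p : ℝ) * Complex.I)‖ ^ 2) =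
            ‖φ τ‖ ^ 2 * ∑ D ∈ (PE E T).powerset, Pr E T D * ∏ p ∈ D,
              (z * ‖1 + g p * Complex.exp (-(2 * τ * Real.log p : ℝ) * Complex.I)‖ ^ 2) := by
          rw [mul_sum]
          refine sum_congr rfl fun D _ => ?_
          rw [prod_mul_distrib, prod_const]
          ring
        rw [h1, sum_Pr]
        congr 1
        refine prod_congr rfl fun p hp => ?_
        have hp' := mem_PE.mp hp
        have hn : ‖g p * Complex.exp (-(2 * τ * Real.log p : ℝ) * Complex.I)‖ = 1 := by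
          rw [norm_mul, hg1 p hp'.2.1 hp'.2.2.1 hp'.2.2.2, norm_exp_I, one_mul]
        rw [norm_one_add_sq hn]
        ring
    _ = _ := by rw [integral_const_mul]

theorem psi_int {ψ : ℝ → ℂ} (hψ : Continuous ψ) {C : ℝ} (hC : ∀ t, ‖ψ t‖ ≤ C / (1 + t ^ 2)) :
    Integrable ψ := by
  have h1 : Integrable (fun t : ℝ => C * (1 + t ^ 2)⁻¹) := integrable_inv_one_add_sq.const_mul C
  refine h1.mono' hψ.aestronglyMeasurable (Eventually.of_forall fun t => ?_)
  rw [← div_eq_mul_inv]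
  exact hC t

end AnP

open AnP

/-- `IT E g T w ≤ ∫ ‖w‖`: `∫ ‖cs g w D‖ ≤ 2^(#D) ∫ ‖w‖` (translations, `‖g p‖ = 1` for `p ∈ PE E T`) and `∑_D Pr D 2^(#D) = ∏ (1 - 2 Ap + 2 Ap) = 1`. -/
theorem IT_le (E : Finset ℕ) (g : ℕ → ℂ) (hg1 : ∀ p : ℕ, p.Prime → p % 4 = 1 → p ∉ E → ‖g p‖ = 1) (T : ℕ)
    (w : ℝ → ℂ) (hw : Integrable w) : IT E g T w ≤ ∫ t, ‖w t‖ := by
  unfold IT
  calc ∑ D ∈ (PE E T).powerset, Pr E T D * ∫ t, ‖cs g w D t‖
      ≤ ∑ D ∈ (PE E T).powerset, Pr E T D * ((2 : ℝ) ^ D.card * ∫ t, ‖w t‖) := by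
        refine sum_le_sum fun D hD => ?_
        exact mul_le_mul_of_nonneg_left (cs_le hg1 (mem_powerset.mp hD) w hw)
          (Pr_nonneg E T D (mem_powerset.mp hD))
    _ = (∑ D ∈ (PE E T).powerset, Pr E T D * (2 : ℝ) ^ D.card) * ∫ t, ‖w t‖ := by
        rw [sum_mul]
        refine sum_congr rfl fun D _ => ?_
        ring
    _ = ∫ t, ‖w t‖ := by rw [sum_Pr_two, one_mul]

/-- PROOF. Choose `z` with `1/2 < z < 1` and `2 z R < 1` if `R < 1` (`z = 3/4` if `R ≤ 1/2`, otherwise between `1/2` and `1/(2R)`). Given `ε`, `mol` gives `φ, ψ`.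
`plan` and `∑_(D ⊆ PE) Pr D z^(#D) ∏_(p ∈ D) x_p = ∏_(p ∈ PE) (1 - 2 Ap p + Ap p z x_p)` (`Finset.prod_add`) with `x_p = ‖1 + g p exp(..)‖^2 = 2 + 2 Re (g p exp ..)` (`‖g p‖ = 1`)
and exchange of the finite sum with the integral give `∑_D Pr D z^(#D) ∫ ‖cs g ψ D‖^2 = 2 π ∫ ‖φ‖^2 ∏ (1 + 2 Ap (z - 1 + z Re ..))`, so `prodB` gives the hypothesis
of `anI` (in the second case of `h0` use `‖φ τ‖ ≤ C |τ|`). So `IT E g T ψ → 0`; and `IT E g T w ≤ IT E g T ψ + IT E g T (w - ψ) ≤ IT E g T ψ + ε` (`cs` is linear in `w`,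
`IT_le`; integrability from the decay of `ψ` and compact support of `w`). `0 ≤ IT`. -/
theorem an (E : Finset ℕ) (g : ℕ → ℂ) (hg1 : ∀ p : ℕ, p.Prime → p % 4 = 1 → p ∉ E → ‖g p‖ = 1) (R : ℝ)
    (hR0 : 0 ≤ R) (hR1 : R ≤ 1) (hNP : NP E g R) (w : ℝ → ℂ) (hw : Continuous w) (hc : HasCompactSupport w)
    (h0 : R < 1 ∨ (∫ t, w t) = 0) :
    Tendsto (fun T : ℕ => IT E g T w) atTop (nhds 0) := by
  obtain ⟨z, hz, hz1, hzR⟩ : ∃ z : ℝ, 1 / 2 < z ∧ z < 1 ∧ (R < 1 → 2 * z * R < 1) := by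
    by_cases h : R ≤ 1 / 2
    · exact ⟨3 / 4, by norm_num, by norm_num, fun _ => by linarith⟩
    · push Not at h
      by_cases h1 : R < 1
      · have hR : 0 < 4 * R := by linarith
        refine ⟨(R + 1) / (4 * R), ?_, ?_, fun _ => ?_⟩
        · rw [lt_div_iff₀ hR]; linarith
        · rw [div_lt_one hR]; linarith
        · have : 2 * ((R + 1) / (4 * R)) * R = (R + 1) / 2 := by
            field_simp
            ring
          rw [this]; linarith
      · exact ⟨3 / 4, by norm_num, by norm_num, fun h2 => absurd h2 h1⟩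
  have hwi : Integrable w := hw.integrable_of_hasCompactSupport hc
  rw [Metric.tendsto_atTop]
  intro ε hε
  obtain ⟨B, C, φ, ψ, hB0, hC0, hφ, hB, hψ, hψc, hC, hdiff, hzero⟩ := mol w hw hc (ε / 2) (by linarith)
  have hψi : Integrable ψ := psi_int hψc hC
  have h0' : R < 1 ∨ ∀ τ, ‖φ τ‖ ≤ C * |τ| := by
    rcases h0 with h | h
    · exact Or.inl h
    · exact Or.inr (hzero h)
  obtain ⟨C', hC'⟩ := prodB E g hg1 R hR0 hR1 hNP z hz hz1 hzR B C hB0 φ hφ hB h0'
  have hlim := anI E g hg1 z hz hz1 ψ hψc C hC (2 * Real.pi * C') (by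
    intro T hT
    rw [hL2 E g hg1 z B φ ψ hφ hB hψ hψc C hC T, mul_assoc (2 * Real.pi) C']
    exact mul_le_mul_of_nonneg_left (hC' T hT) (by positivity))
  rw [Metric.tendsto_atTop] at hlim
  obtain ⟨N, hN⟩ := hlim (ε / 2) (by linarith)
  refine ⟨N, fun T hT => ?_⟩
  have h1 := hN T hT
  rw [Real.dist_eq, sub_zero, abs_of_nonneg (IT_nonneg E g T ψ)] at h1
  rw [Real.dist_eq, sub_zero, abs_of_nonneg (IT_nonneg E g T w)]
  have h2 := IT_add E g T w ψ hwi hψi
  have h3 := IT_le E g hg1 T (fun u => w u - ψ u) (hwi.sub hψi)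
  linarith

end Pool.Agent.OmEq

end
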