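import Mathlib

/-!
# MP_92ef0c_nt, split pairs: merged library part M15

Concatenation of smaller files (each in its own section), only to save build time.
-/

/-! ### from `Lib_MP_f1a94e_mr.Circ` -/

section

/-!
# Piece CIRC: separated points on the unit circle
-/

set_option autoImplicit false

namespace Pool.Agent.GaussMR

/-- separated reals in a bounded interval -/
theorem card_sep_real {ι : Type*} (s : Finset ι) (θ : ι → ℝ) (δ A : ℝ) (hδ : 0 < δ)
    (hA : 0 ≤ A) (hθ : ∀ i ∈ s, |θ i| ≤ A)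
    (hsp : ∀ i ∈ s, ∀ j ∈ s, i ≠ j → δ ≤ |θ i - θ j|) :
    (s.card : ℝ) ≤ 2 * A / δ + 1 := by
  have h1 : s.card ≤ (Finset.range (⌊2 * A / δ⌋₊ + 1)).card := by
    refine Finset.card_le_card_of_injOn (fun i => ⌊(θ i + A) / δ⌋₊) ?_ ?_
    · intro i hi
      have h2 := abs_le.1 (hθ i hi)
      simp only [Finset.coe_range, Set.mem_Iio]
      have h3 : (θ i + A) / δ ≤ 2 * A / δ := by
        gcongr
        linarith [h2.2]
      exact Nat.lt_succ_of_le (Nat.floor_le_floor h3)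
    · intro i hi j hj hij
      by_contra hne
      have h2 := abs_le.1 (hθ i hi)
      have h3 := abs_le.1 (hθ j hj)
      have h4 := hsp i hi j hj hne
      have hi0 : 0 ≤ (θ i + A) / δ := div_nonneg (by linarith [h2.1]) hδ.le
      have hj0 : 0 ≤ (θ j + A) / δ := div_nonneg (by linarith [h3.1]) hδ.le
      have h5 := Nat.floor_le hi0
      have h6 := Nat.floor_le hj0
      have h7 := Nat.lt_floor_add_one ((θ i + A) / δ)
      have h8 := Nat.lt_floor_add_one ((θ j + A) / δ)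
      have hij' : (⌊(θ i + A) / δ⌋₊ : ℝ) = (⌊(θ j + A) / δ⌋₊ : ℝ) := by exact_mod_cast hij
      have h9 : |(θ i + A) / δ - (θ j + A) / δ| < 1 := by
        rw [abs_lt]
        constructor <;> linarith
      have h10 : (θ i + A) / δ - (θ j + A) / δ = (θ i - θ j) / δ := by ring
      rw [h10, abs_div, abs_of_pos hδ, div_lt_one hδ] at h9
      linarith
  rw [Finset.card_range] at h1
  have h2 : (s.card : ℝ) ≤ (⌊2 * A / δ⌋₊ : ℝ) + 1 := by exact_mod_cast h1
  have h3 := Nat.floor_le (by positivity : 0 ≤ 2 * A / δ)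
  linarith

theorem exp_arg_of_norm_one (x : ℂ) (hx : ‖x‖ = 1) :
    Complex.exp (Complex.I * (Complex.arg x : ℝ)) = x := by
  have := Complex.norm_mul_exp_arg_mul_I x
  rw [hx] at this
  rw [mul_comm]
  simpa using this

/-- chord and angle -/
theorem angle_le_chord (x : ℂ) (hx : ‖x‖ = 1) : |Complex.arg x| ≤ Real.pi / 2 * ‖x - 1‖ := by
  set θ := Complex.arg x with hθ
  have hx' : x = Complex.exp (θ * Complex.I) := by
    rw [mul_comm]
    exact (exp_arg_of_norm_one x hx).symm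
  have hn : ‖x - 1‖ ^ 2 = 2 - 2 * Real.cos θ := by
    rw [← Complex.normSq_eq_norm_sq, Complex.normSq_apply, hx']
    simp only [Complex.sub_re, Complex.sub_im, Complex.exp_ofReal_mul_I_re,
      Complex.exp_ofReal_mul_I_im, Complex.one_re, Complex.one_im]
    nlinarith [Real.sin_sq_add_cos_sq θ]
  have hle : |θ| ≤ Real.pi := Complex.abs_arg_le_pi x
  have hcos := Real.cos_le_one_sub_mul_cos_sq hle
  have hpi := Real.pi_pos
  have h1 : 2 / Real.pi ^ 2 * θ ^ 2 * 2 ≤ ‖x - 1‖ ^ 2 := by linarith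
  have h2 : θ ^ 2 ≤ (Real.pi / 2 * ‖x - 1‖) ^ 2 := by
    have h3 : θ ^ 2 = Real.pi ^ 2 / 4 * (2 / Real.pi ^ 2 * θ ^ 2 * 2) := by
      field_simp
      ring
    rw [h3]
    calc Real.pi ^ 2 / 4 * (2 / Real.pi ^ 2 * θ ^ 2 * 2) ≤ Real.pi ^ 2 / 4 * ‖x - 1‖ ^ 2 := by
          gcongr
      _ = _ := by ring
  exact abs_le_of_sq_le_sq h2 (by positivity)

theorem chord_le_angle (x y : ℂ) (hx : ‖x‖ = 1) (hy : ‖y‖ = 1) :
    ‖x - y‖ ≤ |Complex.arg x - Complex.arg y| := by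
  have h1 : x - y = y * (Complex.exp (Complex.I * ((Complex.arg x - Complex.arg y : ℝ) : ℂ)) - 1) := by
    have h2 : Complex.exp (Complex.I * ((Complex.arg x - Complex.arg y : ℝ) : ℂ)) = x / y := by
      rw [Complex.ofReal_sub, mul_sub, Complex.exp_sub, exp_arg_of_norm_one x hx,
        exp_arg_of_norm_one y hy]
    have hy0 : y ≠ 0 := by
      intro h
      rw [h, norm_zero] at hy
      exact zero_ne_one hy
    rw [h2]
    field_simp
  rw [h1, norm_mul, hy, one_mul]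
  exact Real.norm_exp_I_mul_ofReal_sub_one_le

/-- `δ`-separated points on the unit circle: at most `4 (1 + η / δ)` of them at distance `≤ η` from `u`.
Proof: angles `θ_i = arg (p_i / u) ∈ (-π, π]`; `‖p_i - u‖ = 2 |sin (θ_i / 2)| ≥ (2 / π) |θ_i|`, so
`|θ_i| ≤ (π / 2) η`; `δ ≤ ‖p_i - p_j‖ ≤ |θ_i - θ_j|`; so the number is at most `1 + π η / δ`. -/
theorem count_near {ι : Type*} (s : Finset ι) (p : ι → ℂ) (δ : ℝ) (hδ : 0 < δ)
    (hp : ∀ i ∈ s, ‖p i‖ = 1) (hsp : ∀ i ∈ s, ∀ j ∈ s, i ≠ j → δ ≤ ‖p i - p j‖)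
    (u : ℂ) (hu : ‖u‖ = 1) (η : ℝ) (hη : 0 ≤ η) (hη' : ∀ i ∈ s, ‖p i - u‖ ≤ η) :
    (s.card : ℝ) ≤ 4 * (1 + η / δ) := by
  have hu0 : u ≠ 0 := by
    intro h
    rw [h, norm_zero] at hu
    exact zero_ne_one hu
  have hpi := Real.pi_pos
  have hn : ∀ i ∈ s, ‖p i / u‖ = 1 := fun i hi => by rw [norm_div, hp i hi, hu, div_one]
  have h1 := card_sep_real s (fun i => Complex.arg (p i / u)) δ (Real.pi / 2 * η) hδ
    (by positivity) ?_ ?_
  · have h2 : 2 * (Real.pi / 2 * η) / δ = Real.pi * (η / δ) := by ring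
    rw [h2] at h1
    have h3 : 0 ≤ η / δ := div_nonneg hη hδ.le
    have h4 : Real.pi * (η / δ) ≤ 4 * (η / δ) := by
      gcongr
      exact Real.pi_le_four
    linarith
  · intro i hi
    refine (angle_le_chord _ (hn i hi)).trans ?_
    gcongr
    have h2 : p i / u - 1 = (p i - u) / u := by field_simp
    rw [h2, norm_div, hu, div_one]
    exact hη' i hi
  · intro i hi j hj hij
    have h2 := chord_le_angle _ _ (hn i hi) (hn j hj)
    have h3 : p i / u - p j / u = (p i - p j) / u := by ring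
    rw [h3, norm_div, hu, div_one] at h2
    exact (hsp i hi j hj hij).trans h2

/-- the dyadic induction -/
theorem sum_kernel_ring {ι : Type*} (p : ι → ℂ) (δ : ℝ) (hδ : 0 < δ)
    (u : ℂ) (hu : ‖u‖ = 1) (M : ℝ) (hM : 1 ≤ M) (k : ι → ℝ) (η : ℝ) (hη : δ ≤ η) (n : ℕ) :
    ∀ s : Finset ι, (∀ i ∈ s, ‖p i‖ = 1) →
      (∀ i ∈ s, ∀ j ∈ s, i ≠ j → δ ≤ ‖p i - p j‖) →
      (∀ i ∈ s, k i * (M * ‖p i - u‖ ^ 2) ≤ 4) →
      (∀ i ∈ s, η < ‖p i - u‖) → (∀ i ∈ s, ‖p i - u‖ ≤ 2 ^ n * η) →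
      ∑ i ∈ s, k i ≤ 96 / (M * η * δ) * (1 - (1 / 2) ^ n) := by
  classical
  have hη0 : 0 < η := hδ.trans_le hη
  have hM0 : 0 < M := by linarith
  induction n with
  | zero =>
    intro s _ _ _ h4 h5
    have : s = ∅ := by
      rw [Finset.eq_empty_iff_forall_notMem]
      intro i hi
      have h6 := h4 i hi
      have h7 := h5 i hi
      rw [pow_zero, one_mul] at h7
      linarith
    simp [this]
  | succ n ih =>
    intro s h1 h2 h3 h4 h5
    set s1 := s.filter (fun i => ‖p i - u‖ ≤ 2 ^ n * η) with hs1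
    set s2 := s.filter (fun i => ¬ ‖p i - u‖ ≤ 2 ^ n * η) with hs2
    have hs1s : ∀ i ∈ s1, i ∈ s := fun i hi => (Finset.mem_filter.1 hi).1
    have hs2s : ∀ i ∈ s2, i ∈ s := fun i hi => (Finset.mem_filter.1 hi).1
    have hsplit : ∑ i ∈ s, k i = ∑ i ∈ s1, k i + ∑ i ∈ s2, k i :=
      (Finset.sum_filter_add_sum_filter_not s _ k).symm
    have e1 := ih s1 (fun i hi => h1 i (hs1s i hi))
      (fun i hi j hj => h2 i (hs1s i hi) j (hs1s j hj)) (fun i hi => h3 i (hs1s i hi))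
      (fun i hi => h4 i (hs1s i hi)) (fun i hi => (Finset.mem_filter.1 hi).2)
    have hcard := count_near s2 p δ hδ (fun i hi => h1 i (hs2s i hi))
      (fun i hi j hj => h2 i (hs2s i hi) j (hs2s j hj)) u hu (2 ^ (n + 1) * η) (by positivity)
      (fun i hi => h5 i (hs2s i hi))
    have hk : ∀ i ∈ s2, k i ≤ 4 / (M * (2 ^ n * η) ^ 2) := by
      intro i hi
      have h6 : 2 ^ n * η < ‖p i - u‖ := not_le.1 (Finset.mem_filter.1 hi).2
      have h7 := h3 i (hs2s i hi)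
      rw [le_div_iff₀ (by positivity)]
      by_cases hk0 : 0 ≤ k i
      · calc k i * (M * (2 ^ n * η) ^ 2) ≤ k i * (M * ‖p i - u‖ ^ 2) := by gcongr
          _ ≤ 4 := h7
      · have h8 : 0 ≤ M * (2 ^ n * η) ^ 2 := by positivity
        nlinarith
    have e2 : ∑ i ∈ s2, k i ≤ 48 / (M * η * δ) * (1 / 2) ^ n := by
      calc ∑ i ∈ s2, k i ≤ s2.card • (4 / (M * (2 ^ n * η) ^ 2)) :=
            Finset.sum_le_card_nsmul _ _ _ hk
        _ = (s2.card : ℝ) * (4 / (M * (2 ^ n * η) ^ 2)) := by rw [nsmul_eq_mul]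
        _ ≤ (4 * (1 + 2 ^ (n + 1) * η / δ)) * (4 / (M * (2 ^ n * η) ^ 2)) := by gcongr
        _ ≤ (12 * (2 ^ n * η / δ)) * (4 / (M * (2 ^ n * η) ^ 2)) := by
            refine mul_le_mul_of_nonneg_right ?_ (by positivity)
            have h9 : 1 ≤ 2 ^ n * η / δ := by
              rw [le_div_iff₀ hδ]
              have h10 : (1 : ℝ) ≤ 2 ^ n := one_le_pow₀ (by norm_num)
              nlinarith
            have h11 : (2 : ℝ) ^ (n + 1) * η / δ = 2 * (2 ^ n * η / δ) := by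
              rw [pow_succ]; ring
            rw [h11]
            linarith
        _ = 48 / (M * η * δ) * (1 / 2) ^ n := by
            rw [one_div, inv_pow]
            have h12 : (2 : ℝ) ^ n ≠ 0 := by positivity
            field_simp
            ring
    rw [hsplit]
    have e3 : 96 / (M * η * δ) * (1 - (1 / 2) ^ (n + 1)) =
        96 / (M * η * δ) * (1 - (1 / 2) ^ n) + 48 / (M * η * δ) * (1 / 2) ^ n := by
      rw [pow_succ]; ring
    rw [e3]
    linarith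

/-- sum of a kernel over separated points far from `u`: dyadic decomposition and `count_near` -/
theorem sum_kernel_far {ι : Type*} (s : Finset ι) (p : ι → ℂ) (δ : ℝ) (hδ : 0 < δ)
    (hp : ∀ i ∈ s, ‖p i‖ = 1) (hsp : ∀ i ∈ s, ∀ j ∈ s, i ≠ j → δ ≤ ‖p i - p j‖)
    (u : ℂ) (hu : ‖u‖ = 1) (M : ℝ) (hM : 1 ≤ M) (k : ι → ℝ)
    (hk : ∀ i ∈ s, k i * (M * ‖p i - u‖ ^ 2) ≤ 4) (η : ℝ) (hη : δ ≤ η)
    (hfar : ∀ i ∈ s, η < ‖p i - u‖) :
    ∑ i ∈ s, k i ≤ 200 / (M * η * δ) := by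
  have hη0 : 0 < η := hδ.trans_le hη
  have hM0 : 0 < M := by linarith
  obtain ⟨n, hn⟩ := pow_unbounded_of_one_lt (2 / η) (by norm_num : (1 : ℝ) < 2)
  have h1 := sum_kernel_ring p δ hδ u hu M hM k η hη n s hp hsp hk hfar ?_
  · refine h1.trans ?_
    have h2 : (0 : ℝ) ≤ (1 / 2) ^ n := by positivity
    calc 96 / (M * η * δ) * (1 - (1 / 2) ^ n) ≤ 96 / (M * η * δ) * 1 := by
          gcongr
          linarith
      _ ≤ 200 / (M * η * δ) := by
          rw [mul_one]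
          gcongr
          norm_num
  · intro i hi
    have h2 : ‖p i - u‖ ≤ 2 := by
      refine (norm_sub_le _ _).trans ?_
      rw [hp i hi, hu]
      norm_num
    rw [div_lt_iff₀ hη0] at hn
    linarith

/-- sum of a kernel over separated points -/
theorem sum_kernel {ι : Type*} (s : Finset ι) (p : ι → ℂ) (δ : ℝ) (hδ : 0 < δ)
    (hp : ∀ i ∈ s, ‖p i‖ = 1) (hsp : ∀ i ∈ s, ∀ j ∈ s, i ≠ j → δ ≤ ‖p i - p j‖)
    (u : ℂ) (hu : ‖u‖ = 1) (M : ℝ) (hM : 1 ≤ M) (k : ι → ℝ) (hk1 : ∀ i ∈ s, k i ≤ M)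
    (hk : ∀ i ∈ s, k i * (M * ‖p i - u‖ ^ 2) ≤ 4) :
    ∑ i ∈ s, k i ≤ 400 * (M + 1 / δ) := by
  classical
  have hM0 : 0 < M := by linarith
  set η := max δ (1 / M) with hη
  have hη0 : 0 < η := lt_max_of_lt_left hδ
  have hηδ : δ ≤ η := le_max_left _ _
  have hηM : 1 / M ≤ η := le_max_right _ _
  set s1 := s.filter (fun i => ‖p i - u‖ ≤ η) with hs1
  set s2 := s.filter (fun i => ¬ ‖p i - u‖ ≤ η) with hs2
  have hs1s : ∀ i ∈ s1, i ∈ s := fun i hi => (Finset.mem_filter.1 hi).1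
  have hs2s : ∀ i ∈ s2, i ∈ s := fun i hi => (Finset.mem_filter.1 hi).1
  have hsplit : ∑ i ∈ s, k i = ∑ i ∈ s1, k i + ∑ i ∈ s2, k i :=
    (Finset.sum_filter_add_sum_filter_not s _ k).symm
  have hcard := count_near s1 p δ hδ (fun i hi => hp i (hs1s i hi))
    (fun i hi j hj => hsp i (hs1s i hi) j (hs1s j hj)) u hu η hη0.le
    (fun i hi => (Finset.mem_filter.1 hi).2)
  have hηd : η / δ ≤ 1 + 1 / (M * δ) := by
    rw [div_le_iff₀ hδ, hη]
    have h1 : (1 + 1 / (M * δ)) * δ = δ + 1 / M := by field_simp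
    rw [h1]
    exact max_le (by linarith [one_div_pos.2 hM0]) (by linarith)
  have e1 : ∑ i ∈ s1, k i ≤ 8 * M + 4 / δ := by
    calc ∑ i ∈ s1, k i ≤ s1.card • M :=
          Finset.sum_le_card_nsmul _ _ _ (fun i hi => hk1 i (hs1s i hi))
      _ = (s1.card : ℝ) * M := by rw [nsmul_eq_mul]
      _ ≤ (4 * (1 + (1 + 1 / (M * δ)))) * M := by
          gcongr
          exact hcard.trans (by gcongr)
      _ = 8 * M + 4 / δ := by field_simp; ring
  have e2 := sum_kernel_far s2 p δ hδ (fun i hi => hp i (hs2s i hi))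
    (fun i hi j hj => hsp i (hs2s i hi) j (hs2s j hj)) u hu M hM k
    (fun i hi => hk i (hs2s i hi)) η hηδ (fun i hi => not_le.1 (Finset.mem_filter.1 hi).2)
  have e3 : 200 / (M * η * δ) ≤ 200 / δ := by
    have h1 : 1 ≤ M * η := by
      rw [div_le_iff₀ hM0] at hηM
      linarith
    have h2 : δ ≤ M * η * δ := by nlinarith
    gcongr
  rw [hsplit]
  have h1 : 400 * (M + 1 / δ) = 400 * M + 400 / δ := by ring
  have h2 : 4 / δ + 200 / δ ≤ 400 / δ := by
    rw [← add_div]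
    gcongr
    norm_num
  rw [h1]
  linarith

end Pool.Agent.GaussMR

end
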