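import Pool.Agent.Lib_MP_92ef0c_m.M02
import Pool.Agent.Lib_MP_92ef0c_m.M15

/-!
# MP_92ef0c_nt, split pairs: merged library part M16

Concatenation of smaller files (each in its own section), only to save build time.
-/

/-! ### from `Lib_MP_f1a94e_mr.Psum` -/

section

/-!
# Piece PSUM: partial summation with weights `1 / nm z`
-/

set_option autoImplicit false

namespace Pool.Agent.GaussMR

open MeasureTheory

open Classical in
/-- the sum of `c` over the circle of norm `n` -/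
noncomputable def circSum (c : G → ℂ) (n : ℕ) : ℂ :=
  ∑ z ∈ (ball (n : ℝ)).filter (fun z => nm z = n), c z

theorem circSum_icc (c : G → ℂ) {t : ℝ} (ht : 0 ≤ t) :
    ∑ n ∈ Finset.Icc 0 ⌊t⌋₊, circSum c n = ∑ z ∈ ball t, c z := by
  classical
  rw [← Finset.sum_fiberwise_of_maps_to (s := ball t) (t := Finset.Icc 0 ⌊t⌋₊) (g := nm)
    (f := c)]
  · apply Finset.sum_congr rfl
    intro n hn
    unfold circSum
    apply Finset.sum_congr _ (fun _ _ => rfl)
    ext z
    simp only [Finset.mem_filter, mem_ball]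
    constructor
    · rintro ⟨_, h⟩
      refine ⟨?_, h⟩
      rw [h]
      exact (Nat.le_floor_iff ht).1 (Finset.mem_Icc.1 hn).2
    · rintro ⟨_, h⟩
      exact ⟨by rw [h], h⟩
  · intro z hz
    rw [Finset.mem_Icc]
    exact ⟨Nat.zero_le _, Nat.le_floor (mem_ball.1 hz)⟩

theorem circSum_ioc (c : G → ℂ) {t1 t2 : ℝ} (h1 : 0 ≤ t1) (h2 : t1 ≤ t2) :
    ∑ n ∈ Finset.Ioc ⌊t1⌋₊ ⌊t2⌋₊, ((n : ℝ) : ℂ)⁻¹ * circSum c n =
      ∑ z ∈ ball t2 \ ball t1, c z / (nm z : ℂ) := by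
  classical
  rw [← Finset.sum_fiberwise_of_maps_to (s := ball t2 \ ball t1) (t := Finset.Ioc ⌊t1⌋₊ ⌊t2⌋₊)
    (g := nm) (f := fun z => c z / (nm z : ℂ))]
  · apply Finset.sum_congr rfl
    intro n hn
    unfold circSum
    rw [Finset.mul_sum]
    have hset : (ball (n : ℝ)).filter (fun z => nm z = n) =
        (ball t2 \ ball t1).filter (fun z => nm z = n) := by
      ext z
      simp only [Finset.mem_filter, Finset.mem_sdiff, mem_ball]
      rw [Finset.mem_Ioc] at hn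
      constructor
      · rintro ⟨_, h⟩
        refine ⟨⟨?_, ?_⟩, h⟩
        · rw [h]
          exact (Nat.le_floor_iff (h1.trans h2)).1 hn.2
        · rw [h]
          exact not_le.2 ((Nat.floor_lt h1).1 hn.1)
      · rintro ⟨_, h⟩
        exact ⟨by rw [h], h⟩
    rw [hset]
    apply Finset.sum_congr rfl
    intro z hz
    rw [(Finset.mem_filter.1 hz).2]
    push_cast
    rw [div_eq_mul_inv, mul_comm]
  · intro z hz
    rw [Finset.mem_sdiff, mem_ball, mem_ball] at hz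
    rw [Finset.mem_Ioc]
    exact ⟨(Nat.floor_lt h1).2 (not_le.1 hz.2), Nat.le_floor hz.1⟩

/-- `∑_{t1 < nm z ≤ t2} c z / nm z = S(t2)/t2 - S(t1)/t1 + ∫_{t1}^{t2} S(t) / t² dt`,
`S(t) = ∑_{z ∈ ball t} c z = κ t + R(t)`, `|R(t)| ≤ E t^(1-δ)` -/
theorem partial_sum (δ : ℝ) (hδ : 0 < δ) (hδ1 : δ ≤ 1) (c : G → ℂ) (κ : ℂ) (E t1 t2 : ℝ)
    (h1 : 1 ≤ t1) (h2 : t1 ≤ t2) (hE : 0 ≤ E)
    (h : ∀ t : ℝ, t1 ≤ t → t ≤ t2 → ‖∑ z ∈ ball t, c z - κ * t‖ ≤ E * t ^ (1 - δ)) :
    ‖∑ z ∈ ball t2 \ ball t1, c z / (nm z : ℂ) - κ * (Real.log (t2 / t1) : ℂ)‖ ≤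
      4 * E / δ * t1 ^ (-δ) := by
  have p1 : 0 < t1 := by linarith
  have p2 : 0 < t2 := by linarith
  have hderiv : ∀ t : ℝ, t ≠ 0 → HasDerivAt (fun t : ℝ => ((t : ℝ) : ℂ)⁻¹)
      (-((((t : ℝ) : ℂ) ^ 2)⁻¹)) t := by
    intro t ht
    have h3 := (hasDerivAt_inv (𝕜 := ℂ) (x := (t : ℂ)) (by exact_mod_cast ht)).comp_ofReal
    exact h3
  have hne : ∀ t ∈ Set.Icc t1 t2, t ≠ 0 := fun t ht => (p1.trans_le ht.1).ne'
  have hdiff : ∀ t ∈ Set.Icc t1 t2, DifferentiableAt ℝ (fun t : ℝ => ((t : ℝ) : ℂ)⁻¹) t :=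
    fun t ht => (hderiv t (hne t ht)).differentiableAt
  have hdv : ∀ t ∈ Set.Icc t1 t2, deriv (fun t : ℝ => ((t : ℝ) : ℂ)⁻¹) t =
      -((((t : ℝ) : ℂ) ^ 2)⁻¹) := fun t ht => (hderiv t (hne t ht)).deriv
  have hcont : ContinuousOn (fun t : ℝ => -((((t : ℝ) : ℂ) ^ 2)⁻¹)) (Set.Icc t1 t2) := by
    apply ContinuousOn.neg
    apply ContinuousOn.inv₀
    · exact (Complex.continuous_ofReal.pow 2).continuousOn
    · intro t ht
      exact pow_ne_zero 2 (by exact_mod_cast hne t ht)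
  have hint : IntegrableOn (deriv (fun t : ℝ => ((t : ℝ) : ℂ)⁻¹)) (Set.Icc t1 t2) := by
    refine (hcont.integrableOn_compact isCompact_Icc).congr_fun ?_ measurableSet_Icc
    intro t ht
    exact (hdv t ht).symm
  have habel := sum_mul_eq_sub_sub_integral_mul (circSum c) p1.le h2 hdiff hint
  rw [circSum_ioc c p1.le h2, circSum_icc c p1.le, circSum_icc c p2.le] at habel
  have hintS : IntegrableOn (fun t => deriv (fun t : ℝ => ((t : ℝ) : ℂ)⁻¹) t *
      ∑ k ∈ Finset.Icc 0 ⌊t⌋₊, circSum c k) (Set.Icc t1 t2) :=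
    integrableOn_mul_sum_Icc (circSum c) p1.le hint
  have hI1 : ∫ t in Set.Ioc t1 t2, deriv (fun t : ℝ => ((t : ℝ) : ℂ)⁻¹) t *
      ∑ k ∈ Finset.Icc 0 ⌊t⌋₊, circSum c k =
      ∫ t in Set.Ioc t1 t2, -((((t : ℝ) : ℂ) ^ 2)⁻¹) * ∑ z ∈ ball t, c z := by
    apply setIntegral_congr_fun measurableSet_Ioc
    intro t ht
    simp only
    rw [hdv t ⟨ht.1.le, ht.2⟩, circSum_icc c (p1.trans ht.1).le]
  have hintS2 : IntegrableOn (fun t : ℝ => -((((t : ℝ) : ℂ) ^ 2)⁻¹) * ∑ z ∈ ball t, c z)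
      (Set.Ioc t1 t2) := by
    refine (hintS.mono_set Set.Ioc_subset_Icc_self).congr_fun ?_ measurableSet_Ioc
    intro t ht
    simp only
    rw [hdv t ⟨ht.1.le, ht.2⟩, circSum_icc c (p1.trans ht.1).le]
  have hcont3 : ContinuousOn (fun t : ℝ => -((((t : ℝ) : ℂ) ^ 2)⁻¹) * (κ * t)) (Set.Icc t1 t2) :=
    hcont.mul (continuous_const.mul Complex.continuous_ofReal).continuousOn
  have hintS3 : IntegrableOn (fun t : ℝ => -((((t : ℝ) : ℂ) ^ 2)⁻¹) * (κ * t))
      (Set.Ioc t1 t2) :=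
    (hcont3.integrableOn_compact isCompact_Icc).mono_set Set.Ioc_subset_Icc_self
  have hmain : ∫ t in Set.Ioc t1 t2, -((((t : ℝ) : ℂ) ^ 2)⁻¹) * (κ * t) =
      -(κ * (Real.log (t2 / t1) : ℂ)) := by
    have e1 : ∀ t ∈ Set.Ioc t1 t2, -((((t : ℝ) : ℂ) ^ 2)⁻¹) * (κ * t) =
        (-κ) * ((t⁻¹ : ℝ) : ℂ) := by
      intro t ht
      have ht0 : ((t : ℝ) : ℂ) ≠ 0 := by exact_mod_cast (p1.trans ht.1).ne'
      push_cast
      field_simp
    rw [setIntegral_congr_fun measurableSet_Ioc e1, integral_const_mul, integral_complex_ofReal]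
    rw [← intervalIntegral.integral_of_le h2, integral_inv_of_pos p1 p2]
    ring
  have hrem : ∫ t in Set.Ioc t1 t2, -((((t : ℝ) : ℂ) ^ 2)⁻¹) * ∑ z ∈ ball t, c z =
      -(κ * (Real.log (t2 / t1) : ℂ)) +
      ∫ t in Set.Ioc t1 t2, -((((t : ℝ) : ℂ) ^ 2)⁻¹) * (∑ z ∈ ball t, c z - κ * t) := by
    rw [← hmain, ← integral_add hintS3]
    · apply integral_congr_ae
      apply Filter.Eventually.of_forall
      intro t
      simp only
      ring
    · have := hintS2.sub hintS3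
      refine this.congr_fun ?_ measurableSet_Ioc
      intro t _
      simp only [Pi.sub_apply]
      ring
  rw [hI1, hrem] at habel
  have hfin : ∑ z ∈ ball t2 \ ball t1, c z / (nm z : ℂ) - κ * (Real.log (t2 / t1) : ℂ) =
      ((t2 : ℝ) : ℂ)⁻¹ * (∑ z ∈ ball t2, c z - κ * t2) -
      ((t1 : ℝ) : ℂ)⁻¹ * (∑ z ∈ ball t1, c z - κ * t1) -
      ∫ t in Set.Ioc t1 t2, -((((t : ℝ) : ℂ) ^ 2)⁻¹) * (∑ z ∈ ball t, c z - κ * t) := by
    rw [habel]
    have c1 : ((t1 : ℝ) : ℂ) ≠ 0 := by exact_mod_cast p1.ne'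
    have c2 : ((t2 : ℝ) : ℂ) ≠ 0 := by exact_mod_cast p2.ne'
    have d1 : ((t1 : ℝ) : ℂ)⁻¹ * (κ * t1) = κ := by field_simp
    have d2 : ((t2 : ℝ) : ℂ)⁻¹ * (κ * t2) = κ := by field_simp
    rw [mul_sub, mul_sub, d1, d2]
    ring
  rw [hfin]
  have hb : ∀ t : ℝ, t1 ≤ t → t ≤ t2 →
      ‖((t : ℝ) : ℂ)⁻¹ * (∑ z ∈ ball t, c z - κ * t)‖ ≤ E * t1 ^ (-δ) := by
    intro t ht1 ht2
    have pt : 0 < t := by linarith
    rw [norm_mul, norm_inv, Complex.norm_real, Real.norm_of_nonneg pt.le]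
    calc t⁻¹ * ‖∑ z ∈ ball t, c z - κ * t‖ ≤ t⁻¹ * (E * t ^ (1 - δ)) :=
          mul_le_mul_of_nonneg_left (h t ht1 ht2) (by positivity)
      _ = E * t ^ (-δ) := by
          rw [show (1 - δ) = 1 + (-δ) by ring, Real.rpow_add pt, Real.rpow_one]
          field_simp
      _ ≤ E * t1 ^ (-δ) := by
          apply mul_le_mul_of_nonneg_left _ hE
          exact Real.rpow_le_rpow_of_nonpos p1 ht1 (by linarith)
  have hc : ‖∫ t in Set.Ioc t1 t2, -((((t : ℝ) : ℂ) ^ 2)⁻¹) * (∑ z ∈ ball t, c z - κ * t)‖ ≤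
      E / δ * t1 ^ (-δ) := by
    rw [← intervalIntegral.integral_of_le h2]
    have h0 : (0 : ℝ) ∉ Set.uIcc t1 t2 := by
      rw [Set.uIcc_of_le h2]
      intro h3
      linarith [h3.1]
    have hg : IntervalIntegrable (fun t : ℝ => E * t ^ (-1 - δ)) volume t1 t2 := by
      apply IntervalIntegrable.const_mul
      exact intervalIntegral.intervalIntegrable_rpow (Or.inr h0)
    refine (intervalIntegral.norm_integral_le_of_norm_le h2 ?_ hg).trans ?_
    · apply Filter.Eventually.of_forall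
      intro t ht
      have pt : 0 < t := by linarith [ht.1]
      rw [norm_mul, norm_neg, norm_inv, norm_pow, Complex.norm_real, Real.norm_of_nonneg pt.le]
      calc (t ^ 2)⁻¹ * ‖∑ z ∈ ball t, c z - κ * t‖ ≤ (t ^ 2)⁻¹ * (E * t ^ (1 - δ)) :=
            mul_le_mul_of_nonneg_left (h t ht.1.le ht.2) (by positivity)
        _ = E * t ^ (-1 - δ) := by
            rw [show (1 - δ) = 2 + (-1 - δ) by ring, Real.rpow_add pt, Real.rpow_two]
            field_simp
    · rw [intervalIntegral.integral_const_mul, integral_rpow (Or.inr ⟨by linarith, h0⟩)]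
      have e2 : (-1 - δ + 1) = -δ := by ring
      rw [e2]
      have q2 : 0 ≤ t2 ^ (-δ) := Real.rpow_nonneg p2.le _
      have e3 : (t2 ^ (-δ) - t1 ^ (-δ)) / (-δ) = (t1 ^ (-δ) - t2 ^ (-δ)) / δ := by
        field_simp
        ring
      rw [e3]
      calc E * ((t1 ^ (-δ) - t2 ^ (-δ)) / δ) ≤ E * (t1 ^ (-δ) / δ) := by
            apply mul_le_mul_of_nonneg_left _ hE
            apply div_le_div_of_nonneg_right _ hδ.le
            linarith
        _ = E / δ * t1 ^ (-δ) := by ring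
  have q1 : 0 ≤ t1 ^ (-δ) := Real.rpow_nonneg p1.le _
  have hEd : E ≤ E / δ := by
    rw [le_div_iff₀ hδ]
    nlinarith
  calc _ ≤ ‖((t2 : ℝ) : ℂ)⁻¹ * (∑ z ∈ ball t2, c z - κ * t2) -
      ((t1 : ℝ) : ℂ)⁻¹ * (∑ z ∈ ball t1, c z - κ * t1)‖ +
      ‖∫ t in Set.Ioc t1 t2, -((((t : ℝ) : ℂ) ^ 2)⁻¹) * (∑ z ∈ ball t, c z - κ * t)‖ :=
        norm_sub_le _ _
    _ ≤ (E * t1 ^ (-δ) + E * t1 ^ (-δ)) + E / δ * t1 ^ (-δ) := by
        apply add_le_add _ hc
        exact (norm_sub_le _ _).trans (add_le_add (hb t2 h2 le_rfl) (hb t1 le_rfl h2))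
    _ ≤ (E / δ * t1 ^ (-δ) + E / δ * t1 ^ (-δ)) + 2 * (E / δ * t1 ^ (-δ)) := by
        have := mul_le_mul_of_nonneg_right hEd q1
        have : 0 ≤ E / δ * t1 ^ (-δ) := by positivity
        linarith
    _ = 4 * E / δ * t1 ^ (-δ) := by ring

end Pool.Agent.GaussMR

end

/-! ### from `Lib_MP_f1a94e_mr.Fejer` -/

section

/-!
# Piece FEJER: the Fejer kernel
-/

set_option autoImplicit false

namespace Pool.Agent.GaussMR

/-- the Fejer kernel -/
noncomputable def fej (M : ℕ) (u : ℂ) : ℝ := ‖∑ m ∈ Finset.range M, u ^ m‖ ^ 2 / M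

theorem fej_nonneg (M : ℕ) (u : ℂ) : 0 ≤ fej M u := by unfold fej; positivity

/-- the number of pairs of exponents below `M` with difference `k` -/
theorem card_diff (M : ℕ) (k : ℤ) (hk : k ∈ fr M) :
    (((Finset.range M ×ˢ Finset.range M).filter
      (fun q : ℕ × ℕ => (q.1 : ℤ) - (q.2 : ℤ) = k)).card : ℤ) = M - |k| := by
  have hk' : -(M : ℤ) ≤ k ∧ k ≤ M := by simpa [fr] using hk
  rcases le_total 0 k with h0 | h0
  · -- `q.2` ranges over `[0, M - k)`
    have h1 : ((Finset.range M ×ˢ Finset.range M).filter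
        (fun q : ℕ × ℕ => (q.1 : ℤ) - (q.2 : ℤ) = k)) =
        (Finset.range (M - k.toNat)).image (fun j => (j + k.toNat, j)) := by
      ext ⟨a, b⟩
      simp only [Finset.mem_filter, Finset.mem_product, Finset.mem_range, Finset.mem_image,
        Prod.mk.injEq]
      constructor
      · rintro ⟨⟨ha, hb⟩, hab⟩
        refine ⟨b, by omega, by omega, rfl⟩
      · rintro ⟨j, hj, hj1, hj2⟩
        subst hj2
        refine ⟨⟨by omega, by omega⟩, by omega⟩
    rw [h1, Finset.card_image_of_injective _ (fun a b h => (Prod.mk.inj h).2), Finset.card_range,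
      abs_of_nonneg h0]
    omega
  · have h1 : ((Finset.range M ×ˢ Finset.range M).filter
        (fun q : ℕ × ℕ => (q.1 : ℤ) - (q.2 : ℤ) = k)) =
        (Finset.range (M - (-k).toNat)).image (fun j => (j, j + (-k).toNat)) := by
      ext ⟨a, b⟩
      simp only [Finset.mem_filter, Finset.mem_product, Finset.mem_range, Finset.mem_image,
        Prod.mk.injEq]
      constructor
      · rintro ⟨⟨ha, hb⟩, hab⟩
        refine ⟨a, by omega, rfl, by omega⟩
      · rintro ⟨j, hj, hj1, hj2⟩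
        subst hj1
        refine ⟨⟨by omega, by omega⟩, by omega⟩
    rw [h1, Finset.card_image_of_injective _ (fun a b h => (Prod.mk.inj h).1), Finset.card_range,
      abs_of_nonpos h0]
    omega

/-- `(1 / M) |∑_{m < M} u ^ m| ^ 2 = ∑_{|k| ≤ M} (1 - |k| / M) u ^ k` for `|u| = 1` -/
theorem fej_eq (M : ℕ) (hM : 1 ≤ M) (u : ℂ) (hu : ‖u‖ = 1) :
    ((fej M u : ℝ) : ℂ) = ∑ k ∈ fr M, ((1 - |(k : ℝ)| / M : ℝ) : ℂ) * u ^ k := by
  have hu0 : u ≠ 0 := by
    intro h
    rw [h, norm_zero] at hu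
    exact zero_ne_one hu
  have hM0 : (M : ℂ) ≠ 0 := by exact_mod_cast (by omega : M ≠ 0)
  have hconj : (starRingEnd ℂ) u = u⁻¹ := by
    rw [Complex.inv_def, Complex.normSq_eq_norm_sq, hu]
    simp
  have h1 : ((‖∑ m ∈ Finset.range M, u ^ m‖ ^ 2 : ℝ) : ℂ) =
      ∑ q ∈ Finset.range M ×ˢ Finset.range M, u ^ ((q.1 : ℤ) - (q.2 : ℤ)) := by
    rw [← Complex.normSq_eq_norm_sq, ← Complex.mul_conj, map_sum, Finset.sum_mul_sum,
      Finset.sum_product]
    refine Finset.sum_congr rfl fun a _ => Finset.sum_congr rfl fun b _ => ?_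
    rw [map_pow, hconj, zpow_sub₀ hu0, zpow_natCast, zpow_natCast, inv_pow, div_eq_mul_inv]
  have h2 : ∑ q ∈ Finset.range M ×ˢ Finset.range M, u ^ ((q.1 : ℤ) - (q.2 : ℤ)) =
      ∑ k ∈ fr M, ∑ q ∈ (Finset.range M ×ˢ Finset.range M).filter
        (fun q : ℕ × ℕ => (q.1 : ℤ) - (q.2 : ℤ) = k), u ^ ((q.1 : ℤ) - (q.2 : ℤ)) := by
    refine (Finset.sum_fiberwise_of_maps_to ?_ _).symm
    intro q hq
    simp only [Finset.mem_product, Finset.mem_range] at hq
    simp only [fr, Finset.mem_Icc]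
    omega
  unfold fej
  rw [Complex.ofReal_div, h1, h2, Finset.sum_div]
  refine Finset.sum_congr rfl fun k hk => ?_
  have h3 : ∑ q ∈ (Finset.range M ×ˢ Finset.range M).filter
      (fun q : ℕ × ℕ => (q.1 : ℤ) - (q.2 : ℤ) = k), u ^ ((q.1 : ℤ) - (q.2 : ℤ)) =
      ∑ q ∈ (Finset.range M ×ˢ Finset.range M).filter
      (fun q : ℕ × ℕ => (q.1 : ℤ) - (q.2 : ℤ) = k), u ^ k := by
    refine Finset.sum_congr rfl fun q hq => ?_
    rw [(Finset.mem_filter.1 hq).2]
  have h4 := card_diff M k hk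
  have h5 : (((Finset.range M ×ˢ Finset.range M).filter
      (fun q : ℕ × ℕ => (q.1 : ℤ) - (q.2 : ℤ) = k)).card : ℂ) = ((M - |(k : ℝ)| : ℝ) : ℂ) := by
    have h6 : ((((Finset.range M ×ˢ Finset.range M).filter
      (fun q : ℕ × ℕ => (q.1 : ℤ) - (q.2 : ℤ) = k)).card : ℤ) : ℝ) = ((M - |k| : ℤ) : ℝ) := by
      rw [h4]
    push_cast at h6
    rw [← Complex.ofReal_natCast, h6]
  rw [h3, Finset.sum_const, nsmul_eq_mul, h5]
  push_cast
  field_simp

theorem fej_le (M : ℕ) (hM : 1 ≤ M) (u : ℂ) (hu : ‖u‖ = 1) : fej M u ≤ M := by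
  have hM0 : (0 : ℝ) < M := by exact_mod_cast hM
  unfold fej
  rw [div_le_iff₀ hM0, ← sq]
  have h1 : ‖∑ m ∈ Finset.range M, u ^ m‖ ≤ M := by
    refine (norm_sum_le _ _).trans ?_
    simp [hu]
  gcongr

/-- geometric series: `|∑ u ^ m| |u - 1| ≤ 2` -/
theorem fej_mul_le (M : ℕ) (hM : 1 ≤ M) (u : ℂ) (hu : ‖u‖ = 1) :
    fej M u * (M * ‖u - 1‖ ^ 2) ≤ 4 := by
  have hM0 : (0 : ℝ) < M := by exact_mod_cast hM
  have h1 : ‖∑ m ∈ Finset.range M, u ^ m‖ * ‖u - 1‖ ≤ 2 := by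
    rw [← norm_mul, geom_sum_mul]
    refine (norm_sub_le _ _).trans ?_
    rw [norm_pow, hu, one_pow, norm_one]
    norm_num
  have h2 : fej M u * (M * ‖u - 1‖ ^ 2) = (‖∑ m ∈ Finset.range M, u ^ m‖ * ‖u - 1‖) ^ 2 := by
    unfold fej
    field_simp
  rw [h2]
  have h3 : 0 ≤ ‖∑ m ∈ Finset.range M, u ^ m‖ * ‖u - 1‖ := by positivity
  nlinarith

end Pool.Agent.GaussMR

end

/-! ### from `Lib_MP_92ef0c_spm.LsGen` -/

section

/-!
# the large sieve on the circle for general separated points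
-/

set_option autoImplicit false

namespace Pool.Agent.SplM

open Pool.Agent.GaussMR (fr mem_fr fej fej_eq fej_le fej_mul_le sum_kernel fej_nonneg)

private theorem lsg_ne {x : ℂ} (hx : ‖x‖ = 1) : x ≠ 0 := by
  intro h
  rw [h, norm_zero] at hx
  exact zero_ne_one hx

private theorem lsg_conj {x : ℂ} (hx : ‖x‖ = 1) (k : ℤ) : (starRingEnd ℂ) (x ^ k) = (x ^ k)⁻¹ := by
  rw [map_zpow₀, ← Complex.inv_eq_conj hx, inv_zpow]

private theorem lsg_expand {ι : Type} (s : Finset ι) (u : ι → ℂ) (hu : ∀ i ∈ s, ‖u i‖ = 1) (M : ℕ) (hM : 1 ≤ M)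
    (a : ι → ℂ) :
    ((∑ k ∈ fr M, (1 - |(k : ℝ)| / M) * ‖∑ i ∈ s, a i * u i ^ k‖ ^ 2 : ℝ) : ℂ) =
      ∑ i ∈ s, ∑ j ∈ s, a i * (starRingEnd ℂ) (a j) * ((fej M (u i / u j) : ℝ) : ℂ) := by
  have h1 : ∀ k : ℤ, ((‖∑ i ∈ s, a i * u i ^ k‖ ^ 2 : ℝ) : ℂ) =
      ∑ i ∈ s, ∑ j ∈ s, a i * (starRingEnd ℂ) (a j) * (u i / u j) ^ k := by
    intro k
    rw [← Complex.normSq_eq_norm_sq, ← Complex.mul_conj, map_sum, Finset.sum_mul_sum]
    refine Finset.sum_congr rfl fun i hi => Finset.sum_congr rfl fun j hj => ?_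
    rw [map_mul, lsg_conj (hu j hj), div_zpow, div_eq_mul_inv]
    ring
  have h2 : ((∑ k ∈ fr M, (1 - |(k : ℝ)| / M) * ‖∑ i ∈ s, a i * u i ^ k‖ ^ 2 : ℝ) : ℂ) =
      ∑ k ∈ fr M, ((1 - |(k : ℝ)| / M : ℝ) : ℂ) *
        ∑ i ∈ s, ∑ j ∈ s, a i * (starRingEnd ℂ) (a j) * (u i / u j) ^ k := by
    rw [Complex.ofReal_sum]
    refine Finset.sum_congr rfl fun k _ => ?_
    rw [Complex.ofReal_mul, h1 k]
  rw [h2]
  simp_rw [Finset.mul_sum]
  rw [Finset.sum_comm]
  refine Finset.sum_congr rfl fun i hi => ?_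
  rw [Finset.sum_comm]
  refine Finset.sum_congr rfl fun j hj => ?_
  have hn : ‖u i / u j‖ = 1 := by
    rw [norm_div, hu i hi, hu j hj, div_one]
  rw [fej_eq M hM _ hn, Finset.mul_sum]
  refine Finset.sum_congr rfl fun k _ => ?_
  ring

private theorem lsg_le (M : ℕ) (hM : 1 ≤ M) (x y : ℂ) (hx : ‖x‖ = 1) (hy : ‖y‖ = 1) :
    fej M (x / y) ≤ M ∧ fej M (x / y) * (M * ‖x - y‖ ^ 2) ≤ 4 := by
  have hu : ‖x / y‖ = 1 := by
    rw [norm_div, hx, hy, div_one]
  refine ⟨fej_le M hM _ hu, ?_⟩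
  have h1 := fej_mul_le M hM _ hu
  have h2 : x / y - 1 = (x - y) / y := by
    have := lsg_ne hy
    field_simp
  rw [h2, norm_div, hy, div_one] at h1
  exact h1

/-- Copy of `large_sieve` (Lib_MP_f1a94e_mr/LS.lean) with `V X` replaced by a finite set `s` and the directions by
points `u i` of the unit circle at distance `≥ δ` from each other (use `u w / u z` in place of `dir w / dir z`;
`sum_kernel` is already general). -/
theorem ls_gen {ι : Type} (s : Finset ι) (u : ι → ℂ) (δ : ℝ) (hδ : 0 < δ) (hδ1 : δ ≤ 1) (hu : ∀ i ∈ s, ‖u i‖ = 1)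
    (hs : ∀ i ∈ s, ∀ j ∈ s, i ≠ j → δ ≤ ‖u i - u j‖) (T : ℕ) (a : ι → ℂ) :
    ∑ k ∈ fr T, ‖∑ i ∈ s, a i * u i ^ k‖ ^ 2 ≤ 2400 * (T + 1 / δ) * ∑ i ∈ s, ‖a i‖ ^ 2 := by
  set M : ℕ := 2 * T + 2 with hM
  have hM1 : 1 ≤ M := by omega
  have hMr : (M : ℝ) = 2 * T + 2 := by rw [hM]; push_cast; ring
  have hM0 : (0 : ℝ) < M := by rw [hMr]; positivity
  have hM1r : (1 : ℝ) ≤ M := by exact_mod_cast hM1
  set X : ℝ := 1 / δ with hX
  have hX1 : 1 ≤ X := by
    rw [hX, le_div_iff₀ hδ, one_mul]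
    exact hδ1
  set B : ℝ := 400 * (M + X) with hB
  have hX0 : 0 < X := by linarith
  have hker : ∀ j ∈ s, ∑ i ∈ s, fej M (u i / u j) ≤ B := by
    intro j hj
    exact sum_kernel s u δ hδ hu hs (u j) (hu j hj) M hM1r (fun i => fej M (u i / u j))
      (fun i hi => (lsg_le M hM1 _ _ (hu i hi) (hu j hj)).1)
      (fun i hi => (lsg_le M hM1 _ _ (hu i hi) (hu j hj)).2)
  have hker' : ∀ i ∈ s, ∑ j ∈ s, fej M (u i / u j) ≤ B := by
    intro i hi
    exact sum_kernel s u δ hδ hu hs (u i) (hu i hi) M hM1r (fun j => fej M (u i / u j))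
      (fun j hj => (lsg_le M hM1 _ _ (hu i hi) (hu j hj)).1)
      (fun j hj => by
        rw [norm_sub_rev]
        exact (lsg_le M hM1 _ _ (hu i hi) (hu j hj)).2)
  -- smoothing
  have hsm : ∑ k ∈ fr T, ‖∑ i ∈ s, a i * u i ^ k‖ ^ 2 ≤
      2 * ∑ k ∈ fr M, (1 - |(k : ℝ)| / M) * ‖∑ i ∈ s, a i * u i ^ k‖ ^ 2 := by
    rw [Finset.mul_sum]
    have hsub : fr T ⊆ fr M := by
      intro k hk
      rw [mem_fr] at hk ⊢
      omega
    calc ∑ k ∈ fr T, ‖∑ i ∈ s, a i * u i ^ k‖ ^ 2 ≤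
          ∑ k ∈ fr T, 2 * ((1 - |(k : ℝ)| / M) * ‖∑ i ∈ s, a i * u i ^ k‖ ^ 2) := by
          refine Finset.sum_le_sum fun k hk => ?_
          rw [mem_fr] at hk
          have h1 : |(k : ℝ)| ≤ T := by
            rw [abs_le]
            constructor
            · exact_mod_cast hk.1
            · exact_mod_cast hk.2
          have h2 : |(k : ℝ)| / M ≤ 1 / 2 := by
            rw [div_le_iff₀ hM0, hMr]
            linarith
          have h3 : 0 ≤ ‖∑ i ∈ s, a i * u i ^ k‖ ^ 2 := by positivity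
          nlinarith
      _ ≤ ∑ k ∈ fr M, 2 * ((1 - |(k : ℝ)| / M) * ‖∑ i ∈ s, a i * u i ^ k‖ ^ 2) := by
          refine Finset.sum_le_sum_of_subset_of_nonneg hsub fun k hk _ => ?_
          rw [mem_fr] at hk
          have h1 : |(k : ℝ)| ≤ M := by
            rw [abs_le]
            constructor
            · exact_mod_cast hk.1
            · exact_mod_cast hk.2
          have h2 : |(k : ℝ)| / M ≤ 1 := by
            rw [div_le_one hM0]
            exact h1
          have h3 : 0 ≤ 1 - |(k : ℝ)| / M := by linarith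
          positivity
  -- the quadratic form
  have hq : ∑ k ∈ fr M, (1 - |(k : ℝ)| / M) * ‖∑ i ∈ s, a i * u i ^ k‖ ^ 2 ≤
      B * ∑ i ∈ s, ‖a i‖ ^ 2 := by
    have h1 := congrArg Complex.re (lsg_expand s u hu M hM1 a)
    rw [Complex.ofReal_re] at h1
    rw [h1, Complex.re_sum]
    have h2 : ∀ i ∈ s, (∑ j ∈ s, a i * (starRingEnd ℂ) (a j) *
        ((fej M (u i / u j) : ℝ) : ℂ)).re ≤
        ∑ j ∈ s, (‖a i‖ ^ 2 * fej M (u i / u j) / 2 +
          ‖a j‖ ^ 2 * fej M (u i / u j) / 2) := by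
      intro i _
      rw [Complex.re_sum]
      refine Finset.sum_le_sum fun j _ => ?_
      rw [mul_comm, Complex.re_ofReal_mul]
      have h3 : (a i * (starRingEnd ℂ) (a j)).re ≤ ‖a i‖ ^ 2 / 2 + ‖a j‖ ^ 2 / 2 := by
        refine (Complex.re_le_norm _).trans ?_
        rw [norm_mul, Complex.norm_conj]
        nlinarith [sq_nonneg (‖a i‖ - ‖a j‖)]
      have h4 := fej_nonneg M (u i / u j)
      nlinarith
    refine (Finset.sum_le_sum h2).trans ?_
    simp_rw [Finset.sum_add_distrib]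
    have h5 : ∑ i ∈ s, ∑ j ∈ s, ‖a i‖ ^ 2 * fej M (u i / u j) / 2 ≤
        B / 2 * ∑ i ∈ s, ‖a i‖ ^ 2 := by
      rw [Finset.mul_sum]
      refine Finset.sum_le_sum fun i hi => ?_
      rw [← Finset.sum_div, ← Finset.mul_sum]
      have h6 := hker' i hi
      have h7 : 0 ≤ ‖a i‖ ^ 2 := by positivity
      nlinarith
    have h6 : ∑ i ∈ s, ∑ j ∈ s, ‖a j‖ ^ 2 * fej M (u i / u j) / 2 ≤
        B / 2 * ∑ i ∈ s, ‖a i‖ ^ 2 := by
      rw [Finset.sum_comm, Finset.mul_sum]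
      refine Finset.sum_le_sum fun j hj => ?_
      rw [← Finset.sum_div, ← Finset.mul_sum]
      have h6 := hker j hj
      have h7 : 0 ≤ ‖a j‖ ^ 2 := by positivity
      nlinarith
    linarith
  have hS : 0 ≤ ∑ i ∈ s, ‖a i‖ ^ 2 := Finset.sum_nonneg fun i _ => by positivity
  have hfin : 2 * B ≤ 2400 * (T + X) := by
    rw [hB, hMr]
    have : (0 : ℝ) ≤ T := Nat.cast_nonneg T
    linarith
  calc ∑ k ∈ fr T, ‖∑ i ∈ s, a i * u i ^ k‖ ^ 2 ≤
        2 * ∑ k ∈ fr M, (1 - |(k : ℝ)| / M) * ‖∑ i ∈ s, a i * u i ^ k‖ ^ 2 := hsm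
    _ ≤ 2 * (B * ∑ i ∈ s, ‖a i‖ ^ 2) := by linarith
    _ = 2 * B * ∑ i ∈ s, ‖a i‖ ^ 2 := by ring
    _ ≤ 2400 * (T + X) * ∑ i ∈ s, ‖a i‖ ^ 2 := by gcongr

end Pool.Agent.SplM

end

/-! ### from `Lib_MP_f1a94e_eq.RiemTwo` -/

section

/-!
# Piece RIEMTWO: from rectangles to continuous functions
-/

set_option autoImplicit false

namespace Pool.Agent.OmEq

open Finset Filter

lemma rt_cellint (Ψ : ℝ → ℝ → ℝ) (hΨ : Continuous (Function.uncurry Ψ)) (y0 y1 u0 u1 v η : ℝ)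
    (hy : y0 ≤ y1) (hu : u0 ≤ u1)
    (h : ∀ y ∈ Set.Icc y0 y1, ∀ u ∈ Set.Icc u0 u1, |Ψ y u - v| ≤ η) :
    |(∫ y in y0..y1, ∫ u in u0..u1, Ψ y u) - v * ((y1 - y0) * (u1 - u0))| ≤
      η * ((y1 - y0) * (u1 - u0)) := by
  have hG : Continuous (fun y => ∫ u in u0..u1, Ψ y u) :=
    intervalIntegral.continuous_parametric_intervalIntegral_of_continuous' hΨ u0 u1
  have h1 : (∫ y in y0..y1, ∫ u in u0..u1, Ψ y u) - v * ((y1 - y0) * (u1 - u0)) =
      ∫ y in y0..y1, ((∫ u in u0..u1, Ψ y u) - v * (u1 - u0)) := by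
    rw [intervalIntegral.integral_sub (hG.intervalIntegrable _ _)
      (continuous_const.intervalIntegrable _ _), intervalIntegral.integral_const, smul_eq_mul]
    ring
  rw [h1]
  have h2 : ∀ y ∈ Set.uIoc y0 y1, ‖(∫ u in u0..u1, Ψ y u) - v * (u1 - u0)‖ ≤ η * (u1 - u0) := by
    intro y hy'
    rw [Set.uIoc_of_le hy] at hy'
    have hc : Continuous (fun u => Ψ y u) := hΨ.comp (Continuous.prodMk_right y)
    have h3 : (∫ u in u0..u1, Ψ y u) - v * (u1 - u0) = ∫ u in u0..u1, (Ψ y u - v) := by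
      rw [intervalIntegral.integral_sub (hc.intervalIntegrable _ _)
        (continuous_const.intervalIntegrable _ _), intervalIntegral.integral_const, smul_eq_mul]
      ring
    rw [h3]
    have h4 := intervalIntegral.norm_integral_le_of_norm_le_const (a := u0) (b := u1) (C := η)
      (f := fun u => Ψ y u - v) (by
        intro u hu'
        rw [Set.uIoc_of_le hu] at hu'
        exact h y ⟨hy'.1.le, hy'.2⟩ u ⟨hu'.1.le, hu'.2⟩)
    rwa [abs_of_nonneg (by linarith : (0:ℝ) ≤ u1 - u0)] at h4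
  have h5 := intervalIntegral.norm_integral_le_of_norm_le_const h2
  rw [abs_of_nonneg (by linarith : (0:ℝ) ≤ y1 - y0)] at h5
  rw [Real.norm_eq_abs] at h5
  linarith

/-- decomposition of the double integral into cells -/
lemma rt_split (Ψ : ℝ → ℝ → ℝ) (hΨ : Continuous (Function.uncurry Ψ)) (N J : ℕ) (a s : ℕ → ℝ) :
    (∫ y in a 0..a N, ∫ u in s 0..s J, Ψ y u) =
      ∑ i ∈ range N, ∑ j ∈ range J, ∫ y in a i..a (i + 1), ∫ u in s j..s (j + 1), Ψ y u := by
  have hc : ∀ y, Continuous (fun u => Ψ y u) := fun y => hΨ.comp (Continuous.prodMk_right y)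
  have hG : ∀ u0 u1 : ℝ, Continuous (fun y => ∫ u in u0..u1, Ψ y u) := fun u0 u1 =>
    intervalIntegral.continuous_parametric_intervalIntegral_of_continuous' hΨ u0 u1
  rw [← intervalIntegral.sum_integral_adjacent_intervals (n := N) (a := a)
    (fun k _ => (hG _ _).intervalIntegrable _ _)]
  apply Finset.sum_congr rfl
  intro i _
  rw [← intervalIntegral.integral_finset_sum (fun j _ => (hG _ _).intervalIntegrable _ _)]
  apply intervalIntegral.integral_congr
  intro y _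
  simp only
  rw [intervalIntegral.sum_integral_adjacent_intervals (n := J) (a := s)
    (fun k _ => (hc y).intervalIntegrable _ _)]

/-- the number of points in a rectangle with a corner on the axis -/
lemma rt_corner {ι : Type} (A : ι → Prop) (S : ℝ → Finset ι) (m t : ι → ℝ)
    (hS : ∀ x e, e ∈ S x ↔ A e ∧ m e ≤ x) (hm : ∀ e, A e → 0 < m e) (c : ℝ)
    (hc : ∀ s u : ℝ, s ≤ u →
      Tendsto (fun x : ℝ => (((S x).filter (fun e => s ≤ t e ∧ t e < u)).card : ℝ) / x) atTop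
        (nhds (c * (u - s)))) (y s u : ℝ) (hy : 0 ≤ y) (hsu : s ≤ u) :
    Tendsto (fun X : ℝ => (((S (y * X)).filter (fun e => s ≤ t e ∧ t e < u)).card : ℝ) / X) atTop
      (nhds (y * (c * (u - s)))) := by
  rcases eq_or_lt_of_le hy with h | h
  · have h1 : S 0 = ∅ := by
      apply Finset.eq_empty_of_forall_notMem
      intro e he
      rw [hS] at he
      exact absurd (hm e he.1) (not_lt.2 he.2)
    rw [← h]
    simp [h1]
  · have h1 : Tendsto (fun X : ℝ => y * X) atTop atTop := tendsto_id.const_mul_atTop h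
    have h2 := ((hc s u hsu).comp h1).const_mul y
    refine h2.congr' ?_
    filter_upwards [eventually_gt_atTop 0] with X hX
    simp only [Function.comp]
    rw [← mul_div_assoc, mul_div_mul_left _ _ h.ne']

/-- the number of points in a rectangle -/
lemma rt_cell {ι : Type} [DecidableEq ι] (A : ι → Prop) (S : ℝ → Finset ι) (m t : ι → ℝ)
    (hS : ∀ x e, e ∈ S x ↔ A e ∧ m e ≤ x) (hm : ∀ e, A e → 0 < m e) (c : ℝ)
    (hc : ∀ s u : ℝ, s ≤ u →
      Tendsto (fun x : ℝ => (((S x).filter (fun e => s ≤ t e ∧ t e < u)).card : ℝ) / x) atTop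
        (nhds (c * (u - s)))) (y y' s u : ℝ) (hy : 0 ≤ y) (hyy : y ≤ y') (hsu : s ≤ u) :
    Tendsto (fun X : ℝ => (((S (y' * X) \ S (y * X)).filter
      (fun e => s ≤ t e ∧ t e < u)).card : ℝ) / X) atTop (nhds (c * ((y' - y) * (u - s)))) := by
  have h1 := rt_corner A S m t hS hm c hc y s u hy hsu
  have h2 := rt_corner A S m t hS hm c hc y' s u (hy.trans hyy) hsu
  have h3 := h2.sub h1
  have e : y' * (c * (u - s)) - y * (c * (u - s)) = c * ((y' - y) * (u - s)) := by ring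
  rw [e] at h3
  refine h3.congr' ?_
  filter_upwards [eventually_gt_atTop 0] with X hX
  rw [← sub_div]
  congr 1
  have hsub : (S (y * X)).filter (fun e => s ≤ t e ∧ t e < u) ⊆
      (S (y' * X)).filter (fun e => s ≤ t e ∧ t e < u) := by
    apply Finset.filter_subset_filter
    intro e he
    rw [hS] at he ⊢
    exact ⟨he.1, he.2.trans (mul_le_mul_of_nonneg_right hyy hX.le)⟩
  have h4 : (S (y' * X) \ S (y * X)).filter (fun e => s ≤ t e ∧ t e < u) =
      (S (y' * X)).filter (fun e => s ≤ t e ∧ t e < u) \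
        (S (y * X)).filter (fun e => s ≤ t e ∧ t e < u) := by
    ext e
    simp only [Finset.mem_filter, Finset.mem_sdiff]
    tauto
  rw [h4, Finset.card_sdiff_of_subset hsub, Nat.cast_sub (Finset.card_le_card hsub)]

/-- telescoping decomposition of a finite set of points along a coordinate -/
lemma rt_tele {ι : Type} (Q : Finset ι) (t : ι → ℝ) (s : ℕ → ℝ) (hs : Monotone s) (f : ι → ℝ)
    (J : ℕ) : ∑ e ∈ Q.filter (fun e => s 0 ≤ t e ∧ t e < s J), f e =
      ∑ j ∈ range J, ∑ e ∈ Q.filter (fun e => s j ≤ t e ∧ t e < s (j + 1)), f e := by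
  induction J with
  | zero =>
    rw [Finset.range_zero, Finset.sum_empty]
    apply Finset.sum_eq_zero
    intro e he
    rw [Finset.mem_filter] at he
    exact absurd he.2.1 (not_le.2 he.2.2)
  | succ J ih =>
    rw [Finset.sum_range_succ, ← ih]
    simp only [Finset.sum_filter]
    rw [← Finset.sum_add_distrib]
    apply Finset.sum_congr rfl
    intro e _
    have h1 : s 0 ≤ s J := hs (Nat.zero_le _)
    have h2 : s J ≤ s (J + 1) := hs (Nat.le_succ _)
    by_cases a : s 0 ≤ t e <;> by_cases b : t e < s J <;> by_cases d : t e < s (J + 1)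
    · have n : ¬ (s J ≤ t e) := not_le.2 b
      simp [a, b, n]
      intro h
      exact absurd d (not_lt.2 h)
    · exact absurd (b.trans_le h2) d
    · have n : s J ≤ t e := not_lt.1 b
      simp [a, b, d, n]
    · simp [b, d]
    · have n : ¬ (s J ≤ t e) := not_le.2 b
      simp [a, n]
    · exact absurd (b.trans_le h2) d
    · exact absurd (h1.trans (not_lt.1 b)) a
    · simp [b, d]

/-- decomposition of a sum over the points into sums over the cells -/
lemma rt_sum {ι : Type} [DecidableEq ι] (A : ι → Prop) (S : ℝ → Finset ι) (m t : ι → ℝ)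
    (hS : ∀ x e, e ∈ S x ↔ A e ∧ m e ≤ x) (hm : ∀ e, A e → 0 < m e) (X : ℝ) (hX : 0 < X)
    (a s : ℕ → ℝ) (ha : Monotone a) (ha0 : a 0 = 0) (hs : Monotone s) (f : ι → ℝ) (N J : ℕ)
    (hf : ∀ e, ¬ (s 0 ≤ t e ∧ t e < s J) → f e = 0) :
    ∑ e ∈ S (a N * X), f e = ∑ i ∈ range N, ∑ j ∈ range J,
      ∑ e ∈ (S (a (i + 1) * X) \ S (a i * X)).filter (fun e => s j ≤ t e ∧ t e < s (j + 1)), f e := by
  have h0 : ∑ e ∈ S (a 0 * X), f e = 0 := by
    rw [ha0, zero_mul]
    apply Finset.sum_eq_zero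
    intro e he
    rw [hS] at he
    exact absurd (hm e he.1) (not_lt.2 he.2)
  have h1 := Finset.sum_range_sub (fun i => ∑ e ∈ S (a i * X), f e) N
  rw [h0, sub_zero] at h1
  rw [← h1]
  apply Finset.sum_congr rfl
  intro i _
  rw [← rt_tele _ t s hs f J]
  have hsub : S (a i * X) ⊆ S (a (i + 1) * X) := by
    intro e he
    rw [hS] at he ⊢
    exact ⟨he.1, he.2.trans (mul_le_mul_of_nonneg_right (ha (Nat.le_succ _)) hX.le)⟩
  rw [← Finset.sum_sdiff hsub, add_sub_cancel_right, Finset.sum_filter]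
  apply Finset.sum_congr rfl
  intro e _
  by_cases h : s 0 ≤ t e ∧ t e < s J
  · rw [if_pos h]
  · rw [if_neg h, hf e h]

/-- PROOF. `Ψ` is uniformly continuous and vanishes outside `[0, b] × [-B, B]`. If `b ≤ 0` everything is `0` (`Ψ = 0`; the sum is over terms with `Ψ = 0`). Let `δ = 1/K` mesh:
for `0 ≤ i < ⌈b K⌉`, `- B K ≤ j < B K` the cell `{e : i/K X < m e ≤ (i+1)/K X, j/K ≤ t e < (j+1)/K}` has
`X c / K^2 + o(X)` elements (difference of `hc` at `x = (i+1)/K X` and `x = i/K X`; for `i = 0` use `0 < m e`, i.e. the `S` at `x = 0` is empty). On a cell `Ψ (m e / X) (t e)`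
differs from the value at the corner by at most `η(K) → 0`. So `limsup |sum/X - c ∑ Ψ(corner)/K^2| ≤ C η(K)`, and `∑ Ψ(corner)/K^2` differs from
`∫ y, ∫ u, Ψ y u` by at most `C η(K)` as well. -/
theorem riem2 {ι : Type} (A : ι → Prop) (S : ℝ → Finset ι) (m t : ι → ℝ) (hS : ∀ x e, e ∈ S x ↔ A e ∧ m e ≤ x)
    (hm : ∀ e, A e → 0 < m e) (c : ℝ) (hc0 : 0 ≤ c)
    (hc : ∀ s u : ℝ, s ≤ u →
      Tendsto (fun x : ℝ => (((S x).filter (fun e => s ≤ t e ∧ t e < u)).card : ℝ) / x) atTop (nhds (c * (u - s))))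
    (Ψ : ℝ → ℝ → ℝ) (hΨ : Continuous (Function.uncurry Ψ)) (hcs : HasCompactSupport (Function.uncurry Ψ))
    (hneg : ∀ y u, y ≤ 0 → Ψ y u = 0) (b : ℝ) (hb : ∀ y u, b ≤ y → Ψ y u = 0) :
    Tendsto (fun X : ℝ => (∑ e ∈ S (b * X), Ψ (m e / X) (t e)) / X) atTop (nhds (c * ∫ y, ∫ u, Ψ y u)) := by
  classical
  -- bounds of the support
  obtain ⟨M, hM1, hMb⟩ : ∃ M : ℕ, 1 ≤ M ∧ b ≤ M := by
    obtain ⟨n, hn⟩ := exists_nat_ge b
    exact ⟨n + 1, by omega, hn.trans (by push_cast; linarith)⟩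
  obtain ⟨B, hB1, hB⟩ : ∃ B : ℕ, 1 ≤ B ∧ ∀ y u, Ψ y u ≠ 0 → |u| < B := by
    obtain ⟨R, hR⟩ := hcs.isBounded.subset_closedBall (0 : ℝ × ℝ)
    obtain ⟨n, hn⟩ := exists_nat_gt R
    refine ⟨n + 1, by omega, fun y u h => ?_⟩
    have h1 : (y, u) ∈ tsupport (Function.uncurry Ψ) := subset_tsupport _ (by
      rw [Function.mem_support]
      exact h)
    have h2 := hR h1
    rw [mem_closedBall_zero_iff, Prod.norm_def] at h2
    have h3 : ‖u‖ ≤ R := (le_max_right _ _).trans h2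
    rw [Real.norm_eq_abs] at h3
    push_cast
    linarith
  have hB0 : (0:ℝ) < B := by exact_mod_cast hB1
  have hM0 : (0:ℝ) < M := by exact_mod_cast hM1
  -- the integral over the box
  have hint : (∫ y, ∫ u, Ψ y u) = ∫ y in (0:ℝ)..M, ∫ u in (-B:ℝ)..B, Ψ y u := by
    have h1 : ∀ y, (∫ u, Ψ y u) = ∫ u in (-B:ℝ)..B, Ψ y u := by
      intro y
      symm
      apply intervalIntegral.integral_eq_integral_of_support_subset
      intro u hu
      have := abs_lt.1 (hB y u hu)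
      exact ⟨this.1, this.2.le⟩
    simp_rw [h1]
    symm
    apply intervalIntegral.integral_eq_integral_of_support_subset
    intro y hy
    rw [Function.mem_support] at hy
    constructor
    · by_contra hc
      apply hy
      have : ∀ u, Ψ y u = 0 := fun u => hneg y u (not_lt.1 hc)
      simp [this]
    · by_contra hc
      apply hy
      have : ∀ u, Ψ y u = 0 := fun u => hb y u (hMb.trans (not_le.1 hc).le)
      simp [this]
  rw [Metric.tendsto_atTop']
  intro ε hε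
  -- parameters
  obtain ⟨V, hV⟩ : ∃ V : ℝ, V = M * (2 * B) := ⟨_, rfl⟩
  have hV0 : 0 < V := by rw [hV]; positivity
  obtain ⟨η, hη⟩ : ∃ η : ℝ, η = ε / (4 * ((c + 1) * (V + 1))) := ⟨_, rfl⟩
  have hη0 : 0 < η := by rw [hη]; positivity
  have hηe : η * ((c + 1) * (V + 1)) = ε / 4 := by
    rw [hη]
    field_simp
  have huc : UniformContinuous (Function.uncurry Ψ) := hcs.uniformContinuous_of_continuous hΨ
  obtain ⟨δ, hδ, hδ'⟩ := Metric.uniformContinuous_iff.1 huc η hη0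
  obtain ⟨K, hK⟩ := exists_nat_gt (1 / δ)
  have hK0 : (0:ℝ) < K := lt_trans (by positivity) hK
  have hK0' : 0 < K := by exact_mod_cast hK0
  have hKδ : 1 / (K:ℝ) < δ := by
    rw [div_lt_iff₀ hK0]
    rw [div_lt_iff₀ hδ] at hK
    linarith
  -- the grid
  obtain ⟨a, ha⟩ : ∃ a : ℕ → ℝ, a = fun i : ℕ => (i : ℝ) / K := ⟨_, rfl⟩
  obtain ⟨s, hs⟩ : ∃ s : ℕ → ℝ, s = fun j : ℕ => -(B:ℝ) + (j : ℝ) / K := ⟨_, rfl⟩
  have ham : Monotone a := by
    intro i j hij
    rw [ha]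
    simp only
    gcongr
  have hsm : Monotone s := by
    intro i j hij
    rw [hs]
    simp only
    gcongr
  have ha0 : a 0 = 0 := by rw [ha]; simp
  have ha0' : ∀ i, 0 ≤ a i := fun i => by rw [← ha0]; exact ham (Nat.zero_le _)
  have haN : a (M * K) = M := by
    rw [ha]
    simp only [Nat.cast_mul]
    field_simp
  have hs0 : s 0 = -B := by rw [hs]; simp
  have hsJ : s (2 * B * K) = B := by
    rw [hs]
    simp only [Nat.cast_mul, Nat.cast_ofNat]
    field_simp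
    ring
  have hda : ∀ i, a (i + 1) - a i = 1 / K := fun i => by
    rw [ha]
    simp only [Nat.cast_add, Nat.cast_one]
    ring
  have hds : ∀ i, s (i + 1) - s i = 1 / K := fun i => by
    rw [hs]
    simp only [Nat.cast_add, Nat.cast_one]
    ring
  obtain ⟨C, hC⟩ : ∃ C : ℕ → ℕ → ℝ → Finset ι, C = fun i j X => (S (a (i + 1) * X) \ S (a i * X)).filter
      (fun e => s j ≤ t e ∧ t e < s (j + 1)) := ⟨_, rfl⟩
  have hlim : ∀ i j, Tendsto (fun X : ℝ => ((C i j X).card : ℝ) / X) atTop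
      (nhds (c * (1 / K * (1 / K)))) := by
    intro i j
    have h1 := rt_cell A S m t hS hm c hc (a i) (a (i + 1)) (s j) (s (j + 1)) (ha0' i)
      (ham (Nat.le_succ _)) (hsm (Nat.le_succ _))
    rw [hda, hds] at h1
    rw [hC]
    exact h1
  have hNJ : ∀ w : ℝ, ∑ i ∈ range (M * K), ∑ j ∈ range (2 * B * K), w * (1 / K * (1 / K)) = w * V := by
    intro w
    simp only [Finset.sum_const, Finset.card_range, nsmul_eq_mul, Nat.cast_mul, Nat.cast_ofNat]
    rw [hV]
    field_simp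
  -- variation on a cell
  have hvar : ∀ i j, ∀ y ∈ Set.Icc (a i) (a (i + 1)), ∀ u ∈ Set.Icc (s j) (s (j + 1)),
      |Ψ y u - Ψ (a i) (s j)| ≤ η := by
    intro i j y hy u hu
    have h1 := hda i
    have h2 := hds j
    have h3 : dist (y, u) (a i, s j) < δ := by
      rw [Prod.dist_eq]
      refine max_lt ?_ ?_
      · rw [Real.dist_eq, abs_of_nonneg (sub_nonneg.2 hy.1)]
        linarith only [hy.2, h1, hKδ]
      · rw [Real.dist_eq, abs_of_nonneg (sub_nonneg.2 hu.1)]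
        linarith only [hu.2, h2, hKδ]
    have h4 := hδ' h3
    rw [Real.dist_eq] at h4
    exact h4.le
  -- Riemann sum and integral
  obtain ⟨I, hI⟩ : ∃ I : ℝ, I = ∑ i ∈ range (M * K), ∑ j ∈ range (2 * B * K),
      Ψ (a i) (s j) * (1 / K * (1 / K)) := ⟨_, rfl⟩
  have hint2 : |(∫ y, ∫ u, Ψ y u) - I| ≤ η * V := by
    rw [hint]
    have h1 := rt_split Ψ hΨ (M * K) (2 * B * K) a s
    rw [ha0, haN, hs0, hsJ] at h1
    rw [h1, hI, ← Finset.sum_sub_distrib]
    rw [← hNJ η]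
    refine (Finset.abs_sum_le_sum_abs _ _).trans (Finset.sum_le_sum fun i _ => ?_)
    rw [← Finset.sum_sub_distrib]
    refine (Finset.abs_sum_le_sum_abs _ _).trans (Finset.sum_le_sum fun j _ => ?_)
    have h2 := rt_cellint Ψ hΨ (a i) (a (i + 1)) (s j) (s (j + 1)) (Ψ (a i) (s j)) η
      (ham (Nat.le_succ _)) (hsm (Nat.le_succ _)) (hvar i j)
    rw [hda, hds] at h2
    exact h2
  -- limits of the sums over cells
  have hl1 : Tendsto (fun X : ℝ => ∑ i ∈ range (M * K), ∑ j ∈ range (2 * B * K),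
      ((C i j X).card : ℝ) / X) atTop (nhds (c * V)) := by
    rw [← hNJ c]
    exact tendsto_finset_sum _ fun i _ => tendsto_finset_sum _ fun j _ => hlim i j
  have hl2 : Tendsto (fun X : ℝ => ∑ i ∈ range (M * K), ∑ j ∈ range (2 * B * K),
      Ψ (a i) (s j) * (((C i j X).card : ℝ) / X)) atTop (nhds (c * I)) := by
    have e : c * I = ∑ i ∈ range (M * K), ∑ j ∈ range (2 * B * K),
      Ψ (a i) (s j) * (c * (1 / K * (1 / K))) := by
      rw [hI, Finset.mul_sum]
      apply Finset.sum_congr rfl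
      intro i _
      rw [Finset.mul_sum]
      apply Finset.sum_congr rfl
      intro j _
      ring
    rw [e]
    exact tendsto_finset_sum _ fun i _ => tendsto_finset_sum _ fun j _ => (hlim i j).const_mul _
  have hev1 := hl1.eventually (gt_mem_nhds (show c * V < c * V + 1 by linarith))
  have hev2 := (Metric.tendsto_nhds.1 hl2) (ε / 4) (by linarith)
  obtain ⟨X0, hX0⟩ := ((hev1.and hev2).and (eventually_gt_atTop (0:ℝ))).exists_forall_of_atTop
  refine ⟨X0, fun X hXX => ?_⟩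
  obtain ⟨⟨h1, h2⟩, hX⟩ := hX0 X (le_of_lt hXX)
  -- the sum over the points
  have hsum : ∑ e ∈ S (b * X), Ψ (m e / X) (t e) = ∑ e ∈ S (a (M * K) * X), Ψ (m e / X) (t e) := by
    rw [haN]
    apply Finset.sum_subset
    · intro e he
      rw [hS] at he ⊢
      exact ⟨he.1, he.2.trans (mul_le_mul_of_nonneg_right hMb hX.le)⟩
    · intro e he he'
      rw [hS] at he he'
      apply hb
      rw [le_div_iff₀ hX]
      by_contra hcon
      exact he' ⟨he.1, (not_le.1 hcon).le⟩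
  have hsum2 := rt_sum A S m t hS hm X hX a s ham ha0 hsm (fun e => Ψ (m e / X) (t e)) (M * K)
    (2 * B * K) (by
      intro e he
      by_contra hcon
      have h3 := abs_lt.1 (hB _ _ hcon)
      apply he
      rw [hs0, hsJ]
      exact ⟨h3.1.le, h3.2⟩)
  have hest : |(∑ e ∈ S (b * X), Ψ (m e / X) (t e)) / X - ∑ i ∈ range (M * K),
      ∑ j ∈ range (2 * B * K), Ψ (a i) (s j) * (((C i j X).card : ℝ) / X)| ≤ η * (c * V + 1) := by
    refine le_trans ?_ (mul_le_mul_of_nonneg_left h1.le hη0.le)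
    rw [hsum, hsum2, Finset.sum_div, ← Finset.sum_sub_distrib, Finset.mul_sum]
    refine (Finset.abs_sum_le_sum_abs _ _).trans (Finset.sum_le_sum fun i _ => ?_)
    rw [Finset.sum_div, ← Finset.sum_sub_distrib, Finset.mul_sum]
    refine (Finset.abs_sum_le_sum_abs _ _).trans (Finset.sum_le_sum fun j _ => ?_)
    have h5 : ∑ e ∈ (S (a (i + 1) * X) \ S (a i * X)).filter
        (fun e => s j ≤ t e ∧ t e < s (j + 1)), Ψ (m e / X) (t e) =
        ∑ e ∈ C i j X, Ψ (m e / X) (t e) := by rw [hC]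
    rw [h5]
    have h6 : (∑ e ∈ C i j X, Ψ (m e / X) (t e)) / X - Ψ (a i) (s j) * (((C i j X).card : ℝ) / X) =
        (∑ e ∈ C i j X, (Ψ (m e / X) (t e) - Ψ (a i) (s j))) / X := by
      rw [Finset.sum_sub_distrib, Finset.sum_const, nsmul_eq_mul]
      ring
    rw [h6, abs_div, abs_of_pos hX, ← mul_div_assoc]
    apply div_le_div_of_nonneg_right _ hX.le
    refine (Finset.abs_sum_le_sum_abs _ _).trans ?_
    have h7 : ∀ e ∈ C i j X, |Ψ (m e / X) (t e) - Ψ (a i) (s j)| ≤ η := by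
      intro e he
      rw [hC] at he
      simp only [Finset.mem_filter, Finset.mem_sdiff, hS] at he
      obtain ⟨⟨⟨hA, he1⟩, he2⟩, he3, he4⟩ := he
      apply hvar i j _ _ _ ⟨he3, he4.le⟩
      constructor
      · rw [le_div_iff₀ hX]
        by_contra hcon
        exact he2 ⟨hA, (not_le.1 hcon).le⟩
      · rw [div_le_iff₀ hX]
        exact he1
    calc ∑ e ∈ C i j X, |Ψ (m e / X) (t e) - Ψ (a i) (s j)| ≤ ∑ e ∈ C i j X, η :=
          Finset.sum_le_sum h7
      _ = η * (C i j X).card := by rw [Finset.sum_const, nsmul_eq_mul, mul_comm]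
  rw [Real.dist_eq] at h2 ⊢
  have h8 : |c * I - c * ∫ y, ∫ u, Ψ y u| ≤ c * (η * V) := by
    rw [← mul_sub, abs_mul, abs_of_nonneg hc0, abs_sub_comm]
    exact mul_le_mul_of_nonneg_left hint2 hc0
  have h9 : η * (c * V + 1) ≤ ε / 4 := by
    rw [← hηe]
    apply mul_le_mul_of_nonneg_left _ hη0.le
    have e1 : (c + 1) * (V + 1) = c * V + 1 + c + V := by ring
    rw [e1]
    linarith only [hc0, hV0]
  have h10 : c * (η * V) ≤ ε / 4 := by
    rw [← hηe]
    have e1 : η * ((c + 1) * (V + 1)) = c * (η * V) + c * η + η * V + η := by ring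
    rw [e1]
    linarith only [mul_pos hη0 hV0, mul_nonneg hc0 hη0.le, hη0]
  rw [abs_lt] at h2 ⊢
  rw [abs_le] at hest h8
  constructor
  · linarith only [hest.1, h8.1, h2.1, h9, h10, hε]
  · linarith only [hest.2, h8.2, h2.2, h9, h10, hε]

end Pool.Agent.OmEq

end

/-! ### from `Lib_MP_f1a94e_aq.LocalP` -/

section

/-!
# Piece LOCALP: local density at a prime
-/

set_option autoImplicit false

namespace Pool.Agent.OmAll

open Finset Pool.Agent.GaussMR

section LPaux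

open Classical in
private lemma lp_card (M : ℕ) [NeZero M] (Q : (ZMod M × ZMod M) × (ZMod M × ZMod M) → Prop) :
    ((cls M).filter (fun e => Q (((e.1.re : ZMod M), (e.1.im : ZMod M)), ((e.2.re : ZMod M), (e.2.im : ZMod M))))).card =
      (univ.filter (fun v : (ZMod M × ZMod M) × (ZMod M × ZMod M) =>
        v.1.1 * v.2.2 - v.1.2 * v.2.1 = 1 ∧ Q v)).card := by
  have hM : 0 < M := Nat.pos_of_ne_zero (NeZero.ne M)
  have hb : ∀ a : ZMod M, (0 : ℤ) ≤ (a.val : ℤ) ∧ (a.val : ℤ) < (M : ℤ) := fun a =>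
    ⟨by positivity, by exact_mod_cast a.val_lt⟩
  have hc : ∀ a : ZMod M, (((a.val : ℤ)) : ZMod M) = a := fun a => by
    rw [Int.cast_natCast, ZMod.natCast_zmod_val]
  have hv : ∀ x : ℤ, 0 ≤ x → x < M → (((x : ZMod M).val : ℕ) : ℤ) = x := fun x h0 h1 => by
    rw [ZMod.val_intCast, Int.emod_eq_of_lt h0 h1]
  refine Finset.card_nbij' (fun e => (((e.1.re : ZMod M), (e.1.im : ZMod M)), ((e.2.re : ZMod M), (e.2.im : ZMod M))))
    (fun v => ((⟨(v.1.1.val : ℤ), (v.1.2.val : ℤ)⟩ : G), (⟨(v.2.1.val : ℤ), (v.2.2.val : ℤ)⟩ : G))) ?_ ?_ ?_ ?_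
  · intro e he
    simp only [coe_filter, Set.mem_ofPred_eq, mem_univ, true_and] at he ⊢
    refine ⟨?_, he.2⟩
    have h := (mem_cls.1 he.1).2.2.2.2
    have h2 := (ZMod.intCast_zmod_eq_zero_iff_dvd _ M).2 h
    unfold det at h2
    push_cast at h2
    linear_combination h2
  · intro v hv'
    simp only [coe_filter, Set.mem_ofPred_eq, mem_univ, true_and] at hv' ⊢
    refine ⟨?_, ?_⟩
    · rw [mem_cls]
      refine ⟨hb _, hb _, hb _, hb _, ?_⟩
      rw [← ZMod.intCast_zmod_eq_zero_iff_dvd]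
      unfold det
      push_cast
      simp only [ZMod.natCast_zmod_val]
      linear_combination hv'.1
    · simp only [hc]
      exact hv'.2
  · intro e he
    simp only [coe_filter, Set.mem_ofPred_eq] at he
    obtain ⟨h1, h2, h3, h4, -⟩ := mem_cls.1 he.1
    refine Prod.ext (Zsqrtd.ext ?_ ?_) (Zsqrtd.ext ?_ ?_)
    · exact hv _ h1.1 h1.2
    · exact hv _ h2.1 h2.2
    · exact hv _ h3.1 h3.2
    · exact hv _ h4.1 h4.2
  · intro v _
    simp only [hc]


private lemma lp_nu {p : ℕ} (hp : p.Prime) (a : ZMod (p ^ 2)) : ¬ IsUnit a ↔ (p : ZMod (p ^ 2)) * a = 0 := by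
  have : NeZero (p ^ 2) := ⟨pow_ne_zero 2 hp.ne_zero⟩
  have h : ∀ n : ℕ, p ∣ n ↔ p ^ 2 ∣ p * n := fun n => by
    rw [pow_two]
    exact (Nat.mul_dvd_mul_iff_left hp.pos).symm
  rw [← ZMod.natCast_zmod_val a, ZMod.isUnit_natCast_iff_not_dvd_pow hp (by norm_num : 0 < 2), not_not,
    ← Nat.cast_mul, ZMod.natCast_eq_zero_iff]
  exact h _

private lemma lp_nu' {p : ℕ} (hp : p.Prime) {a : ZMod (p ^ 2)} (ha : ¬ IsUnit a) :
    ∃ b : ZMod (p ^ 2), a = ((p : ℕ) : ZMod (p ^ 2)) * b := by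
  have : NeZero (p ^ 2) := ⟨pow_ne_zero 2 hp.ne_zero⟩
  rw [← ZMod.natCast_zmod_val a, ZMod.isUnit_natCast_iff_not_dvd_pow hp (by norm_num : 0 < 2), not_not] at ha
  obtain ⟨k, hk⟩ := ha
  exact ⟨k, by rw [← ZMod.natCast_zmod_val a, hk]; push_cast; ring⟩

private lemma lp_mul {p : ℕ} (hp : p.Prime) {a b : ZMod (p ^ 2)} (ha : ¬ IsUnit a) (hb : ¬ IsUnit b) :
    a * b = 0 := by
  obtain ⟨c, rfl⟩ := lp_nu' hp ha
  have h := (lp_nu hp b).1 hb
  linear_combination c * h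

private lemma lp_pne {p : ℕ} (hp : p.Prime) : (p : ZMod (p ^ 2)) ≠ 0 := by
  intro h
  rw [ZMod.natCast_eq_zero_iff] at h
  have h1 := Nat.le_of_dvd hp.pos h
  have h2 := hp.two_le
  nlinarith

open Classical in
private lemma lp_cardU {p : ℕ} (hp : p.Prime) [NeZero (p ^ 2)] :
    (univ.filter (fun a : ZMod (p ^ 2) => IsUnit a)).card = p * (p - 1) := by
  have h : univ.filter (fun a : ZMod (p ^ 2) => IsUnit a) =
      (univ : Finset (ZMod (p ^ 2))ˣ).image Units.val := by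
    ext a
    simp only [mem_filter, mem_univ, true_and, mem_image]
    rfl
  rw [h, card_image_of_injective _ Units.val_injective, card_univ, ZMod.card_units_eq_totient,
    Nat.totient_prime_pow_succ hp 1]
  ring

open Classical in
private lemma lp_cardNU {p : ℕ} (hp : p.Prime) [NeZero (p ^ 2)] :
    (univ.filter (fun a : ZMod (p ^ 2) => ¬ IsUnit a)).card = p := by
  have h := Finset.card_filter_add_card_filter_not (s := (univ : Finset (ZMod (p ^ 2))))
    (fun a : ZMod (p ^ 2) => IsUnit a)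
  rw [lp_cardU hp, card_univ, ZMod.card] at h
  obtain ⟨q, rfl⟩ : ∃ q, p = q + 1 := ⟨p - 1, by have := hp.pos; omega⟩
  simp only [Nat.add_sub_cancel] at h
  nlinarith

open Classical in
private lemma lp_cardN0 {p : ℕ} (hp : p.Prime) [NeZero (p ^ 2)] :
    (univ.filter (fun a : ZMod (p ^ 2) => ¬ IsUnit a ∧ a ≠ 0)).card = p - 1 := by
  have h : univ.filter (fun a : ZMod (p ^ 2) => ¬ IsUnit a ∧ a ≠ 0) =
      (univ.filter (fun a : ZMod (p ^ 2) => ¬ IsUnit a)).erase 0 := by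
    ext a
    simp only [mem_filter, mem_univ, true_and, mem_erase]
    tauto
  rw [h, card_erase_of_mem, lp_cardNU hp]
  simp only [mem_filter, mem_univ, true_and]
  rw [lp_nu hp]
  simp

open Classical in
private lemma lp_total {p : ℕ} (hp : p.Prime) [NeZero (p ^ 2)] :
    (univ.filter (fun v : (ZMod (p ^ 2) × ZMod (p ^ 2)) × (ZMod (p ^ 2) × ZMod (p ^ 2)) =>
        v.1.1 * v.2.2 - v.1.2 * v.2.1 = 1)).card = p ^ 4 * (p ^ 2 - 1) := by
  rw [← Finset.card_filter_add_card_filter_not (fun v : (ZMod (p ^ 2) × ZMod (p ^ 2)) × (ZMod (p ^ 2) × ZMod (p ^ 2)) =>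
    IsUnit v.1.1)]
  have h1 : (((univ.filter (fun v : (ZMod (p ^ 2) × ZMod (p ^ 2)) × (ZMod (p ^ 2) × ZMod (p ^ 2)) =>
        v.1.1 * v.2.2 - v.1.2 * v.2.1 = 1))).filter (fun v => IsUnit v.1.1)).card =
      ((univ.filter (fun a : ZMod (p ^ 2) => IsUnit a)) ×ˢ
        ((univ : Finset (ZMod (p ^ 2))) ×ˢ (univ : Finset (ZMod (p ^ 2))))).card := by
    refine Finset.card_nbij' (fun v => (v.1.1, (v.1.2, v.2.1)))
      (fun u => ((u.1, u.2.1), (u.2.2, u.1⁻¹ * (1 + u.2.1 * u.2.2)))) ?_ ?_ ?_ ?_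
    · intro v hv
      simp only [coe_filter, Set.mem_ofPred_eq, mem_univ, true_and, mem_filter, coe_product, Set.mem_prod,
        coe_univ, Set.mem_univ, and_true] at hv ⊢
      exact hv.2
    · intro u hu
      simp only [coe_filter, Set.mem_ofPred_eq, mem_univ, true_and, mem_filter, coe_product, Set.mem_prod,
        coe_univ, Set.mem_univ, and_true] at hu ⊢
      refine ⟨?_, hu⟩
      have h := ZMod.mul_inv_of_unit _ hu
      linear_combination (1 + u.2.1 * u.2.2) * h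
    · intro v hv
      simp only [coe_filter, Set.mem_ofPred_eq, mem_univ, true_and, mem_filter] at hv
      have h := ZMod.inv_mul_of_unit _ hv.2
      have h2 : v.1.1⁻¹ * (1 + v.1.2 * v.2.1) = v.2.2 := by
        linear_combination v.2.2 * h - v.1.1⁻¹ * hv.1
      simp only [h2]
    · intro u _
      rfl
  have h2 : (((univ.filter (fun v : (ZMod (p ^ 2) × ZMod (p ^ 2)) × (ZMod (p ^ 2) × ZMod (p ^ 2)) =>
        v.1.1 * v.2.2 - v.1.2 * v.2.1 = 1))).filter (fun v => ¬ IsUnit v.1.1)).card =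
      ((univ.filter (fun a : ZMod (p ^ 2) => ¬ IsUnit a)) ×ˢ
        ((univ.filter (fun a : ZMod (p ^ 2) => IsUnit a)) ×ˢ (univ : Finset (ZMod (p ^ 2))))).card := by
    refine Finset.card_nbij' (fun v => (v.1.1, (v.1.2, v.2.2)))
      (fun u => ((u.1, u.2.1), (u.2.1⁻¹ * (u.1 * u.2.2 - 1), u.2.2))) ?_ ?_ ?_ ?_
    · intro v hv
      simp only [coe_filter, Set.mem_ofPred_eq, mem_univ, true_and, mem_filter, coe_product, Set.mem_prod,
        coe_univ, Set.mem_univ, and_true] at hv ⊢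
      refine ⟨hv.2, ?_⟩
      by_contra hy
      have e1 := (lp_nu hp _).1 hv.2
      have e2 := (lp_nu hp _).1 hy
      apply lp_pne hp
      linear_combination v.2.2 * e1 - v.2.1 * e2 - (p : ZMod (p ^ 2)) * hv.1
    · intro u hu
      simp only [coe_filter, Set.mem_ofPred_eq, mem_univ, true_and, mem_filter, coe_product, Set.mem_prod,
        coe_univ, Set.mem_univ, and_true] at hu ⊢
      refine ⟨?_, hu.1⟩
      have h := ZMod.mul_inv_of_unit _ hu.2
      linear_combination (-(u.1 * u.2.2 - 1)) * h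
    · intro v hv
      simp only [coe_filter, Set.mem_ofPred_eq, mem_univ, true_and, mem_filter] at hv
      have hy : IsUnit v.1.2 := by
        by_contra hy
        have e1 := (lp_nu hp _).1 hv.2
        have e2 := (lp_nu hp _).1 hy
        apply lp_pne hp
        linear_combination v.2.2 * e1 - v.2.1 * e2 - (p : ZMod (p ^ 2)) * hv.1
      have h := ZMod.inv_mul_of_unit _ hy
      have h2 : v.1.2⁻¹ * (v.1.1 * v.2.2 - 1) = v.2.1 := by
        linear_combination v.2.1 * h + v.1.2⁻¹ * hv.1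
      simp only [h2]
    · intro u _
      rfl
  rw [h1, h2, card_product, card_product, card_product, card_product, lp_cardU hp, lp_cardNU hp, card_univ, ZMod.card]
  obtain ⟨q, rfl⟩ : ∃ q, p = q + 1 := ⟨p - 1, by have := hp.pos; omega⟩
  have h3 : (q + 1) ^ 2 - 1 = q * (q + 2) := by
    have : (q + 1) ^ 2 = q * (q + 2) + 1 := by ring
    omega
  rw [h3]
  simp only [Nat.add_sub_cancel]
  ring


/-- a square root of `-1` modulo `p ^ 2` -/
private lemma lp_iota {p : ℕ} (hp : p.Prime) (h4 : p % 4 = 1) :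
    ∃ ι : ZMod (p ^ 2), ι ^ 2 = -1 := by
  have : Fact p.Prime := ⟨hp⟩
  obtain ⟨y, hy⟩ := (ZMod.exists_sq_eq_neg_one_iff (p := p)).2 (by omega)
  have h1 : ((p : ℕ) : ℤ) ∣ ((y.val : ℤ) ^ 2) - (-1) := by
    rw [← ZMod.intCast_zmod_eq_zero_iff_dvd]
    push_cast
    rw [ZMod.natCast_zmod_val]
    linear_combination (-1 : ZMod p) * hy
  have h2 := dvd_sub_pow_of_dvd_sub h1 1
  refine ⟨((((y.val : ℤ)) ^ p : ℤ) : ZMod (p ^ 2)), ?_⟩
  have hodd : Odd p := hp.odd_of_ne_two (by rintro rfl; omega)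
  rw [pow_one, hodd.neg_one_pow] at h2
  have h3 : (((p ^ 2 : ℕ)) : ℤ) ∣ ((y.val : ℤ) ^ 2) ^ p - -1 := by
    push_cast
    exact h2
  rw [← ZMod.intCast_zmod_eq_zero_iff_dvd] at h3
  push_cast at h3 ⊢
  rw [← pow_mul, mul_comm p 2, pow_mul]
  linear_combination h3

open Classical in
private lemma lp_rs {p : ℕ} (hp : p.Prime) [NeZero (p ^ 2)] (c : ZMod (p ^ 2)) (hc : IsUnit c) :
    (univ.filter (fun u : (ZMod (p ^ 2) × ZMod (p ^ 2)) × (ZMod (p ^ 2) × ZMod (p ^ 2)) =>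
        u.1.1 * u.2.2 - u.1.2 * u.2.1 = c ∧ ¬ IsUnit (u.1.1 * u.1.2) ∧
          (u.1.1 * u.1.2) * (u.2.1 * u.2.2) ≠ 0)).card = 2 * p ^ 2 * (p - 1) ^ 3 := by
  rw [← Finset.card_filter_add_card_filter_not (fun v : (ZMod (p ^ 2) × ZMod (p ^ 2)) × (ZMod (p ^ 2) × ZMod (p ^ 2)) =>
    IsUnit v.1.2)]
  have hpc : (p : ZMod (p ^ 2)) * c ≠ 0 := fun h => (lp_nu hp c).2 h hc
  have h1 : (((univ.filter (fun u : (ZMod (p ^ 2) × ZMod (p ^ 2)) × (ZMod (p ^ 2) × ZMod (p ^ 2)) =>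
        u.1.1 * u.2.2 - u.1.2 * u.2.1 = c ∧ ¬ IsUnit (u.1.1 * u.1.2) ∧
          (u.1.1 * u.1.2) * (u.2.1 * u.2.2) ≠ 0))).filter (fun v => IsUnit v.1.2)).card =
      ((univ.filter (fun a : ZMod (p ^ 2) => ¬ IsUnit a ∧ a ≠ 0)) ×ˢ
        ((univ.filter (fun a : ZMod (p ^ 2) => IsUnit a)) ×ˢ (univ.filter (fun a : ZMod (p ^ 2) => IsUnit a)))).card := by
    refine Finset.card_nbij' (fun v => (v.1.1, (v.1.2, v.2.2)))
      (fun u => ((u.1, u.2.1), (u.2.1⁻¹ * (u.1 * u.2.2 - c), u.2.2))) ?_ ?_ ?_ ?_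
    · intro v hv
      simp only [coe_filter, Set.mem_ofPred_eq, mem_univ, true_and, mem_filter, coe_product, Set.mem_prod] at hv ⊢
      obtain ⟨⟨h1, h2, h3⟩, h4⟩ := hv
      have h5 : ¬ IsUnit v.1.1 := fun h => h2 (h.mul h4)
      refine ⟨⟨h5, ?_⟩, h4, ?_⟩
      · intro h0
        apply h3
        rw [h0]
        ring
      · by_contra h6
        apply h3
        have := lp_mul hp h5 h6
        linear_combination v.1.2 * v.2.1 * this
    · intro u hu
      simp only [coe_filter, Set.mem_ofPred_eq, mem_univ, true_and, mem_filter, coe_product, Set.mem_prod] at hu ⊢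
      obtain ⟨⟨h1, h2⟩, h3, h4⟩ := hu
      have h := ZMod.mul_inv_of_unit _ h3
      have h' := ZMod.inv_mul_of_unit _ h3
      have hρ : IsUnit (u.2.1⁻¹ * (u.1 * u.2.2 - c)) := by
        by_contra h6
        have h7 := (lp_nu hp _).1 h6
        have h8 := (lp_nu hp _).1 h1
        apply hpc
        linear_combination u.2.2 * h8 - u.2.1 * h7 + p * (u.1 * u.2.2 - c) * h
      refine ⟨⟨?_, ?_, ?_⟩, h3⟩
      · linear_combination (-(u.1 * u.2.2 - c)) * h
      · intro h6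
        exact h1 (isUnit_of_mul_isUnit_left h6)
      · intro h6
        have h7 : IsUnit (u.2.1 * (u.2.1⁻¹ * (u.1 * u.2.2 - c) * u.2.2)) := h3.mul (hρ.mul h4)
        apply h2
        rw [← h7.mul_left_inj, zero_mul, ← h6]
        ring
    · intro v hv
      simp only [coe_filter, Set.mem_ofPred_eq, mem_univ, true_and, mem_filter] at hv
      have h := ZMod.inv_mul_of_unit _ hv.2
      have h2 : v.1.2⁻¹ * (v.1.1 * v.2.2 - c) = v.2.1 := by
        linear_combination v.2.1 * h + v.1.2⁻¹ * hv.1.1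
      simp only [h2]
    · intro u _
      rfl
  have h2 : (((univ.filter (fun u : (ZMod (p ^ 2) × ZMod (p ^ 2)) × (ZMod (p ^ 2) × ZMod (p ^ 2)) =>
        u.1.1 * u.2.2 - u.1.2 * u.2.1 = c ∧ ¬ IsUnit (u.1.1 * u.1.2) ∧
          (u.1.1 * u.1.2) * (u.2.1 * u.2.2) ≠ 0))).filter (fun v => ¬ IsUnit v.1.2)).card =
      ((univ.filter (fun a : ZMod (p ^ 2) => ¬ IsUnit a ∧ a ≠ 0)) ×ˢ
        ((univ.filter (fun a : ZMod (p ^ 2) => IsUnit a)) ×ˢ (univ.filter (fun a : ZMod (p ^ 2) => IsUnit a)))).card := by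
    refine Finset.card_nbij' (fun v => (v.1.2, (v.1.1, v.2.1)))
      (fun u => ((u.2.1, u.1), (u.2.2, u.2.1⁻¹ * (u.1 * u.2.2 + c)))) ?_ ?_ ?_ ?_
    · intro v hv
      simp only [coe_filter, Set.mem_ofPred_eq, mem_univ, true_and, mem_filter, coe_product, Set.mem_prod] at hv ⊢
      obtain ⟨⟨h1, h2, h3⟩, h4⟩ := hv
      refine ⟨⟨h4, ?_⟩, ?_, ?_⟩
      · intro h0
        apply h3
        rw [h0]
        ring
      · by_contra h6
        apply h3
        have := lp_mul hp h4 h6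
        linear_combination v.2.1 * v.2.2 * this
      · by_contra h6
        apply h3
        have := lp_mul hp h4 h6
        linear_combination v.1.1 * v.2.2 * this
    · intro u hu
      simp only [coe_filter, Set.mem_ofPred_eq, mem_univ, true_and, mem_filter, coe_product, Set.mem_prod] at hu ⊢
      obtain ⟨⟨h1, h2⟩, h3, h4⟩ := hu
      have h := ZMod.mul_inv_of_unit _ h3
      have h' := ZMod.inv_mul_of_unit _ h3
      have hρ : IsUnit (u.2.1⁻¹ * (u.1 * u.2.2 + c)) := by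
        by_contra h6
        have h7 := (lp_nu hp _).1 h6
        have h8 := (lp_nu hp _).1 h1
        apply hpc
        linear_combination (-u.2.2) * h8 + u.2.1 * h7 - p * (u.1 * u.2.2 + c) * h
      refine ⟨⟨?_, ?_, ?_⟩, h1⟩
      · linear_combination (u.1 * u.2.2 + c) * h
      · intro h6
        exact h1 (isUnit_of_mul_isUnit_right h6)
      · intro h6
        have h7 : IsUnit (u.2.1 * (u.2.1⁻¹ * (u.1 * u.2.2 + c) * u.2.2)) := h3.mul (hρ.mul h4)
        apply h2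
        rw [← h7.mul_left_inj, zero_mul, ← h6]
        ring
    · intro v hv
      simp only [coe_filter, Set.mem_ofPred_eq, mem_univ, true_and, mem_filter] at hv
      obtain ⟨⟨h1, h2, h3⟩, h4⟩ := hv
      have h5 : IsUnit v.1.1 := by
        by_contra h6
        apply h3
        have := lp_mul hp h4 h6
        linear_combination v.2.1 * v.2.2 * this
      have h := ZMod.inv_mul_of_unit _ h5
      have h2 : v.1.1⁻¹ * (v.1.2 * v.2.1 + c) = v.2.2 := by
        linear_combination v.2.2 * h - v.1.1⁻¹ * h1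
      simp only [h2]
    · intro u _
      rfl
  rw [h1, h2, card_product, card_product, lp_cardU hp, lp_cardN0 hp]
  ring

open Classical in
private lemma lp_xy {p : ℕ} (hp : p.Prime) (h4 : p % 4 = 1) [NeZero (p ^ 2)] :
    (univ.filter (fun v : (ZMod (p ^ 2) × ZMod (p ^ 2)) × (ZMod (p ^ 2) × ZMod (p ^ 2)) =>
        v.1.1 * v.2.2 - v.1.2 * v.2.1 = 1 ∧ (¬ IsUnit (v.1.1 ^ 2 + v.1.2 ^ 2) ∧
          (v.1.1 ^ 2 + v.1.2 ^ 2) * (v.2.1 ^ 2 + v.2.2 ^ 2) ≠ 0))).card = 2 * p ^ 2 * (p - 1) ^ 3 := by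
  obtain ⟨ι, hι⟩ := lp_iota hp h4
  have h2u : IsUnit (2 : ZMod (p ^ 2)) := by
    have h := (ZMod.isUnit_natCast_iff_not_dvd_pow (a := 2) hp (by norm_num : 0 < 2)).2
      (fun h => by
        have h5 := Nat.le_of_dvd (by norm_num) h
        have h6 := hp.two_le
        omega)
    exact_mod_cast h
  have hιu : IsUnit ι := IsUnit.of_mul_eq_one (-ι) (by linear_combination (-1 : ZMod (p ^ 2)) * hι)
  obtain ⟨h, hh⟩ : ∃ h : ZMod (p ^ 2), 2 * h = 1 := h2u.exists_right_inv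
  rw [← lp_rs hp (-(2 * ι)) (h2u.mul hιu).neg]
  refine Finset.card_nbij' (fun v => ((v.1.1 + ι * v.1.2, v.1.1 - ι * v.1.2), (v.2.1 + ι * v.2.2, v.2.1 - ι * v.2.2)))
    (fun u => ((h * (u.1.1 + u.1.2), -ι * h * (u.1.1 - u.1.2)), (h * (u.2.1 + u.2.2), -ι * h * (u.2.1 - u.2.2)))) ?_ ?_ ?_ ?_
  · intro v hv
    simp only [coe_filter, Set.mem_ofPred_eq, mem_univ, true_and] at hv ⊢
    have e1 : (v.1.1 + ι * v.1.2) * (v.1.1 - ι * v.1.2) = v.1.1 ^ 2 + v.1.2 ^ 2 := by
      linear_combination (-v.1.2 ^ 2) * hι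
    have e2 : (v.2.1 + ι * v.2.2) * (v.2.1 - ι * v.2.2) = v.2.1 ^ 2 + v.2.2 ^ 2 := by
      linear_combination (-v.2.2 ^ 2) * hι
    rw [e1, e2]
    refine ⟨?_, hv.2⟩
    linear_combination (-(2 * ι)) * hv.1
  · intro u hu
    simp only [coe_filter, Set.mem_ofPred_eq, mem_univ, true_and] at hu ⊢
    have e1 : (h * (u.1.1 + u.1.2)) ^ 2 + (-ι * h * (u.1.1 - u.1.2)) ^ 2 = u.1.1 * u.1.2 := by
      linear_combination (h ^ 2 * (u.1.1 - u.1.2) ^ 2) * hι + (u.1.1 * u.1.2 * (2 * h + 1)) * hh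
    have e2 : (h * (u.2.1 + u.2.2)) ^ 2 + (-ι * h * (u.2.1 - u.2.2)) ^ 2 = u.2.1 * u.2.2 := by
      linear_combination (h ^ 2 * (u.2.1 - u.2.2) ^ 2) * hι + (u.2.1 * u.2.2 * (2 * h + 1)) * hh
    rw [e1, e2]
    refine ⟨?_, hu.2⟩
    linear_combination (2 * ι * h ^ 2) * hu.1 - (4 * h ^ 2) * hι + (2 * h + 1) * hh
  · intro v _
    refine Prod.ext (Prod.ext ?_ ?_) (Prod.ext ?_ ?_)
    · show h * ((v.1.1 + ι * v.1.2) + (v.1.1 - ι * v.1.2)) = v.1.1
      linear_combination v.1.1 * hh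
    · show -ι * h * ((v.1.1 + ι * v.1.2) - (v.1.1 - ι * v.1.2)) = v.1.2
      linear_combination (-(2 * h * v.1.2)) * hι + v.1.2 * hh
    · show h * ((v.2.1 + ι * v.2.2) + (v.2.1 - ι * v.2.2)) = v.2.1
      linear_combination v.2.1 * hh
    · show -ι * h * ((v.2.1 + ι * v.2.2) - (v.2.1 - ι * v.2.2)) = v.2.2
      linear_combination (-(2 * h * v.2.2)) * hι + v.2.2 * hh
  · intro u _
    refine Prod.ext (Prod.ext ?_ ?_) (Prod.ext ?_ ?_)
    · show h * (u.1.1 + u.1.2) + ι * (-ι * h * (u.1.1 - u.1.2)) = u.1.1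
      linear_combination (-(h * (u.1.1 - u.1.2))) * hι + u.1.1 * hh
    · show h * (u.1.1 + u.1.2) - ι * (-ι * h * (u.1.1 - u.1.2)) = u.1.2
      linear_combination (h * (u.1.1 - u.1.2)) * hι + u.1.2 * hh
    · show h * (u.2.1 + u.2.2) + ι * (-ι * h * (u.2.1 - u.2.2)) = u.2.1
      linear_combination (-(h * (u.2.1 - u.2.2))) * hι + u.2.1 * hh
    · show h * (u.2.1 + u.2.2) - ι * (-ι * h * (u.2.1 - u.2.2)) = u.2.2
      linear_combination (h * (u.2.1 - u.2.2)) * hι + u.2.2 * hh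

open Classical in
private lemma lp_xy' {p : ℕ} (hp : p.Prime) (h4 : p % 4 = 1) [NeZero (p ^ 2)] :
    (univ.filter (fun v : (ZMod (p ^ 2) × ZMod (p ^ 2)) × (ZMod (p ^ 2) × ZMod (p ^ 2)) =>
        v.1.1 * v.2.2 - v.1.2 * v.2.1 = 1 ∧ (¬ IsUnit (v.2.1 ^ 2 + v.2.2 ^ 2) ∧
          (v.1.1 ^ 2 + v.1.2 ^ 2) * (v.2.1 ^ 2 + v.2.2 ^ 2) ≠ 0))).card = 2 * p ^ 2 * (p - 1) ^ 3 := by
  rw [← lp_xy hp h4]
  refine Finset.card_nbij' (fun v => (v.2, (-v.1.1, -v.1.2))) (fun v => ((-v.2.1, -v.2.2), v.1)) ?_ ?_ ?_ ?_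
  · intro v hv
    simp only [coe_filter, Set.mem_ofPred_eq, mem_univ, true_and] at hv ⊢
    obtain ⟨h1, h2, h3⟩ := hv
    refine ⟨by linear_combination h1, h2, ?_⟩
    intro h
    apply h3
    linear_combination h
  · intro v hv
    simp only [coe_filter, Set.mem_ofPred_eq, mem_univ, true_and] at hv ⊢
    obtain ⟨h1, h2, h3⟩ := hv
    refine ⟨by linear_combination h1, h2, ?_⟩
    intro h
    apply h3
    linear_combination h
  · intro v _
    simp
  · intro v _
    simp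

private lemma lp_cast {p : ℕ} (z : G) : ((nm z : ℕ) : ZMod (p ^ 2)) = (z.re : ZMod (p ^ 2)) ^ 2 + (z.im : ZMod (p ^ 2)) ^ 2 := by
  have h := nm_eq z
  have h2 : (((nm z : ℕ) : ℤ) : ZMod (p ^ 2)) = ((z.re ^ 2 + z.im ^ 2 : ℤ) : ZMod (p ^ 2)) := by rw [h]
  push_cast at h2
  exact h2

end LPaux

open Classical in
/-- For `V` primitive modulo `p` the `V'` modulo `p^2` with `det V V' = 1` form a coset `V'_0 + k V`, `k` mod `p^2`, so `#cls (p^2) = p^2 (p^4 - p^2)`. Let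
`ι^2 = -1` mod `p^2` (`p = 1 mod 4`). The number of primitive `V = (x, y)` mod `p^2` with `p ∣ x^2 + y^2`, `p^2 ∤ x^2 + y^2`: `x` a unit
(`p (p - 1)` choices), `y = ± ι x + p w`, `w` mod `p`, `w ≠ 0` (`x^2 + y^2 = ± 2 ι x p w` mod `p^2`): `2 (p - 1)` choices; total `2 p (p - 1)^2`. For such `V`,
`nm (V'_0 + k V) = nm V'_0 + 2 k dot V'_0 V` mod `p`, and `dot V'_0 V ^ 2 = -1` mod `p` (`dot^2 + det^2 = nm nm`), so `p ∤ nm V'` for `p^2 - p` of the `k`. Together
`2 p^3 (p - 1)^3`... i.e. `2 p (p-1)^2 * p (p - 1) = 2 p^2 (p - 1)^3`. The second statement follows from the first by the bijection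
`(V, V') ↦ (V', - V)` modulo `p^2`. (An alternative: coordinates `r = x + ι y`, `s = x - ι y`, in which `nm = r s`.) -/
theorem cls_p2 (p : ℕ) (hp : p.Prime) (h4 : p % 4 = 1) : (cls (p ^ 2)).card = p ^ 4 * (p ^ 2 - 1) ∧
    ((cls (p ^ 2)).filter (fun e => p ∣ nm e.1 ∧ ¬ p ^ 2 ∣ nm e.1 * nm e.2)).card = 2 * p ^ 2 * (p - 1) ^ 3 ∧
    ((cls (p ^ 2)).filter (fun e => p ∣ nm e.2 ∧ ¬ p ^ 2 ∣ nm e.1 * nm e.2)).card = 2 * p ^ 2 * (p - 1) ^ 3 := by
  have : NeZero (p ^ 2) := ⟨pow_ne_zero 2 hp.ne_zero⟩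
  have hd : ∀ z : G, p ∣ nm z ↔ ¬ IsUnit ((z.re : ZMod (p ^ 2)) ^ 2 + (z.im : ZMod (p ^ 2)) ^ 2) := fun z => by
    rw [← lp_cast, ZMod.isUnit_natCast_iff_not_dvd_pow hp (by norm_num : 0 < 2), not_not]
  have hd2 : ∀ z w : G, p ^ 2 ∣ nm z * nm w ↔ ((z.re : ZMod (p ^ 2)) ^ 2 + (z.im : ZMod (p ^ 2)) ^ 2) *
      ((w.re : ZMod (p ^ 2)) ^ 2 + (w.im : ZMod (p ^ 2)) ^ 2) = 0 := fun z w => by
    rw [← lp_cast, ← lp_cast, ← Nat.cast_mul, ZMod.natCast_eq_zero_iff]
  refine ⟨?_, ?_, ?_⟩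
  · have h := lp_card (p ^ 2) (fun _ => True)
    simp only [and_true, filter_true] at h
    rw [h, lp_total hp]
  · have h := (lp_card (p ^ 2) (fun v => ¬ IsUnit (v.1.1 ^ 2 + v.1.2 ^ 2) ∧
      (v.1.1 ^ 2 + v.1.2 ^ 2) * (v.2.1 ^ 2 + v.2.2 ^ 2) ≠ 0)).trans (Eq.trans (by congr) (lp_xy hp h4))
    rw [← h]
    refine congrArg Finset.card ?_
    ext e
    simp only [mem_filter, hd, hd2, ne_eq]
  · have h := (lp_card (p ^ 2) (fun v => ¬ IsUnit (v.2.1 ^ 2 + v.2.2 ^ 2) ∧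
      (v.1.1 ^ 2 + v.1.2 ^ 2) * (v.2.1 ^ 2 + v.2.2 ^ 2) ≠ 0)).trans (Eq.trans (by congr) (lp_xy' hp h4))
    rw [← h]
    refine congrArg Finset.card ?_
    ext e
    simp only [mem_filter, hd, hd2, ne_eq]

end Pool.Agent.OmAll

end

/-! ### from `Lib_MP_f1a94e_aq.LocalB` -/

section

/-!
# Piece LOCALB: product formula for the local densities
-/

set_option autoImplicit false

namespace Pool.Agent.OmAll

open Finset Pool.Agent.GaussMR

namespace LocalBP

theorem cg_nm {M : ℕ} {u v : G} (h : cg M u v) : (M : ℤ) ∣ (nm u : ℤ) - nm v := by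
  obtain ⟨⟨a, ha⟩, ⟨b, hb⟩⟩ := h
  rw [nm_eq, nm_eq]
  refine ⟨a * (u.re + v.re) + b * (u.im + v.im), ?_⟩
  linear_combination (u.re + v.re) * ha + (u.im + v.im) * hb

theorem dvd_iff {q M : ℕ} (hq : q ∣ M) {u v : G} (h : cg M u v) : q ∣ nm u ↔ q ∣ nm v := by
  have h1 : (q : ℤ) ∣ (nm u : ℤ) - nm v := (Int.natCast_dvd_natCast.2 hq).trans (cg_nm h)
  rw [← Int.natCast_dvd_natCast, ← Int.natCast_dvd_natCast (m := q) (n := nm v)]
  exact dvd_iff_dvd_of_dvd_sub h1

theorem dvd_mul_iff {q M : ℕ} (hq : q ∣ M) {e f : G × G} (h : cg M e.1 f.1) (h' : cg M e.2 f.2) :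
    q ∣ nm e.1 * nm e.2 ↔ q ∣ nm f.1 * nm f.2 := by
  obtain ⟨a, ha⟩ := cg_nm h
  obtain ⟨b, hb⟩ := cg_nm h'
  have h1 : (q : ℤ) ∣ ((nm e.1 * nm e.2 : ℕ) : ℤ) - ((nm f.1 * nm f.2 : ℕ) : ℤ) := by
    refine (Int.natCast_dvd_natCast.2 hq).trans ⟨a * nm e.2 + b * nm f.1, ?_⟩
    push_cast
    linear_combination (nm e.2 : ℤ) * ha + (nm f.1 : ℤ) * hb
  rw [← Int.natCast_dvd_natCast, ← Int.natCast_dvd_natCast (m := q) (n := nm f.1 * nm f.2)]
  exact dvd_iff_dvd_of_dvd_sub h1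

theorem odd_iff {M : ℕ} (hM : 2 ∣ M) {u v : G} (h : cg M u v) : Odd (nm u) ↔ Odd (nm v) := by
  rw [← Nat.not_even_iff_odd, ← Nat.not_even_iff_odd, even_iff_two_dvd, even_iff_two_dvd,
    dvd_iff hM h]

/-- the conditions at the primes of `P`; `σ p` tells which of the two norms is divisible by `p` -/
def QQ (σ : ℕ → Prop) (p : ℕ) (e : G × G) : Prop :=
  ((σ p → p ∣ nm e.1) ∧ (¬ σ p → p ∣ nm e.2)) ∧ ¬ p ^ 2 ∣ nm e.1 * nm e.2

/-- all conditions -/
def RR (σ : ℕ → Prop) (P : Finset ℕ) (e : G × G) : Prop :=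
  (Odd (nm e.1) ∧ Odd (nm e.2)) ∧ ∀ p ∈ P, QQ σ p e

theorem QQ_per (σ : ℕ → Prop) (p : ℕ) {M : ℕ} (hM : p ^ 2 ∣ M) : Per M (QQ σ p) := by
  intro e f h h'
  have hp : p ∣ M := (dvd_pow_self p two_ne_zero).trans hM
  unfold QQ
  rw [dvd_iff hp h, dvd_iff hp h', dvd_mul_iff hM h h']

theorem RR_per (σ : ℕ → Prop) (P : Finset ℕ) {M : ℕ} (h2 : 2 ∣ M) (hM : ∀ p ∈ P, p ^ 2 ∣ M) :
    Per M (RR σ P) := by
  intro e f h h'
  unfold RR
  rw [odd_iff h2 h, odd_iff h2 h']
  refine and_congr Iff.rfl ?_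
  exact forall₂_congr (fun p hp => QQ_per σ p (hM p hp) e f h h')

open Classical in
theorem QQ_card (σ : ℕ → Prop) (p : ℕ) (hp : p.Prime) (h4 : p % 4 = 1) :
    (((cls (p ^ 2)).filter (QQ σ p)).card : ℝ) = Ap p * (cls (p ^ 2)).card := by
  obtain ⟨h1, h2, h3⟩ := cls_p2 p hp h4
  have h5 : ((cls (p ^ 2)).filter (QQ σ p)).card = 2 * p ^ 2 * (p - 1) ^ 3 := by
    by_cases hs : σ p
    · rw [← h2]
      congr 1
      apply filter_congr
      intro e _
      unfold QQ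
      simp [hs]
    · rw [← h3]
      congr 1
      apply filter_congr
      intro e _
      unfold QQ
      simp [hs]
  rw [h5, h1]
  have hp1 : 1 ≤ p := hp.one_le
  have hp2 : 1 ≤ p ^ 2 := Nat.one_le_pow _ _ hp1
  push_cast [Nat.cast_sub hp1, Nat.cast_sub hp2]
  unfold Ap
  have hp0 : (0 : ℝ) < p := by exact_mod_cast hp.pos
  field_simp
  ring

open Classical in
theorem main (σ : ℕ → Prop) (P : Finset ℕ) : (∀ p ∈ P, p.Prime ∧ p % 4 = 1) →
    (((cls (2 * ∏ p ∈ P, p ^ 2)).filter (RR σ P)).card : ℝ) =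
      1 / 3 * (∏ p ∈ P, Ap p) * (cls (2 * ∏ p ∈ P, p ^ 2)).card := by
  induction P using Finset.induction_on with
  | empty =>
    intro _
    obtain ⟨h1, h2⟩ := cls_two
    have h3 : ((cls 2).filter (RR σ ∅)).card = 2 := by
      rw [← h2]
      congr 1
      apply filter_congr
      intro e _
      unfold RR
      simp
    rw [prod_empty, prod_empty, mul_one, h1, h3]
    norm_num
  | insert p P hpP ih =>
    intro hP
    obtain ⟨hp, h4⟩ := hP p (mem_insert_self _ _)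
    have hP' : ∀ q ∈ P, q.Prime ∧ q % 4 = 1 := fun q hq => hP q (mem_insert_of_mem hq)
    have ih' := ih hP'
    rw [prod_insert hpP, prod_insert hpP]
    set M1 : ℕ := 2 * ∏ q ∈ P, q ^ 2 with hM1
    have hM : 2 * (p ^ 2 * ∏ q ∈ P, q ^ 2) = M1 * p ^ 2 := by rw [hM1]; ring
    rw [hM]
    have hpos1 : 0 < M1 := by
      rw [hM1]
      apply Nat.mul_pos two_pos
      exact prod_pos (fun q hq => pow_pos (hP' q hq).1.pos 2)
    have hpos2 : 0 < p ^ 2 := pow_pos hp.pos 2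
    have hco : M1.Coprime (p ^ 2) := by
      apply Nat.Coprime.pow_right
      rw [hM1]
      apply Nat.Coprime.mul_left
      · rw [Nat.coprime_comm, Nat.Prime.coprime_iff_not_dvd hp]
        intro h
        have := Nat.le_of_dvd two_pos h
        have := hp.two_le
        omega
      · apply Nat.Coprime.prod_left
        intro q hq
        apply Nat.Coprime.pow_left
        rw [Nat.coprime_primes (hP' q hq).1 hp]
        rintro rfl
        exact hpP hq
    have hper1 : Per M1 (RR σ P) := RR_per σ P (Dvd.intro _ rfl)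
      (fun q hq => (dvd_prod_of_mem (fun q => q ^ 2) hq).trans (Dvd.intro_left _ rfl))
    have hper2 : Per (p ^ 2) (QQ σ p) := QQ_per σ p (dvd_refl _)
    have h1 := cls_mul M1 (p ^ 2) hpos1 hpos2 hco (RR σ P) (QQ σ p) hper1 hper2
    have h2 := cls_mul M1 (p ^ 2) hpos1 hpos2 hco (fun _ => True) (fun _ => True)
      (fun _ _ _ _ => Iff.rfl) (fun _ _ _ _ => Iff.rfl)
    simp only [and_self, filter_true] at h2
    have h3 : ((cls (M1 * p ^ 2)).filter (RR σ (insert p P))).card =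
        ((cls (M1 * p ^ 2)).filter (fun e => RR σ P e ∧ QQ σ p e)).card := by
      congr 1
      apply filter_congr
      intro e _
      unfold RR
      rw [forall_mem_insert]
      tauto
    rw [h3, h1, h2]
    push_cast
    rw [ih', QQ_card σ p hp h4]
    ring

end LocalBP

/-- divisibility of norms by `p` depends only on the class modulo `p ^ 2`, oddness only on the class modulo `2`, `Ce g` only on the class
modulo `2 (g g')^2`. -/
theorem Ce_per (g : ℕ × ℕ) : Per (2 * (g.1 * g.2) ^ 2) (Ce g) := by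
  intro e f h h'
  have h2 : 2 ∣ 2 * (g.1 * g.2) ^ 2 := Dvd.intro _ rfl
  have hsq : (g.1 * g.2) ^ 2 ∣ 2 * (g.1 * g.2) ^ 2 := Dvd.intro_left _ rfl
  have h1 : (g.1 * g.2) ∣ 2 * (g.1 * g.2) ^ 2 := (dvd_pow_self _ two_ne_zero).trans hsq
  unfold Ce
  rw [LocalBP.odd_iff h2 h, LocalBP.odd_iff h2 h']
  refine and_congr Iff.rfl (and_congr Iff.rfl (and_congr ?_ (and_congr ?_ ?_)))
  · refine forall₂_congr (fun p hp => LocalBP.dvd_iff ?_ h)
    exact ((Nat.dvd_of_mem_primeFactors hp).trans (Dvd.intro _ rfl)).trans h1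
  · refine forall₂_congr (fun p hp => LocalBP.dvd_iff ?_ h')
    exact ((Nat.dvd_of_mem_primeFactors hp).trans (Dvd.intro_left _ rfl)).trans h1
  · refine forall₂_congr (fun p hp => not_congr (LocalBP.dvd_mul_iff ?_ h h'))
    exact (pow_dvd_pow_of_dvd (Nat.dvd_of_mem_primeFactors hp) 2).trans hsq

open Classical in
/-- Induction over the primes of `g g'` with `cls_mul` (`M1 = 2 (g g' / p^...)^2`, `M2 = p^2`), `cls_p2`, `cls_two`: e.g. prove for a finite set `P` of primes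
`1 mod 4` and a map `f : ℕ → Bool` (which of `g`, `g'`) that the number of `e ∈ cls (2 ∏ p^2)` satisfying the conditions is
`(1/3) ∏ Ap p` times `#cls`; `Ap p = 2 p^2 (p-1)^3 / (p^4 (p^2 - 1))`. -/
theorem local_density (g : ℕ × ℕ) (hg : Adm g) :
    (((cls (2 * (g.1 * g.2) ^ 2)).filter (Ce g)).card : ℝ) =
      1 / 3 * (∏ p ∈ (g.1 * g.2).primeFactors, Ap p) * (cls (2 * (g.1 * g.2) ^ 2)).card := by
  obtain ⟨hsq, h4⟩ := hg
  have hne : g.1 * g.2 ≠ 0 := hsq.ne_zero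
  have hg1 : g.1 ≠ 0 := left_ne_zero_of_mul hne
  have hg2 : g.2 ≠ 0 := right_ne_zero_of_mul hne
  have hco : g.1.Coprime g.2 := Nat.coprime_of_squarefree_mul hsq
  have hprod : ∏ p ∈ (g.1 * g.2).primeFactors, p ^ 2 = (g.1 * g.2) ^ 2 := by
    rw [prod_pow, Nat.prod_primeFactors_of_squarefree hsq]
  have h1 := LocalBP.main (fun p => p ∣ g.1) (g.1 * g.2).primeFactors
    (fun p hp => ⟨Nat.prime_of_mem_primeFactors hp, h4 p hp⟩)
  rw [hprod] at h1
  rw [← h1]
  congr 2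
  apply filter_congr
  intro e _
  unfold Ce LocalBP.RR LocalBP.QQ
  constructor
  · rintro ⟨h5, h6, h7, h8, h9⟩
    refine ⟨⟨h5, h6⟩, fun p hp => ⟨⟨fun h => ?_, fun h => ?_⟩, h9 p hp⟩⟩
    · exact h7 p (Nat.mem_primeFactors.2 ⟨Nat.prime_of_mem_primeFactors hp, h, hg1⟩)
    · refine h8 p (Nat.mem_primeFactors.2 ⟨Nat.prime_of_mem_primeFactors hp, ?_, hg2⟩)
      exact ((Nat.Prime.dvd_mul (Nat.prime_of_mem_primeFactors hp)).1
        (Nat.dvd_of_mem_primeFactors hp)).resolve_left h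
  · rintro ⟨⟨h5, h6⟩, h7⟩
    refine ⟨h5, h6, fun p hp => ?_, fun p hp => ?_, fun p hp => (h7 p hp).2⟩
    · rw [Nat.mem_primeFactors] at hp
      exact (h7 p (Nat.mem_primeFactors.2 ⟨hp.1, hp.2.1.trans (Dvd.intro _ rfl), hne⟩)).1.1 hp.2.1
    · rw [Nat.mem_primeFactors] at hp
      refine (h7 p (Nat.mem_primeFactors.2 ⟨hp.1, hp.2.1.trans (Dvd.intro_left _ rfl), hne⟩)).1.2 ?_
      intro h
      have h10 := Nat.dvd_gcd h hp.2.1
      rw [hco] at h10
      exact hp.1.one_lt.ne' (Nat.dvd_one.1 h10)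

end Pool.Agent.OmAll

end

/-! ### from `Lib_MP_f1a94e_eq.LocD` -/

section

/-!
# Piece LOCD: local densities of the set of movable primes
-/

set_option autoImplicit false

namespace Pool.Agent.OmEq

open Finset Pool.Agent.GaussMR Pool.Agent.OmAll

namespace LocDP

/-- the condition at a prime of `D` -/
def QA (p : ℕ) (e : G × G) : Prop := p ∣ nm e.2 ∧ ¬ p ^ 2 ∣ nm e.1 * nm e.2

/-- the condition at a prime outside of `D` -/
def QB (p : ℕ) (e : G × G) : Prop := ¬ (p ∣ nm e.1 * nm e.2 ∧ ¬ p ^ 2 ∣ nm e.1 * nm e.2)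

/-- the condition at the prime `p` -/
def QC (D : Finset ℕ) (p : ℕ) (e : G × G) : Prop := (p ∈ D → QA p e) ∧ (p ∉ D → QB p e)

/-- all conditions -/
def RC (D P : Finset ℕ) (e : G × G) : Prop := ∀ p ∈ P, QC D p e

theorem QC_per (D : Finset ℕ) (p : ℕ) {M : ℕ} (hM : p ^ 2 ∣ M) : Per M (QC D p) := by
  intro e f h h'
  have hp : p ∣ M := (dvd_pow_self p two_ne_zero).trans hM
  unfold QC QA QB
  rw [LocalBP.dvd_iff hp h', LocalBP.dvd_mul_iff hM h h', LocalBP.dvd_mul_iff hp h h']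

theorem RC_per (D P : Finset ℕ) {M : ℕ} (hM : ∀ p ∈ P, p ^ 2 ∣ M) : Per M (RC D P) := by
  intro e f h h'
  exact forall₂_congr (fun p hp => QC_per D p (hM p hp) e f h h')

open Classical in
theorem QB_card (p : ℕ) (hp : p.Prime) (h4 : p % 4 = 1) :
    (((cls (p ^ 2)).filter (QB p)).card : ℝ) = (1 - 2 * Ap p) * (cls (p ^ 2)).card := by
  have h1 := LocalBP.QQ_card (fun _ => True) p hp h4
  have h2 := LocalBP.QQ_card (fun _ => False) p hp h4
  have h3 : ((cls (p ^ 2)).filter (QB p)).card +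
      ((cls (p ^ 2)).filter (LocalBP.QQ (fun _ => True) p)).card +
      ((cls (p ^ 2)).filter (LocalBP.QQ (fun _ => False) p)).card = (cls (p ^ 2)).card := by
    rw [card_filter, card_filter, card_filter, ← sum_add_distrib, ← sum_add_distrib,
      card_eq_sum_ones]
    apply sum_congr rfl
    intro e _
    unfold QB LocalBP.QQ
    have h5 : p ∣ nm e.1 * nm e.2 ↔ p ∣ nm e.1 ∨ p ∣ nm e.2 := hp.dvd_mul
    have h6 : p ∣ nm e.1 → p ∣ nm e.2 → p ^ 2 ∣ nm e.1 * nm e.2 := by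
      intro a b
      rw [pow_two]
      exact mul_dvd_mul a b
    by_cases h7 : p ^ 2 ∣ nm e.1 * nm e.2
    · simp [h7]
    · by_cases h8 : p ∣ nm e.1
      · have h9 : ¬ p ∣ nm e.2 := fun h => h7 (h6 h8 h)
        simp [h5, h7, h8, h9]
      · by_cases h9 : p ∣ nm e.2
        · simp [h5, h7, h8, h9]
        · simp [h5, h7, h8, h9]
  have h4 : (((cls (p ^ 2)).filter (QB p)).card : ℝ) +
      ((cls (p ^ 2)).filter (LocalBP.QQ (fun _ => True) p)).card +
      ((cls (p ^ 2)).filter (LocalBP.QQ (fun _ => False) p)).card = (cls (p ^ 2)).card := by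
    exact_mod_cast h3
  rw [h1, h2] at h4
  linarith

open Classical in
theorem QC_card (D : Finset ℕ) (p : ℕ) (hp : p.Prime) (h4 : p % 4 = 1) :
    (((cls (p ^ 2)).filter (QC D p)).card : ℝ) =
      (if p ∈ D then Ap p else 1 - 2 * Ap p) * (cls (p ^ 2)).card := by
  by_cases h : p ∈ D
  · rw [if_pos h, ← LocalBP.QQ_card (fun _ => False) p hp h4]
    congr 2
    apply filter_congr
    intro e _
    unfold QC QA LocalBP.QQ
    simp [h]
  · rw [if_neg h, ← QB_card p hp h4]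
    congr 2
    apply filter_congr
    intro e _
    unfold QC
    simp [h]

open Classical in
theorem main (D P : Finset ℕ) : (∀ p ∈ P, p.Prime ∧ p % 4 = 1) →
    (((cls (∏ p ∈ P, p ^ 2)).filter (RC D P)).card : ℝ) =
      (∏ p ∈ P, if p ∈ D then Ap p else 1 - 2 * Ap p) * (cls (∏ p ∈ P, p ^ 2)).card := by
  induction P using Finset.induction_on with
  | empty =>
    intro _
    have h3 : ((cls (∏ p ∈ (∅ : Finset ℕ), p ^ 2)).filter (RC D ∅)) =
        cls (∏ p ∈ (∅ : Finset ℕ), p ^ 2) := by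
      apply filter_true_of_mem
      intro e _
      unfold RC
      simp
    rw [h3, prod_empty, prod_empty, one_mul]
  | insert p P hpP ih =>
    intro hP
    obtain ⟨hp, h4⟩ := hP p (mem_insert_self _ _)
    have hP' : ∀ q ∈ P, q.Prime ∧ q % 4 = 1 := fun q hq => hP q (mem_insert_of_mem hq)
    have ih' := ih hP'
    rw [prod_insert hpP, prod_insert hpP]
    set M1 : ℕ := ∏ q ∈ P, q ^ 2 with hM1
    have hM : p ^ 2 * M1 = M1 * p ^ 2 := by ring
    rw [hM]
    have hpos1 : 0 < M1 := by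
      rw [hM1]
      exact prod_pos (fun q hq => pow_pos (hP' q hq).1.pos 2)
    have hpos2 : 0 < p ^ 2 := pow_pos hp.pos 2
    have hco : M1.Coprime (p ^ 2) := by
      apply Nat.Coprime.pow_right
      rw [hM1]
      apply Nat.Coprime.prod_left
      intro q hq
      apply Nat.Coprime.pow_left
      rw [Nat.coprime_primes (hP' q hq).1 hp]
      rintro rfl
      exact hpP hq
    have hper1 : Per M1 (RC D P) := RC_per D P
      (fun q hq => dvd_prod_of_mem (fun q => q ^ 2) hq)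
    have hper2 : Per (p ^ 2) (QC D p) := QC_per D p (dvd_refl _)
    have h1 := cls_mul M1 (p ^ 2) hpos1 hpos2 hco (RC D P) (QC D p) hper1 hper2
    have h2 := cls_mul M1 (p ^ 2) hpos1 hpos2 hco (fun _ => True) (fun _ => True)
      (fun _ _ _ _ => Iff.rfl) (fun _ _ _ _ => Iff.rfl)
    simp only [and_self, filter_true] at h2
    have h3 : ((cls (M1 * p ^ 2)).filter (RC D (insert p P))).card =
        ((cls (M1 * p ^ 2)).filter (fun e => RC D P e ∧ QC D p e)).card := by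
      congr 1
      apply filter_congr
      intro e _
      unfold RC
      rw [forall_mem_insert]
      tauto
    rw [h3, h1, h2]
    push_cast
    rw [ih', QC_card D p hp h4]
    ring

theorem nm_natCast_mul (n : ℕ) (u : G) : nm ((n : G) * u) = n ^ 2 * nm u := by
  have h : ((nm ((n : G) * u) : ℕ) : ℤ) = ((n ^ 2 * nm u : ℕ) : ℤ) := by
    push_cast
    rw [nm_eq, nm_eq]
    simp only [Zsqrtd.re_mul, Zsqrtd.im_mul, Zsqrtd.re_natCast, Zsqrtd.im_natCast]
    ring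
  exact_mod_cast h

open Classical in
/-- the predicate on the left side, for `D ⊆ PE E T` -/
theorem bs_ds_iff (E : Finset ℕ) (T : ℕ) (D : Finset ℕ) (hD : D ⊆ PE E T) (e : G × G) :
    (bs E T e ∧ ds E T e = D) ↔ RC D (PE E T) e := by
  constructor
  · rintro ⟨h1, h2⟩ p hp
    constructor
    · intro hpD
      have h3 := h2.symm ▸ hpD
      have h4 : p ∈ ds E T e := h3
      have h5 := (mem_filter.1 h4).2
      have h6 := h1 p h4
      have hpr : p.Prime := (mem_PE.1 hp).2.1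
      exact ⟨(hpr.dvd_mul.1 h5.1).resolve_left h6, h5.2⟩
    · intro hpD h3
      apply hpD
      rw [← h2]
      exact mem_filter.2 ⟨hp, h3⟩
  · intro h
    have h2 : ds E T e = D := by
      ext p
      unfold ds
      rw [mem_filter]
      constructor
      · rintro ⟨h3, h4⟩
        by_contra h5
        exact (h p h3).2 h5 h4
      · intro hp
        have h3 := (h p (hD hp)).1 hp
        exact ⟨hD hp, h3.1.mul_left _, h3.2⟩
    refine ⟨?_, h2⟩
    intro p hp h3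
    rw [h2] at hp
    have h4 := (h p (hD hp)).1 hp
    apply h4.2
    rw [pow_two]
    exact mul_dvd_mul h3 h4.1

theorem RC_scale (D P : Finset ℕ) (n : ℕ) (hP : ∀ p ∈ P, p.Prime ∧ ¬ p ∣ n) (e : G × G) :
    RC D P (e.1, (n : G) * e.2) ↔ RC D P e := by
  refine forall₂_congr (fun p hp => ?_)
  obtain ⟨h1, h2⟩ := hP p hp
  have hco : p.Coprime (n ^ 2) :=
    Nat.Coprime.pow_right 2 ((Nat.Prime.coprime_iff_not_dvd h1).2 h2)
  have hco2 : (p ^ 2).Coprime (n ^ 2) := Nat.Coprime.pow_left 2 hco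
  have a1 : p ∣ nm ((n : G) * e.2) ↔ p ∣ nm e.2 := by
    rw [nm_natCast_mul]
    exact hco.dvd_mul_left
  have a2 : p ∣ nm e.1 * nm ((n : G) * e.2) ↔ p ∣ nm e.1 * nm e.2 := by
    rw [nm_natCast_mul, show nm e.1 * (n ^ 2 * nm e.2) = n ^ 2 * (nm e.1 * nm e.2) by ring]
    exact hco.dvd_mul_left
  have a3 : p ^ 2 ∣ nm e.1 * nm ((n : G) * e.2) ↔ p ^ 2 ∣ nm e.1 * nm e.2 := by
    rw [nm_natCast_mul, show nm e.1 * (n ^ 2 * nm e.2) = n ^ 2 * (nm e.1 * nm e.2) by ring]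
    exact hco2.dvd_mul_left
  unfold QC QA QB
  dsimp only
  rw [a1, a2, a3]

end LocDP

/-- PROOF. Divisibility of `nm e.1`, `nm e.2` by `p` and of `nm e.1 * nm e.2` by `p ^ 2` depends only on the classes modulo `p ^ 2`
(`LocalBP.dvd_iff`, `LocalBP.dvd_mul_iff`). -/
theorem ds_per (E : Finset ℕ) (T : ℕ) (D : Finset ℕ) :
    Per (∏ p ∈ PE E T, p ^ 2) (fun e => bs E T e ∧ ds E T e = D) := by
  classical
  intro e f h h'
  have hM : ∀ p ∈ PE E T, p ^ 2 ∣ ∏ p ∈ PE E T, p ^ 2 :=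
    fun p hp => dvd_prod_of_mem (fun q => q ^ 2) hp
  have hds : ds E T e = ds E T f := by
    unfold ds
    apply filter_congr
    intro p hp
    have hp1 : p ∣ ∏ p ∈ PE E T, p ^ 2 := (dvd_pow_self p two_ne_zero).trans (hM p hp)
    rw [LocalBP.dvd_mul_iff hp1 h h', LocalBP.dvd_mul_iff (hM p hp) h h']
  have hbs : bs E T e ↔ bs E T f := by
    unfold bs
    rw [hds]
    refine forall₂_congr (fun p hp => ?_)
    have hp0 : p ∈ PE E T := (mem_filter.1 hp).1
    have hp1 : p ∣ ∏ p ∈ PE E T, p ^ 2 := (dvd_pow_self p two_ne_zero).trans (hM p hp0)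
    rw [LocalBP.dvd_iff hp1 h]
  dsimp only
  rw [hbs, hds]

open Classical in
/-- PROOF. `nm ((n : G) * e.2) = n ^ 2 * nm e.2`, and `p ∤ n` for `p ∈ PE E T`, so the predicate is `bs E T e ∧ ds E T e = D`. It says: for
`p ∈ D`: `p ∣ nm e.2` and `¬ p ^ 2 ∣ nm e.1 * nm e.2` (this implies `p ∤ nm e.1`), and for `p ∈ PE E T \ D`: not (`p ∣ nm e.1 * nm e.2` and
`¬ p ^ 2 ∣ nm e.1 * nm e.2`). Induction over the primes as in `LocalBP.main` (there modulus `2 * ∏`, here `∏ p ^ 2`, empty product: `cls 1` has one element)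
with `cls_mul`, and `cls_p2`: the first set has density `Ap p` in `cls (p ^ 2)`, the complement of the second one `2 * Ap p` (the two disjoint
sets of `cls_p2`; `p ∣ nm e.1 * nm e.2` iff `p` divides one of them, and not both if `p ^ 2 ∤`). -/
theorem locD (E : Finset ℕ) (T : ℕ) (D : Finset ℕ) (hD : D ⊆ PE E T) (n : ℕ) (hn : ∀ p ∈ PE E T, ¬ p ∣ n) :
    (((cls (∏ p ∈ PE E T, p ^ 2)).filter
      (fun e => bs E T (e.1, (n : G) * e.2) ∧ ds E T (e.1, (n : G) * e.2) = D)).card : ℝ) =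
      Pr E T D * (cls (∏ p ∈ PE E T, p ^ 2)).card := by
  have h1 := LocDP.main D (PE E T) (fun p hp => ⟨(mem_PE.1 hp).2.1, (mem_PE.1 hp).2.2.1⟩)
  have h2 : (∏ p ∈ PE E T, if p ∈ D then Ap p else 1 - 2 * Ap p) = Pr E T D := by
    unfold Pr
    rw [prod_ite]
    congr 1
    · apply prod_congr _ (fun _ _ => rfl)
      ext p
      rw [mem_filter]
      exact ⟨fun h => h.2, fun h => ⟨hD h, h⟩⟩
    · apply prod_congr _ (fun _ _ => rfl)
      ext p
      rw [mem_filter, mem_sdiff]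
  rw [h2] at h1
  rw [← h1]
  congr 2
  apply filter_congr
  intro e _
  rw [LocDP.bs_ds_iff E T D hD, LocDP.RC_scale D (PE E T) n
    (fun p hp => ⟨(mem_PE.1 hp).2.1, hn p hp⟩)]

end Pool.Agent.OmEq

end

/-! ### from `Lib_MP_92ef0c_sp.Riem3` -/

section

/-!
# Riemann sums in three variables
-/

set_option autoImplicit false

namespace Pool.Agent.Spl

open Finset Filter MeasureTheory

/-- the integral over the last variable and its Riemann sum -/
private theorem r3_last (f : ℝ → ℝ) (hf : Continuous f) (s : ℕ → ℝ) (J : ℕ) (δ η : ℝ)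
    (hs : ∀ l, s (l + 1) - s l = δ) (hδ : 0 ≤ δ)
    (h : ∀ l, ∀ r ∈ Set.Icc (s l) (s (l + 1)), |f r - f (s l)| ≤ η) :
    |(∫ r in s 0..s J, f r) - ∑ l ∈ range J, δ * f (s l)| ≤ J * (η * δ) := by
  rw [← intervalIntegral.sum_integral_adjacent_intervals (n := J) (a := s)
    (fun k _ => hf.intervalIntegrable _ _), ← Finset.sum_sub_distrib]
  have h1 : ∀ l ∈ range J, |(∫ r in s l..s (l + 1), f r) - δ * f (s l)| ≤ η * δ := by
    intro l _
    have h2 : (∫ r in s l..s (l + 1), f r) - δ * f (s l) = ∫ r in s l..s (l + 1), (f r - f (s l)) := by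
      rw [intervalIntegral.integral_sub (hf.intervalIntegrable _ _)
        (continuous_const.intervalIntegrable _ _), intervalIntegral.integral_const, smul_eq_mul, hs]
    have hle : s l ≤ s (l + 1) := by linarith [hs l]
    rw [h2]
    have h4 := intervalIntegral.norm_integral_le_of_norm_le_const (a := s l) (b := s (l + 1)) (C := η)
      (f := fun r => f r - f (s l)) (by
        intro r hr
        rw [Set.uIoc_of_le hle] at hr
        exact h l r ⟨hr.1.le, hr.2⟩)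
    rwa [hs, abs_of_nonneg hδ] at h4
  refine (Finset.abs_sum_le_sum_abs _ _).trans ((Finset.sum_le_sum h1).trans (le_of_eq ?_))
  rw [Finset.sum_const, Finset.card_range, nsmul_eq_mul]

/-- PROOF. The three-dimensional version of `riem2` (`Lib_MP_f1a94e_eq/RiemTwo.lean`); adapt it. `Ψ` is uniformly continuous and vanishes outside `[0, b] × [-B, B] × [-B, B]`. Cells `i/K X < m e ≤ (i+1)/K X`, `j/K ≤ p e < (j+1)/K`, `l/K ≤ w e < (l+1)/K` have `X c / K^3 + o(X)` elements (difference of `hc` at two values of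
`x`; for `i = 0` use `0 < m e`: the set at `x = 0` is empty). On a cell `Ψ` differs from its value at the corner by at most `η(K) → 0`; the Riemann sum of a continuous function with compact support converges to the iterated integral. -/
theorem riem3 {ι : Type} (A : ι → Prop) (S : ℝ → Finset ι) (m p w : ι → ℝ) (hS : ∀ x e, e ∈ S x ↔ A e ∧ m e ≤ x)
    (hm : ∀ e, A e → 0 < m e) (c : ℝ) (hc0 : 0 ≤ c)
    (hc : ∀ p1 p2 w1 w2 : ℝ, p1 ≤ p2 → w1 ≤ w2 →
      Tendsto (fun x : ℝ => (((S x).filter (fun e => (p1 ≤ p e ∧ p e < p2) ∧ (w1 ≤ w e ∧ w e < w2))).card : ℝ) / x) atTop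
        (nhds (c * (p2 - p1) * (w2 - w1))))
    (Ψ : ℝ → ℝ → ℝ → ℝ) (hΨ : Continuous (fun v : ℝ × ℝ × ℝ => Ψ v.1 v.2.1 v.2.2))
    (hcs : HasCompactSupport (fun v : ℝ × ℝ × ℝ => Ψ v.1 v.2.1 v.2.2))
    (hneg : ∀ y q r, y ≤ 0 → Ψ y q r = 0) (b : ℝ) (hb : ∀ y q r, b ≤ y → Ψ y q r = 0) :
    Tendsto (fun X : ℝ => (∑ e ∈ S (b * X), Ψ (m e / X) (p e) (w e)) / X) atTop (nhds (c * ∫ y, ∫ q, ∫ r, Ψ y q r)) := by
  classical
  -- bounds of the support
  obtain ⟨M, hM1, hMb⟩ : ∃ M : ℕ, 1 ≤ M ∧ b ≤ M := by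
    obtain ⟨n, hn⟩ := exists_nat_ge b
    exact ⟨n + 1, by omega, hn.trans (by push_cast; linarith)⟩
  obtain ⟨B, hB1, hB⟩ : ∃ B : ℕ, 1 ≤ B ∧ ∀ y q r, Ψ y q r ≠ 0 → |q| < B ∧ |r| < B := by
    obtain ⟨R, hR⟩ := hcs.isBounded.subset_closedBall (0 : ℝ × ℝ × ℝ)
    obtain ⟨n, hn⟩ := exists_nat_gt R
    refine ⟨n + 1, by omega, fun y q r h => ?_⟩
    have h1 : (y, q, r) ∈ tsupport (fun v : ℝ × ℝ × ℝ => Ψ v.1 v.2.1 v.2.2) := subset_tsupport _ (by
      rw [Function.mem_support]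
      exact h)
    have h2 := hR h1
    rw [mem_closedBall_zero_iff, Prod.norm_def, Prod.norm_def] at h2
    have h3 : ‖q‖ ≤ R := ((le_max_left _ _).trans (le_max_right _ _)).trans h2
    have h4 : ‖r‖ ≤ R := ((le_max_right _ _).trans (le_max_right _ _)).trans h2
    rw [Real.norm_eq_abs] at h3 h4
    push_cast
    constructor <;> linarith
  have hB0 : (0:ℝ) < B := by exact_mod_cast hB1
  have hM0 : (0:ℝ) < M := by exact_mod_cast hM1
  have hbM : ∀ y q r, (M : ℝ) ≤ y → Ψ y q r = 0 := fun y q r h => hb y q r (hMb.trans h)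
  have hcont2 : ∀ r, Continuous (Function.uncurry fun y q => Ψ y q r) := by
    intro r
    have h1 : Continuous fun v : ℝ × ℝ => ((v.1, v.2, r) : ℝ × ℝ × ℝ) := by fun_prop
    exact hΨ.comp h1
  have hcont1 : ∀ y q, Continuous fun r => Ψ y q r := by
    intro y q
    have h1 : Continuous fun r : ℝ => ((y, q, r) : ℝ × ℝ × ℝ) := by fun_prop
    exact hΨ.comp h1
  have hcontR : Continuous (Function.uncurry fun y q => ∫ r in (-B:ℝ)..B, Ψ y q r) := by
    have h1 : Continuous (Function.uncurry fun (v : ℝ × ℝ) (r : ℝ) => Ψ v.1 v.2 r) := by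
      have h2 : Continuous fun v : (ℝ × ℝ) × ℝ => ((v.1.1, v.1.2, v.2) : ℝ × ℝ × ℝ) := by fun_prop
      exact hΨ.comp h2
    exact intervalIntegral.continuous_parametric_intervalIntegral_of_continuous' h1 (-B) B
  -- integrals over the box
  have hint2 : ∀ F : ℝ → ℝ → ℝ, (∀ y q, y ≤ 0 → F y q = 0) → (∀ y q, (M:ℝ) ≤ y → F y q = 0) →
      (∀ y q, F y q ≠ 0 → |q| < B) → (∫ y, ∫ q, F y q) = ∫ y in (0:ℝ)..M, ∫ q in (-B:ℝ)..B, F y q := by
    intro F h0 h1 h2
    have h3 : ∀ y, (∫ q, F y q) = ∫ q in (-B:ℝ)..B, F y q := by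
      intro y
      symm
      apply intervalIntegral.integral_eq_integral_of_support_subset
      intro q hq
      have := abs_lt.1 (h2 y q hq)
      exact ⟨this.1, this.2.le⟩
    simp_rw [h3]
    symm
    apply intervalIntegral.integral_eq_integral_of_support_subset
    intro y hy
    rw [Function.mem_support] at hy
    constructor
    · by_contra hc
      apply hy
      have : ∀ q, F y q = 0 := fun q => h0 y q (not_lt.1 hc)
      simp [this]
    · by_contra hc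
      apply hy
      have : ∀ q, F y q = 0 := fun q => h1 y q (not_le.1 hc).le
      simp [this]
  have hin : ∀ y q, (∫ r, Ψ y q r) = ∫ r in (-B:ℝ)..B, Ψ y q r := by
    intro y q
    symm
    apply intervalIntegral.integral_eq_integral_of_support_subset
    intro r hr
    have := abs_lt.1 (hB y q r hr).2
    exact ⟨this.1, this.2.le⟩
  have hint3 : (∫ y, ∫ q, ∫ r, Ψ y q r) = ∫ y in (0:ℝ)..M, ∫ q in (-B:ℝ)..B, ∫ r in (-B:ℝ)..B, Ψ y q r := by
    simp_rw [hin]
    apply hint2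
    · intro y q h
      have : ∀ r, Ψ y q r = 0 := fun r => hneg y q r h
      simp [this]
    · intro y q h
      have : ∀ r, Ψ y q r = 0 := fun r => hbM y q r h
      simp [this]
    · intro y q h
      by_contra hcon
      apply h
      have : ∀ r, Ψ y q r = 0 := by
        intro r
        by_contra h'
        exact hcon (hB y q r h').1
      simp [this]
  rw [Metric.tendsto_atTop']
  intro ε hε
  -- parameters
  obtain ⟨V, hV⟩ : ∃ V : ℝ, V = M * (2 * B) * (2 * B) := ⟨_, rfl⟩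
  have hV0 : 0 < V := by rw [hV]; positivity
  obtain ⟨η, hη⟩ : ∃ η : ℝ, η = ε / (4 * ((c + 1) * (V + 1))) := ⟨_, rfl⟩
  have hη0 : 0 < η := by rw [hη]; positivity
  have hηe : η * ((c + 1) * (V + 1)) = ε / 4 := by
    rw [hη]
    field_simp
  have huc : UniformContinuous (fun v : ℝ × ℝ × ℝ => Ψ v.1 v.2.1 v.2.2) :=
    hcs.uniformContinuous_of_continuous hΨ
  obtain ⟨δ, hδ, hδ'⟩ := Metric.uniformContinuous_iff.1 huc η hη0
  obtain ⟨K, hK⟩ := exists_nat_gt (1 / δ)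
  have hK0 : (0:ℝ) < K := lt_trans (by positivity) hK
  have hKδ : 1 / (K:ℝ) < δ := by
    rw [div_lt_iff₀ hK0]
    rw [div_lt_iff₀ hδ] at hK
    linarith
  obtain ⟨s, hs⟩ : ∃ s : ℕ → ℝ, s = fun j : ℕ => -(B:ℝ) + (j : ℝ) / K := ⟨_, rfl⟩
  have hsm : Monotone s := by
    intro i j hij
    rw [hs]
    simp only
    gcongr
  have hs0 : s 0 = -B := by rw [hs]; simp
  have hsJ : s (2 * B * K) = B := by
    rw [hs]
    simp only [Nat.cast_mul, Nat.cast_ofNat]
    field_simp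
    ring
  have hds : ∀ i, s (i + 1) - s i = 1 / K := fun i => by
    rw [hs]
    simp only [Nat.cast_add, Nat.cast_one]
    ring
  have hvar : ∀ y q, ∀ l, ∀ r ∈ Set.Icc (s l) (s (l + 1)), |Ψ y q r - Ψ y q (s l)| ≤ η := by
    intro y q l r hr
    have h2 := hds l
    have h3 : dist ((y, q, r) : ℝ × ℝ × ℝ) (y, q, s l) < δ := by
      rw [Prod.dist_eq, Prod.dist_eq, dist_self, dist_self, Real.dist_eq,
        abs_of_nonneg (by linarith [hr.1])]
      simp only [max_lt_iff]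
      exact ⟨hδ, hδ, by linarith [hr.2]⟩
    have h4 := hδ' h3
    rw [Real.dist_eq] at h4
    exact h4.le
  -- the Riemann sum in the last variable
  obtain ⟨I, hI⟩ : ∃ I : ℝ, I = ∑ l ∈ range (2 * B * K), (1 / K : ℝ) * ∫ y, ∫ q, Ψ y q (s l) := ⟨_, rfl⟩
  have hslab : ∀ l, (∫ y, ∫ q, Ψ y q (s l)) = ∫ y in (0:ℝ)..M, ∫ q in (-B:ℝ)..B, Ψ y q (s l) := by
    intro l
    exact hint2 (fun y q => Ψ y q (s l)) (fun y q h => hneg y q _ h) (fun y q h => hbM y q _ h)
      (fun y q h => (hB y q _ h).1)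
  have hcontS : ∀ l, Continuous (Function.uncurry fun y q => (1 / K : ℝ) * Ψ y q (s l)) := fun l =>
    continuous_const.mul (hcont2 (s l))
  have hpar : ∀ F : ℝ → ℝ → ℝ, Continuous (Function.uncurry F) → Continuous fun y => ∫ q in (-B:ℝ)..B, F y q :=
    fun F hF => intervalIntegral.continuous_parametric_intervalIntegral_of_continuous' hF _ _
  have hsec : ∀ F : ℝ → ℝ → ℝ, Continuous (Function.uncurry F) → ∀ y, Continuous fun q => F y q :=
    fun F hF y => hF.comp (Continuous.prodMk_right y)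
  have hI2 : I = ∫ y in (0:ℝ)..M, ∫ q in (-B:ℝ)..B, ∑ l ∈ range (2 * B * K), (1 / K : ℝ) * Ψ y q (s l) := by
    have h1 : ∀ y, (∫ q in (-B:ℝ)..B, ∑ l ∈ range (2 * B * K), (1 / K : ℝ) * Ψ y q (s l)) =
        ∑ l ∈ range (2 * B * K), ∫ q in (-B:ℝ)..B, (1 / K : ℝ) * Ψ y q (s l) := by
      intro y
      exact intervalIntegral.integral_finsetSum
        (fun l _ => (hsec _ (hcontS l) y).intervalIntegrable _ _)
    simp_rw [h1]
    rw [intervalIntegral.integral_finsetSum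
      (fun l _ => (hpar _ (hcontS l)).intervalIntegrable _ _), hI]
    apply Finset.sum_congr rfl
    intro l _
    rw [hslab l, ← intervalIntegral.integral_const_mul]
    apply intervalIntegral.integral_congr
    intro y _
    simp only
    rw [intervalIntegral.integral_const_mul]
  have hint4 : |(∫ y, ∫ q, ∫ r, Ψ y q r) - I| ≤ η * V := by
    have hc2 : Continuous (Function.uncurry fun y q => ∑ l ∈ range (2 * B * K), (1 / K : ℝ) * Ψ y q (s l)) := by
      have h0 : (Function.uncurry fun y q => ∑ l ∈ range (2 * B * K), (1 / K : ℝ) * Ψ y q (s l)) =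
          fun v : ℝ × ℝ => ∑ l ∈ range (2 * B * K), (Function.uncurry fun y q => (1 / K : ℝ) * Ψ y q (s l)) v := by
        funext v
        rfl
      rw [h0]
      exact continuous_finsetSum _ fun l _ => hcontS l
    obtain ⟨D, hD⟩ : ∃ D : ℝ → ℝ → ℝ, D = fun y q => (∫ r in (-B:ℝ)..B, Ψ y q r) -
      ∑ l ∈ range (2 * B * K), (1 / K : ℝ) * Ψ y q (s l) := ⟨_, rfl⟩
    have hDc : Continuous (Function.uncurry D) := by
      rw [hD]
      exact hcontR.sub hc2
    have h1 : (∫ y, ∫ q, ∫ r, Ψ y q r) - I = ∫ y in (0:ℝ)..M, ∫ q in (-B:ℝ)..B, D y q := by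
      rw [hint3, hI2, ← intervalIntegral.integral_sub ((hpar _ hcontR).intervalIntegrable _ _)
        ((hpar _ hc2).intervalIntegrable _ _)]
      apply intervalIntegral.integral_congr
      intro y _
      simp only
      rw [← intervalIntegral.integral_sub ((hsec _ hcontR y).intervalIntegrable _ _)
        ((hsec _ hc2 y).intervalIntegrable _ _), hD]
    have h2 : ∀ y ∈ Set.Icc (0:ℝ) M, ∀ q ∈ Set.Icc (-B:ℝ) B, |D y q - 0| ≤ η * (2 * B) := by
      intro y _ q _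
      have h3 := r3_last (fun r => Ψ y q r) (hcont1 y q) s (2 * B * K) (1 / K) η hds (by positivity)
        (hvar y q)
      rw [hs0, hsJ] at h3
      rw [sub_zero, hD]
      refine h3.trans (le_of_eq ?_)
      push_cast
      field_simp
    have h3 := Pool.Agent.OmEq.rt_cellint D hDc 0 M (-B) B 0 (η * (2 * B)) hM0.le (by linarith) h2
    rw [h1]
    rw [zero_mul, sub_zero] at h3
    refine h3.trans (le_of_eq ?_)
    rw [hV]; ring
  -- slabs
  obtain ⟨T, hT⟩ : ∃ T : ℕ → ℝ → Finset ι, T = fun l x => (S x).filter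
      (fun e => s l ≤ w e ∧ w e < s (l + 1)) := ⟨_, rfl⟩
  have hslim : ∀ l, Tendsto (fun X : ℝ => (∑ e ∈ T l (M * X), Ψ (m e / X) (p e) (s l)) / X) atTop
      (nhds (c * (1 / K) * ∫ y, ∫ q, Ψ y q (s l))) := by
    intro l
    refine Pool.Agent.OmEq.riem2 (fun e => A e ∧ (s l ≤ w e ∧ w e < s (l + 1))) (T l) m p ?_ ?_
      (c * (1 / K)) (by positivity) ?_ (fun y q => Ψ y q (s l)) (hcont2 (s l)) ?_
      (fun y q h => hneg y q _ h) M (fun y q h => hbM y q _ h)
    · intro x e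
      rw [hT]
      simp only [Finset.mem_filter, hS]
      tauto
    · intro e he
      exact hm e he.1
    · intro p1 p2 h12
      have h1 := hc p1 p2 (s l) (s (l + 1)) h12 (hsm (Nat.le_succ _))
      rw [hds] at h1
      have h2 : c * (p2 - p1) * (1 / K) = c * (1 / K) * (p2 - p1) := by ring
      rw [h2] at h1
      refine h1.congr fun x => ?_
      rw [hT]
      simp only [Finset.filter_filter]
      congr 3
      ext e
      simp only [Finset.mem_filter]
      tauto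
    · have hemb : Topology.IsClosedEmbedding (fun v : ℝ × ℝ => ((v.1, v.2, s l) : ℝ × ℝ × ℝ)) := by
        refine Topology.IsClosedEmbedding.of_continuous_injective_isClosedMap (by fun_prop) ?_ ?_
        · intro a a' h
          simp only [Prod.mk.injEq, and_true] at h
          exact Prod.ext h.1 h.2
        · intro C hC
          have h1 : (fun v : ℝ × ℝ => ((v.1, v.2, s l) : ℝ × ℝ × ℝ)) '' C =
              {v : ℝ × ℝ × ℝ | (v.1, v.2.1) ∈ C} ∩ {v : ℝ × ℝ × ℝ | v.2.2 = s l} := by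
            ext ⟨y, q, r⟩
            constructor
            · rintro ⟨v, hv, h⟩
              simp only [Prod.mk.injEq] at h
              obtain ⟨h1, h2, h3⟩ := h
              subst h1 h2 h3
              exact ⟨hv, rfl⟩
            · rintro ⟨h1, h2⟩
              exact ⟨(y, q), h1, by
                have h2' : r = s l := h2
                simp only [h2']⟩
          rw [h1]
          refine IsClosed.inter (hC.preimage (by fun_prop)) ?_
          exact isClosed_eq (by fun_prop) continuous_const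
      exact hcs.comp_isClosedEmbedding hemb
  have hl2 : Tendsto (fun X : ℝ => ∑ l ∈ range (2 * B * K),
      (∑ e ∈ T l (M * X), Ψ (m e / X) (p e) (s l)) / X) atTop (nhds (c * I)) := by
    have e : c * I = ∑ l ∈ range (2 * B * K), c * (1 / K) * ∫ y, ∫ q, Ψ y q (s l) := by
      rw [hI, Finset.mul_sum]
      apply Finset.sum_congr rfl
      intro l _
      ring
    rw [e]
    exact tendsto_finsetSum _ fun l _ => hslim l
  -- the number of points in the box
  have hl1 : Tendsto (fun X : ℝ => (((S (M * X)).filter (fun e => (-(B:ℝ) ≤ p e ∧ p e < B) ∧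
      (-(B:ℝ) ≤ w e ∧ w e < B))).card : ℝ) / X) atTop (nhds (c * V)) := by
    have h1 : Tendsto (fun X : ℝ => (M:ℝ) * X) atTop atTop := tendsto_id.const_mul_atTop hM0
    have h2 := ((hc (-B) B (-B) B (by linarith) (by linarith)).comp h1).const_mul (M:ℝ)
    have h3 : (M:ℝ) * (c * (B - -B) * (B - -B)) = c * V := by rw [hV]; ring
    rw [h3] at h2
    refine h2.congr' ?_
    filter_upwards [eventually_gt_atTop 0] with X hX
    simp only [Function.comp]
    field_simp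
  have hev1 := hl1.eventually (gt_mem_nhds (show c * V < c * V + 1 by linarith))
  have hev2 := (Metric.tendsto_nhds.1 hl2) (ε / 4) (by linarith)
  obtain ⟨X0, hX0⟩ := ((hev1.and hev2).and (eventually_gt_atTop (0:ℝ))).exists_forall_of_atTop
  refine ⟨X0, fun X hXX => ?_⟩
  obtain ⟨⟨h1, h2⟩, hX⟩ := hX0 X (le_of_lt hXX)
  -- the sum over the points
  have hsum : ∑ e ∈ S (b * X), Ψ (m e / X) (p e) (w e) = ∑ e ∈ S (M * X), Ψ (m e / X) (p e) (w e) := by
    apply Finset.sum_subset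
    · intro e he
      rw [hS] at he ⊢
      exact ⟨he.1, he.2.trans (mul_le_mul_of_nonneg_right hMb hX.le)⟩
    · intro e he he'
      rw [hS] at he he'
      apply hb
      rw [le_div_iff₀ hX]
      by_contra hcon
      exact he' ⟨he.1, (not_le.1 hcon).le⟩
  have hsum2 : ∑ e ∈ S (M * X), Ψ (m e / X) (p e) (w e) =
      ∑ l ∈ range (2 * B * K), ∑ e ∈ T l (M * X), Ψ (m e / X) (p e) (w e) := by
    rw [hT]
    rw [← Pool.Agent.OmEq.rt_tele (S (M * X)) w s hsm (fun e => Ψ (m e / X) (p e) (w e)) (2 * B * K),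
      Finset.sum_filter]
    apply Finset.sum_congr rfl
    intro e _
    by_cases h : s 0 ≤ w e ∧ w e < s (2 * B * K)
    · rw [if_pos h]
    · rw [if_neg h]
      by_contra hcon
      have h3 := abs_lt.1 (hB _ _ _ hcon).2
      apply h
      rw [hs0, hsJ]
      exact ⟨h3.1.le, h3.2⟩
  -- the error in the slabs
  have hcard : ∑ l ∈ range (2 * B * K), ∑ e ∈ (T l (M * X)).filter (fun e => -(B:ℝ) ≤ p e ∧ p e < B), η =
      η * (((S (M * X)).filter (fun e => (-(B:ℝ) ≤ p e ∧ p e < B) ∧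
      (-(B:ℝ) ≤ w e ∧ w e < B))).card : ℝ) := by
    have h3 := Pool.Agent.OmEq.rt_tele ((S (M * X)).filter (fun e => -(B:ℝ) ≤ p e ∧ p e < B)) w s hsm
      (fun _ => η) (2 * B * K)
    rw [hs0, hsJ, Finset.filter_filter, Finset.sum_const, nsmul_eq_mul, mul_comm] at h3
    rw [h3]
    apply Finset.sum_congr rfl
    intro l _
    rw [hT]
    simp only [Finset.filter_filter]
    congr 1
    ext e
    simp only [Finset.mem_filter]
    tauto
  have hest : |(∑ e ∈ S (b * X), Ψ (m e / X) (p e) (w e)) / X - ∑ l ∈ range (2 * B * K),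
      (∑ e ∈ T l (M * X), Ψ (m e / X) (p e) (s l)) / X| ≤ η * (c * V + 1) := by
    have h3 : (∑ e ∈ S (b * X), Ψ (m e / X) (p e) (w e)) / X - ∑ l ∈ range (2 * B * K),
        (∑ e ∈ T l (M * X), Ψ (m e / X) (p e) (s l)) / X =
        (∑ l ∈ range (2 * B * K), ∑ e ∈ T l (M * X),
          (Ψ (m e / X) (p e) (w e) - Ψ (m e / X) (p e) (s l))) / X := by
      rw [hsum, hsum2, ← Finset.sum_div, ← sub_div, ← Finset.sum_sub_distrib]
      congr 1
      apply Finset.sum_congr rfl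
      intro l _
      rw [Finset.sum_sub_distrib]
    rw [h3, abs_div, abs_of_pos hX]
    have h4 : |∑ l ∈ range (2 * B * K), ∑ e ∈ T l (M * X),
        (Ψ (m e / X) (p e) (w e) - Ψ (m e / X) (p e) (s l))| ≤
        η * (((S (M * X)).filter (fun e => (-(B:ℝ) ≤ p e ∧ p e < B) ∧
        (-(B:ℝ) ≤ w e ∧ w e < B))).card : ℝ) := by
      rw [← hcard]
      refine (Finset.abs_sum_le_sum_abs _ _).trans (Finset.sum_le_sum fun l _ => ?_)
      refine (Finset.abs_sum_le_sum_abs _ _).trans ?_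
      rw [Finset.sum_filter]
      apply Finset.sum_le_sum
      intro e he
      rw [hT] at he
      simp only [Finset.mem_filter] at he
      by_cases hp : -(B:ℝ) ≤ p e ∧ p e < B
      · rw [if_pos hp]
        exact hvar _ _ l _ ⟨he.2.1, he.2.2.le⟩
      · rw [if_neg hp]
        have h5 : ∀ r, Ψ (m e / X) (p e) r = 0 := by
          intro r
          by_contra hcon
          have h6 := abs_lt.1 (hB _ _ _ hcon).1
          exact hp ⟨h6.1.le, h6.2⟩
        rw [h5, h5]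
        simp
    calc |∑ l ∈ range (2 * B * K), ∑ e ∈ T l (M * X),
        (Ψ (m e / X) (p e) (w e) - Ψ (m e / X) (p e) (s l))| / X ≤
        η * (((S (M * X)).filter (fun e => (-(B:ℝ) ≤ p e ∧ p e < B) ∧
        (-(B:ℝ) ≤ w e ∧ w e < B))).card : ℝ) / X := div_le_div_of_nonneg_right h4 hX.le
      _ = η * ((((S (M * X)).filter (fun e => (-(B:ℝ) ≤ p e ∧ p e < B) ∧
        (-(B:ℝ) ≤ w e ∧ w e < B))).card : ℝ) / X) := by ring
      _ ≤ η * (c * V + 1) := mul_le_mul_of_nonneg_left h1.le hη0.le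
  rw [Real.dist_eq] at h2 ⊢
  have h8 : |c * I - c * ∫ y, ∫ q, ∫ r, Ψ y q r| ≤ c * (η * V) := by
    rw [← mul_sub, abs_mul, abs_of_nonneg hc0, abs_sub_comm]
    exact mul_le_mul_of_nonneg_left hint4 hc0
  have h9 : η * (c * V + 1) ≤ ε / 4 := by
    rw [← hηe]
    apply mul_le_mul_of_nonneg_left _ hη0.le
    nlinarith
  have h10 : c * (η * V) ≤ ε / 4 := by
    rw [← hηe]
    nlinarith [mul_pos hη0 hV0, mul_nonneg hc0 hη0.le]
  rw [abs_lt] at h2 ⊢
  rw [abs_le] at hest h8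
  constructor
  · linarith [hest.1, h8.1, h2.1]
  · linarith [hest.2, h8.2, h2.2]

end Pool.Agent.Spl

end
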