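import Pool.Agent.Lib_MP_92ef0c_m.M03
import Pool.Agent.Lib_MP_92ef0c_m.M07
import Pool.Agent.Lib_MP_92ef0c_m.M09
import Pool.Agent.Lib_MP_92ef0c_m.M16

/-!
# MP_92ef0c_nt, split pairs: merged library part M17

Concatenation of smaller files (each in its own section), only to save build time.
-/

/-! ### from `Lib_MP_f1a94e_mr.CPsum` -/

section

/-!
# Piece CPSUM: canonical odd Gaussian primes
-/

set_option autoImplicit false

namespace Pool.Agent.GaussMR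

namespace CPS

theorem nm_mul (z w : G) : nm (z * w) = nm z * nm w := by
  unfold nm
  rw [Zsqrtd.norm_mul, Int.natAbs_mul]

theorem mem_ball {z : G} {X : ℝ} : z ∈ ball X ↔ (nm z : ℝ) ≤ X := by
  unfold ball
  simp

theorem nm_one_of_unit {u : G} (h : IsUnit u) : nm u = 1 := Zsqrtd.norm_eq_one_iff.2 h

theorem mem_CP {y : ℝ} {w : G} : w ∈ CP y ↔
    (nm w : ℝ) ≤ y ∧ Prime w ∧ Odd (nm w) ∧ 0 < w.re ∧ 0 ≤ w.im := by
  classical
  unfold CP
  rw [Finset.mem_filter, mem_ball]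

/-- the units of the Gaussian integers -/
theorem unit_cases {u : G} (h : nm u = 1) :
    (u.re = 1 ∧ u.im = 0) ∨ (u.re = -1 ∧ u.im = 0) ∨ (u.re = 0 ∧ u.im = 1) ∨
      (u.re = 0 ∧ u.im = -1) := by
  have h1 : u.re ^ 2 + u.im ^ 2 = 1 := by
    rw [← nm_eq, h]; rfl
  have h2 : -1 ≤ u.re := by nlinarith [sq_nonneg u.im]
  have h3 : u.re ≤ 1 := by nlinarith [sq_nonneg u.im]
  have h4 : -1 ≤ u.im := by nlinarith [sq_nonneg u.re]
  have h5 : u.im ≤ 1 := by nlinarith [sq_nonneg u.re]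
  obtain ⟨a, b⟩ := u
  simp only at h1 h2 h3 h4 h5 ⊢
  interval_cases a <;> interval_cases b <;> simp_all

theorem prime_dvd_nat {w : G} (hw : Prime w) (n : ℕ) (hn : n ≠ 0) (h : w ∣ (n : G)) :
    ∃ p : ℕ, p.Prime ∧ w ∣ (p : G) := by
  induction n using Nat.recOnMul with
  | zero => exact absurd rfl hn
  | one => exact absurd (isUnit_of_dvd_one (by simpa using h)) hw.not_isUnit
  | prime p hp => exact ⟨p, hp, h⟩
  | mul a b ha hb => 
    have ha0 : a ≠ 0 := left_ne_zero_of_mul hn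
    have hb0 : b ≠ 0 := right_ne_zero_of_mul hn
    rw [Nat.cast_mul] at h
    rcases hw.dvd_or_dvd h with h | h
    · exact ha ha0 h
    · exact hb hb0 h

theorem self_dvd_nm (w : G) : w ∣ ((nm w : ℕ) : G) := by
  refine ⟨star w, ?_⟩
  have h1 : ((nm w : ℕ) : G) = ((w.norm : ℤ) : G) := by
    unfold nm
    rw [← Int.cast_natCast (R := G), Int.natAbs_of_nonneg (GaussianInt.norm_nonneg w)]
  rw [h1, Zsqrtd.norm_eq_mul_conj]

theorem nm_natCast (n : ℕ) : nm (n : G) = n ^ 2 := by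
  have h : ((nm (n : G) : ℕ) : ℤ) = ((n ^ 2 : ℕ) : ℤ) := by
    rw [nm_eq]
    simp
  exact_mod_cast h

/-- a Gaussian prime in the half open quadrant whose norm is not a prime is real -/
theorem real_of_not_prime {w : G} (hw : Prime w) (hr : 0 < w.re) (_hi : 0 ≤ w.im)
    (hn : ¬(nm w).Prime) : w.im = 0 := by
  have hw0 : nm w ≠ 0 := by
    intro h
    have : ((nm w : ℕ) : ℤ) = 0 := by rw [h]; rfl
    rw [nm_eq] at this
    nlinarith [sq_nonneg w.im]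
  obtain ⟨p, hp, u, hu⟩ := prime_dvd_nat hw _ hw0 (self_dvd_nm w)
  have h1 : nm w * nm u = p ^ 2 := by rw [← nm_mul, ← hu, nm_natCast]
  obtain ⟨i, hi2, hi⟩ := (Nat.dvd_prime_pow hp).1 (Dvd.intro _ h1)
  interval_cases i
  · exact absurd (Zsqrtd.norm_eq_one_iff.1 (by simpa [nm] using hi)) hw.not_isUnit
  · rw [pow_one] at hi
    exact absurd (hi ▸ hp) hn
  · rw [hi] at h1
    have hpp : 0 < p ^ 2 := pow_pos hp.pos 2
    have h2 : nm u = 1 := by
      have : p ^ 2 * nm u = p ^ 2 * 1 := by rw [h1, mul_one]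
      exact Nat.eq_of_mul_eq_mul_left hpp this
    have h3 := congrArg Zsqrtd.re hu
    have h4 := congrArg Zsqrtd.im hu
    simp only [Zsqrtd.re_natCast, Zsqrtd.im_natCast, Zsqrtd.re_mul, Zsqrtd.im_mul] at h3 h4
    rcases unit_cases h2 with ⟨e1, e2⟩ | ⟨e1, e2⟩ | ⟨e1, e2⟩ | ⟨e1, e2⟩ <;>
      rw [e1, e2] at h3 h4
    · linarith
    · linarith
    · linarith
    · linarith

end CPS

open CPS

/-- rotate by a power of `i` into the half open first quadrant -/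
theorem CP_exists {y : ℝ} {p : G} (hp : Prime p) (ho : Odd (nm p)) (hy : (nm p : ℝ) ≤ y) :
    ∃ w ∈ CP y, Associated w p := by
  have key : ∀ u v : G, u * v = 1 → 0 < (p * u).re → 0 ≤ (p * u).im → ∃ w ∈ CP y, Associated w p := by
    intro u v huv h1 h2
    have hun : IsUnit u := IsUnit.of_mul_eq_one v huv
    have hnu : nm (p * u) = nm p := by rw [nm_mul, nm_one_of_unit hun, mul_one]
    have hass : Associated (p * u) p := by
      refine ⟨hun.unit⁻¹, ?_⟩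
      rw [mul_assoc, IsUnit.mul_val_inv, mul_one]
    exact ⟨p * u, mem_CP.2 ⟨by rw [hnu]; exact hy, hass.symm.prime hp, by rw [hnu]; exact ho, h1, h2⟩,
      hass⟩
  have hne : p.re ≠ 0 ∨ p.im ≠ 0 := by
    by_contra h
    push Not at h
    apply hp.ne_zero
    exact Zsqrtd.ext h.1 h.2
  by_cases c1 : 0 < p.re
  · by_cases c2 : 0 ≤ p.im
    · exact key 1 1 (by simp) (by simpa using c1) (by simpa using c2)
    · push Not at c2
      refine key ⟨0, 1⟩ ⟨0, -1⟩ ?_ ?_ ?_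
      · ext <;> simp
      · simp; omega
      · simp; omega
  · push Not at c1
    by_cases c2 : 0 < p.im
    · refine key ⟨0, -1⟩ ⟨0, 1⟩ ?_ ?_ ?_
      · ext <;> simp
      · simp; omega
      · simp; omega
    · push Not at c2
      by_cases c3 : p.re = 0
      · refine key ⟨0, 1⟩ ⟨0, -1⟩ ?_ ?_ ?_
        · ext <;> simp
        · have := hne.resolve_left (by omega)
          simp; omega
        · simp; omega
      · refine key (-1) (-1) (by simp) ?_ ?_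
        · simp; omega
        · simp; omega

theorem CP_assoc {y y' : ℝ} {w w' : G} (h : w ∈ CP y) (h' : w' ∈ CP y') (ha : Associated w w') :
    w = w' := by
  rw [mem_CP] at h h'
  obtain ⟨_, _, _, h1, h2⟩ := h
  obtain ⟨_, _, _, h3, h4⟩ := h'
  obtain ⟨u, hu⟩ := ha
  have hn : nm (u : G) = 1 := nm_one_of_unit u.isUnit
  have e1 := congrArg Zsqrtd.re hu
  have e2 := congrArg Zsqrtd.im hu
  simp only [Zsqrtd.re_mul, Zsqrtd.im_mul] at e1 e2
  rcases unit_cases hn with ⟨a, b⟩ | ⟨a, b⟩ | ⟨a, b⟩ | ⟨a, b⟩ <;> rw [a, b] at e1 e2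
  · apply Zsqrtd.ext <;> linarith
  · exfalso; linarith
  · exfalso; linarith
  · exfalso; linarith

/-- the norm of an odd Gaussian prime is at least 5 -/
theorem CP_nm {y : ℝ} {w : G} (h : w ∈ CP y) : 5 ≤ nm w := by
  rw [mem_CP] at h
  obtain ⟨_, hp, ho, h1, h2⟩ := h
  by_contra hcon
  push Not at hcon
  have hne1 : nm w ≠ 1 := fun h => hp.not_isUnit (Zsqrtd.norm_eq_one_iff.1 h)
  have h3 : nm w = 3 := by
    obtain ⟨k, hk⟩ := ho
    omega
  have h4 := nm_eq w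
  rw [h3] at h4
  push_cast at h4
  have h5 : w.re ≤ 1 := by nlinarith [sq_nonneg w.im]
  have h6 : w.im ≤ 1 := by nlinarith [sq_nonneg w.re]
  have h7 : w.re ^ 2 ≤ 1 := by nlinarith
  have h8 : w.im ^ 2 ≤ 1 := by nlinarith
  linarith

open Classical in
/-- the canonical primes are: two of norm `p` for each prime `p = 1 mod 4`, and the primes `q = 3 mod 4`,
of norm `q ^ 2`. So the sum is at most `2 ∑_{y' < p ≤ y, p = 1 mod 4} 1 / p + ∑ 1 / q ^ 2`. -/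
theorem CP_sum : ∃ C : ℝ, 0 < C ∧ ∀ y y' : ℝ, 2 ≤ y' → y' ≤ y →
    ∑ w ∈ (CP y).filter (fun w => y' < (nm w : ℝ)), 1 / (nm w : ℝ) ≤
      Real.log (Real.log y) - Real.log (Real.log y') + C := by
  obtain ⟨C, hC⟩ := Ls_bounds
  refine ⟨2 * |C| + 2, by positivity, fun y y' hy' hyy => ?_⟩
  set A := (CP y).filter (fun w => y' < (nm w : ℝ)) with hA
  set A1 := A.filter (fun w => (nm w).Prime ∧ w.im < w.re)
  set A2 := A.filter (fun w => (nm w).Prime ∧ ¬ w.im < w.re)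
  set A3 := A.filter (fun w => ¬ (nm w).Prime)
  have hsplit : A = A1 ∪ A2 ∪ A3 := by
    ext w
    simp only [A1, A2, A3, Finset.mem_union, Finset.mem_filter]
    tauto
  have h1 : ∑ w ∈ A1, 1 / (nm w : ℝ) ≤ Ls y' y := by
    unfold Ls
    refine Finset.sum_le_sum_of_subset_of_nonneg ?_ fun w _ _ => by positivity
    intro w hw
    simp only [A1, hA, Finset.mem_filter, mem_CP] at hw
    obtain ⟨⟨⟨a1, a2, a3, a4, a5⟩, a6⟩, a7, a8⟩ := hw
    rw [mem_PP]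
    refine ⟨a6, a1, a7, ?_, a8⟩
    rcases a5.lt_or_eq with h | h
    · exact h
    · exfalso
      have h4 := nm_eq w
      rw [← h] at h4
      have h5 : nm w = w.re.natAbs * w.re.natAbs := by
        zify
        rw [h4, abs_mul_abs_self]
        ring
      rw [h5] at a7
      exact Nat.not_prime_mul (a := w.re.natAbs) (b := w.re.natAbs) (fun h => by rw [h] at a7; exact Nat.not_prime_one a7) (fun h => by rw [h] at a7; exact Nat.not_prime_one a7) a7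
  have h2 : ∑ w ∈ A2, 1 / (nm w : ℝ) ≤ Ls y' y := by
    unfold Ls
    have hsw : ∀ w : G, nm (⟨w.im, w.re⟩ : G) = nm w := by
      intro w
      zify
      rw [nm_eq, nm_eq]
      ring
    calc ∑ w ∈ A2, 1 / (nm w : ℝ) = ∑ w ∈ A2.image (fun w : G => (⟨w.im, w.re⟩ : G)), 1 / (nm w : ℝ) := by
          rw [Finset.sum_image]
          · refine Finset.sum_congr rfl fun w _ => ?_
            rw [hsw]
          · intro w _ w' _ h
            have e1 := congrArg Zsqrtd.re h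
            have e2 := congrArg Zsqrtd.im h
            exact Zsqrtd.ext e2 e1
      _ ≤ ∑ w ∈ PP y' y, 1 / (nm w : ℝ) := by
          refine Finset.sum_le_sum_of_subset_of_nonneg ?_ fun w _ _ => by positivity
          intro w' hw'
          rw [Finset.mem_image] at hw'
          obtain ⟨w, hw, rfl⟩ := hw'
          simp only [A2, hA, Finset.mem_filter, mem_CP] at hw
          obtain ⟨⟨⟨a1, a2, a3, a4, a5⟩, a6⟩, a7, a8⟩ := hw
          rw [mem_PP, hsw]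
          refine ⟨a6, a1, a7, a4, ?_⟩
          show w.re < w.im
          push Not at a8
          rcases a8.lt_or_eq with h | h
          · exact h
          · exfalso
            have h4 := nm_eq w
            rw [h] at h4
            obtain ⟨k, hk⟩ := a3
            rw [hk] at h4
            push_cast at h4
            have : (2 : ℤ) * k + 1 = 2 * w.im ^ 2 := by linarith
            omega
  have h3 : ∑ w ∈ A3, 1 / (nm w : ℝ) ≤ 2 := by
    have hreal : ∀ w ∈ A3, w.im = 0 ∧ 0 < w.re ∧ (nm w : ℝ) = (w.re.toNat : ℝ) ^ 2 := by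
      intro w hw
      simp only [A3, hA, Finset.mem_filter, mem_CP] at hw
      obtain ⟨⟨⟨a1, a2, a3, a4, a5⟩, a6⟩, a7⟩ := hw
      have him := real_of_not_prime a2 a4 a5 a7
      refine ⟨him, a4, ?_⟩
      have h4 := nm_eq w
      rw [him] at h4
      have h5 : ((w.re.toNat : ℕ) : ℤ) = w.re := Int.toNat_of_nonneg a4.le
      have h6 : (nm w : ℤ) = ((w.re.toNat : ℕ) : ℤ) ^ 2 := by rw [h4, h5]; ring
      exact_mod_cast h6
    set N := ∑ w ∈ A3, w.re.toNat with hN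
    calc ∑ w ∈ A3, 1 / (nm w : ℝ) = ∑ n ∈ A3.image (fun w : G => w.re.toNat), 1 / (n : ℝ) ^ 2 := by
          rw [Finset.sum_image]
          · refine Finset.sum_congr rfl fun w hw => ?_
            rw [(hreal w hw).2.2]
          · intro w hw w' hw' h
            obtain ⟨b1, b2, _⟩ := hreal w hw
            obtain ⟨c1, c2, _⟩ := hreal w' hw'
            have h' : w.re.toNat = w'.re.toNat := h
            apply Zsqrtd.ext
            · omega
            · rw [b1, c1]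
      _ ≤ ∑ n ∈ Finset.Ioc 0 N, 1 / (n : ℝ) ^ 2 := by
          refine Finset.sum_le_sum_of_subset_of_nonneg ?_ fun w _ _ => by positivity
          intro n hn
          rw [Finset.mem_image] at hn
          obtain ⟨w, hw, rfl⟩ := hn
          rw [Finset.mem_Ioc]
          obtain ⟨b1, b2, _⟩ := hreal w hw
          refine ⟨by omega, ?_⟩
          rw [hN]
          exact Finset.single_le_sum (f := fun w : G => w.re.toNat) (fun _ _ => Nat.zero_le _) hw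
      _ ≤ 2 := by
          have h5 : Finset.Ioc 0 N = Finset.Ioo 0 (N + 1) := by
            ext n; simp only [Finset.mem_Ioc, Finset.mem_Ioo]; omega
          have h6 := sum_Ioo_inv_sq_le (α := ℝ) 0 (N + 1)
          have h7 : ∑ n ∈ Finset.Ioo 0 (N + 1), 1 / (n : ℝ) ^ 2 =
              ∑ n ∈ Finset.Ioo 0 (N + 1), ((n : ℝ) ^ 2)⁻¹ :=
            Finset.sum_congr rfl fun n _ => one_div _
          rw [h5, h7]
          norm_num at h6 ⊢
          exact h6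
  have h4 : ∑ w ∈ A, 1 / (nm w : ℝ) ≤ ∑ w ∈ A1, 1 / (nm w : ℝ) + ∑ w ∈ A2, 1 / (nm w : ℝ) +
      ∑ w ∈ A3, 1 / (nm w : ℝ) := by
    have hnn : ∀ s : Finset G, 0 ≤ ∑ w ∈ s, 1 / (nm w : ℝ) := fun s =>
      Finset.sum_nonneg fun w _ => by positivity
    have e1 := Finset.sum_union_inter (s₁ := A1 ∪ A2) (s₂ := A3) (f := fun w : G => 1 / (nm w : ℝ))
    have e2 := Finset.sum_union_inter (s₁ := A1) (s₂ := A2) (f := fun w : G => 1 / (nm w : ℝ))
    rw [← hsplit] at e1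
    have e3 := hnn ((A1 ∪ A2) ∩ A3)
    have e4 := hnn (A1 ∩ A2)
    linarith
  have h5 := hC y' y hy' hyy
  have h6 := (abs_le.1 h5).2
  have h7 : C ≤ |C| := le_abs_self C
  linarith

end Pool.Agent.GaussMR

end

/-! ### from `Lib_MP_92ef0c_spm.SMDefs` -/

section

/-!
# MP_92ef0c_nt, split twin, block M: definitions

Sums over coprime pairs `(x, y)` in a box with the characters `(y / x) ^ (i t)`, `t = k / N`. The primes which are
extracted divide `x`; they are the primes `1 mod 4`, indexed as in `Lib_MP_f1a94e_mr` (so that `Ls` is reused).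
-/

set_option autoImplicit false

namespace Pool.Agent.SplM

open Pool.Agent.GaussMR (fr mem_fr nm nv Ls)

/-- completely multiplicative functions bounded by one -/
structure CMN (f : ℕ → ℂ) : Prop where
  mul : ∀ m n, f (m * n) = f m * f n
  bd : ∀ n, ‖f n‖ ≤ 1

/-- `n ^ (i t)` -/
noncomputable def nit (t : ℝ) (n : ℕ) : ℂ := Complex.exp ((t * Real.log n : ℝ) * Complex.I)

/-- `(y / x) ^ (i t)` -/
noncomputable def ch (t : ℝ) (z : ℕ × ℕ) : ℂ := Complex.exp ((t * Spl.dirn z : ℝ) * Complex.I)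

/-- the sum over the coprime pairs of a box -/
noncomputable def Ps (f g : ℕ → ℂ) (C D t : ℝ) : ℂ := ∑ z ∈ Spl.PB C D, f z.1 * g z.2 * ch t z

/-- the primes `1 mod 4` with `P < p ≤ Q` -/
noncomputable def pp (P Q : ℝ) : Finset ℕ := (GaussMR.PP P Q).image nm

/-- the block of `pp P Q` in `(exp (v ρ), exp ((v + 1) ρ)]` -/
noncomputable def bk (P Q ρ : ℝ) (v : ℕ) : Finset ℕ := (GaussMR.blk P Q ρ v).image nm

/-- the number of primes of `pp P Q` dividing `x` -/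
noncomputable def om1 (P Q : ℝ) (x : ℕ) : ℝ := (((pp P Q).filter (fun p => p ∣ x)).card : ℝ)

/-- the prime polynomial of a block -/
noncomputable def Up (f : ℕ → ℂ) (N : ℕ) (P Q ρ : ℝ) (v : ℕ) (k : ℤ) : ℂ :=
  ∑ p ∈ bk P Q ρ v, f p * nit (-((k : ℝ) / N)) p

/-- the factorised main term of a stage -/
noncomputable def UZs (f g : ℕ → ℂ) (N : ℕ) (P Q ρ C D : ℝ) (k : ℤ) : ℂ :=
  ∑ v ∈ Finset.range (nv Q ρ), Up f N P Q ρ v k * Ps f g (C * Real.exp (-(v * ρ))) D ((k : ℝ) / N)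

/-- terms `(p x, y)` with `p ∣ y` -/
noncomputable def A2S (f g : ℕ → ℂ) (N : ℕ) (P Q ρ C D : ℝ) (k : ℤ) : ℂ :=
  ∑ v ∈ Finset.range (nv Q ρ), ∑ p ∈ bk P Q ρ v, f p * nit (-((k : ℝ) / N)) p *
    ∑ z ∈ (Spl.PB (C * Real.exp (-(v * ρ))) D).filter (fun z => p ∣ z.2), f z.1 * g z.2 * ch ((k : ℝ) / N) z

open Classical in
/-- number of representations `x = p x'` with `p` in block `v`, `x' ≤ C exp (-(v ρ))` -/
noncomputable def mS (P Q ρ C : ℝ) (x : ℕ) : ℕ :=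
  ∑ v ∈ Finset.range (nv Q ρ), ((bk P Q ρ v).filter (fun p => p ∣ x ∧
    (x : ℝ) ≤ C * Real.exp (-(v * ρ)) * p)).card

/-- terms `(p x, y)` with `p x > C` -/
noncomputable def A3S (f g : ℕ → ℂ) (N : ℕ) (P Q ρ C D : ℝ) (k : ℤ) : ℂ :=
  ∑ z ∈ Spl.PB (C * Real.exp ρ) D \ Spl.PB C D, f z.1 * g z.2 * (mS P Q ρ C z.1 : ℂ) * ch ((k : ℝ) / N) z

open Classical in
/-- frequencies for which all prime polynomials of stage `j` are small -/
noncomputable def smallS (f : ℕ → ℂ) (N T : ℕ) (P Q r a : ℝ) : Finset ℤ :=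
  (fr T).filter (fun k => ∀ v : ℕ, ‖Up f N P Q r v k‖ ≤ Real.exp ((1 - a) * (v * r)))

/-! ### basic lemmas -/

theorem mem_pp {P Q : ℝ} {p : ℕ} : p ∈ pp P Q ↔ p.Prime ∧ p % 4 = 1 ∧ P < p ∧ (p : ℝ) ≤ Q := by
  unfold pp
  rw [Finset.mem_image]
  constructor
  · rintro ⟨w, hw, rfl⟩
    have h1 := GaussMR.mem_PP.1 hw
    have h2 := GaussMR.PP_spl hw
    exact ⟨h2.1, h2.2, h1.1, h1.2.1⟩
  · rintro ⟨h1, h2, h3, h4⟩
    exact GaussMR.PP_exists h1 h2 h3 h4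

theorem mem_bk {P Q ρ : ℝ} {v p : ℕ} : p ∈ bk P Q ρ v ↔ p ∈ pp P Q ∧ Real.exp (v * ρ) < p ∧
    (p : ℝ) ≤ Real.exp ((v + 1) * ρ) := by
  unfold bk pp
  rw [Finset.mem_image, Finset.mem_image]
  constructor
  · rintro ⟨w, hw, rfl⟩
    have h1 := GaussMR.mem_blk.1 hw
    exact ⟨⟨w, h1.1, rfl⟩, h1.2⟩
  · rintro ⟨⟨w, hw, rfl⟩, h1⟩
    exact ⟨w, GaussMR.mem_blk.2 ⟨hw, h1⟩, rfl⟩

theorem pp_prime {P Q : ℝ} {p : ℕ} (h : p ∈ pp P Q) : p.Prime := (mem_pp.1 h).1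

theorem bk_prime {P Q ρ : ℝ} {v p : ℕ} (h : p ∈ bk P Q ρ v) : p.Prime := pp_prime (mem_bk.1 h).1

theorem nm_injOn (P Q : ℝ) : Set.InjOn nm (GaussMR.PP P Q : Set GaussMR.G) := fun _ ha _ hb h =>
  GaussMR.PP_inj (Finset.mem_coe.1 ha) (Finset.mem_coe.1 hb) h

theorem sum_pp (P Q : ℝ) : ∑ p ∈ pp P Q, 1 / (p : ℝ) = Ls P Q := by
  unfold pp Ls
  rw [Finset.sum_image (nm_injOn P Q)]

theorem Ls_nonneg (P Q : ℝ) : 0 ≤ Ls P Q := Finset.sum_nonneg fun w _ => by positivity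

theorem bk_unique {P Q ρ : ℝ} {v v' p : ℕ} (hρ : 0 < ρ) (h : p ∈ bk P Q ρ v) (h' : p ∈ bk P Q ρ v') : v = v' := by
  unfold bk at h h'
  rw [Finset.mem_image] at h h'
  obtain ⟨w, hw, rfl⟩ := h
  obtain ⟨w', hw', h1⟩ := h'
  have h2 : w' = w := GaussMR.PP_inj (GaussMR.mem_blk.1 hw').1 (GaussMR.mem_blk.1 hw).1 h1
  subst h2
  exact GaussMR.blk_unique hρ hw hw'

theorem bk_exists {P Q ρ : ℝ} {p : ℕ} (hP : 1 ≤ P) (hρ : 0 < ρ) (h : p ∈ pp P Q) :
    ∃ v ∈ Finset.range (nv Q ρ), p ∈ bk P Q ρ v := by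
  unfold pp at h
  rw [Finset.mem_image] at h
  obtain ⟨w, hw, rfl⟩ := h
  obtain ⟨v, hv, hvw⟩ := GaussMR.blk_exists hP hρ hw
  exact ⟨v, hv, Finset.mem_image_of_mem _ hvw⟩

theorem norm_nit (t : ℝ) (n : ℕ) : ‖nit t n‖ = 1 := by
  unfold nit
  exact Complex.norm_exp_ofReal_mul_I _

theorem norm_ch (t : ℝ) (z : ℕ × ℕ) : ‖ch t z‖ = 1 := by
  unfold ch
  exact Complex.norm_exp_ofReal_mul_I _

theorem ch_mul (t : ℝ) {p x : ℕ} (y : ℕ) (hp : 0 < p) (hx : 0 < x) : ch t (p * x, y) = nit (-t) p * ch t (x, y) := by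
  unfold ch nit Spl.dirn
  rw [← Complex.exp_add]
  congr 1
  simp only
  have h1 : Real.log ((p * x : ℕ) : ℝ) = Real.log p + Real.log x := by
    push_cast
    exact Real.log_mul (by exact_mod_cast hp.ne') (by exact_mod_cast hx.ne')
  rw [h1]
  push_cast
  ring

theorem ch_mul' (t : ℝ) {p x y : ℕ} (hp : 0 < p) (hy : 0 < y) : nit (-t) p * ch t (x, p * y) = ch t (x, y) := by
  unfold ch nit Spl.dirn
  rw [← Complex.exp_add]
  congr 1
  simp only
  have h1 : Real.log ((p * y : ℕ) : ℝ) = Real.log p + Real.log y := by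
    push_cast
    exact Real.log_mul (by exact_mod_cast hp.ne') (by exact_mod_cast hy.ne')
  rw [h1]
  push_cast
  ring

theorem ch_eq (t : ℝ) (z : ℕ × ℕ) : ch t z = nit t z.2 * nit (-t) z.1 := by
  unfold ch nit Spl.dirn
  rw [← Complex.exp_add]
  congr 1
  push_cast
  ring

theorem nit_mul (t : ℝ) {m n : ℕ} (hm : 0 < m) (hn : 0 < n) : nit t (m * n) = nit t m * nit t n := by
  unfold nit
  rw [← Complex.exp_add]
  congr 1
  have h1 : Real.log ((m * n : ℕ) : ℝ) = Real.log m + Real.log n := by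
    push_cast
    exact Real.log_mul (by exact_mod_cast hm.ne') (by exact_mod_cast hn.ne')
  rw [h1]
  push_cast
  ring

/-- frequencies `k / N` are powers -/
theorem ch_zpow (N : ℕ) (k : ℤ) (z : ℕ × ℕ) : ch ((k : ℝ) / N) z = ch (1 / (N : ℝ)) z ^ k := by
  unfold ch
  rw [← Complex.exp_int_mul]
  congr 1
  push_cast
  ring

theorem card_PB_le (C D : ℝ) (hC : 0 ≤ C) (hD : 0 ≤ D) : ((Spl.PB C D).card : ℝ) ≤ C * D := by
  unfold Spl.PB
  have h1 : ((Finset.Icc 1 ⌊C⌋₊ ×ˢ Finset.Icc 1 ⌊D⌋₊).filter (fun z : ℕ × ℕ => z.1.Coprime z.2)).card ≤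
      ⌊C⌋₊ * ⌊D⌋₊ := by
    refine (Finset.card_filter_le _ _).trans ?_
    rw [Finset.card_product, Nat.card_Icc, Nat.card_Icc]
    simp
  have h2 : ((⌊C⌋₊ * ⌊D⌋₊ : ℕ) : ℝ) ≤ C * D := by
    push_cast
    exact mul_le_mul (Nat.floor_le hC) (Nat.floor_le hD) (Nat.cast_nonneg _) hC
  exact le_trans (by exact_mod_cast h1) h2

end Pool.Agent.SplM

end

/-! ### from `Lib_MP_92ef0c_spm.LsBox` -/

section

/-!
# the large sieve for the directions of the coprime pairs of a box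
-/

set_option autoImplicit false

namespace Pool.Agent.SplM

open Pool.Agent.GaussMR (fr mem_fr)

private theorem lsb_mem {C D : ℝ} {z : ℕ × ℕ} (hz : z ∈ Spl.PB C D) :
    1 ≤ z.1 ∧ 1 ≤ z.2 ∧ (z.1 : ℝ) ≤ C ∧ (z.2 : ℝ) ≤ D ∧ z.1.Coprime z.2 := by
  unfold Spl.PB at hz
  rw [Finset.mem_filter, Finset.mem_product, Finset.mem_Icc, Finset.mem_Icc] at hz
  obtain ⟨⟨⟨h1, h2⟩, h3, h4⟩, h5⟩ := hz
  exact ⟨h1, h3, (Nat.le_floor_iff' (by omega)).1 h2, (Nat.le_floor_iff' (by omega)).1 h4, h5⟩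

private theorem lsb_sub {C D : ℝ} {z w : ℕ × ℕ} (hz : z ∈ Spl.PB C D) (hw : w ∈ Spl.PB C D) :
    Spl.dirn z - Spl.dirn w = Real.log ((z.2 * w.1 : ℕ) : ℝ) - Real.log ((w.2 * z.1 : ℕ) : ℝ) := by
  obtain ⟨h1, h2, -, -, -⟩ := lsb_mem hz
  obtain ⟨h3, h4, -, -, -⟩ := lsb_mem hw
  have e1 : (z.1 : ℝ) ≠ 0 := by positivity
  have e2 : (z.2 : ℝ) ≠ 0 := by positivity
  have e3 : (w.1 : ℝ) ≠ 0 := by positivity
  have e4 : (w.2 : ℝ) ≠ 0 := by positivity
  unfold Spl.dirn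
  push_cast
  rw [Real.log_mul e2 e3, Real.log_mul e4 e1]
  ring

private theorem lsb_le {C D Y : ℝ} (hY : C * D ≤ Y) {z w : ℕ × ℕ} (hz : z ∈ Spl.PB C D) (hw : w ∈ Spl.PB C D) :
    1 ≤ z.2 * w.1 ∧ ((z.2 * w.1 : ℕ) : ℝ) ≤ Y := by
  obtain ⟨h1, h2, h5, h6, -⟩ := lsb_mem hz
  obtain ⟨h3, h4, h7, h8, -⟩ := lsb_mem hw
  refine ⟨Nat.mul_pos h2 h3, ?_⟩
  push_cast
  have e2 : (0 : ℝ) ≤ z.2 := Nat.cast_nonneg _
  have e3 : (0 : ℝ) ≤ w.1 := Nat.cast_nonneg _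
  calc (z.2 : ℝ) * w.1 ≤ D * C := mul_le_mul h6 h7 e3 (e2.trans h6)
    _ = C * D := mul_comm _ _
    _ ≤ Y := hY

private theorem lsb_log {a b : ℕ} {Y : ℝ} (ha : 1 ≤ a) (hab : a < b) (hb : (b : ℝ) ≤ Y) :
    1 / Y ≤ Real.log b - Real.log a := by
  have ha0 : (0 : ℝ) < a := by exact_mod_cast ha
  have hab' : (a : ℝ) + 1 ≤ b := by exact_mod_cast hab
  have hb0 : (0 : ℝ) < b := by linarith
  rw [← Real.log_div hb0.ne' ha0.ne']
  have h1 := Real.one_sub_inv_le_log_of_pos (div_pos hb0 ha0)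
  rw [inv_div] at h1
  refine le_trans ?_ h1
  have h2 : 1 / (b : ℝ) ≤ 1 - a / b := by
    rw [le_sub_iff_add_le, ← add_div, div_le_one hb0]
    linarith
  exact (one_div_le_one_div_of_le hb0 hb).trans h2

/-- Directions of distinct coprime pairs: `y x' ≠ y' x` are positive integers `≤ C D ≤ Y` (if `y x' = y' x` then
`(x, y) = (x', y')` by coprimality), and `|log a - log b| ≥ 1 / max a b` for positive integers `a ≠ b`
(`log (b / a) ≥ 1 - a / b`). -/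
theorem dirn_gap (C D Y : ℝ) (hY : C * D ≤ Y) (z w : ℕ × ℕ) (hz : z ∈ Spl.PB C D) (hw : w ∈ Spl.PB C D)
    (hne : z ≠ w) : 1 / Y ≤ |Spl.dirn z - Spl.dirn w| := by
  obtain ⟨h1, h2, -, -, h5⟩ := lsb_mem hz
  obtain ⟨h3, h4, -, -, h6⟩ := lsb_mem hw
  obtain ⟨ha, haY⟩ := lsb_le hY hz hw
  obtain ⟨hb, hbY⟩ := lsb_le hY hw hz
  have hab : z.2 * w.1 ≠ w.2 * z.1 := by
    intro h
    have d1 : z.1 ∣ w.1 := by
      have : z.1 ∣ z.2 * w.1 := by rw [h]; exact Dvd.intro_left _ rfl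
      exact h5.dvd_of_dvd_mul_left this
    have d2 : w.1 ∣ z.1 := by
      have : w.1 ∣ w.2 * z.1 := by rw [← h]; exact Dvd.intro_left _ rfl
      exact h6.dvd_of_dvd_mul_left this
    have e1 : z.1 = w.1 := Nat.dvd_antisymm d1 d2
    rw [e1] at h
    have e2 : z.2 = w.2 := Nat.eq_of_mul_eq_mul_right h3 h
    exact hne (Prod.ext e1 e2)
  rw [lsb_sub hz hw]
  rcases lt_or_gt_of_ne hab with h | h
  · rw [abs_sub_comm]
    exact (lsb_log ha h hbY).trans (le_abs_self _)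
  · exact (lsb_log hb h haY).trans (le_abs_self _)

/-- `|dirn z - dirn w| = |log (y x') - log (y' x)| ≤ log (C D) ≤ log Y`, as `1 ≤ y x' ≤ C D`. -/
theorem dirn_diam (C D Y : ℝ) (hY : C * D ≤ Y) (z w : ℕ × ℕ) (hz : z ∈ Spl.PB C D) (hw : w ∈ Spl.PB C D) :
    |Spl.dirn z - Spl.dirn w| ≤ Real.log Y := by
  obtain ⟨ha, haY⟩ := lsb_le hY hz hw
  obtain ⟨hb, hbY⟩ := lsb_le hY hw hz
  rw [lsb_sub hz hw]
  have e1 : (1 : ℝ) ≤ ((z.2 * w.1 : ℕ) : ℝ) := by exact_mod_cast ha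
  have e2 : (1 : ℝ) ≤ ((w.2 * z.1 : ℕ) : ℝ) := by exact_mod_cast hb
  have h1 := Real.log_nonneg e1
  have h2 := Real.log_nonneg e2
  have h3 := Real.log_le_log (by linarith) haY
  have h4 := Real.log_le_log (by linarith) hbY
  rw [abs_le]
  constructor
  · linarith
  · linarith

private theorem lsb_chord {α β : ℝ} (h : |α - β| ≤ 3) :
    |α - β| / 2 ≤ ‖Complex.exp (α * Complex.I) - Complex.exp (β * Complex.I)‖ := by
  have h1 : Complex.exp (α * Complex.I) - Complex.exp (β * Complex.I) =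
      Complex.exp (β * Complex.I) * (Complex.exp (Complex.I * ((α - β : ℝ) : ℂ)) - 1) := by
    rw [mul_sub, mul_one, ← Complex.exp_add]
    congr 2
    push_cast
    ring
  rw [h1, norm_mul, Complex.norm_exp_ofReal_mul_I, one_mul, Complex.norm_exp_I_mul_ofReal_sub_one,
    Real.norm_eq_abs, abs_mul, abs_two]
  have hpi : 3 < Real.pi := Real.pi_gt_three
  have hpi4 : Real.pi ≤ 4 := Real.pi_le_four
  have h2 : |Real.sin ((α - β) / 2)| = Real.sin (|α - β| / 2) := by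
    rcases abs_cases (α - β) with ⟨h3, h4⟩ | ⟨h3, h4⟩
    · rw [h3, abs_of_nonneg]
      exact Real.sin_nonneg_of_nonneg_of_le_pi (by linarith) (by linarith)
    · rw [h3, neg_div, Real.sin_neg, abs_of_nonpos]
      refine Real.sin_nonpos_of_nonpos_of_neg_pi_le (by linarith) (by linarith)
  rw [h2]
  have h3 : 0 ≤ |α - β| := abs_nonneg _
  have h4 := Real.mul_le_sin (x := |α - β| / 2) (by linarith) (by linarith)
  have h5 : 1 / 2 ≤ 2 / Real.pi := by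
    rw [div_le_div_iff₀ (by norm_num) Real.pi_pos]
    linarith
  nlinarith

/-- Large sieve. `ch (k / N) z = ch (1 / N) z ^ k` (`ch_zpow`), `‖ch (1 / N) z - ch (1 / N) w‖ = 2 |sin (θ / 2)|`
with `θ = (dirn z - dirn w) / N`, `|θ| ≤ log Y / N ≤ 3 ≤ π`, hence `≥ (2 / π) |θ| ≥ 1 / (2 N Y)` by `dirn_gap`.
`ls_gen` with `δ = 1 / (2 N Y)`. Take `A = 4800`. -/
theorem lsB : ∃ A : ℝ, 0 < A ∧ ∀ (N : ℕ) (C D Y : ℝ) (T : ℕ) (a : ℕ × ℕ → ℂ), 1 ≤ N → 1 ≤ Y → C * D ≤ Y →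
    Real.log Y ≤ 3 * N →
    ∑ k ∈ fr T, ‖∑ z ∈ Spl.PB C D, a z * ch ((k : ℝ) / N) z‖ ^ 2 ≤
      A * (T + N * Y) * ∑ z ∈ Spl.PB C D, ‖a z‖ ^ 2 := by
  refine ⟨4800, by norm_num, ?_⟩
  intro N C D Y T a hN hY hCD hlog
  have hN0 : (0 : ℝ) < N := by exact_mod_cast hN
  have hN1 : (1 : ℝ) ≤ N := by exact_mod_cast hN
  have hY0 : 0 < Y := by linarith
  have hNY : 1 ≤ (N : ℝ) * Y := by nlinarith
  have hδ : 0 < 1 / (2 * (N * Y)) := by positivity
  have hδ1 : 1 / (2 * (N * Y)) ≤ 1 := by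
    rw [div_le_one (by positivity)]
    linarith
  have hsep : ∀ z ∈ Spl.PB C D, ∀ w ∈ Spl.PB C D, z ≠ w →
      1 / (2 * (N * Y)) ≤ ‖ch (1 / (N : ℝ)) z - ch (1 / (N : ℝ)) w‖ := by
    intro z hz w hw hne
    have h1 := dirn_gap C D Y hCD z w hz hw hne
    have h2 := dirn_diam C D Y hCD z w hz hw
    unfold ch
    have h3 : |1 / (N : ℝ) * Spl.dirn z - 1 / (N : ℝ) * Spl.dirn w| = |Spl.dirn z - Spl.dirn w| / N := by
      rw [← mul_sub, abs_mul, abs_of_pos (by positivity : (0 : ℝ) < 1 / N)]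
      ring
    have h4 := lsb_chord (α := 1 / (N : ℝ) * Spl.dirn z) (β := 1 / (N : ℝ) * Spl.dirn w) (by
      rw [h3, div_le_iff₀ hN0]
      linarith)
    refine le_trans ?_ h4
    rw [h3]
    have h5 : 1 / (2 * ((N : ℝ) * Y)) = 1 / Y / N / 2 := by
      field_simp
    rw [h5]
    gcongr
  have h := ls_gen (Spl.PB C D) (fun z => ch (1 / (N : ℝ)) z) (1 / (2 * (N * Y))) hδ hδ1
    (fun z _ => norm_ch _ z) hsep T a
  rw [one_div_one_div] at h
  have h6 : ∀ k : ℤ, ∑ z ∈ Spl.PB C D, a z * ch ((k : ℝ) / N) z =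
      ∑ z ∈ Spl.PB C D, a z * ch (1 / (N : ℝ)) z ^ k := fun k =>
    Finset.sum_congr rfl fun z _ => by rw [ch_zpow]
  simp_rw [h6]
  refine h.trans ?_
  have hS : 0 ≤ ∑ z ∈ Spl.PB C D, ‖a z‖ ^ 2 := Finset.sum_nonneg fun z _ => by positivity
  refine mul_le_mul_of_nonneg_right ?_ hS
  have hT : (0 : ℝ) ≤ T := Nat.cast_nonneg T
  linarith

end Pool.Agent.SplM

end

/-! ### from `Lib_MP_92ef0c_spm.ArcS` -/

section

/-!
# Parseval for sums over short intervals of directions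
-/

set_option autoImplicit false

namespace Pool.Agent.SplM

open Pool.Agent.GaussMR (fr mem_fr)
open MeasureTheory

/-- weight of an interval of length `δ` at the frequency `r / N` -/
private noncomputable def arcSW (N : ℕ) (δ r : ℝ) : ℂ :=
  (1 / (2 * Real.pi * N) : ℝ) • ∫ u in (-δ)..0, Complex.exp (-(r / N * u : ℝ) * Complex.I)

/-- the sum over an interval -/
private noncomputable def arcSS (F : ℕ × ℕ → ℂ) (C D δ τ : ℝ) : ℂ :=
  ∑ z ∈ Spl.PB C D, (if τ ≤ Spl.dirn z ∧ Spl.dirn z < τ + δ then F z else 0)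

/-- the sum over an interval, twisted -/
private noncomputable def arcST (F : ℕ × ℕ → ℂ) (C D δ s : ℝ) (N : ℕ) (τ : ℝ) : ℂ :=
  Complex.exp ((s / N * τ : ℝ) * Complex.I) * arcSS F C D δ τ

/-- the coefficient -/
private noncomputable def arcSP (F : ℕ × ℕ → ℂ) (N : ℕ) (C D s : ℝ) (k : ℤ) : ℂ :=
  ∑ z ∈ Spl.PB C D, F z * ch (((k : ℝ) + s) / N) z

private theorem arcS_set (δ d : ℝ) : {τ : ℝ | τ ≤ d ∧ d < τ + δ} = Set.Ioc (d - δ) d := by
  ext τ
  simp only [Set.mem_ofPred_eq, Set.mem_Ioc]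
  constructor
  · rintro ⟨h1, h2⟩
    exact ⟨by linarith, h1⟩
  · rintro ⟨h1, h2⟩
    exact ⟨h2, by linarith⟩

private theorem arcS_meas (δ d : ℝ) : MeasurableSet {τ : ℝ | τ ≤ d ∧ d < τ + δ} := by
  rw [arcS_set]
  exact measurableSet_Ioc

/-- one term of the integral -/
private theorem arcS_one (N : ℕ) (a b δ d : ℝ) (hδ : 0 < δ) (had : a ≤ d - δ) (hdb : d ≤ b) (n : ℝ) :
    ∫ τ in a..b, (if τ ≤ d ∧ d < τ + δ then Complex.exp (-(n / N * τ : ℝ) * Complex.I) else 0) =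
      Complex.exp (-(n / N * d : ℝ) * Complex.I) *
        ∫ u in (-δ)..0, Complex.exp (-(n / N * u : ℝ) * Complex.I) := by
  have h2 : ∫ τ in a..b, (if τ ≤ d ∧ d < τ + δ then
      Complex.exp (-(n / N * τ : ℝ) * Complex.I) else 0) =
      ∫ τ in (d - δ)..d, Complex.exp (-(n / N * τ : ℝ) * Complex.I) := by
    rw [intervalIntegral.integral_of_le (by linarith), intervalIntegral.integral_of_le (by linarith)]
    rw [← MeasureTheory.integral_indicator measurableSet_Ioc,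
      ← MeasureTheory.integral_indicator measurableSet_Ioc]
    congr 1
    funext τ
    by_cases hτ2 : τ ∈ Set.Ioc (d - δ) d
    · have hτ : τ ∈ Set.Ioc a b := ⟨by linarith [hτ2.1], by linarith [hτ2.2]⟩
      rw [Set.indicator_of_mem hτ, Set.indicator_of_mem hτ2, if_pos ⟨hτ2.2, by linarith [hτ2.1]⟩]
    · rw [Set.indicator_of_notMem hτ2]
      have h3 : ¬ (τ ≤ d ∧ d < τ + δ) := fun h => hτ2 ⟨by linarith [h.2], h.1⟩
      rw [Set.indicator_apply, if_neg h3, ite_self]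
  rw [h2, ← intervalIntegral.integral_const_mul]
  have h3 : ∫ u in (-δ)..0, Complex.exp (-(n / N * d : ℝ) * Complex.I) *
      Complex.exp (-(n / N * u : ℝ) * Complex.I) =
      ∫ u in (-δ)..0, (fun τ : ℝ => Complex.exp (-(n / N * τ : ℝ) * Complex.I)) (u + d) := by
    congr 1
    funext u
    simp only
    rw [← Complex.exp_add]
    congr 1
    push_cast
    ring
  rw [h3, intervalIntegral.integral_comp_add_right
    (fun τ : ℝ => Complex.exp (-(n / N * τ : ℝ) * Complex.I)) d]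
  congr 1 <;> ring

private theorem arcSW_le (N : ℕ) (hN : 1 ≤ N) (δ : ℝ) (hδ : 0 < δ) (n : ℝ) :
    ‖arcSW N δ n‖ ≤ δ / (2 * Real.pi * N) := by
  have hpi := Real.pi_pos
  have hN0 : (0 : ℝ) < N := by exact_mod_cast hN
  unfold arcSW
  rw [norm_smul, Real.norm_eq_abs, abs_of_pos (by positivity)]
  have h1 : ‖∫ u in (-δ)..0, Complex.exp (-(n / N * u : ℝ) * Complex.I)‖ ≤ 1 * |0 - (-δ)| := by
    apply intervalIntegral.norm_integral_le_of_norm_le_const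
    intro u _
    rw [← Complex.ofReal_neg, Complex.norm_exp_ofReal_mul_I]
  rw [zero_sub, neg_neg, abs_of_pos hδ, one_mul] at h1
  calc 1 / (2 * Real.pi * N) * ‖∫ u in (-δ)..0, Complex.exp (-(n / N * u : ℝ) * Complex.I)‖ ≤
      1 / (2 * Real.pi * N) * δ := mul_le_mul_of_nonneg_left h1 (by positivity)
    _ = δ / (2 * Real.pi * N) := by ring

private theorem arcSW_le' (N : ℕ) (hN : 1 ≤ N) (δ : ℝ) (n : ℝ) (hn : n ≠ 0) :
    ‖arcSW N δ n‖ ≤ 1 / (Real.pi * |n|) := by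
  have hpi := Real.pi_pos
  have hN0 : (0 : ℝ) < N := by exact_mod_cast hN
  have hn' : (0 : ℝ) < |n| := abs_pos.mpr hn
  unfold arcSW
  rw [norm_smul, Real.norm_eq_abs, abs_of_pos (by positivity)]
  set c : ℂ := -((n / N : ℝ) : ℂ) * Complex.I with hcdef
  have hnN : n / N ≠ 0 := div_ne_zero hn hN0.ne'
  have hc : c ≠ 0 := by
    rw [hcdef]
    apply mul_ne_zero
    · rw [neg_ne_zero]
      exact_mod_cast hnN
    · exact Complex.I_ne_zero
  have h1 : ∫ u in (-δ)..0, Complex.exp (-(n / N * u : ℝ) * Complex.I) =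
      (Complex.exp (c * (0 : ℝ)) - Complex.exp (c * (-δ : ℝ))) / c := by
    rw [← integral_exp_mul_complex hc]
    congr 1
    funext u
    congr 1
    rw [hcdef]
    push_cast
    ring
  rw [h1, norm_div]
  have h2 : ‖c‖ = |n| / N := by
    rw [hcdef, norm_mul, Complex.norm_I, mul_one, norm_neg, Complex.norm_real, Real.norm_eq_abs, abs_div,
      abs_of_pos hN0]
  rw [h2]
  have h3 : ‖Complex.exp (c * (0 : ℝ)) - Complex.exp (c * (-δ : ℝ))‖ ≤ 2 := by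
    refine (norm_sub_le _ _).trans ?_
    have e1 : c * ((-δ : ℝ) : ℂ) = ((n / N * δ : ℝ) : ℂ) * Complex.I := by
      rw [hcdef]
      push_cast
      ring
    rw [e1, Complex.norm_exp_ofReal_mul_I]
    simp
    norm_num
  calc 1 / (2 * Real.pi * N) * (‖Complex.exp (c * (0 : ℝ)) - Complex.exp (c * (-δ : ℝ))‖ /
        (|n| / N)) ≤ 1 / (2 * Real.pi * N) * (2 / (|n| / N)) := by gcongr
    _ = 1 / (Real.pi * |n|) := by field_simp

/-- Fourier coefficients of the sum over an interval -/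
private theorem arcS_coeff (F : ℕ × ℕ → ℂ) (C D δ s a b : ℝ) (N : ℕ) (hN : 1 ≤ N) (hδ : 0 < δ)
    (hab : a < b) (hb : b - a = 2 * Real.pi * N)
    (h1 : ∀ z ∈ Spl.PB C D, a ≤ Spl.dirn z - δ) (h2 : ∀ z ∈ Spl.PB C D, Spl.dirn z ≤ b) (n : ℤ) :
    fourierCoeffOn hab (arcST F C D δ s N) n = arcSW N δ (n - s) * arcSP F N C D s (-n) := by
  have hpi := Real.pi_pos
  have hN0 : (0 : ℝ) < N := by exact_mod_cast hN
  set r : ℝ := n - s with hr
  rw [fourierCoeffOn_eq_integral]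
  have h3 : ∫ x in a..b, fourier (-n) (x : AddCircle (b - a)) • arcST F C D δ s N x =
      ∑ z ∈ Spl.PB C D, F z * (Complex.exp (- (r / N * Spl.dirn z : ℝ) * Complex.I) *
        ∫ u in (-δ)..0, Complex.exp (- (r / N * u : ℝ) * Complex.I)) := by
    have e1 : ∀ x : ℝ, fourier (-n) (x : AddCircle (b - a)) • arcST F C D δ s N x =
        ∑ z ∈ Spl.PB C D, F z * (if x ≤ Spl.dirn z ∧ Spl.dirn z < x + δ then
          Complex.exp (- (r / N * x : ℝ) * Complex.I) else 0) := by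
      intro x
      rw [fourier_coe_apply, arcST, arcSS, smul_eq_mul, ← mul_assoc, Finset.mul_sum]
      refine Finset.sum_congr rfl fun z _ => ?_
      have e2 : Complex.exp (2 * Real.pi * Complex.I * ((-n : ℤ) : ℂ) * (x : ℂ) / ((b - a : ℝ) : ℂ)) *
          Complex.exp ((s / N * x : ℝ) * Complex.I) = Complex.exp (-(r / N * x : ℝ) * Complex.I) := by
        rw [← Complex.exp_add]
        congr 1
        rw [hb, hr]
        push_cast
        have : (Real.pi : ℂ) ≠ 0 := by exact_mod_cast Real.pi_ne_zero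
        have : (N : ℂ) ≠ 0 := by exact_mod_cast hN0.ne'
        field_simp
        ring
      rw [e2]
      split_ifs
      · ring
      · ring
    simp only [e1]
    rw [intervalIntegral.integral_finsetSum]
    · refine Finset.sum_congr rfl fun z hz => ?_
      rw [intervalIntegral.integral_const_mul, arcS_one N a b δ (Spl.dirn z) hδ (h1 z hz) (h2 z hz) r]
    · intro z _
      apply IntervalIntegrable.const_mul
      have hcont : Continuous fun x : ℝ => Complex.exp (- (r / N * x : ℝ) * Complex.I) := by fun_prop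
      have hii : IntervalIntegrable (fun x : ℝ => Complex.exp (- (r / N * x : ℝ) * Complex.I))
          volume a b := hcont.intervalIntegrable _ _
      have : (fun x : ℝ => if x ≤ Spl.dirn z ∧ Spl.dirn z < x + δ then
          Complex.exp (- (r / N * x : ℝ) * Complex.I) else 0) =
          Set.indicator {x : ℝ | x ≤ Spl.dirn z ∧ Spl.dirn z < x + δ}
            (fun x : ℝ => Complex.exp (- (r / N * x : ℝ) * Complex.I)) := by
        funext x
        rw [Set.indicator_apply]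
        rfl
      rw [this, intervalIntegrable_iff]
      rw [intervalIntegrable_iff] at hii
      exact hii.indicator (arcS_meas δ (Spl.dirn z))
  rw [h3, arcSW, arcSP, Finset.mul_sum, Finset.smul_sum]
  refine Finset.sum_congr rfl fun z hz => ?_
  have e3 : ch ((((-n : ℤ) : ℝ) + s) / N) z = Complex.exp (-(r / N * Spl.dirn z : ℝ) * Complex.I) := by
    unfold ch
    rw [hr]
    congr 1
    push_cast
    ring
  rw [e3, hb]
  simp only [Complex.real_smul]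
  ring

private theorem arcS_norm (F : ℕ × ℕ → ℂ) (C D δ s : ℝ) (N : ℕ) (τ : ℝ) :
    ‖arcST F C D δ s N τ‖ = ‖arcSS F C D δ τ‖ := by
  unfold arcST
  rw [norm_mul, Complex.norm_exp_ofReal_mul_I, one_mul]

private theorem arcS_memLp (F : ℕ × ℕ → ℂ) (C D δ s : ℝ) (N : ℕ) (a b : ℝ) :
    MemLp (arcST F C D δ s N) 2 (volume.restrict (Set.Ioc a b)) := by
  have h1 : Measurable (arcSS F C D δ) := by
    unfold arcSS
    apply Finset.measurable_fun_sum
    intro z _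
    exact Measurable.ite (arcS_meas δ (Spl.dirn z)) measurable_const measurable_const
  have h2 : Measurable (arcST F C D δ s N) := by
    unfold arcST
    apply Measurable.mul _ h1
    have : Continuous fun τ : ℝ => Complex.exp ((s / N * τ : ℝ) * Complex.I) := by fun_prop
    exact this.measurable
  refine MemLp.of_bound h2.aestronglyMeasurable (∑ z ∈ Spl.PB C D, ‖F z‖)
    (Filter.Eventually.of_forall fun θ => ?_)
  rw [arcS_norm]
  unfold arcSS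
  refine (norm_sum_le _ _).trans (Finset.sum_le_sum fun z _ => ?_)
  split_ifs
  · exact le_rfl
  · rw [norm_zero]
    exact norm_nonneg _

/-- Parseval -/
private theorem arcS_parseval (F : ℕ × ℕ → ℂ) (C D δ s a b : ℝ) (N : ℕ) (hN : 1 ≤ N) (hδ : 0 < δ)
    (hab : a < b) (hb : b - a = 2 * Real.pi * N)
    (h1 : ∀ z ∈ Spl.PB C D, a ≤ Spl.dirn z - δ) (h2 : ∀ z ∈ Spl.PB C D, Spl.dirn z ≤ b) :
    HasSum (fun n : ℤ => ‖arcSW N δ (n - s) * arcSP F N C D s (-n)‖ ^ 2)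
      ((2 * Real.pi * N)⁻¹ * ∫ τ in a..b, ‖arcSS F C D δ τ‖ ^ 2) := by
  have h := hasSum_sq_fourierCoeffOn hab (arcS_memLp F C D δ s N a b)
  simp only [arcS_coeff F C D δ s a b N hN hδ hab hb h1 h2, hb, smul_eq_mul, arcS_norm] at h
  exact h

private theorem arcS_fr_neg (M : ℕ) (g : ℤ → ℝ) : ∑ k ∈ fr M, g (-k) = ∑ k ∈ fr M, g k := by
  refine Finset.sum_nbij' (fun k => -k) (fun k => -k) ?_ ?_ ?_ ?_ ?_
  · intro k hk
    rw [mem_fr] at hk ⊢
    omega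
  · intro k hk
    rw [mem_fr] at hk ⊢
    omega
  · intro k _
    exact neg_neg k
  · intro k _
    exact neg_neg k
  · intro k _
    rfl

/-- one dyadic annulus -/
private theorem arcS_annulus {A : ℝ} (hA : 0 < A) (g : ℤ → ℂ) (N : ℕ) (hN : 1 ≤ N) (X δ s : ℝ) (hs : |s| ≤ 1) (T : ℕ)
    (hg : ∀ M : ℕ, ∑ k ∈ fr M, ‖g k‖ ^ 2 ≤ A * (M + N * X) * X)
    (hX : 1 ≤ X) (hT : 1 ≤ T) (j : ℕ) :
    ∑ k ∈ fr (2 ^ (j + 1) * T) \ fr (2 ^ j * T), ‖arcSW N δ (k - s) * g k‖ ^ 2 ≤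
      A * (2 * (1 / 2) ^ j * (X / T) + (1 / 2) ^ j * (N * X ^ 2 / T ^ 2)) := by
  have hpi := Real.pi_gt_three
  have hT0 : (0 : ℝ) < T := by exact_mod_cast hT
  have hN0 : (0 : ℝ) < N := by exact_mod_cast hN
  have hT2 : (0 : ℝ) < 2 ^ j * T := by positivity
  have h1 : ∀ k ∈ fr (2 ^ (j + 1) * T) \ fr (2 ^ j * T), ‖arcSW N δ (k - s) * g k‖ ^ 2 ≤
      (1 / (2 ^ j * T) ^ 2) * ‖g k‖ ^ 2 := by
    intro k hk
    have hk2 : k ∉ fr (2 ^ j * T) := (Finset.mem_sdiff.mp hk).2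
    rw [mem_fr] at hk2
    have hk3 : ((2 : ℝ) ^ j * T) ≤ |(k : ℝ)| := by
      by_contra hc
      push Not at hc
      apply hk2
      have h2 := abs_lt.mp hc
      constructor
      · have h3 : (-((2 ^ j * T : ℕ) : ℤ) : ℝ) < (k : ℝ) := by push_cast; linarith [h2.1]
        exact_mod_cast h3.le
      · have h3 : (k : ℝ) < ((2 ^ j * T : ℕ) : ℝ) := by push_cast; linarith [h2.2]
        exact_mod_cast h3.le
    have hk4 : (2 : ℝ) ≤ |(k : ℝ)| := by
      have h6 : 1 * 1 ≤ 2 ^ j * T := Nat.mul_le_mul Nat.one_le_two_pow hT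
      have h7 : (2 : ℤ) ≤ |k| := by
        by_contra hc
        push Not at hc
        apply hk2
        have h8 := abs_lt.mp hc
        have h9 : (1 : ℤ) ≤ ((2 ^ j * T : ℕ) : ℤ) := by exact_mod_cast h6
        constructor <;> omega
      exact_mod_cast h7
    have hk5 : |(k : ℝ)| / 2 ≤ |(k : ℝ) - s| := by
      have := abs_sub_abs_le_abs_sub (k : ℝ) s
      linarith
    have hk0 : (k : ℝ) - s ≠ 0 := by
      intro h0
      rw [h0, abs_zero] at hk5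
      linarith
    have h4 := arcSW_le' N hN δ ((k : ℝ) - s) hk0
    rw [norm_mul, mul_pow]
    apply mul_le_mul_of_nonneg_right _ (sq_nonneg _)
    have h5 : ‖arcSW N δ (k - s)‖ ≤ 1 / (2 ^ j * T) := by
      refine h4.trans ?_
      apply one_div_le_one_div_of_le hT2
      calc (2 : ℝ) ^ j * T ≤ |(k : ℝ)| := hk3
        _ ≤ 2 * |(k : ℝ) - s| := by linarith
        _ ≤ Real.pi * |(k : ℝ) - s| := mul_le_mul_of_nonneg_right (by linarith) (abs_nonneg _)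
    calc ‖arcSW N δ (k - s)‖ ^ 2 ≤ (1 / (2 ^ j * T)) ^ 2 := pow_le_pow_left₀ (norm_nonneg _) h5 2
      _ = 1 / (2 ^ j * T) ^ 2 := by rw [div_pow, one_pow]
  refine (Finset.sum_le_sum h1).trans ?_
  rw [← Finset.mul_sum]
  have h2 : ∑ k ∈ fr (2 ^ (j + 1) * T) \ fr (2 ^ j * T), ‖g k‖ ^ 2 ≤
      A * ((2 ^ (j + 1) * T : ℕ) + N * X) * X :=
    (Finset.sum_le_sum_of_subset_of_nonneg Finset.sdiff_subset (fun _ _ _ => by positivity)).trans
      (hg _)
  have hX0 : 0 < X := by linarith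
  calc 1 / (2 ^ j * T : ℝ) ^ 2 * ∑ k ∈ fr (2 ^ (j + 1) * T) \ fr (2 ^ j * T), ‖g k‖ ^ 2 ≤
      1 / (2 ^ j * T : ℝ) ^ 2 * (A * ((2 ^ (j + 1) * T : ℕ) + N * X) * X) :=
        mul_le_mul_of_nonneg_left h2 (by positivity)
    _ = A * (2 * (1 / 2 ^ j) * (X / T) + (1 / 2 ^ j) * (1 / 2 ^ j) * (N * X ^ 2 / T ^ 2)) := by
        push_cast
        field_simp
        ring
    _ ≤ A * (2 * (1 / 2) ^ j * (X / T) + (1 / 2) ^ j * (N * X ^ 2 / T ^ 2)) := by
        rw [one_div_pow]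
        apply mul_le_mul_of_nonneg_left _ hA.le
        apply add_le_add le_rfl
        apply mul_le_mul_of_nonneg_right _ (by positivity)
        have : (1 : ℝ) / 2 ^ j ≤ 1 := by
          rw [div_le_one (by positivity)]
          exact one_le_pow₀ (by norm_num)
        calc (1 : ℝ) / 2 ^ j * (1 / 2 ^ j) ≤ 1 / 2 ^ j * 1 :=
              mul_le_mul_of_nonneg_left this (by positivity)
          _ = 1 / 2 ^ j := mul_one _

private theorem arcS_geo {A : ℝ} (hA : 0 < A) (u v : ℝ) (hu : 0 ≤ u) (hv : 0 ≤ v) (J : ℕ) :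
    ∑ j ∈ Finset.range J, A * (2 * (1 / 2) ^ j * u + (1 / 2) ^ j * v) ≤ 4 * A * (u + v) := by
  have h1 : ∑ j ∈ Finset.range J, ((1 : ℝ) / 2) ^ j ≤ 2 := by
    have := geom_sum_eq (show (1 / 2 : ℝ) ≠ 1 by norm_num) J
    rw [this]
    have h2 : (0 : ℝ) ≤ (1 / 2) ^ J := by positivity
    have h3 : ((1 / 2 : ℝ) ^ J - 1) / (1 / 2 - 1) = 2 * (1 - (1 / 2) ^ J) := by
      field_simp
      ring
    rw [h3]
    linarith
  have h2 : ∑ j ∈ Finset.range J, A * (2 * (1 / 2) ^ j * u + (1 / 2) ^ j * v) =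
      A * (2 * u + v) * ∑ j ∈ Finset.range J, ((1 : ℝ) / 2) ^ j := by
    rw [Finset.mul_sum]
    refine Finset.sum_congr rfl fun j _ => ?_
    ring
  rw [h2]
  have h3 : 0 ≤ A * (2 * u + v) := by positivity
  have h4 : 0 ≤ A * v := by positivity
  calc A * (2 * u + v) * ∑ j ∈ Finset.range J, ((1 : ℝ) / 2) ^ j ≤
      A * (2 * u + v) * 2 := mul_le_mul_of_nonneg_left h1 h3
    _ ≤ 4 * A * (u + v) := by linarith

private theorem arcS_dirn {C D X : ℝ} (hC : 0 ≤ C) (hCD : C * D ≤ X) {z : ℕ × ℕ} (hz : z ∈ Spl.PB C D) :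
    -Real.log X ≤ Spl.dirn z ∧ Spl.dirn z ≤ Real.log X := by
  obtain ⟨⟨h1, h2⟩, ⟨h3, h4⟩, _⟩ := Spl.mem_PB.1 hz
  have hx : (1 : ℝ) ≤ z.1 := by exact_mod_cast h1
  have hy : (1 : ℝ) ≤ z.2 := by exact_mod_cast h3
  have hx0 : (0 : ℝ) < z.1 := by linarith
  have hy0 : (0 : ℝ) < z.2 := by linarith
  have hxy : (z.1 : ℝ) * z.2 ≤ X := (mul_le_mul h2 h4 hy0.le hC).trans hCD
  have hlog : Real.log z.1 + Real.log z.2 ≤ Real.log X := by
    rw [← Real.log_mul hx0.ne' hy0.ne']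
    exact Real.log_le_log (by positivity) hxy
  have hlx := Real.log_nonneg hx
  have hly := Real.log_nonneg hy
  unfold Spl.dirn
  constructor <;> linarith

/-- Cf. `marc` (Lib_MP_f1a94e_ecm/Marc.lean). Let `a = - log X - δ`, `b = a + 2 π N`. The function
`S τ = ∑_z F z 1[τ ≤ dirn z < τ + δ] = ∑_z F z 1[dirn z - δ < τ ≤ dirn z]` vanishes outside `(a, b]`, because
`- log X ≤ dirn z ≤ log X` (`1 ≤ x, y` and `x y ≤ X` for `(x, y) ∈ PB C D`) and `2 log X + δ ≤ 4 N ≤ 2 π N`. Apply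
`hasSum_sq_fourierCoeffOn` on `(a, b]` to `S τ e^(i s τ / N)` (same absolute value): the coefficient at `-n` is
`(1 / (2 π N)) ∑_z F z ∫_{dirn z - δ}^{dirn z} e^(i (n + s) τ / N) dτ =
(1 / (2 π N)) (∑_z F z ch ((n + s) / N) z) ∫_{-δ}^0 e^(i (n + s) u / N) du`, the last integral is at most `δ` and at
most `2 N / |n + s| ≤ 4 N / |n|` for `|n| ≥ 2`. So with `P n = ∑_z F z ch ((n + s) / N) z`
`∫ ‖S‖² ≤ (1 / (2 π N)) (δ² ∑_{|n| ≤ T} ‖P n‖² + ∑_{|n| > T} (4 N / n)² ‖P n‖²)`; dyadic annuli and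
`lsB` (`∑_{|n| ≤ M} ‖P n‖² ≤ A (M + N X) X`, coefficients `F z ch (s / N) z`, `card_PB_le`) bound the second sum by a
constant times `N² X / T + N³ X² / T² ≤ 2 N³ X² / T²` (`T ≤ N X`). -/
theorem arcS : ∃ A : ℝ, 0 < A ∧ ∀ (F : ℕ × ℕ → ℂ), (∀ z, ‖F z‖ ≤ 1) → ∀ (C D X δ s : ℝ) (N T : ℕ),
    1 ≤ X → 0 ≤ C → 0 ≤ D → C * D ≤ X → Real.log X + δ ≤ 2 * N → 1 ≤ N → 0 < δ → |s| ≤ 1 → 1 ≤ T →
    (T : ℝ) ≤ N * X →
    ∫ τ, ‖∑ z ∈ (Spl.PB C D).filter (fun z => τ ≤ Spl.dirn z ∧ Spl.dirn z < τ + δ), F z‖ ^ 2 ≤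
      δ ^ 2 / N * ∑ k ∈ fr T, ‖∑ z ∈ Spl.PB C D, F z * ch (((k : ℝ) + s) / N) z‖ ^ 2 +
        A * (N * X / T) ^ 2 := by
  obtain ⟨A, hA, hls⟩ := lsB
  refine ⟨2 * Real.pi * (8 * A), by positivity, ?_⟩
  intro F hF C D X δ s N T hX hC hD hCD hlogN hN hδ hs hT hTNX
  have hpi := Real.pi_gt_three
  have hX0 : 0 < X := by linarith
  have hT0 : (0 : ℝ) < T := by exact_mod_cast hT
  have hN0 : (0 : ℝ) < N := by exact_mod_cast hN
  have hN1 : (1 : ℝ) ≤ N := by exact_mod_cast hN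
  have hlogX : 0 ≤ Real.log X := Real.log_nonneg hX
  set a : ℝ := -Real.log X - δ with ha
  set b : ℝ := a + 2 * Real.pi * N with hbdef
  have hb : b - a = 2 * Real.pi * N := by rw [hbdef]; ring
  have h6N : 6 * (N : ℝ) ≤ 2 * Real.pi * N := by nlinarith
  have hab : a < b := by rw [hbdef]; linarith
  have hd1 : ∀ z ∈ Spl.PB C D, a ≤ Spl.dirn z - δ := by
    intro z hz
    have := (arcS_dirn hC hCD hz).1
    rw [ha]
    linarith
  have hd2 : ∀ z ∈ Spl.PB C D, Spl.dirn z ≤ b := by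
    intro z hz
    have := (arcS_dirn hC hCD hz).2
    rw [hbdef, ha]
    linarith
  -- the integral
  have hS : ∀ τ : ℝ, ∑ z ∈ (Spl.PB C D).filter (fun z => τ ≤ Spl.dirn z ∧ Spl.dirn z < τ + δ), F z =
      arcSS F C D δ τ := by
    intro τ
    unfold arcSS
    rw [Finset.sum_filter]
  have hint : ∫ τ, ‖∑ z ∈ (Spl.PB C D).filter (fun z => τ ≤ Spl.dirn z ∧ Spl.dirn z < τ + δ), F z‖ ^ 2 =
      ∫ τ in a..b, ‖arcSS F C D δ τ‖ ^ 2 := by
    simp only [hS]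
    rw [intervalIntegral.integral_of_le hab.le]
    symm
    apply MeasureTheory.setIntegral_eq_integral_of_forall_compl_eq_zero
    intro τ hτ
    have h0 : arcSS F C D δ τ = 0 := by
      unfold arcSS
      refine Finset.sum_eq_zero fun z hz => ?_
      rw [if_neg]
      rintro ⟨g1, g2⟩
      exact hτ ⟨by linarith [hd1 z hz], by linarith [hd2 z hz]⟩
    rw [h0, norm_zero]
    norm_num
  rw [hint]
  have hP := arcS_parseval F C D δ s a b N hN hδ hab hb hd1 hd2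
  -- the large sieve
  have hcard : ∑ z ∈ Spl.PB C D, ‖F z * ch (s / N) z‖ ^ 2 ≤ X := by
    calc ∑ z ∈ Spl.PB C D, ‖F z * ch (s / N) z‖ ^ 2 ≤ ∑ _z ∈ Spl.PB C D, (1 : ℝ) :=
          Finset.sum_le_sum fun z _ => by
            rw [norm_mul, norm_ch, mul_one]
            exact pow_le_one₀ (norm_nonneg _) (hF z)
      _ = ((Spl.PB C D).card : ℝ) := by simp
      _ ≤ C * D := card_PB_le C D hC hD
      _ ≤ X := hCD
  have hg : ∀ M : ℕ, ∑ k ∈ fr M, ‖arcSP F N C D s (-k)‖ ^ 2 ≤ A * (M + N * X) * X := by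
    intro M
    rw [arcS_fr_neg M (fun k => ‖arcSP F N C D s k‖ ^ 2)]
    have h1 : ∀ k : ℤ, arcSP F N C D s k = ∑ z ∈ Spl.PB C D, (F z * ch (s / N) z) * ch ((k : ℝ) / N) z := by
      intro k
      unfold arcSP
      refine Finset.sum_congr rfl fun z _ => ?_
      rw [mul_assoc]
      congr 1
      unfold ch
      rw [← Complex.exp_add]
      congr 1
      push_cast
      ring
    simp only [h1]
    refine (hls N C D X M (fun z => F z * ch (s / N) z) hN hX hCD (by linarith)).trans ?_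
    exact mul_le_mul_of_nonneg_left hcard (by positivity)
  set B : ℝ := (δ / (2 * Real.pi * N)) ^ 2 * ∑ k ∈ fr T, ‖arcSP F N C D s k‖ ^ 2 +
    4 * A * (X / T + N * X ^ 2 / T ^ 2) with hB
  have hfr : ∀ J : ℕ, ∑ k ∈ fr (2 ^ J * T), ‖arcSW N δ (k - s) * arcSP F N C D s (-k)‖ ^ 2 ≤
      (δ / (2 * Real.pi * N)) ^ 2 * ∑ k ∈ fr T, ‖arcSP F N C D s k‖ ^ 2 +
        ∑ j ∈ Finset.range J, A * (2 * (1 / 2) ^ j * (X / T) + (1 / 2) ^ j * (N * X ^ 2 / T ^ 2)) := by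
    intro J
    induction J with
    | zero =>
      rw [pow_zero, one_mul, Finset.range_zero, Finset.sum_empty, add_zero,
        ← arcS_fr_neg T (fun k => ‖arcSP F N C D s k‖ ^ 2), Finset.mul_sum]
      refine Finset.sum_le_sum fun k _ => ?_
      rw [norm_mul, mul_pow]
      exact mul_le_mul_of_nonneg_right (pow_le_pow_left₀ (norm_nonneg _) (arcSW_le N hN δ hδ _) 2)
        (sq_nonneg _)
    | succ J ih =>
      have hsub : fr (2 ^ J * T) ⊆ fr (2 ^ (J + 1) * T) := by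
        intro k hk
        rw [mem_fr] at hk ⊢
        have h1 : ((2 ^ J * T : ℕ) : ℤ) ≤ ((2 ^ (J + 1) * T : ℕ) : ℤ) := by
          have : 2 ^ J * T ≤ 2 ^ (J + 1) * T :=
            Nat.mul_le_mul_right _ (Nat.pow_le_pow_right (by norm_num) (by omega))
          exact_mod_cast this
        omega
      rw [← Finset.sum_sdiff hsub, Finset.sum_range_succ]
      have := arcS_annulus hA (fun k => arcSP F N C D s (-k)) N hN X δ s hs T hg hX hT J
      linarith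
  have hle : (2 * Real.pi * N)⁻¹ * ∫ τ in a..b, ‖arcSS F C D δ τ‖ ^ 2 ≤ B := by
    refine hasSum_le_of_sum_le hP fun t => ?_
    obtain ⟨J, hJ⟩ : ∃ J : ℕ, t ⊆ fr (2 ^ J * T) := by
      obtain ⟨J, hJ⟩ : ∃ J : ℕ, ∀ k ∈ t, |k| ≤ J := by
        refine ⟨∑ k ∈ t, k.natAbs, fun k hk => ?_⟩
        have h1 := Finset.single_le_sum (f := fun k : ℤ => k.natAbs) (fun _ _ => Nat.zero_le _) hk
        rw [Int.abs_eq_natAbs]
        exact_mod_cast h1
      refine ⟨J, fun k hk => ?_⟩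
      have h1 := abs_le.mp (hJ k hk)
      have h2 : (J : ℤ) ≤ ((2 ^ J * T : ℕ) : ℤ) := by
        have h3 : J < 2 ^ J := Nat.lt_two_pow_self
        have h4 : 2 ^ J * 1 ≤ 2 ^ J * T := Nat.mul_le_mul_left _ hT
        have : J ≤ 2 ^ J * T := by omega
        exact_mod_cast this
      rw [mem_fr]
      omega
    refine (Finset.sum_le_sum_of_subset_of_nonneg hJ (fun _ _ _ => by positivity)).trans ?_
    have hgeo := arcS_geo hA (X / T) (N * X ^ 2 / T ^ 2) (by positivity) (by positivity) J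
    exact (hfr J).trans (by rw [hB]; linarith)
  rw [inv_mul_le_iff₀ (by positivity)] at hle
  refine hle.trans ?_
  rw [hB, mul_add]
  have hP0 : 0 ≤ ∑ k ∈ fr T, ‖arcSP F N C D s k‖ ^ 2 := Finset.sum_nonneg fun _ _ => by positivity
  have h1 : 2 * Real.pi * N * ((δ / (2 * Real.pi * N)) ^ 2 * ∑ k ∈ fr T, ‖arcSP F N C D s k‖ ^ 2) ≤
      δ ^ 2 / N * ∑ k ∈ fr T, ‖arcSP F N C D s k‖ ^ 2 := by
    rw [← mul_assoc]
    apply mul_le_mul_of_nonneg_right _ hP0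
    have h2 : 2 * Real.pi * N * (δ / (2 * Real.pi * N)) ^ 2 = (δ ^ 2 / N) * (1 / (2 * Real.pi)) := by
      field_simp
    rw [h2]
    apply mul_le_of_le_one_right (by positivity)
    rw [div_le_one (by positivity)]
    linarith
  have h3 : 2 * Real.pi * N * (4 * A * (X / T + N * X ^ 2 / T ^ 2)) ≤
      2 * Real.pi * (8 * A) * (N * X / T) ^ 2 := by
    have h4 : (1 : ℝ) ≤ N * X / T := by
      rw [le_div_iff₀ hT0]
      linarith
    have h5 : N * X / T ≤ (N * X / T) ^ 2 := by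
      rw [sq]
      exact le_mul_of_one_le_left (by positivity) h4
    have h6 : N * (X / T + N * X ^ 2 / T ^ 2) = N * X / T + (N * X / T) ^ 2 := by
      field_simp
    calc 2 * Real.pi * N * (4 * A * (X / T + N * X ^ 2 / T ^ 2)) =
        2 * Real.pi * (4 * A) * (N * (X / T + N * X ^ 2 / T ^ 2)) := by ring
      _ = 2 * Real.pi * (4 * A) * (N * X / T + (N * X / T) ^ 2) := by rw [h6]
      _ ≤ 2 * Real.pi * (4 * A) * ((N * X / T) ^ 2 + (N * X / T) ^ 2) :=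
          mul_le_mul_of_nonneg_left (by linarith) (by positivity)
      _ = 2 * Real.pi * (8 * A) * (N * X / T) ^ 2 := by ring
  exact add_le_add h1 h3

end Pool.Agent.SplM

end

/-! ### from `Lib_MP_92ef0c_spm.LsFam` -/

section

/-!
# the large sieve for families of pairs
-/

set_option autoImplicit false

namespace Pool.Agent.SplM

open Pool.Agent.GaussMR (fr mem_fr)

/-- the primitive part of a pair -/
def prp (z : ℕ × ℕ) : ℕ × ℕ := (z.1 / z.1.gcd z.2, z.2 / z.1.gcd z.2)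

theorem prp_spec (z : ℕ × ℕ) (h1 : 0 < z.1) :
    0 < z.1.gcd z.2 ∧ z.1.gcd z.2 * (prp z).1 = z.1 ∧ z.1.gcd z.2 * (prp z).2 = z.2 ∧
      (prp z).1.Coprime (prp z).2 := by
  have hg : 0 < z.1.gcd z.2 := Nat.gcd_pos_of_pos_left _ h1
  exact ⟨hg, Nat.mul_div_cancel' (Nat.gcd_dvd_left _ _), Nat.mul_div_cancel' (Nat.gcd_dvd_right _ _),
    Nat.coprime_div_gcd_div_gcd hg⟩

theorem prp_pos (z : ℕ × ℕ) (h1 : 0 < z.1) (h2 : 0 < z.2) : 0 < (prp z).1 ∧ 0 < (prp z).2 := by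
  obtain ⟨-, h3, h4, -⟩ := prp_spec z h1
  constructor
  · rcases Nat.eq_zero_or_pos (prp z).1 with h | h
    · rw [h] at h3
      omega
    · exact h
  · rcases Nat.eq_zero_or_pos (prp z).2 with h | h
    · rw [h] at h4
      omega
    · exact h

theorem prp_mem (C D : ℝ) (z : ℕ × ℕ) (h1 : 0 < z.1) (h1' : (z.1 : ℝ) ≤ C) (h2 : 0 < z.2) (h2' : (z.2 : ℝ) ≤ D) :
    prp z ∈ Spl.PB C D := by
  obtain ⟨h3, h4⟩ := prp_pos z h1 h2
  refine Spl.mem_PB.2 ⟨⟨h3, le_trans ?_ h1'⟩, ⟨h4, le_trans ?_ h2'⟩, (prp_spec z h1).2.2.2⟩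
  · exact_mod_cast Nat.div_le_self _ _
  · exact_mod_cast Nat.div_le_self _ _

theorem dirn_prp (z : ℕ × ℕ) (h1 : 0 < z.1) (h2 : 0 < z.2) : Spl.dirn (prp z) = Spl.dirn z := by
  obtain ⟨h5, h6, h7, -⟩ := prp_spec z h1
  obtain ⟨h3, h4⟩ := prp_pos z h1 h2
  unfold Spl.dirn
  have e1 : Real.log (z.1 : ℝ) = Real.log (z.1.gcd z.2 : ℕ) + Real.log (prp z).1 := by
    rw [← Real.log_mul (by exact_mod_cast h5.ne') (by exact_mod_cast h3.ne')]
    congr 1
    exact_mod_cast h6.symm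
  have e2 : Real.log (z.2 : ℝ) = Real.log (z.1.gcd z.2 : ℕ) + Real.log (prp z).2 := by
    rw [← Real.log_mul (by exact_mod_cast h5.ne') (by exact_mod_cast h4.ne')]
    congr 1
    exact_mod_cast h7.symm
  rw [e1, e2]
  ring

theorem prp_eq_iff (z w : ℕ × ℕ) (hz : 0 < z.1) (hw : 0 < w.1) : prp z = prp w ↔ z.1 * w.2 = w.1 * z.2 := by
  obtain ⟨a1, a2, a3, a4⟩ := prp_spec z hz
  obtain ⟨b1, b2, b3, b4⟩ := prp_spec w hw
  constructor
  · intro h
    calc z.1 * w.2 = (z.1.gcd z.2 * (prp z).1) * (w.1.gcd w.2 * (prp w).2) := by rw [a2, b3]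
      _ = (w.1.gcd w.2 * (prp w).1) * (z.1.gcd z.2 * (prp z).2) := by
          rw [h]
          ring
      _ = w.1 * z.2 := by rw [b2, a3]
  · intro h
    have h1 : (prp z).1 * (prp w).2 = (prp w).1 * (prp z).2 := by
      have h2 : (z.1.gcd z.2 * w.1.gcd w.2) * ((prp z).1 * (prp w).2) =
          (z.1.gcd z.2 * w.1.gcd w.2) * ((prp w).1 * (prp z).2) := by
        calc (z.1.gcd z.2 * w.1.gcd w.2) * ((prp z).1 * (prp w).2) =
              (z.1.gcd z.2 * (prp z).1) * (w.1.gcd w.2 * (prp w).2) := by ring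
          _ = (w.1.gcd w.2 * (prp w).1) * (z.1.gcd z.2 * (prp z).2) := by rw [a2, a3, b2, b3, h]
          _ = (z.1.gcd z.2 * w.1.gcd w.2) * ((prp w).1 * (prp z).2) := by ring
      exact Nat.eq_of_mul_eq_mul_left (Nat.mul_pos a1 b1) h2
    have h3 : (prp z).1 ∣ (prp w).1 := a4.dvd_of_dvd_mul_right (h1 ▸ dvd_mul_right _ _)
    have h4 : (prp w).1 ∣ (prp z).1 := b4.dvd_of_dvd_mul_right (h1.symm ▸ dvd_mul_right _ _)
    have h5 : (prp z).1 = (prp w).1 := Nat.dvd_antisymm h3 h4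
    have h6 : 0 < (prp w).1 := by
      rcases Nat.eq_zero_or_pos (prp w).1 with h | h
      · rw [h] at b2
        omega
      · exact h
    have h7 : (prp w).2 = (prp z).2 := by
      rw [h5] at h1
      exact Nat.eq_of_mul_eq_mul_left h6 h1
    exact Prod.ext h5 h7.symm

theorem ch_prp (t : ℝ) (z : ℕ × ℕ) (h1 : 0 < z.1) (h2 : 0 < z.2) : ch t (prp z) = ch t z := by
  unfold ch
  rw [dirn_prp z h1 h2]

/-- Large sieve for a finite family of pairs. Copy of `large_sieve_fam` (Lib_MP_f1a94e_mr/LS.lean): group the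
indices `i` by the primitive pair `pr i = (x / d, y / d)`, `(x, y) = g i`, `d = gcd x y`, which lies in
`Spl.PB C D` and has the same direction (`log (y / d) - log (x / d)`), then `lsB`. Two pairs have the same
primitive pair iff `x y' = x' y`. -/
theorem lsF : ∃ A : ℝ, 0 < A ∧ ∀ (ι : Type) (s : Finset ι) (g : ι → ℕ × ℕ) (c : ι → ℂ) (N : ℕ) (C D Y : ℝ)
    (T : ℕ), 1 ≤ N → 1 ≤ Y → C * D ≤ Y → Real.log Y ≤ 3 * N → (∀ i ∈ s, ‖c i‖ ≤ 1) →
    (∀ i ∈ s, (0 < (g i).1 ∧ ((g i).1 : ℝ) ≤ C) ∧ 0 < (g i).2 ∧ ((g i).2 : ℝ) ≤ D) →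
    ∑ k ∈ fr T, ‖∑ i ∈ s, c i * ch ((k : ℝ) / N) (g i)‖ ^ 2 ≤
      A * (T + N * Y) *
        (Set.ncard {p : ι × ι | p.1 ∈ s ∧ p.2 ∈ s ∧ (g p.1).1 * (g p.2).2 = (g p.2).1 * (g p.1).2} : ℝ) := by
  classical
  obtain ⟨A, hA, hls⟩ := lsB
  refine ⟨A, hA, ?_⟩
  intro ι s g c N C D Y T hN hY hCD hlog hc hg
  set a : ℕ × ℕ → ℂ := fun z => ∑ i ∈ s.filter (fun i => prp (g i) = z), c i with ha
  have hmaps : ∀ i ∈ s, prp (g i) ∈ Spl.PB C D := fun i hi =>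
    prp_mem C D (g i) (hg i hi).1.1 (hg i hi).1.2 (hg i hi).2.1 (hg i hi).2.2
  have h1 : ∀ k : ℤ, ∑ i ∈ s, c i * ch ((k : ℝ) / N) (g i) = ∑ z ∈ Spl.PB C D, a z * ch ((k : ℝ) / N) z := by
    intro k
    rw [← Finset.sum_fiberwise_of_maps_to hmaps]
    refine Finset.sum_congr rfl fun z hz => ?_
    rw [ha, Finset.sum_mul]
    refine Finset.sum_congr rfl fun i hi => ?_
    obtain ⟨hi1, hi2⟩ := Finset.mem_filter.1 hi
    rw [← hi2, ch_prp _ _ (hg i hi1).1.1 (hg i hi1).2.1]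
  have h2 := hls N C D Y T a hN hY hCD hlog
  simp_rw [h1]
  refine h2.trans ?_
  have hT : (0 : ℝ) ≤ T := Nat.cast_nonneg T
  have hN0 : (0 : ℝ) ≤ N := Nat.cast_nonneg N
  have hY0 : (0 : ℝ) ≤ Y := by linarith
  refine mul_le_mul_of_nonneg_left ?_ (by positivity)
  -- count the pairs
  have h3 : {p : ι × ι | p.1 ∈ s ∧ p.2 ∈ s ∧ (g p.1).1 * (g p.2).2 = (g p.2).1 * (g p.1).2} =
      (((s ×ˢ s).filter (fun p : ι × ι => prp (g p.1) = prp (g p.2)) : Finset (ι × ι)) :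
        Set (ι × ι)) := by
    ext p
    simp only [Set.mem_ofPred_eq, Finset.coe_filter, Finset.mem_product]
    constructor
    · rintro ⟨q1, q2, q3⟩
      exact ⟨⟨q1, q2⟩, (prp_eq_iff _ _ (hg _ q1).1.1 (hg _ q2).1.1).2 q3⟩
    · rintro ⟨⟨q1, q2⟩, q3⟩
      exact ⟨q1, q2, (prp_eq_iff _ _ (hg _ q1).1.1 (hg _ q2).1.1).1 q3⟩
  rw [h3, Set.ncard_coe_finset]
  have h4 : ((s ×ˢ s).filter (fun p : ι × ι => prp (g p.1) = prp (g p.2))).card =
      ∑ z ∈ Spl.PB C D, (s.filter (fun i => prp (g i) = z)).card ^ 2 := by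
    rw [Finset.card_eq_sum_card_fiberwise (f := fun p : ι × ι => prp (g p.1)) (t := Spl.PB C D)]
    · refine Finset.sum_congr rfl fun z hz => ?_
      rw [sq, ← Finset.card_product]
      congr 1
      ext p
      simp only [Finset.mem_filter, Finset.mem_product]
      constructor
      · rintro ⟨⟨⟨h1, h2⟩, h3⟩, h4⟩
        exact ⟨⟨h1, h4⟩, h2, h3 ▸ h4⟩
      · rintro ⟨⟨h1, h2⟩, h3, h4⟩
        exact ⟨⟨⟨h1, h3⟩, h2.trans h4.symm⟩, h2⟩
    · intro p hp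
      have hp' := Finset.mem_coe.1 hp
      simp only [Finset.mem_filter, Finset.mem_product] at hp'
      exact hmaps p.1 hp'.1.1
  rw [h4]
  push_cast
  refine Finset.sum_le_sum fun z hz => ?_
  have h5 : ‖a z‖ ≤ ((s.filter (fun i => prp (g i) = z)).card : ℝ) := by
    rw [ha]
    refine (norm_sum_le _ _).trans ?_
    calc ∑ i ∈ s.filter (fun i => prp (g i) = z), ‖c i‖ ≤
          ∑ i ∈ s.filter (fun i => prp (g i) = z), (1 : ℝ) :=
          Finset.sum_le_sum fun i hi => hc i (Finset.mem_filter.1 hi).1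
      _ = _ := by simp
  gcongr

end Pool.Agent.SplM

end

/-! ### from `Lib_MP_92ef0c_spm.FewS` -/

section

/-!
# few frequencies
-/

set_option autoImplicit false

namespace Pool.Agent.SplM

open Pool.Agent.GaussMR (fr mem_fr nv Ls)

namespace FewSAux

open Filter Topology

lemma ch_one (t : ℝ) (n : ℕ) : ch t (n, 1) = nit (-t) n := by
  rw [ch_eq]
  simp [nit]

lemma nit_prod {ι : Type} (s : Finset ι) (t : ℝ) (x : ι → ℕ) (hx : ∀ i ∈ s, 0 < x i) :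
    nit t (∏ i ∈ s, x i) = ∏ i ∈ s, nit t (x i) := by
  classical
  induction s using Finset.induction_on with
  | empty => simp [nit]
  | insert a s ha ih =>
    rw [Finset.prod_insert ha, Finset.prod_insert ha, nit_mul t (hx a (Finset.mem_insert_self _ _)) (Finset.prod_pos fun i hi =>
      hx i (Finset.mem_insert_of_mem hi)), ih fun i hi => hx i (Finset.mem_insert_of_mem hi)]

lemma Up_pow (f : ℕ → ℂ) (N : ℕ) (P Q ρ : ℝ) (v : ℕ) (k : ℤ) (l : ℕ) :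
    Up f N P Q ρ v k ^ l = ∑ x ∈ Fintype.piFinset (fun _ : Fin l => bk P Q ρ v),
      (∏ i, f (x i)) * ch ((k : ℝ) / N) (∏ i, x i, 1) := by
  have h1 : Up f N P Q ρ v k ^ l = ∏ _i : Fin l, Up f N P Q ρ v k := by
    rw [Finset.prod_const, Finset.card_univ, Fintype.card_fin]
  rw [h1]
  unfold Up
  rw [Finset.prod_univ_sum]
  refine Finset.sum_congr rfl fun x hx => ?_
  rw [Fintype.mem_piFinset] at hx
  rw [Finset.prod_mul_distrib, ch_one, nit_prod]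
  intro i _
  exact (bk_prime (hx i)).pos

lemma card_bk_le (P Q ρ : ℝ) (v : ℕ) : ((bk P Q ρ v).card : ℝ) ≤ Real.exp ((v + 1) * ρ) := by
  unfold bk
  exact le_trans (by exact_mod_cast Finset.card_image_le) (GaussMR.card_blk_le P Q ρ v)

/-- number of coincidences -/
lemma pairs_leS (P Q ρ : ℝ) (v l : ℕ) :
    (Set.ncard {p : (Fin l → ℕ) × (Fin l → ℕ) |
      p.1 ∈ Fintype.piFinset (fun _ : Fin l => bk P Q ρ v) ∧
      p.2 ∈ Fintype.piFinset (fun _ : Fin l => bk P Q ρ v) ∧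
      (∏ i, p.1 i) * 1 = (∏ i, p.2 i) * 1} : ℝ) ≤
      Real.exp ((v + 1) * ρ) ^ l * l.factorial := by
  classical
  set s := Fintype.piFinset (fun _ : Fin l => bk P Q ρ v) with hs
  have hsP : ∀ x ∈ s, ∀ i, x i ∈ bk P Q ρ v := by
    intro x hx i
    rw [hs, Fintype.mem_piFinset] at hx
    exact hx i
  set D := (s ×ˢ s).filter (fun p => ∏ i, p.1 i = ∏ i, p.2 i) with hD
  have h1 : {p : (Fin l → ℕ) × (Fin l → ℕ) | p.1 ∈ s ∧ p.2 ∈ s ∧
      (∏ i, p.1 i) * 1 = (∏ i, p.2 i) * 1} ⊆ (D : Set _) := by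
    rintro p ⟨p1, p2, p3⟩
    rw [mul_one, mul_one] at p3
    rw [hD, Finset.coe_filter]
    exact ⟨Finset.mem_product.2 ⟨p1, p2⟩, p3⟩
  have h2 : Set.ncard {p : (Fin l → ℕ) × (Fin l → ℕ) | p.1 ∈ s ∧ p.2 ∈ s ∧
      (∏ i, p.1 i) * 1 = (∏ i, p.2 i) * 1} ≤ D.card := by
    rw [← Set.ncard_coe_finset]
    exact Set.ncard_le_ncard h1 (Finset.finite_toSet D)
  have h3 : D.card = ∑ x ∈ s, (D.filter (fun p => p.1 = x)).card := by
    apply Finset.card_eq_sum_card_fiberwise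
    intro p hp
    exact (Finset.mem_product.1 (Finset.mem_filter.1 hp).1).1
  have h4 : ∀ x ∈ s, (D.filter (fun p => p.1 = x)).card ≤ l.factorial := by
    intro x hx
    have hfin : {y : Fin l → ℕ | (∀ i, (y i).Prime) ∧ ∏ i, y i = ∏ i, x i}.Finite := by
      refine (Finset.finite_toSet (Fintype.piFinset (fun _ : Fin l => Finset.range (∏ i, x i + 1)))).subset ?_
      rintro y ⟨hy, hy2⟩
      rw [Finset.mem_coe, Fintype.mem_piFinset]
      intro i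
      rw [Finset.mem_range, Nat.lt_succ_iff, ← hy2]
      exact Nat.le_of_dvd (Finset.prod_pos fun j _ => (hy j).pos) (Finset.dvd_prod_of_mem _ (Finset.mem_univ i))
    refine le_trans ?_ (prod_fiberN x (fun i => bk_prime (hsP x hx i)))
    rw [← Set.ncard_coe_finset]
    refine Set.ncard_le_ncard_of_injOn (fun p => p.2) ?_ ?_ hfin
    · intro p hp
      obtain ⟨hp1, hp2⟩ := Finset.mem_filter.1 (Finset.mem_coe.1 hp)
      obtain ⟨hp3, hp4⟩ := Finset.mem_filter.1 hp1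
      refine ⟨fun i => bk_prime (hsP _ (Finset.mem_product.1 hp3).2 i), ?_⟩
      rw [← hp4, hp2]
    · intro p hp q hq hpq
      have hp2 := (Finset.mem_filter.1 (Finset.mem_coe.1 hp)).2
      have hq2 := (Finset.mem_filter.1 (Finset.mem_coe.1 hq)).2
      exact Prod.ext (hp2.trans hq2.symm) hpq
  have h5 : D.card ≤ s.card * l.factorial := by
    rw [h3]
    calc ∑ x ∈ s, (D.filter (fun p => p.1 = x)).card ≤ ∑ _x ∈ s, l.factorial :=
          Finset.sum_le_sum h4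
      _ = s.card * l.factorial := by rw [Finset.sum_const, smul_eq_mul]
  have h6 : (s.card : ℝ) ≤ Real.exp ((v + 1) * ρ) ^ l := by
    rw [hs, Fintype.card_piFinset]
    push_cast
    rw [Finset.prod_const, Finset.card_univ, Fintype.card_fin]
    gcongr
    exact card_bk_le P Q ρ v
  calc (Set.ncard {p : (Fin l → ℕ) × (Fin l → ℕ) | p.1 ∈ s ∧ p.2 ∈ s ∧
      (∏ i, p.1 i) * 1 = (∏ i, p.2 i) * 1} : ℝ) ≤ (s.card * l.factorial : ℕ) := by
        exact_mod_cast h2.trans h5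
    _ = (s.card : ℝ) * l.factorial := by push_cast; ring
    _ ≤ _ := by gcongr

/-- the estimate for one block -/
lemma one_blockS {A0 : ℝ} (hA0 : 0 < A0) (hLSF : ∀ (ι : Type) (s : Finset ι) (g : ι → ℕ × ℕ) (c : ι → ℂ) (N : ℕ) (C D Y : ℝ)
    (T : ℕ), 1 ≤ N → 1 ≤ Y → C * D ≤ Y → Real.log Y ≤ 3 * N → (∀ i ∈ s, ‖c i‖ ≤ 1) →
    (∀ i ∈ s, (0 < (g i).1 ∧ ((g i).1 : ℝ) ≤ C) ∧ 0 < (g i).2 ∧ ((g i).2 : ℝ) ≤ D) →
    ∑ k ∈ fr T, ‖∑ i ∈ s, c i * ch ((k : ℝ) / N) (g i)‖ ^ 2 ≤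
      A0 * (T + N * Y) *
        (Set.ncard {p : ι × ι | p.1 ∈ s ∧ p.2 ∈ s ∧ (g p.1).1 * (g p.2).2 = (g p.2).1 * (g p.1).2} : ℝ))
    {f : ℕ → ℂ} (hf : CMN f) {P Q ρ X α : ℝ} {N T v l : ℕ} (hρ : 0 < ρ) (hρ' : ρ ≤ 1) (hX : 1 ≤ X)
    (hN : 1 ≤ N) (hN2 : Real.log X ≤ 3 / 2 * N) (hl : (l : ℝ) ≤ Real.log X)
    (hT : (T : ℝ) ≤ N * X) (h1 : l * (v * ρ) ≤ Real.log X) (h2 : Real.log X ≤ (l + 1) * (v * ρ))
    (h3 : v * ρ ≤ Real.log Q) (hQ : 0 < Q) (hα : 0 < α) (hα' : α ≤ 1 / 4) :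
    (((fr T).filter (fun k => Real.exp ((1 - α) * (v * ρ)) < ‖Up f N P Q ρ v k‖)).card : ℝ) ≤
      2 * A0 * N * Real.exp (2 * ρ * l) * l.factorial * X ^ (2 * α) * Q := by
  classical
  set s := Fintype.piFinset (fun _ : Fin l => bk P Q ρ v) with hs
  set A := (fr T).filter (fun k => Real.exp ((1 - α) * (v * ρ)) < ‖Up f N P Q ρ v k‖) with hA
  set Y := X * Real.exp (ρ * l) with hY
  have hX0 : 0 < X := by linarith
  have hN0 : (0 : ℝ) < N := by exact_mod_cast hN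
  have hY1 : 1 ≤ Y := by
    have : 1 ≤ Real.exp (ρ * l) := Real.one_le_exp (by positivity)
    nlinarith
  have hlogY : Real.log Y = Real.log X + ρ * l := by
    rw [hY, Real.log_mul hX0.ne' (Real.exp_pos _).ne', Real.log_exp]
  have hsB : ∀ x ∈ s, ∀ i, x i ∈ bk P Q ρ v := by
    intro x hx i
    rw [hs, Fintype.mem_piFinset] at hx
    exact hx i
  have hexpY : Real.exp ((v + 1) * ρ) ^ l ≤ Y := by
    rw [← Real.exp_nat_mul, hY]
    have : X * Real.exp (ρ * l) = Real.exp (Real.log X + ρ * l) := by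
      rw [Real.exp_add, Real.exp_log hX0]
    rw [this]
    apply Real.exp_le_exp.2
    nlinarith
  have hLS := hLSF (Fin l → ℕ) s (fun x => (∏ i, x i, 1)) (fun x => ∏ i, f (x i)) N Y 1 Y T hN hY1
    (by rw [mul_one])
    (by
      rw [hlogY]
      have : ρ * l ≤ 1 * l := by gcongr
      linarith)
    (by
      intro x hx
      rw [norm_prod]
      exact Finset.prod_le_one (fun _ _ => norm_nonneg _) fun i _ => hf.bd _)
    (by
      intro x hx
      have hp : 0 < ∏ i, x i := Finset.prod_pos fun i _ => (bk_prime (hsB x hx i)).pos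
      refine ⟨⟨hp, ?_⟩, one_pos, by simp⟩
      push_cast
      calc ∏ i : Fin l, (x i : ℝ) ≤ ∏ _i : Fin l, Real.exp ((v + 1) * ρ) := by
            apply Finset.prod_le_prod
            · intro i _
              positivity
            · intro i _
              exact (mem_bk.1 (hsB x hx i)).2.2
        _ = Real.exp ((v + 1) * ρ) ^ l := by
            rw [Finset.prod_const, Finset.card_univ, Fintype.card_fin]
        _ ≤ Y := hexpY)
  have hLS2 := hLS.trans (mul_le_mul_of_nonneg_left (pairs_leS P Q ρ v l) (by positivity))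
  have hlow : (A.card : ℝ) * Real.exp ((1 - α) * (v * ρ)) ^ (2 * l) ≤
      ∑ k ∈ fr T, ‖∑ x ∈ s, (∏ i, f (x i)) * ch ((k : ℝ) / N) (∏ i, x i, 1)‖ ^ 2 := by
    calc (A.card : ℝ) * Real.exp ((1 - α) * (v * ρ)) ^ (2 * l) =
        ∑ _k ∈ A, Real.exp ((1 - α) * (v * ρ)) ^ (2 * l) := by
          rw [Finset.sum_const, nsmul_eq_mul]
      _ ≤ ∑ k ∈ A, ‖∑ x ∈ s, (∏ i, f (x i)) * ch ((k : ℝ) / N) (∏ i, x i, 1)‖ ^ 2 := by
          apply Finset.sum_le_sum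
          intro k hk
          rw [← Up_pow f N P Q ρ v k l, norm_pow, ← pow_mul, Nat.mul_comm l 2]
          have := (Finset.mem_filter.1 hk).2
          gcongr
      _ ≤ _ := by
          apply Finset.sum_le_sum_of_subset_of_nonneg (Finset.filter_subset _ _)
          intro k _ _
          positivity
  have hTY : (T : ℝ) + N * Y ≤ 2 * (N * Y) := by
    have : X ≤ Y := by
      have : 1 ≤ Real.exp (ρ * l) := Real.one_le_exp (by positivity)
      nlinarith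
    have : N * X ≤ N * Y := by gcongr
    linarith
  have hmain : (A.card : ℝ) * Real.exp ((1 - α) * (v * ρ)) ^ (2 * l) ≤
      A0 * (2 * (N * Y)) * (Real.exp ((v + 1) * ρ) ^ l * l.factorial) := by
    refine (hlow.trans hLS2).trans ?_
    gcongr
  have hE0 : 0 < Real.exp ((1 - α) * (v * ρ)) ^ (2 * l) := by positivity
  rw [← le_div_iff₀ hE0] at hmain
  refine hmain.trans ?_
  rw [div_le_iff₀ hE0]
  have e1 : Y * Real.exp ((v + 1) * ρ) ^ l ≤ Real.exp (2 * ρ * l) * X ^ (2 * α) * Q *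
      Real.exp ((1 - α) * (v * ρ)) ^ (2 * l) := by
    have a1 : Y * Real.exp ((v + 1) * ρ) ^ l =
        Real.exp (Real.log X + ρ * l + l * ((v + 1) * ρ)) := by
      rw [hY, ← Real.exp_nat_mul, Real.exp_add, Real.exp_add, Real.exp_log hX0]
    have a2 : Real.exp (2 * ρ * l) * X ^ (2 * α) * Q * Real.exp ((1 - α) * (v * ρ)) ^ (2 * l) =
        Real.exp (2 * ρ * l + Real.log X * (2 * α) + Real.log Q +
          2 * l * ((1 - α) * (v * ρ))) := by
      rw [← Real.exp_nat_mul, Real.rpow_def_of_pos hX0, Real.exp_add, Real.exp_add, Real.exp_add,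
        Real.exp_log hQ]
      push_cast
      ring
    rw [a1, a2]
    apply Real.exp_le_exp.2
    have b1 : 0 ≤ Real.log X - l * (v * ρ) := by linarith
    have b2 : Real.log X - l * (v * ρ) ≤ Real.log Q := by linarith
    have b3 : (1 - 2 * α) * (Real.log X - l * (v * ρ)) ≤ Real.log Q := by nlinarith
    nlinarith
  calc A0 * (2 * (N * Y)) * (Real.exp ((v + 1) * ρ) ^ l * l.factorial) =
      2 * A0 * N * l.factorial * (Y * Real.exp ((v + 1) * ρ) ^ l) := by ring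
    _ ≤ 2 * A0 * N * l.factorial * (Real.exp (2 * ρ * l) * X ^ (2 * α) * Q *
        Real.exp ((1 - α) * (v * ρ)) ^ (2 * l)) := by gcongr
    _ = _ := by ring

lemma large_XS (C C2 M ρ δ : ℝ) (hC : 0 < C) (hC2 : 1 ≤ C2) (hM : 1 ≤ M) (hρ : 0 < ρ)
    (hδ : 0 < δ) : ∀ᶠ X : ℝ in atTop, 1 ≤ X ∧ 1 ≤ Real.log X ∧ 2 ≤ Real.log (Real.log X) ∧
      Real.log (Real.log X) + 2 ≤ (1 / C2 + δ / 2) * (C2 * Real.log (Real.log X) - 1) ∧
      2 * C * (C2 * M * Real.log (Real.log X) / ρ + 1) * Real.log X ^ (C2 * M) * (3 * Real.log X) ≤ X ^ (δ / 2) := by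
  have tL := Real.tendsto_log_atTop
  have tE := tL.comp tL
  have h4 := tE.eventually_ge_atTop ((2 + 1 / C2 + δ / 2) * 2 / (δ * C2))
  have hK : 0 < 6 * C * (C2 * M / ρ + 1) := by positivity
  have h5 := (isLittleO_log_rpow_rpow_atTop (C2 * M + 2) (half_pos hδ)).def
    (one_div_pos.2 hK)
  filter_upwards [eventually_ge_atTop 1, tL.eventually_ge_atTop 1, tE.eventually_ge_atTop 2, h4,
    h5] with X h1 h2 h3 h4 h5
  simp only [Function.comp] at h3 h4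
  refine ⟨h1, h2, h3, ?_, ?_⟩
  · have hC0 : 0 < C2 := by linarith
    rw [div_le_iff₀ (by positivity)] at h4
    have : (1 / C2 + δ / 2) * (C2 * Real.log (Real.log X) - 1) =
        Real.log (Real.log X) + (Real.log (Real.log X) * (δ * C2)) / 2 - 1 / C2 - δ / 2 := by
      field_simp
      ring
    rw [this]
    linarith
  · have hL0 : 0 < Real.log X := by linarith
    have e1 : Real.log (Real.log X) ≤ Real.log X := by
      have := Real.log_le_sub_one_of_pos hL0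
      linarith
    rw [Real.norm_of_nonneg (by positivity), Real.norm_of_nonneg (by positivity),
      Real.rpow_add hL0, Real.rpow_two, one_div, inv_mul_eq_div, le_div_iff₀ hK] at h5
    have hC0 : 0 < C2 := by linarith
    have hM0 : 0 < M := by linarith
    calc 2 * C * (C2 * M * Real.log (Real.log X) / ρ + 1) * Real.log X ^ (C2 * M) * (3 * Real.log X) ≤
        2 * C * (C2 * M * Real.log X / ρ + Real.log X) * Real.log X ^ (C2 * M) * (3 * Real.log X) := by gcongr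
      _ = Real.log X ^ (C2 * M) * Real.log X ^ 2 * (6 * C * (C2 * M / ρ + 1)) := by ring
      _ ≤ _ := h5

end FewSAux

open FewSAux

/-- Copy of `few` (Lib_MP_f1a94e_ecc/Few.lean and Lib_MP_f1a94e_mr/Few.lean). `(Up v)^l` is the sum over the family
`x ∈ (bk v)^l` of `∏ f x_j · ch (k/N) (∏ x_j, 1)` (`nit (-t) n = ch t (n, 1)`); `lsF` with the box `Y × 1`,
`Y = X e^(ρ l)`, `log Y ≤ 2 log X ≤ 3 N`; the number of pairs `x, y` with `∏ x = ∏ y` is at most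
`l! (card (bk v))^l` (`prod_fiberN`). The additional factor `N ≤ 3 log X` is absorbed by `X^(δ/2)` (`large_X` of
Lib_MP_f1a94e_mr/Few.lean with a factor `3 log X` more). -/
theorem fewS (α C2 M ρ δ : ℝ) (hα : 0 < α) (hα' : α ≤ 1 / 4) (hC2 : 1 ≤ C2) (hM : 1 ≤ M)
    (hρ : 0 < ρ) (hρ' : ρ ≤ 1) (hδ : 0 < δ) : ∃ X0 : ℝ, ∀ X : ℝ, X0 ≤ X → ∀ f : ℕ → ℂ, CMN f →
    ∀ N T : ℕ, Real.log X ≤ 3 / 2 * N → (N : ℝ) ≤ 3 * Real.log X → (T : ℝ) ≤ N * X →
    (Set.ncard {k : ℤ | k ∈ fr T ∧ ∃ v : ℕ, Real.exp ((1 - α) * (v * ρ)) <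
      ‖Up f N (Real.log X ^ C2) (Real.log X ^ (C2 * M)) ρ v k‖} : ℝ) ≤ X ^ (2 * α + 1 / C2 + δ) := by
  classical
  obtain ⟨C, hC0, hC⟩ := lsF
  obtain ⟨X0, hX0⟩ := Filter.eventually_atTop.1 (large_XS C C2 M ρ δ hC0 hC2 hM hρ hδ)
  refine ⟨X0, fun X hX f hf N T hN1 hN2 hT => ?_⟩
  obtain ⟨x1, x2, x3, x4, x5⟩ := hX0 X hX
  set L := Real.log X with hL
  set E := Real.log L with hE
  set P := L ^ C2 with hP
  set Q := L ^ (C2 * M) with hQ
  have hXpos : 0 < X := by linarith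
  have hLpos : 0 < L := by linarith
  have hN0 : (0 : ℝ) < N := by linarith
  have hN1' : 1 ≤ N := by
    have : 0 < N := by exact_mod_cast hN0
    exact this
  have hC2pos : 0 < C2 := by linarith
  have hMpos : 0 < M := by linarith
  have hQpos : 0 < Q := Real.rpow_pos_of_pos hLpos _
  have hPpos : 0 < P := Real.rpow_pos_of_pos hLpos _
  have hlogQ : Real.log Q = C2 * M * E := by rw [hQ, Real.log_rpow hLpos]
  have hlogP : Real.log P = C2 * E := by rw [hP, Real.log_rpow hLpos]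
  set Nv := ⌊C2 * M * E / ρ⌋₊ + 1 with hNv
  -- the range of v
  have hv : ∀ (v : ℕ) (k : ℤ), Real.exp ((1 - α) * (v * ρ)) < ‖Up f N P Q ρ v k‖ →
      v * ρ ≤ C2 * M * E ∧ C2 * E - 1 ≤ v * ρ := by
    intro v k hvk
    have hne : (bk P Q ρ v).Nonempty := by
      by_contra h
      rw [Finset.not_nonempty_iff_eq_empty] at h
      have : Up f N P Q ρ v k = 0 := by
        unfold Up
        rw [h, Finset.sum_empty]
      rw [this, norm_zero] at hvk
      exact absurd hvk (not_lt.2 (Real.exp_pos _).le)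
    obtain ⟨w, hw⟩ := hne
    obtain ⟨w1, w2, w3⟩ := mem_bk.1 hw
    obtain ⟨_, _, w4, w5⟩ := mem_pp.1 w1
    constructor
    · have := w2.trans_le w5
      rw [← Real.lt_log_iff_exp_lt hQpos, hlogQ] at this
      exact this.le
    · have := w4.trans_le w3
      rw [← Real.log_lt_iff_lt_exp hPpos, hlogP] at this
      nlinarith
  have hsub : {k : ℤ | k ∈ fr T ∧ ∃ v : ℕ, Real.exp ((1 - α) * (v * ρ)) < ‖Up f N P Q ρ v k‖} ⊆
      (((Finset.range Nv).biUnion (fun v => (fr T).filter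
        (fun k => Real.exp ((1 - α) * (v * ρ)) < ‖Up f N P Q ρ v k‖)) : Finset ℤ) : Set ℤ) := by
    rintro k ⟨hk, v, hvk⟩
    rw [Finset.mem_coe, Finset.mem_biUnion]
    refine ⟨v, ?_, Finset.mem_filter.2 ⟨hk, hvk⟩⟩
    rw [Finset.mem_range, hNv, Nat.lt_succ_iff]
    apply Nat.le_floor
    rw [le_div_iff₀ hρ]
    exact (hv v k hvk).1
  have hcard : ∀ v ∈ Finset.range Nv, (((fr T).filter
      (fun k => Real.exp ((1 - α) * (v * ρ)) < ‖Up f N P Q ρ v k‖)).card : ℝ) ≤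
      2 * C * N * X ^ (1 / C2 + δ / 2) * X ^ (2 * α) * Q := by
    intro v _
    rcases Finset.eq_empty_or_nonempty ((fr T).filter
      (fun k => Real.exp ((1 - α) * (v * ρ)) < ‖Up f N P Q ρ v k‖)) with he | ⟨k, hk⟩
    · rw [he, Finset.card_empty, Nat.cast_zero]
      positivity
    · obtain ⟨v1, v2⟩ := hv v k (Finset.mem_filter.1 hk).2
      have hv1 : 1 ≤ v * ρ := by nlinarith
      have hv0 : 0 < v * ρ := by linarith
      set l := ⌊L / (v * ρ)⌋₊ with hl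
      have l1 : (l : ℝ) ≤ L / (v * ρ) := Nat.floor_le (by positivity)
      have l2 : L / (v * ρ) < l + 1 := Nat.lt_floor_add_one _
      have l3 : l * (v * ρ) ≤ L := by rwa [le_div_iff₀ hv0] at l1
      have l4 : L ≤ (l + 1) * (v * ρ) := by
        rw [div_lt_iff₀ hv0] at l2
        exact l2.le
      have l5 : (l : ℝ) ≤ L := by
        calc (l : ℝ) ≤ L / (v * ρ) := l1
          _ ≤ L / 1 := by gcongr
          _ = L := div_one L
      have hfac : Real.exp (2 * ρ * l) * l.factorial ≤ X ^ (1 / C2 + δ / 2) := by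
        have f1 : (l.factorial : ℝ) ≤ Real.exp (l * E) := by
          have g1 : (l.factorial : ℝ) ≤ (l : ℝ) ^ l := by exact_mod_cast Nat.factorial_le_pow l
          have g2 : (l : ℝ) ^ l ≤ L ^ l := by gcongr
          have g3 : L ^ l = Real.exp (l * E) := by
            rw [Real.exp_nat_mul, hE, Real.exp_log hLpos]
          linarith
        have f2 : Real.exp (2 * ρ * l) ≤ Real.exp (2 * l) := by
          apply Real.exp_le_exp.2
          have : (0 : ℝ) ≤ l := Nat.cast_nonneg l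
          nlinarith
        have f3 : l * (E + 2) ≤ (1 / C2 + δ / 2) * L := by
          have g0 : (0 : ℝ) ≤ l := Nat.cast_nonneg l
          have g1 : (0:ℝ) ≤ 1 / C2 + δ / 2 := by positivity
          calc l * (E + 2) ≤ l * ((1 / C2 + δ / 2) * (C2 * E - 1)) := by gcongr
            _ = (1 / C2 + δ / 2) * (l * (C2 * E - 1)) := by ring
            _ ≤ (1 / C2 + δ / 2) * (l * (v * ρ)) := by gcongr
            _ ≤ (1 / C2 + δ / 2) * L := by gcongr
        calc Real.exp (2 * ρ * l) * l.factorial ≤ Real.exp (2 * l) * Real.exp (l * E) := by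
              gcongr
          _ = Real.exp (l * (E + 2)) := by
              rw [← Real.exp_add]
              congr 1
              ring
          _ ≤ Real.exp (L * (1 / C2 + δ / 2)) := by
              apply Real.exp_le_exp.2
              linarith
          _ = X ^ (1 / C2 + δ / 2) := by rw [Real.rpow_def_of_pos hXpos]
      have hb := one_blockS hC0 hC hf (P := P) (Q := Q) (ρ := ρ) (X := X) (α := α) (N := N) (T := T)
        (v := v) (l := l) hρ hρ' x1 hN1' hN1 l5 hT l3 l4 (by rw [hlogQ]; exact v1) hQpos hα hα'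
      refine hb.trans ?_
      calc 2 * C * N * Real.exp (2 * ρ * l) * l.factorial * X ^ (2 * α) * Q =
          2 * C * N * (Real.exp (2 * ρ * l) * l.factorial) * X ^ (2 * α) * Q := by ring
        _ ≤ _ := by gcongr
  have hfin := Set.ncard_le_ncard hsub (Finset.finite_toSet _)
  rw [Set.ncard_coe_finset] at hfin
  have hNvle : (Nv : ℝ) ≤ C2 * M * E / ρ + 1 := by
    rw [hNv]
    push_cast
    have : (⌊C2 * M * E / ρ⌋₊ : ℝ) ≤ C2 * M * E / ρ := Nat.floor_le (by positivity)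
    linarith
  calc (Set.ncard {k : ℤ | k ∈ fr T ∧ ∃ v : ℕ, Real.exp ((1 - α) * (v * ρ)) <
      ‖Up f N P Q ρ v k‖} : ℝ) ≤ (((Finset.range Nv).biUnion (fun v => (fr T).filter
        (fun k => Real.exp ((1 - α) * (v * ρ)) < ‖Up f N P Q ρ v k‖))).card : ℝ) := by
        exact_mod_cast hfin
    _ ≤ ((∑ v ∈ Finset.range Nv, ((fr T).filter
        (fun k => Real.exp ((1 - α) * (v * ρ)) < ‖Up f N P Q ρ v k‖)).card : ℕ) : ℝ) := by
        exact_mod_cast Finset.card_biUnion_le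
    _ = ∑ v ∈ Finset.range Nv, (((fr T).filter
        (fun k => Real.exp ((1 - α) * (v * ρ)) < ‖Up f N P Q ρ v k‖)).card : ℝ) := by push_cast; rfl
    _ ≤ ∑ _v ∈ Finset.range Nv, 2 * C * N * X ^ (1 / C2 + δ / 2) * X ^ (2 * α) * Q :=
        Finset.sum_le_sum hcard
    _ = Nv * (2 * C * N * X ^ (1 / C2 + δ / 2) * X ^ (2 * α) * Q) := by
        rw [Finset.sum_const, Finset.card_range, nsmul_eq_mul]
    _ ≤ (C2 * M * E / ρ + 1) * (2 * C * (3 * L) * X ^ (1 / C2 + δ / 2) * X ^ (2 * α) * Q) := by gcongr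
    _ = X ^ (2 * α) * X ^ (1 / C2 + δ / 2) * (2 * C * (C2 * M * E / ρ + 1) * Q * (3 * L)) := by ring
    _ ≤ X ^ (2 * α) * X ^ (1 / C2 + δ / 2) * X ^ (δ / 2) := by gcongr
    _ = X ^ (2 * α + 1 / C2 + δ) := by
        rw [← Real.rpow_add hXpos, ← Real.rpow_add hXpos]
        congr 1
        ring

end Pool.Agent.SplM

end

/-! ### from `Lib_MP_92ef0c_spm.A2Sm` -/

section

/-!
# the non primitive terms of a stage
-/

set_option autoImplicit false

namespace Pool.Agent.SplM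

open Pool.Agent.GaussMR (fr mem_fr nv Ls)

open Classical in
/-- `∑_{(x,y)} #{p : p x ≤ 3 C, p y ≤ D}² = ∑_{p, q} #{(x, y) : ..} ≤ ∑_{p, q} (3 C / m) (D / m)`, `m = max p q`,
`≤ 2 ∑_p ∑_{q ≤ p} 3 C D / p² ≤ 6 C D ∑_p 1 / p` (at most `p` values `q ≤ p`). -/
theorem a2_second (P Q C D : ℝ) (hC : 0 ≤ C) (hD : 0 ≤ D) :
    ∑ z ∈ Spl.PB C D, (∑ p ∈ pp P Q, if (p : ℝ) * z.1 ≤ 3 * C ∧ (p : ℝ) * z.2 ≤ D then (1 : ℝ) else 0) ^ 2 ≤
      6 * (C * D) * Ls P Q := by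
  have hpos : ∀ p ∈ pp P Q, (0 : ℝ) < (p : ℝ) := by
    intro p hp
    exact_mod_cast (pp_prime hp).pos
  have hCD : 0 ≤ C * D := mul_nonneg hC hD
  set h : ℕ → ℕ × ℕ → ℝ := fun p z => if (p : ℝ) * z.1 ≤ 3 * C ∧ (p : ℝ) * z.2 ≤ D then 1 else 0 with hh
  have hh0 : ∀ p z, 0 ≤ h p z := by
    intro p z
    simp only [hh]
    split_ifs <;> norm_num
  have hh1 : ∀ p z, h p z ≤ 1 := by
    intro p z
    simp only [hh]
    split_ifs <;> norm_num
  -- one column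
  have hcol : ∀ p ∈ pp P Q, ∑ z ∈ Spl.PB C D, h p z ≤ 3 * (C * D) / (p : ℝ) ^ 2 := by
    intro p hp
    have hp0 := hpos p hp
    have h1 : ∑ z ∈ Spl.PB C D, h p z =
        (((Spl.PB C D).filter (fun z => (p : ℝ) * z.1 ≤ 3 * C ∧ (p : ℝ) * z.2 ≤ D)).card : ℝ) := by
      rw [Finset.card_filter]
      push_cast
      rfl
    rw [h1]
    have h2 : (Spl.PB C D).filter (fun z => (p : ℝ) * z.1 ≤ 3 * C ∧ (p : ℝ) * z.2 ≤ D) ⊆
        Spl.PB (3 * C / p) (D / p) := by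
      intro z hz
      rw [Finset.mem_filter] at hz
      have h3 := Spl.mem_PB.1 hz.1
      refine Spl.mem_PB.2 ⟨⟨h3.1.1, ?_⟩, ⟨h3.2.1.1, ?_⟩, h3.2.2⟩
      · rw [le_div_iff₀ hp0, mul_comm]
        exact hz.2.1
      · rw [le_div_iff₀ hp0, mul_comm]
        exact hz.2.2
    have h3 : (((Spl.PB C D).filter (fun z => (p : ℝ) * z.1 ≤ 3 * C ∧ (p : ℝ) * z.2 ≤ D)).card : ℝ) ≤
        ((Spl.PB (3 * C / p) (D / p)).card : ℝ) := by
      exact Nat.cast_le.mpr (Finset.card_le_card h2)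
    refine h3.trans ((card_PB_le _ _ (by positivity) (by positivity)).trans (le_of_eq ?_))
    field_simp
  -- pairs
  have hpair : ∀ p1 ∈ pp P Q, ∀ p2 ∈ pp P Q, ∑ z ∈ Spl.PB C D, h p1 z * h p2 z ≤
      (if p1 ≤ p2 then 3 * (C * D) / (p2 : ℝ) ^ 2 else 0) +
        (if p2 ≤ p1 then 3 * (C * D) / (p1 : ℝ) ^ 2 else 0) := by
    intro p1 hp1 p2 hp2
    have q1 : (0 : ℝ) ≤ if p1 ≤ p2 then 3 * (C * D) / (p2 : ℝ) ^ 2 else 0 := by
      split_ifs
      · positivity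
      · exact le_rfl
    have q2 : (0 : ℝ) ≤ if p2 ≤ p1 then 3 * (C * D) / (p1 : ℝ) ^ 2 else 0 := by
      split_ifs
      · positivity
      · exact le_rfl
    rcases le_total p1 p2 with hle | hle
    · have e1 : ∑ z ∈ Spl.PB C D, h p1 z * h p2 z ≤ ∑ z ∈ Spl.PB C D, h p2 z :=
        Finset.sum_le_sum fun z _ => by nlinarith [hh0 p1 z, hh1 p1 z, hh0 p2 z]
      have e2 := hcol p2 hp2
      have e3 : (if p1 ≤ p2 then 3 * (C * D) / (p2 : ℝ) ^ 2 else 0) =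
          3 * (C * D) / (p2 : ℝ) ^ 2 := if_pos hle
      linarith
    · have e1 : ∑ z ∈ Spl.PB C D, h p1 z * h p2 z ≤ ∑ z ∈ Spl.PB C D, h p1 z :=
        Finset.sum_le_sum fun z _ => by nlinarith [hh0 p2 z, hh1 p2 z, hh0 p1 z]
      have e2 := hcol p1 hp1
      have e3 : (if p2 ≤ p1 then 3 * (C * D) / (p1 : ℝ) ^ 2 else 0) =
          3 * (C * D) / (p1 : ℝ) ^ 2 := if_pos hle
      linarith
  -- number of smaller primes
  have hcount : ∀ p2 ∈ pp P Q, ∑ p1 ∈ pp P Q, (if p1 ≤ p2 then 3 * (C * D) / (p2 : ℝ) ^ 2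
      else 0) ≤ 3 * (C * D) * (1 / (p2 : ℝ)) := by
    intro p2 hp2
    have hp0 := hpos p2 hp2
    rw [← Finset.sum_filter, Finset.sum_const, nsmul_eq_mul]
    have e1 : ((pp P Q).filter (fun p1 => p1 ≤ p2)).card ≤ p2 := by
      have hsub : (pp P Q).filter (fun p1 => p1 ≤ p2) ⊆ Finset.Icc 1 p2 := by
        intro q hq
        rw [Finset.mem_filter] at hq
        rw [Finset.mem_Icc]
        exact ⟨(pp_prime hq.1).pos, hq.2⟩
      have := Finset.card_le_card hsub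
      simpa using this
    have e2 : (((pp P Q).filter (fun p1 => p1 ≤ p2)).card : ℝ) ≤ p2 := by
      exact_mod_cast e1
    calc (((pp P Q).filter (fun p1 => p1 ≤ p2)).card : ℝ) * (3 * (C * D) / (p2 : ℝ) ^ 2)
        ≤ (p2 : ℝ) * (3 * (C * D) / (p2 : ℝ) ^ 2) :=
          mul_le_mul_of_nonneg_right e2 (by positivity)
      _ = 3 * (C * D) * (1 / (p2 : ℝ)) := by field_simp
  have hsq : ∀ z, (∑ p ∈ pp P Q, h p z) ^ 2 = ∑ p1 ∈ pp P Q, ∑ p2 ∈ pp P Q, h p1 z * h p2 z := by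
    intro z
    rw [sq, Finset.sum_mul_sum]
  calc ∑ z ∈ Spl.PB C D, (∑ p ∈ pp P Q, h p z) ^ 2
      = ∑ z ∈ Spl.PB C D, ∑ p1 ∈ pp P Q, ∑ p2 ∈ pp P Q, h p1 z * h p2 z :=
        Finset.sum_congr rfl fun z _ => hsq z
    _ = ∑ p1 ∈ pp P Q, ∑ p2 ∈ pp P Q, ∑ z ∈ Spl.PB C D, h p1 z * h p2 z := by
        rw [Finset.sum_comm]
        exact Finset.sum_congr rfl fun p1 _ => Finset.sum_comm
    _ ≤ ∑ p1 ∈ pp P Q, ∑ p2 ∈ pp P Q,
          ((if p1 ≤ p2 then 3 * (C * D) / (p2 : ℝ) ^ 2 else 0) +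
            (if p2 ≤ p1 then 3 * (C * D) / (p1 : ℝ) ^ 2 else 0)) :=
        Finset.sum_le_sum fun p1 h1 => Finset.sum_le_sum fun p2 h2 => hpair p1 h1 p2 h2
    _ = ∑ p2 ∈ pp P Q, ∑ p1 ∈ pp P Q, (if p1 ≤ p2 then 3 * (C * D) / (p2 : ℝ) ^ 2 else 0) +
          ∑ p1 ∈ pp P Q, ∑ p2 ∈ pp P Q,
            (if p2 ≤ p1 then 3 * (C * D) / (p1 : ℝ) ^ 2 else 0) := by
        simp only [Finset.sum_add_distrib]
        congr 1
        exact Finset.sum_comm
    _ ≤ ∑ p2 ∈ pp P Q, 3 * (C * D) * (1 / (p2 : ℝ)) + ∑ p1 ∈ pp P Q, 3 * (C * D) * (1 / (p1 : ℝ)) :=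
        add_le_add (Finset.sum_le_sum hcount) (Finset.sum_le_sum hcount)
    _ = 6 * (C * D) * Ls P Q := by
        rw [← Finset.mul_sum, sum_pp]
        ring

/-- the substitution `z = (x, p y')` -/
theorem A2SM_sub (f g : ℕ → ℂ) {p : ℕ} (hp : p.Prime) (C C' D t : ℝ) (hC : C' ≤ C) :
    f p * nit (-t) p * ∑ z ∈ (Spl.PB C' D).filter (fun z => p ∣ z.2), f z.1 * g z.2 * ch t z =
      ∑ z ∈ Spl.PB C D, (if (z.1 : ℝ) ≤ C' ∧ (p : ℝ) * z.2 ≤ D ∧ ¬ p ∣ z.1 then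
        f p * f z.1 * g (p * z.2) else 0) * ch t z := by
  classical
  have hp0 : 0 < p := hp.pos
  have h1 : ∑ z ∈ Spl.PB C D, (if (z.1 : ℝ) ≤ C' ∧ (p : ℝ) * z.2 ≤ D ∧ ¬ p ∣ z.1 then
        f p * f z.1 * g (p * z.2) else 0) * ch t z =
      ∑ z ∈ (Spl.PB C D).filter (fun z => (z.1 : ℝ) ≤ C' ∧ (p : ℝ) * z.2 ≤ D ∧ ¬ p ∣ z.1),
        f p * f z.1 * g (p * z.2) * ch t z := by
    rw [Finset.sum_filter]
    refine Finset.sum_congr rfl fun z _ => ?_
    split_ifs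
    · rfl
    · rw [zero_mul]
  rw [h1, Finset.mul_sum]
  symm
  refine Finset.sum_bij (fun z _ => (z.1, p * z.2)) ?_ ?_ ?_ ?_
  · intro z hz
    rw [Finset.mem_filter, Spl.mem_PB] at hz
    obtain ⟨⟨⟨h2, h3⟩, ⟨h4, h5⟩, h6⟩, h7, h8, h9⟩ := hz
    rw [Finset.mem_filter, Spl.mem_PB]
    refine ⟨⟨⟨h2, h7⟩, ⟨Nat.mul_pos hp0 h4, ?_⟩, ?_⟩, dvd_mul_right _ _⟩
    · push_cast
      exact h8
    · exact Nat.Coprime.mul_right ((Nat.Prime.coprime_iff_not_dvd hp).2 h9).symm h6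
  · intro z _ z' _ h
    simp only [Prod.mk.injEq] at h
    exact Prod.ext h.1 (Nat.eq_of_mul_eq_mul_left hp0 h.2)
  · intro z' hz'
    rw [Finset.mem_filter, Spl.mem_PB] at hz'
    obtain ⟨⟨⟨h2, h3⟩, ⟨h4, h5⟩, h6⟩, ⟨y, hy⟩⟩ := hz'
    refine ⟨(z'.1, y), ?_, ?_⟩
    · rw [hy] at h4 h5 h6
      have hy0 : 0 < y := Nat.pos_of_mul_pos_left h4
      rw [Finset.mem_filter, Spl.mem_PB]
      push_cast at h5
      have h7 : (1 : ℝ) ≤ p := by exact_mod_cast hp0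
      have h8 : (0 : ℝ) ≤ y := Nat.cast_nonneg _
      refine ⟨⟨⟨h2, h3.trans hC⟩, ⟨hy0, by nlinarith⟩, h6.coprime_mul_left_right⟩, h3, h5, ?_⟩
      exact (Nat.Prime.coprime_iff_not_dvd hp).1 (Nat.Coprime.coprime_mul_right_right h6).symm
    · exact Prod.ext rfl hy.symm
  · intro z hz
    rw [Finset.mem_filter, Spl.mem_PB] at hz
    obtain ⟨⟨⟨h2, h3⟩, ⟨h4, h5⟩, h6⟩, h7, h8, h9⟩ := hz
    have e1 : nit (-t) p * ch t (z.1, p * z.2) = ch t z := ch_mul' t hp0 h4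
    simp only
    rw [← e1]
    ring

open Classical in
/-- weighted number of representations -/
noncomputable def A2SM_w (f g : ℕ → ℂ) (P Q ρ C D : ℝ) (z : ℕ × ℕ) : ℂ :=
  ∑ v ∈ Finset.range (nv Q ρ), ∑ p ∈ bk P Q ρ v,
    if (z.1 : ℝ) ≤ C * Real.exp (-(v * ρ)) ∧ (p : ℝ) * z.2 ≤ D ∧ ¬ p ∣ z.1 then f p * f z.1 * g (p * z.2) else 0

theorem A2SM_eq (f g : ℕ → ℂ) (N : ℕ) (P Q ρ C D : ℝ) (k : ℤ) (hρ : 0 < ρ) (hC : 0 ≤ C) :
    A2S f g N P Q ρ C D k = ∑ z ∈ Spl.PB C D, A2SM_w f g P Q ρ C D z * ch ((k : ℝ) / N) z := by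
  classical
  unfold A2S A2SM_w
  have h1 : ∀ v ∈ Finset.range (nv Q ρ), (∑ p ∈ bk P Q ρ v, f p * nit (-((k : ℝ) / N)) p *
      ∑ z ∈ (Spl.PB (C * Real.exp (-(v * ρ))) D).filter (fun z => p ∣ z.2), f z.1 * g z.2 * ch ((k : ℝ) / N) z) =
      ∑ z ∈ Spl.PB C D, ∑ p ∈ bk P Q ρ v,
        (if (z.1 : ℝ) ≤ C * Real.exp (-(v * ρ)) ∧ (p : ℝ) * z.2 ≤ D ∧ ¬ p ∣ z.1 then
          f p * f z.1 * g (p * z.2) else 0) * ch ((k : ℝ) / N) z := by
    intro v _
    rw [Finset.sum_comm]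
    refine Finset.sum_congr rfl fun p hp => ?_
    have hexp : Real.exp (-(v * ρ)) ≤ 1 := by
      rw [Real.exp_le_one_iff]
      have : (0 : ℝ) ≤ v * ρ := by positivity
      linarith
    exact A2SM_sub f g (bk_prime hp) C _ D _ (by nlinarith)
  rw [Finset.sum_congr rfl h1, Finset.sum_comm]
  refine Finset.sum_congr rfl fun z _ => ?_
  rw [Finset.sum_mul]
  refine Finset.sum_congr rfl fun v _ => ?_
  rw [Finset.sum_mul]

open Classical in
theorem A2SM_norm (f g : ℕ → ℂ) (hf : CMN f) (hg : ∀ n, ‖g n‖ ≤ 1) (P Q ρ C D : ℝ) (hρ : 0 < ρ) (hρ1 : ρ ≤ 1)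
    (hC : 0 ≤ C) (z : ℕ × ℕ) : ‖A2SM_w f g P Q ρ C D z‖ ≤
      ∑ p ∈ pp P Q, if (p : ℝ) * z.1 ≤ 3 * C ∧ (p : ℝ) * z.2 ≤ D then (1 : ℝ) else 0 := by
  set h : ℕ → ℝ := fun p => if (p : ℝ) * z.1 ≤ 3 * C ∧ (p : ℝ) * z.2 ≤ D then 1 else 0 with hh
  have hh0 : ∀ p, 0 ≤ h p := by
    intro p
    simp only [hh]
    split_ifs <;> norm_num
  have h1 : ‖A2SM_w f g P Q ρ C D z‖ ≤ ∑ v ∈ Finset.range (nv Q ρ), ∑ p ∈ bk P Q ρ v, h p := by
    unfold A2SM_w
    refine (norm_sum_le _ _).trans (Finset.sum_le_sum fun v _ => ?_)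
    refine (norm_sum_le _ _).trans (Finset.sum_le_sum fun p hp => ?_)
    by_cases hc : (z.1 : ℝ) ≤ C * Real.exp (-(v * ρ)) ∧ (p : ℝ) * z.2 ≤ D ∧ ¬ p ∣ z.1
    · rw [if_pos hc]
      have h2 : (p : ℝ) * z.1 ≤ 3 * C := by
        have h3 := (mem_bk.1 hp).2.2
        have hexp : Real.exp ρ ≤ 3 := by
          have := Real.exp_one_lt_d9
          exact (Real.exp_le_exp.mpr hρ1).trans (by linarith)
        calc (p : ℝ) * z.1 ≤ Real.exp ((v + 1) * ρ) * (C * Real.exp (-(v * ρ))) :=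
              mul_le_mul h3 hc.1 (Nat.cast_nonneg _) (by positivity)
          _ = Real.exp ρ * C := by
              rw [show (Real.exp ((v + 1) * ρ) * (C * Real.exp (-(v * ρ))) : ℝ) =
                (Real.exp ((v + 1) * ρ) * Real.exp (-(v * ρ))) * C by ring, ← Real.exp_add]
              congr 2
              ring
          _ ≤ 3 * C := by nlinarith
      have h4 : h p = 1 := by
        simp only [hh]
        exact if_pos ⟨h2, hc.2.1⟩
      rw [h4, norm_mul, norm_mul]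
      exact mul_le_one₀ (mul_le_one₀ (hf.bd _) (norm_nonneg _) (hf.bd _)) (norm_nonneg _) (hg _)
    · rw [if_neg hc, norm_zero]
      exact hh0 p
  refine h1.trans ?_
  rw [← Finset.sum_biUnion]
  · refine Finset.sum_le_sum_of_subset_of_nonneg ?_ fun p _ _ => hh0 p
    intro p hp
    rw [Finset.mem_biUnion] at hp
    obtain ⟨v, _, hv⟩ := hp
    exact (mem_bk.1 hv).1
  · intro v _ v' _ hne
    rw [Function.onFun, Finset.disjoint_left]
    intro p hp hp'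
    exact hne (bk_unique hρ hp hp')

/-- Cf. `A2_small` (Lib_MP_f1a94e_ecc/Stage.lean). In `A2S` put `y = p y'`: `(x, y')` is coprime and
`p^(-it) (p y' / x)^(it) = (y' / x)^(it)` (`ch_mul'`), so `A2S = ∑_{z ∈ PB C D} a z * ch (k/N) z`, where
`a (x, y') = ∑_v ∑_{p ∈ bk v, p y' ≤ D, x ≤ C e^(-vρ), ¬ p ∣ x} f p f x g (p y')` does not depend on `k`;
`p ≤ e^((v+1)ρ)` gives `p x ≤ 3 C`, every `p` lies in one block only, so
`‖a z‖ ≤ #{p ∈ pp : p x ≤ 3 C, p y' ≤ D}`; then `lsB` with `Y = X` and `a2_second`. -/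
theorem A2_smallS : ∃ A : ℝ, 0 < A ∧ ∀ (f g : ℕ → ℂ), CMN f → (∀ n, ‖g n‖ ≤ 1) →
    ∀ (P Q ρ C D X : ℝ) (N T : ℕ), 1 ≤ P → 0 < ρ → ρ ≤ 1 → 1 ≤ N → 1 ≤ X → 0 ≤ C → 0 ≤ D → C * D ≤ X →
    Real.log X ≤ 3 * N → (T : ℝ) ≤ N * X →
    ∑ k ∈ fr T, ‖A2S f g N P Q ρ C D k‖ ^ 2 ≤ A * N * X ^ 2 * Ls P Q := by
  classical
  obtain ⟨A1, hA1, hls⟩ := lsB
  refine ⟨12 * A1, by positivity, ?_⟩
  intro f g hf hg P Q ρ C D X N T _ hρ hρ1 hN hX hC hD hCD hlog hTX
  have hX0 : 0 < X := by linarith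
  have hN1 : (1 : ℝ) ≤ N := by exact_mod_cast hN
  have hN0 : (0 : ℝ) < N := by linarith
  simp only [A2SM_eq f g N P Q ρ C D _ hρ hC]
  refine (hls N C D X T (fun z => A2SM_w f g P Q ρ C D z) hN hX hCD hlog).trans ?_
  have h3 : 0 ≤ Ls P Q := Ls_nonneg P Q
  have h1 : ∑ z ∈ Spl.PB C D, ‖A2SM_w f g P Q ρ C D z‖ ^ 2 ≤ 6 * X * Ls P Q := by
    refine le_trans (Finset.sum_le_sum fun z hz => ?_) ((a2_second P Q C D hC hD).trans ?_)
    · exact pow_le_pow_left₀ (norm_nonneg _) (A2SM_norm f g hf hg P Q ρ C D hρ hρ1 hC z) 2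
    · gcongr
  calc A1 * (T + N * X) * ∑ z ∈ Spl.PB C D, ‖A2SM_w f g P Q ρ C D z‖ ^ 2
      ≤ A1 * (N * X + N * X) * (6 * X * Ls P Q) := by
        apply mul_le_mul _ h1 (Finset.sum_nonneg fun _ _ => by positivity) (by positivity)
        apply mul_le_mul_of_nonneg_left _ hA1.le
        linarith
    _ = 12 * A1 * N * X ^ 2 * Ls P Q := by ring

end Pool.Agent.SplM

end

/-! ### from `Lib_MP_92ef0c_spm.Tk1` -/

section

/-!
# Turan-Kubilius for the integers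
-/

set_option autoImplicit false

namespace Pool.Agent.SplM

open Pool.Agent.GaussMR (Ls)

theorem om1_eq_sum (P Q : ℝ) (x : ℕ) : om1 P Q x = ∑ p ∈ pp P Q, if p ∣ x then (1 : ℝ) else 0 := by
  unfold om1
  rw [Finset.card_filter]
  push_cast
  rfl

theorem om1_sq (P Q : ℝ) (s : Finset ℕ) : ∑ x ∈ s, (om1 P Q x) ^ 2 =
    ∑ p ∈ pp P Q, ∑ q ∈ pp P Q, ((s.filter (fun x => p ∣ x ∧ q ∣ x)).card : ℝ) := by
  have h1 : ∀ x ∈ s, (om1 P Q x) ^ 2 = ∑ p ∈ pp P Q, ∑ q ∈ pp P Q, if p ∣ x ∧ q ∣ x then (1 : ℝ) else 0 := by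
    intro x _
    rw [om1_eq_sum, sq, Finset.sum_mul_sum]
    refine Finset.sum_congr rfl fun p _ => Finset.sum_congr rfl fun q _ => ?_
    by_cases hp : p ∣ x <;> by_cases hq : q ∣ x <;> simp [hp, hq]
  rw [Finset.sum_congr rfl h1, Finset.sum_comm]
  refine Finset.sum_congr rfl fun p _ => ?_
  rw [Finset.sum_comm]
  refine Finset.sum_congr rfl fun q _ => ?_
  rw [Finset.card_filter]
  push_cast
  rfl

theorem om1_sum (P Q : ℝ) (s : Finset ℕ) : ∑ x ∈ s, om1 P Q x =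
    ∑ p ∈ pp P Q, ((s.filter (fun x => p ∣ x)).card : ℝ) := by
  rw [Finset.sum_congr rfl fun x _ => om1_eq_sum P Q x, Finset.sum_comm]
  refine Finset.sum_congr rfl fun p _ => ?_
  rw [Finset.card_filter]
  push_cast
  rfl

/-- a bound for the double sums -/
theorem pair_bound (P Q : ℝ) (s : Finset ℕ) (B : ℝ) (hB : 0 ≤ B)
    (h1 : ∀ p ∈ pp P Q, ((s.filter (fun x => p ∣ x)).card : ℝ) ≤ B / p)
    (h2 : ∀ p ∈ pp P Q, ∀ q ∈ pp P Q, p ≠ q → ((s.filter (fun x => p * q ∣ x)).card : ℝ) ≤ B / (p * q : ℕ)) :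
    ∑ x ∈ s, (om1 P Q x) ^ 2 ≤ B * Ls P Q + B * Ls P Q ^ 2 := by
  rw [om1_sq]
  have h3 : ∀ p ∈ pp P Q, ∀ q ∈ pp P Q, ((s.filter (fun x => p ∣ x ∧ q ∣ x)).card : ℝ) ≤
      (if p = q then B / p else 0) + B * (1 / p) * (1 / q) := by
    intro p hp q hq
    have hp0 : (0 : ℝ) < p := by exact_mod_cast (pp_prime hp).pos
    have hq0 : (0 : ℝ) < q := by exact_mod_cast (pp_prime hq).pos
    by_cases hpq : p = q
    · subst hpq
      rw [if_pos rfl]
      have h4 : (s.filter (fun x => p ∣ x ∧ p ∣ x)) = s.filter (fun x => p ∣ x) := by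
        refine Finset.filter_congr fun x _ => ?_
        simp
      rw [h4]
      have h5 : 0 ≤ B * (1 / (p : ℝ)) * (1 / p) := by positivity
      linarith [h1 p hp]
    · rw [if_neg hpq, zero_add]
      have hc : p.Coprime q := (Nat.coprime_primes (pp_prime hp) (pp_prime hq)).2 hpq
      have h4 : (s.filter (fun x => p ∣ x ∧ q ∣ x)) = s.filter (fun x => p * q ∣ x) := by
        refine Finset.filter_congr fun x _ => ?_
        exact ⟨fun h => hc.mul_dvd_of_dvd_of_dvd h.1 h.2, fun h => ⟨dvd_of_mul_right_dvd h, dvd_of_mul_left_dvd h⟩⟩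
      rw [h4]
      refine (h2 p hp q hq hpq).trans (le_of_eq ?_)
      push_cast
      field_simp
  refine (Finset.sum_le_sum fun p hp => Finset.sum_le_sum fun q hq => h3 p hp q hq).trans (le_of_eq ?_)
  simp_rw [Finset.sum_add_distrib]
  congr 1
  · rw [← sum_pp, Finset.mul_sum]
    refine Finset.sum_congr rfl fun p hp => ?_
    rw [Finset.sum_ite_eq, if_pos hp]
    ring
  · rw [← sum_pp, sq, Finset.sum_mul_sum, Finset.mul_sum]
    refine Finset.sum_congr rfl fun p _ => ?_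
    rw [Finset.mul_sum]
    refine Finset.sum_congr rfl fun q _ => ?_
    ring

theorem card_mult (n m : ℕ) : ((Finset.Icc 1 n).filter (fun x => m ∣ x)).card = n / m := by
  have h : Finset.Icc 1 n = Finset.Ioc 0 n := by
    ext x
    simp only [Finset.mem_Icc, Finset.mem_Ioc]
    omega
  rw [h]
  exact Nat.Ioc_filter_dvd_card_eq_div n m

theorem card_pp_le (P Q : ℝ) (hQ : 0 ≤ Q) : ((pp P Q).card : ℝ) ≤ Q := by
  have h1 : pp P Q ⊆ Finset.Icc 1 ⌊Q⌋₊ := by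
    intro p hp
    have h2 := mem_pp.1 hp
    rw [Finset.mem_Icc]
    exact ⟨h2.1.one_lt.le, Nat.le_floor h2.2.2.2⟩
  have h3 := Finset.card_le_card h1
  rw [Nat.card_Icc, Nat.add_sub_cancel] at h3
  exact le_trans (by exact_mod_cast h3) (Nat.floor_le hQ)

/-- Turan-Kubilius. With `n = ⌊C⌋`: the number of multiples of `m` in `[1, n]` is `n / m` with an error in `[-1, 0]`;
`∑_x om1² = ∑_{p, q} #{x : p ∣ x, q ∣ x} ≤ ∑_p n / p + ∑_{p ≠ q} n / (p q) ≤ n (L + L²)`,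
`∑_x om1 ≥ ∑_p (n / p - 1) ≥ n L - Q` (at most `Q` primes), so
`∑ (om1 - L)² ≤ n (L + L²) - 2 L (n L - Q) + n L² ≤ n L + 2 L Q`, and `Q ≤ C`. -/
theorem tk1 : ∃ A : ℝ, 0 < A ∧ ∀ P Q C : ℝ, 2 ≤ P → P ≤ Q → Q ^ 2 ≤ C →
    ∑ x ∈ Finset.Icc 1 ⌊C⌋₊, (om1 P Q x - Ls P Q) ^ 2 ≤ A * C * (Ls P Q + 1) := by
  refine ⟨3, by norm_num, ?_⟩
  intro P Q C hP hPQ hQC
  have hQ : 2 ≤ Q := hP.trans hPQ
  have hC : Q ≤ C := by nlinarith
  have hC0 : 0 ≤ C := by linarith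
  set L := Ls P Q with hL
  have hL0 : 0 ≤ L := Ls_nonneg P Q
  set n := ⌊C⌋₊ with hn
  have hnC : (n : ℝ) ≤ C := Nat.floor_le hC0
  have hn0 : (0 : ℝ) ≤ n := Nat.cast_nonneg n
  have h1 : ∑ x ∈ Finset.Icc 1 n, (om1 P Q x) ^ 2 ≤ n * L + n * L ^ 2 := by
    refine pair_bound P Q _ n hn0 ?_ ?_
    · intro p hp
      rw [card_mult]
      exact Nat.cast_div_le
    · intro p hp q hq _
      rw [card_mult]
      exact Nat.cast_div_le
  have h2 : n * L - Q ≤ ∑ x ∈ Finset.Icc 1 n, om1 P Q x := by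
    rw [om1_sum]
    have h3 : ∀ p ∈ pp P Q, (n : ℝ) * (1 / p) - 1 ≤ (((Finset.Icc 1 n).filter (fun x => p ∣ x)).card : ℝ) := by
      intro p hp
      rw [card_mult]
      have h4 : (n : ℝ) / p < ((n / p : ℕ) : ℝ) + 1 := by
        have hp0 : 0 < p := (pp_prime hp).pos
        have hp0' : (0 : ℝ) < p := by exact_mod_cast hp0
        rw [div_lt_iff₀ hp0']
        have h5 : n < (n / p + 1) * p := by
          have h6 := Nat.div_add_mod n p
          have h7 := Nat.mod_lt n hp0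
          nlinarith
        exact_mod_cast h5
      have h5 : (n : ℝ) * (1 / p) = n / p := by ring
      rw [h5]
      linarith
    refine le_trans ?_ (Finset.sum_le_sum h3)
    rw [Finset.sum_sub_distrib, ← Finset.mul_sum, sum_pp, Finset.sum_const, nsmul_eq_mul, mul_one]
    linarith [card_pp_le P Q (by linarith)]
  have h3 : ∑ x ∈ Finset.Icc 1 n, (om1 P Q x - L) ^ 2 =
      ∑ x ∈ Finset.Icc 1 n, (om1 P Q x) ^ 2 - 2 * L * ∑ x ∈ Finset.Icc 1 n, om1 P Q x + n * L ^ 2 := by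
    have h4 : ∀ x ∈ Finset.Icc 1 n, (om1 P Q x - L) ^ 2 = (om1 P Q x) ^ 2 - 2 * L * om1 P Q x + L ^ 2 := by
      intro x _
      ring
    rw [Finset.sum_congr rfl h4, Finset.sum_add_distrib, Finset.sum_sub_distrib, ← Finset.mul_sum,
      Finset.sum_const, Nat.card_Icc, Nat.add_sub_cancel, nsmul_eq_mul]
  rw [h3]
  have h4 : 2 * L * (n * L - Q) ≤ 2 * L * ∑ x ∈ Finset.Icc 1 n, om1 P Q x :=
    mul_le_mul_of_nonneg_left h2 (by linarith)
  have h5 : n * L ≤ C * L := mul_le_mul_of_nonneg_right hnC hL0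
  have h6 : L * Q ≤ L * C := mul_le_mul_of_nonneg_left hC hL0
  nlinarith

theorem card_mult_Ioc (a b m : ℕ) (hab : a ≤ b) : ((Finset.Ioc a b).filter (fun x => m ∣ x)).card + a / m = b / m := by
  have h1 : (Finset.Ioc 0 b).filter (fun x => m ∣ x) =
      (Finset.Ioc a b).filter (fun x => m ∣ x) ∪ (Finset.Ioc 0 a).filter (fun x => m ∣ x) := by
    ext x
    simp only [Finset.mem_filter, Finset.mem_Ioc, Finset.mem_union]
    constructor
    · rintro ⟨⟨h1, h2⟩, h3⟩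
      by_cases h4 : x ≤ a
      · exact Or.inr ⟨⟨h1, h4⟩, h3⟩
      · exact Or.inl ⟨⟨by omega, h2⟩, h3⟩
    · rintro (⟨⟨h1, h2⟩, h3⟩ | ⟨⟨h1, h2⟩, h3⟩)
      · exact ⟨⟨by omega, h2⟩, h3⟩
      · exact ⟨⟨h1, by omega⟩, h3⟩
  have h2 : Disjoint ((Finset.Ioc a b).filter (fun x => m ∣ x)) ((Finset.Ioc 0 a).filter (fun x => m ∣ x)) := by
    rw [Finset.disjoint_left]
    intro x hx hx'
    simp only [Finset.mem_filter, Finset.mem_Ioc] at hx hx'
    omega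
  rw [← Nat.Ioc_filter_dvd_card_eq_div b m, ← Nat.Ioc_filter_dvd_card_eq_div a m, h1, Finset.card_union_of_disjoint h2]

/-- multiples of `m` in `(C, C exp ρ]` -/
theorem card_ann (C ρ : ℝ) (hC : 0 ≤ C) (hρ : 0 < ρ) (hρ1 : ρ ≤ 1) (m : ℕ) (hm : 0 < m) (hmC : (m : ℝ) ≤ ρ * C) :
    (((Finset.Ioc ⌊C⌋₊ ⌊C * Real.exp ρ⌋₊).filter (fun x => m ∣ x)).card : ℝ) ≤ 3 * ρ * C / m := by
  have hm0 : (0 : ℝ) < m := by exact_mod_cast hm
  have he : Real.exp ρ ≤ 1 + 2 * ρ := by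
    have h1 := Real.abs_exp_sub_one_sub_id_le (x := ρ) (by rw [abs_of_pos hρ]; exact hρ1)
    have h2 := (abs_le.1 h1).2
    nlinarith
  have he1 : 1 ≤ Real.exp ρ := Real.one_le_exp hρ.le
  have hle : C ≤ C * Real.exp ρ := by nlinarith
  have h1 := card_mult_Ioc ⌊C⌋₊ ⌊C * Real.exp ρ⌋₊ m (Nat.floor_le_floor hle)
  have h2 : ((⌊C * Real.exp ρ⌋₊ / m : ℕ) : ℝ) ≤ C * Real.exp ρ / m := by
    refine Nat.cast_div_le.trans ?_
    exact div_le_div_of_nonneg_right (Nat.floor_le (by positivity)) hm0.le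
  have h3 : C / m < ((⌊C⌋₊ / m : ℕ) : ℝ) + 1 := by
    rw [← Nat.floor_div_natCast]
    exact Nat.lt_floor_add_one _
  have h4 : (((Finset.Ioc ⌊C⌋₊ ⌊C * Real.exp ρ⌋₊).filter (fun x => m ∣ x)).card : ℝ) + ((⌊C⌋₊ / m : ℕ) : ℝ) =
      ((⌊C * Real.exp ρ⌋₊ / m : ℕ) : ℝ) := by exact_mod_cast h1
  have h5 : 1 ≤ ρ * C / m := by rwa [le_div_iff₀ hm0, one_mul]
  have h6 : C * Real.exp ρ / m ≤ C / m + 2 * (ρ * C / m) := by
    rw [← mul_div_assoc, ← add_div]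
    refine div_le_div_of_nonneg_right ?_ hm0.le
    nlinarith
  have h7 : 3 * ρ * C / m = 3 * (ρ * C / m) := by ring
  rw [h7]
  linarith

/-- `∑_{C < x ≤ C e^ρ} om1² = ∑_{p, q} #{x ∈ (C, C e^ρ] : p ∣ x, q ∣ x}`; the number of multiples of `m`
(`m = p` or `m = p q`, `m ≤ Q² ≤ ρ C`) in `(C, C e^ρ]` is at most `C (e^ρ - 1) / m + 1 ≤ 2 ρ C / m + ρ C / m`. -/
theorem ann1 : ∃ A : ℝ, 0 < A ∧ ∀ P Q C ρ : ℝ, 2 ≤ P → P ≤ Q → 0 < ρ → ρ ≤ 1 → Q ^ 2 ≤ ρ * C →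
    ∑ x ∈ Finset.Ioc ⌊C⌋₊ ⌊C * Real.exp ρ⌋₊, (om1 P Q x) ^ 2 ≤ A * ρ * C * (Ls P Q + 1) ^ 2 := by
  refine ⟨3, by norm_num, ?_⟩
  intro P Q C ρ hP hPQ hρ hρ1 hQC
  have hQ : 2 ≤ Q := hP.trans hPQ
  have hρC : 0 < ρ * C := lt_of_lt_of_le (by positivity) hQC
  have hC0 : 0 < C := pos_of_mul_pos_right hρC hρ.le
  have hL0 : 0 ≤ Ls P Q := Ls_nonneg P Q
  have h1 : ∀ p ∈ pp P Q, (0 : ℝ) < p ∧ (p : ℝ) ≤ Q := fun p hp =>
    ⟨by exact_mod_cast (pp_prime hp).pos, (mem_pp.1 hp).2.2.2⟩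
  have h2 : ∑ x ∈ Finset.Ioc ⌊C⌋₊ ⌊C * Real.exp ρ⌋₊, (om1 P Q x) ^ 2 ≤
      3 * ρ * C * Ls P Q + 3 * ρ * C * Ls P Q ^ 2 := by
    refine pair_bound P Q _ (3 * ρ * C) (by positivity) ?_ ?_
    · intro p hp
      refine card_ann C ρ hC0.le hρ hρ1 p (pp_prime hp).pos ?_
      nlinarith [(h1 p hp).2]
    · intro p hp q hq _
      refine card_ann C ρ hC0.le hρ hρ1 (p * q) (Nat.mul_pos (pp_prime hp).pos (pp_prime hq).pos) ?_
      push_cast
      have h3 : (p : ℝ) * q ≤ Q * Q := mul_le_mul (h1 p hp).2 (h1 q hq).2 (h1 q hq).1.le (by linarith)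
      nlinarith
  refine h2.trans ?_
  nlinarith

end Pool.Agent.SplM

end

/-! ### from `Lib_MP_92ef0c_spm.StageIdS` -/

section

/-!
# the identity behind a stage
-/

set_option autoImplicit false

namespace Pool.Agent.SplM

open Pool.Agent.GaussMR (nv)

open Classical in
theorem mS_card (P Q ρ C : ℝ) (hρ : 0 < ρ) (x : ℕ) :
    mS P Q ρ C x = ((Finset.range (nv Q ρ)).biUnion fun v => (bk P Q ρ v).filter (fun p => p ∣ x ∧
      (x : ℝ) ≤ C * Real.exp (-(v * ρ)) * p)).card := by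
  rw [Finset.card_biUnion]
  · rfl
  · intro v _ v' _ hvv
    rw [Function.onFun, Finset.disjoint_left]
    intro w hw hw'
    exact hvv (bk_unique hρ (Finset.mem_filter.mp hw).1 (Finset.mem_filter.mp hw').1)

/-- `mS ≤ om1`: the blocks are disjoint subsets of `pp P Q` (`bk_unique`); cf. `mA_le`, Lib_MP_f1a94e_mr/StageId -/
theorem mS_le (P Q ρ C : ℝ) (hρ : 0 < ρ) (x : ℕ) : (mS P Q ρ C x : ℝ) ≤ om1 P Q x := by
  classical
  rw [mS_card P Q ρ C hρ x, om1, Nat.cast_le]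
  refine Finset.card_le_card ?_
  intro w hw
  rw [Finset.mem_biUnion] at hw
  obtain ⟨v, _, hw⟩ := hw
  rw [Finset.mem_filter] at hw
  rw [Finset.mem_filter]
  exact ⟨(mem_bk.mp hw.1).1, hw.2.1⟩

/-- equality for `x ≤ C` (`bk_exists`; `exp (v ρ) < p`); cf. `mA_eq_om` -/
theorem mS_eq (P Q ρ C : ℝ) (hP : 1 ≤ P) (hρ : 0 < ρ) (hC : 0 ≤ C) (x : ℕ) (hx : (x : ℝ) ≤ C) :
    (mS P Q ρ C x : ℝ) = om1 P Q x := by
  classical
  rw [mS_card P Q ρ C hρ x, om1, Nat.cast_inj]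
  congr 1
  ext w
  rw [Finset.mem_biUnion, Finset.mem_filter]
  constructor
  · rintro ⟨v, _, hw⟩
    rw [Finset.mem_filter] at hw
    exact ⟨(mem_bk.mp hw.1).1, hw.2.1⟩
  · rintro ⟨hw, hd⟩
    obtain ⟨v, hv, hvw⟩ := bk_exists hP hρ hw
    refine ⟨v, hv, Finset.mem_filter.mpr ⟨hvw, hd, hx.trans ?_⟩⟩
    have h1 : Real.exp (v * ρ) < w := (mem_bk.mp hvw).2.1
    calc C = C * Real.exp (-(v * ρ)) * Real.exp (v * ρ) := by
          rw [mul_assoc, ← Real.exp_add, neg_add_cancel, Real.exp_zero, mul_one]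
      _ ≤ C * Real.exp (-(v * ρ)) * w := by gcongr

open Classical in
/-- the substitution `x' = p x` -/
theorem sub_sumS (f g : ℕ → ℂ) (hf : CMN f) {p : ℕ} (hp : p.Prime) (Y Y' D : ℝ) (t : ℝ)
    (hYY : Y * p ≤ Y') :
    ∑ z ∈ (Spl.PB Y D).filter (fun z => ¬ p ∣ z.2), (f p * nit (-t) p) * (f z.1 * g z.2 * ch t z) =
      ∑ z ∈ (Spl.PB Y' D).filter (fun z => p ∣ z.1 ∧ (z.1 : ℝ) ≤ Y * p), f z.1 * g z.2 * ch t z := by
  have hp0 : 0 < p := hp.pos
  have hp0' : (0 : ℝ) < p := by exact_mod_cast hp0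
  refine Finset.sum_bij (fun z _ => (p * z.1, z.2)) ?_ ?_ ?_ ?_
  · intro z hz
    rw [Finset.mem_filter, Spl.mem_PB] at hz
    obtain ⟨⟨⟨h1, h2⟩, h3, h4⟩, h5⟩ := hz
    have h6 : ((p * z.1 : ℕ) : ℝ) ≤ Y * p := by
      push_cast
      nlinarith
    rw [Finset.mem_filter, Spl.mem_PB]
    refine ⟨⟨⟨Nat.mul_pos hp0 h1, h6.trans hYY⟩, h3, ?_⟩, dvd_mul_right _ _, h6⟩
    exact Nat.Coprime.mul_left ((Nat.Prime.coprime_iff_not_dvd hp).2 h5) h4
  · rintro ⟨x, y⟩ _ ⟨x', y'⟩ _ h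
    rw [Prod.mk.injEq] at h
    rw [Prod.mk.injEq]
    exact ⟨Nat.eq_of_mul_eq_mul_left hp0 h.1, h.2⟩
  · rintro ⟨x', y'⟩ hz'
    rw [Finset.mem_filter, Spl.mem_PB] at hz'
    obtain ⟨⟨⟨h1, h2⟩, h3, h4⟩, ⟨x, hx⟩, h5⟩ := hz'
    simp only at hx h1 h2 h3 h4 h5
    subst hx
    refine ⟨(x, y'), ?_, rfl⟩
    rw [Finset.mem_filter, Spl.mem_PB]
    have h6 : 0 < x := Nat.pos_of_mul_pos_left h1
    refine ⟨⟨⟨h6, ?_⟩, h3, Nat.Coprime.coprime_mul_left h4⟩, ?_⟩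
    · push_cast at h5
      have h7 : (p : ℝ) * x ≤ p * Y := by linarith
      exact le_of_mul_le_mul_left h7 hp0'
    · exact (Nat.Prime.coprime_iff_not_dvd hp).1 (Nat.Coprime.coprime_mul_right h4)
  · intro z hz
    rw [Finset.mem_filter, Spl.mem_PB] at hz
    simp only
    rw [hf.mul p z.1, ch_mul t z.2 hp0 hz.1.1.1]
    ring

/-- Copy of `stage_id` (Lib_MP_f1a94e_ecc/StageId.lean). Expand `UZs = ∑_v ∑_{p ∈ bk v} ∑_{z ∈ PB (C e^(-vρ)) D}
f p p^(-it) f x g y (y/x)^(it)` and split the `z = (x, y)`: `p ∣ y` (`A2S`), else `(p x, y)` is coprime; for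
`p ∈ bk v` the map `(x, y) ↦ (p x, y)` is a bijection from `{z ∈ PB (C e^(-vρ)) D : ¬ p ∣ y}` to
`{z' ∈ PB (C e^ρ) D : p ∣ x', x' ≤ C e^(-vρ) p}` (`p ≤ e^((v+1)ρ)`), `f (p x) = f p f x`, `ch_mul`. Summing over `v`
and `p` gives `∑_{z' ∈ PB (C e^ρ) D} f x' g y' mS x' ch z'`; the terms with `x' > C` are `A3S`, the others have
`mS x' = om1 x'` (`mS_eq`). -/
theorem stage_idS (f g : ℕ → ℂ) (hf : CMN f) (N : ℕ) (P Q ρ C D : ℝ) (k : ℤ) (hP : 1 ≤ P) (hPQ : P ≤ Q)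
    (hρ : 0 < ρ) (hC : 0 ≤ C) :
    UZs f g N P Q ρ C D k = ∑ z ∈ Spl.PB C D, f z.1 * g z.2 * (om1 P Q z.1 : ℂ) * ch ((k : ℝ) / N) z +
      A2S f g N P Q ρ C D k + A3S f g N P Q ρ C D k := by
  classical
  set t : ℝ := (k : ℝ) / N with ht
  -- the double sum without the non primitive terms
  have h1 : UZs f g N P Q ρ C D k = A2S f g N P Q ρ C D k + ∑ v ∈ Finset.range (nv Q ρ), ∑ p ∈ bk P Q ρ v,
      ∑ z ∈ (Spl.PB (C * Real.exp ρ) D).filter (fun z => p ∣ z.1 ∧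
        (z.1 : ℝ) ≤ C * Real.exp (-(v * ρ)) * p), f z.1 * g z.2 * ch t z := by
    unfold UZs A2S
    rw [← Finset.sum_add_distrib]
    refine Finset.sum_congr rfl fun v _ => ?_
    unfold Up
    rw [Finset.sum_mul, ← Finset.sum_add_distrib]
    refine Finset.sum_congr rfl fun p hp => ?_
    have hYY : C * Real.exp (-(v * ρ)) * p ≤ C * Real.exp ρ := by
      have h2 := (mem_bk.mp hp).2.2
      calc C * Real.exp (-(v * ρ)) * p ≤ C * Real.exp (-(v * ρ)) * Real.exp ((v + 1) * ρ) := by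
            gcongr
        _ = C * Real.exp ρ := by
            rw [mul_assoc, ← Real.exp_add]
            congr 2
            ring
    rw [← sub_sumS f g hf (bk_prime hp) _ _ D t hYY, Ps, ← Finset.sum_filter_add_sum_filter_not _
      (fun z => p ∣ z.2), mul_add, ← ht]
    congr 1
    rw [Finset.mul_sum]
  have h2 : ∑ v ∈ Finset.range (nv Q ρ), ∑ p ∈ bk P Q ρ v,
      ∑ z ∈ (Spl.PB (C * Real.exp ρ) D).filter (fun z => p ∣ z.1 ∧
        (z.1 : ℝ) ≤ C * Real.exp (-(v * ρ)) * p), f z.1 * g z.2 * ch t z =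
      ∑ z ∈ Spl.PB (C * Real.exp ρ) D, f z.1 * g z.2 * (mS P Q ρ C z.1 : ℂ) * ch t z := by
    have e1 : ∀ v : ℕ, ∑ p ∈ bk P Q ρ v,
        ∑ z ∈ (Spl.PB (C * Real.exp ρ) D).filter (fun z => p ∣ z.1 ∧
          (z.1 : ℝ) ≤ C * Real.exp (-(v * ρ)) * p), f z.1 * g z.2 * ch t z =
        ∑ z ∈ Spl.PB (C * Real.exp ρ) D, (((bk P Q ρ v).filter (fun p => p ∣ z.1 ∧
          (z.1 : ℝ) ≤ C * Real.exp (-(v * ρ)) * p)).card : ℂ) * (f z.1 * g z.2 * ch t z) := by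
      intro v
      simp only [Finset.sum_filter]
      rw [Finset.sum_comm]
      refine Finset.sum_congr rfl fun z _ => ?_
      rw [← Finset.sum_filter, Finset.sum_const, nsmul_eq_mul]
    simp only [e1]
    rw [Finset.sum_comm]
    refine Finset.sum_congr rfl fun z _ => ?_
    rw [← Finset.sum_mul, mS]
    push_cast
    ring
  have hsub : Spl.PB C D ⊆ Spl.PB (C * Real.exp ρ) D := by
    intro z hz
    rw [Spl.mem_PB] at hz ⊢
    refine ⟨⟨hz.1.1, hz.1.2.trans ?_⟩, hz.2⟩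
    have : 1 ≤ Real.exp ρ := Real.one_le_exp hρ.le
    nlinarith
  have h3 : ∑ z ∈ Spl.PB C D, f z.1 * g z.2 * (om1 P Q z.1 : ℂ) * ch t z =
      ∑ z ∈ Spl.PB C D, f z.1 * g z.2 * (mS P Q ρ C z.1 : ℂ) * ch t z := by
    refine Finset.sum_congr rfl fun z hz => ?_
    have e2 := mS_eq P Q ρ C hP hρ hC z.1 (Spl.mem_PB.mp hz).1.2
    rw [← e2]
    push_cast
    ring
  rw [h1, h2, ← Finset.sum_sdiff hsub, h3, A3S]
  ring

end Pool.Agent.SplM

end

/-! ### from `Lib_MP_92ef0c_spm.StageS` -/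

section

/-!
# one stage
-/

set_option autoImplicit false

namespace Pool.Agent.SplM

open Pool.Agent.GaussMR (fr mem_fr nv Ls)

/-- sums over subsets of a product whose first components lie in `I` -/
theorem stageS_fst (h : ℕ → ℝ) (hh : ∀ x, 0 ≤ h x) (I : Finset ℕ) (s : Finset (ℕ × ℕ)) (D : ℝ) (hD : 0 ≤ D)
    (hs : ∀ z ∈ s, z.1 ∈ I ∧ z.2 ∈ Finset.Icc 1 ⌊D⌋₊) : ∑ z ∈ s, h z.1 ≤ D * ∑ x ∈ I, h x := by
  calc ∑ z ∈ s, h z.1 ≤ ∑ z ∈ I ×ˢ Finset.Icc 1 ⌊D⌋₊, h z.1 :=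
        Finset.sum_le_sum_of_subset_of_nonneg (fun z hz => Finset.mem_product.2 (hs z hz)) (fun _ _ _ => hh _)
    _ = ⌊D⌋₊ * ∑ x ∈ I, h x := by
        rw [Finset.sum_product, Finset.mul_sum]
        refine Finset.sum_congr rfl fun x _ => ?_
        show ∑ _y ∈ Finset.Icc 1 ⌊D⌋₊, h x = _
        rw [Finset.sum_const, Nat.card_Icc, nsmul_eq_mul]
        simp
    _ ≤ D * ∑ x ∈ I, h x :=
        mul_le_mul_of_nonneg_right (Nat.floor_le hD) (Finset.sum_nonneg fun x _ => hh x)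

theorem stageS_third (f g : ℕ → ℂ) (N : ℕ) (P Q ρ C D : ℝ) (k : ℤ) (hρ : 0 < ρ) (hC : 0 ≤ C) :
    A3S f g N P Q ρ C D k = ∑ z ∈ Spl.PB (C * Real.exp ρ) D,
      (if z ∈ Spl.PB C D then 0 else f z.1 * g z.2 * (mS P Q ρ C z.1 : ℂ)) * ch ((k : ℝ) / N) z := by
  classical
  have hexp1 : 1 ≤ Real.exp ρ := Real.one_le_exp hρ.le
  have hsub : Spl.PB C D ⊆ Spl.PB (C * Real.exp ρ) D := by
    intro z hz
    rw [Spl.mem_PB] at hz ⊢
    exact ⟨⟨hz.1.1, hz.1.2.trans (by nlinarith)⟩, hz.2⟩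
  rw [← Finset.sum_sdiff hsub, A3S]
  have e2 : ∑ z ∈ Spl.PB C D,
      (if z ∈ Spl.PB C D then 0 else f z.1 * g z.2 * (mS P Q ρ C z.1 : ℂ)) * ch ((k : ℝ) / N) z = 0 := by
    refine Finset.sum_eq_zero fun z hz => ?_
    rw [if_pos hz, zero_mul]
  rw [e2, add_zero]
  refine Finset.sum_congr rfl fun z hz => ?_
  rw [if_neg (Finset.mem_sdiff.mp hz).2]

/-- Cf. `stageM` (Lib_MP_f1a94e_ecc/Stage.lean): by `stage_idS` the difference is
`∑_{PB C D} f g (L - om1 x) ch - A2S - A3S`. First part: `lsB` with `Y = X`, `∑_z (om1 x - L)² ≤ D ∑_x (om1 x - L)²`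
(the number of `y ≤ D` is at most `D`) and `tk1`. Second part: `A2_smallS`. Third part: `lsB` on
`PB (C e^ρ) D` with `Y = 3 X`, `mS ≤ om1` and `ann1`. -/
theorem stageS : ∃ A : ℝ, 0 < A ∧ ∀ (f g : ℕ → ℂ), CMN f → (∀ n, ‖g n‖ ≤ 1) →
    ∀ (P Q ρ C D X : ℝ) (N T : ℕ), 2 ≤ P → P ≤ Q → 1 ≤ N → 1 ≤ D → C * D ≤ X → Q ^ 2 ≤ ρ * C → 0 < ρ → ρ ≤ 1 →
    Real.log (3 * X) ≤ 3 * N → (T : ℝ) ≤ N * X → 1 ≤ Ls P Q →
    ∑ k ∈ fr T, ‖(Ls P Q : ℂ) * Ps f g C D ((k : ℝ) / N) - UZs f g N P Q ρ C D k‖ ^ 2 ≤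
      A * N * X ^ 2 * Ls P Q ^ 2 * (1 / Ls P Q + ρ) := by
  classical
  obtain ⟨C1, hC1, hls⟩ := lsB
  obtain ⟨C2, hC2, htk⟩ := tk1
  obtain ⟨C3, hC3, hann⟩ := ann1
  obtain ⟨C4, hC4, hA2s⟩ := A2_smallS
  refine ⟨3 * (4 * C1 * C2 + C4 + 16 * C1 * C3), by positivity, ?_⟩
  intro f g hf hgb P Q ρ C D X N T hP hPQ hN hD hCD hQC hρ hρ1 hlog hTX hLs
  have hQ2 : 2 ≤ Q := hP.trans hPQ
  have hD0 : 0 ≤ D := by linarith
  have hρC : 4 ≤ ρ * C := by nlinarith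
  have hC0 : 0 < C := by
    rcases lt_trichotomy C 0 with h | h | h
    · nlinarith
    · rw [h, mul_zero] at hρC
      linarith
    · exact h
  have hC4' : 4 ≤ C := by nlinarith
  have hQC' : Q ^ 2 ≤ C := by nlinarith
  have hX1 : 1 ≤ X := by nlinarith
  have hX0 : 0 < X := by linarith
  have hNr : (1 : ℝ) ≤ N := by exact_mod_cast hN
  have hN0 : (0 : ℝ) < N := by linarith
  have hLs0 : 0 < Ls P Q := by linarith
  have hT0 : (0 : ℝ) ≤ T := Nat.cast_nonneg _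
  set L := Ls P Q with hL
  have hlogX : Real.log X ≤ 3 * N := (Real.log_le_log hX0 (by linarith)).trans hlog
  have hL1 : L + 1 ≤ 2 * L := by linarith
  -- the three parts
  have hdec : ∀ k : ℤ, (L : ℂ) * Ps f g C D ((k : ℝ) / N) - UZs f g N P Q ρ C D k =
      ∑ z ∈ Spl.PB C D, (f z.1 * g z.2 * ((L - om1 P Q z.1 : ℝ) : ℂ)) * ch ((k : ℝ) / N) z -
        A2S f g N P Q ρ C D k - A3S f g N P Q ρ C D k := by
    intro k
    rw [stage_idS f g hf N P Q ρ C D k (by linarith) hPQ hρ hC0.le]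
    have e1 : ∑ z ∈ Spl.PB C D, (f z.1 * g z.2 * ((L - om1 P Q z.1 : ℝ) : ℂ)) * ch ((k : ℝ) / N) z =
        (L : ℂ) * Ps f g C D ((k : ℝ) / N) -
          ∑ z ∈ Spl.PB C D, f z.1 * g z.2 * (om1 P Q z.1 : ℂ) * ch ((k : ℝ) / N) z := by
      rw [Ps, Finset.mul_sum, ← Finset.sum_sub_distrib]
      refine Finset.sum_congr rfl fun z _ => ?_
      push_cast
      ring
    rw [e1]
    ring
  have h3 : ∀ a b c : ℂ, ‖a - b - c‖ ^ 2 ≤ 3 * (‖a‖ ^ 2 + ‖b‖ ^ 2 + ‖c‖ ^ 2) := by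
    intro a b c
    have e1 : ‖a - b - c‖ ≤ ‖a‖ + ‖b‖ + ‖c‖ := by
      have g1 := norm_sub_le (a - b) c
      have g2 := norm_sub_le a b
      linarith
    have e2 := pow_le_pow_left₀ (norm_nonneg _) e1 2
    nlinarith [sq_nonneg (‖a‖ - ‖b‖), sq_nonneg (‖b‖ - ‖c‖), sq_nonneg (‖a‖ - ‖c‖)]
  -- first part
  have hA1 : ∑ k ∈ fr T, ‖∑ z ∈ Spl.PB C D, (f z.1 * g z.2 * ((L - om1 P Q z.1 : ℝ) : ℂ)) *
      ch ((k : ℝ) / N) z‖ ^ 2 ≤ 4 * C1 * C2 * N * X ^ 2 * L := by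
    refine (hls N C D X T (fun z => f z.1 * g z.2 * ((L - om1 P Q z.1 : ℝ) : ℂ)) hN hX1 hCD hlogX).trans ?_
    have e1 : ∑ z ∈ Spl.PB C D, ‖f z.1 * g z.2 * ((L - om1 P Q z.1 : ℝ) : ℂ)‖ ^ 2 ≤
        ∑ z ∈ Spl.PB C D, (om1 P Q z.1 - L) ^ 2 := by
      refine Finset.sum_le_sum fun z _ => ?_
      rw [norm_mul, norm_mul, Complex.norm_real, Real.norm_eq_abs, mul_pow, sq_abs]
      have g1 : (‖f z.1‖ * ‖g z.2‖) ^ 2 ≤ 1 :=
        pow_le_one₀ (by positivity) (mul_le_one₀ (hf.bd _) (norm_nonneg _) (hgb _))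
      calc (‖f z.1‖ * ‖g z.2‖) ^ 2 * (L - om1 P Q z.1) ^ 2 ≤ 1 * (L - om1 P Q z.1) ^ 2 :=
            mul_le_mul_of_nonneg_right g1 (sq_nonneg _)
        _ = (om1 P Q z.1 - L) ^ 2 := by ring
    have e2 : ∑ z ∈ Spl.PB C D, (om1 P Q z.1 - L) ^ 2 ≤ D * (C2 * C * (L + 1)) := by
      refine (stageS_fst (fun x => (om1 P Q x - L) ^ 2) (fun _ => sq_nonneg _) (Finset.Icc 1 ⌊C⌋₊)
        (Spl.PB C D) D hD0 ?_).trans ?_
      · intro z hz
        unfold Spl.PB at hz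
        exact Finset.mem_product.1 (Finset.mem_filter.1 hz).1
      · exact mul_le_mul_of_nonneg_left (htk P Q C hP hPQ hQC') hD0
    have e3 : D * (C2 * C * (L + 1)) ≤ C2 * X * (2 * L) := by
      calc D * (C2 * C * (L + 1)) = C2 * (C * D) * (L + 1) := by ring
        _ ≤ C2 * X * (2 * L) := by
          apply mul_le_mul _ hL1 (by linarith) (by positivity)
          exact mul_le_mul_of_nonneg_left hCD hC2.le
    calc C1 * (T + N * X) * ∑ z ∈ Spl.PB C D, ‖f z.1 * g z.2 * ((L - om1 P Q z.1 : ℝ) : ℂ)‖ ^ 2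
        ≤ C1 * (N * X + N * X) * (C2 * X * (2 * L)) := by
          apply mul_le_mul _ (e1.trans (e2.trans e3)) (Finset.sum_nonneg fun _ _ => by positivity) (by positivity)
          apply mul_le_mul_of_nonneg_left _ hC1.le
          linarith
      _ = 4 * C1 * C2 * N * X ^ 2 * L := by ring
  -- third part
  have hA3 : ∑ k ∈ fr T, ‖A3S f g N P Q ρ C D k‖ ^ 2 ≤ 16 * C1 * C3 * N * X ^ 2 * L ^ 2 * ρ := by
    have hexp : Real.exp ρ ≤ 3 := by
      have := Real.exp_one_lt_d9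
      exact (Real.exp_le_exp.mpr hρ1).trans (by linarith)
    have hexp1 : 1 ≤ Real.exp ρ := Real.one_le_exp hρ.le
    have hCeD : C * Real.exp ρ * D ≤ 3 * X := by
      calc C * Real.exp ρ * D = (C * D) * Real.exp ρ := by ring
        _ ≤ X * 3 := mul_le_mul hCD hexp (Real.exp_pos _).le hX0.le
        _ = 3 * X := by ring
    set a : ℕ × ℕ → ℂ := fun z => if z ∈ Spl.PB C D then 0 else f z.1 * g z.2 * (mS P Q ρ C z.1 : ℂ) with ha
    have e1 : ∀ k : ℤ, A3S f g N P Q ρ C D k =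
        ∑ z ∈ Spl.PB (C * Real.exp ρ) D, a z * ch ((k : ℝ) / N) z := fun k =>
      stageS_third f g N P Q ρ C D k hρ hC0.le
    have hsub : Spl.PB C D ⊆ Spl.PB (C * Real.exp ρ) D := by
      intro z hz
      rw [Spl.mem_PB] at hz ⊢
      exact ⟨⟨hz.1.1, hz.1.2.trans (by nlinarith)⟩, hz.2⟩
    have e2 : ∑ z ∈ Spl.PB (C * Real.exp ρ) D, ‖a z‖ ^ 2 ≤ C3 * ρ * X * (2 * L) ^ 2 := by
      rw [← Finset.sum_sdiff hsub]
      have e3 : ∑ z ∈ Spl.PB C D, ‖a z‖ ^ 2 = 0 := by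
        refine Finset.sum_eq_zero fun z hz => ?_
        rw [ha]
        simp [hz]
      rw [e3, add_zero]
      calc ∑ z ∈ Spl.PB (C * Real.exp ρ) D \ Spl.PB C D, ‖a z‖ ^ 2
          ≤ ∑ z ∈ Spl.PB (C * Real.exp ρ) D \ Spl.PB C D, (om1 P Q z.1) ^ 2 := by
            refine Finset.sum_le_sum fun z hz => ?_
            have e4 : z ∉ Spl.PB C D := (Finset.mem_sdiff.mp hz).2
            have e6 : ‖a z‖ ≤ mS P Q ρ C z.1 := by
              rw [ha]
              simp only [e4, if_false]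
              rw [norm_mul, Complex.norm_natCast, norm_mul]
              exact mul_le_of_le_one_left (Nat.cast_nonneg _) (mul_le_one₀ (hf.bd _) (norm_nonneg _) (hgb _))
            exact pow_le_pow_left₀ (norm_nonneg _) (e6.trans (mS_le P Q ρ C hρ z.1)) 2
        _ ≤ D * ∑ x ∈ Finset.Ioc ⌊C⌋₊ ⌊C * Real.exp ρ⌋₊, (om1 P Q x) ^ 2 := by
            refine stageS_fst (fun x => (om1 P Q x) ^ 2) (fun _ => sq_nonneg _)
              (Finset.Ioc ⌊C⌋₊ ⌊C * Real.exp ρ⌋₊) (Spl.PB (C * Real.exp ρ) D \ Spl.PB C D) D hD0 ?_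
            intro z hz
            obtain ⟨hz1, hz2⟩ := Finset.mem_sdiff.1 hz
            have hz3 := Spl.mem_PB.1 hz1
            have hz4 : ¬ ((z.1 : ℝ) ≤ C) := fun h => hz2 (Spl.mem_PB.2 ⟨⟨hz3.1.1, h⟩, hz3.2⟩)
            refine ⟨Finset.mem_Ioc.2 ⟨?_, Nat.le_floor hz3.1.2⟩,
              Finset.mem_Icc.2 ⟨hz3.2.1.1, Nat.le_floor hz3.2.1.2⟩⟩
            rw [Nat.floor_lt hC0.le]
            exact not_le.1 hz4
        _ ≤ D * (C3 * ρ * C * (L + 1) ^ 2) :=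
            mul_le_mul_of_nonneg_left (hann P Q C ρ hP hPQ hρ hρ1 hQC) hD0
        _ = C3 * ρ * (C * D) * (L + 1) ^ 2 := by ring
        _ ≤ C3 * ρ * X * (2 * L) ^ 2 := by
            apply mul_le_mul _ _ (by positivity) (by positivity)
            · exact mul_le_mul_of_nonneg_left hCD (by positivity)
            · exact pow_le_pow_left₀ (by linarith) hL1 2
    simp only [e1]
    refine (hls N (C * Real.exp ρ) D (3 * X) T a hN (by linarith) hCeD hlog).trans ?_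
    calc C1 * (T + N * (3 * X)) * ∑ z ∈ Spl.PB (C * Real.exp ρ) D, ‖a z‖ ^ 2
        ≤ C1 * (N * X + N * (3 * X)) * (C3 * ρ * X * (2 * L) ^ 2) := by
          apply mul_le_mul _ e2 (Finset.sum_nonneg fun _ _ => by positivity) (by positivity)
          apply mul_le_mul_of_nonneg_left _ hC1.le
          linarith
      _ = 16 * C1 * C3 * N * X ^ 2 * L ^ 2 * ρ := by ring
  -- second part
  have hA2 : ∑ k ∈ fr T, ‖A2S f g N P Q ρ C D k‖ ^ 2 ≤ C4 * N * X ^ 2 * L :=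
    hA2s f g hf hgb P Q ρ C D X N T (by linarith) hρ hρ1 hN hX1 hC0.le hD0 hCD hlogX hTX
  calc ∑ k ∈ fr T, ‖(L : ℂ) * Ps f g C D ((k : ℝ) / N) - UZs f g N P Q ρ C D k‖ ^ 2
      ≤ ∑ k ∈ fr T, 3 * (‖∑ z ∈ Spl.PB C D, (f z.1 * g z.2 * ((L - om1 P Q z.1 : ℝ) : ℂ)) *
          ch ((k : ℝ) / N) z‖ ^ 2 + ‖A2S f g N P Q ρ C D k‖ ^ 2 + ‖A3S f g N P Q ρ C D k‖ ^ 2) := by
        refine Finset.sum_le_sum fun k _ => ?_
        rw [hdec]
        exact h3 _ _ _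
    _ = 3 * (∑ k ∈ fr T, ‖∑ z ∈ Spl.PB C D, (f z.1 * g z.2 * ((L - om1 P Q z.1 : ℝ) : ℂ)) *
          ch ((k : ℝ) / N) z‖ ^ 2 + ∑ k ∈ fr T, ‖A2S f g N P Q ρ C D k‖ ^ 2 +
          ∑ k ∈ fr T, ‖A3S f g N P Q ρ C D k‖ ^ 2) := by
        rw [← Finset.mul_sum, Finset.sum_add_distrib, Finset.sum_add_distrib]
    _ ≤ 3 * (4 * C1 * C2 * N * X ^ 2 * L + C4 * N * X ^ 2 * L +
          16 * C1 * C3 * N * X ^ 2 * L ^ 2 * ρ) := by linarith
    _ ≤ 3 * (4 * C1 * C2 + C4 + 16 * C1 * C3) * N * X ^ 2 * L ^ 2 * (1 / L + ρ) := by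
        have e1 : X ^ 2 * L ^ 2 * (1 / L) = X ^ 2 * L := by field_simp
        have e4 : 3 * (4 * C1 * C2 + C4 + 16 * C1 * C3) * N * X ^ 2 * L ^ 2 *
            (1 / L + ρ) = 3 * (4 * C1 * C2 + C4 + 16 * C1 * C3) * N *
              (X ^ 2 * L + X ^ 2 * L ^ 2 * ρ) := by
          rw [← e1]
          ring
        rw [e4]
        have p2 : 0 ≤ C1 * C2 * N * (X ^ 2 * L ^ 2 * ρ) := by positivity
        have p4 : 0 ≤ C4 * N * (X ^ 2 * L ^ 2 * ρ) := by positivity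
        have p6 : 0 ≤ C1 * C3 * N * (X ^ 2 * L) := by positivity
        nlinarith

end Pool.Agent.SplM

end
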