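import Pool.Agent.Lib_MP_92ef0c_m.M07
import Pool.Agent.Lib_MP_92ef0c_m.M08
import Pool.Agent.Lib_MP_92ef0c_m.M09
import Pool.Agent.Lib_MP_92ef0c_m.M16

/-!
# MP_92ef0c_nt, split pairs: merged library part M18

Concatenation of smaller files (each in its own section), only to save build time.
-/

/-! ### from `Lib_MP_f1a94e_mr.LS` -/

section

/-!
# Piece LS: the large sieve on the circle
-/

set_option autoImplicit false

namespace Pool.Agent.GaussMR

/-- the smoothed sum in terms of the Fejer kernel -/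
theorem ls_expand (X : ℝ) (M : ℕ) (hM : 1 ≤ M) (a : G → ℂ) :
    ((∑ k ∈ fr M, (1 - |(k : ℝ)| / M) * ‖∑ z ∈ V X, a z * xi (-k) z‖ ^ 2 : ℝ) : ℂ) =
      ∑ z ∈ V X, ∑ w ∈ V X, a z * (starRingEnd ℂ) (a w) * ((fej M (dir w / dir z) : ℝ) : ℂ) := by
  have h1 : ∀ k : ℤ, ((‖∑ z ∈ V X, a z * xi (-k) z‖ ^ 2 : ℝ) : ℂ) =
      ∑ z ∈ V X, ∑ w ∈ V X, a z * (starRingEnd ℂ) (a w) * (dir w / dir z) ^ k := by
    intro k
    rw [← Complex.normSq_eq_norm_sq, ← Complex.mul_conj, map_sum, Finset.sum_mul_sum]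
    refine Finset.sum_congr rfl fun z hz => Finset.sum_congr rfl fun w hw => ?_
    rw [map_mul, conj_xi _ (V_ne_zero hw), neg_neg, div_zpow]
    unfold xi
    rw [zpow_neg, div_eq_mul_inv]
    ring
  have h2 : ((∑ k ∈ fr M, (1 - |(k : ℝ)| / M) * ‖∑ z ∈ V X, a z * xi (-k) z‖ ^ 2 : ℝ) : ℂ) =
      ∑ k ∈ fr M, ((1 - |(k : ℝ)| / M : ℝ) : ℂ) *
        ∑ z ∈ V X, ∑ w ∈ V X, a z * (starRingEnd ℂ) (a w) * (dir w / dir z) ^ k := by
    rw [Complex.ofReal_sum]
    refine Finset.sum_congr rfl fun k _ => ?_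
    rw [Complex.ofReal_mul, h1 k]
  rw [h2]
  simp_rw [Finset.mul_sum]
  rw [Finset.sum_comm]
  refine Finset.sum_congr rfl fun z hz => ?_
  rw [Finset.sum_comm]
  refine Finset.sum_congr rfl fun w hw => ?_
  have hu : ‖dir w / dir z‖ = 1 := by
    rw [norm_div, norm_dir (V_ne_zero hw), norm_dir (V_ne_zero hz), div_one]
  rw [fej_eq M hM _ hu, Finset.mul_sum]
  refine Finset.sum_congr rfl fun k _ => ?_
  ring

theorem fej_dir_le (M : ℕ) (hM : 1 ≤ M) (z w : G) (hz : z ≠ 0) (hw : w ≠ 0) :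
    fej M (dir w / dir z) ≤ M ∧ fej M (dir w / dir z) * (M * ‖dir w - dir z‖ ^ 2) ≤ 4 := by
  have hu : ‖dir w / dir z‖ = 1 := by
    rw [norm_div, norm_dir hw, norm_dir hz, div_one]
  refine ⟨fej_le M hM _ hu, ?_⟩
  have h1 := fej_mul_le M hM _ hu
  have h2 : dir w / dir z - 1 = (dir w - dir z) / dir z := by
    have := dir_ne_zero hz
    field_simp
  rw [h2, norm_div, norm_dir hz, div_one] at h1
  exact h1

/-- Large sieve. Proof: `M = 2 T + 2`; for `|k| ≤ T` the Fejer weight `1 - |k| / M` is at least `1/2`, so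
the left side is at most `2 ∑_{|k| ≤ M} (1 - |k|/M) |∑ a_z xi_{-k}(z)|^2
= 2 ∑_{z,w} a_z conj(a_w) fej M (dir w / dir z) ≤ 2 ∑_z |a_z|^2 max_z ∑_w fej M (dir w / dir z)`, and
`sum_kernel` with `δ = 1 / X` (from `spaced`). -/
theorem large_sieve : ∃ C : ℝ, 0 < C ∧ ∀ (X : ℝ) (T : ℕ) (a : G → ℂ), 1 ≤ X →
    ∑ k ∈ fr T, ‖∑ z ∈ V X, a z * xi (-k) z‖ ^ 2 ≤ C * (T + X) * ∑ z ∈ V X, ‖a z‖ ^ 2 := by
  refine ⟨2400, by norm_num, ?_⟩
  intro X T a hX
  set M : ℕ := 2 * T + 2 with hM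
  have hM1 : 1 ≤ M := by omega
  have hMr : (M : ℝ) = 2 * T + 2 := by rw [hM]; push_cast; ring
  have hM0 : (0 : ℝ) < M := by rw [hMr]; positivity
  have hM1r : (1 : ℝ) ≤ M := by exact_mod_cast hM1
  set B : ℝ := 400 * (M + X) with hB
  have hX0 : 0 < X := by linarith
  -- bound for the sums of the kernel
  have hker : ∀ z ∈ V X, ∑ w ∈ V X, fej M (dir w / dir z) ≤ B := by
    intro z hz
    have h1 := sum_kernel (V X) dir (1 / X) (by positivity) (fun w hw => norm_dir (V_ne_zero hw))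
      (fun z' hz' w hw hne => spaced X z' w hz' hw hne) (dir z) (norm_dir (V_ne_zero hz)) M hM1r
      (fun w => fej M (dir w / dir z))
      (fun w hw => (fej_dir_le M hM1 z w (V_ne_zero hz) (V_ne_zero hw)).1)
      (fun w hw => (fej_dir_le M hM1 z w (V_ne_zero hz) (V_ne_zero hw)).2)
    rw [one_div_one_div] at h1
    exact h1
  have hker' : ∀ w ∈ V X, ∑ z ∈ V X, fej M (dir w / dir z) ≤ B := by
    intro w hw
    have h1 := sum_kernel (V X) dir (1 / X) (by positivity) (fun z hz => norm_dir (V_ne_zero hz))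
      (fun z' hz' w hw hne => spaced X z' w hz' hw hne) (dir w) (norm_dir (V_ne_zero hw)) M hM1r
      (fun z => fej M (dir w / dir z))
      (fun z hz => (fej_dir_le M hM1 z w (V_ne_zero hz) (V_ne_zero hw)).1)
      (fun z hz => by
        rw [norm_sub_rev]
        exact (fej_dir_le M hM1 z w (V_ne_zero hz) (V_ne_zero hw)).2)
    rw [one_div_one_div] at h1
    exact h1
  -- smoothing
  have hsm : ∑ k ∈ fr T, ‖∑ z ∈ V X, a z * xi (-k) z‖ ^ 2 ≤
      2 * ∑ k ∈ fr M, (1 - |(k : ℝ)| / M) * ‖∑ z ∈ V X, a z * xi (-k) z‖ ^ 2 := by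
    rw [Finset.mul_sum]
    have hsub : fr T ⊆ fr M := by
      intro k hk
      rw [mem_fr] at hk ⊢
      omega
    calc ∑ k ∈ fr T, ‖∑ z ∈ V X, a z * xi (-k) z‖ ^ 2 ≤
          ∑ k ∈ fr T, 2 * ((1 - |(k : ℝ)| / M) * ‖∑ z ∈ V X, a z * xi (-k) z‖ ^ 2) := by
          refine Finset.sum_le_sum fun k hk => ?_
          rw [mem_fr] at hk
          have h1 : |(k : ℝ)| ≤ T := by
            rw [abs_le]
            constructor
            · exact_mod_cast hk.1
            · exact_mod_cast hk.2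
          have h2 : |(k : ℝ)| / M ≤ 1 / 2 := by
            rw [div_le_iff₀ hM0, hMr]
            linarith
          have h3 : 0 ≤ ‖∑ z ∈ V X, a z * xi (-k) z‖ ^ 2 := by positivity
          nlinarith
      _ ≤ ∑ k ∈ fr M, 2 * ((1 - |(k : ℝ)| / M) * ‖∑ z ∈ V X, a z * xi (-k) z‖ ^ 2) := by
          refine Finset.sum_le_sum_of_subset_of_nonneg hsub fun k hk _ => ?_
          rw [mem_fr] at hk
          have h1 : |(k : ℝ)| ≤ M := by
            rw [abs_le]
            constructor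
            · exact_mod_cast hk.1
            · exact_mod_cast hk.2
          have h2 : |(k : ℝ)| / M ≤ 1 := by
            rw [div_le_one hM0]
            exact h1
          have h3 : 0 ≤ 1 - |(k : ℝ)| / M := by linarith
          positivity
  -- the quadratic form
  have hq : ∑ k ∈ fr M, (1 - |(k : ℝ)| / M) * ‖∑ z ∈ V X, a z * xi (-k) z‖ ^ 2 ≤
      B * ∑ z ∈ V X, ‖a z‖ ^ 2 := by
    have h1 := congrArg Complex.re (ls_expand X M hM1 a)
    rw [Complex.ofReal_re] at h1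
    rw [h1, Complex.re_sum]
    have h2 : ∀ z ∈ V X, (∑ w ∈ V X, a z * (starRingEnd ℂ) (a w) *
        ((fej M (dir w / dir z) : ℝ) : ℂ)).re ≤
        ∑ w ∈ V X, (‖a z‖ ^ 2 * fej M (dir w / dir z) / 2 +
          ‖a w‖ ^ 2 * fej M (dir w / dir z) / 2) := by
      intro z _
      rw [Complex.re_sum]
      refine Finset.sum_le_sum fun w _ => ?_
      rw [mul_comm, Complex.re_ofReal_mul]
      have h3 : (a z * (starRingEnd ℂ) (a w)).re ≤ ‖a z‖ ^ 2 / 2 + ‖a w‖ ^ 2 / 2 := by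
        refine (Complex.re_le_norm _).trans ?_
        rw [norm_mul, Complex.norm_conj]
        nlinarith [sq_nonneg (‖a z‖ - ‖a w‖)]
      have h4 := fej_nonneg M (dir w / dir z)
      nlinarith
    refine (Finset.sum_le_sum h2).trans ?_
    simp_rw [Finset.sum_add_distrib]
    have h5 : ∑ z ∈ V X, ∑ w ∈ V X, ‖a z‖ ^ 2 * fej M (dir w / dir z) / 2 ≤
        B / 2 * ∑ z ∈ V X, ‖a z‖ ^ 2 := by
      rw [Finset.mul_sum]
      refine Finset.sum_le_sum fun z hz => ?_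
      rw [← Finset.sum_div, ← Finset.mul_sum]
      have h6 := hker z hz
      have h7 : 0 ≤ ‖a z‖ ^ 2 := by positivity
      nlinarith
    have h6 : ∑ z ∈ V X, ∑ w ∈ V X, ‖a w‖ ^ 2 * fej M (dir w / dir z) / 2 ≤
        B / 2 * ∑ z ∈ V X, ‖a z‖ ^ 2 := by
      rw [Finset.sum_comm, Finset.mul_sum]
      refine Finset.sum_le_sum fun w hw => ?_
      rw [← Finset.sum_div, ← Finset.mul_sum]
      have h6 := hker' w hw
      have h7 : 0 ≤ ‖a w‖ ^ 2 := by positivity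
      nlinarith
    linarith
  have hS : 0 ≤ ∑ z ∈ V X, ‖a z‖ ^ 2 := Finset.sum_nonneg fun z _ => by positivity
  have hfin : 2 * B ≤ 2400 * (T + X) := by
    rw [hB, hMr]
    have : (0 : ℝ) ≤ T := Nat.cast_nonneg T
    linarith
  calc ∑ k ∈ fr T, ‖∑ z ∈ V X, a z * xi (-k) z‖ ^ 2 ≤
        2 * ∑ k ∈ fr M, (1 - |(k : ℝ)| / M) * ‖∑ z ∈ V X, a z * xi (-k) z‖ ^ 2 := hsm
    _ ≤ 2 * (B * ∑ z ∈ V X, ‖a z‖ ^ 2) := by linarith
    _ = 2 * B * ∑ z ∈ V X, ‖a z‖ ^ 2 := by ring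
    _ ≤ 2400 * (T + X) * ∑ z ∈ V X, ‖a z‖ ^ 2 := by gcongr

/-- Large sieve for a finite family: group the indices `i` by the primitive part of `g i`. -/
theorem large_sieve_fam : ∃ C : ℝ, 0 < C ∧ ∀ (ι : Type) (s : Finset ι) (g : ι → G) (c : ι → ℂ)
    (Y : ℝ) (T : ℕ), 1 ≤ Y → (∀ i ∈ s, ‖c i‖ ≤ 1) →
    (∀ i ∈ s, Odd (nm (g i)) ∧ (nm (g i) : ℝ) ≤ Y) →
    ∑ k ∈ fr T, ‖∑ i ∈ s, c i * xi (-k) (g i)‖ ^ 2 ≤
      C * (T + Y) * (Set.ncard {p : ι × ι | p.1 ∈ s ∧ p.2 ∈ s ∧ pr (g p.1) = pr (g p.2)} : ℝ) := by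
  classical
  obtain ⟨C, hC, hls⟩ := large_sieve
  refine ⟨C, hC, ?_⟩
  intro ι s g c Y T hY hc hg
  set a : G → ℂ := fun z => ∑ i ∈ s.filter (fun i => pr (g i) = z), c i with ha
  have hmaps : ∀ i ∈ s, pr (g i) ∈ V Y := fun i hi => pr_mem_V Y (g i) (hg i hi).1 (hg i hi).2
  have h1 : ∀ k : ℤ, ∑ i ∈ s, c i * xi (-k) (g i) = ∑ z ∈ V Y, a z * xi (-k) z := by
    intro k
    rw [← Finset.sum_fiberwise_of_maps_to hmaps]
    refine Finset.sum_congr rfl fun z hz => ?_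
    rw [ha, Finset.sum_mul]
    refine Finset.sum_congr rfl fun i hi => ?_
    obtain ⟨hi1, hi2⟩ := Finset.mem_filter.1 hi
    rw [← hi2, xi_pr _ _ (ne_zero_of_odd (hg i hi1).1)]
  have h2 := hls Y T a hY
  simp_rw [h1]
  refine h2.trans ?_
  have hT : (0 : ℝ) ≤ T := Nat.cast_nonneg T
  refine mul_le_mul_of_nonneg_left ?_ (by positivity)
  -- count the pairs
  have h3 : {p : ι × ι | p.1 ∈ s ∧ p.2 ∈ s ∧ pr (g p.1) = pr (g p.2)} =
      (((s ×ˢ s).filter (fun p : ι × ι => pr (g p.1) = pr (g p.2)) : Finset (ι × ι)) :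
        Set (ι × ι)) := by
    ext p
    simp [and_assoc]
  rw [h3, Set.ncard_coe_finset]
  have h4 : ((s ×ˢ s).filter (fun p : ι × ι => pr (g p.1) = pr (g p.2))).card =
      ∑ z ∈ V Y, (s.filter (fun i => pr (g i) = z)).card ^ 2 := by
    rw [Finset.card_eq_sum_card_fiberwise (f := fun p : ι × ι => pr (g p.1)) (t := V Y)]
    · refine Finset.sum_congr rfl fun z hz => ?_
      rw [sq, ← Finset.card_product]
      congr 1
      ext p
      simp only [Finset.mem_filter, Finset.mem_product]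
      constructor
      · rintro ⟨⟨⟨h1, h2⟩, h3⟩, h4⟩
        exact ⟨⟨h1, h4⟩, h2, h3 ▸ h4⟩
      · rintro ⟨⟨h1, h2⟩, h3, h4⟩
        exact ⟨⟨⟨h1, h3⟩, h2.trans h4.symm⟩, h2⟩
    · intro p hp
      have hp' := Finset.mem_coe.1 hp
      simp only [Finset.mem_filter, Finset.mem_product] at hp'
      exact hmaps p.1 hp'.1.1
  rw [h4]
  push_cast
  refine Finset.sum_le_sum fun z hz => ?_
  have h5 : ‖a z‖ ≤ ((s.filter (fun i => pr (g i) = z)).card : ℝ) := by
    rw [ha]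
    refine (norm_sum_le _ _).trans ?_
    calc ∑ i ∈ s.filter (fun i => pr (g i) = z), ‖c i‖ ≤
          ∑ i ∈ s.filter (fun i => pr (g i) = z), (1 : ℝ) :=
          Finset.sum_le_sum fun i hi => hc i (Finset.mem_filter.1 hi).1
      _ = _ := by simp
  gcongr

end Pool.Agent.GaussMR

end

/-! ### from `Lib_MP_f1a94e_mr.DivLS` -/

section

/-!
# Piece DIVLS: large sieve for multiples of a split prime
-/

set_option autoImplicit false

namespace Pool.Agent.GaussMR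

open Classical in
/-- substitution `z = star w * z''` -/
theorem div_sub (F : G → ℝ) (hF : PM F) (w : G) (hw : Spl w) (Y : ℝ) (k : ℤ) :
    ∑ z ∈ (V Y).filter (fun z => star w ∣ z), (F z : ℂ) * xi (-k) z =
      ((F (star w) : ℂ) * xi (-k) (star w)) *
        ∑ z ∈ V (Y / nm w), (if Prim (star w * z) then (F z : ℂ) else 0) * xi (-k) z := by
  have hw0 : (0 : ℝ) < nm w := by
    exact_mod_cast nm_pos_of_odd hw.odd
  have hso : Odd (nm (star w)) := hw.conj.odd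
  have hs0 : star w ≠ 0 := ne_zero_of_odd hso
  rw [Finset.mul_sum]
  have hfil : ∑ z ∈ V (Y / nm w), (F (star w) : ℂ) * xi (-k) (star w) *
        ((if Prim (star w * z) then (F z : ℂ) else 0) * xi (-k) z) =
      ∑ z ∈ (V (Y / nm w)).filter (fun z => Prim (star w * z)),
        (F (star w * z) : ℂ) * xi (-k) (star w * z) := by
    rw [Finset.sum_filter]
    apply Finset.sum_congr rfl
    intro z hz
    split_ifs with h
    · rw [hF.mul _ _ hso (mem_V.1 hz).2.1, xi_mul]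
      push_cast
      ring
    · simp
  rw [hfil]
  symm
  apply Finset.sum_bij (fun z _ => star w * z)
  · intro z hz
    rw [Finset.mem_filter] at hz ⊢
    obtain ⟨hz1, hz2⟩ := hz
    rw [mem_V] at hz1 ⊢
    refine ⟨⟨?_, odd_nm_mul.2 ⟨hso, hz1.2.1⟩, hz2⟩, dvd_mul_right _ _⟩
    rw [nm_mul, nm_star]
    push_cast
    have := (le_div_iff₀ hw0).1 hz1.1
    linarith
  · intro a _ b _ hab
    exact mul_left_cancel₀ hs0 hab
  · intro z hz
    rw [Finset.mem_filter] at hz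
    obtain ⟨hz1, c, hc⟩ := hz
    subst hc
    rw [mem_V] at hz1
    refine ⟨c, ?_, rfl⟩
    rw [Finset.mem_filter, mem_V]
    refine ⟨⟨?_, (odd_nm_mul.1 hz1.2.1).2, (prim_of_mul hz1.2.2).2⟩, hz1.2.2⟩
    rw [le_div_iff₀ hw0]
    have := hz1.1
    rw [nm_mul, nm_star] at this
    push_cast at this
    linarith
  · intro z _
    rfl

open Classical in
/-- substitute `z = star w * z''` with `z'' ∈ V (Y / nm w)`; apply `large_sieve` with coefficients of
absolute value at most one supported on `V (Y / nm w)`. If `Y < nm w` the sum is empty. -/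
theorem div_large_sieve : ∃ C : ℝ, 0 < C ∧ ∀ (F : G → ℝ), PM F → ∀ (w : G), Spl w →
    ∀ (Y : ℝ) (T : ℕ), 0 ≤ Y →
    ∑ k ∈ fr T, ‖∑ z ∈ (V Y).filter (fun z => star w ∣ z), (F z : ℂ) * xi (-k) z‖ ^ 2 ≤
      C * (T + Y / nm w) * (Y / nm w) := by
  obtain ⟨C, hC, hls⟩ := large_sieve
  refine ⟨C * 9, by positivity, ?_⟩
  intro F hF w hw Y T hY
  have hw0 : (0 : ℝ) < nm w := by
    exact_mod_cast nm_pos_of_odd hw.odd
  have hso : Odd (nm (star w)) := hw.conj.odd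
  have hs0 : star w ≠ 0 := ne_zero_of_odd hso
  have hX0 : 0 ≤ Y / nm w := by positivity
  have key : ∀ k : ℤ,
      ‖∑ z ∈ (V Y).filter (fun z => star w ∣ z), (F z : ℂ) * xi (-k) z‖ =
      ‖∑ z ∈ V (Y / nm w), (if Prim (star w * z) then (F z : ℂ) else 0) * xi (-k) z‖ := by
    intro k
    rw [div_sub F hF w hw Y k, norm_mul, norm_mul, hF.norm hso, norm_xi _ hs0, one_mul, one_mul]
  simp only [key]
  rcases lt_or_ge (Y / nm w) 1 with h1 | h1
  · have hemp : V (Y / nm w) = ∅ := by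
      rw [Finset.eq_empty_iff_forall_notMem]
      intro z hz
      have h2 := (mem_V.1 hz).1
      have h3 : (1 : ℝ) ≤ nm z := by exact_mod_cast nm_pos_of_odd (mem_V.1 hz).2.1
      linarith
    rw [hemp]
    simp only [Finset.sum_empty, norm_zero]
    rw [zero_pow two_ne_zero, Finset.sum_const_zero]
    positivity
  · refine (hls (Y / nm w) T _ h1).trans ?_
    have hcard := card_V_le (Y / nm w) hX0
    have hsum : ∑ z ∈ V (Y / nm w), ‖(if Prim (star w * z) then (F z : ℂ) else 0)‖ ^ 2 ≤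
        9 * (Y / nm w) := by
      refine le_trans ?_ hcard
      rw [Finset.card_eq_sum_ones]
      push_cast
      apply Finset.sum_le_sum
      intro z hz
      split_ifs
      · rw [hF.norm (mem_V.1 hz).2.1]
        norm_num
      · rw [norm_zero]
        norm_num
    calc C * (T + Y / nm w) *
          ∑ z ∈ V (Y / nm w), ‖(if Prim (star w * z) then (F z : ℂ) else 0)‖ ^ 2
        ≤ C * (T + Y / nm w) * (9 * (Y / nm w)) := by
          apply mul_le_mul_of_nonneg_left hsum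
          positivity
      _ = C * 9 * (T + Y / nm w) * (Y / nm w) := by ring

end Pool.Agent.GaussMR

end

/-! ### from `Lib_MP_f1a94e_mr.Small1` -/

section

/-!
# Piece SMALL1: frequencies at which all prime polynomials are small, first stage
-/

set_option autoImplicit false

namespace Pool.Agent.GaussMR

/-- Cauchy-Schwarz over the blocks: `‖UZ k‖² ≤ nv ∑_v ‖U_v‖² ‖fc (X e^(-vρ)) k‖²`. Blocks with
`(v+1) ρ ≤ log P` are empty (`U_v = 0`). Large sieve: `∑_{k ∈ fr T} ‖fc F (X e^(-vρ)) k‖² ≤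
C (T + X e^(-vρ)) 9 X e^(-vρ) ≤ 18 C X² e^(-2vρ)` as `T ≤ X / Q ≤ X e^(-vρ)`. -/
theorem small1 : ∃ C : ℝ, 0 < C ∧ ∀ (F : G → ℝ), PM F → ∀ (P Q ρ X α : ℝ) (T : ℕ) (S : Finset ℤ),
    2 ≤ P → P ≤ Q → Q ≤ X → 0 < ρ → ρ ≤ 1 → 0 ≤ α → α ≤ 1 → (T : ℝ) ≤ X / Q → S ⊆ fr T →
    (∀ k ∈ S, ∀ v : ℕ, ‖U F P Q ρ v k‖ ≤ Real.exp ((1 - α) * (v * ρ))) →
    ∑ k ∈ S, ‖UZ F P Q ρ X k‖ ^ 2 ≤
      C * X ^ 2 * (Real.log Q / ρ + 1) ^ 2 * P ^ (-(2 * α)) := by
  classical
  obtain ⟨C0, hC0, hLS⟩ := large_sieve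
  refine ⟨18 * Real.exp 2 * C0, by positivity, ?_⟩
  intro F hF P Q ρ X α T S hP hPQ hQX hρ hρ1 hα hα1 hT hS hU
  have hP0 : 0 < P := by linarith
  have hQ0 : 0 < Q := by linarith
  have hX0 : 0 < X := by linarith
  set n : ℕ := nv Q ρ with hn
  have hlogQ : 0 ≤ Real.log Q := Real.log_nonneg (by linarith)
  have hnle : (n : ℝ) ≤ Real.log Q / ρ + 1 := by
    rw [hn, nv]
    push_cast
    have := Nat.floor_le (show 0 ≤ Real.log Q / ρ by positivity)
    linarith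
  have hn0 : (0 : ℝ) ≤ n := Nat.cast_nonneg n
  -- Cauchy-Schwarz
  have hCS : ∀ k : ℤ, ‖UZ F P Q ρ X k‖ ^ 2 ≤
      n * ∑ v ∈ Finset.range n, (‖U F P Q ρ v k‖ ^ 2 * ‖fc F (X * Real.exp (-(v * ρ))) k‖ ^ 2) := by
    intro k
    have h1 : ‖UZ F P Q ρ X k‖ ≤
        ∑ v ∈ Finset.range n, (‖U F P Q ρ v k‖ * ‖fc F (X * Real.exp (-(v * ρ))) k‖) := by
      unfold UZ
      refine (norm_sum_le _ _).trans (le_of_eq ?_)
      refine Finset.sum_congr rfl fun v _ => ?_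
      rw [norm_mul]
    have h2 : (∑ v ∈ Finset.range n, (‖U F P Q ρ v k‖ * ‖fc F (X * Real.exp (-(v * ρ))) k‖)) ^ 2 ≤
        n * ∑ v ∈ Finset.range n, (‖U F P Q ρ v k‖ * ‖fc F (X * Real.exp (-(v * ρ))) k‖) ^ 2 := by
      have := sq_sum_le_card_mul_sum_sq (s := Finset.range n)
        (f := fun v : ℕ => ‖U F P Q ρ v k‖ * ‖fc F (X * Real.exp (-(v * ρ))) k‖)
      rwa [Finset.card_range] at this
    calc ‖UZ F P Q ρ X k‖ ^ 2 ≤
        (∑ v ∈ Finset.range n, (‖U F P Q ρ v k‖ * ‖fc F (X * Real.exp (-(v * ρ))) k‖)) ^ 2 := by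
          gcongr
      _ ≤ n * ∑ v ∈ Finset.range n, (‖U F P Q ρ v k‖ * ‖fc F (X * Real.exp (-(v * ρ))) k‖) ^ 2 := h2
      _ = _ := by
          congr 1
          refine Finset.sum_congr rfl fun v _ => ?_
          rw [mul_pow]
  -- bound for one block
  have hblk : ∀ v : ℕ, ∑ k ∈ S, (‖U F P Q ρ v k‖ ^ 2 * ‖fc F (X * Real.exp (-(v * ρ))) k‖ ^ 2) ≤
      18 * Real.exp 2 * C0 * X ^ 2 * P ^ (-(2 * α)) := by
    intro v
    by_cases hb : blk P Q ρ v = ∅
    · have h0 : ∀ k : ℤ, U F P Q ρ v k = 0 := by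
        intro k
        unfold U
        rw [hb, Finset.sum_empty]
      have : ∑ k ∈ S, (‖U F P Q ρ v k‖ ^ 2 * ‖fc F (X * Real.exp (-(v * ρ))) k‖ ^ 2) = 0 := by
        refine Finset.sum_eq_zero fun k _ => ?_
        rw [h0 k]
        simp
      rw [this]
      have := Real.rpow_pos_of_pos hP0 (-(2 * α))
      positivity
    · obtain ⟨w, hw⟩ := Finset.nonempty_iff_ne_empty.2 hb
      unfold blk at hw
      rw [Finset.mem_filter, mem_PP] at hw
      obtain ⟨⟨hw1, hw2, -⟩, hw3, hw4⟩ := hw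
      have hvQ : Real.exp (v * ρ) ≤ Q := (hw3.trans_le hw2).le
      have hPv : P ≤ Real.exp ((v + 1) * ρ) := (hw1.trans_le hw4).le
      set Y : ℝ := X * Real.exp (-(v * ρ)) with hY
      have hexp : Real.exp (v * ρ) * Real.exp (-(v * ρ)) = 1 := by
        rw [← Real.exp_add]; simp
      have hYpos : 0 < Y := by positivity
      have hY1 : 1 ≤ Y := by
        have : Real.exp (v * ρ) * Real.exp (-(v * ρ)) ≤ X * Real.exp (-(v * ρ)) := by
          gcongr
          linarith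
        rw [hexp] at this
        exact this
      have hTY : (T : ℝ) ≤ Y := by
        refine hT.trans ?_
        rw [hY, Real.exp_neg, div_eq_mul_inv]
        have : Q⁻¹ ≤ (Real.exp (v * ρ))⁻¹ := inv_anti₀ (Real.exp_pos _) hvQ
        gcongr
      -- large sieve
      have h1 := hLS Y T (fun z => (F z : ℂ)) hY1
      have h2 : ∑ z ∈ V Y, ‖(F z : ℂ)‖ ^ 2 = ((V Y).card : ℝ) := by
        rw [Finset.sum_congr rfl (fun z hz => by
          rw [hF.norm (mem_V.1 hz).2.1, one_pow] : ∀ z ∈ V Y, ‖(F z : ℂ)‖ ^ 2 = (1 : ℝ))]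
        simp
      have h3 : ∑ k ∈ S, ‖fc F Y k‖ ^ 2 ≤ 18 * C0 * Y ^ 2 := by
        calc ∑ k ∈ S, ‖fc F Y k‖ ^ 2 ≤ ∑ k ∈ fr T, ‖fc F Y k‖ ^ 2 :=
              Finset.sum_le_sum_of_subset_of_nonneg hS (fun _ _ _ => by positivity)
          _ ≤ C0 * (T + Y) * ((V Y).card : ℝ) := by
              rw [h2] at h1
              exact h1
          _ ≤ C0 * (Y + Y) * (9 * Y) := by
              have := card_V_le Y hYpos.le
              gcongr
          _ = 18 * C0 * Y ^ 2 := by ring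
      have h4 : ∀ k ∈ S, ‖U F P Q ρ v k‖ ^ 2 * ‖fc F Y k‖ ^ 2 ≤
          Real.exp ((1 - α) * (v * ρ)) ^ 2 * ‖fc F Y k‖ ^ 2 := by
        intro k hk
        have := hU k hk v
        gcongr
      calc ∑ k ∈ S, (‖U F P Q ρ v k‖ ^ 2 * ‖fc F Y k‖ ^ 2) ≤
          ∑ k ∈ S, Real.exp ((1 - α) * (v * ρ)) ^ 2 * ‖fc F Y k‖ ^ 2 := Finset.sum_le_sum h4
        _ = Real.exp ((1 - α) * (v * ρ)) ^ 2 * ∑ k ∈ S, ‖fc F Y k‖ ^ 2 := by
            rw [Finset.mul_sum]
        _ ≤ Real.exp ((1 - α) * (v * ρ)) ^ 2 * (18 * C0 * Y ^ 2) := by gcongr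
        _ = 18 * C0 * X ^ 2 * Real.exp (-(2 * α * (v * ρ))) := by
            rw [hY, mul_pow]
            rw [show Real.exp ((1 - α) * (v * ρ)) ^ 2 * (18 * C0 * (X ^ 2 * Real.exp (-(v * ρ)) ^ 2)) =
              18 * C0 * X ^ 2 * (Real.exp ((1 - α) * (v * ρ)) ^ 2 * Real.exp (-(v * ρ)) ^ 2) by ring]
            congr 1
            rw [← Real.exp_nat_mul, ← Real.exp_nat_mul, ← Real.exp_add]
            congr 1
            push_cast
            ring
        _ ≤ 18 * C0 * X ^ 2 * (Real.exp 2 * P ^ (-(2 * α))) := by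
            have h5 : Real.exp (-(2 * α * (v * ρ))) ≤ Real.exp 2 * P ^ (-(2 * α)) := by
              rw [Real.rpow_def_of_pos hP0, ← Real.exp_add]
              apply Real.exp_le_exp.2
              have h6 : Real.log P ≤ (v + 1) * ρ := by
                rw [Real.log_le_iff_le_exp hP0]
                exact hPv
              have h7 : 2 * α * Real.log P ≤ 2 * α * ((v + 1) * ρ) := by gcongr
              have h8 : 2 * α * ρ ≤ 2 := by nlinarith
              nlinarith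
            gcongr
        _ = _ := by ring
  calc ∑ k ∈ S, ‖UZ F P Q ρ X k‖ ^ 2 ≤
      ∑ k ∈ S, (n * ∑ v ∈ Finset.range n,
        (‖U F P Q ρ v k‖ ^ 2 * ‖fc F (X * Real.exp (-(v * ρ))) k‖ ^ 2)) :=
        Finset.sum_le_sum fun k _ => hCS k
    _ = n * ∑ v ∈ Finset.range n, ∑ k ∈ S,
        (‖U F P Q ρ v k‖ ^ 2 * ‖fc F (X * Real.exp (-(v * ρ))) k‖ ^ 2) := by
        rw [← Finset.mul_sum, Finset.sum_comm]
    _ ≤ n * ∑ v ∈ Finset.range n, (18 * Real.exp 2 * C0 * X ^ 2 * P ^ (-(2 * α))) := by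
        gcongr with v hv
        exact hblk v
    _ = (18 * Real.exp 2 * C0 * X ^ 2 * P ^ (-(2 * α))) * (n : ℝ) ^ 2 := by
        rw [Finset.sum_const, Finset.card_range, nsmul_eq_mul]
        ring
    _ ≤ (18 * Real.exp 2 * C0 * X ^ 2 * P ^ (-(2 * α))) * (Real.log Q / ρ + 1) ^ 2 := by
        have := Real.rpow_pos_of_pos hP0 (-(2 * α))
        gcongr
    _ = _ := by ring

end Pool.Agent.GaussMR

end
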