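import Pool.Agent.Lib_MP_92ef0c_m.M01
import Pool.Agent.Lib_MP_92ef0c_m.M02
import Pool.Agent.Lib_MP_92ef0c_m.M11

/-!
# MP_92ef0c_nt, split pairs: merged library part M19

Concatenation of smaller files (each in its own section), only to save build time.
-/

/-! ### from `Lib_MP_f1a94e_mr.EdgeCount` -/

section

/-!
# Piece EDGECOUNT: edges and factorisations of `m ^ 2 + 1`
-/

set_option autoImplicit false

namespace Pool.Agent.GaussMR

open Finset

/-- at most four pairs with given scalar product, determinant `1` or `-1`, norm of the first -/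
theorem edge_fiber (P : Finset (G × G)) (n ε : ℤ) (g : ℕ) (hε : ε = 1 ∨ ε = -1)
    (h : ∀ r ∈ P, det r.1 r.2 = ε ∧ dot r.1 r.2 = n ∧ nm r.1 = g) : P.card ≤ 4 := by
  classical
  have hinj : Set.InjOn (fun r : G × G =>
      (((r.1.re, r.1.im) : ℤ × ℤ), ((ε * r.2.re, ε * r.2.im) : ℤ × ℤ))) (P : Set (G × G)) := by
    intro r _ s _ hrs
    simp only [Prod.mk.injEq] at hrs
    obtain ⟨⟨h1, h2⟩, h3, h4⟩ := hrs
    have hε0 : ε ≠ 0 := by rcases hε with h | h <;> rw [h] <;> norm_num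
    have h5 := mul_left_cancel₀ hε0 h3
    have h6 := mul_left_cancel₀ hε0 h4
    exact Prod.ext (Zsqrtd.ext h1 h2) (Zsqrtd.ext h5 h6)
  rw [← card_image_of_injOn hinj]
  apply ParityQuad.opp_fiber _ (ε * n) (g : ℤ)
  intro r hr
  obtain ⟨s, hs, rfl⟩ := mem_image.mp hr
  obtain ⟨h1, h2, h3⟩ := h s hs
  have hε2 : ε * ε = 1 := by rcases hε with h | h <;> rw [h] <;> norm_num
  simp only [ParityQuad.dt, ParityQuad.dp, ParityQuad.Nm]
  unfold det at h1
  unfold dot at h2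
  refine ⟨?_, ?_, ?_⟩
  · linear_combination ε * h1 + hε2
  · linear_combination ε * h2
  · have h4 := nm_eq s.1
    rw [h3] at h4
    exact h4.symm

/-- value of `F` at `m + i` -/
theorem F_dot_det (F : G → ℝ) (hF : PM F) (n ε : ℤ) (hε : |ε| = 1)
    (hodd : Odd (nm (⟨n, ε⟩ : G))) : F ⟨(n.natAbs : ℤ), 1⟩ = F ⟨n, ε⟩ := by
  have hstar : ∀ a b : ℤ, star (⟨a, b⟩ : G) = ⟨a, -b⟩ := by
    intro a b
    apply Zsqrtd.ext <;> simp
  have hneg : ∀ a b : ℤ, -(⟨a, b⟩ : G) = ⟨-a, -b⟩ := by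
    intro a b
    apply Zsqrtd.ext <;> simp
  have hodd1 : Odd (nm (star (⟨n, ε⟩ : G))) := by rw [nm_star]; exact hodd
  rcases Int.natAbs_eq n with hn | hn
  · rcases (abs_eq (by norm_num : (0 : ℤ) ≤ 1)).mp hε with h | h
    · rw [h, ← hn]
    · rw [h] at hodd ⊢
      have h1 := hF.conj ⟨n, -1⟩ hodd
      rw [hstar, neg_neg] at h1
      rw [← hn]
      exact h1
  · have hn' : (n.natAbs : ℤ) = -n := by omega
    rw [hn']
    rcases (abs_eq (by norm_num : (0 : ℤ) ≤ 1)).mp hε with h | h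
    · rw [h] at hodd hodd1 ⊢
      have h1 := hF.conj ⟨n, 1⟩ hodd
      have h2 := hF.neg hodd1
      rw [hstar, hneg, neg_neg] at h2
      rw [h2, ← h1, hstar]
    · rw [h] at hodd ⊢
      have h2 := hF.neg hodd
      rw [hneg, neg_neg] at h2
      exact h2

theorem tx_eq (X : ℝ) (m : ℕ) : tx X m = ((Nat.divisors (m ^ 2 + 1)).filter
    (fun d : ℕ => (d : ℝ) ≤ X ∧ ((m ^ 2 + 1 : ℕ) : ℝ) ≤ X * d)).card := by
  classical
  unfold tx
  rw [← Set.ncard_coe_finset]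
  congr 1
  ext d
  simp [Nat.mem_divisors]

open Classical in
/-- the edges with a given `m` -/
theorem edge_m (F : G → ℝ) (X : ℝ) (m : ℕ) :
    ((edges F X).filter (fun e => (dot e.1 e.2).natAbs = m)).card ≤ 16 * tx X m := by
  set E := (edges F X).filter (fun e => (dot e.1 e.2).natAbs = m) with hE
  set D := (Nat.divisors (m ^ 2 + 1)).filter
    (fun d : ℕ => (d : ℝ) ≤ X ∧ ((m ^ 2 + 1 : ℕ) : ℝ) ≤ X * d) with hD
  set f : G × G → Bool × ℤ × ℕ := fun e => (decide (0 ≤ dot e.1 e.2), det e.1 e.2, nm e.1) with hf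
  have hmem : ∀ e ∈ E, ((nm e.1 : ℝ) ≤ X ∧ Odd (nm e.1) ∧ Prim e.1) ∧
      ((nm e.2 : ℝ) ≤ X ∧ Odd (nm e.2) ∧ Prim e.2) ∧ |det e.1 e.2| = 1 ∧
      (dot e.1 e.2).natAbs = m := by
    intro e he
    rw [hE, mem_filter] at he
    unfold edges at he
    rw [mem_filter, mem_product, mem_V, mem_V] at he
    exact ⟨he.1.1.1, he.1.1.2, he.1.2.1, he.2⟩
  have himg : E.image f ⊆ (univ : Finset Bool) ×ˢ (({1, -1} : Finset ℤ) ×ˢ D) := by
    intro t ht
    obtain ⟨e, he, rfl⟩ := mem_image.mp ht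
    obtain ⟨h1, h2, h3, h4⟩ := hmem e he
    have hprod : nm e.1 * nm e.2 = m ^ 2 + 1 := by
      have h5 := dot_sq_add_det_sq e.1 e.2
      have h6 : det e.1 e.2 ^ 2 = 1 := by
        rw [← sq_abs, h3]; norm_num
      have h7 : dot e.1 e.2 ^ 2 = ((m ^ 2 : ℕ) : ℤ) := by
        rw [← h4]; push_cast; rw [sq_abs]
      rw [h6, h7] at h5
      exact_mod_cast h5.symm
    simp only [hf, mem_product, mem_univ, true_and, mem_insert, mem_singleton]
    refine ⟨(abs_eq (by norm_num : (0 : ℤ) ≤ 1)).mp h3, ?_⟩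
    rw [hD, mem_filter, Nat.mem_divisors]
    refine ⟨⟨⟨nm e.2, hprod.symm⟩, by positivity⟩, h1.1, ?_⟩
    rw [← hprod]
    push_cast
    rw [mul_comm]
    exact mul_le_mul_of_nonneg_right h2.1 (by positivity)
  have hfib : ∀ t ∈ E.image f, (E.filter (fun e => f e = t)).card ≤ 4 := by
    intro t ht
    have ht' := himg ht
    obtain ⟨s, ε, g⟩ := t
    simp only [mem_product, mem_univ, true_and, mem_insert, mem_singleton] at ht'
    apply edge_fiber _ (if s then (m : ℤ) else -(m : ℤ)) ε g ht'.1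
    intro r hr
    rw [mem_filter] at hr
    obtain ⟨h1, h2, h3, h4⟩ := hmem r hr.1
    simp only [hf, Prod.mk.injEq] at hr
    obtain ⟨_, hs, hε, hg⟩ := hr
    refine ⟨hε, ?_, hg⟩
    rw [← hs, ← h4]
    by_cases h0 : 0 ≤ dot r.1 r.2
    · simp only [h0, decide_true, if_true]
      exact (Int.natAbs_of_nonneg h0).symm
    · simp only [h0, decide_false, Bool.false_eq_true, if_false]
      omega
  have h1 := card_le_mul_card_image E 4 hfib
  have h2 := card_le_card himg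
  have h3 : ((univ : Finset Bool) ×ˢ (({1, -1} : Finset ℤ) ×ˢ D)).card = 4 * D.card := by
    rw [card_product, card_product, card_univ, Fintype.card_bool, card_pair (by norm_num)]
    ring
  rw [h3, hD, ← tx_eq] at h2
  calc E.card ≤ 4 * (E.image f).card := h1
    _ ≤ 4 * (4 * tx X m) := Nat.mul_le_mul_left _ h2
    _ = 16 * tx X m := by ring

/-- For an edge `(a, b)`: `star a * b = ⟨dot a b, ± 1⟩`; with `m = |dot a b|` and `d = nm a`,
`d ∣ m² + 1 = nm a nm b`, both factors at most `X` and odd, so `m` is even; and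
`F ⟨m, 1⟩ = F (star a * b) = F a F b = -1` (use `F (star z) = F z`, `F (-z) = F z`). Given `(m, d)` there
are at most 16 edges: 4 choices for `w = star a * b ∈ {±m ± i}`, and given `w`: two edges `(a, b)`,
`(a', b')` with `nm a = nm a'` and `star a * b = star a' * b' = w` satisfy `a' = unit * a`
(see also `ParityQuad.opp_fiber`, `opp_key`, `opp_inj` in Lib_MP_f1a94e_nt/Mult.lean). -/
theorem edge_count (F : G → ℝ) (hF : PM F) (X : ℝ) (B : Finset ℕ)
    (hB : ∀ m : ℕ, Even m → (m : ℝ) ≤ X → F ⟨(m : ℤ), 1⟩ = -1 → m ∈ B) :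
    ((edges F X).card : ℝ) ≤ 16 * ∑ m ∈ B, (tx X m : ℝ) := by
  classical
  have hsub : edges F X ⊆ B.biUnion
      (fun m => (edges F X).filter (fun e => (dot e.1 e.2).natAbs = m)) := by
    intro e he
    rw [mem_biUnion]
    refine ⟨(dot e.1 e.2).natAbs, ?_, mem_filter.mpr ⟨he, rfl⟩⟩
    unfold edges at he
    rw [mem_filter, mem_product, mem_V, mem_V] at he
    obtain ⟨⟨h1, h2⟩, h3, h4⟩ := he
    set m := (dot e.1 e.2).natAbs with hm
    have hprod : nm e.1 * nm e.2 = m ^ 2 + 1 := by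
      have h5 := dot_sq_add_det_sq e.1 e.2
      have h6 : det e.1 e.2 ^ 2 = 1 := by
        rw [← sq_abs, h3]; norm_num
      have h7 : dot e.1 e.2 ^ 2 = ((m ^ 2 : ℕ) : ℤ) := by
        rw [hm]; push_cast; rw [sq_abs]
      rw [h6, h7] at h5
      exact_mod_cast h5.symm
    have hodd : Odd (m ^ 2 + 1) := by rw [← hprod]; exact h1.2.1.mul h2.2.1
    have hX : 0 ≤ X := (by positivity : (0 : ℝ) ≤ nm e.1).trans h1.1
    apply hB
    · by_contra hne
      rw [Nat.not_even_iff_odd] at hne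
      have : Even (m ^ 2 + 1) := (hne.pow).add_odd odd_one
      exact (Nat.not_even_iff_odd.mpr hodd) this
    · have h5 : ((m ^ 2 + 1 : ℕ) : ℝ) ≤ X * X := by
        rw [← hprod]
        push_cast
        exact mul_le_mul h1.1 h2.1 (by positivity) hX
      push_cast at h5
      nlinarith [sq_nonneg ((m : ℝ) - X)]
    · have h5 : star e.1 * e.2 = ⟨dot e.1 e.2, det e.1 e.2⟩ := star_mul_eq _ _
      have hos : Odd (nm (star e.1)) := by rw [nm_star]; exact h1.2.1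
      have h6 : Odd (nm (⟨dot e.1 e.2, det e.1 e.2⟩ : G)) := by
        rw [← h5]
        exact odd_nm_mul.mpr ⟨hos, h2.2.1⟩
      rw [F_dot_det F hF _ _ h3 h6, ← h5, hF.mul _ _ hos h2.2.1, hF.conj _ h1.2.1,
        hF.mul_eq h1.2.1 h2.2.1, if_pos h4]
      norm_num
  calc ((edges F X).card : ℝ)
      ≤ ((B.biUnion (fun m => (edges F X).filter (fun e => (dot e.1 e.2).natAbs = m))).card : ℝ) := by
        exact_mod_cast card_le_card hsub
    _ ≤ ∑ m ∈ B, (((edges F X).filter (fun e => (dot e.1 e.2).natAbs = m)).card : ℝ) := by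
        exact_mod_cast card_biUnion_le
    _ ≤ ∑ m ∈ B, 16 * (tx X m : ℝ) := by
        apply sum_le_sum
        intro m _
        exact_mod_cast edge_m F X m
    _ = 16 * ∑ m ∈ B, (tx X m : ℝ) := by rw [mul_sum]

end Pool.Agent.GaussMR

end

/-! ### from `Lib_MP_f1a94e_aq.Exist` -/

section

/-!
# Piece EXIST: factorisations of `m ^ 2 + 1` and Farey edges
-/

set_option autoImplicit false

namespace Pool.Agent.OmAll

open Finset Pool.Agent.GaussMR

namespace Exist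

theorem key (n : ℕ) : ∀ m : ℤ, m.natAbs = n → ∀ d e : ℕ, (d : ℤ) * e = m ^ 2 + 1 →
    ∃ V V' : G, det V V' = 1 ∧ dot V V' = m ∧ nm V = d ∧ nm V' = e := by
  induction n using Nat.strong_induction_on with
  | _ n ih =>
  intro m hm d e h
  by_cases hm0 : m = 0
  · subst hm0
    have h1 : d * e = 1 := by
      have : (d : ℤ) * e = 1 := by rw [h]; norm_num
      exact_mod_cast this
    obtain rfl : d = 1 := Nat.dvd_one.1 (Dvd.intro _ h1)
    obtain rfl : e = 1 := Nat.dvd_one.1 (Dvd.intro_left _ h1)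
    refine ⟨⟨1, 0⟩, ⟨0, 1⟩, rfl, rfl, ?_, ?_⟩
    · have : ((nm (⟨1, 0⟩ : G) : ℕ) : ℤ) = ((1 : ℕ) : ℤ) := by rw [nm_eq]; norm_num
      exact_mod_cast this
    · have : ((nm (⟨0, 1⟩ : G) : ℕ) : ℤ) = ((1 : ℕ) : ℤ) := by rw [nm_eq]; norm_num
      exact_mod_cast this
  obtain ⟨s, hs, hsm⟩ : ∃ s : ℤ, s * s = 1 ∧ s * m = |m| := by
    rcases le_total 0 m with h0 | h0
    · exact ⟨1, by norm_num, by rw [one_mul, abs_of_nonneg h0]⟩
    · exact ⟨-1, by norm_num, by rw [abs_of_nonpos h0]; ring⟩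
  have hs1 : s = 1 ∨ s = -1 := by
    have : (s - 1) * (s + 1) = 0 := by linear_combination hs
    rcases mul_eq_zero.1 this with h1 | h1
    · left; omega
    · right; omega
  have hab : (m.natAbs : ℤ) = |m| := Int.natCast_natAbs m
  have hpos : 0 < |m| := abs_pos.2 hm0
  have habs2 : |m| * |m| = m ^ 2 := by rw [abs_mul_abs_self]; ring
  have hd0 : 0 < (d : ℤ) := by
    by_contra hc
    have : (d : ℤ) = 0 := by omega
    rw [this, zero_mul] at h
    nlinarith [sq_nonneg m]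
  have he0 : 0 < (e : ℤ) := by
    by_contra hc
    have : (e : ℤ) = 0 := by omega
    rw [this, mul_zero] at h
    nlinarith [sq_nonneg m]
  have hcase : (d : ℤ) ≤ |m| ∨ (e : ℤ) ≤ |m| := by
    by_contra hc
    push Not at hc
    obtain ⟨h1, h2⟩ := hc
    have h3 : (|m| + 1) * (|m| + 1) ≤ (d : ℤ) * e :=
      mul_le_mul (by omega) (by omega) (by omega) (by omega)
    nlinarith
  -- the absolute value of `m - s c`
  have hnat : ∀ c : ℤ, 0 < c → c ≤ |m| → (m - s * c).natAbs < n := by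
    intro c hc0 hc
    have h1 : |m - s * c| = |m| - c := by
      have h2 : m - s * c = s * (|m| - c) := by
        rw [← hsm]
        linear_combination (-m) * hs
      rw [h2, abs_mul]
      have h3 : |s| = 1 := by
        rcases hs1 with h | h <;> rw [h] <;> norm_num
      rw [h3, one_mul, abs_of_nonneg (by omega)]
    have h4 : ((m - s * c).natAbs : ℤ) = |m - s * c| := Int.natCast_natAbs _
    omega
  rcases hcase with hc | hc
  · have hprod : (d : ℤ) * (e - 2 * |m| + d) = (m - s * d) ^ 2 + 1 := by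
      rw [← hsm]
      linear_combination h - (d : ℤ) ^ 2 * hs
    have hpos1 : 0 < (e : ℤ) - 2 * |m| + d := by
      by_contra hn
      have h1 : (d : ℤ) * (e - 2 * |m| + d) ≤ 0 :=
        mul_nonpos_of_nonneg_of_nonpos hd0.le (by omega)
      rw [hprod] at h1
      nlinarith [sq_nonneg (m - s * d)]
    obtain ⟨e1, he1⟩ : ∃ e1 : ℕ, (e1 : ℤ) = e - 2 * |m| + d :=
      ⟨((e : ℤ) - 2 * |m| + d).toNat, Int.toNat_of_nonneg hpos1.le⟩
    obtain ⟨V, V'', h1, h2, h3, h4⟩ := ih _ (hnat d hd0 hc) (m - s * d) rfl d e1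
      (by rw [he1, hprod])
    have h3' : V.re ^ 2 + V.im ^ 2 = (d : ℤ) := by rw [← nm_eq, h3]
    have h4' : V''.re ^ 2 + V''.im ^ 2 = (e1 : ℤ) := by rw [← nm_eq, h4]
    unfold det at h1
    unfold dot at h2
    refine ⟨V, ⟨V''.re + s * V.re, V''.im + s * V.im⟩, ?_, ?_, h3, ?_⟩
    · unfold det
      simp only
      linear_combination h1
    · unfold dot
      simp only
      linear_combination h2 + s * h3'
    · have h5 : ((nm (⟨V''.re + s * V.re, V''.im + s * V.im⟩ : G) : ℕ) : ℤ) = (e : ℤ) := by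
        rw [nm_eq]
        simp only
        linear_combination h4' + s ^ 2 * h3' + 2 * s * h2 + he1 - (d : ℤ) * hs + 2 * hsm
      exact_mod_cast h5
  · have hprod : ((d : ℤ) - 2 * |m| + e) * e = (m - s * e) ^ 2 + 1 := by
      rw [← hsm]
      linear_combination h - (e : ℤ) ^ 2 * hs
    have hpos1 : 0 < (d : ℤ) - 2 * |m| + e := by
      by_contra hn
      have h1 : ((d : ℤ) - 2 * |m| + e) * e ≤ 0 :=
        mul_nonpos_of_nonpos_of_nonneg (by omega) he0.le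
      rw [hprod] at h1
      nlinarith [sq_nonneg (m - s * e)]
    obtain ⟨d1, hd1⟩ : ∃ d1 : ℕ, (d1 : ℤ) = d - 2 * |m| + e :=
      ⟨((d : ℤ) - 2 * |m| + e).toNat, Int.toNat_of_nonneg hpos1.le⟩
    obtain ⟨V'', V', h1, h2, h3, h4⟩ := ih _ (hnat e he0 hc) (m - s * e) rfl d1 e
      (by rw [hd1, hprod])
    have h3' : V''.re ^ 2 + V''.im ^ 2 = (d1 : ℤ) := by rw [← nm_eq, h3]
    have h4' : V'.re ^ 2 + V'.im ^ 2 = (e : ℤ) := by rw [← nm_eq, h4]
    unfold det at h1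
    unfold dot at h2
    refine ⟨⟨V''.re + s * V'.re, V''.im + s * V'.im⟩, V', ?_, ?_, ?_, h4⟩
    · unfold det
      simp only
      linear_combination h1
    · unfold dot
      simp only
      linear_combination h2 + s * h4'
    · have h5 : ((nm (⟨V''.re + s * V'.re, V''.im + s * V'.im⟩ : G) : ℕ) : ℤ) = (d : ℤ) := by
        rw [nm_eq]
        simp only
        linear_combination h3' + s ^ 2 * h4' + 2 * s * h2 + hd1 - (e : ℤ) * hs + 2 * hsm
      exact_mod_cast h5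

end Exist

/-- Every factorisation `m ^ 2 + 1 = d e` comes from an edge. Prove the version with `m : ℤ` by strong induction on
`m.natAbs`: if `m = 0` then `d = e = 1`, take `(1, i)`. Otherwise `min d e ≤ |m|` (else `d e ≥ (|m| + 1)^2`). If `d ≤ |m|`
apply the induction hypothesis to `(m - s d, d, e - 2 s m + d)`, `s = sign m` (`|m - s d| < |m|`, the product identity
`d (e - 2 s m + d) = (m - s d)^2 + 1`), getting `(V, V'')`, and take `V' = V'' + s V`. If `e ≤ |m|` symmetric: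
`(m - s e, d - 2 s m + e, e)`, `V = V'' + s V'`. -/
theorem exists_edge (m d e : ℕ) (h : d * e = m ^ 2 + 1) :
    ∃ V V' : G, det V V' = 1 ∧ dot V V' = m ∧ nm V = d ∧ nm V' = e :=
  Exist.key _ (m : ℤ) rfl d e (by exact_mod_cast h)

/-- Exactly four edges for every divisor: at most four by `edge_fiber` (mr/EdgeCount), and if `(V, V')` is one of
them (from `exists_edge`), so are `(i^k V, i^k V')`, `k < 4` (`i = ⟨0, 1⟩`), which are different as `V ≠ 0`. -/
theorem four (m d : ℕ) (h : d ∣ m ^ 2 + 1) :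
    {e : G × G | det e.1 e.2 = 1 ∧ dot e.1 e.2 = m ∧ nm e.1 = d}.ncard = 4 := by
  classical
  obtain ⟨e, he⟩ := h
  obtain ⟨V, V', h1, h2, h3, _⟩ := exists_edge m d e he.symm
  have hd0 : 0 < d := by
    rcases Nat.eq_zero_or_pos d with h | h
    · rw [h, zero_mul] at he
      omega
    · exact h
  have hV : V.re ^ 2 + V.im ^ 2 = (d : ℤ) := by rw [← nm_eq, h3]
  have hV0 : V.re ≠ 0 ∨ V.im ≠ 0 := by
    by_contra hc
    push Not at hc
    rw [hc.1, hc.2] at hV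
    have : (0 : ℤ) < d := by exact_mod_cast hd0
    simp at hV
    omega
  set S := {e : G × G | det e.1 e.2 = 1 ∧ dot e.1 e.2 = m ∧ nm e.1 = d} with hS
  have hmem : ∀ r : G × G, r ∈ S ↔ det r.1 r.2 = 1 ∧ dot r.1 r.2 = m ∧ nm r.1 = d :=
    fun _ => Iff.rfl
  unfold det at h1
  unfold dot at h2
  have hnmr : ∀ a b : ℤ, a ^ 2 + b ^ 2 = (d : ℤ) → nm (⟨a, b⟩ : G) = d := by
    intro a b hab
    have : ((nm (⟨a, b⟩ : G) : ℕ) : ℤ) = (d : ℤ) := by rw [nm_eq]; exact hab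
    exact_mod_cast this
  let P : Finset (G × G) := {(⟨V.re, V.im⟩, ⟨V'.re, V'.im⟩), (⟨-V.im, V.re⟩, ⟨-V'.im, V'.re⟩),
    (⟨-V.re, -V.im⟩, ⟨-V'.re, -V'.im⟩), (⟨V.im, -V.re⟩, ⟨V'.im, -V'.re⟩)}
  have hPS : ∀ r ∈ P, r ∈ S := by
    intro r hr
    simp only [P, Finset.mem_insert, Finset.mem_singleton] at hr
    rw [hmem]
    unfold det dot
    rcases hr with rfl | rfl | rfl | rfl
    · exact ⟨h1, h2, hnmr _ _ hV⟩
    · refine ⟨by simp only; linear_combination h1, by simp only; linear_combination h2,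
        hnmr _ _ (by linear_combination hV)⟩
    · refine ⟨by simp only; linear_combination h1, by simp only; linear_combination h2,
        hnmr _ _ (by linear_combination hV)⟩
    · refine ⟨by simp only; linear_combination h1, by simp only; linear_combination h2,
        hnmr _ _ (by linear_combination hV)⟩
  have hP4 : P.card = 4 := by
    have hne : ∀ a b a' b' : ℤ, ∀ w w' : G, ¬ (a = a' ∧ b = b') →
        ((⟨a, b⟩, w) : G × G) ≠ (⟨a', b'⟩, w') := by
      intro a b a' b' w w' hc hh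
      apply hc
      have h5 := congrArg Prod.fst hh
      exact ⟨congrArg Zsqrtd.re h5, congrArg Zsqrtd.im h5⟩
    rw [Finset.card_insert_of_notMem, Finset.card_insert_of_notMem,
      Finset.card_insert_of_notMem, Finset.card_singleton]
    · rw [Finset.mem_singleton]
      exact hne _ _ _ _ _ _ (by omega)
    · rw [Finset.mem_insert, Finset.mem_singleton, not_or]
      exact ⟨hne _ _ _ _ _ _ (by omega), hne _ _ _ _ _ _ (by omega)⟩
    · rw [Finset.mem_insert, Finset.mem_insert, Finset.mem_singleton, not_or, not_or]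
      exact ⟨hne _ _ _ _ _ _ (by omega), hne _ _ _ _ _ _ (by omega),
        hne _ _ _ _ _ _ (by omega)⟩
  have hSP : S = (P : Set (G × G)) := by
    apply Set.Subset.antisymm
    · intro x hx
      by_contra hxP
      rw [Finset.mem_coe] at hxP
      have h5 := edge_fiber (insert x P) m 1 d (Or.inl rfl) (by
        intro r hr
        rcases Finset.mem_insert.1 hr with rfl | hr
        · exact (hmem _).1 hx
        · exact (hmem _).1 (hPS r hr))
      rw [Finset.card_insert_of_notMem hxP, hP4] at h5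
      omega
    · intro x hx
      exact hPS x (Finset.mem_coe.1 hx)
  rw [hSP, Set.ncard_coe_finset, hP4]

end Pool.Agent.OmAll

end

/-! ### from `Lib_MP_f1a94e_aq.DEdges` -/

section

/-!
# Piece DEDGES: pairs `(m, d)` and edges
-/

set_option autoImplicit false

namespace Pool.Agent.OmAll

open Finset Pool.Agent.GaussMR Filter

/-- the edges above `r = (m, d)` -/
def fibD (r : ℕ × ℕ) : Set (G × G) := {e : G × G | det e.1 e.2 = 1 ∧ dot e.1 e.2 = r.1 ∧ nm e.1 = r.2}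

theorem prod_of_mem {r : ℕ × ℕ} {e : G × G} (he : e ∈ fibD r) : r.2 * nm e.2 = r.1 ^ 2 + 1 := by
  obtain ⟨h1, h2, h3⟩ := he
  have h4 := dot_sq_add_det_sq e.1 e.2
  rw [h1, h2, h3] at h4
  have h5 : ((r.2 * nm e.2 : ℕ) : ℤ) = ((r.1 ^ 2 + 1 : ℕ) : ℤ) := by
    push_cast
    linarith
  exact_mod_cast h5

theorem dvd_iff_primes {g n : ℕ} (hg : Squarefree g) : g ∣ n ↔ ∀ p ∈ g.primeFactors, p ∣ n := by
  constructor
  · intro h p hp
    exact (Nat.dvd_of_mem_primeFactors hp).trans h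
  · intro h
    rw [← Nat.prod_primeFactors_of_squarefree hg]
    exact Finset.prod_primes_dvd n (fun p hp => (Nat.prime_of_mem_primeFactors hp).prime) h

theorem tt_eq {r : ℕ × ℕ} {e : G × G} (he : e ∈ fibD r) :
    tt r = Real.log (nm e.2) - Real.log (nm e.1) ∧ 0 < (nm e.1 : ℝ) ∧ 0 < (nm e.2 : ℝ) := by
  have h := prod_of_mem he
  have h3 : nm e.1 = r.2 := he.2.2
  have hpos : 0 < r.2 * nm e.2 := by rw [h]; positivity
  have h1 : 0 < r.2 := Nat.pos_of_mul_pos_right hpos |> fun _ => Nat.pos_of_ne_zero (by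
    rintro h0
    rw [h0] at hpos
    simp at hpos)
  have h2 : 0 < nm e.2 := Nat.pos_of_ne_zero (by
    rintro h0
    rw [h0] at hpos
    simp at hpos)
  have h1' : (0 : ℝ) < (nm e.1 : ℝ) := by rw [h3]; exact_mod_cast h1
  have h2' : (0 : ℝ) < (nm e.2 : ℝ) := by exact_mod_cast h2
  refine ⟨?_, h1', h2'⟩
  unfold tt
  have h4 : ((r.1 : ℝ) ^ 2 + 1) = (nm e.1 : ℝ) * (nm e.2 : ℝ) := by
    rw [h3]
    exact_mod_cast h.symm
  rw [h4, Real.log_mul h1'.ne' h2'.ne', ← h3]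
  ring

theorem fib_iff {g : ℕ × ℕ} (hg : Adm g) {s t x : ℝ} {r : ℕ × ℕ} {e : G × G} (he : e ∈ fibD r) :
    (r ∈ pd x ∧ Cd g r ∧ s ≤ tt r ∧ tt r < t) ↔ (e ∈ NE 1 0 s t x ∧ Ce g e) := by
  have hprod := prod_of_mem he
  obtain ⟨htt, hp1, hp2⟩ := tt_eq he
  obtain ⟨h1, h2, h3⟩ := he
  have hprod' : nm e.1 * nm e.2 = r.1 ^ 2 + 1 := by rw [h3]; exact hprod
  have hsq1 : Squarefree g.1 := hg.1.squarefree_of_dvd (dvd_mul_right _ _)
  have hsq2 : Squarefree g.2 := hg.1.squarefree_of_dvd (dvd_mul_left _ _)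
  have hdiv : (r.1 ^ 2 + 1) / r.2 = nm e.2 := by
    rw [← hprod]
    apply Nat.mul_div_cancel_left
    rw [← h3]
    exact_mod_cast hp1
  have hs : s ≤ tt r ↔ Real.exp s * (nm e.1 : ℝ) ≤ (nm e.2 : ℝ) := by
    rw [htt, le_sub_iff_add_le]
    rw [← Real.exp_le_exp, Real.exp_add, Real.exp_log hp1, Real.exp_log hp2]
  have ht : tt r < t ↔ (nm e.2 : ℝ) < Real.exp t * (nm e.1 : ℝ) := by
    rw [htt, sub_lt_iff_lt_add]
    rw [← Real.exp_lt_exp, Real.exp_add, Real.exp_log hp1, Real.exp_log hp2]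
  have heven : Even r.1 ↔ Odd (nm e.1) ∧ Odd (nm e.2) := by
    rw [← Nat.odd_mul, hprod']
    rw [Nat.odd_add_one, Nat.not_odd_iff_even, Nat.even_pow' two_ne_zero]
  have hcg : cg 1 e.1 (0 : G × G).1 ∧ cg 1 e.2 (0 : G × G).2 := by
    refine ⟨⟨?_, ?_⟩, ⟨?_, ?_⟩⟩ <;> exact one_dvd _
  rw [mem_pd]
  unfold Cd
  rw [hdiv, hs, ht, heven, dvd_iff_primes hsq1, dvd_iff_primes hsq2, ← hprod', ← h3]
  unfold Ce NE
  rw [Set.mem_ofPred_eq, h2, h1]
  have hdot : (0 : ℤ) < (r.1 : ℤ) ↔ 1 ≤ r.1 := by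
    constructor <;> intro h <;> omega
  have hx : (((r.1 : ℤ) : ℤ) : ℝ) ≤ x ↔ (r.1 : ℝ) ≤ x := by
    rw [Int.cast_natCast]
  rw [hdot, hx]
  have hdv : nm e.1 ∣ nm e.1 * nm e.2 := dvd_mul_right _ _
  constructor
  · rintro ⟨⟨a1, a2, a3, _⟩, ⟨a4, a5, a6⟩, a7, a8⟩
    exact ⟨⟨rfl, a1, a2, a7, a8, hcg.1, hcg.2⟩, a3.1, a3.2, a4, a5, a6⟩
  · rintro ⟨⟨_, a1, a2, a7, a8, _, _⟩, b1, b2, a4, a5, a6⟩
    exact ⟨⟨a1, a2, ⟨b1, b2⟩, hdv⟩, ⟨a4, a5, a6⟩, a7, a8⟩

/-- The edges with `Ce g` and `s ≤ tt < t`, `0 < dot ≤ x` are, by `four`, four times the pairs `r = (m, d) ∈ pd x` with `Cd g r`, `s ≤ tt r < t`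
(`r = (dot, nm V)`, `(m^2+1)/d = nm V'`, `tt r = log (nm V' / nm V)`; `m` even iff both norms odd, since `nm V nm V' = m^2 + 1`;
for squarefree `g`: `g ∣ d` iff all its primes divide `d`). -/
theorem dcount_edges (g : ℕ × ℕ) (hg : Adm g) (s t x : ℝ) :
    4 * ({r : ℕ × ℕ | r ∈ pd x ∧ Cd g r ∧ s ≤ tt r ∧ tt r < t}.ncard) =
      {e : G × G | e ∈ NE 1 0 s t x ∧ Ce g e}.ncard := by
  classical
  set R : Finset (ℕ × ℕ) := (pd x).filter (fun r => Cd g r ∧ s ≤ tt r ∧ tt r < t) with hR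
  have hRs : {r : ℕ × ℕ | r ∈ pd x ∧ Cd g r ∧ s ≤ tt r ∧ tt r < t} = (R : Set (ℕ × ℕ)) := by
    ext r
    rw [hR, Finset.coe_filter]
  have hdvd : ∀ r ∈ R, r.2 ∣ r.1 ^ 2 + 1 := by
    intro r hr
    rw [hR, mem_filter, mem_pd] at hr
    exact hr.1.2.2.2
  have hcard : ∀ r ∈ R, (fibD r).ncard = 4 := fun r hr => four r.1 r.2 (hdvd r hr)
  have hfin : ∀ r ∈ R, (fibD r).Finite := fun r hr =>
    Set.finite_of_ncard_ne_zero (by rw [hcard r hr]; norm_num)
  have hE : {e : G × G | e ∈ NE 1 0 s t x ∧ Ce g e}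
      = ((R.attach.biUnion (fun r => (hfin r.1 r.2).toFinset) : Finset (G × G)) : Set (G × G)) := by
    ext e
    rw [Set.mem_ofPred_eq, Finset.mem_coe, mem_biUnion]
    constructor
    · intro he
      have hdet : det e.1 e.2 = 1 := he.1.1
      have hdot : 0 < dot e.1 e.2 := he.1.2.1
      have hmem : e ∈ fibD ((dot e.1 e.2).toNat, nm e.1) :=
        ⟨hdet, (Int.toNat_of_nonneg hdot.le).symm, rfl⟩
      have hr : ((dot e.1 e.2).toNat, nm e.1) ∈ R := by
        rw [hR, mem_filter]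
        have := (fib_iff hg hmem).2 he
        exact ⟨this.1, this.2⟩
      exact ⟨⟨_, hr⟩, mem_attach _ _, by rw [Set.Finite.mem_toFinset]; exact hmem⟩
    · rintro ⟨r, _, hr⟩
      rw [Set.Finite.mem_toFinset] at hr
      have hrR := mem_filter.1 r.2
      exact (fib_iff hg hr).1 ⟨hrR.1, hrR.2⟩
  rw [hRs, hE, Set.ncard_coe_finset, Set.ncard_coe_finset, card_biUnion]
  · have : ∀ r ∈ R.attach, ((hfin r.1 r.2).toFinset).card = 4 := by
      intro r _
      rw [← Set.ncard_eq_toFinset_card _ (hfin r.1 r.2)]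
      exact hcard r.1 r.2
    rw [sum_congr rfl this, sum_const, card_attach, smul_eq_mul, mul_comm]
  · intro r _ r' _ hne
    rw [Function.onFun, Finset.disjoint_left]
    intro e h1 h2
    rw [Set.Finite.mem_toFinset] at h1 h2
    apply hne
    apply Subtype.ext
    apply Prod.ext
    · have a := h1.2.1
      have b := h2.2.1
      rw [a] at b
      exact_mod_cast b
    · exact h1.2.2.symm.trans h2.2.2

end Pool.Agent.OmAll

end

/-! ### from `Lib_MP_f1a94e_eq.FourC` -/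

section

/-!
# Piece FOURC: factorisations and edges
-/

set_option autoImplicit false

namespace Pool.Agent.OmEq

open Finset Pool.Agent.GaussMR Pool.Agent.OmAll

private theorem fourC_En (e : G × G) : En 1 e ↔ det e.1 e.2 = 1 ∧ 0 < dot e.1 e.2 := by
  constructor
  · rintro ⟨h1, h2, -, -⟩
    exact ⟨by simpa using h1, h2⟩
  · rintro ⟨h1, h2⟩
    refine ⟨by simpa using h1, h2, ?_, 1, isCoprime_one_left, ?_, ?_⟩
    · have h3 : e.1.re * e.2.im - e.1.im * e.2.re = 1 := h1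
      exact ⟨e.2.im, -e.2.re, by linarith⟩
    · simp
    · simp

private theorem fourC_mul {e : G × G} {m : ℕ} (h1 : det e.1 e.2 = 1) (h2 : dot e.1 e.2 = m) :
    nm e.1 * nm e.2 = m ^ 2 + 1 := by
  have h4 := dot_sq_add_det_sq e.1 e.2
  rw [h1, h2] at h4
  have h5 : ((nm e.1 * nm e.2 : ℕ) : ℤ) = ((m ^ 2 + 1 : ℕ) : ℤ) := by
    push_cast
    linarith
  exact_mod_cast h5

open Classical in
/-- PROOF. As `dcount_edges` (DEdges.lean): the map `e ↦ (nm e.1, nm e.2)` from the left set to the right set; `dot e.1 e.2 = m ≥ 1`, `nm e.1 nm e.2 = m^2 + 1` (`dot_sq_add_det_sq`), `m` is determined by `(d, e)`, and the fibre over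
`(d, d')` with `d d' = m^2 + 1` is `{e : det = 1, dot = m, nm e.1 = d}`, which has `4` elements (`four`, `d ∣ m^2 + 1`; then `nm e.2 = d'`). `En 1 e`: `V` primitive as `det = 1`, congruences modulo 1 are trivial. -/
theorem four_count (X : ℝ) (P : ℕ × ℕ → Prop) :
    ((EN 1 X).filter (fun e => P (nm e.1, nm e.2))).card =
      4 * {r : ℕ × ℕ | (∃ m : ℕ, 1 ≤ m ∧ (m : ℝ) ≤ X ∧ r.1 * r.2 = m ^ 2 + 1) ∧ P r}.ncard := by
  set F : Finset (G × G) := (EN 1 X).filter (fun e => P (nm e.1, nm e.2)) with hF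
  have hmem : ∀ e : G × G, e ∈ F ↔ (det e.1 e.2 = 1 ∧ 0 < dot e.1 e.2 ∧
      ((dot e.1 e.2 : ℤ) : ℝ) ≤ X) ∧ P (nm e.1, nm e.2) := by
    intro e
    rw [hF, mem_filter, mem_EN one_pos, fourC_En]
    unfold mE
    tauto
  -- the fibre over a factorisation
  have hfib : ∀ (r : ℕ × ℕ) (m : ℕ), 1 ≤ m → (m : ℝ) ≤ X → r.1 * r.2 = m ^ 2 + 1 → P r →
      (F.filter (fun e => (nm e.1, nm e.2) = r)).card = 4 := by
    intro r m hm hmX hr hP
    have h4 := four m r.1 ⟨r.2, hr.symm⟩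
    rw [← h4, ← Set.ncard_coe_finset]
    congr 1
    ext e
    rw [Finset.mem_coe, mem_filter, hmem, Set.mem_ofPred_eq]
    constructor
    · rintro ⟨⟨⟨a1, a2, a3⟩, a4⟩, a5⟩
      refine ⟨a1, ?_, by rw [← a5]⟩
      obtain ⟨k, hk⟩ := Int.eq_ofNat_of_zero_le a2.le
      have h5 := fourC_mul a1 hk
      have h6 : nm e.1 * nm e.2 = m ^ 2 + 1 := by
        rw [← hr, ← a5]
      have h7 : k ^ 2 = m ^ 2 := by omega
      have h8 : k = m := Nat.pow_left_injective (n := 2) (by norm_num) h7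
      rw [hk, h8]
    · rintro ⟨a1, a2, a3⟩
      have h5 := fourC_mul a1 a2
      have h6 : nm e.2 = r.2 := by
        have h7 : r.1 * nm e.2 = r.1 * r.2 := by rw [← a3, h5, a3, hr]
        have h8 : 0 < r.1 := by
          rcases Nat.eq_zero_or_pos r.1 with h | h
          · rw [h, zero_mul] at hr
            omega
          · exact h
        exact Nat.eq_of_mul_eq_mul_left h8 h7
      have h9 : (nm e.1, nm e.2) = r := by rw [a3, h6]
      refine ⟨⟨⟨a1, ?_, ?_⟩, ?_⟩, h9⟩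
      · rw [a2]; omega
      · rw [a2]; simpa using hmX
      · rw [h9]; exact hP
  -- the image of `F`
  have himg : {r : ℕ × ℕ | (∃ m : ℕ, 1 ≤ m ∧ (m : ℝ) ≤ X ∧ r.1 * r.2 = m ^ 2 + 1) ∧ P r} =
      ((F.image (fun e => (nm e.1, nm e.2)) : Finset (ℕ × ℕ)) : Set (ℕ × ℕ)) := by
    ext r
    rw [Finset.mem_coe, mem_image, Set.mem_ofPred_eq]
    constructor
    · rintro ⟨⟨m, hm, hmX, hr⟩, hP⟩
      have h4 := hfib r m hm hmX hr hP
      have h5 : (F.filter (fun e => (nm e.1, nm e.2) = r)).Nonempty := by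
        rw [← card_pos, h4]
        norm_num
      obtain ⟨e, he⟩ := h5
      rw [mem_filter] at he
      exact ⟨e, he.1, he.2⟩
    · rintro ⟨e, he, rfl⟩
      rw [hmem] at he
      obtain ⟨⟨a1, a2, a3⟩, a4⟩ := he
      obtain ⟨k, hk⟩ := Int.eq_ofNat_of_zero_le a2.le
      refine ⟨⟨k, ?_, ?_, fourC_mul a1 hk⟩, a4⟩
      · rw [hk] at a2
        omega
      · rw [hk] at a3
        simpa using a3
  rw [himg, Set.ncard_coe_finset, card_eq_sum_card_image (fun e : G × G => (nm e.1, nm e.2)) F]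
  have h4 : ∀ r ∈ F.image (fun e => (nm e.1, nm e.2)),
      (F.filter (fun e => (nm e.1, nm e.2) = r)).card = 4 := by
    intro r hr
    have hr' : r ∈ {r : ℕ × ℕ | (∃ m : ℕ, 1 ≤ m ∧ (m : ℝ) ≤ X ∧ r.1 * r.2 = m ^ 2 + 1) ∧ P r} := by
      rw [himg]
      exact hr
    obtain ⟨⟨m, hm, hmX, hr1⟩, hP⟩ := hr'
    exact hfib r m hm hmX hr1 hP
  rw [sum_congr rfl h4, sum_const, smul_eq_mul, mul_comm]

end Pool.Agent.OmEq

end

/-! ### from `Lib_MP_f1a94e_eq.Conv` -/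

section

/-!
# From edges to factorisations
-/

set_option autoImplicit false

namespace Pool.Agent.OmEq

open Finset Pool.Agent.GaussMR Pool.Agent.OmAll Filter

/-- the factorisations `d e = m ^ 2 + 1`, `1 ≤ m ≤ x`, `α ≤ e / d ≤ β`, with a further condition -/
def FS (α β x : ℝ) (P : ℕ × ℕ → Prop) : Set (ℕ × ℕ) :=
  {r | (∃ m : ℕ, 1 ≤ m ∧ (m : ℝ) ≤ x ∧ r.1 * r.2 = m ^ 2 + 1) ∧
    (α * r.1 ≤ r.2 ∧ (r.2 : ℝ) ≤ β * r.1) ∧ P r}

theorem log_cond {α β : ℝ} (hα : 0 < α) (hβ : 0 < β) {d e : ℕ} (hd : 0 < d) (he : 0 < e) :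
    (Real.log α ≤ Real.log e - Real.log d ∧ Real.log e - Real.log d ≤ Real.log β) ↔
      (α * d ≤ e ∧ (e : ℝ) ≤ β * d) := by
  have hd' : (0 : ℝ) < d := by exact_mod_cast hd
  have he' : (0 : ℝ) < e := by exact_mod_cast he
  constructor
  · rintro ⟨h1, h2⟩
    constructor
    · rw [← Real.log_le_log_iff (by positivity) he', Real.log_mul hα.ne' hd'.ne']
      linarith
    · rw [← Real.log_le_log_iff he' (by positivity), Real.log_mul hβ.ne' hd'.ne']
      linarith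
  · rintro ⟨h1, h2⟩
    have h3 := Real.log_le_log (by positivity) h1
    have h4 := Real.log_le_log he' h2
    rw [Real.log_mul hα.ne' hd'.ne'] at h3
    rw [Real.log_mul hβ.ne' hd'.ne'] at h4
    constructor <;> linarith

open Classical in
theorem card_conv (α β : ℝ) (hα : 0 < α) (hβ : 0 < β) (X : ℝ) (P : ℕ × ℕ → Prop) :
    ((EN 1 X).filter (fun e => (Real.log α ≤ tE e ∧ tE e ≤ Real.log β) ∧ P (nm e.1, nm e.2))).card =
      4 * (FS α β X P).ncard := by
  have h := four_count X (fun r => (α * (r.1 : ℝ) ≤ r.2 ∧ ((r.2 : ℕ) : ℝ) ≤ β * r.1) ∧ P r)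
  unfold FS
  rw [← h]
  congr 1
  ext e
  simp only [mem_filter]
  refine and_congr_right (fun he => ?_)
  have h1 := (mem_EN one_pos).1 he
  obtain ⟨⟨h2, h3, -, -⟩, -⟩ := h1
  have h4 := dot_sq_add_det_sq e.1 e.2
  rw [h2] at h4
  have h5 : (0 : ℤ) < (nm e.1 : ℤ) * nm e.2 := by
    rw [← h4]
    positivity
  have h6 : 0 < nm e.1 * nm e.2 := by exact_mod_cast h5
  have h7 : 0 < nm e.1 := Nat.pos_of_mul_pos_left h6 |> fun _ => Nat.pos_of_ne_zero (by
    rintro h0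
    rw [h0, zero_mul] at h6
    exact lt_irrefl _ h6)
  have h8 : 0 < nm e.2 := Nat.pos_of_ne_zero (by
    rintro h0
    rw [h0, mul_zero] at h6
    exact lt_irrefl _ h6)
  have h9 := log_cond hα hβ h7 h8
  unfold tE
  rw [h9]

end Pool.Agent.OmEq

end

/-! ### from `Lib_MP_f1a94e_aq.Tail` -/

section

/-!
# Piece TAIL: the number of pairs with `tt` in a unit interval
-/

set_option autoImplicit false

namespace Pool.Agent.OmAll

open Finset Pool.Agent.GaussMR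

namespace TailP

theorem smul_re (k : ℤ) (V : G) : ((k : G) * V).re = k * V.re := by simp

theorem smul_im (k : ℤ) (V : G) : ((k : G) * V).im = k * V.im := by simp

/-- two second vectors of edges with the same first vector differ by a multiple of it -/
theorem diff_mul {V W W' : G} (h : det V W = 1) (h' : det V W' = 1) : ∃ k : ℤ, W' = W + (k : G) * V := by
  unfold det at h h'
  refine ⟨(W'.re - W.re) * W.im - (W'.im - W.im) * W.re, ?_⟩
  apply Zsqrtd.ext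
  · rw [Zsqrtd.re_add, smul_re]
    linear_combination (-(W'.re - W.re)) * h + W.re * (h' - h)
  · rw [Zsqrtd.im_add, smul_im]
    linear_combination (-(W'.im - W.im)) * h + W.im * (h' - h)

theorem dot_add_mul (V W : G) (k : ℤ) : dot V (W + (k : G) * V) = dot V W + k * nm V := by
  rw [nm_eq]
  unfold dot
  rw [Zsqrtd.re_add, Zsqrtd.im_add, smul_re, smul_im]
  ring

/-- the edges with given first vector are contained in a small finite set -/
theorem edges_sub (V : G) (a b : ℝ) (hab : a ≤ b) :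
    ∃ s : Finset G, {V' : G | det V V' = 1 ∧ a ≤ ((dot V V' : ℤ) : ℝ) ∧ ((dot V V' : ℤ) : ℝ) ≤ b} ⊆ s ∧
      (s.card : ℝ) ≤ (b - a) / nm V + 1 := by
  classical
  have h0 : (0 : ℝ) ≤ (b - a) / nm V + 1 := by
    have : (0 : ℝ) ≤ (b - a) / nm V := div_nonneg (by linarith) (Nat.cast_nonneg _)
    linarith
  by_cases hne : {V' : G | det V V' = 1 ∧ a ≤ ((dot V V' : ℤ) : ℝ) ∧ ((dot V V' : ℤ) : ℝ) ≤ b}.Nonempty
  · obtain ⟨W, hW, _, _⟩ := hne
    have hV : V ≠ 0 := by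
      rintro rfl
      unfold det at hW
      simp at hW
    have hn : (0 : ℝ) < nm V := by exact_mod_cast nm_pos hV
    set n : ℝ := (nm V : ℝ) with hndef
    set d : ℝ := ((dot V W : ℤ) : ℝ) with hd
    refine ⟨(Icc ⌈(a - d) / n⌉ ⌊(b - d) / n⌋).image (fun k : ℤ => W + (k : G) * V), ?_, ?_⟩
    · rintro W' ⟨h1, h2, h3⟩
      obtain ⟨k, rfl⟩ := diff_mul hW h1
      rw [dot_add_mul] at h2 h3
      push_cast at h2 h3
      rw [Finset.mem_coe, mem_image]
      refine ⟨k, ?_, rfl⟩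
      rw [mem_Icc]
      constructor
      · rw [Int.ceil_le, div_le_iff₀ hn]
        linarith
      · rw [Int.le_floor, le_div_iff₀ hn]
        linarith
    · refine le_trans (Nat.cast_le.2 card_image_le) ?_
      rw [Int.card_Icc]
      rcases le_or_gt (⌊(b - d) / n⌋ + 1 - ⌈(a - d) / n⌉) 0 with h | h
      · rw [Int.toNat_of_nonpos h]
        simpa using h0
      · have h5 : (((⌊(b - d) / n⌋ + 1 - ⌈(a - d) / n⌉).toNat : ℕ) : ℝ) =
            ((⌊(b - d) / n⌋ + 1 - ⌈(a - d) / n⌉ : ℤ) : ℝ) := by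
          have := Int.toNat_of_nonneg h.le
          exact_mod_cast this
        rw [h5]
        push_cast
        have h6 := Int.floor_le ((b - d) / n)
        have h7 := Int.le_ceil ((a - d) / n)
        have h8 : (b - a) / n = (b - d) / n - (a - d) / n := by ring
        rw [h8]
        linarith
  · rw [Set.not_nonempty_iff_eq_empty] at hne
    rw [hne]
    exact ⟨∅, Set.empty_subset _, by simpa using h0⟩

/-- nonzero vectors of norm at most `R` -/
theorem ball_sub (R : ℝ) (hR : 0 ≤ R) :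
    ∃ s : Finset G, (∀ z : G, z ≠ 0 → (nm z : ℝ) ≤ R → z ∈ s) ∧ (∀ z ∈ s, z ≠ 0) ∧ (s.card : ℝ) ≤ 9 * R := by
  classical
  rcases lt_or_ge R 1 with h1 | h1
  · refine ⟨∅, ?_, by simp, by simpa using hR⟩
    intro z hz hzR
    exfalso
    have : (1 : ℝ) ≤ nm z := by exact_mod_cast nm_pos hz
    linarith
  · set s : ℤ := ⌊Real.sqrt R⌋ with hs
    have hs1 : 1 ≤ s := by
      rw [hs, Int.le_floor]
      push_cast
      rw [Real.one_le_sqrt]
      exact h1
    have hs2 : (s : ℝ) ^ 2 ≤ R := by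
      have h2 : (s : ℝ) ≤ Real.sqrt R := Int.floor_le _
      have h3 : (0 : ℝ) ≤ s := by exact_mod_cast (by omega : (0 : ℤ) ≤ s)
      calc (s : ℝ) ^ 2 ≤ (Real.sqrt R) ^ 2 := pow_le_pow_left₀ h3 h2 2
        _ = R := Real.sq_sqrt hR
    refine ⟨((Icc (-s) s ×ˢ Icc (-s) s).image (fun w : ℤ × ℤ => (⟨w.1, w.2⟩ : G))).filter (fun z => z ≠ 0),
      ?_, fun z hz => (mem_filter.1 hz).2, ?_⟩
    · intro z hz hzR
      rw [mem_filter]
      refine ⟨?_, hz⟩
      rw [mem_image]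
      refine ⟨(z.re, z.im), ?_, rfl⟩
      have h4 : ((z.re : ℤ) : ℝ) ^ 2 + ((z.im : ℤ) : ℝ) ^ 2 ≤ R := by
        have h5 : ((nm z : ℤ) : ℝ) = ((z.re ^ 2 + z.im ^ 2 : ℤ) : ℝ) := by rw [nm_eq]
        push_cast at h5
        rw [← h5]
        exact hzR
      have key : ∀ t : ℤ, (t : ℝ) ^ 2 ≤ R → -s ≤ t ∧ t ≤ s := by
        intro t ht
        have h6 := Real.abs_le_sqrt ht
        rw [abs_le] at h6
        constructor
        · have : -t ≤ s := by
            rw [hs, Int.le_floor]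
            push_cast
            linarith [h6.1]
          linarith
        · rw [hs, Int.le_floor]
          exact h6.2
      rw [mem_product, mem_Icc, mem_Icc]
      exact ⟨key _ (by nlinarith [sq_nonneg ((z.im : ℤ) : ℝ)]), key _ (by nlinarith [sq_nonneg ((z.re : ℤ) : ℝ)])⟩
    · refine le_trans (Nat.cast_le.2 ((card_filter_le _ _).trans card_image_le)) ?_
      rw [card_product, Int.card_Icc]
      have h5 : (((s + 1 - -s).toNat : ℕ) : ℝ) = 2 * (s : ℝ) + 1 := by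
        have h6 : (((s + 1 - -s).toNat : ℕ) : ℤ) = s + 1 - -s := Int.toNat_of_nonneg (by omega)
        have h7 : (((s + 1 - -s).toNat : ℕ) : ℝ) = ((s + 1 - -s : ℤ) : ℝ) := by exact_mod_cast h6
        rw [h7]
        push_cast
        ring
      push_cast
      rw [h5]
      have h6 : (1 : ℝ) ≤ s := by exact_mod_cast hs1
      nlinarith

/-- the pairs and the exponential of `tt` -/
theorem tt_le {x : ℝ} {r : ℕ × ℕ} (hr : r ∈ pd x) (A : ℝ) :
    (A ≤ tt r → (r.2 : ℝ) * Real.exp (A / 2) ≤ r.1 + 1) ∧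
      (tt r ≤ A → (r.1 : ℝ) ≤ r.2 * Real.exp (A / 2)) := by
  rw [mem_pd] at hr
  obtain ⟨h1, h2, h3, h4⟩ := hr
  have hd : 0 < r.2 := Nat.pos_of_dvd_of_pos h4 (by positivity)
  have hd' : (0 : ℝ) < r.2 := by exact_mod_cast hd
  have hm : (0 : ℝ) ≤ r.1 := Nat.cast_nonneg _
  have he := Real.exp_pos (A / 2)
  have hlog : Real.log (((r.2 : ℝ) * Real.exp (A / 2)) ^ 2) = A + 2 * Real.log r.2 := by
    rw [Real.log_pow, Real.log_mul hd'.ne' he.ne', Real.log_exp]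
    push_cast
    ring
  have hp : (0 : ℝ) < (r.1 : ℝ) ^ 2 + 1 := by positivity
  have hp2 : (0 : ℝ) < ((r.2 : ℝ) * Real.exp (A / 2)) ^ 2 := by positivity
  unfold tt
  constructor
  · intro h
    have h5 : Real.log (((r.2 : ℝ) * Real.exp (A / 2)) ^ 2) ≤ Real.log ((r.1 : ℝ) ^ 2 + 1) := by
      rw [hlog]
      linarith
    have h6 := (Real.log_le_log_iff hp2 hp).1 h5
    nlinarith [mul_pos hd' he]
  · intro h
    have h5 : Real.log ((r.1 : ℝ) ^ 2 + 1) ≤ Real.log (((r.2 : ℝ) * Real.exp (A / 2)) ^ 2) := by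
      rw [hlog]
      linarith
    have h6 := (Real.log_le_log_iff hp hp2).1 h5
    nlinarith [mul_pos hd' he]

theorem tt_symm {m d e : ℕ} (hd : 0 < d) (he : 0 < e) (h : d * e = m ^ 2 + 1) :
    tt (m, e) = - tt (m, d) := by
  have hd' : (0 : ℝ) < d := by exact_mod_cast hd
  have he' : (0 : ℝ) < e := by exact_mod_cast he
  have h1 : ((m : ℝ) ^ 2 + 1) = d * e := by exact_mod_cast h.symm
  unfold tt
  simp only
  rw [h1, Real.log_mul hd'.ne' he'.ne']
  ring

theorem tail0 (x : ℝ) (hx : 1 ≤ x) (A : ℝ) (hA : -1 ≤ A) :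
    {r : ℕ × ℕ | r ∈ pd x ∧ A ≤ tt r ∧ tt r ≤ A + 1}.Finite ∧
    ({r : ℕ × ℕ | r ∈ pd x ∧ A ≤ tt r ∧ tt r ≤ A + 1}.ncard : ℝ) ≤ 90 * x := by
  classical
  set E := Real.exp (A / 2) with hE
  have hE0 : 0 < E := Real.exp_pos _
  have hE2 : Real.exp (1 / 2) ≤ 2 := by
    have h1 : Real.exp (1 / 2) ^ 2 = Real.exp 1 := by
      rw [← Real.exp_nat_mul]
      norm_num
    have h2 := Real.exp_one_lt_d9
    have h3 := Real.exp_pos (1 / 2)
    nlinarith
  have hE1 : 1 ≤ 2 * E := by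
    have h1 : Real.exp (A / 2) * Real.exp (1 / 2) = Real.exp (A / 2 + 1 / 2) := (Real.exp_add _ _).symm
    have h2 : 1 ≤ Real.exp (A / 2 + 1 / 2) := Real.one_le_exp (by linarith)
    rw [← h1] at h2
    nlinarith
  have hE3 : Real.exp ((A + 1) / 2) ≤ 2 * E := by
    rw [show (A + 1) / 2 = A / 2 + 1 / 2 by ring, Real.exp_add]
    nlinarith
  have hE4 : E ≤ Real.exp ((A + 1) / 2) := Real.exp_le_exp.2 (by linarith)
  set E' := Real.exp ((A + 1) / 2) with hE'
  obtain ⟨B, hB1, hB2, hB3⟩ := ball_sub ((x + 1) / E) (by positivity)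
  have hex : ∀ V : G, ∃ s : Finset G, {V' : G | det V V' = 1 ∧ (nm V : ℝ) * E - 1 ≤ ((dot V V' : ℤ) : ℝ) ∧
      ((dot V V' : ℤ) : ℝ) ≤ (nm V : ℝ) * E'} ⊆ s ∧
      (s.card : ℝ) ≤ ((nm V : ℝ) * E' - ((nm V : ℝ) * E - 1)) / nm V + 1 := by
    intro V
    apply edges_sub
    have : (nm V : ℝ) * E ≤ (nm V : ℝ) * E' := mul_le_mul_of_nonneg_left hE4 (Nat.cast_nonneg _)
    linarith
  choose F hF1 hF2 using hex
  set P : Finset (ℕ × ℕ) := B.biUnion (fun V => (F V).image (fun V' => ((dot V V').toNat, nm V))) with hP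
  have hsub : {r : ℕ × ℕ | r ∈ pd x ∧ A ≤ tt r ∧ tt r ≤ A + 1} ⊆ (P : Set (ℕ × ℕ)) := by
    rintro ⟨m, d⟩ ⟨hr, h1, h2⟩
    obtain ⟨h3, _⟩ := tt_le hr A
    obtain ⟨_, h4⟩ := tt_le hr (A + 1)
    have h5 := h3 h1
    have h6 := h4 h2
    rw [mem_pd] at hr
    obtain ⟨h7, h8, _, e, he⟩ := hr
    simp only at h5 h6 h7 h8 he
    obtain ⟨V, V', h9, h10, h11, _⟩ := exists_edge m d e he.symm
    have hV : V ≠ 0 := by
      rintro rfl
      unfold det at h9
      simp at h9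
    rw [Finset.mem_coe, hP, mem_biUnion]
    refine ⟨V, hB1 V hV ?_, ?_⟩
    · rw [le_div_iff₀ hE0, h11]
      linarith
    · rw [mem_image]
      refine ⟨V', ?_, ?_⟩
      · have h12 : V' ∈ {V' : G | det V V' = 1 ∧ (nm V : ℝ) * E - 1 ≤ ((dot V V' : ℤ) : ℝ) ∧
            ((dot V V' : ℤ) : ℝ) ≤ (nm V : ℝ) * E'} := by
          refine ⟨h9, ?_, ?_⟩
          · rw [h10, h11]
            push_cast
            linarith
          · rw [h10, h11]
            push_cast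
            exact h6
        exact hF1 V h12
      · rw [h10, h11]
        rfl
  refine ⟨(P.finite_toSet).subset hsub, ?_⟩
  have h1 : {r : ℕ × ℕ | r ∈ pd x ∧ A ≤ tt r ∧ tt r ≤ A + 1}.ncard ≤ P.card := by
    have := Set.ncard_le_ncard hsub P.finite_toSet
    rwa [Set.ncard_coe_finset] at this
  have h2 : (P.card : ℝ) ≤ B.card * (5 * E) := by
    have h3 : P.card ≤ ∑ V ∈ B, (F V).card :=
      card_biUnion_le.trans (Finset.sum_le_sum (fun V _ => card_image_le))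
    calc (P.card : ℝ) ≤ ((∑ V ∈ B, (F V).card : ℕ) : ℝ) := by exact_mod_cast h3
      _ = ∑ V ∈ B, ((F V).card : ℝ) := by push_cast; rfl
      _ ≤ ∑ V ∈ B, (5 * E) := by
          refine Finset.sum_le_sum (fun V hV => (hF2 V).trans ?_)
          have hn : (1 : ℝ) ≤ nm V := by exact_mod_cast nm_pos (hB2 V hV)
          have h4 : ((nm V : ℝ) * E' - ((nm V : ℝ) * E - 1)) / nm V = E' - E + 1 / nm V := by
            field_simp
            ring
          rw [h4]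
          have h5 : (1 : ℝ) / nm V ≤ 1 := by
            rw [div_le_one (by linarith)]
            exact hn
          linarith
      _ = B.card * (5 * E) := by rw [sum_const, nsmul_eq_mul]
  calc _ ≤ (P.card : ℝ) := by exact_mod_cast h1
    _ ≤ B.card * (5 * E) := h2
    _ ≤ 9 * ((x + 1) / E) * (5 * E) := by gcongr
    _ = 45 * (x + 1) := by field_simp; ring
    _ ≤ 90 * x := by linarith

end TailP

/-- The number of edges for given first vector: `star V V' = m + i`, so `m` determines `V' = V (m + i) / nm V`, and two values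
of `m` for the same `V` differ by a multiple of `nm V` (`V' - V''` is a multiple of `V` because `det (V, V' - V'') = 0` and
`V` is primitive, and `dot (V, k V) = k nm V`). So `m` in an interval `[a, b]` gives at most `(b - a) / nm V + 1` edges. -/
theorem edges_fixed (V : G) (a b : ℝ) (hab : a ≤ b) :
    ({V' : G | det V V' = 1 ∧ a ≤ ((dot V V' : ℤ) : ℝ) ∧ ((dot V V' : ℤ) : ℝ) ≤ b}.ncard : ℝ) ≤
      (b - a) / nm V + 1 := by
  obtain ⟨s, h1, h2⟩ := TailP.edges_sub V a b hab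
  refine le_trans ?_ h2
  have := Set.ncard_le_ncard h1 s.finite_toSet
  rw [Set.ncard_coe_finset] at this
  exact_mod_cast this

/-- By symmetry (`(m, d) ↦ (m, (m^2+1)/d)` changes the sign of `tt`) one may assume the interval to be `[A, A + 1)` with `A ≥ -1`; say
`A ≥ 0` or `-1 ≤ A < 0` (treat `[-1, 1]` together if convenient). For `r = (m, d)` take the edge `(V, V')` from `exists_edge`, `nm V = d`,
`m^2 + 1 = d^2 exp (tt r)`. So `d ≤ (x + 1) exp (-A/2)` and `m` is in an interval of length `≤ C exp(A/2) d` (`m + 1 ≥ sqrt (m^2+1) ≥ d exp(A/2)`,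
`m ≤ d exp((A+1)/2)`). The number of `V` is at most `9 (x + 1) exp (-A/2)` (`ball_le`-type bound; no `V` at all if this is small as `nm V ≥ 1`), each gives at most
`C exp (A/2) + 1 ≤ C' exp (A/2)` edges (`edges_fixed`). Total `≤ C'' (x + 1)`. -/
theorem tail : ∃ C : ℝ, 0 < C ∧ ∀ x : ℝ, 1 ≤ x → ∀ A : ℝ,
    ({r : ℕ × ℕ | r ∈ pd x ∧ A ≤ tt r ∧ tt r < A + 1}.ncard : ℝ) ≤ C * x := by
  refine ⟨90, by norm_num, fun x hx A => ?_⟩
  rcases le_or_gt (-1) A with hA | hA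
  · obtain ⟨h1, h2⟩ := TailP.tail0 x hx A hA
    refine le_trans ?_ h2
    have h3 : {r : ℕ × ℕ | r ∈ pd x ∧ A ≤ tt r ∧ tt r < A + 1} ⊆
        {r : ℕ × ℕ | r ∈ pd x ∧ A ≤ tt r ∧ tt r ≤ A + 1} := fun r hr => ⟨hr.1, hr.2.1, hr.2.2.le⟩
    exact_mod_cast Set.ncard_le_ncard h3 h1
  · obtain ⟨h1, h2⟩ := TailP.tail0 x hx (-A - 1) (by linarith)
    refine le_trans ?_ h2
    have key : ∀ r : ℕ × ℕ, r ∈ pd x → 0 < r.2 ∧ 0 < (r.1 ^ 2 + 1) / r.2 ∧
        r.2 * ((r.1 ^ 2 + 1) / r.2) = r.1 ^ 2 + 1 := by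
      intro r hr
      rw [mem_pd] at hr
      have h3 : 0 < r.2 := Nat.pos_of_dvd_of_pos hr.2.2.2 (by positivity)
      refine ⟨h3, Nat.div_pos (Nat.le_of_dvd (by positivity) hr.2.2.2) h3, Nat.mul_div_cancel' hr.2.2.2⟩
    exact_mod_cast Set.ncard_le_ncard_of_injOn (fun r : ℕ × ℕ => (r.1, (r.1 ^ 2 + 1) / r.2))
      (by
        rintro ⟨m, d⟩ ⟨hr, h3, h4⟩
        obtain ⟨h5, h6, h7⟩ := key _ hr
        simp only at h5 h6 h7
        have h8 := TailP.tt_symm h5 h6 h7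
        refine ⟨?_, ?_, ?_⟩
        · rw [mem_pd] at hr ⊢
          exact ⟨hr.1, hr.2.1, hr.2.2.1, Dvd.intro_left _ h7⟩
        · simp only
          rw [h8]
          linarith
        · simp only
          rw [h8]
          linarith)
      (by
        rintro ⟨m, d⟩ ⟨hr, _⟩ ⟨m', d'⟩ ⟨hr', _⟩ h
        obtain ⟨h5, h6, h7⟩ := key _ hr
        obtain ⟨h5', h6', h7'⟩ := key _ hr'
        simp only [Prod.mk.injEq] at h h5 h6 h7 h5' h6' h7'
        obtain ⟨rfl, h⟩ := h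
        rw [← h] at h7'
        have h9 : d * ((m ^ 2 + 1) / d) = d' * ((m ^ 2 + 1) / d) := h7.trans h7'.symm
        rw [Nat.eq_of_mul_eq_mul_right h6 h9])
      h1

end Pool.Agent.OmAll

end

/-! ### from `Lib_MP_f1a94e_eq.Cnt` -/

section

/-!
# Piece CNT: upper bounds for the number of pairs
-/

set_option autoImplicit false

namespace Pool.Agent.OmEq

open Finset Pool.Agent.GaussMR Pool.Agent.OmAll

/-- two second vectors of pairs with the same first vector and determinant differ by a multiple of it -/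
theorem cnt_diff {V W W' : G} {n : ℤ} (hV : Prim V) (h : det V W = n) (h' : det V W' = n) :
    ∃ k : ℤ, W' = W + (k : G) * V := by
  unfold det at h h'
  obtain ⟨a, b, hab⟩ := hV
  refine ⟨a * (W'.re - W.re) + b * (W'.im - W.im), ?_⟩
  apply Zsqrtd.ext
  · rw [Zsqrtd.re_add, TailP.smul_re]
    linear_combination (-(W'.re - W.re)) * hab + b * (h - h')
  · rw [Zsqrtd.im_add, TailP.smul_im]
    linear_combination (-(W'.im - W.im)) * hab + a * (h' - h)

theorem cnt_sub (V : G) (hV : Prim V) (n : ℤ) (a b : ℝ) (hab : a ≤ b) :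
    ∃ s : Finset G, {V' : G | det V V' = n ∧ a ≤ ((dot V V' : ℤ) : ℝ) ∧ ((dot V V' : ℤ) : ℝ) ≤ b} ⊆ s ∧
      (s.card : ℝ) ≤ (b - a) / nm V + 1 := by
  classical
  have h0 : (0 : ℝ) ≤ (b - a) / nm V + 1 := by
    have : (0 : ℝ) ≤ (b - a) / nm V := div_nonneg (by linarith) (Nat.cast_nonneg _)
    linarith
  by_cases hne : {V' : G | det V V' = n ∧ a ≤ ((dot V V' : ℤ) : ℝ) ∧ ((dot V V' : ℤ) : ℝ) ≤ b}.Nonempty
  · obtain ⟨W, hW, _, _⟩ := hne
    have hV0 : V ≠ 0 := by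
      rintro rfl
      obtain ⟨u, v, huv⟩ := hV
      simp at huv
    have hn : (0 : ℝ) < nm V := by exact_mod_cast nm_pos hV0
    set N : ℝ := (nm V : ℝ) with hndef
    set d : ℝ := ((dot V W : ℤ) : ℝ) with hd
    refine ⟨(Icc ⌈(a - d) / N⌉ ⌊(b - d) / N⌋).image (fun k : ℤ => W + (k : G) * V), ?_, ?_⟩
    · rintro W' ⟨h1, h2, h3⟩
      obtain ⟨k, rfl⟩ := cnt_diff hV hW h1
      rw [TailP.dot_add_mul] at h2 h3
      push_cast at h2 h3
      rw [Finset.mem_coe, mem_image]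
      refine ⟨k, ?_, rfl⟩
      rw [mem_Icc]
      constructor
      · rw [Int.ceil_le, div_le_iff₀ hn]
        linarith
      · rw [Int.le_floor, le_div_iff₀ hn]
        linarith
    · refine le_trans (Nat.cast_le.2 card_image_le) ?_
      rw [Int.card_Icc]
      rcases le_or_gt (⌊(b - d) / N⌋ + 1 - ⌈(a - d) / N⌉) 0 with h | h
      · rw [Int.toNat_of_nonpos h]
        simpa using h0
      · have h5 : (((⌊(b - d) / N⌋ + 1 - ⌈(a - d) / N⌉).toNat : ℕ) : ℝ) =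
            ((⌊(b - d) / N⌋ + 1 - ⌈(a - d) / N⌉ : ℤ) : ℝ) := by
          have := Int.toNat_of_nonneg h.le
          exact_mod_cast this
        rw [h5]
        push_cast
        have h6 := Int.floor_le ((b - d) / N)
        have h7 := Int.le_ceil ((a - d) / N)
        have h8 : (b - a) / N = (b - d) / N - (a - d) / N := by ring
        rw [h8]
        linarith
  · rw [Set.not_nonempty_iff_eq_empty] at hne
    rw [hne]
    exact ⟨∅, Set.empty_subset _, by simpa using h0⟩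

/-- PROOF. As `edges_sub` / `edges_fixed` in `Lib_MP_f1a94e_aq/Tail.lean`: two solutions differ by an integer multiple of `V` (`V` primitive, `det V (W' - W) = 0`), and
`dot V (W + k V) = dot V W + k nm V`. -/
theorem line_count (V : G) (hV : Prim V) (n : ℤ) (a b : ℝ) (hab : a ≤ b) :
    {V' : G | det V V' = n ∧ a ≤ ((dot V V' : ℤ) : ℝ) ∧ ((dot V V' : ℤ) : ℝ) ≤ b}.Finite ∧
      ({V' : G | det V V' = n ∧ a ≤ ((dot V V' : ℤ) : ℝ) ∧ ((dot V V' : ℤ) : ℝ) ≤ b}.ncard : ℝ) ≤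
        (b - a) / nm V + 1 := by
  obtain ⟨s, h1, h2⟩ := cnt_sub V hV n a b hab
  refine ⟨s.finite_toSet.subset h1, le_trans ?_ h2⟩
  have := Set.ncard_le_ncard h1 s.finite_toSet
  rw [Set.ncard_coe_finset] at this
  exact_mod_cast this

open Classical in
/-- PROOF. `nm e.1 * nm e.2 = dot ^ 2 + n ^ 2 ≤ 2 x ^ 2` and `nm e.1 ≤ exp B * nm e.2`, so `nm e.1 ≤ 2 exp (B/2) x` (B may be negative: then use `|B|`, or the set is empty). `e.1 ≠ 0` lies in a
finite set with at most `18 exp (B/2) x` elements (`ball_sub`). For given `V = e.1`: `dot ≤ ‖V‖ ‖V'‖ ≤ exp (B/2) nm V` (`dot ^ 2 ≤ nm V nm V' ≤ exp B (nm V)^2`), so by `line_count`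
with `a = 0`, `b = exp (B/2) nm V` at most `exp (B/2) + 1` possibilities for `V'`. -/
theorem cnt (B : ℝ) : ∃ C : ℝ, 0 < C ∧ ∀ n : ℕ, 0 < n → ∀ x : ℝ, (n : ℝ) ≤ x →
    (((EN n x).filter (fun e => |tE e| ≤ B)).card : ℝ) ≤ C * x := by
  set E : ℝ := Real.exp (|B| / 2) with hE
  have hE0 : 0 < E := Real.exp_pos _
  have hEE : Real.exp |B| = E ^ 2 := by
    rw [hE, ← Real.exp_nat_mul]
    congr 1
    push_cast
    ring
  refine ⟨18 * E * (E + 1), by positivity, ?_⟩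
  intro n hn x hx
  have hn' : (1 : ℝ) ≤ n := by exact_mod_cast hn
  have hx0 : 0 < x := by linarith
  obtain ⟨S, hS1, hS2, hS3⟩ := TailP.ball_sub (2 * E * x) (by positivity)
  have hex : ∀ V : G, ∃ s : Finset G, Prim V → ({V' : G | det V V' = (n : ℤ) ∧ (0 : ℝ) ≤ ((dot V V' : ℤ) : ℝ) ∧
      ((dot V V' : ℤ) : ℝ) ≤ E * nm V} ⊆ s ∧ (s.card : ℝ) ≤ (E * nm V - 0) / nm V + 1) := by
    intro V
    by_cases hV : Prim V
    · obtain ⟨s, hs⟩ := cnt_sub V hV n 0 (E * nm V) (by positivity)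
      exact ⟨s, fun _ => hs⟩
    · exact ⟨∅, fun h => absurd h hV⟩
  choose F hF using hex
  have hsub : (EN n x).filter (fun e => |tE e| ≤ B) ⊆
      (S.filter (fun V => Prim V)).biUnion (fun V => (F V).image (fun V' => (V, V'))) := by
    intro e he
    rw [mem_filter, mem_EN hn] at he
    obtain ⟨⟨h1, h2⟩, h3⟩ := he
    have h4 := dot_sq_add_det_sq e.1 e.2
    rw [h1.1] at h4
    have h4' : ((dot e.1 e.2 : ℤ) : ℝ) ^ 2 + (n : ℝ) ^ 2 = (nm e.1 : ℝ) * nm e.2 := by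
      exact_mod_cast h4
    have h5 : (0 : ℝ) < ((dot e.1 e.2 : ℤ) : ℝ) := by exact_mod_cast h1.2.1
    have h6 : ((dot e.1 e.2 : ℤ) : ℝ) ≤ x := h2
    have h7 : (0 : ℝ) < (nm e.1 : ℝ) * nm e.2 := by
      rw [← h4']
      positivity
    have h8 : (0 : ℝ) < nm e.1 := by
      rcases (Nat.cast_nonneg (α := ℝ) (nm e.1)).lt_or_eq with h | h
      · exact h
      · rw [← h, zero_mul] at h7
        exact absurd h7 (lt_irrefl _)
    have h9 : (0 : ℝ) < nm e.2 := by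
      rcases (Nat.cast_nonneg (α := ℝ) (nm e.2)).lt_or_eq with h | h
      · exact h
      · rw [← h, mul_zero] at h7
        exact absurd h7 (lt_irrefl _)
    have h10 : |tE e| ≤ |B| := h3.trans (le_abs_self B)
    rw [abs_le] at h10
    unfold tE at h10
    have h11 : (nm e.2 : ℝ) ≤ E ^ 2 * nm e.1 := by
      rw [← hEE, ← Real.log_le_log_iff h9 (by positivity), Real.log_mul (Real.exp_pos _).ne' h8.ne',
        Real.log_exp]
      linarith [h10.2]
    have h12 : (nm e.1 : ℝ) ≤ E ^ 2 * nm e.2 := by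
      rw [← hEE, ← Real.log_le_log_iff h8 (by positivity), Real.log_mul (Real.exp_pos _).ne' h9.ne',
        Real.log_exp]
      linarith [h10.1]
    have h13 : (nm e.1 : ℝ) ≤ 2 * E * x := by
      have h14 : ((dot e.1 e.2 : ℤ) : ℝ) ^ 2 ≤ x ^ 2 := pow_le_pow_left₀ h5.le h6 2
      have h15 : (n : ℝ) ^ 2 ≤ x ^ 2 := pow_le_pow_left₀ (by linarith) hx 2
      have h16 : (nm e.1 : ℝ) ^ 2 ≤ (2 * E * x) ^ 2 := by
        calc (nm e.1 : ℝ) ^ 2 = nm e.1 * nm e.1 := sq _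
          _ ≤ nm e.1 * (E ^ 2 * nm e.2) := mul_le_mul_of_nonneg_left h12 h8.le
          _ = E ^ 2 * (nm e.1 * nm e.2) := by ring
          _ ≤ E ^ 2 * (2 * x ^ 2) := by
              apply mul_le_mul_of_nonneg_left _ (by positivity)
              rw [← h4']
              linarith
          _ ≤ (2 * E * x) ^ 2 := by nlinarith [mul_pos hE0 hx0, sq_nonneg (E * x)]
      exact le_of_sq_le_sq h16 (by positivity)
    have h17 : ((dot e.1 e.2 : ℤ) : ℝ) ≤ E * nm e.1 := by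
      have h18 : ((dot e.1 e.2 : ℤ) : ℝ) ^ 2 ≤ (E * nm e.1) ^ 2 := by
        calc ((dot e.1 e.2 : ℤ) : ℝ) ^ 2 ≤ (nm e.1 : ℝ) * nm e.2 := by
              rw [← h4']
              nlinarith
          _ ≤ nm e.1 * (E ^ 2 * nm e.1) := mul_le_mul_of_nonneg_left h11 h8.le
          _ = (E * nm e.1) ^ 2 := by ring
      exact le_of_sq_le_sq h18 (by positivity)
    rw [mem_biUnion]
    refine ⟨e.1, ?_, ?_⟩
    · rw [mem_filter]
      refine ⟨hS1 e.1 ?_ h13, h1.2.2.1⟩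
      intro h0
      have : nm e.1 = 0 := by
        rw [h0]
        rfl
      rw [this] at h8
      simp at h8
    · rw [mem_image]
      refine ⟨e.2, ?_, rfl⟩
      have h19 : e.2 ∈ {V' : G | det e.1 V' = (n : ℤ) ∧ (0 : ℝ) ≤ ((dot e.1 V' : ℤ) : ℝ) ∧
        ((dot e.1 V' : ℤ) : ℝ) ≤ E * nm e.1} := ⟨h1.1, h5.le, h17⟩
      exact (hF e.1 h1.2.2.1).1 h19
  have h3 : (((EN n x).filter (fun e => |tE e| ≤ B)).card : ℝ) ≤
      ((∑ V ∈ S.filter (fun V => Prim V), (F V).card : ℕ) : ℝ) := by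
    exact_mod_cast (card_le_card hsub).trans
      (card_biUnion_le.trans (Finset.sum_le_sum (fun V _ => card_image_le)))
  calc (((EN n x).filter (fun e => |tE e| ≤ B)).card : ℝ) ≤
      ((∑ V ∈ S.filter (fun V => Prim V), (F V).card : ℕ) : ℝ) := h3
    _ = ∑ V ∈ S.filter (fun V => Prim V), ((F V).card : ℝ) := by push_cast; rfl
    _ ≤ ∑ V ∈ S.filter (fun V => Prim V), (E + 1) := by
        refine Finset.sum_le_sum (fun V hV => ?_)
        rw [mem_filter] at hV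
        refine ((hF V hV.2).2).trans ?_
        have hnv : (0 : ℝ) < nm V := by exact_mod_cast nm_pos (hS2 V hV.1)
        rw [sub_zero, mul_div_assoc, div_self hnv.ne', mul_one]
    _ = (S.filter (fun V => Prim V)).card * (E + 1) := by rw [sum_const, nsmul_eq_mul]
    _ ≤ S.card * (E + 1) := by
        apply mul_le_mul_of_nonneg_right _ (by linarith)
        exact_mod_cast card_filter_le _ _
    _ ≤ (9 * (2 * E * x)) * (E + 1) := mul_le_mul_of_nonneg_right hS3 (by linarith)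
    _ = 18 * E * (E + 1) * x := by ring

end Pool.Agent.OmEq

end

/-! ### from `Lib_MP_f1a94e_eq.CS` -/

section

/-!
# Piece CS: Cauchy-Schwarz over unbalanced edges
-/

set_option autoImplicit false

namespace Pool.Agent.OmEq

open Finset Pool.Agent.GaussMR Pool.Agent.OmAll

/-- triangle on `[J, J + N]` -/
noncomputable def rho (J N : ℕ) (r : ℝ) : ℝ := max 0 (1 - |2 * (r - J) / N - 1|)

/-- the norm of `A = (V - V') / n` -/
noncomputable def aN (n : ℕ) (e : G × G) : ℝ := ((nm e.1 : ℝ) + nm e.2 - 2 * mE e) / (n : ℝ) ^ 2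

/-- the weight of a pair of determinant `n` -/
noncomputable def wN (h : ℝ → ℝ) (J N n : ℕ) (X : ℝ) (e : G × G) : ℝ :=
  h (aN n e / X) ^ 2 * rho J N ((nm e.1 - mE e) / (n * aN n e)) * rho J N ((mE e - nm e.2) / (n * aN n e))

open Classical in
/-- the correlations of determinant `n` -/
noncomputable def Gm (f : ℕ → ℂ) (h : ℝ → ℝ) (J N n : ℕ) (x X : ℝ) : ℂ :=
  ∑ e ∈ (EN n x).filter (fun e => cg n e.2 e.1), f (nm e.1) * (starRingEnd ℂ) (f (nm e.2)) * (wN h J N n X e : ℂ)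

/-- the sum over unbalanced edges -/
noncomputable def SX (f : ℕ → ℂ) (h : ℝ → ℝ) (J N : ℕ) (x X : ℝ) : ℂ :=
  ∑ e ∈ EN 1 x, f (nm e.1) * f (nm e.2) * ((h (nm e.1 / X) * rho J N (mE e / nm e.1) : ℝ) : ℂ)

theorem csN_rho_nonneg (J N : ℕ) (r : ℝ) : 0 ≤ rho J N r := le_max_left _ _

theorem csN_rho_le (J N : ℕ) (r : ℝ) : rho J N r ≤ 1 := by
  unfold rho
  apply max_le zero_le_one
  linarith [abs_nonneg (2 * (r - J) / N - 1)]

theorem csN_rho_ne {J N : ℕ} (hN : 1 ≤ N) {r : ℝ} (h : rho J N r ≠ 0) : (J : ℝ) ≤ r ∧ r ≤ J + N := by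
  have h1 : |2 * (r - J) / N - 1| < 1 := by
    by_contra hc
    push Not at hc
    apply h
    unfold rho
    apply max_eq_left
    linarith
  rw [abs_lt] at h1
  have hN0 : (0 : ℝ) < N := by exact_mod_cast hN
  have h2 : 0 < 2 * (r - J) / N := by linarith [h1.1]
  have h3 : 2 * (r - J) / N < 2 := by linarith [h1.2]
  rw [div_lt_iff₀ hN0] at h3
  rw [div_pos_iff_of_pos_right hN0] at h2
  constructor <;> linarith

open Classical in
/-- the second vectors of the unbalanced edges with first vector `A` -/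
noncomputable def csB (J N : ℕ) (A : G) : Finset G :=
  (ball (((J : ℝ) + N) ^ 2 * nm A + 1)).filter (fun B => det A B = 1 ∧
    (J : ℝ) * nm A ≤ ((dot A B : ℤ) : ℝ) ∧ ((dot A B : ℤ) : ℝ) ≤ (J + N) * nm A)

theorem csN_ne_zero {A B : G} (h : det A B = 1) : A ≠ 0 := by
  rintro rfl
  unfold det at h
  simp at h

theorem csN_nm_pos {A B : G} (h : det A B = 1) : (1 : ℝ) ≤ nm A := by
  exact_mod_cast nm_pos (csN_ne_zero h)

/-- bound of the norm of the second vector -/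
theorem csN_nm_le {J N : ℕ} {A B : G} (h : det A B = 1) (h0 : (0 : ℝ) ≤ ((dot A B : ℤ) : ℝ))
    (h1 : ((dot A B : ℤ) : ℝ) ≤ (J + N) * nm A) : (nm B : ℝ) ≤ ((J : ℝ) + N) ^ 2 * nm A + 1 := by
  have h2 := csN_nm_pos h
  have h3 := dot_sq_add_det_sq A B
  rw [h] at h3
  have h4 : ((dot A B : ℤ) : ℝ) ^ 2 + 1 = (nm A : ℝ) * nm B := by
    have : ((dot A B ^ 2 + 1 ^ 2 : ℤ) : ℝ) = (((nm A : ℤ) * nm B : ℤ) : ℝ) := by rw [h3]
    push_cast at this
    linarith
  have h5 : ((dot A B : ℤ) : ℝ) ^ 2 ≤ ((J + N) * nm A) ^ 2 := by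
    apply pow_le_pow_left₀ h0 h1
  have h6 : (nm A : ℝ) * nm B ≤ nm A * (((J : ℝ) + N) ^ 2 * nm A + 1) := by
    rw [← h4]
    nlinarith
  exact le_of_mul_le_mul_left h6 (by linarith)

theorem csN_mem {J N : ℕ} {A B : G} : B ∈ csB J N A ↔ det A B = 1 ∧
    (J : ℝ) * nm A ≤ ((dot A B : ℤ) : ℝ) ∧ ((dot A B : ℤ) : ℝ) ≤ (J + N) * nm A := by
  classical
  unfold csB
  rw [mem_filter, mem_ball]
  refine ⟨fun h => h.2, fun h => ⟨?_, h⟩⟩
  apply csN_nm_le h.1 _ h.2.2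
  exact le_trans (by positivity) h.2.1

theorem csN_card {J N : ℕ} {A : G} (hA : A ≠ 0) : ((csB J N A).card : ℝ) ≤ N + 1 := by
  have hn : (0 : ℝ) < nm A := by exact_mod_cast nm_pos hA
  obtain ⟨s, h1, h2⟩ := TailP.edges_sub A (J * nm A) ((J + N) * nm A) (by
    have : (0 : ℝ) ≤ N := Nat.cast_nonneg _
    nlinarith)
  have h3 : csB J N A ⊆ s := by
    intro B hB
    rw [csN_mem] at hB
    have : B ∈ (s : Set G) := h1 hB
    exact this
  have h4 : ((csB J N A).card : ℝ) ≤ s.card := by exact_mod_cast card_le_card h3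
  have h5 : (((J : ℝ) + N) * nm A - J * nm A) / nm A + 1 = N + 1 := by
    field_simp
    ring
  rw [h5] at h2
  linarith

open Classical in
/-- the first vectors -/
noncomputable def csA (Y : ℝ) : Finset G := (ball Y).filter (fun z => z ≠ 0)

theorem csN_memA {Y : ℝ} {z : G} : z ∈ csA Y ↔ z ≠ 0 ∧ (nm z : ℝ) ≤ Y := by
  classical
  unfold csA
  rw [mem_filter, mem_ball, and_comm]

theorem csN_cardA {Y : ℝ} (hY : 0 ≤ Y) : ((csA Y).card : ℝ) ≤ 9 * Y := by
  obtain ⟨s, h1, _, h2⟩ := TailP.ball_sub Y hY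
  have h3 : csA Y ⊆ s := by
    intro z hz
    rw [csN_memA] at hz
    exact h1 z hz.1 hz.2
  have h4 : ((csA Y).card : ℝ) ≤ s.card := by exact_mod_cast card_le_card h3
  linarith

/-- the inner sum -/
noncomputable def csT (f : ℕ → ℂ) (J N : ℕ) (A : G) : ℂ :=
  ∑ B ∈ csB J N A, f (nm B) * ((rho J N (((dot A B : ℤ) : ℝ) / nm A) : ℝ) : ℂ)

/-- the term of the pair `p` in the square of the inner sum -/
noncomputable def csF (f : ℕ → ℂ) (J N : ℕ) (A : G) (p : G × G) : ℂ :=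
  f (nm p.1) * (starRingEnd ℂ) (f (nm p.2)) *
    ((rho J N (((dot A p.1 : ℤ) : ℝ) / nm A) * rho J N (((dot A p.2 : ℤ) : ℝ) / nm A) : ℝ) : ℂ)

theorem csN_prim {A B : G} (h : det A B = 1) : Prim A ∧ Prim B := by
  unfold det at h
  refine ⟨⟨B.im, -B.re, ?_⟩, ⟨-A.im, A.re, ?_⟩⟩
  · linear_combination h
  · linear_combination h

theorem csN_cg_one (u v : G) : cg 1 u v := by
  unfold cg
  simp

theorem csN_SX (f : ℕ → ℂ) (h : ℝ → ℝ) (h2 : ℝ) (hh2 : ∀ y, h2 ≤ y → h y = 0) (J N : ℕ) (hJ : 1 ≤ J)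
    (hN : 1 ≤ N) (X : ℝ) (hX : 1 ≤ X) (x : ℝ) (hx : (J + N) * h2 * X ≤ x) :
    SX f h J N x X = ∑ A ∈ csA (h2 * X), f (nm A) * ((h (nm A / X) : ℝ) : ℂ) * csT f J N A := by
  classical
  have hX0 : (0 : ℝ) < X := by linarith
  have hJ0 : (1 : ℝ) ≤ J := by exact_mod_cast hJ
  have hN0 : (0 : ℝ) ≤ N := Nat.cast_nonneg _
  set P : Finset (G × G) := (EN 1 x).filter (fun e => e.1 ∈ csA (h2 * X) ∧ e.2 ∈ csB J N e.1)
    with hP
  have hPmem : ∀ e : G × G, e ∈ P ↔ e.1 ∈ csA (h2 * X) ∧ e.2 ∈ csB J N e.1 := by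
    intro e
    rw [hP, mem_filter]
    refine ⟨fun h => h.2, fun he => ⟨?_, he⟩⟩
    obtain ⟨h3, h4⟩ := he
    rw [csN_memA] at h3
    rw [csN_mem] at h4
    rw [mem_EN one_pos]
    have h5 : (0 : ℝ) < ((dot e.1 e.2 : ℤ) : ℝ) := by
      have := csN_nm_pos h4.1
      nlinarith [h4.2.1]
    refine ⟨⟨?_, ?_, (csN_prim h4.1).1, ?_⟩, ?_⟩
    · rw [h4.1]
      rfl
    · exact_mod_cast h5
    · exact ⟨1, isCoprime_one_left, csN_cg_one _ _⟩
    · unfold mE
      calc ((dot e.1 e.2 : ℤ) : ℝ) ≤ (J + N) * nm e.1 := h4.2.2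
        _ ≤ (J + N) * (h2 * X) := by
          apply mul_le_mul_of_nonneg_left h3.2
          positivity
        _ ≤ x := by linarith
  have h3 : ∑ A ∈ csA (h2 * X), f (nm A) * ((h (nm A / X) : ℝ) : ℂ) * csT f J N A =
      ∑ A ∈ csA (h2 * X), ∑ B ∈ csB J N A, f (nm A) * ((h (nm A / X) : ℝ) : ℂ) *
        (f (nm B) * ((rho J N (((dot A B : ℤ) : ℝ) / nm A) : ℝ) : ℂ)) := by
    apply sum_congr rfl
    intro A _
    unfold csT
    rw [mul_sum]
  rw [h3, ← sum_finset_product' P (csA (h2 * X)) (csB J N) hPmem]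
  unfold SX
  rw [hP, sum_filter_of_ne]
  · apply sum_congr rfl
    intro e _
    unfold mE
    push_cast
    ring
  · intro e he hne
    rw [mem_EN one_pos] at he
    obtain ⟨⟨hdet, hdot, hprim, _⟩, _⟩ := he
    have hdet1 : det e.1 e.2 = 1 := by
      rw [hdet]
      rfl
    have hne1 : h (nm e.1 / X) ≠ 0 := by
      intro h0
      apply hne
      rw [h0]
      simp
    have hne2 : rho J N (((dot e.1 e.2 : ℤ) : ℝ) / nm e.1) ≠ 0 := by
      intro h0
      apply hne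
      rw [h0]
      simp
    have hnm := csN_nm_pos hdet1
    have h4 : (nm e.1 : ℝ) / X < h2 := by
      by_contra hc
      push Not at hc
      exact hne1 (hh2 _ hc)
    rw [div_lt_iff₀ hX0] at h4
    have h5 := csN_rho_ne hN hne2
    rw [le_div_iff₀ (by linarith), div_le_iff₀ (by linarith)] at h5
    rw [csN_memA, csN_mem]
    exact ⟨⟨csN_ne_zero hdet1, h4.le⟩, hdet1, h5.1, h5.2⟩

theorem csN_conj (f : ℕ → ℂ) (J N : ℕ) (A : G) (p : G × G) :
    (starRingEnd ℂ) (csF f J N A p) = csF f J N A (p.2, p.1) := by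
  unfold csF
  rw [map_mul, map_mul, Complex.conj_conj, Complex.conj_ofReal]
  push_cast
  ring

open Classical in
/-- the pairs with `dot A B' < dot A B` -/
noncomputable def csU (f : ℕ → ℂ) (J N : ℕ) (A : G) : ℂ :=
  ∑ p ∈ csB J N A ×ˢ csB J N A, if dot A p.2 < dot A p.1 then csF f J N A p else 0

theorem csN_eq_of_dot {A B B' : G} (h : det A B = 1) (h' : det A B' = 1) (hd : dot A B = dot A B') :
    B = B' := by
  obtain ⟨k, hk⟩ := TailP.diff_mul h h'
  rw [hk, TailP.dot_add_mul] at hd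
  have hnm : (nm A : ℤ) ≠ 0 := by
    have := nm_pos (csN_ne_zero h)
    omega
  have h1 : k * (nm A : ℤ) = 0 := by linarith
  have h2 : k = 0 := by
    rcases mul_eq_zero.1 h1 with h3 | h3
    · exact h3
    · exact absurd h3 hnm
  rw [hk, h2]
  simp

theorem csN_TT (f : ℕ → ℂ) (J N : ℕ) (A : G) :
    csT f J N A * (starRingEnd ℂ) (csT f J N A) =
      ∑ B ∈ csB J N A, csF f J N A (B, B) + csU f J N A + (starRingEnd ℂ) (csU f J N A) := by
  classical
  have h1 : csT f J N A * (starRingEnd ℂ) (csT f J N A) =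
      ∑ p ∈ csB J N A ×ˢ csB J N A, csF f J N A p := by
    unfold csT
    rw [map_sum, sum_mul_sum, sum_product]
    apply sum_congr rfl
    intro B _
    apply sum_congr rfl
    intro B' _
    unfold csF
    rw [map_mul, Complex.conj_ofReal]
    push_cast
    ring
  have h2 : ∑ p ∈ csB J N A ×ˢ csB J N A, csF f J N A p =
      ∑ p ∈ csB J N A ×ˢ csB J N A, (if p.1 = p.2 then csF f J N A p else 0) +
      ∑ p ∈ csB J N A ×ˢ csB J N A, (if dot A p.2 < dot A p.1 then csF f J N A p else 0) +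
      ∑ p ∈ csB J N A ×ˢ csB J N A, (if dot A p.1 < dot A p.2 then csF f J N A p else 0) := by
    rw [← sum_add_distrib, ← sum_add_distrib]
    apply sum_congr rfl
    intro p hp
    rw [mem_product, csN_mem, csN_mem] at hp
    rcases lt_trichotomy (dot A p.1) (dot A p.2) with h | h | h
    · rw [if_neg (fun h3 => by rw [h3] at h; exact lt_irrefl _ h), if_neg (not_lt.2 h.le), if_pos h]
      ring
    · rw [if_pos (csN_eq_of_dot hp.1.1 hp.2.1 h), if_neg (by omega), if_neg (by omega)]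
      ring
    · rw [if_neg (fun h3 => by rw [h3] at h; exact lt_irrefl _ h), if_pos h, if_neg (not_lt.2 h.le)]
      ring
  have h3 : ∑ p ∈ csB J N A ×ˢ csB J N A, (if p.1 = p.2 then csF f J N A p else 0) =
      ∑ B ∈ csB J N A, csF f J N A (B, B) := by
    rw [sum_product]
    apply sum_congr rfl
    intro B hB
    rw [sum_ite_eq, if_pos hB]
  have h4 : ∑ p ∈ csB J N A ×ˢ csB J N A, (if dot A p.1 < dot A p.2 then csF f J N A p else 0) =
      (starRingEnd ℂ) (csU f J N A) := by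
    unfold csU
    rw [map_sum, sum_product, sum_product, sum_comm]
    apply sum_congr rfl
    intro B _
    apply sum_congr rfl
    intro B' _
    show (if dot A B' < dot A B then csF f J N A (B', B) else 0) =
      (starRingEnd ℂ) (if dot A B' < dot A B then csF f J N A (B, B') else 0)
    split_ifs
    · rw [csN_conj]
    · rw [map_zero]
  rw [h1, h2, h3, h4]
  rfl

theorem csN_U (f : ℕ → ℂ) (J N : ℕ) (A : G) :
    csU f J N A = ∑ n ∈ Icc 1 N, ∑ p ∈ csB J N A ×ˢ csB J N A,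
      if p.1 = p.2 + (((n : ℤ) : G)) * A then csF f J N A p else 0 := by
  classical
  unfold csU
  rw [sum_comm]
  apply sum_congr rfl
  intro p hp
  rw [mem_product, csN_mem, csN_mem] at hp
  obtain ⟨⟨h1, h2, h3⟩, h4, h5, h6⟩ := hp
  have hA := csN_ne_zero h1
  have hnm : (0 : ℤ) < nm A := by exact_mod_cast nm_pos hA
  by_cases hlt : dot A p.2 < dot A p.1
  · rw [if_pos hlt]
    obtain ⟨k, hk⟩ := TailP.diff_mul h4 h1
    have h7 : dot A p.1 = dot A p.2 + k * nm A := by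
      rw [hk, TailP.dot_add_mul]
    have hk1 : 1 ≤ k := by
      by_contra hc
      push Not at hc
      nlinarith
    have hkN : k ≤ N := by
      have h8 : ((k * nm A : ℤ) : ℝ) ≤ N * nm A := by
        have h9 : ((k * nm A : ℤ) : ℝ) = ((dot A p.1 : ℤ) : ℝ) - ((dot A p.2 : ℤ) : ℝ) := by
          rw [h7]
          push_cast
          ring
        rw [h9]
        linarith
      have h10 : k * nm A ≤ (N : ℤ) * nm A := by exact_mod_cast h8
      exact le_of_mul_le_mul_right h10 hnm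
    obtain ⟨m, rfl⟩ := Int.eq_ofNat_of_zero_le (by omega : (0 : ℤ) ≤ k)
    rw [sum_eq_single m]
    · rw [if_pos hk]
    · intro n hn hnm'
      rw [if_neg]
      intro h8
      apply hnm'
      rw [hk] at h8
      have h9 : (((m : ℤ) : G)) * A = (((n : ℤ) : G)) * A := add_left_cancel h8
      have h10 := mul_right_cancel₀ hA h9
      have h11 : (m : ℤ) = (n : ℤ) := by exact_mod_cast h10
      omega
    · intro hm
      exfalso
      apply hm
      rw [mem_Icc]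
      omega
  · rw [if_neg hlt]
    symm
    apply sum_eq_zero
    intro n hn
    rw [mem_Icc] at hn
    rw [if_neg]
    intro h8
    apply hlt
    rw [h8, TailP.dot_add_mul]
    have : (0 : ℤ) < (n : ℤ) * nm A := by
      have : (0 : ℤ) < n := by omega
      positivity
    omega

theorem csN_nm_sub (V V' : G) : (nm (V - V') : ℤ) = nm V + nm V' - 2 * dot V V' := by
  rw [nm_eq, nm_eq, nm_eq]
  unfold dot
  rw [Zsqrtd.re_sub, Zsqrtd.im_sub]
  ring

theorem csN_nm_smul (n : ℤ) (A : G) : (nm ((n : G) * A) : ℤ) = n ^ 2 * nm A := by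
  rw [nm_eq, nm_eq, TailP.smul_re, TailP.smul_im]
  ring

theorem csN_Gm (f : ℕ → ℂ) (h : ℝ → ℝ) (h2 : ℝ) (hh2 : ∀ y, h2 ≤ y → h y = 0) (J N : ℕ) (hJ : 1 ≤ J)
    (hN : 1 ≤ N) (X : ℝ) (hX : 1 ≤ X) (x' : ℝ) (hx' : (J + N) ^ 2 * h2 * X + 1 ≤ x') (n : ℕ) (hn : 1 ≤ n) :
    ∑ A ∈ csA (h2 * X), ((h (nm A / X) ^ 2 : ℝ) : ℂ) * ∑ p ∈ csB J N A ×ˢ csB J N A,
      (if p.1 = p.2 + (((n : ℤ) : G)) * A then csF f J N A p else 0) = Gm f h J N n x' X := by
  classical
  have hX0 : (0 : ℝ) < X := by linarith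
  have hJ0 : (1 : ℝ) ≤ J := by exact_mod_cast hJ
  have hn0 : (1 : ℝ) ≤ n := by exact_mod_cast hn
  have hnz : (1 : ℤ) ≤ n := by exact_mod_cast hn
  set S : Finset ((_ : G) × (G × G)) := (csA (h2 * X)).sigma
    (fun A => (csB J N A ×ˢ csB J N A).filter (fun p => p.1 = p.2 + (((n : ℤ) : G)) * A)) with hS
  have h1 : ∑ A ∈ csA (h2 * X), ((h (nm A / X) ^ 2 : ℝ) : ℂ) * ∑ p ∈ csB J N A ×ˢ csB J N A,
      (if p.1 = p.2 + (((n : ℤ) : G)) * A then csF f J N A p else 0) =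
      ∑ a ∈ S, ((h (nm a.1 / X) ^ 2 : ℝ) : ℂ) * csF f J N a.1 a.2 := by
    rw [hS, sum_sigma]
    apply sum_congr rfl
    intro A _
    rw [mul_sum, sum_filter]
    apply sum_congr rfl
    intro p _
    split_ifs
    · rfl
    · rw [mul_zero]
  have hSmem : ∀ a : (_ : G) × (G × G), a ∈ S ↔ (a.1 ≠ 0 ∧ (nm a.1 : ℝ) ≤ h2 * X) ∧
      (a.2.1 ∈ csB J N a.1 ∧ a.2.2 ∈ csB J N a.1) ∧ a.2.1 = a.2.2 + (((n : ℤ) : G)) * a.1 := by
    intro a
    rw [hS, mem_sigma, csN_memA, mem_filter, mem_product]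
  -- facts about a triple
  have hfacts : ∀ A V V' : G, V = V' + (((n : ℤ) : G)) * A → A ≠ 0 →
      aN n (V, V') = nm A ∧ ((nm V : ℝ) - mE (V, V')) / (n * aN n (V, V')) =
        ((dot A V : ℤ) : ℝ) / nm A ∧ (mE (V, V') - (nm V' : ℝ)) / (n * aN n (V, V')) =
        ((dot A V' : ℤ) : ℝ) / nm A := by
    intro A V V' hV hA
    have hnm : (0 : ℝ) < nm A := by exact_mod_cast nm_pos hA
    have h3 : V - V' = (((n : ℤ) : G)) * A := by
      rw [hV]
      ring
    have h4 : (n : ℤ) ^ 2 * nm A = nm V + nm V' - 2 * dot V V' := by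
      rw [← csN_nm_smul, ← h3, csN_nm_sub]
    have h5 : (n : ℝ) ^ 2 * nm A = nm V + nm V' - 2 * ((dot V V' : ℤ) : ℝ) := by exact_mod_cast h4
    have h6 : aN n (V, V') = nm A := by
      unfold aN mE
      rw [div_eq_iff (by positivity)]
      show (nm V : ℝ) + nm V' - 2 * ((dot V V' : ℤ) : ℝ) = nm A * (n : ℝ) ^ 2
      rw [← h5]
      ring
    have h7 : (n : ℤ) * dot A V = nm V - dot V V' := by
      rw [nm_eq, hV]
      unfold dot
      rw [Zsqrtd.re_add, Zsqrtd.im_add, TailP.smul_re, TailP.smul_im]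
      ring
    have h8 : (n : ℤ) * dot A V' = dot V V' - nm V' := by
      rw [nm_eq, hV]
      unfold dot
      rw [Zsqrtd.re_add, Zsqrtd.im_add, TailP.smul_re, TailP.smul_im]
      ring
    have h9 : (n : ℝ) * ((dot A V : ℤ) : ℝ) = nm V - ((dot V V' : ℤ) : ℝ) := by exact_mod_cast h7
    have h10 : (n : ℝ) * ((dot A V' : ℤ) : ℝ) = ((dot V V' : ℤ) : ℝ) - nm V' := by exact_mod_cast h8
    refine ⟨h6, ?_, ?_⟩
    · rw [h6]
      unfold mE
      show ((nm V : ℝ) - ((dot V V' : ℤ) : ℝ)) / (n * nm A) = _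
      rw [← h9]
      field_simp
    · rw [h6]
      unfold mE
      show (((dot V V' : ℤ) : ℝ) - (nm V' : ℝ)) / (n * nm A) = _
      rw [← h10]
      field_simp
  rw [h1]
  unfold Gm
  apply sum_bij_ne_zero (fun a _ _ => a.2)
  · rintro ⟨A, B, B'⟩ ha _
    rw [hSmem] at ha
    obtain ⟨⟨hA, hAX⟩, ⟨hB, hB'⟩, hBB⟩ := ha
    simp only at hA hAX hB hB' hBB
    have hb := csN_mem.1 hB
    have hb' := csN_mem.1 hB'
    have hnm : (1 : ℝ) ≤ nm A := csN_nm_pos hb.1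
    rw [mem_filter, mem_EN (by omega)]
    have hdetB : det B B' = n := by
      have := hb'.1
      rw [hBB]
      unfold det at this ⊢
      rw [Zsqrtd.re_add, Zsqrtd.im_add, TailP.smul_re, TailP.smul_im]
      linear_combination (n : ℤ) * this
    have hdotB : dot B B' = nm B' + n * dot A B' := by
      rw [hBB, nm_eq]
      unfold dot
      rw [Zsqrtd.re_add, Zsqrtd.im_add, TailP.smul_re, TailP.smul_im]
      ring
    have hdot' : (0 : ℝ) < ((dot A B' : ℤ) : ℝ) := by nlinarith [hb'.2.1]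
    have hdot'' : (0 : ℤ) < dot A B' := by exact_mod_cast hdot'
    have hdot : (0 : ℝ) < ((dot A B : ℤ) : ℝ) := by nlinarith [hb.2.1]
    have hnB' : (0 : ℤ) ≤ nm B' := Int.natCast_nonneg _
    have hcg : cg n B' B := by
      unfold cg
      rw [hBB, Zsqrtd.re_add, Zsqrtd.im_add, TailP.smul_re, TailP.smul_im]
      constructor
      · exact ⟨-A.re, by ring⟩
      · exact ⟨-A.im, by ring⟩
    refine ⟨⟨⟨hdetB, ?_, (csN_prim hb.1).2, ⟨1, isCoprime_one_left, ?_⟩⟩, ?_⟩, hcg⟩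
    · show 0 < dot B B'
      rw [hdotB]
      have : (0 : ℤ) < n * dot A B' := by positivity
      omega
    · show cg n B' (((1 : ℤ) : G) * B)
      rw [Int.cast_one, one_mul]
      exact hcg
    · unfold mE
      show ((dot B B' : ℤ) : ℝ) ≤ x'
      have h3 := csN_nm_le hb.1 hdot.le hb.2.2
      have h4 := csN_nm_le hb'.1 hdot'.le hb'.2.2
      have h5 := csN_nm_sub B B'
      have h6 : (0 : ℤ) ≤ nm (B - B') := Int.natCast_nonneg _
      have h7 : 2 * dot B B' ≤ (nm B : ℤ) + nm B' := by omega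
      have h8 : 2 * ((dot B B' : ℤ) : ℝ) ≤ (nm B : ℝ) + nm B' := by exact_mod_cast h7
      have h9 : ((J : ℝ) + N) ^ 2 * nm A ≤ ((J : ℝ) + N) ^ 2 * (h2 * X) :=
        mul_le_mul_of_nonneg_left hAX (by positivity)
      nlinarith
  · rintro ⟨A, B, B'⟩ ha _ ⟨A₂, B₂, B₂'⟩ ha₂ _ heq
    rw [hSmem] at ha ha₂
    have h3 : (B, B') = (B₂, B₂') := heq
    rw [Prod.mk.injEq] at h3
    obtain ⟨rfl, rfl⟩ := h3
    have h4 : (((n : ℤ) : G)) * A = (((n : ℤ) : G)) * A₂ := by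
      have h5 := ha.2.2
      have h6 := ha₂.2.2
      simp only at h5 h6
      rw [h5] at h6
      exact add_left_cancel h6
    have h5 : ((n : ℤ) : G) ≠ 0 := by
      intro h0
      have : (n : ℤ) = 0 := by exact_mod_cast h0
      omega
    have h6 : A = A₂ := mul_left_cancel₀ h5 h4
    rw [h6]
  · rintro ⟨V, V'⟩ he hne
    rw [mem_filter, mem_EN (by omega)] at he
    obtain ⟨⟨⟨hdet, hdot, hprim, _⟩, _⟩, hcg⟩ := he
    simp only at hdet hdot hprim hcg
    obtain ⟨⟨a, ha⟩, ⟨b, hb⟩⟩ := hcg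
    set A : G := ⟨-a, -b⟩ with hAdef
    have hV : V = V' + (((n : ℤ) : G)) * A := by
      apply Zsqrtd.ext
      · rw [Zsqrtd.re_add, TailP.smul_re, hAdef]
        simp only
        linarith
      · rw [Zsqrtd.im_add, TailP.smul_im, hAdef]
        simp only
        linarith
    have hdetn' : det V V' = (n : ℤ) * det A V' := by
      rw [hV]
      unfold det
      rw [Zsqrtd.re_add, Zsqrtd.im_add, TailP.smul_re, TailP.smul_im]
      ring
    have hdetn : (n : ℤ) * det A V' = n := by rw [← hdetn', hdet]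
    have hdet1 : det A V' = 1 := by
      have h3 : (n : ℤ) * det A V' = n * 1 := by rw [hdetn, mul_one]
      exact mul_left_cancel₀ (by omega) h3
    have hdet2 : det A V = 1 := by
      rw [← hdet1, hV]
      unfold det
      rw [Zsqrtd.re_add, Zsqrtd.im_add, TailP.smul_re, TailP.smul_im]
      ring
    have hA := csN_ne_zero hdet1
    have hnm := csN_nm_pos hdet1
    obtain ⟨h3, h4, h5⟩ := hfacts A V V' hV hA
    have hw : wN h J N n X (V, V') ≠ 0 := by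
      intro h0
      apply hne
      rw [h0]
      simp
    unfold wN at hw
    simp only at hw
    rw [h4, h5, h3] at hw
    have hw1 : h (nm A / X) ≠ 0 := by
      intro h0
      apply hw
      rw [h0]
      ring
    have hw2 : rho J N (((dot A V : ℤ) : ℝ) / nm A) ≠ 0 := by
      intro h0
      apply hw
      rw [h0]
      ring
    have hw3 : rho J N (((dot A V' : ℤ) : ℝ) / nm A) ≠ 0 := by
      intro h0
      apply hw
      rw [h0]
      ring
    have h6 : (nm A : ℝ) / X < h2 := by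
      by_contra hc
      push Not at hc
      exact hw1 (hh2 _ hc)
    rw [div_lt_iff₀ hX0] at h6
    have h7 := csN_rho_ne hN hw2
    have h8 := csN_rho_ne hN hw3
    rw [le_div_iff₀ (by linarith), div_le_iff₀ (by linarith)] at h7 h8
    refine ⟨⟨A, V, V'⟩, ?_, ?_, rfl⟩
    · rw [hSmem]
      exact ⟨⟨hA, h6.le⟩, ⟨csN_mem.2 ⟨hdet2, h7.1, h7.2⟩, csN_mem.2 ⟨hdet1, h8.1, h8.2⟩⟩, hV⟩
    · have h9 : f (nm V) ≠ 0 := by
        intro h0
        apply hne
        rw [h0]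
        simp
      have h10 : (starRingEnd ℂ) (f (nm V')) ≠ 0 := by
        intro h0
        apply hne
        rw [h0]
        simp
      unfold csF
      refine mul_ne_zero ?_ (mul_ne_zero (mul_ne_zero h9 h10) ?_)
      · exact_mod_cast pow_ne_zero 2 hw1
      · exact_mod_cast mul_ne_zero hw2 hw3
  · rintro ⟨A, B, B'⟩ ha _
    rw [hSmem] at ha
    obtain ⟨⟨hA, hAX⟩, ⟨hB, hB'⟩, hBB⟩ := ha
    simp only at hA hAX hB hB' hBB
    obtain ⟨h3, h4, h5⟩ := hfacts A B B' hBB hA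
    unfold csF wN
    simp only
    rw [h4, h5, h3]
    push_cast
    ring

/-- PROOF. Only `e = (A, B)` with `h (nm A / X) ≠ 0` (so `nm A < h2 X`) and `rho J N (dot / nm A) ≠ 0` (so `J ≤ dot A B / nm A ≤ J + N`) contribute, and all pairs with `det A B = 1` with
these two properties lie in `EN 1 x` (`0 < dot`, `A` primitive, `c = 1`: everything is congruent modulo 1; `dot ≤ (J + N) h2 X ≤ x`). So
`S = ∑_A f(nm A) h(nm A / X) T_A`, `T_A = ∑_(B : det A B = 1) f(nm B) rho (dot A B / nm A)`, `A ≠ 0` in a set of at most `9 h2 X` elements (`ball_sub`). Cauchy-Schwarz: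
`‖S‖^2 ≤ 9 h2 X ∑_A h(nm A/X)^2 ‖T_A‖^2`, and `‖T_A‖^2 = ∑_(B, B')`: the diagonal is at most the number of `B`, `≤ N + 1` (`edges_fixed` / `line_count`), total `≤ 9 h2 X (N + 1)`.
Off the diagonal, `B = B' + n A` or `B' = B + n A` with `n ≥ 1` (`diff_mul` of Tail.lean) and `n ≤ N` (both quotients in `[J, J + N]`, `dot A (B' + n A) = dot A B' + n nm A`); the two parts are complex
conjugates, so they add up to `2 Re`. For fixed `n`: `(A, B, B')` with `B = B' + n A` corresponds to `e = (V, V') = (B, B')`, `det B B' = n det A B' = n`,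
`dot B B' = nm B' + n dot A B' > 0`, `B` primitive (`det A B = 1`), `V' = V mod n`, so `e ∈ EN n x'` with `cg n e.2 e.1` (`dot B B' ≤ (nm B + nm B')/2`, `nm B nm A = dot^2 + 1`, `nm A ≥ 1`, so
`nm B ≤ (J + N)^2 h2 X + 1`); conversely `e ∈ EN n` with `cg n e.2 e.1` gives `A = (V - V')/n` with `det A V' = 1`, `det A V = 1`; the weights agree: `n^2 nm A = nm V + nm V' - 2 dot`,
`n dot A V = nm V - dot V V'`, `n dot A V' = dot V V' - nm V'`, and if the weight is not zero then `dot A V' > 0`, ... So `∑_A h^2 (off-diagonal with n) = Gm n`. -/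
theorem csN (f : ℕ → ℂ) (hf : ∀ n, ‖f n‖ ≤ 1) (h : ℝ → ℝ) (hh0 : ∀ y, 0 ≤ h y) (hh1 : ∀ y, h y ≤ 1) (h2 : ℝ)
    (hh2 : ∀ y, h2 ≤ y → h y = 0) (J N : ℕ) (hJ : 1 ≤ J) (hN : 1 ≤ N) (X : ℝ) (hX : 1 ≤ X) (hh2' : 1 ≤ h2) (x x' : ℝ)
    (hx : (J + N) * h2 * X ≤ x) (hx' : (J + N) ^ 2 * h2 * X + 1 ≤ x') :
    ‖SX f h J N x X‖ ^ 2 ≤ 9 * h2 * X * (9 * h2 * X * (N + 1) + 2 * ‖∑ n ∈ Icc 1 N, Gm f h J N n x' X‖) := by
  classical
  have hX0 : (0 : ℝ) < X := by linarith
  have hY0 : (0 : ℝ) ≤ h2 * X := by positivity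
  set 𝒜 := csA (h2 * X) with h𝒜
  have hcardA : (𝒜.card : ℝ) ≤ 9 * (h2 * X) := csN_cardA hY0
  rw [csN_SX f h h2 hh2 J N hJ hN X hX x hx]
  -- the sum of the squares
  set Q : ℝ := ∑ A ∈ 𝒜, h (nm A / X) ^ 2 * ‖csT f J N A‖ ^ 2 with hQ
  have h1 : ‖∑ A ∈ 𝒜, f (nm A) * ((h (nm A / X) : ℝ) : ℂ) * csT f J N A‖ ^ 2 ≤ 9 * h2 * X * Q := by
    have h3 : ‖∑ A ∈ 𝒜, f (nm A) * ((h (nm A / X) : ℝ) : ℂ) * csT f J N A‖ ≤
        ∑ A ∈ 𝒜, h (nm A / X) * ‖csT f J N A‖ := by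
      apply norm_sum_le_of_le
      intro A _
      rw [norm_mul, norm_mul, Complex.norm_real, Real.norm_eq_abs, abs_of_nonneg (hh0 _)]
      have h4 := hf (nm A)
      have h5 := hh0 (nm A / X)
      have h6 := norm_nonneg (csT f J N A)
      calc ‖f (nm A)‖ * h (nm A / X) * ‖csT f J N A‖ ≤ 1 * h (nm A / X) * ‖csT f J N A‖ := by gcongr
        _ = _ := by ring
    have h4 : (∑ A ∈ 𝒜, h (nm A / X) * ‖csT f J N A‖) ^ 2 ≤
        𝒜.card * ∑ A ∈ 𝒜, (h (nm A / X) * ‖csT f J N A‖) ^ 2 := sq_sum_le_card_mul_sum_sq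
    have h5 : ∑ A ∈ 𝒜, (h (nm A / X) * ‖csT f J N A‖) ^ 2 = Q := by
      rw [hQ]
      apply sum_congr rfl
      intro A _
      ring
    have hQ0 : 0 ≤ Q := by
      rw [hQ]
      apply sum_nonneg
      intro A _
      positivity
    calc ‖∑ A ∈ 𝒜, f (nm A) * ((h (nm A / X) : ℝ) : ℂ) * csT f J N A‖ ^ 2
        ≤ (∑ A ∈ 𝒜, h (nm A / X) * ‖csT f J N A‖) ^ 2 := pow_le_pow_left₀ (norm_nonneg _) h3 2
      _ ≤ 𝒜.card * Q := by rw [← h5]; exact h4
      _ ≤ 9 * (h2 * X) * Q := mul_le_mul_of_nonneg_right hcardA hQ0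
      _ = 9 * h2 * X * Q := by ring
  refine h1.trans ?_
  apply mul_le_mul_of_nonneg_left _ (by positivity)
  -- expansion of the squares
  set D : ℂ := ∑ A ∈ 𝒜, ((h (nm A / X) ^ 2 : ℝ) : ℂ) * ∑ B ∈ csB J N A, csF f J N A (B, B) with hD
  set U : ℂ := ∑ A ∈ 𝒜, ((h (nm A / X) ^ 2 : ℝ) : ℂ) * csU f J N A with hU
  have h3 : ((Q : ℝ) : ℂ) = D + U + (starRingEnd ℂ) U := by
    rw [hQ, hD, hU, map_sum, ← sum_add_distrib, ← sum_add_distrib]
    push_cast
    apply sum_congr rfl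
    intro A _
    have h4 : ((‖csT f J N A‖ : ℝ) : ℂ) ^ 2 = csT f J N A * (starRingEnd ℂ) (csT f J N A) := by
      rw [Complex.mul_conj, Complex.normSq_eq_norm_sq]
      push_cast
      rfl
    rw [h4, csN_TT, map_mul, map_pow, Complex.conj_ofReal]
    ring
  have hUG : U = ∑ n ∈ Icc 1 N, Gm f h J N n x' X := by
    rw [hU]
    have h4 : ∀ A ∈ 𝒜, ((h (nm A / X) ^ 2 : ℝ) : ℂ) * csU f J N A =
        ∑ n ∈ Icc 1 N, ((h (nm A / X) ^ 2 : ℝ) : ℂ) * ∑ p ∈ csB J N A ×ˢ csB J N A,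
          (if p.1 = p.2 + (((n : ℤ) : G)) * A then csF f J N A p else 0) := by
      intro A _
      rw [csN_U, mul_sum]
    rw [sum_congr rfl h4, sum_comm]
    apply sum_congr rfl
    intro n hn
    rw [mem_Icc] at hn
    exact csN_Gm f h h2 hh2 J N hJ hN X hX x' hx' n hn.1
  have hDle : ‖D‖ ≤ 9 * h2 * X * (N + 1) := by
    rw [hD]
    have h4 : ‖∑ A ∈ 𝒜, ((h (nm A / X) ^ 2 : ℝ) : ℂ) * ∑ B ∈ csB J N A, csF f J N A (B, B)‖ ≤
        ∑ _A ∈ 𝒜, ((N : ℝ) + 1) := by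
      apply norm_sum_le_of_le
      intro A hA
      rw [h𝒜, csN_memA] at hA
      rw [norm_mul, Complex.norm_real, Real.norm_eq_abs, abs_of_nonneg (sq_nonneg _)]
      have h5 : ‖∑ B ∈ csB J N A, csF f J N A (B, B)‖ ≤ ∑ _B ∈ csB J N A, (1 : ℝ) := by
        apply norm_sum_le_of_le
        intro B _
        unfold csF
        rw [norm_mul, norm_mul, Complex.norm_real, RCLike.norm_conj, Real.norm_eq_abs]
        have h6 := hf (nm B)
        have h7 := csN_rho_nonneg J N (((dot A B : ℤ) : ℝ) / nm A)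
        have h8 := csN_rho_le J N (((dot A B : ℤ) : ℝ) / nm A)
        simp only
        rw [abs_of_nonneg (mul_nonneg h7 h7)]
        calc ‖f (nm B)‖ * ‖f (nm B)‖ * (rho J N (((dot A B : ℤ) : ℝ) / nm A) *
              rho J N (((dot A B : ℤ) : ℝ) / nm A)) ≤ 1 * 1 * (1 * 1) := by gcongr
          _ = 1 := by norm_num
      rw [sum_const, nsmul_eq_mul, mul_one] at h5
      have h6 : h (nm A / X) ^ 2 ≤ 1 := by
        have h7 := hh0 (nm A / X)
        have h8 := hh1 (nm A / X)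
        nlinarith
      calc h (nm A / X) ^ 2 * ‖∑ B ∈ csB J N A, csF f J N A (B, B)‖
          ≤ 1 * ((N : ℝ) + 1) := by
            apply mul_le_mul h6 (h5.trans (csN_card hA.1)) (norm_nonneg _) zero_le_one
        _ = (N : ℝ) + 1 := one_mul _
    rw [sum_const, nsmul_eq_mul] at h4
    calc _ ≤ (𝒜.card : ℝ) * ((N : ℝ) + 1) := h4
      _ ≤ 9 * (h2 * X) * ((N : ℝ) + 1) := by
        apply mul_le_mul_of_nonneg_right hcardA
        positivity
      _ = _ := by ring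
  have h4 : Q = D.re + 2 * U.re := by
    have h5 := congrArg Complex.re h3
    rw [Complex.ofReal_re, Complex.add_re, Complex.add_re, Complex.conj_re] at h5
    linarith
  rw [h4, ← hUG]
  have h5 := Complex.re_le_norm D
  have h6 := Complex.re_le_norm U
  linarith

end Pool.Agent.OmEq

end

/-! ### from `Lib_MP_f1a94e_eq.HDefs` -/

section

/-!
# Test functions and weights
-/

set_option autoImplicit false

namespace Pool.Agent.OmEq

open Finset Pool.Agent.GaussMR Pool.Agent.OmAll MeasureTheory Filter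

/-- test functions of `y = dot / X`, `t = log (nm V' / nm V)`, supported on `0 ≤ y ≤ b` -/
structure TF (b : ℝ) (W : ℝ → ℝ → ℂ) : Prop where
  cont : Continuous (Function.uncurry W)
  supp : HasCompactSupport (Function.uncurry W)
  lo : ∀ y t, y ≤ 0 → W y t = 0
  hi : ∀ y t, b ≤ y → W y t = 0

theorem ctw_supp {b : ℝ} {W : ℝ → ℝ → ℂ} (hW : TF b W) :
    ∃ R0 : ℝ, 0 < R0 ∧ ∀ y t, W y t ≠ 0 → |y| ≤ R0 ∧ |t| ≤ R0 := by
  obtain ⟨R1, hR1⟩ := hW.supp.isCompact.isBounded.subset_closedBall (0 : ℝ × ℝ)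
  refine ⟨max R1 1, by positivity, fun y t h => ?_⟩
  have h1 : (y, t) ∈ tsupport (Function.uncurry W) := subset_tsupport _ h
  have h2 := hR1 h1
  rw [mem_closedBall_zero_iff, Prod.norm_def, max_le_iff, Real.norm_eq_abs, Real.norm_eq_abs] at h2
  exact ⟨h2.1.trans (le_max_left _ _), h2.2.trans (le_max_left _ _)⟩

theorem ctw_cont_right {b : ℝ} {W : ℝ → ℝ → ℂ} (hW : TF b W) (y : ℝ) : Continuous (W y) :=
  hW.cont.comp (Continuous.prodMk_right y)

theorem ctw_supp_right {b : ℝ} {W : ℝ → ℝ → ℂ} (hW : TF b W) (y : ℝ) : HasCompactSupport (W y) := by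
  obtain ⟨R0, _, hR⟩ := ctw_supp hW
  refine HasCompactSupport.of_support_subset_isCompact (isCompact_Icc (a := -R0) (b := R0)) ?_
  intro t ht
  rw [Set.mem_Icc, ← abs_le]
  exact (hR y t ht).2

/-- continuous cut-off functions supported in `[h1, h2]`, `0 < h1` -/
structure HF (h : ℝ → ℝ) (h1 h2 : ℝ) : Prop where
  cont : Continuous h
  nn : ∀ y, 0 ≤ h y
  le : ∀ y, h y ≤ 1
  pos : 0 < h1
  one : 1 ≤ h2
  lo : ∀ y, y ≤ h1 → h y = 0
  hi : ∀ y, h2 ≤ y → h y = 0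

/-- the limit of the weight `wN` as a function of `y = dot / X` and `t = log (nm V' / nm V)`; `x = exp (t / 2)` -/
noncomputable def WN (h : ℝ → ℝ) (J N n : ℕ) (y t : ℝ) : ℂ :=
  if t < 0 then ((h (y * (1 - Real.exp (t / 2)) ^ 2 / (n ^ 2 * Real.exp (t / 2))) ^ 2 *
    rho J N (n / (1 - Real.exp (t / 2))) * rho J N (n * Real.exp (t / 2) / (1 - Real.exp (t / 2))) : ℝ) : ℂ) else 0


theorem apxn_rho_cont (J N : ℕ) : Continuous (rho J N) := by
  unfold rho
  exact continuous_const.max (continuous_const.sub ((((continuous_const.mul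
    (continuous_id.sub continuous_const)).div_const _).sub continuous_const).abs))

theorem apxn_rho_nn (J N : ℕ) (r : ℝ) : 0 ≤ rho J N r := le_max_left _ _

theorem apxn_rho_ne {J N : ℕ} (hN : 1 ≤ N) {r : ℝ} (h : rho J N r ≠ 0) : (J : ℝ) < r ∧ r < J + N := by
  have hN' : (0 : ℝ) < N := by exact_mod_cast hN
  unfold rho at h
  have h1 : 0 < 1 - |2 * (r - J) / N - 1| := by
    by_contra h2
    exact h (max_eq_left (not_lt.1 h2))
  have h3 : |2 * (r - J) / N - 1| < 1 := by linarith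
  rw [abs_lt] at h3
  obtain ⟨h4, h5⟩ := h3
  have h6 : 0 < 2 * (r - J) / N := by linarith
  have h7 : 2 * (r - J) / N < 2 := by linarith
  rw [div_lt_iff₀ hN'] at h7
  have h8 : 0 < 2 * (r - J) := by
    by_contra h9
    exact absurd h6 (not_lt.2 (div_nonpos_of_nonpos_of_nonneg (not_lt.1 h9) hN'.le))
  constructor <;> linarith

/-- the triangle function -/
noncomputable def ps0 (t : ℝ) : ℝ := max 0 (1 - |t|)

/-- the correlations are small on average -/
def GmSmall (f : ℕ → ℂ) : Prop :=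
  ∀ (h : ℝ → ℝ) (h1 h2 : ℝ), HF h h1 h2 → ∀ ε : ℝ, 0 < ε → ∃ N0 : ℕ, ∀ N : ℕ, N0 ≤ N → ∃ J0 : ℕ, ∀ J : ℕ, J0 ≤ J →
    ∀ᶠ X : ℝ in atTop, ‖∑ n ∈ Icc 1 N, Gm f h J N n (((J + N) ^ 2 * h2 + 1) * X) X‖ ≤ ε * N ^ 2 * X

end Pool.Agent.OmEq

end

/-! ### from `Lib_MP_f1a94e_eq.BDefs` -/

section

/-!
# Stage B (`ω = -1`): definitions

After the clusters only the average over (almost) all classes remains.
-/

set_option autoImplicit false

namespace Pool.Agent.OmEq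

open Finset Pool.Agent.GaussMR Pool.Agent.OmAll MeasureTheory Filter

/-- the index of the classes `1 mod 4` -/
noncomputable def kap (n : ℕ) : ℝ := if 4 ∣ n then 2 else 1

/-- if `4 ∣ n` then `V' = V mod 4` -/
def hc (n : ℕ) (e : G × G) : Prop := 4 ∣ n → cg 4 e.2 e.1

open Classical in
/-- the sum over almost all classes -/
noncomputable def Qs (f : ℕ → ℂ) (n : ℕ) (x : ℝ) (W : ℝ → ℝ → ℂ) (X : ℝ) : ℂ :=
  ∑ e ∈ (EN n x).filter (hc n), f (nm e.1) * (starRingEnd ℂ) (f (nm e.2)) * W (mE e / X) (tE e)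

/-- the triangle on `[0, 1]` -/
noncomputable def r0 (u : ℝ) : ℝ := max 0 (1 - |2 * u - 1|)

/-- its autocorrelation -/
noncomputable def ww (s : ℝ) : ℝ := ∫ u, r0 u * r0 (u - s)

/-- weighted sums of the correlations -/
def QSmall (f : ℕ → ℂ) : Prop :=
  ∀ (h : ℝ → ℝ) (h1 h2 : ℝ), HF h h1 h2 → ∀ ε : ℝ, 0 < ε → ∃ N0 : ℕ, ∀ N : ℕ, N0 ≤ N → ∀ᶠ Y : ℝ in atTop,
    ‖∑ n ∈ Icc 1 N, ((kap n * (n / n.totient) * ww ((n : ℝ) / N) : ℝ) : ℂ) *
      Qs f n (h2 * Y) (fun y t => ((h y ^ 2 * ps0 t : ℝ) : ℂ)) Y‖ ≤ ε * N * Y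

/-- the same over the multiples of `d`, without the factor `n / φ(n)` -/
def QdSmall (f : ℕ → ℂ) : Prop :=
  ∀ d : ℕ, 1 ≤ d → ∀ (h : ℝ → ℝ) (h1 h2 : ℝ), HF h h1 h2 → ∀ ε : ℝ, 0 < ε → ∃ N0 : ℕ, ∀ N : ℕ, N0 ≤ N →
    ∀ᶠ Y : ℝ in atTop, ‖∑ n ∈ (Icc 1 N).filter (fun n => d ∣ n), ((kap n * ww ((n : ℝ) / N) : ℝ) : ℂ) *
      Qs f n (h2 * Y) (fun y t => ((h y ^ 2 * ps0 t : ℝ) : ℂ)) Y‖ ≤ ε * N * Y

/-- the argument of `z` modulo `2 π` lies in `[θ, θ + δ)` -/
def arcIn (θ δ : ℝ) (z : G) : Prop :=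
  ∃ k : ℤ, θ ≤ Complex.arg (z : ℂ) + 2 * Real.pi * k ∧ Complex.arg (z : ℂ) + 2 * Real.pi * k < θ + δ

open Classical in
/-- all primitive Gaussian integers of norm at most `X` -/
noncomputable def PV (X : ℝ) : Finset G := (ball X).filter Prim

open Classical in
/-- sum over an arc and a residue class, odd primitive -/
noncomputable def So (f : ℕ → ℂ) (D : ℕ) (b : G) (X δ θ : ℝ) : ℂ :=
  ∑ z ∈ (V X).filter (fun z => cg D z b ∧ arcIn θ δ z), f (nm z)

open Classical in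
/-- sum over an arc and a residue class, primitive -/
noncomputable def Sp (f : ℕ → ℂ) (D : ℕ) (b : G) (X δ θ : ℝ) : ℂ :=
  ∑ z ∈ (PV X).filter (fun z => cg D z b ∧ arcIn θ δ z), f (nm z)

/-- Matomaki-Radziwill in arcs, odd primitive numbers -/
def MRO (f : ℕ → ℂ) : Prop :=
  ∀ D : ℕ, 0 < D → ∀ b : G, ∀ ε : ℝ, 0 < ε → ∃ H0 : ℝ, 0 < H0 ∧ ∀ H : ℝ, H0 ≤ H → ∃ X0 : ℝ, ∀ X : ℝ, X0 ≤ X →
    ∫ θ in (0 : ℝ)..(2 * Real.pi), ‖So f D b X (H / X) θ‖ ^ 2 ≤ ε * H ^ 2

/-- Matomaki-Radziwill in arcs, primitive numbers -/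
def MRP (f : ℕ → ℂ) : Prop :=
  ∀ D : ℕ, 0 < D → ∀ b : G, ∀ ε : ℝ, 0 < ε → ∃ H0 : ℝ, 0 < H0 ∧ ∀ H : ℝ, H0 ≤ H → ∃ X0 : ℝ, ∀ X : ℝ, X0 ≤ X →
    ∫ θ in (0 : ℝ)..(2 * Real.pi), ‖Sp f D b X (H / X) θ‖ ^ 2 ≤ ε * H ^ 2

/-- the oriented angle from `V` to `V'`, in `(-π, π]` -/
noncomputable def ang (V V' : G) : ℝ := Complex.arg ((star V * V' : G) : ℂ)

theorem mem_PV {X : ℝ} {z : G} : z ∈ PV X ↔ (nm z : ℝ) ≤ X ∧ Prim z := by
  classical
  unfold PV
  rw [mem_filter, mem_ball]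

end Pool.Agent.OmEq

end

/-! ### from `Lib_MP_f1a94e_lp.Defs` -/

section

/-!
# MP_f1a94e_nt, joint law of the large prime factors: definitions

Families `f X` of completely multiplicative functions (the scale `X` tends to infinity). The geometric scale is always
called `X` (or `Y`), the index of the family is `a * X` with a fixed `a > 0`.
-/

set_option autoImplicit false

namespace Pool.Agent.LPr

open Finset Pool.Agent.GaussMR Pool.Agent.OmAll Pool.Agent.OmEq MeasureTheory Filter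

/-- families of completely multiplicative functions bounded by one which at every fixed prime `1 mod 4` outside `E`
are eventually equal to `ω` -/
structure FX (f : ℝ → ℕ → ℂ) (E : Finset ℕ) (ω : ℂ) : Prop where
  mul : ∀ X m n, f X (m * n) = f X m * f X n
  bd : ∀ X n, ‖f X n‖ ≤ 1
  pr : ∀ T : ℕ, ∀ᶠ X : ℝ in atTop, ∀ p : ℕ, p ≤ T → p.Prime → p % 4 = 1 → p ∉ E → f X p = ω

/-- functions on pairs that are multiplied by `g p` when a prime `γ` of norm `p ≤ T`, `p ∉ E`, moves from `V'` to `V` -/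
structure CmpT (n : ℕ) (E : Finset ℕ) (T : ℕ) (g : ℕ → ℂ) (Φ : G × G → ℂ) : Prop where
  bd : ∀ e, ‖Φ e‖ ≤ 1
  mv : ∀ γ U W : G, (nm γ).Prime → nm γ % 4 = 1 → nm γ ≤ T → nm γ ∉ E → En n (γ * U, W) →
    ¬ (nm γ) ^ 2 ∣ nm (γ * U) * nm W → Φ (γ * U, W) = g (nm γ) * Φ (U, star γ * W)

open Classical in
/-- `Qs` for two functions -/
noncomputable def Qs2 (f1 f2 : ℕ → ℂ) (n : ℕ) (x : ℝ) (W : ℝ → ℝ → ℂ) (X : ℝ) : ℂ :=
  ∑ e ∈ (EN n x).filter (hc n), f1 (nm e.1) * (starRingEnd ℂ) (f2 (nm e.2)) * W (mE e / X) (tE e)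

open Classical in
/-- the sum over the pairs congruent modulo the determinant -/
noncomputable def Cg2 (f1 f2 : ℕ → ℂ) (n : ℕ) (x : ℝ) (W : ℝ → ℝ → ℂ) (X : ℝ) : ℂ :=
  ∑ e ∈ (EN n x).filter (fun e => cg n e.2 e.1), f1 (nm e.1) * (starRingEnd ℂ) (f2 (nm e.2)) * W (mE e / X) (tE e)

/-- the sum over edges for two functions -/
noncomputable def Sx2 (f1 f2 : ℕ → ℂ) (x : ℝ) (W : ℝ → ℝ → ℂ) (X : ℝ) : ℂ :=
  ∑ e ∈ EN 1 x, f1 (nm e.1) * f2 (nm e.2) * W (mE e / X) (tE e)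

/-- one class is asymptotically its share of almost all classes -/
def GBX (f : ℝ → ℕ → ℂ) : Prop :=
  ∀ n : ℕ, 0 < n → ∀ (b : ℝ) (W : ℝ → ℝ → ℂ), TF b W → ∀ a : ℝ, 0 < a →
    Tendsto (fun X : ℝ => (Cg2 (f (a * X)) (f (a * X)) n (b * X) W X -
      ((kap n / n.totient : ℝ) : ℂ) * Qs (f (a * X)) n (b * X) W X) / X) atTop (nhds 0)

/-- test functions of mean zero in `t` give nothing (almost all classes) -/
def TVX (f : ℝ → ℕ → ℂ) : Prop :=
  ∀ n : ℕ, 0 < n → ∀ (b : ℝ) (W : ℝ → ℝ → ℂ), TF b W → (∀ y, (∫ t, W y t) = 0) → ∀ a : ℝ, 0 < a →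
    Tendsto (fun X : ℝ => Qs (f (a * X)) n (b * X) W X / X) atTop (nhds 0)

/-- the sums over one class are small -/
def GAX (f : ℝ → ℕ → ℂ) : Prop :=
  ∀ n : ℕ, 0 < n → ∀ (b : ℝ) (W : ℝ → ℝ → ℂ), TF b W → ∀ a : ℝ, 0 < a →
    Tendsto (fun X : ℝ => Cg2 (f (a * X)) (f (a * X)) n (b * X) W X / X) atTop (nhds 0)

/-- test functions of mean zero in `t` give nothing (edges, two functions) -/
def PTX (f1 f2 : ℝ → ℕ → ℂ) : Prop :=
  ∀ (b : ℝ) (W : ℝ → ℝ → ℂ), TF b W → (∀ y, (∫ t, W y t) = 0) → ∀ a : ℝ, 0 < a →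
    Tendsto (fun X : ℝ => Sx2 (f1 (a * X)) (f2 (a * X)) (b * X) W X / X) atTop (nhds 0)

/-- the correlations are small on average -/
def GmSmallX (f : ℝ → ℕ → ℂ) : Prop :=
  ∀ (h : ℝ → ℝ) (h1 h2 : ℝ), HF h h1 h2 → ∀ ε : ℝ, 0 < ε → ∃ N0 : ℕ, ∀ N : ℕ, N0 ≤ N → ∃ J0 : ℕ, ∀ J : ℕ, J0 ≤ J →
    ∀ a : ℝ, 0 < a → ∀ᶠ X : ℝ in atTop,
      ‖∑ n ∈ Icc 1 N, Gm (f (a * X)) h J N n (((J + N) ^ 2 * h2 + 1) * X) X‖ ≤ ε * N ^ 2 * X

/-- weighted sums of the correlations -/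
def QSmallX (f : ℝ → ℕ → ℂ) : Prop :=
  ∀ (h : ℝ → ℝ) (h1 h2 : ℝ), HF h h1 h2 → ∀ ε : ℝ, 0 < ε → ∃ N0 : ℕ, ∀ N : ℕ, N0 ≤ N → ∀ a : ℝ, 0 < a →
    ∀ᶠ Y : ℝ in atTop,
    ‖∑ n ∈ Icc 1 N, ((kap n * (n / n.totient) * ww ((n : ℝ) / N) : ℝ) : ℂ) *
      Qs (f (a * Y)) n (h2 * Y) (fun y t => ((h y ^ 2 * ps0 t : ℝ) : ℂ)) Y‖ ≤ ε * N * Y

/-- the same over the multiples of `d`, without the factor `n / φ(n)` -/
def QdSmallX (f : ℝ → ℕ → ℂ) : Prop :=
  ∀ d : ℕ, 1 ≤ d → ∀ (h : ℝ → ℝ) (h1 h2 : ℝ), HF h h1 h2 → ∀ ε : ℝ, 0 < ε → ∃ N0 : ℕ, ∀ N : ℕ, N0 ≤ N →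
    ∀ a : ℝ, 0 < a → ∀ᶠ Y : ℝ in atTop,
    ‖∑ n ∈ (Icc 1 N).filter (fun n => d ∣ n), ((kap n * ww ((n : ℝ) / N) : ℝ) : ℂ) *
      Qs (f (a * Y)) n (h2 * Y) (fun y t => ((h y ^ 2 * ps0 t : ℝ) : ℂ)) Y‖ ≤ ε * N * Y

/-- Matomaki-Radziwill in arcs, odd primitive numbers -/
def MROX (f : ℝ → ℕ → ℂ) : Prop :=
  ∀ D : ℕ, 0 < D → ∀ b : G, ∀ ε : ℝ, 0 < ε → ∃ H0 : ℝ, 0 < H0 ∧ ∀ H : ℝ, H0 ≤ H → ∀ a : ℝ, 0 < a →
    ∀ᶠ X : ℝ in atTop, ∫ θ in (0 : ℝ)..(2 * Real.pi), ‖So (f (a * X)) D b X (H / X) θ‖ ^ 2 ≤ ε * H ^ 2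

/-- Matomaki-Radziwill in arcs, primitive numbers -/
def MRPX (f : ℝ → ℕ → ℂ) : Prop :=
  ∀ D : ℕ, 0 < D → ∀ b : G, ∀ ε : ℝ, 0 < ε → ∃ H0 : ℝ, 0 < H0 ∧ ∀ H : ℝ, H0 ≤ H → ∀ a : ℝ, 0 < a →
    ∀ᶠ X : ℝ in atTop, ∫ θ in (0 : ℝ)..(2 * Real.pi), ‖Sp (f (a * X)) D b X (H / X) θ‖ ^ 2 ≤ ε * H ^ 2

open Classical in
/-- the sums over a residue class -/
noncomputable def clS (f : ℕ → ℂ) (D : ℕ) (b : G) (X : ℝ) : ℂ := ∑ z ∈ (V X).filter (fun z => cg D z b), f (nm z)

/-- the sums over the residue classes are small -/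
def CSX (f : ℝ → ℕ → ℂ) : Prop :=
  ∀ D : ℕ, 0 < D → ∀ b : G, ∀ a : ℝ, 0 < a → Tendsto (fun X : ℝ => clS (f (a * X)) D b X / X) atTop (nhds 0)

/-! ### The family -/

/-- `w ^ Ω(n)` times `gx` on the numbers coprime to `R`, zero otherwise -/
noncomputable def fx (R : ℕ) (w : ℂ) (φ : ℝ → ℂ) (X : ℝ) (n : ℕ) : ℂ :=
  if n = 0 ∨ ¬ n.Coprime R then 0 else w ^ ArithmeticFunction.cardFactors n * gx φ X n

/-! ### Simple facts -/

theorem FX.conj {f : ℝ → ℕ → ℂ} {E : Finset ℕ} {ω : ℂ} (h : FX f E ω) :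
    FX (fun X n => (starRingEnd ℂ) (f X n)) E ((starRingEnd ℂ) ω) := by
  refine ⟨fun X m n => ?_, fun X n => ?_, fun T => ?_⟩
  · rw [h.mul, map_mul]
  · rw [RCLike.norm_conj]
    exact h.bd X n
  · filter_upwards [h.pr T] with X hX p h1 h2 h3 h4
    rw [hX p h1 h2 h3 h4]

theorem FX.dil {f : ℝ → ℕ → ℂ} {E : Finset ℕ} {ω : ℂ} (h : FX f E ω) {a : ℝ} (ha : 0 < a) :
    FX (fun X => f (a * X)) E ω :=
  ⟨fun X => h.mul (a * X), fun X => h.bd (a * X),
    fun T => (tendsto_id.const_mul_atTop ha).eventually (h.pr T)⟩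

end Pool.Agent.LPr

end
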