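import Pool.Agent.Lib_MP_92ef0c_m.M03
import Pool.Agent.Lib_MP_92ef0c_m.M06
import Pool.Agent.Lib_MP_92ef0c_m.M07
import Pool.Agent.Lib_MP_92ef0c_m.M09
import Pool.Agent.Lib_MP_92ef0c_m.M19

/-!
# MP_92ef0c_nt, split pairs: merged library part M20

Concatenation of smaller files (each in its own section), only to save build time.
-/

/-! ### from `Lib_MP_f1a94e_mr.BH` -/

section

/-!
# Piece BH: the Brun-Hooley lower bound sieve (abstract form)
-/

set_option autoImplicit false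

namespace Pool.Agent.GaussMR

open Classical in
theorem bh_image_sum {ι : Type} (U : Finset ι) (f : ι → ℕ) (hf : Set.InjOn f (U : Set ι))
    (F : Finset ℕ → ℝ) :
    ∑ A ∈ (U.image f).powerset, F A = ∑ D ∈ U.powerset, F (D.image f) := by
  have h1 : (U.image f).powerset = U.powerset.image (fun D => D.image f) := by
    ext A
    simp only [Finset.mem_powerset, Finset.mem_image, Finset.subset_image_iff]
  rw [h1, Finset.sum_image]
  intro A hA B hB hAB
  have hA' := Finset.mem_powerset.1 (Finset.mem_coe.1 hA)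
  have hB' := Finset.mem_powerset.1 (Finset.mem_coe.1 hB)
  ext x
  constructor
  · intro hx
    have : f x ∈ B.image f := by
      have h2 : f x ∈ A.image f := Finset.mem_image_of_mem f hx
      have h3 : A.image f = B.image f := hAB
      rwa [h3] at h2
    obtain ⟨y, hy, hxy⟩ := Finset.mem_image.1 this
    have := hf (Finset.mem_coe.2 (hB' hy)) (Finset.mem_coe.2 (hA' hx)) hxy
    exact this ▸ hy
  · intro hx
    have : f x ∈ A.image f := by
      have h2 : f x ∈ B.image f := Finset.mem_image_of_mem f hx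
      have h3 : A.image f = B.image f := hAB
      rwa [← h3] at h2
    obtain ⟨y, hy, hxy⟩ := Finset.mem_image.1 this
    have := hf (Finset.mem_coe.2 (hA' hy)) (Finset.mem_coe.2 (hB' hx)) hxy
    exact this ▸ hy

open Classical in
/-- the weights for an arbitrary index type -/
theorem bh_core {ι : Type} (t : ℕ) (P : ℕ → Finset ι) (b : ℕ)
    (hd : ∀ i j, i < t → j < t → i ≠ j → Disjoint (P i) (P j)) (g : ι → ℝ)
    (hg : ∀ p ∈ (Finset.range t).biUnion P, 0 ≤ g p ∧ g p ≤ 1 / 2)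
    (hs : ∑ j ∈ Finset.range t, (∑ p ∈ P j, g p) ^ (2 * (b + j) + 1) /
      ((2 * (b + j) + 1).factorial : ℝ) * Real.exp (2 * ∑ p ∈ P j, g p) ≤ 1 / 2) :
    ∃ lam : Finset ι → ℝ, (∀ A, |lam A| ≤ 1) ∧
      (∀ A ⊆ (Finset.range t).biUnion P, lam A ≠ 0 → ∀ j < t,
        (A ∩ P j).card ≤ 2 * (b + j) + 1) ∧
      (∀ S ⊆ (Finset.range t).biUnion P, ∑ A ∈ S.powerset, lam A ≤ if S = ∅ then 1 else 0) ∧
      1 / 2 * ∏ p ∈ (Finset.range t).biUnion P, (1 - g p) ≤
          ∑ A ∈ ((Finset.range t).biUnion P).powerset, lam A * ∏ p ∈ A, g p := by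
  set U := (Finset.range t).biUnion P with hU
  have hPU : ∀ j < t, P j ⊆ U := fun j hj x hx =>
    Finset.mem_biUnion.2 ⟨j, Finset.mem_range.2 hj, hx⟩
  let f : ι → ℕ := fun x => if h : x ∈ U then (U.equivFin ⟨x, h⟩ : ℕ) else 0
  have hf : Set.InjOn f (U : Set ι) := by
    intro x hx y hy hxy
    have hx' : x ∈ U := hx
    have hy' : y ∈ U := hy
    simp only [f, dif_pos hx', dif_pos hy'] at hxy
    have := U.equivFin.injective (Fin.ext hxy)
    exact congrArg Subtype.val this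
  let g' : ℕ → ℝ := fun q => if h : q < U.card then g (U.equivFin.symm ⟨q, h⟩) else 0
  have hg' : ∀ x ∈ U, g' (f x) = g x := by
    intro x hx
    have h1 : f x = (U.equivFin ⟨x, hx⟩ : ℕ) := by simp only [f, dif_pos hx]
    have h2 : f x < U.card := by rw [h1]; exact (U.equivFin ⟨x, hx⟩).2
    simp only [g', dif_pos h2]
    have h3 : (⟨f x, h2⟩ : Fin U.card) = U.equivFin ⟨x, hx⟩ := Fin.ext h1
    rw [h3, Equiv.symm_apply_apply]
  let B : ℕ → Finset ℕ := fun j => (P j).image f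
  have hBU : (Finset.range t).biUnion B = U.image f := by
    rw [hU, Finset.biUnion_image]
  have hdB : ∀ i < t, ∀ j < t, i ≠ j → Disjoint (B i) (B j) := by
    intro i hi j hj hij
    rw [Finset.disjoint_left]
    intro q hq1 hq2
    obtain ⟨x, hx, hxq⟩ := Finset.mem_image.1 hq1
    obtain ⟨y, hy, hyq⟩ := Finset.mem_image.1 hq2
    have := hf (Finset.mem_coe.2 (hPU i hi hx)) (Finset.mem_coe.2 (hPU j hj hy))
      (hxq.trans hyq.symm)
    rw [this] at hx
    exact Finset.disjoint_left.1 (hd i j hi hj hij) hx hy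
  obtain ⟨lam, h1, h2, h3, h4⟩ := Pool.Agent.OmAP.core t B (fun j => 2 * (b + j))
    (fun j => even_two_mul _) hdB
  have hprod : ∀ D ⊆ U, ∏ q ∈ D.image f, g' q = ∏ p ∈ D, g p := by
    intro D hD
    rw [Finset.prod_image (fun x hx y hy hxy => hf (Finset.mem_coe.2 (hD hx))
      (Finset.mem_coe.2 (hD hy)) hxy)]
    exact Finset.prod_congr rfl fun x hx => hg' x (hD hx)
  have hsumB : ∀ j < t, ∑ q ∈ B j, g' q = ∑ p ∈ P j, g p := by
    intro j hj
    rw [Finset.sum_image (fun x hx y hy hxy => hf (Finset.mem_coe.2 (hPU j hj hx))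
      (Finset.mem_coe.2 (hPU j hj hy)) hxy)]
    exact Finset.sum_congr rfl fun x hx => hg' x (hPU j hj hx)
  refine ⟨fun A => lam (A.image f), fun A => h1 _, ?_, ?_, ?_⟩
  · intro A hA hne j hj
    have h5 := h2 _ hne j hj
    have h6 : (A ∩ P j).image f ⊆ A.image f ∩ B j := by
      intro q hq
      obtain ⟨x, hx, hxq⟩ := Finset.mem_image.1 hq
      have hx' := Finset.mem_inter.1 hx
      exact Finset.mem_inter.2 ⟨Finset.mem_image.2 ⟨x, hx'.1, hxq⟩,
        Finset.mem_image.2 ⟨x, hx'.2, hxq⟩⟩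
    have h7 : ((A ∩ P j).image f).card = (A ∩ P j).card :=
      Finset.card_image_of_injOn fun x hx y hy hxy =>
        hf (Finset.mem_coe.2 (hA (Finset.mem_inter.1 (Finset.mem_coe.1 hx)).1))
          (Finset.mem_coe.2 (hA (Finset.mem_inter.1 (Finset.mem_coe.1 hy)).1)) hxy
    have h8 := Finset.card_le_card h6
    omega
  · intro S hS
    have h5 := h3 (S.image f) (by
      rw [hBU]
      exact Finset.image_subset_image hS)
    rw [bh_image_sum S f (hf.mono (by exact_mod_cast hS))] at h5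
    refine h5.trans (le_of_eq ?_)
    by_cases hSe : S = ∅
    · rw [if_pos hSe, if_pos (by rw [hSe, Finset.image_empty])]
    · rw [if_neg hSe, if_neg (by rwa [Finset.image_eq_empty])]
  · have h5 := h4 g' (by
      rw [hBU]
      intro q hq
      obtain ⟨x, hx, rfl⟩ := Finset.mem_image.1 hq
      rw [hg' x hx]
      exact hg x hx) (by
      refine le_trans (le_of_eq ?_) hs
      refine Finset.sum_congr rfl fun j hj => ?_
      rw [hsumB j (Finset.mem_range.1 hj)])
    rw [hBU, bh_image_sum U f hf] at h5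
    refine le_trans (le_of_eq ?_) (h5.trans (le_of_eq ?_))
    · congr 1
      rw [Finset.prod_image (fun x hx y hy hxy => hf hx hy hxy)]
      exact Finset.prod_congr rfl fun x hx => by rw [hg' x hx]
    · exact Finset.sum_congr rfl fun D hD => by rw [hprod D (Finset.mem_powerset.1 hD)]

theorem bh_choice (G0 : ℝ) (hG0 : 0 ≤ G0) : ∃ b : ℕ, ∀ t : ℕ,
    ∑ j ∈ Finset.range t, G0 ^ (2 * (b + j) + 1) / ((2 * (b + j) + 1).factorial : ℝ) *
      Real.exp (2 * G0) ≤ 1 / 2 := by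
  have hsum : Summable fun n : ℕ => G0 ^ n / (n.factorial : ℝ) :=
    Real.summable_pow_div_factorial G0
  have htail := tendsto_sum_nat_add fun n : ℕ => G0 ^ n / (n.factorial : ℝ)
  have hpos : (0 : ℝ) < Real.exp (-(2 * G0)) / 2 := by positivity
  obtain ⟨N, hN⟩ := (htail.eventually (gt_mem_nhds hpos)).exists_forall_of_atTop
  refine ⟨N, fun t => ?_⟩
  have hN' := hN N le_rfl
  have hsN : Summable fun n : ℕ => G0 ^ (n + N) / ((n + N).factorial : ℝ) :=
    (summable_nat_add_iff N).2 hsum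
  have hinj : Set.InjOn (fun j : ℕ => N + 2 * j + 1) (Finset.range t : Set ℕ) := by
    intro x _ y _ hxy
    simp only at hxy
    omega
  have h1 : ∑ j ∈ Finset.range t, G0 ^ (2 * (N + j) + 1) / ((2 * (N + j) + 1).factorial : ℝ) ≤
      ∑' n : ℕ, G0 ^ (n + N) / ((n + N).factorial : ℝ) := by
    calc ∑ j ∈ Finset.range t, G0 ^ (2 * (N + j) + 1) / ((2 * (N + j) + 1).factorial : ℝ) =
        ∑ n ∈ (Finset.range t).image (fun j : ℕ => N + 2 * j + 1),
          G0 ^ (n + N) / ((n + N).factorial : ℝ) := by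
          rw [Finset.sum_image hinj]
          refine Finset.sum_congr rfl fun j _ => ?_
          have : N + 2 * j + 1 + N = 2 * (N + j) + 1 := by ring
          rw [this]
      _ ≤ _ := hsN.sum_le_tsum _ fun n _ => by positivity
  rw [← Finset.sum_mul]
  have h2 : ∑ j ∈ Finset.range t, G0 ^ (2 * (N + j) + 1) / ((2 * (N + j) + 1).factorial : ℝ) ≤
      Real.exp (-(2 * G0)) / 2 := h1.trans hN'.le
  calc (∑ j ∈ Finset.range t, G0 ^ (2 * (N + j) + 1) / ((2 * (N + j) + 1).factorial : ℝ)) *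
      Real.exp (2 * G0) ≤ Real.exp (-(2 * G0)) / 2 * Real.exp (2 * G0) := by gcongr
    _ = 1 / 2 := by
      rw [div_mul_eq_mul_div, ← Real.exp_add, neg_add_cancel, Real.exp_zero]

open Classical in
/-- Sieving primes in classes `P 0, …, P (t-1)`, with class sums `∑ g ≤ G0`; `2 (b + i)` is the truncation
level in class `i`. For an object `u` with `S_i = S u ∩ P i` put `x_i = 1` if `S_i = ∅`, else `0`,
`y_i = ∑_{D ⊆ S_i, |D| ≤ 2(b+i)} (-1)^|D|`, `e_i = #{D ⊆ S_i : |D| = 2(b+i)+1}`. Bonferroni: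
`0 ≤ x_i ≤ y_i ≤ x_i + e_i`, hence `∏ x_i ≥ ∏ y_i - ∑_l e_l ∏_{i ≠ l} y_i`. Multiply by `w u`, sum over
`u` and insert `∑_{u : D ⊆ S u} w u = X0 ∏_{p ∈ D} g p + r(D)`, `|r(D)| ≤ E`: the main term is
`X0 (∏ Y_i - ∑_l E_l ∏_{i ≠ l} Y_i)` with `Y_i = ∑_{D ⊆ P i, |D| ≤ 2(b+i)} (-1)^|D| ∏_D g
≥ V_i = ∏_{P i} (1 - g)` and `E_l = ∑_{|D| = 2(b+l)+1} ∏_D g ≤ G0^(2(b+l)+1) / (2(b+l)+1)!`, and
`V_i ≥ 4^(-G0)`. Choose `b` with `∑_l 4^G0 G0^(2(b+l)+1) / (2(b+l)+1)! ≤ 1/2`. -/
theorem brun_hooley (G0 : ℝ) (hG0 : 0 ≤ G0) : ∃ b : ℕ, ∀ (Ω ι : Type) (obj : Finset Ω) (w : Ω → ℝ)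
    (t : ℕ) (P : ℕ → Finset ι) (S : Ω → Finset ι) (g : ι → ℝ) (X0 E : ℝ),
    (∀ u ∈ obj, 0 ≤ w u) → (∀ i j, i < t → j < t → i ≠ j → Disjoint (P i) (P j)) →
    (∀ u ∈ obj, S u ⊆ (Finset.range t).biUnion P) →
    (∀ p ∈ (Finset.range t).biUnion P, 0 ≤ g p ∧ g p ≤ 1 / 2) →
    (∀ i < t, ∑ p ∈ P i, g p ≤ G0) → 0 ≤ X0 → 0 ≤ E →
    (∀ D ⊆ (Finset.range t).biUnion P, (∀ i < t, (D ∩ P i).card ≤ 2 * (b + i) + 1) →
      |∑ u ∈ obj.filter (fun u => D ⊆ S u), w u - X0 * ∏ p ∈ D, g p| ≤ E) →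
    X0 / 2 * ∏ p ∈ (Finset.range t).biUnion P, (1 - g p) -
      (t + 1) * (((Finset.range t).biUnion P).powerset.filter
        (fun D => ∀ i < t, (D ∩ P i).card ≤ 2 * (b + i) + 1)).card * E ≤
      ∑ u ∈ obj.filter (fun u => S u = ∅), w u := by
  obtain ⟨b, hb⟩ := bh_choice G0 hG0
  refine ⟨b, ?_⟩
  intro Ω ι obj w t P S g X0 E hw hd hS hg hG hX0 hE hr
  set U := (Finset.range t).biUnion P with hU
  have hPU : ∀ j < t, P j ⊆ U := fun j hj x hx =>
    Finset.mem_biUnion.2 ⟨j, Finset.mem_range.2 hj, hx⟩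
  have hgs : ∀ j < t, 0 ≤ ∑ p ∈ P j, g p := fun j hj =>
    Finset.sum_nonneg fun p hp => (hg p (hPU j hj hp)).1
  obtain ⟨lam, h1, h2, h3, h4⟩ := bh_core t P b hd g hg (by
    refine le_trans (Finset.sum_le_sum fun j hj => ?_) (hb t)
    have hj' := Finset.mem_range.1 hj
    have h0 := hgs j hj'
    have h5 := hG j hj'
    gcongr)
  rw [← hU] at h2 h3 h4
  have step1 : ∑ u ∈ obj, w u * ∑ A ∈ (S u).powerset, lam A ≤
      ∑ u ∈ obj.filter (fun u => S u = ∅), w u := by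
    rw [Finset.sum_filter]
    refine Finset.sum_le_sum fun u hu => ?_
    have h5 := mul_le_mul_of_nonneg_left (h3 (S u) (hS u hu)) (hw u hu)
    refine h5.trans (le_of_eq ?_)
    split_ifs <;> simp
  have step2 : ∑ u ∈ obj, w u * ∑ A ∈ (S u).powerset, lam A =
      ∑ A ∈ U.powerset, lam A * ∑ u ∈ obj.filter (fun u => A ⊆ S u), w u := by
    have e1 : ∀ u ∈ obj, w u * ∑ A ∈ (S u).powerset, lam A =
        ∑ A ∈ U.powerset, if A ⊆ S u then lam A * w u else 0 := by
      intro u hu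
      rw [Finset.mul_sum, ← Finset.sum_filter]
      have : U.powerset.filter (fun A => A ⊆ S u) = (S u).powerset := by
        ext A
        simp only [Finset.mem_filter, Finset.mem_powerset]
        exact ⟨fun h => h.2, fun h => ⟨h.trans (hS u hu), h⟩⟩
      rw [this]
      exact Finset.sum_congr rfl fun A _ => mul_comm _ _
    rw [Finset.sum_congr rfl e1, Finset.sum_comm]
    refine Finset.sum_congr rfl fun A _ => ?_
    rw [Finset.mul_sum, Finset.sum_filter]
  have step3 : ∀ A ∈ U.powerset, lam A * (X0 * ∏ p ∈ A, g p) -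
      (if ∀ i < t, (A ∩ P i).card ≤ 2 * (b + i) + 1 then E else 0) ≤
      lam A * ∑ u ∈ obj.filter (fun u => A ⊆ S u), w u := by
    intro A hA
    have hA' := Finset.mem_powerset.1 hA
    by_cases hl : lam A = 0
    · rw [hl, zero_mul, zero_mul, zero_sub, neg_nonpos]
      split_ifs
      · exact hE
      · exact le_rfl
    · have hc := h2 A hA' hl
      rw [if_pos hc]
      have h5 := hr A hA' hc
      have h6 : |lam A * (∑ u ∈ obj.filter (fun u => A ⊆ S u), w u - X0 * ∏ p ∈ A, g p)| ≤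
          1 * E := by
        rw [abs_mul]
        exact mul_le_mul (h1 A) h5 (abs_nonneg _) zero_le_one
      have h7 := (abs_le.1 h6).1
      rw [mul_sub] at h7
      linarith
  have step4 := Finset.sum_le_sum step3
  rw [Finset.sum_sub_distrib, ← Finset.sum_filter, Finset.sum_const, nsmul_eq_mul] at step4
  have step5 : X0 / 2 * ∏ p ∈ U, (1 - g p) ≤ ∑ A ∈ U.powerset, lam A * (X0 * ∏ p ∈ A, g p) := by
    have h5 := mul_le_mul_of_nonneg_left h4 hX0
    rw [Finset.mul_sum] at h5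
    calc X0 / 2 * ∏ p ∈ U, (1 - g p) = X0 * (1 / 2 * ∏ p ∈ U, (1 - g p)) := by ring
      _ ≤ _ := h5
      _ = _ := Finset.sum_congr rfl fun A _ => by ring
  set N : ℝ := ((U.powerset.filter
    (fun D => ∀ i < t, (D ∩ P i).card ≤ 2 * (b + i) + 1)).card : ℝ) with hN
  have hN0 : 0 ≤ N := Nat.cast_nonneg _
  have h8 : N * E ≤ (t + 1) * N * E := by
    have : (0 : ℝ) ≤ (t : ℝ) * (N * E) := by positivity
    linarith
  linarith

end Pool.Agent.GaussMR

end

/-! ### from `Lib_MP_f1a94e_ecm.Bh2` -/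

section

/-!
# Piece M-BH: Brun-Hooley lower bound with multiplicative error terms
-/

set_option autoImplicit false

namespace Pool.Agent.ECM

open Finset Pool.Agent.GaussMR

/-- Copy the proof of `brun_hooley` (Lib_MP_f1a94e_mr/BH.lean): `lam` from `bh_core`, `bh_choice`; the main term is the same, the error is
`∑_A |lam A| |r A| ≤ ∑_(A ⊆ U) E ∏_(p ∈ A) g p = E ∏_(p ∈ U) (1 + g p)` (`Finset.prod_one_add` / `Finset.prod_add_one`). -/
theorem bh2 (G0 : ℝ) (hG0 : 0 ≤ G0) : ∃ b : ℕ, ∀ (Ω ι : Type) (_inst : DecidableEq ι) (obj : Finset Ω) (w : Ω → ℝ)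
    (t : ℕ) (P : ℕ → Finset ι) (S : Ω → Finset ι) (g : ι → ℝ) (X0 E : ℝ),
    (∀ u ∈ obj, 0 ≤ w u) → (∀ i j, i < t → j < t → i ≠ j → Disjoint (P i) (P j)) →
    (∀ u ∈ obj, S u ⊆ (Finset.range t).biUnion P) →
    (∀ p ∈ (Finset.range t).biUnion P, 0 ≤ g p ∧ g p ≤ 1 / 2) →
    (∀ i < t, ∑ p ∈ P i, g p ≤ G0) → 0 ≤ X0 → 0 ≤ E →
    (∀ D ⊆ (Finset.range t).biUnion P, (∀ i < t, (D ∩ P i).card ≤ 2 * (b + i) + 1) →
      |∑ u ∈ obj.filter (fun u => D ⊆ S u), w u - X0 * ∏ p ∈ D, g p| ≤ E * ∏ p ∈ D, g p) →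
    X0 / 2 * ∏ p ∈ (Finset.range t).biUnion P, (1 - g p) - E * ∏ p ∈ (Finset.range t).biUnion P, (1 + g p) ≤
      ∑ u ∈ obj.filter (fun u => S u = ∅), w u := by
  obtain ⟨b, hb⟩ := bh_choice G0 hG0
  refine ⟨b, ?_⟩
  intro Ω ι inst obj w t P S g X0 E hw hd hS hg hG hX0 hE hr
  have hinst : inst = (fun x y => Classical.propDecidable (x = y)) := Subsingleton.elim _ _
  subst hinst
  classical
  set U := (Finset.range t).biUnion P with hU
  have hPU : ∀ j < t, P j ⊆ U := fun j hj x hx =>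
    Finset.mem_biUnion.2 ⟨j, Finset.mem_range.2 hj, hx⟩
  have hgs : ∀ j < t, 0 ≤ ∑ p ∈ P j, g p := fun j hj =>
    Finset.sum_nonneg fun p hp => (hg p (hPU j hj hp)).1
  obtain ⟨lam, h1, h2, h3, h4⟩ := bh_core t P b hd g hg (by
    refine le_trans (Finset.sum_le_sum fun j hj => ?_) (hb t)
    have hj' := Finset.mem_range.1 hj
    have h0 := hgs j hj'
    have h5 := hG j hj'
    gcongr)
  rw [← hU] at h2 h3 h4
  have step1 : ∑ u ∈ obj, w u * ∑ A ∈ (S u).powerset, lam A ≤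
      ∑ u ∈ obj.filter (fun u => S u = ∅), w u := by
    rw [Finset.sum_filter]
    refine Finset.sum_le_sum fun u hu => ?_
    have h5 := mul_le_mul_of_nonneg_left (h3 (S u) (hS u hu)) (hw u hu)
    refine h5.trans (le_of_eq ?_)
    by_cases hSu : S u = ∅
    · rw [if_pos hSu, if_pos hSu, mul_one]
    · rw [if_neg hSu, if_neg hSu, mul_zero]
  have step2 : ∑ u ∈ obj, w u * ∑ A ∈ (S u).powerset, lam A =
      ∑ A ∈ U.powerset, lam A * ∑ u ∈ obj.filter (fun u => A ⊆ S u), w u := by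
    have e1 : ∀ u ∈ obj, w u * ∑ A ∈ (S u).powerset, lam A =
        ∑ A ∈ U.powerset, if A ⊆ S u then lam A * w u else 0 := by
      intro u hu
      rw [Finset.mul_sum, ← Finset.sum_filter]
      have : U.powerset.filter (fun A => A ⊆ S u) = (S u).powerset := by
        ext A
        simp only [Finset.mem_filter, Finset.mem_powerset]
        exact ⟨fun h => h.2, fun h => ⟨h.trans (hS u hu), h⟩⟩
      rw [this]
      exact Finset.sum_congr rfl fun A _ => mul_comm _ _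
    rw [Finset.sum_congr rfl e1, Finset.sum_comm]
    refine Finset.sum_congr rfl fun A _ => ?_
    rw [Finset.mul_sum, Finset.sum_filter]
  have hgA : ∀ A ∈ U.powerset, 0 ≤ ∏ p ∈ A, g p := fun A hA =>
    Finset.prod_nonneg fun p hp => (hg p (Finset.mem_powerset.1 hA hp)).1
  have step3 : ∀ A ∈ U.powerset, lam A * (X0 * ∏ p ∈ A, g p) - E * ∏ p ∈ A, g p ≤
      lam A * ∑ u ∈ obj.filter (fun u => A ⊆ S u), w u := by
    intro A hA
    have hA' := Finset.mem_powerset.1 hA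
    have hEg : 0 ≤ E * ∏ p ∈ A, g p := mul_nonneg hE (hgA A hA)
    by_cases hl : lam A = 0
    · rw [hl, zero_mul, zero_mul, zero_sub, neg_nonpos]
      exact hEg
    · have hc := h2 A hA' hl
      have h5 := hr A hA' hc
      have h6 : |lam A * (∑ u ∈ obj.filter (fun u => A ⊆ S u), w u - X0 * ∏ p ∈ A, g p)| ≤
          1 * (E * ∏ p ∈ A, g p) := by
        rw [abs_mul]
        exact mul_le_mul (h1 A) h5 (abs_nonneg _) zero_le_one
      have h7 := (abs_le.1 h6).1
      rw [mul_sub] at h7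
      linarith
  have step4 := Finset.sum_le_sum step3
  rw [Finset.sum_sub_distrib, ← Finset.mul_sum, ← Finset.prod_one_add] at step4
  have step5 : X0 / 2 * ∏ p ∈ U, (1 - g p) ≤ ∑ A ∈ U.powerset, lam A * (X0 * ∏ p ∈ A, g p) := by
    have h5 := mul_le_mul_of_nonneg_left h4 hX0
    rw [Finset.mul_sum] at h5
    calc X0 / 2 * ∏ p ∈ U, (1 - g p) = X0 * (1 / 2 * ∏ p ∈ U, (1 - g p)) := by ring
      _ ≤ _ := h5
      _ = _ := Finset.sum_congr rfl fun A _ => by ring
  linarith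

end Pool.Agent.ECM

end

/-! ### from `Lib_MP_f1a94e_mr.PairsA` -/

section

/-!
# Piece PAIRSA: number of `(z, z')` with `u z`, `u' z'` in the same direction
-/

set_option autoImplicit false

namespace Pool.Agent.GaussMR

theorem pr_nat_mul (n : ℕ) (hn : 0 < n) (z : G) : pr ((n : G) * z) = pr z := by
  have h1 : ((n : G) * z).re = n * z.re := by simp
  have h2 : ((n : G) * z).im = n * z.im := by simp
  have hn' : (0 : ℤ) < n := by exact_mod_cast hn
  have hg : ((Int.gcd ((n : ℤ) * z.re) ((n : ℤ) * z.im) : ℕ) : ℤ) = n * (Int.gcd z.re z.im : ℤ) := by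
    rw [Int.gcd_mul_left]
    simp
  unfold pr
  rw [h1, h2, hg]
  rw [Int.mul_ediv_mul_of_pos _ _ hn', Int.mul_ediv_mul_of_pos _ _ hn']

theorem mul_star_self (z : G) : z * star z = ((nm z : ℕ) : G) := by
  apply Zsqrtd.ext
  · have := nm_eq z
    simp only [Zsqrtd.re_mul, Zsqrtd.re_star, Zsqrtd.im_star, Zsqrtd.re_natCast]
    rw [this]
    ring
  · simp only [Zsqrtd.im_mul, Zsqrtd.re_star, Zsqrtd.im_star, Zsqrtd.im_natCast]
    ring

theorem nm_natCast_pairsa (n : ℕ) : nm (n : G) = n ^ 2 := by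
  have h : (nm (n : G) : ℤ) = (n : ℤ) ^ 2 := by
    rw [nm_eq]
    simp
  exact_mod_cast h

theorem prime_of_nm {d : G} {p : ℕ} (hp : p.Prime) (h : nm d = p) : Prime d := by
  have hirr : Irreducible d := by
    constructor
    · intro hu
      rw [← nm_eq_one_iff, h] at hu
      exact hp.one_lt.ne' hu
    · intro x y hxy
      rw [hxy, nm_mul] at h
      rcases (Nat.prime_mul_iff.mp (h ▸ hp)) with h1 | h1
      · right
        exact nm_eq_one_iff.mp h1.2
      · left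
        exact nm_eq_one_iff.mp h1.2
  exact hirr.prime

/-- the product of a primitive number and the conjugate of a coprime primitive number is primitive -/
theorem prim_mul_star {a b : G} (ha : Prim a) (hb : Prim b) (hab : IsCoprime a b) :
    Prim (a * star b) := by
  have ha' := prim_iff.mp ha
  have hb' := prim_iff.mp (prim_star.mpr hb)
  have hab' := prim_iff.mp hb
  rw [prim_iff]
  intro n hn
  by_contra hn1
  obtain ⟨p, hp, hpn⟩ := Nat.exists_prime_and_dvd hn1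
  have hpn' : (p : G) ∣ (n : G) := by
    obtain ⟨c, rfl⟩ := hpn
    exact ⟨(c : G), by push_cast; ring⟩
  have hpd : (p : G) ∣ a * star b := hpn'.trans hn
  have hp1 := hp.one_lt.ne'
  have hp0 : (p : G) ≠ 0 := by
    intro h0
    have : nm (p : G) = 0 := by rw [h0, nm_zero]
    rw [nm_natCast_pairsa] at this
    have := hp.pos
    nlinarith
  set δ := EuclideanDomain.gcd a (p : G) with hδ
  have hδa : δ ∣ a := EuclideanDomain.gcd_dvd_left _ _
  have hδp : δ ∣ (p : G) := EuclideanDomain.gcd_dvd_right _ _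
  have hnm : nm δ ∣ p ^ 2 := by
    have := nm_dvd hδp
    rwa [nm_natCast_pairsa] at this
  obtain ⟨k, hk, hk2⟩ := (Nat.dvd_prime_pow hp).mp hnm
  interval_cases k
  · -- unit
    rw [pow_zero] at hk2
    have hu : IsUnit δ := nm_eq_one_iff.mp hk2
    have hcop : IsCoprime (p : G) a := (EuclideanDomain.gcd_isUnit_iff.mp hu).symm
    exact hp1 (hb' p (hcop.dvd_of_dvd_mul_left hpd))
  · rw [pow_one] at hk2
    have hprime : Prime δ := prime_of_nm hp hk2
    have hprime' : Prime (star δ) := prime_of_nm hp (by rw [nm_star]; exact hk2)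
    have hpp : (p : G) = δ * star δ := by rw [mul_star_self, hk2]
    obtain ⟨a1, ha1⟩ := hδa
    have hδ0 : δ ≠ 0 := hprime.ne_zero
    have h1 : star δ ∣ a1 * star b := by
      have h2 : δ * star δ ∣ δ * (a1 * star b) := by
        rw [← hpp, ← mul_assoc, ← ha1]
        exact hpd
      exact (mul_dvd_mul_iff_left hδ0).mp h2
    rcases hprime'.dvd_or_dvd h1 with h2 | h2
    · apply hp1
      apply ha' p
      rw [hpp, ha1]
      exact mul_dvd_mul_left _ h2
    · have h3 : δ ∣ b := by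
        obtain ⟨c, hc⟩ := h2
        refine ⟨star c, ?_⟩
        have := congrArg star hc
        rw [star_star, star_mul, star_star] at this
        rw [this, mul_comm]
      have h4 : IsUnit δ := hab.isUnit_of_dvd' ⟨a1, ha1⟩ h3
      exact hprime.not_isUnit h4
  · obtain ⟨c, hc⟩ := hδp
    have h1 : nm (p : G) = nm δ * nm c := by rw [hc, nm_mul]
    rw [nm_natCast_pairsa, hk2] at h1
    have h2 : nm c = 1 := by
      have : 0 < p ^ 2 := pow_pos hp.pos 2
      nlinarith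
    have h3 : IsUnit c := nm_eq_one_iff.mp h2
    apply hp1
    apply ha' p
    rw [hc]
    exact (h3.mul_right_dvd).mpr hδa

/-- the content of `ω z` is at most the norm of the gcd of `z` and `star ω` -/
theorem content_dvd {ω z : G} {c : ℕ} (hω : Prim ω) (hz : Prim z) (hc : (c : G) ∣ ω * z) :
    c ∣ nm (EuclideanDomain.gcd z (star ω)) := by
  have key : ∀ (n : ℕ) (y : G), Prim y → (c : G) ∣ (n : G) * y → c ∣ n := by
    intro n y hy hd
    have h1 : (((c : ℤ)) : G) ∣ (n : G) * y := by simpa using hd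
    rw [Zsqrtd.intCast_dvd] at h1
    have h2 : ((n : G) * y).re = n * y.re := by simp
    have h3 : ((n : G) * y).im = n * y.im := by simp
    rw [h2, h3] at h1
    have h4 : (c : ℤ) ∣ (Int.gcd ((n : ℤ) * y.re) ((n : ℤ) * y.im) : ℕ) :=
      Int.dvd_coe_gcd h1.1 h1.2
    rw [Int.gcd_mul_left, Int.isCoprime_iff_gcd_eq_one.mp hy] at h4
    have h5 : c ∣ (n : ℤ).natAbs * 1 := by exact_mod_cast h4
    simpa using h5
  have h1 : c ∣ nm ω := by
    apply key (nm ω) z hz
    rw [← mul_star_self, mul_comm ω (star ω), mul_assoc]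
    exact hc.mul_left _
  set h := EuclideanDomain.gcd z (star ω) with hh
  have hbez := EuclideanDomain.gcd_eq_gcd_ab z (star ω)
  rw [← hh] at hbez
  have h2 : (c : G) ∣ ω * h := by
    rw [hbez, mul_add]
    apply dvd_add
    · rw [← mul_assoc]
      exact hc.mul_right _
    · rw [← mul_assoc, mul_star_self]
      apply Dvd.dvd.mul_right
      obtain ⟨k, hk⟩ := h1
      exact ⟨(k : G), by rw [hk]; push_cast; ring⟩
  have h3 : h ∣ star ω := EuclideanDomain.gcd_dvd_right _ _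
  obtain ⟨k, hk⟩ := h3
  have h4 : ω = star h * star k := by
    have := congrArg star hk
    rw [star_star, star_mul, mul_comm] at this
    exact this
  have h5 : Prim (star k) := by
    rw [h4] at hω
    exact (prim_of_mul hω).2
  apply key (nm h) (star k) h5
  rw [← mul_star_self]
  have : h * star h * star k = ω * h := by
    rw [h4]
    ring
  rw [this]
  exact h2

theorem pairsA (l : ℕ) : ∃ C : ℝ, 0 < C ∧ ∀ (P Q X : ℝ) (x y : Fin l → G), (∀ i, x i ∈ PP P Q) →
    (∀ i, y i ∈ PP P Q) → 0 ≤ X →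
    (Set.ncard {p : G × G | p.1 ∈ V X ∧ p.2 ∈ V X ∧
      pr ((∏ i, x i) * p.1) = pr ((∏ i, y i) * p.2)} : ℝ) ≤
      C * X * (nm (EuclideanDomain.gcd (∏ i, x i) (∏ i, y i)) : ℝ) /
        Real.sqrt (nm (∏ i, x i) * nm (∏ i, y i) : ℝ) := by
  classical
  refine ⟨9 * 2 ^ (l + l), by positivity, ?_⟩
  intro P Q X x y hx hy hX
  set u := ∏ i, x i with hu
  set u' := ∏ i, y i with hu'
  obtain ⟨hup, huo⟩ := prim_prod x hx
  obtain ⟨hup', huo'⟩ := prim_prod y hy
  rw [← hu] at hup huo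
  rw [← hu'] at hup' huo'
  have hu0 : u ≠ 0 := ne_zero_of_odd huo
  have hu0' : u' ≠ 0 := ne_zero_of_odd huo'
  set g := EuclideanDomain.gcd u u' with hg
  obtain ⟨a, ha⟩ : g ∣ u := EuclideanDomain.gcd_dvd_left _ _
  obtain ⟨b, hb⟩ : g ∣ u' := EuclideanDomain.gcd_dvd_right _ _
  have hg0 : g ≠ 0 := by
    intro h0
    rw [h0, zero_mul] at ha
    exact hu0 ha
  have hap : Prim a := by
    rw [ha] at hup
    exact (prim_of_mul hup).2
  have hbp : Prim b := by
    rw [hb] at hup'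
    exact (prim_of_mul hup').2
  have hcop : IsCoprime a b := by
    have hbez := EuclideanDomain.gcd_eq_gcd_ab u u'
    rw [← hg] at hbez
    refine ⟨EuclideanDomain.gcdA u u', EuclideanDomain.gcdB u u', ?_⟩
    have h1 : g * 1 = g * (EuclideanDomain.gcdA u u' * a + EuclideanDomain.gcdB u u' * b) := by
      rw [mul_one]
      calc g = u * EuclideanDomain.gcdA u u' + u' * EuclideanDomain.gcdB u u' := hbez
        _ = (g * a) * EuclideanDomain.gcdA u u' + (g * b) * EuclideanDomain.gcdB u u' := by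
            rw [← ha, ← hb]
        _ = _ := by ring
    exact (mul_left_cancel₀ hg0 h1).symm
  set ω := a * star b with hω
  have hωp : Prim ω := prim_mul_star hap hbp hcop
  have ha0 : a ≠ 0 := by
    rintro rfl
    rw [mul_zero] at ha
    exact hu0 ha
  have hb0 : b ≠ 0 := by
    rintro rfl
    rw [mul_zero] at hb
    exact hu0' hb
  have hω0 : ω ≠ 0 := mul_ne_zero ha0 (star_ne_zero' hb0)
  have hωpos : 0 < nm ω := nm_pos hω0
  -- the structure of the pairs
  have hstruct : ∀ p : G × G, p.1 ∈ V X → p.2 ∈ V X → pr (u * p.1) = pr (u' * p.2) →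
      ∃ c : ℕ, 0 < c ∧ ω * p.1 = (c : G) * p.2 := by
    intro p hp1 hp2 hpr
    have h10 := V_ne_zero hp1
    have h20 := V_ne_zero hp2
    obtain ⟨e1, e2, e3⟩ := pr_spec (u * p.1) (mul_ne_zero hu0 h10)
    obtain ⟨f1, f2, f3⟩ := pr_spec (u' * p.2) (mul_ne_zero hu0' h20)
    set m := Int.gcd (u * p.1).re (u * p.1).im with hm
    set m' := Int.gcd (u' * p.2).re (u' * p.2).im with hm'
    -- m' * u * z = m * u' * z'
    have h1 : (m' : G) * (u * p.1) = (m : G) * (u' * p.2) := by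
      rw [e1, f1, hpr]
      ring
    have h2 : (m' : G) * (a * p.1) = (m : G) * (b * p.2) := by
      apply mul_left_cancel₀ hg0
      calc g * ((m' : G) * (a * p.1)) = (m' : G) * ((g * a) * p.1) := by ring
        _ = (m : G) * ((g * b) * p.2) := by rw [← ha, ← hb]; exact h1
        _ = g * ((m : G) * (b * p.2)) := by ring
    have h3 : (m' : G) * (ω * p.1) = ((m * nm b : ℕ) : G) * p.2 := by
      calc (m' : G) * (ω * p.1) = star b * ((m' : G) * (a * p.1)) := by rw [hω]; ring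
        _ = star b * ((m : G) * (b * p.2)) := by rw [h2]
        _ = (m : G) * (b * star b) * p.2 := by ring
        _ = ((m * nm b : ℕ) : G) * p.2 := by rw [mul_star_self]; push_cast; ring
    have h4 : pr (ω * p.1) = p.2 := by
      rw [← pr_nat_mul m' f2, h3, pr_nat_mul (m * nm b) (Nat.mul_pos e2 (nm_pos hb0)),
        pr_eq_self _ (mem_V.mp hp2).2.2]
    obtain ⟨g1, g2, g3⟩ := pr_spec (ω * p.1) (mul_ne_zero hω0 h10)
    rw [h4] at g1
    exact ⟨_, g2, g1⟩
  -- the prime factors of star ω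
  let q : Fin l ⊕ Fin l → G := Sum.elim (fun i => star (x i)) y
  have hq : ∀ j ∈ (Finset.univ : Finset (Fin l ⊕ Fin l)), Prime (q j) := by
    rintro (i | i) _
    · exact (PP_spl (hx i)).conj.prime
    · exact (PP_spl (hy i)).prime
  have hprod : ∏ j, q j = star u * u' := by
    rw [Fintype.prod_sum_type]
    simp only [q, Sum.elim_inl, Sum.elim_inr]
    rw [hu, hu', star_prod]
  have hωdvd : star ω ∣ ∏ j, q j := by
    rw [hprod, hω, ha, hb, star_mul, star_mul, star_star]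
    exact ⟨star g * g, by ring⟩
  set t : ℝ := X / Real.sqrt (nm ω) with ht
  have hsq0 : 0 < Real.sqrt (nm ω) := Real.sqrt_pos.mpr (by exact_mod_cast hωpos)
  have ht0 : 0 ≤ t := div_nonneg hX hsq0.le
  set B := (ball t).filter (fun z => z ≠ 0) with hB
  -- the first coordinates
  have hfirst : ∀ p : G × G, p.1 ∈ V X → p.2 ∈ V X → pr (u * p.1) = pr (u' * p.2) →
      ∃ A : Finset (Fin l ⊕ Fin l), ∃ z1 ∈ B, p.1 = (∏ j ∈ A, q j) * z1 := by
    intro p hp1 hp2 hpr
    obtain ⟨c, hc0, hc⟩ := hstruct p hp1 hp2 hpr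
    have h10 := V_ne_zero hp1
    have hprim := (mem_V.mp hp1).2.2
    have hcd := content_dvd hωp hprim (Dvd.intro _ hc.symm)
    set h := EuclideanDomain.gcd p.1 (star ω) with hh
    have hh1 : h ∣ p.1 := EuclideanDomain.gcd_dvd_left _ _
    have hh2 : h ∣ star ω := EuclideanDomain.gcd_dvd_right _ _
    have hh0 : h ≠ 0 := by
      intro h0
      rw [h0] at hh1
      exact h10 (zero_dvd_iff.mp hh1)
    obtain ⟨k, hk⟩ := hh2.trans hωdvd
    obtain ⟨A, A', e, e', hAA, hdis, hee, hhA, hkA⟩ :=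
      mul_eq_mul_prime_prod (x := h) (y := k) (a := 1) hq (by rw [one_mul]; exact hk.symm)
    have heu : IsUnit e := IsUnit.of_mul_eq_one _ hee.symm
    have hnm1 : nm (∏ j ∈ A, q j) = nm h := by
      rw [hhA, nm_mul, nm_eq_one_iff.mpr heu, one_mul]
    have hdvd : (∏ j ∈ A, q j) ∣ p.1 := by
      refine Dvd.dvd.trans ?_ hh1
      rw [hhA]
      exact dvd_mul_left _ _
    obtain ⟨z1, hz1⟩ := hdvd
    refine ⟨A, z1, ?_, hz1⟩
    have hz10 : z1 ≠ 0 := by
      rintro rfl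
      rw [mul_zero] at hz1
      exact h10 hz1
    rw [hB, Finset.mem_filter, mem_ball]
    refine ⟨?_, hz10⟩
    -- the estimate
    have hcle : c ≤ nm h := Nat.le_of_dvd (nm_pos hh0) hcd
    have hn1 : nm ω * nm p.1 = c ^ 2 * nm p.2 := by
      rw [← nm_mul, hc, nm_mul, nm_natCast_pairsa]
    have hn2 : (nm p.1 : ℝ) = nm h * nm z1 := by
      rw [hz1, nm_mul, hnm1]
      push_cast
      ring
    have hX1 : (nm p.1 : ℝ) ≤ X := (mem_V.mp hp1).1
    have hX2 : (nm p.2 : ℝ) ≤ X := (mem_V.mp hp2).1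
    have hn3 : (nm ω : ℝ) * nm p.1 ≤ (nm h : ℝ) ^ 2 * X := by
      have h1 : (nm ω : ℝ) * nm p.1 = (c : ℝ) ^ 2 * nm p.2 := by exact_mod_cast hn1
      rw [h1]
      have h2 : (c : ℝ) ≤ nm h := by exact_mod_cast hcle
      have h3 : (c : ℝ) ^ 2 ≤ (nm h : ℝ) ^ 2 := pow_le_pow_left₀ (by positivity) h2 2
      exact mul_le_mul h3 hX2 (by positivity) (by positivity)
    have hnh : (0 : ℝ) < nm h := by exact_mod_cast nm_pos hh0
    have hωr : (0 : ℝ) < nm ω := by exact_mod_cast hωpos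
    -- (nm z1)^2 nm ω ≤ X^2
    have hn4 : (nm z1 : ℝ) ^ 2 * nm ω ≤ X ^ 2 := by
      have h1 : (nm h : ℝ) ^ 2 * ((nm z1 : ℝ) ^ 2 * nm ω) ≤ (nm h : ℝ) ^ 2 * X ^ 2 := by
        calc (nm h : ℝ) ^ 2 * ((nm z1 : ℝ) ^ 2 * nm ω) = (nm ω * nm p.1) * nm p.1 := by
              rw [hn2]; ring
          _ ≤ ((nm h : ℝ) ^ 2 * X) * X :=
              mul_le_mul hn3 hX1 (by positivity) (by positivity)
          _ = (nm h : ℝ) ^ 2 * X ^ 2 := by ring
      exact le_of_mul_le_mul_left h1 (by positivity)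
    rw [ht, le_div_iff₀ hsq0]
    apply le_of_sq_le_sq _ hX
    rw [mul_pow, Real.sq_sqrt hωr.le]
    exact hn4
  -- counting
  set S := {p : G × G | p.1 ∈ V X ∧ p.2 ∈ V X ∧ pr (u * p.1) = pr (u' * p.2)} with hS
  set T : Finset G := ((Finset.univ : Finset (Finset (Fin l ⊕ Fin l))) ×ˢ B).image
    (fun r => (∏ j ∈ r.1, q j) * r.2) with hT
  have hmaps : Set.MapsTo (fun p : G × G => p.1) S (T : Set G) := by
    rintro p ⟨hp1, hp2, hpr⟩
    obtain ⟨A, z1, hz1, heq⟩ := hfirst p hp1 hp2 hpr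
    rw [hT, Finset.mem_coe, Finset.mem_image]
    exact ⟨(A, z1), Finset.mem_product.mpr ⟨Finset.mem_univ _, hz1⟩, heq.symm⟩
  have hinj : Set.InjOn (fun p : G × G => p.1) S := by
    rintro p ⟨hp1, hp2, hpr⟩ p' ⟨hp1', hp2', hpr'⟩ heq
    have heq' : p.1 = p'.1 := heq
    obtain ⟨c, hc0, hc⟩ := hstruct p hp1 hp2 hpr
    obtain ⟨c', hc0', hc'⟩ := hstruct p' hp1' hp2' hpr'
    have h1 : pr (ω * p.1) = p.2 := by
      rw [hc, pr_nat_mul c hc0, pr_eq_self _ (mem_V.mp hp2).2.2]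
    have h2 : pr (ω * p'.1) = p'.2 := by
      rw [hc', pr_nat_mul c' hc0', pr_eq_self _ (mem_V.mp hp2').2.2]
    have h3 : p.2 = p'.2 := by rw [← h1, ← h2, heq']
    exact Prod.ext heq' h3
  have hcard1 : Set.ncard S ≤ T.card := by
    have := Set.ncard_le_ncard_of_injOn (fun p : G × G => p.1) hmaps hinj (Finset.finite_toSet T)
    rwa [Set.ncard_coe_finset] at this
  have hcard2 : T.card ≤ 2 ^ (l + l) * B.card := by
    refine Finset.card_image_le.trans ?_
    rw [Finset.card_product, Finset.card_univ, Fintype.card_finset, Fintype.card_sum,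
      Fintype.card_fin]
  have hcard3 : (B.card : ℝ) ≤ 9 * t := card_ball_le t ht0
  have hfin : (Set.ncard S : ℝ) ≤ 2 ^ (l + l) * (9 * t) := by
    calc (Set.ncard S : ℝ) ≤ (T.card : ℝ) := by exact_mod_cast hcard1
      _ ≤ ((2 ^ (l + l) * B.card : ℕ) : ℝ) := by exact_mod_cast hcard2
      _ = 2 ^ (l + l) * (B.card : ℝ) := by push_cast; ring
      _ ≤ 2 ^ (l + l) * (9 * t) := mul_le_mul_of_nonneg_left hcard3 (by positivity)
  refine hfin.trans (le_of_eq ?_)
  have hgr : (0 : ℝ) < nm g := by exact_mod_cast nm_pos hg0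
  have hnn : (nm u * nm u' : ℝ) = (nm g : ℝ) ^ 2 * nm ω := by
    have h1 : nm u = nm g * nm a := by rw [ha, nm_mul]
    have h2 : nm u' = nm g * nm b := by rw [hb, nm_mul]
    have h3 : nm ω = nm a * nm b := by rw [hω, nm_mul, nm_star]
    rw [h1, h2, h3]
    push_cast
    ring
  rw [hnn, Real.sqrt_mul (by positivity), Real.sqrt_sq hgr.le, ht]
  field_simp

end Pool.Agent.GaussMR

end

/-! ### from `Lib_MP_f1a94e_mr.PairsU` -/

section

/-!
# Piece PAIRSU: second moment of the number of representations of a direction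
-/

set_option autoImplicit false

namespace Pool.Agent.GaussMR

theorem pu_nm_prod {l : ℕ} (x : Fin l → G) : nm (∏ i, x i) = ∏ i, nm (x i) := by
  induction l with
  | zero => simp
  | succ l ih =>
    rw [Fin.prod_univ_succ, Fin.prod_univ_succ, nm_mul, ih]

theorem pu_pow_le {l : ℕ} {W : Finset G} {Y : ℝ} (hY : 1 ≤ Y) (h : ∀ w ∈ W, Y < (nm w : ℝ))
    (x : Fin l → G) (hx : ∀ i, x i ∈ W) : Y ^ l ≤ (nm (∏ i, x i) : ℝ) := by
  rw [pu_nm_prod]
  push_cast
  have h1 : Y ^ l = ∏ _i : Fin l, Y := by simp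
  rw [h1]
  exact Finset.prod_le_prod (fun i _ => by linarith) (fun i _ => (h _ (hx i)).le)

/-- sum `pairsA` over `x, y ∈ W^l`, `√(nm ∏x nm ∏y) ≥ Y^l`, and use `pairsB` -/
theorem pairsU (l : ℕ) : ∃ C : ℝ, 0 < C ∧ ∀ (P Q Y X : ℝ) (W : Finset G), W ⊆ PP P Q → 1 ≤ Y →
    0 ≤ X → (∀ w ∈ W, Y < (nm w : ℝ) ∧ (nm w : ℝ) ≤ 3 * Y) →
    (Set.ncard {q : ((Fin l → G) × G) × ((Fin l → G) × G) |
      (∀ i, q.1.1 i ∈ W) ∧ q.1.2 ∈ V X ∧ (∀ i, q.2.1 i ∈ W) ∧ q.2.2 ∈ V X ∧
      pr ((∏ i, q.1.1 i) * q.1.2) = pr ((∏ i, q.2.1 i) * q.2.2)} : ℝ) ≤ C * Y ^ l * X := by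
  classical
  obtain ⟨C1, hC1, H1⟩ := pairsA l
  obtain ⟨C2, hC2, H2⟩ := pairsB l
  refine ⟨C1 * C2, by positivity, ?_⟩
  intro P Q Y X W hW hY hX h
  have I2 := H2 P Q Y W hW hY (fun w hw => (h w hw).2)
  set WW := Fintype.piFinset (fun _ : Fin l => W) with hWW
  have hset : {q : ((Fin l → G) × G) × ((Fin l → G) × G) |
      (∀ i, q.1.1 i ∈ W) ∧ q.1.2 ∈ V X ∧ (∀ i, q.2.1 i ∈ W) ∧ q.2.2 ∈ V X ∧
      pr ((∏ i, q.1.1 i) * q.1.2) = pr ((∏ i, q.2.1 i) * q.2.2)} =
      ((((WW ×ˢ V X) ×ˢ (WW ×ˢ V X)).filter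
        (fun q => pr ((∏ i, q.1.1 i) * q.1.2) = pr ((∏ i, q.2.1 i) * q.2.2)) :
        Finset (((Fin l → G) × G) × ((Fin l → G) × G))) :
        Set (((Fin l → G) × G) × ((Fin l → G) × G))) := by
    ext q
    simp only [Set.mem_ofPred_eq, Finset.coe_filter, Finset.mem_product, hWW,
      Fintype.mem_piFinset]
    tauto
  rw [hset, Set.ncard_coe_finset]
  have hin : ∀ x ∈ WW, ∀ y ∈ WW, (((V X ×ˢ V X).filter
      (fun p => pr ((∏ i, x i) * p.1) = pr ((∏ i, y i) * p.2))).card : ℝ) ≤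
      C1 * X / Y ^ l * (nm (EuclideanDomain.gcd (∏ i, x i) (∏ i, y i)) : ℝ) := by
    intro x hx y hy
    rw [hWW, Fintype.mem_piFinset] at hx hy
    have h1 := H1 P Q X x y (fun i => hW (hx i)) (fun i => hW (hy i)) hX
    have hs : {p : G × G | p.1 ∈ V X ∧ p.2 ∈ V X ∧
        pr ((∏ i, x i) * p.1) = pr ((∏ i, y i) * p.2)} =
        (((V X ×ˢ V X).filter
        (fun p => pr ((∏ i, x i) * p.1) = pr ((∏ i, y i) * p.2)) : Finset (G × G)) :
          Set (G × G)) := by
      ext p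
      simp only [Set.mem_ofPred_eq, Finset.coe_filter, Finset.mem_product]
      tauto
    rw [hs, Set.ncard_coe_finset] at h1
    refine h1.trans ?_
    have hYl : (0 : ℝ) < Y ^ l := by positivity
    have h2 : Y ^ l ≤ Real.sqrt (nm (∏ i, x i) * nm (∏ i, y i) : ℝ) := by
      apply Real.le_sqrt_of_sq_le
      rw [sq]
      exact mul_le_mul (pu_pow_le hY (fun w hw => (h w hw).1) x hx)
        (pu_pow_le hY (fun w hw => (h w hw).1) y hy) hYl.le (by positivity)
    have h3 : C1 * X / Y ^ l * (nm (EuclideanDomain.gcd (∏ i, x i) (∏ i, y i)) : ℝ) =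
        C1 * X * (nm (EuclideanDomain.gcd (∏ i, x i) (∏ i, y i)) : ℝ) / Y ^ l := by ring
    rw [h3]
    exact div_le_div_of_nonneg_left (by positivity) hYl h2
  have hcard : ((((WW ×ˢ V X) ×ˢ (WW ×ˢ V X)).filter
        (fun q => pr ((∏ i, q.1.1 i) * q.1.2) = pr ((∏ i, q.2.1 i) * q.2.2))).card : ℝ) =
      ∑ x ∈ WW, ∑ y ∈ WW, (((V X ×ˢ V X).filter
      (fun p => pr ((∏ i, x i) * p.1) = pr ((∏ i, y i) * p.2))).card : ℝ) := by
    simp only [Finset.card_filter, Finset.sum_product]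
    push_cast
    apply Finset.sum_congr rfl
    intro x _
    rw [Finset.sum_comm]
  rw [hcard]
  calc ∑ x ∈ WW, ∑ y ∈ WW, (((V X ×ˢ V X).filter
      (fun p => pr ((∏ i, x i) * p.1) = pr ((∏ i, y i) * p.2))).card : ℝ)
      ≤ ∑ x ∈ WW, ∑ y ∈ WW,
        C1 * X / Y ^ l * (nm (EuclideanDomain.gcd (∏ i, x i) (∏ i, y i)) : ℝ) :=
        Finset.sum_le_sum (fun x hx => Finset.sum_le_sum (fun y hy => hin x hx y hy))
    _ = C1 * X / Y ^ l * ∑ x ∈ WW, ∑ y ∈ WW,
        (nm (EuclideanDomain.gcd (∏ i, x i) (∏ i, y i)) : ℝ) := by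
        rw [Finset.mul_sum]
        apply Finset.sum_congr rfl
        intro x _
        rw [Finset.mul_sum]
    _ ≤ C1 * X / Y ^ l * (C2 * Y ^ (2 * l)) :=
        mul_le_mul_of_nonneg_left I2 (by positivity)
    _ = C1 * C2 * Y ^ l * X := by
        have hYl : (Y ^ l : ℝ) ≠ 0 := by positivity
        have e : Y ^ (2 * l) = Y ^ l * Y ^ l := by rw [two_mul, pow_add]
        rw [e]
        field_simp

end Pool.Agent.GaussMR

end

/-! ### from `Lib_MP_f1a94e_mu.PairsX` -/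

section

/-!
# Piece PAIRSX: `pairsU` with an explicit constant
-/

set_option autoImplicit false

namespace Pool.Agent.GaussMR

/-- `pairsA` with the constant `9 * 2 ^ (l + l)` -/
theorem pairsAX (l : ℕ) (P Q X : ℝ) (x y : Fin l → G) (hx : ∀ i, x i ∈ PP P Q)
    (hy : ∀ i, y i ∈ PP P Q) (hX : 0 ≤ X) :
    (Set.ncard {p : G × G | p.1 ∈ V X ∧ p.2 ∈ V X ∧
      pr ((∏ i, x i) * p.1) = pr ((∏ i, y i) * p.2)} : ℝ) ≤
      (9 * 2 ^ (l + l)) * X * (nm (EuclideanDomain.gcd (∏ i, x i) (∏ i, y i)) : ℝ) /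
        Real.sqrt (nm (∏ i, x i) * nm (∏ i, y i) : ℝ) := by
  classical
  set u := ∏ i, x i with hu
  set u' := ∏ i, y i with hu'
  obtain ⟨hup, huo⟩ := prim_prod x hx
  obtain ⟨hup', huo'⟩ := prim_prod y hy
  rw [← hu] at hup huo
  rw [← hu'] at hup' huo'
  have hu0 : u ≠ 0 := ne_zero_of_odd huo
  have hu0' : u' ≠ 0 := ne_zero_of_odd huo'
  set g := EuclideanDomain.gcd u u' with hg
  obtain ⟨a, ha⟩ : g ∣ u := EuclideanDomain.gcd_dvd_left _ _
  obtain ⟨b, hb⟩ : g ∣ u' := EuclideanDomain.gcd_dvd_right _ _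
  have hg0 : g ≠ 0 := by
    intro h0
    rw [h0, zero_mul] at ha
    exact hu0 ha
  have hap : Prim a := by
    rw [ha] at hup
    exact (prim_of_mul hup).2
  have hbp : Prim b := by
    rw [hb] at hup'
    exact (prim_of_mul hup').2
  have hcop : IsCoprime a b := by
    have hbez := EuclideanDomain.gcd_eq_gcd_ab u u'
    rw [← hg] at hbez
    refine ⟨EuclideanDomain.gcdA u u', EuclideanDomain.gcdB u u', ?_⟩
    have h1 : g * 1 = g * (EuclideanDomain.gcdA u u' * a + EuclideanDomain.gcdB u u' * b) := by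
      rw [mul_one]
      calc g = u * EuclideanDomain.gcdA u u' + u' * EuclideanDomain.gcdB u u' := hbez
        _ = (g * a) * EuclideanDomain.gcdA u u' + (g * b) * EuclideanDomain.gcdB u u' := by
            rw [← ha, ← hb]
        _ = _ := by ring
    exact (mul_left_cancel₀ hg0 h1).symm
  set ω := a * star b with hω
  have hωp : Prim ω := prim_mul_star hap hbp hcop
  have ha0 : a ≠ 0 := by
    rintro rfl
    rw [mul_zero] at ha
    exact hu0 ha
  have hb0 : b ≠ 0 := by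
    rintro rfl
    rw [mul_zero] at hb
    exact hu0' hb
  have hω0 : ω ≠ 0 := mul_ne_zero ha0 (star_ne_zero' hb0)
  have hωpos : 0 < nm ω := nm_pos hω0
  -- the structure of the pairs
  have hstruct : ∀ p : G × G, p.1 ∈ V X → p.2 ∈ V X → pr (u * p.1) = pr (u' * p.2) →
      ∃ c : ℕ, 0 < c ∧ ω * p.1 = (c : G) * p.2 := by
    intro p hp1 hp2 hpr
    have h10 := V_ne_zero hp1
    have h20 := V_ne_zero hp2
    obtain ⟨e1, e2, e3⟩ := pr_spec (u * p.1) (mul_ne_zero hu0 h10)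
    obtain ⟨f1, f2, f3⟩ := pr_spec (u' * p.2) (mul_ne_zero hu0' h20)
    set m := Int.gcd (u * p.1).re (u * p.1).im with hm
    set m' := Int.gcd (u' * p.2).re (u' * p.2).im with hm'
    -- m' * u * z = m * u' * z'
    have h1 : (m' : G) * (u * p.1) = (m : G) * (u' * p.2) := by
      rw [e1, f1, hpr]
      ring
    have h2 : (m' : G) * (a * p.1) = (m : G) * (b * p.2) := by
      apply mul_left_cancel₀ hg0
      calc g * ((m' : G) * (a * p.1)) = (m' : G) * ((g * a) * p.1) := by ring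
        _ = (m : G) * ((g * b) * p.2) := by rw [← ha, ← hb]; exact h1
        _ = g * ((m : G) * (b * p.2)) := by ring
    have h3 : (m' : G) * (ω * p.1) = ((m * nm b : ℕ) : G) * p.2 := by
      calc (m' : G) * (ω * p.1) = star b * ((m' : G) * (a * p.1)) := by rw [hω]; ring
        _ = star b * ((m : G) * (b * p.2)) := by rw [h2]
        _ = (m : G) * (b * star b) * p.2 := by ring
        _ = ((m * nm b : ℕ) : G) * p.2 := by rw [mul_star_self]; push_cast; ring
    have h4 : pr (ω * p.1) = p.2 := by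
      rw [← pr_nat_mul m' f2, h3, pr_nat_mul (m * nm b) (Nat.mul_pos e2 (nm_pos hb0)),
        pr_eq_self _ (mem_V.mp hp2).2.2]
    obtain ⟨g1, g2, g3⟩ := pr_spec (ω * p.1) (mul_ne_zero hω0 h10)
    rw [h4] at g1
    exact ⟨_, g2, g1⟩
  -- the prime factors of star ω
  let q : Fin l ⊕ Fin l → G := Sum.elim (fun i => star (x i)) y
  have hq : ∀ j ∈ (Finset.univ : Finset (Fin l ⊕ Fin l)), Prime (q j) := by
    rintro (i | i) _
    · exact (PP_spl (hx i)).conj.prime
    · exact (PP_spl (hy i)).prime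
  have hprod : ∏ j, q j = star u * u' := by
    rw [Fintype.prod_sum_type]
    simp only [q, Sum.elim_inl, Sum.elim_inr]
    rw [hu, hu', star_prod]
  have hωdvd : star ω ∣ ∏ j, q j := by
    rw [hprod, hω, ha, hb, star_mul, star_mul, star_star]
    exact ⟨star g * g, by ring⟩
  set t : ℝ := X / Real.sqrt (nm ω) with ht
  have hsq0 : 0 < Real.sqrt (nm ω) := Real.sqrt_pos.mpr (by exact_mod_cast hωpos)
  have ht0 : 0 ≤ t := div_nonneg hX hsq0.le
  set B := (ball t).filter (fun z => z ≠ 0) with hB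
  -- the first coordinates
  have hfirst : ∀ p : G × G, p.1 ∈ V X → p.2 ∈ V X → pr (u * p.1) = pr (u' * p.2) →
      ∃ A : Finset (Fin l ⊕ Fin l), ∃ z1 ∈ B, p.1 = (∏ j ∈ A, q j) * z1 := by
    intro p hp1 hp2 hpr
    obtain ⟨c, hc0, hc⟩ := hstruct p hp1 hp2 hpr
    have h10 := V_ne_zero hp1
    have hprim := (mem_V.mp hp1).2.2
    have hcd := content_dvd hωp hprim (Dvd.intro _ hc.symm)
    set h := EuclideanDomain.gcd p.1 (star ω) with hh
    have hh1 : h ∣ p.1 := EuclideanDomain.gcd_dvd_left _ _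
    have hh2 : h ∣ star ω := EuclideanDomain.gcd_dvd_right _ _
    have hh0 : h ≠ 0 := by
      intro h0
      rw [h0] at hh1
      exact h10 (zero_dvd_iff.mp hh1)
    obtain ⟨k, hk⟩ := hh2.trans hωdvd
    obtain ⟨A, A', e, e', hAA, hdis, hee, hhA, hkA⟩ :=
      mul_eq_mul_prime_prod (x := h) (y := k) (a := 1) hq (by rw [one_mul]; exact hk.symm)
    have heu : IsUnit e := IsUnit.of_mul_eq_one _ hee.symm
    have hnm1 : nm (∏ j ∈ A, q j) = nm h := by
      rw [hhA, nm_mul, nm_eq_one_iff.mpr heu, one_mul]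
    have hdvd : (∏ j ∈ A, q j) ∣ p.1 := by
      refine Dvd.dvd.trans ?_ hh1
      rw [hhA]
      exact dvd_mul_left _ _
    obtain ⟨z1, hz1⟩ := hdvd
    refine ⟨A, z1, ?_, hz1⟩
    have hz10 : z1 ≠ 0 := by
      rintro rfl
      rw [mul_zero] at hz1
      exact h10 hz1
    rw [hB, Finset.mem_filter, mem_ball]
    refine ⟨?_, hz10⟩
    -- the estimate
    have hcle : c ≤ nm h := Nat.le_of_dvd (nm_pos hh0) hcd
    have hn1 : nm ω * nm p.1 = c ^ 2 * nm p.2 := by
      rw [← nm_mul, hc, nm_mul, nm_natCast_pairsa]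
    have hn2 : (nm p.1 : ℝ) = nm h * nm z1 := by
      rw [hz1, nm_mul, hnm1]
      push_cast
      ring
    have hX1 : (nm p.1 : ℝ) ≤ X := (mem_V.mp hp1).1
    have hX2 : (nm p.2 : ℝ) ≤ X := (mem_V.mp hp2).1
    have hn3 : (nm ω : ℝ) * nm p.1 ≤ (nm h : ℝ) ^ 2 * X := by
      have h1 : (nm ω : ℝ) * nm p.1 = (c : ℝ) ^ 2 * nm p.2 := by exact_mod_cast hn1
      rw [h1]
      have h2 : (c : ℝ) ≤ nm h := by exact_mod_cast hcle
      have h3 : (c : ℝ) ^ 2 ≤ (nm h : ℝ) ^ 2 := pow_le_pow_left₀ (by positivity) h2 2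
      exact mul_le_mul h3 hX2 (by positivity) (by positivity)
    have hnh : (0 : ℝ) < nm h := by exact_mod_cast nm_pos hh0
    have hωr : (0 : ℝ) < nm ω := by exact_mod_cast hωpos
    -- (nm z1)^2 nm ω ≤ X^2
    have hn4 : (nm z1 : ℝ) ^ 2 * nm ω ≤ X ^ 2 := by
      have h1 : (nm h : ℝ) ^ 2 * ((nm z1 : ℝ) ^ 2 * nm ω) ≤ (nm h : ℝ) ^ 2 * X ^ 2 := by
        calc (nm h : ℝ) ^ 2 * ((nm z1 : ℝ) ^ 2 * nm ω) = (nm ω * nm p.1) * nm p.1 := by
              rw [hn2]; ring
          _ ≤ ((nm h : ℝ) ^ 2 * X) * X :=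
              mul_le_mul hn3 hX1 (by positivity) (by positivity)
          _ = (nm h : ℝ) ^ 2 * X ^ 2 := by ring
      exact le_of_mul_le_mul_left h1 (by positivity)
    rw [ht, le_div_iff₀ hsq0]
    apply le_of_sq_le_sq _ hX
    rw [mul_pow, Real.sq_sqrt hωr.le]
    exact hn4
  -- counting
  set S := {p : G × G | p.1 ∈ V X ∧ p.2 ∈ V X ∧ pr (u * p.1) = pr (u' * p.2)} with hS
  set T : Finset G := ((Finset.univ : Finset (Finset (Fin l ⊕ Fin l))) ×ˢ B).image
    (fun r => (∏ j ∈ r.1, q j) * r.2) with hT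
  have hmaps : Set.MapsTo (fun p : G × G => p.1) S (T : Set G) := by
    rintro p ⟨hp1, hp2, hpr⟩
    obtain ⟨A, z1, hz1, heq⟩ := hfirst p hp1 hp2 hpr
    rw [hT, Finset.mem_coe, Finset.mem_image]
    exact ⟨(A, z1), Finset.mem_product.mpr ⟨Finset.mem_univ _, hz1⟩, heq.symm⟩
  have hinj : Set.InjOn (fun p : G × G => p.1) S := by
    rintro p ⟨hp1, hp2, hpr⟩ p' ⟨hp1', hp2', hpr'⟩ heq
    have heq' : p.1 = p'.1 := heq
    obtain ⟨c, hc0, hc⟩ := hstruct p hp1 hp2 hpr
    obtain ⟨c', hc0', hc'⟩ := hstruct p' hp1' hp2' hpr'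
    have h1 : pr (ω * p.1) = p.2 := by
      rw [hc, pr_nat_mul c hc0, pr_eq_self _ (mem_V.mp hp2).2.2]
    have h2 : pr (ω * p'.1) = p'.2 := by
      rw [hc', pr_nat_mul c' hc0', pr_eq_self _ (mem_V.mp hp2').2.2]
    have h3 : p.2 = p'.2 := by rw [← h1, ← h2, heq']
    exact Prod.ext heq' h3
  have hcard1 : Set.ncard S ≤ T.card := by
    have := Set.ncard_le_ncard_of_injOn (fun p : G × G => p.1) hmaps hinj (Finset.finite_toSet T)
    rwa [Set.ncard_coe_finset] at this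
  have hcard2 : T.card ≤ 2 ^ (l + l) * B.card := by
    refine Finset.card_image_le.trans ?_
    rw [Finset.card_product, Finset.card_univ, Fintype.card_finset, Fintype.card_sum,
      Fintype.card_fin]
  have hcard3 : (B.card : ℝ) ≤ 9 * t := card_ball_le t ht0
  have hfin : (Set.ncard S : ℝ) ≤ 2 ^ (l + l) * (9 * t) := by
    calc (Set.ncard S : ℝ) ≤ (T.card : ℝ) := by exact_mod_cast hcard1
      _ ≤ ((2 ^ (l + l) * B.card : ℕ) : ℝ) := by exact_mod_cast hcard2
      _ = 2 ^ (l + l) * (B.card : ℝ) := by push_cast; ring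
      _ ≤ 2 ^ (l + l) * (9 * t) := mul_le_mul_of_nonneg_left hcard3 (by positivity)
  refine hfin.trans (le_of_eq ?_)
  have hgr : (0 : ℝ) < nm g := by exact_mod_cast nm_pos hg0
  have hnn : (nm u * nm u' : ℝ) = (nm g : ℝ) ^ 2 * nm ω := by
    have h1 : nm u = nm g * nm a := by rw [ha, nm_mul]
    have h2 : nm u' = nm g * nm b := by rw [hb, nm_mul]
    have h3 : nm ω = nm a * nm b := by rw [hω, nm_mul, nm_star]
    rw [h1, h2, h3]
    push_cast
    ring
  rw [hnn, Real.sqrt_mul (by positivity), Real.sqrt_sq hgr.le, ht]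
  field_simp

/-- the constants of `pb_main` -/
noncomputable def pxC : ℕ → ℕ → ℝ
  | 0, m => 3 ^ m
  | l + 1, 0 => 3 ^ (l + 1)
  | l + 1, m + 1 => 3 * pxC l (m + 1) + (m + 1) * 9 * pxC l m

theorem pxC_nonneg (l m : ℕ) : 0 ≤ pxC l m := by
  induction l generalizing m with
  | zero => simp only [pxC]; positivity
  | succ l ih =>
    cases m with
    | zero => simp only [pxC]; positivity
    | succ m =>
      simp only [pxC]
      have h1 := ih (m + 1)
      have h2 := ih m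
      positivity

theorem pxC_le (l m : ℕ) : pxC l m ≤ (12 * ((m : ℝ) + 1)) ^ l * 3 ^ m := by
  induction l generalizing m with
  | zero => simp only [pxC]; simp
  | succ l ih =>
    cases m with
    | zero =>
      simp only [pxC]
      rw [pow_zero, mul_one]
      exact pow_le_pow_left₀ (by norm_num) (by norm_num) _
    | succ m =>
      simp only [pxC]
      have h1 := ih (m + 1)
      have h2 := ih m
      have h3 : (12 * ((m : ℝ) + 1)) ^ l ≤ (12 * (((m + 1 : ℕ) : ℝ) + 1)) ^ l := by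
        apply pow_le_pow_left₀ (by positivity)
        push_cast
        linarith
      set A : ℝ := (12 * (((m + 1 : ℕ) : ℝ) + 1)) ^ l with hA
      have hA0 : 0 ≤ A := by rw [hA]; positivity
      have h4 : pxC l m ≤ A * 3 ^ m := h2.trans (mul_le_mul_of_nonneg_right h3 (by positivity))
      have h5 : (12 * (((m + 1 : ℕ) : ℝ) + 1)) ^ (l + 1) * 3 ^ (m + 1) =
          A * 3 ^ m * (36 * ((m : ℝ) + 2)) := by
        rw [pow_succ, pow_succ, ← hA]
        push_cast
        ring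
      rw [h5]
      have h6 : 3 * pxC l (m + 1) ≤ A * 3 ^ m * 9 := by
        have : A * 3 ^ m * 9 = 3 * (A * 3 ^ (m + 1)) := by rw [pow_succ]; ring
        rw [this]
        linarith
      have h7 : ((m : ℝ) + 1) * 9 * pxC l m ≤ A * 3 ^ m * (9 * ((m : ℝ) + 1)) := by
        have := mul_le_mul_of_nonneg_left h4 (by positivity : (0 : ℝ) ≤ ((m : ℝ) + 1) * 9)
        refine this.trans (le_of_eq ?_)
        ring
      have h8 : A * 3 ^ m * 9 + A * 3 ^ m * (9 * ((m : ℝ) + 1)) ≤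
          A * 3 ^ m * (36 * ((m : ℝ) + 2)) := by
        rw [← mul_add]
        apply mul_le_mul_of_nonneg_left _ (by positivity)
        have : (0 : ℝ) ≤ m := Nat.cast_nonneg m
        linarith
      linarith

/-- `pb_main` with the constant `pxC l m` -/
theorem px_main (l : ℕ) : ∀ (m : ℕ) (P Q Y : ℝ) (W : Finset G), W ⊆ PP P Q →
    1 ≤ Y → (∀ w ∈ W, (nm w : ℝ) ≤ 3 * Y) →
    ∑ x ∈ Fintype.piFinset (fun _ : Fin l => W), ∑ y ∈ Fintype.piFinset (fun _ : Fin m => W),
      (nm (EuclideanDomain.gcd (∏ i, x i) (∏ i, y i)) : ℝ) ≤ pxC l m * Y ^ (l + m) := by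
  induction l with
  | zero =>
    intro m
    intro P Q Y W hW hY h
    simp only [pxC]
    have hc := pb_card hW hY h
    have h1 : ∀ x ∈ Fintype.piFinset (fun _ : Fin 0 => W),
        ∑ y ∈ Fintype.piFinset (fun _ : Fin m => W),
          (nm (EuclideanDomain.gcd (∏ i, x i) (∏ i, y i)) : ℝ) = (W.card : ℝ) ^ m := by
      intro x _
      have h2 : ∀ y ∈ Fintype.piFinset (fun _ : Fin m => W),
          (nm (EuclideanDomain.gcd (∏ i, x i) (∏ i, y i)) : ℝ) = 1 := by
        intro y _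
        have h3 : ∏ i, x i = 1 := by simp
        rw [h3]
        have h4 : IsUnit (EuclideanDomain.gcd (1 : G) (∏ i, y i)) :=
          isUnit_of_dvd_one (EuclideanDomain.gcd_dvd_left _ _)
        rw [nm_eq_one_iff.2 h4]
        simp
      rw [Finset.sum_congr rfl h2]
      simp
    rw [Finset.sum_congr rfl h1]
    have h5 : (Fintype.piFinset (fun _ : Fin 0 => W)).card = 1 := by simp
    rw [Finset.sum_const, h5, one_smul, Nat.zero_add, ← mul_pow]
    exact pow_le_pow_left₀ (by positivity) hc m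
  | succ l ih =>
    intro m
    rcases Nat.eq_zero_or_pos m with hm | hm
    · subst hm
      intro P Q Y W hW hY h
      simp only [pxC]
      have hc := pb_card hW hY h
      have h1 : ∀ x ∈ Fintype.piFinset (fun _ : Fin (l + 1) => W),
          ∑ y ∈ Fintype.piFinset (fun _ : Fin 0 => W),
            (nm (EuclideanDomain.gcd (∏ i, x i) (∏ i, y i)) : ℝ) = 1 := by
        intro x _
        have h2 : ∀ y ∈ Fintype.piFinset (fun _ : Fin 0 => W),
            (nm (EuclideanDomain.gcd (∏ i, x i) (∏ i, y i)) : ℝ) = 1 := by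
          intro y _
          have h3 : ∏ i, y i = 1 := by simp
          rw [h3]
          have h4 : IsUnit (EuclideanDomain.gcd (∏ i, x i) (1 : G)) :=
            isUnit_of_dvd_one (EuclideanDomain.gcd_dvd_right _ _)
          rw [nm_eq_one_iff.2 h4]
          simp
        rw [Finset.sum_congr rfl h2]
        simp
      rw [Finset.sum_congr rfl h1]
      have h5 : ((Fintype.piFinset (fun _ : Fin (l + 1) => W)).card : ℝ) =
          (W.card : ℝ) ^ (l + 1) := by
        simp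
      rw [Finset.sum_const, nsmul_eq_mul, mul_one, h5, Nat.add_zero, ← mul_pow]
      exact pow_le_pow_left₀ (by positivity) hc _
    · obtain ⟨m, rfl⟩ : ∃ m', m = m' + 1 := ⟨m - 1, by omega⟩
      have H1 := ih (m + 1)
      have H2 := ih m
      have hC1 := pxC_nonneg l (m + 1)
      have hC2 := pxC_nonneg l m
      intro P Q Y W hW hY h
      simp only [pxC]
      set C1 := pxC l (m + 1)
      set C2 := pxC l m
      have hc := pb_card hW hY h
      have I1 := H1 P Q Y W hW hY h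
      have I2 := H2 P Q Y W hW hY h
      have hne : ∀ w ∈ W, w ≠ 0 := fun w hw => (PP_spl (hW hw)).prime.ne_zero
      have hprod : ∀ {n : ℕ} (x : Fin n → G), x ∈ Fintype.piFinset (fun _ : Fin n => W) →
          ∏ i, x i ≠ 0 := by
        intro n x hx
        rw [Finset.prod_ne_zero_iff]
        intro i _
        exact hne _ (Fintype.mem_piFinset.1 hx i)
      -- pointwise bound
      have key : ∀ w ∈ W, ∀ x ∈ Fintype.piFinset (fun _ : Fin l => W),
          ∑ y ∈ Fintype.piFinset (fun _ : Fin (m + 1) => W),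
            (nm (EuclideanDomain.gcd (w * ∏ i, x i) (∏ i, y i)) : ℝ) ≤
          ∑ y ∈ Fintype.piFinset (fun _ : Fin (m + 1) => W),
            (nm (EuclideanDomain.gcd (∏ i, x i) (∏ i, y i)) : ℝ) +
          (m + 1) * (3 * Y) * ∑ y ∈ Fintype.piFinset (fun _ : Fin m => W),
            (nm (EuclideanDomain.gcd (∏ i, x i) (∏ i, y i)) : ℝ) := by
        intro w hw x hx
        have hwp : Prime w := (PP_spl (hW hw)).prime
        have hx0 := hprod x hx
        have step : ∀ y ∈ Fintype.piFinset (fun _ : Fin (m + 1) => W),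
            (nm (EuclideanDomain.gcd (w * ∏ i, x i) (∏ i, y i)) : ℝ) ≤
            (nm (EuclideanDomain.gcd (∏ i, x i) (∏ i, y i)) : ℝ) +
            ∑ j : Fin (m + 1), if y j = w then
              (nm (EuclideanDomain.gcd (w * ∏ i, x i) (∏ i, y i)) : ℝ) else 0 := by
          intro y hy
          by_cases hd : w ∣ ∏ i, y i
          · obtain ⟨j, _, hj⟩ := (hwp.dvd_finsetProd_iff _).1 hd
            have hj' : y j = w := (PP_dvd (hW hw) (hW (Fintype.mem_piFinset.1 hy j)) hj).symm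
            have h3 : (nm (EuclideanDomain.gcd (w * ∏ i, x i) (∏ i, y i)) : ℝ) ≤
                ∑ j : Fin (m + 1), if y j = w then
                (nm (EuclideanDomain.gcd (w * ∏ i, x i) (∏ i, y i)) : ℝ) else 0 := by
              have h4 := Finset.single_le_sum (f := fun j : Fin (m + 1) => if y j = w then
                (nm (EuclideanDomain.gcd (w * ∏ i, x i) (∏ i, y i)) : ℝ) else 0)
                (s := Finset.univ) (fun i _ => by positivity) (Finset.mem_univ j)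
              simp only [hj', if_true] at h4
              exact h4
            have h5 : (0 : ℝ) ≤ (nm (EuclideanDomain.gcd (∏ i, x i) (∏ i, y i)) : ℝ) := by
              positivity
            linarith
          · have h3 : (nm (EuclideanDomain.gcd (w * ∏ i, x i) (∏ i, y i)) : ℝ) ≤
                (nm (EuclideanDomain.gcd (∏ i, x i) (∏ i, y i)) : ℝ) := by
              exact_mod_cast pb_gcd_coprime hwp hx0 hd
            have h4 : (0 : ℝ) ≤ ∑ j : Fin (m + 1), if y j = w then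
                (nm (EuclideanDomain.gcd (w * ∏ i, x i) (∏ i, y i)) : ℝ) else 0 :=
              Finset.sum_nonneg (fun i _ => by positivity)
            linarith
        refine (Finset.sum_le_sum step).trans ?_
        rw [Finset.sum_add_distrib]
        have h6 : ∑ y ∈ Fintype.piFinset (fun _ : Fin (m + 1) => W), ∑ j : Fin (m + 1),
            (if y j = w then
              (nm (EuclideanDomain.gcd (w * ∏ i, x i) (∏ i, y i)) : ℝ) else 0) ≤
            (m + 1) * (3 * Y) * ∑ y ∈ Fintype.piFinset (fun _ : Fin m => W),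
            (nm (EuclideanDomain.gcd (∏ i, x i) (∏ i, y i)) : ℝ) := by
          rw [Finset.sum_comm]
          have h7 : ∀ j ∈ (Finset.univ : Finset (Fin (m + 1))),
              ∑ y ∈ Fintype.piFinset (fun _ : Fin (m + 1) => W),
              (if y j = w then
              (nm (EuclideanDomain.gcd (w * ∏ i, x i) (∏ i, y i)) : ℝ) else 0) ≤
              (3 * Y) * ∑ y ∈ Fintype.piFinset (fun _ : Fin m => W),
                (nm (EuclideanDomain.gcd (∏ i, x i) (∏ i, y i)) : ℝ) := by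
            intro j _
            rw [pb_sum_insert W j]
            have h8 : ∀ a ∈ W, ∑ y ∈ Fintype.piFinset (fun _ : Fin m => W),
                (if (Fin.insertNth j a y : Fin (m + 1) → G) j = w then
                (nm (EuclideanDomain.gcd (w * ∏ i, x i)
                  (∏ i, (Fin.insertNth j a y : Fin (m + 1) → G) i)) : ℝ) else 0) =
                if a = w then ∑ y ∈ Fintype.piFinset (fun _ : Fin m => W),
                  (nm (EuclideanDomain.gcd (w * ∏ i, x i) (w * ∏ i, y i)) : ℝ) else 0 := by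
              intro a _
              by_cases ha : a = w
              · subst ha
                simp only [Fin.insertNth_apply_same, if_true, pb_prod_insert]
              · simp [ha]
            rw [Finset.sum_congr rfl h8, Finset.sum_ite_eq' W w, if_pos hw, Finset.mul_sum]
            apply Finset.sum_le_sum
            intro y _
            have h9 := pb_gcd_mul (w := w) (a := ∏ i, x i) (b := ∏ i, y i) (hne w hw) hx0
            have h10 : (nm (EuclideanDomain.gcd (w * ∏ i, x i) (w * ∏ i, y i)) : ℝ) ≤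
                (nm w : ℝ) * (nm (EuclideanDomain.gcd (∏ i, x i) (∏ i, y i)) : ℝ) := by
              exact_mod_cast h9
            refine h10.trans ?_
            exact mul_le_mul_of_nonneg_right (h w hw) (by positivity)
          refine (Finset.sum_le_sum h7).trans ?_
          rw [Finset.sum_const]
          simp only [Finset.card_univ, Fintype.card_fin, nsmul_eq_mul]
          push_cast
          apply le_of_eq
          ring
        linarith
      -- sum over the first coordinate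
      rw [pb_sum_insert W (0 : Fin (l + 1))]
      simp only [pb_prod_insert]
      have h11 : ∑ w ∈ W, ∑ x ∈ Fintype.piFinset (fun _ : Fin l => W),
          ∑ y ∈ Fintype.piFinset (fun _ : Fin (m + 1) => W),
            (nm (EuclideanDomain.gcd (w * ∏ i, x i) (∏ i, y i)) : ℝ) ≤
          ∑ _w ∈ W, (C1 * Y ^ (l + (m + 1)) + (m + 1) * (3 * Y) * (C2 * Y ^ (l + m))) := by
        apply Finset.sum_le_sum
        intro w hw
        refine (Finset.sum_le_sum (key w hw)).trans ?_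
        rw [Finset.sum_add_distrib, ← Finset.mul_sum]
        have h12 : (0 : ℝ) ≤ (m + 1) * (3 * Y) := by positivity
        exact add_le_add I1 (mul_le_mul_of_nonneg_left I2 h12)
      refine h11.trans ?_
      rw [Finset.sum_const, nsmul_eq_mul]
      have h13 : (0 : ℝ) ≤ C1 * Y ^ (l + (m + 1)) + (m + 1) * (3 * Y) * (C2 * Y ^ (l + m)) := by
        positivity
      refine (mul_le_mul_of_nonneg_right hc h13).trans ?_
      apply le_of_eq
      have e1 : Y ^ (l + 1 + (m + 1)) = Y ^ (l + m) * Y ^ 2 := by rw [← pow_add]; ring_nf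
      have e2 : Y ^ (l + (m + 1)) = Y ^ (l + m) * Y := by rw [← pow_succ]; ring_nf
      rw [e1, e2]
      ring

/-- The proof of `pairsU` with explicit constants. In `pairsA` (Lib_MP_f1a94e_mr/PairsA.lean) the constant is
`9 * 2 ^ (l + l)`. In `pb_main` (PairsB.lean) the recursion is `C (l+1) (m+1) = 3 C l (m+1) + 9 (m+1) C l m`,
`C 0 m = 3 ^ m`, `C l 0 = 3 ^ l`, so `C l m ≤ (12 (m+1)) ^ l 3 ^ m`, hence `C l l ≤ (36 (l+1)) ^ l`, and
`9 * 4 ^ l * (36 (l+1)) ^ l = 9 * (144 (l+1)) ^ l`. (Copy the three proofs.) -/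
theorem pairsX (l : ℕ) (P Q Y X : ℝ) (W : Finset G) (hW : W ⊆ PP P Q) (hY : 1 ≤ Y)
    (hX : 0 ≤ X) (h : ∀ w ∈ W, Y < (nm w : ℝ) ∧ (nm w : ℝ) ≤ 3 * Y) :
    (Set.ncard {q : ((Fin l → G) × G) × ((Fin l → G) × G) |
      (∀ i, q.1.1 i ∈ W) ∧ q.1.2 ∈ V X ∧ (∀ i, q.2.1 i ∈ W) ∧ q.2.2 ∈ V X ∧
      pr ((∏ i, q.1.1 i) * q.1.2) = pr ((∏ i, q.2.1 i) * q.2.2)} : ℝ) ≤
      9 * (144 * ((l : ℝ) + 1)) ^ l * Y ^ l * X := by
  classical
  have hC1 : (0 : ℝ) < 9 * 2 ^ (l + l) := by positivity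
  have H1 := pairsAX l
  have H2 : ∀ (P Q Y : ℝ) (W : Finset G), W ⊆ PP P Q → 1 ≤ Y →
      (∀ w ∈ W, (nm w : ℝ) ≤ 3 * Y) →
      ∑ x ∈ Fintype.piFinset (fun _ : Fin l => W), ∑ y ∈ Fintype.piFinset (fun _ : Fin l => W),
        (nm (EuclideanDomain.gcd (∏ i, x i) (∏ i, y i)) : ℝ) ≤
        (36 * ((l : ℝ) + 1)) ^ l * Y ^ (2 * l) := by
    intro P Q Y W hW hY h
    have h1 := px_main l l P Q Y W hW hY h
    rw [← two_mul] at h1
    refine h1.trans ?_
    apply mul_le_mul_of_nonneg_right _ (by positivity)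
    refine (pxC_le l l).trans (le_of_eq ?_)
    rw [← mul_pow]
    congr 1
    ring
  set C1 : ℝ := 9 * 2 ^ (l + l) with hC1def
  set C2 : ℝ := (36 * ((l : ℝ) + 1)) ^ l with hC2def
  have hconst : 9 * (144 * ((l : ℝ) + 1)) ^ l = C1 * C2 := by
    rw [hC1def, hC2def]
    have h1 : (2 : ℝ) ^ (l + l) = 4 ^ l := by
      rw [← two_mul, pow_mul]
      norm_num
    rw [h1, mul_assoc, ← mul_pow]
    congr 2
    ring
  rw [hconst]
  have I2 := H2 P Q Y W hW hY (fun w hw => (h w hw).2)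
  set WW := Fintype.piFinset (fun _ : Fin l => W) with hWW
  have hset : {q : ((Fin l → G) × G) × ((Fin l → G) × G) |
      (∀ i, q.1.1 i ∈ W) ∧ q.1.2 ∈ V X ∧ (∀ i, q.2.1 i ∈ W) ∧ q.2.2 ∈ V X ∧
      pr ((∏ i, q.1.1 i) * q.1.2) = pr ((∏ i, q.2.1 i) * q.2.2)} =
      ((((WW ×ˢ V X) ×ˢ (WW ×ˢ V X)).filter
        (fun q => pr ((∏ i, q.1.1 i) * q.1.2) = pr ((∏ i, q.2.1 i) * q.2.2)) :
        Finset (((Fin l → G) × G) × ((Fin l → G) × G))) :
        Set (((Fin l → G) × G) × ((Fin l → G) × G))) := by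
    ext q
    simp only [Set.mem_ofPred_eq, Finset.coe_filter, Finset.mem_product, hWW,
      Fintype.mem_piFinset]
    tauto
  rw [hset, Set.ncard_coe_finset]
  have hin : ∀ x ∈ WW, ∀ y ∈ WW, (((V X ×ˢ V X).filter
      (fun p => pr ((∏ i, x i) * p.1) = pr ((∏ i, y i) * p.2))).card : ℝ) ≤
      C1 * X / Y ^ l * (nm (EuclideanDomain.gcd (∏ i, x i) (∏ i, y i)) : ℝ) := by
    intro x hx y hy
    rw [hWW, Fintype.mem_piFinset] at hx hy
    have h1 := H1 P Q X x y (fun i => hW (hx i)) (fun i => hW (hy i)) hX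
    have hs : {p : G × G | p.1 ∈ V X ∧ p.2 ∈ V X ∧
        pr ((∏ i, x i) * p.1) = pr ((∏ i, y i) * p.2)} =
        (((V X ×ˢ V X).filter
        (fun p => pr ((∏ i, x i) * p.1) = pr ((∏ i, y i) * p.2)) : Finset (G × G)) :
          Set (G × G)) := by
      ext p
      simp only [Set.mem_ofPred_eq, Finset.coe_filter, Finset.mem_product]
      tauto
    rw [hs, Set.ncard_coe_finset] at h1
    refine h1.trans ?_
    have hYl : (0 : ℝ) < Y ^ l := by positivity
    have h2 : Y ^ l ≤ Real.sqrt (nm (∏ i, x i) * nm (∏ i, y i) : ℝ) := by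
      apply Real.le_sqrt_of_sq_le
      rw [sq]
      exact mul_le_mul (pu_pow_le hY (fun w hw => (h w hw).1) x hx)
        (pu_pow_le hY (fun w hw => (h w hw).1) y hy) hYl.le (by positivity)
    have h3 : C1 * X / Y ^ l * (nm (EuclideanDomain.gcd (∏ i, x i) (∏ i, y i)) : ℝ) =
        C1 * X * (nm (EuclideanDomain.gcd (∏ i, x i) (∏ i, y i)) : ℝ) / Y ^ l := by ring
    rw [h3]
    exact div_le_div_of_nonneg_left (by positivity) hYl h2
  have hcard : ((((WW ×ˢ V X) ×ˢ (WW ×ˢ V X)).filter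
        (fun q => pr ((∏ i, q.1.1 i) * q.1.2) = pr ((∏ i, q.2.1 i) * q.2.2))).card : ℝ) =
      ∑ x ∈ WW, ∑ y ∈ WW, (((V X ×ˢ V X).filter
      (fun p => pr ((∏ i, x i) * p.1) = pr ((∏ i, y i) * p.2))).card : ℝ) := by
    simp only [Finset.card_filter, Finset.sum_product]
    push_cast
    apply Finset.sum_congr rfl
    intro x _
    rw [Finset.sum_comm]
  rw [hcard]
  calc ∑ x ∈ WW, ∑ y ∈ WW, (((V X ×ˢ V X).filter
      (fun p => pr ((∏ i, x i) * p.1) = pr ((∏ i, y i) * p.2))).card : ℝ)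
      ≤ ∑ x ∈ WW, ∑ y ∈ WW,
        C1 * X / Y ^ l * (nm (EuclideanDomain.gcd (∏ i, x i) (∏ i, y i)) : ℝ) :=
        Finset.sum_le_sum (fun x hx => Finset.sum_le_sum (fun y hy => hin x hx y hy))
    _ = C1 * X / Y ^ l * ∑ x ∈ WW, ∑ y ∈ WW,
        (nm (EuclideanDomain.gcd (∏ i, x i) (∏ i, y i)) : ℝ) := by
        rw [Finset.mul_sum]
        apply Finset.sum_congr rfl
        intro x _
        rw [Finset.mul_sum]
    _ ≤ C1 * X / Y ^ l * (C2 * Y ^ (2 * l)) :=
        mul_le_mul_of_nonneg_left I2 (by positivity)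
    _ = C1 * C2 * Y ^ l * X := by
        have hYl : (Y ^ l : ℝ) ≠ 0 := by positivity
        have e : Y ^ (2 * l) = Y ^ l * Y ^ l := by rw [two_mul, pow_add]
        rw [e]
        field_simp

end Pool.Agent.GaussMR

end

/-! ### from `Lib_MP_92ef0c_spm.PairsN` -/

section

/-!
# coincidences between products of `l` primes of a block and a coprime pair
-/

set_option autoImplicit false

namespace Pool.Agent.SplM

open Pool.Agent.GaussMR (pxC pxC_nonneg pxC_le)

/-- the parametrisation of the coincidences -/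
theorem pairs_ab_param {a b x y x' y' : ℕ} (ha : 0 < a) (hb : 0 < b) (hab : a.Coprime b)
    (hx : 0 < x) (hy : 0 < y) (hxy : x.Coprime y) (hxy' : x'.Coprime y')
    (h : a * x * y' = b * x' * y) : ∃ d e x1 y1 : ℕ, d ∣ a ∧ e ∣ b ∧ 0 < x1 ∧ 0 < y1 ∧
      x = e * x1 ∧ y = d * y1 ∧ x' = (a / d) * x1 ∧ y' = (b / e) * y1 := by
  obtain ⟨a1, ha1⟩ := Nat.gcd_dvd_left a y
  obtain ⟨y1, hy1⟩ := Nat.gcd_dvd_right a y
  obtain ⟨b1, hb1⟩ := Nat.gcd_dvd_left b x
  obtain ⟨x1, hx1⟩ := Nat.gcd_dvd_right b x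
  have hd : 0 < a.gcd y := Nat.gcd_pos_of_pos_left _ ha
  have he : 0 < b.gcd x := Nat.gcd_pos_of_pos_left _ hb
  have hc1 : a1.Coprime y1 := by
    have := Nat.coprime_div_gcd_div_gcd hd
    rwa [Nat.div_eq_of_eq_mul_right hd ha1, Nat.div_eq_of_eq_mul_right hd hy1] at this
  have hc2 : b1.Coprime x1 := by
    have := Nat.coprime_div_gcd_div_gcd he
    rwa [Nat.div_eq_of_eq_mul_right he hb1, Nat.div_eq_of_eq_mul_right he hx1] at this
  have hx10 : 0 < x1 := by
    rcases Nat.eq_zero_or_pos x1 with h0 | h0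
    · rw [h0, mul_zero] at hx1; omega
    · exact h0
  have hy10 : 0 < y1 := by
    rcases Nat.eq_zero_or_pos y1 with h0 | h0
    · rw [h0, mul_zero] at hy1; omega
    · exact h0
  have ha10 : 0 < a1 := by
    rcases Nat.eq_zero_or_pos a1 with h0 | h0
    · rw [h0, mul_zero] at ha1; omega
    · exact h0
  have ha1d : a1 ∣ a := Dvd.intro_left _ ha1.symm
  have hb1d : b1 ∣ b := Dvd.intro_left _ hb1.symm
  have hx1d : x1 ∣ x := Dvd.intro_left _ hx1.symm
  have hy1d : y1 ∣ y := Dvd.intro_left _ hy1.symm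
  have hc3 : a1.Coprime b1 := (hab.coprime_dvd_left ha1d).coprime_dvd_right hb1d
  have hc4 : x1.Coprime y1 := (hxy.coprime_dvd_left hx1d).coprime_dvd_right hy1d
  have hco : (a1 * x1).Coprime (b1 * y1) :=
    Nat.Coprime.mul_left (Nat.Coprime.mul_right hc3 hc1) (Nat.Coprime.mul_right hc2.symm hc4)
  have hkey : a1 * x1 * y' = b1 * y1 * x' := by
    have h1 : (a.gcd y * b.gcd x) * (a1 * x1 * y') = (a.gcd y * b.gcd x) * (b1 * y1 * x') := by
      calc (a.gcd y * b.gcd x) * (a1 * x1 * y') = (a.gcd y * a1) * (b.gcd x * x1) * y' := by ring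
        _ = a * x * y' := by rw [← ha1, ← hx1]
        _ = b * x' * y := h
        _ = (b.gcd x * b1) * x' * (a.gcd y * y1) := by rw [← hb1, ← hy1]
        _ = (a.gcd y * b.gcd x) * (b1 * y1 * x') := by ring
    exact Nat.eq_of_mul_eq_mul_left (Nat.mul_pos hd he) h1
  have hdv1 : a1 * x1 ∣ x' := by
    have : a1 * x1 ∣ b1 * y1 * x' := hkey ▸ Dvd.intro _ rfl
    exact hco.dvd_of_dvd_mul_left this
  have hdv2 : x' ∣ a1 * x1 := by
    have : x' ∣ a1 * x1 * y' := hkey ▸ Dvd.intro_left _ rfl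
    exact hxy'.dvd_of_dvd_mul_right this
  have hx'e : x' = a1 * x1 := Nat.dvd_antisymm hdv2 hdv1
  have hy'e : y' = b1 * y1 := by
    rw [hx'e] at hkey
    have : (a1 * x1) * y' = (a1 * x1) * (b1 * y1) := by rw [hkey]; ring
    exact Nat.eq_of_mul_eq_mul_left (Nat.mul_pos ha10 hx10) this
  refine ⟨a.gcd y, b.gcd x, x1, y1, Nat.gcd_dvd_left _ _, Nat.gcd_dvd_left _ _, hx10, hy10,
    hx1, hy1, ?_, ?_⟩
  · rw [hx'e, Nat.div_eq_of_eq_mul_right hd ha1]
  · rw [hy'e, Nat.div_eq_of_eq_mul_right he hb1]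

open Classical in
/-- Coprime `a, b`. `a x y' = b x' y` with `z = (x, y)`, `w = (x', y')` coprime pairs: with `d = gcd a y`,
`e = gcd b x`, `x = e x1`, `y = d y1` one gets `x' = (a / d) x1`, `y' = (b / e) y1` (both sides of
`(a/d) (x/e) y' = (b/e) (y/d) x'` in lowest terms). So for fixed `(d, e)` (divisors of `a` and of `b`) the pair is
determined by `(x1, y1)` with `x1 ≤ C d / a` (from `x' ≤ C`) and `y1 ≤ D / d`: at most `C D / a` pairs. -/
theorem pairs_ab (a b : ℕ) (ha : 0 < a) (hb : 0 < b) (hab : a.Coprime b) (C D : ℝ) (hC : 0 ≤ C) (hD : 0 ≤ D) :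
    ((((Spl.PB C D) ×ˢ (Spl.PB C D)).filter (fun q : (ℕ × ℕ) × (ℕ × ℕ) =>
      a * q.1.1 * q.2.2 = b * q.2.1 * q.1.2)).card : ℝ) ≤ a.divisors.card * b.divisors.card * (C * D / a) := by
  set S := ((Spl.PB C D) ×ˢ (Spl.PB C D)).filter (fun q : (ℕ × ℕ) × (ℕ × ℕ) =>
      a * q.1.1 * q.2.2 = b * q.2.1 * q.1.2) with hS
  let F : ℕ × ℕ → ℕ × ℕ → (ℕ × ℕ) × (ℕ × ℕ) := fun de z =>
    ((de.2 * z.1, de.1 * z.2), ((a / de.1) * z.1, (b / de.2) * z.2))
  let R : ℕ × ℕ → Finset (ℕ × ℕ) := fun de =>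
    Finset.Icc 1 ⌊C * de.1 / a⌋₊ ×ˢ Finset.Icc 1 ⌊D / de.1⌋₊
  have haR : (0 : ℝ) < a := by exact_mod_cast ha
  have hsub : S ⊆ (a.divisors ×ˢ b.divisors).biUnion (fun de => (R de).image (F de)) := by
    rintro ⟨⟨x, y⟩, ⟨x', y'⟩⟩ hq
    rw [hS, Finset.mem_filter, Finset.mem_product, Spl.mem_PB, Spl.mem_PB] at hq
    obtain ⟨⟨⟨⟨hx, hxC⟩, ⟨hy, hyD⟩, hxy⟩, ⟨⟨hx', hx'C⟩, ⟨hy', hy'D⟩, hxy'⟩⟩, h⟩ := hq
    simp only at hx hxC hy hyD hxy hx' hx'C hy' hy'D hxy' h
    obtain ⟨d, e, x1, y1, hda, heb, hx1, hy1, e1, e2, e3, e4⟩ :=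
      pairs_ab_param ha hb hab hx hy hxy hxy' h
    rw [Finset.mem_biUnion]
    have hd0 : 0 < d := Nat.pos_of_dvd_of_pos hda ha
    have hdR : (0 : ℝ) < d := by exact_mod_cast hd0
    refine ⟨(d, e), ?_, ?_⟩
    · rw [Finset.mem_product, Nat.mem_divisors, Nat.mem_divisors]
      exact ⟨⟨hda, ha.ne'⟩, ⟨heb, hb.ne'⟩⟩
    · rw [Finset.mem_image]
      refine ⟨(x1, y1), ?_, ?_⟩
      · simp only [R]
        rw [Finset.mem_product, Finset.mem_Icc, Finset.mem_Icc]
        refine ⟨⟨hx1, Nat.le_floor ?_⟩, ⟨hy1, Nat.le_floor ?_⟩⟩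
        · rw [e3] at hx'C
          rw [le_div_iff₀ haR]
          obtain ⟨a1, ha1⟩ := hda
          rw [ha1, Nat.mul_div_cancel_left _ hd0] at hx'C
          rw [ha1]
          push_cast at hx'C ⊢
          nlinarith
        · rw [e2] at hyD
          rw [le_div_iff₀ hdR]
          push_cast at hyD
          linarith
      · simp only [F]
        rw [e1, e2, e3, e4]
  have h1 : S.card ≤ ∑ de ∈ a.divisors ×ˢ b.divisors, (R de).card := by
    refine (Finset.card_le_card hsub).trans (Finset.card_biUnion_le.trans ?_)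
    exact Finset.sum_le_sum fun de _ => Finset.card_image_le
  have h2 : ∀ de ∈ a.divisors ×ˢ b.divisors, ((R de).card : ℝ) ≤ C * D / a := by
    intro de hde
    rw [Finset.mem_product, Nat.mem_divisors] at hde
    have hd0 : 0 < de.1 := Nat.pos_of_dvd_of_pos hde.1.1 ha
    have hdR : (0 : ℝ) < de.1 := by exact_mod_cast hd0
    simp only [R]
    rw [Finset.card_product, Nat.card_Icc, Nat.card_Icc]
    simp only [Nat.add_sub_cancel]
    push_cast
    calc (⌊C * de.1 / a⌋₊ : ℝ) * (⌊D / de.1⌋₊ : ℝ) ≤ (C * de.1 / a) * (D / de.1) :=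
          mul_le_mul (Nat.floor_le (by positivity)) (Nat.floor_le (by positivity))
            (Nat.cast_nonneg _) (by positivity)
      _ = C * D / a := by field_simp
  calc (S.card : ℝ) ≤ ∑ de ∈ a.divisors ×ˢ b.divisors, ((R de).card : ℝ) := by exact_mod_cast h1
    _ ≤ ∑ de ∈ a.divisors ×ˢ b.divisors, C * D / a := Finset.sum_le_sum h2
    _ = a.divisors.card * b.divisors.card * (C * D / a) := by
        rw [Finset.sum_const, Finset.card_product, nsmul_eq_mul]
        push_cast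
        ring

open scoped Pointwise in
/-- number of divisors of a product of `l` primes (`Nat.divisors_mul`, `Finset.card_mul_le`) and of its divisors -/
theorem div_prod (l : ℕ) (x : Fin l → ℕ) (hx : ∀ i, (x i).Prime) (a : ℕ) (ha : a ∣ ∏ i, x i) :
    a.divisors.card ≤ 2 ^ l := by
  have h0 : ∏ i, x i ≠ 0 := Finset.prod_ne_zero_iff.2 fun i _ => (hx i).ne_zero
  refine (Finset.card_le_card (Nat.divisors_subset_of_dvd h0 ha)).trans ?_
  clear ha h0
  induction l with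
  | zero => simp
  | succ l ih =>
    rw [Fin.prod_univ_succ, Nat.divisors_mul]
    refine Finset.card_mul_le.trans ?_
    rw [pow_succ, mul_comm]
    refine Nat.mul_le_mul (ih (fun i => x i.succ) (fun i => hx i.succ)) ?_
    rw [(hx 0).divisors]
    exact Finset.card_le_two

open Classical in
/-- Divide by `m = gcd (∏ x) (∏ y)`: `pairs_ab` with `a = ∏ x / m`, `b = ∏ y / m` and `div_prod`. -/
theorem pairsN1 (l : ℕ) (x y : Fin l → ℕ) (hx : ∀ i, (x i).Prime) (hy : ∀ i, (y i).Prime) (C D : ℝ)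
    (hC : 0 ≤ C) (hD : 0 ≤ D) :
    ((((Spl.PB C D) ×ˢ (Spl.PB C D)).filter (fun q : (ℕ × ℕ) × (ℕ × ℕ) =>
      (∏ i, x i) * q.1.1 * q.2.2 = (∏ i, y i) * q.2.1 * q.1.2)).card : ℝ) ≤
      2 ^ (l + l) * (C * D) * (Nat.gcd (∏ i, x i) (∏ i, y i)) / (∏ i, x i : ℕ) := by
  have hX0 : 0 < ∏ i, x i := Finset.prod_pos fun i _ => (hx i).pos
  have hY0 : 0 < ∏ i, y i := Finset.prod_pos fun i _ => (hy i).pos
  obtain ⟨X, hX⟩ : ∃ X, X = ∏ i, x i := ⟨_, rfl⟩
  obtain ⟨Y, hY⟩ : ∃ Y, Y = ∏ i, y i := ⟨_, rfl⟩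
  have hdX := fun a ha => div_prod l x hx a ha
  have hdY := fun a ha => div_prod l y hy a ha
  rw [← hX] at hX0 hdX ⊢
  rw [← hY] at hY0 hdY ⊢
  have hm : 0 < X.gcd Y := Nat.gcd_pos_of_pos_left _ hX0
  obtain ⟨a, ha⟩ := Nat.gcd_dvd_left X Y
  obtain ⟨b, hb⟩ := Nat.gcd_dvd_right X Y
  have hab : a.Coprime b := by
    have := Nat.coprime_div_gcd_div_gcd hm
    rwa [Nat.div_eq_of_eq_mul_right hm ha, Nat.div_eq_of_eq_mul_right hm hb] at this
  have ha0 : 0 < a := by
    rcases Nat.eq_zero_or_pos a with h0 | h0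
    · rw [h0, mul_zero] at ha; omega
    · exact h0
  have hb0 : 0 < b := by
    rcases Nat.eq_zero_or_pos b with h0 | h0
    · rw [h0, mul_zero] at hb; omega
    · exact h0
  have hfil : ((Spl.PB C D) ×ˢ (Spl.PB C D)).filter (fun q : (ℕ × ℕ) × (ℕ × ℕ) =>
      X * q.1.1 * q.2.2 = Y * q.2.1 * q.1.2) =
      ((Spl.PB C D) ×ˢ (Spl.PB C D)).filter (fun q : (ℕ × ℕ) × (ℕ × ℕ) =>
      a * q.1.1 * q.2.2 = b * q.2.1 * q.1.2) := by
    refine Finset.filter_congr fun q _ => ?_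
    constructor
    · intro h
      have h1 : X.gcd Y * (a * q.1.1 * q.2.2) = X.gcd Y * (b * q.2.1 * q.1.2) := by
        calc X.gcd Y * (a * q.1.1 * q.2.2) = (X.gcd Y * a) * q.1.1 * q.2.2 := by ring
          _ = (X.gcd Y * b) * q.2.1 * q.1.2 := by rw [← ha, ← hb, h]
          _ = _ := by ring
      exact Nat.eq_of_mul_eq_mul_left hm h1
    · intro h
      calc X * q.1.1 * q.2.2 = X.gcd Y * (a * q.1.1 * q.2.2) := by
            conv_lhs => rw [ha]
            ring
        _ = X.gcd Y * (b * q.2.1 * q.1.2) := by rw [h]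
        _ = (X.gcd Y * b) * q.2.1 * q.1.2 := by ring
        _ = Y * q.2.1 * q.1.2 := by rw [← hb]
  rw [hfil]
  have hda : a.divisors.card ≤ 2 ^ l := hdX a (Dvd.intro_left _ ha.symm)
  have hdb : b.divisors.card ≤ 2 ^ l := hdY b (Dvd.intro_left _ hb.symm)
  have hda' : (a.divisors.card : ℝ) ≤ 2 ^ l := by exact_mod_cast hda
  have hdb' : (b.divisors.card : ℝ) ≤ 2 ^ l := by exact_mod_cast hdb
  have haR : (0 : ℝ) < a := by exact_mod_cast ha0
  have hmR : (0 : ℝ) < X.gcd Y := by exact_mod_cast hm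
  have hXR : (X : ℝ) = X.gcd Y * a := by exact_mod_cast ha
  calc _ ≤ (a.divisors.card : ℝ) * b.divisors.card * (C * D / a) :=
        pairs_ab a b ha0 hb0 hab C D hC hD
    _ ≤ 2 ^ l * 2 ^ l * (C * D / a) := by
        refine mul_le_mul_of_nonneg_right ?_ (by positivity)
        exact mul_le_mul hda' hdb' (Nat.cast_nonneg _) (by positivity)
    _ = 2 ^ (l + l) * (C * D) * (X.gcd Y : ℝ) / (X : ℝ) := by
        rw [hXR, pow_add]
        field_simp

end Pool.Agent.SplM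

end

/-! ### from `Lib_MP_f1a94e_mu.ParamsA` -/

section

/-!
# Piece PARAMSA: elementary estimates for the parameters of the stages
-/

set_option autoImplicit false

namespace Pool.Agent.GaussMR

theorem pa_log_le (x : ℝ) (hx : 1 ≤ x) : Real.log x ≤ x := by
  have := Real.log_le_sub_one_of_pos (show 0 < x by linarith)
  linarith

theorem pa_le_exp (x : ℝ) : x ≤ Real.exp x := by
  have := Real.add_one_le_exp x
  linarith

theorem pa_pow_le_exp (s : ℝ) (hs : 1 ≤ s) (n : ℕ) : s ^ n ≤ Real.exp (n * s) := by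
  rw [mul_comm, Real.exp_mul, Real.rpow_natCast]
  have := pa_le_exp s
  gcongr

/-- stage `j → j + 1`, `m = b ^ (2 ^ j)`: the exponent is at most
`C' m^(13/2) - (α / 2^(j+1)) m^8 ≤ C' m^(13/2) - (α / 2) m^7 ≤ - m` for large `m`. -/
theorem param_step (C α : ℝ) (hC : 0 ≤ C) (hα : 0 < α) : ∃ b0 : ℝ, 1 ≤ b0 ∧ ∀ (m : ℝ) (j : ℕ),
    b0 ≤ m → (2 : ℝ) ^ j ≤ m →
    (m ^ 12 + 1) ^ 2 * (m ^ 6 + 1) * Real.exp (2 * m ^ 5) *
      Real.exp (C * (2 * m ^ 6 + 2) * Real.log (2 * m ^ 6 + 2)) *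
      Real.exp (-(α / 2 ^ (j + 1) * m ^ 8)) ≤ Real.exp (-m) := by
  set s0 : ℝ := max 1 (2 / α * (70 + 56 * C)) with hs0
  have hs01 : 1 ≤ s0 := le_max_left _ _
  refine ⟨s0 ^ 2, one_le_pow₀ hs01, ?_⟩
  intro m j hm hj
  set s : ℝ := Real.sqrt m with hs
  have hss : s0 ≤ s := Real.le_sqrt_of_sq_le hm
  have hs1 : 1 ≤ s := hs01.trans hss
  have hm1 : 1 ≤ m := le_trans (one_le_pow₀ hs01) hm
  have hms : m = s ^ 2 := (Real.sq_sqrt (by linarith)).symm
  have hm0 : 0 < m := by linarith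
  -- logarithm
  have h1 : Real.log (2 * m ^ 6 + 2) ≤ 14 * s := by
    have e1 : 2 * m ^ 6 + 2 ≤ 4 * s ^ 12 := by
      have : m ^ 6 = s ^ 12 := by rw [hms]; ring
      rw [this]
      have : 1 ≤ s ^ 12 := one_le_pow₀ hs1
      linarith
    have e2 : Real.log (2 * m ^ 6 + 2) ≤ Real.log (4 * s ^ 12) :=
      Real.log_le_log (by positivity) e1
    have e3 : Real.log (4 * s ^ 12) = Real.log 4 + 12 * Real.log s := by
      rw [Real.log_mul (by norm_num) (by positivity), Real.log_pow]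
      norm_num
    have e4 : Real.log 4 ≤ 2 := by
      have : (4 : ℝ) = 2 ^ 2 := by norm_num
      rw [this, Real.log_pow]
      have := Real.log_two_lt_d9
      push_cast
      linarith
    have e5 := pa_log_le s hs1
    linarith
  have h2 : C * (2 * m ^ 6 + 2) * Real.log (2 * m ^ 6 + 2) ≤ 56 * C * s ^ 13 := by
    have e0 : 0 ≤ Real.log (2 * m ^ 6 + 2) := by
      apply Real.log_nonneg
      have : 0 ≤ m ^ 6 := by positivity
      linarith
    have e1 : 2 * m ^ 6 + 2 ≤ 4 * s ^ 12 := by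
      have : m ^ 6 = s ^ 12 := by rw [hms]; ring
      rw [this]
      have : 1 ≤ s ^ 12 := one_le_pow₀ hs1
      linarith
    calc C * (2 * m ^ 6 + 2) * Real.log (2 * m ^ 6 + 2) ≤ C * (4 * s ^ 12) * (14 * s) := by gcongr
      _ = 56 * C * s ^ 13 := by ring
  have h3 : (m ^ 12 + 1) ^ 2 * (m ^ 6 + 1) ≤ Real.exp (3 + 60 * s) := by
    have e1 : m ^ 12 + 1 ≤ 2 * s ^ 24 := by
      have : m ^ 12 = s ^ 24 := by rw [hms]; ring
      rw [this]
      have : 1 ≤ s ^ 24 := one_le_pow₀ hs1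
      linarith
    have e2 : m ^ 6 + 1 ≤ 2 * s ^ 12 := by
      have : m ^ 6 = s ^ 12 := by rw [hms]; ring
      rw [this]
      have : 1 ≤ s ^ 12 := one_le_pow₀ hs1
      linarith
    have e3 : (8 : ℝ) ≤ Real.exp 3 := by
      have : (8 : ℝ) = 2 ^ 3 := by norm_num
      have h2 : (2 : ℝ) ≤ Real.exp 1 := by
        have := Real.add_one_le_exp (1 : ℝ)
        linarith
      rw [this, show (3 : ℝ) = ((3 : ℕ) : ℝ) * 1 by norm_num, Real.exp_nat_mul]
      gcongr
    have e4 := pa_pow_le_exp s hs1 60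
    calc (m ^ 12 + 1) ^ 2 * (m ^ 6 + 1) ≤ (2 * s ^ 24) ^ 2 * (2 * s ^ 12) := by gcongr
      _ = 8 * s ^ 60 := by ring
      _ ≤ Real.exp 3 * Real.exp ((60 : ℕ) * s) := by gcongr
      _ = Real.exp (3 + 60 * s) := by rw [← Real.exp_add]; norm_num
  have h4 : α / 2 * s ^ 14 ≤ α / 2 ^ (j + 1) * m ^ 8 := by
    have e1 : (2 : ℝ) ^ (j + 1) ≤ 2 * s ^ 2 := by rw [pow_succ, ← hms]; linarith
    have e2 : m ^ 8 = s ^ 2 * s ^ 14 := by rw [hms]; ring
    rw [e2]
    have e3 : α / (2 * s ^ 2) ≤ α / 2 ^ (j + 1) := by gcongr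
    calc α / 2 * s ^ 14 = α / (2 * s ^ 2) * (s ^ 2 * s ^ 14) := by field_simp
      _ ≤ α / 2 ^ (j + 1) * (s ^ 2 * s ^ 14) := by gcongr
  have h5 : (2 * m ^ 5) = 2 * s ^ 10 := by rw [hms]; ring
  have h6 : 3 + 60 * s + 2 * s ^ 10 + 56 * C * s ^ 13 + s ^ 2 ≤ α / 2 * s ^ 14 := by
    have e0 : 2 / α * (70 + 56 * C) ≤ s := (le_max_right _ _).trans hss
    have e1 : 70 + 56 * C ≤ α / 2 * s := by
      have : 70 + 56 * C = α / 2 * (2 / α * (70 + 56 * C)) := by field_simp
      rw [this]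
      gcongr
    have e2 : (70 + 56 * C) * s ^ 13 ≤ α / 2 * s ^ 14 := by
      calc (70 + 56 * C) * s ^ 13 ≤ (α / 2 * s) * s ^ 13 := by gcongr
        _ = α / 2 * s ^ 14 := by ring
    have e3 : (1 : ℝ) ≤ s ^ 13 := one_le_pow₀ hs1
    have e4 : s ≤ s ^ 13 := by
      calc s = s ^ 1 := (pow_one s).symm
        _ ≤ s ^ 13 := pow_le_pow_right₀ hs1 (by norm_num)
    have e5 : s ^ 10 ≤ s ^ 13 := pow_le_pow_right₀ hs1 (by norm_num)
    have e6 : s ^ 2 ≤ s ^ 13 := pow_le_pow_right₀ hs1 (by norm_num)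
    linarith
  calc (m ^ 12 + 1) ^ 2 * (m ^ 6 + 1) * Real.exp (2 * m ^ 5) *
      Real.exp (C * (2 * m ^ 6 + 2) * Real.log (2 * m ^ 6 + 2)) *
      Real.exp (-(α / 2 ^ (j + 1) * m ^ 8))
      ≤ Real.exp (3 + 60 * s) * Real.exp (2 * s ^ 10) * Real.exp (56 * C * s ^ 13) *
        Real.exp (-(α / 2 * s ^ 14)) := by
        rw [h5]
        gcongr
    _ = Real.exp ((3 + 60 * s + 2 * s ^ 10 + 56 * C * s ^ 13) - α / 2 * s ^ 14) := by
        rw [← Real.exp_add, ← Real.exp_add, ← Real.exp_add]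
        ring_nf
    _ ≤ Real.exp (-m) := by
        rw [Real.exp_le_exp, hms]
        linarith

/-- last stage: `m^8 ≤ λ < m^16`, `2^j ≤ m`; the exponent is at most `C' λ^(7/9) - (α / 2) λ^(7/8)`
(`2 m^5 ≤ 2 λ^(5/8)`, `l = 2 M λ / m^4 ≤ 2 M λ^(3/4)`, `α / 2^j ≥ α / m ≥ α λ^(-1/8)`) -/
theorem param_last (C α M ρ : ℝ) (hC : 0 ≤ C) (hα : 0 < α) (hM : 1 ≤ M) (hρ : 0 < ρ) :
    ∃ L0 : ℝ, 1 ≤ L0 ∧ ∀ (lam m : ℝ) (j : ℕ), L0 ≤ lam → 1 ≤ m → m ^ 8 ≤ lam → lam < m ^ 16 →
    (2 : ℝ) ^ j ≤ m →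
    (M * lam / ρ + 1) ^ 2 * (m ^ 6 + 1) * Real.exp (2 * m ^ 5) *
      Real.exp (C * (2 * M * lam / m ^ 4 + 2) * Real.log (2 * M * lam / m ^ 4 + 2)) *
      Real.exp (-(α / 2 ^ j * lam)) ≤ Real.exp (-m) := by
  set K : ℝ := C * (4 * M) * (4 * M + 12) with hK
  have hK0 : 0 ≤ K := by positivity
  set u0 : ℝ := max 1 ((2 * (M / ρ + 1) + 50 + K) / α) with hu0
  have hu01 : 1 ≤ u0 := le_max_left _ _
  refine ⟨u0 ^ 16, one_le_pow₀ hu01, ?_⟩
  intro lam m j hlam hm1 hm8 hm16 hj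
  have hlam0 : 0 ≤ lam := le_trans (by positivity) hlam
  set u : ℝ := lam ^ (1 / 16 : ℝ) with hu
  have hu16 : u ^ 16 = lam := by
    rw [hu, ← Real.rpow_natCast, ← Real.rpow_mul hlam0]
    norm_num
  have hu0' : 0 ≤ u := Real.rpow_nonneg hlam0 _
  have huu : u0 ≤ u := by
    rw [← hu16] at hlam
    exact le_of_pow_le_pow_left₀ (by norm_num) hu0' hlam
  have hu1 : 1 ≤ u := hu01.trans huu
  have hmu : m ≤ u ^ 2 := by
    have h : m ^ 8 ≤ (u ^ 2) ^ 8 := by rw [← pow_mul]; norm_num; rw [hu16]; exact hm8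
    exact le_of_pow_le_pow_left₀ (by norm_num) (by positivity) h
  have hum : u ≤ m := by
    have h : u ^ 16 ≤ m ^ 16 := by rw [hu16]; exact hm16.le
    exact le_of_pow_le_pow_left₀ (by norm_num) (by linarith) h
  have hm0 : 0 < m := by linarith
  -- the factor `l`
  have hl : 2 * M * lam / m ^ 4 + 2 ≤ 4 * M * u ^ 12 := by
    have e1 : 2 * M * lam / m ^ 4 ≤ 2 * M * lam / u ^ 4 := by gcongr
    have e2 : 2 * M * lam / u ^ 4 = 2 * M * u ^ 12 := by
      rw [← hu16]
      field_simp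
    have e3 : 1 ≤ u ^ 12 := one_le_pow₀ hu1
    have e4 : 1 ≤ M * u ^ 12 := by nlinarith
    linarith
  have hl2 : 2 ≤ 2 * M * lam / m ^ 4 + 2 := by
    have : 0 ≤ 2 * M * lam / m ^ 4 := by positivity
    linarith
  have hlog : Real.log (2 * M * lam / m ^ 4 + 2) ≤ (4 * M + 12) * u := by
    have e1 : Real.log (2 * M * lam / m ^ 4 + 2) ≤ Real.log (4 * M * u ^ 12) :=
      Real.log_le_log (by linarith) hl
    have e2 : Real.log (4 * M * u ^ 12) = Real.log (4 * M) + 12 * Real.log u := by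
      rw [Real.log_mul (by positivity) (by positivity), Real.log_pow]
      norm_num
    have e3 := pa_log_le (4 * M) (by linarith)
    have e4 := pa_log_le u hu1
    nlinarith
  have h2 : C * (2 * M * lam / m ^ 4 + 2) * Real.log (2 * M * lam / m ^ 4 + 2) ≤ K * u ^ 13 := by
    have e0 : 0 ≤ Real.log (2 * M * lam / m ^ 4 + 2) := Real.log_nonneg (by linarith)
    calc C * (2 * M * lam / m ^ 4 + 2) * Real.log (2 * M * lam / m ^ 4 + 2)
        ≤ C * (4 * M * u ^ 12) * ((4 * M + 12) * u) := by gcongr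
      _ = K * u ^ 13 := by rw [hK]; ring
  have h3 : (M * lam / ρ + 1) ^ 2 ≤ Real.exp ((2 * (M / ρ + 1) + 32) * u) := by
    have e1 : M * lam / ρ + 1 ≤ (M / ρ + 1) * u ^ 16 := by
      rw [← hu16]
      have : 1 ≤ u ^ 16 := one_le_pow₀ hu1
      have h' : M * u ^ 16 / ρ = M / ρ * u ^ 16 := by ring
      rw [h']
      linarith
    have e2 : M / ρ + 1 ≤ Real.exp ((M / ρ + 1) * u) := by
      have h1 := pa_le_exp (M / ρ + 1)
      have h2 : M / ρ + 1 ≤ (M / ρ + 1) * u := by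
        have : 0 ≤ M / ρ + 1 := by positivity
        nlinarith
      exact h1.trans (Real.exp_le_exp.mpr h2)
    have e3 := pa_pow_le_exp u hu1 16
    calc (M * lam / ρ + 1) ^ 2 ≤ ((M / ρ + 1) * u ^ 16) ^ 2 := by gcongr
      _ ≤ (Real.exp ((M / ρ + 1) * u) * Real.exp ((16 : ℕ) * u)) ^ 2 := by gcongr
      _ = Real.exp ((2 * (M / ρ + 1) + 32) * u) := by
        rw [← Real.exp_add, ← Real.exp_nat_mul]
        congr 1
        push_cast
        ring
  have h4 : m ^ 6 + 1 ≤ Real.exp (13 * u) := by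
    have e1 : m ^ 6 ≤ u ^ 12 := by
      calc m ^ 6 ≤ (u ^ 2) ^ 6 := by gcongr
        _ = u ^ 12 := by ring
    have e2 : 1 ≤ u ^ 12 := one_le_pow₀ hu1
    have e3 := pa_pow_le_exp u hu1 12
    have e4 : (2 : ℝ) ≤ Real.exp u := by
      have := Real.add_one_le_exp u
      linarith
    calc m ^ 6 + 1 ≤ 2 * u ^ 12 := by linarith
      _ ≤ Real.exp u * Real.exp ((12 : ℕ) * u) := by gcongr
      _ = Real.exp (13 * u) := by
        rw [← Real.exp_add]
        congr 1
        push_cast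
        ring
  have h5 : 2 * m ^ 5 ≤ 2 * u ^ 10 := by
    calc 2 * m ^ 5 ≤ 2 * (u ^ 2) ^ 5 := by gcongr
      _ = 2 * u ^ 10 := by ring
  have h6 : α * u ^ 14 ≤ α / 2 ^ j * lam := by
    have e1 : (2 : ℝ) ^ j ≤ u ^ 2 := hj.trans hmu
    have e2 : α / u ^ 2 ≤ α / 2 ^ j := by gcongr
    calc α * u ^ 14 = α / u ^ 2 * u ^ 16 := by field_simp
      _ ≤ α / 2 ^ j * u ^ 16 := by gcongr
      _ = α / 2 ^ j * lam := by rw [hu16]
  have h7 : (2 * (M / ρ + 1) + 32) * u + 13 * u + 2 * u ^ 10 + K * u ^ 13 + m ≤ α * u ^ 14 := by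
    have e0 : (2 * (M / ρ + 1) + 50 + K) / α ≤ u := (le_max_right _ _).trans huu
    have e1 : 2 * (M / ρ + 1) + 50 + K ≤ α * u := by
      rw [div_le_iff₀ hα] at e0
      linarith
    have e2 : (2 * (M / ρ + 1) + 50 + K) * u ^ 13 ≤ α * u ^ 14 := by
      calc (2 * (M / ρ + 1) + 50 + K) * u ^ 13 ≤ (α * u) * u ^ 13 := by gcongr
        _ = α * u ^ 14 := by ring
    have e4 : u ≤ u ^ 13 := by
      calc u = u ^ 1 := (pow_one u).symm
        _ ≤ u ^ 13 := pow_le_pow_right₀ hu1 (by norm_num)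
    have e5 : u ^ 10 ≤ u ^ 13 := pow_le_pow_right₀ hu1 (by norm_num)
    have e6 : u ^ 2 ≤ u ^ 13 := pow_le_pow_right₀ hu1 (by norm_num)
    have e7 : 0 ≤ M / ρ + 1 := by positivity
    have e8 : (M / ρ + 1) * u ≤ (M / ρ + 1) * u ^ 13 := by gcongr
    nlinarith
  calc (M * lam / ρ + 1) ^ 2 * (m ^ 6 + 1) * Real.exp (2 * m ^ 5) *
      Real.exp (C * (2 * M * lam / m ^ 4 + 2) * Real.log (2 * M * lam / m ^ 4 + 2)) *
      Real.exp (-(α / 2 ^ j * lam))
      ≤ Real.exp ((2 * (M / ρ + 1) + 32) * u) * Real.exp (13 * u) * Real.exp (2 * u ^ 10) *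
        Real.exp (K * u ^ 13) * Real.exp (-(α * u ^ 14)) := by gcongr
    _ = Real.exp (((2 * (M / ρ + 1) + 32) * u + 13 * u + 2 * u ^ 10 + K * u ^ 13) - α * u ^ 14) := by
        rw [← Real.exp_add, ← Real.exp_add, ← Real.exp_add, ← Real.exp_add]
        ring_nf
    _ ≤ Real.exp (-m) := by
        rw [Real.exp_le_exp]
        linarith

/-- stage `0` -/
theorem param_first (α ε : ℝ) (hα : 0 < α) (hε : 0 < ε) : ∃ b0 : ℝ, 1 ≤ b0 ∧ ∀ b : ℝ, b0 ≤ b →
    (b ^ 5 * b + 1) ^ 2 * Real.exp (-(α * b ^ 4)) ≤ ε := by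
  refine ⟨max 1 ((14 + |Real.log ε|) / α), le_max_left _ _, ?_⟩
  intro b hb
  have hb1 : 1 ≤ b := (le_max_left _ _).trans hb
  have hb2 : (14 + |Real.log ε|) / α ≤ b := (le_max_right _ _).trans hb
  have hb3 : 14 + |Real.log ε| ≤ α * b := by
    rw [div_le_iff₀ hα] at hb2
    linarith
  have h1 : (b ^ 5 * b + 1) ^ 2 ≤ Real.exp (14 * b) := by
    have e1 : b ^ 5 * b + 1 ≤ 2 * b ^ 6 := by
      have : 1 ≤ b ^ 6 := one_le_pow₀ hb1
      nlinarith
    have e2 : (2 : ℝ) ≤ Real.exp b := by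
      have := Real.add_one_le_exp b
      linarith
    have e3 := pa_pow_le_exp b hb1 6
    calc (b ^ 5 * b + 1) ^ 2 ≤ (2 * b ^ 6) ^ 2 := by gcongr
      _ ≤ (Real.exp b * Real.exp ((6 : ℕ) * b)) ^ 2 := by gcongr
      _ = Real.exp (14 * b) := by
        rw [← Real.exp_add, ← Real.exp_nat_mul]
        congr 1
        push_cast
        ring
  have h2 : 14 * b + |Real.log ε| ≤ α * b ^ 4 := by
    have e1 : b ≤ b ^ 3 := by
      calc b = b ^ 1 := (pow_one b).symm
        _ ≤ b ^ 3 := pow_le_pow_right₀ hb1 (by norm_num)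
    have e2 : (14 + |Real.log ε|) * b ≤ α * b ^ 4 := by
      calc (14 + |Real.log ε|) * b ≤ (α * b) * b := by gcongr
        _ ≤ (α * b ^ 3) * b := by gcongr
        _ = α * b ^ 4 := by ring
    have e3 : |Real.log ε| ≤ |Real.log ε| * b := by
      have := abs_nonneg (Real.log ε)
      nlinarith
    nlinarith
  calc (b ^ 5 * b + 1) ^ 2 * Real.exp (-(α * b ^ 4))
      ≤ Real.exp (14 * b) * Real.exp (-(α * b ^ 4)) := by gcongr
    _ = Real.exp (14 * b - α * b ^ 4) := by rw [← Real.exp_add]; ring_nf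
    _ ≤ Real.exp (Real.log ε) := by
        rw [Real.exp_le_exp]
        have := neg_abs_le (Real.log ε)
        linarith
    _ = ε := Real.exp_log hε

/-- `2 ^ j ≤ b ^ (2 ^ j)`, and the sums over `j` (`b ^ (2 ^ j) ≥ b * (j + 1)`) -/
theorem param_sums (ε : ℝ) (hε : 0 < ε) : ∃ b0 : ℝ, 2 ≤ b0 ∧ ∀ b : ℝ, b0 ≤ b →
    (∀ j : ℕ, (2 : ℝ) ^ j ≤ b ^ (2 ^ j)) ∧
    (∀ J : ℕ, ∑ j ∈ Finset.range J, 1 / b ^ (2 ^ j) ≤ ε) ∧
    (∀ J : ℕ, ∑ j ∈ Finset.range J, Real.exp (-(b ^ (2 ^ j))) ≤ ε) ∧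
    (∀ J : ℕ, ∑ j ∈ Finset.range J, 4 / Real.log (b ^ (2 ^ j)) ≤ ε) := by
  refine ⟨max 2 (max (1 + 1 / ε) (Real.exp (8 / ε))), le_max_left _ _, ?_⟩
  intro b hb
  have hb2 : 2 ≤ b := (le_max_left _ _).trans hb
  have hb3 : 1 + 1 / ε ≤ b := (le_max_left _ _).trans ((le_max_right _ _).trans hb)
  have hb4 : Real.exp (8 / ε) ≤ b := (le_max_right _ _).trans ((le_max_right _ _).trans hb)
  have hb0 : 0 < b := by linarith
  have hb1 : 1 ≤ b := by linarith
  have key : ∀ J : ℕ, ∑ j ∈ Finset.range J, 1 / b ^ (2 ^ j) ≤ ε := by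
    intro J
    have e1 : ∀ j ∈ Finset.range J, 1 / b ^ (2 ^ j) ≤ (1 / b) * (1 / b) ^ j := by
      intro j _
      have h : j + 1 ≤ 2 ^ j := Nat.lt_two_pow_self
      have h' : b ^ (j + 1) ≤ b ^ (2 ^ j) := pow_le_pow_right₀ hb1 h
      calc 1 / b ^ (2 ^ j) ≤ 1 / b ^ (j + 1) := by gcongr
        _ = (1 / b) * (1 / b) ^ j := by rw [pow_succ, one_div_pow]; field_simp
    refine (Finset.sum_le_sum e1).trans ?_
    rw [← Finset.mul_sum]
    have e2 : ∑ j ∈ Finset.range J, (1 / b) ^ j ≤ (1 - 1 / b)⁻¹ := by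
      have h1 : 0 ≤ 1 / b := by positivity
      have h2 : 1 / b < 1 := by
        rw [div_lt_one hb0]
        linarith
      exact (summable_geometric_of_lt_one h1 h2).sum_le_tsum (Finset.range J)
        (fun i _ => by positivity) |>.trans (le_of_eq (tsum_geometric_of_lt_one h1 h2))
    calc 1 / b * ∑ j ∈ Finset.range J, (1 / b) ^ j ≤ 1 / b * (1 - 1 / b)⁻¹ := by gcongr
      _ = 1 / (b - 1) := by
        have : b - 1 ≠ 0 := by linarith
        field_simp
      _ ≤ ε := by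
        rw [div_le_iff₀ (by linarith)]
        have : 1 / ε ≤ b - 1 := by linarith
        rw [div_le_iff₀ hε] at this
        linarith
  refine ⟨?_, key, ?_, ?_⟩
  · intro j
    calc (2 : ℝ) ^ j ≤ 2 ^ (2 ^ j) := pow_le_pow_right₀ (by norm_num) Nat.lt_two_pow_self.le
      _ ≤ b ^ (2 ^ j) := by gcongr
  · intro J
    refine (Finset.sum_le_sum fun j _ => ?_).trans (key J)
    rw [Real.exp_neg, one_div]
    have h : 0 < b ^ (2 ^ j) := by positivity
    have h' := pa_le_exp (b ^ (2 ^ j))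
    gcongr
  · intro J
    have hlogb : 8 / ε ≤ Real.log b := by
      rw [Real.le_log_iff_exp_le hb0]
      exact hb4
    have hlog0 : 0 < Real.log b := lt_of_lt_of_le (by positivity) hlogb
    have e1 : ∀ j ∈ Finset.range J, 4 / Real.log (b ^ (2 ^ j)) = (4 / Real.log b) * (1 / 2) ^ j := by
      intro j _
      rw [Real.log_pow]
      push_cast
      rw [one_div_pow]
      field_simp
    rw [Finset.sum_congr rfl e1, ← Finset.mul_sum]
    have e2 : ∑ j ∈ Finset.range J, ((1 : ℝ) / 2) ^ j ≤ 2 :=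
      sum_geometric_two_le J
    calc 4 / Real.log b * ∑ j ∈ Finset.range J, ((1 : ℝ) / 2) ^ j ≤ 4 / Real.log b * 2 := by gcongr
      _ = 8 / Real.log b := by ring
      _ ≤ ε := by
        rw [div_le_iff₀ hlog0]
        rw [div_le_iff₀ hε] at hlogb
        linarith

end Pool.Agent.GaussMR

end

/-! ### from `Lib_MP_f1a94e_lp.Fx` -/

section

/-!
# Piece FX: simple facts on the family
-/

set_option autoImplicit false

namespace Pool.Agent.LPr

open Finset Pool.Agent.GaussMR Pool.Agent.OmAll Pool.Agent.OmEq Filter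

/-- `gx` is multiplicative on nonzero numbers (`Nat.perm_primeFactorsList_mul`, `List.Perm.prod_eq`, `List.map_append`, `List.prod_append`) -/
theorem gx_mul (φ : ℝ → ℂ) (X : ℝ) {m n : ℕ} (hm : m ≠ 0) (hn : n ≠ 0) : gx φ X (m * n) = gx φ X m * gx φ X n := by
  unfold gx
  rw [((Nat.perm_primeFactorsList_mul hm hn).map _).prod_eq, List.map_append, List.prod_append]

/-- `gx φ X p = φ (log p / log X)` -/
theorem gx_prime (φ : ℝ → ℂ) (X : ℝ) {p : ℕ} (hp : p.Prime) : gx φ X p = φ (Real.log p / Real.log X) := by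
  unfold gx
  rw [Nat.primeFactorsList_prime hp, List.map_singleton, List.prod_singleton]

/-- a product of numbers of modulus one -/
theorem gx_norm (φ : ℝ → ℂ) (hφ : ∀ t, ‖φ t‖ = 1) (X : ℝ) (n : ℕ) : ‖gx φ X n‖ = 1 := by
  unfold gx
  generalize n.primeFactorsList = l
  induction l with
  | nil => simp
  | cons a l ih => rw [List.map_cons, List.prod_cons, norm_mul, hφ, ih, one_mul]

/-- `gx 1 = 1` -/
theorem gx_const (X : ℝ) (n : ℕ) : gx (fun _ => 1) X n = 1 := by
  unfold gx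
  generalize n.primeFactorsList = l
  induction l with
  | nil => simp
  | cons a l ih => rw [List.map_cons, List.prod_cons, ih, one_mul]

/-- for a step function `φ (log n / log X) = 1` for all `1 ≤ n ≤ T` if `X` is large (`log n / log X ≤ log T / log X < min u_i`, or `r = 0`) -/
theorem stepf_small (φ : ℝ → ℂ) (hφ : StepF φ) (T : ℕ) :
    ∀ᶠ X : ℝ in atTop, ∀ n : ℕ, n ≤ T → φ (Real.log n / Real.log X) = 1 := by
  obtain ⟨r, c, u, v, huv, hex⟩ := hφ.ex
  have hlim : Tendsto (fun X : ℝ => Real.log T / Real.log X) atTop (nhds 0) :=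
    tendsto_const_nhds.div_atTop Real.tendsto_log_atTop
  have h1 : ∀ i : Fin r, ∀ᶠ X : ℝ in atTop, Real.log T / Real.log X < u i := fun i =>
    hlim.eventually_lt_const (huv i).1
  have h2 : ∀ᶠ X : ℝ in atTop, ∀ i : Fin r, Real.log T / Real.log X < u i := eventually_all.2 h1
  filter_upwards [h2, eventually_gt_atTop (1 : ℝ)] with X hX hX1 n hn
  have hlX : 0 < Real.log X := Real.log_pos hX1
  rw [hex]
  have hz : ∑ i, (if u i < Real.log n / Real.log X ∧ Real.log n / Real.log X ≤ v i then c i else 0) = 0 := by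
    refine sum_eq_zero (fun i _ => ?_)
    refine if_neg (fun h => ?_)
    have h3 : Real.log n ≤ Real.log T := by
      rcases Nat.eq_zero_or_pos n with h0 | h0
      · subst h0
        rw [Nat.cast_zero, Real.log_zero]
        exact Real.log_natCast_nonneg T
      · exact Real.log_le_log (by exact_mod_cast h0) (by exact_mod_cast hn)
    have h4 : Real.log n / Real.log X ≤ Real.log T / Real.log X := div_le_div_of_nonneg_right h3 hlX.le
    have h5 := hX i
    linarith [h.1]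
  rw [hz, add_zero]

/-- hence `gx φ X n = 1` for `n ≤ T` and large `X` -/
theorem gx_small (φ : ℝ → ℂ) (hφ : StepF φ) (T : ℕ) : ∀ᶠ X : ℝ in atTop, ∀ n : ℕ, n ≤ T → gx φ X n = 1 := by
  filter_upwards [stepf_small φ hφ T] with X hX n hn
  unfold gx
  apply List.prod_eq_one
  intro z hz
  obtain ⟨p, hp, rfl⟩ := List.mem_map.1 hz
  exact hX p ((Nat.le_of_mem_primeFactorsList hp).trans hn)

/-- `fx R w 1 X = fz R w` -/
theorem fx_const (R : ℕ) (w : ℂ) (X : ℝ) (n : ℕ) : fx R w (fun _ => 1) X n = fz R w n := by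
  unfold fx fz
  rw [gx_const, mul_one]

/-- `fx = fz * gx` -/
theorem fx_eq (R : ℕ) (w : ℂ) (φ : ℝ → ℂ) (X : ℝ) (n : ℕ) : fx R w φ X n = fz R w n * gx φ X n := by
  unfold fx fz
  split_ifs
  · rw [zero_mul]
  · rfl

private theorem auxfx_fz_mul (R : ℕ) (w : ℂ) (m n : ℕ) : fz R w (m * n) = fz R w m * fz R w n := by
  unfold fz
  by_cases hm : m = 0
  · subst hm
    simp
  by_cases hn : n = 0
  · subst hn
    simp
  by_cases h1 : m.Coprime R
  · by_cases h2 : n.Coprime R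
    · have h3 : (m * n).Coprime R := Nat.Coprime.mul_left h1 h2
      rw [if_neg (by rintro (h | h); exacts [mul_ne_zero hm hn h, h h3]),
        if_neg (by rintro (h | h); exacts [hm h, h h1]), if_neg (by rintro (h | h); exacts [hn h, h h2]),
        ArithmeticFunction.cardFactors_mul hm hn, pow_add]
    · have h3 : ¬ (m * n).Coprime R := fun h => h2 (Nat.Coprime.coprime_mul_left h)
      rw [if_pos (Or.inr h3), if_pos (Or.inr h2), mul_zero]
  · have h3 : ¬ (m * n).Coprime R := fun h => h1 (Nat.Coprime.coprime_mul_right h)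
    rw [if_pos (Or.inr h3), if_pos (Or.inr h1), zero_mul]

private theorem auxfx_fz_zero (R : ℕ) (w : ℂ) : fz R w 0 = 0 := by
  unfold fz
  rw [if_pos (Or.inl rfl)]

/-- completely multiplicative (as `fz_FF`) -/
theorem fx_mul (R : ℕ) (w : ℂ) (φ : ℝ → ℂ) (X : ℝ) (m n : ℕ) :
    fx R w φ X (m * n) = fx R w φ X m * fx R w φ X n := by
  simp only [fx_eq, auxfx_fz_mul]
  by_cases hm : m = 0
  · subst hm
    simp [auxfx_fz_zero]
  by_cases hn : n = 0
  · subst hn
    simp [auxfx_fz_zero]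
  rw [gx_mul φ X hm hn]
  ring

private theorem auxfx_fx_bd (R : ℕ) (w : ℂ) (hw : ‖w‖ = 1) (φ : ℝ → ℂ) (hφ : ∀ t, ‖φ t‖ = 1) (X : ℝ) (n : ℕ) :
    ‖fx R w φ X n‖ ≤ 1 := by
  unfold fx
  split_ifs
  · rw [norm_zero]
    exact zero_le_one
  · rw [norm_mul, norm_pow, hw, one_pow, gx_norm φ hφ, one_mul]

private theorem auxfx_fz_prime (R : ℕ) (w : ℂ) {p : ℕ} (hp : p.Prime) (h : ¬ p ∣ R) : fz R w p = w := by
  unfold fz
  have h1 : p.Coprime R := (Nat.Prime.coprime_iff_not_dvd hp).2 h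
  rw [if_neg (by rintro (h' | h'); exacts [hp.ne_zero h', h' h1]), ArithmeticFunction.cardFactors_apply_prime hp,
    pow_one]

theorem fx_FX (R : ℕ) (hR : 0 < R) (w : ℂ) (hw : ‖w‖ = 1) (φ : ℝ → ℂ) (hφ : StepF φ) :
    FX (fx R w φ) R.primeFactors w := by
  refine ⟨fx_mul R w φ, auxfx_fx_bd R w hw φ hφ.un, fun T => ?_⟩
  filter_upwards [gx_small φ hφ T] with X hX p hpT hp _ hpR
  rw [fx_eq, hX p hpT, mul_one]
  exact auxfx_fz_prime R w hp (fun h => hpR (Nat.mem_primeFactors.2 ⟨hp, h, hR.ne'⟩))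

theorem fz_FX (R : ℕ) (hR : 0 < R) (w : ℂ) (hw : ‖w‖ = 1) : FX (fun _ => fz R w) R.primeFactors w := by
  have h := fz_FF R hR w hw
  exact ⟨fun _ => h.mul, fun _ => h.bd, fun T => Eventually.of_forall (fun _ p _ hp h4 hpR => h.pr p hp h4 hpR)⟩

/-- primes larger than `R` do not divide `R`; `fx R w φ X 1 = 1` -/
theorem fx_UF (R : ℕ) (hR : 0 < R) (w : ℂ) (hw : ‖w‖ = 1) (φ : ℝ → ℂ) (hφ : ∀ t, ‖φ t‖ = 1) (X : ℝ) :
    UF R (fx R w φ X) := by
  refine ⟨fx_mul R w φ X, ?_, auxfx_fx_bd R w hw φ hφ X, fun p hp hRp => ?_⟩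
  · unfold fx gx
    simp
  · rw [fx_eq, norm_mul, gx_norm φ hφ, mul_one, auxfx_fz_prime R w hp (fun h => absurd (Nat.le_of_dvd hR h) (not_le.2 hRp)), hw]

theorem fz_UF (R : ℕ) (hR : 0 < R) (w : ℂ) (hw : ‖w‖ = 1) : UF R (fz R w) := by
  have h := fx_UF R hR w hw (fun _ => 1) (fun _ => norm_one) 2
  have h2 : fx R w (fun _ => 1) 2 = fz R w := funext (fun n => fx_const R w 2 n)
  rwa [h2] at h

/-- the value at `2 n` (multiplicativity; `fx R w φ X 2 = w` if `R` is odd and `X` is large, `0` if `R` is even) -/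
theorem fx_two (R : ℕ) (hR : 0 < R) (w : ℂ) (φ : ℝ → ℂ) (hφ : StepF φ) :
    ∀ᶠ X : ℝ in atTop, ∀ n : ℕ, fx R w φ X (2 * n) = (if 2 ∣ R then 0 else w) * fx R w φ X n := by
  filter_upwards [gx_small φ hφ 2] with X hX n
  rw [fx_mul]
  congr 1
  rw [fx_eq, hX 2 le_rfl, mul_one]
  split_ifs with h
  · unfold fz
    exact if_pos (Or.inr (fun h' => (Nat.Prime.coprime_iff_not_dvd Nat.prime_two).1 h' h))
  · exact auxfx_fz_prime R w Nat.prime_two h

theorem fz_two (R : ℕ) (hR : 0 < R) (w : ℂ) (n : ℕ) : fz R w (2 * n) = (if 2 ∣ R then 0 else w) * fz R w n := by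
  rw [auxfx_fz_mul]
  congr 1
  split_ifs with h
  · unfold fz
    exact if_pos (Or.inr (fun h' => (Nat.Prime.coprime_iff_not_dvd Nat.prime_two).1 h' h))
  · exact auxfx_fz_prime R w Nat.prime_two h

/-- the constant one is a step function (`r = 0`) -/
theorem stepf_one : StepF (fun _ => 1) := by
  refine ⟨fun _ => norm_one, 0, fun _ => 0, fun _ => 1, fun _ => 1, fun i => i.elim0, fun t => ?_⟩
  simp

end Pool.Agent.LPr

end

/-! ### from `Lib_MP_f1a94e_lp.WinF` -/

section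

/-!
# Piece WINF: Fourier inversion for the numbers of prime factors in windows
-/

set_option autoImplicit false

namespace Pool.Agent.LPr

open Finset Pool.Agent.GaussMR Pool.Agent.OmAll Pool.Agent.OmEq Filter

/-- the step function with values `ζ^(j i)` on the windows `(u i, u (i + 1)]`, `i < r` -/
noncomputable def phj (K : ℕ) (u : ℕ → ℝ) (r : ℕ) (j : Fin r → ℕ) (t : ℝ) : ℂ :=
  1 + ∑ i : Fin r, if u i < t ∧ t ≤ u (i + 1) then zq K ^ (j i) - 1 else 0

private theorem phj_prod (K : ℕ) (u : ℕ → ℝ) (hu : Monotone u) (r : ℕ) (j : Fin r → ℕ) (t : ℝ) :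
    phj K u r j t = ∏ i : Fin r, if u i < t ∧ t ≤ u (i + 1) then zq K ^ (j i) else 1 := by
  unfold phj
  by_cases h : ∃ i : Fin r, u i < t ∧ t ≤ u (i + 1)
  · obtain ⟨i₀, h0⟩ := h
    have hne : ∀ i : Fin r, i ≠ i₀ → ¬ (u i < t ∧ t ≤ u (i + 1)) := by
      rintro i hi ⟨h1, h2⟩
      rcases lt_or_gt_of_ne (fun h => hi (Fin.ext h) : (i : ℕ) ≠ i₀) with hlt | hgt
      · have : u (i + 1) ≤ u i₀ := hu (by omega)
        linarith [h0.1]
      · have : u (i₀ + 1) ≤ u i := hu (by omega)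
        linarith [h0.2]
    rw [Finset.sum_eq_single i₀ (fun i _ hi => if_neg (hne i hi)) (fun h => absurd (mem_univ _) h),
      Finset.prod_eq_single i₀ (fun i _ hi => if_neg (hne i hi)) (fun h => absurd (mem_univ _) h),
      if_pos h0, if_pos h0]
    ring
  · push Not at h
    have hne : ∀ i : Fin r, ¬ (u i < t ∧ t ≤ u (i + 1)) := by
      rintro i ⟨h1, h2⟩
      exact absurd (h i h1) (not_lt.2 h2)
    rw [Finset.sum_eq_zero (fun i _ => if_neg (hne i)), Finset.prod_eq_one (fun i _ => if_neg (hne i)),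
      add_zero]

/-- the windows are disjoint (`u` monotone), so `phj` takes the values `ζ^(j i)` (norm one, `fine_norm`) or `1` -/
theorem phj_step (K : ℕ) (hK : 0 < K) (u : ℕ → ℝ) (hu0 : 0 < u 0) (hu : Monotone u) (r : ℕ) (j : Fin r → ℕ) :
    StepF (phj K u r j) := by
  refine ⟨fun t => ?_, r, fun i => zq K ^ (j i) - 1, fun i => u i, fun i => u (i + 1), fun i => ?_,
    fun t => rfl⟩
  · rw [phj_prod K u hu r j t, norm_prod]
    apply Finset.prod_eq_one
    intro i _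
    split_ifs
    · exact fine_norm K hK (j i)
    · exact norm_one
  · exact ⟨hu0.trans_le (hu (Nat.zero_le _)), hu (Nat.le_succ _)⟩

private theorem list_prod_windows {r : ℕ} (P : Fin r → ℕ → Bool) (y : Fin r → ℂ) (L : List ℕ) :
    (L.map (fun p => ∏ i : Fin r, if P i p = true then y i else 1)).prod =
      ∏ i : Fin r, y i ^ (L.filter (P i)).length := by
  induction L with
  | nil => simp
  | cons p L ih =>
    rw [List.map_cons, List.prod_cons, ih, ← Finset.prod_mul_distrib]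
    apply Finset.prod_congr rfl
    intro i _
    rw [List.filter_cons]
    by_cases h : P i p = true
    · rw [if_pos h, if_pos h, List.length_cons, pow_succ]
      ring
    · rw [if_neg h, if_neg h, one_mul]

/-- PROOF. For a prime `p` and `X > 1`, `u i < log p / log X ≤ u (i + 1)` iff `X^(u i) < p ≤ X^(u (i + 1))`. So `gx (phj ..) X n = ∏_(p ∈ primeFactorsList n) ∏_i (if p in window i then ζ^(j i) else 1)` (at most one window contains `p`), exchange the products
(`List.prod_map_mul` / induction on the list): `∏_(p ∈ L) (if p in window i then y else 1) = y ^ (L.filter ..).length`. -/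
theorem gx_phj (K : ℕ) (hK : 0 < K) (u : ℕ → ℝ) (hu : Monotone u) (r : ℕ) (j : Fin r → ℕ) (X : ℝ) (hX : 1 < X) (n : ℕ) :
    gx (phj K u r j) X n = ∏ i : Fin r, (zq K ^ (j i)) ^ wc X (u i) (u (i + 1)) n := by
  classical
  have hX0 : 0 < X := by linarith
  have hlX : 0 < Real.log X := Real.log_pos hX
  unfold gx
  have h1 : n.primeFactorsList.map (fun p : ℕ => phj K u r j (Real.log p / Real.log X)) =
      n.primeFactorsList.map (fun p : ℕ => ∏ i : Fin r,
        if (decide (X ^ (u i) < (p : ℝ) ∧ (p : ℝ) ≤ X ^ (u (i + 1)))) = true then zq K ^ (j i) else 1) := by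
    apply List.map_congr_left
    intro p hp
    have hp0 : (0 : ℝ) < p := by exact_mod_cast (Nat.prime_of_mem_primeFactorsList hp).pos
    rw [phj_prod K u hu r j]
    apply Finset.prod_congr rfl
    intro i _
    have ha : u i < Real.log p / Real.log X ↔ X ^ (u i) < (p : ℝ) := by
      rw [lt_div_iff₀ hlX, ← Real.log_rpow hX0, Real.log_lt_log_iff (Real.rpow_pos_of_pos hX0 _) hp0]
    have hb : Real.log p / Real.log X ≤ u (i + 1) ↔ (p : ℝ) ≤ X ^ (u (i + 1)) := by
      rw [div_le_iff₀ hlX, ← Real.log_rpow hX0, Real.log_le_log_iff hp0 (Real.rpow_pos_of_pos hX0 _)]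
    simp only [ha, hb, decide_eq_true_eq]
  rw [h1, list_prod_windows (fun (i : Fin r) (p : ℕ) =>
    decide (X ^ (u i) < (p : ℝ) ∧ (p : ℝ) ≤ X ^ (u (i + 1))))]
  apply Finset.prod_congr rfl
  intro i _
  unfold wc
  congr 3

/-- PROOF. `∑_(j ∈ piFinset) ∏_i F i (j i) = ∏_i ∑_(j < K) F i j` (`Finset.prod_univ_sum`), `fine_orth`, and `N i ≡ k i mod K` iff `N i = k i` for numbers below `K`. -/
theorem win_inv (K : ℕ) (hK : 0 < K) (r : ℕ) (k N : Fin r → ℕ) (hk : ∀ i, k i < K) (hN : ∀ i, N i < K)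
    [Decidable (∀ i, N i = k i)] :
    ∑ j ∈ Fintype.piFinset (fun _ : Fin r => range K),
      (∏ i, (zq K ^ (j i * k i))⁻¹) * ∏ i, (zq K ^ (j i)) ^ (N i) = if ∀ i, N i = k i then (K : ℂ) ^ r else 0 := by
  have h1 : ∀ j : Fin r → ℕ, (∏ i, (zq K ^ (j i * k i))⁻¹) * ∏ i, (zq K ^ (j i)) ^ (N i) =
      ∏ i, (zq K ^ (j i * k i))⁻¹ * (zq K ^ (j i)) ^ (N i) := fun j => Finset.prod_mul_distrib.symm
  simp only [h1]
  rw [← Finset.prod_univ_sum (fun _ : Fin r => range K)
    (fun i a => (zq K ^ (a * k i))⁻¹ * (zq K ^ a) ^ (N i))]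
  simp only [fine_orth hK]
  have h2 : ∀ i, (if N i ≡ k i [MOD K] then (K : ℂ) else 0) = if N i = k i then (K : ℂ) else 0 := by
    intro i
    by_cases h : N i = k i
    · rw [if_pos h, if_pos (by rw [h])]
    · rw [if_neg h, if_neg (fun h' => h (Nat.ModEq.eq_of_lt_of_lt h' (hN i) (hk i)))]
  simp only [h2]
  by_cases h : ∀ i, N i = k i
  · rw [if_pos h]
    simp [h]
  · rw [if_neg h]
    push Not at h
    obtain ⟨i, hi⟩ := h
    exact Finset.prod_eq_zero (mem_univ i) (if_neg hi)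

private theorem list_prod_lower (c : ℝ) (hc : 0 ≤ c) (L : List ℕ) (h : ∀ p ∈ L, c < (p : ℝ)) :
    c ^ L.length ≤ ((L.prod : ℕ) : ℝ) := by
  induction L with
  | nil => simp
  | cons p L ih =>
    rw [List.length_cons, List.prod_cons, pow_succ', Nat.cast_mul]
    exact mul_le_mul (h p (by simp)).le (ih fun q hq => h q (by simp [hq])) (pow_nonneg hc _)
      (Nat.cast_nonneg _)

/-- `X ^ (u wc) ≤ n ≤ X ^ 3` (the product of the prime factors in the window divides `n`; `u ≤` the left end of the window), so `wc * u ≤ 3 < K u`. -/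
theorem wc_lt (K : ℕ) (u0 : ℝ) (hu0 : 0 < u0) (hK : 3 < K * u0) (X : ℝ) (hX : 2 ≤ X) (n : ℕ) (hn : n ≠ 0)
    (hnX : (n : ℝ) ≤ X ^ 3) (u v : ℝ) (hu : u0 ≤ u) : wc X u v n < K := by
  classical
  by_contra hcon
  rw [not_lt] at hcon
  have hX0 : 0 < X := by linarith
  have hX1 : 1 < X := by linarith
  unfold wc at hcon
  set L := n.primeFactorsList.filter (fun p : ℕ => X ^ u < (p : ℝ) ∧ (p : ℝ) ≤ X ^ v) with hL
  have h1 : ∀ p ∈ L, X ^ u < (p : ℝ) := by
    intro p hp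
    rw [hL, List.mem_filter] at hp
    have := hp.2
    simp only [decide_eq_true_eq] at this
    exact this.1
  have h2 := list_prod_lower (X ^ u) (Real.rpow_nonneg hX0.le _) L h1
  have h3 : L.prod ∣ n := by
    have : L.prod ∣ n.primeFactorsList.prod := List.Sublist.prod_dvd_prod List.filter_sublist
    rwa [Nat.prod_primeFactorsList hn] at this
  have h4 : ((L.prod : ℕ) : ℝ) ≤ n := by exact_mod_cast Nat.le_of_dvd (Nat.pos_of_ne_zero hn) h3
  have h5 : X ^ (3 : ℝ) < (X ^ u) ^ L.length := by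
    rw [← Real.rpow_natCast, ← Real.rpow_mul hX0.le]
    apply Real.rpow_lt_rpow_of_exponent_lt hX1
    have h6 : (K : ℝ) ≤ L.length := by exact_mod_cast hcon
    calc (3 : ℝ) < K * u0 := hK
      _ ≤ L.length * u := mul_le_mul h6 hu hu0.le (Nat.cast_nonneg _)
      _ = u * L.length := mul_comm _ _
  have h7 : X ^ (3 : ℝ) = X ^ (3 : ℕ) := by
    rw [← Real.rpow_natCast]
    norm_num
  rw [h7] at h5
  linarith

/-- the coefficient sum -/
noncomputable def cK (K : ℕ) (u : ℕ → ℝ) (r : ℕ) (k : ℕ → ℕ) : ℂ :=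
  (1 / (K : ℂ) ^ r) * ∑ j ∈ Fintype.piFinset (fun _ : Fin r => range K),
    (∏ i : Fin r, (zq K ^ (j i * k i))⁻¹) * mu (phj K u r j)

private theorem win_count (K : ℕ) (u : ℕ → ℝ) (hu0 : 0 < u 0) (hu : Monotone u) (hK : 3 < K * u 0) (r : ℕ)
    (k : ℕ → ℕ) (hk : ∀ i < r, k i < K) (x : ℝ) (hx : 2 ≤ x) :
    ((Set.ncard {n : ℕ | 1 ≤ n ∧ (n : ℝ) ≤ x ∧ ∀ i < r, wc x (u i) (u (i + 1)) n = k i} : ℝ) : ℂ) =
      (1 / (K : ℂ) ^ r) * ∑ j ∈ Fintype.piFinset (fun _ : Fin r => range K),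
        (∏ i : Fin r, (zq K ^ (j i * k i))⁻¹) * ∑ n ∈ Icc 1 ⌊x⌋₊, gx (phj K u r j) x n := by
  classical
  have hx0 : 0 ≤ x := by linarith
  have hK0 : 0 < K := by
    rcases Nat.eq_zero_or_pos K with h | h
    · subst h
      simp at hK
      linarith
    · exact h
  have hKc : (K : ℂ) ^ r ≠ 0 := pow_ne_zero _ (by exact_mod_cast hK0.ne')
  have hset : {n : ℕ | 1 ≤ n ∧ (n : ℝ) ≤ x ∧ ∀ i < r, wc x (u i) (u (i + 1)) n = k i} =
      (((Icc 1 ⌊x⌋₊).filter (fun n => ∀ i : Fin r, wc x (u i) (u (i + 1)) n = k i) : Finset ℕ) : Set ℕ) := by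
    ext n
    simp only [Set.mem_ofPred_eq, coe_filter, mem_Icc, Nat.le_floor_iff hx0, and_assoc]
    constructor
    · rintro ⟨h1, h2, h3⟩
      exact ⟨h1, h2, fun i => h3 i i.2⟩
    · rintro ⟨h1, h2, h3⟩
      exact ⟨h1, h2, fun i hi => h3 ⟨i, hi⟩⟩
  rw [hset, Set.ncard_coe_finset, Finset.card_filter]
  have hcast : (((∑ n ∈ Icc 1 ⌊x⌋₊, if ∀ i : Fin r, wc x (u i) (u (i + 1)) n = k i then 1 else 0 : ℕ) : ℝ) : ℂ) =
      ∑ n ∈ Icc 1 ⌊x⌋₊, (if ∀ i : Fin r, wc x (u i) (u (i + 1)) n = k i then (1 : ℂ) else 0) := by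
    rw [Nat.cast_sum, Complex.ofReal_sum]
    apply Finset.sum_congr rfl
    intro n _
    split_ifs <;> simp
  rw [hcast]
  have hterm : ∀ n ∈ Icc 1 ⌊x⌋₊, (if ∀ i : Fin r, wc x (u i) (u (i + 1)) n = k i then (1 : ℂ) else 0) =
      (1 / (K : ℂ) ^ r) * ∑ j ∈ Fintype.piFinset (fun _ : Fin r => range K),
        (∏ i : Fin r, (zq K ^ (j i * k i))⁻¹) * gx (phj K u r j) x n := by
    intro n hn
    rw [mem_Icc, Nat.le_floor_iff hx0] at hn
    have hn3 : (n : ℝ) ≤ x ^ 3 := by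
      have : x ≤ x ^ 3 := by nlinarith [mul_nonneg hx0 hx0]
      linarith [hn.2]
    have h := win_inv K hK0 r (fun i => k i) (fun i => wc x (u i) (u (i + 1)) n) (fun i => hk i i.2)
      (fun i => wc_lt K (u 0) hu0 hK x hx n (by omega) hn3 _ _ (hu (Nat.zero_le _)))
    have hg : ∀ j : Fin r → ℕ, gx (phj K u r j) x n = ∏ i : Fin r, (zq K ^ (j i)) ^ wc x (u i) (u (i + 1)) n :=
      fun j => gx_phj K hK0 u hu r j x (by linarith) n
    simp only [hg]
    rw [h]
    split_ifs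
    · rw [one_div, inv_mul_cancel₀ hKc]
    · rw [mul_zero]
  rw [Finset.sum_congr rfl hterm, ← Finset.mul_sum, Finset.sum_comm]
  simp only [Finset.mul_sum]

/-- PROOF. For `x` large, by `win_inv`, `gx_phj`, `wc_lt` (`n ≤ x ≤ x³`), the count is `∑_(n ≤ x) (1 / K^r) ∑_j (∏ ..) gx (phj K u r j) x n`; divide by `x`, `mu_tendsto` for each `j` (`phj_step`); the limit of real numbers is real (take real parts; `cK` is a limit of real numbers, so `cK.re = cK`). -/
theorem int_law (K : ℕ) (u : ℕ → ℝ) (hu0 : 0 < u 0) (hu : Monotone u) (hK : 3 < K * u 0) (r : ℕ) (k : ℕ → ℕ)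
    (hk : ∀ i < r, k i < K) :
    ∃ c : ℝ, (c : ℂ) = cK K u r k ∧ Tendsto (fun x : ℝ => (Set.ncard {n : ℕ | 1 ≤ n ∧ (n : ℝ) ≤ x ∧
      ∀ i < r, wc x (u i) (u (i + 1)) n = k i} : ℝ) / x) atTop (nhds c) := by
  have hK0 : 0 < K := by
    rcases Nat.eq_zero_or_pos K with h | h
    · subst h
      simp at hK
      linarith
    · exact h
  set f : ℝ → ℝ := fun x : ℝ => (Set.ncard {n : ℕ | 1 ≤ n ∧ (n : ℝ) ≤ x ∧
      ∀ i < r, wc x (u i) (u (i + 1)) n = k i} : ℝ) / x with hf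
  have hlim : Tendsto (fun x : ℝ => ((f x : ℝ) : ℂ)) atTop (nhds (cK K u r k)) := by
    have h1 : Tendsto (fun x : ℝ => (1 / (K : ℂ) ^ r) * ∑ j ∈ Fintype.piFinset (fun _ : Fin r => range K),
        (∏ i : Fin r, (zq K ^ (j i * k i))⁻¹) * ((∑ n ∈ Icc 1 ⌊x⌋₊, gx (phj K u r j) x n) / x))
        atTop (nhds (cK K u r k)) := by
      unfold cK
      apply Tendsto.const_mul
      apply tendsto_finsetSum
      intro j _
      exact (mu_tendsto _ (phj_step K hK0 u hu0 hu r j)).const_mul _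
    refine h1.congr' ?_
    filter_upwards [eventually_ge_atTop (2 : ℝ)] with x hx
    have h2 := win_count K u hu0 hu hK r k hk x hx
    have h3 : ((f x : ℝ) : ℂ) = ((Set.ncard {n : ℕ | 1 ≤ n ∧ (n : ℝ) ≤ x ∧
      ∀ i < r, wc x (u i) (u (i + 1)) n = k i} : ℝ) : ℂ) / (x : ℂ) := by
      rw [hf]
      push_cast
      rfl
    rw [h3, h2, mul_div_assoc, Finset.sum_div]
    congr 1
    apply Finset.sum_congr rfl
    intro j _
    rw [mul_div_assoc]
  have hre : Tendsto f atTop (nhds (cK K u r k).re) := by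
    have := (Complex.continuous_re.tendsto _).comp hlim
    simpa [Function.comp_def] using this
  have him : (cK K u r k).im = 0 := by
    have := (Complex.continuous_im.tendsto _).comp hlim
    have h0 : Tendsto (fun _ : ℝ => (0 : ℝ)) atTop (nhds (cK K u r k).im) := by
      simpa [Function.comp_def] using this
    exact (tendsto_nhds_unique h0 tendsto_const_nhds)
  refine ⟨(cK K u r k).re, ?_, hre⟩
  apply Complex.ext
  · simp
  · simp [him]

end Pool.Agent.LPr

end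

/-! ### from `Lib_MP_f1a94e_lp.WinG` -/

section

/-!
# Fourier inversion for the numbers of prime factors in arbitrary windows
-/

set_option autoImplicit false

namespace Pool.Agent.LPr

open Finset Pool.Agent.GaussMR Pool.Agent.OmAll Pool.Agent.OmEq Filter

/-- step functions from a finite type of windows -/
theorem stepf_fin {ι : Type*} [Fintype ι] (φ : ℝ → ℂ) (h1 : ∀ t, ‖φ t‖ = 1) (c : ι → ℂ) (u v : ι → ℝ)
    (hw : ∀ i, 0 < u i ∧ u i ≤ v i) (h : ∀ t, φ t = 1 + ∑ i, if u i < t ∧ t ≤ v i then c i else 0) : StepF φ := by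
  classical
  let e := Fintype.equivFin ι
  refine ⟨h1, Fintype.card ι, fun i => c (e.symm i), fun i => u (e.symm i), fun i => v (e.symm i), fun i => hw _, ?_⟩
  intro t
  rw [h t]
  congr 1
  exact (Equiv.sum_comp e.symm (fun i => if u i < t ∧ t ≤ v i then c i else 0)).symm

/-- products of step functions -/
theorem StepF.mul {φ ψ : ℝ → ℂ} (hφ : StepF φ) (hψ : StepF ψ) : StepF (fun t => φ t * ψ t) := by
  classical
  obtain ⟨r, c, u, v, hw, h⟩ := hφ.ex
  obtain ⟨r', c', u', v', hw', h'⟩ := hψ.ex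
  refine stepf_fin (ι := Fin r ⊕ Fin r' ⊕ Fin r × Fin r') _ (fun t => by rw [norm_mul, hφ.un, hψ.un, one_mul])
    (Sum.elim c (Sum.elim c' (fun p => c p.1 * c' p.2)))
    (Sum.elim u (Sum.elim u' (fun p => max (u p.1) (u' p.2))))
    (Sum.elim v (Sum.elim v' (fun p => max (max (u p.1) (u' p.2)) (min (v p.1) (v' p.2))))) ?_ ?_
  · rintro (i | i | ⟨i, j⟩)
    · exact hw i
    · exact hw' i
    · exact ⟨lt_max_of_lt_left (hw i).1, le_max_left _ _⟩
  · intro t
    rw [h t, h' t, Fintype.sum_sum_type, Fintype.sum_sum_type]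
    simp only [Sum.elim_inl, Sum.elim_inr]
    have h3 : ∑ p : Fin r × Fin r', (if max (u p.1) (u' p.2) < t ∧
        t ≤ max (max (u p.1) (u' p.2)) (min (v p.1) (v' p.2)) then c p.1 * c' p.2 else 0) =
        (∑ i, if u i < t ∧ t ≤ v i then c i else 0) * (∑ i, if u' i < t ∧ t ≤ v' i then c' i else 0) := by
      rw [Fintype.sum_prod_type, sum_mul_sum]
      refine sum_congr rfl fun i _ => sum_congr rfl fun j _ => ?_
      by_cases h4 : u i < t ∧ t ≤ v i
      · by_cases h5 : u' j < t ∧ t ≤ v' j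
        · rw [if_pos h4, if_pos h5, if_pos]
          exact ⟨max_lt h4.1 h5.1, le_max_of_le_right (le_min h4.2 h5.2)⟩
        · rw [if_neg h5, mul_zero, if_neg]
          rintro ⟨h6, h7⟩
          rw [le_max_iff] at h7
          rcases h7 with h7 | h7
          · exact absurd h6 (not_lt.2 h7)
          · exact h5 ⟨(le_max_right _ _).trans_lt h6, h7.trans (min_le_right _ _)⟩
      · rw [if_neg h4, zero_mul, if_neg]
        rintro ⟨h6, h7⟩
        rw [le_max_iff] at h7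
        rcases h7 with h7 | h7
        · exact absurd h6 (not_lt.2 h7)
        · exact h4 ⟨(le_max_left _ _).trans_lt h6, h7.trans (min_le_left _ _)⟩
    rw [h3]
    ring

/-- one window -/
theorem stepf_ind (c : ℂ) (hc : ‖c‖ = 1) (u v : ℝ) (hu : 0 < u) (huv : u ≤ v) :
    StepF (fun t => if u < t ∧ t ≤ v then c else 1) := by
  refine stepf_fin (ι := Fin 1) _ (fun t => ?_) (fun _ => c - 1) (fun _ => u) (fun _ => v) (fun _ => ⟨hu, huv⟩) (fun t => ?_)
  · split_ifs
    · exact hc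
    · exact norm_one
  · simp only [univ_unique, sum_const, card_singleton, one_smul]
    split_ifs
    · ring
    · ring

/-- the step function with values `ζ^(j i)` on the windows `(u i, v i]`, `i < r` -/
noncomputable def phg (K : ℕ) (u v : ℕ → ℝ) (r : ℕ) (j : Fin r → ℕ) (t : ℝ) : ℂ :=
  ∏ i : Fin r, if u i < t ∧ t ≤ v i then zq K ^ (j i) else 1

theorem phg_step (K : ℕ) (hK : 0 < K) (u v : ℕ → ℝ) (r : ℕ) (h : ∀ i < r, 0 < u i ∧ u i ≤ v i) (j : Fin r → ℕ) :
    StepF (phg K u v r j) := by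
  classical
  have key : ∀ s : Finset (Fin r), StepF (fun t => ∏ i ∈ s, if u i < t ∧ t ≤ v i then zq K ^ (j i) else 1) := by
    intro s
    induction s using Finset.induction_on with
    | empty => simpa using stepf_one
    | insert a s ha ih =>
      have h1 := (stepf_ind (zq K ^ (j a)) (fine_norm K hK (j a)) (u a) (v a) (h a a.2).1 (h a a.2).2).mul ih
      have h2 : (fun t => ∏ i ∈ insert a s, if u i < t ∧ t ≤ v i then zq K ^ (j i) else 1) =
          (fun t => (if u a < t ∧ t ≤ v a then zq K ^ (j a) else 1) *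
            ∏ i ∈ s, if u i < t ∧ t ≤ v i then zq K ^ (j i) else 1) := by
        funext t
        rw [prod_insert ha]
      rw [h2]
      exact h1
  exact key univ

private theorem list_prod_windows' {r : ℕ} (P : Fin r → ℕ → Bool) (y : Fin r → ℂ) (L : List ℕ) :
    (L.map (fun p => ∏ i : Fin r, if P i p = true then y i else 1)).prod =
      ∏ i : Fin r, y i ^ (L.filter (P i)).length := by
  induction L with
  | nil => simp
  | cons p L ih =>
    rw [List.map_cons, List.prod_cons, ih, ← Finset.prod_mul_distrib]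
    apply Finset.prod_congr rfl
    intro i _
    rw [List.filter_cons]
    by_cases h : P i p = true
    · rw [if_pos h, if_pos h, List.length_cons, pow_succ]
      ring
    · rw [if_neg h, if_neg h, one_mul]

theorem gx_phg (K : ℕ) (u v : ℕ → ℝ) (r : ℕ) (j : Fin r → ℕ) (X : ℝ) (hX : 1 < X) (n : ℕ) :
    gx (phg K u v r j) X n = ∏ i : Fin r, (zq K ^ (j i)) ^ wc X (u i) (v i) n := by
  classical
  have hX0 : 0 < X := by linarith
  have hlX : 0 < Real.log X := Real.log_pos hX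
  unfold gx
  have h1 : n.primeFactorsList.map (fun p : ℕ => phg K u v r j (Real.log p / Real.log X)) =
      n.primeFactorsList.map (fun p : ℕ => ∏ i : Fin r,
        if (decide (X ^ (u i) < (p : ℝ) ∧ (p : ℝ) ≤ X ^ (v i))) = true then zq K ^ (j i) else 1) := by
    apply List.map_congr_left
    intro p hp
    have hp0 : (0 : ℝ) < p := by exact_mod_cast (Nat.prime_of_mem_primeFactorsList hp).pos
    unfold phg
    apply Finset.prod_congr rfl
    intro i _
    have ha : u i < Real.log p / Real.log X ↔ X ^ (u i) < (p : ℝ) := by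
      rw [lt_div_iff₀ hlX, ← Real.log_rpow hX0, Real.log_lt_log_iff (Real.rpow_pos_of_pos hX0 _) hp0]
    have hb : Real.log p / Real.log X ≤ v i ↔ (p : ℝ) ≤ X ^ (v i) := by
      rw [div_le_iff₀ hlX, ← Real.log_rpow hX0, Real.log_le_log_iff hp0 (Real.rpow_pos_of_pos hX0 _)]
    simp only [ha, hb, decide_eq_true_eq]
  rw [h1, list_prod_windows' (fun (i : Fin r) (p : ℕ) =>
    decide (X ^ (u i) < (p : ℝ) ∧ (p : ℝ) ≤ X ^ (v i)))]
  apply Finset.prod_congr rfl
  intro i _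
  unfold wc
  congr 3

/-- the coefficient sum -/
noncomputable def cG (K : ℕ) (u v : ℕ → ℝ) (r : ℕ) (k : ℕ → ℕ) : ℂ :=
  (1 / (K : ℂ) ^ r) * ∑ j ∈ Fintype.piFinset (fun _ : Fin r => range K),
    (∏ i : Fin r, (zq K ^ (j i * k i))⁻¹) * mu (phg K u v r j)

private theorem win_countG (K : ℕ) (u0 : ℝ) (hu0 : 0 < u0) (u v : ℕ → ℝ) (r : ℕ) (hu : ∀ i < r, u0 ≤ u i)
    (hK : 3 < K * u0) (k : ℕ → ℕ) (hk : ∀ i < r, k i < K) (x : ℝ) (hx : 2 ≤ x) :
    ((Set.ncard {n : ℕ | 1 ≤ n ∧ (n : ℝ) ≤ x ∧ ∀ i < r, wc x (u i) (v i) n = k i} : ℝ) : ℂ) =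
      (1 / (K : ℂ) ^ r) * ∑ j ∈ Fintype.piFinset (fun _ : Fin r => range K),
        (∏ i : Fin r, (zq K ^ (j i * k i))⁻¹) * ∑ n ∈ Icc 1 ⌊x⌋₊, gx (phg K u v r j) x n := by
  classical
  have hx0 : 0 ≤ x := by linarith
  have hK0 : 0 < K := by
    rcases Nat.eq_zero_or_pos K with h | h
    · subst h
      simp at hK
      linarith
    · exact h
  have hKc : (K : ℂ) ^ r ≠ 0 := pow_ne_zero _ (by exact_mod_cast hK0.ne')
  have hset : {n : ℕ | 1 ≤ n ∧ (n : ℝ) ≤ x ∧ ∀ i < r, wc x (u i) (v i) n = k i} =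
      (((Icc 1 ⌊x⌋₊).filter (fun n => ∀ i : Fin r, wc x (u i) (v i) n = k i) : Finset ℕ) : Set ℕ) := by
    ext n
    simp only [Set.mem_ofPred_eq, coe_filter, mem_Icc, Nat.le_floor_iff hx0, and_assoc]
    constructor
    · rintro ⟨h1, h2, h3⟩
      exact ⟨h1, h2, fun i => h3 i i.2⟩
    · rintro ⟨h1, h2, h3⟩
      exact ⟨h1, h2, fun i hi => h3 ⟨i, hi⟩⟩
  rw [hset, Set.ncard_coe_finset, Finset.card_filter]
  have hcast : (((∑ n ∈ Icc 1 ⌊x⌋₊, if ∀ i : Fin r, wc x (u i) (v i) n = k i then 1 else 0 : ℕ) : ℝ) : ℂ) =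
      ∑ n ∈ Icc 1 ⌊x⌋₊, (if ∀ i : Fin r, wc x (u i) (v i) n = k i then (1 : ℂ) else 0) := by
    rw [Nat.cast_sum, Complex.ofReal_sum]
    apply Finset.sum_congr rfl
    intro n _
    split_ifs <;> simp
  rw [hcast]
  have hterm : ∀ n ∈ Icc 1 ⌊x⌋₊, (if ∀ i : Fin r, wc x (u i) (v i) n = k i then (1 : ℂ) else 0) =
      (1 / (K : ℂ) ^ r) * ∑ j ∈ Fintype.piFinset (fun _ : Fin r => range K),
        (∏ i : Fin r, (zq K ^ (j i * k i))⁻¹) * gx (phg K u v r j) x n := by
    intro n hn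
    rw [mem_Icc, Nat.le_floor_iff hx0] at hn
    have hn3 : (n : ℝ) ≤ x ^ 3 := by
      have : x ≤ x ^ 3 := by nlinarith [mul_nonneg hx0 hx0]
      linarith [hn.2]
    have h := win_inv K hK0 r (fun i => k i) (fun i => wc x (u i) (v i) n) (fun i => hk i i.2)
      (fun i => wc_lt K u0 hu0 hK x hx n (by omega) hn3 _ _ (hu i i.2))
    have hg : ∀ j : Fin r → ℕ, gx (phg K u v r j) x n = ∏ i : Fin r, (zq K ^ (j i)) ^ wc x (u i) (v i) n :=
      fun j => gx_phg K u v r j x (by linarith) n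
    simp only [hg]
    rw [h]
    split_ifs
    · rw [one_div, inv_mul_cancel₀ hKc]
    · rw [mul_zero]
  rw [Finset.sum_congr rfl hterm, ← Finset.mul_sum, Finset.sum_comm]
  simp only [Finset.mul_sum]

/-- the law over the integers -/
theorem int_lawG (K : ℕ) (u0 : ℝ) (hu0 : 0 < u0) (u v : ℕ → ℝ) (r : ℕ) (hu : ∀ i < r, u0 ≤ u i ∧ u i ≤ v i)
    (hK : 3 < K * u0) (k : ℕ → ℕ) (hk : ∀ i < r, k i < K) :
    ∃ c : ℝ, (c : ℂ) = cG K u v r k ∧ Tendsto (fun x : ℝ => (Set.ncard {n : ℕ | 1 ≤ n ∧ (n : ℝ) ≤ x ∧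
      ∀ i < r, wc x (u i) (v i) n = k i} : ℝ) / x) atTop (nhds c) := by
  have hK0 : 0 < K := by
    rcases Nat.eq_zero_or_pos K with h | h
    · subst h
      simp at hK
      linarith
    · exact h
  set f : ℝ → ℝ := fun x : ℝ => (Set.ncard {n : ℕ | 1 ≤ n ∧ (n : ℝ) ≤ x ∧
      ∀ i < r, wc x (u i) (v i) n = k i} : ℝ) / x with hf
  have hlim : Tendsto (fun x : ℝ => ((f x : ℝ) : ℂ)) atTop (nhds (cG K u v r k)) := by
    have h1 : Tendsto (fun x : ℝ => (1 / (K : ℂ) ^ r) * ∑ j ∈ Fintype.piFinset (fun _ : Fin r => range K),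
        (∏ i : Fin r, (zq K ^ (j i * k i))⁻¹) * ((∑ n ∈ Icc 1 ⌊x⌋₊, gx (phg K u v r j) x n) / x))
        atTop (nhds (cG K u v r k)) := by
      unfold cG
      apply Tendsto.const_mul
      apply tendsto_finsetSum
      intro j _
      exact (mu_tendsto _ (phg_step K hK0 u v r (fun i hi => ⟨hu0.trans_le (hu i hi).1, (hu i hi).2⟩) j)).const_mul _
    refine h1.congr' ?_
    filter_upwards [eventually_ge_atTop (2 : ℝ)] with x hx
    have h2 := win_countG K u0 hu0 u v r (fun i hi => (hu i hi).1) hK k hk x hx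
    have h3 : ((f x : ℝ) : ℂ) = ((Set.ncard {n : ℕ | 1 ≤ n ∧ (n : ℝ) ≤ x ∧
      ∀ i < r, wc x (u i) (v i) n = k i} : ℝ) : ℂ) / (x : ℂ) := by
      rw [hf]
      push_cast
      rfl
    rw [h3, h2, mul_div_assoc, Finset.sum_div]
    congr 1
    apply Finset.sum_congr rfl
    intro j _
    rw [mul_div_assoc]
  have hre : Tendsto f atTop (nhds (cG K u v r k).re) := by
    have := (Complex.continuous_re.tendsto _).comp hlim
    simpa [Function.comp_def] using this
  have him : (cG K u v r k).im = 0 := by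
    have := (Complex.continuous_im.tendsto _).comp hlim
    have h0 : Tendsto (fun _ : ℝ => (0 : ℝ)) atTop (nhds (cG K u v r k).im) := by
      simpa [Function.comp_def] using this
    exact (tendsto_nhds_unique h0 tendsto_const_nhds)
  refine ⟨(cG K u v r k).re, ?_, hre⟩
  apply Complex.ext
  · simp
  · simp [him]

end Pool.Agent.LPr

end
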