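import Pool.Agent.Lib_MP_92ef0c_m.M17
import Pool.Agent.Lib_MP_92ef0c_m.M18
import Pool.Agent.Lib_MP_92ef0c_m.M20

/-!
# MP_92ef0c_nt, split pairs: merged library part M21

Concatenation of smaller files (each in its own section), only to save build time.
-/

/-! ### from `Lib_MP_f1a94e_mr.Small2` -/

section

/-!
# Piece SMALL2: second stage, amplification by powers of a first stage prime polynomial
-/

set_option autoImplicit false

namespace Pool.Agent.GaussMR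

theorem s2_mem_PP {P Q : ℝ} {w : G} (h : w ∈ PP P Q) :
    (nm w : ℝ) ≤ Q ∧ P < (nm w : ℝ) ∧ (nm w).Prime ∧ 0 < w.im ∧ w.im < w.re := by
  classical
  unfold PP at h
  rw [Finset.mem_filter, mem_ball] at h
  exact h

theorem s2_odd_PP {P Q : ℝ} {w : G} (h : w ∈ PP P Q) : Odd (nm w) := by
  obtain ⟨-, -, hp, h1, h2⟩ := s2_mem_PP h
  rcases hp.eq_two_or_odd' with h3 | h3
  · exfalso
    have h4 : (nm w : ℤ) = w.re ^ 2 + w.im ^ 2 := nm_eq w
    rw [h3] at h4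
    push_cast at h4
    have h5 : (1 : ℤ) ≤ w.im := h1
    have h6 : (1 : ℤ) ≤ w.im ^ 2 := one_le_pow₀ h5
    have h7 : (2 : ℤ) ^ 2 ≤ w.re ^ 2 := pow_le_pow_left₀ (by norm_num) (by omega) 2
    linarith only [h4, h6, h7]
  · exact h3

theorem s2_mem_blk {P Q ρ : ℝ} {v : ℕ} {w : G} (h : w ∈ blk P Q ρ v) :
    w ∈ PP P Q ∧ Real.exp (v * ρ) < (nm w : ℝ) ∧ (nm w : ℝ) ≤ Real.exp ((v + 1) * ρ) := by
  classical
  unfold blk at h
  rw [Finset.mem_filter] at h
  exact h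

theorem s2_xi_one (k : ℤ) : xi k 1 = 1 := by
  have h : (1 : G) = ((1 : ℕ) : G) := by simp
  unfold xi
  rw [h, dir_natCast one_pos, one_zpow]

theorem s2_xi_prod (k : ℤ) {l : ℕ} (x : Fin l → G) : xi k (∏ i, x i) = ∏ i, xi k (x i) := by
  have h : ∀ s : Finset (Fin l), xi k (∏ i ∈ s, x i) = ∏ i ∈ s, xi k (x i) := by
    intro s
    classical
    induction s using Finset.induction_on with
    | empty => simp [s2_xi_one]
    | insert a s ha ih => rw [Finset.prod_insert ha, Finset.prod_insert ha, xi_mul, ih]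
  exact h _

theorem s2_nm_prod {l : ℕ} (x : Fin l → G) : nm (∏ i, x i) = ∏ i, nm (x i) := by
  have h : ∀ s : Finset (Fin l), nm (∏ i ∈ s, x i) = ∏ i ∈ s, nm (x i) := by
    intro s
    classical
    induction s using Finset.induction_on with
    | empty => simp
    | insert a s ha ih => rw [Finset.prod_insert ha, Finset.prod_insert ha, nm_mul, ih]
  exact h _

/-- second moment of `(U_w)^l fc` -/
theorem s2_moment (l : ℕ) : ∃ C : ℝ, 0 < C ∧ ∀ (F : G → ℝ), PM F →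
    ∀ (P Q ρ X' Y : ℝ) (T w : ℕ), 0 < ρ → ρ ≤ 1 → 0 ≤ X' → 1 ≤ Y →
    Real.exp ((w + 1) * ρ) ^ l * X' ≤ Y →
    ∑ k ∈ fr T, ‖U F P Q ρ w k ^ l * fc F X' k‖ ^ 2 ≤
      C * (T + Y) * (Real.exp (w * ρ) ^ l * X') := by
  obtain ⟨C1, hC1, h1⟩ := large_sieve_fam
  obtain ⟨C2, hC2, h2⟩ := pairsU l
  refine ⟨C1 * C2, mul_pos hC1 hC2, ?_⟩
  intro F hF P Q ρ X' Y T w hρ hρ1 hX' hY hle
  classical
  set s : Finset ((Fin l → G) × G) :=
    (Fintype.piFinset fun _ : Fin l => blk P Q ρ w) ×ˢ V X' with hs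
  have hmem : ∀ i ∈ s, (∀ j, i.1 j ∈ blk P Q ρ w) ∧ i.2 ∈ V X' := by
    intro i hi
    rw [hs, Finset.mem_product, Fintype.mem_piFinset] at hi
    exact hi
  have hid : ∀ k : ℤ, U F P Q ρ w k ^ l * fc F X' k =
      ∑ i ∈ s, ((∏ j, (F (i.1 j) : ℂ)) * (F i.2 : ℂ)) * xi (-k) ((∏ j, i.1 j) * i.2) := by
    intro k
    have e1 : U F P Q ρ w k ^ l = ∑ x ∈ Fintype.piFinset (fun _ : Fin l => blk P Q ρ w),
        ∏ j, ((F (x j) : ℂ) * xi (-k) (x j)) := by
      have := Finset.prod_univ_sum (fun _ : Fin l => blk P Q ρ w)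
        (fun _ (u : G) => (F u : ℂ) * xi (-k) u)
      rw [← this, Finset.prod_const, Finset.card_univ, Fintype.card_fin]
      rfl
    rw [e1, hs, Finset.sum_product]
    unfold fc
    rw [Finset.sum_mul_sum]
    refine Finset.sum_congr rfl fun x _ => Finset.sum_congr rfl fun z _ => ?_
    dsimp only
    rw [xi_mul, s2_xi_prod, Finset.prod_mul_distrib]
    ring
  have hodd : ∀ i ∈ s, ∀ j, Odd (nm (i.1 j)) := fun i hi j =>
    s2_odd_PP (s2_mem_blk ((hmem i hi).1 j)).1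
  have hc : ∀ i ∈ s, ‖(∏ j, (F (i.1 j) : ℂ)) * (F i.2 : ℂ)‖ ≤ 1 := by
    intro i hi
    rw [norm_mul, norm_prod, hF.norm (mem_V.1 (hmem i hi).2).2.1, mul_one]
    rw [Finset.prod_congr rfl fun j _ => hF.norm (hodd i hi j)]
    simp
  have hg : ∀ i ∈ s, Odd (nm ((∏ j, i.1 j) * i.2)) ∧ (nm ((∏ j, i.1 j) * i.2) : ℝ) ≤ Y := by
    intro i hi
    constructor
    · rw [odd_nm_mul]
      refine ⟨?_, (mem_V.1 (hmem i hi).2).2.1⟩
      rw [s2_nm_prod]
      exact Finset.prod_induction _ Odd (fun a b => Odd.mul) odd_one fun j _ => hodd i hi j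
    · rw [nm_mul, s2_nm_prod]
      push_cast
      refine le_trans ?_ hle
      refine mul_le_mul ?_ (mem_V.1 (hmem i hi).2).1 (Nat.cast_nonneg _) (by positivity)
      refine (Finset.prod_le_prod (fun j _ => Nat.cast_nonneg _)
        (fun j _ => (s2_mem_blk ((hmem i hi).1 j)).2.2)).trans ?_
      rw [Finset.prod_const, Finset.card_univ, Fintype.card_fin]
  have h3 := h1 _ s (fun i => (∏ j, i.1 j) * i.2) (fun i => (∏ j, (F (i.1 j) : ℂ)) * (F i.2 : ℂ))
    Y T hY hc hg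
  have h4 := h2 P Q (Real.exp (w * ρ)) X' (blk P Q ρ w)
    (fun u hu => (s2_mem_blk hu).1) (Real.one_le_exp (by positivity)) hX' (by
      intro u hu
      have hu' := (s2_mem_blk hu).2
      refine ⟨hu'.1, hu'.2.trans ?_⟩
      have : Real.exp ((w + 1) * ρ) = Real.exp ρ * Real.exp (w * ρ) := by
        rw [← Real.exp_add]
        congr 1
        ring
      rw [this]
      have h5 : Real.exp ρ ≤ 3 :=
        (Real.exp_le_exp.2 hρ1).trans (by linarith [Real.exp_one_lt_d9])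
      exact mul_le_mul_of_nonneg_right h5 (Real.exp_pos _).le)
  have hset : {p : ((Fin l → G) × G) × ((Fin l → G) × G) | p.1 ∈ s ∧ p.2 ∈ s ∧
      pr ((∏ j, p.1.1 j) * p.1.2) = pr ((∏ j, p.2.1 j) * p.2.2)} =
      {q : ((Fin l → G) × G) × ((Fin l → G) × G) |
      (∀ i, q.1.1 i ∈ blk P Q ρ w) ∧ q.1.2 ∈ V X' ∧ (∀ i, q.2.1 i ∈ blk P Q ρ w) ∧
      q.2.2 ∈ V X' ∧ pr ((∏ i, q.1.1 i) * q.1.2) = pr ((∏ i, q.2.1 i) * q.2.2)} := by
    ext q
    simp only [Set.mem_setOf_eq, hs, Finset.mem_product, Fintype.mem_piFinset]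
    tauto
  rw [hset] at h3
  calc ∑ k ∈ fr T, ‖U F P Q ρ w k ^ l * fc F X' k‖ ^ 2
      = ∑ k ∈ fr T, ‖∑ i ∈ s, ((∏ j, (F (i.1 j) : ℂ)) * (F i.2 : ℂ)) *
          xi (-k) ((∏ j, i.1 j) * i.2)‖ ^ 2 := by
        refine Finset.sum_congr rfl fun k _ => ?_
        rw [hid k]
    _ ≤ C1 * (T + Y) * (C2 * Real.exp (w * ρ) ^ l * X') := by
        refine h3.trans ?_
        refine mul_le_mul_of_nonneg_left h4 ?_
        have : (0 : ℝ) ≤ T := Nat.cast_nonneg _
        have : 0 ≤ T + Y := by linarith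
        positivity
    _ = C1 * C2 * (T + Y) * (Real.exp (w * ρ) ^ l * X') := by ring

theorem s2_blk_ne {F : G → ℝ} {P Q ρ : ℝ} {v : ℕ} {k : ℤ} (h : U F P Q ρ v k ≠ 0) :
    P < Real.exp ((v + 1) * ρ) ∧ Real.exp (v * ρ) < Q := by
  unfold U at h
  obtain ⟨u, hu, -⟩ := Finset.exists_ne_zero_of_sum_ne_zero h
  have h1 := s2_mem_blk hu
  have h2 := s2_mem_PP h1.1
  exact ⟨h2.2.1.trans_le h1.2.2, h1.2.1.trans_le h2.1⟩

/-- Let `v` be a second stage block and `w` a first stage block, both nonempty, `l = ⌈v / w⌉`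
(so `v ≤ l w < v + w`, and `l ≤ 2 l0 + 1`, since `w ρ ≥ log P1 - ρ ≥ log P1 / 2`). For `k ∈ S` with
`‖U1_w k‖ > e^((1-α1) w ρ)`:
`e^(2(1-α2) v ρ) ‖fc_v k‖² ≤ e^(2(1-α2) v ρ - 2 l (1-α1) w ρ) ‖(U1_w k)^l fc_v k‖²
≤ e^(-2(α2-α1) v ρ) ‖(U1_w k)^l fc_v k‖²`, and `(U1_w)^l fc_v` is a sum over the family
`(x, z) ∈ blk^l × V (X e^(-vρ))`, `g = (∏ x) z` of norm `≤ X e^(ρ l) e^(w ρ)`; `large_sieve_fam` and
`pairsU l` with `Y = e^(w ρ)` bound its mean square by `C (T + X e^(ρ l) e^(wρ)) e^(wρl) X e^(-vρ)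
≤ C_l X² Q1²`. Sum over `w` and `v` (Cauchy-Schwarz over `v`). -/
theorem small2 (l0 : ℕ) : ∃ C : ℝ, 0 < C ∧ ∀ (F : G → ℝ), PM F →
    ∀ (P1 Q1 P2 Q2 ρ X α1 α2 : ℝ) (T : ℕ) (S : Finset ℤ),
    Real.exp 2 ≤ P1 → P1 ≤ Q1 → Q1 ≤ P2 → P2 ≤ Q2 → Q2 ≤ X → Real.log Q2 ≤ l0 * Real.log P1 →
    0 < ρ → ρ ≤ 1 → 0 ≤ α1 → α1 ≤ α2 → α2 ≤ 1 → (T : ℝ) ≤ X → S ⊆ fr T →
    (∀ k ∈ S, ∃ w : ℕ, Real.exp ((1 - α1) * (w * ρ)) < ‖U F P1 Q1 ρ w k‖) →
    (∀ k ∈ S, ∀ v : ℕ, ‖U F P2 Q2 ρ v k‖ ≤ Real.exp ((1 - α2) * (v * ρ))) →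
    ∑ k ∈ S, ‖UZ F P2 Q2 ρ X k‖ ^ 2 ≤
      C * X ^ 2 * (Real.log Q2 / ρ + 1) ^ 3 * Q1 ^ 3 * P2 ^ (-(2 * (α2 - α1))) := by
  choose Cl hCl0 hCl using s2_moment
  set C0 : ℝ := ∑ l ∈ Finset.range (2 * l0 + 2), Cl l with hC0
  have hClC0 : ∀ l, l ≤ 2 * l0 + 1 → Cl l ≤ C0 := by
    intro l hl
    exact Finset.single_le_sum (f := Cl) (fun i _ => (hCl0 i).le)
      (Finset.mem_range.2 (by omega))
  have hC0pos : 0 < C0 := lt_of_lt_of_le (hCl0 0) (hClC0 0 (by omega))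
  set E : ℝ := Real.exp (2 * l0 + 1) with hE
  have hEpos : 0 < E := Real.exp_pos _
  refine ⟨C0 * (1 + E) * Real.exp 2, by positivity, ?_⟩
  intro F hF P1 Q1 P2 Q2 ρ X α1 α2 T S hP1 hPQ1 hQP hPQ2 hQX hlog hρ hρ1 hα1 hα12 hα2 hTX hST hw hv
  have he2 : (1 : ℝ) ≤ Real.exp 2 := Real.one_le_exp (by norm_num)
  have hP1' : 1 ≤ P1 := he2.trans hP1
  have hQ1' : 1 ≤ Q1 := hP1'.trans hPQ1
  have hP2' : 1 ≤ P2 := hQ1'.trans hQP
  have hQ2' : 1 ≤ Q2 := hP2'.trans hPQ2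
  have hX' : 1 ≤ X := hQ2'.trans hQX
  have hlP1 : 2 ≤ Real.log P1 := by
    rw [Real.le_log_iff_exp_le (by linarith)]
    exact hP1
  have hlQ : Real.log Q1 ≤ Real.log Q2 := Real.log_le_log (by linarith) (hQP.trans hPQ2)
  have hlQ1 : 0 ≤ Real.log Q1 := Real.log_nonneg hQ1'
  have hlQ2 : 0 ≤ Real.log Q2 := Real.log_nonneg hQ2'
  set N : ℕ := nv Q2 ρ with hN
  set M : ℕ := nv Q1 ρ with hM
  have hNle : (N : ℝ) ≤ Real.log Q2 / ρ + 1 := by
    rw [hN]
    unfold nv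
    push_cast
    have := Nat.floor_le (div_nonneg hlQ2 hρ.le)
    linarith
  have hMle : (M : ℝ) ≤ Real.log Q2 / ρ + 1 := by
    rw [hM]
    unfold nv
    push_cast
    have h1 := Nat.floor_le (div_nonneg hlQ1 hρ.le)
    have h2 := div_le_div_of_nonneg_right hlQ hρ.le
    linarith
  set K : ℝ := C0 * (1 + E) * Real.exp 2 * X ^ 2 * Q1 ^ 3 * P2 ^ (-(2 * (α2 - α1))) with hK
  have hP2pow : 0 < P2 ^ (-(2 * (α2 - α1))) := Real.rpow_pos_of_pos (by linarith) _
  have hKpos : 0 < K := by positivity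
  -- bound for one pair of blocks
  have hpair : ∀ v w : ℕ, (∃ k, U F P2 Q2 ρ v k ≠ 0) → (∃ k, U F P1 Q1 ρ w k ≠ 0) →
      ∀ S' : Finset ℤ, S' ⊆ fr T →
      (∀ k ∈ S', Real.exp ((1 - α1) * (w * ρ)) < ‖U F P1 Q1 ρ w k‖) →
      ∑ k ∈ S', Real.exp ((1 - α2) * (v * ρ)) ^ 2 * ‖fc F (X * Real.exp (-(v * ρ))) k‖ ^ 2 ≤ K := by
    rintro v w ⟨k2, hk2⟩ ⟨k1, hk1⟩ S' hS' hcond
    obtain ⟨a1, a2⟩ := s2_blk_ne hk2
    obtain ⟨b1, b2⟩ := s2_blk_ne hk1
    have a1' : Real.log P2 < (v + 1) * ρ := by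
      rw [Real.log_lt_iff_lt_exp (by linarith)]
      exact a1
    have b1' : Real.log P1 < (w + 1) * ρ := by
      rw [Real.log_lt_iff_lt_exp (by linarith)]
      exact b1
    have a2' : v * ρ < Real.log Q2 := by
      rw [Real.lt_log_iff_exp_lt (by linarith)]
      exact a2
    have hwρ : Real.log P1 / 2 < w * ρ := by linarith
    have hwpos : 0 < w := by
      rcases Nat.eq_zero_or_pos w with h0 | h0
      · exfalso
        rw [h0] at hwρ
        simp at hwρ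
        linarith
      · exact h0
    have hvw : (v : ℝ) ≤ w * (2 * l0) := by
      have h1 : v * ρ ≤ (w * (2 * l0)) * ρ := by
        have h2 : (l0 : ℝ) * Real.log P1 ≤ l0 * (2 * (w * ρ)) :=
          mul_le_mul_of_nonneg_left (by linarith) (Nat.cast_nonneg _)
        calc v * ρ ≤ Real.log Q2 := a2'.le
          _ ≤ l0 * Real.log P1 := hlog
          _ ≤ l0 * (2 * (w * ρ)) := h2
          _ = (w * (2 * l0)) * ρ := by ring
      exact le_of_mul_le_mul_right h1 hρ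
    have hvw' : v ≤ w * (2 * l0) := by exact_mod_cast hvw
    set l : ℕ := v / w + 1 with hl
    have hl1 : l ≤ 2 * l0 + 1 := by
      have : v / w ≤ 2 * l0 := Nat.div_le_of_le_mul hvw'
      omega
    have hl2 : v ≤ l * w := by
      have := Nat.lt_mul_div_succ v hwpos
      rw [hl]
      calc v ≤ w * (v / w + 1) := this.le
        _ = (v / w + 1) * w := by ring
    have hl3 : l * w ≤ v + w := by
      have := Nat.div_mul_le_self v w
      rw [hl, add_mul, one_mul]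
      omega
    have hl2' : (v : ℝ) ≤ l * w := by exact_mod_cast hl2
    have hl3' : (l : ℝ) * w ≤ v + w := by exact_mod_cast hl3
    have hl1' : (l : ℝ) ≤ 2 * l0 + 1 := by exact_mod_cast hl1
    have hexpw : Real.exp (w * ρ) ^ l * (X * Real.exp (-(v * ρ))) ≤ Q1 * X := by
      have e1 : Real.exp (w * ρ) ^ l * (X * Real.exp (-(v * ρ))) =
          Real.exp ((l * w - v) * ρ) * X := by
        rw [← Real.exp_nat_mul, mul_left_comm, ← Real.exp_add, mul_comm]
        congr 2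
        ring
      rw [e1]
      refine mul_le_mul_of_nonneg_right ?_ (by linarith)
      refine le_trans (Real.exp_le_exp.2 ?_) b2.le
      exact mul_le_mul_of_nonneg_right (by linarith) hρ.le
    have hexpY : Real.exp ((w + 1) * ρ) ^ l * (X * Real.exp (-(v * ρ))) ≤ E * Q1 * X := by
      have e1 : Real.exp ((w + 1) * ρ) ^ l * (X * Real.exp (-(v * ρ))) =
          Real.exp (l * ρ) * (Real.exp (w * ρ) ^ l * (X * Real.exp (-(v * ρ)))) := by
        have e2 : Real.exp ((w + 1) * ρ) ^ l = Real.exp (l * ρ) * Real.exp (w * ρ) ^ l := by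
          rw [← Real.exp_nat_mul, ← Real.exp_nat_mul, ← Real.exp_add]
          congr 1
          ring
        rw [e2, mul_assoc]
      rw [e1, mul_assoc E]
      refine mul_le_mul ?_ hexpw (by positivity) hEpos.le
      rw [hE]
      refine Real.exp_le_exp.2 ?_
      calc (l : ℝ) * ρ ≤ l * 1 := mul_le_mul_of_nonneg_left hρ1 (Nat.cast_nonneg _)
        _ ≤ 2 * l0 + 1 := by linarith
    have hY1 : 1 ≤ E * Q1 * X := by
      have h1 : 1 ≤ E := Real.one_le_exp (by positivity)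
      have h2 : 1 ≤ E * Q1 := one_le_mul_of_one_le_of_one_le h1 hQ1'
      exact one_le_mul_of_one_le_of_one_le h2 hX'
    have hmom := hCl l F hF P1 Q1 ρ (X * Real.exp (-(v * ρ))) (E * Q1 * X) T w hρ hρ1
      (by positivity) hY1 hexpY
    have hmom2 : ∑ k ∈ fr T, ‖U F P1 Q1 ρ w k ^ l * fc F (X * Real.exp (-(v * ρ))) k‖ ^ 2 ≤
        C0 * (1 + E) * X ^ 2 * Q1 ^ 2 := by
      refine hmom.trans ?_
      have h1 : (T : ℝ) + E * Q1 * X ≤ (1 + E) * Q1 * X := by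
        have h0 : X ≤ Q1 * X := le_mul_of_one_le_left (zero_le_one.trans hX') hQ1'
        calc (T : ℝ) + E * Q1 * X ≤ Q1 * X + E * Q1 * X := add_le_add (hTX.trans h0) le_rfl
          _ = (1 + E) * Q1 * X := by ring
      have h2 : 0 ≤ (T : ℝ) + E * Q1 * X := by positivity
      calc Cl l * (T + E * Q1 * X) * (Real.exp (w * ρ) ^ l * (X * Real.exp (-(v * ρ))))
          ≤ C0 * ((1 + E) * Q1 * X) * (Q1 * X) := by
            refine mul_le_mul ?_ hexpw (by positivity) (by positivity)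
            exact mul_le_mul (hClC0 l hl1) h1 h2 hC0pos.le
        _ = C0 * (1 + E) * X ^ 2 * Q1 ^ 2 := by ring
    -- amplification
    have hamp : ∀ k ∈ S', Real.exp ((1 - α2) * (v * ρ)) ^ 2 *
        ‖fc F (X * Real.exp (-(v * ρ))) k‖ ^ 2 ≤ Real.exp (-(2 * (α2 - α1) * (v * ρ))) *
        ‖U F P1 Q1 ρ w k ^ l * fc F (X * Real.exp (-(v * ρ))) k‖ ^ 2 := by
      intro k hk
      rw [norm_mul, mul_pow, ← mul_assoc (Real.exp (-(2 * (α2 - α1) * (v * ρ))))]
      refine mul_le_mul_of_nonneg_right ?_ (sq_nonneg _)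
      have h1 : Real.exp ((1 - α1) * (v * ρ)) ^ 2 ≤ ‖U F P1 Q1 ρ w k ^ l‖ ^ 2 := by
        refine pow_le_pow_left₀ (Real.exp_pos _).le ?_ 2
        rw [norm_pow]
        calc Real.exp ((1 - α1) * (v * ρ)) ≤ Real.exp ((1 - α1) * (w * ρ)) ^ l := by
              rw [← Real.exp_nat_mul]
              refine Real.exp_le_exp.2 ?_
              have h2 : (v : ℝ) * ρ ≤ (l * w) * ρ := mul_le_mul_of_nonneg_right hl2' hρ.le
              calc (1 - α1) * (v * ρ) ≤ (1 - α1) * ((l * w) * ρ) :=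
                    mul_le_mul_of_nonneg_left h2 (by linarith)
                _ = l * ((1 - α1) * (w * ρ)) := by ring
          _ ≤ ‖U F P1 Q1 ρ w k‖ ^ l := pow_le_pow_left₀ (Real.exp_pos _).le (hcond k hk).le l
      calc Real.exp ((1 - α2) * (v * ρ)) ^ 2
          = Real.exp (-(2 * (α2 - α1) * (v * ρ))) * Real.exp ((1 - α1) * (v * ρ)) ^ 2 := by
            rw [← Real.exp_nat_mul, ← Real.exp_nat_mul, ← Real.exp_add]
            congr 1
            push_cast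
            ring
        _ ≤ _ := mul_le_mul_of_nonneg_left h1 (Real.exp_pos _).le
    have hexpP : Real.exp (-(2 * (α2 - α1) * (v * ρ))) ≤
        Real.exp 2 * P2 ^ (-(2 * (α2 - α1))) := by
      rw [Real.rpow_def_of_pos (by linarith), ← Real.exp_add]
      refine Real.exp_le_exp.2 ?_
      have h1 : Real.log P2 - v * ρ ≤ 1 := by linarith
      have h2 : (α2 - α1) * (Real.log P2 - v * ρ) ≤ (α2 - α1) * 1 :=
        mul_le_mul_of_nonneg_left h1 (sub_nonneg.2 hα12)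
      linarith only [h2, hα1, hα2]
    calc ∑ k ∈ S', Real.exp ((1 - α2) * (v * ρ)) ^ 2 * ‖fc F (X * Real.exp (-(v * ρ))) k‖ ^ 2
        ≤ ∑ k ∈ S', Real.exp (-(2 * (α2 - α1) * (v * ρ))) *
          ‖U F P1 Q1 ρ w k ^ l * fc F (X * Real.exp (-(v * ρ))) k‖ ^ 2 :=
          Finset.sum_le_sum hamp
      _ ≤ ∑ k ∈ fr T, Real.exp (-(2 * (α2 - α1) * (v * ρ))) *
          ‖U F P1 Q1 ρ w k ^ l * fc F (X * Real.exp (-(v * ρ))) k‖ ^ 2 :=
          Finset.sum_le_sum_of_subset_of_nonneg hS' fun k _ _ => by positivity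
      _ = Real.exp (-(2 * (α2 - α1) * (v * ρ))) * ∑ k ∈ fr T,
          ‖U F P1 Q1 ρ w k ^ l * fc F (X * Real.exp (-(v * ρ))) k‖ ^ 2 := by
          rw [Finset.mul_sum]
      _ ≤ (Real.exp 2 * P2 ^ (-(2 * (α2 - α1)))) * (C0 * (1 + E) * X ^ 2 * Q1 ^ 2) :=
          mul_le_mul hexpP hmom2 (Finset.sum_nonneg fun k _ => by positivity) (by positivity)
      _ ≤ K := by
          rw [hK]
          have h1 : Q1 ^ 2 ≤ Q1 ^ 3 := pow_le_pow_right₀ hQ1' (by norm_num)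
          have h2 : (0 : ℝ) ≤ C0 * (1 + E) * Real.exp 2 * X ^ 2 * P2 ^ (-(2 * (α2 - α1))) := by
            positivity
          calc (Real.exp 2 * P2 ^ (-(2 * (α2 - α1)))) * (C0 * (1 + E) * X ^ 2 * Q1 ^ 2)
              = (C0 * (1 + E) * Real.exp 2 * X ^ 2 * P2 ^ (-(2 * (α2 - α1)))) * Q1 ^ 2 := by
                ring
            _ ≤ (C0 * (1 + E) * Real.exp 2 * X ^ 2 * P2 ^ (-(2 * (α2 - α1)))) * Q1 ^ 3 :=
                mul_le_mul_of_nonneg_left h1 h2
            _ = _ := by ring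
  -- one second stage block
  have hblock : ∀ v : ℕ, ∑ k ∈ S, ‖U F P2 Q2 ρ v k * fc F (X * Real.exp (-(v * ρ))) k‖ ^ 2 ≤
      M * K := by
    intro v
    classical
    by_cases hv0 : ∃ k, U F P2 Q2 ρ v k ≠ 0
    · have h1 : ∀ k ∈ S, ‖U F P2 Q2 ρ v k * fc F (X * Real.exp (-(v * ρ))) k‖ ^ 2 ≤
          ∑ w ∈ Finset.range M, if Real.exp ((1 - α1) * (w * ρ)) < ‖U F P1 Q1 ρ w k‖ then
            Real.exp ((1 - α2) * (v * ρ)) ^ 2 * ‖fc F (X * Real.exp (-(v * ρ))) k‖ ^ 2 else 0 := by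
        intro k hk
        obtain ⟨w, hwk⟩ := hw k hk
        have hUne : U F P1 Q1 ρ w k ≠ 0 := by
          intro h0
          rw [h0, norm_zero] at hwk
          exact absurd hwk (not_lt.2 (Real.exp_pos _).le)
        have hwM : w ∈ Finset.range M := by
          rw [Finset.mem_range, hM]
          unfold nv
          rw [Nat.lt_succ_iff]
          apply Nat.le_floor
          rw [le_div_iff₀ hρ]
          refine le_of_lt ?_
          rw [Real.lt_log_iff_exp_lt (by linarith)]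
          exact (s2_blk_ne hUne).2
        have h2 := Finset.single_le_sum (f := fun w : ℕ =>
          if Real.exp ((1 - α1) * (w * ρ)) < ‖U F P1 Q1 ρ w k‖ then
            Real.exp ((1 - α2) * (v * ρ)) ^ 2 * ‖fc F (X * Real.exp (-(v * ρ))) k‖ ^ 2 else 0)
          (fun i _ => by positivity) hwM
        refine le_trans ?_ h2
        simp only [hwk, if_true]
        rw [norm_mul, mul_pow]
        exact mul_le_mul_of_nonneg_right (pow_le_pow_left₀ (norm_nonneg _) (hv k hk v) 2)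
          (by positivity)
      refine (Finset.sum_le_sum h1).trans ?_
      rw [Finset.sum_comm]
      calc ∑ w ∈ Finset.range M, ∑ k ∈ S,
          (if Real.exp ((1 - α1) * (w * ρ)) < ‖U F P1 Q1 ρ w k‖ then
            Real.exp ((1 - α2) * (v * ρ)) ^ 2 * ‖fc F (X * Real.exp (-(v * ρ))) k‖ ^ 2 else 0)
          ≤ ∑ w ∈ Finset.range M, K := by
            refine Finset.sum_le_sum fun w _ => ?_
            rw [← Finset.sum_filter]
            by_cases hne : (S.filter fun k =>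
                Real.exp ((1 - α1) * (w * ρ)) < ‖U F P1 Q1 ρ w k‖).Nonempty
            · obtain ⟨k, hk⟩ := hne
              rw [Finset.mem_filter] at hk
              have hUne : U F P1 Q1 ρ w k ≠ 0 := by
                intro h0
                have h3 := hk.2
                rw [h0, norm_zero] at h3
                exact absurd h3 (not_lt.2 (Real.exp_pos _).le)
              exact hpair v w hv0 ⟨k, hUne⟩ _ ((Finset.filter_subset _ _).trans hST)
                fun k hk => (Finset.mem_filter.1 hk).2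
            · rw [Finset.not_nonempty_iff_eq_empty.1 hne, Finset.sum_empty]
              exact hKpos.le
        _ = M * K := by rw [Finset.sum_const, Finset.card_range, nsmul_eq_mul]
    · have h1 : ∀ k, U F P2 Q2 ρ v k = 0 := fun k => by
        by_contra h0
        exact hv0 ⟨k, h0⟩
      have h2 : ∑ k ∈ S, ‖U F P2 Q2 ρ v k * fc F (X * Real.exp (-(v * ρ))) k‖ ^ 2 = 0 := by
        refine Finset.sum_eq_zero fun k _ => ?_
        rw [h1 k]
        simp
      rw [h2]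
      positivity
  have hNM : (0 : ℝ) ≤ Real.log Q2 / ρ + 1 := by positivity
  calc ∑ k ∈ S, ‖UZ F P2 Q2 ρ X k‖ ^ 2
      ≤ ∑ k ∈ S, N * ∑ v ∈ Finset.range N,
          ‖U F P2 Q2 ρ v k * fc F (X * Real.exp (-(v * ρ))) k‖ ^ 2 := by
        refine Finset.sum_le_sum fun k _ => ?_
        unfold UZ
        rw [← hN]
        have h1 := norm_sum_le (Finset.range N)
          (fun v : ℕ => U F P2 Q2 ρ v k * fc F (X * Real.exp (-(v * ρ))) k)
        refine (pow_le_pow_left₀ (norm_nonneg _) h1 2).trans ?_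
        have h2 := sq_sum_le_card_mul_sum_sq (s := Finset.range N)
          (f := fun v : ℕ => ‖U F P2 Q2 ρ v k * fc F (X * Real.exp (-(v * ρ))) k‖)
        rw [Finset.card_range] at h2
        exact h2
    _ = N * ∑ v ∈ Finset.range N, ∑ k ∈ S,
          ‖U F P2 Q2 ρ v k * fc F (X * Real.exp (-(v * ρ))) k‖ ^ 2 := by
        rw [← Finset.mul_sum, Finset.sum_comm]
    _ ≤ N * ∑ v ∈ Finset.range N, (M * K) := by
        refine mul_le_mul_of_nonneg_left (Finset.sum_le_sum fun v _ => hblock v)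
          (Nat.cast_nonneg _)
    _ = N * (N * (M * K)) := by
        rw [Finset.sum_const, Finset.card_range, nsmul_eq_mul]
    _ ≤ (Real.log Q2 / ρ + 1) * ((Real.log Q2 / ρ + 1) * ((Real.log Q2 / ρ + 1) * K)) := by
        refine mul_le_mul hNle ?_ (by positivity) hNM
        refine mul_le_mul hNle ?_ (by positivity) hNM
        exact mul_le_mul_of_nonneg_right hMle hKpos.le
    _ = C0 * (1 + E) * Real.exp 2 * X ^ 2 * (Real.log Q2 / ρ + 1) ^ 3 * Q1 ^ 3 *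
          P2 ^ (-(2 * (α2 - α1))) := by
        rw [hK]
        ring

end Pool.Agent.GaussMR

end

/-! ### from `Lib_MP_f1a94e_mu.SmallM` -/

section

/-!
# Piece SMALLM: passage from one stage to the next, explicit dependence on the number of factors
-/

set_option autoImplicit false

namespace Pool.Agent.GaussMR

/-- second moment of `(U_w)^l fc`, explicit dependence on `l` -/
theorem sM_moment : ∃ C : ℝ, 0 < C ∧ ∀ (l : ℕ) (F : G → ℝ), PM F →
    ∀ (P Q ρ X' Y : ℝ) (T w : ℕ), 0 < ρ → ρ ≤ 1 → 0 ≤ X' → 1 ≤ Y →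
    Real.exp ((w + 1) * ρ) ^ l * X' ≤ Y →
    ∑ k ∈ fr T, ‖U F P Q ρ w k ^ l * fc F X' k‖ ^ 2 ≤
      C * (144 * ((l : ℝ) + 1)) ^ l * (T + Y) * (Real.exp (w * ρ) ^ l * X') := by
  obtain ⟨C1, hC1, h1⟩ := large_sieve_fam
  refine ⟨C1 * 9, by positivity, ?_⟩
  intro l F hF P Q ρ X' Y T w hρ hρ1 hX' hY hle
  have h2 := pairsX l
  classical
  set s : Finset ((Fin l → G) × G) :=
    (Fintype.piFinset fun _ : Fin l => blk P Q ρ w) ×ˢ V X' with hs
  have hmem : ∀ i ∈ s, (∀ j, i.1 j ∈ blk P Q ρ w) ∧ i.2 ∈ V X' := by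
    intro i hi
    rw [hs, Finset.mem_product, Fintype.mem_piFinset] at hi
    exact hi
  have hid : ∀ k : ℤ, U F P Q ρ w k ^ l * fc F X' k =
      ∑ i ∈ s, ((∏ j, (F (i.1 j) : ℂ)) * (F i.2 : ℂ)) * xi (-k) ((∏ j, i.1 j) * i.2) := by
    intro k
    have e1 : U F P Q ρ w k ^ l = ∑ x ∈ Fintype.piFinset (fun _ : Fin l => blk P Q ρ w),
        ∏ j, ((F (x j) : ℂ) * xi (-k) (x j)) := by
      have := Finset.prod_univ_sum (fun _ : Fin l => blk P Q ρ w)
        (fun _ (u : G) => (F u : ℂ) * xi (-k) u)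
      rw [← this, Finset.prod_const, Finset.card_univ, Fintype.card_fin]
      rfl
    rw [e1, hs, Finset.sum_product]
    unfold fc
    rw [Finset.sum_mul_sum]
    refine Finset.sum_congr rfl fun x _ => Finset.sum_congr rfl fun z _ => ?_
    dsimp only
    rw [xi_mul, s2_xi_prod, Finset.prod_mul_distrib]
    ring
  have hodd : ∀ i ∈ s, ∀ j, Odd (nm (i.1 j)) := fun i hi j =>
    s2_odd_PP (s2_mem_blk ((hmem i hi).1 j)).1
  have hc : ∀ i ∈ s, ‖(∏ j, (F (i.1 j) : ℂ)) * (F i.2 : ℂ)‖ ≤ 1 := by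
    intro i hi
    rw [norm_mul, norm_prod, hF.norm (mem_V.1 (hmem i hi).2).2.1, mul_one]
    rw [Finset.prod_congr rfl fun j _ => hF.norm (hodd i hi j)]
    simp
  have hg : ∀ i ∈ s, Odd (nm ((∏ j, i.1 j) * i.2)) ∧ (nm ((∏ j, i.1 j) * i.2) : ℝ) ≤ Y := by
    intro i hi
    constructor
    · rw [odd_nm_mul]
      refine ⟨?_, (mem_V.1 (hmem i hi).2).2.1⟩
      rw [s2_nm_prod]
      exact Finset.prod_induction _ Odd (fun a b => Odd.mul) odd_one fun j _ => hodd i hi j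
    · rw [nm_mul, s2_nm_prod]
      push_cast
      refine le_trans ?_ hle
      refine mul_le_mul ?_ (mem_V.1 (hmem i hi).2).1 (Nat.cast_nonneg _) (by positivity)
      refine (Finset.prod_le_prod (fun j _ => Nat.cast_nonneg _)
        (fun j _ => (s2_mem_blk ((hmem i hi).1 j)).2.2)).trans ?_
      rw [Finset.prod_const, Finset.card_univ, Fintype.card_fin]
  have h3 := h1 _ s (fun i => (∏ j, i.1 j) * i.2) (fun i => (∏ j, (F (i.1 j) : ℂ)) * (F i.2 : ℂ))
    Y T hY hc hg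
  have h4 := h2 P Q (Real.exp (w * ρ)) X' (blk P Q ρ w)
    (fun u hu => (s2_mem_blk hu).1) (Real.one_le_exp (by positivity)) hX' (by
      intro u hu
      have hu' := (s2_mem_blk hu).2
      refine ⟨hu'.1, hu'.2.trans ?_⟩
      have : Real.exp ((w + 1) * ρ) = Real.exp ρ * Real.exp (w * ρ) := by
        rw [← Real.exp_add]
        congr 1
        ring
      rw [this]
      have h5 : Real.exp ρ ≤ 3 :=
        (Real.exp_le_exp.2 hρ1).trans (by linarith [Real.exp_one_lt_d9])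
      exact mul_le_mul_of_nonneg_right h5 (Real.exp_pos _).le)
  have hset : {p : ((Fin l → G) × G) × ((Fin l → G) × G) | p.1 ∈ s ∧ p.2 ∈ s ∧
      pr ((∏ j, p.1.1 j) * p.1.2) = pr ((∏ j, p.2.1 j) * p.2.2)} =
      {q : ((Fin l → G) × G) × ((Fin l → G) × G) |
      (∀ i, q.1.1 i ∈ blk P Q ρ w) ∧ q.1.2 ∈ V X' ∧ (∀ i, q.2.1 i ∈ blk P Q ρ w) ∧
      q.2.2 ∈ V X' ∧ pr ((∏ i, q.1.1 i) * q.1.2) = pr ((∏ i, q.2.1 i) * q.2.2)} := by
    ext q
    simp only [Set.mem_setOf_eq, hs, Finset.mem_product, Fintype.mem_piFinset]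
    tauto
  rw [hset] at h3
  calc ∑ k ∈ fr T, ‖U F P Q ρ w k ^ l * fc F X' k‖ ^ 2
      = ∑ k ∈ fr T, ‖∑ i ∈ s, ((∏ j, (F (i.1 j) : ℂ)) * (F i.2 : ℂ)) *
          xi (-k) ((∏ j, i.1 j) * i.2)‖ ^ 2 := by
        refine Finset.sum_congr rfl fun k _ => ?_
        rw [hid k]
    _ ≤ C1 * (T + Y) * (9 * (144 * ((l : ℝ) + 1)) ^ l * Real.exp (w * ρ) ^ l * X') := by
        refine h3.trans ?_
        refine mul_le_mul_of_nonneg_left h4 ?_
        have : (0 : ℝ) ≤ T := Nat.cast_nonneg _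
        have : 0 ≤ T + Y := by linarith
        positivity
    _ = C1 * 9 * (144 * ((l : ℝ) + 1)) ^ l * (T + Y) * (Real.exp (w * ρ) ^ l * X') := by ring

/-- the numerical inequality for the constants -/
theorem sM_const (C1 l0 : ℝ) (hC1 : 0 < C1) (hl0 : 1 ≤ l0) (l : ℕ) (hl : (l : ℝ) ≤ l0 + 1) :
    C1 * (144 * ((l : ℝ) + 1)) ^ l * (1 + Real.exp (l0 + 1)) * Real.exp 2 ≤
      Real.exp ((|Real.log C1| + 12) * (l0 + 2) * Real.log (l0 + 2)) := by
  have h3 : (1 : ℝ) ≤ Real.log (l0 + 2) := by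
    rw [Real.le_log_iff_exp_le (by linarith)]
    have := Real.exp_one_lt_d9
    linarith
  set L : ℝ := (l0 + 2) * Real.log (l0 + 2) with hL
  have hL3 : l0 + 2 ≤ L := by
    rw [hL]
    exact le_mul_of_one_le_right (by linarith only [hl0]) h3
  have h144 : Real.log 144 ≤ 5 := by
    rw [Real.log_le_iff_le_exp (by norm_num)]
    have h := Real.exp_one_gt_d9
    have e5 : Real.exp 5 = Real.exp 1 ^ 5 := by
      rw [← Real.exp_nat_mul]
      norm_num
    rw [e5]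
    have h27 : (2.71 : ℝ) ≤ Real.exp 1 := by linarith
    calc (144 : ℝ) ≤ 2.71 ^ 5 := by norm_num
      _ ≤ Real.exp 1 ^ 5 := pow_le_pow_left₀ (by norm_num) h27 5
  have a1 : C1 = Real.exp (Real.log C1) := (Real.exp_log hC1).symm
  have a2 : (144 * ((l : ℝ) + 1)) ^ l ≤ Real.exp ((l0 + 1) * (5 + Real.log (l0 + 2))) := by
    have hb : (0 : ℝ) < 144 * ((l : ℝ) + 1) := by positivity
    have e1 : (144 * ((l : ℝ) + 1)) ^ l = Real.exp (l * Real.log (144 * ((l : ℝ) + 1))) := by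
      rw [Real.exp_nat_mul, Real.exp_log hb]
    rw [e1]
    refine Real.exp_le_exp.2 ?_
    have e2 : Real.log (144 * ((l : ℝ) + 1)) = Real.log 144 + Real.log ((l : ℝ) + 1) :=
      Real.log_mul (by norm_num) (by positivity)
    have e3 : Real.log ((l : ℝ) + 1) ≤ Real.log (l0 + 2) :=
      Real.log_le_log (by positivity) (by linarith)
    rw [e2]
    have e4 : 0 ≤ Real.log 144 + Real.log ((l : ℝ) + 1) := by
      have := Real.log_nonneg (show (1 : ℝ) ≤ (l : ℝ) + 1 by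
        have : (0 : ℝ) ≤ l := Nat.cast_nonneg _
        linarith)
      have := Real.log_nonneg (show (1 : ℝ) ≤ 144 by norm_num)
      linarith
    calc (l : ℝ) * (Real.log 144 + Real.log ((l : ℝ) + 1))
        ≤ (l0 + 1) * (Real.log 144 + Real.log ((l : ℝ) + 1)) :=
          mul_le_mul_of_nonneg_right hl e4
      _ ≤ (l0 + 1) * (5 + Real.log (l0 + 2)) :=
          mul_le_mul_of_nonneg_left (by linarith) (by linarith)
  have a3 : 1 + Real.exp (l0 + 1) ≤ Real.exp (l0 + 2) := by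
    have h1 : 1 ≤ Real.exp (l0 + 1) := Real.one_le_exp (by linarith)
    have h2 : Real.exp (l0 + 2) = Real.exp 1 * Real.exp (l0 + 1) := by
      rw [← Real.exp_add]
      congr 1
      ring
    rw [h2]
    have h4 := Real.exp_one_gt_d9
    have h5 : 2 * Real.exp (l0 + 1) ≤ Real.exp 1 * Real.exp (l0 + 1) :=
      mul_le_mul_of_nonneg_right (by linarith only [h4]) (Real.exp_pos _).le
    linarith only [h5, h1]
  calc C1 * (144 * ((l : ℝ) + 1)) ^ l * (1 + Real.exp (l0 + 1)) * Real.exp 2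
      ≤ Real.exp (Real.log C1) * Real.exp ((l0 + 1) * (5 + Real.log (l0 + 2))) *
          Real.exp (l0 + 2) * Real.exp 2 := by
        rw [← a1]
        gcongr
    _ = Real.exp (Real.log C1 + (l0 + 1) * (5 + Real.log (l0 + 2)) + (l0 + 2) + 2) := by
        rw [← Real.exp_add, ← Real.exp_add, ← Real.exp_add]
    _ ≤ _ := by
        refine Real.exp_le_exp.2 ?_
        have b1 : Real.log C1 ≤ |Real.log C1| * L :=
          (le_abs_self _).trans (le_mul_of_one_le_right (abs_nonneg _) (by linarith))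
        have b2 : (l0 + 1) * (5 + Real.log (l0 + 2)) ≤ 6 * L := by
          rw [hL]
          have h5 : (l0 + 2) * 1 ≤ (l0 + 2) * Real.log (l0 + 2) :=
            mul_le_mul_of_nonneg_left h3 (by linarith only [hl0])
          linarith only [h5, h3]
        have b3 : (|Real.log C1| + 12) * (l0 + 2) * Real.log (l0 + 2) =
            |Real.log C1| * L + 12 * L := by
          rw [hL]
          ring
        rw [b3]
        linarith

/-- Same proof as `small2` (Lib_MP_f1a94e_mr/Small2.lean), with two block lengths `ρ1, ρ2`, with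
`pairsX` in place of `pairsU` (so `s2_moment l` holds with the constant `C1 * 9 * (144 (l+1)) ^ l`,
`C1` from `large_sieve_fam`), and `l = ⌊v ρ2 / (w ρ1)⌋ + 1`, so that
`v ρ2 ≤ l w ρ1 ≤ v ρ2 + w ρ1` and `l ≤ 2 log Q2 / log P1 + 1 ≤ l0 + 1`. -/
theorem smallM : ∃ C : ℝ, 0 < C ∧ ∀ (F : G → ℝ), PM F →
    ∀ (P1 Q1 P2 Q2 ρ1 ρ2 X α1 α2 l0 : ℝ) (T : ℕ) (S : Finset ℤ),
    Real.exp 2 ≤ P1 → P1 ≤ Q1 → Q1 ≤ X → 1 ≤ P2 → P2 ≤ Q2 → Q2 ≤ X → 1 ≤ l0 →
    2 * Real.log Q2 ≤ l0 * Real.log P1 →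
    0 < ρ1 → ρ1 ≤ 1 → 0 < ρ2 → ρ2 ≤ 1 → 0 ≤ α1 → α1 ≤ α2 → α2 ≤ 1 → (T : ℝ) ≤ X → S ⊆ fr T →
    (∀ k ∈ S, ∃ w : ℕ, Real.exp ((1 - α1) * (w * ρ1)) < ‖U F P1 Q1 ρ1 w k‖) →
    (∀ k ∈ S, ∀ v : ℕ, ‖U F P2 Q2 ρ2 v k‖ ≤ Real.exp ((1 - α2) * (v * ρ2))) →
    ∑ k ∈ S, ‖UZ F P2 Q2 ρ2 X k‖ ^ 2 ≤
      X ^ 2 * (Real.log Q2 / ρ2 + 1) ^ 2 * (Real.log Q1 / ρ1 + 1) * Q1 ^ 2 *
        Real.exp (C * (l0 + 2) * Real.log (l0 + 2)) * P2 ^ (-(2 * (α2 - α1))) := by
  obtain ⟨C1, hC10, hC1⟩ := sM_moment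
  refine ⟨|Real.log C1| + 12, by positivity, ?_⟩
  intro F hF P1 Q1 P2 Q2 ρ1 ρ2 X α1 α2 l0 T S hP1 hPQ1 hQ1X hP2 hPQ2 hQX hl0 hlog hρ1 hρ11 hρ2 hρ21
    hα1 hα12 hα2 hTX hST hw hv
  set E : ℝ := Real.exp (l0 + 1) with hE
  have hEpos : 0 < E := Real.exp_pos _
  have he2 : (1 : ℝ) ≤ Real.exp 2 := Real.one_le_exp (by norm_num)
  have hP1' : 1 ≤ P1 := he2.trans hP1
  have hQ1' : 1 ≤ Q1 := hP1'.trans hPQ1
  have hQ2' : 1 ≤ Q2 := hP2.trans hPQ2
  have hX' : 1 ≤ X := hQ2'.trans hQX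
  have hlP1 : 2 ≤ Real.log P1 := by
    rw [Real.le_log_iff_exp_le (by linarith)]
    exact hP1
  have hlQ1 : 0 ≤ Real.log Q1 := Real.log_nonneg hQ1'
  have hlQ2 : 0 ≤ Real.log Q2 := Real.log_nonneg hQ2'
  set N : ℕ := nv Q2 ρ2 with hN
  set M : ℕ := nv Q1 ρ1 with hM
  have hNle : (N : ℝ) ≤ Real.log Q2 / ρ2 + 1 := by
    rw [hN]
    unfold nv
    push_cast
    have := Nat.floor_le (div_nonneg hlQ2 hρ2.le)
    linarith
  have hMle : (M : ℝ) ≤ Real.log Q1 / ρ1 + 1 := by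
    rw [hM]
    unfold nv
    push_cast
    have := Nat.floor_le (div_nonneg hlQ1 hρ1.le)
    linarith
  set R : ℝ := Real.exp ((|Real.log C1| + 12) * (l0 + 2) * Real.log (l0 + 2)) with hR
  have hRpos : 0 < R := Real.exp_pos _
  set K : ℝ := R * X ^ 2 * Q1 ^ 2 * P2 ^ (-(2 * (α2 - α1))) with hK
  have hP2pow : 0 < P2 ^ (-(2 * (α2 - α1))) := Real.rpow_pos_of_pos (by linarith) _
  have hKpos : 0 < K := by positivity
  -- bound for one pair of blocks
  have hpair : ∀ v w : ℕ, (∃ k, U F P2 Q2 ρ2 v k ≠ 0) → (∃ k, U F P1 Q1 ρ1 w k ≠ 0) →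
      ∀ S' : Finset ℤ, S' ⊆ fr T →
      (∀ k ∈ S', Real.exp ((1 - α1) * (w * ρ1)) < ‖U F P1 Q1 ρ1 w k‖) →
      ∑ k ∈ S', Real.exp ((1 - α2) * (v * ρ2)) ^ 2 *
        ‖fc F (X * Real.exp (-(v * ρ2))) k‖ ^ 2 ≤ K := by
    rintro v w ⟨k2, hk2⟩ ⟨k1, hk1⟩ S' hS' hcond
    obtain ⟨a1, a2⟩ := s2_blk_ne hk2
    obtain ⟨b1, b2⟩ := s2_blk_ne hk1
    have a1' : Real.log P2 < (v + 1) * ρ2 := by
      rw [Real.log_lt_iff_lt_exp (by linarith)]
      exact a1
    have b1' : Real.log P1 < (w + 1) * ρ1 := by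
      rw [Real.log_lt_iff_lt_exp (by linarith)]
      exact b1
    have a2' : v * ρ2 < Real.log Q2 := by
      rw [Real.lt_log_iff_exp_lt (by linarith)]
      exact a2
    have hwρ : Real.log P1 / 2 < w * ρ1 := by linarith
    have hwρ0 : 0 < w * ρ1 := by linarith
    have hvρ0 : 0 ≤ v * ρ2 := by positivity
    have hq : v * ρ2 / (w * ρ1) ≤ l0 := by
      rw [div_le_iff₀ hwρ0]
      have h2 : l0 * (Real.log P1 / 2) ≤ l0 * (w * ρ1) :=
        mul_le_mul_of_nonneg_left hwρ.le (by linarith)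
      linarith
    set l : ℕ := ⌊v * ρ2 / (w * ρ1)⌋₊ + 1 with hl
    have hlc : (l : ℝ) = (⌊v * ρ2 / (w * ρ1)⌋₊ : ℝ) + 1 := by
      rw [hl]
      push_cast
      ring
    have hfl := Nat.floor_le (div_nonneg hvρ0 hwρ0.le)
    have hfl2 := Nat.lt_floor_add_one (v * ρ2 / (w * ρ1))
    have hl1' : (l : ℝ) ≤ l0 + 1 := by
      rw [hlc]
      linarith
    have hl2' : v * ρ2 ≤ l * (w * ρ1) := by
      rw [hlc, ← div_le_iff₀ hwρ0]
      exact hfl2.le
    have hl3' : l * (w * ρ1) ≤ v * ρ2 + w * ρ1 := by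
      rw [hlc, add_mul, one_mul]
      have := (le_div_iff₀ hwρ0).1 hfl
      linarith
    have hexpw : Real.exp (w * ρ1) ^ l * (X * Real.exp (-(v * ρ2))) ≤ Q1 * X := by
      have e1 : Real.exp (w * ρ1) ^ l * (X * Real.exp (-(v * ρ2))) =
          Real.exp (l * (w * ρ1) - v * ρ2) * X := by
        rw [← Real.exp_nat_mul, mul_left_comm, ← Real.exp_add, mul_comm]
        congr 2
      rw [e1]
      refine mul_le_mul_of_nonneg_right ?_ (by linarith)
      refine le_trans (Real.exp_le_exp.2 ?_) b2.le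
      linarith
    have hexpY : Real.exp ((w + 1) * ρ1) ^ l * (X * Real.exp (-(v * ρ2))) ≤ E * Q1 * X := by
      have e1 : Real.exp ((w + 1) * ρ1) ^ l * (X * Real.exp (-(v * ρ2))) =
          Real.exp (l * ρ1) * (Real.exp (w * ρ1) ^ l * (X * Real.exp (-(v * ρ2)))) := by
        have e2 : Real.exp ((w + 1) * ρ1) ^ l = Real.exp (l * ρ1) * Real.exp (w * ρ1) ^ l := by
          rw [← Real.exp_nat_mul, ← Real.exp_nat_mul, ← Real.exp_add]
          congr 1
          ring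
        rw [e2, mul_assoc]
      rw [e1, mul_assoc E]
      refine mul_le_mul ?_ hexpw (by positivity) hEpos.le
      rw [hE]
      refine Real.exp_le_exp.2 ?_
      calc (l : ℝ) * ρ1 ≤ l * 1 := mul_le_mul_of_nonneg_left hρ11 (Nat.cast_nonneg _)
        _ ≤ l0 + 1 := by linarith
    have hY1 : 1 ≤ E * Q1 * X := by
      have h1 : 1 ≤ E := Real.one_le_exp (by linarith)
      have h2 : 1 ≤ E * Q1 := one_le_mul_of_one_le_of_one_le h1 hQ1'
      exact one_le_mul_of_one_le_of_one_le h2 hX'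
    have hmom := hC1 l F hF P1 Q1 ρ1 (X * Real.exp (-(v * ρ2))) (E * Q1 * X) T w hρ1 hρ11
      (by positivity) hY1 hexpY
    have hmom2 : ∑ k ∈ fr T, ‖U F P1 Q1 ρ1 w k ^ l * fc F (X * Real.exp (-(v * ρ2))) k‖ ^ 2 ≤
        (C1 * (144 * ((l : ℝ) + 1)) ^ l * (1 + E)) * X ^ 2 * Q1 ^ 2 := by
      refine hmom.trans ?_
      have h1 : (T : ℝ) + E * Q1 * X ≤ (1 + E) * Q1 * X := by
        have h3 : X ≤ Q1 * X := le_mul_of_one_le_left (by linarith only [hX']) hQ1'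
        linarith only [h3, hTX]
      have h2 : 0 ≤ (T : ℝ) + E * Q1 * X := by positivity
      calc C1 * (144 * ((l : ℝ) + 1)) ^ l * (T + E * Q1 * X) *
            (Real.exp (w * ρ1) ^ l * (X * Real.exp (-(v * ρ2))))
          ≤ C1 * (144 * ((l : ℝ) + 1)) ^ l * ((1 + E) * Q1 * X) * (Q1 * X) := by
            refine mul_le_mul ?_ hexpw (by positivity) (by positivity)
            exact mul_le_mul_of_nonneg_left h1 (by positivity)
        _ = (C1 * (144 * ((l : ℝ) + 1)) ^ l * (1 + E)) * X ^ 2 * Q1 ^ 2 := by ring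
    -- amplification
    have hamp : ∀ k ∈ S', Real.exp ((1 - α2) * (v * ρ2)) ^ 2 *
        ‖fc F (X * Real.exp (-(v * ρ2))) k‖ ^ 2 ≤ Real.exp (-(2 * (α2 - α1) * (v * ρ2))) *
        ‖U F P1 Q1 ρ1 w k ^ l * fc F (X * Real.exp (-(v * ρ2))) k‖ ^ 2 := by
      intro k hk
      rw [norm_mul, mul_pow, ← mul_assoc (Real.exp (-(2 * (α2 - α1) * (v * ρ2))))]
      refine mul_le_mul_of_nonneg_right ?_ (sq_nonneg _)
      have h1 : Real.exp ((1 - α1) * (v * ρ2)) ^ 2 ≤ ‖U F P1 Q1 ρ1 w k ^ l‖ ^ 2 := by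
        refine pow_le_pow_left₀ (Real.exp_pos _).le ?_ 2
        rw [norm_pow]
        calc Real.exp ((1 - α1) * (v * ρ2)) ≤ Real.exp ((1 - α1) * (w * ρ1)) ^ l := by
              rw [← Real.exp_nat_mul]
              refine Real.exp_le_exp.2 ?_
              calc (1 - α1) * (v * ρ2) ≤ (1 - α1) * (l * (w * ρ1)) :=
                    mul_le_mul_of_nonneg_left hl2' (by linarith)
                _ = l * ((1 - α1) * (w * ρ1)) := by ring
          _ ≤ ‖U F P1 Q1 ρ1 w k‖ ^ l := pow_le_pow_left₀ (Real.exp_pos _).le (hcond k hk).le l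
      calc Real.exp ((1 - α2) * (v * ρ2)) ^ 2
          = Real.exp (-(2 * (α2 - α1) * (v * ρ2))) * Real.exp ((1 - α1) * (v * ρ2)) ^ 2 := by
            rw [← Real.exp_nat_mul, ← Real.exp_nat_mul, ← Real.exp_add]
            congr 1
            push_cast
            ring
        _ ≤ _ := mul_le_mul_of_nonneg_left h1 (Real.exp_pos _).le
    have hexpP : Real.exp (-(2 * (α2 - α1) * (v * ρ2))) ≤
        Real.exp 2 * P2 ^ (-(2 * (α2 - α1))) := by
      rw [Real.rpow_def_of_pos (by linarith), ← Real.exp_add]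
      refine Real.exp_le_exp.2 ?_
      have h1 : Real.log P2 - v * ρ2 ≤ 1 := by linarith
      have h2 : (α2 - α1) * (Real.log P2 - v * ρ2) ≤ (α2 - α1) * 1 :=
        mul_le_mul_of_nonneg_left h1 (by linarith only [hα12])
      linarith only [h2, hα1, hα2]
    have hcst := sM_const C1 l0 hC10 hl0 l hl1'
    rw [← hE, ← hR] at hcst
    calc ∑ k ∈ S', Real.exp ((1 - α2) * (v * ρ2)) ^ 2 * ‖fc F (X * Real.exp (-(v * ρ2))) k‖ ^ 2
        ≤ ∑ k ∈ S', Real.exp (-(2 * (α2 - α1) * (v * ρ2))) *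
          ‖U F P1 Q1 ρ1 w k ^ l * fc F (X * Real.exp (-(v * ρ2))) k‖ ^ 2 :=
          Finset.sum_le_sum hamp
      _ ≤ ∑ k ∈ fr T, Real.exp (-(2 * (α2 - α1) * (v * ρ2))) *
          ‖U F P1 Q1 ρ1 w k ^ l * fc F (X * Real.exp (-(v * ρ2))) k‖ ^ 2 :=
          Finset.sum_le_sum_of_subset_of_nonneg hS' fun k _ _ => by positivity
      _ = Real.exp (-(2 * (α2 - α1) * (v * ρ2))) * ∑ k ∈ fr T,
          ‖U F P1 Q1 ρ1 w k ^ l * fc F (X * Real.exp (-(v * ρ2))) k‖ ^ 2 := by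
          rw [Finset.mul_sum]
      _ ≤ (Real.exp 2 * P2 ^ (-(2 * (α2 - α1)))) *
          ((C1 * (144 * ((l : ℝ) + 1)) ^ l * (1 + E)) * X ^ 2 * Q1 ^ 2) :=
          mul_le_mul hexpP hmom2 (Finset.sum_nonneg fun k _ => by positivity) (by positivity)
      _ = (C1 * (144 * ((l : ℝ) + 1)) ^ l * (1 + E) * Real.exp 2) *
            (X ^ 2 * Q1 ^ 2 * P2 ^ (-(2 * (α2 - α1)))) := by ring
      _ ≤ R * (X ^ 2 * Q1 ^ 2 * P2 ^ (-(2 * (α2 - α1)))) :=
          mul_le_mul_of_nonneg_right hcst (by positivity)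
      _ = K := by
          rw [hK]
          ring
  -- one second stage block
  have hblock : ∀ v : ℕ, ∑ k ∈ S, ‖U F P2 Q2 ρ2 v k * fc F (X * Real.exp (-(v * ρ2))) k‖ ^ 2 ≤
      M * K := by
    intro v
    classical
    by_cases hv0 : ∃ k, U F P2 Q2 ρ2 v k ≠ 0
    · have h1 : ∀ k ∈ S, ‖U F P2 Q2 ρ2 v k * fc F (X * Real.exp (-(v * ρ2))) k‖ ^ 2 ≤
          ∑ w ∈ Finset.range M, if Real.exp ((1 - α1) * (w * ρ1)) < ‖U F P1 Q1 ρ1 w k‖ then
            Real.exp ((1 - α2) * (v * ρ2)) ^ 2 *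
              ‖fc F (X * Real.exp (-(v * ρ2))) k‖ ^ 2 else 0 := by
        intro k hk
        obtain ⟨w, hwk⟩ := hw k hk
        have hUne : U F P1 Q1 ρ1 w k ≠ 0 := by
          intro h0
          rw [h0, norm_zero] at hwk
          exact absurd hwk (not_lt.2 (Real.exp_pos _).le)
        have hwM : w ∈ Finset.range M := by
          rw [Finset.mem_range, hM]
          unfold nv
          rw [Nat.lt_succ_iff]
          apply Nat.le_floor
          rw [le_div_iff₀ hρ1]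
          refine le_of_lt ?_
          rw [Real.lt_log_iff_exp_lt (by linarith)]
          exact (s2_blk_ne hUne).2
        have h2 := Finset.single_le_sum (f := fun w : ℕ =>
          if Real.exp ((1 - α1) * (w * ρ1)) < ‖U F P1 Q1 ρ1 w k‖ then
            Real.exp ((1 - α2) * (v * ρ2)) ^ 2 *
              ‖fc F (X * Real.exp (-(v * ρ2))) k‖ ^ 2 else 0)
          (fun i _ => by positivity) hwM
        refine le_trans ?_ h2
        simp only [hwk, if_true]
        rw [norm_mul, mul_pow]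
        exact mul_le_mul_of_nonneg_right (pow_le_pow_left₀ (norm_nonneg _) (hv k hk v) 2)
          (by positivity)
      refine (Finset.sum_le_sum h1).trans ?_
      rw [Finset.sum_comm]
      calc ∑ w ∈ Finset.range M, ∑ k ∈ S,
          (if Real.exp ((1 - α1) * (w * ρ1)) < ‖U F P1 Q1 ρ1 w k‖ then
            Real.exp ((1 - α2) * (v * ρ2)) ^ 2 *
              ‖fc F (X * Real.exp (-(v * ρ2))) k‖ ^ 2 else 0)
          ≤ ∑ w ∈ Finset.range M, K := by
            refine Finset.sum_le_sum fun w _ => ?_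
            rw [← Finset.sum_filter]
            by_cases hne : (S.filter fun k =>
                Real.exp ((1 - α1) * (w * ρ1)) < ‖U F P1 Q1 ρ1 w k‖).Nonempty
            · obtain ⟨k, hk⟩ := hne
              rw [Finset.mem_filter] at hk
              have hUne : U F P1 Q1 ρ1 w k ≠ 0 := by
                intro h0
                have h3 := hk.2
                rw [h0, norm_zero] at h3
                exact absurd h3 (not_lt.2 (Real.exp_pos _).le)
              exact hpair v w hv0 ⟨k, hUne⟩ _ ((Finset.filter_subset _ _).trans hST)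
                fun k hk => (Finset.mem_filter.1 hk).2
            · rw [Finset.not_nonempty_iff_eq_empty.1 hne, Finset.sum_empty]
              exact hKpos.le
        _ = M * K := by rw [Finset.sum_const, Finset.card_range, nsmul_eq_mul]
    · have h1 : ∀ k, U F P2 Q2 ρ2 v k = 0 := fun k => by
        by_contra h0
        exact hv0 ⟨k, h0⟩
      have h2 : ∑ k ∈ S, ‖U F P2 Q2 ρ2 v k * fc F (X * Real.exp (-(v * ρ2))) k‖ ^ 2 = 0 := by
        refine Finset.sum_eq_zero fun k _ => ?_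
        rw [h1 k]
        simp
      rw [h2]
      positivity
  have hNM : (0 : ℝ) ≤ Real.log Q2 / ρ2 + 1 := by positivity
  calc ∑ k ∈ S, ‖UZ F P2 Q2 ρ2 X k‖ ^ 2
      ≤ ∑ k ∈ S, N * ∑ v ∈ Finset.range N,
          ‖U F P2 Q2 ρ2 v k * fc F (X * Real.exp (-(v * ρ2))) k‖ ^ 2 := by
        refine Finset.sum_le_sum fun k _ => ?_
        unfold UZ
        rw [← hN]
        have h1 := norm_sum_le (Finset.range N)
          (fun v : ℕ => U F P2 Q2 ρ2 v k * fc F (X * Real.exp (-(v * ρ2))) k)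
        refine (pow_le_pow_left₀ (norm_nonneg _) h1 2).trans ?_
        have h2 := sq_sum_le_card_mul_sum_sq (s := Finset.range N)
          (f := fun v : ℕ => ‖U F P2 Q2 ρ2 v k * fc F (X * Real.exp (-(v * ρ2))) k‖)
        rw [Finset.card_range] at h2
        exact h2
    _ = N * ∑ v ∈ Finset.range N, ∑ k ∈ S,
          ‖U F P2 Q2 ρ2 v k * fc F (X * Real.exp (-(v * ρ2))) k‖ ^ 2 := by
        rw [← Finset.mul_sum, Finset.sum_comm]
    _ ≤ N * ∑ v ∈ Finset.range N, (M * K) := by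
        refine mul_le_mul_of_nonneg_left (Finset.sum_le_sum fun v _ => hblock v)
          (Nat.cast_nonneg _)
    _ = N * (N * (M * K)) := by
        rw [Finset.sum_const, Finset.card_range, nsmul_eq_mul]
    _ ≤ (Real.log Q2 / ρ2 + 1) * ((Real.log Q2 / ρ2 + 1) * ((Real.log Q1 / ρ1 + 1) * K)) := by
        refine mul_le_mul hNle ?_ (by positivity) hNM
        refine mul_le_mul hNle ?_ (by positivity) hNM
        exact mul_le_mul_of_nonneg_right hMle hKpos.le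
    _ = _ := by
        rw [hK]
        ring

end Pool.Agent.GaussMR

end

/-! ### from `Lib_MP_92ef0c_spm.PairsG` -/

section

/-!
# sums of greatest common divisors of products of primes of a block
-/

set_option autoImplicit false

namespace Pool.Agent.SplM

open Pool.Agent.GaussMR (pxC pxC_nonneg pxC_le)

private theorem pg_sum_insert {m : ℕ} (W : Finset ℕ) (j : Fin (m + 1)) (f : (Fin (m + 1) → ℕ) → ℝ) :
    ∑ y ∈ Fintype.piFinset (fun _ : Fin (m + 1) => W), f y =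
      ∑ a ∈ W, ∑ y ∈ Fintype.piFinset (fun _ : Fin m => W), f (Fin.insertNth j a y) := by
  rw [← Finset.sum_product']
  symm
  refine Finset.sum_bij' (fun p _ => (Fin.insertNth j p.1 p.2 : Fin (m + 1) → ℕ))
    (fun y _ => (y j, fun i => y (j.succAbove i))) ?_ ?_ ?_ ?_ ?_
  · rintro ⟨a, y⟩ hp
    rw [Finset.mem_product] at hp
    rw [Fintype.mem_piFinset]
    intro i
    have h2 := Fintype.mem_piFinset.1 hp.2
    refine Fin.succAboveCases j ?_ (fun i => ?_) i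
    · rw [Fin.insertNth_apply_same]
      exact hp.1
    · rw [Fin.insertNth_apply_succAbove]
      exact h2 i
  · intro y hy
    rw [Fintype.mem_piFinset] at hy
    rw [Finset.mem_product]
    refine ⟨hy j, ?_⟩
    rw [Fintype.mem_piFinset]
    intro i
    exact hy _
  · rintro ⟨a, y⟩ _
    refine Prod.ext ?_ ?_
    · show (Fin.insertNth j a y : Fin (m + 1) → ℕ) j = a
      simp
    · funext i
      show (Fin.insertNth j a y : Fin (m + 1) → ℕ) (j.succAbove i) = y i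
      simp
  · intro y _
    exact Fin.insertNth_self_removeNth j y
  · rintro ⟨a, y⟩ _
    rfl

private theorem pg_prod_insert {m : ℕ} (j : Fin (m + 1)) (a : ℕ) (y : Fin m → ℕ) :
    ∏ i, (Fin.insertNth j a y : Fin (m + 1) → ℕ) i = a * ∏ i, y i := by
  rw [Fin.prod_univ_succAbove _ j]
  simp

private theorem pg_card {Y : ℝ} {W : Finset ℕ} (hW : ∀ p ∈ W, p.Prime) (hY : 1 ≤ Y)
    (h : ∀ p ∈ W, (p : ℝ) ≤ 3 * Y) : (W.card : ℝ) ≤ 3 * Y := by
  have h3 : W ⊆ Finset.Icc 1 ⌊3 * Y⌋₊ := by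
    intro n hn
    rw [Finset.mem_Icc]
    exact ⟨(hW n hn).one_lt.le, Nat.le_floor (h n hn)⟩
  have h4 := Finset.card_le_card h3
  rw [Nat.card_Icc, Nat.add_sub_cancel] at h4
  calc (W.card : ℝ) ≤ ((⌊3 * Y⌋₊ : ℕ) : ℝ) := by exact_mod_cast h4
    _ ≤ 3 * Y := Nat.floor_le (by linarith)

/-- Copy of `px_main` (Lib_MP_f1a94e_mu/PairsX.lean) for natural numbers: induction on `l`, `gcd (x_0 A) B` is
`gcd A B` if `x_0` does not divide `B`, and if `x_0 = y_j` then it is at most `x_0 gcd A (B / y_j)`. -/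
theorem px_mainN (l : ℕ) : ∀ (m : ℕ) (Y : ℝ) (W : Finset ℕ), (∀ p ∈ W, p.Prime) →
    1 ≤ Y → (∀ p ∈ W, (p : ℝ) ≤ 3 * Y) →
    ∑ x ∈ Fintype.piFinset (fun _ : Fin l => W), ∑ y ∈ Fintype.piFinset (fun _ : Fin m => W),
      ((Nat.gcd (∏ i, x i) (∏ i, y i) : ℕ) : ℝ) ≤ pxC l m * Y ^ (l + m) := by
  induction l with
  | zero =>
    intro m
    intro Y W hW hY h
    simp only [pxC]
    have hc := pg_card hW hY h
    have h1 : ∀ x ∈ Fintype.piFinset (fun _ : Fin 0 => W),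
        ∑ y ∈ Fintype.piFinset (fun _ : Fin m => W),
          ((Nat.gcd (∏ i, x i) (∏ i, y i) : ℕ) : ℝ) = (W.card : ℝ) ^ m := by
      intro x _
      have h2 : ∀ y ∈ Fintype.piFinset (fun _ : Fin m => W),
          ((Nat.gcd (∏ i, x i) (∏ i, y i) : ℕ) : ℝ) = 1 := by
        intro y _
        have h3 : ∏ i, x i = 1 := by simp
        rw [h3, Nat.gcd_one_left]
        simp
      rw [Finset.sum_congr rfl h2]
      simp
    rw [Finset.sum_congr rfl h1]
    have h5 : (Fintype.piFinset (fun _ : Fin 0 => W)).card = 1 := by simp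
    rw [Finset.sum_const, h5, one_smul, Nat.zero_add, ← mul_pow]
    exact pow_le_pow_left₀ (by positivity) hc m
  | succ l ih =>
    intro m
    rcases Nat.eq_zero_or_pos m with hm | hm
    · subst hm
      intro Y W hW hY h
      simp only [pxC]
      have hc := pg_card hW hY h
      have h1 : ∀ x ∈ Fintype.piFinset (fun _ : Fin (l + 1) => W),
          ∑ y ∈ Fintype.piFinset (fun _ : Fin 0 => W),
            ((Nat.gcd (∏ i, x i) (∏ i, y i) : ℕ) : ℝ) = 1 := by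
        intro x _
        have h2 : ∀ y ∈ Fintype.piFinset (fun _ : Fin 0 => W),
            ((Nat.gcd (∏ i, x i) (∏ i, y i) : ℕ) : ℝ) = 1 := by
          intro y _
          have h3 : ∏ i, y i = 1 := by simp
          rw [h3, Nat.gcd_one_right]
          simp
        rw [Finset.sum_congr rfl h2]
        simp
      rw [Finset.sum_congr rfl h1]
      have h5 : ((Fintype.piFinset (fun _ : Fin (l + 1) => W)).card : ℝ) =
          (W.card : ℝ) ^ (l + 1) := by
        simp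
      rw [Finset.sum_const, nsmul_eq_mul, mul_one, h5, Nat.add_zero, ← mul_pow]
      exact pow_le_pow_left₀ (by positivity) hc _
    · obtain ⟨m, rfl⟩ : ∃ m', m = m' + 1 := ⟨m - 1, by omega⟩
      have H1 := ih (m + 1)
      have H2 := ih m
      have hC1 := pxC_nonneg l (m + 1)
      have hC2 := pxC_nonneg l m
      intro Y W hW hY h
      simp only [pxC]
      set C1 := pxC l (m + 1)
      set C2 := pxC l m
      have hc := pg_card hW hY h
      have I1 := H1 Y W hW hY h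
      have I2 := H2 Y W hW hY h
      -- pointwise bound
      have key : ∀ w ∈ W, ∀ x ∈ Fintype.piFinset (fun _ : Fin l => W),
          ∑ y ∈ Fintype.piFinset (fun _ : Fin (m + 1) => W),
            ((Nat.gcd (w * ∏ i, x i) (∏ i, y i) : ℕ) : ℝ) ≤
          ∑ y ∈ Fintype.piFinset (fun _ : Fin (m + 1) => W),
            ((Nat.gcd (∏ i, x i) (∏ i, y i) : ℕ) : ℝ) +
          (m + 1) * (3 * Y) * ∑ y ∈ Fintype.piFinset (fun _ : Fin m => W),
            ((Nat.gcd (∏ i, x i) (∏ i, y i) : ℕ) : ℝ) := by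
        intro w hw x hx
        have hwp : w.Prime := hW w hw
        have step : ∀ y ∈ Fintype.piFinset (fun _ : Fin (m + 1) => W),
            ((Nat.gcd (w * ∏ i, x i) (∏ i, y i) : ℕ) : ℝ) ≤
            ((Nat.gcd (∏ i, x i) (∏ i, y i) : ℕ) : ℝ) +
            ∑ j : Fin (m + 1), if y j = w then
              ((Nat.gcd (w * ∏ i, x i) (∏ i, y i) : ℕ) : ℝ) else 0 := by
          intro y hy
          by_cases hd : w ∣ ∏ i, y i
          · obtain ⟨j, _, hj⟩ := (hwp.prime.dvd_finsetProd_iff _).1 hd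
            have hj' : y j = w :=
              ((Nat.prime_dvd_prime_iff_eq hwp (hW _ (Fintype.mem_piFinset.1 hy j))).1 hj).symm
            have h3 : ((Nat.gcd (w * ∏ i, x i) (∏ i, y i) : ℕ) : ℝ) ≤
                ∑ j : Fin (m + 1), if y j = w then
                ((Nat.gcd (w * ∏ i, x i) (∏ i, y i) : ℕ) : ℝ) else 0 := by
              have h4 := Finset.single_le_sum (f := fun j : Fin (m + 1) => if y j = w then
                ((Nat.gcd (w * ∏ i, x i) (∏ i, y i) : ℕ) : ℝ) else 0)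
                (s := Finset.univ) (fun i _ => by positivity) (Finset.mem_univ j)
              simp only [hj', if_true] at h4
              exact h4
            have h5 : (0 : ℝ) ≤ ((Nat.gcd (∏ i, x i) (∏ i, y i) : ℕ) : ℝ) := by
              positivity
            linarith
          · have h3 : Nat.gcd (w * ∏ i, x i) (∏ i, y i) = Nat.gcd (∏ i, x i) (∏ i, y i) :=
              Nat.Coprime.gcd_mul_left_cancel _ ((Nat.Prime.coprime_iff_not_dvd hwp).2 hd)
            have h4 : (0 : ℝ) ≤ ∑ j : Fin (m + 1), if y j = w then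
                ((Nat.gcd (w * ∏ i, x i) (∏ i, y i) : ℕ) : ℝ) else 0 :=
              Finset.sum_nonneg (fun i _ => by positivity)
            rw [h3] at h4 ⊢
            linarith
        refine (Finset.sum_le_sum step).trans ?_
        rw [Finset.sum_add_distrib]
        have h6 : ∑ y ∈ Fintype.piFinset (fun _ : Fin (m + 1) => W), ∑ j : Fin (m + 1),
            (if y j = w then
              ((Nat.gcd (w * ∏ i, x i) (∏ i, y i) : ℕ) : ℝ) else 0) ≤
            (m + 1) * (3 * Y) * ∑ y ∈ Fintype.piFinset (fun _ : Fin m => W),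
            ((Nat.gcd (∏ i, x i) (∏ i, y i) : ℕ) : ℝ) := by
          rw [Finset.sum_comm]
          have h7 : ∀ j ∈ (Finset.univ : Finset (Fin (m + 1))),
              ∑ y ∈ Fintype.piFinset (fun _ : Fin (m + 1) => W),
              (if y j = w then
              ((Nat.gcd (w * ∏ i, x i) (∏ i, y i) : ℕ) : ℝ) else 0) ≤
              (3 * Y) * ∑ y ∈ Fintype.piFinset (fun _ : Fin m => W),
                ((Nat.gcd (∏ i, x i) (∏ i, y i) : ℕ) : ℝ) := by
            intro j _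
            rw [pg_sum_insert W j]
            have h8 : ∀ a ∈ W, ∑ y ∈ Fintype.piFinset (fun _ : Fin m => W),
                (if (Fin.insertNth j a y : Fin (m + 1) → ℕ) j = w then
                ((Nat.gcd (w * ∏ i, x i)
                  (∏ i, (Fin.insertNth j a y : Fin (m + 1) → ℕ) i) : ℕ) : ℝ) else 0) =
                if a = w then ∑ y ∈ Fintype.piFinset (fun _ : Fin m => W),
                  ((Nat.gcd (w * ∏ i, x i) (w * ∏ i, y i) : ℕ) : ℝ) else 0 := by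
              intro a _
              by_cases ha : a = w
              · subst ha
                simp only [Fin.insertNth_apply_same, if_true, pg_prod_insert]
              · simp [ha]
            rw [Finset.sum_congr rfl h8, Finset.sum_ite_eq' W w, if_pos hw, Finset.mul_sum]
            apply Finset.sum_le_sum
            intro y _
            rw [Nat.gcd_mul_left]
            push_cast
            exact mul_le_mul_of_nonneg_right (h w hw) (by positivity)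
          refine (Finset.sum_le_sum h7).trans ?_
          rw [Finset.sum_const]
          simp only [Finset.card_univ, Fintype.card_fin, nsmul_eq_mul]
          push_cast
          apply le_of_eq
          ring
        linarith
      -- sum over the first coordinate
      rw [pg_sum_insert W (0 : Fin (l + 1))]
      simp only [pg_prod_insert]
      have h11 : ∑ w ∈ W, ∑ x ∈ Fintype.piFinset (fun _ : Fin l => W),
          ∑ y ∈ Fintype.piFinset (fun _ : Fin (m + 1) => W),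
            ((Nat.gcd (w * ∏ i, x i) (∏ i, y i) : ℕ) : ℝ) ≤
          ∑ _w ∈ W, (C1 * Y ^ (l + (m + 1)) + (m + 1) * (3 * Y) * (C2 * Y ^ (l + m))) := by
        apply Finset.sum_le_sum
        intro w hw
        refine (Finset.sum_le_sum (key w hw)).trans ?_
        rw [Finset.sum_add_distrib, ← Finset.mul_sum]
        have h12 : (0 : ℝ) ≤ (m + 1) * (3 * Y) := by positivity
        exact add_le_add I1 (mul_le_mul_of_nonneg_left I2 h12)
      refine h11.trans ?_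
      rw [Finset.sum_const, nsmul_eq_mul]
      have h13 : (0 : ℝ) ≤ C1 * Y ^ (l + (m + 1)) + (m + 1) * (3 * Y) * (C2 * Y ^ (l + m)) := by
        positivity
      refine (mul_le_mul_of_nonneg_right hc h13).trans ?_
      apply le_of_eq
      have e1 : Y ^ (l + 1 + (m + 1)) = Y ^ (l + m) * Y ^ 2 := by rw [← pow_add]; ring_nf
      have e2 : Y ^ (l + (m + 1)) = Y ^ (l + m) * Y := by rw [← pow_succ]; ring_nf
      rw [e1, e2]
      ring

end Pool.Agent.SplM

end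

/-! ### from `Lib_MP_92ef0c_spm.PairsS` -/

section

/-!
# the number of coincidences
-/

set_option autoImplicit false

namespace Pool.Agent.SplM

open Pool.Agent.GaussMR (pxC pxC_nonneg pxC_le)

/-- Copy of `pairsX` (Lib_MP_f1a94e_mu/PairsX.lean): sum `pairsN1` over the tuples `x, y ∈ W^l`,
`∏ x ≥ Y ^ l`, `px_mainN l l`, `pxC_le`: `4 ^ l (C D) Y ^ (-l) (12 (l + 1)) ^ l 3 ^ l Y ^ (2 l)`. -/
theorem pairsS (l : ℕ) (Y C D : ℝ) (W : Finset ℕ) (hW : ∀ p ∈ W, p.Prime) (hY : 1 ≤ Y) (hC : 0 ≤ C) (hD : 0 ≤ D)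
    (h : ∀ p ∈ W, Y < (p : ℝ) ∧ (p : ℝ) ≤ 3 * Y) :
    (Set.ncard {q : ((Fin l → ℕ) × (ℕ × ℕ)) × ((Fin l → ℕ) × (ℕ × ℕ)) |
      (∀ i, q.1.1 i ∈ W) ∧ q.1.2 ∈ Spl.PB C D ∧ (∀ i, q.2.1 i ∈ W) ∧ q.2.2 ∈ Spl.PB C D ∧
      (∏ i, q.1.1 i) * q.1.2.1 * q.2.2.2 = (∏ i, q.2.1 i) * q.2.2.1 * q.1.2.2} : ℝ) ≤
      (144 * ((l : ℝ) + 1)) ^ l * Y ^ l * (C * D) := by
  classical
  set WW := Fintype.piFinset (fun _ : Fin l => W) with hWW
  have hset : {q : ((Fin l → ℕ) × (ℕ × ℕ)) × ((Fin l → ℕ) × (ℕ × ℕ)) |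
      (∀ i, q.1.1 i ∈ W) ∧ q.1.2 ∈ Spl.PB C D ∧ (∀ i, q.2.1 i ∈ W) ∧ q.2.2 ∈ Spl.PB C D ∧
      (∏ i, q.1.1 i) * q.1.2.1 * q.2.2.2 = (∏ i, q.2.1 i) * q.2.2.1 * q.1.2.2} =
      ((((WW ×ˢ Spl.PB C D) ×ˢ (WW ×ˢ Spl.PB C D)).filter
        (fun q => (∏ i, q.1.1 i) * q.1.2.1 * q.2.2.2 = (∏ i, q.2.1 i) * q.2.2.1 * q.1.2.2) :
        Finset (((Fin l → ℕ) × (ℕ × ℕ)) × ((Fin l → ℕ) × (ℕ × ℕ)))) :
        Set (((Fin l → ℕ) × (ℕ × ℕ)) × ((Fin l → ℕ) × (ℕ × ℕ)))) := by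
    ext q
    simp only [Set.mem_ofPred_eq, Finset.coe_filter, Finset.mem_product, hWW,
      Fintype.mem_piFinset]
    tauto
  rw [hset, Set.ncard_coe_finset]
  have hYl : (0 : ℝ) < Y ^ l := by positivity
  set K : ℝ := 2 ^ (l + l) * (C * D) / Y ^ l with hK
  have hK0 : 0 ≤ K := by rw [hK]; positivity
  have hin : ∀ x ∈ WW, ∀ y ∈ WW, ((((Spl.PB C D) ×ˢ (Spl.PB C D)).filter
      (fun q : (ℕ × ℕ) × (ℕ × ℕ) =>
      (∏ i, x i) * q.1.1 * q.2.2 = (∏ i, y i) * q.2.1 * q.1.2)).card : ℝ) ≤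
      K * ((Nat.gcd (∏ i, x i) (∏ i, y i) : ℕ) : ℝ) := by
    intro x hx y hy
    rw [hWW, Fintype.mem_piFinset] at hx hy
    have h1 := pairsN1 l x y (fun i => hW _ (hx i)) (fun i => hW _ (hy i)) C D hC hD
    refine h1.trans ?_
    have h2 : Y ^ l ≤ ((∏ i, x i : ℕ) : ℝ) := by
      push_cast
      have h3 : Y ^ l = ∏ _i : Fin l, Y := by simp
      rw [h3]
      exact Finset.prod_le_prod (fun i _ => by linarith) (fun i _ => (h _ (hx i)).1.le)
    have h4 : K * ((Nat.gcd (∏ i, x i) (∏ i, y i) : ℕ) : ℝ) =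
        2 ^ (l + l) * (C * D) * ((Nat.gcd (∏ i, x i) (∏ i, y i) : ℕ) : ℝ) / Y ^ l := by
      rw [hK]
      ring
    rw [h4]
    exact div_le_div_of_nonneg_left (by positivity) hYl h2
  have hcard : ((((WW ×ˢ Spl.PB C D) ×ˢ (WW ×ˢ Spl.PB C D)).filter
        (fun q => (∏ i, q.1.1 i) * q.1.2.1 * q.2.2.2 = (∏ i, q.2.1 i) * q.2.2.1 * q.1.2.2)).card : ℝ) =
      ∑ x ∈ WW, ∑ y ∈ WW, ((((Spl.PB C D) ×ˢ (Spl.PB C D)).filter
      (fun q : (ℕ × ℕ) × (ℕ × ℕ) =>
      (∏ i, x i) * q.1.1 * q.2.2 = (∏ i, y i) * q.2.1 * q.1.2)).card : ℝ) := by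
    simp only [Finset.card_filter, Finset.sum_product]
    push_cast
    apply Finset.sum_congr rfl
    intro x _
    rw [Finset.sum_comm']
    intro a b
    tauto
  rw [hcard]
  calc ∑ x ∈ WW, ∑ y ∈ WW, ((((Spl.PB C D) ×ˢ (Spl.PB C D)).filter
      (fun q : (ℕ × ℕ) × (ℕ × ℕ) =>
      (∏ i, x i) * q.1.1 * q.2.2 = (∏ i, y i) * q.2.1 * q.1.2)).card : ℝ)
      ≤ ∑ x ∈ WW, ∑ y ∈ WW, K * ((Nat.gcd (∏ i, x i) (∏ i, y i) : ℕ) : ℝ) :=
        Finset.sum_le_sum (fun x hx => Finset.sum_le_sum (fun y hy => hin x hx y hy))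
    _ = K * ∑ x ∈ WW, ∑ y ∈ WW, ((Nat.gcd (∏ i, x i) (∏ i, y i) : ℕ) : ℝ) := by
        rw [Finset.mul_sum]
        apply Finset.sum_congr rfl
        intro x _
        rw [Finset.mul_sum]
    _ ≤ K * (pxC l l * Y ^ (l + l)) :=
        mul_le_mul_of_nonneg_left (px_mainN l l Y W hW hY (fun p hp => (h p hp).2)) hK0
    _ ≤ K * ((12 * ((l : ℝ) + 1)) ^ l * 3 ^ l * Y ^ (l + l)) := by
        apply mul_le_mul_of_nonneg_left _ hK0
        exact mul_le_mul_of_nonneg_right (pxC_le l l) (by positivity)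
    _ = (144 * ((l : ℝ) + 1)) ^ l * Y ^ l * (C * D) := by
        have e1 : (2 : ℝ) ^ (l + l) = 4 ^ l := by
          rw [← two_mul, pow_mul]
          norm_num
        have e2 : (144 * ((l : ℝ) + 1)) ^ l = 4 ^ l * ((12 * ((l : ℝ) + 1)) ^ l * 3 ^ l) := by
          rw [← mul_pow, ← mul_pow]
          congr 1
          ring
        rw [hK, e1, e2, pow_add]
        field_simp

end Pool.Agent.SplM

end

/-! ### from `Lib_MP_92ef0c_spm.MomS` -/

section

/-!
# second moment of `(U_w)^l Ps`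
-/

set_option autoImplicit false

namespace Pool.Agent.SplM

open Pool.Agent.GaussMR (fr mem_fr nv Ls)

theorem moms_ch_prod (t : ℝ) {l : ℕ} (x : Fin l → ℕ) (hx : ∀ j, 0 < x j) {a : ℕ} (b : ℕ) (ha : 0 < a) :
    (∏ j, nit (-t) (x j)) * ch t (a, b) = ch t ((∏ j, x j) * a, b) := by
  induction l with
  | zero => simp
  | succ n ih =>
    rw [Fin.prod_univ_succ, Fin.prod_univ_succ, mul_assoc, ih (fun j => x j.succ) (fun j => hx _), mul_assoc,
      ch_mul t b (hx 0) (Nat.mul_pos (Finset.prod_pos fun j _ => hx _) ha)]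

/-- Copy of `sM_moment` (Lib_MP_f1a94e_ecc/SmallM.lean): `(Up w)^l Ps` is the sum over the family
`i = (x, z) ∈ (bk w)^l × PB C D` of `∏ f x_j · f z.1 g z.2 · ch (k/N) ((∏ x_j) z.1, z.2)` (`ch_mul`), all in the box
`e^((w+1)ρ)^l C × D`; `lsF` and `pairsS` with `Y = e^(wρ)`. -/
theorem momS : ∃ A : ℝ, 0 < A ∧ ∀ (l : ℕ) (f g : ℕ → ℂ), CMN f → (∀ n, ‖g n‖ ≤ 1) →
    ∀ (P Q ρ C D Y : ℝ) (N T w : ℕ), 0 < ρ → ρ ≤ 1 → 0 ≤ C → 0 ≤ D → 1 ≤ Y → 1 ≤ N → Real.log Y ≤ 3 * N →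
    Real.exp ((w + 1) * ρ) ^ l * (C * D) ≤ Y →
    ∑ k ∈ fr T, ‖Up f N P Q ρ w k ^ l * Ps f g C D ((k : ℝ) / N)‖ ^ 2 ≤
      A * (144 * ((l : ℝ) + 1)) ^ l * (T + N * Y) * (Real.exp (w * ρ) ^ l * (C * D)) := by
  obtain ⟨A1, hA1, h1⟩ := lsF
  refine ⟨A1, hA1, ?_⟩
  intro l f g hf hgb P Q ρ C D Y N T w hρ hρ1 hC hD hY hN hlog hle
  classical
  set s : Finset ((Fin l → ℕ) × (ℕ × ℕ)) :=
    (Fintype.piFinset fun _ : Fin l => bk P Q ρ w) ×ˢ Spl.PB C D with hs
  have hmem : ∀ i ∈ s, (∀ j, i.1 j ∈ bk P Q ρ w) ∧ i.2 ∈ Spl.PB C D := by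
    intro i hi
    rw [hs, Finset.mem_product, Fintype.mem_piFinset] at hi
    exact hi
  have hid : ∀ k : ℤ, Up f N P Q ρ w k ^ l * Ps f g C D ((k : ℝ) / N) =
      ∑ i ∈ s, ((∏ j, f (i.1 j)) * (f i.2.1 * g i.2.2)) * ch ((k : ℝ) / N) ((∏ j, i.1 j) * i.2.1, i.2.2) := by
    intro k
    have e1 : Up f N P Q ρ w k ^ l = ∑ x ∈ Fintype.piFinset (fun _ : Fin l => bk P Q ρ w),
        ∏ j, (f (x j) * nit (-((k : ℝ) / N)) (x j)) := by
      have := Finset.prod_univ_sum (fun _ : Fin l => bk P Q ρ w)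
        (fun _ (u : ℕ) => f u * nit (-((k : ℝ) / N)) u)
      rw [← this, Finset.prod_const, Finset.card_univ, Fintype.card_fin]
      rfl
    rw [e1, hs, Finset.sum_product]
    unfold Ps
    rw [Finset.sum_mul_sum]
    refine Finset.sum_congr rfl fun x hx => Finset.sum_congr rfl fun z hz => ?_
    dsimp only
    have hx' : ∀ j, 0 < x j := fun j => (bk_prime (Fintype.mem_piFinset.1 hx j)).pos
    rw [← moms_ch_prod ((k : ℝ) / N) x hx' z.2 (Spl.mem_PB.1 hz).1.1, Finset.prod_mul_distrib]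
    ring
  have hc : ∀ i ∈ s, ‖(∏ j, f (i.1 j)) * (f i.2.1 * g i.2.2)‖ ≤ 1 := by
    intro i _
    rw [norm_mul, norm_prod, norm_mul]
    exact mul_le_one₀ (Finset.prod_le_one (fun _ _ => norm_nonneg _) fun j _ => hf.bd _)
      (mul_nonneg (norm_nonneg _) (norm_nonneg _)) (mul_le_one₀ (hf.bd _) (norm_nonneg _) (hgb _))
  have hg : ∀ i ∈ s, (0 < (∏ j, i.1 j) * i.2.1 ∧
      (((∏ j, i.1 j) * i.2.1 : ℕ) : ℝ) ≤ Real.exp ((w + 1) * ρ) ^ l * C) ∧ 0 < i.2.2 ∧ (i.2.2 : ℝ) ≤ D := by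
    intro i hi
    have hi1 := (hmem i hi).1
    have hi2 := Spl.mem_PB.1 (hmem i hi).2
    refine ⟨⟨Nat.mul_pos (Finset.prod_pos fun j _ => (bk_prime (hi1 j)).pos) hi2.1.1, ?_⟩, hi2.2.1⟩
    push_cast
    refine mul_le_mul ?_ hi2.1.2 (Nat.cast_nonneg _) (by positivity)
    refine (Finset.prod_le_prod (fun j _ => Nat.cast_nonneg _) (fun j _ => (mem_bk.1 (hi1 j)).2.2)).trans ?_
    rw [Finset.prod_const, Finset.card_univ, Fintype.card_fin]
  have h3 := h1 _ s (fun i => ((∏ j, i.1 j) * i.2.1, i.2.2)) (fun i => (∏ j, f (i.1 j)) * (f i.2.1 * g i.2.2))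
    N (Real.exp ((w + 1) * ρ) ^ l * C) D Y T hN hY (by rw [mul_assoc]; exact hle) hlog hc hg
  have h4 := pairsS l (Real.exp (w * ρ)) C D (bk P Q ρ w) (fun p hp => bk_prime hp)
    (Real.one_le_exp (by positivity)) hC hD (by
      intro p hp
      have hu' := (mem_bk.1 hp).2
      refine ⟨hu'.1, hu'.2.trans ?_⟩
      have : Real.exp ((w + 1) * ρ) = Real.exp ρ * Real.exp (w * ρ) := by
        rw [← Real.exp_add]
        congr 1
        ring
      rw [this]
      have h5 : Real.exp ρ ≤ 3 :=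
        (Real.exp_le_exp.2 hρ1).trans (by linarith [Real.exp_one_lt_d9])
      exact mul_le_mul_of_nonneg_right h5 (Real.exp_pos _).le)
  have hset : {p : ((Fin l → ℕ) × (ℕ × ℕ)) × ((Fin l → ℕ) × (ℕ × ℕ)) | p.1 ∈ s ∧ p.2 ∈ s ∧
      ((∏ j, p.1.1 j) * p.1.2.1, p.1.2.2).1 * ((∏ j, p.2.1 j) * p.2.2.1, p.2.2.2).2 =
        ((∏ j, p.2.1 j) * p.2.2.1, p.2.2.2).1 * ((∏ j, p.1.1 j) * p.1.2.1, p.1.2.2).2} =
      {q : ((Fin l → ℕ) × (ℕ × ℕ)) × ((Fin l → ℕ) × (ℕ × ℕ)) |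
      (∀ i, q.1.1 i ∈ bk P Q ρ w) ∧ q.1.2 ∈ Spl.PB C D ∧ (∀ i, q.2.1 i ∈ bk P Q ρ w) ∧ q.2.2 ∈ Spl.PB C D ∧
      (∏ i, q.1.1 i) * q.1.2.1 * q.2.2.2 = (∏ i, q.2.1 i) * q.2.2.1 * q.1.2.2} := by
    ext q
    simp only [Set.mem_setOf_eq, hs, Finset.mem_product, Fintype.mem_piFinset]
    tauto
  rw [hset] at h3
  calc ∑ k ∈ fr T, ‖Up f N P Q ρ w k ^ l * Ps f g C D ((k : ℝ) / N)‖ ^ 2
      = ∑ k ∈ fr T, ‖∑ i ∈ s, ((∏ j, f (i.1 j)) * (f i.2.1 * g i.2.2)) *
          ch ((k : ℝ) / N) ((∏ j, i.1 j) * i.2.1, i.2.2)‖ ^ 2 := by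
        refine Finset.sum_congr rfl fun k _ => ?_
        rw [hid k]
    _ ≤ A1 * (T + N * Y) * ((144 * ((l : ℝ) + 1)) ^ l * Real.exp (w * ρ) ^ l * (C * D)) := by
        refine h3.trans ?_
        refine mul_le_mul_of_nonneg_left h4 ?_
        positivity
    _ = A1 * (144 * ((l : ℝ) + 1)) ^ l * (T + N * Y) * (Real.exp (w * ρ) ^ l * (C * D)) := by ring

end Pool.Agent.SplM

end

/-! ### from `Lib_MP_92ef0c_spm.SmallMS` -/

section

/-!
# from one stage to the next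
-/

set_option autoImplicit false

namespace Pool.Agent.SplM

open Pool.Agent.GaussMR (fr mem_fr nv Ls)

theorem up_blk_ne {f : ℕ → ℂ} {N : ℕ} {P Q ρ : ℝ} {v : ℕ} {k : ℤ} (h : Up f N P Q ρ v k ≠ 0) :
    P < Real.exp ((v + 1) * ρ) ∧ Real.exp (v * ρ) < Q := by
  unfold Up at h
  obtain ⟨p, hp, -⟩ := Finset.exists_ne_zero_of_sum_ne_zero h
  have h1 := mem_bk.1 hp
  have h2 := mem_pp.1 h1.1
  exact ⟨h2.2.2.1.trans_le h1.2.2, h1.2.1.trans_le h2.2.2.2⟩

/-- Copy of `smallM` (Lib_MP_f1a94e_ecc/SmallM.lean) with `momS` and an additional factor `N`. The box of block `v` is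
`C e^(-vρ2) × D`, `(C e^(-vρ2)) D ≤ X e^(-vρ2)`; `Y = e^(l0+1) Q1 X`, `log Y = l0 + 1 + log Q1 + log X ≤ 3 N`;
`T + N Y ≤ (1 + E) N Q1 X`. -/
theorem smallMS : ∃ A : ℝ, 0 < A ∧ ∀ (f g : ℕ → ℂ), CMN f → (∀ n, ‖g n‖ ≤ 1) →
    ∀ (P1 Q1 P2 Q2 ρ1 ρ2 C D X α1 α2 l0 : ℝ) (N T : ℕ) (S : Finset ℤ),
    Real.exp 2 ≤ P1 → P1 ≤ Q1 → Q1 ≤ X → 1 ≤ P2 → P2 ≤ Q2 → Q2 ≤ X → 1 ≤ l0 →
    2 * Real.log Q2 ≤ l0 * Real.log P1 →
    0 < ρ1 → ρ1 ≤ 1 → 0 < ρ2 → ρ2 ≤ 1 → 0 ≤ α1 → α1 ≤ α2 → α2 ≤ 1 → 1 ≤ N → 0 ≤ C → 0 ≤ D → C * D ≤ X →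
    l0 + 1 + Real.log Q1 + Real.log X ≤ 3 * N → (T : ℝ) ≤ N * X → S ⊆ fr T →
    (∀ k ∈ S, ∃ w : ℕ, Real.exp ((1 - α1) * (w * ρ1)) < ‖Up f N P1 Q1 ρ1 w k‖) →
    (∀ k ∈ S, ∀ v : ℕ, ‖Up f N P2 Q2 ρ2 v k‖ ≤ Real.exp ((1 - α2) * (v * ρ2))) →
    ∑ k ∈ S, ‖UZs f g N P2 Q2 ρ2 C D k‖ ^ 2 ≤
      N * X ^ 2 * (Real.log Q2 / ρ2 + 1) ^ 2 * (Real.log Q1 / ρ1 + 1) * Q1 ^ 2 *
        Real.exp (A * (l0 + 2) * Real.log (l0 + 2)) * P2 ^ (-(2 * (α2 - α1))) := by
  obtain ⟨C1, hC10, hC1⟩ := momS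
  refine ⟨|Real.log C1| + 12, by positivity, ?_⟩
  intro f g hf hg P1 Q1 P2 Q2 ρ1 ρ2 C D X α1 α2 l0 N T S hP1 hPQ1 hQ1X hP2 hPQ2 hQX hl0 hlog hρ1 hρ11 hρ2 hρ21
    hα1 hα12 hα2 hN1 hC hD hCD hlX hTX hST hw hv
  set E : ℝ := Real.exp (l0 + 1) with hE
  have hEpos : 0 < E := Real.exp_pos _
  have he2 : (1 : ℝ) ≤ Real.exp 2 := Real.one_le_exp (by norm_num)
  have hP1' : 1 ≤ P1 := he2.trans hP1
  have hQ1' : 1 ≤ Q1 := hP1'.trans hPQ1
  have hQ2' : 1 ≤ Q2 := hP2.trans hPQ2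
  have hX' : 1 ≤ X := hQ2'.trans hQX
  have hlP1 : 2 ≤ Real.log P1 := by
    rw [Real.le_log_iff_exp_le (by linarith)]
    exact hP1
  have hlQ1 : 0 ≤ Real.log Q1 := Real.log_nonneg hQ1'
  have hlQ2 : 0 ≤ Real.log Q2 := Real.log_nonneg hQ2'
  set NV : ℕ := nv Q2 ρ2 with hNV
  set M : ℕ := nv Q1 ρ1 with hM
  have hNle : (NV : ℝ) ≤ Real.log Q2 / ρ2 + 1 := by
    rw [hNV]
    unfold nv
    push_cast
    have := Nat.floor_le (div_nonneg hlQ2 hρ2.le)
    linarith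
  have hMle : (M : ℝ) ≤ Real.log Q1 / ρ1 + 1 := by
    rw [hM]
    unfold nv
    push_cast
    have := Nat.floor_le (div_nonneg hlQ1 hρ1.le)
    linarith
  set R : ℝ := Real.exp ((|Real.log C1| + 12) * (l0 + 2) * Real.log (l0 + 2)) with hR
  have hRpos : 0 < R := Real.exp_pos _
  have hNpos : (0 : ℝ) < N := by exact_mod_cast hN1
  have hN1' : (1 : ℝ) ≤ N := by exact_mod_cast hN1
  set K : ℝ := R * (N * X ^ 2) * Q1 ^ 2 * P2 ^ (-(2 * (α2 - α1))) with hK
  have hP2pow : 0 < P2 ^ (-(2 * (α2 - α1))) := Real.rpow_pos_of_pos (by linarith) _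
  have hKpos : 0 < K := by positivity
  -- bound for one pair of blocks
  have hpair : ∀ v w : ℕ, (∃ k, Up f N P2 Q2 ρ2 v k ≠ 0) → (∃ k, Up f N P1 Q1 ρ1 w k ≠ 0) →
      ∀ S' : Finset ℤ, S' ⊆ fr T →
      (∀ k ∈ S', Real.exp ((1 - α1) * (w * ρ1)) < ‖Up f N P1 Q1 ρ1 w k‖) →
      ∑ k ∈ S', Real.exp ((1 - α2) * (v * ρ2)) ^ 2 *
        ‖Ps f g (C * Real.exp (-(v * ρ2))) D ((k : ℝ) / N)‖ ^ 2 ≤ K := by
    rintro v w ⟨k2, hk2⟩ ⟨k1, hk1⟩ S' hS' hcond
    obtain ⟨a1, a2⟩ := up_blk_ne hk2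
    obtain ⟨b1, b2⟩ := up_blk_ne hk1
    have a1' : Real.log P2 < (v + 1) * ρ2 := by
      rw [Real.log_lt_iff_lt_exp (by linarith)]
      exact a1
    have b1' : Real.log P1 < (w + 1) * ρ1 := by
      rw [Real.log_lt_iff_lt_exp (by linarith)]
      exact b1
    have a2' : v * ρ2 < Real.log Q2 := by
      rw [Real.lt_log_iff_exp_lt (by linarith)]
      exact a2
    have hwρ : Real.log P1 / 2 < w * ρ1 := by linarith
    have hwρ0 : 0 < w * ρ1 := by linarith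
    have hvρ0 : 0 ≤ v * ρ2 := by positivity
    have hq : v * ρ2 / (w * ρ1) ≤ l0 := by
      rw [div_le_iff₀ hwρ0]
      have h2 : l0 * (Real.log P1 / 2) ≤ l0 * (w * ρ1) :=
        mul_le_mul_of_nonneg_left hwρ.le (by linarith)
      linarith
    set l : ℕ := ⌊v * ρ2 / (w * ρ1)⌋₊ + 1 with hl
    have hlc : (l : ℝ) = (⌊v * ρ2 / (w * ρ1)⌋₊ : ℝ) + 1 := by
      rw [hl]
      push_cast
      ring
    have hfl := Nat.floor_le (div_nonneg hvρ0 hwρ0.le)
    have hfl2 := Nat.lt_floor_add_one (v * ρ2 / (w * ρ1))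
    have hl1' : (l : ℝ) ≤ l0 + 1 := by
      rw [hlc]
      linarith
    have hl2' : v * ρ2 ≤ l * (w * ρ1) := by
      rw [hlc, ← div_le_iff₀ hwρ0]
      exact hfl2.le
    have hl3' : l * (w * ρ1) ≤ v * ρ2 + w * ρ1 := by
      rw [hlc, add_mul, one_mul]
      have := (le_div_iff₀ hwρ0).1 hfl
      linarith
    have hexpw : Real.exp (w * ρ1) ^ l * (C * Real.exp (-(v * ρ2)) * D) ≤ Q1 * X := by
      have e1 : Real.exp (w * ρ1) ^ l * (C * Real.exp (-(v * ρ2)) * D) =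
          Real.exp (l * (w * ρ1) - v * ρ2) * (C * D) := by
        have e0 : Real.exp (w * ρ1) ^ l * Real.exp (-(v * ρ2)) = Real.exp (l * (w * ρ1) - v * ρ2) := by
          rw [← Real.exp_nat_mul, ← Real.exp_add]
          congr 1
        rw [← e0]
        ring
      rw [e1]
      refine mul_le_mul ?_ hCD (mul_nonneg hC hD) (by linarith)
      refine le_trans (Real.exp_le_exp.2 ?_) b2.le
      linarith
    have hexpY : Real.exp ((w + 1) * ρ1) ^ l * (C * Real.exp (-(v * ρ2)) * D) ≤ E * Q1 * X := by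
      have e1 : Real.exp ((w + 1) * ρ1) ^ l * (C * Real.exp (-(v * ρ2)) * D) =
          Real.exp (l * ρ1) * (Real.exp (w * ρ1) ^ l * (C * Real.exp (-(v * ρ2)) * D)) := by
        have e2 : Real.exp ((w + 1) * ρ1) ^ l = Real.exp (l * ρ1) * Real.exp (w * ρ1) ^ l := by
          rw [← Real.exp_nat_mul, ← Real.exp_nat_mul, ← Real.exp_add]
          congr 1
          ring
        rw [e2, mul_assoc]
      rw [e1, mul_assoc E]
      refine mul_le_mul ?_ hexpw (by positivity) hEpos.le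
      rw [hE]
      refine Real.exp_le_exp.2 ?_
      calc (l : ℝ) * ρ1 ≤ l * 1 := mul_le_mul_of_nonneg_left hρ11 (Nat.cast_nonneg _)
        _ ≤ l0 + 1 := by linarith
    have hY1 : 1 ≤ E * Q1 * X := by
      have h1 : 1 ≤ E := Real.one_le_exp (by linarith)
      have h2 : 1 ≤ E * Q1 := one_le_mul_of_one_le_of_one_le h1 hQ1'
      exact one_le_mul_of_one_le_of_one_le h2 hX'
    have hY3 : Real.log (E * Q1 * X) ≤ 3 * N := by
      have hEQ : 0 < E * Q1 := by positivity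
      rw [Real.log_mul hEQ.ne' (by linarith), Real.log_mul hEpos.ne' (by linarith), hE, Real.log_exp]
      linarith
    have hmom := hC1 l f g hf hg P1 Q1 ρ1 (C * Real.exp (-(v * ρ2))) D (E * Q1 * X) N T w hρ1 hρ11
      (by positivity) hD hY1 hN1 hY3 hexpY
    have hmom2 : ∑ k ∈ fr T, ‖Up f N P1 Q1 ρ1 w k ^ l * Ps f g (C * Real.exp (-(v * ρ2))) D ((k : ℝ) / N)‖ ^ 2 ≤
        (C1 * (144 * ((l : ℝ) + 1)) ^ l * (1 + E)) * (N * X ^ 2) * Q1 ^ 2 := by
      refine hmom.trans ?_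
      have h1 : (T : ℝ) + N * (E * Q1 * X) ≤ N * ((1 + E) * Q1 * X) := by
        have h3 : X ≤ Q1 * X := le_mul_of_one_le_left (zero_le_one.trans hX') hQ1'
        have h4 : (N : ℝ) * X ≤ N * (Q1 * X) := mul_le_mul_of_nonneg_left h3 hNpos.le
        have h5 : (N : ℝ) * ((1 + E) * Q1 * X) = N * (Q1 * X) + N * (E * Q1 * X) := by ring
        rw [h5]
        linarith
      have h2 : 0 ≤ (T : ℝ) + N * (E * Q1 * X) := by positivity
      calc C1 * (144 * ((l : ℝ) + 1)) ^ l * (T + N * (E * Q1 * X)) *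
            (Real.exp (w * ρ1) ^ l * (C * Real.exp (-(v * ρ2)) * D))
          ≤ C1 * (144 * ((l : ℝ) + 1)) ^ l * (N * ((1 + E) * Q1 * X)) * (Q1 * X) := by
            refine mul_le_mul ?_ hexpw (by positivity) (by positivity)
            exact mul_le_mul_of_nonneg_left h1 (by positivity)
        _ = (C1 * (144 * ((l : ℝ) + 1)) ^ l * (1 + E)) * (N * X ^ 2) * Q1 ^ 2 := by ring
    -- amplification
    have hamp : ∀ k ∈ S', Real.exp ((1 - α2) * (v * ρ2)) ^ 2 *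
        ‖Ps f g (C * Real.exp (-(v * ρ2))) D ((k : ℝ) / N)‖ ^ 2 ≤ Real.exp (-(2 * (α2 - α1) * (v * ρ2))) *
        ‖Up f N P1 Q1 ρ1 w k ^ l * Ps f g (C * Real.exp (-(v * ρ2))) D ((k : ℝ) / N)‖ ^ 2 := by
      intro k hk
      rw [norm_mul, mul_pow, ← mul_assoc (Real.exp (-(2 * (α2 - α1) * (v * ρ2))))]
      refine mul_le_mul_of_nonneg_right ?_ (sq_nonneg _)
      have h1 : Real.exp ((1 - α1) * (v * ρ2)) ^ 2 ≤ ‖Up f N P1 Q1 ρ1 w k ^ l‖ ^ 2 := by
        refine pow_le_pow_left₀ (Real.exp_pos _).le ?_ 2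
        rw [norm_pow]
        calc Real.exp ((1 - α1) * (v * ρ2)) ≤ Real.exp ((1 - α1) * (w * ρ1)) ^ l := by
              rw [← Real.exp_nat_mul]
              refine Real.exp_le_exp.2 ?_
              calc (1 - α1) * (v * ρ2) ≤ (1 - α1) * (l * (w * ρ1)) :=
                    mul_le_mul_of_nonneg_left hl2' (by linarith)
                _ = l * ((1 - α1) * (w * ρ1)) := by ring
          _ ≤ ‖Up f N P1 Q1 ρ1 w k‖ ^ l := pow_le_pow_left₀ (Real.exp_pos _).le (hcond k hk).le l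
      calc Real.exp ((1 - α2) * (v * ρ2)) ^ 2
          = Real.exp (-(2 * (α2 - α1) * (v * ρ2))) * Real.exp ((1 - α1) * (v * ρ2)) ^ 2 := by
            rw [← Real.exp_nat_mul, ← Real.exp_nat_mul, ← Real.exp_add]
            congr 1
            push_cast
            ring
        _ ≤ _ := mul_le_mul_of_nonneg_left h1 (Real.exp_pos _).le
    have hexpP : Real.exp (-(2 * (α2 - α1) * (v * ρ2))) ≤
        Real.exp 2 * P2 ^ (-(2 * (α2 - α1))) := by
      rw [Real.rpow_def_of_pos (by linarith), ← Real.exp_add]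
      refine Real.exp_le_exp.2 ?_
      have h1 : Real.log P2 - v * ρ2 ≤ 1 := by linarith
      have h2 : (α2 - α1) * (Real.log P2 - v * ρ2) ≤ (α2 - α1) * 1 :=
        mul_le_mul_of_nonneg_left h1 (by linarith)
      have h3 : α2 - α1 ≤ 1 := by linarith
      have h4 : 0 ≤ 2 * ((α2 - α1) * 1 - (α2 - α1) * (Real.log P2 - v * ρ2)) + 2 * (1 - (α2 - α1)) := by
        linarith
      calc -(2 * (α2 - α1) * (v * ρ2)) ≤ -(2 * (α2 - α1) * (v * ρ2)) +
            (2 * ((α2 - α1) * 1 - (α2 - α1) * (Real.log P2 - v * ρ2)) + 2 * (1 - (α2 - α1))) :=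
            le_add_of_nonneg_right h4
        _ = 2 + Real.log P2 * (-(2 * (α2 - α1))) := by ring
    have hcst := GaussMR.sM_const C1 l0 hC10 hl0 l hl1'
    rw [← hE, ← hR] at hcst
    calc ∑ k ∈ S', Real.exp ((1 - α2) * (v * ρ2)) ^ 2 * ‖Ps f g (C * Real.exp (-(v * ρ2))) D ((k : ℝ) / N)‖ ^ 2
        ≤ ∑ k ∈ S', Real.exp (-(2 * (α2 - α1) * (v * ρ2))) *
          ‖Up f N P1 Q1 ρ1 w k ^ l * Ps f g (C * Real.exp (-(v * ρ2))) D ((k : ℝ) / N)‖ ^ 2 :=
          Finset.sum_le_sum hamp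
      _ ≤ ∑ k ∈ fr T, Real.exp (-(2 * (α2 - α1) * (v * ρ2))) *
          ‖Up f N P1 Q1 ρ1 w k ^ l * Ps f g (C * Real.exp (-(v * ρ2))) D ((k : ℝ) / N)‖ ^ 2 :=
          Finset.sum_le_sum_of_subset_of_nonneg hS' fun k _ _ => by positivity
      _ = Real.exp (-(2 * (α2 - α1) * (v * ρ2))) * ∑ k ∈ fr T,
          ‖Up f N P1 Q1 ρ1 w k ^ l * Ps f g (C * Real.exp (-(v * ρ2))) D ((k : ℝ) / N)‖ ^ 2 := by
          rw [Finset.mul_sum]
      _ ≤ (Real.exp 2 * P2 ^ (-(2 * (α2 - α1)))) *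
          ((C1 * (144 * ((l : ℝ) + 1)) ^ l * (1 + E)) * (N * X ^ 2) * Q1 ^ 2) :=
          mul_le_mul hexpP hmom2 (Finset.sum_nonneg fun k _ => by positivity) (by positivity)
      _ = (C1 * (144 * ((l : ℝ) + 1)) ^ l * (1 + E) * Real.exp 2) *
            (N * X ^ 2 * Q1 ^ 2 * P2 ^ (-(2 * (α2 - α1)))) := by ring
      _ ≤ R * (N * X ^ 2 * Q1 ^ 2 * P2 ^ (-(2 * (α2 - α1)))) :=
          mul_le_mul_of_nonneg_right hcst (by positivity)
      _ = K := by
          rw [hK]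
          ring
  -- one second stage block
  have hblock : ∀ v : ℕ, ∑ k ∈ S, ‖Up f N P2 Q2 ρ2 v k * Ps f g (C * Real.exp (-(v * ρ2))) D ((k : ℝ) / N)‖ ^ 2 ≤
      M * K := by
    intro v
    classical
    by_cases hv0 : ∃ k, Up f N P2 Q2 ρ2 v k ≠ 0
    · have h1 : ∀ k ∈ S, ‖Up f N P2 Q2 ρ2 v k * Ps f g (C * Real.exp (-(v * ρ2))) D ((k : ℝ) / N)‖ ^ 2 ≤
          ∑ w ∈ Finset.range M, if Real.exp ((1 - α1) * (w * ρ1)) < ‖Up f N P1 Q1 ρ1 w k‖ then
            Real.exp ((1 - α2) * (v * ρ2)) ^ 2 *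
              ‖Ps f g (C * Real.exp (-(v * ρ2))) D ((k : ℝ) / N)‖ ^ 2 else 0 := by
        intro k hk
        obtain ⟨w, hwk⟩ := hw k hk
        have hUne : Up f N P1 Q1 ρ1 w k ≠ 0 := by
          intro h0
          rw [h0, norm_zero] at hwk
          exact absurd hwk (not_lt.2 (Real.exp_pos _).le)
        have hwM : w ∈ Finset.range M := by
          rw [Finset.mem_range, hM]
          unfold nv
          rw [Nat.lt_succ_iff]
          apply Nat.le_floor
          rw [le_div_iff₀ hρ1]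
          refine le_of_lt ?_
          rw [Real.lt_log_iff_exp_lt (by linarith)]
          exact (up_blk_ne hUne).2
        have h2 := Finset.single_le_sum (f := fun w : ℕ =>
          if Real.exp ((1 - α1) * (w * ρ1)) < ‖Up f N P1 Q1 ρ1 w k‖ then
            Real.exp ((1 - α2) * (v * ρ2)) ^ 2 *
              ‖Ps f g (C * Real.exp (-(v * ρ2))) D ((k : ℝ) / N)‖ ^ 2 else 0)
          (fun i _ => by positivity) hwM
        refine le_trans ?_ h2
        simp only [hwk, if_true]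
        rw [norm_mul, mul_pow]
        exact mul_le_mul_of_nonneg_right (pow_le_pow_left₀ (norm_nonneg _) (hv k hk v) 2)
          (by positivity)
      refine (Finset.sum_le_sum h1).trans ?_
      rw [Finset.sum_comm]
      calc ∑ w ∈ Finset.range M, ∑ k ∈ S,
          (if Real.exp ((1 - α1) * (w * ρ1)) < ‖Up f N P1 Q1 ρ1 w k‖ then
            Real.exp ((1 - α2) * (v * ρ2)) ^ 2 *
              ‖Ps f g (C * Real.exp (-(v * ρ2))) D ((k : ℝ) / N)‖ ^ 2 else 0)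
          ≤ ∑ w ∈ Finset.range M, K := by
            refine Finset.sum_le_sum fun w _ => ?_
            rw [← Finset.sum_filter]
            by_cases hne : (S.filter fun k =>
                Real.exp ((1 - α1) * (w * ρ1)) < ‖Up f N P1 Q1 ρ1 w k‖).Nonempty
            · obtain ⟨k, hk⟩ := hne
              rw [Finset.mem_filter] at hk
              have hUne : Up f N P1 Q1 ρ1 w k ≠ 0 := by
                intro h0
                have h3 := hk.2
                rw [h0, norm_zero] at h3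
                exact absurd h3 (not_lt.2 (Real.exp_pos _).le)
              exact hpair v w hv0 ⟨k, hUne⟩ _ ((Finset.filter_subset _ _).trans hST)
                fun k hk => (Finset.mem_filter.1 hk).2
            · rw [Finset.not_nonempty_iff_eq_empty.1 hne, Finset.sum_empty]
              exact hKpos.le
        _ = M * K := by rw [Finset.sum_const, Finset.card_range, nsmul_eq_mul]
    · have h1 : ∀ k, Up f N P2 Q2 ρ2 v k = 0 := fun k => by
        by_contra h0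
        exact hv0 ⟨k, h0⟩
      have h2 : ∑ k ∈ S, ‖Up f N P2 Q2 ρ2 v k * Ps f g (C * Real.exp (-(v * ρ2))) D ((k : ℝ) / N)‖ ^ 2 = 0 := by
        refine Finset.sum_eq_zero fun k _ => ?_
        rw [h1 k]
        simp
      rw [h2]
      positivity
  have hNM : (0 : ℝ) ≤ Real.log Q2 / ρ2 + 1 := by positivity
  calc ∑ k ∈ S, ‖UZs f g N P2 Q2 ρ2 C D k‖ ^ 2
      ≤ ∑ k ∈ S, NV * ∑ v ∈ Finset.range NV,
          ‖Up f N P2 Q2 ρ2 v k * Ps f g (C * Real.exp (-(v * ρ2))) D ((k : ℝ) / N)‖ ^ 2 := by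
        refine Finset.sum_le_sum fun k _ => ?_
        unfold UZs
        rw [← hNV]
        have h1 := norm_sum_le (Finset.range NV)
          (fun v : ℕ => Up f N P2 Q2 ρ2 v k * Ps f g (C * Real.exp (-(v * ρ2))) D ((k : ℝ) / N))
        refine (pow_le_pow_left₀ (norm_nonneg _) h1 2).trans ?_
        have h2 := sq_sum_le_card_mul_sum_sq (s := Finset.range NV)
          (f := fun v : ℕ => ‖Up f N P2 Q2 ρ2 v k * Ps f g (C * Real.exp (-(v * ρ2))) D ((k : ℝ) / N)‖)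
        rw [Finset.card_range] at h2
        exact h2
    _ = NV * ∑ v ∈ Finset.range NV, ∑ k ∈ S,
          ‖Up f N P2 Q2 ρ2 v k * Ps f g (C * Real.exp (-(v * ρ2))) D ((k : ℝ) / N)‖ ^ 2 := by
        rw [← Finset.mul_sum, Finset.sum_comm]
    _ ≤ NV * ∑ v ∈ Finset.range NV, (M * K) := by
        refine mul_le_mul_of_nonneg_left (Finset.sum_le_sum fun v _ => hblock v)
          (Nat.cast_nonneg _)
    _ = NV * (NV * (M * K)) := by
        rw [Finset.sum_const, Finset.card_range, nsmul_eq_mul]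
    _ ≤ (Real.log Q2 / ρ2 + 1) * ((Real.log Q2 / ρ2 + 1) * ((Real.log Q1 / ρ1 + 1) * K)) := by
        refine mul_le_mul hNle ?_ (by positivity) hNM
        refine mul_le_mul hNle ?_ (by positivity) hNM
        exact mul_le_mul_of_nonneg_right hMle hKpos.le
    _ = _ := by
        rw [hK]
        ring


end Pool.Agent.SplM

end
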