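import Pool.Agent.Lib_MP_92ef0c_m.M02

/-!
# MP_92ef0c_nt, split pairs: merged library part M23

Concatenation of smaller files (each in its own section), only to save build time.
-/

/-! ### from `Lib_MP_f1a94e_aq.CopA` -/

section

/-!
# Piece COPA: pairs in a congruence class, hyperbolic region
-/

set_option autoImplicit false

namespace Pool.Agent.OmAll

open Filter

/-- pairs without the coprimality condition -/
def cop0 (M : ℕ) (b b' : ℤ) (s t Y : ℝ) : Set (ℤ × ℤ) :=
  {r | 0 < r.1 ∧ 0 < r.2 ∧ (M : ℤ) ∣ r.1 - b ∧ (M : ℤ) ∣ r.2 - b' ∧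
    ((r.1 * r.2 : ℤ) : ℝ) ≤ Y ∧ Real.exp s * (r.1 : ℝ) ^ 2 ≤ (r.2 : ℝ) ^ 2 ∧
    (r.2 : ℝ) ^ 2 < Real.exp t * (r.1 : ℝ) ^ 2}

namespace CopA

/-- integers of a class mod `M` in an interval -/
theorem card_class (M : ℕ) (hM : 0 < M) (b : ℤ) {u v : ℝ} (huv : u ≤ v) :
    |((((Finset.Ioc ⌊u⌋ ⌊v⌋).filter (fun r : ℤ => (M : ℤ) ∣ r - b)).card : ℕ) : ℝ) -
      (v - u) / M| ≤ 1 := by
  have hMr : (0 : ℝ) < M := by exact_mod_cast hM
  have hMz : (0 : ℤ) < M := by exact_mod_cast hM
  have himg : (Finset.Ioc ⌊u⌋ ⌊v⌋).filter (fun r : ℤ => (M : ℤ) ∣ r - b) =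
      (Finset.Ioc ⌊(u - b) / M⌋ ⌊(v - b) / M⌋).image (fun q : ℤ => b + M * q) := by
    ext r
    simp only [Finset.mem_filter, Finset.mem_Ioc, Finset.mem_image]
    constructor
    · rintro ⟨⟨h1, h2⟩, q, hq⟩
      refine ⟨q, ⟨?_, ?_⟩, by linarith⟩
      · rw [Int.floor_lt] at h1 ⊢
        rw [div_lt_iff₀ hMr]
        have : (r : ℝ) - b = M * q := by exact_mod_cast hq
        linarith
      · rw [Int.le_floor] at h2 ⊢
        rw [le_div_iff₀ hMr]
        have : (r : ℝ) - b = M * q := by exact_mod_cast hq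
        linarith
    · rintro ⟨q, ⟨h1, h2⟩, rfl⟩
      refine ⟨⟨?_, ?_⟩, ⟨q, by ring⟩⟩
      · rw [Int.floor_lt] at h1 ⊢
        rw [div_lt_iff₀ hMr] at h1
        push_cast
        linarith
      · rw [Int.le_floor] at h2 ⊢
        rw [le_div_iff₀ hMr] at h2
        push_cast
        linarith
  have hinj : Function.Injective (fun q : ℤ => b + M * q) := by
    intro q q' h
    have h1 : (M : ℤ) * q = M * q' := by simpa using h
    exact mul_left_cancel₀ hMz.ne' h1
  rw [himg, Finset.card_image_of_injective _ hinj, Int.card_Ioc]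
  have hle : ⌊(u - b) / M⌋ ≤ ⌊(v - b) / M⌋ :=
    Int.floor_le_floor (div_le_div_of_nonneg_right (by linarith) hMr.le)
  have hcast : (((⌊(v - b) / M⌋ - ⌊(u - b) / M⌋).toNat : ℕ) : ℝ) =
      (⌊(v - b) / M⌋ : ℝ) - ⌊(u - b) / M⌋ := by
    have h1 : (((⌊(v - b) / M⌋ - ⌊(u - b) / M⌋).toNat : ℕ) : ℤ) =
        ⌊(v - b) / M⌋ - ⌊(u - b) / M⌋ := Int.toNat_of_nonneg (by linarith)
    have h2 : (((⌊(v - b) / M⌋ - ⌊(u - b) / M⌋).toNat : ℕ) : ℝ) =
        ((((⌊(v - b) / M⌋ - ⌊(u - b) / M⌋).toNat : ℕ) : ℤ) : ℝ) := by push_cast; rfl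
    rw [h2, h1]
    push_cast
    rfl
  rw [hcast]
  have e : (v - u) / M = (v - b) / M - (u - b) / M := by ring
  rw [e, abs_le]
  have a1 := Int.floor_le ((v - b) / (M : ℝ))
  have a2 := Int.lt_floor_add_one ((v - b) / (M : ℝ))
  have a3 := Int.floor_le ((u - b) / (M : ℝ))
  have a4 := Int.lt_floor_add_one ((u - b) / (M : ℝ))
  constructor <;> linarith

/-- the upper end of the interval for the first coordinate -/
noncomputable def hf (lam Y x : ℝ) : ℝ := min (x / lam) (Y / x)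

theorem hf_lip {lam Y x y : ℝ} (hlam : 0 < lam) (hY : 0 < Y) (hx : 0 ≤ x) (hxy : x ≤ y) :
    |hf lam Y y - hf lam Y x| ≤ (y - x) / lam := by
  have hx' : hf lam Y x ≤ x / lam := min_le_left _ _
  have hy' : hf lam Y y ≤ y / lam := min_le_left _ _
  have e0 : (y - x) / lam = y / lam - x / lam := by ring
  rw [abs_le]
  constructor
  · -- lower bound
    have h1 : x / lam ≤ y / lam := div_le_div_of_nonneg_right hxy hlam.le
    have h2 : hf lam Y x - (y - x) / lam ≤ hf lam Y y := by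
      apply le_min
      · rw [e0]; linarith
      · rcases hx.eq_or_lt with h0 | h0
        · have hx0 : hf lam Y x ≤ 0 := by rw [← h0] at hx'; simpa [← h0] using hx'
          have h3 : 0 ≤ (y - x) / lam := div_nonneg (by linarith) hlam.le
          have h4 : 0 ≤ Y / y := div_nonneg hY.le (by linarith)
          linarith
        · have hy0 : 0 < y := lt_of_lt_of_le h0 hxy
          rcases le_or_gt (y ^ 2) (lam * Y) with h3 | h3
          · have h4 : y / lam ≤ Y / y := by
              rw [div_le_div_iff₀ hlam hy0]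
              nlinarith
            have h5 : 0 ≤ (y - x) / lam := div_nonneg (by linarith) hlam.le
            linarith
          · rcases le_or_gt (lam * Y) (x ^ 2) with h4 | h4
            · have h5 : hf lam Y x ≤ Y / x := min_le_right _ _
              have h6 : Y / x - Y / y ≤ (y - x) / lam := by
                have e : Y / x - Y / y = (Y * (y - x)) / (x * y) := by
                  field_simp
                rw [e, div_le_div_iff₀ (by positivity) hlam]
                have h7 : lam * Y ≤ x * y := by nlinarith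
                nlinarith
              linarith
            · have h5 : x / lam - (y - x) / lam ≤ Y / y := by
                have e : x / lam - (y - x) / lam = (2 * x - y) / lam := by ring
                rw [e, div_le_div_iff₀ hlam hy0]
                nlinarith [sq_nonneg (x - y)]
              linarith
    linarith
  · -- upper bound
    have h2 : hf lam Y y - (y - x) / lam ≤ hf lam Y x := by
      apply le_min
      · rw [e0]; linarith
      · rcases hx.eq_or_lt with h0 | h0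
        · rw [← h0, div_zero, sub_zero]
          linarith
        · have h3 : hf lam Y y ≤ Y / y := min_le_right _ _
          have h4 : Y / y ≤ Y / x := div_le_div_of_nonneg_left hY.le h0 hxy
          have h5 : 0 ≤ (y - x) / lam := div_nonneg (by linarith) hlam.le
          linarith
    linarith

/-- the length of the interval for the first coordinate -/
noncomputable def ff (lam mu Y x : ℝ) : ℝ := hf lam Y x - x / mu

theorem ff_lip {lam mu Y x y : ℝ} (hlam : 0 < lam) (hmu : 0 < mu) (hY : 0 < Y) (hx : 0 ≤ x)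
    (hxy : x ≤ y) : |ff lam mu Y y - ff lam mu Y x| ≤ (1 / lam + 1 / mu) * (y - x) := by
  have h1 := hf_lip hlam hY hx hxy
  have h2 : ff lam mu Y y - ff lam mu Y x = (hf lam Y y - hf lam Y x) - (y - x) / mu := by
    unfold ff; ring
  have h3 : |(y - x) / mu| = (y - x) / mu := abs_of_nonneg (div_nonneg (by linarith) hmu.le)
  rw [h2]
  calc |hf lam Y y - hf lam Y x - (y - x) / mu|
      ≤ |hf lam Y y - hf lam Y x| + |(y - x) / mu| := abs_sub _ _
    _ ≤ (y - x) / lam + (y - x) / mu := by rw [h3]; linarith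
    _ = (1 / lam + 1 / mu) * (y - x) := by ring

theorem lip_cont {g : ℝ → ℝ} {L : ℝ} (hL : 0 ≤ L)
    (hg : ∀ x y, 0 ≤ x → x ≤ y → |g y - g x| ≤ L * (y - x)) : ContinuousOn g (Set.Ici 0) := by
  have : LipschitzOnWith (Real.toNNReal L) g (Set.Ici 0) := by
    apply LipschitzOnWith.of_dist_le_mul
    intro x hx y hy
    rw [Real.coe_toNNReal L hL, Real.dist_eq, Real.dist_eq]
    rcases le_total x y with h | h
    · have := hg x y hx h
      rw [abs_sub_comm (g x), abs_sub_comm x, abs_of_nonneg (by linarith : 0 ≤ y - x)]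
      exact this
    · have := hg y x hy h
      rw [abs_of_nonneg (by linarith : 0 ≤ x - y)]
      exact this
  exact this.continuousOn

theorem lip_int {g : ℝ → ℝ} {L : ℝ} (hL : 0 ≤ L)
    (hg : ∀ x y, 0 ≤ x → x ≤ y → |g y - g x| ≤ L * (y - x)) {a b : ℝ} (ha : 0 ≤ a)
    (hb : 0 ≤ b) : IntervalIntegrable g MeasureTheory.volume a b := by
  apply ContinuousOn.intervalIntegrable
  apply (lip_cont hL hg).mono
  intro x hx
  rw [Set.mem_uIcc] at hx
  rw [Set.mem_Ici]
  rcases hx with h | h <;> linarith [h.1]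

/-- sum and integral of a Lipschitz function -/
theorem sum_int {g : ℝ → ℝ} {L : ℝ} (hL : 0 ≤ L)
    (hg : ∀ x y, 0 ≤ x → x ≤ y → |g y - g x| ≤ L * (y - x)) (B : ℕ) :
    |∑ k ∈ Finset.range B, g ((k : ℝ) + 1) - ∫ x in (0 : ℝ)..B, g x| ≤ L * B := by
  induction B with
  | zero => simp
  | succ B ih =>
    rw [Finset.sum_range_succ]
    have hB : (0 : ℝ) ≤ B := Nat.cast_nonneg B
    have h1 : ∫ x in (0 : ℝ)..((B + 1 : ℕ) : ℝ), g x =
        (∫ x in (0 : ℝ)..B, g x) + ∫ x in (B : ℝ)..((B + 1 : ℕ) : ℝ), g x :=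
      (intervalIntegral.integral_add_adjacent_intervals (lip_int hL hg le_rfl hB)
        (lip_int hL hg hB (by positivity))).symm
    have h2 : ‖∫ x in (B : ℝ)..((B + 1 : ℕ) : ℝ), (g ((B : ℝ) + 1) - g x)‖ ≤
        L * |((B + 1 : ℕ) : ℝ) - B| := by
      apply intervalIntegral.norm_integral_le_of_norm_le_const
      intro x hx
      rw [Set.uIoc_of_le (by push_cast; linarith)] at hx
      push_cast at hx
      rw [Real.norm_eq_abs]
      have h3 := hg x ((B : ℝ) + 1) (by linarith [hx.1]) hx.2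
      refine h3.trans ?_
      nlinarith [hx.1]
    have h4 : ∫ x in (B : ℝ)..((B + 1 : ℕ) : ℝ), (g ((B : ℝ) + 1) - g x) =
        g ((B : ℝ) + 1) - ∫ x in (B : ℝ)..((B + 1 : ℕ) : ℝ), g x := by
      rw [intervalIntegral.integral_sub (by simp) (lip_int hL hg hB (by positivity))]
      rw [intervalIntegral.integral_const]
      push_cast
      simp
    rw [h4, Real.norm_eq_abs] at h2
    have h5 : |((B + 1 : ℕ) : ℝ) - B| = 1 := by push_cast; simp
    rw [h5, mul_one] at h2
    rw [h1]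
    have e : ∑ k ∈ Finset.range B, g ((k : ℝ) + 1) + g ((B : ℝ) + 1) -
        ((∫ x in (0 : ℝ)..B, g x) + ∫ x in (B : ℝ)..((B + 1 : ℕ) : ℝ), g x) =
        (∑ k ∈ Finset.range B, g ((k : ℝ) + 1) - ∫ x in (0 : ℝ)..B, g x) +
        (g ((B : ℝ) + 1) - ∫ x in (B : ℝ)..((B + 1 : ℕ) : ℝ), g x) := by ring
    rw [e]
    calc _ ≤ _ := abs_add_le _ _
      _ ≤ L * B + L := add_le_add ih h2
      _ = L * ((B + 1 : ℕ) : ℝ) := by push_cast; ring

/-- sum over a class and full sum of a Lipschitz function -/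
theorem sum_class {g : ℝ → ℝ} {L : ℝ}
    (hg : ∀ x y, 0 ≤ x → x ≤ y → |g y - g x| ≤ L * (y - x)) (c : ℕ → ℝ) (M : ℝ)
    (hc : ∀ j : ℕ, |∑ k ∈ Finset.range j, c k - j / M| ≤ 1) (B : ℕ) :
    |∑ k ∈ Finset.range B, c k * g ((k : ℝ) + 1) -
      (1 / M) * ∑ k ∈ Finset.range B, g ((k : ℝ) + 1)| ≤ |g B| + L * B := by
  set e : ℕ → ℝ := fun j => ∑ k ∈ Finset.range j, c k - j / M with he
  have key : ∀ B : ℕ, ∑ k ∈ Finset.range B, c k * g ((k : ℝ) + 1) -
      (1 / M) * ∑ k ∈ Finset.range B, g ((k : ℝ) + 1) =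
      e B * g B - ∑ k ∈ Finset.range B, e k * (g ((k : ℝ) + 1) - g k) := by
    intro B
    induction B with
    | zero => simp [he]
    | succ B ih =>
      rw [Finset.sum_range_succ, Finset.sum_range_succ (fun k : ℕ => g ((k : ℝ) + 1)),
        Finset.sum_range_succ (fun k : ℕ => e k * (g ((k : ℝ) + 1) - g k))]
      have h1 : e (B + 1) = e B + c B - 1 / M := by
        simp only [he]
        rw [Finset.sum_range_succ]
        push_cast
        ring
      rw [h1]
      push_cast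
      linear_combination ih
  rw [key]
  have h1 : |e B * g B| ≤ |g B| := by
    rw [abs_mul]
    calc |e B| * |g B| ≤ 1 * |g B| := mul_le_mul_of_nonneg_right (hc B) (abs_nonneg _)
      _ = |g B| := one_mul _
  have h2 : |∑ k ∈ Finset.range B, e k * (g ((k : ℝ) + 1) - g k)| ≤ L * B := by
    calc _ ≤ ∑ k ∈ Finset.range B, |e k * (g ((k : ℝ) + 1) - g k)| :=
          Finset.abs_sum_le_sum_abs _ _
      _ ≤ ∑ k ∈ Finset.range B, L := by
          apply Finset.sum_le_sum
          intro k _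
          rw [abs_mul]
          have h3 := hg k ((k : ℝ) + 1) (Nat.cast_nonneg k) (by linarith)
          have h4 : L * ((k : ℝ) + 1 - k) = L := by ring
          rw [h4] at h3
          calc |e k| * |g ((k : ℝ) + 1) - g k| ≤ 1 * |g ((k : ℝ) + 1) - g k| :=
                mul_le_mul_of_nonneg_right (hc k) (abs_nonneg _)
            _ ≤ L := by rw [one_mul]; exact h3
      _ = L * B := by rw [Finset.sum_const, Finset.card_range, nsmul_eq_mul]; ring
  calc _ ≤ |e B * g B| + |∑ k ∈ Finset.range B, e k * (g ((k : ℝ) + 1) - g k)| := abs_sub _ _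
    _ ≤ _ := add_le_add h1 h2

/-- the integral -/
theorem int_ff {lam mu Y : ℝ} (hlam : 0 < lam) (hmu : lam ≤ mu) (hY : 0 < Y) :
    ∫ x in (0 : ℝ)..√(mu * Y), ff lam mu Y x = Y / 2 * Real.log (mu / lam) := by
  have hmu0 : 0 < mu := lt_of_lt_of_le hlam hmu
  set R := √(lam * Y) with hR
  set R' := √(mu * Y) with hR'
  have hR0 : 0 < R := Real.sqrt_pos.2 (by positivity)
  have hR0' : 0 < R' := Real.sqrt_pos.2 (by positivity)
  have hRsq : R ^ 2 = lam * Y := Real.sq_sqrt (by positivity)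
  have hRsq' : R' ^ 2 = mu * Y := Real.sq_sqrt (by positivity)
  have hRR : R ≤ R' := Real.sqrt_le_sqrt (mul_le_mul_of_nonneg_right hmu hY.le)
  have hhL : ∀ x y, 0 ≤ x → x ≤ y → |hf lam Y y - hf lam Y x| ≤ (1 / lam) * (y - x) := by
    intro x y hx hxy
    have := hf_lip hlam hY hx hxy
    rw [div_eq_mul_one_div, mul_comm] at this
    exact this
  have i1 : IntervalIntegrable (hf lam Y) MeasureTheory.volume 0 R' :=
    lip_int (by positivity) hhL le_rfl hR0'.le
  have i2 : IntervalIntegrable (hf lam Y) MeasureTheory.volume 0 R :=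
    lip_int (by positivity) hhL le_rfl hR0.le
  have i3 : IntervalIntegrable (hf lam Y) MeasureTheory.volume R R' :=
    lip_int (by positivity) hhL hR0.le hR0'.le
  have e1 : ∫ x in (0 : ℝ)..R', ff lam mu Y x =
      (∫ x in (0 : ℝ)..R', hf lam Y x) - ∫ x in (0 : ℝ)..R', x / mu := by
    unfold ff
    exact intervalIntegral.integral_sub i1
      ((continuous_id.div_const mu).intervalIntegrable _ _)
  have e2 : ∫ x in (0 : ℝ)..R', x / mu = R' ^ 2 / (2 * mu) := by
    rw [intervalIntegral.integral_div, integral_id]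
    field_simp
    ring
  have e3 : ∫ x in (0 : ℝ)..R, hf lam Y x = R ^ 2 / (2 * lam) := by
    have : ∫ x in (0 : ℝ)..R, hf lam Y x = ∫ x in (0 : ℝ)..R, x / lam := by
      apply intervalIntegral.integral_congr
      intro x hx
      rw [Set.uIcc_of_le hR0.le] at hx
      show min (x / lam) (Y / x) = x / lam
      apply min_eq_left
      rcases hx.1.eq_or_lt with h | h
      · rw [← h]; simp
      · rw [div_le_div_iff₀ hlam h]
        nlinarith [hx.2]
    rw [this, intervalIntegral.integral_div, integral_id]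
    field_simp
    ring
  have e4 : ∫ x in R..R', hf lam Y x = Y * Real.log (R' / R) := by
    have : ∫ x in R..R', hf lam Y x = ∫ x in R..R', Y * x⁻¹ := by
      apply intervalIntegral.integral_congr
      intro x hx
      rw [Set.uIcc_of_le hRR] at hx
      have hx0 : 0 < x := lt_of_lt_of_le hR0 hx.1
      show min (x / lam) (Y / x) = Y * x⁻¹
      rw [← div_eq_mul_inv]
      apply min_eq_right
      rw [div_le_div_iff₀ hx0 hlam]
      nlinarith [hx.1]
    rw [this, intervalIntegral.integral_const_mul, integral_inv_of_pos hR0 hR0']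
  have e5 : Real.log (R' / R) = (1 / 2) * Real.log (mu / lam) := by
    have : R' / R = √(mu / lam) := by
      rw [hR, hR', ← Real.sqrt_div (by positivity)]
      congr 1
      field_simp
    rw [this, Real.log_sqrt (by positivity)]
    ring
  rw [e1, ← intervalIntegral.integral_add_adjacent_intervals i2 i3, e2, e3, e4, e5, hRsq, hRsq']
  field_simp
  ring

theorem ff_end {lam mu Y : ℝ} (hlam : 0 < lam) (hmu : lam ≤ mu) (hY : 0 < Y) :
    ff lam mu Y √(mu * Y) = 0 := by
  have hmu0 : 0 < mu := lt_of_lt_of_le hlam hmu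
  set R' := √(mu * Y) with hR'
  have hR0' : 0 < R' := Real.sqrt_pos.2 (by positivity)
  have hRsq' : R' ^ 2 = mu * Y := Real.sq_sqrt (by positivity)
  have h1 : Y / R' = R' / mu := by
    rw [div_eq_div_iff hR0'.ne' hmu0.ne']
    linarith
  unfold ff hf
  rw [h1, min_eq_right (div_le_div_of_nonneg_left hR0'.le hlam hmu), sub_self]

theorem ff_nonneg {lam mu Y x : ℝ} (hlam : 0 < lam) (hmu : lam ≤ mu) (hx : 0 < x)
    (hx2 : x ^ 2 ≤ mu * Y) : x / mu ≤ hf lam Y x := by
  have hmu0 : 0 < mu := lt_of_lt_of_le hlam hmu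
  apply le_min
  · exact div_le_div_of_nonneg_left hx.le hlam hmu
  · rw [div_le_div_iff₀ hmu0 hx]
    nlinarith

end CopA

open CopA in
/-- Lattice points: for given `r.1 = β`, `r.2` runs over an interval `[λ β, min (μ β, Y/β)]`, `λ = e^(s/2)`, `μ = e^(t/2)` in a class
modulo `M`: (length)/M + O(1) points, and `β ≤ √(Y/λ)`; the sum over `β = b mod M` of the length `f(β) = (min (μ β) (Y/β) - λ β)⁺`
(increasing up to `√(Y/μ)`, then decreasing) is `(1/M) ∫ f + O(max f)`, `∫ f = Y (t - s) / 4`, `max f ≤ √(μ Y)`. -/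
theorem cop0_count (M : ℕ) (hM : 0 < M) (s t : ℝ) (hst : s ≤ t) : ∃ C : ℝ, ∀ b b' : ℤ, ∀ Y : ℝ, 1 ≤ Y →
    |((cop0 M b b' s t Y).ncard : ℝ) - (t - s) / (4 * M ^ 2) * Y| ≤ C * Real.sqrt Y := by
  classical
  set lam := Real.exp (s / 2) with hlamdef
  set mu := Real.exp (t / 2) with hmudef
  have hlam : 0 < lam := Real.exp_pos _
  have hmu0 : 0 < mu := Real.exp_pos _
  have hmu : lam ≤ mu := Real.exp_le_exp.2 (by linarith)
  have hlam2 : Real.exp s = lam ^ 2 := by
    rw [hlamdef, ← Real.exp_nat_mul]; congr 1; push_cast; ring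
  have hmu2 : Real.exp t = mu ^ 2 := by
    rw [hmudef, ← Real.exp_nat_mul]; congr 1; push_cast; ring
  have hMr : (0 : ℝ) < M := by exact_mod_cast hM
  have hM1 : (1 : ℝ) ≤ M := by exact_mod_cast hM
  set L := 1 / lam + 1 / mu with hL
  have hL0 : 0 < L := by positivity
  refine ⟨√mu * (1 + 2 * L) + 2 * L, ?_⟩
  intro b b' Y hY
  have hY0 : 0 < Y := by linarith
  have hfl : ∀ x y, 0 ≤ x → x ≤ y → |ff lam mu Y y - ff lam mu Y x| ≤ L * (y - x) :=
    fun x y hx hxy => ff_lip hlam hmu0 hY0 hx hxy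
  set R' := √(mu * Y) with hR'
  have hR0' : 0 < R' := Real.sqrt_pos.2 (by positivity)
  have hRsq' : R' ^ 2 = mu * Y := Real.sq_sqrt (by positivity)
  set B := ⌊R'⌋₊ with hB
  have hB1 : (B : ℝ) ≤ R' := Nat.floor_le hR0'.le
  have hB2 : R' < B + 1 := Nat.lt_floor_add_one _
  -- the set as a finset
  set T : ℕ → Finset ℤ := fun k => (Finset.Ioc ⌊((k : ℝ) + 1) / mu⌋
    ⌊hf lam Y ((k : ℝ) + 1)⌋).filter (fun r : ℤ => (M : ℤ) ∣ r - b) with hT
  set S : Finset ℕ := (Finset.range B).filter (fun k => (M : ℤ) ∣ ((k + 1 : ℕ) : ℤ) - b') with hS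
  have hset : cop0 M b b' s t Y =
      ↑((S.sigma T).image (fun p : (_ : ℕ) × ℤ => ((p.2, ((p.1 + 1 : ℕ) : ℤ)) : ℤ × ℤ))) := by
    ext ⟨r1, r2⟩
    simp only [cop0, Set.mem_ofPred_eq, Finset.coe_image, Set.mem_image, Finset.mem_coe,
      Finset.mem_sigma, Prod.mk.injEq]
    rw [hlam2, hmu2]
    constructor
    · rintro ⟨h1, h2, h3, h4, h5, h6, h7⟩
      obtain ⟨k, hk⟩ : ∃ k : ℕ, r2 = ((k + 1 : ℕ) : ℤ) :=
        ⟨(r2 - 1).toNat, by push_cast; omega⟩
      have hr1 : (0 : ℝ) < r1 := by exact_mod_cast h1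
      have hr2 : (0 : ℝ) < r2 := by exact_mod_cast h2
      have hk' : (r2 : ℝ) = (k : ℝ) + 1 := by rw [hk]; push_cast; ring
      push_cast at h5
      have h6' : lam * r1 ≤ r2 := by
        rw [← mul_pow] at h6
        exact (pow_le_pow_iff_left₀ (by positivity) hr2.le two_ne_zero).1 h6
      have h7' : (r2 : ℝ) < mu * r1 := by
        rw [← mul_pow] at h7
        exact (pow_lt_pow_iff_left₀ hr2.le (by positivity) two_ne_zero).1 h7
      refine ⟨⟨k, r1⟩, ⟨?_, ?_⟩, rfl, hk.symm⟩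
      · rw [hS, Finset.mem_filter, Finset.mem_range]
        refine ⟨?_, by rw [← hk]; exact h4⟩
        have h8 : (r2 : ℝ) ≤ R' := by
          apply Real.le_sqrt_of_sq_le
          calc (r2 : ℝ) ^ 2 = r2 * r2 := sq _
            _ ≤ (mu * r1) * r2 := mul_le_mul_of_nonneg_right h7'.le hr2.le
            _ = mu * (r1 * r2) := mul_assoc _ _ _
            _ ≤ mu * Y := mul_le_mul_of_nonneg_left h5 hmu0.le
        have h9 : k + 1 ≤ B := by
          apply Nat.le_floor
          rw [hk'] at h8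
          push_cast
          exact h8
        exact h9
      · rw [hT]
        simp only [Finset.mem_filter, Finset.mem_Ioc]
        refine ⟨⟨?_, ?_⟩, h3⟩
        · rw [Int.floor_lt, ← hk', div_lt_iff₀ hmu0]
          linarith
        · rw [Int.le_floor, ← hk']
          apply le_min
          · rw [le_div_iff₀ hlam]; linarith
          · rw [le_div_iff₀ hr2]; exact h5
    · rintro ⟨⟨k, r⟩, ⟨hkS, hrT⟩, rfl, rfl⟩
      rw [hS, Finset.mem_filter, Finset.mem_range] at hkS
      rw [hT] at hrT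
      simp only [Finset.mem_filter, Finset.mem_Ioc] at hrT
      obtain ⟨⟨h1, h2⟩, h3⟩ := hrT
      rw [Int.floor_lt] at h1
      rw [Int.le_floor] at h2
      have hkpos : (0 : ℝ) < (k : ℝ) + 1 := by positivity
      have hk' : ((((k + 1 : ℕ) : ℤ) : ℝ)) = (k : ℝ) + 1 := by push_cast; ring
      have hr : (0 : ℝ) < r := lt_of_le_of_lt (by positivity) h1
      rw [div_lt_iff₀ hmu0] at h1
      have h4 := h2.trans (min_le_left _ _)
      have h5 := h2.trans (min_le_right _ _)
      rw [le_div_iff₀ hlam] at h4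
      rw [le_div_iff₀ hkpos] at h5
      refine ⟨by exact_mod_cast hr, by positivity, h3, hkS.2, ?_, ?_, ?_⟩
      · push_cast; exact h5
      · rw [hk', ← mul_pow]
        exact pow_le_pow_left₀ (by positivity) (by linarith) 2
      · rw [hk', ← mul_pow]
        exact pow_lt_pow_left₀ (by linarith) hkpos.le two_ne_zero
  have hinj : Function.Injective
      (fun p : (_ : ℕ) × ℤ => ((p.2, ((p.1 + 1 : ℕ) : ℤ)) : ℤ × ℤ)) := by
    rintro ⟨k, r⟩ ⟨k', r'⟩ h
    simp only [Prod.mk.injEq] at h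
    obtain ⟨h1, h2⟩ := h
    have h3 : k = k' := by
      have : ((k + 1 : ℕ) : ℤ) = ((k' + 1 : ℕ) : ℤ) := h2
      omega
    subst h3
    subst h1
    rfl
  have hcard : ((cop0 M b b' s t Y).ncard : ℝ) = ∑ k ∈ S, ((T k).card : ℝ) := by
    rw [hset, Set.ncard_coe_finset, Finset.card_image_of_injective _ hinj, Finset.card_sigma]
    push_cast
    rfl
  -- first step: lengths
  have hlen : ∀ k ∈ S, |((T k).card : ℝ) - ff lam mu Y ((k : ℝ) + 1) / M| ≤ 1 := by
    intro k hk
    rw [hS, Finset.mem_filter, Finset.mem_range] at hk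
    have hkB : (k : ℝ) + 1 ≤ B := by exact_mod_cast hk.1
    have h2 : ((k : ℝ) + 1) ^ 2 ≤ mu * Y := by
      rw [← hRsq']
      exact pow_le_pow_left₀ (by positivity) (hkB.trans hB1) 2
    exact card_class M hM b (ff_nonneg hlam hmu (by positivity) h2)
  have step1 : |((cop0 M b b' s t Y).ncard : ℝ) -
      ∑ k ∈ S, ff lam mu Y ((k : ℝ) + 1) / M| ≤ B := by
    rw [hcard, ← Finset.sum_sub_distrib]
    calc _ ≤ ∑ k ∈ S, |((T k).card : ℝ) - ff lam mu Y ((k : ℝ) + 1) / M| :=
          Finset.abs_sum_le_sum_abs _ _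
      _ ≤ ∑ k ∈ S, 1 := Finset.sum_le_sum hlen
      _ = (S.card : ℝ) := by rw [Finset.sum_const, nsmul_eq_mul, mul_one]
      _ ≤ B := by
          have := Finset.card_filter_le (Finset.range B)
            (fun k => (M : ℤ) ∣ ((k + 1 : ℕ) : ℤ) - b')
          rw [Finset.card_range] at this
          exact_mod_cast this
  -- second step: the class
  set c : ℕ → ℝ := fun k => if (M : ℤ) ∣ ((k + 1 : ℕ) : ℤ) - b' then 1 else 0 with hc
  have hcnt : ∀ j : ℕ, |∑ k ∈ Finset.range j, c k - j / M| ≤ 1 := by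
    intro j
    have h1 := card_class M hM b' (u := 0) (v := j) (Nat.cast_nonneg j)
    rw [sub_zero] at h1
    have h2 : ∑ k ∈ Finset.range j, c k =
        ((((Finset.Ioc ⌊(0 : ℝ)⌋ ⌊(j : ℝ)⌋).filter
          (fun r : ℤ => (M : ℤ) ∣ r - b')).card : ℕ) : ℝ) := by
      rw [Finset.sum_ite, Finset.sum_const_zero, add_zero, Finset.sum_const, nsmul_eq_mul,
        mul_one]
      congr 1
      rw [Int.floor_zero, Int.floor_natCast]
      apply Finset.card_bij (fun k _ => ((k + 1 : ℕ) : ℤ))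
      · intro k hk
        rw [Finset.mem_filter, Finset.mem_range] at hk
        rw [Finset.mem_filter, Finset.mem_Ioc]
        exact ⟨⟨by positivity, by exact_mod_cast hk.1⟩, hk.2⟩
      · intro k _ k' _ h
        have : ((k + 1 : ℕ) : ℤ) = ((k' + 1 : ℕ) : ℤ) := h
        omega
      · intro r hr
        rw [Finset.mem_filter, Finset.mem_Ioc] at hr
        refine ⟨(r - 1).toNat, ?_, by omega⟩
        rw [Finset.mem_filter, Finset.mem_range]
        refine ⟨by omega, ?_⟩
        have : (((r - 1).toNat + 1 : ℕ) : ℤ) = r := by omega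
        rw [this]
        exact hr.2
    rw [h2]
    exact h1
  have hSsum : ∑ k ∈ S, ff lam mu Y ((k : ℝ) + 1) / M =
      (1 / M) * ∑ k ∈ Finset.range B, c k * ff lam mu Y ((k : ℝ) + 1) := by
    rw [hS, Finset.sum_filter, Finset.mul_sum]
    apply Finset.sum_congr rfl
    intro k _
    simp only [hc]
    split_ifs <;> ring
  have step2 := sum_class hfl c M hcnt B
  have hfB : |ff lam mu Y B| ≤ L := by
    have h1 := hfl B R' (Nat.cast_nonneg B) hB1
    rw [ff_end hlam hmu hY0, zero_sub, abs_neg] at h1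
    calc |ff lam mu Y B| ≤ L * (R' - B) := h1
      _ ≤ L * 1 := mul_le_mul_of_nonneg_left (by linarith) hL0.le
      _ = L := mul_one L
  -- third step: the integral
  have step3 := sum_int hL0.le hfl B
  have hint : |(∫ x in (0 : ℝ)..B, ff lam mu Y x) - Y / 2 * Real.log (mu / lam)| ≤ L := by
    rw [← int_ff hlam hmu hY0, ← hR']
    have h1 := intervalIntegral.integral_add_adjacent_intervals
      (lip_int hL0.le hfl le_rfl (Nat.cast_nonneg B))
      (lip_int hL0.le hfl (Nat.cast_nonneg B) hR0'.le)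
    rw [← h1]
    have h2 : ‖∫ x in (B : ℝ)..R', ff lam mu Y x‖ ≤ L * |R' - B| := by
      apply intervalIntegral.norm_integral_le_of_norm_le_const
      intro x hx
      rw [Set.uIoc_of_le hB1] at hx
      have h3 := hfl x R' (by linarith [hx.1, (Nat.cast_nonneg B : (0 : ℝ) ≤ B)]) hx.2
      rw [ff_end hlam hmu hY0, zero_sub, abs_neg] at h3
      rw [Real.norm_eq_abs]
      refine h3.trans ?_
      calc L * (R' - x) ≤ L * 1 :=
            mul_le_mul_of_nonneg_left (by linarith only [hx.1, hB2]) hL0.le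
        _ = L := mul_one L
    rw [Real.norm_eq_abs] at h2
    have h4 : |R' - B| ≤ 1 := by
      rw [abs_of_nonneg (by linarith)]
      linarith
    have h5 : (∫ x in (0 : ℝ)..B, ff lam mu Y x) -
        ((∫ x in (0 : ℝ)..B, ff lam mu Y x) + ∫ x in (B : ℝ)..R', ff lam mu Y x) =
        -(∫ x in (B : ℝ)..R', ff lam mu Y x) := by ring
    rw [h5, abs_neg]
    calc _ ≤ L * |R' - B| := h2
      _ ≤ L * 1 := mul_le_mul_of_nonneg_left h4 hL0.le
      _ = L := mul_one L
  -- assembly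
  have hlog : Real.log (mu / lam) = (t - s) / 2 := by
    rw [Real.log_div hmu0.ne' hlam.ne', hmudef, hlamdef, Real.log_exp, Real.log_exp]
    ring
  rw [hlog] at hint
  set Sg := ∑ k ∈ Finset.range B, ff lam mu Y ((k : ℝ) + 1) with hSg
  set Sc := ∑ k ∈ Finset.range B, c k * ff lam mu Y ((k : ℝ) + 1) with hSc
  set I := ∫ x in (0 : ℝ)..B, ff lam mu Y x with hI
  rw [hSsum] at step1
  have hBY : (B : ℝ) ≤ √mu * √Y := by
    rw [← Real.sqrt_mul hmu0.le]
    exact hB1
  have hY1 : (1 : ℝ) ≤ √Y := Real.one_le_sqrt.2 hY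
  have hinvM : 1 / (M : ℝ) ≤ 1 := by
    rw [div_le_one hMr]
    exact hM1
  have hinvM0 : 0 ≤ 1 / (M : ℝ) := by positivity
  have a2 : |(1 / (M : ℝ)) * (Sc - (1 / M) * Sg)| ≤ L + L * B := by
    rw [abs_mul, abs_of_nonneg hinvM0]
    calc 1 / (M : ℝ) * |Sc - 1 / M * Sg| ≤ 1 * |Sc - 1 / M * Sg| :=
          mul_le_mul_of_nonneg_right hinvM (abs_nonneg _)
      _ ≤ L + L * B := by
          rw [one_mul]
          linarith
  have a3 : |(1 / (M : ℝ)) * ((1 / M) * (Sg - Y / 2 * ((t - s) / 2)))| ≤ L * B + L := by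
    have h1 : |Sg - Y / 2 * ((t - s) / 2)| ≤ L * B + L := by
      have e : Sg - Y / 2 * ((t - s) / 2) = (Sg - I) + (I - Y / 2 * ((t - s) / 2)) := by ring
      rw [e]
      exact (abs_add_le _ _).trans (add_le_add step3 hint)
    rw [abs_mul, abs_mul, abs_of_nonneg hinvM0]
    have h2 : 1 / (M : ℝ) * |Sg - Y / 2 * ((t - s) / 2)| ≤ |Sg - Y / 2 * ((t - s) / 2)| := by
      calc _ ≤ 1 * |Sg - Y / 2 * ((t - s) / 2)| :=
            mul_le_mul_of_nonneg_right hinvM (abs_nonneg _)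
        _ = _ := one_mul _
    calc _ ≤ 1 * (1 / (M : ℝ) * |Sg - Y / 2 * ((t - s) / 2)|) :=
          mul_le_mul_of_nonneg_right hinvM (by positivity)
      _ ≤ L * B + L := by rw [one_mul]; linarith
  have e : ((cop0 M b b' s t Y).ncard : ℝ) - (t - s) / (4 * M ^ 2) * Y =
      (((cop0 M b b' s t Y).ncard : ℝ) - 1 / M * Sc) + (1 / (M : ℝ)) * (Sc - (1 / M) * Sg) +
        (1 / (M : ℝ)) * ((1 / M) * (Sg - Y / 2 * ((t - s) / 2))) := by
    field_simp
    ring
  rw [e]
  have hfinal := (abs_add_three _ _ _ : |(((cop0 M b b' s t Y).ncard : ℝ) - 1 / M * Sc) +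
    (1 / (M : ℝ)) * (Sc - (1 / M) * Sg) +
        (1 / (M : ℝ)) * ((1 / M) * (Sg - Y / 2 * ((t - s) / 2)))| ≤ _)
  refine hfinal.trans ?_
  have h9 : L * B ≤ L * (√mu * √Y) := mul_le_mul_of_nonneg_left hBY hL0.le
  have h10 : L ≤ L * √Y := le_mul_of_one_le_right hL0.le hY1
  have e2 : (√mu * (1 + 2 * L) + 2 * L) * √Y =
      √mu * √Y + 2 * (L * (√mu * √Y)) + 2 * (L * √Y) := by ring
  rw [e2]
  linarith only [step1, a2, a3, hBY, h9, h10]

end Pool.Agent.OmAll

end

/-! ### from `Lib_MP_f1a94e_aq.CopAs` -/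

section

/-!
# Piece COPAS: coprime pairs in a congruence class, hyperbolic region
-/

set_option autoImplicit false

namespace Pool.Agent.OmAll

open Filter

namespace CopAs

open ArithmeticFunction

theorem finite0 (M : ℕ) (b b' : ℤ) (s t Y : ℝ) : (cop0 M b b' s t Y).Finite := by
  apply Set.Finite.subset ((Set.finite_Icc (1 : ℤ) ⌊Y⌋).prod (Set.finite_Icc (1 : ℤ) ⌊Y⌋))
  rintro ⟨r1, r2⟩ ⟨h1, h2, h3, h4, h5, h6, h7⟩
  simp only at h1 h2 h5
  have h8 : (r1 * r2 : ℤ) ≤ ⌊Y⌋ := Int.le_floor.2 h5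
  rw [Set.mem_prod, Set.mem_Icc, Set.mem_Icc]
  have h1' : (1 : ℤ) ≤ r1 := h1
  have h2' : (1 : ℤ) ≤ r2 := h2
  refine ⟨⟨h1', ?_⟩, ⟨h2', ?_⟩⟩
  · show r1 ≤ ⌊Y⌋
    nlinarith
  · show r2 ≤ ⌊Y⌋
    nlinarith

/-- sum of Moebius over the common divisors -/
theorem moebius_ind (g : ℕ) (hg : 0 < g) (K : ℕ) (hK : g ≤ K) :
    ∑ k ∈ Finset.range K, (if (k + 1) ∣ g then (moebius (k + 1) : ℤ) else 0) =
      if g = 1 then 1 else 0 := by
  have h1 : ∑ k ∈ Finset.range K, (if (k + 1) ∣ g then (moebius (k + 1) : ℤ) else 0) =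
      ∑ d ∈ g.divisors, (moebius d : ℤ) := by
    rw [← Finset.sum_filter]
    apply Finset.sum_bij (fun k _ => k + 1)
    · intro k hk
      rw [Finset.mem_filter] at hk
      rw [Nat.mem_divisors]
      exact ⟨hk.2, hg.ne'⟩
    · intro k _ k' _ h
      omega
    · intro d hd
      rw [Nat.mem_divisors] at hd
      have hd0 : 0 < d := Nat.pos_of_dvd_of_pos hd.1 hg
      have hdg := Nat.le_of_dvd hg hd.1
      refine ⟨d - 1, ?_, by omega⟩
      rw [Finset.mem_filter, Finset.mem_range]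
      refine ⟨by omega, ?_⟩
      rw [Nat.sub_add_cancel hd0]
      exact hd.1
    · intro k _
      rfl
  rw [h1, ← coe_mul_zeta_apply, moebius_mul_coe_zeta, one_apply]

/-- the pairs with both coordinates divisible by `k` -/
theorem divisible (M : ℕ) (hM : 0 < M) (b b' : ℤ) (hbb : Int.gcd (Int.gcd b b') M = 1)
    (s t : ℝ) (C : ℝ) (hC : ∀ b b' : ℤ, ∀ Y : ℝ, 1 ≤ Y →
      |((cop0 M b b' s t Y).ncard : ℝ) - (t - s) / (4 * M ^ 2) * Y| ≤ C * Real.sqrt Y)
    (Y : ℝ) (k : ℕ) (hk : 0 < k) (hkY : (k : ℝ) ^ 2 ≤ Y) :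
    |(({r | r ∈ cop0 M b b' s t Y ∧ (k : ℤ) ∣ r.1 ∧ (k : ℤ) ∣ r.2} : Set (ℤ × ℤ)).ncard : ℝ) -
      (if Nat.Coprime k M then (t - s) / (4 * M ^ 2) * (Y / k ^ 2) else 0)| ≤ C * (√Y / k) := by
  have hkr : (0 : ℝ) < k := by exact_mod_cast hk
  have hkz : (0 : ℤ) < k := by exact_mod_cast hk
  have hY0 : 0 < Y := lt_of_lt_of_le (by positivity) hkY
  have hYk : 1 ≤ Y / (k : ℝ) ^ 2 := by
    rw [one_le_div (by positivity)]
    exact hkY
  have hsq : √(Y / (k : ℝ) ^ 2) = √Y / k := by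
    rw [Real.sqrt_div hY0.le, Real.sqrt_sq hkr.le]
  have hC0 : 0 ≤ C * (√Y / k) := by
    have := (abs_nonneg _).trans (hC 0 0 (Y / (k : ℝ) ^ 2) hYk)
    rwa [hsq] at this
  by_cases hco : Nat.Coprime k M
  · rw [if_pos hco]
    obtain ⟨k', hk'⟩ : ∃ k' : ℤ, (M : ℤ) ∣ k * k' - 1 := by
      have h1 := Nat.gcd_eq_gcd_ab k M
      rw [hco] at h1
      refine ⟨Nat.gcdA k M, ⟨-Nat.gcdB k M, ?_⟩⟩
      push_cast at h1
      linarith
    have hcls : ∀ x c : ℤ, (M : ℤ) ∣ k * x - c ↔ (M : ℤ) ∣ x - k' * c := by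
      intro x c
      constructor
      · intro h
        have h2 : x - k' * c = k' * (k * x - c) - x * (k * k' - 1) := by ring
        rw [h2]
        exact dvd_sub (Dvd.dvd.mul_left h _) (Dvd.dvd.mul_left hk' _)
      · intro h
        have h2 : (k : ℤ) * x - c = k * (x - k' * c) + c * (k * k' - 1) := by ring
        rw [h2]
        exact dvd_add (Dvd.dvd.mul_left h _) (Dvd.dvd.mul_left hk' _)
    have himg : {r | r ∈ cop0 M b b' s t Y ∧ (k : ℤ) ∣ r.1 ∧ (k : ℤ) ∣ r.2} =
        (fun r : ℤ × ℤ => ((k : ℤ) * r.1, (k : ℤ) * r.2)) ''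
          cop0 M (k' * b) (k' * b') s t (Y / (k : ℝ) ^ 2) := by
      ext ⟨r1, r2⟩
      simp only [cop0, Set.mem_image, Set.mem_ofPred_eq, Prod.mk.injEq, Prod.exists]
      constructor
      · rintro ⟨⟨h1, h2, h3, h4, h5, h6, h7⟩, ⟨x, rfl⟩, ⟨y, rfl⟩⟩
        refine ⟨x, y, ⟨?_, ?_, (hcls x b).1 h3, (hcls y b').1 h4, ?_, ?_, ?_⟩, rfl, rfl⟩
        · exact (mul_pos_iff_of_pos_left hkz).1 h1
        · exact (mul_pos_iff_of_pos_left hkz).1 h2
        · push_cast at h5 ⊢
          rw [le_div_iff₀ (by positivity)]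
          nlinarith
        · push_cast at h6 ⊢
          have h8 : (k : ℝ) ^ 2 * (Real.exp s * (x : ℝ) ^ 2) ≤ (k : ℝ) ^ 2 * (y : ℝ) ^ 2 := by
            nlinarith
          exact le_of_mul_le_mul_left h8 (by positivity)
        · push_cast at h7 ⊢
          have h8 : (k : ℝ) ^ 2 * (y : ℝ) ^ 2 < (k : ℝ) ^ 2 * (Real.exp t * (x : ℝ) ^ 2) := by
            nlinarith
          exact lt_of_mul_lt_mul_left h8 (by positivity)
      · rintro ⟨x, y, ⟨h1, h2, h3, h4, h5, h6, h7⟩, rfl, rfl⟩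
        refine ⟨⟨mul_pos hkz h1, mul_pos hkz h2, (hcls x b).2 h3, (hcls y b').2 h4, ?_, ?_, ?_⟩,
          Dvd.intro _ rfl, Dvd.intro _ rfl⟩
        · push_cast at h5 ⊢
          rw [le_div_iff₀ (by positivity)] at h5
          nlinarith
        · push_cast at h6 ⊢
          have h8 := mul_le_mul_of_nonneg_left h6 (by positivity : (0 : ℝ) ≤ (k : ℝ) ^ 2)
          nlinarith
        · push_cast at h7 ⊢
          have h8 := mul_lt_mul_of_pos_left h7 (by positivity : (0 : ℝ) < (k : ℝ) ^ 2)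
          nlinarith
    have hinj : Function.Injective (fun r : ℤ × ℤ => ((k : ℤ) * r.1, (k : ℤ) * r.2)) := by
      rintro ⟨x, y⟩ ⟨x', y'⟩ h
      simp only [Prod.mk.injEq] at h
      rw [mul_left_cancel₀ hkz.ne' h.1, mul_left_cancel₀ hkz.ne' h.2]
    rw [himg, Set.ncard_image_of_injective _ hinj]
    have := hC (k' * b) (k' * b') (Y / (k : ℝ) ^ 2) hYk
    rw [hsq] at this
    exact this
  · rw [if_neg hco]
    have hempty : {r | r ∈ cop0 M b b' s t Y ∧ (k : ℤ) ∣ r.1 ∧ (k : ℤ) ∣ r.2} = ∅ := by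
      rw [Set.eq_empty_iff_forall_notMem]
      rintro ⟨r1, r2⟩ ⟨⟨h1, h2, h3, h4, h5, h6, h7⟩, h8, h9⟩
      simp only at h3 h4 h8 h9
      set g := Nat.gcd k M with hg
      have hgk : (g : ℤ) ∣ k := by exact_mod_cast Nat.gcd_dvd_left k M
      have hgM : (g : ℤ) ∣ M := by exact_mod_cast Nat.gcd_dvd_right k M
      have hgb : (g : ℤ) ∣ b := by
        have h10 : b = r1 - (r1 - b) := by ring
        rw [h10]
        exact dvd_sub (hgk.trans h8) (hgM.trans h3)
      have hgb' : (g : ℤ) ∣ b' := by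
        have h10 : b' = r2 - (r2 - b') := by ring
        rw [h10]
        exact dvd_sub (hgk.trans h9) (hgM.trans h4)
      have h11 : (g : ℤ) ∣ ((Int.gcd (Int.gcd b b') M : ℕ) : ℤ) :=
        Int.dvd_coe_gcd (Int.dvd_coe_gcd hgb hgb') hgM
      rw [hbb] at h11
      have h12 : g ∣ 1 := by exact_mod_cast h11
      exact hco (Nat.dvd_one.1 h12)
    rw [hempty, Set.ncard_empty]
    simpa using hC0

theorem sum_inv_le (K : ℕ) : ∑ k ∈ Finset.range K, 1 / ((k : ℝ) + 1) ≤ 2 * √K := by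
  induction K with
  | zero => simp
  | succ K ih =>
    rw [Finset.sum_range_succ]
    have hK : (0 : ℝ) ≤ K := Nat.cast_nonneg K
    push_cast
    set a := √(K : ℝ)
    set c := √((K : ℝ) + 1)
    have ha : a ^ 2 = K := Real.sq_sqrt hK
    have hc : c ^ 2 = (K : ℝ) + 1 := Real.sq_sqrt (by linarith)
    have ha0 : 0 ≤ a := Real.sqrt_nonneg _
    have hc1 : 1 ≤ c := Real.one_le_sqrt.2 (by linarith)
    have hac : a ≤ c := Real.sqrt_le_sqrt (by linarith)
    have h1 : 1 / ((K : ℝ) + 1) ≤ 2 * (c - a) := by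
      rw [← hc, div_le_iff₀ (by positivity)]
      have h2 : (c - a) * (c + a) = 1 := by nlinarith
      have h3 : (c - a) * (c + a) ≤ (c - a) * (2 * c ^ 2) := by
        apply mul_le_mul_of_nonneg_left _ (by linarith)
        nlinarith
      nlinarith
    linarith

end CopAs

open CopAs ArithmeticFunction in
/-- Moebius: `#cop = ∑_(k ≤ √Y, gcd(k, M) = 1) μ(k) #cop0 (b/k, b'/k, Y/k^2)` (a common divisor `k` of `r.1`, `r.2` is coprime to `M` as
`gcd(b, b', M) = 1`; `(k r.1, k r.2)` has the same quotient; class `k^{-1} b`). With `cop0_count`: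
`#cop = (t - s)/(4 M^2) Y ∑_(k ≤ √Y, (k, M) = 1) μ(k)/k^2 + O(√Y ∑_(k ≤ √Y) 1/k)`, so the limit is `c (t - s)`,
`c = (1/(4 M^2)) ∑'_((k, M) = 1) μ(k)/k^2`, independent of `b, b'`. -/
theorem cop_asymp (M : ℕ) (hM : 0 < M) : ∃ c : ℝ, CopC M c := by
  classical
  have hMr : (0 : ℝ) < M := by exact_mod_cast hM
  set a : ℕ → ℝ := fun k => if Nat.Coprime (k + 1) M then
    (moebius (k + 1) : ℝ) / ((k : ℝ) + 1) ^ 2 else 0 with ha
  have habs : ∀ k : ℕ, |(moebius (k + 1) : ℝ)| ≤ 1 := by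
    intro k
    have := abs_moebius_le_one (n := k + 1)
    exact_mod_cast this
  have hsum : Summable a := by
    have h1 : Summable (fun k : ℕ => 1 / ((k : ℝ) + 1) ^ 2) := by
      have h2 := (summable_nat_add_iff 1).2
        (Real.summable_one_div_nat_pow.2 (one_lt_two : 1 < 2))
      simpa using h2
    apply Summable.of_norm_bounded h1
    intro k
    rw [Real.norm_eq_abs]
    simp only [ha]
    split_ifs
    · rw [abs_div, abs_of_pos (by positivity : (0 : ℝ) < ((k : ℝ) + 1) ^ 2)]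
      exact div_le_div_of_nonneg_right (habs k) (by positivity)
    · rw [abs_zero]; positivity
  refine ⟨1 / (4 * M ^ 2) * ∑' k, a k, ?_⟩
  intro b b' hbb s t hst
  obtain ⟨C, hC⟩ := cop0_count M hM s t hst
  have hC0 : 0 ≤ C := by
    have := (abs_nonneg _).trans (hC 0 0 1 le_rfl)
    rwa [Real.sqrt_one, mul_one] at this
  -- the partial sums
  set K : ℝ → ℕ := fun Y => ⌊√Y⌋₊ with hK
  have hKtend : Tendsto K atTop atTop :=
    tendsto_nat_floor_atTop.comp Real.tendsto_sqrt_atTop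
  have hmain : Tendsto (fun Y => (t - s) / (4 * M ^ 2) * ∑ k ∈ Finset.range (K Y), a k) atTop
      (nhds (1 / (4 * M ^ 2) * (∑' k, a k) * (t - s))) := by
    have h1 := (hsum.hasSum.tendsto_sum_nat.comp hKtend).const_mul ((t - s) / (4 * (M : ℝ) ^ 2))
    have e : (t - s) / (4 * (M : ℝ) ^ 2) * ∑' k, a k =
        1 / (4 * M ^ 2) * (∑' k, a k) * (t - s) := by ring
    rw [e] at h1
    exact h1
  -- the error
  have herr : ∀ Y : ℝ, 1 ≤ Y → |((cop M b b' s t Y).ncard : ℝ) / Y -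
      (t - s) / (4 * M ^ 2) * ∑ k ∈ Finset.range (K Y), a k| ≤ 2 * C / √√Y := by
    intro Y hY
    have hY0 : 0 < Y := by linarith
    have hsY : 1 ≤ √Y := Real.one_le_sqrt.2 hY
    have hsY2 : √Y ^ 2 = Y := Real.sq_sqrt hY0.le
    have hKY : ((K Y : ℕ) : ℝ) ≤ √Y := Nat.floor_le (by linarith)
    set F : Finset (ℤ × ℤ) := (finite0 M b b' s t Y).toFinset with hF
    have hmemF : ∀ r, r ∈ F ↔ r ∈ cop0 M b b' s t Y := by
      intro r
      rw [hF, Set.Finite.mem_toFinset]
    have hcop : (cop M b b' s t Y) = ↑(F.filter fun r => IsCoprime r.1 r.2) := by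
      ext r
      rw [Finset.mem_coe, Finset.mem_filter, hmemF]
      simp only [cop, cop0, Set.mem_ofPred_eq]
      tauto
    have hcount : ((cop M b b' s t Y).ncard : ℤ) = ∑ k ∈ Finset.range (K Y),
        (moebius (k + 1) : ℤ) *
          ((F.filter fun r => ((k + 1 : ℕ) : ℤ) ∣ r.1 ∧ ((k + 1 : ℕ) : ℤ) ∣ r.2).card : ℤ) := by
      rw [hcop, Set.ncard_coe_finset, Finset.card_filter]
      push_cast
      have h1 : ∀ r ∈ F, (if IsCoprime r.1 r.2 then (1 : ℤ) else 0) =
          ∑ k ∈ Finset.range (K Y), (if ((k + 1 : ℕ) : ℤ) ∣ r.1 ∧ ((k + 1 : ℕ) : ℤ) ∣ r.2 then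
            (moebius (k + 1) : ℤ) else 0) := by
        intro r hr
        rw [hmemF] at hr
        obtain ⟨h1, h2, h3, h4, h5, h6, h7⟩ := hr
        have hg : 0 < Int.gcd r.1 r.2 := Int.gcd_pos_of_ne_zero_left _ h1.ne'
        have hgK : Int.gcd r.1 r.2 ≤ K Y := by
          apply Nat.le_floor
          apply Real.le_sqrt_of_sq_le
          have h8 : ((Int.gcd r.1 r.2 : ℕ) : ℤ) ≤ r.1 :=
            Int.le_of_dvd h1 (Int.gcd_dvd_left _ _)
          have h9 : ((Int.gcd r.1 r.2 : ℕ) : ℤ) ≤ r.2 :=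
            Int.le_of_dvd h2 (Int.gcd_dvd_right _ _)
          have h10 : ((Int.gcd r.1 r.2 : ℕ) : ℤ) ^ 2 ≤ r.1 * r.2 := by
            have : (0 : ℤ) ≤ ((Int.gcd r.1 r.2 : ℕ) : ℤ) := by positivity
            nlinarith
          have h11 : (((Int.gcd r.1 r.2 : ℕ) : ℝ)) ^ 2 ≤ ((r.1 * r.2 : ℤ) : ℝ) := by
            exact_mod_cast h10
          linarith
        have h12 := moebius_ind (Int.gcd r.1 r.2) hg (K Y) hgK
        have h13 : ∀ k ∈ Finset.range (K Y),
            (if ((k + 1 : ℕ) : ℤ) ∣ r.1 ∧ ((k + 1 : ℕ) : ℤ) ∣ r.2 then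
              (moebius (k + 1) : ℤ) else 0) =
            (if (k + 1) ∣ Int.gcd r.1 r.2 then (moebius (k + 1) : ℤ) else 0) := by
          intro k _
          congr 1
          rw [← Int.natCast_dvd_natCast]
          exact propext ⟨fun h => Int.dvd_coe_gcd h.1 h.2,
            fun h => ⟨h.trans (Int.gcd_dvd_left _ _), h.trans (Int.gcd_dvd_right _ _)⟩⟩
        rw [Finset.sum_congr rfl h13, h12]
        congr 1
        rw [Int.isCoprime_iff_gcd_eq_one]
      rw [Finset.sum_congr rfl h1, Finset.sum_comm]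
      apply Finset.sum_congr rfl
      intro k _
      rw [← Finset.sum_filter, Finset.sum_const, nsmul_eq_mul, mul_comm]
      push_cast
      rfl
    have hcountR : ((cop M b b' s t Y).ncard : ℝ) = ∑ k ∈ Finset.range (K Y),
        (moebius (k + 1) : ℝ) *
          ((F.filter fun r => ((k + 1 : ℕ) : ℤ) ∣ r.1 ∧ ((k + 1 : ℕ) : ℤ) ∣ r.2).card : ℝ) := by
      exact_mod_cast hcount
    have hdiv : ∀ k ∈ Finset.range (K Y),
        |((F.filter fun r => ((k + 1 : ℕ) : ℤ) ∣ r.1 ∧ ((k + 1 : ℕ) : ℤ) ∣ r.2).card : ℝ) -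
          (if Nat.Coprime (k + 1) M then
            (t - s) / (4 * M ^ 2) * (Y / ((k + 1 : ℕ) : ℝ) ^ 2) else 0)| ≤
          C * (√Y / ((k + 1 : ℕ) : ℝ)) := by
      intro k hk
      have hkK : ((k + 1 : ℕ) : ℝ) ≤ √Y := by
        have : k + 1 ≤ K Y := Finset.mem_range.1 hk
        exact le_trans (by exact_mod_cast this) hKY
      have h2 : (((k + 1 : ℕ) : ℝ)) ^ 2 ≤ Y := by
        rw [← hsY2]
        exact pow_le_pow_left₀ (by positivity) hkK 2
      have h3 := divisible M hM b b' hbb s t C hC Y (k + 1) (Nat.succ_pos k) h2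
      have h4 : {r | r ∈ cop0 M b b' s t Y ∧ ((k + 1 : ℕ) : ℤ) ∣ r.1 ∧
          ((k + 1 : ℕ) : ℤ) ∣ r.2} =
          ↑(F.filter fun r => ((k + 1 : ℕ) : ℤ) ∣ r.1 ∧ ((k + 1 : ℕ) : ℤ) ∣ r.2) := by
        ext r
        rw [Finset.mem_coe, Finset.mem_filter, hmemF]
        rfl
      rw [h4, Set.ncard_coe_finset] at h3
      exact h3
    have e1 : ((cop M b b' s t Y).ncard : ℝ) / Y -
        (t - s) / (4 * M ^ 2) * ∑ k ∈ Finset.range (K Y), a k =
        (∑ k ∈ Finset.range (K Y), (moebius (k + 1) : ℝ) *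
          (((F.filter fun r => ((k + 1 : ℕ) : ℤ) ∣ r.1 ∧ ((k + 1 : ℕ) : ℤ) ∣ r.2).card : ℝ) -
          (if Nat.Coprime (k + 1) M then
            (t - s) / (4 * M ^ 2) * (Y / ((k + 1 : ℕ) : ℝ) ^ 2) else 0))) / Y := by
      rw [hcountR, eq_div_iff hY0.ne', sub_mul, div_mul_cancel₀ _ hY0.ne']
      simp only [mul_sub]
      rw [Finset.sum_sub_distrib]
      congr 1
      rw [Finset.mul_sum, Finset.sum_mul]
      apply Finset.sum_congr rfl
      intro k _
      simp only [ha]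
      split_ifs
      · push_cast
        ring
      · ring
    rw [e1, abs_div, abs_of_pos hY0, div_le_iff₀ hY0]
    calc |∑ k ∈ Finset.range (K Y), (moebius (k + 1) : ℝ) *
          (((F.filter fun r => ((k + 1 : ℕ) : ℤ) ∣ r.1 ∧ ((k + 1 : ℕ) : ℤ) ∣ r.2).card : ℝ) -
          (if Nat.Coprime (k + 1) M then
            (t - s) / (4 * M ^ 2) * (Y / ((k + 1 : ℕ) : ℝ) ^ 2) else 0))|
        ≤ ∑ k ∈ Finset.range (K Y), C * (√Y / ((k + 1 : ℕ) : ℝ)) := by
          refine (Finset.abs_sum_le_sum_abs _ _).trans (Finset.sum_le_sum fun k hk => ?_)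
          rw [abs_mul]
          calc _ ≤ 1 * _ := mul_le_mul_of_nonneg_right (habs k) (abs_nonneg _)
            _ ≤ _ := by rw [one_mul]; exact hdiv k hk
      _ = C * √Y * ∑ k ∈ Finset.range (K Y), 1 / ((k : ℝ) + 1) := by
          rw [Finset.mul_sum]
          apply Finset.sum_congr rfl
          intro k _
          push_cast
          ring
      _ ≤ C * √Y * (2 * √√Y) := by
          apply mul_le_mul_of_nonneg_left _ (by positivity)
          exact (sum_inv_le (K Y)).trans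
            (mul_le_mul_of_nonneg_left (Real.sqrt_le_sqrt hKY) (by norm_num))
      _ = 2 * C / √√Y * Y := by
          have h5 : √√Y ^ 2 = √Y := Real.sq_sqrt (Real.sqrt_nonneg _)
          have h6 : 0 < √√Y := Real.sqrt_pos.2 (by linarith)
          rw [div_mul_eq_mul_div, eq_div_iff h6.ne']
          calc C * √Y * (2 * √√Y) * √√Y = 2 * C * √Y * √√Y ^ 2 := by ring
            _ = 2 * C * √Y ^ 2 := by rw [h5]; ring
            _ = 2 * C * Y := by rw [hsY2]
  have hdiff : Tendsto (fun Y => ((cop M b b' s t Y).ncard : ℝ) / Y -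
      (t - s) / (4 * M ^ 2) * ∑ k ∈ Finset.range (K Y), a k) atTop (nhds 0) := by
    apply squeeze_zero_norm' (a := fun Y : ℝ => 2 * C / √√Y)
    · filter_upwards [Filter.eventually_ge_atTop (1 : ℝ)] with Y hY
      rw [Real.norm_eq_abs]
      exact herr Y hY
    · exact Filter.Tendsto.const_div_atTop
        (Real.tendsto_sqrt_atTop.comp Real.tendsto_sqrt_atTop) _
  have := hdiff.add hmain
  rw [zero_add] at this
  refine this.congr fun Y => ?_
  ring

/-- `c ≥ 0`: limit of nonnegative numbers -/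
theorem copC_nonneg (M : ℕ) (c : ℝ) (hc : CopC M c) : 0 ≤ c := by
  have h := hc 1 1 (by simp) 0 1 zero_le_one
  have h1 : c * (1 - 0) = c := by ring
  rw [h1] at h
  apply ge_of_tendsto h
  filter_upwards [Filter.eventually_gt_atTop (0 : ℝ)] with Y hY
  positivity

end Pool.Agent.OmAll

end

/-! ### from `Lib_MP_f1a94e_aq.Arc` -/

section

/-!
# Piece ARC: edges in an arc
-/

set_option autoImplicit false

namespace Pool.Agent.OmAll

open Finset Pool.Agent.GaussMR Filter

private lemma arc_h1 {D x : ℝ} (h6 : 0 < D) (h3 : D ≤ x) : D ^ 2 + 1 ≤ x ^ 2 + 1 := by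
  have := mul_self_le_mul_self h6.le h3
  linarith only [this]

private lemma arc_h3 {a b c : ℝ} (h1 : 1 ≤ a) (h2 : 1 ≤ b) (h : a * b ≤ c) : a ≤ c := by
  have := mul_le_mul_of_nonneg_left h2 (zero_le_one.trans h1)
  linarith only [this, h]

private lemma arc_h4 {α β : ℤ} (hb : 0 < β) (h : 2 * β ≤ α) : β ≤ α ^ 2 := by
  have h1 : 1 ≤ α := by omega
  have h2 := mul_le_mul_of_nonneg_left h1 (zero_le_one.trans h1)
  linarith only [h, h2, hb, h1]

private lemma arc_h5 {β : ℤ} (h : 0 < β) : β ≤ β ^ 2 := by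
  have h1 : 1 ≤ β := by omega
  have h2 := mul_le_mul_of_nonneg_left h1 (zero_le_one.trans h1)
  linarith only [h2]

private lemma arc_h6 {a b c : ℤ} (h1 : 0 < a) (h2 : 0 < b) (h : a * b ≤ c) : a ≤ c := by
  have h3 : 1 ≤ b := by omega
  have := mul_le_mul_of_nonneg_left h3 h1.le
  linarith only [this, h]

theorem NE_finite (M : ℕ) (γ : G × G) (s t x : ℝ) : (NE M γ s t x).Finite := by
  apply ((finite_ball (x ^ 2 + 1)).prod (finite_ball (x ^ 2 + 1))).subset
  rintro ⟨V, V'⟩ ⟨h1, h2, h3, -⟩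
  simp only at h1 h2 h3
  have h4 := dot_sq_add_det_sq V V'
  rw [h1] at h4
  have h5 : ((nm V : ℝ)) * (nm V' : ℝ) = ((dot V V' : ℤ) : ℝ) ^ 2 + 1 := by
    have : ((dot V V' : ℤ) : ℝ) ^ 2 + 1 ^ 2 = ((nm V : ℤ) : ℝ) * ((nm V' : ℤ) : ℝ) := by
      exact_mod_cast h4
    push_cast at this
    linarith
  have h6 : (0 : ℝ) < ((dot V V' : ℤ) : ℝ) := by exact_mod_cast h2
  have h7 : (nm V : ℝ) * (nm V' : ℝ) ≤ x ^ 2 + 1 := by
    rw [h5]; exact arc_h1 h6 h3
  have h8 : 0 < nm V ∧ 0 < nm V' := by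
    constructor
    · by_contra h
      have : nm V = 0 := by omega
      rw [this] at h5
      simp at h5
      linarith only [h5, sq_nonneg ((dot V V' : ℤ) : ℝ)]
    · by_contra h
      have : nm V' = 0 := by omega
      rw [this] at h5
      simp at h5
      linarith only [h5, sq_nonneg ((dot V V' : ℤ) : ℝ)]
  have h9 : (1 : ℝ) ≤ nm V := by exact_mod_cast h8.1
  have h10 : (1 : ℝ) ≤ nm V' := by exact_mod_cast h8.2
  constructor
  · show (nm V : ℝ) ≤ x ^ 2 + 1
    exact arc_h3 h9 h10 h7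
  · show (nm V' : ℝ) ≤ x ^ 2 + 1
    exact arc_h3 h10 h9 (by rw [mul_comm]; exact h7)

/-! ### arithmetic of the quadruples -/

/-- coordinates of an edge with respect to a frame -/
private def AQ (M S : ℕ) (η a b a' b' : ℤ) (q : (ℤ × ℤ) × (ℤ × ℤ)) : Prop :=
  0 < q.1.2 ∧ (S : ℤ) * q.1.2 ≤ q.1.1 ∧ q.1.1 < ((S : ℤ) + M) * q.1.2 ∧
    q.1.1 * q.2.2 - q.1.2 * q.2.1 = η ∧ (M : ℤ) ∣ q.1.1 - a ∧ (M : ℤ) ∣ q.1.2 - b ∧
    (M : ℤ) ∣ q.2.1 - a' ∧ (M : ℤ) ∣ q.2.2 - b'

private theorem AQ_coprime {M S : ℕ} {η a b a' b' : ℤ} (hη : η = 1 ∨ η = -1) {q : (ℤ × ℤ) × (ℤ × ℤ)}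
    (h : AQ M S η a b a' b' q) : IsCoprime q.1.2 q.2.2 := by
  obtain ⟨-, -, -, h, -⟩ := h
  refine ⟨-η * q.2.1, η * q.1.1, ?_⟩
  have : η * η = 1 := by rcases hη with h | h <;> rw [h] <;> norm_num
  calc -η * q.2.1 * q.1.2 + η * q.1.1 * q.2.2 = η * (q.1.1 * q.2.2 - q.1.2 * q.2.1) := by ring
    _ = 1 := by rw [h, this]

private theorem AQ_inj {M S : ℕ} {η a b a' b' : ℤ} (hη : η = 1 ∨ η = -1) {q r : (ℤ × ℤ) × (ℤ × ℤ)}
    (hq : AQ M S η a b a' b' q) (hr : AQ M S η a b a' b' r) (h1 : q.1.2 = r.1.2) (h2 : q.2.2 = r.2.2) :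
    q = r := by
  have hc := AQ_coprime hη hq
  obtain ⟨⟨α, β⟩, ⟨α', β'⟩⟩ := q
  obtain ⟨⟨x, y⟩, ⟨x', y'⟩⟩ := r
  obtain ⟨q1, q2, q3, q4, q5, q6, q7, q8⟩ := hq
  obtain ⟨r1, r2, r3, r4, r5, r6, r7, r8⟩ := hr
  simp only at *
  subst h1 h2
  -- (α - x) β' = β (α' - x')
  have h3 : (α - x) * β' = β * (α' - x') := by linarith
  have h4 : β ∣ α - x := by
    apply hc.dvd_of_dvd_mul_right
    exact ⟨α' - x', h3⟩
  obtain ⟨l, hl⟩ := h4
  have h5 : α' - x' = l * β' := by
    rw [hl] at h3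
    have : β * (l * β') = β * (α' - x') := by linarith
    exact (mul_left_cancel₀ q1.ne' this).symm
  have h6 : (M : ℤ) ∣ l * β := by
    have := dvd_sub q5 r5
    rw [show α - a - (x - a) = l * β by linarith] at this
    exact this
  have h7 : (M : ℤ) ∣ l * β' := by
    have := dvd_sub q7 r7
    rw [show α' - a' - (x' - a') = l * β' by linarith] at this
    exact this
  have h8 : (M : ℤ) ∣ l := by
    obtain ⟨p, r, hpr⟩ := hc
    have : l = p * (l * β) + r * (l * β') := by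
      calc l = l * (p * β + r * β') := by rw [hpr, mul_one]
        _ = _ := by ring
    rw [this]
    exact dvd_add (h6.mul_left _) (h7.mul_left _)
  have h9 : |l| < M := by
    rw [abs_lt]
    have e1 : β * l < β * M := by linarith only [hl, q3, r2]
    have e2 : β * (-(M : ℤ)) < β * l := by linarith only [hl, q2, r3]
    exact ⟨lt_of_mul_lt_mul_left e2 q1.le, lt_of_mul_lt_mul_left e1 q1.le⟩
  have h10 : l = 0 := Int.eq_zero_of_abs_lt_dvd h8 h9
  rw [h10] at hl h5
  have e1 : α = x := by linarith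
  have e2 : α' = x' := by linarith
  rw [e1, e2]

private theorem AQ_exists {M S : ℕ} (hM : 0 < M) {η a b a' b' : ℤ} {β β' : ℤ}
    (hdet : (M : ℤ) ∣ a * b' - b * a' - η) (hβ : 0 < β) (hc : IsCoprime β β')
    (hb : (M : ℤ) ∣ β - b) (hb' : (M : ℤ) ∣ β' - b') :
    ∃ α α' : ℤ, AQ M S η a b a' b' ((α, β), (α', β')) := by
  obtain ⟨p, q, hpq⟩ := hc
  -- particular solution
  obtain ⟨x, hx⟩ : ∃ x : ℤ, x = η * q := ⟨_, rfl⟩
  obtain ⟨x', hx'⟩ : ∃ x' : ℤ, x' = -(η * p) := ⟨_, rfl⟩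
  have h0 : x * β' - β * x' = η := by
    rw [hx, hx']
    calc η * q * β' - β * -(η * p) = η * (p * β + q * β') := by ring
      _ = η := by rw [hpq, mul_one]
  obtain ⟨l, hl⟩ : ∃ l : ℤ, l = p * (a - x) + q * (a' - x') := ⟨_, rfl⟩
  have hkey : (M : ℤ) ∣ β * (a' - x') - β' * (a - x) := by
    have e : β * (a' - x') - β' * (a - x) = -(a * b' - b * a' - η) + (β - b) * a' - (β' - b') * a := by
      linear_combination h0
    rw [e]
    exact dvd_sub (dvd_add ((dvd_neg).2 hdet) (hb.mul_right _)) (hb'.mul_right _)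
  have h1 : (M : ℤ) ∣ (x + l * β) - a := by
    have e : (x + l * β) - a = q * (β * (a' - x') - β' * (a - x)) := by
      rw [hl]
      linear_combination (a - x) * hpq
    rw [e]
    exact hkey.mul_left _
  have h2 : (M : ℤ) ∣ (x' + l * β') - a' := by
    have e : (x' + l * β') - a' = -p * (β * (a' - x') - β' * (a - x)) := by
      rw [hl]
      linear_combination (a' - x') * hpq
    rw [e]
    exact hkey.mul_left _
  -- choose the residue
  have hMβ : 0 < (M : ℤ) * β := mul_pos (by exact_mod_cast hM) hβ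
  obtain ⟨k, hk⟩ : ∃ k : ℤ, k = (x + l * β - S * β) / ((M : ℤ) * β) := ⟨_, rfl⟩
  have h3 := Int.emod_nonneg (x + l * β - S * β) hMβ.ne'
  have h4 := Int.emod_lt_of_pos (x + l * β - S * β) hMβ
  have h5 := Int.mul_ediv_add_emod (x + l * β - S * β) ((M : ℤ) * β)
  rw [← hk] at h5
  refine ⟨x + l * β - k * (M * β), x' + l * β' - k * (M * β'), hβ, ?_, ?_, ?_, ?_, hb, ?_, hb'⟩
  · simp only; linarith
  · simp only; linarith
  · simp only; linear_combination h0
  · simp only
    rw [show x + l * β - k * (M * β) - a = (x + l * β - a) - M * (k * β) by ring]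
    exact dvd_sub h1 (dvd_mul_right _ _)
  · simp only
    rw [show x' + l * β' - k * (M * β') - a' = (x' + l * β' - a') - M * (k * β') by ring]
    exact dvd_sub h2 (dvd_mul_right _ _)

/-! ### frames -/

private theorem arc_re (α β : ℤ) (u v : G) : ((α : G) * u + (β : G) * v).re = α * u.re + β * v.re := by
  simp

private theorem arc_im (α β : ℤ) (u v : G) : ((α : G) * u + (β : G) * v).im = α * u.im + β * v.im := by
  simp

private theorem arc_det (α β α' β' : ℤ) (u v : G) :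
    det ((α : G) * u + (β : G) * v) ((α' : G) * u + (β' : G) * v) = (α * β' - β * α') * det u v := by
  unfold det
  rw [arc_re, arc_im, arc_re, arc_im]
  ring

private theorem arc_det_u (α β : ℤ) (u v : G) :
    det u ((α : G) * u + (β : G) * v) = β * det u v := by
  unfold det
  rw [arc_re, arc_im]
  ring

private theorem arc_det_v (α β : ℤ) (u v : G) :
    det ((α : G) * u + (β : G) * v) v = α * det u v := by
  unfold det
  rw [arc_re, arc_im]
  ring

private theorem arc_sq {u v : G} (h : Fr u v) : det u v * det u v = 1 := by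
  rw [← sq, ← sq_abs, h.1]; norm_num

private theorem arc_eta {u v : G} (h : Fr u v) : det u v = 1 ∨ det u v = -1 := by
  rcases abs_cases (det u v) with ⟨h1, _⟩ | ⟨h1, _⟩
  · left; rw [← h1, h.1]
  · right; have := h.1; omega

private theorem arc_coord {u v : G} (h : Fr u v) (z : G) :
    z = ((det u v * det z v : ℤ) : G) * u + ((det u v * det u z : ℤ) : G) * v := by
  have h2 := arc_sq h
  apply Zsqrtd.ext
  · rw [arc_re]
    unfold det at *
    linear_combination (-z.re) * h2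
  · rw [arc_im]
    unfold det at *
    linear_combination (-z.im) * h2

private theorem arc_cg {M : ℕ} {u v : G} (h : Fr u v) (α β a b : ℤ) :
    cg M ((α : G) * u + (β : G) * v) ((a : G) * u + (b : G) * v) ↔ (M : ℤ) ∣ α - a ∧ (M : ℤ) ∣ β - b := by
  unfold cg
  rw [arc_re, arc_im, arc_re, arc_im]
  constructor
  · rintro ⟨h1, h2⟩
    have h3 := arc_sq h
    constructor
    · have e : α - a = det u v * ((α * u.re + β * v.re - (a * u.re + b * v.re)) * v.im
          - (α * u.im + β * v.im - (a * u.im + b * v.im)) * v.re) := by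
        unfold det at *
        linear_combination (-(α - a)) * h3
      rw [e]
      exact (dvd_sub (h1.mul_right _) (h2.mul_right _)).mul_left _
    · have e : β - b = det u v * ((α * u.im + β * v.im - (a * u.im + b * v.im)) * u.re
          - (α * u.re + β * v.re - (a * u.re + b * v.re)) * u.im) := by
        unfold det at *
        linear_combination (-(β - b)) * h3
      rw [e]
      exact (dvd_sub (h2.mul_right _) (h1.mul_right _)).mul_left _
  · rintro ⟨h1, h2⟩
    constructor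
    · rw [show α * u.re + β * v.re - (a * u.re + b * v.re) = (α - a) * u.re + (β - b) * v.re by ring]
      exact dvd_add (h1.mul_right _) (h2.mul_right _)
    · rw [show α * u.im + β * v.im - (a * u.im + b * v.im) = (α - a) * u.im + (β - b) * v.im by ring]
      exact dvd_add (h1.mul_right _) (h2.mul_right _)


/-! ### sizes -/

private theorem arc_nm (α β : ℤ) (u v : G) : (nm ((α : G) * u + (β : G) * v) : ℤ) =
    α ^ 2 * nm u + 2 * α * β * dot u v + β ^ 2 * nm v := by
  rw [nm_eq, nm_eq, nm_eq, arc_re, arc_im]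
  unfold dot
  ring

private theorem arc_dot_u (α β : ℤ) (u v : G) : dot ((α : G) * u + (β : G) * v) u =
    α * nm u + β * dot u v := by
  rw [nm_eq]
  unfold dot
  rw [arc_re, arc_im]
  ring

private theorem arc_dot_mul {α β α' β' η : ℤ} (u v : G) (h : α * β' - β * α' = η) :
    dot ((α : G) * u + (β : G) * v) ((α' : G) * u + (β' : G) * v) * β =
      β' * nm ((α : G) * u + (β : G) * v) - η * dot ((α : G) * u + (β : G) * v) u := by
  rw [nm_eq]
  unfold dot
  rw [arc_re, arc_im, arc_re, arc_im]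
  rw [← h]
  ring

private theorem arc_nm_mul {α β α' β' η : ℤ} (hη : η = 1 ∨ η = -1) (u v : G) (h : α * β' - β * α' = η) :
    β ^ 2 * (nm ((α' : G) * u + (β' : G) * v) : ℤ) =
      β' ^ 2 * nm ((α : G) * u + (β : G) * v) - 2 * η * β' * dot ((α : G) * u + (β : G) * v) u + nm u := by
  have h1 : η * η = 1 := by rcases hη with h | h <;> rw [h] <;> norm_num
  rw [nm_eq, nm_eq, nm_eq]
  unfold dot
  rw [arc_re, arc_im, arc_re, arc_im]
  have e1 : β * α' = α * β' - η := by linarith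
  have e2 : β * (α' * u.re + β' * v.re) = β' * (α * u.re + β * v.re) - η * u.re := by
    linear_combination u.re * e1
  have e3 : β * (α' * u.im + β' * v.im) = β' * (α * u.im + β * v.im) - η * u.im := by
    linear_combination u.im * e1
  calc β ^ 2 * ((α' * u.re + β' * v.re) ^ 2 + (α' * u.im + β' * v.im) ^ 2)
      = (β * (α' * u.re + β' * v.re)) ^ 2 + (β * (α' * u.im + β' * v.im)) ^ 2 := by ring
    _ = (β' * (α * u.re + β * v.re) - η * u.re) ^ 2 + (β' * (α * u.im + β * v.im) - η * u.im) ^ 2 := by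
        rw [e2, e3]
    _ = _ := by linear_combination (u.re ^ 2 + u.im ^ 2) * h1

private theorem arc_dot_nonneg {u v : G} (h : Fr u v) : 0 ≤ dot u v := by
  obtain ⟨-, h1, h2, h3, h4⟩ := h
  unfold dot
  positivity

private theorem arc_nm_pos {u v : G} (h : Fr u v) : (1 : ℤ) ≤ nm u := by
  have h1 : u ≠ 0 := by
    rintro rfl
    have := h.1
    unfold det at this
    simp at this
  have := nm_pos h1
  omega

private theorem arc_nm_pos' {u v : G} (h : Fr u v) : (1 : ℤ) ≤ nm v := by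
  have h1 : v ≠ 0 := by
    rintro rfl
    have := h.1
    unfold det at this
    simp at this
  have := nm_pos h1
  omega

/-- the basic size estimates -/
private theorem arc_size {M S : ℕ} {η a b a' b' : ℤ} (hη : η = 1 ∨ η = -1) {u v : G} (h : Fr u v) (hS : 2 ≤ S)
    {α β α' β' : ℤ} (hq : AQ M S η a b a' b' ((α, β), (α', β'))) :
    (nm ((α : G) * u + (β : G) * v) : ℤ) > 0 ∧
    (0 < dot ((α : G) * u + (β : G) * v) ((α' : G) * u + (β' : G) * v) → 0 ≤ β') ∧
    (0 < β' → 0 < dot ((α : G) * u + (β : G) * v) ((α' : G) * u + (β' : G) * v)) ∧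
    (0 < β' → β * β' * nm (((S : ℤ) : G) * u + v) - (((S : ℤ) + M) * nm u + dot u v) ≤
      dot ((α : G) * u + (β : G) * v) ((α' : G) * u + (β' : G) * v)) ∧
    (0 < β' → dot ((α : G) * u + (β : G) * v) ((α' : G) * u + (β' : G) * v) ≤
      β * β' * nm ((((S : ℤ) + M : ℤ) : G) * u + v) + (((S : ℤ) + M) * nm u + dot u v)) ∧
    (0 < β' → |β ^ 2 * (nm ((α' : G) * u + (β' : G) * v) : ℤ) - β' ^ 2 * nm ((α : G) * u + (β : G) * v)| *
      (β * β') ≤ 3 * (β' ^ 2 * nm ((α : G) * u + (β : G) * v))) := by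
  obtain ⟨q1, q2, q3, q4, -⟩ := hq
  simp only at q1 q2 q3 q4
  have hd0 := arc_dot_nonneg h
  have hu := arc_nm_pos h
  have hv := arc_nm_pos' h
  have e1 := arc_nm α β u v
  have e2 := arc_dot_u α β u v
  have e3 := arc_dot_mul u v q4
  have e4 := arc_nm_mul hη u v q4
  have e5 : (nm (((S : ℤ) : G) * u + v) : ℤ) = (S : ℤ) ^ 2 * nm u + 2 * S * dot u v + nm v := by
    have := arc_nm (S : ℤ) 1 u v
    rw [Int.cast_one, one_mul] at this
    rw [this]; ring
  have e6 : (nm ((((S : ℤ) + M : ℤ) : G) * u + v) : ℤ) =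
      ((S : ℤ) + M) ^ 2 * nm u + 2 * ((S : ℤ) + M) * dot u v + nm v := by
    have := arc_nm ((S : ℤ) + M) 1 u v
    rw [Int.cast_one, one_mul] at this
    rw [this]; ring
  rw [e5, e6]
  generalize hD : dot ((α : G) * u + (β : G) * v) ((α' : G) * u + (β' : G) * v) = D at *
  generalize hnV : (nm ((α : G) * u + (β : G) * v) : ℤ) = nV at *
  generalize hnV' : (nm ((α' : G) * u + (β' : G) * v) : ℤ) = nV' at *
  generalize hd : dot ((α : G) * u + (β : G) * v) u = d at *
  generalize (nm u : ℤ) = U at *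
  generalize (nm v : ℤ) = W at *
  generalize dot u v = K at *
  have hS' : (2 : ℤ) ≤ S := by exact_mod_cast hS
  generalize (S : ℤ) = T at *
  have hM0 : (0 : ℤ) ≤ M := by positivity
  generalize (M : ℤ) = N at *
  have hα : 2 * β ≤ α := le_trans (mul_le_mul_of_nonneg_right hS' q1.le) q2
  have hα0 : 0 < α := by linarith only [hα, q1]
  have hU0 : 0 ≤ U := by linarith only [hu]
  have p1 : 0 < α ^ 2 * U := mul_pos (pow_pos hα0 2) (by linarith only [hu])
  have p2 : 0 ≤ α * β * K := mul_nonneg (mul_nonneg hα0.le q1.le) hd0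
  have p3 : 0 ≤ β ^ 2 * W := mul_nonneg (sq_nonneg _) (by linarith only [hv])
  have hd1 : 0 ≤ d := by
    rw [e2]; exact add_nonneg (mul_nonneg hα0.le hU0) (mul_nonneg q1.le hd0)
  have hnV0 : 0 < nV := by rw [e1]; linarith only [p1, p2, p3]
  have hαd : α * d ≤ nV := by
    rw [e1, e2]
    linarith only [p2, p3]
  have hβd : β * d ≤ nV := le_trans (mul_le_mul_of_nonneg_right (by linarith only [hα, q1]) hd1) hαd
  have h2d : 2 * d ≤ nV := le_trans (mul_le_mul_of_nonneg_right (by linarith only [hα, q1]) hd1) hαd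
  have hUV : β * U ≤ nV := by
    rw [e1]
    have h3 : β * U ≤ α ^ 2 * U := by
      apply mul_le_mul_of_nonneg_right _ (by linarith only [hu])
      exact arc_h4 q1 hα
    linarith only [h3, p2, p3]
  refine ⟨hnV0, ?_, ?_, ?_, ?_, ?_⟩
  · intro hD0
    by_contra hc
    have h1 : β' ≤ -1 := by omega
    have h2 : D * β < 0 := by
      rw [e3]
      have h3 : β' * nV ≤ (-1) * nV := mul_le_mul_of_nonneg_right h1 hnV0.le
      rcases hη with rfl | rfl <;> linarith only [h3, h2d, hd1, hnV0]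
    have h3 : 0 < D * β := mul_pos hD0 q1
    linarith only [h2, h3]
  · intro hb'
    have h2 : 0 < D * β := by
      rw [e3]
      have h3 : 1 * nV ≤ β' * nV := mul_le_mul_of_nonneg_right (by omega) hnV0.le
      rcases hη with rfl | rfl <;> linarith only [h3, h2d, hd1, hnV0]
    exact (mul_pos_iff_of_pos_right q1).1 h2
  · intro hb'
    have h1 : β ^ 2 * (T ^ 2 * U + 2 * T * K + W) ≤ nV := by
      rw [e1]
      have a1 : (T * β) ^ 2 ≤ α ^ 2 := by
        apply pow_le_pow_left₀ (mul_nonneg (by linarith only [hS']) q1.le) q2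
      have a2 : (T * β) ^ 2 * U ≤ α ^ 2 * U := mul_le_mul_of_nonneg_right a1 hU0
      have a3 : (T * β) * (2 * β * K) ≤ α * (2 * β * K) :=
        mul_le_mul_of_nonneg_right q2 (mul_nonneg (by linarith only [q1]) hd0)
      linarith only [a2, a3]
    have h2 : d ≤ β * ((T + N) * U + K) := by
      rw [e2]
      have : α * U ≤ ((T + N) * β) * U := mul_le_mul_of_nonneg_right q3.le hU0
      linarith only [this]
    have h3 : (β * β' * (T ^ 2 * U + 2 * T * K + W) - ((T + N) * U + K)) * β ≤ D * β := by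
      rw [e3]
      have h4 : β' * (β ^ 2 * (T ^ 2 * U + 2 * T * K + W)) ≤ β' * nV := mul_le_mul_of_nonneg_left h1 hb'.le
      rcases hη with rfl | rfl <;> linarith only [h4, h2, hd1]
    exact le_of_mul_le_mul_right h3 q1
  · intro hb'
    have h1 : nV ≤ β ^ 2 * ((T + N) ^ 2 * U + 2 * (T + N) * K + W) := by
      rw [e1]
      have a1 : α ^ 2 ≤ ((T + N) * β) ^ 2 := by
        apply pow_le_pow_left₀ hα0.le q3.le
      have a2 : α ^ 2 * U ≤ ((T + N) * β) ^ 2 * U := mul_le_mul_of_nonneg_right a1 hU0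
      have a3 : α * (2 * β * K) ≤ ((T + N) * β) * (2 * β * K) :=
        mul_le_mul_of_nonneg_right q3.le (mul_nonneg (by linarith only [q1]) hd0)
      linarith only [a2, a3]
    have h2 : d ≤ β * ((T + N) * U + K) := by
      rw [e2]
      have : α * U ≤ ((T + N) * β) * U := mul_le_mul_of_nonneg_right q3.le hU0
      linarith only [this]
    have h3 : D * β ≤ (β * β' * ((T + N) ^ 2 * U + 2 * (T + N) * K + W) + ((T + N) * U + K)) * β := by
      rw [e3]
      have h4 : β' * nV ≤ β' * (β ^ 2 * ((T + N) ^ 2 * U + 2 * (T + N) * K + W)) :=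
        mul_le_mul_of_nonneg_left h1 hb'.le
      rcases hη with rfl | rfl <;> linarith only [h4, h2, hd1]
    exact le_of_mul_le_mul_right h3 q1
  · intro hb'
    rw [e4]
    have h1 : |β' ^ 2 * nV - 2 * η * β' * d + U - β' ^ 2 * nV| ≤ 2 * β' * d + U := by
      rw [show β' ^ 2 * nV - 2 * η * β' * d + U - β' ^ 2 * nV = U - 2 * η * β' * d by ring, abs_le]
      have : 0 ≤ β' * d := mul_nonneg hb'.le hd1
      rcases hη with rfl | rfl
      · constructor <;> linarith only [this, hU0]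
      · constructor <;> linarith only [this, hU0]
    calc |β' ^ 2 * nV - 2 * η * β' * d + U - β' ^ 2 * nV| * (β * β')
        ≤ (2 * β' * d + U) * (β * β') := mul_le_mul_of_nonneg_right h1 (mul_nonneg q1.le hb'.le)
      _ = 2 * β' ^ 2 * (β * d) + β' * (β * U) := by ring
      _ ≤ 2 * β' ^ 2 * nV + β' * nV := by
          have a1 := mul_le_mul_of_nonneg_left hβd (sq_nonneg β')
          have a2 := mul_le_mul_of_nonneg_left hUV hb'.le
          linarith only [a1, a2]
      _ ≤ 3 * (β' ^ 2 * nV) := by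
          have : β' * nV ≤ β' ^ 2 * nV := by
            apply mul_le_mul_of_nonneg_right _ hnV0.le
            exact arc_h5 hb'
          linarith only [this]

/-- parametrization of the edges in an arc -/
private theorem arc_param {M S : ℕ} {u v : G} (h : Fr u v) {γ : G × G} {s t x : ℝ} {e : G × G}
    (he : e ∈ NE M γ s t x) (he' : e.1 ∈ arc u v S M) :
    ∃ α β α' β' : ℤ, e = ((α : G) * u + (β : G) * v, (α' : G) * u + (β' : G) * v) ∧
      AQ M S (det u v) (det u v * det γ.1 v) (det u v * det u γ.1) (det u v * det γ.2 v)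
        (det u v * det u γ.2) ((α, β), (α', β')) := by
  obtain ⟨V, V'⟩ := e
  obtain ⟨h1, -, -, -, -, h6, h7⟩ := he
  obtain ⟨α, β, rfl, a2, a3, a4⟩ := he'
  simp only at *
  have hV' := arc_coord h V'
  obtain ⟨α', hα'⟩ : ∃ α' : ℤ, α' = det u v * det V' v := ⟨_, rfl⟩
  obtain ⟨β', hβ'⟩ : ∃ β' : ℤ, β' = det u v * det u V' := ⟨_, rfl⟩
  rw [← hα', ← hβ'] at hV'
  rw [hV', arc_det] at h1
  have h2 := arc_sq h
  refine ⟨α, β, α', β', by rw [← hV'], a2, a3, a4, ?_, ?_⟩
  · simp only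
    linear_combination (det u v) * h1 - (α * β' - β * α') * h2
  · rw [arc_coord h γ.1, arc_cg h] at h6
    rw [hV', arc_coord h γ.2, arc_cg h] at h7
    simp only
    -- the coordinates appear again as coordinates
    refine ⟨?_, ?_, ?_, ?_⟩
    · exact h6.1
    · exact h6.2
    · exact h7.1
    · exact h7.2

/-- ratio bounds -/
private theorem arc_ratio_bounds {X Y P B δ : ℝ} (h : |X - Y| * P ≤ 3 * Y) (hB : 0 < B) (hP : B ≤ P)
    (h3 : 3 / B ≤ 1 - Real.exp (-δ)) (hY : 0 ≤ Y) :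
    Real.exp (-δ) * Y ≤ X ∧ X ≤ Real.exp δ * Y := by
  have h4 : |X - Y| * B ≤ 3 * Y := (mul_le_mul_of_nonneg_left hP (abs_nonneg _)).trans h
  have h5 : |X - Y| ≤ (3 / B) * Y := by
    rw [div_mul_eq_mul_div, le_div_iff₀ hB]
    exact h4
  have h6 : |X - Y| ≤ (1 - Real.exp (-δ)) * Y := h5.trans (mul_le_mul_of_nonneg_right h3 hY)
  have h7 : 1 + (1 - Real.exp (-δ)) ≤ Real.exp δ := by
    have e1 := Real.add_one_le_exp (-δ)
    have e2 := Real.add_one_le_exp δ
    linarith
  have h8 := abs_le.1 h6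
  constructor
  · linarith [h8.1]
  · have := mul_le_mul_of_nonneg_right h7 hY
    linarith [h8.2]

/-- the edges in an arc -/
private def EA (M : ℕ) (γ : G × G) (u v : G) (S : ℕ) (s t x : ℝ) : Set (G × G) :=
  {e | e ∈ NE M γ s t x ∧ e.1 ∈ arc u v S M}

private theorem EA_finite (M : ℕ) (γ : G × G) (u v : G) (S : ℕ) (s t x : ℝ) : (EA M γ u v S s t x).Finite :=
  (NE_finite M γ s t x).subset (fun _ he => he.1)

private theorem cop_finite (M : ℕ) (b b' : ℤ) (s t Y : ℝ) : (cop M b b' s t Y).Finite := by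
  apply (((Set.finite_Icc (0 : ℤ) ⌈|Y|⌉₊).prod (Set.finite_Icc (0 : ℤ) ⌈|Y|⌉₊))).subset
  rintro ⟨r, r'⟩ ⟨h1, h2, -, -, -, h3, -⟩
  simp only at h1 h2 h3
  have h4 : ((r * r' : ℤ) : ℝ) ≤ (⌈|Y|⌉₊ : ℝ) := h3.trans ((le_abs_self Y).trans (Nat.le_ceil _))
  have h5 : r * r' ≤ (⌈|Y|⌉₊ : ℤ) := by exact_mod_cast h4
  refine ⟨⟨h1.le, ?_⟩, h2.le, ?_⟩
  · show r ≤ _
    exact arc_h6 h1 h2 h5
  · show r' ≤ _
    exact arc_h6 h2 h1 (by rw [mul_comm]; exact h5)

/-- upper bound -/
private theorem arc_upper (M : ℕ) (γ : G × G) (u v : G) (huv : Fr u v) (S : ℕ) (hS : 2 ≤ S) (s t : ℝ)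
    (δ : ℝ) (B : ℕ) (hB : 0 < B) (h3 : 3 / (B : ℝ) ≤ 1 - Real.exp (-δ)) (x : ℝ) :
    (EA M γ u v S s t x).ncard ≤
      (cop M (det u v * det u γ.1) (det u v * det u γ.2) (s - δ) (t + δ)
        ((x + ((((S : ℤ) + M) * nm u + dot u v : ℤ) : ℝ)) / (nm (((S : ℤ) : G) * u + v) : ℝ))).ncard +
      (Set.Icc (0 : ℤ) B ×ˢ Set.Icc (0 : ℤ) B).ncard := by
  refine le_trans ?_ (Set.ncard_union_le _ _)
  have hη := arc_eta huv
  have hη2 := arc_sq huv
  refine Set.ncard_le_ncard_of_injOn (fun e => (det u v * det u e.1, det u v * det u e.2)) ?_ ?_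
    ((cop_finite _ _ _ _ _ _).union ((Set.finite_Icc _ _).prod (Set.finite_Icc _ _)))
  · rintro e ⟨he, he'⟩
    obtain ⟨α, β, α', β', rfl, hq⟩ := arc_param huv he he'
    have hco := AQ_coprime hη hq
    obtain ⟨s1, s2, s3, s4, s5, s6⟩ := arc_size hη huv hS hq
    obtain ⟨q1, q2, q3, q4, q5, q6, q7, q8⟩ := hq
    obtain ⟨n1, n2, n3, n4, n5, -, -⟩ := he
    simp only at *
    have e1 : det u v * det u ((α : G) * u + (β : G) * v) = β := by
      rw [arc_det_u]; linear_combination β * hη2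
    have e2 : det u v * det u ((α' : G) * u + (β' : G) * v) = β' := by
      rw [arc_det_u]; linear_combination β' * hη2
    rw [e1, e2]
    have hb0 := s2 n2
    have hB1 : (1 : ℤ) ≤ B := by exact_mod_cast hB
    rcases eq_or_lt_of_le hb0 with hb | hb
    · right
      rw [← hb] at hco
      have : IsUnit β := isCoprime_zero_right.1 hco
      have : β = 1 := by
        rcases Int.isUnit_iff.1 this with h | h <;> omega
      exact ⟨⟨by simp only; omega, by simp only; omega⟩, by simp only; omega, by simp only; omega⟩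
    · by_cases hP : (B : ℤ) ≤ β * β'
      · left
        have hP' : (B : ℝ) ≤ (β : ℝ) * β' := by exact_mod_cast hP
        have hBr : (0 : ℝ) < B := by exact_mod_cast hB
        have t6 := s6 hb
        generalize hnV : nm ((α : G) * u + (β : G) * v) = nV at *
        generalize hnV' : nm ((α' : G) * u + (β' : G) * v) = nV' at *
        have t6' : |(β : ℝ) ^ 2 * nV' - β' ^ 2 * nV| * ((β : ℝ) * β') ≤ 3 * ((β' : ℝ) ^ 2 * nV) := by
          exact_mod_cast t6
        have hnVr : (0 : ℝ) < nV := by exact_mod_cast s1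
        obtain ⟨r1, r2⟩ := arc_ratio_bounds t6' hBr hP' h3 (by positivity)
        refine ⟨q1, hb, hco, q6, q8, ?_, ?_, ?_⟩
        · simp only
          have hQ : (0 : ℝ) < (nm (((S : ℤ) : G) * u + v) : ℝ) := by
            have hne : (((S : ℤ) : G) * u + v) ≠ 0 := by
              intro h0
              have := arc_det_u (S : ℤ) 1 u v
              rw [Int.cast_one, one_mul, h0] at this
              unfold det at this hη
              simp at this
              rcases hη with h | h <;> omega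
            exact_mod_cast nm_pos hne
          rw [le_div_iff₀ hQ]
          have t4 := s4 hb
          have t4' : ((β * β' * nm (((S : ℤ) : G) * u + v) - (((S : ℤ) + M) * nm u + dot u v) : ℤ) : ℝ) ≤ x :=
            le_trans (by exact_mod_cast t4) n3
          push_cast at t4' ⊢
          linarith only [t4']
        · simp only
          have a1 : Real.exp s * (β : ℝ) ^ 2 * nV ≤ Real.exp δ * (β' : ℝ) ^ 2 * nV := by
            have := mul_le_mul_of_nonneg_left n4 (sq_nonneg (β : ℝ))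
            linarith only [this, r2]
          have a2 : Real.exp s * (β : ℝ) ^ 2 ≤ Real.exp δ * (β' : ℝ) ^ 2 := le_of_mul_le_mul_right a1 hnVr
          rw [Real.exp_sub, div_mul_eq_mul_div, div_le_iff₀ (Real.exp_pos _)]
          linarith only [a2]
        · simp only
          have hβr : (0 : ℝ) < (β : ℝ) ^ 2 := by
            have : (0 : ℝ) < β := by exact_mod_cast q1
            positivity
          have a1 : Real.exp (-δ) * (β' : ℝ) ^ 2 * nV < Real.exp t * (β : ℝ) ^ 2 * nV := by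
            have := mul_lt_mul_of_pos_left n5 hβr
            linarith only [this, r1]
          have a2 : Real.exp (-δ) * (β' : ℝ) ^ 2 < Real.exp t * (β : ℝ) ^ 2 := lt_of_mul_lt_mul_right a1 hnVr.le
          rw [Real.exp_add]
          rw [Real.exp_neg] at a2
          have hδ := Real.exp_pos δ
          have a3 := mul_lt_mul_of_pos_left a2 hδ
          rw [← mul_assoc, mul_inv_cancel₀ hδ.ne', one_mul] at a3
          linarith only [a3]
      · right
        have h5 : β * β' < B := by omega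
        refine ⟨⟨q1.le, ?_⟩, hb.le, ?_⟩
        · show β ≤ B
          exact arc_h6 q1 hb h5.le
        · show β' ≤ B
          exact arc_h6 hb q1 (by rw [mul_comm]; exact h5.le)
  · rintro e ⟨he, he'⟩ f ⟨hf, hf'⟩ hef
    obtain ⟨α, β, α', β', rfl, hq⟩ := arc_param huv he he'
    obtain ⟨x, y, x', y', rfl, hr⟩ := arc_param huv hf hf'
    simp only [Prod.mk.injEq] at hef
    rw [arc_det_u, arc_det_u, arc_det_u, arc_det_u] at hef
    have e1 : β = y := by
      have := hef.1
      linear_combination this - (β - y) * hη2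
    have e2 : β' = y' := by
      have := hef.2
      linear_combination this - (β' - y') * hη2
    have := AQ_inj hη hq hr e1 e2
    simp only [Prod.mk.injEq] at this
    obtain ⟨⟨rfl, rfl⟩, rfl, rfl⟩ := this
    rfl

/-- lower bound -/
private theorem arc_lower (M : ℕ) (hM : 0 < M) (γ : G × G) (hγ : (M : ℤ) ∣ det γ.1 γ.2 - 1) (u v : G) (huv : Fr u v)
    (S : ℕ) (hS : 2 ≤ S) (s t : ℝ)
    (δ : ℝ) (B : ℕ) (hB : 0 < B) (h3 : 3 / (B : ℝ) ≤ 1 - Real.exp (-δ)) (x : ℝ) :
    (cop M (det u v * det u γ.1) (det u v * det u γ.2) (s + δ) (t - δ)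
        ((x - ((((S : ℤ) + M) * nm u + dot u v : ℤ) : ℝ)) /
          (nm ((((S : ℤ) + M : ℤ) : G) * u + v) : ℝ))).ncard ≤
      (EA M γ u v S s t x).ncard + (Set.Icc (0 : ℤ) B ×ˢ Set.Icc (0 : ℤ) B).ncard := by
  have hη := arc_eta huv
  have hη2 := arc_sq huv
  have hfin := EA_finite M γ u v S s t x
  have h1 : (EA M γ u v S s t x).ncard ≥
      ((fun e : G × G => (det u v * det u e.1, det u v * det u e.2)) '' (EA M γ u v S s t x)).ncard :=
    Set.ncard_image_le hfin
  refine le_trans ?_ (Nat.add_le_add_right h1 _)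
  refine le_trans ?_ (Set.ncard_union_le _ _)
  apply Set.ncard_le_ncard
  · rintro ⟨β, β'⟩ ⟨c1, c2, c3, c4, c5, c6, c7, c8⟩
    simp only at *
    by_cases hP : (B : ℤ) ≤ β * β'
    · left
      have hdet : (M : ℤ) ∣ (det u v * det γ.1 v) * (det u v * det u γ.2) -
          (det u v * det u γ.1) * (det u v * det γ.2 v) - det u v := by
        have e1 : (det u v * det γ.1 v) * (det u v * det u γ.2) -
          (det u v * det u γ.1) * (det u v * det γ.2 v) = det u v * det γ.1 γ.2 := by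
          have h5 := arc_det (det u v * det γ.1 v) (det u v * det u γ.1) (det u v * det γ.2 v)
            (det u v * det u γ.2) u v
          rw [← arc_coord huv γ.1, ← arc_coord huv γ.2] at h5
          rw [h5]
          linear_combination (-((det u v * det γ.1 v) * (det u v * det u γ.2) -
            (det u v * det u γ.1) * (det u v * det γ.2 v))) * hη2
        rw [e1]
        rw [show det u v * det γ.1 γ.2 - det u v = (det γ.1 γ.2 - 1) * det u v by ring]
        exact hγ.mul_right _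
      obtain ⟨α, α', hq⟩ := AQ_exists (S := S) hM hdet c1 c3 c4 c5
      obtain ⟨s1, s2, s3, s4, s5, s6⟩ := arc_size hη huv hS hq
      obtain ⟨q1, q2, q3, q4, q5, q6, q7, q8⟩ := hq
      simp only at q1 q2 q3 q4 q5 q6 q7 q8
      have hP' : (B : ℝ) ≤ (β : ℝ) * β' := by exact_mod_cast hP
      have hBr : (0 : ℝ) < B := by exact_mod_cast hB
      have t6 := s6 c2
      refine ⟨((α : G) * u + (β : G) * v, (α' : G) * u + (β' : G) * v), ⟨⟨?_, ?_, ?_, ?_, ?_, ?_, ?_⟩, ?_⟩, ?_⟩
      · simp only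
        rw [arc_det, q4, hη2]
      · exact s3 c2
      · simp only
        have t5 := s5 c2
        have hQ : (0 : ℝ) < (nm ((((S : ℤ) + M : ℤ) : G) * u + v) : ℝ) := by
          have hne : ((((S : ℤ) + M : ℤ) : G) * u + v) ≠ 0 := by
            intro h0
            have := arc_det_u ((S : ℤ) + M) 1 u v
            rw [Int.cast_one, one_mul, h0] at this
            unfold det at this hη
            simp at this
            rcases hη with h | h <;> omega
          exact_mod_cast nm_pos hne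
        rw [le_div_iff₀ hQ] at c6
        have t5' : ((dot ((α : G) * u + (β : G) * v) ((α' : G) * u + (β' : G) * v) : ℤ) : ℝ) ≤
          ((β * β' * nm ((((S : ℤ) + M : ℤ) : G) * u + v) + (((S : ℤ) + M) * nm u + dot u v) : ℤ) : ℝ) := by
          exact_mod_cast t5
        refine t5'.trans ?_
        rw [Int.cast_add]
        have e3 : ((β * β' * (nm ((((S : ℤ) + M : ℤ) : G) * u + v) : ℤ) : ℤ) : ℝ) =
          ((β * β' : ℤ) : ℝ) * (nm ((((S : ℤ) + M : ℤ) : G) * u + v) : ℝ) := by push_cast; ring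
        rw [e3]
        linarith only [c6]
      · simp only
        generalize hnV : nm ((α : G) * u + (β : G) * v) = nV at *
        generalize hnV' : nm ((α' : G) * u + (β' : G) * v) = nV' at *
        have t6' : |(β : ℝ) ^ 2 * nV' - β' ^ 2 * nV| * ((β : ℝ) * β') ≤ 3 * ((β' : ℝ) ^ 2 * nV) := by
          exact_mod_cast t6
        have hnVr : (0 : ℝ) < nV := by exact_mod_cast s1
        obtain ⟨r1, r2⟩ := arc_ratio_bounds t6' hBr hP' h3 (by positivity)
        have hβr : (0 : ℝ) < (β : ℝ) ^ 2 := by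
          have : (0 : ℝ) < β := by exact_mod_cast q1
          positivity
        have a1 : Real.exp s * (β : ℝ) ^ 2 ≤ Real.exp (-δ) * (β' : ℝ) ^ 2 := by
          rw [Real.exp_add] at c7
          have := mul_le_mul_of_nonneg_left c7 (Real.exp_pos (-δ)).le
          have e4 : Real.exp (-δ) * (Real.exp s * Real.exp δ * (β : ℝ) ^ 2) = Real.exp s * (β : ℝ) ^ 2 := by
            rw [Real.exp_neg]
            field_simp
          rw [e4] at this
          exact this
        have a2 : (β : ℝ) ^ 2 * (Real.exp s * nV) ≤ (β : ℝ) ^ 2 * nV' := by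
          have := mul_le_mul_of_nonneg_right a1 hnVr.le
          linarith only [this, r1]
        exact le_of_mul_le_mul_left a2 hβr
      · simp only
        generalize hnV : nm ((α : G) * u + (β : G) * v) = nV at *
        generalize hnV' : nm ((α' : G) * u + (β' : G) * v) = nV' at *
        have t6' : |(β : ℝ) ^ 2 * nV' - β' ^ 2 * nV| * ((β : ℝ) * β') ≤ 3 * ((β' : ℝ) ^ 2 * nV) := by
          exact_mod_cast t6
        have hnVr : (0 : ℝ) < nV := by exact_mod_cast s1
        obtain ⟨r1, r2⟩ := arc_ratio_bounds t6' hBr hP' h3 (by positivity)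
        have hβr : (0 : ℝ) < (β : ℝ) ^ 2 := by
          have : (0 : ℝ) < β := by exact_mod_cast q1
          positivity
        have a1 : Real.exp δ * (β' : ℝ) ^ 2 < Real.exp t * (β : ℝ) ^ 2 := by
          rw [Real.exp_sub] at c8
          have := mul_lt_mul_of_pos_left c8 (Real.exp_pos δ)
          have e4 : Real.exp δ * (Real.exp t / Real.exp δ * (β : ℝ) ^ 2) = Real.exp t * (β : ℝ) ^ 2 := by
            field_simp
          rw [e4] at this
          exact this
        have a2 : (β : ℝ) ^ 2 * nV' < (β : ℝ) ^ 2 * (Real.exp t * nV) := by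
          have := mul_lt_mul_of_pos_right a1 hnVr
          linarith only [this, r2]
        exact lt_of_mul_lt_mul_left a2 hβr.le
      · simp only
        rw [arc_coord huv γ.1, arc_cg huv]
        exact ⟨q5, q6⟩
      · simp only
        rw [arc_coord huv γ.2, arc_cg huv]
        exact ⟨q7, q8⟩
      · exact ⟨α, β, rfl, q1, q2, q3⟩
      · simp only [Prod.mk.injEq]
        rw [arc_det_u, arc_det_u]
        constructor
        · linear_combination β * hη2
        · linear_combination β' * hη2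
    · right
      have h5 : β * β' < B := by omega
      refine ⟨⟨c1.le, ?_⟩, c2.le, ?_⟩
      · show β ≤ B
        exact arc_h6 c1 c2 h5.le
      · show β' ≤ B
        exact arc_h6 c2 c1 (by rw [mul_comm]; exact h5.le)
  · exact (hfin.image _).union ((Set.finite_Icc _ _).prod (Set.finite_Icc _ _))


/-- the final inequalities -/
private theorem arc_real (c : ℝ) (hc0 : 0 ≤ c) (w : ℝ) (hw : 0 ≤ w) (Q : ℝ) (hQ : 1 ≤ Q) (C1 C2 ε : ℝ)
    (hC2 : 0 ≤ C2) (hε : 0 < ε) (δ : ℝ) (hδ : 0 < δ) (hδε : (2 * c + 1) * δ ≤ ε / 2) :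
    ∃ x0 : ℝ, ∀ x : ℝ, x0 ≤ x → (c * (w + 2 * δ) + δ) * ((x + C1) / Q) + C2 ≤ c * w / Q * x + ε * x := by
  refine ⟨max 1 (2 * ((c * (w + 2 * δ) + δ) * (|C1| / Q) + C2) / ε), fun x hx => ?_⟩
  have hx1 : 1 ≤ x := (le_max_left _ _).trans hx
  have hx2 := (le_max_right _ _).trans hx
  rw [div_le_iff₀ hε] at hx2
  have hQ0 : 0 < Q := by linarith
  have h1 : (c * (w + 2 * δ) + δ) * ((x + C1) / Q) =
      c * w / Q * x + ((2 * c + 1) * δ) * (x / Q) + (c * (w + 2 * δ) + δ) * (C1 / Q) := by ring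
  have h2 : ((2 * c + 1) * δ) * (x / Q) ≤ ε / 2 * x := by
    have e1 : x / Q ≤ x := div_le_self (by linarith) hQ
    have e2 : 0 ≤ x / Q := by positivity
    calc ((2 * c + 1) * δ) * (x / Q) ≤ (ε / 2) * (x / Q) := mul_le_mul_of_nonneg_right hδε e2
      _ ≤ ε / 2 * x := mul_le_mul_of_nonneg_left e1 (by linarith)
  have h3 : (c * (w + 2 * δ) + δ) * (C1 / Q) ≤ (c * (w + 2 * δ) + δ) * (|C1| / Q) := by
    apply mul_le_mul_of_nonneg_left _ (by positivity)
    exact div_le_div_of_nonneg_right (le_abs_self C1) hQ0.le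
  rw [h1]
  linarith

private theorem arc_real' (c : ℝ) (hc0 : 0 ≤ c) (w : ℝ) (Q : ℝ) (hQ : 1 ≤ Q) (C1 C2 ε : ℝ)
    (hC2 : 0 ≤ C2) (hε : 0 < ε) (δ : ℝ) (hδ : 0 < δ) (hδε : (2 * c + 1) * δ ≤ ε / 2) (hw : 2 * δ ≤ w) :
    ∃ x0 : ℝ, ∀ x : ℝ, x0 ≤ x → c * w / Q * x - ε * x ≤ (c * (w - 2 * δ) - δ) * ((x - C1) / Q) - C2 := by
  refine ⟨max 1 (2 * (|c * (w - 2 * δ) - δ| * (|C1| / Q) + C2) / ε), fun x hx => ?_⟩
  have hx1 : 1 ≤ x := (le_max_left _ _).trans hx
  have hx2 := (le_max_right _ _).trans hx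
  rw [div_le_iff₀ hε] at hx2
  have hQ0 : 0 < Q := by linarith
  have h1 : (c * (w - 2 * δ) - δ) * ((x - C1) / Q) =
      c * w / Q * x - ((2 * c + 1) * δ) * (x / Q) - (c * (w - 2 * δ) - δ) * (C1 / Q) := by ring
  have h2 : ((2 * c + 1) * δ) * (x / Q) ≤ ε / 2 * x := by
    have e1 : x / Q ≤ x := div_le_self (by linarith) hQ
    have e2 : 0 ≤ x / Q := by positivity
    calc ((2 * c + 1) * δ) * (x / Q) ≤ (ε / 2) * (x / Q) := mul_le_mul_of_nonneg_right hδε e2
      _ ≤ ε / 2 * x := mul_le_mul_of_nonneg_left e1 (by linarith)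
  have h3 : (c * (w - 2 * δ) - δ) * (C1 / Q) ≤ |c * (w - 2 * δ) - δ| * (|C1| / Q) := by
    refine (le_abs_self _).trans ?_
    rw [abs_mul, abs_div, abs_of_pos hQ0]
  rw [h1]
  linarith

private theorem arc_Q {u v : G} (h : Fr u v) (k : ℤ) : (1 : ℝ) ≤ (nm ((k : G) * u + v) : ℝ) := by
  have hη := arc_eta h
  have hne : ((k : G) * u + v) ≠ 0 := by
    intro h0
    have := arc_det_u k 1 u v
    rw [Int.cast_one, one_mul, h0] at this
    unfold det at this hη
    simp at this
    rcases hη with h | h <;> omega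
  have := nm_pos hne
  exact_mod_cast this

/-- Correspondence. Let `η = det u v = ±1`. An edge `(V, V')` with `V = α u + β v` in the arc; write `V' = α' u + β' v` (`det u v = ±1`).
`α β' - β α' = η`. If `β' > 0` then `β, β'` are coprime positive, their class modulo `M` is that of the coordinates `(b, b')` of `γ` with respect
to `u, v`, and `gcd(b, b', M) = 1` as `det γ = 1` mod `M`. Conversely, for coprime `β, β' > 0` with `(β, β') = (b, b')` mod `M` there is exactly one
`(α, α')` with `α β' - β α' = η`, `S β ≤ α < (S + M) β` and the right class modulo `M`: the solutions are `(α0 + l β, α0' + l β')`, `l ∈ ℤ`,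
and those in the class of `γ` form one residue class of `l` modulo `M` (`(β, β')` is primitive modulo `M`).
Sizes (`u`, `v` in the closed quadrant, so `u . v ≥ 0`, and `Q(σ) = |σ u + v|^2` increases in `σ ≥ 0`, `σ = α / β`): `V' = (β'/β) V - (η/β) u`;
`dot V V' = β β' Q(σ) - η dot (σ u + v) u`; `|V'|^2 / |V|^2 = (β'/β)^2 |1 - η u / (β' V)|^2` with `|u| / (β' |V|) ≤ 1 / (β β' S)`.
Upper bound: `β' ≤ 0` only for finitely many edges (`V' = u` type), and for `β β' ≥ B0(δ)` the pair `(β, β')` is in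
`cop M b b' (s - δ) (t + δ) ((x + C1) / Q(S))`; pairs with `β β' < B0` give finitely many edges. Lower bound: pairs in
`cop M b b' (s + δ) (t - δ) ((x - C1) / Q(S + M))` with `β β' ≥ B0` give edges in the set (if `t - s ≤ 2 δ` the lower bound is trivial).
Conclude with `CopC`, choosing `δ` small. -/
theorem arc_asymp (M : ℕ) (hM : 0 < M) (c : ℝ) (hc : CopC M c) (γ : G × G) (hγ : (M : ℤ) ∣ det γ.1 γ.2 - 1)
    (u v : G) (huv : Fr u v) (S : ℕ) (hS : 2 ≤ S) (s t : ℝ) (hst : s ≤ t) (ε : ℝ) (hε : 0 < ε) :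
    ∃ x0 : ℝ, ∀ x : ℝ, x0 ≤ x →
      c * (t - s) / (nm ((((S : ℤ) + M : ℤ) : G) * u + v) : ℝ) * x - ε * x ≤
        ({e : G × G | e ∈ NE M γ s t x ∧ e.1 ∈ arc u v S M}.ncard : ℝ) ∧
      ({e : G × G | e ∈ NE M γ s t x ∧ e.1 ∈ arc u v S M}.ncard : ℝ) ≤
        c * (t - s) / (nm (((S : ℤ) : G) * u + v) : ℝ) * x + ε * x := by
  have hc0 := copC_nonneg M c hc
  have hη := arc_eta huv
  have hη2 := arc_sq huv
  -- coprimality of the class
  have hgcd : Int.gcd (Int.gcd (det u v * det u γ.1) (det u v * det u γ.2)) M = 1 := by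
    obtain ⟨k, hk⟩ := hγ
    have h5 := arc_det (det u v * det γ.1 v) (det u v * det u γ.1) (det u v * det γ.2 v)
      (det u v * det u γ.2) u v
    rw [← arc_coord huv γ.1, ← arc_coord huv γ.2] at h5
    generalize det u v * det u γ.1 = b at *
    generalize det u v * det u γ.2 = b' at *
    generalize det u v * det γ.1 v = a at *
    generalize det u v * det γ.2 v = a' at *
    apply Nat.dvd_one.1
    have h6 : ((Int.gcd (Int.gcd b b') M : ℕ) : ℤ) ∣ 1 := by
      have d1 : ((Int.gcd (Int.gcd b b') M : ℕ) : ℤ) ∣ (Int.gcd b b' : ℤ) := Int.gcd_dvd_left _ _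
      have d2 : ((Int.gcd (Int.gcd b b') M : ℕ) : ℤ) ∣ M := Int.gcd_dvd_right _ _
      have d3 : ((Int.gcd (Int.gcd b b') M : ℕ) : ℤ) ∣ b := d1.trans (Int.gcd_dvd_left _ _)
      have d4 : ((Int.gcd (Int.gcd b b') M : ℕ) : ℤ) ∣ b' := d1.trans (Int.gcd_dvd_right _ _)
      have e1 : (1 : ℤ) = b' * (a * det u v) - b * (a' * det u v) - M * k := by linarith
      rw [e1]
      exact dvd_sub (dvd_sub (d4.mul_right _) (d3.mul_right _)) (d2.mul_right _)
    exact_mod_cast h6
  -- choice of delta and B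
  obtain ⟨δ, hδ, hδε⟩ : ∃ δ : ℝ, 0 < δ ∧ (2 * c + 1) * δ ≤ ε / 2 := by
    refine ⟨ε / 2 / (2 * c + 1), by positivity, ?_⟩
    rw [mul_div_cancel₀ _ (by positivity : (2 * c + 1) ≠ 0)]
  have hr : 0 < 1 - Real.exp (-δ) := by
    have : Real.exp (-δ) < 1 := by
      rw [← Real.exp_zero]
      exact Real.exp_lt_exp.2 (by linarith)
    linarith
  obtain ⟨B, hB⟩ := exists_nat_gt (3 / (1 - Real.exp (-δ)))
  have hB0 : 0 < B := by
    have : (0 : ℝ) < B := lt_trans (by positivity) hB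
    exact_mod_cast this
  have h3 : 3 / (B : ℝ) ≤ 1 - Real.exp (-δ) := by
    rw [div_lt_iff₀ hr] at hB
    rw [div_le_iff₀ (by exact_mod_cast hB0)]
    linarith
  obtain ⟨C1, hC1⟩ : ∃ C1 : ℝ, C1 = ((((S : ℤ) + M) * nm u + dot u v : ℤ) : ℝ) := ⟨_, rfl⟩
  obtain ⟨C2, hC2⟩ : ∃ C2 : ℝ, C2 = ((Set.Icc (0 : ℤ) B ×ˢ Set.Icc (0 : ℤ) B).ncard : ℝ) := ⟨_, rfl⟩
  have hC20 : 0 ≤ C2 := by rw [hC2]; positivity
  have hQ1 := arc_Q huv (S : ℤ)
  have hQ2 := arc_Q huv ((S : ℤ) + M)
  obtain ⟨Q1, hQ1'⟩ : ∃ Q1 : ℝ, Q1 = (nm (((S : ℤ) : G) * u + v) : ℝ) := ⟨_, rfl⟩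
  obtain ⟨Q2, hQ2'⟩ : ∃ Q2 : ℝ, Q2 = (nm ((((S : ℤ) + M : ℤ) : G) * u + v) : ℝ) := ⟨_, rfl⟩
  rw [← hQ1'] at hQ1
  rw [← hQ2'] at hQ2
  have hup := arc_upper M γ u v huv S hS s t δ B hB0 h3
  have hlo := arc_lower M hM γ hγ u v huv S hS s t δ B hB0 h3
  rw [← hC1, ← hQ1'] at hup
  rw [← hC1, ← hQ2'] at hlo
  rw [← hQ1', ← hQ2']
  change ∃ x0 : ℝ, ∀ x : ℝ, x0 ≤ x → _ ≤ ((EA M γ u v S s t x).ncard : ℝ) ∧
    ((EA M γ u v S s t x).ncard : ℝ) ≤ _
  -- upper
  have hU : ∃ x0 : ℝ, ∀ x : ℝ, x0 ≤ x → ((EA M γ u v S s t x).ncard : ℝ) ≤ c * (t - s) / Q1 * x + ε * x := by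
    have hl := hc _ _ hgcd (s - δ) (t + δ) (by linarith)
    have hl2 : ∀ᶠ Y : ℝ in atTop, ((cop M (det u v * det u γ.1) (det u v * det u γ.2) (s - δ) (t + δ) Y).ncard : ℝ) / Y
        ≤ c * (t + δ - (s - δ)) + δ := by
      filter_upwards [hl.eventually_lt_const (by linarith : c * (t + δ - (s - δ)) < c * (t + δ - (s - δ)) + δ)]
        with Y hY using hY.le
    obtain ⟨Y0, hY0⟩ := eventually_atTop.1 hl2
    obtain ⟨x1, hx1⟩ := arc_real c hc0 (t - s) (by linarith) Q1 hQ1 C1 C2 ε hC20 hε δ hδ hδε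
    refine ⟨max x1 (max Y0 1 * Q1 - C1), fun x hx => ?_⟩
    have e1 := (le_max_left _ _).trans hx
    have e2 := (le_max_right _ _).trans hx
    have e3 : max Y0 1 ≤ (x + C1) / Q1 := by
      rw [le_div_iff₀ (by linarith)]
      linarith
    have e4 := hY0 _ ((le_max_left _ _).trans e3)
    have e5 : 0 < (x + C1) / Q1 := lt_of_lt_of_le one_pos ((le_max_right _ _).trans e3)
    rw [div_le_iff₀ e5] at e4
    have e6 := hx1 x e1
    have e7 : ((EA M γ u v S s t x).ncard : ℝ) ≤ ((cop M (det u v * det u γ.1) (det u v * det u γ.2) (s - δ) (t + δ)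
        ((x + C1) / Q1)).ncard : ℝ) + C2 := by
      rw [hC2]
      exact_mod_cast hup x
    have e8 : c * (t + δ - (s - δ)) + δ = c * (t - s + 2 * δ) + δ := by ring
    rw [e8] at e4
    linarith only [e4, e6, e7]
  -- lower
  have hL : ∃ x0 : ℝ, ∀ x : ℝ, x0 ≤ x → c * (t - s) / Q2 * x - ε * x ≤ ((EA M γ u v S s t x).ncard : ℝ) := by
    by_cases hw : 2 * δ ≤ t - s
    · have hl := hc _ _ hgcd (s + δ) (t - δ) (by linarith)
      have hl2 : ∀ᶠ Y : ℝ in atTop, c * (t - δ - (s + δ)) - δ ≤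
          ((cop M (det u v * det u γ.1) (det u v * det u γ.2) (s + δ) (t - δ) Y).ncard : ℝ) / Y := by
        filter_upwards [hl.eventually_const_lt (by linarith : c * (t - δ - (s + δ)) - δ < c * (t - δ - (s + δ)))]
          with Y hY using hY.le
      obtain ⟨Y0, hY0⟩ := eventually_atTop.1 hl2
      obtain ⟨x1, hx1⟩ := arc_real' c hc0 (t - s) Q2 hQ2 C1 C2 ε hC20 hε δ hδ hδε hw
      refine ⟨max x1 (max Y0 1 * Q2 + C1), fun x hx => ?_⟩
      have e1 := (le_max_left _ _).trans hx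
      have e2 := (le_max_right _ _).trans hx
      have e3 : max Y0 1 ≤ (x - C1) / Q2 := by
        rw [le_div_iff₀ (by linarith)]
        linarith
      have e4 := hY0 _ ((le_max_left _ _).trans e3)
      have e5 : 0 < (x - C1) / Q2 := lt_of_lt_of_le one_pos ((le_max_right _ _).trans e3)
      rw [le_div_iff₀ e5] at e4
      have e6 := hx1 x e1
      have e7 : ((cop M (det u v * det u γ.1) (det u v * det u γ.2) (s + δ) (t - δ)
        ((x - C1) / Q2)).ncard : ℝ) ≤ ((EA M γ u v S s t x).ncard : ℝ) + C2 := by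
        rw [hC2]
        exact_mod_cast hlo x
      have e8 : c * (t - δ - (s + δ)) - δ = c * (t - s - 2 * δ) - δ := by ring
      rw [e8] at e4
      linarith only [e4, e6, e7]
    · refine ⟨0, fun x hx => ?_⟩
      push Not at hw
      have e1 : c * (t - s) / Q2 ≤ ε := by
        rw [div_le_iff₀ (by linarith)]
        have e2 : c * (t - s) ≤ c * (2 * δ) := mul_le_mul_of_nonneg_left hw.le hc0
        have e3 : ε * 1 ≤ ε * Q2 := mul_le_mul_of_nonneg_left hQ2 hε.le
        linarith only [e2, e3, hδε, hδ, hε]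
      have e2 : c * (t - s) / Q2 * x ≤ ε * x := mul_le_mul_of_nonneg_right e1 hx
      have e3 : (0 : ℝ) ≤ ((EA M γ u v S s t x).ncard : ℝ) := by positivity
      linarith
  obtain ⟨xU, hxU⟩ := hU
  obtain ⟨xL, hxL⟩ := hL
  exact ⟨max xU xL, fun x hx => ⟨hxL x ((le_max_right _ _).trans hx), hxU x ((le_max_left _ _).trans hx)⟩⟩

/-- `|(S + M) u + v| ≤ (1 + M/S) |S u + v|` because `|S u + v| ≥ S |u|` (quadrant). -/
theorem arc_ratio (u v : G) (huv : Fr u v) (S M : ℕ) (hS : 0 < S) :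
    (nm ((((S : ℤ) + M : ℤ) : G) * u + v) : ℝ) ≤ (1 + (M : ℝ) / S) ^ 2 * (nm (((S : ℤ) : G) * u + v) : ℝ) := by
  have hd0 := arc_dot_nonneg huv
  have e5 : (nm (((S : ℤ) : G) * u + v) : ℤ) = (S : ℤ) ^ 2 * nm u + 2 * S * dot u v + nm v := by
    have := arc_nm (S : ℤ) 1 u v
    rw [Int.cast_one, one_mul] at this
    rw [this]; ring
  have e6 : (nm ((((S : ℤ) + M : ℤ) : G) * u + v) : ℤ) =
      ((S : ℤ) + M) ^ 2 * nm u + 2 * ((S : ℤ) + M) * dot u v + nm v := by
    have := arc_nm ((S : ℤ) + M) 1 u v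
    rw [Int.cast_one, one_mul] at this
    rw [this]; ring
  have f5 : (nm (((S : ℤ) : G) * u + v) : ℝ) = (S : ℝ) ^ 2 * nm u + 2 * S * (dot u v : ℝ) + nm v := by
    exact_mod_cast e5
  have f6 : (nm ((((S : ℤ) + M : ℤ) : G) * u + v) : ℝ) =
      ((S : ℝ) + M) ^ 2 * nm u + 2 * ((S : ℝ) + M) * (dot u v : ℝ) + nm v := by
    exact_mod_cast e6
  rw [f5, f6]
  have hSr : (0 : ℝ) < S := by exact_mod_cast hS
  have hMr : (0 : ℝ) ≤ M := by positivity
  have hK : (0 : ℝ) ≤ (dot u v : ℝ) := by exact_mod_cast hd0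
  have h1 : (1 + (M : ℝ) / S) ^ 2 * ((S : ℝ) ^ 2 * nm u + 2 * S * (dot u v : ℝ) + nm v) =
      ((S : ℝ) + M) ^ 2 * nm u + 2 * (1 + (M : ℝ) / S) * ((S : ℝ) + M) * (dot u v : ℝ)
        + (1 + (M : ℝ) / S) ^ 2 * nm v := by
    have e : (S : ℝ) + M = (1 + (M : ℝ) / S) * S := by
      rw [add_mul, one_mul, div_mul_cancel₀ _ hSr.ne']
    rw [e]
    generalize (1 + (M : ℝ) / S) = ρ
    ring
  rw [h1]
  have h2 : 0 ≤ (M : ℝ) / S := div_nonneg hMr hSr.le
  have h3 : (nm v : ℝ) ≤ (1 + (M : ℝ) / S) ^ 2 * nm v := by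
    have : (1 : ℝ) ≤ (1 + (M : ℝ) / S) ^ 2 := one_le_pow₀ (by linarith only [h2])
    exact le_mul_of_one_le_left (Nat.cast_nonneg _) this
  have h4 : 2 * ((S : ℝ) + M) * (dot u v : ℝ) ≤ 2 * (1 + (M : ℝ) / S) * ((S : ℝ) + M) * (dot u v : ℝ) := by
    have h5 : 0 ≤ ((M : ℝ) / S) * (2 * ((S : ℝ) + M) * (dot u v : ℝ)) :=
      mul_nonneg h2 (mul_nonneg (by linarith only [hSr, hMr]) hK)
    linarith only [h5]
  linarith only [h3, h4]

end Pool.Agent.OmAll

end
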