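import Pool.Agent.Lib_MP_92ef0c_m.M16
import Pool.Agent.Lib_MP_92ef0c_m.M19
import Pool.Agent.Lib_MP_92ef0c_m.M23
import Pool.Agent.Lib_MP_92ef0c_m.M24

/-!
# MP_92ef0c_nt, split pairs: merged library part M25

Concatenation of smaller files (each in its own section), only to save build time.
-/

/-! ### from `Lib_MP_f1a94e_aq.Left` -/

section

/-!
# Piece LEFT: edges in a small cone
-/

set_option autoImplicit false

namespace Pool.Agent.OmAll

open Finset Pool.Agent.GaussMR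

private lemma left_nm_pos {V V' : G} (h : det V V' = 1) : 0 < nm V := by
  apply nm_pos
  rintro rfl
  simp [det] at h

private lemma left_prod {V V' : G} (h : det V V' = 1) :
    (nm V : ℝ) * (nm V' : ℝ) = ((dot V V' : ℤ) : ℝ) ^ 2 + 1 := by
  have h4 := dot_sq_add_det_sq V V'
  rw [h] at h4
  have : ((dot V V' : ℤ) : ℝ) ^ 2 + 1 ^ 2 = ((nm V : ℤ) : ℝ) * ((nm V' : ℤ) : ℝ) := by
    exact_mod_cast h4
  push_cast at this
  linarith

private lemma left_finite (V : G) (b : ℝ) :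
    ({V' : G | det V V' = 1 ∧ 0 ≤ ((dot V V' : ℤ) : ℝ) ∧ ((dot V V' : ℤ) : ℝ) ≤ b}).Finite := by
  apply (finite_ball (b ^ 2 + 1)).subset
  rintro V' ⟨h1, h2, h3⟩
  have h4 := left_prod h1
  have h5 : (1 : ℝ) ≤ nm V := by exact_mod_cast left_nm_pos h1
  show (nm V' : ℝ) ≤ b ^ 2 + 1
  have h6 : (0 : ℝ) ≤ nm V' := by positivity
  nlinarith

private lemma left_aux1 {N D x E : ℝ} (h8 : 0 < D) (h3 : D ≤ x) (hx : 1 ≤ x)
    (h : N * (E * N) ≤ D ^ 2 + 1) : E * N ^ 2 ≤ (2 * x) ^ 2 := by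
  have h1 : D * D ≤ x * x := mul_self_le_mul_self h8.le h3
  have h2 : 1 * 1 ≤ x * x := mul_self_le_mul_self zero_le_one hx
  linarith only [h, h1, h2, mul_self_nonneg x]

private lemma left_aux2 (a b : ℤ) : (a - b) ^ 2 + (a + b) ^ 2 = 2 * (a ^ 2 + b ^ 2) := by ring

private lemma left_aux3 {N D T N' : ℝ} (h1 : N' ≤ T * N) (h2 : 1 ≤ N) (h3 : N * N' = D ^ 2 + 1) :
    D ^ 2 ≤ T * N ^ 2 := by
  have h4 := mul_le_mul_of_nonneg_left h1 (show 0 ≤ N by linarith only [h2])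
  linarith only [h4, h3]

private lemma left_aux4 {r : ℝ} (h : 0 < r) : r ^ 2 ≤ (r + 1) ^ 2 := by linarith only [h]
private lemma left_aux5 {r : ℝ} (h : 0 < r) : 2 * r ≤ (r + 1) ^ 2 := by
  linarith only [h, sq_nonneg r]
private lemma left_aux6 {r : ℝ} (h : 0 < r) : 1 ≤ (r + 1) ^ 2 := by linarith only [h, sq_nonneg r]

private lemma left_ll (α β : ℤ) (u v : G) :
    ll ((α : G) * u + (β : G) * v) = α * ll u + β * ll v := by
  unfold ll
  simp
  ring

/-- `nm V ^ 2 e^s ≤ nm V nm V' = m^2 + 1 ≤ x^2 + 1`, so `nm V ≤ e^(-s/2) (x + 1)`, and `ll V ≤ 2 √(nm V) ≤ R = C √x`. `V = α u + β v` with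
`α ll u + β ll v ≤ R`, so `α ≤ R / ll u`, `β ≤ R / ll v`: at most `(R/ll u + 1)(R/ll v + 1) ≤ R^2/(ll u ll v) + 2 R + 1` vectors `V` (`ll ≥ 1`). For each `V`
at most `e^(t/2) + 1` edges (`m < e^(t/2) nm V`; `edges_fixed` in Tail.lean). `C` depends on `s` and `t` only. -/
theorem left (s t : ℝ) : ∃ C : ℝ, 0 < C ∧ ∀ (M : ℕ) (γ : G × G) (u v : G), Fr u v → ∀ x : ℝ, 1 ≤ x →
    ({e : G × G | e ∈ NE M γ s t x ∧ e.1 ∈ cone u v}.ncard : ℝ) ≤
      C * (x / ((ll u : ℝ) * ll v) + Real.sqrt x + 1) := by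
  classical
  set K : ℝ := Real.exp (t / 2) + 1 with hK
  set r : ℝ := 2 * Real.exp (-s / 4) with hr
  have hK0 : 0 < K := by positivity
  have hr0 : 0 < r := by positivity
  refine ⟨K * (r + 1) ^ 2, by positivity, ?_⟩
  intro M γ u v huv x hx
  have hfin : ({e : G × G | e ∈ NE M γ s t x ∧ e.1 ∈ cone u v}).Finite :=
    (NE_finite M γ s t x).subset (fun e he => he.1)
  set E := hfin.toFinset with hE
  have hEcard : ({e : G × G | e ∈ NE M γ s t x ∧ e.1 ∈ cone u v}).ncard = E.card :=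
    Set.ncard_eq_toFinset_card _ hfin
  rw [hEcard]
  have hu : (1 : ℝ) ≤ ll u := by exact_mod_cast ll_pos huv
  have hv : (1 : ℝ) ≤ ll v := by exact_mod_cast ll_pos huv.swap
  set R : ℝ := r * Real.sqrt x with hR
  have hx0 : 0 ≤ Real.sqrt x := Real.sqrt_nonneg x
  have hR0 : 0 ≤ R := by positivity
  have hsq : Real.sqrt x ^ 2 = x := Real.sq_sqrt (by linarith)
  set Vs : Finset G := (range (⌊R / ll u⌋₊ + 1) ×ˢ range (⌊R / ll v⌋₊ + 1)).image
    (fun w : ℕ × ℕ => (((w.1 : ℤ) : G)) * u + (((w.2 : ℤ) : G)) * v) with hVs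
  have hmem : ∀ e ∈ E, e.1 ∈ Vs := by
    intro e he
    rw [hE, Set.Finite.mem_toFinset] at he
    obtain ⟨⟨h1, h2, h3, h4, h5, -, -⟩, α, β, hV, hα, hβ⟩ := he
    have h6 := left_prod h1
    have h7 : (1 : ℝ) ≤ nm e.1 := by exact_mod_cast left_nm_pos h1
    have h8 : (0 : ℝ) < ((dot e.1 e.2 : ℤ) : ℝ) := by exact_mod_cast h2
    -- the norm
    have h9 : Real.exp s * (nm e.1 : ℝ) ^ 2 ≤ (2 * x) ^ 2 := by
      have this : (nm e.1 : ℝ) * (Real.exp s * (nm e.1 : ℝ)) ≤ (nm e.1 : ℝ) * (nm e.2 : ℝ) :=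
        mul_le_mul_of_nonneg_left h4 (by linarith only [h7])
      rw [h6] at this
      exact left_aux1 h8 h3 hx this
    have h10 : Real.exp (s / 2) * (nm e.1 : ℝ) ≤ 2 * x := by
      have e1 : (Real.exp (s / 2) * (nm e.1 : ℝ)) ^ 2 ≤ (2 * x) ^ 2 := by
        have : Real.exp (s / 2) ^ 2 = Real.exp s := by
          rw [← Real.exp_nat_mul]; congr 1; push_cast; ring
        rw [mul_pow, this]; exact h9
      exact le_of_sq_le_sq e1 (by linarith)
    have h11 : (nm e.1 : ℝ) ≤ 2 * Real.exp (-s / 2) * x := by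
      have e1 : Real.exp (-s / 2) * Real.exp (s / 2) = 1 := by
        rw [← Real.exp_add]; ring_nf; exact Real.exp_zero
      have e2 := mul_le_mul_of_nonneg_left h10 (Real.exp_pos (-s / 2)).le
      calc (nm e.1 : ℝ) = Real.exp (-s / 2) * (Real.exp (s / 2) * (nm e.1 : ℝ)) := by
            rw [← mul_assoc, e1, one_mul]
        _ ≤ Real.exp (-s / 2) * (2 * x) := e2
        _ = 2 * Real.exp (-s / 2) * x := by ring
    have hll : ((ll e.1 : ℤ) : ℝ) ≤ R := by
      have e1 : ((ll e.1 : ℤ) : ℝ) ^ 2 ≤ 2 * (nm e.1 : ℝ) := by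
        have : (ll e.1) ^ 2 ≤ 2 * (nm e.1 : ℤ) := by
          rw [nm_eq]
          unfold ll
          linarith only [sq_nonneg (e.1.re - e.1.im), left_aux2 e.1.re e.1.im]
        exact_mod_cast this
      have e2 : R ^ 2 = 4 * Real.exp (-s / 2) * x := by
        have : Real.exp (-s / 4) ^ 2 = Real.exp (-s / 2) := by
          rw [← Real.exp_nat_mul]; congr 1; push_cast; ring
        rw [hR, hr, mul_pow, mul_pow, this, hsq]; ring
      have e3 : ((ll e.1 : ℤ) : ℝ) ^ 2 ≤ R ^ 2 := by rw [e2]; linarith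
      exact le_of_sq_le_sq e3 hR0
    have hlin : ((ll e.1 : ℤ) : ℝ) = α * ll u + β * ll v := by
      rw [hV, left_ll]; push_cast; ring
    have hα' : (0 : ℝ) ≤ α := by exact_mod_cast hα
    have hβ' : (0 : ℝ) ≤ β := by exact_mod_cast hβ
    rw [hlin] at hll
    obtain ⟨a, rfl⟩ := Int.eq_ofNat_of_zero_le hα
    obtain ⟨b, rfl⟩ := Int.eq_ofNat_of_zero_le hβ
    rw [hVs]
    refine Finset.mem_image.2 ⟨(a, b), ?_, hV.symm⟩
    rw [Finset.mem_product, Finset.mem_range, Finset.mem_range]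
    push_cast at hll
    constructor
    · apply Nat.lt_succ_of_le
      apply Nat.le_floor
      rw [le_div_iff₀ (by linarith)]
      have : (0 : ℝ) ≤ (b : ℝ) * ll v := by positivity
      linarith
    · apply Nat.lt_succ_of_le
      apply Nat.le_floor
      rw [le_div_iff₀ (by linarith)]
      have : (0 : ℝ) ≤ (a : ℝ) * ll u := by positivity
      linarith
  have hfib : ∀ V ∈ Vs, (E.filter (fun e => e.1 = V)).card ≤ ⌊K⌋₊ := by
    intro V _
    apply Nat.le_floor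
    set b : ℝ := Real.exp (t / 2) * nm V with hb
    have hb0 : 0 ≤ b := by positivity
    have h1 := edges_fixed V 0 b hb0
    have h2 : (E.filter (fun e => e.1 = V)).card ≤
        ({V' : G | det V V' = 1 ∧ 0 ≤ ((dot V V' : ℤ) : ℝ) ∧ ((dot V V' : ℤ) : ℝ) ≤ b}).ncard := by
      rw [← Set.ncard_coe_finset]
      apply Set.ncard_le_ncard_of_injOn (fun e : G × G => e.2) ?_ ?_ (left_finite V b)
      · intro e he
        rw [Finset.mem_coe, Finset.mem_filter, hE, Set.Finite.mem_toFinset] at he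
        obtain ⟨⟨⟨g1, g2, g3, g4, g5, -, -⟩, -⟩, g6⟩ := he
        subst g6
        have g7 := left_prod g1
        have g8 : (1 : ℝ) ≤ nm e.1 := by exact_mod_cast left_nm_pos g1
        have g9 : (0 : ℝ) < ((dot e.1 e.2 : ℤ) : ℝ) := by exact_mod_cast g2
        refine ⟨g1, g9.le, ?_⟩
        have g10 : ((dot e.1 e.2 : ℤ) : ℝ) ^ 2 ≤ b ^ 2 := by
          have : Real.exp (t / 2) ^ 2 = Real.exp t := by
            rw [← Real.exp_nat_mul]; congr 1; push_cast; ring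
          rw [hb, mul_pow, this]
          exact left_aux3 g5.le g8 g7
        exact le_of_sq_le_sq g10 hb0
      · intro e he e' he' hee
        rw [Finset.mem_coe, Finset.mem_filter] at he he'
        exact Prod.ext (he.2.trans he'.2.symm) hee
    have h3 : (b - 0) / nm V ≤ Real.exp (t / 2) := by
      rcases Nat.eq_zero_or_pos (nm V) with h | h
      · rw [h]; simp; positivity
      · have : (0 : ℝ) < nm V := by exact_mod_cast h
        rw [sub_zero, hb, mul_div_assoc, div_self this.ne', mul_one]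
    have h4 : ((E.filter (fun e => e.1 = V)).card : ℝ) ≤
        (({V' : G | det V V' = 1 ∧ 0 ≤ ((dot V V' : ℤ) : ℝ) ∧
          ((dot V V' : ℤ) : ℝ) ≤ b}).ncard : ℝ) := by exact_mod_cast h2
    rw [hK]
    linarith
  have h1 := Finset.card_le_mul_card_image_of_maps_to hmem ⌊K⌋₊ hfib
  have h2 : Vs.card ≤ (⌊R / ll u⌋₊ + 1) * (⌊R / ll v⌋₊ + 1) := by
    refine Finset.card_image_le.trans ?_
    rw [Finset.card_product, Finset.card_range, Finset.card_range]
  have h3 : (Vs.card : ℝ) ≤ (R / ll u + 1) * (R / ll v + 1) := by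
    have e1 : (⌊R / ll u⌋₊ : ℝ) ≤ R / ll u := Nat.floor_le (by positivity)
    have e2 : (⌊R / ll v⌋₊ : ℝ) ≤ R / ll v := Nat.floor_le (by positivity)
    have e3 : (Vs.card : ℝ) ≤ ((⌊R / ll u⌋₊ : ℝ) + 1) * ((⌊R / ll v⌋₊ : ℝ) + 1) := by
      exact_mod_cast h2
    refine e3.trans ?_
    gcongr
  have h4 : (E.card : ℝ) ≤ (⌊K⌋₊ : ℝ) * Vs.card := by exact_mod_cast h1
  have h5 : (⌊K⌋₊ : ℝ) ≤ K := Nat.floor_le hK0.le
  have h6 : (R / ll u + 1) * (R / ll v + 1) ≤
      (r + 1) ^ 2 * (x / ((ll u : ℝ) * ll v) + Real.sqrt x + 1) := by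
    have e1 : R / ll u ≤ R := div_le_self hR0 hu
    have e2 : R / ll v ≤ R := div_le_self hR0 hv
    have e3 : R / ll u * (R / ll v) = r ^ 2 * (x / ((ll u : ℝ) * ll v)) := by
      have : R * R = r ^ 2 * x := by
        calc R * R = r ^ 2 * Real.sqrt x ^ 2 := by rw [hR]; ring
          _ = _ := by rw [hsq]
      rw [div_mul_div_comm, this]; ring
    have e4 : 0 ≤ x / ((ll u : ℝ) * ll v) := by positivity
    have e5 : (R / ll u + 1) * (R / ll v + 1) = R / ll u * (R / ll v) + R / ll u + R / ll v + 1 := by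
      ring
    rw [e5, e3]
    have e6 : r ^ 2 ≤ (r + 1) ^ 2 := left_aux4 hr0
    have e7 : 2 * r ≤ (r + 1) ^ 2 := left_aux5 hr0
    have e8 : 1 ≤ (r + 1) ^ 2 := left_aux6 hr0
    have e9 : R / ll u + R / ll v ≤ (r + 1) ^ 2 * Real.sqrt x := by
      calc R / ll u + R / ll v ≤ R + R := by linarith
        _ = 2 * r * Real.sqrt x := by rw [hR]; ring
        _ ≤ _ := mul_le_mul_of_nonneg_right e7 hx0
    have e10 : r ^ 2 * (x / ((ll u : ℝ) * ll v)) ≤ (r + 1) ^ 2 * (x / ((ll u : ℝ) * ll v)) :=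
      mul_le_mul_of_nonneg_right e6 e4
    linarith only [e8, e9, e10]
  calc (E.card : ℝ) ≤ (⌊K⌋₊ : ℝ) * Vs.card := h4
    _ ≤ K * ((R / ll u + 1) * (R / ll v + 1)) := by
      apply mul_le_mul h5 h3 (by positivity) hK0.le
    _ ≤ K * ((r + 1) ^ 2 * (x / ((ll u : ℝ) * ll v) + Real.sqrt x + 1)) := by gcongr
    _ = _ := by ring

end Pool.Agent.OmAll

end

/-! ### from `Lib_MP_f1a94e_aq.Equid` -/

section

/-!
# Piece EQUID: equidistribution of Farey edges in congruence classes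
-/

set_option autoImplicit false

namespace Pool.Agent.OmAll

open Finset Pool.Agent.GaussMR Filter

namespace EquidAux

/-- multiplication by `i` -/
def rt (z : G) : G := ⟨-z.im, z.re⟩

theorem det_rt (u v : G) : det (rt u) (rt v) = det u v := by
  unfold det rt
  ring

theorem dot_rt (u v : G) : dot (rt u) (rt v) = dot u v := by
  unfold dot rt
  ring

theorem nm_rt (u : G) : nm (rt u) = nm u := by
  have h : (nm (rt u) : ℤ) = nm u := by
    rw [nm_eq, nm_eq]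
    unfold rt
    ring
  exact_mod_cast h

theorem cg_rt (M : ℕ) (u v : G) : cg M (rt u) (rt v) ↔ cg M u v := by
  unfold cg rt
  constructor
  · rintro ⟨h1, h2⟩
    refine ⟨h2, ?_⟩
    have : u.im - v.im = -(-u.im - -v.im) := by ring
    rw [this]
    exact (dvd_neg).mpr h1
  · rintro ⟨h1, h2⟩
    refine ⟨?_, h1⟩
    have : -u.im - -v.im = -(u.im - v.im) := by ring
    rw [this]
    exact (dvd_neg).mpr h2

theorem rt_inj : Function.Injective rt := by
  intro u v h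
  have h1 := congrArg Zsqrtd.re h
  have h2 := congrArg Zsqrtd.im h
  simp only [rt, neg_inj] at h1 h2
  exact Zsqrtd.ext h2 h1

theorem det_it (k : ℕ) (u v : G) : det (rt^[k] u) (rt^[k] v) = det u v := by
  induction k generalizing u v with
  | zero => rfl
  | succ k ih => rw [Function.iterate_succ_apply, Function.iterate_succ_apply, ih, det_rt]

theorem dot_it (k : ℕ) (u v : G) : dot (rt^[k] u) (rt^[k] v) = dot u v := by
  induction k generalizing u v with
  | zero => rfl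
  | succ k ih => rw [Function.iterate_succ_apply, Function.iterate_succ_apply, ih, dot_rt]

theorem nm_it (k : ℕ) (u : G) : nm (rt^[k] u) = nm u := by
  induction k generalizing u with
  | zero => rfl
  | succ k ih => rw [Function.iterate_succ_apply, ih, nm_rt]

theorem cg_it (M : ℕ) (k : ℕ) (u v : G) : cg M (rt^[k] u) (rt^[k] v) ↔ cg M u v := by
  induction k generalizing u v with
  | zero => rfl
  | succ k ih => rw [Function.iterate_succ_apply, Function.iterate_succ_apply, ih, cg_rt]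

/-- rotation of a pair -/
def rp (k : ℕ) (e : G × G) : G × G := (rt^[k] e.1, rt^[k] e.2)

theorem rp_inj (k : ℕ) : Function.Injective (rp k) := by
  rintro ⟨a, b⟩ ⟨c, d⟩ h
  have h1 := congrArg Prod.fst h
  have h2 := congrArg Prod.snd h
  exact Prod.ext (rt_inj.iterate k h1) (rt_inj.iterate k h2)

theorem rt_four (z : G) : rt^[4] z = z := by
  show rt (rt (rt (rt z))) = z
  unfold rt
  apply Zsqrtd.ext <;> simp

theorem rp_surj (k : ℕ) (hk : k ≤ 4) (e : G × G) : ∃ e', rp k e' = e := by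
  refine ⟨rp (4 - k) e, ?_⟩
  unfold rp
  ext1
  · show rt^[k] (rt^[4 - k] e.1) = e.1
    rw [← Function.iterate_add_apply, Nat.add_sub_cancel' hk, rt_four]
  · show rt^[k] (rt^[4 - k] e.2) = e.2
    rw [← Function.iterate_add_apply, Nat.add_sub_cancel' hk, rt_four]

theorem mem_NE_rp (M : ℕ) (γ : G × G) (s t x : ℝ) (k : ℕ) (e : G × G) :
    rp k e ∈ NE M (rp k γ) s t x ↔ e ∈ NE M γ s t x := by
  unfold NE rp
  simp only [Set.mem_ofPred_eq, det_it, dot_it, nm_it, cg_it]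

theorem ncard_rot (M : ℕ) (γ : G × G) (s t x : ℝ) (k : ℕ) (hk : k ≤ 4) (S : Set G) :
    {e : G × G | e ∈ NE M γ s t x ∧ rt^[k] e.1 ∈ S}.ncard =
      {e : G × G | e ∈ NE M (rp k γ) s t x ∧ e.1 ∈ S}.ncard := by
  rw [← Set.ncard_image_of_injective _ (rp_inj k)]
  congr 1
  ext e
  constructor
  · rintro ⟨e', ⟨h1, h2⟩, rfl⟩
    exact ⟨(mem_NE_rp M γ s t x k e').mpr h1, h2⟩
  · rintro ⟨h1, h2⟩
    obtain ⟨e', rfl⟩ := rp_surj k hk e
    exact ⟨e', ⟨(mem_NE_rp M γ s t x k e').mp h1, h2⟩, rfl⟩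

theorem mem_cone (z : G) : z ∈ cone (1 : G) ⟨0, 1⟩ ↔ 0 ≤ z.re ∧ 0 ≤ z.im := by
  unfold cone
  constructor
  · rintro ⟨α, β, rfl, h1, h2⟩
    simp [h1, h2]
  · rintro ⟨h1, h2⟩
    refine ⟨z.re, z.im, ?_, h1, h2⟩
    apply Zsqrtd.ext <;> simp

theorem mem_cone0 (z : G) : z ∈ cone0 (1 : G) ⟨0, 1⟩ ↔ 0 < z.re ∧ 0 < z.im := by
  unfold cone0
  constructor
  · rintro ⟨α, β, rfl, h1, h2⟩
    simp [h1, h2]
  · rintro ⟨h1, h2⟩
    refine ⟨z.re, z.im, ?_, h1, h2⟩
    apply Zsqrtd.ext <;> simp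

theorem exists_quad (z : G) : ∃ k ∈ range 4, rt^[k] z ∈ cone (1 : G) ⟨0, 1⟩ := by
  rcases le_total 0 z.re with h1 | h1 <;> rcases le_total 0 z.im with h2 | h2
  · exact ⟨0, by simp, (mem_cone _).mpr ⟨h1, h2⟩⟩
  · refine ⟨1, by simp, (mem_cone _).mpr ?_⟩
    show 0 ≤ -z.im ∧ 0 ≤ z.re
    omega
  · refine ⟨3, by simp, (mem_cone _).mpr ?_⟩
    show 0 ≤ - -z.im ∧ 0 ≤ -z.re
    omega
  · refine ⟨2, by simp, (mem_cone _).mpr ?_⟩
    show 0 ≤ -z.re ∧ 0 ≤ -z.im
    omega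

theorem quad_unique (z : G) {k l : ℕ} (hk : k ∈ range 4) (hl : l ∈ range 4)
    (h : rt^[k] z ∈ cone0 (1 : G) ⟨0, 1⟩) (h' : rt^[l] z ∈ cone0 (1 : G) ⟨0, 1⟩) : k = l := by
  rw [mem_cone0] at h h'
  rw [Finset.mem_range] at hk hl
  have e0 : rt^[0] z = z := rfl
  have e1 : rt^[1] z = ⟨-z.im, z.re⟩ := rfl
  have e2 : rt^[2] z = ⟨-z.re, -z.im⟩ := rfl
  have e3 : rt^[3] z = ⟨- -z.im, -z.re⟩ := rfl
  interval_cases k <;> interval_cases l <;> simp only [e0, e1, e2, e3] at h h' <;> omega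

theorem fr_one : Fr (1 : G) ⟨0, 1⟩ := by
  unfold Fr det
  simp

theorem sqrt_small (e : ℝ) (he : 0 < e) : ∀ᶠ x : ℝ in atTop, Real.sqrt x + 1 ≤ e * x := by
  filter_upwards [eventually_ge_atTop (max 1 (4 / e ^ 2))] with x hx
  have h1 : 1 ≤ x := le_trans (le_max_left _ _) hx
  have h2 : 4 / e ^ 2 ≤ x := le_trans (le_max_right _ _) hx
  have h3 : 1 ≤ Real.sqrt x := by
    rw [Real.one_le_sqrt]
    exact h1
  have h4 : Real.sqrt x * Real.sqrt x = x := Real.mul_self_sqrt (by linarith)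
  have h5 : 2 / e ≤ Real.sqrt x := by
    apply Real.le_sqrt_of_sq_le
    rw [div_pow]
    norm_num
    exact h2
  have h6 : 2 ≤ e * Real.sqrt x := by
    rw [div_le_iff₀ he] at h5
    linarith
  calc Real.sqrt x + 1 ≤ 2 * Real.sqrt x := by linarith
    _ ≤ (e * Real.sqrt x) * Real.sqrt x := mul_le_mul_of_nonneg_right h6 (by linarith)
    _ = e * x := by rw [mul_assoc, h4]

/-- the number of edges -/
noncomputable def N (M : ℕ) (γ : G × G) (s t x : ℝ) : ℝ := ((NE M γ s t x).ncard : ℝ)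

open Classical in
/-- upper bound by a finite cover -/
theorem upper (M : ℕ) (γ : G × G) (s t x : ℝ) (A : Finset (G × G × ℕ)) (L : Finset (G × G))
    (hcov : ∀ V ∈ cone (1 : G) ⟨0, 1⟩, (∃ a ∈ A, V ∈ arc a.1 a.2.1 a.2.2 M) ∨
      ∃ l ∈ L, V ∈ cone l.1 l.2) :
    N M γ s t x ≤ ∑ k ∈ range 4, (∑ a ∈ A,
      ({e : G × G | e ∈ NE M (rp k γ) s t x ∧ e.1 ∈ arc a.1 a.2.1 a.2.2 M}.ncard : ℝ) +
        ∑ l ∈ L, ({e : G × G | e ∈ NE M (rp k γ) s t x ∧ e.1 ∈ cone l.1 l.2}.ncard : ℝ)) := by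
  set F := (NE_finite M γ s t x).toFinset with hF
  have hcard : ∀ (k : ℕ), k ∈ range 4 → ∀ S : Set G,
      {e : G × G | e ∈ NE M (rp k γ) s t x ∧ e.1 ∈ S}.ncard =
        (F.filter (fun e => rt^[k] e.1 ∈ S)).card := by
    intro k hk S
    rw [← ncard_rot M γ s t x k (by rw [Finset.mem_range] at hk; omega) S,
      ← Set.ncard_coe_finset]
    congr 1
    ext e
    simp [hF]
  have h1 : N M γ s t x = (F.card : ℝ) := by
    unfold N
    rw [hF, Set.ncard_eq_toFinset_card _ (NE_finite M γ s t x)]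
  have h2 : F ⊆ (range 4).biUnion (fun k => A.biUnion (fun a =>
      F.filter (fun e => rt^[k] e.1 ∈ arc a.1 a.2.1 a.2.2 M)) ∪
        L.biUnion (fun l => F.filter (fun e => rt^[k] e.1 ∈ cone l.1 l.2))) := by
    intro e he
    obtain ⟨k, hk, h3⟩ := exists_quad e.1
    rw [mem_biUnion]
    refine ⟨k, hk, ?_⟩
    rw [mem_union, mem_biUnion, mem_biUnion]
    rcases hcov _ h3 with ⟨a, ha, h4⟩ | ⟨l, hl, h4⟩
    · exact Or.inl ⟨a, ha, mem_filter.mpr ⟨he, h4⟩⟩
    · exact Or.inr ⟨l, hl, mem_filter.mpr ⟨he, h4⟩⟩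
  have h3 : F.card ≤ ∑ k ∈ range 4, (∑ a ∈ A,
      (F.filter (fun e => rt^[k] e.1 ∈ arc a.1 a.2.1 a.2.2 M)).card +
        ∑ l ∈ L, (F.filter (fun e => rt^[k] e.1 ∈ cone l.1 l.2)).card) := by
    refine (card_le_card h2).trans (card_biUnion_le.trans (sum_le_sum fun k _ => ?_))
    exact (card_union_le _ _).trans (add_le_add card_biUnion_le card_biUnion_le)
  rw [h1]
  calc (F.card : ℝ) ≤ ((∑ k ∈ range 4, (∑ a ∈ A,
      (F.filter (fun e => rt^[k] e.1 ∈ arc a.1 a.2.1 a.2.2 M)).card +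
        ∑ l ∈ L, (F.filter (fun e => rt^[k] e.1 ∈ cone l.1 l.2)).card) : ℕ) : ℝ) := by
        exact_mod_cast h3
    _ = _ := by
        push_cast
        refine sum_congr rfl fun k hk => ?_
        congr 1
        · exact sum_congr rfl fun a _ => by rw [hcard k hk]
        · exact sum_congr rfl fun l _ => by rw [hcard k hk]

open Classical in
/-- lower bound by disjoint pieces -/
theorem lower (M : ℕ) (γ : G × G) (s t x : ℝ) (A : Finset (G × G × ℕ))
    (hsub : ∀ a ∈ A, arc a.1 a.2.1 a.2.2 M ⊆ cone0 (1 : G) ⟨0, 1⟩)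
    (hdis : ∀ a ∈ A, ∀ a' ∈ A, a ≠ a' → Disjoint (arc a.1 a.2.1 a.2.2 M) (arc a'.1 a'.2.1 a'.2.2 M)) :
    ∑ k ∈ range 4, ∑ a ∈ A,
      ({e : G × G | e ∈ NE M (rp k γ) s t x ∧ e.1 ∈ arc a.1 a.2.1 a.2.2 M}.ncard : ℝ) ≤
        N M γ s t x := by
  set F := (NE_finite M γ s t x).toFinset with hF
  have hcard : ∀ (k : ℕ), k ∈ range 4 → ∀ S : Set G,
      {e : G × G | e ∈ NE M (rp k γ) s t x ∧ e.1 ∈ S}.ncard =
        (F.filter (fun e => rt^[k] e.1 ∈ S)).card := by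
    intro k hk S
    rw [← ncard_rot M γ s t x k (by rw [Finset.mem_range] at hk; omega) S,
      ← Set.ncard_coe_finset]
    congr 1
    ext e
    simp [hF]
  have h1 : N M γ s t x = (F.card : ℝ) := by
    unfold N
    rw [hF, Set.ncard_eq_toFinset_card _ (NE_finite M γ s t x)]
  have h2 : (range 4).biUnion (fun k => A.biUnion (fun a =>
      F.filter (fun e => rt^[k] e.1 ∈ arc a.1 a.2.1 a.2.2 M))) ⊆ F := by
    intro e he
    rw [mem_biUnion] at he
    obtain ⟨k, _, he⟩ := he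
    rw [mem_biUnion] at he
    obtain ⟨a, _, he⟩ := he
    exact (mem_filter.mp he).1
  have h3 : ∑ k ∈ range 4, ∑ a ∈ A,
      (F.filter (fun e => rt^[k] e.1 ∈ arc a.1 a.2.1 a.2.2 M)).card ≤ F.card := by
    refine le_trans (le_of_eq ?_) (card_le_card h2)
    rw [card_biUnion]
    · refine sum_congr rfl fun k hk => ?_
      rw [card_biUnion]
      intro a ha a' ha' hne
      rw [Function.onFun, Finset.disjoint_left]
      intro e he he'
      exact Set.disjoint_left.mp (hdis a ha a' ha' hne) (mem_filter.mp he).2 (mem_filter.mp he').2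
    · intro k hk l hl hne
      rw [Function.onFun, Finset.disjoint_left]
      intro e he he'
      rw [mem_biUnion] at he he'
      obtain ⟨a, ha, he⟩ := he
      obtain ⟨a', ha', he'⟩ := he'
      exact hne (quad_unique e.1 hk hl (hsub a ha (mem_filter.mp he).2)
        (hsub a' ha' (mem_filter.mp he').2))
  rw [h1]
  calc _ = ((∑ k ∈ range 4, ∑ a ∈ A,
      (F.filter (fun e => rt^[k] e.1 ∈ arc a.1 a.2.1 a.2.2 M)).card : ℕ) : ℝ) := by
        push_cast
        refine sum_congr rfl fun k hk => ?_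
        exact sum_congr rfl fun a _ => by rw [hcard k hk]
    _ ≤ (F.card : ℝ) := by exact_mod_cast h3

theorem approx (M : ℕ) (hM : 0 < M) : ∃ C : ℝ → ℝ → ℝ, (∀ s t, 0 < C s t) ∧ ∀ η : ℝ, 0 < η →
    ∃ a : ℝ, 0 ≤ a ∧ ∀ γ : G × G, (M : ℤ) ∣ det γ.1 γ.2 - 1 → ∀ s t : ℝ, s ≤ t → ∀ ε : ℝ, 0 < ε →
      ∀ᶠ x : ℝ in atTop, a * (t - s) * x - ε * x ≤ N M γ s t x ∧
        N M γ s t x ≤ (1 + η) * a * (t - s) * x + C s t * η * x + ε * x := by
  obtain ⟨c, hc⟩ := cop_asymp M hM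
  have hc0 := copC_nonneg M c hc
  choose C hC0 hC using left
  refine ⟨C, hC0, ?_⟩
  intro η hη
  have hM' : (0 : ℝ) < M := by exact_mod_cast hM
  set S0 : ℕ := ⌈3 * (M : ℝ) / η⌉₊ + M + 2 with hS0
  have hS2 : 2 ≤ S0 := by omega
  have hSM : (M : ℝ) ≤ S0 := by
    have : M ≤ S0 := by omega
    exact_mod_cast this
  have hSη : 3 * (M : ℝ) / η ≤ S0 := by
    refine (Nat.le_ceil _).trans ?_
    have : ⌈3 * (M : ℝ) / η⌉₊ ≤ S0 := by omega
    exact_mod_cast this
  have hS0' : (0 : ℝ) < S0 := by exact_mod_cast (by omega : 0 < S0)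
  have hy : ∀ S : ℕ, S0 ≤ S → (1 + (M : ℝ) / S) ^ 2 ≤ 1 + η := by
    intro S hS
    have hSS : (S0 : ℝ) ≤ S := by exact_mod_cast hS
    have hS' : (0 : ℝ) < S := lt_of_lt_of_le hS0' hSS
    have y1 : (M : ℝ) / S ≤ 1 := by
      rw [div_le_one hS']
      linarith
    have y2 : (M : ℝ) / S ≤ η / 3 := by
      rw [div_le_div_iff₀ hS' (by norm_num)]
      rw [div_le_iff₀ hη] at hSη
      linarith only [hSη, mul_le_mul_of_nonneg_right hSS hη.le]
    have y0 : 0 ≤ (M : ℝ) / S := by positivity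
    linarith only [y2, mul_le_mul_of_nonneg_left y1 y0]
  obtain ⟨A, L, hA, hAd, hL, hcov, hsum⟩ := cover M S0 hM hS2 (η / 4) (by positivity) 1 ⟨0, 1⟩ fr_one
  -- the constant
  set w : G × G × ℕ → ℝ := fun a => c / (nm ((((a.2.2 : ℤ) + M : ℤ) : G) * a.1 + a.2.1) : ℝ) with hw
  set w' : G × G × ℕ → ℝ := fun a => c / (nm (((a.2.2 : ℤ) : G) * a.1 + a.2.1) : ℝ) with hw'
  have hw0 : ∀ a, 0 ≤ w a := fun a => div_nonneg hc0 (Nat.cast_nonneg _)
  have hww : ∀ a ∈ A, w' a ≤ (1 + η) * w a := by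
    intro a ha
    obtain ⟨h1, h2, -⟩ := hA a ha
    have h3 := arc_ratio a.1 a.2.1 h1 a.2.2 M (by omega)
    have h4 := hy a.2.2 h2
    have hne : (0 : ℝ) < (nm (((a.2.2 : ℤ) : G) * a.1 + a.2.1) : ℝ) := by
      have : (((a.2.2 : ℤ) : G) * a.1 + a.2.1) ≠ 0 := by
        intro h0
        have e1 : det a.1 (((a.2.2 : ℤ) : G) * a.1 + a.2.1) = det a.1 a.2.1 := by
          unfold det
          simp
          ring
        rw [h0] at e1
        have e2 : det a.1 0 = 0 := by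
          unfold det
          simp
        rw [e2] at e1
        have e3 := h1.1
        rw [← e1] at e3
        simp at e3
      exact_mod_cast nm_pos this
    have hne' : (0 : ℝ) < (nm ((((a.2.2 : ℤ) + M : ℤ) : G) * a.1 + a.2.1) : ℝ) := by
      have : ((((a.2.2 : ℤ) + M : ℤ) : G) * a.1 + a.2.1) ≠ 0 := by
        intro h0
        have e1 : det a.1 ((((a.2.2 : ℤ) + M : ℤ) : G) * a.1 + a.2.1) = det a.1 a.2.1 := by
          unfold det
          simp
          ring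
        rw [h0] at e1
        have e2 : det a.1 0 = 0 := by
          unfold det
          simp
        rw [e2] at e1
        have e3 := h1.1
        rw [← e1] at e3
        simp at e3
      exact_mod_cast nm_pos this
    have h5 : (nm ((((a.2.2 : ℤ) + M : ℤ) : G) * a.1 + a.2.1) : ℝ) ≤
        (1 + η) * (nm (((a.2.2 : ℤ) : G) * a.1 + a.2.1) : ℝ) :=
      h3.trans (mul_le_mul_of_nonneg_right h4 hne.le)
    show c / _ ≤ (1 + η) * (c / _)
    rw [← mul_div_assoc, div_le_div_iff₀ hne hne']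
    calc c * _ ≤ c * ((1 + η) * (nm (((a.2.2 : ℤ) : G) * a.1 + a.2.1) : ℝ)) :=
          mul_le_mul_of_nonneg_left h5 hc0
      _ = _ := by ring
  refine ⟨∑ k ∈ range 4, ∑ a ∈ A, w a, sum_nonneg fun k _ => sum_nonneg fun a _ => hw0 a, ?_⟩
  intro γ hγ s t hst ε hε
  set e1 : ℝ := ε / (8 * (A.card + 1)) with he1
  have he1' : 0 < e1 := by positivity
  set e2 : ℝ := ε / (8 * C s t * (L.card + 1)) with he2
  have he2' : 0 < e2 := by have := hC0 s t; positivity
  have hγk : ∀ k, (M : ℤ) ∣ det (rp k γ).1 (rp k γ).2 - 1 := by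
    intro k
    have : det (rp k γ).1 (rp k γ).2 = det γ.1 γ.2 := det_it k _ _
    rw [this]
    exact hγ
  have hev : ∀ᶠ x : ℝ in atTop, ∀ k ∈ range 4, ∀ a ∈ A,
      w a * (t - s) * x - e1 * x ≤
        ({e : G × G | e ∈ NE M (rp k γ) s t x ∧ e.1 ∈ arc a.1 a.2.1 a.2.2 M}.ncard : ℝ) ∧
      ({e : G × G | e ∈ NE M (rp k γ) s t x ∧ e.1 ∈ arc a.1 a.2.1 a.2.2 M}.ncard : ℝ) ≤
        w' a * (t - s) * x + e1 * x := by
    rw [eventually_all_finset]
    intro k _
    rw [eventually_all_finset]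
    intro a ha
    obtain ⟨h1, h2, -⟩ := hA a ha
    obtain ⟨x0, hx0⟩ := arc_asymp M hM c hc (rp k γ) (hγk k) a.1 a.2.1 h1 a.2.2 (hS2.trans h2) s t
      hst e1 he1'
    filter_upwards [eventually_ge_atTop x0] with x hx
    obtain ⟨h3, h4⟩ := hx0 x hx
    constructor
    · refine le_trans (le_of_eq ?_) h3
      simp only [hw]
      ring
    · refine h4.trans (le_of_eq ?_)
      simp only [hw']
      ring
  filter_upwards [hev, sqrt_small e2 he2', eventually_ge_atTop 1] with x hx hsq hx1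
  have hx0 : 0 < x := by linarith
  have hAc : (0 : ℝ) < (A.card : ℝ) + 1 := by positivity
  have hLc : (0 : ℝ) < (L.card : ℝ) + 1 := by positivity
  have hbnd : 4 * (A.card : ℝ) * e1 ≤ ε / 2 := by
    rw [he1]
    rw [← mul_div_assoc, div_le_iff₀ (by positivity)]
    linarith only [hε]
  constructor
  · refine le_trans ?_ (lower M γ s t x A (fun a ha => (hA a ha).2.2) hAd)
    have h1 : ∑ k ∈ range 4, ∑ a ∈ A, (w a * (t - s) * x - e1 * x) ≤
        ∑ k ∈ range 4, ∑ a ∈ A,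
      ({e : G × G | e ∈ NE M (rp k γ) s t x ∧ e.1 ∈ arc a.1 a.2.1 a.2.2 M}.ncard : ℝ) :=
      sum_le_sum fun k hk => sum_le_sum fun a ha => (hx k hk a ha).1
    refine le_trans ?_ h1
    simp only [sum_sub_distrib, ← sum_mul, sum_const, card_range, nsmul_eq_mul]
    push_cast
    have h2 : 4 * ((A.card : ℝ) * (e1 * x)) = (4 * (A.card : ℝ) * e1) * x := by ring
    have h3 : (4 * (A.card : ℝ) * e1) * x ≤ ε / 2 * x := mul_le_mul_of_nonneg_right hbnd hx0.le
    linarith only [h2, h3, mul_pos hε hx0]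
  · refine (upper M γ s t x A L hcov).trans ?_
    have h1 : ∑ k ∈ range 4, (∑ a ∈ A,
      ({e : G × G | e ∈ NE M (rp k γ) s t x ∧ e.1 ∈ arc a.1 a.2.1 a.2.2 M}.ncard : ℝ) +
        ∑ l ∈ L, ({e : G × G | e ∈ NE M (rp k γ) s t x ∧ e.1 ∈ cone l.1 l.2}.ncard : ℝ)) ≤
        ∑ k ∈ range 4, (∑ a ∈ A, ((1 + η) * w a * (t - s) * x + e1 * x) +
          ∑ l ∈ L, (C s t * x * (1 / ((ll l.1 : ℝ) * ll l.2)) + C s t * (Real.sqrt x + 1))) := by
      refine sum_le_sum fun k hk => add_le_add ?_ ?_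
      · refine sum_le_sum fun a ha => ((hx k hk a ha).2).trans ?_
        have h2 := mul_le_mul_of_nonneg_right (hww a ha) (mul_nonneg (sub_nonneg.mpr hst) hx0.le)
        linarith
      · refine sum_le_sum fun l hl => (hC s t M (rp k γ) l.1 l.2 (hL l hl) x hx1).trans ?_
        apply le_of_eq
        ring
    refine h1.trans ?_
    simp only [sum_add_distrib, ← sum_mul, ← mul_sum, sum_const, card_range, nsmul_eq_mul]
    push_cast
    have h2 : 4 * ((A.card : ℝ) * (e1 * x)) ≤ ε / 2 * x := by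
      have h3 : 4 * ((A.card : ℝ) * (e1 * x)) = (4 * (A.card : ℝ) * e1) * x := by ring
      rw [h3]
      exact mul_le_mul_of_nonneg_right hbnd hx0.le
    have hC' := hC0 s t
    have h4 : 4 * (C s t * x * ∑ l ∈ L, 1 / ((ll l.1 : ℝ) * ll l.2)) ≤ C s t * η * x := by
      have h5 := mul_le_mul_of_nonneg_left hsum (mul_nonneg hC'.le hx0.le)
      linarith only [h5]
    have h6 : 4 * ((L.card : ℝ) * (C s t * (Real.sqrt x + 1))) ≤ ε / 2 * x := by
      have h7 : 4 * ((L.card : ℝ) * (C s t * (Real.sqrt x + 1))) ≤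
          4 * ((L.card : ℝ) * (C s t * (e2 * x))) := by
        have h8 := mul_le_mul_of_nonneg_left hsq hC'.le
        have h9 := mul_le_mul_of_nonneg_left h8 (Nat.cast_nonneg (α := ℝ) L.card)
        linarith
      refine h7.trans ?_
      have h10 : 4 * ((L.card : ℝ) * (C s t * (e2 * x))) = (4 * (L.card : ℝ) * C s t * e2) * x := by
        ring
      rw [h10]
      apply mul_le_mul_of_nonneg_right _ hx0.le
      rw [he2, ← mul_div_assoc, div_le_iff₀ (by positivity)]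
      linarith only [mul_pos hC' hε]
    linarith only [h2, h4, h6]

end EquidAux

open EquidAux

/-- Let `c` be from `cop_asymp`. Rotations: `(V, V') ↦ (i V, i V')` preserves `det`, `dot`, `nm` and maps the class `γ` to `i γ` (`det` unchanged). Every `V` is in
one of the four rotations of the closed quadrant `cone 1 i`, and the open quadrants are disjoint. -/
theorem equid (M : ℕ) (hM : 0 < M) : ∃ κ : ℝ, ∀ γ : G × G, (M : ℤ) ∣ det γ.1 γ.2 - 1 → ∀ s t : ℝ, s ≤ t →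
    Tendsto (fun x : ℝ => ((NE M γ s t x).ncard : ℝ) / x) atTop (nhds (κ * (t - s))) := by
  obtain ⟨C, hC0, hC⟩ := approx M hM
  choose! a ha0 ha using hC
  have hγ0 : (M : ℤ) ∣ det ((1 : G), (⟨0, 1⟩ : G)).1 ((1 : G), (⟨0, 1⟩ : G)).2 - 1 := by
    have : det (1 : G) ⟨0, 1⟩ = 1 := by
      unfold det
      simp
    show (M : ℤ) ∣ det (1 : G) ⟨0, 1⟩ - 1
    rw [this, sub_self]
    exact dvd_zero _
  -- comparison
  have hcmp : ∀ η : ℝ, 0 < η → ∀ η' : ℝ, 0 < η' → a η ≤ (1 + η') * a η' + C 0 1 * η' := by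
    intro η hη η' hη'
    apply le_of_forall_pos_le_add
    intro ε hε
    have h1 := ha η hη _ hγ0 0 1 zero_le_one (ε / 2) (by positivity)
    have h2 := ha η' hη' _ hγ0 0 1 zero_le_one (ε / 2) (by positivity)
    obtain ⟨x, ⟨h3, -⟩, ⟨-, h4⟩, hx⟩ := (h1.and (h2.and (eventually_gt_atTop 0))).exists
    have h5 := h3.trans h4
    have h6 : a η * x ≤ ((1 + η') * a η' + C 0 1 * η' + ε) * x := by linarith only [h5]
    exact le_of_mul_le_mul_right h6 hx
  set B : ℝ := (1 + 1) * a 1 + C 0 1 * 1 with hB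
  have hbd : ∀ η : ℝ, 0 < η → a η ≤ B := fun η hη => hcmp η hη 1 one_pos
  set T : Set ℝ := {y | ∃ η : ℝ, 0 < η ∧ y = a η} with hT
  have hTb : BddAbove T := ⟨B, by rintro _ ⟨η, hη, rfl⟩; exact hbd η hη⟩
  have hTne : T.Nonempty := ⟨a 1, 1, one_pos, rfl⟩
  have hk1 : ∀ η : ℝ, 0 < η → a η ≤ sSup T := fun η hη => le_csSup hTb ⟨η, hη, rfl⟩
  have hk2 : ∀ η : ℝ, 0 < η → sSup T ≤ (1 + η) * a η + C 0 1 * η := by
    intro η hη
    apply csSup_le hTne
    rintro _ ⟨η', hη', rfl⟩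
    exact hcmp η' hη' η hη
  have hB0 : 0 ≤ B := le_trans (ha0 1 one_pos) (hbd 1 one_pos)
  refine ⟨sSup T, ?_⟩
  intro γ hγ s t hst
  have hts : 0 ≤ t - s := sub_nonneg.mpr hst
  rw [Metric.tendsto_atTop]
  intro ε hε
  -- choose η
  set D : ℝ := (B + C 0 1 + 1) * (t - s) + C s t + 1 with hD
  have hC01 := hC0 0 1
  have hCst := hC0 s t
  have hD0 : 0 < D := by
    have : 0 ≤ (B + C 0 1 + 1) * (t - s) := mul_nonneg (by linarith) hts
    linarith
  set η : ℝ := ε / (4 * D) with hη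
  have hη0 : 0 < η := by positivity
  have hηD : η * D = ε / 4 := by
    rw [hη]
    field_simp
  obtain ⟨x1, hx1⟩ := eventually_atTop.mp
    ((ha η hη0 γ hγ s t hst (ε / 4) (by positivity)).and (eventually_gt_atTop 0))
  refine ⟨x1, fun x hx => ?_⟩
  obtain ⟨⟨h1, h2⟩, h3⟩ := hx1 x hx
  have h1' : a η * (t - s) - ε / 4 ≤ ((NE M γ s t x).ncard : ℝ) / x := by
    rw [le_div_iff₀ h3]
    have : N M γ s t x = ((NE M γ s t x).ncard : ℝ) := rfl
    rw [this] at h1
    linarith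
  have h2' : ((NE M γ s t x).ncard : ℝ) / x ≤ (1 + η) * a η * (t - s) + C s t * η + ε / 4 := by
    rw [div_le_iff₀ h3]
    have : N M γ s t x = ((NE M γ s t x).ncard : ℝ) := rfl
    rw [this] at h2
    linarith
  have h4 := hk1 η hη0
  have h5 := hk2 η hη0
  have h6 := ha0 η hη0
  have h7 := hbd η hη0
  rw [Real.dist_eq, abs_lt]
  have h8 : sSup T - a η ≤ η * (B + C 0 1) := by linarith only [h5, mul_le_mul_of_nonneg_left h7 hη0.le]
  have h9 : (sSup T - a η) * (t - s) ≤ η * (B + C 0 1) * (t - s) :=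
    mul_le_mul_of_nonneg_right h8 hts
  have h10 : η * (B + C 0 1) * (t - s) ≤ ε / 4 := by
    rw [← hηD]
    have : η * (B + C 0 1) * (t - s) ≤ η * D := by
      rw [mul_assoc]
      apply mul_le_mul_of_nonneg_left _ hη0.le
      rw [hD]
      linarith only [hts, hCst]
    exact this
  constructor
  · linarith only [h1', h9, h10, hε]
  · have h11 : a η * (t - s) ≤ sSup T * (t - s) := mul_le_mul_of_nonneg_right h4 hts
    have h12 : η * a η * (t - s) + C s t * η ≤ ε / 4 := by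
      rw [← hηD, hD]
      have h13 : η * a η * (t - s) ≤ η * (B * (t - s)) := by
        rw [mul_assoc]
        exact mul_le_mul_of_nonneg_left (mul_le_mul_of_nonneg_right h7 hts) hη0.le
      have h14 : 0 ≤ η * ((C 0 1 + 1) * (t - s)) :=
        mul_nonneg hη0.le (mul_nonneg (by linarith) hts)
      linarith only [h13, h14, hη0]
    linarith only [h2', h11, h12, hε]

end Pool.Agent.OmAll

end

/-! ### from `Lib_MP_f1a94e_aq.DCount` -/

section

/-!
# Piece DCOUNT: pairs `(m, d)` with congruence conditions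
-/

set_option autoImplicit false

namespace Pool.Agent.OmAll

open Finset Pool.Agent.GaussMR Filter

namespace DCount

/-- the representative of the class of an edge -/
def rep (M : ℕ) (e : G × G) : G × G := (⟨e.1.re % M, e.1.im % M⟩, ⟨e.2.re % M, e.2.im % M⟩)

theorem cg_rep (M : ℕ) (e : G × G) : cg M e.1 (rep M e).1 ∧ cg M e.2 (rep M e).2 := by
  have h : ∀ a : ℤ, (M : ℤ) ∣ a - a % M := fun a => Int.dvd_self_sub_emod
  exact ⟨⟨h _, h _⟩, ⟨h _, h _⟩⟩

theorem rep_mem (M : ℕ) (hM : 0 < M) (e : G × G) (he : det e.1 e.2 = 1) : rep M e ∈ cls M := by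
  have hM' : (0 : ℤ) < M := by exact_mod_cast hM
  rw [mem_cls]
  have h1 : ∀ a : ℤ, 0 ≤ a % M ∧ a % M < M := fun a => ⟨Int.emod_nonneg _ hM'.ne', Int.emod_lt_of_pos _ hM'⟩
  refine ⟨h1 _, h1 _, h1 _, h1 _, ?_⟩
  obtain ⟨⟨⟨a, ha⟩, ⟨b, hb⟩⟩, ⟨⟨c, hc⟩, ⟨d, hd⟩⟩⟩ := cg_rep M e
  have ha' : (rep M e).1.re = e.1.re - M * a := by linarith
  have hb' : (rep M e).1.im = e.1.im - M * b := by linarith
  have hc' : (rep M e).2.re = e.2.re - M * c := by linarith
  have hd' : (rep M e).2.im = e.2.im - M * d := by linarith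
  unfold det at he ⊢
  rw [ha', hb', hc', hd']
  refine ⟨-(e.1.re * d) - a * e.2.im + M * a * d + e.1.im * c + b * e.2.re - M * b * c, ?_⟩
  linear_combination he

theorem rep_unique (M : ℕ) (e γ : G × G) (hγ : γ ∈ cls M) (h1 : cg M e.1 γ.1) (h2 : cg M e.2 γ.2) :
    rep M e = γ := by
  rw [mem_cls] at hγ
  obtain ⟨⟨a1, a2⟩, ⟨b1, b2⟩, ⟨c1, c2⟩, ⟨d1, d2⟩, -⟩ := hγ
  have key : ∀ a b : ℤ, 0 ≤ b → b < M → (M : ℤ) ∣ a - b → a % M = b := by
    intro a b hb0 hb1 hab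
    rw [Int.emod_eq_emod_iff_emod_sub_eq_zero.mpr (Int.emod_eq_zero_of_dvd hab),
      Int.emod_eq_of_lt hb0 hb1]
  apply Prod.ext
  · exact Zsqrtd.ext (key _ _ a1 a2 h1.1) (key _ _ b1 b2 h1.2)
  · exact Zsqrtd.ext (key _ _ c1 c2 h2.1) (key _ _ d1 d2 h2.2)

open Classical in
theorem count_cls (M : ℕ) (hM : 0 < M) (P : G × G → Prop) (hP : Per M P) (s t x : ℝ) :
    {e : G × G | e ∈ NE 1 0 s t x ∧ P e}.ncard = ∑ γ ∈ (cls M).filter P, (NE M γ s t x).ncard := by
  have hfin : {e : G × G | e ∈ NE 1 0 s t x ∧ P e}.Finite :=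
    (NE_finite 1 0 s t x).subset fun e he => he.1
  rw [Set.ncard_eq_toFinset_card _ hfin]
  rw [Finset.card_eq_sum_card_fiberwise (f := rep M) (t := (cls M).filter P)]
  · refine Finset.sum_congr rfl fun γ hγ => ?_
    rw [Finset.mem_filter] at hγ
    rw [← Set.ncard_coe_finset]
    congr 1
    ext e
    simp only [Finset.coe_filter, Set.Finite.mem_toFinset, Set.mem_setOf_eq]
    constructor
    · rintro ⟨⟨⟨h1, h2, h3, h4, h5, -, -⟩, -⟩, h8⟩
      obtain ⟨h9, h10⟩ := cg_rep M e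
      rw [h8] at h9 h10
      exact ⟨h1, h2, h3, h4, h5, h9, h10⟩
    · rintro ⟨h1, h2, h3, h4, h5, h6, h7⟩
      refine ⟨⟨⟨h1, h2, h3, h4, h5, ?_, ?_⟩, ?_⟩, rep_unique M e γ hγ.1 h6 h7⟩
      · exact ⟨by simp, by simp⟩
      · exact ⟨by simp, by simp⟩
      · exact (hP e γ h6 h7).mpr hγ.2
  · intro e he
    rw [Finset.mem_coe, Set.Finite.mem_toFinset] at he
    rw [Finset.mem_coe, Finset.mem_filter]
    obtain ⟨h9, h10⟩ := cg_rep M e
    exact ⟨rep_mem M hM e he.1.1, (hP e _ h9 h10).mp he.2⟩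

open Classical in
theorem count_lim (M : ℕ) (hM : 0 < M) (P : G × G → Prop) (hP : Per M P) (κ : ℝ)
    (hκ : ∀ γ : G × G, (M : ℤ) ∣ det γ.1 γ.2 - 1 → ∀ s t : ℝ, s ≤ t →
      Tendsto (fun x : ℝ => ((NE M γ s t x).ncard : ℝ) / x) atTop (nhds (κ * (t - s))))
    (s t : ℝ) (hst : s ≤ t) :
    Tendsto (fun x : ℝ => ({e : G × G | e ∈ NE 1 0 s t x ∧ P e}.ncard : ℝ) / x) atTop
      (nhds (((cls M).filter P).card * (κ * (t - s)))) := by
  have h1 : (fun x : ℝ => ({e : G × G | e ∈ NE 1 0 s t x ∧ P e}.ncard : ℝ) / x) =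
      fun x : ℝ => ∑ γ ∈ (cls M).filter P, ((NE M γ s t x).ncard : ℝ) / x := by
    funext x
    rw [count_cls M hM P hP s t x]
    push_cast
    rw [Finset.sum_div]
  rw [h1, ← nsmul_eq_mul, ← Finset.sum_const]
  apply tendsto_finsetSum
  intro γ hγ
  rw [Finset.mem_filter, mem_cls] at hγ
  exact hκ γ hγ.1.2.2.2.2 s t hst

end DCount

/-- `Ce g` depends only on the class of `e` modulo `M = 2 (g g')^2`, every edge has exactly one representative in `cls M`
(`det = 1`), so the set of `dcount_edges` is the disjoint union of the `NE M γ s t x`, `γ ∈ cls M`, `Ce g γ`; each has `~ κ_M (t - s) x`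
elements (`equid`), and `κ_1 = κ_M #cls M` (the same with all classes). `local_density` gives the limit
`κ_1 / 4 * (1/3) ∏ Ap p (t - s)`. So `κ = κ_1 / 12`, `κ ≥ 0` (a limit of nonnegative numbers). -/
theorem dcount : ∃ κ : ℝ, 0 ≤ κ ∧ ∀ g : ℕ × ℕ, Adm g → ∀ s t : ℝ, s ≤ t →
    Tendsto (fun x : ℝ => ({r : ℕ × ℕ | r ∈ pd x ∧ Cd g r ∧ s ≤ tt r ∧ tt r < t}.ncard : ℝ) / x) atTop
      (nhds (κ * (∏ p ∈ (g.1 * g.2).primeFactors, Ap p) * (t - s))) := by
  classical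
  obtain ⟨κ₁, hκ₁⟩ := equid 1 one_pos
  have h0 : ((1 : ℕ) : ℤ) ∣ det (0 : G × G).1 (0 : G × G).2 - 1 := by simp
  have hnn : 0 ≤ κ₁ := by
    have h1 := hκ₁ 0 h0 0 1 zero_le_one
    rw [sub_zero, mul_one] at h1
    apply ge_of_tendsto h1
    filter_upwards [eventually_ge_atTop (0 : ℝ)] with x hx
    positivity
  refine ⟨κ₁ / 12, by positivity, fun g hg s t hst => ?_⟩
  obtain ⟨κ, hκ⟩ := equid (2 * (g.1 * g.2) ^ 2) (by
    have : g.1 * g.2 ≠ 0 := hg.1.ne_zero
    positivity)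
  have hM : 0 < 2 * (g.1 * g.2) ^ 2 := by
    have : g.1 * g.2 ≠ 0 := hg.1.ne_zero
    positivity
  have hall := DCount.count_lim _ hM (fun _ => True) (fun _ _ _ _ => Iff.rfl) κ hκ 0 1 zero_le_one
  have hkap : κ₁ = ((cls (2 * (g.1 * g.2) ^ 2)).card : ℝ) * κ := by
    have h1 := hκ₁ 0 h0 0 1 zero_le_one
    simp only [and_true, Set.setOf_mem_eq, Finset.filter_true] at hall
    have h2 := tendsto_nhds_unique h1 hall
    linarith
  have hmain := DCount.count_lim _ hM (Ce g) (Ce_per g) κ hκ s t hst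
  rw [local_density g hg] at hmain
  have h4 : (fun x : ℝ => ({r : ℕ × ℕ | r ∈ pd x ∧ Cd g r ∧ s ≤ tt r ∧ tt r < t}.ncard : ℝ) / x) =
      fun x : ℝ => (1 / 4 : ℝ) * (({e : G × G | e ∈ NE 1 0 s t x ∧ Ce g e}.ncard : ℝ) / x) := by
    funext x
    have h5 := dcount_edges g hg s t x
    rw [← h5]
    push_cast
    ring
  rw [h4]
  have h6 : κ₁ / 12 * (∏ p ∈ (g.1 * g.2).primeFactors, Ap p) * (t - s) =
      (1 / 4 : ℝ) * (1 / 3 * (∏ p ∈ (g.1 * g.2).primeFactors, Ap p) *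
        ((cls (2 * (g.1 * g.2) ^ 2)).card : ℝ) * (κ * (t - s))) := by
    rw [hkap]
    ring
  rw [h6]
  exact hmain.const_mul _

end Pool.Agent.OmAll

end
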