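import Pool.Agent.Lib_MP_92ef0c_m.M23
import Pool.Agent.Lib_MP_92ef0c_sp.Q4

/-!
# MP_92ef0c_nt, split pairs: merged library part M26

Concatenation of smaller files (each in its own section), only to save build time.
-/

/-! ### from `Lib_MP_f1a94e_eq.EqnA` -/

section

/-!
# Piece EQNA: pairs of determinant `n` from Farey edges, one residue `c`
-/

set_option autoImplicit false

namespace Pool.Agent.OmEq

open Finset Pool.Agent.GaussMR Pool.Agent.OmAll Filter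

theorem ea_dot (n : ℕ) (c : ℤ) (u v : G) :
    dot u ((c : G) * u + (n : G) * v) = c * (nm u : ℤ) + n * dot u v := by
  rw [nm_eq]
  simp [dot]
  ring

theorem ea_det (n : ℕ) (c : ℤ) (u v : G) :
    det u ((c : G) * u + (n : G) * v) = n * det u v := by
  simp [det]
  ring

/-- real version of the relations between the quantities of an edge -/
theorem ea_real (n : ℕ) (c : ℤ) (u v : G) (h : det u v = 1) :
    ((dot u ((c : G) * u + (n : G) * v) : ℤ) : ℝ) = c * (nm u : ℝ) + n * ((dot u v : ℤ) : ℝ) ∧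
    (nm u : ℝ) * nm v = ((dot u v : ℤ) : ℝ) ^ 2 + 1 ∧
    (nm u : ℝ) * nm ((c : G) * u + (n : G) * v) =
      ((dot u ((c : G) * u + (n : G) * v) : ℤ) : ℝ) ^ 2 + (n : ℝ) ^ 2 ∧ (1 : ℝ) ≤ nm u := by
  have h1 := ea_dot n c u v
  have h2 := ea_det n c u v
  rw [h, mul_one] at h2
  have h3 := dot_sq_add_det_sq u v
  rw [h] at h3
  have h4 := dot_sq_add_det_sq u ((c : G) * u + (n : G) * v)
  rw [h2] at h4
  have h5 : 0 < nm u := by
    by_contra h0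
    have h0' : nm u = 0 := by omega
    rw [h0'] at h3
    simp only [Nat.cast_zero, zero_mul] at h3
    linarith only [sq_nonneg (dot u v), h3]
  refine ⟨?_, ?_, ?_, by exact_mod_cast h5⟩
  · rw [h1]
    push_cast
    ring
  · have h6 : ((dot u v ^ 2 + 1 ^ 2 : ℤ) : ℝ) = (((nm u : ℤ) * nm v : ℤ) : ℝ) := by rw [h3]
    push_cast at h6
    linarith
  · have h6 : ((dot u ((c : G) * u + (n : G) * v) ^ 2 + (n : ℤ) ^ 2 : ℤ) : ℝ) =
      (((nm u : ℤ) * nm ((c : G) * u + (n : G) * v) : ℤ) : ℝ) := by rw [h4]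
    push_cast at h6
    linarith

/-- upper estimate: real inequalities -/
theorem ea_up (n c ω0 ω1 ρ0 ρ1 η v D m : ℝ) (hn : 1 ≤ n) (hc : c ≤ 0) (hω0 : 0 < ω0)
    (hρ0 : n * ρ0 = ω0 - c) (hρ1 : n * ρ1 = ω1 - c) (hη : 0 < η) (hη0 : η < ρ0) (hρ1' : 0 < ρ1)
    (hω1 : 0 < ω1)
    (hv : 1 ≤ v) (hm : m = c * v + n * D) (hm0 : 0 < m) (h1 : ω0 ^ 2 * v ^ 2 ≤ m ^ 2 + n ^ 2)
    (h2 : m ^ 2 + n ^ 2 < ω1 ^ 2 * v ^ 2) (hD : ρ1 / η < D) :
    (ρ0 - η) ^ 2 * v ^ 2 ≤ D ^ 2 + 1 ∧ D ^ 2 + 1 < (ρ1 + η) ^ 2 * v ^ 2 ∧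
      D * (n + c / (ρ0 - η)) ≤ m := by
  have hv0 : 0 < v := by linarith
  have hn0 : 0 < n := by linarith
  have hD0 : 0 < D := lt_trans (div_pos hρ1' hη) hD
  have a1 : m < ω1 * v := by
    apply lt_of_pow_lt_pow_left₀ 2 (mul_pos hω1 hv0).le
    rw [mul_pow]
    linarith only [h2, sq_nonneg n]
  have a2 : D < ρ1 * v := by
    have : n * D < n * (ρ1 * v) := by
      rw [← mul_assoc, hρ1]
      linarith
    exact lt_of_mul_lt_mul_left this hn0.le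
  have a3 : 1 ≤ η * v := by
    have h3 : ρ1 / η < ρ1 * v := hD.trans a2
    rw [div_lt_iff₀ hη] at h3
    have h4 : ρ1 * 1 < ρ1 * (η * v) := by linarith only [h3]
    exact (lt_of_mul_lt_mul_left h4 hρ1'.le).le
  have a4 : ω0 * v - n ≤ m := by
    by_contra hcon
    push Not at hcon
    have h5 : 0 < ω0 * v - n := hm0.trans hcon
    have h6 : m ^ 2 < (ω0 * v - n) ^ 2 := pow_lt_pow_left₀ hcon hm0.le two_ne_zero
    linarith only [h6, h1, mul_pos hn0 h5]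
  have a5 : (ρ0 - η) * v ≤ D := by
    have h7 : n * ((ρ0 - η) * v) ≤ n * D := by
      have : n * ((ρ0 - η) * v) = (n * ρ0) * v - n * (η * v) := by ring
      rw [this, hρ0]
      linarith only [a4, hm, mul_le_mul_of_nonneg_left a3 hn0.le]
    exact le_of_mul_le_mul_left h7 hn0
  have hρη : 0 < ρ0 - η := by linarith
  refine ⟨?_, ?_, ?_⟩
  · have h8 : ((ρ0 - η) * v) ^ 2 ≤ D ^ 2 := pow_le_pow_left₀ (mul_pos hρη hv0).le a5 2
    rw [mul_pow] at h8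
    linarith only [h8]
  · have h9 : D ^ 2 < (ρ1 * v) ^ 2 := pow_lt_pow_left₀ a2 hD0.le two_ne_zero
    have h10 : 1 ≤ (η * v) ^ 2 := one_le_pow₀ a3
    linarith only [h9, h10, mul_pos (mul_pos hρ1' hη) (mul_pos hv0 hv0)]
  · have h11 : v ≤ D / (ρ0 - η) := by
      rw [le_div_iff₀ hρη]
      linarith only [a5]
    have h12 : c * (D / (ρ0 - η)) ≤ c * v := mul_le_mul_of_nonpos_left h11 hc
    have h13 : D * (n + c / (ρ0 - η)) = n * D + c * (D / (ρ0 - η)) := by ring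
    rw [h13, hm]
    linarith only [h12]

/-- lower estimate: real inequalities -/
theorem ea_low (n c ω0 ω1 ρ0 ρ1 η v D m : ℝ) (hn : 1 ≤ n) (hc : c ≤ 0) (hω0 : 0 < ω0)
    (hρ0 : n * ρ0 = ω0 - c) (hρ1 : n * ρ1 = ω1 - c) (hη : 0 < η) (hη1 : η < ρ1) (hρ0' : 0 < ρ0)
    (hv : 1 ≤ v) (hm : m = c * v + n * D) (hD0 : 0 < D)
    (h1 : (ρ0 + η) ^ 2 * v ^ 2 ≤ D ^ 2 + 1)
    (h2 : D ^ 2 + 1 < (ρ1 - η) ^ 2 * v ^ 2) (hD : ρ1 / η < D) :
    0 < m ∧ ω0 ^ 2 * v ^ 2 ≤ m ^ 2 + n ^ 2 ∧ m ^ 2 + n ^ 2 < ω1 ^ 2 * v ^ 2 ∧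
      m ≤ D * (n + c / ρ1) := by
  have hv0 : 0 < v := by linarith
  have hn0 : 0 < n := by linarith
  have hρ1' : 0 < ρ1 := hη.trans hη1
  have hρη : 0 < ρ1 - η := by linarith
  have a2 : D < (ρ1 - η) * v := by
    apply lt_of_pow_lt_pow_left₀ 2 (mul_pos hρη hv0).le
    rw [mul_pow]
    linarith only [h2]
  have a2' : D < ρ1 * v := by linarith only [a2, mul_pos hη hv0]
  have a3 : 1 ≤ η * v := by
    have h3 : ρ1 / η < ρ1 * v := hD.trans a2'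
    rw [div_lt_iff₀ hη] at h3
    have h4 : ρ1 * 1 < ρ1 * (η * v) := by linarith only [h3]
    exact (lt_of_mul_lt_mul_left h4 hρ1'.le).le
  have a5 : ρ0 * v ≤ D := by
    have h5 : (ρ0 + η) * v ≤ D + 1 := by
      apply le_of_sq_le_sq _ (by linarith only [hD0])
      rw [mul_pow]
      linarith only [h1, hD0]
    linarith only [h5, a3]
  have a6 : ω0 * v ≤ m := by
    rw [hm]
    have h6 : n * (ρ0 * v) ≤ n * D := mul_le_mul_of_nonneg_left a5 hn0.le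
    have h7 : n * (ρ0 * v) = (ω0 - c) * v := by rw [← mul_assoc, hρ0]
    linarith only [h6, h7]
  have hm0 : 0 < m := lt_of_lt_of_le (mul_pos hω0 hv0) a6
  have a7 : m < (ω1 - n * η) * v := by
    rw [hm]
    have h6 : n * D < n * ((ρ1 - η) * v) := mul_lt_mul_of_pos_left a2 hn0
    have h7 : n * ((ρ1 - η) * v) = (ω1 - c) * v - n * η * v := by rw [← hρ1]; ring
    linarith only [h6, h7]
  refine ⟨hm0, ?_, ?_, ?_⟩
  · have h8 : (ω0 * v) ^ 2 ≤ m ^ 2 := pow_le_pow_left₀ (mul_pos hω0 hv0).le a6 2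
    rw [mul_pow] at h8
    linarith only [h8, sq_nonneg n]
  · have h9 : m ^ 2 < ((ω1 - n * η) * v) ^ 2 := pow_lt_pow_left₀ a7 hm0.le two_ne_zero
    have h10 : 0 < (ω1 - n * η) * v := hm0.trans a7
    have h11 : n ≤ n * η * v := by linarith only [mul_le_mul_of_nonneg_left a3 hn0.le]
    have h12 : n * n ≤ (n * η * v) * (n * η * v) := mul_self_le_mul_self hn0.le h11
    have h13 : 0 ≤ (n * η * v) * ((ω1 - n * η) * v) :=
      mul_nonneg (hn0.le.trans h11) h10.le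
    have h14 : ω1 ^ 2 * v ^ 2 = ((ω1 - n * η) * v) ^ 2 + 2 * ((n * η * v) * ((ω1 - n * η) * v)) +
      (n * η * v) * (n * η * v) := by ring
    rw [h14]
    generalize ((ω1 - n * η) * v) ^ 2 = A at *
    generalize (n * η * v) * ((ω1 - n * η) * v) = B at *
    generalize (n * η * v) * (n * η * v) = C at *
    linarith only [h9, h12, h13]
  · have h11 : D / ρ1 ≤ v := by
      rw [div_le_iff₀ hρ1']
      linarith only [a2']
    have h12 : c * v ≤ c * (D / ρ1) := mul_le_mul_of_nonpos_left h11 hc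
    have h13 : D * (n + c / ρ1) = n * D + c * (D / ρ1) := by ring
    rw [h13, hm]
    linarith only [h12]

/-- the counted set -/
def ENs (n : ℕ) (c : ℤ) (M : ℕ) (γ : G × G) (s t x : ℝ) : Set (G × G) :=
  {e : G × G | det e.1 e.2 = 1 ∧ cg M e.1 γ.1 ∧ cg M e.2 γ.2 ∧
        0 < dot e.1 ((c : G) * e.1 + (n : G) * e.2) ∧
        ((dot e.1 ((c : G) * e.1 + (n : G) * e.2) : ℤ) : ℝ) ≤ x ∧
        Real.exp s * (nm e.1 : ℝ) ≤ (nm ((c : G) * e.1 + (n : G) * e.2) : ℝ) ∧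
        (nm ((c : G) * e.1 + (n : G) * e.2) : ℝ) < Real.exp t * (nm e.1 : ℝ)}

/-- edges with bounded scalar product -/
def sml (D0 : ℝ) : Set (G × G) :=
  {e : G × G | det e.1 e.2 = 1 ∧ 0 < dot e.1 e.2 ∧ ((dot e.1 e.2 : ℤ) : ℝ) ≤ D0}

theorem ea_prod {a b X : ℝ} (ha : 1 ≤ a) (hb : 0 ≤ b) (h : a * b ≤ X) : b ≤ X :=
  (le_mul_of_one_le_left hb ha).trans h

theorem sml_finite (D0 : ℝ) : (sml D0).Finite := by
  apply ((finite_ball (D0 ^ 2 + 1)).prod (finite_ball (D0 ^ 2 + 1))).subset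
  rintro ⟨u, v⟩ ⟨h1, h2, h3⟩
  simp only at h1 h2 h3
  obtain ⟨-, a2, -, a4⟩ := ea_real 1 0 u v h1
  have h6 : (0 : ℝ) < ((dot u v : ℤ) : ℝ) := by exact_mod_cast h2
  have h7 : (nm u : ℝ) * (nm v : ℝ) ≤ D0 ^ 2 + 1 := by
    rw [a2]; linarith only [pow_le_pow_left₀ h6.le h3 2]
  have h8 : (1 : ℝ) ≤ nm v := by
    have : 0 < nm v := by
      by_contra h
      have h0 : nm v = 0 := by omega
      rw [h0] at a2
      simp only [Nat.cast_zero, mul_zero] at a2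
      linarith only [a2, sq_nonneg ((dot u v : ℤ) : ℝ)]
    exact_mod_cast this
  exact ⟨ea_prod h8 (by linarith) (by linarith : (nm v : ℝ) * nm u ≤ D0 ^ 2 + 1),
    ea_prod a4 (by linarith) h7⟩

theorem ENs_finite (n : ℕ) (hn : 0 < n) (c : ℤ) (M : ℕ) (γ : G × G) (s t x : ℝ) :
    (ENs n c M γ s t x).Finite := by
  have hinj : Function.Injective (fun e : G × G => (e.1, (c : G) * e.1 + (n : G) * e.2)) := by
    rintro ⟨a, b⟩ ⟨a', b'⟩ h
    simp only [Prod.mk.injEq] at h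
    obtain ⟨rfl, h⟩ := h
    have h1 : (n : G) * b = (n : G) * b' := add_left_cancel h
    have h2 : (n : G) ≠ 0 := by exact_mod_cast hn.ne'
    rw [mul_left_cancel₀ h2 h1]
  apply (((finite_ball (x ^ 2 + (n : ℝ) ^ 2)).prod (finite_ball (x ^ 2 + (n : ℝ) ^ 2))).preimage
    (hinj.injOn)).subset
  rintro ⟨u, v⟩ ⟨h1, -, -, h2, h3, -⟩
  simp only at h1 h2 h3
  obtain ⟨-, -, a3, a4⟩ := ea_real n c u v h1
  have h6 : (0 : ℝ) < ((dot u ((c : G) * u + (n : G) * v) : ℤ) : ℝ) := by exact_mod_cast h2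
  have h7 : (nm u : ℝ) * (nm ((c : G) * u + (n : G) * v) : ℝ) ≤ x ^ 2 + (n : ℝ) ^ 2 := by
    rw [a3]; linarith only [pow_le_pow_left₀ h6.le h3 2]
  have h8 : (1 : ℝ) ≤ nm ((c : G) * u + (n : G) * v) := by
    have : 0 < nm ((c : G) * u + (n : G) * v) := by
      by_contra h
      have h0 : nm ((c : G) * u + (n : G) * v) = 0 := by omega
      rw [h0] at a3
      simp only [Nat.cast_zero, mul_zero] at a3
      linarith only [a3, pow_pos h6 2, sq_nonneg (n : ℝ)]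
    exact_mod_cast this
  exact ⟨ea_prod h8 (by linarith)
    (by linarith : (nm ((c : G) * u + (n : G) * v) : ℝ) * nm u ≤ x ^ 2 + (n : ℝ) ^ 2),
    ea_prod a4 (by linarith) h7⟩

theorem ea_exp2log {ρ : ℝ} (h : 0 < ρ) : Real.exp (2 * Real.log ρ) = ρ ^ 2 := by
  rw [mul_comm, Real.exp_mul, Real.exp_log h]
  norm_cast

theorem ea_expsq (w : ℝ) : Real.exp w = Real.exp (w / 2) ^ 2 := by
  rw [← Real.exp_nat_mul]
  congr 1
  push_cast
  ring

/-- multiply an inequality between norms by `nm u` -/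
theorem ea_mulR {k v a b : ℝ} (hv : 1 ≤ v) (h : v * a = b) : k * v ≤ a ↔ k * v ^ 2 ≤ b := by
  rw [← h]
  have hv0 : 0 < v := by linarith
  have e : k * v ^ 2 = v * (k * v) := by ring
  rw [e]
  exact (mul_le_mul_iff_right₀ hv0).symm

theorem ea_mulL {k v a b : ℝ} (hv : 1 ≤ v) (h : v * a = b) : a < k * v ↔ b < k * v ^ 2 := by
  rw [← not_le, ← not_le, ea_mulR hv h]

/-- upper inclusion -/
theorem ea_sub_up (n : ℕ) (hn : 0 < n) (c : ℤ) (hc0 : c ≤ 0) (M : ℕ) (γ : G × G)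
    (w0 w1 ρ0 ρ1 η x : ℝ) (hρ0 : n * ρ0 = Real.exp (w0 / 2) - c) (hρ1 : n * ρ1 = Real.exp (w1 / 2) - c)
    (hρ1' : 0 < ρ1) (hη : 0 < η) (hη0 : η < ρ0) (hH : 0 < (n : ℝ) + c / (ρ0 - η)) :
    ENs n c M γ w0 w1 x ⊆ sml (ρ1 / η) ∪
      NE M γ (2 * Real.log (ρ0 - η)) (2 * Real.log (ρ1 + η)) (x / (n + c / (ρ0 - η))) := by
  rintro ⟨u, v⟩ ⟨h1, h2, h3, h4, h5, h6, h7⟩
  simp only at h1 h2 h3 h4 h5 h6 h7
  obtain ⟨a1, a2, a3, a4⟩ := ea_real n c u v h1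
  have hn1 : (1 : ℝ) ≤ n := by exact_mod_cast hn
  have hc0' : (c : ℝ) ≤ 0 := by exact_mod_cast hc0
  have h4' : (0 : ℝ) < ((dot u ((c : G) * u + (n : G) * v) : ℤ) : ℝ) := by exact_mod_cast h4
  have hD0 : (0 : ℝ) < ((dot u v : ℤ) : ℝ) := by
    rw [a1] at h4'
    by_contra hcon
    push Not at hcon
    have b1 : (c : ℝ) * nm u ≤ 0 := mul_nonpos_of_nonpos_of_nonneg hc0' (by linarith)
    have b2 : (n : ℝ) * ((dot u v : ℤ) : ℝ) ≤ 0 := mul_nonpos_of_nonneg_of_nonpos (by linarith) hcon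
    linarith
  have hD0' : 0 < dot u v := by exact_mod_cast hD0
  by_cases hD : ((dot u v : ℤ) : ℝ) ≤ ρ1 / η
  · left
    exact ⟨h1, hD0', hD⟩
  · right
    push Not at hD
    rw [ea_mulR a4 a3, ea_expsq] at h6
    rw [ea_mulL a4 a3, ea_expsq] at h7
    obtain ⟨b1, b2, b3⟩ := ea_up n c (Real.exp (w0 / 2)) (Real.exp (w1 / 2)) ρ0 ρ1 η (nm u)
      ((dot u v : ℤ) : ℝ) _ hn1 hc0' (Real.exp_pos _) hρ0 hρ1 hη hη0 hρ1' (Real.exp_pos _) a4 a1 h4'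
      h6 h7 hD
    refine ⟨h1, hD0', ?_, ?_, ?_, h2, h3⟩
    · show ((dot u v : ℤ) : ℝ) ≤ x / (n + c / (ρ0 - η))
      rw [le_div_iff₀ hH]
      linarith
    · show Real.exp (2 * Real.log (ρ0 - η)) * (nm u : ℝ) ≤ (nm v : ℝ)
      rw [ea_exp2log (by linarith), ea_mulR a4 a2]
      exact b1
    · show (nm v : ℝ) < Real.exp (2 * Real.log (ρ1 + η)) * (nm u : ℝ)
      rw [ea_exp2log (by linarith), ea_mulL a4 a2]
      exact b2

/-- lower inclusion -/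
theorem ea_sub_low (n : ℕ) (hn : 0 < n) (c : ℤ) (hc0 : c ≤ 0) (M : ℕ) (γ : G × G)
    (w0 w1 ρ0 ρ1 η x : ℝ) (hρ0 : n * ρ0 = Real.exp (w0 / 2) - c) (hρ1 : n * ρ1 = Real.exp (w1 / 2) - c)
    (hρ0' : 0 < ρ0) (hη : 0 < η) (hη1 : η < ρ1) (hH : 0 < (n : ℝ) + c / ρ1) :
    NE M γ (2 * Real.log (ρ0 + η)) (2 * Real.log (ρ1 - η)) (x / (n + c / ρ1)) ⊆
      sml (ρ1 / η) ∪ ENs n c M γ w0 w1 x := by
  rintro ⟨u, v⟩ ⟨h1, h2, h3, h4, h5, h6, h7⟩
  simp only at h1 h2 h3 h4 h5 h6 h7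
  obtain ⟨a1, a2, a3, a4⟩ := ea_real n c u v h1
  have hn1 : (1 : ℝ) ≤ n := by exact_mod_cast hn
  have hc0' : (c : ℝ) ≤ 0 := by exact_mod_cast hc0
  have hD0 : (0 : ℝ) < ((dot u v : ℤ) : ℝ) := by exact_mod_cast h2
  by_cases hD : ((dot u v : ℤ) : ℝ) ≤ ρ1 / η
  · left
    exact ⟨h1, h2, hD⟩
  · right
    push Not at hD
    rw [ea_exp2log (by linarith), ea_mulR a4 a2] at h4
    rw [ea_exp2log (by linarith), ea_mulL a4 a2] at h5
    obtain ⟨b1, b2, b3, b4⟩ := ea_low n c (Real.exp (w0 / 2)) (Real.exp (w1 / 2)) ρ0 ρ1 η (nm u)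
      ((dot u v : ℤ) : ℝ) _ hn1 hc0' (Real.exp_pos _) hρ0 hρ1 hη hη1 hρ0' a4 a1 hD0 h4 h5 hD
    refine ⟨h1, h6, h7, ?_, ?_, ?_, ?_⟩
    · show 0 < dot u ((c : G) * u + (n : G) * v)
      exact_mod_cast b1
    · show ((dot u ((c : G) * u + (n : G) * v) : ℤ) : ℝ) ≤ x
      rw [le_div_iff₀ hH] at h3
      linarith
    · show Real.exp w0 * (nm u : ℝ) ≤ (nm ((c : G) * u + (n : G) * v) : ℝ)
      rw [ea_mulR a4 a3, ea_expsq]
      exact b2
    · show (nm ((c : G) * u + (n : G) * v) : ℝ) < Real.exp w1 * (nm u : ℝ)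
      rw [ea_mulL a4 a3, ea_expsq]
      exact b3

/-- scaled version of the hypothesis -/
theorem ea_scale (M : ℕ) (κ : ℝ) (γ : G × G)
    (hκ : ∀ s t : ℝ, s ≤ t →
      Tendsto (fun x : ℝ => ((NE M γ s t x).ncard : ℝ) / x) atTop (nhds (κ * (t - s))))
    (C : ℝ) (H : ℝ) (hH : 0 < H) (s t : ℝ) (hst : s ≤ t) :
    Tendsto (fun x : ℝ => (C + ((NE M γ s t (x / H)).ncard : ℝ)) / x) atTop
      (nhds (κ * (t - s) / H)) := by
  have h1 : Tendsto (fun x : ℝ => x / H) atTop atTop := tendsto_id.atTop_div_const hH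
  have h2 := ((hκ s t hst).comp h1).div_const H
  have h3 : Tendsto (fun x : ℝ => C / x) atTop (nhds 0) := tendsto_const_nhds.div_atTop tendsto_id
  have h4 := h3.add h2
  rw [zero_add] at h4
  refine h4.congr' ?_
  filter_upwards [eventually_gt_atTop 0] with x hx
  simp only [Function.comp]
  field_simp

theorem ea_kappa (M : ℕ) (κ : ℝ) (γ : G × G)
    (hκ : ∀ s t : ℝ, s ≤ t →
      Tendsto (fun x : ℝ => ((NE M γ s t x).ncard : ℝ) / x) atTop (nhds (κ * (t - s)))) :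
    0 ≤ κ := by
  have h1 := hκ 0 1 zero_le_one
  rw [sub_zero, mul_one] at h1
  apply ge_of_tendsto h1
  filter_upwards [eventually_gt_atTop 0] with x hx
  positivity

theorem ea_f {n c ρ ω : ℝ} (hρ : 0 < ρ) (e : n * ρ = ω - c) : n + c / ρ = ω / ρ := by
  rw [eq_div_iff hρ.ne', add_mul, div_mul_cancel₀ _ hρ.ne']
  linarith only [e]

theorem ea_h2 {κ a b ω ρ : ℝ} (hω : 0 < ω) (hρ : 0 < ρ) :
    κ * (2 * a - 2 * b) / (ω / ρ) = κ * (2 * ρ / ω) * (a - b) := by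
  field_simp

theorem ea_h3 {κ n c ω0 ω1 ρ0 ρ1 : ℝ} (hn : 0 < n) (hω : 0 < ω0) (hρ : 0 < ρ0)
    (e0 : n * ρ0 = ω0 - c) (e1 : n * ρ1 = ω1 - c) :
    κ * (2 / n) * (ω1 / ω0 - 1) = κ * (2 * ρ0 / ω0) * (ρ1 / ρ0 - 1) := by
  have h4 : ω1 - ω0 = n * (ρ1 - ρ0) := by rw [mul_sub, e0, e1]; ring
  have h5 : ω1 / ω0 - 1 = n * (ρ1 - ρ0) / ω0 := by
    rw [← h4, sub_div, div_self hω.ne']
  rw [h5]
  field_simp

theorem ea_log {a b : ℝ} (ha : 0 < a) (hb : 0 < b) : Real.log a - Real.log b ≤ a / b - 1 := by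
  rw [← Real.log_div ha.ne' hb.ne']
  exact Real.log_le_sub_one_of_pos (div_pos ha hb)

theorem ea_g1 {κ n c ω0 ω1 ρ0 ρ1 : ℝ} (hκ : 0 ≤ κ) (hn : 0 < n) (hω : 0 < ω0) (hρ : 0 < ρ0)
    (hρ1 : 0 < ρ1) (e0 : n * ρ0 = ω0 - c) (e1 : n * ρ1 = ω1 - c) :
    κ * (2 * Real.log ρ1 - 2 * Real.log ρ0) / (n + c / ρ0) ≤ κ * (2 / n) * (ω1 / ω0 - 1) := by
  rw [ea_f hρ e0, ea_h2 hω hρ, ea_h3 hn hω hρ e0 e1]
  exact mul_le_mul_of_nonneg_left (ea_log hρ1 hρ)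
    (mul_nonneg hκ (div_pos (mul_pos two_pos hρ) hω).le)

theorem ea_g2 {κ n c ω0 ω1 ρ0 ρ1 : ℝ} (hκ : 0 ≤ κ) (hn : 0 < n) (hω : 0 < ω1) (hρ : 0 < ρ0)
    (hρ1 : 0 < ρ1) (e0 : n * ρ0 = ω0 - c) (e1 : n * ρ1 = ω1 - c) :
    κ * (2 / n) * (1 - ω0 / ω1) ≤ κ * (2 * Real.log ρ1 - 2 * Real.log ρ0) / (n + c / ρ1) := by
  have h1 := ea_log hρ hρ1
  have h3 : κ * (2 / n) * (1 - ω0 / ω1) = κ * (2 * ρ1 / ω1) * (1 - ρ0 / ρ1) := by
    have h := ea_h3 (κ := κ) (ω1 := ω0) (ρ1 := ρ0) hn hω hρ1 e1 e0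
    linarith only [h]
  rw [ea_f hρ1 e1, ea_h2 hω hρ1, h3]
  exact mul_le_mul_of_nonneg_left (by linarith only [h1])
    (mul_nonneg hκ (div_pos (mul_pos two_pos hρ1) hω).le)

theorem ea_hup {κ n c ρ0 ρ1 T : ℝ} (hρ0 : 0 < ρ0) (hρ1 : 0 < ρ1) (hH : 0 < n + c / ρ0)
    (hT : κ * (2 * Real.log ρ1 - 2 * Real.log ρ0) / (n + c / ρ0) < T) :
    ∀ᶠ η : ℝ in nhds 0, κ * (2 * Real.log (ρ1 + η) - 2 * Real.log (ρ0 - η)) /
      (n + c / (ρ0 - η)) < T := by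
  have k1 : ρ1 + 0 ≠ 0 := by rw [add_zero]; exact hρ1.ne'
  have k2 : ρ0 - 0 ≠ 0 := by rw [sub_zero]; exact hρ0.ne'
  have k3 : n + c / (ρ0 - 0) ≠ 0 := by rw [sub_zero]; exact hH.ne'
  have k1' : ContinuousAt (fun η : ℝ => ρ1 + η) 0 := continuousAt_const.add continuousAt_id
  have k2' : ContinuousAt (fun η : ℝ => ρ0 - η) 0 := continuousAt_const.sub continuousAt_id
  have k4 : ContinuousAt (fun η : ℝ => κ * (2 * Real.log (ρ1 + η) - 2 * Real.log (ρ0 - η))) 0 :=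
    continuousAt_const.mul ((continuousAt_const.mul (ContinuousAt.log k1' k1)).sub
      (continuousAt_const.mul (ContinuousAt.log k2' k2)))
  have k5 : ContinuousAt (fun η : ℝ => n + c / (ρ0 - η)) 0 :=
    continuousAt_const.add (continuousAt_const.div k2' k2)
  have hcont : Tendsto (fun η : ℝ => κ * (2 * Real.log (ρ1 + η) - 2 * Real.log (ρ0 - η)) /
      (n + c / (ρ0 - η))) (nhds 0) (nhds (κ * (2 * Real.log (ρ1 + 0) - 2 * Real.log (ρ0 - 0)) /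
      (n + c / (ρ0 - 0)))) := (k4.div k5 k3).tendsto
  rw [add_zero, sub_zero] at hcont
  exact hcont.eventually (gt_mem_nhds hT)

theorem ea_hlow {κ n c ρ0 ρ1 T : ℝ} (hρ0 : 0 < ρ0) (hρ1 : 0 < ρ1)
    (hT : T < κ * (2 * Real.log ρ1 - 2 * Real.log ρ0) / (n + c / ρ1)) :
    ∀ᶠ η : ℝ in nhds 0, T <
      κ * (2 * Real.log (ρ1 - η) - 2 * Real.log (ρ0 + η)) / (n + c / ρ1) := by
  have k1 : ρ1 - 0 ≠ 0 := by rw [sub_zero]; exact hρ1.ne'
  have k2 : ρ0 + 0 ≠ 0 := by rw [add_zero]; exact hρ0.ne'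
  have k1' : ContinuousAt (fun η : ℝ => ρ1 - η) 0 := continuousAt_const.sub continuousAt_id
  have k2' : ContinuousAt (fun η : ℝ => ρ0 + η) 0 := continuousAt_const.add continuousAt_id
  have k4 : ContinuousAt (fun η : ℝ => κ * (2 * Real.log (ρ1 - η) - 2 * Real.log (ρ0 + η))) 0 :=
    continuousAt_const.mul ((continuousAt_const.mul (ContinuousAt.log k1' k1)).sub
      (continuousAt_const.mul (ContinuousAt.log k2' k2)))
  have hcont : Tendsto (fun η : ℝ => κ * (2 * Real.log (ρ1 - η) - 2 * Real.log (ρ0 + η)) /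
      (n + c / ρ1)) (nhds 0) (nhds (κ * (2 * Real.log (ρ1 - 0) - 2 * Real.log (ρ0 + 0)) /
      (n + c / ρ1))) := (k4.div_const (n + c / ρ1)).tendsto
  rw [add_zero, sub_zero] at hcont
  exact hcont.eventually (lt_mem_nhds hT)

theorem ea_hpos {n c ρ0 : ℝ} (hρ0 : 0 < ρ0) (hH : 0 < n + c / ρ0) :
    ∀ᶠ η : ℝ in nhds 0, 0 < n + c / (ρ0 - η) := by
  have k2 : ρ0 - 0 ≠ 0 := by rw [sub_zero]; exact hρ0.ne'
  have hcont : ContinuousAt (fun η : ℝ => n + c / (ρ0 - η)) 0 :=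
    continuousAt_const.add (continuousAt_const.div (continuousAt_const.sub continuousAt_id) k2)
  exact hcont.tendsto.eventually (lt_mem_nhds (by rw [sub_zero]; exact hH))

/-- a slice -/
theorem ea_slice (n : ℕ) (hn : 0 < n) (c : ℤ) (hc0 : c ≤ 0) (M : ℕ) (κ : ℝ) (γ : G × G)
    (hκ : ∀ s t : ℝ, s ≤ t →
      Tendsto (fun x : ℝ => ((NE M γ s t x).ncard : ℝ) / x) atTop (nhds (κ * (t - s))))
    (w0 w1 : ℝ) (hw : w0 < w1) (ε : ℝ) (hε : 0 < ε) :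
    ∀ᶠ x : ℝ in atTop, ((ENs n c M γ w0 w1 x).ncard : ℝ) / x ≤
        κ * (2 / n) * (Real.exp ((w1 - w0) / 2) - 1) + ε ∧
      κ * (2 / n) * (1 - Real.exp (-((w1 - w0) / 2))) - ε ≤ ((ENs n c M γ w0 w1 x).ncard : ℝ) / x := by
  have hn0 : (0 : ℝ) < n := by exact_mod_cast hn
  have hc0' : (c : ℝ) ≤ 0 := by exact_mod_cast hc0
  have hκ0 := ea_kappa M κ γ hκ
  obtain ⟨ω0, hω0⟩ : ∃ ω0 : ℝ, ω0 = Real.exp (w0 / 2) := ⟨_, rfl⟩
  obtain ⟨ω1, hω1⟩ : ∃ ω1 : ℝ, ω1 = Real.exp (w1 / 2) := ⟨_, rfl⟩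
  have hω0' : 0 < ω0 := by rw [hω0]; exact Real.exp_pos _
  have hω1' : 0 < ω1 := by rw [hω1]; exact Real.exp_pos _
  have hωω : ω0 < ω1 := by
    rw [hω0, hω1]
    apply Real.exp_lt_exp.2
    linarith
  obtain ⟨ρ0, hρ0⟩ : ∃ ρ0 : ℝ, ρ0 = (ω0 - c) / n := ⟨_, rfl⟩
  obtain ⟨ρ1, hρ1⟩ : ∃ ρ1 : ℝ, ρ1 = (ω1 - c) / n := ⟨_, rfl⟩
  have hρ0p : 0 < ρ0 := by rw [hρ0]; exact div_pos (by linarith only [hω0', hc0']) hn0
  have hρρ : ρ0 < ρ1 := by
    rw [hρ0, hρ1]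
    exact div_lt_div_of_pos_right (by linarith only [hωω]) hn0
  have hρ1p : 0 < ρ1 := hρ0p.trans hρρ
  have e0 : n * ρ0 = ω0 - c := by rw [hρ0, mul_div_cancel₀ _ hn0.ne']
  have e1 : n * ρ1 = ω1 - c := by rw [hρ1, mul_div_cancel₀ _ hn0.ne']
  have hH0 : 0 < (n : ℝ) + c / ρ0 := by rw [ea_f hρ0p e0]; exact div_pos hω0' hρ0p
  have hH1 : 0 < (n : ℝ) + c / ρ1 := by rw [ea_f hρ1p e1]; exact div_pos hω1' hρ1p
  have hexp1 : Real.exp ((w1 - w0) / 2) = ω1 / ω0 := by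
    rw [hω0, hω1, ← Real.exp_sub, sub_div]
  have hexp2 : Real.exp (-((w1 - w0) / 2)) = ω0 / ω1 := by
    rw [hω0, hω1, ← Real.exp_sub, ← sub_div, ← neg_div, neg_sub]
  rw [hexp1, hexp2]
  -- values at `η = 0`
  have g1 := ea_g1 hκ0 hn0 hω0' hρ0p hρ1p e0 e1
  have g2 := ea_g2 hκ0 hn0 hω1' hρ0p hρ1p e0 e1
  -- choice of `η`
  have hup := ea_hup (κ := κ) hρ0p hρ1p hH0 (lt_add_of_pos_right _ (half_pos hε))
  have hlow := ea_hlow (κ := κ) (n := (n : ℝ)) (c := (c : ℝ)) hρ0p hρ1p (sub_lt_self _ (half_pos hε))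
  have hpos := ea_hpos hρ0p hH0
  have hsmall : ∀ᶠ η : ℝ in nhds 0, η < ρ0 := gt_mem_nhds hρ0p
  have hsmall2 : ∀ᶠ η : ℝ in nhds 0, η < (ρ1 - ρ0) / 2 := gt_mem_nhds (by linarith only [hρρ])
  obtain ⟨η, ⟨⟨⟨⟨q1, q2⟩, q3⟩, q4⟩, q5⟩, q6⟩ := ((((hup.and hlow).and hpos).and hsmall).and
    hsmall2).filter_mono nhdsWithin_le_nhds |>.and (self_mem_nhdsWithin (s := Set.Ioi (0:ℝ)))
    |>.exists
  have hη : 0 < η := q6
  have hη1 : η < ρ1 := by linarith only [q4, hρρ]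
  -- limits
  have l1 := ea_scale M κ γ hκ ((sml (ρ1 / η)).ncard : ℝ) _ q3 (2 * Real.log (ρ0 - η))
    (2 * Real.log (ρ1 + η)) (mul_le_mul_of_nonneg_left (Real.log_le_log
      (by linarith only [q4]) (by linarith only [hρρ, hη])) zero_le_two)
  have l2 := ea_scale M κ γ hκ (-((sml (ρ1 / η)).ncard : ℝ)) _ hH1 (2 * Real.log (ρ0 + η))
    (2 * Real.log (ρ1 - η)) (mul_le_mul_of_nonneg_left (Real.log_le_log
      (by linarith only [hρ0p, hη]) (by linarith only [q5])) zero_le_two)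
  have m1 := l1.eventually (gt_mem_nhds (q1.trans_le (add_le_add_left g1 (ε / 2))))
  have m2 := l2.eventually (lt_mem_nhds (lt_of_le_of_lt (sub_le_sub_right g2 (ε / 2)) q2))
  filter_upwards [m1, m2, eventually_gt_atTop 0] with x hx1 hx2 hx
  constructor
  · have h1 := Set.ncard_le_ncard (ea_sub_up n hn c hc0 M γ w0 w1 ρ0 ρ1 η x
      (by rw [← hω0]; exact e0) (by rw [← hω1]; exact e1) hρ1p hη q4 q3)
      ((sml_finite _).union (NE_finite _ _ _ _ _))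
    have h2 : ((ENs n c M γ w0 w1 x).ncard : ℝ) ≤ (sml (ρ1 / η)).ncard +
        (NE M γ (2 * Real.log (ρ0 - η)) (2 * Real.log (ρ1 + η)) (x / (n + c / (ρ0 - η)))).ncard := by
      exact_mod_cast h1.trans (Set.ncard_union_le _ _)
    have h3 := div_le_div_of_nonneg_right h2 hx.le
    linarith only [h3, hx1, hε]
  · have h1 := Set.ncard_le_ncard (ea_sub_low n hn c hc0 M γ w0 w1 ρ0 ρ1 η x
      (by rw [← hω0]; exact e0) (by rw [← hω1]; exact e1) hρ0p hη hη1 hH1)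
      ((sml_finite _).union (ENs_finite n hn _ _ _ _ _ _))
    have h2 : ((NE M γ (2 * Real.log (ρ0 + η)) (2 * Real.log (ρ1 - η)) (x / (n + c / ρ1))).ncard : ℝ)
        ≤ (sml (ρ1 / η)).ncard + (ENs n c M γ w0 w1 x).ncard := by
      exact_mod_cast h1.trans (Set.ncard_union_le _ _)
    have h2' : -((sml (ρ1 / η)).ncard : ℝ) +
        (NE M γ (2 * Real.log (ρ0 + η)) (2 * Real.log (ρ1 - η)) (x / (n + c / ρ1))).ncard ≤
        (ENs n c M γ w0 w1 x).ncard := by linarith only [h2]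
    have h3 := div_le_div_of_nonneg_right h2' hx.le
    linarith only [h3, hx2, hε]

/-- a set is the disjoint union of slices -/
theorem ea_split (n : ℕ) (hn : 0 < n) (c : ℤ) (M : ℕ) (γ : G × G) (w : ℕ → ℝ) (hw : Monotone w)
    (x : ℝ) (K : ℕ) : (ENs n c M γ (w 0) (w K) x).ncard =
      ∑ i ∈ range K, (ENs n c M γ (w i) (w (i + 1)) x).ncard := by
  induction K with
  | zero =>
    have : ENs n c M γ (w 0) (w 0) x = ∅ := by
      apply Set.eq_empty_of_forall_notMem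
      rintro e ⟨-, -, -, -, -, h6, h7⟩
      exact absurd h6 (not_le.2 h7)
    rw [this]
    simp
  | succ K ih =>
    rw [Finset.sum_range_succ, ← ih]
    have h1 : ENs n c M γ (w 0) (w (K + 1)) x = ENs n c M γ (w 0) (w K) x ∪
        ENs n c M γ (w K) (w (K + 1)) x := by
      ext e
      constructor
      · rintro ⟨h1, h2, h3, h4, h5, h6, h7⟩
        by_cases h : (nm ((c : G) * e.1 + (n : G) * e.2) : ℝ) < Real.exp (w K) * (nm e.1 : ℝ)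
        · left
          exact ⟨h1, h2, h3, h4, h5, h6, h⟩
        · right
          exact ⟨h1, h2, h3, h4, h5, not_lt.1 h, h7⟩
      · have k1 : Real.exp (w 0) * (nm e.1 : ℝ) ≤ Real.exp (w K) * (nm e.1 : ℝ) :=
          mul_le_mul_of_nonneg_right (Real.exp_le_exp.2 (hw (Nat.zero_le _))) (Nat.cast_nonneg _)
        have k2 : Real.exp (w K) * (nm e.1 : ℝ) ≤ Real.exp (w (K + 1)) * (nm e.1 : ℝ) :=
          mul_le_mul_of_nonneg_right (Real.exp_le_exp.2 (hw (Nat.le_succ _))) (Nat.cast_nonneg _)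
        rintro (⟨h1, h2, h3, h4, h5, h6, h7⟩ | ⟨h1, h2, h3, h4, h5, h6, h7⟩)
        · exact ⟨h1, h2, h3, h4, h5, h6, h7.trans_le k2⟩
        · exact ⟨h1, h2, h3, h4, h5, k1.trans h6, h7⟩
    have h2 : Disjoint (ENs n c M γ (w 0) (w K) x) (ENs n c M γ (w K) (w (K + 1)) x) := by
      rw [Set.disjoint_left]
      rintro e ⟨-, -, -, -, -, -, h7⟩ ⟨-, -, -, -, -, h6, -⟩
      exact absurd h6 (not_le.2 h7)
    rw [h1, Set.ncard_union_eq h2 (ENs_finite n hn _ _ _ _ _ _) (ENs_finite n hn _ _ _ _ _ _)]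

theorem ea_fin1 {K A e y ε δ N T : ℝ} (h5 : K * (A * (1 - e) - δ) ≤ N)
    (h7 : K * (A * (y - y ^ 2)) ≤ K * (A * (1 - e))) (hKy : K * (A * y) = T)
    (hKy2 : K * (A * y ^ 2) ≤ ε / 2) (hKe : K * δ = ε / 4) (hε : 0 < ε) : -ε < N - T := by
  linarith only [h5, h7, hKy, hKy2, hKe, hε]

theorem ea_fin2 {K A e y ε δ N T : ℝ} (h4 : N ≤ K * (A * (e - 1) + δ))
    (h6 : K * (A * (e - 1)) ≤ K * (A * (y + y ^ 2))) (hKy : K * (A * y) = T)
    (hKy2 : K * (A * y ^ 2) ≤ ε / 2) (hKe : K * δ = ε / 4) (hε : 0 < ε) : N - T < ε := by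
  linarith only [h4, h6, hKy, hKy2, hKe, hε]

theorem ea_hexp1 {y : ℝ} (hy0 : 0 < y) (hy1 : y ≤ 1) : Real.exp y - 1 ≤ y + y ^ 2 := by
  have h := (abs_le.1 (Real.abs_exp_sub_one_sub_id_le (x := y)
    (by rw [abs_of_pos hy0]; exact hy1))).2
  linarith only [h]

theorem ea_hexp2 {y : ℝ} (hy0 : 0 < y) (hy1 : y ≤ 1) : y - y ^ 2 ≤ 1 - Real.exp (-y) := by
  have h := (abs_le.1 (Real.abs_exp_sub_one_sub_id_le (x := -y)
    (by rw [abs_neg, abs_of_pos hy0]; exact hy1))).2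
  rw [neg_sq] at h
  linarith only [h]

theorem ea_Ky {K κ L n y : ℝ} (hK : 0 < K) (hn : 0 < n) (hy : y = L / K / 2) :
    K * (κ * (2 / n) * y) = κ * L / n := by
  rw [hy]
  field_simp

theorem ea_Ky2 {K κ L n y ε : ℝ} (hK : 0 < K) (hn : 0 < n) (hε : 0 < ε) (hy : y = L / K / 2)
    (hK2 : κ * L ^ 2 / (n * ε) < K) : K * (κ * (2 / n) * y ^ 2) ≤ ε / 2 := by
  have e : K * (κ * (2 / n) * y ^ 2) = κ * L ^ 2 / n / (2 * K) := by
    rw [hy]
    field_simp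
  rw [e, div_le_iff₀ (mul_pos two_pos hK), div_le_iff₀ hn]
  rw [div_lt_iff₀ (mul_pos hn hε)] at hK2
  linarith only [hK2]

/-- PROOF. For such `e` put `v = nm e.1`, `D = dot e.1 e.2`, `V' = c e.1 + n e.2`, `m = dot e.1 V' = c v + n D`. As `m > 0` and `c ≤ 0`, `D > 0`.
`dot_sq_add_det_sq`: `nm e.2 * v = D^2 + 1`, `nm V' * v = m^2 + n^2` (`det e.1 V' = n`). Let `r = log (nm e.2 / v)`, so `v = sqrt (D^2+1) exp (-r/2)` and
`m = n D + c sqrt (D^2+1) exp (-r/2)`; for large `D`: `m = D (n + c exp (-r/2)) (1 + o(1))`, and the condition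
`exp s * v^2 ≤ m^2 + n^2 < exp t * v^2` says `2 log (c + n exp (r/2)) ∈ [s, t)` up to `o(1)`, i.e. `r ∈ [R1, R2)` up to `o(1)`,
`R1 = 2 log ((exp (s/2) - c)/n)`, `R2 = 2 log ((exp (t/2) - c)/n)` (`- c ≥ 0`). In this range `n + c exp (-r/2) = exp (-r/2) (n exp (r/2) + c)` is positive and
nondecreasing in `r`. Cut `[R1, R2)` into `K` equal slices `[r_i, r_(i+1))`. In a slice (and `D ≥ D0`) the condition `m ≤ x` follows from
`D ≤ x / ((n + c exp (-r_(i+1)/2)) (1 + η))` and implies `D ≤ x / ((n + c exp (-r_i/2)) (1 - η))`; `hκ` counts the edges of a slice with `D ≤ Y`: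
`~ κ (r_(i+1) - r_i) Y`. Edges with `D < D0` and `r` in a bounded interval are finitely many. The two boundary slices (around `R1`, `R2`, of width `η`)
contribute `≤ C η x`. So the limit is `κ ∫_(R1)^(R2) dr / (n + c exp (-r/2)) = κ [(2/n) log (n exp (r/2) + c)]_(R1)^(R2) = κ (t - s) / n`
(derivative of `(2/n) log (n exp (r/2) + c)` is `exp (r/2)/(n exp (r/2) + c)`). `κ ≥ 0` as a limit of nonnegative numbers. -/
theorem eqnA (n : ℕ) (hn : 0 < n) (c : ℤ) (hc : -(n : ℤ) < c) (hc0 : c ≤ 0) (M : ℕ) (hM : 0 < M) (κ : ℝ)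
    (hκ : ∀ γ : G × G, (M : ℤ) ∣ det γ.1 γ.2 - 1 → ∀ s t : ℝ, s ≤ t →
      Tendsto (fun x : ℝ => ((NE M γ s t x).ncard : ℝ) / x) atTop (nhds (κ * (t - s))))
    (γ : G × G) (hγ : (M : ℤ) ∣ det γ.1 γ.2 - 1) (s t : ℝ) (hst : s ≤ t) :
    Tendsto (fun x : ℝ => ({e : G × G | det e.1 e.2 = 1 ∧ cg M e.1 γ.1 ∧ cg M e.2 γ.2 ∧
        0 < dot e.1 ((c : G) * e.1 + (n : G) * e.2) ∧
        ((dot e.1 ((c : G) * e.1 + (n : G) * e.2) : ℤ) : ℝ) ≤ x ∧
        Real.exp s * (nm e.1 : ℝ) ≤ (nm ((c : G) * e.1 + (n : G) * e.2) : ℝ) ∧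
        (nm ((c : G) * e.1 + (n : G) * e.2) : ℝ) < Real.exp t * (nm e.1 : ℝ)}.ncard : ℝ) / x) atTop
      (nhds (κ * (t - s) / n)) := by
  show Tendsto (fun x : ℝ => ((ENs n c M γ s t x).ncard : ℝ) / x) atTop (nhds (κ * (t - s) / n))
  have hn0 : (0 : ℝ) < n := by exact_mod_cast hn
  have hκ' := hκ γ hγ
  have hκ0 := ea_kappa M κ γ hκ'
  rcases eq_or_lt_of_le hst with h | hst
  · have h0 : ∀ x, ENs n c M γ s t x = ∅ := by
      intro x
      apply Set.eq_empty_of_forall_notMem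
      rintro e ⟨-, -, -, -, -, h6, h7⟩
      rw [h] at h6
      exact absurd h6 (not_le.2 h7)
    subst h
    simp [h0]
  rw [Metric.tendsto_atTop']
  intro ε hε
  obtain ⟨L, hL⟩ : ∃ L : ℝ, L = t - s := ⟨_, rfl⟩
  have hL0 : 0 < L := by rw [hL]; exact sub_pos.2 hst
  -- number of slices
  obtain ⟨K, hK⟩ := exists_nat_gt (max L (κ * L ^ 2 / (n * ε)))
  have hK1 : L < K := (le_max_left _ _).trans_lt hK
  have hK2 : κ * L ^ 2 / (n * ε) < K := (le_max_right _ _).trans_lt hK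
  have hK0 : (0 : ℝ) < K := hL0.trans hK1
  obtain ⟨y, hy⟩ : ∃ y : ℝ, y = L / K / 2 := ⟨_, rfl⟩
  have hy0 : 0 < y := by rw [hy]; exact half_pos (div_pos hL0 hK0)
  have hy1 : y ≤ 1 := by
    have : L / K < 1 := by rw [div_lt_one hK0]; exact hK1
    rw [hy]
    linarith only [this]
  have hexp1 := ea_hexp1 hy0 hy1
  have hexp2 := ea_hexp2 hy0 hy1
  obtain ⟨w, hw⟩ : ∃ w : ℕ → ℝ, w = fun i : ℕ => s + i * (L / K) := ⟨_, rfl⟩
  have hwm : Monotone w := by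
    intro i j hij
    rw [hw]
    exact add_le_add_right (mul_le_mul_of_nonneg_right (Nat.cast_le.2 hij)
      (div_pos hL0 hK0).le) s
  have hw0 : w 0 = s := by rw [hw]; simp
  have hwK : w K = t := by
    rw [hw]
    simp only
    rw [mul_div_cancel₀ _ hK0.ne', hL]
    exact add_sub_cancel _ _
  have hwd : ∀ i, (w (i + 1) - w i) / 2 = y := fun i => by
    rw [hw, hy]
    simp only [Nat.cast_add, Nat.cast_one]
    ring
  have hwd' : ∀ i, w i < w (i + 1) := fun i => by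
    have := hwd i
    linarith only [this, hy0]
  have hεK : 0 < ε / (4 * K) := div_pos hε (mul_pos four_pos hK0)
  have hev : ∀ᶠ x : ℝ in atTop, ∀ i ∈ range K, ((ENs n c M γ (w i) (w (i + 1)) x).ncard : ℝ) / x ≤
        κ * (2 / n) * (Real.exp y - 1) + ε / (4 * K) ∧
      κ * (2 / n) * (1 - Real.exp (-y)) - ε / (4 * K) ≤
        ((ENs n c M γ (w i) (w (i + 1)) x).ncard : ℝ) / x := by
    rw [Filter.eventually_all_finset]
    intro i _
    have := ea_slice n hn c hc0 M κ γ hκ' (w i) (w (i + 1)) (hwd' i) (ε / (4 * K)) hεK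
    rw [hwd i] at this
    exact this
  obtain ⟨X0, hX0⟩ := (hev.and (eventually_gt_atTop (0:ℝ))).exists_forall_of_atTop
  refine ⟨X0, fun x hx => ?_⟩
  obtain ⟨h1, hx0⟩ := hX0 x (le_of_lt hx)
  have h2 := ea_split n hn c M γ w hwm x K
  rw [hw0, hwK] at h2
  have h3 : ((ENs n c M γ s t x).ncard : ℝ) / x =
      ∑ i ∈ range K, ((ENs n c M γ (w i) (w (i + 1)) x).ncard : ℝ) / x := by
    rw [h2]
    push_cast
    rw [Finset.sum_div]
  have h4 : ((ENs n c M γ s t x).ncard : ℝ) / x ≤ K * (κ * (2 / n) * (Real.exp y - 1) + ε / (4 * K)) := by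
    rw [h3]
    calc _ ≤ ∑ i ∈ range K, (κ * (2 / n) * (Real.exp y - 1) + ε / (4 * K)) :=
          Finset.sum_le_sum fun i hi => (h1 i hi).1
      _ = _ := by rw [Finset.sum_const, Finset.card_range, nsmul_eq_mul]
  have h5 : K * (κ * (2 / n) * (1 - Real.exp (-y)) - ε / (4 * K)) ≤ ((ENs n c M γ s t x).ncard : ℝ) / x := by
    rw [h3]
    calc _ = ∑ i ∈ range K, (κ * (2 / n) * (1 - Real.exp (-y)) - ε / (4 * K)) := by
          rw [Finset.sum_const, Finset.card_range, nsmul_eq_mul]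
      _ ≤ _ := Finset.sum_le_sum fun i hi => (h1 i hi).2
  -- main terms
  have hKy := ea_Ky (κ := κ) hK0 hn0 hy
  have hKy2 := ea_Ky2 hK0 hn0 hε hy hK2
  have hKe : K * (ε / (4 * K)) = ε / 4 := by
    rw [mul_div_assoc', mul_comm (4 : ℝ), mul_div_mul_left _ _ hK0.ne']
  have hA : 0 ≤ κ * (2 / n) := mul_nonneg hκ0 (div_pos two_pos hn0).le
  have h6 : K * (κ * (2 / n) * (Real.exp y - 1)) ≤ K * (κ * (2 / n) * (y + y ^ 2)) :=
    mul_le_mul_of_nonneg_left (mul_le_mul_of_nonneg_left hexp1 hA) hK0.le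
  have h7 : K * (κ * (2 / n) * (y - y ^ 2)) ≤ K * (κ * (2 / n) * (1 - Real.exp (-y))) :=
    mul_le_mul_of_nonneg_left (mul_le_mul_of_nonneg_left hexp2 hA) hK0.le
  rw [Real.dist_eq, abs_lt, ← hL]
  exact ⟨ea_fin1 h5 h7 hKy hKy2 hKe hε, ea_fin2 h4 h6 hKy hKy2 hKe hε⟩

end Pool.Agent.OmEq

end

/-! ### from `Lib_MP_92ef0c_la.Ent` -/

section

/-!
# The four entries
-/

set_option autoImplicit false

namespace Pool.Agent.SplL

open Pool.Agent.Spl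

/-- the entries -/
def ent (i : Fin 4) (e : Q4) : ℕ := (![e.a, e.b, e.c, e.d] : Fin 4 → ℕ) i

end Pool.Agent.SplL

end
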