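import Pool.Agent.Lib_MP_92ef0c_m.M03
import Pool.Agent.Lib_MP_92ef0c_m.M09
import Pool.Agent.Lib_MP_92ef0c_m.M25
import Pool.Agent.Lib_MP_92ef0c_m.M26

/-!
# MP_92ef0c_nt, split pairs: merged library part M27

Concatenation of smaller files (each in its own section), only to save build time.
-/

/-! ### from `Lib_MP_f1a94e_eq.EqnB` -/

section

/-!
# Piece EQNB: counting pairs of determinant `n`
-/

set_option autoImplicit false

namespace Pool.Agent.OmEq

open Finset Pool.Agent.GaussMR Pool.Agent.OmAll Filter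

namespace EqnB

/-- the pair of determinant `n` from an edge -/
def psi (n : ℕ) (c : ℤ) (e : G × G) : G × G := (e.1, (c : G) * e.1 + (n : G) * e.2)

theorem psi_re (n : ℕ) (c : ℤ) (e : G × G) : (psi n c e).2.re = c * e.1.re + n * e.2.re := by
  simp [psi]

theorem psi_im (n : ℕ) (c : ℤ) (e : G × G) : (psi n c e).2.im = c * e.1.im + n * e.2.im := by
  simp [psi]

theorem psi_inj (n : ℕ) (hn : 0 < n) (c : ℤ) : Function.Injective (psi n c) := by
  intro e f h
  have h1 : e.1 = f.1 := by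
    have h0 : (psi n c e).1 = (psi n c f).1 := by rw [h]
    exact h0
  have h2 := psi_re n c e
  have h3 := psi_im n c e
  rw [h, psi_re, ← h1] at h2
  rw [h, psi_im, ← h1] at h3
  have hn' : (n : ℤ) ≠ 0 := by exact_mod_cast hn.ne'
  have h4 : f.2.re = e.2.re := mul_left_cancel₀ hn' (by linarith)
  have h5 : f.2.im = e.2.im := mul_left_cancel₀ hn' (by linarith)
  exact Prod.ext h1 (Zsqrtd.ext h4.symm h5.symm)

theorem det_psi (n : ℕ) (c : ℤ) (e : G × G) : det e.1 (psi n c e).2 = n * det e.1 e.2 := by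
  unfold det
  rw [psi_re, psi_im]
  ring

/-- the edges for the residue `c` -/
def SS (n : ℕ) (c : ℤ) (P : G × G → Prop) (s t x : ℝ) : Set (G × G) :=
  {e | det e.1 e.2 = 1 ∧ 0 < dot e.1 (psi n c e).2 ∧ ((dot e.1 (psi n c e).2 : ℤ) : ℝ) ≤ x ∧
    Real.exp s * (nm e.1 : ℝ) ≤ (nm (psi n c e).2 : ℝ) ∧
    (nm (psi n c e).2 : ℝ) < Real.exp t * (nm e.1 : ℝ) ∧ P (psi n c e)}

/-- the residues -/
noncomputable def CC (n : ℕ) : Finset ℤ := by
  classical
  exact (Finset.Ioc (-(n : ℤ)) 0).filter (fun c => IsCoprime c (n : ℤ))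

theorem mem_CC {n : ℕ} {c : ℤ} : c ∈ CC n ↔ (-(n : ℤ) < c ∧ c ≤ 0) ∧ IsCoprime c (n : ℤ) := by
  classical
  unfold CC
  rw [mem_filter, mem_Ioc]

open Classical in
/-- the residue of a pair -/
noncomputable def fc (n : ℕ) (e : G × G) : ℤ :=
  if h : ∃ c : ℤ, c ∈ CC n ∧ cg n e.2 ((c : G) * e.1) then h.choose else 0

theorem cg_iff (n : ℕ) (c : ℤ) (e : G × G) : cg n e.2 ((c : G) * e.1) ↔
    (n : ℤ) ∣ e.2.re - c * e.1.re ∧ (n : ℤ) ∣ e.2.im - c * e.1.im := by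
  unfold cg
  simp

theorem uniq {n : ℕ} {e : G × G} (hp : Prim e.1) {c c' : ℤ} (hc : c ∈ CC n) (hc' : c' ∈ CC n)
    (h : cg n e.2 ((c : G) * e.1)) (h' : cg n e.2 ((c' : G) * e.1)) : c = c' := by
  rw [cg_iff] at h h'
  rw [mem_CC] at hc hc'
  have h1 : (n : ℤ) ∣ (c - c') * e.1.re := by
    have := dvd_sub h'.1 h.1
    have e1 : e.2.re - c' * e.1.re - (e.2.re - c * e.1.re) = (c - c') * e.1.re := by ring
    rwa [e1] at this
  have h2 : (n : ℤ) ∣ (c - c') * e.1.im := by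
    have := dvd_sub h'.2 h.2
    have e1 : e.2.im - c' * e.1.im - (e.2.im - c * e.1.im) = (c - c') * e.1.im := by ring
    rwa [e1] at this
  obtain ⟨a, b, hab⟩ := hp
  have h3 : (n : ℤ) ∣ c - c' := by
    have h4 := dvd_add (Dvd.dvd.mul_left h1 a) (Dvd.dvd.mul_left h2 b)
    have e1 : a * ((c - c') * e.1.re) + b * ((c - c') * e.1.im) = c - c' := by
      calc _ = (c - c') * (a * e.1.re + b * e.1.im) := by ring
        _ = _ := by rw [hab, mul_one]
    rwa [e1] at h4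
  obtain ⟨k, hk⟩ := h3
  have h5 : -(n : ℤ) < c - c' := by omega
  have h6 : c - c' < n := by omega
  rw [hk] at h5 h6
  have hn : (0 : ℤ) < n := by omega
  have h7 : k < 1 := by
    by_contra hh
    push Not at hh
    nlinarith
  have h8 : -1 < k := by
    by_contra hh
    push Not at hh
    nlinarith
  have h9 : k = 0 := by omega
  rw [h9, mul_zero] at hk
  linarith

theorem exi {n : ℕ} (hn : 0 < n) {e : G × G} (c : ℤ) (hc : IsCoprime c (n : ℤ))
    (h : cg n e.2 ((c : G) * e.1)) : ∃ c : ℤ, c ∈ CC n ∧ cg n e.2 ((c : G) * e.1) := by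
  have hn' : (0 : ℤ) < n := by exact_mod_cast hn
  rw [cg_iff] at h
  refine ⟨-((-c) % n), ?_, ?_⟩
  · rw [mem_CC]
    have h1 := Int.emod_nonneg (-c) hn'.ne'
    have h2 := Int.emod_lt_of_pos (-c) hn'
    refine ⟨⟨by omega, by omega⟩, ?_⟩
    have h3 : -((-c) % (n : ℤ)) = c + n * ((-c) / n) := by
      have := Int.emod_add_mul_ediv (-c) n
      linarith
    rw [h3]
    exact hc.add_mul_left_left _
  · rw [cg_iff]
    have h3 : -((-c) % (n : ℤ)) = c + n * ((-c) / n) := by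
      have := Int.emod_add_mul_ediv (-c) n
      linarith
    rw [h3]
    constructor
    · have e1 : e.2.re - (c + n * ((-c) / n)) * e.1.re = (e.2.re - c * e.1.re) - n * ((-c) / n * e.1.re) := by ring
      rw [e1]
      exact dvd_sub h.1 (Dvd.intro _ rfl)
    · have e1 : e.2.im - (c + n * ((-c) / n)) * e.1.im = (e.2.im - c * e.1.im) - n * ((-c) / n * e.1.im) := by ring
      rw [e1]
      exact dvd_sub h.2 (Dvd.intro _ rfl)

theorem fc_spec {n : ℕ} (hn : 0 < n) {e : G × G} (he : En n e) :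
    fc n e ∈ CC n ∧ cg n e.2 ((fc n e : G) * e.1) := by
  classical
  obtain ⟨-, -, -, c, hc, h⟩ := he
  have h1 := exi hn c hc h
  unfold fc
  rw [dif_pos h1]
  exact h1.choose_spec

theorem nm_pos1 {u v : G} (h : det u v = 1) : 0 < nm u := by
  apply nm_pos
  rintro rfl
  simp [det] at h

theorem nm_posn {n : ℕ} (hn : 0 < n) {u v : G} (h : det u v = n) : 0 < nm u ∧ 0 < nm v := by
  have hn' : (n : ℤ) ≠ 0 := by exact_mod_cast hn.ne'
  constructor
  · apply nm_pos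
    rintro rfl
    apply hn'
    rw [← h]
    simp [det]
  · apply nm_pos
    rintro rfl
    apply hn'
    rw [← h]
    simp [det]

theorem tE_le {e : G × G} (h1 : 0 < nm e.1) (h2 : 0 < nm e.2) (s : ℝ) :
    s ≤ tE e ↔ Real.exp s * (nm e.1 : ℝ) ≤ nm e.2 := by
  have h1' : (0 : ℝ) < nm e.1 := by exact_mod_cast h1
  have h2' : (0 : ℝ) < nm e.2 := by exact_mod_cast h2
  unfold tE
  rw [← Real.exp_le_exp, Real.exp_sub, Real.exp_log h1', Real.exp_log h2', le_div_iff₀ h1']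

theorem tE_lt {e : G × G} (h1 : 0 < nm e.1) (h2 : 0 < nm e.2) (t : ℝ) :
    tE e < t ↔ (nm e.2 : ℝ) < Real.exp t * (nm e.1 : ℝ) := by
  rw [← not_le, tE_le h1 h2, not_le]

open Classical in
theorem fiber {n : ℕ} (hn : 0 < n) (P : G × G → Prop) (s t x : ℝ) {c : ℤ} (hc : c ∈ CC n) :
    (((((EN n x).filter (fun e => P e ∧ s ≤ tE e ∧ tE e < t)).filter (fun e => fc n e = c)) :
      Finset (G × G)) : Set (G × G)) = psi n c '' SS n c P s t x := by
  have hn' : (0 : ℤ) < n := by exact_mod_cast hn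
  ext e
  simp only [coe_filter, Set.mem_setOf_eq, Set.mem_image, mem_filter, mem_EN hn]
  constructor
  · rintro ⟨⟨⟨h1, h2⟩, h3, h4, h5⟩, h6⟩
    have h7 := (fc_spec hn h1).2
    rw [h6, cg_iff] at h7
    obtain ⟨⟨a, ha⟩, ⟨b, hb⟩⟩ := h7
    have h8 : psi n c (e.1, ⟨a, b⟩) = e := by
      apply Prod.ext
      · rfl
      · apply Zsqrtd.ext
        · rw [psi_re]
          show c * e.1.re + n * a = _
          linarith
        · rw [psi_im]
          show c * e.1.im + n * b = _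
          linarith
    obtain ⟨h9, h10⟩ := nm_posn hn h1.1
    refine ⟨(e.1, ⟨a, b⟩), ?_, h8⟩
    unfold SS
    rw [Set.mem_setOf_eq, h8]
    refine ⟨?_, h1.2.1, h2, (tE_le h9 h10 s).1 h4, (tE_lt h9 h10 t).1 h5, h3⟩
    have h11 := det_psi n c (e.1, ⟨a, b⟩)
    rw [h8] at h11
    have h12 : det e.1 e.2 = n := h1.1
    have h13 : (n : ℤ) * det e.1 ⟨a, b⟩ = n * 1 := by
      rw [mul_one]
      exact h11.symm.trans h12
    exact mul_left_cancel₀ hn'.ne' h13
  · rintro ⟨f, ⟨h1, h2, h3, h4, h5, h6⟩, rfl⟩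
    have h7 : det f.1 (psi n c f).2 = n := by rw [det_psi, h1, mul_one]
    have h7' : det (psi n c f).1 (psi n c f).2 = n := h7
    obtain ⟨h9, h10⟩ := nm_posn hn h7'
    have hP : Prim f.1 := ⟨f.2.im, -f.2.re, by
      unfold det at h1
      linarith⟩
    have hcg : cg n (psi n c f).2 ((c : G) * (psi n c f).1) := by
      rw [cg_iff, psi_re, psi_im]
      refine ⟨⟨f.2.re, ?_⟩, ⟨f.2.im, ?_⟩⟩
      · show c * f.1.re + n * f.2.re - c * f.1.re = _
        ring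
      · show c * f.1.im + n * f.2.im - c * f.1.im = _
        ring
    have hE : En n (psi n c f) := ⟨h7, h2, hP, c, (mem_CC.1 hc).2, hcg⟩
    refine ⟨⟨⟨hE, h3⟩, h6, (tE_le (e := psi n c f) h9 h10 s).2 h4,
      (tE_lt (e := psi n c f) h9 h10 t).2 h5⟩, ?_⟩
    obtain ⟨h11, h12⟩ := fc_spec hn hE
    have hP' : Prim (psi n c f).1 := hP
    exact uniq hP' h11 hc h12 hcg

open Classical in
theorem SS_fin {n : ℕ} (hn : 0 < n) (P : G × G → Prop) (s t x : ℝ) {c : ℤ} (hc : c ∈ CC n) :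
    (SS n c P s t x).Finite := by
  apply Set.Finite.of_finite_image (f := psi n c)
  · rw [← fiber hn P s t x hc]
    exact Finset.finite_toSet _
  · exact (psi_inj n hn c).injOn

open Classical in
theorem card_eq {n : ℕ} (hn : 0 < n) (P : G × G → Prop) (s t x : ℝ) :
    ((EN n x).filter (fun e => P e ∧ s ≤ tE e ∧ tE e < t)).card =
      ∑ c ∈ CC n, (SS n c P s t x).ncard := by
  rw [Finset.card_eq_sum_card_fiberwise (f := fc n) (t := CC n)]
  · refine Finset.sum_congr rfl fun c hc => ?_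
    rw [← Set.ncard_coe_finset, fiber hn P s t x hc]
    exact Set.ncard_image_of_injective _ (psi_inj n hn c)
  · intro e he
    rw [Finset.mem_coe, mem_filter, mem_EN hn] at he
    exact (fc_spec hn he.1.1).1

/-- the predicate on edges -/
def QQ (n : ℕ) (c : ℤ) (P : G × G → Prop) (e : G × G) : Prop := P (psi n c e)

theorem QQ_per {M n : ℕ} {c : ℤ} {P : G × G → Prop} (hP : Per M P) : Per M (QQ n c P) := by
  intro e f h1 h2
  unfold QQ
  apply hP
  · exact h1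
  · obtain ⟨a1, a2⟩ := h1
    obtain ⟨b1, b2⟩ := h2
    constructor
    · rw [psi_re, psi_re]
      have e1 : c * e.1.re + n * e.2.re - (c * f.1.re + n * f.2.re) =
        c * (e.1.re - f.1.re) + n * (e.2.re - f.2.re) := by ring
      rw [e1]
      exact dvd_add (Dvd.dvd.mul_left a1 _) (Dvd.dvd.mul_left b1 _)
    · rw [psi_im, psi_im]
      have e1 : c * e.1.im + n * e.2.im - (c * f.1.im + n * f.2.im) =
        c * (e.1.im - f.1.im) + n * (e.2.im - f.2.im) := by ring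
      rw [e1]
      exact dvd_add (Dvd.dvd.mul_left a2 _) (Dvd.dvd.mul_left b2 _)

/-- the set of `eqnA` -/
def EE (n M : ℕ) (c : ℤ) (γ : G × G) (s t x : ℝ) : Set (G × G) :=
  {e : G × G | det e.1 e.2 = 1 ∧ cg M e.1 γ.1 ∧ cg M e.2 γ.2 ∧
        0 < dot e.1 ((c : G) * e.1 + (n : G) * e.2) ∧
        ((dot e.1 ((c : G) * e.1 + (n : G) * e.2) : ℤ) : ℝ) ≤ x ∧
        Real.exp s * (nm e.1 : ℝ) ≤ (nm ((c : G) * e.1 + (n : G) * e.2) : ℝ) ∧
        (nm ((c : G) * e.1 + (n : G) * e.2) : ℝ) < Real.exp t * (nm e.1 : ℝ)}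

open Classical in
theorem SS_card {n : ℕ} (hn : 0 < n) {M : ℕ} (hM : 0 < M) (P : G × G → Prop) (hP : Per M P) (s t x : ℝ)
    {c : ℤ} (hc : c ∈ CC n) :
    (SS n c P s t x).ncard = ∑ γ ∈ (cls M).filter (QQ n c P), (EE n M c γ s t x).ncard := by
  have hfin := SS_fin hn P s t x hc
  rw [Set.ncard_eq_toFinset_card _ hfin]
  rw [Finset.card_eq_sum_card_fiberwise (f := DCount.rep M) (t := (cls M).filter (QQ n c P))]
  · refine Finset.sum_congr rfl fun γ hγ => ?_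
    rw [Finset.mem_filter] at hγ
    rw [← Set.ncard_coe_finset]
    congr 1
    ext e
    simp only [Finset.coe_filter, Set.Finite.mem_toFinset, Set.mem_setOf_eq]
    constructor
    · rintro ⟨⟨h1, h2, h3, h4, h5, h6⟩, h8⟩
      obtain ⟨h9, h10⟩ := DCount.cg_rep M e
      rw [h8] at h9 h10
      exact ⟨h1, h9, h10, h2, h3, h4, h5⟩
    · rintro ⟨h1, h6, h7, h2, h3, h4, h5⟩
      refine ⟨⟨h1, h2, h3, h4, h5, ?_⟩, DCount.rep_unique M e γ hγ.1 h6 h7⟩
      exact (QQ_per hP e γ h6 h7).mpr hγ.2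
  · intro e he
    rw [Finset.mem_coe, Set.Finite.mem_toFinset] at he
    rw [Finset.mem_coe, Finset.mem_filter]
    obtain ⟨h9, h10⟩ := DCount.cg_rep M e
    exact ⟨DCount.rep_mem M hM e he.1, (QQ_per hP e _ h9 h10).mp he.2.2.2.2.2⟩

/-- the shear -/
def sh (M : ℕ) (k : ℤ) (e : G × G) : G × G := (e.1, rd M ((k : G) * e.1 + e.2))

theorem rd_cls {M : ℕ} (hM : 0 < M) {e : G × G} (he : e ∈ cls M) (v : G) (hv : (M : ℤ) ∣ det e.1 v - 1) :
    (e.1, rd M v) ∈ cls M := by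
  have hM' : (0 : ℤ) < M := by exact_mod_cast hM
  rw [mem_cls] at he ⊢
  refine ⟨he.1, he.2.1, ⟨Int.emod_nonneg _ hM'.ne', Int.emod_lt_of_pos _ hM'⟩,
    ⟨Int.emod_nonneg _ hM'.ne', Int.emod_lt_of_pos _ hM'⟩, ?_⟩
  have h1 : (M : ℤ) ∣ det e.1 (rd M v) - det e.1 v :=
    det_cg ⟨by simp, by simp⟩ (rd_cg M v)
  have h2 := dvd_add h1 hv
  have e1 : det e.1 (rd M v) - det e.1 v + (det e.1 v - 1) = det e.1 (rd M v) - 1 := by ring
  rwa [e1] at h2

theorem sh_mem {M : ℕ} (hM : 0 < M) (k : ℤ) {e : G × G} (he : e ∈ cls M) : sh M k e ∈ cls M := by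
  apply rd_cls hM he
  have h1 : det e.1 ((k : G) * e.1 + e.2) = det e.1 e.2 := by
    unfold det
    simp
    ring
  rw [h1]
  exact (mem_cls.1 he).2.2.2.2

theorem sh_sh {M : ℕ} (k : ℤ) {e : G × G} (he : e ∈ cls M) : sh M (-k) (sh M k e) = e := by
  rw [mem_cls] at he
  obtain ⟨-, -, ⟨c1, c2⟩, ⟨d1, d2⟩, -⟩ := he
  apply Prod.ext
  · rfl
  · apply Zsqrtd.ext
    · show (((-k : ℤ) : G) * e.1 + rd M ((k : G) * e.1 + e.2)).re % M = _
      have h1 : (((-k : ℤ) : G) * e.1 + rd M ((k : G) * e.1 + e.2)).re =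
          -(k * e.1.re) + (k * e.1.re + e.2.re) % M := by
        simp [rd]
      rw [h1, Int.add_emod_emod]
      have h2 : -(k * e.1.re) + (k * e.1.re + e.2.re) = e.2.re := by ring
      rw [h2]
      exact Int.emod_eq_of_lt c1 c2
    · show (((-k : ℤ) : G) * e.1 + rd M ((k : G) * e.1 + e.2)).im % M = _
      have h1 : (((-k : ℤ) : G) * e.1 + rd M ((k : G) * e.1 + e.2)).im =
          -(k * e.1.im) + (k * e.1.im + e.2.im) % M := by
        simp [rd]
      rw [h1, Int.add_emod_emod]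
      have h2 : -(k * e.1.im) + (k * e.1.im + e.2.im) = e.2.im := by ring
      rw [h2]
      exact Int.emod_eq_of_lt d1 d2

open Classical in
theorem shear_card {n M : ℕ} (hM : 0 < M) (hMn : M.Coprime n) (P : G × G → Prop) (hP : Per M P) (c : ℤ) :
    ((cls M).filter (QQ n c P)).card = ((cls M).filter (fun e => P (e.1, (n : G) * e.2))).card := by
  obtain ⟨a, b, hab⟩ : IsCoprime (n : ℤ) (M : ℤ) := Nat.isCoprime_iff_coprime.2 hMn.symm
  have key : ∀ e : G × G, QQ n c P e ↔ P (e.1, (n : G) * (sh M (c * a) e).2) := by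
    intro e
    unfold QQ
    apply hP
    · exact ⟨by simp [psi], by simp [psi]⟩
    · constructor
      · rw [psi_re]
        have h1 : ((n : G) * (sh M (c * a) e).2).re = n * ((c * a * e.1.re + e.2.re) % M) := by
          simp [sh, rd]
        rw [show ((e.1, (n : G) * (sh M (c * a) e).2) : G × G).2 = (n : G) * (sh M (c * a) e).2 from rfl, h1]
        have h2 := Int.emod_add_mul_ediv (c * a * e.1.re + e.2.re) M
        refine ⟨c * b * e.1.re + n * ((c * a * e.1.re + e.2.re) / M), ?_⟩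
        have h3 : (c * a * e.1.re + e.2.re) % M =
          (c * a * e.1.re + e.2.re) - M * ((c * a * e.1.re + e.2.re) / M) := by linarith
        rw [h3]
        linear_combination (-(c * e.1.re)) * hab
      · rw [psi_im]
        have h1 : ((n : G) * (sh M (c * a) e).2).im = n * ((c * a * e.1.im + e.2.im) % M) := by
          simp [sh, rd]
        rw [show ((e.1, (n : G) * (sh M (c * a) e).2) : G × G).2 = (n : G) * (sh M (c * a) e).2 from rfl, h1]
        have h2 := Int.emod_add_mul_ediv (c * a * e.1.im + e.2.im) M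
        refine ⟨c * b * e.1.im + n * ((c * a * e.1.im + e.2.im) / M), ?_⟩
        have h3 : (c * a * e.1.im + e.2.im) % M =
          (c * a * e.1.im + e.2.im) - M * ((c * a * e.1.im + e.2.im) / M) := by linarith
        rw [h3]
        linear_combination (-(c * e.1.im)) * hab
  apply Finset.card_nbij' (sh M (c * a)) (sh M (-(c * a)))
  · intro e he
    rw [Finset.mem_coe, mem_filter] at he
    rw [Finset.mem_coe, mem_filter]
    exact ⟨sh_mem hM _ he.1, (key e).1 he.2⟩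
  · intro e he
    rw [Finset.mem_coe, mem_filter] at he
    rw [Finset.mem_coe, mem_filter]
    refine ⟨sh_mem hM _ he.1, (key _).2 ?_⟩
    have h1 := sh_sh (-(c * a)) he.1
    rw [neg_neg] at h1
    rw [h1]
    exact he.2
  · intro e he
    rw [Finset.mem_coe, mem_filter] at he
    exact sh_sh _ he.1
  · intro e he
    rw [Finset.mem_coe, mem_filter] at he
    have h1 := sh_sh (-(c * a)) he.1
    rwa [neg_neg] at h1

end EqnB

open EqnB in
open Classical in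
/-- PROOF. For `e ∈ En n` there is exactly one `c` with `-n < c ≤ 0`, `IsCoprime c n`, `cg n e.2 (c * e.1)` (existence: reduce `c` modulo `n`;
uniqueness: `(c - c') * e.1 = 0` mod `n` and `e.1` primitive). Put `u = (e.2 - c e.1)/n`, so `det e.1 u = 1` and `e.2 = c e.1 + n u`. This is a
bijection from `{e ∈ EN n x, s ≤ tE e < t, P e}` to the disjoint union over these `φ(n)` values of `c` of
`{(V, u) : det V u = 1, 0 < dot V V' ≤ x, exp s * nm V ≤ nm V' < exp t * nm V, P (V, V')}`, `V' = c V + n u` (`Prim V` follows from `det V u = 1`; `det V V' = n`;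
`s ≤ tE` iff `exp s * nm V ≤ nm V'` as both norms are positive). Split by the class `γ` of `(V, u)` in `cls M` (`DCount.rep`, `rep_mem`, `rep_unique`): `P (V, V')` depends only on
`γ`. `eqnA` (with `κ_M` from `equid M`) gives the limit `κ_M (t - s)/n * #{γ ∈ cls M : P (γ.1, c γ.1 + n γ.2)}`. For fixed `c` choose `n'` with `n n' = 1` mod `M`;
`γ ↦ (γ.1, c n' γ.1 + γ.2)` (reduced) is a bijection of `cls M`, and `P (γ.1, c γ.1 + n γ.2) ↔ P (γ.1, n (c n' γ.1 + γ.2))`. So the number is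
`#((cls M).filter (fun e => P (e.1, n e.2)))` for every `c`. Finally `κ_M * #cls M = κ_1` (see the proof of `dcount`: `DCount.count_lim` with the predicate `True`).
So `κ = κ_1 φ(n) / n`, `κ ≥ 0`. -/
theorem eqnB (n : ℕ) (hn : 0 < n) : ∃ κ : ℝ, 0 ≤ κ ∧ ∀ M : ℕ, 0 < M → M.Coprime n → ∀ P : G × G → Prop, Per M P →
    ∀ s t : ℝ, s ≤ t →
    Tendsto (fun x : ℝ => (((EN n x).filter (fun e => P e ∧ s ≤ tE e ∧ tE e < t)).card : ℝ) / x) atTop
      (nhds (κ * ((((cls M).filter (fun e => P (e.1, (n : G) * e.2))).card : ℝ) / (cls M).card) * (t - s))) := by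
  obtain ⟨κ₁, hκ₁⟩ := equid 1 one_pos
  have h0 : ((1 : ℕ) : ℤ) ∣ det (0 : G × G).1 (0 : G × G).2 - 1 := by simp
  have hnn : 0 ≤ κ₁ := by
    have h1 := hκ₁ 0 h0 0 1 zero_le_one
    rw [sub_zero, mul_one] at h1
    apply ge_of_tendsto h1
    filter_upwards [eventually_ge_atTop (0 : ℝ)] with x hx
    positivity
  have hn' : (0 : ℝ) < n := by exact_mod_cast hn
  refine ⟨κ₁ * (CC n).card / n, by positivity, fun M hM hMn P hP s t hst => ?_⟩
  obtain ⟨κ, hκ⟩ := equid M hM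
  have hall := DCount.count_lim _ hM (fun _ => True) (fun _ _ _ _ => Iff.rfl) κ hκ 0 1 zero_le_one
  have hkap : κ₁ = ((cls M).card : ℝ) * κ := by
    have h1 := hκ₁ 0 h0 0 1 zero_le_one
    simp only [and_true, Set.setOf_mem_eq, Finset.filter_true] at hall
    have h2 := tendsto_nhds_unique h1 hall
    linarith
  have hcl : ((cls M).card : ℝ) ≠ 0 := by
    have h1 : (cls M).Nonempty := ⟨_, DCount.rep_mem M hM ((⟨1, 0⟩, ⟨0, 1⟩) : G × G) (by simp [det])⟩
    exact_mod_cast h1.card_pos.ne'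
  have hlim : ∀ c ∈ CC n, Tendsto (fun x : ℝ => ((SS n c P s t x).ncard : ℝ) / x) atTop
      (nhds (((cls M).filter (fun e => P (e.1, (n : G) * e.2))).card * (κ * (t - s) / n))) := by
    intro c hc
    rw [← shear_card hM hMn P hP c]
    have h1 : (fun x : ℝ => ((SS n c P s t x).ncard : ℝ) / x) =
        fun x : ℝ => ∑ γ ∈ (cls M).filter (QQ n c P), ((EE n M c γ s t x).ncard : ℝ) / x := by
      funext x
      rw [SS_card hn hM P hP s t x hc]
      push_cast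
      rw [Finset.sum_div]
    rw [h1, ← nsmul_eq_mul, ← Finset.sum_const]
    apply tendsto_finsetSum
    intro γ hγ
    rw [Finset.mem_filter, mem_cls] at hγ
    have hc' := mem_CC.1 hc
    exact eqnA n hn c hc'.1.1 hc'.1.2 M hM κ hκ γ hγ.1.2.2.2.2 s t hst
  have h2 : (fun x : ℝ => (((EN n x).filter (fun e => P e ∧ s ≤ tE e ∧ tE e < t)).card : ℝ) / x) =
      fun x : ℝ => ∑ c ∈ CC n, ((SS n c P s t x).ncard : ℝ) / x := by
    funext x
    rw [card_eq hn P s t x]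
    push_cast
    rw [Finset.sum_div]
  have h3 := tendsto_finsetSum (CC n) hlim
  rw [← h2] at h3
  convert h3 using 2
  rw [Finset.sum_const, nsmul_eq_mul, hkap]
  field_simp

end Pool.Agent.OmEq

end

/-! ### from `Lib_MP_f1a94e_eq.Rect` -/

section

/-!
# Piece RECT: base pairs with given movable primes
-/

set_option autoImplicit false

namespace Pool.Agent.OmEq

open Finset Pool.Agent.GaussMR Pool.Agent.OmAll Filter

theorem rect_cls_pos (M : ℕ) (hM : 0 < M) : (0 : ℝ) < (cls M).card := by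
  have h : (rd M (1 : G), rd M (⟨0, 1⟩ : G)) ∈ cls M := by
    apply rd_mem_cls (N := M) (e := ((1 : G), (⟨0, 1⟩ : G))) hM (dvd_refl M)
    have h1 : det (1 : G) (⟨0, 1⟩ : G) - 1 = 0 := by
      unfold det
      simp
    show (M : ℤ) ∣ det (1 : G) (⟨0, 1⟩ : G) - 1
    rw [h1]
    exact dvd_zero _
  have h2 : 0 < (cls M).card := card_pos.2 ⟨_, h⟩
  exact_mod_cast h2

open Classical in
/-- PROOF. `eqnB` with `M = ∏_(p ∈ PE E T) p ^ 2` (coprime to `n` since `n.primeFactors ⊆ E`; positive), `P e = bs E T e ∧ ds E T e = D` (`ds_per`), and `locD`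
(`p ∈ PE E T` does not divide `n`); `cls M` is nonempty (contains the class of `(1, i)`), so the quotient is `Pr E T D`. The same `κ` for all `E, T, D`. -/
theorem rect (n : ℕ) (hn : 0 < n) : ∃ κ : ℝ, 0 ≤ κ ∧ ∀ E : Finset ℕ, n.primeFactors ⊆ E → ∀ (T : ℕ) (D : Finset ℕ),
    D ⊆ PE E T → ∀ s t : ℝ, s ≤ t →
    Tendsto (fun x : ℝ => (((EN n x).filter
      (fun e => (bs E T e ∧ ds E T e = D) ∧ s ≤ tE e ∧ tE e < t)).card : ℝ) / x) atTop
      (nhds (κ * Pr E T D * (t - s))) := by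
  obtain ⟨κ, hκ, h⟩ := eqnB n hn
  refine ⟨κ, hκ, ?_⟩
  intro E hE T D hD s t hst
  have hn0 : ∀ p ∈ PE E T, ¬ p ∣ n := by
    intro p hp hd
    obtain ⟨_, h2, _, h4⟩ := mem_PE.1 hp
    exact h4 (hE (Nat.mem_primeFactors.2 ⟨h2, hd, hn.ne'⟩))
  have hM : 0 < ∏ p ∈ PE E T, p ^ 2 :=
    prod_pos (fun p hp => pow_pos (mem_PE.1 hp).2.1.pos 2)
  have hco : (∏ p ∈ PE E T, p ^ 2).Coprime n := by
    apply Nat.Coprime.prod_left
    intro p hp
    apply Nat.Coprime.pow_left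
    exact (Nat.Prime.coprime_iff_not_dvd (mem_PE.1 hp).2.1).2 (hn0 p hp)
  have h1 := h _ hM hco (fun e => bs E T e ∧ ds E T e = D) (ds_per E T D) s t hst
  have h2 := locD E T D hD n hn0
  have h3 := rect_cls_pos _ hM
  have h4 : (((cls (∏ p ∈ PE E T, p ^ 2)).filter
      (fun e => bs E T (e.1, (n : G) * e.2) ∧ ds E T (e.1, (n : G) * e.2) = D)).card : ℝ) /
      (cls (∏ p ∈ PE E T, p ^ 2)).card = Pr E T D := by
    rw [h2, mul_div_assoc, div_self h3.ne', mul_one]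
  have h5 : ∀ (f g : ℝ → ℝ) (a b : ℝ), a = b → (∀ x, f x = g x) → Tendsto f atTop (nhds a) →
      Tendsto g atTop (nhds b) := by
    rintro f g a b rfl hfg hf
    exact hf.congr hfg
  refine h5 _ _ _ _ ?_ ?_ h1
  · rw [← h4]
    congr
  · intro x
    congr

end Pool.Agent.OmEq

end

/-! ### from `Lib_MP_f1a94e_eq.TR` -/

section

/-!
# Piece TR: limits of sums over base pairs
-/

set_option autoImplicit false

namespace Pool.Agent.OmEq

open Finset Pool.Agent.GaussMR Pool.Agent.OmAll Filter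

theorem tr_Ap_nonneg (p : ℕ) : 0 ≤ Ap p := by
  unfold Ap
  positivity

theorem tr_Ap_le {p : ℕ} (hp : 1 ≤ p) : 0 ≤ 1 - 2 * Ap p := by
  have h1 : (1 : ℝ) ≤ p := by exact_mod_cast hp
  unfold Ap
  rw [sub_nonneg, ← mul_div_assoc, div_le_one (by positivity)]
  nlinarith [mul_nonneg (sub_nonneg.2 h1) (sub_nonneg.2 h1),
    mul_nonneg (mul_nonneg (sub_nonneg.2 h1) (sub_nonneg.2 h1)) (sub_nonneg.2 h1)]

theorem tr_Pr_nonneg (E : Finset ℕ) (T : ℕ) (D : Finset ℕ) : 0 ≤ Pr E T D := by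
  unfold Pr
  refine mul_nonneg (prod_nonneg fun p _ => tr_Ap_nonneg p) (prod_nonneg fun p hp => ?_)
  exact tr_Ap_le (mem_PE.1 (mem_sdiff.1 hp).1).2.1.one_lt.le

open Classical in
/-- PROOF. The base pairs are split by `D = ds E T e ⊆ PE E T`: the sum is `∑_(D ∈ (PE E T).powerset)` of the sum over
`S_D (b X) = (EN n (b X)).filter (bs E T e ∧ ds E T e = D)` of `Ψ D (mE e / X) (tE e)`; apply `riem2` (`A e = En n e ∧ bs E T e ∧ ds E T e = D`, `mem_EN`, `mE_pos`) with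
`c = κ * Pr E T D` (`rect`; `0 ≤ Pr`: `0 ≤ Ap p ≤ 1/2` for `p ≥ 5`, `Ap p = 2 (p-1)^2/(p^2 (p+1))`) and add up. -/
theorem tr (n : ℕ) (hn : 0 < n) : ∃ κ : ℝ, 0 ≤ κ ∧ ∀ E : Finset ℕ, n.primeFactors ⊆ E → ∀ (T : ℕ)
    (Ψ : Finset ℕ → ℝ → ℝ → ℝ), (∀ D, Continuous (Function.uncurry (Ψ D))) →
    (∀ D, HasCompactSupport (Function.uncurry (Ψ D))) → (∀ D y u, y ≤ 0 → Ψ D y u = 0) →
    ∀ b : ℝ, (∀ D y u, b ≤ y → Ψ D y u = 0) →
    Tendsto (fun X : ℝ => (∑ e ∈ (EN n (b * X)).filter (bs E T), Ψ (ds E T e) (mE e / X) (tE e)) / X) atTop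
      (nhds (κ * ∑ D ∈ (PE E T).powerset, Pr E T D * ∫ y, ∫ u, Ψ D y u)) := by
  obtain ⟨κ, hκ0, hrect⟩ := rect n hn
  refine ⟨κ, hκ0, ?_⟩
  intro E hE T Ψ hcont hcs hneg b hb
  have key : ∀ D ∈ (PE E T).powerset, Tendsto (fun X : ℝ =>
      (∑ e ∈ (EN n (b * X)).filter (fun e => bs E T e ∧ ds E T e = D),
        Ψ D (mE e / X) (tE e)) / X) atTop
      (nhds (κ * Pr E T D * ∫ y, ∫ u, Ψ D y u)) := by
    intro D hD
    refine riem2 (fun e => En n e ∧ (bs E T e ∧ ds E T e = D))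
      (fun x => (EN n x).filter (fun e => bs E T e ∧ ds E T e = D)) mE tE ?_ ?_
      (κ * Pr E T D) (mul_nonneg hκ0 (tr_Pr_nonneg E T D)) ?_ (Ψ D) (hcont D) (hcs D) (hneg D) b
      (hb D)
    · intro x e
      rw [mem_filter, mem_EN hn]
      tauto
    · intro e he
      exact mE_pos he.1
    · intro s u hsu
      refine (hrect E hE T D (mem_powerset.1 hD) s u hsu).congr fun x => ?_
      rw [filter_filter]
  have hsum := tendsto_finsetSum _ key
  have e1 : ∑ D ∈ (PE E T).powerset, κ * Pr E T D * ∫ y, ∫ u, Ψ D y u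
      = κ * ∑ D ∈ (PE E T).powerset, Pr E T D * ∫ y, ∫ u, Ψ D y u := by
    rw [mul_sum]
    exact sum_congr rfl fun D _ => by rw [mul_assoc]
  rw [e1] at hsum
  refine hsum.congr fun X => ?_
  rw [← sum_div]
  congr 1
  rw [← sum_fiberwise_of_maps_to (s := (EN n (b * X)).filter (bs E T)) (t := (PE E T).powerset)
    (g := ds E T) (fun e _ => mem_powerset.2 (by unfold ds; exact filter_subset _ _))]
  refine sum_congr rfl fun D _ => ?_
  rw [filter_filter]
  refine sum_congr rfl fun e he => ?_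
  rw [(mem_filter.1 he).2.2]

end Pool.Agent.OmEq

end

/-! ### from `Lib_MP_92ef0c_sp.CntA3` -/

section

/-!
# Counting pairs of coprime pairs with close directions
-/

set_option autoImplicit false

namespace Pool.Agent.Spl

open Finset Pool.Agent.GaussMR Pool.Agent.OmAll Pool.Agent.OmEq MeasureTheory Filter

/-- the solutions of `a d - b c = m` -/
theorem cnt3_row (a b : ℕ) (ha : 0 < a) (hab : a.Coprime b) (C D : ℝ) (hC : 0 ≤ C) (m : ℤ) :
    (((PB C D).filter (fun z => (a : ℤ) * z.2 - b * z.1 = m)).card : ℝ) ≤ C / a + 1 := by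
  classical
  set S := (PB C D).filter (fun z => (a : ℤ) * z.2 - b * z.1 = m) with hS
  have hmap : ∀ z ∈ S, z.1 / a ∈ range (⌊C⌋₊ / a + 1) := by
    intro z hz
    rw [hS, mem_filter, mem_PB] at hz
    rw [mem_range, Nat.lt_succ_iff]
    exact Nat.div_le_div_right (Nat.le_floor hz.1.1.2)
  have hinj : Set.InjOn (fun z : ℕ × ℕ => z.1 / a) (S : Set (ℕ × ℕ)) := by
    intro z hz w hw hzw
    rw [mem_coe, hS, mem_filter] at hz hw
    have h1 : (a : ℤ) * z.2 - b * z.1 = a * w.2 - b * w.1 := by rw [hz.2, hw.2]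
    have h2 : (a : ℤ) ∣ (b : ℤ) * ((z.1 : ℤ) - w.1) := ⟨(z.2 : ℤ) - w.2, by linarith⟩
    have h3 : (a : ℤ) ∣ (z.1 : ℤ) - w.1 := by
      refine IsCoprime.dvd_of_dvd_mul_left ?_ h2
      exact Nat.isCoprime_iff_coprime.2 hab
    have h4 : z.1 ≡ w.1 [MOD a] := ((Nat.modEq_iff_dvd).2 h3).symm
    have h5 : z.1 = w.1 := by
      have h6 : z.1 / a = w.1 / a := hzw
      have h7 : z.1 % a = w.1 % a := h4
      rw [← Nat.div_add_mod z.1 a, ← Nat.div_add_mod w.1 a, h6, h7]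
    have h8 : z.2 = w.2 := by
      rw [h5] at h1
      have h9 : (a : ℤ) * z.2 = a * w.2 := by linarith
      have h10 : (a : ℤ) ≠ 0 := by exact_mod_cast ha.ne'
      have h11 := mul_left_cancel₀ h10 h9
      exact_mod_cast h11
    exact Prod.ext h5 h8
  have hcard : S.card ≤ ⌊C⌋₊ / a + 1 := by
    have := card_le_card_of_injOn (fun z : ℕ × ℕ => z.1 / a) hmap hinj
    rwa [card_range] at this
  have h1 : (S.card : ℝ) ≤ ((⌊C⌋₊ / a : ℕ) : ℝ) + 1 := by exact_mod_cast hcard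
  have h2 : ((⌊C⌋₊ / a : ℕ) : ℝ) ≤ (⌊C⌋₊ : ℝ) / a := Nat.cast_div_le
  have h3 : (⌊C⌋₊ : ℝ) / a ≤ C / a := by
    have := Nat.floor_le hC
    gcongr
  linarith

/-- the solutions of `|a d - b c| ≤ M` -/
theorem cnt3_row2 (a b : ℕ) (ha : 0 < a) (hab : a.Coprime b) (C D : ℝ) (hC : 0 ≤ C) (M : ℝ) (hM : 0 ≤ M) :
    (((PB C D).filter (fun z => |(a : ℝ) * z.2 - b * z.1| ≤ M)).card : ℝ) ≤ (2 * M + 1) * (C / a + 1) := by
  classical
  set S := (PB C D).filter (fun z => |(a : ℝ) * z.2 - b * z.1| ≤ M) with hS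
  set I : Finset ℤ := Icc (-(⌊M⌋₊ : ℤ)) ⌊M⌋₊ with hI
  have hmap : ∀ z ∈ S, (a : ℤ) * z.2 - b * z.1 ∈ I := by
    intro z hz
    rw [hS, mem_filter] at hz
    have h1 : |(a : ℤ) * z.2 - b * z.1| ≤ (⌊M⌋₊ : ℤ) := by
      have h2 : ((|(a : ℤ) * z.2 - b * z.1|).toNat : ℝ) ≤ M := by
        have h3 : (((|(a : ℤ) * z.2 - b * z.1|).toNat : ℤ) : ℝ) = |(a : ℝ) * z.2 - b * z.1| := by
          rw [Int.toNat_of_nonneg (abs_nonneg _)]
          push_cast
          rfl
        have h4 : ((|(a : ℤ) * z.2 - b * z.1|).toNat : ℝ) = (((|(a : ℤ) * z.2 - b * z.1|).toNat : ℤ) : ℝ) := by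
          push_cast
          rfl
        rw [h4, h3]
        exact hz.2
      have h5 := Nat.le_floor h2
      omega
    rw [hI, mem_Icc]
    exact abs_le.1 h1
  have hfib := card_eq_sum_card_fiberwise (f := fun z : ℕ × ℕ => (a : ℤ) * z.2 - b * z.1) (s := S) (t := I) hmap
  have hIc : (I.card : ℝ) ≤ 2 * M + 1 := by
    rw [hI, Int.card_Icc]
    have h1 : ((⌊M⌋₊ : ℤ) + 1 - -(⌊M⌋₊ : ℤ)).toNat = 2 * ⌊M⌋₊ + 1 := by omega
    rw [h1]
    push_cast
    have := Nat.floor_le hM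
    linarith
  have hpos : 0 ≤ C / a + 1 := by positivity
  calc (S.card : ℝ) = ∑ m ∈ I, ((S.filter (fun z : ℕ × ℕ => (a : ℤ) * z.2 - b * z.1 = m)).card : ℝ) := by
        rw [hfib]
        push_cast
        rfl
    _ ≤ ∑ m ∈ I, (C / a + 1) := by
        refine sum_le_sum fun m _ => ?_
        refine le_trans ?_ (cnt3_row a b ha hab C D hC m)
        exact_mod_cast card_le_card (filter_subset_filter _ (filter_subset _ _))
    _ = I.card * (C / a + 1) := by rw [sum_const, nsmul_eq_mul]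
    _ ≤ (2 * M + 1) * (C / a + 1) := mul_le_mul_of_nonneg_right hIc hpos

/-- close directions imply small determinants -/
theorem cnt3_det (a b c d : ℕ) (ha : 0 < a) (hb : 0 < b) (hc : 0 < c) (hd : 0 < d) (δ : ℝ) (hδ : δ ≤ 1)
    (h : |dirn (c, d) - dirn (a, b)| ≤ δ) : |(a : ℝ) * d - b * c| ≤ 2 * (b * c) * δ := by
  have ha' : (0 : ℝ) < a := by exact_mod_cast ha
  have hb' : (0 : ℝ) < b := by exact_mod_cast hb
  have hc' : (0 : ℝ) < c := by exact_mod_cast hc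
  have hd' : (0 : ℝ) < d := by exact_mod_cast hd
  set t : ℝ := dirn (c, d) - dirn (a, b) with ht
  have e1 : (a : ℝ) * d = b * c * Real.exp t := by
    have e2 : t = Real.log (a * d) - Real.log (b * c) := by
      rw [ht, Real.log_mul ha'.ne' hd'.ne', Real.log_mul hb'.ne' hc'.ne']
      unfold dirn
      simp only
      ring
    rw [e2, Real.exp_sub, Real.exp_log (by positivity), Real.exp_log (by positivity)]
    field_simp
  have h1 : |Real.exp t - 1| ≤ 2 * |t| := Real.abs_exp_sub_one_le (h.trans hδ)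
  have e3 : (a : ℝ) * d - b * c = b * c * (Real.exp t - 1) := by
    rw [e1]
    ring
  rw [e3, abs_mul, abs_of_pos (by positivity : (0 : ℝ) < b * c)]
  calc (b : ℝ) * c * |Real.exp t - 1| ≤ b * c * (2 * |t|) := mul_le_mul_of_nonneg_left h1 (by positivity)
    _ ≤ b * c * (2 * δ) := by gcongr
    _ = 2 * (b * c) * δ := by ring

open Classical in
/-- the count for first rows in `t` -/
theorem cnt3_main (C0 K B : ℝ) (hC0 : 0 < C0) (hK : 0 < K) (hB : 0 < B) (N : ℕ) (Y : ℝ) (hY : 0 < Y)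
    (hYN : B * N / Y ≤ 1) (t : Finset (ℕ × ℕ)) (ht : t ⊆ PB (C0 * Real.sqrt Y) (K * Real.sqrt Y))
    (E : Finset ((ℕ × ℕ) × (ℕ × ℕ)))
    (hE : ∀ e ∈ E, e.1 ∈ t ∧ e.2 ∈ PB (C0 * Real.sqrt Y) (K * Real.sqrt Y) ∧ |dirn e.2 - dirn e.1| ≤ B * N / Y) :
    (E.card : ℝ) ≤ ∑ z ∈ t, (2 * (2 * K * C0 * B * N) + 1) * (C0 * Real.sqrt Y / z.1 + 1) := by
  have hsq : 0 < Real.sqrt Y := Real.sqrt_pos.2 hY
  have hfib := card_eq_sum_card_fiberwise (f := fun e : (ℕ × ℕ) × (ℕ × ℕ) => e.1) (s := E) (t := t)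
    (fun e he => (hE e he).1)
  rw [hfib]
  push_cast
  refine sum_le_sum fun z hz => ?_
  have hz' := mem_PB.1 (ht hz)
  refine le_trans ?_ (cnt3_row2 z.1 z.2 hz'.1.1 hz'.2.2 (C0 * Real.sqrt Y) (K * Real.sqrt Y) (by positivity)
    (2 * K * C0 * B * N) (by positivity))
  have hc : (E.filter (fun e => e.1 = z)).card ≤
      ((PB (C0 * Real.sqrt Y) (K * Real.sqrt Y)).filter
        (fun w => |(z.1 : ℝ) * w.2 - z.2 * w.1| ≤ 2 * K * C0 * B * N)).card := by
    refine card_le_card_of_injOn (fun e => e.2) ?_ ?_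
    · intro e he
      rw [mem_coe, mem_filter] at he
      obtain ⟨he1, rfl⟩ := he
      obtain ⟨-, h2, h3⟩ := hE e he1
      rw [mem_coe, mem_filter]
      refine ⟨h2, ?_⟩
      have h2' := mem_PB.1 h2
      have h4 := cnt3_det e.1.1 e.1.2 e.2.1 e.2.2 hz'.1.1 hz'.2.1.1 h2'.1.1 h2'.2.1.1 (B * N / Y) hYN h3
      refine h4.trans ?_
      have h5 : (e.1.2 : ℝ) * e.2.1 ≤ K * Real.sqrt Y * (C0 * Real.sqrt Y) :=
        mul_le_mul hz'.2.1.2 h2'.1.2 (Nat.cast_nonneg _) (by positivity)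
      calc 2 * ((e.1.2 : ℝ) * e.2.1) * (B * N / Y) ≤ 2 * (K * Real.sqrt Y * (C0 * Real.sqrt Y)) * (B * N / Y) := by
            gcongr
        _ = 2 * K * C0 * B * N * ((Real.sqrt Y * Real.sqrt Y) / Y) := by ring
        _ = 2 * K * C0 * B * N := by
            rw [Real.mul_self_sqrt hY.le, div_self hY.ne', mul_one]
    · intro e he e' he' hee
      rw [mem_coe, mem_filter] at he he'
      exact Prod.ext (he.2.trans he'.2.symm) hee
  exact_mod_cast hc

theorem cnt3_PB (C D : ℝ) (hC : 0 ≤ C) (hD : 0 ≤ D) : ((PB C D).card : ℝ) ≤ C * D := by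
  have h1 : (PB C D).card ≤ ⌊C⌋₊ * ⌊D⌋₊ := by
    unfold PB
    refine (card_filter_le _ _).trans ?_
    rw [card_product, Nat.card_Icc, Nat.card_Icc]
    simp
  calc ((PB C D).card : ℝ) ≤ (⌊C⌋₊ * ⌊D⌋₊ : ℕ) := by exact_mod_cast h1
    _ = (⌊C⌋₊ : ℝ) * ⌊D⌋₊ := by push_cast; rfl
    _ ≤ C * D := mul_le_mul (Nat.floor_le hC) (Nat.floor_le hD) (Nat.cast_nonneg _) hC

theorem cnt3_ev (B : ℝ) (N : ℕ) : ∀ᶠ Y : ℝ in atTop, B * N / Y ≤ 1 := by
  filter_upwards [eventually_ge_atTop (max 1 (B * N))] with Y hY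
  have h1 : 1 ≤ Y := (le_max_left _ _).trans hY
  have h2 : B * N ≤ Y := (le_max_right _ _).trans hY
  rw [div_le_one (by linarith)]
  exact h2

open Classical in
/-- PROOF. Let `V = (a, b)`, `V' = (c, d)`, `Δ = dirn V' - dirn V = log (a d) - log (b c)`. `a d - b c = b c (exp Δ - 1)`, so for `|Δ| ≤ B N/Y ≤ 1`: `|a d - b c| ≤ 2 b c |Δ| ≤ 2 K C0 B N =: M`. For given `V` (at most `C0 K Y` possibilities) and an integer `m`, `|m| ≤ M`, the solutions of `a d - b c = m` have `c` in one residue class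
modulo `a` (`(a, b) = 1`) and `1 ≤ c ≤ C0 sqrt Y`: at most `C0 sqrt Y / a + 1 ≤ C0/c0 + 1`, and `d` is determined. -/
theorem cntA3 (c0 C0 K B : ℝ) (hc0 : 0 < c0) (hC0 : c0 ≤ C0) (hK : 0 < K) (hB : 0 < B) : ∃ C : ℝ, 0 < C ∧ ∀ N : ℕ, 1 ≤ N →
    ∀ᶠ Y : ℝ in atTop, (((PB (C0 * Real.sqrt Y) (K * Real.sqrt Y) ×ˢ PB (C0 * Real.sqrt Y) (K * Real.sqrt Y)).filter
      (fun e : (ℕ × ℕ) × (ℕ × ℕ) => c0 * Real.sqrt Y ≤ e.1.1 ∧ c0 * Real.sqrt Y ≤ e.2.1 ∧
        |dirn e.2 - dirn e.1| ≤ B * N / Y)).card : ℝ) ≤ C * N * Y := by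
  have hC0' : 0 < C0 := by linarith
  refine ⟨(4 * K * C0 * B + 1) * (C0 / c0 + 1) * (C0 * K), by positivity, ?_⟩
  intro N hN
  filter_upwards [cnt3_ev B N, eventually_ge_atTop 1] with Y hY1 hY
  have hY0 : 0 < Y := by linarith
  have hsq : 0 < Real.sqrt Y := Real.sqrt_pos.2 hY0
  have hN' : (1 : ℝ) ≤ N := by exact_mod_cast hN
  set t := (PB (C0 * Real.sqrt Y) (K * Real.sqrt Y)).filter (fun z => c0 * Real.sqrt Y ≤ z.1) with ht
  refine (cnt3_main C0 K B hC0' hK hB N Y hY0 hY1 t (filter_subset _ _) _ ?_).trans ?_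
  · intro e he
    rw [mem_filter, mem_product] at he
    exact ⟨mem_filter.2 ⟨he.1.1, he.2.1⟩, he.1.2, he.2.2.2⟩
  · have h1 : ∀ z ∈ t, (2 * (2 * K * C0 * B * N) + 1) * (C0 * Real.sqrt Y / z.1 + 1) ≤
        ((4 * K * C0 * B + 1) * N) * (C0 / c0 + 1) := by
      intro z hz
      rw [ht, mem_filter] at hz
      have h2 : C0 * Real.sqrt Y / z.1 ≤ C0 / c0 := by
        rw [div_le_div_iff₀ (lt_of_lt_of_le (by positivity) hz.2) hc0]
        calc C0 * Real.sqrt Y * c0 = C0 * (c0 * Real.sqrt Y) := by ring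
          _ ≤ C0 * z.1 := mul_le_mul_of_nonneg_left hz.2 hC0'.le
      have h3 : 2 * (2 * K * C0 * B * N) + 1 ≤ (4 * K * C0 * B + 1) * N := by
        have : (4 * K * C0 * B + 1) * (N : ℝ) = 2 * (2 * K * C0 * B * N) + N := by ring
        rw [this]
        linarith
      exact mul_le_mul h3 (by linarith) (by positivity) (by positivity)
    refine (sum_le_sum h1).trans ?_
    rw [sum_const, nsmul_eq_mul]
    have h4 : (t.card : ℝ) ≤ C0 * Real.sqrt Y * (K * Real.sqrt Y) := by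
      refine le_trans ?_ (cnt3_PB _ _ (by positivity) (by positivity))
      exact_mod_cast card_filter_le _ _
    calc (t.card : ℝ) * ((4 * K * C0 * B + 1) * N * (C0 / c0 + 1))
        ≤ (C0 * Real.sqrt Y * (K * Real.sqrt Y)) * ((4 * K * C0 * B + 1) * N * (C0 / c0 + 1)) :=
          mul_le_mul_of_nonneg_right h4 (by positivity)
      _ = (4 * K * C0 * B + 1) * (C0 / c0 + 1) * (C0 * K) * N * (Real.sqrt Y * Real.sqrt Y) := by ring
      _ = (4 * K * C0 * B + 1) * (C0 / c0 + 1) * (C0 * K) * N * Y := by rw [Real.mul_self_sqrt hY0.le]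

theorem cnt3_harm (C : ℝ) (hC : 1 ≤ C) : ∑ a ∈ Icc 1 ⌊C⌋₊, (C / a + 1) ≤ C * (2 + Real.log C) := by
  have hC0 : 0 < C := by linarith
  have h1 : ∑ a ∈ Icc 1 ⌊C⌋₊, ((a : ℝ))⁻¹ ≤ 1 + Real.log C := by
    have h2 := harmonic_le_one_add_log ⌊C⌋₊
    rw [harmonic_eq_sum_Icc] at h2
    push_cast at h2
    refine h2.trans ?_
    have h3 : Real.log (⌊C⌋₊ : ℝ) ≤ Real.log C := by
      refine Real.log_le_log ?_ (Nat.floor_le hC0.le)
      have : 1 ≤ ⌊C⌋₊ := Nat.le_floor (by simpa using hC)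
      exact_mod_cast this
    linarith
  rw [sum_add_distrib]
  have e1 : ∑ a ∈ Icc 1 ⌊C⌋₊, C / (a : ℝ) = C * ∑ a ∈ Icc 1 ⌊C⌋₊, ((a : ℝ))⁻¹ := by
    rw [mul_sum]
    rfl
  have e2 : ∑ _a ∈ Icc 1 ⌊C⌋₊, (1 : ℝ) ≤ C := by
    rw [sum_const, Nat.card_Icc, nsmul_eq_mul, mul_one]
    have := Nat.floor_le hC0.le
    simpa using this
  rw [e1]
  have h4 : C * ∑ a ∈ Icc 1 ⌊C⌋₊, ((a : ℝ))⁻¹ ≤ C * (1 + Real.log C) := mul_le_mul_of_nonneg_left h1 hC0.le
  linarith

open Classical in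
/-- PROOF. As `cntA3`, without the lower bound for `a`: `∑_(a ≤ C0 sqrt Y) ∑_(b ≤ K sqrt Y) (C0 sqrt Y/a + 1) (2 M + 1) ≤ (2 M + 1) C0 K Y (2 + log (C0 sqrt Y))` (harmonic sum). -/
theorem cntB3 (C0 K B : ℝ) (hC0 : 0 < C0) (hK : 0 < K) (hB : 0 < B) : ∃ C : ℝ, 0 < C ∧ ∀ N : ℕ, 1 ≤ N →
    ∀ᶠ Y : ℝ in atTop, (((PB (C0 * Real.sqrt Y) (K * Real.sqrt Y) ×ˢ PB (C0 * Real.sqrt Y) (K * Real.sqrt Y)).filter
      (fun e : (ℕ × ℕ) × (ℕ × ℕ) => |dirn e.2 - dirn e.1| ≤ B * N / Y)).card : ℝ) ≤ C * N * Y * Real.log Y := by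
  refine ⟨(4 * K * C0 * B + 1) * (C0 * K), by positivity, ?_⟩
  intro N hN
  have hlogev : ∀ᶠ Y : ℝ in atTop, 2 * (2 + Real.log C0) ≤ Real.log Y :=
    Real.tendsto_log_atTop.eventually_ge_atTop _
  filter_upwards [cnt3_ev B N, eventually_ge_atTop 1, eventually_ge_atTop ((1 / C0) ^ 2), hlogev] with Y hY1 hY hYC hYl
  have hY0 : 0 < Y := by linarith
  have hsq : 0 < Real.sqrt Y := Real.sqrt_pos.2 hY0
  have hN' : (1 : ℝ) ≤ N := by exact_mod_cast hN
  have hC1 : 1 ≤ C0 * Real.sqrt Y := by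
    have h1 : 1 / C0 ≤ Real.sqrt Y := Real.le_sqrt_of_sq_le hYC
    rw [div_le_iff₀ hC0] at h1
    linarith
  refine (cnt3_main C0 K B hC0 hK hB N Y hY0 hY1 _ (Subset.refl _) _ ?_).trans ?_
  · intro e he
    rw [mem_filter, mem_product] at he
    exact ⟨he.1.1, he.1.2, he.2⟩
  · set M : ℝ := 2 * (2 * K * C0 * B * N) + 1 with hM
    have hMpos : 0 < M := by positivity
    have hM2 : M ≤ (4 * K * C0 * B + 1) * N := by
      have : (4 * K * C0 * B + 1) * (N : ℝ) = 2 * (2 * K * C0 * B * N) + N := by ring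
      rw [this, hM]
      linarith
    have hlog : 2 + Real.log (C0 * Real.sqrt Y) ≤ Real.log Y := by
      rw [Real.log_mul hC0.ne' hsq.ne', Real.log_sqrt hY0.le]
      linarith
    have hlogY : 0 ≤ Real.log Y := Real.log_nonneg hY
    calc ∑ z ∈ PB (C0 * Real.sqrt Y) (K * Real.sqrt Y), M * (C0 * Real.sqrt Y / z.1 + 1)
        ≤ ∑ z ∈ (Icc 1 ⌊C0 * Real.sqrt Y⌋₊) ×ˢ (Icc 1 ⌊K * Real.sqrt Y⌋₊), M * (C0 * Real.sqrt Y / z.1 + 1) := by
          unfold PB
          exact sum_le_sum_of_subset_of_nonneg (filter_subset _ _) fun z _ _ => by positivity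
      _ = ∑ a ∈ Icc 1 ⌊C0 * Real.sqrt Y⌋₊, (⌊K * Real.sqrt Y⌋₊ : ℝ) * (M * (C0 * Real.sqrt Y / a + 1)) := by
          rw [sum_product]
          refine sum_congr rfl fun a _ => ?_
          show ∑ _b ∈ Icc 1 ⌊K * Real.sqrt Y⌋₊, M * (C0 * Real.sqrt Y / a + 1) = _
          rw [sum_const, Nat.card_Icc, nsmul_eq_mul]
          simp
      _ = (⌊K * Real.sqrt Y⌋₊ : ℝ) * M * ∑ a ∈ Icc 1 ⌊C0 * Real.sqrt Y⌋₊, (C0 * Real.sqrt Y / a + 1) := by
          rw [mul_sum]
          refine sum_congr rfl fun a _ => ?_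
          ring
      _ ≤ (K * Real.sqrt Y) * ((4 * K * C0 * B + 1) * N) * (C0 * Real.sqrt Y * (2 + Real.log (C0 * Real.sqrt Y))) := by
          have h1 := Nat.floor_le (show 0 ≤ K * Real.sqrt Y by positivity)
          have h2 := cnt3_harm _ hC1
          have h3 : (0 : ℝ) ≤ ∑ a ∈ Icc 1 ⌊C0 * Real.sqrt Y⌋₊, (C0 * Real.sqrt Y / a + 1) :=
            sum_nonneg fun a _ => by positivity
          refine mul_le_mul (mul_le_mul h1 hM2 hMpos.le (by positivity)) h2 h3 (by positivity)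
      _ ≤ (K * Real.sqrt Y) * ((4 * K * C0 * B + 1) * N) * (C0 * Real.sqrt Y * Real.log Y) := by
          gcongr
      _ = (4 * K * C0 * B + 1) * (C0 * K) * N * (Real.sqrt Y * Real.sqrt Y) * Real.log Y := by ring
      _ = (4 * K * C0 * B + 1) * (C0 * K) * N * Y * Real.log Y := by rw [Real.mul_self_sqrt hY0.le]

end Pool.Agent.Spl

end
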