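import Pool.Agent.Lib_MP_92ef0c_m.M05
import Pool.Agent.Lib_MP_92ef0c_m.M12
import Pool.Agent.Lib_MP_92ef0c_m.M25
import Pool.Agent.Lib_MP_92ef0c_m.M28

/-!
# MP_92ef0c_nt, split pairs: merged library part M29

Concatenation of smaller files (each in its own section), only to save build time.
-/

/-! ### from `Lib_MP_92ef0c_spi.WeightI` -/

section

/-!
# Piece I-WEIGHT: weights in arithmetic progressions
-/

set_option autoImplicit false

namespace Pool.Agent.SplI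

open Finset

private theorem wti_harm_up (a : ℕ) (ha : 1 ≤ a) : ∀ b : ℕ, a ≤ b →
    ∑ s ∈ Ioc a b, 1 / (s : ℝ) ≤ Real.log ((b : ℝ) / a) := by
  intro b hb
  induction b, hb using Nat.le_induction with
  | base =>
    have ha0 : (a : ℝ) ≠ 0 := by positivity
    simp [div_self ha0]
  | succ b hb ih =>
    rw [Finset.sum_Ioc_succ_top (by omega : a ≤ b)]
    have ha0 : (0 : ℝ) < a := by exact_mod_cast ha
    have hb0 : (0 : ℝ) < b := by exact_mod_cast (by omega : 0 < b)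
    have h1 : Real.log (((b + 1 : ℕ) : ℝ) / a) = Real.log ((b : ℝ) / a) + Real.log (((b + 1 : ℕ) : ℝ) / b) := by
      rw [Real.log_div (by positivity) ha0.ne', Real.log_div hb0.ne' ha0.ne', Real.log_div (by positivity) hb0.ne']
      ring
    have h2 : 1 / (((b + 1 : ℕ) : ℝ)) ≤ Real.log (((b + 1 : ℕ) : ℝ) / b) := by
      have h3 := Real.one_sub_inv_le_log_of_pos (show (0 : ℝ) < ((b + 1 : ℕ) : ℝ) / b by positivity)
      have h4 : 1 - (((b + 1 : ℕ) : ℝ) / b)⁻¹ = 1 / (((b + 1 : ℕ) : ℝ)) := by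
        push_cast
        field_simp
        ring
      linarith
    rw [h1]
    linarith

private theorem wti_harm_lo (a : ℕ) : ∀ b : ℕ, a ≤ b →
    Real.log (((b : ℝ) + 1) / ((a : ℝ) + 1)) ≤ ∑ s ∈ Ioc a b, 1 / (s : ℝ) := by
  intro b hb
  induction b, hb using Nat.le_induction with
  | base =>
    have ha0 : (a : ℝ) + 1 ≠ 0 := by positivity
    simp [div_self ha0]
  | succ b hb ih =>
    rw [Finset.sum_Ioc_succ_top (by omega : a ≤ b)]
    have h1 : Real.log ((((b + 1 : ℕ) : ℝ) + 1) / ((a : ℝ) + 1)) =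
        Real.log (((b : ℝ) + 1) / ((a : ℝ) + 1)) + Real.log ((((b + 1 : ℕ) : ℝ) + 1) / ((b : ℝ) + 1)) := by
      rw [Real.log_div (by positivity) (by positivity), Real.log_div (by positivity) (by positivity),
        Real.log_div (by positivity) (by positivity)]
      ring
    have h2 : Real.log ((((b + 1 : ℕ) : ℝ) + 1) / ((b : ℝ) + 1)) ≤ 1 / (((b + 1 : ℕ) : ℝ)) := by
      have h3 := Real.log_le_sub_one_of_pos (show (0 : ℝ) < (((b + 1 : ℕ) : ℝ) + 1) / ((b : ℝ) + 1) by positivity)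
      have h4 : (((b + 1 : ℕ) : ℝ) + 1) / ((b : ℝ) + 1) - 1 = 1 / (((b + 1 : ℕ) : ℝ)) := by
        push_cast
        field_simp
        ring
      linarith
    rw [h1]
    linarith

private theorem wti_harm {u v : ℝ} (hu : 2 ≤ u) (huv : u ≤ v) :
    |∑ s ∈ Ioc ⌊u⌋₊ ⌊v⌋₊, 1 / (s : ℝ) - Real.log (v / u)| ≤ 2 / u := by
  have hab : ⌊u⌋₊ ≤ ⌊v⌋₊ := Nat.floor_le_floor huv
  have ha : 1 ≤ ⌊u⌋₊ := Nat.le_floor (by push_cast; linarith)
  have hu0 : 0 < u := by linarith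
  have hv0 : 0 < v := by linarith
  have h1 := wti_harm_up _ ha _ hab
  have h2 := wti_harm_lo _ _ hab
  have hfu : u - 1 < (⌊u⌋₊ : ℝ) := by
    have := Nat.lt_floor_add_one u
    linarith
  have hfu2 : (⌊u⌋₊ : ℝ) ≤ u := Nat.floor_le hu0.le
  have hfv : v < (⌊v⌋₊ : ℝ) + 1 := Nat.lt_floor_add_one v
  have hfv2 : (⌊v⌋₊ : ℝ) ≤ v := Nat.floor_le hv0.le
  have ha0 : (0 : ℝ) < (⌊u⌋₊ : ℝ) := by exact_mod_cast ha
  have hb0 : (0 : ℝ) < (⌊v⌋₊ : ℝ) := by exact_mod_cast (lt_of_lt_of_le (by omega) hab)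
  have h3 : Real.log ((⌊v⌋₊ : ℝ) / ⌊u⌋₊) ≤ Real.log (v / u) + 2 / u := by
    have h4 : Real.log ((⌊v⌋₊ : ℝ) / ⌊u⌋₊) ≤ Real.log (v / (u - 1)) := by
      apply Real.log_le_log (by positivity)
      have : 0 < u - 1 := by linarith
      gcongr
    have h5 : Real.log (v / (u - 1)) = Real.log (v / u) + Real.log (u / (u - 1)) := by
      have h6 : u - 1 ≠ 0 := by linarith
      rw [Real.log_div hv0.ne' h6, Real.log_div hv0.ne' hu0.ne', Real.log_div hu0.ne' h6]
      ring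
    have h7 : Real.log (u / (u - 1)) ≤ 2 / u := by
      have h8 : 0 < u - 1 := by linarith
      have h9 := Real.log_le_sub_one_of_pos (show 0 < u / (u - 1) by positivity)
      have h10 : u / (u - 1) - 1 = 1 / (u - 1) := by
        field_simp
        ring
      have h11 : 1 / (u - 1) ≤ 2 / u := by
        rw [div_le_div_iff₀ h8 hu0]
        linarith
      linarith
    linarith
  have h12 : Real.log (v / u) - 2 / u ≤ Real.log (((⌊v⌋₊ : ℝ) + 1) / ((⌊u⌋₊ : ℝ) + 1)) := by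
    have h4 : Real.log (v / (u + 1)) ≤ Real.log (((⌊v⌋₊ : ℝ) + 1) / ((⌊u⌋₊ : ℝ) + 1)) := by
      apply Real.log_le_log (by positivity)
      gcongr
    have h5 : Real.log (v / (u + 1)) = Real.log (v / u) - Real.log ((u + 1) / u) := by
      have h6 : u + 1 ≠ 0 := by linarith
      rw [Real.log_div hv0.ne' h6, Real.log_div hv0.ne' hu0.ne', Real.log_div h6 hu0.ne']
      ring
    have h7 : Real.log ((u + 1) / u) ≤ 2 / u := by
      have h9 := Real.log_le_sub_one_of_pos (show 0 < (u + 1) / u by positivity)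
      have h10 : (u + 1) / u - 1 = 1 / u := by
        field_simp
        ring
      have h11 : 1 / u ≤ 2 / u := by
        gcongr
        norm_num
      linarith
    linarith
  rw [abs_le]
  constructor <;> linarith

private theorem wti_cpow (x τ : ℝ) (hx : 0 < x) :
    (x : ℂ) ^ ((τ : ℂ) * Complex.I) = Complex.exp (((τ * Real.log x : ℝ) : ℂ) * Complex.I) := by
  rw [Complex.cpow_def_of_ne_zero (by exact_mod_cast hx.ne'), ← Complex.ofReal_log hx.le]
  congr 1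
  push_cast
  ring

private theorem wti_et (τ : ℝ) (n : ℕ) :
    et (-τ) n = Complex.exp (((τ * Real.log n : ℝ) : ℂ) * Complex.I) := by
  unfold et
  congr 1
  push_cast
  ring

private theorem wti_cpow_mul (x τ : ℝ) (hx : 0 < x) (d : ℕ) (hd : 0 < d) :
    et (-τ) d * ((x / d : ℝ) : ℂ) ^ ((τ : ℂ) * Complex.I) = (x : ℂ) ^ ((τ : ℂ) * Complex.I) := by
  have hd0 : (0 : ℝ) < d := by exact_mod_cast hd
  rw [wti_cpow _ _ (by positivity), wti_cpow _ _ hx, wti_et, ← Complex.exp_add, Real.log_div hx.ne' hd0.ne']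
  congr 1
  push_cast
  ring

private theorem wti_reindex (u v : ℝ) (hu : 0 ≤ u) (hv : 0 ≤ v) (d : ℕ) (hd : 0 < d) (f : ℕ → ℝ) :
    ∑ n ∈ (Ioc ⌊u⌋₊ ⌊v⌋₊).filter (fun n => d ∣ n), f n = ∑ s ∈ Ioc ⌊u / d⌋₊ ⌊v / d⌋₊, f (d * s) := by
  have hd0 : (0 : ℝ) < d := by exact_mod_cast hd
  symm
  apply Finset.sum_bij (fun s _ => d * s)
  · intro s hs
    rw [mem_Ioc] at hs
    rw [mem_filter, mem_Ioc]
    have h1 : u / d < s := (Nat.floor_lt (by positivity)).1 hs.1
    have h2 : (s : ℝ) ≤ v / d := by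
      have := Nat.floor_le (show 0 ≤ v / d by positivity)
      have h3 : (s : ℝ) ≤ (⌊v / d⌋₊ : ℝ) := by exact_mod_cast hs.2
      linarith
    refine ⟨⟨?_, ?_⟩, Dvd.intro _ rfl⟩
    · rw [Nat.floor_lt hu]
      push_cast
      rw [div_lt_iff₀ hd0] at h1
      linarith
    · apply Nat.le_floor
      push_cast
      rw [le_div_iff₀ hd0] at h2
      linarith
  · intro a _ b _ hab
    exact Nat.eq_of_mul_eq_mul_left hd hab
  · intro n hn
    rw [mem_filter, mem_Ioc] at hn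
    obtain ⟨⟨h1, h2⟩, s, rfl⟩ := hn
    refine ⟨s, ?_, rfl⟩
    rw [mem_Ioc]
    have h3 : u < ((d * s : ℕ) : ℝ) := (Nat.floor_lt hu).1 h1
    have h4 : ((d * s : ℕ) : ℝ) ≤ v := by
      have := Nat.floor_le hv
      have h5 : ((d * s : ℕ) : ℝ) ≤ (⌊v⌋₊ : ℝ) := by exact_mod_cast h2
      linarith
    push_cast at h3 h4
    constructor
    · rw [Nat.floor_lt (by positivity), div_lt_iff₀ hd0]
      linarith
    · apply Nat.le_floor
      rw [le_div_iff₀ hd0]
      linarith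
  · intro s _
    rfl

/-- `X0 = log Y / 4 - Re ((Y^(3iτ/4) - Y^(iτ/2)) / (iτ))`, `|..| ≤ 2` since `|τ| ≥ 1`. With `n = d s`: the sum is `(1/d) (∑_(Y^(1/2)/d < s ≤ Y^(3/4)/d) 1/s - Re (d^(iτ) ∑ s^(-1+iτ)))`; harmonic sum `= log Y / 4 + O(d Y^(-1/2))`, and `zs_log` with `4 A` (`|τ| ≤ Y^A ≤ (Y^(1/2)/d)^(4A)`):
`d^(iτ) ((Y^(3/4)/d)^(iτ) - (Y^(1/2)/d)^(iτ)) / (iτ) = (Y^(3iτ/4) - Y^(iτ/2))/(iτ)`, error `C Y^(-η/4)`. -/
theorem weight_i (hZS : ZsLogS) (A : ℝ) (hA : 1 ≤ A) : ∃ η Y0 : ℝ, 0 < η ∧ 1 < Y0 ∧ ∀ Y : ℝ, Y0 ≤ Y → ∀ τ : ℝ, 1 ≤ |τ| → |τ| ≤ Y ^ A →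
    ∃ X0 : ℝ, Real.log Y / 8 ≤ X0 ∧ X0 ≤ Real.log Y ∧ ∀ d : ℕ, 0 < d → (d : ℝ) ≤ Y ^ (1 / 4 : ℝ) →
    |∑ n ∈ (Ioc ⌊Y ^ (1 / 2 : ℝ)⌋₊ ⌊Y ^ (3 / 4 : ℝ)⌋₊).filter (fun n => d ∣ n), (1 / (n : ℝ)) * (1 - (et (-τ) n).re) - X0 / d| ≤ Y ^ (-η) / d := by
  obtain ⟨η₀, C₀, hη₀, hη₀2, hC₀, hz⟩ := hZS (4 * A) (by linarith)
  refine ⟨η₀ / 8, max (Real.exp 16) ((2 + C₀) ^ (8 / η₀)), by positivity, ?_, ?_⟩
  · exact lt_of_lt_of_le (Real.one_lt_exp_iff.2 (by norm_num)) (le_max_left _ _)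
  intro Y hY τ hτ1 hτ2
  have hYe : Real.exp 16 ≤ Y := (le_max_left _ _).trans hY
  have hYC : (2 + C₀) ^ (8 / η₀) ≤ Y := (le_max_right _ _).trans hY
  have hY1 : 1 < Y := lt_of_lt_of_le (Real.one_lt_exp_iff.2 (by norm_num)) hYe
  have hY0 : 0 < Y := by linarith
  have hlog : 16 ≤ Real.log Y := (Real.le_log_iff_exp_le hY0).2 hYe
  have hτ0 : (τ : ℂ) * Complex.I ≠ 0 := by
    have : τ ≠ 0 := by
      intro h
      rw [h, abs_zero] at hτ1
      linarith
    exact mul_ne_zero (by exact_mod_cast this) Complex.I_ne_zero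
  set U : ℝ := Y ^ (1 / 2 : ℝ) with hU
  set V : ℝ := Y ^ (3 / 4 : ℝ) with hV
  have hU0 : 0 < U := by positivity
  have hV0 : 0 < V := by positivity
  set W : ℂ := ((V : ℂ) ^ ((τ : ℂ) * Complex.I) - (U : ℂ) ^ ((τ : ℂ) * Complex.I)) / ((τ : ℂ) * Complex.I) with hW
  have hWn : ‖W‖ ≤ 2 := by
    rw [hW, norm_div]
    have h1 : ‖(V : ℂ) ^ ((τ : ℂ) * Complex.I)‖ = 1 := by
      rw [wti_cpow _ _ hV0]
      exact Complex.norm_exp_ofReal_mul_I _
    have h2 : ‖(U : ℂ) ^ ((τ : ℂ) * Complex.I)‖ = 1 := by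
      rw [wti_cpow _ _ hU0]
      exact Complex.norm_exp_ofReal_mul_I _
    have h3 : ‖(τ : ℂ) * Complex.I‖ = |τ| := by
      rw [norm_mul, Complex.norm_I, mul_one, Complex.norm_real, Real.norm_eq_abs]
    rw [h3, div_le_iff₀ (by linarith)]
    have h4 := norm_sub_le ((V : ℂ) ^ ((τ : ℂ) * Complex.I)) ((U : ℂ) ^ ((τ : ℂ) * Complex.I))
    rw [h1, h2] at h4
    linarith
  have hWre : |W.re| ≤ 2 := (Complex.abs_re_le_norm W).trans hWn
  rw [abs_le] at hWre
  refine ⟨Real.log Y / 4 - W.re, by linarith, by linarith, ?_⟩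
  intro d hd hdY
  have hd0 : (0 : ℝ) < d := by exact_mod_cast hd
  have hu : Y ^ (1 / 4 : ℝ) ≤ U / d := by
    rw [le_div_iff₀ hd0]
    calc Y ^ (1 / 4 : ℝ) * d ≤ Y ^ (1 / 4 : ℝ) * Y ^ (1 / 4 : ℝ) := by gcongr
      _ = U := by
        rw [hU, ← Real.rpow_add hY0]
        norm_num
  have hY4 : (2 : ℝ) ≤ Y ^ (1 / 4 : ℝ) := by
    have h1 : Real.exp 4 ≤ Y ^ (1 / 4 : ℝ) := by
      calc Real.exp 4 = (Real.exp 16) ^ (1 / 4 : ℝ) := by
            rw [← Real.exp_mul]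
            norm_num
        _ ≤ _ := by gcongr
    have h2 := Real.add_one_le_exp (4 : ℝ)
    linarith
  have hu2 : 2 ≤ U / d := hY4.trans hu
  have huv : U / d ≤ V / d := by
    have : U ≤ V := by
      rw [hU, hV]
      exact Real.rpow_le_rpow_of_exponent_le hY1.le (by norm_num)
    gcongr
  rw [wti_reindex U V hU0.le hV0.le d hd (fun n => (1 / (n : ℝ)) * (1 - (et (-τ) n).re))]
  -- split the sum
  have hsum : ∑ s ∈ Ioc ⌊U / d⌋₊ ⌊V / d⌋₊, (1 / ((d * s : ℕ) : ℝ)) * (1 - (et (-τ) (d * s)).re) =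
      (1 / (d : ℝ)) * (∑ s ∈ Ioc ⌊U / d⌋₊ ⌊V / d⌋₊, 1 / (s : ℝ) -
        (et (-τ) d * ∑ s ∈ Ioc ⌊U / d⌋₊ ⌊V / d⌋₊, et (-τ) s / (s : ℂ)).re) := by
    rw [Finset.mul_sum, Complex.re_sum, ← Finset.sum_sub_distrib, Finset.mul_sum]
    apply Finset.sum_congr rfl
    intro s hs
    rw [mem_Ioc] at hs
    have hs0 : s ≠ 0 := by omega
    rw [et_mul (-τ) hd.ne' hs0]
    have h1 : (et (-τ) d * (et (-τ) s / (s : ℂ))).re = (et (-τ) d * et (-τ) s).re / (s : ℝ) := by
      rw [← mul_div_assoc]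
      have : ((s : ℕ) : ℂ) = ((s : ℝ) : ℂ) := by push_cast; rfl
      rw [this, Complex.div_ofReal_re]
    rw [h1]
    have hsr : (s : ℝ) ≠ 0 := by exact_mod_cast hs0
    push_cast
    field_simp
  rw [hsum]
  have hharm := wti_harm hu2 huv
  have hlogq : Real.log (V / d / (U / d)) = Real.log Y / 4 := by
    rw [div_div_div_cancel_right₀ hd0.ne', hU, hV, ← Real.rpow_sub hY0, Real.log_rpow hY0]
    ring
  rw [hlogq] at hharm
  have hzl := hz τ (U / d) (V / d) (by linarith) huv hτ1 (hτ2.trans ?_)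
  swap
  · calc Y ^ A = (Y ^ (1 / 4 : ℝ)) ^ (4 * A) := by
          rw [← Real.rpow_mul hY0.le]
          congr 1
          ring
      _ ≤ _ := by gcongr
  -- rewrite the main term
  have hmain : et (-τ) d * ((((V / d : ℝ) : ℂ) ^ ((τ : ℂ) * Complex.I) - ((U / d : ℝ) : ℂ) ^ ((τ : ℂ) * Complex.I)) / ((τ : ℂ) * Complex.I)) = W := by
    rw [hW, ← mul_div_assoc, mul_sub, wti_cpow_mul V τ hV0 d hd, wti_cpow_mul U τ hU0 d hd]
  have herr : |(et (-τ) d * ∑ s ∈ Ioc ⌊U / d⌋₊ ⌊V / d⌋₊, et (-τ) s / (s : ℂ)).re - W.re| ≤ C₀ * (U / d) ^ (-η₀) := by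
    rw [← Complex.sub_re]
    refine (Complex.abs_re_le_norm _).trans ?_
    rw [← hmain, ← mul_sub, norm_mul, norm_et, one_mul]
    exact hzl
  have hpow1 : (U / d) ^ (-η₀) ≤ Y ^ (-(η₀ / 4)) := by
    calc (U / d) ^ (-η₀) ≤ (Y ^ (1 / 4 : ℝ)) ^ (-η₀) := by
          apply Real.rpow_le_rpow_of_nonpos (by positivity) hu (by linarith)
      _ = _ := by
        rw [← Real.rpow_mul hY0.le]
        congr 1
        ring
  have hpow2 : 2 / (U / d) ≤ 2 * Y ^ (-(η₀ / 4)) := by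
    have h1 : 2 / (U / d) ≤ 2 / Y ^ (1 / 4 : ℝ) := by gcongr
    have h2 : 2 / Y ^ (1 / 4 : ℝ) = 2 * Y ^ (-(1 / 4 : ℝ)) := by
      rw [Real.rpow_neg hY0.le]
      ring
    have h3 : Y ^ (-(1 / 4 : ℝ)) ≤ Y ^ (-(η₀ / 4)) :=
      Real.rpow_le_rpow_of_exponent_le hY1.le (by linarith)
    linarith
  have hpow3 : (2 + C₀) * Y ^ (-(η₀ / 4)) ≤ Y ^ (-(η₀ / 8)) := by
    have h1 : 2 + C₀ ≤ Y ^ (η₀ / 8) := by
      calc 2 + C₀ = ((2 + C₀) ^ (8 / η₀)) ^ (η₀ / 8) := by
            rw [← Real.rpow_mul (by positivity)]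
            have : 8 / η₀ * (η₀ / 8) = 1 := by field_simp
            rw [this, Real.rpow_one]
        _ ≤ _ := by gcongr
    calc (2 + C₀) * Y ^ (-(η₀ / 4)) ≤ Y ^ (η₀ / 8) * Y ^ (-(η₀ / 4)) := by gcongr
      _ = Y ^ (-(η₀ / 8)) := by
        rw [← Real.rpow_add hY0]
        congr 1
        ring
  have hfin : |(∑ s ∈ Ioc ⌊U / d⌋₊ ⌊V / d⌋₊, 1 / (s : ℝ) -
        (et (-τ) d * ∑ s ∈ Ioc ⌊U / d⌋₊ ⌊V / d⌋₊, et (-τ) s / (s : ℂ)).re) - (Real.log Y / 4 - W.re)| ≤ Y ^ (-(η₀ / 8)) := by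
    have h1 : C₀ * (U / d) ^ (-η₀) ≤ C₀ * Y ^ (-(η₀ / 4)) := by gcongr
    rw [abs_le] at hharm herr ⊢
    constructor <;> nlinarith [hharm.1, hharm.2, herr.1, herr.2]
  have hgoal : (1 / (d : ℝ)) * (∑ s ∈ Ioc ⌊U / d⌋₊ ⌊V / d⌋₊, 1 / (s : ℝ) -
        (et (-τ) d * ∑ s ∈ Ioc ⌊U / d⌋₊ ⌊V / d⌋₊, et (-τ) s / (s : ℂ)).re) - (Real.log Y / 4 - W.re) / d =
      ((∑ s ∈ Ioc ⌊U / d⌋₊ ⌊V / d⌋₊, 1 / (s : ℝ) -
        (et (-τ) d * ∑ s ∈ Ioc ⌊U / d⌋₊ ⌊V / d⌋₊, et (-τ) s / (s : ℂ)).re) - (Real.log Y / 4 - W.re)) / d := by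
    ring
  rw [hgoal, abs_div, abs_of_pos hd0]
  gcongr

end Pool.Agent.SplI

end

/-! ### from `Lib_MP_92ef0c_spi.CutAll` -/

section

/-!
# Piece I-CUT: sharp and smooth sums over primes
-/

set_option autoImplicit false

namespace Pool.Agent.SplI

open Finset

namespace Cut

/-- the smooth weight -/
private noncomputable def wt (L : ℝ) (p : ℕ) : ℝ := 1 / (p : ℝ) * Real.exp (-(Real.log p / L))

private theorem wt_eq {L : ℝ} {p : ℕ} (hp : 0 < p) : (p : ℝ) ^ (-(1 + 1 / L)) = wt L p := by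
  have hp0 : (0 : ℝ) < p := by exact_mod_cast hp
  unfold wt
  rw [neg_add, Real.rpow_add hp0, Real.rpow_neg_one, Real.rpow_def_of_pos hp0, one_div (p : ℝ)]
  congr 2
  rw [mul_neg, mul_one_div]

private theorem wt_nonneg (L : ℝ) (p : ℕ) : 0 ≤ wt L p := by
  unfold wt
  positivity

private theorem one_le_log {T : ℝ} (hT : 3 ≤ T) : 1 ≤ Real.log T := by
  rw [Real.le_log_iff_exp_le (by linarith)]
  have := Real.exp_one_lt_d9
  linarith

private theorem cpow_eq {L : ℝ} {p : ℕ} (hp : 0 < p) :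
    (p : ℂ) ^ (-((1 + 1 / L : ℝ) : ℂ)) = ((wt L p : ℝ) : ℂ) := by
  rw [← wt_eq hp, Complex.ofReal_cpow (Nat.cast_nonneg _)]
  push_cast
  rfl

/-- the mass of the block `T^K < p ≤ T^(K+1)` -/
private theorem block (C : ℝ) (hC0 : 0 ≤ C)
    (hA : ∀ x : ℝ, 2 ≤ x → ∑ p ∈ PrI 1 x, Real.log p / (p : ℝ) ≤ Real.log x + C)
    (T : ℝ) (hT : 3 ≤ T) (K : ℕ) (hK : 1 ≤ K) :
    ∑ p ∈ PrI (T ^ K) (T ^ (K + 1)), wt (Real.log T) p ≤ (2 + C) * Real.exp (-(K : ℝ)) := by
  have hL := one_le_log hT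
  set L := Real.log T with hLdef
  have hK' : (1 : ℝ) ≤ K := by exact_mod_cast hK
  have hKL : 1 ≤ (K : ℝ) * L := by nlinarith
  have hT1 : 1 ≤ T := by linarith
  have hTK : 1 ≤ T ^ K := one_le_pow₀ hT1
  have hT2 : 2 ≤ T ^ (K + 1) := by
    calc (2 : ℝ) ≤ T := by linarith
      _ = T ^ 1 := (pow_one T).symm
      _ ≤ T ^ (K + 1) := pow_le_pow_right₀ hT1 (by omega)
  have h1 : ∀ p ∈ PrI (T ^ K) (T ^ (K + 1)), wt L p ≤
      Real.exp (-(K : ℝ)) / (K * L) * (Real.log p / p) := by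
    intro p hp
    rw [mem_PrI] at hp
    obtain ⟨hp1, hp2, hp3⟩ := hp
    have hp0 : (0 : ℝ) < p := by exact_mod_cast hp1.pos
    have hlog : (K : ℝ) * L ≤ Real.log p := by
      rw [hLdef, ← Real.log_pow]
      exact Real.log_le_log (by positivity) hp2.le
    have h2 : (K : ℝ) ≤ Real.log p / L := by
      rw [le_div_iff₀ (by linarith)]
      exact hlog
    have h3 : Real.exp (-(Real.log p / L)) ≤ Real.exp (-(K : ℝ)) := Real.exp_le_exp.mpr (by linarith)
    unfold wt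
    have h6 : Real.exp (-(K : ℝ)) / (K * L) * (Real.log p / p) =
        1 / p * Real.exp (-(K : ℝ)) * (Real.log p / (K * L)) := by
      field_simp
    rw [h6]
    calc 1 / (p : ℝ) * Real.exp (-(Real.log p / L)) ≤ 1 / (p : ℝ) * Real.exp (-(K : ℝ)) :=
          mul_le_mul_of_nonneg_left h3 (by positivity)
      _ ≤ _ := by
          apply le_mul_of_one_le_right (by positivity)
          rw [one_le_div (by linarith)]
          exact hlog
  calc ∑ p ∈ PrI (T ^ K) (T ^ (K + 1)), wt L p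
      ≤ ∑ p ∈ PrI (T ^ K) (T ^ (K + 1)), Real.exp (-(K : ℝ)) / (K * L) * (Real.log p / p) := sum_le_sum h1
    _ ≤ ∑ p ∈ PrI 1 (T ^ (K + 1)), Real.exp (-(K : ℝ)) / (K * L) * (Real.log p / p) := by
        apply sum_le_sum_of_subset_of_nonneg
        · intro p hp
          rw [mem_PrI] at hp ⊢
          exact ⟨hp.1, lt_of_le_of_lt hTK hp.2.1, hp.2.2⟩
        · intro p hp _
          have hp0 : (1 : ℝ) ≤ p := (mem_PrI.1 hp).2.1.le
          have := Real.log_nonneg hp0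
          positivity
    _ = Real.exp (-(K : ℝ)) / (K * L) * ∑ p ∈ PrI 1 (T ^ (K + 1)), (Real.log p / p) := by
        rw [mul_sum]
    _ ≤ Real.exp (-(K : ℝ)) / (K * L) * (((K : ℝ) + 1) * L + C) := by
        apply mul_le_mul_of_nonneg_left _ (by positivity)
        have h7 := hA _ hT2
        rw [Real.log_pow] at h7
        push_cast at h7
        exact h7
    _ ≤ (2 + C) * Real.exp (-(K : ℝ)) := by
        have h9 : Real.exp (-(K : ℝ)) / (K * L) * (((K : ℝ) + 1) * L + C) =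
          Real.exp (-(K : ℝ)) * ((((K : ℝ) + 1) * L + C) / (K * L)) := by
          field_simp
        rw [h9, mul_comm (2 + C)]
        apply mul_le_mul_of_nonneg_left _ (Real.exp_pos _).le
        rw [div_le_iff₀ (by linarith)]
        nlinarith [mul_nonneg hC0 (by linarith : (0 : ℝ) ≤ (K : ℝ) * L - 1),
          mul_nonneg (by linarith : (0 : ℝ) ≤ (K : ℝ) - 1) (by linarith : (0 : ℝ) ≤ L)]

private theorem blocks (C : ℝ) (hC0 : 0 ≤ C)
    (hA : ∀ x : ℝ, 2 ≤ x → ∑ p ∈ PrI 1 x, Real.log p / (p : ℝ) ≤ Real.log x + C)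
    (T : ℝ) (hT : 3 ≤ T) (K : ℕ) :
    ∑ p ∈ PrI T (T ^ (K + 1)), wt (Real.log T) p ≤ (2 + C) * (1 - Real.exp (-(K : ℝ))) := by
  have hT1 : 1 ≤ T := by linarith
  induction K with
  | zero =>
    have : PrI T (T ^ (0 + 1)) = ∅ := by
      ext p
      rw [mem_PrI]
      simp only [zero_add, pow_one, notMem_empty, iff_false]
      rintro ⟨_, h1, h2⟩
      linarith
    rw [this]
    simp
  | succ K ih =>
    have hsub : T ≤ T ^ (K + 1) := by
      calc T = T ^ 1 := (pow_one T).symm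
        _ ≤ T ^ (K + 1) := pow_le_pow_right₀ hT1 (by omega)
    have hsub2 : T ^ (K + 1) ≤ T ^ (K + 1 + 1) := pow_le_pow_right₀ hT1 (by omega)
    have hun : PrI T (T ^ (K + 1 + 1)) =
        PrI T (T ^ (K + 1)) ∪ PrI (T ^ (K + 1)) (T ^ (K + 1 + 1)) := by
      ext p
      simp only [mem_PrI, mem_union]
      constructor
      · rintro ⟨h1, h2, h3⟩
        by_cases h4 : (p : ℝ) ≤ T ^ (K + 1)
        · exact Or.inl ⟨h1, h2, h4⟩
        · exact Or.inr ⟨h1, not_le.1 h4, h3⟩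
      · rintro (⟨h1, h2, h3⟩ | ⟨h1, h2, h3⟩)
        · exact ⟨h1, h2, h3.trans hsub2⟩
        · exact ⟨h1, lt_of_le_of_lt hsub h2, h3⟩
    have hdis : Disjoint (PrI T (T ^ (K + 1))) (PrI (T ^ (K + 1)) (T ^ (K + 1 + 1))) := by
      rw [disjoint_left]
      intro p hp hp'
      rw [mem_PrI] at hp hp'
      exact absurd hp.2.2 (not_le.2 hp'.2.1)
    rw [hun, sum_union hdis]
    have hb := block C hC0 hA T hT (K + 1) (by omega)
    have he : Real.exp (-((K + 1 : ℕ) : ℝ)) * 2 ≤ Real.exp (-(K : ℝ)) := by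
      have : Real.exp (-(K : ℝ)) = Real.exp (-((K + 1 : ℕ) : ℝ)) * Real.exp 1 := by
        rw [← Real.exp_add]
        congr 1
        push_cast
        ring
      rw [this]
      apply mul_le_mul_of_nonneg_left _ (Real.exp_pos _).le
      have := Real.exp_one_gt_d9
      linarith
    have h1C : 0 ≤ 2 + C := by linarith
    nlinarith [mul_nonneg h1C (by linarith : (0 : ℝ) ≤ Real.exp (-(K : ℝ)) -
      Real.exp (-((K + 1 : ℕ) : ℝ)) * 2)]

end Cut

open Cut

/-- As `smooth_cut` (Lib_MP_f1a94e_aq/ZSmooth.lean, for `p = 1 mod 4`) for all primes: `0 ≤ 1 - p^(-1/log T) ≤ log p / log T` and `mert_up` for `p ≤ T`; for `p > T`: `∑_(T^(2^i) < p ≤ T^(2^(i+1))) 1/p ≤ C` (`Lr_bounds`), `p^(-1/log T) ≤ exp (-2^i)` there. -/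
theorem cut_all : ∃ C : ℝ, 0 < C ∧ ∀ T : ℝ, 3 ≤ T → ∀ f : ℕ → ℂ, (∀ p, ‖f p‖ ≤ 1) →
    ‖∑ p ∈ PrI 1 T, f p / (p : ℂ) - ∑' p : Nat.Primes, f (p : ℕ) * (((p : ℕ) : ℂ) ^ (-((1 + 1 / Real.log T : ℝ) : ℂ)))‖ ≤ C := by
  classical
  obtain ⟨C, hC, hA⟩ := mert_up
  refine ⟨(1 + C) + (2 + C), by linarith, fun T hT f hf => ?_⟩
  have hL := one_le_log hT
  set L := Real.log T with hLdef
  have hL0 : 0 < L := by linarith
  have hδ : 0 < 1 / L := by positivity
  have hT1 : 1 ≤ T := by linarith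
  set a : ℕ → ℂ := fun n => if n.Prime then f n * ((n : ℂ) ^ (-((1 + 1 / L : ℝ) : ℂ))) else 0 with ha
  have htsum : ∑' p : Nat.Primes, f (p : ℕ) * (((p : ℕ) : ℂ) ^ (-((1 + 1 / L : ℝ) : ℂ))) = ∑' n, a n := by
    have h1 := tsum_subtype {n : ℕ | n.Prime} (fun n : ℕ => f n * ((n : ℂ) ^ (-((1 + 1 / L : ℝ) : ℂ))))
    have h2 : ∑' n, a n = ∑' n, Set.indicator {n : ℕ | n.Prime}
        (fun n : ℕ => f n * ((n : ℂ) ^ (-((1 + 1 / L : ℝ) : ℂ)))) n := by
      apply tsum_congr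
      intro n
      simp only [ha, Set.indicator_apply]
      rfl
    rw [h2]
    exact h1
  have hav : ∀ p ∈ PrI 1 T, a p = f p * ((wt L p : ℝ) : ℂ) := by
    intro p hp
    have hp1 := (mem_PrI.1 hp).1
    simp only [ha, hp1, if_true]
    rw [cpow_eq hp1.pos]
  have han : ∀ n, ‖a n‖ ≤ 1 / (n : ℝ) ^ (1 + 1 / L) := by
    intro n
    simp only [ha]
    split_ifs with hn
    · rw [norm_mul, cpow_eq hn.pos, Complex.norm_real, Real.norm_of_nonneg (wt_nonneg L n), ← wt_eq hn.pos,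
        Real.rpow_neg (Nat.cast_nonneg _), one_div ((n : ℝ) ^ (1 + 1 / L))]
      exact mul_le_of_le_one_left (by positivity) (hf n)
    · rw [norm_zero]
      positivity
  have hsum : Summable a :=
    Summable.of_norm_bounded (Real.summable_one_div_nat_rpow.mpr (by linarith)) han
  have hfirst : ‖∑ p ∈ PrI 1 T, f p / (p : ℂ) - ∑ p ∈ PrI 1 T, a p‖ ≤ 1 + C := by
    rw [← sum_sub_distrib]
    calc ‖∑ p ∈ PrI 1 T, (f p / (p : ℂ) - a p)‖
        ≤ ∑ p ∈ PrI 1 T, ‖f p / (p : ℂ) - a p‖ := norm_sum_le _ _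
      _ ≤ ∑ p ∈ PrI 1 T, (1 / L) * (Real.log p / p) := by
          apply sum_le_sum
          intro p hp
          rw [hav p hp]
          rw [mem_PrI] at hp
          have hp0 : (0 : ℝ) < p := by exact_mod_cast hp.1.pos
          have hlog := Real.log_nonneg hp.2.1.le
          have e2 : f p / (p : ℂ) - f p * ((wt L p : ℝ) : ℂ) =
              f p * (((1 / (p : ℝ) * (1 - Real.exp (-(Real.log p / L))) : ℝ)) : ℂ) := by
            unfold wt
            push_cast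
            ring
          have h1 : 1 - Real.log p / L ≤ Real.exp (-(Real.log p / L)) := by
            have := Real.add_one_le_exp (-(Real.log p / L))
            linarith
          have h2 : Real.exp (-(Real.log p / L)) ≤ 1 := by
            rw [Real.exp_le_one_iff]
            have : 0 ≤ Real.log p / L := by positivity
            linarith
          have h3 : 0 ≤ 1 / (p : ℝ) * (1 - Real.exp (-(Real.log p / L))) :=
            mul_nonneg (by positivity) (by linarith)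
          rw [e2, norm_mul, Complex.norm_real, Real.norm_of_nonneg h3]
          calc ‖f p‖ * (1 / (p : ℝ) * (1 - Real.exp (-(Real.log p / L))))
              ≤ 1 * (1 / (p : ℝ) * (Real.log p / L)) := by
                apply mul_le_mul (hf p) _ h3 zero_le_one
                exact mul_le_mul_of_nonneg_left (by linarith) (by positivity)
            _ = (1 / L) * (Real.log p / p) := by ring
      _ = (1 / L) * ∑ p ∈ PrI 1 T, Real.log p / p := by rw [mul_sum]
      _ ≤ (1 / L) * (L + C) :=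
          mul_le_mul_of_nonneg_left (hA T (by linarith)) (by positivity)
      _ = 1 + C / L := by
          field_simp
      _ ≤ 1 + C := by
          have : C / L ≤ C := div_le_self hC.le hL
          linarith
  have hrange : ∀ x : ℝ, 0 ≤ x → ∑ p ∈ range (⌊x⌋₊ + 1), a p = ∑ p ∈ PrI 1 x, a p := by
    intro x hx
    symm
    apply sum_subset
    · intro p hp
      rw [mem_PrI] at hp
      rw [mem_range]
      have := Nat.le_floor hp.2.2
      omega
    · intro p hp hp'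
      rw [mem_range] at hp
      simp only [ha]
      rw [if_neg]
      intro hpr
      apply hp'
      rw [mem_PrI]
      refine ⟨hpr, by exact_mod_cast hpr.one_lt, ?_⟩
      exact (Nat.le_floor_iff hx).1 (by omega)
  have hsecond : ‖∑ p ∈ PrI 1 T, a p - ∑' n, a n‖ ≤ 2 + C := by
    have hT2 : Filter.Tendsto (fun K : ℕ => ⌊T ^ (K + 1)⌋₊ + 1) Filter.atTop Filter.atTop := by
      apply Filter.tendsto_atTop_mono (f := fun K : ℕ => K)
      · intro K
        have h1 : (K : ℝ) ≤ T ^ K := by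
          have h2 : (K : ℝ) ≤ (2 : ℝ) ^ K := by exact_mod_cast (Nat.lt_two_pow_self (n := K)).le
          exact h2.trans (pow_le_pow_left₀ (by norm_num) (by linarith) K)
        have h2 : T ^ K ≤ T ^ (K + 1) := pow_le_pow_right₀ hT1 (by omega)
        have h3 : K ≤ ⌊T ^ (K + 1)⌋₊ := Nat.le_floor (h1.trans h2)
        omega
      · exact Filter.tendsto_id
    have hlim := (hsum.hasSum.tendsto_sum_nat.comp hT2)
    have hlim2 := (hlim.const_sub (∑ p ∈ PrI 1 T, a p)).norm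
    refine le_of_tendsto hlim2 (Filter.Eventually.of_forall fun K => ?_)
    simp only [Function.comp_apply]
    rw [hrange _ (by positivity)]
    have hTK : T ≤ T ^ (K + 1) := by
      calc T = T ^ 1 := (pow_one T).symm
        _ ≤ T ^ (K + 1) := pow_le_pow_right₀ hT1 (by omega)
    have hun : PrI 1 (T ^ (K + 1)) = PrI 1 T ∪ PrI T (T ^ (K + 1)) := by
      ext p
      simp only [mem_PrI, mem_union]
      constructor
      · rintro ⟨h1, h2, h3⟩
        by_cases h4 : (p : ℝ) ≤ T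
        · exact Or.inl ⟨h1, h2, h4⟩
        · exact Or.inr ⟨h1, not_le.1 h4, h3⟩
      · rintro (⟨h1, h2, h3⟩ | ⟨h1, h2, h3⟩)
        · exact ⟨h1, h2, h3.trans hTK⟩
        · exact ⟨h1, lt_of_le_of_lt hT1 h2, h3⟩
    have hdis : Disjoint (PrI 1 T) (PrI T (T ^ (K + 1))) := by
      rw [disjoint_left]
      intro p hp hp'
      rw [mem_PrI] at hp hp'
      exact absurd hp.2.2 (not_le.2 hp'.2.1)
    rw [hun, sum_union hdis, sub_add_cancel_left, norm_neg]
    calc ‖∑ p ∈ PrI T (T ^ (K + 1)), a p‖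
        ≤ ∑ p ∈ PrI T (T ^ (K + 1)), ‖a p‖ := norm_sum_le _ _
      _ ≤ ∑ p ∈ PrI T (T ^ (K + 1)), wt L p := by
          apply sum_le_sum
          intro p hp
          rw [mem_PrI] at hp
          refine (han p).trans ?_
          rw [← wt_eq hp.1.pos, Real.rpow_neg (Nat.cast_nonneg _), one_div]
      _ ≤ (2 + C) * (1 - Real.exp (-(K : ℝ))) := blocks C hC.le hA T hT K
      _ ≤ 2 + C := by
          have := Real.exp_pos (-(K : ℝ))
          nlinarith
  rw [htsum]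
  calc ‖∑ p ∈ PrI 1 T, f p / (p : ℂ) - ∑' n, a n‖
      = ‖(∑ p ∈ PrI 1 T, f p / (p : ℂ) - ∑ p ∈ PrI 1 T, a p) + (∑ p ∈ PrI 1 T, a p - ∑' n, a n)‖ := by
        ring_nf
    _ ≤ _ := norm_add_le _ _
    _ ≤ _ := add_le_add hfirst hsecond

end Pool.Agent.SplI

end

/-! ### from `Lib_MP_92ef0c_spi.Near` -/

section

/-!
# Piece I-NEAR: bounded height
-/

set_option autoImplicit false

namespace Pool.Agent.SplI

open Finset

private theorem near_split (f : ℕ → ℂ) {P Q : ℝ} (hP : 1 ≤ P) (hPQ : P ≤ Q) :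
    ∑ p ∈ PrI P Q, f p = ∑ p ∈ PrI 1 Q, f p - ∑ p ∈ PrI 1 P, f p := by
  classical
  have h1 : PrI 1 P ⊆ PrI 1 Q := by
    intro p hp
    rw [mem_PrI] at hp ⊢
    exact ⟨hp.1, hp.2.1, hp.2.2.trans hPQ⟩
  have h2 : PrI P Q = PrI 1 Q \ PrI 1 P := by
    ext p
    rw [mem_sdiff, mem_PrI, mem_PrI, mem_PrI]
    constructor
    · rintro ⟨a, b, c⟩
      exact ⟨⟨a, by linarith, c⟩, fun h => by linarith [h.2.2]⟩
    · rintro ⟨⟨a, b, c⟩, d⟩
      refine ⟨a, ?_, c⟩
      by_contra h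
      exact d ⟨a, b, not_lt.1 h⟩
  rw [h2, ← sum_sdiff h1]
  ring

private theorem near_term (p : Nat.Primes) (u : ℂ) (δ t : ℝ) :
    u * et t (p : ℕ) * (((p : ℕ) : ℂ) ^ (-((1 + δ : ℝ) : ℂ))) =
      u * ((p : ℕ) : ℂ) ^ (-((1 + δ : ℝ) + (t : ℂ) * Complex.I)) := by
  have hp : (((p : ℕ) : ℂ)) ≠ 0 := by exact_mod_cast p.2.ne_zero
  have h1 : Complex.log (((p : ℕ) : ℂ)) = ((Real.log (p : ℕ) : ℝ) : ℂ) := by
    rw [Complex.natCast_log]
  rw [mul_assoc]
  congr 1
  unfold et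
  rw [Complex.cpow_def_of_ne_zero hp, Complex.cpow_def_of_ne_zero hp, h1, ← Complex.exp_add]
  congr 1
  push_cast
  ring

private theorem near_one_log {T : ℝ} (hT : 3 ≤ T) : 1 ≤ Real.log T := by
  rw [Real.le_log_iff_exp_le (by linarith)]
  have := Real.exp_one_lt_d9
  linarith

/-- the difference of the pole terms -/
private theorem near_lam {a b t : ℝ} (hb : 0 < b) (hab : b ≤ a) :
    0 ≤ Real.log (1 / ‖(b : ℂ) + (t : ℂ) * Complex.I‖) -
        Real.log (1 / ‖(a : ℂ) + (t : ℂ) * Complex.I‖) ∧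
      Real.log (1 / ‖(b : ℂ) + (t : ℂ) * Complex.I‖) -
        Real.log (1 / ‖(a : ℂ) + (t : ℂ) * Complex.I‖) ≤ Real.log a - Real.log b := by
  have ha : 0 < a := by linarith
  have hn : ∀ x : ℝ, ‖(x : ℂ) + (t : ℂ) * Complex.I‖ = Real.sqrt (x ^ 2 + t ^ 2) := by
    intro x
    exact Complex.norm_add_mul_I x t
  have hpb : 0 < b ^ 2 + t ^ 2 := by positivity
  have hpa : 0 < a ^ 2 + t ^ 2 := by positivity
  rw [hn, hn, one_div, one_div, Real.log_inv, Real.log_inv, Real.log_sqrt hpb.le,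
    Real.log_sqrt hpa.le]
  constructor
  · have h1 : Real.log (b ^ 2 + t ^ 2) ≤ Real.log (a ^ 2 + t ^ 2) := by
      apply Real.log_le_log hpb
      nlinarith
    linarith
  · have h2 : (a ^ 2 + t ^ 2) * b ^ 2 ≤ a ^ 2 * (b ^ 2 + t ^ 2) := by
      have : t ^ 2 * b ^ 2 ≤ t ^ 2 * a ^ 2 := by
        apply mul_le_mul_of_nonneg_left _ (sq_nonneg t)
        nlinarith
      nlinarith
    have h3 := Real.log_le_log (by positivity) h2
    rw [Real.log_mul hpa.ne' (by positivity), Real.log_mul (by positivity) hpb.ne',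
      Real.log_pow, Real.log_pow] at h3
    push_cast at h3
    linarith

/-- `cut_all` (with `f p = χ(p) p^(-iτ)`) and `charSum` (Lib_MP_f1a94e_eq/Np.lean) with `δ = 1 / log T`: `∑_(p ≤ T) χ(p) p^(-1-iτ) = [χ = 1] log (1 / |1/log T + iτ|) + O(1)`, uniformly for `|τ| ≤ 1`. Difference for `T = Q` and `T = P`: if `χ = 1` it is `λ + O(1)` with `0 ≤ λ = log (|1/log P + iτ| / |1/log Q + iτ|) ≤ log log Q - log log P`. So
`Re (z ∑_(P < p ≤ Q) χ(p) p^(-1-iτ)) ≤ max 0 (Re z) (log log Q - log log P) + C`, and `Re z < 1`. (`et τ p = p^(-iτ)`.) -/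
theorem near_i (z : ℂ) (hz : ‖z‖ = 1) (hz1 : z ≠ 1) (M : ℕ) [NeZero M] (χ : DirichletCharacter ℂ M) : ∃ c C : ℝ, 0 < c ∧ ∀ P Q : ℝ, 3 ≤ P → P ≤ Q →
    ∀ t : ℝ, |t| ≤ 1 → c * Lr P Q - C ≤ ∑ p ∈ PrI P Q, (1 - (z * χ ((p : ℕ) : ZMod M) * et t p).re) / (p : ℝ) := by
  classical
  obtain ⟨C0, hC0, hcut⟩ := cut_all
  obtain ⟨C1, hC1⟩ := Pool.Agent.OmEq.NpP.charSum M χ 1 one_pos
  obtain ⟨C2, hC2, hLr⟩ := Lr_bounds
  have hzre : z.re < 1 := by
    have h1 : z.re ≤ 1 := hz ▸ Complex.re_le_norm z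
    rcases h1.lt_or_eq with h | h
    · exact h
    · exfalso
      apply hz1
      have h2 : z.re ^ 2 + z.im ^ 2 = 1 := by
        have := Complex.sq_norm z
        rw [hz, Complex.normSq_apply] at this
        nlinarith
      have h3 : z.im = 0 := by
        have : z.im ^ 2 = 0 := by rw [h] at h2; linarith
        exact pow_eq_zero_iff (by norm_num) |>.1 this
      apply Complex.ext
      · simpa using h
      · simpa using h3
  set m : ℝ := max 0 z.re with hm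
  have hm0 : 0 ≤ m := le_max_left _ _
  have hm1 : m < 1 := max_lt one_pos hzre
  refine ⟨1 - m, C2 + 2 * (C0 + C1), by linarith, fun P Q hP hPQ t ht => ?_⟩
  have hQ : 3 ≤ Q := hP.trans hPQ
  set f : ℕ → ℂ := fun p => χ ((p : ℕ) : ZMod M) * et t p with hf
  have hf1 : ∀ p, ‖f p‖ ≤ 1 := by
    intro p
    rw [hf]
    simp only
    rw [norm_mul, norm_et, mul_one]
    exact χ.norm_le_one _
  have key : ∀ T : ℝ, 3 ≤ T →
      ‖∑ p ∈ PrI 1 T, f p / (p : ℂ) -
        (((if χ = 1 then (1 : ℝ) else 0) *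
          Real.log (1 / ‖((1 / Real.log T : ℝ) : ℂ) + (t : ℂ) * Complex.I‖) : ℝ) : ℂ)‖ ≤ C0 + C1 := by
    intro T hT
    have hL := near_one_log hT
    have h1 := hcut T hT f hf1
    have h2 := hC1 (1 / Real.log T) t (by positivity) (by
      rw [div_le_one (by linarith)]; exact hL) ht
    have h3 : ∑' p : Nat.Primes, f (p : ℕ) * (((p : ℕ) : ℂ) ^ (-((1 + 1 / Real.log T : ℝ) : ℂ))) =
        ∑' p : Nat.Primes, χ (((p : ℕ) : ZMod M)) * ((p : ℕ) : ℂ) ^
          (-((1 + (1 / Real.log T) : ℝ) + (t : ℂ) * Complex.I)) := by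
      refine tsum_congr fun p => ?_
      exact near_term p (χ (((p : ℕ) : ZMod M))) (1 / Real.log T) t
    rw [h3] at h1
    calc _ = ‖(∑ p ∈ PrI 1 T, f p / (p : ℂ) - ∑' p : Nat.Primes, χ (((p : ℕ) : ZMod M)) *
          ((p : ℕ) : ℂ) ^ (-((1 + (1 / Real.log T) : ℝ) + (t : ℂ) * Complex.I))) +
          ((∑' p : Nat.Primes, χ (((p : ℕ) : ZMod M)) *
          ((p : ℕ) : ℂ) ^ (-((1 + (1 / Real.log T) : ℝ) + (t : ℂ) * Complex.I))) -
          (((if χ = 1 then (1 : ℝ) else 0) *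
          Real.log (1 / ‖((1 / Real.log T : ℝ) : ℂ) + (t : ℂ) * Complex.I‖) : ℝ) : ℂ))‖ := by
          congr 1
          ring
      _ ≤ _ := (norm_add_le _ _).trans (add_le_add h1 h2)
  have kQ := key Q hQ
  have kP := key P hP
  have hLP := near_one_log hP
  have hLQ := near_one_log hQ
  have hLPQ : Real.log P ≤ Real.log Q := Real.log_le_log (by linarith) hPQ
  obtain ⟨l0, l1⟩ := near_lam (a := 1 / Real.log P) (b := 1 / Real.log Q) (t := t)
    (by positivity) (one_div_le_one_div_of_le (by linarith) hLPQ)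
  have hlog : Real.log (1 / Real.log P) - Real.log (1 / Real.log Q) =
      Real.log (Real.log Q) - Real.log (Real.log P) := by
    rw [one_div, one_div, Real.log_inv, Real.log_inv]
    ring
  rw [hlog] at l1
  set lam : ℝ := Real.log (1 / ‖((1 / Real.log Q : ℝ) : ℂ) + (t : ℂ) * Complex.I‖) -
    Real.log (1 / ‖((1 / Real.log P : ℝ) : ℂ) + (t : ℂ) * Complex.I‖) with hlam
  set e : ℝ := if χ = 1 then (1 : ℝ) else 0 with he
  have he01 : 0 ≤ e ∧ e ≤ 1 := by
    rw [he]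
    split_ifs <;> constructor <;> norm_num
  have hdiff : ‖∑ p ∈ PrI P Q, f p / (p : ℂ) - ((e * lam : ℝ) : ℂ)‖ ≤ 2 * (C0 + C1) := by
    rw [near_split (fun p => f p / (p : ℂ)) (by linarith) hPQ, hlam]
    have := norm_sub_le_of_le kQ kP
    refine le_trans (le_of_eq ?_) (this.trans (by linarith))
    congr 1
    push_cast
    ring
  have hre : (z * ∑ p ∈ PrI P Q, f p / (p : ℂ)).re ≤ m * (Lr P Q + C2) + 2 * (C0 + C1) := by
    have h1 : z * ∑ p ∈ PrI P Q, f p / (p : ℂ) = ((e * lam : ℝ) : ℂ) * z +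
        z * (∑ p ∈ PrI P Q, f p / (p : ℂ) - ((e * lam : ℝ) : ℂ)) := by ring
    rw [h1, Complex.add_re, Complex.re_ofReal_mul]
    have h2 : (z * (∑ p ∈ PrI P Q, f p / (p : ℂ) - ((e * lam : ℝ) : ℂ))).re ≤ 2 * (C0 + C1) := by
      refine (Complex.re_le_norm _).trans ?_
      rw [norm_mul, hz, one_mul]
      exact hdiff
    have hb := (abs_le.1 (hLr P Q (by linarith) hPQ)).1
    have h3 : e * lam * z.re ≤ m * (Lr P Q + C2) := by
      have h4 : e * lam * z.re ≤ e * lam * m :=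
        mul_le_mul_of_nonneg_left (le_max_right _ _) (mul_nonneg he01.1 l0)
      have h5 : e * lam ≤ lam := by nlinarith [he01.1, he01.2]
      have h6 : e * lam * m ≤ lam * m := mul_le_mul_of_nonneg_right h5 hm0
      have h7 : lam * m ≤ (Lr P Q + C2) * m := mul_le_mul_of_nonneg_right (by linarith) hm0
      linarith
    linarith
  have hsum : ∑ p ∈ PrI P Q, (1 - (z * χ ((p : ℕ) : ZMod M) * et t p).re) / (p : ℝ) =
      Lr P Q - (z * ∑ p ∈ PrI P Q, f p / (p : ℂ)).re := by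
    unfold Lr
    rw [mul_sum, Complex.re_sum, ← sum_sub_distrib]
    refine sum_congr rfl fun p _ => ?_
    have : z * (f p / (p : ℂ)) = (z * χ ((p : ℕ) : ZMod M) * et t p) / ((p : ℝ) : ℂ) := by
      rw [hf]
      push_cast
      ring
    rw [this, Complex.div_ofReal_re]
    ring
  rw [hsum]
  have hmC : m * C2 ≤ C2 := by nlinarith
  nlinarith

end Pool.Agent.SplI

end

/-! ### from `Lib_MP_92ef0c_sp.MertS` -/

section

/-!
# Mertens sums over all primes
-/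

set_option autoImplicit false

namespace Pool.Agent.Spl

open Finset Pool.Agent.GaussMR Pool.Agent.OmAll Pool.Agent.OmEq

private theorem ms_log : ∃ C : ℝ, ∀ x : ℝ, 2 ≤ x →
    |∑ p ∈ (Finset.Icc 1 ⌊x⌋₊).filter (fun p => p.Prime), Real.log p / p - Real.log x| ≤ C := by
  obtain ⟨C1, h1⟩ := Pool.Agent.GaussMR.mert_one
  obtain ⟨C3, h3⟩ := Pool.Agent.GaussMR.mertensA_powers
  refine ⟨C1 + C3 + Real.log 2, fun x hx => ?_⟩
  set N := ⌊x⌋₊ with hN
  have hN1 : 1 ≤ N := by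
    rw [hN, Nat.one_le_floor_iff]
    linarith
  have hNpos : (0 : ℝ) < N := by exact_mod_cast hN1
  have k1 := h1 N hN1
  have k3 := h3 N
  set S1 := ∑ n ∈ Finset.Icc 1 N, ArithmeticFunction.vonMangoldt n / (n : ℝ) with hS1
  set T := ∑ n ∈ Finset.Icc 1 N,
    (if n.Prime then 0 else ArithmeticFunction.vonMangoldt n) / (n : ℝ) with hT
  set A := ∑ p ∈ (Finset.Icc 1 N).filter (fun p => p.Prime), Real.log p / p with hA
  have hlog : |Real.log N - Real.log x| ≤ Real.log 2 := by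
    have a1 : (N : ℝ) ≤ x := Nat.floor_le (by linarith)
    have a2 : x ≤ 2 * N := by
      have := Nat.lt_floor_add_one x
      rw [← hN] at this
      have : (1 : ℝ) ≤ N := by exact_mod_cast hN1
      linarith
    have b1 := Real.log_le_log hNpos a1
    have b2 := Real.log_le_log (by linarith) a2
    rw [Real.log_mul (by norm_num) hNpos.ne'] at b2
    rw [abs_le]
    constructor <;> linarith [Real.log_nonneg (by norm_num : (1 : ℝ) ≤ 2)]
  have hT0 : 0 ≤ T := by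
    rw [hT]
    refine Finset.sum_nonneg fun n _ => ?_
    split_ifs
    · simp
    · exact div_nonneg ArithmeticFunction.vonMangoldt_nonneg n.cast_nonneg
  have hS : S1 = A + T := by
    rw [hS1, hA, hT, Finset.sum_filter, ← Finset.sum_add_distrib]
    refine Finset.sum_congr rfl fun n _ => ?_
    by_cases hp : n.Prime
    · rw [if_pos hp, if_pos hp, zero_div, add_zero, ArithmeticFunction.vonMangoldt_apply_prime hp]
    · rw [if_neg hp, if_neg hp, zero_add]
  rw [abs_le] at k1 hlog ⊢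
  constructor <;> linarith [k1.1, k1.2, hlog.1, hlog.2]

open MeasureTheory in
/-- partial summation from `ms_log` -/
private theorem ms_sum : ∃ C : ℝ, ∀ x : ℝ, 2 ≤ x →
    |∑ p ∈ (Finset.Icc 1 ⌊x⌋₊).filter (fun p => p.Prime), (1 : ℝ) / p -
      Real.log (Real.log x)| ≤ C := by
  classical
  obtain ⟨C, hC⟩ := ms_log
  have hC0 : 0 ≤ C := (abs_nonneg _).trans (hC 2 le_rfl)
  have hl2 : 0 < Real.log 2 := Real.log_pos one_lt_two
  let c : ℕ → ℝ := fun n => if n.Prime then Real.log n / n else 0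
  have hc0 : c 0 = 0 := by simp [c]
  have hc1 : c 1 = 0 := by simp [c, Nat.not_prime_one]
  have hA : ∀ t : ℝ, ∑ k ∈ Finset.Icc 0 ⌊t⌋₊, c k =
      ∑ p ∈ (Finset.Icc 1 ⌊t⌋₊).filter (fun p => p.Prime), Real.log p / p := by
    intro t
    rw [Finset.sum_filter]
    symm
    refine Finset.sum_subset ?_ ?_
    · intro k hk
      rw [Finset.mem_Icc] at hk ⊢
      exact ⟨Nat.zero_le _, hk.2⟩
    · intro k hk hk'
      have h0 : k = 0 := by
        rw [Finset.mem_Icc] at hk hk'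
        omega
      subst h0
      simp
  let f : ℝ → ℝ := fun t => (Real.log t)⁻¹
  have hlogpos : ∀ t : ℝ, 2 ≤ t → 0 < Real.log t := fun t ht => Real.log_pos (by linarith)
  have hderiv : ∀ t : ℝ, 2 ≤ t → HasDerivAt f (-(t⁻¹) / (Real.log t) ^ 2) t := by
    intro t ht
    exact (Real.hasDerivAt_log (by linarith : t ≠ 0)).inv (hlogpos t ht).ne'
  have hfd : ∀ t : ℝ, 2 ≤ t → deriv f t = -(t⁻¹) / (Real.log t) ^ 2 := fun t ht =>
    (hderiv t ht).deriv
  have hcont : ∀ b : ℝ, ContinuousOn (fun t : ℝ => -(t⁻¹) / (Real.log t) ^ 2) (Set.Icc 2 b) := by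
    intro b
    refine ContinuousOn.div (ContinuousOn.neg (ContinuousOn.inv₀ continuousOn_id ?_)) ?_ ?_
    · intro t ht; have := ht.1; exact (by linarith : t ≠ 0)
    · refine ContinuousOn.pow (ContinuousOn.log continuousOn_id ?_) 2
      intro t ht; have := ht.1; exact (by linarith : t ≠ 0)
    · intro t ht; exact pow_ne_zero 2 (hlogpos t ht.1).ne'
  have hint : ∀ b : ℝ, IntegrableOn (deriv f) (Set.Icc 2 b) := by
    intro b
    refine IntegrableOn.congr_fun ((hcont b).integrableOn_Icc) ?_ measurableSet_Icc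
    intro t ht
    exact (hfd t ht.1).symm
  refine ⟨1 + C / Real.log 2 + C / Real.log 2 + |Real.log (Real.log 2)|, ?_⟩
  intro x hx
  have hlx := hlogpos x hx
  have hAbel := sum_mul_eq_sub_integral_mul₁ c (f := f) hc0 hc1 x
    (fun t ht => (hderiv t ht.1).differentiableAt) (hint x)
  have hL : ∑ k ∈ Finset.Icc 0 ⌊x⌋₊, f k * c k =
      ∑ p ∈ (Finset.Icc 1 ⌊x⌋₊).filter (fun p => p.Prime), (1 : ℝ) / p := by
    rw [Finset.sum_filter]
    symm
    refine Finset.sum_subset_zero_on_sdiff (f := fun a : ℕ => if a.Prime then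
      (1 : ℝ) / a else 0) (g := fun k : ℕ => f k * c k) ?_ ?_ ?_
    · intro k hk
      rw [Finset.mem_Icc] at hk ⊢
      exact ⟨Nat.zero_le _, hk.2⟩
    · intro k hk
      rw [Finset.mem_sdiff, Finset.mem_Icc, Finset.mem_Icc] at hk
      have h0 : k = 0 := by omega
      subst h0
      simp [c]
    · intro k hk
      rw [Finset.mem_Icc] at hk
      simp only [c, f]
      split_ifs with hp
      · have h2 : (2 : ℝ) ≤ k := by exact_mod_cast hp.two_le
        have h3 := (hlogpos k h2).ne'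
        field_simp
      · simp
  have hAint : IntegrableOn (fun t => deriv f t * ∑ k ∈ Finset.Icc 0 ⌊t⌋₊, c k) (Set.Ioc 2 x) :=
    (integrableOn_mul_sum_Icc c (by norm_num : (0 : ℝ) ≤ 2) (hint x)).mono_set
      Set.Ioc_subset_Icc_self
  have hfint : IntegrableOn (deriv f) (Set.Ioc 2 x) := (hint x).mono_set Set.Ioc_subset_Icc_self
  have hgcont : ContinuousOn (fun t : ℝ => (t⁻¹) / Real.log t) (Set.Icc 2 x) := by
    refine ContinuousOn.div (ContinuousOn.inv₀ continuousOn_id ?_) ?_ ?_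
    · intro t ht; have := ht.1; exact (by linarith : t ≠ 0)
    · refine ContinuousOn.log continuousOn_id ?_
      intro t ht; have := ht.1; exact (by linarith : t ≠ 0)
    · intro t ht; exact (hlogpos t ht.1).ne'
  have hgint : IntegrableOn (fun t : ℝ => (t⁻¹) / Real.log t) (Set.Ioc 2 x) :=
    hgcont.integrableOn_Icc.mono_set Set.Ioc_subset_Icc_self
  have hgval : ∫ t in Set.Ioc 2 x, (t⁻¹) / Real.log t =
      Real.log (Real.log x) - Real.log (Real.log 2) := by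
    rw [← intervalIntegral.integral_of_le hx]
    refine intervalIntegral.integral_eq_sub_of_hasDerivAt_of_le
      (f := fun t => Real.log (Real.log t)) (f' := fun t : ℝ => (t⁻¹) / Real.log t) hx ?_ ?_ ?_
    · refine ContinuousOn.log (ContinuousOn.log continuousOn_id ?_) ?_
      · intro t ht; have := ht.1; exact (by linarith : t ≠ 0)
      · intro t ht; exact (hlogpos t ht.1).ne'
    · intro t ht
      exact (Real.hasDerivAt_log (by have := ht.1; linarith : t ≠ 0)).log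
        (hlogpos t ht.1.le).ne'
    · rw [intervalIntegrable_iff_integrableOn_Icc_of_le hx]
      exact hgcont.integrableOn_Icc
  have hfval : ∫ t in Set.Ioc 2 x, deriv f t = (Real.log x)⁻¹ - (Real.log 2)⁻¹ := by
    rw [← intervalIntegral.integral_of_le hx]
    refine intervalIntegral.integral_eq_sub_of_hasDerivAt_of_le
      (f := f) (f' := deriv f) hx ?_ ?_ ?_
    · intro t ht
      exact (hderiv t ht.1).continuousAt.continuousWithinAt
    · intro t ht
      have := hderiv t ht.1.le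
      rw [hfd t ht.1.le]
      exact this
    · rw [intervalIntegrable_iff_integrableOn_Icc_of_le hx]
      exact hint x
  have hpt : ∀ t ∈ Set.Ioc (2 : ℝ) x,
      |deriv f t * ∑ k ∈ Finset.Icc 0 ⌊t⌋₊, c k - (-1 * ((t⁻¹) / Real.log t))| ≤
        -(C * deriv f t) := by
    intro t ht
    have ht2 : 2 ≤ t := ht.1.le
    have hlt := hlogpos t ht2
    have htp : 0 < t := by linarith
    have h1 := hC t ht2
    rw [← hA t] at h1
    have h2 : deriv f t ≤ 0 := by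
      rw [hfd t ht2]
      exact div_nonpos_of_nonpos_of_nonneg (by have := inv_pos.mpr htp; linarith) (by positivity)
    have h3 : (-1 * ((t⁻¹) / Real.log t)) = deriv f t * (Real.log t) := by
      rw [hfd t ht2]
      field_simp
    rw [h3, ← mul_sub, abs_mul, abs_of_nonpos h2]
    calc -deriv f t * |∑ k ∈ Finset.Icc 0 ⌊t⌋₊, c k - Real.log t|
        ≤ -deriv f t * C := mul_le_mul_of_nonneg_left h1 (by linarith)
      _ = -(C * deriv f t) := by ring
  have hI : |(∫ t in Set.Ioc 2 x, deriv f t * ∑ k ∈ Finset.Icc 0 ⌊t⌋₊, c k) -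
      (-1 * (Real.log (Real.log x) - Real.log (Real.log 2)))| ≤
      C * ((Real.log 2)⁻¹ - (Real.log x)⁻¹) := by
    rw [← hgval, ← integral_const_mul, ← integral_sub hAint (hgint.const_mul _)]
    calc |∫ t in Set.Ioc 2 x, (deriv f t * ∑ k ∈ Finset.Icc 0 ⌊t⌋₊, c k -
          -1 * ((t⁻¹) / Real.log t))|
        ≤ ∫ t in Set.Ioc 2 x, |deriv f t * ∑ k ∈ Finset.Icc 0 ⌊t⌋₊, c k -
          -1 * ((t⁻¹) / Real.log t)| := abs_integral_le_integral_abs
      _ ≤ ∫ t in Set.Ioc 2 x, -(C * deriv f t) := by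
          refine setIntegral_mono_on ?_ ?_ measurableSet_Ioc hpt
          · exact (hAint.sub (hgint.const_mul _)).abs
          · exact (hfint.const_mul C).neg
      _ = C * ((Real.log 2)⁻¹ - (Real.log x)⁻¹) := by
          rw [integral_neg, integral_const_mul, hfval]; ring
  have hE := hC x hx
  rw [← hA x] at hE
  rw [← hL, hAbel]
  have hfx : f x = (Real.log x)⁻¹ := rfl
  have h4 : |f x * ∑ k ∈ Finset.Icc 0 ⌊x⌋₊, c k - 1| ≤ C / Real.log 2 := by
    have h5 : f x * ∑ k ∈ Finset.Icc 0 ⌊x⌋₊, c k - 1 =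
        f x * (∑ k ∈ Finset.Icc 0 ⌊x⌋₊, c k - Real.log x) := by
      rw [hfx]; field_simp
    rw [h5, abs_mul, hfx, abs_of_pos (inv_pos.mpr hlx)]
    calc (Real.log x)⁻¹ * |∑ k ∈ Finset.Icc 0 ⌊x⌋₊, c k - Real.log x|
        ≤ (Real.log 2)⁻¹ * C := by
          refine mul_le_mul ?_ hE (abs_nonneg _) (inv_pos.mpr hl2).le
          exact inv_anti₀ hl2 (Real.log_le_log (by norm_num) hx)
      _ = C / Real.log 2 := by rw [div_eq_mul_inv]; ring
  have h6 : C * ((Real.log 2)⁻¹ - (Real.log x)⁻¹) ≤ C / Real.log 2 := by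
    rw [div_eq_mul_inv]
    refine mul_le_mul_of_nonneg_left ?_ hC0
    have := inv_pos.mpr hlx
    linarith
  have h7 := hI.trans h6
  have h8 := le_abs_self (Real.log (Real.log 2))
  have h9 := neg_abs_le (Real.log (Real.log 2))
  rw [abs_le] at h4 h7 ⊢
  constructor <;> linarith [h4.1, h4.2, h7.1, h7.2]

private theorem ms_mem {n p : ℕ} : p ∈ PP ∅ n ↔ p ≤ n ∧ p.Prime := by
  rw [mem_PP]
  simp

private theorem ms_two {n p : ℕ} (h : p ∈ PP ∅ n) : 2 ≤ p := (ms_mem.1 h).2.two_le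

private theorem ms_mono {m n : ℕ} (h : m ≤ n) : PP ∅ m ⊆ PP ∅ n := by
  intro p hp
  rw [ms_mem] at hp ⊢
  exact ⟨hp.1.trans h, hp.2⟩

private theorem ms_eq (n : ℕ) : PP ∅ n = (Finset.Icc 1 ⌊(n : ℝ)⌋₊).filter (fun p => p.Prime) := by
  ext p
  rw [ms_mem, mem_filter, mem_Icc, Nat.floor_natCast]
  constructor
  · rintro ⟨h1, h2⟩
    exact ⟨⟨h2.one_lt.le, h1⟩, h2⟩
  · rintro ⟨⟨-, h1⟩, h2⟩
    exact ⟨h1, h2⟩

private theorem ms_one_le {T : ℕ} (hT : 3 ≤ T) : 1 ≤ Real.log T := by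
  have h3 : (3 : ℝ) ≤ T := by exact_mod_cast hT
  rw [Real.le_log_iff_exp_le (by linarith)]
  have := Real.exp_one_lt_d9
  linarith

/-- the mass of the block `T^K < p ≤ T^(K+1)` -/
private theorem ms_block (C : ℝ) (hC0 : 0 ≤ C)
    (hA : ∀ n : ℕ, 2 ≤ n → ∑ p ∈ PP ∅ n, Real.log p / p ≤ Real.log n + C)
    (T : ℕ) (hT : 3 ≤ T) (K : ℕ) (hK : 1 ≤ K) :
    ∑ p ∈ PP ∅ (T ^ (K + 1)) \ PP ∅ (T ^ K), 1 / (p : ℝ) ^ (1 + 1 / Real.log T) ≤
      (2 + C) * Real.exp (-(K : ℝ)) := by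
  have hL := ms_one_le hT
  set L := Real.log T with hLdef
  have hK' : (1 : ℝ) ≤ K := by exact_mod_cast hK
  have hKL : 1 ≤ (K : ℝ) * L := by nlinarith
  have hT2 : 2 ≤ T ^ (K + 1) := by
    calc 2 ≤ T := by omega
      _ = T ^ 1 := (pow_one T).symm
      _ ≤ T ^ (K + 1) := Nat.pow_le_pow_right (by omega) (by omega)
  have h1 : ∀ p ∈ PP ∅ (T ^ (K + 1)) \ PP ∅ (T ^ K), 1 / (p : ℝ) ^ (1 + 1 / L) ≤
      Real.exp (-(K : ℝ)) / (K * L) * (Real.log p / p) := by
    intro p hp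
    rw [mem_sdiff] at hp
    obtain ⟨hp1, hp2⟩ := hp
    have hp5 := ms_two hp1
    rw [ms_mem] at hp1 hp2
    have hlt : T ^ K < p := by
      by_contra hc
      exact hp2 ⟨by omega, hp1.2⟩
    have hp0 : (0 : ℝ) < p := by exact_mod_cast (by omega : 0 < p)
    have hlog : (K : ℝ) * L ≤ Real.log p := by
      rw [hLdef, ← Real.log_pow]
      apply Real.log_le_log
      · have : (0 : ℝ) < T := by exact_mod_cast (by omega : 0 < T)
        positivity
      · exact_mod_cast hlt.le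
    have e1 : (p : ℝ) ^ (1 + 1 / L) = p * Real.exp (Real.log p / L) := by
      rw [Real.rpow_add hp0, Real.rpow_one, Real.rpow_def_of_pos hp0]
      congr 2
      ring
    have h2 : (K : ℝ) ≤ Real.log p / L := by
      rw [le_div_iff₀ (by linarith)]
      exact hlog
    have h3 : Real.exp (K : ℝ) ≤ Real.exp (Real.log p / L) := Real.exp_le_exp.mpr h2
    have h4 : 1 / (p * Real.exp (Real.log p / L)) ≤ 1 / (p * Real.exp (K : ℝ)) := by
      apply one_div_le_one_div_of_le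
      · positivity
      · exact mul_le_mul_of_nonneg_left h3 hp0.le
    rw [e1]
    refine h4.trans ?_
    have h5 : 1 / ((p : ℝ) * Real.exp (K : ℝ)) = Real.exp (-(K : ℝ)) / p := by
      rw [Real.exp_neg]
      field_simp
    have h6 : Real.exp (-(K : ℝ)) / (K * L) * (Real.log p / p) =
        Real.exp (-(K : ℝ)) / p * (Real.log p / (K * L)) := by
      field_simp
    rw [h5, h6]
    apply le_mul_of_one_le_right (by positivity)
    rw [one_le_div (by linarith)]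
    exact hlog
  calc ∑ p ∈ PP ∅ (T ^ (K + 1)) \ PP ∅ (T ^ K), 1 / (p : ℝ) ^ (1 + 1 / L)
      ≤ ∑ p ∈ PP ∅ (T ^ (K + 1)) \ PP ∅ (T ^ K),
          Real.exp (-(K : ℝ)) / (K * L) * (Real.log p / p) := sum_le_sum h1
    _ ≤ ∑ p ∈ PP ∅ (T ^ (K + 1)), Real.exp (-(K : ℝ)) / (K * L) * (Real.log p / p) := by
        apply sum_le_sum_of_subset_of_nonneg sdiff_subset
        intro p hp _
        have hp5 := ms_two hp
        have hp0 : (1 : ℝ) ≤ p := by exact_mod_cast (by omega : 1 ≤ p)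
        have := Real.log_nonneg hp0
        positivity
    _ = Real.exp (-(K : ℝ)) / (K * L) * ∑ p ∈ PP ∅ (T ^ (K + 1)), (Real.log p / p) := by
        rw [mul_sum]
    _ ≤ Real.exp (-(K : ℝ)) / (K * L) * (((K : ℝ) + 1) * L + C) := by
        apply mul_le_mul_of_nonneg_left _ (by positivity)
        have h7 := hA _ hT2
        have h8 : Real.log ((T ^ (K + 1) : ℕ) : ℝ) = ((K : ℝ) + 1) * L := by
          push_cast
          rw [Real.log_pow]
          push_cast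
          rfl
        rw [h8] at h7
        exact h7
    _ ≤ (2 + C) * Real.exp (-(K : ℝ)) := by
        have h9 : Real.exp (-(K : ℝ)) / (K * L) * (((K : ℝ) + 1) * L + C) =
          Real.exp (-(K : ℝ)) * ((((K : ℝ) + 1) * L + C) / (K * L)) := by
          field_simp
        rw [h9, mul_comm (2 + C)]
        apply mul_le_mul_of_nonneg_left _ (Real.exp_pos _).le
        rw [div_le_iff₀ (by linarith)]
        nlinarith [mul_nonneg hC0 (by linarith : (0 : ℝ) ≤ (K : ℝ) * L - 1),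
          mul_nonneg (by linarith : (0 : ℝ) ≤ (K : ℝ) - 1) (by linarith : (0 : ℝ) ≤ L)]

private theorem ms_blocks (C : ℝ) (hC0 : 0 ≤ C)
    (hA : ∀ n : ℕ, 2 ≤ n → ∑ p ∈ PP ∅ n, Real.log p / p ≤ Real.log n + C)
    (T : ℕ) (hT : 3 ≤ T) (K : ℕ) :
    ∑ p ∈ PP ∅ (T ^ (K + 1)) \ PP ∅ T, 1 / (p : ℝ) ^ (1 + 1 / Real.log T) ≤
      (2 + C) * (1 - Real.exp (-(K : ℝ))) := by
  induction K with
  | zero => simp
  | succ K ih =>
    have hsub : T ≤ T ^ (K + 1) := by
      calc T = T ^ 1 := (pow_one T).symm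
        _ ≤ T ^ (K + 1) := Nat.pow_le_pow_right (by omega) (by omega)
    have hsub2 : T ^ (K + 1) ≤ T ^ (K + 1 + 1) := Nat.pow_le_pow_right (by omega) (by omega)
    have hun : PP ∅ (T ^ (K + 1 + 1)) \ PP ∅ T =
        (PP ∅ (T ^ (K + 1)) \ PP ∅ T) ∪ (PP ∅ (T ^ (K + 1 + 1)) \ PP ∅ (T ^ (K + 1))) := by
      ext p
      simp only [mem_sdiff, mem_union]
      constructor
      · rintro ⟨h1, h2⟩
        by_cases h3 : p ∈ PP ∅ (T ^ (K + 1))
        · exact Or.inl ⟨h3, h2⟩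
        · exact Or.inr ⟨h1, h3⟩
      · rintro (⟨h1, h2⟩ | ⟨h1, h2⟩)
        · exact ⟨ms_mono hsub2 h1, h2⟩
        · exact ⟨h1, fun h3 => h2 (ms_mono hsub h3)⟩
    have hdis : Disjoint (PP ∅ (T ^ (K + 1)) \ PP ∅ T) (PP ∅ (T ^ (K + 1 + 1)) \ PP ∅ (T ^ (K + 1))) := by
      rw [disjoint_left]
      intro p hp hp'
      rw [mem_sdiff] at hp hp'
      exact hp'.2 hp.1
    rw [hun, sum_union hdis]
    have hb := ms_block C hC0 hA T hT (K + 1) (by omega)
    have he : Real.exp (-((K + 1 : ℕ) : ℝ)) * 2 ≤ Real.exp (-(K : ℝ)) := by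
      have : Real.exp (-(K : ℝ)) = Real.exp (-((K + 1 : ℕ) : ℝ)) * Real.exp 1 := by
        rw [← Real.exp_add]
        congr 1
        push_cast
        ring
      rw [this]
      apply mul_le_mul_of_nonneg_left _ (Real.exp_pos _).le
      have := Real.exp_one_gt_d9
      linarith
    have h1C : 0 ≤ 2 + C := by linarith
    nlinarith [mul_nonneg h1C (by linarith : (0 : ℝ) ≤ Real.exp (-(K : ℝ)) -
      Real.exp (-((K + 1 : ℕ) : ℝ)) * 2)]


/-- PROOF. `∑_(n ≤ T) Λ(n)/n = log T + O(1)` (`mert_one` in `Lib_MP_f1a94e_mr/MertensA.lean` or a neighbouring file; otherwise from `log T! = ∑ Λ(n) ⌊T/n⌋` and Stirling/`T log T - T`), and prime powers contribute `O(1)` (`mertensA_powers`). -/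
theorem mertSlog : ∃ C : ℝ, ∀ T : ℕ, 2 ≤ T → |∑ p ∈ PP ∅ T, Real.log p / p - Real.log T| ≤ C := by
  obtain ⟨C, hC⟩ := ms_log
  refine ⟨C, fun T hT => ?_⟩
  have h := hC T (by exact_mod_cast hT)
  rwa [← ms_eq] at h

/-- PROOF. Partial summation from `mertSlog`, as in `Lib_MP_f1a94e_mr/MertensB.lean`. -/
theorem mertS : ∃ C : ℝ, ∀ T : ℕ, 3 ≤ T → |∑ p ∈ PP ∅ T, (1 : ℝ) / p - Real.log (Real.log T)| ≤ C := by
  obtain ⟨C, hC⟩ := ms_sum
  refine ⟨C, fun T hT => ?_⟩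
  have h := hC T (by exact_mod_cast (by omega : 2 ≤ T))
  rwa [← ms_eq] at h

/-- PROOF. Version for all primes of `smooth_cut` in `Lib_MP_f1a94e_aq/ZSmooth.lean` (adapt it): for `p ≤ T`, `0 ≤ 1 - p^(-1/log T) ≤ log p / log T` and `mertSlog`; for `p > T` dyadic blocks `T^(2^i) < p ≤ T^(2^(i+1))`, `∑ 1/p ≤ log 2 + 2 C` (`mertS`), `p^(-1/log T) ≤ exp (-2^i)`. -/
theorem scut : ∃ C : ℝ, ∀ T : ℕ, 3 ≤ T → ∀ f : ℕ → ℝ, (∀ p, |f p| ≤ 1) →
    Summable (fun p : ℕ => if p.Prime then f p / (p : ℝ) ^ (1 + 1 / Real.log T) else 0) ∧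
    |∑ p ∈ PP ∅ T, f p / p - ∑' p : ℕ, (if p.Prime then f p / (p : ℝ) ^ (1 + 1 / Real.log T) else 0)| ≤ C := by
  obtain ⟨C, hC⟩ := mertSlog
  have hC0 : 0 ≤ C := (abs_nonneg _).trans (hC 2 le_rfl)
  have hA : ∀ n : ℕ, 2 ≤ n → ∑ p ∈ PP ∅ n, Real.log p / p ≤ Real.log n + C := by
    intro n hn
    have h1 := (abs_le.1 (hC n hn)).2
    linarith
  refine ⟨(1 + C) + (2 + C), fun T hT f hf => ?_⟩
  have hL := ms_one_le hT
  set L := Real.log T with hLdef
  have hδ : 0 < 1 / L := by positivity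
  have hsum : Summable (fun p : ℕ => if p.Prime then f p / (p : ℝ) ^ (1 + 1 / L)
      else 0) := by
    have h1 : Summable (fun p : ℕ => 1 / (p : ℝ) ^ (1 + 1 / L)) :=
      Real.summable_one_div_nat_rpow.mpr (by linarith)
    refine Summable.of_norm_bounded h1 (fun p => ?_)
    split_ifs
    · rw [norm_div, Real.norm_eq_abs, Real.norm_of_nonneg (by positivity)]
      exact div_le_div_of_nonneg_right (hf p) (by positivity)
    · rw [norm_zero]
      positivity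
  refine ⟨hsum, ?_⟩
  set a : ℕ → ℝ := fun p : ℕ => if p.Prime then f p / (p : ℝ) ^ (1 + 1 / L) else 0
    with ha
  have haPT : ∀ n : ℕ, ∑ p ∈ range (n + 1), a p = ∑ p ∈ PP ∅ n, f p / (p : ℝ) ^ (1 + 1 / L) := by
    intro n
    rw [PP, sdiff_empty, sum_filter]
  -- first part
  have hfirst : |∑ p ∈ PP ∅ T, f p / p - ∑ p ∈ PP ∅ T, f p / (p : ℝ) ^ (1 + 1 / L)| ≤ 1 + C := by
    rw [← sum_sub_distrib]
    calc |∑ p ∈ PP ∅ T, (f p / p - f p / (p : ℝ) ^ (1 + 1 / L))|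
        ≤ ∑ p ∈ PP ∅ T, |f p / p - f p / (p : ℝ) ^ (1 + 1 / L)| := abs_sum_le_sum_abs _ _
      _ ≤ ∑ p ∈ PP ∅ T, (1 / L) * (Real.log p / p) := by
          apply sum_le_sum
          intro p hp
          have hp5 := ms_two hp
          have hp0 : (0 : ℝ) < p := by exact_mod_cast (by omega : 0 < p)
          have hp1 : (1 : ℝ) ≤ p := by exact_mod_cast (by omega : 1 ≤ p)
          have hlog := Real.log_nonneg hp1
          have e1 : (p : ℝ) ^ (1 + 1 / L) = p * Real.exp (Real.log p / L) := by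
            rw [Real.rpow_add hp0, Real.rpow_one, Real.rpow_def_of_pos hp0]
            congr 2
            ring
          have e2 : f p / p - f p / (p : ℝ) ^ (1 + 1 / L) =
              f p * ((1 - Real.exp (-(Real.log p / L))) / p) := by
            rw [e1, Real.exp_neg]
            field_simp
          have h1 : 1 - Real.log p / L ≤ Real.exp (-(Real.log p / L)) := by
            have := Real.add_one_le_exp (-(Real.log p / L))
            linarith
          have h2 : Real.exp (-(Real.log p / L)) ≤ 1 := by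
            rw [Real.exp_le_one_iff]
            have : 0 ≤ Real.log p / L := by positivity
            linarith
          rw [e2, abs_mul, abs_of_nonneg (div_nonneg (by linarith) hp0.le)]
          calc |f p| * ((1 - Real.exp (-(Real.log p / L))) / p)
              ≤ 1 * ((Real.log p / L) / p) := by
                apply mul_le_mul (hf p) _ (div_nonneg (by linarith) hp0.le) zero_le_one
                exact div_le_div_of_nonneg_right (by linarith) hp0.le
            _ = (1 / L) * (Real.log p / p) := by ring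
      _ = (1 / L) * ∑ p ∈ PP ∅ T, Real.log p / p := by rw [mul_sum]
      _ ≤ (1 / L) * (L + C) :=
          mul_le_mul_of_nonneg_left (hA T (by omega)) (by positivity)
      _ = 1 + C / L := by
          have : L ≠ 0 := by linarith
          field_simp
      _ ≤ 1 + C := by
          have : C / L ≤ C := div_le_self hC0 hL
          linarith
  -- second part
  have hsecond : |∑ p ∈ PP ∅ T, f p / (p : ℝ) ^ (1 + 1 / L) - ∑' p : ℕ, a p| ≤ 2 + C := by
    have hT1 : Filter.Tendsto (fun K : ℕ => T ^ (K + 1) + 1) Filter.atTop Filter.atTop := by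
      apply Filter.tendsto_atTop_mono (f := fun K : ℕ => K)
      · intro K
        have : K < T ^ K := Nat.lt_pow_self (by omega)
        have : T ^ K ≤ T ^ (K + 1) := Nat.pow_le_pow_right (by omega) (by omega)
        omega
      · exact Filter.tendsto_id
    have hlim := (hsum.hasSum.tendsto_sum_nat.comp hT1)
    have hlim2 := (hlim.const_sub (∑ p ∈ PP ∅ T, f p / (p : ℝ) ^ (1 + 1 / L))).abs
    refine le_of_tendsto hlim2 (Filter.Eventually.of_forall fun K => ?_)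
    simp only [Function.comp_apply]
    rw [haPT]
    have hsub : PP ∅ T ⊆ PP ∅ (T ^ (K + 1)) := ms_mono (by
      calc T = T ^ 1 := (pow_one T).symm
        _ ≤ T ^ (K + 1) := Nat.pow_le_pow_right (by omega) (by omega))
    rw [← sum_sdiff hsub, sub_add_cancel_right, abs_neg]
    calc |∑ p ∈ PP ∅ (T ^ (K + 1)) \ PP ∅ T, f p / (p : ℝ) ^ (1 + 1 / L)|
        ≤ ∑ p ∈ PP ∅ (T ^ (K + 1)) \ PP ∅ T, |f p / (p : ℝ) ^ (1 + 1 / L)| := abs_sum_le_sum_abs _ _
      _ ≤ ∑ p ∈ PP ∅ (T ^ (K + 1)) \ PP ∅ T, 1 / (p : ℝ) ^ (1 + 1 / L) := by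
          apply sum_le_sum
          intro p _
          rw [abs_div, abs_of_nonneg (by positivity : (0 : ℝ) ≤ (p : ℝ) ^ (1 + 1 / L))]
          exact div_le_div_of_nonneg_right (hf p) (by positivity)
      _ ≤ (2 + C) * (1 - Real.exp (-(K : ℝ))) := ms_blocks C hC0 hA T hT K
      _ ≤ 2 + C := by
          have := Real.exp_pos (-(K : ℝ))
          nlinarith
  calc |∑ p ∈ PP ∅ T, f p / p - ∑' p : ℕ, a p|
      ≤ |∑ p ∈ PP ∅ T, f p / p - ∑ p ∈ PP ∅ T, f p / (p : ℝ) ^ (1 + 1 / L)| +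
        |∑ p ∈ PP ∅ T, f p / (p : ℝ) ^ (1 + 1 / L) - ∑' p : ℕ, a p| := abs_sub_le _ _ _
    _ ≤ _ := add_le_add hfirst hsecond

/-- PROOF. `1/p - As p = (3 p - 1)/(p^2 (p + 1)) ≤ 3/p^2`. -/
theorem As_bound (p : ℕ) (hp : 2 ≤ p) : 0 < As p ∧ As p ≤ 1 / p ∧ 1 / (p : ℝ) - As p ≤ 3 / (p : ℝ) ^ 2 ∧ 2 * As p ≤ 1 / 3 := by
  have hp2 : (2 : ℝ) ≤ p := by exact_mod_cast hp
  have hp0 : (0 : ℝ) < p := by linarith
  have hp1 : (0 : ℝ) < (p : ℝ) - 1 := by linarith
  refine ⟨?_, ?_, ?_, ?_⟩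
  · unfold As
    positivity
  · unfold As
    rw [div_le_div_iff₀ (by positivity) hp0]
    nlinarith [mul_pos hp0 hp0, mul_pos (mul_pos hp0 hp0) hp0]
  · unfold As
    have h1 : 1 / (p : ℝ) - ((p : ℝ) - 1) ^ 2 / ((p : ℝ) ^ 2 * (p + 1)) =
      (3 * (p : ℝ) - 1) / ((p : ℝ) ^ 2 * (p + 1)) := by
      field_simp
      ring
    rw [h1, div_le_div_iff₀ (by positivity) (by positivity)]
    nlinarith [mul_pos hp0 hp0]
  · unfold As
    rw [← mul_div_assoc, div_le_div_iff₀ (by positivity) (by norm_num)]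
    obtain ⟨q, hq⟩ : ∃ q : ℝ, q = (p : ℝ) - 2 := ⟨_, rfl⟩
    have hq0 : 0 ≤ q := by linarith
    have hpq : (p : ℝ) = q + 2 := by linarith
    rw [hpq]
    have h2 : 0 ≤ q ^ 3 + q ^ 2 + 4 * q + 6 := by positivity
    nlinarith

/-- PROOF. `mertS` and `As_bound`, `∑ 1/p^2` converges. (`As 2 = 1/12`, `As 3 = 1/9`, `As 5 = 8/75`, and `As p ≤ 1/p ≤ 1/7` for `p ≥ 7`; for `2 As ≤ 1/3`.) -/
theorem muS_bound : ∃ C : ℝ, ∀ T : ℕ, 3 ≤ T → |∑ p ∈ PP ∅ T, 2 * As p - 2 * Real.log (Real.log T)| ≤ C := by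
  obtain ⟨C, hC⟩ := mertS
  have hs : Summable (fun p : ℕ => 6 / (p : ℝ) ^ 2) := by
    have := (Real.summable_one_div_nat_pow (p := 2)).mpr (by norm_num)
    refine (this.mul_left 6).congr (fun p => ?_)
    ring
  refine ⟨2 * C + ∑' p : ℕ, 6 / (p : ℝ) ^ 2, fun T hT => ?_⟩
  have h1 := hC T hT
  have h2 : |∑ p ∈ PP ∅ T, 2 * As p - 2 * ∑ p ∈ PP ∅ T, (1 : ℝ) / p| ≤ ∑' p : ℕ, 6 / (p : ℝ) ^ 2 := by
    rw [mul_sum, ← sum_sub_distrib]
    calc |∑ p ∈ PP ∅ T, (2 * As p - 2 * (1 / (p : ℝ)))|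
        ≤ ∑ p ∈ PP ∅ T, |2 * As p - 2 * (1 / (p : ℝ))| := abs_sum_le_sum_abs _ _
      _ ≤ ∑ p ∈ PP ∅ T, 6 / (p : ℝ) ^ 2 := by
          apply sum_le_sum
          intro p hp
          obtain ⟨-, h4, h5, -⟩ := As_bound p (ms_two hp)
          have h6 : 6 / (p : ℝ) ^ 2 = 2 * (3 / (p : ℝ) ^ 2) := by ring
          rw [abs_le, h6]
          have h7 : 0 ≤ 3 / (p : ℝ) ^ 2 := by positivity
          constructor <;> linarith
      _ ≤ ∑' p : ℕ, 6 / (p : ℝ) ^ 2 := hs.sum_le_tsum _ (fun p _ => by positivity)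
  rw [abs_le] at h1 h2 ⊢
  constructor <;> linarith [h1.1, h1.2, h2.1, h2.2]

end Pool.Agent.Spl

end

/-! ### from `Lib_MP_92ef0c_sp.NpS` -/

section

/-!
# Prime sums of characters near the line 1
-/

set_option autoImplicit false

namespace Pool.Agent.Spl

open Finset Pool.Agent.GaussMR Pool.Agent.OmAll Pool.Agent.OmEq

namespace NpSP

open Pool.Agent.OmEq.NpP ZEuler

/-- the two bounds at once, `e` the multiplicity of the pole -/
theorem aux (N : ℕ) [NeZero N] (χ : DirichletCharacter ℂ N) (ω : ℂ) (hω : ‖ω‖ = 1) (E : Finset ℕ) :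
    NPS E (fun p => ω * χ ((p : ZMod N))) ((if χ = 1 then (1 : ℝ) else 0) * max 0 ω.re) := by
  classical
  intro B hB
  obtain ⟨C0, hC0⟩ := scut
  obtain ⟨C1, hC1⟩ := charSum N χ (2 * B) (by linarith)
  refine ⟨C0 + (E.card : ℝ) + C1 + 2 * Real.log (1 + 2 * B), ?_⟩
  intro T hT τ hτ0 hτB
  have hL := ZSm.one_le_logT hT
  set δ : ℝ := 1 / Real.log T with hδdef
  have hδ : 0 < δ := by positivity
  have hδ1 : δ ≤ 1 := by
    rw [hδdef, div_le_one (by linarith)]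
    exact hL
  -- the function
  set f : ℕ → ℝ := fun p => (ω * χ ((p : ZMod N)) *
    Complex.exp (-(2 * τ * Real.log p : ℝ) * Complex.I)).re with hf
  have hf1 : ∀ p, |f p| ≤ 1 := by
    intro p
    refine (Complex.abs_re_le_norm _).trans ?_
    have hexp : ‖Complex.exp (-(2 * τ * Real.log p : ℝ) * Complex.I)‖ = 1 := by
      have : (-(2 * τ * Real.log p : ℝ) * Complex.I : ℂ) =
        ((-(2 * τ * Real.log p) : ℝ) : ℂ) * Complex.I := by push_cast; ring
      rw [this, Complex.norm_exp_ofReal_mul_I]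
    rw [norm_mul, norm_mul, hω, hexp, one_mul, mul_one]
    exact χ.norm_le_one _
  obtain ⟨-, hcut⟩ := hC0 T hT f hf1
  rw [← hδdef] at hcut
  -- the primes of `E`
  have hE : ∑ p ∈ PP E T, f p / p ≤ ∑ p ∈ PP ∅ T, f p / p + (E.card : ℝ) := by
    have hsub : PP E T ⊆ PP ∅ T := by
      intro p hp
      rw [mem_PP] at hp ⊢
      exact ⟨hp.1, hp.2.1, by simp⟩
    have h1 : ∑ p ∈ PP ∅ T \ PP E T, f p / (p : ℝ) + ∑ p ∈ PP E T, f p / (p : ℝ) =
        ∑ p ∈ PP ∅ T, f p / (p : ℝ) := sum_sdiff hsub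
    have h2 : -(E.card : ℝ) ≤ ∑ p ∈ PP ∅ T \ PP E T, f p / (p : ℝ) := by
      have h3 : |∑ p ∈ PP ∅ T \ PP E T, f p / (p : ℝ)| ≤ (E.card : ℝ) := by
        calc |∑ p ∈ PP ∅ T \ PP E T, f p / (p : ℝ)|
            ≤ ∑ p ∈ PP ∅ T \ PP E T, |f p / (p : ℝ)| := abs_sum_le_sum_abs _ _
          _ ≤ ∑ p ∈ PP ∅ T \ PP E T, (1 : ℝ) := by
              refine sum_le_sum fun p hp => ?_
              have hp2 := (mem_PP.mp (mem_sdiff.mp hp).1).2.1.two_le
              have hp1 : (1 : ℝ) ≤ p := by exact_mod_cast (by omega : 1 ≤ p)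
              rw [abs_div, abs_of_pos (by linarith : (0 : ℝ) < p), div_le_one (by linarith)]
              exact (hf1 p).trans hp1
          _ = ((PP ∅ T \ PP E T).card : ℝ) := by simp
          _ ≤ (E.card : ℝ) := by
              have : PP ∅ T \ PP E T ⊆ E := by
                intro p hp
                rw [mem_sdiff, mem_PP, mem_PP] at hp
                by_contra hc
                exact hp.2 ⟨hp.1.1, hp.1.2.1, hc⟩
              exact_mod_cast card_le_card this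
      exact (abs_le.mp h3).1
    linarith
  -- as a sum over primes
  set a : Nat.Primes → ℂ := fun p => (ω * χ (((p : ℕ) : ZMod N))) *
    ((p : ℕ) : ℂ) ^ (-((1 + δ : ℝ) + ((2 * τ : ℝ) : ℂ) * Complex.I)) with ha
  have hac : ∀ p : Nat.Primes, ‖ω * χ (((p : ℕ) : ZMod N))‖ ≤ 1 := by
    intro p
    rw [norm_mul, hω, one_mul]
    exact χ.norm_le_one _
  have hsa : Summable a := summ _ hac hδ (2 * τ)
  have hST : ∑' p : ℕ, (if p.Prime then f p / (p : ℝ) ^ (1 + δ) else 0) =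
      (∑' p, a p).re := by
    rw [Complex.re_tsum hsa]
    rw [tsum_ite (fun p : ℕ => f p / (p : ℝ) ^ (1 + δ))]
    refine tsum_congr fun p => ?_
    rw [ha]
    simp only
    exact f_eq p p.2.pos _ δ τ
  -- the character sum
  set P1 := ∑' p : Nat.Primes, χ (((p : ℕ) : ZMod N)) *
    ((p : ℕ) : ℂ) ^ (-((1 + δ : ℝ) + ((2 * τ : ℝ) : ℂ) * Complex.I)) with hP1
  have hasum : ∑' p, a p = ω * P1 := by
    rw [hP1, ← tsum_mul_left]
    refine tsum_congr fun p => ?_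
    rw [ha]
    simp only
    ring
  have hτ2 : |2 * τ| ≤ 2 * B := by
    rw [abs_mul, abs_two]
    linarith
  set Lg := Real.log (1 / ‖(δ : ℂ) + ((2 * τ : ℝ) : ℂ) * Complex.I‖) with hLg
  have k1 := hC1 δ (2 * τ) hδ hδ1 hτ2
  rw [← hP1, ← hLg] at k1
  set e1 : ℝ := if χ = 1 then (1 : ℝ) else 0 with he1
  have hmain : (ω * P1).re ≤ ω.re * (e1 * Lg) + C1 := by
    have h1 : ω * P1 = (((e1 * Lg) : ℝ) : ℂ) * ω + ω * (P1 - ((e1 * Lg : ℝ) : ℂ)) := by
      ring
    rw [h1, Complex.add_re, Complex.re_ofReal_mul]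
    have h2 : (ω * (P1 - ((e1 * Lg : ℝ) : ℂ))).re ≤ C1 := by
      refine (Complex.re_le_norm _).trans ?_
      rw [norm_mul, hω, one_mul]
      exact k1
    linarith
  have hpole : ω.re * (e1 * Lg) ≤ e1 * max 0 ω.re * max 0 (Real.log (1 / |τ|)) +
      2 * Real.log (1 + 2 * B) := by
    have hlogB : 0 ≤ Real.log (1 + 2 * B) := Real.log_nonneg (by linarith)
    by_cases h1 : χ = 1
    · have h2 : e1 = 1 := by rw [he1, if_pos h1]
      have h3 := log_pole hω hB hδ hδ1 hτ0 hτB (e := e1) (Or.inr h2)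
      rw [← hLg, h2] at h3
      rw [h2]
      linarith
    · have h2 : e1 = 0 := by rw [he1, if_neg h1]
      rw [h2, zero_mul, mul_zero, zero_mul, zero_mul]
      linarith
  have hcut' := (abs_le.mp hcut).2
  rw [hST, hasum] at hcut'
  have hfin : ∑ p ∈ PP E T, f p / p ≤ e1 * max 0 ω.re * max 0 (Real.log (1 / |τ|)) +
      (C0 + (E.card : ℝ) + C1 + 2 * Real.log (1 + 2 * B)) := by
    linarith
  exact hfin

end NpSP

/-- PROOF. Simpler version of `npChi`, `npZ` (`Lib_MP_f1a94e_eq/Np.lean`, `NpZ.lean`), all primes instead of the primes `1 mod 4`. `scut` with `f p = Re (ω χ(p) exp (-2 i τ log p))` replaces the sum over `PP ∅ T` by `∑'_p f(p) p^(-1-δ)`, `δ = 1/log T`; the primes of `E` contribute at most `#E`. It is `Re (ω P)`, `P = ∑'_p χ(p) p^(-(1 + δ + 2 i τ))`.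
If `χ ≠ 1`: bounded (`npN`). If `χ = 1`: up to the finitely many primes dividing `N`, `P = log (1/|δ + 2 i τ|) + O(1)` (`npT`), real up to `O(1)`, so `Re (ω P) ≤ max 0 (Re ω) max 0 (log (1/|τ|)) + C` (`|δ + 2 i τ| ≥ |τ|`, and `log (1/|δ+2iτ|) ≥ - C` for `|τ| ≤ B`). -/
theorem npS (N : ℕ) [NeZero N] (χ : DirichletCharacter ℂ N) (ω : ℂ) (hω : ‖ω‖ = 1) (E : Finset ℕ) :
    NPS E (fun p => ω * χ ((p : ZMod N))) (max 0 ω.re) ∧ (χ ≠ 1 → NPS E (fun p => ω * χ ((p : ZMod N))) 0) := by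
  have h := NpSP.aux N χ ω hω E
  refine ⟨?_, fun h1 => ?_⟩
  · intro B hB
    obtain ⟨C, hC⟩ := h B hB
    refine ⟨C, fun T hT τ hτ0 hτB => (hC T hT τ hτ0 hτB).trans ?_⟩
    have h0 : (0 : ℝ) ≤ max 0 ω.re * max 0 (Real.log (1 / |τ|)) := by positivity
    split_ifs
    · rw [one_mul]
    · rw [zero_mul, zero_mul]
      linarith
  · rw [if_neg h1, zero_mul] at h
    exact h

end Pool.Agent.Spl

end
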