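import Pool.Agent.Lib_MP_92ef0c_m.M10
import Pool.Agent.Lib_MP_92ef0c_m.M17
import Pool.Agent.Lib_MP_92ef0c_m.M20
import Pool.Agent.Lib_MP_92ef0c_m.M29

/-!
# MP_92ef0c_nt, split pairs: merged library part M30

Concatenation of smaller files (each in its own section), only to save build time.
-/

/-! ### from `Lib_MP_f1a94e_mr.WSum` -/

section

/-!
# Piece WSUM: sums of `xi j` over discs, odd elements, odd primitive elements
-/

set_option autoImplicit false

namespace Pool.Agent.GaussMR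

theorem w_all : ∃ C : ℝ, 0 < C ∧ ∀ (t : ℝ) (j : ℤ), 1 ≤ t → j ≠ 0 → |(j : ℝ)| ≤ t ^ (11 / 5 : ℝ) →
    ‖∑ z ∈ ball t, xi j z‖ ≤ C * t ^ (1 - 1 / 16000 : ℝ) := by
  obtain ⟨C1, h1, H1⟩ := mid_j
  obtain ⟨C2, h2, H2⟩ := small_j
  refine ⟨C1 + C2, by positivity, fun t j ht hj hjt => ?_⟩
  have ht0 : 0 < t := by linarith
  have hp : 0 ≤ t ^ (1 - 1 / 16000 : ℝ) := Real.rpow_nonneg ht0.le _
  rcases le_total (t ^ (3 / 20 : ℝ)) |(j : ℝ)| with h | h
  · refine (H1 t j ht h hjt).trans (mul_le_mul_of_nonneg_right (by linarith) hp)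
  · refine (H2 t j ht hj).trans ?_
    have h3 : C2 * |(j : ℝ)| * Real.sqrt t ≤ C2 * t ^ (3 / 20 : ℝ) * t ^ (1 / 2 : ℝ) := by
      rw [Real.sqrt_eq_rpow]
      exact mul_le_mul_of_nonneg_right (mul_le_mul_of_nonneg_left h h2.le) (by positivity)
    have h4 : C2 * t ^ (3 / 20 : ℝ) * t ^ (1 / 2 : ℝ) ≤ C2 * t ^ (1 - 1 / 16000 : ℝ) := by
      rw [mul_assoc, ← Real.rpow_add ht0]
      exact mul_le_mul_of_nonneg_left (Real.rpow_le_rpow_of_exponent_le ht (by norm_num)) h2.le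
    refine (h3.trans h4).trans (mul_le_mul_of_nonneg_right (by linarith) hp)

namespace WSumAux

/-- the prime above two -/
def pi2 : G := ⟨1, 1⟩

theorem nm_pi2 : nm pi2 = 2 := by
  have h : (nm pi2 : ℤ) = 2 := by
    rw [nm_eq, pi2]; norm_num
  exact_mod_cast h

theorem pi2_ne_zero : pi2 ≠ 0 := by
  intro h
  have := congrArg nm h
  rw [nm_pi2, nm_zero] at this
  exact absurd this (by norm_num)

theorem mul_pi2_injective : Function.Injective fun w : G => pi2 * w :=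
  fun _ _ h => mul_left_cancel₀ pi2_ne_zero h

open Classical in
/-- the even elements of a disc -/
theorem even_ball (t : ℝ) : (ball t).filter (fun z => ¬ Odd (nm z)) =
    (ball (t / 2)).image fun w => pi2 * w := by
  ext z
  simp only [Finset.mem_filter, Finset.mem_image, mem_ball]
  constructor
  · rintro ⟨h1, h2⟩
    rw [odd_nm_iff, Int.not_odd_iff_even] at h2
    obtain ⟨a, ha⟩ := h2
    have hz : z = pi2 * ⟨a, a - z.re⟩ := by
      apply Zsqrtd.ext
      · simp [pi2]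
      · simp [pi2]; linarith
    refine ⟨⟨a, a - z.re⟩, ?_, hz.symm⟩
    have h3 : nm z = 2 * nm (⟨a, a - z.re⟩ : G) := by
      conv_lhs => rw [hz]
      rw [nm_mul, nm_pi2]
    rw [h3] at h1
    push_cast at h1
    linarith
  · rintro ⟨w, h1, rfl⟩
    rw [nm_mul, nm_pi2]
    constructor
    · push_cast; linarith
    · rw [Nat.not_odd_iff_even]; exact even_two_mul _

theorem sum_ob (t : ℝ) (j : ℤ) :
    ∑ z ∈ ob t, xi j z = ∑ z ∈ ball t, xi j z - xi j pi2 * ∑ z ∈ ball (t / 2), xi j z := by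
  classical
  have h := Finset.sum_filter_add_sum_filter_not (ball t) (fun z => Odd (nm z)) (fun z => xi j z)
  rw [even_ball, Finset.sum_image (fun a _ b _ hab => mul_pi2_injective hab)] at h
  have h2 : ∑ x ∈ ball (t / 2), xi j (pi2 * x) = xi j pi2 * ∑ z ∈ ball (t / 2), xi j z := by
    rw [Finset.mul_sum]
    exact Finset.sum_congr rfl fun x _ => xi_mul j pi2 x
  rw [h2] at h
  rw [← h]
  unfold ob
  ring

theorem card_ob_le (t : ℝ) (ht : 0 ≤ t) : ((ob t).card : ℝ) ≤ 9 * t := by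
  classical
  refine le_trans ?_ (card_ball_le t ht)
  exact_mod_cast Finset.card_le_card fun z hz => by
    rw [ob, Finset.mem_filter] at hz
    exact Finset.mem_filter.2 ⟨hz.1, ne_zero_of_odd hz.2⟩

theorem norm_sum_ob_le (t : ℝ) (ht : 0 ≤ t) (j : ℤ) : ‖∑ z ∈ ob t, xi j z‖ ≤ 9 * t := by
  refine (norm_sum_le _ _).trans ?_
  have h : ∀ z ∈ ob t, ‖xi j z‖ ≤ 1 := by
    intro z hz
    rw [ob, Finset.mem_filter] at hz
    exact (norm_xi j (ne_zero_of_odd hz.2)).le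
  refine (Finset.sum_le_sum h).trans ?_
  rw [Finset.sum_const, nsmul_eq_mul, mul_one]
  exact card_ob_le t ht

end WSumAux

open WSumAux

/-- the even elements of `ball t` are `(1 + i) z`, `z ∈ ball (t / 2)` -/
theorem w_odd : ∃ C : ℝ, 0 < C ∧ ∀ (t : ℝ) (j : ℤ), 1 ≤ t → j ≠ 0 → |(j : ℝ)| ≤ t ^ (43 / 20 : ℝ) →
    ‖∑ z ∈ ob t, xi j z‖ ≤ C * t ^ (1 - 1 / 16000 : ℝ) := by
  obtain ⟨C, hC, H⟩ := w_all
  refine ⟨2 * C + 18, by positivity, fun t j ht hj hjt => ?_⟩
  have ht0 : 0 < t := by linarith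
  have hp : 0 ≤ t ^ (1 - 1 / 16000 : ℝ) := Real.rpow_nonneg ht0.le _
  rcases le_total ((2 : ℝ) ^ (44 : ℝ)) t with h | h
  · have ht2 : 1 ≤ t / 2 := by
      have : (2 : ℝ) ≤ 2 ^ (44 : ℝ) := by
        conv_lhs => rw [← Real.rpow_one 2]
        exact Real.rpow_le_rpow_of_exponent_le (by norm_num) (by norm_num)
      linarith
    have h3 : |(j : ℝ)| ≤ (t / 2) ^ (11 / 5 : ℝ) := by
      refine hjt.trans ?_
      rw [Real.div_rpow ht0.le (by norm_num), le_div_iff₀ (by positivity)]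
      have h4 : (2 : ℝ) ^ (11 / 5 : ℝ) ≤ t ^ (1 / 20 : ℝ) := by
        have h5 := Real.rpow_le_rpow (by positivity) h (by norm_num : (0 : ℝ) ≤ 1 / 20)
        rw [← Real.rpow_mul (by norm_num)] at h5
        refine le_trans (le_of_eq ?_) h5
        norm_num
      calc t ^ (43 / 20 : ℝ) * 2 ^ (11 / 5 : ℝ) ≤ t ^ (43 / 20 : ℝ) * t ^ (1 / 20 : ℝ) :=
            mul_le_mul_of_nonneg_left h4 (by positivity)
        _ = t ^ (11 / 5 : ℝ) := by
            rw [← Real.rpow_add ht0]; norm_num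
    have h6 : |(j : ℝ)| ≤ t ^ (11 / 5 : ℝ) :=
      hjt.trans (Real.rpow_le_rpow_of_exponent_le ht (by norm_num))
    have a1 := H t j ht hj h6
    have a2 := H (t / 2) j ht2 hj h3
    have a3 : (t / 2) ^ (1 - 1 / 16000 : ℝ) ≤ t ^ (1 - 1 / 16000 : ℝ) :=
      Real.rpow_le_rpow (by linarith) (by linarith) (by norm_num)
    rw [sum_ob]
    refine (norm_sub_le _ _).trans ?_
    rw [norm_mul, norm_xi j pi2_ne_zero, one_mul]
    have a4 := mul_le_mul_of_nonneg_left a3 hC.le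
    nlinarith
  · refine (norm_sum_ob_le t ht0.le j).trans ?_
    have h1 : t ^ (1 / 16000 : ℝ) ≤ 2 := by
      have h5 := Real.rpow_le_rpow ht0.le h (by norm_num : (0 : ℝ) ≤ 1 / 16000)
      rw [← Real.rpow_mul (by norm_num)] at h5
      refine h5.trans ?_
      conv_rhs => rw [← Real.rpow_one 2]
      exact Real.rpow_le_rpow_of_exponent_le (by norm_num) (by norm_num)
    have h2 : t = t ^ (1 - 1 / 16000 : ℝ) * t ^ (1 / 16000 : ℝ) := by
      rw [← Real.rpow_add ht0]; norm_num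
    have h3 : t ≤ 2 * t ^ (1 - 1 / 16000 : ℝ) := by
      calc t = t ^ (1 - 1 / 16000 : ℝ) * t ^ (1 / 16000 : ℝ) := h2
        _ ≤ t ^ (1 - 1 / 16000 : ℝ) * 2 := mul_le_mul_of_nonneg_left h1 hp
        _ = _ := by ring
    nlinarith

namespace WSumAux

/-- the gcd of the coordinates -/
def gc (z : G) : ℕ := Int.gcd z.re z.im

theorem natCast_dvd_iff (d : ℕ) (z : G) : (d : G) ∣ z ↔ d ∣ gc z := by
  have key : (d : G) ∣ z ↔ (d : ℤ) ∣ z.re ∧ (d : ℤ) ∣ z.im := by
    have := Zsqrtd.intCast_dvd (d := -1) (d : ℤ) z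
    simpa using this
  rw [key, gc]
  constructor
  · intro h
    exact_mod_cast Int.dvd_coe_gcd h.1 h.2
  · intro h
    have h' : (d : ℤ) ∣ (Int.gcd z.re z.im : ℤ) := by exact_mod_cast h
    exact ⟨h'.trans (Int.gcd_dvd_left _ _), h'.trans (Int.gcd_dvd_right _ _)⟩

theorem nm_natCast (d : ℕ) : nm (d : G) = d ^ 2 := by
  have h : (nm (d : G) : ℤ) = d ^ 2 := by
    rw [nm_eq]; simp
  exact_mod_cast h

theorem gc_pos {z : G} (h : z ≠ 0) : 0 < gc z := by
  rw [gc, Int.gcd_pos_iff]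
  by_contra h'
  push Not at h'
  exact h (Zsqrtd.ext h'.1 h'.2)

theorem gc_sq_le {z : G} (h : z ≠ 0) : gc z ^ 2 ≤ nm z := by
  have h1 : ((gc z : ℕ) : G) ∣ z := (natCast_dvd_iff _ _).2 dvd_rfl
  have h2 := nm_dvd h1
  rw [nm_natCast] at h2
  exact Nat.le_of_dvd (nm_pos h) h2

theorem prim_iff_gc {z : G} : Prim z ↔ gc z = 1 := by
  unfold Prim gc
  rw [Int.isCoprime_iff_gcd_eq_one]

open Classical in
/-- Moebius detects primitive elements -/
theorem moebius_prim {t : ℝ} {z : G} (hz : z ≠ 0) (h : (nm z : ℝ) ≤ t) :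
    (∑ d ∈ (Finset.Icc 1 ⌊t⌋₊).filter (fun d => d ∣ gc z), (ArithmeticFunction.moebius d : ℤ)) =
      if Prim z then 1 else 0 := by
  have hg := gc_pos hz
  have h1 : (Finset.Icc 1 ⌊t⌋₊).filter (fun d => d ∣ gc z) = (gc z).divisors := by
    ext d
    simp only [Finset.mem_filter, Finset.mem_Icc, Nat.mem_divisors]
    constructor
    · rintro ⟨⟨_, _⟩, h3⟩
      exact ⟨h3, hg.ne'⟩
    · rintro ⟨h3, _⟩
      refine ⟨⟨Nat.pos_of_dvd_of_pos h3 hg, ?_⟩, h3⟩
      apply Nat.le_floor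
      have h4 : d ≤ gc z := Nat.le_of_dvd hg h3
      have h5 : gc z ≤ gc z ^ 2 := Nat.le_self_pow two_ne_zero _
      have h6 : d ≤ nm z := h4.trans (h5.trans (gc_sq_le hz))
      exact le_trans (by exact_mod_cast h6) h
  rw [h1, ← ArithmeticFunction.coe_mul_zeta_apply, ArithmeticFunction.moebius_mul_coe_zeta,
    ArithmeticFunction.one_apply]
  exact if_congr prim_iff_gc.symm rfl rfl

open Classical in
/-- multiples of an odd number `d` -/
theorem sum_multiples (t : ℝ) (j : ℤ) {d : ℕ} (hd : Odd d) :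
    ∑ z ∈ (ob t).filter (fun z => d ∣ gc z), xi j z = ∑ w ∈ ob (t / d ^ 2), xi j w := by
  have hd0 : 0 < d := hd.pos
  have hdG : (d : G) ≠ 0 := by exact_mod_cast hd0.ne'
  have himg : (ob t).filter (fun z => d ∣ gc z) = (ob (t / d ^ 2)).image fun w => (d : G) * w := by
    ext z
    simp only [Finset.mem_filter, Finset.mem_image, ob, mem_ball]
    constructor
    · rintro ⟨⟨h1, h2⟩, h3⟩
      obtain ⟨w, rfl⟩ := (natCast_dvd_iff d z).2 h3
      refine ⟨w, ⟨?_, (odd_nm_mul.1 h2).2⟩, rfl⟩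
      rw [le_div_iff₀ (by positivity)]
      rw [nm_mul, nm_natCast] at h1
      push_cast at h1
      linarith
    · rintro ⟨w, ⟨h1, h2⟩, rfl⟩
      refine ⟨⟨?_, ?_⟩, (natCast_dvd_iff _ _).1 (dvd_mul_right _ _)⟩
      · rw [le_div_iff₀ (by positivity)] at h1
        rw [nm_mul, nm_natCast]
        push_cast
        linarith
      · rw [odd_nm_mul, nm_natCast]
        exact ⟨hd.pow, h2⟩
  rw [himg, Finset.sum_image (fun a _ b _ hab => mul_left_cancel₀ hdG hab)]
  exact Finset.sum_congr rfl fun w _ => xi_natCast_mul j hd0 w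

open Classical in
/-- there are no odd multiples of even numbers -/
theorem sum_multiples_even (t : ℝ) (j : ℤ) {d : ℕ} (hd : ¬ Odd d) :
    ∑ z ∈ (ob t).filter (fun z => d ∣ gc z), xi j z = 0 := by
  refine Finset.sum_eq_zero fun z hz => ?_
  exfalso
  simp only [Finset.mem_filter, ob, mem_ball] at hz
  obtain ⟨w, rfl⟩ := (natCast_dvd_iff d z).2 hz.2
  have := (odd_nm_mul.1 hz.1.2).1
  rw [nm_natCast] at this
  exact hd (Nat.odd_pow_iff two_ne_zero |>.1 this)

open Classical in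
theorem sum_V_eq (t : ℝ) (j : ℤ) : ∑ z ∈ V t, xi j z =
    ∑ d ∈ Finset.Icc 1 ⌊t⌋₊, ((ArithmeticFunction.moebius d : ℤ) : ℂ) *
      ∑ z ∈ (ob t).filter (fun z => d ∣ gc z), xi j z := by
  have h1 : V t = (ob t).filter Prim := by
    ext z
    simp only [mem_V, ob, Finset.mem_filter, mem_ball]
    tauto
  have h2 : ∀ z ∈ ob t, (if Prim z then xi j z else 0) = ∑ d ∈ Finset.Icc 1 ⌊t⌋₊,
      (if d ∣ gc z then ((ArithmeticFunction.moebius d : ℤ) : ℂ) * xi j z else 0) := by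
    intro z hz
    simp only [ob, Finset.mem_filter, mem_ball] at hz
    have h3 := moebius_prim (ne_zero_of_odd hz.2) hz.1
    rw [← Finset.sum_filter, ← Finset.sum_mul]
    have h4 : (∑ d ∈ (Finset.Icc 1 ⌊t⌋₊).filter (fun d => d ∣ gc z),
        ((ArithmeticFunction.moebius d : ℤ) : ℂ)) = if Prim z then 1 else 0 := by
      rw [← Int.cast_sum, h3]
      split_ifs <;> simp
    rw [h4]
    split_ifs <;> simp
  rw [h1, Finset.sum_filter, Finset.sum_congr rfl h2, Finset.sum_comm]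
  refine Finset.sum_congr rfl fun d _ => ?_
  rw [← Finset.sum_filter, Finset.mul_sum]

end WSumAux

/-- `∑_{z ∈ V t} xi j z = ∑_{d odd} μ(d) ∑_{z ∈ ob (t / d²)} xi j z` (`xi j (d z) = xi j z`); use `w_odd`
for `d ≤ t^(1/100)` and the trivial bound `9 t / d²` for larger `d` -/
theorem w_V : ∃ C : ℝ, 0 < C ∧ ∀ (t : ℝ) (j : ℤ), 1 ≤ t → j ≠ 0 → |(j : ℝ)| ≤ t ^ (21 / 10 : ℝ) →
    ‖∑ z ∈ V t, xi j z‖ ≤ C * t ^ (1 - 1 / 16000 : ℝ) := by
  classical
  obtain ⟨C, hC, H⟩ := w_odd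
  have hsum : Summable fun n : ℕ => 1 / (n : ℝ) ^ (3 / 2 : ℝ) :=
    Real.summable_one_div_nat_rpow.2 (by norm_num)
  set S : ℝ := ∑' n : ℕ, 1 / (n : ℝ) ^ (3 / 2 : ℝ) with hS
  have hS0 : 0 ≤ S := tsum_nonneg fun n => by positivity
  refine ⟨(C + 9) * (S + 1), by positivity, fun t j ht hj hjt => ?_⟩
  have ht0 : 0 < t := by linarith
  have hp : 0 ≤ t ^ (1 - 1 / 16000 : ℝ) := Real.rpow_nonneg ht0.le _
  rw [sum_V_eq]
  have key : ∀ d ∈ Finset.Icc 1 ⌊t⌋₊, ‖((ArithmeticFunction.moebius d : ℤ) : ℂ) *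
      ∑ z ∈ (ob t).filter (fun z => d ∣ WSumAux.gc z), xi j z‖ ≤
      (C + 9) * t ^ (1 - 1 / 16000 : ℝ) * (1 / (d : ℝ) ^ (3 / 2 : ℝ)) := by
    intro d hd
    have hd1 : 1 ≤ d := (Finset.mem_Icc.1 hd).1
    have hdr : (1 : ℝ) ≤ d := by exact_mod_cast hd1
    have hd0 : (0 : ℝ) < d := by linarith
    have hmu : ‖((ArithmeticFunction.moebius d : ℤ) : ℂ)‖ ≤ 1 := by
      rw [Complex.norm_intCast]
      exact_mod_cast ArithmeticFunction.abs_moebius_le_one
    rw [norm_mul]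
    refine (mul_le_of_le_one_left (norm_nonneg _) hmu).trans ?_
    by_cases hodd : Odd d
    · rw [sum_multiples t j hodd]
      rcases le_total (d : ℝ) (t ^ (1 / 100 : ℝ)) with hdt | hdt
      · -- small `d`
        have e1 : t ^ (49 / 50 : ℝ) ≤ t / d ^ 2 := by
          rw [le_div_iff₀ (by positivity)]
          have : (d : ℝ) ^ 2 ≤ t ^ (1 / 50 : ℝ) := by
            have h5 := pow_le_pow_left₀ hd0.le hdt 2
            rw [← Real.rpow_natCast (t ^ (1 / 100 : ℝ)) 2, ← Real.rpow_mul ht0.le] at h5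
            refine h5.trans (le_of_eq ?_)
            norm_num
          calc t ^ (49 / 50 : ℝ) * (d : ℝ) ^ 2 ≤ t ^ (49 / 50 : ℝ) * t ^ (1 / 50 : ℝ) :=
                mul_le_mul_of_nonneg_left this (by positivity)
            _ = t := by rw [← Real.rpow_add ht0]; norm_num
        have e2 : 1 ≤ t / (d : ℝ) ^ 2 := (Real.one_le_rpow ht (by norm_num)).trans e1
        have e3 : |(j : ℝ)| ≤ (t / (d : ℝ) ^ 2) ^ (43 / 20 : ℝ) := by
          refine hjt.trans ?_
          have h5 := Real.rpow_le_rpow (by positivity) e1 (by norm_num : (0 : ℝ) ≤ 43 / 20)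
          rw [← Real.rpow_mul ht0.le] at h5
          exact (Real.rpow_le_rpow_of_exponent_le ht (by norm_num)).trans h5
        refine (H _ j e2 hj e3).trans ?_
        have e4 : (t / (d : ℝ) ^ 2) ^ (1 - 1 / 16000 : ℝ) ≤
            t ^ (1 - 1 / 16000 : ℝ) * (1 / (d : ℝ) ^ (3 / 2 : ℝ)) := by
          rw [Real.div_rpow ht0.le (by positivity), div_eq_mul_one_div]
          refine mul_le_mul_of_nonneg_left ?_ hp
          refine one_div_le_one_div_of_le (by positivity) ?_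
          rw [← Real.rpow_natCast (d : ℝ) 2, ← Real.rpow_mul hd0.le]
          exact Real.rpow_le_rpow_of_exponent_le hdr (by norm_num)
        calc C * (t / (d : ℝ) ^ 2) ^ (1 - 1 / 16000 : ℝ) ≤
            C * (t ^ (1 - 1 / 16000 : ℝ) * (1 / (d : ℝ) ^ (3 / 2 : ℝ))) :=
              mul_le_mul_of_nonneg_left e4 hC.le
          _ ≤ (C + 9) * (t ^ (1 - 1 / 16000 : ℝ) * (1 / (d : ℝ) ^ (3 / 2 : ℝ))) :=
              mul_le_mul_of_nonneg_right (by linarith) (by positivity)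
          _ = _ := by ring
      · -- large `d`
        refine (norm_sum_ob_le _ (by positivity) j).trans ?_
        have e1 : t / (d : ℝ) ^ 2 ≤ t ^ (1 - 1 / 16000 : ℝ) * (1 / (d : ℝ) ^ (3 / 2 : ℝ)) := by
          rw [mul_one_div, div_le_div_iff₀ (by positivity) (by positivity)]
          have e2 : t ^ (1 / 16000 : ℝ) ≤ (d : ℝ) ^ (1 / 2 : ℝ) := by
            have h5 := Real.rpow_le_rpow (by positivity) hdt (by norm_num : (0 : ℝ) ≤ 1 / 2)
            rw [← Real.rpow_mul ht0.le] at h5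
            exact (Real.rpow_le_rpow_of_exponent_le ht (by norm_num)).trans h5
          calc t * (d : ℝ) ^ (3 / 2 : ℝ) =
              t ^ (1 - 1 / 16000 : ℝ) * t ^ (1 / 16000 : ℝ) * (d : ℝ) ^ (3 / 2 : ℝ) := by
                rw [← Real.rpow_add ht0]; norm_num
            _ ≤ t ^ (1 - 1 / 16000 : ℝ) * (d : ℝ) ^ (1 / 2 : ℝ) * (d : ℝ) ^ (3 / 2 : ℝ) :=
                mul_le_mul_of_nonneg_right (mul_le_mul_of_nonneg_left e2 hp) (by positivity)
            _ = t ^ (1 - 1 / 16000 : ℝ) * (d : ℝ) ^ 2 := by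
                rw [mul_assoc, ← Real.rpow_add hd0]
                norm_num
        calc 9 * (t / (d : ℝ) ^ 2) ≤ 9 * (t ^ (1 - 1 / 16000 : ℝ) * (1 / (d : ℝ) ^ (3 / 2 : ℝ))) :=
              mul_le_mul_of_nonneg_left e1 (by norm_num)
          _ ≤ (C + 9) * (t ^ (1 - 1 / 16000 : ℝ) * (1 / (d : ℝ) ^ (3 / 2 : ℝ))) :=
              mul_le_mul_of_nonneg_right (by linarith) (by positivity)
          _ = _ := by ring
    · rw [sum_multiples_even t j hodd, norm_zero]
      positivity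
  refine (norm_sum_le _ _).trans ((Finset.sum_le_sum key).trans ?_)
  rw [← Finset.mul_sum]
  have h6 : ∑ d ∈ Finset.Icc 1 ⌊t⌋₊, (1 / (d : ℝ) ^ (3 / 2 : ℝ)) ≤ S :=
    hsum.sum_le_tsum _ fun n _ => by positivity
  calc (C + 9) * t ^ (1 - 1 / 16000 : ℝ) * ∑ d ∈ Finset.Icc 1 ⌊t⌋₊, (1 / (d : ℝ) ^ (3 / 2 : ℝ)) ≤
      (C + 9) * t ^ (1 - 1 / 16000 : ℝ) * (S + 1) :=
        mul_le_mul_of_nonneg_left (by linarith) (by positivity)
    _ = (C + 9) * (S + 1) * t ^ (1 - 1 / 16000 : ℝ) := by ring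

end Pool.Agent.GaussMR

end

/-! ### from `Lib_MP_f1a94e_mr.Weight` -/

section

/-!
# Piece WEIGHT: the sifted weights in arithmetic progressions
-/

set_option autoImplicit false

namespace Pool.Agent.GaussMR

namespace Weight

theorem mem_ob {t : ℝ} {z : G} : z ∈ ob t ↔ (nm z : ℝ) ≤ t ∧ Odd (nm z) := by
  classical
  simp [ob, mem_ball]

open Classical in
theorem ob_sdiff (a b : ℝ) : ob a \ ob b = (ball a \ ball b).filter (fun z => Odd (nm z)) := by
  ext z
  simp only [Finset.mem_sdiff, mem_ob, Finset.mem_filter, mem_ball]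
  tauto

open Classical in
/-- substitute `u = d s` -/
theorem reindex {d : G} (hd : Odd (nm d)) (a b : ℝ) (f : G → ℝ) :
    ∑ u ∈ (ob a \ ob b).filter (fun u => d ∣ u), f u =
      ∑ s ∈ ob (a / nm d) \ ob (b / nm d), f (d * s) := by
  have hd0 : d ≠ 0 := ne_zero_of_odd hd
  have hn : (0 : ℝ) < nm d := by exact_mod_cast nm_pos hd0
  symm
  apply Finset.sum_bij (fun s _ => d * s)
  · intro s hs
    rw [Finset.mem_sdiff, mem_ob, mem_ob] at hs
    obtain ⟨⟨h1, h2⟩, h3⟩ := hs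
    rw [Finset.mem_filter, Finset.mem_sdiff, mem_ob, mem_ob, nm_mul]
    have h4 : ¬ ((nm s : ℝ) ≤ b / nm d) := fun h => h3 ⟨h, h2⟩
    rw [le_div_iff₀ hn] at h1 h4
    refine ⟨⟨⟨?_, hd.mul h2⟩, ?_⟩, dvd_mul_right d s⟩
    · push_cast
      linarith
    · rintro ⟨h5, -⟩
      apply h4
      push_cast at h5
      linarith
  · intro s _ t _ h
    exact mul_left_cancel₀ hd0 h
  · intro u hu
    rw [Finset.mem_filter, Finset.mem_sdiff, mem_ob, mem_ob] at hu
    obtain ⟨⟨⟨h1, h2⟩, h3⟩, ⟨s, rfl⟩⟩ := hu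
    refine ⟨s, ?_, rfl⟩
    rw [nm_mul] at h1 h2 h3
    have h4 : ¬ (((nm d * nm s : ℕ) : ℝ) ≤ b) := fun h => h3 ⟨h, h2⟩
    have hs : Odd (nm s) := (Nat.odd_mul.1 h2).2
    rw [Finset.mem_sdiff, mem_ob, mem_ob, le_div_iff₀ hn, le_div_iff₀ hn]
    push_cast at h1 h4
    refine ⟨⟨by linarith, hs⟩, ?_⟩
    rintro ⟨h5, -⟩
    apply h4
    linarith
  · intro s _
    rfl

open Classical in
theorem sum_odd (t : ℝ) (g : G → ℂ) :
    ∑ z ∈ ball t, (if Odd (nm z) then g z else 0) = ∑ z ∈ ob t, g z := by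
  rw [ob, Finset.sum_filter]

open Classical in
theorem sum_odd_sdiff (a b : ℝ) (g : G → ℂ) :
    ∑ z ∈ ball a \ ball b, (if Odd (nm z) then g z else 0) / (nm z : ℂ) =
      ∑ z ∈ ob a \ ob b, g z / (nm z : ℂ) := by
  rw [ob_sdiff, Finset.sum_filter]
  refine Finset.sum_congr rfl fun z _ => ?_
  split_ifs <;> simp

/-- partial summation for odd elements -/
theorem partial_odd (δ : ℝ) (hδ : 0 < δ) (hδ1 : δ ≤ 1) (g : G → ℂ) (κ : ℂ) (E t1 t2 : ℝ)
    (h1 : 1 ≤ t1) (h2 : t1 ≤ t2) (hE : 0 ≤ E)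
    (h : ∀ t : ℝ, t1 ≤ t → t ≤ t2 → ‖∑ z ∈ ob t, g z - κ * t‖ ≤ E * t ^ (1 - δ)) :
    ‖∑ z ∈ ob t2 \ ob t1, g z / (nm z : ℂ) - κ * (Real.log (t2 / t1) : ℂ)‖ ≤
      4 * E / δ * t1 ^ (-δ) := by
  classical
  rw [← sum_odd_sdiff]
  apply partial_sum δ hδ hδ1 _ κ E t1 t2 h1 h2 hE
  intro t ht1 ht2
  rw [sum_odd]
  exact h t ht1 ht2

end Weight

open Classical in
/-- substitute `u = d s` with `s` odd, `X^(12/25) / nm d < nm s ≤ X^(13/25) / nm d`; use `partial_sum`
with `odd_asymp` (`κ_odd log (X^(1/25)) = κ log X`) and with `w_odd` for `j = 2 k`, `|2k| ≤ 2 X ≤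
(X^(0.479))^(43/20)` -/
theorem weight : ∃ κ X0 : ℝ, 0 < κ ∧ ∀ X : ℝ, X0 ≤ X → ∀ d : G, Odd (nm d) →
    (nm d : ℝ) ≤ X ^ (1 / 1000 : ℝ) → ∀ k : ℤ, k ≠ 0 → |(k : ℝ)| ≤ X →
    |∑ u ∈ (ob (X ^ (13 / 25 : ℝ)) \ ob (X ^ (12 / 25 : ℝ))).filter (fun u => d ∣ u),
      (1 / (nm u : ℝ)) * (1 - (xi (2 * k) u).re) - κ * Real.log X / nm d| ≤
      X ^ (-(1 / 40000 : ℝ)) := by
  obtain ⟨κ0, C, hκ0, hC, hodd⟩ := odd_asymp
  obtain ⟨C', hC', hw⟩ := w_odd
  -- eventual inequalities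
  have hev1 : ∀ᶠ X : ℝ in Filter.atTop, 2 ≤ X ^ (1 / 50 : ℝ) :=
    (tendsto_rpow_atTop (by norm_num)).eventually_ge_atTop 2
  have hev2 : ∀ᶠ X : ℝ in Filter.atTop, 8 * C + 64000 * C' ≤ X ^ (1 / 400000 : ℝ) :=
    (tendsto_rpow_atTop (by norm_num)).eventually_ge_atTop _
  obtain ⟨X0, hX0⟩ := Filter.eventually_atTop.1 (hev1.and hev2)
  refine ⟨κ0 / 25, max X0 1, by positivity, ?_⟩
  intro X hX d hd hdX k hk hkX
  have hX1 : 1 ≤ X := (le_max_right _ _).trans hX
  have hXpos : 0 < X := by linarith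
  obtain ⟨he1, he2⟩ := hX0 X ((le_max_left _ _).trans hX)
  have hd0 : d ≠ 0 := ne_zero_of_odd hd
  have hn : (0 : ℝ) < nm d := by exact_mod_cast nm_pos hd0
  have hn1 : (1 : ℝ) ≤ nm d := by exact_mod_cast nm_pos hd0
  set T1 : ℝ := X ^ (12 / 25 : ℝ) / nm d with hT1
  set T2 : ℝ := X ^ (13 / 25 : ℝ) / nm d with hT2
  have hT1low : X ^ (479 / 1000 : ℝ) ≤ T1 := by
    rw [hT1, le_div_iff₀ hn]
    calc X ^ (479 / 1000 : ℝ) * nm d ≤ X ^ (479 / 1000 : ℝ) * X ^ (1 / 1000 : ℝ) :=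
          mul_le_mul_of_nonneg_left hdX (Real.rpow_nonneg hXpos.le _)
      _ = X ^ (12 / 25 : ℝ) := by rw [← Real.rpow_add hXpos]; norm_num
  have hT1one : 1 ≤ T1 := (Real.one_le_rpow hX1 (by norm_num)).trans hT1low
  have hT1pos : 0 < T1 := by linarith
  have hT12 : T1 ≤ T2 := by
    rw [hT1, hT2]
    exact div_le_div_of_nonneg_right (Real.rpow_le_rpow_of_exponent_le hX1 (by norm_num)) hn.le
  have hlog : Real.log (T2 / T1) = 1 / 25 * Real.log X := by
    have h1 : T2 / T1 = X ^ (1 / 25 : ℝ) := by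
      rw [hT1, hT2, div_div_div_cancel_right₀ hn.ne', ← Real.rpow_sub hXpos]
      norm_num
    rw [h1, Real.log_rpow hXpos]
  -- the two sums
  have hA := Weight.partial_odd (1 / 2) (by norm_num) (by norm_num) (fun _ => 1) (κ0 : ℂ) C T1 T2
    hT1one hT12 hC.le (by
      intro t ht1 ht2
      have h1 := hodd t (by linarith)
      have h2 : ∑ z ∈ ob t, (1 : ℂ) - (κ0 : ℂ) * (t : ℂ) =
          ((((ob t).card : ℝ) - κ0 * t : ℝ) : ℂ) := by
        push_cast
        simp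
      rw [h2, Complex.norm_real, Real.norm_eq_abs]
      refine h1.trans (le_of_eq ?_)
      rw [Real.sqrt_eq_rpow]
      norm_num)
  have hB := Weight.partial_odd (1 / 16000) (by norm_num) (by norm_num) (fun z => xi (2 * k) z) 0
    C' T1 T2 hT1one hT12 hC'.le (by
      intro t ht1 ht2
      have h1 : |((2 * k : ℤ) : ℝ)| ≤ t ^ (43 / 20 : ℝ) := by
        have h2 : |((2 * k : ℤ) : ℝ)| = 2 * |(k : ℝ)| := by
          push_cast
          rw [abs_mul, abs_two]
        rw [h2]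
        calc 2 * |(k : ℝ)| ≤ X ^ (1 / 50 : ℝ) * X :=
              mul_le_mul he1 hkX (abs_nonneg _) (Real.rpow_nonneg hXpos.le _)
          _ = X ^ (51 / 50 : ℝ) := by
              nth_rewrite 2 [← Real.rpow_one X]
              rw [← Real.rpow_add hXpos]
              norm_num
          _ ≤ X ^ (479 / 1000 * (43 / 20) : ℝ) :=
              Real.rpow_le_rpow_of_exponent_le hX1 (by norm_num)
          _ = (X ^ (479 / 1000 : ℝ)) ^ (43 / 20 : ℝ) := by rw [Real.rpow_mul hXpos.le]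
          _ ≤ t ^ (43 / 20 : ℝ) := by
              apply Real.rpow_le_rpow (Real.rpow_nonneg hXpos.le _) (hT1low.trans ht1)
              norm_num
      have h3 := hw t (2 * k) (hT1one.trans ht1) (by omega) h1
      rw [zero_mul, sub_zero]
      exact h3)
  rw [Weight.reindex hd]
  -- bounds for the powers of T1
  have hp1 : T1 ^ (-(1 / 2) : ℝ) ≤ X ^ (-(11 / 400000) : ℝ) := by
    calc T1 ^ (-(1 / 2) : ℝ) ≤ (X ^ (479 / 1000 : ℝ)) ^ (-(1 / 2) : ℝ) :=
          Real.rpow_le_rpow_of_nonpos (Real.rpow_pos_of_pos hXpos _) hT1low (by norm_num)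
      _ = X ^ (479 / 1000 * (-(1 / 2)) : ℝ) := by rw [Real.rpow_mul hXpos.le]
      _ ≤ X ^ (-(11 / 400000) : ℝ) := Real.rpow_le_rpow_of_exponent_le hX1 (by norm_num)
  have hp2 : T1 ^ (-(1 / 16000) : ℝ) ≤ X ^ (-(11 / 400000) : ℝ) := by
    calc T1 ^ (-(1 / 16000) : ℝ) ≤ (X ^ (479 / 1000 : ℝ)) ^ (-(1 / 16000) : ℝ) :=
          Real.rpow_le_rpow_of_nonpos (Real.rpow_pos_of_pos hXpos _) hT1low (by norm_num)
      _ = X ^ (479 / 1000 * (-(1 / 16000)) : ℝ) := by rw [Real.rpow_mul hXpos.le]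
      _ ≤ X ^ (-(11 / 400000) : ℝ) := Real.rpow_le_rpow_of_exponent_le hX1 (by norm_num)
  set SA : ℂ := ∑ z ∈ ob T2 \ ob T1, (1 : ℂ) / (nm z : ℂ) with hSA
  set SB : ℂ := ∑ z ∈ ob T2 \ ob T1, xi (2 * k) z / (nm z : ℂ) with hSB
  have hsum : ∑ s ∈ ob T2 \ ob T1, (1 / (nm (d * s) : ℝ)) * (1 - (xi (2 * k) (d * s)).re) =
      (1 / (nm d : ℝ)) * (SA - xi (2 * k) d * SB).re := by
    rw [hSA, hSB, Finset.mul_sum, ← Finset.sum_sub_distrib, Complex.re_sum, Finset.mul_sum]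
    refine Finset.sum_congr rfl fun s _ => ?_
    rw [nm_mul, xi_mul]
    have h1 : (1 : ℂ) / (nm s : ℂ) - xi (2 * k) d * (xi (2 * k) s / (nm s : ℂ)) =
        ((1 / (nm s : ℝ) : ℝ) : ℂ) * (1 - xi (2 * k) d * xi (2 * k) s) := by
      push_cast
      ring
    rw [h1, Complex.re_ofReal_mul, Complex.sub_re, Complex.one_re]
    push_cast
    rw [← mul_assoc, one_div_mul_one_div]
  rw [hsum]
  have hnxi : ‖xi (2 * k) d‖ = 1 := norm_xi _ hd0
  have hfin : |(SA - xi (2 * k) d * SB).re - κ0 / 25 * Real.log X| ≤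
      (8 * C + 64000 * C') * X ^ (-(11 / 400000) : ℝ) := by
    have h1 : (SA - xi (2 * k) d * SB).re - κ0 / 25 * Real.log X =
        ((SA - (κ0 : ℂ) * (Real.log (T2 / T1) : ℂ)) - xi (2 * k) d *
          (SB - 0 * (Real.log (T2 / T1) : ℂ))).re := by
      rw [hlog]
      have h2 : (SA - (κ0 : ℂ) * ((1 / 25 * Real.log X : ℝ) : ℂ)) - xi (2 * k) d *
          (SB - 0 * ((1 / 25 * Real.log X : ℝ) : ℂ)) =
          (SA - xi (2 * k) d * SB) - ((κ0 / 25 * Real.log X : ℝ) : ℂ) := by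
        push_cast
        ring
      rw [h2, Complex.sub_re (SA - xi (2 * k) d * SB), Complex.ofReal_re]
    rw [h1]
    refine (Complex.abs_re_le_norm _).trans ((norm_sub_le _ _).trans ?_)
    rw [norm_mul, hnxi, one_mul]
    have h3 : 4 * C / (1 / 2) * T1 ^ (-(1 / 2) : ℝ) ≤ 8 * C * X ^ (-(11 / 400000) : ℝ) := by
      have : 4 * C / (1 / 2) = 8 * C := by ring
      rw [this]
      exact mul_le_mul_of_nonneg_left hp1 (by positivity)
    have h4 : 4 * C' / (1 / 16000) * T1 ^ (-(1 / 16000) : ℝ) ≤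
        64000 * C' * X ^ (-(11 / 400000) : ℝ) := by
      have : 4 * C' / (1 / 16000) = 64000 * C' := by ring
      rw [this]
      exact mul_le_mul_of_nonneg_left hp2 (by positivity)
    have h5 := hA.trans h3
    have h6 := hB.trans h4
    linarith
  have h7 : (1 / (nm d : ℝ)) * (SA - xi (2 * k) d * SB).re - κ0 / 25 * Real.log X / nm d =
      (1 / (nm d : ℝ)) * ((SA - xi (2 * k) d * SB).re - κ0 / 25 * Real.log X) := by
    ring
  rw [h7, abs_mul, abs_of_pos (by positivity : (0 : ℝ) < 1 / nm d)]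
  have h8 : 1 / (nm d : ℝ) ≤ 1 := by
    rw [div_le_one hn]
    exact hn1
  calc 1 / (nm d : ℝ) * |(SA - xi (2 * k) d * SB).re - κ0 / 25 * Real.log X|
      ≤ 1 * ((8 * C + 64000 * C') * X ^ (-(11 / 400000) : ℝ)) :=
        mul_le_mul h8 hfin (abs_nonneg _) zero_le_one
    _ ≤ X ^ (1 / 400000 : ℝ) * X ^ (-(11 / 400000) : ℝ) := by
        rw [one_mul]
        exact mul_le_mul_of_nonneg_right he2 (Real.rpow_nonneg hXpos.le _)
    _ = X ^ (-(1 / 40000 : ℝ)) := by
        rw [← Real.rpow_add hXpos]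
        norm_num

end Pool.Agent.GaussMR

end

/-! ### from `Lib_MP_f1a94e_mr.SieveA` -/

section

/-!
# Piece SIEVEA: application of the Brun-Hooley sieve
-/

set_option autoImplicit false

namespace Pool.Agent.GaussMR

namespace SieveA

theorem mem_CP_sa {y : ℝ} {w : G} :
    w ∈ CP y ↔ (nm w : ℝ) ≤ y ∧ Prime w ∧ Odd (nm w) ∧ 0 < w.re ∧ 0 ≤ w.im := by
  classical
  simp [CP, mem_ball]

theorem nm_prod_sa (D : Finset G) : nm (∏ w ∈ D, w) = ∏ w ∈ D, nm w := by
  classical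
  induction D using Finset.induction_on with
  | empty => simp
  | insert p D hp ih => rw [Finset.prod_insert hp, Finset.prod_insert hp, nm_mul, ih]

theorem eq_of_dvd_prod {y y' : ℝ} {D : Finset G} (hD : D ⊆ CP y) {p : G} (hp : p ∈ CP y')
    (h : p ∣ ∏ w ∈ D, w) : p ∈ D := by
  obtain ⟨q, hq, hpq⟩ := (Prime.dvd_finsetProd_iff (mem_CP_sa.mp hp).2.1 (fun w => w)).mp h
  have ha : Associated p q :=
    ((mem_CP_sa.mp hp).2.1.dvd_prime_iff_associated (mem_CP_sa.mp (hD hq)).2.1).mp hpq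
  rw [CP_assoc hp (hD hq) ha]
  exact hq

theorem prod_inj_sa {y y' : ℝ} {D D' : Finset G} (hD : D ⊆ CP y) (hD' : D' ⊆ CP y')
    (h : ∏ w ∈ D, w = ∏ w ∈ D', w) : D = D' := by
  apply Finset.Subset.antisymm
  · intro p hp
    exact eq_of_dvd_prod hD' (hD hp) (h ▸ Finset.dvd_prod_of_mem (fun w => w) hp)
  · intro p hp
    exact eq_of_dvd_prod hD (hD' hp) (h ▸ Finset.dvd_prod_of_mem (fun w => w) hp)

theorem prod_dvd_of_sa {y : ℝ} {D : Finset G} (hD : D ⊆ CP y) {u : G} (h : ∀ w ∈ D, w ∣ u) :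
    ∏ w ∈ D, w ∣ u := by
  classical
  induction D using Finset.induction_on with
  | empty => simp
  | insert p D hp ih =>
    have hD' : D ⊆ CP y := fun w hw => hD (Finset.mem_insert_of_mem hw)
    have hpC : p ∈ CP y := hD (Finset.mem_insert_self _ _)
    obtain ⟨c, hc⟩ := ih hD' (fun w hw => h w (Finset.mem_insert_of_mem hw))
    have hpu : p ∣ (∏ w ∈ D, w) * c := hc ▸ h p (Finset.mem_insert_self _ _)
    rcases (mem_CP_sa.mp hpC).2.1.dvd_or_dvd hpu with h1 | h1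
    · exact absurd (eq_of_dvd_prod hD' hpC h1) hp
    · rw [Finset.prod_insert hp, hc, mul_comm p]
      exact mul_dvd_mul_left _ h1

theorem odd_prod_sa {y : ℝ} {D : Finset G} (hD : D ⊆ CP y) : Odd (nm (∏ w ∈ D, w)) := by
  rw [nm_prod_sa]
  refine Finset.prod_induction _ Odd (fun a b ha hb => ha.mul hb) odd_one ?_
  intro w hw
  exact (mem_CP_sa.mp (hD hw)).2.2.1

theorem sum_exp (b t : ℕ) : ∑ i ∈ Finset.range t, (2 * ((b : ℝ) + i) + 1) / 2 ^ i =
    (4 * b + 6) - (4 * b + 4 * t + 6) / 2 ^ t := by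
  induction t with
  | zero => simp
  | succ t ih =>
    rw [Finset.sum_range_succ, ih, pow_succ]
    push_cast
    field_simp
    ring

/-- the levels of the sieve -/
noncomputable def lev (y : ℝ) (i : ℕ) : ℝ := y ^ ((1 : ℝ) / 2 ^ i)

theorem lev_pos {y : ℝ} (hy : 1 ≤ y) (i : ℕ) : 0 < lev y i := Real.rpow_pos_of_pos (by linarith) _

theorem one_le_lev {y : ℝ} (hy : 1 ≤ y) (i : ℕ) : 1 ≤ lev y i :=
  Real.one_le_rpow hy (by positivity)

theorem lev_zero (y : ℝ) : lev y 0 = y := by simp [lev]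

theorem lev_anti {y : ℝ} (hy : 1 ≤ y) {i j : ℕ} (h : i ≤ j) : lev y j ≤ lev y i := by
  unfold lev
  refine Real.rpow_le_rpow_of_exponent_le hy ?_
  exact one_div_le_one_div_of_le (by positivity) (pow_le_pow_right₀ (by norm_num) h)

theorem lev_succ_sq {y : ℝ} (hy : 1 ≤ y) (i : ℕ) : lev y (i + 1) ^ 2 = lev y i := by
  unfold lev
  rw [← Real.rpow_natCast, ← Real.rpow_mul (by linarith)]
  congr 1
  rw [pow_succ]
  push_cast
  field_simp

theorem log_lev {y : ℝ} (hy : 1 ≤ y) (i : ℕ) : Real.log (lev y i) = Real.log y / 2 ^ i := by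
  unfold lev
  rw [Real.log_rpow (by linarith)]
  ring

open Classical in
/-- the classes of primes -/
noncomputable def PC (y : ℝ) (i : ℕ) : Finset G :=
  (CP y).filter (fun w => lev y (i + 1) < (nm w : ℝ) ∧ (nm w : ℝ) ≤ lev y i)

theorem mem_PC {y : ℝ} {i : ℕ} {w : G} :
    w ∈ PC y i ↔ w ∈ CP y ∧ lev y (i + 1) < (nm w : ℝ) ∧ (nm w : ℝ) ≤ lev y i := by
  classical
  simp [PC]

theorem PC_disjoint {y : ℝ} (hy : 1 ≤ y) {i j : ℕ} (h : i ≠ j) : Disjoint (PC y i) (PC y j) := by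
  rw [Finset.disjoint_left]
  intro w h1 h2
  rw [mem_PC] at h1 h2
  rcases lt_or_gt_of_ne h with h3 | h3
  · have := lev_anti hy (Nat.succ_le_of_lt h3)
    linarith [h1.2.1, h2.2.2]
  · have := lev_anti hy (Nat.succ_le_of_lt h3)
    linarith [h2.2.1, h1.2.2]

theorem PC_union {y : ℝ} {t : ℕ} (ht : lev y t < 5) :
    (Finset.range t).biUnion (PC y) = CP y := by
  classical
  ext w
  rw [Finset.mem_biUnion]
  constructor
  · rintro ⟨i, -, hi⟩
    exact (mem_PC.mp hi).1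
  · intro hw
    have h5 : (5 : ℝ) ≤ nm w := by exact_mod_cast CP_nm hw
    have hex : ∃ j, lev y j < (nm w : ℝ) := ⟨t, ht.trans_le h5⟩
    have hj := Nat.find_spec hex
    have hmin : ∀ j, j < Nat.find hex → ¬ lev y j < (nm w : ℝ) := fun j hj => Nat.find_min hex hj
    have hjt : Nat.find hex ≤ t := Nat.find_min' hex (ht.trans_le h5)
    have hj0 : Nat.find hex ≠ 0 := by
      intro h0
      rw [h0, lev_zero] at hj
      exact absurd (mem_CP_sa.mp hw).1 (not_le.mpr hj)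
    obtain ⟨i, hi⟩ := Nat.exists_eq_succ_of_ne_zero hj0
    refine ⟨i, Finset.mem_range.mpr (by omega), mem_PC.mpr ⟨hw, ?_, ?_⟩⟩
    · rw [hi] at hj
      exact hj
    · exact not_lt.mp (hmin i (by omega))

/-- the number of levels -/
theorem exists_t {y : ℝ} (hy : 1 ≤ y) : ∃ t : ℕ, lev y t < 5 ∧ (∀ i < t, 5 ≤ lev y i) ∧
    (t : ℝ) ≤ Real.log y := by
  classical
  have hl5 : 1 ≤ Real.log 5 := by
    rw [Real.le_log_iff_exp_le (by norm_num)]
    linarith [Real.exp_one_lt_d9]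
  have hly : 0 ≤ Real.log y := Real.log_nonneg hy
  have hex : ∃ t : ℕ, lev y t < 5 := by
    obtain ⟨t, ht⟩ := pow_unbounded_of_one_lt (Real.log y) (by norm_num : (1 : ℝ) < 2)
    refine ⟨t, ?_⟩
    rw [← Real.log_lt_log_iff (lev_pos hy t) (by norm_num), log_lev hy, div_lt_iff₀ (by positivity)]
    nlinarith [pow_pos (by norm_num : (0 : ℝ) < 2) t]
  refine ⟨Nat.find hex, Nat.find_spec hex, fun i hi => not_lt.mp (Nat.find_min hex hi), ?_⟩
  rcases Nat.eq_zero_or_pos (Nat.find hex) with h0 | h0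
  · rw [h0]; simpa using hly
  · have h1 : 5 ≤ lev y (Nat.find hex - 1) := not_lt.mp (Nat.find_min hex (by omega))
    have h2 := Real.log_le_log (by norm_num) h1
    rw [log_lev hy, le_div_iff₀ (by positivity)] at h2
    have h3 : Nat.find hex ≤ 2 ^ (Nat.find hex - 1) := by
      have := Nat.lt_two_pow_self (n := Nat.find hex - 1)
      omega
    have h3' : (Nat.find hex : ℝ) ≤ 2 ^ (Nat.find hex - 1) := by exact_mod_cast h3
    nlinarith [pow_pos (by norm_num : (0 : ℝ) < 2) (Nat.find hex - 1)]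


theorem class_sum {C : ℝ} (hC : ∀ y y' : ℝ, 2 ≤ y' → y' ≤ y →
    ∑ w ∈ (CP y).filter (fun w => y' < (nm w : ℝ)), 1 / (nm w : ℝ) ≤
      Real.log (Real.log y) - Real.log (Real.log y') + C) {y : ℝ} (hy : 1 ≤ y) {i : ℕ}
    (h5 : 5 ≤ lev y i) : ∑ w ∈ PC y i, 1 / (nm w : ℝ) ≤ Real.log 2 + C := by
  classical
  have hsq := lev_succ_sq hy i
  have hp := lev_pos hy (i + 1)
  have h2 : 2 ≤ lev y (i + 1) := by nlinarith
  have h1 := hC (lev y i) (lev y (i + 1)) h2 (lev_anti hy (Nat.le_succ i))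
  have hlog : Real.log (lev y i) = 2 * Real.log (lev y (i + 1)) := by
    rw [← hsq, Real.log_pow]
    norm_num
  have hlp : 0 < Real.log (lev y (i + 1)) := Real.log_pos (by linarith)
  rw [hlog, Real.log_mul (by norm_num) hlp.ne'] at h1
  refine le_trans ?_ (h1.trans (by linarith))
  refine Finset.sum_le_sum_of_subset_of_nonneg ?_ (fun w _ _ => by positivity)
  intro w hw
  rw [mem_PC] at hw
  refine Finset.mem_filter.mpr ⟨?_, hw.2.1⟩
  have := mem_CP_sa.mp hw.1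
  exact mem_CP_sa.mpr ⟨hw.2.2, this.2⟩

theorem sum_sq_le_sa : ∃ C2 : ℝ, 0 ≤ C2 ∧ ∀ y : ℝ, ∑ w ∈ CP y, (1 / (nm w : ℝ)) ^ 2 ≤ C2 := by
  classical
  have hsum := EisensteinSeries.summable_one_div_norm_rpow (k := 4) (by norm_num)
  refine ⟨∑' x : Fin 2 → ℤ, ‖x‖ ^ (-4 : ℝ), tsum_nonneg fun x => by positivity, ?_⟩
  intro y
  have hinj : Function.Injective (fun w : G => (![w.re, w.im] : Fin 2 → ℤ)) := by
    intro w w' h
    have h0 := congrFun h 0
    have h1 := congrFun h 1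
    simp at h0 h1
    exact Zsqrtd.ext h0 h1
  calc ∑ w ∈ CP y, (1 / (nm w : ℝ)) ^ 2 ≤
      ∑ w ∈ CP y, ‖(![w.re, w.im] : Fin 2 → ℤ)‖ ^ (-4 : ℝ) := by
        refine Finset.sum_le_sum fun w hw => ?_
        have hw5 := CP_nm hw
        have hn : (0 : ℝ) < nm w := by exact_mod_cast (by omega : 0 < nm w)
        have hw0 : (0 : ℝ) < w.re := by exact_mod_cast (mem_CP_sa.mp hw).2.2.2.1
        have hv : ‖(![w.re, w.im] : Fin 2 → ℤ)‖ ^ 2 ≤ (nm w : ℝ) := by
          have hle : ‖(![w.re, w.im] : Fin 2 → ℤ)‖ ≤ Real.sqrt (nm w) := by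
            rw [pi_norm_le_iff_of_nonneg (Real.sqrt_nonneg _)]
            have hnm : ((nm w : ℕ) : ℝ) = (w.re : ℝ) ^ 2 + (w.im : ℝ) ^ 2 := by
              have h := nm_eq w
              exact_mod_cast h
            intro i
            fin_cases i
            · change ‖w.re‖ ≤ _
              rw [Int.norm_eq_abs]
              apply Real.abs_le_sqrt
              rw [hnm]
              nlinarith [sq_nonneg (w.im : ℝ)]
            · change ‖w.im‖ ≤ _
              rw [Int.norm_eq_abs]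
              apply Real.abs_le_sqrt
              rw [hnm]
              nlinarith [sq_nonneg (w.re : ℝ)]
          have h1 := pow_le_pow_left₀ (norm_nonneg _) hle 2
          rwa [Real.sq_sqrt hn.le] at h1
        have hv0 : 0 < ‖(![w.re, w.im] : Fin 2 → ℤ)‖ := by
          rw [norm_pos_iff]
          intro h
          have h0 := congrFun h 0
          simp at h0
          have : (0 : ℝ) < 0 := by
            have h' := hw0
            rw [h0] at h'
            simp at h'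
          exact lt_irrefl _ this
        have e1 : ‖(![w.re, w.im] : Fin 2 → ℤ)‖ ^ (-4 : ℝ) =
            (1 / ‖(![w.re, w.im] : Fin 2 → ℤ)‖ ^ 2) ^ 2 := by
          rw [Real.rpow_neg hv0.le]
          have : (4 : ℝ) = ((4 : ℕ) : ℝ) := by norm_num
          rw [this, Real.rpow_natCast]
          field_simp
        rw [e1]
        gcongr
    _ = ∑ x ∈ (CP y).image (fun w : G => (![w.re, w.im] : Fin 2 → ℤ)), ‖x‖ ^ (-4 : ℝ) := by
        rw [Finset.sum_image fun a _ b _ h => hinj h]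
    _ ≤ ∑' x : Fin 2 → ℤ, ‖x‖ ^ (-4 : ℝ) :=
        hsum.sum_le_tsum _ fun x _ => by positivity

theorem one_sub_ge_sa {x : ℝ} (h0 : 0 ≤ x) (h1 : x ≤ 1 / 2) :
    Real.exp (-(x + 2 * x ^ 2)) ≤ 1 - x := by
  have hpos : 0 < 1 - x := by linarith
  rw [← Real.le_log_iff_exp_le hpos]
  refine le_trans ?_ (Real.one_sub_inv_le_log_of_pos hpos)
  have : (1 - x)⁻¹ ≤ 1 + x + 2 * x ^ 2 := by
    rw [inv_le_iff_one_le_mul₀ hpos]
    nlinarith [mul_nonneg h0 (mul_nonneg h0 (by linarith : 0 ≤ 1 / 2 - x))]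
  linarith

theorem CP_prod_lower : ∃ c3 : ℝ, 0 < c3 ∧ ∀ y : ℝ, 2 ≤ y →
    c3 / Real.log y ≤ ∏ w ∈ CP y, (1 - 1 / (nm w : ℝ)) := by
  classical
  obtain ⟨C, hC0, hC⟩ := CP_sum
  obtain ⟨C2, hC20, hC2⟩ := sum_sq_le_sa
  refine ⟨Real.log 2 * Real.exp (-(C + 2 * C2)), by positivity, ?_⟩
  intro y hy
  have h1 := hC y 2 le_rfl hy
  have hf : (CP y).filter (fun w => (2 : ℝ) < (nm w : ℝ)) = CP y := by
    rw [Finset.filter_eq_self]
    intro w hw
    have := CP_nm hw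
    exact_mod_cast (by omega : 2 < nm w)
  rw [hf] at h1
  have hly : 0 < Real.log y := Real.log_pos (by linarith)
  have hl2 : 0 < Real.log 2 := Real.log_pos (by norm_num)
  calc Real.log 2 * Real.exp (-(C + 2 * C2)) / Real.log y =
      Real.exp (-(Real.log (Real.log y) - Real.log (Real.log 2) + C) + -(2 * C2)) := by
        have e1 : -(Real.log (Real.log y) - Real.log (Real.log 2) + C) + -(2 * C2) =
            Real.log (Real.log 2) + -(C + 2 * C2) - Real.log (Real.log y) := by ring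
        rw [e1, Real.exp_sub, Real.exp_add, Real.exp_log hl2, Real.exp_log hly]
    _ ≤ Real.exp (∑ w ∈ CP y, -(1 / (nm w : ℝ) + 2 * (1 / (nm w : ℝ)) ^ 2)) := by
        apply Real.exp_le_exp.mpr
        rw [Finset.sum_neg_distrib, Finset.sum_add_distrib, ← Finset.mul_sum]
        have := hC2 y
        linarith
    _ = ∏ w ∈ CP y, Real.exp (-(1 / (nm w : ℝ) + 2 * (1 / (nm w : ℝ)) ^ 2)) :=
        Real.exp_sum _ _
    _ ≤ ∏ w ∈ CP y, (1 - 1 / (nm w : ℝ)) := by
        refine Finset.prod_le_prod (fun w _ => (Real.exp_pos _).le) fun w hw => ?_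
        have h5 : (5 : ℝ) ≤ nm w := by exact_mod_cast CP_nm hw
        refine one_sub_ge_sa (by positivity) ?_
        rw [div_le_div_iff₀ (by linarith) (by norm_num)]
        linarith

theorem nm_prod_le {y : ℝ} (hy : 1 ≤ y) {b t : ℕ} {D : Finset G}
    (hD : D ⊆ (Finset.range t).biUnion (PC y))
    (hc : ∀ i < t, (D ∩ PC y i).card ≤ 2 * (b + i) + 1) :
    (nm (∏ w ∈ D, w) : ℝ) ≤ y ^ (4 * b + 6 : ℝ) := by
  classical
  have hDe : D = (Finset.range t).biUnion (fun i => D ∩ PC y i) := by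
    rw [← Finset.inter_biUnion, Finset.inter_eq_left.mpr hD]
  rw [nm_prod_sa]
  push_cast
  rw [hDe, Finset.prod_biUnion]
  · calc ∏ i ∈ Finset.range t, ∏ w ∈ D ∩ PC y i, (nm w : ℝ) ≤
        ∏ i ∈ Finset.range t, y ^ ((2 * ((b : ℝ) + i) + 1) / 2 ^ i) := by
          refine Finset.prod_le_prod (fun i _ => Finset.prod_nonneg fun w _ => Nat.cast_nonneg _)
            fun i hi => ?_
          calc ∏ w ∈ D ∩ PC y i, (nm w : ℝ) ≤ ∏ w ∈ D ∩ PC y i, lev y i := by
                refine Finset.prod_le_prod (fun w _ => Nat.cast_nonneg _) fun w hw => ?_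
                exact (mem_PC.mp (Finset.mem_inter.mp hw).2).2.2
            _ = lev y i ^ (D ∩ PC y i).card := by rw [Finset.prod_const]
            _ ≤ lev y i ^ (2 * (b + i) + 1) :=
                pow_le_pow_right₀ (one_le_lev hy i) (hc i (Finset.mem_range.mp hi))
            _ = y ^ ((2 * ((b : ℝ) + i) + 1) / 2 ^ i) := by
                unfold lev
                rw [← Real.rpow_natCast, ← Real.rpow_mul (by linarith)]
                congr 1
                push_cast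
                ring
      _ = y ^ (∑ i ∈ Finset.range t, (2 * ((b : ℝ) + i) + 1) / 2 ^ i) := by
          rw [Real.rpow_sum_of_pos (by linarith)]
      _ ≤ y ^ (4 * b + 6 : ℝ) := by
          refine Real.rpow_le_rpow_of_exponent_le hy ?_
          rw [sum_exp]
          have : 0 ≤ (4 * (b : ℝ) + 4 * t + 6) / 2 ^ t := by positivity
          linarith
  · intro i _ j _ hij
    exact Finset.disjoint_of_subset_left Finset.inter_subset_right
      (Finset.disjoint_of_subset_right Finset.inter_subset_right (PC_disjoint hy hij))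


theorem err_small_sa {r c : ℝ} (hc : 0 < c) (h : r = 3 / 200000) :
    ∀ᶠ X : ℝ in Filter.atTop, (Real.log X + 1) * 9 * X ^ (-r) ≤ c := by
  have hr : 0 < r := by rw [h]; norm_num
  have h1 : Filter.Tendsto (fun X : ℝ => Real.log X / X ^ r) Filter.atTop (nhds 0) :=
    (isLittleO_log_rpow_atTop hr).tendsto_div_nhds_zero
  have h2 : Filter.Tendsto (fun X : ℝ => X ^ (-r)) Filter.atTop (nhds 0) :=
    tendsto_rpow_neg_atTop hr
  have h3 : Filter.Tendsto (fun X : ℝ => Real.log X / X ^ r * 9 + X ^ (-r) * 9) Filter.atTop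
      (nhds (0 * 9 + 0 * 9)) := (h1.mul_const 9).add (h2.mul_const 9)
  rw [zero_mul, add_zero] at h3
  filter_upwards [h3.eventually_le_const hc, Filter.eventually_gt_atTop 0] with X hX hX0
  have e : Real.log X / X ^ r = Real.log X * X ^ (-r) := by
    rw [Real.rpow_neg hX0.le]
    rfl
  rw [e] at hX
  linarith


open Classical in
/-- `brun_hooley` with an arbitrary decidability instance -/
theorem bh_inst (G0 : ℝ) (hG0 : 0 ≤ G0) : ∃ b : ℕ, ∀ (Ω ι : Type) (_inst : DecidableEq ι)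
    (obj : Finset Ω) (w : Ω → ℝ)
    (t : ℕ) (P : ℕ → Finset ι) (S : Ω → Finset ι) (g : ι → ℝ) (X0 E : ℝ),
    (∀ u ∈ obj, 0 ≤ w u) → (∀ i j, i < t → j < t → i ≠ j → Disjoint (P i) (P j)) →
    (∀ u ∈ obj, S u ⊆ (Finset.range t).biUnion P) →
    (∀ p ∈ (Finset.range t).biUnion P, 0 ≤ g p ∧ g p ≤ 1 / 2) →
    (∀ i < t, ∑ p ∈ P i, g p ≤ G0) → 0 ≤ X0 → 0 ≤ E →
    (∀ D ⊆ (Finset.range t).biUnion P, (∀ i < t, (D ∩ P i).card ≤ 2 * (b + i) + 1) →
      |∑ u ∈ obj.filter (fun u => D ⊆ S u), w u - X0 * ∏ p ∈ D, g p| ≤ E) →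
    X0 / 2 * ∏ p ∈ (Finset.range t).biUnion P, (1 - g p) -
      (t + 1) * (((Finset.range t).biUnion P).powerset.filter
        (fun D => ∀ i < t, (D ∩ P i).card ≤ 2 * (b + i) + 1)).card * E ≤
      ∑ u ∈ obj.filter (fun u => S u = ∅), w u := by
  obtain ⟨b, hb⟩ := brun_hooley G0 hG0
  refine ⟨b, ?_⟩
  intro Ω ι inst
  obtain rfl : inst = fun a b => Classical.propDecidable (a = b) := Subsingleton.elim _ _
  exact hb Ω ι

end SieveA

open SieveA

open Classical in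
/-- Apply `brun_hooley` to `obj = ob (X^(13/25)) \ ob (X^(12/25))`,
`w u = (1 / nm u) (1 - Re xi (2k) u) ≥ 0`, the primes `CP y`, `y = X^a`, classes
`P i = {w ∈ CP y : y^(1/2^(i+1)) < nm w ≤ y^(1/2^i)}` (`i < t`, `t` minimal with `y^(1/2^t) < 5`,
class sums `≤ log 2 + C` by `CP_sum`), `S u = {w ∈ ∪ P i : w ∣ u}`, `g w = 1 / nm w`,
`X0 = κ log X`, `E = X^(-1/40000)` from `weight`. A set `D` in the family has
`nm (∏ D) ≤ y^(∑ (2(b+i)+1)/2^i) ≤ y^(4 b + 6)`; choose `a = 1 / (100000 (4 b + 6))`; `D ⊆ S u ↔ ∏ D ∣ u`;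
`D ↦ ∏ D` is injective, so the family has at most `9 X^(1/100000)` members (`card_ball_le`).
`∏ (1 - 1/nm w) ≥ c / log y` by `CP_sum`. -/
theorem sieve_all : ∃ a c X0 : ℝ, 0 < a ∧ a ≤ 1 ∧ 0 < c ∧ ∀ X : ℝ, X0 ≤ X → ∀ k : ℤ, k ≠ 0 →
    |(k : ℝ)| ≤ X → c ≤ ∑ u ∈ (ob (X ^ (13 / 25 : ℝ)) \ ob (X ^ (12 / 25 : ℝ))).filter
      (fun u => ∀ p : G, Prime p → p ∣ u → X ^ a ≤ (nm p : ℝ)),
      (1 / (nm u : ℝ)) * (1 - (xi (2 * k) u).re) := by
  obtain ⟨C, hC0, hC⟩ := CP_sum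
  obtain ⟨c3, hc3, hprod⟩ := CP_prod_lower
  obtain ⟨κ, X1, hκ, hw⟩ := weight
  have hl2 : 0 < Real.log 2 := Real.log_pos (by norm_num)
  obtain ⟨b, hb⟩ := bh_inst (Real.log 2 + C) (by positivity)
  obtain ⟨a, ha⟩ : ∃ a : ℝ, a = 1 / (100000 * (4 * b + 6)) := ⟨_, rfl⟩
  have ha0 : 0 < a := by rw [ha]; positivity
  have ha1 : a ≤ 1 := by
    rw [ha, div_le_one (by positivity)]
    have : (0 : ℝ) ≤ b := Nat.cast_nonneg b
    linarith
  have hab : a * (4 * b + 6) = 1 / 100000 := by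
    rw [ha]
    have : (4 * (b : ℝ) + 6) ≠ 0 := by positivity
    field_simp
  have hc : 0 < κ * c3 / (4 * a) := by positivity
  obtain ⟨X2, hX2⟩ := Filter.eventually_atTop.mp ((err_small_sa hc rfl).and
    (((tendsto_rpow_atTop ha0).eventually_ge_atTop 2)))
  refine ⟨a, κ * c3 / (4 * a), max (max X1 X2) 2, ha0, ha1, hc, ?_⟩
  intro X hX k hk hkX
  have hXX1 : X1 ≤ X := (le_max_left _ _).trans ((le_max_left _ _).trans hX)
  have hXX2 : X2 ≤ X := (le_max_right _ _).trans ((le_max_left _ _).trans hX)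
  have hX2' : 2 ≤ X := (le_max_right _ _).trans hX
  obtain ⟨herr, hy2⟩ := hX2 X hXX2
  have hX0 : 0 < X := by linarith
  have hX1 : 1 ≤ X := by linarith
  obtain ⟨y, hy⟩ : ∃ y : ℝ, y = X ^ a := ⟨_, rfl⟩
  rw [← hy] at hy2
  have hy1 : 1 ≤ y := by linarith
  have hlogy : Real.log y = a * Real.log X := by rw [hy, Real.log_rpow hX0]
  have hlogX : 0 < Real.log X := Real.log_pos (by linarith)
  have hlogy0 : 0 < Real.log y := by rw [hlogy]; positivity
  have hyX : y ^ (4 * b + 6 : ℝ) = X ^ (1 / 100000 : ℝ) := by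
    rw [hy, ← Real.rpow_mul hX0.le, hab]
  obtain ⟨t, ht5, hti, htl⟩ := exists_t hy1
  have hun := PC_union ht5
  set obj := ob (X ^ (13 / 25 : ℝ)) \ ob (X ^ (12 / 25 : ℝ)) with hobj
  have hodd : ∀ u ∈ obj, Odd (nm u) := by
    intro u hu
    have h1 := (Finset.mem_sdiff.mp hu).1
    unfold ob at h1
    exact (Finset.mem_filter.mp h1).2
  have hW : ∀ u ∈ obj, 0 ≤ (1 / (nm u : ℝ)) * (1 - (xi (2 * k) u).re) := by
    intro u hu
    have h1 : (xi (2 * k) u).re ≤ 1 := by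
      rw [← norm_xi (2 * k) (ne_zero_of_odd (hodd u hu))]
      exact Complex.re_le_norm _
    exact mul_nonneg (by positivity) (by linarith)
  have hBH := hb G G inferInstance obj (fun u => (1 / (nm u : ℝ)) * (1 - (xi (2 * k) u).re)) t (PC y)
    (fun u => (CP y).filter (fun w => w ∣ u)) (fun w => 1 / (nm w : ℝ)) (κ * Real.log X)
    (X ^ (-(1 / 40000 : ℝ))) hW (fun i j _ _ hij => PC_disjoint hy1 hij)
    (by
      intro u _
      rw [hun]
      exact Finset.filter_subset _ _)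
    (by
      rw [hun]
      intro p hp
      have h5 : (5 : ℝ) ≤ nm p := by exact_mod_cast CP_nm hp
      refine ⟨by positivity, ?_⟩
      rw [div_le_div_iff₀ (by linarith) (by norm_num)]
      linarith)
    (fun i hi => class_sum hC hy1 (hti i hi)) (by positivity) (by positivity)
    (by
      intro D hD hcard
      have hnm := nm_prod_le hy1 hD hcard
      rw [hyX] at hnm
      rw [hun] at hD
      have hfil : obj.filter (fun u => D ⊆ (CP y).filter (fun w => w ∣ u)) =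
          obj.filter (fun u => (∏ w ∈ D, w) ∣ u) := by
        refine Finset.filter_congr fun u _ => ?_
        constructor
        · intro h
          exact prod_dvd_of_sa hD fun w hw => (Finset.mem_filter.mp (h hw)).2
        · intro h w hw
          exact Finset.mem_filter.mpr ⟨hD hw, (Finset.dvd_prod_of_mem (fun w => w) hw).trans h⟩
      rw [hfil]
      have h1 := hw X hXX1 (∏ w ∈ D, w) (odd_prod_sa hD)
        (hnm.trans (Real.rpow_le_rpow_of_exponent_le hX1 (by norm_num))) k hk hkX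
      have h2 : ∏ p ∈ D, 1 / (nm p : ℝ) = 1 / (nm (∏ w ∈ D, w) : ℝ) := by
        rw [nm_prod_sa]
        push_cast
        rw [Finset.prod_div_distrib, Finset.prod_const_one]
      rw [h2, mul_one_div]
      exact h1)
  rw [hun] at hBH
  -- the size of the family
  have hcardF : (((CP y).powerset.filter
      (fun D => ∀ i < t, (D ∩ PC y i).card ≤ 2 * (b + i) + 1)).card : ℝ) ≤
      9 * X ^ (1 / 100000 : ℝ) := by
    refine le_trans ?_ (card_ball_le (X ^ (1 / 100000 : ℝ)) (by positivity))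
    norm_cast
    refine Finset.card_le_card_of_injOn (fun D => ∏ w ∈ D, w) ?_ ?_
    · intro D hD
      have hD' := Finset.mem_filter.mp (Finset.mem_coe.mp hD)
      have hDC := Finset.mem_powerset.mp hD'.1
      have hnm := nm_prod_le hy1 (D := D) (by rw [hun]; exact hDC) hD'.2
      rw [hyX] at hnm
      refine Finset.mem_coe.mpr (Finset.mem_filter.mpr ⟨mem_ball.mpr hnm, ?_⟩)
      exact ne_zero_of_odd (odd_prod_sa hDC)
    · intro D hD D' hD' h
      have h1 := Finset.mem_powerset.mp (Finset.mem_filter.mp (Finset.mem_coe.mp hD)).1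
      have h2 := Finset.mem_powerset.mp (Finset.mem_filter.mp (Finset.mem_coe.mp hD')).1
      exact prod_inj_sa h1 h2 h
  -- the final inequality
  have hsub : ∑ u ∈ obj.filter (fun u => (CP y).filter (fun w => w ∣ u) = ∅),
      (1 / (nm u : ℝ)) * (1 - (xi (2 * k) u).re) ≤
      ∑ u ∈ obj.filter (fun u => ∀ p : G, Prime p → p ∣ u → X ^ a ≤ (nm p : ℝ)),
      (1 / (nm u : ℝ)) * (1 - (xi (2 * k) u).re) := by
    refine Finset.sum_le_sum_of_subset_of_nonneg ?_ ?_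
    · intro u hu
      obtain ⟨hu1, hu2⟩ := Finset.mem_filter.mp hu
      refine Finset.mem_filter.mpr ⟨hu1, fun p hp hpu => ?_⟩
      by_contra hlt
      rw [not_le, ← hy] at hlt
      have hpo : Odd (nm p) := by
        obtain ⟨c, hc⟩ := nm_dvd hpu
        have h1 := hodd u hu1
        rw [hc] at h1
        exact (Nat.odd_mul.mp h1).1
      obtain ⟨w, hwC, hwp⟩ := CP_exists hp hpo hlt.le
      have : w ∈ (CP y).filter (fun w => w ∣ u) :=
        Finset.mem_filter.mpr ⟨hwC, hwp.dvd.trans hpu⟩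
      rw [hu2] at this
      exact absurd this (Finset.notMem_empty _)
    · intro u hu _
      exact hW u (Finset.mem_filter.mp hu).1
  refine le_trans ?_ (hBH.trans hsub)
  have hmain : κ * c3 / (2 * a) ≤
      κ * Real.log X / 2 * ∏ p ∈ CP y, (1 - 1 / (nm p : ℝ)) := by
    have h1 := mul_le_mul_of_nonneg_left (hprod y hy2)
      (by positivity : 0 ≤ κ * Real.log X / 2)
    refine le_trans (le_of_eq ?_) h1
    rw [hlogy]
    field_simp
  have hE : ((t : ℝ) + 1) * (((CP y).powerset.filter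
      (fun D => ∀ i < t, (D ∩ PC y i).card ≤ 2 * (b + i) + 1)).card : ℝ) *
      X ^ (-(1 / 40000 : ℝ)) ≤ κ * c3 / (4 * a) := by
    have htX : (t : ℝ) + 1 ≤ Real.log X + 1 := by
      have : Real.log y ≤ Real.log X := by
        rw [hlogy]
        nlinarith
      linarith
    calc ((t : ℝ) + 1) * (((CP y).powerset.filter
      (fun D => ∀ i < t, (D ∩ PC y i).card ≤ 2 * (b + i) + 1)).card : ℝ) *
      X ^ (-(1 / 40000 : ℝ)) ≤ (Real.log X + 1) * (9 * X ^ (1 / 100000 : ℝ)) *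
        X ^ (-(1 / 40000 : ℝ)) := by
          refine mul_le_mul_of_nonneg_right ?_ (by positivity)
          exact mul_le_mul htX hcardF (Nat.cast_nonneg _) (by positivity)
      _ = (Real.log X + 1) * 9 * X ^ (-(3 / 200000 : ℝ)) := by
          have : X ^ (-(3 / 200000 : ℝ)) = X ^ (1 / 100000 : ℝ) * X ^ (-(1 / 40000 : ℝ)) := by
            rw [← Real.rpow_add hX0]
            norm_num
          rw [this]
          ring
      _ ≤ κ * c3 / (4 * a) := herr
  have h4 : κ * c3 / (2 * a) = 2 * (κ * c3 / (4 * a)) := by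
    field_simp
    ring
  linarith

end Pool.Agent.GaussMR

end

/-! ### from `Lib_MP_92ef0c_spi.SieveI` -/

section

/-!
# Piece I-SIEVE: rough numbers on which n^(iτ) is not close to one
-/

set_option autoImplicit false

namespace Pool.Agent.SplI

open Finset

open Pool.Agent.GaussMR.SieveA (sum_exp lev lev_pos one_le_lev lev_zero lev_anti lev_succ_sq
  log_lev exists_t one_sub_ge_sa)

namespace SieveI

/-- the error term tends to zero -/
theorem sieveI_err {η B c : ℝ} (hη : 0 < η) (hc : 0 < c) :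
    ∀ᶠ Y : ℝ in Filter.atTop, Y ^ (-η) * (B * Real.log Y) ≤ c := by
  have h1 : Filter.Tendsto (fun Y : ℝ => Real.log Y / Y ^ η) Filter.atTop (nhds 0) :=
    (isLittleO_log_rpow_atTop hη).tendsto_div_nhds_zero
  have h3 : Filter.Tendsto (fun Y : ℝ => B * (Real.log Y / Y ^ η)) Filter.atTop
      (nhds (B * 0)) := h1.const_mul B
  rw [mul_zero] at h3
  filter_upwards [h3.eventually_le_const hc, Filter.eventually_gt_atTop 0] with Y hY hY0
  refine le_trans (le_of_eq ?_) hY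
  rw [Real.rpow_neg hY0.le]
  ring

/-- `∑ 1 / p` over the primes up to `y` -/
theorem sieveI_sum : ∃ C : ℝ, 0 < C ∧ ∀ y : ℝ, 2 ≤ y →
    ∑ p ∈ PrI 1 y, 1 / (p : ℝ) ≤ Real.log (Real.log y) - Real.log (Real.log 2) + C := by
  obtain ⟨C, hC0, hC⟩ := Lr_bounds
  refine ⟨C + 1, by linarith, fun y hy => ?_⟩
  have h1 := (abs_le.1 (hC 2 y le_rfl hy)).2
  have hsub : PrI 1 y ⊆ insert 2 (PrI 2 y) := by
    intro p hp
    rw [mem_PrI] at hp
    rw [mem_insert, mem_PrI]
    rcases Nat.eq_or_lt_of_le hp.1.two_le with h | h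
    · exact Or.inl h.symm
    · exact Or.inr ⟨hp.1, by exact_mod_cast h, hp.2.2⟩
  have h2 : ∑ p ∈ PrI 1 y, 1 / (p : ℝ) ≤ ∑ p ∈ insert 2 (PrI 2 y), 1 / (p : ℝ) :=
    Finset.sum_le_sum_of_subset_of_nonneg hsub fun p _ _ => by positivity
  have h3 : ∑ p ∈ insert 2 (PrI 2 y), 1 / (p : ℝ) = 1 / 2 + Lr 2 y := by
    rw [Finset.sum_insert]
    · simp [Lr]
    · rw [mem_PrI]
      intro h
      have := h.2.1
      norm_num at this
  linarith

/-- `∏ (1 + 1 / p)` over the primes up to `y` -/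
theorem sieveI_prod : ∃ B : ℝ, 0 < B ∧ ∀ y : ℝ, 2 ≤ y →
    ∏ p ∈ PrI 1 y, (1 + 1 / (p : ℝ)) ≤ B * Real.log y := by
  obtain ⟨C, hC0, hC⟩ := sieveI_sum
  have hl2 : 0 < Real.log 2 := Real.log_pos (by norm_num)
  refine ⟨Real.exp C / Real.log 2, by positivity, fun y hy => ?_⟩
  have hly : 0 < Real.log y := Real.log_pos (by linarith)
  calc ∏ w ∈ PrI 1 y, (1 + 1 / (w : ℝ)) ≤ ∏ w ∈ PrI 1 y, Real.exp (1 / (w : ℝ)) := by
        refine Finset.prod_le_prod (fun w _ => by positivity) fun w _ => ?_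
        have := Real.add_one_le_exp (1 / (w : ℝ))
        linarith
    _ = Real.exp (∑ w ∈ PrI 1 y, 1 / (w : ℝ)) := (Real.exp_sum _ _).symm
    _ ≤ Real.exp (Real.log (Real.log y) - Real.log (Real.log 2) + C) :=
        Real.exp_le_exp.mpr (hC y hy)
    _ = Real.exp C / Real.log 2 * Real.log y := by
        rw [Real.exp_add, Real.exp_sub, Real.exp_log hly, Real.exp_log hl2]
        ring

theorem sieveI_sq : ∃ C2 : ℝ, 0 ≤ C2 ∧ ∀ y : ℝ, ∑ p ∈ PrI 1 y, (1 / (p : ℝ)) ^ 2 ≤ C2 := by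
  have hsum : Summable (fun n : ℕ => 1 / (n : ℝ) ^ 2) :=
    Real.summable_one_div_nat_pow.2 (by norm_num)
  refine ⟨∑' n : ℕ, 1 / (n : ℝ) ^ 2, tsum_nonneg fun n => by positivity, fun y => ?_⟩
  refine le_trans (le_of_eq ?_) (hsum.sum_le_tsum (PrI 1 y) fun n _ => by positivity)
  refine Finset.sum_congr rfl fun p _ => ?_
  rw [one_div_pow]

theorem sieveI_lower : ∃ c3 : ℝ, 0 < c3 ∧ ∀ y : ℝ, 2 ≤ y →
    c3 / Real.log y ≤ ∏ p ∈ PrI 1 y, (1 - 1 / (p : ℝ)) := by
  obtain ⟨C, hC0, hC⟩ := sieveI_sum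
  obtain ⟨C2, hC20, hC2⟩ := sieveI_sq
  have hl2 : 0 < Real.log 2 := Real.log_pos (by norm_num)
  refine ⟨Real.log 2 * Real.exp (-(C + 2 * C2)), by positivity, ?_⟩
  intro y hy
  have h1 := hC y hy
  have hly : 0 < Real.log y := Real.log_pos (by linarith)
  calc Real.log 2 * Real.exp (-(C + 2 * C2)) / Real.log y =
      Real.exp (-(Real.log (Real.log y) - Real.log (Real.log 2) + C) + -(2 * C2)) := by
        have e1 : -(Real.log (Real.log y) - Real.log (Real.log 2) + C) + -(2 * C2) =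
            Real.log (Real.log 2) + -(C + 2 * C2) - Real.log (Real.log y) := by ring
        rw [e1, Real.exp_sub, Real.exp_add, Real.exp_log hl2, Real.exp_log hly]
    _ ≤ Real.exp (∑ w ∈ PrI 1 y, -(1 / (w : ℝ) + 2 * (1 / (w : ℝ)) ^ 2)) := by
        apply Real.exp_le_exp.mpr
        rw [Finset.sum_neg_distrib, Finset.sum_add_distrib, ← Finset.mul_sum]
        have := hC2 y
        linarith
    _ = ∏ w ∈ PrI 1 y, Real.exp (-(1 / (w : ℝ) + 2 * (1 / (w : ℝ)) ^ 2)) :=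
        Real.exp_sum _ _
    _ ≤ ∏ w ∈ PrI 1 y, (1 - 1 / (w : ℝ)) := by
        refine Finset.prod_le_prod (fun w _ => (Real.exp_pos _).le) fun w hw => ?_
        have h5 : (2 : ℝ) ≤ w := by exact_mod_cast (mem_PrI.1 hw).1.two_le
        refine one_sub_ge_sa (by positivity) ?_
        rw [div_le_div_iff₀ (by linarith) (by norm_num)]
        linarith

open Classical in
/-- the classes of primes; the last one (index `t`) contains all the small primes -/
noncomputable def PN (y : ℝ) (t i : ℕ) : Finset ℕ :=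
  (PrI 1 y).filter (fun p => (p : ℝ) ≤ lev y i ∧ (i < t → lev y (i + 1) < (p : ℝ)))

theorem mem_PN {y : ℝ} {t i : ℕ} {p : ℕ} :
    p ∈ PN y t i ↔ p ∈ PrI 1 y ∧ (p : ℝ) ≤ lev y i ∧ (i < t → lev y (i + 1) < (p : ℝ)) := by
  classical
  simp [PN]

theorem PN_disjoint {y : ℝ} (hy : 1 ≤ y) {t i j : ℕ} (hi : i < t + 1) (hj : j < t + 1)
    (h : i ≠ j) : Disjoint (PN y t i) (PN y t j) := by
  rw [Finset.disjoint_left]
  intro w h1 h2
  rw [mem_PN] at h1 h2
  rcases lt_or_gt_of_ne h with h3 | h3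
  · have := lev_anti hy (Nat.succ_le_of_lt h3)
    have h4 := h1.2.2 (by omega)
    simp only [Nat.succ_eq_add_one] at this
    linarith [h2.2.1]
  · have := lev_anti hy (Nat.succ_le_of_lt h3)
    have h4 := h2.2.2 (by omega)
    simp only [Nat.succ_eq_add_one] at this
    linarith [h1.2.1]

theorem PN_union {y : ℝ} {t : ℕ} :
    (Finset.range (t + 1)).biUnion (PN y t) = PrI 1 y := by
  classical
  ext w
  rw [Finset.mem_biUnion]
  constructor
  · rintro ⟨i, -, hi⟩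
    exact (mem_PN.mp hi).1
  · intro hw
    by_cases hall : ∃ j, j ≤ t ∧ lev y j < (w : ℝ)
    · have hj := Nat.find_spec hall
      have hmin : ∀ j, j < Nat.find hall → ¬ (j ≤ t ∧ lev y j < (w : ℝ)) :=
        fun j hj => Nat.find_min hall hj
      have hj0 : Nat.find hall ≠ 0 := by
        intro h0
        rw [h0, lev_zero] at hj
        exact absurd (mem_PrI.mp hw).2.2 (not_le.mpr hj.2)
      obtain ⟨i, hi⟩ := Nat.exists_eq_succ_of_ne_zero hj0
      rw [hi] at hj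
      have hmi := hmin i (by omega)
      refine ⟨i, Finset.mem_range.mpr (by omega), mem_PN.mpr ⟨hw, ?_, fun _ => hj.2⟩⟩
      by_contra hlt
      exact hmi ⟨by omega, not_le.mp hlt⟩
    · push Not at hall
      exact ⟨t, Finset.mem_range.mpr (by omega),
        mem_PN.mpr ⟨hw, hall t le_rfl, fun h => absurd h (lt_irrefl _)⟩⟩

theorem PN_sum {C : ℝ} (hC0 : 0 < C) (hC : ∀ P Q : ℝ, 2 ≤ P → P ≤ Q →
    |Lr P Q - (Real.log (Real.log Q) - Real.log (Real.log P))| ≤ C) {y : ℝ} (hy : 1 ≤ y)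
    {t : ℕ} (ht : lev y t < 5) (ht5 : ∀ i < t, 5 ≤ lev y i) {i : ℕ} (hi : i < t + 1) :
    ∑ p ∈ PN y t i, 1 / (p : ℝ) ≤ 3 + C := by
  classical
  rcases Nat.lt_or_ge i t with hit | hit
  · have h5 := ht5 i hit
    have hsq := lev_succ_sq hy i
    have hp := lev_pos hy (i + 1)
    have h2 : 2 ≤ lev y (i + 1) := by nlinarith
    have h1 := (abs_le.1 (hC (lev y (i + 1)) (lev y i) h2 (lev_anti hy (Nat.le_succ i)))).2
    have hlog : Real.log (lev y i) = 2 * Real.log (lev y (i + 1)) := by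
      rw [← hsq, Real.log_pow]
      norm_num
    have hlp : 0 < Real.log (lev y (i + 1)) := Real.log_pos (by linarith)
    rw [hlog, Real.log_mul (by norm_num) hlp.ne'] at h1
    have hl2 : Real.log 2 ≤ 1 := by
      have := Real.log_two_lt_d9
      linarith
    have h3 : ∑ p ∈ PN y t i, 1 / (p : ℝ) ≤ Lr (lev y (i + 1)) (lev y i) := by
      unfold Lr
      refine Finset.sum_le_sum_of_subset_of_nonneg ?_ (fun w _ _ => by positivity)
      intro w hw
      rw [mem_PN] at hw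
      exact mem_PrI.mpr ⟨(mem_PrI.mp hw.1).1, hw.2.2 hit, hw.2.1⟩
    linarith
  · have hit' : i = t := by omega
    subst hit'
    have hsub : PN y i i ⊆ Finset.Icc 2 4 := by
      intro w hw
      rw [mem_PN] at hw
      have h1 : (w : ℝ) < 5 := lt_of_le_of_lt hw.2.1 ht
      have h2 : w < 5 := by exact_mod_cast h1
      have h3 := (mem_PrI.mp hw.1).1.two_le
      rw [Finset.mem_Icc]
      omega
    have h1 : ∑ p ∈ PN y i i, 1 / (p : ℝ) ≤ ∑ p ∈ Finset.Icc (2 : ℕ) 4, 1 / (p : ℝ) :=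
      Finset.sum_le_sum_of_subset_of_nonneg hsub fun p _ _ => by positivity
    have h2 : ∑ p ∈ Finset.Icc (2 : ℕ) 4, 1 / (p : ℝ) ≤ ∑ p ∈ Finset.Icc (2 : ℕ) 4, (1 : ℝ) := by
      refine Finset.sum_le_sum fun p hp => ?_
      have : (1 : ℝ) ≤ p := by
        have := (Finset.mem_Icc.mp hp).1
        exact_mod_cast (by omega : 1 ≤ p)
      rw [div_le_one (by linarith)]
      exact this
    have h3 : ∑ p ∈ Finset.Icc (2 : ℕ) 4, (1 : ℝ) = 3 := by simp
    linarith

theorem prod_le_PN {y : ℝ} (hy : 1 ≤ y) {b t : ℕ} {D : Finset ℕ}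
    (hD : D ⊆ (Finset.range (t + 1)).biUnion (PN y t))
    (hc : ∀ i < t + 1, (D ∩ PN y t i).card ≤ 2 * (b + i) + 1) :
    ((∏ w ∈ D, w : ℕ) : ℝ) ≤ y ^ (4 * b + 6 : ℝ) := by
  classical
  have hDe : D = (Finset.range (t + 1)).biUnion (fun i => D ∩ PN y t i) := by
    rw [← Finset.inter_biUnion, Finset.inter_eq_left.mpr hD]
  push_cast
  rw [hDe, Finset.prod_biUnion]
  · calc ∏ i ∈ Finset.range (t + 1), ∏ w ∈ D ∩ PN y t i, (w : ℝ) ≤
        ∏ i ∈ Finset.range (t + 1), y ^ ((2 * ((b : ℝ) + i) + 1) / 2 ^ i) := by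
          refine Finset.prod_le_prod (fun i _ => Finset.prod_nonneg fun w _ => Nat.cast_nonneg _)
            fun i hi => ?_
          calc ∏ w ∈ D ∩ PN y t i, (w : ℝ) ≤ ∏ w ∈ D ∩ PN y t i, lev y i := by
                refine Finset.prod_le_prod (fun w _ => Nat.cast_nonneg _) fun w hw => ?_
                exact (mem_PN.mp (Finset.mem_inter.mp hw).2).2.1
            _ = lev y i ^ (D ∩ PN y t i).card := by rw [Finset.prod_const]
            _ ≤ lev y i ^ (2 * (b + i) + 1) :=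
                pow_le_pow_right₀ (one_le_lev hy i) (hc i (Finset.mem_range.mp hi))
            _ = y ^ ((2 * ((b : ℝ) + i) + 1) / 2 ^ i) := by
                unfold lev
                rw [← Real.rpow_natCast, ← Real.rpow_mul (by linarith)]
                congr 1
                push_cast
                ring
      _ = y ^ (∑ i ∈ Finset.range (t + 1), (2 * ((b : ℝ) + i) + 1) / 2 ^ i) := by
          rw [Real.rpow_sum_of_pos (by linarith)]
      _ ≤ y ^ (4 * b + 6 : ℝ) := by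
          refine Real.rpow_le_rpow_of_exponent_le hy ?_
          rw [sum_exp]
          have : 0 ≤ (4 * (b : ℝ) + 4 * ((t + 1 : ℕ) : ℝ) + 6) / 2 ^ (t + 1) := by positivity
          linarith
  · intro i hi j hj hij
    have hi' : i < t + 1 := by simpa using hi
    have hj' : j < t + 1 := by simpa using hj
    exact Finset.disjoint_of_subset_left Finset.inter_subset_right
      (Finset.disjoint_of_subset_right Finset.inter_subset_right (PN_disjoint hy hi' hj' hij))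

theorem prod_dvd_PN {D : Finset ℕ} (hD : ∀ p ∈ D, p.Prime) {u : ℕ} (h : ∀ w ∈ D, w ∣ u) :
    ∏ w ∈ D, w ∣ u :=
  Finset.prod_primes_dvd u (fun p hp => (hD p hp).prime) h

end SieveI

open SieveI

/-- Copy of `sieve2` (Lib_MP_f1a94e_ecm/Sieve2.lean, or `sieve_all` in Lib_MP_f1a94e_mr/SieveA.lean) for natural numbers: `obj = Ioc ⌊Y^(1/2)⌋ ⌊Y^(3/4)⌋`, weights `(1/n)(1 - Re n^(iτ))`, primes `p < Y^a` (all primes, `g p = 1/p ≤ 1/2`), classes `(y^(1/2^(i+1)), y^(1/2^i)]` with sums of `1/p` at most `G0` (`Lr_bounds`; the last class, small primes, has bounded sum),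
`E = Y^(-η)` (`weight_i`), `X0 ≥ log Y / 8`; products `D` of the family are at most `y^(4 b + 6) ≤ Y^(1/4)` with `a = 1/(4 (4 b + 6))` absolute. Main term `(X0/2) ∏_(p < Y^a) (1 - 1/p) ≥ c/a`-type constant by `Lr_bounds` (`log (1 - 1/p) ≥ -1/p - 1/p²`), error `Y^(-η) ∏ (1 + 1/p) ≤ Y^(-η) C log Y → 0`. -/
theorem sieve_i (hZS : ZsLogS) : ∃ a c : ℝ, 0 < a ∧ a ≤ 1 / 4 ∧ 0 < c ∧ ∀ A : ℝ, 1 ≤ A → ∃ Y0 : ℝ, 1 < Y0 ∧ ∀ Y : ℝ, Y0 ≤ Y → ∀ τ : ℝ, 1 ≤ |τ| → |τ| ≤ Y ^ A →
    open Classical in c ≤ ∑ n ∈ (Ioc ⌊Y ^ (1 / 2 : ℝ)⌋₊ ⌊Y ^ (3 / 4 : ℝ)⌋₊).filter (RoughN (Y ^ a)), (1 / (n : ℝ)) * (1 - (et (-τ) n).re) := by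
  classical
  obtain ⟨C, hC0, hC⟩ := Lr_bounds
  obtain ⟨c3, hc3, hprod⟩ := sieveI_lower
  obtain ⟨B, hB, hBp⟩ := sieveI_prod
  obtain ⟨b, hb⟩ := Pool.Agent.ECM.bh2 (3 + C) (by positivity)
  obtain ⟨a, ha⟩ : ∃ a : ℝ, a = 1 / (4 * (4 * b + 6)) := ⟨_, rfl⟩
  have ha0 : 0 < a := by rw [ha]; positivity
  have ha1 : a ≤ 1 / 4 := by
    rw [ha]
    apply one_div_le_one_div_of_le (by norm_num)
    have : (0 : ℝ) ≤ b := Nat.cast_nonneg b
    linarith
  have hab : a * (4 * b + 6) = 1 / 4 := by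
    rw [ha]
    have : (4 * (b : ℝ) + 6) ≠ 0 := by positivity
    field_simp
  have hc : 0 < c3 / (32 * a) := by positivity
  refine ⟨a, c3 / (32 * a), ha0, ha1, hc, ?_⟩
  intro A hA
  obtain ⟨η, Y1, hη, hY1, hw⟩ := weight_i hZS A hA
  obtain ⟨Y2, hY2⟩ := Filter.eventually_atTop.mp
    ((sieveI_err (η := η) (B := B * a) hη hc).and
    (((tendsto_rpow_atTop ha0).eventually_ge_atTop 2)))
  refine ⟨max (max Y1 Y2) 2, lt_of_lt_of_le (by norm_num) (le_max_right _ _), ?_⟩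
  intro Y hY τ hτ1 hτ2
  have hXX1 : Y1 ≤ Y := (le_max_left _ _).trans ((le_max_left _ _).trans hY)
  have hXX2 : Y2 ≤ Y := (le_max_right _ _).trans ((le_max_left _ _).trans hY)
  have hX2' : 2 ≤ Y := (le_max_right _ _).trans hY
  obtain ⟨herr, hy2⟩ := hY2 Y hXX2
  have hX0 : 0 < Y := by linarith
  have hX1 : 1 ≤ Y := by linarith
  obtain ⟨y, hy⟩ : ∃ y : ℝ, y = Y ^ a := ⟨_, rfl⟩
  rw [← hy] at hy2
  have hy1 : 1 ≤ y := by linarith
  have hlogy : Real.log y = a * Real.log Y := by rw [hy, Real.log_rpow hX0]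
  have hlogX : 0 < Real.log Y := Real.log_pos (by linarith)
  have hlogy0 : 0 < Real.log y := by rw [hlogy]; positivity
  have hyX : y ^ (4 * b + 6 : ℝ) = Y ^ (1 / 4 : ℝ) := by
    rw [hy, ← Real.rpow_mul hX0.le, hab]
  obtain ⟨t, ht5, hti, -⟩ := exists_t hy1
  have hun : (Finset.range (t + 1)).biUnion (PN y t) = PrI 1 y := PN_union
  obtain ⟨X0, hX0l, hX0u, hwd⟩ := hw Y hXX1 τ hτ1 hτ2
  have hX00 : 0 ≤ X0 := le_trans (by positivity) hX0l
  set obj := Ioc ⌊Y ^ (1 / 2 : ℝ)⌋₊ ⌊Y ^ (3 / 4 : ℝ)⌋₊ with hobj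
  have hW : ∀ u ∈ obj, 0 ≤ (1 / (u : ℝ)) * (1 - (et (-τ) u).re) := by
    intro u _
    have h1 : (et (-τ) u).re ≤ 1 := by
      refine (Complex.re_le_norm _).trans ?_
      rw [norm_et]
    exact mul_nonneg (by positivity) (by linarith)
  have hBH := hb ℕ ℕ inferInstance obj (fun u => (1 / (u : ℝ)) * (1 - (et (-τ) u).re)) (t + 1)
    (PN y t) (fun u => (PrI 1 y).filter (fun w => w ∣ u)) (fun w => 1 / (w : ℝ)) X0
    (Y ^ (-η)) hW (fun i j hi hj hij => PN_disjoint hy1 hi hj hij)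
    (by
      intro u _
      rw [hun]
      exact Finset.filter_subset _ _)
    (by
      rw [hun]
      intro p hp
      have h5 : (2 : ℝ) ≤ p := by exact_mod_cast (mem_PrI.1 hp).1.two_le
      refine ⟨by positivity, ?_⟩
      rw [div_le_div_iff₀ (by linarith) (by norm_num)]
      linarith)
    (fun i hi => PN_sum hC0 hC hy1 ht5 hti hi) hX00 (by positivity)
    (by
      intro D hD hcard
      have hnm := prod_le_PN hy1 hD hcard
      rw [hyX] at hnm
      rw [hun] at hD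
      have hDp : ∀ p ∈ D, p.Prime := fun p hp => (mem_PrI.1 (hD hp)).1
      have hfil : obj.filter (fun u => D ⊆ (PrI 1 y).filter (fun w => w ∣ u)) =
          obj.filter (fun u => (∏ w ∈ D, w) ∣ u) := by
        refine Finset.filter_congr fun u _ => ?_
        constructor
        · intro h
          exact prod_dvd_PN hDp fun w hw => (Finset.mem_filter.mp (h hw)).2
        · intro h w hw
          exact Finset.mem_filter.mpr ⟨hD hw, (Finset.dvd_prod_of_mem (fun w => w) hw).trans h⟩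
      rw [hfil]
      have hpos : 0 < ∏ w ∈ D, w := Finset.prod_pos fun p hp => (hDp p hp).pos
      have h1 := hwd (∏ w ∈ D, w) hpos hnm
      have h2 : ∏ p ∈ D, 1 / (p : ℝ) = 1 / ((∏ w ∈ D, w : ℕ) : ℝ) := by
        push_cast
        rw [Finset.prod_div_distrib, Finset.prod_const_one]
      rw [h2, mul_one_div, mul_one_div]
      exact h1)
  rw [hun] at hBH
  -- the final inequality
  have hsub : ∑ u ∈ obj.filter (fun u => (PrI 1 y).filter (fun w => w ∣ u) = ∅),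
      (1 / (u : ℝ)) * (1 - (et (-τ) u).re) ≤
      ∑ u ∈ obj.filter (RoughN (Y ^ a)),
      (1 / (u : ℝ)) * (1 - (et (-τ) u).re) := by
    refine Finset.sum_le_sum_of_subset_of_nonneg ?_ ?_
    · intro u hu
      obtain ⟨hu1, hu2⟩ := Finset.mem_filter.mp hu
      refine Finset.mem_filter.mpr ⟨hu1, fun p hp hpu => ?_⟩
      by_contra hlt
      rw [not_le, ← hy] at hlt
      have : p ∈ (PrI 1 y).filter (fun w => w ∣ u) :=
        Finset.mem_filter.mpr ⟨mem_PrI.2 ⟨hp, by exact_mod_cast hp.one_lt, hlt.le⟩, hpu⟩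
      rw [hu2] at this
      exact absurd this (Finset.notMem_empty _)
    · intro u hu _
      exact hW u (Finset.mem_filter.mp hu).1
  refine le_trans ?_ (hBH.trans hsub)
  have hP0 : 0 ≤ ∏ p ∈ PrI 1 y, (1 - 1 / (p : ℝ)) := le_trans (by positivity) (hprod y hy2)
  have hmain : c3 / (16 * a) ≤ X0 / 2 * ∏ p ∈ PrI 1 y, (1 - 1 / (p : ℝ)) := by
    calc c3 / (16 * a) = Real.log Y / 8 / 2 * (c3 / Real.log y) := by
          rw [hlogy]
          field_simp
          norm_num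
      _ ≤ X0 / 2 * (c3 / Real.log y) := by
          refine mul_le_mul_of_nonneg_right ?_ (by positivity)
          linarith
      _ ≤ X0 / 2 * ∏ p ∈ PrI 1 y, (1 - 1 / (p : ℝ)) :=
          mul_le_mul_of_nonneg_left (hprod y hy2) (by positivity)
  have hE : Y ^ (-η) * ∏ p ∈ PrI 1 y, (1 + 1 / (p : ℝ)) ≤ c3 / (32 * a) := by
    refine le_trans (mul_le_mul_of_nonneg_left (hBp y hy2) (by positivity)) ?_
    rw [hlogy]
    refine le_trans (le_of_eq ?_) herr
    ring
  have h4 : c3 / (16 * a) = 2 * (c3 / (32 * a)) := by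
    field_simp
    ring
  linarith

end Pool.Agent.SplI

end

/-! ### from `Lib_MP_92ef0c_spi.DefI` -/

section

/-!
# Piece I-DEF: the deficit on primes
-/

set_option autoImplicit false

namespace Pool.Agent.SplI

open Finset

private theorem defi_re_neg (τ : ℝ) (n : ℕ) : (et (-τ) n).re = (et τ n).re := by
  unfold et
  rw [show -((-τ * Real.log n : ℝ) : ℂ) * Complex.I = ((τ * Real.log n : ℝ) : ℂ) * Complex.I by
      push_cast; ring,
    show -((τ * Real.log n : ℝ) : ℂ) * Complex.I = ((-(τ * Real.log n) : ℝ) : ℂ) * Complex.I by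
      push_cast; ring,
    Complex.exp_ofReal_mul_I_re, Complex.exp_ofReal_mul_I_re, Real.cos_neg]

private theorem defi_one (τ : ℝ) : et τ 1 = 1 := by simp [et]

private theorem defi_nonneg (τ : ℝ) (n : ℕ) : 0 ≤ 1 - (et τ n).re := by
  have h1 := Complex.re_le_norm (et τ n)
  rw [norm_et] at h1
  linarith

private theorem defi_list (τ : ℝ) (l : List ℕ) (hl : ∀ p ∈ l, p ≠ 0) :
    et τ l.prod = (l.map (et τ)).prod := by
  induction l with
  | nil => simp [defi_one]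
  | cons a l ih =>
    have h1 : ∀ p ∈ l, p ≠ 0 := fun p hp => hl p (List.mem_cons_of_mem _ hp)
    have h2 : l.prod ≠ 0 := by
      intro h
      rw [List.prod_eq_zero_iff] at h
      exact h1 0 h rfl
    rw [List.prod_cons, et_mul τ (hl a List.mem_cons_self) h2, ih h1, List.map_cons, List.prod_cons]

private theorem defi_len {y : ℝ} (hy : 0 ≤ y) (l : List ℕ) (hl : ∀ p ∈ l, y ≤ (p : ℝ)) :
    y ^ l.length ≤ ((l.prod : ℕ) : ℝ) := by
  induction l with
  | nil => simp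
  | cons a l ih =>
    rw [List.length_cons, List.prod_cons, pow_succ, Nat.cast_mul, mul_comm]
    have h1 := ih fun p hp => hl p (List.mem_cons_of_mem _ hp)
    have h2 := hl a List.mem_cons_self
    exact mul_le_mul h2 h1 (pow_nonneg hy _) (Nat.cast_nonneg _)

open Classical in
/-- pointwise bound -/
private theorem defi_point (τ : ℝ) {a Y : ℝ} (ha : 0 < a) (hY : 1 < Y) {n : ℕ} (hn : n ≠ 0)
    (hnY : (n : ℝ) ≤ Y) (hr : RoughN (Y ^ a) n) :
    1 - (et τ n).re ≤ (1 / a) ^ 2 *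
      ∑ p ∈ (PrI (Y ^ (a / 2)) Y).filter (fun p => p ∣ n), (1 - (et τ p).re) := by
  set l := n.primeFactorsList with hl
  have hprod : l.prod = n := Nat.prod_primeFactorsList hn
  have hpr : ∀ p ∈ l, p.Prime := fun p hp => Nat.prime_of_mem_primeFactorsList hp
  have hdv : ∀ p ∈ l, p ∣ n := fun p hp => Nat.dvd_of_mem_primeFactorsList hp
  have hY0 : 0 ≤ Y ^ a := Real.rpow_nonneg (by linarith) _
  have hlen : (Y ^ a) ^ l.length ≤ (n : ℝ) := by
    have := defi_len hY0 l fun p hp => hr p (hpr p hp) (hdv p hp)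
    rwa [hprod] at this
  have hlen1 : (l.length : ℝ) ≤ 1 / a := by
    have h1 : Y ^ (a * l.length) ≤ Y ^ (1 : ℝ) := by
      rw [Real.rpow_mul (by linarith), Real.rpow_natCast, Real.rpow_one]
      exact hlen.trans hnY
    have h2 := (Real.rpow_le_rpow_left_iff hY).1 h1
    rw [le_div_iff₀ ha]
    linarith
  have hnorm : ∀ z ∈ l.map (et τ), ‖z‖ = 1 := by
    intro z hz
    rw [List.mem_map] at hz
    obtain ⟨p, _, rfl⟩ := hz
    exact norm_et τ p
  have h1 : et τ n = (l.map (et τ)).prod := by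
    rw [← defi_list τ l fun p hp => (hpr p hp).ne_zero, hprod]
  have h2 := Pool.Agent.ECM.one_sub_prod_le (l.map (et τ)) hnorm
  rw [List.length_map, List.map_map] at h2
  have h3 : (l.map ((fun z : ℂ => 1 - z.re) ∘ et τ)).sum =
      ∑ p ∈ l.toFinset, l.count p • (1 - (et τ p).re) := by
    rw [Finset.sum_list_map_count]
    rfl
  have hsub : l.toFinset ⊆ (PrI (Y ^ (a / 2)) Y).filter (fun p => p ∣ n) := by
    intro p hp
    rw [List.mem_toFinset] at hp
    rw [mem_filter, mem_PrI]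
    refine ⟨⟨hpr p hp, ?_, ?_⟩, hdv p hp⟩
    · exact lt_of_lt_of_le (Real.rpow_lt_rpow_of_exponent_lt hY (by linarith))
        (hr p (hpr p hp) (hdv p hp))
    · refine le_trans ?_ hnY
      exact_mod_cast Nat.le_of_dvd (Nat.pos_of_ne_zero hn) (hdv p hp)
  have h4 : ∑ p ∈ l.toFinset, l.count p • (1 - (et τ p).re) ≤
      l.length * ∑ p ∈ (PrI (Y ^ (a / 2)) Y).filter (fun p => p ∣ n), (1 - (et τ p).re) := by
    calc ∑ p ∈ l.toFinset, l.count p • (1 - (et τ p).re) ≤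
          ∑ p ∈ l.toFinset, (l.length : ℝ) * (1 - (et τ p).re) := by
          apply sum_le_sum
          intro p hp
          rw [nsmul_eq_mul]
          apply mul_le_mul_of_nonneg_right _ (defi_nonneg τ p)
          exact_mod_cast List.count_le_length
      _ = l.length * ∑ p ∈ l.toFinset, (1 - (et τ p).re) := by rw [mul_sum]
      _ ≤ _ := by
          apply mul_le_mul_of_nonneg_left _ (Nat.cast_nonneg _)
          exact sum_le_sum_of_subset_of_nonneg hsub (fun p _ _ => defi_nonneg τ p)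
  rw [h1]
  set Sg : ℝ := ∑ p ∈ (PrI (Y ^ (a / 2)) Y).filter (fun p => p ∣ n), (1 - (et τ p).re) with hSg
  have hSg0 : 0 ≤ Sg := sum_nonneg fun p _ => defi_nonneg τ p
  have hl0 : (0 : ℝ) ≤ l.length := Nat.cast_nonneg _
  calc 1 - ((l.map (et τ)).prod).re ≤ l.length * (l.map ((fun z : ℂ => 1 - z.re) ∘ et τ)).sum := h2
    _ ≤ l.length * (l.length * Sg) := by
      apply mul_le_mul_of_nonneg_left _ hl0
      rw [h3]
      exact h4
    _ = (l.length : ℝ) ^ 2 * Sg := by ring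
    _ ≤ (1 / a) ^ 2 * Sg := by
      apply mul_le_mul_of_nonneg_right _ hSg0
      exact pow_le_pow_left₀ hl0 hlen1 2

/-- As `deficit` (Lib_MP_f1a94e_ecm/Deficit.lean). `n` in the sum of `sieve_i` is `p_1 ... p_r`, `r ≤ 1/a`, all `p_i ≥ Y^a`; `1 - Re n^(iτ) ≤ r ∑ (1 - Re p_i^(iτ))` (`one_sub_prod_le`, Lib_MP_f1a94e_ecm/ChiN.lean), hence `c1 ≤ (1/a)² ∑_(Y^a ≤ p ≤ Y) (1 - Re p^(iτ)) ∑_(n rough, p ∣ n) 1/n` and the inner sum is `≤ C / p` (`rough_i`).
(`p = Y^a` exactly costs `O(Y^(-a))`.) -/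
theorem deficit_i (hZS : ZsLogS) : ∃ a c : ℝ, 0 < a ∧ a ≤ 1 / 4 ∧ 0 < c ∧ ∀ A : ℝ, 1 ≤ A → ∃ Y0 : ℝ, 1 < Y0 ∧ ∀ Y : ℝ, Y0 ≤ Y → ∀ τ : ℝ, 1 ≤ |τ| → |τ| ≤ Y ^ A →
    c ≤ ∑ p ∈ PrI (Y ^ a) Y, (1 - (et τ p).re) / (p : ℝ) := by
  classical
  obtain ⟨a, c1, ha, ha4, hc1, hsieve⟩ := sieve_i hZS
  obtain ⟨C, hC, hrough⟩ := rough_i a ha (by linarith)
  refine ⟨a / 2, c1 * a ^ 2 / C, by positivity, by linarith, by positivity, ?_⟩
  intro A hA
  obtain ⟨Y0, hY01, hY0⟩ := hsieve A hA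
  refine ⟨max Y0 ((4 : ℝ) ^ (2 / a)), lt_max_of_lt_left hY01, ?_⟩
  intro Y hY τ hτ1 hτ2
  have hYY0 : Y0 ≤ Y := (le_max_left _ _).trans hY
  have hYY2 : (4 : ℝ) ^ (2 / a) ≤ Y := (le_max_right _ _).trans hY
  have hY1 : 1 < Y := lt_of_lt_of_le hY01 hYY0
  have hs := hY0 Y hYY0 τ hτ1 hτ2
  set UU : Finset ℕ := (Ioc ⌊Y ^ (1 / 2 : ℝ)⌋₊ ⌊Y ^ (3 / 4 : ℝ)⌋₊).filter (RoughN (Y ^ a)) with hUU
  have hUm : ∀ n ∈ UU, n ≠ 0 ∧ (n : ℝ) ≤ Y ∧ RoughN (Y ^ a) n := by
    intro n hn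
    rw [hUU, mem_filter, mem_Ioc] at hn
    obtain ⟨⟨h1, h2⟩, h3⟩ := hn
    have hn0 : n ≠ 0 := by omega
    refine ⟨hn0, ?_, h3⟩
    have h4 : (n : ℝ) ≤ Y ^ (3 / 4 : ℝ) := (Nat.le_floor_iff' hn0).1 h2
    refine h4.trans ?_
    calc Y ^ (3 / 4 : ℝ) ≤ Y ^ (1 : ℝ) := Real.rpow_le_rpow_of_exponent_le hY1.le (by norm_num)
      _ = Y := Real.rpow_one Y
  set QQ : Finset ℕ := PrI (Y ^ (a / 2)) Y with hQQ
  have h1 : ∑ n ∈ UU, (1 / (n : ℝ)) * (1 - (et (-τ) n).re) ≤
      ∑ n ∈ UU, (1 / (n : ℝ)) * ((1 / a) ^ 2 * ∑ p ∈ QQ.filter (fun p => p ∣ n), (1 - (et τ p).re)) := by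
    apply sum_le_sum
    intro n hn
    obtain ⟨hn0, hnY, hr⟩ := hUm n hn
    rw [defi_re_neg]
    exact mul_le_mul_of_nonneg_left (defi_point τ ha hY1 hn0 hnY hr) (by positivity)
  have h2 : ∑ n ∈ UU, (1 / (n : ℝ)) * ((1 / a) ^ 2 * ∑ p ∈ QQ.filter (fun p => p ∣ n), (1 - (et τ p).re)) =
      (1 / a) ^ 2 * ∑ p ∈ QQ, (1 - (et τ p).re) * ∑ n ∈ UU.filter (fun n => p ∣ n), 1 / (n : ℝ) := by
    rw [mul_sum]
    have h3 : ∀ n ∈ UU, (1 / (n : ℝ)) * ((1 / a) ^ 2 * ∑ p ∈ QQ.filter (fun p => p ∣ n), (1 - (et τ p).re)) =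
        ∑ p ∈ QQ, if p ∣ n then (1 / a) ^ 2 * ((1 - (et τ p).re) * (1 / (n : ℝ))) else 0 := by
      intro n _
      rw [sum_filter, mul_sum, mul_sum]
      apply sum_congr rfl
      intro p _
      split_ifs
      · ring
      · ring
    rw [sum_congr rfl h3, sum_comm]
    apply sum_congr rfl
    intro p _
    rw [← sum_filter, mul_sum, mul_sum]
  have h3 : ∀ p ∈ QQ, ∑ n ∈ UU.filter (fun n => p ∣ n), 1 / (n : ℝ) ≤ C / (p : ℝ) := by
    intro p hp
    rw [hQQ, mem_PrI] at hp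
    have hp0 : p ≠ 0 := hp.1.ne_zero
    set R : Finset ℕ := (Icc 1 ⌊Y⌋₊).filter (RoughN (Y ^ a)) with hR
    have hsub : UU.filter (fun n => p ∣ n) ⊆ R.image (fun u => p * u) := by
      intro n hn
      rw [mem_filter] at hn
      obtain ⟨hn1, s, rfl⟩ := hn
      obtain ⟨hn0, hnY, hr⟩ := hUm _ hn1
      rw [mem_image]
      refine ⟨s, ?_, rfl⟩
      have hs0 : s ≠ 0 := right_ne_zero_of_mul hn0
      rw [hR, mem_filter, mem_Icc]
      refine ⟨⟨Nat.pos_of_ne_zero hs0, ?_⟩, ?_⟩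
      · apply Nat.le_floor
        refine le_trans ?_ hnY
        have : s ≤ p * s := Nat.le_mul_of_pos_left s hp.1.pos
        exact_mod_cast this
      · intro q hq hqs
        exact hr q hq (Dvd.dvd.mul_left hqs p)
    calc ∑ n ∈ UU.filter (fun n => p ∣ n), 1 / (n : ℝ) ≤ ∑ n ∈ R.image (fun u => p * u), 1 / (n : ℝ) :=
          sum_le_sum_of_subset_of_nonneg hsub (fun u _ _ => by positivity)
      _ = ∑ u ∈ R, 1 / ((p * u : ℕ) : ℝ) := by
          rw [sum_image]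
          intro u _ v _ h
          exact Nat.eq_of_mul_eq_mul_left hp.1.pos h
      _ = (1 / (p : ℝ)) * ∑ u ∈ R, 1 / (u : ℝ) := by
          rw [mul_sum]
          apply sum_congr rfl
          intro u _
          push_cast
          rw [one_div_mul_one_div]
      _ ≤ (1 / (p : ℝ)) * C := mul_le_mul_of_nonneg_left (hrough Y hYY2) (by positivity)
      _ = C / (p : ℝ) := by ring
  have h4 : ∑ p ∈ QQ, (1 - (et τ p).re) * ∑ n ∈ UU.filter (fun n => p ∣ n), 1 / (n : ℝ) ≤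
      C * ∑ p ∈ QQ, (1 - (et τ p).re) / (p : ℝ) := by
    rw [mul_sum]
    apply sum_le_sum
    intro p hp
    calc (1 - (et τ p).re) * ∑ n ∈ UU.filter (fun n => p ∣ n), 1 / (n : ℝ) ≤
          (1 - (et τ p).re) * (C / (p : ℝ)) :=
        mul_le_mul_of_nonneg_left (h3 p hp) (defi_nonneg τ p)
      _ = _ := by ring
  have h6 : c1 ≤ (1 / a) ^ 2 * (C * ∑ p ∈ QQ, (1 - (et τ p).re) / (p : ℝ)) := by
    calc c1 ≤ _ := hs
      _ ≤ _ := h1
      _ = _ := h2
      _ ≤ _ := mul_le_mul_of_nonneg_left h4 (by positivity)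
  set T : ℝ := ∑ p ∈ QQ, (1 - (et τ p).re) / (p : ℝ) with hT
  show c1 * a ^ 2 / C ≤ T
  rw [div_le_iff₀ hC]
  have h9 : (1 / a) ^ 2 * (C * T) * a ^ 2 = T * C := by
    field_simp
  rw [← h9]
  exact mul_le_mul_of_nonneg_right h6 (sq_nonneg a)

private theorem defi_term (τ : ℝ) (p : ℕ) : 0 ≤ (1 - (et τ p).re) / (p : ℝ) :=
  div_nonneg (defi_nonneg τ p) (Nat.cast_nonneg _)

/-- Iterate over the disjoint ranges `(Y_j^a, Y_j]`, `Y_j = exp (e a^j S)`, `j < J`, `J` maximal with `e a^J ≥ e'`; `|τ| ≤ exp (A S) ≤ Y_j^(A/e')`. `J ≥ log (e/e') / log (1/a) - 1`, and `Lr ≤ log (e/e') + C ≤ 2 log (e/e')` (`Lr_bounds`) for `log (e/e') ≥ L1`. (As `deficit_range`, Lib_MP_f1a94e_ecm/RangeA.lean.) -/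
theorem def_range_i (hZS : ZsLogS) : ∃ c L1 : ℝ, 0 < c ∧ 0 < L1 ∧ ∀ e' e : ℝ, 0 < e' → e' < e → e ≤ 1 → L1 ≤ Real.log (e / e') → ∀ A : ℝ, 1 ≤ A → ∃ S0 : ℝ, 0 < S0 ∧
    ∀ S : ℝ, S0 ≤ S → ∀ τ : ℝ, 1 ≤ |τ| → |τ| ≤ Real.exp (A * S) →
    c * Lr (Real.exp (e' * S)) (Real.exp (e * S)) ≤ ∑ p ∈ PrI (Real.exp (e' * S)) (Real.exp (e * S)), (1 - (et τ p).re) / (p : ℝ) := by
  classical
  obtain ⟨a, c, ha, ha4, hc, hdef⟩ := deficit_i hZS
  obtain ⟨C, hC, hLr⟩ := Lr_bounds
  have hla : 0 < Real.log (1 / a) := by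
    apply Real.log_pos
    rw [lt_div_iff₀ ha]
    linarith
  refine ⟨c / (4 * Real.log (1 / a)), 2 * Real.log (1 / a) + C, by positivity, by positivity, ?_⟩
  intro e' e he' hee he1 hL A hA
  have he : 0 < e := he'.trans hee
  have hA' : 1 ≤ A / e' := by
    rw [le_div_iff₀ he']
    linarith
  obtain ⟨Y0, hY01, hY0⟩ := hdef (A / e') hA'
  have hY00 : 0 < Y0 := by linarith
  have hlY0 : 0 < Real.log Y0 := Real.log_pos hY01
  refine ⟨max (Real.log Y0 / e') (Real.log 2 / e'), lt_max_of_lt_left (by positivity), ?_⟩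
  intro S hS τ hτ1 hτ2
  have hS1 : Real.log Y0 ≤ e' * S := by
    have := (le_max_left _ _).trans hS
    rw [div_le_iff₀ he'] at this
    linarith
  have hS2 : Real.log 2 ≤ e' * S := by
    have := (le_max_right _ _).trans hS
    rw [div_le_iff₀ he'] at this
    linarith
  have hS0 : 0 < S := by
    have h1 : 0 < e' * S := lt_of_lt_of_le hlY0 hS1
    exact (mul_pos_iff_of_pos_left he').1 h1
  -- one range
  have hone : ∀ b : ℝ, e' ≤ b → c ≤ ∑ p ∈ PrI (Real.exp (b * a * S)) (Real.exp (b * S)), (1 - (et τ p).re) / (p : ℝ) := by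
    intro b hb
    have hb0 : 0 < b := he'.trans_le hb
    have h1 : Real.exp (b * a * S) = (Real.exp (b * S)) ^ a := by
      rw [← Real.exp_mul]
      congr 1
      ring
    rw [h1]
    apply hY0 (Real.exp (b * S)) _ τ hτ1
    · refine hτ2.trans ?_
      rw [← Real.exp_mul, Real.exp_le_exp]
      have h2 : A * S * 1 ≤ A * S * (b / e') := by
        apply mul_le_mul_of_nonneg_left _ (by positivity)
        rwa [one_le_div₀ he']
      calc A * S = A * S * 1 := by ring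
        _ ≤ A * S * (b / e') := h2
        _ = b * S * (A / e') := by ring
    · rw [← Real.log_le_iff_le_exp hY00]
      refine hS1.trans ?_
      exact mul_le_mul_of_nonneg_right hb hS0.le
  have hmono : ∀ J : ℕ, e' ≤ e * a ^ J →
      (J : ℝ) * c ≤ ∑ p ∈ PrI (Real.exp (e * a ^ J * S)) (Real.exp (e * S)), (1 - (et τ p).re) / (p : ℝ) := by
    intro J
    induction J with
    | zero =>
      intro _
      simp only [Nat.cast_zero, zero_mul]
      exact Finset.sum_nonneg fun p _ => defi_term τ p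
    | succ J ih =>
      intro hJ
      have h1 : e * a ^ (J + 1) ≤ e * a ^ J := by
        rw [pow_succ]
        have : e * (a ^ J * a) ≤ e * (a ^ J * 1) := by
          gcongr
          linarith
        simpa using this
      have h2 : e' ≤ e * a ^ J := hJ.trans h1
      have h3 := ih h2
      have h4 := hone (e * a ^ J) h2
      have h5 : e * a ^ J * a = e * a ^ (J + 1) := by ring
      rw [h5] at h4
      have hdisj : Disjoint (PrI (Real.exp (e * a ^ (J + 1) * S)) (Real.exp (e * a ^ J * S)))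
          (PrI (Real.exp (e * a ^ J * S)) (Real.exp (e * S))) := by
        rw [Finset.disjoint_left]
        intro w hw hw'
        have e1 := (mem_PrI.1 hw).2.2
        have e2 := (mem_PrI.1 hw').2.1
        linarith
      have hsub : PrI (Real.exp (e * a ^ (J + 1) * S)) (Real.exp (e * a ^ J * S)) ∪
          PrI (Real.exp (e * a ^ J * S)) (Real.exp (e * S)) ⊆
          PrI (Real.exp (e * a ^ (J + 1) * S)) (Real.exp (e * S)) := by
        intro w hw
        rw [Finset.mem_union] at hw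
        rcases hw with hw | hw
        · rw [mem_PrI] at hw ⊢
          refine ⟨hw.1, hw.2.1, hw.2.2.trans ?_⟩
          rw [Real.exp_le_exp]
          have h6 : a ^ J ≤ 1 := pow_le_one₀ ha.le (by linarith)
          apply mul_le_mul_of_nonneg_right _ hS0.le
          nlinarith
        · rw [mem_PrI] at hw ⊢
          refine ⟨hw.1, lt_of_le_of_lt ?_ hw.2.1, hw.2.2⟩
          rw [Real.exp_le_exp]
          exact mul_le_mul_of_nonneg_right h1 hS0.le
      calc ((J + 1 : ℕ) : ℝ) * c = c + (J : ℝ) * c := by push_cast; ring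
        _ ≤ ∑ p ∈ PrI (Real.exp (e * a ^ (J + 1) * S)) (Real.exp (e * a ^ J * S)), (1 - (et τ p).re) / (p : ℝ) +
            ∑ p ∈ PrI (Real.exp (e * a ^ J * S)) (Real.exp (e * S)), (1 - (et τ p).re) / (p : ℝ) := add_le_add h4 h3
        _ = ∑ p ∈ PrI (Real.exp (e * a ^ (J + 1) * S)) (Real.exp (e * a ^ J * S)) ∪
            PrI (Real.exp (e * a ^ J * S)) (Real.exp (e * S)), (1 - (et τ p).re) / (p : ℝ) :=
            (Finset.sum_union hdisj).symm
        _ ≤ _ := Finset.sum_le_sum_of_subset_of_nonneg hsub fun p _ _ => defi_term τ p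
  -- choice of J
  set L := Real.log (e / e') with hLdef
  set J : ℕ := ⌊L / Real.log (1 / a)⌋₊ with hJ
  have hL2 : 2 * Real.log (1 / a) ≤ L := by linarith
  have hLC : C ≤ L := by linarith
  have hL0 : 0 ≤ L := (by positivity : (0 : ℝ) ≤ 2 * Real.log (1 / a)).trans hL2
  have hJle : (J : ℝ) ≤ L / Real.log (1 / a) := Nat.floor_le (by positivity)
  have hJge : L / Real.log (1 / a) < J + 1 := Nat.lt_floor_add_one _
  have hJe : e' ≤ e * a ^ J := by
    have h1 : (J : ℝ) * Real.log (1 / a) ≤ L := by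
      rwa [le_div_iff₀ hla] at hJle
    have h2 : Real.log (1 / a) = - Real.log a := by rw [one_div, Real.log_inv]
    rw [h2] at h1
    have h3 : Real.log (e' / e) ≤ Real.log (a ^ J) := by
      rw [Real.log_pow]
      have h4 : Real.log (e' / e) = - L := by
        rw [hLdef, ← Real.log_inv, inv_div]
      rw [h4]
      linarith
    have h4 : e' / e ≤ a ^ J := (Real.log_le_log_iff (by positivity) (by positivity)).1 h3
    rw [div_le_iff₀ he] at h4
    linarith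
  have h1 := hmono J hJe
  have hsub : PrI (Real.exp (e * a ^ J * S)) (Real.exp (e * S)) ⊆
      PrI (Real.exp (e' * S)) (Real.exp (e * S)) := by
    intro w hw
    rw [mem_PrI] at hw ⊢
    refine ⟨hw.1, lt_of_le_of_lt ?_ hw.2.1, hw.2.2⟩
    rw [Real.exp_le_exp]
    exact mul_le_mul_of_nonneg_right hJe hS0.le
  have h2 : ∑ p ∈ PrI (Real.exp (e * a ^ J * S)) (Real.exp (e * S)), (1 - (et τ p).re) / (p : ℝ) ≤
      ∑ p ∈ PrI (Real.exp (e' * S)) (Real.exp (e * S)), (1 - (et τ p).re) / (p : ℝ) :=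
    Finset.sum_le_sum_of_subset_of_nonneg hsub fun p _ _ => defi_term τ p
  -- the bound for `Lr`
  have hLr1 : Lr (Real.exp (e' * S)) (Real.exp (e * S)) ≤ 2 * L := by
    have h3 : (2 : ℝ) ≤ Real.exp (e' * S) := (Real.log_le_iff_le_exp (by norm_num)).1 hS2
    have h4 : Real.exp (e' * S) ≤ Real.exp (e * S) := by
      rw [Real.exp_le_exp]
      exact mul_le_mul_of_nonneg_right hee.le hS0.le
    have h5 := (abs_le.1 (hLr _ _ h3 h4)).2
    rw [Real.log_exp, Real.log_exp, Real.log_mul he.ne' hS0.ne', Real.log_mul he'.ne' hS0.ne'] at h5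
    have h6 : L = Real.log e - Real.log e' := Real.log_div he.ne' he'.ne'
    linarith
  have h3 : c / (4 * Real.log (1 / a)) * Lr (Real.exp (e' * S)) (Real.exp (e * S)) ≤ (J : ℝ) * c := by
    have h4 : L / Real.log (1 / a) - 1 ≤ J := by linarith
    have h5 : 1 ≤ L / (2 * Real.log (1 / a)) := by
      rw [le_div_iff₀ (by positivity), one_mul]
      exact hL2
    have h6 : L / Real.log (1 / a) = 2 * (L / (2 * Real.log (1 / a))) := by
      field_simp
    have h7 : L / (2 * Real.log (1 / a)) ≤ J := by linarith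
    calc c / (4 * Real.log (1 / a)) * Lr (Real.exp (e' * S)) (Real.exp (e * S)) ≤
          c / (4 * Real.log (1 / a)) * (2 * L) := mul_le_mul_of_nonneg_left hLr1 (by positivity)
      _ = c * (L / (2 * Real.log (1 / a))) := by field_simp; ring
      _ ≤ c * J := mul_le_mul_of_nonneg_left h7 hc.le
      _ = _ := by ring
  exact h3.trans (h1.trans h2)

end Pool.Agent.SplI

end

/-! ### from `Lib_MP_92ef0c_spi.NonPretI` -/

section

/-!
# Piece I-NONPRET: z^Ω χ is not close to n^(it)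
-/

set_option autoImplicit false

namespace Pool.Agent.SplI

open Finset

private theorem npi_pow (u : ℂ) (hu : ‖u‖ = 1) (n : ℕ) :
    1 - (u ^ n).re ≤ (n : ℝ) ^ 2 * (1 - u.re) := by
  have h := Pool.Agent.ECM.one_sub_prod_le (List.replicate n u) (by
    intro z hz
    rw [List.eq_of_mem_replicate hz]
    exact hu)
  rw [List.prod_replicate, List.length_replicate, List.map_replicate, List.sum_replicate,
    nsmul_eq_mul] at h
  calc 1 - (u ^ n).re ≤ (n : ℝ) * ((n : ℝ) * (1 - u.re)) := h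
    _ = (n : ℝ) ^ 2 * (1 - u.re) := by ring

private theorem npi_et_pow (t : ℝ) (p n : ℕ) : (et t p) ^ n = et (n * t) p := by
  unfold et
  rw [← Complex.exp_nat_mul]
  congr 1
  push_cast
  ring

private theorem npi_prime (z : ℂ) (M : ℕ) (χ : DirichletCharacter ℂ M) {p : ℕ} (hp : p.Prime) :
    fzc z M χ p = z * χ ((p : ℕ) : ZMod M) := by
  unfold fzc
  rw [ArithmeticFunction.cardFactors_apply_prime hp, pow_one]

private theorem npi_chi (M : ℕ) [NeZero M] (χ : DirichletCharacter ℂ M) {p : ℕ} (hp : p.Prime)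
    (hM : M < p) : (χ ((p : ℕ) : ZMod M)) ^ M.totient = 1 := by
  have hc : Nat.Coprime p M := by
    rw [Nat.Prime.coprime_iff_not_dvd hp]
    intro h
    have := Nat.le_of_dvd (NeZero.pos M) h
    omega
  have hu : IsUnit ((p : ℕ) : ZMod M) := (ZMod.isUnit_iff_coprime p M).2 hc
  obtain ⟨v, hv⟩ := hu
  rw [← hv, ← map_pow, ← Units.val_pow_eq_pow_val, ZMod.pow_totient, Units.val_one, map_one]

private theorem npi_Lr_nonneg (P Q : ℝ) : 0 ≤ Lr P Q := by
  unfold Lr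
  exact sum_nonneg fun p _ => by positivity

/-- `fzc z M χ p = z χ(p)` for primes. `|t| ≤ 1`: `near_i` (`L0` large makes `C ≤ (c/2) Lr`, `Lr_bounds`). `|t| ≥ 1`: `q1 = q φ(M)`: for `p ∤ M` the number `u = z χ(p) et t p` has modulus 1 and `u^q1 = et (q1 t) p`; `1 - Re u^n ≤ n² (1 - Re u)` for `‖u‖ = 1`
(`|1 - u^n| ≤ n |1 - u|`, `|1 - u|² = 2 (1 - Re u)`); `def_range_i` with `τ = q1 t`, `A = 5`. All `p > exp (e' S) > M`. -/
theorem nonpret_i (hZS : ZsLogS) (q : ℕ) (hq : 0 < q) (z : ℂ) (hz : z ^ q = 1) (hz1 : z ≠ 1) (M : ℕ) [NeZero M] (χ : DirichletCharacter ℂ M) :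
    ∃ c0 L0 : ℝ, 0 < c0 ∧ ∀ e' e : ℝ, 0 < e' → e' < e → e ≤ 1 → L0 ≤ Real.log (e / e') → ∃ S0 : ℝ, 0 < S0 ∧ ∀ S : ℝ, S0 ≤ S → ∀ t : ℝ,
    |t| ≤ Real.exp (4 * S) → c0 * Lr (Real.exp (e' * S)) (Real.exp (e * S)) ≤
      ∑ p ∈ PrI (Real.exp (e' * S)) (Real.exp (e * S)), (1 - (fzc z M χ p * et t p).re) / (p : ℝ) := by
  classical
  have hznorm : ‖z‖ = 1 := Complex.norm_eq_one_of_pow_eq_one hz hq.ne'
  obtain ⟨c, C, hc, hnear⟩ := near_i z hznorm hz1 M χ
  obtain ⟨C2, hC2, hLr⟩ := Lr_bounds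
  obtain ⟨c1, L1, hc1, hL1, hdef⟩ := def_range_i hZS
  set n : ℕ := q * M.totient with hn
  have hn0 : 0 < n := Nat.mul_pos hq (Nat.totient_pos.2 (NeZero.pos M))
  have hnr : (1 : ℝ) ≤ (n : ℝ) := by exact_mod_cast hn0
  have hn2 : (0 : ℝ) < (n : ℝ) ^ 2 := by positivity
  refine ⟨min (c / 2) (c1 / (n : ℝ) ^ 2), max L1 (C2 + 2 * |C| / c),
    lt_min (by positivity) (by positivity), fun e' e he' hee he1 hL => ?_⟩
  have he : 0 < e := he'.trans hee
  obtain ⟨S1, hS1, hdefS⟩ := hdef e' e he' hee he1 ((le_max_left _ _).trans hL) 5 (by norm_num)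
  refine ⟨max S1 (max (2 / e') (max (Real.log n) (((M : ℝ) + 1) / e'))), ?_, fun S hS t ht => ?_⟩
  · exact lt_max_of_lt_left hS1
  have hSS1 : S1 ≤ S := (le_max_left _ _).trans hS
  have hS2 : 2 / e' ≤ S := (le_max_left _ _).trans ((le_max_right _ _).trans hS)
  have hS3 : Real.log n ≤ S :=
    (le_max_left _ _).trans ((le_max_right _ _).trans ((le_max_right _ _).trans hS))
  have hS4 : ((M : ℝ) + 1) / e' ≤ S :=
    (le_max_right _ _).trans ((le_max_right _ _).trans ((le_max_right _ _).trans hS))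
  have hS0 : 0 < S := hS1.trans_le hSS1
  have hP3 : 3 ≤ Real.exp (e' * S) := by
    rw [div_le_iff₀ he'] at hS2
    have := Real.add_one_le_exp (e' * S)
    nlinarith
  have hPM : (M : ℝ) < Real.exp (e' * S) := by
    rw [div_le_iff₀ he'] at hS4
    have := Real.add_one_le_exp (e' * S)
    nlinarith
  have hPQ : Real.exp (e' * S) ≤ Real.exp (e * S) :=
    Real.exp_le_exp.2 (mul_le_mul_of_nonneg_right hee.le hS0.le)
  set P := Real.exp (e' * S) with hP
  set Q := Real.exp (e * S) with hQ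
  have hLnn := npi_Lr_nonneg P Q
  rcases le_total |t| 1 with ht1 | ht1
  · have h1 := hnear P Q hP3 hPQ t ht1
    have hb := (abs_le.1 (hLr P Q (by linarith) hPQ)).1
    have hlog : Real.log (Real.log Q) - Real.log (Real.log P) = Real.log (e / e') := by
      rw [hP, hQ, Real.log_exp, Real.log_exp, Real.log_mul he.ne' hS0.ne',
        Real.log_mul he'.ne' hS0.ne', Real.log_div he.ne' he'.ne']
      ring
    rw [hlog] at hb
    have hL2 : C2 + 2 * |C| / c ≤ Real.log (e / e') := (le_max_right _ _).trans hL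
    have h2 : 2 * |C| / c ≤ Lr P Q := by linarith
    rw [div_le_iff₀ hc] at h2
    have h3 := le_abs_self C
    have h4 : min (c / 2) (c1 / (n : ℝ) ^ 2) * Lr P Q ≤ c / 2 * Lr P Q :=
      mul_le_mul_of_nonneg_right (min_le_left _ _) hLnn
    have h5 : ∑ p ∈ PrI P Q, (1 - (fzc z M χ p * et t p).re) / (p : ℝ) =
        ∑ p ∈ PrI P Q, (1 - (z * χ ((p : ℕ) : ZMod M) * et t p).re) / (p : ℝ) := by
      refine sum_congr rfl fun p hp => ?_
      rw [npi_prime z M χ (mem_PrI.1 hp).1]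
    rw [h5]
    nlinarith
  · have hτ1 : 1 ≤ |(n : ℝ) * t| := by
      rw [abs_mul, abs_of_nonneg (by linarith)]
      nlinarith
    have hτ2 : |(n : ℝ) * t| ≤ Real.exp (5 * S) := by
      rw [abs_mul, abs_of_nonneg (by linarith)]
      have h1 : (n : ℝ) ≤ Real.exp S := by
        rw [← Real.exp_log (show (0 : ℝ) < n by linarith)]
        exact Real.exp_le_exp.2 hS3
      calc (n : ℝ) * |t| ≤ Real.exp S * Real.exp (4 * S) :=
            mul_le_mul h1 ht (abs_nonneg _) (Real.exp_pos _).le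
        _ = Real.exp (5 * S) := by rw [← Real.exp_add]; congr 1; ring
    have h1 := hdefS S hSS1 ((n : ℝ) * t) hτ1 hτ2
    rw [← hP, ← hQ] at h1
    have h2 : ∑ p ∈ PrI P Q, (1 - (et ((n : ℝ) * t) p).re) / (p : ℝ) ≤
        (n : ℝ) ^ 2 * ∑ p ∈ PrI P Q, (1 - (fzc z M χ p * et t p).re) / (p : ℝ) := by
      rw [mul_sum]
      refine sum_le_sum fun p hp => ?_
      obtain ⟨hpp, hpP, -⟩ := mem_PrI.1 hp
      have hMp : M < p := by
        have : (M : ℝ) < (p : ℝ) := hPM.trans hpP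
        exact_mod_cast this
      have hp0 : (0 : ℝ) < (p : ℝ) := by exact_mod_cast hpp.pos
      have hchi := npi_chi M χ hpp hMp
      have hu1 : ‖fzc z M χ p * et t p‖ = 1 := by
        rw [npi_prime z M χ hpp, norm_mul, norm_mul, hznorm, norm_et, one_mul, mul_one]
        exact Complex.norm_eq_one_of_pow_eq_one hchi (Nat.totient_pos.2 (NeZero.pos M)).ne'
      have hu2 : (fzc z M χ p * et t p) ^ n = et ((n : ℝ) * t) p := by
        rw [mul_pow, npi_et_pow, npi_prime z M χ hpp, mul_pow, hn, pow_mul z q, hz, one_pow,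
          one_mul, mul_comm q, pow_mul, hchi, one_pow, one_mul]
      have h3 := npi_pow _ hu1 n
      rw [hu2] at h3
      rw [← mul_div_assoc]
      exact div_le_div_of_nonneg_right h3 hp0.le
    have h4 : min (c / 2) (c1 / (n : ℝ) ^ 2) * Lr P Q ≤ c1 / (n : ℝ) ^ 2 * Lr P Q :=
      mul_le_mul_of_nonneg_right (min_le_right _ _) hLnn
    have h5 : c1 / (n : ℝ) ^ 2 * Lr P Q =
        (c1 * Lr P Q) / (n : ℝ) ^ 2 := by ring
    have h6 : (c1 * Lr P Q) / (n : ℝ) ^ 2 ≤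
        ∑ p ∈ PrI P Q, (1 - (fzc z M χ p * et t p).re) / (p : ℝ) := by
      rw [div_le_iff₀ hn2]
      linarith
    linarith

end Pool.Agent.SplI

end
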