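import Pool.Agent.Lib_MP_92ef0c_m.M05
import Pool.Agent.Lib_MP_92ef0c_m.M22
import Pool.Agent.Lib_MP_92ef0c_m.M25
import Pool.Agent.Lib_MP_92ef0c_m.M28

/-!
# MP_92ef0c_nt, split pairs: merged library part M31

Concatenation of smaller files (each in its own section), only to save build time.
-/

/-! ### from `Lib_MP_92ef0c_sp.TDefs` -/

section

/-!
# Definitions for the second half: products over the entries, residue classes, correlations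
-/

set_option autoImplicit false

namespace Pool.Agent.Spl

open Finset Pool.Agent.GaussMR Pool.Agent.OmAll Pool.Agent.OmEq

/-- product over the entries -/
def F4 (f1 f2 f3 f4 : ℕ → ℂ) (e : Q4) : ℂ := f1 e.a * f2 e.b * f3 e.c * f4 e.d

/-- a function of the class modulo `M` -/
def cz (M : ℕ) (ψ : ZMod M → ZMod M → ZMod M → ZMod M → ℂ) (e : Q4) : ℂ :=
  ψ (e.a : ZMod M) (e.b : ZMod M) (e.c : ZMod M) (e.d : ZMod M)

/-- the complex conjugate function -/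
def cj (f : ℕ → ℂ) (n : ℕ) : ℂ := (starRingEnd ℂ) (f n)

/-- the weight of the first row `(a, b)` -/
noncomputable def wV (h : ℝ → ℝ) (X a b : ℝ) : ℝ := h (a * b / X) * ps0 (Real.log a - Real.log b)

/-- the weight of a pair of second rows `(a b), (c d)` with difference `n` times the first row -/
noncomputable def w3 (h : ℝ → ℝ) (J N n : ℕ) (X : ℝ) (e : Q4) : ℝ :=
  wV h X (((e.a : ℝ) - e.c) / n) (((e.b : ℝ) - e.d) / n) ^ 2 * rho J N (n * e.a / ((e.a : ℝ) - e.c)) *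
    rho J N (n * e.c / ((e.a : ℝ) - e.c))

/-- the pairs of second rows `(a b), (c d)` of two matrices with the same first row, difference `n` times the first row,
and `b c = n0` modulo `Q` for the two matrices -/
def kap3 (n Q n0 : ℕ) (e : Q4) : Prop :=
  Q ∣ n ∧ (e.a ≡ e.c [MOD n] ∧ e.b ≡ e.d [MOD n]) ∧ e.b * e.c ≡ e.d * e.c + n * n0 [MOD n * Q]

open Classical in
/-- the matrices of determinant `h0` with `b c = n0` modulo `Q` -/
noncomputable def SQ (h0 Q n0 : ℕ) (x : ℝ) : Finset Q4 := (SN h0 x).filter (fun e => e.b * e.c ≡ n0 [MOD Q])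

/-- the sum over unbalanced matrices -/
noncomputable def SX3 (h0 Q n0 : ℕ) (f g : ℕ → ℂ) (h : ℝ → ℝ) (J N : ℕ) (x X : ℝ) : ℂ :=
  ∑ e ∈ SQ h0 Q n0 x, F4 g f f g e * ((wV h X e.a e.b * rho J N ((e.c : ℝ) / e.a) : ℝ) : ℂ)

open Classical in
/-- the correlations of determinant `n h0` -/
noncomputable def Gm3 (h0 Q n0 : ℕ) (f g : ℕ → ℂ) (h : ℝ → ℝ) (J N n : ℕ) (x X : ℝ) : ℂ :=
  ∑ e ∈ (SN (n * h0) x).filter (kap3 n Q n0), F4 f g (cj f) (cj g) e * ((w3 h J N n X e : ℝ) : ℂ)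

/-- the limit of the weight `w3` -/
noncomputable def WN3 (h : ℝ → ℝ) (J N n : ℕ) (y t u : ℝ) : ℂ :=
  WN h J N n y (t + u) * ((ps0 ((u - t) / 2) ^ 2 : ℝ) : ℂ)

/-- the limit of the weight of `SX3` -/
noncomputable def WO3 (h : ℝ → ℝ) (J N : ℕ) (y t u : ℝ) : ℂ :=
  WO h J N y (t + u) * ((ps0 ((u - t) / 2) : ℝ) : ℂ)

/-- a cut-off in `y` times triangles in `t` and `u` -/
noncomputable def Wh (h : ℝ → ℝ) (y t u : ℝ) : ℂ := ((h y * ps0 t * ps0 u : ℝ) : ℂ)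

/-- the hypotheses on the determinant and the residue class -/
structure HQ (h0 Q n0 : ℕ) : Prop where
  pos : 0 < h0
  posQ : 0 < Q
  dvd : h0 ∣ Q
  cop : n0.Coprime Q
  cop' : (n0 + h0).Coprime Q

/-- the correlations are small on average -/
def GmSmall3 (h0 Q n0 : ℕ) (f g : ℕ → ℂ) : Prop :=
  ∀ (h : ℝ → ℝ) (h1 h2 : ℝ), HF h h1 h2 → ∀ ε : ℝ, 0 < ε → ∃ N0 : ℕ, ∀ N : ℕ, N0 ≤ N → ∃ J0 : ℕ, ∀ J : ℕ, J0 ≤ J →
    ∀ᶠ X : ℝ in Filter.atTop, ‖∑ n ∈ Icc 1 N, Gm3 h0 Q n0 f g h J N n (((J + N) ^ 2 * (h0 + 1) * h2) * X) X‖ ≤ ε * N ^ 2 * X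

/-! ### stage B -/

/-- the sum over all classes -/
noncomputable def Qs3 (f : ℕ → ℂ) (n : ℕ) (x : ℝ) (W : ℝ → ℝ → ℝ → ℂ) (X : ℝ) : ℂ :=
  ∑ e ∈ SN n x, F4 f (cj f) (cj f) f e * W (yS e / X) (tS e) (uS e)

/-- weighted sums over the determinants `n h0`, `Q ∣ n` -/
def QSmall3 (h0 Q : ℕ) (f : ℕ → ℂ) : Prop :=
  ∀ (h : ℝ → ℝ) (h1 h2 : ℝ), HF h h1 h2 → ∀ ε : ℝ, 0 < ε → ∃ N0 : ℕ, ∀ N : ℕ, N0 ≤ N → ∀ᶠ Y : ℝ in Filter.atTop,
    ‖∑ n ∈ (Icc 1 N).filter (fun n => Q ∣ n), (((n / n.totient) * ww ((n : ℝ) / N) : ℝ) : ℂ) *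
      Qs3 f (n * h0) (h2 * Y) (Wh (fun y => h y ^ 2)) Y‖ ≤ ε * N * Y

/-- the same over the multiples of `D`, without the factor `n / φ(n)` -/
def QdSmall3 (f : ℕ → ℂ) : Prop :=
  ∀ D : ℕ, 1 ≤ D → ∀ (h : ℝ → ℝ) (h1 h2 : ℝ), HF h h1 h2 → ∀ ε : ℝ, 0 < ε → ∃ N0 : ℕ, ∀ N : ℕ, N0 ≤ N →
    ∀ᶠ Y : ℝ in Filter.atTop, ‖∑ n ∈ (Icc 1 N).filter (fun n => D ∣ n), ((ww ((n : ℝ) / N) : ℝ) : ℂ) *
      Qs3 f n (h2 * Y) (Wh (fun y => h y ^ 2)) Y‖ ≤ ε * N * Y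

/-- `f x * conj (f y)` -/
def F2 (f : ℕ → ℂ) (z : ℕ × ℕ) : ℂ := f z.1 * cj f z.2

theorem cj_cj (f : ℕ → ℂ) : cj (cj f) = f := by
  funext n
  unfold cj
  exact Complex.conj_conj (f n)

theorem norm_cj (f : ℕ → ℂ) (n : ℕ) : ‖cj f n‖ = ‖f n‖ := by
  unfold cj
  exact RCLike.norm_conj (f n)

theorem MF.cj' {f : ℕ → ℂ} {E : Finset ℕ} {ω : ℂ} (h : MF f E ω) : MF (cj f) E ((starRingEnd ℂ) ω) := h.conj

theorem norm_F4_le {f1 f2 f3 f4 : ℕ → ℂ} (h1 : ∀ n, ‖f1 n‖ ≤ 1) (h2 : ∀ n, ‖f2 n‖ ≤ 1) (h3 : ∀ n, ‖f3 n‖ ≤ 1)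
    (h4 : ∀ n, ‖f4 n‖ ≤ 1) (e : Q4) : ‖F4 f1 f2 f3 f4 e‖ ≤ 1 := by
  unfold F4
  rw [norm_mul, norm_mul, norm_mul]
  exact mul_le_one₀ (mul_le_one₀ (mul_le_one₀ (h1 _) (norm_nonneg _) (h2 _)) (norm_nonneg _) (h3 _)) (norm_nonneg _) (h4 _)

theorem mem_SQ {h0 Q n0 : ℕ} {x : ℝ} {e : Q4} : e ∈ SQ h0 Q n0 x ↔ (Sn h0 e ∧ yS e ≤ x) ∧ e.b * e.c ≡ n0 [MOD Q] := by
  classical
  unfold SQ
  rw [mem_filter, mem_SN]

end Pool.Agent.Spl

end

/-! ### from `Lib_MP_92ef0c_sp.Fin3H` -/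

section

/-!
# Windows of matrices
-/

set_option autoImplicit false

namespace Pool.Agent.Spl

open Finset Pool.Agent.GaussMR Pool.Agent.OmAll Pool.Agent.OmEq MeasureTheory Filter

open Classical in
/-- the indicator of `b c = n0` as a function of the class -/
noncomputable def psq (Q n0 : ℕ) (_x1 x2 x3 _x4 : ZMod Q) : ℂ := if x2 * x3 = (n0 : ZMod Q) then 1 else 0

theorem psq_le (Q n0 : ℕ) (x1 x2 x3 x4 : ZMod Q) : ‖psq Q n0 x1 x2 x3 x4‖ ≤ 1 := by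
  unfold psq
  split_ifs <;> simp

open Classical in
theorem cz_psq (Q n0 : ℕ) (e : Q4) : cz Q (psq Q n0) e = if e.b * e.c ≡ n0 [MOD Q] then 1 else 0 := by
  unfold cz psq
  rw [← Nat.cast_mul]
  congr 1
  rw [ZMod.natCast_eq_natCast_iff]

theorem sum_SQ (h0 Q n0 : ℕ) (x : ℝ) (G : Q4 → ℂ) :
    ∑ e ∈ SQ h0 Q n0 x, G e = ∑ e ∈ SN h0 x, cz Q (psq Q n0) e * G e := by
  classical
  unfold SQ
  rw [sum_filter]
  apply sum_congr rfl
  intro e _
  rw [cz_psq]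
  split_ifs
  · rw [one_mul]
  · rw [zero_mul]

theorem sq_cop {h0 Q n0 : ℕ} (hQ : HQ h0 Q n0) {e : Q4} (he : Sn h0 e) (hc : e.b * e.c ≡ n0 [MOD Q]) :
    (e.a.Coprime Q ∧ e.b.Coprime Q) ∧ e.c.Coprime Q ∧ e.d.Coprime Q := by
  have h1 : (e.b * e.c).Coprime Q := by
    unfold Nat.Coprime
    rw [hc.gcd_eq]
    exact hQ.cop
  have h2 : (e.a * e.d).Coprime Q := by
    have h3 : e.a * e.d ≡ n0 + h0 [MOD Q] := by
      rw [he.1]
      exact hc.add_right h0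
    unfold Nat.Coprime
    rw [h3.gcd_eq]
    exact hQ.cop'
  exact ⟨⟨Nat.Coprime.coprime_mul_right h2, Nat.Coprime.coprime_mul_right h1⟩,
    Nat.Coprime.coprime_mul_left h1, Nat.Coprime.coprime_mul_left h2⟩

open Classical in
/-- the window -/
noncomputable def SW (h0 Q n0 : ℕ) (t1 t2 u1 u2 X : ℝ) : Finset Q4 :=
  (SQ h0 Q n0 X).filter (fun e => (t1 ≤ tS e ∧ tS e ≤ t2) ∧ (u1 ≤ uS e ∧ uS e ≤ u2))

open Classical in
theorem sum_SW (h0 Q n0 : ℕ) (t1 t2 u1 u2 X : ℝ) (G : Q4 → ℂ) :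
    ∑ e ∈ SW h0 Q n0 t1 t2 u1 u2 X, G e =
      ∑ e ∈ (SN h0 X).filter (fun e => (t1 ≤ tS e ∧ tS e ≤ t2) ∧ (u1 ≤ uS e ∧ uS e ≤ u2)),
        cz Q (psq Q n0) e * G e := by
  unfold SW SQ
  rw [filter_filter, sum_filter, sum_filter]
  apply sum_congr rfl
  intro e _
  rw [cz_psq]
  by_cases h1 : e.b * e.c ≡ n0 [MOD Q]
  · by_cases h2 : (t1 ≤ tS e ∧ tS e ≤ t2) ∧ (u1 ≤ uS e ∧ uS e ≤ u2)
    · rw [if_pos ⟨h1, h2⟩, if_pos h2, if_pos h1, one_mul]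
    · rw [if_neg (fun h => h2 h.2), if_neg h2]
  · rw [if_neg (fun h => h1 h.1), if_neg h1, zero_mul, ite_self]

end Pool.Agent.Spl

end

/-! ### from `Lib_MP_92ef0c_sp.Fin4H` -/

section

/-!
# Final form: quadruples of natural numbers in a window
-/

set_option autoImplicit false

namespace Pool.Agent.Spl

open Finset Filter Pool.Agent.OmEq

/-- the matrices with positive entries `a d = b c + h`, `b c ≤ x`, `b c = n0 mod k`, `b c` coprime to `h`, `d / a ∈ [α, β]`, `c / b ∈ [γ, δ]` -/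
def WS (h k n0 : ℕ) (α β γ δ x : ℝ) : Set Q4 :=
  {e | (e.a * e.d = e.b * e.c + h ∧ 0 < e.b * e.c ∧ ((e.b * e.c : ℕ) : ℝ) ≤ x) ∧
    (e.b * e.c ≡ n0 [MOD k] ∧ (e.b * e.c).Coprime h) ∧
    (α * e.a ≤ e.d ∧ (e.d : ℝ) ≤ β * e.a) ∧ (γ * e.b ≤ e.c ∧ (e.c : ℝ) ≤ δ * e.b)}

/-- the classes modulo `k h` -/
def CS (h k n0 : ℕ) : Finset ℕ := (range (k * h)).filter (fun m => m ≡ n0 [MOD k] ∧ m.Coprime h)

theorem cop_of_modEq {m n k : ℕ} (h : m ≡ n [MOD k]) (hc : n.Coprime k) : m.Coprime k := by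
  unfold Nat.Coprime
  rw [h.gcd_eq]
  exact hc

theorem hq_of_mem {h k n0 m : ℕ} (hh : 0 < h) (hk : 0 < k) (h1 : n0.Coprime k) (h2 : (n0 + h).Coprime k)
    (hm : m ∈ CS h k n0) : HQ h (k * h) m := by
  unfold CS at hm
  rw [mem_filter] at hm
  obtain ⟨-, hm1, hm2⟩ := hm
  refine ⟨hh, Nat.mul_pos hk hh, Dvd.intro_left k rfl, ?_, ?_⟩
  · exact Nat.Coprime.mul_right (cop_of_modEq hm1 h1) hm2
  · refine Nat.Coprime.mul_right (cop_of_modEq (hm1.add_right h) h2) ?_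
    simpa using hm2

theorem cs_nonempty {h k n0 : ℕ} (hh : 0 < h) (hk : 0 < k) (h1 : n0.Coprime k) : (CS h k n0).Nonempty := by
  haveI : NeZero k := ⟨hk.ne'⟩
  obtain ⟨p, hp, hpp, hpm⟩ := Nat.forall_exists_prime_gt_and_eq_mod (q := k) (a := (n0 : ZMod k))
    ((ZMod.isUnit_iff_coprime n0 k).2 h1) h
  refine ⟨p % (k * h), ?_⟩
  unfold CS
  rw [mem_filter, mem_range]
  refine ⟨Nat.mod_lt _ (Nat.mul_pos hk hh), ?_, ?_⟩
  · have h3 : p % (k * h) ≡ p [MOD k] := (Nat.mod_modEq p (k * h)).of_mul_right h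
    exact h3.trans ((ZMod.natCast_eq_natCast_iff p n0 k).1 hpm)
  · have h3 : p % (k * h) ≡ p [MOD h] := (Nat.mod_modEq p (k * h)).of_mul_left k
    refine cop_of_modEq h3 ?_
    rw [Nat.Prime.coprime_iff_not_dvd hpp]
    intro hd
    exact absurd (Nat.le_of_dvd hh hd) (by omega)

open Classical in
/-- the window as a finite disjoint union over the classes -/
theorem ncard_WS (h k n0 : ℕ) (hh : 0 < h) (hk : 0 < k) (h1 : n0.Coprime k) (h2 : (n0 + h).Coprime k)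
    (α β γ δ : ℝ) (hα : 0 < α) (hβ : 0 < β) (hγ : 0 < γ) (hδ : 0 < δ) (x : ℝ) (P : Q4 → Prop) :
    {e : Q4 | e ∈ WS h k n0 α β γ δ x ∧ P e}.ncard =
      ∑ m ∈ CS h k n0, ((SW h (k * h) m (Real.log α) (Real.log β) (Real.log γ) (Real.log δ) x).filter P).card := by
  have hdisj : ∀ m ∈ CS h k n0, ∀ m' ∈ CS h k n0, m ≠ m' →
      Disjoint ((SW h (k * h) m (Real.log α) (Real.log β) (Real.log γ) (Real.log δ) x).filter P)
        ((SW h (k * h) m' (Real.log α) (Real.log β) (Real.log γ) (Real.log δ) x).filter P) := by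
    intro m hm m' hm' hne
    rw [Finset.disjoint_left]
    intro e he he'
    unfold SW at he he'
    rw [mem_filter, mem_filter, mem_SQ] at he he'
    apply hne
    have h3 := he.1.1.2.symm.trans he'.1.1.2
    unfold CS at hm hm'
    rw [mem_filter, mem_range] at hm hm'
    unfold Nat.ModEq at h3
    rwa [Nat.mod_eq_of_lt hm.1, Nat.mod_eq_of_lt hm'.1] at h3
  rw [← card_biUnion hdisj, ← Set.ncard_coe_finset]
  congr 1
  ext e
  rw [mem_coe, mem_biUnion]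
  simp only [Set.mem_ofPred_eq, mem_filter]
  constructor
  · rintro ⟨⟨⟨h3, h4, h5⟩, ⟨h6, h7⟩, h8, h9⟩, hP⟩
    have hb : 0 < e.b := Nat.pos_of_mul_pos_right h4 |> fun _ => Nat.pos_of_ne_zero (by
      rintro h0
      rw [h0, zero_mul] at h4
      exact lt_irrefl _ h4)
    have hc : 0 < e.c := Nat.pos_of_ne_zero (by
      rintro h0
      rw [h0, mul_zero] at h4
      exact lt_irrefl _ h4)
    have had : 0 < e.a * e.d := by omega
    have ha : 0 < e.a := Nat.pos_of_ne_zero (by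
      rintro h0
      rw [h0, zero_mul] at had
      exact lt_irrefl _ had)
    have hd : 0 < e.d := Nat.pos_of_ne_zero (by
      rintro h0
      rw [h0, mul_zero] at had
      exact lt_irrefl _ had)
    refine ⟨(e.b * e.c) % (k * h), ?_, ?_, hP⟩
    · unfold CS
      rw [mem_filter, mem_range]
      refine ⟨Nat.mod_lt _ (Nat.mul_pos hk hh), ?_, ?_⟩
      · exact ((Nat.mod_modEq _ (k * h)).of_mul_right h).trans h6
      · exact cop_of_modEq ((Nat.mod_modEq _ (k * h)).of_mul_left k) h7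
    · unfold SW
      rw [mem_filter, mem_SQ]
      refine ⟨⟨⟨⟨h3, ha, hb, hc, hd, ?_, ?_⟩, ?_⟩, (Nat.mod_modEq _ _).symm⟩, ?_, ?_⟩
      · -- rows are primitive
        have h10 : Nat.gcd e.a e.b ∣ h := by
          have h11 : Nat.gcd e.a e.b ∣ e.b * e.c + h := h3 ▸ (Nat.gcd_dvd_left e.a e.b).mul_right e.d
          exact (Nat.dvd_add_right ((Nat.gcd_dvd_right e.a e.b).mul_right e.c)).1 h11
        have h12 : Nat.gcd e.a e.b ∣ Nat.gcd (e.b * e.c) h := Nat.dvd_gcd ((Nat.gcd_dvd_right e.a e.b).mul_right e.c) h10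
        rw [h7] at h12
        exact Nat.dvd_one.1 h12
      · have h10 : Nat.gcd e.c e.d ∣ h := by
          have h11 : Nat.gcd e.c e.d ∣ e.b * e.c + h := h3 ▸ (Nat.gcd_dvd_right e.c e.d).mul_left e.a
          exact (Nat.dvd_add_right ((Nat.gcd_dvd_left e.c e.d).mul_left e.b)).1 h11
        have h12 : Nat.gcd e.c e.d ∣ Nat.gcd (e.b * e.c) h := Nat.dvd_gcd ((Nat.gcd_dvd_left e.c e.d).mul_left e.b) h10
        rw [h7] at h12
        exact Nat.dvd_one.1 h12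
      · unfold yS
        push_cast at h5
        exact h5
      · exact (log_cond hα hβ ha hd).2 h8
      · exact (log_cond hγ hδ hb hc).2 h9
  · rintro ⟨m, hm, he, hP⟩
    have hQ := hq_of_mem hh hk h1 h2 hm
    unfold SW at he
    rw [mem_filter, mem_SQ] at he
    obtain ⟨⟨⟨⟨h3, ha, hb, hc, hd, -, -⟩, h5⟩, h6⟩, h7, h8⟩ := he
    unfold CS at hm
    rw [mem_filter] at hm
    obtain ⟨-, hm1, hm2⟩ := hm
    refine ⟨⟨⟨h3, Nat.mul_pos hb hc, ?_⟩, ⟨?_, ?_⟩, ?_, ?_⟩, hP⟩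
    · unfold yS at h5
      push_cast
      exact h5
    · exact (h6.of_mul_right h).trans hm1
    · exact cop_of_modEq (h6.of_mul_left k) hm2
    · exact (log_cond hα hβ ha hd).1 h7
    · exact (log_cond hγ hδ hb hc).1 h8

end Pool.Agent.Spl

end

/-! ### from `Lib_MP_92ef0c_la.LDefs` -/

section

/-!
# MP_92ef0c_nt, split twin of the joint law: definitions of block A

Families (the index of a family is `a * X` with a fixed `a > 0`, `X` the geometric scale), general bounded functions of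
the rows `(a, b)`, `(c, d)` of a matrix.
-/

set_option autoImplicit false

namespace Pool.Agent.SplL

open Finset Pool.Agent.Spl Pool.Agent.SplB Pool.Agent.GaussMR Pool.Agent.OmAll Pool.Agent.OmEq MeasureTheory Filter

/-- families of completely multiplicative functions bounded by one which at every fixed prime outside `E` are
eventually equal to `ω` -/
structure FT (f : ℝ → ℕ → ℂ) (E : Finset ℕ) (ω : ℂ) : Prop where
  mul : ∀ X m n, f X (m * n) = f X m * f X n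
  bd : ∀ X n, ‖f X n‖ ≤ 1
  pr : ∀ T : ℕ, ∀ᶠ X : ℝ in atTop, ∀ p : ℕ, p ≤ T → p.Prime → p ∉ E → f X p = ω

/-- functions that are multiplied by `g p` when a prime `p ≤ T`, `p ∉ E`, moves from `d` to `a` -/
structure CmpTA (n : ℕ) (E : Finset ℕ) (T : ℕ) (g : ℕ → ℂ) (Φ : Q4 → ℂ) : Prop where
  bd : ∀ e, ‖Φ e‖ ≤ 1
  mv : ∀ p a b c d : ℕ, p.Prime → p ≤ T → p ∉ E → Sn n ⟨p * a, b, c, d⟩ → ¬ p ^ 2 ∣ p * a * d →
    Φ ⟨p * a, b, c, d⟩ = g p * Φ ⟨a, b, c, p * d⟩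

/-- functions that are multiplied by `g p` when a prime `p ≤ T`, `p ∉ E`, moves from `c` to `b` -/
structure CmpTB (n : ℕ) (E : Finset ℕ) (T : ℕ) (g : ℕ → ℂ) (Φ : Q4 → ℂ) : Prop where
  bd : ∀ e, ‖Φ e‖ ≤ 1
  mv : ∀ p a b c d : ℕ, p.Prime → p ≤ T → p ∉ E → Sn n ⟨a, p * b, c, d⟩ → ¬ p ^ 2 ∣ p * b * c →
    Φ ⟨a, p * b, c, d⟩ = g p * Φ ⟨a, b, p * c, d⟩

/-! ### Functions of the rows -/

/-- product of functions of the two rows -/
def R2 (α β : ℕ × ℕ → ℂ) (e : Q4) : ℂ := α (e.a, e.b) * β (e.c, e.d)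

/-- the complex conjugate -/
def cjr (β : ℕ × ℕ → ℂ) (z : ℕ × ℕ) : ℂ := (starRingEnd ℂ) (β z)

/-- test functions of mean zero in `(t, u)` give nothing -/
def TVR (α β : ℝ → ℕ × ℕ → ℂ) : Prop :=
  ∀ a : ℝ, 0 < a → ∀ n M : ℕ, ∀ [NeZero M], 0 < n → n.primeFactors ⊆ M.primeFactors →
    ∀ ψ : ZMod M → ZMod M → ZMod M → ZMod M → ℂ, (∀ x1 x2 x3 x4, ‖ψ x1 x2 x3 x4‖ ≤ 1) →
    ∀ (b : ℝ) (W : ℝ → ℝ → ℝ → ℂ), TS b W → (∀ y, (∫ t, ∫ u, W y t u) = 0) →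
    Tendsto (fun X : ℝ => (∑ e ∈ SN n (b * X), R2 (α (a * X)) (β (a * X)) e * cz M ψ e *
      W (yS e / X) (tS e) (uS e)) / X) atTop (nhds 0)

/-- the average over the classes `(v a, b, c, v⁻¹ d)`, `v` a unit modulo `M` (`psA M ψ 1` of `PsiA.lean`) -/
noncomputable def avA (M : ℕ) [NeZero M] (ψ : ZMod M → ZMod M → ZMod M → ZMod M → ℂ) (x1 x2 x3 x4 : ZMod M) : ℂ :=
  (M.totient : ℂ)⁻¹ * ∑ v : (ZMod M)ˣ, ψ ((v : ZMod M) * x1) x2 x3 (((v⁻¹ : (ZMod M)ˣ) : ZMod M) * x4)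

/-- functions of the class may be replaced by their averages -/
def CHR (α β : ℝ → ℕ × ℕ → ℂ) : Prop :=
  ∀ a : ℝ, 0 < a → ∀ n M : ℕ, ∀ [NeZero M], 0 < n → n.primeFactors ⊆ M.primeFactors →
    ∀ ψ : ZMod M → ZMod M → ZMod M → ZMod M → ℂ, (∀ x1 x2 x3 x4, ‖ψ x1 x2 x3 x4‖ ≤ 1) →
    ∀ (b : ℝ) (W : ℝ → ℝ → ℝ → ℂ), TS b W →
    Tendsto (fun X : ℝ => (∑ e ∈ SN n (b * X), R2 (α (a * X)) (β (a * X)) e * (cz M ψ e - cz M (avA M ψ) e) *
      W (yS e / X) (tS e) (uS e)) / X) atTop (nhds 0)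

/-- the sum over unbalanced matrices -/
noncomputable def SX4 (h0 Q n0 : ℕ) (α β : ℕ × ℕ → ℂ) (h : ℝ → ℝ) (J N : ℕ) (x X : ℝ) : ℂ :=
  ∑ e ∈ SQ h0 Q n0 x, R2 α β e * ((wV h X e.a e.b * rho J N ((e.c : ℝ) / e.a) : ℝ) : ℂ)

open Classical in
/-- the correlations of determinant `n h0` -/
noncomputable def Gm4 (h0 Q n0 : ℕ) (β : ℕ × ℕ → ℂ) (h : ℝ → ℝ) (J N n : ℕ) (x X : ℝ) : ℂ :=
  ∑ e ∈ (SN (n * h0) x).filter (kap3 n Q n0), R2 β (cjr β) e * ((w3 h J N n X e : ℝ) : ℂ)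

/-- the sum over all classes -/
noncomputable def Qs4 (β : ℕ × ℕ → ℂ) (n : ℕ) (x : ℝ) (W : ℝ → ℝ → ℝ → ℂ) (X : ℝ) : ℂ :=
  ∑ e ∈ SN n x, R2 β (cjr β) e * W (yS e / X) (tS e) (uS e)

/-- the correlations are small on average -/
def GmSmall4 (h0 Q n0 : ℕ) (β : ℝ → ℕ × ℕ → ℂ) : Prop :=
  ∀ (h : ℝ → ℝ) (h1 h2 : ℝ), HF h h1 h2 → ∀ ε : ℝ, 0 < ε → ∃ N0 : ℕ, ∀ N : ℕ, N0 ≤ N → ∃ J0 : ℕ, ∀ J : ℕ, J0 ≤ J →
    ∀ a : ℝ, 0 < a → ∀ᶠ X : ℝ in atTop,
      ‖∑ n ∈ Icc 1 N, Gm4 h0 Q n0 (β (a * X)) h J N n (((J + N) ^ 2 * (h0 + 1) * h2) * X) X‖ ≤ ε * N ^ 2 * X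

/-- weighted sums over the determinants `n h0`, `Q ∣ n` -/
def QSmall4 (h0 Q : ℕ) (β : ℝ → ℕ × ℕ → ℂ) : Prop :=
  ∀ (h : ℝ → ℝ) (h1 h2 : ℝ), HF h h1 h2 → ∀ ε : ℝ, 0 < ε → ∃ N0 : ℕ, ∀ N : ℕ, N0 ≤ N → ∀ a : ℝ, 0 < a →
    ∀ᶠ Y : ℝ in atTop,
    ‖∑ n ∈ (Icc 1 N).filter (fun n => Q ∣ n), (((n / n.totient) * ww ((n : ℝ) / N) : ℝ) : ℂ) *
      Qs4 (β (a * Y)) (n * h0) (h2 * Y) (Wh (fun y => h y ^ 2)) Y‖ ≤ ε * N * Y

/-- the same over the multiples of `D`, without the factor `n / φ(n)` -/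
def QdSmall4 (β : ℝ → ℕ × ℕ → ℂ) : Prop :=
  ∀ D : ℕ, 1 ≤ D → ∀ (h : ℝ → ℝ) (h1 h2 : ℝ), HF h h1 h2 → ∀ ε : ℝ, 0 < ε → ∃ N0 : ℕ, ∀ N : ℕ, N0 ≤ N →
    ∀ a : ℝ, 0 < a → ∀ᶠ Y : ℝ in atTop, ‖∑ n ∈ (Icc 1 N).filter (fun n => D ∣ n), ((ww ((n : ℝ) / N) : ℝ) : ℂ) *
      Qs4 (β (a * Y)) n (h2 * Y) (Wh (fun y => h y ^ 2)) Y‖ ≤ ε * N * Y

/-- Matomaki-Radziwill in arcs for a family of functions of a row -/
def MRG (β : ℝ → ℕ × ℕ → ℂ) : Prop :=
  ∀ m : ℕ, 0 < m → ∀ b : ℕ × ℕ, ∀ K : ℝ, 1 ≤ K → ∀ ε : ℝ, 0 < ε → ∃ H0 : ℝ, 0 < H0 ∧ ∀ H : ℝ, H0 ≤ H →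
    ∀ a : ℝ, 0 < a → ∀ᶠ X : ℝ in atTop,
    ∫ τ, ‖S2 (β (a * X)) m b (Real.sqrt X) (K * Real.sqrt X) (H / X) τ‖ ^ 2 ≤ ε * H ^ 2

/-! ### Simple facts -/

theorem FT.conj {f : ℝ → ℕ → ℂ} {E : Finset ℕ} {ω : ℂ} (h : FT f E ω) :
    FT (fun X => cj (f X)) E ((starRingEnd ℂ) ω) := by
  refine ⟨fun X m n => ?_, fun X n => ?_, fun T => ?_⟩
  · unfold cj
    rw [h.mul, map_mul]
  · rw [norm_cj]
    exact h.bd X n
  · filter_upwards [h.pr T] with X hX p h1 h2 h3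
    unfold cj
    rw [hX p h1 h2 h3]

theorem FT.dil {f : ℝ → ℕ → ℂ} {E : Finset ℕ} {ω : ℂ} (h : FT f E ω) {a : ℝ} (ha : 0 < a) :
    FT (fun X => f (a * X)) E ω :=
  ⟨fun X => h.mul (a * X), fun X => h.bd (a * X),
    fun T => (tendsto_id.const_mul_atTop ha).eventually (h.pr T)⟩

theorem FS.ft {Q : ℕ} (hQ : 0 < Q) {z : ℂ} {f : ℝ → ℕ → ℂ} (h : FS Q z f) : FT f Q.primeFactors z := by
  obtain ⟨κ, hκ, hp⟩ := h.pr
  refine ⟨h.mul, h.bd, fun T => ?_⟩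
  have h1 : ∀ᶠ X : ℝ in atTop, (T : ℝ) ≤ X ^ κ := (tendsto_rpow_atTop hκ).eventually_ge_atTop _
  filter_upwards [h1, eventually_ge_atTop 1] with X h2 h3 p h4 h5 h6
  refine hp X h3 p h5 (fun hd => h6 (Nat.mem_primeFactors.2 ⟨h5, hd, hQ.ne'⟩)) ?_
  exact le_trans (by exact_mod_cast h4) h2

theorem F4_R2 (f1 f2 f3 f4 : ℕ → ℂ) (e : Q4) : F4 f1 f2 f3 f4 e = R2 (pf f1 f2) (pf f3 f4) e := by
  unfold F4 R2 pf
  ring

theorem cjr_pf (f g : ℕ → ℂ) : cjr (pf f g) = pf (cj f) (cj g) := by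
  funext z
  unfold cjr pf cj
  rw [map_mul]

theorem norm_cjr (β : ℕ × ℕ → ℂ) (z : ℕ × ℕ) : ‖cjr β z‖ = ‖β z‖ := by
  unfold cjr
  exact RCLike.norm_conj (β z)

theorem norm_R2_le {α β : ℕ × ℕ → ℂ} (h1 : ∀ z, ‖α z‖ ≤ 1) (h2 : ∀ z, ‖β z‖ ≤ 1) (e : Q4) : ‖R2 α β e‖ ≤ 1 := by
  unfold R2
  rw [norm_mul]
  exact mul_le_one₀ (h1 _) (norm_nonneg _) (h2 _)

end Pool.Agent.SplL

end

/-! ### from `Lib_MP_92ef0c_la.LinR` -/

section

/-!
# Linear combinations of row functions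
-/

set_option autoImplicit false

namespace Pool.Agent.SplL

open Finset Pool.Agent.Spl Pool.Agent.SplB Pool.Agent.GaussMR Pool.Agent.OmAll Pool.Agent.OmEq MeasureTheory Filter

/-- bounded functions times functions tending to zero -/
theorem bdd_mul_zero {s F : ℝ → ℂ} {C : ℝ} (hs : ∀ X, ‖s X‖ ≤ C) (hF : Tendsto F atTop (nhds 0)) :
    Tendsto (fun X => s X * F X) atTop (nhds 0) := by
  have h1 : Tendsto (fun X => C * ‖F X‖) atTop (nhds 0) := by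
    have := (tendsto_norm_zero.comp hF).const_mul C
    rwa [mul_zero] at this
  refine squeeze_zero_norm (fun X => ?_) h1
  rw [norm_mul]
  exact mul_le_mul_of_nonneg_right (hs X) (norm_nonneg _)

/-- PROOF. `R2 α (s β1 + t β2) = s R2 α β1 + t R2 α β2`; bounded factors times functions tending to `0`. -/
theorem TVR.comb_right {α β1 β2 : ℝ → ℕ × ℕ → ℂ} (h1 : TVR α β1) (h2 : TVR α β2) (s t : ℝ → ℂ) (C : ℝ)
    (hs : ∀ X, ‖s X‖ ≤ C) (ht : ∀ X, ‖t X‖ ≤ C) : TVR α (fun X z => s X * β1 X z + t X * β2 X z) := by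
  intro a ha n M _ hn hM ψ hψ b W hW h0
  have e1 := bdd_mul_zero (s := fun X => s (a * X)) (C := C) (fun X => hs _) (h1 a ha n M hn hM ψ hψ b W hW h0)
  have e2 := bdd_mul_zero (s := fun X => t (a * X)) (C := C) (fun X => ht _) (h2 a ha n M hn hM ψ hψ b W hW h0)
  have e3 := e1.add e2
  rw [add_zero] at e3
  refine e3.congr fun X => ?_
  rw [← mul_div_assoc, ← mul_div_assoc, ← add_div, mul_sum, mul_sum, ← sum_add_distrib]
  congr 1
  refine sum_congr rfl fun e _ => ?_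
  unfold R2
  ring

theorem TVR.comb_left {α1 α2 β : ℝ → ℕ × ℕ → ℂ} (h1 : TVR α1 β) (h2 : TVR α2 β) (s t : ℝ → ℂ) (C : ℝ)
    (hs : ∀ X, ‖s X‖ ≤ C) (ht : ∀ X, ‖t X‖ ≤ C) : TVR (fun X z => s X * α1 X z + t X * α2 X z) β := by
  intro a ha n M _ hn hM ψ hψ b W hW h0
  have e1 := bdd_mul_zero (s := fun X => s (a * X)) (C := C) (fun X => hs _) (h1 a ha n M hn hM ψ hψ b W hW h0)
  have e2 := bdd_mul_zero (s := fun X => t (a * X)) (C := C) (fun X => ht _) (h2 a ha n M hn hM ψ hψ b W hW h0)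
  have e3 := e1.add e2
  rw [add_zero] at e3
  refine e3.congr fun X => ?_
  rw [← mul_div_assoc, ← mul_div_assoc, ← add_div, mul_sum, mul_sum, ← sum_add_distrib]
  congr 1
  refine sum_congr rfl fun e _ => ?_
  unfold R2
  ring

theorem CHR.comb_right {α β1 β2 : ℝ → ℕ × ℕ → ℂ} (h1 : CHR α β1) (h2 : CHR α β2) (s t : ℝ → ℂ) (C : ℝ)
    (hs : ∀ X, ‖s X‖ ≤ C) (ht : ∀ X, ‖t X‖ ≤ C) : CHR α (fun X z => s X * β1 X z + t X * β2 X z) := by
  intro a ha n M _ hn hM ψ hψ b W hW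
  have e1 := bdd_mul_zero (s := fun X => s (a * X)) (C := C) (fun X => hs _) (h1 a ha n M hn hM ψ hψ b W hW)
  have e2 := bdd_mul_zero (s := fun X => t (a * X)) (C := C) (fun X => ht _) (h2 a ha n M hn hM ψ hψ b W hW)
  have e3 := e1.add e2
  rw [add_zero] at e3
  refine e3.congr fun X => ?_
  rw [← mul_div_assoc, ← mul_div_assoc, ← add_div, mul_sum, mul_sum, ← sum_add_distrib]
  congr 1
  refine sum_congr rfl fun e _ => ?_
  unfold R2
  ring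

theorem CHR.comb_left {α1 α2 β : ℝ → ℕ × ℕ → ℂ} (h1 : CHR α1 β) (h2 : CHR α2 β) (s t : ℝ → ℂ) (C : ℝ)
    (hs : ∀ X, ‖s X‖ ≤ C) (ht : ∀ X, ‖t X‖ ≤ C) : CHR (fun X z => s X * α1 X z + t X * α2 X z) β := by
  intro a ha n M _ hn hM ψ hψ b W hW
  have e1 := bdd_mul_zero (s := fun X => s (a * X)) (C := C) (fun X => hs _) (h1 a ha n M hn hM ψ hψ b W hW)
  have e2 := bdd_mul_zero (s := fun X => t (a * X)) (C := C) (fun X => ht _) (h2 a ha n M hn hM ψ hψ b W hW)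
  have e3 := e1.add e2
  rw [add_zero] at e3
  refine e3.congr fun X => ?_
  rw [← mul_div_assoc, ← mul_div_assoc, ← add_div, mul_sum, mul_sum, ← sum_add_distrib]
  congr 1
  refine sum_congr rfl fun e _ => ?_
  unfold R2
  ring

/-- the integral in `MRG` is homogeneous (used with `s = 1 / 2`) -/
theorem MRG.smul {β : ℝ → ℕ × ℕ → ℂ} (h : MRG β) (s : ℂ) (hs : ‖s‖ ≤ 1) : MRG (fun X z => s * β X z) := by
  intro m hm b K hK ε hε
  obtain ⟨H0, hH0, h1⟩ := h m hm b K hK ε hε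
  refine ⟨H0, hH0, fun H hH a ha => ?_⟩
  filter_upwards [h1 H hH a ha] with X hX
  have e1 : ∀ τ, ‖S2 (fun z => s * β (a * X) z) m b (Real.sqrt X) (K * Real.sqrt X) (H / X) τ‖ ^ 2 =
      ‖s‖ ^ 2 * ‖S2 (β (a * X)) m b (Real.sqrt X) (K * Real.sqrt X) (H / X) τ‖ ^ 2 := by
    intro τ
    unfold S2
    rw [← mul_sum, norm_mul, mul_pow]
  simp only [e1]
  rw [integral_const_mul]
  have h2 : ‖s‖ ^ 2 ≤ 1 := pow_le_one₀ (norm_nonneg _) hs
  have h3 : 0 ≤ ∫ τ, ‖S2 (β (a * X)) m b (Real.sqrt X) (K * Real.sqrt X) (H / X) τ‖ ^ 2 :=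
    integral_nonneg fun _ => by positivity
  exact (mul_le_of_le_one_left h3 h2).trans hX

/-- PROOF. `tvf` for the matrices of `SQ`: as `tvfQ` in `Lib_MP_92ef0c_sp/Tvf2.lean`, `M = Q`, `ψ x1 x2 x3 x4 = 1` if `x2 x3 = n0` in `ZMod Q`, else `0`. -/
theorem TVR.sq {α β : ℝ → ℕ × ℕ → ℂ} (h : TVR α β) (h0 Q n0 : ℕ) (hQ : HQ h0 Q n0) (a : ℝ) (ha : 0 < a) (b : ℝ)
    (W : ℝ → ℝ → ℝ → ℂ) (hW : TS b W) (hz : ∀ y, (∫ t, ∫ u, W y t u) = 0) :
    Tendsto (fun X : ℝ => (∑ e ∈ SQ h0 Q n0 (b * X), R2 (α (a * X)) (β (a * X)) e *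
      W (yS e / X) (tS e) (uS e)) / X) atTop (nhds 0) := by
  classical
  have : NeZero Q := ⟨hQ.posQ.ne'⟩
  have hsub : h0.primeFactors ⊆ Q.primeFactors := Nat.primeFactors_mono hQ.dvd hQ.posQ.ne'
  have e1 := h a ha h0 Q hQ.pos hsub
    (fun _ x2 x3 _ => if x2 * x3 = (n0 : ZMod Q) then 1 else 0)
    (fun x1 x2 x3 x4 => by split_ifs <;> simp) b W hW hz
  refine e1.congr fun X => ?_
  congr 1
  unfold SQ
  rw [sum_filter]
  refine sum_congr rfl fun e _ => ?_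
  have hiff : ((e.b : ZMod Q) * (e.c : ZMod Q) = (n0 : ZMod Q)) ↔ e.b * e.c ≡ n0 [MOD Q] := by
    rw [← Nat.cast_mul]
    exact ZMod.natCast_eq_natCast_iff _ _ _
  unfold cz
  beta_reduce
  by_cases h : e.b * e.c ≡ n0 [MOD Q]
  · rw [if_pos h, if_pos (hiff.2 h), mul_one]
  · rw [if_neg h, if_neg (fun h' => h (hiff.1 h')), mul_zero, zero_mul]

end Pool.Agent.SplL

end

/-! ### from `Lib_MP_92ef0c_pc.Cnt` -/

section

/-!
# From matrices `a d = b c + h` to the integers `n = b c`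
-/

set_option autoImplicit false

namespace Pool.Agent.Spc

open Finset ArithmeticFunction Pool.Agent.Spl

/-- sizes of `a`, `b` -/
theorem sizes {h k n0 : ℕ} {α β γ δ x : ℝ} (hα : 0 < α) (hγ : 0 < γ) (hx : 1 ≤ x) {e : Q4}
    (he : e ∈ WS h k n0 α β γ δ x) :
    0 < e.a ∧ 0 < e.b ∧ 0 < e.c ∧ 0 < e.d ∧
    (e.a : ℝ) ≤ (1 + (1 + h) / α + 1 / γ) * Real.sqrt x ∧
    (e.b : ℝ) ≤ (1 + (1 + h) / α + 1 / γ) * Real.sqrt x := by
  obtain ⟨⟨h1, h2, h3⟩, -, ⟨h4, -⟩, ⟨h6, -⟩⟩ := he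
  have hb : 0 < e.b := Nat.pos_of_mul_pos_left h2 |> fun _ => Nat.pos_of_ne_zero (fun h0 => by simp [h0] at h2)
  have hc : 0 < e.c := Nat.pos_of_ne_zero (fun h0 => by simp [h0] at h2)
  have had : 0 < e.a * e.d := by rw [h1]; positivity
  have ha : 0 < e.a := Nat.pos_of_ne_zero (fun h0 => by simp [h0] at had)
  have hd : 0 < e.d := Nat.pos_of_ne_zero (fun h0 => by simp [h0] at had)
  have har : (0 : ℝ) < e.a := by exact_mod_cast ha
  have hbr : (0 : ℝ) < e.b := by exact_mod_cast hb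
  have h1r : (e.a : ℝ) * e.d = e.b * e.c + h := by exact_mod_cast h1
  have h3r : (e.b : ℝ) * e.c ≤ x := by exact_mod_cast h3
  have hsx : Real.sqrt x ^ 2 = x := Real.sq_sqrt (by linarith)
  have hsx0 : 0 < Real.sqrt x := Real.sqrt_pos.2 (by linarith)
  have hh : (0 : ℝ) ≤ h := Nat.cast_nonneg h
  refine ⟨ha, hb, hc, hd, ?_, ?_⟩
  · have g1 : α * (e.a : ℝ) ^ 2 ≤ (1 + h) * x := by
      calc α * (e.a : ℝ) ^ 2 = e.a * (α * e.a) := by ring
        _ ≤ e.a * e.d := by gcongr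
        _ = e.b * e.c + h := h1r
        _ ≤ x + h * 1 := by linarith
        _ ≤ x + h * x := by gcongr
        _ = (1 + h) * x := by ring
    have g2 : (e.a : ℝ) ^ 2 ≤ ((1 + (1 + h) / α + 1 / γ) * Real.sqrt x) ^ 2 := by
      rw [mul_pow, hsx]
      have g3 : (e.a : ℝ) ^ 2 ≤ (1 + h) / α * x := by
        rw [div_mul_eq_mul_div, le_div_iff₀ hα]
        linarith
      refine g3.trans ?_
      gcongr
      have u1 : 0 < (1 + (h : ℝ)) / α := by positivity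
      have u2 : 0 < 1 / γ := by positivity
      nlinarith
    exact (sq_le_sq₀ har.le (by positivity)).1 g2
  · have g1 : γ * (e.b : ℝ) ^ 2 ≤ x := by
      calc γ * (e.b : ℝ) ^ 2 = e.b * (γ * e.b) := by ring
        _ ≤ e.b * e.c := by gcongr
        _ ≤ x := h3r
    have g2 : (e.b : ℝ) ^ 2 ≤ ((1 + (1 + h) / α + 1 / γ) * Real.sqrt x) ^ 2 := by
      rw [mul_pow, hsx]
      have g3 : (e.b : ℝ) ^ 2 ≤ 1 / γ * x := by
        rw [div_mul_eq_mul_div, le_div_iff₀ hγ]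
        linarith
      refine g3.trans ?_
      gcongr
      have u1 : 0 < (1 + (h : ℝ)) / α := by positivity
      have u2 : 0 < 1 / γ := by positivity
      nlinarith
    exact (sq_le_sq₀ hbr.le (by positivity)).1 g2

/-- `c / (a / gcd)` is bounded -/
theorem ratio {h k n0 : ℕ} {α β γ δ x : ℝ} (hh : 0 < h) (hα : 0 < α) (hβ : 0 < β) (hγ : 0 < γ) (hδ : 0 < δ)
    (hx : 1 ≤ x) {e : Q4} (he : e ∈ WS h k n0 α β γ δ x) :
    ((e.c / (e.a / Nat.gcd e.a e.b) : ℕ) : ℝ) ≤ δ * (1 + β / γ) * h := by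
  obtain ⟨ha, hb, hc, hd, -, -⟩ := sizes hα hγ hx he
  obtain ⟨⟨h1, h2, h3⟩, -, ⟨h4, h5⟩, ⟨h6, h7⟩⟩ := he
  have har : (0 : ℝ) < e.a := by exact_mod_cast ha
  have hbr : (0 : ℝ) < e.b := by exact_mod_cast hb
  have hg : Nat.gcd e.a e.b ∣ h := by
    have h8 : Nat.gcd e.a e.b ∣ e.b * e.c + h := h1 ▸ (Nat.gcd_dvd_left _ _).mul_right _
    exact (Nat.dvd_add_right ((Nat.gcd_dvd_right _ _).mul_right _)).1 h8
  set g := Nat.gcd e.a e.b with hgd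
  have hg0 : 0 < g := Nat.gcd_pos_of_pos_left _ ha
  have hgh : g ≤ h := Nat.le_of_dvd hh hg
  have hgr : (0 : ℝ) < g := by exact_mod_cast hg0
  have hghr : (g : ℝ) ≤ h := by exact_mod_cast hgh
  have hga : g ∣ e.a := Nat.gcd_dvd_left _ _
  have hadiv : ((e.a / g : ℕ) : ℝ) = e.a / g := Nat.cast_div hga hgr.ne'
  have h9 : ((e.c / (e.a / g) : ℕ) : ℝ) ≤ e.c / (e.a / g) := by
    have := @Nat.cast_div_le ℝ _ _ _ e.c (e.a / g)
    rw [hadiv] at this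
    exact this
  refine h9.trans ?_
  have h10 : (e.b : ℝ) ≤ (1 + β / γ) * e.a := by
    have h11 : γ * (e.b : ℝ) ^ 2 ≤ β * (e.a : ℝ) ^ 2 := by
      have h1r : (e.a : ℝ) * e.d = e.b * e.c + h := by exact_mod_cast h1
      calc γ * (e.b : ℝ) ^ 2 = e.b * (γ * e.b) := by ring
        _ ≤ e.b * e.c := by gcongr
        _ ≤ e.a * e.d := by rw [h1r]; linarith [(Nat.cast_nonneg h : (0 : ℝ) ≤ h)]
        _ ≤ e.a * (β * e.a) := by gcongr
        _ = β * (e.a : ℝ) ^ 2 := by ring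
    have h12 : (e.b : ℝ) ^ 2 ≤ ((1 + β / γ) * e.a) ^ 2 := by
      have h13 : (e.b : ℝ) ^ 2 ≤ β / γ * (e.a : ℝ) ^ 2 := by
        rw [div_mul_eq_mul_div, le_div_iff₀ hγ]
        linarith
      refine h13.trans ?_
      rw [mul_pow]
      gcongr
      have u1 : 0 < β / γ := by positivity
      nlinarith
    exact (sq_le_sq₀ hbr.le (by positivity)).1 h12
  calc (e.c : ℝ) / (e.a / g) ≤ δ * e.b / (e.a / g) := by gcongr
    _ ≤ δ * ((1 + β / γ) * e.a) / (e.a / g) := by gcongr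
    _ = δ * (1 + β / γ) * g := by field_simp
    _ ≤ δ * (1 + β / γ) * h := by gcongr

theorem inj_key {h : ℕ} {e e' : Q4} (ha : 0 < e.a) (h1 : e.a * e.d = e.b * e.c + h)
    (h1' : e'.a * e'.d = e'.b * e'.c + h) (hea : e.a = e'.a) (heb : e.b = e'.b)
    (hec : e.c / (e.a / Nat.gcd e.a e.b) = e'.c / (e'.a / Nat.gcd e'.a e'.b)) : e = e' := by
  obtain ⟨a, b, c, d⟩ := e
  obtain ⟨a', b', c', d'⟩ := e'
  simp only at *
  subst hea heb
  have h2 : b * c ≡ b * c' [MOD a] := by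
    have h3 : b * c + h ≡ b * c' + h [MOD a] := by
      rw [← h1, ← h1']
      exact ((Nat.modEq_zero_iff_dvd.2 (dvd_mul_right a d)).trans
        (Nat.modEq_zero_iff_dvd.2 (dvd_mul_right a d')).symm)
    exact Nat.ModEq.add_right_cancel' h h3
  have h4 : c ≡ c' [MOD a / Nat.gcd a b] := Nat.ModEq.cancel_left_div_gcd ha h2
  have h5 : c = c' := by
    rw [← Nat.div_add_mod c (a / Nat.gcd a b), ← Nat.div_add_mod c' (a / Nat.gcd a b), hec, h4]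
  subst h5
  have h6 : a * d = a * d' := by rw [h1, h1']
  have h7 : d = d' := Nat.eq_of_mul_eq_mul_left ha h6
  rw [h7]

theorem WS_finite {h k n0 : ℕ} {α β γ δ x : ℝ} (hh : 0 < h) (hα : 0 < α) (hβ : 0 < β) (hγ : 0 < γ) (hδ : 0 < δ)
    (hx : 1 ≤ x) : (WS h k n0 α β γ δ x).Finite := by
  set K : ℝ := 1 + (1 + h) / α + 1 / γ with hK
  have hinj : Set.InjOn (fun e : Q4 => (e.a, e.b, e.c / (e.a / Nat.gcd e.a e.b))) (WS h k n0 α β γ δ x) := by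
    intro e he e' he' hee
    simp only [Prod.mk.injEq] at hee
    exact inj_key (sizes hα hγ hx he).1 he.1.1 he'.1.1 hee.1 hee.2.1 hee.2.2
  refine Set.Finite.of_finite_image ?_ hinj
  refine ((Set.finite_Iic ⌊K * Real.sqrt x⌋₊).prod ((Set.finite_Iic ⌊K * Real.sqrt x⌋₊).prod
    (Set.finite_Iic ⌊δ * (1 + β / γ) * h⌋₊))).subset ?_
  rintro _ ⟨e, he, rfl⟩
  obtain ⟨-, -, -, -, h1, h2⟩ := sizes hα hγ hx he
  exact ⟨Nat.le_floor h1, Nat.le_floor h2, Nat.le_floor (ratio hh hα hβ hγ hδ hx he)⟩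

open Classical in
/-- matrices with bad `a` or `b` -/
theorem bad_ab (h k n0 : ℕ) (hh : 0 < h) (α β γ δ : ℝ) (hα : 0 < α) (hβ : 0 < β) (hγ : 0 < γ) (hδ : 0 < δ)
    (ε η : ℝ) (hε : 0 < ε) (hη : 0 < η) : ∃ x0 : ℝ, 1 ≤ x0 ∧ ∀ x : ℝ, x0 ≤ x →
    (Set.ncard {e : Q4 | e ∈ WS h k n0 α β γ δ x ∧ ((1 + ε) * Real.log (Real.log x) < (cardFactors e.a : ℝ) ∨
      (1 + ε) * Real.log (Real.log x) < (cardFactors e.b : ℝ))} : ℝ) ≤ η * x := by
  set K : ℝ := 1 + (1 + h) / α + 1 / γ with hK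
  have hhr : (0 : ℝ) ≤ h := Nat.cast_nonneg h
  have hK1 : 1 ≤ K := by
    have u1 : 0 < (1 + (h : ℝ)) / α := by positivity
    have u2 : 0 < 1 / γ := by positivity
    rw [hK]; linarith
  set M : ℕ := ⌊δ * (1 + β / γ) * h⌋₊ with hM
  obtain ⟨Y0, hY0, hfew⟩ := few_omega ε (η / (2 * (M + 1) * K ^ 2)) hε (by positivity)
  refine ⟨max (max 16 (Y0 ^ 2)) (K ^ 2), (by norm_num : (1 : ℝ) ≤ 16).trans ((le_max_left _ _).trans (le_max_left _ _)), ?_⟩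
  intro x hx
  have hx16 : 16 ≤ x := ((le_max_left _ _).trans (le_max_left _ _)).trans hx
  have hxY : Y0 ^ 2 ≤ x := ((le_max_right _ _).trans (le_max_left _ _)).trans hx
  have hxK : K ^ 2 ≤ x := (le_max_right _ _).trans hx
  have hx1 : 1 ≤ x := by linarith
  have hsx : Real.sqrt x ^ 2 = x := Real.sq_sqrt (by linarith)
  have hsx4 : 4 ≤ Real.sqrt x := by
    rw [show (4 : ℝ) = Real.sqrt 16 by rw [show (16 : ℝ) = 4 ^ 2 by norm_num]; simp]
    exact Real.sqrt_le_sqrt hx16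
  have hsY : Y0 ≤ Real.sqrt x := Real.le_sqrt_of_sq_le hxY
  have hsK : K ≤ Real.sqrt x := Real.le_sqrt_of_sq_le hxK
  set Y : ℝ := K * Real.sqrt x with hY
  have hYY0 : Y0 ≤ Y := by rw [hY]; nlinarith
  have hYx : Y ≤ x := by
    rw [hY]
    calc K * Real.sqrt x ≤ Real.sqrt x * Real.sqrt x := by gcongr
      _ = x := by rw [← sq, hsx]
  have hY4 : 4 ≤ Y := by rw [hY]; nlinarith
  have hll : Real.log (Real.log Y) ≤ Real.log (Real.log x) := by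
    have h3 : 1 < Real.log Y := by
      have h4 : Real.exp 1 < Y := by
        have := Real.exp_one_lt_d9
        linarith
      have := Real.log_lt_log (Real.exp_pos 1) h4
      rwa [Real.log_exp] at this
    apply Real.log_le_log (by linarith)
    exact Real.log_le_log (by linarith) hYx
  set B := (Icc 1 ⌊Y⌋₊).filter (fun n => (1 + ε) * Real.log (Real.log Y) < (cardFactors n : ℝ)) with hB
  have hBc := hfew Y hYY0
  rw [← hB] at hBc
  set I := Icc 1 ⌊Y⌋₊ with hI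
  have hIc : (I.card : ℝ) ≤ Y := by
    rw [hI, Nat.card_Icc]
    simp only [Nat.add_sub_cancel]
    exact Nat.floor_le (by linarith)
  set F : Finset (ℕ × ℕ × ℕ) := (B ×ˢ (I ×ˢ range (M + 1))) ∪ (I ×ˢ (B ×ˢ range (M + 1))) with hF
  set S := {e : Q4 | e ∈ WS h k n0 α β γ δ x ∧ ((1 + ε) * Real.log (Real.log x) < (cardFactors e.a : ℝ) ∨
      (1 + ε) * Real.log (Real.log x) < (cardFactors e.b : ℝ))} with hS
  have hcard : S.ncard ≤ F.card := by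
    have h1 : S.ncard ≤ (F : Set (ℕ × ℕ × ℕ)).ncard := by
      refine Set.ncard_le_ncard_of_injOn (fun e : Q4 => (e.a, e.b, e.c / (e.a / Nat.gcd e.a e.b))) ?_ ?_
        (Finset.finite_toSet _)
      · rintro e ⟨he, hbad⟩
        obtain ⟨ha, hb, -, -, h1, h2⟩ := sizes hα hγ hx1 he
        have h3 : e.c / (e.a / Nat.gcd e.a e.b) ≤ M := Nat.le_floor (ratio hh hα hβ hγ hδ hx1 he)
        have haI : e.a ∈ I := by rw [hI, mem_Icc]; exact ⟨ha, Nat.le_floor h1⟩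
        have hbI : e.b ∈ I := by rw [hI, mem_Icc]; exact ⟨hb, Nat.le_floor h2⟩
        have hr : e.c / (e.a / Nat.gcd e.a e.b) ∈ range (M + 1) := mem_range.2 (by omega)
        have hmul : (1 + ε) * Real.log (Real.log Y) ≤ (1 + ε) * Real.log (Real.log x) := by gcongr
        rw [hF, Finset.mem_coe, mem_union, mem_product, mem_product, mem_product, mem_product]
        rcases hbad with hb1 | hb1
        · left
          exact ⟨by rw [hB, mem_filter]; exact ⟨haI, hmul.trans_lt hb1⟩, hbI, hr⟩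
        · right
          exact ⟨haI, by rw [hB, mem_filter]; exact ⟨hbI, hmul.trans_lt hb1⟩, hr⟩
      · intro e he e' he' hee
        simp only [Prod.mk.injEq] at hee
        exact inj_key (sizes hα hγ hx1 he.1).1 he.1.1.1 he'.1.1.1 hee.1 hee.2.1 hee.2.2
    rwa [Set.ncard_coe_finset] at h1
  have hFc : (F.card : ℝ) ≤ 2 * (B.card * (I.card * (M + 1))) := by
    have h1 : F.card ≤ 2 * (B.card * (I.card * (M + 1))) := by
      refine (card_union_le _ _).trans ?_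
      rw [card_product, card_product, card_product, card_product, card_range]
      apply le_of_eq
      ring
    exact_mod_cast h1
  calc (S.ncard : ℝ) ≤ F.card := by exact_mod_cast hcard
    _ ≤ 2 * (B.card * (I.card * (M + 1))) := hFc
    _ ≤ 2 * ((η / (2 * (M + 1) * K ^ 2) * Y) * (Y * (M + 1))) := by gcongr
    _ = η * x := by
        rw [hY]
        have : (M : ℝ) + 1 ≠ 0 := by positivity
        have : K ≠ 0 := by linarith
        calc 2 * (η / (2 * (M + 1) * K ^ 2) * (K * Real.sqrt x) * (K * Real.sqrt x * (M + 1)))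
            = η * (Real.sqrt x ^ 2) := by field_simp
          _ = η * x := by rw [hsx]

/-- all four -/
theorem bad_all (h k n0 : ℕ) (hh : 0 < h) (α β γ δ : ℝ) (hα : 0 < α) (hβ : 0 < β) (hγ : 0 < γ) (hδ : 0 < δ)
    (ε η : ℝ) (hε : 0 < ε) (hη : 0 < η) : ∃ x0 : ℝ, 1 ≤ x0 ∧ ∀ x : ℝ, x0 ≤ x →
    (Set.ncard {e : Q4 | e ∈ WS h k n0 α β γ δ x ∧
      ¬ ((cardFactors e.a : ℝ) ≤ (1 + ε) * Real.log (Real.log x) ∧
        (cardFactors e.b : ℝ) ≤ (1 + ε) * Real.log (Real.log x) ∧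
        (cardFactors e.c : ℝ) ≤ (1 + ε) * Real.log (Real.log x) ∧
        (cardFactors e.d : ℝ) ≤ (1 + ε) * Real.log (Real.log x))} : ℝ) ≤ η * x := by
  obtain ⟨x1, hx1, h1⟩ := bad_ab h k n0 hh α β γ δ hα hβ hγ hδ ε (η / 2) hε (by positivity)
  obtain ⟨x2, hx2, h2⟩ := bad_ab h k n0 hh β⁻¹ α⁻¹ δ⁻¹ γ⁻¹ (by positivity) (by positivity) (by positivity)
    (by positivity) ε (η / 2) hε (by positivity)
  refine ⟨max x1 x2, hx1.trans (le_max_left _ _), fun x hx => ?_⟩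
  have hxx1 := (le_max_left _ _).trans hx
  have hxx2 := (le_max_right _ _).trans hx
  have hx0 : 1 ≤ x := hx1.trans hxx1
  have g1 := h1 x hxx1
  have g2 := h2 x hxx2
  set L := (1 + ε) * Real.log (Real.log x) with hL
  set S1 := {e : Q4 | e ∈ WS h k n0 α β γ δ x ∧ (L < (cardFactors e.a : ℝ) ∨ L < (cardFactors e.b : ℝ))} with hS1
  set S2 := {e : Q4 | e ∈ WS h k n0 β⁻¹ α⁻¹ δ⁻¹ γ⁻¹ x ∧
    (L < (cardFactors e.a : ℝ) ∨ L < (cardFactors e.b : ℝ))} with hS2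
  set S3 := {e : Q4 | e ∈ WS h k n0 α β γ δ x ∧ (L < (cardFactors e.d : ℝ) ∨ L < (cardFactors e.c : ℝ))} with hS3
  have hf1 : (WS h k n0 α β γ δ x).Finite := WS_finite hh hα hβ hγ hδ hx0
  have hf2 : (WS h k n0 β⁻¹ α⁻¹ δ⁻¹ γ⁻¹ x).Finite := WS_finite hh (by positivity) (by positivity)
    (by positivity) (by positivity) hx0
  have hsub : {e : Q4 | e ∈ WS h k n0 α β γ δ x ∧
      ¬ ((cardFactors e.a : ℝ) ≤ L ∧ (cardFactors e.b : ℝ) ≤ L ∧ (cardFactors e.c : ℝ) ≤ L ∧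
        (cardFactors e.d : ℝ) ≤ L)} ⊆ S1 ∪ S3 := by
    rintro e ⟨he, hn⟩
    by_cases hc1 : L < (cardFactors e.a : ℝ) ∨ L < (cardFactors e.b : ℝ)
    · left; exact ⟨he, hc1⟩
    · right
      refine ⟨he, ?_⟩
      by_contra hcon
      push Not at hc1 hcon
      exact hn ⟨hc1.1, hc1.2, hcon.2, hcon.1⟩
  have h3 : S3.ncard ≤ S2.ncard := by
    refine Set.ncard_le_ncard_of_injOn (fun e : Q4 => (⟨e.d, e.c, e.b, e.a⟩ : Q4)) ?_ ?_
      (hf2.subset fun e he => he.1)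
    · rintro e ⟨he, hbad⟩
      obtain ⟨⟨u1, u2, u3⟩, ⟨u4, u5⟩, ⟨u6, u7⟩, ⟨u8, u9⟩⟩ := he
      refine ⟨⟨⟨?_, ?_, ?_⟩, ⟨?_, ?_⟩, ⟨?_, ?_⟩, ⟨?_, ?_⟩⟩, ?_⟩
      · simp only; rw [mul_comm e.d, mul_comm e.c]; exact u1
      · simp only; rw [mul_comm e.c]; exact u2
      · simp only; rw [mul_comm e.c]; exact u3
      · simp only; rw [mul_comm e.c]; exact u4
      · simp only; rw [mul_comm e.c]; exact u5
      · simp only
        rw [inv_mul_le_iff₀ hβ]; exact u7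
      · simp only
        rw [le_inv_mul_iff₀ hα]; exact u6
      · simp only
        rw [inv_mul_le_iff₀ hδ]; exact u9
      · simp only
        rw [le_inv_mul_iff₀ hγ]; exact u8
      · exact hbad
    · rintro ⟨a, b, c, d⟩ _ ⟨a', b', c', d'⟩ _ hee
      simp only [Q4.mk.injEq] at hee ⊢
      tauto
  have h4 : (Set.ncard {e : Q4 | e ∈ WS h k n0 α β γ δ x ∧
      ¬ ((cardFactors e.a : ℝ) ≤ L ∧ (cardFactors e.b : ℝ) ≤ L ∧ (cardFactors e.c : ℝ) ≤ L ∧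
        (cardFactors e.d : ℝ) ≤ L)} : ℝ) ≤ S1.ncard + S3.ncard := by
    have h5 := Set.ncard_le_ncard hsub ((hf1.subset fun e he => he.1).union (hf1.subset fun e he => he.1))
    exact_mod_cast h5.trans (Set.ncard_union_le _ _)
  have h3r : (S3.ncard : ℝ) ≤ S2.ncard := by exact_mod_cast h3
  linarith

end Pool.Agent.Spc

end

/-! ### from `Lib_MP_92ef0c_pc.Many` -/

section

/-!
# Many integers `n`
-/

set_option autoImplicit false

namespace Pool.Agent.Spc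

open Finset ArithmeticFunction Pool.Agent.Spl Filter

/-- the number of divisors is at most `2 ^ Ω` -/
theorem div_le_pow (N : ℕ) (hN : N ≠ 0) :
    N.divisors.card ≤ 2 ^ cardFactors N := by
  induction N using Nat.recOnMul with
  | zero => exact absurd rfl hN
  | one => simp
  | prime p hp =>
    rw [cardFactors_apply_prime hp, Nat.Prime.divisors hp]
    exact Finset.card_le_two
  | mul a b ha hb =>
    have ha0 : a ≠ 0 := left_ne_zero_of_mul hN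
    have hb0 : b ≠ 0 := right_ne_zero_of_mul hN
    rw [cardFactors_mul ha0 hb0, pow_add, Nat.divisors_mul]
    exact (Finset.card_mul_le).trans (Nat.mul_le_mul (ha ha0) (hb hb0))

theorem pow_eq_aux (L l T ε A' : ℝ) (hl : 0 < l) (hL : Real.log l = L) (hT : T = (1 + ε) * L)
    (hA : 4 * Real.log 2 * (1 + ε) = A') : (2 : ℝ) ^ (4 * T) = l ^ A' := by
  rw [Real.rpow_def_of_pos (by norm_num : (0 : ℝ) < 2), Real.rpow_def_of_pos hl, hL, hT, ← hA]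
  congr 1
  ring

theorem fin_ineq (c x l A A' : ℝ) (D : ℕ) (hc : 0 < c) (hl : 0 < l) (hA : 2 / c ≤ l ^ (A - A'))
    (hf : c / 2 * x ≤ l ^ A' * D) : x / l ^ A ≤ D := by
  have hp1 : 0 < l ^ A' := Real.rpow_pos_of_pos hl _
  have hp2 : 0 < l ^ A := Real.rpow_pos_of_pos hl _
  rw [div_le_iff₀ hp2]
  have hsplit : l ^ A = l ^ (A - A') * l ^ A' := by
    rw [← Real.rpow_add hl]; congr 1; ring
  have h5 : (2 / c) * (l ^ A' * D) ≤ l ^ (A - A') * (l ^ A' * D) :=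
    mul_le_mul_of_nonneg_right hA (by positivity)
  have h6 : (2 / c) * (c / 2 * x) ≤ (2 / c) * (l ^ A' * D) :=
    mul_le_mul_of_nonneg_left hf (by positivity)
  have h7 : (2 / c) * (c / 2 * x) = x := by field_simp
  rw [h7] at h6
  rw [hsplit]
  linarith

open Classical in
/-- many `n` -/
theorem many_n (h k n0 : ℕ) (hh : 0 < h) (α β γ δ : ℝ) (hα : 0 < α) (hβ : 0 < β) (hγ : 0 < γ) (hδ : 0 < δ)
    (P : Q4 → Prop) (c x0 : ℝ) (hc : 0 < c)
    (H : ∀ x : ℝ, x0 ≤ x → c * x ≤ (Set.ncard {e : Q4 | e ∈ WS h k n0 α β γ δ x ∧ P e} : ℝ))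
    (A : ℝ) (hA : 4 * Real.log 2 < A) :
    ∀ᶠ x : ℝ in atTop, x / Real.log x ^ A ≤
      (Set.ncard {n : ℕ | (n : ℝ) ≤ x ∧ ∃ e : Q4, e.b * e.c = n ∧ e ∈ WS h k n0 α β γ δ x ∧ P e} : ℝ) := by
  have hl2 : 0 < Real.log 2 := Real.log_pos (by norm_num)
  -- choice of ε
  obtain ⟨A', hA1, hA2⟩ := exists_between hA
  set ε : ℝ := (A' - 4 * Real.log 2) / (4 * Real.log 2) with hε
  have hε0 : 0 < ε := by rw [hε]; apply div_pos <;> linarith
  have hεA : 4 * Real.log 2 * (1 + ε) = A' := by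
    rw [hε]; field_simp; ring
  obtain ⟨x1, hx1, hbad⟩ := bad_all h k n0 hh α β γ δ hα hβ hγ hδ ε (c / 2) hε0 (by positivity)
  have hlim : Tendsto (fun x : ℝ => Real.log x ^ (A - A')) atTop atTop :=
    (tendsto_rpow_atTop (by linarith : 0 < A - A')).comp Real.tendsto_log_atTop
  filter_upwards [eventually_ge_atTop x0, eventually_ge_atTop x1, eventually_ge_atTop (16 : ℝ),
    hlim.eventually_ge_atTop (2 / c)] with x hxx0 hxx1 hx16 hxA
  have hx0 : 1 ≤ x := by linarith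
  have hH := H x hxx0
  have hB := hbad x hxx1
  set L := Real.log (Real.log x) with hL
  set T := (1 + ε) * L with hT
  have hlogx : 1 < Real.log x := by
    have h4 : Real.exp 1 < x := by
      have := Real.exp_one_lt_d9
      linarith
    have := Real.log_lt_log (Real.exp_pos 1) h4
    rwa [Real.log_exp] at this
  have hL0 : 0 < L := Real.log_pos hlogx
  have hfin : (WS h k n0 α β γ δ x).Finite := WS_finite hh hα hβ hγ hδ hx0
  set S := {e : Q4 | e ∈ WS h k n0 α β γ δ x ∧ P e} with hS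
  set B := {e : Q4 | e ∈ WS h k n0 α β γ δ x ∧
      ¬ ((cardFactors e.a : ℝ) ≤ T ∧ (cardFactors e.b : ℝ) ≤ T ∧ (cardFactors e.c : ℝ) ≤ T ∧
        (cardFactors e.d : ℝ) ≤ T)} with hBd
  set G := {e : Q4 | (e ∈ WS h k n0 α β γ δ x ∧ P e) ∧
      ((cardFactors e.a : ℝ) ≤ T ∧ (cardFactors e.b : ℝ) ≤ T ∧ (cardFactors e.c : ℝ) ≤ T ∧
        (cardFactors e.d : ℝ) ≤ T)} with hG
  have hSf : S.Finite := hfin.subset fun e he => he.1
  have hBf : B.Finite := hfin.subset fun e he => he.1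
  have hGf : G.Finite := hfin.subset fun e he => he.1.1
  have hSsub : S ⊆ G ∪ B := by
    intro e he
    by_cases hg : ((cardFactors e.a : ℝ) ≤ T ∧ (cardFactors e.b : ℝ) ≤ T ∧ (cardFactors e.c : ℝ) ≤ T ∧
        (cardFactors e.d : ℝ) ≤ T)
    · left; exact ⟨he, hg⟩
    · right; exact ⟨he.1, hg⟩
  have hGc : c / 2 * x ≤ (G.ncard : ℝ) := by
    have h1 : (S.ncard : ℝ) ≤ G.ncard + B.ncard := by
      exact_mod_cast (Set.ncard_le_ncard hSsub (hGf.union hBf)).trans (Set.ncard_union_le _ _)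
    linarith
  -- the map to n
  set GF := hGf.toFinset with hGF
  have hGFm : ∀ e, e ∈ GF ↔ e ∈ G := fun e => Set.Finite.mem_toFinset hGf
  set N0 : ℕ := 2 ^ ⌊4 * T⌋₊ with hN0
  have hfib : ∀ n ∈ GF.image (fun e : Q4 => e.b * e.c), (GF.filter (fun e : Q4 => e.b * e.c = n)).card ≤ N0 := by
    intro n hn
    rw [mem_image] at hn
    obtain ⟨e0, he0, rfl⟩ := hn
    have he0' := (hGFm e0).1 he0
    obtain ⟨⟨hw, hP⟩, t1, t2, t3, t4⟩ := he0'
    obtain ⟨ha, hb, hc', hd, -, -⟩ := sizes hα hγ hx0 hw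
    have hadeq := hw.1.1
    have hn0 : e0.b * e0.c ≠ 0 := (Nat.mul_pos hb hc').ne'
    have hm0 : e0.a * e0.d ≠ 0 := (Nat.mul_pos ha hd).ne'
    have hcard : (GF.filter (fun e : Q4 => e.b * e.c = e0.b * e0.c)).card ≤
        ((e0.a * e0.d).divisors ×ˢ (e0.b * e0.c).divisors).card := by
      refine card_le_card_of_injOn (fun e : Q4 => (e.a, e.b)) ?_ ?_
      · intro e he
        rw [Finset.mem_coe, mem_filter] at he
        have he' := ((hGFm e).1 he.1).1.1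
        rw [Finset.mem_coe, mem_product, Nat.mem_divisors, Nat.mem_divisors]
        refine ⟨⟨?_, hm0⟩, ⟨?_, hn0⟩⟩
        · rw [hadeq, ← he.2, ← he'.1.1]
          exact dvd_mul_right _ _
        · rw [← he.2]
          exact dvd_mul_right _ _
      · rintro ⟨a, b, c, d⟩ he ⟨a', b', c', d'⟩ he' hee
        rw [Finset.mem_coe, mem_filter] at he he'
        simp only [Prod.mk.injEq] at hee
        obtain ⟨rfl, rfl⟩ := hee
        have w1 := ((hGFm _).1 he.1).1.1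
        have w2 := ((hGFm _).1 he'.1).1.1
        have s1 := sizes hα hγ hx0 w1
        have v1 := w1.1.1
        have v2 := w2.1.1
        have e1 := he.2
        have e2 := he'.2
        simp only at s1 v1 v2 e1 e2
        have hcc : c = c' := Nat.eq_of_mul_eq_mul_left s1.2.1 (e1.trans e2.symm)
        subst hcc
        have hdd : d = d' := Nat.eq_of_mul_eq_mul_left s1.1 (v1.trans v2.symm)
        subst hdd
        rfl
    refine hcard.trans ?_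
    rw [card_product]
    have h1 := div_le_pow _ hm0
    have h2 := div_le_pow _ hn0
    refine (Nat.mul_le_mul h1 h2).trans ?_
    rw [← pow_add, hN0]
    apply Nat.pow_le_pow_right (by norm_num)
    apply Nat.le_floor
    rw [cardFactors_mul ha.ne' hd.ne', cardFactors_mul hb.ne' hc'.ne']
    push_cast
    linarith
  have hmain := card_le_mul_card_image GF N0 hfib
  have hGn : G.ncard = GF.card := Set.ncard_eq_toFinset_card _ hGf
  have himg : (GF.image (fun e : Q4 => e.b * e.c)).card ≤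
      Set.ncard {n : ℕ | (n : ℝ) ≤ x ∧ ∃ e : Q4, e.b * e.c = n ∧ e ∈ WS h k n0 α β γ δ x ∧ P e} := by
    rw [← Set.ncard_coe_finset]
    refine Set.ncard_le_ncard ?_ ((Set.finite_Iic ⌊x⌋₊).subset fun n hn => Nat.le_floor hn.1)
    intro n hn
    rw [Finset.mem_coe, mem_image] at hn
    obtain ⟨e, he, rfl⟩ := hn
    have he' := ((hGFm e).1 he).1
    exact ⟨he'.1.1.2.2, e, rfl, he'.1, he'.2⟩
  set D := Set.ncard {n : ℕ | (n : ℝ) ≤ x ∧ ∃ e : Q4, e.b * e.c = n ∧ e ∈ WS h k n0 α β γ δ x ∧ P e} with hD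
  have hN0r : (N0 : ℝ) ≤ Real.log x ^ A' := by
    rw [hN0]
    push_cast
    have h1 : (2 : ℝ) ^ ⌊4 * T⌋₊ ≤ (2 : ℝ) ^ (4 * T) := by
      rw [← Real.rpow_natCast]
      apply Real.rpow_le_rpow_of_exponent_le (by norm_num)
      exact Nat.floor_le (by positivity)
    refine h1.trans (le_of_eq ?_)
    exact pow_eq_aux L (Real.log x) T ε A' (by linarith) hL.symm hT hεA
  have hm1 : (G.ncard : ℝ) ≤ (N0 : ℝ) * ((GF.image (fun e : Q4 => e.b * e.c)).card : ℝ) := by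
    rw [hGn, ← Nat.cast_mul]
    exact Nat.cast_le.2 hmain
  have hm2 : (N0 : ℝ) * ((GF.image (fun e : Q4 => e.b * e.c)).card : ℝ) ≤ Real.log x ^ A' * (D : ℝ) :=
    mul_le_mul hN0r (Nat.cast_le.2 himg) (Nat.cast_nonneg _) (Real.rpow_nonneg (by linarith) _)
  have hfinal : c / 2 * x ≤ Real.log x ^ A' * D := hGc.trans (hm1.trans hm2)
  exact fin_ineq c x (Real.log x) A A' D hc (by linarith) hxA hfinal

end Pool.Agent.Spc

end
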