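import Pool.Agent.Lib_MP_92ef0c_m.M10
import Pool.Agent.Lib_MP_92ef0c_m.M14
import Pool.Agent.Lib_MP_92ef0c_m.M17
import Pool.Agent.Lib_MP_92ef0c_m.M26
import Pool.Agent.Lib_MP_92ef0c_m.M31

/-!
# MP_92ef0c_nt, split pairs: merged library part M32

Concatenation of smaller files (each in its own section), only to save build time.
-/

/-! ### from `Lib_MP_92ef0c_lb.BDefs` -/

section

/-!
# MP_92ef0c_nt, split twin of the joint law, block B: definitions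

Matomaki-Radziwill in arcs of bounded length for `f(c) g(d)` over coprime pairs, with completely multiplicative `f`, `g`
depending on the scale.
-/

set_option autoImplicit false

namespace Pool.Agent.SplB

open Finset Pool.Agent.Spl Pool.Agent.SplI MeasureTheory

/-- completely multiplicative functions bounded by one, equal to `z` at the primes in `(P0, N ^ κ]` -/
structure Cls (z : ℂ) (P0 κ N : ℝ) (f : ℕ → ℂ) : Prop where
  cf : CF f
  pr : ∀ p : ℕ, p.Prime → P0 < (p : ℝ) → (p : ℝ) ≤ N ^ κ → f p = z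

/-- `f χ` -/
noncomputable def tw (f : ℕ → ℂ) {M : ℕ} (χ : DirichletCharacter ℂ M) (n : ℕ) : ℂ := f n * χ (n : ZMod M)

/-- sum over an arc, general function -/
noncomputable def SgF (F : ℕ × ℕ → ℂ) (C D δ τ : ℝ) : ℂ :=
  ∑ z ∈ (PB C D).filter (fun z => τ ≤ dirn z ∧ dirn z < τ + δ), F z

/-- the polynomial of a box, general function -/
noncomputable def PsF (F : ℕ × ℕ → ℂ) (C D t : ℝ) : ℂ :=
  ∑ z ∈ PB C D, F z * Complex.exp (((t * dirn z : ℝ) : ℂ) * Complex.I)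

theorem Cls.mono {z : ℂ} {P0 κ N N' : ℝ} {f : ℕ → ℂ} (h : Cls z P0 κ N f) (hN' : 0 ≤ N') (hκ : 0 ≤ κ)
    (hN : N' ≤ N) : Cls z P0 κ N' f :=
  ⟨h.cf, fun p hp h1 h2 => h.pr p hp h1 (h2.trans (Real.rpow_le_rpow hN' hN hκ))⟩

theorem cf_tw {f : ℕ → ℂ} (hf : CF f) {M : ℕ} (χ : DirichletCharacter ℂ M) : CF (tw f χ) := by
  refine ⟨?_, fun m n hm hn => ?_, fun n => ?_⟩
  · simp [tw, hf.one]
  · unfold tw
    rw [hf.mul m n hm hn, Nat.cast_mul, map_mul]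
    ring
  · unfold tw
    rw [norm_mul]
    exact mul_le_one₀ (hf.le n) (norm_nonneg _) (χ.norm_le_one _)

theorem ps_eq (f g : ℕ → ℂ) (C D t : ℝ) : PsF (pf f g) C D t = Ps f g C D t := rfl

theorem sg_eq (f g : ℕ → ℂ) (C D δ τ : ℝ) : SgF (pf f g) C D δ τ = Sg f g C D δ τ := rfl

theorem psF_cont (F : ℕ × ℕ → ℂ) (C D : ℝ) : Continuous (PsF F C D) := by
  unfold PsF
  refine continuous_finsetSum _ fun z _ => ?_
  fun_prop

theorem mem_PB_pos {C D : ℝ} {z : ℕ × ℕ} (h : z ∈ PB C D) : z.1 ≠ 0 ∧ z.2 ≠ 0 := by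
  rw [mem_PB] at h
  exact ⟨h.1.1.ne', h.2.1.1.ne'⟩

end Pool.Agent.SplB

end

/-! ### from `Lib_MP_92ef0c_lb.PerS` -/

section

/-!
# Block B: sums of Dirichlet characters, families
-/

set_option autoImplicit false

namespace Pool.Agent.SplB

open Finset Pool.Agent.Spl Pool.Agent.SplI MeasureTheory Filter

/-! ### periodic functions -/

private theorem per_add (ρ : ℕ → ℂ) (W : ℕ) (hp : ∀ n, ρ (n + W) = ρ n) (N : ℕ) :
    ∑ n ∈ range (N + W), ρ n = ∑ n ∈ range N, ρ n + ∑ n ∈ range W, ρ n := by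
  induction N with
  | zero => simp
  | succ N ih =>
    rw [show N + 1 + W = (N + W) + 1 by ring, sum_range_succ, ih, hp, sum_range_succ]
    ring

/-- sums of periodic functions -/
theorem per_sum (ρ : ℕ → ℂ) (W : ℕ) (hW : 0 < W) (hp : ∀ n, ρ (n + W) = ρ n) (hb : ∀ n, ‖ρ n‖ ≤ 1) (N : ℕ) :
    ‖∑ n ∈ range N, ρ n - N * ((∑ n ∈ range W, ρ n) / W)‖ ≤ 2 * W := by
  have hWr : (0 : ℝ) < W := by exact_mod_cast hW
  have hWc : (W : ℂ) ≠ 0 := by exact_mod_cast hW.ne'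
  have hsum : ∀ M : ℕ, ‖∑ n ∈ range M, ρ n‖ ≤ M := by
    intro M
    refine (norm_sum_le _ _).trans ?_
    calc ∑ n ∈ range M, ‖ρ n‖ ≤ ∑ _n ∈ range M, (1 : ℝ) := sum_le_sum fun n _ => hb n
      _ = M := by simp
  have hc : ‖(∑ n ∈ range W, ρ n) / W‖ ≤ 1 := by
    rw [norm_div, Complex.norm_natCast, div_le_one hWr]
    exact hsum W
  induction N using Nat.strong_induction_on with
  | _ N ih =>
    by_cases h : N < W
    · have h1 : (N : ℝ) ≤ W := by exact_mod_cast h.le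
      refine (norm_sub_le _ _).trans ?_
      rw [norm_mul, Complex.norm_natCast]
      have h2 := hsum N
      have h3 : (N : ℝ) * ‖(∑ n ∈ range W, ρ n) / W‖ ≤ N * 1 :=
        mul_le_mul_of_nonneg_left hc (Nat.cast_nonneg _)
      linarith
    · obtain ⟨M, rfl⟩ : ∃ M, N = M + W := ⟨N - W, by omega⟩
      have h1 := ih M (by omega)
      rw [per_add ρ W hp]
      have h2 : ∑ n ∈ range M, ρ n + ∑ n ∈ range W, ρ n - ((M + W : ℕ) : ℂ) * ((∑ n ∈ range W, ρ n) / W) =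
          ∑ n ∈ range M, ρ n - M * ((∑ n ∈ range W, ρ n) / W) := by
        push_cast
        field_simp
        ring
      rw [h2]
      exact h1

theorem sum_zmod {W : ℕ} [NeZero W] (F : ZMod W → ℂ) : ∑ a ∈ range W, F (a : ZMod W) = ∑ x : ZMod W, F x := by
  refine sum_nbij' (fun a => (a : ZMod W)) (fun x => x.val) ?_ ?_ ?_ ?_ ?_
  · intro a _
    exact mem_univ _
  · intro x _
    rw [mem_range]
    exact ZMod.val_lt x
  · intro a ha
    rw [mem_range] at ha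
    exact ZMod.val_cast_of_lt ha
  · intro x _
    exact ZMod.natCast_zmod_val x
  · intro a _
    rfl

/-- the density of a character -/
noncomputable def cW {W : ℕ} (χ : DirichletCharacter ℂ W) : ℂ := (∑ a ∈ range W, χ (a : ZMod W)) / W

theorem cW_le {W : ℕ} (hW : 0 < W) (χ : DirichletCharacter ℂ W) : ‖cW χ‖ ≤ 1 := by
  unfold cW
  have hWr : (0 : ℝ) < W := by exact_mod_cast hW
  rw [norm_div, Complex.norm_natCast, div_le_one hWr]
  refine (norm_sum_le _ _).trans ?_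
  calc ∑ a ∈ range W, ‖χ (a : ZMod W)‖ ≤ ∑ _a ∈ range W, (1 : ℝ) := sum_le_sum fun n _ => χ.norm_le_one _
    _ = W := by simp

theorem cW_zero {W : ℕ} [NeZero W] (χ : DirichletCharacter ℂ W) (h : χ ≠ 1) : cW χ = 0 := by
  unfold cW
  rw [sum_zmod (fun x => χ x), MulChar.sum_eq_zero_of_ne_one h, zero_div]

theorem cW_one {W : ℕ} [NeZero W] : cW (1 : DirichletCharacter ℂ W) = (W.totient : ℂ) / W := by
  unfold cW
  congr 1
  have h1 : ∀ a ∈ range W, (1 : DirichletCharacter ℂ W) (a : ZMod W) = if W.Coprime a then 1 else 0 := by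
    intro a _
    by_cases h : a.Coprime W
    · rw [if_pos h.symm, MulChar.one_apply ((ZMod.isUnit_iff_coprime a W).2 h)]
    · rw [if_neg (fun h' => h h'.symm), MulChar.map_nonunit]
      rw [ZMod.isUnit_iff_coprime]
      exact h
  rw [sum_congr rfl h1, Nat.totient_eq_card_coprime, sum_boole]

/-- sums of a character -/
theorem chi_sum {W : ℕ} [NeZero W] (χ : DirichletCharacter ℂ W) (N : ℕ) :
    ‖∑ n ∈ Icc 1 N, χ (n : ZMod W) - N * cW χ‖ ≤ 4 * W := by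
  have hW : 0 < W := NeZero.pos W
  have hW1 : (1 : ℝ) ≤ W := by exact_mod_cast hW
  have h1 := per_sum (fun n => χ (n : ZMod W)) W hW (fun n => by simp) (fun n => χ.norm_le_one _) (N + 1)
  have h2 : ∑ n ∈ range (N + 1), χ (n : ZMod W) = χ ((0 : ℕ) : ZMod W) + ∑ n ∈ Icc 1 N, χ (n : ZMod W) := by
    rw [range_eq_Ico, sum_eq_sum_Ico_succ_bot (by omega)]
    congr 1
  have h3 := cW_le hW χ
  have h4 : ‖χ ((0 : ℕ) : ZMod W)‖ ≤ 1 := χ.norm_le_one _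
  have h5 : ∑ n ∈ Icc 1 N, χ (n : ZMod W) - N * cW χ =
      (∑ n ∈ range (N + 1), χ (n : ZMod W) - ((N + 1 : ℕ) : ℂ) * cW χ) + cW χ - χ ((0 : ℕ) : ZMod W) := by
    rw [h2]
    push_cast
    ring
  rw [h5]
  refine (norm_sub_le _ _).trans ?_
  have h6 := norm_add_le (∑ n ∈ range (N + 1), χ (n : ZMod W) - ((N + 1 : ℕ) : ℂ) * cW χ) (cW χ)
  have h7 : ‖∑ n ∈ range (N + 1), χ (n : ZMod W) - ((N + 1 : ℕ) : ℂ) * cW χ‖ ≤ 2 * W := h1
  linarith

/-! ### families -/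

theorem FS.cf {Q : ℕ} {z : ℂ} {f : ℝ → ℕ → ℂ} (hf : FS Q z f) (Y : ℝ) : CF (f Y) :=
  ⟨hf.one Y, fun m n _ _ => hf.mul Y m n, hf.bd Y⟩

theorem FS.zero {Q : ℕ} {z : ℂ} {f : ℝ → ℕ → ℂ} (hf : FS Q z f) (Y : ℝ) {n : ℕ} (hn : ¬ n.Coprime Q) : f Y n = 0 := by
  obtain ⟨p, hp, h1, h2⟩ := Nat.Prime.not_coprime_iff_dvd.1 hn
  obtain ⟨m, rfl⟩ := h1
  rw [hf.mul, hf.zr Y p hp h2, zero_mul]

theorem f00_coprime {Q n : ℕ} (hn : n ≠ 0) (h : n.Coprime Q) : f00 Q n = 1 := by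
  unfold f00
  rw [if_neg (by tauto)]

theorem f00_not {Q n : ℕ} (h : ¬ n.Coprime Q) : f00 Q n = 0 := by
  unfold f00
  rw [if_pos (Or.inr h)]

theorem cf_f00 (Q : ℕ) : CF (f00 Q) := by
  refine ⟨f00_coprime one_ne_zero (Nat.coprime_one_left Q), fun m n hm hn => ?_, fun n => ?_⟩
  · by_cases h1 : m.Coprime Q
    · by_cases h2 : n.Coprime Q
      · rw [f00_coprime hm h1, f00_coprime hn h2, f00_coprime (mul_ne_zero hm hn) (Nat.Coprime.mul_left h1 h2), one_mul]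
      · rw [f00_not h2, f00_not (fun h => h2 (Nat.Coprime.coprime_mul_left h)), mul_zero]
    · rw [f00_not h1, f00_not (fun h => h1 (Nat.Coprime.coprime_mul_right h)), zero_mul]
  · unfold f00
    split_ifs
    · simp
    · simp

/-- `f00 χ = χ` if `Q ∣ W` -/
theorem tw_f00 {Q W : ℕ} (hQW : Q ∣ W) (χ : DirichletCharacter ℂ W) {n : ℕ} (hn : n ≠ 0) :
    tw (f00 Q) χ n = χ (n : ZMod W) := by
  unfold tw
  by_cases h : n.Coprime Q
  · rw [f00_coprime hn h, one_mul]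
  · rw [f00_not h, zero_mul, MulChar.map_nonunit]
    rw [ZMod.isUnit_iff_coprime]
    exact fun h' => h (Nat.Coprime.coprime_dvd_right hQW h')

/-- `f 1 = f` if `f` vanishes off the numbers coprime to `Q` -/
theorem tw_one {Q : ℕ} {z : ℂ} {f : ℝ → ℕ → ℂ} (hf : FS Q z f) (Y : ℝ) (n : ℕ) :
    tw (f Y) (1 : DirichletCharacter ℂ Q) n = f Y n := by
  unfold tw
  by_cases h : n.Coprime Q
  · rw [MulChar.one_apply ((ZMod.isUnit_iff_coprime n Q).2 h), mul_one]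
  · rw [hf.zero Y h, zero_mul]

/-- members of the class -/
theorem FS.cls {Q : ℕ} {z : ℂ} {f : ℝ → ℕ → ℂ} (hQ : 0 < Q) (hf : FS Q z f) : ∃ κ : ℝ, 0 < κ ∧ κ ≤ 1 ∧
    ∀ Y : ℝ, 1 ≤ Y → (∀ p : ℕ, p.Prime → ¬ p ∣ Q → (p : ℝ) ≤ Y ^ κ → f Y p = z) ∧
    ∀ N : ℝ, 0 ≤ N → N ≤ Y → Cls z Q κ N (f Y) := by
  obtain ⟨κ, hκ, h⟩ := hf.pr
  refine ⟨min κ 1, lt_min hκ one_pos, min_le_right _ _, fun Y hY => ?_⟩
  have hle : Y ^ (min κ 1) ≤ Y ^ κ := Real.rpow_le_rpow_of_exponent_le hY (min_le_left _ _)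
  refine ⟨fun p hp hpQ h1 => h Y hY p hp hpQ (h1.trans hle), fun N hN hNY => ?_⟩
  refine ⟨hf.cf Y, fun p hp h1 h2 => h Y hY p hp ?_ ?_⟩
  · intro hpQ
    have := Nat.le_of_dvd hQ hpQ
    have h3 : Q < p := by exact_mod_cast h1
    omega
  · have h3 : N ^ (min κ 1) ≤ Y ^ (min κ 1) :=
      Real.rpow_le_rpow hN hNY (le_min hκ.le zero_le_one)
    exact (h2.trans h3).trans hle

end Pool.Agent.SplB

end

/-! ### from `Lib_MP_92ef0c_lb.MVal` -/

section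

/-!
# Block B: mean values of the families, twisted by characters
-/

set_option autoImplicit false

namespace Pool.Agent.SplB

open Finset Pool.Agent.Spl Pool.Agent.SplI MeasureTheory Filter

/-- `∑ |h|` -/
noncomputable def HS (Q : ℕ) (f : ℕ → ℂ) (N : ℕ) : ℝ := ∑ d ∈ Icc 1 N, ‖hA f (f00 Q) d‖

/-- `∑ h χ / d` -/
noncomputable def HX (Q : ℕ) (f : ℕ → ℂ) {W : ℕ} (χ : DirichletCharacter ℂ W) (N : ℕ) : ℂ :=
  ∑ d ∈ Icc 1 N, χ (d : ZMod W) * hA f (f00 Q) d / d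

theorem HS_nonneg (Q : ℕ) (f : ℕ → ℂ) (N : ℕ) : 0 ≤ HS Q f N := sum_nonneg fun _ _ => norm_nonneg _

private theorem cf_chi {W : ℕ} (χ : DirichletCharacter ℂ W) : CF (fun n => χ (n : ZMod W)) := by
  refine ⟨?_, fun m n _ _ => ?_, fun n => χ.norm_le_one _⟩
  · simp
  · simp only [Nat.cast_mul, map_mul]

/-- the main formula -/
theorem mv_main {Q W : ℕ} [NeZero W] (hQW : Q ∣ W) {f : ℕ → ℂ} (χ : DirichletCharacter ℂ W) (N : ℕ) :
    ‖∑ n ∈ Icc 1 N, tw f χ n - cW χ * N * HX Q f χ N‖ ≤ 5 * W * HS Q f N := by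
  have hW : 0 < W := NeZero.pos W
  have hW1 : (1 : ℝ) ≤ W := by exact_mod_cast hW
  have h1 : ∑ n ∈ Icc 1 N, tw f χ n = ∑ d ∈ Icc 1 N, χ (d : ZMod W) * hA f (f00 Q) d *
      ∑ e ∈ Icc 1 (N / d), χ (e : ZMod W) := by
    have h2 := conv_sum (f := tw f χ) (f0 := tw (f00 Q) χ) (cf_tw (cf_f00 Q) χ) N
    rw [h2]
    refine sum_congr rfl fun d hd => ?_
    rw [mem_Icc] at hd
    have hd0 : d ≠ 0 := by omega
    have h3 : hA (tw f χ) (tw (f00 Q) χ) d = χ (d : ZMod W) * hA f (f00 Q) d :=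
      hA_twist (f := f) (f0 := f00 Q) (cf_chi χ) hd0
    rw [h3]
    congr 1
    refine sum_congr rfl fun e he => ?_
    rw [mem_Icc] at he
    exact tw_f00 hQW χ (by omega)
  have h2 : cW χ * N * HX Q f χ N = ∑ d ∈ Icc 1 N, χ (d : ZMod W) * hA f (f00 Q) d * (cW χ * ((N : ℂ) / d)) := by
    unfold HX
    rw [mul_sum]
    refine sum_congr rfl fun d _ => ?_
    ring
  rw [h1, h2, ← sum_sub_distrib]
  refine (norm_sum_le _ _).trans ?_
  unfold HS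
  rw [mul_sum]
  refine sum_le_sum fun d hd => ?_
  rw [mem_Icc] at hd
  have hd0 : (0 : ℝ) < d := by
    have : 0 < d := by omega
    exact_mod_cast this
  rw [← mul_sub, norm_mul, norm_mul]
  have h3 : ‖χ (d : ZMod W)‖ ≤ 1 := χ.norm_le_one _
  have h4 : ‖∑ e ∈ Icc 1 (N / d), χ (e : ZMod W) - cW χ * ((N : ℂ) / d)‖ ≤ 5 * W := by
    have h5 := chi_sum χ (N / d)
    have h6 : ‖(((N / d : ℕ) : ℂ) - (N : ℂ) / d)‖ ≤ 1 := by
      have h7 : (((N / d : ℕ) : ℂ) - (N : ℂ) / d) = ((((N / d : ℕ) : ℝ) - (N : ℝ) / d : ℝ) : ℂ) := by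
        push_cast
        ring
      rw [h7, Complex.norm_real, Real.norm_eq_abs, abs_le]
      have h8 : ((N / d : ℕ) : ℝ) ≤ (N : ℝ) / d := Nat.cast_div_le
      have h9 : (N : ℝ) / d < ((N / d : ℕ) : ℝ) + 1 := by
        rw [div_lt_iff₀ hd0]
        have h10 : N < (N / d + 1) * d := by
          have := Nat.lt_succ_self (N / d)
          exact (Nat.div_lt_iff_lt_mul (by omega)).1 this
        exact_mod_cast h10
      constructor <;> linarith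
    have h7 : ∑ e ∈ Icc 1 (N / d), χ (e : ZMod W) - cW χ * ((N : ℂ) / d) =
        (∑ e ∈ Icc 1 (N / d), χ (e : ZMod W) - ((N / d : ℕ) : ℂ) * cW χ) +
          cW χ * (((N / d : ℕ) : ℂ) - (N : ℂ) / d) := by ring
    rw [h7]
    refine (norm_add_le _ _).trans ?_
    rw [norm_mul]
    have h8 : ‖cW χ‖ * ‖(((N / d : ℕ) : ℂ) - (N : ℂ) / d)‖ ≤ 1 * 1 :=
      mul_le_mul (cW_le hW χ) h6 (norm_nonneg _) zero_le_one
    linarith
  calc ‖χ (d : ZMod W)‖ * ‖hA f (f00 Q) d‖ * ‖∑ e ∈ Icc 1 (N / d), χ (e : ZMod W) - cW χ * ((N : ℂ) / d)‖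
      ≤ 1 * ‖hA f (f00 Q) d‖ * (5 * W) := by gcongr
    _ = 5 * W * ‖hA f (f00 Q) d‖ := by ring

/-- a non-zero coefficient of the quotient -/
theorem hA_rough {Q : ℕ} {f : ℕ → ℂ} (hf : CF f) (hfQ : ∀ p : ℕ, p.Prime → p ∣ Q → f p = 0) {R : ℝ}
    (hR : ∀ p : ℕ, p.Prime → ¬ p ∣ Q → (p : ℝ) ≤ R → f p = 1) {n : ℕ} (hn : n ≠ 0)
    (h : hA f (f00 Q) n ≠ 0) : ∀ p : ℕ, p.Prime → p ∣ n → R < (p : ℝ) := by
  intro p hp hpn
  by_contra hpR
  apply h
  refine hA_supp hf (cf_f00 Q) hp hpn hn ?_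
  by_cases hpQ : p ∣ Q
  · rw [hfQ p hp hpQ, f00_not]
    rw [Nat.Prime.coprime_iff_not_dvd hp]
    exact fun h' => h' hpQ
  · rw [hR p hp hpQ (not_lt.1 hpR), f00_coprime hp.ne_zero ((Nat.Prime.coprime_iff_not_dvd hp).2 hpQ)]

private theorem rough_pow {R : ℝ} (hR : 0 ≤ R) {n : ℕ} (hn : n ≠ 0) (hr : ∀ p : ℕ, p.Prime → p ∣ n → R < (p : ℝ)) :
    R ^ ArithmeticFunction.cardFactors n ≤ (n : ℝ) := by
  have hp : ∀ p ∈ n.primeFactorsList, R ≤ (p : ℝ) := by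
    intro p hp
    exact (hr p (Nat.prime_of_mem_primeFactorsList hp) (Nat.dvd_of_mem_primeFactorsList hp)).le
  have hgen : ∀ l : List ℕ, (∀ p ∈ l, R ≤ (p : ℝ)) → R ^ l.length ≤ ((l.prod : ℕ) : ℝ) := by
    intro l
    induction l with
    | nil => intro _; simp
    | cons q l ih =>
      intro hq
      rw [List.length_cons, List.prod_cons, pow_succ, Nat.cast_mul, mul_comm]
      exact mul_le_mul (hq q (by simp)) (ih fun p hp => hq p (by simp [hp])) (by positivity) (by positivity)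
  have h := hgen _ hp
  rwa [Nat.prod_primeFactorsList hn] at h

/-- the sum of the absolute values is small -/
theorem HS_small (A η : ℝ) (hη : 0 < η) : ∃ P V0 : ℝ, 1 < P ∧ 0 < V0 ∧ ∀ Q : ℕ, ∀ V : ℝ, V0 ≤ V → ∀ R : ℝ, P ≤ R →
    V ≤ R ^ A → ∀ f : ℕ → ℂ, CF f → (∀ p : ℕ, p.Prime → p ∣ Q → f p = 0) →
    (∀ p : ℕ, p.Prime → ¬ p ∣ Q → (p : ℝ) ≤ R → f p = 1) → ∀ N : ℕ, (N : ℝ) ≤ V → HS Q f N ≤ η * V := by
  classical
  obtain ⟨P, u0, hP, hu0, h⟩ := rough_count (η / 2 ^ |A|) (by positivity)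
  refine ⟨max P 2, u0, lt_max_of_lt_right (by norm_num), hu0, fun Q V hV R hR hVR f hf hfQ hfR N hN => ?_⟩
  have hPR : P ≤ R := (le_max_left _ _).trans hR
  have hR2 : 2 ≤ R := (le_max_right _ _).trans hR
  have h1 := h V hV R hPR
  have hsub : HS Q f N ≤ ∑ n ∈ (Icc 1 ⌊V⌋₊).filter (fun n : ℕ => ∀ p : ℕ, p.Prime → p ∣ n → R < (p : ℝ)), (2 : ℝ) ^ |A| := by
    unfold HS
    rw [← sum_filter_add_sum_filter_not (Icc 1 N) (fun n : ℕ => ∀ p : ℕ, p.Prime → p ∣ n → R < (p : ℝ))]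
    have hz : ∑ d ∈ (Icc 1 N).filter (fun n : ℕ => ¬ ∀ p : ℕ, p.Prime → p ∣ n → R < (p : ℝ)), ‖hA f (f00 Q) d‖ = 0 := by
      refine sum_eq_zero fun d hd => ?_
      rw [mem_filter, mem_Icc] at hd
      by_contra hne
      exact hd.2 (hA_rough hf hfQ hfR (by omega) (fun h0 => hne (by rw [h0, norm_zero])))
    rw [hz, add_zero]
    have hsub2 : (Icc 1 N).filter (fun n : ℕ => ∀ p : ℕ, p.Prime → p ∣ n → R < (p : ℝ)) ⊆
        (Icc 1 ⌊V⌋₊).filter (fun n : ℕ => ∀ p : ℕ, p.Prime → p ∣ n → R < (p : ℝ)) := by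
      intro n hn
      rw [mem_filter, mem_Icc] at hn ⊢
      refine ⟨⟨hn.1.1, ?_⟩, hn.2⟩
      refine Nat.le_floor (le_trans ?_ hN)
      exact_mod_cast hn.1.2
    refine le_trans (sum_le_sum fun d hd => ?_) (sum_le_sum_of_subset_of_nonneg hsub2 fun _ _ _ => by positivity)
    rw [mem_filter, mem_Icc] at hd
    have hd0 : d ≠ 0 := by omega
    refine (hA_le hf (cf_f00 Q) hd0).trans ?_
    have h2 := rough_pow (by linarith) hd0 hd.2
    have h3 : (d : ℝ) ≤ R ^ A := by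
      refine le_trans ?_ (hN.trans hVR)
      exact_mod_cast hd.1.2
    have h4 : R ^ (ArithmeticFunction.cardFactors d : ℝ) ≤ R ^ A := by
      rw [Real.rpow_natCast]
      exact h2.trans h3
    have h5 : (ArithmeticFunction.cardFactors d : ℝ) ≤ A := (Real.rpow_le_rpow_left_iff (by linarith)).1 h4
    rw [← Real.rpow_natCast]
    exact Real.rpow_le_rpow_of_exponent_le (by norm_num) (h5.trans (le_abs_self A))
  refine hsub.trans ?_
  rw [sum_const, nsmul_eq_mul]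
  have h6 : (0 : ℝ) < 2 ^ |A| := by positivity
  calc _ ≤ η / 2 ^ |A| * V * 2 ^ |A| := mul_le_mul_of_nonneg_right h1 h6.le
    _ = η * V := by field_simp

/-- slow variation -/
theorem HX_slow (Q : ℕ) (f : ℕ → ℂ) {W : ℕ} (χ : DirichletCharacter ℂ W) {N N' : ℕ} (h1 : 1 ≤ N') (h2 : N' ≤ N) :
    ‖HX Q f χ N - HX Q f χ N'‖ ≤ HS Q f N / N' := by
  have hN' : (0 : ℝ) < N' := by exact_mod_cast h1
  have h3 : HX Q f χ N - HX Q f χ N' = ∑ d ∈ Icc 1 N \ Icc 1 N', χ (d : ZMod W) * hA f (f00 Q) d / d := by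
    unfold HX
    rw [← sum_sdiff (Icc_subset_Icc_right h2 : Icc 1 N' ⊆ Icc 1 N)]
    ring
  rw [h3]
  refine (norm_sum_le _ _).trans ?_
  calc ∑ d ∈ Icc 1 N \ Icc 1 N', ‖χ (d : ZMod W) * hA f (f00 Q) d / d‖
      ≤ ∑ d ∈ Icc 1 N \ Icc 1 N', ‖hA f (f00 Q) d‖ / N' := by
        refine sum_le_sum fun d hd => ?_
        rw [Finset.mem_sdiff, mem_Icc, mem_Icc] at hd
        have hd1 : N' ≤ d := by omega
        have hd2 : (N' : ℝ) ≤ d := by exact_mod_cast hd1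
        rw [norm_div, norm_mul, Complex.norm_natCast]
        have h4 : ‖χ (d : ZMod W)‖ * ‖hA f (f00 Q) d‖ ≤ 1 * ‖hA f (f00 Q) d‖ :=
          mul_le_mul_of_nonneg_right (χ.norm_le_one _) (norm_nonneg _)
        rw [one_mul] at h4
        exact div_le_div₀ (norm_nonneg _) h4 hN' hd2
    _ ≤ ∑ d ∈ Icc 1 N, ‖hA f (f00 Q) d‖ / N' :=
        sum_le_sum_of_subset_of_nonneg sdiff_subset fun _ _ _ => by positivity
    _ = HS Q f N / N' := by rw [← sum_div]; rfl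

/-- principal characters -/
theorem HX_one {Q W : ℕ} [NeZero W] [NeZero Q] {f : ℕ → ℂ} (hf : CF f) (hfQ : ∀ p : ℕ, p.Prime → p ∣ Q → f p = 0) {R : ℝ}
    (hR : ∀ p : ℕ, p.Prime → ¬ p ∣ Q → (p : ℝ) ≤ R → f p = 1) (hRW : (W : ℝ) ≤ R) (hRQ : (Q : ℝ) ≤ R) (N : ℕ) :
    HX Q f (1 : DirichletCharacter ℂ W) N = HX Q f (1 : DirichletCharacter ℂ Q) N := by
  unfold HX
  refine sum_congr rfl fun d hd => ?_
  rw [mem_Icc] at hd
  have hd0 : d ≠ 0 := by omega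
  by_cases h : hA f (f00 Q) d = 0
  · rw [h, mul_zero, mul_zero]
  · have h1 := hA_rough hf hfQ hR hd0 h
    have key : ∀ M : ℕ, 0 < M → (M : ℝ) ≤ R → d.Coprime M := by
      intro M hM hMR
      by_contra hc
      obtain ⟨p, hp, hpd, hpM⟩ := Nat.Prime.not_coprime_iff_dvd.1 hc
      have h2 := h1 p hp hpd
      have h3 : (p : ℝ) ≤ M := by exact_mod_cast Nat.le_of_dvd hM hpM
      linarith
    rw [MulChar.one_apply ((ZMod.isUnit_iff_coprime d W).2 (key W (NeZero.pos W) hRW)),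
      MulChar.one_apply ((ZMod.isUnit_iff_coprime d Q).2 (key Q (NeZero.pos Q) hRQ))]

end Pool.Agent.SplB

end

/-! ### from `Lib_MP_92ef0c_lb.MVal2` -/

section

/-!
# Block B: asymptotic mean values
-/

set_option autoImplicit false

namespace Pool.Agent.SplB

open Finset Pool.Agent.Spl Pool.Agent.SplI MeasureTheory Filter

theorem norm_f00_sum (Q N : ℕ) : ‖∑ n ∈ Icc 1 N, f00 Q n‖ = ∑ n ∈ Icc 1 N, ‖f00 Q n‖ := by
  have h1 : ∀ n, f00 Q n = ((‖f00 Q n‖ : ℝ) : ℂ) := by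
    intro n
    unfold f00
    split_ifs <;> simp
  have h2 : ∑ n ∈ Icc 1 N, f00 Q n = ((∑ n ∈ Icc 1 N, ‖f00 Q n‖ : ℝ) : ℂ) := by
    push_cast
    exact sum_congr rfl fun n _ => h1 n
  rw [h2, Complex.norm_real, Real.norm_of_nonneg (sum_nonneg fun _ _ => norm_nonneg _)]

/-- the mean values are bounded by one -/
theorem mf_le_one {Q : ℕ} {z : ℂ} {f : ℝ → ℕ → ℂ} (hf : FS Q z f) (Y : ℝ) : ‖mf Q f Y‖ ≤ 1 := by
  unfold mf
  rw [norm_div, norm_f00_sum]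
  refine div_le_one_of_le₀ ?_ (sum_nonneg fun _ _ => norm_nonneg _)
  refine (norm_sum_le _ _).trans (sum_le_sum fun n hn => ?_)
  rw [mem_Icc] at hn
  by_cases h : n.Coprime Q
  · rw [f00_coprime (by omega) h, norm_one]
    exact hf.bd Y n
  · rw [hf.zero Y h, norm_zero]
    exact norm_nonneg _

theorem sqrt_atTop : Tendsto Real.sqrt atTop atTop := by
  have h : (fun x : ℝ => Real.sqrt x) = fun x => x ^ (1 / 2 : ℝ) := by
    funext x
    exact Real.sqrt_eq_rpow x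
  have h2 : Tendsto (fun x : ℝ => x ^ (1 / 2 : ℝ)) atTop atTop := tendsto_rpow_atTop (by norm_num)
  rw [← h] at h2
  exact h2

/-- the density of the numbers coprime to `Q` -/
theorem f00_sum {Q : ℕ} (hQ : 0 < Q) (N : ℕ) : ‖∑ n ∈ Icc 1 N, f00 Q n - N * ((Q.totient : ℂ) / Q)‖ ≤ 4 * Q := by
  have : NeZero Q := ⟨hQ.ne'⟩
  have h := chi_sum (1 : DirichletCharacter ℂ Q) N
  rw [cW_one] at h
  have h2 : ∑ n ∈ Icc 1 N, f00 Q n = ∑ n ∈ Icc 1 N, (1 : DirichletCharacter ℂ Q) (n : ZMod Q) := by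
    refine sum_congr rfl fun n hn => ?_
    rw [mem_Icc] at hn
    rw [← tw_f00 dvd_rfl (1 : DirichletCharacter ℂ Q) (show n ≠ 0 by omega)]
    unfold tw
    by_cases h : n.Coprime Q
    · rw [MulChar.one_apply ((ZMod.isUnit_iff_coprime n Q).2 h), mul_one]
    · rw [f00_not h, zero_mul]
  rw [h2]
  exact h

/-- lower bound for the denominators -/
theorem f00_low {Q : ℕ} (hQ : 0 < Q) : ∃ c : ℝ, 0 < c ∧ ∀ᶠ Y : ℝ in atTop,
    c * Real.sqrt Y ≤ ‖∑ n ∈ Icc 1 ⌊Real.sqrt Y⌋₊, f00 Q n‖ := by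
  have hQr : (0 : ℝ) < Q := by exact_mod_cast hQ
  have hφ : (0 : ℝ) < Q.totient := by exact_mod_cast Nat.totient_pos.2 hQ
  set c0 : ℝ := (Q.totient : ℝ) / Q with hc0
  have hc0p : 0 < c0 := by positivity
  refine ⟨c0 / 2, by positivity, ?_⟩
  filter_upwards [sqrt_atTop.eventually (eventually_ge_atTop ((4 * Q + c0) / (c0 / 2)))] with Y hY
  rw [div_le_iff₀ (by positivity)] at hY
  have h := f00_sum hQ ⌊Real.sqrt Y⌋₊
  have h1 : ‖((⌊Real.sqrt Y⌋₊ : ℕ) : ℂ) * ((Q.totient : ℂ) / Q)‖ = ⌊Real.sqrt Y⌋₊ * c0 := by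
    rw [norm_mul, norm_div, Complex.norm_natCast, Complex.norm_natCast, Complex.norm_natCast]
  have h2 := norm_sub_norm_le (((⌊Real.sqrt Y⌋₊ : ℕ) : ℂ) * ((Q.totient : ℂ) / Q)) (∑ n ∈ Icc 1 ⌊Real.sqrt Y⌋₊, f00 Q n)
  rw [h1, norm_sub_rev] at h2
  have h3 := Nat.lt_floor_add_one (Real.sqrt Y)
  have h4 : (Real.sqrt Y - 1) * c0 ≤ ⌊Real.sqrt Y⌋₊ * c0 := mul_le_mul_of_nonneg_right (by linarith) hc0p.le
  linarith

section one

variable {Q : ℕ} {f : ℝ → ℕ → ℂ}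

/-- the parameters of a family with `z = 1` -/
private theorem fs_par (hQ : 0 < Q) (hf : FS Q 1 f) : ∃ κ : ℝ, 0 < κ ∧ ∀ Y : ℝ, 1 ≤ Y → CF (f Y) ∧
    (∀ p : ℕ, p.Prime → p ∣ Q → f Y p = 0) ∧ (∀ p : ℕ, p.Prime → ¬ p ∣ Q → (p : ℝ) ≤ Y ^ κ → f Y p = 1) := by
  obtain ⟨κ, hκ, _, h⟩ := hf.cls hQ
  exact ⟨κ, hκ, fun Y hY => ⟨hf.cf Y, hf.zr Y, (h Y hY).1⟩⟩

theorem HS_ev (hQ : 0 < Q) (hf : FS Q 1 f) (K η : ℝ) (hK : 1 ≤ K) (hη : 0 < η) : ∀ᶠ Y : ℝ in atTop, ∀ N : ℕ,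
    (N : ℝ) ≤ K * Real.sqrt Y → HS Q (f Y) N ≤ η * Real.sqrt Y := by
  obtain ⟨κ, hκ, hpar⟩ := fs_par hQ hf
  have hK0 : 0 < K := by linarith
  obtain ⟨P, V0, hP, hV0, h⟩ := HS_small (1 / κ) (η / K) (by positivity)
  filter_upwards [eventually_ge_atTop 1, sqrt_atTop.eventually (eventually_ge_atTop (max V0 K)),
    (tendsto_rpow_atTop hκ).eventually (eventually_ge_atTop P)] with Y hY1 hY2 hY3 N hN
  have hY0 : 0 < Y := by linarith
  obtain ⟨h1, h2, h3⟩ := hpar Y hY1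
  have hs0 : 0 ≤ Real.sqrt Y := Real.sqrt_nonneg Y
  have hVa : V0 ≤ Real.sqrt Y := (le_max_left _ _).trans hY2
  have hVb : K ≤ Real.sqrt Y := (le_max_right _ _).trans hY2
  have hV1 : V0 ≤ K * Real.sqrt Y := by nlinarith
  have hV2 : K * Real.sqrt Y ≤ (Y ^ κ) ^ (1 / κ) := by
    rw [← Real.rpow_mul hY0.le, mul_one_div_cancel hκ.ne', Real.rpow_one]
    have := Real.mul_self_sqrt hY0.le
    nlinarith
  have h4 := h Q (K * Real.sqrt Y) hV1 (Y ^ κ) hY3 hV2 (f Y) h1 h2 h3 N hN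
  refine h4.trans (le_of_eq ?_)
  field_simp

theorem mv_ev (hQ : 0 < Q) (hf : FS Q 1 f) {W : ℕ} [NeZero W] (hQW : Q ∣ W) (χ : DirichletCharacter ℂ W) (K η : ℝ)
    (hK : 1 ≤ K) (hη : 0 < η) : ∀ᶠ Y : ℝ in atTop, ∀ N : ℕ, (N : ℝ) ≤ K * Real.sqrt Y →
    ‖∑ n ∈ Icc 1 N, tw (f Y) χ n - cW χ * N * HX Q (f Y) χ N‖ ≤ η * Real.sqrt Y := by
  have hW : (0 : ℝ) < W := by exact_mod_cast NeZero.pos W
  filter_upwards [HS_ev hQ hf K (η / (5 * W)) hK (by positivity)] with Y hY N hN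
  refine (mv_main hQW χ N).trans ?_
  have h1 := mul_le_mul_of_nonneg_left (hY N hN) (show 0 ≤ 5 * (W : ℝ) by positivity)
  refine h1.trans (le_of_eq ?_)
  field_simp

theorem HX_bd (hQ : 0 < Q) [NeZero Q] (hf : FS Q 1 f) (K : ℝ) (hK : 1 ≤ K) : ∃ B : ℝ, 0 < B ∧ ∀ᶠ Y : ℝ in atTop, ∀ N : ℕ,
    Real.sqrt Y / K ≤ N → (N : ℝ) ≤ K * Real.sqrt Y → ‖HX Q (f Y) (1 : DirichletCharacter ℂ Q) N‖ ≤ B := by
  have hQr : (0 : ℝ) < Q := by exact_mod_cast hQ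
  have hφ : (0 : ℝ) < Q.totient := by exact_mod_cast Nat.totient_pos.2 hQ
  have hK0 : 0 < K := by linarith
  set c0 : ℝ := (Q.totient : ℝ) / Q with hc0
  have hc0p : 0 < c0 := by positivity
  refine ⟨(1 + K) / c0, by positivity, ?_⟩
  filter_upwards [mv_ev hQ hf dvd_rfl (1 : DirichletCharacter ℂ Q) K 1 hK one_pos,
    sqrt_atTop.eventually (eventually_ge_atTop 1)] with Y hY hY1 N hN1 hN2
  have h1 := hY N hN2
  rw [cW_one, one_mul] at h1
  have hs : 0 < Real.sqrt Y := by linarith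
  have hNp : (0 : ℝ) < N := lt_of_lt_of_le (by positivity) hN1
  have h2 : ‖∑ n ∈ Icc 1 N, tw (f Y) (1 : DirichletCharacter ℂ Q) n‖ ≤ N := by
    refine (norm_sum_le _ _).trans ?_
    calc ∑ n ∈ Icc 1 N, ‖tw (f Y) (1 : DirichletCharacter ℂ Q) n‖ ≤ ∑ _n ∈ Icc 1 N, (1 : ℝ) :=
          sum_le_sum fun n _ => (cf_tw (hf.cf Y) _).le n
      _ = N := by simp
  have h3 := norm_sub_norm_le ((Q.totient : ℂ) / Q * N * HX Q (f Y) (1 : DirichletCharacter ℂ Q) N)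
    (∑ n ∈ Icc 1 N, tw (f Y) (1 : DirichletCharacter ℂ Q) n)
  rw [norm_sub_rev] at h3
  have h4 : ‖(Q.totient : ℂ) / Q * N * HX Q (f Y) (1 : DirichletCharacter ℂ Q) N‖ =
      c0 * N * ‖HX Q (f Y) (1 : DirichletCharacter ℂ Q) N‖ := by
    rw [norm_mul, norm_mul, norm_div, Complex.norm_natCast, Complex.norm_natCast, Complex.norm_natCast]
  rw [h4] at h3
  have h5 : Real.sqrt Y ≤ K * N := by
    rw [div_le_iff₀ hK0] at hN1
    linarith
  have h6 : c0 * N * ‖HX Q (f Y) (1 : DirichletCharacter ℂ Q) N‖ ≤ (1 + K) * N := by linarith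
  rw [le_div_iff₀ hc0p]
  have h7 : (c0 * ‖HX Q (f Y) (1 : DirichletCharacter ℂ Q) N‖) * N ≤ (1 + K) * N := by linarith
  have h8 := le_of_mul_le_mul_right h7 hNp
  linarith

theorem mf_HX (hQ : 0 < Q) [NeZero Q] (hf : FS Q 1 f) (η : ℝ) (hη : 0 < η) : ∀ᶠ Y : ℝ in atTop,
    ‖HX Q (f Y) (1 : DirichletCharacter ℂ Q) ⌊Real.sqrt Y⌋₊ - mf Q f Y‖ ≤ η := by
  obtain ⟨B, hB, hbd⟩ := HX_bd hQ hf 2 (by norm_num)
  obtain ⟨c, hc, hlow⟩ := f00_low hQ
  filter_upwards [hbd, hlow, mv_ev hQ hf dvd_rfl (1 : DirichletCharacter ℂ Q) 1 (η * c / 2) le_rfl (by positivity),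
    sqrt_atTop.eventually (eventually_ge_atTop (max 2 (B * (4 * Q) / (η * c / 2))))] with Y h1 h2 h3 h4
  have hs2 : 2 ≤ Real.sqrt Y := (le_max_left _ _).trans h4
  have hs3 : B * (4 * Q) / (η * c / 2) ≤ Real.sqrt Y := (le_max_right _ _).trans h4
  rw [div_le_iff₀ (by positivity)] at hs3
  have hfl := Nat.floor_le (show 0 ≤ Real.sqrt Y by linarith)
  have hfl2 := Nat.lt_floor_add_one (Real.sqrt Y)
  set N := ⌊Real.sqrt Y⌋₊ with hN
  have hb := h1 N (by linarith) (by linarith)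
  have hm := h3 N (by linarith)
  rw [cW_one] at hm
  have hf1 : ∑ n ∈ Icc 1 N, tw (f Y) (1 : DirichletCharacter ℂ Q) n = ∑ n ∈ Icc 1 N, f Y n :=
    sum_congr rfl fun n _ => tw_one hf Y n
  rw [hf1] at hm
  have h00 := f00_sum hQ N
  set S := ∑ n ∈ Icc 1 N, f Y n with hS
  set S0 := ∑ n ∈ Icc 1 N, f00 Q n with hS0
  set H := HX Q (f Y) (1 : DirichletCharacter ℂ Q) N with hH
  have hS0p : 0 < ‖S0‖ := lt_of_lt_of_le (by positivity) h2
  have hS0n : S0 ≠ 0 := norm_pos_iff.1 hS0p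
  have e1 : H - mf Q f Y = (H * S0 - S) / S0 := by
    unfold mf
    rw [← hN, ← hS, ← hS0]
    field_simp
  have e2 : H * S0 - S = H * (S0 - N * ((Q.totient : ℂ) / Q)) - (S - (Q.totient : ℂ) / Q * N * H) := by ring
  rw [e1, norm_div, div_le_iff₀ hS0p, e2]
  refine (norm_sub_le _ _).trans ?_
  rw [norm_mul]
  have h5 : ‖H‖ * ‖S0 - N * ((Q.totient : ℂ) / Q)‖ ≤ B * (4 * Q) :=
    mul_le_mul hb h00 (norm_nonneg _) hB.le
  have h6 : η * (c * Real.sqrt Y) ≤ η * ‖S0‖ := mul_le_mul_of_nonneg_left h2 hη.le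
  nlinarith

/-- mean values with characters, `z = 1` -/
theorem mv_one (hQ : 0 < Q) (hf : FS Q 1 f) {W : ℕ} [NeZero W] (hQW : Q ∣ W) (χ : DirichletCharacter ℂ W) (K η : ℝ)
    (hK : 1 ≤ K) (hη : 0 < η) : ∀ᶠ Y : ℝ in atTop, ∀ N : ℕ, Real.sqrt Y / K ≤ N → (N : ℝ) ≤ K * Real.sqrt Y →
    ‖∑ n ∈ Icc 1 N, (tw (f Y) χ n - mf Q f Y * χ (n : ZMod W))‖ ≤ η * Real.sqrt Y := by
  have hQn : NeZero Q := ⟨hQ.ne'⟩
  have hW : (0 : ℝ) < W := by exact_mod_cast NeZero.pos W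
  have hK0 : 0 < K := by linarith
  by_cases hχ : χ = 1
  · subst hχ
    obtain ⟨κ, hκ, hpar⟩ := fs_par hQ hf
    filter_upwards [mv_ev hQ hf hQW (1 : DirichletCharacter ℂ W) K (η / 4) hK (by positivity),
      mf_HX hQ hf (η / (4 * K)) (by positivity), HS_ev hQ hf (max K 1) (η / (8 * K * (K + 1))) (le_max_right _ _) (by positivity),
      eventually_ge_atTop 1, (tendsto_rpow_atTop hκ).eventually (eventually_ge_atTop (max (W : ℝ) Q)),
      sqrt_atTop.eventually (eventually_ge_atTop (max 2 ((4 * W) / (η / 4))))] with Y h1 h2 h3 h4 h5 h6 N hN1 hN2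
    have hs2 : 2 ≤ Real.sqrt Y := (le_max_left _ _).trans h6
    have hs3 : (4 * W) / (η / 4) ≤ Real.sqrt Y := (le_max_right _ _).trans h6
    rw [div_le_iff₀ (by positivity)] at hs3
    have hfl := Nat.floor_le (show 0 ≤ Real.sqrt Y by linarith)
    have hfl2 := Nat.lt_floor_add_one (Real.sqrt Y)
    obtain ⟨hcf, hzr, hpr⟩ := hpar Y h4
    set N0 := ⌊Real.sqrt Y⌋₊ with hN0
    have hHW := HX_one hcf hzr hpr ((le_max_left _ _).trans h5) ((le_max_right _ _).trans h5) (W := W) N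
    have hmain := h1 N hN2
    rw [hHW] at hmain
    have hchi := chi_sum (1 : DirichletCharacter ℂ W) N
    have hmfb := mf_le_one hf Y
    have hcWb := cW_le (NeZero.pos W) (1 : DirichletCharacter ℂ W)
    -- slow variation
    have hKr : Real.sqrt Y / K ≤ Real.sqrt Y := div_le_self (by linarith) hK
    have hslow : ‖HX Q (f Y) (1 : DirichletCharacter ℂ Q) N - HX Q (f Y) (1 : DirichletCharacter ℂ Q) N0‖ ≤ η / (4 * K) := by
      have hmk : 1 ≤ max K 1 := le_max_right _ _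
      have hHSb : ∀ M : ℕ, (M : ℝ) ≤ max K 1 * Real.sqrt Y → ∀ M' : ℕ, Real.sqrt Y / (2 * K) ≤ M' →
          HS Q (f Y) M / M' ≤ η / (4 * K) := by
        intro M hM M' hM'
        have hM'p : (0 : ℝ) < M' := lt_of_lt_of_le (by positivity) hM'
        rw [div_le_iff₀ hM'p]
        refine (h3 M hM).trans ?_
        have e1 : η / (8 * K * (K + 1)) * Real.sqrt Y ≤ η / (8 * K) * (Real.sqrt Y / K) := by
          have : η / (8 * K * (K + 1)) * Real.sqrt Y = η / (8 * K) * (Real.sqrt Y / (K + 1)) := by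
            field_simp
          rw [this]
          refine mul_le_mul_of_nonneg_left ?_ (by positivity)
          exact div_le_div_of_nonneg_left (by linarith) hK0 (by linarith)
        have e2 : η / (8 * K) * (Real.sqrt Y / K) = η / (4 * K) * (Real.sqrt Y / (2 * K)) := by
          field_simp
          ring
        rw [e2] at e1
        exact e1.trans (mul_le_mul_of_nonneg_left hM' (by positivity))
      have hN0a : Real.sqrt Y / (2 * K) ≤ N0 := by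
        rw [div_le_iff₀ (by positivity)]
        nlinarith
      have hNa : Real.sqrt Y / (2 * K) ≤ N := by
        refine le_trans ?_ hN1
        exact div_le_div_of_nonneg_left (by linarith) hK0 (by linarith)
      have hN0p : 1 ≤ N0 := by
        have : (0 : ℝ) < N0 := by linarith
        exact_mod_cast this
      have hNp : 1 ≤ N := by
        have : (0 : ℝ) < N := lt_of_lt_of_le (by positivity) hN1
        exact_mod_cast this
      have hNb : (N : ℝ) ≤ max K 1 * Real.sqrt Y :=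
        hN2.trans (mul_le_mul_of_nonneg_right (le_max_left _ _) (by linarith))
      have hN0b : (N0 : ℝ) ≤ max K 1 * Real.sqrt Y :=
        hfl.trans (le_mul_of_one_le_left (by linarith) hmk)
      rcases le_total N0 N with hle | hle
      · exact (HX_slow Q (f Y) _ hN0p hle).trans (hHSb N hNb N0 hN0a)
      · rw [norm_sub_rev]
        exact (HX_slow Q (f Y) _ hNp hle).trans (hHSb N0 hN0b N hNa)
    have hH : ‖HX Q (f Y) (1 : DirichletCharacter ℂ Q) N - mf Q f Y‖ ≤ η / (2 * K) := by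
      have e1 : HX Q (f Y) (1 : DirichletCharacter ℂ Q) N - mf Q f Y =
          (HX Q (f Y) (1 : DirichletCharacter ℂ Q) N - HX Q (f Y) (1 : DirichletCharacter ℂ Q) N0) +
          (HX Q (f Y) (1 : DirichletCharacter ℂ Q) N0 - mf Q f Y) := by ring
      rw [e1]
      refine (norm_add_le _ _).trans ?_
      have e2 : η / (2 * K) = η / (4 * K) + η / (4 * K) := by
        field_simp
        ring
      rw [e2]
      exact add_le_add hslow h2
    rw [sum_sub_distrib, ← mul_sum]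
    set S := ∑ n ∈ Icc 1 N, tw (f Y) (1 : DirichletCharacter ℂ W) n with hS
    set S1 := ∑ n ∈ Icc 1 N, (1 : DirichletCharacter ℂ W) (n : ZMod W) with hS1
    set H := HX Q (f Y) (1 : DirichletCharacter ℂ Q) N with hHd
    set cw := cW (1 : DirichletCharacter ℂ W) with hcw
    have e1 : S - mf Q f Y * S1 = (S - cw * N * H) + cw * N * (H - mf Q f Y) + mf Q f Y * (-(S1 - N * cw)) := by ring
    rw [e1]
    refine (norm_add_le _ _).trans ?_
    refine (add_le_add (norm_add_le _ _) le_rfl).trans ?_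
    rw [norm_mul, norm_mul, norm_mul, norm_neg, Complex.norm_natCast]
    have h7 : ‖cw‖ * N * ‖H - mf Q f Y‖ ≤ 1 * (K * Real.sqrt Y) * (η / (2 * K)) := by
      gcongr
    have h8 : 1 * (K * Real.sqrt Y) * (η / (2 * K)) = η / 2 * Real.sqrt Y := by
      field_simp
    have h9 : ‖mf Q f Y‖ * ‖S1 - N * cw‖ ≤ 1 * (4 * W) :=
      mul_le_mul hmfb hchi (norm_nonneg _) zero_le_one
    linarith
  · filter_upwards [mv_ev hQ hf hQW χ K (η / 2) hK (by positivity),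
      sqrt_atTop.eventually (eventually_ge_atTop ((4 * W) / (η / 2)))] with Y h1 h2 N _ hN2
    rw [div_le_iff₀ (by positivity)] at h2
    have hmain := h1 N hN2
    rw [cW_zero χ hχ, zero_mul, zero_mul, sub_zero] at hmain
    have hchi := chi_sum χ N
    rw [cW_zero χ hχ, mul_zero, sub_zero] at hchi
    have hmfb := mf_le_one hf Y
    rw [sum_sub_distrib, ← mul_sum]
    refine (norm_sub_le _ _).trans ?_
    rw [norm_mul]
    have h9 : ‖mf Q f Y‖ * ‖∑ n ∈ Icc 1 N, χ (n : ZMod W)‖ ≤ 1 * (4 * W) :=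
      mul_le_mul hmfb hchi (norm_nonneg _) zero_le_one
    linarith

end one

end Pool.Agent.SplB

end

/-! ### from `Lib_MP_92ef0c_lb.CHyp` -/

section

/-!
# Block B: the statements of `ptw_u` and `low_pair` (only to keep the import graph flat)
-/

set_option autoImplicit false

namespace Pool.Agent.SplB

open Finset Pool.Agent.Spl Pool.Agent.SplI MeasureTheory Filter

/-- the centring constant: zero if `z ≠ 1` -/
noncomputable def mz (Q : ℕ) (z : ℂ) (f : ℝ → ℕ → ℂ) (Y : ℝ) : ℂ := open Classical in if z = 1 then mf Q f Y else 0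

/-- the statement of `ptw_u` -/
def PtwUS : Prop :=
  ∀ (q : ℕ) (hq : 0 < q) (z : ℂ) (hz : z ^ q = 1) (M : ℕ) [NeZero M] (χ : DirichletCharacter ℂ M)
    (P0 κ : ℝ) (hκ : 0 < κ) (ε : ℝ) (hε : 0 < ε),
    ∃ N0 T1 : ℝ, 1 < N0 ∧ 0 < T1 ∧ ∀ N : ℝ, N0 ≤ N → ∀ f : ℕ → ℂ, Cls z P0 κ N f → ∀ t : ℝ, |t| ≤ N ^ 3 →
      (z = 1 → T1 ≤ |t|) → ‖∑ n ∈ Icc 1 ⌊N⌋₊, tw f χ n * et t n‖ ≤ ε * N

/-- the statement of `low_pair` -/
def LowPairS : Prop :=
  ∀ {Q : ℕ} (q : ℕ) (hq : 0 < q) (hQ : 0 < Q) {z1 z2 : ℂ} (hz1 : z1 ^ q = 1) (hz2 : z2 ^ q = 1)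
    {f g : ℝ → ℕ → ℂ} (hf : FS Q z1 f) (hg : FS Q z2 g) {W1 W2 : ℕ} [NeZero W1] [NeZero W2]
    (hQW1 : Q ∣ W1) (hQW2 : Q ∣ W2) (χ : DirichletCharacter ℂ W1) (ψ : DirichletCharacter ℂ W2) (K T2 ε : ℝ)
    (hT2 : 0 ≤ T2) (hK : 1 ≤ K) (hε : 0 < ε) (a : ℝ) (ha : 0 < a), ∀ᶠ X : ℝ in atTop, ∀ C D : ℝ,
    Real.sqrt X / K ≤ C → C ≤ K * Real.sqrt X → Real.sqrt X / K ≤ D → D ≤ K * Real.sqrt X → ∀ t : ℝ, |t| ≤ T2 →
    ‖Ps (tw (f (a * X)) χ) (tw (g (a * X)) ψ) C D t - mz Q z1 f (a * X) * mz Q z2 g (a * X) *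
      Ps (tw (f00 Q) χ) (tw (f00 Q) ψ) C D t‖ ≤ ε * X

/-- the statement of `hm_large` -/
def HmS : Prop :=
  ∃ δ C X0 : ℝ, 0 < δ ∧ 0 < C ∧ 1 < X0 ∧ ∀ X N : ℝ, X0 ≤ X → X ^ (1 / 4 : ℝ) ≤ N → ∀ S : Finset ℝ, (∀ t ∈ S, |t| ≤ X) →
    (∀ t ∈ S, ∀ t' ∈ S, t ≠ t' → 1 ≤ |t - t'|) → (S.card : ℝ) ≤ X ^ δ → ∀ a : ℕ → ℂ,
    ∑ t ∈ S, ‖∑ n ∈ Icc 1 ⌊N⌋₊, a n * et t n‖ ^ 2 ≤ C * N * ∑ n ∈ Icc 1 ⌊N⌋₊, ‖a n‖ ^ 2

open Pool.Agent.GaussMR in
/-- the statement of `chainS_st` -/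
def ChainStS : Prop :=
  ∀ (ε δ K : ℝ) (hε : 0 < ε) (hδ : 0 < δ) (hK : 1 ≤ K), ∃ Q0 X0 : ℝ, 1 ≤ Q0 ∧ 1 < X0 ∧ ∀ X : ℝ, X0 ≤ X →
    ∀ f g : ℕ → ℂ, (∀ m n, f (m * n) = f m * f n) → (∀ n, ‖f n‖ ≤ 1) → (∀ n, ‖g n‖ ≤ 1) →
    ∀ C D : ℝ, Real.sqrt X / K ≤ C → C ≤ K * Real.sqrt X → Real.sqrt X / K ≤ D → D ≤ K * Real.sqrt X →
    ∀ N : ℕ, Real.log X ≤ N → (N : ℝ) ≤ 2 * Real.log X → ∀ T : ℕ, (T : ℝ) ≤ N * X / Q0 →
    ∃ S : Finset ℤ, S ⊆ fr T ∧ (S.card : ℝ) ≤ X ^ δ ∧ ∑ k ∈ fr T \ S, ‖Ps f g C D (k / N)‖ ^ 2 ≤ ε * N * X ^ 2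

/-- the inputs of block B -/
structure CH : Prop where
  hm : HmS
  chain : ChainStS
  ptw : PtwUS
  low : LowPairS

end Pool.Agent.SplB

end

/-! ### from `Lib_MP_92ef0c_lb.LineG` -/

section

/-!
# Block B: Parseval on the line and the trivial bound, general functions on pairs
-/

set_option autoImplicit false

namespace Pool.Agent.SplB

open Finset Pool.Agent.Spl Pool.Agent.SplI MeasureTheory

open Pool.Agent.GaussMR in
/-- the sum over the shifts is an integral (cf. `disc`) -/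
private theorem lg_disc (h : ℝ → ℝ) (hc : Continuous h) (N T : ℕ) (hN : 0 < N) :
    ∫ s in (0 : ℝ)..1, ∑ k ∈ fr T, h ((k + s) / N) = N * ∫ x in (-(T : ℝ) / N)..((T + 1) / N), h x := by
  have hN0 : (0 : ℝ) < N := by exact_mod_cast hN
  have hInt : ∀ a b : ℝ, IntervalIntegrable h MeasureTheory.volume a b := fun a b => hc.intervalIntegrable a b
  let a : ℕ → ℝ := fun j => ((j : ℝ) - T) / N
  have h2 : ∑ k ∈ range (2 * T + 1), ∫ x in (a k)..(a (k + 1)), h x = ∫ x in (a 0)..(a (2 * T + 1)), h x :=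
    intervalIntegral.sum_integral_adjacent_intervals (fun k _ => hInt _ _)
  have h3 : ∀ k : ℕ, ∫ x in (a k)..(a (k + 1)), h x = (1 / N) * ∫ s in (0:ℝ)..1, h ((((k : ℝ) - T) + s) / N) := by
    intro k
    have h4 := intervalIntegral.integral_comp_mul_add (a := 0) (b := 1) h (c := 1 / (N : ℝ)) (by positivity) (((k : ℝ) - T) / N)
    have e1 : (fun s : ℝ => h ((((k : ℝ) - T) + s) / N)) = fun s => h (1 / (N : ℝ) * s + ((k : ℝ) - T) / N) := by
      funext s; congr 1; ring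
    rw [e1, h4, smul_eq_mul]
    have e2 : 1 / (N : ℝ) * 0 + ((k : ℝ) - T) / N = a k := by simp only [a]; ring
    have e3 : 1 / (N : ℝ) * 1 + ((k : ℝ) - T) / N = a (k + 1) := by simp only [a]; push_cast; ring
    rw [e2, e3]
    field_simp
  have h5 : ∫ x in (a 0)..(a (2 * T + 1)), h x = (1 / N) * ∫ s in (0:ℝ)..1, ∑ k ∈ range (2 * T + 1), h ((((k : ℝ) - T) + s) / N) := by
    rw [← h2, intervalIntegral.integral_finsetSum (fun k _ => (by
      refine Continuous.intervalIntegrable ?_ _ _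
      exact hc.comp (by fun_prop)))]
    rw [mul_sum]
    exact sum_congr rfl fun k _ => h3 k
  have e0 : a 0 = -(T : ℝ) / N := by simp [a]
  have e1 : a (2 * T + 1) = ((T : ℝ) + 1) / N := by simp only [a]; push_cast; ring
  rw [e0, e1] at h5
  have h6 : ∀ s : ℝ, ∑ k ∈ fr T, h ((k + s) / N) = ∑ k ∈ range (2 * T + 1), h ((((k : ℝ) - T) + s) / N) :=
    fun s => disc_sum T (fun x => h ((x + s) / N))
  simp_rw [h6]
  rw [h5]
  field_simp

open Pool.Agent.GaussMR in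
/-- Parseval on the line and the mean value theorem -/
theorem line_gen (K : ℝ) (hK : 1 ≤ K) : ∃ C0 : ℝ, 0 < C0 ∧ ∀ X : ℝ, 1 ≤ X → ∀ F : ℕ × ℕ → ℂ, (∀ z, ‖F z‖ ≤ 1) →
    ∀ C D : ℝ, 1 ≤ C → C ≤ K * Real.sqrt X → 1 ≤ D → D ≤ K * Real.sqrt X → ∀ w T : ℝ, 0 < w → 1 ≤ T → T ≤ X →
    ∫ τ, ‖SgF F C D w τ‖ ^ 2 ≤ w ^ 2 * (∫ t in (-T)..T, ‖PsF F C D t‖ ^ 2) + C0 * (X / T) ^ 2 := by
  obtain ⟨A, hA, h⟩ := SplM.arcS
  refine ⟨A * (9 * K ^ 4), by positivity, ?_⟩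
  intro X hX F hF C D hC1 hC2 hD1 hD2 w T hw hT1 hTX
  have hK0 : 0 < K := by linarith
  have hX0 : 0 < X := by linarith
  have hK2 : 1 ≤ K ^ 2 := one_le_pow₀ hK
  have hX' : X ≤ K ^ 2 * X := by nlinarith
  have hCD : C * D ≤ K ^ 2 * X := by
    calc C * D ≤ (K * Real.sqrt X) * (K * Real.sqrt X) := mul_le_mul hC2 hD2 (by linarith) (by positivity)
      _ = K ^ 2 * (Real.sqrt X * Real.sqrt X) := by ring
      _ = K ^ 2 * X := by rw [Real.mul_self_sqrt hX0.le]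
  set N : ℕ := ⌈Real.log (K ^ 2 * X) + w⌉₊ + 3 with hN
  have hN1 : Real.log (K ^ 2 * X) + w ≤ N := by
    rw [hN]
    push_cast
    have := Nat.le_ceil (Real.log (K ^ 2 * X) + w)
    linarith
  have hN3 : (3 : ℝ) ≤ N := by
    rw [hN]
    push_cast
    have : (0 : ℝ) ≤ (⌈Real.log (K ^ 2 * X) + w⌉₊ : ℝ) := Nat.cast_nonneg _
    linarith
  have hN0 : (0 : ℝ) < N := by linarith
  have hNpos : 0 < N := by exact_mod_cast hN0
  have hTN : 3 ≤ T * N := by nlinarith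
  set T' : ℕ := ⌊T * N⌋₊ - 1 with hT'
  have hfl3 : 3 ≤ ⌊T * N⌋₊ := Nat.le_floor (by exact_mod_cast hTN)
  have hT'1 : 1 ≤ T' := by omega
  have hT'e : (T' : ℝ) + 1 = ⌊T * N⌋₊ := by
    have : T' + 1 = ⌊T * N⌋₊ := by omega
    exact_mod_cast this
  have hfl := Nat.floor_le (show 0 ≤ T * N by positivity)
  have hfl2 := Nat.lt_floor_add_one (T * N)
  have hT'u : (T' : ℝ) + 1 ≤ T * N := by rw [hT'e]; exact hfl
  have hT'l : T * N / 3 ≤ T' := by linarith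
  have hT'0 : (0 : ℝ) < T' := by exact_mod_cast hT'1
  set I : ℝ := ∫ τ, ‖SgF F C D w τ‖ ^ 2 with hI
  set B : ℝ := A * (9 * K ^ 4) * (X / T) ^ 2 with hB
  have hmain : ∀ s : ℝ, 0 ≤ s → s ≤ 1 → I ≤ w ^ 2 / N * ∑ k ∈ fr T', ‖PsF F C D ((k + s) / N)‖ ^ 2 + B := by
    intro s hs0 hs1
    have h1 := h F hF C D (K ^ 2 * X) w s N T' (hX.trans hX') (by linarith) (by linarith)
      hCD (by linarith) hNpos hw (by rw [abs_le]; constructor <;> linarith) hT'1 (by nlinarith)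
    refine h1.trans (add_le_add le_rfl ?_)
    rw [hB, mul_assoc A]
    refine mul_le_mul_of_nonneg_left ?_ hA.le
    have h2 : N * (K ^ 2 * X) / T' ≤ 3 * K ^ 2 * (X / T) := by
      rw [div_le_iff₀ hT'0]
      have h3 : 3 * K ^ 2 * (X / T) * (T * N / 3) = N * (K ^ 2 * X) := by
        field_simp
      rw [← h3]
      gcongr
    calc (N * (K ^ 2 * X) / T') ^ 2 ≤ (3 * K ^ 2 * (X / T)) ^ 2 := by gcongr
      _ = 9 * K ^ 4 * (X / T) ^ 2 := by ring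
  have hc : Continuous (fun t => ‖PsF F C D t‖ ^ 2) := (psF_cont F C D).norm.pow 2
  have h4 : I ≤ ∫ s in (0 : ℝ)..1, (w ^ 2 / N * ∑ k ∈ fr T', ‖PsF F C D ((k + s) / N)‖ ^ 2 + B) := by
    have h5 : ∫ s in (0 : ℝ)..1, I = I := by simp
    rw [← h5]
    refine intervalIntegral.integral_mono_on (by norm_num) (by simp) ?_ fun s hs => hmain s hs.1 hs.2
    refine Continuous.intervalIntegrable ?_ _ _
    refine Continuous.add (Continuous.mul continuous_const (continuous_finsetSum _ fun k _ => ?_)) continuous_const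
    exact hc.comp (by fun_prop)
  have h6 : ∫ s in (0 : ℝ)..1, (w ^ 2 / N * ∑ k ∈ fr T', ‖PsF F C D ((k + s) / N)‖ ^ 2 + B) =
      w ^ 2 / N * (∫ s in (0 : ℝ)..1, ∑ k ∈ fr T', ‖PsF F C D ((k + s) / N)‖ ^ 2) + B := by
    rw [intervalIntegral.integral_add]
    · rw [intervalIntegral.integral_const_mul]
      simp
    · refine Continuous.intervalIntegrable ?_ _ _
      refine Continuous.mul continuous_const (continuous_finsetSum _ fun k _ => ?_)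
      exact hc.comp (by fun_prop)
    · simp
  have h7 := lg_disc (fun t => ‖PsF F C D t‖ ^ 2) hc N T' hNpos
  have h8 : ∫ x in (-(T' : ℝ) / N)..((T' + 1) / N), ‖PsF F C D x‖ ^ 2 ≤ ∫ t in (-T)..T, ‖PsF F C D t‖ ^ 2 := by
    refine intervalIntegral.integral_mono_interval ?_ ?_ ?_
      (Filter.Eventually.of_forall fun t => by positivity) (hc.intervalIntegrable _ _)
    · rw [le_div_iff₀ hN0]
      linarith
    · rw [div_le_div_iff_of_pos_right hN0]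
      linarith
    · rw [div_le_iff₀ hN0]
      exact hT'u
  calc I ≤ w ^ 2 / N * (∫ s in (0 : ℝ)..1, ∑ k ∈ fr T', ‖PsF F C D ((k + s) / N)‖ ^ 2) + B := by
        rw [← h6]; exact h4
    _ = w ^ 2 * (∫ x in (-(T' : ℝ) / N)..((T' + 1) / N), ‖PsF F C D x‖ ^ 2) + B := by
        rw [h7]
        field_simp
    _ ≤ w ^ 2 * (∫ t in (-T)..T, ‖PsF F C D t‖ ^ 2) + B := by gcongr

private theorem lg_ch (t u : ℝ) (z : ℕ × ℕ) : SplM.ch (t + u) z = SplM.ch t z * SplM.ch u z := by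
  unfold SplM.ch
  rw [← Complex.exp_add]
  congr 1
  push_cast
  ring

open Pool.Agent.GaussMR in
/-- mean value theorem for the polynomial of a box -/
theorem psF_mv : ∃ A : ℝ, 0 < A ∧ ∀ Y : ℝ, 1 ≤ Y → ∀ F : ℕ × ℕ → ℂ, (∀ z, ‖F z‖ ≤ 1) → ∀ C D : ℝ, 0 ≤ C → 0 ≤ D →
    C * D ≤ Y → ∫ t in (-Y)..Y, ‖PsF F C D t‖ ^ 2 ≤ A * Y ^ 2 := by
  obtain ⟨A, hA, h⟩ := SplM.lsB
  refine ⟨4 * A, by positivity, fun Y hY F hF C D hC hD hCD => ?_⟩
  have hlogY : 0 ≤ Real.log Y := Real.log_nonneg hY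
  set N : ℕ := ⌈Real.log Y⌉₊ + 1 with hN
  have hN1 : 1 ≤ N := by omega
  have hN1r : (1 : ℝ) ≤ N := by exact_mod_cast hN1
  have hNlog : Real.log Y ≤ 3 * N := by
    have h1 := Nat.le_ceil (Real.log Y)
    have h2 : (N : ℝ) = ⌈Real.log Y⌉₊ + 1 := by rw [hN]; push_cast; ring
    rw [h2]
    linarith
  set T : ℕ := ⌈(N : ℝ) * Y⌉₊ with hT
  have hT1 : (N : ℝ) * Y ≤ T := Nat.le_ceil _
  have hT2 : (T : ℝ) < N * Y + 1 := Nat.ceil_lt_add_one (by positivity)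
  have hNY : 1 ≤ (N : ℝ) * Y := by nlinarith
  have hM : ∀ s : ℝ, 0 ≤ s → s ≤ 1 → ∑ k ∈ fr T, ‖PsF F C D ((k + s) / N)‖ ^ 2 ≤ 4 * A * N * Y ^ 2 := by
    intro s _ _
    have h1 := h N C D Y T (fun z => F z * SplM.ch (s / N) z) hN1 hY hCD hNlog
    have h2 : ∀ k : ℤ, PsF F C D ((k + s) / N) =
        ∑ z ∈ PB C D, (F z * SplM.ch (s / N) z) * SplM.ch ((k : ℝ) / N) z := by
      intro k
      unfold PsF
      refine sum_congr rfl fun z _ => ?_
      have h3 : Complex.exp (((((k : ℝ) + s) / N * dirn z : ℝ) : ℂ) * Complex.I) = SplM.ch (((k : ℝ) + s) / N) z := rfl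
      rw [h3, add_div, lg_ch]
      ring
    simp only [h2]
    refine h1.trans ?_
    have h4 : ∑ z ∈ PB C D, ‖F z * SplM.ch (s / N) z‖ ^ 2 ≤ Y := by
      calc ∑ z ∈ PB C D, ‖F z * SplM.ch (s / N) z‖ ^ 2 ≤ ∑ _z ∈ PB C D, (1 : ℝ) := by
            refine sum_le_sum fun z _ => ?_
            rw [norm_mul, SplM.norm_ch, mul_one]
            exact pow_le_one₀ (norm_nonneg _) (hF z)
        _ = ((PB C D).card : ℝ) := by simp
        _ ≤ C * D := SplM.card_PB_le C D hC hD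
        _ ≤ Y := hCD
    calc A * (T + N * Y) * ∑ z ∈ PB C D, ‖F z * SplM.ch (s / N) z‖ ^ 2 ≤ A * (4 * (N * Y)) * Y := by
          refine mul_le_mul (mul_le_mul_of_nonneg_left ?_ hA.le) h4 (sum_nonneg fun z _ => by positivity)
            (by positivity)
          linarith
      _ = 4 * A * N * Y ^ 2 := by ring
  have hfin := disc (fun t => ‖PsF F C D t‖ ^ 2) ((psF_cont F C D).norm.pow 2) (fun t => sq_nonneg _) N T (by omega)
    Y (by linarith) hT1 _ hM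
  refine hfin.trans (le_of_eq ?_)
  field_simp

/-- the trivial bound for arcs -/
theorem triv_arc (K : ℝ) (hK : 1 ≤ K) : ∃ A : ℝ, 0 < A ∧ ∀ X : ℝ, 1 ≤ X → ∀ F : ℕ × ℕ → ℂ, (∀ z, ‖F z‖ ≤ 1) →
    ∀ C D : ℝ, 1 ≤ C → C ≤ K * Real.sqrt X → 1 ≤ D → D ≤ K * Real.sqrt X → ∀ H : ℝ, 1 ≤ H →
    ∫ τ, ‖SgF F C D (H / X) τ‖ ^ 2 ≤ A * H ^ 2 := by
  obtain ⟨C0, hC0, hl⟩ := line_gen K hK
  obtain ⟨A, hA, hm⟩ := psF_mv
  refine ⟨A * K ^ 4 + C0, by positivity, fun X hX F hF C D hC1 hC2 hD1 hD2 H hH => ?_⟩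
  have hX0 : 0 < X := by linarith
  have hK2 : 1 ≤ K ^ 2 := one_le_pow₀ hK
  have hCD : C * D ≤ K ^ 2 * X := by
    calc C * D ≤ (K * Real.sqrt X) * (K * Real.sqrt X) := mul_le_mul hC2 hD2 (by linarith) (by positivity)
      _ = K ^ 2 * (Real.sqrt X * Real.sqrt X) := by ring
      _ = K ^ 2 * X := by rw [Real.mul_self_sqrt hX0.le]
  have hXY : X ≤ K ^ 2 * X := by nlinarith
  have h1 := hl X hX F hF C D hC1 hC2 hD1 hD2 (H / X) X (by positivity) hX le_rfl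
  have h2 := hm (K ^ 2 * X) (by linarith) F hF C D (by linarith) (by linarith) hCD
  have h3 : ∫ t in (-X)..X, ‖PsF F C D t‖ ^ 2 ≤ ∫ t in (-(K ^ 2 * X))..(K ^ 2 * X), ‖PsF F C D t‖ ^ 2 := by
    refine intervalIntegral.integral_mono_interval (by linarith) (by linarith) hXY
      (Filter.Eventually.of_forall fun t => by positivity) ?_
    exact (((psF_cont F C D).norm.pow 2).intervalIntegrable _ _)
  have h4 : (H / X) ^ 2 * (∫ t in (-X)..X, ‖PsF F C D t‖ ^ 2) ≤ (H / X) ^ 2 * (A * (K ^ 2 * X) ^ 2) :=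
    mul_le_mul_of_nonneg_left (h3.trans h2) (sq_nonneg _)
  have h5 : (H / X) ^ 2 * (A * (K ^ 2 * X) ^ 2) = A * K ^ 4 * H ^ 2 := by field_simp
  have h6 : C0 * (X / X) ^ 2 ≤ C0 * H ^ 2 := by
    rw [div_self hX0.ne', one_pow]
    exact mul_le_mul_of_nonneg_left (one_le_pow₀ hH) hC0.le
  calc ∫ τ, ‖SgF F C D (H / X) τ‖ ^ 2 ≤ A * K ^ 4 * H ^ 2 + C0 * H ^ 2 := by linarith
    _ = (A * K ^ 4 + C0) * H ^ 2 := by ring

end Pool.Agent.SplB

end

/-! ### from `Lib_MP_92ef0c_lb.FewU` -/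

section

/-!
# Block B: few frequencies carry little, uniform version (port of spi/FewS.lean)
-/

set_option autoImplicit false

namespace Pool.Agent.SplB

open Finset Pool.Agent.Spl Pool.Agent.SplI MeasureTheory

/-- sums of inverse squares -/
private theorem fwu_sq (n : ℕ) : ∑ k ∈ Icc 1 n, ((k : ℝ) ^ 2)⁻¹ ≤ 2 := by
  have h := sum_Ioo_inv_sq_le (α := ℝ) 0 (n + 1)
  have e : Ioo 0 (n + 1) = Icc 1 n := by
    ext k
    simp only [mem_Ioo, mem_Icc]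
    omega
  rw [e] at h
  have h2 : (2 : ℝ) / (((0 : ℕ) : ℝ) + 1) = 2 := by norm_num
  rw [h2] at h
  exact h

/-- tails of sums of inverse squares -/
private theorem fwu_tail (n : ℕ) (y : ℝ) (hy : 0 < y) :
    ∑ k ∈ (Icc 1 n).filter (fun k : ℕ => y < (k : ℝ)), ((k : ℝ) ^ 2)⁻¹ ≤ 2 / y := by
  have h := sum_Ioo_inv_sq_le (α := ℝ) ⌊y⌋₊ (n + 1)
  have h1 : (Icc 1 n).filter (fun k : ℕ => y < (k : ℝ)) ⊆ Ioo ⌊y⌋₊ (n + 1) := by
    intro k hk
    rw [mem_filter, mem_Icc] at hk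
    rw [mem_Ioo]
    exact ⟨(Nat.floor_lt hy.le).2 hk.2, by omega⟩
  have h2 : (2 : ℝ) / ((⌊y⌋₊ : ℝ) + 1) ≤ 2 / y :=
    div_le_div_of_nonneg_left (by norm_num) hy (Nat.lt_floor_add_one y).le
  refine le_trans (Finset.sum_le_sum_of_subset_of_nonneg h1 fun k _ _ => by positivity) ?_
  exact h.trans h2

/-- weighted Cauchy inequality -/
private theorem fwu_cs (n : ℕ) (a : ℕ → ℝ) :
    (∑ k ∈ Icc 1 n, a k) ^ 2 ≤ 2 * ∑ k ∈ Icc 1 n, (k : ℝ) ^ 2 * a k ^ 2 := by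
  have h := Finset.sum_mul_sq_le_sq_mul_sq (Icc 1 n) (fun k : ℕ => ((k : ℝ))⁻¹)
    (fun k => (k : ℝ) * a k)
  have e1 : ∑ k ∈ Icc 1 n, ((k : ℝ))⁻¹ * ((k : ℝ) * a k) = ∑ k ∈ Icc 1 n, a k := by
    refine Finset.sum_congr rfl fun k hk => ?_
    rw [mem_Icc] at hk
    have hk0 : (k : ℝ) ≠ 0 := by
      have : k ≠ 0 := by omega
      exact_mod_cast this
    rw [← mul_assoc, inv_mul_cancel₀ hk0, one_mul]
  have e2 : ∑ k ∈ Icc 1 n, (((k : ℝ))⁻¹) ^ 2 = ∑ k ∈ Icc 1 n, ((k : ℝ) ^ 2)⁻¹ :=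
    Finset.sum_congr rfl fun k _ => by rw [inv_pow]
  have e3 : ∑ k ∈ Icc 1 n, ((k : ℝ) * a k) ^ 2 = ∑ k ∈ Icc 1 n, (k : ℝ) ^ 2 * a k ^ 2 :=
    Finset.sum_congr rfl fun k _ => by rw [mul_pow]
  rw [e1, e2, e3] at h
  exact h.trans (mul_le_mul_of_nonneg_right (fwu_sq n)
    (Finset.sum_nonneg fun k _ => by positivity))

/-- trivial bound -/
private theorem fwu_triv (f : ℕ → ℂ) (hf : CF f) (t N : ℝ) (hN : 0 ≤ N) :
    ‖∑ n ∈ Icc 1 ⌊N⌋₊, f n * et t n‖ ≤ N := by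
  refine (norm_sum_le _ _).trans ?_
  calc ∑ n ∈ Icc 1 ⌊N⌋₊, ‖f n * et t n‖ ≤ ∑ n ∈ Icc 1 ⌊N⌋₊, (1 : ℝ) := by
        refine Finset.sum_le_sum fun n _ => ?_
        rw [norm_mul, norm_et, mul_one]
        exact hf.le n
    _ = (⌊N⌋₊ : ℝ) := by simp
    _ ≤ N := Nat.floor_le hN

/-- the abstract estimate -/
private theorem fwu_core (n : ℕ) (S : Finset ℝ) (P : ℝ → ℂ) (A B : ℕ → ℝ → ℂ) (y C D c0 e1 : ℝ)
    (hy : 0 < y) (hC : 0 ≤ C) (hD : 0 ≤ D) (hc0 : 0 ≤ c0)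
    (hP : ∀ t, ‖P t‖ ≤ ∑ k ∈ Icc 1 n, ‖A k t‖ * ‖B k t‖)
    (hA : ∀ k ∈ Icc 1 n, ∀ t, ‖A k t‖ ≤ C / k) (hB : ∀ k ∈ Icc 1 n, ∀ t, ‖B k t‖ ≤ D / k)
    (h1 : ∀ k ∈ Icc 1 n, (k : ℝ) ≤ y → ∀ t ∈ S, ‖B k t‖ ≤ e1 * (D / k))
    (h2 : ∀ k ∈ Icc 1 n, (k : ℝ) ≤ y → ∑ t ∈ S, ‖A k t‖ ^ 2 ≤ c0 * (C / k) ^ 2) :
    ∑ t ∈ S, ‖P t‖ ^ 2 ≤ 4 * (e1 ^ 2 * c0 * (C * D) ^ 2) + 4 * (S.card * (C * D) ^ 2 / y) := by
  have hterm : ∀ k ∈ Icc 1 n, (k : ℝ) ^ 2 * ∑ t ∈ S, (‖A k t‖ * ‖B k t‖) ^ 2 ≤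
      (e1 ^ 2 * c0 * (C * D) ^ 2) * ((k : ℝ) ^ 2)⁻¹ +
        (if y < (k : ℝ) then (S.card * (C * D) ^ 2) * ((k : ℝ) ^ 2)⁻¹ else 0) := by
    intro k hk
    have hk' := mem_Icc.1 hk
    have hk0 : (0 : ℝ) < k := by
      have : 0 < k := by omega
      exact_mod_cast this
    by_cases hky : y < (k : ℝ)
    · rw [if_pos hky]
      have hs : ∑ t ∈ S, (‖A k t‖ * ‖B k t‖) ^ 2 ≤ ∑ _t ∈ S, ((C / k) * (D / k)) ^ 2 := by
        refine Finset.sum_le_sum fun t _ => ?_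
        exact pow_le_pow_left₀ (by positivity)
          (mul_le_mul (hA k hk t) (hB k hk t) (norm_nonneg _) (by positivity)) 2
      rw [Finset.sum_const, nsmul_eq_mul] at hs
      have h3 : (k : ℝ) ^ 2 * (S.card * ((C / k) * (D / k)) ^ 2) =
          (S.card * (C * D) ^ 2) * ((k : ℝ) ^ 2)⁻¹ := by
        field_simp
      have h4 : (0 : ℝ) ≤ (e1 ^ 2 * c0 * (C * D) ^ 2) * ((k : ℝ) ^ 2)⁻¹ := by positivity
      have h5 := mul_le_mul_of_nonneg_left hs (by positivity : (0 : ℝ) ≤ (k : ℝ) ^ 2)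
      rw [h3] at h5
      linarith
    · rw [if_neg hky, add_zero]
      have hky' : (k : ℝ) ≤ y := not_lt.1 hky
      have hs : ∑ t ∈ S, (‖A k t‖ * ‖B k t‖) ^ 2 ≤ ∑ t ∈ S, ‖A k t‖ ^ 2 * (e1 * (D / k)) ^ 2 := by
        refine Finset.sum_le_sum fun t ht => ?_
        rw [mul_pow]
        exact mul_le_mul_of_nonneg_left
          (pow_le_pow_left₀ (norm_nonneg _) (h1 k hk hky' t ht) 2) (by positivity)
      rw [← Finset.sum_mul] at hs
      have hs2 := mul_le_mul_of_nonneg_right (h2 k hk hky')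
        (by positivity : (0 : ℝ) ≤ (e1 * (D / k)) ^ 2)
      have h5 := mul_le_mul_of_nonneg_left (hs.trans hs2) (by positivity : (0 : ℝ) ≤ (k : ℝ) ^ 2)
      have h3 : (k : ℝ) ^ 2 * (c0 * (C / k) ^ 2 * (e1 * (D / k)) ^ 2) =
          (e1 ^ 2 * c0 * (C * D) ^ 2) * ((k : ℝ) ^ 2)⁻¹ := by
        field_simp
      rw [h3] at h5
      exact h5
  calc ∑ t ∈ S, ‖P t‖ ^ 2
      ≤ ∑ t ∈ S, 2 * ∑ k ∈ Icc 1 n, (k : ℝ) ^ 2 * (‖A k t‖ * ‖B k t‖) ^ 2 := by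
        refine Finset.sum_le_sum fun t _ => ?_
        exact (pow_le_pow_left₀ (norm_nonneg _) (hP t) 2).trans (fwu_cs n _)
    _ = 2 * ∑ k ∈ Icc 1 n, (k : ℝ) ^ 2 * ∑ t ∈ S, (‖A k t‖ * ‖B k t‖) ^ 2 := by
        rw [← Finset.mul_sum, Finset.sum_comm]
        congr 1
        exact Finset.sum_congr rfl fun k _ => by rw [Finset.mul_sum]
    _ ≤ 2 * ∑ k ∈ Icc 1 n, ((e1 ^ 2 * c0 * (C * D) ^ 2) * ((k : ℝ) ^ 2)⁻¹ +
        (if y < (k : ℝ) then (S.card * (C * D) ^ 2) * ((k : ℝ) ^ 2)⁻¹ else 0)) :=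
        mul_le_mul_of_nonneg_left (Finset.sum_le_sum hterm) (by norm_num)
    _ = 2 * ((e1 ^ 2 * c0 * (C * D) ^ 2) * ∑ k ∈ Icc 1 n, ((k : ℝ) ^ 2)⁻¹ +
        (S.card * (C * D) ^ 2) *
          ∑ k ∈ (Icc 1 n).filter (fun k : ℕ => y < (k : ℝ)), ((k : ℝ) ^ 2)⁻¹) := by
        rw [Finset.sum_add_distrib, ← Finset.mul_sum, ← Finset.sum_filter, ← Finset.mul_sum]
    _ ≤ 2 * ((e1 ^ 2 * c0 * (C * D) ^ 2) * 2 + (S.card * (C * D) ^ 2) * (2 / y)) := by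
        refine mul_le_mul_of_nonneg_left (add_le_add ?_ ?_) (by norm_num)
        · exact mul_le_mul_of_nonneg_left (fwu_sq n) (by positivity)
        · exact mul_le_mul_of_nonneg_left (fwu_tail n y hy) (by positivity)
    _ = 4 * (e1 ^ 2 * c0 * (C * D) ^ 2) + 4 * (S.card * (C * D) ^ 2 / y) := by ring

theorem few_u (H : CH) (K ε : ℝ) (hK : 1 ≤ K) (hε : 0 < ε) : ∃ ε1 δ X0 : ℝ, 0 < ε1 ∧ 0 < δ ∧ 1 < X0 ∧ ∀ X : ℝ, X0 ≤ X →
    ∀ f g : ℕ → ℂ, CF f → CF g → ∀ C D : ℝ, Real.sqrt X / K ≤ C → C ≤ K * Real.sqrt X → Real.sqrt X / K ≤ D → D ≤ K * Real.sqrt X →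
    ∀ S : Finset ℝ, (∀ t ∈ S, |t| ≤ X) → (∀ t ∈ S, ∀ t' ∈ S, t ≠ t' → 1 ≤ |t - t'|) → (S.card : ℝ) ≤ X ^ δ →
    (∀ t ∈ S, ∀ N : ℝ, X ^ (1 / 4 : ℝ) ≤ N → N ≤ D → X ≤ N ^ 3 → ‖∑ n ∈ Icc 1 ⌊N⌋₊, g n * et (-t) n‖ ≤ ε1 * N) →
    ∑ t ∈ S, ‖Ps f g C D t‖ ^ 2 ≤ ε * X ^ 2 := by
  obtain ⟨δ1, C0, X1, hδ1, hC0, hX1, hm⟩ := H.hm
  have hK0 : 0 < K := by linarith
  have he1 : 0 < ε / (8 * C0 * K ^ 4) := by positivity
  have ev : ∀ᶠ X : ℝ in Filter.atTop, X1 ≤ X ∧ K ^ 3 ≤ X ^ (1 / 8 : ℝ) ∧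
      8 * K ^ 4 / ε ≤ X ^ (1 / 16 : ℝ) := by
    refine (Filter.eventually_ge_atTop X1).and (((tendsto_rpow_atTop (by norm_num)).eventually
      (Filter.eventually_ge_atTop _)).and ((tendsto_rpow_atTop (by norm_num)).eventually
      (Filter.eventually_ge_atTop _)))
  obtain ⟨X2, hX2⟩ := Filter.eventually_atTop.1 ev
  refine ⟨Real.sqrt (ε / (8 * C0 * K ^ 4)), min δ1 (1 / 16), max X2 2, Real.sqrt_pos.2 he1,
    lt_min hδ1 (by norm_num), lt_of_lt_of_le one_lt_two (le_max_right _ _), ?_⟩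
  intro X hX f g hf hg C D hC1 hC2 hD1 hD2 S hS1 hS2 hS3 hptw
  obtain ⟨hXa, hXb, hXd⟩ := hX2 X (le_trans (le_max_left _ _) hX)
  have hX2' : (2 : ℝ) ≤ X := le_trans (le_max_right _ _) hX
  have hXpos : 0 < X := by linarith
  have hX1' : (1 : ℝ) ≤ X := by linarith
  have hC : 0 ≤ C := le_trans (by positivity) hC1
  have hD : 0 ≤ D := le_trans (by positivity) hD1
  have hK3 : K ≤ K ^ 3 := by
    calc K = K ^ 1 := (pow_one K).symm
      _ ≤ K ^ 3 := pow_le_pow_right₀ hK (by norm_num)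
  have hKX : K ≤ X ^ (1 / 8 : ℝ) := hK3.trans hXb
  have hsqrt : Real.sqrt X = X ^ (1 / 2 : ℝ) := Real.sqrt_eq_rpow X
  have hlow : ∀ E : ℝ, Real.sqrt X / K ≤ E → ∀ k : ℕ, 1 ≤ k → (k : ℝ) ≤ X ^ (1 / 8 : ℝ) →
      X ^ (3 / 8 : ℝ) / K ≤ E / k := by
    intro E hE k hk1 hk
    have hk0 : (0 : ℝ) < k := by exact_mod_cast hk1
    have h1 : X ^ (3 / 8 : ℝ) = Real.sqrt X / X ^ (1 / 8 : ℝ) := by
      rw [hsqrt, ← Real.rpow_sub hXpos]
      norm_num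
    rw [h1, div_right_comm]
    exact div_le_div₀ (le_trans (by positivity) hE) hE hk0 hk
  have h38 : X ^ (1 / 4 : ℝ) ≤ X ^ (3 / 8 : ℝ) / K := by
    rw [le_div_iff₀ hK0]
    calc X ^ (1 / 4 : ℝ) * K ≤ X ^ (1 / 4 : ℝ) * X ^ (1 / 8 : ℝ) :=
          mul_le_mul_of_nonneg_left hKX (by positivity)
      _ = X ^ (3 / 8 : ℝ) := by
          rw [← Real.rpow_add hXpos]
          norm_num
  have hcube : X ≤ (X ^ (3 / 8 : ℝ) / K) ^ 3 := by
    rw [div_pow, le_div_iff₀ (by positivity)]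
    have h1 : (X ^ (3 / 8 : ℝ)) ^ 3 = X * X ^ (1 / 8 : ℝ) := by
      rw [← Real.rpow_natCast, ← Real.rpow_mul hXpos.le]
      nth_rewrite 2 [← Real.rpow_one X]
      rw [← Real.rpow_add hXpos]
      norm_num
    rw [h1]
    exact mul_le_mul_of_nonneg_left hXb hXpos.le
  have hcore := fwu_core ⌊C⌋₊ S (fun t => Ps f g C D t)
    (fun k t => ∑ x ∈ Icc 1 ⌊C / k⌋₊, f x * et t x)
    (fun k t => ∑ y ∈ Icc 1 ⌊D / k⌋₊, g y * et (-t) y)
    (X ^ (1 / 8 : ℝ)) C D C0 (Real.sqrt (ε / (8 * C0 * K ^ 4))) (by positivity) hC hD hC0.le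
    (by
      intro t
      show ‖Ps f g C D t‖ ≤ _
      rw [ps_mob f g hf hg C D t]
      refine (norm_sum_le _ _).trans (Finset.sum_le_sum fun k _ => ?_)
      rw [norm_mul, norm_mul, norm_mul (f k)]
      have h1 : ‖((ArithmeticFunction.moebius k : ℤ) : ℂ)‖ ≤ 1 := by
        rw [Complex.norm_intCast]
        exact_mod_cast ArithmeticFunction.abs_moebius_le_one
      have h2 : ‖f k‖ * ‖g k‖ ≤ 1 * 1 :=
        mul_le_mul (hf.le k) (hg.le k) (norm_nonneg _) zero_le_one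
      have h3 : ‖((ArithmeticFunction.moebius k : ℤ) : ℂ)‖ * (‖f k‖ * ‖g k‖) ≤ 1 * (1 * 1) :=
        mul_le_mul h1 h2 (by positivity) zero_le_one
      rw [mul_one, mul_one] at h3
      have h4 := mul_le_mul_of_nonneg_right h3
        (norm_nonneg ((∑ x ∈ Icc 1 ⌊C / k⌋₊, f x * et t x) *
          ∑ y ∈ Icc 1 ⌊D / k⌋₊, g y * et (-t) y))
      rw [one_mul] at h4
      exact h4.trans_eq (norm_mul _ _))
    (fun k _ t => fwu_triv f hf t (C / k) (by positivity))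
    (fun k _ t => fwu_triv g hg (-t) (D / k) (by positivity))
    (by
      intro k hk hky t ht
      have hk1 := (mem_Icc.1 hk).1
      have h1 := hlow D hD1 k hk1 hky
      refine hptw t ht (D / k) (h38.trans h1) (div_le_self hD (by exact_mod_cast hk1)) ?_
      exact hcube.trans (pow_le_pow_left₀ (by positivity) h1 3))
    (by
      intro k hk hky
      have hk1 := (mem_Icc.1 hk).1
      have hk0 : (0 : ℝ) < k := by exact_mod_cast hk1
      have h1 := hlow C hC1 k hk1 hky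
      have h2 := hm X (C / k) hXa (h38.trans h1) S hS1 hS2
        (hS3.trans (Real.rpow_le_rpow_of_exponent_le hX1' (min_le_left _ _))) f
      refine h2.trans ?_
      have h3 : ∑ n ∈ Icc 1 ⌊C / k⌋₊, ‖f n‖ ^ 2 ≤ C / k := by
        calc ∑ n ∈ Icc 1 ⌊C / k⌋₊, ‖f n‖ ^ 2 ≤ ∑ n ∈ Icc 1 ⌊C / k⌋₊, (1 : ℝ) :=
              Finset.sum_le_sum fun n _ => pow_le_one₀ (norm_nonneg _) (hf.le n)
          _ = (⌊C / k⌋₊ : ℝ) := by simp
          _ ≤ C / k := Nat.floor_le (by positivity)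
      calc C0 * (C / k) * ∑ n ∈ Icc 1 ⌊C / k⌋₊, ‖f n‖ ^ 2 ≤ C0 * (C / k) * (C / k) :=
            mul_le_mul_of_nonneg_left h3 (by positivity)
        _ = C0 * (C / k) ^ 2 := by ring)
  refine hcore.trans ?_
  rw [Real.sq_sqrt he1.le]
  have hCD : (C * D) ^ 2 ≤ K ^ 4 * X ^ 2 := by
    have h1 : C * D ≤ (K * Real.sqrt X) * (K * Real.sqrt X) := mul_le_mul hC2 hD2 hD (by positivity)
    have h2 : (K * Real.sqrt X) * (K * Real.sqrt X) = K ^ 2 * X := by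
      have := Real.mul_self_sqrt hXpos.le
      calc (K * Real.sqrt X) * (K * Real.sqrt X) = K ^ 2 * (Real.sqrt X * Real.sqrt X) := by ring
        _ = K ^ 2 * X := by rw [this]
    rw [h2] at h1
    calc (C * D) ^ 2 ≤ (K ^ 2 * X) ^ 2 := pow_le_pow_left₀ (by positivity) h1 2
      _ = K ^ 4 * X ^ 2 := by ring
  have hp1 : 4 * (ε / (8 * C0 * K ^ 4) * C0 * (C * D) ^ 2) ≤ ε / 2 * X ^ 2 := by
    calc 4 * (ε / (8 * C0 * K ^ 4) * C0 * (C * D) ^ 2)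
        ≤ 4 * (ε / (8 * C0 * K ^ 4) * C0 * (K ^ 4 * X ^ 2)) := by gcongr
      _ = ε / 2 * X ^ 2 := by
          field_simp
          ring
  have hp2 : 4 * (S.card * (C * D) ^ 2 / X ^ (1 / 8 : ℝ)) ≤ ε / 2 * X ^ 2 := by
    have hcard : (S.card : ℝ) ≤ X ^ (1 / 16 : ℝ) :=
      hS3.trans (Real.rpow_le_rpow_of_exponent_le hX1' (min_le_right _ _))
    have h1 : (S.card : ℝ) * (C * D) ^ 2 ≤ X ^ (1 / 16 : ℝ) * (K ^ 4 * X ^ 2) :=
      mul_le_mul hcard hCD (by positivity) (by positivity)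
    have h2 : X ^ (1 / 8 : ℝ) = X ^ (1 / 16 : ℝ) * X ^ (1 / 16 : ℝ) := by
      rw [← Real.rpow_add hXpos]
      norm_num
    have hX16 : 0 < X ^ (1 / 16 : ℝ) := by positivity
    have h3 : 8 * K ^ 4 ≤ ε * X ^ (1 / 16 : ℝ) := by
      rw [div_le_iff₀ hε] at hXd
      linarith
    calc 4 * (S.card * (C * D) ^ 2 / X ^ (1 / 8 : ℝ))
        ≤ 4 * (X ^ (1 / 16 : ℝ) * (K ^ 4 * X ^ 2) / X ^ (1 / 8 : ℝ)) := by gcongr
      _ = 4 * K ^ 4 * X ^ 2 / X ^ (1 / 16 : ℝ) := by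
          rw [h2]
          field_simp
      _ ≤ ε / 2 * X ^ 2 := by
          rw [div_le_iff₀ hX16]
          have h4 := mul_le_mul_of_nonneg_right h3 (by positivity : (0 : ℝ) ≤ X ^ 2)
          nlinarith
  linarith

end Pool.Agent.SplB

end

/-! ### from `Lib_MP_92ef0c_lb.MeanU` -/

section

/-!
# Block B: mean square of the polynomial of a box, uniform version (port of spi/MeanS.lean)
-/

set_option autoImplicit false

namespace Pool.Agent.SplB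

open Finset Pool.Agent.Spl Pool.Agent.SplI MeasureTheory

/-- a continuous cut-off: zero for `|t| ≤ T1`, one for `|t| ≥ T1 + 1` -/
noncomputable def ct (T1 t : ℝ) : ℝ := max 0 (min 1 (|t| - T1))

theorem ct_nonneg (T1 t : ℝ) : 0 ≤ ct T1 t := le_max_left _ _

theorem ct_le_one (T1 t : ℝ) : ct T1 t ≤ 1 := max_le zero_le_one (min_le_left _ _)

theorem ct_zero {T1 t : ℝ} (h : |t| ≤ T1) : ct T1 t = 0 := by
  unfold ct
  refine max_eq_left ((min_le_right _ _).trans ?_)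
  linarith

theorem ct_one {T1 t : ℝ} (h : T1 + 1 ≤ |t|) : ct T1 t = 1 := by
  unfold ct
  rw [min_eq_left (by linarith), max_eq_right zero_le_one]

theorem ct_cont (T1 : ℝ) : Continuous (ct T1) := by
  unfold ct
  fun_prop

private theorem msu_exp (t : ℝ) (z : ℕ × ℕ) : Complex.exp (((t * dirn z : ℝ) : ℂ) * Complex.I) = et t z.1 * et (-t) z.2 := by
  unfold et dirn
  rw [← Complex.exp_add]
  congr 1
  push_cast
  ring

private theorem msu_add (t u : ℝ) (z : ℕ × ℕ) : Complex.exp ((((t + u) * dirn z : ℝ) : ℂ) * Complex.I) =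
    Complex.exp (((t * dirn z : ℝ) : ℂ) * Complex.I) * (et u z.1 * et (-u) z.2) := by
  rw [← msu_exp, ← Complex.exp_add]
  congr 1
  push_cast
  ring

private theorem msu_shift (f g : ℕ → ℂ) (C D t u : ℝ) : Ps f g C D (t + u) =
    Ps (fun n => if n = 0 then 0 else f n * et u n) (fun n => if n = 0 then 0 else g n * et (-u) n) C D t := by
  unfold Ps
  refine sum_congr rfl fun z hz => ?_
  rw [mem_PB] at hz
  simp only [if_neg hz.1.1.ne', if_neg hz.2.1.1.ne', msu_add]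
  ring

open Pool.Agent.GaussMR in
/-- uniform version of `mean_small` -/
theorem mean_u (H : CH) (K ε : ℝ) (hK : 1 ≤ K) (hε : 0 < ε) : ∃ ε1 Q0 X0 : ℝ, 0 < ε1 ∧ 1 ≤ Q0 ∧ 1 < X0 ∧
    ∀ X : ℝ, X0 ≤ X → ∀ f g : ℕ → ℂ, CF f → CF g → ∀ C D : ℝ, Real.sqrt X / K ≤ C → C ≤ K * Real.sqrt X →
    Real.sqrt X / K ≤ D → D ≤ K * Real.sqrt X → ∀ T1 : ℝ,
    (∀ t : ℝ, T1 ≤ |t| → |t| ≤ X → ∀ N : ℝ, X ^ (1 / 4 : ℝ) ≤ N → N ≤ D → X ≤ N ^ 3 →
      ‖∑ n ∈ Icc 1 ⌊N⌋₊, g n * et t n‖ ≤ ε1 * N) →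
    ∫ t in (-(X / Q0))..(X / Q0), ct T1 t * ‖Ps f g C D t‖ ^ 2 ≤ ε * X ^ 2 := by
  classical
  obtain ⟨ε1, δ, X1, hε1, hδ, hX1, hfew⟩ := few_u H K (ε / 4) hK (by positivity)
  obtain ⟨Q1, X2, hQ1, hX2, hch⟩ := H.chain (ε / 4) δ K (by positivity) hδ hK
  refine ⟨ε1, 4 * Q1, max (max X1 X2) (max (4 * Q1) 4), hε1, by linarith, lt_max_of_lt_left (lt_max_of_lt_left hX1), ?_⟩
  intro X hX f g hf hg C D hC1 hC2 hD1 hD2 T1 hptw
  have hXX1 : X1 ≤ X := ((le_max_left _ _).trans (le_max_left _ _)).trans hX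
  have hXX2 : X2 ≤ X := ((le_max_right _ _).trans (le_max_left _ _)).trans hX
  have hXQ : 4 * Q1 ≤ X := ((le_max_left _ _).trans (le_max_right _ _)).trans hX
  have hX4 : 4 ≤ X := ((le_max_right _ _).trans (le_max_right _ _)).trans hX
  have hX0 : 0 < X := by linarith
  have hQ10 : 0 < Q1 := by linarith
  have hlog : 1 ≤ Real.log X := by
    rw [Real.le_log_iff_exp_le hX0]
    linarith [Real.exp_one_lt_d9]
  set N : ℕ := ⌈Real.log X⌉₊ with hN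
  have hN1 : Real.log X ≤ N := Nat.le_ceil _
  have hN2 : (N : ℝ) ≤ 2 * Real.log X := by
    have := Nat.ceil_lt_add_one (show 0 ≤ Real.log X by linarith)
    rw [← hN] at this
    linarith
  have hNr : (1 : ℝ) ≤ N := hlog.trans hN1
  have hNpos : 0 < N := by
    have : (0 : ℝ) < N := by linarith
    exact_mod_cast this
  set T : ℕ := ⌈(N : ℝ) * (X / (4 * Q1))⌉₊ with hT
  have hT1 : (N : ℝ) * (X / (4 * Q1)) ≤ T := Nat.le_ceil _
  have hT2 : (T : ℝ) < (N : ℝ) * (X / (4 * Q1)) + 1 := Nat.ceil_lt_add_one (by positivity)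
  have hXQ1 : 1 ≤ X / (4 * Q1) := by rw [le_div_iff₀ (by positivity)]; linarith
  have hNX : 1 ≤ (N : ℝ) * (X / (4 * Q1)) := by nlinarith
  have hT3 : (T : ℝ) ≤ N * X / Q1 := by
    have h1 : (N : ℝ) * X / Q1 = 4 * (N * (X / (4 * Q1))) := by field_simp
    rw [h1]
    linarith
  have hXq : X / (4 * Q1) ≤ X / 4 := by
    apply div_le_div_of_nonneg_left hX0.le (by norm_num)
    linarith
  have hTN : ((T : ℝ) + 1) / N ≤ X := by
    rw [div_le_iff₀ (by linarith)]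
    have h1 : (T : ℝ) + 1 ≤ 3 * (N * (X / (4 * Q1))) := by linarith
    have h2 : (N : ℝ) * (X / (4 * Q1)) ≤ N * (X / 4) := mul_le_mul_of_nonneg_left hXq (by linarith)
    nlinarith
  have hM : ∀ s : ℝ, 0 ≤ s → s ≤ 1 → ∑ k ∈ fr T, ct T1 ((k + s) / N) * ‖Ps f g C D ((k + s) / N)‖ ^ 2 ≤ ε / 2 * N * X ^ 2 := by
    intro s hs0 hs1
    set fs : ℕ → ℂ := fun n => if n = 0 then 0 else f n * et (s / N) n with hfs
    set gs : ℕ → ℂ := fun n => if n = 0 then 0 else g n * et (-(s / N)) n with hgs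
    have hfm : ∀ m n, fs (m * n) = fs m * fs n := by
      intro m n
      simp only [hfs]
      by_cases hm : m = 0
      · simp [hm]
      by_cases hn : n = 0
      · simp [hn]
      rw [if_neg (mul_ne_zero hm hn), if_neg hm, if_neg hn, hf.mul m n hm hn, et_mul _ hm hn]
      ring
    have hfb : ∀ n, ‖fs n‖ ≤ 1 := by
      intro n
      simp only [hfs]
      split_ifs
      · simp
      · rw [norm_mul, norm_et, mul_one]; exact hf.le n
    have hgb : ∀ n, ‖gs n‖ ≤ 1 := by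
      intro n
      simp only [hgs]
      split_ifs
      · simp
      · rw [norm_mul, norm_et, mul_one]; exact hg.le n
    obtain ⟨S, hS, hSc, hSs⟩ := hch X hXX2 fs gs hfm hfb hgb C D hC1 hC2 hD1 hD2 N hN1 hN2 T hT3
    have hsh : ∀ k : ℤ, Ps f g C D ((k + s) / N) = Ps fs gs C D (k / N) := by
      intro k
      rw [add_div, msu_shift]
    have h1 : ∑ k ∈ fr T \ S, ct T1 ((k + s) / N) * ‖Ps f g C D ((k + s) / N)‖ ^ 2 ≤ ε / 4 * N * X ^ 2 := by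
      refine (sum_le_sum fun k _ => ?_).trans hSs
      rw [← hsh]
      exact mul_le_of_le_one_left (by positivity) (ct_le_one _ _)
    set S' : Finset ℤ := S.filter (fun k => T1 ≤ |((k : ℝ) + s) / N|) with hS'
    have hS'S : S' ⊆ S := filter_subset _ _
    have h1' : ∑ k ∈ S, ct T1 ((k + s) / N) * ‖Ps f g C D ((k + s) / N)‖ ^ 2 ≤
        ∑ k ∈ S', ‖Ps f g C D ((k + s) / N)‖ ^ 2 := by
      rw [hS', sum_filter]
      refine sum_le_sum fun k _ => ?_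
      split_ifs with hk
      · exact mul_le_of_le_one_left (by positivity) (ct_le_one _ _)
      · rw [ct_zero (not_le.1 hk).le, zero_mul]
    -- the exceptional frequencies
    have h2 : ∑ k ∈ S', ‖Ps f g C D ((k + s) / N)‖ ^ 2 ≤ ε / 4 * N * X ^ 2 := by
      have h3 : ∑ k ∈ S', ‖Ps f g C D ((k + s) / N)‖ ^ 2 =
          ∑ r ∈ range N, ∑ k ∈ S'.filter (fun k => (k % (N : ℤ)).toNat = r), ‖Ps f g C D ((k + s) / N)‖ ^ 2 := by
        rw [sum_fiberwise_of_maps_to]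
        intro k _
        rw [mem_range]
        have h4 := Int.emod_lt_of_pos k (show (0 : ℤ) < N by exact_mod_cast hNpos)
        have h5 := Int.emod_nonneg k (show (N : ℤ) ≠ 0 by exact_mod_cast hNpos.ne')
        omega
      rw [h3]
      have h4 : ∀ r ∈ range N, ∑ k ∈ S'.filter (fun k => (k % (N : ℤ)).toNat = r), ‖Ps f g C D ((k + s) / N)‖ ^ 2 ≤ ε / 4 * X ^ 2 := by
        intro r _
        have hinj : Function.Injective (fun k : ℤ => ((k : ℝ) + s) / N) := by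
          intro k k' hkk
          simp only at hkk
          rw [div_left_inj' (by linarith)] at hkk
          have : (k : ℝ) = k' := by linarith
          exact_mod_cast this
        have h5 := hfew X hXX1 f g hf hg C D hC1 hC2 hD1 hD2
          ((S'.filter (fun k => (k % (N : ℤ)).toNat = r)).image (fun k : ℤ => ((k : ℝ) + s) / N)) ?_ ?_ ?_ ?_
        · rwa [sum_image (fun k _ k' _ h => hinj h)] at h5
        · intro t ht
          rw [mem_image] at ht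
          obtain ⟨k, hk, rfl⟩ := ht
          have h6 := mem_fr.1 (hS (hS'S (mem_filter.1 hk).1))
          have h7 : -(T : ℝ) ≤ k := by exact_mod_cast h6.1
          have h8 : (k : ℝ) ≤ T := by exact_mod_cast h6.2
          rw [abs_div, abs_of_pos (show (0 : ℝ) < N by linarith)]
          refine (div_le_div_of_nonneg_right ?_ (by linarith)).trans hTN
          rw [abs_le]
          constructor <;> linarith
        · intro t ht t' ht' hne
          rw [mem_image] at ht ht'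
          obtain ⟨k, hk, rfl⟩ := ht
          obtain ⟨k', hk', rfl⟩ := ht'
          have hkk : k ≠ k' := by
            rintro rfl
            exact hne rfl
          have h6 := (mem_filter.1 hk).2
          have h7 := (mem_filter.1 hk').2
          have h8 : k % (N : ℤ) = k' % (N : ℤ) := by
            have a1 := Int.emod_nonneg k (show (N : ℤ) ≠ 0 by exact_mod_cast hNpos.ne')
            have a2 := Int.emod_nonneg k' (show (N : ℤ) ≠ 0 by exact_mod_cast hNpos.ne')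
            omega
          have h9 : (N : ℤ) ∣ k - k' := by
            exact Int.dvd_of_emod_eq_zero (by rw [Int.sub_emod, h8]; simp)
          have h10 : (N : ℤ) ≤ |k - k'| := Int.le_of_dvd (abs_pos.2 (sub_ne_zero.2 hkk)) ((dvd_abs _ _).2 h9)
          have h11 : (N : ℝ) ≤ |(k : ℝ) - k'| := by exact_mod_cast h10
          have h12 : ((k : ℝ) + s) / N - ((k' : ℝ) + s) / N = ((k : ℝ) - k') / N := by ring
          rw [h12, abs_div, abs_of_pos (show (0 : ℝ) < N by linarith), le_div_iff₀ (by linarith), one_mul]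
          exact h11
        · refine le_trans ?_ hSc
          exact_mod_cast (card_image_le.trans (card_filter_le _ _)).trans (card_le_card hS'S)
        · intro t ht M hM1 hM2 hM3
          rw [mem_image] at ht
          obtain ⟨k, hk, rfl⟩ := ht
          have h6 := mem_fr.1 (hS (hS'S (mem_filter.1 hk).1))
          have h7 : -(T : ℝ) ≤ k := by exact_mod_cast h6.1
          have h8 : (k : ℝ) ≤ T := by exact_mod_cast h6.2
          have h9 : |((k : ℝ) + s) / N| ≤ X := by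
            rw [abs_div, abs_of_pos (show (0 : ℝ) < N by linarith)]
            refine (div_le_div_of_nonneg_right ?_ (by linarith)).trans hTN
            rw [abs_le]
            constructor <;> linarith
          have h10 : T1 ≤ |((k : ℝ) + s) / N| := (mem_filter.1 (mem_filter.1 hk).1).2
          exact hptw _ (by rw [abs_neg]; exact h10) (by rw [abs_neg]; exact h9) M hM1 hM2 hM3
      calc ∑ r ∈ range N, ∑ k ∈ S'.filter (fun k => (k % (N : ℤ)).toNat = r), ‖Ps f g C D ((k + s) / N)‖ ^ 2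
          ≤ ∑ _r ∈ range N, ε / 4 * X ^ 2 := sum_le_sum h4
        _ = ε / 4 * N * X ^ 2 := by rw [sum_const, card_range, nsmul_eq_mul]; ring
    rw [← sum_sdiff hS]
    linarith
  have hfin := disc (fun t => ct T1 t * ‖Ps f g C D t‖ ^ 2) ((ct_cont T1).mul ((ps_cont f g C D).norm.pow 2))
    (fun t => mul_nonneg (ct_nonneg _ _) (sq_nonneg _)) N T hNpos
    (X / (4 * Q1)) (by positivity) hT1 (ε / 2 * N * X ^ 2) hM
  refine hfin.trans ?_
  rw [div_le_iff₀ (by linarith)]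
  have : 0 ≤ ε / 2 * N * X ^ 2 := by positivity
  nlinarith

end Pool.Agent.SplB

end

/-! ### from `Lib_MP_92ef0c_lb.Core` -/

section

/-!
# Block B: mean square of the centred polynomial of a box, arcs of bounded length
-/

set_option autoImplicit false

namespace Pool.Agent.SplB

open Finset Pool.Agent.Spl Pool.Agent.SplI MeasureTheory Filter

variable {Q : ℕ}

/-- high frequencies, uniform in the class -/
theorem high_cls (H : CH) (q : ℕ) (hq : 0 < q) {z : ℂ} (hz : z ^ q = 1) {M : ℕ} [NeZero M] (ψ : DirichletCharacter ℂ M)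
    (P0 κ K ε : ℝ) (hκ : 0 < κ) (hK : 1 ≤ K) (hε : 0 < ε) : ∃ Q0 T1 X0 : ℝ, 1 ≤ Q0 ∧ 0 < T1 ∧ 1 < X0 ∧ ∀ X : ℝ, X0 ≤ X →
    ∀ f g : ℕ → ℂ, CF f → Cls z P0 κ (K * Real.sqrt X) g → ∀ C D : ℝ, Real.sqrt X / K ≤ C → C ≤ K * Real.sqrt X →
    Real.sqrt X / K ≤ D → D ≤ K * Real.sqrt X → ∀ T : ℝ, T1 ≤ T →
    ∫ t in (-(X / Q0))..(X / Q0), ct T t * ‖Ps f (tw g ψ) C D t‖ ^ 2 ≤ ε * X ^ 2 := by
  obtain ⟨ε1, Q0, X1, hε1, hQ0, hX1, h1⟩ := mean_u H K ε hK hε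
  obtain ⟨N0, T1, hN0, hT1, h2⟩ := H.ptw q hq z hz M ψ P0 κ hκ ε1 hε1
  refine ⟨Q0, T1, max X1 (N0 ^ 4), hQ0, hT1, lt_max_of_lt_left hX1, fun X hX f g hf hg C D hC1 hC2 hD1 hD2 T hT => ?_⟩
  have hXX1 : X1 ≤ X := (le_max_left _ _).trans hX
  have hXN : N0 ^ 4 ≤ X := (le_max_right _ _).trans hX
  have hX0 : 0 < X := by linarith
  refine h1 X hXX1 f (tw g ψ) hf (cf_tw hg.cf ψ) C D hC1 hC2 hD1 hD2 T fun t ht1 ht2 N hN1 hN2 hN3 => ?_
  have hN0N : N0 ≤ N := by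
    refine le_trans ?_ hN1
    have h3 : (N0 ^ 4) ^ (1 / 4 : ℝ) = N0 := by
      rw [← Real.rpow_natCast, ← Real.rpow_mul (by linarith)]
      norm_num
    rw [← h3]
    exact Real.rpow_le_rpow (by positivity) hXN (by norm_num)
  refine h2 N hN0N g (hg.mono (by linarith) hκ.le (hN2.trans hD2)) t (ht2.trans hN3) fun _ => hT.trans ht1

theorem cls_f00 (hQ : 0 < Q) (κ N : ℝ) : Cls 1 Q κ N (f00 Q) := by
  refine ⟨cf_f00 Q, fun p hp h1 _ => f00_coprime hp.ne_zero ?_⟩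
  rw [Nat.Prime.coprime_iff_not_dvd hp]
  intro hpQ
  have h2 := Nat.le_of_dvd hQ hpQ
  have h3 : Q < p := by exact_mod_cast h1
  omega

private theorem core_low (T L : ℝ) : ∫ t in (-L)..L, (1 + (T + 1) ^ 2) * (1 / (1 + t ^ 2)) ≤ 4 * (1 + (T + 1) ^ 2) := by
  rw [intervalIntegral.integral_const_mul, integral_one_div_one_add_sq]
  have h1 := Real.arctan_lt_pi_div_two L
  have h2 := Real.neg_pi_div_two_lt_arctan (-L)
  have h3 := Real.pi_le_four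
  have h4 : 0 ≤ 1 + (T + 1) ^ 2 := by positivity
  nlinarith

private theorem core_ct (T t : ℝ) (hT : 0 ≤ T) : 1 - ct T t ≤ (1 + (T + 1) ^ 2) * (1 / (1 + t ^ 2)) := by
  have h0 : (0 : ℝ) < 1 + t ^ 2 := by positivity
  by_cases h : T + 1 ≤ |t|
  · rw [ct_one h, sub_self]
    positivity
  · push Not at h
    have h1 : t ^ 2 ≤ (T + 1) ^ 2 := by
      rw [← sq_abs t]
      exact pow_le_pow_left₀ (abs_nonneg _) h.le 2
    have h2 : 1 ≤ (1 + (T + 1) ^ 2) * (1 / (1 + t ^ 2)) := by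
      rw [mul_one_div, le_div_iff₀ h0]
      linarith
    have h3 := ct_nonneg T t
    linarith

theorem core_mz_le {Q : ℕ} {z : ℂ} {f : ℝ → ℕ → ℂ} (hf : FS Q z f) (Y : ℝ) : ‖mz Q z f Y‖ ≤ 1 := by
  unfold mz
  split_ifs
  · exact mf_le_one hf Y
  · simp

/-- mean square of the centred polynomial of a box -/
theorem core (H : CH) (q : ℕ) (hq : 0 < q) (hQ : 0 < Q) {z1 z2 : ℂ} (hz1 : z1 ^ q = 1) (hz2 : z2 ^ q = 1)
    {f g : ℝ → ℕ → ℂ} (hf : FS Q z1 f) (hg : FS Q z2 g) {W1 W2 : ℕ} [NeZero W1] [NeZero W2]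
    (hQW1 : Q ∣ W1) (hQW2 : Q ∣ W2) (χ : DirichletCharacter ℂ W1) (ψ : DirichletCharacter ℂ W2) (K ε : ℝ)
    (hK : 1 ≤ K) (hε : 0 < ε) : ∃ Q0 : ℝ, 1 ≤ Q0 ∧ ∀ a : ℝ, 0 < a → ∀ᶠ X : ℝ in atTop, ∀ C D : ℝ,
    Real.sqrt X / K ≤ C → C ≤ K * Real.sqrt X → Real.sqrt X / K ≤ D → D ≤ K * Real.sqrt X →
    ∫ t in (-(X / Q0))..(X / Q0), ‖Ps (tw (f (a * X)) χ) (tw (g (a * X)) ψ) C D t - mz Q z1 f (a * X) * mz Q z2 g (a * X) *
      Ps (tw (f00 Q) χ) (tw (f00 Q) ψ) C D t‖ ^ 2 ≤ ε * X ^ 2 := by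
  obtain ⟨κ, hκ, _, hcls⟩ := hg.cls hQ
  obtain ⟨Q1, T1, X1, hQ1, hT1, hX1, h1⟩ := high_cls H q hq hz2 ψ Q κ K (ε / 8) hκ hK (by positivity)
  obtain ⟨Q2, T2, X2, hQ2, hT2, hX2, h2⟩ := high_cls H 1 one_pos (one_pow 1) ψ Q κ K (ε / 8) hκ hK (by positivity)
  obtain ⟨T, hT⟩ : ∃ T, T = max T1 T2 := ⟨_, rfl⟩
  have hTT1 : T1 ≤ T := by rw [hT]; exact le_max_left _ _
  have hTT2 : T2 ≤ T := by rw [hT]; exact le_max_right _ _
  have hT0 : 0 < T := by linarith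
  obtain ⟨Q0, hQ0⟩ : ∃ Q0, Q0 = max Q1 Q2 := ⟨_, rfl⟩
  have hQ01 : Q1 ≤ Q0 := by rw [hQ0]; exact le_max_left _ _
  have hQ02 : Q2 ≤ Q0 := by rw [hQ0]; exact le_max_right _ _
  obtain ⟨ε2, hε2⟩ : ∃ ε2, ε2 = min 1 (ε / (8 * (1 + (T + 1) ^ 2))) := ⟨_, rfl⟩
  have hε20 : 0 < ε2 := by rw [hε2]; exact lt_min one_pos (by positivity)
  have hε21 : ε2 ≤ 1 := by rw [hε2]; exact min_le_left _ _
  have hε22 : ε2 * (8 * (1 + (T + 1) ^ 2)) ≤ ε := by
    have : ε2 ≤ ε / (8 * (1 + (T + 1) ^ 2)) := by rw [hε2]; exact min_le_right _ _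
    rwa [le_div_iff₀ (by positivity)] at this
  refine ⟨Q0, hQ1.trans hQ01, fun a ha => ?_⟩
  filter_upwards [H.low q hq hQ hz1 hz2 hf hg hQW1 hQW2 χ ψ K (T + 1) ε2 (by linarith) hK hε20 a ha,
    eventually_ge_atTop X1, eventually_ge_atTop X2, eventually_ge_atTop (1 / a),
    sqrt_atTop.eventually (eventually_ge_atTop (K / a))] with X hlow hXX1 hXX2 hXa hXs C D hC1 hC2 hD1 hD2
  have hX0 : 0 < X := by linarith
  have hsX : 0 < Real.sqrt X := Real.sqrt_pos.2 hX0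
  have haX : 1 ≤ a * X := by
    rw [div_le_iff₀ ha] at hXa
    linarith
  have hKaX : K * Real.sqrt X ≤ a * X := by
    rw [div_le_iff₀ ha] at hXs
    calc K * Real.sqrt X ≤ (Real.sqrt X * a) * Real.sqrt X := mul_le_mul_of_nonneg_right hXs hsX.le
      _ = a * (Real.sqrt X * Real.sqrt X) := by ring
      _ = a * X := by rw [Real.mul_self_sqrt hX0.le]
  have hgc : Cls z2 Q κ (K * Real.sqrt X) (g (a * X)) := (hcls _ haX).2 _ (by positivity) hKaX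
  obtain ⟨m, hm⟩ : ∃ m, m = mz Q z1 f (a * X) * mz Q z2 g (a * X) := ⟨_, rfl⟩
  have hm1 : ‖m‖ ≤ 1 := by
    rw [hm, norm_mul]
    exact mul_le_one₀ (core_mz_le hf _) (norm_nonneg _) (core_mz_le hg _)
  rw [← hm] at hlow ⊢
  obtain ⟨F, hF⟩ : ∃ F : ℝ → ℂ, F = Ps (tw (f (a * X)) χ) (tw (g (a * X)) ψ) C D := ⟨_, rfl⟩
  obtain ⟨G, hG⟩ : ∃ G : ℝ → ℂ, G = Ps (tw (f00 Q) χ) (tw (f00 Q) ψ) C D := ⟨_, rfl⟩
  have hFc : Continuous F := by rw [hF]; exact ps_cont _ _ _ _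
  have hGc : Continuous G := by rw [hG]; exact ps_cont _ _ _ _
  have i1 := h1 X hXX1 _ _ (cf_tw (hf.cf (a * X)) χ) hgc C D hC1 hC2 hD1 hD2 T hTT1
  have i2 := h2 X hXX2 _ _ (cf_tw (cf_f00 Q) χ) (cls_f00 hQ κ (K * Real.sqrt X)) C D hC1 hC2 hD1 hD2 T hTT2
  have i3 := hlow C D hC1 hC2 hD1 hD2
  rw [← hF] at i1
  rw [← hG] at i2
  rw [← hF, ← hG] at i3
  simp only [← hF, ← hG]
  obtain ⟨L, hL⟩ : ∃ L, L = X / Q0 := ⟨_, rfl⟩
  have hL0 : 0 < L := by rw [hL]; exact div_pos hX0 (by linarith)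
  have hLi : ∀ (P : ℝ → ℂ) (Q' : ℝ), Continuous P → 1 ≤ Q' → Q' ≤ Q0 → ∫ t in (-L)..L, ct T t * ‖P t‖ ^ 2 ≤
      ∫ t in (-(X / Q'))..(X / Q'), ct T t * ‖P t‖ ^ 2 := by
    intro P Q' hP hQ'1 hQ'2
    have e1 : L ≤ X / Q' := by
      rw [hL]
      exact div_le_div_of_nonneg_left hX0.le (by linarith) hQ'2
    refine intervalIntegral.integral_mono_interval (by linarith) (by linarith) e1
      (Filter.Eventually.of_forall fun t => mul_nonneg (ct_nonneg _ _) (sq_nonneg _)) ?_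
    exact ((ct_cont T).mul (hP.norm.pow 2)).intervalIntegrable _ _
  have j1 := (hLi F Q1 hFc hQ1 hQ01).trans i1
  have j2 := (hLi G Q2 hGc hQ2 hQ02).trans i2
  rw [← hL]
  have hpt : ∀ t : ℝ, ‖F t - m * G t‖ ^ 2 ≤ 2 * (ct T t * ‖F t‖ ^ 2) + 2 * (ct T t * ‖G t‖ ^ 2) +
      (ε2 * X) ^ 2 * ((1 + (T + 1) ^ 2) * (1 / (1 + t ^ 2))) := by
    intro t
    have e1 : ‖F t - m * G t‖ ^ 2 ≤ 2 * ‖F t‖ ^ 2 + 2 * ‖G t‖ ^ 2 := by
      have e2 : ‖F t - m * G t‖ ≤ ‖F t‖ + ‖G t‖ := by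
        refine (norm_sub_le _ _).trans ?_
        rw [norm_mul]
        have := mul_le_of_le_one_left (norm_nonneg (G t)) hm1
        linarith
      have e3 := pow_le_pow_left₀ (norm_nonneg _) e2 2
      nlinarith [sq_nonneg (‖F t‖ - ‖G t‖)]
    have e4 : (1 - ct T t) * ‖F t - m * G t‖ ^ 2 ≤ (ε2 * X) ^ 2 * ((1 + (T + 1) ^ 2) * (1 / (1 + t ^ 2))) := by
      have e5 : (1 - ct T t) * ‖F t - m * G t‖ ^ 2 ≤ (1 - ct T t) * (ε2 * X) ^ 2 := by
        by_cases h : T + 1 ≤ |t|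
        · rw [ct_one h, sub_self, zero_mul, zero_mul]
        · push Not at h
          exact mul_le_mul_of_nonneg_left (pow_le_pow_left₀ (norm_nonneg _) (i3 t h.le) 2)
            (by linarith [ct_le_one T t])
      refine e5.trans ?_
      rw [mul_comm]
      exact mul_le_mul_of_nonneg_left (core_ct T t hT0.le) (by positivity)
    have e6 : ct T t * ‖F t - m * G t‖ ^ 2 ≤ ct T t * (2 * ‖F t‖ ^ 2 + 2 * ‖G t‖ ^ 2) :=
      mul_le_mul_of_nonneg_left e1 (ct_nonneg T t)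
    calc ‖F t - m * G t‖ ^ 2 = ct T t * ‖F t - m * G t‖ ^ 2 + (1 - ct T t) * ‖F t - m * G t‖ ^ 2 := by ring
      _ ≤ ct T t * (2 * ‖F t‖ ^ 2 + 2 * ‖G t‖ ^ 2) + (ε2 * X) ^ 2 * ((1 + (T + 1) ^ 2) * (1 / (1 + t ^ 2))) :=
        add_le_add e6 e4
      _ = _ := by ring
  have c1 : Continuous (fun t => 2 * (ct T t * ‖F t‖ ^ 2)) := continuous_const.mul ((ct_cont T).mul (hFc.norm.pow 2))
  have c2 : Continuous (fun t => 2 * (ct T t * ‖G t‖ ^ 2)) := continuous_const.mul ((ct_cont T).mul (hGc.norm.pow 2))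
  have c3 : Continuous (fun t : ℝ => (ε2 * X) ^ 2 * ((1 + (T + 1) ^ 2) * (1 / (1 + t ^ 2)))) := by
    refine continuous_const.mul (continuous_const.mul (continuous_const.div (by fun_prop) fun t => ?_))
    positivity
  have k1 : ∫ t in (-L)..L, ‖F t - m * G t‖ ^ 2 ≤ ∫ t in (-L)..L, (2 * (ct T t * ‖F t‖ ^ 2) + 2 * (ct T t * ‖G t‖ ^ 2) +
      (ε2 * X) ^ 2 * ((1 + (T + 1) ^ 2) * (1 / (1 + t ^ 2)))) := by
    refine intervalIntegral.integral_mono (by linarith) ?_ ?_ hpt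
    · exact ((hFc.sub (continuous_const.mul hGc)).norm.pow 2).intervalIntegrable _ _
    · exact ((c1.add c2).add c3).intervalIntegrable _ _
  refine k1.trans ?_
  have c12 : Continuous (fun t => 2 * (ct T t * ‖F t‖ ^ 2) + 2 * (ct T t * ‖G t‖ ^ 2)) := c1.add c2
  rw [intervalIntegral.integral_add (c12.intervalIntegrable _ _) (c3.intervalIntegrable _ _),
    intervalIntegral.integral_add (c1.intervalIntegrable _ _) (c2.intervalIntegrable _ _),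
    intervalIntegral.integral_const_mul, intervalIntegral.integral_const_mul, intervalIntegral.integral_const_mul]
  have k2 := core_low T L
  have k3 : (ε2 * X) ^ 2 * (∫ t in (-L)..L, (1 + (T + 1) ^ 2) * (1 / (1 + t ^ 2))) ≤ ε / 2 * X ^ 2 := by
    calc (ε2 * X) ^ 2 * (∫ t in (-L)..L, (1 + (T + 1) ^ 2) * (1 / (1 + t ^ 2))) ≤
          (ε2 * X) ^ 2 * (4 * (1 + (T + 1) ^ 2)) := mul_le_mul_of_nonneg_left k2 (sq_nonneg _)
      _ = ε2 * (ε2 * (8 * (1 + (T + 1) ^ 2))) / 2 * X ^ 2 := by ring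
      _ ≤ 1 * ε / 2 * X ^ 2 := by gcongr
      _ = ε / 2 * X ^ 2 := by ring
  nlinarith

end Pool.Agent.SplB

end

/-! ### from `Lib_MP_92ef0c_la.Big4` -/

section

/-!
# Profiles from window counts (real scale)
-/

set_option autoImplicit false

namespace Pool.Agent.SplL

open Finset Filter Pool.Agent.LPr

private theorem Big4_wc_mul (x u v : ℝ) {a b : ℕ} (ha : a ≠ 0) (hb : b ≠ 0) :
    wc x u v (a * b) = wc x u v a + wc x u v b := by
  classical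
  unfold wc
  rw [((Nat.perm_primeFactorsList_mul ha hb).filter _).length_eq, List.filter_append,
    List.length_append]

private theorem Big4_wc_prime {x u v : ℝ} {q : ℕ} (hq : q.Prime) (h1 : x ^ u < (q : ℝ))
    (h2 : (q : ℝ) ≤ x ^ v) : wc x u v q = 1 := by
  classical
  unfold wc
  rw [Nat.primeFactorsList_prime hq]
  simp [h1, h2]

private theorem Big4_wc_one (x u v : ℝ) : wc x u v 1 = 0 := by
  classical
  simp [wc]

private theorem Big4_wc_prod {x u v : ℝ} {ι : Type} (S : Finset ι) (q : ι → ℕ)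
    (hq : ∀ i ∈ S, (q i).Prime ∧ x ^ u < (q i : ℝ) ∧ (q i : ℝ) ≤ x ^ v) :
    wc x u v (∏ i ∈ S, q i) = S.card := by
  classical
  induction S using Finset.induction_on with
  | empty => simp [Big4_wc_one]
  | insert a S ha ih =>
    have h1 : ∏ i ∈ S, q i ≠ 0 :=
      Finset.prod_ne_zero_iff.2 (fun i hi => (hq i (mem_insert_of_mem hi)).1.ne_zero)
    have h2 := hq a (mem_insert_self a S)
    rw [prod_insert ha, Big4_wc_mul x u v h2.1.ne_zero h1, ih (fun i hi => hq i (mem_insert_of_mem hi)),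
      Big4_wc_prime h2.1 h2.2.1 h2.2.2, card_insert_of_notMem ha, add_comm]

/-- as `big_prof` in `Lib_MP_f1a94e_lp/BigP.lean`, for a real scale `y` -/
theorem big_prof4 (k : ℕ) (t : Fin k → ℝ) (hinj : Function.Injective t) (ε : ℝ) (hε : 0 < ε) (ht : ∀ i, ε < t i)
    (ht1 : ∀ i, t i ≤ 1) (C : ℝ) (_hC : 0 < C) :
    ∃ δ0 : ℝ, 0 < δ0 ∧ δ0 ≤ 1 / 2 ∧ ∀ δ : ℝ, 0 < δ → δ ≤ δ0 → ∃ x0 : ℝ, 2 ≤ x0 ∧ ∀ x : ℝ, x0 ≤ x →
      ∀ y : ℝ, x ^ (1 - δ) < y → y ≤ x → ∀ n : ℕ, n ≠ 0 → (n : ℝ) ≤ C * y →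
        (∀ i, wc x (t i - δ) (t i) n = 1) → wc x (ε / 2) 2 n = k → BigG k t ε y n := by
  classical
  -- choice of δ0
  have hg : ∀ i j : Fin k, ∀ᶠ δ : ℝ in nhdsWithin 0 (Set.Ioi 0), i ≠ j → δ < |t i - t j| := by
    intro i j
    by_cases hij : i = j
    · exact Eventually.of_forall (fun δ h => absurd hij h)
    · have hp : 0 < |t i - t j| := abs_pos.2 (sub_ne_zero.2 (fun h => hij (hinj h)))
      have : ∀ᶠ δ : ℝ in nhds 0, δ < |t i - t j| := gt_mem_nhds hp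
      exact (this.filter_mono nhdsWithin_le_nhds).mono (fun δ h _ => h)
  have hg2 : ∀ᶠ δ : ℝ in nhdsWithin 0 (Set.Ioi 0), ∀ i j : Fin k, i ≠ j → δ < |t i - t j| :=
    eventually_all.2 (fun i => eventually_all.2 (fun j => hg i j))
  obtain ⟨g, hg0, hgg⟩ := (nhdsGT_basis (0 : ℝ)).eventually_iff.1 hg2
  have hk1 : (0 : ℝ) < (k : ℝ) + 1 := by positivity
  set δ0 : ℝ := min (min (1 / 2) (g / 2)) (min (ε / 4 / ((k : ℝ) + 1)) (ε / (1 + ε))) with hδ0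
  have hδ0p : 0 < δ0 := by
    rw [hδ0]
    refine lt_min (lt_min (by norm_num) (by linarith)) (lt_min (by positivity) (by positivity))
  refine ⟨δ0, hδ0p, (min_le_left _ _).trans (min_le_left _ _), ?_⟩
  intro δ hδ hδle
  have hδ12 : δ ≤ 1 / 2 := hδle.trans ((min_le_left _ _).trans (min_le_left _ _))
  have hδg : δ < g := by
    have : δ ≤ g / 2 := hδle.trans ((min_le_left _ _).trans (min_le_right _ _))
    linarith
  have hδk : ((k : ℝ) + 1) * δ ≤ ε / 4 := by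
    have : δ ≤ ε / 4 / ((k : ℝ) + 1) := hδle.trans ((min_le_right _ _).trans (min_le_left _ _))
    rw [le_div_iff₀ hk1] at this
    linarith
  have hδε : δ * (1 + ε) ≤ ε := by
    have : δ ≤ ε / (1 + ε) := hδle.trans ((min_le_right _ _).trans (min_le_right _ _))
    rwa [le_div_iff₀ (by linarith)] at this
  have hkδ : 0 ≤ (k : ℝ) * δ := by positivity
  have hδ4 : δ ≤ ε / 4 := by nlinarith
  have hkδ4 : (k : ℝ) * δ ≤ ε / 4 := by nlinarith
  have hsep : ∀ i j : Fin k, i ≠ j → δ < |t i - t j| := hgg ⟨hδ, hδg⟩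
  -- choice of x0
  have hx1 : ∀ᶠ x : ℝ in atTop, C ≤ x ^ (ε / 8) :=
    (tendsto_rpow_atTop (by linarith : 0 < ε / 8)).eventually_ge_atTop C
  have hx2 : ∀ᶠ x : ℝ in atTop, C ≤ x := eventually_ge_atTop C
  obtain ⟨a, ha⟩ := eventually_atTop.1 (hx1.and hx2)
  refine ⟨max a 2, le_max_right _ _, ?_⟩
  intro x hx y hm1 hm2 n hn hnC hwi hwk
  have hx2' : (2 : ℝ) ≤ x := (le_max_right a 2).trans hx
  obtain ⟨hC1, hC2⟩ := ha x ((le_max_left a 2).trans hx)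
  have hx1' : (1 : ℝ) ≤ x := by linarith
  have hx0' : (0 : ℝ) < x := by linarith
  have hy1 : 1 ≤ y := (Real.one_le_rpow hx1' (by linarith)).trans hm1.le
  have hy0 : 0 < y := by linarith
  have hyh : x ^ (1 / 2 : ℝ) ≤ y :=
    (Real.rpow_le_rpow_of_exponent_le hx1' (by linarith)).trans hm1.le
  -- the primes
  have hex : ∀ i, ∃ q : ℕ, q.Prime ∧ q ∣ n ∧ x ^ (t i - δ) < (q : ℝ) ∧ (q : ℝ) ≤ x ^ (t i) := by
    intro i
    have h1 := hwi i
    unfold wc at h1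
    obtain ⟨q, hq⟩ := List.length_eq_one_iff.1 h1
    have h2 : q ∈ n.primeFactorsList.filter
        (fun p : ℕ => x ^ (t i - δ) < (p : ℝ) ∧ (p : ℝ) ≤ x ^ (t i)) := by
      rw [hq]; exact List.mem_singleton.2 rfl
    rw [List.mem_filter] at h2
    have h3 := (Nat.mem_primeFactorsList hn).1 h2.1
    have h4 := of_decide_eq_true h2.2
    exact ⟨q, h3.1, h3.2, h4.1, h4.2⟩
  choose p hpp hpd hp1 hp2 using hex
  have hlt : ∀ i j : Fin k, t i < t j → i ≠ j → p i < p j := by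
    intro i j hij hne
    have h1 := hsep i j hne
    rw [abs_of_neg (by linarith)] at h1
    have h2 : (p i : ℝ) < p j :=
      ((hp2 i).trans (Real.rpow_le_rpow_of_exponent_le hx1' (by linarith))).trans_lt (hp1 j)
    exact_mod_cast h2
  have hpinj : Function.Injective p := by
    intro i j hij
    by_contra hne
    rcases lt_trichotomy (t i) (t j) with h | h | h
    · exact absurd hij (hlt i j h hne).ne
    · exact hne (hinj h)
    · exact absurd hij (hlt j i h (Ne.symm hne)).ne'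
  have hdvd : ∏ i, p i ∣ n := by
    have h1 : ∏ q ∈ univ.image p, q ∣ n := by
      apply Finset.prod_primes_dvd
      · intro q hq
        obtain ⟨i, -, rfl⟩ := mem_image.1 hq
        exact (hpp i).prime
      · intro q hq
        obtain ⟨i, -, rfl⟩ := mem_image.1 hq
        exact hpd i
    rwa [prod_image (fun i _ j _ h => hpinj h)] at h1
  obtain ⟨s, hs⟩ := hdvd
  rw [mul_comm] at hs
  have hs0 : s ≠ 0 := by
    rintro rfl
    rw [zero_mul] at hs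
    exact hn hs
  have hP0 : ∏ i, p i ≠ 0 := Finset.prod_ne_zero_iff.2 (fun i _ => (hpp i).ne_zero)
  have htδ : ∀ i, 0 ≤ t i - δ := fun i => by linarith [ht i]
  -- the window count of the cofactor
  have hws : wc x (ε / 2) 2 s = 0 := by
    have h1 : wc x (ε / 2) 2 (∏ i, p i) = k := by
      rw [Big4_wc_prod univ p, card_univ, Fintype.card_fin]
      intro i _
      refine ⟨hpp i, (Real.rpow_le_rpow_of_exponent_le hx1' ?_).trans_lt (hp1 i),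
        (hp2 i).trans (Real.rpow_le_rpow_of_exponent_le hx1' ?_)⟩
      · linarith [ht i]
      · linarith [ht1 i]
    have h2 := Big4_wc_mul x (ε / 2) 2 hs0 hP0
    rw [← hs, h1, hwk] at h2
    omega
  have hsn : (s : ℝ) * ∏ i, (p i : ℝ) ≤ C * y := by
    have : ((s * ∏ i, p i : ℕ) : ℝ) ≤ C * y := by rw [← hs]; exact hnC
    rwa [Nat.cast_mul, Nat.cast_prod] at this
  have hyx : y ≤ x := hm2
  refine ⟨s, p, ?_, hs, ?_, ?_⟩
  · intro i
    refine ⟨hpp i, ?_, ?_⟩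
    · calc y ^ (t i - ε) ≤ x ^ (t i - ε) := Real.rpow_le_rpow hy0.le hyx (by linarith [ht i])
        _ ≤ x ^ (t i - δ) := Real.rpow_le_rpow_of_exponent_le hx1' (by linarith)
        _ ≤ p i := (hp1 i).le
    · have hti : 0 < t i := by linarith [ht i]
      calc (p i : ℝ) ≤ x ^ (t i) := hp2 i
        _ ≤ x ^ ((1 - δ) * (t i + ε)) := by
            apply Real.rpow_le_rpow_of_exponent_le hx1'
            nlinarith [ht1 i, mul_le_mul_of_nonneg_left (ht1 i) hδ.le]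
        _ = (x ^ (1 - δ)) ^ (t i + ε) := by rw [Real.rpow_mul hx0'.le]
        _ ≤ y ^ (t i + ε) :=
            Real.rpow_le_rpow (Real.rpow_nonneg hx0'.le _) hm1.le (by linarith)
  · have hprod : y ^ (∑ i, t i - k * δ) ≤ ∏ i, (p i : ℝ) := by
      have h1 : y ^ (∑ i, t i - k * δ) = ∏ i, y ^ (t i - δ) := by
        rw [← Real.rpow_sum_of_pos hy0, Finset.sum_sub_distrib]
        simp
      rw [h1]
      apply Finset.prod_le_prod
      · intro i _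
        exact Real.rpow_nonneg hy0.le _
      · intro i _
        exact (Real.rpow_le_rpow hy0.le hyx (htδ i)).trans (hp1 i).le
    have hCy : C ≤ y ^ (ε / 4) := by
      calc C ≤ x ^ (ε / 8) := hC1
        _ = (x ^ (1 / 2 : ℝ)) ^ (ε / 4) := by
            rw [← Real.rpow_mul hx0'.le]
            congr 1
            ring
        _ ≤ y ^ (ε / 4) := Real.rpow_le_rpow (Real.rpow_nonneg hx0'.le _) hyh (by linarith)
    have hs0' : (0 : ℝ) ≤ s := Nat.cast_nonneg s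
    have hD : 0 < y ^ (∑ i, t i - k * δ) := Real.rpow_pos_of_pos hy0 _
    have h2 : (s : ℝ) * y ^ (∑ i, t i - k * δ) ≤ y ^ (ε / 4) * y := by
      calc (s : ℝ) * y ^ (∑ i, t i - k * δ) ≤ (s : ℝ) * ∏ i, (p i : ℝ) := by gcongr
        _ ≤ C * y := hsn
        _ ≤ y ^ (ε / 4) * y := by gcongr
    have h3 : y ^ (ε / 4) * y ≤ y ^ (1 - ∑ i, t i + ε) * y ^ (∑ i, t i - k * δ) := by
      rw [← Real.rpow_add hy0]
      calc y ^ (ε / 4) * y = y ^ (ε / 4 + 1) := by rw [Real.rpow_add hy0, Real.rpow_one]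
        _ ≤ _ := by
            apply Real.rpow_le_rpow_of_exponent_le hy1
            linarith
    exact le_of_mul_le_mul_right (h2.trans h3) hD
  · intro r hr hrs
    have hrmem : r ∈ s.primeFactorsList := (Nat.mem_primeFactorsList hs0).2 ⟨hr, hrs⟩
    have hrle : (r : ℝ) ≤ x ^ (2 : ℝ) := by
      have h1 : (r : ℝ) ≤ n := by
        have : r ≤ n := (Nat.le_of_dvd (Nat.pos_of_ne_zero hs0) hrs).trans
          (Nat.le_of_dvd (Nat.pos_of_ne_zero hn) ⟨_, hs⟩)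
        exact_mod_cast this
      calc (r : ℝ) ≤ n := h1
        _ ≤ C * y := hnC
        _ ≤ x * x := by gcongr
        _ = x ^ (2 : ℝ) := by rw [Real.rpow_two, sq]
    have h4 : (r : ℝ) ≤ x ^ (ε / 2) := by
      by_contra h
      rw [not_le] at h
      unfold wc at hws
      rw [List.length_eq_zero_iff, List.filter_eq_nil_iff] at hws
      exact hws r hrmem (decide_eq_true ⟨h, hrle⟩)
    calc (r : ℝ) ≤ x ^ (ε / 2) := h4
      _ = (x ^ (1 / 2 : ℝ)) ^ ε := by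
          rw [← Real.rpow_mul hx0'.le]
          congr 1
          ring
      _ ≤ y ^ ε := Real.rpow_le_rpow (Real.rpow_nonneg hx0'.le _) hyh hε.le

end Pool.Agent.SplL

end

/-! ### from `Lib_MP_92ef0c_la.Prof4A` -/

section

/-!
# Many `n` with prescribed profiles of the four factors, preparations
-/

set_option autoImplicit false

namespace Pool.Agent.SplL

open Finset Pool.Agent.Spl Pool.Agent.SplB Pool.Agent.GaussMR Pool.Agent.OmAll Pool.Agent.OmEq Pool.Agent.LPr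
  MeasureTheory Filter

/-- left ends of the windows -/
noncomputable def vL (k : ℕ) (t : Fin k → ℝ) (δ ε : ℝ) (i : ℕ) : ℝ := if h : i < k then t ⟨i, h⟩ - δ else ε / 2

/-- right ends of the windows -/
noncomputable def vR (k : ℕ) (t : Fin k → ℝ) (i : ℕ) : ℝ := if h : i < k then t ⟨i, h⟩ else 2

/-- the numbers of prime factors -/
def vK (k : ℕ) (i : ℕ) : ℕ := if i < k then 1 else k

theorem v_iff (k : ℕ) (t : Fin k → ℝ) (δ ε x : ℝ) (n : ℕ) :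
    (∀ i < k + 1, wc x (vL k t δ ε i) (vR k t i) n = vK k i) ↔
      ((∀ i, wc x (t i - δ) (t i) n = 1) ∧ wc x (ε / 2) 2 n = k) := by
  constructor
  · intro h
    refine ⟨fun i => ?_, ?_⟩
    · have h1 := h i (by omega)
      unfold vL vR vK at h1
      rw [dif_pos i.2, dif_pos i.2, if_pos i.2] at h1
      exact h1
    · have h1 := h k (by omega)
      unfold vL vR vK at h1
      rw [dif_neg (lt_irrefl k), dif_neg (lt_irrefl k), if_neg (lt_irrefl k)] at h1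
      exact h1
  · rintro ⟨h1, h2⟩ i hi
    unfold vL vR vK
    by_cases h : i < k
    · rw [dif_pos h, dif_pos h, if_pos h]
      exact h1 ⟨i, h⟩
    · have h3 : i = k := by omega
      subst h3
      rw [dif_neg (lt_irrefl i), dif_neg (lt_irrefl i), if_neg (lt_irrefl i)]
      exact h2

theorem v_win (k : ℕ) (t : Fin k → ℝ) (δ ε : ℝ) (hδ : 0 ≤ δ) (hε : 0 < ε) (hε2 : ε ≤ 1) (h : ∀ i, δ < t i) :
    ∀ i < k + 1, 0 < vL k t δ ε i ∧ vL k t δ ε i ≤ vR k t i := by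
  intro i hi
  unfold vL vR
  by_cases h1 : i < k
  · rw [dif_pos h1, dif_pos h1]
    have := h ⟨i, h1⟩
    constructor <;> linarith
  · rw [dif_neg h1, dif_neg h1]
    constructor <;> linarith

/-- the root of `b c` -/
noncomputable def yr (e : Q4) : ℝ := Real.sqrt ((e.b * e.c : ℕ) : ℝ)

/-- the predicate on the factorisations -/
def PB4 (q : ℕ) (s kk : Fin 4 → ℕ) (t : (i : Fin 4) → Fin (kk i) → ℝ) (ε : ℝ) (e : Q4) : Prop :=
  ∀ i, ArithmeticFunction.cardFactors (ent i e) ≡ s i [MOD q] ∧ BigG (kk i) (t i) ε (yr e) (ent i e)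

/-- sizes of the entries -/
theorem size4 {h k n0 : ℕ} {α β γ δ x : ℝ} (hα : 0 < α) (hβ : 0 < β) (hγ : 0 < γ) (hδ : 0 < δ) {e : Q4}
    (he : e ∈ WS h k n0 α β γ δ x) : 1 ≤ yr e ∧ yr e ≤ Real.sqrt x ∧ ∀ i, ent i e ≠ 0 ∧ (ent i e : ℝ) ≤
      (1 + Real.sqrt ((1 + h) / α) + Real.sqrt (1 / γ) + Real.sqrt δ + Real.sqrt (β * (1 + h))) * yr e := by
  obtain ⟨⟨h1, h2, h3⟩, -, ⟨h4, h5⟩, h6, h7⟩ := he
  have hb0 : 0 < e.b := Nat.pos_of_ne_zero (by rintro h; rw [h, zero_mul] at h2; exact lt_irrefl _ h2)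
  have hc0 : 0 < e.c := Nat.pos_of_ne_zero (by rintro h; rw [h, mul_zero] at h2; exact lt_irrefl _ h2)
  have had : 0 < e.a * e.d := by omega
  have ha0 : 0 < e.a := Nat.pos_of_ne_zero (by rintro h; rw [h, zero_mul] at had; exact lt_irrefl _ had)
  have hd0 : 0 < e.d := Nat.pos_of_ne_zero (by rintro h; rw [h, mul_zero] at had; exact lt_irrefl _ had)
  have hn : (1 : ℝ) ≤ ((e.b * e.c : ℕ) : ℝ) := by exact_mod_cast h2
  have hn0 : (0 : ℝ) ≤ ((e.b * e.c : ℕ) : ℝ) := by linarith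
  have hadr : (e.a : ℝ) * e.d = ((e.b * e.c : ℕ) : ℝ) + h := by exact_mod_cast h1
  have hbcr : (e.b : ℝ) * e.c = ((e.b * e.c : ℕ) : ℝ) := by push_cast; ring
  have hh0 : (0 : ℝ) ≤ h := Nat.cast_nonneg h
  have had2 : (e.a : ℝ) * e.d ≤ (1 + h) * ((e.b * e.c : ℕ) : ℝ) := by
    rw [hadr]
    nlinarith
  have ha' : (0 : ℝ) < e.a := by exact_mod_cast ha0
  have hb' : (0 : ℝ) < e.b := by exact_mod_cast hb0
  have hc' : (0 : ℝ) < e.c := by exact_mod_cast hc0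
  have hd' : (0 : ℝ) < e.d := by exact_mod_cast hd0
  have hy1 : 1 ≤ yr e := by
    unfold yr
    rw [show (1 : ℝ) = Real.sqrt 1 by simp]
    exact Real.sqrt_le_sqrt hn
  have hy0 : 0 ≤ yr e := by linarith
  have key : ∀ (z w : ℝ), 0 ≤ z → 0 ≤ w → z ^ 2 ≤ w * ((e.b * e.c : ℕ) : ℝ) → z ≤ Real.sqrt w * yr e := by
    intro z w hz hw h8
    unfold yr
    rw [← Real.sqrt_mul hw]
    exact Real.le_sqrt_of_sq_le h8
  refine ⟨hy1, Real.sqrt_le_sqrt h3, fun i => ?_⟩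
  have s1 := Real.sqrt_nonneg ((1 + (h : ℝ)) / α)
  have s2 := Real.sqrt_nonneg (1 / γ)
  have s3 := Real.sqrt_nonneg δ
  have s4 := Real.sqrt_nonneg (β * (1 + h))
  have p1 := mul_nonneg s1 hy0
  have p2 := mul_nonneg s2 hy0
  have p3 := mul_nonneg s3 hy0
  have p4 := mul_nonneg s4 hy0
  have hexp : (1 + Real.sqrt ((1 + h) / α) + Real.sqrt (1 / γ) + Real.sqrt δ + Real.sqrt (β * (1 + h))) * yr e =
      yr e + Real.sqrt ((1 + h) / α) * yr e + Real.sqrt (1 / γ) * yr e + Real.sqrt δ * yr e +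
        Real.sqrt (β * (1 + h)) * yr e := by ring
  rw [hexp]
  fin_cases i
  · refine ⟨ha0.ne', ?_⟩
    have h8 : (e.a : ℝ) ^ 2 ≤ (1 + h) / α * ((e.b * e.c : ℕ) : ℝ) := by
      rw [div_mul_eq_mul_div, le_div_iff₀ hα]
      have : α * (e.a : ℝ) ^ 2 ≤ e.a * e.d := by nlinarith
      linarith
    have h9 := key e.a _ ha'.le (by positivity) h8
    show (e.a : ℝ) ≤ _
    linarith
  · refine ⟨hb0.ne', ?_⟩
    have h8 : (e.b : ℝ) ^ 2 ≤ 1 / γ * ((e.b * e.c : ℕ) : ℝ) := by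
      rw [div_mul_eq_mul_div, le_div_iff₀ hγ, ← hbcr]
      nlinarith
    have h9 := key e.b _ hb'.le (by positivity) h8
    show (e.b : ℝ) ≤ _
    linarith
  · refine ⟨hc0.ne', ?_⟩
    have h8 : (e.c : ℝ) ^ 2 ≤ δ * ((e.b * e.c : ℕ) : ℝ) := by
      rw [← hbcr]
      nlinarith
    have h9 := key e.c _ hc'.le hδ.le h8
    show (e.c : ℝ) ≤ _
    linarith
  · refine ⟨hd0.ne', ?_⟩
    have h8 : (e.d : ℝ) ^ 2 ≤ β * (1 + h) * ((e.b * e.c : ℕ) : ℝ) := by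
      have g1 : (e.d : ℝ) ^ 2 ≤ β * (e.a * e.d) := by nlinarith
      have g2 : β * ((e.a : ℝ) * e.d) ≤ β * ((1 + h) * ((e.b * e.c : ℕ) : ℝ)) := mul_le_mul_of_nonneg_left had2 hβ.le
      linarith
    have h9 := key e.d _ hd'.le (by positivity) h8
    show (e.d : ℝ) ≤ _
    linarith

theorem exists_lowF (k : ℕ) (t : Fin k → ℝ) (ht : ∀ i, 0 < t i) : ∃ μ : ℝ, 0 < μ ∧ ∀ i, μ ≤ t i := by
  rcases isEmpty_or_nonempty (Fin k) with h | h
  · exact ⟨1, one_pos, fun i => h.elim i⟩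
  · obtain ⟨i0, hi0⟩ := Finite.exists_min t
    exact ⟨t i0, ht i0, hi0⟩

/-- perturbation of the exponents -/
theorem pert4 (j : ℕ) (s : Fin j → ℝ) (hs0 : ∀ i, 0 < s i) (hsum : ∑ i, s i ≤ 1) (ε : ℝ) (hε : 0 < ε) (ν : ℝ) (hν : 0 < ν)
    (hνs : ∀ i, ν ≤ s i) (ε' : ℝ) (hε' : ε' ≤ ε / 2) (hεν : ε' ≤ ν / 2) :
    ∃ τ : Fin j → ℝ, Function.Injective τ ∧ (∀ i, ε' < τ i) ∧ ∑ i, τ i < 1 ∧
      ∀ (y : ℝ) (n : ℕ), 1 ≤ y → BigG j τ ε' y n → BigG j s ε y n := by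
  have hj : (0 : ℝ) < (j : ℝ) + 1 := by positivity
  obtain ⟨τ, hinj, hτ⟩ := pert j s hs0 (min (ε / (2 * (j + 1))) (ν / 4)) (lt_min (by positivity) (by linarith))
  refine ⟨τ, hinj, fun i => ?_, ?_, fun y n hy hB => ?_⟩
  · have h6 := (hτ i).2.2
    have h7 := hνs i
    have h8 : min (ε / (2 * (j + 1))) (ν / 4) ≤ ν / 4 := min_le_right _ _
    linarith
  · rcases Nat.eq_zero_or_pos j with h0 | h0
    · subst h0
      simp
    · refine lt_of_lt_of_le (sum_lt_sum_of_nonempty ⟨⟨0, h0⟩, mem_univ _⟩ fun i _ => (hτ i).2.1) hsum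
  · refine BigG.mono j s τ ε ε' (min (ε / (2 * (j + 1))) (ν / 4)) (fun i => (hτ i).2.1.le) (fun i => (hτ i).2.2.le)
      (le_min (by positivity) (by linarith)) ?_ y hy n hB
    have h9 : min (ε / (2 * (j + 1))) (ν / 4) ≤ ε / (2 * (j + 1)) := min_le_left _ _
    have h10 : ((j : ℝ) + 1) * min (ε / (2 * (j + 1))) (ν / 4) ≤ (j + 1) * (ε / (2 * (j + 1))) :=
      mul_le_mul_of_nonneg_left h9 hj.le
    have h11 : ((j : ℝ) + 1) * (ε / (2 * (j + 1))) = ε / 2 := by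
      field_simp
    linarith

end Pool.Agent.SplL

end
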