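import Pool.Agent.Lib_MP_92ef0c_m.M13
import Pool.Agent.Lib_MP_92ef0c_m.M30
import Pool.Agent.Lib_MP_92ef0c_m.M32

/-!
# MP_92ef0c_nt, split pairs: merged library part M33

Concatenation of smaller files (each in its own section), only to save build time.
-/

/-! ### from `Lib_MP_92ef0c_lb.NonPretU` -/

section

/-!
# Block B: non-pretentiousness and Halasz, uniform in the class
-/

set_option autoImplicit false

namespace Pool.Agent.SplB

open Finset Pool.Agent.Spl Pool.Agent.SplI MeasureTheory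

private theorem npu_pow (u : ℂ) (hu : ‖u‖ = 1) (n : ℕ) :
    1 - (u ^ n).re ≤ (n : ℝ) ^ 2 * (1 - u.re) := by
  have h := Pool.Agent.ECM.one_sub_prod_le (List.replicate n u) (by
    intro z hz
    rw [List.eq_of_mem_replicate hz]
    exact hu)
  rw [List.prod_replicate, List.length_replicate, List.map_replicate, List.sum_replicate,
    nsmul_eq_mul] at h
  calc 1 - (u ^ n).re ≤ (n : ℝ) * ((n : ℝ) * (1 - u.re)) := h
    _ = (n : ℝ) ^ 2 * (1 - u.re) := by ring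

private theorem npu_et_pow (t : ℝ) (p n : ℕ) : (et t p) ^ n = et (n * t) p := by
  unfold et
  rw [← Complex.exp_nat_mul]
  congr 1
  push_cast
  ring

private theorem npu_prime (z : ℂ) (M : ℕ) (χ : DirichletCharacter ℂ M) {p : ℕ} (hp : p.Prime) :
    fzc z M χ p = z * χ ((p : ℕ) : ZMod M) := by
  unfold fzc
  rw [ArithmeticFunction.cardFactors_apply_prime hp, pow_one]

private theorem npu_chi (M : ℕ) [NeZero M] (χ : DirichletCharacter ℂ M) {p : ℕ} (hp : p.Prime)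
    (hM : M < p) : (χ ((p : ℕ) : ZMod M)) ^ M.totient = 1 := by
  have hc : Nat.Coprime p M := by
    rw [Nat.Prime.coprime_iff_not_dvd hp]
    intro h
    have := Nat.le_of_dvd (NeZero.pos M) h
    omega
  have hu : IsUnit ((p : ℕ) : ZMod M) := (ZMod.isUnit_iff_coprime p M).2 hc
  obtain ⟨v, hv⟩ := hu
  rw [← hv, ← map_pow, ← Units.val_pow_eq_pow_val, ZMod.pow_totient, Units.val_one, map_one]

private theorem npu_Lr_nonneg (P Q : ℝ) : 0 ≤ Lr P Q := by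
  unfold Lr
  exact sum_nonneg fun p _ => by positivity

/-- `z χ(p)` is not close to `p ^ (i t)`, `|t| ≥ 1`, any root of unity `z` -/
theorem nonpret_big (hZS : ZsLogS) (q : ℕ) (hq : 0 < q) (z : ℂ) (hz : z ^ q = 1) (M : ℕ) [NeZero M] (χ : DirichletCharacter ℂ M) :
    ∃ c0 L0 : ℝ, 0 < c0 ∧ ∀ e' e : ℝ, 0 < e' → e' < e → e ≤ 1 → L0 ≤ Real.log (e / e') → ∃ S0 : ℝ, 0 < S0 ∧ ∀ S : ℝ, S0 ≤ S → ∀ t : ℝ,
    1 ≤ |t| → |t| ≤ Real.exp (4 * S) → c0 * Lr (Real.exp (e' * S)) (Real.exp (e * S)) ≤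
      ∑ p ∈ PrI (Real.exp (e' * S)) (Real.exp (e * S)), (1 - (fzc z M χ p * et t p).re) / (p : ℝ) := by
  classical
  have hznorm : ‖z‖ = 1 := Complex.norm_eq_one_of_pow_eq_one hz hq.ne'
  obtain ⟨c1, L1, hc1, hL1, hdef⟩ := def_range_i hZS
  set n : ℕ := q * M.totient with hn
  have hn0 : 0 < n := Nat.mul_pos hq (Nat.totient_pos.2 (NeZero.pos M))
  have hnr : (1 : ℝ) ≤ (n : ℝ) := by exact_mod_cast hn0
  have hn2 : (0 : ℝ) < (n : ℝ) ^ 2 := by positivity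
  refine ⟨c1 / (n : ℝ) ^ 2, L1, by positivity, fun e' e he' hee he1 hL => ?_⟩
  have he : 0 < e := he'.trans hee
  obtain ⟨S1, hS1, hdefS⟩ := hdef e' e he' hee he1 hL 5 (by norm_num)
  refine ⟨max S1 (max (2 / e') (max (Real.log n) (((M : ℝ) + 1) / e'))), ?_, fun S hS t ht1 ht => ?_⟩
  · exact lt_max_of_lt_left hS1
  have hSS1 : S1 ≤ S := (le_max_left _ _).trans hS
  have hS2 : 2 / e' ≤ S := (le_max_left _ _).trans ((le_max_right _ _).trans hS)
  have hS3 : Real.log n ≤ S :=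
    (le_max_left _ _).trans ((le_max_right _ _).trans ((le_max_right _ _).trans hS))
  have hS4 : ((M : ℝ) + 1) / e' ≤ S :=
    (le_max_right _ _).trans ((le_max_right _ _).trans ((le_max_right _ _).trans hS))
  have hS0 : 0 < S := hS1.trans_le hSS1
  have hPM : (M : ℝ) < Real.exp (e' * S) := by
    rw [div_le_iff₀ he'] at hS4
    have := Real.add_one_le_exp (e' * S)
    nlinarith
  set P := Real.exp (e' * S) with hP
  set Q := Real.exp (e * S) with hQ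
  have hτ1 : 1 ≤ |(n : ℝ) * t| := by
    rw [abs_mul, abs_of_nonneg (by linarith)]
    nlinarith
  have hτ2 : |(n : ℝ) * t| ≤ Real.exp (5 * S) := by
    rw [abs_mul, abs_of_nonneg (by linarith)]
    have h1 : (n : ℝ) ≤ Real.exp S := by
      rw [← Real.exp_log (show (0 : ℝ) < n by linarith)]
      exact Real.exp_le_exp.2 hS3
    calc (n : ℝ) * |t| ≤ Real.exp S * Real.exp (4 * S) :=
          mul_le_mul h1 ht (abs_nonneg _) (Real.exp_pos _).le
      _ = Real.exp (5 * S) := by rw [← Real.exp_add]; congr 1; ring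
  have h1 := hdefS S hSS1 ((n : ℝ) * t) hτ1 hτ2
  rw [← hP, ← hQ] at h1
  have h2 : ∑ p ∈ PrI P Q, (1 - (et ((n : ℝ) * t) p).re) / (p : ℝ) ≤
      (n : ℝ) ^ 2 * ∑ p ∈ PrI P Q, (1 - (fzc z M χ p * et t p).re) / (p : ℝ) := by
    rw [mul_sum]
    refine sum_le_sum fun p hp => ?_
    obtain ⟨hpp, hpP, -⟩ := mem_PrI.1 hp
    have hMp : M < p := by
      have : (M : ℝ) < (p : ℝ) := hPM.trans hpP
      exact_mod_cast this
    have hp0 : (0 : ℝ) < (p : ℝ) := by exact_mod_cast hpp.pos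
    have hchi := npu_chi M χ hpp hMp
    have hu1 : ‖fzc z M χ p * et t p‖ = 1 := by
      rw [npu_prime z M χ hpp, norm_mul, norm_mul, hznorm, norm_et, one_mul, mul_one]
      exact Complex.norm_eq_one_of_pow_eq_one hchi (Nat.totient_pos.2 (NeZero.pos M)).ne'
    have hu2 : (fzc z M χ p * et t p) ^ n = et ((n : ℝ) * t) p := by
      rw [mul_pow, npu_et_pow, npu_prime z M χ hpp, mul_pow, hn, pow_mul z q, hz, one_pow,
        one_mul, mul_comm q, pow_mul, hchi, one_pow, one_mul]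
    have h3 := npu_pow _ hu1 n
    rw [hu2] at h3
    rw [← mul_div_assoc]
    exact div_le_div_of_nonneg_right h3 hp0.le
  have h5 : c1 / (n : ℝ) ^ 2 * Lr P Q =
      (c1 * Lr P Q) / (n : ℝ) ^ 2 := by ring
  have h6 : (c1 * Lr P Q) / (n : ℝ) ^ 2 ≤
      ∑ p ∈ PrI P Q, (1 - (fzc z M χ p * et t p).re) / (p : ℝ) := by
    rw [div_le_iff₀ hn2]
    linarith
  linarith


theorem nonpret_any (hZS : ZsLogS) (q : ℕ) (hq : 0 < q) (z : ℂ) (hz : z ^ q = 1) (M : ℕ) [NeZero M] (χ : DirichletCharacter ℂ M) :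
    ∃ c0 L0 : ℝ, 0 < c0 ∧ ∀ e' e : ℝ, 0 < e' → e' < e → e ≤ 1 → L0 ≤ Real.log (e / e') → ∃ S0 : ℝ, 0 < S0 ∧ ∀ S : ℝ, S0 ≤ S → ∀ t : ℝ,
    (z = 1 → 1 ≤ |t|) → |t| ≤ Real.exp (4 * S) → c0 * Lr (Real.exp (e' * S)) (Real.exp (e * S)) ≤
      ∑ p ∈ PrI (Real.exp (e' * S)) (Real.exp (e * S)), (1 - (fzc z M χ p * et t p).re) / (p : ℝ) := by
  by_cases h : z = 1
  · obtain ⟨c0, L0, hc0, H⟩ := nonpret_big hZS q hq z hz M χ
    refine ⟨c0, L0, hc0, fun e' e h1 h2 h3 h4 => ?_⟩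
    obtain ⟨S0, hS0, H2⟩ := H e' e h1 h2 h3 h4
    exact ⟨S0, hS0, fun S hS t ht1 ht2 => H2 S hS t (ht1 h) ht2⟩
  · obtain ⟨c0, L0, hc0, H⟩ := nonpret_i hZS q hq z hz h M χ
    refine ⟨c0, L0, hc0, fun e' e h1 h2 h3 h4 => ?_⟩
    obtain ⟨S0, hS0, H2⟩ := H e' e h1 h2 h3 h4
    exact ⟨S0, hS0, fun S hS t _ ht2 => H2 S hS t ht2⟩

private theorem npu_term {f : ℕ → ℂ} (hf : ∀ n, ‖f n‖ ≤ 1) (t : ℝ) (p : ℕ) :
    0 ≤ (1 - (f p * et t p).re) / (p : ℝ) := by
  refine div_nonneg ?_ (Nat.cast_nonneg _)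
  have h1 : ‖f p * et t p‖ ≤ 1 := by
    rw [norm_mul, norm_et, mul_one]
    exact hf p
  have h2 := (Complex.abs_re_le_norm (f p * et t p)).trans h1
  have h3 := (abs_le.1 h2).2
  linarith

/-- the version uniform in the class -/
theorem nonpret_cls (hZS : ZsLogS) (q : ℕ) (hq : 0 < q) (z : ℂ) (hz : z ^ q = 1) (M : ℕ) [NeZero M] (χ : DirichletCharacter ℂ M)
    (P0 κ : ℝ) (hκ : 0 < κ) :
    ∃ c0 L0 : ℝ, 0 < c0 ∧ ∀ e' e : ℝ, 0 < e' → e' < e → e ≤ 1 → L0 ≤ Real.log (e / e') → ∃ S0 : ℝ, 0 < S0 ∧ ∀ S : ℝ, S0 ≤ S →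
    ∀ f : ℕ → ℂ, Cls z P0 κ (Real.exp S) f → ∀ t : ℝ,
    (z = 1 → 1 ≤ |t|) → |t| ≤ Real.exp (4 * S) → c0 * Lr (Real.exp (e' * S)) (Real.exp (e * S)) ≤
      ∑ p ∈ PrI (Real.exp (e' * S)) (Real.exp (e * S)), (1 - (tw f χ p * et t p).re) / (p : ℝ) := by
  classical
  obtain ⟨c0, L0, hc0, H⟩ := nonpret_any hZS q hq z hz M χ
  obtain ⟨C, hC, hLr⟩ := Lr_bounds
  set κ' : ℝ := min κ 1 with hκ'
  have hκ'0 : 0 < κ' := lt_min hκ one_pos
  have hκ'1 : κ' ≤ 1 := min_le_right _ _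
  have hκ'κ : κ' ≤ κ := min_le_left _ _
  set c : ℝ := -Real.log κ' with hc
  have hcn : 0 ≤ c := by
    rw [hc]
    have := Real.log_nonpos hκ'0.le hκ'1
    linarith
  refine ⟨c0 / 4, max (L0 + c) (max (2 * c + 2 * C) (c + 1)), by positivity, fun e' e he' hee he1 hL => ?_⟩
  have hL1 : L0 + c ≤ Real.log (e / e') := (le_max_left _ _).trans hL
  have hL2 : 2 * c + 2 * C ≤ Real.log (e / e') := ((le_max_left _ _).trans (le_max_right _ _)).trans hL
  have hL3 : c + 1 ≤ Real.log (e / e') := ((le_max_right _ _).trans (le_max_right _ _)).trans hL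
  have he : 0 < e := he'.trans hee
  set e2 : ℝ := e * κ' with he2
  have he20 : 0 < e2 := by positivity
  have he2e : e2 ≤ e := by rw [he2]; nlinarith
  have he2κ : e2 ≤ κ := by
    rw [he2]
    have : e * κ' ≤ 1 * κ' := mul_le_mul_of_nonneg_right he1 hκ'0.le
    linarith
  have hlog2 : Real.log (e2 / e') = Real.log (e / e') - c := by
    rw [he2, hc, Real.log_div (by positivity) he'.ne', Real.log_div he.ne' he'.ne',
      Real.log_mul he.ne' hκ'0.ne']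
    ring
  have hee2 : e' < e2 := by
    have h1 : 0 < Real.log (e2 / e') := by rw [hlog2]; linarith
    have h2 : 1 < e2 / e' := by
      by_contra h
      push Not at h
      have := Real.log_nonpos (by positivity) h
      linarith
    rwa [lt_div_iff₀ he', one_mul] at h2
  obtain ⟨S1, hS1, H2⟩ := H e' e2 he' hee2 (he2e.trans he1) (by rw [hlog2]; linarith)
  refine ⟨max S1 (max (1 / e') (|P0| / e')), lt_max_of_lt_left hS1, fun S hS f hf t ht1 ht2 => ?_⟩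
  have hSS1 : S1 ≤ S := (le_max_left _ _).trans hS
  have hS2 : 1 / e' ≤ S := ((le_max_left _ _).trans (le_max_right _ _)).trans hS
  have hS3 : |P0| / e' ≤ S := ((le_max_right _ _).trans (le_max_right _ _)).trans hS
  have hS0 : 0 < S := hS1.trans_le hSS1
  rw [div_le_iff₀ he'] at hS2 hS3
  have hexp := Real.add_one_le_exp (e' * S)
  have hP2 : 2 ≤ Real.exp (e' * S) := by nlinarith
  have hP0 : P0 ≤ Real.exp (e' * S) := by
    have := le_abs_self P0
    nlinarith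
  have hPQ : Real.exp (e' * S) ≤ Real.exp (e * S) :=
    Real.exp_le_exp.2 (mul_le_mul_of_nonneg_right hee.le hS0.le)
  have hPQ2 : Real.exp (e' * S) ≤ Real.exp (e2 * S) :=
    Real.exp_le_exp.2 (mul_le_mul_of_nonneg_right hee2.le hS0.le)
  have hQ2Q : Real.exp (e2 * S) ≤ Real.exp (e * S) :=
    Real.exp_le_exp.2 (mul_le_mul_of_nonneg_right he2e hS0.le)
  have hQκ : Real.exp (e2 * S) ≤ Real.exp S ^ κ := by
    rw [← Real.exp_mul, mul_comm S κ]
    exact Real.exp_le_exp.2 (mul_le_mul_of_nonneg_right he2κ hS0.le)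
  have hlog : ∀ a : ℝ, 0 < a → Real.log (Real.log (Real.exp (a * S))) - Real.log (Real.log (Real.exp (e' * S)))
      = Real.log (a / e') := by
    intro a ha
    rw [Real.log_exp, Real.log_exp, Real.log_mul ha.ne' hS0.ne',
      Real.log_mul he'.ne' hS0.ne', Real.log_div ha.ne' he'.ne']
    ring
  have hb1 := (abs_le.1 (hLr _ _ hP2 hPQ)).2
  have hb2 := (abs_le.1 (hLr _ _ hP2 hPQ2)).1
  rw [hlog e he] at hb1
  rw [hlog e2 he20, hlog2] at hb2
  have h1 := H2 S hSS1 t ht1 ht2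
  have h2 : ∑ p ∈ PrI (Real.exp (e' * S)) (Real.exp (e2 * S)), (1 - (fzc z M χ p * et t p).re) / (p : ℝ) =
      ∑ p ∈ PrI (Real.exp (e' * S)) (Real.exp (e2 * S)), (1 - (tw f χ p * et t p).re) / (p : ℝ) := by
    refine sum_congr rfl fun p hp => ?_
    obtain ⟨hpp, h3, h4⟩ := mem_PrI.1 hp
    rw [npu_prime z M χ hpp]
    unfold tw
    rw [hf.pr p hpp (hP0.trans_lt h3) (h4.trans hQκ)]
  have h3 : ∑ p ∈ PrI (Real.exp (e' * S)) (Real.exp (e2 * S)), (1 - (tw f χ p * et t p).re) / (p : ℝ) ≤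
      ∑ p ∈ PrI (Real.exp (e' * S)) (Real.exp (e * S)), (1 - (tw f χ p * et t p).re) / (p : ℝ) := by
    refine sum_le_sum_of_subset_of_nonneg ?_ fun p _ _ => npu_term (cf_tw hf.cf χ).le t p
    intro p hp
    rw [mem_PrI] at hp ⊢
    exact ⟨hp.1, hp.2.1, hp.2.2.trans hQ2Q⟩
  have h4 : Lr (Real.exp (e' * S)) (Real.exp (e * S)) / 4 ≤ Lr (Real.exp (e' * S)) (Real.exp (e2 * S)) := by
    linarith
  calc c0 / 4 * Lr (Real.exp (e' * S)) (Real.exp (e * S)) =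
        c0 * (Lr (Real.exp (e' * S)) (Real.exp (e * S)) / 4) := by ring
    _ ≤ c0 * Lr (Real.exp (e' * S)) (Real.exp (e2 * S)) := mul_le_mul_of_nonneg_left h4 hc0.le
    _ ≤ _ := h1
    _ = _ := h2
    _ ≤ _ := h3

/-- pointwise bound, uniform in the class -/
theorem ptw_u' (hZS : ZsLogS) (q : ℕ) (hq : 0 < q) (z : ℂ) (hz : z ^ q = 1) (M : ℕ) [NeZero M] (χ : DirichletCharacter ℂ M)
    (P0 κ : ℝ) (hκ : 0 < κ) (ε : ℝ) (hε : 0 < ε) :
    ∃ N0 T1 : ℝ, 1 < N0 ∧ 0 < T1 ∧ ∀ N : ℝ, N0 ≤ N → ∀ f : ℕ → ℂ, Cls z P0 κ N f → ∀ t : ℝ, |t| ≤ N ^ 3 →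
      (z = 1 → T1 ≤ |t|) → ‖∑ n ∈ Icc 1 ⌊N⌋₊, tw f χ n * et t n‖ ≤ ε * N := by
  obtain ⟨c0, L0, hc0, H⟩ := nonpret_cls hZS q hq z hz M χ P0 κ hκ
  obtain ⟨T0, e, e', S0, hT0, he', hee, he4, hL, hS0, K⟩ := halasz_i c0 ε L0 hc0 hε
  obtain ⟨S1, hS1, H1⟩ := H e' e he' hee (by linarith) hL
  refine ⟨max (2 + T0) (max (Real.exp S0) (Real.exp S1)), T0 + 1, lt_max_of_lt_left (by linarith), by linarith,
    fun N hN f hf t ht ht1 => ?_⟩
  have hN1 : 2 + T0 ≤ N := (le_max_left _ _).trans hN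
  have hN2 : Real.exp S0 ≤ N := (le_max_left _ _).trans ((le_max_right _ _).trans hN)
  have hN3 : Real.exp S1 ≤ N := (le_max_right _ _).trans ((le_max_right _ _).trans hN)
  have hN0 : 0 < N := by linarith
  have hS0N : S0 ≤ Real.log N := (Real.le_log_iff_exp_le hN0).2 hN2
  have hS1N : S1 ≤ Real.log N := (Real.le_log_iff_exp_le hN0).2 hN3
  have hexp4 : Real.exp (4 * Real.log N) = N ^ 4 := by
    rw [show (4 : ℝ) * Real.log N = Real.log (N ^ 4) by rw [Real.log_pow]; norm_num]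
    exact Real.exp_log (by positivity)
  have hN34 : N ^ 3 + T0 ≤ N ^ 4 := by
    have h1 : (1 : ℝ) ≤ N ^ 3 := one_le_pow₀ (by linarith)
    have h2 : N ^ 4 - N ^ 3 = N ^ 3 * (N - 1) := by ring
    nlinarith
  have h := K (Real.log N) hS0N (fun n => tw f χ n * et t n) (cf_et (cf_tw hf.cf χ) t) (by
    intro y hy
    have hty : |t + y| ≤ Real.exp (4 * Real.log N) := by
      rw [hexp4]
      exact (abs_add_le t y).trans (by linarith)
    have h1 := H1 (Real.log N) hS1N f (by rw [Real.exp_log hN0]; exact hf) (t + y) (by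
      intro hz1
      have h3 := ht1 hz1
      have h4 : |t| ≤ |t + y| + |y| := by
        have := abs_sub (t + y) y
        rwa [add_sub_cancel_right] at this
      linarith) hty
    refine h1.trans (le_of_eq (sum_congr rfl fun p _ => ?_))
    rw [et_add, mul_assoc])
  unfold Ai Sf at h
  rw [Real.exp_log hN0, norm_mul, Complex.norm_real, Real.norm_of_nonneg (Real.exp_pos _).le,
    Real.exp_neg, Real.exp_log hN0] at h
  rw [inv_mul_le_iff₀ hN0] at h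
  linarith

end Pool.Agent.SplB

end

/-! ### from `Lib_MP_92ef0c_lb.PtwF` -/

section

/-!
# Block B: pointwise bounds, final form
-/

set_option autoImplicit false

namespace Pool.Agent.SplB

open Finset Pool.Agent.Spl Pool.Agent.SplI MeasureTheory

theorem ptw_u (q : ℕ) (hq : 0 < q) (z : ℂ) (hz : z ^ q = 1) (M : ℕ) [NeZero M] (χ : DirichletCharacter ℂ M)
    (P0 κ : ℝ) (hκ : 0 < κ) (ε : ℝ) (hε : 0 < ε) :
    ∃ N0 T1 : ℝ, 1 < N0 ∧ 0 < T1 ∧ ∀ N : ℝ, N0 ≤ N → ∀ f : ℕ → ℂ, Cls z P0 κ N f → ∀ t : ℝ, |t| ≤ N ^ 3 →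
      (z = 1 → T1 ≤ |t|) → ‖∑ n ∈ Icc 1 ⌊N⌋₊, tw f χ n * et t n‖ ≤ ε * N :=
  ptw_u' zs_log q hq z hz M χ P0 κ hκ ε hε

end Pool.Agent.SplB

end

/-! ### from `Lib_MP_92ef0c_lb.MVal3` -/

section

/-!
# Block B: mean values for all roots of unity, low frequencies
-/

set_option autoImplicit false

namespace Pool.Agent.SplB

open Finset Pool.Agent.Spl Pool.Agent.SplI MeasureTheory Filter

variable {Q : ℕ} {f : ℝ → ℕ → ℂ}

/-- mean values with characters, `z ≠ 1` -/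
theorem mv_ne (q : ℕ) (hq : 0 < q) (hQ : 0 < Q) {z : ℂ} (hz : z ^ q = 1) (hz1 : z ≠ 1) (hf : FS Q z f) {W : ℕ} [NeZero W]
    (χ : DirichletCharacter ℂ W) (K η : ℝ)
    (hK : 1 ≤ K) (hη : 0 < η) : ∀ᶠ Y : ℝ in atTop, ∀ N : ℕ, Real.sqrt Y / K ≤ N → (N : ℝ) ≤ K * Real.sqrt Y →
    ‖∑ n ∈ Icc 1 N, tw (f Y) χ n‖ ≤ η * Real.sqrt Y := by
  have hK0 : 0 < K := by linarith
  obtain ⟨κ, hκ, hκ1, hcls⟩ := hf.cls hQ
  obtain ⟨N0, T1, hN0, hT1, h⟩ := ptw_u q hq z hz W χ Q κ hκ (η / K) (by positivity)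
  filter_upwards [eventually_ge_atTop 1, sqrt_atTop.eventually (eventually_ge_atTop (max K (K * N0)))] with Y hY1 hY2 N hN1 hN2
  have hY0 : 0 < Y := by linarith
  have ha : K ≤ Real.sqrt Y := (le_max_left _ _).trans hY2
  have hb : K * N0 ≤ Real.sqrt Y := (le_max_right _ _).trans hY2
  have hNN0 : N0 ≤ N := by
    refine le_trans ?_ hN1
    rw [le_div_iff₀ hK0]
    linarith
  have hNY : (N : ℝ) ≤ Y := by
    refine hN2.trans ?_
    have := Real.mul_self_sqrt hY0.le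
    nlinarith
  have h1 := h N hNN0 (f Y) ((hcls Y hY1).2 N (by linarith) hNY) 0 (by rw [abs_zero]; positivity) (fun h => absurd h hz1)
  rw [Nat.floor_natCast] at h1
  have h2 : ∑ n ∈ Icc 1 N, tw (f Y) χ n * et 0 n = ∑ n ∈ Icc 1 N, tw (f Y) χ n := by
    refine sum_congr rfl fun n _ => ?_
    unfold et
    simp
  rw [h2] at h1
  refine h1.trans ?_
  calc η / K * N ≤ η / K * (K * Real.sqrt Y) := mul_le_mul_of_nonneg_left hN2 (by positivity)
    _ = η * Real.sqrt Y := by field_simp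

/-- the mean values tend to zero if `z ≠ 1` -/
theorem mf_zero' (q : ℕ) (hq : 0 < q) (hQ : 0 < Q) {z : ℂ} (hz : z ^ q = 1) (hz1 : z ≠ 1) (hf : FS Q z f) :
    Tendsto (mf Q f) atTop (nhds 0) := by
  have hQn : NeZero Q := ⟨hQ.ne'⟩
  rw [Metric.tendsto_atTop']
  intro ε hε
  obtain ⟨c, hc, hlow⟩ := f00_low hQ
  have h := mv_ne q hq hQ hz hz1 hf (1 : DirichletCharacter ℂ Q) 2 (c * ε / 2) (by norm_num) (by positivity)
  obtain ⟨Y0, hY0⟩ := eventually_atTop.1 (hlow.and (h.and (sqrt_atTop.eventually (eventually_ge_atTop 2))))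
  refine ⟨Y0, fun Y hY => ?_⟩
  obtain ⟨h1, h2, h3⟩ := hY0 Y hY.le
  rw [dist_zero_right]
  have hfl := Nat.floor_le (show 0 ≤ Real.sqrt Y by linarith)
  have hfl2 := Nat.lt_floor_add_one (Real.sqrt Y)
  have h4 := h2 ⌊Real.sqrt Y⌋₊ (by linarith) (by linarith)
  have hf1 : ∑ n ∈ Icc 1 ⌊Real.sqrt Y⌋₊, tw (f Y) (1 : DirichletCharacter ℂ Q) n = ∑ n ∈ Icc 1 ⌊Real.sqrt Y⌋₊, f Y n :=
    sum_congr rfl fun n _ => tw_one hf Y n
  rw [hf1] at h4
  have hp : 0 < c * Real.sqrt Y := by positivity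
  unfold mf
  rw [norm_div, div_lt_iff₀ (lt_of_lt_of_le hp h1)]
  refine lt_of_le_of_lt h4 ?_
  have h5 : ε * (c * Real.sqrt Y) ≤ ε * ‖∑ n ∈ Icc 1 ⌊Real.sqrt Y⌋₊, f00 Q n‖ := mul_le_mul_of_nonneg_left h1 hε.le
  nlinarith

theorem mz_le {z : ℂ} (hf : FS Q z f) (Y : ℝ) : ‖mz Q z f Y‖ ≤ 1 := by
  unfold mz
  split_ifs
  · exact mf_le_one hf Y
  · simp

/-- centred mean values with characters -/
theorem mv_all (q : ℕ) (hq : 0 < q) (hQ : 0 < Q) {z : ℂ} (hz : z ^ q = 1) (hf : FS Q z f) {W : ℕ} [NeZero W]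
    (hQW : Q ∣ W) (χ : DirichletCharacter ℂ W) (K η : ℝ)
    (hK : 1 ≤ K) (hη : 0 < η) : ∀ᶠ Y : ℝ in atTop, ∀ N : ℕ, Real.sqrt Y / K ≤ N → (N : ℝ) ≤ K * Real.sqrt Y →
    ‖∑ n ∈ Icc 1 N, (tw (f Y) χ n - mz Q z f Y * χ (n : ZMod W))‖ ≤ η * Real.sqrt Y := by
  by_cases h : z = 1
  · subst h
    filter_upwards [mv_one hQ hf hQW χ K η hK hη] with Y hY N hN1 hN2
    have h1 : mz Q 1 f Y = mf Q f Y := by
      unfold mz
      rw [if_pos rfl]
    rw [h1]
    exact hY N hN1 hN2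
  · filter_upwards [mv_ne q hq hQ hz h hf χ K η hK hη] with Y hY N hN1 hN2
    have h1 : mz Q z f Y = 0 := by
      unfold mz
      rw [if_neg h]
    simp only [h1, zero_mul, sub_zero]
    exact hY N hN1 hN2

/-! ### partial summation -/

private theorem ps_et (t : ℝ) {n : ℕ} (hn : 1 ≤ n) : ‖et t (n + 1) - et t n‖ ≤ |t| / n := by
  have hn0 : (0 : ℝ) < n := by exact_mod_cast hn
  unfold et
  have e1 : Complex.exp (-((t * Real.log ((n + 1 : ℕ) : ℝ) : ℝ) : ℂ) * Complex.I) -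
      Complex.exp (-((t * Real.log n : ℝ) : ℂ) * Complex.I) =
      Complex.exp (((-(t * Real.log n) : ℝ) : ℂ) * Complex.I) *
        (Complex.exp (Complex.I * ((-(t * (Real.log ((n + 1 : ℕ) : ℝ) - Real.log n)) : ℝ) : ℂ)) - 1) := by
    rw [mul_sub, mul_one, ← Complex.exp_add]
    congr 2
    · push_cast
      ring
    · push_cast
      ring
  rw [e1, norm_mul, Complex.norm_exp_ofReal_mul_I, one_mul]
  refine (Real.norm_exp_I_mul_ofReal_sub_one_le).trans ?_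
  rw [Real.norm_eq_abs, abs_neg, abs_mul, div_eq_mul_inv]
  refine mul_le_mul_of_nonneg_left ?_ (abs_nonneg _)
  have h1 : Real.log ((n + 1 : ℕ) : ℝ) - Real.log n = Real.log (1 + (n : ℝ)⁻¹) := by
    rw [← Real.log_div (by positivity) hn0.ne']
    congr 1
    push_cast
    field_simp
  rw [h1]
  have h2 : 0 ≤ (n : ℝ)⁻¹ := by positivity
  have h3 := Real.log_le_sub_one_of_pos (show 0 < 1 + (n : ℝ)⁻¹ by positivity)
  have h4 := Real.log_nonneg (show 1 ≤ 1 + (n : ℝ)⁻¹ by linarith)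
  rw [abs_of_nonneg h4]
  linarith

private theorem ps_abel (a : ℕ → ℂ) (t : ℝ) (N : ℕ) :
    ∑ n ∈ Icc 1 (N + 1), a n * et t n = (∑ n ∈ Icc 1 (N + 1), a n) * et t (N + 1) -
      ∑ n ∈ Icc 1 N, (∑ k ∈ Icc 1 n, a k) * (et t (n + 1) - et t n) := by
  induction N with
  | zero => simp
  | succ N ih =>
    rw [sum_Icc_succ_top (by omega), ih, sum_Icc_succ_top (show 1 ≤ N + 1 + 1 by omega) a,
      sum_Icc_succ_top (show 1 ≤ N + 1 by omega) (fun n => (∑ k ∈ Icc 1 n, a k) * (et t (n + 1) - et t n))]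
    ring

/-- partial summation -/
theorem abel (a : ℕ → ℂ) (ha : ∀ n, 1 ≤ n → ‖a n‖ ≤ 2) (V η β : ℝ) (hV : 0 < V) (hη : 0 < η) (hβ : 0 ≤ β)
    (hA : ∀ n : ℕ, η * V ≤ n → (n : ℝ) ≤ V → ‖∑ k ∈ Icc 1 n, a k‖ ≤ β * V) (N : ℕ) (hN1 : η * V ≤ N) (hN2 : (N : ℝ) ≤ V)
    (t : ℝ) : ‖∑ n ∈ Icc 1 N, a n * et t n‖ ≤ (β + |t| * (2 * η + β / η)) * V := by
  have hNp : (0 : ℝ) < N := lt_of_lt_of_le (by positivity) hN1
  obtain ⟨M, rfl⟩ : ∃ M, N = M + 1 := ⟨N - 1, by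
    have : 0 < N := by exact_mod_cast hNp
    omega⟩
  rw [ps_abel]
  refine (norm_sub_le _ _).trans ?_
  rw [norm_mul, norm_et, mul_one]
  have h1 := hA (M + 1) hN1 hN2
  have hAt : ∀ n : ℕ, ‖∑ k ∈ Icc 1 n, a k‖ ≤ 2 * n := by
    intro n
    refine (norm_sum_le _ _).trans ?_
    calc ∑ k ∈ Icc 1 n, ‖a k‖ ≤ ∑ _k ∈ Icc 1 n, (2 : ℝ) := sum_le_sum fun k hk => ha k (mem_Icc.1 hk).1
      _ = 2 * n := by simp [mul_comm]
  have h2 : ‖∑ n ∈ Icc 1 M, (∑ k ∈ Icc 1 n, a k) * (et t (n + 1) - et t n)‖ ≤ |t| * (2 * η + β / η) * V := by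
    refine (norm_sum_le _ _).trans ?_
    have h3 : ∀ n ∈ Icc 1 M, ‖(∑ k ∈ Icc 1 n, a k) * (et t (n + 1) - et t n)‖ ≤
        (if (n : ℝ) < η * V then |t| * 2 else 0) + |t| * (β / η) * (V / V) * 1 := by
      intro n hn
      rw [mem_Icc] at hn
      have hn0 : (0 : ℝ) < n := by exact_mod_cast hn.1
      rw [norm_mul]
      have h4 := ps_et t hn.1
      have hVV : V / V = 1 := div_self hV.ne'
      rw [hVV]
      split_ifs with h5
      · have h6 : ‖∑ k ∈ Icc 1 n, a k‖ * ‖et t (n + 1) - et t n‖ ≤ 2 * n * (|t| / n) :=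
          mul_le_mul (hAt n) h4 (norm_nonneg _) (by positivity)
        have h7 : 2 * (n : ℝ) * (|t| / n) = |t| * 2 := by field_simp
        have h8 : 0 ≤ |t| * (β / η) * 1 * 1 := by positivity
        linarith
      · have h6 := hA n (not_lt.1 h5) (by
          have : (n : ℝ) ≤ M + 1 := by
            have : n ≤ M + 1 := by omega
            exact_mod_cast this
          push_cast at hN2
          linarith)
        have h7 : ‖∑ k ∈ Icc 1 n, a k‖ * ‖et t (n + 1) - et t n‖ ≤ β * V * (|t| / n) :=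
          mul_le_mul h6 h4 (norm_nonneg _) (by positivity)
        have h8 : β * V * (|t| / n) ≤ |t| * (β / η) * 1 * 1 := by
          rw [mul_one, mul_one]
          have h9 : V / n ≤ 1 / η := by
            rw [div_le_div_iff₀ hn0 hη]
            have := not_lt.1 h5
            linarith
          calc β * V * (|t| / n) = β * |t| * (V / n) := by ring
            _ ≤ β * |t| * (1 / η) := mul_le_mul_of_nonneg_left h9 (by positivity)
            _ = |t| * (β / η) := by ring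
        linarith
    refine (sum_le_sum h3).trans ?_
    rw [sum_add_distrib, ← sum_filter, sum_const, sum_const, nsmul_eq_mul, nsmul_eq_mul, Nat.card_Icc]
    have h4 : (((Icc 1 M).filter (fun n : ℕ => (n : ℝ) < η * V)).card : ℝ) ≤ η * V := by
      have h5 : (Icc 1 M).filter (fun n : ℕ => (n : ℝ) < η * V) ⊆ Icc 1 ⌊η * V⌋₊ := by
        intro n hn
        rw [mem_filter, mem_Icc] at hn
        rw [mem_Icc]
        exact ⟨hn.1.1, Nat.le_floor hn.2.le⟩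
      have h6 := card_le_card h5
      rw [Nat.card_Icc] at h6
      have h7 : (((Icc 1 M).filter (fun n : ℕ => (n : ℝ) < η * V)).card : ℝ) ≤ ⌊η * V⌋₊ := by
        exact_mod_cast (by omega : ((Icc 1 M).filter (fun n : ℕ => (n : ℝ) < η * V)).card ≤ ⌊η * V⌋₊)
      exact h7.trans (Nat.floor_le (by positivity))
    have h8 : ((M + 1 - 1 : ℕ) : ℝ) ≤ V := by
      have : ((M + 1 - 1 : ℕ) : ℝ) ≤ ((M + 1 : ℕ) : ℝ) := by exact_mod_cast Nat.sub_le _ _
      exact this.trans hN2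
    have hVV : V / V = 1 := div_self hV.ne'
    rw [hVV, mul_one, mul_one]
    have h9 : (((Icc 1 M).filter (fun n : ℕ => (n : ℝ) < η * V)).card : ℝ) * (|t| * 2) ≤ η * V * (|t| * 2) :=
      mul_le_mul_of_nonneg_right h4 (by positivity)
    have h10 : ((M + 1 - 1 : ℕ) : ℝ) * (|t| * (β / η)) ≤ V * (|t| * (β / η)) :=
      mul_le_mul_of_nonneg_right h8 (by positivity)
    calc _ ≤ η * V * (|t| * 2) + V * (|t| * (β / η)) := add_le_add h9 h10
      _ = |t| * (2 * η + β / η) * V := by ring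
  calc _ ≤ β * V + |t| * (2 * η + β / η) * V := add_le_add h1 h2
    _ = _ := by ring

/-- low frequencies, one variable -/
theorem low_one (q : ℕ) (hq : 0 < q) (hQ : 0 < Q) {z : ℂ} (hz : z ^ q = 1) (hf : FS Q z f) {W : ℕ} [NeZero W]
    (hQW : Q ∣ W) (χ : DirichletCharacter ℂ W) (K T2 ε : ℝ) (hT2 : 0 ≤ T2)
    (hK : 1 ≤ K) (hε : 0 < ε) : ∀ᶠ Y : ℝ in atTop, ∀ N : ℕ, Real.sqrt Y / K ≤ N → (N : ℝ) ≤ K * Real.sqrt Y →
    ∀ t : ℝ, |t| ≤ T2 →
    ‖∑ n ∈ Icc 1 N, (tw (f Y) χ n - mz Q z f Y * χ (n : ZMod W)) * et t n‖ ≤ ε * Real.sqrt Y := by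
  have hK0 : 0 < K := by linarith
  obtain ⟨η, hη⟩ : ∃ η, η = min (ε / (8 * K * (T2 + 1))) (1 / K ^ 2) := ⟨_, rfl⟩
  have hη0 : 0 < η := by
    rw [hη]
    exact lt_min (by positivity) (by positivity)
  have hη1 : η * (8 * K * (T2 + 1)) ≤ ε := by
    have : η ≤ ε / (8 * K * (T2 + 1)) := by rw [hη]; exact min_le_left _ _
    rwa [le_div_iff₀ (by positivity)] at this
  have hη2 : η * K ^ 2 ≤ 1 := by
    have : η ≤ 1 / K ^ 2 := by rw [hη]; exact min_le_right _ _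
    rwa [le_div_iff₀ (by positivity)] at this
  obtain ⟨β, hβ⟩ : ∃ β, β = min (ε / (4 * K)) (ε * η / (4 * K * (T2 + 1))) := ⟨_, rfl⟩
  have hβ0 : 0 < β := by
    rw [hβ]
    exact lt_min (by positivity) (by positivity)
  have hβ1 : β * (4 * K) ≤ ε := by
    have : β ≤ ε / (4 * K) := by rw [hβ]; exact min_le_left _ _
    rwa [le_div_iff₀ (by positivity)] at this
  have hβ2 : β * (4 * K * (T2 + 1)) ≤ ε * η := by
    have : β ≤ ε * η / (4 * K * (T2 + 1)) := by rw [hβ]; exact min_le_right _ _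
    rwa [le_div_iff₀ (by positivity)] at this
  obtain ⟨K', hK'⟩ : ∃ K', K' = max K (1 / (η * K)) := ⟨_, rfl⟩
  have hKK' : K ≤ K' := by rw [hK']; exact le_max_left _ _
  have hK'2 : 1 / (η * K) ≤ K' := by rw [hK']; exact le_max_right _ _
  have hK'1 : 1 ≤ K' := hK.trans hKK'
  filter_upwards [mv_all q hq hQ hz hf hQW χ K' (β * K) hK'1 (by positivity),
    sqrt_atTop.eventually (eventually_ge_atTop 1)] with Y hY hs N hN1 hN2 t ht
  have hV : 0 < K * Real.sqrt Y := by positivity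
  have h1 := abel (fun n => tw (f Y) χ n - mz Q z f Y * χ (n : ZMod W)) (fun n _ => by
    refine (norm_sub_le _ _).trans ?_
    rw [norm_mul]
    have h2 := (cf_tw (hf.cf Y) χ).le n
    have h3 : ‖mz Q z f Y‖ * ‖χ (n : ZMod W)‖ ≤ 1 * 1 :=
      mul_le_mul (mz_le hf Y) (χ.norm_le_one _) (norm_nonneg _) zero_le_one
    linarith) (K * Real.sqrt Y) η β hV hη0 hβ0.le (fun n hn1 hn2 => by
    have h2 : Real.sqrt Y / K' ≤ n := by
      refine le_trans ?_ hn1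
      rw [div_le_iff₀ (by linarith)]
      rw [div_le_iff₀ (by positivity)] at hK'2
      calc Real.sqrt Y = 1 * Real.sqrt Y := (one_mul _).symm
        _ ≤ (K' * (η * K)) * Real.sqrt Y := mul_le_mul_of_nonneg_right hK'2 (by linarith)
        _ = η * (K * Real.sqrt Y) * K' := by ring
    have h3 : (n : ℝ) ≤ K' * Real.sqrt Y := hn2.trans (mul_le_mul_of_nonneg_right hKK' (by linarith))
    have h4 := hY n h2 h3
    refine h4.trans (le_of_eq (by ring))) N (by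
      refine le_trans ?_ hN1
      rw [le_div_iff₀ hK0]
      calc η * (K * Real.sqrt Y) * K = (η * K ^ 2) * Real.sqrt Y := by ring
        _ ≤ 1 * Real.sqrt Y := mul_le_mul_of_nonneg_right hη2 (by linarith)
        _ = Real.sqrt Y := one_mul _) hN2 t
  refine h1.trans ?_
  have h5 : (β + |t| * (2 * η + β / η)) * (K * Real.sqrt Y) ≤ (β + T2 * (2 * η + β / η)) * (K * Real.sqrt Y) := by
    gcongr
  refine h5.trans ?_
  have h6 : (β + T2 * (2 * η + β / η)) * K ≤ ε := by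
    have e1 : β * K ≤ ε / 4 := by linarith
    have e2 : T2 * (2 * η) * K ≤ ε / 4 := by
      have : T2 * (2 * η) * K ≤ (T2 + 1) * (2 * η) * K := by gcongr; linarith
      nlinarith
    have e3 : T2 * (β / η) * K ≤ ε / 4 := by
      have : T2 * (β / η) * K ≤ (T2 + 1) * (β / η) * K := by gcongr; linarith
      refine this.trans ?_
      have e4 : (T2 + 1) * (β / η) * K = (β * (4 * K * (T2 + 1))) / (4 * η) := by field_simp
      rw [e4, div_le_iff₀ (by positivity)]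
      linarith
    nlinarith
  calc (β + T2 * (2 * η + β / η)) * (K * Real.sqrt Y) = ((β + T2 * (2 * η + β / η)) * K) * Real.sqrt Y := by ring
    _ ≤ ε * Real.sqrt Y := mul_le_mul_of_nonneg_right h6 (by linarith)

end Pool.Agent.SplB

end

/-! ### from `Lib_MP_92ef0c_lb.LowP` -/

section

/-!
# Block B: low frequencies, pairs
-/

set_option autoImplicit false

namespace Pool.Agent.SplB

open Finset Pool.Agent.Spl Pool.Agent.SplI MeasureTheory Filter

variable {Q : ℕ}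

/-- two completely multiplicative functions which agree at the primes up to `K` agree up to `K` -/
theorem cf_agree {f g : ℕ → ℂ} (hf : CF f) (hg : CF g) (K : ℕ) (h : ∀ p : ℕ, p.Prime → p ≤ K → f p = g p) (k : ℕ)
    (hk1 : 1 ≤ k) (hk : k ≤ K) : f k = g k := by
  induction k using Nat.strong_induction_on with
  | _ k ih =>
    by_cases h1 : k = 1
    · subst h1
      rw [hf.one, hg.one]
    · have hp := Nat.minFac_prime h1
      have hd := Nat.minFac_dvd k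
      obtain ⟨m, hm⟩ := hd
      have hm0 : m ≠ 0 := by
        rintro rfl
        omega
      have hmk : m < k := by
        have h2 := hp.two_le
        have h3 : 0 < m := Nat.pos_of_ne_zero hm0
        nlinarith
      have hpk : k.minFac ≤ K := (Nat.minFac_le (by omega)).trans hk
      have e1 := ih m hmk (Nat.pos_of_ne_zero hm0) (hmk.le.trans hk)
      have e2 := h _ hp hpk
      rw [hm, hf.mul _ _ hp.ne_zero hm0, hg.mul _ _ hp.ne_zero hm0, e1]
      rw [e2]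

theorem fs_agree (hQ : 0 < Q) {f : ℝ → ℕ → ℂ} (hf : FS Q 1 f) (K : ℕ) : ∀ᶠ Y : ℝ in atTop, ∀ k : ℕ, 1 ≤ k → k ≤ K →
    f Y k = f00 Q k := by
  obtain ⟨κ, hκ, _, h⟩ := hf.cls hQ
  filter_upwards [eventually_ge_atTop 1, (tendsto_rpow_atTop hκ).eventually (eventually_ge_atTop (K : ℝ))] with Y hY1 hY2 k hk1 hk2
  refine cf_agree (hf.cf Y) (cf_f00 Q) K (fun p hp hpK => ?_) k hk1 hk2
  by_cases hpQ : p ∣ Q
  · rw [hf.zr Y p hp hpQ, f00_not]
    rw [Nat.Prime.coprime_iff_not_dvd hp]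
    exact fun h' => h' hpQ
  · have h3 : (p : ℝ) ≤ Y ^ κ := le_trans (by exact_mod_cast hpK) hY2
    rw [(h Y hY1).1 p hp hpQ h3, f00_coprime hp.ne_zero ((Nat.Prime.coprime_iff_not_dvd hp).2 hpQ)]

private theorem lp_tail (n : ℕ) (y : ℝ) (hy : 0 < y) :
    ∑ k ∈ (Icc 1 n).filter (fun k : ℕ => y < (k : ℝ)), ((k : ℝ) ^ 2)⁻¹ ≤ 2 / y := by
  have h := sum_Ioo_inv_sq_le (α := ℝ) ⌊y⌋₊ (n + 1)
  have h1 : (Icc 1 n).filter (fun k : ℕ => y < (k : ℝ)) ⊆ Ioo ⌊y⌋₊ (n + 1) := by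
    intro k hk
    rw [mem_filter, mem_Icc] at hk
    rw [mem_Ioo]
    exact ⟨(Nat.floor_lt hy.le).2 hk.2, by omega⟩
  have h2 : (2 : ℝ) / ((⌊y⌋₊ : ℝ) + 1) ≤ 2 / y :=
    div_le_div_of_nonneg_left (by norm_num) hy (Nat.lt_floor_add_one y).le
  refine le_trans (Finset.sum_le_sum_of_subset_of_nonneg h1 fun k _ _ => by positivity) ?_
  exact h.trans h2

private theorem lp_triv (f : ℕ → ℂ) (hf : CF f) (t N : ℝ) (hN : 0 ≤ N) :
    ‖∑ n ∈ Icc 1 ⌊N⌋₊, f n * et t n‖ ≤ N := by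
  refine (norm_sum_le _ _).trans ?_
  calc ∑ n ∈ Icc 1 ⌊N⌋₊, ‖f n * et t n‖ ≤ ∑ n ∈ Icc 1 ⌊N⌋₊, (1 : ℝ) := by
        refine Finset.sum_le_sum fun n _ => ?_
        rw [norm_mul, norm_et, mul_one]
        exact hf.le n
    _ = (⌊N⌋₊ : ℝ) := by simp
    _ ≤ N := Nat.floor_le hN

/-- the abstract estimate -/
private theorem lp_core (n : ℕ) (y C D E m : ℝ) (hy : 0 < y) (hC : 0 ≤ C) (hD : 0 ≤ D) (u v : ℕ → ℂ) (A B A0 B0 : ℕ → ℂ)
    (m1 m2 : ℂ) (hm1 : ‖m1‖ ≤ 1) (hm2 : ‖m2‖ ≤ 1) (hu : ∀ k, ‖u k‖ ≤ 1) (hv : ∀ k, ‖v k‖ ≤ 1)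
    (hA : ∀ k ∈ Icc 1 n, ‖A k‖ ≤ C / k) (hB : ∀ k ∈ Icc 1 n, ‖B k‖ ≤ D / k)
    (hA0 : ∀ k ∈ Icc 1 n, ‖A0 k‖ ≤ C / k) (hB0 : ∀ k ∈ Icc 1 n, ‖B0 k‖ ≤ D / k) (hE : 0 ≤ E)
    (h1 : ∀ k ∈ Icc 1 n, (k : ℝ) ≤ y → ‖A k - m1 * A0 k‖ ≤ E) (h2 : ∀ k ∈ Icc 1 n, (k : ℝ) ≤ y → ‖B k - m2 * B0 k‖ ≤ E)
    (h3 : ∀ k ∈ Icc 1 n, (k : ℝ) ≤ y → m1 * m2 * (u k - v k) = 0) (hm : y ≤ m) :
    ‖∑ k ∈ Icc 1 n, (u k * (A k * B k) - m1 * m2 * (v k * (A0 k * B0 k)))‖ ≤ m * (E * (C + D)) + 4 * (C * D) / y := by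
  rw [← sum_filter_add_sum_filter_not (Icc 1 n) (fun k : ℕ => (k : ℝ) ≤ y)]
  refine (norm_add_le _ _).trans (add_le_add ?_ ?_)
  · refine (norm_sum_le _ _).trans ?_
    have hterm : ∀ k ∈ (Icc 1 n).filter (fun k : ℕ => (k : ℝ) ≤ y),
        ‖u k * (A k * B k) - m1 * m2 * (v k * (A0 k * B0 k))‖ ≤ E * (C + D) := by
      intro k hk
      rw [mem_filter] at hk
      have hk1 : (1 : ℝ) ≤ k := by exact_mod_cast (mem_Icc.1 hk.1).1
      have e1 : u k * (A k * B k) - m1 * m2 * (v k * (A0 k * B0 k)) =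
          u k * ((A k - m1 * A0 k) * B k + m1 * A0 k * (B k - m2 * B0 k)) + (m1 * m2 * (u k - v k)) * (A0 k * B0 k) := by
        ring
      rw [e1, h3 k hk.1 hk.2, zero_mul, add_zero, norm_mul]
      have e2 : ‖(A k - m1 * A0 k) * B k + m1 * A0 k * (B k - m2 * B0 k)‖ ≤ E * D + C * E := by
        refine (norm_add_le _ _).trans (add_le_add ?_ ?_)
        · rw [norm_mul]
          exact mul_le_mul (h1 k hk.1 hk.2) ((hB k hk.1).trans (div_le_self hD hk1)) (norm_nonneg _) hE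
        · rw [norm_mul, norm_mul]
          refine mul_le_mul ?_ (h2 k hk.1 hk.2) (norm_nonneg _) hC
          calc ‖m1‖ * ‖A0 k‖ ≤ 1 * (C / k) := mul_le_mul hm1 (hA0 k hk.1) (norm_nonneg _) zero_le_one
            _ ≤ C := by rw [one_mul]; exact div_le_self hC hk1
      calc ‖u k‖ * _ ≤ 1 * (E * D + C * E) := mul_le_mul (hu k) e2 (norm_nonneg _) zero_le_one
        _ = E * (C + D) := by ring
    refine (sum_le_card_nsmul _ _ _ hterm).trans ?_
    rw [nsmul_eq_mul]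
    refine mul_le_mul_of_nonneg_right ?_ (by positivity)
    have h5 : (Icc 1 n).filter (fun k : ℕ => (k : ℝ) ≤ y) ⊆ Icc 1 ⌊y⌋₊ := by
      intro k hk
      rw [mem_filter, mem_Icc] at hk
      rw [mem_Icc]
      exact ⟨hk.1.1, Nat.le_floor hk.2⟩
    have h6 := card_le_card h5
    rw [Nat.card_Icc] at h6
    have h7 : (((Icc 1 n).filter (fun k : ℕ => (k : ℝ) ≤ y)).card : ℝ) ≤ ⌊y⌋₊ := by
      exact_mod_cast (by omega : ((Icc 1 n).filter (fun k : ℕ => (k : ℝ) ≤ y)).card ≤ ⌊y⌋₊)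
    exact (h7.trans (Nat.floor_le hy.le)).trans hm
  · refine (norm_sum_le _ _).trans ?_
    have hset : (Icc 1 n).filter (fun k : ℕ => ¬ (k : ℝ) ≤ y) = (Icc 1 n).filter (fun k : ℕ => y < (k : ℝ)) := by
      refine filter_congr fun k _ => ?_
      exact not_le
    rw [hset]
    have hterm : ∀ k ∈ (Icc 1 n).filter (fun k : ℕ => y < (k : ℝ)),
        ‖u k * (A k * B k) - m1 * m2 * (v k * (A0 k * B0 k))‖ ≤ 2 * (C * D) * ((k : ℝ) ^ 2)⁻¹ := by
      intro k hk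
      rw [mem_filter] at hk
      have hk1 : (0 : ℝ) < k := hy.trans hk.2
      have e3 : (C / k) * (D / k) = (C * D) * ((k : ℝ) ^ 2)⁻¹ := by field_simp
      have e1 : ‖u k * (A k * B k)‖ ≤ (C / k) * (D / k) := by
        rw [norm_mul, norm_mul]
        calc ‖u k‖ * (‖A k‖ * ‖B k‖) ≤ 1 * ((C / k) * (D / k)) := by
              refine mul_le_mul (hu k) ?_ (by positivity) zero_le_one
              exact mul_le_mul (hA k hk.1) (hB k hk.1) (norm_nonneg _) (by positivity)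
          _ = _ := one_mul _
      have e2 : ‖m1 * m2 * (v k * (A0 k * B0 k))‖ ≤ (C / k) * (D / k) := by
        rw [norm_mul, norm_mul, norm_mul, norm_mul]
        calc ‖m1‖ * ‖m2‖ * (‖v k‖ * (‖A0 k‖ * ‖B0 k‖)) ≤ (1 * 1) * (1 * ((C / k) * (D / k))) := by
              refine mul_le_mul (mul_le_mul hm1 hm2 (norm_nonneg _) zero_le_one) ?_ (by positivity) (by norm_num)
              refine mul_le_mul (hv k) ?_ (by positivity) zero_le_one
              exact mul_le_mul (hA0 k hk.1) (hB0 k hk.1) (norm_nonneg _) (by positivity)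
          _ = _ := by ring
      refine (norm_sub_le _ _).trans ?_
      rw [e3] at e1 e2
      linarith
    refine (sum_le_sum hterm).trans ?_
    rw [← mul_sum]
    refine (mul_le_mul_of_nonneg_left (lp_tail n y hy) (by positivity)).trans (le_of_eq ?_)
    ring

/-- low frequencies for pairs -/
theorem low_pair (q : ℕ) (hq : 0 < q) (hQ : 0 < Q) {z1 z2 : ℂ} (hz1 : z1 ^ q = 1) (hz2 : z2 ^ q = 1)
    {f g : ℝ → ℕ → ℂ} (hf : FS Q z1 f) (hg : FS Q z2 g) {W1 W2 : ℕ} [NeZero W1] [NeZero W2]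
    (hQW1 : Q ∣ W1) (hQW2 : Q ∣ W2) (χ : DirichletCharacter ℂ W1) (ψ : DirichletCharacter ℂ W2) (K T2 ε : ℝ)
    (hT2 : 0 ≤ T2) (hK : 1 ≤ K) (hε : 0 < ε) (a : ℝ) (ha : 0 < a) : ∀ᶠ X : ℝ in atTop, ∀ C D : ℝ,
    Real.sqrt X / K ≤ C → C ≤ K * Real.sqrt X → Real.sqrt X / K ≤ D → D ≤ K * Real.sqrt X → ∀ t : ℝ, |t| ≤ T2 →
    ‖Ps (tw (f (a * X)) χ) (tw (g (a * X)) ψ) C D t - mz Q z1 f (a * X) * mz Q z2 g (a * X) *
      Ps (tw (f00 Q) χ) (tw (f00 Q) ψ) C D t‖ ≤ ε * X := by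
  have hK0 : 0 < K := by linarith
  obtain ⟨k0, hk0⟩ : ∃ k0 : ℕ, 8 * K ^ 2 / ε + 1 ≤ k0 := exists_nat_ge _
  have hk0p : (0 : ℝ) < k0 := lt_of_lt_of_le (by positivity) hk0
  have hk0a : 8 * K ^ 2 / ε ≤ k0 := by linarith
  have hk01 : (1 : ℝ) ≤ k0 := by
    have : 0 ≤ 8 * K ^ 2 / ε := by positivity
    linarith
  obtain ⟨s, hs⟩ : ∃ s, s = Real.sqrt a := ⟨_, rfl⟩
  have hs0 : 0 < s := by rw [hs]; exact Real.sqrt_pos.2 ha
  obtain ⟨ε1, hε1⟩ : ∃ ε1, ε1 = ε / (4 * k0 * K * s) := ⟨_, rfl⟩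
  have hε10 : 0 < ε1 := by rw [hε1]; positivity
  obtain ⟨K', hK'⟩ : ∃ K', K' = max (2 * K * k0 * s) (K / s) + 1 := ⟨_, rfl⟩
  have hK'a : 2 * K * k0 * s ≤ K' := by
    rw [hK']
    have := le_max_left (2 * K * k0 * s) (K / s)
    linarith
  have hK'b : K / s ≤ K' := by
    rw [hK']
    have := le_max_right (2 * K * k0 * s) (K / s)
    linarith
  have hK'1 : 1 ≤ K' := by
    rw [hK']
    have h1 : 0 ≤ max (2 * K * k0 * s) (K / s) := le_max_of_le_left (by positivity)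
    linarith
  have hT : Tendsto (fun X : ℝ => a * X) atTop atTop := tendsto_id.const_mul_atTop ha
  have hag : ∀ᶠ Y : ℝ in atTop, ∀ k : ℕ, 1 ≤ k → k ≤ k0 →
      mz Q z1 f Y * mz Q z2 g Y * (f Y k * g Y k - f00 Q k * f00 Q k) = 0 := by
    by_cases h1 : z1 = 1
    · by_cases h2 : z2 = 1
      · subst h1 h2
        filter_upwards [fs_agree hQ hf k0, fs_agree hQ hg k0] with Y h3 h4 k hk1 hk2
        rw [h3 k hk1 hk2, h4 k hk1 hk2, sub_self, mul_zero]
      · refine Eventually.of_forall fun Y k _ _ => ?_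
        have : mz Q z2 g Y = 0 := by unfold mz; rw [if_neg h2]
        rw [this, mul_zero, zero_mul]
    · refine Eventually.of_forall fun Y k _ _ => ?_
      have : mz Q z1 f Y = 0 := by unfold mz; rw [if_neg h1]
      rw [this, zero_mul, zero_mul]
  filter_upwards [hT.eventually (low_one q hq hQ hz1 hf hQW1 χ K' T2 ε1 hT2 hK'1 hε10),
    hT.eventually (low_one q hq hQ hz2 hg hQW2 ψ K' T2 ε1 hT2 hK'1 hε10), hT.eventually hag,
    sqrt_atTop.eventually (eventually_ge_atTop (2 * K * k0)), eventually_gt_atTop 0] with X h1 h2 h3 h4 hX C D hC1 hC2 hD1 hD2 t ht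
  have hsX : 0 < Real.sqrt X := Real.sqrt_pos.2 hX
  have hsY : Real.sqrt (a * X) = s * Real.sqrt X := by rw [hs]; exact Real.sqrt_mul ha.le X
  rw [hsY] at h1 h2
  have hC : 0 ≤ C := le_trans (by positivity) hC1
  have hD : 0 ≤ D := le_trans (by positivity) hD1
  have hm1 := mz_le hf (a * X)
  have hm2 := mz_le hg (a * X)
  have hFc := cf_tw (hf.cf (a * X)) χ
  have hGc := cf_tw (hg.cf (a * X)) ψ
  have hF0c := cf_tw (cf_f00 Q) χ
  have hG0c := cf_tw (cf_f00 Q) ψ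
  -- range of the truncated sums
  have hrange : ∀ E : ℝ, Real.sqrt X / K ≤ E → E ≤ K * Real.sqrt X → ∀ k : ℕ, 1 ≤ k → (k : ℝ) ≤ k0 →
      s * Real.sqrt X / K' ≤ (⌊E / k⌋₊ : ℝ) ∧ ((⌊E / k⌋₊ : ℕ) : ℝ) ≤ K' * (s * Real.sqrt X) := by
    intro E hE1 hE2 k hk1 hk2
    have hkp : (1 : ℝ) ≤ k := by exact_mod_cast hk1
    have hE0 : 0 ≤ E := le_trans (by positivity) hE1
    constructor
    · have e1 : Real.sqrt X / (K * k0) ≤ E / k := by
        have : Real.sqrt X / (K * k0) = (Real.sqrt X / K) / k0 := by rw [div_div]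
        rw [this]
        exact div_le_div₀ hE0 hE1 (by linarith) hk2
      have e2 := Nat.lt_floor_add_one (E / k)
      have e3 : 2 ≤ Real.sqrt X / (K * k0) := by
        rw [le_div_iff₀ (by positivity)]
        linarith
      have e4 : s * Real.sqrt X / K' ≤ Real.sqrt X / (2 * (K * k0)) := by
        rw [div_le_div_iff₀ (by linarith) (by positivity)]
        calc s * Real.sqrt X * (2 * (K * k0)) = Real.sqrt X * (2 * K * k0 * s) := by ring
          _ ≤ Real.sqrt X * K' := mul_le_mul_of_nonneg_left hK'a hsX.le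
      have e5 : Real.sqrt X / (2 * (K * k0)) = (Real.sqrt X / (K * k0)) / 2 := by field_simp
      linarith
    · have e1 : ((⌊E / k⌋₊ : ℕ) : ℝ) ≤ E / k := Nat.floor_le (by positivity)
      have e2 : E / k ≤ E := div_le_self hE0 hkp
      rw [div_le_iff₀ hs0] at hK'b
      calc ((⌊E / k⌋₊ : ℕ) : ℝ) ≤ K * Real.sqrt X := by linarith
        _ ≤ (K' * s) * Real.sqrt X := mul_le_mul_of_nonneg_right hK'b hsX.le
        _ = K' * (s * Real.sqrt X) := by ring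
  rw [ps_mob _ _ hFc hGc, ps_mob _ _ hF0c hG0c, mul_sum, ← sum_sub_distrib]
  have hcore := lp_core ⌊C⌋₊ k0 C D (ε1 * (s * Real.sqrt X)) k0 hk0p hC hD
    (fun k => ((ArithmeticFunction.moebius k : ℤ) : ℂ) * (tw (f (a * X)) χ k * tw (g (a * X)) ψ k))
    (fun k => ((ArithmeticFunction.moebius k : ℤ) : ℂ) * (tw (f00 Q) χ k * tw (f00 Q) ψ k))
    (fun k => ∑ x ∈ Icc 1 ⌊C / k⌋₊, tw (f (a * X)) χ x * et t x)
    (fun k => ∑ y ∈ Icc 1 ⌊D / k⌋₊, tw (g (a * X)) ψ y * et (-t) y)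
    (fun k => ∑ x ∈ Icc 1 ⌊C / k⌋₊, tw (f00 Q) χ x * et t x)
    (fun k => ∑ y ∈ Icc 1 ⌊D / k⌋₊, tw (f00 Q) ψ y * et (-t) y)
    (mz Q z1 f (a * X)) (mz Q z2 g (a * X)) hm1 hm2
    (fun k => by
      rw [norm_mul, norm_mul]
      have e1 : ‖((ArithmeticFunction.moebius k : ℤ) : ℂ)‖ ≤ 1 := by
        rw [Complex.norm_intCast]
        exact_mod_cast ArithmeticFunction.abs_moebius_le_one
      exact mul_le_one₀ e1 (by positivity) (mul_le_one₀ (hFc.le _) (norm_nonneg _) (hGc.le _)))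
    (fun k => by
      rw [norm_mul, norm_mul]
      have e1 : ‖((ArithmeticFunction.moebius k : ℤ) : ℂ)‖ ≤ 1 := by
        rw [Complex.norm_intCast]
        exact_mod_cast ArithmeticFunction.abs_moebius_le_one
      exact mul_le_one₀ e1 (by positivity) (mul_le_one₀ (hF0c.le _) (norm_nonneg _) (hG0c.le _)))
    (fun k _ => lp_triv _ hFc t _ (by positivity)) (fun k _ => lp_triv _ hGc (-t) _ (by positivity))
    (fun k _ => lp_triv _ hF0c t _ (by positivity)) (fun k _ => lp_triv _ hG0c (-t) _ (by positivity))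
    (by positivity)
    (fun k hk hky => by
      obtain ⟨r1, r2⟩ := hrange C hC1 hC2 k (mem_Icc.1 hk).1 hky
      have e1 := h1 _ r1 r2 t ht
      refine le_trans (le_of_eq ?_) e1
      congr 1
      rw [mul_sum, ← sum_sub_distrib]
      refine sum_congr rfl fun n hn => ?_
      rw [mem_Icc] at hn
      rw [tw_f00 hQW1 χ (show n ≠ 0 by omega)]
      ring)
    (fun k hk hky => by
      obtain ⟨r1, r2⟩ := hrange D hD1 hD2 k (mem_Icc.1 hk).1 hky
      have e1 := h2 _ r1 r2 (-t) (by rw [abs_neg]; exact ht)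
      refine le_trans (le_of_eq ?_) e1
      congr 1
      rw [mul_sum, ← sum_sub_distrib]
      refine sum_congr rfl fun n hn => ?_
      rw [mem_Icc] at hn
      rw [tw_f00 hQW2 ψ (show n ≠ 0 by omega)]
      ring)
    (fun k hk hky => by
      have e1 := h3 k (mem_Icc.1 hk).1 (by exact_mod_cast hky)
      have e2 : mz Q z1 f (a * X) * mz Q z2 g (a * X) *
          (((ArithmeticFunction.moebius k : ℤ) : ℂ) * (tw (f (a * X)) χ k * tw (g (a * X)) ψ k) -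
            ((ArithmeticFunction.moebius k : ℤ) : ℂ) * (tw (f00 Q) χ k * tw (f00 Q) ψ k)) =
          ((ArithmeticFunction.moebius k : ℤ) : ℂ) * (χ (k : ZMod W1) * ψ (k : ZMod W2)) *
          (mz Q z1 f (a * X) * mz Q z2 g (a * X) * (f (a * X) k * g (a * X) k - f00 Q k * f00 Q k)) := by
        unfold tw
        ring
      rw [e2, e1, mul_zero]) le_rfl
  refine le_trans (le_of_eq ?_) (hcore.trans ?_)
  · congr 1
  · have hCD : C * D ≤ K ^ 2 * X := by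
      calc C * D ≤ (K * Real.sqrt X) * (K * Real.sqrt X) := mul_le_mul hC2 hD2 hD (by positivity)
        _ = K ^ 2 * (Real.sqrt X * Real.sqrt X) := by ring
        _ = K ^ 2 * X := by rw [Real.mul_self_sqrt hX.le]
    have e1 : (k0 : ℝ) * (ε1 * (s * Real.sqrt X) * (C + D)) ≤ ε / 2 * X := by
      have e2 : C + D ≤ 2 * K * Real.sqrt X := by linarith
      calc (k0 : ℝ) * (ε1 * (s * Real.sqrt X) * (C + D)) ≤ k0 * (ε1 * (s * Real.sqrt X) * (2 * K * Real.sqrt X)) := by gcongr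
        _ = (k0 * ε1 * s * 2 * K) * (Real.sqrt X * Real.sqrt X) := by ring
        _ = ε / 2 * X := by
            rw [Real.mul_self_sqrt hX.le, hε1]
            field_simp
            ring
    have e3 : 4 * (C * D) / k0 ≤ ε / 2 * X := by
      rw [div_le_iff₀ hk0p]
      rw [div_le_iff₀ hε] at hk0a
      calc 4 * (C * D) ≤ 4 * (K ^ 2 * X) := by linarith
        _ = (8 * K ^ 2) * (X / 2) := by ring
        _ ≤ (k0 * ε) * (X / 2) := mul_le_mul_of_nonneg_right hk0a (by positivity)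
        _ = ε / 2 * X * k0 := by ring
    linarith

end Pool.Agent.SplB

end

/-! ### from `Lib_MP_92ef0c_lb.Prog` -/

section

/-!
# Block B: mean values in progressions
-/

set_option autoImplicit false

namespace Pool.Agent.SplB

open Finset Pool.Agent.Spl Pool.Agent.SplI MeasureTheory Filter

variable {Q : ℕ}

private theorem prog_char (m1 d : ℕ) (χ : DirichletCharacter ℂ m1) (x : ℕ) :
    (DirichletCharacter.changeLevel (Nat.dvd_mul_right m1 d) χ) (x : ZMod (m1 * d)) =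
      if x.Coprime d then χ (x : ZMod m1) else 0 := by
  by_cases hx : x.Coprime (m1 * d)
  · have hd : x.Coprime d := (Nat.coprime_mul_iff_right.1 hx).2
    rw [if_pos hd]
    have h1 := DirichletCharacter.changeLevel_eq_cast_of_dvd χ (Nat.dvd_mul_right m1 d)
      (ZMod.unitOfCoprime x hx)
    rw [ZMod.coe_unitOfCoprime] at h1
    rw [h1, ZMod.cast_natCast (Nat.dvd_mul_right m1 d)]
  · have h1 : ¬ IsUnit (x : ZMod (m1 * d)) := by
      rw [ZMod.isUnit_iff_coprime]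
      exact hx
    rw [MulChar.map_nonunit _ h1]
    by_cases hd : x.Coprime d
    · rw [if_pos hd]
      have h2 : ¬ IsUnit (x : ZMod m1) := by
        rw [ZMod.isUnit_iff_coprime]
        intro h3
        exact hx (Nat.coprime_mul_iff_right.2 ⟨h3, hd⟩)
      rw [MulChar.map_nonunit _ h2]
    · rw [if_neg hd]

private theorem prog_cls (m1 d : ℕ) (hm1 : m1 ≠ 0) (b : ℕ) (hb : b.Coprime m1) :
    ∃ (n : ℕ) (χ : Fin n → DirichletCharacter ℂ (m1 * d)) (c : Fin n → ℂ), (∀ i, ‖c i‖ ≤ 1) ∧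
      ∀ x : ℕ, ∑ i, c i * χ i (x : ZMod (m1 * d)) =
        if x ≡ b [MOD m1] ∧ x.Coprime d then 1 else 0 := by
  have : NeZero m1 := ⟨hm1⟩
  obtain ⟨n, χ, c, hc, h⟩ := cls_char_n m1 b hb
  refine ⟨n, fun i => DirichletCharacter.changeLevel (Nat.dvd_mul_right m1 d) (χ i), c, hc, ?_⟩
  intro x
  simp only [prog_char]
  by_cases hd : x.Coprime d
  · simp only [if_pos hd]
    rw [h x]
    by_cases hx : x ≡ b [MOD m1]
    · rw [if_pos hx, if_pos ⟨hx, hd⟩]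
    · rw [if_neg hx, if_neg (fun h' => hx h'.1)]
  · simp only [if_neg hd, mul_zero, sum_const_zero]
    rw [if_neg (fun h' => hd h'.2)]

private theorem prog_mod {m r x : ℕ} (hm : 0 < m) :
    (Nat.gcd r m * x ≡ r [MOD m]) ↔ x ≡ r / Nat.gcd r m [MOD m / Nat.gcd r m] := by
  have hg : Nat.gcd r m ≠ 0 := (Nat.gcd_pos_of_pos_right r hm).ne'
  have h1 : Nat.gcd r m * (r / Nat.gcd r m) = r := Nat.mul_div_cancel' (Nat.gcd_dvd_left r m)
  have h2 : Nat.gcd r m * (m / Nat.gcd r m) = m := Nat.mul_div_cancel' (Nat.gcd_dvd_right r m)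
  have h3 := Nat.ModEq.mul_left_cancel_iff' (a := x) (b := r / Nat.gcd r m)
    (m := m / Nat.gcd r m) hg
  rw [h1, h2] at h3
  exact h3

private theorem prog_sum (F : ℕ → ℂ) (m : ℕ) (hm : 0 < m) (r N : ℕ) :
    ∑ n ∈ (Icc 1 N).filter (fun n => n ≡ r [MOD m]), F n =
      ∑ k ∈ (Icc 1 (N / Nat.gcd r m)).filter (fun k => k ≡ r / Nat.gcd r m [MOD m / Nat.gcd r m]), F (Nat.gcd r m * k) := by
  have hg : 0 < Nat.gcd r m := Nat.gcd_pos_of_pos_right r hm
  have hdv : ∀ n, n ≡ r [MOD m] → Nat.gcd r m ∣ n := by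
    intro n hn
    have h1 : Nat.gcd n m = Nat.gcd r m := hn.gcd_eq
    rw [← h1]
    exact Nat.gcd_dvd_left n m
  refine sum_nbij' (fun n => n / Nat.gcd r m) (fun k => Nat.gcd r m * k) ?_ ?_ ?_ ?_ ?_
  · intro n hn
    rw [mem_filter, mem_Icc] at hn ⊢
    obtain ⟨k, hk⟩ := hdv n hn.2
    have h1 : n / Nat.gcd r m = k := by rw [hk, Nat.mul_div_cancel_left _ hg]
    have hk0 : k ≠ 0 := by
      rintro rfl
      omega
    simp only [h1]
    refine ⟨⟨Nat.pos_of_ne_zero hk0, ?_⟩, ?_⟩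
    · rw [Nat.le_div_iff_mul_le hg, mul_comm, ← hk]
      exact hn.1.2
    · rw [← prog_mod hm, ← hk]
      exact hn.2
  · intro k hk
    rw [mem_filter, mem_Icc] at hk ⊢
    refine ⟨⟨Nat.mul_pos hg (by omega), ?_⟩, (prog_mod hm).2 hk.2⟩
    have := hk.1.2
    rw [Nat.le_div_iff_mul_le hg] at this
    rw [mul_comm]
    exact this
  · intro n hn
    rw [mem_filter] at hn
    exact Nat.mul_div_cancel' (hdv n hn.2)
  · intro k _
    exact Nat.mul_div_cancel_left _ hg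
  · intro n hn
    rw [mem_filter] at hn
    rw [Nat.mul_div_cancel' (hdv n hn.2)]

/-- mean values in progressions, quantitative form -/
theorem prog_ev (q : ℕ) (hq : 0 < q) (hQ : 0 < Q) {z : ℂ} (hz : z ^ q = 1) {f : ℝ → ℕ → ℂ} (hf : FS Q z f)
    (m : ℕ) (hm : 0 < m) (r : ℕ) (c : ℝ) (hc : 0 < c) (ε : ℝ) (hε : 0 < ε) : ∀ᶠ Y : ℝ in atTop,
    ‖∑ n ∈ (Icc 1 ⌊c * Real.sqrt Y⌋₊).filter (fun n => n ≡ r [MOD m]), (f Y n - mf Q f Y * f00 Q n)‖ ≤ ε * Real.sqrt Y := by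
  obtain ⟨d, hd⟩ : ∃ d, d = Nat.gcd r m := ⟨_, rfl⟩
  have hd0 : 0 < d := by rw [hd]; exact Nat.gcd_pos_of_pos_right r hm
  have hd1 : (1 : ℝ) ≤ d := by exact_mod_cast hd0
  have hm1 : m / d ≠ 0 := by
    rw [hd]
    exact (Nat.div_pos (Nat.le_of_dvd hm (Nat.gcd_dvd_right _ _)) (Nat.gcd_pos_of_pos_right r hm)).ne'
  have hb : (r / d).Coprime (m / d) := by
    rw [hd]
    exact Nat.coprime_div_gcd_div_gcd (Nat.gcd_pos_of_pos_right r hm)
  obtain ⟨n0, χ, a, ha, hχ⟩ := prog_cls (m / d) Q hm1 (r / d) hb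
  have hNZ : NeZero (m / d * Q) := ⟨mul_ne_zero hm1 hQ.ne'⟩
  have hQW : Q ∣ m / d * Q := Dvd.intro_left _ rfl
  obtain ⟨K, hK⟩ : ∃ K : ℝ, K = max (c + 1) (2 * d / c) := ⟨_, rfl⟩
  have hKc : c + 1 ≤ K := by rw [hK]; exact le_max_left _ _
  have hKd : 2 * d / c ≤ K := by rw [hK]; exact le_max_right _ _
  have hK1 : 1 ≤ K := by linarith
  have hK0 : 0 < K := by linarith
  obtain ⟨η, hη⟩ : ∃ η : ℝ, η = ε / (2 * (n0 + 1)) := ⟨_, rfl⟩
  have hη0 : 0 < η := by rw [hη]; positivity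
  -- the difference of mz and mf
  have hzm : Tendsto (fun Y => mz Q z f Y - mf Q f Y) atTop (nhds 0) := by
    by_cases h : z = 1
    · have : (fun Y => mz Q z f Y - mf Q f Y) = fun _ => 0 := by
        funext Y
        unfold mz
        rw [if_pos h, sub_self]
      rw [this]
      exact tendsto_const_nhds
    · have h1 := (mf_zero' q hq hQ hz h hf).neg
      rw [neg_zero] at h1
      refine h1.congr fun Y => ?_
      unfold mz
      rw [if_neg h, zero_sub]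
  have hag : ∀ᶠ Y : ℝ in atTop, mz Q z f Y * (f Y d - f00 Q d) = 0 := by
    by_cases h : z = 1
    · subst h
      filter_upwards [fs_agree hQ hf d] with Y h3
      rw [h3 d hd0 le_rfl, sub_self, mul_zero]
    · refine Eventually.of_forall fun Y => ?_
      have : mz Q z f Y = 0 := by unfold mz; rw [if_neg h]
      rw [this, zero_mul]
  have hall : ∀ᶠ Y : ℝ in atTop, ∀ i : Fin n0, ∀ N : ℕ, Real.sqrt Y / K ≤ N → (N : ℝ) ≤ K * Real.sqrt Y →
      ‖∑ n ∈ Icc 1 N, (tw (f Y) (χ i) n - mz Q z f Y * χ i (n : ZMod (m / d * Q)))‖ ≤ η * Real.sqrt Y :=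
    eventually_all.2 fun i => mv_all q hq hQ hz hf hQW (χ i) K η hK1 hη0
  filter_upwards [hall, hag, (tendsto_zero_iff_norm_tendsto_zero.1 hzm).eventually (gt_mem_nhds (show 0 < ε / (2 * c) by positivity)),
    sqrt_atTop.eventually (eventually_ge_atTop (2 * d / c)), eventually_gt_atTop 0] with Y h1 h2 h3 h4 hY
  have hsY : 0 < Real.sqrt Y := Real.sqrt_pos.2 hY
  obtain ⟨N, hN⟩ : ∃ N, N = ⌊c * Real.sqrt Y⌋₊ := ⟨_, rfl⟩
  have hNle : (N : ℝ) ≤ c * Real.sqrt Y := by rw [hN]; exact Nat.floor_le (by positivity)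
  rw [← hN]
  -- range
  have hN' : ((N / d : ℕ) : ℝ) ≤ K * Real.sqrt Y := by
    calc ((N / d : ℕ) : ℝ) ≤ (N : ℝ) := by exact_mod_cast Nat.div_le_self N d
      _ ≤ c * Real.sqrt Y := hNle
      _ ≤ K * Real.sqrt Y := mul_le_mul_of_nonneg_right (by linarith) hsY.le
  have hN'' : Real.sqrt Y / K ≤ ((N / d : ℕ) : ℝ) := by
    have e0 : N / d = ⌊c * Real.sqrt Y / d⌋₊ := by rw [hN, Nat.floor_div_natCast]
    have e1 := Nat.lt_floor_add_one (c * Real.sqrt Y / d)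
    rw [← e0] at e1
    have e2 : 1 ≤ c * Real.sqrt Y / (2 * d) := by
      rw [le_div_iff₀ (by positivity)]
      rw [div_le_iff₀ hc] at h4
      linarith
    have e3 : c * Real.sqrt Y / d = c * Real.sqrt Y / (2 * d) + c * Real.sqrt Y / (2 * d) := by field_simp; ring
    have e4 : Real.sqrt Y / K ≤ c * Real.sqrt Y / (2 * d) := by
      rw [div_le_div_iff₀ hK0 (by positivity)]
      rw [div_le_iff₀ hc] at hKd
      calc Real.sqrt Y * (2 * d) ≤ Real.sqrt Y * (K * c) := mul_le_mul_of_nonneg_left hKd hsY.le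
        _ = c * Real.sqrt Y * K := by ring
    linarith
  have e1 : ∑ n ∈ (Icc 1 N).filter (fun n => n ≡ r [MOD m]), (f Y n - mf Q f Y * f00 Q n) =
      ∑ n ∈ (Icc 1 N).filter (fun n => n ≡ r [MOD m]), (f Y n - mz Q z f Y * f00 Q n) +
      (mz Q z f Y - mf Q f Y) * ∑ n ∈ (Icc 1 N).filter (fun n => n ≡ r [MOD m]), f00 Q n := by
    rw [mul_sum, ← sum_add_distrib]
    refine sum_congr rfl fun n _ => ?_
    ring
  have e2 : ‖(mz Q z f Y - mf Q f Y) * ∑ n ∈ (Icc 1 N).filter (fun n => n ≡ r [MOD m]), f00 Q n‖ ≤ ε / 2 * Real.sqrt Y := by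
    rw [norm_mul]
    have e3 : ‖∑ n ∈ (Icc 1 N).filter (fun n => n ≡ r [MOD m]), f00 Q n‖ ≤ c * Real.sqrt Y := by
      refine (norm_sum_le _ _).trans ?_
      calc ∑ n ∈ (Icc 1 N).filter (fun n => n ≡ r [MOD m]), ‖f00 Q n‖ ≤
            ∑ _n ∈ (Icc 1 N).filter (fun n => n ≡ r [MOD m]), (1 : ℝ) := sum_le_sum fun n _ => (cf_f00 Q).le n
        _ ≤ ∑ _n ∈ Icc 1 N, (1 : ℝ) := sum_le_sum_of_subset_of_nonneg (filter_subset _ _) fun _ _ _ => zero_le_one
        _ = N := by simp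
        _ ≤ c * Real.sqrt Y := hNle
    calc ‖mz Q z f Y - mf Q f Y‖ * ‖∑ n ∈ (Icc 1 N).filter (fun n => n ≡ r [MOD m]), f00 Q n‖ ≤
          ε / (2 * c) * (c * Real.sqrt Y) := mul_le_mul h3.le e3 (norm_nonneg _) (by positivity)
      _ = ε / 2 * Real.sqrt Y := by field_simp
  have e3 : ∑ n ∈ (Icc 1 N).filter (fun n => n ≡ r [MOD m]), (f Y n - mz Q z f Y * f00 Q n) =
      f Y d * ∑ i, a i * ∑ k ∈ Icc 1 (N / d), (tw (f Y) (χ i) k - mz Q z f Y * χ i (k : ZMod (m / d * Q))) := by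
    rw [prog_sum _ m hm r N, ← hd]
    simp only [mul_sum]
    rw [sum_comm, sum_filter]
    refine sum_congr rfl fun k hk => ?_
    rw [mem_Icc] at hk
    have hk0 : k ≠ 0 := by omega
    have g1 : ∑ i, f Y d * (a i * (tw (f Y) (χ i) k - mz Q z f Y * χ i (k : ZMod (m / d * Q)))) =
        f Y d * (f Y k - mz Q z f Y) * ∑ i, a i * χ i (k : ZMod (m / d * Q)) := by
      rw [mul_sum]
      refine sum_congr rfl fun i _ => ?_
      unfold tw
      ring
    rw [g1, hχ k]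
    have g2 : mz Q z f Y * f Y d = mz Q z f Y * f00 Q d := by
      have := h2
      rw [mul_sub, sub_eq_zero] at this
      exact this
    by_cases g3 : k ≡ r / d [MOD m / d]
    · rw [if_pos g3]
      by_cases g4 : k.Coprime Q
      · rw [if_pos ⟨g3, g4⟩, mul_one, (hf.cf Y).mul d k hd0.ne' hk0, (cf_f00 Q).mul d k hd0.ne' hk0, f00_coprime hk0 g4]
        linear_combination g2
      · rw [if_neg (fun h => g4 h.2), mul_zero, (hf.cf Y).mul d k hd0.ne' hk0, (cf_f00 Q).mul d k hd0.ne' hk0,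
          f00_not g4, hf.zero Y g4]
        ring
    · rw [if_neg g3, if_neg (fun h => g3 h.1), mul_zero]
  have e4 : ‖∑ n ∈ (Icc 1 N).filter (fun n => n ≡ r [MOD m]), (f Y n - mz Q z f Y * f00 Q n)‖ ≤ ε / 2 * Real.sqrt Y := by
    rw [e3, norm_mul]
    have g1 : ‖∑ i, a i * ∑ k ∈ Icc 1 (N / d), (tw (f Y) (χ i) k - mz Q z f Y * χ i (k : ZMod (m / d * Q)))‖ ≤
        ∑ _i : Fin n0, η * Real.sqrt Y := by
      refine (norm_sum_le _ _).trans (sum_le_sum fun i _ => ?_)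
      rw [norm_mul]
      calc ‖a i‖ * ‖∑ k ∈ Icc 1 (N / d), (tw (f Y) (χ i) k - mz Q z f Y * χ i (k : ZMod (m / d * Q)))‖ ≤
            1 * (η * Real.sqrt Y) := mul_le_mul (ha i) (h1 i _ hN'' hN') (norm_nonneg _) zero_le_one
        _ = η * Real.sqrt Y := one_mul _
    rw [sum_const, card_univ, Fintype.card_fin, nsmul_eq_mul] at g1
    calc ‖f Y d‖ * ‖∑ i, a i * ∑ k ∈ Icc 1 (N / d), (tw (f Y) (χ i) k - mz Q z f Y * χ i (k : ZMod (m / d * Q)))‖ ≤
          1 * (n0 * (η * Real.sqrt Y)) := mul_le_mul ((hf.cf Y).le d) g1 (norm_nonneg _) zero_le_one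
      _ ≤ (n0 + 1) * (η * Real.sqrt Y) := by
          have : 0 ≤ η * Real.sqrt Y := by positivity
          linarith
      _ = ε / 2 * Real.sqrt Y := by rw [hη]; field_simp
  rw [e1]
  refine (norm_add_le _ _).trans ?_
  linarith

/-- mean values in progressions -/
theorem mf_prog' (q : ℕ) (hq : 0 < q) (hQ : 0 < Q) {z : ℂ} (hz : z ^ q = 1) {f : ℝ → ℕ → ℂ} (hf : FS Q z f)
    (m : ℕ) (hm : 0 < m) (r : ℕ) (c : ℝ) (hc : 0 < c) :
    Tendsto (fun Y : ℝ => (∑ n ∈ (Icc 1 ⌊c * Real.sqrt Y⌋₊).filter (fun n => n ≡ r [MOD m]),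
      (f Y n - mf Q f Y * f00 Q n)) / Real.sqrt Y) atTop (nhds 0) := by
  rw [tendsto_zero_iff_norm_tendsto_zero, Metric.tendsto_nhds]
  intro ε hε
  filter_upwards [prog_ev q hq hQ hz hf m hm r c hc (ε / 2) (by positivity), eventually_gt_atTop 0] with Y h1 hY
  have hsY : 0 < Real.sqrt Y := Real.sqrt_pos.2 hY
  rw [Real.dist_eq, sub_zero, abs_of_nonneg (norm_nonneg _), norm_div, Complex.norm_real,
    Real.norm_of_nonneg hsY.le, div_lt_iff₀ hsY]
  refine lt_of_le_of_lt h1 ?_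
  nlinarith

end Pool.Agent.SplB

end
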