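import Pool.Agent.Lib_MP_92ef0c_m.M32

/-!
# MP_92ef0c_nt, split pairs: merged library part M34

Concatenation of smaller files (each in its own section), only to save build time.
-/

/-! ### from `Lib_MP_92ef0c_lb.ArcG` -/

section

/-!
# Block B: decomposition of a residue class into characters, general functions (port of spi/ArcN.lean)
-/

set_option autoImplicit false

namespace Pool.Agent.SplB

open Finset Pool.Agent.Spl Pool.Agent.SplI MeasureTheory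

private theorem arcg_char (m1 d : ℕ) (χ : DirichletCharacter ℂ m1) (x : ℕ) :
    (DirichletCharacter.changeLevel (Nat.dvd_mul_right m1 d) χ) (x : ZMod (m1 * d)) =
      if x.Coprime d then χ (x : ZMod m1) else 0 := by
  by_cases hx : x.Coprime (m1 * d)
  · have hd : x.Coprime d := (Nat.coprime_mul_iff_right.1 hx).2
    rw [if_pos hd]
    have h1 := DirichletCharacter.changeLevel_eq_cast_of_dvd χ (Nat.dvd_mul_right m1 d)
      (ZMod.unitOfCoprime x hx)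
    rw [ZMod.coe_unitOfCoprime] at h1
    rw [h1, ZMod.cast_natCast (Nat.dvd_mul_right m1 d)]
  · have h1 : ¬ IsUnit (x : ZMod (m1 * d)) := by
      rw [ZMod.isUnit_iff_coprime]
      exact hx
    rw [MulChar.map_nonunit _ h1]
    by_cases hd : x.Coprime d
    · rw [if_pos hd]
      have h2 : ¬ IsUnit (x : ZMod m1) := by
        rw [ZMod.isUnit_iff_coprime]
        intro h3
        exact hx (Nat.coprime_mul_iff_right.2 ⟨h3, hd⟩)
      rw [MulChar.map_nonunit _ h2]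
    · rw [if_neg hd]

private theorem arcg_cls (m1 d : ℕ) (hm1 : m1 ≠ 0) (b : ℕ) (hb : b.Coprime m1) :
    ∃ (n : ℕ) (χ : Fin n → DirichletCharacter ℂ (m1 * d)) (c : Fin n → ℂ), (∀ i, ‖c i‖ ≤ 1) ∧
      ∀ x : ℕ, ∑ i, c i * χ i (x : ZMod (m1 * d)) =
        if x ≡ b [MOD m1] ∧ x.Coprime d then 1 else 0 := by
  have : NeZero m1 := ⟨hm1⟩
  obtain ⟨n, χ, c, hc, h⟩ := cls_char_n m1 b hb
  refine ⟨n, fun i => DirichletCharacter.changeLevel (Nat.dvd_mul_right m1 d) (χ i), c, hc, ?_⟩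
  intro x
  simp only [arcg_char]
  by_cases hd : x.Coprime d
  · simp only [if_pos hd]
    rw [h x]
    by_cases hx : x ≡ b [MOD m1]
    · rw [if_pos hx, if_pos ⟨hx, hd⟩]
    · rw [if_neg hx, if_neg (fun h' => hx h'.1)]
  · simp only [if_neg hd, mul_zero, sum_const_zero]
    rw [if_neg (fun h' => hd h'.2)]

private theorem arcg_mem_PB {C D : ℝ} {z : ℕ × ℕ} :
    z ∈ PB C D ↔ (z.1 ≠ 0 ∧ z.2 ≠ 0) ∧ ((z.1 : ℝ) ≤ C ∧ (z.2 : ℝ) ≤ D) ∧ z.1.Coprime z.2 := by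
  unfold PB
  rw [mem_filter, mem_product, mem_Icc, mem_Icc]
  constructor
  · rintro ⟨⟨⟨h1, h2⟩, h3, h4⟩, h5⟩
    have h6 : z.1 ≠ 0 := by omega
    have h7 : z.2 ≠ 0 := by omega
    exact ⟨⟨h6, h7⟩, ⟨(Nat.le_floor_iff' h6).1 h2, (Nat.le_floor_iff' h7).1 h4⟩, h5⟩
  · rintro ⟨⟨h6, h7⟩, ⟨h2, h4⟩, h5⟩
    exact ⟨⟨⟨by omega, (Nat.le_floor_iff' h6).2 h2⟩, by omega, (Nat.le_floor_iff' h7).2 h4⟩, h5⟩

private theorem arcg_dirn {d1 d2 : ℕ} (hd1 : d1 ≠ 0) (hd2 : d2 ≠ 0) {x y : ℕ} (hx : x ≠ 0)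
    (hy : y ≠ 0) : dirn (d1 * x, d2 * y) = dirn (x, y) + (Real.log d2 - Real.log d1) := by
  unfold dirn
  have h1 : (d1 : ℝ) ≠ 0 := by exact_mod_cast hd1
  have h2 : (d2 : ℝ) ≠ 0 := by exact_mod_cast hd2
  have h3 : (x : ℝ) ≠ 0 := by exact_mod_cast hx
  have h4 : (y : ℝ) ≠ 0 := by exact_mod_cast hy
  simp only [Nat.cast_mul]
  rw [Real.log_mul h1 h3, Real.log_mul h2 h4]
  ring

private theorem arcg_mod {m b x : ℕ} (hm : 0 < m) :
    (Nat.gcd b m * x ≡ b [MOD m]) ↔ x ≡ b / Nat.gcd b m [MOD m / Nat.gcd b m] := by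
  have hg : Nat.gcd b m ≠ 0 := (Nat.gcd_pos_of_pos_right b hm).ne'
  have h1 : Nat.gcd b m * (b / Nat.gcd b m) = b := Nat.mul_div_cancel' (Nat.gcd_dvd_left b m)
  have h2 : Nat.gcd b m * (m / Nat.gcd b m) = m := Nat.mul_div_cancel' (Nat.gcd_dvd_right b m)
  have h3 := Nat.ModEq.mul_left_cancel_iff' (a := x) (b := b / Nat.gcd b m)
    (m := m / Nat.gcd b m) hg
  rw [h1, h2] at h3
  exact h3

private theorem arcg_dvd {m b x : ℕ} (h : x ≡ b [MOD m]) : Nat.gcd b m ∣ x := by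
  have h1 : Nat.gcd x m = Nat.gcd b m := h.gcd_eq
  rw [← h1]
  exact Nat.gcd_dvd_left x m

/-- the new index set -/
private theorem arcg_sum (F : ℕ × ℕ → ℂ) (m : ℕ) (hm : 0 < m) (b : ℕ × ℕ)
    (hcop : (Nat.gcd b.1 m).Coprime (Nat.gcd b.2 m)) (C D δ τ : ℝ) :
    ∑ z ∈ (PB C D).filter (fun z => (z.1 ≡ b.1 [MOD m] ∧ z.2 ≡ b.2 [MOD m]) ∧ τ ≤ dirn z ∧
        dirn z < τ + δ), F z =
      ∑ z ∈ (PB (C / Nat.gcd b.1 m) (D / Nat.gcd b.2 m)).filter (fun z =>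
        τ - (Real.log (Nat.gcd b.2 m) - Real.log (Nat.gcd b.1 m)) ≤ dirn z ∧
        dirn z < τ - (Real.log (Nat.gcd b.2 m) - Real.log (Nat.gcd b.1 m)) + δ),
        (if z.1 ≡ b.1 / Nat.gcd b.1 m [MOD m / Nat.gcd b.1 m] ∧ z.1.Coprime (Nat.gcd b.2 m) then
          (1 : ℂ) else 0) *
        (if z.2 ≡ b.2 / Nat.gcd b.2 m [MOD m / Nat.gcd b.2 m] ∧ z.2.Coprime (Nat.gcd b.1 m) then
          (1 : ℂ) else 0) * F (Nat.gcd b.1 m * z.1, Nat.gcd b.2 m * z.2) := by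
  classical
  obtain ⟨d1, hd1⟩ : ∃ d1, d1 = Nat.gcd b.1 m := ⟨_, rfl⟩
  obtain ⟨d2, hd2⟩ : ∃ d2, d2 = Nat.gcd b.2 m := ⟨_, rfl⟩
  have hd1p : d1 ≠ 0 := by rw [hd1]; exact (Nat.gcd_pos_of_pos_right _ hm).ne'
  have hd2p : d2 ≠ 0 := by rw [hd2]; exact (Nat.gcd_pos_of_pos_right _ hm).ne'
  have hmod1 : ∀ x, (d1 * x ≡ b.1 [MOD m]) ↔ x ≡ b.1 / d1 [MOD m / d1] := by
    intro x
    rw [hd1]
    exact arcg_mod hm
  have hmod2 : ∀ x, (d2 * x ≡ b.2 [MOD m]) ↔ x ≡ b.2 / d2 [MOD m / d2] := by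
    intro x
    rw [hd2]
    exact arcg_mod hm
  have hdv1 : ∀ x, x ≡ b.1 [MOD m] → d1 ∣ x := fun x hx => by rw [hd1]; exact arcg_dvd hx
  have hdv2 : ∀ x, x ≡ b.2 [MOD m] → d2 ∣ x := fun x hx => by rw [hd2]; exact arcg_dvd hx
  rw [← hd1, ← hd2] at hcop ⊢
  have hd1r : (0 : ℝ) < d1 := by exact_mod_cast Nat.pos_of_ne_zero hd1p
  have hd2r : (0 : ℝ) < d2 := by exact_mod_cast Nat.pos_of_ne_zero hd2p
  have hite : ∀ z : ℕ × ℕ,
      (if z.1 ≡ b.1 / d1 [MOD m / d1] ∧ z.1.Coprime d2 then (1 : ℂ) else 0) *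
        (if z.2 ≡ b.2 / d2 [MOD m / d2] ∧ z.2.Coprime d1 then (1 : ℂ) else 0) *
        F (d1 * z.1, d2 * z.2) =
      if (z.1 ≡ b.1 / d1 [MOD m / d1] ∧ z.1.Coprime d2) ∧
        (z.2 ≡ b.2 / d2 [MOD m / d2] ∧ z.2.Coprime d1) then F (d1 * z.1, d2 * z.2) else 0 := by
    intro z
    by_cases h1 : z.1 ≡ b.1 / d1 [MOD m / d1] ∧ z.1.Coprime d2
    · by_cases h2 : z.2 ≡ b.2 / d2 [MOD m / d2] ∧ z.2.Coprime d1
      · rw [if_pos h1, if_pos h2, if_pos ⟨h1, h2⟩, one_mul, one_mul]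
      · have h3 : ¬ ((z.1 ≡ b.1 / d1 [MOD m / d1] ∧ z.1.Coprime d2) ∧
            (z.2 ≡ b.2 / d2 [MOD m / d2] ∧ z.2.Coprime d1)) := fun h => h2 h.2
        rw [if_neg h2, if_neg h3, mul_zero, zero_mul]
    · have h3 : ¬ ((z.1 ≡ b.1 / d1 [MOD m / d1] ∧ z.1.Coprime d2) ∧
          (z.2 ≡ b.2 / d2 [MOD m / d2] ∧ z.2.Coprime d1)) := fun h => h1 h.1
      rw [if_neg h1, if_neg h3, zero_mul, zero_mul]
  rw [sum_congr rfl (fun z _ => hite z), ← sum_filter]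
  -- membership
  have hmem : ∀ z : ℕ × ℕ, (d1 * z.1, d2 * z.2) ∈ (PB C D).filter (fun z =>
      (z.1 ≡ b.1 [MOD m] ∧ z.2 ≡ b.2 [MOD m]) ∧ τ ≤ dirn z ∧ dirn z < τ + δ) ↔
      z ∈ ((PB (C / d1) (D / d2)).filter (fun z =>
        τ - (Real.log d2 - Real.log d1) ≤ dirn z ∧
        dirn z < τ - (Real.log d2 - Real.log d1) + δ)).filter (fun z =>
          (z.1 ≡ b.1 / d1 [MOD m / d1] ∧ z.1.Coprime d2) ∧
          (z.2 ≡ b.2 / d2 [MOD m / d2] ∧ z.2.Coprime d1)) := by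
    intro z
    rw [mem_filter, mem_filter, mem_filter, arcg_mem_PB, arcg_mem_PB]
    simp only [hmod1, hmod2, Nat.cast_mul]
    have e1 : (d1 : ℝ) * z.1 ≤ C ↔ (z.1 : ℝ) ≤ C / d1 := by
      rw [le_div_iff₀ hd1r, mul_comm]
    have e2 : (d2 : ℝ) * z.2 ≤ D ↔ (z.2 : ℝ) ≤ D / d2 := by
      rw [le_div_iff₀ hd2r, mul_comm]
    have e3 : (d1 * z.1).Coprime (d2 * z.2) ↔ z.1.Coprime z.2 ∧ z.1.Coprime d2 ∧
        z.2.Coprime d1 := by
      rw [Nat.coprime_mul_iff_left, Nat.coprime_mul_iff_right, Nat.coprime_mul_iff_right]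
      constructor
      · rintro ⟨⟨-, h2⟩, h3, h4⟩
        exact ⟨h4, h3, h2.symm⟩
      · rintro ⟨h4, h3, h2⟩
        exact ⟨⟨hcop, h2.symm⟩, h3, h4⟩
    rw [e1, e2, e3]
    constructor
    · rintro ⟨⟨⟨h1, h2⟩, h3, h4, h5, h6⟩, ⟨h7, h8⟩, h9, h10⟩
      have hz1 : z.1 ≠ 0 := fun h => h1 (by rw [h, mul_zero])
      have hz2 : z.2 ≠ 0 := fun h => h2 (by rw [h, mul_zero])
      rw [arcg_dirn hd1p hd2p hz1 hz2] at h9 h10
      exact ⟨⟨⟨⟨hz1, hz2⟩, h3, h4⟩, by linarith, by linarith⟩, ⟨h7, h5⟩, h8, h6⟩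
    · rintro ⟨⟨⟨⟨hz1, hz2⟩, h3, h4⟩, h9, h10⟩, ⟨h7, h5⟩, h8, h6⟩
      refine ⟨⟨⟨mul_ne_zero hd1p hz1, mul_ne_zero hd2p hz2⟩, h3, h4, h5, h6⟩, ⟨h7, h8⟩, ?_, ?_⟩
      · rw [arcg_dirn hd1p hd2p hz1 hz2]
        linarith
      · rw [arcg_dirn hd1p hd2p hz1 hz2]
        linarith
  refine sum_nbij' (fun z => (z.1 / d1, z.2 / d2)) (fun z => (d1 * z.1, d2 * z.2)) ?_ ?_ ?_ ?_ ?_
  · intro z hz
    have hz' := hz
    rw [mem_filter] at hz'
    have h1 := Nat.mul_div_cancel' (hdv1 _ hz'.2.1.1)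
    have h2 := Nat.mul_div_cancel' (hdv2 _ hz'.2.1.2)
    rw [← hmem]
    simp only [h1, h2]
    exact hz
  · intro z hz
    exact (hmem z).2 hz
  · intro z hz
    rw [mem_filter] at hz
    have h1 := Nat.mul_div_cancel' (hdv1 _ hz.2.1.1)
    have h2 := Nat.mul_div_cancel' (hdv2 _ hz.2.1.2)
    simp only [h1, h2]
  · intro z _
    simp only [Nat.mul_div_cancel_left _ (Nat.pos_of_ne_zero hd1p),
      Nat.mul_div_cancel_left _ (Nat.pos_of_ne_zero hd2p)]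
  · intro z hz
    rw [mem_filter] at hz
    have h1 := Nat.mul_div_cancel' (hdv1 _ hz.2.1.1)
    have h2 := Nat.mul_div_cancel' (hdv2 _ hz.2.1.2)
    simp only [h1, h2]

/-- decomposition of the sum over a class and an arc -/
theorem arc_g (Q : ℕ) (hQ : 0 < Q) (m : ℕ) (hm : 0 < m) (b : ℕ × ℕ) : ∃ (M1 M2 : ℕ) (_ : NeZero M1) (_ : NeZero M2) (n : ℕ)
    (χ : Fin n → DirichletCharacter ℂ M1) (ψ : Fin n → DirichletCharacter ℂ M2) (a : Fin n → ℂ) (d1 d2 : ℕ),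
    Q ∣ M1 ∧ Q ∣ M2 ∧ 0 < d1 ∧ 0 < d2 ∧ (∀ i, ‖a i‖ ≤ 1) ∧
    ∀ f g : ℕ → ℂ, CF f → CF g → (∀ n, ¬ n.Coprime Q → f n = 0) → (∀ n, ¬ n.Coprime Q → g n = 0) →
    ∀ C D δ τ : ℝ, S2 (pf f g) m b C D δ τ =
      ∑ i, a i * (f d1 * g d2) * Sg (tw f (χ i)) (tw g (ψ i)) (C / d1) (D / d2) δ (τ - (Real.log d2 - Real.log d1)) := by
  have hd1p : Nat.gcd b.1 m ≠ 0 := (Nat.gcd_pos_of_pos_right _ hm).ne'
  have hd2p : Nat.gcd b.2 m ≠ 0 := (Nat.gcd_pos_of_pos_right _ hm).ne'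
  by_cases hcop : (Nat.gcd b.1 m).Coprime (Nat.gcd b.2 m)
  swap
  · refine ⟨Q, Q, ⟨hQ.ne'⟩, ⟨hQ.ne'⟩, 0, fun i => i.elim0, fun i => i.elim0,
      fun i => i.elim0, 1, 1, dvd_rfl, dvd_rfl, one_pos, one_pos, fun i => i.elim0, ?_⟩
    intro f g _ _ _ _ C D δ τ
    rw [Fin.sum_univ_zero]
    unfold S2
    apply sum_eq_zero
    intro w hw
    exfalso
    rw [mem_filter, arcg_mem_PB] at hw
    apply hcop
    have h1 := arcg_dvd hw.2.1.1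
    have h2 := arcg_dvd hw.2.1.2
    exact Nat.Coprime.coprime_dvd_left h1 (Nat.Coprime.coprime_dvd_right h2 hw.1.2.2)
  · have hm1 : m / Nat.gcd b.1 m ≠ 0 :=
      (Nat.div_pos (Nat.le_of_dvd hm (Nat.gcd_dvd_right _ _)) (Nat.pos_of_ne_zero hd1p)).ne'
    have hm2 : m / Nat.gcd b.2 m ≠ 0 :=
      (Nat.div_pos (Nat.le_of_dvd hm (Nat.gcd_dvd_right _ _)) (Nat.pos_of_ne_zero hd2p)).ne'
    have hb1 : (b.1 / Nat.gcd b.1 m).Coprime (m / Nat.gcd b.1 m) :=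
      Nat.coprime_div_gcd_div_gcd (Nat.pos_of_ne_zero hd1p)
    have hb2 : (b.2 / Nat.gcd b.2 m).Coprime (m / Nat.gcd b.2 m) :=
      Nat.coprime_div_gcd_div_gcd (Nat.pos_of_ne_zero hd2p)
    obtain ⟨n1, χ, c, hc, hχ⟩ := arcg_cls _ (Nat.gcd b.2 m * Q) hm1 _ hb1
    obtain ⟨n2, ψ, e, he, hψ⟩ := arcg_cls _ (Nat.gcd b.1 m * Q) hm2 _ hb2
    refine ⟨m / Nat.gcd b.1 m * (Nat.gcd b.2 m * Q), m / Nat.gcd b.2 m * (Nat.gcd b.1 m * Q),
      ⟨mul_ne_zero hm1 (mul_ne_zero hd2p hQ.ne')⟩, ⟨mul_ne_zero hm2 (mul_ne_zero hd1p hQ.ne')⟩, n1 * n2,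
      fun i => χ (finProdFinEquiv.symm i).1, fun i => ψ (finProdFinEquiv.symm i).2,
      fun i => (c (finProdFinEquiv.symm i).1 * e (finProdFinEquiv.symm i).2),
      Nat.gcd b.1 m, Nat.gcd b.2 m, (Dvd.intro_left _ rfl).mul_left _, (Dvd.intro_left _ rfl).mul_left _,
      Nat.pos_of_ne_zero hd1p, Nat.pos_of_ne_zero hd2p, ?_, ?_⟩
    · intro i
      rw [norm_mul]
      exact mul_le_one₀ (hc _) (norm_nonneg _) (he _)
    · intro f g hf hg hfQ hgQ C D δ τ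
      have hsum : ∀ f : Fin n1 × Fin n2 → ℂ,
          ∑ i, f (finProdFinEquiv.symm i) = ∑ i, ∑ j, f (i, j) := by
        intro f
        rw [Equiv.sum_comp finProdFinEquiv.symm f, Fintype.sum_prod_type]
      have h1 := hsum (fun p => (c p.1 * e p.2) * (f (Nat.gcd b.1 m) * g (Nat.gcd b.2 m)) *
        Sg (tw f (χ p.1)) (tw g (ψ p.2)) (C / Nat.gcd b.1 m)
          (D / Nat.gcd b.2 m) δ (τ - (Real.log (Nat.gcd b.2 m) - Real.log (Nat.gcd b.1 m))))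
      refine Eq.trans ?_ h1.symm
      unfold S2
      refine (arcg_sum (pf f g) m hm b hcop C D δ τ).trans ?_
      unfold Sg
      simp only [mul_sum]
      rw [sum_congr rfl (fun i _ => sum_comm), sum_comm]
      refine sum_congr rfl (fun w hw => ?_)
      rw [mem_filter, arcg_mem_PB] at hw
      obtain ⟨⟨⟨hw1, hw2⟩, -⟩, -⟩ := hw
      have k1 : (if w.1 ≡ b.1 / Nat.gcd b.1 m [MOD m / Nat.gcd b.1 m] ∧ w.1.Coprime (Nat.gcd b.2 m) then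
          (1 : ℂ) else 0) * f w.1 = (∑ i, c i * χ i (w.1 : ZMod (m / Nat.gcd b.1 m * (Nat.gcd b.2 m * Q)))) * f w.1 := by
        rw [hχ w.1]
        by_cases hcq : w.1.Coprime Q
        · congr 1
          refine if_congr ?_ rfl rfl
          rw [Nat.coprime_mul_iff_right]
          tauto
        · rw [hfQ _ hcq, mul_zero, mul_zero]
      have k2 : (if w.2 ≡ b.2 / Nat.gcd b.2 m [MOD m / Nat.gcd b.2 m] ∧ w.2.Coprime (Nat.gcd b.1 m) then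
          (1 : ℂ) else 0) * g w.2 = (∑ i, e i * ψ i (w.2 : ZMod (m / Nat.gcd b.2 m * (Nat.gcd b.1 m * Q)))) * g w.2 := by
        rw [hψ w.2]
        by_cases hcq : w.2.Coprime Q
        · congr 1
          refine if_congr ?_ rfl rfl
          rw [Nat.coprime_mul_iff_right]
          tauto
        · rw [hgQ _ hcq, mul_zero, mul_zero]
      have k3 : pf f g (Nat.gcd b.1 m * w.1, Nat.gcd b.2 m * w.2) =
          (f (Nat.gcd b.1 m) * g (Nat.gcd b.2 m)) * (f w.1 * g w.2) := by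
        unfold pf
        rw [hf.mul _ _ hd1p hw1, hg.mul _ _ hd2p hw2]
        ring
      rw [k3]
      calc _ = (f (Nat.gcd b.1 m) * g (Nat.gcd b.2 m)) *
            (((if w.1 ≡ b.1 / Nat.gcd b.1 m [MOD m / Nat.gcd b.1 m] ∧ w.1.Coprime (Nat.gcd b.2 m) then
          (1 : ℂ) else 0) * f w.1) *
            ((if w.2 ≡ b.2 / Nat.gcd b.2 m [MOD m / Nat.gcd b.2 m] ∧ w.2.Coprime (Nat.gcd b.1 m) then
          (1 : ℂ) else 0) * g w.2)) := by ring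
        _ = (f (Nat.gcd b.1 m) * g (Nat.gcd b.2 m)) *
            (((∑ i, c i * χ i (w.1 : ZMod (m / Nat.gcd b.1 m * (Nat.gcd b.2 m * Q)))) * f w.1) *
            ((∑ i, e i * ψ i (w.2 : ZMod (m / Nat.gcd b.2 m * (Nat.gcd b.1 m * Q)))) * g w.2)) := by
              rw [k1, k2]
        _ = _ := by
              rw [sum_mul univ _ (f w.1), sum_mul univ _ (g w.2), sum_mul_sum, mul_sum]
              refine sum_congr rfl (fun i _ => ?_)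
              rw [mul_sum]
              refine sum_congr rfl (fun j _ => ?_)
              unfold tw
              ring

end Pool.Agent.SplB

end
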