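import Pool.Agent.Lib_MP_92ef0c_m.M03
import Pool.Agent.Lib_MP_92ef0c_m.M09
import Pool.Agent.Lib_MP_92ef0c_m.M19
import Pool.Agent.Lib_MP_92ef0c_m.M23

/-!
# MP_92ef0c_nt, split pairs: merged library part M35

Concatenation of smaller files (each in its own section), only to save build time.
-/

/-! ### from `Lib_MP_92ef0c_sp.EqArc0` -/

section

/-!
# Matrices of determinant 1 with the first row in an arc
-/

set_option autoImplicit false

namespace Pool.Agent.Spl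

open Finset Pool.Agent.GaussMR Pool.Agent.OmAll Pool.Agent.OmEq Filter

namespace EqArc

theorem re1 (α : ℤ) (u v : G) : ((α : G) * u + v).re = α * u.re + v.re := by simp

theorem im1 (α : ℤ) (u v : G) : ((α : G) * u + v).im = α * u.im + v.im := by simp

theorem re2 (α β : ℤ) (u v : G) : ((α : G) * u + (β : G) * v).re = α * u.re + β * v.re := by simp

theorem im2 (α β : ℤ) (u v : G) : ((α : G) * u + (β : G) * v).im = α * u.im + β * v.im := by simp

/-- the matrix as a pair of Gaussian integers -/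
def phi (e : Q4) : G × G := (⟨(e.a : ℤ), (e.b : ℤ)⟩, ⟨(e.c : ℤ), (e.d : ℤ)⟩)

theorem phi_inj : Function.Injective phi := by
  rintro ⟨a, b, c, d⟩ ⟨a', b', c', d'⟩ h
  simp only [phi, Prod.mk.injEq, Zsqrtd.ext_iff, Nat.cast_inj] at h
  obtain ⟨⟨rfl, rfl⟩, rfl, rfl⟩ := h
  rfl

/-- both coordinates of `k u + v` are positive -/
theorem pos_re {u v : G} (h : Fr u v) {k : ℤ} (hk : 2 ≤ k) : (1 : ℤ) ≤ ((k : G) * u + v).re ∧ (1 : ℤ) ≤ ((k : G) * u + v).im := by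
  obtain ⟨h0, h1, h2, h3, h4⟩ := h
  rw [re1, im1]
  constructor
  · by_contra hc
    have h5 : u.re = 0 := by nlinarith
    have h6 : v.re = 0 := by nlinarith
    unfold det at h0
    rw [h5, h6] at h0
    norm_num at h0
  · by_contra hc
    have h5 : u.im = 0 := by nlinarith
    have h6 : v.im = 0 := by nlinarith
    unfold det at h0
    rw [h5, h6] at h0
    norm_num at h0

/-- the directions in the arc -/
theorem dir_bd {u v : G} (h : Fr u v) {S M : ℕ} (hS : 2 ≤ S) {V : G} (hV : V ∈ arc u v S M) :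
    0 < V.re ∧ 0 < V.im ∧
    (V.re : ℝ) * ((((S : ℤ) : G) * u + v).im : ℝ) ≤
      (1 + (M : ℝ) / S) * ((((S : ℤ) : G) * u + v).re : ℝ) * V.im ∧
    (V.im : ℝ) * ((((S : ℤ) : G) * u + v).re : ℝ) ≤
      (1 + (M : ℝ) / S) * ((((S : ℤ) : G) * u + v).im : ℝ) * V.re := by
  obtain ⟨p1, p2⟩ := pos_re h (k := (S : ℤ)) (by exact_mod_cast hS)
  rw [re1] at p1
  rw [im1] at p2
  rw [re1, im1]
  obtain ⟨-, h1, h2, h3, h4⟩ := h
  obtain ⟨α, β, rfl, a1, a2, a3⟩ := hV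
  rw [re2, im2]
  have b1 : β * ((S : ℤ) * u.re + v.re) ≤ α * u.re + β * v.re := by nlinarith
  have b2 : β * ((S : ℤ) * u.im + v.im) ≤ α * u.im + β * v.im := by nlinarith
  have c1 : 0 < β * ((S : ℤ) * u.re + v.re) := by positivity
  have c2 : 0 < β * ((S : ℤ) * u.im + v.im) := by positivity
  have hSr : (0 : ℝ) < S := by
    have : 0 < S := by omega
    exact_mod_cast this
  have key : ∀ x y : ℤ, 0 ≤ x → 0 ≤ y → ((α * x + β * y : ℤ) : ℝ) ≤ (1 + (M : ℝ) / S) * (β * ((S : ℤ) * x + y) : ℤ) := by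
    intro x y hx hy
    have e1 : (α * x + β * y) ≤ ((S : ℤ) + M) * β * x + β * y := by nlinarith
    have e2 : ((α * x + β * y : ℤ) : ℝ) ≤ (((S : ℤ) + M) * β * x + β * y : ℤ) := by exact_mod_cast e1
    refine e2.trans ?_
    push_cast
    have hβ : (0 : ℝ) < β := by exact_mod_cast a1
    have hx' : (0 : ℝ) ≤ x := by exact_mod_cast hx
    have hy' : (0 : ℝ) ≤ y := by exact_mod_cast hy
    have e3 : (1 + (M : ℝ) / S) * (β * (S * x + y)) = (S + M) * β * x + β * y + (M : ℝ) / S * (β * y) := by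
      field_simp
      ring
    rw [e3]
    have : 0 ≤ (M : ℝ) / S * (β * y) := by positivity
    linarith
  have k1 := key _ _ h1 h3
  have k2 := key _ _ h2 h4
  have b1' : ((β * ((S : ℤ) * u.re + v.re) : ℤ) : ℝ) ≤ ((α * u.re + β * v.re : ℤ) : ℝ) := by exact_mod_cast b1
  have b2' : ((β * ((S : ℤ) * u.im + v.im) : ℤ) : ℝ) ≤ ((α * u.im + β * v.im : ℤ) : ℝ) := by exact_mod_cast b2
  have q1 : (0 : ℝ) < (((S : ℤ) * u.re + v.re : ℤ) : ℝ) := by exact_mod_cast (by omega : (0 : ℤ) < (S : ℤ) * u.re + v.re)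
  have q2 : (0 : ℝ) < (((S : ℤ) * u.im + v.im : ℤ) : ℝ) := by exact_mod_cast (by omega : (0 : ℤ) < (S : ℤ) * u.im + v.im)
  have hK : (0 : ℝ) < 1 + (M : ℝ) / S := by positivity
  refine ⟨by omega, by omega, ?_, ?_⟩
  · rw [Int.cast_mul] at k1 b2'
    calc ((α * u.re + β * v.re : ℤ) : ℝ) * (((S : ℤ) * u.im + v.im : ℤ) : ℝ)
        ≤ ((1 + (M : ℝ) / S) * (β * (((S : ℤ) * u.re + v.re : ℤ) : ℝ))) * (((S : ℤ) * u.im + v.im : ℤ) : ℝ) :=
          mul_le_mul_of_nonneg_right k1 q2.le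
      _ = ((1 + (M : ℝ) / S) * (((S : ℤ) * u.re + v.re : ℤ) : ℝ)) * (β * (((S : ℤ) * u.im + v.im : ℤ) : ℝ)) := by ring
      _ ≤ _ := mul_le_mul_of_nonneg_left b2' (by positivity)
  · rw [Int.cast_mul] at k2 b1'
    calc ((α * u.im + β * v.im : ℤ) : ℝ) * (((S : ℤ) * u.re + v.re : ℤ) : ℝ)
        ≤ ((1 + (M : ℝ) / S) * (β * (((S : ℤ) * u.im + v.im : ℤ) : ℝ))) * (((S : ℤ) * u.re + v.re : ℤ) : ℝ) :=
          mul_le_mul_of_nonneg_right k2 q1.le
      _ = ((1 + (M : ℝ) / S) * (((S : ℤ) * u.im + v.im : ℤ) : ℝ)) * (β * (((S : ℤ) * u.re + v.re : ℤ) : ℝ)) := by ring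
      _ ≤ _ := mul_le_mul_of_nonneg_left b1' (by positivity)

/-- difference of logarithms -/
theorem log_diff {X Y p K m : ℝ} (hp : 0 < p) (hX1 : p ≤ X) (hX2 : X ≤ K * p) (hY1 : p ≤ Y) (hY2 : Y ≤ K * p)
    (h : |X - Y| = m) : m / (K * p) ≤ |Real.log X - Real.log Y| ∧ |Real.log X - Real.log Y| ≤ m / p := by
  wlog hXY : Y ≤ X generalizing X Y
  · have := this hY1 hY2 hX1 hX2 (by rw [abs_sub_comm]; exact h) (by linarith)
    rwa [abs_sub_comm] at this
  have hX : 0 < X := by linarith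
  have hY : 0 < Y := by linarith
  have h1 : |X - Y| = X - Y := abs_of_nonneg (by linarith)
  rw [h1] at h
  have h2 : 0 ≤ Real.log X - Real.log Y := by
    have := Real.log_le_log hY hXY
    linarith
  rw [abs_of_nonneg h2, ← Real.log_div hX.ne' hY.ne']
  have hm : 0 ≤ m := by linarith
  constructor
  · have h3 := Real.one_sub_inv_le_log_of_pos (div_pos hX hY)
    refine le_trans ?_ h3
    rw [inv_div]
    have h4 : 1 - Y / X = m / X := by
      rw [← h]; field_simp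
    rw [h4]
    exact div_le_div_of_nonneg_left hm hX hX2
  · have h3 := Real.log_le_sub_one_of_pos (div_pos hX hY)
    refine h3.trans ?_
    have h4 : X / Y - 1 = m / Y := by
      rw [← h]; field_simp
    rw [h4]
    exact div_le_div_of_nonneg_left hm hp hY1

/-- the matrices counted in `arcS` -/
def FP (M : ℕ) (γ : Q4) (u v : G) (S : ℕ) (w1 w2 : ℝ) (e : Q4) : Prop :=
  cq M e γ ∧ (⟨(e.a : ℤ), (e.b : ℤ)⟩ : G) ∈ arc u v S M ∧ w1 ≤ wS e ∧ wS e < w2

/-- small edges -/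
def Sm (B B' : ℝ) : Set (G × G) := {e | (nm e.1 : ℝ) ≤ B ∧ (nm e.2 : ℝ) ≤ B'}

theorem Sm_finite (B B' : ℝ) : (Sm B B').Finite := by
  apply ((finite_ball B).prod (finite_ball B')).subset
  rintro ⟨V, V'⟩ ⟨h1, h2⟩
  exact ⟨h1, h2⟩

theorem nm_r (z : G) : (nm z : ℝ) = (z.re : ℝ) ^ 2 + (z.im : ℝ) ^ 2 := by
  exact_mod_cast nm_eq z

theorem dvd_of_modEq {M a b : ℕ} (h : a ≡ b [MOD M]) : (M : ℤ) ∣ (a : ℤ) - b := by
  have := (Nat.modEq_iff_dvd.1 h)
  rw [← neg_sub]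
  exact (dvd_neg).2 this

theorem modEq_of_dvd {M a b : ℕ} (h : (M : ℤ) ∣ (a : ℤ) - b) : a ≡ b [MOD M] := by
  rw [Nat.modEq_iff_dvd, ← neg_sub]
  exact (dvd_neg).2 h

/-- bound for the logarithmic length of the arc -/
theorem lam_bd (u v : G) (huv : Fr u v) (S M : ℕ) (hS : 2 ≤ S) {R I K : ℝ}
    (hR : R = ((((S : ℤ) : G) * u + v).re : ℝ)) (hI : I = ((((S : ℤ) : G) * u + v).im : ℝ)) (hK : K = 1 + (M : ℝ) / S) :
    (M : ℝ) / (K * (R * I)) ≤ |dl ((((S : ℤ) + M : ℤ) : G) * u + v) - dl (((S : ℤ) : G) * u + v)| ∧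
      |dl ((((S : ℤ) + M : ℤ) : G) * u + v) - dl (((S : ℤ) : G) * u + v)| ≤ M / (R * I) := by
  obtain ⟨P1, P2⟩ := pos_re huv (k := (S : ℤ)) (by exact_mod_cast hS)
  obtain ⟨P3, P4⟩ := pos_re huv (k := (S : ℤ) + M) (by have : (2 : ℤ) ≤ S := by exact_mod_cast hS
                                                       omega)
  have hRp : 0 < R := by rw [hR]; exact_mod_cast (by omega : (0 : ℤ) < (((S : ℤ) : G) * u + v).re)
  have hIp : 0 < I := by rw [hI]; exact_mod_cast (by omega : (0 : ℤ) < (((S : ℤ) : G) * u + v).im)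
  obtain ⟨R1, hR1⟩ : ∃ R1 : ℝ, R1 = (((((S : ℤ) + M : ℤ) : G) * u + v).re : ℝ) := ⟨_, rfl⟩
  obtain ⟨I1, hI1⟩ : ∃ I1 : ℝ, I1 = (((((S : ℤ) + M : ℤ) : G) * u + v).im : ℝ) := ⟨_, rfl⟩
  have hR1p : 0 < R1 := by rw [hR1]; exact_mod_cast (by omega : (0 : ℤ) < ((((S : ℤ) + M : ℤ) : G) * u + v).re)
  have hI1p : 0 < I1 := by rw [hI1]; exact_mod_cast (by omega : (0 : ℤ) < ((((S : ℤ) + M : ℤ) : G) * u + v).im)
  have hSr : (0 : ℝ) < S := by
    have : 0 < S := by omega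
    exact_mod_cast this
  obtain ⟨h0, h1, h2, h3, h4⟩ := huv
  have h1r : (0 : ℝ) ≤ u.re := by exact_mod_cast h1
  have h2r : (0 : ℝ) ≤ u.im := by exact_mod_cast h2
  have h3r : (0 : ℝ) ≤ v.re := by exact_mod_cast h3
  have h4r : (0 : ℝ) ≤ v.im := by exact_mod_cast h4
  have fR : R = S * u.re + v.re := by rw [hR, re1]; push_cast; ring
  have fI : I = S * u.im + v.im := by rw [hI, im1]; push_cast; ring
  have fR1 : R1 = R + M * u.re := by rw [hR1, re1, fR]; push_cast; ring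
  have fI1 : I1 = I + M * u.im := by rw [hI1, im1, fI]; push_cast; ring
  have hMr : (0 : ℝ) ≤ M := by positivity
  have gR : R ≤ R1 := by rw [fR1]; have : 0 ≤ (M : ℝ) * u.re := by positivity
                         linarith
  have gI : I ≤ I1 := by rw [fI1]; have : 0 ≤ (M : ℝ) * u.im := by positivity
                         linarith
  have gR' : R1 ≤ K * R := by
    rw [fR1, hK]
    have e1 : (1 + (M : ℝ) / S) * R = R + M * u.re + (M : ℝ) / S * v.re := by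
      rw [fR]; field_simp; ring
    rw [e1]
    have : 0 ≤ (M : ℝ) / S * v.re := by positivity
    linarith
  have gI' : I1 ≤ K * I := by
    rw [fI1, hK]
    have e1 : (1 + (M : ℝ) / S) * I = I + M * u.im + (M : ℝ) / S * v.im := by
      rw [fI]; field_simp; ring
    rw [e1]
    have : 0 ≤ (M : ℝ) / S * v.im := by positivity
    linarith
  have hdet : |I1 * R - R1 * I| = M := by
    have e1 : I1 * R - R1 * I = M * (-(det u v : ℝ)) := by
      rw [fI1, fR1, fR, fI]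
      unfold det
      push_cast
      ring
    rw [e1, abs_mul, abs_neg]
    have e2 : |(det u v : ℝ)| = 1 := by exact_mod_cast h0
    rw [e2, mul_one, abs_of_nonneg hMr]
  have e3 : dl ((((S : ℤ) + M : ℤ) : G) * u + v) - dl (((S : ℤ) : G) * u + v) = Real.log (I1 * R) - Real.log (R1 * I) := by
    unfold dl
    rw [← hR1, ← hI1, ← hR, ← hI, Real.log_mul hI1p.ne' hRp.ne', Real.log_mul hR1p.ne' hIp.ne']
    ring
  rw [e3]
  apply log_diff (by positivity)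
  · nlinarith
  · nlinarith
  · nlinarith
  · nlinarith
  · exact hdet

open Classical in
/-- the statement of `upper_set` -/
def UpperS : Prop :=
  ∀ (M : ℕ) (γ : Q4) (u v : G) (huv : Fr u v) (S : ℕ) (hS : 2 ≤ S) (w1 w2 : ℝ) (δ B R I K : ℝ) (hδ : 0 < δ)
    (hR : R = ((((S : ℤ) : G) * u + v).re : ℝ)) (hI : I = ((((S : ℤ) : G) * u + v).im : ℝ)) (hK : K = 1 + (M : ℝ) / S)
    (hB : 3 * (K * I) ≤ δ * Real.exp w2 * R * B) (x : ℝ),
    (((SN 1 x).filter (fun e => FP M γ u v S w1 w2 e)).card) ≤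
      ({e : G × G | e ∈ NE M (phi γ) (2 * w1) (2 * w2 + δ) (K * (R ^ 2 + I ^ 2) * (x + 1) / (R * I)) ∧ e.1 ∈ arc u v S M}.ncard) +
        (Sm B ((Real.exp (2 * w2) + 3 * Real.exp w2) * B)).ncard

open Classical in
/-- the statement of `lower_set` -/
def LowerS : Prop :=
  ∀ (M : ℕ) (γ : Q4) (u v : G) (huv : Fr u v) (S : ℕ) (hS : 2 ≤ S) (w1 w2 : ℝ) (δ B R I K : ℝ) (hδ : 0 < δ)
    (hR : R = ((((S : ℤ) : G) * u + v).re : ℝ)) (hI : I = ((((S : ℤ) : G) * u + v).im : ℝ)) (hK : K = 1 + (M : ℝ) / S)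
    (hB1 : 1 < Real.exp (2 * w1 + δ) * B)
    (hB : 3 * (K * I) ≤ δ * Real.exp w1 * R * B) (x : ℝ),
    ({e : G × G | e ∈ NE M (phi γ) (2 * w1 + δ) (2 * w2) (x * (R ^ 2 + I ^ 2) / (K * (R * I))) ∧ e.1 ∈ arc u v S M}.ncard) ≤
    (((SN 1 x).filter (fun e => FP M γ u v S w1 w2 e)).card) +
        (Sm B (Real.exp (2 * w2) * B)).ncard

end EqArc

end Pool.Agent.Spl

end

/-! ### from `Lib_MP_92ef0c_sp.EqArcB2` -/

section

/-!
# Matrices of determinant 1 with the first row in an arc, lower bound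
-/

set_option autoImplicit false

namespace Pool.Agent.Spl

open Finset Pool.Agent.GaussMR Pool.Agent.OmAll Pool.Agent.OmEq Filter

namespace EqArc

open Classical in
theorem lower_set (M : ℕ) (γ : Q4) (u v : G) (huv : Fr u v) (S : ℕ) (hS : 2 ≤ S) (w1 w2 : ℝ) (δ B R I K : ℝ) (hδ : 0 < δ)
    (hR : R = ((((S : ℤ) : G) * u + v).re : ℝ)) (hI : I = ((((S : ℤ) : G) * u + v).im : ℝ)) (hK : K = 1 + (M : ℝ) / S)
    (hB1 : 1 < Real.exp (2 * w1 + δ) * B)
    (hB : 3 * (K * I) ≤ δ * Real.exp w1 * R * B) (x : ℝ) :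
    ({e : G × G | e ∈ NE M (phi γ) (2 * w1 + δ) (2 * w2) (x * (R ^ 2 + I ^ 2) / (K * (R * I))) ∧ e.1 ∈ arc u v S M}.ncard) ≤
    (((SN 1 x).filter (fun e => FP M γ u v S w1 w2 e)).card) +
        (Sm B (Real.exp (2 * w2) * B)).ncard := by
  rw [← Finset.card_image_of_injective _ phi_inj, ← Set.ncard_coe_finset]
  refine le_trans (Set.ncard_le_ncard ?_ ((Finset.finite_toSet _).union (Sm_finite _ _))) (Set.ncard_union_le _ _)
  rintro ⟨⟨a, b⟩, ⟨c, d⟩⟩ ⟨⟨e1, e2, e3, e4, e5, e6, e7⟩, e8⟩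
  simp only at e1 e2 e3 e4 e5 e6 e7 e8
  obtain ⟨d1, d2, d3, d4⟩ := dir_bd huv hS e8
  simp only at d1 d2 d3 d4
  obtain ⟨P1, P2⟩ := pos_re huv (k := (S : ℤ)) (by exact_mod_cast hS)
  have hRp : 0 < R := by rw [hR]; exact_mod_cast (by omega : (0 : ℤ) < (((S : ℤ) : G) * u + v).re)
  have hIp : 0 < I := by rw [hI]; exact_mod_cast (by omega : (0 : ℤ) < (((S : ℤ) : G) * u + v).im)
  rw [← hI, ← hR, ← hK] at d3 d4
  have hKp : 0 < K := by rw [hK]; positivity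
  rw [nm_r, nm_r] at e4 e5
  simp only at e4 e5
  by_cases hBN : B ≤ (a : ℝ) ^ 2 + b ^ 2
  · left
    have hx : K * ((a * c + b * d : ℤ) : ℝ) * (R * I) ≤ x * (R ^ 2 + I ^ 2) := by
      unfold dot at e3
      simp only at e3
      rw [le_div_iff₀ (by positivity)] at e3
      linarith
    obtain ⟨k1, k2, k3, k4, k5⟩ := lo_edge d1 d2 e1 hRp hIp hδ d3 d4 e2 hx e4 e5 hB1 hB hBN
    simp only at k1 k2
    rw [Finset.mem_coe, Finset.mem_image]
    lift a to ℕ using d1.le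
    lift b to ℕ using d2.le
    lift c to ℕ using k1.le
    lift d to ℕ using k2.le
    simp only [Int.cast_natCast] at k3 k4 k5
    have har : (0 : ℝ) < a := by exact_mod_cast d1
    have hcr : (0 : ℝ) < c := by exact_mod_cast k1
    have e1' : a * d = b * c + 1 := by
      have : (a : ℤ) * d = b * c + 1 := by
        unfold det at e1
        simp only at e1
        linarith
      exact_mod_cast this
    refine ⟨⟨a, b, c, d⟩, ?_, rfl⟩
    rw [mem_filter, mem_SN]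
    refine ⟨⟨⟨e1', by exact_mod_cast d1, by exact_mod_cast d2, by exact_mod_cast k1, by exact_mod_cast k2, ?_, ?_⟩, k5⟩,
      ⟨modEq_of_dvd e6.1, modEq_of_dvd e6.2, modEq_of_dvd e7.1, modEq_of_dvd e7.2⟩, e8, ?_, ?_⟩
    · show Nat.Coprime a b
      rw [← Nat.isCoprime_iff_coprime]
      exact ⟨d, -c, by unfold det at e1; simp only at e1; linarith⟩
    · show Nat.Coprime c d
      rw [← Nat.isCoprime_iff_coprime]
      exact ⟨-b, a, by unfold det at e1; simp only at e1; linarith⟩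
    · unfold wS
      simp only
      have := Real.log_le_log (by positivity) k3
      rw [Real.log_mul (Real.exp_pos _).ne' har.ne', Real.log_exp] at this
      linarith
    · unfold wS
      simp only
      have := Real.log_lt_log hcr k4
      rw [Real.log_mul (Real.exp_pos _).ne' har.ne', Real.log_exp] at this
      linarith
  · right
    push Not at hBN
    refine ⟨?_, ?_⟩
    · rw [nm_r]; exact hBN.le
    · rw [nm_r]
      refine e5.le.trans ?_
      exact mul_le_mul_of_nonneg_left hBN.le (Real.exp_pos _).le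

end EqArc

end Pool.Agent.Spl

end

/-! ### from `Lib_MP_92ef0c_sp.EqArcB1` -/

section

/-!
# Matrices of determinant 1 with the first row in an arc, upper bound
-/

set_option autoImplicit false

namespace Pool.Agent.Spl

open Finset Pool.Agent.GaussMR Pool.Agent.OmAll Pool.Agent.OmEq Filter

namespace EqArc

open Classical in
theorem upper_set (M : ℕ) (γ : Q4) (u v : G) (huv : Fr u v) (S : ℕ) (hS : 2 ≤ S) (w1 w2 : ℝ) (δ B R I K : ℝ) (hδ : 0 < δ)
    (hR : R = ((((S : ℤ) : G) * u + v).re : ℝ)) (hI : I = ((((S : ℤ) : G) * u + v).im : ℝ)) (hK : K = 1 + (M : ℝ) / S)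
    (hB : 3 * (K * I) ≤ δ * Real.exp w2 * R * B) (x : ℝ) :
    (((SN 1 x).filter (fun e => FP M γ u v S w1 w2 e)).card) ≤
      ({e : G × G | e ∈ NE M (phi γ) (2 * w1) (2 * w2 + δ) (K * (R ^ 2 + I ^ 2) * (x + 1) / (R * I)) ∧ e.1 ∈ arc u v S M}.ncard) +
        (Sm B ((Real.exp (2 * w2) + 3 * Real.exp w2) * B)).ncard := by
  have hfin : {e : G × G | e ∈ NE M (phi γ) (2 * w1) (2 * w2 + δ) (K * (R ^ 2 + I ^ 2) * (x + 1) / (R * I)) ∧ e.1 ∈ arc u v S M}.Finite :=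
    (NE_finite _ _ _ _ _).subset (fun _ h => h.1)
  rw [← Finset.card_image_of_injective _ phi_inj, ← Set.ncard_coe_finset]
  refine le_trans (Set.ncard_le_ncard ?_ (hfin.union (Sm_finite _ _))) (Set.ncard_union_le _ _)
  intro e he
  rw [Finset.mem_coe, Finset.mem_image] at he
  obtain ⟨f, hf, rfl⟩ := he
  rw [mem_filter, mem_SN] at hf
  obtain ⟨⟨⟨s1, s2, s3, s4, s5, s6, s7⟩, s8⟩, ⟨t1, t2, t3, t4⟩, t5, t6, t7⟩ := hf
  obtain ⟨d1, d2, d3, d4⟩ := dir_bd huv hS t5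
  simp only at d1 d2 d3 d4
  obtain ⟨P1, P2⟩ := pos_re huv (k := (S : ℤ)) (by exact_mod_cast hS)
  have hRp : 0 < R := by rw [hR]; exact_mod_cast (by omega : (0 : ℤ) < (((S : ℤ) : G) * u + v).re)
  have hIp : 0 < I := by rw [hI]; exact_mod_cast (by omega : (0 : ℤ) < (((S : ℤ) : G) * u + v).im)
  rw [← hI, ← hR, ← hK] at d3 d4
  have ha : (1 : ℝ) ≤ f.a := by exact_mod_cast s2
  have hb : (1 : ℝ) ≤ f.b := by exact_mod_cast s3
  have hc : (1 : ℝ) ≤ f.c := by exact_mod_cast s4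
  have hd : (f.a : ℝ) * f.d - f.b * f.c = 1 := by
    have : (f.a : ℝ) * f.d = f.b * f.c + 1 := by exact_mod_cast s1
    linarith
  have hw1 : Real.exp w1 * f.a ≤ f.c := by
    unfold wS at t6
    rw [← Real.log_le_log_iff (by positivity) (by linarith), Real.log_mul (Real.exp_pos _).ne' (by linarith), Real.log_exp]
    linarith
  have hw2 : (f.c : ℝ) < Real.exp w2 * f.a := by
    unfold wS at t7
    rw [← Real.log_lt_log_iff (by linarith) (by positivity), Real.log_mul (Real.exp_pos _).ne' (by linarith), Real.log_exp]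
    linarith
  have hx : (f.b : ℝ) * f.c ≤ x := s8
  have d3' : (f.a : ℝ) * I ≤ K * R * f.b := by exact_mod_cast d3
  have d4' : (f.b : ℝ) * R ≤ K * I * f.a := by exact_mod_cast d4
  obtain ⟨u1, u2, u3, u4, u5⟩ := up_edge ha hb hc hd hRp hIp hδ d3' d4' hw1 hw2 hx hB
  have n1 : (nm (phi f).1 : ℝ) = (f.a : ℝ) ^ 2 + f.b ^ 2 := by
    rw [nm_r]; unfold phi; push_cast; rfl
  have n2 : (nm (phi f).2 : ℝ) = (f.c : ℝ) ^ 2 + f.d ^ 2 := by
    rw [nm_r]; unfold phi; push_cast; rfl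
  have n3 : ((dot (phi f).1 (phi f).2 : ℤ) : ℝ) = (f.a : ℝ) * f.c + f.b * f.d := by
    unfold dot phi; push_cast; rfl
  have n4 : det (phi f).1 (phi f).2 = 1 := by
    unfold det phi
    have : (f.a : ℤ) * f.d = f.b * f.c + 1 := by exact_mod_cast s1
    linarith
  by_cases hBN : B ≤ (f.a : ℝ) ^ 2 + f.b ^ 2
  · left
    refine ⟨⟨n4, ?_, ?_, ?_, ?_, ?_, ?_⟩, t5⟩
    · have : (0 : ℝ) < ((dot (phi f).1 (phi f).2 : ℤ) : ℝ) := by rw [n3]; exact u2
      exact_mod_cast this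
    · rw [n3, le_div_iff₀ (by positivity)]
      exact u3
    · rw [n1, n2]
      exact u4
    · rw [n1, n2]
      exact u5 hBN
    · exact ⟨dvd_of_modEq t1, dvd_of_modEq t2⟩
    · exact ⟨dvd_of_modEq t3, dvd_of_modEq t4⟩
  · right
    push Not at hBN
    refine ⟨?_, ?_⟩
    · rw [n1]; exact hBN.le
    · rw [n2]
      refine u1.trans ?_
      exact mul_le_mul_of_nonneg_left hBN.le (by positivity)

end EqArc

end Pool.Agent.Spl

end

/-! ### from `Lib_MP_92ef0c_sp.EqArc` -/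

section

/-!
# Matrices of determinant 1 with the first row in an arc
-/

set_option autoImplicit false

namespace Pool.Agent.Spl

open Finset Pool.Agent.GaussMR Pool.Agent.OmAll Pool.Agent.OmEq Filter

open Classical in
/-- PROOF. Let `z0 = S u + v`, `z1 = (S + M) u + v`; both have positive coordinates, `re z0 ≤ re z1 ≤ (1 + M/S) re z0` and the same for `im` (`M u ≤ (M/S) S u` coordinatewise). If `V = α u + β v` is in the arc, `V = β z`, `z = σ u + v`, `S ≤ σ < S + M`, so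
`re z0 ≤ re z ≤ (1+M/S) re z0`, same for `im`; with `ρ = im V / re V` and `ρ0 = im z0 / re z0`: `ρ / ρ0 ∈ [1/(1+M/S), 1+M/S]`, hence for `ψ(ρ) = ρ + 1/ρ = nm z / (re z im z)`: `ψ(ρ)/ψ(ρ0) ∈ [1/(1+M/S), 1+M/S]`.
A matrix `e = (a b; c d) ∈ SN 1 x` is the edge `V = ⟨a, b⟩`, `V' = ⟨c, d⟩`, `det V V' = a d - b c = 1`. With `r = c / a = exp (wS e)`: `d = (b c + 1) / a = r b + 1/a`, so `V' = r V + ⟨0, 1/a⟩`, `dot V V' = r nm V + b / a`, `nm V' = r^2 nm V + 2 r b/a + 1/a^2`. For `w1 ≤ wS e < w2` and `ρ` in the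
compact range above, `nm V' / nm V = r^2 (1 + O(1/nm V))` and `dot / (b c) = (a c + b d)/(b c) = ψ(ρ) (1 + O(1/nm V))`. Given `δ > 0`, except for finitely many `V` (`nm V ≤ B0(δ)`; for each such `V` the number of `V'` with `c < exp w2 a` is bounded, so altogether `O(1)` matrices):
`e` with `w1 ≤ wS < w2`, `b c ≤ x` lies in `NE M γ' (2 w1 - δ) (2 w2 + δ) (x ψ(ρ0) (1 + M/S) (1 + δ))`, and conversely an edge in the arc that is in `NE M γ' (2 w1 + δ) (2 w2 - δ) (x ψ(ρ0) (1+M/S)⁻¹ (1-δ))` and has large norm gives such an `e` (`c > 0` as `nm V' > exp(..) nm V` and the edge is nearly parallel to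
`V`: `c = r a` with `r > 0`; `d > 0`; rows primitive). `γ' = (⟨γ.a, γ.b⟩, ⟨γ.c, γ.d⟩)`, `cg M` against `Nat.ModEq`: `Int.natCast_modEq_iff`. By `arc_asymp` (constant `c`) the number is at most `c (2 (w2 - w1) + 2 δ)/(nm z0) * x ψ(ρ0) (1+M/S)(1+δ) + ε' x + O(1)` and `ψ(ρ0)/nm z0 = 1/(re z0 im z0)`; from below with
`nm z1 ≤ (1+M/S)^2 nm z0`. Finally `λ = |dl z1 - dl z0| = |log X - log Y|`, `X = im z1 re z0`, `Y = re z1 im z0`, `|X - Y| = |det z0 z1| = M`, both in `[re z0 im z0, (1+M/S) re z0 im z0]`, so `M / ((1+M/S) re z0 im z0) ≤ λ ≤ M / (re z0 im z0)`. Let `δ, ε' → 0`. -/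
theorem arcS' (hUp : EqArc.UpperS) (hLo : EqArc.LowerS) (M : ℕ) (hM : 0 < M) (c : ℝ) (hc : CopC M c) (γ : Q4) (hγ : γ.a * γ.d ≡ γ.b * γ.c + 1 [MOD M])
    (u v : G) (huv : Fr u v) (S : ℕ) (hS : 2 ≤ S) (w1 w2 : ℝ) (hw : w1 ≤ w2) (ε : ℝ) (hε : 0 < ε) :
    ∃ x0 : ℝ, ∀ x : ℝ, x0 ≤ x →
      2 * c / M * (w2 - w1) * |dl ((((S : ℤ) + M : ℤ) : G) * u + v) - dl (((S : ℤ) : G) * u + v)| / (1 + (M : ℝ) / S) ^ 4 * x - ε * x ≤
        (((SN 1 x).filter (fun e => cq M e γ ∧ (⟨(e.a : ℤ), (e.b : ℤ)⟩ : G) ∈ arc u v S M ∧ w1 ≤ wS e ∧ wS e < w2)).card : ℝ) ∧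
      (((SN 1 x).filter (fun e => cq M e γ ∧ (⟨(e.a : ℤ), (e.b : ℤ)⟩ : G) ∈ arc u v S M ∧ w1 ≤ wS e ∧ wS e < w2)).card : ℝ) ≤
        2 * c / M * (w2 - w1) * |dl ((((S : ℤ) + M : ℤ) : G) * u + v) - dl (((S : ℤ) : G) * u + v)| * (1 + (M : ℝ) / S) ^ 4 * x + ε * x := by
  have hc0 := copC_nonneg M c hc
  have hMr : (0 : ℝ) < M := by exact_mod_cast hM
  have hSr : (0 : ℝ) < S := by
    have : 0 < S := by omega
    exact_mod_cast this
  obtain ⟨P1, P2⟩ := EqArc.pos_re huv (k := (S : ℤ)) (by exact_mod_cast hS)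
  obtain ⟨R, hR⟩ : ∃ R : ℝ, R = ((((S : ℤ) : G) * u + v).re : ℝ) := ⟨_, rfl⟩
  obtain ⟨I, hI⟩ : ∃ I : ℝ, I = ((((S : ℤ) : G) * u + v).im : ℝ) := ⟨_, rfl⟩
  obtain ⟨K, hK⟩ : ∃ K : ℝ, K = 1 + (M : ℝ) / S := ⟨_, rfl⟩
  have hRp : 0 < R := by rw [hR]; exact_mod_cast (by omega : (0 : ℤ) < (((S : ℤ) : G) * u + v).re)
  have hIp : 0 < I := by rw [hI]; exact_mod_cast (by omega : (0 : ℤ) < (((S : ℤ) : G) * u + v).im)
  have hK1 : 1 ≤ K := by
    rw [hK]
    have : 0 ≤ (M : ℝ) / S := by positivity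
    linarith
  have hKp : 0 < K := by linarith
  obtain ⟨hl1, hl2⟩ := EqArc.lam_bd u v huv S M hS hR hI hK
  have hrat := arc_ratio u v huv S M (by omega)
  rw [← hK] at hrat ⊢
  obtain ⟨L, hL⟩ : ∃ L : ℝ, L = |dl ((((S : ℤ) + M : ℤ) : G) * u + v) - dl (((S : ℤ) : G) * u + v)| := ⟨_, rfl⟩
  rw [← hL] at hl1 hl2 ⊢
  have hL0 : 0 ≤ L := by rw [hL]; positivity
  obtain ⟨q0, hq0⟩ : ∃ q0 : ℝ, q0 = (nm (((S : ℤ) : G) * u + v) : ℝ) := ⟨_, rfl⟩
  obtain ⟨q1, hq1⟩ : ∃ q1 : ℝ, q1 = (nm ((((S : ℤ) + M : ℤ) : G) * u + v) : ℝ) := ⟨_, rfl⟩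
  have hq0' : q0 = R ^ 2 + I ^ 2 := by rw [hq0, EqArc.nm_r, hR, hI]
  have hq0p : 0 < q0 := by rw [hq0']; positivity
  rw [← hq0, ← hq1] at hrat
  have hq1p : 0 < q1 := by
    rw [hq1]
    have hne : nm ((((S : ℤ) + M : ℤ) : G) * u + v) ≠ 0 := by
      rw [Ne, nm_eq_zero]
      intro h0
      have hSM : (2 : ℤ) ≤ (S : ℤ) + M := by
        have : (2 : ℤ) ≤ S := by exact_mod_cast hS
        omega
      obtain ⟨P3, -⟩ := EqArc.pos_re huv (k := (S : ℤ) + M) hSM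
      rw [h0] at P3
      simp at P3
    exact_mod_cast Nat.pos_of_ne_zero hne
  obtain ⟨p, hp⟩ : ∃ p : ℝ, p = R * I := ⟨_, rfl⟩
  have hpp : 0 < p := by rw [hp]; positivity
  rw [← hp] at hl1 hl2
  obtain ⟨w, hw'⟩ : ∃ w : ℝ, w = w2 - w1 := ⟨_, rfl⟩
  have hw0 : 0 ≤ w := by linarith
  -- `1 / p ≤ K L / M` and `L / M ≤ 1 / p`
  have hp1 : 1 / p ≤ K * L / M := by
    rw [div_le_div_iff₀ hpp hMr]
    rw [div_le_iff₀ (by positivity)] at hl1
    linarith
  have hp2 : L / M ≤ 1 / p := by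
    rw [div_le_div_iff₀ hMr hpp]
    rw [le_div_iff₀ hpp] at hl2
    linarith
  have hγ' : (M : ℤ) ∣ det (EqArc.phi γ).1 (EqArc.phi γ).2 - 1 := by
    have := EqArc.dvd_of_modEq hγ
    unfold det EqArc.phi
    push_cast at this
    have e : (γ.a : ℤ) * γ.d - γ.b * γ.c - 1 = γ.a * γ.d - (γ.b * γ.c + 1) := by ring
    simp only
    rw [e]
    exact this
  -- choice of `δ`
  obtain ⟨A, hA⟩ : ∃ A : ℝ, A = c * K ^ 2 * L / M * (2 * w + 2) + c * L / M + 1 := ⟨_, rfl⟩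
  have hAp : 0 < A := by rw [hA]; positivity
  obtain ⟨δ, hδ, hδ1, hδA⟩ : ∃ δ : ℝ, 0 < δ ∧ δ ≤ 1 ∧ A * δ ≤ ε / 4 := by
    refine ⟨min 1 (ε / 4 / A), lt_min one_pos (by positivity), min_le_left _ _, ?_⟩
    calc A * min 1 (ε / 4 / A) ≤ A * (ε / 4 / A) := mul_le_mul_of_nonneg_left (min_le_right _ _) hAp.le
      _ = ε / 4 := by field_simp
  have hδ2 : c * K ^ 2 * L / M * (2 * w + 2) * δ ≤ ε / 4 := by
    refine le_trans (mul_le_mul_of_nonneg_right ?_ hδ.le) hδA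
    rw [hA]
    have : 0 ≤ c * L / M := by positivity
    linarith
  have hδ3 : c * L / M * δ ≤ ε / 4 := by
    refine le_trans (mul_le_mul_of_nonneg_right ?_ hδ.le) hδA
    rw [hA]
    have : 0 ≤ c * K ^ 2 * L / M * (2 * w + 2) := by positivity
    linarith
  -- choice of `ε'`
  obtain ⟨T, hT⟩ : ∃ T : ℝ, T = K * q0 / p * 2 := ⟨_, rfl⟩
  have hTp : 0 < T := by rw [hT]; positivity
  obtain ⟨ε', hε', hεT⟩ : ∃ ε' : ℝ, 0 < ε' ∧ ε' * T ≤ ε / 4 :=
    ⟨ε / 4 / T, by positivity, by field_simp; exact le_refl _⟩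
  -- choice of `B`
  obtain ⟨B, hB1, hB2, hB3⟩ : ∃ B : ℝ, 1 < Real.exp (2 * w1 + δ) * B ∧ 3 * (K * I) ≤ δ * Real.exp w1 * R * B ∧
      3 * (K * I) ≤ δ * Real.exp w2 * R * B := by
    have e1 := Real.exp_pos (2 * w1 + δ)
    have e2 := Real.exp_pos w1
    have e3 : Real.exp w1 ≤ Real.exp w2 := Real.exp_le_exp.2 hw
    have e4 : 0 < δ * Real.exp w1 * R := by positivity
    have e5 : 0 < 3 * (K * I) := by positivity
    refine ⟨2 / Real.exp (2 * w1 + δ) + 3 * (K * I) / (δ * Real.exp w1 * R), ?_, ?_, ?_⟩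
    · rw [mul_add, mul_div_cancel₀ _ e1.ne']
      have : 0 < Real.exp (2 * w1 + δ) * (3 * (K * I) / (δ * Real.exp w1 * R)) := by positivity
      linarith
    · rw [mul_add, mul_div_cancel₀ _ e4.ne']
      have : 0 < δ * Real.exp w1 * R * (2 / Real.exp (2 * w1 + δ)) := by positivity
      linarith
    · have e6 : δ * Real.exp w1 * R ≤ δ * Real.exp w2 * R := by
        apply mul_le_mul_of_nonneg_right _ hRp.le
        exact mul_le_mul_of_nonneg_left e3 hδ.le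
      have e7 : 0 ≤ 2 / Real.exp (2 * w1 + δ) + 3 * (K * I) / (δ * Real.exp w1 * R) := by positivity
      refine le_trans ?_ (mul_le_mul_of_nonneg_right e6 e7)
      rw [mul_add, mul_div_cancel₀ _ e4.ne']
      have : 0 < δ * Real.exp w1 * R * (2 / Real.exp (2 * w1 + δ)) := by positivity
      linarith
  have hup := hUp M γ u v huv S hS w1 w2 δ B R I K hδ hR hI hK hB3
  have hlo := hLo M γ u v huv S hS w1 w2 δ B R I K hδ hR hI hK hB1 hB2
  rw [← hp, ← hq0'] at hup hlo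
  obtain ⟨C2, hC2⟩ : ∃ C2 : ℝ, C2 = ((EqArc.Sm B ((Real.exp (2 * w2) + 3 * Real.exp w2) * B)).ncard : ℝ) := ⟨_, rfl⟩
  obtain ⟨C3, hC3⟩ : ∃ C3 : ℝ, C3 = ((EqArc.Sm B (Real.exp (2 * w2) * B)).ncard : ℝ) := ⟨_, rfl⟩
  have hC20 : 0 ≤ C2 := by rw [hC2]; positivity
  have hC30 : 0 ≤ C3 := by rw [hC3]; positivity
  have hcard : ∀ x : ℝ, ((SN 1 x).filter (fun e => cq M e γ ∧ (⟨(e.a : ℤ), (e.b : ℤ)⟩ : G) ∈ arc u v S M ∧ w1 ≤ wS e ∧ wS e < w2)) =
      ((SN 1 x).filter (fun e => EqArc.FP M γ u v S w1 w2 e)) := by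
    intro x
    ext e
    rw [mem_filter, mem_filter]
    rfl
  simp only [hcard]
  -- upper
  have hU : ∃ x0 : ℝ, ∀ x : ℝ, x0 ≤ x → (((SN 1 x).filter (fun e => EqArc.FP M γ u v S w1 w2 e)).card : ℝ) ≤
      2 * c / M * (w2 - w1) * L * K ^ 4 * x + ε * x := by
    obtain ⟨x1, hx1⟩ := arc_asymp M hM c hc (EqArc.phi γ) hγ' u v huv S hS (2 * w1) (2 * w2 + δ) (by linarith) ε' hε'
    rw [← hq0] at hx1
    refine ⟨max (max 1 (1 / δ)) (max (x1 * p / (K * q0)) (4 * C2 / ε)), fun x hx => ?_⟩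
    have f1 : 1 ≤ x := (le_max_left _ _).trans ((le_max_left _ _).trans hx)
    have f2 : 1 / δ ≤ x := (le_max_right _ _).trans ((le_max_left _ _).trans hx)
    have f3 : x1 * p / (K * q0) ≤ x := (le_max_left _ _).trans ((le_max_right _ _).trans hx)
    have f4 : 4 * C2 / ε ≤ x := (le_max_right _ _).trans ((le_max_right _ _).trans hx)
    rw [div_le_iff₀ hδ] at f2
    rw [div_le_iff₀ (by positivity)] at f3
    rw [div_le_iff₀ hε] at f4
    have g1 : x1 ≤ K * q0 * (x + 1) / p := by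
      rw [le_div_iff₀ hpp]
      have : 0 < K * q0 := by positivity
      linarith
    have g2 := (hx1 _ g1).2
    have g3 := hup x
    have g4 : (((SN 1 x).filter (fun e => EqArc.FP M γ u v S w1 w2 e)).card : ℝ) ≤
      ({e : G × G | e ∈ NE M (EqArc.phi γ) (2 * w1) (2 * w2 + δ) (K * q0 * (x + 1) / p) ∧ e.1 ∈ arc u v S M}.ncard : ℝ) + C2 := by
      rw [hC2]; exact_mod_cast g3
    refine g4.trans ?_
    have g5 : x + 1 ≤ (1 + δ) * x := by linarith
    have g6 : c * (2 * w2 + δ - 2 * w1) / q0 * (K * q0 * (x + 1) / p) = c * (2 * w + δ) * K * (x + 1) * (1 / p) := by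
      rw [hw']; field_simp; ring
    have g7 : c * (2 * w + δ) * K * (x + 1) * (1 / p) ≤ c * (2 * w + δ) * K * ((1 + δ) * x) * (K * L / M) := by
      apply mul_le_mul _ hp1 (by positivity) (by positivity)
      exact mul_le_mul_of_nonneg_left g5 (by positivity)
    have g8 : c * (2 * w + δ) * K * ((1 + δ) * x) * (K * L / M) =
      2 * c / M * w * L * K ^ 2 * x + c * K ^ 2 * L / M * (2 * w + 1 + δ) * δ * x := by field_simp; ring
    have g9 : c * K ^ 2 * L / M * (2 * w + 1 + δ) * δ * x ≤ ε / 4 * x := by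
      apply mul_le_mul_of_nonneg_right _ (by linarith)
      refine le_trans ?_ hδ2
      apply mul_le_mul_of_nonneg_right _ hδ.le
      apply mul_le_mul_of_nonneg_left _ (by positivity)
      linarith
    have g10 : ε' * (K * q0 * (x + 1) / p) ≤ ε / 4 * x := by
      have e1 : ε' * (K * q0 * (x + 1) / p) = ε' * T * ((x + 1) / 2) := by rw [hT]; field_simp
      rw [e1]
      have e2 : (x + 1) / 2 ≤ x := by linarith
      exact mul_le_mul hεT e2 (by linarith) (by positivity)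
    have g11 : 2 * c / M * w * L * K ^ 2 * x ≤ 2 * c / M * w * L * K ^ 4 * x := by
      apply mul_le_mul_of_nonneg_right _ (by linarith)
      apply mul_le_mul_of_nonneg_left _ (by positivity)
      exact pow_le_pow_right₀ hK1 (by norm_num)
    rw [← hw']
    rw [g6] at g2
    linarith
  -- lower
  have hLo : ∃ x0 : ℝ, ∀ x : ℝ, x0 ≤ x → 2 * c / M * (w2 - w1) * L / K ^ 4 * x - ε * x ≤
      (((SN 1 x).filter (fun e => EqArc.FP M γ u v S w1 w2 e)).card : ℝ) := by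
    have hK4 : (1 : ℝ) ≤ K ^ 4 := one_le_pow₀ hK1
    by_cases hwδ : δ ≤ 2 * w
    · obtain ⟨x1, hx1⟩ := arc_asymp M hM c hc (EqArc.phi γ) hγ' u v huv S hS (2 * w1 + δ) (2 * w2) (by linarith) ε' hε'
      rw [← hq1] at hx1
      refine ⟨max 1 (max (x1 * (K * p) / q0) (4 * C3 / ε)), fun x hx => ?_⟩
      have f1 : 1 ≤ x := (le_max_left _ _).trans hx
      have f3 : x1 * (K * p) / q0 ≤ x := (le_max_left _ _).trans ((le_max_right _ _).trans hx)
      have f4 : 4 * C3 / ε ≤ x := (le_max_right _ _).trans ((le_max_right _ _).trans hx)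
      rw [div_le_iff₀ hq0p] at f3
      rw [div_le_iff₀ hε] at f4
      have g1 : x1 ≤ x * q0 / (K * p) := by
        rw [le_div_iff₀ (by positivity)]
        linarith
      have g2 := (hx1 _ g1).1
      have g3 := hlo x
      have g4 : ({e : G × G | e ∈ NE M (EqArc.phi γ) (2 * w1 + δ) (2 * w2) (x * q0 / (K * p)) ∧ e.1 ∈ arc u v S M}.ncard : ℝ) ≤
        (((SN 1 x).filter (fun e => EqArc.FP M γ u v S w1 w2 e)).card : ℝ) + C3 := by
        rw [hC3]; exact_mod_cast g3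
      have g6 : c * (2 * w - δ) / (K ^ 2 * q0) * (x * q0 / (K * p)) ≤ c * (2 * w2 - (2 * w1 + δ)) / q1 * (x * q0 / (K * p)) := by
        have e0 : 2 * w2 - (2 * w1 + δ) = 2 * w - δ := by rw [hw']; ring
        rw [e0]
        apply mul_le_mul_of_nonneg_right _ (by positivity)
        have e1 : 0 ≤ c * (2 * w - δ) := mul_nonneg hc0 (by linarith)
        exact div_le_div_of_nonneg_left e1 hq1p hrat
      have g7 : c * (2 * w - δ) / (K ^ 2 * q0) * (x * q0 / (K * p)) = c * (2 * w - δ) / K ^ 3 * x * (1 / p) := by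
        field_simp
      have g8 : c * (2 * w - δ) / K ^ 4 * x * (L / M) ≤ c * (2 * w - δ) / K ^ 3 * x * (1 / p) := by
        have e1 : 0 ≤ c * (2 * w - δ) := mul_nonneg hc0 (by linarith)
        apply mul_le_mul _ hp2 (by positivity) (by positivity)
        apply mul_le_mul_of_nonneg_right _ (by linarith)
        apply div_le_div_of_nonneg_left e1 (by positivity)
        exact pow_le_pow_right₀ hK1 (by norm_num)
      have g9 : c * (2 * w - δ) / K ^ 4 * x * (L / M) = 2 * c / M * w * L / K ^ 4 * x - (c * L / M * δ) * x / K ^ 4 := by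
        field_simp
      have g10 : (c * L / M * δ) * x / K ^ 4 ≤ ε / 4 * x := by
        have e1 : 0 ≤ (c * L / M * δ) * x := by positivity
        refine (div_le_self e1 hK4).trans ?_
        exact mul_le_mul_of_nonneg_right hδ3 (by linarith)
      have g11 : ε' * (x * q0 / (K * p)) ≤ ε / 4 * x := by
        have e1 : x * q0 / (K * p) ≤ T * x := by
          rw [hT]
          have e2 : x * q0 / (K * p) ≤ x * q0 / p := by
            apply div_le_div_of_nonneg_left (by positivity) hpp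
            exact le_mul_of_one_le_left hpp.le hK1
          have e3 : K * q0 / p * 2 * x = (x * q0 / p) * (2 * K) := by ring
          rw [e3]
          refine e2.trans ?_
          have e4 : 0 ≤ x * q0 / p := by positivity
          exact le_mul_of_one_le_right e4 (by linarith only [hK1])
        calc ε' * (x * q0 / (K * p)) ≤ ε' * (T * x) := mul_le_mul_of_nonneg_left e1 hε'.le
          _ = ε' * T * x := by ring
          _ ≤ ε / 4 * x := mul_le_mul_of_nonneg_right hεT (by linarith)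
      rw [← hw']
      linarith
    · push Not at hwδ
      refine ⟨0, fun x hx => ?_⟩
      have e1 : 2 * c / M * (w2 - w1) * L / K ^ 4 * x ≤ ε * x := by
        apply mul_le_mul_of_nonneg_right _ hx
        rw [← hw']
        have e2 : 0 ≤ 2 * c / M * w * L := by positivity
        refine (div_le_self e2 hK4).trans ?_
        have e3 : 2 * c / M * w * L = c * L / M * (2 * w) := by ring
        rw [e3]
        have e4 : c * L / M * (2 * w) ≤ c * L / M * δ := mul_le_mul_of_nonneg_left hwδ.le (by positivity)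
        linarith
      have e5 : (0 : ℝ) ≤ (((SN 1 x).filter (fun e => EqArc.FP M γ u v S w1 w2 e)).card : ℝ) := by positivity
      linarith
  obtain ⟨xU, hxU⟩ := hU
  obtain ⟨xL, hxL⟩ := hLo
  exact ⟨max xU xL, fun x hx => ⟨hxL x ((le_max_right _ _).trans hx), hxU x ((le_max_left _ _).trans hx)⟩⟩

end Pool.Agent.Spl

end

/-! ### from `Lib_MP_92ef0c_sp.LocP` -/

section

/-!
# Local densities modulo `p ^ 2`
-/

set_option autoImplicit false

namespace Pool.Agent.Spl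

open Finset Pool.Agent.GaussMR Pool.Agent.OmAll Pool.Agent.OmEq

namespace LocPn

theorem solve {M a : ℕ} (hM : 1 < M) (ha : a.Coprime M) (t : ℕ) :
    ∃ d, d < M ∧ a * d ≡ t [MOD M] := by
  obtain ⟨m, -, hm⟩ := Nat.exists_mul_mod_eq_one_of_coprime ha hM
  refine ⟨(m * t) % M, Nat.mod_lt _ (by omega), ?_⟩
  have h1 : a * m ≡ 1 [MOD M] := by
    show a * m % M = 1 % M
    rw [hm, Nat.mod_eq_of_lt hM]
  have h2 : a * (m * t % M) ≡ a * (m * t) [MOD M] := (Nat.mod_modEq _ _).mul_left a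
  have h3 : a * (m * t) ≡ 1 * t [MOD M] := by
    rw [← mul_assoc]
    exact h1.mul_right t
  rw [one_mul] at h3
  exact h2.trans h3

open Classical in
theorem cardA {M : ℕ} (hM : 1 < M) (A B C : Finset ℕ) (hA : A ⊆ range M) (hB : B ⊆ range M)
    (hC : C ⊆ range M) (hco : ∀ a ∈ A, a.Coprime M) :
    ((clq M).filter (fun e => e.a ∈ A ∧ e.b ∈ B ∧ e.c ∈ C)).card = A.card * B.card * C.card := by
  rw [← card_product, ← card_product]
  apply card_bij (fun e _ => ((e.a, e.b), e.c))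
  · intro e he
    rw [mem_filter] at he
    rw [mem_product, mem_product]
    exact ⟨⟨he.2.1, he.2.2.1⟩, he.2.2.2⟩
  · intro e he f hf hef
    rw [mem_filter, mem_clq] at he hf
    simp only [Prod.mk.injEq] at hef
    obtain ⟨⟨h1, h2⟩, h3⟩ := hef
    have h4 : e.a * e.d ≡ e.a * f.d [MOD M] := by
      have := hf.1.2
      rw [← h1, ← h2, ← h3] at this
      exact he.1.2.trans this.symm
    have h5 := Nat.ModEq.cancel_left_of_coprime (Nat.Coprime.symm (hco _ he.2.1)) h4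
    have h6 := Nat.ModEq.eq_of_lt_of_lt h5 he.1.1.2.2.2 hf.1.1.2.2.2
    exact Q4.ext h1 h2 h3 h6
  · rintro ⟨⟨a, b⟩, c⟩ h
    rw [mem_product, mem_product] at h
    obtain ⟨⟨ha, hb⟩, hc⟩ := h
    obtain ⟨d, hd, hd'⟩ := solve hM (hco a ha) (b * c + 1)
    refine ⟨⟨a, b, c, d⟩, ?_, rfl⟩
    rw [mem_filter, mem_clq]
    exact ⟨⟨⟨mem_range.1 (hA ha), mem_range.1 (hB hb), mem_range.1 (hC hc), hd⟩, hd'⟩, ha, hb, hc⟩

open Classical in
theorem cardB {M : ℕ} (hM : 1 < M) (A B D : Finset ℕ) (hA : A ⊆ range M) (hB : B ⊆ range M)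
    (hD : D ⊆ range M) (hco : ∀ b ∈ B, b.Coprime M) :
    ((clq M).filter (fun e => e.a ∈ A ∧ e.b ∈ B ∧ e.d ∈ D)).card = A.card * B.card * D.card := by
  rw [← card_product, ← card_product]
  apply card_bij (fun e _ => ((e.a, e.b), e.d))
  · intro e he
    rw [mem_filter] at he
    rw [mem_product, mem_product]
    exact ⟨⟨he.2.1, he.2.2.1⟩, he.2.2.2⟩
  · intro e he f hf hef
    rw [mem_filter, mem_clq] at he hf
    simp only [Prod.mk.injEq] at hef
    obtain ⟨⟨h1, h2⟩, h3⟩ := hef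
    have h4 : e.b * e.c ≡ e.b * f.c [MOD M] := by
      have := hf.1.2
      rw [← h1, ← h2, ← h3] at this
      exact Nat.ModEq.add_right_cancel' 1 (he.1.2.symm.trans this)
    have h5 := Nat.ModEq.cancel_left_of_coprime (Nat.Coprime.symm (hco _ he.2.2.1)) h4
    have h6 := Nat.ModEq.eq_of_lt_of_lt h5 he.1.1.2.2.1 hf.1.1.2.2.1
    exact Q4.ext h1 h2 h6 h3
  · rintro ⟨⟨a, b⟩, d⟩ h
    rw [mem_product, mem_product] at h
    obtain ⟨⟨ha, hb⟩, hd⟩ := h
    obtain ⟨c, hc, hc'⟩ := solve hM (hco b hb) (a * d + (M - 1))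
    refine ⟨⟨a, b, c, d⟩, ?_, rfl⟩
    rw [mem_filter, mem_clq]
    refine ⟨⟨⟨mem_range.1 (hA ha), mem_range.1 (hB hb), hc, mem_range.1 (hD hd)⟩, ?_⟩, ha, hb, hd⟩
    have h1 : b * c + 1 ≡ a * d + (M - 1) + 1 [MOD M] := hc'.add_right 1
    have h2 : a * d + (M - 1) + 1 = a * d + M := by omega
    rw [h2] at h1
    have h3 : a * d + M ≡ a * d [MOD M] := by
      show (a * d + M) % M = a * d % M
      rw [Nat.add_mod_right]
    exact (h1.trans h3).symm

/-- multiples of `p` below `p ^ 2` -/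
def Nn (p : ℕ) : Finset ℕ := (range (p ^ 2)).filter (fun a => p ∣ a)

/-- non multiples of `p` below `p ^ 2` -/
def Un (p : ℕ) : Finset ℕ := (range (p ^ 2)).filter (fun a => ¬ p ∣ a)

/-- nonzero multiples of `p` below `p ^ 2` -/
def Zn (p : ℕ) : Finset ℕ := (range (p ^ 2)).filter (fun a => p ∣ a ∧ a ≠ 0)

theorem card_Nn {p : ℕ} (hp : 0 < p) : (Nn p).card = p := by
  have h : Nn p = (range p).image (fun i => p * i) := by
    ext a
    unfold Nn
    rw [mem_filter, mem_range, mem_image]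
    constructor
    · rintro ⟨h1, i, rfl⟩
      refine ⟨i, mem_range.2 ?_, rfl⟩
      rw [pow_two] at h1
      exact Nat.lt_of_mul_lt_mul_left h1
    · rintro ⟨i, hi, rfl⟩
      refine ⟨?_, Dvd.intro _ rfl⟩
      rw [pow_two]
      exact Nat.mul_lt_mul_of_pos_left (mem_range.1 hi) hp
  rw [h, card_image_of_injective, card_range]
  intro i j hij
  exact Nat.eq_of_mul_eq_mul_left hp hij

theorem card_Zn {p : ℕ} (hp : 0 < p) : (Zn p).card = p - 1 := by
  have h : Zn p = (Nn p).erase 0 := by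
    ext a
    unfold Zn Nn
    rw [mem_filter, mem_erase, mem_filter]
    tauto
  rw [h, card_erase_of_mem, card_Nn hp]
  unfold Nn
  rw [mem_filter, mem_range]
  exact ⟨by positivity, dvd_zero _⟩

theorem card_Un {p : ℕ} (hp : 0 < p) : (Un p).card = p * (p - 1) := by
  have h := card_filter_add_card_filter_not (s := range (p ^ 2)) (fun a => p ∣ a)
  have h1 : ((range (p ^ 2)).filter (fun a => p ∣ a)).card = p := card_Nn hp
  rw [h1, card_range] at h
  unfold Un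
  obtain ⟨q, rfl⟩ : ∃ q, p = q + 1 := ⟨p - 1, by omega⟩
  rw [Nat.add_sub_cancel]
  have h2 : (q + 1) ^ 2 = (q + 1) + (q + 1) * q := by ring
  rw [h2] at h
  have h3 := Nat.add_left_cancel h
  rw [← h2] at h3
  exact h3

theorem cop_of_not_dvd {p a : ℕ} (hp : p.Prime) (h : ¬ p ∣ a) : a.Coprime (p ^ 2) :=
  Nat.Coprime.pow_right 2 ((Nat.Prime.coprime_iff_not_dvd hp).2 h).symm

theorem Un_cop {p : ℕ} (hp : p.Prime) : ∀ a ∈ Un p, a.Coprime (p ^ 2) := by
  intro a ha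
  unfold Un at ha
  rw [mem_filter] at ha
  exact cop_of_not_dvd hp ha.2

theorem Un_sub (p : ℕ) : Un p ⊆ range (p ^ 2) := filter_subset _ _
theorem Nn_sub (p : ℕ) : Nn p ⊆ range (p ^ 2) := filter_subset _ _
theorem Zn_sub (p : ℕ) : Zn p ⊆ range (p ^ 2) := filter_subset _ _

theorem not_both {p : ℕ} (hp : p.Prime) {e : Q4} (he : e ∈ clq (p ^ 2)) (h1 : p ∣ e.a * e.d)
    (h2 : p ∣ e.b * e.c) : False := by
  rw [mem_clq] at he
  have h3 : e.a * e.d ≡ e.b * e.c + 1 [MOD p] := he.2.of_dvd (dvd_pow_self p two_ne_zero)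
  have h4 : p ∣ e.b * e.c + 1 := (h3.dvd_iff (dvd_refl p)).1 h1
  have h5 : p ∣ 1 := (Nat.dvd_add_right h2).1 h4
  exact hp.one_lt.ne' (Nat.dvd_one.1 h5)

theorem not_sq_dvd {p x y : ℕ} (hp : p.Prime) (hx : ¬ p ∣ x) (hy : y ≠ 0) (hy2 : y < p ^ 2) :
    ¬ p ^ 2 ∣ x * y := by
  intro h
  have h1 : p ^ 2 ∣ y := (cop_of_not_dvd hp hx).symm.dvd_of_dvd_mul_left h
  exact absurd (Nat.le_of_dvd (Nat.pos_of_ne_zero hy) h1) (by omega)

theorem sq_dvd {p x y : ℕ} (hx : p ∣ x) (hy : p ∣ y) : p ^ 2 ∣ x * y := by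
  rw [pow_two]
  exact mul_dvd_mul hx hy

end LocPn

open LocPn

open Classical in
/-- PROOF. `clq M` for `M = p ^ 2` is `{(a, b, c, d) ∈ [0, M)^4 : a d = b c + 1 mod M}`. Total `p^4 (p^2 - 1)`: number of `(a, b)` not both divisible by `p`: `p^4 - p^2`; for each of them exactly `p^2` pairs `(c, d)` (if `a` is a unit, `c` is free and `d` determined; otherwise `b` is a unit, `d` free, `c` determined): `(p^4 - p^2) p^2`.
`p ∣ d`, `¬ p^2 ∣ a d`: `d ≠ 0 mod p^2`, `p ∣ d` (`p - 1` values) and `a` a unit (`p (p-1)` values; if `p ∣ a` then `p^2 ∣ a d`), then `b c = a d - 1` is a unit: `b` a unit (`p (p - 1)` values) and `c` determined: `p^2 (p-1)^3`. The other three in the same way. (One may work in `ZMod (p^2)` with `Finset.card` of a bijection, units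
`Fintype.card (ZMod n)ˣ = φ(n)`, or count natural numbers directly.) -/
theorem locP (p : ℕ) (hp : p.Prime) : (clq (p ^ 2)).card = p ^ 4 * (p ^ 2 - 1) ∧
    ((clq (p ^ 2)).filter (fun e => p ∣ e.d ∧ ¬ p ^ 2 ∣ e.a * e.d)).card = p ^ 2 * (p - 1) ^ 3 ∧
    ((clq (p ^ 2)).filter (fun e => p ∣ e.a ∧ ¬ p ^ 2 ∣ e.a * e.d)).card = p ^ 2 * (p - 1) ^ 3 ∧
    ((clq (p ^ 2)).filter (fun e => p ∣ e.c ∧ ¬ p ^ 2 ∣ e.b * e.c)).card = p ^ 2 * (p - 1) ^ 3 ∧
    ((clq (p ^ 2)).filter (fun e => p ∣ e.b ∧ ¬ p ^ 2 ∣ e.b * e.c)).card = p ^ 2 * (p - 1) ^ 3 := by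
  have hM : 1 < p ^ 2 := Nat.one_lt_pow two_ne_zero hp.one_lt
  have hN := card_Nn hp.pos
  have hZ := card_Zn hp.pos
  have hU := card_Un hp.pos
  refine ⟨?_, ?_, ?_, ?_, ?_⟩
  · have h := card_filter_add_card_filter_not (s := clq (p ^ 2)) (fun e => p ∣ e.a)
    have e1 : (clq (p ^ 2)).filter (fun e => p ∣ e.a) =
        (clq (p ^ 2)).filter (fun e => e.a ∈ Nn p ∧ e.b ∈ Un p ∧ e.d ∈ range (p ^ 2)) := by
      refine filter_congr fun e he => ?_
      have hb := (mem_clq.1 he).1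
      unfold Nn Un
      rw [mem_filter, mem_filter, mem_range, mem_range, mem_range]
      constructor
      · intro h1
        exact ⟨⟨hb.1, h1⟩, ⟨hb.2.1, fun h2 => not_both hp he (h1.mul_right _) (h2.mul_right _)⟩,
          hb.2.2.2⟩
      · intro h1
        exact h1.1.2
    have e2 : (clq (p ^ 2)).filter (fun e => ¬ p ∣ e.a) =
        (clq (p ^ 2)).filter (fun e => e.a ∈ Un p ∧ e.b ∈ range (p ^ 2) ∧ e.c ∈ range (p ^ 2)) := by
      refine filter_congr fun e he => ?_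
      have hb := (mem_clq.1 he).1
      unfold Un
      rw [mem_filter, mem_range, mem_range, mem_range]
      constructor
      · intro h1
        exact ⟨⟨hb.1, h1⟩, hb.2.1, hb.2.2.1⟩
      · intro h1
        exact h1.1.2
    rw [e1, e2, cardB hM _ _ _ (Nn_sub p) (Un_sub p) (Finset.Subset.refl _) (Un_cop hp),
      cardA hM _ _ _ (Un_sub p) (Finset.Subset.refl _) (Finset.Subset.refl _) (Un_cop hp),
      hN, hU, card_range] at h
    rw [← h]
    obtain ⟨q, rfl⟩ : ∃ q, p = q + 1 := ⟨p - 1, by have := hp.pos; omega⟩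
    have h2 : (q + 1) ^ 2 - 1 = q * (q + 2) := Nat.sub_eq_of_eq_add (by ring)
    rw [h2, Nat.add_sub_cancel]
    ring
  · have e1 : (clq (p ^ 2)).filter (fun e => p ∣ e.d ∧ ¬ p ^ 2 ∣ e.a * e.d) =
        (clq (p ^ 2)).filter (fun e => e.a ∈ Un p ∧ e.b ∈ Un p ∧ e.d ∈ Zn p) := by
      refine filter_congr fun e he => ?_
      have hb := (mem_clq.1 he).1
      unfold Un Zn
      rw [mem_filter, mem_filter, mem_filter, mem_range, mem_range, mem_range]
      constructor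
      · rintro ⟨h1, h2⟩
        refine ⟨⟨hb.1, fun h3 => h2 (sq_dvd h3 h1)⟩,
          ⟨hb.2.1, fun h3 => not_both hp he (h1.mul_left _) (h3.mul_right _)⟩, hb.2.2.2, h1, ?_⟩
        rintro h4
        exact h2 (by rw [h4, mul_zero]; exact dvd_zero _)
      · rintro ⟨h1, h2, h3⟩
        exact ⟨h3.2.1, not_sq_dvd hp h1.2 h3.2.2 h3.1⟩
    rw [e1, cardB hM _ _ _ (Un_sub p) (Un_sub p) (Zn_sub p) (Un_cop hp), hU, hZ]
    ring
  · have e1 : (clq (p ^ 2)).filter (fun e => p ∣ e.a ∧ ¬ p ^ 2 ∣ e.a * e.d) =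
        (clq (p ^ 2)).filter (fun e => e.a ∈ Zn p ∧ e.b ∈ Un p ∧ e.d ∈ Un p) := by
      refine filter_congr fun e he => ?_
      have hb := (mem_clq.1 he).1
      unfold Un Zn
      rw [mem_filter, mem_filter, mem_filter, mem_range, mem_range, mem_range]
      constructor
      · rintro ⟨h1, h2⟩
        refine ⟨⟨hb.1, h1, ?_⟩,
          ⟨hb.2.1, fun h3 => not_both hp he (h1.mul_right _) (h3.mul_right _)⟩, hb.2.2.2,
          fun h3 => h2 (sq_dvd h1 h3)⟩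
        rintro h4
        exact h2 (by rw [h4, zero_mul]; exact dvd_zero _)
      · rintro ⟨h1, h2, h3⟩
        refine ⟨h1.2.1, ?_⟩
        rw [mul_comm]
        exact not_sq_dvd hp h3.2 h1.2.2 h1.1
    rw [e1, cardB hM _ _ _ (Zn_sub p) (Un_sub p) (Un_sub p) (Un_cop hp), hU, hZ]
    ring
  · have e1 : (clq (p ^ 2)).filter (fun e => p ∣ e.c ∧ ¬ p ^ 2 ∣ e.b * e.c) =
        (clq (p ^ 2)).filter (fun e => e.a ∈ Un p ∧ e.b ∈ Un p ∧ e.c ∈ Zn p) := by
      refine filter_congr fun e he => ?_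
      have hb := (mem_clq.1 he).1
      unfold Un Zn
      rw [mem_filter, mem_filter, mem_filter, mem_range, mem_range, mem_range]
      constructor
      · rintro ⟨h1, h2⟩
        refine ⟨⟨hb.1, fun h3 => not_both hp he (h3.mul_right _) (h1.mul_left _)⟩,
          ⟨hb.2.1, fun h3 => h2 (sq_dvd h3 h1)⟩, hb.2.2.1, h1, ?_⟩
        rintro h4
        exact h2 (by rw [h4, mul_zero]; exact dvd_zero _)
      · rintro ⟨h1, h2, h3⟩
        exact ⟨h3.2.1, not_sq_dvd hp h2.2 h3.2.2 h3.1⟩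
    rw [e1, cardA hM _ _ _ (Un_sub p) (Un_sub p) (Zn_sub p) (Un_cop hp), hU, hZ]
    ring
  · have e1 : (clq (p ^ 2)).filter (fun e => p ∣ e.b ∧ ¬ p ^ 2 ∣ e.b * e.c) =
        (clq (p ^ 2)).filter (fun e => e.a ∈ Un p ∧ e.b ∈ Zn p ∧ e.c ∈ Un p) := by
      refine filter_congr fun e he => ?_
      have hb := (mem_clq.1 he).1
      unfold Un Zn
      rw [mem_filter, mem_filter, mem_filter, mem_range, mem_range, mem_range]
      constructor
      · rintro ⟨h1, h2⟩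
        refine ⟨⟨hb.1, fun h3 => not_both hp he (h3.mul_right _) (h1.mul_right _)⟩,
          ⟨hb.2.1, h1, ?_⟩, hb.2.2.1, fun h3 => h2 (sq_dvd h1 h3)⟩
        rintro h4
        exact h2 (by rw [h4, zero_mul]; exact dvd_zero _)
      · rintro ⟨h1, h2, h3⟩
        refine ⟨h2.2.1, ?_⟩
        rw [mul_comm]
        exact not_sq_dvd hp h3.2 h2.2.2 h2.1
    rw [e1, cardA hM _ _ _ (Un_sub p) (Zn_sub p) (Un_sub p) (Un_cop hp), hU, hZ]
    ring

namespace LocPn

/-- reduction modulo `M` -/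
def rq (M : ℕ) (e : Q4) : Q4 := ⟨e.a % M, e.b % M, e.c % M, e.d % M⟩

theorem rq_cq (M : ℕ) (e : Q4) : cq M (rq M e) e :=
  ⟨Nat.mod_modEq _ _, Nat.mod_modEq _ _, Nat.mod_modEq _ _, Nat.mod_modEq _ _⟩

theorem det_cq {M : ℕ} {e f : Q4} (h : cq M e f) (hf : f.a * f.d ≡ f.b * f.c + 1 [MOD M]) :
    e.a * e.d ≡ e.b * e.c + 1 [MOD M] :=
  (h.1.mul h.2.2.2).trans (hf.trans ((h.2.1.mul h.2.2.1).add_right 1).symm)

theorem cq_symm {M : ℕ} {e f : Q4} (h : cq M e f) : cq M f e :=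
  ⟨h.1.symm, h.2.1.symm, h.2.2.1.symm, h.2.2.2.symm⟩

theorem rq_mem {M N : ℕ} (hM : 0 < M) (h : M ∣ N) {e : Q4}
    (he : e.a * e.d ≡ e.b * e.c + 1 [MOD N]) : rq M e ∈ clq M := by
  rw [mem_clq]
  refine ⟨⟨Nat.mod_lt _ hM, Nat.mod_lt _ hM, Nat.mod_lt _ hM, Nat.mod_lt _ hM⟩, ?_⟩
  exact det_cq (rq_cq M e) (he.of_dvd h)

theorem rq_eq_of_cq {M : ℕ} {e f : Q4} (h : cq M e f)
    (hf : f.a < M ∧ f.b < M ∧ f.c < M ∧ f.d < M) : rq M e = f := by
  apply Q4.ext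
  · show e.a % M = f.a
    rw [show e.a % M = f.a % M from h.1, Nat.mod_eq_of_lt hf.1]
  · show e.b % M = f.b
    rw [show e.b % M = f.b % M from h.2.1, Nat.mod_eq_of_lt hf.2.1]
  · show e.c % M = f.c
    rw [show e.c % M = f.c % M from h.2.2.1, Nat.mod_eq_of_lt hf.2.2.1]
  · show e.d % M = f.d
    rw [show e.d % M = f.d % M from h.2.2.2, Nat.mod_eq_of_lt hf.2.2.2]

theorem eq_of_mods {M1 M2 x y : ℕ} (hco : M1.Coprime M2) (hx : x < M1 * M2) (hy : y < M1 * M2)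
    (h1 : x % M1 = y % M1) (h2 : x % M2 = y % M2) : x = y := by
  have h : x ≡ y [MOD M1 * M2] := (Nat.modEq_and_modEq_iff_modEq_mul hco).1 ⟨h1, h2⟩
  exact Nat.ModEq.eq_of_lt_of_lt h hx hy

end LocPn

open Classical in
/-- PROOF. Chinese remainder theorem: reduction modulo `M1` and modulo `M2` is a bijection `clq (M1 M2) → clq M1 × clq M2` (`Nat.chineseRemainder` for each entry; the determinant condition modulo `M1 M2` holds iff it holds modulo `M1` and modulo `M2`: `Nat.modEq_and_modEq_iff_modEq_mul`). Compare `cls_mul` in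
`Lib_MP_f1a94e_aq/Local.lean`. -/
theorem clq_mul (M1 M2 : ℕ) (h1 : 0 < M1) (h2 : 0 < M2) (hco : M1.Coprime M2) (P1 P2 : Q4 → Prop)
    (hP1 : PerQ M1 P1) (hP2 : PerQ M2 P2) :
    ((clq (M1 * M2)).filter (fun e => P1 e ∧ P2 e)).card = ((clq M1).filter P1).card * ((clq M2).filter P2).card := by
  rw [← card_product]
  apply card_bij (fun e _ => (rq M1 e, rq M2 e))
  · intro e he
    rw [mem_filter, mem_clq] at he
    rw [mem_product, mem_filter, mem_filter]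
    exact ⟨⟨rq_mem h1 (Dvd.intro _ rfl) he.1.2, (hP1 _ _ (rq_cq M1 e)).2 he.2.1⟩,
      rq_mem h2 (Dvd.intro_left _ rfl) he.1.2, (hP2 _ _ (rq_cq M2 e)).2 he.2.2⟩
  · intro e he f hf hef
    rw [mem_filter, mem_clq] at he hf
    rw [Prod.mk.injEq] at hef
    have k1 := hef.1
    have k2 := hef.2
    unfold rq at k1 k2
    rw [Q4.mk.injEq] at k1 k2
    exact Q4.ext (eq_of_mods hco he.1.1.1 hf.1.1.1 k1.1 k2.1)
      (eq_of_mods hco he.1.1.2.1 hf.1.1.2.1 k1.2.1 k2.2.1)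
      (eq_of_mods hco he.1.1.2.2.1 hf.1.1.2.2.1 k1.2.2.1 k2.2.2.1)
      (eq_of_mods hco he.1.1.2.2.2 hf.1.1.2.2.2 k1.2.2.2 k2.2.2.2)
  · rintro ⟨e, f⟩ hef
    rw [mem_product, mem_filter, mem_filter, mem_clq, mem_clq] at hef
    obtain ⟨⟨⟨he, hde⟩, hPe⟩, ⟨hf, hdf⟩, hPf⟩ := hef
    dsimp only at he hde hPe hf hdf hPf
    let g : Q4 := ⟨Nat.chineseRemainder hco e.a f.a, Nat.chineseRemainder hco e.b f.b,
      Nat.chineseRemainder hco e.c f.c, Nat.chineseRemainder hco e.d f.d⟩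
    have hg1 : cq M1 g e := ⟨(Nat.chineseRemainder hco e.a f.a).2.1,
      (Nat.chineseRemainder hco e.b f.b).2.1, (Nat.chineseRemainder hco e.c f.c).2.1,
      (Nat.chineseRemainder hco e.d f.d).2.1⟩
    have hg2 : cq M2 g f := ⟨(Nat.chineseRemainder hco e.a f.a).2.2,
      (Nat.chineseRemainder hco e.b f.b).2.2, (Nat.chineseRemainder hco e.c f.c).2.2,
      (Nat.chineseRemainder hco e.d f.d).2.2⟩
    refine ⟨g, ?_, ?_⟩
    · rw [mem_filter, mem_clq]
      refine ⟨⟨⟨Nat.chineseRemainder_lt_mul hco _ _ h1.ne' h2.ne',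
        Nat.chineseRemainder_lt_mul hco _ _ h1.ne' h2.ne',
        Nat.chineseRemainder_lt_mul hco _ _ h1.ne' h2.ne',
        Nat.chineseRemainder_lt_mul hco _ _ h1.ne' h2.ne'⟩, ?_⟩, (hP1 _ _ hg1).2 hPe,
        (hP2 _ _ hg2).2 hPf⟩
      exact (Nat.modEq_and_modEq_iff_modEq_mul hco).1 ⟨det_cq hg1 hde, det_cq hg2 hdf⟩
    · rw [Prod.mk.injEq]
      exact ⟨rq_eq_of_cq hg1 he, rq_eq_of_cq hg2 hf⟩

end Pool.Agent.Spl

end

/-! ### from `Lib_MP_92ef0c_sp.Clus` -/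

section

/-!
# Clusters, abstract version
-/

set_option autoImplicit false

namespace Pool.Agent.Spl

open Finset Pool.Agent.GaussMR Pool.Agent.OmAll Pool.Agent.OmEq

open Classical in
/-- one step of the induction over the primes -/
private theorem clus_step {ι : Type} (S : Finset ι) (lo hi : ι → ℕ) (P : Finset ℕ) (hP : ∀ p ∈ P, p.Prime)
    (tog : ℕ → ι → ι)
    (h1 : ∀ p ∈ P, ∀ e ∈ S, p ∣ hi e → ¬ p ^ 2 ∣ lo e * hi e →
      tog p e ∈ S ∧ lo (tog p e) = p * lo e ∧ p * hi (tog p e) = hi e)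
    (h2 : ∀ p ∈ P, ∀ e ∈ S, p ∣ lo e → ¬ p ^ 2 ∣ lo e * hi e →
      ∃ e' ∈ S, p ∣ hi e' ∧ ¬ p ^ 2 ∣ lo e' * hi e' ∧ tog p e' = e)
    (h3 : ∀ p ∈ P, ∀ e ∈ S, ∀ e' ∈ S, p ∣ hi e → p ∣ hi e' → tog p e = tog p e' → e = e')
    (hlo : ∀ e ∈ S, 0 < lo e) (hhi : ∀ e ∈ S, 0 < hi e) (g : ℕ → ℂ) (Φ : ι → ℂ)
    (hΦ : ∀ p ∈ P, ∀ e ∈ S, p ∣ hi e → ¬ p ^ 2 ∣ lo e * hi e → Φ (tog p e) = g p * Φ e)
    (w : ι → ℝ → ℂ) (hw : ∀ p ∈ P, ∀ e ∈ S, p ∣ hi e → ¬ p ^ 2 ∣ lo e * hi e → w (tog p e) = w e)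
    (Q : Finset ℕ) (p : ℕ) (hpQ : p ∉ Q) (hp : p ∈ P) (D : ι → Finset ℕ)
    (hD : ∀ e, D e = P.filter (fun p => p ∣ lo e * hi e ∧ ¬ p ^ 2 ∣ lo e * hi e)) :
    ∑ e ∈ S.filter (fun e => ∀ q ∈ D e ∩ Q, ¬ q ∣ lo e),
        Φ e * cs g (w e) (D e ∩ Q) (Real.log (hi e) - Real.log (lo e)) =
      ∑ e ∈ S.filter (fun e => ∀ q ∈ D e ∩ insert p Q, ¬ q ∣ lo e),
        Φ e * cs g (w e) (D e ∩ insert p Q) (Real.log (hi e) - Real.log (lo e)) := by
  have hpp : p.Prime := hP p hp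
  -- facts on the toggle
  have fact : ∀ e ∈ S, p ∣ hi e → ¬ p ^ 2 ∣ lo e * hi e →
      tog p e ∈ S ∧ lo (tog p e) = p * lo e ∧ D (tog p e) = D e ∧
      Real.log (hi (tog p e)) - Real.log (lo (tog p e)) = Real.log (hi e) - Real.log (lo e) - 2 * Real.log p := by
    intro e he hd hd2
    obtain ⟨f1, f2, f3⟩ := h1 p hp e he hd hd2
    have f4 : lo (tog p e) * hi (tog p e) = lo e * hi e := by
      rw [f2, ← f3]
      ring
    refine ⟨f1, f2, ?_, ?_⟩
    · rw [hD, hD, f4]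
    · have g1 : (p : ℝ) ≠ 0 := by exact_mod_cast hpp.ne_zero
      have g2 : (lo e : ℝ) ≠ 0 := by exact_mod_cast (hlo e he).ne'
      have g3 : (hi (tog p e) : ℝ) ≠ 0 := by exact_mod_cast (hhi _ f1).ne'
      rw [f2, ← f3]
      push_cast
      rw [Real.log_mul g1 g2, Real.log_mul g1 g3]
      ring
  -- split the left side
  have hL : S.filter (fun e => ∀ q ∈ D e ∩ Q, ¬ q ∣ lo e) =
      S.filter (fun e => ∀ q ∈ D e ∩ insert p Q, ¬ q ∣ lo e) ∪
      S.filter (fun e => (∀ q ∈ D e ∩ Q, ¬ q ∣ lo e) ∧ p ∈ D e ∧ p ∣ lo e) := by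
    ext e
    simp only [mem_filter, mem_union, mem_inter, mem_insert]
    constructor
    · rintro ⟨k1, k2⟩
      by_cases k3 : p ∈ D e ∧ p ∣ lo e
      · exact Or.inr ⟨k1, k2, k3⟩
      · refine Or.inl ⟨k1, fun q hq => ?_⟩
        rcases hq.2 with rfl | k4
        · exact fun k5 => k3 ⟨hq.1, k5⟩
        · exact k2 q ⟨hq.1, k4⟩
    · rintro (⟨k1, k2⟩ | ⟨k1, k2, -⟩)
      · exact ⟨k1, fun q hq => k2 q ⟨hq.1, Or.inr hq.2⟩⟩
      · exact ⟨k1, k2⟩
  have hdisj : Disjoint (S.filter (fun e => ∀ q ∈ D e ∩ insert p Q, ¬ q ∣ lo e))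
      (S.filter (fun e => (∀ q ∈ D e ∩ Q, ¬ q ∣ lo e) ∧ p ∈ D e ∧ p ∣ lo e)) := by
    rw [Finset.disjoint_left]
    intro e k1 k2
    rw [mem_filter] at k1 k2
    exact k1.2 p (mem_inter.mpr ⟨k2.2.2.1, mem_insert_self _ _⟩) k2.2.2.2
  rw [hL, Finset.sum_union hdisj]
  -- the right side
  have hR : ∀ e : ι, Φ e * cs g (w e) (D e ∩ insert p Q) (Real.log (hi e) - Real.log (lo e)) =
      Φ e * cs g (w e) (D e ∩ Q) (Real.log (hi e) - Real.log (lo e)) +
        if p ∈ D e then Φ e * (g p * cs g (w e) (D e ∩ Q) (Real.log (hi e) - Real.log (lo e) - 2 * Real.log p))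
        else 0 := by
    intro e
    by_cases h : p ∈ D e
    · rw [if_pos h, Finset.inter_insert_of_mem h, cs_insert g _ _ p (fun k1 => hpQ (mem_inter.mp k1).2), mul_add]
    · rw [if_neg h, Finset.inter_insert_of_notMem h, add_zero]
  rw [Finset.sum_congr rfl (fun e _ => hR e), Finset.sum_add_distrib, ← Finset.sum_filter]
  congr 1
  symm
  have key : ∀ e : ι, ((e ∈ S ∧ ∀ q ∈ D e ∩ insert p Q, ¬ q ∣ lo e) ∧ p ∈ D e) →
      e ∈ S ∧ p ∣ hi e ∧ ¬ p ^ 2 ∣ lo e * hi e := by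
    rintro e ⟨⟨k1, k2⟩, k3⟩
    have k3' := k3
    rw [hD] at k3'
    have k4 : p ∣ lo e * hi e ∧ ¬ p ^ 2 ∣ lo e * hi e := (mem_filter.mp k3').2
    have k5 : ¬ p ∣ lo e := k2 p (mem_inter.mpr ⟨k3, mem_insert_self _ _⟩)
    exact ⟨k1, (hpp.dvd_mul.mp k4.1).resolve_left k5, k4.2⟩
  refine Finset.sum_nbij (tog p) ?_ ?_ ?_ ?_
  · intro e he
    rw [mem_filter, mem_filter] at he
    obtain ⟨e1, e2, e3⟩ := key e he
    obtain ⟨f1, f2, f3, -⟩ := fact e e1 e2 e3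
    rw [mem_filter]
    refine ⟨f1, ?_, ?_, ?_⟩
    · intro q hq
      rw [f3] at hq
      obtain ⟨hq1, hq2⟩ := mem_inter.mp hq
      have hq1' := hq1
      rw [hD] at hq1'
      have hqp : q.Prime := hP q (mem_filter.mp hq1').1
      have k13 : ¬ q ∣ lo e := he.1.2 q (mem_inter.mpr ⟨hq1, mem_insert_of_mem hq2⟩)
      rw [f2]
      intro k14
      rcases hqp.dvd_mul.mp k14 with k15 | k15
      · have k16 : q = p := (Nat.prime_dvd_prime_iff_eq hqp hpp).mp k15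
        exact hpQ (k16 ▸ hq2)
      · exact k13 k15
    · rw [f3]
      exact he.2
    · rw [f2]
      exact Dvd.intro _ rfl
  · intro e he e' he' hee
    rw [mem_coe, mem_filter, mem_filter] at he he'
    obtain ⟨e1, e2, e3⟩ := key e he
    obtain ⟨e1', e2', e3'⟩ := key e' he'
    exact h3 p hp e e1 e' e1' e2 e2' hee
  · intro e' he'
    rw [mem_coe, mem_filter] at he'
    obtain ⟨k1, k2, k3, k3'⟩ := he'
    have k3a := k3
    rw [hD] at k3a
    have k4 : p ∣ lo e' * hi e' ∧ ¬ p ^ 2 ∣ lo e' * hi e' := (mem_filter.mp k3a).2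
    obtain ⟨e, e1, e2, e3, e4⟩ := h2 p hp e' k1 k3' k4.2
    obtain ⟨f1, f2, f3, -⟩ := fact e e1 e2 e3
    rw [e4] at f2 f3
    refine ⟨e, ?_, e4⟩
    rw [mem_coe, mem_filter, mem_filter]
    refine ⟨⟨e1, ?_⟩, ?_⟩
    · intro q hq
      rw [← f3] at hq
      obtain ⟨hq1, hq2⟩ := mem_inter.mp hq
      rcases mem_insert.mp hq2 with rfl | hq2
      · intro k13
        refine e3 ?_
        rw [pow_two]
        exact mul_dvd_mul k13 e2
      · have k13 : ¬ q ∣ lo e' := k2 q (mem_inter.mpr ⟨hq1, hq2⟩)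
        intro k14
        apply k13
        rw [f2]
        exact Dvd.dvd.mul_left k14 _
    · rw [← f3]
      exact k3
  · intro e he
    rw [mem_filter, mem_filter] at he
    obtain ⟨e1, e2, e3⟩ := key e he
    obtain ⟨f1, f2, f3, f4⟩ := fact e e1 e2 e3
    rw [f3, f4, hΦ p hp e e1 e2 e3, hw p hp e e1 e2 e3]
    ring

open Classical in
/-- PROOF. (Abstract version of `Pool.Agent.OmEq.cluster`, file `Lib_MP_f1a94e_eq/Clu.lean`; copy its structure.) Write `ds e` for the primes `p ∈ P` dividing `lo e * hi e` exactly once, `t e = log (hi e) - log (lo e)`.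
Induction over subsets `Q ⊆ P`: claim
`∑_(e ∈ S) Φ e * w e (t e) = ∑_(e ∈ S, no q ∈ ds e ∩ Q divides lo e) Φ e * cs g (w e) (ds e ∩ Q) (t e)`. `Q = ∅`: `cs g w ∅ t = w t`. Step `Q → insert p Q`: the `e` of the left sum are of three kinds: `p ∉ ds e` (nothing changes);
`p ∈ ds e`, `p ∣ hi e` (then `p ∤ lo e`); `p ∈ ds e`, `p ∣ lo e`. `tog p` is a bijection from the second to the third kind (`h1`, `h2`, `h3`): it does not change `lo * hi`, so not `ds`, it does not change the divisibility of `lo` by the other primes `q` (`lo (tog p e) = p * lo e`),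
`t (tog p e) = t e - 2 log p`, `Φ (tog p e) = g p * Φ e`, `w (tog p e) = w e`. And `cs g w (insert p D) t = cs g w D t + g p * cs g w D (t - 2 log p)` for `p ∉ D` (`cs_insert` in `Lib_MP_f1a94e_eq/Clu.lean`). -/
theorem clus_abs {ι : Type} (S : Finset ι) (lo hi : ι → ℕ) (P : Finset ℕ) (hP : ∀ p ∈ P, p.Prime)
    (tog : ℕ → ι → ι)
    (h1 : ∀ p ∈ P, ∀ e ∈ S, p ∣ hi e → ¬ p ^ 2 ∣ lo e * hi e →
      tog p e ∈ S ∧ lo (tog p e) = p * lo e ∧ p * hi (tog p e) = hi e)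
    (h2 : ∀ p ∈ P, ∀ e ∈ S, p ∣ lo e → ¬ p ^ 2 ∣ lo e * hi e →
      ∃ e' ∈ S, p ∣ hi e' ∧ ¬ p ^ 2 ∣ lo e' * hi e' ∧ tog p e' = e)
    (h3 : ∀ p ∈ P, ∀ e ∈ S, ∀ e' ∈ S, p ∣ hi e → p ∣ hi e' → tog p e = tog p e' → e = e')
    (hlo : ∀ e ∈ S, 0 < lo e) (hhi : ∀ e ∈ S, 0 < hi e) (g : ℕ → ℂ) (Φ : ι → ℂ)
    (hΦ : ∀ p ∈ P, ∀ e ∈ S, p ∣ hi e → ¬ p ^ 2 ∣ lo e * hi e → Φ (tog p e) = g p * Φ e)
    (w : ι → ℝ → ℂ) (hw : ∀ p ∈ P, ∀ e ∈ S, p ∣ hi e → ¬ p ^ 2 ∣ lo e * hi e → w (tog p e) = w e) :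
    ∑ e ∈ S, Φ e * w e (Real.log (hi e) - Real.log (lo e)) =
      ∑ e ∈ S.filter (fun e => ∀ p ∈ P.filter (fun p => p ∣ lo e * hi e ∧ ¬ p ^ 2 ∣ lo e * hi e), ¬ p ∣ lo e),
        Φ e * cs g (w e) (P.filter (fun p => p ∣ lo e * hi e ∧ ¬ p ^ 2 ∣ lo e * hi e))
          (Real.log (hi e) - Real.log (lo e)) := by
  set D : ι → Finset ℕ := fun e => P.filter (fun p => p ∣ lo e * hi e ∧ ¬ p ^ 2 ∣ lo e * hi e) with hDdef
  have hD : ∀ e, D e = P.filter (fun p => p ∣ lo e * hi e ∧ ¬ p ^ 2 ∣ lo e * hi e) := fun e => rfl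
  have key : ∀ Q : Finset ℕ, Q ⊆ P → ∑ e ∈ S, Φ e * w e (Real.log (hi e) - Real.log (lo e)) =
      ∑ e ∈ S.filter (fun e => ∀ q ∈ D e ∩ Q, ¬ q ∣ lo e),
        Φ e * cs g (w e) (D e ∩ Q) (Real.log (hi e) - Real.log (lo e)) := by
    intro Q
    induction Q using Finset.induction_on with
    | empty =>
      intro _
      have k1 : S.filter (fun e => ∀ q ∈ D e ∩ (∅ : Finset ℕ), ¬ q ∣ lo e) = S := by
        refine Finset.filter_true_of_mem fun e _ q hq => ?_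
        rw [Finset.inter_empty] at hq
        exact absurd hq (Finset.notMem_empty q)
      rw [k1]
      refine Finset.sum_congr rfl fun e _ => ?_
      rw [Finset.inter_empty]
      unfold cs
      rw [Finset.powerset_empty, Finset.sum_singleton, Finset.prod_empty, one_mul]
      unfold lg
      rw [Finset.sum_empty, mul_zero, sub_zero]
    | insert p Q hpQ ih =>
      intro hQ
      rw [ih (fun q hq => hQ (mem_insert_of_mem hq))]
      exact clus_step S lo hi P hP tog h1 h2 h3 hlo hhi g Φ hΦ w hw Q p hpQ (hQ (mem_insert_self _ _)) D hD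
  rw [key P (Finset.Subset.refl _)]
  have k2 : ∀ e : ι, D e ∩ P = D e := fun e =>
    Finset.inter_eq_left.mpr (Finset.filter_subset _ _)
  refine Finset.sum_congr ?_ fun e _ => ?_
  · ext e
    simp only [mem_filter, mem_inter, hDdef]
    exact ⟨fun h => ⟨h.1, fun q hq => h.2 q ⟨hq, hq.1⟩⟩, fun h => ⟨h.1, fun q hq => h.2 q hq.1⟩⟩
  · rw [k2]

end Pool.Agent.Spl

end
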