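import Pool.Agent.Lib_MP_92ef0c_m.M14
import Pool.Agent.Lib_MP_92ef0c_m.M27
import Pool.Agent.Lib_MP_92ef0c_m.M28
import Pool.Agent.Lib_MP_92ef0c_m.M35

/-!
# MP_92ef0c_nt, split pairs: merged library part M36

Concatenation of smaller files (each in its own section), only to save build time.
-/

/-! ### from `Lib_MP_f1a94e_eq.Ctw` -/

section

/-!
# Piece CTW: the twisted cluster theorem
-/

set_option autoImplicit false

namespace Pool.Agent.OmEq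

open Finset Pool.Agent.GaussMR Pool.Agent.OmAll MeasureTheory Filter

theorem ctw_psi_cont {b : ℝ} {W : ℝ → ℝ → ℂ} (hW : TF b W) (g : ℕ → ℂ) (D : Finset ℕ) :
    Continuous (Function.uncurry fun y t => ‖cs g (W y) D t‖) := by
  have h : (Function.uncurry fun y t => ‖cs g (W y) D t‖) =
      fun p : ℝ × ℝ => ‖∑ a ∈ D.powerset, (∏ q ∈ a, g q) * Function.uncurry W (p.1, p.2 - 2 * lg a)‖ := by
    funext p
    rfl
  rw [h]
  refine continuous_norm.comp (continuous_finsetSum _ fun a _ => continuous_const.mul ?_)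
  exact hW.cont.comp (by fun_prop)

theorem ctw_psi_supp {b : ℝ} {W : ℝ → ℝ → ℂ} (hW : TF b W) (g : ℕ → ℂ) (D : Finset ℕ) :
    HasCompactSupport (Function.uncurry fun y t => ‖cs g (W y) D t‖) := by
  obtain ⟨R0, hR0, hR⟩ := ctw_supp hW
  have hL : ∃ L : ℝ, ∀ a ∈ D.powerset, |2 * lg a| ≤ L := by
    refine ⟨∑ a ∈ D.powerset, |2 * lg a|, fun a ha => ?_⟩
    exact single_le_sum (f := fun a => |2 * lg a|) (fun i _ => abs_nonneg _) ha
  obtain ⟨L, hL⟩ := hL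
  refine HasCompactSupport.of_support_subset_isCompact
    ((isCompact_Icc (a := -R0) (b := R0)).prod (isCompact_Icc (a := -(R0 + L)) (b := R0 + L))) ?_
  rintro ⟨y, t⟩ h
  rw [Function.mem_support] at h
  have h1 : cs g (W y) D t ≠ 0 := fun h2 => h (by
    show ‖cs g (W y) D t‖ = 0
    rw [h2, norm_zero])
  unfold cs at h1
  obtain ⟨a, ha, h2⟩ := exists_ne_zero_of_sum_ne_zero h1
  have h3 := hR y _ (right_ne_zero_of_mul h2)
  have h4 := hL a ha
  rw [Set.mem_prod, Set.mem_Icc, Set.mem_Icc, ← abs_le, ← abs_le]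
  refine ⟨h3.1, ?_⟩
  have h5 : |t| ≤ |t - 2 * lg a| + |2 * lg a| := by
    have := abs_add_le (t - 2 * lg a) (2 * lg a)
    rwa [sub_add_cancel] at this
  show |t| ≤ R0 + L
  linarith [h3.2]

/-- PROOF. Let `T` be given. `cluster` with `fun y t => W (y / X) t` (X > 0) gives for the sum `∑_(EN n (b X), bs) Φ e * cs g (W (mE e / X)) (ds E T e) (tE e)`, so its norm
is at most `∑_(EN n (b X), bs) Ψ (ds E T e) (mE e / X) (tE e)` with `Ψ D y t = ‖cs g (W y) D t‖` (`Cmp.bd`). `Ψ D` is continuous with compact support (a finite sum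
of translates in `t` of `W`), zero for `y ≤ 0` and `b ≤ y`. `tr` gives the limit `κ * ∑_D Pr D * ∫ y, ∫ t, Ψ D y t = κ * ∫ y, IT E g T (W y)` (finite sum and integral:
`y ↦ ∫ t, Ψ D y t` is integrable, e.g. `Integrable.integral_prod_left` or continuous with compact support). Hence for every `T`,
`limsup_X ‖sum‖ / X ≤ κ * ∫ y, IT E g T (W y)`. For `T → ∞` the right side tends to `0` by dominated convergence: `0 ≤ IT E g T (W y) ≤ ∫ t, ‖W y t‖` (`IT_le`), which is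
integrable in `y`, and `IT E g T (W y) → 0` for every `y` by `an` (`W y` is continuous with compact support). -/
theorem ctw (n : ℕ) (hn : 0 < n) (E : Finset ℕ) (hE : n.primeFactors ⊆ E) (g : ℕ → ℂ)
    (hg1 : ∀ p : ℕ, p.Prime → p % 4 = 1 → p ∉ E → ‖g p‖ = 1) (R : ℝ) (hR0 : 0 ≤ R) (hR1 : R ≤ 1) (hNP : NP E g R)
    (Φ : G × G → ℂ) (hΦ : Cmp n E g Φ) (b : ℝ) (W : ℝ → ℝ → ℂ) (hW : TF b W)
    (h0 : R < 1 ∨ ∀ y, (∫ t, W y t) = 0) :
    Tendsto (fun X : ℝ => (∑ e ∈ EN n (b * X), Φ e * W (mE e / X) (tE e)) / X) atTop (nhds 0) := by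
  classical
  obtain ⟨κ, hκ, htr⟩ := tr n hn
  -- integrability
  have hPi : ∀ D : Finset ℕ, Integrable (Function.uncurry fun y t => ‖cs g (W y) D t‖)
      (volume.prod volume) := fun D => by
    have h1 := (ctw_psi_cont hW g D).integrable_of_hasCompactSupport (ctw_psi_supp hW g D)
      (μ := (volume : Measure (ℝ × ℝ)))
    rwa [Measure.volume_eq_prod] at h1
  have hP1 : ∀ D : Finset ℕ, Integrable (fun y => ∫ t, ‖cs g (W y) D t‖) := fun D =>
    (hPi D).integral_prod_left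
  have hWi : Integrable (fun y => ∫ t, ‖W y t‖) := by
    have h1 := (hW.cont.integrable_of_hasCompactSupport hW.supp
      (μ := (volume : Measure (ℝ × ℝ)))).norm
    rw [Measure.volume_eq_prod] at h1
    exact h1.integral_prod_left
  -- the limit in `X`
  have hIT : ∀ T : ℕ, ∑ D ∈ (PE E T).powerset, Pr E T D * ∫ y, ∫ t, ‖cs g (W y) D t‖ =
      ∫ y, IT E g T (W y) := by
    intro T
    unfold IT
    rw [integral_finsetSum]
    · refine sum_congr rfl fun D _ => ?_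
      rw [integral_const_mul]
    · intro D _
      exact (hP1 D).const_mul _
  have hITi : ∀ T : ℕ, Integrable (fun y => IT E g T (W y)) := by
    intro T
    unfold IT
    exact integrable_finsetSum _ fun D _ => (hP1 D).const_mul _
  -- dominated convergence
  have hlim : Tendsto (fun T : ℕ => ∫ y, IT E g T (W y)) atTop (nhds 0) := by
    have h1 := tendsto_integral_of_dominated_convergence (F := fun T y => IT E g T (W y))
      (f := fun _ => (0 : ℝ)) (fun y => ∫ t, ‖W y t‖) (fun T => (hITi T).aestronglyMeasurable)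
      hWi ?_ ?_
    · rwa [integral_zero] at h1
    · intro T
      refine Filter.Eventually.of_forall fun y => ?_
      rw [Real.norm_eq_abs, abs_of_nonneg (AnP.IT_nonneg E g T (W y))]
      exact IT_le E g hg1 T (W y)
        ((ctw_cont_right hW y).integrable_of_hasCompactSupport (ctw_supp_right hW y))
    · refine Filter.Eventually.of_forall fun y => ?_
      exact an E g hg1 R hR0 hR1 hNP (W y) (ctw_cont_right hW y) (ctw_supp_right hW y)
        (h0.imp id fun h => h y)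
  rw [Metric.tendsto_atTop]
  intro ε hε
  have hlim' := hlim.const_mul κ
  rw [mul_zero] at hlim'
  obtain ⟨T, hT⟩ := (hlim'.eventually (gt_mem_nhds hε)).exists
  have ht := htr E hE T (fun D y t => ‖cs g (W y) D t‖) (ctw_psi_cont hW g) (ctw_psi_supp hW g)
    (fun D y u hy => by
      show ‖cs g (W y) D u‖ = 0
      unfold cs
      rw [sum_eq_zero, norm_zero]
      intro a _
      rw [hW.lo y _ hy, mul_zero]) b
    (fun D y u hy => by
      show ‖cs g (W y) D u‖ = 0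
      unfold cs
      rw [sum_eq_zero, norm_zero]
      intro a _
      rw [hW.hi y _ hy, mul_zero])
  rw [hIT T] at ht
  obtain ⟨X0, hX0⟩ := eventually_atTop.1 (ht.eventually (gt_mem_nhds hT))
  refine ⟨max X0 1, fun X hX => ?_⟩
  have hX1 : X0 ≤ X := (le_max_left _ _).trans hX
  have hX2 : 0 < X := lt_of_lt_of_le one_pos ((le_max_right _ _).trans hX)
  have h3 := hX0 X hX1
  rw [dist_zero_right, norm_div, Complex.norm_real, Real.norm_eq_abs, abs_of_pos hX2]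
  refine lt_of_le_of_lt ?_ h3
  refine div_le_div_of_nonneg_right ?_ hX2.le
  have h4 := cluster n hn E hE g Φ hΦ T (b * X) (fun y t => W (y / X) t)
  rw [h4]
  refine (norm_sum_le _ _).trans (sum_le_sum fun e _ => ?_)
  rw [norm_mul]
  have h5 : ‖Φ e‖ * ‖cs g (fun t => W (mE e / X) t) (ds E T e) (tE e)‖ ≤
      1 * ‖cs g (fun t => W (mE e / X) t) (ds E T e) (tE e)‖ :=
    mul_le_mul_of_nonneg_right (hΦ.bd e) (norm_nonneg _)
  rw [one_mul] at h5
  exact h5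

end Pool.Agent.OmEq

end

/-! ### from `Lib_MP_f1a94e_eq.Pair` -/

section

/-!
# Piece PAIR: sums over pairs with characters
-/

set_option autoImplicit false

namespace Pool.Agent.OmEq

open Finset Pool.Agent.GaussMR Pool.Agent.OmAll MeasureTheory Filter

theorem pair_re_lt {z : ℂ} (hz : ‖z‖ = 1) (h1 : z ≠ 1) : z.re < 1 := by
  rcases lt_or_eq_of_le (hz ▸ Complex.re_le_norm z) with h | h
  · exact h
  · exfalso
    apply h1
    have h2 := Complex.sq_norm_sub_sq_re z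
    rw [hz, h] at h2
    have h3 : z.im = 0 := by
      have : z.im ^ 2 = 0 := by rw [← h2]; norm_num
      exact pow_eq_zero_iff (two_ne_zero) |>.1 this
    exact Complex.ext (by simpa using h) (by simpa using h3)

/-- PROOF. `ctw` with `E ∪ n.primeFactors`, `cmp_pair`, `g p = ω1 conj ω2 χ⁻¹(p)`, `‖g p‖ = 1` for primes `p ∤ n`. Put `ω = ω1 conj ω2`, `‖ω‖ = 1`.
Case 1 (`ω ≠ 1`): `R = max 0 ω.re < 1` (`‖ω‖ = 1`, `ω ≠ 1`), `npChi n χ⁻¹ ω`. Case 2: `R = 0`, `npZ n χ⁻¹ a` (`χ⁻¹(a) = χ(a)⁻¹ ≠ 1`). Case 3: `R = max 0 ω.re ≤ 1`, `npChi`,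
second alternative of `h0` of `ctw`. -/
theorem pair_lim (n : ℕ) [NeZero n] (χ : DirichletCharacter ℂ n) (E : Finset ℕ) (f1 f2 : ℕ → ℂ) (ω1 ω2 : ℂ)
    (h1 : FF f1 E ω1) (h2 : FF f2 E ω2) (hω1 : ‖ω1‖ = 1) (hω2 : ‖ω2‖ = 1) (b : ℝ) (W : ℝ → ℝ → ℂ) (hW : TF b W)
    (h0 : ω1 * (starRingEnd ℂ) ω2 ≠ 1 ∨ (∃ a : ℕ, a % 4 = 1 ∧ a.Coprime n ∧ χ ((a : ZMod n)) ≠ 1) ∨
      ∀ y, (∫ t, W y t) = 0) :
    Tendsto (fun X : ℝ => (∑ e ∈ EN n (b * X), f1 (nm e.1) * f2 (nm e.2) * χ (cl n e) * W (mE e / X) (tE e)) / X)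
      atTop (nhds 0) := by
  have hn : 0 < n := Nat.pos_of_ne_zero (NeZero.ne n)
  have hω : ‖ω1 * (starRingEnd ℂ) ω2‖ = 1 := by
    rw [norm_mul, Complex.norm_conj, hω1, hω2, one_mul]
  have hg1 : ∀ p : ℕ, p.Prime → p % 4 = 1 → p ∉ E ∪ n.primeFactors →
      ‖ω1 * (starRingEnd ℂ) ω2 * χ⁻¹ (p : ZMod n)‖ = 1 := by
    intro p hp _ hpE
    have hpn : ¬ p ∣ n := fun h => hpE (mem_union_right _ (Nat.mem_primeFactors.2 ⟨hp, h, hn.ne'⟩))
    have hcop : p.Coprime n := (Nat.Prime.coprime_iff_not_dvd hp).2 hpn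
    have hu := (ZMod.unitOfCoprime p hcop)
    rw [norm_mul, hω, one_mul]
    have h3 := DirichletCharacter.unit_norm_eq_one χ⁻¹ (ZMod.unitOfCoprime p hcop)
    rwa [ZMod.coe_unitOfCoprime] at h3
  have hC := cmp_pair n χ E f1 f2 ω1 ω2 h1 h2 hω1 hω2
  rcases h0 with h | ⟨a, ha4, hac, hχ⟩ | h
  · exact ctw n hn _ subset_union_right _ hg1 (max 0 (ω1 * (starRingEnd ℂ) ω2).re) (le_max_left _ _)
      (max_le zero_le_one (pair_re_lt hω h).le) (npChi n χ⁻¹ _ hω _) _ hC b W hW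
      (Or.inl (max_lt zero_lt_one (pair_re_lt hω h)))
  · refine ctw n hn _ subset_union_right _ hg1 0 le_rfl zero_le_one (npZ n χ⁻¹ a ha4 hac ?_ _ hω _) _ hC b W hW
      (Or.inl zero_lt_one)
    intro h3
    apply hχ
    have h4 : (χ⁻¹ * χ) (a : ZMod n) = 1 := by
      rw [inv_mul_cancel, MulChar.one_apply ((ZMod.isUnit_iff_coprime a n).2 hac)]
    rw [MulChar.mul_apply, h3, one_mul] at h4
    exact h4
  · exact ctw n hn _ subset_union_right _ hg1 (max 0 (ω1 * (starRingEnd ℂ) ω2).re) (le_max_left _ _)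
      (max_le zero_le_one (hω ▸ Complex.re_le_norm _)) (npChi n χ⁻¹ _ hω _) _ hC b W hW (Or.inr h)

/-- PROOF. `ctw` with `n = 1`, `E = ∅`, `g = 1`, `R = 1`, `Φ e = u (dot e.1 e.2)`: `Cmp`: `dot (γ U) W = dot U (star γ W)` (`star_mul_eq`). `NP ∅ (fun _ => 1) 1` from `npChi` with `N = 1`, `χ = 1`,
`ω = 1` (`max 0 1 = 1`; `χ p = 1` in `ZMod 1`). -/
theorem tvf (u : ℤ → ℂ) (hu : ∀ m, ‖u m‖ ≤ 1) (b : ℝ) (W : ℝ → ℝ → ℂ) (hW : TF b W) (h0 : ∀ y, (∫ t, W y t) = 0) :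
    Tendsto (fun X : ℝ => (∑ e ∈ EN 1 (b * X), u (dot e.1 e.2) * W (mE e / X) (tE e)) / X) atTop (nhds 0) := by
  have hNP : NP ∅ (fun _ => (1 : ℂ)) 1 := by
    have h := npChi 1 1 1 (by simp) ∅
    have h1 : (fun p : ℕ => (1 : ℂ) * (1 : DirichletCharacter ℂ 1) ((p : ZMod 1))) = fun _ => (1 : ℂ) := by
      funext p
      rw [one_mul, MulChar.one_apply (isUnit_of_subsingleton _)]
    have h2 : max 0 (1 : ℂ).re = 1 := by simp
    rw [h1, h2] at h
    exact h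
  refine ctw 1 one_pos ∅ (by simp) (fun _ => (1 : ℂ)) (fun _ _ _ _ => by simp) 1 zero_le_one le_rfl hNP
    (fun e => u (dot e.1 e.2)) ⟨fun e => hu _, ?_⟩ b W hW (Or.inr h0)
  intro γ U W _ _ _ _ _
  show u (dot (γ * U) W) = 1 * u (dot U (star γ * W))
  rw [one_mul, tog_det.2]

/-- two different values: joint sums vanish. PROOF. `pair_lim` with `n = 1`, `χ = 1` (`χ (cl 1 e) = 1` as `ZMod 1` is trivial), case 1. -/
theorem joint_ne (E : Finset ℕ) (f1 f2 : ℕ → ℂ) (ω1 ω2 : ℂ) (h1 : FF f1 E ω1) (h2 : FF f2 E ω2) (hω1 : ‖ω1‖ = 1)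
    (hω2 : ‖ω2‖ = 1) (hne : ω1 ≠ ω2) (b : ℝ) (W : ℝ → ℝ → ℂ) (hW : TF b W) :
    Tendsto (fun X : ℝ => (∑ e ∈ EN 1 (b * X), f1 (nm e.1) * f2 (nm e.2) * W (mE e / X) (tE e)) / X)
      atTop (nhds 0) := by
  have hne2 : ω1 * (starRingEnd ℂ) ω2 ≠ 1 := by
    intro h
    apply hne
    have h3 : ω2 * (starRingEnd ℂ) ω2 = 1 := by
      rw [Complex.mul_conj, Complex.normSq_eq_norm_sq, hω2]
      simp
    have h4 : (starRingEnd ℂ) ω2 ≠ 0 := by
      intro h5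
      rw [h5, mul_zero] at h3
      exact zero_ne_one h3
    exact mul_right_cancel₀ h4 (h.trans h3.symm)
  have h := pair_lim 1 1 E f1 f2 ω1 ω2 h1 h2 hω1 hω2 b W hW (Or.inl hne2)
  have h3 : ∀ e, f1 (nm e.1) * f2 (nm e.2) * (1 : DirichletCharacter ℂ 1) (cl 1 e) =
      f1 (nm e.1) * f2 (nm e.2) := by
    intro e
    rw [MulChar.one_apply (isUnit_of_subsingleton _), mul_one]
  simp only [h3] at h
  exact h

end Pool.Agent.OmEq

end

/-! ### from `Lib_MP_92ef0c_sp.CluAB` -/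

section

/-!
# Clusters for matrices: moves between `a` and `d` and between `b` and `c`
-/

set_option autoImplicit false

namespace Pool.Agent.Spl

open Finset Pool.Agent.GaussMR Pool.Agent.OmAll Pool.Agent.OmEq

private theorem cluAB_ndvd {n : ℕ} (hn : 0 < n) {E : Finset ℕ} (hE : n.primeFactors ⊆ E) {p : ℕ} (hp : p.Prime) (hpE : p ∉ E) :
    ¬ p ∣ n :=
  fun h => hpE (hE (Nat.mem_primeFactors.mpr ⟨hp, h, hn.ne'⟩))

/-- moving a prime from `d` to `a` -/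
private theorem cluAB_moveA {n : ℕ} {p a b c d : ℕ} (hp : p.Prime) (hpn : ¬ p ∣ n) :
    Sn n ⟨p * a, b, c, d⟩ ↔ Sn n ⟨a, b, c, p * d⟩ := by
  have hnb : ∀ k, p * k = b * c + n → ¬ p ∣ b := by
    intro k hk h
    apply hpn
    have h1 : p ∣ b * c + n := ⟨k, hk.symm⟩
    exact (Nat.dvd_add_right (Dvd.dvd.mul_right h c)).1 h1
  have hnc : ∀ k, p * k = b * c + n → ¬ p ∣ c := by
    intro k hk h
    apply hpn
    have h1 : p ∣ b * c + n := ⟨k, hk.symm⟩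
    exact (Nat.dvd_add_right (Dvd.dvd.mul_left h b)).1 h1
  unfold Sn
  constructor
  · rintro ⟨h1, h2, h3, h4, h5, h6, h7⟩
    simp only at h1 h2 h3 h4 h5 h6 h7 ⊢
    have h8 : p * (a * d) = b * c + n := by rw [← h1]; ring
    have hcp : c.Coprime p := ((Nat.Prime.coprime_iff_not_dvd hp).2 (hnc _ h8)).symm
    refine ⟨by rw [← h8]; ring, Nat.pos_of_mul_pos_left h2, h3, h4, Nat.mul_pos hp.pos h5, ?_, ?_⟩
    · exact Nat.Coprime.coprime_mul_left h6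
    · exact Nat.Coprime.mul_right hcp h7
  · rintro ⟨h1, h2, h3, h4, h5, h6, h7⟩
    simp only at h1 h2 h3 h4 h5 h6 h7 ⊢
    have h8 : p * (a * d) = b * c + n := by rw [← h1]; ring
    have hbp : p.Coprime b := (Nat.Prime.coprime_iff_not_dvd hp).2 (hnb _ h8)
    refine ⟨by rw [← h8]; ring, Nat.mul_pos hp.pos h2, h3, h4, Nat.pos_of_mul_pos_left h5, ?_, ?_⟩
    · exact Nat.Coprime.mul_left hbp h6
    · exact Nat.Coprime.coprime_mul_left_right h7

/-- moving a prime from `c` to `b` -/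
private theorem cluAB_moveB {n : ℕ} {p a b c d : ℕ} (hp : p.Prime) (hpn : ¬ p ∣ n) :
    Sn n ⟨a, p * b, c, d⟩ ↔ Sn n ⟨a, b, p * c, d⟩ := by
  have hna : ∀ k, a * d = p * k + n → ¬ p ∣ a := by
    intro k hk h
    apply hpn
    have h1 : p ∣ p * k + n := by rw [← hk]; exact Dvd.dvd.mul_right h d
    exact (Nat.dvd_add_right (Dvd.intro k rfl)).1 h1
  have hnd : ∀ k, a * d = p * k + n → ¬ p ∣ d := by
    intro k hk h
    apply hpn
    have h1 : p ∣ p * k + n := by rw [← hk]; exact Dvd.dvd.mul_left h a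
    exact (Nat.dvd_add_right (Dvd.intro k rfl)).1 h1
  unfold Sn
  constructor
  · rintro ⟨h1, h2, h3, h4, h5, h6, h7⟩
    simp only at h1 h2 h3 h4 h5 h6 h7 ⊢
    have h8 : a * d = p * (b * c) + n := by rw [h1]; ring
    have hdp : p.Coprime d := (Nat.Prime.coprime_iff_not_dvd hp).2 (hnd _ h8)
    refine ⟨by rw [h8]; ring, h2, Nat.pos_of_mul_pos_left h3, Nat.mul_pos hp.pos h4, h5, ?_, ?_⟩
    · exact Nat.Coprime.coprime_mul_left_right h6
    · exact Nat.Coprime.mul_left hdp h7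
  · rintro ⟨h1, h2, h3, h4, h5, h6, h7⟩
    simp only at h1 h2 h3 h4 h5 h6 h7 ⊢
    have h8 : a * d = p * (b * c) + n := by rw [h1]; ring
    have hap : a.Coprime p := ((Nat.Prime.coprime_iff_not_dvd hp).2 (hna _ h8)).symm
    refine ⟨by rw [h8]; ring, h2, Nat.mul_pos hp.pos h3, Nat.pos_of_mul_pos_left h4, h5, ?_, ?_⟩
    · exact Nat.Coprime.mul_right hap h6
    · exact Nat.Coprime.coprime_mul_left h7

open Classical in
/-- PROOF. `clus_abs` with `S = SN n x`, `lo = a`, `hi = d`, `P = PP E T`, `tog p e = ⟨p a, b, c, d / p⟩`, `w e t = W (yS e) t (uS e)`; `tS e = log d - log a`, `yS`, `uS` depend on `b`, `c` only. For `p ∈ PP E T`: `p` does not divide `n` (`hE`).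
`e ∈ SN n x`, `p ∣ d`, `¬ p ^ 2 ∣ a d`: `d = p d'`, `(p a) d' = a d = b c + n`; `p` does not divide `b` nor `c` (otherwise `p ∣ n`), so `p a` is coprime to `b` and `c` to `d'`. Conversely if `p ∣ a`, `a = p a'`: `e' = ⟨a', b, c, p d⟩` (`c` coprime to `p d`).
`Φ`: `CmpA.mv`. -/
theorem cluA (n : ℕ) (hn : 0 < n) (E : Finset ℕ) (hE : n.primeFactors ⊆ E) (g : ℕ → ℂ) (Φ : Q4 → ℂ)
    (hΦ : CmpA n E g Φ) (T : ℕ) (x : ℝ) (W : ℝ → ℝ → ℝ → ℂ) :
    ∑ e ∈ SN n x, Φ e * W (yS e) (tS e) (uS e) =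
      ∑ e ∈ (SN n x).filter (bA E T), Φ e * cs g (fun t => W (yS e) t (uS e)) (dA E T e) (tS e) := by
  refine clus_abs (SN n x) (fun e => e.a) (fun e => e.d) (PP E T) (fun p hp => (mem_PP.1 hp).2.1)
    (fun p e => ⟨p * e.a, e.b, e.c, e.d / p⟩) ?_ ?_ ?_ (fun e he => (mem_SN.1 he).1.2.1)
    (fun e he => (mem_SN.1 he).1.2.2.2.2.1) g Φ ?_ (fun e t => W (yS e) t (uS e)) (fun _ _ _ _ _ _ => rfl)
  · rintro p hp ⟨a, b, c, d⟩ he hd hd2
    obtain ⟨hpT, hpp, hpE⟩ := mem_PP.1 hp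
    have hpn := cluAB_ndvd hn hE hpp hpE
    obtain ⟨k, rfl⟩ := hd
    obtain ⟨he1, he2⟩ := mem_SN.1 he
    show ((⟨p * a, b, c, p * k / p⟩ : Q4) ∈ SN n x) ∧ p * a = p * a ∧ p * (p * k / p) = p * k
    rw [Nat.mul_div_cancel_left _ hpp.pos]
    exact ⟨mem_SN.2 ⟨(cluAB_moveA hpp hpn).2 he1, he2⟩, rfl, rfl⟩
  · rintro p hp ⟨a, b, c, d⟩ he hd hd2
    obtain ⟨hpT, hpp, hpE⟩ := mem_PP.1 hp
    have hpn := cluAB_ndvd hn hE hpp hpE
    obtain ⟨k, rfl⟩ := hd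
    obtain ⟨he1, he2⟩ := mem_SN.1 he
    refine ⟨⟨k, b, c, p * d⟩, mem_SN.2 ⟨(cluAB_moveA hpp hpn).1 he1, he2⟩, Dvd.intro _ rfl, ?_, ?_⟩
    · show ¬ p ^ 2 ∣ k * (p * d)
      have h1 : k * (p * d) = p * k * d := by ring
      rw [h1]
      exact hd2
    · show (⟨p * k, b, c, p * d / p⟩ : Q4) = ⟨p * k, b, c, d⟩
      rw [Nat.mul_div_cancel_left _ hpp.pos]
  · rintro p hp ⟨a, b, c, d⟩ he ⟨a', b', c', d'⟩ he' hd hd' h
    obtain ⟨hpT, hpp, hpE⟩ := mem_PP.1 hp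
    obtain ⟨k, rfl⟩ := hd
    obtain ⟨k', rfl⟩ := hd'
    simp only [Q4.mk.injEq] at h
    obtain ⟨h1, h2, h3, h4⟩ := h
    rw [Nat.mul_div_cancel_left _ hpp.pos, Nat.mul_div_cancel_left _ hpp.pos] at h4
    have h5 : a = a' := Nat.eq_of_mul_eq_mul_left hpp.pos h1
    rw [h5, h2, h3, h4]
  · rintro p hp ⟨a, b, c, d⟩ he hd hd2
    obtain ⟨hpT, hpp, hpE⟩ := mem_PP.1 hp
    have hpn := cluAB_ndvd hn hE hpp hpE
    obtain ⟨k, rfl⟩ := hd
    obtain ⟨he1, he2⟩ := mem_SN.1 he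
    show Φ ⟨p * a, b, c, p * k / p⟩ = g p * Φ ⟨a, b, c, p * k⟩
    rw [Nat.mul_div_cancel_left _ hpp.pos]
    refine hΦ.mv p a b c k hpp hpE ((cluAB_moveA hpp hpn).2 he1) ?_
    have h1 : p * a * k = a * (p * k) := by ring
    rw [h1]
    exact hd2

open Classical in
/-- PROOF. The same with `lo = b`, `hi = c`, `tog p e = ⟨a, p b, c / p, d⟩`, `w e u = W (yS e) (tS e) u`; `b c`, hence `yS e`, and `a`, `d`, hence `tS e`, do not change. `p ∣ b c` and `p` does not divide `n`, so `p` does not divide `a d`, hence neither `a` nor `d`. -/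
theorem cluB (n : ℕ) (hn : 0 < n) (E : Finset ℕ) (hE : n.primeFactors ⊆ E) (g : ℕ → ℂ) (Φ : Q4 → ℂ)
    (hΦ : CmpB n E g Φ) (T : ℕ) (x : ℝ) (W : ℝ → ℝ → ℝ → ℂ) :
    ∑ e ∈ SN n x, Φ e * W (yS e) (tS e) (uS e) =
      ∑ e ∈ (SN n x).filter (bB E T), Φ e * cs g (fun u => W (yS e) (tS e) u) (dB E T e) (uS e) := by
  have hy : ∀ p a b k d : ℕ, yS ⟨a, p * b, k, d⟩ = yS ⟨a, b, p * k, d⟩ := by
    intro p a b k d
    unfold yS
    push_cast
    ring
  refine clus_abs (SN n x) (fun e => e.b) (fun e => e.c) (PP E T) (fun p hp => (mem_PP.1 hp).2.1)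
    (fun p e => ⟨e.a, p * e.b, e.c / p, e.d⟩) ?_ ?_ ?_ (fun e he => (mem_SN.1 he).1.2.2.1)
    (fun e he => (mem_SN.1 he).1.2.2.2.1) g Φ ?_ (fun e u => W (yS e) (tS e) u) ?_
  · rintro p hp ⟨a, b, c, d⟩ he hd hd2
    obtain ⟨hpT, hpp, hpE⟩ := mem_PP.1 hp
    have hpn := cluAB_ndvd hn hE hpp hpE
    obtain ⟨k, rfl⟩ := hd
    obtain ⟨he1, he2⟩ := mem_SN.1 he
    show ((⟨a, p * b, p * k / p, d⟩ : Q4) ∈ SN n x) ∧ p * b = p * b ∧ p * (p * k / p) = p * k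
    rw [Nat.mul_div_cancel_left _ hpp.pos]
    refine ⟨mem_SN.2 ⟨(cluAB_moveB hpp hpn).2 he1, ?_⟩, rfl, rfl⟩
    rw [hy]
    exact he2
  · rintro p hp ⟨a, b, c, d⟩ he hd hd2
    obtain ⟨hpT, hpp, hpE⟩ := mem_PP.1 hp
    have hpn := cluAB_ndvd hn hE hpp hpE
    obtain ⟨k, rfl⟩ := hd
    obtain ⟨he1, he2⟩ := mem_SN.1 he
    refine ⟨⟨a, k, p * c, d⟩, mem_SN.2 ⟨(cluAB_moveB hpp hpn).1 he1, ?_⟩, Dvd.intro _ rfl, ?_, ?_⟩
    · rw [← hy]
      exact he2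
    · show ¬ p ^ 2 ∣ k * (p * c)
      have h1 : k * (p * c) = p * k * c := by ring
      rw [h1]
      exact hd2
    · show (⟨a, p * k, p * c / p, d⟩ : Q4) = ⟨a, p * k, c, d⟩
      rw [Nat.mul_div_cancel_left _ hpp.pos]
  · rintro p hp ⟨a, b, c, d⟩ he ⟨a', b', c', d'⟩ he' hd hd' h
    obtain ⟨hpT, hpp, hpE⟩ := mem_PP.1 hp
    obtain ⟨k, rfl⟩ := hd
    obtain ⟨k', rfl⟩ := hd'
    simp only [Q4.mk.injEq] at h
    obtain ⟨h1, h2, h3, h4⟩ := h
    rw [Nat.mul_div_cancel_left _ hpp.pos, Nat.mul_div_cancel_left _ hpp.pos] at h3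
    have h5 : b = b' := Nat.eq_of_mul_eq_mul_left hpp.pos h2
    rw [h5, h1, h3, h4]
  · rintro p hp ⟨a, b, c, d⟩ he hd hd2
    obtain ⟨hpT, hpp, hpE⟩ := mem_PP.1 hp
    have hpn := cluAB_ndvd hn hE hpp hpE
    obtain ⟨k, rfl⟩ := hd
    obtain ⟨he1, he2⟩ := mem_SN.1 he
    show Φ ⟨a, p * b, p * k / p, d⟩ = g p * Φ ⟨a, b, p * k, d⟩
    rw [Nat.mul_div_cancel_left _ hpp.pos]
    refine hΦ.mv p a b k d hpp hpE ((cluAB_moveB hpp hpn).2 he1) ?_
    have h1 : p * b * k = b * (p * k) := by ring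
    rw [h1]
    exact hd2
  · rintro p hp ⟨a, b, c, d⟩ he hd hd2
    obtain ⟨hpT, hpp, hpE⟩ := mem_PP.1 hp
    obtain ⟨k, rfl⟩ := hd
    show (fun u => W (yS ⟨a, p * b, p * k / p, d⟩) (tS ⟨a, p * b, p * k / p, d⟩) u) =
      fun u => W (yS ⟨a, b, p * k, d⟩) (tS ⟨a, b, p * k, d⟩) u
    rw [Nat.mul_div_cancel_left _ hpp.pos, hy]
    rfl

end Pool.Agent.Spl

end
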