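import Pool.Agent.Lib_MP_92ef0c_m.M31
import Pool.Agent.Lib_MP_92ef0c_m.M36

/-!
# MP_92ef0c_nt, split pairs: merged library part M37

Concatenation of smaller files (each in its own section), only to save build time.
-/

/-! ### from `Lib_MP_f1a94e_eq.LimH` -/

section

/-!
# Piece LIMH: from correlations to the sum over edges
-/

set_option autoImplicit false

namespace Pool.Agent.OmEq

open Finset Pool.Agent.GaussMR Pool.Agent.OmAll MeasureTheory Filter

theorem limh_ps0_nonneg (t : ℝ) : 0 ≤ ps0 t := le_max_left _ _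

theorem limh_ps0_le (t : ℝ) : ps0 t ≤ 1 := by
  unfold ps0
  apply max_le zero_le_one
  linarith [abs_nonneg t]

theorem limh_ps0_zero {t : ℝ} (h : 1 ≤ |t|) : ps0 t = 0 := by
  unfold ps0
  apply max_eq_left
  linarith

theorem limh_ps0_cont : Continuous ps0 := by
  unfold ps0
  fun_prop

theorem limh_ps0_int : ∫ t, ps0 t = 1 := by
  have h1 : ∫ t, ps0 t = ∫ t in Set.Ioc (-1 : ℝ) 1, ps0 t := by
    symm
    apply setIntegral_eq_integral_of_forall_compl_eq_zero
    intro t ht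
    apply limh_ps0_zero
    rw [Set.mem_Ioc, not_and_or, not_lt, not_le] at ht
    rcases ht with ht | ht
    · rw [abs_of_nonpos (by linarith)]
      linarith
    · rw [abs_of_pos (by linarith)]
      exact ht.le
  rw [h1, ← intervalIntegral.integral_of_le (by norm_num),
    ← intervalIntegral.integral_add_adjacent_intervals (b := (0 : ℝ))
      (limh_ps0_cont.intervalIntegrable _ _) (limh_ps0_cont.intervalIntegrable _ _)]
  have h2 : ∫ t in (-1 : ℝ)..0, ps0 t = ∫ t in (-1 : ℝ)..0, (1 + t) := by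
    apply intervalIntegral.integral_congr
    intro t ht
    rw [Set.uIcc_of_le (by norm_num), Set.mem_Icc] at ht
    show ps0 t = 1 + t
    unfold ps0
    rw [abs_of_nonpos ht.2, max_eq_right (by linarith [ht.1])]
    ring
  have h3 : ∫ t in (0 : ℝ)..1, ps0 t = ∫ t in (0 : ℝ)..1, (1 - t) := by
    apply intervalIntegral.integral_congr
    intro t ht
    rw [Set.uIcc_of_le (by norm_num), Set.mem_Icc] at ht
    show ps0 t = 1 - t
    unfold ps0
    rw [abs_of_nonneg ht.1, max_eq_right (by linarith [ht.2])]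
  rw [h2, h3, intervalIntegral.integral_add (by simp) (by simp),
    intervalIntegral.integral_sub (by simp) (by simp)]
  simp
  norm_num

theorem limh_ps0_intC : ∫ t, ((ps0 t : ℝ) : ℂ) = 1 := by
  have h : ∫ t, ((ps0 t : ℝ) : ℂ) = ((∫ t, ps0 t : ℝ) : ℂ) := integral_ofReal
  rw [h, limh_ps0_int]
  simp

theorem limh_ps0_supp : HasCompactSupport ps0 := by
  apply HasCompactSupport.intro (isCompact_Icc (a := (-1 : ℝ)) (b := 1))
  intro t ht
  apply limh_ps0_zero
  rw [Set.mem_Icc, not_and_or, not_le, not_le] at ht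
  rcases ht with ht | ht
  · rw [abs_of_neg (by linarith)]
    linarith
  · rw [abs_of_pos (by linarith)]
    exact ht.le

/-- the integral over `t` -/
theorem limh_c_cont {b : ℝ} {W : ℝ → ℝ → ℂ} (hW : TF b W) : Continuous (fun y => ∫ t, W y t) := by
  have hs : IsCompact (Prod.snd '' tsupport (Function.uncurry W)) := hW.supp.image continuous_snd
  have h1 : ∀ y, ∫ t in Prod.snd '' tsupport (Function.uncurry W), W y t = ∫ t, W y t := by
    intro y
    apply setIntegral_eq_integral_of_forall_compl_eq_zero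
    intro t ht
    by_contra hne
    apply ht
    refine ⟨(y, t), subset_tsupport _ ?_, rfl⟩
    exact hne
  have h2 := continuous_parametric_integral_of_continuous (μ := volume) hW.cont hs
  have h3 : (fun y => ∫ t, W y t) =
      fun y => ∫ t in Prod.snd '' tsupport (Function.uncurry W), W y t := by
    funext y
    exact (h1 y).symm
  rw [h3]
  exact h2

theorem limh_slice_supp {b : ℝ} {W : ℝ → ℝ → ℂ} (hW : TF b W) (y : ℝ) :
    HasCompactSupport (fun t => W y t) := by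
  have hs : IsCompact (Prod.snd '' tsupport (Function.uncurry W)) := hW.supp.image continuous_snd
  apply HasCompactSupport.intro hs
  intro t ht
  by_contra hne
  apply ht
  refine ⟨(y, t), subset_tsupport _ ?_, rfl⟩
  exact hne

theorem limh_slice_cont {b : ℝ} {W : ℝ → ℝ → ℂ} (hW : TF b W) (y : ℝ) : Continuous (fun t => W y t) :=
  hW.cont.comp (Continuous.prodMk_right y)

theorem limh_c_lo {b : ℝ} {W : ℝ → ℝ → ℂ} (hW : TF b W) {y : ℝ} (hy : y ≤ 0) : ∫ t, W y t = 0 := by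
  have : (fun t => W y t) = fun _ => 0 := by
    funext t
    exact hW.lo y t hy
  rw [this, integral_zero]

theorem limh_c_hi {b : ℝ} {W : ℝ → ℝ → ℂ} (hW : TF b W) {y : ℝ} (hy : b ≤ y) : ∫ t, W y t = 0 := by
  have : (fun t => W y t) = fun _ => 0 := by
    funext t
    exact hW.hi y t hy
  rw [this, integral_zero]

/-- the difference with `c y * ps0 t` is a test function with integral zero -/
theorem limh_tf {b : ℝ} {W : ℝ → ℝ → ℂ} (hW : TF b W) :
    TF b (fun y t => W y t - (∫ s, W y s) * ((ps0 t : ℝ) : ℂ)) := by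
  refine ⟨?_, ?_, ?_, ?_⟩
  · have h1 : Continuous (fun p : ℝ × ℝ => (∫ s, W p.1 s) * ((ps0 p.2 : ℝ) : ℂ)) :=
      ((limh_c_cont hW).comp continuous_fst).mul
        (Complex.continuous_ofReal.comp (limh_ps0_cont.comp continuous_snd))
    exact hW.cont.sub h1
  · have h1 : HasCompactSupport (fun p : ℝ × ℝ => (∫ s, W p.1 s) * ((ps0 p.2 : ℝ) : ℂ)) := by
      apply HasCompactSupport.intro ((isCompact_Icc (a := (0 : ℝ)) (b := b)).prod
        (isCompact_Icc (a := (-1 : ℝ)) (b := 1)))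
      rintro ⟨y, t⟩ hyt
      rw [Set.mem_prod, Set.mem_Icc, Set.mem_Icc, not_and_or, not_and_or, not_and_or] at hyt
      simp only [not_le] at hyt
      rcases hyt with (h | h) | (h | h)
      · show (∫ s, W y s) * ((ps0 t : ℝ) : ℂ) = 0
        rw [limh_c_lo hW h.le, zero_mul]
      · show (∫ s, W y s) * ((ps0 t : ℝ) : ℂ) = 0
        rw [limh_c_hi hW h.le, zero_mul]
      · show (∫ s, W y s) * ((ps0 t : ℝ) : ℂ) = 0
        rw [limh_ps0_zero, Complex.ofReal_zero, mul_zero]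
        rw [abs_of_neg (by linarith)]
        linarith
      · show (∫ s, W y s) * ((ps0 t : ℝ) : ℂ) = 0
        rw [limh_ps0_zero, Complex.ofReal_zero, mul_zero]
        rw [abs_of_pos (by linarith)]
        exact h.le
    exact hW.supp.sub h1
  · intro y t hy
    rw [hW.lo y t hy, limh_c_lo hW hy]
    ring
  · intro y t hy
    rw [hW.hi y t hy, limh_c_hi hW hy]
    ring

theorem limh_tf_int {b : ℝ} {W : ℝ → ℝ → ℂ} (hW : TF b W) (y : ℝ) :
    ∫ t, (W y t - (∫ s, W y s) * ((ps0 t : ℝ) : ℂ)) = 0 := by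
  have h1 : Integrable (fun t => W y t) :=
    (limh_slice_cont hW y).integrable_of_hasCompactSupport (limh_slice_supp hW y)
  have h2 : Integrable (fun t => (∫ s, W y s) * ((ps0 t : ℝ) : ℂ)) := by
    apply Integrable.const_mul
    exact (limh_ps0_cont.integrable_of_hasCompactSupport limh_ps0_supp).ofReal
  rw [integral_sub h1 h2, integral_const_mul, limh_ps0_intC, mul_one, sub_self]

/-- the value at an edge depends only on the scalar product -/
theorem limh_u (f : ℕ → ℂ) (hm : ∀ m n, f (m * n) = f m * f n) {x : ℝ} {e : G × G} (he : e ∈ EN 1 x) :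
    f (nm e.1) * f (nm e.2) = f ((dot e.1 e.2 ^ 2 + 1).toNat) := by
  rw [mem_EN one_pos] at he
  have h1 := dot_sq_add_det_sq e.1 e.2
  rw [he.1.1] at h1
  have h2 : (dot e.1 e.2 ^ 2 + 1).toNat = nm e.1 * nm e.2 := by
    have h3 : dot e.1 e.2 ^ 2 + 1 = ((nm e.1 * nm e.2 : ℕ) : ℤ) := by
      push_cast
      rw [← h1]
      norm_num
    rw [h3, Int.toNat_natCast]
  rw [h2, hm]

theorem limh_tvf (f : ℕ → ℂ) (hm : ∀ m n, f (m * n) = f m * f n) (hf : ∀ n, ‖f n‖ ≤ 1) (b : ℝ)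
    (W : ℝ → ℝ → ℂ) (hW : TF b W) :
    Tendsto (fun X : ℝ => (∑ e ∈ EN 1 (b * X), f (nm e.1) * f (nm e.2) *
      (W (mE e / X) (tE e) - (∫ s, W (mE e / X) s) * ((ps0 (tE e) : ℝ) : ℂ))) / X) atTop (nhds 0) := by
  have h1 := tvf (fun m => f ((m ^ 2 + 1).toNat)) (fun m => hf _) b _ (limh_tf hW) (limh_tf_int hW)
  refine h1.congr (fun X => ?_)
  congr 1
  apply sum_congr rfl
  intro e he
  rw [limh_u f hm he]

theorem limh_tend {F : ℝ → ℂ} (h : ∀ ε : ℝ, 0 < ε → ∀ᶠ x in atTop, ‖F x‖ ≤ ε) :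
    Tendsto F atTop (nhds 0) := by
  rw [Metric.tendsto_nhds]
  intro ε hε
  filter_upwards [h (ε / 2) (half_pos hε)] with x hx
  rw [dist_zero_right]
  linarith

theorem limh_ev {F : ℝ → ℂ} (h : Tendsto F atTop (nhds 0)) {ε : ℝ} (hε : 0 < ε) :
    ∀ᶠ x in atTop, ‖F x‖ ≤ ε := by
  rw [Metric.tendsto_nhds] at h
  filter_upwards [h ε hε] with x hx
  rw [dist_zero_right] at hx
  exact hx.le

open Classical in
/-- sums over the edges with small weights -/
theorem limh_small (f : ℕ → ℂ) (hf : ∀ n, ‖f n‖ ≤ 1) {C : ℝ}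
    (hcnt : ∀ n : ℕ, 0 < n → ∀ x : ℝ, (n : ℝ) ≤ x →
      (((EN n x).filter (fun e => |tE e| ≤ 1)).card : ℝ) ≤ C * x) (x : ℝ) (hx : 1 ≤ x) (ε : ℝ) (hε : 0 ≤ ε)
    (w : G × G → ℂ) (hw : ∀ e ∈ EN 1 x, ‖w e‖ ≤ ε) :
    ‖∑ e ∈ EN 1 x, f (nm e.1) * f (nm e.2) * (w e * ((ps0 (tE e) : ℝ) : ℂ))‖ ≤ ε * (C * x) := by
  have h1 : ‖∑ e ∈ EN 1 x, f (nm e.1) * f (nm e.2) * (w e * ((ps0 (tE e) : ℝ) : ℂ))‖ ≤
      ∑ e ∈ EN 1 x, if |tE e| ≤ 1 then ε else 0 := by
    apply norm_sum_le_of_le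
    intro e he
    by_cases ht : |tE e| ≤ 1
    · rw [if_pos ht, norm_mul, norm_mul, norm_mul, Complex.norm_real, Real.norm_eq_abs,
        abs_of_nonneg (limh_ps0_nonneg _)]
      have h2 := hf (nm e.1)
      have h3 := hf (nm e.2)
      have h4 := hw e he
      have h5 := limh_ps0_le (tE e)
      have h6 := limh_ps0_nonneg (tE e)
      calc ‖f (nm e.1)‖ * ‖f (nm e.2)‖ * (‖w e‖ * ps0 (tE e)) ≤ 1 * 1 * (ε * 1) := by gcongr
        _ = ε := by ring
    · rw [if_neg ht, limh_ps0_zero (not_le.1 ht).le]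
      simp
  refine h1.trans ?_
  rw [← sum_filter, sum_const, nsmul_eq_mul]
  have h2 := hcnt 1 one_pos x (by simpa using hx)
  calc (((EN 1 x).filter (fun e => |tE e| ≤ 1)).card : ℝ) * ε ≤ (C * x) * ε :=
        mul_le_mul_of_nonneg_right h2 hε
    _ = ε * (C * x) := by ring

/-- PROOF. Let `C` be the constant of `cnt` for `B = 1`. Given `ε`, take `N ≥ N0(ε^2 / (C' h2))` also so large that `81 h2^2 (N+1) ≤ ε^2 N^2`, then `J ≥ J0`, `J ≥ N`, and `J` so large that `crho` holds with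
`η = ε/(C h2)`. Let `X = Y / J`, `b1 = (J + N) h2 ≤ 2 J h2`. (1) `csN` (with `x = b1 X`, `x' = ((J+N)^2 h2 + 1) X`, `X ≥ 1`): `‖SX‖^2 ≤ X^2 (81 h2^2 (N+1) + 18 h2 ε' N^2)`.
(2) `apxO`: `SX - ∑ f f WO = o(X)`. (3) `tvf` for `W y t = WO y t - c y * ps0 t`, `c y = ∫ t, WO y t` (`∫ ps0 = 1`; `c` is continuous with support in `[0, b1]`, so `W` is `TF b1`), with `u m = f (m^2 + 1)`:
for `e ∈ EN 1`, `f (nm e.1) f (nm e.2) = f (nm e.1 * nm e.2) = f (dot^2 + 1)` (`dot_sq_add_det_sq`, `Int.toNat` or `natAbs`). (4) `crho`: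
`‖∑_(EN 1 (b1 X)) f f (c (mE/X) - (N/J) h (mE/(J X))) ps0 (tE)‖ ≤ η (N/J) #{e : |tE e| ≤ 1} ≤ η (N/J) C b1 X ≤ 2 η N C h2 X`. So
`(N/J) ‖∑ f f h (mE / (J X)) ps0‖ ≤ X (sqrt (81 h2^2 (N+1) + 18 h2 ε' N^2) + 2 η N C h2 + o(1))`, and with `Y = J X`: `‖∑ ..‖ ≤ Y (sqrt (..)/N + 2 η C h2 + o(1)/N)`. The sum over
`EN 1 (b Y)` is the same as over `EN 1 (b1 X)` since `h (mE/Y) = 0` if `mE ≥ h2 Y` and `b, b1/J ≥ h2` (`mem_EN`). -/
theorem limH (f : ℕ → ℂ) (hm : ∀ m n, f (m * n) = f m * f n) (hf : ∀ n, ‖f n‖ ≤ 1) (hG : GmSmall f)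
    (h : ℝ → ℝ) (h1 h2 : ℝ) (hh : HF h h1 h2) (b : ℝ) (hb : h2 ≤ b) :
    Tendsto (fun Y : ℝ => (∑ e ∈ EN 1 (b * Y), f (nm e.1) * f (nm e.2) * ((h (mE e / Y) * ps0 (tE e) : ℝ) : ℂ)) / Y)
      atTop (nhds 0) := by
  classical
  apply limh_tend
  intro ε hε
  obtain ⟨C, hC, hcnt⟩ := cnt 1
  have h20 : (1 : ℝ) ≤ h2 := hh.one
  have h2p : (0 : ℝ) < h2 := by linarith
  set η : ℝ := ε / (6 * C * h2) with hη
  have hη0 : 0 < η := by positivity
  set ε' : ℝ := ε ^ 2 / (324 * h2) with hε'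
  have hε'0 : 0 < ε' := by positivity
  obtain ⟨N0, hN0⟩ := hG h h1 h2 hh ε' hε'0
  obtain ⟨N1, hN1⟩ := exists_nat_ge (2916 * h2 ^ 2 / ε ^ 2)
  set N : ℕ := max N0 (max N1 1) with hN
  have hNN0 : N0 ≤ N := le_max_left _ _
  have hNN1 : N1 ≤ N := (le_max_left _ _).trans (le_max_right _ _)
  have hN1' : 1 ≤ N := (le_max_right _ _).trans (le_max_right _ _)
  have hNr : (1 : ℝ) ≤ N := by exact_mod_cast hN1'
  have hNbig : 81 * h2 ^ 2 * (N + 1) ≤ ε ^ 2 / 18 * N ^ 2 := by
    have h3 : 2916 * h2 ^ 2 / ε ^ 2 ≤ N := hN1.trans (by exact_mod_cast hNN1)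
    rw [div_le_iff₀ (by positivity)] at h3
    have h4 : 81 * h2 ^ 2 * ((N : ℝ) + 1) ≤ 162 * h2 ^ 2 * N := by
      have h40 := mul_nonneg (sq_nonneg h2) (sub_nonneg.2 hNr)
      linarith only [h40]
    have h5 : 162 * h2 ^ 2 * N ≤ ε ^ 2 / 18 * N ^ 2 := by
      have h50 := mul_le_mul_of_nonneg_right h3 (Nat.cast_nonneg N : (0 : ℝ) ≤ N)
      linarith only [h50]
    exact h4.trans h5
  obtain ⟨J0, hJ0⟩ := hN0 N hNN0
  obtain ⟨J1, hJ1, hcr⟩ := crho h h1 h2 hh N hN1' η hη0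
  set J : ℕ := max J0 (max J1 N) with hJ
  have hJJ0 : J0 ≤ J := le_max_left _ _
  have hJJ1 : J1 ≤ J := (le_max_left _ _).trans (le_max_right _ _)
  have hJN : N ≤ J := (le_max_right _ _).trans (le_max_right _ _)
  have hJ1' : 1 ≤ J := hN1'.trans hJN
  have hJr : (1 : ℝ) ≤ J := by exact_mod_cast hJ1'
  have hJNr : (N : ℝ) ≤ J := by exact_mod_cast hJN
  set b1 : ℝ := ((J : ℝ) + N) * h2 with hb1
  have hb1p : 0 < b1 := by positivity
  have hb1J : b1 ≤ 2 * J * h2 := by
    rw [hb1]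
    have h30 := mul_le_mul_of_nonneg_right hJNr h2p.le
    linarith only [h30]
  have hb1h : J * h2 ≤ b1 := by
    rw [hb1]
    have h30 := mul_nonneg (Nat.cast_nonneg N : (0 : ℝ) ≤ N) h2p.le
    linarith only [h30]
  have hb11 : 1 ≤ b1 := (one_le_mul_of_one_le_of_one_le hJr h20).trans hb1h
  have ev1 := hJ0 J hJJ0
  have ev2 := limh_ev (apxO f hf h h1 h2 hh J N hJ1' hN1' b1 hb1p) (ε := ε / 6) (by positivity)
  have ev3 := limh_ev (limh_tvf f hm hf b1 _ (WO_tf h h1 h2 hh J N hJ1' hN1' b1 (le_refl _)))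
    (ε := ε / 6) (by positivity)
  have ev4 : ∀ᶠ X : ℝ in atTop, 1 ≤ X := eventually_ge_atTop 1
  have hall := ((ev1.and ev2).and (ev3.and ev4))
  have htend : Tendsto (fun Y : ℝ => Y / J) atTop atTop :=
    tendsto_id.atTop_div_const (by linarith)
  filter_upwards [htend.eventually hall] with Y hY
  obtain ⟨⟨hG1, hO⟩, ⟨hV, hX1⟩⟩ := hY
  set X : ℝ := Y / J with hX
  have hX0 : (0 : ℝ) < X := by linarith
  have hYX : Y = J * X := by
    rw [hX]
    field_simp
  have hY0 : (0 : ℝ) < Y := by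
    rw [hYX]
    positivity
  -- the sums
  set A : ℂ := ∑ e ∈ EN 1 (b * Y), f (nm e.1) * f (nm e.2) * ((h (mE e / Y) * ps0 (tE e) : ℝ) : ℂ) with hA
  have hA2 : A = ∑ e ∈ EN 1 (b1 * X), f (nm e.1) * f (nm e.2) *
      (((h (mE e / X / J) : ℝ) : ℂ) * ((ps0 (tE e) : ℝ) : ℂ)) := by
    rw [hA]
    have hz : ∀ e : G × G, h2 * Y ≤ mE e → h (mE e / Y) = 0 := by
      intro e he
      apply hh.hi
      rw [le_div_iff₀ hY0]
      exact he
    have hs1 : ∑ e ∈ EN 1 (b * Y), f (nm e.1) * f (nm e.2) * ((h (mE e / Y) * ps0 (tE e) : ℝ) : ℂ) =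
        ∑ e ∈ EN 1 (h2 * Y), f (nm e.1) * f (nm e.2) * ((h (mE e / Y) * ps0 (tE e) : ℝ) : ℂ) := by
      symm
      apply sum_subset
      · intro e he
        rw [mem_EN one_pos] at he ⊢
        exact ⟨he.1, he.2.trans (mul_le_mul_of_nonneg_right hb hY0.le)⟩
      · intro e he hne
        rw [mem_EN one_pos] at he hne
        have : h2 * Y ≤ mE e := by
          by_contra hc
          push Not at hc
          exact hne ⟨he.1, hc.le⟩
        rw [hz e this]
        simp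
    have hs2 : ∑ e ∈ EN 1 (b1 * X), f (nm e.1) * f (nm e.2) * ((h (mE e / Y) * ps0 (tE e) : ℝ) : ℂ) =
        ∑ e ∈ EN 1 (h2 * Y), f (nm e.1) * f (nm e.2) * ((h (mE e / Y) * ps0 (tE e) : ℝ) : ℂ) := by
      symm
      apply sum_subset
      · intro e he
        rw [mem_EN one_pos] at he ⊢
        refine ⟨he.1, he.2.trans ?_⟩
        rw [hYX]
        have h30 := mul_le_mul_of_nonneg_right hb1h hX0.le
        linarith only [h30]
      · intro e he hne
        rw [mem_EN one_pos] at he hne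
        have : h2 * Y ≤ mE e := by
          by_contra hc
          push Not at hc
          exact hne ⟨he.1, hc.le⟩
        rw [hz e this]
        simp
    rw [hs1, ← hs2]
    apply sum_congr rfl
    intro e _
    have h3 : mE e / Y = mE e / X / J := by
      rw [hYX, div_div]
      ring_nf
    rw [h3]
    push_cast
    ring
  set c : ℝ → ℂ := fun y => ∫ t, WO h J N y t with hc
  set S1 : ℂ := ∑ e ∈ EN 1 (b1 * X), f (nm e.1) * f (nm e.2) * WO h J N (mE e / X) (tE e) with hS1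
  set S2 : ℂ := ∑ e ∈ EN 1 (b1 * X), f (nm e.1) * f (nm e.2) *
    (c (mE e / X) * ((ps0 (tE e) : ℝ) : ℂ)) with hS2
  have hb1X : 1 ≤ b1 * X := one_le_mul_of_one_le_of_one_le hb11 hX1
  -- S2 and A
  have hd1 : ‖S2 - ((N : ℝ) / J : ℝ) * A‖ ≤ (η * (N / J)) * (C * (b1 * X)) := by
    have h3 : S2 - ((N : ℝ) / J : ℝ) * A = ∑ e ∈ EN 1 (b1 * X), f (nm e.1) * f (nm e.2) *
        ((c (mE e / X) - (((N : ℝ) / J * h (mE e / X / J) : ℝ) : ℂ)) * ((ps0 (tE e) : ℝ) : ℂ)) := by
      rw [hA2, hS2, mul_sum, ← sum_sub_distrib]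
      apply sum_congr rfl
      intro e _
      push_cast
      ring
    rw [h3]
    apply limh_small f hf hcnt (b1 * X) hb1X _ (by positivity)
    intro e _
    exact hcr J hJJ1 (mE e / X)
  have hd2 : ‖S1 - S2‖ ≤ ε / 6 * X := by
    have h3 : S1 - S2 = ∑ e ∈ EN 1 (b1 * X), f (nm e.1) * f (nm e.2) *
      (WO h J N (mE e / X) (tE e) - (∫ s, WO h J N (mE e / X) s) * ((ps0 (tE e) : ℝ) : ℂ)) := by
      rw [hS1, hS2, ← sum_sub_distrib]
      apply sum_congr rfl
      intro e _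
      simp only [hc]
      ring
    rw [← h3, norm_div, Complex.norm_real, Real.norm_eq_abs, abs_of_pos hX0, div_le_iff₀ hX0] at hV
    exact hV
  have hd3 : ‖SX f h J N (b1 * X) X - S1‖ ≤ ε / 6 * X := by
    rw [norm_div, Complex.norm_real, Real.norm_eq_abs, abs_of_pos hX0, div_le_iff₀ hX0] at hO
    exact hO
  have hSX : ‖SX f h J N (b1 * X) X‖ ≤ ε / 3 * N * X := by
    have h3 := csN f hf h hh.nn hh.le h2 hh.hi J N hJ1' hN1' X hX1 h20 (b1 * X)
      ((((J : ℝ) + N) ^ 2 * h2 + 1) * X) (le_refl _) (by linarith only [hX1])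
    have h4 : 9 * h2 * X * (9 * h2 * X * (N + 1) +
        2 * ‖∑ n ∈ Icc 1 N, Gm f h J N n ((((J : ℝ) + N) ^ 2 * h2 + 1) * X) X‖) ≤
        (ε / 3 * N * X) ^ 2 := by
      have h5 : 9 * h2 * X * (9 * h2 * X * (N + 1) +
        2 * ‖∑ n ∈ Icc 1 N, Gm f h J N n ((((J : ℝ) + N) ^ 2 * h2 + 1) * X) X‖) ≤
        9 * h2 * X * (9 * h2 * X * (N + 1) + 2 * (ε' * N ^ 2 * X)) := by
        apply mul_le_mul_of_nonneg_left _ (by positivity)
        linarith
      refine h5.trans ?_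
      have h6 : 9 * h2 * X * (9 * h2 * X * (N + 1) + 2 * (ε' * N ^ 2 * X)) =
          X ^ 2 * (81 * h2 ^ 2 * (N + 1) + 18 * h2 * ε' * N ^ 2) := by ring
      have h7 : 18 * h2 * ε' = ε ^ 2 / 18 := by
        rw [hε']
        field_simp
        norm_num
      rw [h6, h7]
      have h8 : (ε / 3 * N * X) ^ 2 = X ^ 2 * (ε ^ 2 / 18 * N ^ 2 + ε ^ 2 / 18 * N ^ 2) := by ring
      rw [h8]
      apply mul_le_mul_of_nonneg_left _ (sq_nonneg X)
      linarith
    exact le_of_sq_le_sq (h3.trans h4) (by positivity)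
  -- conclusion
  have htot : ‖((N : ℝ) / J : ℝ) * A‖ ≤ (η * (N / J)) * (C * (b1 * X)) + ε / 6 * X + ε / 6 * X +
      ε / 3 * N * X := by
    have h3 : (((N : ℝ) / J : ℝ) : ℂ) * A = -(S2 - ((N : ℝ) / J : ℝ) * A) - (S1 - S2) -
        (SX f h J N (b1 * X) X - S1) + SX f h J N (b1 * X) X := by ring
    calc ‖(((N : ℝ) / J : ℝ) : ℂ) * A‖ = ‖-(S2 - ((N : ℝ) / J : ℝ) * A) - (S1 - S2) -
        (SX f h J N (b1 * X) X - S1) + SX f h J N (b1 * X) X‖ := by rw [← h3]
      _ ≤ ‖-(S2 - ((N : ℝ) / J : ℝ) * A) - (S1 - S2) - (SX f h J N (b1 * X) X - S1)‖ +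
          ‖SX f h J N (b1 * X) X‖ := norm_add_le _ _
      _ ≤ ‖-(S2 - ((N : ℝ) / J : ℝ) * A) - (S1 - S2)‖ + ‖SX f h J N (b1 * X) X - S1‖ +
          ‖SX f h J N (b1 * X) X‖ := by gcongr; exact norm_sub_le _ _
      _ ≤ ‖-(S2 - ((N : ℝ) / J : ℝ) * A)‖ + ‖S1 - S2‖ + ‖SX f h J N (b1 * X) X - S1‖ +
          ‖SX f h J N (b1 * X) X‖ := by gcongr; exact norm_sub_le _ _
      _ ≤ _ := by
          rw [norm_neg]
          linarith
  rw [norm_mul, Complex.norm_real, Real.norm_eq_abs, abs_of_nonneg (by positivity)] at htot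
  rw [norm_div, Complex.norm_real, Real.norm_eq_abs, abs_of_pos hY0, div_le_iff₀ hY0]
  have hJ0' : (0 : ℝ) < J := by linarith
  have hN0' : (0 : ℝ) < N := by linarith
  have h3 : ‖A‖ = (J / N) * ((N : ℝ) / J * ‖A‖) := by field_simp
  have h4 : (J / N) * ((N : ℝ) / J * ‖A‖) ≤ (J / N) * ((η * (N / J)) * (C * (b1 * X)) + ε / 6 * X +
      ε / 6 * X + ε / 3 * N * X) := mul_le_mul_of_nonneg_left htot (by positivity)
  have h5 : (J / N : ℝ) * ((η * (N / J)) * (C * (b1 * X)) + ε / 6 * X + ε / 6 * X + ε / 3 * N * X) =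
      η * C * b1 * X + (ε / 3) * (J / N) * X + ε / 3 * (J * X) := by
    field_simp
    ring
  have h6 : η * C * b1 * X ≤ ε / 3 * (J * X) := by
    have h7 : η * C * b1 * X ≤ η * C * (2 * J * h2) * X := by gcongr
    have h8 : η * C * (2 * J * h2) * X = ε / 3 * (J * X) := by
      rw [hη]
      field_simp
      norm_num
    linarith
  have h7 : (ε / 3) * (J / N : ℝ) * X ≤ ε / 3 * (J * X) := by
    have h8 : (J / N : ℝ) ≤ J := div_le_self hJ0'.le hNr
    have h9 : (J / N : ℝ) * X ≤ J * X := mul_le_mul_of_nonneg_right h8 hX0.le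
    have h10 := mul_le_mul_of_nonneg_left h9 (div_nonneg hε.le (by norm_num : (0 : ℝ) ≤ 3))
    linarith only [h10]
  rw [hYX]
  linarith only [h3, h4, h5, h6, h7]

/-- nonnegative continuous functions of the scalar product -/
theorem limh_real (f : ℕ → ℂ) (hm : ∀ m n, f (m * n) = f m * f n) (hf : ∀ n, ‖f n‖ ≤ 1) (hG : GmSmall f)
    (b : ℝ) (c : ℝ → ℝ) (hc : Continuous c) (hnn : ∀ y, 0 ≤ c y) (hlo : ∀ y, y ≤ 0 → c y = 0)
    (hhi : ∀ y, b ≤ y → c y = 0) :
    Tendsto (fun X : ℝ => (∑ e ∈ EN 1 (b * X), f (nm e.1) * f (nm e.2) *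
      (((c (mE e / X) : ℝ) : ℂ) * ((ps0 (tE e) : ℝ) : ℂ))) / X) atTop (nhds 0) := by
  classical
  apply limh_tend
  intro ε hε
  obtain ⟨C, hC, hcnt⟩ := cnt 1
  set b' : ℝ := max b 1 with hb'
  have hb1 : 1 ≤ b' := le_max_right _ _
  have hbb : b ≤ b' := le_max_left _ _
  set δ : ℝ := ε / (2 * C * b') with hδ
  have hδ0 : 0 < δ := by positivity
  have hsupp : HasCompactSupport c := by
    apply HasCompactSupport.intro (isCompact_Icc (a := (0 : ℝ)) (b := b))
    intro y hy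
    rw [Set.mem_Icc, not_and_or, not_le, not_le] at hy
    rcases hy with hy | hy
    · exact hlo y hy.le
    · exact hhi y hy.le
  obtain ⟨K0, hK0⟩ := hsupp.exists_bound_of_continuous hc
  set K : ℝ := max K0 1 with hK
  have hK1 : 1 ≤ K := le_max_right _ _
  have hKp : 0 < K := by linarith
  have hKc : ∀ y, c y ≤ K := by
    intro y
    have h1 := hK0 y
    rw [Real.norm_eq_abs, abs_of_nonneg (hnn y)] at h1
    exact h1.trans (le_max_left _ _)
  obtain ⟨h1, hh1, hsmall⟩ : ∃ h1 : ℝ, 0 < h1 ∧ ∀ y, y ≤ h1 → c y ≤ δ := by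
    have h2 := Metric.continuousAt_iff.1 (hc.continuousAt (x := 0)) δ hδ0
    obtain ⟨r, hr, h3⟩ := h2
    refine ⟨r / 2, by positivity, ?_⟩
    intro y hy
    rcases le_or_gt y 0 with h0 | h0
    · rw [hlo y h0]
      exact hδ0.le
    · have h4 := h3 (x := y) (by
        rw [Real.dist_eq, sub_zero, abs_of_pos h0]
        linarith)
      rw [hlo 0 (le_refl 0), Real.dist_eq, sub_zero, abs_of_nonneg (hnn y)] at h4
      exact h4.le
  set h : ℝ → ℝ := fun y => max 0 (c y - δ) / K with hh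
  have hHF : HF h h1 b' := by
    refine ⟨?_, ?_, ?_, hh1, hb1, ?_, ?_⟩
    · exact (continuous_const.max (hc.sub continuous_const)).div_const K
    · intro y
      exact div_nonneg (le_max_left _ _) hKp.le
    · intro y
      show max 0 (c y - δ) / K ≤ 1
      rw [div_le_one hKp]
      apply max_le hKp.le
      linarith [hKc y]
    · intro y hy
      show max 0 (c y - δ) / K = 0
      rw [max_eq_left (by linarith [hsmall y hy]), zero_div]
    · intro y hy
      show max 0 (c y - δ) / K = 0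
      rw [hhi y (hbb.trans hy), max_eq_left (by linarith), zero_div]
  have hlim := limh_ev (limH f hm hf hG h h1 b' hHF b' (le_refl _)) (ε := ε / (2 * K)) (by positivity)
  filter_upwards [hlim, eventually_ge_atTop (1 : ℝ)] with X hX1 hX
  have hX0 : (0 : ℝ) < X := by linarith
  have hs : ∑ e ∈ EN 1 (b * X), f (nm e.1) * f (nm e.2) *
      (((c (mE e / X) : ℝ) : ℂ) * ((ps0 (tE e) : ℝ) : ℂ)) =
      ∑ e ∈ EN 1 (b' * X), f (nm e.1) * f (nm e.2) *
      (((c (mE e / X) : ℝ) : ℂ) * ((ps0 (tE e) : ℝ) : ℂ)) := by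
    apply sum_subset
    · intro e he
      rw [mem_EN one_pos] at he ⊢
      exact ⟨he.1, he.2.trans (mul_le_mul_of_nonneg_right hbb hX0.le)⟩
    · intro e he hne
      rw [mem_EN one_pos] at he hne
      have h2 : b * X ≤ mE e := by
        by_contra hcon
        push Not at hcon
        exact hne ⟨he.1, hcon.le⟩
      rw [hhi (mE e / X) (by rw [le_div_iff₀ hX0]; exact h2)]
      simp
  have hd : ∑ e ∈ EN 1 (b' * X), f (nm e.1) * f (nm e.2) *
      (((c (mE e / X) : ℝ) : ℂ) * ((ps0 (tE e) : ℝ) : ℂ)) =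
      K * ∑ e ∈ EN 1 (b' * X), f (nm e.1) * f (nm e.2) * ((h (mE e / X) * ps0 (tE e) : ℝ) : ℂ) +
      ∑ e ∈ EN 1 (b' * X), f (nm e.1) * f (nm e.2) *
      (((c (mE e / X) - K * h (mE e / X) : ℝ) : ℂ) * ((ps0 (tE e) : ℝ) : ℂ)) := by
    rw [mul_sum, ← sum_add_distrib]
    apply sum_congr rfl
    intro e _
    push_cast
    ring
  have hsm := limh_small f hf hcnt (b' * X) (one_le_mul_of_one_le_of_one_le hb1 hX) δ hδ0.le
    (fun e => ((c (mE e / X) - K * h (mE e / X) : ℝ) : ℂ)) (by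
      intro e _
      rw [Complex.norm_real, Real.norm_eq_abs]
      have h2 : K * h (mE e / X) = max 0 (c (mE e / X) - δ) := by
        simp only [hh]
        field_simp
      rw [h2]
      rcases le_total (c (mE e / X) - δ) 0 with h3 | h3
      · rw [max_eq_left h3, sub_zero, abs_of_nonneg (hnn _)]
        linarith
      · rw [max_eq_right h3, sub_sub_cancel, abs_of_pos hδ0])
  rw [norm_div, Complex.norm_real, Real.norm_eq_abs, abs_of_pos hX0, div_le_iff₀ hX0] at hX1 ⊢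
  rw [hs, hd]
  refine (norm_add_le _ _).trans ?_
  rw [norm_mul, Complex.norm_real, Real.norm_eq_abs, abs_of_pos hKp]
  have h2 : K * ‖∑ e ∈ EN 1 (b' * X), f (nm e.1) * f (nm e.2) *
      ((h (mE e / X) * ps0 (tE e) : ℝ) : ℂ)‖ ≤ K * (ε / (2 * K) * X) :=
    mul_le_mul_of_nonneg_left hX1 hKp.le
  have h3 : K * (ε / (2 * K) * X) = ε / 2 * X := by
    field_simp
  have h4 : δ * (C * (b' * X)) = ε / 2 * X := by
    rw [hδ]
    field_simp
  linarith

/-- all test functions. PROOF. `W y t = (W y t - c y * ps0 t) + c y * ps0 t` with `c y = ∫ t, W y t`, continuous (compact support), zero for `y ≤ 0` and `y ≥ b`; the first part is treated by `tvf` (`∫ ps0 = 1`), with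
`u m = f (m^2+1)` as in `limH`. For the second part: `c = c1 - c2 + i (c3 - c4)` with continuous `cj ≥ 0`, zero outside `(0, b)`; given `ε`, `cj' = max 0 (cj - ε)` differs from `cj` by at most `ε` and vanishes
for `y ≤ h1` (some `h1 > 0`, as `cj` is continuous and `cj 0 = 0`); `cj' = K h` with `HF h h1 (max 1 b)`; `limH` for `h` and `cnt` (`B = 1`) for the error `ε C b`. -/
theorem sm (f : ℕ → ℂ) (hm : ∀ m n, f (m * n) = f m * f n) (hf : ∀ n, ‖f n‖ ≤ 1) (hG : GmSmall f)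
    (b : ℝ) (W : ℝ → ℝ → ℂ) (hW : TF b W) :
    Tendsto (fun X : ℝ => (∑ e ∈ EN 1 (b * X), f (nm e.1) * f (nm e.2) * W (mE e / X) (tE e)) / X)
      atTop (nhds 0) := by
  set c : ℝ → ℂ := fun y => ∫ t, W y t with hc
  have hcc : Continuous c := limh_c_cont hW
  have hclo : ∀ y, y ≤ 0 → c y = 0 := fun y hy => limh_c_lo hW hy
  have hchi : ∀ y, b ≤ y → c y = 0 := fun y hy => limh_c_hi hW hy
  have hre : Continuous (fun y => (c y).re) := Complex.continuous_re.comp hcc
  have him : Continuous (fun y => (c y).im) := Complex.continuous_im.comp hcc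
  have t0 := limh_tvf f hm hf b W hW
  have t1 := limh_real f hm hf hG b (fun y => max 0 (c y).re) (continuous_const.max hre)
    (fun y => le_max_left _ _) (fun y hy => by simp [hclo y hy]) (fun y hy => by simp [hchi y hy])
  have t2 := limh_real f hm hf hG b (fun y => max 0 (-(c y).re)) (continuous_const.max hre.neg)
    (fun y => le_max_left _ _) (fun y hy => by simp [hclo y hy]) (fun y hy => by simp [hchi y hy])
  have t3 := limh_real f hm hf hG b (fun y => max 0 (c y).im) (continuous_const.max him)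
    (fun y => le_max_left _ _) (fun y hy => by simp [hclo y hy]) (fun y hy => by simp [hchi y hy])
  have t4 := limh_real f hm hf hG b (fun y => max 0 (-(c y).im)) (continuous_const.max him.neg)
    (fun y => le_max_left _ _) (fun y hy => by simp [hclo y hy]) (fun y hy => by simp [hchi y hy])
  have ht := (t0.add (t1.sub t2)).add ((t3.sub t4).const_mul Complex.I)
  rw [sub_zero, mul_zero, add_zero, add_zero] at ht
  refine ht.congr (fun X => ?_)
  rw [← sub_div, ← sub_div, ← mul_div_assoc, ← add_div, ← add_div]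
  congr 1
  rw [← sum_sub_distrib, ← sum_sub_distrib, mul_sum, ← sum_add_distrib, ← sum_add_distrib]
  apply sum_congr rfl
  intro e _
  have hpm : ∀ r : ℝ, max 0 r - max 0 (-r) = r := by
    intro r
    rcases le_total 0 r with h | h
    · rw [max_eq_right h, max_eq_left (by linarith)]
      ring
    · rw [max_eq_left h, max_eq_right (by linarith)]
      ring
  have h1 : ((max 0 (c (mE e / X)).re : ℝ) : ℂ) - ((max 0 (-(c (mE e / X)).re) : ℝ) : ℂ) +
      Complex.I * (((max 0 (c (mE e / X)).im : ℝ) : ℂ) - ((max 0 (-(c (mE e / X)).im) : ℝ) : ℂ)) =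
      c (mE e / X) := by
    rw [← Complex.ofReal_sub, ← Complex.ofReal_sub, hpm, hpm, mul_comm Complex.I]
    exact Complex.re_add_im _
  have h2 : (∫ s, W (mE e / X) s) = c (mE e / X) := rfl
  rw [h2]
  linear_combination (f (nm e.1) * f (nm e.2) * ((ps0 (tE e) : ℝ) : ℂ)) * h1

end Pool.Agent.OmEq

end

/-! ### from `Lib_MP_92ef0c_sp.TSL` -/

section

/-!
# Test functions of three variables
-/

set_option autoImplicit false

namespace Pool.Agent.Spl

open Finset Pool.Agent.GaussMR Pool.Agent.OmAll Pool.Agent.OmEq MeasureTheory Filter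

/-- PROOF. Clear (intersection and union of compact supports). -/
theorem TS.sub {b : ℝ} {W W' : ℝ → ℝ → ℝ → ℂ} (h : TS b W) (h' : TS b W') : TS b (fun y t u => W y t u - W' y t u) := by
  refine ⟨h.cont.sub h'.cont, h.supp.sub h'.supp, ?_, ?_⟩
  · intro y t u hy
    rw [h.lo y t u hy, h'.lo y t u hy, sub_self]
  · intro y t u hy
    rw [h.hi y t u hy, h'.hi y t u hy, sub_self]

/-- PROOF. Clear. -/
theorem TS.smul {b : ℝ} {W : ℝ → ℝ → ℝ → ℂ} (h : TS b W) (c : ℂ) : TS b (fun y t u => c * W y t u) := by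
  refine ⟨continuous_const.mul h.cont, h.supp.comp_left (g := fun z => c * z) (mul_zero c), ?_, ?_⟩
  · intro y t u hy
    rw [h.lo y t u hy, mul_zero]
  · intro y t u hy
    rw [h.hi y t u hy, mul_zero]

/-- a bound for the support -/
theorem TS.bdd {b : ℝ} {W : ℝ → ℝ → ℝ → ℂ} (h : TS b W) : ∃ R : ℝ, 0 < R ∧ ∀ y t u, W y t u ≠ 0 → |y| ≤ R ∧ |t| ≤ R ∧ |u| ≤ R := by
  obtain ⟨R1, hR1⟩ := h.supp.isCompact.isBounded.subset_closedBall (0 : ℝ × ℝ × ℝ)
  refine ⟨max R1 1, by positivity, fun y t u hne => ?_⟩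
  have h1 : (y, t, u) ∈ tsupport (fun v : ℝ × ℝ × ℝ => W v.1 v.2.1 v.2.2) :=
    subset_tsupport _ hne
  have h2 := hR1 h1
  rw [mem_closedBall_zero_iff, Prod.norm_def, Prod.norm_def, max_le_iff, max_le_iff] at h2
  exact ⟨h2.1.trans (le_max_left _ _), h2.2.1.trans (le_max_left _ _),
    h2.2.2.trans (le_max_left _ _)⟩

/-- a bound for the values -/
theorem TS.norm_bdd {b : ℝ} {W : ℝ → ℝ → ℝ → ℂ} (h : TS b W) : ∃ C : ℝ, 0 < C ∧ ∀ y t u, ‖W y t u‖ ≤ C := by
  obtain ⟨C, hC⟩ := h.cont.bounded_above_of_compact_support h.supp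
  exact ⟨max C 1, by positivity, fun y t u => (hC (y, t, u)).trans (le_max_left _ _)⟩

/-- parametric integrals of continuous functions with bounded support in the variable -/
private theorem tsl_param {X : Type} [TopologicalSpace X] [FirstCountableTopology X]
    [LocallyCompactSpace X] {f : X → ℝ → ℂ}
    (hf : Continuous (Function.uncurry f)) {R : ℝ} (hR : ∀ x t, f x t ≠ 0 → |t| ≤ R) :
    Continuous (fun x => ∫ t, f x t) := by
  have h2 := continuous_parametric_integral_of_continuous (μ := (volume : Measure ℝ)) hf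
    (isCompact_Icc (a := -R) (b := R))
  have h3 : (fun x => ∫ t, f x t) = fun x => ∫ t in Set.Icc (-R) R, f x t := by
    funext x
    symm
    apply setIntegral_eq_integral_of_forall_compl_eq_zero
    intro t ht
    by_contra hne
    exact ht (abs_le.1 (hR x t hne))
  rw [h3]
  exact h2

private theorem tsl_ps0_ne {t : ℝ} (h : ps0 t ≠ 0) : |t| ≤ 1 := by
  by_contra h1
  exact h (limh_ps0_zero (not_le.1 h1).le)

private theorem tsl_supp {F : ℝ × ℝ × ℝ → ℂ} {R1 R2 R3 : ℝ}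
    (h : ∀ v, F v ≠ 0 → |v.1| ≤ R1 ∧ |v.2.1| ≤ R2 ∧ |v.2.2| ≤ R3) : HasCompactSupport F := by
  apply HasCompactSupport.intro ((isCompact_Icc (a := -R1) (b := R1)).prod
    ((isCompact_Icc (a := -R2) (b := R2)).prod (isCompact_Icc (a := -R3) (b := R3))))
  intro v hv
  by_contra hne
  obtain ⟨h1, h2, h3⟩ := h v hne
  exact hv ⟨abs_le.1 h1, abs_le.1 h2, abs_le.1 h3⟩

/-- PROOF. `c y u = ∫ t', W y t' u` is continuous with compact support (the integral runs over a compact interval, `continuous_parametric_integral_of_continuous` or `intervalIntegral`); `limh_ps0_cont`, `limh_ps0_supp` (`Lib_MP_f1a94e_eq/LimH.lean`). Compare `limh_tf`. -/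
theorem ts_c1 {b : ℝ} {W : ℝ → ℝ → ℝ → ℂ} (h : TS b W) :
    TS b (fun y t u => ((ps0 t : ℝ) : ℂ) * ∫ t', W y t' u) := by
  obtain ⟨R, hR0, hR⟩ := h.bdd
  have hc : Continuous (fun p : ℝ × ℝ => ∫ t', W p.1 t' p.2) := by
    refine tsl_param (f := fun (p : ℝ × ℝ) (t' : ℝ) => W p.1 t' p.2) (R := R) ?_ ?_
    · exact h.cont.comp ((continuous_fst.comp continuous_fst).prodMk
        (continuous_snd.prodMk (continuous_snd.comp continuous_fst)))
    · intro p t' hne
      exact (hR _ _ _ hne).2.1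
  refine ⟨?_, ?_, ?_, ?_⟩
  · exact (Complex.continuous_ofReal.comp (limh_ps0_cont.comp
      (continuous_fst.comp continuous_snd))).mul
      (hc.comp (continuous_fst.prodMk (continuous_snd.comp continuous_snd)))
  · refine tsl_supp (R1 := R) (R2 := 1) (R3 := R) ?_
    intro v hv
    have h1 := left_ne_zero_of_mul hv
    have h2 := right_ne_zero_of_mul hv
    have h3 : ps0 v.2.1 ≠ 0 := fun h0 => h1 (by rw [h0, Complex.ofReal_zero])
    have h4 : ∃ t', W v.1 t' v.2.2 ≠ 0 := by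
      by_contra hcon
      push Not at hcon
      apply h2
      simp only [hcon, integral_zero]
    obtain ⟨t', ht'⟩ := h4
    exact ⟨(hR _ _ _ ht').1, tsl_ps0_ne h3, (hR _ _ _ ht').2.2⟩
  · intro y t u hy
    simp only [h.lo y _ u hy, integral_zero, mul_zero]
  · intro y t u hy
    simp only [h.hi y _ u hy, integral_zero, mul_zero]

/-- PROOF. As `ts_c1`. -/
theorem ts_c2 {b : ℝ} {W : ℝ → ℝ → ℝ → ℂ} (h : TS b W) :
    (Continuous (fun y => ∫ t, ∫ u, W y t u) ∧ (∀ y, y ≤ 0 → (∫ t, ∫ u, W y t u) = 0) ∧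
      ∀ y, b ≤ y → (∫ t, ∫ u, W y t u) = 0) ∧
    TS b (fun y t u => (∫ t', ∫ u', W y t' u') * ((ps0 t * ps0 u : ℝ) : ℂ)) := by
  obtain ⟨R, hR0, hR⟩ := h.bdd
  have hc : Continuous (fun p : ℝ × ℝ => ∫ u, W p.1 p.2 u) := by
    refine tsl_param (f := fun (p : ℝ × ℝ) (u : ℝ) => W p.1 p.2 u) (R := R) ?_ ?_
    · exact h.cont.comp ((continuous_fst.comp continuous_fst).prodMk
        ((continuous_snd.comp continuous_fst).prodMk continuous_snd))
    · intro p t' hne
      exact (hR _ _ _ hne).2.2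
  have hne1 : ∀ y t, (∫ u, W y t u) ≠ 0 → |y| ≤ R ∧ |t| ≤ R := by
    intro y t h2
    have h4 : ∃ u, W y t u ≠ 0 := by
      by_contra hcon
      push Not at hcon
      apply h2
      simp only [hcon, integral_zero]
    obtain ⟨u, hu⟩ := h4
    exact ⟨(hR _ _ _ hu).1, (hR _ _ _ hu).2.1⟩
  have hc2 : Continuous (fun y => ∫ t, ∫ u, W y t u) := by
    refine tsl_param (f := fun (y : ℝ) (t : ℝ) => ∫ u, W y t u) (R := R) hc ?_
    intro y t hne
    exact (hne1 y t hne).2
  have hne2 : ∀ y, (∫ t, ∫ u, W y t u) ≠ 0 → |y| ≤ R := by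
    intro y h2
    have h4 : ∃ t, (∫ u, W y t u) ≠ 0 := by
      by_contra hcon
      push Not at hcon
      apply h2
      simp only [hcon, integral_zero]
    obtain ⟨t, ht⟩ := h4
    exact (hne1 y t ht).1
  have hlo : ∀ y, y ≤ 0 → (∫ t, ∫ u, W y t u) = 0 := by
    intro y hy
    simp only [h.lo y _ _ hy, integral_zero]
  have hhi : ∀ y, b ≤ y → (∫ t, ∫ u, W y t u) = 0 := by
    intro y hy
    simp only [h.hi y _ _ hy, integral_zero]
  refine ⟨⟨hc2, hlo, hhi⟩, ?_, ?_, ?_, ?_⟩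
  · exact (hc2.comp continuous_fst).mul (Complex.continuous_ofReal.comp
      ((limh_ps0_cont.comp (continuous_fst.comp continuous_snd)).mul
        (limh_ps0_cont.comp (continuous_snd.comp continuous_snd))))
  · refine tsl_supp (R1 := R) (R2 := 1) (R3 := 1) ?_
    intro v hv
    have h1 := left_ne_zero_of_mul hv
    have h2 := right_ne_zero_of_mul hv
    have h3 : ps0 v.2.1 ≠ 0 := fun h0 => h2 (by rw [h0, zero_mul, Complex.ofReal_zero])
    have h4 : ps0 v.2.2 ≠ 0 := fun h0 => h2 (by rw [h0, mul_zero, Complex.ofReal_zero])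
    exact ⟨hne2 _ h1, tsl_ps0_ne h3, tsl_ps0_ne h4⟩
  · intro y t u hy
    simp only [hlo y hy, zero_mul]
  · intro y t u hy
    simp only [hhi y hy, zero_mul]

/-- PROOF. Fubini for a continuous function with compact support. -/
theorem ts_swap {b : ℝ} {W : ℝ → ℝ → ℝ → ℂ} (h : TS b W) (y : ℝ) : (∫ t, ∫ u, W y t u) = ∫ u, ∫ t, W y t u := by
  obtain ⟨R, hR0, hR⟩ := h.bdd
  have hc : Continuous (Function.uncurry (W y)) :=
    h.cont.comp (continuous_const.prodMk (continuous_fst.prodMk continuous_snd))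
  have hs : HasCompactSupport (Function.uncurry (W y)) := by
    apply HasCompactSupport.intro ((isCompact_Icc (a := -R) (b := R)).prod
      (isCompact_Icc (a := -R) (b := R)))
    rintro ⟨t, u⟩ hv
    by_contra hne
    obtain ⟨_, h2, h3⟩ := hR y t u hne
    exact hv ⟨abs_le.1 h2, abs_le.1 h3⟩
  exact integral_integral_swap_of_hasCompactSupport hc hs

/-- PROOF. Clear. -/
theorem ts_Wh {h : ℝ → ℝ} {b : ℝ} (hc : Continuous h) (h0 : ∀ y, y ≤ 0 → h y = 0) (hb : ∀ y, b ≤ y → h y = 0) :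
    TS b (Wh h) ∧ ∀ y, (∫ t, ∫ u, Wh h y t u) = ((h y : ℝ) : ℂ) := by
  refine ⟨⟨?_, ?_, ?_, ?_⟩, ?_⟩
  · unfold Wh
    exact Complex.continuous_ofReal.comp (((hc.comp continuous_fst).mul
      (limh_ps0_cont.comp (continuous_fst.comp continuous_snd))).mul
        (limh_ps0_cont.comp (continuous_snd.comp continuous_snd)))
  · refine tsl_supp (R1 := max 0 b) (R2 := 1) (R3 := 1) ?_
    intro v hv
    have hv' : h v.1 * ps0 v.2.1 * ps0 v.2.2 ≠ 0 := fun h1 => hv (by
      show ((h v.1 * ps0 v.2.1 * ps0 v.2.2 : ℝ) : ℂ) = 0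
      rw [h1, Complex.ofReal_zero])
    have h3 : ps0 v.2.2 ≠ 0 := right_ne_zero_of_mul hv'
    have h4 : ps0 v.2.1 ≠ 0 := right_ne_zero_of_mul (left_ne_zero_of_mul hv')
    have h5 : h v.1 ≠ 0 := left_ne_zero_of_mul (left_ne_zero_of_mul hv')
    refine ⟨?_, tsl_ps0_ne h4, tsl_ps0_ne h3⟩
    have h6 : 0 < v.1 := by
      by_contra hcon
      exact h5 (h0 _ (not_lt.1 hcon))
    have h7 : v.1 < b := by
      by_contra hcon
      exact h5 (hb _ (not_lt.1 hcon))
    rw [abs_of_pos h6]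
    exact h7.le.trans (le_max_right _ _)
  · intro y t u hy
    unfold Wh
    rw [h0 y hy]
    simp
  · intro y t u hy
    unfold Wh
    rw [hb y hy]
    simp
  · intro y
    unfold Wh
    have h1 : ∀ t, (∫ u, ((h y * ps0 t * ps0 u : ℝ) : ℂ)) = ((h y * ps0 t : ℝ) : ℂ) := by
      intro t
      have h2 : (fun u => ((h y * ps0 t * ps0 u : ℝ) : ℂ)) =
          fun u => ((h y * ps0 t : ℝ) : ℂ) * ((ps0 u : ℝ) : ℂ) := by
        funext u
        rw [Complex.ofReal_mul]
      rw [h2, integral_const_mul, limh_ps0_intC, mul_one]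
    simp only [h1]
    have h3 : (fun t => ((h y * ps0 t : ℝ) : ℂ)) =
        fun t => ((h y : ℝ) : ℂ) * ((ps0 t : ℝ) : ℂ) := by
      funext t
      rw [Complex.ofReal_mul]
    rw [h3, integral_const_mul, limh_ps0_intC, mul_one]

end Pool.Agent.Spl

end
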