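import Pool.Agent.Lib_MP_92ef0c_m.M25
import Pool.Agent.Lib_MP_92ef0c_m.M28
import Pool.Agent.Lib_MP_92ef0c_m.M35

/-!
# MP_92ef0c_nt, split pairs: merged library part M38

Concatenation of smaller files (each in its own section), only to save build time.
-/

/-! ### from `Lib_MP_92ef0c_sp.EqS` -/

section

/-!
# Equidistribution of matrices of determinant 1 in sectors and residue classes
-/

set_option autoImplicit false

namespace Pool.Agent.Spl

open Finset Pool.Agent.GaussMR Pool.Agent.OmAll Pool.Agent.OmEq Filter MeasureTheory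

namespace EqsAux

/-- the first row -/
def rw1 (e : Q4) : G := ⟨(e.a : ℤ), (e.b : ℤ)⟩

theorem pos_rw1 {n : ℕ} {e : Q4} (h : Sn n e) : Pos (rw1 e) := by
  refine ⟨?_, ?_⟩
  · show (0 : ℤ) < (e.a : ℤ)
    exact_mod_cast h.2.1
  · show (0 : ℤ) < (e.b : ℤ)
    exact_mod_cast h.2.2.1

theorem dl_rw1 (e : Q4) : dl (rw1 e) = pS e := by
  unfold dl pS rw1
  simp only [Int.cast_natCast]

open Classical in
/-- the leftover cones -/
theorem lft (p1 p2 w1 w2 : ℝ) : ∃ K : ℝ, 0 < K ∧ ∀ u v : G, Fr u v → ∀ x : ℝ, 1 ≤ x →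
    (((SN 1 x).filter (fun e => rw1 e ∈ cone u v ∧ (p1 ≤ pS e ∧ pS e < p2) ∧ (w1 ≤ wS e ∧ wS e < w2))).card : ℝ) ≤
      K * (x / ((ll u : ℝ) * ll v) + Real.sqrt x + 1) := by
  set r : ℝ := (1 + Real.exp p2) * Real.exp (-(p1 + w1) / 2) with hr
  have hr0 : 0 < r := by positivity
  refine ⟨(r + 1) ^ 2 * (Real.exp w2 + 1), by positivity, ?_⟩
  intro u v huv x hx
  obtain ⟨hu1, hv1⟩ := ll_pos' huv
  have hu : (1 : ℝ) ≤ ll u := by exact_mod_cast hu1
  have hv : (1 : ℝ) ≤ ll v := by exact_mod_cast hv1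
  set R : ℝ := r * Real.sqrt x with hR
  have hx0 : 0 ≤ Real.sqrt x := Real.sqrt_nonneg x
  have hR0 : 0 ≤ R := by positivity
  have hsq : Real.sqrt x ^ 2 = x := Real.sq_sqrt (by linarith)
  set E := (SN 1 x).filter (fun e => rw1 e ∈ cone u v ∧ (p1 ≤ pS e ∧ pS e < p2) ∧ (w1 ≤ wS e ∧ wS e < w2)) with hE
  set Vs : Finset G := (range (⌊R / ll u⌋₊ + 1) ×ˢ range (⌊R / ll v⌋₊ + 1)).image
    (fun w : ℕ × ℕ => (((w.1 : ℤ) : G)) * u + (((w.2 : ℤ) : G)) * v) with hVs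
  have hprop : ∀ e ∈ E, Sn 1 e ∧ yS e ≤ x ∧ rw1 e ∈ cone u v ∧ Real.exp p1 * e.a ≤ e.b ∧ (e.b : ℝ) ≤ Real.exp p2 * e.a ∧
      Real.exp w1 * e.a ≤ e.c ∧ (e.c : ℝ) ≤ Real.exp w2 * e.a := by
    intro e he
    obtain ⟨h1, h2, ⟨h3, h4⟩, h5, h6⟩ := mem_filter.1 he
    obtain ⟨h7, h8⟩ := mem_SN.1 h1
    have ha : (0 : ℝ) < e.a := by exact_mod_cast h7.2.1
    have hb : (0 : ℝ) < e.b := by exact_mod_cast h7.2.2.1
    have hc : (0 : ℝ) < e.c := by exact_mod_cast h7.2.2.2.1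
    unfold pS at h3 h4
    unfold wS at h5 h6
    have key1 : ∀ p t s : ℝ, 0 < t → 0 < s → p ≤ Real.log t - Real.log s → Real.exp p * s ≤ t := by
      intro p t s ht hs h
      rw [← Real.log_div ht.ne' hs.ne', Real.le_log_iff_exp_le (by positivity)] at h
      rwa [le_div_iff₀ hs] at h
    have key2 : ∀ p t s : ℝ, 0 < t → 0 < s → Real.log t - Real.log s < p → t ≤ Real.exp p * s := by
      intro p t s ht hs h
      rw [← Real.log_div ht.ne' hs.ne', Real.log_lt_iff_lt_exp (by positivity)] at h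
      rw [div_lt_iff₀ hs] at h
      exact h.le
    exact ⟨h7, h8, h2, key1 _ _ _ hb ha h3, key2 _ _ _ hb ha h4, key1 _ _ _ hc ha h5, key2 _ _ _ hc ha h6⟩
  have hmem : ∀ e ∈ E, rw1 e ∈ Vs := by
    intro e he
    obtain ⟨h1, h2, ⟨α, β, hV, hα, hβ⟩, h3, h4, h5, h6⟩ := hprop e he
    have ha : (0 : ℝ) < e.a := by exact_mod_cast h1.2.1
    have h7 : (e.a : ℝ) ≤ Real.exp (-(p1 + w1) / 2) * Real.sqrt x := by
      have e1 : (e.a : ℝ) ^ 2 * Real.exp (p1 + w1) ≤ x := by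
        refine le_trans ?_ h2
        unfold yS
        rw [Real.exp_add]
        have : (Real.exp p1 * e.a) * (Real.exp w1 * e.a) ≤ (e.b : ℝ) * e.c := by gcongr
        calc (e.a : ℝ) ^ 2 * (Real.exp p1 * Real.exp w1) = (Real.exp p1 * e.a) * (Real.exp w1 * e.a) := by ring
          _ ≤ _ := this
      have e2 : (e.a : ℝ) ^ 2 ≤ (Real.exp (-(p1 + w1) / 2) * Real.sqrt x) ^ 2 := by
        rw [mul_pow, hsq]
        have e3 : Real.exp (-(p1 + w1) / 2) ^ 2 * Real.exp (p1 + w1) = 1 := by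
          rw [← Real.exp_nat_mul, ← Real.exp_add]
          have : ((2 : ℕ) : ℝ) * (-(p1 + w1) / 2) + (p1 + w1) = 0 := by push_cast; ring
          rw [this, Real.exp_zero]
        calc (e.a : ℝ) ^ 2 = Real.exp (-(p1 + w1) / 2) ^ 2 * ((e.a : ℝ) ^ 2 * Real.exp (p1 + w1)) := by
              rw [mul_comm ((e.a : ℝ) ^ 2), ← mul_assoc, e3, one_mul]
          _ ≤ _ := by gcongr
      exact le_of_sq_le_sq e2 (by positivity)
    have hll : ((ll (rw1 e) : ℤ) : ℝ) ≤ R := by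
      have e1 : ((ll (rw1 e) : ℤ) : ℝ) = e.a + e.b := by
        unfold ll rw1
        push_cast
        ring
      rw [e1, hR, hr]
      calc (e.a : ℝ) + e.b ≤ (1 + Real.exp p2) * e.a := by linarith
        _ ≤ (1 + Real.exp p2) * (Real.exp (-(p1 + w1) / 2) * Real.sqrt x) := by gcongr
        _ = _ := by ring
    have hlin : ((ll (rw1 e) : ℤ) : ℝ) = α * ll u + β * ll v := by
      rw [hV]
      unfold ll
      rw [ab_re, ab_im]
      push_cast
      ring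
    have hα' : (0 : ℝ) ≤ α := by exact_mod_cast hα
    have hβ' : (0 : ℝ) ≤ β := by exact_mod_cast hβ
    rw [hlin] at hll
    obtain ⟨a, rfl⟩ := Int.eq_ofNat_of_zero_le hα
    obtain ⟨b, rfl⟩ := Int.eq_ofNat_of_zero_le hβ
    rw [hVs]
    refine Finset.mem_image.2 ⟨(a, b), ?_, hV.symm⟩
    rw [Finset.mem_product, Finset.mem_range, Finset.mem_range]
    push_cast at hll
    constructor
    · apply Nat.lt_succ_of_le
      apply Nat.le_floor
      rw [le_div_iff₀ (by linarith)]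
      have : (0 : ℝ) ≤ (b : ℝ) * ll v := by positivity
      linarith
    · apply Nat.lt_succ_of_le
      apply Nat.le_floor
      rw [le_div_iff₀ (by linarith)]
      have : (0 : ℝ) ≤ (a : ℝ) * ll u := by positivity
      linarith
  have hcard : E.card ≤ (Vs ×ˢ range (⌊Real.exp w2⌋₊ + 1)).card := by
    apply Finset.card_le_card_of_injOn (fun e : Q4 => (rw1 e, e.c / e.a))
    · intro e he
      have he' : e ∈ E := he
      obtain ⟨h1, h2, -, h3, h4, h5, h6⟩ := hprop e he'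
      have ha : (0 : ℝ) < e.a := by exact_mod_cast h1.2.1
      rw [Finset.mem_coe, Finset.mem_product]
      refine ⟨hmem e he', ?_⟩
      rw [Finset.mem_range]
      apply Nat.lt_succ_of_le
      apply Nat.le_floor
      calc ((e.c / e.a : ℕ) : ℝ) ≤ (e.c : ℝ) / e.a := Nat.cast_div_le
        _ ≤ Real.exp w2 := by
          rw [div_le_iff₀ ha]
          exact h6
    · intro e he f hf hef
      obtain ⟨h1, -⟩ := hprop e he
      obtain ⟨h2, -⟩ := hprop f hf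
      simp only [Prod.mk.injEq] at hef
      obtain ⟨h3, h4⟩ := hef
      have ha : e.a = f.a := by
        have h9 : (e.a : ℤ) = f.a := congrArg Zsqrtd.re h3
        exact_mod_cast h9
      have hb : e.b = f.b := by
        have h9 : (e.b : ℤ) = f.b := congrArg Zsqrtd.im h3
        exact_mod_cast h9
      obtain ⟨k1, k2, k3, k4, k5, k6, k7⟩ := h1
      obtain ⟨l1, l2, l3, l4, l5, l6, l7⟩ := h2
      have hmod : e.c ≡ f.c [MOD e.a] := by
        have e1 : e.b * e.c + 1 ≡ e.b * f.c + 1 [MOD e.a] := by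
          rw [← k1, hb, ← l1, ha]
          exact (Nat.modEq_zero_iff_dvd.2 (dvd_mul_right _ _)).trans (Nat.modEq_zero_iff_dvd.2 (dvd_mul_right _ _)).symm
        have e2 := Nat.ModEq.add_right_cancel' 1 e1
        exact Nat.ModEq.cancel_left_of_coprime k6 e2
      have hc : e.c = f.c := by
        rw [← Nat.div_add_mod e.c e.a, ← Nat.div_add_mod f.c e.a, hmod, h4, ha]
      have hd : e.d = f.d := by
        have e1 : e.a * e.d = e.a * f.d := by
          rw [k1, hb, hc, ha, ← l1]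
        exact Nat.eq_of_mul_eq_mul_left k2 e1
      exact Q4.ext ha hb hc hd
  have hVc : (Vs.card : ℝ) ≤ (R / ll u + 1) * (R / ll v + 1) := by
    have h1 : Vs.card ≤ (⌊R / ll u⌋₊ + 1) * (⌊R / ll v⌋₊ + 1) := by
      refine Finset.card_image_le.trans ?_
      rw [Finset.card_product, Finset.card_range, Finset.card_range]
    calc (Vs.card : ℝ) ≤ (((⌊R / ll u⌋₊ + 1) * (⌊R / ll v⌋₊ + 1) : ℕ) : ℝ) := by exact_mod_cast h1
      _ = ((⌊R / ll u⌋₊ : ℝ) + 1) * ((⌊R / ll v⌋₊ : ℝ) + 1) := by push_cast; ring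
      _ ≤ _ := by
        gcongr
        · exact Nat.floor_le (by positivity)
        · exact Nat.floor_le (by positivity)
  have hmul : (R / ll u + 1) * (R / ll v + 1) ≤ (r + 1) ^ 2 * (x / ((ll u : ℝ) * ll v) + Real.sqrt x + 1) := by
    have e1 : (R / ll u + 1) * (R / ll v + 1) = r ^ 2 * (x / ((ll u : ℝ) * ll v)) + (R / ll u + R / ll v) + 1 := by
      have : R ^ 2 = r ^ 2 * x := by rw [hR, mul_pow, hsq]
      have h2 : r ^ 2 * (x / ((ll u : ℝ) * ll v)) = R ^ 2 / ((ll u : ℝ) * ll v) := by rw [this]; ring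
      rw [h2]
      field_simp
      ring
    have e2 : R / ll u ≤ R := div_le_self hR0 hu
    have e3 : R / ll v ≤ R := div_le_self hR0 hv
    rw [e1]
    have e4 : 0 ≤ x / ((ll u : ℝ) * ll v) := by positivity
    have e5 : r ^ 2 ≤ (r + 1) ^ 2 := by nlinarith
    have e6 : 2 * r ≤ (r + 1) ^ 2 := by nlinarith
    have e7 : 1 ≤ (r + 1) ^ 2 := by nlinarith
    have e8 : r ^ 2 * (x / ((ll u : ℝ) * ll v)) ≤ (r + 1) ^ 2 * (x / ((ll u : ℝ) * ll v)) := by gcongr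
    have e9 : 2 * R ≤ (r + 1) ^ 2 * Real.sqrt x := by
      rw [hR]
      calc 2 * (r * Real.sqrt x) = (2 * r) * Real.sqrt x := by ring
        _ ≤ _ := by gcongr
    nlinarith
  calc (E.card : ℝ) ≤ ((Vs ×ˢ range (⌊Real.exp w2⌋₊ + 1)).card : ℝ) := by exact_mod_cast hcard
    _ = (Vs.card : ℝ) * ((⌊Real.exp w2⌋₊ : ℝ) + 1) := by
        rw [Finset.card_product, Finset.card_range]
        push_cast
        ring
    _ ≤ ((r + 1) ^ 2 * (x / ((ll u : ℝ) * ll v) + Real.sqrt x + 1)) * (Real.exp w2 + 1) := by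
        have h1 := hVc.trans hmul
        have h2 : (⌊Real.exp w2⌋₊ : ℝ) ≤ Real.exp w2 := Nat.floor_le (Real.exp_pos _).le
        gcongr
    _ = _ := by ring

theorem eqs_fr_one : Fr (1 : G) ⟨0, 1⟩ := by
  unfold Fr det
  simp

theorem eqs_cone {V : G} (hV : Pos V) : V ∈ cone (1 : G) ⟨0, 1⟩ := by
  refine ⟨V.re, V.im, ?_, hV.1.le, hV.2.le⟩
  apply Zsqrtd.ext <;> simp

theorem eqs_sqrt (e : ℝ) (he : 0 < e) : ∀ᶠ x : ℝ in atTop, Real.sqrt x + 1 ≤ e * x := by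
  filter_upwards [eventually_ge_atTop (max 1 (4 / e ^ 2))] with x hx
  have h1 : 1 ≤ x := le_trans (le_max_left _ _) hx
  have h2 : 4 / e ^ 2 ≤ x := le_trans (le_max_right _ _) hx
  have h3 : 1 ≤ Real.sqrt x := by
    rw [Real.one_le_sqrt]
    exact h1
  have h4 : Real.sqrt x * Real.sqrt x = x := Real.mul_self_sqrt (by linarith)
  have h5 : 2 / e ≤ Real.sqrt x := by
    apply Real.le_sqrt_of_sq_le
    rw [div_pow]
    norm_num
    exact h2
  have h6 : 2 ≤ e * Real.sqrt x := by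
    rw [div_le_iff₀ he] at h5
    linarith
  calc Real.sqrt x + 1 ≤ 2 * Real.sqrt x := by linarith
    _ ≤ (e * Real.sqrt x) * Real.sqrt x := mul_le_mul_of_nonneg_right h6 (by linarith)
    _ = e * x := by rw [mul_assoc, h4]

private theorem n_eta {k P ε : ℝ} (hk0 : 0 ≤ k) (hP0 : 0 ≤ P) (hε : 0 < ε) :
    ∃ η : ℝ, 0 < η ∧ η ≤ 1 ∧ k * η * (P + 4) ≤ ε / 8 := by
  refine ⟨min 1 (ε / (8 * (k * (P + 4) + 1))), by positivity, min_le_left _ _, ?_⟩
  have h0 : 0 ≤ k * (P + 4) := by positivity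
  calc k * min 1 (ε / (8 * (k * (P + 4) + 1))) * (P + 4) = (k * (P + 4)) * min 1 (ε / (8 * (k * (P + 4) + 1))) := by ring
    _ ≤ (k * (P + 4)) * (ε / (8 * (k * (P + 4) + 1))) := by gcongr; exact min_le_right _ _
    _ ≤ ε / 8 := by
      rw [← mul_div_assoc, div_le_iff₀ (by positivity)]
      nlinarith

private theorem n_delta {K k C ε : ℝ} (hK : 0 < K) (hk0 : 0 ≤ k) (hC0 : 0 < C) (hε : 0 < ε) :
    ∃ δ : ℝ, 0 < δ ∧ K * δ ≤ ε / 8 ∧ k * (C * δ) ≤ ε / 8 := by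
  have h0 : 0 ≤ k * C := by positivity
  refine ⟨ε / (8 * (K + k * C)), by positivity, ?_, ?_⟩
  · rw [← mul_div_assoc, div_le_iff₀ (by positivity)]
    nlinarith
  · rw [← mul_div_assoc, ← mul_div_assoc, div_le_iff₀ (by positivity)]
    nlinarith

private theorem n_four {y η : ℝ} (h0 : 0 ≤ y) (h1 : y ≤ η / 32) (hη : η ≤ 1) : (1 + y) ^ 4 ≤ 1 + η := by
  have h2 : y ≤ 1 / 32 := by linarith
  have h3 : y ^ 2 ≤ y := by nlinarith
  have h4 : (1 + y) ^ 4 = (1 + (2 * y + y ^ 2)) ^ 2 := by ring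
  have h5 : 2 * y + y ^ 2 ≤ 3 * y := by linarith
  have h6 : 0 ≤ 2 * y + y ^ 2 := by positivity
  rw [h4]
  calc (1 + (2 * y + y ^ 2)) ^ 2 ≤ (1 + 3 * y) ^ 2 := by gcongr
    _ = 1 + 6 * y + 9 * y ^ 2 := by ring
    _ ≤ 1 + η := by linarith

private theorem n_card {B A ε : ℝ} (h : B ≤ A) (hA : 0 ≤ A) (hε : 0 < ε) : B * (ε / (8 * (A + 1))) ≤ ε / 8 := by
  rw [← mul_div_assoc, div_le_iff₀ (by positivity)]
  nlinarith

private theorem n_cardK {K L ε : ℝ} (hK : 0 < K) (hL : 0 ≤ L) (hε : 0 < ε) : K * L * (ε / (8 * K * (L + 1))) ≤ ε / 8 := by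
  rw [← mul_div_assoc, div_le_iff₀ (by positivity)]
  have : 0 ≤ K * ε := by positivity
  nlinarith

private theorem n_lo {P η Λ D : ℝ} (hη0 : 0 ≤ η) (hη1 : η ≤ 1) (h4 : P - 2 * η - D ≤ Λ) (h6 : Λ ≤ P + 2 * η) :
    P - (P + 4) * η - D ≤ Λ * (1 - η) := by
  have h7 : η * Λ ≤ η * (P + 2 * η) := mul_le_mul_of_nonneg_left h6 hη0
  nlinarith

private theorem n_up {P η : ℝ} (hη0 : 0 ≤ η) (hη1 : η ≤ 1) : (1 + η) * (P + 2 * η) ≤ P + η * (P + 4) := by
  nlinarith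

private theorem n_div {l q η : ℝ} (hl : 0 ≤ l) (hq : 0 < q) (hη0 : 0 ≤ η) (hη1 : η ≤ 1) (h : q ≤ 1 + η) : l * (1 - η) ≤ l / q := by
  rw [le_div_iff₀ hq]
  have h6 : (1 - η) * q ≤ 1 := by nlinarith
  calc l * (1 - η) * q = l * ((1 - η) * q) := by ring
    _ ≤ l * 1 := by gcongr
    _ = l := mul_one _

open Classical in
/-- two-sided bound -/
theorem eqs_two (hS : ArcSS) (M : ℕ) (hM : 0 < M) (c : ℝ) (hc : CopC M c) (γ : Q4) (hγ : γ.a * γ.d ≡ γ.b * γ.c + 1 [MOD M])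
    (p1 p2 w1 w2 : ℝ) (hp : p1 ≤ p2) (hw : w1 ≤ w2) (ε : ℝ) (hε : 0 < ε) :
    ∀ᶠ x : ℝ in atTop,
      (2 * c / M * (w2 - w1)) * (p2 - p1) * x - ε * x ≤
        (((SN 1 x).filter (fun e => cq M e γ ∧ (p1 ≤ pS e ∧ pS e < p2) ∧ (w1 ≤ wS e ∧ wS e < w2))).card : ℝ) ∧
      (((SN 1 x).filter (fun e => cq M e γ ∧ (p1 ≤ pS e ∧ pS e < p2) ∧ (w1 ≤ wS e ∧ wS e < w2))).card : ℝ) ≤
        (2 * c / M * (w2 - w1)) * (p2 - p1) * x + ε * x := by
  have hc0 := copC_nonneg M c hc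
  have hM' : (0 : ℝ) < M := by exact_mod_cast hM
  obtain ⟨K, hK, hlft⟩ := lft p1 p2 w1 w2
  set k : ℝ := 2 * c / M * (w2 - w1) with hk
  have hk0 : 0 ≤ k := mul_nonneg (by positivity) (by linarith)
  set P : ℝ := p2 - p1 with hP
  have hP0 : 0 ≤ P := by linarith
  set C : ℝ := (1 + Real.exp p2) ^ 2 * Real.exp (-p1) with hC
  have hC0 : 0 < C := by positivity
  -- parameters
  obtain ⟨η, hη0, hη1, hηD⟩ := n_eta hk0 hP0 hε
  obtain ⟨δ, hδ0, hδ1, hδ2⟩ := n_delta hK hk0 hC0 hε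
  set S0 : ℕ := ⌈32 * (M : ℝ) / η⌉₊ + 2 with hS0
  have hS2 : 2 ≤ S0 := by omega
  have hSη : 32 * (M : ℝ) / η ≤ S0 := by
    refine (Nat.le_ceil _).trans ?_
    have : ⌈32 * (M : ℝ) / η⌉₊ ≤ S0 := by omega
    exact_mod_cast this
  have hS0' : (0 : ℝ) < S0 := by exact_mod_cast (by omega : 0 < S0)
  have hy1 : ∀ S : ℕ, S0 ≤ S → (M : ℝ) / S ≤ η / 32 := by
    intro S hS
    have hSS : (S0 : ℝ) ≤ S := by exact_mod_cast hS
    have hS' : (0 : ℝ) < S := lt_of_lt_of_le hS0' hSS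
    rw [div_le_div_iff₀ hS' (by norm_num)]
    rw [div_le_iff₀ hη0] at hSη
    have := mul_le_mul_of_nonneg_right hSS hη0.le
    linarith
  have hy : ∀ S : ℕ, S0 ≤ S → (1 + (M : ℝ) / S) ^ 4 ≤ 1 + η := by
    intro S hS
    exact n_four (by positivity) (hy1 S hS) hη1
  obtain ⟨A, L, hA, hAd, hL, hcov, hsum⟩ := cover M S0 hM hS2 δ hδ0 1 ⟨0, 1⟩ eqs_fr_one
  have hA2 : ∀ a ∈ A, Fr a.1 a.2.1 ∧ 2 ≤ a.2.2 := fun a ha => ⟨(hA a ha).1, hS2.trans (hA a ha).2.1⟩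
  have hlam : ∀ a ∈ A, lam M a ≤ η / 32 := by
    intro a ha
    obtain ⟨u, v, S⟩ := a
    exact (lam_le (hA2 _ ha).1 (hA2 _ ha).2).trans (hy1 S (hA _ ha).2.1)
  have hcovP : ∀ V : G, Pos V → (∃ a ∈ A, V ∈ arc a.1 a.2.1 a.2.2 M) ∨ ∃ l ∈ L, V ∈ cone l.1 l.2 :=
    fun V hV => hcov V (eqs_cone hV)
  set Ap := A.filter (fun a => (Ia M a ∩ Set.Icc p1 p2).Nonempty) with hAp
  set Am := A.filter (fun a => Ia M a ⊆ Set.Ico p1 p2) with hAm
  have hup : ∑ a ∈ Ap, lam M a ≤ P + 2 * η :=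
    sum_upper A hA2 hAd hη0.le (fun a ha => (hlam a ha).trans (by linarith)) hp
  have hlo : P - 2 * η ≤ ∑ a ∈ Am, lam M a + C * ∑ l ∈ L, (1 / ((ll l.1 : ℝ) * ll l.2)) :=
    sum_lower A L hA2 hL hcovP hη0 (fun a ha => lt_of_le_of_lt (hlam a ha) (by linarith))
  have hsub : Am ⊆ Ap := by
    intro a ha
    obtain ⟨h1, h2⟩ := mem_filter.1 ha
    refine mem_filter.2 ⟨h1, ?_⟩
    have h3 : dl (((a.2.2 : ℤ) : G) * a.1 + a.2.1) ∈ Ia M a := Set.left_mem_uIcc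
    have h4 := h2 h3
    exact ⟨_, h3, h4.1, h4.2.le⟩
  have hAmAp : ∑ a ∈ Am, lam M a ≤ P + 2 * η :=
    (Finset.sum_le_sum_of_subset_of_nonneg hsub (fun a _ _ => lam_nonneg M a)).trans hup
  -- counting functions
  set Fa : G × G × ℕ → ℝ → ℝ := fun a x =>
    (((SN 1 x).filter (fun e => cq M e γ ∧ (⟨(e.a : ℤ), (e.b : ℤ)⟩ : G) ∈ arc a.1 a.2.1 a.2.2 M ∧ w1 ≤ wS e ∧ wS e < w2)).card : ℝ) with hFa
  set Fl : G × G → ℝ → ℝ := fun l x =>
    (((SN 1 x).filter (fun e => rw1 e ∈ cone l.1 l.2 ∧ (p1 ≤ pS e ∧ pS e < p2) ∧ (w1 ≤ wS e ∧ wS e < w2))).card : ℝ) with hFl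
  set F : ℝ → ℝ := fun x =>
    (((SN 1 x).filter (fun e => cq M e γ ∧ (p1 ≤ pS e ∧ pS e < p2) ∧ (w1 ≤ wS e ∧ wS e < w2))).card : ℝ) with hF
  have hUpper : ∀ x, F x ≤ ∑ a ∈ Ap, Fa a x + ∑ l ∈ L, Fl l x := by
    intro x
    have h1 : (SN 1 x).filter (fun e => cq M e γ ∧ (p1 ≤ pS e ∧ pS e < p2) ∧ (w1 ≤ wS e ∧ wS e < w2)) ⊆
        (Ap.biUnion (fun a => (SN 1 x).filter (fun e => cq M e γ ∧ (⟨(e.a : ℤ), (e.b : ℤ)⟩ : G) ∈ arc a.1 a.2.1 a.2.2 M ∧ w1 ≤ wS e ∧ wS e < w2))) ∪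
        (L.biUnion (fun l => (SN 1 x).filter (fun e => rw1 e ∈ cone l.1 l.2 ∧ (p1 ≤ pS e ∧ pS e < p2) ∧ (w1 ≤ wS e ∧ wS e < w2)))) := by
      intro e he
      obtain ⟨h2, h3, h4, h5⟩ := mem_filter.1 he
      have hpos := pos_rw1 (mem_SN.1 h2).1
      rw [mem_union, mem_biUnion, mem_biUnion]
      rcases hcovP _ hpos with ⟨a, ha, h6⟩ | ⟨l, hl, h6⟩
      · left
        refine ⟨a, mem_filter.2 ⟨ha, dl (rw1 e), arc_dl (hA2 a ha).1 (hA2 a ha).2 hpos h6, ?_⟩, ?_⟩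
        · rw [dl_rw1]
          exact ⟨h4.1, h4.2.le⟩
        · exact mem_filter.2 ⟨h2, h3, h6, h5⟩
      · right
        exact ⟨l, hl, mem_filter.2 ⟨h2, h6, h4, h5⟩⟩
    have h2 := (card_le_card h1).trans ((card_union_le _ _).trans (add_le_add card_biUnion_le card_biUnion_le))
    simp only [hF, hFa, hFl]
    exact_mod_cast h2
  have hLower : ∀ x, ∑ a ∈ Am, Fa a x ≤ F x := by
    intro x
    have h1 : Am.biUnion (fun a => (SN 1 x).filter (fun e => cq M e γ ∧ (⟨(e.a : ℤ), (e.b : ℤ)⟩ : G) ∈ arc a.1 a.2.1 a.2.2 M ∧ w1 ≤ wS e ∧ wS e < w2)) ⊆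
        (SN 1 x).filter (fun e => cq M e γ ∧ (p1 ≤ pS e ∧ pS e < p2) ∧ (w1 ≤ wS e ∧ wS e < w2)) := by
      intro e he
      obtain ⟨a, ha, he⟩ := mem_biUnion.1 he
      obtain ⟨h2, h3, h4, h5⟩ := mem_filter.1 he
      obtain ⟨h6, h7⟩ := mem_filter.1 ha
      have hpos := pos_rw1 (mem_SN.1 h2).1
      have h8 := h7 (arc_dl (hA2 a h6).1 (hA2 a h6).2 hpos h4)
      rw [dl_rw1] at h8
      exact mem_filter.2 ⟨h2, h3, h8, h5⟩
    have h2 := card_le_card h1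
    rw [card_biUnion] at h2
    · simp only [hF, hFa]
      exact_mod_cast h2
    · intro a ha a' ha' hne
      show Disjoint _ _
      rw [Finset.disjoint_left]
      intro e he he'
      exact Set.disjoint_left.1 (hAd a (mem_filter.1 ha).1 a' (mem_filter.1 ha').1 hne)
        (mem_filter.1 he).2.2.1 (mem_filter.1 he').2.2.1
  -- asymptotics in the arcs
  set e1 : ℝ := ε / (8 * (A.card + 1)) with he1
  have he1' : 0 < e1 := by positivity
  have hev : ∀ᶠ x : ℝ in atTop, ∀ a ∈ A,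
      k * lam M a / (1 + (M : ℝ) / a.2.2) ^ 4 * x - e1 * x ≤ Fa a x ∧
      Fa a x ≤ k * lam M a * (1 + (M : ℝ) / a.2.2) ^ 4 * x + e1 * x := by
    rw [eventually_all_finset]
    intro a ha
    obtain ⟨x0, hx0⟩ := hS M hM c hc γ hγ a.1 a.2.1 (hA2 a ha).1 a.2.2 (hA2 a ha).2 w1 w2 hw e1 he1'
    filter_upwards [eventually_ge_atTop x0] with x hx
    exact hx0 x hx
  set e2 : ℝ := ε / (8 * K * (L.card + 1)) with he2
  have he2' : 0 < e2 := by positivity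
  filter_upwards [hev, eqs_sqrt e2 he2', eventually_ge_atTop 1] with x hx hsq hx1
  have hx0 : 0 < x := by linarith
  have hAc : (0 : ℝ) < (A.card : ℝ) + 1 := by positivity
  have hbnd : ∀ B : Finset (G × G × ℕ), B ⊆ A → (B.card : ℝ) * e1 ≤ ε / 8 := by
    intro B hB
    have h1 : (B.card : ℝ) ≤ A.card := by exact_mod_cast card_le_card hB
    exact n_card h1 (by positivity) hε
  have hkx : 0 ≤ k * x := by positivity
  constructor
  · refine le_trans ?_ (hLower x)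
    have h1 : ∑ a ∈ Am, (k * x * (lam M a * (1 - η)) - e1 * x) ≤ ∑ a ∈ Am, Fa a x := by
      refine sum_le_sum fun a ha => ?_
      have haA := (mem_filter.1 ha).1
      refine le_trans ?_ (hx a haA).1
      have h2 := hy a.2.2 (hA a haA).2.1
      have h3 : 0 < (1 + (M : ℝ) / a.2.2) ^ 4 := by positivity
      have h4 : lam M a * (1 - η) ≤ lam M a / (1 + (M : ℝ) / a.2.2) ^ 4 :=
        n_div (lam_nonneg M a) h3 hη0.le hη1 h2
      have h8 : k * x * (lam M a * (1 - η)) ≤ k * x * (lam M a / (1 + (M : ℝ) / a.2.2) ^ 4) := by gcongr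
      have h9 : k * x * (lam M a / (1 + (M : ℝ) / a.2.2) ^ 4) = k * lam M a / (1 + (M : ℝ) / a.2.2) ^ 4 * x := by ring
      linarith
    refine le_trans ?_ h1
    rw [sum_sub_distrib, ← mul_sum, ← sum_mul, sum_const, nsmul_eq_mul]
    have h2 := hbnd Am (filter_subset _ _)
    have h3 : (Am.card : ℝ) * (e1 * x) ≤ ε / 8 * x := by
      rw [← mul_assoc]
      gcongr
    have h4 : P - 2 * η - C * δ ≤ ∑ a ∈ Am, lam M a := by
      have h5 := mul_le_mul_of_nonneg_left hsum hC0.le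
      linarith
    set Λ := ∑ a ∈ Am, lam M a with hΛ
    have h5 : P - (P + 4) * η - C * δ ≤ Λ * (1 - η) := n_lo hη0.le hη1 h4 hAmAp
    have h6 := mul_le_mul_of_nonneg_left h5 hkx
    have h7 : k * η * (P + 4) * x ≤ ε / 8 * x := by gcongr
    have h8 : k * (C * δ) * x ≤ ε / 8 * x := by gcongr
    have h9 : k * x * (P - (P + 4) * η - C * δ) = k * P * x - k * η * (P + 4) * x - k * (C * δ) * x := by ring
    have h10 : 0 ≤ ε * x := by positivity
    linarith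
  · refine (hUpper x).trans ?_
    have h1 : ∑ a ∈ Ap, Fa a x ≤ ∑ a ∈ Ap, (k * x * (1 + η) * lam M a + e1 * x) := by
      refine sum_le_sum fun a ha => ?_
      have haA := (mem_filter.1 ha).1
      refine (hx a haA).2.trans ?_
      have h2 := hy a.2.2 (hA a haA).2.1
      have h5 := lam_nonneg M a
      have h6 : k * x * lam M a * (1 + (M : ℝ) / a.2.2) ^ 4 ≤ k * x * lam M a * (1 + η) := by gcongr
      linarith
    have h2 : ∑ l ∈ L, Fl l x ≤ ∑ l ∈ L, K * (x * (1 / ((ll l.1 : ℝ) * ll l.2)) + (Real.sqrt x + 1)) := by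
      refine sum_le_sum fun l hl => (hlft l.1 l.2 (hL l hl) x hx1).trans (le_of_eq ?_)
      ring
    refine (add_le_add h1 h2).trans ?_
    rw [sum_add_distrib, ← mul_sum, sum_const, nsmul_eq_mul, ← mul_sum, sum_add_distrib, ← mul_sum, sum_const, nsmul_eq_mul]
    have h3 := hbnd Ap (filter_subset _ _)
    have h4 : (Ap.card : ℝ) * (e1 * x) ≤ ε / 8 * x := by
      rw [← mul_assoc]
      gcongr
    have h5 : k * x * (1 + η) * ∑ a ∈ Ap, lam M a ≤ k * x * (1 + η) * (P + 2 * η) := by gcongr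
    have h6 : k * η * (P + 4) * x ≤ ε / 8 * x := by gcongr
    have h7 : k * x * (1 + η) * (P + 2 * η) ≤ k * P * x + k * η * (P + 4) * x := by
      have h8 : (1 + η) * (P + 2 * η) ≤ P + η * (P + 4) := n_up hη0.le hη1
      have h9 := mul_le_mul_of_nonneg_left h8 hkx
      linarith
    have h8 : K * (x * ∑ l ∈ L, (1 / ((ll l.1 : ℝ) * ll l.2))) ≤ ε / 8 * x := by
      calc K * (x * ∑ l ∈ L, (1 / ((ll l.1 : ℝ) * ll l.2))) ≤ K * (x * δ) := by gcongr
        _ = (K * δ) * x := by ring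
        _ ≤ ε / 8 * x := by gcongr
    have h9 : K * ((L.card : ℝ) * (Real.sqrt x + 1)) ≤ ε / 8 * x := by
      calc K * ((L.card : ℝ) * (Real.sqrt x + 1)) ≤ K * ((L.card : ℝ) * (e2 * x)) := by gcongr
        _ = (K * L.card * e2) * x := by ring
        _ ≤ ε / 8 * x := by
          exact mul_le_mul_of_nonneg_right (n_cardK hK (by positivity) hε) hx0.le
    rw [mul_add]
    have : 0 ≤ ε * x := by positivity
    linarith

end EqsAux

open EqsAux

open Classical in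
/-- PROOF. Let `c` be from `cop_asymp M`, `c ≥ 0` (`copC_nonneg`), `κ = 2 c / M`. Fix `γ, p1 ≤ p2, w1 ≤ w2`, `η > 0`. Choose `S0 ≥ 2` with `(1 + M/S0)^4 ≤ 1 + η` and `M / S0 ≤ η`. For an arc `(u, v, S)`, `S ≥ S0`, in the quadrant with `z0 = S u + v`, `z1 = (S+M) u + v`
its interval is `[dl z0, dl z1]` (or reversed) of length `λ ≤ M/(re z0 im z0) ≤ M/S ≤ η` (`re z0 im z0 ≥ S`: both coordinates are `≥ 1`, one is `≥ S`); for `V` in the arc `dl V` is in the interval.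
`cover M S0 δ` for the frame `(1, i)` gives disjoint arcs `A` and a leftover `L`. Every `V = ⟨a, b⟩` with `a, b > 0` is in `cone 1 i`.
UPPER: the matrices with `p1 ≤ pS < p2` have `V` in an arc whose interval meets `[p1, p2]` or in a leftover cone. The intervals of the arcs meeting `[p1, p2]` lie in `[p1 - η, p2 + η]` and do not overlap (a common interior point would give a common open interval, a rational direction in both, contradicting disjointness), so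
`∑ λ ≤ p2 - p1 + 2 η`; `arcS` gives at most `κ (w2 - w1)(1 + η)(p2 - p1 + 2 η) x + ε x`. Leftover: `left` with `s = 2 w1 - 2`, `t = 2 w2 + 2` and the bound `dot ≤ C x` (for `p1 ≤ pS < p2`, `b c ≤ x`: `dot = a c + b d ≤ C(p1, p2) b c + ..`; all but finitely many matrices satisfy the conditions on `nm V'/nm V`, compare the proof of
`arcS`): at most `C' x ∑_L 1/(ll u ll v) + o(x) ≤ C' δ x + o(x)`.
LOWER: the arcs whose interval is contained in `[p1, p2)`: `arcS` from below; needed: `∑ λ ≥ p2 - p1 - 2 η - C'' δ`. The closed intervals of all arcs and of the leftover cones cover `[p1, p2]` (they cover all rational directions, and finitely many closed sets). In the coordinate `τ = im / (re + im) ∈ [0, 1]` a frame `(u, v)` has length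
exactly `1/(ll u ll v)` (`|det u v| = 1`), and `dl = log (τ/(1-τ))` has derivative `1/(τ (1-τ)) ≤ C''` on the part between `p1` and `p2`. So the leftover cones cover at most `C'' δ` of `[p1, p2]`, the arcs meeting `[p1, p2]` but not contained in it at most `2 η` (measure subadditivity, `Real.volume_Icc`).
Let first `x → ∞`, then `δ, ε, η → 0`. -/
theorem eqS' (hS : ArcSS) (M : ℕ) (hM : 0 < M) : ∃ κ : ℝ, 0 ≤ κ ∧ ∀ γ : Q4, γ.a * γ.d ≡ γ.b * γ.c + 1 [MOD M] →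
    ∀ p1 p2 w1 w2 : ℝ, p1 ≤ p2 → w1 ≤ w2 →
    Tendsto (fun x : ℝ => (((SN 1 x).filter (fun e => cq M e γ ∧ (p1 ≤ pS e ∧ pS e < p2) ∧
      (w1 ≤ wS e ∧ wS e < w2))).card : ℝ) / x) atTop (nhds (κ * (p2 - p1) * (w2 - w1))) := by
  obtain ⟨c, hc⟩ := cop_asymp M hM
  have hc0 := copC_nonneg M c hc
  refine ⟨2 * c / M, by positivity, ?_⟩
  intro γ hγ p1 p2 w1 w2 hp hw
  rw [Metric.tendsto_atTop]
  intro ε hε
  obtain ⟨x1, hx1⟩ := eventually_atTop.mp
    ((eqs_two hS M hM c hc γ hγ p1 p2 w1 w2 hp hw (ε / 2) (by positivity)).and (eventually_gt_atTop 0))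
  refine ⟨x1, fun x hx => ?_⟩
  obtain ⟨⟨h1, h2⟩, h3⟩ := hx1 x hx
  rw [Real.dist_eq, abs_lt]
  constructor
  · have h4 : (2 * c / M * (w2 - w1)) * (p2 - p1) - ε / 2 ≤
        (((SN 1 x).filter (fun e => cq M e γ ∧ (p1 ≤ pS e ∧ pS e < p2) ∧ (w1 ≤ wS e ∧ wS e < w2))).card : ℝ) / x := by
      rw [le_div_iff₀ h3]
      linarith
    linarith
  · have h4 : (((SN 1 x).filter (fun e => cq M e γ ∧ (p1 ≤ pS e ∧ pS e < p2) ∧ (w1 ≤ wS e ∧ wS e < w2))).card : ℝ) / x ≤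
        (2 * c / M * (w2 - w1)) * (p2 - p1) + ε / 2 := by
      rw [div_le_iff₀ h3]
      linarith
    linarith

end Pool.Agent.Spl

end

/-! ### from `Lib_MP_92ef0c_sp.EqF` -/

section

/-!
# Equidistribution in sectors, final form
-/

set_option autoImplicit false

namespace Pool.Agent.Spl

open Finset Pool.Agent.GaussMR Pool.Agent.OmAll Pool.Agent.OmEq Filter MeasureTheory

open Classical in
theorem eqS (M : ℕ) (hM : 0 < M) : ∃ κ : ℝ, 0 ≤ κ ∧ ∀ γ : Q4, γ.a * γ.d ≡ γ.b * γ.c + 1 [MOD M] →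
    ∀ p1 p2 w1 w2 : ℝ, p1 ≤ p2 → w1 ≤ w2 →
    Tendsto (fun x : ℝ => (((SN 1 x).filter (fun e => cq M e γ ∧ (p1 ≤ pS e ∧ pS e < p2) ∧
      (w1 ≤ wS e ∧ wS e < w2))).card : ℝ) / x) atTop (nhds (κ * (p2 - p1) * (w2 - w1))) :=
  eqS' (arcS' EqArc.upper_set EqArc.lower_set) M hM

open Classical in
theorem eqK (M : ℕ) (hM : 0 < M) : ∃ κ : ℝ, 0 ≤ κ ∧
    (∀ γ : Q4, γ.a * γ.d ≡ γ.b * γ.c + 1 [MOD M] → ∀ p1 p2 w1 w2 : ℝ, p1 ≤ p2 → w1 ≤ w2 →
      Tendsto (fun x : ℝ => (((SN 1 x).filter (fun e => cq M e γ ∧ (p1 ≤ pS e ∧ pS e < p2) ∧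
        (w1 ≤ wS e ∧ wS e < w2))).card : ℝ) / x) atTop (nhds (κ * (p2 - p1) * (w2 - w1)))) ∧
    ∀ n l : ℕ, 0 < n → l < n → l.Coprime n →
    ∀ γ : Q4, γ.a * γ.d ≡ γ.b * γ.c + 1 [MOD M] → ∀ (b : ℝ) (Ψ : ℝ → ℝ → ℝ → ℝ), TR b Ψ →
    Tendsto (fun X : ℝ => (∑ e ∈ (SN n (b * X)).filter (fun e => lc n l e ∧ cq M (dn n l e) γ),
      Ψ (yS e / X) (tS e) (uS e)) / X) atTop (nhds (κ / (2 * n) * ∫ y, ∫ t, ∫ u, Ψ y t u)) :=
  eqK' eqS M hM

end Pool.Agent.Spl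

end

/-! ### from `Lib_MP_92ef0c_sp.EqD` -/

section

/-!
# Weak equidistribution for determinant `n` in residue classes
-/

set_option autoImplicit false

namespace Pool.Agent.Spl

open Finset Pool.Agent.GaussMR Pool.Agent.OmAll Pool.Agent.OmEq Filter MeasureTheory

/-- reduction modulo `M` -/
def eqd_rp (M : ℕ) (e : Q4) : Q4 := ⟨e.a % M, e.b % M, e.c % M, e.d % M⟩

theorem eqd_cq_iff {M : ℕ} {e γ : Q4} (hγ : γ ∈ clq M) : cq M e γ ↔ eqd_rp M e = γ := by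
  rw [mem_clq] at hγ
  obtain ⟨⟨h1, h2, h3, h4⟩, -⟩ := hγ
  unfold cq eqd_rp
  constructor
  · rintro ⟨a1, a2, a3, a4⟩
    apply Q4.ext
    · exact (show e.a % M = γ.a % M from a1).trans (Nat.mod_eq_of_lt h1)
    · exact (show e.b % M = γ.b % M from a2).trans (Nat.mod_eq_of_lt h2)
    · exact (show e.c % M = γ.c % M from a3).trans (Nat.mod_eq_of_lt h3)
    · exact (show e.d % M = γ.d % M from a4).trans (Nat.mod_eq_of_lt h4)
  · rintro rfl
    exact ⟨(Nat.mod_modEq _ _).symm, (Nat.mod_modEq _ _).symm, (Nat.mod_modEq _ _).symm,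
      (Nat.mod_modEq _ _).symm⟩

theorem eqd_rp_mem {M : ℕ} (hM : 0 < M) {e : Q4} (h : e.a * e.d ≡ e.b * e.c + 1 [MOD M]) :
    eqd_rp M e ∈ clq M := by
  rw [mem_clq]
  refine ⟨⟨Nat.mod_lt _ hM, Nat.mod_lt _ hM, Nat.mod_lt _ hM, Nat.mod_lt _ hM⟩, ?_⟩
  show (e.a % M) * (e.d % M) ≡ (e.b % M) * (e.c % M) + 1 [MOD M]
  exact ((Nat.mod_modEq _ _).mul (Nat.mod_modEq _ _)).trans (h.trans
    ((((Nat.mod_modEq _ _).mul (Nat.mod_modEq _ _)).symm).add_right 1))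

open Classical in
/-- splitting a sum into classes -/
theorem eqd_fib {M : ℕ} (hM : 0 < M) (S : Finset Q4) (m : Q4 → Q4)
    (hS : ∀ e ∈ S, (m e).a * (m e).d ≡ (m e).b * (m e).c + 1 [MOD M]) (f : Q4 → ℝ) :
    ∑ e ∈ S, f e = ∑ γ ∈ clq M, ∑ e ∈ S.filter (fun e => cq M (m e) γ), f e := by
  rw [← Finset.sum_fiberwise_of_maps_to (g := fun e => eqd_rp M (m e)) (t := clq M)
    (fun e he => eqd_rp_mem hM (hS e he)) f]
  refine Finset.sum_congr rfl fun γ hγ => ?_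
  refine Finset.sum_congr (Finset.filter_congr fun e _ => (eqd_cq_iff hγ).symm) fun _ _ => rfl

theorem eqd_det1 {e : Q4} (h : Sn 1 e) (M : ℕ) : e.a * e.d ≡ e.b * e.c + 1 [MOD M] := by
  rw [h.1]

theorem eqd_cq_one (e f : Q4) : cq 1 e f :=
  ⟨Nat.modEq_one, Nat.modEq_one, Nat.modEq_one, Nat.modEq_one⟩

open Classical in
/-- splitting the sector counts -/
theorem eqd_count {M : ℕ} (hM : 0 < M) (x p1 p2 w1 w2 : ℝ) (γ0 : Q4) :
    (((SN 1 x).filter (fun e => cq 1 e γ0 ∧ (p1 ≤ pS e ∧ pS e < p2) ∧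
        (w1 ≤ wS e ∧ wS e < w2))).card : ℝ) / x = ∑ γ ∈ clq M,
      (((SN 1 x).filter (fun e => cq M e γ ∧ (p1 ≤ pS e ∧ pS e < p2) ∧
        (w1 ≤ wS e ∧ wS e < w2))).card : ℝ) / x := by
  have h1 : (SN 1 x).filter (fun e => cq 1 e γ0 ∧ (p1 ≤ pS e ∧ pS e < p2) ∧
        (w1 ≤ wS e ∧ wS e < w2)) = (SN 1 x).filter (fun e => (p1 ≤ pS e ∧ pS e < p2) ∧
        (w1 ≤ wS e ∧ wS e < w2)) :=
    Finset.filter_congr fun e _ => ⟨fun h => h.2, fun h => ⟨eqd_cq_one e γ0, h⟩⟩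
  have h2 := eqd_fib hM ((SN 1 x).filter (fun e => (p1 ≤ pS e ∧ pS e < p2) ∧
        (w1 ≤ wS e ∧ wS e < w2))) id (fun e he => eqd_det1 (mem_SN.1 (mem_filter.1 he).1).1 M)
        (fun _ => 1)
  rw [h1, ← Finset.sum_div]
  congr 1
  simp only [Finset.sum_const, nsmul_eq_mul, mul_one, id] at h2
  rw [h2]
  refine Finset.sum_congr rfl fun γ _ => ?_
  rw [Finset.filter_filter]
  congr 2
  exact Finset.filter_congr fun e _ => and_comm

open Classical in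
/-- PROOF. Let `κ_M` be a constant with `κ_M (p2 - p1)(w2 - w1)` for the sector counts of `eqK M`. Summing over `γ ∈ clq M` (every `e ∈ Sn 1` is congruent modulo `M` to exactly one `γ ∈ clq M`) gives `κ_M #(clq M) = κ_1 #(clq 1) = κ_1` with the same sector counts for `M = 1` (`clq 1 = {0}`, no condition), and `κ_1 > 0` by `eqPos`
(`p ∈ [-1, 1)`, `w ∈ [0, 1)`: `2 κ_1 ≥ c`). -/
theorem kapM : ∃ κ1 : ℝ, 0 < κ1 ∧ ∀ M : ℕ, 0 < M → 0 < (clq M).card ∧ ∀ n l : ℕ, 0 < n → l < n → l.Coprime n →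
    ∀ γ : Q4, γ.a * γ.d ≡ γ.b * γ.c + 1 [MOD M] → ∀ (b : ℝ) (Ψ : ℝ → ℝ → ℝ → ℝ), TR b Ψ →
    Tendsto (fun X : ℝ => (∑ e ∈ (SN n (b * X)).filter (fun e => lc n l e ∧ cq M (dn n l e) γ),
      Ψ (yS e / X) (tS e) (uS e)) / X) atTop (nhds (κ1 / (clq M).card / (2 * n) * ∫ y, ∫ t, ∫ u, Ψ y t u)) := by
  obtain ⟨κ1, -, hA, -⟩ := eqK 1 one_pos
  have hpos : 0 < κ1 := by
    obtain ⟨c, hc, hev⟩ := eqPos
    have h1 := hA ⟨0, 0, 0, 0⟩ Nat.modEq_one (-1) 1 0 1 (by norm_num) (by norm_num)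
    have h2 : c ≤ κ1 * (1 - -1) * (1 - 0) := by
      apply ge_of_tendsto h1
      filter_upwards [hev, eventually_gt_atTop 0] with x hx hx0
      rw [le_div_iff₀ hx0]
      refine hx.trans ?_
      have h3 : (SN 1 x).filter (fun e => (-1 ≤ pS e ∧ pS e < 1) ∧ (0 ≤ wS e ∧ wS e < 1)) ⊆
          (SN 1 x).filter (fun e => cq 1 e ⟨0, 0, 0, 0⟩ ∧ (-1 ≤ pS e ∧ pS e < 1) ∧
            (0 ≤ wS e ∧ wS e < 1)) := by
        intro e he
        rw [mem_filter] at he ⊢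
        exact ⟨he.1, eqd_cq_one _ _, he.2⟩
      exact_mod_cast Finset.card_le_card h3
    linarith
  refine ⟨κ1, hpos, fun M hM => ?_⟩
  have hcard : 0 < (clq M).card :=
    Finset.card_pos.2 ⟨eqd_rp M ⟨1, 0, 0, 1⟩, eqd_rp_mem hM (Nat.ModEq.refl _)⟩
  refine ⟨hcard, ?_⟩
  obtain ⟨κM, -, hMA, hMB⟩ := eqK M hM
  have hk : κ1 = (clq M).card * κM := by
    have t1 := hA ⟨0, 0, 0, 0⟩ Nat.modEq_one 0 1 0 1 zero_le_one zero_le_one
    have t2 := tendsto_finsetSum (clq M) fun γ hγ => hMA γ (mem_clq.1 hγ).2 0 1 0 1 zero_le_one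
      zero_le_one
    have t3 := t2.congr fun x => (eqd_count hM x 0 1 0 1 ⟨0, 0, 0, 0⟩).symm
    have t4 := tendsto_nhds_unique t1 t3
    rw [Finset.sum_const, nsmul_eq_mul] at t4
    linarith
  intro n l hn hl hcop γ hγ b Ψ hΨ
  have h1 := hMB n l hn hl hcop γ hγ b Ψ hΨ
  have hc : ((clq M).card : ℝ) ≠ 0 := by exact_mod_cast hcard.ne'
  have h2 : κ1 / (clq M).card / (2 * n) = κM / (2 * n) := by
    rw [hk, mul_div_cancel_left₀ _ hc]
  rw [h2]
  exact h1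

/-- PROOF. Uniqueness: if `l, l'` both work, `n ∣ (l - l') a` and `n ∣ (l - l') b`, `(a, b) = 1`. Existence: Bezout `a r + b s = 1` over `ℤ`, `l = - (c r + d s)` modulo `n`: `c + l a = c - c (a r) - a d s = c b s - a d s = - n s`, similarly `d + l b = d a r - b c r = n r`. `l` is coprime to `n`: a common prime `q` divides `c` and `d`
(`n ∣ c + l a`), which are coprime. -/
theorem lc_unique (n : ℕ) (hn : 0 < n) (e : Q4) (he : Sn n e) : ∃! l : ℕ, (l < n ∧ l.Coprime n) ∧ lc n l e := by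
  obtain ⟨hdet, ha, hb, hc, hd, hab, hcd⟩ := he
  have hn' : (0 : ℤ) < n := by exact_mod_cast hn
  have hdet' : (e.a : ℤ) * e.d = e.b * e.c + n := by exact_mod_cast hdet
  have hab' : IsCoprime (e.a : ℤ) (e.b : ℤ) := Nat.isCoprime_iff_coprime.2 hab
  obtain ⟨r, s, hrs⟩ := hab'
  refine existsUnique_of_exists_of_unique ?_ ?_
  · obtain ⟨l0, hl0⟩ : ∃ l0 : ℤ, l0 = -(e.c * r + e.d * s) := ⟨_, rfl⟩
    have hnn := Int.emod_nonneg l0 hn'.ne'
    have hlt := Int.emod_lt_of_pos l0 hn'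
    obtain ⟨l, hl⟩ := Int.eq_ofNat_of_zero_le hnn
    have hl2 : (l : ℤ) = l0 - n * (l0 / n) := by
      have := Int.emod_add_mul_ediv l0 n
      linarith
    have hlc : lc n l e := by
      constructor
      · have h1 : (n : ℤ) ∣ (e.c : ℤ) + l * e.a := by
          refine ⟨-s - (l0 / n) * e.a, ?_⟩
          rw [hl2, hl0]
          linear_combination (e.c : ℤ) * (-hrs) + (-s) * hdet'
        exact_mod_cast h1
      · have h1 : (n : ℤ) ∣ (e.d : ℤ) + l * e.b := by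
          refine ⟨r - (l0 / n) * e.b, ?_⟩
          rw [hl2, hl0]
          linear_combination (e.d : ℤ) * (-hrs) + r * hdet'
        exact_mod_cast h1
    refine ⟨l, ⟨by omega, ?_⟩, hlc⟩
    by_contra hcop
    obtain ⟨q, hq, hq1, hq2⟩ := Nat.Prime.not_coprime_iff_dvd.1 hcop
    have h1 : q ∣ e.c := by
      have h2 := hq2.trans hlc.1
      exact (Nat.dvd_add_left (hq1.mul_right e.a)).1 h2
    have h2 : q ∣ e.d := by
      have h3 := hq2.trans hlc.2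
      exact (Nat.dvd_add_left (hq1.mul_right e.b)).1 h3
    exact Nat.not_coprime_of_dvd_of_dvd hq.one_lt h1 h2 hcd
  · rintro l l' ⟨⟨hl, -⟩, h1, h2⟩ ⟨⟨hl', -⟩, h1', h2'⟩
    have k1 : (n : ℤ) ∣ (e.c : ℤ) + l * e.a := by exact_mod_cast h1
    have k2 : (n : ℤ) ∣ (e.d : ℤ) + l * e.b := by exact_mod_cast h2
    have k1' : (n : ℤ) ∣ (e.c : ℤ) + l' * e.a := by exact_mod_cast h1'
    have k2' : (n : ℤ) ∣ (e.d : ℤ) + l' * e.b := by exact_mod_cast h2'
    have m1 := dvd_sub k1 k1'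
    have m2 := dvd_sub k2 k2'
    have m3 := dvd_add (Dvd.dvd.mul_left m1 r) (Dvd.dvd.mul_left m2 s)
    have e1 : r * ((e.c : ℤ) + l * e.a - (e.c + l' * e.a)) +
        s * ((e.d : ℤ) + l * e.b - (e.d + l' * e.b)) = (l : ℤ) - l' := by
      linear_combination ((l : ℤ) - l') * hrs
    rw [e1] at m3
    have m4 : (l : ℤ) ≡ l' [ZMOD n] := (Int.modEq_iff_dvd.2 m3).symm
    have m5 : l ≡ l' [MOD n] := (Int.natCast_modEq_iff).1 m4
    exact Nat.ModEq.eq_of_lt_of_lt m5 hl hl'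

/-- the residues -/
def eqd_LL (n : ℕ) : Finset ℕ := (range n).filter (fun l => l.Coprime n)

theorem eqd_mem_LL {n l : ℕ} : l ∈ eqd_LL n ↔ l < n ∧ l.Coprime n := by
  unfold eqd_LL
  rw [mem_filter, mem_range]

theorem eqd_dn_det {n l : ℕ} (hn : 0 < n) {e : Q4} (he : Sn n e) (hl : lc n l e) (M : ℕ) :
    (dn n l e).a * (dn n l e).d ≡ (dn n l e).b * (dn n l e).c + 1 [MOD M] := by
  obtain ⟨⟨c1, hc1⟩, ⟨d1, hd1⟩⟩ := hl
  have h1 : (dn n l e).c = c1 := by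
    show (e.c + l * e.a) / n = c1
    rw [hc1, Nat.mul_div_cancel_left _ hn]
  have h2 : (dn n l e).d = d1 := by
    show (e.d + l * e.b) / n = d1
    rw [hd1, Nat.mul_div_cancel_left _ hn]
  rw [h1, h2]
  show e.a * d1 ≡ e.b * c1 + 1 [MOD M]
  have h3 : e.a * d1 = e.b * c1 + 1 := by
    apply Nat.eq_of_mul_eq_mul_left hn
    calc n * (e.a * d1) = e.a * (n * d1) := by ring
      _ = e.a * e.d + l * e.a * e.b := by rw [← hd1]; ring
      _ = e.b * (e.c + l * e.a) + n := by rw [he.1]; ring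
      _ = n * (e.b * c1 + 1) := by rw [hc1]; ring
  rw [h3]

/-- the lifted matrix -/
def eqd_up (n k : ℕ) (γ : Q4) : Q4 := ⟨γ.a, γ.b, n * γ.c + k * γ.a, n * γ.d + k * γ.b⟩

theorem eqd_up_cq {n l M : ℕ} (hn : 0 < n) (hM : 0 < M) {e γ : Q4} (hl : lc n l e)
    (h : cq M (dn n l e) γ) : cq M e (eqd_up n (l * (M - 1)) γ) := by
  obtain ⟨⟨c1, hc1⟩, ⟨d1, hd1⟩⟩ := hl
  obtain ⟨a1, a2, a3, a4⟩ := h
  have h1 : (dn n l e).c = c1 := by
    show (e.c + l * e.a) / n = c1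
    rw [hc1, Nat.mul_div_cancel_left _ hn]
  have h2 : (dn n l e).d = d1 := by
    show (e.d + l * e.b) / n = d1
    rw [hd1, Nat.mul_div_cancel_left _ hn]
  rw [h1] at a3
  rw [h2] at a4
  have a1' : e.a ≡ γ.a [MOD M] := a1
  have a2' : e.b ≡ γ.b [MOD M] := a2
  obtain ⟨M', rfl⟩ : ∃ M', M = M' + 1 := ⟨M - 1, by omega⟩
  have e0 : M' + 1 - 1 = M' := by omega
  refine ⟨a1', a2', ?_, ?_⟩
  · show e.c ≡ n * γ.c + l * (M' + 1 - 1) * γ.a [MOD M' + 1]
    rw [e0]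
    have k1 : n * c1 + l * M' * e.a ≡ n * γ.c + l * M' * γ.a [MOD M' + 1] :=
      (a3.mul_left n).add (a1'.mul_left (l * M'))
    refine Nat.ModEq.trans ?_ k1
    have k2 : n * c1 + l * M' * e.a = e.c + (M' + 1) * (l * e.a) := by
      rw [← hc1]
      ring
    rw [k2]
    exact (Nat.modEq_iff_dvd' (by omega)).2 ⟨l * e.a, by omega⟩
  · show e.d ≡ n * γ.d + l * (M' + 1 - 1) * γ.b [MOD M' + 1]
    rw [e0]
    have k1 : n * d1 + l * M' * e.b ≡ n * γ.d + l * M' * γ.b [MOD M' + 1] :=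
      (a4.mul_left n).add (a2'.mul_left (l * M'))
    refine Nat.ModEq.trans ?_ k1
    have k2 : n * d1 + l * M' * e.b = e.d + (M' + 1) * (l * e.b) := by
      rw [← hd1]
      ring
    rw [k2]
    exact (Nat.modEq_iff_dvd' (by omega)).2 ⟨l * e.b, by omega⟩

/-- the shear -/
def eqd_sh (M k : ℕ) (γ : Q4) : Q4 := ⟨γ.a, γ.b, (γ.c + k * γ.a) % M, (γ.d + k * γ.b) % M⟩

theorem eqd_sh_mem {M : ℕ} (hM : 0 < M) (k : ℕ) {γ : Q4} (hγ : γ ∈ clq M) : eqd_sh M k γ ∈ clq M := by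
  rw [mem_clq] at hγ ⊢
  obtain ⟨⟨h1, h2, h3, h4⟩, h5⟩ := hγ
  refine ⟨⟨h1, h2, Nat.mod_lt _ hM, Nat.mod_lt _ hM⟩, ?_⟩
  show γ.a * ((γ.d + k * γ.b) % M) ≡ γ.b * ((γ.c + k * γ.a) % M) + 1 [MOD M]
  have k1 : γ.a * ((γ.d + k * γ.b) % M) ≡ γ.a * (γ.d + k * γ.b) [MOD M] :=
    (Nat.mod_modEq _ _).mul_left _
  have k2 : γ.b * ((γ.c + k * γ.a) % M) ≡ γ.b * (γ.c + k * γ.a) [MOD M] :=
    (Nat.mod_modEq _ _).mul_left _
  refine k1.trans (Nat.ModEq.trans ?_ (k2.symm.add_right 1))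
  have e1 : γ.a * (γ.d + k * γ.b) = γ.a * γ.d + k * γ.a * γ.b := by ring
  have e2 : γ.b * (γ.c + k * γ.a) + 1 = (γ.b * γ.c + 1) + k * γ.a * γ.b := by ring
  rw [e1, e2]
  exact h5.add_right _

theorem eqd_sh_sh {M k k' : ℕ} (hk : M ∣ k + k') {γ : Q4} (hγ : γ ∈ clq M) :
    eqd_sh M k' (eqd_sh M k γ) = γ := by
  rw [mem_clq] at hγ
  obtain ⟨⟨h1, h2, h3, h4⟩, -⟩ := hγ
  obtain ⟨q, hq⟩ := hk
  unfold eqd_sh
  apply Q4.ext
  · rfl
  · rfl
  · show ((γ.c + k * γ.a) % M + k' * γ.a) % M = γ.c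
    rw [Nat.mod_add_mod]
    have e1 : γ.c + k * γ.a + k' * γ.a = γ.c + M * (q * γ.a) := by
      calc γ.c + k * γ.a + k' * γ.a = γ.c + (k + k') * γ.a := by ring
        _ = γ.c + M * (q * γ.a) := by rw [hq]; ring
    rw [e1, Nat.add_mul_mod_self_left, Nat.mod_eq_of_lt h3]
  · show ((γ.d + k * γ.b) % M + k' * γ.b) % M = γ.d
    rw [Nat.mod_add_mod]
    have e1 : γ.d + k * γ.b + k' * γ.b = γ.d + M * (q * γ.b) := by
      calc γ.d + k * γ.b + k' * γ.b = γ.d + (k + k') * γ.b := by ring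
        _ = γ.d + M * (q * γ.b) := by rw [hq]; ring
    rw [e1, Nat.add_mul_mod_self_left, Nat.mod_eq_of_lt h4]

open Classical in
theorem eqd_shear {n M : ℕ} (hM : 0 < M) (hMn : M.Coprime n) (P : Q4 → Prop) (hP : PerQ M P)
    (k : ℕ) : ((clq M).filter (fun γ => P (eqd_up n k γ))).card =
      ((clq M).filter (fun e => P ⟨e.a, e.b, n * e.c, n * e.d⟩)).card := by
  have : NeZero M := ⟨hM.ne'⟩
  obtain ⟨n', hn'⟩ : ∃ n' : ℕ, n * n' ≡ 1 [MOD M] := by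
    refine ⟨((n : ZMod M)⁻¹).val, ?_⟩
    rw [← ZMod.natCast_eq_natCast_iff]
    push_cast
    rw [ZMod.natCast_zmod_val]
    exact ZMod.coe_mul_inv_eq_one n hMn.symm
  have key : ∀ γ : Q4, P (eqd_up n k γ) ↔ P ⟨(eqd_sh M (n' * k) γ).a, (eqd_sh M (n' * k) γ).b,
      n * (eqd_sh M (n' * k) γ).c, n * (eqd_sh M (n' * k) γ).d⟩ := by
    intro γ
    apply hP
    refine ⟨Nat.ModEq.refl _, Nat.ModEq.refl _, ?_, ?_⟩
    · show n * γ.c + k * γ.a ≡ n * ((γ.c + n' * k * γ.a) % M) [MOD M]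
      have k1 : n * ((γ.c + n' * k * γ.a) % M) ≡ n * (γ.c + n' * k * γ.a) [MOD M] :=
        (Nat.mod_modEq _ _).mul_left _
      refine Nat.ModEq.trans ?_ k1.symm
      have e1 : n * (γ.c + n' * k * γ.a) = n * γ.c + (n * n') * (k * γ.a) := by ring
      rw [e1]
      have k2 : (n * n') * (k * γ.a) ≡ 1 * (k * γ.a) [MOD M] := hn'.mul_right _
      rw [one_mul] at k2
      exact (k2.symm).add_left _
    · show n * γ.d + k * γ.b ≡ n * ((γ.d + n' * k * γ.b) % M) [MOD M]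
      have k1 : n * ((γ.d + n' * k * γ.b) % M) ≡ n * (γ.d + n' * k * γ.b) [MOD M] :=
        (Nat.mod_modEq _ _).mul_left _
      refine Nat.ModEq.trans ?_ k1.symm
      have e1 : n * (γ.d + n' * k * γ.b) = n * γ.d + (n * n') * (k * γ.b) := by ring
      rw [e1]
      have k2 : (n * n') * (k * γ.b) ≡ 1 * (k * γ.b) [MOD M] := hn'.mul_right _
      rw [one_mul] at k2
      exact (k2.symm).add_left _
  have hdv : M ∣ n' * k + n' * k * (M - 1) := by
    refine ⟨n' * k, ?_⟩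
    obtain ⟨M', rfl⟩ : ∃ M', M = M' + 1 := ⟨M - 1, by omega⟩
    have e0 : M' + 1 - 1 = M' := by omega
    rw [e0]
    ring
  have hdv' : M ∣ n' * k * (M - 1) + n' * k := by
    rw [add_comm]
    exact hdv
  apply Finset.card_nbij' (eqd_sh M (n' * k)) (eqd_sh M (n' * k * (M - 1)))
  · intro e he
    rw [Finset.mem_coe, mem_filter] at he
    rw [Finset.mem_coe, mem_filter]
    exact ⟨eqd_sh_mem hM _ he.1, (key e).1 he.2⟩
  · intro e he
    rw [Finset.mem_coe, mem_filter] at he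
    rw [Finset.mem_coe, mem_filter]
    refine ⟨eqd_sh_mem hM _ he.1, (key _).2 ?_⟩
    have h1 := eqd_sh_sh hdv' he.1
    rw [h1]
    exact he.2
  · intro e he
    rw [Finset.mem_coe, mem_filter] at he
    exact eqd_sh_sh hdv he.1
  · intro e he
    rw [Finset.mem_coe, mem_filter] at he
    exact eqd_sh_sh hdv' he.1

open Classical in
/-- the splitting of the sum -/
theorem eqd_split {n M : ℕ} (hn : 0 < n) (hM : 0 < M) (P : Q4 → Prop) (hP : PerQ M P) (x : ℝ)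
    (F : Q4 → ℝ) : ∑ e ∈ (SN n x).filter P, F e = ∑ l ∈ eqd_LL n,
      ∑ γ ∈ (clq M).filter (fun γ => P (eqd_up n (l * (M - 1)) γ)),
        ∑ e ∈ (SN n x).filter (fun e => lc n l e ∧ cq M (dn n l e) γ), F e := by
  have h1 : ∑ e ∈ (SN n x).filter P, F e = ∑ l ∈ eqd_LL n,
      ∑ e ∈ (SN n x).filter (fun e => lc n l e), (if P e then F e else 0) := by
    rw [Finset.sum_filter]
    rw [Finset.sum_comm' (t' := SN n x) (s' := fun e => (eqd_LL n).filter (fun l => lc n l e))]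
    · refine Finset.sum_congr rfl fun e he => ?_
      have he' := (mem_SN.1 he).1
      obtain ⟨l, hl, hu⟩ := lc_unique n hn e he'
      have h2 : (eqd_LL n).filter (fun l => lc n l e) = {l} := by
        ext l'
        rw [mem_filter, mem_singleton, eqd_mem_LL]
        constructor
        · intro h
          exact hu l' h
        · rintro rfl
          exact hl
      rw [h2, Finset.sum_singleton]
    · intro l e
      simp only [mem_filter]
      tauto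
  rw [h1]
  refine Finset.sum_congr rfl fun l hl => ?_
  rw [eqd_fib hM ((SN n x).filter (fun e => lc n l e)) (dn n l) (fun e he => by
    rw [mem_filter] at he
    exact eqd_dn_det hn (mem_SN.1 he.1).1 he.2 M)]
  rw [Finset.sum_filter]
  refine Finset.sum_congr rfl fun γ _ => ?_
  rw [Finset.filter_filter]
  by_cases hQ : P (eqd_up n (l * (M - 1)) γ)
  · rw [if_pos hQ]
    refine Finset.sum_congr rfl fun e he => ?_
    rw [mem_filter] at he
    have h2 : P e := (hP _ _ (eqd_up_cq hn hM he.2.1 he.2.2)).2 hQ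
    rw [if_pos h2]
  · rw [if_neg hQ]
    refine Finset.sum_eq_zero fun e he => ?_
    rw [mem_filter] at he
    have h2 : ¬ P e := fun h => hQ ((hP _ _ (eqd_up_cq hn hM he.2.1 he.2.2)).1 h)
    rw [if_neg h2]

open Classical in
/-- PROOF. `κ = κ1 φ(n) / (2 n)`, `κ1` from `kapM`. By `lc_unique` the matrices of `SN n (b X)` with `P` are split according to `l < n`, `l` coprime to `n` (`φ(n)` values) and according to the class `γ ∈ clq M` of `dn n l e`. As `c = n c1 - l a`, `d = n d1 - l b`, `P e` depends only on `γ` (and `l`): with a natural number `l'` with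
`l' + l ≡ 0 mod M`: `P e ↔ P ⟨γ.a, γ.b, n γ.c + l' γ.a, n γ.d + l' γ.b⟩`. `kapM` gives the limit `κ1/(#clq M)/(2n) ∫∫∫Ψ * #{γ ∈ clq M : P ⟨γ.a, γ.b, n γ.c + l' γ.a, n γ.d + l' γ.b⟩}`. For `n' n ≡ 1 mod M` the map `γ ↦ (γ.a, γ.b, γ.c + n' l' γ.a, γ.d + n' l' γ.b)` (reduced modulo `M`) is a bijection of `clq M`, so this
number is `#((clq M).filter (P ⟨·.a, ·.b, n ·.c, n ·.d⟩))`, for every `l`. Compare `Lib_MP_f1a94e_eq/EqnB.lean`. -/
theorem eqD (n : ℕ) (hn : 0 < n) : ∃ κ : ℝ, 0 ≤ κ ∧ ∀ M : ℕ, 0 < M → M.Coprime n → ∀ P : Q4 → Prop, PerQ M P →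
    ∀ (b : ℝ) (Ψ : ℝ → ℝ → ℝ → ℝ), TR b Ψ →
    Tendsto (fun X : ℝ => (∑ e ∈ (SN n (b * X)).filter P, Ψ (yS e / X) (tS e) (uS e)) / X) atTop
      (nhds (κ * ((((clq M).filter (fun e => P ⟨e.a, e.b, n * e.c, n * e.d⟩)).card : ℝ) / (clq M).card) *
        ∫ y, ∫ t, ∫ u, Ψ y t u)) := by
  obtain ⟨κ1, hκ1, hk⟩ := kapM
  refine ⟨κ1 * (eqd_LL n).card / (2 * n), by positivity, ?_⟩
  intro M hM hMn P hP b Ψ hΨ
  obtain ⟨hcard, hlim⟩ := hk M hM
  have hfun : ∀ X : ℝ, (∑ e ∈ (SN n (b * X)).filter P, Ψ (yS e / X) (tS e) (uS e)) / X =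
      ∑ l ∈ eqd_LL n, ∑ γ ∈ (clq M).filter (fun γ => P (eqd_up n (l * (M - 1)) γ)),
        (∑ e ∈ (SN n (b * X)).filter (fun e => lc n l e ∧ cq M (dn n l e) γ),
          Ψ (yS e / X) (tS e) (uS e)) / X := by
    intro X
    rw [eqd_split hn hM P hP (b * X) (fun e => Ψ (yS e / X) (tS e) (uS e)), Finset.sum_div]
    exact Finset.sum_congr rfl fun l _ => Finset.sum_div _ _ _
  have hT : Tendsto (fun X : ℝ => ∑ l ∈ eqd_LL n,
      ∑ γ ∈ (clq M).filter (fun γ => P (eqd_up n (l * (M - 1)) γ)),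
        (∑ e ∈ (SN n (b * X)).filter (fun e => lc n l e ∧ cq M (dn n l e) γ),
          Ψ (yS e / X) (tS e) (uS e)) / X) atTop (nhds (∑ l ∈ eqd_LL n,
      ∑ _γ ∈ (clq M).filter (fun γ => P (eqd_up n (l * (M - 1)) γ)),
        κ1 / (clq M).card / (2 * n) * ∫ y, ∫ t, ∫ u, Ψ y t u)) := by
    refine tendsto_finsetSum _ fun l hl => tendsto_finsetSum _ fun γ hγ => ?_
    have hl' := eqd_mem_LL.1 hl
    exact hlim n l hn hl'.1 hl'.2 γ (mem_clq.1 (mem_filter.1 hγ).1).2 b Ψ hΨ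
  have hval : (∑ l ∈ eqd_LL n, ∑ _γ ∈ (clq M).filter (fun γ => P (eqd_up n (l * (M - 1)) γ)),
        κ1 / (clq M).card / (2 * n) * ∫ y, ∫ t, ∫ u, Ψ y t u) =
      κ1 * (eqd_LL n).card / (2 * n) *
        ((((clq M).filter (fun e => P ⟨e.a, e.b, n * e.c, n * e.d⟩)).card : ℝ) / (clq M).card) *
        ∫ y, ∫ t, ∫ u, Ψ y t u := by
    have h1 : ∀ l ∈ eqd_LL n, ∑ _γ ∈ (clq M).filter (fun γ => P (eqd_up n (l * (M - 1)) γ)),
        κ1 / (clq M).card / (2 * n) * ∫ y, ∫ t, ∫ u, Ψ y t u =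
        (((clq M).filter (fun e => P ⟨e.a, e.b, n * e.c, n * e.d⟩)).card : ℝ) *
          (κ1 / (clq M).card / (2 * n) * ∫ y, ∫ t, ∫ u, Ψ y t u) := by
      intro l _
      rw [Finset.sum_const, nsmul_eq_mul, eqd_shear hM hMn P hP]
    rw [Finset.sum_congr rfl h1, Finset.sum_const, nsmul_eq_mul]
    ring
  rw [hval] at hT
  exact hT.congr fun X => (hfun X).symm

end Pool.Agent.Spl

end

/-! ### from `Lib_MP_92ef0c_sp.LocS` -/

section

/-!
# Local densities of the base matrices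
-/

set_option autoImplicit false

namespace Pool.Agent.Spl

open Finset Pool.Agent.GaussMR Pool.Agent.OmAll Pool.Agent.OmEq

namespace LocSP

/-- functions that respect the congruences -/
def CF (u : Q4 → ℕ) : Prop := ∀ (M : ℕ) (e f : Q4), cq M e f → u e ≡ u f [MOD M]

/-- the condition at a prime of `D` -/
def QA (u v : Q4 → ℕ) (p : ℕ) (e : Q4) : Prop := p ∣ v e ∧ ¬ p ^ 2 ∣ u e * v e

/-- the condition at a prime outside of `D` -/
def QB (u v : Q4 → ℕ) (p : ℕ) (e : Q4) : Prop := ¬ (p ∣ u e * v e ∧ ¬ p ^ 2 ∣ u e * v e)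

/-- the condition at the prime `p` -/
def QC (u v : Q4 → ℕ) (D : Finset ℕ) (p : ℕ) (e : Q4) : Prop :=
  (p ∈ D → QA u v p e) ∧ (p ∉ D → QB u v p e)

/-- all conditions -/
def RC (u v : Q4 → ℕ) (D P : Finset ℕ) (e : Q4) : Prop := ∀ p ∈ P, QC u v D p e

theorem cq_mono {M N : ℕ} (h : N ∣ M) {e f : Q4} (hc : cq M e f) : cq N e f :=
  ⟨hc.1.of_dvd h, hc.2.1.of_dvd h, hc.2.2.1.of_dvd h, hc.2.2.2.of_dvd h⟩

theorem dvd_iff_of_modEq {M x y : ℕ} (h : x ≡ y [MOD M]) : M ∣ x ↔ M ∣ y := by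
  rw [← Nat.modEq_zero_iff_dvd, ← Nat.modEq_zero_iff_dvd]
  exact ⟨fun h1 => h.symm.trans h1, fun h1 => h.trans h1⟩

theorem QC_per {u v : Q4 → ℕ} (hu : CF u) (hv : CF v) (D : Finset ℕ) (p : ℕ) {M : ℕ}
    (hM : p ^ 2 ∣ M) : PerQ M (QC u v D p) := by
  intro e f h
  have hp : p ∣ M := (dvd_pow_self p two_ne_zero).trans hM
  have h1 : p ∣ v e ↔ p ∣ v f := dvd_iff_of_modEq (hv p e f (cq_mono hp h))
  have h2 : p ∣ u e * v e ↔ p ∣ u f * v f :=
    dvd_iff_of_modEq ((hu p e f (cq_mono hp h)).mul (hv p e f (cq_mono hp h)))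
  have h3 : p ^ 2 ∣ u e * v e ↔ p ^ 2 ∣ u f * v f :=
    dvd_iff_of_modEq ((hu _ e f (cq_mono hM h)).mul (hv _ e f (cq_mono hM h)))
  unfold QC QA QB
  rw [h1, h2, h3]

theorem RC_per {u v : Q4 → ℕ} (hu : CF u) (hv : CF v) (D P : Finset ℕ) {M : ℕ}
    (hM : ∀ p ∈ P, p ^ 2 ∣ M) : PerQ M (RC u v D P) := by
  intro e f h
  exact forall₂_congr (fun p hp => QC_per hu hv D p (hM p hp) e f h)

open Classical in
/-- the two counts at a prime -/
def CT (u v : Q4 → ℕ) (p : ℕ) : Prop :=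
  ((clq (p ^ 2)).filter (fun e => p ∣ v e ∧ ¬ p ^ 2 ∣ u e * v e)).card = p ^ 2 * (p - 1) ^ 3 ∧
    ((clq (p ^ 2)).filter (fun e => p ∣ u e ∧ ¬ p ^ 2 ∣ u e * v e)).card = p ^ 2 * (p - 1) ^ 3

theorem As_eq {p : ℕ} (hp : p.Prime) :
    ((p ^ 2 * (p - 1) ^ 3 : ℕ) : ℝ) = As p * ((p ^ 4 * (p ^ 2 - 1) : ℕ) : ℝ) := by
  have h1 : 1 ≤ p := hp.one_lt.le
  have h2 : 1 ≤ p ^ 2 := Nat.one_le_pow _ _ h1
  have h3 : (p : ℝ) ≠ 0 := by exact_mod_cast hp.ne_zero
  have h4 : (p : ℝ) + 1 ≠ 0 := by positivity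
  push_cast [Nat.cast_sub h1, Nat.cast_sub h2]
  unfold As
  field_simp
  ring

open Classical in
theorem QA_card {u v : Q4 → ℕ} {p : ℕ} (hp : p.Prime) (hct : CT u v p) :
    (((clq (p ^ 2)).filter (QA u v p)).card : ℝ) = As p * (clq (p ^ 2)).card := by
  have h1 : (clq (p ^ 2)).filter (QA u v p) =
      (clq (p ^ 2)).filter (fun e => p ∣ v e ∧ ¬ p ^ 2 ∣ u e * v e) :=
    filter_congr fun e _ => Iff.rfl
  rw [h1, hct.1, (locP p hp).1]
  exact As_eq hp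

open Classical in
theorem QB_card {u v : Q4 → ℕ} {p : ℕ} (hp : p.Prime) (hct : CT u v p) :
    (((clq (p ^ 2)).filter (QB u v p)).card : ℝ) = (1 - 2 * As p) * (clq (p ^ 2)).card := by
  have h3 : ((clq (p ^ 2)).filter (QB u v p)).card +
      ((clq (p ^ 2)).filter (fun e => p ∣ v e ∧ ¬ p ^ 2 ∣ u e * v e)).card +
      ((clq (p ^ 2)).filter (fun e => p ∣ u e ∧ ¬ p ^ 2 ∣ u e * v e)).card =
        (clq (p ^ 2)).card := by
    rw [card_filter, card_filter, card_filter, ← sum_add_distrib, ← sum_add_distrib,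
      card_eq_sum_ones]
    apply sum_congr rfl
    intro e _
    unfold QB
    have h5 : p ∣ u e * v e ↔ p ∣ u e ∨ p ∣ v e := hp.dvd_mul
    have h6 : p ∣ u e → p ∣ v e → p ^ 2 ∣ u e * v e := by
      intro a b
      rw [pow_two]
      exact mul_dvd_mul a b
    by_cases h7 : p ^ 2 ∣ u e * v e
    · simp [h7]
    · by_cases h8 : p ∣ u e
      · have h9 : ¬ p ∣ v e := fun h => h7 (h6 h8 h)
        simp [h5, h7, h8, h9]
      · by_cases h9 : p ∣ v e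
        · simp [h5, h7, h8, h9]
        · simp [h5, h7, h8, h9]
  rw [hct.1, hct.2] at h3
  have h4 : (((clq (p ^ 2)).filter (QB u v p)).card : ℝ) + ((p ^ 2 * (p - 1) ^ 3 : ℕ) : ℝ) +
      ((p ^ 2 * (p - 1) ^ 3 : ℕ) : ℝ) = (clq (p ^ 2)).card := by
    exact_mod_cast h3
  rw [As_eq hp, ← (locP p hp).1] at h4
  linarith

open Classical in
theorem QC_card {u v : Q4 → ℕ} (D : Finset ℕ) {p : ℕ} (hp : p.Prime) (hct : CT u v p) :
    (((clq (p ^ 2)).filter (QC u v D p)).card : ℝ) =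
      (if p ∈ D then As p else 1 - 2 * As p) * (clq (p ^ 2)).card := by
  by_cases h : p ∈ D
  · rw [if_pos h, ← QA_card hp hct]
    congr 2
    apply filter_congr
    intro e _
    unfold QC
    simp [h]
  · rw [if_neg h, ← QB_card hp hct]
    congr 2
    apply filter_congr
    intro e _
    unfold QC
    simp [h]

open Classical in
theorem main {u v : Q4 → ℕ} (hu : CF u) (hv : CF v) (D P : Finset ℕ) :
    (∀ p ∈ P, p.Prime ∧ CT u v p) →
    (((clq (∏ p ∈ P, p ^ 2)).filter (RC u v D P)).card : ℝ) =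
      (∏ p ∈ P, if p ∈ D then As p else 1 - 2 * As p) * (clq (∏ p ∈ P, p ^ 2)).card := by
  induction P using Finset.induction_on with
  | empty =>
    intro _
    have h3 : ((clq (∏ p ∈ (∅ : Finset ℕ), p ^ 2)).filter (RC u v D ∅)) =
        clq (∏ p ∈ (∅ : Finset ℕ), p ^ 2) := by
      apply filter_true_of_mem
      intro e _
      unfold RC
      simp
    rw [h3, prod_empty, prod_empty, one_mul]
  | insert p P hpP ih =>
    intro hP
    obtain ⟨hp, h4⟩ := hP p (mem_insert_self _ _)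
    have hP' : ∀ q ∈ P, q.Prime ∧ CT u v q := fun q hq => hP q (mem_insert_of_mem hq)
    have ih' := ih hP'
    rw [prod_insert hpP, prod_insert hpP]
    set M1 : ℕ := ∏ q ∈ P, q ^ 2 with hM1
    have hM : p ^ 2 * M1 = M1 * p ^ 2 := by ring
    rw [hM]
    have hpos1 : 0 < M1 := by
      rw [hM1]
      exact prod_pos (fun q hq => pow_pos (hP' q hq).1.pos 2)
    have hpos2 : 0 < p ^ 2 := pow_pos hp.pos 2
    have hco : M1.Coprime (p ^ 2) := by
      apply Nat.Coprime.pow_right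
      rw [hM1]
      apply Nat.Coprime.prod_left
      intro q hq
      apply Nat.Coprime.pow_left
      rw [Nat.coprime_primes (hP' q hq).1 hp]
      rintro rfl
      exact hpP hq
    have hper1 : PerQ M1 (RC u v D P) := RC_per hu hv D P
      (fun q hq => dvd_prod_of_mem (fun q => q ^ 2) hq)
    have hper2 : PerQ (p ^ 2) (QC u v D p) := QC_per hu hv D p (dvd_refl _)
    have h1 := clq_mul M1 (p ^ 2) hpos1 hpos2 hco (RC u v D P) (QC u v D p) hper1 hper2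
    have h2 := clq_mul M1 (p ^ 2) hpos1 hpos2 hco (fun _ => True) (fun _ => True)
      (fun _ _ _ => Iff.rfl) (fun _ _ _ => Iff.rfl)
    simp only [and_self, filter_true] at h2
    have h3 : ((clq (M1 * p ^ 2)).filter (RC u v D (insert p P))).card =
        ((clq (M1 * p ^ 2)).filter (fun e => RC u v D P e ∧ QC u v D p e)).card := by
      congr 1
      apply filter_congr
      intro e _
      unfold RC
      rw [forall_mem_insert]
      tauto
    rw [h3, h1, h2]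
    push_cast
    rw [ih', QC_card D hp h4]
    ring

/-- the predicate on the left side, for `D ⊆ PP E T` -/
theorem b_d_iff (u v : Q4 → ℕ) (E : Finset ℕ) (T : ℕ) (D : Finset ℕ) (hD : D ⊆ PP E T) (e : Q4)
    (F : Finset ℕ) (hF : F = (PP E T).filter (fun p => p ∣ u e * v e ∧ ¬ p ^ 2 ∣ u e * v e)) :
    ((∀ p ∈ F, ¬ p ∣ u e) ∧ F = D) ↔ RC u v D (PP E T) e := by
  constructor
  · rintro ⟨h1, h2⟩ p hp
    constructor
    · intro hpD
      have h4 : p ∈ F := h2.symm ▸ hpD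
      have h5 := (mem_filter.1 (hF ▸ h4)).2
      have h6 := h1 p h4
      have hpr : p.Prime := (mem_PP.1 hp).2.1
      exact ⟨(hpr.dvd_mul.1 h5.1).resolve_left h6, h5.2⟩
    · intro hpD h3
      apply hpD
      rw [← h2, hF]
      exact mem_filter.2 ⟨hp, h3⟩
  · intro h
    have h2 : F = D := by
      rw [hF]
      ext p
      rw [mem_filter]
      constructor
      · rintro ⟨h3, h4⟩
        by_contra h5
        exact (h p h3).2 h5 h4
      · intro hp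
        have h3 := (h p (hD hp)).1 hp
        exact ⟨hD hp, h3.1.mul_left _, h3.2⟩
    refine ⟨?_, h2⟩
    intro p hp h3
    rw [h2] at hp
    have h4 := (h p (hD hp)).1 hp
    apply h4.2
    rw [pow_two]
    exact mul_dvd_mul h3 h4.1

/-- the factor `n` does not matter -/
theorem RC_scale (u v : Q4 → ℕ) (D P : Finset ℕ) (n : ℕ) (hP : ∀ p ∈ P, p.Prime ∧ ¬ p ∣ n)
    (e f : Q4) (hu : u f = u e) (hv : v f = n * v e) :
    RC u v D P f ↔ RC u v D P e := by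
  refine forall₂_congr (fun p hp => ?_)
  obtain ⟨h1, h2⟩ := hP p hp
  have hco : p.Coprime n := (Nat.Prime.coprime_iff_not_dvd h1).2 h2
  have hco2 : (p ^ 2).Coprime n := Nat.Coprime.pow_left 2 hco
  have a1 : p ∣ v f ↔ p ∣ v e := by
    rw [hv]
    exact hco.dvd_mul_left
  have a2 : p ∣ u f * v f ↔ p ∣ u e * v e := by
    rw [hu, hv, show u e * (n * v e) = n * (u e * v e) by ring]
    exact hco.dvd_mul_left
  have a3 : p ^ 2 ∣ u f * v f ↔ p ^ 2 ∣ u e * v e := by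
    rw [hu, hv, show u e * (n * v e) = n * (u e * v e) by ring]
    exact hco2.dvd_mul_left
  unfold QC QA QB
  rw [a1, a2, a3]

open Classical in
/-- the density, for general entries -/
theorem loc (u v : Q4 → ℕ) (hu : CF u) (hv : CF v) (hct : ∀ p : ℕ, p.Prime → CT u v p)
    (E : Finset ℕ) (T : ℕ) (D : Finset ℕ) (hD : D ⊆ PP E T) :
    (((clq (∏ p ∈ PP E T, p ^ 2)).filter (RC u v D (PP E T))).card : ℝ) =
      PrS E T D * (clq (∏ p ∈ PP E T, p ^ 2)).card := by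
  have h1 := main hu hv D (PP E T) (fun p hp => ⟨(mem_PP.1 hp).2.1, hct p (mem_PP.1 hp).2.1⟩)
  have h2 : (∏ p ∈ PP E T, if p ∈ D then As p else 1 - 2 * As p) = PrS E T D := by
    unfold PrS
    rw [prod_ite]
    congr 1
    · apply prod_congr _ (fun _ _ => rfl)
      ext p
      rw [mem_filter]
      exact ⟨fun h => h.2, fun h => ⟨hD h, h⟩⟩
    · apply prod_congr _ (fun _ _ => rfl)
      ext p
      rw [mem_filter, mem_sdiff]
  rw [h2] at h1
  exact h1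

/-- periodicity, for general entries -/
theorem per (u v : Q4 → ℕ) (hu : CF u) (hv : CF v) (E : Finset ℕ) (T : ℕ) (D : Finset ℕ)
    (F : Q4 → Finset ℕ)
    (hF : ∀ e, F e = (PP E T).filter (fun p => p ∣ u e * v e ∧ ¬ p ^ 2 ∣ u e * v e)) :
    PerQ (∏ p ∈ PP E T, p ^ 2) (fun e => (∀ p ∈ F e, ¬ p ∣ u e) ∧ F e = D) := by
  intro e f h
  have hM : ∀ p ∈ PP E T, p ^ 2 ∣ ∏ p ∈ PP E T, p ^ 2 :=
    fun p hp => dvd_prod_of_mem (fun q => q ^ 2) hp
  have hds : F e = F f := by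
    rw [hF, hF]
    apply filter_congr
    intro p hp
    have hp1 : p ∣ ∏ p ∈ PP E T, p ^ 2 := (dvd_pow_self p two_ne_zero).trans (hM p hp)
    rw [dvd_iff_of_modEq ((hu p e f (cq_mono hp1 h)).mul (hv p e f (cq_mono hp1 h))),
      dvd_iff_of_modEq ((hu _ e f (cq_mono (hM p hp) h)).mul (hv _ e f (cq_mono (hM p hp) h)))]
  have hbs : (∀ p ∈ F e, ¬ p ∣ u e) ↔ (∀ p ∈ F f, ¬ p ∣ u f) := by
    rw [hds]
    refine forall₂_congr (fun p hp => ?_)
    have hp0 : p ∈ PP E T := (mem_filter.1 (hF f ▸ hp)).1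
    have hp1 : p ∣ ∏ p ∈ PP E T, p ^ 2 := (dvd_pow_self p two_ne_zero).trans (hM p hp0)
    rw [dvd_iff_of_modEq (hu p e f (cq_mono hp1 h))]
  dsimp only
  rw [hbs, hds]

theorem CF_a : CF (fun e => e.a) := fun _ _ _ h => h.1
theorem CF_b : CF (fun e => e.b) := fun _ _ _ h => h.2.1
theorem CF_c : CF (fun e => e.c) := fun _ _ _ h => h.2.2.1
theorem CF_d : CF (fun e => e.d) := fun _ _ _ h => h.2.2.2

theorem CT_ad {p : ℕ} (hp : p.Prime) : CT (fun e => e.a) (fun e => e.d) p :=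
  ⟨(locP p hp).2.1, (locP p hp).2.2.1⟩

theorem CT_bc {p : ℕ} (hp : p.Prime) : CT (fun e => e.b) (fun e => e.c) p :=
  ⟨(locP p hp).2.2.2.1, (locP p hp).2.2.2.2⟩

end LocSP

/-- PROOF. Divisibility of an entry by `p` and of a product of two entries by `p ^ 2` depends only on the classes modulo `p ^ 2`, which divides the product. -/
theorem perA (E : Finset ℕ) (T : ℕ) (D : Finset ℕ) :
    PerQ (∏ p ∈ PP E T, p ^ 2) (fun e => bA E T e ∧ dA E T e = D) :=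
  LocSP.per (fun e => e.a) (fun e => e.d) LocSP.CF_a LocSP.CF_d E T D (dA E T) (fun _ => rfl)

/-- PROOF. As `perA`. -/
theorem perB (E : Finset ℕ) (T : ℕ) (D : Finset ℕ) :
    PerQ (∏ p ∈ PP E T, p ^ 2) (fun e => bB E T e ∧ dB E T e = D) :=
  LocSP.per (fun e => e.b) (fun e => e.c) LocSP.CF_b LocSP.CF_c E T D (dB E T) (fun _ => rfl)

open Classical in
/-- PROOF. Adapt `locD` in `Lib_MP_f1a94e_eq/LocD.lean`. As `p` does not divide `n` for `p ∈ PP E T`, the factor `n` does not matter. The predicate says: for `p ∈ D`: `p ∣ d`, `¬ p^2 ∣ a d` (then `p ∤ a`), and for `p ∈ PP E T \ D`: not (`p ∣ a d`, `¬ p^2 ∣ a d`). Induction over the primes with `clq_mul` (`clq 1` has one element), `locP`: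
the first set has density `As p = p^2 (p-1)^3 / (p^4 (p^2-1)) = (p-1)^2/(p^2 (p+1))` in `clq (p^2)`, the complement of the second one is the disjoint union of two sets of density `As p`. -/
theorem locA (E : Finset ℕ) (T : ℕ) (D : Finset ℕ) (hD : D ⊆ PP E T) (n : ℕ) (hn : ∀ p ∈ PP E T, ¬ p ∣ n) :
    (((clq (∏ p ∈ PP E T, p ^ 2)).filter (fun e => bA E T ⟨e.a, e.b, n * e.c, n * e.d⟩ ∧
      dA E T ⟨e.a, e.b, n * e.c, n * e.d⟩ = D)).card : ℝ) = PrS E T D * (clq (∏ p ∈ PP E T, p ^ 2)).card := by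
  rw [← LocSP.loc (fun e => e.a) (fun e => e.d) LocSP.CF_a LocSP.CF_d
    (fun p hp => LocSP.CT_ad hp) E T D hD]
  congr 2
  apply filter_congr
  intro e _
  have h1 := LocSP.b_d_iff (fun e => e.a) (fun e => e.d) E T D hD
    ⟨e.a, e.b, n * e.c, n * e.d⟩ (dA E T ⟨e.a, e.b, n * e.c, n * e.d⟩) rfl
  have h2 := LocSP.RC_scale (fun e => e.a) (fun e => e.d) D (PP E T) n
    (fun p hp => ⟨(mem_PP.1 hp).2.1, hn p hp⟩) e ⟨e.a, e.b, n * e.c, n * e.d⟩ rfl rfl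
  exact h1.trans h2

open Classical in
/-- PROOF. As `locA`, with `b, c` in place of `a, d`. -/
theorem locB (E : Finset ℕ) (T : ℕ) (D : Finset ℕ) (hD : D ⊆ PP E T) (n : ℕ) (hn : ∀ p ∈ PP E T, ¬ p ∣ n) :
    (((clq (∏ p ∈ PP E T, p ^ 2)).filter (fun e => bB E T ⟨e.a, e.b, n * e.c, n * e.d⟩ ∧
      dB E T ⟨e.a, e.b, n * e.c, n * e.d⟩ = D)).card : ℝ) = PrS E T D * (clq (∏ p ∈ PP E T, p ^ 2)).card := by
  rw [← LocSP.loc (fun e => e.b) (fun e => e.c) LocSP.CF_b LocSP.CF_c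
    (fun p hp => LocSP.CT_bc hp) E T D hD]
  congr 2
  apply filter_congr
  intro e _
  have h1 := LocSP.b_d_iff (fun e => e.b) (fun e => e.c) E T D hD
    ⟨e.a, e.b, n * e.c, n * e.d⟩ (dB E T ⟨e.a, e.b, n * e.c, n * e.d⟩) rfl
  have h2 := LocSP.RC_scale (fun e => e.b) (fun e => e.c) D (PP E T) n
    (fun p hp => ⟨(mem_PP.1 hp).2.1, hn p hp⟩) e ⟨e.a, e.b, n * e.c, n * e.d⟩ rfl rfl
  exact h1.trans h2

end Pool.Agent.Spl

end

/-! ### from `Lib_MP_92ef0c_sp.Tr3` -/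

section

/-!
# Equidistribution of the base matrices
-/

set_option autoImplicit false

namespace Pool.Agent.Spl

open Finset Pool.Agent.GaussMR Pool.Agent.OmAll Pool.Agent.OmEq Filter MeasureTheory

theorem tr3_pos (M : ℕ) (hM : 0 < M) : (0 : ℝ) < (clq M).card := by
  have h2 : 0 < (clq M).card :=
    Finset.card_pos.2 ⟨eqd_rp M ⟨1, 0, 0, 1⟩, eqd_rp_mem hM (Nat.ModEq.refl _)⟩
  exact_mod_cast h2

open Classical in
theorem tr3_gen (n : ℕ) (hn : 0 < n) (κ : ℝ)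
    (h : ∀ M : ℕ, 0 < M → M.Coprime n → ∀ P : Q4 → Prop, PerQ M P →
      ∀ (b : ℝ) (Ψ : ℝ → ℝ → ℝ → ℝ), TR b Ψ →
      Tendsto (fun X : ℝ => (∑ e ∈ (SN n (b * X)).filter P, Ψ (yS e / X) (tS e) (uS e)) / X) atTop
        (nhds (κ * ((((clq M).filter (fun e => P ⟨e.a, e.b, n * e.c, n * e.d⟩)).card : ℝ) / (clq M).card) *
          ∫ y, ∫ t, ∫ u, Ψ y t u)))
    (E : Finset ℕ) (hE : n.primeFactors ⊆ E) (T : ℕ) (bb : Q4 → Prop) (dd : Q4 → Finset ℕ)
    (hdd : ∀ e, dd e ⊆ PP E T)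
    (hper : ∀ D : Finset ℕ, PerQ (∏ p ∈ PP E T, p ^ 2) (fun e => bb e ∧ dd e = D))
    (hloc : ∀ D : Finset ℕ, D ⊆ PP E T → (∀ p ∈ PP E T, ¬ p ∣ n) →
      (((clq (∏ p ∈ PP E T, p ^ 2)).filter (fun e => bb ⟨e.a, e.b, n * e.c, n * e.d⟩ ∧
        dd ⟨e.a, e.b, n * e.c, n * e.d⟩ = D)).card : ℝ) = PrS E T D * (clq (∏ p ∈ PP E T, p ^ 2)).card)
    (Ψ : Finset ℕ → ℝ → ℝ → ℝ → ℝ) (b : ℝ) (hΨ : ∀ D, TR b (Ψ D)) :
    Tendsto (fun X : ℝ => (∑ e ∈ (SN n (b * X)).filter bb, Ψ (dd e) (yS e / X) (tS e) (uS e)) / X) atTop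
      (nhds (κ * ∑ D ∈ (PP E T).powerset, PrS E T D * ∫ y, ∫ t, ∫ u, Ψ D y t u)) := by
  have hn0 : ∀ p ∈ PP E T, ¬ p ∣ n := by
    intro p hp hd
    obtain ⟨_, h2, h4⟩ := mem_PP.1 hp
    exact h4 (hE (Nat.mem_primeFactors.2 ⟨h2, hd, hn.ne'⟩))
  have hM : 0 < ∏ p ∈ PP E T, p ^ 2 :=
    prod_pos (fun p hp => pow_pos (mem_PP.1 hp).2.1.pos 2)
  have hco : (∏ p ∈ PP E T, p ^ 2).Coprime n := by
    apply Nat.Coprime.prod_left
    intro p hp
    apply Nat.Coprime.pow_left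
    exact (Nat.Prime.coprime_iff_not_dvd (mem_PP.1 hp).2.1).2 (hn0 p hp)
  have hpos := tr3_pos _ hM
  have key : ∀ D ∈ (PP E T).powerset, Tendsto (fun X : ℝ =>
      (∑ e ∈ (SN n (b * X)).filter (fun e => bb e ∧ dd e = D),
        Ψ D (yS e / X) (tS e) (uS e)) / X) atTop
      (nhds (κ * (PrS E T D * ∫ y, ∫ t, ∫ u, Ψ D y t u))) := by
    intro D hD
    have h1 := h _ hM hco (fun e => bb e ∧ dd e = D) (hper D) b (Ψ D) (hΨ D)
    have h2 := hloc D (mem_powerset.1 hD) hn0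
    have h4 : (((clq (∏ p ∈ PP E T, p ^ 2)).filter
        (fun e => bb ⟨e.a, e.b, n * e.c, n * e.d⟩ ∧ dd ⟨e.a, e.b, n * e.c, n * e.d⟩ = D)).card : ℝ) /
        (clq (∏ p ∈ PP E T, p ^ 2)).card = PrS E T D := by
      rw [h2, mul_div_assoc, div_self hpos.ne', mul_one]
    have h5 : ∀ (f g : ℝ → ℝ) (a b : ℝ), a = b → (∀ x, f x = g x) → Tendsto f atTop (nhds a) →
        Tendsto g atTop (nhds b) := by
      rintro f g a b rfl hfg hf
      exact hf.congr hfg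
    refine h5 _ _ _ _ ?_ ?_ h1
    · rw [← h4, ← mul_assoc]
      congr
    · intro x
      congr
  have hsum := tendsto_finsetSum _ key
  rw [← mul_sum] at hsum
  refine hsum.congr fun X => ?_
  rw [← sum_div]
  congr 1
  rw [← sum_fiberwise_of_maps_to (s := (SN n (b * X)).filter bb) (t := (PP E T).powerset)
    (g := dd) (fun e _ => mem_powerset.2 (hdd e))]
  refine sum_congr rfl fun D _ => ?_
  rw [filter_filter]
  refine sum_congr rfl fun e he => ?_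
  rw [(mem_filter.1 he).2.2]

open Classical in
/-- PROOF. As `tr` in `Lib_MP_f1a94e_eq/TR.lean` (with `Rect.lean`). Split by `D = dA E T e ⊆ PP E T`: the sum is `∑_(D ∈ (PP E T).powerset) ∑_(e ∈ SN n (b X), bA E T e ∧ dA E T e = D) Ψ D ..`. `eqD n` with `M = ∏_(p ∈ PP E T) p ^ 2` (coprime to `n` as `n.primeFactors ⊆ E`), `P e = bA E T e ∧ dA E T e = D` (`perA`), `locA`; the quotient is `PrS E T D` (`clq M` is not empty).
`κ` from `eqD n`, the same for all `E, T, D`. -/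
theorem trA (n : ℕ) (hn : 0 < n) : ∃ κ : ℝ, 0 ≤ κ ∧ ∀ E : Finset ℕ, n.primeFactors ⊆ E → ∀ (T : ℕ)
    (Ψ : Finset ℕ → ℝ → ℝ → ℝ → ℝ) (b : ℝ), (∀ D, TR b (Ψ D)) →
    Tendsto (fun X : ℝ => (∑ e ∈ (SN n (b * X)).filter (bA E T), Ψ (dA E T e) (yS e / X) (tS e) (uS e)) / X) atTop
      (nhds (κ * ∑ D ∈ (PP E T).powerset, PrS E T D * ∫ y, ∫ t, ∫ u, Ψ D y t u)) := by
  obtain ⟨κ, hκ, h⟩ := eqD n hn
  refine ⟨κ, hκ, fun E hE T Ψ b hΨ => ?_⟩
  exact tr3_gen n hn κ h E hE T (bA E T) (dA E T) (fun e => filter_subset _ _) (perA E T)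
    (fun D hD hn0 => locA E T D hD n hn0) Ψ b hΨ

open Classical in
/-- PROOF. As `trA`, with `perB`, `locB`. -/
theorem trB (n : ℕ) (hn : 0 < n) : ∃ κ : ℝ, 0 ≤ κ ∧ ∀ E : Finset ℕ, n.primeFactors ⊆ E → ∀ (T : ℕ)
    (Ψ : Finset ℕ → ℝ → ℝ → ℝ → ℝ) (b : ℝ), (∀ D, TR b (Ψ D)) →
    Tendsto (fun X : ℝ => (∑ e ∈ (SN n (b * X)).filter (bB E T), Ψ (dB E T e) (yS e / X) (tS e) (uS e)) / X) atTop
      (nhds (κ * ∑ D ∈ (PP E T).powerset, PrS E T D * ∫ y, ∫ t, ∫ u, Ψ D y t u)) := by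
  obtain ⟨κ, hκ, h⟩ := eqD n hn
  refine ⟨κ, hκ, fun E hE T Ψ b hΨ => ?_⟩
  exact tr3_gen n hn κ h E hE T (bB E T) (dB E T) (fun e => filter_subset _ _) (perB E T)
    (fun D hD hn0 => locB E T D hD n hn0) Ψ b hΨ

end Pool.Agent.Spl

end
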