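import Pool.Agent.Lib_MP_92ef0c_m.M17
import Pool.Agent.Lib_MP_92ef0c_m.M18
import Pool.Agent.Lib_MP_92ef0c_m.M31
import Pool.Agent.Lib_MP_92ef0c_m.M38

/-!
# MP_92ef0c_nt, split pairs: merged library part M39

Concatenation of smaller files (each in its own section), only to save build time.
-/

/-! ### from `Lib_MP_f1a94e_mr.Annulus` -/

section

/-!
# Piece ANNULUS: second moment of `om` on an annulus
-/

set_option autoImplicit false

namespace Pool.Agent.GaussMR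

open Classical in
theorem om_eq_card (P Q : ℝ) (z : G) : om P Q z = (((PP P Q).filter (fun w => w ∣ z)).card : ℝ) := by
  rw [om, ← Set.ncard_coe_finset]
  congr 2
  ext w
  simp

open Classical in
/-- multiples of `u` in the annulus -/
theorem count_annulus {κ C : ℝ} (hκ : 0 < κ) (hC : 0 < C)
    (hb : ∀ t : ℝ, 0 ≤ t → |((ball t).card : ℝ) - κ * t| ≤ C * (Real.sqrt t + 1))
    {X ρ m : ℝ} {u : G} (hX : 1 ≤ X) (hρ : 0 < ρ) (hρ1 : ρ ≤ 1) (hm : (nm u : ℝ) = m)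
    (hm1 : 1 ≤ m) (hmX : m ≤ X ^ (1 / 2 : ℝ)) (hXρ : X ^ (-(1 / 4 : ℝ)) ≤ ρ) :
    (((V (X * Real.exp ρ) \ V X).filter (fun z => u ∣ z)).card : ℝ) ≤
      (2 * κ + 6 * C) * ρ * (X / m) := by
  have hX0 : 0 < X := by linarith
  have hm0 : 0 < m := by linarith
  set t : ℝ := X / m with ht
  have ht1 : X ^ (1 / 2 : ℝ) ≤ t := by
    rw [ht, le_div_iff₀ hm0]
    calc X ^ (1 / 2 : ℝ) * m ≤ X ^ (1 / 2 : ℝ) * X ^ (1 / 2 : ℝ) := by gcongr
      _ = X := by
          rw [← Real.rpow_add hX0]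
          norm_num
  have ht0 : 1 ≤ t := (Real.one_le_rpow hX (by norm_num)).trans ht1
  have hexp1 : 1 ≤ Real.exp ρ := Real.one_le_exp hρ.le
  have hexp : Real.exp ρ ≤ 3 := by
    have := Real.exp_one_lt_d9
    exact (Real.exp_le_exp.mpr hρ1).trans (by linarith)
  have hexp2 : Real.exp ρ - 1 ≤ 2 * ρ := by
    have := Real.abs_exp_sub_one_le (x := ρ) (by rw [abs_of_pos hρ]; exact hρ1)
    rw [abs_of_pos hρ] at this
    exact (le_abs_self _).trans this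
  have hsub : (V (X * Real.exp ρ) \ V X).filter (fun z => u ∣ z) ⊆
      (ball (t * Real.exp ρ) \ ball t).image (fun z => u * z) := by
    intro z hz
    rw [Finset.mem_filter, Finset.mem_sdiff] at hz
    obtain ⟨⟨h1, h2⟩, ⟨z', rfl⟩⟩ := hz
    rw [mem_V] at h1 h2
    have h3 : ¬ (nm (u * z') : ℝ) ≤ X := fun h => h2 ⟨h, h1.2⟩
    have h4 := h1.1
    rw [nm_mul] at h3 h4
    push_cast at h3 h4
    rw [hm] at h3 h4
    refine Finset.mem_image.mpr ⟨z', ?_, rfl⟩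
    rw [Finset.mem_sdiff, mem_ball, mem_ball]
    constructor
    · rw [ht, div_mul_eq_mul_div, le_div_iff₀ hm0]
      linarith
    · rw [ht, le_div_iff₀ hm0]
      intro h5
      exact h3 (by linarith)
  have hbs : ball t ⊆ ball (t * Real.exp ρ) := by
    intro z hz
    rw [mem_ball] at hz ⊢
    exact hz.trans (by nlinarith)
  have h1 : (((V (X * Real.exp ρ) \ V X).filter (fun z => u ∣ z)).card : ℝ) ≤
      ((ball (t * Real.exp ρ)).card : ℝ) - (ball t).card := by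
    have e1 := (Finset.card_le_card hsub).trans Finset.card_image_le
    have e2 := Finset.card_sdiff_add_card_eq_card hbs
    have e3 : ((ball (t * Real.exp ρ) \ ball t).card : ℝ) + (ball t).card =
        (ball (t * Real.exp ρ)).card := by exact_mod_cast e2
    have e4 : (((V (X * Real.exp ρ) \ V X).filter (fun z => u ∣ z)).card : ℝ) ≤
      ((ball (t * Real.exp ρ) \ ball t).card : ℝ) := by exact_mod_cast e1
    linarith
  have h2 := (abs_le.mp (hb (t * Real.exp ρ) (by positivity))).2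
  have h3 := (abs_le.mp (hb t (by linarith))).1
  -- the error term
  have hst : Real.sqrt t ≤ ρ * t := by
    rw [Real.sqrt_le_iff]
    refine ⟨by positivity, ?_⟩
    have e1 : (1 : ℝ) ≤ ρ ^ 2 * t := by
      have e2 : X ^ (-(1 / 2 : ℝ)) ≤ ρ ^ 2 := by
        calc X ^ (-(1 / 2 : ℝ)) = (X ^ (-(1 / 4 : ℝ))) ^ 2 := by
              rw [← Real.rpow_natCast, ← Real.rpow_mul hX0.le]
              norm_num
          _ ≤ ρ ^ 2 := pow_le_pow_left₀ (by positivity) hXρ 2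
      calc (1 : ℝ) = X ^ (-(1 / 2 : ℝ)) * X ^ (1 / 2 : ℝ) := by
            rw [← Real.rpow_add hX0]
            norm_num
        _ ≤ ρ ^ 2 * t := by gcongr
    nlinarith
  have hs1 : 1 ≤ Real.sqrt t := by
    rw [Real.one_le_sqrt]
    exact ht0
  have hs3 : Real.sqrt (t * Real.exp ρ) ≤ 3 * Real.sqrt t := by
    rw [Real.sqrt_le_iff]
    refine ⟨by positivity, ?_⟩
    rw [mul_pow, Real.sq_sqrt (by linarith)]
    nlinarith
  have h4 : κ * (t * Real.exp ρ) - κ * t ≤ 2 * κ * ρ * t := by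
    have : κ * (t * Real.exp ρ) - κ * t = κ * t * (Real.exp ρ - 1) := by ring
    rw [this]
    calc κ * t * (Real.exp ρ - 1) ≤ κ * t * (2 * ρ) := by gcongr
      _ = 2 * κ * ρ * t := by ring
  have h5 : C * (Real.sqrt (t * Real.exp ρ) + 1) + C * (Real.sqrt t + 1) ≤ 6 * C * ρ * t := by
    have e1 : Real.sqrt (t * Real.exp ρ) + 1 + (Real.sqrt t + 1) ≤ 6 * Real.sqrt t := by linarith
    calc C * (Real.sqrt (t * Real.exp ρ) + 1) + C * (Real.sqrt t + 1) =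
          C * (Real.sqrt (t * Real.exp ρ) + 1 + (Real.sqrt t + 1)) := by ring
      _ ≤ C * (6 * (ρ * t)) := by
          refine mul_le_mul_of_nonneg_left (e1.trans ?_) hC.le
          linarith
      _ = 6 * C * ρ * t := by ring
  have h6 : (2 * κ + 6 * C) * ρ * t = 2 * κ * ρ * t + 6 * C * ρ * t := by ring
  rw [h6]
  linarith

/-- `∑ om^2 = ∑_{w, w'} #{z : X < nm z ≤ X e^ρ, w ∣ z, w' ∣ z}`; drop the primitivity: for `w ≠ w'`
the count is at most `#ball(X e^ρ / (p p')) - #ball(X / (p p'))`, which by `ball_asymp` is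
`≤ κ (e^ρ - 1) X / (p p') + C (√(3 X / (p p')) + 1) ≤ C' ρ X / (p p')` because `ρ ≥ X^(-1/4)` and
`p p' ≤ Q^2 ≤ X^(1/10)`. -/
theorem annulus : ∃ C : ℝ, 0 < C ∧ ∀ P Q X ρ : ℝ, 2 ≤ P → P ≤ Q → Q ^ 20 ≤ X → 0 < ρ → ρ ≤ 1 →
    X ^ (-(1 / 4 : ℝ)) ≤ ρ →
    ∑ z ∈ V (X * Real.exp ρ) \ V X, (om P Q z) ^ 2 ≤ C * ρ * X * (Ls P Q + 1) ^ 2 := by
  classical
  obtain ⟨κ, C, hκ, hC, hb⟩ := ball_asymp
  refine ⟨2 * κ + 6 * C, by positivity, ?_⟩
  intro P Q X ρ hP hPQ hQX hρ hρ1 hXρ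
  set K := 2 * κ + 6 * C with hK
  have hK0 : 0 < K := by positivity
  have hQ2 : 2 ≤ Q := hP.trans hPQ
  have hX1 : 1 ≤ X := (one_le_pow₀ (by linarith : (1 : ℝ) ≤ Q)).trans hQX
  have hX0 : 0 < X := by linarith
  have hQ4 : Q ^ 2 ≤ X ^ (1 / 2 : ℝ) := by
    rw [← Real.sqrt_eq_rpow]
    refine Real.le_sqrt_of_sq_le ?_
    calc (Q ^ 2) ^ 2 = Q ^ 4 := by ring
      _ ≤ Q ^ 20 := pow_le_pow_right₀ (by linarith) (by norm_num)
      _ ≤ X := hQX
  set Z := V (X * Real.exp ρ) \ V X with hZ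
  have hp : ∀ w ∈ PP P Q, (1 : ℝ) ≤ nm w ∧ (nm w : ℝ) ≤ Q := by
    intro w hw
    obtain ⟨h1, h2, -⟩ := mem_PP.mp hw
    exact ⟨by linarith, h2⟩
  have h1 : ∀ z, (om P Q z) ^ 2 = ∑ w ∈ PP P Q, ∑ w' ∈ PP P Q,
      (if w ∣ z ∧ w' ∣ z then (1 : ℝ) else 0) := by
    intro z
    rw [om_eq_card, Finset.card_filter, sq]
    push_cast
    rw [Finset.sum_mul_sum]
    refine Finset.sum_congr rfl fun w _ => Finset.sum_congr rfl fun w' _ => ?_
    by_cases h1 : w ∣ z <;> by_cases h2 : w' ∣ z <;> simp [h1, h2]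
  have h2 : ∑ z ∈ Z, (om P Q z) ^ 2 = ∑ w ∈ PP P Q, ∑ w' ∈ PP P Q,
      ((Z.filter (fun z => w ∣ z ∧ w' ∣ z)).card : ℝ) := by
    simp only [h1]
    rw [Finset.sum_comm]
    refine Finset.sum_congr rfl fun w _ => ?_
    rw [Finset.sum_comm]
    refine Finset.sum_congr rfl fun w' _ => ?_
    rw [Finset.card_filter]
    push_cast
    rfl
  have h3 : ∀ w ∈ PP P Q, ∀ w' ∈ PP P Q, ((Z.filter (fun z => w ∣ z ∧ w' ∣ z)).card : ℝ) ≤
      K * ρ * X * ((if w = w' then 1 / (nm w : ℝ) else 0) + 1 / (nm w : ℝ) * (1 / (nm w' : ℝ))) := by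
    intro w hw w' hw'
    obtain ⟨a1, a2⟩ := hp w hw
    obtain ⟨b1, b2⟩ := hp w' hw'
    by_cases hww : w = w'
    · subst hww
      have e1 : (Z.filter (fun z => w ∣ z ∧ w ∣ z)) = Z.filter (fun z => w ∣ z) := by
        simp only [and_self]
      rw [e1, if_pos rfl]
      have e2 := count_annulus hκ hC hb (u := w) hX1 hρ hρ1 rfl a1
        (a2.trans ((le_self_pow₀ (by linarith) two_ne_zero).trans hQ4)) hXρ
      refine e2.trans ?_
      have e3 : (0 : ℝ) ≤ 1 / (nm w : ℝ) * (1 / (nm w : ℝ)) := by positivity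
      calc K * ρ * (X / nm w) = K * ρ * X * (1 / (nm w : ℝ)) := by ring
        _ ≤ _ := by
            refine mul_le_mul_of_nonneg_left ?_ (by positivity)
            linarith
    · have hn : nm w ≠ nm w' := fun h => hww (PP_inj hw hw' h)
      have hcop : IsCoprime w w' := (PP_spl hw).coprime (PP_spl hw') hn
      have e1 : Z.filter (fun z => w ∣ z ∧ w' ∣ z) ⊆ Z.filter (fun z => w * w' ∣ z) := by
        intro z hz
        rw [Finset.mem_filter] at hz ⊢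
        exact ⟨hz.1, hcop.mul_dvd hz.2.1 hz.2.2⟩
      have e2 : ((Z.filter (fun z => w ∣ z ∧ w' ∣ z)).card : ℝ) ≤
          ((Z.filter (fun z => w * w' ∣ z)).card : ℝ) := by
        exact_mod_cast Finset.card_le_card e1
      have e3 := count_annulus hκ hC hb (u := w * w') (m := nm w * nm w') hX1 hρ hρ1
        (by rw [nm_mul]; push_cast; rfl) (by nlinarith)
        (le_trans (by nlinarith) hQ4) hXρ
      rw [if_neg hww, zero_add]
      refine (e2.trans e3).trans (le_of_eq ?_)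
      ring
  rw [h2]
  refine (Finset.sum_le_sum fun w hw => Finset.sum_le_sum fun w' hw' => h3 w hw w' hw').trans ?_
  have h4 : ∑ w ∈ PP P Q, ∑ w' ∈ PP P Q,
      K * ρ * X * ((if w = w' then 1 / (nm w : ℝ) else 0) + 1 / (nm w : ℝ) * (1 / (nm w' : ℝ))) =
      K * ρ * X * (Ls P Q + Ls P Q * Ls P Q) := by
    simp only [← Finset.mul_sum]
    congr 1
    rw [Finset.sum_congr rfl fun w _ => Finset.sum_add_distrib, Finset.sum_add_distrib]
    congr 1
    · unfold Ls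
      refine Finset.sum_congr rfl fun w hw => ?_
      rw [Finset.sum_ite_eq, if_pos hw]
    · unfold Ls
      rw [Finset.sum_mul_sum]
  rw [h4]
  have hL : 0 ≤ Ls P Q := Finset.sum_nonneg fun w _ => by positivity
  refine mul_le_mul_of_nonneg_left ?_ (by positivity)
  nlinarith

end Pool.Agent.GaussMR

end

/-! ### from `Lib_MP_f1a94e_mr.Equid` -/

section

/-!
# Piece EQUID: equidistribution of `V X` modulo split primes
-/

set_option autoImplicit false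

namespace Pool.Agent.GaussMR

open Classical in
theorem ncard_V_eq (X : ℝ) (R : G → Prop) :
    Set.ncard {z : G | z ∈ V X ∧ R z} = ((V X).filter R).card := by
  rw [← Set.ncard_coe_finset, Finset.coe_filter]

open Classical in
/-- the multiples of a split prime -/
theorem card_mul_split (X : ℝ) (w : G) (hw : Spl w) (R : G → Prop) (hR : ∀ z, R (w * z) ↔ R z) :
    ((V X).filter (fun z => w ∣ z ∧ R z)).card +
      ((V (X / nm w)).filter (fun z => star w ∣ z ∧ R z)).card =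
      ((V (X / nm w)).filter R).card := by
  have hpos : (0 : ℝ) < nm w := by exact_mod_cast hw.1.pos
  have hw0 : w ≠ 0 := hw.prime.ne_zero
  have himg : (V X).filter (fun z => w ∣ z ∧ R z) =
      (((V (X / nm w)).filter R).filter (fun z => ¬ star w ∣ z)).image (fun z => w * z) := by
    ext z
    rw [Finset.mem_filter, Finset.mem_image]
    constructor
    · rintro ⟨hz, ⟨z', rfl⟩, hRz⟩
      obtain ⟨h1, h2, h3⟩ := mem_V.mp hz
      have h4 := prim_of_mul h3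
      have h5 := (odd_nm_mul.mp h2).2
      refine ⟨z', ?_, rfl⟩
      rw [Finset.mem_filter, Finset.mem_filter]
      refine ⟨⟨mem_V.mpr ⟨?_, h5, h4.2⟩, (hR z').mp hRz⟩, (prim_mul_iff hw h4.2).mp h3⟩
      rw [le_div_iff₀ hpos]
      rw [nm_mul] at h1
      push_cast at h1
      linarith
    · rintro ⟨z', hz', rfl⟩
      rw [Finset.mem_filter, Finset.mem_filter] at hz'
      obtain ⟨⟨hz1, hRz⟩, hns⟩ := hz'
      obtain ⟨h1, h2, h3⟩ := mem_V.mp hz1
      refine ⟨mem_V.mpr ⟨?_, odd_nm_mul.mpr ⟨hw.odd, h2⟩, (prim_mul_iff hw h3).mpr hns⟩,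
        dvd_mul_right _ _, (hR z').mpr hRz⟩
      rw [le_div_iff₀ hpos] at h1
      rw [nm_mul]
      push_cast
      linarith
  have hcard : ((V X).filter (fun z => w ∣ z ∧ R z)).card =
      (((V (X / nm w)).filter R).filter (fun z => ¬ star w ∣ z)).card := by
    rw [himg, Finset.card_image_of_injective]
    exact mul_right_injective₀ hw0
  have hsplit := Finset.card_filter_add_card_filter_not (s := (V (X / nm w)).filter R)
    (fun z => star w ∣ z)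
  have hsame : (V (X / nm w)).filter (fun z => star w ∣ z ∧ R z) =
      ((V (X / nm w)).filter R).filter (fun z => star w ∣ z) := by
    rw [Finset.filter_filter]
    apply Finset.filter_congr
    intro z _
    exact and_comm
  rw [hcard, hsame]
  omega

theorem V_empty (X : ℝ) (hX : X < 1) : V X = ∅ := by
  apply Finset.eq_empty_of_forall_notMem
  intro z hz
  obtain ⟨h1, h2, _⟩ := mem_V.mp hz
  have h3 : 1 ≤ nm z := nm_pos_of_odd h2
  have h4 : (1 : ℝ) ≤ nm z := by exact_mod_cast h3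
  linarith

theorem one_le_log3 (X : ℝ) (hX : 0 ≤ X) : 1 ≤ Real.log (X + 3) := by
  rw [Real.le_log_iff_exp_le (by linarith)]
  have := Real.exp_one_lt_d9
  linarith

theorem spl_five {w : G} (h : Spl w) : 5 ≤ nm w := by
  have h1 := h.1.two_le
  have h2 := h.2
  omega

open Classical in
/-- the recursion -/
theorem rec_equid (p : ℕ) (R : G → Prop) (μ C : ℝ) (hμ0 : 0 ≤ μ) (hμ : μ ≤ C)
    (hM : ∀ X : ℝ, 0 ≤ X → |(((V X).filter R).card : ℝ) - μ * X| ≤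
      C * Real.sqrt X * Real.log (X + 3))
    (hR : ∀ w, Spl w → nm w = p → ∀ z, R (w * z) ↔ R z) (n : ℕ) :
    ∀ X : ℝ, 0 ≤ X → X < 2 ^ n → ∀ w, Spl w → nm w = p →
      |(((V X).filter (fun z => w ∣ z ∧ R z)).card : ℝ) - μ * X / (p + 1)| ≤
        C * Real.sqrt X * Real.log (X + 3) := by
  have hC : 0 ≤ C := hμ0.trans hμ
  induction n with
  | zero =>
    intro X hX hX1 w _ _
    rw [pow_zero] at hX1
    rw [V_empty X hX1, Finset.filter_empty, Finset.card_empty, Nat.cast_zero, zero_sub, abs_neg]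
    have h1 : 0 ≤ μ * X / ((p : ℝ) + 1) := by positivity
    rw [abs_of_nonneg h1]
    have h2 : μ * X / ((p : ℝ) + 1) ≤ μ * X := by
      apply div_le_self (by positivity)
      have : (0 : ℝ) ≤ p := Nat.cast_nonneg p
      linarith
    have h3 : X ≤ Real.sqrt X := by
      apply Real.le_sqrt_of_sq_le
      nlinarith
    have h4 := one_le_log3 X hX
    calc μ * X / ((p : ℝ) + 1) ≤ μ * X := h2
      _ ≤ C * Real.sqrt X := mul_le_mul hμ h3 hX hC
      _ = C * Real.sqrt X * 1 := (mul_one _).symm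
      _ ≤ C * Real.sqrt X * Real.log (X + 3) :=
          mul_le_mul_of_nonneg_left h4 (by positivity)
  | succ n ih =>
    intro X hX hX1 w hw hwp
    have hp5 : 5 ≤ p := hwp ▸ spl_five hw
    have hp5' : (5 : ℝ) ≤ p := by exact_mod_cast hp5
    have hp0 : (0 : ℝ) < p := by linarith
    have hXp0 : 0 ≤ X / p := div_nonneg hX hp0.le
    have hXp1 : X / p < 2 ^ n := by
      rw [div_lt_iff₀ hp0]
      rw [pow_succ] at hX1
      have h2n : (0 : ℝ) < 2 ^ n := by positivity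
      nlinarith
    have h1 := ih (X / p) hXp0 hXp1 (star w) hw.conj (by rw [nm_star]; exact hwp)
    have h2 := hM (X / p) hXp0
    have h3 := card_mul_split X w hw R (hR w hw hwp)
    rw [hwp] at h3
    have h3' : (((V X).filter (fun z => w ∣ z ∧ R z)).card : ℝ) =
        (((V (X / p)).filter R).card : ℝ) -
          (((V (X / p)).filter (fun z => star w ∣ z ∧ R z)).card : ℝ) := by
      rw [← h3]
      push_cast
      ring
    have hp1 : (p : ℝ) + 1 ≠ 0 := by positivity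
    have h4 : (((V X).filter (fun z => w ∣ z ∧ R z)).card : ℝ) - μ * X / (p + 1) =
        ((((V (X / p)).filter R).card : ℝ) - μ * (X / p)) -
          ((((V (X / p)).filter (fun z => star w ∣ z ∧ R z)).card : ℝ) -
            μ * (X / p) / (p + 1)) := by
      rw [h3']
      field_simp
      ring
    rw [h4]
    refine (abs_sub _ _).trans ?_
    have hsq : Real.sqrt (X / p) ≤ Real.sqrt X / 2 := by
      rw [Real.sqrt_le_left (by positivity), div_pow, Real.sq_sqrt hX]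
      rw [div_le_div_iff₀ hp0 (by norm_num)]
      nlinarith
    have hlog : Real.log (X / p + 3) ≤ Real.log (X + 3) := by
      apply Real.log_le_log (by positivity)
      have : X / p ≤ X := div_le_self hX (by linarith)
      linarith
    have hlog0 : 0 ≤ Real.log (X / p + 3) := (zero_le_one.trans (one_le_log3 _ hXp0))
    have hkey : C * Real.sqrt (X / p) * Real.log (X / p + 3) ≤
        C * Real.sqrt X * Real.log (X + 3) / 2 := by
      calc C * Real.sqrt (X / p) * Real.log (X / p + 3)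
          ≤ C * (Real.sqrt X / 2) * Real.log (X + 3) := by
            apply mul_le_mul (mul_le_mul_of_nonneg_left hsq hC) hlog hlog0 (by positivity)
        _ = _ := by ring
    linarith

theorem equid : ∃ κ C : ℝ, 0 < κ ∧ 0 < C ∧
    (∀ X : ℝ, 0 ≤ X → |((V X).card : ℝ) - κ * X| ≤ C * Real.sqrt X * Real.log (X + 3)) ∧
    (∀ X : ℝ, 0 ≤ X → ∀ w : G, Spl w →
      |(Set.ncard {z : G | z ∈ V X ∧ w ∣ z} : ℝ) - κ * X / (nm w + 1)| ≤
        C * Real.sqrt X * Real.log (X + 3)) ∧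
    (∀ X : ℝ, 0 ≤ X → ∀ w w' : G, Spl w → Spl w' → nm w ≠ nm w' →
      |(Set.ncard {z : G | z ∈ V X ∧ w ∣ z ∧ w' ∣ z} : ℝ) - κ * X / ((nm w + 1) * (nm w' + 1))| ≤
        C * Real.sqrt X * Real.log (X + 3)) := by
  classical
  obtain ⟨κ, C0, hκ, hC0, hV⟩ := V_asymp
  set C := max C0 κ with hC
  have hCpos : 0 < C := lt_of_lt_of_le hC0 (le_max_left _ _)
  have hV' : ∀ X : ℝ, 0 ≤ X → |((V X).card : ℝ) - κ * X| ≤ C * Real.sqrt X * Real.log (X + 3) := by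
    intro X hX
    refine (hV X hX).trans ?_
    have h1 := one_le_log3 X hX
    apply mul_le_mul_of_nonneg_right _ (by linarith)
    exact mul_le_mul_of_nonneg_right (le_max_left _ _) (Real.sqrt_nonneg _)
  have hexists : ∀ X : ℝ, 0 ≤ X → ∃ n : ℕ, X < 2 ^ n := fun X _ =>
    pow_unbounded_of_one_lt X (by norm_num)
  have hone : ∀ X : ℝ, 0 ≤ X → ∀ w : G, Spl w →
      |(((V X).filter (fun z => w ∣ z)).card : ℝ) - κ * X / (nm w + 1)| ≤
        C * Real.sqrt X * Real.log (X + 3) := by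
    intro X hX w hw
    obtain ⟨n, hn⟩ := hexists X hX
    have h1 := rec_equid (nm w) (fun _ => True) κ C hκ.le (le_max_right _ _)
      (by
        intro Y hY
        rw [Finset.filter_true]
        exact hV' Y hY)
      (fun _ _ _ _ => Iff.rfl) n X hX hn w hw rfl
    simpa using h1
  refine ⟨κ, C, hκ, hCpos, hV', ?_, ?_⟩
  · intro X hX w hw
    rw [ncard_V_eq X (fun z => w ∣ z)]
    exact hone X hX w hw
  · intro X hX w w' hw hw' hne
    rw [ncard_V_eq X (fun z => w ∣ z ∧ w' ∣ z)]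
    obtain ⟨n, hn⟩ := hexists X hX
    have hpos' : (0 : ℝ) < (nm w' : ℝ) + 1 := by positivity
    have h1 := rec_equid (nm w) (fun z => w' ∣ z) (κ / (nm w' + 1)) C (by positivity)
      (by
        refine le_trans ?_ (le_max_right C0 κ)
        apply div_le_self hκ.le
        have : (0 : ℝ) ≤ nm w' := Nat.cast_nonneg _
        linarith)
      (by
        intro Y hY
        have h2 := hone Y hY w' hw'
        have h3 : κ / ((nm w' : ℝ) + 1) * Y = κ * Y / (nm w' + 1) := by ring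
        rw [h3]
        exact h2)
      (by
        intro v hv hvn z
        constructor
        · intro h
          have hcop : IsCoprime w' v := (hv.coprime hw' (by rw [hvn]; exact hne)).symm
          exact hcop.dvd_of_dvd_mul_left h
        · intro h
          exact h.mul_left _)
      n X hX hn w hw rfl
    have h4 : κ / ((nm w' : ℝ) + 1) * X / ((nm w : ℝ) + 1) =
        κ * X / ((nm w + 1) * (nm w' + 1)) := by
      have : (0 : ℝ) < (nm w : ℝ) + 1 := by positivity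
      field_simp
    rw [h4] at h1
    have h5 : ∀ (i1 i2 : DecidablePred (fun z : G => w ∣ z ∧ w' ∣ z)),
        (@Finset.filter _ (fun z => w ∣ z ∧ w' ∣ z) i1 (V X)).card =
        (@Finset.filter _ (fun z => w ∣ z ∧ w' ∣ z) i2 (V X)).card := by
      intro i1 i2
      have : i1 = i2 := Subsingleton.elim _ _
      rw [this]
    rw [h5]
    exact h1

end Pool.Agent.GaussMR

end

/-! ### from `Lib_MP_f1a94e_mr.TK` -/

section

/-!
# Piece TK: Turan-Kubilius inequality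
-/

set_option autoImplicit false

namespace Pool.Agent.GaussMR

open Classical in
/-- indicator of divisibility -/
noncomputable def tk_dvi (w z : G) : ℝ := if w ∣ z then 1 else 0

theorem tk_om_eq_sum (P Q : ℝ) (z : G) : om P Q z = ∑ w ∈ PP P Q, tk_dvi w z := by
  classical
  unfold om tk_dvi
  have h : {w : G | w ∈ PP P Q ∧ w ∣ z} = (((PP P Q).filter fun w => w ∣ z : Finset G) : Set G) := by
    ext w
    simp
  rw [h, Set.ncard_coe_finset, Finset.card_filter]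
  push_cast
  rfl

theorem tk_ncard_eq_sum (X : ℝ) (w : G) :
    (Set.ncard {z : G | z ∈ V X ∧ w ∣ z} : ℝ) = ∑ z ∈ V X, tk_dvi w z := by
  classical
  unfold tk_dvi
  have h : {z : G | z ∈ V X ∧ w ∣ z} = (((V X).filter fun z => w ∣ z : Finset G) : Set G) := by
    ext w
    simp
  rw [h, Set.ncard_coe_finset, Finset.card_filter]
  push_cast
  rfl

theorem tk_ncard_eq_sum₂ (X : ℝ) (w w' : G) :
    (Set.ncard {z : G | z ∈ V X ∧ w ∣ z ∧ w' ∣ z} : ℝ) = ∑ z ∈ V X, tk_dvi w z * tk_dvi w' z := by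
  classical
  unfold tk_dvi
  have h : {z : G | z ∈ V X ∧ w ∣ z ∧ w' ∣ z} =
      (((V X).filter fun z => w ∣ z ∧ w' ∣ z : Finset G) : Set G) := by
    ext w
    simp
  rw [h, Set.ncard_coe_finset, Finset.card_filter]
  push_cast
  refine Finset.sum_congr rfl fun z _ => ?_
  by_cases h1 : w ∣ z <;> by_cases h2 : w' ∣ z <;> simp [h1, h2]

theorem tk_dvi_sq (w z : G) : tk_dvi w z * tk_dvi w z = tk_dvi w z := by
  unfold tk_dvi
  split_ifs <;> simp

theorem tk_error (Q X : ℝ) (hQ : 2 ≤ Q) (hX : Q ^ 20 ≤ X) :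
    Q ^ 2 * (Real.sqrt X * Real.log (X + 3)) ≤ 8 * X := by
  have hX1 : 1 ≤ X := le_trans (one_le_pow₀ (by linarith)) hX
  obtain ⟨s, hs⟩ : ∃ s : ℝ, s = Real.sqrt (Real.sqrt X) := ⟨_, rfl⟩
  have hs0 : 0 ≤ s := by rw [hs]; exact Real.sqrt_nonneg _
  have hs2 : s ^ 2 = Real.sqrt X := by rw [hs, Real.sq_sqrt (Real.sqrt_nonneg _)]
  have hs4 : s ^ 4 = X := by
    calc s ^ 4 = (s ^ 2) ^ 2 := by ring
      _ = X := by rw [hs2, Real.sq_sqrt (by linarith)]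
  have hs1 : 1 ≤ s := by
    by_contra h
    push Not at h
    have : s ^ 4 < 1 := pow_lt_one₀ hs0 h (by norm_num)
    linarith
  have hQs : Q ^ 2 ≤ s := by
    refine le_of_pow_le_pow_left₀ (n := 4) (by norm_num) hs0 ?_
    rw [hs4]
    calc (Q ^ 2) ^ 4 = Q ^ 8 := by ring
      _ ≤ Q ^ 20 := pow_le_pow_right₀ (by linarith) (by norm_num)
      _ ≤ X := hX
  have hlog : Real.log (X + 3) ≤ 8 * s := by
    have h1 : X + 3 ≤ (2 * s) ^ 4 := by
      rw [mul_pow, hs4]; norm_num; linarith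
    calc Real.log (X + 3) ≤ Real.log ((2 * s) ^ 4) := Real.log_le_log (by linarith) h1
      _ = 4 * Real.log (2 * s) := by rw [Real.log_pow]; norm_num
      _ ≤ 4 * (2 * s - 1) := by
          have := Real.log_le_sub_one_of_pos (show 0 < 2 * s by linarith)
          linarith
      _ ≤ 8 * s := by linarith
  have hlog0 : 0 ≤ Real.log (X + 3) := Real.log_nonneg (by linarith)
  rw [← hs2]
  calc Q ^ 2 * (s ^ 2 * Real.log (X + 3)) ≤ s * (s ^ 2 * (8 * s)) := by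
        gcongr
    _ = 8 * s ^ 4 := by ring
    _ = 8 * X := by rw [hs4]

/-- expand the square and insert `equid`; the errors are `O(Q^2 √X log X) = O(X)` as `Q^20 ≤ X`;
`∑ 1/p - ∑ 1/(p+1) ≤ 1`. -/
theorem TK : ∃ C : ℝ, 0 < C ∧ ∀ P Q X : ℝ, 2 ≤ P → P ≤ Q → Q ^ 20 ≤ X →
    ∑ z ∈ V X, (om P Q z - Ls P Q) ^ 2 ≤ C * X * (Ls P Q + 1) := by
  classical
  obtain ⟨κ, C, hκ, hC, h0, h1, h2⟩ := equid
  refine ⟨κ + 40 * C, by positivity, fun P Q X hP hPQ hX => ?_⟩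
  have hQ2 : 2 ≤ Q := hP.trans hPQ
  have hX1 : 1 ≤ X := le_trans (one_le_pow₀ (by linarith)) hX
  have hX0 : 0 ≤ X := by linarith
  obtain ⟨E, hE⟩ : ∃ E : ℝ, E = C * Real.sqrt X * Real.log (X + 3) := ⟨_, rfl⟩
  have hE0 : 0 ≤ E := by
    rw [hE]
    have : 0 ≤ Real.log (X + 3) := Real.log_nonneg (by linarith)
    positivity
  obtain ⟨L', hL'⟩ : ∃ L' : ℝ, L' = ∑ w ∈ PP P Q, 1 / ((nm w : ℝ) + 1) := ⟨_, rfl⟩
  obtain ⟨L, hL⟩ : ∃ L : ℝ, L = Ls P Q := ⟨_, rfl⟩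
  have hLdef : L = ∑ w ∈ PP P Q, 1 / (nm w : ℝ) := by rw [hL]; rfl
  obtain ⟨N, hN⟩ : ∃ N : ℝ, N = ((PP P Q).card : ℝ) := ⟨_, rfl⟩
  have hN0 : 0 ≤ N := by rw [hN]; positivity
  have hNQ : N ≤ Q := by rw [hN]; exact card_PP_le P Q (by linarith)
  have hnm : ∀ w ∈ PP P Q, (2 : ℝ) ≤ nm w := by
    intro w hw
    have := (mem_PP.mp hw).1
    linarith
  have hL'0 : 0 ≤ L' := by
    rw [hL']
    exact Finset.sum_nonneg fun w hw => by have := hnm w hw; positivity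
  have hL'L : L' ≤ L := by
    rw [hL', hLdef]
    refine Finset.sum_le_sum fun w hw => ?_
    have := hnm w hw
    exact one_div_le_one_div_of_le (by linarith) (by linarith)
  have hLN : L ≤ N := by
    rw [hLdef, hN, Finset.card_eq_sum_ones]
    push_cast
    refine Finset.sum_le_sum fun w hw => ?_
    have := hnm w hw
    rw [div_le_one (by linarith)]
    linarith
  have hLL : L - L' ≤ 1 := by
    have hn1 : ∀ w ∈ PP P Q, 2 ≤ nm w := fun w hw => by exact_mod_cast hnm w hw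
    have hinj : Set.InjOn (fun w : G => nm w - 1) (PP P Q : Set G) := by
      intro a ha b hb hab
      have h3 := hn1 a ha
      have h4 := hn1 b hb
      simp only at hab
      exact PP_inj (Finset.mem_coe.mp ha) (Finset.mem_coe.mp hb) (by omega)
    have hsub : (PP P Q).image (fun w : G => nm w - 1) ⊆ Finset.range ⌊Q⌋₊ := by
      intro n hn
      obtain ⟨w, hw, rfl⟩ := Finset.mem_image.mp hn
      have h3 := hn1 w hw
      have h4 : nm w ≤ ⌊Q⌋₊ := Nat.le_floor (mem_PP.mp hw).2.1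
      rw [Finset.mem_range]
      omega
    have hterm : ∀ n : ℕ, 0 ≤ (fun i : ℕ => 1 / ((i : ℝ) + 1)) n -
        (fun i : ℕ => 1 / ((i : ℝ) + 1)) (n + 1) := by
      intro n
      simp only
      push_cast
      have : 1 / ((n : ℝ) + 1 + 1) ≤ 1 / ((n : ℝ) + 1) :=
        one_div_le_one_div_of_le (by positivity) (by linarith)
      linarith
    calc L - L' = ∑ w ∈ PP P Q, (1 / (nm w : ℝ) - 1 / ((nm w : ℝ) + 1)) := by
          rw [hLdef, hL', Finset.sum_sub_distrib]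
      _ = ∑ w ∈ PP P Q, ((fun i : ℕ => 1 / ((i : ℝ) + 1)) (nm w - 1) -
            (fun i : ℕ => 1 / ((i : ℝ) + 1)) (nm w - 1 + 1)) := by
          refine Finset.sum_congr rfl fun w hw => ?_
          have h3 := hn1 w hw
          have h4 : ((nm w - 1 : ℕ) : ℝ) = (nm w : ℝ) - 1 := by
            rw [Nat.cast_sub (by omega)]; simp
          simp only
          push_cast
          rw [h4]
          ring_nf
      _ = ∑ n ∈ (PP P Q).image (fun w : G => nm w - 1),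
            ((fun i : ℕ => 1 / ((i : ℝ) + 1)) n - (fun i : ℕ => 1 / ((i : ℝ) + 1)) (n + 1)) := by
          rw [Finset.sum_image hinj]
      _ ≤ ∑ n ∈ Finset.range ⌊Q⌋₊,
            ((fun i : ℕ => 1 / ((i : ℝ) + 1)) n - (fun i : ℕ => 1 / ((i : ℝ) + 1)) (n + 1)) :=
          Finset.sum_le_sum_of_subset_of_nonneg hsub fun n _ _ => hterm n
      _ = 1 / (((0 : ℕ) : ℝ) + 1) - 1 / ((⌊Q⌋₊ : ℝ) + 1) := by
          rw [Finset.sum_range_sub']
      _ ≤ 1 := by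
          have : 0 ≤ 1 / ((⌊Q⌋₊ : ℝ) + 1) := by positivity
          norm_num
          positivity
  -- the counts
  have hA1 : ∀ w ∈ PP P Q, |(∑ z ∈ V X, tk_dvi w z) - κ * X / (nm w + 1)| ≤ E := by
    intro w hw
    have := h1 X hX0 w (PP_spl hw)
    rwa [tk_ncard_eq_sum, ← hE] at this
  have hA2 : ∀ w ∈ PP P Q, ∀ w' ∈ PP P Q, ∑ z ∈ V X, tk_dvi w z * tk_dvi w' z ≤
      κ * X * (1 / ((nm w : ℝ) + 1) * (1 / ((nm w' : ℝ) + 1))) + E +
        (if w = w' then κ * X * (1 / ((nm w : ℝ) + 1)) else 0) := by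
    intro w hw w' hw'
    by_cases hww : w = w'
    · subst hww
      have h3 := (abs_le.mp (hA1 w hw)).2
      simp only [tk_dvi_sq, if_true]
      have h4 := hnm w hw
      have h5 : 0 ≤ κ * X * (1 / ((nm w : ℝ) + 1) * (1 / ((nm w : ℝ) + 1))) := by positivity
      have h6 : κ * X / ((nm w : ℝ) + 1) = κ * X * (1 / ((nm w : ℝ) + 1)) := by ring
      linarith
    · have hne : nm w ≠ nm w' := fun h => hww (PP_inj hw hw' h)
      have := h2 X hX0 w w' (PP_spl hw) (PP_spl hw') hne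
      rw [tk_ncard_eq_sum₂, ← hE] at this
      have h3 := (abs_le.mp this).2
      rw [if_neg hww]
      have h6 : κ * X / (((nm w : ℝ) + 1) * ((nm w' : ℝ) + 1)) =
          κ * X * (1 / ((nm w : ℝ) + 1) * (1 / ((nm w' : ℝ) + 1))) := by
        rw [one_div_mul_one_div, mul_one_div]
      linarith
  -- expansion
  have hexp : ∑ z ∈ V X, (om P Q z - L) ^ 2 =
      (∑ w ∈ PP P Q, ∑ w' ∈ PP P Q, ∑ z ∈ V X, tk_dvi w z * tk_dvi w' z) -
        2 * L * (∑ w ∈ PP P Q, ∑ z ∈ V X, tk_dvi w z) + L ^ 2 * ((V X).card : ℝ) := by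
    have e1 : ∀ z, (om P Q z - L) ^ 2 = (∑ w ∈ PP P Q, ∑ w' ∈ PP P Q, tk_dvi w z * tk_dvi w' z) -
        2 * L * (∑ w ∈ PP P Q, tk_dvi w z) + L ^ 2 := by
      intro z
      rw [tk_om_eq_sum, ← Finset.sum_mul_sum]
      ring
    simp only [e1]
    rw [Finset.sum_add_distrib, Finset.sum_sub_distrib, Finset.sum_const, nsmul_eq_mul,
      ← Finset.mul_sum, Finset.sum_comm (s := V X) (t := PP P Q)]
    congr 1
    · congr 1
      · refine Finset.sum_congr rfl fun w _ => ?_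
        rw [Finset.sum_comm]
      · rw [Finset.sum_comm]
    · ring
  have hS2 : (∑ w ∈ PP P Q, ∑ w' ∈ PP P Q, ∑ z ∈ V X, tk_dvi w z * tk_dvi w' z) ≤
      κ * X * L' ^ 2 + N ^ 2 * E + κ * X * L' := by
    calc (∑ w ∈ PP P Q, ∑ w' ∈ PP P Q, ∑ z ∈ V X, tk_dvi w z * tk_dvi w' z)
        ≤ ∑ w ∈ PP P Q, ∑ w' ∈ PP P Q,
          (κ * X * (1 / ((nm w : ℝ) + 1) * (1 / ((nm w' : ℝ) + 1))) + E +
            (if w = w' then κ * X * (1 / ((nm w : ℝ) + 1)) else 0)) :=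
          Finset.sum_le_sum fun w hw => Finset.sum_le_sum fun w' hw' => hA2 w hw w' hw'
      _ = κ * X * L' ^ 2 + N ^ 2 * E + κ * X * L' := by
          simp only [Finset.sum_add_distrib, Finset.sum_const, nsmul_eq_mul, Finset.sum_ite_eq]
          have e3 : (∑ x ∈ PP P Q, if x ∈ PP P Q then κ * X * (1 / ((nm x : ℝ) + 1)) else 0) =
              κ * X * L' := by
            rw [hL', Finset.mul_sum]
            exact Finset.sum_congr rfl fun x hx => by rw [if_pos hx]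
          have e4 : (∑ x ∈ PP P Q, ∑ x' ∈ PP P Q,
              κ * X * (1 / ((nm x : ℝ) + 1) * (1 / ((nm x' : ℝ) + 1)))) = κ * X * L' ^ 2 := by
            rw [hL', sq, Finset.sum_mul_sum, Finset.mul_sum]
            exact Finset.sum_congr rfl fun x _ => by rw [Finset.mul_sum]
          rw [e3, e4, ← hN]
          ring
  have hS1 : κ * X * L' - N * E ≤ ∑ w ∈ PP P Q, ∑ z ∈ V X, tk_dvi w z := by
    have : ∑ w ∈ PP P Q, (κ * X * (1 / ((nm w : ℝ) + 1)) - E) ≤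
        ∑ w ∈ PP P Q, ∑ z ∈ V X, tk_dvi w z := by
      refine Finset.sum_le_sum fun w hw => ?_
      have h3 := (abs_le.mp (hA1 w hw)).1
      have h6 : κ * X / ((nm w : ℝ) + 1) = κ * X * (1 / ((nm w : ℝ) + 1)) := by ring
      linarith
    refine le_trans (le_of_eq ?_) this
    rw [Finset.sum_sub_distrib, ← Finset.mul_sum, Finset.sum_const, nsmul_eq_mul, ← hL', ← hN]
  have hS0 : ((V X).card : ℝ) ≤ κ * X + E := by
    have := (abs_le.mp (h0 X hX0)).2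
    rw [← hE] at this
    linarith
  have hQE : Q ^ 2 * E ≤ 8 * C * X := by
    have h3 := mul_le_mul_of_nonneg_left (tk_error Q X hQ2 hX) hC.le
    rw [hE]
    linarith only [h3]
  rw [← hL, hexp]
  have hL0 : 0 ≤ L := hL'0.trans hL'L
  have hstep : (∑ w ∈ PP P Q, ∑ w' ∈ PP P Q, ∑ z ∈ V X, tk_dvi w z * tk_dvi w' z) -
        2 * L * (∑ w ∈ PP P Q, ∑ z ∈ V X, tk_dvi w z) + L ^ 2 * ((V X).card : ℝ) ≤
      (κ * X * L' ^ 2 + N ^ 2 * E + κ * X * L') - 2 * L * (κ * X * L' - N * E) +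
        L ^ 2 * (κ * X + E) := by
    have t1 : 2 * L * (κ * X * L' - N * E) ≤ 2 * L * (∑ w ∈ PP P Q, ∑ z ∈ V X, tk_dvi w z) :=
      mul_le_mul_of_nonneg_left hS1 (by positivity)
    have t2 : L ^ 2 * ((V X).card : ℝ) ≤ L ^ 2 * (κ * X + E) :=
      mul_le_mul_of_nonneg_left hS0 (by positivity)
    linarith
  refine hstep.trans ?_
  have hring : (κ * X * L' ^ 2 + N ^ 2 * E + κ * X * L') - 2 * L * (κ * X * L' - N * E) +
        L ^ 2 * (κ * X + E) = κ * X * (L' + (L - L') ^ 2) + (N + L) ^ 2 * E := by ring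
  rw [hring]
  have h7 : κ * X * (L' + (L - L') ^ 2) ≤ κ * X * (L + 1) := by
    refine mul_le_mul_of_nonneg_left ?_ (by positivity)
    have : (L - L') ^ 2 ≤ 1 := pow_le_one₀ (sub_nonneg.2 hL'L) hLL
    linarith only [this, hL'L]
  have h8 : (N + L) ^ 2 * E ≤ 4 * (Q ^ 2 * E) := by
    have h3 : (N + L) ^ 2 ≤ (2 * Q) ^ 2 :=
      pow_le_pow_left₀ (add_nonneg hN0 hL0) (by linarith only [hNQ, hLN]) 2
    have h4 := mul_le_mul_of_nonneg_right h3 hE0
    linarith only [h4]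
  have h9 : 0 ≤ C * X := mul_nonneg hC.le hX0
  have h10 := mul_nonneg h9 hL0
  linarith only [h7, h8, hQE, h9, h10]

end Pool.Agent.GaussMR

end

/-! ### from `Lib_MP_f1a94e_mr.Stage` -/

section

/-!
# Piece STAGE: factorisation of the Fourier coefficients (one stage of Matomaki-Radziwill)
-/

set_option autoImplicit false

namespace Pool.Agent.GaussMR

/-- Minkowski inequality in `ℓ²`. -/
theorem minkowski_sq {ι κ : Type*} (I : Finset ι) (K : Finset κ) (c : ι → κ → ℂ) (s : ι → ℝ)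
    (hs : ∀ i ∈ I, 0 < s i) (h : ∀ i ∈ I, ∑ k ∈ K, ‖c i k‖ ^ 2 ≤ s i ^ 2) :
    ∑ k ∈ K, ‖∑ i ∈ I, c i k‖ ^ 2 ≤ (∑ i ∈ I, s i) ^ 2 := by
  have h1 : ∀ k ∈ K, ‖∑ i ∈ I, c i k‖ ^ 2 ≤ (∑ i ∈ I, s i) * ∑ i ∈ I, ‖c i k‖ ^ 2 / s i := by
    intro k _
    have h2 : ‖∑ i ∈ I, c i k‖ ≤ ∑ i ∈ I, ‖c i k‖ := norm_sum_le _ _
    refine (pow_le_pow_left₀ (norm_nonneg _) h2 2).trans ?_
    refine Finset.sum_sq_le_sum_mul_sum_of_sq_le_mul I (fun i hi => (hs i hi).le)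
      (fun i hi => div_nonneg (sq_nonneg _) (hs i hi).le) fun i hi => le_of_eq ?_
    have := (hs i hi).ne'
    field_simp
  refine (Finset.sum_le_sum h1).trans ?_
  rw [← Finset.mul_sum, Finset.sum_comm, sq]
  refine mul_le_mul_of_nonneg_left ?_ (Finset.sum_nonneg fun i hi => (hs i hi).le)
  refine Finset.sum_le_sum fun i hi => ?_
  rw [← Finset.sum_div, div_le_iff₀ (hs i hi), ← sq]
  exact h i hi

theorem sum_PP_inv_sq {P Q : ℝ} (hP : 1 ≤ P) : ∑ w ∈ PP P Q, 1 / (nm w : ℝ) ^ 2 ≤ 1 := by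
  classical
  have hinj : Set.InjOn nm (PP P Q : Set G) := fun w hw w' hw' h => PP_inj hw hw' h
  have h1 : ∑ w ∈ PP P Q, 1 / (nm w : ℝ) ^ 2 = ∑ n ∈ (PP P Q).image nm, 1 / (n : ℝ) ^ 2 := by
    rw [Finset.sum_image hinj]
  rw [h1]
  have h2 : (PP P Q).image nm ⊆ Finset.Ioc 1 (⌊Q⌋₊ + 1) := by
    intro n hn
    obtain ⟨w, hw, rfl⟩ := Finset.mem_image.mp hn
    obtain ⟨e1, e2, -, -, -⟩ := mem_PP.mp hw
    rw [Finset.mem_Ioc]
    refine ⟨by exact_mod_cast hP.trans_lt e1, ?_⟩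
    have e3 : nm w ≤ ⌊Q⌋₊ := Nat.le_floor e2
    omega
  refine (Finset.sum_le_sum_of_subset_of_nonneg h2 fun _ _ _ => by positivity).trans ?_
  have h3 := sum_Ioc_inv_sq_le_sub (α := ℝ) (k := 1) (n := ⌊Q⌋₊ + 1) one_ne_zero (by omega)
  have h4 : (0 : ℝ) ≤ ((⌊Q⌋₊ + 1 : ℕ) : ℝ)⁻¹ := by positivity
  simp only [one_div]
  simp only [Nat.cast_one, inv_one] at h3
  linarith

/-- sums over the blocks -/
theorem sum_blk_le {P Q ρ : ℝ} (hρ : 0 < ρ) (h : G → ℝ) (hh : ∀ w ∈ PP P Q, 0 ≤ h w) :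
    ∑ v ∈ Finset.range (nv Q ρ), ∑ w ∈ blk P Q ρ v, h w ≤ ∑ w ∈ PP P Q, h w := by
  classical
  rw [← Finset.sum_biUnion]
  · refine Finset.sum_le_sum_of_subset_of_nonneg ?_ fun w hw _ => hh w hw
    intro w hw
    obtain ⟨v, -, hv⟩ := Finset.mem_biUnion.mp hw
    exact (mem_blk.mp hv).1
  · intro v _ v' _ hvv
    rw [Function.onFun, Finset.disjoint_left]
    intro w hw hw'
    exact hvv (blk_unique hρ hw hw')

open Classical in
theorem A2_bound {C : ℝ} (hC : 0 < C) (hdls : ∀ (F : G → ℝ), PM F → ∀ (w : G), Spl w →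
    ∀ (Y : ℝ) (T : ℕ), 0 ≤ Y →
    ∑ k ∈ fr T, ‖∑ z ∈ (V Y).filter (fun z => star w ∣ z), (F z : ℂ) * xi (-k) z‖ ^ 2 ≤
      C * (T + Y / nm w) * (Y / nm w)) (F : G → ℝ) (hF : PM F) (P Q ρ X : ℝ) (T : ℕ)
    (hP : 2 ≤ P) (hρ : 0 < ρ) (hρ1 : ρ ≤ 1) (hX : 1 ≤ X) :
    ∑ k ∈ fr T, ‖A2 F P Q ρ X k‖ ^ 2 ≤
      (Real.sqrt C * (Real.sqrt (3 * T * X) * Ls P Q + 3 * X)) ^ 2 := by
  have hX0 : 0 < X := by linarith
  set s : G → ℝ := fun w => Real.sqrt C * (Real.sqrt (3 * T * X) * (1 / nm w) +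
    3 * X * (1 / (nm w : ℝ) ^ 2)) with hs
  have hpos : ∀ w ∈ PP P Q, (0 : ℝ) < nm w := by
    intro w hw
    have := (mem_PP.mp hw).1
    linarith
  have hs0 : ∀ w ∈ PP P Q, 0 < s w := by
    intro w hw
    have h1 := hpos w hw
    have h2 : 0 < Real.sqrt C := Real.sqrt_pos.mpr hC
    rw [hs]
    positivity
  have hexp : Real.exp ρ ≤ 3 := by
    have := Real.exp_one_lt_d9
    exact (Real.exp_le_exp.mpr hρ1).trans (by linarith)
  have h1 : ∀ k, A2 F P Q ρ X k = ∑ i ∈ (Finset.range (nv Q ρ)).sigma (fun v => blk P Q ρ v),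
      (F i.2 : ℂ) * xi (-k) i.2 * ∑ z ∈ (V (X * Real.exp (-(i.1 * ρ)))).filter
        (fun z => star i.2 ∣ z), (F z : ℂ) * xi (-k) z := by
    intro k
    unfold A2
    rw [Finset.sum_sigma']
  simp only [h1]
  refine (minkowski_sq _ _ _ (fun i : (_ : ℕ) × G => s i.2) ?_ ?_).trans ?_
  · intro i hi
    exact hs0 _ (mem_blk.mp (Finset.mem_sigma.mp hi).2).1
  · rintro ⟨v, w⟩ hi
    have hw := (Finset.mem_sigma.mp hi).2
    simp only at hw
    obtain ⟨hwP, -, hw2⟩ := mem_blk.mp hw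
    have hp := hpos w hwP
    have hsp := PP_spl hwP
    set Y : ℝ := X * Real.exp (-(v * ρ)) with hY
    have hY0 : 0 ≤ Y := by positivity
    have e1 : ∑ k ∈ fr T, ‖(F w : ℂ) * xi (-k) w * ∑ z ∈ (V Y).filter
        (fun z => star w ∣ z), (F z : ℂ) * xi (-k) z‖ ^ 2 =
        ∑ k ∈ fr T, ‖∑ z ∈ (V Y).filter (fun z => star w ∣ z), (F z : ℂ) * xi (-k) z‖ ^ 2 := by
      refine Finset.sum_congr rfl fun k _ => ?_
      rw [norm_mul, norm_mul, hF.norm hsp.odd, norm_xi _ (ne_zero_of_odd hsp.odd), one_mul, one_mul]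
    simp only
    rw [e1]
    refine (hdls F hF w hsp Y T hY0).trans ?_
    have e2 : Y / nm w ≤ 3 * X * (1 / (nm w : ℝ) ^ 2) := by
      have e3 : Y * nm w ≤ 3 * X := by
        calc Y * nm w ≤ Y * Real.exp ((v + 1) * ρ) := by gcongr
          _ = X * Real.exp ρ := by
              rw [hY, mul_assoc, ← Real.exp_add]
              congr 2
              ring
          _ ≤ X * 3 := by gcongr
          _ = 3 * X := by ring
      rw [div_le_iff₀ hp]
      calc Y = Y * nm w * (1 / nm w) := by field_simp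
        _ ≤ 3 * X * (1 / nm w) := by gcongr
        _ = 3 * X * (1 / (nm w : ℝ) ^ 2) * nm w := by field_simp
    have e4 : 0 ≤ Y / nm w := by positivity
    rw [hs]
    simp only
    rw [mul_pow, Real.sq_sqrt hC.le, mul_assoc]
    refine mul_le_mul_of_nonneg_left ?_ hC.le
    have e5 : Real.sqrt (3 * T * X) ^ 2 = 3 * T * X := Real.sq_sqrt (by positivity)
    calc (T + Y / nm w) * (Y / nm w) ≤ (T + 3 * X * (1 / (nm w : ℝ) ^ 2)) *
          (3 * X * (1 / (nm w : ℝ) ^ 2)) := by gcongr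
      _ = Real.sqrt (3 * T * X) ^ 2 * (1 / nm w) ^ 2 + (3 * X * (1 / (nm w : ℝ) ^ 2)) ^ 2 := by
          rw [e5]
          field_simp
      _ ≤ (Real.sqrt (3 * T * X) * (1 / nm w) + 3 * X * (1 / (nm w : ℝ) ^ 2)) ^ 2 := by
          have e6 : 0 ≤ Real.sqrt (3 * T * X) * (1 / nm w) * (3 * X * (1 / (nm w : ℝ) ^ 2)) := by
            positivity
          nlinarith
  · have e1 : ∑ i ∈ (Finset.range (nv Q ρ)).sigma (fun v => blk P Q ρ v), s i.2 ≤
        ∑ w ∈ PP P Q, s w := by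
      rw [Finset.sum_sigma]
      exact sum_blk_le hρ s fun w hw => (hs0 w hw).le
    have e2 : ∑ w ∈ PP P Q, s w ≤ Real.sqrt C * (Real.sqrt (3 * T * X) * Ls P Q + 3 * X) := by
      rw [hs, ← Finset.mul_sum, Finset.sum_add_distrib, ← Finset.mul_sum, ← Finset.mul_sum]
      have e3 := sum_PP_inv_sq (P := P) (Q := Q) (by linarith)
      unfold Ls
      refine mul_le_mul_of_nonneg_left (add_le_add_right ?_ _) (Real.sqrt_nonneg _)
      nlinarith
    refine pow_le_pow_left₀ (Finset.sum_nonneg fun i hi => ?_) (e1.trans e2) 2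
    exact (hs0 _ (mem_blk.mp (Finset.mem_sigma.mp hi).2).1).le

/-- By `stage_id`, `Ls * fc k - UZ k = A₁ - A2 - A3` with `A₁ = ∑_{z ∈ V X} F z (Ls - om z) xi_{-k}(z)`.
`A₁`: `large_sieve` and `TK`, `≤ C (T + X) X (Ls + 1)`. `A2`: Minkowski in `ℓ²(k)` over the pairs `(v, w)` and
`div_large_sieve` (each contributes at most `√(C (T + 3X/p²) 3X/p²) ≤ √(3C) (√(T X) / p + √3 X / p²)`,
as `X e^(-vρ) / p ≤ X e^ρ / p²`), and `∑ 1/p² ≤ 1`: `≤ C (T X Ls² + X²)`. `A3`: `large_sieve` on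
`V (X e^ρ)`, `mA_le`, `annulus`: `≤ C X · ρ X (Ls + 1)²`. Finally `Ls ≥ 1`. -/
theorem stage : ∃ C : ℝ, 0 < C ∧ ∀ (F : G → ℝ), PM F → ∀ (P Q ρ X : ℝ) (T : ℕ),
    2 ≤ P → P ≤ Q → Q ^ 20 ≤ X → 0 < ρ → ρ ≤ 1 → X ^ (-(1 / 4 : ℝ)) ≤ ρ → (T : ℝ) ≤ X →
    1 ≤ Ls P Q →
    ∑ k ∈ fr T, ‖(Ls P Q : ℂ) * fc F X k - UZ F P Q ρ X k‖ ^ 2 ≤
      C * X ^ 2 * Ls P Q ^ 2 * (1 / Ls P Q + T / X + ρ) := by
  classical
  obtain ⟨C1, hC1, hls⟩ := large_sieve
  obtain ⟨C2, hC2, htk⟩ := TK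
  obtain ⟨C3, hC3, hann⟩ := annulus
  obtain ⟨C4, hC4, hdls⟩ := div_large_sieve
  refine ⟨3 * (4 * C1 * C2 + 18 * C4 + 16 * C1 * C3), by positivity, ?_⟩
  intro F hF P Q ρ X T hP hPQ hQX hρ hρ1 hXρ hTX hLs
  have hQ2 : 2 ≤ Q := hP.trans hPQ
  have hX1 : 1 ≤ X := (one_le_pow₀ (by linarith : (1 : ℝ) ≤ Q)).trans hQX
  have hX0 : 0 < X := by linarith
  have hLs0 : 0 < Ls P Q := by linarith
  set L := Ls P Q with hL
  -- the three parts
  have hdec : ∀ k, (L : ℂ) * fc F X k - UZ F P Q ρ X k =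
      ∑ z ∈ V X, ((F z : ℂ) * ((L - om P Q z : ℝ) : ℂ)) * xi (-k) z - A2 F P Q ρ X k -
        A3 F P Q ρ X k := by
    intro k
    rw [stage_id F hF P Q ρ X k (by linarith) hPQ hρ hX1]
    have e1 : ∑ z ∈ V X, ((F z : ℂ) * ((L - om P Q z : ℝ) : ℂ)) * xi (-k) z =
        (L : ℂ) * fc F X k - ∑ z ∈ V X, (F z : ℂ) * (om P Q z : ℂ) * xi (-k) z := by
      rw [fc, Finset.mul_sum, ← Finset.sum_sub_distrib]
      refine Finset.sum_congr rfl fun z _ => ?_
      push_cast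
      ring
    rw [e1]
    ring
  have h3 : ∀ a b c : ℂ, ‖a - b - c‖ ^ 2 ≤ 3 * (‖a‖ ^ 2 + ‖b‖ ^ 2 + ‖c‖ ^ 2) := by
    intro a b c
    have e1 : ‖a - b - c‖ ≤ ‖a‖ + ‖b‖ + ‖c‖ :=
      (norm_sub_le _ _).trans (add_le_add_left (norm_sub_le _ _) _)
    have e2 := pow_le_pow_left₀ (norm_nonneg _) e1 2
    nlinarith [sq_nonneg (‖a‖ - ‖b‖), sq_nonneg (‖b‖ - ‖c‖), sq_nonneg (‖a‖ - ‖c‖)]
  -- first part
  have hA1 : ∑ k ∈ fr T, ‖∑ z ∈ V X, ((F z : ℂ) * ((L - om P Q z : ℝ) : ℂ)) * xi (-k) z‖ ^ 2 ≤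
      4 * C1 * C2 * X ^ 2 * L := by
    refine (hls X T (fun z => (F z : ℂ) * ((L - om P Q z : ℝ) : ℂ)) hX1).trans ?_
    have e1 : ∑ z ∈ V X, ‖(F z : ℂ) * ((L - om P Q z : ℝ) : ℂ)‖ ^ 2 =
        ∑ z ∈ V X, (om P Q z - L) ^ 2 := by
      refine Finset.sum_congr rfl fun z hz => ?_
      rw [norm_mul, hF.norm (mem_V.mp hz).2.1, one_mul, Complex.norm_real, Real.norm_eq_abs,
        sq_abs]
      ring
    rw [e1]
    have e2 := htk P Q X hP hPQ hQX
    have e3 : C2 * X * (L + 1) ≤ C2 * X * (2 * L) := by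
      gcongr
      linarith
    calc C1 * (T + X) * ∑ z ∈ V X, (om P Q z - L) ^ 2 ≤ C1 * (X + X) * (C2 * X * (2 * L)) := by
          have e4 : 0 ≤ ∑ z ∈ V X, (om P Q z - L) ^ 2 := Finset.sum_nonneg fun _ _ => sq_nonneg _
          gcongr
          exact e2.trans e3
      _ = 4 * C1 * C2 * X ^ 2 * L := by ring
  -- third part
  have hA3 : ∑ k ∈ fr T, ‖A3 F P Q ρ X k‖ ^ 2 ≤ 16 * C1 * C3 * X ^ 2 * L ^ 2 * ρ := by
    have hexp : Real.exp ρ ≤ 3 := by
      have := Real.exp_one_lt_d9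
      exact (Real.exp_le_exp.mpr hρ1).trans (by linarith)
    have hexp1 : 1 ≤ Real.exp ρ := Real.one_le_exp hρ.le
    have hXe : 1 ≤ X * Real.exp ρ := by nlinarith
    set a : G → ℂ := fun z => if z ∈ V X then 0 else (F z : ℂ) * (mA P Q ρ X z : ℂ) with ha
    have hsub : V X ⊆ V (X * Real.exp ρ) := by
      intro z hz
      rw [mem_V] at hz ⊢
      exact ⟨hz.1.trans (by nlinarith), hz.2⟩
    have e1 : ∀ k, A3 F P Q ρ X k = ∑ z ∈ V (X * Real.exp ρ), a z * xi (-k) z := by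
      intro k
      rw [← Finset.sum_sdiff hsub, A3]
      have e2 : ∑ z ∈ V X, a z * xi (-k) z = 0 := by
        refine Finset.sum_eq_zero fun z hz => ?_
        rw [ha]
        simp [hz]
      rw [e2, add_zero]
      refine Finset.sum_congr rfl fun z hz => ?_
      have e3 : z ∉ V X := (Finset.mem_sdiff.mp hz).2
      rw [ha]
      simp [e3]
    have e2 : ∑ z ∈ V (X * Real.exp ρ), ‖a z‖ ^ 2 ≤ C3 * ρ * X * (2 * L) ^ 2 := by
      rw [← Finset.sum_sdiff hsub]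
      have e3 : ∑ z ∈ V X, ‖a z‖ ^ 2 = 0 := by
        refine Finset.sum_eq_zero fun z hz => ?_
        rw [ha]
        simp [hz]
      rw [e3, add_zero]
      calc ∑ z ∈ V (X * Real.exp ρ) \ V X, ‖a z‖ ^ 2
          ≤ ∑ z ∈ V (X * Real.exp ρ) \ V X, (om P Q z) ^ 2 := by
            refine Finset.sum_le_sum fun z hz => ?_
            have e4 : z ∉ V X := (Finset.mem_sdiff.mp hz).2
            have e5 := (Finset.mem_sdiff.mp hz).1
            have e6 : ‖a z‖ = mA P Q ρ X z := by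
              rw [ha]
              simp only [e4, if_false]
              rw [norm_mul, hF.norm (mem_V.mp e5).2.1, one_mul, Complex.norm_natCast]
            rw [e6]
            exact pow_le_pow_left₀ (Nat.cast_nonneg _) (mA_le P Q ρ X hρ z (V_ne_zero e5)) 2
        _ ≤ C3 * ρ * X * (L + 1) ^ 2 := hann P Q X ρ hP hPQ hQX hρ hρ1 hXρ
        _ ≤ C3 * ρ * X * (2 * L) ^ 2 := by
            gcongr
            linarith
    simp only [e1]
    refine (hls (X * Real.exp ρ) T a hXe).trans ?_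
    calc C1 * (T + X * Real.exp ρ) * ∑ z ∈ V (X * Real.exp ρ), ‖a z‖ ^ 2
        ≤ C1 * (X + X * 3) * (C3 * ρ * X * (2 * L) ^ 2) := by
          have e4 : 0 ≤ ∑ z ∈ V (X * Real.exp ρ), ‖a z‖ ^ 2 :=
            Finset.sum_nonneg fun _ _ => sq_nonneg _
          gcongr
      _ = 16 * C1 * C3 * X ^ 2 * L ^ 2 * ρ := by ring
  -- second part
  have hA2 : ∑ k ∈ fr T, ‖A2 F P Q ρ X k‖ ^ 2 ≤ C4 * (6 * T * X * L ^ 2 + 18 * X ^ 2) := by
    refine (A2_bound hC4 hdls F hF P Q ρ X T hP hρ hρ1 hX1).trans ?_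
    rw [mul_pow, Real.sq_sqrt hC4.le]
    refine mul_le_mul_of_nonneg_left ?_ hC4.le
    have e1 : Real.sqrt (3 * T * X) ^ 2 = 3 * T * X := Real.sq_sqrt (by positivity)
    nlinarith [sq_nonneg (Real.sqrt (3 * T * X) * L - 3 * X)]
  calc ∑ k ∈ fr T, ‖(L : ℂ) * fc F X k - UZ F P Q ρ X k‖ ^ 2
      ≤ ∑ k ∈ fr T, 3 * (‖∑ z ∈ V X, ((F z : ℂ) * ((L - om P Q z : ℝ) : ℂ)) * xi (-k) z‖ ^ 2 +
          ‖A2 F P Q ρ X k‖ ^ 2 + ‖A3 F P Q ρ X k‖ ^ 2) := by
        refine Finset.sum_le_sum fun k _ => ?_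
        rw [hdec]
        exact h3 _ _ _
    _ = 3 * (∑ k ∈ fr T, ‖∑ z ∈ V X, ((F z : ℂ) * ((L - om P Q z : ℝ) : ℂ)) * xi (-k) z‖ ^ 2 +
          ∑ k ∈ fr T, ‖A2 F P Q ρ X k‖ ^ 2 + ∑ k ∈ fr T, ‖A3 F P Q ρ X k‖ ^ 2) := by
        rw [← Finset.mul_sum, Finset.sum_add_distrib, Finset.sum_add_distrib]
    _ ≤ 3 * (4 * C1 * C2 * X ^ 2 * L + C4 * (6 * T * X * L ^ 2 + 18 * X ^ 2) +
          16 * C1 * C3 * X ^ 2 * L ^ 2 * ρ) := by gcongr
    _ ≤ 3 * (4 * C1 * C2 + 18 * C4 + 16 * C1 * C3) * X ^ 2 * L ^ 2 * (1 / L + T / X + ρ) := by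
        have e1 : X ^ 2 * L ^ 2 * (1 / L) = X ^ 2 * L := by field_simp
        have e2 : X ^ 2 * L ^ 2 * (T / X) = T * X * L ^ 2 := by field_simp
        have e3 : X ^ 2 ≤ X ^ 2 * L := by nlinarith [sq_nonneg X]
        have e4 : 3 * (4 * C1 * C2 + 18 * C4 + 16 * C1 * C3) * X ^ 2 * L ^ 2 *
            (1 / L + T / X + ρ) = 3 * (4 * C1 * C2 + 18 * C4 + 16 * C1 * C3) *
              (X ^ 2 * L + T * X * L ^ 2 + X ^ 2 * L ^ 2 * ρ) := by
          rw [← e1, ← e2]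
          ring
        rw [e4]
        have p1 : 0 ≤ C1 * C2 * (T * X * L ^ 2) := by positivity
        have p2 : 0 ≤ C1 * C2 * (X ^ 2 * L ^ 2 * ρ) := by positivity
        have p3 : 0 ≤ C4 * (T * X * L ^ 2) := by positivity
        have p4 : 0 ≤ C4 * (X ^ 2 * L ^ 2 * ρ) := by positivity
        have p5 : 0 ≤ C1 * C3 * (T * X * L ^ 2) := by positivity
        have p6 : 0 ≤ C1 * C3 * (X ^ 2 * L) := by positivity
        have p7 : C4 * X ^ 2 ≤ C4 * (X ^ 2 * L) := mul_le_mul_of_nonneg_left e3 hC4.le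
        nlinarith

end Pool.Agent.GaussMR

end

/-! ### from `Lib_MP_f1a94e_mu.StageM` -/

section

/-!
# Piece STAGEM: one stage, without the error term `T / X`
-/

set_option autoImplicit false

namespace Pool.Agent.GaussMR

theorem sm_mul_star (z : G) : z * star z = ((nm z : ℕ) : G) := by
  apply Zsqrtd.ext
  · have := nm_eq z
    simp only [Zsqrtd.re_mul, Zsqrtd.re_star, Zsqrtd.im_star, Zsqrtd.re_natCast]
    rw [this]
    ring
  · simp only [Zsqrtd.im_mul, Zsqrtd.re_star, Zsqrtd.im_star, Zsqrtd.im_natCast]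
    ring

open Classical in
/-- the substitution `z = star w * z'` -/
theorem sm_sub (F : G → ℝ) (hF : PM F) {w : G} (hw : Spl w) (X Y : ℝ) (k : ℤ) (hX : 0 ≤ X)
    (hYX : Y ≤ X) :
    (F w : ℂ) * xi (-k) w * ∑ z ∈ (V Y).filter (fun z => star w ∣ z), (F z : ℂ) * xi (-k) z =
      ∑ z ∈ (V (3 * X)).filter (fun z => ¬ w ∣ z ∧ (nm w : ℝ) * nm z ≤ Y),
        (F z : ℂ) * xi (-k) z := by
  have hw' : Spl (star w) := hw.conj
  have hw0 : w ≠ 0 := ne_zero_of_odd hw.odd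
  have hw0' : star w ≠ 0 := ne_zero_of_odd hw'.odd
  have hnw1 : (1 : ℝ) ≤ nm w := by exact_mod_cast nm_pos hw0
  rw [Finset.mul_sum]
  symm
  refine Finset.sum_bij (fun z _ => star w * z) ?_ ?_ ?_ ?_
  · intro z hz
    rw [Finset.mem_filter, mem_V] at hz
    obtain ⟨⟨h1, h2, h3⟩, h4, h5⟩ := hz
    rw [Finset.mem_filter, mem_V]
    refine ⟨⟨?_, odd_nm_mul.mpr ⟨hw'.odd, h2⟩, ?_⟩, dvd_mul_right _ _⟩
    · rw [nm_mul, nm_star]
      push_cast
      exact h5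
    · refine (prim_mul_iff hw' h3).mpr ?_
      rwa [star_star]
  · intro z _ z' _ h
    exact mul_left_cancel₀ hw0' h
  · intro z' hz'
    rw [Finset.mem_filter, mem_V] at hz'
    obtain ⟨⟨h1, h2, h3⟩, ⟨z, rfl⟩⟩ := hz'
    have hz2 : Prim z := (prim_of_mul h3).2
    refine ⟨z, ?_, rfl⟩
    rw [nm_mul, nm_star] at h1
    push_cast at h1
    rw [Finset.mem_filter, mem_V]
    refine ⟨⟨?_, (odd_nm_mul.mp h2).2, hz2⟩, ?_, h1⟩
    · have h5 : (0 : ℝ) ≤ nm z := Nat.cast_nonneg _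
      have h6 : (nm z : ℝ) ≤ nm w * nm z := by nlinarith
      linarith
    · have := (prim_mul_iff hw' hz2).mp h3
      rwa [star_star] at this
  · intro z hz
    rw [Finset.mem_filter, mem_V] at hz
    have hz1 := hz.1.2.1
    have e1 : (F w : ℂ) * (F (star w * z) : ℂ) = (F z : ℂ) := by
      rw [hF.mul (star w) z hw'.odd hz1, hF.conj w hw.odd]
      have := hF.sq hw.odd
      have h2 : F w * (F w * F z) = F z := by
        calc F w * (F w * F z) = F w ^ 2 * F z := by ring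
          _ = F z := by rw [this, one_mul]
      exact_mod_cast h2
    have e2 : xi (-k) w * xi (-k) (star w * z) = xi (-k) z := by
      rw [← xi_mul, ← mul_assoc, sm_mul_star, xi_natCast_mul _ (nm_pos hw0)]
    calc (F z : ℂ) * xi (-k) z = ((F w : ℂ) * (F (star w * z) : ℂ)) *
          (xi (-k) w * xi (-k) (star w * z)) := by rw [e1, e2]
      _ = _ := by ring

open Classical in
/-- number of representations -/
noncomputable def smc (P Q ρ X : ℝ) (z : G) : ℝ :=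
  ∑ v ∈ Finset.range (nv Q ρ), ∑ w ∈ blk P Q ρ v,
    if ¬ w ∣ z ∧ (nm w : ℝ) * nm z ≤ X * Real.exp (-(v * ρ)) then 1 else 0

theorem sm_A2_eq (F : G → ℝ) (hF : PM F) (P Q ρ X : ℝ) (k : ℤ) (hρ : 0 < ρ) (hX : 0 ≤ X) :
    A2 F P Q ρ X k = ∑ z ∈ V (3 * X), ((smc P Q ρ X z : ℂ) * (F z : ℂ)) * xi (-k) z := by
  classical
  unfold A2
  have h1 : ∀ v ∈ Finset.range (nv Q ρ), ∑ w ∈ blk P Q ρ v, (F w : ℂ) * xi (-k) w *
      ∑ z ∈ (V (X * Real.exp (-(v * ρ)))).filter (fun z => star w ∣ z), (F z : ℂ) * xi (-k) z =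
      ∑ w ∈ blk P Q ρ v, ∑ z ∈ V (3 * X),
        if ¬ w ∣ z ∧ (nm w : ℝ) * nm z ≤ X * Real.exp (-(v * ρ)) then
          (F z : ℂ) * xi (-k) z else 0 := by
    intro v _
    refine Finset.sum_congr rfl fun w hw => ?_
    have hsp := PP_spl (mem_blk.mp hw).1
    have hexp : Real.exp (-(v * ρ)) ≤ 1 := by
      rw [Real.exp_le_one_iff]
      have : (0 : ℝ) ≤ v * ρ := by positivity
      linarith
    rw [sm_sub F hF hsp X _ k hX (by nlinarith), Finset.sum_filter]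
  rw [Finset.sum_congr rfl h1]
  have h2 : ∀ v ∈ Finset.range (nv Q ρ), (∑ w ∈ blk P Q ρ v, ∑ z ∈ V (3 * X),
        if ¬ w ∣ z ∧ (nm w : ℝ) * nm z ≤ X * Real.exp (-(v * ρ)) then
          (F z : ℂ) * xi (-k) z else 0) = ∑ z ∈ V (3 * X), ∑ w ∈ blk P Q ρ v,
        if ¬ w ∣ z ∧ (nm w : ℝ) * nm z ≤ X * Real.exp (-(v * ρ)) then
          (F z : ℂ) * xi (-k) z else 0 := fun v _ => Finset.sum_comm
  rw [Finset.sum_congr rfl h2, Finset.sum_comm]
  refine Finset.sum_congr rfl fun z _ => ?_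
  unfold smc
  push_cast
  rw [Finset.sum_mul, Finset.sum_mul]
  refine Finset.sum_congr rfl fun v _ => ?_
  rw [Finset.sum_mul, Finset.sum_mul]
  refine Finset.sum_congr rfl fun w _ => ?_
  split_ifs <;> simp

open Classical in
theorem smc_le (P Q ρ X : ℝ) (hρ : 0 < ρ) (hρ1 : ρ ≤ 1) (hX : 0 ≤ X) (z : G) :
    smc P Q ρ X z ≤ ∑ w ∈ PP P Q, if (nm w : ℝ) ^ 2 * nm z ≤ 3 * X then 1 else 0 := by
  have hexp : Real.exp ρ ≤ 3 := by
    have := Real.exp_one_lt_d9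
    exact (Real.exp_le_exp.mpr hρ1).trans (by linarith)
  refine le_trans ?_ (sum_blk_le (P := P) (Q := Q) hρ
    (fun w => if (nm w : ℝ) ^ 2 * nm z ≤ 3 * X then 1 else 0)
    (fun w _ => by split_ifs <;> norm_num))
  unfold smc
  refine Finset.sum_le_sum fun v _ => Finset.sum_le_sum fun w hw => ?_
  by_cases h : ¬ w ∣ z ∧ (nm w : ℝ) * nm z ≤ X * Real.exp (-(v * ρ))
  · have h2 : (nm w : ℝ) ^ 2 * nm z ≤ 3 * X := by
      have h3 := (mem_blk.mp hw).2.2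
      calc (nm w : ℝ) ^ 2 * nm z = nm w * ((nm w : ℝ) * nm z) := by ring
        _ ≤ Real.exp ((v + 1) * ρ) * (X * Real.exp (-(v * ρ))) :=
            mul_le_mul h3 h.2 (by positivity) (by positivity)
        _ = Real.exp ρ * X := by
            rw [show (Real.exp ((v + 1) * ρ) * (X * Real.exp (-(v * ρ))) : ℝ) =
              (Real.exp ((v + 1) * ρ) * Real.exp (-(v * ρ))) * X by ring, ← Real.exp_add]
            congr 2
            ring
        _ ≤ 3 * X := by nlinarith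
    rw [if_pos h, if_pos h2]
  · rw [if_neg h]
    split_ifs <;> norm_num

open Classical in
/-- the second moment of the number of representations -/
theorem sm_second (P Q X : ℝ) (hP : 1 ≤ P) (hX : 0 ≤ X) :
    ∑ z ∈ V (3 * X), (∑ w ∈ PP P Q, if (nm w : ℝ) ^ 2 * nm z ≤ 3 * X then (1 : ℝ) else 0) ^ 2 ≤
      54 * X * Ls P Q := by
  have hpos : ∀ w ∈ PP P Q, (0 : ℝ) < nm w := by
    intro w hw
    have := (mem_PP.mp hw).1
    linarith
  set h : G → G → ℝ := fun w z => if (nm w : ℝ) ^ 2 * nm z ≤ 3 * X then 1 else 0 with hh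
  have hh0 : ∀ w z, 0 ≤ h w z := by
    intro w z
    simp only [hh]
    split_ifs <;> norm_num
  have hh1 : ∀ w z, h w z ≤ 1 := by
    intro w z
    simp only [hh]
    split_ifs <;> norm_num
  -- one column
  have hcol : ∀ w ∈ PP P Q, ∑ z ∈ V (3 * X), h w z ≤ 27 * X / (nm w : ℝ) ^ 2 := by
    intro w hw
    have hp := hpos w hw
    have h1 : ∑ z ∈ V (3 * X), h w z =
        (((V (3 * X)).filter (fun z => (nm w : ℝ) ^ 2 * nm z ≤ 3 * X)).card : ℝ) := by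
      rw [Finset.card_filter]
      push_cast
      rfl
    rw [h1]
    have h2 : (V (3 * X)).filter (fun z => (nm w : ℝ) ^ 2 * nm z ≤ 3 * X) ⊆
        (ball (3 * X / (nm w : ℝ) ^ 2)).filter (fun z => z ≠ 0) := by
      intro z hz
      rw [Finset.mem_filter] at hz ⊢
      refine ⟨?_, V_ne_zero hz.1⟩
      rw [mem_ball, le_div_iff₀ (by positivity), mul_comm]
      exact hz.2
    have h3 : (((V (3 * X)).filter (fun z => (nm w : ℝ) ^ 2 * nm z ≤ 3 * X)).card : ℝ) ≤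
        (((ball (3 * X / (nm w : ℝ) ^ 2)).filter (fun z => z ≠ 0)).card : ℝ) := by
      exact Nat.cast_le.mpr (Finset.card_le_card h2)
    refine h3.trans ((card_ball_le _ (by positivity)).trans (le_of_eq ?_))
    ring
  -- pairs
  have hpair : ∀ w1 ∈ PP P Q, ∀ w2 ∈ PP P Q, ∑ z ∈ V (3 * X), h w1 z * h w2 z ≤
      (if nm w1 ≤ nm w2 then 27 * X / (nm w2 : ℝ) ^ 2 else 0) +
        (if nm w2 ≤ nm w1 then 27 * X / (nm w1 : ℝ) ^ 2 else 0) := by
    intro w1 hw1 w2 hw2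
    have p1 := hpos w1 hw1
    have p2 := hpos w2 hw2
    have q1 : (0 : ℝ) ≤ if nm w1 ≤ nm w2 then 27 * X / (nm w2 : ℝ) ^ 2 else 0 := by
      split_ifs
      · positivity
      · exact le_rfl
    have q2 : (0 : ℝ) ≤ if nm w2 ≤ nm w1 then 27 * X / (nm w1 : ℝ) ^ 2 else 0 := by
      split_ifs
      · positivity
      · exact le_rfl
    rcases le_total (nm w1) (nm w2) with hle | hle
    · have e1 : ∑ z ∈ V (3 * X), h w1 z * h w2 z ≤ ∑ z ∈ V (3 * X), h w2 z :=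
        Finset.sum_le_sum fun z _ => by nlinarith [hh0 w1 z, hh1 w1 z, hh0 w2 z]
      have e2 := hcol w2 hw2
      have e3 : (if nm w1 ≤ nm w2 then 27 * X / (nm w2 : ℝ) ^ 2 else 0) =
          27 * X / (nm w2 : ℝ) ^ 2 := if_pos hle
      linarith
    · have e1 : ∑ z ∈ V (3 * X), h w1 z * h w2 z ≤ ∑ z ∈ V (3 * X), h w1 z :=
        Finset.sum_le_sum fun z _ => by nlinarith [hh0 w2 z, hh1 w2 z, hh0 w1 z]
      have e2 := hcol w1 hw1
      have e3 : (if nm w2 ≤ nm w1 then 27 * X / (nm w1 : ℝ) ^ 2 else 0) =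
          27 * X / (nm w1 : ℝ) ^ 2 := if_pos hle
      linarith
  -- number of smaller primes
  have hcount : ∀ w2 ∈ PP P Q, ∑ w1 ∈ PP P Q, (if nm w1 ≤ nm w2 then 27 * X / (nm w2 : ℝ) ^ 2
      else 0) ≤ 27 * X * (1 / (nm w2 : ℝ)) := by
    intro w2 hw2
    have p2 := hpos w2 hw2
    rw [← Finset.sum_filter, Finset.sum_const, nsmul_eq_mul]
    have e1 : ((PP P Q).filter (fun w1 => nm w1 ≤ nm w2)).card ≤ nm w2 := by
      have hinj : Set.InjOn nm (((PP P Q).filter (fun w1 => nm w1 ≤ nm w2) : Finset G) : Set G) := by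
        intro w hw w' hw' he
        rw [Finset.mem_coe, Finset.mem_filter] at hw hw'
        exact PP_inj hw.1 hw'.1 he
      have hmaps : ∀ w ∈ (PP P Q).filter (fun w1 => nm w1 ≤ nm w2), nm w ∈ Finset.Icc 1 (nm w2) := by
        intro w hw
        rw [Finset.mem_filter] at hw
        rw [Finset.mem_Icc]
        refine ⟨?_, hw.2⟩
        have := hpos w hw.1
        have h3 : 0 < nm w := by exact_mod_cast this
        exact h3
      have := Finset.card_le_card_of_injOn nm hmaps hinj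
      simpa using this
    have e2 : (((PP P Q).filter (fun w1 => nm w1 ≤ nm w2)).card : ℝ) ≤ nm w2 := by
      exact_mod_cast e1
    calc (((PP P Q).filter (fun w1 => nm w1 ≤ nm w2)).card : ℝ) * (27 * X / (nm w2 : ℝ) ^ 2)
        ≤ (nm w2 : ℝ) * (27 * X / (nm w2 : ℝ) ^ 2) :=
          mul_le_mul_of_nonneg_right e2 (by positivity)
      _ = 27 * X * (1 / (nm w2 : ℝ)) := by field_simp
  have hsq : ∀ z, (∑ w ∈ PP P Q, h w z) ^ 2 = ∑ w1 ∈ PP P Q, ∑ w2 ∈ PP P Q, h w1 z * h w2 z := by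
    intro z
    rw [sq, Finset.sum_mul_sum]
  calc ∑ z ∈ V (3 * X), (∑ w ∈ PP P Q, h w z) ^ 2
      = ∑ z ∈ V (3 * X), ∑ w1 ∈ PP P Q, ∑ w2 ∈ PP P Q, h w1 z * h w2 z :=
        Finset.sum_congr rfl fun z _ => hsq z
    _ = ∑ w1 ∈ PP P Q, ∑ w2 ∈ PP P Q, ∑ z ∈ V (3 * X), h w1 z * h w2 z := by
        rw [Finset.sum_comm]
        exact Finset.sum_congr rfl fun w1 _ => Finset.sum_comm
    _ ≤ ∑ w1 ∈ PP P Q, ∑ w2 ∈ PP P Q,
          ((if nm w1 ≤ nm w2 then 27 * X / (nm w2 : ℝ) ^ 2 else 0) +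
            (if nm w2 ≤ nm w1 then 27 * X / (nm w1 : ℝ) ^ 2 else 0)) :=
        Finset.sum_le_sum fun w1 h1 => Finset.sum_le_sum fun w2 h2 => hpair w1 h1 w2 h2
    _ = ∑ w2 ∈ PP P Q, ∑ w1 ∈ PP P Q, (if nm w1 ≤ nm w2 then 27 * X / (nm w2 : ℝ) ^ 2 else 0) +
          ∑ w1 ∈ PP P Q, ∑ w2 ∈ PP P Q,
            (if nm w2 ≤ nm w1 then 27 * X / (nm w1 : ℝ) ^ 2 else 0) := by
        simp only [Finset.sum_add_distrib]
        congr 1
        exact Finset.sum_comm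
    _ ≤ ∑ w2 ∈ PP P Q, 27 * X * (1 / (nm w2 : ℝ)) + ∑ w1 ∈ PP P Q, 27 * X * (1 / (nm w1 : ℝ)) :=
        add_le_add (Finset.sum_le_sum hcount) (Finset.sum_le_sum hcount)
    _ = 54 * X * Ls P Q := by
        rw [← Finset.mul_sum]
        unfold Ls
        ring

/-- better bound for the non primitive terms: with `z = star w * z'` (`z'` primitive, `¬ w ∣ z'`, cf.
`prim_mul_iff`) one has `F w F z xi_{-k}(w z) = F z' xi_{-k}(z')` (`F w F (star w) = 1`,
`w * star w = nm w` has direction `1`: `xi_natCast_mul`). So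
`A2 = ∑_{z'} c(z') F z' xi_{-k}(z')`, `c(z')` = number of pairs `(v, w)`, `w ∈ blk v`, `¬ w ∣ z'`,
`nm w * nm z' ≤ X e^(-vρ)`; such pairs have `nm w ^ 2 * nm z' ≤ X e^ρ ≤ 3 X`, in particular all `z'` with
`c(z') ≠ 0` lie in `V (3 X)`. `large_sieve` on `V (3 X)`: `≤ C (T + 3 X) ∑ c(z')²`, and
`∑ c(z')² ≤ ∑_{w1, w2} #{z' ≠ 0 : nm z' ≤ 3 X / max(nm w1, nm w2)²} ≤ 2 ∑_{w2} ∑_{nm w1 ≤ nm w2} 27 X / (nm w2)²
≤ 54 X ∑_{w2} 1 / nm w2 = 54 X Ls` (`card_ball_le`; the number of `w1` in `PP` with `nm w1 ≤ nm w2` is at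
most `nm w2` because distinct elements have distinct norms, `PP_inj`). -/
theorem A2_small : ∃ C : ℝ, 0 < C ∧ ∀ (F : G → ℝ), PM F → ∀ (P Q ρ X : ℝ) (T : ℕ),
    2 ≤ P → 0 < ρ → ρ ≤ 1 → 1 ≤ X → (T : ℝ) ≤ X →
    ∑ k ∈ fr T, ‖A2 F P Q ρ X k‖ ^ 2 ≤ C * X ^ 2 * Ls P Q := by
  classical
  obtain ⟨C1, hC1, hls⟩ := large_sieve
  refine ⟨216 * C1, by positivity, ?_⟩
  intro F hF P Q ρ X T hP hρ hρ1 hX hTX
  have hX0 : 0 < X := by linarith
  simp only [sm_A2_eq F hF P Q ρ X _ hρ hX0.le]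
  refine (hls (3 * X) T (fun z => (smc P Q ρ X z : ℂ) * (F z : ℂ)) (by linarith)).trans ?_
  have h1 : ∑ z ∈ V (3 * X), ‖(smc P Q ρ X z : ℂ) * (F z : ℂ)‖ ^ 2 ≤ 54 * X * Ls P Q := by
    refine le_trans (Finset.sum_le_sum fun z hz => ?_) (sm_second P Q X (by linarith) hX0.le)
    rw [norm_mul, hF.norm (mem_V.mp hz).2.1, mul_one, Complex.norm_real, Real.norm_eq_abs,
      sq_abs]
    have h2 : 0 ≤ smc P Q ρ X z := by
      unfold smc
      refine Finset.sum_nonneg fun v _ => Finset.sum_nonneg fun w _ => ?_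
      split_ifs <;> norm_num
    exact pow_le_pow_left₀ h2 (smc_le P Q ρ X hρ hρ1 hX0.le z) 2
  have h3 : 0 ≤ Ls P Q := Finset.sum_nonneg fun w _ => by positivity
  calc C1 * (T + 3 * X) * ∑ z ∈ V (3 * X), ‖(smc P Q ρ X z : ℂ) * (F z : ℂ)‖ ^ 2
      ≤ C1 * (X + 3 * X) * (54 * X * Ls P Q) := by
        apply mul_le_mul _ h1 (Finset.sum_nonneg fun _ _ => by positivity) (by positivity)
        apply mul_le_mul_of_nonneg_left _ hC1.le
        linarith
    _ = 216 * C1 * X ^ 2 * Ls P Q := by ring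

/-- as `stage` (Lib_MP_f1a94e_mr/Stage.lean), with `A2_small` in place of `A2_bound` -/
theorem stageM : ∃ C : ℝ, 0 < C ∧ ∀ (F : G → ℝ), PM F → ∀ (P Q ρ X : ℝ) (T : ℕ),
    2 ≤ P → P ≤ Q → Q ^ 20 ≤ X → 0 < ρ → ρ ≤ 1 → X ^ (-(1 / 4 : ℝ)) ≤ ρ → (T : ℝ) ≤ X →
    1 ≤ Ls P Q →
    ∑ k ∈ fr T, ‖(Ls P Q : ℂ) * fc F X k - UZ F P Q ρ X k‖ ^ 2 ≤
      C * X ^ 2 * Ls P Q ^ 2 * (1 / Ls P Q + ρ) := by
  classical
  obtain ⟨C1, hC1, hls⟩ := large_sieve
  obtain ⟨C2, hC2, htk⟩ := TK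
  obtain ⟨C3, hC3, hann⟩ := annulus
  obtain ⟨C4, hC4, hA2s⟩ := A2_small
  refine ⟨3 * (4 * C1 * C2 + C4 + 16 * C1 * C3), by positivity, ?_⟩
  intro F hF P Q ρ X T hP hPQ hQX hρ hρ1 hXρ hTX hLs
  have hQ2 : 2 ≤ Q := hP.trans hPQ
  have hX1 : 1 ≤ X := (one_le_pow₀ (by linarith : (1 : ℝ) ≤ Q)).trans hQX
  have hX0 : 0 < X := by linarith
  have hLs0 : 0 < Ls P Q := by linarith
  set L := Ls P Q with hL
  -- the three parts
  have hdec : ∀ k, (L : ℂ) * fc F X k - UZ F P Q ρ X k =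
      ∑ z ∈ V X, ((F z : ℂ) * ((L - om P Q z : ℝ) : ℂ)) * xi (-k) z - A2 F P Q ρ X k -
        A3 F P Q ρ X k := by
    intro k
    rw [stage_id F hF P Q ρ X k (by linarith) hPQ hρ hX1]
    have e1 : ∑ z ∈ V X, ((F z : ℂ) * ((L - om P Q z : ℝ) : ℂ)) * xi (-k) z =
        (L : ℂ) * fc F X k - ∑ z ∈ V X, (F z : ℂ) * (om P Q z : ℂ) * xi (-k) z := by
      rw [fc, Finset.mul_sum, ← Finset.sum_sub_distrib]
      refine Finset.sum_congr rfl fun z _ => ?_
      push_cast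
      ring
    rw [e1]
    ring
  have h3 : ∀ a b c : ℂ, ‖a - b - c‖ ^ 2 ≤ 3 * (‖a‖ ^ 2 + ‖b‖ ^ 2 + ‖c‖ ^ 2) := by
    intro a b c
    have e1 : ‖a - b - c‖ ≤ ‖a‖ + ‖b‖ + ‖c‖ :=
      (norm_sub_le _ _).trans (add_le_add_left (norm_sub_le _ _) _)
    have e2 := pow_le_pow_left₀ (norm_nonneg _) e1 2
    nlinarith [sq_nonneg (‖a‖ - ‖b‖), sq_nonneg (‖b‖ - ‖c‖), sq_nonneg (‖a‖ - ‖c‖)]
  -- first part
  have hA1 : ∑ k ∈ fr T, ‖∑ z ∈ V X, ((F z : ℂ) * ((L - om P Q z : ℝ) : ℂ)) * xi (-k) z‖ ^ 2 ≤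
      4 * C1 * C2 * X ^ 2 * L := by
    refine (hls X T (fun z => (F z : ℂ) * ((L - om P Q z : ℝ) : ℂ)) hX1).trans ?_
    have e1 : ∑ z ∈ V X, ‖(F z : ℂ) * ((L - om P Q z : ℝ) : ℂ)‖ ^ 2 =
        ∑ z ∈ V X, (om P Q z - L) ^ 2 := by
      refine Finset.sum_congr rfl fun z hz => ?_
      rw [norm_mul, hF.norm (mem_V.mp hz).2.1, one_mul, Complex.norm_real, Real.norm_eq_abs,
        sq_abs]
      ring
    rw [e1]
    have e2 := htk P Q X hP hPQ hQX
    have e3 : C2 * X * (L + 1) ≤ C2 * X * (2 * L) := by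
      gcongr
      linarith
    calc C1 * (T + X) * ∑ z ∈ V X, (om P Q z - L) ^ 2 ≤ C1 * (X + X) * (C2 * X * (2 * L)) := by
          have e4 : 0 ≤ ∑ z ∈ V X, (om P Q z - L) ^ 2 := Finset.sum_nonneg fun _ _ => sq_nonneg _
          gcongr
          exact e2.trans e3
      _ = 4 * C1 * C2 * X ^ 2 * L := by ring
  -- third part
  have hA3 : ∑ k ∈ fr T, ‖A3 F P Q ρ X k‖ ^ 2 ≤ 16 * C1 * C3 * X ^ 2 * L ^ 2 * ρ := by
    have hexp : Real.exp ρ ≤ 3 := by
      have := Real.exp_one_lt_d9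
      exact (Real.exp_le_exp.mpr hρ1).trans (by linarith)
    have hexp1 : 1 ≤ Real.exp ρ := Real.one_le_exp hρ.le
    have hXe : 1 ≤ X * Real.exp ρ := by nlinarith
    set a : G → ℂ := fun z => if z ∈ V X then 0 else (F z : ℂ) * (mA P Q ρ X z : ℂ) with ha
    have hsub : V X ⊆ V (X * Real.exp ρ) := by
      intro z hz
      rw [mem_V] at hz ⊢
      exact ⟨hz.1.trans (by nlinarith), hz.2⟩
    have e1 : ∀ k, A3 F P Q ρ X k = ∑ z ∈ V (X * Real.exp ρ), a z * xi (-k) z := by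
      intro k
      rw [← Finset.sum_sdiff hsub, A3]
      have e2 : ∑ z ∈ V X, a z * xi (-k) z = 0 := by
        refine Finset.sum_eq_zero fun z hz => ?_
        rw [ha]
        simp [hz]
      rw [e2, add_zero]
      refine Finset.sum_congr rfl fun z hz => ?_
      have e3 : z ∉ V X := (Finset.mem_sdiff.mp hz).2
      rw [ha]
      simp [e3]
    have e2 : ∑ z ∈ V (X * Real.exp ρ), ‖a z‖ ^ 2 ≤ C3 * ρ * X * (2 * L) ^ 2 := by
      rw [← Finset.sum_sdiff hsub]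
      have e3 : ∑ z ∈ V X, ‖a z‖ ^ 2 = 0 := by
        refine Finset.sum_eq_zero fun z hz => ?_
        rw [ha]
        simp [hz]
      rw [e3, add_zero]
      calc ∑ z ∈ V (X * Real.exp ρ) \ V X, ‖a z‖ ^ 2
          ≤ ∑ z ∈ V (X * Real.exp ρ) \ V X, (om P Q z) ^ 2 := by
            refine Finset.sum_le_sum fun z hz => ?_
            have e4 : z ∉ V X := (Finset.mem_sdiff.mp hz).2
            have e5 := (Finset.mem_sdiff.mp hz).1
            have e6 : ‖a z‖ = mA P Q ρ X z := by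
              rw [ha]
              simp only [e4, if_false]
              rw [norm_mul, hF.norm (mem_V.mp e5).2.1, one_mul, Complex.norm_natCast]
            rw [e6]
            exact pow_le_pow_left₀ (Nat.cast_nonneg _) (mA_le P Q ρ X hρ z (V_ne_zero e5)) 2
        _ ≤ C3 * ρ * X * (L + 1) ^ 2 := hann P Q X ρ hP hPQ hQX hρ hρ1 hXρ
        _ ≤ C3 * ρ * X * (2 * L) ^ 2 := by
            gcongr
            linarith
    simp only [e1]
    refine (hls (X * Real.exp ρ) T a hXe).trans ?_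
    calc C1 * (T + X * Real.exp ρ) * ∑ z ∈ V (X * Real.exp ρ), ‖a z‖ ^ 2
        ≤ C1 * (X + X * 3) * (C3 * ρ * X * (2 * L) ^ 2) := by
          have e4 : 0 ≤ ∑ z ∈ V (X * Real.exp ρ), ‖a z‖ ^ 2 :=
            Finset.sum_nonneg fun _ _ => sq_nonneg _
          gcongr
      _ = 16 * C1 * C3 * X ^ 2 * L ^ 2 * ρ := by ring
  -- second part
  have hA2 : ∑ k ∈ fr T, ‖A2 F P Q ρ X k‖ ^ 2 ≤ C4 * X ^ 2 * L :=
    hA2s F hF P Q ρ X T hP hρ hρ1 hX1 hTX
  calc ∑ k ∈ fr T, ‖(L : ℂ) * fc F X k - UZ F P Q ρ X k‖ ^ 2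
      ≤ ∑ k ∈ fr T, 3 * (‖∑ z ∈ V X, ((F z : ℂ) * ((L - om P Q z : ℝ) : ℂ)) * xi (-k) z‖ ^ 2 +
          ‖A2 F P Q ρ X k‖ ^ 2 + ‖A3 F P Q ρ X k‖ ^ 2) := by
        refine Finset.sum_le_sum fun k _ => ?_
        rw [hdec]
        exact h3 _ _ _
    _ = 3 * (∑ k ∈ fr T, ‖∑ z ∈ V X, ((F z : ℂ) * ((L - om P Q z : ℝ) : ℂ)) * xi (-k) z‖ ^ 2 +
          ∑ k ∈ fr T, ‖A2 F P Q ρ X k‖ ^ 2 + ∑ k ∈ fr T, ‖A3 F P Q ρ X k‖ ^ 2) := by
        rw [← Finset.mul_sum, Finset.sum_add_distrib, Finset.sum_add_distrib]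
    _ ≤ 3 * (4 * C1 * C2 * X ^ 2 * L + C4 * X ^ 2 * L +
          16 * C1 * C3 * X ^ 2 * L ^ 2 * ρ) := by gcongr
    _ ≤ 3 * (4 * C1 * C2 + C4 + 16 * C1 * C3) * X ^ 2 * L ^ 2 * (1 / L + ρ) := by
        have e1 : X ^ 2 * L ^ 2 * (1 / L) = X ^ 2 * L := by field_simp
        have e4 : 3 * (4 * C1 * C2 + C4 + 16 * C1 * C3) * X ^ 2 * L ^ 2 *
            (1 / L + ρ) = 3 * (4 * C1 * C2 + C4 + 16 * C1 * C3) *
              (X ^ 2 * L + X ^ 2 * L ^ 2 * ρ) := by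
          rw [← e1]
          ring
        rw [e4]
        have p2 : 0 ≤ C1 * C2 * (X ^ 2 * L ^ 2 * ρ) := by positivity
        have p4 : 0 ≤ C4 * (X ^ 2 * L ^ 2 * ρ) := by positivity
        have p6 : 0 ≤ C1 * C3 * (X ^ 2 * L) := by positivity
        nlinarith

end Pool.Agent.GaussMR

end

/-! ### from `Lib_MP_92ef0c_spm.Small1S` -/

section

/-!
# first stage
-/

set_option autoImplicit false

namespace Pool.Agent.SplM

open Pool.Agent.GaussMR (fr mem_fr nv Ls)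

/-- Copy of `small1` (Lib_MP_f1a94e_ecc/Small1.lean): Cauchy-Schwarz over the blocks, blocks with
`(v+1) ρ ≤ log P` are empty; with `Y = X e^(-vρ) ≥ X / Q ≥ 1`, `C e^(-vρ) D ≤ Y`, `T ≤ N X / Q ≤ N Y`, `lsB` gives
`∑_k ‖Ps (C e^(-vρ)) D‖² ≤ A (T + N Y) card (PB ..) ≤ 2 A N Y²` (`card_PB_le`). -/
theorem small1S : ∃ A : ℝ, 0 < A ∧ ∀ (f g : ℕ → ℂ), CMN f → (∀ n, ‖g n‖ ≤ 1) →
    ∀ (P Q ρ C D X α : ℝ) (N T : ℕ) (S : Finset ℤ), 2 ≤ P → P ≤ Q → Q ≤ X → 0 < ρ → ρ ≤ 1 → 0 ≤ α → α ≤ 1 →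
    1 ≤ N → 0 ≤ C → 0 ≤ D → C * D ≤ X → Real.log X ≤ 3 * N → (T : ℝ) ≤ N * X / Q → S ⊆ fr T →
    (∀ k ∈ S, ∀ v : ℕ, ‖Up f N P Q ρ v k‖ ≤ Real.exp ((1 - α) * (v * ρ))) →
    ∑ k ∈ S, ‖UZs f g N P Q ρ C D k‖ ^ 2 ≤ A * N * X ^ 2 * (Real.log Q / ρ + 1) ^ 2 * P ^ (-(2 * α)) := by
  classical
  obtain ⟨A0, hA0, hLS⟩ := lsB
  refine ⟨2 * Real.exp 2 * A0, by positivity, ?_⟩
  intro f g hf hgb P Q ρ C D X α N T S hP hPQ hQX hρ hρ1 hα hα1 hN hC hD hCD hlogX hT hS hU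
  have hP0 : 0 < P := by linarith
  have hQ0 : 0 < Q := by linarith
  have hX0 : 0 < X := by linarith
  have hNr : (1 : ℝ) ≤ N := by exact_mod_cast hN
  have hN0 : (0 : ℝ) < N := by linarith
  set n : ℕ := nv Q ρ with hn
  have hlogQ : 0 ≤ Real.log Q := Real.log_nonneg (by linarith)
  have hnle : (n : ℝ) ≤ Real.log Q / ρ + 1 := by
    rw [hn, nv]
    push_cast
    have := Nat.floor_le (show 0 ≤ Real.log Q / ρ by positivity)
    linarith
  have hn0 : (0 : ℝ) ≤ n := Nat.cast_nonneg n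
  -- Cauchy-Schwarz
  have hCS : ∀ k : ℤ, ‖UZs f g N P Q ρ C D k‖ ^ 2 ≤
      n * ∑ v ∈ Finset.range n, (‖Up f N P Q ρ v k‖ ^ 2 *
        ‖Ps f g (C * Real.exp (-(v * ρ))) D ((k : ℝ) / N)‖ ^ 2) := by
    intro k
    have h1 : ‖UZs f g N P Q ρ C D k‖ ≤
        ∑ v ∈ Finset.range n, (‖Up f N P Q ρ v k‖ * ‖Ps f g (C * Real.exp (-(v * ρ))) D ((k : ℝ) / N)‖) := by
      unfold UZs
      refine (norm_sum_le _ _).trans (le_of_eq ?_)
      refine Finset.sum_congr rfl fun v _ => ?_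
      rw [norm_mul]
    have h2 : (∑ v ∈ Finset.range n, (‖Up f N P Q ρ v k‖ * ‖Ps f g (C * Real.exp (-(v * ρ))) D ((k : ℝ) / N)‖)) ^ 2 ≤
        n * ∑ v ∈ Finset.range n, (‖Up f N P Q ρ v k‖ * ‖Ps f g (C * Real.exp (-(v * ρ))) D ((k : ℝ) / N)‖) ^ 2 := by
      have := sq_sum_le_card_mul_sum_sq (s := Finset.range n)
        (f := fun v : ℕ => ‖Up f N P Q ρ v k‖ * ‖Ps f g (C * Real.exp (-(v * ρ))) D ((k : ℝ) / N)‖)
      rwa [Finset.card_range] at this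
    calc ‖UZs f g N P Q ρ C D k‖ ^ 2 ≤
        (∑ v ∈ Finset.range n, (‖Up f N P Q ρ v k‖ * ‖Ps f g (C * Real.exp (-(v * ρ))) D ((k : ℝ) / N)‖)) ^ 2 :=
          pow_le_pow_left₀ (norm_nonneg _) h1 2
      _ ≤ n * ∑ v ∈ Finset.range n,
          (‖Up f N P Q ρ v k‖ * ‖Ps f g (C * Real.exp (-(v * ρ))) D ((k : ℝ) / N)‖) ^ 2 := h2
      _ = _ := by
          congr 1
          refine Finset.sum_congr rfl fun v _ => ?_
          rw [mul_pow]
  -- bound for one block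
  have hblk : ∀ v : ℕ, ∑ k ∈ S, (‖Up f N P Q ρ v k‖ ^ 2 *
      ‖Ps f g (C * Real.exp (-(v * ρ))) D ((k : ℝ) / N)‖ ^ 2) ≤
      2 * Real.exp 2 * A0 * N * X ^ 2 * P ^ (-(2 * α)) := by
    intro v
    have hPpos := Real.rpow_pos_of_pos hP0 (-(2 * α))
    by_cases hb : bk P Q ρ v = ∅
    · have h0 : ∀ k : ℤ, Up f N P Q ρ v k = 0 := by
        intro k
        unfold Up
        rw [hb, Finset.sum_empty]
      have : ∑ k ∈ S, (‖Up f N P Q ρ v k‖ ^ 2 *
          ‖Ps f g (C * Real.exp (-(v * ρ))) D ((k : ℝ) / N)‖ ^ 2) = 0 := by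
        refine Finset.sum_eq_zero fun k _ => ?_
        rw [h0 k]
        simp
      rw [this]
      positivity
    · obtain ⟨w, hw⟩ := Finset.nonempty_iff_ne_empty.2 hb
      obtain ⟨hw0, hw3, hw4⟩ := mem_bk.1 hw
      obtain ⟨-, -, hw1, hw2⟩ := mem_pp.1 hw0
      have hvQ : Real.exp (v * ρ) ≤ Q := (hw3.trans_le hw2).le
      have hPv : P ≤ Real.exp ((v + 1) * ρ) := (hw1.trans_le hw4).le
      set Y : ℝ := X * Real.exp (-(v * ρ)) with hY
      have hexp : Real.exp (v * ρ) * Real.exp (-(v * ρ)) = 1 := by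
        rw [← Real.exp_add]; simp
      have hYpos : 0 < Y := by positivity
      have hY1 : 1 ≤ Y := by
        have : Real.exp (v * ρ) * Real.exp (-(v * ρ)) ≤ X * Real.exp (-(v * ρ)) :=
          mul_le_mul_of_nonneg_right (by linarith) (Real.exp_pos _).le
        rw [hexp] at this
        exact this
      have hYX : Y ≤ X := by
        rw [hY]
        have h9 : Real.exp (-(v * ρ)) ≤ 1 := by
          rw [Real.exp_le_one_iff]
          have : (0 : ℝ) ≤ v * ρ := by positivity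
          linarith
        nlinarith
      have hCDY : C * Real.exp (-(v * ρ)) * D ≤ Y := by
        rw [hY]
        calc C * Real.exp (-(v * ρ)) * D = C * D * Real.exp (-(v * ρ)) := by ring
          _ ≤ X * Real.exp (-(v * ρ)) := mul_le_mul_of_nonneg_right hCD (Real.exp_pos _).le
      have hlogY : Real.log Y ≤ 3 * N := (Real.log_le_log hYpos hYX).trans hlogX
      have hTY : (T : ℝ) ≤ N * Y := by
        refine hT.trans ?_
        rw [hY, Real.exp_neg, div_eq_mul_inv, mul_assoc]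
        have : Q⁻¹ ≤ (Real.exp (v * ρ))⁻¹ := inv_anti₀ (Real.exp_pos _) hvQ
        have h8 : X * Q⁻¹ ≤ X * (Real.exp (v * ρ))⁻¹ := mul_le_mul_of_nonneg_left this hX0.le
        exact mul_le_mul_of_nonneg_left h8 hN0.le
      have hCe : 0 ≤ C * Real.exp (-(v * ρ)) := by positivity
      -- large sieve
      have h1 := hLS N (C * Real.exp (-(v * ρ))) D Y T (fun z => f z.1 * g z.2) hN hY1 hCDY hlogY
      have h2 : ∑ z ∈ Spl.PB (C * Real.exp (-(v * ρ))) D, ‖f z.1 * g z.2‖ ^ 2 ≤ Y := by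
        calc ∑ z ∈ Spl.PB (C * Real.exp (-(v * ρ))) D, ‖f z.1 * g z.2‖ ^ 2
            ≤ ∑ _z ∈ Spl.PB (C * Real.exp (-(v * ρ))) D, (1 : ℝ) := Finset.sum_le_sum fun z _ => by
              rw [norm_mul]
              exact pow_le_one₀ (by positivity) (mul_le_one₀ (hf.bd _) (norm_nonneg _) (hgb _))
          _ = ((Spl.PB (C * Real.exp (-(v * ρ))) D).card : ℝ) := by simp
          _ ≤ C * Real.exp (-(v * ρ)) * D := card_PB_le _ _ hCe hD
          _ ≤ Y := hCDY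
      have h1' : ∑ k ∈ fr T, ‖Ps f g (C * Real.exp (-(v * ρ))) D ((k : ℝ) / N)‖ ^ 2 ≤
          A0 * (T + N * Y) * Y :=
        h1.trans (mul_le_mul_of_nonneg_left h2 (by positivity))
      have h3 : ∑ k ∈ S, ‖Ps f g (C * Real.exp (-(v * ρ))) D ((k : ℝ) / N)‖ ^ 2 ≤ 2 * A0 * N * Y ^ 2 := by
        calc ∑ k ∈ S, ‖Ps f g (C * Real.exp (-(v * ρ))) D ((k : ℝ) / N)‖ ^ 2
            ≤ ∑ k ∈ fr T, ‖Ps f g (C * Real.exp (-(v * ρ))) D ((k : ℝ) / N)‖ ^ 2 :=
              Finset.sum_le_sum_of_subset_of_nonneg hS (fun _ _ _ => by positivity)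
          _ ≤ A0 * (T + N * Y) * Y := h1'
          _ ≤ A0 * (N * Y + N * Y) * Y := by
              have h10 : (T : ℝ) + N * Y ≤ N * Y + N * Y := by linarith
              exact mul_le_mul_of_nonneg_right (mul_le_mul_of_nonneg_left h10 hA0.le) hYpos.le
          _ = 2 * A0 * N * Y ^ 2 := by ring
      have h4 : ∀ k ∈ S, ‖Up f N P Q ρ v k‖ ^ 2 * ‖Ps f g (C * Real.exp (-(v * ρ))) D ((k : ℝ) / N)‖ ^ 2 ≤
          Real.exp ((1 - α) * (v * ρ)) ^ 2 * ‖Ps f g (C * Real.exp (-(v * ρ))) D ((k : ℝ) / N)‖ ^ 2 := by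
        intro k hk
        exact mul_le_mul_of_nonneg_right (pow_le_pow_left₀ (norm_nonneg _) (hU k hk v) 2) (by positivity)
      calc ∑ k ∈ S, (‖Up f N P Q ρ v k‖ ^ 2 * ‖Ps f g (C * Real.exp (-(v * ρ))) D ((k : ℝ) / N)‖ ^ 2) ≤
          ∑ k ∈ S, Real.exp ((1 - α) * (v * ρ)) ^ 2 *
            ‖Ps f g (C * Real.exp (-(v * ρ))) D ((k : ℝ) / N)‖ ^ 2 := Finset.sum_le_sum h4
        _ = Real.exp ((1 - α) * (v * ρ)) ^ 2 *
            ∑ k ∈ S, ‖Ps f g (C * Real.exp (-(v * ρ))) D ((k : ℝ) / N)‖ ^ 2 := by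
            rw [Finset.mul_sum]
        _ ≤ Real.exp ((1 - α) * (v * ρ)) ^ 2 * (2 * A0 * N * Y ^ 2) :=
            mul_le_mul_of_nonneg_left h3 (by positivity)
        _ = 2 * A0 * N * X ^ 2 * Real.exp (-(2 * α * (v * ρ))) := by
            rw [hY, mul_pow]
            rw [show Real.exp ((1 - α) * (v * ρ)) ^ 2 * (2 * A0 * N * (X ^ 2 * Real.exp (-(v * ρ)) ^ 2)) =
              2 * A0 * N * X ^ 2 * (Real.exp ((1 - α) * (v * ρ)) ^ 2 * Real.exp (-(v * ρ)) ^ 2) by ring]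
            congr 1
            rw [← Real.exp_nat_mul, ← Real.exp_nat_mul, ← Real.exp_add]
            congr 1
            push_cast
            ring
        _ ≤ 2 * A0 * N * X ^ 2 * (Real.exp 2 * P ^ (-(2 * α))) := by
            have h5 : Real.exp (-(2 * α * (v * ρ))) ≤ Real.exp 2 * P ^ (-(2 * α)) := by
              rw [Real.rpow_def_of_pos hP0, ← Real.exp_add]
              apply Real.exp_le_exp.2
              have h6 : Real.log P ≤ (v + 1) * ρ := by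
                rw [Real.log_le_iff_le_exp hP0]
                exact hPv
              have h7 : 2 * α * Real.log P ≤ 2 * α * ((v + 1) * ρ) :=
                mul_le_mul_of_nonneg_left h6 (by positivity)
              have h8 : 2 * α * ρ ≤ 2 := by nlinarith
              nlinarith
            exact mul_le_mul_of_nonneg_left h5 (by positivity)
        _ = 2 * Real.exp 2 * A0 * N * X ^ 2 * P ^ (-(2 * α)) := by ring
  calc ∑ k ∈ S, ‖UZs f g N P Q ρ C D k‖ ^ 2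
      ≤ ∑ k ∈ S, n * ∑ v ∈ Finset.range n, (‖Up f N P Q ρ v k‖ ^ 2 *
          ‖Ps f g (C * Real.exp (-(v * ρ))) D ((k : ℝ) / N)‖ ^ 2) := Finset.sum_le_sum fun k _ => hCS k
    _ = n * ∑ v ∈ Finset.range n, ∑ k ∈ S, (‖Up f N P Q ρ v k‖ ^ 2 *
          ‖Ps f g (C * Real.exp (-(v * ρ))) D ((k : ℝ) / N)‖ ^ 2) := by
        rw [← Finset.mul_sum, Finset.sum_comm]
    _ ≤ n * ∑ v ∈ Finset.range n, (2 * Real.exp 2 * A0 * N * X ^ 2 * P ^ (-(2 * α))) :=
        mul_le_mul_of_nonneg_left (Finset.sum_le_sum fun v _ => hblk v) hn0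
    _ = n ^ 2 * (2 * Real.exp 2 * A0 * N * X ^ 2 * P ^ (-(2 * α))) := by
        rw [Finset.sum_const, Finset.card_range, nsmul_eq_mul]
        ring
    _ ≤ (Real.log Q / ρ + 1) ^ 2 * (2 * Real.exp 2 * A0 * N * X ^ 2 * P ^ (-(2 * α))) := by
        have := Real.rpow_pos_of_pos hP0 (-(2 * α))
        exact mul_le_mul_of_nonneg_right (pow_le_pow_left₀ hn0 hnle 2) (by positivity)
    _ = _ := by ring

end Pool.Agent.SplM

end

/-! ### from `Lib_MP_92ef0c_sp.Tot3` -/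

section

/-!
# The number of matrices in a class, positivity
-/

set_option autoImplicit false

namespace Pool.Agent.Spl

open Finset Pool.Agent.GaussMR Pool.Agent.OmAll Pool.Agent.OmEq MeasureTheory Filter

/-- the condition of `SQ` -/
def tot3_P (Q n0 : ℕ) (e : Q4) : Prop := e.b * e.c ≡ n0 [MOD Q]

theorem tot3_per (Q n0 : ℕ) : PerQ Q (tot3_P Q n0) := by
  intro e e' h
  obtain ⟨-, h2, h3, -⟩ := h
  have h4 : e.b * e.c ≡ e'.b * e'.c [MOD Q] := Nat.ModEq.mul h2 h3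
  exact ⟨fun h => h4.symm.trans h, fun h => h4.trans h⟩

/-- an admissible pair -/
theorem tot3_ex (h0 Q n0 : ℕ) (hQ : HQ h0 Q n0) :
    ∃ l ∈ eqd_LL h0, ∃ γ ∈ clq Q, tot3_P Q n0 (eqd_up h0 (l * (Q - 1)) γ) := by
  have h0pos := hQ.pos
  set l : ℕ := (h0 - n0 % h0) % h0 with hl
  have hlt : l < h0 := Nat.mod_lt _ h0pos
  have hdvd : h0 ∣ n0 + l := by
    have h1 : n0 + l ≡ 0 [MOD h0] := by
      have h2 : l ≡ h0 - n0 % h0 [MOD h0] := Nat.mod_modEq _ _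
      have h3 : n0 ≡ n0 % h0 [MOD h0] := (Nat.mod_modEq _ _).symm
      have h4 : n0 + l ≡ n0 % h0 + (h0 - n0 % h0) [MOD h0] := h3.add h2
      have h5 : n0 % h0 + (h0 - n0 % h0) = h0 := by
        have := Nat.mod_lt n0 h0pos
        omega
      rw [h5] at h4
      exact h4.trans (Nat.modEq_zero_iff_dvd.2 dvd_rfl)
    exact Nat.modEq_zero_iff_dvd.1 h1
  have hcop : l.Coprime h0 := by
    have h1 : n0.Coprime h0 := Nat.Coprime.coprime_dvd_right hQ.dvd hQ.cop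
    have h2 : Nat.gcd l h0 ∣ n0 := by
      have h3 : Nat.gcd l h0 ∣ n0 + l := (Nat.gcd_dvd_right l h0).trans hdvd
      exact (Nat.dvd_add_left (Nat.gcd_dvd_left l h0)).1 h3
    have h4 : Nat.gcd l h0 ∣ Nat.gcd n0 h0 := Nat.dvd_gcd h2 (Nat.gcd_dvd_right l h0)
    rw [h1] at h4
    exact Nat.dvd_one.1 h4
  obtain ⟨c, hc⟩ := hdvd
  refine ⟨l, eqd_mem_LL.2 ⟨hlt, hcop⟩, eqd_rp Q ⟨1, 1, c, c + 1⟩, eqd_rp_mem hQ.posQ ?_, ?_⟩
  · show 1 * (c + 1) ≡ 1 * c + 1 [MOD Q]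
    rw [one_mul, one_mul]
  · show (1 % Q) * (h0 * (c % Q) + l * (Q - 1) * (1 % Q)) ≡ n0 [MOD Q]
    have h1 : (1 % Q) * (h0 * (c % Q) + l * (Q - 1) * (1 % Q)) ≡ 1 * (h0 * c + l * (Q - 1) * 1) [MOD Q] :=
      (Nat.mod_modEq _ _).mul (((Nat.mod_modEq _ _).mul_left _).add ((Nat.mod_modEq _ _).mul_left _))
    refine h1.trans ?_
    rw [one_mul, mul_one, ← hc]
    obtain ⟨M', hM'⟩ : ∃ M', Q = M' + 1 := ⟨Q - 1, by have := hQ.posQ; omega⟩
    have h2 : n0 + l + l * (Q - 1) = n0 + Q * l := by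
      rw [hM']
      have e0 : M' + 1 - 1 = M' := by omega
      rw [e0]
      ring
    rw [h2]
    exact (Nat.modEq_iff_dvd' (by omega)).2 ⟨l, by omega⟩ |>.symm

/-- PROOF. `kapM` with `M = Q`, constant `κ1`. By `lc_unique` (n = `h0`) the matrices are split according to `l < h0`, `l` coprime to `h0`, and according to the class `γ ∈ clq Q` of `dn h0 l e`. As `c = h0 c1 - l a`, the condition `b c ≡ n0 mod Q` says `γ.b (h0 γ.c + l' γ.a) ≡ n0 mod Q` with a natural number `l'`, `l' + l ≡ 0 mod Q`. So the limit is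
`κ ∫∫∫ Ψ` with `κ = κ1/(2 h0 #clq Q) * #{(l, γ) : ..}`. This number is positive: let `l < h0`, `l ≡ - n0 mod h0` (coprime to `h0` as `h0 ∣ Q` and `n0` is coprime to `Q`; for `h0 = 1`, `l = 0`), and `γ` the class of `(1, 1; (n0 + l)/h0, (n0 + h0 + l)/h0)`, of determinant `1`: `γ.b (h0 γ.c - l γ.a) = n0`. -/
theorem tot3 (h0 Q n0 : ℕ) (hQ : HQ h0 Q n0) : ∃ κ : ℝ, 0 < κ ∧ ∀ (b : ℝ) (Ψ : ℝ → ℝ → ℝ → ℝ), TR b Ψ →
    Tendsto (fun X : ℝ => (∑ e ∈ SQ h0 Q n0 (b * X), Ψ (yS e / X) (tS e) (uS e)) / X) atTop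
      (nhds (κ * ∫ y, ∫ t, ∫ u, Ψ y t u)) := by
  classical
  obtain ⟨κ1, hκ1, hk⟩ := kapM
  obtain ⟨hcard, hlim⟩ := hk Q hQ.posQ
  have hcard' : (0 : ℝ) < (clq Q).card := by exact_mod_cast hcard
  have h0' : (0 : ℝ) < h0 := by exact_mod_cast hQ.pos
  have hNN : (0 : ℝ) < ∑ l ∈ eqd_LL h0,
      (((clq Q).filter (fun γ => tot3_P Q n0 (eqd_up h0 (l * (Q - 1)) γ))).card : ℝ) := by
    obtain ⟨l, hl, γ, hγ, hP⟩ := tot3_ex h0 Q n0 hQ
    refine Finset.sum_pos' (fun _ _ => Nat.cast_nonneg _) ⟨l, hl, ?_⟩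
    exact_mod_cast Finset.card_pos.2 ⟨γ, mem_filter.2 ⟨hγ, hP⟩⟩
  refine ⟨κ1 / (clq Q).card / (2 * h0) * ∑ l ∈ eqd_LL h0,
      (((clq Q).filter (fun γ => tot3_P Q n0 (eqd_up h0 (l * (Q - 1)) γ))).card : ℝ), by positivity, ?_⟩
  intro b Ψ hΨ
  have hSQ : ∀ x : ℝ, SQ h0 Q n0 x = (SN h0 x).filter (tot3_P Q n0) := by
    intro x
    ext e
    rw [mem_SQ, mem_filter, mem_SN]
    rfl
  have hfun : ∀ X : ℝ, (∑ e ∈ SQ h0 Q n0 (b * X), Ψ (yS e / X) (tS e) (uS e)) / X =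
      ∑ l ∈ eqd_LL h0, ∑ γ ∈ (clq Q).filter (fun γ => tot3_P Q n0 (eqd_up h0 (l * (Q - 1)) γ)),
        (∑ e ∈ (SN h0 (b * X)).filter (fun e => lc h0 l e ∧ cq Q (dn h0 l e) γ),
          Ψ (yS e / X) (tS e) (uS e)) / X := by
    intro X
    rw [hSQ, eqd_split hQ.pos hQ.posQ (tot3_P Q n0) (tot3_per Q n0) (b * X)
      (fun e => Ψ (yS e / X) (tS e) (uS e)), Finset.sum_div]
    exact Finset.sum_congr rfl fun l _ => Finset.sum_div _ _ _
  have hT : Tendsto (fun X : ℝ => ∑ l ∈ eqd_LL h0,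
      ∑ γ ∈ (clq Q).filter (fun γ => tot3_P Q n0 (eqd_up h0 (l * (Q - 1)) γ)),
        (∑ e ∈ (SN h0 (b * X)).filter (fun e => lc h0 l e ∧ cq Q (dn h0 l e) γ),
          Ψ (yS e / X) (tS e) (uS e)) / X) atTop (nhds (∑ l ∈ eqd_LL h0,
      ∑ _γ ∈ (clq Q).filter (fun γ => tot3_P Q n0 (eqd_up h0 (l * (Q - 1)) γ)),
        κ1 / (clq Q).card / (2 * h0) * ∫ y, ∫ t, ∫ u, Ψ y t u)) := by
    refine tendsto_finsetSum _ fun l hl => tendsto_finsetSum _ fun γ hγ => ?_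
    have hl' := eqd_mem_LL.1 hl
    exact hlim h0 l hQ.pos hl'.1 hl'.2 γ (mem_clq.1 (mem_filter.1 hγ).1).2 b Ψ hΨ
  have hval : (∑ l ∈ eqd_LL h0,
      ∑ _γ ∈ (clq Q).filter (fun γ => tot3_P Q n0 (eqd_up h0 (l * (Q - 1)) γ)),
        κ1 / (clq Q).card / (2 * h0) * ∫ y, ∫ t, ∫ u, Ψ y t u) =
      κ1 / (clq Q).card / (2 * h0) * (∑ l ∈ eqd_LL h0,
      (((clq Q).filter (fun γ => tot3_P Q n0 (eqd_up h0 (l * (Q - 1)) γ))).card : ℝ)) *
        ∫ y, ∫ t, ∫ u, Ψ y t u := by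
    have h1 : ∀ l ∈ eqd_LL h0,
        ∑ _γ ∈ (clq Q).filter (fun γ => tot3_P Q n0 (eqd_up h0 (l * (Q - 1)) γ)),
          κ1 / (clq Q).card / (2 * h0) * ∫ y, ∫ t, ∫ u, Ψ y t u =
        (((clq Q).filter (fun γ => tot3_P Q n0 (eqd_up h0 (l * (Q - 1)) γ))).card : ℝ) *
          (κ1 / (clq Q).card / (2 * h0) * ∫ y, ∫ t, ∫ u, Ψ y t u) := by
      intro l _
      rw [Finset.sum_const, nsmul_eq_mul]
    rw [Finset.sum_congr rfl h1, ← Finset.sum_mul]
    ring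
  rw [hval] at hT
  exact hT.congr fun X => (hfun X).symm

/-- the smooth count without congruence condition -/
theorem tot1 (n : ℕ) (hn : 0 < n) : ∃ κ : ℝ, ∀ (b : ℝ) (Ψ : ℝ → ℝ → ℝ → ℝ), TR b Ψ →
    Tendsto (fun X : ℝ => (∑ e ∈ SN n (b * X), Ψ (yS e / X) (tS e) (uS e)) / X) atTop
      (nhds (κ * ∫ y, ∫ t, ∫ u, Ψ y t u)) := by
  classical
  obtain ⟨κ, _, h⟩ := eqD n hn
  refine ⟨κ * ((((clq 1).filter (fun _ => True)).card : ℝ) / (clq 1).card), fun b Ψ hΨ => ?_⟩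
  have h1 := h 1 one_pos (Nat.coprime_one_left n) (fun _ => True) (fun _ _ _ => Iff.rfl) b Ψ hΨ
  simpa using h1

end Pool.Agent.Spl

end
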