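import Pool.Agent.Lib_MP_92ef0c_m.M21
import Pool.Agent.Lib_MP_92ef0c_m.M39

/-!
# MP_92ef0c_nt, split pairs: merged library part M40

Concatenation of smaller files (each in its own section), only to save build time.
-/

/-! ### from `Lib_MP_f1a94e_mu.Chain` -/

section

/-!
# Piece CHAIN: all stages together
-/

set_option autoImplicit false

namespace Pool.Agent.GaussMR

/-- total error of stages `0, …, J` -/
noncomputable def Err (C : ℝ) (J : ℕ) (P Q r a l : ℕ → ℝ) : ℝ :=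
  ∑ j ∈ Finset.range (J + 1), (1 / Ls (P j) (Q j) + r j) +
    (Real.log (Q 0) / r 0 + 1) ^ 2 * P 0 ^ (-(2 * a 0)) +
    ∑ j ∈ Finset.range J, (Real.log (Q (j + 1)) / r (j + 1) + 1) ^ 2 * (Real.log (Q j) / r j + 1) *
      Q j ^ 2 * Real.exp (C * (l j + 2) * Real.log (l j + 2)) *
      P (j + 1) ^ (-(2 * (a (j + 1) - a j)))

/-- admissible parameters of stages `0, …, J` -/
def Adm (X : ℝ) (J : ℕ) (P Q r a l : ℕ → ℝ) : Prop :=
  (∀ j ≤ J, Real.exp 2 ≤ P j ∧ P j ≤ Q j ∧ Q j ^ 20 ≤ X ∧ 0 < r j ∧ r j ≤ 1 ∧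
    X ^ (-(1 / 4 : ℝ)) ≤ r j ∧ 1 ≤ Ls (P j) (Q j) ∧ 0 ≤ a j ∧ a j ≤ 1) ∧
  (∀ j < J, a j ≤ a (j + 1) ∧ 1 ≤ l j ∧ 2 * Real.log (Q (j + 1)) ≤ l j * Real.log (P j))

open Classical in
/-- frequencies for which all prime polynomials of stage `j` are small -/
noncomputable def smallSet (F : G → ℝ) (T : ℕ) (P Q r a : ℝ) : Finset ℤ :=
  (fr T).filter (fun k => ∀ v : ℕ, ‖U F P Q r v k‖ ≤ Real.exp ((1 - a) * (v * r)))

/-- splitting of the coefficient: `Ls fc = (Ls fc - UZ) + UZ`, `Ls ≥ 1` -/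
theorem chain_split (L : ℝ) (hL : 1 ≤ L) (f u : ℂ) :
    ‖f‖ ^ 2 ≤ 2 / L ^ 2 * ‖(L : ℂ) * f - u‖ ^ 2 + 2 * ‖u‖ ^ 2 := by
  have h1 : L * ‖f‖ ≤ ‖(L : ℂ) * f - u‖ + ‖u‖ := by
    have h2 : (L : ℂ) * f = ((L : ℂ) * f - u) + u := by ring
    have h3 : ‖(L : ℂ) * f‖ = L * ‖f‖ := by
      rw [norm_mul, Complex.norm_real, Real.norm_eq_abs, abs_of_pos (by linarith)]
    rw [← h3]
    nth_rewrite 1 [h2]
    exact norm_add_le _ _
  have h4 : (L * ‖f‖) ^ 2 ≤ 2 * (‖(L : ℂ) * f - u‖ ^ 2 + ‖u‖ ^ 2) := by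
    have h0 : 0 ≤ L * ‖f‖ := by positivity
    calc (L * ‖f‖) ^ 2 ≤ (‖(L : ℂ) * f - u‖ + ‖u‖) ^ 2 := by gcongr
      _ ≤ 2 * (‖(L : ℂ) * f - u‖ ^ 2 + ‖u‖ ^ 2) := add_sq_le
  have hL2 : 0 < L ^ 2 := by positivity
  have hL1 : 1 ≤ L ^ 2 := one_le_pow₀ hL
  have h5 : ‖f‖ ^ 2 ≤ 2 * (‖(L : ℂ) * f - u‖ ^ 2 + ‖u‖ ^ 2) / L ^ 2 := by
    rw [le_div_iff₀ hL2]
    nlinarith
  have h6 : 2 * (‖(L : ℂ) * f - u‖ ^ 2 + ‖u‖ ^ 2) / L ^ 2 =
      2 / L ^ 2 * ‖(L : ℂ) * f - u‖ ^ 2 + 2 * ‖u‖ ^ 2 / L ^ 2 := by ring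
  have h7 : 2 * ‖u‖ ^ 2 / L ^ 2 ≤ 2 * ‖u‖ ^ 2 := div_le_self (by positivity) hL1
  linarith

open Classical in
/-- For `k` in the small set of stage `J` let `j ≤ J` be least such that `k` is in the small set of stage `j`;
so `k ∈ K_j`, where `K_j` is the small set of stage `j` minus (if `j ≥ 1`) the small set of stage `j - 1`. On
`K_j`: `‖fc k‖² ≤ 2 / Ls² (‖Ls fc k - UZ k‖² + ‖UZ k‖²)`, `Ls ≥ 1`; first part by `stageM`, second part
by `small1` (`j = 0`, `T ≤ X / Q 0`) and `smallM` (`j ≥ 1`). The constant is the maximum of the constants. -/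
theorem chain : ∃ C : ℝ, 0 < C ∧ ∀ (F : G → ℝ), PM F → ∀ (X : ℝ) (T J : ℕ) (P Q r a l : ℕ → ℝ),
    Adm X J P Q r a l → (T : ℝ) ≤ X / Q 0 →
    ∑ k ∈ smallSet F T (P J) (Q J) (r J) (a J), ‖fc F X k‖ ^ 2 ≤ C * X ^ 2 * Err C J P Q r a l := by
  obtain ⟨C1, hC1, hstage⟩ := stageM
  obtain ⟨C2, hC2, hsmall1⟩ := small1
  obtain ⟨C3, hC3, hsmallM⟩ := smallM
  set C : ℝ := 2 * C1 + 2 * C2 + C3 + 2 with hC
  refine ⟨C, by positivity, ?_⟩
  intro F hF X T J P Q r a l hadm hT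
  obtain ⟨hA, hB⟩ := hadm
  -- general facts
  have hPge : ∀ j ≤ J, 2 ≤ P j := by
    intro j hj
    have h1 := (hA j hj).1
    have h2 := Real.add_one_le_exp (2 : ℝ)
    linarith
  have hQge : ∀ j ≤ J, 1 ≤ Q j := by
    intro j hj
    have h1 := hPge j hj
    have h2 := (hA j hj).2.1
    linarith
  have hQX : ∀ j ≤ J, Q j ≤ X := by
    intro j hj
    have h1 := hQge j hj
    have h2 := (hA j hj).2.2.1
    calc Q j = Q j ^ 1 := (pow_one _).symm
      _ ≤ Q j ^ 20 := pow_le_pow_right₀ h1 (by norm_num)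
      _ ≤ X := h2
  have hX1 : 1 ≤ X := (hQge 0 (Nat.zero_le _)).trans (hQX 0 (Nat.zero_le _))
  have hTX : (T : ℝ) ≤ X := by
    have h1 := hQge 0 (Nat.zero_le _)
    exact hT.trans (div_le_self (by linarith) h1)
  -- one stage
  have hone : ∀ j ≤ J, ∀ (S : Finset ℤ), S ⊆ fr T → ∀ (B : ℝ),
      ∑ k ∈ S, ‖UZ F (P j) (Q j) (r j) X k‖ ^ 2 ≤ B →
      ∑ k ∈ S, ‖fc F X k‖ ^ 2 ≤ 2 * C1 * X ^ 2 * (1 / Ls (P j) (Q j) + r j) + 2 * B := by
    intro j hj S hS B hB'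
    obtain ⟨g1, g2, g3, g4, g5, g6, g7, g8, g9⟩ := hA j hj
    have h1 := hstage F hF (P j) (Q j) (r j) X T (hPge j hj) g2 g3 g4 g5 g6 hTX g7
    set L : ℝ := Ls (P j) (Q j) with hL
    have hL0 : 0 < L := by linarith
    have h2 : ∑ k ∈ S, ‖(L : ℂ) * fc F X k - UZ F (P j) (Q j) (r j) X k‖ ^ 2 ≤
        C1 * X ^ 2 * L ^ 2 * (1 / L + r j) :=
      (Finset.sum_le_sum_of_subset_of_nonneg hS (fun _ _ _ => by positivity)).trans h1
    calc ∑ k ∈ S, ‖fc F X k‖ ^ 2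
        ≤ ∑ k ∈ S, (2 / L ^ 2 * ‖(L : ℂ) * fc F X k - UZ F (P j) (Q j) (r j) X k‖ ^ 2 +
            2 * ‖UZ F (P j) (Q j) (r j) X k‖ ^ 2) :=
          Finset.sum_le_sum fun k _ => chain_split L g7 _ _
      _ = 2 / L ^ 2 * ∑ k ∈ S, ‖(L : ℂ) * fc F X k - UZ F (P j) (Q j) (r j) X k‖ ^ 2 +
            2 * ∑ k ∈ S, ‖UZ F (P j) (Q j) (r j) X k‖ ^ 2 := by
          rw [Finset.sum_add_distrib, ← Finset.mul_sum, ← Finset.mul_sum]
      _ ≤ 2 / L ^ 2 * (C1 * X ^ 2 * L ^ 2 * (1 / L + r j)) + 2 * B := by gcongr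
      _ = 2 * C1 * X ^ 2 * (1 / L + r j) + 2 * B := by
          congr 1
          field_simp
  have hsub : ∀ j, smallSet F T (P j) (Q j) (r j) (a j) ⊆ fr T := fun j => Finset.filter_subset _ _
  have main : ∀ J' ≤ J, ∑ k ∈ smallSet F T (P J') (Q J') (r J') (a J'), ‖fc F X k‖ ^ 2 ≤
      C * X ^ 2 * Err C J' P Q r a l := by
    intro J'
    induction J' with
    | zero =>
      intro h0
      obtain ⟨g1, g2, g3, g4, g5, g6, g7, g8, g9⟩ := hA 0 h0
      have h1 := hsmall1 F hF (P 0) (Q 0) (r 0) X (a 0) T _ (hPge 0 h0) g2 (hQX 0 h0) g4 g5 g8 g9 hT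
        (hsub 0) (fun k hk v => (Finset.mem_filter.mp hk).2 v)
      have h2 := hone 0 h0 _ (hsub 0) _ h1
      refine h2.trans ?_
      unfold Err
      simp only [zero_add, Finset.range_one, Finset.sum_singleton, Finset.range_zero,
        Finset.sum_empty, add_zero]
      have e1 : 0 ≤ 1 / Ls (P 0) (Q 0) + r 0 := by
        have : 0 ≤ 1 / Ls (P 0) (Q 0) := by
          apply div_nonneg zero_le_one
          linarith
        linarith
      have e2 : 0 ≤ (Real.log (Q 0) / r 0 + 1) ^ 2 * P 0 ^ (-(2 * a 0)) := by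
        have := hPge 0 h0
        positivity
      have e3 : 2 * C1 * X ^ 2 * (1 / Ls (P 0) (Q 0) + r 0) ≤
          C * X ^ 2 * (1 / Ls (P 0) (Q 0) + r 0) := by
        have : 2 * C1 ≤ C := by rw [hC]; linarith
        gcongr
      have e4 : 2 * (C2 * X ^ 2 * (Real.log (Q 0) / r 0 + 1) ^ 2 * P 0 ^ (-(2 * a 0))) ≤
          C * X ^ 2 * ((Real.log (Q 0) / r 0 + 1) ^ 2 * P 0 ^ (-(2 * a 0))) := by
        have h3 : 2 * C2 ≤ C := by rw [hC]; linarith
        calc 2 * (C2 * X ^ 2 * (Real.log (Q 0) / r 0 + 1) ^ 2 * P 0 ^ (-(2 * a 0)))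
            = (2 * C2) * X ^ 2 * ((Real.log (Q 0) / r 0 + 1) ^ 2 * P 0 ^ (-(2 * a 0))) := by ring
          _ ≤ C * X ^ 2 * ((Real.log (Q 0) / r 0 + 1) ^ 2 * P 0 ^ (-(2 * a 0))) := by gcongr
      linarith
    | succ J' ih =>
      intro hJ
      have hJ' : J' ≤ J := by omega
      have ihJ := ih hJ'
      obtain ⟨g1, g2, g3, g4, g5, g6, g7, g8, g9⟩ := hA (J' + 1) hJ
      obtain ⟨f1, f2, f3, f4, f5, f6, f7, f8, f9⟩ := hA J' hJ'
      obtain ⟨b1, b2, b3⟩ := hB J' (by omega)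
      set S1 : Finset ℤ := smallSet F T (P (J' + 1)) (Q (J' + 1)) (r (J' + 1)) (a (J' + 1)) with hS1
      set S0 : Finset ℤ := smallSet F T (P J') (Q J') (r J') (a J') with hS0
      set B : ℝ := X ^ 2 * (Real.log (Q (J' + 1)) / r (J' + 1) + 1) ^ 2 * (Real.log (Q J') / r J' + 1) *
        Q J' ^ 2 * Real.exp (C3 * (l J' + 2) * Real.log (l J' + 2)) *
        P (J' + 1) ^ (-(2 * (a (J' + 1) - a J'))) with hBdef
      have h1 : ∑ k ∈ S1 \ S0, ‖UZ F (P (J' + 1)) (Q (J' + 1)) (r (J' + 1)) X k‖ ^ 2 ≤ B := by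
        refine hsmallM F hF (P J') (Q J') (P (J' + 1)) (Q (J' + 1)) (r J') (r (J' + 1)) X (a J')
          (a (J' + 1)) (l J') T (S1 \ S0) f1 f2 (hQX J' hJ') (by have := hPge (J' + 1) hJ; linarith)
          g2 (hQX _ hJ) b2 b3 f4 f5 g4 g5 f8 b1 g9 hTX
          (Finset.sdiff_subset.trans (hsub _)) ?_ ?_
        · intro k hk
          rw [Finset.mem_sdiff] at hk
          by_contra hc
          push Not at hc
          apply hk.2
          rw [hS0]
          exact Finset.mem_filter.mpr ⟨hsub _ hk.1, hc⟩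
        · intro k hk v
          rw [Finset.mem_sdiff] at hk
          exact (Finset.mem_filter.mp hk.1).2 v
      have h2 := hone (J' + 1) hJ (S1 \ S0) (Finset.sdiff_subset.trans (hsub _)) B h1
      have h3 : ∑ k ∈ S1, ‖fc F X k‖ ^ 2 ≤
          ∑ k ∈ S1 \ S0, ‖fc F X k‖ ^ 2 + ∑ k ∈ S0, ‖fc F X k‖ ^ 2 := by
        have h4 : S1 ⊆ (S1 \ S0) ∪ S0 := by
          intro k hk
          rw [Finset.mem_union, Finset.mem_sdiff]
          by_cases h : k ∈ S0
          · exact Or.inr h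
          · exact Or.inl ⟨hk, h⟩
        rw [← Finset.sum_union Finset.sdiff_disjoint]
        exact Finset.sum_le_sum_of_subset_of_nonneg h4 (fun _ _ _ => by positivity)
      have h5 : Err C (J' + 1) P Q r a l = Err C J' P Q r a l +
          (1 / Ls (P (J' + 1)) (Q (J' + 1)) + r (J' + 1)) +
          (Real.log (Q (J' + 1)) / r (J' + 1) + 1) ^ 2 * (Real.log (Q J') / r J' + 1) *
          Q J' ^ 2 * Real.exp (C * (l J' + 2) * Real.log (l J' + 2)) *
          P (J' + 1) ^ (-(2 * (a (J' + 1) - a J'))) := by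
        have hh : ∀ (f g : ℕ → ℝ) (A : ℝ),
            (∑ j ∈ Finset.range (J' + 1 + 1), f j) + A + ∑ j ∈ Finset.range (J' + 1), g j =
            ((∑ j ∈ Finset.range (J' + 1), f j) + A + ∑ j ∈ Finset.range J', g j) + f (J' + 1) +
              g J' := by
          intro f g A
          rw [Finset.sum_range_succ f (J' + 1), Finset.sum_range_succ g J']
          ring
        exact hh _ _ _
      have e1 : 2 * C1 * X ^ 2 * (1 / Ls (P (J' + 1)) (Q (J' + 1)) + r (J' + 1)) ≤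
          C * X ^ 2 * (1 / Ls (P (J' + 1)) (Q (J' + 1)) + r (J' + 1)) := by
        have h6 : 0 ≤ 1 / Ls (P (J' + 1)) (Q (J' + 1)) + r (J' + 1) := by
          have : 0 ≤ 1 / Ls (P (J' + 1)) (Q (J' + 1)) := by
            apply div_nonneg zero_le_one
            linarith
          linarith
        have : 2 * C1 ≤ C := by rw [hC]; linarith
        gcongr
      have e2 : 2 * B ≤ C * X ^ 2 * ((Real.log (Q (J' + 1)) / r (J' + 1) + 1) ^ 2 *
          (Real.log (Q J') / r J' + 1) *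
          Q J' ^ 2 * Real.exp (C * (l J' + 2) * Real.log (l J' + 2)) *
          P (J' + 1) ^ (-(2 * (a (J' + 1) - a J')))) := by
        have hlog : 0 ≤ Real.log (l J' + 2) := Real.log_nonneg (by linarith)
        have hC3C : C3 ≤ C := by rw [hC]; linarith
        have h2C : (2 : ℝ) ≤ C := by rw [hC]; linarith
        have hexp : Real.exp (C3 * (l J' + 2) * Real.log (l J' + 2)) ≤
            Real.exp (C * (l J' + 2) * Real.log (l J' + 2)) := by
          rw [Real.exp_le_exp]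
          have : 0 ≤ l J' + 2 := by linarith
          gcongr
        have hlQ : 0 ≤ Real.log (Q J') / r J' + 1 := by
          have : 0 ≤ Real.log (Q J') := Real.log_nonneg (hQge _ hJ')
          positivity
        have hPp : 0 < P (J' + 1) := by have := hPge _ hJ; linarith
        rw [hBdef]
        calc 2 * (X ^ 2 * (Real.log (Q (J' + 1)) / r (J' + 1) + 1) ^ 2 * (Real.log (Q J') / r J' + 1) *
              Q J' ^ 2 * Real.exp (C3 * (l J' + 2) * Real.log (l J' + 2)) *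
              P (J' + 1) ^ (-(2 * (a (J' + 1) - a J'))))
            = 2 * X ^ 2 * ((Real.log (Q (J' + 1)) / r (J' + 1) + 1) ^ 2 *
              (Real.log (Q J') / r J' + 1) *
              Q J' ^ 2 * Real.exp (C3 * (l J' + 2) * Real.log (l J' + 2)) *
              P (J' + 1) ^ (-(2 * (a (J' + 1) - a J')))) := by ring
          _ ≤ C * X ^ 2 * ((Real.log (Q (J' + 1)) / r (J' + 1) + 1) ^ 2 *
              (Real.log (Q J') / r J' + 1) *
              Q J' ^ 2 * Real.exp (C * (l J' + 2) * Real.log (l J' + 2)) *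
              P (J' + 1) ^ (-(2 * (a (J' + 1) - a J')))) := by gcongr
      rw [h5]
      have e3 : C * X ^ 2 * (Err C J' P Q r a l +
          (1 / Ls (P (J' + 1)) (Q (J' + 1)) + r (J' + 1)) +
          (Real.log (Q (J' + 1)) / r (J' + 1) + 1) ^ 2 * (Real.log (Q J') / r J' + 1) *
          Q J' ^ 2 * Real.exp (C * (l J' + 2) * Real.log (l J' + 2)) *
          P (J' + 1) ^ (-(2 * (a (J' + 1) - a J')))) =
          C * X ^ 2 * Err C J' P Q r a l +
          C * X ^ 2 * (1 / Ls (P (J' + 1)) (Q (J' + 1)) + r (J' + 1)) +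
          C * X ^ 2 * ((Real.log (Q (J' + 1)) / r (J' + 1) + 1) ^ 2 * (Real.log (Q J') / r J' + 1) *
          Q J' ^ 2 * Real.exp (C * (l J' + 2) * Real.log (l J' + 2)) *
          P (J' + 1) ^ (-(2 * (a (J' + 1) - a J')))) := by ring
      rw [e3]
      linarith
  exact main J le_rfl

end Pool.Agent.GaussMR

end

/-! ### from `Lib_MP_92ef0c_spm.ChainS` -/

section

/-!
# all stages together
-/

set_option autoImplicit false

namespace Pool.Agent.SplM

open Pool.Agent.GaussMR (fr mem_fr nv Ls Err Adm chain_split)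

/-- Copy of `chain` (Lib_MP_f1a94e_ecc/Chain.lean) with the additional factor `N`. `Q_j² ≤ r_j C`: `Q_j² ≤ X^(1/10)`,
`r_j C ≥ X^(-1/4) X^(2/5) = X^(3/20)`. `l + 1 + log Q_j + log X ≤ N + (21 / 20) (3 / 2) N ≤ 3 N`. -/
theorem chainS0 : ∃ A : ℝ, 0 < A ∧ ∀ (f g : ℕ → ℂ), CMN f → (∀ n, ‖g n‖ ≤ 1) →
    ∀ (C D X : ℝ) (N T J : ℕ) (P Q r a l : ℕ → ℝ), Adm X J P Q r a l → 1 ≤ N → 1 ≤ D → C * D ≤ X →
    X ^ (2 / 5 : ℝ) ≤ C → Real.log X ≤ 3 / 2 * N → (∀ j < J, l j + 1 ≤ N) → (T : ℝ) ≤ N * X / Q 0 →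
    ∑ k ∈ smallS f N T (P J) (Q J) (r J) (a J), ‖Ps f g C D ((k : ℝ) / N)‖ ^ 2 ≤
      A * N * X ^ 2 * Err A J P Q r a l := by
  classical
  obtain ⟨C1, hC1, hstage⟩ := stageS
  obtain ⟨C2, hC2, hsmall1⟩ := small1S
  obtain ⟨C3, hC3, hsmallM⟩ := smallMS
  set A : ℝ := 2 * C1 + 2 * C2 + C3 + 2 with hC
  refine ⟨A, by positivity, ?_⟩
  intro f g hf hg C D X N T J P Q r a l hadm hN1 hD1 hCD hXC hlX hlN hT
  obtain ⟨hA, hB⟩ := hadm
  -- general facts
  have hPge : ∀ j ≤ J, 2 ≤ P j := by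
    intro j hj
    have h1 := (hA j hj).1
    have h2 := Real.add_one_le_exp (2 : ℝ)
    linarith
  have hQge : ∀ j ≤ J, 1 ≤ Q j := by
    intro j hj
    have h1 := hPge j hj
    have h2 := (hA j hj).2.1
    linarith
  have hQX : ∀ j ≤ J, Q j ≤ X := by
    intro j hj
    have h1 := hQge j hj
    have h2 := (hA j hj).2.2.1
    calc Q j = Q j ^ 1 := (pow_one _).symm
      _ ≤ Q j ^ 20 := pow_le_pow_right₀ h1 (by norm_num)
      _ ≤ X := h2
  have hX1 : 1 ≤ X := (hQge 0 (Nat.zero_le _)).trans (hQX 0 (Nat.zero_le _))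
  have hN0 : (0 : ℝ) < N := by exact_mod_cast hN1
  have hN1' : (1 : ℝ) ≤ N := by exact_mod_cast hN1
  have hTX : (T : ℝ) ≤ N * X := by
    have h1 := hQge 0 (Nat.zero_le _)
    exact hT.trans (div_le_self (mul_nonneg hN0.le (by linarith)) h1)
  have hX0 : 0 < X := by linarith
  have hC0 : 0 < C := (Real.rpow_pos_of_pos hX0 _).trans_le hXC
  have hlX3 : Real.log (3 * X) ≤ 3 * N := by
    rw [Real.log_mul (by norm_num) hX0.ne']
    have h1 : Real.log 3 ≤ 3 / 2 := by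
      rw [Real.log_le_iff_le_exp (by norm_num)]
      have := Real.quadratic_le_exp_of_nonneg (show (0 : ℝ) ≤ 3 / 2 by norm_num)
      norm_num at this ⊢
      linarith
    linarith
  have hlQ20 : ∀ j ≤ J, 20 * Real.log (Q j) ≤ Real.log X := by
    intro j hj
    have h1 := hQge j hj
    have h2 := Real.log_le_log (by positivity) (hA j hj).2.2.1
    rw [Real.log_pow] at h2
    push_cast at h2
    exact h2
  have hlX3' : Real.log X ≤ 3 * N := by linarith
  have hQC : ∀ j ≤ J, Q j ^ 2 ≤ r j * C := by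
    intro j hj
    obtain ⟨-, -, h20, -, -, hr, -⟩ := hA j hj
    have h1 := hQge j hj
    have hq : Q j ^ 2 ≤ X ^ (1 / 10 : ℝ) := by
      have h2 : Q j ^ 2 = (Q j ^ 20) ^ (1 / 10 : ℝ) := by
        rw [← Real.rpow_natCast, ← Real.rpow_natCast, ← Real.rpow_mul (by linarith)]
        norm_num
      rw [h2]
      exact Real.rpow_le_rpow (by positivity) h20 (by norm_num)
    have hr' : X ^ (3 / 20 : ℝ) ≤ r j * C := by
      have h2 : X ^ (3 / 20 : ℝ) = X ^ (-(1 / 4 : ℝ)) * X ^ (2 / 5 : ℝ) := by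
        rw [← Real.rpow_add hX0]
        norm_num
      rw [h2]
      exact mul_le_mul hr hXC (Real.rpow_pos_of_pos hX0 _).le
        ((Real.rpow_pos_of_pos hX0 _).le.trans hr)
    exact hq.trans ((Real.rpow_le_rpow_of_exponent_le hX1 (by norm_num)).trans hr')
  -- one stage
  have hone : ∀ j ≤ J, ∀ (S : Finset ℤ), S ⊆ fr T → ∀ (B : ℝ),
      ∑ k ∈ S, ‖UZs f g N (P j) (Q j) (r j) C D k‖ ^ 2 ≤ B →
      ∑ k ∈ S, ‖Ps f g C D ((k : ℝ) / N)‖ ^ 2 ≤ 2 * C1 * (N * X ^ 2) * (1 / Ls (P j) (Q j) + r j) + 2 * B := by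
    intro j hj S hS B hB'
    obtain ⟨g1, g2, g3, g4, g5, g6, g7, g8, g9⟩ := hA j hj
    have h1 := hstage f g hf hg (P j) (Q j) (r j) C D X N T (hPge j hj) g2 hN1 hD1 hCD (hQC j hj) g4 g5 hlX3 hTX g7
    set L : ℝ := Ls (P j) (Q j) with hL
    have hL0 : 0 < L := by linarith
    have h2 : ∑ k ∈ S, ‖(L : ℂ) * Ps f g C D ((k : ℝ) / N) - UZs f g N (P j) (Q j) (r j) C D k‖ ^ 2 ≤
        C1 * N * X ^ 2 * L ^ 2 * (1 / L + r j) :=
      (Finset.sum_le_sum_of_subset_of_nonneg hS (fun _ _ _ => by positivity)).trans h1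
    calc ∑ k ∈ S, ‖Ps f g C D ((k : ℝ) / N)‖ ^ 2
        ≤ ∑ k ∈ S, (2 / L ^ 2 * ‖(L : ℂ) * Ps f g C D ((k : ℝ) / N) - UZs f g N (P j) (Q j) (r j) C D k‖ ^ 2 +
            2 * ‖UZs f g N (P j) (Q j) (r j) C D k‖ ^ 2) :=
          Finset.sum_le_sum fun k _ => chain_split L g7 _ _
      _ = 2 / L ^ 2 * ∑ k ∈ S, ‖(L : ℂ) * Ps f g C D ((k : ℝ) / N) - UZs f g N (P j) (Q j) (r j) C D k‖ ^ 2 +
            2 * ∑ k ∈ S, ‖UZs f g N (P j) (Q j) (r j) C D k‖ ^ 2 := by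
          rw [Finset.sum_add_distrib, ← Finset.mul_sum, ← Finset.mul_sum]
      _ ≤ 2 / L ^ 2 * (C1 * N * X ^ 2 * L ^ 2 * (1 / L + r j)) + 2 * B := by gcongr
      _ = 2 * C1 * (N * X ^ 2) * (1 / L + r j) + 2 * B := by
          congr 1
          field_simp
  have hsub : ∀ j, smallS f N T (P j) (Q j) (r j) (a j) ⊆ fr T := fun j => Finset.filter_subset _ _
  have main : ∀ J' ≤ J, ∑ k ∈ smallS f N T (P J') (Q J') (r J') (a J'), ‖Ps f g C D ((k : ℝ) / N)‖ ^ 2 ≤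
      A * (N * X ^ 2) * Err A J' P Q r a l := by
    intro J'
    induction J' with
    | zero =>
      intro h0
      obtain ⟨g1, g2, g3, g4, g5, g6, g7, g8, g9⟩ := hA 0 h0
      have h1 := hsmall1 f g hf hg (P 0) (Q 0) (r 0) C D X (a 0) N T _ (hPge 0 h0) g2 (hQX 0 h0) g4 g5 g8 g9
        hN1 hC0.le (by linarith) hCD hlX3' hT (hsub 0) (fun k hk v => (Finset.mem_filter.mp hk).2 v)
      have h2 := hone 0 h0 _ (hsub 0) _ h1
      refine h2.trans ?_
      unfold Err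
      simp only [zero_add, Finset.range_one, Finset.sum_singleton, Finset.range_zero,
        Finset.sum_empty, add_zero]
      have e1 : 0 ≤ 1 / Ls (P 0) (Q 0) + r 0 := by
        have : 0 ≤ 1 / Ls (P 0) (Q 0) := by
          apply div_nonneg zero_le_one
          linarith
        linarith
      have e2 : 0 ≤ (Real.log (Q 0) / r 0 + 1) ^ 2 * P 0 ^ (-(2 * a 0)) := by
        have := hPge 0 h0
        positivity
      have e3 : 2 * C1 * (N * X ^ 2) * (1 / Ls (P 0) (Q 0) + r 0) ≤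
          A * (N * X ^ 2) * (1 / Ls (P 0) (Q 0) + r 0) := by
        have : 2 * C1 ≤ A := by rw [hC]; linarith
        gcongr
      have e4 : 2 * (C2 * N * X ^ 2 * (Real.log (Q 0) / r 0 + 1) ^ 2 * P 0 ^ (-(2 * a 0))) ≤
          A * (N * X ^ 2) * ((Real.log (Q 0) / r 0 + 1) ^ 2 * P 0 ^ (-(2 * a 0))) := by
        have h3 : 2 * C2 ≤ A := by rw [hC]; linarith
        calc 2 * (C2 * N * X ^ 2 * (Real.log (Q 0) / r 0 + 1) ^ 2 * P 0 ^ (-(2 * a 0)))
            = (2 * C2) * (N * X ^ 2) * ((Real.log (Q 0) / r 0 + 1) ^ 2 * P 0 ^ (-(2 * a 0))) := by ring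
          _ ≤ A * (N * X ^ 2) * ((Real.log (Q 0) / r 0 + 1) ^ 2 * P 0 ^ (-(2 * a 0))) := by gcongr
      linarith
    | succ J' ih =>
      intro hJ
      have hJ' : J' ≤ J := by omega
      have ihJ := ih hJ'
      obtain ⟨g1, g2, g3, g4, g5, g6, g7, g8, g9⟩ := hA (J' + 1) hJ
      obtain ⟨f1, f2, f3, f4, f5, f6, f7, f8, f9⟩ := hA J' hJ'
      obtain ⟨b1, b2, b3⟩ := hB J' (by omega)
      set S1 : Finset ℤ := smallS f N T (P (J' + 1)) (Q (J' + 1)) (r (J' + 1)) (a (J' + 1)) with hS1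
      set S0 : Finset ℤ := smallS f N T (P J') (Q J') (r J') (a J') with hS0
      set B : ℝ := N * X ^ 2 * (Real.log (Q (J' + 1)) / r (J' + 1) + 1) ^ 2 * (Real.log (Q J') / r J' + 1) *
        Q J' ^ 2 * Real.exp (C3 * (l J' + 2) * Real.log (l J' + 2)) *
        P (J' + 1) ^ (-(2 * (a (J' + 1) - a J'))) with hBdef
      have hlN' : l J' + 1 + Real.log (Q J') + Real.log X ≤ 3 * N := by
        have i1 := hlN J' (by omega)
        have i2 := hlQ20 J' hJ'
        linarith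
      have h1 : ∑ k ∈ S1 \ S0, ‖UZs f g N (P (J' + 1)) (Q (J' + 1)) (r (J' + 1)) C D k‖ ^ 2 ≤ B := by
        refine hsmallM f g hf hg (P J') (Q J') (P (J' + 1)) (Q (J' + 1)) (r J') (r (J' + 1)) C D X (a J')
          (a (J' + 1)) (l J') N T (S1 \ S0) f1 f2 (hQX J' hJ') (by have := hPge (J' + 1) hJ; linarith)
          g2 (hQX _ hJ) b2 b3 f4 f5 g4 g5 f8 b1 g9 hN1 hC0.le (by linarith) hCD hlN' hTX
          (Finset.sdiff_subset.trans (hsub _)) ?_ ?_
        · intro k hk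
          rw [Finset.mem_sdiff] at hk
          by_contra hc
          push Not at hc
          apply hk.2
          rw [hS0]
          exact Finset.mem_filter.mpr ⟨hsub _ hk.1, hc⟩
        · intro k hk v
          rw [Finset.mem_sdiff] at hk
          exact (Finset.mem_filter.mp hk.1).2 v
      have h2 := hone (J' + 1) hJ (S1 \ S0) (Finset.sdiff_subset.trans (hsub _)) B h1
      have h3 : ∑ k ∈ S1, ‖Ps f g C D ((k : ℝ) / N)‖ ^ 2 ≤
          ∑ k ∈ S1 \ S0, ‖Ps f g C D ((k : ℝ) / N)‖ ^ 2 + ∑ k ∈ S0, ‖Ps f g C D ((k : ℝ) / N)‖ ^ 2 := by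
        have h4 : S1 ⊆ (S1 \ S0) ∪ S0 := by
          intro k hk
          rw [Finset.mem_union, Finset.mem_sdiff]
          by_cases h : k ∈ S0
          · exact Or.inr h
          · exact Or.inl ⟨hk, h⟩
        rw [← Finset.sum_union Finset.sdiff_disjoint]
        exact Finset.sum_le_sum_of_subset_of_nonneg h4 (fun _ _ _ => by positivity)
      have h5 : Err A (J' + 1) P Q r a l = Err A J' P Q r a l +
          (1 / Ls (P (J' + 1)) (Q (J' + 1)) + r (J' + 1)) +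
          (Real.log (Q (J' + 1)) / r (J' + 1) + 1) ^ 2 * (Real.log (Q J') / r J' + 1) *
          Q J' ^ 2 * Real.exp (A * (l J' + 2) * Real.log (l J' + 2)) *
          P (J' + 1) ^ (-(2 * (a (J' + 1) - a J'))) := by
        have hh : ∀ (u v : ℕ → ℝ) (b : ℝ),
            (∑ j ∈ Finset.range (J' + 1 + 1), u j) + b + ∑ j ∈ Finset.range (J' + 1), v j =
            ((∑ j ∈ Finset.range (J' + 1), u j) + b + ∑ j ∈ Finset.range J', v j) + u (J' + 1) +
              v J' := by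
          intro u v b
          rw [Finset.sum_range_succ u (J' + 1), Finset.sum_range_succ v J']
          ring
        exact hh _ _ _
      have e1 : 2 * C1 * (N * X ^ 2) * (1 / Ls (P (J' + 1)) (Q (J' + 1)) + r (J' + 1)) ≤
          A * (N * X ^ 2) * (1 / Ls (P (J' + 1)) (Q (J' + 1)) + r (J' + 1)) := by
        have h6 : 0 ≤ 1 / Ls (P (J' + 1)) (Q (J' + 1)) + r (J' + 1) := by
          have : 0 ≤ 1 / Ls (P (J' + 1)) (Q (J' + 1)) := by
            apply div_nonneg zero_le_one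
            linarith
          linarith
        have : 2 * C1 ≤ A := by rw [hC]; linarith
        gcongr
      have e2 : 2 * B ≤ A * (N * X ^ 2) * ((Real.log (Q (J' + 1)) / r (J' + 1) + 1) ^ 2 *
          (Real.log (Q J') / r J' + 1) *
          Q J' ^ 2 * Real.exp (A * (l J' + 2) * Real.log (l J' + 2)) *
          P (J' + 1) ^ (-(2 * (a (J' + 1) - a J')))) := by
        have hlog : 0 ≤ Real.log (l J' + 2) := Real.log_nonneg (by linarith)
        have hC3C : C3 ≤ A := by rw [hC]; linarith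
        have h2C : (2 : ℝ) ≤ A := by rw [hC]; linarith
        have hexp : Real.exp (C3 * (l J' + 2) * Real.log (l J' + 2)) ≤
            Real.exp (A * (l J' + 2) * Real.log (l J' + 2)) := by
          rw [Real.exp_le_exp]
          have : 0 ≤ l J' + 2 := by linarith
          gcongr
        have hlQ : 0 ≤ Real.log (Q J') / r J' + 1 := by
          have : 0 ≤ Real.log (Q J') := Real.log_nonneg (hQge _ hJ')
          positivity
        have hPp : 0 < P (J' + 1) := by have := hPge _ hJ; linarith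
        rw [hBdef]
        calc 2 * (N * X ^ 2 * (Real.log (Q (J' + 1)) / r (J' + 1) + 1) ^ 2 * (Real.log (Q J') / r J' + 1) *
              Q J' ^ 2 * Real.exp (C3 * (l J' + 2) * Real.log (l J' + 2)) *
              P (J' + 1) ^ (-(2 * (a (J' + 1) - a J'))))
            = 2 * (N * X ^ 2) * ((Real.log (Q (J' + 1)) / r (J' + 1) + 1) ^ 2 *
              (Real.log (Q J') / r J' + 1) *
              Q J' ^ 2 * Real.exp (C3 * (l J' + 2) * Real.log (l J' + 2)) *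
              P (J' + 1) ^ (-(2 * (a (J' + 1) - a J')))) := by ring
          _ ≤ A * (N * X ^ 2) * ((Real.log (Q (J' + 1)) / r (J' + 1) + 1) ^ 2 *
              (Real.log (Q J') / r J' + 1) *
              Q J' ^ 2 * Real.exp (A * (l J' + 2) * Real.log (l J' + 2)) *
              P (J' + 1) ^ (-(2 * (a (J' + 1) - a J')))) := by gcongr
      rw [h5]
      have e3 : A * (N * X ^ 2) * (Err A J' P Q r a l +
          (1 / Ls (P (J' + 1)) (Q (J' + 1)) + r (J' + 1)) +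
          (Real.log (Q (J' + 1)) / r (J' + 1) + 1) ^ 2 * (Real.log (Q J') / r J' + 1) *
          Q J' ^ 2 * Real.exp (A * (l J' + 2) * Real.log (l J' + 2)) *
          P (J' + 1) ^ (-(2 * (a (J' + 1) - a J')))) =
          A * (N * X ^ 2) * Err A J' P Q r a l +
          A * (N * X ^ 2) * (1 / Ls (P (J' + 1)) (Q (J' + 1)) + r (J' + 1)) +
          A * (N * X ^ 2) * ((Real.log (Q (J' + 1)) / r (J' + 1) + 1) ^ 2 * (Real.log (Q J') / r J' + 1) *
          Q J' ^ 2 * Real.exp (A * (l J' + 2) * Real.log (l J' + 2)) *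
          P (J' + 1) ^ (-(2 * (a (J' + 1) - a J')))) := by ring
      rw [e3]
      linarith
  have hfin := main J le_rfl
  rw [mul_assoc A (N : ℝ) (X ^ 2)]
  exact hfin

end Pool.Agent.SplM

end

/-! ### from `Lib_MP_f1a94e_mu.Params` -/

section

/-!
# Piece PARAMS: choice of the parameters of the stages
-/

set_option autoImplicit false

namespace Pool.Agent.GaussMR

namespace ParamsP

theorem Ls_lower {C' : ℝ} (hC' : ∀ P Q : ℝ, 2 ≤ P → P ≤ Q →
    |Ls P Q - (Real.log (Real.log Q) - Real.log (Real.log P)) / 2| ≤ C') {u v : ℝ} (hu : 1 ≤ u)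
    (huv : u ≤ v) : (Real.log v - Real.log u) / 2 - C' ≤ Ls (Real.exp u) (Real.exp v) := by
  have h2 : 2 ≤ Real.exp u := by
    have := Real.add_one_le_exp u
    linarith
  have h := hC' (Real.exp u) (Real.exp v) h2 (Real.exp_le_exp.mpr huv)
  rw [Real.log_exp, Real.log_exp] at h
  have := (abs_le.mp h).1
  linarith

/-- the large parameters -/
theorem large (C2 M ρ L : ℝ) (hC2 : 1 ≤ C2) (hM : 1 ≤ M) (hρ : 0 < ρ) :
    ∃ X0 : ℝ, ∀ X : ℝ, X0 ≤ X → 1 < X ∧ 0 < Real.log X ∧ L ≤ C2 * Real.log (Real.log X) ∧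
      20 * M * (C2 * Real.log (Real.log X)) ≤ Real.log X ∧ X ^ (-(1 / 4 : ℝ)) ≤ ρ := by
  have h1 : Filter.Tendsto (fun X : ℝ => Real.log (Real.log X)) Filter.atTop Filter.atTop :=
    Real.tendsto_log_atTop.comp Real.tendsto_log_atTop
  have h2 : Filter.Tendsto (fun X : ℝ => X ^ (-(1 / 4 : ℝ))) Filter.atTop (nhds 0) :=
    tendsto_rpow_neg_atTop (by norm_num)
  have h3 : (fun X : ℝ => Real.log (Real.log X)) =o[Filter.atTop] (fun X : ℝ => Real.log X) :=
    Real.isLittleO_log_id_atTop.comp_tendsto Real.tendsto_log_atTop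
  have hc : 0 < 1 / (20 * M * C2) := by positivity
  have h4 := h3.bound hc
  have hev : ∀ᶠ X : ℝ in Filter.atTop, 1 < X ∧ 0 < Real.log X ∧
      L ≤ C2 * Real.log (Real.log X) ∧
      20 * M * (C2 * Real.log (Real.log X)) ≤ Real.log X ∧ X ^ (-(1 / 4 : ℝ)) ≤ ρ := by
    filter_upwards [h1.eventually_ge_atTop (max L 0), h2.eventually_le_const hρ, h4,
      Filter.eventually_gt_atTop 1, Real.tendsto_log_atTop.eventually_gt_atTop 0] with X a1 a2 a3 a4 a5
    have a6 : L ≤ Real.log (Real.log X) := (le_max_left _ _).trans a1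
    have a7 : 0 ≤ Real.log (Real.log X) := (le_max_right _ _).trans a1
    refine ⟨a4, a5, ?_, ?_, a2⟩
    · exact a6.trans (le_mul_of_one_le_left a7 hC2)
    · rw [Real.norm_of_nonneg a7, Real.norm_of_nonneg a5.le] at a3
      have h5 := mul_le_mul_of_nonneg_left a3 (by positivity : 0 ≤ 20 * M * C2)
      have h6 : 20 * M * C2 * (1 / (20 * M * C2) * Real.log X) = Real.log X := by
        field_simp
      rw [h6] at h5
      linarith
  exact Filter.eventually_atTop.mp hev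

theorem exists_J {b lam : ℝ} (hb : 2 ≤ b) (h : b ^ 8 ≤ lam) :
    ∃ n : ℕ, (b ^ (2 ^ n)) ^ 8 ≤ lam ∧ lam < (b ^ (2 ^ n)) ^ 16 := by
  classical
  have hex : ∃ n : ℕ, lam < (b ^ (2 ^ n)) ^ 8 := by
    obtain ⟨n, hn⟩ := pow_unbounded_of_one_lt lam (by linarith : 1 < b)
    refine ⟨n, hn.trans_le ?_⟩
    rw [← pow_mul]
    refine pow_le_pow_right₀ (by linarith) ?_
    have := Nat.lt_two_pow_self (n := n)
    omega
  have h0 : Nat.find hex ≠ 0 := by
    intro h0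
    have := Nat.find_spec hex
    rw [h0] at this
    simp only [pow_zero, pow_one] at this
    linarith
  obtain ⟨n, hn⟩ := Nat.exists_eq_succ_of_ne_zero h0
  refine ⟨n, not_lt.mp (Nat.find_min hex (by omega)), ?_⟩
  have := Nat.find_spec hex
  rw [hn] at this
  refine this.trans_le (le_of_eq ?_)
  rw [← pow_mul, ← pow_mul, Nat.succ_eq_add_one, pow_succ]
  congr 1
  ring

end ParamsP

open ParamsP in
/-- Choice. `Ls P Q ≥ (log log Q - log log P) / 2 - C'` (`Ls_bounds`). `M` with `log M / 2 - C' ≥ 8 / ε` and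
`≥ 1`, `ρ = ε / 16` (or `1` if smaller). `b` large: `μ_j = b ^ (2 ^ j)`, and for `j < J`
`P_j = exp (μ_j ^ 4)`, `Q_j = exp (μ_j ^ 5)` (so `Ls ≥ (log μ_j) / 2 - C' ≥ (log μ_j) / 4 ≥ 1`),
`r_j = 1 / μ_j`, `a_j = α (1 - 1 / 2 ^ (j+1))`, `Q0 = exp (b ^ 5)`. With `λ = C2 log log X` let `J ≥ 1` be such
that `μ_(J-1) ^ 8 ≤ λ < μ_(J-1) ^ 16 = μ_J ^ 8` (exists for large `X`), and stage `J` has
`P_J = (log X)^C2 = exp λ`, `Q_J = exp (M λ)`, `r_J = ρ`, `a_J = α`. `l_j = 2 log Q_(j+1) / log P_j`: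
`2 μ_j ^ 6` for `j + 1 < J` and `2 M λ / μ_(J-1) ^ 4` for `j = J - 1` (both `≥ 1`).
The terms of `Err`: `param_first`, `param_step` (`μ_(j+1) = μ_j²`, `a_(j+1) - a_j = α / 2^(j+2)`),
`param_last` (`α - a_(J-1) = α / 2^J`), `param_sums`. `Q_j ^ 20 ≤ X`, `X^(-1/4) ≤ r_j`: clear for large
`X`, as `μ_j ≤ λ` and `Q_j ≤ exp (λ + M λ)`, for `j < J`. -/
theorem params (C α C2 ε : ℝ) (hC : 0 < C) (hα : 0 < α) (hα1 : α ≤ 1) (hC2 : 1 ≤ C2) (hε : 0 < ε) :
    ∃ M ρ Q0 : ℝ, 1 ≤ M ∧ 0 < ρ ∧ ρ ≤ 1 ∧ 1 ≤ Q0 ∧ ∃ X0 : ℝ, ∀ X : ℝ, X0 ≤ X →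
      ∃ (J : ℕ) (P Q r a l : ℕ → ℝ), Adm X J P Q r a l ∧ Q 0 = Q0 ∧ P J = Real.log X ^ C2 ∧
        Q J = Real.log X ^ (C2 * M) ∧ r J = ρ ∧ a J = α ∧ Err C J P Q r a l ≤ ε := by
  obtain ⟨C', hC'⟩ := Ls_bounds
  have hC'0 : 0 ≤ C' := (abs_nonneg _).trans (hC' 2 2 le_rfl le_rfl)
  obtain ⟨M, hM⟩ : ∃ M : ℝ, M = Real.exp (2 * (C' + 8 / ε + 1)) := ⟨_, rfl⟩
  have h8 : 0 < 8 / ε := by positivity
  have hM1 : 1 ≤ M := by
    rw [hM]
    apply Real.one_le_exp
    positivity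
  have hlogM : Real.log M = 2 * (C' + 8 / ε + 1) := by rw [hM, Real.log_exp]
  obtain ⟨ρ, hρ⟩ : ∃ ρ : ℝ, ρ = min 1 (ε / 16) := ⟨_, rfl⟩
  have hρ0 : 0 < ρ := by rw [hρ]; positivity
  have hρ1 : ρ ≤ 1 := by rw [hρ]; exact min_le_left _ _
  have hρε : ρ ≤ ε / 16 := by rw [hρ]; exact min_le_right _ _
  obtain ⟨b1, hb1, hstep⟩ := param_step C α hC.le hα
  obtain ⟨L0, hL0, hlast⟩ := param_last C α M ρ hC.le hα hM1 hρ0
  obtain ⟨b2, hb2, hfirst⟩ := param_first α (ε / 16) hα (by positivity)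
  obtain ⟨b3, hb3, hsums⟩ := param_sums (ε / 16) (by positivity)
  obtain ⟨b, hb⟩ : ∃ b : ℝ, b = max (max b1 b2) (max b3 (Real.exp (4 * C' + 4))) := ⟨_, rfl⟩
  have hbb1 : b1 ≤ b := by rw [hb]; exact (le_max_left _ _).trans (le_max_left _ _)
  have hbb2 : b2 ≤ b := by rw [hb]; exact (le_max_right _ _).trans (le_max_left _ _)
  have hbb3 : b3 ≤ b := by rw [hb]; exact (le_max_left _ _).trans (le_max_right _ _)
  have hbb4 : Real.exp (4 * C' + 4) ≤ b := by rw [hb]; exact (le_max_right _ _).trans (le_max_right _ _)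
  have hb2' : 2 ≤ b := hb3.trans hbb3
  obtain ⟨hs1, hs2, hs3, hs4⟩ := hsums b hbb3
  obtain ⟨μ, hμ⟩ : ∃ μ : ℕ → ℝ, μ = fun j => b ^ (2 ^ j) := ⟨_, rfl⟩
  have hμb : ∀ j, b ≤ μ j := by
    intro j
    rw [hμ]
    calc b = b ^ 1 := (pow_one b).symm
      _ ≤ b ^ (2 ^ j) := pow_le_pow_right₀ (by linarith) Nat.one_le_two_pow
  have hμ0 : μ 0 = b := by rw [hμ]; simp
  have hμs : ∀ j, μ (j + 1) = μ j ^ 2 := by
    intro j
    rw [hμ]
    simp only
    rw [← pow_mul, pow_succ]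
  have hμ1 : ∀ j, 1 ≤ μ j := fun j => by linarith [hμb j]
  have hμp : ∀ j, 0 < μ j := fun j => by linarith [hμb j]
  have hμmono : ∀ i j, i ≤ j → μ i ≤ μ j := by
    intro i j hij
    rw [hμ]
    exact pow_le_pow_right₀ (by linarith) (Nat.pow_le_pow_right (by norm_num) hij)
  have hμlog : ∀ j, 4 * C' + 4 ≤ Real.log (μ j) := by
    intro j
    rw [Real.le_log_iff_exp_le (hμp j)]
    exact hbb4.trans (hμb j)
  have hμ2j : ∀ j, (2 : ℝ) ^ j ≤ μ j := by
    intro j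
    rw [hμ]
    exact hs1 j
  obtain ⟨X0, hX0⟩ := large C2 M ρ (max (max (b ^ 8) L0) 2) hC2 hM1 hρ0
  refine ⟨M, ρ, Real.exp (b ^ 5), hM1, hρ0, hρ1, Real.one_le_exp (by positivity), X0, ?_⟩
  intro X hX
  obtain ⟨hX1, hlX, hlam, hlam20, hXρ⟩ := hX0 X hX
  obtain ⟨lam, hlamdef⟩ : ∃ lam : ℝ, lam = C2 * Real.log (Real.log X) := ⟨_, rfl⟩
  rw [← hlamdef] at hlam hlam20
  have hlamb : b ^ 8 ≤ lam := (le_max_left _ _).trans ((le_max_left _ _).trans hlam)
  have hlamL : L0 ≤ lam := (le_max_right _ _).trans ((le_max_left _ _).trans hlam)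
  have hlam2 : 2 ≤ lam := (le_max_right _ _).trans hlam
  have hXpos : 0 < X := by linarith
  obtain ⟨n, hn1, hn2⟩ := exists_J hb2' hlamb
  have hn1' : μ n ^ 8 ≤ lam := by rw [hμ]; exact hn1
  have hn2' : lam < μ n ^ 16 := by rw [hμ]; exact hn2
  have hμlam : ∀ j, j ≤ n → ∀ i, i ≤ 8 → μ j ^ i ≤ lam := by
    intro j hj i hi
    calc μ j ^ i ≤ μ j ^ 8 := pow_le_pow_right₀ (hμ1 j) hi
      _ ≤ μ n ^ 8 := pow_le_pow_left₀ (hμp j).le (hμmono j n hj) 8
      _ ≤ lam := hn1'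
  have hlam0 : 0 ≤ lam := by linarith only [hlam2]
  have hMlam : lam ≤ M * lam := le_mul_of_one_le_left hlam0 hM1
  have hlogX20 : 20 * lam ≤ Real.log X := by linarith only [hMlam, hlam20]
  -- the sequences
  obtain ⟨P, hP⟩ : ∃ P : ℕ → ℝ, P = fun j => if j ≤ n then Real.exp (μ j ^ 4) else Real.exp lam :=
    ⟨_, rfl⟩
  obtain ⟨Q, hQ⟩ : ∃ Q : ℕ → ℝ, Q = fun j => if j ≤ n then Real.exp (μ j ^ 5)
    else Real.exp (M * lam) := ⟨_, rfl⟩
  obtain ⟨r, hr⟩ : ∃ r : ℕ → ℝ, r = fun j => if j ≤ n then 1 / μ j else ρ := ⟨_, rfl⟩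
  obtain ⟨a, ha⟩ : ∃ a : ℕ → ℝ, a = fun j => if j ≤ n then α * (1 - 1 / 2 ^ (j + 1)) else α :=
    ⟨_, rfl⟩
  obtain ⟨l, hl⟩ : ∃ l : ℕ → ℝ, l = fun j => if j < n then 2 * μ j ^ 6
    else 2 * M * lam / μ j ^ 4 := ⟨_, rfl⟩
  have Pj : ∀ j, j ≤ n → P j = Real.exp (μ j ^ 4) := fun j hj => by rw [hP]; exact if_pos hj
  have Qj : ∀ j, j ≤ n → Q j = Real.exp (μ j ^ 5) := fun j hj => by rw [hQ]; exact if_pos hj
  have rj : ∀ j, j ≤ n → r j = 1 / μ j := fun j hj => by rw [hr]; exact if_pos hj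
  have aj : ∀ j, j ≤ n → a j = α * (1 - 1 / 2 ^ (j + 1)) := fun j hj => by rw [ha]; exact if_pos hj
  have lj : ∀ j, j < n → l j = 2 * μ j ^ 6 := fun j hj => by rw [hl]; exact if_pos hj
  have PJ : P (n + 1) = Real.exp lam := by rw [hP]; exact if_neg (by omega)
  have QJ : Q (n + 1) = Real.exp (M * lam) := by rw [hQ]; exact if_neg (by omega)
  have rJ : r (n + 1) = ρ := by rw [hr]; exact if_neg (by omega)
  have aJ : a (n + 1) = α := by rw [ha]; exact if_neg (by omega)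
  have lJ : l n = 2 * M * lam / μ n ^ 4 := by rw [hl]; exact if_neg (by omega)
  have haj01 : ∀ j, 0 ≤ α * (1 - 1 / 2 ^ (j + 1)) ∧ α * (1 - 1 / 2 ^ (j + 1)) ≤ α := by
    intro j
    have h1 : (1 : ℝ) ≤ 2 ^ (j + 1) := one_le_pow₀ (by norm_num)
    have h2 : (1 : ℝ) / 2 ^ (j + 1) ≤ 1 := by
      rw [div_le_one (by positivity)]
      exact h1
    have h3 : (0 : ℝ) < 1 / 2 ^ (j + 1) := by positivity
    constructor
    · exact mul_nonneg hα.le (by linarith only [h2])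
    · linarith only [mul_nonneg hα.le h3.le]
  have hLsj : ∀ j, j ≤ n → Real.log (μ j) / 4 ≤ Ls (P j) (Q j) ∧ 1 ≤ Real.log (μ j) / 4 := by
    intro j hj
    rw [Pj j hj, Qj j hj]
    have h1 := Ls_lower hC' (one_le_pow₀ (hμ1 j) : 1 ≤ μ j ^ 4)
      (pow_le_pow_right₀ (hμ1 j) (by norm_num : 4 ≤ 5))
    rw [Real.log_pow, Real.log_pow] at h1
    push_cast at h1
    have h2 := hμlog j
    constructor <;> linarith
  have hLsJ : 8 / ε + 1 ≤ Ls (P (n + 1)) (Q (n + 1)) := by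
    rw [PJ, QJ]
    have h1 := Ls_lower hC' (by linarith only [hlam2] : 1 ≤ lam) hMlam
    rw [Real.log_mul (by linarith) (by linarith), hlogM] at h1
    linarith
  have hPJC : P (n + 1) = Real.log X ^ C2 := by
    rw [PJ, Real.rpow_def_of_pos hlX, hlamdef]
    congr 1
    ring
  have hQJC : Q (n + 1) = Real.log X ^ (C2 * M) := by
    rw [QJ, Real.rpow_def_of_pos hlX, hlamdef]
    congr 1
    ring
  have hexp20 : ∀ v : ℝ, 20 * v ≤ Real.log X → Real.exp v ^ 20 ≤ X := by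
    intro v hv
    rw [← Real.exp_nat_mul, ← Real.le_log_iff_exp_le hXpos]
    push_cast
    exact hv
  have hX4 : X ^ (-(1 / 4 : ℝ)) ≤ 1 / lam := by
    rw [Real.rpow_def_of_pos hXpos, le_div_iff₀ (by linarith)]
    have h1 : lam ≤ Real.exp (Real.log X * (1 / 4)) := by
      have := Real.add_one_le_exp (Real.log X * (1 / 4))
      linarith
    calc Real.exp (Real.log X * -(1 / 4)) * lam ≤
        Real.exp (Real.log X * -(1 / 4)) * Real.exp (Real.log X * (1 / 4)) := by gcongr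
      _ = 1 := by
        rw [← Real.exp_add]
        have : Real.log X * -(1 / 4) + Real.log X * (1 / 4) = 0 := by ring
        rw [this, Real.exp_zero]
  refine ⟨n + 1, P, Q, r, a, l, ⟨?_, ?_⟩, ?_, hPJC, hQJC, rJ, aJ, ?_⟩
  · -- conditions for j ≤ J
    intro j hj
    rcases Nat.lt_or_ge n j with hjn | hjn
    · have hje : j = n + 1 := by omega
      rw [hje]
      refine ⟨?_, ?_, ?_, ?_, ?_, ?_, ?_, ?_, ?_⟩
      · rw [PJ]; exact Real.exp_le_exp.mpr hlam2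
      · rw [PJ, QJ]; exact Real.exp_le_exp.mpr hMlam
      · rw [QJ]; exact hexp20 _ (by linarith)
      · rw [rJ]; exact hρ0
      · rw [rJ]; exact hρ1
      · rw [rJ]; exact hXρ
      · linarith
      · rw [aJ]; exact hα.le
      · rw [aJ]; exact hα1
    · refine ⟨?_, ?_, ?_, ?_, ?_, ?_, ?_, ?_, ?_⟩
      · rw [Pj j hjn]
        apply Real.exp_le_exp.mpr
        calc (2 : ℝ) ≤ μ j := by linarith [hμb j]
          _ = μ j ^ 1 := (pow_one _).symm
          _ ≤ μ j ^ 4 := pow_le_pow_right₀ (hμ1 j) (by norm_num)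
      · rw [Pj j hjn, Qj j hjn]
        exact Real.exp_le_exp.mpr (pow_le_pow_right₀ (hμ1 j) (by norm_num))
      · rw [Qj j hjn]
        apply hexp20
        have := hμlam j hjn 5 (by norm_num)
        linarith
      · rw [rj j hjn]
        have := hμp j
        positivity
      · rw [rj j hjn, div_le_one (hμp j)]
        exact hμ1 j
      · rw [rj j hjn]
        refine hX4.trans ?_
        apply one_div_le_one_div_of_le (hμp j)
        have := hμlam j hjn 1 (by norm_num)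
        rwa [pow_one] at this
      · linarith [(hLsj j hjn).1, (hLsj j hjn).2]
      · rw [aj j hjn]; exact (haj01 j).1
      · rw [aj j hjn]; exact (haj01 j).2.trans hα1
  · -- conditions for j < J
    intro j hj
    have hjn : j ≤ n := by omega
    rcases Nat.lt_or_ge j n with hlt | hge
    · refine ⟨?_, ?_, ?_⟩
      · rw [aj j hjn, aj (j + 1) (by omega)]
        have h1 : (1 : ℝ) / 2 ^ (j + 1 + 1) ≤ 1 / 2 ^ (j + 1) :=
          one_div_le_one_div_of_le (by positivity) (pow_le_pow_right₀ (by norm_num) (by omega))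
        exact mul_le_mul_of_nonneg_left (by linarith only [h1]) hα.le
      · rw [lj j hlt]
        have : (1 : ℝ) ≤ μ j ^ 6 := one_le_pow₀ (hμ1 j)
        linarith
      · rw [lj j hlt, Qj (j + 1) (by omega), Pj j hjn, Real.log_exp, Real.log_exp, hμs]
        exact le_of_eq (by ring)
    · have hje : j = n := by omega
      rw [hje]
      refine ⟨?_, ?_, ?_⟩
      · rw [aj n le_rfl, aJ]; exact (haj01 n).2
      · rw [lJ, le_div_iff₀ (pow_pos (hμp n) 4)]
        have := hμlam n le_rfl 4 (by norm_num)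
        linarith only [this, hMlam, hlam0]
      · rw [lJ, QJ, Pj n le_rfl, Real.log_exp, Real.log_exp, div_mul_cancel₀ _ (pow_pos (hμp n) 4).ne']
        exact le_of_eq (by ring)
  · rw [Qj 0 (Nat.zero_le n), hμ0]
  · -- the error
    have hsumA : ∑ j ∈ Finset.range (n + 1 + 1), (1 / Ls (P j) (Q j) + r j) ≤
        ε / 16 + ε / 16 + (ε / 8 + ε / 16) := by
      rw [Finset.sum_range_succ]
      refine add_le_add ?_ (add_le_add ?_ ?_)
      · rw [Finset.sum_add_distrib]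
        refine add_le_add ?_ ?_
        · refine le_trans (Finset.sum_le_sum fun j hj => ?_) (hs4 (n + 1))
          have hjn : j ≤ n := by
            have := Finset.mem_range.mp hj
            omega
          obtain ⟨h1, h2⟩ := hLsj j hjn
          have h3 : 1 / Ls (P j) (Q j) ≤ 1 / (Real.log (μ j) / 4) :=
            one_div_le_one_div_of_le (by linarith) h1
          refine h3.trans (le_of_eq ?_)
          rw [hμ, one_div_div]
        · refine le_trans (Finset.sum_le_sum fun j hj => ?_) (hs2 (n + 1))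
          have hjn : j ≤ n := by
            have := Finset.mem_range.mp hj
            omega
          rw [rj j hjn, hμ]
      · have h3 : 1 / Ls (P (n + 1)) (Q (n + 1)) ≤ 1 / (8 / ε) :=
          one_div_le_one_div_of_le h8 (by linarith)
        refine h3.trans (le_of_eq ?_)
        rw [one_div_div]
      · rw [rJ]; exact hρε
    have hfst : (Real.log (Q 0) / r 0 + 1) ^ 2 * P 0 ^ (-(2 * a 0)) ≤ ε / 16 := by
      rw [Qj 0 (Nat.zero_le n), rj 0 (Nat.zero_le n), Pj 0 (Nat.zero_le n), aj 0 (Nat.zero_le n),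
        hμ0, Real.log_exp, ← Real.exp_mul]
      have e1 : b ^ 5 / (1 / b) = b ^ 5 * b := by
        rw [div_div_eq_mul_div, div_one]
      have e2 : b ^ 4 * -(2 * (α * (1 - 1 / 2 ^ (0 + 1)))) = -(α * b ^ 4) := by ring
      rw [e1, e2]
      exact hfirst b hbb2
    have hterm : ∑ j ∈ Finset.range (n + 1), (Real.log (Q (j + 1)) / r (j + 1) + 1) ^ 2 *
        (Real.log (Q j) / r j + 1) * Q j ^ 2 * Real.exp (C * (l j + 2) * Real.log (l j + 2)) *
        P (j + 1) ^ (-(2 * (a (j + 1) - a j))) ≤ ε / 16 := by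
      refine le_trans (Finset.sum_le_sum fun j hj => ?_) (hs3 (n + 1))
      have hjn : j ≤ n := by
        have := Finset.mem_range.mp hj
        omega
      have hmp := hμp j
      have hexpμ : Real.exp (-(b ^ (2 ^ j))) = Real.exp (-(μ j)) := by rw [hμ]
      rw [hexpμ]
      have e2 : Real.log (Q j) / r j = μ j ^ 6 := by
        rw [Qj j hjn, rj j hjn, Real.log_exp, div_div_eq_mul_div, div_one]
        ring
      have e3 : Q j ^ 2 = Real.exp (2 * μ j ^ 5) := by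
        rw [Qj j hjn, ← Real.exp_nat_mul]
        push_cast
        rfl
      rw [e2, e3]
      rcases Nat.lt_or_ge j n with hlt | hge
      · have e1 : Real.log (Q (j + 1)) / r (j + 1) = μ j ^ 12 := by
          rw [Qj (j + 1) (by omega), rj (j + 1) (by omega), Real.log_exp, div_div_eq_mul_div,
            div_one, hμs]
          ring
        have e4 : P (j + 1) ^ (-(2 * (a (j + 1) - a j))) =
            Real.exp (-(α / 2 ^ (j + 1) * μ j ^ 8)) := by
          rw [Pj (j + 1) (by omega), ← Real.exp_mul, aj j hjn, aj (j + 1) (by omega), hμs]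
          congr 1
          rw [pow_succ (2 : ℝ) (j + 1)]
          field_simp
          ring
        rw [e1, e4, lj j hlt]
        exact hstep (μ j) j (hbb1.trans (hμb j)) (hμ2j j)
      · have hje : j = n := by omega
        rw [hje]
        have e1 : Real.log (Q (n + 1)) / r (n + 1) = M * lam / ρ := by
          rw [QJ, rJ, Real.log_exp]
        have e4 : P (n + 1) ^ (-(2 * (a (n + 1) - a n))) = Real.exp (-(α / 2 ^ n * lam)) := by
          rw [PJ, ← Real.exp_mul, aJ, aj n le_rfl]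
          congr 1
          rw [pow_succ (2 : ℝ) n]
          field_simp
          ring
        rw [e1, e4, lJ]
        exact hlast lam (μ n) n hlamL (hμ1 n) hn1' hn2' (hμ2j n)
    unfold Err
    linarith

end Pool.Agent.GaussMR

end

/-! ### from `Lib_MP_92ef0c_spm.MainS` -/

section

/-!
# the chain theorem
-/

set_option autoImplicit false

namespace Pool.Agent.SplM

open Pool.Agent.GaussMR (fr mem_fr nv Ls Err Adm params)

/-- one term of the last sum of `Err` -/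
theorem err_term {C X : ℝ} {J : ℕ} {P Q r a l : ℕ → ℝ} (hadm : Adm X J P Q r a l) {j : ℕ} (hj : j < J) :
    Real.exp (C * (l j + 2) * Real.log (l j + 2)) * P (j + 1) ^ (-2 : ℝ) ≤ Err C J P Q r a l := by
  obtain ⟨hA, hB⟩ := hadm
  have hPge : ∀ i ≤ J, 1 ≤ P i := by
    intro i hi
    have h1 := (hA i hi).1
    have h2 := Real.add_one_le_exp (2 : ℝ)
    linarith
  have hQge : ∀ i ≤ J, 1 ≤ Q i := fun i hi => (hPge i hi).trans (hA i hi).2.1
  have hlQ : ∀ i ≤ J, 0 ≤ Real.log (Q i) := fun i hi => Real.log_nonneg (hQge i hi)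
  have hf : ∀ i ∈ Finset.range J, 0 ≤ (Real.log (Q (i + 1)) / r (i + 1) + 1) ^ 2 * (Real.log (Q i) / r i + 1) *
      Q i ^ 2 * Real.exp (C * (l i + 2) * Real.log (l i + 2)) * P (i + 1) ^ (-(2 * (a (i + 1) - a i))) := by
    intro i hi
    rw [Finset.mem_range] at hi
    have h1 := hlQ i hi.le
    have h2 := hlQ (i + 1) hi
    have h3 := (hA i hi.le).2.2.2.1
    have h4 := (hA (i + 1) hi).2.2.2.1
    have h5 := hPge (i + 1) hi
    have h6 : 0 ≤ P (i + 1) ^ (-(2 * (a (i + 1) - a i))) := Real.rpow_nonneg (by linarith) _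
    positivity
  have h1 := Finset.single_le_sum hf (Finset.mem_range.2 hj)
  have h2 : 0 ≤ ∑ i ∈ Finset.range (J + 1), (1 / Ls (P i) (Q i) + r i) := by
    refine Finset.sum_nonneg fun i hi => ?_
    rw [Finset.mem_range] at hi
    have h3 := (hA i (by omega)).2.2.2.1
    have h4 : 0 ≤ 1 / Ls (P i) (Q i) := by
      have := (hA i (by omega)).2.2.2.2.2.2.1
      exact div_nonneg zero_le_one (by linarith)
    linarith
  have h3 : 0 ≤ (Real.log (Q 0) / r 0 + 1) ^ 2 * P 0 ^ (-(2 * a 0)) := by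
    have := hPge 0 (by omega)
    have h4 : 0 ≤ P 0 ^ (-(2 * a 0)) := Real.rpow_nonneg (by linarith) _
    positivity
  have hle : (Real.log (Q (j + 1)) / r (j + 1) + 1) ^ 2 * (Real.log (Q j) / r j + 1) *
      Q j ^ 2 * Real.exp (C * (l j + 2) * Real.log (l j + 2)) * P (j + 1) ^ (-(2 * (a (j + 1) - a j))) ≤
      Err C J P Q r a l := by
    unfold Err
    linarith
  refine le_trans ?_ hle
  have g1 : 1 ≤ (Real.log (Q (j + 1)) / r (j + 1) + 1) ^ 2 := by
    apply one_le_pow₀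
    have := div_nonneg (hlQ (j + 1) hj) (hA (j + 1) hj).2.2.2.1.le
    linarith
  have g2 : 1 ≤ Real.log (Q j) / r j + 1 := by
    have := div_nonneg (hlQ j hj.le) (hA j hj.le).2.2.2.1.le
    linarith
  have g3 : 1 ≤ Q j ^ 2 := one_le_pow₀ (hQge j hj.le)
  have g4 : P (j + 1) ^ (-2 : ℝ) ≤ P (j + 1) ^ (-(2 * (a (j + 1) - a j))) := by
    apply Real.rpow_le_rpow_of_exponent_le (hPge (j + 1) hj)
    have e1 := (hA (j + 1) hj).2.2.2.2.2.2.2.2
    have e2 := (hA j hj.le).2.2.2.2.2.2.2.1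
    linarith
  have g5 : 1 ≤ (Real.log (Q (j + 1)) / r (j + 1) + 1) ^ 2 * (Real.log (Q j) / r j + 1) * Q j ^ 2 :=
    one_le_mul_of_one_le_of_one_le (one_le_mul_of_one_le_of_one_le g1 g2) g3
  have hexp := Real.exp_pos (C * (l j + 2) * Real.log (l j + 2))
  have hPp : 0 ≤ P (j + 1) ^ (-2 : ℝ) := Real.rpow_nonneg (by have := hPge (j + 1) hj; linarith) _
  calc Real.exp (C * (l j + 2) * Real.log (l j + 2)) * P (j + 1) ^ (-2 : ℝ)
      = 1 * Real.exp (C * (l j + 2) * Real.log (l j + 2)) * P (j + 1) ^ (-2 : ℝ) := by ring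
    _ ≤ (Real.log (Q (j + 1)) / r (j + 1) + 1) ^ 2 * (Real.log (Q j) / r j + 1) * Q j ^ 2 *
          Real.exp (C * (l j + 2) * Real.log (l j + 2)) * P (j + 1) ^ (-(2 * (a (j + 1) - a j))) := by
        gcongr

/-- `Err` is monotone in the constant -/
theorem err_mono {C C' X : ℝ} (hC : C ≤ C') {J : ℕ} {P Q r a l : ℕ → ℝ} (hadm : Adm X J P Q r a l) :
    Err C J P Q r a l ≤ Err C' J P Q r a l := by
  obtain ⟨hA, hB⟩ := hadm
  unfold Err
  refine add_le_add le_rfl (Finset.sum_le_sum fun i hi => ?_)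
  rw [Finset.mem_range] at hi
  have hPge : ∀ i ≤ J, 1 ≤ P i := by
    intro i hi
    have h1 := (hA i hi).1
    have h2 := Real.add_one_le_exp (2 : ℝ)
    linarith
  have hQge : ∀ i ≤ J, 1 ≤ Q i := fun i hi => (hPge i hi).trans (hA i hi).2.1
  have h1 : 0 ≤ Real.log (Q i) := Real.log_nonneg (hQge i hi.le)
  have h3 := (hA i hi.le).2.2.2.1
  have h6 : 0 ≤ P (i + 1) ^ (-(2 * (a (i + 1) - a i))) :=
    Real.rpow_nonneg (by have := hPge (i + 1) hi; linarith) _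
  have hl := (hB i hi).2.1
  have hlog : 0 ≤ Real.log (l i + 2) := Real.log_nonneg (by linarith)
  have hexp : Real.exp (C * (l i + 2) * Real.log (l i + 2)) ≤ Real.exp (C' * (l i + 2) * Real.log (l i + 2)) := by
    rw [Real.exp_le_exp]
    have : 0 ≤ l i + 2 := by linarith
    gcongr
  have h7 : 0 ≤ (Real.log (Q (i + 1)) / r (i + 1) + 1) ^ 2 * (Real.log (Q i) / r i + 1) * Q i ^ 2 := by
    positivity
  gcongr

/-- Copy of `chainC` (Lib_MP_f1a94e_ecc/Main.lean). `l j + 1 ≤ N`: the `j`-th term of the last sum of `Err` is at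
least `exp (A (l+2) log (l+2)) Q_(j+1)^(-2)`, and `Err ≤ 1`, `A ≥ 1`, `Q_(j+1)² ≤ X^(1/10)`. -/
theorem chainS (ε δ : ℝ) (hε : 0 < ε) (hδ : 0 < δ) : ∃ Q0 X0 : ℝ, 1 ≤ Q0 ∧ ∀ X : ℝ, X0 ≤ X →
    ∀ C D : ℝ, X ^ (2 / 5 : ℝ) ≤ C → 1 ≤ D → C * D ≤ X → ∀ N : ℕ, Real.log X ≤ 3 / 2 * N → (N : ℝ) ≤ 3 * Real.log X →
    ∀ f g : ℕ → ℂ, CMN f → (∀ n, ‖g n‖ ≤ 1) → ∀ T : ℕ, (T : ℝ) ≤ N * X / Q0 →
    ∃ S : Finset ℤ, S ⊆ fr T ∧ (S.card : ℝ) ≤ X ^ δ ∧
      ∑ k ∈ fr T \ S, ‖Ps f g C D ((k : ℝ) / N)‖ ^ 2 ≤ ε * N * X ^ 2 := by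
  classical
  obtain ⟨A, hA, hchain⟩ := chainS0
  set CS : ℝ := A + 1 with hCSdef
  have hCS : 0 < CS := by positivity
  set δ' : ℝ := min δ 1 with hδ'def
  have hδ' : 0 < δ' := lt_min hδ one_pos
  have hδ'1 : δ' ≤ 1 := min_le_right _ _
  have hδ'K : δ' ≤ δ := min_le_left _ _
  set α : ℝ := δ' / 8 with hαdef
  set C2 : ℝ := 32 / δ' with hC2def
  have hα : 0 < α := by positivity
  have hαq : α ≤ 1 / 4 := by rw [hαdef]; linarith
  have hα1 : α ≤ 1 := by linarith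
  have hC2 : 32 ≤ C2 := by
    rw [hC2def, le_div_iff₀ hδ']
    linarith
  have hC2δ : 1 / C2 = δ' / 32 := by
    rw [hC2def]
    field_simp
  have hε1 : 0 < min (ε / CS) 1 := lt_min (by positivity) one_pos
  obtain ⟨M, ρ, Q0, hM1, hρ, hρ1, hQ0, XP, hparams⟩ :=
    params CS α C2 (min (ε / CS) 1) hCS hα hα1 (by linarith) hε1
  obtain ⟨XF, hfew⟩ := fewS α C2 M ρ (δ' / 4) hα hαq (by linarith) hM1 hρ hρ1 (by positivity)
  refine ⟨Q0, max 3 (max XP XF), hQ0, fun X hX C D hC hD hCD N hN1 hN2 f g hf hg T hT => ?_⟩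
  simp only [max_le_iff] at hX
  obtain ⟨hX3, hXP, hXF⟩ := hX
  have hXpos : 0 < X := by linarith
  have hX1 : 1 ≤ X := by linarith
  have hlogX : 0 < Real.log X := Real.log_pos (by linarith)
  have hN0 : (0 : ℝ) < N := by linarith
  have hNpos : 1 ≤ N := by exact_mod_cast hN0
  have hTX : (T : ℝ) ≤ N * X := hT.trans (div_le_self (by positivity) hQ0)
  obtain ⟨J, P, Q, r, a, l, hadm, hQ0', hPJ, hQJ, hrJ, haJ, herr⟩ := hparams X hXP
  have hlN : ∀ j < J, l j + 1 ≤ N := by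
    intro j hj
    obtain ⟨hA', hB'⟩ := hadm
    have h1 := err_term (C := CS) ⟨hA', hB'⟩ hj
    have h2 : Real.exp (CS * (l j + 2) * Real.log (l j + 2)) * P (j + 1) ^ (-2 : ℝ) ≤ 1 :=
      h1.trans (herr.trans (min_le_right _ _))
    have hP1 : Real.exp 2 ≤ P (j + 1) := (hA' (j + 1) hj).1
    have hP0 : 0 < P (j + 1) := (Real.exp_pos 2).trans_le hP1
    have hPQ := (hA' (j + 1) hj).2.1
    have hQX := (hA' (j + 1) hj).2.2.1
    have hQ0'' : 0 < Q (j + 1) := hP0.trans_le hPQ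
    have hl1 : 1 ≤ l j := (hB' j hj).2.1
    have h3 : Real.exp (CS * (l j + 2) * Real.log (l j + 2)) ≤ Real.exp (2 * Real.log (P (j + 1))) := by
      have e1 : P (j + 1) ^ (-2 : ℝ) = Real.exp (-(2 * Real.log (P (j + 1)))) := by
        rw [Real.rpow_def_of_pos hP0]
        congr 1
        ring
      rw [e1, ← Real.exp_add, Real.exp_le_one_iff] at h2
      rw [Real.exp_le_exp]
      linarith
    rw [Real.exp_le_exp] at h3
    have h4 : Real.log (P (j + 1)) ≤ Real.log (Q (j + 1)) := Real.log_le_log hP0 hPQ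
    have h5 : 20 * Real.log (Q (j + 1)) ≤ Real.log X := by
      have := Real.log_le_log (by positivity) hQX
      rw [Real.log_pow] at this
      exact_mod_cast this
    have h6 : (1 : ℝ) ≤ Real.log (l j + 2) := by
      rw [Real.le_log_iff_exp_le (by linarith)]
      have := Real.exp_one_lt_d9
      linarith
    have h7 : l j + 2 ≤ CS * (l j + 2) * Real.log (l j + 2) := by
      have e1 : 1 ≤ CS := by rw [hCSdef]; linarith
      have e2 : 0 ≤ l j + 2 := by linarith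
      calc l j + 2 = 1 * (l j + 2) * 1 := by ring
        _ ≤ CS * (l j + 2) * Real.log (l j + 2) := by gcongr
    linarith
  have hch := hchain f g hf hg C D X N T J P Q r a l hadm hNpos hD hCD hC hN1 hlN (by rw [hQ0']; exact hT)
  have hErr : Err A J P Q r a l ≤ ε / CS :=
    (err_mono (by rw [hCSdef]; linarith) hadm).trans (herr.trans (min_le_left _ _))
  have hb : ∑ k ∈ smallS f N T (P J) (Q J) (r J) (a J), ‖Ps f g C D ((k : ℝ) / N)‖ ^ 2 ≤ ε * N * X ^ 2 := by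
    refine hch.trans ?_
    calc A * N * X ^ 2 * Err A J P Q r a l ≤ A * N * X ^ 2 * (ε / CS) :=
          mul_le_mul_of_nonneg_left hErr (by positivity)
      _ = (A / CS) * (ε * N * X ^ 2) := by field_simp
      _ ≤ 1 * (ε * N * X ^ 2) := by
          refine mul_le_mul_of_nonneg_right ?_ (by positivity)
          rw [div_le_one hCS, hCSdef]
          linarith
      _ = ε * N * X ^ 2 := one_mul _
  rw [hPJ, hQJ, hrJ, haJ] at hb
  set S : Finset ℤ := (fr T).filter (fun k => ¬∀ v : ℕ,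
    ‖Up f N (Real.log X ^ C2) (Real.log X ^ (C2 * M)) ρ v k‖ ≤ Real.exp ((1 - α) * (v * ρ))) with hSdef
  have hSsub : S ⊆ fr T := Finset.filter_subset _ _
  refine ⟨S, hSsub, ?_, ?_⟩
  · have h1 := hfew X hXF f hf N T hN1 hN2 hTX
    have hfinS : {k : ℤ | k ∈ fr T ∧ ∃ v : ℕ, Real.exp ((1 - α) * (v * ρ)) <
        ‖Up f N (Real.log X ^ C2) (Real.log X ^ (C2 * M)) ρ v k‖}.Finite :=
      (fr T).finite_toSet.subset fun k hk => hk.1
    have h2' : S.card ≤ Set.ncard {k : ℤ | k ∈ fr T ∧ ∃ v : ℕ,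
        Real.exp ((1 - α) * (v * ρ)) <
        ‖Up f N (Real.log X ^ C2) (Real.log X ^ (C2 * M)) ρ v k‖} := by
      rw [← Set.ncard_coe_finset S]
      refine Set.ncard_le_ncard (fun k hk => ?_) hfinS
      have hk' : k ∈ S := hk
      have h3 := (Finset.mem_filter.1 hk').2
      push Not at h3
      exact ⟨hSsub hk', h3⟩
    have h2 : (S.card : ℝ) ≤ (Set.ncard {k : ℤ | k ∈ fr T ∧ ∃ v : ℕ,
        Real.exp ((1 - α) * (v * ρ)) <
        ‖Up f N (Real.log X ^ C2) (Real.log X ^ (C2 * M)) ρ v k‖} : ℝ) := by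
      exact_mod_cast h2'
    refine (h2.trans h1).trans ?_
    apply Real.rpow_le_rpow_of_exponent_le hX1
    rw [hC2δ, hαdef]
    linarith
  · refine le_trans (le_of_eq ?_) hb
    apply Finset.sum_congr _ (fun _ _ => rfl)
    unfold smallS
    ext k
    simp only [hSdef, Finset.mem_sdiff, Finset.mem_filter]
    tauto

end Pool.Agent.SplM

end

/-! ### from `Lib_MP_92ef0c_spi.ChainSt` -/

section

/-!
# Block M split: interface of the chain and of the line Parseval (helper30)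
-/

set_option autoImplicit false

namespace Pool.Agent.SplI

open Finset Pool.Agent.Spl

private theorem cs_small {K X : ℝ} (hK : 1 ≤ K) (hX : K ^ 20 ≤ X) : 1 ≤ X ∧ K ≤ X ^ (1 / 20 : ℝ) := by
  have h1 : 1 ≤ K ^ 20 := one_le_pow₀ hK
  have hX1 : 1 ≤ X := h1.trans hX
  refine ⟨hX1, ?_⟩
  have h2 : K = (K ^ 20) ^ (1 / 20 : ℝ) := by
    rw [← Real.rpow_natCast, ← Real.rpow_mul (by linarith)]
    norm_num
  rw [h2]
  exact Real.rpow_le_rpow (by positivity) hX (by norm_num)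

open Pool.Agent.GaussMR in
/-- chain of Matomaki-Radziwill for pairs, primes extracted from the first coordinate (helper30) -/
theorem chainS_st (ε δ K : ℝ) (hε : 0 < ε) (hδ : 0 < δ) (hK : 1 ≤ K) : ∃ Q0 X0 : ℝ, 1 ≤ Q0 ∧ 1 < X0 ∧ ∀ X : ℝ, X0 ≤ X →
    ∀ f g : ℕ → ℂ, (∀ m n, f (m * n) = f m * f n) → (∀ n, ‖f n‖ ≤ 1) → (∀ n, ‖g n‖ ≤ 1) →
    ∀ C D : ℝ, Real.sqrt X / K ≤ C → C ≤ K * Real.sqrt X → Real.sqrt X / K ≤ D → D ≤ K * Real.sqrt X →
    ∀ N : ℕ, Real.log X ≤ N → (N : ℝ) ≤ 2 * Real.log X → ∀ T : ℕ, (T : ℝ) ≤ N * X / Q0 →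
    ∃ S : Finset ℤ, S ⊆ fr T ∧ (S.card : ℝ) ≤ X ^ δ ∧ ∑ k ∈ fr T \ S, ‖Ps f g C D (k / N)‖ ^ 2 ≤ ε * N * X ^ 2 := by
  have hK0 : 0 < K := by linarith
  obtain ⟨Q0, X0, hQ0, h⟩ := SplM.chainS (ε / K ^ 4) (δ / 2) (by positivity) (by positivity)
  refine ⟨Q0, max X0 (max 2 (K ^ 20)), hQ0, lt_max_of_lt_right (lt_max_of_lt_left (by norm_num)), ?_⟩
  intro X hX f g hfm hfb hgb C D hC1 hC2 hD1 hD2 N hN1 hN2 T hT
  have hX0 : X0 ≤ X := (le_max_left _ _).trans hX
  have hX2 : 2 ≤ X := ((le_max_left _ _).trans (le_max_right _ _)).trans hX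
  have hXK : K ^ 20 ≤ X := ((le_max_right _ _).trans (le_max_right _ _)).trans hX
  obtain ⟨hX1, hKX⟩ := cs_small hK hXK
  have hXpos : 0 < X := by linarith
  have hK2 : 1 ≤ K ^ 2 := one_le_pow₀ hK
  have hX' : X ≤ K ^ 2 * X := by nlinarith
  have hlogX : 0 < Real.log X := Real.log_pos (by linarith)
  have hK2X : K ^ 2 * X ≤ X ^ (11 / 10 : ℝ) := by
    have h1 : K ^ 2 ≤ (X ^ (1 / 20 : ℝ)) ^ 2 := pow_le_pow_left₀ (by linarith) hKX 2
    have h2 : (X ^ (1 / 20 : ℝ)) ^ 2 * X = X ^ (11 / 10 : ℝ) := by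
      have h3 : (X ^ (1 / 20 : ℝ)) ^ 2 = X ^ (1 / 10 : ℝ) := by
        rw [← Real.rpow_natCast, ← Real.rpow_mul hXpos.le]
        norm_num
      rw [h3]
      nth_rewrite 2 [← Real.rpow_one X]
      rw [← Real.rpow_add hXpos]
      norm_num
    calc K ^ 2 * X ≤ (X ^ (1 / 20 : ℝ)) ^ 2 * X := by gcongr
      _ = _ := h2
  have hsq : X ^ (9 / 20 : ℝ) ≤ Real.sqrt X / K := by
    rw [le_div_iff₀ hK0, Real.sqrt_eq_rpow]
    calc X ^ (9 / 20 : ℝ) * K ≤ X ^ (9 / 20 : ℝ) * X ^ (1 / 20 : ℝ) := by gcongr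
      _ = X ^ (1 / 2 : ℝ) := by
        rw [← Real.rpow_add hXpos]
        norm_num
  have h1X : 1 ≤ X ^ (9 / 20 : ℝ) := Real.one_le_rpow hX1 (by norm_num)
  have hCD : C * D ≤ K ^ 2 * X := by
    have h2 : 0 ≤ D := (zero_le_one.trans h1X).trans (hsq.trans hD1)
    calc C * D ≤ (K * Real.sqrt X) * (K * Real.sqrt X) := mul_le_mul hC2 hD2 h2 (by positivity)
      _ = K ^ 2 * (Real.sqrt X * Real.sqrt X) := by ring
      _ = K ^ 2 * X := by rw [Real.mul_self_sqrt hXpos.le]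
  have hCl : (K ^ 2 * X) ^ (2 / 5 : ℝ) ≤ C := by
    calc (K ^ 2 * X) ^ (2 / 5 : ℝ) ≤ (X ^ (11 / 10 : ℝ)) ^ (2 / 5 : ℝ) :=
          Real.rpow_le_rpow (by positivity) hK2X (by norm_num)
      _ = X ^ (11 / 25 : ℝ) := by
          rw [← Real.rpow_mul hXpos.le]
          norm_num
      _ ≤ X ^ (9 / 20 : ℝ) := Real.rpow_le_rpow_of_exponent_le hX1 (by norm_num)
      _ ≤ C := hsq.trans hC1
  have hlog : Real.log (K ^ 2 * X) ≤ 11 / 10 * Real.log X := by
    rw [← Real.log_rpow hXpos]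
    exact Real.log_le_log (by positivity) hK2X
  have hlog' : Real.log X ≤ Real.log (K ^ 2 * X) := Real.log_le_log hXpos hX'
  obtain ⟨S, hS, hSc, hSs⟩ := h (K ^ 2 * X) (hX0.trans hX') C D hCl (h1X.trans (hsq.trans hD1)) hCD N (by linarith)
    (by linarith) f g ⟨hfm, hfb⟩ hgb T (hT.trans (by gcongr))
  refine ⟨S, hS, hSc.trans ?_, ?_⟩
  · calc (K ^ 2 * X) ^ (δ / 2) ≤ (X ^ (11 / 10 : ℝ)) ^ (δ / 2) :=
          Real.rpow_le_rpow (by positivity) hK2X (by positivity)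
      _ = X ^ (11 / 10 * (δ / 2)) := by rw [← Real.rpow_mul hXpos.le]
      _ ≤ X ^ δ := Real.rpow_le_rpow_of_exponent_le hX1 (by linarith)
  · calc ∑ k ∈ fr T \ S, ‖Ps f g C D (k / N)‖ ^ 2 ≤ ε / K ^ 4 * N * (K ^ 2 * X) ^ 2 := hSs
      _ = ε * N * X ^ 2 := by field_simp

open Pool.Agent.GaussMR in
/-- the sum over the shifts is an integral (cf. `disc`) -/
private theorem cs_disc (h : ℝ → ℝ) (hc : Continuous h) (N T : ℕ) (hN : 0 < N) :
    ∫ s in (0 : ℝ)..1, ∑ k ∈ fr T, h ((k + s) / N) = N * ∫ x in (-(T : ℝ) / N)..((T + 1) / N), h x := by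
  have hN0 : (0 : ℝ) < N := by exact_mod_cast hN
  have hInt : ∀ a b : ℝ, IntervalIntegrable h MeasureTheory.volume a b := fun a b => hc.intervalIntegrable a b
  let a : ℕ → ℝ := fun j => ((j : ℝ) - T) / N
  have h2 : ∑ k ∈ range (2 * T + 1), ∫ x in (a k)..(a (k + 1)), h x = ∫ x in (a 0)..(a (2 * T + 1)), h x :=
    intervalIntegral.sum_integral_adjacent_intervals (fun k _ => hInt _ _)
  have h3 : ∀ k : ℕ, ∫ x in (a k)..(a (k + 1)), h x = (1 / N) * ∫ s in (0:ℝ)..1, h ((((k : ℝ) - T) + s) / N) := by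
    intro k
    have h4 := intervalIntegral.integral_comp_mul_add (a := 0) (b := 1) h (c := 1 / (N : ℝ)) (by positivity) (((k : ℝ) - T) / N)
    have e1 : (fun s : ℝ => h ((((k : ℝ) - T) + s) / N)) = fun s => h (1 / (N : ℝ) * s + ((k : ℝ) - T) / N) := by
      funext s; congr 1; ring
    rw [e1, h4, smul_eq_mul]
    have e2 : 1 / (N : ℝ) * 0 + ((k : ℝ) - T) / N = a k := by simp only [a]; ring
    have e3 : 1 / (N : ℝ) * 1 + ((k : ℝ) - T) / N = a (k + 1) := by simp only [a]; push_cast; ring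
    rw [e2, e3]
    field_simp
  have h5 : ∫ x in (a 0)..(a (2 * T + 1)), h x = (1 / N) * ∫ s in (0:ℝ)..1, ∑ k ∈ range (2 * T + 1), h ((((k : ℝ) - T) + s) / N) := by
    rw [← h2, intervalIntegral.integral_finsetSum (fun k _ => (by
      refine Continuous.intervalIntegrable ?_ _ _
      exact hc.comp (by fun_prop)))]
    rw [mul_sum]
    exact sum_congr rfl fun k _ => h3 k
  have e0 : a 0 = -(T : ℝ) / N := by simp [a]
  have e1 : a (2 * T + 1) = ((T : ℝ) + 1) / N := by simp only [a]; push_cast; ring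
  rw [e0, e1] at h5
  have h6 : ∀ s : ℝ, ∑ k ∈ fr T, h ((k + s) / N) = ∑ k ∈ range (2 * T + 1), h ((((k : ℝ) - T) + s) / N) :=
    fun s => disc_sum T (fun x => h ((x + s) / N))
  simp_rw [h6]
  rw [h5]
  field_simp

open Pool.Agent.GaussMR in
/-- Parseval on the line and the mean value theorem (helper30) -/
theorem line_st (K : ℝ) (hK : 1 ≤ K) : ∃ C0 : ℝ, 0 < C0 ∧ ∀ X : ℝ, 1 ≤ X → ∀ f g : ℕ → ℂ, (∀ n, ‖f n‖ ≤ 1) → (∀ n, ‖g n‖ ≤ 1) →
    ∀ C D : ℝ, 1 ≤ C → C ≤ K * Real.sqrt X → 1 ≤ D → D ≤ K * Real.sqrt X → ∀ w T : ℝ, 0 < w → 1 ≤ T → T ≤ X →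
    ∫ τ, ‖Sg f g C D w τ‖ ^ 2 ≤ w ^ 2 * (∫ t in (-T)..T, ‖Ps f g C D t‖ ^ 2) + C0 * (X / T) ^ 2 := by
  obtain ⟨A, hA, h⟩ := SplM.arcS
  refine ⟨A * (9 * K ^ 4), by positivity, ?_⟩
  intro X hX f g hf hg C D hC1 hC2 hD1 hD2 w T hw hT1 hTX
  have hK0 : 0 < K := by linarith
  have hX0 : 0 < X := by linarith
  have hK2 : 1 ≤ K ^ 2 := one_le_pow₀ hK
  have hX' : X ≤ K ^ 2 * X := by nlinarith
  have hCD : C * D ≤ K ^ 2 * X := by
    calc C * D ≤ (K * Real.sqrt X) * (K * Real.sqrt X) := mul_le_mul hC2 hD2 (by linarith) (by positivity)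
      _ = K ^ 2 * (Real.sqrt X * Real.sqrt X) := by ring
      _ = K ^ 2 * X := by rw [Real.mul_self_sqrt hX0.le]
  set N : ℕ := ⌈Real.log (K ^ 2 * X) + w⌉₊ + 3 with hN
  have hN1 : Real.log (K ^ 2 * X) + w ≤ N := by
    rw [hN]
    push_cast
    have := Nat.le_ceil (Real.log (K ^ 2 * X) + w)
    linarith
  have hN3 : (3 : ℝ) ≤ N := by
    rw [hN]
    push_cast
    have : (0 : ℝ) ≤ (⌈Real.log (K ^ 2 * X) + w⌉₊ : ℝ) := Nat.cast_nonneg _
    linarith
  have hN0 : (0 : ℝ) < N := by linarith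
  have hNpos : 0 < N := by exact_mod_cast hN0
  have hTN : 3 ≤ T * N := by nlinarith
  set T' : ℕ := ⌊T * N⌋₊ - 1 with hT'
  have hfl3 : 3 ≤ ⌊T * N⌋₊ := Nat.le_floor (by exact_mod_cast hTN)
  have hT'1 : 1 ≤ T' := by omega
  have hT'e : (T' : ℝ) + 1 = ⌊T * N⌋₊ := by
    have : T' + 1 = ⌊T * N⌋₊ := by omega
    exact_mod_cast this
  have hfl := Nat.floor_le (show 0 ≤ T * N by positivity)
  have hfl2 := Nat.lt_floor_add_one (T * N)
  have hT'u : (T' : ℝ) + 1 ≤ T * N := by rw [hT'e]; exact hfl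
  have hT'l : T * N / 3 ≤ T' := by linarith
  have hT'0 : (0 : ℝ) < T' := by exact_mod_cast hT'1
  set I : ℝ := ∫ τ, ‖Sg f g C D w τ‖ ^ 2 with hI
  set B : ℝ := A * (9 * K ^ 4) * (X / T) ^ 2 with hB
  have hmain : ∀ s : ℝ, 0 ≤ s → s ≤ 1 → I ≤ w ^ 2 / N * ∑ k ∈ fr T', ‖Ps f g C D ((k + s) / N)‖ ^ 2 + B := by
    intro s hs0 hs1
    have h1 := h (fun z => f z.1 * g z.2) (fun z => by
      rw [norm_mul]
      exact mul_le_one₀ (hf _) (norm_nonneg _) (hg _)) C D (K ^ 2 * X) w s N T' (hX.trans hX') (by linarith) (by linarith)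
      hCD (by linarith) hNpos hw (by rw [abs_le]; constructor <;> linarith) hT'1 (by nlinarith)
    refine h1.trans (add_le_add le_rfl ?_)
    rw [hB, mul_assoc A]
    refine mul_le_mul_of_nonneg_left ?_ hA.le
    have h2 : N * (K ^ 2 * X) / T' ≤ 3 * K ^ 2 * (X / T) := by
      rw [div_le_iff₀ hT'0]
      have h3 : 3 * K ^ 2 * (X / T) * (T * N / 3) = N * (K ^ 2 * X) := by
        field_simp
      rw [← h3]
      gcongr
    calc (N * (K ^ 2 * X) / T') ^ 2 ≤ (3 * K ^ 2 * (X / T)) ^ 2 := by gcongr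
      _ = 9 * K ^ 4 * (X / T) ^ 2 := by ring
  have hc : Continuous (fun t => ‖Ps f g C D t‖ ^ 2) := (ps_cont f g C D).norm.pow 2
  have h4 : I ≤ ∫ s in (0 : ℝ)..1, (w ^ 2 / N * ∑ k ∈ fr T', ‖Ps f g C D ((k + s) / N)‖ ^ 2 + B) := by
    have h5 : ∫ s in (0 : ℝ)..1, I = I := by simp
    rw [← h5]
    refine intervalIntegral.integral_mono_on (by norm_num) (by simp) ?_ fun s hs => hmain s hs.1 hs.2
    refine Continuous.intervalIntegrable ?_ _ _
    refine Continuous.add (Continuous.mul continuous_const (continuous_finsetSum _ fun k _ => ?_)) continuous_const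
    exact hc.comp (by fun_prop)
  have h6 : ∫ s in (0 : ℝ)..1, (w ^ 2 / N * ∑ k ∈ fr T', ‖Ps f g C D ((k + s) / N)‖ ^ 2 + B) =
      w ^ 2 / N * (∫ s in (0 : ℝ)..1, ∑ k ∈ fr T', ‖Ps f g C D ((k + s) / N)‖ ^ 2) + B := by
    rw [intervalIntegral.integral_add]
    · rw [intervalIntegral.integral_const_mul]
      simp
    · refine Continuous.intervalIntegrable ?_ _ _
      refine Continuous.mul continuous_const (continuous_finsetSum _ fun k _ => ?_)
      exact hc.comp (by fun_prop)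
    · simp
  have h7 := cs_disc (fun t => ‖Ps f g C D t‖ ^ 2) hc N T' hNpos
  have h8 : ∫ x in (-(T' : ℝ) / N)..((T' + 1) / N), ‖Ps f g C D x‖ ^ 2 ≤ ∫ t in (-T)..T, ‖Ps f g C D t‖ ^ 2 := by
    refine intervalIntegral.integral_mono_interval ?_ ?_ ?_
      (Filter.Eventually.of_forall fun t => by positivity) (hc.intervalIntegrable _ _)
    · rw [le_div_iff₀ hN0]
      linarith
    · rw [div_le_div_iff_of_pos_right hN0]
      linarith
    · rw [div_le_iff₀ hN0]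
      exact hT'u
  calc I ≤ w ^ 2 / N * (∫ s in (0 : ℝ)..1, ∑ k ∈ fr T', ‖Ps f g C D ((k + s) / N)‖ ^ 2) + B := by
        rw [← h6]; exact h4
    _ = w ^ 2 * (∫ x in (-(T' : ℝ) / N)..((T' + 1) / N), ‖Ps f g C D x‖ ^ 2) + B := by
        rw [h7]
        field_simp
    _ ≤ w ^ 2 * (∫ t in (-T)..T, ‖Ps f g C D t‖ ^ 2) + B := by gcongr

end Pool.Agent.SplI

end
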