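import Pool.Agent.Lib_MP_92ef0c_m.M19

/-!
# MP_92ef0c_nt, split pairs: merged library part M42

Concatenation of smaller files (each in its own section), only to save build time.
-/

/-! ### from `Lib_MP_f1a94e_eq.CnB` -/

section

/-!
# Piece CNB: the integrals of the weights
-/

set_option autoImplicit false

namespace Pool.Agent.OmEq

open Finset MeasureTheory Filter

theorem cnb_r0_cont : Continuous r0 := by
  unfold r0
  exact continuous_const.max (continuous_const.sub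
    (((continuous_const.mul continuous_id).sub continuous_const).abs))

theorem cnb_r0_nn (u : ℝ) : 0 ≤ r0 u := le_max_left _ _

theorem cnb_r0_le (u : ℝ) : r0 u ≤ 1 := by
  unfold r0
  exact max_le zero_le_one (by linarith [abs_nonneg (2 * u - 1)])

theorem cnb_r0_ne {u : ℝ} (h : r0 u ≠ 0) : 0 < u ∧ u < 1 := by
  unfold r0 at h
  have h1 : 0 < 1 - |2 * u - 1| := by
    by_contra h2
    exact h (max_eq_left (not_lt.1 h2))
  have h3 : |2 * u - 1| < 1 := by linarith
  rw [abs_lt] at h3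
  constructor <;> linarith [h3.1, h3.2]

theorem cnb_ww (s : ℝ) : ww s = ∫ u in (0:ℝ)..1, r0 u * r0 (u - s) := by
  unfold ww
  symm
  apply intervalIntegral.integral_eq_integral_of_support_subset
  intro u hu
  rw [Function.mem_support] at hu
  have h1 := cnb_r0_ne (left_ne_zero_of_mul hu)
  exact ⟨h1.1, h1.2.le⟩

/-- PROOF. `r0` is continuous, `0 ≤ r0 ≤ 1`, supported in `[0, 1]`; continuity of the parametric integral (`continuous_parametric_integral_of_continuous` or dominated convergence, the integral is over `[0, 1]`). -/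
theorem ww_props : Continuous ww ∧ (∀ s, 0 ≤ ww s) ∧ (∀ s, ww s ≤ 1) ∧ ∀ s, 1 ≤ |s| → ww s = 0 := by
  refine ⟨?_, ?_, ?_, ?_⟩
  · have h1 : ww = fun s => ∫ u in (0:ℝ)..1, r0 u * r0 (u - s) := funext cnb_ww
    rw [h1]
    apply intervalIntegral.continuous_parametric_intervalIntegral_of_continuous'
    have h2 := cnb_r0_cont
    exact (h2.comp continuous_snd).mul (h2.comp (continuous_snd.sub continuous_fst))
  · intro s
    unfold ww
    exact integral_nonneg fun u => mul_nonneg (cnb_r0_nn _) (cnb_r0_nn _)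
  · intro s
    rw [cnb_ww]
    have h1 := intervalIntegral.norm_integral_le_of_norm_le_const (a := 0) (b := 1) (C := 1)
      (f := fun u => r0 u * r0 (u - s)) (by
        intro u _
        rw [Real.norm_eq_abs, abs_of_nonneg (mul_nonneg (cnb_r0_nn _) (cnb_r0_nn _))]
        exact mul_le_one₀ (cnb_r0_le _) (cnb_r0_nn _) (cnb_r0_le _))
    rw [sub_zero, abs_one, mul_one] at h1
    exact (le_abs_self _).trans h1
  · intro s hs
    unfold ww
    have h1 : ∀ u, r0 u * r0 (u - s) = 0 := by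
      intro u
      by_contra h
      have h2 := cnb_r0_ne (left_ne_zero_of_mul h)
      have h3 := cnb_r0_ne (right_ne_zero_of_mul h)
      rcases le_abs.1 hs with h4 | h4
      · linarith [h2.2, h3.1]
      · linarith [h2.1, h3.2]
    simp [h1]

theorem cnb_rho (J N : ℕ) (r : ℝ) : rho J N r = r0 ((r - J) / N) := by
  unfold rho r0
  rw [mul_div_assoc]

theorem cnb_rho_le (J N : ℕ) (r : ℝ) : rho J N r ≤ 1 := by
  rw [cnb_rho]
  exact cnb_r0_le _

/-- the integral of the product of two triangles -/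
theorem cnb_int (J N n : ℕ) (hN : 1 ≤ N) :
    ∫ r in ((J : ℝ) + n)..(J + N + n), rho J N r * rho J N (r - n) = N * ww ((n : ℝ) / N) := by
  have hN0 : (0 : ℝ) < N := by exact_mod_cast hN
  have h1 : ∫ r in ((J : ℝ) + n)..(J + N + n), rho J N r * rho J N (r - n) =
      ∫ r, rho J N r * rho J N (r - n) := by
    apply intervalIntegral.integral_eq_integral_of_support_subset
    intro r hr
    rw [Function.mem_support] at hr
    have h2 := apxn_rho_ne hN (right_ne_zero_of_mul hr)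
    constructor
    · linarith [h2.1]
    · linarith [h2.2]
  rw [h1]
  unfold ww
  have h3 : ∀ r : ℝ, rho J N r * rho J N (r - n) =
      (fun u => r0 u * r0 (u - n / N)) ((r - J) / N) := by
    intro r
    rw [cnb_rho, cnb_rho]
    simp only
    congr 2
    ring
  simp_rw [h3]
  have h4 := integral_sub_right_eq_self (μ := volume)
    (fun r : ℝ => (fun u => r0 u * r0 (u - n / N)) (r / N)) (J : ℝ)
  rw [h4, Measure.integral_comp_div (fun u => r0 u * r0 (u - n / N)) (N : ℝ), abs_of_pos hN0,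
    smul_eq_mul]

/-- the substitution -/
theorem cnb_sub (h : ℝ → ℝ) (h1 h2 : ℝ) (hh : HF h h1 h2) (J N n : ℕ) (hJ : 1 ≤ J) (hN : 1 ≤ N)
    (hn : 1 ≤ n) (y : ℝ) :
    ∫ t, WN h J N n y t = ((∫ r in ((J : ℝ) + n)..(J + N + n),
      2 * n / (r * (r - n)) * (h (y / (r * (r - n))) ^ 2 * (rho J N r * rho J N (r - n))) : ℝ) : ℂ) := by
  have hN0 : (0 : ℝ) < N := by exact_mod_cast hN
  have hJ0 : (0 : ℝ) < J := by exact_mod_cast hJ
  have hn0 : (0 : ℝ) < n := by exact_mod_cast hn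
  obtain ⟨T, hT⟩ : ∃ T : ℝ → ℝ, T = fun r => 2 * (Real.log (r - n) - Real.log r) := ⟨_, rfl⟩
  obtain ⟨g, hg⟩ : ∃ g : ℝ → ℝ, g = fun t => h (y * (1 - Real.exp (t / 2)) ^ 2 / (n ^ 2 * Real.exp (t / 2))) ^ 2 *
    rho J N (n / (1 - Real.exp (t / 2))) * rho J N (n * Real.exp (t / 2) / (1 - Real.exp (t / 2))) :=
    ⟨_, rfl⟩
  have hTexp : ∀ r : ℝ, n < r → Real.exp (T r / 2) = (r - n) / r := by
    intro r hr
    rw [hT]
    simp only
    rw [mul_div_cancel_left₀ _ (two_ne_zero), Real.exp_sub, Real.exp_log (by linarith),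
      Real.exp_log (by linarith)]
  have hTneg : ∀ r : ℝ, n < r → T r < 0 := by
    intro r hr
    have h3 := hTexp r hr
    have h4 : (r - n) / r < 1 := by rw [div_lt_one (by linarith)]; linarith
    rw [← h3, Real.exp_lt_one_iff] at h4
    linarith
  have hab : (J : ℝ) + n ≤ J + N + n := by linarith
  -- the integral over the line is the integral over an interval
  have e1 : ∫ t, WN h J N n y t = ∫ t in (T (J + n))..(T (J + N + n)), WN h J N n y t := by
    symm
    apply intervalIntegral.integral_eq_integral_of_support_subset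
    intro t ht
    rw [Function.mem_support] at ht
    unfold WN at ht
    split_ifs at ht with ht0
    · have hx0 := Real.exp_pos (t / 2)
      have hx1 : Real.exp (t / 2) < 1 := by
        rw [Real.exp_lt_one_iff]
        linarith
      have h3 : h (y * (1 - Real.exp (t / 2)) ^ 2 / (n ^ 2 * Real.exp (t / 2))) ^ 2 *
          rho J N (n / (1 - Real.exp (t / 2))) *
          rho J N (n * Real.exp (t / 2) / (1 - Real.exp (t / 2))) ≠ 0 := by exact_mod_cast ht
      have h4 := apxn_rho_ne hN (right_ne_zero_of_mul h3)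
      obtain ⟨x, hx⟩ : ∃ x, x = Real.exp (t / 2) := ⟨_, rfl⟩
      rw [← hx] at h4 hx0 hx1
      have hx2 : 0 < 1 - x := by linarith
      rw [lt_div_iff₀ hx2, div_lt_iff₀ hx2] at h4
      constructor
      · have h5 : Real.exp (T (J + n) / 2) < Real.exp (t / 2) := by
          rw [hTexp _ (by linarith), ← hx, add_sub_cancel_right, div_lt_iff₀ (by linarith)]
          linarith [h4.1]
        have := Real.exp_lt_exp.1 h5
        linarith
      · have h5 : Real.exp (t / 2) < Real.exp (T (J + N + n) / 2) := by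
          rw [hTexp _ (by linarith), ← hx, add_sub_cancel_right, lt_div_iff₀ (by linarith)]
          linarith [h4.2]
        have := Real.exp_lt_exp.1 h5
        linarith
    · exact absurd rfl ht
  have hmem : ∀ r ∈ Set.uIcc ((J : ℝ) + n) (J + N + n), (n : ℝ) < r := by
    intro r hr
    rw [Set.uIcc_of_le hab] at hr
    linarith [hr.1]
  have hderiv : ∀ r : ℝ, (n : ℝ) < r → HasDerivAt T (2 * n / (r * (r - n))) r := by
    intro r hr
    have d1 : HasDerivAt (fun r : ℝ => Real.log (r - n)) (1 / (r - n)) r := by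
      have := ((hasDerivAt_id r).sub_const (n : ℝ)).log (by simp only [id]; linarith)
      simpa using this
    have d2 : HasDerivAt (fun r : ℝ => Real.log r) r⁻¹ r := Real.hasDerivAt_log (by linarith)
    have d3 := (d1.sub d2).const_mul 2
    rw [hT]
    refine d3.congr_deriv ?_
    have p1 : r - n ≠ 0 := by linarith
    have p2 : r ≠ 0 := by linarith
    field_simp
    ring
  have e2 : ∫ t in (T (J + n))..(T (J + N + n)), WN h J N n y t =
      ((∫ t in (T (J + n))..(T (J + N + n)), g t : ℝ) : ℂ) := by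
    rw [← intervalIntegral.integral_ofReal]
    apply intervalIntegral.integral_congr
    intro t ht
    have ht1 : t < 0 := by
      have h3 : T (J + n) ≤ T (J + N + n) := by
        have h4 : Real.exp (T (J + n) / 2) ≤ Real.exp (T (J + N + n) / 2) := by
          rw [hTexp _ (by linarith only [hJ0]), hTexp _ (by linarith only [hJ0, hN0]),
            div_le_div_iff₀ (by linarith only [hJ0, hn0]) (by linarith only [hJ0, hN0, hn0])]
          have hNn := mul_pos hN0 hn0
          linarith only [hNn]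
        have := Real.exp_le_exp.1 h4
        linarith
      rw [Set.uIcc_of_le h3] at ht
      exact ht.2.trans_lt (hTneg _ (by linarith))
    simp only [WN, if_pos ht1, hg]
  have e3 : ∫ r in ((J : ℝ) + n)..(J + N + n), (2 * n / (r * (r - n))) • (g ∘ T) r =
      ∫ t in (T (J + n))..(T (J + N + n)), g t := by
    apply intervalIntegral.integral_comp_smul_deriv''
    · intro r hr
      exact (hderiv r (hmem r hr)).continuousAt.continuousWithinAt
    · intro r hr
      apply (hderiv r _).hasDerivWithinAt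
      rw [min_eq_left hab] at hr
      linarith [hr.1]
    · apply ContinuousOn.div continuousOn_const (by fun_prop)
      intro r hr
      have := hmem r hr
      have p1 : r - n ≠ 0 := by linarith
      have p2 : r ≠ 0 := by linarith
      exact mul_ne_zero p2 p1
    · rintro t ⟨r, hr, rfl⟩
      apply ContinuousAt.continuousWithinAt
      have hr1 := hmem r hr
      have hx : Real.exp (T r / 2) ≠ 0 := (Real.exp_pos _).ne'
      have hx1 : 1 - Real.exp (T r / 2) ≠ 0 := by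
        have : Real.exp (T r / 2) < 1 := by
          rw [Real.exp_lt_one_iff]
          linarith [hTneg r hr1]
        linarith
      have hce : ContinuousAt (fun t : ℝ => Real.exp (t / 2)) (T r) := by fun_prop
      rw [hg]
      apply ContinuousAt.mul
      · apply ContinuousAt.mul
        · apply ContinuousAt.pow
          apply (hh.cont.continuousAt).comp
          exact (continuousAt_const.mul ((continuousAt_const.sub hce).pow 2)).div
            (continuousAt_const.mul hce) (mul_ne_zero (by positivity) hx)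
        · apply ((apxn_rho_cont J N).continuousAt).comp
          exact continuousAt_const.div (continuousAt_const.sub hce) hx1
      · apply ((apxn_rho_cont J N).continuousAt).comp
        exact (continuousAt_const.mul hce).div (continuousAt_const.sub hce) hx1
  rw [e1, e2, ← e3]
  congr 1
  apply intervalIntegral.integral_congr
  intro r hr
  have hr1 := hmem r hr
  have p1 : r - n ≠ 0 := by linarith
  have p2 : r ≠ 0 := by linarith
  simp only [Function.comp, smul_eq_mul]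
  rw [hg]
  simp only
  rw [hTexp r hr1]
  have q1 : 1 - (r - n) / r = n / r := by
    field_simp
    ring
  have q2 : y * (n / r) ^ 2 / (n ^ 2 * ((r - n) / r)) = y / (r * (r - n)) := by
    field_simp
  have q3 : (n : ℝ) / (n / r) = r := by field_simp
  have q4 : n * ((r - n) / r) / (n / r) = r - n := by field_simp
  rw [q1, q2, q3, q4, mul_assoc (h _ ^ 2)]

/-- the pointwise estimate -/
theorem cnb_pt (h : ℝ → ℝ) (h1 h2 : ℝ) (hh : HF h h1 h2) (N : ℕ) (hN : 1 ≤ N) (η : ℝ) (hη : 0 < η) :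
    ∃ J0 : ℕ, 1 ≤ J0 ∧ ∀ J : ℕ, J0 ≤ J → ∀ q : ℝ, (J : ℝ) ^ 2 ≤ q → q ≤ ((J : ℝ) + N) ^ 2 → ∀ y : ℝ,
      |2 / q * h (y / q) ^ 2 - 2 / (J : ℝ) ^ 2 * h (y / (J : ℝ) ^ 2) ^ 2| ≤ η / (J : ℝ) ^ 2 := by
  have hN0 : (0 : ℝ) < N := by exact_mod_cast hN
  have hcs : HasCompactSupport h := by
    apply HasCompactSupport.of_support_subset_isCompact (isCompact_Icc (a := h1) (b := h2))
    intro y hy
    rw [Function.mem_support] at hy
    constructor
    · by_contra hc
      exact hy (hh.lo y (not_le.1 hc).le)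
    · by_contra hc
      exact hy (hh.hi y (not_le.1 hc).le)
  have huc : UniformContinuous h := hcs.uniformContinuous_of_continuous hh.cont
  obtain ⟨δ, hδ, hδ'⟩ := Metric.uniformContinuous_iff.1 huc (η / 8) (by positivity)
  have hh2 : 0 < h2 := lt_of_lt_of_le one_pos hh.one
  obtain ⟨J0, hJ0⟩ := exists_nat_gt (max (N : ℝ) (max (12 * N / η) (12 * h2 * N / δ)))
  have k1 : (N : ℝ) < J0 := (le_max_left _ _).trans_lt hJ0
  have k2 : 12 * N / η < J0 := ((le_max_left _ _).trans (le_max_right _ _)).trans_lt hJ0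
  have k3 : 12 * h2 * N / δ < J0 := ((le_max_right _ _).trans (le_max_right _ _)).trans_lt hJ0
  refine ⟨J0, ?_, fun J hJ q hq1 hq2 y => ?_⟩
  · have : (0 : ℝ) < J0 := hN0.trans k1
    exact_mod_cast this
  have hJJ : (J0 : ℝ) ≤ J := by exact_mod_cast hJ
  have hNJ : (N : ℝ) < J := k1.trans_le hJJ
  have hJ0' : (0 : ℝ) < J := hN0.trans hNJ
  have hJ2 : (0 : ℝ) < (J : ℝ) ^ 2 := by positivity
  have hq0 : 0 < q := hJ2.trans_le hq1
  have hNNJ : (N : ℝ) * N ≤ N * J := mul_le_mul_of_nonneg_left hNJ.le hN0.le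
  have hqd : q - (J : ℝ) ^ 2 ≤ 3 * N * J := by linarith only [hq2, hNNJ]
  have k4 : 12 * N / J < η := by
    rw [div_lt_iff₀ hJ0']
    rw [div_lt_iff₀ hη] at k2
    linarith only [k2, mul_le_mul_of_nonneg_left hJJ hη.le]
  have k5 : 12 * h2 * N / J < δ := by
    rw [div_lt_iff₀ hJ0']
    rw [div_lt_iff₀ hδ] at k3
    linarith only [k3, mul_le_mul_of_nonneg_left hJJ hδ.le]
  -- the difference of the values
  have hab : |h (y / q) - h (y / (J : ℝ) ^ 2)| ≤ η / 8 := by
    by_cases hz : h (y / q) = 0 ∧ h (y / (J : ℝ) ^ 2) = 0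
    · rw [hz.1, hz.2, sub_zero, abs_zero]
      positivity
    · have hy0 : 0 < y := by
        by_contra hc
        push Not at hc
        apply hz
        constructor
        · exact hh.lo _ ((div_nonpos_of_nonpos_of_nonneg hc hq0.le).trans hh.pos.le)
        · exact hh.lo _ ((div_nonpos_of_nonpos_of_nonneg hc hJ2.le).trans hh.pos.le)
      have hyle : y ≤ h2 * ((J : ℝ) + N) ^ 2 := by
        by_contra hc
        push Not at hc
        apply hz
        constructor
        · apply hh.hi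
          rw [le_div_iff₀ hq0]
          exact (mul_le_mul_of_nonneg_left hq2 hh2.le).trans hc.le
        · apply hh.hi
          rw [le_div_iff₀ hJ2]
          exact (mul_le_mul_of_nonneg_left (hq1.trans hq2) hh2.le).trans hc.le
      have hy4 : y ≤ 4 * h2 * (J : ℝ) ^ 2 := by
        have hNJJ : (N : ℝ) * J ≤ J * J := mul_le_mul_of_nonneg_right hNJ.le hJ0'.le
        have : ((J : ℝ) + N) ^ 2 ≤ 4 * (J : ℝ) ^ 2 := by linarith only [hNJJ, hNNJ]
        linarith only [mul_le_mul_of_nonneg_left this hh2.le, hyle]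
      have hd : dist (y / q) (y / (J : ℝ) ^ 2) < δ := by
        rw [dist_comm, Real.dist_eq]
        have e1 : y / (J : ℝ) ^ 2 - y / q = y * (q - (J : ℝ) ^ 2) / ((J : ℝ) ^ 2 * q) := by
          field_simp
        rw [e1, abs_of_nonneg (div_nonneg (mul_nonneg hy0.le (by linarith)) (by positivity))]
        refine lt_of_le_of_lt ?_ k5
        rw [div_le_div_iff₀ (by positivity) hJ0']
        have e2 : y * (q - (J : ℝ) ^ 2) ≤ 4 * h2 * (J : ℝ) ^ 2 * (3 * N * J) :=
          mul_le_mul hy4 hqd (by linarith) (by positivity)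
        have e3 : 12 * h2 * N * ((J : ℝ) ^ 2 * (J : ℝ) ^ 2) ≤ 12 * h2 * N * ((J : ℝ) ^ 2 * q) := by
          apply mul_le_mul_of_nonneg_left _ (by positivity)
          exact mul_le_mul_of_nonneg_left hq1 hJ2.le
        calc y * (q - (J : ℝ) ^ 2) * J ≤ 4 * h2 * (J : ℝ) ^ 2 * (3 * N * J) * J :=
              mul_le_mul_of_nonneg_right e2 hJ0'.le
          _ = 12 * h2 * N * ((J : ℝ) ^ 2 * (J : ℝ) ^ 2) := by ring
          _ ≤ _ := e3
      have := hδ' hd
      rw [Real.dist_eq] at this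
      exact this.le
  obtain ⟨a, ha⟩ : ∃ a, a = h (y / q) := ⟨_, rfl⟩
  obtain ⟨b, hb⟩ : ∃ b, b = h (y / (J : ℝ) ^ 2) := ⟨_, rfl⟩
  have ha0 : 0 ≤ a := by rw [ha]; exact hh.nn _
  have ha1 : a ≤ 1 := by rw [ha]; exact hh.le _
  have hb0 : 0 ≤ b := by rw [hb]; exact hh.nn _
  have hb1 : b ≤ 1 := by rw [hb]; exact hh.le _
  rw [← ha, ← hb] at hab ⊢
  have e1 : 2 / q * a ^ 2 - 2 / (J : ℝ) ^ 2 * b ^ 2 =
      (2 / (J : ℝ) ^ 2) * (-((q - (J : ℝ) ^ 2) / q * a ^ 2) + (a - b) * (a + b)) := by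
    field_simp
    ring
  rw [e1, abs_mul, abs_of_pos (by positivity : 0 < 2 / (J : ℝ) ^ 2)]
  have e2 : |-((q - (J : ℝ) ^ 2) / q * a ^ 2) + (a - b) * (a + b)| ≤ η / 2 := by
    refine (abs_add_le _ _).trans ?_
    rw [abs_neg, abs_mul (a - b)]
    have e3 : |(q - (J : ℝ) ^ 2) / q * a ^ 2| ≤ η / 4 := by
      have e4 : 0 ≤ (q - (J : ℝ) ^ 2) / q := div_nonneg (by linarith) hq0.le
      rw [abs_of_nonneg (mul_nonneg e4 (sq_nonneg _))]
      have e5 : (q - (J : ℝ) ^ 2) / q ≤ 3 * N / J := by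
        rw [div_le_div_iff₀ hq0 hJ0']
        have e51 := mul_le_mul_of_nonneg_right hqd hJ0'.le
        have e52 := mul_le_mul_of_nonneg_left hq1 (mul_nonneg zero_le_three hN0.le)
        linarith only [e51, e52]
      have e6 : 3 * N / J < η / 4 := by
        have : 3 * (N : ℝ) / J = (12 * N / J) / 4 := by ring
        rw [this]
        linarith
      have e7 : a ^ 2 ≤ 1 := pow_le_one₀ ha0 ha1
      have e71 := mul_le_mul_of_nonneg_left e7 e4
      linarith only [e71, e5, e6]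
    have e8 : |a + b| ≤ 2 := by rw [abs_of_nonneg (by linarith)]; linarith
    have e9 : |a - b| * |a + b| ≤ η / 8 * 2 := mul_le_mul hab e8 (abs_nonneg _) (by positivity)
    linarith
  calc 2 / (J : ℝ) ^ 2 * _ ≤ 2 / (J : ℝ) ^ 2 * (η / 2) := mul_le_mul_of_nonneg_left e2 (by positivity)
    _ = η / (J : ℝ) ^ 2 := by ring

/-- PROOF. Substitute `r = n / (1 - exp (t/2))`, i.e. `exp (t/2) = (r - n)/r`, `dt = 2 n dr / (r (r - n))`, `r ∈ (n, ∞)`:
`∫ t, WN h J N n y t = ∫ r in J..(J+N), h (y / (r (r - n)))^2 rho J N r rho J N (r - n) * (2 n / (r (r - n)))` (`r > n + J`-part only; `y (1-x)^2/(n^2 x) = y / (r (r-n))`, `n x/(1-x) = r - n`; it is convenient to restrict to a compact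
interval of `t < 0` that contains the support and use the interval substitution). Also `∫ r, rho J N r rho J N (r - n) = N ww (n/N)` (`rho J N r = r0 ((r - J)/N)`). For `J ≤ r - n`, `r ≤ J + N`:
`|1/(r (r-n)) - 1/J^2| ≤ 2 N/J^3`, and `|h (y/(r (r-n)))^2 - h (y/J^2)^2| ≤ 2 |h (..) - h (..)|`, where, if not both vanish, `y ≤ h2 (J + N)^2`, so the arguments differ by at most `8 h2 N/J` if `J ≥ N`; uniform continuity of `h`. So the error is at most
`η n N / J^2` for `J ≥ J0(N, η)`, for all `y` and all `n ≤ N`. -/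
theorem cnB (h : ℝ → ℝ) (h1 h2 : ℝ) (hh : HF h h1 h2) (N : ℕ) (hN : 1 ≤ N) (η : ℝ) (hη : 0 < η) :
    ∃ J0 : ℕ, 1 ≤ J0 ∧ ∀ J : ℕ, J0 ≤ J → ∀ n : ℕ, 1 ≤ n → n ≤ N → ∀ y : ℝ,
      ‖(∫ t, WN h J N n y t) - ((2 * n * N / (J : ℝ) ^ 2 * h (y / (J : ℝ) ^ 2) ^ 2 * ww ((n : ℝ) / N) : ℝ) : ℂ)‖ ≤
        η * (n * N / (J : ℝ) ^ 2) := by
  have hN0 : (0 : ℝ) < N := by exact_mod_cast hN
  obtain ⟨J0, hJ0, hpt⟩ := cnb_pt h h1 h2 hh N hN η hη
  refine ⟨J0, hJ0, fun J hJ n hn hnN y => ?_⟩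
  have hJ1 : 1 ≤ J := hJ0.trans hJ
  have hJ0' : (0 : ℝ) < J := by exact_mod_cast hJ1
  have hn0 : (0 : ℝ) < n := by exact_mod_cast hn
  rw [cnb_sub h h1 h2 hh J N n hJ1 hN hn y, ← Complex.ofReal_sub, Complex.norm_real, Real.norm_eq_abs]
  have hab : (J : ℝ) + n ≤ J + N + n := by linarith
  have hmem : ∀ r ∈ Set.uIcc ((J : ℝ) + n) (J + N + n), (J : ℝ) + n ≤ r := by
    intro r hr
    rw [Set.uIcc_of_le hab] at hr
    exact hr.1
  have hcr := apxn_rho_cont J N
  -- continuity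
  have hc1 : ContinuousOn (fun r : ℝ => 2 * n / (r * (r - n)) *
      (h (y / (r * (r - n))) ^ 2 * (rho J N r * rho J N (r - n))))
      (Set.uIcc ((J : ℝ) + n) (J + N + n)) := by
    have hne : ∀ r ∈ Set.uIcc ((J : ℝ) + n) (J + N + n), r * (r - n) ≠ 0 := by
      intro r hr
      have := hmem r hr
      exact mul_ne_zero (by linarith) (by linarith)
    apply ContinuousOn.mul
    · exact ContinuousOn.div continuousOn_const (by fun_prop) hne
    · apply ContinuousOn.mul
      · apply ContinuousOn.pow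
        exact hh.cont.comp_continuousOn (ContinuousOn.div continuousOn_const (by fun_prop) hne)
      · exact (hcr.mul (hcr.comp (continuous_id.sub continuous_const))).continuousOn
  have hc2 : Continuous (fun r : ℝ => rho J N r * rho J N (r - n)) :=
    hcr.mul (hcr.comp (continuous_id.sub continuous_const))
  have e1 : 2 * n * N / (J : ℝ) ^ 2 * h (y / (J : ℝ) ^ 2) ^ 2 * ww ((n : ℝ) / N) =
      ∫ r in ((J : ℝ) + n)..(J + N + n), 2 * n / (J : ℝ) ^ 2 * h (y / (J : ℝ) ^ 2) ^ 2 *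
        (rho J N r * rho J N (r - n)) := by
    rw [intervalIntegral.integral_const_mul, cnb_int J N n hN]
    ring
  have hc3 : Continuous (fun r : ℝ => 2 * n / (J : ℝ) ^ 2 * h (y / (J : ℝ) ^ 2) ^ 2 *
      (rho J N r * rho J N (r - n))) := continuous_const.mul hc2
  rw [e1, ← intervalIntegral.integral_sub hc1.intervalIntegrable (hc3.intervalIntegrable _ _)]
  have e2 : ∀ r ∈ Set.uIoc ((J : ℝ) + n) (J + N + n),
      ‖2 * n / (r * (r - n)) * (h (y / (r * (r - n))) ^ 2 * (rho J N r * rho J N (r - n))) -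
        2 * n / (J : ℝ) ^ 2 * h (y / (J : ℝ) ^ 2) ^ 2 * (rho J N r * rho J N (r - n))‖ ≤
      η * (n / (J : ℝ) ^ 2) := by
    intro r hr
    rw [Set.uIoc_of_le hab] at hr
    have e3 : 2 * n / (r * (r - n)) * (h (y / (r * (r - n))) ^ 2 * (rho J N r * rho J N (r - n))) -
        2 * n / (J : ℝ) ^ 2 * h (y / (J : ℝ) ^ 2) ^ 2 * (rho J N r * rho J N (r - n)) =
        n * (2 / (r * (r - n)) * h (y / (r * (r - n))) ^ 2 -
          2 / (J : ℝ) ^ 2 * h (y / (J : ℝ) ^ 2) ^ 2) * (rho J N r * rho J N (r - n)) := by ring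
    rw [e3, Real.norm_eq_abs, abs_mul, abs_mul, abs_of_pos hn0]
    by_cases hz : rho J N r * rho J N (r - n) = 0
    · rw [hz, abs_zero, mul_zero]
      positivity
    · have e4 := apxn_rho_ne hN (left_ne_zero_of_mul hz)
      have e5 := apxn_rho_ne hN (right_ne_zero_of_mul hz)
      have e61 : (J : ℝ) ≤ r - n := by linarith only [e5.1]
      have e62 : r ≤ (J : ℝ) + N := e4.2.le
      have e63 : (J : ℝ) ^ 2 ≤ r * (r - n) := by
        rw [sq]
        exact mul_le_mul (e61.trans (sub_le_self r hn0.le)) e61 hJ0'.le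
          (hJ0'.le.trans (e61.trans (sub_le_self r hn0.le)))
      have e64 : r * (r - n) ≤ ((J : ℝ) + N) ^ 2 := by
        rw [sq]
        exact mul_le_mul e62 ((sub_le_self r hn0.le).trans e62) (hJ0'.le.trans e61)
          (add_nonneg hJ0'.le hN0.le)
      have e6 := hpt J hJ (r * (r - n)) e63 e64 y
      have e7 : |rho J N r * rho J N (r - n)| ≤ 1 := by
        rw [abs_of_nonneg (mul_nonneg (apxn_rho_nn _ _ _) (apxn_rho_nn _ _ _))]
        exact mul_le_one₀ (cnb_rho_le _ _ _) (apxn_rho_nn _ _ _) (cnb_rho_le _ _ _)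
      calc n * |2 / (r * (r - n)) * h (y / (r * (r - n))) ^ 2 -
          2 / (J : ℝ) ^ 2 * h (y / (J : ℝ) ^ 2) ^ 2| * |rho J N r * rho J N (r - n)|
          ≤ n * (η / (J : ℝ) ^ 2) * 1 :=
            mul_le_mul (mul_le_mul_of_nonneg_left e6 hn0.le) e7 (abs_nonneg _) (by positivity)
        _ = η * (n / (J : ℝ) ^ 2) := by ring
  have e8 := intervalIntegral.norm_integral_le_of_norm_le_const e2
  rw [Real.norm_eq_abs] at e8
  refine e8.trans (le_of_eq ?_)
  rw [abs_of_nonneg (by linarith)]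
  ring

end Pool.Agent.OmEq

end

/-! ### from `Lib_MP_f1a94e_eq.DSum` -/

section

/-!
# Piece DSUM: removal of the factor `n / φ(n)`
-/

set_option autoImplicit false

namespace Pool.Agent.OmEq

open Finset Pool.Agent.GaussMR Pool.Agent.OmAll MeasureTheory Filter

/-- `1 / φ(d)` for squarefree `d` -/
noncomputable def dsumC (d : ℕ) : ℝ := if ∏ p ∈ d.primeFactors, p = d then 1 / (d.totient : ℝ) else 0

theorem dsumC_nonneg (d : ℕ) : 0 ≤ dsumC d := by
  unfold dsumC
  split_ifs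
  · positivity
  · exact le_rfl

/-- the totient of a product of distinct primes -/
theorem dsum_tot (S : Finset ℕ) (hS : ∀ p ∈ S, p.Prime) :
    (∏ p ∈ S, p).totient = ∏ p ∈ S, (p - 1) := by
  have h1 := Nat.totient_mul_prod_primeFactors (∏ p ∈ S, p)
  rw [Nat.primeFactors_prod hS] at h1
  have h2 : 0 < ∏ p ∈ S, p := Finset.prod_pos (fun p hp => (hS p hp).pos)
  rw [mul_comm] at h1
  exact Nat.eq_of_mul_eq_mul_left h2 h1

theorem dsum_le (d : ℕ) (hd : ∏ p ∈ d.primeFactors, p = d) : d ≤ 2 * d.totient ^ 2 := by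
  have hpr : ∀ p ∈ d.primeFactors, p.Prime := fun p hp => Nat.prime_of_mem_primeFactors hp
  have h1 : d.totient = ∏ p ∈ d.primeFactors, (p - 1) := by
    have := dsum_tot d.primeFactors hpr
    rw [hd] at this
    exact this
  have h2 : ∏ p ∈ d.primeFactors, p ≤ ∏ p ∈ d.primeFactors, ((p - 1) ^ 2 * (if p = 2 then 2 else 1)) := by
    refine Finset.prod_le_prod' (fun p hp => ?_)
    have h3 := (hpr p hp).two_le
    by_cases h4 : p = 2
    · rw [if_pos h4, h4]
      norm_num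
    · rw [if_neg h4, mul_one]
      obtain ⟨k, rfl⟩ : ∃ k, p = k + 3 := ⟨p - 3, by omega⟩
      have : k + 3 - 1 = k + 2 := by omega
      rw [this]
      nlinarith
  rw [hd, Finset.prod_mul_distrib, Finset.prod_pow, ← h1, Finset.prod_ite_eq'] at h2
  have h5 : (if 2 ∈ d.primeFactors then 2 else 1) ≤ 2 := by split_ifs <;> norm_num
  calc d ≤ d.totient ^ 2 * (if 2 ∈ d.primeFactors then 2 else 1) := h2
    _ ≤ d.totient ^ 2 * 2 := Nat.mul_le_mul_left _ h5
    _ = 2 * d.totient ^ 2 := mul_comm _ _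

theorem dsumC_div_le (d : ℕ) : dsumC d / d ≤ 2 / (d : ℝ) ^ (3 / 2 : ℝ) := by
  rcases Nat.eq_zero_or_pos d with h0 | h0
  · rw [h0]
    simp only [Nat.cast_zero, div_zero]
    positivity
  · have hd0 : (0 : ℝ) < d := by exact_mod_cast h0
    unfold dsumC
    by_cases hd : ∏ p ∈ d.primeFactors, p = d
    · rw [if_pos hd]
      have h1 := dsum_le d hd
      have h2 : (d : ℝ) ≤ 2 * (d.totient : ℝ) ^ 2 := by exact_mod_cast h1
      have ht : (0 : ℝ) < d.totient := by exact_mod_cast Nat.totient_pos.mpr h0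
      have h3 : √(d : ℝ) ≤ 2 * d.totient := by
        rw [Real.sqrt_le_left (by positivity)]
        nlinarith
      have h4 : (d : ℝ) ^ (3 / 2 : ℝ) = d * √(d : ℝ) := by
        rw [Real.sqrt_eq_rpow, ← Real.rpow_one_add' hd0.le (by norm_num)]
        norm_num
      rw [h4, div_div, div_le_div_iff₀ (by positivity) (by positivity)]
      nlinarith [Real.sqrt_nonneg (d : ℝ)]
    · rw [if_neg hd, zero_div]
      positivity

theorem dsumC_summable : Summable (fun d : ℕ => dsumC d / d) := by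
  have h1 : Summable (fun d : ℕ => 2 / (d : ℝ) ^ (3 / 2 : ℝ)) := by
    have h2 : Summable (fun d : ℕ => 2 * (1 / (d : ℝ) ^ (3 / 2 : ℝ))) :=
      (Real.summable_one_div_nat_rpow.mpr (by norm_num)).mul_left 2
    refine h2.congr (fun d => ?_)
    ring
  exact Summable.of_nonneg_of_le (fun d => div_nonneg (dsumC_nonneg d) (Nat.cast_nonneg d)) dsumC_div_le h1

/-- `n / φ(n)` as a sum over the divisors -/
theorem dsum_eq (n : ℕ) (hn : 0 < n) : (n : ℝ) / n.totient = ∑ d ∈ n.divisors, dsumC d := by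
  have hpr : ∀ p ∈ n.primeFactors, p.Prime := fun p hp => Nat.prime_of_mem_primeFactors hp
  have hcast : ∀ p ∈ n.primeFactors, ((p - 1 : ℕ) : ℝ) = (p : ℝ) - 1 := by
    intro p hp
    have := (hpr p hp).one_lt
    push_cast [Nat.cast_sub this.le]
    ring
  have hpos : ∀ p ∈ n.primeFactors, (0 : ℝ) < (p : ℝ) - 1 := by
    intro p hp
    have : (1 : ℝ) < p := by exact_mod_cast (hpr p hp).one_lt
    linarith
  have h1 : (n : ℝ) / n.totient = ∏ p ∈ n.primeFactors, (1 + 1 / ((p : ℝ) - 1)) := by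
    have h2 := Nat.totient_mul_prod_primeFactors n
    have h3 : (n.totient : ℝ) * ∏ p ∈ n.primeFactors, (p : ℝ) = n * ∏ p ∈ n.primeFactors, ((p : ℝ) - 1) := by
      rw [← Finset.prod_congr rfl hcast, ← Nat.cast_prod, ← Nat.cast_prod, ← Nat.cast_mul, ← Nat.cast_mul, h2]
    have h4 : ∏ p ∈ n.primeFactors, (1 + 1 / ((p : ℝ) - 1)) =
        (∏ p ∈ n.primeFactors, (p : ℝ)) / ∏ p ∈ n.primeFactors, ((p : ℝ) - 1) := by
      rw [← Finset.prod_div_distrib]
      refine Finset.prod_congr rfl (fun p hp => ?_)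
      have := hpos p hp
      field_simp
      ring
    have h5 : (0 : ℝ) < ∏ p ∈ n.primeFactors, ((p : ℝ) - 1) := Finset.prod_pos hpos
    have h6 : (0 : ℝ) < n.totient := by exact_mod_cast Nat.totient_pos.mpr hn
    rw [h4, div_eq_div_iff h6.ne' h5.ne']
    linarith
  rw [h1, Finset.prod_one_add]
  have h7 : ∑ d ∈ n.divisors, dsumC d =
      ∑ d ∈ n.divisors.filter (fun d => ∏ p ∈ d.primeFactors, p = d), 1 / (d.totient : ℝ) := by
    rw [Finset.sum_filter]
    rfl
  rw [h7]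
  refine Finset.sum_nbij' (fun S => ∏ p ∈ S, p) (fun d => d.primeFactors) ?_ ?_ ?_ ?_ ?_
  · intro S hS
    have hS' := Finset.mem_powerset.mp hS
    have hSp : ∀ p ∈ S, p.Prime := fun p hp => hpr p (hS' hp)
    refine mem_filter.mpr ⟨Nat.mem_divisors.mpr ⟨?_, hn.ne'⟩, ?_⟩
    · exact (Finset.prod_dvd_prod_of_subset _ _ _ hS').trans (Nat.prod_primeFactors_dvd n)
    · rw [Nat.primeFactors_prod hSp]
  · intro d hd
    obtain ⟨h8, _⟩ := mem_filter.mp hd
    exact Finset.mem_powerset.mpr (Nat.primeFactors_mono (Nat.dvd_of_mem_divisors h8) hn.ne')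
  · intro S hS
    have hS' := Finset.mem_powerset.mp hS
    exact Nat.primeFactors_prod (fun p hp => hpr p (hS' hp))
  · intro d hd
    exact (mem_filter.mp hd).2
  · intro S hS
    have hS' := Finset.mem_powerset.mp hS
    rw [dsum_tot S (fun p hp => hpr p (hS' hp)), Finset.prod_div_distrib, Finset.prod_const_one]
    push_cast
    rw [Finset.prod_congr rfl (fun p hp => hcast p (hS' hp))]

theorem dsum_kap (n : ℕ) : 0 ≤ kap n ∧ kap n ≤ 2 := by
  unfold kap
  split_ifs <;> norm_num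

theorem dsum_Qs (f : ℕ → ℂ) (hf : ∀ n, ‖f n‖ ≤ 1) (h : ℝ → ℝ) (h1 h2 : ℝ) (hh : HF h h1 h2) :
    ∃ C : ℝ, 0 < C ∧ ∀ n : ℕ, 0 < n → ∀ Y : ℝ, (n : ℝ) ≤ h2 * Y →
      ‖Qs f n (h2 * Y) (fun y t => ((h y ^ 2 * ps0 t : ℝ) : ℂ)) Y‖ ≤ C * (h2 * Y) := by
  classical
  obtain ⟨C, hC, hcnt⟩ := cnt 1
  refine ⟨C, hC, fun n hn Y hY => ?_⟩
  refine le_trans ?_ (hcnt n hn (h2 * Y) hY)
  unfold Qs
  have hterm : ∀ e : G × G, ‖f (nm e.1) * (starRingEnd ℂ) (f (nm e.2)) *
      ((h (mE e / Y) ^ 2 * ps0 (tE e) : ℝ) : ℂ)‖ ≤ if |tE e| ≤ 1 then 1 else 0 := by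
    intro e
    rw [norm_mul, norm_mul, RCLike.norm_conj, Complex.norm_real, Real.norm_eq_abs]
    have a1 := hf (nm e.1)
    have a2 := hf (nm e.2)
    have a3 := hh.nn (mE e / Y)
    have a4 := hh.le (mE e / Y)
    have a5 : ‖f (nm e.1)‖ * ‖f (nm e.2)‖ ≤ 1 := mul_le_one₀ a1 (norm_nonneg _) a2
    by_cases ht : |tE e| ≤ 1
    · rw [if_pos ht]
      have a6 : 0 ≤ ps0 (tE e) := le_max_left _ _
      have a7 : ps0 (tE e) ≤ 1 := max_le zero_le_one (by linarith [abs_nonneg (tE e)])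
      have a8 : h (mE e / Y) ^ 2 ≤ 1 := pow_le_one₀ a3 a4
      have a9 : h (mE e / Y) ^ 2 * ps0 (tE e) ≤ 1 := mul_le_one₀ a8 a6 a7
      rw [abs_of_nonneg (by positivity)]
      exact mul_le_one₀ a5 (by positivity) a9
    · rw [if_neg ht]
      have a6 : ps0 (tE e) = 0 := by
        unfold ps0
        rw [max_eq_left]
        push Not at ht
        linarith
      rw [a6, mul_zero, abs_zero, mul_zero]
  calc ‖∑ e ∈ (EN n (h2 * Y)).filter (hc n), f (nm e.1) * (starRingEnd ℂ) (f (nm e.2)) *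
        ((h (mE e / Y) ^ 2 * ps0 (tE e) : ℝ) : ℂ)‖
      ≤ ∑ e ∈ (EN n (h2 * Y)).filter (hc n), (if |tE e| ≤ 1 then (1 : ℝ) else 0) :=
        norm_sum_le_of_le _ (fun e _ => hterm e)
    _ ≤ ∑ e ∈ EN n (h2 * Y), (if |tE e| ≤ 1 then (1 : ℝ) else 0) := by
        refine Finset.sum_le_sum_of_subset_of_nonneg (Finset.filter_subset _ _) (fun e _ _ => ?_)
        split_ifs <;> norm_num
    _ = (((EN n (h2 * Y)).filter (fun e => |tE e| ≤ 1)).card : ℝ) := by
        rw [← Finset.sum_filter, Finset.sum_const, nsmul_eq_mul, mul_one]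

/-- PROOF. `n / φ(n) = ∏_(p ∣ n) (1 + 1/(p-1)) = ∑_(d ∣ n) c_d`, `c_d = μ(d)^2 / φ(d)` (`Nat.totient_eq_mul_prod_factors`, `Finset.prod_one_add`, `Nat.sum_divisors_filter_squarefree`), and `∑ c_d / d` converges (`φ(d) ≥ sqrt (d/2)`, or
`∑_(d ≤ N) c_d/d ≤ ∏ (1 + 1/(p (p-1)))`). Put `K` with `∑_(d > K) c_d/d ≤ ε'`. `‖Qs f n (h2 Y) (..) Y‖ ≤ C h2 Y` for `n ≤ N ≤ h2 Y` (`cnt` with `B = 1`, `|f| ≤ 1`, `h ≤ 1`, `ps0 t = 0` for `|t| ≥ 1`). So the part `d > K` is at most
`∑_(d > K) c_d (N/d) * 2 C h2 Y ≤ 2 C h2 ε' N Y` (`0 ≤ ww ≤ 1`, `kap ≤ 2`). For the finitely many `d ≤ K` use `hQ d` with `ε''`. -/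
theorem dsum (f : ℕ → ℂ) (hf : ∀ n, ‖f n‖ ≤ 1) (hQ : QdSmall f) : QSmall f := by
  classical
  intro h h1 h2 hh ε hε
  obtain ⟨C, hC, hCQ⟩ := dsum_Qs f hf h h1 h2 hh
  have h2one : (1 : ℝ) ≤ h2 := hh.one
  have h2pos : 0 < h2 := by linarith
  obtain ⟨-, hw0, hw1, -⟩ := ww_props
  -- the tail
  have hε' : 0 < ε / (4 * C * h2) := by positivity
  obtain ⟨s, hs⟩ := summable_iff_vanishing_norm.mp dsumC_summable _ hε'
  set K : ℕ := s.sup id with hK
  have htail : ∀ N : ℕ, ∑ d ∈ (Icc 1 N).filter (fun d => K < d), dsumC d / d ≤ ε / (4 * C * h2) := by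
    intro N
    have hd : Disjoint ((Icc 1 N).filter (fun d => K < d)) s := by
      rw [Finset.disjoint_left]
      intro d hd hds
      have h3 := (mem_filter.mp hd).2
      have h4 : d ≤ K := Finset.le_sup (f := id) hds
      omega
    exact (le_abs_self _).trans (hs _ hd).le
  set SK : ℝ := ∑ d ∈ Icc 1 K, dsumC d with hSK
  have hSK0 : 0 ≤ SK := Finset.sum_nonneg (fun d _ => dsumC_nonneg d)
  set ε2 : ℝ := ε / (2 * (SK + 1)) with hε2
  have hε2pos : 0 < ε2 := by positivity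
  have hex : ∀ d : ℕ, ∃ N0 : ℕ, 1 ≤ d → ∀ N : ℕ, N0 ≤ N →
    ∀ᶠ Y : ℝ in atTop, ‖∑ n ∈ (Icc 1 N).filter (fun n => d ∣ n), ((kap n * ww ((n : ℝ) / N) : ℝ) : ℂ) *
      Qs f n (h2 * Y) (fun y t => ((h y ^ 2 * ps0 t : ℝ) : ℂ)) Y‖ ≤ ε2 * N * Y := by
    intro d
    by_cases hd : 1 ≤ d
    · obtain ⟨N0, hN0⟩ := hQ d hd h h1 h2 hh ε2 hε2pos
      exact ⟨N0, fun _ => hN0⟩
    · exact ⟨0, fun h => absurd h hd⟩
  choose N0 hN0 using hex
  refine ⟨(Icc 1 K).sup N0, fun N hN => ?_⟩
  have hsmall : ∀ᶠ Y : ℝ in atTop, ∀ d ∈ Icc 1 K, ‖∑ n ∈ (Icc 1 N).filter (fun n => d ∣ n), ((kap n * ww ((n : ℝ) / N) : ℝ) : ℂ) *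
      Qs f n (h2 * Y) (fun y t => ((h y ^ 2 * ps0 t : ℝ) : ℂ)) Y‖ ≤ ε2 * N * Y := by
    rw [Filter.eventually_all_finset]
    intro d hd
    exact hN0 d (mem_Icc.mp hd).1 N (le_trans (Finset.le_sup hd) hN)
  filter_upwards [hsmall, eventually_ge_atTop (N : ℝ), eventually_gt_atTop (0 : ℝ)] with Y hY hYN hY0
  set Q : ℕ → ℂ := fun n => Qs f n (h2 * Y) (fun y t => ((h y ^ 2 * ps0 t : ℝ) : ℂ)) Y with hQdef
  set Z : ℕ → ℂ := fun d => ∑ n ∈ (Icc 1 N).filter (fun n => d ∣ n), ((kap n * ww ((n : ℝ) / N) : ℝ) : ℂ) * Q n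
    with hZ
  have hQb : ∀ n ∈ Icc 1 N, ‖Q n‖ ≤ C * (h2 * Y) := by
    intro n hn
    obtain ⟨hn1, hn2⟩ := mem_Icc.mp hn
    refine hCQ n hn1 Y ?_
    have e1 : (n : ℝ) ≤ N := by exact_mod_cast hn2
    nlinarith
  have hZb : ∀ d ∈ Icc 1 N, ‖Z d‖ ≤ (N / d : ℝ) * (2 * (C * (h2 * Y))) := by
    intro d hd
    have hd1 := (mem_Icc.mp hd).1
    have hcard : (((Icc 1 N).filter (fun n => d ∣ n)).card : ℝ) ≤ (N / d : ℝ) := by
      have e1 : Icc 1 N = Ioc 0 N := by
        ext x
        rw [mem_Icc, mem_Ioc]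
        omega
      rw [e1, Nat.Ioc_filter_dvd_card_eq_div]
      exact Nat.cast_div_le
    calc ‖Z d‖ ≤ ∑ n ∈ (Icc 1 N).filter (fun n => d ∣ n), (2 * (C * (h2 * Y))) := by
          refine norm_sum_le_of_le _ (fun n hn => ?_)
          rw [norm_mul, Complex.norm_real, Real.norm_eq_abs]
          have k1 := dsum_kap n
          have k2 := hw0 ((n : ℝ) / N)
          have k3 := hw1 ((n : ℝ) / N)
          rw [abs_of_nonneg (mul_nonneg k1.1 k2)]
          have k4 : kap n * ww ((n : ℝ) / N) ≤ 2 := by nlinarith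
          exact mul_le_mul k4 (hQb n (mem_filter.mp hn).1) (norm_nonneg _) (by norm_num)
      _ = (((Icc 1 N).filter (fun n => d ∣ n)).card : ℝ) * (2 * (C * (h2 * Y))) := by
          rw [Finset.sum_const, nsmul_eq_mul]
      _ ≤ _ := mul_le_mul_of_nonneg_right hcard (by positivity)
  have hexch : ∑ n ∈ Icc 1 N, ((kap n * (n / n.totient) * ww ((n : ℝ) / N) : ℝ) : ℂ) * Q n =
      ∑ d ∈ Icc 1 N, (dsumC d : ℂ) * Z d := by
    have e1 : ∀ n ∈ Icc 1 N, ((kap n * (n / n.totient) * ww ((n : ℝ) / N) : ℝ) : ℂ) * Q n =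
        ∑ d ∈ Icc 1 N, (if d ∣ n then (dsumC d : ℂ) * (((kap n * ww ((n : ℝ) / N) : ℝ) : ℂ) * Q n) else 0) := by
      intro n hn
      obtain ⟨hn1, hn2⟩ := mem_Icc.mp hn
      have e2 : n.divisors = (Icc 1 N).filter (fun d => d ∣ n) := by
        ext d
        rw [Nat.mem_divisors, mem_filter, mem_Icc]
        constructor
        · rintro ⟨h3, h4⟩
          have h5 := Nat.le_of_dvd hn1 h3
          have h6 := Nat.pos_of_dvd_of_pos h3 hn1
          exact ⟨⟨h6, by omega⟩, h3⟩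
        · rintro ⟨_, h3⟩
          exact ⟨h3, by omega⟩
      rw [dsum_eq n hn1, ← Finset.sum_filter, ← e2, ← Finset.sum_mul]
      push_cast
      ring
    rw [Finset.sum_congr rfl e1, Finset.sum_comm]
    refine Finset.sum_congr rfl (fun d _ => ?_)
    rw [← Finset.sum_filter, ← Finset.mul_sum]
  rw [hexch]
  have hsplit : ∑ d ∈ Icc 1 N, dsumC d * ‖Z d‖ =
      ∑ d ∈ (Icc 1 N).filter (fun d => d ≤ K), dsumC d * ‖Z d‖ +
      ∑ d ∈ (Icc 1 N).filter (fun d => K < d), dsumC d * ‖Z d‖ := by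
    rw [← Finset.sum_filter_add_sum_filter_not (Icc 1 N) (fun d => d ≤ K)]
    congr 1
    refine Finset.sum_congr ?_ (fun _ _ => rfl)
    refine Finset.filter_congr (fun d _ => ?_)
    omega
  have hpart1 : ∑ d ∈ (Icc 1 N).filter (fun d => d ≤ K), dsumC d * ‖Z d‖ ≤ ε / 2 * N * Y := by
    calc ∑ d ∈ (Icc 1 N).filter (fun d => d ≤ K), dsumC d * ‖Z d‖
        ≤ ∑ d ∈ (Icc 1 N).filter (fun d => d ≤ K), dsumC d * (ε2 * N * Y) := by
          refine Finset.sum_le_sum (fun d hd => ?_)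
          obtain ⟨hd1, hd2⟩ := mem_filter.mp hd
          exact mul_le_mul_of_nonneg_left (hY d (mem_Icc.mpr ⟨(mem_Icc.mp hd1).1, hd2⟩)) (dsumC_nonneg d)
      _ ≤ ∑ d ∈ Icc 1 K, dsumC d * (ε2 * N * Y) := by
          refine Finset.sum_le_sum_of_subset_of_nonneg ?_ (fun d _ _ => ?_)
          · intro d hd
            obtain ⟨hd1, hd2⟩ := mem_filter.mp hd
            exact mem_Icc.mpr ⟨(mem_Icc.mp hd1).1, hd2⟩
          · have := dsumC_nonneg d
            positivity
      _ = SK * (ε2 * N * Y) := by rw [← Finset.sum_mul]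
      _ ≤ (SK + 1) * (ε2 * N * Y) := mul_le_mul_of_nonneg_right (by linarith) (by positivity)
      _ = ε / 2 * N * Y := by
          rw [hε2]
          field_simp
  have hpart2 : ∑ d ∈ (Icc 1 N).filter (fun d => K < d), dsumC d * ‖Z d‖ ≤ ε / 2 * N * Y := by
    calc ∑ d ∈ (Icc 1 N).filter (fun d => K < d), dsumC d * ‖Z d‖
        ≤ ∑ d ∈ (Icc 1 N).filter (fun d => K < d), (dsumC d / d) * (2 * C * h2 * N * Y) := by
          refine Finset.sum_le_sum (fun d hd => ?_)
          have h3 := hZb d (mem_filter.mp hd).1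
          calc dsumC d * ‖Z d‖ ≤ dsumC d * ((N / d : ℝ) * (2 * (C * (h2 * Y)))) :=
                mul_le_mul_of_nonneg_left h3 (dsumC_nonneg d)
            _ = (dsumC d / d) * (2 * C * h2 * N * Y) := by ring
      _ = (∑ d ∈ (Icc 1 N).filter (fun d => K < d), dsumC d / d) * (2 * C * h2 * N * Y) := by
          rw [← Finset.sum_mul]
      _ ≤ (ε / (4 * C * h2)) * (2 * C * h2 * N * Y) :=
          mul_le_mul_of_nonneg_right (htail N) (by positivity)
      _ = ε / 2 * N * Y := by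
          field_simp
          ring
  calc ‖∑ d ∈ Icc 1 N, (dsumC d : ℂ) * Z d‖ ≤ ∑ d ∈ Icc 1 N, dsumC d * ‖Z d‖ := by
        refine norm_sum_le_of_le _ (fun d _ => ?_)
        rw [norm_mul, Complex.norm_real, Real.norm_eq_abs, abs_of_nonneg (dsumC_nonneg d)]
    _ ≤ ε * N * Y := by
        rw [hsplit]
        linarith

end Pool.Agent.OmEq

end
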