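import Pool.Agent.Lib_MP_92ef0c_m.M31
import Pool.Agent.Lib_MP_92ef0c_m.M42

/-!
# MP_92ef0c_nt, split pairs: merged library part M43

Concatenation of smaller files (each in its own section), only to save build time.
-/

/-! ### from `Lib_MP_92ef0c_sp.Cnt3` -/

section

/-!
# Counting matrices
-/

set_option autoImplicit false

namespace Pool.Agent.Spl

open Finset Pool.Agent.GaussMR Pool.Agent.OmAll Pool.Agent.OmEq

/-- the bounds for the entries -/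
theorem cnt3_bounds {B : ℝ} {n : ℕ} {x : ℝ} (hnx : (n : ℝ) ≤ x) {e : Q4} (h : Sn n e) (hy : yS e ≤ x)
    (ht : |tS e| ≤ B) (hu : |uS e| ≤ B) :
    (e.a : ℝ) ^ 2 ≤ 2 * Real.exp B * x ∧ (e.b : ℝ) ^ 2 ≤ Real.exp B * x ∧
      (e.c : ℝ) ≤ Real.exp B ^ 2 * e.a := by
  obtain ⟨h1, ha, hb, hc, hd, -, -⟩ := h
  have ha' : (0 : ℝ) < e.a := by exact_mod_cast ha
  have hb' : (0 : ℝ) < e.b := by exact_mod_cast hb
  have hc' : (0 : ℝ) < e.c := by exact_mod_cast hc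
  have hd' : (0 : ℝ) < e.d := by exact_mod_cast hd
  have hE : 0 < Real.exp B := Real.exp_pos B
  have key : ∀ u v : ℝ, 0 < u → 0 < v → Real.log u - Real.log v ≤ B → u ≤ Real.exp B * v := by
    intro u v hu hv h
    have h2 : Real.log u ≤ B + Real.log v := by linarith
    have h3 := Real.exp_le_exp.2 h2
    rwa [Real.exp_log hu, Real.exp_add, Real.exp_log hv] at h3
  unfold tS at ht
  unfold uS at hu
  have hda := key _ _ hd' ha' (abs_le.1 ht).2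
  have had := key _ _ ha' hd' (by linarith [(abs_le.1 ht).1])
  have hcb := key _ _ hc' hb' (abs_le.1 hu).2
  have hbc := key _ _ hb' hc' (by linarith [(abs_le.1 hu).1])
  have h1' : (e.a : ℝ) * e.d = e.b * e.c + n := by exact_mod_cast h1
  have hn : (0 : ℝ) ≤ n := Nat.cast_nonneg n
  unfold yS at hy
  have hA : (e.a : ℝ) ^ 2 ≤ 2 * Real.exp B * x := by
    have h2 : (e.a : ℝ) ^ 2 ≤ Real.exp B * (e.a * e.d) := by nlinarith
    have h3 : (e.a : ℝ) * e.d ≤ 2 * x := by linarith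
    nlinarith
  have hBb : (e.b : ℝ) ^ 2 ≤ Real.exp B * x := by
    have h2 : (e.b : ℝ) ^ 2 ≤ Real.exp B * (e.b * e.c) := by nlinarith
    nlinarith
  refine ⟨hA, hBb, ?_⟩
  have h4 : (e.b : ℝ) ^ 2 ≤ (Real.exp B * e.a) ^ 2 := by
    have h2 : (e.b : ℝ) ^ 2 ≤ Real.exp B * (e.b * e.c) := by nlinarith
    have h3 : (e.b : ℝ) * e.c ≤ e.a * e.d := by linarith
    have h5 : (e.a : ℝ) * e.d ≤ Real.exp B * e.a ^ 2 := by nlinarith
    have h6 : Real.exp B * ((e.b : ℝ) * e.c) ≤ Real.exp B * (Real.exp B * (e.a : ℝ) ^ 2) :=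
      mul_le_mul_of_nonneg_left (h3.trans h5) hE.le
    calc (e.b : ℝ) ^ 2 ≤ Real.exp B * (e.b * e.c) := h2
      _ ≤ Real.exp B * (Real.exp B * (e.a : ℝ) ^ 2) := h6
      _ = (Real.exp B * e.a) ^ 2 := by ring
  have h5 : (e.b : ℝ) ≤ Real.exp B * e.a := le_of_sq_le_sq h4 (by positivity)
  calc (e.c : ℝ) ≤ Real.exp B * e.b := hcb
    _ ≤ Real.exp B * (Real.exp B * e.a) := mul_le_mul_of_nonneg_left h5 hE.le
    _ = Real.exp B ^ 2 * e.a := by ring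

/-- the entries `a`, `b` and the quotient `c / a` determine the matrix -/
theorem cnt3_inj {n : ℕ} {e f : Q4} (he : Sn n e) (hf : Sn n f) (ha : e.a = f.a) (hb : e.b = f.b)
    (hq : e.c / e.a = f.c / f.a) : e = f := by
  obtain ⟨h1, hea, heb, hec, hed, hcop, -⟩ := he
  obtain ⟨h2, hfa, hfb, hfc, hfd, -, -⟩ := hf
  rw [← ha, ← hb] at h2
  rw [← ha] at hq
  have h3 : e.b * e.c + n ≡ e.b * f.c + n [MOD e.a] := by
    rw [← h1, ← h2]
    exact ((Nat.modEq_zero_iff_dvd.2 (dvd_mul_right _ _))).trans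
      ((Nat.modEq_zero_iff_dvd.2 (dvd_mul_right _ _))).symm
  have h4 : e.b * e.c ≡ e.b * f.c [MOD e.a] := Nat.ModEq.add_right_cancel' n h3
  have h5 : e.c ≡ f.c [MOD e.a] := Nat.ModEq.cancel_left_of_coprime hcop h4
  have h6 : e.c = f.c := by
    have h7 := Nat.div_add_mod e.c e.a
    have h8 := Nat.div_add_mod f.c e.a
    have h9 : e.c % e.a = f.c % e.a := h5
    rw [← h7, ← h8, hq, h9]
  have h7 : e.d = f.d := by
    rw [← h6] at h2
    exact Nat.eq_of_mul_eq_mul_left hea (h1.trans h2.symm)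
  exact Q4.ext ha hb h6 h7

open Classical in
/-- PROOF. We may assume `B ≥ 0` (otherwise the set is empty). `c ≥ exp(-B) b`, so `b^2 ≤ exp B b c ≤ exp B x`; `d ≥ exp(-B) a`, so `a^2 ≤ exp B a d ≤ 2 exp B x` (`a d = b c + n ≤ 2 x`): at most `2 exp B x` pairs `(a, b)`. Also `exp(-B) b^2 ≤ b c < a d ≤ exp B a^2`, so `b ≤ exp B a`.
For given `(a, b)` the number `c` is determined modulo `a` (`b c ≡ - n mod a`, `(a, b) = 1`) and `1 ≤ c ≤ exp B b ≤ exp(2 B) a`: at most `exp(2 B) + 1` values; `d` is determined by `a, b, c`. -/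
theorem cnt3 (B : ℝ) : ∃ C : ℝ, 0 < C ∧ ∀ n : ℕ, 0 < n → ∀ x : ℝ, (n : ℝ) ≤ x →
    (((SN n x).filter (fun e => |tS e| ≤ B ∧ |uS e| ≤ B)).card : ℝ) ≤ C * x := by
  have hE : 0 < Real.exp B := Real.exp_pos B
  refine ⟨2 * Real.exp B * (Real.exp B ^ 2 + 1), by positivity, ?_⟩
  intro n hn x hnx
  have hx : 0 ≤ x := (Nat.cast_nonneg n).trans hnx
  set A : ℕ := ⌊Real.sqrt (2 * Real.exp B * x)⌋₊ with hA
  set D : ℕ := ⌊Real.sqrt (Real.exp B * x)⌋₊ with hD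
  set K : ℕ := ⌊Real.exp B ^ 2⌋₊ with hK
  have hcard : ((SN n x).filter (fun e => |tS e| ≤ B ∧ |uS e| ≤ B)).card ≤
      ((Icc 1 A ×ˢ Icc 1 D) ×ˢ range (K + 1)).card := by
    apply card_le_card_of_injOn (fun e => ((e.a, e.b), e.c / e.a))
    · intro e he
      have he' := (mem_filter.1 (mem_coe.1 he))
      obtain ⟨h1, h2, h3⟩ := he'
      obtain ⟨h4, h5⟩ := mem_SN.1 h1
      obtain ⟨b1, b2, b3⟩ := cnt3_bounds hnx h4 h5 h2 h3
      obtain ⟨-, ha, hb, -⟩ := h4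
      have ha' : (0 : ℝ) < e.a := by exact_mod_cast ha
      simp only [coe_product, Set.mem_prod, coe_Icc, Set.mem_Icc, coe_range, Set.mem_Iio]
      refine ⟨⟨⟨ha, Nat.le_floor (Real.le_sqrt_of_sq_le b1)⟩, hb, Nat.le_floor (Real.le_sqrt_of_sq_le b2)⟩, ?_⟩
      have h6 : ((e.c / e.a : ℕ) : ℝ) ≤ Real.exp B ^ 2 := by
        have h7 : ((e.c / e.a : ℕ) : ℝ) * e.a ≤ e.c := by exact_mod_cast Nat.div_mul_le_self e.c e.a
        have h8 : ((e.c / e.a : ℕ) : ℝ) * e.a ≤ Real.exp B ^ 2 * e.a := h7.trans b3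
        exact le_of_mul_le_mul_right h8 ha'
      exact Nat.lt_succ_of_le (Nat.le_floor h6)
    · intro e he f hf hef
      have he' := (mem_SN.1 (mem_filter.1 (mem_coe.1 he)).1).1
      have hf' := (mem_SN.1 (mem_filter.1 (mem_coe.1 hf)).1).1
      simp only [Prod.mk.injEq] at hef
      exact cnt3_inj he' hf' hef.1.1 hef.1.2 hef.2
  have h1 : (((Icc 1 A ×ˢ Icc 1 D) ×ˢ range (K + 1)).card : ℝ) = A * D * (K + 1) := by
    rw [card_product, card_product, Nat.card_Icc, Nat.card_Icc, card_range]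
    push_cast
    simp
  have hA' : (A : ℝ) ≤ Real.sqrt (2 * Real.exp B * x) := Nat.floor_le (Real.sqrt_nonneg _)
  have hD' : (D : ℝ) ≤ Real.sqrt (2 * Real.exp B * x) :=
    (Nat.floor_le (Real.sqrt_nonneg _)).trans (Real.sqrt_le_sqrt (by nlinarith))
  have hK' : (K : ℝ) ≤ Real.exp B ^ 2 := Nat.floor_le (by positivity)
  have h2 : (A : ℝ) * D ≤ 2 * Real.exp B * x := by
    calc (A : ℝ) * D ≤ Real.sqrt (2 * Real.exp B * x) * Real.sqrt (2 * Real.exp B * x) :=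
          mul_le_mul hA' hD' (Nat.cast_nonneg _) (Real.sqrt_nonneg _)
      _ = 2 * Real.exp B * x := Real.mul_self_sqrt (by positivity)
  calc ((((SN n x).filter (fun e => |tS e| ≤ B ∧ |uS e| ≤ B)).card : ℕ) : ℝ)
      ≤ (((Icc 1 A ×ˢ Icc 1 D) ×ˢ range (K + 1)).card : ℝ) := by exact_mod_cast hcard
    _ = A * D * (K + 1) := h1
    _ ≤ (2 * Real.exp B * x) * (Real.exp B ^ 2 + 1) :=
        mul_le_mul h2 (by linarith) (by positivity) (by positivity)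
    _ = 2 * Real.exp B * (Real.exp B ^ 2 + 1) * x := by ring

end Pool.Agent.Spl

end

/-! ### from `Lib_MP_92ef0c_sp.DSum3` -/

section

/-!
# Stage B: removal of the factor `n / φ(n)`
-/

set_option autoImplicit false

namespace Pool.Agent.Spl

open Finset Pool.Agent.GaussMR Pool.Agent.OmAll Pool.Agent.OmEq MeasureTheory Filter

theorem dsum3_ps0 (t : ℝ) : 0 ≤ ps0 t ∧ ps0 t ≤ 1 ∧ (1 < |t| → ps0 t = 0) := by
  refine ⟨le_max_left _ _, max_le zero_le_one (by linarith [abs_nonneg t]), fun h => ?_⟩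
  unfold ps0
  rw [max_eq_left]
  linarith

theorem dsum3_Qs (f : ℕ → ℂ) (hf : ∀ n, ‖f n‖ ≤ 1) (h : ℝ → ℝ) (h1 h2 : ℝ) (hh : HF h h1 h2) :
    ∃ C : ℝ, 0 < C ∧ ∀ n : ℕ, 0 < n → ∀ Y : ℝ, (n : ℝ) ≤ h2 * Y →
      ‖Qs3 f n (h2 * Y) (Wh (fun y => h y ^ 2)) Y‖ ≤ C * (h2 * Y) := by
  classical
  obtain ⟨C, hC, hcnt⟩ := cnt3 1
  refine ⟨C, hC, fun n hn Y hY => ?_⟩
  refine le_trans ?_ (hcnt n hn (h2 * Y) hY)
  unfold Qs3
  have hterm : ∀ e : Q4, ‖F4 f (cj f) (cj f) f e * Wh (fun y => h y ^ 2) (yS e / Y) (tS e) (uS e)‖ ≤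
      if |tS e| ≤ 1 ∧ |uS e| ≤ 1 then 1 else 0 := by
    intro e
    unfold Wh
    rw [norm_mul, Complex.norm_real, Real.norm_eq_abs]
    have hc : ∀ n, ‖cj f n‖ ≤ 1 := fun n => by
      rw [norm_cj]
      exact hf n
    have a5 : ‖F4 f (cj f) (cj f) f e‖ ≤ 1 := norm_F4_le hf hc hc hf e
    have a3 := hh.nn (yS e / Y)
    have a4 := hh.le (yS e / Y)
    obtain ⟨p1, p2, p3⟩ := dsum3_ps0 (tS e)
    obtain ⟨q1, q2, q3⟩ := dsum3_ps0 (uS e)
    by_cases ht : |tS e| ≤ 1 ∧ |uS e| ≤ 1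
    · rw [if_pos ht]
      have a8 : h (yS e / Y) ^ 2 ≤ 1 := pow_le_one₀ a3 a4
      have a9 : h (yS e / Y) ^ 2 * ps0 (tS e) * ps0 (uS e) ≤ 1 :=
        mul_le_one₀ (mul_le_one₀ a8 p1 p2) q1 q2
      rw [abs_of_nonneg (by positivity)]
      exact mul_le_one₀ a5 (by positivity) a9
    · rw [if_neg ht]
      rcases not_and_or.1 ht with ht' | ht'
      · rw [p3 (not_le.1 ht'), mul_zero, zero_mul, abs_zero, mul_zero]
      · rw [q3 (not_le.1 ht'), mul_zero, abs_zero, mul_zero]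
  calc ‖∑ e ∈ SN n (h2 * Y), F4 f (cj f) (cj f) f e * Wh (fun y => h y ^ 2) (yS e / Y) (tS e) (uS e)‖
      ≤ ∑ e ∈ SN n (h2 * Y), (if |tS e| ≤ 1 ∧ |uS e| ≤ 1 then (1 : ℝ) else 0) :=
        norm_sum_le_of_le _ (fun e _ => hterm e)
    _ = (((SN n (h2 * Y)).filter (fun e => |tS e| ≤ 1 ∧ |uS e| ≤ 1)).card : ℝ) := by
        rw [← Finset.sum_filter, Finset.sum_const, nsmul_eq_mul, mul_one]

/-- the multiples of `D` up to `N` and the multiples of `D h` up to `N h` -/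
theorem dsum3_scale (F : ℕ → ℂ) (N D h : ℕ) (hh : 0 < h) :
    ∑ n ∈ (Icc 1 N).filter (fun n => D ∣ n), F (n * h) =
      ∑ m ∈ (Icc 1 (N * h)).filter (fun m => D * h ∣ m), F m := by
  refine Finset.sum_nbij' (fun n => n * h) (fun m => m / h) ?_ ?_ ?_ ?_ ?_
  · intro n hn
    obtain ⟨h1, h2⟩ := mem_filter.1 hn
    obtain ⟨h3, h4⟩ := mem_Icc.1 h1
    refine mem_filter.2 ⟨mem_Icc.2 ⟨Nat.mul_pos h3 hh, Nat.mul_le_mul_right h h4⟩, Nat.mul_dvd_mul_right h2 h⟩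
  · intro m hm
    obtain ⟨h1, h2⟩ := mem_filter.1 hm
    obtain ⟨h3, h4⟩ := mem_Icc.1 h1
    obtain ⟨k, rfl⟩ := h2
    have e1 : D * h * k = D * k * h := by ring
    rw [e1] at h3 h4
    rw [e1, Nat.mul_div_cancel _ hh]
    refine mem_filter.2 ⟨mem_Icc.2 ⟨?_, Nat.le_of_mul_le_mul_right h4 hh⟩, Dvd.intro k rfl⟩
    rcases Nat.eq_zero_or_pos (D * k) with h5 | h5
    · rw [h5, zero_mul] at h3
      omega
    · exact h5
  · intro n hn
    exact Nat.mul_div_cancel _ hh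
  · intro m hm
    obtain ⟨h1, h2⟩ := mem_filter.1 hm
    obtain ⟨k, rfl⟩ := h2
    have e1 : D * h * k = D * k * h := by ring
    rw [e1, Nat.mul_div_cancel _ hh]
  · intro n hn
    rfl

/-- PROOF. Adapt `dsum` (`Lib_MP_f1a94e_eq/DSum.lean`; `dsumC`, `dsum_eq`, `dsumC_summable` can be used). `n / φ(n) = ∑_(d ∣ n) c_d`, `∑ c_d / d < ∞`. `‖Qs3 f (n h0) (h2 Y) (..) Y‖ ≤ C h2 Y` for `n h0 ≤ h2 Y` (`cnt3` with `B = 1`, `0 ≤ h ≤ 1`, `ps0 t = 0` for `|t| ≥ 1`). The part `d > K` is at most `∑_(d > K) c_d (N/d) C h2 Y`, small.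
For the finitely many `d ≤ K`: `{n ≤ N : Q ∣ n, d ∣ n} = {n ≤ N : lcm Q d ∣ n}`, and with `m = n h0`, `N' = N h0`, `D = lcm(Q, d) h0`: `∑_(n ≤ N, lcm ∣ n) ww(n/N) Qs3 f (n h0) .. = ∑_(m ≤ N', D ∣ m) ww(m/N') Qs3 f m ..` (`n/N = m/N'`; `D ∣ m` and `m ≤ N'` imply `m = n h0` with `n ≤ N`, `lcm ∣ n`): `hQ D` with `ε''/h0`. -/
theorem dsum3 (f : ℕ → ℂ) (hf : ∀ n, ‖f n‖ ≤ 1) (hQ : QdSmall3 f) (h0 Q : ℕ) (hh0 : 0 < h0) (hQ0 : 0 < Q) :
    QSmall3 h0 Q f := by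
  classical
  intro h h1 h2 hh ε hε
  obtain ⟨C, hC, hCQ⟩ := dsum3_Qs f hf h h1 h2 hh
  have h2one : (1 : ℝ) ≤ h2 := hh.one
  have h2pos : 0 < h2 := by linarith
  have hh0R : (0 : ℝ) < h0 := by exact_mod_cast hh0
  obtain ⟨-, hw0, hw1, -⟩ := ww_props
  -- the tail
  have hε' : 0 < ε / (2 * C * h2) := by positivity
  obtain ⟨s, hs⟩ := summable_iff_vanishing_norm.mp dsumC_summable _ hε'
  set K : ℕ := s.sup id with hK
  have htail : ∀ N : ℕ, ∑ d ∈ (Icc 1 N).filter (fun d => K < d), dsumC d / d ≤ ε / (2 * C * h2) := by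
    intro N
    have hd : Disjoint ((Icc 1 N).filter (fun d => K < d)) s := by
      rw [Finset.disjoint_left]
      intro d hd hds
      have h3 := (mem_filter.mp hd).2
      have h4 : d ≤ K := Finset.le_sup (f := id) hds
      omega
    exact (le_abs_self _).trans (hs _ hd).le
  set SK : ℝ := ∑ d ∈ Icc 1 K, dsumC d with hSK
  have hSK0 : 0 ≤ SK := Finset.sum_nonneg (fun d _ => dsumC_nonneg d)
  set ε2 : ℝ := ε / (2 * (SK + 1)) with hε2
  have hε2pos : 0 < ε2 := by positivity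
  have hex : ∀ d : ℕ, ∃ N0 : ℕ, 1 ≤ d → ∀ N : ℕ, N0 ≤ N →
    ∀ᶠ Y : ℝ in atTop, ‖∑ n ∈ (Icc 1 N).filter (fun n => Q ∣ n ∧ d ∣ n), ((ww ((n : ℝ) / N) : ℝ) : ℂ) *
      Qs3 f (n * h0) (h2 * Y) (Wh (fun y => h y ^ 2)) Y‖ ≤ ε2 * N * Y := by
    intro d
    by_cases hd : 1 ≤ d
    · have hD : 1 ≤ Nat.lcm Q d * h0 := Nat.mul_pos (Nat.lcm_pos hQ0 hd) hh0
      obtain ⟨N0, hN0⟩ := hQ (Nat.lcm Q d * h0) hD h h1 h2 hh (ε2 / h0) (by positivity)
      refine ⟨N0, fun _ N hN => ?_⟩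
      have hN' : N0 ≤ N * h0 := le_trans hN (Nat.le_mul_of_pos_right N hh0)
      filter_upwards [hN0 (N * h0) hN'] with Y hY
      have e1 : (Icc 1 N).filter (fun n => Q ∣ n ∧ d ∣ n) = (Icc 1 N).filter (fun n => Nat.lcm Q d ∣ n) := by
        refine Finset.filter_congr (fun n _ => ?_)
        exact Nat.lcm_dvd_iff.symm
      have e2 : ∑ n ∈ (Icc 1 N).filter (fun n => Q ∣ n ∧ d ∣ n), ((ww ((n : ℝ) / N) : ℝ) : ℂ) *
          Qs3 f (n * h0) (h2 * Y) (Wh (fun y => h y ^ 2)) Y =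
          ∑ m ∈ (Icc 1 (N * h0)).filter (fun m => Nat.lcm Q d * h0 ∣ m), ((ww ((m : ℝ) / (N * h0 : ℕ)) : ℝ) : ℂ) *
          Qs3 f m (h2 * Y) (Wh (fun y => h y ^ 2)) Y := by
        rw [e1, ← dsum3_scale (fun m => ((ww ((m : ℝ) / (N * h0 : ℕ)) : ℝ) : ℂ) *
          Qs3 f m (h2 * Y) (Wh (fun y => h y ^ 2)) Y) N (Nat.lcm Q d) h0 hh0]
        refine Finset.sum_congr rfl (fun n _ => ?_)
        have e3 : ((n * h0 : ℕ) : ℝ) / ((N * h0 : ℕ) : ℝ) = (n : ℝ) / N := by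
          push_cast
          rw [mul_div_mul_right _ _ hh0R.ne']
        simp only [e3]
      rw [e2]
      refine hY.trans (le_of_eq ?_)
      push_cast
      field_simp
    · exact ⟨0, fun h => absurd h hd⟩
  choose N0 hN0 using hex
  refine ⟨(Icc 1 K).sup N0, fun N hN => ?_⟩
  have hsmall : ∀ᶠ Y : ℝ in atTop, ∀ d ∈ Icc 1 K, ‖∑ n ∈ (Icc 1 N).filter (fun n => Q ∣ n ∧ d ∣ n),
      ((ww ((n : ℝ) / N) : ℝ) : ℂ) * Qs3 f (n * h0) (h2 * Y) (Wh (fun y => h y ^ 2)) Y‖ ≤ ε2 * N * Y := by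
    rw [Filter.eventually_all_finset]
    intro d hd
    exact hN0 d (mem_Icc.mp hd).1 N (le_trans (Finset.le_sup hd) hN)
  filter_upwards [hsmall, eventually_ge_atTop ((N : ℝ) * h0), eventually_gt_atTop (0 : ℝ)] with Y hY hYN hY0
  set q : ℕ → ℂ := fun n => Qs3 f (n * h0) (h2 * Y) (Wh (fun y => h y ^ 2)) Y with hqdef
  set Z : ℕ → ℂ := fun d => ∑ n ∈ (Icc 1 N).filter (fun n => Q ∣ n ∧ d ∣ n), ((ww ((n : ℝ) / N) : ℝ) : ℂ) * q n
    with hZ
  have hQb : ∀ n ∈ Icc 1 N, ‖q n‖ ≤ C * (h2 * Y) := by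
    intro n hn
    obtain ⟨hn1, hn2⟩ := mem_Icc.mp hn
    refine hCQ (n * h0) (Nat.mul_pos hn1 hh0) Y ?_
    have e1 : (n : ℝ) ≤ N := by exact_mod_cast hn2
    push_cast
    have e2 : (n : ℝ) * h0 ≤ N * h0 := mul_le_mul_of_nonneg_right e1 hh0R.le
    nlinarith
  have hZb : ∀ d ∈ Icc 1 N, ‖Z d‖ ≤ (N / d : ℝ) * (C * (h2 * Y)) := by
    intro d hd
    have hd1 := (mem_Icc.mp hd).1
    have hcard : (((Icc 1 N).filter (fun n => Q ∣ n ∧ d ∣ n)).card : ℝ) ≤ (N / d : ℝ) := by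
      have e0 : ((Icc 1 N).filter (fun n => Q ∣ n ∧ d ∣ n)).card ≤ ((Icc 1 N).filter (fun n => d ∣ n)).card := by
        refine Finset.card_le_card (fun n hn => ?_)
        obtain ⟨k1, k2⟩ := mem_filter.1 hn
        exact mem_filter.2 ⟨k1, k2.2⟩
      have e1 : Icc 1 N = Ioc 0 N := by
        ext x
        rw [mem_Icc, mem_Ioc]
        omega
      have e2 : (((Icc 1 N).filter (fun n => d ∣ n)).card : ℝ) ≤ (N / d : ℝ) := by
        rw [e1, Nat.Ioc_filter_dvd_card_eq_div]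
        exact Nat.cast_div_le
      exact le_trans (by exact_mod_cast e0) e2
    calc ‖Z d‖ ≤ ∑ n ∈ (Icc 1 N).filter (fun n => Q ∣ n ∧ d ∣ n), (C * (h2 * Y)) := by
          refine norm_sum_le_of_le _ (fun n hn => ?_)
          rw [norm_mul, Complex.norm_real, Real.norm_eq_abs]
          have k2 := hw0 ((n : ℝ) / N)
          have k3 := hw1 ((n : ℝ) / N)
          rw [abs_of_nonneg k2]
          calc ww ((n : ℝ) / N) * ‖q n‖ ≤ 1 * (C * (h2 * Y)) :=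
                mul_le_mul k3 (hQb n (mem_filter.mp hn).1) (norm_nonneg _) (by norm_num)
            _ = C * (h2 * Y) := one_mul _
      _ = (((Icc 1 N).filter (fun n => Q ∣ n ∧ d ∣ n)).card : ℝ) * (C * (h2 * Y)) := by
          rw [Finset.sum_const, nsmul_eq_mul]
      _ ≤ _ := mul_le_mul_of_nonneg_right hcard (by positivity)
  have hexch : ∑ n ∈ (Icc 1 N).filter (fun n => Q ∣ n), (((n / n.totient) * ww ((n : ℝ) / N) : ℝ) : ℂ) * q n =
      ∑ d ∈ Icc 1 N, (dsumC d : ℂ) * Z d := by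
    have e1 : ∀ n ∈ (Icc 1 N).filter (fun n => Q ∣ n), (((n / n.totient) * ww ((n : ℝ) / N) : ℝ) : ℂ) * q n =
        ∑ d ∈ Icc 1 N, (if d ∣ n then (dsumC d : ℂ) * (((ww ((n : ℝ) / N) : ℝ) : ℂ) * q n) else 0) := by
      intro n hn
      obtain ⟨hn1, hn2⟩ := mem_Icc.mp (mem_filter.1 hn).1
      have e2 : n.divisors = (Icc 1 N).filter (fun d => d ∣ n) := by
        ext d
        rw [Nat.mem_divisors, mem_filter, mem_Icc]
        constructor
        · rintro ⟨h3, h4⟩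
          have h5 := Nat.le_of_dvd hn1 h3
          have h6 := Nat.pos_of_dvd_of_pos h3 hn1
          exact ⟨⟨h6, by omega⟩, h3⟩
        · rintro ⟨_, h3⟩
          exact ⟨h3, by omega⟩
      rw [dsum_eq n hn1, ← Finset.sum_filter, ← e2, ← Finset.sum_mul]
      push_cast
      ring
    rw [Finset.sum_congr rfl e1, Finset.sum_comm]
    refine Finset.sum_congr rfl (fun d _ => ?_)
    rw [← Finset.sum_filter, ← Finset.mul_sum, Finset.filter_filter]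
  rw [hexch]
  have hsplit : ∑ d ∈ Icc 1 N, dsumC d * ‖Z d‖ =
      ∑ d ∈ (Icc 1 N).filter (fun d => d ≤ K), dsumC d * ‖Z d‖ +
      ∑ d ∈ (Icc 1 N).filter (fun d => K < d), dsumC d * ‖Z d‖ := by
    rw [← Finset.sum_filter_add_sum_filter_not (Icc 1 N) (fun d => d ≤ K)]
    congr 1
    refine Finset.sum_congr (Finset.filter_congr (fun d _ => ?_)) (fun d _ => rfl)
    exact not_le
  have hpart1 : ∑ d ∈ (Icc 1 N).filter (fun d => d ≤ K), dsumC d * ‖Z d‖ ≤ ε / 2 * N * Y := by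
    calc ∑ d ∈ (Icc 1 N).filter (fun d => d ≤ K), dsumC d * ‖Z d‖
        ≤ ∑ d ∈ (Icc 1 N).filter (fun d => d ≤ K), dsumC d * (ε2 * N * Y) := by
          refine Finset.sum_le_sum (fun d hd => ?_)
          obtain ⟨hd1, hd2⟩ := mem_filter.mp hd
          exact mul_le_mul_of_nonneg_left (hY d (mem_Icc.mpr ⟨(mem_Icc.mp hd1).1, hd2⟩)) (dsumC_nonneg d)
      _ ≤ ∑ d ∈ Icc 1 K, dsumC d * (ε2 * N * Y) := by
          refine Finset.sum_le_sum_of_subset_of_nonneg ?_ (fun d _ _ => ?_)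
          · intro d hd
            obtain ⟨hd1, hd2⟩ := mem_filter.mp hd
            exact mem_Icc.mpr ⟨(mem_Icc.mp hd1).1, hd2⟩
          · have := dsumC_nonneg d
            positivity
      _ = SK * (ε2 * N * Y) := by rw [← Finset.sum_mul]
      _ ≤ (SK + 1) * (ε2 * N * Y) := mul_le_mul_of_nonneg_right (by linarith) (by positivity)
      _ = ε / 2 * N * Y := by
          rw [hε2]
          field_simp
  have hpart2 : ∑ d ∈ (Icc 1 N).filter (fun d => K < d), dsumC d * ‖Z d‖ ≤ ε / 2 * N * Y := by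
    calc ∑ d ∈ (Icc 1 N).filter (fun d => K < d), dsumC d * ‖Z d‖
        ≤ ∑ d ∈ (Icc 1 N).filter (fun d => K < d), (dsumC d / d) * (C * h2 * N * Y) := by
          refine Finset.sum_le_sum (fun d hd => ?_)
          have h3 := hZb d (mem_filter.mp hd).1
          calc dsumC d * ‖Z d‖ ≤ dsumC d * ((N / d : ℝ) * (C * (h2 * Y))) :=
                mul_le_mul_of_nonneg_left h3 (dsumC_nonneg d)
            _ = (dsumC d / d) * (C * h2 * N * Y) := by ring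
      _ = (∑ d ∈ (Icc 1 N).filter (fun d => K < d), dsumC d / d) * (C * h2 * N * Y) := by
          rw [← Finset.sum_mul]
      _ ≤ (ε / (2 * C * h2)) * (C * h2 * N * Y) :=
          mul_le_mul_of_nonneg_right (htail N) (by positivity)
      _ = ε / 2 * N * Y := by
          field_simp
  calc ‖∑ d ∈ Icc 1 N, (dsumC d : ℂ) * Z d‖ ≤ ∑ d ∈ Icc 1 N, dsumC d * ‖Z d‖ := by
        refine norm_sum_le_of_le _ (fun d _ => ?_)
        rw [norm_mul, Complex.norm_real, Real.norm_eq_abs, abs_of_nonneg (dsumC_nonneg d)]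
    _ ≤ ε * N * Y := by
        rw [hsplit]
        linarith

end Pool.Agent.Spl

end

/-! ### from `Lib_MP_92ef0c_la.DSum4` -/

section

/-!
# The factor `n / φ(n)`
-/

set_option autoImplicit false

namespace Pool.Agent.SplL

open Finset Pool.Agent.Spl Pool.Agent.SplB Pool.Agent.GaussMR Pool.Agent.OmAll Pool.Agent.OmEq MeasureTheory Filter

theorem dsum4_Qs (h : ℝ → ℝ) (h1 h2 : ℝ) (hh : HF h h1 h2) :
    ∃ C : ℝ, 0 < C ∧ ∀ β : ℕ × ℕ → ℂ, (∀ z, ‖β z‖ ≤ 1) → ∀ n : ℕ, 0 < n → ∀ Y : ℝ, (n : ℝ) ≤ h2 * Y →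
      ‖Qs4 β n (h2 * Y) (Wh (fun y => h y ^ 2)) Y‖ ≤ C * (h2 * Y) := by
  classical
  obtain ⟨C, hC, hcnt⟩ := cnt3 1
  refine ⟨C, hC, fun β hβ n hn Y hY => ?_⟩
  refine le_trans ?_ (hcnt n hn (h2 * Y) hY)
  unfold Qs4
  have hterm : ∀ e : Q4, ‖R2 β (cjr β) e * Wh (fun y => h y ^ 2) (yS e / Y) (tS e) (uS e)‖ ≤
      if |tS e| ≤ 1 ∧ |uS e| ≤ 1 then 1 else 0 := by
    intro e
    unfold Wh
    rw [norm_mul, Complex.norm_real, Real.norm_eq_abs]
    have hc : ∀ z, ‖cjr β z‖ ≤ 1 := fun z => by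
      rw [norm_cjr]
      exact hβ z
    have a5 : ‖R2 β (cjr β) e‖ ≤ 1 := norm_R2_le hβ hc e
    have a3 := hh.nn (yS e / Y)
    have a4 := hh.le (yS e / Y)
    obtain ⟨p1, p2, p3⟩ := dsum3_ps0 (tS e)
    obtain ⟨q1, q2, q3⟩ := dsum3_ps0 (uS e)
    by_cases ht : |tS e| ≤ 1 ∧ |uS e| ≤ 1
    · rw [if_pos ht]
      have a8 : h (yS e / Y) ^ 2 ≤ 1 := pow_le_one₀ a3 a4
      have a9 : h (yS e / Y) ^ 2 * ps0 (tS e) * ps0 (uS e) ≤ 1 :=
        mul_le_one₀ (mul_le_one₀ a8 p1 p2) q1 q2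
      rw [abs_of_nonneg (by positivity)]
      exact mul_le_one₀ a5 (by positivity) a9
    · rw [if_neg ht]
      rcases not_and_or.1 ht with ht' | ht'
      · rw [p3 (not_le.1 ht'), mul_zero, zero_mul, abs_zero, mul_zero]
      · rw [q3 (not_le.1 ht'), mul_zero, abs_zero, mul_zero]
  calc ‖∑ e ∈ SN n (h2 * Y), R2 β (cjr β) e * Wh (fun y => h y ^ 2) (yS e / Y) (tS e) (uS e)‖
      ≤ ∑ e ∈ SN n (h2 * Y), (if |tS e| ≤ 1 ∧ |uS e| ≤ 1 then (1 : ℝ) else 0) :=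
        norm_sum_le_of_le _ (fun e _ => hterm e)
    _ = (((SN n (h2 * Y)).filter (fun e => |tS e| ≤ 1 ∧ |uS e| ≤ 1)).card : ℝ) := by
        rw [← Finset.sum_filter, Finset.sum_const, nsmul_eq_mul, mul_one]

/-- PROOF. Copy of `dsum3` (`Lib_MP_92ef0c_sp/DSum3.lean`), with `Qs4` and the family at `a Y`; `N0` does not depend on `a`, only the threshold for `Y` does. -/
theorem dsum4 (β : ℝ → ℕ × ℕ → ℂ) (hβ : ∀ X z, ‖β X z‖ ≤ 1) (hQ : QdSmall4 β) (h0 Q : ℕ) (hh0 : 0 < h0) (hQ0 : 0 < Q) :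
    QSmall4 h0 Q β := by
  classical
  intro h h1 h2 hh ε hε
  obtain ⟨C, hC, hCQ⟩ := dsum4_Qs h h1 h2 hh
  have h2one : (1 : ℝ) ≤ h2 := hh.one
  have h2pos : 0 < h2 := by linarith
  have hh0R : (0 : ℝ) < h0 := by exact_mod_cast hh0
  obtain ⟨-, hw0, hw1, -⟩ := ww_props
  -- the tail
  have hε' : 0 < ε / (2 * C * h2) := by positivity
  obtain ⟨s, hs⟩ := summable_iff_vanishing_norm.mp dsumC_summable _ hε'
  set K : ℕ := s.sup id with hK
  have htail : ∀ N : ℕ, ∑ d ∈ (Icc 1 N).filter (fun d => K < d), dsumC d / d ≤ ε / (2 * C * h2) := by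
    intro N
    have hd : Disjoint ((Icc 1 N).filter (fun d => K < d)) s := by
      rw [Finset.disjoint_left]
      intro d hd hds
      have h3 := (mem_filter.mp hd).2
      have h4 : d ≤ K := Finset.le_sup (f := id) hds
      omega
    exact (le_abs_self _).trans (hs _ hd).le
  set SK : ℝ := ∑ d ∈ Icc 1 K, dsumC d with hSK
  have hSK0 : 0 ≤ SK := Finset.sum_nonneg (fun d _ => dsumC_nonneg d)
  set ε2 : ℝ := ε / (2 * (SK + 1)) with hε2
  have hε2pos : 0 < ε2 := by positivity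
  have hex : ∀ d : ℕ, ∃ N0 : ℕ, 1 ≤ d → ∀ N : ℕ, N0 ≤ N →
    ∀ a : ℝ, 0 < a → ∀ᶠ Y : ℝ in atTop, ‖∑ n ∈ (Icc 1 N).filter (fun n => Q ∣ n ∧ d ∣ n), ((ww ((n : ℝ) / N) : ℝ) : ℂ) *
      Qs4 (β (a * Y)) (n * h0) (h2 * Y) (Wh (fun y => h y ^ 2)) Y‖ ≤ ε2 * N * Y := by
    intro d
    by_cases hd : 1 ≤ d
    · have hD : 1 ≤ Nat.lcm Q d * h0 := Nat.mul_pos (Nat.lcm_pos hQ0 hd) hh0
      obtain ⟨N0, hN0⟩ := hQ (Nat.lcm Q d * h0) hD h h1 h2 hh (ε2 / h0) (by positivity)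
      refine ⟨N0, fun _ N hN a ha => ?_⟩
      have hN' : N0 ≤ N * h0 := le_trans hN (Nat.le_mul_of_pos_right N hh0)
      filter_upwards [hN0 (N * h0) hN' a ha] with Y hY
      have e1 : (Icc 1 N).filter (fun n => Q ∣ n ∧ d ∣ n) = (Icc 1 N).filter (fun n => Nat.lcm Q d ∣ n) := by
        refine Finset.filter_congr (fun n _ => ?_)
        exact Nat.lcm_dvd_iff.symm
      have e2 : ∑ n ∈ (Icc 1 N).filter (fun n => Q ∣ n ∧ d ∣ n), ((ww ((n : ℝ) / N) : ℝ) : ℂ) *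
          Qs4 (β (a * Y)) (n * h0) (h2 * Y) (Wh (fun y => h y ^ 2)) Y =
          ∑ m ∈ (Icc 1 (N * h0)).filter (fun m => Nat.lcm Q d * h0 ∣ m), ((ww ((m : ℝ) / (N * h0 : ℕ)) : ℝ) : ℂ) *
          Qs4 (β (a * Y)) m (h2 * Y) (Wh (fun y => h y ^ 2)) Y := by
        rw [e1, ← dsum3_scale (fun m => ((ww ((m : ℝ) / (N * h0 : ℕ)) : ℝ) : ℂ) *
          Qs4 (β (a * Y)) m (h2 * Y) (Wh (fun y => h y ^ 2)) Y) N (Nat.lcm Q d) h0 hh0]
        refine Finset.sum_congr rfl (fun n _ => ?_)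
        have e3 : ((n * h0 : ℕ) : ℝ) / ((N * h0 : ℕ) : ℝ) = (n : ℝ) / N := by
          push_cast
          rw [mul_div_mul_right _ _ hh0R.ne']
        simp only [e3]
      rw [e2]
      refine hY.trans (le_of_eq ?_)
      push_cast
      field_simp
    · exact ⟨0, fun h => absurd h hd⟩
  choose N0 hN0 using hex
  refine ⟨(Icc 1 K).sup N0, fun N hN a ha => ?_⟩
  have hsmall : ∀ᶠ Y : ℝ in atTop, ∀ d ∈ Icc 1 K, ‖∑ n ∈ (Icc 1 N).filter (fun n => Q ∣ n ∧ d ∣ n),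
      ((ww ((n : ℝ) / N) : ℝ) : ℂ) * Qs4 (β (a * Y)) (n * h0) (h2 * Y) (Wh (fun y => h y ^ 2)) Y‖ ≤ ε2 * N * Y := by
    rw [Filter.eventually_all_finset]
    intro d hd
    exact hN0 d (mem_Icc.mp hd).1 N (le_trans (Finset.le_sup hd) hN) a ha
  filter_upwards [hsmall, eventually_ge_atTop ((N : ℝ) * h0), eventually_gt_atTop (0 : ℝ)] with Y hY hYN hY0
  set q : ℕ → ℂ := fun n => Qs4 (β (a * Y)) (n * h0) (h2 * Y) (Wh (fun y => h y ^ 2)) Y with hqdef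
  set Z : ℕ → ℂ := fun d => ∑ n ∈ (Icc 1 N).filter (fun n => Q ∣ n ∧ d ∣ n), ((ww ((n : ℝ) / N) : ℝ) : ℂ) * q n
    with hZ
  have hQb : ∀ n ∈ Icc 1 N, ‖q n‖ ≤ C * (h2 * Y) := by
    intro n hn
    obtain ⟨hn1, hn2⟩ := mem_Icc.mp hn
    refine hCQ (β (a * Y)) (hβ (a * Y)) (n * h0) (Nat.mul_pos hn1 hh0) Y ?_
    have e1 : (n : ℝ) ≤ N := by exact_mod_cast hn2
    push_cast
    have e2 : (n : ℝ) * h0 ≤ N * h0 := mul_le_mul_of_nonneg_right e1 hh0R.le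
    nlinarith
  have hZb : ∀ d ∈ Icc 1 N, ‖Z d‖ ≤ (N / d : ℝ) * (C * (h2 * Y)) := by
    intro d hd
    have hd1 := (mem_Icc.mp hd).1
    have hcard : (((Icc 1 N).filter (fun n => Q ∣ n ∧ d ∣ n)).card : ℝ) ≤ (N / d : ℝ) := by
      have e0 : ((Icc 1 N).filter (fun n => Q ∣ n ∧ d ∣ n)).card ≤ ((Icc 1 N).filter (fun n => d ∣ n)).card := by
        refine Finset.card_le_card (fun n hn => ?_)
        obtain ⟨k1, k2⟩ := mem_filter.1 hn
        exact mem_filter.2 ⟨k1, k2.2⟩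
      have e1 : Icc 1 N = Ioc 0 N := by
        ext x
        rw [mem_Icc, mem_Ioc]
        omega
      have e2 : (((Icc 1 N).filter (fun n => d ∣ n)).card : ℝ) ≤ (N / d : ℝ) := by
        rw [e1, Nat.Ioc_filter_dvd_card_eq_div]
        exact Nat.cast_div_le
      exact le_trans (by exact_mod_cast e0) e2
    calc ‖Z d‖ ≤ ∑ n ∈ (Icc 1 N).filter (fun n => Q ∣ n ∧ d ∣ n), (C * (h2 * Y)) := by
          refine norm_sum_le_of_le _ (fun n hn => ?_)
          rw [norm_mul, Complex.norm_real, Real.norm_eq_abs]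
          have k2 := hw0 ((n : ℝ) / N)
          have k3 := hw1 ((n : ℝ) / N)
          rw [abs_of_nonneg k2]
          calc ww ((n : ℝ) / N) * ‖q n‖ ≤ 1 * (C * (h2 * Y)) :=
                mul_le_mul k3 (hQb n (mem_filter.mp hn).1) (norm_nonneg _) (by norm_num)
            _ = C * (h2 * Y) := one_mul _
      _ = (((Icc 1 N).filter (fun n => Q ∣ n ∧ d ∣ n)).card : ℝ) * (C * (h2 * Y)) := by
          rw [Finset.sum_const, nsmul_eq_mul]
      _ ≤ _ := mul_le_mul_of_nonneg_right hcard (by positivity)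
  have hexch : ∑ n ∈ (Icc 1 N).filter (fun n => Q ∣ n), (((n / n.totient) * ww ((n : ℝ) / N) : ℝ) : ℂ) * q n =
      ∑ d ∈ Icc 1 N, (dsumC d : ℂ) * Z d := by
    have e1 : ∀ n ∈ (Icc 1 N).filter (fun n => Q ∣ n), (((n / n.totient) * ww ((n : ℝ) / N) : ℝ) : ℂ) * q n =
        ∑ d ∈ Icc 1 N, (if d ∣ n then (dsumC d : ℂ) * (((ww ((n : ℝ) / N) : ℝ) : ℂ) * q n) else 0) := by
      intro n hn
      obtain ⟨hn1, hn2⟩ := mem_Icc.mp (mem_filter.1 hn).1
      have e2 : n.divisors = (Icc 1 N).filter (fun d => d ∣ n) := by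
        ext d
        rw [Nat.mem_divisors, mem_filter, mem_Icc]
        constructor
        · rintro ⟨h3, h4⟩
          have h5 := Nat.le_of_dvd hn1 h3
          have h6 := Nat.pos_of_dvd_of_pos h3 hn1
          exact ⟨⟨h6, by omega⟩, h3⟩
        · rintro ⟨_, h3⟩
          exact ⟨h3, by omega⟩
      rw [dsum_eq n hn1, ← Finset.sum_filter, ← e2, ← Finset.sum_mul]
      push_cast
      ring
    rw [Finset.sum_congr rfl e1, Finset.sum_comm]
    refine Finset.sum_congr rfl (fun d _ => ?_)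
    rw [← Finset.sum_filter, ← Finset.mul_sum, Finset.filter_filter]
  rw [hexch]
  have hsplit : ∑ d ∈ Icc 1 N, dsumC d * ‖Z d‖ =
      ∑ d ∈ (Icc 1 N).filter (fun d => d ≤ K), dsumC d * ‖Z d‖ +
      ∑ d ∈ (Icc 1 N).filter (fun d => K < d), dsumC d * ‖Z d‖ := by
    rw [← Finset.sum_filter_add_sum_filter_not (Icc 1 N) (fun d => d ≤ K)]
    congr 1
    refine Finset.sum_congr (Finset.filter_congr (fun d _ => ?_)) (fun d _ => rfl)
    exact not_le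
  have hpart1 : ∑ d ∈ (Icc 1 N).filter (fun d => d ≤ K), dsumC d * ‖Z d‖ ≤ ε / 2 * N * Y := by
    calc ∑ d ∈ (Icc 1 N).filter (fun d => d ≤ K), dsumC d * ‖Z d‖
        ≤ ∑ d ∈ (Icc 1 N).filter (fun d => d ≤ K), dsumC d * (ε2 * N * Y) := by
          refine Finset.sum_le_sum (fun d hd => ?_)
          obtain ⟨hd1, hd2⟩ := mem_filter.mp hd
          exact mul_le_mul_of_nonneg_left (hY d (mem_Icc.mpr ⟨(mem_Icc.mp hd1).1, hd2⟩)) (dsumC_nonneg d)
      _ ≤ ∑ d ∈ Icc 1 K, dsumC d * (ε2 * N * Y) := by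
          refine Finset.sum_le_sum_of_subset_of_nonneg ?_ (fun d _ _ => ?_)
          · intro d hd
            obtain ⟨hd1, hd2⟩ := mem_filter.mp hd
            exact mem_Icc.mpr ⟨(mem_Icc.mp hd1).1, hd2⟩
          · have := dsumC_nonneg d
            positivity
      _ = SK * (ε2 * N * Y) := by rw [← Finset.sum_mul]
      _ ≤ (SK + 1) * (ε2 * N * Y) := mul_le_mul_of_nonneg_right (by linarith) (by positivity)
      _ = ε / 2 * N * Y := by
          rw [hε2]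
          field_simp
  have hpart2 : ∑ d ∈ (Icc 1 N).filter (fun d => K < d), dsumC d * ‖Z d‖ ≤ ε / 2 * N * Y := by
    calc ∑ d ∈ (Icc 1 N).filter (fun d => K < d), dsumC d * ‖Z d‖
        ≤ ∑ d ∈ (Icc 1 N).filter (fun d => K < d), (dsumC d / d) * (C * h2 * N * Y) := by
          refine Finset.sum_le_sum (fun d hd => ?_)
          have h3 := hZb d (mem_filter.mp hd).1
          calc dsumC d * ‖Z d‖ ≤ dsumC d * ((N / d : ℝ) * (C * (h2 * Y))) :=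
                mul_le_mul_of_nonneg_left h3 (dsumC_nonneg d)
            _ = (dsumC d / d) * (C * h2 * N * Y) := by ring
      _ = (∑ d ∈ (Icc 1 N).filter (fun d => K < d), dsumC d / d) * (C * h2 * N * Y) := by
          rw [← Finset.sum_mul]
      _ ≤ (ε / (2 * C * h2)) * (C * h2 * N * Y) :=
          mul_le_mul_of_nonneg_right (htail N) (by positivity)
      _ = ε / 2 * N * Y := by
          field_simp
  calc ‖∑ d ∈ Icc 1 N, (dsumC d : ℂ) * Z d‖ ≤ ∑ d ∈ Icc 1 N, dsumC d * ‖Z d‖ := by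
        refine norm_sum_le_of_le _ (fun d _ => ?_)
        rw [norm_mul, Complex.norm_real, Real.norm_eq_abs, abs_of_nonneg (dsumC_nonneg d)]
    _ ≤ ε * N * Y := by
        rw [hsplit]
        linarith

end Pool.Agent.SplL

end
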