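import Pool.Agent.Lib_MP_92ef0c_m.M10
import Pool.Agent.Lib_MP_92ef0c_m.M36
import Pool.Agent.Lib_MP_92ef0c_m.M43

/-!
# MP_92ef0c_nt, split pairs: merged library part M44

Concatenation of smaller files (each in its own section), only to save build time.
-/

/-! ### from `Lib_MP_92ef0c_spi.HM` -/

section

/-!
# Piece I-HM: large values without logarithm
-/

set_option autoImplicit false

namespace Pool.Agent.SplI

open Finset

/-- Abel summation with the weights `M + 1 - n` -/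
private theorem hm_abel (a : ℕ → ℂ) (M : ℕ) :
    ∑ n ∈ Icc 1 M, ((M + 1 - n : ℝ) : ℂ) * a n = ∑ m ∈ Icc 1 M, ∑ n ∈ Icc 1 m, a n := by
  induction M with
  | zero => simp
  | succ M ih =>
    rw [Finset.sum_Icc_succ_top (by omega), Finset.sum_Icc_succ_top (by omega), ← ih,
      Finset.sum_Icc_succ_top (f := a) (by omega)]
    rw [show ∑ n ∈ Icc 1 M, ((((M + 1 : ℕ) : ℝ) + 1 - n : ℝ) : ℂ) * a n =
      ∑ n ∈ Icc 1 M, (((M + 1 - n : ℝ) : ℂ) * a n + a n) from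
        Finset.sum_congr rfl fun n _ => by push_cast; ring]
    rw [Finset.sum_add_distrib]
    push_cast
    ring

/-- `m ^ (1 + iu)` and the increment of the primitive -/
private theorem hm_step (u : ℝ) (hu : 1 ≤ |u|) (m : ℕ) :
    ‖((m + 1 : ℕ) : ℂ) ^ (1 + (u : ℂ) * Complex.I) - (((m + 1 : ℕ) : ℂ) ^ (2 + (u : ℂ) * Complex.I) -
      (m : ℂ) ^ (2 + (u : ℂ) * Complex.I)) / (2 + (u : ℂ) * Complex.I)‖ ≤
        2 * ‖1 + (u : ℂ) * Complex.I‖ := by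
  have hn1 : 1 ≤ ‖1 + (u : ℂ) * Complex.I‖ := by
    have h := Complex.abs_im_le_norm (1 + (u : ℂ) * Complex.I)
    simp at h
    linarith
  have hn2 : 1 ≤ ‖2 + (u : ℂ) * Complex.I‖ := by
    have h := Complex.abs_im_le_norm (2 + (u : ℂ) * Complex.I)
    simp at h
    linarith
  have h2ne : (2 + (u : ℂ) * Complex.I) ≠ 0 := by
    intro h
    rw [h, norm_zero] at hn2
    linarith
  rcases Nat.eq_zero_or_pos m with rfl | hm
  · simp only [Nat.cast_zero, zero_add, Nat.cast_one, Complex.one_cpow, Complex.zero_cpow h2ne, sub_zero]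
    calc ‖(1 : ℂ) - 1 / (2 + (u : ℂ) * Complex.I)‖ ≤ ‖(1 : ℂ)‖ + ‖1 / (2 + (u : ℂ) * Complex.I)‖ := norm_sub_le _ _
      _ ≤ 1 + 1 := by
        rw [norm_one, norm_div, norm_one]
        gcongr
        rw [div_le_one (by linarith)]
        exact hn2
      _ ≤ 2 * ‖1 + (u : ℂ) * Complex.I‖ := by linarith
  · have hm0 : (0 : ℝ) < m := by exact_mod_cast hm
    set s : ℂ := 1 + (u : ℂ) * Complex.I with hs
    have hs1 : s ≠ -1 := by
      intro h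
      apply h2ne
      have : (2 + (u : ℂ) * Complex.I) = s + 1 := by rw [hs]; ring
      rw [this, h]
      ring
    have hs2 : (2 + (u : ℂ) * Complex.I) = s + 1 := by rw [hs]; ring
    have hs0 : (u : ℂ) * Complex.I ≠ -1 := by
      intro h
      have h1 : s = 0 := by rw [hs, h]; ring
      rw [h1, norm_zero] at hn1
      linarith
    have hsne : s ≠ 0 := by
      intro h
      rw [h, norm_zero] at hn1
      linarith
    -- the derivative of x ^ s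
    have hd1 : ∀ x : ℝ, 0 < x → HasDerivAt (fun y : ℝ => (y : ℂ) ^ s) (s * (x : ℂ) ^ ((u : ℂ) * Complex.I)) x := by
      intro x hx
      have h := hasDerivAt_ofReal_cpow_const (x := x) hx.ne' hsne
      have h3 : s - 1 = (u : ℂ) * Complex.I := by rw [hs]; ring
      rw [h3] at h
      exact h
    have hlip : ∀ x : ℝ, (m : ℝ) ≤ x → x ≤ m + 1 → ‖(x : ℂ) ^ s - (((m : ℝ) + 1 : ℝ) : ℂ) ^ s‖ ≤ ‖s‖ := by
      intro x hx1 hx2
      have h := (convex_Icc (m : ℝ) (m + 1)).norm_image_sub_le_of_norm_hasDerivWithin_le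
        (f := fun y : ℝ => (y : ℂ) ^ s) (f' := fun x => s * (x : ℂ) ^ ((u : ℂ) * Complex.I)) (C := ‖s‖)
        (x := (m : ℝ) + 1) (y := x)
        (fun y hy => (hd1 y (by linarith [hy.1])).hasDerivWithinAt)
        (fun y hy => by
          rw [norm_mul, Complex.norm_cpow_eq_rpow_re_of_pos (by linarith [hy.1])]
          simp)
        ⟨by linarith, le_rfl⟩ ⟨hx1, hx2⟩
      refine h.trans ?_
      have h5 : ‖x - ((m : ℝ) + 1)‖ ≤ 1 := by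
        rw [Real.norm_eq_abs, abs_le]
        constructor <;> linarith
      calc ‖s‖ * ‖x - ((m : ℝ) + 1)‖ ≤ ‖s‖ * 1 := by gcongr
        _ = ‖s‖ := mul_one _
    have hs1' : s + 1 ≠ 0 := by rw [← hs2]; exact h2ne
    have hd2 : ∀ x : ℝ, 0 < x → HasDerivAt (fun y : ℝ => (y : ℂ) ^ (s + 1) / (s + 1) - (y : ℂ) * (((m : ℝ) + 1 : ℝ) : ℂ) ^ s)
        ((x : ℂ) ^ s - (((m : ℝ) + 1 : ℝ) : ℂ) ^ s) x := by
      intro x hx
      have h := (hasDerivAt_ofReal_cpow_const (x := x) hx.ne' hs1').div_const (s + 1)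
      have h4 : (s + 1) * (x : ℂ) ^ (s + 1 - 1) / (s + 1) = (x : ℂ) ^ s := by
        rw [add_sub_cancel_right]
        field_simp
      rw [h4] at h
      have h5 : HasDerivAt (fun y : ℝ => (y : ℂ) * (((m : ℝ) + 1 : ℝ) : ℂ) ^ s) (1 * (((m : ℝ) + 1 : ℝ) : ℂ) ^ s) x :=
        (Complex.ofRealCLM.hasDerivAt (x := x)).mul_const _
      rw [one_mul] at h5
      exact h.sub h5
    have hmain := (convex_Icc (m : ℝ) (m + 1)).norm_image_sub_le_of_norm_hasDerivWithin_le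
        (f := fun y : ℝ => (y : ℂ) ^ (s + 1) / (s + 1) - (y : ℂ) * (((m : ℝ) + 1 : ℝ) : ℂ) ^ s)
        (f' := fun x => (x : ℂ) ^ s - (((m : ℝ) + 1 : ℝ) : ℂ) ^ s) (C := ‖s‖)
        (x := (m : ℝ)) (y := (m : ℝ) + 1)
        (fun y hy => (hd2 y (by linarith [hy.1])).hasDerivWithinAt)
        (fun y hy => hlip y hy.1 hy.2)
        ⟨le_rfl, by linarith⟩ ⟨by linarith, le_rfl⟩
    rw [hs2]
    have h6 : ‖(m : ℝ) + 1 - (m : ℝ)‖ = 1 := by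
      rw [add_sub_cancel_left, norm_one]
    rw [h6, mul_one] at hmain
    rw [← norm_neg] at hmain
    have h7 : -((fun y : ℝ => (y : ℂ) ^ (s + 1) / (s + 1) - (y : ℂ) * (((m : ℝ) + 1 : ℝ) : ℂ) ^ s) ((m : ℝ) + 1) -
        (fun y : ℝ => (y : ℂ) ^ (s + 1) / (s + 1) - (y : ℂ) * (((m : ℝ) + 1 : ℝ) : ℂ) ^ s) (m : ℝ)) =
        ((m + 1 : ℕ) : ℂ) ^ s - (((m + 1 : ℕ) : ℂ) ^ (s + 1) - (m : ℂ) ^ (s + 1)) / (s + 1) := by
      simp only
      push_cast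
      ring
    rw [h7] at hmain
    linarith [norm_nonneg s]

private theorem hm_main (u : ℝ) (hu : 1 ≤ |u|) (M : ℕ) :
    ‖∑ m ∈ Icc 1 M, (m : ℂ) ^ (1 + (u : ℂ) * Complex.I) -
      (M : ℂ) ^ (2 + (u : ℂ) * Complex.I) / (2 + (u : ℂ) * Complex.I)‖ ≤
        2 * ‖1 + (u : ℂ) * Complex.I‖ * M := by
  have hn2 : 1 ≤ ‖2 + (u : ℂ) * Complex.I‖ := by
    have h := Complex.abs_im_le_norm (2 + (u : ℂ) * Complex.I)
    simp at h
    linarith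
  have h2ne : (2 + (u : ℂ) * Complex.I) ≠ 0 := by
    intro h
    rw [h, norm_zero] at hn2
    linarith
  induction M with
  | zero => simp [Complex.zero_cpow h2ne]
  | succ M ih =>
    rw [Finset.sum_Icc_succ_top (by omega)]
    have h1 : ∑ m ∈ Icc 1 M, (m : ℂ) ^ (1 + (u : ℂ) * Complex.I) + ((M + 1 : ℕ) : ℂ) ^ (1 + (u : ℂ) * Complex.I) -
        ((M + 1 : ℕ) : ℂ) ^ (2 + (u : ℂ) * Complex.I) / (2 + (u : ℂ) * Complex.I) =
        (∑ m ∈ Icc 1 M, (m : ℂ) ^ (1 + (u : ℂ) * Complex.I) -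
          (M : ℂ) ^ (2 + (u : ℂ) * Complex.I) / (2 + (u : ℂ) * Complex.I)) +
        (((M + 1 : ℕ) : ℂ) ^ (1 + (u : ℂ) * Complex.I) - (((M + 1 : ℕ) : ℂ) ^ (2 + (u : ℂ) * Complex.I) -
          (M : ℂ) ^ (2 + (u : ℂ) * Complex.I)) / (2 + (u : ℂ) * Complex.I)) := by
      ring
    rw [h1]
    refine (norm_add_le _ _).trans ?_
    have h2 := hm_step u hu M
    push_cast at ih h2 ⊢
    nlinarith

/-- The smooth zeta sum: `∑_(n ≤ 2N) (1 - n/(2N)) n^(iu) = (1/(2N)) ∫_0^(2N) (∑_(n ≤ x) n^(iu)) dx` and `zs_full`: main term `(2N)^(1+iu) / ((1+iu)(2+iu))`. -/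
theorem smooth_zs (A : ℝ) (hA : 1 ≤ A) : ∃ η C : ℝ, 0 < η ∧ 0 < C ∧ ∀ u N : ℝ, 1 ≤ N → 1 ≤ |u| → |u| ≤ N ^ A →
    ‖∑ n ∈ Icc 1 ⌊2 * N⌋₊, (((1 - n / (2 * N) : ℝ)) : ℂ) * et (-u) n‖ ≤ C * (N / u ^ 2 + N ^ (1 - η)) := by
  obtain ⟨η, C, hη, hη2, hC, hz⟩ := zs_full (2 * A) (by linarith)
  refine ⟨η, 2 * C + 10, hη, by linarith, fun u N hN hu huN => ?_⟩
  have hN0 : 0 < N := by linarith
  set M := ⌊2 * N⌋₊ with hM
  have hM1 : (M : ℝ) ≤ 2 * N := Nat.floor_le (by linarith)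
  have hM2 : 2 * N < M + 1 := Nat.lt_floor_add_one _
  have hM0 : (0 : ℝ) ≤ M := Nat.cast_nonneg _
  have hMpos : 0 < M := by
    rw [hM]
    exact Nat.floor_pos.2 (by linarith)
  set s : ℂ := 1 + (u : ℂ) * Complex.I with hs
  have hsu : |u| ≤ ‖s‖ := by
    have h := Complex.abs_im_le_norm s
    rw [hs] at h
    simpa using h
  have hsu2 : |u| ≤ ‖2 + (u : ℂ) * Complex.I‖ := by
    have h := Complex.abs_im_le_norm (2 + (u : ℂ) * Complex.I)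
    simpa using h
  have hs1 : 1 ≤ ‖s‖ := hu.trans hsu
  have hsne : s ≠ 0 := by
    intro h
    rw [h, norm_zero] at hs1
    linarith
  have hnorm : ∀ m : ℕ, 1 ≤ m → ‖(m : ℂ) ^ s‖ = m := by
    intro m hm
    rw [Complex.norm_natCast_cpow_of_pos hm]
    have : s.re = 1 := by rw [hs]; simp
    rw [this, Real.rpow_one]
  have hNη : 1 ≤ N ^ (1 - η) := Real.one_le_rpow hN (by linarith)
  have hS : ∀ m : ℕ, ‖∑ n ∈ Icc 1 m, et (-u) n‖ ≤ m := by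
    intro m
    calc ‖∑ n ∈ Icc 1 m, et (-u) n‖ ≤ ∑ n ∈ Icc 1 m, ‖et (-u) n‖ := norm_sum_le _ _
      _ = m := by simp [norm_et]
  -- pointwise error
  have hE : ∀ m ∈ Icc 1 M, ‖∑ n ∈ Icc 1 m, et (-u) n - (m : ℂ) ^ s / s‖ ≤ (2 * C + 2) * N ^ (1 - η) := by
    intro m hm
    obtain ⟨hm1, hm2⟩ := Finset.mem_Icc.1 hm
    have hm1' : (1 : ℝ) ≤ m := by exact_mod_cast hm1
    have hm2' : (m : ℝ) ≤ M := by exact_mod_cast hm2
    by_cases hcase : |u| ≤ (m : ℝ) ^ (2 * A)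
    · have h := hz u m hm1' hu hcase
      rw [Nat.floor_natCast, Complex.ofReal_natCast] at h
      refine h.trans ?_
      have h1 : (m : ℝ) ^ (1 - η) ≤ 2 * N ^ (1 - η) := by
        calc (m : ℝ) ^ (1 - η) ≤ (2 * N) ^ (1 - η) :=
              Real.rpow_le_rpow (by linarith) (by linarith) (by linarith)
          _ = 2 ^ (1 - η) * N ^ (1 - η) := Real.mul_rpow (by norm_num) hN0.le
          _ ≤ 2 ^ (1 : ℝ) * N ^ (1 - η) := by
              gcongr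
              · norm_num
              · linarith
          _ = 2 * N ^ (1 - η) := by rw [Real.rpow_one]
      nlinarith
    · rw [not_le] at hcase
      have h1 : (m : ℝ) ^ 2 < N := by
        by_contra hcon
        rw [not_lt] at hcon
        have h2 : N ^ A ≤ ((m : ℝ) ^ 2) ^ A := Real.rpow_le_rpow hN0.le hcon (by linarith)
        have h3 : ((m : ℝ) ^ 2) ^ A = (m : ℝ) ^ (2 * A) := by
          rw [Real.rpow_mul (by linarith), Real.rpow_two]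
        rw [h3] at h2
        linarith
      have h2 : (m : ℝ) ≤ N ^ (1 - η) := by
        have h3 : (m : ℝ) ≤ N ^ (1 / 2 : ℝ) := by
          rw [← Real.sqrt_eq_rpow]
          exact Real.le_sqrt_of_sq_le h1.le
        exact h3.trans (Real.rpow_le_rpow_of_exponent_le hN (by linarith))
      have h4 : ‖(m : ℂ) ^ s / s‖ ≤ m := by
        rw [norm_div, hnorm m hm1]
        exact div_le_self (by linarith) hs1
      refine (norm_sub_le _ _).trans ?_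
      have h5 := hS m
      nlinarith
  -- the identity
  have hid : ∑ n ∈ Icc 1 M, (((1 - n / (2 * N) : ℝ)) : ℂ) * et (-u) n =
      (((2 * N : ℝ)) : ℂ)⁻¹ * ((∑ m ∈ Icc 1 M, (m : ℂ) ^ s) / s +
        ∑ m ∈ Icc 1 M, (∑ n ∈ Icc 1 m, et (-u) n - (m : ℂ) ^ s / s) +
        ((2 * N - M - 1 : ℝ) : ℂ) * ∑ n ∈ Icc 1 M, et (-u) n) := by
    rw [Finset.sum_sub_distrib, ← Finset.sum_div, ← hm_abel]
    have hNc : ((2 * N : ℝ) : ℂ) ≠ 0 := by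
      rw [Complex.ofReal_ne_zero]
      positivity
    rw [show (∑ m ∈ Icc 1 M, (m : ℂ) ^ s) / s + (∑ n ∈ Icc 1 M, ((M + 1 - n : ℝ) : ℂ) * et (-u) n -
        (∑ m ∈ Icc 1 M, (m : ℂ) ^ s) / s) + ((2 * N - M - 1 : ℝ) : ℂ) * ∑ n ∈ Icc 1 M, et (-u) n =
        ∑ n ∈ Icc 1 M, ((M + 1 - n : ℝ) : ℂ) * et (-u) n + ((2 * N - M - 1 : ℝ) : ℂ) * ∑ n ∈ Icc 1 M, et (-u) n by ring,
      Finset.mul_sum (Icc 1 M) (fun n => et (-u) n), ← Finset.sum_add_distrib, Finset.mul_sum]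
    refine Finset.sum_congr rfl fun n _ => ?_
    have h1 : (((1 - n / (2 * N) : ℝ)) : ℂ) = (((2 * N : ℝ)) : ℂ)⁻¹ * (((M + 1 - n : ℝ) : ℂ) + ((2 * N - M - 1 : ℝ) : ℂ)) := by
      rw [← Complex.ofReal_add, ← Complex.ofReal_inv, ← Complex.ofReal_mul]
      congr 1
      field_simp
      ring
    rw [h1]
    ring
  rw [hid, norm_mul, norm_inv, Complex.norm_real, Real.norm_of_nonneg (by linarith : 0 ≤ 2 * N)]
  -- main term
  have hmain : ‖(∑ m ∈ Icc 1 M, (m : ℂ) ^ s) / s‖ ≤ 4 * N ^ 2 / u ^ 2 + 4 * N := by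
    rw [norm_div]
    have h1 := hm_main u hu M
    rw [← hs] at h1
    have h2 : ‖(M : ℂ) ^ (2 + (u : ℂ) * Complex.I) / (2 + (u : ℂ) * Complex.I)‖ ≤ 4 * N ^ 2 / |u| := by
      rw [norm_div, Complex.norm_natCast_cpow_of_pos hMpos]
      have h3 : (2 + (u : ℂ) * Complex.I).re = 2 := by simp
      rw [h3, Real.rpow_two]
      have h4 : (M : ℝ) ^ 2 ≤ 4 * N ^ 2 := by nlinarith
      gcongr
    have h5 : ‖∑ m ∈ Icc 1 M, (m : ℂ) ^ s‖ ≤ 4 * N ^ 2 / |u| + 2 * ‖s‖ * M := by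
      have h6 : ∑ m ∈ Icc 1 M, (m : ℂ) ^ s = (M : ℂ) ^ (2 + (u : ℂ) * Complex.I) / (2 + (u : ℂ) * Complex.I) +
          (∑ m ∈ Icc 1 M, (m : ℂ) ^ s - (M : ℂ) ^ (2 + (u : ℂ) * Complex.I) / (2 + (u : ℂ) * Complex.I)) := by ring
      rw [h6]
      exact (norm_add_le _ _).trans (add_le_add h2 h1)
    have hu0 : 0 < |u| := by linarith
    calc ‖∑ m ∈ Icc 1 M, (m : ℂ) ^ s‖ / ‖s‖ ≤ (4 * N ^ 2 / |u| + 2 * ‖s‖ * M) / ‖s‖ := by gcongr
      _ = 4 * N ^ 2 / |u| / ‖s‖ + 2 * M := by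
          rw [add_div]
          congr 1
          field_simp
      _ ≤ 4 * N ^ 2 / |u| / |u| + 4 * N := by
          refine add_le_add ?_ (by linarith)
          gcongr
      _ = 4 * N ^ 2 / u ^ 2 + 4 * N := by
          rw [div_div, ← sq, sq_abs]
  have herr : ‖∑ m ∈ Icc 1 M, (∑ n ∈ Icc 1 m, et (-u) n - (m : ℂ) ^ s / s)‖ ≤ 2 * N * ((2 * C + 2) * N ^ (1 - η)) := by
    refine (norm_sum_le _ _).trans ?_
    calc ∑ m ∈ Icc 1 M, ‖∑ n ∈ Icc 1 m, et (-u) n - (m : ℂ) ^ s / s‖ ≤ ∑ m ∈ Icc 1 M, (2 * C + 2) * N ^ (1 - η) :=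
          Finset.sum_le_sum hE
      _ = M * ((2 * C + 2) * N ^ (1 - η)) := by simp
      _ ≤ 2 * N * ((2 * C + 2) * N ^ (1 - η)) := by gcongr
  have hlast : ‖((2 * N - M - 1 : ℝ) : ℂ) * ∑ n ∈ Icc 1 M, et (-u) n‖ ≤ 2 * N := by
    rw [norm_mul, Complex.norm_real]
    have h1 : ‖2 * N - M - 1‖ ≤ 1 := by
      rw [Real.norm_eq_abs, abs_le]
      constructor <;> linarith
    have h2 := hS M
    calc ‖2 * N - M - 1‖ * ‖∑ n ∈ Icc 1 M, et (-u) n‖ ≤ 1 * (2 * N) := by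
          gcongr
          linarith
      _ = 2 * N := one_mul _
  have htot : ‖(∑ m ∈ Icc 1 M, (m : ℂ) ^ s) / s +
        ∑ m ∈ Icc 1 M, (∑ n ∈ Icc 1 m, et (-u) n - (m : ℂ) ^ s / s) +
        ((2 * N - M - 1 : ℝ) : ℂ) * ∑ n ∈ Icc 1 M, et (-u) n‖ ≤
      (4 * N ^ 2 / u ^ 2 + 4 * N) + 2 * N * ((2 * C + 2) * N ^ (1 - η)) + 2 * N :=
    (norm_add_le _ _).trans (add_le_add ((norm_add_le _ _).trans (add_le_add hmain herr)) hlast)
  calc (2 * N)⁻¹ * _ ≤ (2 * N)⁻¹ * ((4 * N ^ 2 / u ^ 2 + 4 * N) + 2 * N * ((2 * C + 2) * N ^ (1 - η)) + 2 * N) := by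
        gcongr
    _ = 2 * (N / u ^ 2) + 3 + (2 * C + 2) * N ^ (1 - η) := by
        field_simp
        ring
    _ ≤ (2 * C + 10) * (N / u ^ 2 + N ^ (1 - η)) := by
        have h1 : 0 ≤ N / u ^ 2 := by positivity
        nlinarith

/-- one-sided spaced sum -/
private theorem hm_sp (S : Finset ℝ) (f : ℝ → ℝ) (h1 : ∀ x ∈ S, 1 ≤ f x)
    (h2 : ∀ x ∈ S, ∀ y ∈ S, x ≠ y → 1 ≤ |f x - f y|) : ∑ x ∈ S, 1 / (f x) ^ 2 ≤ 2 := by
  have hinj : Set.InjOn (fun x => ⌊f x⌋₊) (S : Set ℝ) := by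
    intro x hx y hy hxy
    by_contra hne
    have h := h2 x hx y hy hne
    have a1 := Nat.floor_le (show 0 ≤ f x by linarith [h1 x hx])
    have a2 := Nat.lt_floor_add_one (f x)
    have a3 := Nat.floor_le (show 0 ≤ f y by linarith [h1 y hy])
    have a4 := Nat.lt_floor_add_one (f y)
    simp only at hxy
    rw [hxy] at a1 a2
    rcases abs_cases (f x - f y) with ⟨h5, _⟩ | ⟨h5, _⟩ <;> linarith
  calc ∑ x ∈ S, 1 / (f x) ^ 2 ≤ ∑ x ∈ S, ((⌊f x⌋₊ : ℝ) ^ 2)⁻¹ := by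
        refine Finset.sum_le_sum fun x hx => ?_
        have hf := h1 x hx
        have h3 : 1 ≤ ⌊f x⌋₊ := Nat.le_floor (by simpa using hf)
        have h3' : (1 : ℝ) ≤ (⌊f x⌋₊ : ℝ) := by exact_mod_cast h3
        rw [one_div]
        have h4 := Nat.floor_le (show 0 ≤ f x by linarith)
        exact inv_anti₀ (by positivity) (by gcongr)
    _ = ∑ k ∈ S.image (fun x => ⌊f x⌋₊), ((k : ℝ) ^ 2)⁻¹ := by
        rw [Finset.sum_image]
        exact hinj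
    _ ≤ ∑ k ∈ Ioo 0 ((S.image (fun x => ⌊f x⌋₊)).sup id + 1), ((k : ℝ) ^ 2)⁻¹ := by
        apply Finset.sum_le_sum_of_subset_of_nonneg
        · intro k hk
          have hk2 := Finset.le_sup (f := id) hk
          obtain ⟨x, hx, rfl⟩ := Finset.mem_image.1 hk
          have h3 : 1 ≤ ⌊f x⌋₊ := Nat.le_floor (by simpa using h1 x hx)
          rw [Finset.mem_Ioo]
          simp only [id] at hk2
          omega
        · intros; positivity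
    _ ≤ 2 := by
        have := sum_Ioo_inv_sq_le (α := ℝ) 0 ((S.image (fun x => ⌊f x⌋₊)).sup id + 1)
        simpa using this

/-- the spaced sum -/
private theorem hm_sp2 (S : Finset ℝ) (hS : ∀ t ∈ S, ∀ t' ∈ S, t ≠ t' → 1 ≤ |t - t'|) (t : ℝ) (ht : t ∈ S) :
    ∑ t' ∈ S.erase t, 1 / (t' - t) ^ 2 ≤ 4 := by
  have h0 : ∑ t' ∈ S.erase t, 1 / (t' - t) ^ 2 =
      ∑ t' ∈ (S.erase t).filter (fun t' => t < t'), 1 / (t' - t) ^ 2 +
      ∑ t' ∈ (S.erase t).filter (fun t' => ¬ t < t'), 1 / (t - t') ^ 2 := by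
    rw [← Finset.sum_filter_add_sum_filter_not (S.erase t) (fun t' => t < t')]
    congr 1
    refine Finset.sum_congr rfl fun t' _ => ?_
    rw [← neg_sub t t', neg_sq]
  rw [h0]
  have h1 := hm_sp ((S.erase t).filter (fun t' => t < t')) (fun t' => t' - t)
    (fun x hx => by
      obtain ⟨hx1, hx2⟩ := Finset.mem_filter.1 hx
      obtain ⟨hx3, hx4⟩ := Finset.mem_erase.1 hx1
      have h := hS x hx4 t ht hx3
      rw [abs_of_pos (by linarith)] at h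
      exact h)
    (fun x hx y hy hxy => by
      have h := hS x (Finset.mem_of_mem_erase (Finset.mem_filter.1 hx).1) y
        (Finset.mem_of_mem_erase (Finset.mem_filter.1 hy).1) hxy
      simpa using h)
  have h2 := hm_sp ((S.erase t).filter (fun t' => ¬ t < t')) (fun t' => t - t')
    (fun x hx => by
      obtain ⟨hx1, hx2⟩ := Finset.mem_filter.1 hx
      obtain ⟨hx3, hx4⟩ := Finset.mem_erase.1 hx1
      have h := hS t ht x hx4 (Ne.symm hx3)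
      rw [abs_of_nonneg (by linarith)] at h
      exact h)
    (fun x hx y hy hxy => by
      have h := hS x (Finset.mem_of_mem_erase (Finset.mem_filter.1 hx).1) y
        (Finset.mem_of_mem_erase (Finset.mem_filter.1 hy).1) hxy
      rw [abs_sub_comm] at h
      simpa using h)
  linarith

/-- duality -/
private theorem hm_dual (S : Finset ℝ) (T : Finset ℕ) {Δ : ℝ} (hΔ : 0 ≤ Δ)
    (h : ∀ b : ℝ → ℂ, ∑ n ∈ T, ‖∑ t ∈ S, b t * et t n‖ ^ 2 ≤ Δ * ∑ t ∈ S, ‖b t‖ ^ 2) (a : ℕ → ℂ) :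
    ∑ t ∈ S, ‖∑ n ∈ T, a n * et t n‖ ^ 2 ≤ Δ * ∑ n ∈ T, ‖a n‖ ^ 2 := by
  set X := ∑ t ∈ S, ‖∑ n ∈ T, a n * et t n‖ ^ 2 with hX
  set U := ∑ n ∈ T, ‖a n‖ ^ 2 with hU
  have hX0 : 0 ≤ X := Finset.sum_nonneg fun k _ => by positivity
  have hU0 : 0 ≤ U := Finset.sum_nonneg fun k _ => by positivity
  set b : ℝ → ℂ := fun t => (starRingEnd ℂ) (∑ n ∈ T, a n * et t n) with hb
  have h1 : (X : ℂ) = ∑ n ∈ T, a n * ∑ t ∈ S, b t * et t n := by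
    rw [hX, Complex.ofReal_sum]
    simp_rw [Finset.mul_sum]
    rw [Finset.sum_comm]
    refine Finset.sum_congr rfl fun k _ => ?_
    rw [← Complex.normSq_eq_norm_sq, ← Complex.mul_conj, Finset.sum_mul]
    refine Finset.sum_congr rfl fun z _ => ?_
    ring
  have h2 : X ≤ ∑ n ∈ T, ‖a n‖ * ‖∑ t ∈ S, b t * et t n‖ := by
    have h3 : X = ‖(X : ℂ)‖ := by rw [Complex.norm_real, Real.norm_of_nonneg hX0]
    rw [h3, h1]
    refine (norm_sum_le _ _).trans (Finset.sum_le_sum fun z _ => ?_)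
    rw [norm_mul]
  have h3 : (∑ n ∈ T, ‖a n‖ * ‖∑ t ∈ S, b t * et t n‖) ^ 2 ≤
      U * ∑ n ∈ T, ‖∑ t ∈ S, b t * et t n‖ ^ 2 := Finset.sum_mul_sq_le_sq_mul_sq _ _ _
  have h4 : ∑ t ∈ S, ‖b t‖ ^ 2 = X := by
    rw [hX]
    refine Finset.sum_congr rfl fun k _ => ?_
    rw [hb]
    simp only
    rw [Complex.norm_conj]
  have h5 := h b
  rw [h4] at h5
  have h6 : X ^ 2 ≤ U * (Δ * X) :=
    (pow_le_pow_left₀ hX0 h2 2).trans (h3.trans (mul_le_mul_of_nonneg_left h5 hU0))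
  rcases hX0.eq_or_lt with h7 | h7
  · rw [← h7]; positivity
  · have h8 : X * X ≤ (Δ * U) * X := by nlinarith
    exact le_of_mul_le_mul_right h8 h7

private theorem hm_conj_et (t : ℝ) (n : ℕ) : (starRingEnd ℂ) (et t n) = et (-t) n := by
  unfold et
  rw [← Complex.exp_conj]
  congr 1
  rw [map_mul, map_neg, Complex.conj_ofReal, Complex.conj_I, neg_mul t, Complex.ofReal_neg]
  ring

/-- expanding the weighted square -/
private theorem hm_expand (T : Finset ℕ) (w : ℕ → ℝ) (S : Finset ℝ) (b : ℝ → ℂ) :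
    ((∑ n ∈ T, w n * ‖∑ t ∈ S, b t * et t n‖ ^ 2 : ℝ) : ℂ) =
      ∑ t ∈ S, ∑ t' ∈ S, b t * (starRingEnd ℂ) (b t') * ∑ n ∈ T, (w n : ℂ) * et (-(t' - t)) n := by
  have h1 : ∀ n ∈ T, ((w n * ‖∑ t ∈ S, b t * et t n‖ ^ 2 : ℝ) : ℂ) =
      ∑ t ∈ S, ∑ t' ∈ S, b t * (starRingEnd ℂ) (b t') * ((w n : ℂ) * et (-(t' - t)) n) := by
    intro n _
    rw [Complex.ofReal_mul, ← Complex.normSq_eq_norm_sq, ← Complex.mul_conj, map_sum, Finset.sum_mul_sum,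
      Finset.mul_sum]
    refine Finset.sum_congr rfl fun t _ => ?_
    rw [Finset.mul_sum]
    refine Finset.sum_congr rfl fun t' _ => ?_
    rw [map_mul, hm_conj_et, neg_sub, sub_eq_add_neg, et_add]
    ring
  rw [Complex.ofReal_sum, Finset.sum_congr rfl h1, Finset.sum_comm]
  refine Finset.sum_congr rfl fun k _ => ?_
  rw [Finset.sum_comm]
  refine Finset.sum_congr rfl fun l _ => ?_
  rw [Finset.mul_sum]

/-- Duality (`Σ_t |Σ_n a n et t n|² ≤ Δ Σ |a n|²` follows from `Σ_(n ≤ N) |Σ_t b t et t n|² ≤ Δ Σ |b t|²`; see `dual` in Lib_MP_f1a94e_mr or Lib_MP_f1a94e_ecm/Orth.lean). `Σ_(n ≤ N) |..|² ≤ 2 Σ_(n ≤ 2N) (1 - n/(2N)) |Σ_t b t et t n|²`, expand: diagonal `≤ 2 N`, off-diagonal `smooth_zs` with `u = ±(t - t')`, `1 ≤ |u| ≤ 2 X ≤ N^9`;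
`Σ_(t') 1/|t - t'|² ≤ 4` (spacing one), `#S N^(-η) ≤ 1` for `δ = η/4`. -/
theorem hm_large : ∃ δ C X0 : ℝ, 0 < δ ∧ 0 < C ∧ 1 < X0 ∧ ∀ X N : ℝ, X0 ≤ X → X ^ (1 / 4 : ℝ) ≤ N → ∀ S : Finset ℝ, (∀ t ∈ S, |t| ≤ X) →
    (∀ t ∈ S, ∀ t' ∈ S, t ≠ t' → 1 ≤ |t - t'|) → (S.card : ℝ) ≤ X ^ δ → ∀ a : ℕ → ℂ,
    ∑ t ∈ S, ‖∑ n ∈ Icc 1 ⌊N⌋₊, a n * et t n‖ ^ 2 ≤ C * N * ∑ n ∈ Icc 1 ⌊N⌋₊, ‖a n‖ ^ 2 := by
  obtain ⟨η, C, hη, hC, hz⟩ := smooth_zs 9 (by norm_num)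
  refine ⟨η / 4, 2 * (2 + 5 * C), 16, by positivity, by positivity, by norm_num, ?_⟩
  intro X N hX hXN S hSX hSsp hcard a
  have hX0 : 0 < X := by linarith
  have hX1 : 1 ≤ X := by linarith
  have hN2 : 2 ≤ N := by
    refine le_trans ?_ hXN
    have h1 : (2 : ℝ) = (16 : ℝ) ^ (1 / 4 : ℝ) := by
      rw [show (16 : ℝ) = (2 : ℝ) ^ (4 : ℝ) by norm_num, ← Real.rpow_mul (by norm_num)]
      norm_num
    rw [h1]
    exact Real.rpow_le_rpow (by norm_num) hX (by norm_num)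
  have hN0 : 0 < N := by linarith
  have hN1 : 1 ≤ N := by linarith
  have hXN4 : X ≤ N ^ 4 := by
    have h1 : (X ^ (1 / 4 : ℝ)) ^ 4 = X := by
      rw [← Real.rpow_natCast, ← Real.rpow_mul hX0.le]
      norm_num
    calc X = (X ^ (1 / 4 : ℝ)) ^ 4 := h1.symm
      _ ≤ N ^ 4 := by gcongr
  have h2X : 2 * X ≤ N ^ (9 : ℝ) := by
    rw [show (9 : ℝ) = ((9 : ℕ) : ℝ) by norm_num, Real.rpow_natCast]
    have h1 : N ^ 4 * 2 ≤ N ^ 4 * N ^ 5 := by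
      have h2 : (2 : ℝ) ≤ N ^ 5 := by
        calc (2 : ℝ) ≤ N := hN2
          _ = N ^ 1 := (pow_one N).symm
          _ ≤ N ^ 5 := pow_le_pow_right₀ hN1 (by norm_num)
      gcongr
    calc 2 * X ≤ N ^ 4 * 2 := by linarith
      _ ≤ N ^ 4 * N ^ 5 := h1
      _ = N ^ 9 := by ring
  have hcardN : N ^ (1 - η) * S.card ≤ N := by
    have h1 : X ^ (η / 4) ≤ N ^ η := by
      calc X ^ (η / 4) = (X ^ (1 / 4 : ℝ)) ^ η := by
            rw [← Real.rpow_mul hX0.le]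
            congr 1
            ring
        _ ≤ N ^ η := Real.rpow_le_rpow (by positivity) hXN hη.le
    calc N ^ (1 - η) * S.card ≤ N ^ (1 - η) * N ^ η := by
          gcongr
          exact hcard.trans h1
      _ = N := by
          rw [← Real.rpow_add hN0]
          simp
  refine hm_dual S _ (by positivity) (fun b => ?_) a
  -- pass to the smooth weight
  have hw0 : ∀ n ∈ Icc 1 ⌊2 * N⌋₊, 0 ≤ 1 - (n : ℝ) / (2 * N) := by
    intro n hn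
    have h1 : (n : ℝ) ≤ 2 * N := (Nat.le_floor_iff (by linarith)).1 (Finset.mem_Icc.1 hn).2
    rw [sub_nonneg, div_le_one (by linarith)]
    exact h1
  have hstep1 : ∑ n ∈ Icc 1 ⌊N⌋₊, ‖∑ t ∈ S, b t * et t n‖ ^ 2 ≤
      2 * ∑ n ∈ Icc 1 ⌊2 * N⌋₊, (1 - (n : ℝ) / (2 * N)) * ‖∑ t ∈ S, b t * et t n‖ ^ 2 := by
    rw [Finset.mul_sum]
    calc ∑ n ∈ Icc 1 ⌊N⌋₊, ‖∑ t ∈ S, b t * et t n‖ ^ 2 ≤
          ∑ n ∈ Icc 1 ⌊N⌋₊, 2 * ((1 - (n : ℝ) / (2 * N)) * ‖∑ t ∈ S, b t * et t n‖ ^ 2) := by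
          refine Finset.sum_le_sum fun n hn => ?_
          have h1 : (n : ℝ) ≤ N := (Nat.le_floor_iff (by linarith)).1 (Finset.mem_Icc.1 hn).2
          have h2 : (1 : ℝ) / 2 ≤ 1 - (n : ℝ) / (2 * N) := by
            have h3 : (n : ℝ) / (2 * N) ≤ 1 / 2 := by
              rw [div_le_div_iff₀ (by linarith) (by norm_num)]
              linarith
            linarith
          have h4 : 0 ≤ ‖∑ t ∈ S, b t * et t n‖ ^ 2 := by positivity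
          nlinarith
      _ ≤ _ := by
          apply Finset.sum_le_sum_of_subset_of_nonneg
          · apply Finset.Icc_subset_Icc_right
            exact Nat.floor_mono (by linarith)
          · intro n hn _
            have := hw0 n hn
            positivity
  refine hstep1.trans ?_
  have hstep2 : ∑ n ∈ Icc 1 ⌊2 * N⌋₊, (1 - (n : ℝ) / (2 * N)) * ‖∑ t ∈ S, b t * et t n‖ ^ 2 ≤
      ∑ t ∈ S, ∑ t' ∈ S, ‖b t‖ * ‖b t'‖ * ‖∑ n ∈ Icc 1 ⌊2 * N⌋₊, (((1 - n / (2 * N) : ℝ)) : ℂ) * et (-(t' - t)) n‖ := by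
    have h0 : 0 ≤ ∑ n ∈ Icc 1 ⌊2 * N⌋₊, (1 - (n : ℝ) / (2 * N)) * ‖∑ t ∈ S, b t * et t n‖ ^ 2 :=
      Finset.sum_nonneg fun n hn => mul_nonneg (hw0 n hn) (by positivity)
    have h1 := hm_expand (Icc 1 ⌊2 * N⌋₊) (fun n => 1 - (n : ℝ) / (2 * N)) S b
    rw [← Real.norm_of_nonneg h0, ← Complex.norm_real, h1]
    refine (norm_sum_le _ _).trans (Finset.sum_le_sum fun t _ => (norm_sum_le _ _).trans (Finset.sum_le_sum fun t' _ => ?_))
    rw [norm_mul, norm_mul, Complex.norm_conj]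
  -- the kernel
  set K : ℝ → ℝ → ℝ := fun t t' => ‖∑ n ∈ Icc 1 ⌊2 * N⌋₊, (((1 - n / (2 * N) : ℝ)) : ℂ) * et (-(t' - t)) n‖ with hK
  have hKd : ∀ t, K t t ≤ 2 * N := by
    intro t
    rw [hK]
    simp only
    refine (norm_sum_le _ _).trans ?_
    calc ∑ n ∈ Icc 1 ⌊2 * N⌋₊, ‖(((1 - n / (2 * N) : ℝ)) : ℂ) * et (-(t - t)) n‖ ≤ ∑ n ∈ Icc 1 ⌊2 * N⌋₊, (1 : ℝ) := by
          refine Finset.sum_le_sum fun n hn => ?_
          rw [norm_mul, norm_et, mul_one, Complex.norm_real, Real.norm_of_nonneg (hw0 n hn)]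
          have : 0 ≤ (n : ℝ) / (2 * N) := by positivity
          linarith
      _ = ⌊2 * N⌋₊ := by simp
      _ ≤ 2 * N := Nat.floor_le (by linarith)
  have hKo : ∀ t ∈ S, ∀ t' ∈ S, t ≠ t' → K t t' ≤ C * (N * (1 / (t' - t) ^ 2) + N ^ (1 - η)) := by
    intro t ht t' ht' hne
    have h1 := hSsp t' ht' t ht (Ne.symm hne)
    have h2 : |t' - t| ≤ N ^ (9 : ℝ) := by
      refine (abs_sub _ _).trans ?_
      have := hSX t ht
      have := hSX t' ht'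
      linarith
    have h3 := hz (t' - t) N hN1 h1 h2
    rw [hK]
    simp only
    rw [mul_one_div]
    exact h3
  have hKsum : ∀ t ∈ S, ∑ t' ∈ S, K t t' ≤ (2 + 5 * C) * N := by
    intro t ht
    rw [← Finset.add_sum_erase S (K t) ht]
    have h1 : ∑ t' ∈ S.erase t, K t t' ≤ ∑ t' ∈ S.erase t, C * (N * (1 / (t' - t) ^ 2) + N ^ (1 - η)) := by
      refine Finset.sum_le_sum fun t' ht' => ?_
      obtain ⟨h2, h3⟩ := Finset.mem_erase.1 ht'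
      exact hKo t ht t' h3 (Ne.symm h2)
    have h2 : ∑ t' ∈ S.erase t, C * (N * (1 / (t' - t) ^ 2) + N ^ (1 - η)) =
        C * (N * ∑ t' ∈ S.erase t, 1 / (t' - t) ^ 2 + (S.erase t).card * N ^ (1 - η)) := by
      rw [← Finset.mul_sum, Finset.sum_add_distrib, ← Finset.mul_sum, Finset.sum_const, nsmul_eq_mul]
    have h3 := hm_sp2 S hSsp t ht
    have h4 : ((S.erase t).card : ℝ) ≤ S.card := by
      exact_mod_cast Finset.card_le_card (Finset.erase_subset _ _)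
    have h5 : ((S.erase t).card : ℝ) * N ^ (1 - η) ≤ N := by
      calc ((S.erase t).card : ℝ) * N ^ (1 - η) ≤ S.card * N ^ (1 - η) := by gcongr
        _ = N ^ (1 - η) * S.card := mul_comm _ _
        _ ≤ N := hcardN
    have h6 : C * (N * ∑ t' ∈ S.erase t, 1 / (t' - t) ^ 2 + (S.erase t).card * N ^ (1 - η)) ≤ C * (N * 4 + N) := by
      gcongr
    have h7 := hKd t
    linarith
  have hKsymm : ∀ t t', K t t' = K t' t := by
    intro t t'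
    rw [hK]
    simp only
    rw [← Complex.norm_conj (∑ n ∈ Icc 1 ⌊2 * N⌋₊, (((1 - n / (2 * N) : ℝ)) : ℂ) * et (-(t' - t)) n), map_sum]
    congr 1
    refine Finset.sum_congr rfl fun n _ => ?_
    rw [map_mul, Complex.conj_ofReal, hm_conj_et]
    congr 2
    ring
  have hK0 : ∀ t t', 0 ≤ K t t' := fun t t' => norm_nonneg _
  have hstep3 : ∑ t ∈ S, ∑ t' ∈ S, ‖b t‖ * ‖b t'‖ * K t t' ≤ ∑ t ∈ S, ‖b t‖ ^ 2 * ∑ t' ∈ S, K t t' := by
    have h1 : ∀ t ∈ S, ∀ t' ∈ S, ‖b t‖ * ‖b t'‖ * K t t' ≤ (1 / 2) * (‖b t‖ ^ 2 * K t t') + (1 / 2) * (‖b t'‖ ^ 2 * K t' t) := by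
      intro t _ t' _
      rw [hKsymm t' t]
      have := hK0 t t'
      nlinarith [sq_nonneg (‖b t‖ - ‖b t'‖), mul_nonneg this (sq_nonneg (‖b t‖ - ‖b t'‖))]
    calc ∑ t ∈ S, ∑ t' ∈ S, ‖b t‖ * ‖b t'‖ * K t t' ≤
          ∑ t ∈ S, ∑ t' ∈ S, ((1 / 2) * (‖b t‖ ^ 2 * K t t') + (1 / 2) * (‖b t'‖ ^ 2 * K t' t)) :=
          Finset.sum_le_sum fun t ht => Finset.sum_le_sum fun t' ht' => h1 t ht t' ht'
      _ = (1 / 2) * ∑ t ∈ S, ‖b t‖ ^ 2 * ∑ t' ∈ S, K t t' + (1 / 2) * ∑ t' ∈ S, ‖b t'‖ ^ 2 * ∑ t ∈ S, K t' t := by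
          simp_rw [Finset.sum_add_distrib, ← Finset.mul_sum]
          congr 2
          rw [Finset.sum_comm]
          refine Finset.sum_congr rfl fun t' _ => ?_
          rw [Finset.mul_sum]
      _ = ∑ t ∈ S, ‖b t‖ ^ 2 * ∑ t' ∈ S, K t t' := by ring
  calc 2 * ∑ n ∈ Icc 1 ⌊2 * N⌋₊, (1 - (n : ℝ) / (2 * N)) * ‖∑ t ∈ S, b t * et t n‖ ^ 2 ≤
        2 * ∑ t ∈ S, ‖b t‖ ^ 2 * ∑ t' ∈ S, K t t' := by
        have := hstep2.trans hstep3
        linarith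
    _ ≤ 2 * ∑ t ∈ S, ‖b t‖ ^ 2 * ((2 + 5 * C) * N) := by
        gcongr with t ht
        exact hKsum t ht
    _ = 2 * (2 + 5 * C) * N * ∑ t ∈ S, ‖b t‖ ^ 2 := by
        rw [← Finset.sum_mul]
        ring

end Pool.Agent.SplI

end

/-! ### from `Lib_MP_f1a94e_eq.Sharp` -/

section

/-!
# Piece SHARP: sharp cut-offs
-/

set_option autoImplicit false

namespace Pool.Agent.OmEq

open Finset Pool.Agent.GaussMR Pool.Agent.OmAll MeasureTheory Filter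

theorem sharp_En_iff (e : G × G) : En 1 e ↔ det e.1 e.2 = 1 ∧ 0 < dot e.1 e.2 := by
  unfold En
  constructor
  · rintro ⟨h1, h2, -, -⟩
    exact ⟨by simpa using h1, h2⟩
  · rintro ⟨h1, h2⟩
    refine ⟨by simpa using h1, h2, ?_, 1, by simpa using isCoprime_one_left, ?_⟩
    · unfold Prim
      unfold det at h1
      exact ⟨e.2.im, -e.2.re, by linarith⟩
    · unfold cg
      simp

theorem sharp_nm_pos {n : ℕ} (hn : 0 < n) {e : G × G} (h : En n e) : 0 < nm e.1 ∧ 0 < nm e.2 := by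
  have h1 : det e.1 e.2 ≠ 0 := by
    rw [h.1]
    exact_mod_cast hn.ne'
  constructor
  · apply nm_pos
    intro h0
    apply h1
    rw [h0]
    simp [det]
  · apply nm_pos
    intro h0
    apply h1
    rw [h0]
    simp [det]

theorem sharp_lo {e : G × G} (h1 : 0 < nm e.1) (h2 : 0 < nm e.2) (s : ℝ) :
    s ≤ tE e ↔ Real.exp s * (nm e.1 : ℝ) ≤ (nm e.2 : ℝ) := by
  have h1' : (0 : ℝ) < nm e.1 := by exact_mod_cast h1
  have h2' : (0 : ℝ) < nm e.2 := by exact_mod_cast h2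
  unfold tE
  rw [le_sub_iff_add_le, Real.le_log_iff_exp_le h2', Real.exp_add, Real.exp_log h1']

theorem sharp_hi {e : G × G} (h1 : 0 < nm e.1) (h2 : 0 < nm e.2) (t : ℝ) :
    tE e < t ↔ (nm e.2 : ℝ) < Real.exp t * (nm e.1 : ℝ) := by
  rw [← not_le, sharp_lo h1 h2, not_le]

open Classical in
theorem sharp_card (s t x : ℝ) :
    ((EN 1 x).filter (fun e => s ≤ tE e ∧ tE e < t)).card = (NE 1 (1, 1) s t x).ncard := by
  rw [← Set.ncard_coe_finset]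
  congr 1
  ext e
  rw [coe_filter]
  show e ∈ EN 1 x ∧ s ≤ tE e ∧ tE e < t ↔ _
  rw [mem_EN one_pos]
  unfold NE
  rw [Set.mem_ofPred_eq]
  constructor
  · rintro ⟨⟨h1, h2⟩, h3, h4⟩
    obtain ⟨h5, h6⟩ := sharp_nm_pos one_pos h1
    refine ⟨((sharp_En_iff e).1 h1).1, ((sharp_En_iff e).1 h1).2, h2, (sharp_lo h5 h6 s).1 h3,
      (sharp_hi h5 h6 t).1 h4, ?_, ?_⟩ <;> simp [cg]
  · rintro ⟨h1, h2, h3, h4, h5, -, -⟩
    have h : En 1 e := (sharp_En_iff e).2 ⟨h1, h2⟩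
    obtain ⟨h6, h7⟩ := sharp_nm_pos one_pos h
    exact ⟨⟨h, h3⟩, (sharp_lo h6 h7 s).2 h4, (sharp_hi h6 h7 t).2 h5⟩

/-- PROOF. `EN 1 x` with `s ≤ tE < t` is `NE 1 0 s t x` (every pair with `det = 1`, `0 < dot` is in `En 1`: `V` is primitive, congruences modulo 1 are trivial; `exp s nm V ≤ nm V'` iff `s ≤ tE`); `equid 1`. -/
theorem en_lim : ∃ κ : ℝ, 0 ≤ κ ∧ ∀ s t : ℝ, s ≤ t → Tendsto (fun x : ℝ =>
    (((EN 1 x).filter (fun e => s ≤ tE e ∧ tE e < t)).card : ℝ) / x) atTop (nhds (κ * (t - s))) := by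
  obtain ⟨κ, hκ⟩ := equid 1 one_pos
  have h := hκ (1, 1) (by simp)
  have h' : ∀ s t : ℝ, s ≤ t → Tendsto (fun x : ℝ =>
    (((EN 1 x).filter (fun e => s ≤ tE e ∧ tE e < t)).card : ℝ) / x) atTop (nhds (κ * (t - s))) := by
    intro s t hst
    have h1 := h s t hst
    have h2 : (fun x : ℝ => (((EN 1 x).filter (fun e => s ≤ tE e ∧ tE e < t)).card : ℝ) / x) =
        fun x : ℝ => ((NE 1 (1, 1) s t x).ncard : ℝ) / x := by
      funext x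
      rw [← sharp_card s t x]
    rw [h2]
    exact h1
  refine ⟨κ, ?_, h'⟩
  have h1 := h' 0 1 zero_le_one
  rw [sub_zero, mul_one] at h1
  refine ge_of_tendsto h1 ?_
  filter_upwards [eventually_gt_atTop 0] with x hx
  positivity

/-- trapezoid: `1` on `[a, b]`, `0` outside `[a - δ, b + δ]` -/
noncomputable def sharp_tz (a b δ y : ℝ) : ℝ := max 0 (min 1 (min ((y - (a - δ)) / δ) ((b + δ - y) / δ)))

theorem sharp_tz_cont (a b δ : ℝ) : Continuous (sharp_tz a b δ) := by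
  unfold sharp_tz
  fun_prop

theorem sharp_tz_nonneg (a b δ y : ℝ) : 0 ≤ sharp_tz a b δ y := le_max_left _ _

theorem sharp_tz_le_one (a b δ y : ℝ) : sharp_tz a b δ y ≤ 1 :=
  max_le zero_le_one (min_le_left _ _)

theorem sharp_tz_one {a b δ y : ℝ} (hδ : 0 < δ) (h1 : a ≤ y) (h2 : y ≤ b) : sharp_tz a b δ y = 1 := by
  unfold sharp_tz
  have h3 : 1 ≤ (y - (a - δ)) / δ := by
    rw [le_div_iff₀ hδ]
    linarith
  have h4 : 1 ≤ (b + δ - y) / δ := by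
    rw [le_div_iff₀ hδ]
    linarith
  rw [min_eq_left (le_min h3 h4), max_eq_right zero_le_one]

theorem sharp_tz_zero_left {a b δ y : ℝ} (hδ : 0 < δ) (h : y ≤ a - δ) : sharp_tz a b δ y = 0 := by
  unfold sharp_tz
  refine max_eq_left ((min_le_right _ _).trans ((min_le_left _ _).trans ?_))
  exact div_nonpos_of_nonpos_of_nonneg (by linarith) hδ.le

theorem sharp_tz_zero_right {a b δ y : ℝ} (hδ : 0 < δ) (h : b + δ ≤ y) : sharp_tz a b δ y = 0 := by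
  unfold sharp_tz
  refine max_eq_left ((min_le_right _ _).trans ((min_le_right _ _).trans ?_))
  exact div_nonpos_of_nonpos_of_nonneg (by linarith) hδ.le

/-- the smooth cut-off -/
noncomputable def sharp_W (s t δ : ℝ) (y u : ℝ) : ℂ :=
  ((sharp_tz δ 1 (δ / 2) y * sharp_tz s t δ u : ℝ) : ℂ)

theorem sharp_TF (s t δ : ℝ) (hδ : 0 < δ) : TF (1 + δ) (sharp_W s t δ) := by
  refine ⟨?_, ?_, ?_, ?_⟩
  · unfold sharp_W Function.uncurry
    exact Complex.continuous_ofReal.comp (((sharp_tz_cont _ _ _).comp continuous_fst).mul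
      ((sharp_tz_cont _ _ _).comp continuous_snd))
  · refine HasCompactSupport.intro (K := Set.Icc 0 (1 + δ) ×ˢ Set.Icc (s - δ) (t + δ))
      (isCompact_Icc.prod isCompact_Icc) ?_
    rintro ⟨y, u⟩ hx
    show sharp_W s t δ y u = 0
    unfold sharp_W
    by_cases h1 : y < 0
    · rw [sharp_tz_zero_left (by linarith) (by linarith)]
      simp
    by_cases h2 : 1 + δ < y
    · rw [sharp_tz_zero_right (by linarith) (by linarith)]
      simp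
    by_cases h3 : u < s - δ
    · rw [sharp_tz_zero_left (a := s) (b := t) hδ (by linarith)]
      simp
    by_cases h4 : t + δ < u
    · rw [sharp_tz_zero_right (a := s) (b := t) hδ (by linarith)]
      simp
    exfalso
    exact hx ⟨⟨not_lt.1 h1, not_lt.1 h2⟩, ⟨not_lt.1 h3, not_lt.1 h4⟩⟩
  · intro y u hy
    unfold sharp_W
    rw [sharp_tz_zero_left (by linarith) (by linarith)]
    simp
  · intro y u hy
    unfold sharp_W
    rw [sharp_tz_zero_right (by linarith) (by linarith)]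
    simp

/-- indicator -/
noncomputable def sharp_i (p : Prop) : ℝ := by
  classical exact if p then 1 else 0

theorem sharp_i_nonneg (p : Prop) : 0 ≤ sharp_i p := by
  classical
  unfold sharp_i
  split_ifs <;> simp

theorem sharp_i_pos {p : Prop} (h : p) : sharp_i p = 1 := by
  classical
  unfold sharp_i
  rw [if_pos h]

theorem sharp_i_neg {p : Prop} (h : ¬ p) : sharp_i p = 0 := by
  classical
  unfold sharp_i
  rw [if_neg h]

theorem sharp_point (s t δ X y u : ℝ) (hδ : 0 < δ) (hX : 0 < X) :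
    |sharp_i (y ≤ X ∧ s ≤ u ∧ u ≤ t) - sharp_tz δ 1 (δ / 2) (y / X) * sharp_tz s t δ u| ≤
      sharp_i (y ≤ δ * X ∧ s - δ ≤ u ∧ u < t + 2 * δ) + sharp_i (X < y ∧ s - δ ≤ u ∧ u < t + 2 * δ) +
        sharp_i (s - δ ≤ u ∧ u < s) + sharp_i (t ≤ u ∧ u < t + 2 * δ) := by
  have a1 := sharp_i_nonneg (y ≤ δ * X ∧ s - δ ≤ u ∧ u < t + 2 * δ)
  have a2 := sharp_i_nonneg (X < y ∧ s - δ ≤ u ∧ u < t + 2 * δ)
  have a3 := sharp_i_nonneg (s - δ ≤ u ∧ u < s)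
  have a4 := sharp_i_nonneg (t ≤ u ∧ u < t + 2 * δ)
  have b1 : |sharp_i (y ≤ X ∧ s ≤ u ∧ u ≤ t) - sharp_tz δ 1 (δ / 2) (y / X) * sharp_tz s t δ u| ≤ 1 := by
    have c1 := sharp_tz_nonneg δ 1 (δ / 2) (y / X)
    have c2 := sharp_tz_le_one δ 1 (δ / 2) (y / X)
    have c3 := sharp_tz_nonneg s t δ u
    have c4 := sharp_tz_le_one s t δ u
    have c5 : sharp_tz δ 1 (δ / 2) (y / X) * sharp_tz s t δ u ≤ 1 := mul_le_one₀ c2 c3 c4
    have c6 : 0 ≤ sharp_tz δ 1 (δ / 2) (y / X) * sharp_tz s t δ u := mul_nonneg c1 c3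
    have c7 := sharp_i_nonneg (y ≤ X ∧ s ≤ u ∧ u ≤ t)
    have c8 : sharp_i (y ≤ X ∧ s ≤ u ∧ u ≤ t) ≤ 1 := by
      classical
      unfold sharp_i
      split_ifs <;> simp
    rw [abs_le]
    constructor <;> linarith
  -- outside the support in `u`
  by_cases h1 : u < s - δ
  · rw [sharp_tz_zero_left (a := s) (b := t) hδ h1.le, sharp_i_neg (p := y ≤ X ∧ s ≤ u ∧ u ≤ t)
      (by rintro ⟨-, h, -⟩; linarith)]
    simp only [mul_zero, sub_zero, abs_zero]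
    linarith
  by_cases h2 : t + 2 * δ ≤ u
  · rw [sharp_tz_zero_right (a := s) (b := t) hδ (by linarith), sharp_i_neg (p := y ≤ X ∧ s ≤ u ∧ u ≤ t)
      (by rintro ⟨-, -, h⟩; linarith)]
    simp only [mul_zero, sub_zero, abs_zero]
    linarith
  rw [not_lt] at h1
  rw [not_le] at h2
  by_cases h3 : y ≤ δ * X
  · have := sharp_i_pos (p := y ≤ δ * X ∧ s - δ ≤ u ∧ u < t + 2 * δ) ⟨h3, h1, h2⟩
    linarith
  by_cases h4 : X < y
  · have := sharp_i_pos (p := X < y ∧ s - δ ≤ u ∧ u < t + 2 * δ) ⟨h4, h1, h2⟩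
    linarith
  by_cases h5 : u < s
  · have := sharp_i_pos (p := s - δ ≤ u ∧ u < s) ⟨h1, h5⟩
    linarith
  by_cases h6 : t < u
  · have := sharp_i_pos (p := t ≤ u ∧ u < t + 2 * δ) ⟨h6.le, h2⟩
    linarith
  rw [not_le] at h3
  rw [not_lt] at h4 h5 h6
  rw [sharp_i_pos (p := y ≤ X ∧ s ≤ u ∧ u ≤ t) ⟨h4, h5, h6⟩, sharp_tz_one hδ h5 h6,
    sharp_tz_one (by linarith) ((le_div_iff₀ hX).2 h3.le) ((div_le_one hX).2 h4)]
  simp only [mul_one, sub_self, abs_zero]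
  linarith

/-- the count -/
noncomputable def sharp_N (a b x : ℝ) : ℝ := (((EN 1 x).filter (fun e => a ≤ tE e ∧ tE e < b)).card : ℝ)

theorem sharp_sum_i (S : Finset (G × G)) (p : G × G → Prop) [DecidablePred p] :
    ∑ e ∈ S, sharp_i (p e) = ((S.filter p).card : ℝ) := by
  rw [Finset.card_filter]
  push_cast
  refine Finset.sum_congr rfl fun e _ => ?_
  by_cases h : p e
  · rw [sharp_i_pos h, if_pos h]
  · rw [sharp_i_neg h, if_neg h]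

theorem sharp_diff (Φ : G × G → ℂ) (hΦ : ∀ e, ‖Φ e‖ ≤ 1) (s t δ X : ℝ) (hδ : 0 < δ) (hX : 0 < X) :
    ‖(∑ e ∈ (EN 1 X).filter (fun e => s ≤ tE e ∧ tE e ≤ t), Φ e) -
      ∑ e ∈ EN 1 ((1 + δ) * X), Φ e * sharp_W s t δ (mE e / X) (tE e)‖ ≤
      sharp_N (s - δ) (t + 2 * δ) (δ * X) + (sharp_N (s - δ) (t + 2 * δ) ((1 + δ) * X) -
        sharp_N (s - δ) (t + 2 * δ) X) + sharp_N (s - δ) s ((1 + δ) * X) +
        sharp_N t (t + 2 * δ) ((1 + δ) * X) := by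
  classical
  have hle : X ≤ (1 + δ) * X := by nlinarith
  have e1 : (∑ e ∈ (EN 1 X).filter (fun e => s ≤ tE e ∧ tE e ≤ t), Φ e) =
      ∑ e ∈ EN 1 ((1 + δ) * X), Φ e * (sharp_i (mE e ≤ X ∧ s ≤ tE e ∧ tE e ≤ t) : ℂ) := by
    have e2 : (EN 1 X).filter (fun e => s ≤ tE e ∧ tE e ≤ t) =
        (EN 1 ((1 + δ) * X)).filter (fun e => mE e ≤ X ∧ s ≤ tE e ∧ tE e ≤ t) := by
      ext e
      rw [mem_filter, mem_filter, mem_EN one_pos, mem_EN one_pos]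
      constructor
      · rintro ⟨⟨h1, h2⟩, h3⟩
        exact ⟨⟨h1, h2.trans hle⟩, h2, h3⟩
      · rintro ⟨⟨h1, -⟩, h2, h3⟩
        exact ⟨⟨h1, h2⟩, h3⟩
    rw [e2, Finset.sum_filter]
    refine Finset.sum_congr rfl fun e _ => ?_
    by_cases h : mE e ≤ X ∧ s ≤ tE e ∧ tE e ≤ t
    · rw [if_pos h, sharp_i_pos h]
      simp
    · rw [if_neg h, sharp_i_neg h]
      simp
  rw [e1, ← Finset.sum_sub_distrib]
  have e3 : ∀ e ∈ EN 1 ((1 + δ) * X), ‖Φ e * (sharp_i (mE e ≤ X ∧ s ≤ tE e ∧ tE e ≤ t) : ℂ) -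
      Φ e * sharp_W s t δ (mE e / X) (tE e)‖ ≤
      sharp_i (mE e ≤ δ * X ∧ s - δ ≤ tE e ∧ tE e < t + 2 * δ) +
        sharp_i (X < mE e ∧ s - δ ≤ tE e ∧ tE e < t + 2 * δ) +
        sharp_i (s - δ ≤ tE e ∧ tE e < s) + sharp_i (t ≤ tE e ∧ tE e < t + 2 * δ) := by
    intro e _
    rw [← mul_sub, norm_mul]
    unfold sharp_W
    rw [← Complex.ofReal_sub, Complex.norm_real, Real.norm_eq_abs]
    calc ‖Φ e‖ * _ ≤ 1 * _ := mul_le_mul_of_nonneg_right (hΦ e) (abs_nonneg _)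
      _ ≤ _ := by
        rw [one_mul]
        exact sharp_point s t δ X (mE e) (tE e) hδ hX
  refine (norm_sum_le_of_le _ e3).trans ?_
  rw [Finset.sum_add_distrib, Finset.sum_add_distrib, Finset.sum_add_distrib]
  have f1 : ∑ e ∈ EN 1 ((1 + δ) * X), sharp_i (mE e ≤ δ * X ∧ s - δ ≤ tE e ∧ tE e < t + 2 * δ) =
      sharp_N (s - δ) (t + 2 * δ) (δ * X) := by
    rw [sharp_sum_i]
    unfold sharp_N
    congr 2
    ext e
    rw [mem_filter, mem_filter, mem_EN one_pos, mem_EN one_pos]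
    constructor
    · rintro ⟨⟨h1, -⟩, h2, h3⟩
      exact ⟨⟨h1, h2⟩, h3⟩
    · rintro ⟨⟨h1, h2⟩, h3⟩
      exact ⟨⟨h1, h2.trans (by nlinarith)⟩, h2, h3⟩
  have f2 : ∑ e ∈ EN 1 ((1 + δ) * X), sharp_i (X < mE e ∧ s - δ ≤ tE e ∧ tE e < t + 2 * δ) =
      sharp_N (s - δ) (t + 2 * δ) ((1 + δ) * X) - sharp_N (s - δ) (t + 2 * δ) X := by
    rw [eq_sub_iff_add_eq]
    have g1 : sharp_N (s - δ) (t + 2 * δ) X =
        ∑ e ∈ EN 1 ((1 + δ) * X), sharp_i (mE e ≤ X ∧ s - δ ≤ tE e ∧ tE e < t + 2 * δ) := by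
      rw [sharp_sum_i]
      unfold sharp_N
      congr 2
      ext e
      rw [mem_filter, mem_filter, mem_EN one_pos, mem_EN one_pos]
      constructor
      · rintro ⟨⟨h1, h2⟩, h3⟩
        exact ⟨⟨h1, h2.trans hle⟩, h2, h3⟩
      · rintro ⟨⟨h1, -⟩, h2, h3⟩
        exact ⟨⟨h1, h2⟩, h3⟩
    rw [g1, ← Finset.sum_add_distrib]
    unfold sharp_N
    rw [← sharp_sum_i]
    refine Finset.sum_congr rfl fun e _ => ?_
    by_cases h : s - δ ≤ tE e ∧ tE e < t + 2 * δ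
    · by_cases h' : mE e ≤ X
      · rw [sharp_i_pos h, sharp_i_neg (p := X < mE e ∧ s - δ ≤ tE e ∧ tE e < t + 2 * δ)
          (fun h'' => absurd h''.1 (not_lt.2 h')), sharp_i_pos ⟨h', h⟩, zero_add]
      · rw [sharp_i_pos h, sharp_i_pos (p := X < mE e ∧ s - δ ≤ tE e ∧ tE e < t + 2 * δ) ⟨not_le.1 h', h⟩,
          sharp_i_neg (fun h'' => h' h''.1), add_zero]
    · rw [sharp_i_neg h, sharp_i_neg (p := X < mE e ∧ s - δ ≤ tE e ∧ tE e < t + 2 * δ) (fun h'' => h h''.2),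
        sharp_i_neg (fun h'' => h h''.2), add_zero]
  have f3 : ∑ e ∈ EN 1 ((1 + δ) * X), sharp_i (s - δ ≤ tE e ∧ tE e < s) = sharp_N (s - δ) s ((1 + δ) * X) := by
    rw [sharp_sum_i]
    rfl
  have f4 : ∑ e ∈ EN 1 ((1 + δ) * X), sharp_i (t ≤ tE e ∧ tE e < t + 2 * δ) = sharp_N t (t + 2 * δ) ((1 + δ) * X) := by
    rw [sharp_sum_i]
    rfl
  rw [f1, f2, f3, f4]

theorem sharp_N_lim {κ : ℝ} (hκ : ∀ s t : ℝ, s ≤ t → Tendsto (fun x : ℝ =>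
    (((EN 1 x).filter (fun e => s ≤ tE e ∧ tE e < t)).card : ℝ) / x) atTop (nhds (κ * (t - s))))
    (a b c : ℝ) (hab : a ≤ b) (hc : 0 < c) :
    Tendsto (fun X : ℝ => sharp_N a b (c * X) / X) atTop (nhds (c * (κ * (b - a)))) := by
  have h1 := ((hκ a b hab).comp (tendsto_id.const_mul_atTop hc)).const_mul c
  refine h1.congr' ?_
  filter_upwards [eventually_gt_atTop 0] with X hX
  show c * (sharp_N a b (c * X) / (c * X)) = _
  field_simp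

/-- PROOF. Let `0 < δ < 1`, `W y u = α y * β u` (real, continuous, between 0 and 1): `α = 1` on `[δ, 1]`, `0` outside `[δ/2, 1 + δ]`; `β = 1` on `[s, t]`, `0` outside `[s - δ, t + δ]`: `TF (1+δ) W`. The
difference of the sharp sum and `∑_(EN 1 ((1+δ) X)) Φ W` is at most the number of `e ∈ EN 1 ((1 + δ) X)` with (`mE ≤ δ X` or `mE > X`) and `s - 1 ≤ tE < t + 2`, or with
`tE` within `δ` of `s` or of `t`; by `en_lim` (`#(EN 1 (δ X))`, `#(EN 1 ((1+δ) X)) - #(EN 1 X)` with the condition, ...) its limsup divided by `X` is `≤ C δ`. -/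
theorem sharp (Φ : G × G → ℂ) (hΦ : ∀ e, ‖Φ e‖ ≤ 1)
    (H : ∀ (b : ℝ) (W : ℝ → ℝ → ℂ), TF b W →
      Tendsto (fun X : ℝ => (∑ e ∈ EN 1 (b * X), Φ e * W (mE e / X) (tE e)) / X) atTop (nhds 0))
    (s t : ℝ) (hst : s ≤ t) :
    Tendsto (fun X : ℝ => (∑ e ∈ (EN 1 X).filter (fun e => s ≤ tE e ∧ tE e ≤ t), Φ e) / X) atTop (nhds 0) := by
  obtain ⟨κ, hκ0, hκ⟩ := en_lim
  rw [Metric.tendsto_nhds]
  intro ε hε
  -- choice of `δ`
  obtain ⟨δ, hδ, hδ1, hδε⟩ : ∃ δ : ℝ, 0 < δ ∧ δ ≤ 1 ∧ κ * δ * (2 * (t - s) + 12) < ε / 2 := by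
    refine ⟨min 1 (ε / (4 * (κ * (2 * (t - s) + 12) + 1))), ?_, min_le_left _ _, ?_⟩
    · apply lt_min one_pos
      have : 0 ≤ κ * (2 * (t - s) + 12) := mul_nonneg hκ0 (by linarith)
      positivity
    · have h0 : 0 ≤ κ * (2 * (t - s) + 12) := mul_nonneg hκ0 (by linarith)
      have h1 : min 1 (ε / (4 * (κ * (2 * (t - s) + 12) + 1))) ≤ ε / (4 * (κ * (2 * (t - s) + 12) + 1)) :=
        min_le_right _ _
      have h2 : κ * (2 * (t - s) + 12) * min 1 (ε / (4 * (κ * (2 * (t - s) + 12) + 1))) ≤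
          κ * (2 * (t - s) + 12) * (ε / (4 * (κ * (2 * (t - s) + 12) + 1))) :=
        mul_le_mul_of_nonneg_left h1 h0
      have h3 : κ * (2 * (t - s) + 12) * (ε / (4 * (κ * (2 * (t - s) + 12) + 1))) ≤ ε / 4 := by
        rw [mul_div_assoc', div_le_div_iff₀ (by positivity) (by norm_num)]
        nlinarith
      nlinarith
  have h1 := H (1 + δ) (sharp_W s t δ) (sharp_TF s t δ hδ)
  have h2 : Tendsto (fun X : ℝ => sharp_N (s - δ) (t + 2 * δ) (δ * X) / X +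
      (sharp_N (s - δ) (t + 2 * δ) ((1 + δ) * X) / X - sharp_N (s - δ) (t + 2 * δ) (1 * X) / X) +
      sharp_N (s - δ) s ((1 + δ) * X) / X + sharp_N t (t + 2 * δ) ((1 + δ) * X) / X) atTop
      (nhds (δ * (κ * (t + 2 * δ - (s - δ))) + ((1 + δ) * (κ * (t + 2 * δ - (s - δ))) -
        1 * (κ * (t + 2 * δ - (s - δ)))) + (1 + δ) * (κ * (s - (s - δ))) + (1 + δ) * (κ * (t + 2 * δ - t)))) :=
    ((((sharp_N_lim hκ _ _ _ (by linarith) hδ).add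
      ((sharp_N_lim hκ _ _ _ (by linarith) (by linarith)).sub
        (sharp_N_lim hκ _ _ _ (by linarith) one_pos))).add
      (sharp_N_lim hκ _ _ _ (by linarith) (by linarith))).add
      (sharp_N_lim hκ _ _ _ (by linarith) (by linarith)))
  have h3 : δ * (κ * (t + 2 * δ - (s - δ))) + ((1 + δ) * (κ * (t + 2 * δ - (s - δ))) -
        1 * (κ * (t + 2 * δ - (s - δ)))) + (1 + δ) * (κ * (s - (s - δ))) + (1 + δ) * (κ * (t + 2 * δ - t)) <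
        ε / 2 := by
    have h4 : δ * (κ * (t + 2 * δ - (s - δ))) + ((1 + δ) * (κ * (t + 2 * δ - (s - δ))) -
        1 * (κ * (t + 2 * δ - (s - δ)))) + (1 + δ) * (κ * (s - (s - δ))) + (1 + δ) * (κ * (t + 2 * δ - t)) =
        κ * δ * (2 * (t - s) + 3 + 9 * δ) := by ring
    rw [h4]
    refine lt_of_le_of_lt ?_ hδε
    exact mul_le_mul_of_nonneg_left (by linarith) (mul_nonneg hκ0 hδ.le)
  have h5 := (tendsto_order.1 h2).2 _ h3
  have h6 := (Metric.tendsto_nhds.1 h1) (ε / 2) (by linarith)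
  filter_upwards [h5, h6, eventually_gt_atTop 0] with X g1 g2 hX
  rw [dist_zero_right] at g2 ⊢
  have g3 := sharp_diff Φ hΦ s t δ X hδ hX
  rw [one_mul] at g1
  set F := ∑ e ∈ (EN 1 X).filter (fun e => s ≤ tE e ∧ tE e ≤ t), Φ e with hF
  set K := ∑ e ∈ EN 1 ((1 + δ) * X), Φ e * sharp_W s t δ (mE e / X) (tE e) with hK
  have g4 : F / X = (F - K) / X + K / X := by ring
  rw [g4]
  have g5 : ‖(F - K) / (X : ℂ)‖ < ε / 2 := by
    rw [norm_div, Complex.norm_real, Real.norm_eq_abs, abs_of_pos hX]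
    refine lt_of_le_of_lt (div_le_div_of_nonneg_right g3 hX.le) ?_
    refine lt_of_eq_of_lt ?_ g1
    ring
  calc ‖(F - K) / (X : ℂ) + K / X‖ ≤ ‖(F - K) / (X : ℂ)‖ + ‖K / (X : ℂ)‖ := norm_add_le _ _
    _ < ε / 2 + ε / 2 := add_lt_add g5 g2
    _ = ε := by ring

end Pool.Agent.OmEq

end

/-! ### from `Lib_MP_92ef0c_sp.Sharp3` -/

section

/-!
# Sharp cut-offs
-/

set_option autoImplicit false

namespace Pool.Agent.Spl

open Finset Pool.Agent.GaussMR Pool.Agent.OmAll Pool.Agent.OmEq MeasureTheory Filter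

/-! ### trapezoids -/

theorem sh3_tz_supp {a b δ : ℝ} (hδ : 0 < δ) {y : ℝ} (hy : y ∉ Set.Icc (a - δ) (b + δ)) : sharp_tz a b δ y = 0 := by
  rw [Set.mem_Icc, not_and_or, not_le, not_le] at hy
  rcases hy with hy | hy
  · exact sharp_tz_zero_left hδ hy.le
  · exact sharp_tz_zero_right hδ hy.le

theorem sh3_tz_int {a b δ : ℝ} (hδ : 0 < δ) : Integrable (sharp_tz a b δ) := by
  apply (sharp_tz_cont a b δ).integrable_of_hasCompactSupport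
  exact HasCompactSupport.intro (isCompact_Icc (a := a - δ) (b := b + δ)) (fun y hy => sh3_tz_supp hδ hy)

theorem sh3_tz_ub {a b δ : ℝ} (hδ : 0 < δ) (hab : a ≤ b) : ∫ y, sharp_tz a b δ y ≤ b - a + 2 * δ := by
  have h1 : ∫ y, sharp_tz a b δ y ≤ ∫ y, (Set.Icc (a - δ) (b + δ)).indicator (fun _ => (1 : ℝ)) y := by
    apply integral_mono (sh3_tz_int hδ)
    · exact (integrable_indicator_iff measurableSet_Icc).2 (integrableOn_const (by simp))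
    · intro y
      by_cases hy : y ∈ Set.Icc (a - δ) (b + δ)
      · rw [Set.indicator_of_mem hy]
        exact sharp_tz_le_one _ _ _ _
      · rw [Set.indicator_of_notMem hy, sh3_tz_supp hδ hy]
  rw [integral_indicator measurableSet_Icc, setIntegral_const, smul_eq_mul, mul_one, Real.volume_real_Icc_of_le (by linarith)] at h1
  linarith

theorem sh3_tz_lb {a b δ : ℝ} (hδ : 0 < δ) (hab : a ≤ b) : b - a ≤ ∫ y, sharp_tz a b δ y := by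
  have h1 : ∫ y, (Set.Icc a b).indicator (fun _ => (1 : ℝ)) y ≤ ∫ y, sharp_tz a b δ y := by
    apply integral_mono _ (sh3_tz_int hδ)
    · intro y
      by_cases hy : y ∈ Set.Icc a b
      · rw [Set.indicator_of_mem hy, sharp_tz_one hδ hy.1 hy.2]
      · rw [Set.indicator_of_notMem hy]
        exact sharp_tz_nonneg _ _ _ _
    · exact (integrable_indicator_iff measurableSet_Icc).2 (integrableOn_const (by simp))
  rw [integral_indicator measurableSet_Icc, setIntegral_const, smul_eq_mul, mul_one, Real.volume_real_Icc_of_le hab] at h1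
  exact h1

/-- product of three trapezoids -/
noncomputable def sh3_b (a1 b1 e1 a2 b2 e2 a3 b3 e3 y t u : ℝ) : ℝ :=
  sharp_tz a1 b1 e1 y * sharp_tz a2 b2 e2 t * sharp_tz a3 b3 e3 u

theorem sh3_b_nonneg (a1 b1 e1 a2 b2 e2 a3 b3 e3 y t u : ℝ) : 0 ≤ sh3_b a1 b1 e1 a2 b2 e2 a3 b3 e3 y t u :=
  mul_nonneg (mul_nonneg (sharp_tz_nonneg _ _ _ _) (sharp_tz_nonneg _ _ _ _)) (sharp_tz_nonneg _ _ _ _)

theorem sh3_b_le_one (a1 b1 e1 a2 b2 e2 a3 b3 e3 y t u : ℝ) : sh3_b a1 b1 e1 a2 b2 e2 a3 b3 e3 y t u ≤ 1 :=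
  mul_le_one₀ (mul_le_one₀ (sharp_tz_le_one _ _ _ _) (sharp_tz_nonneg _ _ _ _) (sharp_tz_le_one _ _ _ _))
    (sharp_tz_nonneg _ _ _ _) (sharp_tz_le_one _ _ _ _)

theorem sh3_b_one {a1 b1 e1 a2 b2 e2 a3 b3 e3 y t u : ℝ} (h1 : 0 < e1) (h2 : 0 < e2) (h3 : 0 < e3)
    (hy : a1 ≤ y) (hy' : y ≤ b1) (ht : a2 ≤ t) (ht' : t ≤ b2) (hu : a3 ≤ u) (hu' : u ≤ b3) :
    sh3_b a1 b1 e1 a2 b2 e2 a3 b3 e3 y t u = 1 := by
  unfold sh3_b
  rw [sharp_tz_one h1 hy hy', sharp_tz_one h2 ht ht', sharp_tz_one h3 hu hu']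
  norm_num

theorem sh3_TR {a1 b1 e1 a2 b2 e2 a3 b3 e3 : ℝ} (h1 : 0 < e1) (h2 : 0 < e2) (h3 : 0 < e3) (hl : 0 ≤ a1 - e1)
    (hh : b1 + e1 ≤ 3) : TR 3 (sh3_b a1 b1 e1 a2 b2 e2 a3 b3 e3) := by
  refine ⟨?_, ?_, ?_, ?_⟩
  · unfold sh3_b
    exact (((sharp_tz_cont _ _ _).comp continuous_fst).mul
      ((sharp_tz_cont _ _ _).comp (continuous_fst.comp continuous_snd))).mul
      ((sharp_tz_cont _ _ _).comp (continuous_snd.comp continuous_snd))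
  · refine HasCompactSupport.intro (K := Set.Icc (a1 - e1) (b1 + e1) ×ˢ (Set.Icc (a2 - e2) (b2 + e2) ×ˢ
      Set.Icc (a3 - e3) (b3 + e3))) (isCompact_Icc.prod (isCompact_Icc.prod isCompact_Icc)) ?_
    rintro ⟨y, t, u⟩ hx
    show sh3_b a1 b1 e1 a2 b2 e2 a3 b3 e3 y t u = 0
    unfold sh3_b
    by_cases g1 : y ∈ Set.Icc (a1 - e1) (b1 + e1)
    · by_cases g2 : t ∈ Set.Icc (a2 - e2) (b2 + e2)
      · by_cases g3 : u ∈ Set.Icc (a3 - e3) (b3 + e3)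
        · exact absurd ⟨g1, g2, g3⟩ hx
        · rw [sh3_tz_supp h3 g3, mul_zero]
      · rw [sh3_tz_supp h2 g2, mul_zero, zero_mul]
    · rw [sh3_tz_supp h1 g1, zero_mul, zero_mul]
  · intro y t u hy
    unfold sh3_b
    rw [sharp_tz_zero_left h1 (by linarith), zero_mul, zero_mul]
  · intro y t u hy
    unfold sh3_b
    rw [sharp_tz_zero_right h1 (by linarith), zero_mul, zero_mul]

theorem sh3_b_integral (a1 b1 e1 a2 b2 e2 a3 b3 e3 : ℝ) :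
    (∫ y, ∫ t, ∫ u, sh3_b a1 b1 e1 a2 b2 e2 a3 b3 e3 y t u) =
      (∫ y, sharp_tz a1 b1 e1 y) * (∫ t, sharp_tz a2 b2 e2 t) * (∫ u, sharp_tz a3 b3 e3 u) := by
  unfold sh3_b
  simp only [integral_const_mul, integral_mul_const]

theorem sh3_b_ub {a1 b1 e1 a2 b2 e2 a3 b3 e3 : ℝ} (h1 : 0 < e1) (h2 : 0 < e2) (h3 : 0 < e3) (l1 : a1 ≤ b1)
    (l2 : a2 ≤ b2) (l3 : a3 ≤ b3) {c1 c2 c3 : ℝ} (k1 : b1 - a1 + 2 * e1 ≤ c1) (k2 : b2 - a2 + 2 * e2 ≤ c2)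
    (k3 : b3 - a3 + 2 * e3 ≤ c3) :
    (∫ y, ∫ t, ∫ u, sh3_b a1 b1 e1 a2 b2 e2 a3 b3 e3 y t u) ≤ c1 * c2 * c3 := by
  rw [sh3_b_integral]
  have i1 := sh3_tz_ub h1 l1
  have i2 := sh3_tz_ub h2 l2
  have i3 := sh3_tz_ub h3 l3
  have j1 := sh3_tz_lb h1 l1
  have j2 := sh3_tz_lb h2 l2
  have j3 := sh3_tz_lb h3 l3
  have p1 : 0 ≤ ∫ y, sharp_tz a1 b1 e1 y := by linarith
  have p2 : 0 ≤ ∫ y, sharp_tz a2 b2 e2 y := by linarith
  have p3 : 0 ≤ ∫ y, sharp_tz a3 b3 e3 y := by linarith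
  have q1 : 0 ≤ c1 := by linarith
  have q2 : 0 ≤ c2 := by linarith
  exact mul_le_mul (mul_le_mul (by linarith) (by linarith) p2 q1) (by linarith) p3 (mul_nonneg q1 q2)

theorem sh3_b_int_nonneg {a1 b1 e1 a2 b2 e2 a3 b3 e3 : ℝ} (h1 : 0 < e1) (h2 : 0 < e2) (h3 : 0 < e3) (l1 : a1 ≤ b1)
    (l2 : a2 ≤ b2) (l3 : a3 ≤ b3) :
    0 ≤ (∫ y, ∫ t, ∫ u, sh3_b a1 b1 e1 a2 b2 e2 a3 b3 e3 y t u) := by
  rw [sh3_b_integral]
  have j1 := sh3_tz_lb h1 l1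
  have j2 := sh3_tz_lb h2 l2
  have j3 := sh3_tz_lb h3 l3
  exact mul_nonneg (mul_nonneg (by linarith) (by linarith)) (by linarith)

/-- the error function -/
noncomputable def sh3_G (t1 t2 u1 u2 δ y t u : ℝ) : ℝ :=
  sh3_b 1 (1 + δ) δ (t1 - δ) (t2 + δ) δ (u1 - δ) (u2 + δ) δ y t u +
  sh3_b δ (1 + δ) (δ / 2) (t1 - δ) t1 δ (u1 - δ) (u2 + δ) δ y t u +
  sh3_b δ (1 + δ) (δ / 2) t2 (t2 + δ) δ (u1 - δ) (u2 + δ) δ y t u +
  sh3_b δ (1 + δ) (δ / 2) (t1 - δ) (t2 + δ) δ (u1 - δ) u1 δ y t u +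
  sh3_b δ (1 + δ) (δ / 2) (t1 - δ) (t2 + δ) δ u2 (u2 + δ) δ y t u

theorem sh3_point (t1 t2 u1 u2 δ B X y t u : ℝ) (hδ : 0 < δ) (hδ' : δ ≤ 1 / 2) (hX : 0 < X)
    (b1 : -B ≤ t1 - 1) (b2 : t2 + 1 ≤ B) (b3 : -B ≤ u1 - 1) (b4 : u2 + 1 ≤ B) :
    |sharp_i (y ≤ X ∧ (t1 ≤ t ∧ t ≤ t2) ∧ (u1 ≤ u ∧ u ≤ u2)) - sh3_b δ 1 (δ / 2) t1 t2 δ u1 u2 δ (y / X) t u| ≤
      sharp_i (y ≤ δ * X ∧ |t| ≤ B ∧ |u| ≤ B) + sh3_G t1 t2 u1 u2 δ (y / X) t u := by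
  have a0 := sharp_i_nonneg (y ≤ δ * X ∧ |t| ≤ B ∧ |u| ≤ B)
  have g1 := sh3_b_nonneg 1 (1 + δ) δ (t1 - δ) (t2 + δ) δ (u1 - δ) (u2 + δ) δ (y / X) t u
  have g2 := sh3_b_nonneg δ (1 + δ) (δ / 2) (t1 - δ) t1 δ (u1 - δ) (u2 + δ) δ (y / X) t u
  have g3 := sh3_b_nonneg δ (1 + δ) (δ / 2) t2 (t2 + δ) δ (u1 - δ) (u2 + δ) δ (y / X) t u
  have g4 := sh3_b_nonneg δ (1 + δ) (δ / 2) (t1 - δ) (t2 + δ) δ (u1 - δ) u1 δ (y / X) t u
  have g5 := sh3_b_nonneg δ (1 + δ) (δ / 2) (t1 - δ) (t2 + δ) δ u2 (u2 + δ) δ (y / X) t u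
  have b : |sharp_i (y ≤ X ∧ (t1 ≤ t ∧ t ≤ t2) ∧ (u1 ≤ u ∧ u ≤ u2)) -
      sh3_b δ 1 (δ / 2) t1 t2 δ u1 u2 δ (y / X) t u| ≤ 1 := by
    have c1 := sh3_b_nonneg δ 1 (δ / 2) t1 t2 δ u1 u2 δ (y / X) t u
    have c2 := sh3_b_le_one δ 1 (δ / 2) t1 t2 δ u1 u2 δ (y / X) t u
    have c7 := sharp_i_nonneg (y ≤ X ∧ (t1 ≤ t ∧ t ≤ t2) ∧ (u1 ≤ u ∧ u ≤ u2))
    have c8 : sharp_i (y ≤ X ∧ (t1 ≤ t ∧ t ≤ t2) ∧ (u1 ≤ u ∧ u ≤ u2)) ≤ 1 := by
      classical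
      unfold sharp_i
      split_ifs <;> simp
    rw [abs_le]
    constructor <;> linarith
  have hG : 0 ≤ sh3_G t1 t2 u1 u2 δ (y / X) t u := by
    unfold sh3_G
    linarith
  by_cases h1 : t < t1 - δ
  · unfold sh3_b
    rw [sharp_tz_zero_left (a := t1) (b := t2) hδ h1.le, sharp_i_neg (p := y ≤ X ∧ (t1 ≤ t ∧ t ≤ t2) ∧ (u1 ≤ u ∧ u ≤ u2))
      (by rintro ⟨-, ⟨h, -⟩, -⟩; linarith)]
    simp only [mul_zero, zero_mul, sub_zero, abs_zero]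
    linarith
  by_cases h2 : t2 + δ < t
  · unfold sh3_b
    rw [sharp_tz_zero_right (a := t1) (b := t2) hδ h2.le, sharp_i_neg (p := y ≤ X ∧ (t1 ≤ t ∧ t ≤ t2) ∧ (u1 ≤ u ∧ u ≤ u2))
      (by rintro ⟨-, ⟨-, h⟩, -⟩; linarith)]
    simp only [mul_zero, zero_mul, sub_zero, abs_zero]
    linarith
  by_cases h3 : u < u1 - δ
  · unfold sh3_b
    rw [sharp_tz_zero_left (a := u1) (b := u2) hδ h3.le, sharp_i_neg (p := y ≤ X ∧ (t1 ≤ t ∧ t ≤ t2) ∧ (u1 ≤ u ∧ u ≤ u2))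
      (by rintro ⟨-, -, ⟨h, -⟩⟩; linarith)]
    simp only [mul_zero, sub_zero, abs_zero]
    linarith
  by_cases h4 : u2 + δ < u
  · unfold sh3_b
    rw [sharp_tz_zero_right (a := u1) (b := u2) hδ h4.le, sharp_i_neg (p := y ≤ X ∧ (t1 ≤ t ∧ t ≤ t2) ∧ (u1 ≤ u ∧ u ≤ u2))
      (by rintro ⟨-, -, ⟨-, h⟩⟩; linarith)]
    simp only [mul_zero, sub_zero, abs_zero]
    linarith
  rw [not_lt] at h1 h2 h3 h4
  by_cases h5 : y ≤ δ * X
  · have ht : |t| ≤ B := abs_le.2 ⟨by linarith, by linarith⟩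
    have hu : |u| ≤ B := abs_le.2 ⟨by linarith, by linarith⟩
    have := sharp_i_pos (p := y ≤ δ * X ∧ |t| ≤ B ∧ |u| ≤ B) ⟨h5, ht, hu⟩
    linarith
  rw [not_le] at h5
  have hy1 : δ < y / X := (lt_div_iff₀ hX).2 h5
  by_cases h6 : (1 + δ) * X < y
  · have h7 : 1 + δ < y / X := (lt_div_iff₀ hX).2 h6
    unfold sh3_b
    rw [sharp_tz_zero_right (a := δ) (b := 1) (by linarith) (by linarith),
      sharp_i_neg (p := y ≤ X ∧ (t1 ≤ t ∧ t ≤ t2) ∧ (u1 ≤ u ∧ u ≤ u2))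
      (by rintro ⟨h, -⟩; nlinarith)]
    simp only [zero_mul, sub_zero, abs_zero]
    linarith
  rw [not_lt] at h6
  have hy2 : y / X ≤ 1 + δ := (div_le_iff₀ hX).2 h6
  by_cases h7 : X < y
  · have h8 : 1 ≤ y / X := (one_le_div hX).2 h7.le
    have := sh3_b_one (a1 := 1) (b1 := 1 + δ) (e1 := δ) (a2 := t1 - δ) (b2 := t2 + δ) (e2 := δ) (a3 := u1 - δ)
      (b3 := u2 + δ) (e3 := δ) hδ hδ hδ h8 hy2 h1 h2 h3 h4
    unfold sh3_G
    linarith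
  rw [not_lt] at h7
  by_cases h8 : t < t1
  · have := sh3_b_one (a1 := δ) (b1 := 1 + δ) (e1 := δ / 2) (a2 := t1 - δ) (b2 := t1) (e2 := δ) (a3 := u1 - δ)
      (b3 := u2 + δ) (e3 := δ) (by linarith) hδ hδ hy1.le hy2 h1 h8.le h3 h4
    unfold sh3_G
    linarith
  by_cases h9 : t2 < t
  · have := sh3_b_one (a1 := δ) (b1 := 1 + δ) (e1 := δ / 2) (a2 := t2) (b2 := t2 + δ) (e2 := δ) (a3 := u1 - δ)
      (b3 := u2 + δ) (e3 := δ) (by linarith) hδ hδ hy1.le hy2 h9.le h2 h3 h4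
    unfold sh3_G
    linarith
  by_cases h10 : u < u1
  · have := sh3_b_one (a1 := δ) (b1 := 1 + δ) (e1 := δ / 2) (a2 := t1 - δ) (b2 := t2 + δ) (e2 := δ) (a3 := u1 - δ)
      (b3 := u1) (e3 := δ) (by linarith) hδ hδ hy1.le hy2 h1 h2 h3 h10.le
    unfold sh3_G
    linarith
  by_cases h11 : u2 < u
  · have := sh3_b_one (a1 := δ) (b1 := 1 + δ) (e1 := δ / 2) (a2 := t1 - δ) (b2 := t2 + δ) (e2 := δ) (a3 := u2)
      (b3 := u2 + δ) (e3 := δ) (by linarith) hδ hδ hy1.le hy2 h1 h2 h11.le h4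
    unfold sh3_G
    linarith
  rw [not_lt] at h8 h9 h10 h11
  rw [sharp_i_pos (p := y ≤ X ∧ (t1 ≤ t ∧ t ≤ t2) ∧ (u1 ≤ u ∧ u ≤ u2)) ⟨h7, ⟨h8, h9⟩, h10, h11⟩,
    sh3_b_one (by linarith) hδ hδ hy1.le ((div_le_one hX).2 h7) h8 h9 h10 h11]
  simp only [sub_self, abs_zero]
  linarith

theorem sh3_sum_i (S : Finset Q4) (p : Q4 → Prop) [DecidablePred p] :
    ∑ e ∈ S, sharp_i (p e) = ((S.filter p).card : ℝ) := by
  rw [Finset.card_filter]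
  push_cast
  refine Finset.sum_congr rfl fun e _ => ?_
  by_cases h : p e
  · rw [sharp_i_pos h, if_pos h]
  · rw [sharp_i_neg h, if_neg h]

open Classical in
theorem sh3_diff (n : ℕ) (Φ : Q4 → ℂ) (hΦ : ∀ e, ‖Φ e‖ ≤ 1) (t1 t2 u1 u2 δ B X : ℝ) (hδ : 0 < δ) (hδ' : δ ≤ 1 / 2)
    (hX : 0 < X) (b1 : -B ≤ t1 - 1) (b2 : t2 + 1 ≤ B) (b3 : -B ≤ u1 - 1) (b4 : u2 + 1 ≤ B) :
    ‖(∑ e ∈ (SN n X).filter (fun e => (t1 ≤ tS e ∧ tS e ≤ t2) ∧ (u1 ≤ uS e ∧ uS e ≤ u2)), Φ e) -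
      ∑ e ∈ SN n (3 * X), Φ e * ((sh3_b δ 1 (δ / 2) t1 t2 δ u1 u2 δ (yS e / X) (tS e) (uS e) : ℝ) : ℂ)‖ ≤
      (((SN n (δ * X)).filter (fun e => |tS e| ≤ B ∧ |uS e| ≤ B)).card : ℝ) +
        ∑ e ∈ SN n (3 * X), sh3_G t1 t2 u1 u2 δ (yS e / X) (tS e) (uS e) := by
  have hle : X ≤ 3 * X := by linarith
  have e1 : (∑ e ∈ (SN n X).filter (fun e => (t1 ≤ tS e ∧ tS e ≤ t2) ∧ (u1 ≤ uS e ∧ uS e ≤ u2)), Φ e) =
      ∑ e ∈ SN n (3 * X), Φ e * (sharp_i (yS e ≤ X ∧ (t1 ≤ tS e ∧ tS e ≤ t2) ∧ (u1 ≤ uS e ∧ uS e ≤ u2)) : ℂ) := by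
    have e2 : (SN n X).filter (fun e => (t1 ≤ tS e ∧ tS e ≤ t2) ∧ (u1 ≤ uS e ∧ uS e ≤ u2)) =
        (SN n (3 * X)).filter (fun e => yS e ≤ X ∧ (t1 ≤ tS e ∧ tS e ≤ t2) ∧ (u1 ≤ uS e ∧ uS e ≤ u2)) := by
      ext e
      rw [mem_filter, mem_filter, mem_SN, mem_SN]
      constructor
      · rintro ⟨⟨h1, h2⟩, h3⟩
        exact ⟨⟨h1, h2.trans hle⟩, h2, h3⟩
      · rintro ⟨⟨h1, -⟩, h2, h3⟩
        exact ⟨⟨h1, h2⟩, h3⟩
    rw [e2, Finset.sum_filter]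
    refine Finset.sum_congr rfl fun e _ => ?_
    by_cases h : yS e ≤ X ∧ (t1 ≤ tS e ∧ tS e ≤ t2) ∧ (u1 ≤ uS e ∧ uS e ≤ u2)
    · rw [if_pos h, sharp_i_pos h]
      simp
    · rw [if_neg h, sharp_i_neg h]
      simp
  rw [e1, ← Finset.sum_sub_distrib]
  have e3 : ∀ e ∈ SN n (3 * X), ‖Φ e * (sharp_i (yS e ≤ X ∧ (t1 ≤ tS e ∧ tS e ≤ t2) ∧ (u1 ≤ uS e ∧ uS e ≤ u2)) : ℂ) -
      Φ e * ((sh3_b δ 1 (δ / 2) t1 t2 δ u1 u2 δ (yS e / X) (tS e) (uS e) : ℝ) : ℂ)‖ ≤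
      sharp_i (yS e ≤ δ * X ∧ |tS e| ≤ B ∧ |uS e| ≤ B) + sh3_G t1 t2 u1 u2 δ (yS e / X) (tS e) (uS e) := by
    intro e _
    rw [← mul_sub, norm_mul, ← Complex.ofReal_sub, Complex.norm_real, Real.norm_eq_abs]
    calc ‖Φ e‖ * _ ≤ 1 * _ := mul_le_mul_of_nonneg_right (hΦ e) (abs_nonneg _)
      _ ≤ _ := by
        rw [one_mul]
        exact sh3_point t1 t2 u1 u2 δ B X (yS e) (tS e) (uS e) hδ hδ' hX b1 b2 b3 b4
  refine (norm_sum_le_of_le _ e3).trans ?_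
  rw [Finset.sum_add_distrib]
  have f1 : ∑ e ∈ SN n (3 * X), sharp_i (yS e ≤ δ * X ∧ |tS e| ≤ B ∧ |uS e| ≤ B) =
      (((SN n (δ * X)).filter (fun e => |tS e| ≤ B ∧ |uS e| ≤ B)).card : ℝ) := by
    rw [sh3_sum_i]
    congr 2
    ext e
    rw [mem_filter, mem_filter, mem_SN, mem_SN]
    constructor
    · rintro ⟨⟨h1, -⟩, h2, h3⟩
      exact ⟨⟨h1, h2⟩, h3⟩
    · rintro ⟨⟨h1, h2⟩, h3⟩
      exact ⟨⟨h1, h2.trans (by nlinarith)⟩, h2, h3⟩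
  rw [f1]

theorem sh3_J {δ T U J1 J2 J3 J4 J5 : ℝ} (hδ : 0 < δ) (hT0 : 0 ≤ T) (hU0 : 0 ≤ U)
    (k1 : J1 ≤ 3 * δ * (T + 2) * (U + 2)) (k2 : J2 ≤ 2 * (3 * δ) * (U + 2)) (k3 : J3 ≤ 2 * (3 * δ) * (U + 2))
    (k4 : J4 ≤ 2 * (T + 2) * (3 * δ)) (k5 : J5 ≤ 2 * (T + 2) * (3 * δ)) :
    J1 + J2 + J3 + J4 + J5 ≤ 15 * δ * ((T + 2) * (U + 2)) := by
  have e1 : 2 * (3 * δ) * (U + 2) ≤ 3 * δ * ((T + 2) * (U + 2)) := by
    have : 0 ≤ 3 * δ * (T * (U + 2)) := by positivity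
    nlinarith
  have e2 : 2 * (T + 2) * (3 * δ) ≤ 3 * δ * ((T + 2) * (U + 2)) := by
    have : 0 ≤ 3 * δ * (U * (T + 2)) := by positivity
    nlinarith
  linarith

theorem sh3_I {δ T U A1 A2 A3 : ℝ} (hδ : 0 < δ) (hδ1 : δ ≤ 1 / 2) (hT0 : 0 ≤ T) (hU0 : 0 ≤ U)
    (k1 : A1 ≤ 1) (k1' : 1 - δ ≤ A1) (k2 : A2 ≤ T + 2 * δ) (k3 : A3 ≤ U + 2 * δ) (l2 : T ≤ A2) (l3 : U ≤ A3) :
    |A1 * A2 * A3 - T * U| ≤ 3 * δ * ((T + 2) * (U + 2)) := by
  have m23 : 0 ≤ A2 * A3 := mul_nonneg (by linarith) (by linarith)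
  have n1 : A2 * A3 ≤ (T + 2 * δ) * (U + 2 * δ) := mul_le_mul k2 k3 (by linarith) (by linarith)
  have n2 : T * U ≤ A2 * A3 := mul_le_mul l2 l3 hU0 (by linarith)
  have n3 : (T + 2 * δ) * (U + 2 * δ) ≤ T * U + 2 * δ * ((T + 2) * (U + 2)) := by
    have e1 : 0 ≤ δ * (T * U) := by positivity
    have e2 : 0 ≤ δ * T := by positivity
    have e3 : 0 ≤ δ * U := by positivity
    nlinarith
  have n4 : (1 - A1) * (A2 * A3) ≤ δ * ((T + 2) * (U + 2)) := by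
    have o1 : 1 - A1 ≤ δ := by linarith
    have o2 : A2 * A3 ≤ (T + 2) * (U + 2) := by
      refine n1.trans ?_
      exact mul_le_mul (by linarith) (by linarith) (by linarith) (by linarith)
    exact mul_le_mul o1 o2 m23 hδ.le
  have n5 : 0 ≤ (1 - A1) * (A2 * A3) := mul_nonneg (by linarith) m23
  have n6 : 0 ≤ δ * ((T + 2) * (U + 2)) := by positivity
  have e : A1 * A2 * A3 - T * U = (A2 * A3 - T * U) - (1 - A1) * (A2 * A3) := by ring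
  rw [e, abs_le]
  constructor <;> linarith

open Classical in
/-- PROOF. Let `0 < δ < 1`, `tz a b` the trapezoid, `1` on `[a, b]`, `0` outside `[a - δ, b + δ]` (`sharp_tz` in `Lib_MP_f1a94e_eq/Sharp.lean`). `Wi y t u` = product of trapezoids, `1` on `[2 δ, 1 - δ] × [t1 + δ, t2 - δ] × [u1 + δ, u2 - δ]`, `0` outside `[δ, 1] × [t1, t2] × [u1, u2]` (take `0` if one of the intervals is too short), and `Wo y t u`, `1` on
`[δ, 1] × [t1, t2] × [u1, u2]`, `0` outside `[δ/2, 1 + δ] × [t1 - δ, t2 + δ] × [u1 - δ, u2 + δ]`. The sharp indicator (`0 < y ≤ 1`) minus `Wo` is, for `y ≥ δ`, between `-(Wo - Wi)` and `0`; for `y < δ` it is bounded by `1` with `|t|, |u| ≤ B`. So the difference of the sharp sum and the sum with `Wo` is at most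
`∑_(SN n ((1+δ) X)) (Wo - Wi) + #{e ∈ SN n (δ X) : |tS|, |uS| ≤ B}`, divided by `X` this is `≤ κ ∫∫∫ (Wo - Wi) + o(1) + C δ` (`hκ`, `cnt3`), and `∫∫∫ (Wo - Wi) ≤ C' δ`; `∫∫∫ Wo = (t2 - t1)(u2 - u1) + O(δ)`. Let `δ → 0`. -/
theorem sharp3 (n : ℕ) (hn : 0 < n) (κ : ℝ) (hκ : ∀ (b : ℝ) (Ψ : ℝ → ℝ → ℝ → ℝ), TR b Ψ →
      Tendsto (fun X : ℝ => (∑ e ∈ SN n (b * X), Ψ (yS e / X) (tS e) (uS e)) / X) atTop (nhds (κ * ∫ y, ∫ t, ∫ u, Ψ y t u)))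
    (Φ : Q4 → ℂ) (hΦ : ∀ e, ‖Φ e‖ ≤ 1) (L : ℂ) (H : ∀ (b : ℝ) (W : ℝ → ℝ → ℝ → ℂ), TS b W →
      Tendsto (fun X : ℝ => (∑ e ∈ SN n (b * X), Φ e * W (yS e / X) (tS e) (uS e)) / X) atTop
        (nhds (L * ∫ y, ∫ t, ∫ u, W y t u)))
    (t1 t2 u1 u2 : ℝ) (ht : t1 ≤ t2) (hu : u1 ≤ u2) :
    Tendsto (fun X : ℝ => (∑ e ∈ (SN n X).filter (fun e => (t1 ≤ tS e ∧ tS e ≤ t2) ∧ (u1 ≤ uS e ∧ uS e ≤ u2)), Φ e) / X)
      atTop (nhds (L * (((t2 - t1) * (u2 - u1) : ℝ) : ℂ))) := by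
  set B : ℝ := |t1| + |t2| + |u1| + |u2| + 1 with hB
  have b1 : -B ≤ t1 - 1 := by
    have := neg_abs_le t1
    have := abs_nonneg t2
    have := abs_nonneg u1
    have := abs_nonneg u2
    linarith
  have b2 : t2 + 1 ≤ B := by
    have := le_abs_self t2
    have := abs_nonneg t1
    have := abs_nonneg u1
    have := abs_nonneg u2
    linarith
  have b3 : -B ≤ u1 - 1 := by
    have := neg_abs_le u1
    have := abs_nonneg t2
    have := abs_nonneg t1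
    have := abs_nonneg u2
    linarith
  have b4 : u2 + 1 ≤ B := by
    have := le_abs_self u2
    have := abs_nonneg t2
    have := abs_nonneg t1
    have := abs_nonneg u1
    linarith
  obtain ⟨C, hC, hcnt⟩ := cnt3 B
  set T : ℝ := t2 - t1 with hT
  set U : ℝ := u2 - u1 with hU
  have hT0 : 0 ≤ T := by linarith
  have hU0 : 0 ≤ U := by linarith
  set M : ℝ := (T + 2) * (U + 2) with hM
  have hM0 : 0 < M := by positivity
  rw [Metric.tendsto_nhds]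
  intro ε hε
  -- choice of `δ`
  set R : ℝ := |κ| * 15 * M + C + ‖L‖ * 3 * M + 1 with hR
  have hR0 : 0 < R := by positivity
  obtain ⟨δ, hδ, hδ1, hδε⟩ : ∃ δ : ℝ, 0 < δ ∧ δ ≤ 1 / 2 ∧ R * δ ≤ ε / 4 := by
    refine ⟨min (1 / 2) (ε / (4 * R)), lt_min (by norm_num) (by positivity), min_le_left _ _, ?_⟩
    calc R * min (1 / 2) (ε / (4 * R)) ≤ R * (ε / (4 * R)) :=
          mul_le_mul_of_nonneg_left (min_le_right _ _) hR0.le
      _ = ε / 4 := by field_simp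
  -- the smooth sum
  have hW : TR 3 (sh3_b δ 1 (δ / 2) t1 t2 δ u1 u2 δ) := sh3_TR (by linarith) hδ hδ (by linarith) (by linarith)
  have hWc : TS 3 (fun y t u => ((sh3_b δ 1 (δ / 2) t1 t2 δ u1 u2 δ y t u : ℝ) : ℂ)) := by
    refine ⟨Complex.continuous_ofReal.comp hW.cont, hW.supp.comp_left (g := fun z : ℝ => (z : ℂ)) (by simp), ?_, ?_⟩
    · intro y t u hy
      rw [hW.lo y t u hy, Complex.ofReal_zero]
    · intro y t u hy
      rw [hW.hi y t u hy, Complex.ofReal_zero]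
  have h1 := H 3 _ hWc
  have hI : (∫ y, ∫ t, ∫ u, ((sh3_b δ 1 (δ / 2) t1 t2 δ u1 u2 δ y t u : ℝ) : ℂ)) =
      ((∫ y, ∫ t, ∫ u, sh3_b δ 1 (δ / 2) t1 t2 δ u1 u2 δ y t u : ℝ) : ℂ) := by
    simp only [integral_complex_ofReal]
  rw [hI] at h1
  set I : ℝ := ∫ y, ∫ t, ∫ u, sh3_b δ 1 (δ / 2) t1 t2 δ u1 u2 δ y t u with hIdef
  have hI1 : |I - T * U| ≤ 3 * δ * M := by
    rw [hIdef, sh3_b_integral]
    have i1 := sh3_tz_ub (a := δ) (b := 1) (δ := δ / 2) (by linarith) (by linarith)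
    have i2 := sh3_tz_ub hδ ht
    have i3 := sh3_tz_ub hδ hu
    have j1 := sh3_tz_lb (a := δ) (b := 1) (δ := δ / 2) (by linarith) (by linarith)
    have j2 := sh3_tz_lb hδ ht
    have j3 := sh3_tz_lb hδ hu
    exact sh3_I hδ hδ1 hT0 hU0 (by linarith) (by linarith) i2 i3 j2 j3
  -- the error function
  have G1 : TR 3 (sh3_b 1 (1 + δ) δ (t1 - δ) (t2 + δ) δ (u1 - δ) (u2 + δ) δ) :=
    sh3_TR hδ hδ hδ (by linarith) (by linarith)
  have G2 : TR 3 (sh3_b δ (1 + δ) (δ / 2) (t1 - δ) t1 δ (u1 - δ) (u2 + δ) δ) :=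
    sh3_TR (by linarith) hδ hδ (by linarith) (by linarith)
  have G3 : TR 3 (sh3_b δ (1 + δ) (δ / 2) t2 (t2 + δ) δ (u1 - δ) (u2 + δ) δ) :=
    sh3_TR (by linarith) hδ hδ (by linarith) (by linarith)
  have G4 : TR 3 (sh3_b δ (1 + δ) (δ / 2) (t1 - δ) (t2 + δ) δ (u1 - δ) u1 δ) :=
    sh3_TR (by linarith) hδ hδ (by linarith) (by linarith)
  have G5 : TR 3 (sh3_b δ (1 + δ) (δ / 2) (t1 - δ) (t2 + δ) δ u2 (u2 + δ) δ) :=
    sh3_TR (by linarith) hδ hδ (by linarith) (by linarith)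
  have k1 := sh3_b_ub (c1 := 3 * δ) (c2 := T + 2) (c3 := U + 2) (a1 := 1) (b1 := 1 + δ) (e1 := δ) (a2 := t1 - δ)
    (b2 := t2 + δ) (e2 := δ) (a3 := u1 - δ) (b3 := u2 + δ) (e3 := δ) hδ hδ hδ (by linarith) (by linarith)
    (by linarith) (by linarith) (by linarith) (by linarith)
  have k2 := sh3_b_ub (c1 := 2) (c2 := 3 * δ) (c3 := U + 2) (a1 := δ) (b1 := 1 + δ) (e1 := δ / 2) (a2 := t1 - δ)
    (b2 := t1) (e2 := δ) (a3 := u1 - δ) (b3 := u2 + δ) (e3 := δ) (by linarith) hδ hδ (by linarith) (by linarith)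
    (by linarith) (by linarith) (by linarith) (by linarith)
  have k3 := sh3_b_ub (c1 := 2) (c2 := 3 * δ) (c3 := U + 2) (a1 := δ) (b1 := 1 + δ) (e1 := δ / 2) (a2 := t2)
    (b2 := t2 + δ) (e2 := δ) (a3 := u1 - δ) (b3 := u2 + δ) (e3 := δ) (by linarith) hδ hδ (by linarith) (by linarith)
    (by linarith) (by linarith) (by linarith) (by linarith)
  have k4 := sh3_b_ub (c1 := 2) (c2 := T + 2) (c3 := 3 * δ) (a1 := δ) (b1 := 1 + δ) (e1 := δ / 2) (a2 := t1 - δ)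
    (b2 := t2 + δ) (e2 := δ) (a3 := u1 - δ) (b3 := u1) (e3 := δ) (by linarith) hδ hδ (by linarith) (by linarith)
    (by linarith) (by linarith) (by linarith) (by linarith)
  have k5 := sh3_b_ub (c1 := 2) (c2 := T + 2) (c3 := 3 * δ) (a1 := δ) (b1 := 1 + δ) (e1 := δ / 2) (a2 := t1 - δ)
    (b2 := t2 + δ) (e2 := δ) (a3 := u2) (b3 := u2 + δ) (e3 := δ) (by linarith) hδ hδ (by linarith) (by linarith)
    (by linarith) (by linarith) (by linarith) (by linarith)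
  have p1 := sh3_b_int_nonneg (a1 := 1) (b1 := 1 + δ) (e1 := δ) (a2 := t1 - δ) (b2 := t2 + δ) (e2 := δ)
    (a3 := u1 - δ) (b3 := u2 + δ) (e3 := δ) hδ hδ hδ (by linarith) (by linarith) (by linarith)
  have p2 := sh3_b_int_nonneg (a1 := δ) (b1 := 1 + δ) (e1 := δ / 2) (a2 := t1 - δ) (b2 := t1) (e2 := δ)
    (a3 := u1 - δ) (b3 := u2 + δ) (e3 := δ) (by linarith) hδ hδ (by linarith) (by linarith) (by linarith)
  have p3 := sh3_b_int_nonneg (a1 := δ) (b1 := 1 + δ) (e1 := δ / 2) (a2 := t2) (b2 := t2 + δ) (e2 := δ)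
    (a3 := u1 - δ) (b3 := u2 + δ) (e3 := δ) (by linarith) hδ hδ (by linarith) (by linarith) (by linarith)
  have p4 := sh3_b_int_nonneg (a1 := δ) (b1 := 1 + δ) (e1 := δ / 2) (a2 := t1 - δ) (b2 := t2 + δ) (e2 := δ)
    (a3 := u1 - δ) (b3 := u1) (e3 := δ) (by linarith) hδ hδ (by linarith) (by linarith) (by linarith)
  have p5 := sh3_b_int_nonneg (a1 := δ) (b1 := 1 + δ) (e1 := δ / 2) (a2 := t1 - δ) (b2 := t2 + δ) (e2 := δ)
    (a3 := u2) (b3 := u2 + δ) (e3 := δ) (by linarith) hδ hδ (by linarith) (by linarith) (by linarith)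
  have hsum := ((((hκ 3 _ G1).add (hκ 3 _ G2)).add (hκ 3 _ G3)).add (hκ 3 _ G4)).add (hκ 3 _ G5)
  set J1 := ∫ y, ∫ t, ∫ u, sh3_b 1 (1 + δ) δ (t1 - δ) (t2 + δ) δ (u1 - δ) (u2 + δ) δ y t u
  set J2 := ∫ y, ∫ t, ∫ u, sh3_b δ (1 + δ) (δ / 2) (t1 - δ) t1 δ (u1 - δ) (u2 + δ) δ y t u
  set J3 := ∫ y, ∫ t, ∫ u, sh3_b δ (1 + δ) (δ / 2) t2 (t2 + δ) δ (u1 - δ) (u2 + δ) δ y t u
  set J4 := ∫ y, ∫ t, ∫ u, sh3_b δ (1 + δ) (δ / 2) (t1 - δ) (t2 + δ) δ (u1 - δ) u1 δ y t u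
  set J5 := ∫ y, ∫ t, ∫ u, sh3_b δ (1 + δ) (δ / 2) (t1 - δ) (t2 + δ) δ u2 (u2 + δ) δ y t u
  have hJ0 : 0 ≤ J1 + J2 + J3 + J4 + J5 := by linarith
  have hJ : J1 + J2 + J3 + J4 + J5 ≤ 15 * δ * M := by
    exact sh3_J hδ hT0 hU0 k1 k2 k3 k4 k5
  have hJκ : κ * J1 + κ * J2 + κ * J3 + κ * J4 + κ * J5 < |κ| * 15 * M * δ + ε / 8 := by
    have e1 : κ * J1 + κ * J2 + κ * J3 + κ * J4 + κ * J5 = κ * (J1 + J2 + J3 + J4 + J5) := by ring
    rw [e1]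
    have e2 : κ * (J1 + J2 + J3 + J4 + J5) ≤ |κ| * (15 * δ * M) :=
      (mul_le_mul_of_nonneg_right (le_abs_self κ) hJ0).trans (mul_le_mul_of_nonneg_left hJ (abs_nonneg κ))
    have e3 : |κ| * (15 * δ * M) = |κ| * 15 * M * δ := by ring
    linarith
  have h5 := (tendsto_order.1 hsum).2 _ hJκ
  have h6 := (Metric.tendsto_nhds.1 h1) (ε / 4) (by linarith)
  filter_upwards [h5, h6, eventually_gt_atTop 0, eventually_ge_atTop ((n : ℝ) / δ)] with X g1 g2 hX hXn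
  have hcnt' := hcnt n hn (δ * X) (by rw [div_le_iff₀ hδ] at hXn; linarith)
  have g3 := sh3_diff n Φ hΦ t1 t2 u1 u2 δ B X hδ hδ1 hX b1 b2 b3 b4
  set F := ∑ e ∈ (SN n X).filter (fun e => (t1 ≤ tS e ∧ tS e ≤ t2) ∧ (u1 ≤ uS e ∧ uS e ≤ u2)), Φ e with hF
  set K := ∑ e ∈ SN n (3 * X), Φ e * ((sh3_b δ 1 (δ / 2) t1 t2 δ u1 u2 δ (yS e / X) (tS e) (uS e) : ℝ) : ℂ) with hK
  have g4 : (F / X - L * ((T * U : ℝ) : ℂ) : ℂ) = (F - K) / X + (K / X - L * (I : ℂ)) + L * ((I - T * U : ℝ) : ℂ) := by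
    push_cast
    ring
  rw [dist_eq_norm, g4]
  have g5 : ‖(F - K) / (X : ℂ)‖ ≤ C * δ + (|κ| * 15 * M * δ + ε / 8) := by
    rw [norm_div, Complex.norm_real, Real.norm_eq_abs, abs_of_pos hX, div_le_iff₀ hX]
    refine g3.trans ?_
    have q1 : ∑ e ∈ SN n (3 * X), sh3_G t1 t2 u1 u2 δ (yS e / X) (tS e) (uS e) ≤
        (|κ| * 15 * M * δ + ε / 8) * X := by
      unfold sh3_G
      rw [Finset.sum_add_distrib, Finset.sum_add_distrib, Finset.sum_add_distrib, Finset.sum_add_distrib]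
      rw [← add_div, ← add_div, ← add_div, ← add_div, div_lt_iff₀ hX] at g1
      exact g1.le
    calc _ ≤ C * (δ * X) + (|κ| * 15 * M * δ + ε / 8) * X := add_le_add hcnt' q1
      _ = (C * δ + (|κ| * 15 * M * δ + ε / 8)) * X := by ring
  have g6 : ‖L * ((I - T * U : ℝ) : ℂ)‖ ≤ ‖L‖ * 3 * M * δ := by
    rw [norm_mul, Complex.norm_real, Real.norm_eq_abs]
    calc ‖L‖ * |I - T * U| ≤ ‖L‖ * (3 * δ * M) := mul_le_mul_of_nonneg_left hI1 (norm_nonneg _)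
      _ = ‖L‖ * 3 * M * δ := by ring
  have g7 : ‖(K / (X : ℂ) - L * (I : ℂ))‖ < ε / 4 := by
    rw [← dist_eq_norm]
    exact g2
  have g8 : R * δ = |κ| * 15 * M * δ + C * δ + ‖L‖ * 3 * M * δ + δ := by
    rw [hR]
    ring
  calc ‖(F - K) / (X : ℂ) + (K / X - L * (I : ℂ)) + L * ((I - T * U : ℝ) : ℂ)‖
      ≤ ‖(F - K) / (X : ℂ)‖ + ‖(K / (X : ℂ) - L * (I : ℂ))‖ + ‖L * ((I - T * U : ℝ) : ℂ)‖ := norm_add₃_le
    _ < ε := by linarith

end Pool.Agent.Spl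

end

/-! ### from `Lib_MP_92ef0c_la.Sharp4` -/

section

/-!
# Sharp cut-offs for families
-/

set_option autoImplicit false

namespace Pool.Agent.SplL

open Finset Pool.Agent.Spl Pool.Agent.SplB Pool.Agent.GaussMR Pool.Agent.OmAll Pool.Agent.OmEq MeasureTheory Filter

/-- copy of `sharp3` for a family of functions -/
theorem sharp4 (n : ℕ) (hn : 0 < n) (κ : ℝ) (hκ : ∀ (b : ℝ) (Ψ : ℝ → ℝ → ℝ → ℝ), TR b Ψ →
      Tendsto (fun X : ℝ => (∑ e ∈ SN n (b * X), Ψ (yS e / X) (tS e) (uS e)) / X) atTop (nhds (κ * ∫ y, ∫ t, ∫ u, Ψ y t u)))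
    (Φ : ℝ → Q4 → ℂ) (hΦ : ∀ X e, ‖Φ X e‖ ≤ 1) (L : ℂ) (H : ∀ (b : ℝ) (W : ℝ → ℝ → ℝ → ℂ), TS b W →
      Tendsto (fun X : ℝ => (∑ e ∈ SN n (b * X), Φ X e * W (yS e / X) (tS e) (uS e)) / X) atTop
        (nhds (L * ∫ y, ∫ t, ∫ u, W y t u)))
    (t1 t2 u1 u2 : ℝ) (ht : t1 ≤ t2) (hu : u1 ≤ u2) :
    Tendsto (fun X : ℝ => (∑ e ∈ (SN n X).filter (fun e => (t1 ≤ tS e ∧ tS e ≤ t2) ∧ (u1 ≤ uS e ∧ uS e ≤ u2)), Φ X e) / X)
      atTop (nhds (L * (((t2 - t1) * (u2 - u1) : ℝ) : ℂ))) := by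
  set B : ℝ := |t1| + |t2| + |u1| + |u2| + 1 with hB
  have b1 : -B ≤ t1 - 1 := by
    have := neg_abs_le t1
    have := abs_nonneg t2
    have := abs_nonneg u1
    have := abs_nonneg u2
    linarith
  have b2 : t2 + 1 ≤ B := by
    have := le_abs_self t2
    have := abs_nonneg t1
    have := abs_nonneg u1
    have := abs_nonneg u2
    linarith
  have b3 : -B ≤ u1 - 1 := by
    have := neg_abs_le u1
    have := abs_nonneg t2
    have := abs_nonneg t1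
    have := abs_nonneg u2
    linarith
  have b4 : u2 + 1 ≤ B := by
    have := le_abs_self u2
    have := abs_nonneg t2
    have := abs_nonneg t1
    have := abs_nonneg u1
    linarith
  obtain ⟨C, hC, hcnt⟩ := cnt3 B
  set T : ℝ := t2 - t1 with hT
  set U : ℝ := u2 - u1 with hU
  have hT0 : 0 ≤ T := by linarith
  have hU0 : 0 ≤ U := by linarith
  set M : ℝ := (T + 2) * (U + 2) with hM
  have hM0 : 0 < M := by positivity
  rw [Metric.tendsto_nhds]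
  intro ε hε
  -- choice of `δ`
  set R : ℝ := |κ| * 15 * M + C + ‖L‖ * 3 * M + 1 with hR
  have hR0 : 0 < R := by positivity
  obtain ⟨δ, hδ, hδ1, hδε⟩ : ∃ δ : ℝ, 0 < δ ∧ δ ≤ 1 / 2 ∧ R * δ ≤ ε / 4 := by
    refine ⟨min (1 / 2) (ε / (4 * R)), lt_min (by norm_num) (by positivity), min_le_left _ _, ?_⟩
    calc R * min (1 / 2) (ε / (4 * R)) ≤ R * (ε / (4 * R)) :=
          mul_le_mul_of_nonneg_left (min_le_right _ _) hR0.le
      _ = ε / 4 := by field_simp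
  -- the smooth sum
  have hW : TR 3 (sh3_b δ 1 (δ / 2) t1 t2 δ u1 u2 δ) := sh3_TR (by linarith) hδ hδ (by linarith) (by linarith)
  have hWc : TS 3 (fun y t u => ((sh3_b δ 1 (δ / 2) t1 t2 δ u1 u2 δ y t u : ℝ) : ℂ)) := by
    refine ⟨Complex.continuous_ofReal.comp hW.cont, hW.supp.comp_left (g := fun z : ℝ => (z : ℂ)) (by simp), ?_, ?_⟩
    · intro y t u hy
      rw [hW.lo y t u hy, Complex.ofReal_zero]
    · intro y t u hy
      rw [hW.hi y t u hy, Complex.ofReal_zero]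
  have h1 := H 3 _ hWc
  have hI : (∫ y, ∫ t, ∫ u, ((sh3_b δ 1 (δ / 2) t1 t2 δ u1 u2 δ y t u : ℝ) : ℂ)) =
      ((∫ y, ∫ t, ∫ u, sh3_b δ 1 (δ / 2) t1 t2 δ u1 u2 δ y t u : ℝ) : ℂ) := by
    simp only [integral_complex_ofReal]
  rw [hI] at h1
  set I : ℝ := ∫ y, ∫ t, ∫ u, sh3_b δ 1 (δ / 2) t1 t2 δ u1 u2 δ y t u with hIdef
  have hI1 : |I - T * U| ≤ 3 * δ * M := by
    rw [hIdef, sh3_b_integral]
    have i1 := sh3_tz_ub (a := δ) (b := 1) (δ := δ / 2) (by linarith) (by linarith)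
    have i2 := sh3_tz_ub hδ ht
    have i3 := sh3_tz_ub hδ hu
    have j1 := sh3_tz_lb (a := δ) (b := 1) (δ := δ / 2) (by linarith) (by linarith)
    have j2 := sh3_tz_lb hδ ht
    have j3 := sh3_tz_lb hδ hu
    exact sh3_I hδ hδ1 hT0 hU0 (by linarith) (by linarith) i2 i3 j2 j3
  -- the error function
  have G1 : TR 3 (sh3_b 1 (1 + δ) δ (t1 - δ) (t2 + δ) δ (u1 - δ) (u2 + δ) δ) :=
    sh3_TR hδ hδ hδ (by linarith) (by linarith)
  have G2 : TR 3 (sh3_b δ (1 + δ) (δ / 2) (t1 - δ) t1 δ (u1 - δ) (u2 + δ) δ) :=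
    sh3_TR (by linarith) hδ hδ (by linarith) (by linarith)
  have G3 : TR 3 (sh3_b δ (1 + δ) (δ / 2) t2 (t2 + δ) δ (u1 - δ) (u2 + δ) δ) :=
    sh3_TR (by linarith) hδ hδ (by linarith) (by linarith)
  have G4 : TR 3 (sh3_b δ (1 + δ) (δ / 2) (t1 - δ) (t2 + δ) δ (u1 - δ) u1 δ) :=
    sh3_TR (by linarith) hδ hδ (by linarith) (by linarith)
  have G5 : TR 3 (sh3_b δ (1 + δ) (δ / 2) (t1 - δ) (t2 + δ) δ u2 (u2 + δ) δ) :=
    sh3_TR (by linarith) hδ hδ (by linarith) (by linarith)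
  have k1 := sh3_b_ub (c1 := 3 * δ) (c2 := T + 2) (c3 := U + 2) (a1 := 1) (b1 := 1 + δ) (e1 := δ) (a2 := t1 - δ)
    (b2 := t2 + δ) (e2 := δ) (a3 := u1 - δ) (b3 := u2 + δ) (e3 := δ) hδ hδ hδ (by linarith) (by linarith)
    (by linarith) (by linarith) (by linarith) (by linarith)
  have k2 := sh3_b_ub (c1 := 2) (c2 := 3 * δ) (c3 := U + 2) (a1 := δ) (b1 := 1 + δ) (e1 := δ / 2) (a2 := t1 - δ)
    (b2 := t1) (e2 := δ) (a3 := u1 - δ) (b3 := u2 + δ) (e3 := δ) (by linarith) hδ hδ (by linarith) (by linarith)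
    (by linarith) (by linarith) (by linarith) (by linarith)
  have k3 := sh3_b_ub (c1 := 2) (c2 := 3 * δ) (c3 := U + 2) (a1 := δ) (b1 := 1 + δ) (e1 := δ / 2) (a2 := t2)
    (b2 := t2 + δ) (e2 := δ) (a3 := u1 - δ) (b3 := u2 + δ) (e3 := δ) (by linarith) hδ hδ (by linarith) (by linarith)
    (by linarith) (by linarith) (by linarith) (by linarith)
  have k4 := sh3_b_ub (c1 := 2) (c2 := T + 2) (c3 := 3 * δ) (a1 := δ) (b1 := 1 + δ) (e1 := δ / 2) (a2 := t1 - δ)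
    (b2 := t2 + δ) (e2 := δ) (a3 := u1 - δ) (b3 := u1) (e3 := δ) (by linarith) hδ hδ (by linarith) (by linarith)
    (by linarith) (by linarith) (by linarith) (by linarith)
  have k5 := sh3_b_ub (c1 := 2) (c2 := T + 2) (c3 := 3 * δ) (a1 := δ) (b1 := 1 + δ) (e1 := δ / 2) (a2 := t1 - δ)
    (b2 := t2 + δ) (e2 := δ) (a3 := u2) (b3 := u2 + δ) (e3 := δ) (by linarith) hδ hδ (by linarith) (by linarith)
    (by linarith) (by linarith) (by linarith) (by linarith)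
  have p1 := sh3_b_int_nonneg (a1 := 1) (b1 := 1 + δ) (e1 := δ) (a2 := t1 - δ) (b2 := t2 + δ) (e2 := δ)
    (a3 := u1 - δ) (b3 := u2 + δ) (e3 := δ) hδ hδ hδ (by linarith) (by linarith) (by linarith)
  have p2 := sh3_b_int_nonneg (a1 := δ) (b1 := 1 + δ) (e1 := δ / 2) (a2 := t1 - δ) (b2 := t1) (e2 := δ)
    (a3 := u1 - δ) (b3 := u2 + δ) (e3 := δ) (by linarith) hδ hδ (by linarith) (by linarith) (by linarith)
  have p3 := sh3_b_int_nonneg (a1 := δ) (b1 := 1 + δ) (e1 := δ / 2) (a2 := t2) (b2 := t2 + δ) (e2 := δ)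
    (a3 := u1 - δ) (b3 := u2 + δ) (e3 := δ) (by linarith) hδ hδ (by linarith) (by linarith) (by linarith)
  have p4 := sh3_b_int_nonneg (a1 := δ) (b1 := 1 + δ) (e1 := δ / 2) (a2 := t1 - δ) (b2 := t2 + δ) (e2 := δ)
    (a3 := u1 - δ) (b3 := u1) (e3 := δ) (by linarith) hδ hδ (by linarith) (by linarith) (by linarith)
  have p5 := sh3_b_int_nonneg (a1 := δ) (b1 := 1 + δ) (e1 := δ / 2) (a2 := t1 - δ) (b2 := t2 + δ) (e2 := δ)
    (a3 := u2) (b3 := u2 + δ) (e3 := δ) (by linarith) hδ hδ (by linarith) (by linarith) (by linarith)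
  have hsum := ((((hκ 3 _ G1).add (hκ 3 _ G2)).add (hκ 3 _ G3)).add (hκ 3 _ G4)).add (hκ 3 _ G5)
  set J1 := ∫ y, ∫ t, ∫ u, sh3_b 1 (1 + δ) δ (t1 - δ) (t2 + δ) δ (u1 - δ) (u2 + δ) δ y t u
  set J2 := ∫ y, ∫ t, ∫ u, sh3_b δ (1 + δ) (δ / 2) (t1 - δ) t1 δ (u1 - δ) (u2 + δ) δ y t u
  set J3 := ∫ y, ∫ t, ∫ u, sh3_b δ (1 + δ) (δ / 2) t2 (t2 + δ) δ (u1 - δ) (u2 + δ) δ y t u
  set J4 := ∫ y, ∫ t, ∫ u, sh3_b δ (1 + δ) (δ / 2) (t1 - δ) (t2 + δ) δ (u1 - δ) u1 δ y t u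
  set J5 := ∫ y, ∫ t, ∫ u, sh3_b δ (1 + δ) (δ / 2) (t1 - δ) (t2 + δ) δ u2 (u2 + δ) δ y t u
  have hJ0 : 0 ≤ J1 + J2 + J3 + J4 + J5 := by linarith
  have hJ : J1 + J2 + J3 + J4 + J5 ≤ 15 * δ * M := by
    exact sh3_J hδ hT0 hU0 k1 k2 k3 k4 k5
  have hJκ : κ * J1 + κ * J2 + κ * J3 + κ * J4 + κ * J5 < |κ| * 15 * M * δ + ε / 8 := by
    have e1 : κ * J1 + κ * J2 + κ * J3 + κ * J4 + κ * J5 = κ * (J1 + J2 + J3 + J4 + J5) := by ring
    rw [e1]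
    have e2 : κ * (J1 + J2 + J3 + J4 + J5) ≤ |κ| * (15 * δ * M) :=
      (mul_le_mul_of_nonneg_right (le_abs_self κ) hJ0).trans (mul_le_mul_of_nonneg_left hJ (abs_nonneg κ))
    have e3 : |κ| * (15 * δ * M) = |κ| * 15 * M * δ := by ring
    linarith
  have h5 := (tendsto_order.1 hsum).2 _ hJκ
  have h6 := (Metric.tendsto_nhds.1 h1) (ε / 4) (by linarith)
  filter_upwards [h5, h6, eventually_gt_atTop 0, eventually_ge_atTop ((n : ℝ) / δ)] with X g1 g2 hX hXn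
  have hcnt' := hcnt n hn (δ * X) (by rw [div_le_iff₀ hδ] at hXn; linarith)
  have g3 := sh3_diff n (Φ X) (hΦ X) t1 t2 u1 u2 δ B X hδ hδ1 hX b1 b2 b3 b4
  set F := ∑ e ∈ (SN n X).filter (fun e => (t1 ≤ tS e ∧ tS e ≤ t2) ∧ (u1 ≤ uS e ∧ uS e ≤ u2)), Φ X e with hF
  set K := ∑ e ∈ SN n (3 * X), Φ X e * ((sh3_b δ 1 (δ / 2) t1 t2 δ u1 u2 δ (yS e / X) (tS e) (uS e) : ℝ) : ℂ) with hK
  have g4 : (F / X - L * ((T * U : ℝ) : ℂ) : ℂ) = (F - K) / X + (K / X - L * (I : ℂ)) + L * ((I - T * U : ℝ) : ℂ) := by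
    push_cast
    ring
  rw [dist_eq_norm, g4]
  have g5 : ‖(F - K) / (X : ℂ)‖ ≤ C * δ + (|κ| * 15 * M * δ + ε / 8) := by
    rw [norm_div, Complex.norm_real, Real.norm_eq_abs, abs_of_pos hX, div_le_iff₀ hX]
    refine g3.trans ?_
    have q1 : ∑ e ∈ SN n (3 * X), sh3_G t1 t2 u1 u2 δ (yS e / X) (tS e) (uS e) ≤
        (|κ| * 15 * M * δ + ε / 8) * X := by
      unfold sh3_G
      rw [Finset.sum_add_distrib, Finset.sum_add_distrib, Finset.sum_add_distrib, Finset.sum_add_distrib]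
      rw [← add_div, ← add_div, ← add_div, ← add_div, div_lt_iff₀ hX] at g1
      exact g1.le
    calc _ ≤ C * (δ * X) + (|κ| * 15 * M * δ + ε / 8) * X := add_le_add hcnt' q1
      _ = (C * δ + (|κ| * 15 * M * δ + ε / 8)) * X := by ring
  have g6 : ‖L * ((I - T * U : ℝ) : ℂ)‖ ≤ ‖L‖ * 3 * M * δ := by
    rw [norm_mul, Complex.norm_real, Real.norm_eq_abs]
    calc ‖L‖ * |I - T * U| ≤ ‖L‖ * (3 * δ * M) := mul_le_mul_of_nonneg_left hI1 (norm_nonneg _)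
      _ = ‖L‖ * 3 * M * δ := by ring
  have g7 : ‖(K / (X : ℂ) - L * (I : ℂ))‖ < ε / 4 := by
    rw [← dist_eq_norm]
    exact g2
  have g8 : R * δ = |κ| * 15 * M * δ + C * δ + ‖L‖ * 3 * M * δ + δ := by
    rw [hR]
    ring
  calc ‖(F - K) / (X : ℂ) + (K / X - L * (I : ℂ)) + L * ((I - T * U : ℝ) : ℂ)‖
      ≤ ‖(F - K) / (X : ℂ)‖ + ‖(K / (X : ℂ) - L * (I : ℂ))‖ + ‖L * ((I - T * U : ℝ) : ℂ)‖ := norm_add₃_le
    _ < ε := by linarith


end Pool.Agent.SplL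

end
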