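import Pool.Agent.Lib_MP_92ef0c_m.M33
import Pool.Agent.Lib_MP_92ef0c_m.M34
import Pool.Agent.Lib_MP_92ef0c_m.M40
import Pool.Agent.Lib_MP_92ef0c_m.M44

/-!
# MP_92ef0c_nt, split pairs: merged library part M45

Concatenation of smaller files (each in its own section), only to save build time.
-/

/-! ### from `Lib_MP_92ef0c_lb.ArcB` -/

section

/-!
# Block B: arcs of bounded length, centred
-/

set_option autoImplicit false

namespace Pool.Agent.SplB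

open Finset Pool.Agent.Spl Pool.Agent.SplI MeasureTheory Filter

variable {Q : ℕ}

theorem sgF_memLp (F : ℕ × ℕ → ℂ) (C D w : ℝ) : MemLp (SgF F C D w) 2 (MeasureTheory.volume : Measure ℝ) := by
  have h1 : SgF F C D w = fun τ => ∑ z ∈ PB C D,
      (Set.Ioc (dirn z - w) (dirn z)).indicator (fun _ => F z) τ := by
    funext τ
    unfold SgF
    rw [sum_filter]
    refine sum_congr rfl fun z _ => ?_
    rw [Set.indicator_apply]
    congr 1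
    simp only [Set.mem_Ioc, eq_iff_iff]
    constructor
    · rintro ⟨h1, h2⟩
      exact ⟨by linarith, h1⟩
    · rintro ⟨h1, h2⟩
      exact ⟨h2, by linarith⟩
  rw [h1]
  refine memLp_finsetSum _ fun z _ => ?_
  exact memLp_indicator_const 2 measurableSet_Ioc _ (Or.inr (by simp))

theorem sgF_int (F : ℕ × ℕ → ℂ) (C D w : ℝ) : Integrable (fun τ => ‖SgF F C D w τ‖ ^ 2) := by
  have h := sgF_memLp F C D w
  exact (memLp_two_iff_integrable_sq_norm h.1).1 h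

/-- the sum over a class and an arc as a sum over an arc -/
theorem s2_eq (F : ℕ × ℕ → ℂ) (m : ℕ) (b : ℕ × ℕ) (C D δ τ : ℝ) : S2 F m b C D δ τ =
    SgF (fun z => if z.1 ≡ b.1 [MOD m] ∧ z.2 ≡ b.2 [MOD m] then F z else 0) C D δ τ := by
  unfold S2 SgF
  rw [sum_filter, sum_filter]
  refine sum_congr rfl fun z _ => ?_
  by_cases h1 : z.1 ≡ b.1 [MOD m] ∧ z.2 ≡ b.2 [MOD m]
  · by_cases h2 : τ ≤ dirn z ∧ dirn z < τ + δ
    · rw [if_pos ⟨h1, h2⟩, if_pos h2, if_pos h1]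
    · rw [if_neg (fun h => h2 h.2), if_neg h2]
  · rw [if_neg (fun h => h1 h.1), if_neg h1, ite_self]

theorem s2_int (F : ℕ × ℕ → ℂ) (m : ℕ) (b : ℕ × ℕ) (C D w : ℝ) : Integrable (fun τ => ‖S2 F m b C D w τ‖ ^ 2) := by
  simp only [s2_eq]
  exact sgF_int _ C D w

/-- arcs of bounded length, one pair of characters -/
theorem arcs_one (q : ℕ) (hq : 0 < q) (hQ : 0 < Q) {z1 z2 : ℂ} (hz1 : z1 ^ q = 1) (hz2 : z2 ^ q = 1)
    {f g : ℝ → ℕ → ℂ} (hf : FS Q z1 f) (hg : FS Q z2 g) {W1 W2 : ℕ} [NeZero W1] [NeZero W2]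
    (hQW1 : Q ∣ W1) (hQW2 : Q ∣ W2) (χ : DirichletCharacter ℂ W1) (ψ : DirichletCharacter ℂ W2) (K ε : ℝ)
    (hK : 1 ≤ K) (hε : 0 < ε) : ∃ H0 : ℝ, 0 < H0 ∧ ∀ H : ℝ, H0 ≤ H → ∀ a : ℝ, 0 < a → ∀ᶠ X : ℝ in atTop, ∀ C D : ℝ,
    Real.sqrt X / K ≤ C → C ≤ K * Real.sqrt X → Real.sqrt X / K ≤ D → D ≤ K * Real.sqrt X →
    ∫ τ, ‖Sg (tw (f (a * X)) χ) (tw (g (a * X)) ψ) C D (H / X) τ - mz Q z1 f (a * X) * mz Q z2 g (a * X) *
      Sg (tw (f00 Q) χ) (tw (f00 Q) ψ) C D (H / X) τ‖ ^ 2 ≤ ε * H ^ 2 := by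
  obtain ⟨Q0, hQ0, h⟩ := core ⟨hm_large, chainS_st, fun q hq z hz M _ χ => ptw_u q hq z hz M χ, low_pair⟩ q hq hQ hz1 hz2 hf hg hQW1 hQW2 χ ψ K (ε / 2) hK (by positivity)
  obtain ⟨C0, hC0, hl⟩ := line_gen K hK
  refine ⟨Real.sqrt (8 * C0 * Q0 ^ 2 / ε) + 1, by positivity, fun H hH a ha => ?_⟩
  have hs := Real.sqrt_nonneg (8 * C0 * Q0 ^ 2 / ε)
  have hH0 : 0 < H := by linarith
  have hH2 : 4 * C0 * Q0 ^ 2 ≤ ε / 2 * H ^ 2 := by
    have h1 : 8 * C0 * Q0 ^ 2 / ε ≤ H ^ 2 := by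
      have h3 : Real.sqrt (8 * C0 * Q0 ^ 2 / ε) ^ 2 = 8 * C0 * Q0 ^ 2 / ε := Real.sq_sqrt (by positivity)
      rw [← h3]
      exact pow_le_pow_left₀ hs (by linarith) 2
    rw [div_le_iff₀ hε] at h1
    linarith
  filter_upwards [h a ha, eventually_ge_atTop (Q0 + 1), eventually_ge_atTop (K ^ 2)] with X hX hXQ hXK C D h1 h2 h3 h4
  have hXpos : 0 < X := by linarith
  have hKs : 1 ≤ Real.sqrt X / K := by
    rw [le_div_iff₀ (by linarith), one_mul]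
    exact Real.le_sqrt_of_sq_le hXK
  obtain ⟨m, hm⟩ : ∃ m, m = mz Q z1 f (a * X) * mz Q z2 g (a * X) := ⟨_, rfl⟩
  have hm1 : ‖m‖ ≤ 1 := by
    rw [hm, norm_mul]
    exact mul_le_one₀ (mz_le hf _) (norm_nonneg _) (mz_le hg _)
  have h6 := hX C D h1 h2 h3 h4
  rw [← hm] at h6 ⊢
  obtain ⟨F1, hF1⟩ : ∃ F1, F1 = tw (f (a * X)) χ := ⟨_, rfl⟩
  obtain ⟨G1, hG1⟩ : ∃ G1, G1 = tw (g (a * X)) ψ := ⟨_, rfl⟩
  obtain ⟨F0, hF0⟩ : ∃ F0, F0 = tw (f00 Q) χ := ⟨_, rfl⟩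
  obtain ⟨G0, hG0⟩ : ∃ G0, G0 = tw (f00 Q) ψ := ⟨_, rfl⟩
  have cF1 : ∀ n, ‖F1 n‖ ≤ 1 := by rw [hF1]; exact (cf_tw (hf.cf (a * X)) χ).le
  have cG1 : ∀ n, ‖G1 n‖ ≤ 1 := by rw [hG1]; exact (cf_tw (hg.cf (a * X)) ψ).le
  have cF0 : ∀ n, ‖F0 n‖ ≤ 1 := by rw [hF0]; exact (cf_tw (cf_f00 Q) χ).le
  have cG0 : ∀ n, ‖G0 n‖ ≤ 1 := by rw [hG0]; exact (cf_tw (cf_f00 Q) ψ).le
  rw [← hF1, ← hG1, ← hF0, ← hG0]
  rw [← hF1, ← hG1, ← hF0, ← hG0] at h6
  obtain ⟨R, hR⟩ : ∃ R : ℕ × ℕ → ℂ, R = fun z => (1 / 2 : ℂ) * (pf F1 G1 z - m * pf F0 G0 z) := ⟨_, rfl⟩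
  have hR1 : ∀ z, ‖R z‖ ≤ 1 := by
    intro z
    rw [hR]
    simp only
    rw [norm_mul]
    have e1 : ‖pf F1 G1 z‖ ≤ 1 := by
      unfold pf
      rw [norm_mul]
      exact mul_le_one₀ (cF1 _) (norm_nonneg _) (cG1 _)
    have e2 : ‖m * pf F0 G0 z‖ ≤ 1 := by
      unfold pf
      rw [norm_mul, norm_mul]
      exact mul_le_one₀ hm1 (by positivity) (mul_le_one₀ (cF0 _) (norm_nonneg _) (cG0 _))
    have e3 := norm_sub_le (pf F1 G1 z) (m * pf F0 G0 z)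
    have e4 : ‖(1 / 2 : ℂ)‖ = 1 / 2 := by norm_num
    rw [e4]
    linarith
  have eS : ∀ τ, SgF R C D (H / X) τ = (1 / 2 : ℂ) * (Sg F1 G1 C D (H / X) τ - m * Sg F0 G0 C D (H / X) τ) := by
    intro τ
    rw [← sg_eq, ← sg_eq, hR]
    unfold SgF
    rw [mul_sum, ← sum_sub_distrib, mul_sum]
  have eP : ∀ t, PsF R C D t = (1 / 2 : ℂ) * (Ps F1 G1 C D t - m * Ps F0 G0 C D t) := by
    intro t
    rw [← ps_eq, ← ps_eq, hR]
    unfold PsF
    rw [mul_sum, ← sum_sub_distrib, mul_sum]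
    refine sum_congr rfl fun z _ => ?_
    ring
  have n1 : ∀ x : ℂ, ‖(1 / 2 : ℂ) * x‖ ^ 2 = 1 / 4 * ‖x‖ ^ 2 := by
    intro x
    rw [norm_mul]
    have e4 : ‖(1 / 2 : ℂ)‖ = 1 / 2 := by norm_num
    rw [e4]
    ring
  have h5 := hl X (by linarith) R hR1 C D (hKs.trans h1) h2 (hKs.trans h3) h4 (H / X) (X / Q0) (by positivity)
    (by rw [le_div_iff₀ (by linarith)]; linarith) (div_le_self hXpos.le hQ0)
  simp only [eS, eP, n1] at h5
  rw [integral_const_mul, intervalIntegral.integral_const_mul] at h5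
  have h7 : X / (X / Q0) = Q0 := by field_simp
  rw [h7] at h5
  have h8 : (H / X) ^ 2 * (∫ t in (-(X / Q0))..(X / Q0), ‖Ps F1 G1 C D t - m * Ps F0 G0 C D t‖ ^ 2) ≤
      (H / X) ^ 2 * (ε / 2 * X ^ 2) := mul_le_mul_of_nonneg_left h6 (sq_nonneg _)
  have h9 : (H / X) ^ 2 * (ε / 2 * X ^ 2) = ε / 2 * H ^ 2 := by field_simp
  nlinarith

/-- arcs of bounded length, centred with `mz` -/
theorem mrb_m (q : ℕ) (hq : 0 < q) (hQ : 0 < Q) {z1 z2 : ℂ} (hz1 : z1 ^ q = 1) (hz2 : z2 ^ q = 1)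
    {f g : ℝ → ℕ → ℂ} (hf : FS Q z1 f) (hg : FS Q z2 g) :
    MRB Q f g (fun Y => mz Q z1 f Y * mz Q z2 g Y) := by
  intro m hm b K hK ε hε
  obtain ⟨M1, M2, i1, i2, n, χ, ψ, c, d1, d2, hQM1, hQM2, hd1, hd2, hc, hdec⟩ := arc_g Q hQ m hm b
  have hd1' : (1 : ℝ) ≤ d1 := by exact_mod_cast hd1
  have hd2' : (1 : ℝ) ≤ d2 := by exact_mod_cast hd2
  obtain ⟨K', hK'⟩ : ∃ K' : ℝ, K' = K * d1 * d2 := ⟨_, rfl⟩
  have hKd1 : K ≤ K * d1 := le_mul_of_one_le_right (by linarith) hd1'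
  have hKd2 : K * d1 ≤ K' := by rw [hK']; exact le_mul_of_one_le_right (by positivity) hd2'
  have hK'1 : 1 ≤ K' := by linarith
  obtain ⟨ε', hε'⟩ : ∃ ε' : ℝ, ε' = ε / ((n : ℝ) ^ 2 + 1) := ⟨_, rfl⟩
  have hε'0 : 0 < ε' := by rw [hε']; positivity
  have key : ∀ i : Fin n, ∃ H0 : ℝ, 0 < H0 ∧ ∀ H : ℝ, H0 ≤ H → ∀ a : ℝ, 0 < a → ∀ᶠ X : ℝ in atTop, ∀ C D : ℝ,
      Real.sqrt X / K' ≤ C → C ≤ K' * Real.sqrt X → Real.sqrt X / K' ≤ D → D ≤ K' * Real.sqrt X →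
      ∫ τ, ‖Sg (tw (f (a * X)) (χ i)) (tw (g (a * X)) (ψ i)) C D (H / X) τ - mz Q z1 f (a * X) * mz Q z2 g (a * X) *
        Sg (tw (f00 Q) (χ i)) (tw (f00 Q) (ψ i)) C D (H / X) τ‖ ^ 2 ≤ ε' * H ^ 2 :=
    fun i => arcs_one q hq hQ hz1 hz2 hf hg hQM1 hQM2 (χ i) (ψ i) K' ε' hK'1 hε'0
  choose H0 hH0 hmain using key
  refine ⟨1 + ∑ i, H0 i, by have := sum_nonneg (fun i (_ : i ∈ (univ : Finset (Fin n))) => (hH0 i).le); linarith, fun H hH a ha => ?_⟩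
  have hHi : ∀ i, H0 i ≤ H := by
    intro i
    have := single_le_sum (fun j (_ : j ∈ (univ : Finset (Fin n))) => (hH0 j).le) (mem_univ i)
    linarith
  have hT : Tendsto (fun X : ℝ => a * X) atTop atTop := tendsto_id.const_mul_atTop ha
  have hag : ∀ᶠ Y : ℝ in atTop, mz Q z1 f Y * mz Q z2 g Y * (f Y d1 * g Y d2 - f00 Q d1 * f00 Q d2) = 0 := by
    by_cases h1 : z1 = 1
    · by_cases h2 : z2 = 1
      · subst h1 h2
        filter_upwards [fs_agree hQ hf d1, fs_agree hQ hg d2] with Y h3 h4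
        rw [h3 d1 hd1 le_rfl, h4 d2 hd2 le_rfl, sub_self, mul_zero]
      · refine Eventually.of_forall fun Y => ?_
        have : mz Q z2 g Y = 0 := by unfold mz; rw [if_neg h2]
        rw [this, mul_zero, zero_mul]
    · refine Eventually.of_forall fun Y => ?_
      have : mz Q z1 f Y = 0 := by unfold mz; rw [if_neg h1]
      rw [this, zero_mul, zero_mul]
  filter_upwards [eventually_all.2 fun i => hmain i H (hHi i) a ha, hT.eventually hag, eventually_gt_atTop 0] with X hX hagX hX1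
  have hsX : 0 < Real.sqrt X := Real.sqrt_pos.2 hX1
  obtain ⟨φ, hφ⟩ : ∃ φ : ℝ, φ = Real.log d2 - Real.log d1 := ⟨_, rfl⟩
  have hC1 : Real.sqrt X / K' ≤ Real.sqrt X / d1 := by
    apply div_le_div_of_nonneg_left hsX.le (by linarith)
    calc (d1 : ℝ) = 1 * d1 * 1 := by ring
      _ ≤ K * d1 * d2 := by gcongr
      _ = K' := hK'.symm
  have hC2 : Real.sqrt X / d1 ≤ K' * Real.sqrt X := by
    calc Real.sqrt X / d1 ≤ Real.sqrt X := div_le_self hsX.le hd1'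
      _ = 1 * Real.sqrt X := (one_mul _).symm
      _ ≤ K' * Real.sqrt X := by gcongr
  have hD1 : Real.sqrt X / K' ≤ K * Real.sqrt X / d2 := by
    rw [div_le_div_iff₀ (by linarith) (by linarith)]
    calc Real.sqrt X * d2 = 1 * Real.sqrt X * (1 * 1 * d2) := by ring
      _ ≤ K * Real.sqrt X * (K * d1 * d2) := by gcongr
      _ = K * Real.sqrt X * K' := by rw [hK']
  have hD2 : K * Real.sqrt X / d2 ≤ K' * Real.sqrt X := by
    calc K * Real.sqrt X / d2 ≤ K * Real.sqrt X := div_le_self (by positivity) hd2'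
      _ ≤ K' * Real.sqrt X := by gcongr; linarith
  obtain ⟨μ, hμ⟩ : ∃ μ, μ = mz Q z1 f (a * X) * mz Q z2 g (a * X) := ⟨_, rfl⟩
  rw [← hμ] at hagX hX ⊢
  obtain ⟨fX, hfX⟩ : ∃ fX, fX = f (a * X) := ⟨_, rfl⟩
  obtain ⟨gX, hgX⟩ : ∃ gX, gX = g (a * X) := ⟨_, rfl⟩
  have cfX : CF fX := by rw [hfX]; exact hf.cf _
  have cgX : CF gX := by rw [hgX]; exact hg.cf _
  have zfX : ∀ n, ¬ n.Coprime Q → fX n = 0 := by intro n hn; rw [hfX]; exact hf.zero _ hn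
  have zgX : ∀ n, ¬ n.Coprime Q → gX n = 0 := by intro n hn; rw [hgX]; exact hg.zero _ hn
  rw [← hfX, ← hgX] at hX hagX ⊢
  -- the pieces
  obtain ⟨E, hE⟩ : ∃ E : Fin n → ℝ → ℂ, E = fun i τ => Sg (tw fX (χ i)) (tw gX (ψ i)) (Real.sqrt X / d1)
      (K * Real.sqrt X / d2) (H / X) τ - μ * Sg (tw (f00 Q) (χ i)) (tw (f00 Q) (ψ i)) (Real.sqrt X / d1)
      (K * Real.sqrt X / d2) (H / X) τ := ⟨_, rfl⟩
  have hEF : ∀ i, E i = SgF (fun z => pf (tw fX (χ i)) (tw gX (ψ i)) z - μ * pf (tw (f00 Q) (χ i)) (tw (f00 Q) (ψ i)) z)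
      (Real.sqrt X / d1) (K * Real.sqrt X / d2) (H / X) := by
    intro i
    funext τ
    rw [hE]
    simp only
    rw [← sg_eq, ← sg_eq]
    unfold SgF
    rw [mul_sum, ← sum_sub_distrib]
  have hint : ∀ i : Fin n, Integrable (fun τ => ‖E i (τ - φ)‖ ^ 2) := by
    intro i
    rw [hEF]
    exact (sgF_int _ _ _ _).comp_sub_right φ
  have hdecm : ∀ τ : ℝ, S2 (fun z => pf fX gX z - μ * pf (f00 Q) (f00 Q) z) m b (Real.sqrt X) (K * Real.sqrt X) (H / X) τ =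
      ∑ i, (c i * (fX d1 * gX d2)) * E i (τ - φ) := by
    intro τ
    have e1 := hdec fX gX cfX cgX zfX zgX (Real.sqrt X) (K * Real.sqrt X) (H / X) τ
    have e2 := hdec (f00 Q) (f00 Q) (cf_f00 Q) (cf_f00 Q) (fun n hn => f00_not hn) (fun n hn => f00_not hn)
      (Real.sqrt X) (K * Real.sqrt X) (H / X) τ
    have e3 : S2 (fun z => pf fX gX z - μ * pf (f00 Q) (f00 Q) z) m b (Real.sqrt X) (K * Real.sqrt X) (H / X) τ =
        S2 (pf fX gX) m b (Real.sqrt X) (K * Real.sqrt X) (H / X) τ -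
          μ * S2 (pf (f00 Q) (f00 Q)) m b (Real.sqrt X) (K * Real.sqrt X) (H / X) τ := by
      unfold S2
      rw [mul_sum, ← sum_sub_distrib]
    rw [e3, e1, e2, mul_sum, ← sum_sub_distrib]
    refine sum_congr rfl fun i _ => ?_
    rw [hE, hφ]
    simp only
    have e4 : μ * (fX d1 * gX d2) = μ * (f00 Q d1 * f00 Q d2) := by
      have := hagX
      rw [mul_sub, sub_eq_zero] at this
      exact this
    linear_combination (c i * Sg (tw (f00 Q) (χ i)) (tw (f00 Q) (ψ i)) (Real.sqrt X / d1)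
      (K * Real.sqrt X / d2) (H / X) (τ - (Real.log d2 - Real.log d1))) * e4
  have hpt : ∀ τ : ℝ, ‖S2 (fun z => pf fX gX z - μ * pf (f00 Q) (f00 Q) z) m b (Real.sqrt X) (K * Real.sqrt X) (H / X) τ‖ ^ 2 ≤
      n * ∑ i : Fin n, ‖E i (τ - φ)‖ ^ 2 := by
    intro τ
    rw [hdecm]
    have h1 : ‖∑ i, (c i * (fX d1 * gX d2)) * E i (τ - φ)‖ ≤ ∑ i : Fin n, ‖E i (τ - φ)‖ := by
      refine (norm_sum_le _ _).trans (sum_le_sum fun i _ => ?_)
      rw [norm_mul, norm_mul, norm_mul]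
      refine mul_le_of_le_one_left (norm_nonneg _) (mul_le_one₀ (hc i) (by positivity) ?_)
      exact mul_le_one₀ (cfX.le _) (norm_nonneg _) (cgX.le _)
    refine (pow_le_pow_left₀ (norm_nonneg _) h1 2).trans ?_
    have h2 := sq_sum_le_card_mul_sum_sq (s := (univ : Finset (Fin n))) (f := fun i => ‖E i (τ - φ)‖)
    simpa using h2
  have hI : ∀ i : Fin n, ∫ τ, ‖E i (τ - φ)‖ ^ 2 ≤ ε' * H ^ 2 := by
    intro i
    rw [integral_sub_right_eq_self (fun τ => ‖E i τ‖ ^ 2) φ]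
    have := hX i _ _ hC1 hC2 hD1 hD2
    rw [hE]
    exact this
  calc ∫ τ, ‖S2 (fun z => pf fX gX z - μ * pf (f00 Q) (f00 Q) z) m b (Real.sqrt X) (K * Real.sqrt X) (H / X) τ‖ ^ 2
      ≤ ∫ τ, (n * ∑ i : Fin n, ‖E i (τ - φ)‖ ^ 2) := by
        refine integral_mono_of_nonneg (ae_of_all _ fun τ => sq_nonneg _) ?_ (ae_of_all _ hpt)
        exact (integrable_finsetSum _ fun i _ => hint i).const_mul _
    _ = n * ∑ i : Fin n, ∫ τ, ‖E i (τ - φ)‖ ^ 2 := by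
        rw [integral_const_mul, integral_finsetSum _ fun i _ => hint i]
    _ ≤ n * ∑ _i : Fin n, ε' * H ^ 2 := by
        gcongr with i
        exact hI i
    _ = (n : ℝ) ^ 2 * (ε' * H ^ 2) := by
        rw [sum_const, card_univ, Fintype.card_fin, nsmul_eq_mul]
        ring
    _ ≤ ((n : ℝ) ^ 2 + 1) * (ε' * H ^ 2) := by
        gcongr
        linarith
    _ = ε * H ^ 2 := by
        rw [hε']
        field_simp

end Pool.Agent.SplB

end

/-! ### from `Lib_MP_92ef0c_lb.MRBp` -/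

section

/-!
# Block B: the interface theorems, proofs
-/

set_option autoImplicit false

namespace Pool.Agent.SplB

open Finset Pool.Agent.Spl Pool.Agent.SplI MeasureTheory Filter

variable {Q : ℕ}

theorem mz_mf (q : ℕ) (hq : 0 < q) (hQ : 0 < Q) {z1 z2 : ℂ} (hz1 : z1 ^ q = 1) (hz2 : z2 ^ q = 1)
    {f g : ℝ → ℕ → ℂ} (hf : FS Q z1 f) (hg : FS Q z2 g) :
    Tendsto (fun Y => mz Q z1 f Y * mz Q z2 g Y - mf Q f Y * mf Q g Y) atTop (nhds 0) := by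
  by_cases h1 : z1 = 1
  · by_cases h2 : z2 = 1
    · have : (fun Y => mz Q z1 f Y * mz Q z2 g Y - mf Q f Y * mf Q g Y) = fun _ => 0 := by
        funext Y
        unfold mz
        rw [if_pos h1, if_pos h2, sub_self]
      rw [this]
      exact tendsto_const_nhds
    · have h3 := mf_zero' q hq hQ hz2 h2 hg
      have h4 : Tendsto (fun Y => mf Q f Y * mf Q g Y) atTop (nhds 0) := by
        rw [tendsto_zero_iff_norm_tendsto_zero] at h3 ⊢
        refine squeeze_zero (fun Y => norm_nonneg _) (fun Y => ?_) h3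
        rw [norm_mul]
        exact mul_le_of_le_one_left (norm_nonneg _) (mf_le_one hf Y)
      have h5 := h4.neg
      rw [neg_zero] at h5
      refine h5.congr fun Y => ?_
      unfold mz
      rw [if_neg h2, mul_zero, zero_sub]
  · have h3 := mf_zero' q hq hQ hz1 h1 hf
    have h4 : Tendsto (fun Y => mf Q f Y * mf Q g Y) atTop (nhds 0) := by
      rw [tendsto_zero_iff_norm_tendsto_zero] at h3 ⊢
      refine squeeze_zero (fun Y => norm_nonneg _) (fun Y => ?_) h3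
      rw [norm_mul]
      exact mul_le_of_le_one_right (norm_nonneg _) (mf_le_one hg Y)
    have h5 := h4.neg
    rw [neg_zero] at h5
    refine h5.congr fun Y => ?_
    unfold mz
    rw [if_neg h1, zero_mul, zero_sub]

/-- Matomaki-Radziwill in arcs of bounded length for pairs of families -/
theorem mrb' (q : ℕ) (hq : 0 < q) (hQ : 0 < Q) {z1 z2 : ℂ} (hz1 : z1 ^ q = 1) (hz2 : z2 ^ q = 1)
    {f g : ℝ → ℕ → ℂ} (hf : FS Q z1 f) (hg : FS Q z2 g) (μ : ℝ → ℂ)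
    (hμ : Tendsto (fun Y => mf Q f Y * mf Q g Y - μ Y) atTop (nhds 0)) : MRB Q f g μ := by
  intro m hm b K hK ε hε
  obtain ⟨H0, hH0, h⟩ := mrb_m q hq hQ hz1 hz2 hf hg m hm b K hK (ε / 4) (by positivity)
  obtain ⟨A, hA, htriv⟩ := triv_arc K hK
  have h1 := (mz_mf q hq hQ hz1 hz2 hf hg).add hμ
  rw [add_zero] at h1
  have h2 : Tendsto (fun Y => mz Q z1 f Y * mz Q z2 g Y - μ Y) atTop (nhds 0) := h1.congr fun Y => by ring
  obtain ⟨η, hη⟩ : ∃ η, η = min 1 (ε / (4 * A)) := ⟨_, rfl⟩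
  have hη0 : 0 < η := by rw [hη]; exact lt_min one_pos (by positivity)
  have hη1 : η ≤ 1 := by rw [hη]; exact min_le_left _ _
  have hη2 : η * (4 * A) ≤ ε := by
    have : η ≤ ε / (4 * A) := by rw [hη]; exact min_le_right _ _
    rwa [le_div_iff₀ (by positivity)] at this
  refine ⟨max H0 1, lt_max_of_lt_left hH0, fun H hH a ha => ?_⟩
  have hHH0 : H0 ≤ H := (le_max_left _ _).trans hH
  have hH1 : 1 ≤ H := (le_max_right _ _).trans hH
  have hT : Tendsto (fun X : ℝ => a * X) atTop atTop := tendsto_id.const_mul_atTop ha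
  filter_upwards [h H hHH0 a ha, hT.eventually ((tendsto_zero_iff_norm_tendsto_zero.1 h2).eventually (gt_mem_nhds hη0)),
    eventually_ge_atTop 1, sqrt_atTop.eventually (eventually_ge_atTop 1)] with X hX h3 hX1 hs1
  obtain ⟨F, hF⟩ : ∃ F : ℕ × ℕ → ℂ, F = fun z => pf (f (a * X)) (g (a * X)) z -
      mz Q z1 f (a * X) * mz Q z2 g (a * X) * pf (f00 Q) (f00 Q) z := ⟨_, rfl⟩
  obtain ⟨G, hG⟩ : ∃ G : ℕ × ℕ → ℂ, G = fun z => if z.1 ≡ b.1 [MOD m] ∧ z.2 ≡ b.2 [MOD m] then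
      pf (f00 Q) (f00 Q) z else 0 := ⟨_, rfl⟩
  obtain ⟨e, he⟩ : ∃ e, e = mz Q z1 f (a * X) * mz Q z2 g (a * X) - μ (a * X) := ⟨_, rfl⟩
  have hX' : ∫ τ, ‖S2 F m b (Real.sqrt X) (K * Real.sqrt X) (H / X) τ‖ ^ 2 ≤ ε / 4 * H ^ 2 := by
    rw [hF]
    exact hX
  have h3' : ‖e‖ < η := by rw [he]; exact h3
  have hG1 : ∀ z, ‖G z‖ ≤ 1 := by
    intro z
    rw [hG]
    simp only
    split_ifs
    · unfold pf
      rw [norm_mul]
      exact mul_le_one₀ ((cf_f00 Q).le _) (norm_nonneg _) ((cf_f00 Q).le _)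
    · simp
  have h4 := htriv X hX1 G hG1 (Real.sqrt X) (K * Real.sqrt X) hs1 (le_mul_of_one_le_left (by linarith) hK)
    (by nlinarith) le_rfl H hH1
  have h5 : ∀ τ : ℝ, S2 (fun z => pf (f (a * X)) (g (a * X)) z - μ (a * X) * pf (f00 Q) (f00 Q) z) m b
      (Real.sqrt X) (K * Real.sqrt X) (H / X) τ = S2 F m b (Real.sqrt X) (K * Real.sqrt X) (H / X) τ +
      e * SgF G (Real.sqrt X) (K * Real.sqrt X) (H / X) τ := by
    intro τ
    rw [hG, ← s2_eq, hF, he]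
    unfold S2
    rw [mul_sum, ← sum_add_distrib]
    refine sum_congr rfl fun z _ => ?_
    ring
  have h6 : ∀ τ : ℝ, ‖S2 (fun z => pf (f (a * X)) (g (a * X)) z - μ (a * X) * pf (f00 Q) (f00 Q) z) m b
      (Real.sqrt X) (K * Real.sqrt X) (H / X) τ‖ ^ 2 ≤ 2 * ‖S2 F m b (Real.sqrt X) (K * Real.sqrt X) (H / X) τ‖ ^ 2 +
      2 * η * ‖SgF G (Real.sqrt X) (K * Real.sqrt X) (H / X) τ‖ ^ 2 := by
    intro τ
    rw [h5]
    have e1 := norm_add_le (S2 F m b (Real.sqrt X) (K * Real.sqrt X) (H / X) τ)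
      (e * SgF G (Real.sqrt X) (K * Real.sqrt X) (H / X) τ)
    rw [norm_mul] at e1
    have e2 := pow_le_pow_left₀ (norm_nonneg _) e1 2
    have e3 : ‖e‖ ^ 2 ≤ η := by
      have := norm_nonneg e
      nlinarith
    refine e2.trans ?_
    generalize ‖S2 F m b (Real.sqrt X) (K * Real.sqrt X) (H / X) τ‖ = u
    generalize ‖SgF G (Real.sqrt X) (K * Real.sqrt X) (H / X) τ‖ = v
    generalize ‖e‖ = w at e3 ⊢
    have e4 : (w * v) ^ 2 ≤ η * v ^ 2 := by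
      rw [mul_pow]
      exact mul_le_mul_of_nonneg_right e3 (sq_nonneg _)
    nlinarith [sq_nonneg (u - w * v)]
  have i1 := (s2_int F m b (Real.sqrt X) (K * Real.sqrt X) (H / X)).const_mul 2
  have i2 := (sgF_int G (Real.sqrt X) (K * Real.sqrt X) (H / X)).const_mul (2 * η)
  calc ∫ τ, ‖S2 (fun z => pf (f (a * X)) (g (a * X)) z - μ (a * X) * pf (f00 Q) (f00 Q) z) m b
          (Real.sqrt X) (K * Real.sqrt X) (H / X) τ‖ ^ 2
      ≤ ∫ τ, (2 * ‖S2 F m b (Real.sqrt X) (K * Real.sqrt X) (H / X) τ‖ ^ 2 +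
        2 * η * ‖SgF G (Real.sqrt X) (K * Real.sqrt X) (H / X) τ‖ ^ 2) := by
        refine integral_mono_of_nonneg (ae_of_all _ fun τ => sq_nonneg _) ?_ (ae_of_all _ h6)
        exact i1.add i2
    _ = 2 * (∫ τ, ‖S2 F m b (Real.sqrt X) (K * Real.sqrt X) (H / X) τ‖ ^ 2) +
        2 * η * (∫ τ, ‖SgF G (Real.sqrt X) (K * Real.sqrt X) (H / X) τ‖ ^ 2) := by
        rw [integral_add i1 i2, integral_const_mul, integral_const_mul]
    _ ≤ 2 * (ε / 4 * H ^ 2) + 2 * η * (A * H ^ 2) := by gcongr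
    _ = (ε / 2 + (η * (4 * A)) / 2) * H ^ 2 := by ring
    _ ≤ (ε / 2 + ε / 2) * H ^ 2 := by gcongr
    _ = ε * H ^ 2 := by ring

end Pool.Agent.SplB

end

/-! ### from `Lib_MP_92ef0c_lb.MRB` -/

section

/-!
# Block B: the interface theorems
-/

set_option autoImplicit false

namespace Pool.Agent.SplB

open Finset Pool.Agent.Spl MeasureTheory Filter

/-- Matomaki-Radziwill in arcs of bounded length for pairs of families (`z1, z2` any roots of unity; `μ` any function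
asymptotic to the product of the mean values, which tend to zero if `z ≠ 1`) -/
theorem mrb (q Q : ℕ) (hq : 0 < q) (hQ : 0 < Q) (z1 z2 : ℂ) (hz1 : z1 ^ q = 1) (hz2 : z2 ^ q = 1) (f g : ℝ → ℕ → ℂ)
    (hf : FS Q z1 f) (hg : FS Q z2 g) (μ : ℝ → ℂ)
    (hμ : Tendsto (fun Y => mf Q f Y * mf Q g Y - μ Y) atTop (nhds 0)) : MRB Q f g μ :=
  mrb' q hq hQ hz1 hz2 hf hg μ hμ

/-- the mean values tend to zero if `z ≠ 1` -/
theorem mf_zero (q Q : ℕ) (hq : 0 < q) (hQ : 0 < Q) (z : ℂ) (hz : z ^ q = 1) (hz1 : z ≠ 1) (f : ℝ → ℕ → ℂ)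
    (hf : FS Q z f) : Tendsto (mf Q f) atTop (nhds 0) :=
  mf_zero' q hq hQ hz hz1 hf

/-- mean values in progressions -/
theorem mf_prog (q Q : ℕ) (hq : 0 < q) (hQ : 0 < Q) (z : ℂ) (hz : z ^ q = 1) (f : ℝ → ℕ → ℂ) (hf : FS Q z f)
    (m : ℕ) (hm : 0 < m) (r : ℕ) (c : ℝ) (hc : 0 < c) :
    Tendsto (fun Y : ℝ => (∑ n ∈ (Icc 1 ⌊c * Real.sqrt Y⌋₊).filter (fun n => n ≡ r [MOD m]),
      (f Y n - mf Q f Y * f00 Q n)) / Real.sqrt Y) atTop (nhds 0) :=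
  mf_prog' q hq hQ hz hf m hm r c hc

end Pool.Agent.SplB

end

/-! ### from `Lib_MP_92ef0c_la.BInst` -/

section

/-!
# The hypothesis on block B holds
-/

set_option autoImplicit false

namespace Pool.Agent.SplL

theorem bs : BS := ⟨Pool.Agent.SplB.mrb, Pool.Agent.SplB.mf_zero, Pool.Agent.SplB.mf_prog⟩

end Pool.Agent.SplL

end
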