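import Pool.Agent.Lib_MP_92ef0c_m.M37
import Pool.Agent.Lib_MP_92ef0c_m.M43

/-!
# MP_92ef0c_nt, split pairs: merged library part M46

Concatenation of smaller files (each in its own section), only to save build time.
-/

/-! ### from `Lib_MP_92ef0c_sp.ApxO3` -/

section

/-!
# The weights of the unbalanced matrices are test functions up to `o(X)`
-/

set_option autoImplicit false

namespace Pool.Agent.Spl

open Finset Pool.Agent.GaussMR Pool.Agent.OmAll Pool.Agent.OmEq MeasureTheory Filter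

/-- the weight as a function of `(y, t, u, δ)` -/
noncomputable def apxo3_K (h : ℝ → ℝ) (J N : ℕ) (p : ℝ × ℝ × ℝ × ℝ) : ℝ :=
  h (√(p.1 * (p.1 + p.2.2.2)) * Real.exp (-(p.2.1 + p.2.2.1) / 2)) *
    ps0 ((Real.log (p.1 + p.2.2.2) - Real.log p.1) / 2 + (p.2.2.1 - p.2.1) / 2) *
    rho J N (√(p.1 / (p.1 + p.2.2.2)) * Real.exp ((p.2.1 + p.2.2.1) / 2))

theorem apxo3_K_cont {h : ℝ → ℝ} {h1 h2 : ℝ} (hh : HF h h1 h2) (J N : ℕ) (S : Set (ℝ × ℝ × ℝ × ℝ))
    (hS : ∀ p ∈ S, 0 < p.1 ∧ 0 ≤ p.2.2.2) : ContinuousOn (apxo3_K h J N) S := by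
  have a1 : ContinuousOn (fun p : ℝ × ℝ × ℝ × ℝ => √(p.1 * (p.1 + p.2.2.2)) *
      Real.exp (-(p.2.1 + p.2.2.1) / 2)) S := Continuous.continuousOn (by fun_prop)
  have a2 : ContinuousOn (fun p : ℝ × ℝ × ℝ × ℝ => (Real.log (p.1 + p.2.2.2) - Real.log p.1) / 2 +
      (p.2.2.1 - p.2.1) / 2) S := by
    have b1 : ContinuousOn (fun p : ℝ × ℝ × ℝ × ℝ => Real.log (p.1 + p.2.2.2)) S :=
      ContinuousOn.log (Continuous.continuousOn (by fun_prop)) fun p hp => by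
        have := hS p hp
        exact (by linarith [this.1, this.2] : 0 < p.1 + p.2.2.2).ne'
    have b2 : ContinuousOn (fun p : ℝ × ℝ × ℝ × ℝ => Real.log p.1) S :=
      ContinuousOn.log (Continuous.continuousOn (by fun_prop)) fun p hp => (hS p hp).1.ne'
    have b3 : ContinuousOn (fun p : ℝ × ℝ × ℝ × ℝ => (p.2.2.1 - p.2.1) / 2) S :=
      Continuous.continuousOn (by fun_prop)
    exact ((b1.sub b2).div_const 2).add b3
  have a3 : ContinuousOn (fun p : ℝ × ℝ × ℝ × ℝ => √(p.1 / (p.1 + p.2.2.2)) *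
      Real.exp ((p.2.1 + p.2.2.1) / 2)) S := by
    have b1 : ContinuousOn (fun p : ℝ × ℝ × ℝ × ℝ => p.1 / (p.1 + p.2.2.2)) S :=
      ContinuousOn.div (Continuous.continuousOn (by fun_prop))
        (Continuous.continuousOn (by fun_prop)) fun p hp => by
        have := hS p hp
        exact (by linarith [this.1, this.2] : 0 < p.1 + p.2.2.2).ne'
    have b2 : ContinuousOn (fun p : ℝ × ℝ × ℝ × ℝ => Real.exp ((p.2.1 + p.2.2.1) / 2)) S :=
      Continuous.continuousOn (by fun_prop)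
    exact (Real.continuous_sqrt.comp_continuousOn b1).mul b2
  exact ((hh.cont.comp_continuousOn a1).mul (limh_ps0_cont.comp_continuousOn a2)).mul
    ((apxn_rho_cont J N).comp_continuousOn a3)

theorem apxo3_K_zero (h : ℝ → ℝ) (J N : ℕ) {y : ℝ} (hy : 0 < y) (t u : ℝ) :
    ((apxo3_K h J N (y, t, u, 0) : ℝ) : ℂ) = WO3 h J N y t u := by
  unfold apxo3_K WO3 WO
  simp only
  rw [add_zero, Real.sqrt_mul_self hy.le, sub_self, zero_div, zero_add, div_self hy.ne',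
    Real.sqrt_one, one_mul]
  push_cast
  ring

theorem apxo3_w (h : ℝ → ℝ) (J N : ℕ) {X : ℝ} (hX : 0 < X) {h0 : ℕ} {e : Q4} (he : Sn h0 e) :
    wV h X e.a e.b * rho J N ((e.c : ℝ) / e.a) = apxo3_K h J N (yS e / X, tS e, uS e, h0 / X) := by
  obtain ⟨hdet, ha0, hb0, hc0, hd0, -, -⟩ := he
  have hdet' : (e.a : ℝ) * e.d = e.b * e.c + h0 := by exact_mod_cast hdet
  unfold apxo3_K wV yS tS uS
  simp only
  obtain ⟨a, ha⟩ : ∃ a : ℝ, a = e.a := ⟨_, rfl⟩
  obtain ⟨b, hb⟩ : ∃ b : ℝ, b = e.b := ⟨_, rfl⟩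
  obtain ⟨c, hc⟩ : ∃ c : ℝ, c = e.c := ⟨_, rfl⟩
  obtain ⟨d, hd⟩ : ∃ d : ℝ, d = e.d := ⟨_, rfl⟩
  have pa : 0 < a := by rw [ha]; exact_mod_cast ha0
  have pb : 0 < b := by rw [hb]; exact_mod_cast hb0
  have pc : 0 < c := by rw [hc]; exact_mod_cast hc0
  have pd : 0 < d := by rw [hd]; exact_mod_cast hd0
  rw [← ha, ← hb, ← hc, ← hd] at hdet' ⊢
  have e1 : b * c / X + h0 / X = a * d / X := by
    rw [hdet']
    ring
  rw [e1]
  obtain ⟨s, hs⟩ : ∃ s : ℝ, s = Real.log d - Real.log a + (Real.log c - Real.log b) := ⟨_, rfl⟩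
  rw [← hs]
  have e2 : Real.exp (s / 2) = √(c * d / (a * b)) := by
    rw [Real.exp_half, hs, Real.exp_add, Real.exp_sub, Real.exp_sub, Real.exp_log pa,
      Real.exp_log pb, Real.exp_log pc, Real.exp_log pd]
    congr 1
    field_simp
  have e3 : Real.exp (-s / 2) = √(a * b / (c * d)) := by
    rw [neg_div, Real.exp_neg, e2, ← Real.sqrt_inv, inv_div]
  have e4 : √(b * c / X * (a * d / X)) * Real.exp (-s / 2) = a * b / X := by
    rw [e3, ← Real.sqrt_mul (by positivity)]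
    have e5 : b * c / X * (a * d / X) * (a * b / (c * d)) = (a * b / X) ^ 2 := by
      field_simp
    rw [e5, Real.sqrt_sq (by positivity)]
  have e6 : √(b * c / X / (a * d / X)) * Real.exp (s / 2) = c / a := by
    rw [e2, ← Real.sqrt_mul (by positivity)]
    have e5 : b * c / X / (a * d / X) * (c * d / (a * b)) = (c / a) ^ 2 := by
      field_simp
    rw [e5, Real.sqrt_sq (by positivity)]
  have e7 : (Real.log (a * d / X) - Real.log (b * c / X)) / 2 +
      (Real.log c - Real.log b - (Real.log d - Real.log a)) / 2 = Real.log a - Real.log b := by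
    rw [Real.log_div (by positivity) hX.ne', Real.log_div (by positivity) hX.ne',
      Real.log_mul pa.ne' pd.ne', Real.log_mul pb.ne' pc.ne']
    ring
  rw [e4, e6, e7]

/-- the support of the weight -/
theorem apxo3_supp {h : ℝ → ℝ} {h1 h2 : ℝ} (hh : HF h h1 h2) {J N : ℕ} (hJ : 1 ≤ J) (hN : 1 ≤ N)
    {X : ℝ} (hX : 0 < X) {h0 : ℕ} {e : Q4} (he : Sn h0 e)
    (hne : wV h X e.a e.b * rho J N ((e.c : ℝ) / e.a) ≠ 0) :
    h1 ≤ yS e / X ∧ |tS e| ≤ Real.log (3 * (J + N) + h0) + 2 ∧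
      |uS e| ≤ Real.log (3 * (J + N) + h0) + 2 := by
  obtain ⟨hdet, ha0, hb0, hc0, hd0, -, -⟩ := he
  have hdet' : (e.a : ℝ) * e.d = e.b * e.c + h0 := by exact_mod_cast hdet
  have hJ' : (1 : ℝ) ≤ J := by exact_mod_cast hJ
  have hN' : (1 : ℝ) ≤ N := by exact_mod_cast hN
  have hh0 : (0 : ℝ) ≤ h0 := Nat.cast_nonneg h0
  unfold wV at hne
  unfold yS tS uS
  have ha1' : (1 : ℝ) ≤ e.a := by exact_mod_cast ha0
  obtain ⟨a, ha⟩ : ∃ a : ℝ, a = e.a := ⟨_, rfl⟩
  obtain ⟨b, hb⟩ : ∃ b : ℝ, b = e.b := ⟨_, rfl⟩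
  obtain ⟨c, hc⟩ : ∃ c : ℝ, c = e.c := ⟨_, rfl⟩
  obtain ⟨d, hd⟩ : ∃ d : ℝ, d = e.d := ⟨_, rfl⟩
  have pa : 0 < a := by rw [ha]; exact_mod_cast ha0
  have pb : 0 < b := by rw [hb]; exact_mod_cast hb0
  have pc : 0 < c := by rw [hc]; exact_mod_cast hc0
  have pd : 0 < d := by rw [hd]; exact_mod_cast hd0
  rw [← ha, ← hb, ← hc, ← hd] at hdet' ⊢
  rw [← ha, ← hb, ← hc] at hne
  rw [← ha] at ha1'
  have r1 := apxn_rho_ne hN (right_ne_zero_of_mul hne)
  have r2 := left_ne_zero_of_mul (left_ne_zero_of_mul hne)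
  have r3 := right_ne_zero_of_mul (left_ne_zero_of_mul hne)
  have r4 : h1 < a * b / X := by
    by_contra h3
    exact r2 (hh.lo _ (not_lt.1 h3))
  have r5 : |Real.log a - Real.log b| < 1 := by
    by_contra h3
    exact r3 (limh_ps0_zero (not_lt.1 h3))
  rw [abs_lt] at r5
  have hca : Real.log (c / a) = Real.log c - Real.log a := Real.log_div pc.ne' pa.ne'
  have hca0 : 0 < c / a := by positivity
  have hM : (0 : ℝ) < 3 * (J + N) + h0 := by positivity
  have l1 : Real.log (c / a) ≤ Real.log (3 * (J + N) + h0) :=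
    Real.log_le_log hca0 (by linarith [r1.2])
  have l2 : 0 ≤ Real.log (c / a) := Real.log_nonneg (by linarith [r1.1])
  have hM1 : 0 ≤ Real.log (3 * ((J : ℝ) + N) + h0) := l2.trans l1
  refine ⟨?_, ?_, ?_⟩
  · have h5 : b * c / X = a * b / X * (c / a) := by field_simp
    rw [h5]
    have h6 : 1 ≤ c / a := by linarith [r1.1]
    have h7 : 0 < a * b / X := by positivity
    nlinarith
  · -- `d / a = (b / a) (c / a) + h0 / a ^ 2`
    have hba : b / a < 3 := by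
      have h5 : Real.log (b / a) < 1 := by
        rw [Real.log_div pb.ne' pa.ne']
        linarith [r5.1]
      have h6 := (Real.log_lt_iff_lt_exp (by positivity : 0 < b / a)).1 h5
      have h7 := Real.exp_one_lt_d9
      linarith
    have hda : d / a = b / a * (c / a) + h0 / a ^ 2 := by
      field_simp
      linarith
    have hh1 : (h0 : ℝ) / a ^ 2 ≤ h0 := div_le_self hh0 (one_le_pow₀ ha1')
    have hda2 : d / a ≤ 3 * (J + N) + h0 := by
      rw [hda]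
      have h8 : b / a * (c / a) ≤ 3 * (J + N) :=
        mul_le_mul hba.le r1.2.le hca0.le (by norm_num)
      linarith
    have h9 : Real.log d - Real.log a ≤ Real.log (3 * (J + N) + h0) := by
      rw [← Real.log_div pd.ne' pa.ne']
      exact Real.log_le_log (by positivity) hda2
    have h10 : -1 ≤ Real.log d - Real.log a := by
      have h11 : b * c ≤ a * d := by linarith
      have h12 : Real.log b + Real.log c ≤ Real.log a + Real.log d := by
        rw [← Real.log_mul pb.ne' pc.ne', ← Real.log_mul pa.ne' pd.ne']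
        exact Real.log_le_log (by positivity) h11
      rw [hca] at l2
      linarith [r5.2]
    rw [abs_le]
    constructor <;> linarith
  · rw [hca] at l1 l2
    rw [abs_le]
    constructor <;> linarith [r5.1, r5.2]

/-- the support of the limit -/
theorem apxo3_suppW {h : ℝ → ℝ} {h1 h2 : ℝ} (hh : HF h h1 h2) {J N : ℕ} (hJ : 1 ≤ J) (hN : 1 ≤ N)
    {h0 : ℕ} {y t u : ℝ} (hne : WO3 h J N y t u ≠ 0) :
    h1 ≤ y ∧ |t| ≤ Real.log (3 * (J + N) + h0) + 2 ∧ |u| ≤ Real.log (3 * (J + N) + h0) + 2 := by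
  have hJ' : (1 : ℝ) ≤ J := by exact_mod_cast hJ
  have hN' : (1 : ℝ) ≤ N := by exact_mod_cast hN
  have hh0 : (0 : ℝ) ≤ h0 := Nat.cast_nonneg h0
  unfold WO3 WO at hne
  have r1 : h (y * Real.exp (-(t + u) / 2)) * rho J N (Real.exp ((t + u) / 2)) ≠ 0 := by
    have := left_ne_zero_of_mul hne
    exact_mod_cast this
  have r2 : ps0 ((u - t) / 2) ≠ 0 := by
    have := right_ne_zero_of_mul hne
    exact_mod_cast this
  have r3 := apxn_rho_ne hN (right_ne_zero_of_mul r1)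
  have r4 : h1 < y * Real.exp (-(t + u) / 2) := by
    by_contra h3
    exact left_ne_zero_of_mul r1 (hh.lo _ (not_lt.1 h3))
  have r5 : |(u - t) / 2| < 1 := by
    by_contra h3
    exact r2 (limh_ps0_zero (not_lt.1 h3))
  rw [abs_lt] at r5
  have r6 : 0 ≤ (t + u) / 2 := by
    have : 1 ≤ Real.exp ((t + u) / 2) := by linarith [r3.1]
    exact Real.one_le_exp_iff.1 this
  have r7 : (t + u) / 2 < Real.log (3 * (J + N) + h0) := by
    rw [Real.lt_log_iff_exp_lt (by positivity)]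
    linarith [r3.2]
  have hexp : Real.exp (-(t + u) / 2) ≤ 1 := by
    rw [Real.exp_le_one_iff]
    linarith
  have hy : 0 < y := by
    by_contra h3
    have h4 : y * Real.exp (-(t + u) / 2) ≤ 0 :=
      mul_nonpos_of_nonpos_of_nonneg (not_lt.1 h3) (Real.exp_pos _).le
    linarith [hh.pos]
  refine ⟨?_, ?_, ?_⟩
  · have := mul_le_mul_of_nonneg_left hexp hy.le
    linarith
  · rw [abs_le]
    constructor <;> linarith [r5.1, r5.2]
  · rw [abs_le]
    constructor <;> linarith [r5.1, r5.2]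

/-- PROOF. As `apxN3` (simpler). For `e ∈ Sn h0`, `y = yS e / X`, `t = tS e`, `u = uS e`, `δ = h0 / X`: `a = sqrt((y+δ) X) exp(-t/2)`, `b = sqrt(y X) exp(-u/2)`, `c = sqrt(y X) exp(u/2)`, so the weight is `h (sqrt(y (y+δ)) exp(-(t+u)/2)) ps0 (1/2 log ((y+δ)/y) + (u-t)/2) rho (sqrt(y/(y+δ)) exp((t+u)/2))`, for `δ = 0` it is `WO3`. If one of the
weights is not zero, `y ≥ c'' > 0`, `|t|, |u| ≤ B`. Uniform continuity and `cnt3`. Compare `apxO` in `Lib_MP_f1a94e_eq/ApxO.lean`. -/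
theorem apxO3 (h0 Q n0 : ℕ) (hh0 : 0 < h0) (f g : ℕ → ℂ) (hf : ∀ m, ‖f m‖ ≤ 1) (hg : ∀ m, ‖g m‖ ≤ 1) (h : ℝ → ℝ) (h1 h2 : ℝ)
    (hh : HF h h1 h2) (J N : ℕ) (hJ : 1 ≤ J) (hN : 1 ≤ N) (b : ℝ) (hb : 0 < b) :
    Tendsto (fun X : ℝ => (SX3 h0 Q n0 f g h J N (b * X) X - ∑ e ∈ SQ h0 Q n0 (b * X),
      F4 g f f g e * WO3 h J N (yS e / X) (tS e) (uS e)) / X) atTop (nhds 0) := by
  obtain ⟨B, hB⟩ : ∃ B : ℝ, B = Real.log (3 * (J + N) + h0) + 2 := ⟨_, rfl⟩
  obtain ⟨C, hC, hcnt⟩ := cnt3 B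
  have hcomp : IsCompact (Set.Icc h1 b ×ˢ (Set.Icc (-B) B ×ˢ (Set.Icc (-B) B ×ˢ Set.Icc (0 : ℝ) 1))) :=
    isCompact_Icc.prod (isCompact_Icc.prod (isCompact_Icc.prod isCompact_Icc))
  have hKc := apxo3_K_cont hh J N
    (Set.Icc h1 b ×ˢ (Set.Icc (-B) B ×ˢ (Set.Icc (-B) B ×ˢ Set.Icc (0 : ℝ) 1)))
    (fun p hp => ⟨lt_of_lt_of_le hh.pos hp.1.1, hp.2.2.2.1⟩)
  have huc := hcomp.uniformContinuousOn_of_continuous hKc
  rw [Metric.tendsto_atTop]
  intro ε hε
  have hε' : 0 < ε / (2 * (C * b)) := by positivity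
  have hh0' : (0 : ℝ) < h0 := by exact_mod_cast hh0
  obtain ⟨η, hη, hK2⟩ := Metric.uniformContinuousOn_iff.1 huc (ε / (2 * (C * b))) hε'
  refine ⟨max 1 (max h0 (max (h0 / b) (2 * h0 / η))), fun X hX => ?_⟩
  have x1 : 1 ≤ X := (le_max_left _ _).trans hX
  have x2 : (h0 : ℝ) ≤ X := ((le_max_left _ _).trans (le_max_right _ _)).trans hX
  have x3 : (h0 : ℝ) / b ≤ X :=
    ((le_max_left _ _).trans ((le_max_right _ _).trans (le_max_right _ _))).trans hX
  have x4 : 2 * (h0 : ℝ) / η ≤ X :=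
    ((le_max_right _ _).trans ((le_max_right _ _).trans (le_max_right _ _))).trans hX
  have hX0 : 0 < X := by linarith
  have y1 : (h0 : ℝ) ≤ b * X := by
    rw [div_le_iff₀ hb] at x3
    linarith
  have y2 : (h0 : ℝ) / X ≤ 1 := by
    rw [div_le_one hX0]
    exact x2
  have y3 : (h0 : ℝ) / X < η := by
    rw [div_le_iff₀ hη] at x4
    rw [div_lt_iff₀ hX0]
    nlinarith
  have y4 : 0 ≤ (h0 : ℝ) / X := by positivity
  have hterm : ∀ e ∈ SQ h0 Q n0 (b * X), ‖((wV h X e.a e.b * rho J N ((e.c : ℝ) / e.a) : ℝ) : ℂ) -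
      WO3 h J N (yS e / X) (tS e) (uS e)‖ ≤
        if |tS e| ≤ B ∧ |uS e| ≤ B then ε / (2 * (C * b)) else 0 := by
    intro e he
    rw [mem_SQ] at he
    obtain ⟨⟨he1, he2⟩, -⟩ := he
    have hy0 : 0 < yS e / X := div_pos (by linarith [yS_pos he1]) hX0
    have hyb : yS e / X ≤ b := by
      rw [div_le_iff₀ hX0]
      exact he2
    by_cases hall : h1 ≤ yS e / X ∧ |tS e| ≤ B ∧ |uS e| ≤ B
    · obtain ⟨k1, k2, k3⟩ := hall
      rw [if_pos ⟨k2, k3⟩, apxo3_w h J N hX0 he1, ← apxo3_K_zero h J N hy0, ← Complex.ofReal_sub,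
        Complex.norm_real, ← dist_eq_norm]
      rw [abs_le] at k2 k3
      refine (hK2 _ ?_ _ ?_ ?_).le
      · exact ⟨⟨k1, hyb⟩, ⟨k2, ⟨k3, ⟨y4, y2⟩⟩⟩⟩
      · exact ⟨⟨k1, hyb⟩, ⟨k2, ⟨k3, ⟨le_refl _, zero_le_one⟩⟩⟩⟩
      · rw [Prod.dist_eq, Prod.dist_eq, Prod.dist_eq]
        simp only [dist_self]
        rw [Real.dist_eq, sub_zero, abs_of_nonneg y4]
        exact max_lt hη (max_lt hη (max_lt hη y3))
    · have z1 : wV h X e.a e.b * rho J N ((e.c : ℝ) / e.a) = 0 := by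
        by_contra h3
        apply hall
        rw [hB]
        exact apxo3_supp hh hJ hN hX0 he1 h3
      have z2 : WO3 h J N (yS e / X) (tS e) (uS e) = 0 := by
        by_contra h3
        apply hall
        rw [hB]
        exact apxo3_suppW hh hJ hN h3
      rw [z1, z2]
      simp only [Complex.ofReal_zero, sub_self, norm_zero]
      split_ifs
      · exact hε'.le
      · exact le_refl _
  rw [dist_zero_right, norm_div, Complex.norm_real, Real.norm_eq_abs, abs_of_pos hX0,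
    div_lt_iff₀ hX0]
  unfold SX3
  rw [← sum_sub_distrib]
  have hs : ‖∑ e ∈ SQ h0 Q n0 (b * X),
      (F4 g f f g e * ((wV h X e.a e.b * rho J N ((e.c : ℝ) / e.a) : ℝ) : ℂ) -
        F4 g f f g e * WO3 h J N (yS e / X) (tS e) (uS e))‖ ≤
      ∑ e ∈ SN h0 (b * X), if |tS e| ≤ B ∧ |uS e| ≤ B then ε / (2 * (C * b)) else 0 := by
    refine (norm_sum_le _ _).trans ?_
    have hsub : SQ h0 Q n0 (b * X) ⊆ SN h0 (b * X) := by
      intro e he
      rw [mem_SQ] at he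
      exact mem_SN.2 he.1
    refine le_trans (sum_le_sum fun e he => ?_)
      (sum_le_sum_of_subset_of_nonneg hsub fun e _ _ => ?_)
    · rw [← mul_sub, norm_mul]
      have h3 := hterm e he
      have h4 := norm_F4_le hg hf hf hg e
      exact (mul_le_of_le_one_left (norm_nonneg _) h4).trans h3
    · split_ifs
      · exact hε'.le
      · exact le_refl _
  refine lt_of_le_of_lt hs ?_
  rw [← sum_filter, sum_const, nsmul_eq_mul]
  have h5 := hcnt h0 hh0 (b * X) y1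
  have h6 : (((SN h0 (b * X)).filter (fun e => |tS e| ≤ B ∧ |uS e| ≤ B)).card : ℝ) *
      (ε / (2 * (C * b))) ≤ C * (b * X) * (ε / (2 * (C * b))) := by
    refine mul_le_mul_of_nonneg_right (le_trans (le_of_eq ?_) h5) hε'.le
    congr 2
  refine lt_of_le_of_lt h6 ?_
  have h7 : C * (b * X) * (ε / (2 * (C * b))) = ε * X / 2 := by field_simp
  rw [h7]
  have : 0 < ε * X := by positivity
  linarith

end Pool.Agent.Spl

end

/-! ### from `Lib_MP_92ef0c_sp.ApxN3` -/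

section

/-!
# The weights of the correlations are test functions up to `o(X)`
-/

set_option autoImplicit false

namespace Pool.Agent.Spl

open Finset Pool.Agent.GaussMR Pool.Agent.OmAll Pool.Agent.OmEq MeasureTheory Filter

/-- the first coordinate `A` -/
noncomputable def apxn3_A (n : ℕ) (p : ℝ × ℝ × ℝ × ℝ) : ℝ :=
  (√(p.1 + p.2.2.2) * Real.exp (-(p.2.1 / 2)) - √p.1 * Real.exp (p.2.2.1 / 2)) / n

/-- the second coordinate `B'` -/
noncomputable def apxn3_B (n : ℕ) (p : ℝ × ℝ × ℝ × ℝ) : ℝ :=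
  (√p.1 * Real.exp (-(p.2.2.1 / 2)) - √(p.1 + p.2.2.2) * Real.exp (p.2.1 / 2)) / n

/-- the weight `w3` as a continuous function of `(y, t, u, δ)` -/
noncomputable def apxn3_K (h : ℝ → ℝ) (J N n : ℕ) (c3 : ℝ) (p : ℝ × ℝ × ℝ × ℝ) : ℝ :=
  (h (max (apxn3_A n p) 0 * max (apxn3_B n p) 0) *
    ps0 (Real.log (max (apxn3_A n p) c3) - Real.log (max (apxn3_B n p) c3))) ^ 2 *
    rho J N (√(p.1 + p.2.2.2) * Real.exp (-(p.2.1 / 2)) / max (apxn3_A n p) c3) *
    rho J N (√p.1 * Real.exp (p.2.2.1 / 2) / max (apxn3_A n p) c3)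

theorem apxn3_A_cont (n : ℕ) : Continuous (apxn3_A n) := by
  unfold apxn3_A
  fun_prop

theorem apxn3_B_cont (n : ℕ) : Continuous (apxn3_B n) := by
  unfold apxn3_B
  fun_prop

theorem apxn3_K_cont {h : ℝ → ℝ} {h1 h2 : ℝ} (hh : HF h h1 h2) (J N n : ℕ) {c3 : ℝ} (hc : 0 < c3) :
    Continuous (apxn3_K h J N n c3) := by
  have cA := apxn3_A_cont n
  have cB := apxn3_B_cont n
  have cA0 : Continuous fun p => max (apxn3_A n p) 0 := cA.max continuous_const
  have cB0 : Continuous fun p => max (apxn3_B n p) 0 := cB.max continuous_const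
  have cA3 : Continuous fun p => max (apxn3_A n p) c3 := cA.max continuous_const
  have cB3 : Continuous fun p => max (apxn3_B n p) c3 := cB.max continuous_const
  have nA : ∀ p, max (apxn3_A n p) c3 ≠ 0 := fun p => (lt_of_lt_of_le hc (le_max_right _ _)).ne'
  have nB : ∀ p, max (apxn3_B n p) c3 ≠ 0 := fun p => (lt_of_lt_of_le hc (le_max_right _ _)).ne'
  have d1 : Continuous fun p : ℝ × ℝ × ℝ × ℝ =>
      √(p.1 + p.2.2.2) * Real.exp (-(p.2.1 / 2)) / max (apxn3_A n p) c3 :=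
    Continuous.div (by fun_prop) cA3 nA
  have d2 : Continuous fun p : ℝ × ℝ × ℝ × ℝ => √p.1 * Real.exp (p.2.2.1 / 2) / max (apxn3_A n p) c3 :=
    Continuous.div (by fun_prop) cA3 nA
  have d3 : Continuous fun p : ℝ × ℝ × ℝ × ℝ =>
      Real.log (max (apxn3_A n p) c3) - Real.log (max (apxn3_B n p) c3) :=
    (cA3.log nA).sub (cB3.log nB)
  exact ((((hh.cont.comp (cA0.mul cB0)).mul (limh_ps0_cont.comp d3)).pow 2).mul
    ((apxn_rho_cont J N).comp d1)).mul ((apxn_rho_cont J N).comp d2)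

theorem apxn3_rho_nonpos {J N : ℕ} (hJ : 1 ≤ J) (hN : 1 ≤ N) {r : ℝ} (h : r ≤ 0) : rho J N r = 0 := by
  by_contra h4
  have h5 := (apxn_rho_ne hN h4).1
  have h7 : (1 : ℝ) ≤ J := by exact_mod_cast hJ
  linarith

/-- on the compact set `max` with `c3` is harmless -/
theorem apxn3_large {n : ℕ} (hn : 1 ≤ n) {b B h1 : ℝ} (hb : 0 < b) (h1p : 0 < h1)
    {p : ℝ × ℝ × ℝ × ℝ} (hy : 0 ≤ p.1 ∧ p.1 ≤ b) (ht : |p.2.1| ≤ B) (hu : |p.2.2.1| ≤ B)
    (hd : 0 ≤ p.2.2.2 ∧ p.2.2.2 ≤ 1) (hA : 0 < apxn3_A n p) (hB : 0 < apxn3_B n p)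
    (hAB : h1 < apxn3_A n p * apxn3_B n p) :
    h1 / (√(b + 1) * Real.exp (B / 2)) ≤ apxn3_A n p ∧
      h1 / (√(b + 1) * Real.exp (B / 2)) ≤ apxn3_B n p := by
  have hn' : (1 : ℝ) ≤ n := by exact_mod_cast hn
  have hn0 : (0 : ℝ) < n := by linarith
  rw [abs_le] at ht hu
  have hC : 0 < √(b + 1) * Real.exp (B / 2) := by positivity
  have s1 : √(p.1 + p.2.2.2) ≤ √(b + 1) := Real.sqrt_le_sqrt (by linarith)
  have s2 : √p.1 ≤ √(b + 1) := Real.sqrt_le_sqrt (by linarith)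
  have hle : ∀ s e1 r : ℝ, s ≤ √(b + 1) → 0 ≤ s → e1 ≤ B / 2 → 0 ≤ r →
      (s * Real.exp e1 - r) / n ≤ √(b + 1) * Real.exp (B / 2) := by
    intro s e1 r hs hs0 he hr
    have h3 : s * Real.exp e1 ≤ √(b + 1) * Real.exp (B / 2) :=
      mul_le_mul hs (Real.exp_le_exp.2 he) (Real.exp_pos _).le (Real.sqrt_nonneg _)
    rw [div_le_iff₀ hn0]
    have h4 : √(b + 1) * Real.exp (B / 2) * 1 ≤ √(b + 1) * Real.exp (B / 2) * n :=
      mul_le_mul_of_nonneg_left hn' hC.le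
    linarith
  have uA : apxn3_A n p ≤ √(b + 1) * Real.exp (B / 2) :=
    hle _ _ _ s1 (Real.sqrt_nonneg _) (by linarith) (by positivity)
  have uB : apxn3_B n p ≤ √(b + 1) * Real.exp (B / 2) :=
    hle _ _ _ s2 (Real.sqrt_nonneg _) (by linarith) (by positivity)
  constructor
  · rw [div_le_iff₀ hC]
    exact hAB.le.trans (mul_le_mul_of_nonneg_left uB hA.le)
  · rw [div_le_iff₀ hC, mul_comm]
    exact hAB.le.trans (mul_le_mul_of_nonneg_right uA hB.le)

/-- `K (y, t, u, 0) = WN3 y t u` -/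
theorem apxn3_K_zero {h : ℝ → ℝ} {h1 h2 : ℝ} (hh : HF h h1 h2) {J N n : ℕ} (hn : 1 ≤ n) {b B : ℝ} (hb : 0 < b) {y t u : ℝ} (hy : 0 < y) (hyb : y ≤ b) (ht : |t| ≤ B) (hu : |u| ≤ B) :
    ((apxn3_K h J N n (h1 / (√(b + 1) * Real.exp (B / 2))) (y, t, u, 0) : ℝ) : ℂ) = WN3 h J N n y t u := by
  have hn' : (0 : ℝ) < n := by exact_mod_cast hn
  obtain ⟨r, hr⟩ : ∃ r, r = √y := ⟨_, rfl⟩
  have hr0 : 0 < r := by rw [hr]; exact Real.sqrt_pos.2 hy
  have hrr : r * r = y := by rw [hr]; exact Real.mul_self_sqrt hy.le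
  obtain ⟨T, hT⟩ : ∃ T, T = Real.exp (t / 2) := ⟨_, rfl⟩
  obtain ⟨U, hU⟩ : ∃ U, U = Real.exp (u / 2) := ⟨_, rfl⟩
  have hT0 : 0 < T := by rw [hT]; exact Real.exp_pos _
  have hU0 : 0 < U := by rw [hU]; exact Real.exp_pos _
  have hTn : Real.exp (-(t / 2)) = T⁻¹ := by rw [hT, Real.exp_neg]
  have hUn : Real.exp (-(u / 2)) = U⁻¹ := by rw [hU, Real.exp_neg]
  have hx : Real.exp ((t + u) / 2) = T * U := by
    rw [hT, hU, ← Real.exp_add]
    congr 1
    ring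
  have eA : apxn3_A n (y, t, u, 0) = r * T⁻¹ * (1 - T * U) / n := by
    unfold apxn3_A
    simp only [add_zero]
    rw [hTn, ← hU, ← hr]
    field_simp
  have eB : apxn3_B n (y, t, u, 0) = r * U⁻¹ * (1 - T * U) / n := by
    unfold apxn3_B
    simp only [add_zero]
    rw [hUn, ← hT, ← hr]
    field_simp
  unfold WN3 WN
  split_ifs with htu
  · have hx1 : T * U < 1 := by rw [← hx, Real.exp_lt_one_iff]; linarith
    have hx2 : 0 < 1 - T * U := by linarith
    have hA0 : 0 < apxn3_A n (y, t, u, 0) := by rw [eA]; positivity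
    have hB0 : 0 < apxn3_B n (y, t, u, 0) := by rw [eB]; positivity
    have hAB : apxn3_A n (y, t, u, 0) * apxn3_B n (y, t, u, 0) =
        y * (1 - T * U) ^ 2 / (n ^ 2 * (T * U)) := by
      rw [eA, eB, ← hrr]
      field_simp
    rw [← Complex.ofReal_mul]
    congr 1
    unfold apxn3_K
    simp only [add_zero]
    rw [max_eq_left hA0.le, max_eq_left hB0.le, hAB, hx]
    by_cases h3 : y * (1 - T * U) ^ 2 / (n ^ 2 * (T * U)) ≤ h1
    · rw [hh.lo _ h3]
      ring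
    · have h4 := apxn3_large (p := (y, t, u, 0)) (h1 := h1) hn hb hh.pos ⟨hy.le, hyb⟩ ht hu
        ⟨le_refl _, zero_le_one⟩ hA0 hB0 (by rw [hAB]; exact not_le.1 h3)
      rw [max_eq_left h4.1, max_eq_left h4.2]
      have e1 : Real.log (apxn3_A n (y, t, u, 0)) - Real.log (apxn3_B n (y, t, u, 0)) = (u - t) / 2 := by
        rw [← Real.log_div hA0.ne' hB0.ne']
        have e2 : apxn3_A n (y, t, u, 0) / apxn3_B n (y, t, u, 0) = Real.exp ((u - t) / 2) := by
          rw [eA, eB]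
          have e3 : Real.exp ((u - t) / 2) = U * T⁻¹ := by
            rw [← hTn, hU, ← Real.exp_add]
            congr 1
            ring
          rw [e3]
          field_simp
        rw [e2, Real.log_exp]
      have e2 : √y * Real.exp (-(t / 2)) / apxn3_A n (y, t, u, 0) = n / (1 - T * U) := by
        rw [eA, hTn, ← hr]
        field_simp
      have e3 : √y * Real.exp (u / 2) / apxn3_A n (y, t, u, 0) = n * (T * U) / (1 - T * U) := by
        rw [eA, ← hU, ← hr]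
        field_simp
      rw [e1, e2, e3]
      ring
  · have hx1 : 1 ≤ T * U := by
      rw [← hx]
      exact Real.one_le_exp (by linarith)
    have hA0 : apxn3_A n (y, t, u, 0) ≤ 0 := by
      rw [eA]
      refine div_nonpos_of_nonpos_of_nonneg ?_ hn'.le
      exact mul_nonpos_of_nonneg_of_nonpos (by positivity) (by linarith)
    unfold apxn3_K
    rw [max_eq_right hA0, zero_mul, hh.lo 0 hh.pos.le]
    simp

/-- the entries in terms of `(y, t, u, δ)` -/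
theorem apxn3_entries {m : ℕ} {X : ℝ} (hX : 0 < X) {e : Q4} (he : Sn m e) :
    √(yS e / X + m / X) * Real.exp (-(tS e / 2)) = e.a / √X ∧
    √(yS e / X + m / X) * Real.exp (tS e / 2) = e.d / √X ∧
    √(yS e / X) * Real.exp (-(uS e / 2)) = e.b / √X ∧
    √(yS e / X) * Real.exp (uS e / 2) = e.c / √X := by
  obtain ⟨h1, ha, hb, hc, hd, -, -⟩ := he
  have ha' : (0 : ℝ) < e.a := by exact_mod_cast ha
  have hb' : (0 : ℝ) < e.b := by exact_mod_cast hb
  have hc' : (0 : ℝ) < e.c := by exact_mod_cast hc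
  have hd' : (0 : ℝ) < e.d := by exact_mod_cast hd
  have h1' : (e.a : ℝ) * e.d = e.b * e.c + m := by exact_mod_cast h1
  have hsX : 0 < √X := Real.sqrt_pos.2 hX
  have f1 : √(yS e / X + m / X) = √e.a * √e.d / √X := by
    rw [← add_div]
    unfold yS
    rw [← h1', Real.sqrt_div (by positivity), Real.sqrt_mul ha'.le]
  have f2 : √(yS e / X) = √e.b * √e.c / √X := by
    unfold yS
    rw [Real.sqrt_div (by positivity), Real.sqrt_mul hb'.le]
  have g : ∀ v w : ℝ, 0 < v → 0 < w → Real.exp ((Real.log v - Real.log w) / 2) = √v / √w := by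
    intro v w hv hw
    rw [sub_div, Real.exp_sub, ← Real.log_sqrt hv.le, ← Real.log_sqrt hw.le,
      Real.exp_log (Real.sqrt_pos.2 hv), Real.exp_log (Real.sqrt_pos.2 hw)]
  have t1 : Real.exp (tS e / 2) = √e.d / √e.a := g _ _ hd' ha'
  have t2 : Real.exp (-(tS e / 2)) = √e.a / √e.d := by rw [Real.exp_neg, t1, inv_div]
  have u1 : Real.exp (uS e / 2) = √e.c / √e.b := g _ _ hc' hb'
  have u2 : Real.exp (-(uS e / 2)) = √e.b / √e.c := by rw [Real.exp_neg, u1, inv_div]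
  have qa := Real.sqrt_pos.2 ha'
  have qb := Real.sqrt_pos.2 hb'
  have qc := Real.sqrt_pos.2 hc'
  have qd := Real.sqrt_pos.2 hd'
  rw [f1, f2, t1, t2, u1, u2]
  refine ⟨?_, ?_, ?_, ?_⟩
  · calc √(e.a : ℝ) * √e.d / √X * (√e.a / √e.d) = √(e.a : ℝ) * √e.a / √X := by field_simp
      _ = e.a / √X := by rw [Real.mul_self_sqrt ha'.le]
  · calc √(e.a : ℝ) * √e.d / √X * (√e.d / √e.a) = √(e.d : ℝ) * √e.d / √X := by field_simp
      _ = e.d / √X := by rw [Real.mul_self_sqrt hd'.le]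
  · calc √(e.b : ℝ) * √e.c / √X * (√e.b / √e.c) = √(e.b : ℝ) * √e.b / √X := by field_simp
      _ = e.b / √X := by rw [Real.mul_self_sqrt hb'.le]
  · calc √(e.b : ℝ) * √e.c / √X * (√e.c / √e.b) = √(e.c : ℝ) * √e.c / √X := by field_simp
      _ = e.c / √X := by rw [Real.mul_self_sqrt hc'.le]

/-- the weight is a value of `K` -/
theorem apxn3_w {h : ℝ → ℝ} {h1 h2 : ℝ} (hh : HF h h1 h2) {J N n m : ℕ} (hJ : 1 ≤ J) (hN : 1 ≤ N) (hn : 1 ≤ n)
    {b B : ℝ} (hb : 0 < b) {X : ℝ} (hX : 0 < X) {e : Q4} (he : Sn m e) (hyb : yS e ≤ b * X) (ht : |tS e| ≤ B)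
    (hu : |uS e| ≤ B) (hm : (m : ℝ) ≤ X) :
    w3 h J N n X e = apxn3_K h J N n (h1 / (√(b + 1) * Real.exp (B / 2))) (yS e / X, tS e, uS e, m / X) := by
  have hn' : (0 : ℝ) < n := by exact_mod_cast hn
  have hsX : 0 < √X := Real.sqrt_pos.2 hX
  have hss : √X * √X = X := Real.mul_self_sqrt hX.le
  obtain ⟨i1, i2, i3, i4⟩ := apxn3_entries hX he
  obtain ⟨-, ha, hb', hc, hd, -, -⟩ := he
  have ha0 : (0 : ℝ) < e.a := by exact_mod_cast ha
  have hc0 : (0 : ℝ) < e.c := by exact_mod_cast hc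
  have hy0 : 0 ≤ yS e := by unfold yS; positivity
  have eA : apxn3_A n (yS e / X, tS e, uS e, m / X) = ((e.a : ℝ) - e.c) / n / √X := by
    unfold apxn3_A
    simp only
    rw [i1, i4]
    field_simp
  have eB : apxn3_B n (yS e / X, tS e, uS e, m / X) = ((e.b : ℝ) - e.d) / n / √X := by
    unfold apxn3_B
    simp only
    rw [i3, i2]
    field_simp
  obtain ⟨V1, hV1⟩ : ∃ V, V = ((e.a : ℝ) - e.c) / n := ⟨_, rfl⟩
  obtain ⟨V2, hV2⟩ : ∃ V, V = ((e.b : ℝ) - e.d) / n := ⟨_, rfl⟩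
  rw [← hV1] at eA
  rw [← hV2] at eB
  have hac : (e.a : ℝ) - e.c = n * V1 := by rw [hV1]; field_simp
  unfold w3 wV
  rw [← hV1, ← hV2, hac]
  have c1 : (n : ℝ) * e.a / (n * V1) = e.a / V1 := mul_div_mul_left _ _ hn'.ne'
  have c2 : (n : ℝ) * e.c / (n * V1) = e.c / V1 := mul_div_mul_left _ _ hn'.ne'
  rw [c1, c2]
  by_cases p1 : 0 < V1
  · by_cases p2 : 0 < V2
    · have hA0 : 0 < apxn3_A n (yS e / X, tS e, uS e, m / X) := by rw [eA]; positivity
      have hB0 : 0 < apxn3_B n (yS e / X, tS e, uS e, m / X) := by rw [eB]; positivity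
      have hAB : apxn3_A n (yS e / X, tS e, uS e, m / X) * apxn3_B n (yS e / X, tS e, uS e, m / X) =
          V1 * V2 / X := by
        rw [eA, eB, div_mul_div_comm, hss]
      unfold apxn3_K
      simp only
      rw [max_eq_left hA0.le, max_eq_left hB0.le, hAB, i1, i4]
      by_cases h3 : V1 * V2 / X ≤ h1
      · rw [hh.lo _ h3]
        ring
      · have h4 := apxn3_large (p := (yS e / X, tS e, uS e, m / X)) (h1 := h1) hn hb hh.pos
          ⟨by positivity, (div_le_iff₀ hX).2 hyb⟩ ht hu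
          ⟨by positivity, (div_le_one hX).2 hm⟩ hA0 hB0 (by rw [hAB]; exact not_le.1 h3)
        rw [max_eq_left h4.1, max_eq_left h4.2, eA, eB]
        have e1 : Real.log (V1 / √X) - Real.log (V2 / √X) = Real.log V1 - Real.log V2 := by
          rw [Real.log_div p1.ne' hsX.ne', Real.log_div p2.ne' hsX.ne']
          ring
        have e2 : (e.a : ℝ) / √X / (V1 / √X) = e.a / V1 := div_div_div_cancel_right₀ hsX.ne' _ _
        have e3 : (e.c : ℝ) / √X / (V1 / √X) = e.c / V1 := div_div_div_cancel_right₀ hsX.ne' _ _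
        rw [e1, e2, e3]
    · have hB0 : apxn3_B n (yS e / X, tS e, uS e, m / X) ≤ 0 := by
        rw [eB]
        exact div_nonpos_of_nonpos_of_nonneg (not_lt.1 p2) hsX.le
      have h3 : V1 * V2 / X ≤ h1 :=
        (div_nonpos_of_nonpos_of_nonneg (mul_nonpos_of_nonneg_of_nonpos p1.le (not_lt.1 p2)) hX.le).trans hh.pos.le
      unfold apxn3_K
      rw [max_eq_right hB0, mul_zero, hh.lo 0 hh.pos.le, hh.lo _ h3]
      ring
  · have hA0 : apxn3_A n (yS e / X, tS e, uS e, m / X) ≤ 0 := by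
      rw [eA]
      exact div_nonpos_of_nonpos_of_nonneg (not_lt.1 p1) hsX.le
    have h3 : (e.a : ℝ) / V1 ≤ 0 := div_nonpos_of_nonneg_of_nonpos ha0.le (not_lt.1 p1)
    unfold apxn3_K
    rw [max_eq_right hA0, zero_mul, hh.lo 0 hh.pos.le, apxn3_rho_nonpos hJ hN h3]
    ring

/-- consequences of `w3 ≠ 0` -/
theorem apxn3_w_bound {h : ℝ → ℝ} {h1 h2 : ℝ} (hh : HF h h1 h2) {J N n h0 : ℕ} (hJ : 1 ≤ J) (hN : 1 ≤ N)
    (hn : 1 ≤ n) {X : ℝ} (hX : 0 < X) (hX1 : (h0 : ℝ) / h1 ≤ X) {e : Q4} (he : Sn (n * h0) e)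
    (hne : w3 h J N n X e ≠ 0) :
    |tS e| ≤ 2 * Real.log (J + N + 1) + 1 ∧ |uS e| ≤ 2 * Real.log (J + N + 1) + 1 := by
  have hn' : (0 : ℝ) < n := by exact_mod_cast hn
  have hJ' : (1 : ℝ) ≤ J := by exact_mod_cast hJ
  have hN' : (1 : ℝ) ≤ N := by exact_mod_cast hN
  obtain ⟨hdet, ha, hb', hc, hd, -, -⟩ := he
  have ha0 : (0 : ℝ) < e.a := by exact_mod_cast ha
  have hb0 : (0 : ℝ) < e.b := by exact_mod_cast hb'
  have hc0 : (0 : ℝ) < e.c := by exact_mod_cast hc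
  have hd0 : (0 : ℝ) < e.d := by exact_mod_cast hd
  have hdet' : (e.a : ℝ) * e.d = e.b * e.c + n * h0 := by exact_mod_cast hdet
  obtain ⟨V1, hV1⟩ : ∃ V, V = ((e.a : ℝ) - e.c) / n := ⟨_, rfl⟩
  obtain ⟨V2, hV2⟩ : ∃ V, V = ((e.b : ℝ) - e.d) / n := ⟨_, rfl⟩
  have hac : (e.a : ℝ) - e.c = n * V1 := by rw [hV1]; field_simp
  have hbd : (e.b : ℝ) - e.d = n * V2 := by rw [hV2]; field_simp
  unfold w3 wV at hne
  rw [← hV1, ← hV2, hac] at hne
  have c1 : (n : ℝ) * e.a / (n * V1) = e.a / V1 := mul_div_mul_left _ _ hn'.ne'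
  have c2 : (n : ℝ) * e.c / (n * V1) = e.c / V1 := mul_div_mul_left _ _ hn'.ne'
  rw [c1, c2] at hne
  have e1 := left_ne_zero_of_mul (left_ne_zero_of_mul hne)
  have e2 := apxn_rho_ne hN (right_ne_zero_of_mul (left_ne_zero_of_mul hne))
  have e3 := apxn_rho_ne hN (right_ne_zero_of_mul hne)
  have e4 : h (V1 * V2 / X) * ps0 (Real.log V1 - Real.log V2) ≠ 0 := fun h0 => e1 (by rw [h0]; ring)
  have e5 : h1 < V1 * V2 / X := by
    by_contra h0
    exact left_ne_zero_of_mul e4 (hh.lo _ (not_lt.1 h0))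
  have e6 : |Real.log V1 - Real.log V2| < 1 := by
    by_contra h0
    exact right_ne_zero_of_mul e4 (limh_ps0_zero (not_lt.1 h0))
  have p1 : 0 < V1 := by
    by_contra h3
    have h4 : (e.a : ℝ) / V1 ≤ 0 := div_nonpos_of_nonneg_of_nonpos ha0.le (not_lt.1 h3)
    linarith [e2.1]
  have p12 : h1 * X < V1 * V2 := by rwa [lt_div_iff₀ hX] at e5
  have p2 : 0 < V2 := by
    by_contra h3
    have h4 : V1 * V2 ≤ 0 := mul_nonpos_of_nonneg_of_nonpos p1.le (not_lt.1 h3)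
    have h5 : 0 < h1 * X := mul_pos hh.pos hX
    linarith
  rw [lt_div_iff₀ p1, div_lt_iff₀ p1] at e2 e3
  obtain ⟨M, hM⟩ : ∃ M : ℝ, M = J + N := ⟨_, rfl⟩
  rw [← hM] at e2 e3 ⊢
  have hM1 : 1 ≤ M := by rw [hM]; linarith
  -- the other two entries
  have k1 : (n : ℝ) * (e.b * V1 - e.a * V2) = n * h0 := by
    have h3 : (n : ℝ) * (e.b * V1 - e.a * V2) = e.b * (n * V1) - e.a * (n * V2) := by ring
    rw [h3, ← hac, ← hbd]
    linarith
  have k2 : (e.b : ℝ) * V1 = e.a * V2 + h0 := by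
    have := mul_left_cancel₀ hn'.ne' k1
    linarith
  have k3 : (e.d : ℝ) * V1 = e.c * V2 + h0 := by
    have h3 : (e.d : ℝ) * V1 = e.b * V1 - n * V2 * V1 := by rw [← hbd]; ring
    have h4 : (e.c : ℝ) * V2 = e.a * V2 - n * V1 * V2 := by rw [← hac]; ring
    rw [h3, h4]
    linarith
  have hh0 : (h0 : ℝ) ≤ V2 * V1 := by
    rw [div_le_iff₀ hh.pos] at hX1
    linarith
  have hh00 : (0 : ℝ) ≤ h0 := Nat.cast_nonneg _
  have key : ∀ v w : ℝ, J * V1 < v → v < M * V1 → w * V1 = v * V2 + h0 →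
      V2 ≤ w ∧ w ≤ (M + 1) * V2 := by
    intro v w hv1 hv2 hw
    have h5 : V1 ≤ v := by
      have : 1 * V1 ≤ J * V1 := mul_le_mul_of_nonneg_right hJ' p1.le
      linarith
    constructor
    · have h6 : V2 * V1 ≤ w * V1 := by
        rw [hw]
        have := mul_le_mul_of_nonneg_right h5 p2.le
        linarith
      exact le_of_mul_le_mul_right h6 p1
    · have h6 : w * V1 ≤ (M + 1) * V2 * V1 := by
        rw [hw]
        have := mul_le_mul_of_nonneg_right hv2.le p2.le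
        linarith
      exact le_of_mul_le_mul_right h6 p1
  have b1 := key _ _ e2.1 e2.2 k2
  have b2 := key _ _ e3.1 e3.2 k3
  have lg : ∀ v V c : ℝ, 0 < V → V ≤ v → v ≤ c * V → 1 ≤ c → c ≤ M + 1 →
      0 ≤ Real.log v - Real.log V ∧ Real.log v - Real.log V ≤ Real.log (M + 1) := by
    intro v V c hV h3 h4 h5 h6
    have hv : 0 < v := lt_of_lt_of_le hV h3
    constructor
    · linarith [Real.log_le_log hV h3]
    · have h7 := Real.log_le_log hv h4
      rw [Real.log_mul (by linarith) hV.ne'] at h7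
      have h8 := Real.log_le_log (by linarith : 0 < c) h6
      linarith
  have hva : V1 ≤ e.a := by
    have : 1 * V1 ≤ J * V1 := mul_le_mul_of_nonneg_right hJ' p1.le
    linarith [e2.1]
  have hvc : V1 ≤ e.c := by
    have : 1 * V1 ≤ J * V1 := mul_le_mul_of_nonneg_right hJ' p1.le
    linarith [e3.1]
  have la := lg _ _ M p1 hva e2.2.le hM1 (by linarith)
  have lc := lg _ _ M p1 hvc e3.2.le hM1 (by linarith)
  have lb := lg _ _ (M + 1) p2 b1.1 b1.2 (by linarith) le_rfl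
  have ld := lg _ _ (M + 1) p2 b2.1 b2.2 (by linarith) le_rfl
  have hL : 0 ≤ Real.log (M + 1) := Real.log_nonneg (by linarith)
  rw [abs_lt] at e6
  unfold tS uS
  rw [abs_le, abs_le]
  refine ⟨⟨?_, ?_⟩, ⟨?_, ?_⟩⟩ <;> linarith [la.1, la.2, lb.1, lb.2, lc.1, lc.2, ld.1, ld.2]

/-- consequences of `WN3 ≠ 0` -/
theorem apxn3_W_bound {h : ℝ → ℝ} {h1 h2 : ℝ} (hh : HF h h1 h2) {J N n : ℕ} (hJ : 1 ≤ J) (hN : 1 ≤ N)
    (hn : 1 ≤ n) {y t u : ℝ} (hne : WN3 h J N n y t u ≠ 0) :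
    |t| ≤ Real.log (n + 1) + 1 ∧ |u| ≤ Real.log (n + 1) + 1 := by
  have hJ' : (1 : ℝ) ≤ J := by exact_mod_cast hJ
  have hN' : (1 : ℝ) ≤ N := by exact_mod_cast hN
  unfold WN3 at hne
  have e1 := apxn_WN_ne hh hJ hN hn (left_ne_zero_of_mul hne)
  have e2 : |(u - t) / 2| < 1 := by
    by_contra h3
    apply right_ne_zero_of_mul hne
    rw [limh_ps0_zero (not_lt.1 h3)]
    simp
  rw [abs_lt] at e2
  have h5 : 0 < 2 / ((J : ℝ) + N) := by positivity
  have hn0 : (0 : ℝ) ≤ n := Nat.cast_nonneg _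
  have hL : 0 ≤ Real.log ((n : ℝ) + 1) := Real.log_nonneg (by linarith)
  rw [abs_le, abs_le]
  refine ⟨⟨?_, ?_⟩, ⟨?_, ?_⟩⟩ <;> linarith [e1.2.2.1, e1.2.2.2]

open Classical in
/-- PROOF. Compare `apxN` (`Lib_MP_f1a94e_eq/ApxN.lean`). Let `e ∈ Sn (n h0)`, `y = yS e / X`, `t = tS e`, `u = uS e`, `δ = n h0 / X`. Then `b c = y X`, `a d = (y + δ) X`, so `a^2 = (y+δ) X exp(-t)`, `b^2 = y X exp(-u)`, `c^2 = y X exp u`, `d^2 = (y+δ) X exp t`, all positive:
`a/sqrt X = sqrt(y+δ) exp(-t/2)`, `c / sqrt X = sqrt y exp(u/2)`, and similarly `b`, `d`. The weight `w3` is a function `K (y, t, u, δ)` of these (`A = (a - c)/(n sqrt X)`, `B' = (b - d)/(n sqrt X)`, `h (A B')^2 ps0 (log A - log B')^2 rho (a/(sqrt X A)) rho (c/(sqrt X A))`), and for `δ = 0` it is `WN3`: with `x = exp ((t+u)/2) = c/a = d/b`,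
`A B' = y (1-x)^2/(n^2 x)`, `a/(..A) = n/(1-x)`, `c/(..A) = n x/(1-x)`, `log A - log B' = log (a/b) = (u-t)/2` (`δ = 0`). If `w3 ≠ 0` then with `V1 = (a-c)/n > 0`, `V2 = (b-d)/n > 0`: `h1 X ≤ V1 V2 ≤ h2 X`, `|log V1 - log V2| ≤ 1`, so `V1, V2` are between `c' sqrt X` and `C' sqrt X`, and `J V1 ≤ a, c ≤ (J+N) V1`,
`b, d` are comparable as well (`V1 b - V2 a = h0`, `V1 d - V2 c = h0`): so `y ≥ c'' > 0`, `|t|, |u| ≤ B`. If `WN3 y t u ≠ 0` then also `y ≥ c''`, `|t|, |u| ≤ B` (compact support, and `h (y (1-x)^2/(n^2 x)) ≠ 0`). On the compact set `c''/2 ≤ y ≤ b`, `|t|, |u| ≤ B`, `0 ≤ δ ≤ 1` with `h, rho, ps0` continuous the difference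
`K (y, t, u, δ) - WN3 y t u` tends to `0` uniformly as `δ → 0` (near points where `A` or `B'` is small both weights vanish: `h` is `0` on `(-∞, h1]`; one may replace `A`, `B'` in the denominators and logarithms by `max A c3`, `max B' c3`). The number of `e ∈ SN (n h0) (b X)` with `|t|, |u| ≤ B` is `≤ C b X` (`cnt3`, `X` large). -/
theorem apxN3 (h0 Q n0 : ℕ) (hh0 : 0 < h0) (f g : ℕ → ℂ) (hf : ∀ m, ‖f m‖ ≤ 1) (hg : ∀ m, ‖g m‖ ≤ 1) (h : ℝ → ℝ) (h1 h2 : ℝ)
    (hh : HF h h1 h2) (J N n : ℕ) (hJ : 1 ≤ J) (hN : 1 ≤ N) (hn : 1 ≤ n) (b : ℝ) (hb : 0 < b) :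
    Tendsto (fun X : ℝ => (Gm3 h0 Q n0 f g h J N n (b * X) X - ∑ e ∈ (SN (n * h0) (b * X)).filter (kap3 n Q n0),
      F4 f g (cj f) (cj g) e * WN3 h J N n (yS e / X) (tS e) (uS e)) / X) atTop (nhds 0) := by
  have hn' : (1 : ℝ) ≤ n := by exact_mod_cast hn
  have hJ' : (1 : ℝ) ≤ J := by exact_mod_cast hJ
  have hN' : (1 : ℝ) ≤ N := by exact_mod_cast hN
  obtain ⟨B, hB⟩ : ∃ B : ℝ, B = (2 * Real.log (J + N + 1) + 1) + (Real.log (n + 1) + 1) := ⟨_, rfl⟩
  have hl1 : 0 ≤ Real.log ((J : ℝ) + N + 1) := Real.log_nonneg (by linarith)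
  have hl2 : 0 ≤ Real.log ((n : ℝ) + 1) := Real.log_nonneg (by linarith)
  have hB0 : 0 ≤ B := by linarith
  obtain ⟨C, hC, hcnt⟩ := cnt3 B
  obtain ⟨c3, hc3⟩ : ∃ c3 : ℝ, c3 = h1 / (√(b + 1) * Real.exp (B / 2)) := ⟨_, rfl⟩
  have hc30 : 0 < c3 := by
    rw [hc3]
    have := hh.pos
    positivity
  have hK := apxn3_K_cont hh J N n hc30
  have hcomp : IsCompact (Set.Icc (0 : ℝ) b ×ˢ (Set.Icc (-B) B ×ˢ (Set.Icc (-B) B ×ˢ Set.Icc (0 : ℝ) 1))) :=
    isCompact_Icc.prod (isCompact_Icc.prod (isCompact_Icc.prod isCompact_Icc))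
  have huc := hcomp.uniformContinuousOn_of_continuous hK.continuousOn
  rw [Metric.tendsto_atTop]
  intro ε hε
  have hε' : 0 < ε / (2 * (C * b)) := by positivity
  obtain ⟨η, hη, hK2⟩ := Metric.uniformContinuousOn_iff.1 huc (ε / (2 * (C * b))) hε'
  obtain ⟨m, hm⟩ : ∃ m : ℕ, m = n * h0 := ⟨_, rfl⟩
  have hm0 : 0 < m := by rw [hm]; positivity
  have hm1 : (0 : ℝ) < m := by exact_mod_cast hm0
  refine ⟨max 1 (max (m / b) (max m (max (2 * m / η) (h0 / h1)))), fun X hX => ?_⟩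
  have x1 : 1 ≤ X := (le_max_left _ _).trans hX
  have x2 : m / b ≤ X := ((le_max_left _ _).trans (le_max_right _ _)).trans hX
  have hX' : max (m : ℝ) (max (2 * m / η) (h0 / h1)) ≤ X := ((le_max_right _ _).trans (le_max_right _ _)).trans hX
  have x3 : (m : ℝ) ≤ X := (le_max_left _ _).trans hX'
  have x4 : 2 * m / η ≤ X := ((le_max_left _ _).trans (le_max_right _ _)).trans hX'
  have x5 : (h0 : ℝ) / h1 ≤ X := ((le_max_right _ _).trans (le_max_right _ _)).trans hX'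
  have hX0 : 0 < X := by linarith
  have y1 : (m : ℝ) ≤ b * X := by
    rw [div_le_iff₀ hb] at x2
    linarith
  have y2 : (m : ℝ) / X ≤ 1 := by
    rw [div_le_one hX0]
    exact x3
  have y3 : (m : ℝ) / X < η := by
    rw [div_le_iff₀ hη] at x4
    rw [div_lt_iff₀ hX0]
    nlinarith
  have hterm : ∀ e ∈ SN m (b * X), ‖((w3 h J N n X e : ℝ) : ℂ) - WN3 h J N n (yS e / X) (tS e) (uS e)‖ ≤
      if |tS e| ≤ B ∧ |uS e| ≤ B then ε / (2 * (C * b)) else 0 := by
    intro e he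
    rw [mem_SN] at he
    have hm' := yS_pos he.1
    have hy : 0 < yS e / X := div_pos (by linarith) hX0
    have hyb : yS e / X ≤ b := by
      rw [div_le_iff₀ hX0]
      exact he.2
    split_ifs with ht
    · rw [apxn3_w hh hJ hN hn hb hX0 he.1 he.2 ht.1 ht.2 x3,
        ← apxn3_K_zero (J := J) (N := N) hh hn hb hy hyb ht.1 ht.2, ← hc3, ← Complex.ofReal_sub,
        Complex.norm_real, ← dist_eq_norm]
      refine (hK2 _ ?_ _ ?_ ?_).le
      · rw [abs_le, abs_le] at ht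
        exact ⟨⟨hy.le, hyb⟩, ⟨ht.1, ⟨ht.2, ⟨by positivity, y2⟩⟩⟩⟩
      · rw [abs_le, abs_le] at ht
        exact ⟨⟨hy.le, hyb⟩, ⟨ht.1, ⟨ht.2, ⟨le_refl _, zero_le_one⟩⟩⟩⟩
      · rw [Prod.dist_eq, Prod.dist_eq, Prod.dist_eq]
        simp only [dist_self]
        rw [Real.dist_eq, sub_zero, abs_of_nonneg (by positivity : (0 : ℝ) ≤ m / X)]
        exact max_lt hη (max_lt hη (max_lt hη y3))
    · have z1 : w3 h J N n X e = 0 := by
        by_contra h3
        have := apxn3_w_bound hh hJ hN hn hX0 x5 (by rw [← hm]; exact he.1) h3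
        exact ht ⟨by rw [hB]; linarith [this.1], by rw [hB]; linarith [this.2]⟩
      have z2 : WN3 h J N n (yS e / X) (tS e) (uS e) = 0 := by
        by_contra h3
        have := apxn3_W_bound hh hJ hN hn h3
        exact ht ⟨by rw [hB]; linarith [this.1], by rw [hB]; linarith [this.2]⟩
      rw [z1, z2]
      simp
  rw [dist_zero_right, norm_div, Complex.norm_real, Real.norm_eq_abs, abs_of_pos hX0,
    div_lt_iff₀ hX0]
  unfold Gm3
  rw [← sum_sub_distrib, ← hm]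
  have hs : ‖∑ e ∈ (SN m (b * X)).filter (kap3 n Q n0),
      (F4 f g (cj f) (cj g) e * ((w3 h J N n X e : ℝ) : ℂ) -
        F4 f g (cj f) (cj g) e * WN3 h J N n (yS e / X) (tS e) (uS e))‖ ≤
      ∑ e ∈ SN m (b * X), if |tS e| ≤ B ∧ |uS e| ≤ B then ε / (2 * (C * b)) else 0 := by
    refine (norm_sum_le _ _).trans ?_
    refine (sum_le_sum (g := fun e => if |tS e| ≤ B ∧ |uS e| ≤ B then ε / (2 * (C * b)) else 0)
      fun e he => ?_).trans ?_
    · rw [← mul_sub, norm_mul]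
      have h3 := hterm e (mem_filter.1 he).1
      have h4 : ‖F4 f g (cj f) (cj g) e‖ ≤ 1 :=
        norm_F4_le hf hg (fun k => by rw [norm_cj]; exact hf k) (fun k => by rw [norm_cj]; exact hg k) e
      calc ‖F4 f g (cj f) (cj g) e‖ * _ ≤ 1 * _ := mul_le_mul_of_nonneg_right h4 (norm_nonneg _)
        _ ≤ _ := by rw [one_mul]; exact h3
    · refine sum_le_sum_of_subset_of_nonneg (filter_subset _ _) fun e _ _ => ?_
      split_ifs
      · exact hε'.le
      · exact le_refl _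
  refine lt_of_le_of_lt hs ?_
  rw [← sum_filter, sum_const, nsmul_eq_mul]
  have h5 := hcnt m hm0 (b * X) y1
  calc (((SN m (b * X)).filter (fun e => |tS e| ≤ B ∧ |uS e| ≤ B)).card : ℝ) * (ε / (2 * (C * b)))
      ≤ C * (b * X) * (ε / (2 * (C * b))) := mul_le_mul_of_nonneg_right (by convert h5) hε'.le
    _ = ε * X / 2 := by field_simp
    _ < ε * X := by
      have : 0 < ε * X := by positivity
      linarith

end Pool.Agent.Spl

end

/-! ### from `Lib_MP_92ef0c_la.Apx4` -/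

section

/-!
# The limits of the weights, general bounded functions
-/

set_option autoImplicit false

namespace Pool.Agent.SplL

open Finset Pool.Agent.Spl Pool.Agent.SplB Pool.Agent.GaussMR Pool.Agent.OmAll Pool.Agent.OmEq MeasureTheory Filter

open Classical in
/-- PROOF. Copy of the last theorem `apxN3` of `Lib_MP_92ef0c_sp/ApxN3.lean` (the lemmas before it can be imported): only the bound `1` for the product of the four functions is used there. -/
theorem apxN4 (h0 Q n0 : ℕ) (hh0 : 0 < h0) (Φ : ℝ → Q4 → ℂ) (hΦ : ∀ X e, ‖Φ X e‖ ≤ 1) (h : ℝ → ℝ) (h1 h2 : ℝ)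
    (hh : HF h h1 h2) (J N n : ℕ) (hJ : 1 ≤ J) (hN : 1 ≤ N) (hn : 1 ≤ n) (b : ℝ) (hb : 0 < b) :
    Tendsto (fun X : ℝ => (∑ e ∈ (SN (n * h0) (b * X)).filter (kap3 n Q n0), Φ X e * ((w3 h J N n X e : ℝ) : ℂ) -
      ∑ e ∈ (SN (n * h0) (b * X)).filter (kap3 n Q n0), Φ X e * WN3 h J N n (yS e / X) (tS e) (uS e)) / X)
      atTop (nhds 0) := by
  have hn' : (1 : ℝ) ≤ n := by exact_mod_cast hn
  have hJ' : (1 : ℝ) ≤ J := by exact_mod_cast hJ
  have hN' : (1 : ℝ) ≤ N := by exact_mod_cast hN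
  obtain ⟨B, hB⟩ : ∃ B : ℝ, B = (2 * Real.log (J + N + 1) + 1) + (Real.log (n + 1) + 1) := ⟨_, rfl⟩
  have hl1 : 0 ≤ Real.log ((J : ℝ) + N + 1) := Real.log_nonneg (by linarith)
  have hl2 : 0 ≤ Real.log ((n : ℝ) + 1) := Real.log_nonneg (by linarith)
  have hB0 : 0 ≤ B := by linarith
  obtain ⟨C, hC, hcnt⟩ := cnt3 B
  obtain ⟨c3, hc3⟩ : ∃ c3 : ℝ, c3 = h1 / (√(b + 1) * Real.exp (B / 2)) := ⟨_, rfl⟩
  have hc30 : 0 < c3 := by
    rw [hc3]
    have := hh.pos
    positivity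
  have hK := apxn3_K_cont hh J N n hc30
  have hcomp : IsCompact (Set.Icc (0 : ℝ) b ×ˢ (Set.Icc (-B) B ×ˢ (Set.Icc (-B) B ×ˢ Set.Icc (0 : ℝ) 1))) :=
    isCompact_Icc.prod (isCompact_Icc.prod (isCompact_Icc.prod isCompact_Icc))
  have huc := hcomp.uniformContinuousOn_of_continuous hK.continuousOn
  rw [Metric.tendsto_atTop]
  intro ε hε
  have hε' : 0 < ε / (2 * (C * b)) := by positivity
  obtain ⟨η, hη, hK2⟩ := Metric.uniformContinuousOn_iff.1 huc (ε / (2 * (C * b))) hε'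
  obtain ⟨m, hm⟩ : ∃ m : ℕ, m = n * h0 := ⟨_, rfl⟩
  have hm0 : 0 < m := by rw [hm]; positivity
  have hm1 : (0 : ℝ) < m := by exact_mod_cast hm0
  refine ⟨max 1 (max (m / b) (max m (max (2 * m / η) (h0 / h1)))), fun X hX => ?_⟩
  have x1 : 1 ≤ X := (le_max_left _ _).trans hX
  have x2 : m / b ≤ X := ((le_max_left _ _).trans (le_max_right _ _)).trans hX
  have hX' : max (m : ℝ) (max (2 * m / η) (h0 / h1)) ≤ X := ((le_max_right _ _).trans (le_max_right _ _)).trans hX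
  have x3 : (m : ℝ) ≤ X := (le_max_left _ _).trans hX'
  have x4 : 2 * m / η ≤ X := ((le_max_left _ _).trans (le_max_right _ _)).trans hX'
  have x5 : (h0 : ℝ) / h1 ≤ X := ((le_max_right _ _).trans (le_max_right _ _)).trans hX'
  have hX0 : 0 < X := by linarith
  have y1 : (m : ℝ) ≤ b * X := by
    rw [div_le_iff₀ hb] at x2
    linarith
  have y2 : (m : ℝ) / X ≤ 1 := by
    rw [div_le_one hX0]
    exact x3
  have y3 : (m : ℝ) / X < η := by
    rw [div_le_iff₀ hη] at x4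
    rw [div_lt_iff₀ hX0]
    nlinarith
  have hterm : ∀ e ∈ SN m (b * X), ‖((w3 h J N n X e : ℝ) : ℂ) - WN3 h J N n (yS e / X) (tS e) (uS e)‖ ≤
      if |tS e| ≤ B ∧ |uS e| ≤ B then ε / (2 * (C * b)) else 0 := by
    intro e he
    rw [mem_SN] at he
    have hm' := yS_pos he.1
    have hy : 0 < yS e / X := div_pos (by linarith) hX0
    have hyb : yS e / X ≤ b := by
      rw [div_le_iff₀ hX0]
      exact he.2
    split_ifs with ht
    · rw [apxn3_w hh hJ hN hn hb hX0 he.1 he.2 ht.1 ht.2 x3,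
        ← apxn3_K_zero (J := J) (N := N) hh hn hb hy hyb ht.1 ht.2, ← hc3, ← Complex.ofReal_sub,
        Complex.norm_real, ← dist_eq_norm]
      refine (hK2 _ ?_ _ ?_ ?_).le
      · rw [abs_le, abs_le] at ht
        exact ⟨⟨hy.le, hyb⟩, ⟨ht.1, ⟨ht.2, ⟨by positivity, y2⟩⟩⟩⟩
      · rw [abs_le, abs_le] at ht
        exact ⟨⟨hy.le, hyb⟩, ⟨ht.1, ⟨ht.2, ⟨le_refl _, zero_le_one⟩⟩⟩⟩
      · rw [Prod.dist_eq, Prod.dist_eq, Prod.dist_eq]
        simp only [dist_self]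
        rw [Real.dist_eq, sub_zero, abs_of_nonneg (by positivity : (0 : ℝ) ≤ m / X)]
        exact max_lt hη (max_lt hη (max_lt hη y3))
    · have z1 : w3 h J N n X e = 0 := by
        by_contra h3
        have := apxn3_w_bound hh hJ hN hn hX0 x5 (by rw [← hm]; exact he.1) h3
        exact ht ⟨by rw [hB]; linarith [this.1], by rw [hB]; linarith [this.2]⟩
      have z2 : WN3 h J N n (yS e / X) (tS e) (uS e) = 0 := by
        by_contra h3
        have := apxn3_W_bound hh hJ hN hn h3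
        exact ht ⟨by rw [hB]; linarith [this.1], by rw [hB]; linarith [this.2]⟩
      rw [z1, z2]
      simp
  rw [dist_zero_right, norm_div, Complex.norm_real, Real.norm_eq_abs, abs_of_pos hX0,
    div_lt_iff₀ hX0]
  rw [← sum_sub_distrib, ← hm]
  have hs : ‖∑ e ∈ (SN m (b * X)).filter (kap3 n Q n0),
      (Φ X e * ((w3 h J N n X e : ℝ) : ℂ) -
        Φ X e * WN3 h J N n (yS e / X) (tS e) (uS e))‖ ≤
      ∑ e ∈ SN m (b * X), if |tS e| ≤ B ∧ |uS e| ≤ B then ε / (2 * (C * b)) else 0 := by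
    refine (norm_sum_le _ _).trans ?_
    refine (sum_le_sum (g := fun e => if |tS e| ≤ B ∧ |uS e| ≤ B then ε / (2 * (C * b)) else 0)
      fun e he => ?_).trans ?_
    · rw [← mul_sub, norm_mul]
      have h3 := hterm e (mem_filter.1 he).1
      have h4 : ‖Φ X e‖ ≤ 1 := hΦ X e
      calc ‖Φ X e‖ * _ ≤ 1 * _ := mul_le_mul_of_nonneg_right h4 (norm_nonneg _)
        _ ≤ _ := by rw [one_mul]; exact h3
    · refine sum_le_sum_of_subset_of_nonneg (filter_subset _ _) fun e _ _ => ?_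
      split_ifs
      · exact hε'.le
      · exact le_refl _
  refine lt_of_le_of_lt hs ?_
  rw [← sum_filter, sum_const, nsmul_eq_mul]
  have h5 := hcnt m hm0 (b * X) y1
  calc (((SN m (b * X)).filter (fun e => |tS e| ≤ B ∧ |uS e| ≤ B)).card : ℝ) * (ε / (2 * (C * b)))
      ≤ C * (b * X) * (ε / (2 * (C * b))) := mul_le_mul_of_nonneg_right (by convert h5) hε'.le
    _ = ε * X / 2 := by field_simp
    _ < ε * X := by
      have : 0 < ε * X := by positivity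
      linarith

/-- PROOF. Copy of the last theorem `apxO3` of `Lib_MP_92ef0c_sp/ApxO3.lean`. -/
theorem apxO4 (h0 Q n0 : ℕ) (hh0 : 0 < h0) (Φ : ℝ → Q4 → ℂ) (hΦ : ∀ X e, ‖Φ X e‖ ≤ 1) (h : ℝ → ℝ) (h1 h2 : ℝ)
    (hh : HF h h1 h2) (J N : ℕ) (hJ : 1 ≤ J) (hN : 1 ≤ N) (b : ℝ) (hb : 0 < b) :
    Tendsto (fun X : ℝ => (∑ e ∈ SQ h0 Q n0 (b * X), Φ X e * ((wV h X e.a e.b * rho J N ((e.c : ℝ) / e.a) : ℝ) : ℂ) -
      ∑ e ∈ SQ h0 Q n0 (b * X), Φ X e * WO3 h J N (yS e / X) (tS e) (uS e)) / X) atTop (nhds 0) := by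
  obtain ⟨B, hB⟩ : ∃ B : ℝ, B = Real.log (3 * (J + N) + h0) + 2 := ⟨_, rfl⟩
  obtain ⟨C, hC, hcnt⟩ := cnt3 B
  have hcomp : IsCompact (Set.Icc h1 b ×ˢ (Set.Icc (-B) B ×ˢ (Set.Icc (-B) B ×ˢ Set.Icc (0 : ℝ) 1))) :=
    isCompact_Icc.prod (isCompact_Icc.prod (isCompact_Icc.prod isCompact_Icc))
  have hKc := apxo3_K_cont hh J N
    (Set.Icc h1 b ×ˢ (Set.Icc (-B) B ×ˢ (Set.Icc (-B) B ×ˢ Set.Icc (0 : ℝ) 1)))
    (fun p hp => ⟨lt_of_lt_of_le hh.pos hp.1.1, hp.2.2.2.1⟩)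
  have huc := hcomp.uniformContinuousOn_of_continuous hKc
  rw [Metric.tendsto_atTop]
  intro ε hε
  have hε' : 0 < ε / (2 * (C * b)) := by positivity
  have hh0' : (0 : ℝ) < h0 := by exact_mod_cast hh0
  obtain ⟨η, hη, hK2⟩ := Metric.uniformContinuousOn_iff.1 huc (ε / (2 * (C * b))) hε'
  refine ⟨max 1 (max h0 (max (h0 / b) (2 * h0 / η))), fun X hX => ?_⟩
  have x1 : 1 ≤ X := (le_max_left _ _).trans hX
  have x2 : (h0 : ℝ) ≤ X := ((le_max_left _ _).trans (le_max_right _ _)).trans hX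
  have x3 : (h0 : ℝ) / b ≤ X :=
    ((le_max_left _ _).trans ((le_max_right _ _).trans (le_max_right _ _))).trans hX
  have x4 : 2 * (h0 : ℝ) / η ≤ X :=
    ((le_max_right _ _).trans ((le_max_right _ _).trans (le_max_right _ _))).trans hX
  have hX0 : 0 < X := by linarith
  have y1 : (h0 : ℝ) ≤ b * X := by
    rw [div_le_iff₀ hb] at x3
    linarith
  have y2 : (h0 : ℝ) / X ≤ 1 := by
    rw [div_le_one hX0]
    exact x2
  have y3 : (h0 : ℝ) / X < η := by
    rw [div_le_iff₀ hη] at x4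
    rw [div_lt_iff₀ hX0]
    nlinarith
  have y4 : 0 ≤ (h0 : ℝ) / X := by positivity
  have hterm : ∀ e ∈ SQ h0 Q n0 (b * X), ‖((wV h X e.a e.b * rho J N ((e.c : ℝ) / e.a) : ℝ) : ℂ) -
      WO3 h J N (yS e / X) (tS e) (uS e)‖ ≤
        if |tS e| ≤ B ∧ |uS e| ≤ B then ε / (2 * (C * b)) else 0 := by
    intro e he
    rw [mem_SQ] at he
    obtain ⟨⟨he1, he2⟩, -⟩ := he
    have hy0 : 0 < yS e / X := div_pos (by linarith [yS_pos he1]) hX0
    have hyb : yS e / X ≤ b := by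
      rw [div_le_iff₀ hX0]
      exact he2
    by_cases hall : h1 ≤ yS e / X ∧ |tS e| ≤ B ∧ |uS e| ≤ B
    · obtain ⟨k1, k2, k3⟩ := hall
      rw [if_pos ⟨k2, k3⟩, apxo3_w h J N hX0 he1, ← apxo3_K_zero h J N hy0, ← Complex.ofReal_sub,
        Complex.norm_real, ← dist_eq_norm]
      rw [abs_le] at k2 k3
      refine (hK2 _ ?_ _ ?_ ?_).le
      · exact ⟨⟨k1, hyb⟩, ⟨k2, ⟨k3, ⟨y4, y2⟩⟩⟩⟩
      · exact ⟨⟨k1, hyb⟩, ⟨k2, ⟨k3, ⟨le_refl _, zero_le_one⟩⟩⟩⟩
      · rw [Prod.dist_eq, Prod.dist_eq, Prod.dist_eq]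
        simp only [dist_self]
        rw [Real.dist_eq, sub_zero, abs_of_nonneg y4]
        exact max_lt hη (max_lt hη (max_lt hη y3))
    · have z1 : wV h X e.a e.b * rho J N ((e.c : ℝ) / e.a) = 0 := by
        by_contra h3
        apply hall
        rw [hB]
        exact apxo3_supp hh hJ hN hX0 he1 h3
      have z2 : WO3 h J N (yS e / X) (tS e) (uS e) = 0 := by
        by_contra h3
        apply hall
        rw [hB]
        exact apxo3_suppW hh hJ hN h3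
      rw [z1, z2]
      simp only [Complex.ofReal_zero, sub_self, norm_zero]
      split_ifs
      · exact hε'.le
      · exact le_refl _
  rw [dist_zero_right, norm_div, Complex.norm_real, Real.norm_eq_abs, abs_of_pos hX0,
    div_lt_iff₀ hX0]
  rw [← sum_sub_distrib]
  have hs : ‖∑ e ∈ SQ h0 Q n0 (b * X),
      (Φ X e * ((wV h X e.a e.b * rho J N ((e.c : ℝ) / e.a) : ℝ) : ℂ) -
        Φ X e * WO3 h J N (yS e / X) (tS e) (uS e))‖ ≤
      ∑ e ∈ SN h0 (b * X), if |tS e| ≤ B ∧ |uS e| ≤ B then ε / (2 * (C * b)) else 0 := by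
    refine (norm_sum_le _ _).trans ?_
    have hsub : SQ h0 Q n0 (b * X) ⊆ SN h0 (b * X) := by
      intro e he
      rw [mem_SQ] at he
      exact mem_SN.2 he.1
    refine le_trans (sum_le_sum fun e he => ?_)
      (sum_le_sum_of_subset_of_nonneg hsub fun e _ _ => ?_)
    · rw [← mul_sub, norm_mul]
      have h3 := hterm e he
      have h4 := hΦ X e
      exact (mul_le_of_le_one_left (norm_nonneg _) h4).trans h3
    · split_ifs
      · exact hε'.le
      · exact le_refl _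
  refine lt_of_le_of_lt hs ?_
  rw [← sum_filter, sum_const, nsmul_eq_mul]
  have h5 := hcnt h0 hh0 (b * X) y1
  have h6 : (((SN h0 (b * X)).filter (fun e => |tS e| ≤ B ∧ |uS e| ≤ B)).card : ℝ) *
      (ε / (2 * (C * b))) ≤ C * (b * X) * (ε / (2 * (C * b))) := by
    refine mul_le_mul_of_nonneg_right (le_trans (le_of_eq ?_) h5) hε'.le
    congr 2
  refine lt_of_le_of_lt h6 ?_
  have h7 : C * (b * X) * (ε / (2 * (C * b))) = ε * X / 2 := by field_simp
  rw [h7]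
  have : 0 < ε * X := by positivity
  linarith

end Pool.Agent.SplL

end
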