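import Pool.Agent.Lib_MP_92ef0c_m.M37
import Pool.Agent.Lib_MP_92ef0c_m.M42

/-!
# MP_92ef0c_nt, split pairs: merged library part M47

Concatenation of smaller files (each in its own section), only to save build time.
-/

/-! ### from `Lib_MP_92ef0c_sp.Apx3` -/

section

/-!
# The limit weights
-/

set_option autoImplicit false

namespace Pool.Agent.Spl

open Finset Pool.Agent.GaussMR Pool.Agent.OmAll Pool.Agent.OmEq MeasureTheory Filter

/-- PROOF. For fixed `t` substitute `s = t + u` (translation), then exchange the integrals (continuous, compact support), and for fixed `s` substitute `v = s / 2 - t`: `∫∫ F s * G' (s/2 - t) ds dt = (∫ F)(∫ G')`. -/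
theorem int_split (F G' : ℝ → ℂ) (hF : Continuous F) (hF' : HasCompactSupport F) (hG : Continuous G')
    (hG' : HasCompactSupport G') : (∫ t, ∫ u, F (t + u) * G' ((u - t) / 2)) = (∫ s, F s) * ∫ v, G' v := by
  have h1 : ∀ t : ℝ, (∫ u, F (t + u) * G' ((u - t) / 2)) = ∫ s, F s * G' (s / 2 - t) := by
    intro t
    have h2 := integral_add_left_eq_self (μ := volume) (fun s : ℝ => F s * G' (s / 2 - t)) t
    rw [← h2]
    refine integral_congr_ae (Eventually.of_forall fun u => ?_)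
    show F (t + u) * G' ((u - t) / 2) = F (t + u) * G' ((t + u) / 2 - t)
    congr 2
    ring
  simp only [h1]
  have hc : Continuous (Function.uncurry fun t s : ℝ => F s * G' (s / 2 - t)) :=
    (hF.comp continuous_snd).mul (hG.comp (by fun_prop))
  have hs : HasCompactSupport (Function.uncurry fun t s : ℝ => F s * G' (s / 2 - t)) := by
    have hK : IsCompact ((fun p : ℝ × ℝ => ((p.1 / 2 - p.2, p.1) : ℝ × ℝ)) ''
        (tsupport F ×ˢ tsupport G')) :=
      (hF'.isCompact.prod hG'.isCompact).image (by fun_prop)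
    refine HasCompactSupport.of_support_subset_isCompact hK ?_
    rintro ⟨t, s⟩ hts
    have hne : F s * G' (s / 2 - t) ≠ 0 := hts
    refine ⟨(s, s / 2 - t), ⟨subset_tsupport _ (left_ne_zero_of_mul hne),
      subset_tsupport _ (right_ne_zero_of_mul hne)⟩, ?_⟩
    show ((s / 2 - (s / 2 - t), s) : ℝ × ℝ) = (t, s)
    rw [sub_sub_cancel]
  rw [integral_integral_swap_of_hasCompactSupport hc hs]
  have h3 : ∀ s : ℝ, (∫ t, F s * G' (s / 2 - t)) = F s * ∫ v, G' v := by
    intro s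
    rw [integral_const_mul, integral_sub_left_eq_self]
  simp only [h3]
  rw [integral_mul_const]

/-- a two variable test function in `t + u` times a cut-off in `(u - t) / 2` -/
theorem apx3_ts {b : ℝ} {W : ℝ → ℝ → ℂ} (hW : TF b W) {q : ℝ → ℝ} (hq : Continuous q)
    (hq0 : ∀ v, 1 ≤ |v| → q v = 0) : TS b (fun y t u => W y (t + u) * ((q ((u - t) / 2) : ℝ) : ℂ)) := by
  refine ⟨?_, ?_, ?_, ?_⟩
  · have c1 : Continuous fun v : ℝ × ℝ × ℝ => Function.uncurry W (v.1, v.2.1 + v.2.2) :=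
      hW.cont.comp (by fun_prop)
    have c2 : Continuous fun v : ℝ × ℝ × ℝ => ((q ((v.2.2 - v.2.1) / 2) : ℝ) : ℂ) :=
      Complex.continuous_ofReal.comp (hq.comp (by fun_prop))
    exact c1.mul c2
  · have hK : IsCompact ((fun p : (ℝ × ℝ) × ℝ => ((p.1.1, p.1.2 / 2 - p.2, p.1.2 / 2 + p.2) : ℝ × ℝ × ℝ)) ''
        (tsupport (Function.uncurry W) ×ˢ Set.Icc (-1 : ℝ) 1)) :=
      (hW.supp.isCompact.prod isCompact_Icc).image (by fun_prop)
    refine HasCompactSupport.of_support_subset_isCompact hK ?_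
    rintro ⟨y, t, u⟩ hv
    have hne : W y (t + u) * ((q ((u - t) / 2) : ℝ) : ℂ) ≠ 0 := hv
    have h1 : Function.uncurry W (y, t + u) ≠ 0 := left_ne_zero_of_mul hne
    have h2 : |(u - t) / 2| < 1 := by
      by_contra h3
      have h4 := hq0 _ (not_lt.1 h3)
      rw [h4] at hne
      simp at hne
    rw [abs_lt] at h2
    refine ⟨((y, t + u), (u - t) / 2), ⟨subset_tsupport _ h1, ⟨h2.1.le, h2.2.le⟩⟩, ?_⟩
    show ((y, (t + u) / 2 - (u - t) / 2, (t + u) / 2 + (u - t) / 2) : ℝ × ℝ × ℝ) = (y, t, u)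
    have e1 : (t + u) / 2 - (u - t) / 2 = t := by ring
    have e2 : (t + u) / 2 + (u - t) / 2 = u := by ring
    rw [e1, e2]
  · intro y t u hy
    show W y (t + u) * _ = 0
    rw [hW.lo y (t + u) hy, zero_mul]
  · intro y t u hy
    show W y (t + u) * _ = 0
    rw [hW.hi y (t + u) hy, zero_mul]

/-- `∫ ps0 ^ 2 = 2 / 3` -/
theorem apx3_ps0_sq : ∫ v, ((ps0 v ^ 2 : ℝ) : ℂ) = (2 / 3 : ℂ) := by
  have hcont : Continuous fun v : ℝ => ps0 v ^ 2 := limh_ps0_cont.pow 2
  have h1 : ∫ t, ps0 t ^ 2 = ∫ t in Set.Ioc (-1 : ℝ) 1, ps0 t ^ 2 := by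
    symm
    apply setIntegral_eq_integral_of_forall_compl_eq_zero
    intro t ht
    have h0 : ps0 t = 0 := by
      apply limh_ps0_zero
      rw [Set.mem_Ioc, not_and_or, not_lt, not_le] at ht
      rcases ht with ht | ht
      · rw [abs_of_nonpos (by linarith)]
        linarith
      · rw [abs_of_pos (by linarith)]
        exact ht.le
    rw [h0, zero_pow two_ne_zero]
  have h2 : ∫ t in (-1 : ℝ)..0, ps0 t ^ 2 = ∫ t in (-1 : ℝ)..0, (1 + t) ^ 2 := by
    apply intervalIntegral.integral_congr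
    intro t ht
    rw [Set.uIcc_of_le (by norm_num), Set.mem_Icc] at ht
    show ps0 t ^ 2 = (1 + t) ^ 2
    unfold ps0
    rw [abs_of_nonpos ht.2, max_eq_right (by linarith [ht.1])]
    ring
  have h3 : ∫ t in (0 : ℝ)..1, ps0 t ^ 2 = ∫ t in (0 : ℝ)..1, (1 - t) ^ 2 := by
    apply intervalIntegral.integral_congr
    intro t ht
    rw [Set.uIcc_of_le (by norm_num), Set.mem_Icc] at ht
    show ps0 t ^ 2 = (1 - t) ^ 2
    unfold ps0
    rw [abs_of_nonneg ht.1, max_eq_right (by linarith [ht.2])]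
  have h4 : ∫ t in (-1 : ℝ)..0, (1 + t) ^ 2 = 1 / 3 := by
    have h5 := intervalIntegral.integral_eq_sub_of_hasDerivAt (a := (-1 : ℝ)) (b := 0)
      (f := fun t : ℝ => (1 + t) ^ 3 / 3) (f' := fun t : ℝ => (1 + t) ^ 2)
      (fun t _ => by
        have h6 := (((hasDerivAt_id t).const_add (1 : ℝ)).pow 3).div_const 3
        exact h6.congr_deriv (by simp)) (Continuous.intervalIntegrable (by fun_prop) _ _)
    rw [h5]
    norm_num
  have h5 : ∫ t in (0 : ℝ)..1, (1 - t) ^ 2 = 1 / 3 := by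
    have h5 := intervalIntegral.integral_eq_sub_of_hasDerivAt (a := (0 : ℝ)) (b := 1)
      (f := fun t : ℝ => -((1 - t) ^ 3 / 3)) (f' := fun t : ℝ => (1 - t) ^ 2)
      (fun t _ => by
        have h6 := ((((hasDerivAt_id t).const_sub (1 : ℝ)).pow 3).div_const 3).neg
        exact h6.congr_deriv (by simp; ring)) (Continuous.intervalIntegrable (by fun_prop) _ _)
    rw [h5]
    norm_num
  have h6 : ∫ t, ps0 t ^ 2 = 2 / 3 := by
    rw [h1, ← intervalIntegral.integral_of_le (by norm_num),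
      ← intervalIntegral.integral_add_adjacent_intervals (b := (0 : ℝ))
        (hcont.intervalIntegrable _ _) (hcont.intervalIntegrable _ _), h2, h3, h4, h5]
    norm_num
  have h7 : ∫ v, ((ps0 v ^ 2 : ℝ) : ℂ) = ((∫ v, ps0 v ^ 2 : ℝ) : ℂ) := integral_ofReal
  rw [h7, h6]
  push_cast
  ring

/-- slices of test functions -/
theorem apx3_slice {b : ℝ} {W : ℝ → ℝ → ℂ} (hW : TF b W) (y : ℝ) :
    Continuous (W y) ∧ HasCompactSupport (W y) :=
  ⟨limh_slice_cont hW y, limh_slice_supp hW y⟩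

/-- PROOF. `WN_tf` (`Lib_MP_f1a94e_eq/ApxN.lean`): `(y, s) ↦ WN y s` is continuous with compact support; `(y, t, u) ↦ (y, t + u, (u - t)/2)` is a linear isomorphism; `ps0` is continuous and vanishes outside `[-1, 1]`. -/
theorem WN3_ts (h : ℝ → ℝ) (h1 h2 : ℝ) (hh : HF h h1 h2) (J N n : ℕ) (hJ : 1 ≤ J) (hN : 1 ≤ N) (hn : 1 ≤ n) (b : ℝ)
    (hb : ((J : ℝ) + N) ^ 2 * h2 ≤ b) : TS b (WN3 h J N n) := by
  exact apx3_ts (WN_tf h h1 h2 hh J N n hJ hN hn b hb) (q := fun v => ps0 v ^ 2) (limh_ps0_cont.pow 2)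
    (fun v hv => by rw [limh_ps0_zero hv, zero_pow two_ne_zero])

/-- PROOF. As `WN3_ts` with `WO_tf`. -/
theorem WO3_ts (h : ℝ → ℝ) (h1 h2 : ℝ) (hh : HF h h1 h2) (J N : ℕ) (hJ : 1 ≤ J) (hN : 1 ≤ N) (b : ℝ)
    (hb : ((J : ℝ) + N) * h2 ≤ b) : TS b (WO3 h J N) := by
  exact apx3_ts (WO_tf h h1 h2 hh J N hJ hN b hb) (q := ps0) limh_ps0_cont
    (fun v hv => limh_ps0_zero hv)

/-- PROOF. `int_split` with `F = WN h J N n y`, `G' v = ps0 v ^ 2`, `∫ ps0 ^ 2 = 2/3`. -/
theorem WN3_int (h : ℝ → ℝ) (h1 h2 : ℝ) (hh : HF h h1 h2) (J N n : ℕ) (hJ : 1 ≤ J) (hN : 1 ≤ N) (hn : 1 ≤ n) (y : ℝ) :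
    (∫ t, ∫ u, WN3 h J N n y t u) = (2 / 3 : ℂ) * ∫ s, WN h J N n y s := by
  obtain ⟨c1, c2⟩ := apx3_slice (WN_tf h h1 h2 hh J N n hJ hN hn _ le_rfl) y
  have hG : Continuous fun v : ℝ => ((ps0 v ^ 2 : ℝ) : ℂ) :=
    Complex.continuous_ofReal.comp (limh_ps0_cont.pow 2)
  have hG' : HasCompactSupport fun v : ℝ => ((ps0 v ^ 2 : ℝ) : ℂ) := by
    apply HasCompactSupport.intro (isCompact_Icc (a := (-1 : ℝ)) (b := 1))
    intro t ht
    have h0 : ps0 t = 0 := by
      apply limh_ps0_zero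
      rw [Set.mem_Icc, not_and_or, not_le, not_le] at ht
      rcases ht with ht | ht
      · rw [abs_of_neg (by linarith)]
        linarith
      · rw [abs_of_pos (by linarith)]
        exact ht.le
    rw [h0]
    simp
  have h3 := int_split (WN h J N n y) (fun v => ((ps0 v ^ 2 : ℝ) : ℂ)) c1 c2 hG hG'
  rw [apx3_ps0_sq, mul_comm] at h3
  exact h3

/-- PROOF. `int_split` with `F = WO h J N y`, `G' = ps0`, `∫ ps0 = 1` (`limh_ps0_intC`). -/
theorem WO3_int (h : ℝ → ℝ) (h1 h2 : ℝ) (hh : HF h h1 h2) (J N : ℕ) (hJ : 1 ≤ J) (hN : 1 ≤ N) (y : ℝ) :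
    (∫ t, ∫ u, WO3 h J N y t u) = ∫ s, WO h J N y s := by
  obtain ⟨c1, c2⟩ := apx3_slice (WO_tf h h1 h2 hh J N hJ hN _ le_rfl) y
  have hG : Continuous fun v : ℝ => ((ps0 v : ℝ) : ℂ) :=
    Complex.continuous_ofReal.comp limh_ps0_cont
  have hG' : HasCompactSupport fun v : ℝ => ((ps0 v : ℝ) : ℂ) := by
    apply HasCompactSupport.intro (isCompact_Icc (a := (-1 : ℝ)) (b := 1))
    intro t ht
    have h0 : ps0 t = 0 := by
      apply limh_ps0_zero
      rw [Set.mem_Icc, not_and_or, not_le, not_le] at ht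
      rcases ht with ht | ht
      · rw [abs_of_neg (by linarith)]
        linarith
      · rw [abs_of_pos (by linarith)]
        exact ht.le
    rw [h0]
    simp
  have h3 := int_split (WO h J N y) (fun v => ((ps0 v : ℝ) : ℂ)) c1 c2 hG hG'
  rw [limh_ps0_intC, mul_one] at h3
  exact h3

end Pool.Agent.Spl

end

/-! ### from `Lib_MP_f1a94e_eq.GramB` -/

section

/-!
# Piece GRAMB: from one class to almost all classes
-/

set_option autoImplicit false

namespace Pool.Agent.OmEq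

open Finset Pool.Agent.GaussMR Pool.Agent.OmAll MeasureTheory Filter

open Classical in
/-- the coefficient of a character in the expansion of a function of the units -/
noncomputable def grambCo (n : ℕ) [NeZero n] (G : ZMod n → ℂ) (χ : DirichletCharacter ℂ n) : ℂ :=
  (n.totient : ℂ)⁻¹ * ∑ u ∈ univ.filter (fun u : ZMod n => IsUnit u), G u * χ u⁻¹

open Classical in
theorem gramb_fourier (n : ℕ) [NeZero n] (G : ZMod n → ℂ) (c : ZMod n) (hc : IsUnit c) :
    G c = ∑ χ : DirichletCharacter ℂ n, grambCo n G χ * χ c := by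
  have hφ : (n.totient : ℂ) ≠ 0 := by
    have := (Nat.totient_pos.mpr (NeZero.pos n)).ne'
    exact_mod_cast this
  have h1 : ∀ χ : DirichletCharacter ℂ n, grambCo n G χ * χ c =
      (n.totient : ℂ)⁻¹ * ∑ u ∈ univ.filter (fun u : ZMod n => IsUnit u), G u * (χ u⁻¹ * χ c) := by
    intro χ
    unfold grambCo
    rw [mul_assoc, Finset.sum_mul]
    congr 1
    refine Finset.sum_congr rfl (fun u _ => ?_)
    ring
  rw [Finset.sum_congr rfl (fun χ _ => h1 χ), ← Finset.mul_sum, Finset.sum_comm]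
  have h2 : ∀ u ∈ univ.filter (fun u : ZMod n => IsUnit u),
      ∑ χ : DirichletCharacter ℂ n, G u * (χ u⁻¹ * χ c) = if u = c then G c * (n.totient : ℂ) else 0 := by
    intro u hu
    rw [← Finset.mul_sum, DirichletCharacter.sum_char_inv_mul_char_eq ℂ (mem_filter.mp hu).2 c]
    by_cases h : u = c
    · rw [if_pos h, if_pos h, h]
    · rw [if_neg h, if_neg h, mul_zero]
  rw [Finset.sum_congr rfl h2, Finset.sum_ite_eq', if_pos (mem_filter.mpr ⟨mem_univ _, hc⟩)]
  field_simp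

theorem gramb_lim (n : ℕ) [NeZero n] (f : ℕ → ℂ) (E : Finset ℕ) (ω : ℂ) (h : FF f E ω) (hω : ‖ω‖ = 1)
    (b : ℝ) (W : ℝ → ℝ → ℂ) (hW : TF b W) (G : ZMod n → ℂ)
    (h0 : ∀ χ : DirichletCharacter ℂ n, grambCo n G χ = 0 ∨
      (∃ a : ℕ, a % 4 = 1 ∧ a.Coprime n ∧ χ ((a : ZMod n)) ≠ 1) ∨ ∀ y, (∫ t, W y t) = 0) :
    Tendsto (fun X : ℝ => (∑ e ∈ EN n (b * X),
      f (nm e.1) * (starRingEnd ℂ) (f (nm e.2)) * G (cl n e) * W (mE e / X) (tE e)) / X) atTop (nhds 0) := by
  classical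
  have hn : 0 < n := NeZero.pos n
  have h1 : ∀ χ : DirichletCharacter ℂ n, Tendsto (fun X : ℝ => grambCo n G χ * ((∑ e ∈ EN n (b * X),
      f (nm e.1) * (starRingEnd ℂ) (f (nm e.2)) * χ (cl n e) * W (mE e / X) (tE e)) / X)) atTop (nhds 0) := by
    intro χ
    rcases h0 χ with h2 | h2
    · rw [h2]
      simp only [zero_mul]
      exact tendsto_const_nhds
    · have hω' : ‖(starRingEnd ℂ) ω‖ = 1 := by rw [RCLike.norm_conj, hω]
      have h3 := pair_lim n χ E f (fun m => (starRingEnd ℂ) (f m)) ω ((starRingEnd ℂ) ω) h h.conj hω hω'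
        b W hW (Or.inr h2)
      have h4 := h3.const_mul (grambCo n G χ)
      rw [mul_zero] at h4
      exact h4
  have h2 := tendsto_finsetSum (univ : Finset (DirichletCharacter ℂ n)) (fun χ _ => h1 χ)
  rw [Finset.sum_const_zero] at h2
  refine h2.congr (fun X => ?_)
  have h3 : ∀ e ∈ EN n (b * X), f (nm e.1) * (starRingEnd ℂ) (f (nm e.2)) * G (cl n e) * W (mE e / X) (tE e) =
      ∑ χ : DirichletCharacter ℂ n, grambCo n G χ *
        (f (nm e.1) * (starRingEnd ℂ) (f (nm e.2)) * χ (cl n e) * W (mE e / X) (tE e)) := by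
    intro e he
    rw [gramb_fourier n G (cl n e) (cl_unit ((mem_EN hn).mp he).1), Finset.mul_sum, Finset.sum_mul]
    refine Finset.sum_congr rfl (fun χ _ => ?_)
    ring
  rw [Finset.sum_congr rfl h3, Finset.sum_comm, Finset.sum_div]
  refine Finset.sum_congr rfl (fun χ _ => ?_)
  rw [← Finset.mul_sum, mul_div_assoc]

/-- classes `1 mod 4` -/
def GrambH (n : ℕ) (c : ZMod n) : Prop := ∀ h : 4 ∣ n, (ZMod.castHom h (ZMod 4)) c = 1

theorem gramb_hc {n : ℕ} {e : G × G} (he : En n e) : hc n e ↔ GrambH n (cl n e) := by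
  constructor
  · intro h h4
    exact (cl_cast h4 he).mpr (h h4)
  · intro h h4
    exact (cl_cast h4 he).mp (h h4)

/-- representatives -/
theorem gramb_rep (n : ℕ) [NeZero n] (u : ZMod n) (hu : IsUnit u) (hH : GrambH n u) :
    ∃ a : ℕ, a % 4 = 1 ∧ a.Coprime n ∧ (a : ZMod n) = u := by
  set v := u.val with hv
  have hvu : (v : ZMod n) = u := ZMod.natCast_zmod_val u
  have hcop : v.Coprime n := (ZMod.isUnit_iff_coprime v n).mp (by rw [hvu]; exact hu)
  have h2 : n % 2 = 0 → v % 2 = 1 := by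
    intro h
    by_contra hcon
    have hd : 2 ∣ Nat.gcd v n := Nat.dvd_gcd (by omega) (by omega)
    rw [hcop] at hd
    omega
  have h4 : n % 4 = 0 → v % 4 = 1 := by
    intro h
    have h5 := hH (Nat.dvd_of_mod_eq_zero h)
    rw [← hvu, map_natCast] at h5
    have h6 : ((v : ℕ) : ZMod 4) = ((1 : ℕ) : ZMod 4) := by rw [h5]; rfl
    have h7 := (ZMod.natCast_eq_natCast_iff' v 1 4).mp h6
    omega
  have hk : ∃ k : ℕ, (v + k * n) % 4 = 1 := by
    by_contra hcon
    push Not at hcon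
    have c0 := hcon 0
    have c1 := hcon 1
    have c2 := hcon 2
    have c3 := hcon 3
    omega
  obtain ⟨k, hk⟩ := hk
  have e1 : ((v + k * n : ℕ) : ZMod n) = u := by
    push_cast
    rw [hvu, ZMod.natCast_self, mul_zero, add_zero]
  refine ⟨v + k * n, hk, ?_, e1⟩
  exact (ZMod.isUnit_iff_coprime _ n).mp (by rw [e1]; exact hu)

open Classical in
theorem gramb_card_units (n : ℕ) [NeZero n] :
    (univ.filter (fun u : ZMod n => IsUnit u)).card = n.totient := by
  rw [← ZMod.card_units_eq_totient]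
  symm
  refine Finset.card_bij (fun (u : (ZMod n)ˣ) _ => (u : ZMod n)) ?_ ?_ ?_ 
  · intro u _
    exact mem_filter.mpr ⟨mem_univ _, u.isUnit⟩
  · intro u _ v _ huv
    exact Units.ext huv
  · intro u hu
    obtain ⟨w, hw⟩ := (mem_filter.mp hu).2
    exact ⟨w, mem_univ _, hw⟩

open Classical in
/-- the number of classes `1 mod 4` -/
theorem gramb_card (n : ℕ) [NeZero n] :
    kap n * ((univ.filter (fun u : ZMod n => IsUnit u ∧ GrambH n u)).card : ℝ) = n.totient := by
  by_cases h4 : 4 ∣ n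
  · have h1 : (univ.filter (fun u : ZMod n => IsUnit u ∧ GrambH n u)).card =
        (univ.filter (fun u : ZMod n => IsUnit u ∧ ¬ GrambH n u)).card := by
      have key : ∀ u : ZMod n, IsUnit u → (GrambH n (-u) ↔ ¬ GrambH n u) := by
        intro u hu
        have hu4 : IsUnit ((ZMod.castHom h4 (ZMod 4)) u) := hu.map _
        have e1 : ∀ c : ZMod n, GrambH n c ↔ (ZMod.castHom h4 (ZMod 4)) c = 1 :=
          fun c => ⟨fun h => h h4, fun h _ => h⟩
        rw [e1, e1, map_neg]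
        generalize (ZMod.castHom h4 (ZMod 4)) u = x at hu4
        revert x
        decide
      refine Finset.card_bij (fun u _ => -u) ?_ ?_ ?_
      · intro u hu
        obtain ⟨_, h2, h3⟩ := mem_filter.mp hu
        refine mem_filter.mpr ⟨mem_univ _, h2.neg, ?_⟩
        rw [key u h2, not_not]
        exact h3
      · intro u _ v _ huv
        exact neg_injective huv
      · intro u hu
        obtain ⟨_, h2, h3⟩ := mem_filter.mp hu
        refine ⟨-u, mem_filter.mpr ⟨mem_univ _, h2.neg, (key u h2).mpr h3⟩, neg_neg u⟩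
    have h2 : (univ.filter (fun u : ZMod n => IsUnit u ∧ GrambH n u)).card +
        (univ.filter (fun u : ZMod n => IsUnit u ∧ ¬ GrambH n u)).card = n.totient := by
      rw [← gramb_card_units n, ← Finset.card_filter_add_card_filter_not (s := univ.filter (fun u : ZMod n => IsUnit u))
        (GrambH n), Finset.filter_filter, Finset.filter_filter]
    unfold kap
    rw [if_pos h4]
    rw [← h1] at h2
    have h3 : ((univ.filter (fun u : ZMod n => IsUnit u ∧ GrambH n u)).card : ℝ) +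
      ((univ.filter (fun u : ZMod n => IsUnit u ∧ GrambH n u)).card : ℝ) = n.totient := by exact_mod_cast h2
    linarith
  · have h1 : univ.filter (fun u : ZMod n => IsUnit u ∧ GrambH n u) = univ.filter (fun u : ZMod n => IsUnit u) := by
      refine Finset.filter_congr (fun u _ => ?_)
      exact ⟨fun h => h.1, fun h => ⟨h, fun h5 => absurd h5 h4⟩⟩
    unfold kap
    rw [if_neg h4, h1, gramb_card_units, one_mul]

open Classical in
/-- PROOF. Let `H` be the set of units `c` of `ZMod n` with `c = 1 mod 4` if `4 ∣ n` (all units if not `4 ∣ n`). `#H = φ(n) / kap n`: if `4 ∣ n` the map `c ↦ -c` exchanges `H` and its complement in the units. For `e ∈ En n`, `c = cl n e` is a unit (`cl_unit`),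
`cg n e.2 e.1` iff `c = 1` (`cl_one`), `hc n e` iff `c ∈ H` (`cl_cast` with `M = 4`). Characters: for a unit `c`,
`1_(c = 1) - (kap n / φ(n)) 1_(c ∈ H) = (1/φ(n)) ∑_χ χ(c) (1 - (kap n / φ(n)) ∑_(h ∈ H) χ(h)⁻¹)` (`DirichletCharacter.sum_char_inv_mul_char_eq`). If `χ(a) = 1` for all natural `a` with `a % 4 = 1`, coprime to `n`, then `χ = 1` on `H`
(every `h ∈ H` is the class of such an `a`: if `4 ∣ n` any representative; if `n` is odd by CRT; if `n = 2 mod 4` one of the representatives `h`, `h + n`), and the bracket is `0`. For the other `χ`: `pair_lim` with `f1 = f`, `f2 = conj f`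
(`FF.conj`), second case of `h0`. Finite sum. -/
theorem gramB (n : ℕ) (hn : 0 < n) (f : ℕ → ℂ) (E : Finset ℕ) (ω : ℂ) (h : FF f E ω) (hω : ‖ω‖ = 1)
    (b : ℝ) (W : ℝ → ℝ → ℂ) (hW : TF b W) :
    Tendsto (fun X : ℝ => ((∑ e ∈ (EN n (b * X)).filter (fun e => cg n e.2 e.1),
      f (nm e.1) * (starRingEnd ℂ) (f (nm e.2)) * W (mE e / X) (tE e)) -
        ((kap n / n.totient : ℝ) : ℂ) * Qs f n (b * X) W X) / X) atTop (nhds 0) := by
  have : NeZero n := ⟨hn.ne'⟩
  have hφ : (n.totient : ℝ) ≠ 0 := by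
    have := (Nat.totient_pos.mpr hn).ne'
    exact_mod_cast this
  set G : ZMod n → ℂ := fun c => (if c = 1 then 1 else 0) -
    ((kap n / n.totient : ℝ) : ℂ) * (if GrambH n c then 1 else 0) with hG
  have h0 : ∀ χ : DirichletCharacter ℂ n, grambCo n G χ = 0 ∨
      (∃ a : ℕ, a % 4 = 1 ∧ a.Coprime n ∧ χ ((a : ZMod n)) ≠ 1) ∨ ∀ y, (∫ t, W y t) = 0 := by
    intro χ
    by_cases hex : ∃ a : ℕ, a % 4 = 1 ∧ a.Coprime n ∧ χ ((a : ZMod n)) ≠ 1
    · exact Or.inr (Or.inl hex)
    · left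
      push Not at hex
      unfold grambCo
      have h1 : ∑ u ∈ univ.filter (fun u : ZMod n => IsUnit u), G u * χ u⁻¹ = 0 := by
        have e1 : ∀ u ∈ univ.filter (fun u : ZMod n => IsUnit u), G u * χ u⁻¹ =
            (if u = 1 then 1 else 0) - (if GrambH n u then ((kap n / n.totient : ℝ) : ℂ) else 0) := by
          intro u hu
          have hu' := (mem_filter.mp hu).2
          rw [hG]
          simp only
          rw [sub_mul]
          congr 1
          · by_cases h1 : u = 1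
            · have h3 := ZMod.inv_mul_of_unit (1 : ZMod n) isUnit_one
              rw [mul_one] at h3
              rw [if_pos h1, h1, h3, map_one, mul_one]
            · rw [if_neg h1, zero_mul]
          · by_cases h1 : GrambH n u
            · rw [if_pos h1, if_pos h1, mul_one]
              obtain ⟨a, ha4, hac, hau⟩ := gramb_rep n u hu' h1
              have h2 := hex a ha4 hac
              rw [hau] at h2
              have h3 : u⁻¹ * u = 1 := ZMod.inv_mul_of_unit u hu'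
              have h4 : χ u⁻¹ * χ u = 1 := by rw [← map_mul, h3, map_one]
              rw [h2, mul_one] at h4
              rw [h4, mul_one]
            · rw [if_neg h1, if_neg h1, mul_zero, zero_mul]
        rw [Finset.sum_congr rfl e1, Finset.sum_sub_distrib, Finset.sum_ite_eq',
          if_pos (mem_filter.mpr ⟨mem_univ _, isUnit_one⟩), ← Finset.sum_filter, Finset.filter_filter,
          Finset.sum_const, nsmul_eq_mul]
        have h5 := gramb_card n
        have h6 : ((univ.filter (fun u : ZMod n => IsUnit u ∧ GrambH n u)).card : ℝ) *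
            (kap n / n.totient) = 1 := by
          rw [← mul_div_assoc, mul_comm, h5, div_self hφ]
        have h7 : (((univ.filter (fun u : ZMod n => IsUnit u ∧ GrambH n u)).card : ℝ) : ℂ) *
            ((kap n / n.totient : ℝ) : ℂ) = 1 := by
          rw [← Complex.ofReal_mul, h6, Complex.ofReal_one]
        rw [Complex.ofReal_natCast] at h7
        rw [h7, sub_self]
      rw [h1, mul_zero]
  refine (gramb_lim n f E ω h hω b W hW G h0).congr (fun X => ?_)
  congr 1
  unfold Qs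
  rw [Finset.mul_sum, Finset.sum_filter, Finset.sum_filter, ← Finset.sum_sub_distrib]
  refine Finset.sum_congr rfl (fun e he => ?_)
  have he' := ((mem_EN hn).mp he).1
  have k1 : cg n e.2 e.1 ↔ cl n e = 1 := (cl_one he').symm
  have k2 := gramb_hc he'
  rw [hG]
  simp only [k1, k2]
  by_cases c1 : cl n e = 1
  · by_cases c2 : GrambH n (cl n e)
    · simp only [c1, if_true] at c2 ⊢
      simp only [c2, if_true]
      ring
    · simp only [c1, if_true] at c2 ⊢
      simp only [c2, if_false]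
      ring
  · by_cases c2 : GrambH n (cl n e)
    · simp only [c1, if_false, c2, if_true]
      ring
    · simp only [c1, if_false, c2]
      ring

/-- PROOF. `1_(c ∈ H) = (1/φ(n)) ∑_χ χ(c) ∑_(h ∈ H) χ(h)⁻¹` for units `c` (`H` as in `gramB`), and `pair_lim`, third case of `h0`, for every `χ`. -/
theorem tvfB (n : ℕ) (hn : 0 < n) (f : ℕ → ℂ) (E : Finset ℕ) (ω : ℂ) (h : FF f E ω) (hω : ‖ω‖ = 1)
    (b : ℝ) (W : ℝ → ℝ → ℂ) (hW : TF b W) (h0 : ∀ y, (∫ t, W y t) = 0) :
    Tendsto (fun X : ℝ => Qs f n (b * X) W X / X) atTop (nhds 0) := by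
  classical
  have : NeZero n := ⟨hn.ne'⟩
  refine (gramb_lim n f E ω h hω b W hW (fun c => if GrambH n c then 1 else 0)
    (fun χ => Or.inr (Or.inr h0))).congr (fun X => ?_)
  congr 1
  unfold Qs
  rw [Finset.sum_filter]
  refine Finset.sum_congr rfl (fun e he => ?_)
  have k2 := gramb_hc ((mem_EN hn).mp he).1
  by_cases c2 : GrambH n (cl n e)
  · rw [if_pos c2, if_pos (k2.mpr c2), mul_one]
  · rw [if_neg c2, if_neg (fun hh => c2 (k2.mp hh)), mul_zero, zero_mul]

end Pool.Agent.OmEq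

end

/-! ### from `Lib_MP_f1a94e_eq.RedB` -/

section

/-!
# Piece REDB: reduction of the correlations
-/

set_option autoImplicit false

namespace Pool.Agent.OmEq

open Finset Pool.Agent.GaussMR Pool.Agent.OmAll MeasureTheory Filter

theorem redb_ps0_cont : Continuous ps0 := by
  unfold ps0
  exact continuous_const.max (continuous_const.sub continuous_abs)

theorem redb_ps0_nonneg (t : ℝ) : 0 ≤ ps0 t := le_max_left _ _

theorem redb_ps0_le (t : ℝ) : ps0 t ≤ 1 := max_le zero_le_one (by linarith [abs_nonneg t])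

theorem redb_ps0_zero (t : ℝ) (h : 1 ≤ |t|) : ps0 t = 0 := by
  unfold ps0
  exact max_eq_left (by linarith)

theorem redb_ps0_int : ∫ t, ps0 t = 1 := by
  have h1 : ∫ t, ps0 t = ∫ t in (-1 : ℝ)..1, ps0 t := by
    rw [intervalIntegral.integral_of_le (by norm_num),
      MeasureTheory.setIntegral_eq_integral_of_forall_compl_eq_zero]
    intro t ht
    apply redb_ps0_zero
    by_contra hc
    push Not at hc
    rw [abs_lt] at hc
    exact ht ⟨hc.1, hc.2.le⟩
  have h2 : ∫ t in (-1 : ℝ)..1, ps0 t = (∫ t in (-1 : ℝ)..0, ps0 t) + ∫ t in (0 : ℝ)..1, ps0 t :=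
    (intervalIntegral.integral_add_adjacent_intervals (redb_ps0_cont.intervalIntegrable _ _)
      (redb_ps0_cont.intervalIntegrable _ _)).symm
  have h3 : ∫ t in (-1 : ℝ)..0, ps0 t = ∫ t in (-1 : ℝ)..0, (1 + t) := by
    refine intervalIntegral.integral_congr (fun t ht => ?_)
    rw [Set.uIcc_of_le (by norm_num)] at ht
    unfold ps0
    rw [abs_of_nonpos ht.2, max_eq_right]
    · ring
    · linarith [ht.1]
  have h4 : ∫ t in (0 : ℝ)..1, ps0 t = ∫ t in (0 : ℝ)..1, (1 - t) := by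
    refine intervalIntegral.integral_congr (fun t ht => ?_)
    rw [Set.uIcc_of_le (by norm_num)] at ht
    unfold ps0
    rw [abs_of_nonneg ht.1, max_eq_right]
    linarith [ht.2]
  have h5 : ∫ t in (-1 : ℝ)..0, (1 + t) = 1 / 2 := by
    rw [intervalIntegral.integral_add intervalIntegrable_const intervalIntegral.intervalIntegrable_id]
    rw [intervalIntegral.integral_const, integral_id]
    norm_num
  have h6 : ∫ t in (0 : ℝ)..1, (1 - t) = 1 / 2 := by
    rw [intervalIntegral.integral_sub intervalIntegrable_const intervalIntegral.intervalIntegrable_id]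
    rw [intervalIntegral.integral_const, integral_id]
    norm_num
  rw [h1, h2, h3, h4, h5, h6]
  norm_num

theorem redb_R {b : ℝ} {W : ℝ → ℝ → ℂ} (hW : TF b W) : ∃ R : ℝ, ∀ y t, R < |t| → W y t = 0 := by
  obtain ⟨R, hR⟩ := ((HasCompactSupport.isCompact hW.supp).image continuous_snd).isBounded.subset_closedBall 0
  refine ⟨R, fun y t ht => ?_⟩
  by_contra hne
  have h1 : (y, t) ∈ tsupport (Function.uncurry W) := subset_tsupport _ hne
  have h2 : t ∈ Metric.closedBall (0 : ℝ) R := hR ⟨(y, t), h1, rfl⟩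
  rw [mem_closedBall_zero_iff, Real.norm_eq_abs] at h2
  linarith

theorem redb_int {b : ℝ} {W : ℝ → ℝ → ℂ} (hW : TF b W) (y : ℝ) : Integrable (fun t => W y t) := by
  obtain ⟨R, hR⟩ := redb_R hW
  have hc : Continuous (fun t => W y t) := hW.cont.comp (Continuous.prodMk_right y)
  refine hc.integrable_of_hasCompactSupport (HasCompactSupport.intro (isCompact_Icc (a := -R) (b := R)) ?_)
  intro t ht
  apply hR y t
  by_contra hcon
  push Not at hcon
  exact ht (abs_le.mp hcon)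

theorem redb_c {b : ℝ} {W : ℝ → ℝ → ℂ} (hW : TF b W) : Continuous (fun y => ∫ t, W y t) := by
  obtain ⟨R, hR⟩ := redb_R hW
  have h1 : (fun y => ∫ t, W y t) = fun y => ∫ t in Set.Icc (-R) R, W y t := by
    funext y
    rw [MeasureTheory.setIntegral_eq_integral_of_forall_compl_eq_zero]
    intro t ht
    apply hR y t
    by_contra hcon
    push Not at hcon
    exact ht (abs_le.mp hcon)
  rw [h1]
  exact continuous_parametric_integral_of_continuous hW.cont isCompact_Icc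

theorem redb_tf {b : ℝ} {W : ℝ → ℝ → ℂ} (hW : TF b W) :
    TF b (fun y t => W y t - (∫ s, W y s) * ((ps0 t : ℝ) : ℂ)) := by
  have hc := redb_c hW
  have hlo : ∀ y, y ≤ 0 → (∫ s, W y s) = 0 := by
    intro y hy
    have : (fun s => W y s) = fun _ => 0 := funext (fun s => hW.lo y s hy)
    rw [this, integral_zero]
  have hhi : ∀ y, b ≤ y → (∫ s, W y s) = 0 := by
    intro y hy
    have : (fun s => W y s) = fun _ => 0 := funext (fun s => hW.hi y s hy)
    rw [this, integral_zero]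
  refine ⟨?_, ?_, ?_, ?_⟩
  · refine Continuous.sub hW.cont ?_
    exact (hc.comp continuous_fst).mul (Complex.continuous_ofReal.comp (redb_ps0_cont.comp continuous_snd))
  · refine HasCompactSupport.intro
      ((HasCompactSupport.isCompact hW.supp).union
        ((isCompact_Icc (a := (0 : ℝ)) (b := b)).prod (isCompact_Icc (a := (-1 : ℝ)) (b := 1)))) ?_
    rintro ⟨y, t⟩ hyt
    have h1 : (y, t) ∉ tsupport (Function.uncurry W) := fun h => hyt (Or.inl h)
    have h2 : ¬ (y ∈ Set.Icc (0 : ℝ) b ∧ t ∈ Set.Icc (-1 : ℝ) 1) := fun h => hyt (Or.inr h)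
    have h3 : W y t = 0 := image_eq_zero_of_notMem_tsupport (f := Function.uncurry W) h1
    have h4 : (∫ s, W y s) * ((ps0 t : ℝ) : ℂ) = 0 := by
      by_cases hy : y ∈ Set.Icc (0 : ℝ) b
      · have ht : t ∉ Set.Icc (-1 : ℝ) 1 := fun h => h2 ⟨hy, h⟩
        have : ps0 t = 0 := by
          apply redb_ps0_zero
          by_contra hcon
          push Not at hcon
          exact ht (abs_le.mp hcon.le)
        rw [this, Complex.ofReal_zero, mul_zero]
      · have : (∫ s, W y s) = 0 := by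
          rcases lt_or_ge y 0 with h5 | h5
          · exact hlo y h5.le
          · refine hhi y ?_
            by_contra hcon
            push Not at hcon
            exact hy ⟨h5, hcon.le⟩
        rw [this, zero_mul]
    change W y t - (∫ s, W y s) * ((ps0 t : ℝ) : ℂ) = 0
    rw [h3, h4, sub_zero]
  · intro y t hy
    rw [hlo y hy, hW.lo y t hy, zero_mul, sub_zero]
  · intro y t hy
    rw [hhi y hy, hW.hi y t hy, zero_mul, sub_zero]

theorem redb_zero {b : ℝ} {W : ℝ → ℝ → ℂ} (hW : TF b W) (y : ℝ) :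
    (∫ t, (W y t - (∫ s, W y s) * ((ps0 t : ℝ) : ℂ))) = 0 := by
  have hi : Integrable (fun t => ((ps0 t : ℝ) : ℂ)) := by
    have hc : Continuous (fun t => ((ps0 t : ℝ) : ℂ)) := Complex.continuous_ofReal.comp redb_ps0_cont
    refine hc.integrable_of_hasCompactSupport (HasCompactSupport.intro (isCompact_Icc (a := (-1 : ℝ)) (b := 1)) ?_)
    intro t ht
    have : ps0 t = 0 := by
      apply redb_ps0_zero
      by_contra hcon
      push Not at hcon
      exact ht (abs_le.mp hcon.le)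
    rw [this, Complex.ofReal_zero]
  rw [integral_sub (redb_int hW y) (hi.const_mul _), integral_const_mul, integral_complex_ofReal, redb_ps0_int,
    Complex.ofReal_one, mul_one, sub_self]

/-- linearity and the change of scale -/
theorem redb_scale (f : ℕ → ℂ) (h : ℝ → ℝ) (h1 h2 : ℝ) (hh : HF h h1 h2) (n : ℕ) (hn : 0 < n) (a b X : ℝ) (J : ℕ)
    (hJ : 1 ≤ J) (hX : 0 < X) (hb : (J : ℝ) ^ 2 * h2 ≤ b) :
    Qs f n (b * X) (fun y t => ((a * h (y / (J : ℝ) ^ 2) ^ 2 : ℝ) : ℂ) * ((ps0 t : ℝ) : ℂ)) X =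
      (a : ℂ) * Qs f n (h2 * ((J : ℝ) ^ 2 * X)) (fun y t => ((h y ^ 2 * ps0 t : ℝ) : ℂ)) ((J : ℝ) ^ 2 * X) := by
  classical
  have hJ0 : (0 : ℝ) < (J : ℝ) ^ 2 := by
    have : (0 : ℝ) < J := by exact_mod_cast hJ
    positivity
  unfold Qs
  rw [Finset.mul_sum]
  symm
  have hsub : (EN n (h2 * ((J : ℝ) ^ 2 * X))).filter (hc n) ⊆ (EN n (b * X)).filter (hc n) := by
    intro e he
    obtain ⟨he1, he2⟩ := mem_filter.mp he
    have he3 := (mem_EN hn).mp he1
    refine mem_filter.mpr ⟨(mem_EN hn).mpr ⟨he3.1, he3.2.trans ?_⟩, he2⟩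
    nlinarith
  have key : ∀ e : G × G, h (mE e / ((J : ℝ) ^ 2 * X)) = h (mE e / X / (J : ℝ) ^ 2) := by
    intro e
    rw [div_div, mul_comm X]
  rw [← Finset.sum_subset hsub]
  · refine Finset.sum_congr rfl (fun e _ => ?_)
    beta_reduce
    rw [key]
    push_cast
    ring
  · intro e he hne
    obtain ⟨he1, he2⟩ := mem_filter.mp he
    have he3 := (mem_EN hn).mp he1
    have h4 : h2 * ((J : ℝ) ^ 2 * X) < mE e := by
      by_contra hcon
      push Not at hcon
      exact hne (mem_filter.mpr ⟨(mem_EN hn).mpr ⟨he3.1, hcon⟩, he2⟩)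
    have h5 : h (mE e / X / (J : ℝ) ^ 2) = 0 := by
      rw [← key]
      apply hh.hi
      rw [le_div_iff₀ (by positivity)]
      exact h4.le
    beta_reduce
    rw [h5]
    push_cast
    ring

/-- comparison of two weights -/
theorem redb_cmp (f : ℕ → ℂ) (hf : ∀ n, ‖f n‖ ≤ 1) (C : ℝ)
    (hC : ∀ n : ℕ, 0 < n → ∀ x : ℝ, (n : ℝ) ≤ x → by classical exact (((EN n x).filter (fun e => |tE e| ≤ 1)).card : ℝ) ≤ C * x)
    (n : ℕ) (hn : 0 < n) (c d : ℝ → ℂ) (κ : ℝ) (hκ : 0 ≤ κ) (hcd : ∀ y, ‖c y - d y‖ ≤ κ) (x X : ℝ) (hx : (n : ℝ) ≤ x) :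
    ‖Qs f n x (fun y t => c y * ((ps0 t : ℝ) : ℂ)) X - Qs f n x (fun y t => d y * ((ps0 t : ℝ) : ℂ)) X‖ ≤
      κ * (C * x) := by
  classical
  refine le_trans ?_ (mul_le_mul_of_nonneg_left (hC n hn x hx) hκ)
  unfold Qs
  rw [← Finset.sum_sub_distrib]
  calc ‖∑ e ∈ (EN n x).filter (hc n), (f (nm e.1) * (starRingEnd ℂ) (f (nm e.2)) * (c (mE e / X) * ((ps0 (tE e) : ℝ) : ℂ)) -
        f (nm e.1) * (starRingEnd ℂ) (f (nm e.2)) * (d (mE e / X) * ((ps0 (tE e) : ℝ) : ℂ)))‖
      ≤ ∑ e ∈ (EN n x).filter (hc n), (if |tE e| ≤ 1 then κ else 0) := by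
        refine norm_sum_le_of_le _ (fun e _ => ?_)
        have e1 : f (nm e.1) * (starRingEnd ℂ) (f (nm e.2)) * (c (mE e / X) * ((ps0 (tE e) : ℝ) : ℂ)) -
            f (nm e.1) * (starRingEnd ℂ) (f (nm e.2)) * (d (mE e / X) * ((ps0 (tE e) : ℝ) : ℂ)) =
            f (nm e.1) * (starRingEnd ℂ) (f (nm e.2)) * ((c (mE e / X) - d (mE e / X)) * ((ps0 (tE e) : ℝ) : ℂ)) := by
          ring
        rw [e1, norm_mul, norm_mul, norm_mul, RCLike.norm_conj, Complex.norm_real, Real.norm_eq_abs,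
          abs_of_nonneg (redb_ps0_nonneg _)]
        have a1 := hf (nm e.1)
        have a2 := hf (nm e.2)
        have a5 : ‖f (nm e.1)‖ * ‖f (nm e.2)‖ ≤ 1 := mul_le_one₀ a1 (norm_nonneg _) a2
        have a6 := redb_ps0_nonneg (tE e)
        have a7 := redb_ps0_le (tE e)
        have a8 := hcd (mE e / X)
        by_cases ht : |tE e| ≤ 1
        · rw [if_pos ht]
          calc ‖f (nm e.1)‖ * ‖f (nm e.2)‖ * (‖c (mE e / X) - d (mE e / X)‖ * ps0 (tE e)) ≤ 1 * (κ * 1) := by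
                gcongr
            _ = κ := by ring
        · rw [if_neg ht, redb_ps0_zero _ (by push Not at ht; exact ht.le), mul_zero, mul_zero]
    _ ≤ ∑ e ∈ EN n x, (if |tE e| ≤ 1 then κ else 0) := by
        refine Finset.sum_le_sum_of_subset_of_nonneg (Finset.filter_subset _ _) (fun e _ _ => ?_)
        split_ifs
        · exact hκ
        · exact le_rfl
    _ = κ * (((EN n x).filter (fun e => |tE e| ≤ 1)).card : ℝ) := by
        rw [← Finset.sum_filter, Finset.sum_const, nsmul_eq_mul, mul_comm]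

/-- one determinant: the limit statement -/
theorem redb_one (f : ℕ → ℂ) (E : Finset ℕ) (ω : ℂ) (h : FF f E ω) (hω : ‖ω‖ = 1) (h' : ℝ → ℝ) (h1 h2 : ℝ)
    (hh : HF h' h1 h2) (J N n : ℕ) (hJ : 1 ≤ J) (hN : 1 ≤ N) (hn : 1 ≤ n) (b : ℝ) (hb : ((J : ℝ) + N) ^ 2 * h2 ≤ b)
    (hb0 : 0 < b) :
    Tendsto (fun X : ℝ => (Gm f h' J N n (b * X) X - ((kap n / n.totient : ℝ) : ℂ) *
      Qs f n (b * X) (fun y t => (∫ s, WN h' J N n y s) * ((ps0 t : ℝ) : ℂ)) X) / X) atTop (nhds 0) := by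
  have hTF := WN_tf h' h1 h2 hh J N n hJ hN hn b hb
  have e1 := apxN f h.bd h' h1 h2 hh J N n hJ hN hn b hb0
  have e2 := gramB n hn f E ω h hω b (WN h' J N n) hTF
  have e3 := (tvfB n hn f E ω h hω b _ (redb_tf hTF) (redb_zero hTF)).const_mul ((kap n / n.totient : ℝ) : ℂ)
  rw [mul_zero] at e3
  have e4 := (e1.add e2).add e3
  rw [add_zero, add_zero] at e4
  refine e4.congr (fun X => ?_)
  have e5 : Qs f n (b * X) (fun y t => WN h' J N n y t - (∫ s, WN h' J N n y s) * ((ps0 t : ℝ) : ℂ)) X =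
      Qs f n (b * X) (WN h' J N n) X -
        Qs f n (b * X) (fun y t => (∫ s, WN h' J N n y s) * ((ps0 t : ℝ) : ℂ)) X := by
    unfold Qs
    rw [← Finset.sum_sub_distrib]
    refine Finset.sum_congr rfl (fun e _ => ?_)
    ring
  rw [e5]
  ring

/-- PROOF. Given `h, h1, h2, ε`. `N0` from `hQ` with `ε/4`, `N ≥ max N0 1`; `C` from `cnt 1`; `J0 ≥ N` so large that `cnB` holds with `η = ε / (40 C h2 N)`. Fix `J ≥ J0`, `b = (J+N)^2 h2 + 1 ≤ 5 J^2 h2`. For `1 ≤ n ≤ N`, as `X → ∞`: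
(i) `apxN` and `gramB` for `WN h J N n` (`WN_tf`): `Gm_n = (kap n/φ(n)) Qs f n (b X) (WN) X + o(X)`.
(ii) `tvfB` for `W y t = WN y t - c y * ps0 t`, `c y = ∫ t, WN y t` (continuous, zero for `y ≤ 0` and `y ≥ b`; `∫ ps0 = 1`): `Qs (WN) = Qs (c ⊗ ps0) + o(X)`.
(iii) `cnB`: `‖Qs (c ⊗ ps0) - (2 n N/J^2) ww(n/N) Qs f n (b X) (h (y/J^2)^2 ⊗ ps0) X‖ ≤ η (n N/J^2) #{e ∈ EN n (b X) : |tE e| ≤ 1} ≤ 5 η n N C h2 X` (`cnt`, `n ≤ b X`).
(iv) With `Y = J^2 X`: `Qs f n (b X) (h (y/J^2)^2 ⊗ ps0) X = Qs f n (h2 Y) (h y^2 ⊗ ps0) Y` (terms with `mE ≥ h2 Y` vanish, `b X ≥ h2 Y`).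
(v) `kap n/φ(n) * 2 n N/J^2 * ww = (2 N/J^2) * kap n (n/φ(n)) ww`; by `hQ`, `(2 N/J^2) (ε/4) N Y = (ε/2) N^2 X`; the errors (iii): `∑_(n ≤ N) (2/φ(n)) 5 η n N C h2 X ≤ 10 η C h2 N * N^2 X` (`n/φ(n) ≤ n ≤ N`) `= (ε/4) N^2 X`; the
`o(X)` terms are `≤ (ε/4) N^2 X` eventually. -/
theorem redB (f : ℕ → ℂ) (E : Finset ℕ) (ω : ℂ) (h : FF f E ω) (hω : ‖ω‖ = 1) (hQ : QSmall f) : GmSmall f := by
  classical
  intro h' h1 h2 hh ε hε
  have h2one : (1 : ℝ) ≤ h2 := hh.one
  have h2pos : 0 < h2 := by linarith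
  obtain ⟨C, hC, hcnt⟩ := cnt 1
  obtain ⟨N0, hN0⟩ := hQ h' h1 h2 hh (ε / 4) (by positivity)
  refine ⟨max N0 1, fun N hN => ?_⟩
  have hN1 : 1 ≤ N := le_trans (le_max_right _ _) hN
  have hNN0 : N0 ≤ N := le_trans (le_max_left _ _) hN
  have hNr : (1 : ℝ) ≤ N := by exact_mod_cast hN1
  have hNpos : (0 : ℝ) < N := by linarith
  set η : ℝ := ε / (40 * C * h2 * N) with hη
  have hηpos : 0 < η := by positivity
  obtain ⟨J0, hJ01, hcn⟩ := cnB h' h1 h2 hh N hN1 η hηpos
  refine ⟨max J0 N, fun J hJ => ?_⟩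
  have hJ0 : J0 ≤ J := le_trans (le_max_left _ _) hJ
  have hJN : N ≤ J := le_trans (le_max_right _ _) hJ
  have hJ1 : 1 ≤ J := le_trans hN1 hJN
  have hJNr : (N : ℝ) ≤ J := by exact_mod_cast hJN
  have hJr : (1 : ℝ) ≤ J := by linarith
  have hJpos : (0 : ℝ) < J := by linarith
  set b : ℝ := ((J : ℝ) + N) ^ 2 * h2 + 1 with hb
  have hbpos : 0 < b := by positivity
  have hb5 : b ≤ 5 * (J : ℝ) ^ 2 * h2 := by
    have e1 : ((J : ℝ) + N) ^ 2 ≤ 4 * (J : ℝ) ^ 2 := by nlinarith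
    have e2 : (1 : ℝ) ≤ (J : ℝ) ^ 2 * h2 := by nlinarith
    nlinarith
  have hbJ : (J : ℝ) ^ 2 * h2 ≤ b := by
    have e1 : (J : ℝ) ^ 2 ≤ ((J : ℝ) + N) ^ 2 := by nlinarith
    nlinarith
  -- the limit part
  have hlim : Tendsto (fun X : ℝ => ∑ n ∈ Icc 1 N, (Gm f h' J N n (b * X) X - ((kap n / n.totient : ℝ) : ℂ) *
      Qs f n (b * X) (fun y t => (∫ s, WN h' J N n y s) * ((ps0 t : ℝ) : ℂ)) X) / X) atTop (nhds 0) := by
    have := tendsto_finsetSum (Icc 1 N) (fun n hn => redb_one f E ω h hω h' h1 h2 hh J N n hJ1 hN1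
      (mem_Icc.mp hn).1 b (by linarith) hbpos)
    rw [Finset.sum_const_zero] at this
    exact this
  have hev := (Metric.tendsto_nhds.mp hlim) (ε / 4) (by positivity)
  have hQev := (tendsto_id.const_mul_atTop (r := (J : ℝ) ^ 2) (by positivity)).eventually (hN0 N hNN0)
  filter_upwards [hev, hQev, eventually_gt_atTop (0 : ℝ), eventually_ge_atTop (N : ℝ)] with X hX hXQ hX0 hXN
  rw [dist_zero_right, ← Finset.sum_div, norm_div, Complex.norm_real, Real.norm_eq_abs, abs_of_pos hX0,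
    div_lt_iff₀ hX0] at hX
  simp only [id] at hXQ
  set Y : ℝ := (J : ℝ) ^ 2 * X with hY
  -- notation
  set q : ℕ → ℂ := fun n => Qs f n (h2 * Y) (fun y t => ((h' y ^ 2 * ps0 t : ℝ) : ℂ)) Y with hq
  set c : ℕ → ℂ := fun n => Qs f n (b * X) (fun y t => (∫ s, WN h' J N n y s) * ((ps0 t : ℝ) : ℂ)) X with hc
  set d : ℕ → ℂ := fun n => Qs f n (b * X) (fun y t =>
    (((2 * n * N / (J : ℝ) ^ 2 * h' (y / (J : ℝ) ^ 2) ^ 2 * ww ((n : ℝ) / N) : ℝ)) : ℂ) * ((ps0 t : ℝ) : ℂ)) X with hd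
  have hdq : ∀ n ∈ Icc 1 N, d n = ((2 * n * N / (J : ℝ) ^ 2 * ww ((n : ℝ) / N) : ℝ) : ℂ) * q n := by
    intro n hn
    have hn1 := (mem_Icc.mp hn).1
    have e1 := redb_scale f h' h1 h2 hh n hn1 (2 * n * N / (J : ℝ) ^ 2 * ww ((n : ℝ) / N)) b X J hJ1 hX0 hbJ
    rw [hq]
    simp only
    rw [hY, ← e1, hd]
    simp only
    congr 1
    funext y t
    congr 2
    ring
  have hcd : ∀ n ∈ Icc 1 N, ‖c n - d n‖ ≤ 5 * η * n * N * C * h2 * X := by
    intro n hn
    obtain ⟨hn1, hn2⟩ := mem_Icc.mp hn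
    have hnr : (1 : ℝ) ≤ n := by exact_mod_cast hn1
    have hnN : (n : ℝ) ≤ N := by exact_mod_cast hn2
    have hbX : (n : ℝ) ≤ b * X := by
      have : (1 : ℝ) ≤ b := by
        have : 0 ≤ ((J : ℝ) + N) ^ 2 * h2 := by positivity
        linarith
      nlinarith
    have e1 := redb_cmp f h.bd C hcnt n hn1 (fun y => ∫ s, WN h' J N n y s)
      (fun y => (((2 * n * N / (J : ℝ) ^ 2 * h' (y / (J : ℝ) ^ 2) ^ 2 * ww ((n : ℝ) / N) : ℝ)) : ℂ))
      (η * (n * N / (J : ℝ) ^ 2)) (by positivity) (fun y => hcn J hJ0 n hn1 hn2 y) (b * X) X hbX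
    refine e1.trans ?_
    calc η * (n * N / (J : ℝ) ^ 2) * (C * (b * X)) ≤ η * (n * N / (J : ℝ) ^ 2) * (C * ((5 * (J : ℝ) ^ 2 * h2) * X)) := by
          gcongr
      _ = 5 * η * n * N * C * h2 * X := by
          field_simp
  -- the decomposition
  have hdec : ∑ n ∈ Icc 1 N, Gm f h' J N n (b * X) X =
      ∑ n ∈ Icc 1 N, (Gm f h' J N n (b * X) X - ((kap n / n.totient : ℝ) : ℂ) * c n) +
      ∑ n ∈ Icc 1 N, ((kap n / n.totient : ℝ) : ℂ) * (c n - d n) +
      ((2 * N / (J : ℝ) ^ 2 : ℝ) : ℂ) *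
        ∑ n ∈ Icc 1 N, ((kap n * (n / n.totient) * ww ((n : ℝ) / N) : ℝ) : ℂ) * q n := by
    rw [Finset.mul_sum, ← Finset.sum_add_distrib, ← Finset.sum_add_distrib]
    refine Finset.sum_congr rfl (fun n hn => ?_)
    rw [hdq n hn]
    push_cast
    ring
  have hp1 : ‖∑ n ∈ Icc 1 N, (Gm f h' J N n (b * X) X - ((kap n / n.totient : ℝ) : ℂ) * c n)‖ ≤
      ε / 4 * N ^ 2 * X := by
    refine hX.le.trans ?_
    have : (1 : ℝ) ≤ (N : ℝ) ^ 2 := one_le_pow₀ hNr
    have h3 : ε / 4 * X * 1 ≤ ε / 4 * X * (N : ℝ) ^ 2 := mul_le_mul_of_nonneg_left this (by positivity)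
    linarith
  have hp2 : ‖∑ n ∈ Icc 1 N, ((kap n / n.totient : ℝ) : ℂ) * (c n - d n)‖ ≤ ε / 4 * N ^ 2 * X := by
    calc ‖∑ n ∈ Icc 1 N, ((kap n / n.totient : ℝ) : ℂ) * (c n - d n)‖
        ≤ ∑ n ∈ Icc 1 N, (2 * (5 * η * N * N * C * h2 * X)) := by
          refine norm_sum_le_of_le _ (fun n hn => ?_)
          obtain ⟨hn1, hn2⟩ := mem_Icc.mp hn
          have hnN : (n : ℝ) ≤ N := by exact_mod_cast hn2
          have hφ : (1 : ℝ) ≤ n.totient := by exact_mod_cast Nat.totient_pos.mpr hn1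
          have k1 : 0 ≤ kap n ∧ kap n ≤ 2 := by
            unfold kap
            split_ifs <;> norm_num
          have k2 : kap n / n.totient ≤ 2 := by
            rw [div_le_iff₀ (by linarith)]
            nlinarith
          rw [norm_mul, Complex.norm_real, Real.norm_eq_abs, abs_of_nonneg (div_nonneg k1.1 (by linarith))]
          refine mul_le_mul k2 ((hcd n hn).trans ?_) (norm_nonneg _) (by norm_num)
          gcongr
      _ = N * (2 * (5 * η * N * N * C * h2 * X)) := by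
          rw [Finset.sum_const, nsmul_eq_mul, Nat.card_Icc, Nat.add_sub_cancel]
      _ = ε / 4 * N ^ 2 * X := by
          rw [hη]
          field_simp
          ring
  have hp3 : ‖((2 * N / (J : ℝ) ^ 2 : ℝ) : ℂ) *
        ∑ n ∈ Icc 1 N, ((kap n * (n / n.totient) * ww ((n : ℝ) / N) : ℝ) : ℂ) * q n‖ ≤ ε / 2 * N ^ 2 * X := by
    rw [norm_mul, Complex.norm_real, Real.norm_eq_abs, abs_of_nonneg (by positivity)]
    calc (2 * N / (J : ℝ) ^ 2) * ‖∑ n ∈ Icc 1 N, ((kap n * (n / n.totient) * ww ((n : ℝ) / N) : ℝ) : ℂ) * q n‖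
        ≤ (2 * N / (J : ℝ) ^ 2) * (ε / 4 * N * Y) := mul_le_mul_of_nonneg_left hXQ (by positivity)
      _ = ε / 2 * N ^ 2 * X := by
          rw [hY]
          field_simp
          ring
  rw [hdec]
  refine (norm_add_le _ _).trans ?_
  have := norm_add_le (∑ n ∈ Icc 1 N, (Gm f h' J N n (b * X) X - ((kap n / n.totient : ℝ) : ℂ) * c n))
    (∑ n ∈ Icc 1 N, ((kap n / n.totient : ℝ) : ℂ) * (c n - d n))
  linarith

end Pool.Agent.OmEq

end

/-! ### from `Lib_MP_92ef0c_la.Zero4` -/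

section

/-!
# The difference of a test function and its integral times `ps0 t * ps0 u`
-/

set_option autoImplicit false

namespace Pool.Agent.SplL

open Finset Pool.Agent.Spl Pool.Agent.GaussMR Pool.Agent.OmAll Pool.Agent.OmEq MeasureTheory Filter

theorem z4_int1 {b : ℝ} {W : ℝ → ℝ → ℝ → ℂ} (hW : TS b W) (y t : ℝ) : Integrable (fun u => W y t u) := by
  obtain ⟨R, -, hR⟩ := hW.bdd
  have hc : Continuous (fun u => W y t u) :=
    hW.cont.comp (Continuous.prodMk_right y |>.comp (Continuous.prodMk_right t))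
  refine hc.integrable_of_hasCompactSupport (HasCompactSupport.intro (isCompact_Icc (a := -R) (b := R)) ?_)
  intro u hu
  by_contra hcon
  exact hu (abs_le.mp (hR y t u hcon).2.2)

theorem z4_int2 {b : ℝ} {W : ℝ → ℝ → ℝ → ℂ} (hW : TS b W) (y : ℝ) : Integrable (fun t => ∫ u, W y t u) := by
  obtain ⟨R, -, hR⟩ := hW.bdd
  have h1 : (fun t => ∫ u, W y t u) = fun t => ∫ u in Set.Icc (-R) R, W y t u := by
    funext t
    rw [MeasureTheory.setIntegral_eq_integral_of_forall_compl_eq_zero]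
    intro u hu
    by_contra hcon
    exact hu (abs_le.mp (hR y t u hcon).2.2)
  have hc : Continuous (fun t => ∫ u, W y t u) := by
    rw [h1]
    refine continuous_parametric_integral_of_continuous ?_ isCompact_Icc
    exact hW.cont.comp (Continuous.prodMk_right y)
  refine hc.integrable_of_hasCompactSupport (HasCompactSupport.intro (isCompact_Icc (a := -R) (b := R)) ?_)
  intro t ht
  have h2 : (fun u => W y t u) = fun _ => 0 := by
    funext u
    by_contra hcon
    exact ht (abs_le.mp (hR y t u hcon).2.1)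
  rw [h2, integral_zero]

theorem z4_ps0_intg : Integrable (fun t => ((ps0 t : ℝ) : ℂ)) := by
  have hc : Continuous (fun t => ((ps0 t : ℝ) : ℂ)) := Complex.continuous_ofReal.comp redb_ps0_cont
  refine hc.integrable_of_hasCompactSupport (HasCompactSupport.intro (isCompact_Icc (a := (-1 : ℝ)) (b := 1)) ?_)
  intro t ht
  have : ps0 t = 0 := by
    apply redb_ps0_zero
    by_contra hcon
    push Not at hcon
    exact ht (abs_le.mp hcon.le)
  rw [this, Complex.ofReal_zero]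

theorem z4_ps0_intC : (∫ t, ((ps0 t : ℝ) : ℂ)) = 1 := by
  rw [integral_complex_ofReal, redb_ps0_int, Complex.ofReal_one]

theorem z4_zero {b : ℝ} {W : ℝ → ℝ → ℝ → ℂ} (hW : TS b W) (y : ℝ) :
    (∫ t, ∫ u, (W y t u - (∫ t', ∫ u', W y t' u') * ((ps0 t * ps0 u : ℝ) : ℂ))) = 0 := by
  set c : ℂ := ∫ t', ∫ u', W y t' u' with hc
  have h1 : ∀ t, (∫ u, (W y t u - c * ((ps0 t * ps0 u : ℝ) : ℂ))) = (∫ u, W y t u) - c * ((ps0 t : ℝ) : ℂ) := by
    intro t
    have e1 : (fun u => W y t u - c * ((ps0 t * ps0 u : ℝ) : ℂ)) =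
        fun u => W y t u - (c * ((ps0 t : ℝ) : ℂ)) * ((ps0 u : ℝ) : ℂ) := by
      funext u
      push_cast
      ring
    rw [e1, integral_sub (z4_int1 hW y t) (z4_ps0_intg.const_mul _), integral_const_mul, z4_ps0_intC, mul_one]
  simp_rw [h1]
  rw [integral_sub (z4_int2 hW y) (z4_ps0_intg.const_mul _), integral_const_mul, z4_ps0_intC, mul_one, ← hc,
    sub_self]

end Pool.Agent.SplL

end
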