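import Pool.Agent.Lib_MP_92ef0c_m.M19

/-!
# MP_92ef0c_nt, split pairs: merged library part M50

Concatenation of smaller files (each in its own section), only to save build time.
-/

/-! ### from `Lib_MP_f1a94e_eq.ArcI` -/

section

/-!
# Piece ARCI: pairs and arcs
-/

set_option autoImplicit false

namespace Pool.Agent.OmEq

open Finset Pool.Agent.GaussMR Pool.Agent.OmAll MeasureTheory Filter

theorem arci_ang (V V' : G) (hV : V ≠ 0) (hV' : V' ≠ 0) :
    ∃ j : ℤ, ang V V' = Complex.arg (V' : ℂ) - Complex.arg (V : ℂ) + 2 * Real.pi * j := by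
  have h1 : (V : ℂ) ≠ 0 := by
    intro h
    exact hV (GaussianInt.toComplex_eq_zero.mp h)
  have h2 : (V' : ℂ) ≠ 0 := by
    intro h
    exact hV' (GaussianInt.toComplex_eq_zero.mp h)
  have h3 : (ang V V' : Real.Angle) = ((Complex.arg (V' : ℂ) - Complex.arg (V : ℂ) : ℝ) : Real.Angle) := by
    unfold ang
    rw [GaussianInt.toComplex_mul, GaussianInt.toComplex_star,
      Complex.arg_mul_coe_angle ((map_ne_zero (starRingEnd ℂ)).mpr h1) h2, Complex.arg_conj_coe_angle,
      Real.Angle.coe_sub]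
    abel
  obtain ⟨j, hj⟩ := Real.Angle.angle_eq_iff_two_pi_dvd_sub.mp h3
  exact ⟨j, by linarith⟩

theorem arci_per (δ : ℝ) (z : G) (θ : ℝ) : arcIn (θ + 2 * Real.pi) δ z ↔ arcIn θ δ z := by
  unfold arcIn
  constructor
  · rintro ⟨k, h1, h2⟩
    refine ⟨k - 1, ?_, ?_⟩
    · push_cast
      linarith
    · push_cast
      linarith
  · rintro ⟨k, h1, h2⟩
    refine ⟨k + 1, ?_, ?_⟩
    · push_cast
      linarith
    · push_cast
      linarith

theorem arci_meas (δ : ℝ) (z : G) : MeasurableSet {θ : ℝ | arcIn θ δ z} := by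
  have h1 : {θ : ℝ | arcIn θ δ z} = ⋃ k : ℤ, ({θ : ℝ | θ ≤ Complex.arg (z : ℂ) + 2 * Real.pi * k} ∩
      {θ : ℝ | Complex.arg (z : ℂ) + 2 * Real.pi * k < θ + δ}) := by
    ext θ
    simp only [arcIn, Set.mem_ofPred_eq, Set.mem_iUnion, Set.mem_inter_iff]
  rw [h1]
  refine MeasurableSet.iUnion (fun k => ?_)
  exact (measurableSet_le measurable_id measurable_const).inter
    (measurableSet_lt measurable_const (measurable_id.add_const δ))

open Classical in
/-- the indicator of an arc as a function of its left end -/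
noncomputable def arciI (δ : ℝ) (z : G) (θ : ℝ) : ℝ := if arcIn θ δ z then 1 else 0

theorem arciI_meas (δ : ℝ) (z : G) : Measurable (arciI δ z) := by
  classical
  unfold arciI
  exact Measurable.ite (arci_meas δ z) measurable_const measurable_const

theorem arciI_per (δ : ℝ) (z : G) (θ : ℝ) : arciI δ z (θ + 2 * Real.pi) = arciI δ z θ := by
  classical
  unfold arciI
  by_cases h : arcIn θ δ z
  · rw [if_pos h, if_pos ((arci_per δ z θ).mpr h)]
  · rw [if_neg h, if_neg (fun h' => h ((arci_per δ z θ).mp h'))]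

theorem arciI_nonneg (δ : ℝ) (z : G) (θ : ℝ) : 0 ≤ arciI δ z θ := by
  classical
  unfold arciI
  split_ifs <;> norm_num

theorem arciI_le (δ : ℝ) (z : G) (θ : ℝ) : arciI δ z θ ≤ 1 := by
  classical
  unfold arciI
  split_ifs <;> norm_num

open Classical in
/-- PROOF. Let `φ = arg V`, `φ' = arg V'`; `ang V V' = φ' - φ + 2 π j` for an integer `j` (`Complex.arg_conj_coe_angle`, `Complex.arg_mul_coe_angle`, or `toComplex` of `star V * V'`). The integrand is `2π`-periodic in `θ`, so the integral over `[0, 2π]` equals the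
one over `[φ - π, φ + π]` (`Function.Periodic.intervalIntegral_add_eq`). There `arcIn θ δ V` iff `θ ≤ φ < θ + δ` (`δ < π`), i.e. `θ ∈ (φ - δ, φ]`, and for these `θ`, `arcIn (θ + l δ) δ V'` iff `θ + l δ ≤ φ + ang < θ + (l+1) δ` (other multiples of `2 π` are impossible as
`|ang| ≤ π` and `(l + 1) δ < π`), i.e. `θ ∈ (φ + ang - (l+1) δ, φ + ang - l δ]`. The intersection of `(φ - δ, φ]` with it has length `max 0 (δ - |ang - l δ|)`. -/
theorem arc_overlap (V V' : G) (hV : V ≠ 0) (hV' : V' ≠ 0) (δ : ℝ) (hδ : 0 < δ) (l : ℕ) (hl : ((l : ℝ) + 1) * δ < Real.pi) :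
    ∫ θ in (0 : ℝ)..(2 * Real.pi), ((if arcIn θ δ V then 1 else 0) * (if arcIn (θ + l * δ) δ V' then 1 else 0) : ℝ) =
      δ * max 0 (1 - |ang V V' / δ - l|) := by
  obtain ⟨j, hj⟩ := arci_ang V V' hV hV'
  have hpi := Real.pi_pos
  set φ := Complex.arg (V : ℂ) with hφ
  set φ' := Complex.arg (V' : ℂ) with hφ'
  set α := ang V V' with hα
  have hα1 : -Real.pi < α := Complex.neg_pi_lt_arg _
  have hα2 : α ≤ Real.pi := Complex.arg_le_pi _
  have hlδ : 0 ≤ (l : ℝ) * δ := by positivity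
  have hδπ : δ < Real.pi := by nlinarith
  set g : ℝ → ℝ := fun θ => ((if arcIn θ δ V then 1 else 0) * (if arcIn (θ + l * δ) δ V' then 1 else 0) : ℝ)
    with hg
  have hper : Function.Periodic g (2 * Real.pi) := by
    intro θ
    have e1 := arci_per δ V θ
    have e2 := arci_per δ V' (θ + l * δ)
    have e3 : θ + 2 * Real.pi + l * δ = θ + l * δ + 2 * Real.pi := by ring
    rw [hg]
    simp only
    rw [e3]
    congr 1
    · by_cases h : arcIn θ δ V
      · rw [if_pos h, if_pos (e1.mpr h)]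
      · rw [if_neg h, if_neg (fun h' => h (e1.mp h'))]
    · by_cases h : arcIn (θ + l * δ) δ V'
      · rw [if_pos h, if_pos (e2.mpr h)]
      · rw [if_neg h, if_neg (fun h' => h (e2.mp h'))]
  have hshift := hper.intervalIntegral_add_eq 0 (φ - Real.pi)
  rw [zero_add] at hshift
  have hend : φ - Real.pi + 2 * Real.pi = φ + Real.pi := by ring
  rw [hend] at hshift
  rw [hshift, intervalIntegral.integral_of_le (by linarith)]
  set a' := max (φ - δ) (φ + α - (l + 1) * δ) with ha'
  set b' := min φ (φ + α - l * δ) with hb'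
  have hind : ∀ θ ∈ Set.Ioc (φ - Real.pi) (φ + Real.pi), g θ = (Set.Ioc a' b').indicator (fun _ => (1 : ℝ)) θ := by
    intro θ hθ
    have k1 : arcIn θ δ V ↔ φ - δ < θ ∧ θ ≤ φ := by
      unfold arcIn
      rw [← hφ]
      constructor
      · rintro ⟨k, h1, h2⟩
        have hk0 : k = 0 := by
          have u1 : k < 1 := by
            by_contra hc
            push Not at hc
            have : (1 : ℝ) ≤ k := by exact_mod_cast hc
            nlinarith [hθ.2]
          have u2 : -1 < k := by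
            by_contra hc
            push Not at hc
            have : (k : ℝ) ≤ -1 := by exact_mod_cast hc
            nlinarith [hθ.1]
          omega
        rw [hk0, Int.cast_zero, mul_zero, add_zero] at h1 h2
        exact ⟨by linarith, h1⟩
      · rintro ⟨h1, h2⟩
        refine ⟨0, ?_, ?_⟩
        · rw [Int.cast_zero, mul_zero, add_zero]
          exact h2
        · rw [Int.cast_zero, mul_zero, add_zero]
          linarith
    have k2 : φ - δ < θ → θ ≤ φ → (arcIn (θ + l * δ) δ V' ↔ φ + α - (l + 1) * δ < θ ∧ θ ≤ φ + α - l * δ) := by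
      intro t1 t2
      unfold arcIn
      rw [← hφ']
      constructor
      · rintro ⟨k, h1, h2⟩
        have e1 : φ' + 2 * Real.pi * k = φ + α + 2 * Real.pi * ((k - j : ℤ) : ℝ) := by
          rw [hj]
          push_cast
          ring
        rw [e1] at h1 h2
        have hk0 : k - j = 0 := by
          generalize k - j = m at h1 h2
          have u1 : m < 1 := by
            by_contra hc
            push Not at hc
            have : (1 : ℝ) ≤ m := by exact_mod_cast hc
            nlinarith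
          have u2 : -1 < m := by
            by_contra hc
            push Not at hc
            have : (m : ℝ) ≤ -1 := by exact_mod_cast hc
            nlinarith
          omega
        rw [hk0, Int.cast_zero, mul_zero, add_zero] at h1 h2
        exact ⟨by linarith, by linarith⟩
      · rintro ⟨h1, h2⟩
        refine ⟨j, ?_, ?_⟩
        · have : φ' + 2 * Real.pi * j = φ + α := by rw [hj]; ring
          rw [this]
          linarith
        · have : φ' + 2 * Real.pi * j = φ + α := by rw [hj]; ring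
          rw [this]
          linarith
    rw [hg]
    simp only
    by_cases c1 : φ - δ < θ ∧ θ ≤ φ
    · rw [if_pos (k1.mpr c1), one_mul]
      by_cases c2 : φ + α - (l + 1) * δ < θ ∧ θ ≤ φ + α - l * δ
      · rw [if_pos ((k2 c1.1 c1.2).mpr c2), Set.indicator_of_mem]
        exact ⟨max_lt c1.1 c2.1, le_min c1.2 c2.2⟩
      · rw [if_neg (fun h => c2 ((k2 c1.1 c1.2).mp h)), Set.indicator_of_notMem]
        intro h
        exact c2 ⟨(max_lt_iff.mp h.1).2, (le_min_iff.mp h.2).2⟩
    · rw [if_neg (fun h => c1 (k1.mp h)), zero_mul, Set.indicator_of_notMem]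
      intro h
      exact c1 ⟨(max_lt_iff.mp h.1).1, (le_min_iff.mp h.2).1⟩
  rw [MeasureTheory.setIntegral_congr_fun measurableSet_Ioc hind, MeasureTheory.setIntegral_indicator measurableSet_Ioc]
  have hsub : Set.Ioc (φ - Real.pi) (φ + Real.pi) ∩ Set.Ioc a' b' = Set.Ioc a' b' := by
    refine Set.inter_eq_self_of_subset_right (Set.Ioc_subset_Ioc ?_ ?_)
    · exact le_trans (by linarith) (le_max_left _ _)
    · exact le_trans (min_le_left _ _) (by linarith)
  rw [hsub, MeasureTheory.setIntegral_const, smul_eq_mul, mul_one, Real.volume_real_Ioc]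
  have e1 : δ * max 0 (1 - |α / δ - l|) = max 0 (δ - |α - l * δ|) := by
    rw [mul_max_of_nonneg _ _ hδ.le, mul_zero, mul_sub, mul_one]
    congr 2
    have : α - l * δ = δ * (α / δ - l) := by field_simp
    rw [this, abs_mul, abs_of_pos hδ]
  rw [e1, max_comm]
  congr 1
  rw [ha', hb']
  have e2 : φ + α - (l + 1) * δ = (φ - δ) + (α - l * δ) := by ring
  have e3 : φ + α - l * δ = φ + (α - l * δ) := by ring
  rw [e2, e3]
  rcases le_total 0 (α - l * δ) with h | h
  · rw [abs_of_nonneg h, min_eq_left (by linarith), max_eq_right (by linarith)]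
    ring
  · rw [abs_of_nonpos h, min_eq_right (by linarith), max_eq_left (by linarith)]
    ring

theorem arciI_ii (δ : ℝ) (z : G) (c x y : ℝ) :
    IntervalIntegrable (fun θ => arciI δ z (θ + c)) volume x y := by
  have hm : Measurable (fun θ => arciI δ z (θ + c)) := (arciI_meas δ z).comp (measurable_id.add_const c)
  refine (intervalIntegrable_const (c := (1 : ℝ))).mono_fun hm.aestronglyMeasurable ?_
  refine Filter.Eventually.of_forall (fun θ => ?_)
  change |arciI δ z (θ + c)| ≤ |(1 : ℝ)|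
  rw [abs_of_nonneg (arciI_nonneg _ _ _), abs_one]
  exact arciI_le _ _ _

theorem arciI_ii2 (δ : ℝ) (z z' : G) (c c' x y : ℝ) :
    IntervalIntegrable (fun θ => arciI δ z (θ + c) * arciI δ z' (θ + c')) volume x y := by
  have hm : Measurable (fun θ => arciI δ z (θ + c) * arciI δ z' (θ + c')) :=
    ((arciI_meas δ z).comp (measurable_id.add_const c)).mul ((arciI_meas δ z').comp (measurable_id.add_const c'))
  refine (intervalIntegrable_const (c := (1 : ℝ))).mono_fun hm.aestronglyMeasurable ?_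
  refine Filter.Eventually.of_forall (fun θ => ?_)
  change |arciI δ z (θ + c) * arciI δ z' (θ + c')| ≤ |(1 : ℝ)|
  rw [abs_of_nonneg (mul_nonneg (arciI_nonneg _ _ _) (arciI_nonneg _ _ _)), abs_one]
  exact mul_le_one₀ (arciI_le _ _ _) (arciI_nonneg _ _ _) (arciI_le _ _ _)

open Classical in
theorem arci_Sp (f : ℕ → ℂ) (D : ℕ) (b : G) (X δ θ : ℝ) :
    Sp f D b X δ θ = ∑ V ∈ (PV X).filter (fun V => cg D V b), f (nm V) * ((arciI δ V θ : ℝ) : ℂ) := by
  unfold Sp
  rw [Finset.sum_filter, Finset.sum_filter]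
  refine Finset.sum_congr rfl (fun V _ => ?_)
  unfold arciI
  by_cases h1 : cg D V b
  · by_cases h : arcIn θ δ V
    · rw [if_pos h1, if_pos h, if_pos ⟨h1, h⟩, Complex.ofReal_one, mul_one]
    · rw [if_pos h1, if_neg h, if_neg (fun hh => h hh.2), Complex.ofReal_zero, mul_zero]
  · rw [if_neg h1, if_neg (fun hh => h1 hh.1)]

open Classical in
/-- PROOF. Expand `∫ Sp f D b X δ θ * conj (Sp f D b' X' δ (θ + l δ)) dθ` (finite sums; each indicator of an arc is a measurable bounded function of `θ`) with `arc_overlap`: it is `δ` times the sum on the left. Cauchy-Schwarz for integrals and `2π`-periodicity of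
`θ ↦ Sp f D b' X' δ θ` give the bound `(∫ ‖Sp b X‖^2)^(1/2) (∫ ‖Sp b' X'‖^2)^(1/2) ≤ A`. -/
theorem arc_bound (f : ℕ → ℂ) (D : ℕ) (b b' : G) (X X' δ A : ℝ) (hδ : 0 < δ) (l : ℕ) (hl : ((l : ℝ) + 1) * δ < Real.pi)
    (h1 : ∫ θ in (0 : ℝ)..(2 * Real.pi), ‖Sp f D b X δ θ‖ ^ 2 ≤ A)
    (h2 : ∫ θ in (0 : ℝ)..(2 * Real.pi), ‖Sp f D b' X' δ θ‖ ^ 2 ≤ A) :
    ‖∑ V ∈ (PV X).filter (fun V => cg D V b), ∑ V' ∈ (PV X').filter (fun V' => cg D V' b'),
      f (nm V) * (starRingEnd ℂ) (f (nm V')) * ((max 0 (1 - |ang V V' / δ - l|) : ℝ) : ℂ)‖ ≤ A / δ := by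
  have hpi := Real.pi_pos
  set F1 := (PV X).filter (fun V => cg D V b) with hF1
  set F2 := (PV X').filter (fun V' => cg D V' b') with hF2
  set S1 : ℝ → ℂ := fun θ => Sp f D b X δ θ with hS1
  set S2 : ℝ → ℂ := fun θ => Sp f D b' X' δ (θ + l * δ) with hS2
  have hPV : ∀ {Y : ℝ} {z : G}, z ∈ PV Y → z ≠ 0 := by
    intro Y z hz h0
    have hP := (mem_PV.mp hz).2
    rw [h0] at hP
    unfold Prim at hP
    obtain ⟨u, v, huv⟩ := hP
    simp at huv
  have e1 : ∀ θ, S1 θ = ∑ V ∈ F1, f (nm V) * ((arciI δ V θ : ℝ) : ℂ) := fun θ => arci_Sp f D b X δ θ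
  have e2 : ∀ θ, S2 θ = ∑ V' ∈ F2, f (nm V') * ((arciI δ V' (θ + l * δ) : ℝ) : ℂ) :=
    fun θ => arci_Sp f D b' X' δ (θ + l * δ)
  have m1 : Measurable S1 := by
    have : S1 = fun θ => ∑ V ∈ F1, f (nm V) * ((arciI δ V θ : ℝ) : ℂ) := funext e1
    rw [this]
    refine Finset.measurable_sum _ (fun V _ => ?_)
    exact (Complex.measurable_ofReal.comp (arciI_meas δ V)).const_mul _
  have m2 : Measurable S2 := by
    have : S2 = fun θ => ∑ V' ∈ F2, f (nm V') * ((arciI δ V' (θ + l * δ) : ℝ) : ℂ) := funext e2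
    rw [this]
    refine Finset.measurable_sum _ (fun V _ => ?_)
    exact (Complex.measurable_ofReal.comp ((arciI_meas δ V).comp (measurable_id.add_const _))).const_mul _
  have b1 : ∀ θ, ‖S1 θ‖ ≤ ∑ V ∈ F1, ‖f (nm V)‖ := by
    intro θ
    rw [e1]
    refine norm_sum_le_of_le _ (fun V _ => ?_)
    rw [norm_mul, Complex.norm_real, Real.norm_eq_abs, abs_of_nonneg (arciI_nonneg _ _ _)]
    exact mul_le_of_le_one_right (norm_nonneg _) (arciI_le _ _ _)
  have b2 : ∀ θ, ‖S2 θ‖ ≤ ∑ V' ∈ F2, ‖f (nm V')‖ := by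
    intro θ
    rw [e2]
    refine norm_sum_le_of_le _ (fun V _ => ?_)
    rw [norm_mul, Complex.norm_real, Real.norm_eq_abs, abs_of_nonneg (arciI_nonneg _ _ _)]
    exact mul_le_of_le_one_right (norm_nonneg _) (arciI_le _ _ _)
  have hint : ∀ (S : ℝ → ℂ) (B : ℝ), Measurable S → (∀ θ, ‖S θ‖ ≤ B) → ∀ x y : ℝ,
      IntervalIntegrable (fun θ => ‖S θ‖ ^ 2) volume x y := by
    intro S B hS hB x y
    refine (intervalIntegrable_const (c := (B ^ 2 : ℝ))).mono_fun
      ((hS.norm.pow_const 2).aestronglyMeasurable) (Filter.Eventually.of_forall (fun θ => ?_))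
    change |‖S θ‖ ^ 2| ≤ |B ^ 2|
    rw [abs_of_nonneg (by positivity), abs_of_nonneg (by positivity)]
    exact pow_le_pow_left₀ (norm_nonneg _) (hB θ) 2
  have hi1 := hint S1 _ m1 b1 0 (2 * Real.pi)
  have hi2 := hint S2 _ m2 b2 0 (2 * Real.pi)
  -- the second integral
  have hper : Function.Periodic (fun θ => ‖Sp f D b' X' δ θ‖ ^ 2) (2 * Real.pi) := by
    intro θ
    simp only
    have : Sp f D b' X' δ (θ + 2 * Real.pi) = Sp f D b' X' δ θ := by
      rw [arci_Sp f D b' X' δ (θ + 2 * Real.pi), arci_Sp f D b' X' δ θ]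
      refine Finset.sum_congr rfl (fun V _ => ?_)
      rw [arciI_per]
    rw [this]
  have h2' : ∫ θ in (0 : ℝ)..(2 * Real.pi), ‖S2 θ‖ ^ 2 ≤ A := by
    have k1 : ∫ θ in (0 : ℝ)..(2 * Real.pi), ‖S2 θ‖ ^ 2 =
        ∫ θ in (0 + l * δ)..(2 * Real.pi + l * δ), ‖Sp f D b' X' δ θ‖ ^ 2 := by
      rw [← intervalIntegral.integral_comp_add_right (fun θ => ‖Sp f D b' X' δ θ‖ ^ 2)]
    rw [k1]
    have k2 := hper.intervalIntegral_add_eq 0 (0 + l * δ)
    rw [zero_add] at k2
    have k3 : (2 : ℝ) * Real.pi + l * δ = 0 + l * δ + 2 * Real.pi := by ring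
    rw [k3, ← k2]
    exact h2
  -- the main identity
  have hmain : ∫ θ in (0 : ℝ)..(2 * Real.pi), S1 θ * (starRingEnd ℂ) (S2 θ) =
      (δ : ℂ) * ∑ V ∈ F1, ∑ V' ∈ F2, f (nm V) * (starRingEnd ℂ) (f (nm V')) *
        ((max 0 (1 - |ang V V' / δ - l|) : ℝ) : ℂ) := by
    have k1 : ∀ θ : ℝ, S1 θ * (starRingEnd ℂ) (S2 θ) = ∑ p ∈ F1 ×ˢ F2,
        (f (nm p.1) * (starRingEnd ℂ) (f (nm p.2))) *
          ((arciI δ p.1 (θ + 0) * arciI δ p.2 (θ + l * δ) : ℝ) : ℂ) := by
      intro θ
      rw [e1, e2, map_sum, Finset.sum_mul_sum, Finset.sum_product]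
      refine Finset.sum_congr rfl (fun V _ => Finset.sum_congr rfl (fun V' _ => ?_))
      rw [map_mul, Complex.conj_ofReal, add_zero]
      push_cast
      ring
    have k2 : ∀ p ∈ F1 ×ˢ F2, IntervalIntegrable (fun θ => (f (nm p.1) * (starRingEnd ℂ) (f (nm p.2))) *
          ((arciI δ p.1 (θ + 0) * arciI δ p.2 (θ + l * δ) : ℝ) : ℂ)) volume 0 (2 * Real.pi) := by
      intro p _
      have k5 := arciI_ii2 δ p.1 p.2 0 (l * δ) 0 (2 * Real.pi)
      have k6 : IntervalIntegrable (fun θ => ((arciI δ p.1 (θ + 0) * arciI δ p.2 (θ + l * δ) : ℝ) : ℂ)) volume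
        0 (2 * Real.pi) := ⟨k5.1.ofReal, k5.2.ofReal⟩
      exact k6.const_mul _
    simp only [k1]
    rw [intervalIntegral.integral_finsetSum k2]
    rw [← Finset.sum_product', Finset.mul_sum]
    refine Finset.sum_congr rfl (fun p hp => ?_)
    obtain ⟨V, V'⟩ := p
    obtain ⟨hV, hV'⟩ := Finset.mem_product.mp hp
    simp only at hV hV' ⊢
    rw [intervalIntegral.integral_const_mul, intervalIntegral.integral_ofReal]
    have k3 := arc_overlap V V' (hPV (mem_filter.mp hV).1) (hPV (mem_filter.mp hV').1) δ hδ l hl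
    have k4 : ∫ θ in (0 : ℝ)..(2 * Real.pi), arciI δ V (θ + 0) * arciI δ V' (θ + l * δ) =
        δ * max 0 (1 - |ang V V' / δ - l|) := by
      rw [← k3]
      refine intervalIntegral.integral_congr (fun θ _ => ?_)
      simp only [add_zero]
      rfl
    rw [k4]
    push_cast
    ring
  set T := ∑ V ∈ F1, ∑ V' ∈ F2, f (nm V) * (starRingEnd ℂ) (f (nm V')) *
        ((max 0 (1 - |ang V V' / δ - l|) : ℝ) : ℂ) with hT
  have hb : ‖∫ θ in (0 : ℝ)..(2 * Real.pi), S1 θ * (starRingEnd ℂ) (S2 θ)‖ ≤ A := by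
    calc ‖∫ θ in (0 : ℝ)..(2 * Real.pi), S1 θ * (starRingEnd ℂ) (S2 θ)‖
        ≤ ∫ θ in (0 : ℝ)..(2 * Real.pi), ((1 / 2 : ℝ) * ‖S1 θ‖ ^ 2 + (1 / 2 : ℝ) * ‖S2 θ‖ ^ 2) := by
          refine intervalIntegral.norm_integral_le_of_norm_le (by positivity) ?_
            ((hi1.const_mul _).add (hi2.const_mul _))
          refine Filter.Eventually.of_forall (fun θ _ => ?_)
          rw [norm_mul, RCLike.norm_conj]
          nlinarith [sq_nonneg (‖S1 θ‖ - ‖S2 θ‖)]
      _ = (1 / 2 : ℝ) * (∫ θ in (0 : ℝ)..(2 * Real.pi), ‖S1 θ‖ ^ 2) +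
          (1 / 2 : ℝ) * (∫ θ in (0 : ℝ)..(2 * Real.pi), ‖S2 θ‖ ^ 2) := by
          rw [intervalIntegral.integral_add (hi1.const_mul _) (hi2.const_mul _),
            intervalIntegral.integral_const_mul, intervalIntegral.integral_const_mul]
      _ ≤ A := by linarith
  rw [hmain, norm_mul, Complex.norm_real, Real.norm_eq_abs, abs_of_pos hδ] at hb
  rw [le_div_iff₀ hδ]
  linarith

end Pool.Agent.OmEq

end
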