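import Pool.Agent.Lib_MP_92ef0c_m.M04
import Pool.Agent.Lib_MP_92ef0c_m.M09
import Pool.Agent.Lib_MP_92ef0c_m.M16
import Pool.Agent.Lib_MP_92ef0c_m.M42
import Pool.Agent.Lib_MP_92ef0c_m.M50

/-!
# MP_92ef0c_nt, split pairs: merged library part M51

Concatenation of smaller files (each in its own section), only to save build time.
-/

/-! ### from `Lib_MP_f1a94e_eq.MrpO` -/

section

/-!
# Piece MRPO: from odd numbers to all primitive numbers, coprime to `R`
-/

set_option autoImplicit false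

namespace Pool.Agent.OmEq

open Finset Pool.Agent.GaussMR Pool.Agent.OmAll MeasureTheory Filter

/-- representatives modulo `M` -/
noncomputable def mrpoR (M : ℕ) : Finset G :=
  (Finset.range M ×ˢ Finset.range M).image (fun p : ℕ × ℕ => (⟨(p.1 : ℤ), (p.2 : ℤ)⟩ : G))

theorem mrpo_mem {M : ℕ} {z : G} (hz : z ∈ mrpoR M) : (0 ≤ z.re ∧ z.re < M) ∧ (0 ≤ z.im ∧ z.im < M) := by
  unfold mrpoR at hz
  rw [mem_image] at hz
  obtain ⟨p, hp, rfl⟩ := hz
  rw [mem_product, mem_range, mem_range] at hp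
  refine ⟨⟨Int.natCast_nonneg _, ?_⟩, ⟨Int.natCast_nonneg _, ?_⟩⟩
  · show (p.1 : ℤ) < M
    exact_mod_cast hp.1
  · show (p.2 : ℤ) < M
    exact_mod_cast hp.2

theorem mrpo_rd {M : ℕ} (hM : 0 < M) (z : G) : rd M z ∈ mrpoR M := by
  have hM' : (0 : ℤ) < M := by exact_mod_cast hM
  have a1 := Int.emod_nonneg z.re hM'.ne'
  have a2 := Int.emod_lt_of_pos z.re hM'
  have b1 := Int.emod_nonneg z.im hM'.ne'
  have b2 := Int.emod_lt_of_pos z.im hM'
  unfold mrpoR
  rw [mem_image]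
  refine ⟨((z.re % M).toNat, (z.im % M).toNat), ?_, ?_⟩
  · rw [mem_product, mem_range, mem_range]
    dsimp only
    constructor <;> omega
  · dsimp only
    rw [Int.toNat_of_nonneg a1, Int.toNat_of_nonneg b1]
    rfl

theorem mrpo_card (M : ℕ) : (mrpoR M).card ≤ M * M := by
  unfold mrpoR
  refine card_image_le.trans ?_
  rw [card_product, card_range]

open Classical in
/-- splitting a periodic condition into classes -/
theorem mrpo_split {M : ℕ} (hM : 0 < M) (S : Finset G) (P : G → Prop) [DecidablePred P]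
    (hP : ∀ z w : G, cg M z w → P z → P w) (g : G → ℂ) :
    ∑ z ∈ S.filter P, g z = ∑ b ∈ (mrpoR M).filter P, ∑ z ∈ S.filter (fun z => cg M z b), g z := by
  rw [← sum_fiberwise_of_maps_to (s := S.filter P) (t := (mrpoR M).filter P) (g := rd M)]
  · apply sum_congr rfl
    intro b hb
    rw [mem_filter] at hb
    apply sum_congr _ (fun _ _ => rfl)
    ext z
    simp only [mem_filter]
    constructor
    · rintro ⟨⟨h1, -⟩, h3⟩
      refine ⟨h1, ?_⟩
      rw [← h3]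
      exact cg_symm (rd_cg M z)
    · rintro ⟨h1, h2⟩
      have h3 := mrpo_mem hb.1
      exact ⟨⟨h1, hP _ _ (cg_symm h2) hb.2⟩, rd_eq_of_cg h2 h3.1 h3.2⟩
  · intro z hz
    rw [mem_filter] at hz ⊢
    exact ⟨mrpo_rd hM z, hP _ _ (cg_symm (rd_cg M z)) hz.2⟩

theorem mrpo_cop {R : ℕ} {z w : G} (h : cg R z w) (hz : (nm z).Coprime R) : (nm w).Coprime R := by
  have h1 := LocalBP.cg_nm h
  have h2 : nm w ≡ nm z [MOD R] := by
    rw [← Int.natCast_modEq_iff]
    exact Int.modEq_iff_dvd.2 h1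
  unfold Nat.Coprime at *
  rw [h2.gcd_eq]
  exact hz

/-! ### arcs -/

theorem mrpo_arc_mul {u w : G} (hu : u ≠ 0) (hw : w ≠ 0) (θ δ : ℝ) :
    arcIn θ δ (u * w) ↔ arcIn (θ - Complex.arg (u : ℂ)) δ w := by
  have h1 : ((Complex.arg ((u * w : G) : ℂ) : ℝ) : Real.Angle) =
      ((Complex.arg (u : ℂ) + Complex.arg (w : ℂ) : ℝ) : Real.Angle) := by
    rw [GaussianInt.toComplex_mul, Complex.arg_mul_coe_angle (toComplex_ne_zero hu) (toComplex_ne_zero hw)]
    rfl
  obtain ⟨j, hj⟩ := Real.Angle.angle_eq_iff_two_pi_dvd_sub.1 h1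
  unfold arcIn
  constructor
  · rintro ⟨k, h2, h3⟩
    refine ⟨k + j, ?_, ?_⟩
    · push_cast
      linarith
    · push_cast
      linarith
  · rintro ⟨k, h2, h3⟩
    refine ⟨k - j, ?_, ?_⟩
    · push_cast
      linarith
    · push_cast
      linarith

theorem mrpo_arc_per (θ δ : ℝ) (z : G) : arcIn (θ + 2 * Real.pi) δ z ↔ arcIn θ δ z := by
  unfold arcIn
  constructor
  · rintro ⟨k, h2, h3⟩
    refine ⟨k - 1, ?_, ?_⟩
    · push_cast
      linarith
    · push_cast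
      linarith
  · rintro ⟨k, h2, h3⟩
    refine ⟨k + 1, ?_, ?_⟩
    · push_cast
      linarith
    · push_cast
      linarith

theorem mrpo_arc_meas (δ : ℝ) (z : G) : MeasurableSet {θ : ℝ | arcIn θ δ z} := by
  have h : {θ : ℝ | arcIn θ δ z} = ⋃ k : ℤ, Set.Ioc (Complex.arg (z : ℂ) + 2 * Real.pi * k - δ)
      (Complex.arg (z : ℂ) + 2 * Real.pi * k) := by
    ext θ
    rw [Set.mem_iUnion]
    constructor
    · rintro ⟨k, h2, h3⟩
      exact ⟨k, by linarith, h2⟩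
    · rintro ⟨k, h2, h3⟩
      exact ⟨k, h3, by linarith⟩
  rw [h]
  exact MeasurableSet.iUnion (fun k => measurableSet_Ioc)

open Classical in
theorem mrpo_So_eq (f : ℕ → ℂ) (D : ℕ) (b : G) (X δ θ : ℝ) :
    So f D b X δ θ = ∑ z ∈ (V X).filter (fun z => cg D z b), if arcIn θ δ z then f (nm z) else 0 := by
  unfold So
  rw [← sum_filter, filter_filter]

theorem mrpo_So_meas (f : ℕ → ℂ) (D : ℕ) (b : G) (X δ : ℝ) : Measurable (So f D b X δ) := by
  classical
  have h : So f D b X δ = fun θ => ∑ z ∈ (V X).filter (fun z => cg D z b),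
      if arcIn θ δ z then f (nm z) else 0 := by
    funext θ
    rw [mrpo_So_eq]
  rw [h]
  apply Finset.measurable_sum
  intro z _
  exact Measurable.ite (mrpo_arc_meas δ z) measurable_const measurable_const

theorem mrpo_So_bd (f : ℕ → ℂ) (D : ℕ) (b : G) (X δ θ : ℝ) : ‖So f D b X δ θ‖ ≤ ∑ z ∈ V X, ‖f (nm z)‖ := by
  classical
  rw [mrpo_So_eq]
  refine (norm_sum_le _ _).trans ?_
  refine (sum_le_sum (g := fun z => ‖f (nm z)‖) ?_).trans
    (sum_le_sum_of_subset_of_nonneg (filter_subset _ _) (fun _ _ _ => norm_nonneg _))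
  intro z _
  split_ifs
  · exact le_rfl
  · rw [norm_zero]
    exact norm_nonneg _

theorem mrpo_So_int (f : ℕ → ℂ) (D : ℕ) (b : G) (X δ s a c : ℝ) :
    IntervalIntegrable (fun θ => ‖So f D b X δ (θ - s)‖ ^ 2) volume a c := by
  have h1 : Measurable (fun θ => ‖So f D b X δ (θ - s)‖ ^ 2) :=
    (((mrpo_So_meas f D b X δ).comp (measurable_id.sub_const s)).norm).pow_const 2
  refine (intervalIntegrable_const (c := (∑ z ∈ V X, ‖f (nm z)‖) ^ 2)).mono_fun h1.aestronglyMeasurable ?_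
  refine Eventually.of_forall (fun θ => ?_)
  dsimp only
  rw [Real.norm_of_nonneg (by positivity), Real.norm_of_nonneg (by positivity)]
  exact pow_le_pow_left₀ (norm_nonneg _) (mrpo_So_bd f D b X δ _) 2

theorem mrpo_So_per (f : ℕ → ℂ) (D : ℕ) (b : G) (X δ θ : ℝ) :
    So f D b X δ (θ + 2 * Real.pi) = So f D b X δ θ := by
  classical
  rw [mrpo_So_eq, mrpo_So_eq]
  apply sum_congr rfl
  intro z _
  simp only [mrpo_arc_per]

theorem mrpo_shift (f : ℕ → ℂ) (D : ℕ) (b : G) (X δ s : ℝ) :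
    ∫ θ in (0 : ℝ)..(2 * Real.pi), ‖So f D b X δ (θ - s)‖ ^ 2 =
      ∫ θ in (0 : ℝ)..(2 * Real.pi), ‖So f D b X δ θ‖ ^ 2 := by
  have hp : Function.Periodic (fun θ => ‖So f D b X δ θ‖ ^ 2) (2 * Real.pi) := by
    intro θ
    dsimp only
    rw [mrpo_So_per]
  rw [intervalIntegral.integral_comp_sub_right (fun θ => ‖So f D b X δ θ‖ ^ 2) s]
  have h := hp.intervalIntegral_add_eq (0 - s) 0
  rw [show (0 : ℝ) - s + 2 * Real.pi = 2 * Real.pi - s by ring, zero_add] at h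
  exact h

/-! ### even primitive numbers -/

/-- `1 + i` -/
def mrpoU : G := ⟨1, 1⟩

/-- division by `1 + i` -/
def mrpoH (z : G) : G := ⟨(z.re + z.im) / 2, (z.im - z.re) / 2⟩

theorem mrpo_mul (w : G) : mrpoU * w = ⟨w.re - w.im, w.re + w.im⟩ := by
  unfold mrpoU
  apply Zsqrtd.ext
  · simp
    ring
  · simp
    ring

theorem mrpo_U_ne : mrpoU ≠ 0 := by
  intro h
  have h1 := congrArg Zsqrtd.re h
  exact absurd h1 (by decide)

theorem mrpo_nmU : nm mrpoU = 2 := by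
  have h : (nm mrpoU : ℤ) = 2 := by
    rw [nm_eq]
    rfl
  exact_mod_cast h

theorem mrpo_nm (w : G) : nm (mrpoU * w) = 2 * nm w := by
  rw [nm_mul, mrpo_nmU]

theorem mrpo_H_mul (w : G) : mrpoH (mrpoU * w) = w := by
  rw [mrpo_mul]
  unfold mrpoH
  apply Zsqrtd.ext
  · show (w.re - w.im + (w.re + w.im)) / 2 = w.re
    omega
  · show (w.re + w.im - (w.re - w.im)) / 2 = w.im
    omega

theorem mrpo_mul_H {z : G} (hz : Even (z.re + z.im)) : mrpoU * mrpoH z = z := by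
  obtain ⟨k, hk⟩ := hz
  rw [mrpo_mul]
  unfold mrpoH
  apply Zsqrtd.ext
  · show (z.re + z.im) / 2 - (z.im - z.re) / 2 = z.re
    omega
  · show (z.re + z.im) / 2 + (z.im - z.re) / 2 = z.im
    omega

theorem mrpo_prim_mul {w : G} (hw : Prim w) (ho : Odd (nm w)) : Prim (mrpoU * w) := by
  rw [odd_nm_iff] at ho
  rw [mrpo_mul]
  unfold Prim at *
  show IsCoprime (w.re - w.im) (w.re + w.im)
  obtain ⟨a, b, hab⟩ := hw
  obtain ⟨k, hk⟩ := ho
  -- 1 = (re+im) - 2 k, 2 = (a - b)(re - im) + (a + b) (re + im)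
  refine ⟨-k * (a - b), 1 - k * (a + b), ?_⟩
  linear_combination hk - 2 * k * hab

theorem mrpo_prim_H {z : G} (hz : Prim z) (he : Even (z.re + z.im)) : Prim (mrpoH z) ∧ Odd (nm (mrpoH z)) := by
  have h1 := mrpo_mul_H he
  set w := mrpoH z with hw
  rw [mrpo_mul] at h1
  have hre : w.re - w.im = z.re := congrArg Zsqrtd.re h1
  have him : w.re + w.im = z.im := congrArg Zsqrtd.im h1
  unfold Prim at hz ⊢
  obtain ⟨a, b, hab⟩ := hz
  refine ⟨⟨a + b, b - a, ?_⟩, ?_⟩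
  · rw [← hre, ← him] at hab
    linear_combination hab
  · rw [odd_nm_iff, him]
    by_contra hc
    rw [Int.not_odd_iff_even] at hc
    have hr : Even z.re := by
      have := he.sub hc
      rwa [add_sub_cancel_right] at this
    have h3 : Even (1 : ℤ) := by
      rw [← hab]
      exact (hr.mul_left a).add (hc.mul_left b)
    exact absurd h3 (by decide)

open Classical in
theorem mrpo_even (g : G → ℂ) (P : G → Prop) [DecidablePred P] [DecidablePred fun z : G => ¬ Odd (nm z)] (X : ℝ) :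
    ∑ z ∈ ((PV X).filter P).filter (fun z => ¬ Odd (nm z)), g z =
      ∑ w ∈ (V (X / 2)).filter (fun w => P (mrpoU * w)), g (mrpoU * w) := by
  have hev : ∀ z : G, ¬ Odd (nm z) → Even (z.re + z.im) := by
    intro z hz
    rw [odd_nm_iff, Int.not_odd_iff_even] at hz
    exact hz
  refine sum_nbij' mrpoH (fun w => mrpoU * w) ?_ ?_ ?_ ?_ ?_
  · intro z hz
    simp only [mem_filter] at hz ⊢
    obtain ⟨⟨h1, h2⟩, h3⟩ := hz
    rw [mem_PV] at h1
    have h4 := mrpo_mul_H (hev z h3)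
    have h5 := mrpo_prim_H h1.2 (hev z h3)
    rw [mem_V, h4]
    refine ⟨⟨?_, h5.2, h5.1⟩, h2⟩
    have h6 := mrpo_nm (mrpoH z)
    rw [h4] at h6
    have h7 : (nm z : ℝ) = 2 * nm (mrpoH z) := by exact_mod_cast h6
    linarith [h1.1]
  · intro w hw
    simp only [mem_filter] at hw ⊢
    obtain ⟨h1, h2⟩ := hw
    rw [mem_V] at h1
    refine ⟨⟨?_, h2⟩, ?_⟩
    · rw [mem_PV, mrpo_nm]
      refine ⟨?_, mrpo_prim_mul h1.2.2 h1.2.1⟩
      push_cast
      linarith [h1.1]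
    · rw [mrpo_nm, Nat.not_odd_iff_even]
      exact even_two_mul _
  · intro z hz
    simp only [mem_filter] at hz
    exact mrpo_mul_H (hev z hz.2)
  · intro w _
    exact mrpo_H_mul w
  · intro z hz
    simp only [mem_filter] at hz
    rw [mrpo_mul_H (hev z hz.2)]

theorem mrpo_fz (R : ℕ) {n : ℕ} (hn : n ≠ 0) (hc : n.Coprime R) :
    fz R (-1) n = (-1 : ℂ) ^ ArithmeticFunction.cardFactors n := by
  unfold fz
  rw [if_neg]
  rintro (h | h)
  · exact hn h
  · exact h hc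

theorem mrpo_fz0 (R : ℕ) {n : ℕ} (hc : ¬ n.Coprime R) : fz R (-1) n = 0 := by
  unfold fz
  rw [if_pos (Or.inr hc)]

open Classical in
/-- sums of `fz` over odd primitive numbers with a periodic condition, in classes -/
theorem mrpo_cls {M R : ℕ} (hM : 0 < M) (hR : R ∣ M) (Q : G → Prop) (hQ : ∀ z w : G, cg M z w → Q z → Q w)
    (X δ θ : ℝ) :
    ∑ z ∈ (V X).filter (fun z => Q z ∧ arcIn θ δ z), fz R (-1) (nm z) =
      ∑ b ∈ (mrpoR M).filter (fun z => Q z ∧ (nm z).Coprime R),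
        So (fun n => (-1 : ℂ) ^ ArithmeticFunction.cardFactors n) M b X δ θ := by
  have h1 : ∑ z ∈ (V X).filter (fun z => Q z ∧ arcIn θ δ z), fz R (-1) (nm z) =
      ∑ z ∈ ((V X).filter (fun z => arcIn θ δ z)).filter (fun z => Q z ∧ (nm z).Coprime R),
        (-1 : ℂ) ^ ArithmeticFunction.cardFactors (nm z) := by
    rw [filter_filter, sum_filter, sum_filter]
    apply sum_congr rfl
    intro z hz
    rw [mem_V] at hz
    by_cases ha : arcIn θ δ z
    · by_cases hq : Q z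
      · by_cases hc : (nm z).Coprime R
        · rw [if_pos ⟨hq, ha⟩, if_pos ⟨ha, hq, hc⟩, mrpo_fz R (nm_pos_of_odd hz.2.1).ne' hc]
        · rw [if_pos ⟨hq, ha⟩, if_neg (fun h => hc h.2.2), mrpo_fz0 R hc]
      · rw [if_neg (fun h => hq h.1), if_neg (fun h => hq h.2.1)]
    · rw [if_neg (fun h => ha h.2), if_neg (fun h => ha h.1)]
  rw [h1, mrpo_split hM _ (fun z => Q z ∧ (nm z).Coprime R)
    (fun z w h h2 => ⟨hQ z w h h2.1, mrpo_cop (cg_mono hR h) h2.2⟩)]
  apply sum_congr rfl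
  intro b _
  unfold So
  apply sum_congr _ (fun _ _ => rfl)
  ext z
  simp only [mem_filter]
  constructor
  · rintro ⟨⟨h2, h3⟩, h4⟩
    exact ⟨h2, h4, h3⟩
  · rintro ⟨h2, h3, h4⟩
    exact ⟨⟨h2, h4⟩, h3⟩

open Classical in
theorem mrpo_dec {D R : ℕ} (hD : 0 < D) (hR : 0 < R) (b : G) (X δ θ : ℝ) :
    Sp (fz R (-1)) D b X δ θ =
      (∑ b1 ∈ (mrpoR (D * R)).filter (fun z => cg D z b ∧ (nm z).Coprime R),
        So (fun n => (-1 : ℂ) ^ ArithmeticFunction.cardFactors n) (D * R) b1 X δ θ) +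
      fz R (-1) 2 * ∑ b1 ∈ (mrpoR (D * R)).filter (fun z => cg D (mrpoU * z) b ∧ (nm z).Coprime R),
        So (fun n => (-1 : ℂ) ^ ArithmeticFunction.cardFactors n) (D * R) b1 (X / 2) δ
          (θ - Complex.arg (mrpoU : ℂ)) := by
  have hM : 0 < D * R := Nat.mul_pos hD hR
  rw [← mrpo_cls hM (dvd_mul_left R D) (fun z => cg D z b)
    (fun z w h h2 => cg_trans (cg_symm (cg_mono (dvd_mul_right D R) h)) h2),
    ← mrpo_cls hM (dvd_mul_left R D) (fun z => cg D (mrpoU * z) b) ?_]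
  · unfold Sp
    rw [← sum_filter_add_sum_filter_not _ (fun z => Odd (nm z)), mrpo_even]
    congr 1
    · apply sum_congr _ (fun _ _ => rfl)
      ext z
      simp only [mem_filter, mem_PV, mem_V]
      constructor
      · rintro ⟨⟨⟨h1, h2⟩, h3⟩, h4⟩
        exact ⟨⟨h1, h4, h2⟩, h3⟩
      · rintro ⟨⟨h1, h4, h2⟩, h3⟩
        exact ⟨⟨⟨h1, h2⟩, h3⟩, h4⟩
    · rw [mul_sum]
      have hz : ‖(-1 : ℂ)‖ = 1 := by simp
      have hset : (V (X / 2)).filter (fun w => cg D (mrpoU * w) b ∧ arcIn θ δ (mrpoU * w)) =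
          (V (X / 2)).filter (fun w => cg D (mrpoU * w) b ∧ arcIn (θ - Complex.arg (mrpoU : ℂ)) δ w) := by
        apply filter_congr
        intro w hw
        rw [mem_V] at hw
        rw [mrpo_arc_mul mrpo_U_ne (ne_zero_of_odd hw.2.1)]
      rw [hset]
      apply sum_congr rfl
      intro w _
      rw [mrpo_nm, (fz_FF R hR (-1) hz).mul]
  · intro z w h h2
    refine cg_trans ?_ h2
    have h3 := cg_mono (dvd_mul_right D R) h
    obtain ⟨⟨x, hx⟩, ⟨y, hy⟩⟩ := h3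
    rw [mrpo_mul, mrpo_mul]
    refine ⟨⟨y - x, ?_⟩, ⟨-x - y, ?_⟩⟩
    · show w.re - w.im - (z.re - z.im) = _
      linear_combination hy - hx
    · show w.re + w.im - (z.re + z.im) = _
      linear_combination - hy - hx

/-- PROOF. `f = fz R (-1)`, `L n = (-1)^Ω(n)`. A primitive `z` is odd or `z = (1 + i) w` with `w` odd primitive, `nm z = 2 nm w` (`(1+i)^2 = 2 i` and `z` is not divisible by 2), and `(1+i) w` is primitive for `w` odd primitive. `arg ((1+i) w) = arg w + π/4` modulo `2π`. So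
`Sp f D b X δ θ = ∑_(b1) So L (D R) b1 X δ θ + c ∑_(b2) So L (D R) b2 (X/2) δ (θ - π/4)`, `b1` over the representatives modulo `D R` with `b1 = b mod D` and `(nm b1, R) = 1`, `b2` over those with `(1+i) b2 = b mod D` and `(nm b2, R) = 1`, `c = f 2` (`f (2 m) = f 2 * f m`; `‖c‖ ≤ 1`): `cg`, `nm` are
compatible with congruences, `f (nm z) = L (nm z)` if `(nm z, R) = 1` and `0` otherwise. With `m = 2 (D R)^2` terms, `‖∑‖^2 ≤ m ∑ ‖.‖^2`, the integral over a period of the shifted function is the same (`So` is `2π`-periodic in `θ`), and `H / X = (H/2) / (X/2)`: apply `hL` with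
`ε' = ε / m^2` to all classes, `H0` twice the maximum. -/
theorem mrp_of_mro (hL : MRO (fun n => (-1 : ℂ) ^ ArithmeticFunction.cardFactors n)) (R : ℕ) (hR : 0 < R) :
    MRP (fz R (-1)) := by
  classical
  intro D hD b ε hε
  set L : ℕ → ℂ := fun n => (-1 : ℂ) ^ ArithmeticFunction.cardFactors n with hLd
  set M : ℕ := D * R with hMd
  have hM : 0 < M := Nat.mul_pos hD hR
  have hM' : (0 : ℝ) < M := by exact_mod_cast hM
  set K : ℝ := (M : ℝ) * M with hK
  have hK0 : 0 < K := by positivity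
  set ε' : ℝ := ε / (4 * K ^ 2) with hε'
  have hε'0 : 0 < ε' := by positivity
  have key : ∀ᶠ H : ℝ in atTop, ∀ b1 ∈ mrpoR M, ∀ᶠ X : ℝ in atTop,
      ∫ θ in (0 : ℝ)..(2 * Real.pi), ‖So L M b1 X (H / X) θ‖ ^ 2 ≤ ε' * H ^ 2 := by
    rw [eventually_all_finset]
    intro b1 _
    obtain ⟨H0, -, h⟩ := hL M hM b1 ε' hε'0
    filter_upwards [eventually_ge_atTop H0] with H hH
    obtain ⟨X0, hX0⟩ := h H hH
    filter_upwards [eventually_ge_atTop X0] with X hX
    exact hX0 X hX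
  have key2 : ∀ᶠ H : ℝ in atTop, ∀ b1 ∈ mrpoR M, ∀ᶠ X : ℝ in atTop,
      ∫ θ in (0 : ℝ)..(2 * Real.pi), ‖So L M b1 X (H / 2 / X) θ‖ ^ 2 ≤ ε' * (H / 2) ^ 2 :=
    (tendsto_id.atTop_div_const two_pos).eventually key
  obtain ⟨H0, hH0⟩ := eventually_atTop.1 (key.and key2)
  refine ⟨max H0 1, lt_max_of_lt_right one_pos, fun H hH => ?_⟩
  obtain ⟨k1, k2⟩ := hH0 H ((le_max_left _ _).trans hH)
  have k1' := (eventually_all_finset _).2 k1
  have k2' := (tendsto_id.atTop_div_const (two_pos (α := ℝ))).eventually ((eventually_all_finset _).2 k2)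
  obtain ⟨X0, hX0⟩ := eventually_atTop.1 ((k1'.and k2').and (eventually_gt_atTop 0))
  refine ⟨X0, fun X hX => ?_⟩
  obtain ⟨⟨q1, q2⟩, hX1⟩ := hX0 X hX
  have hHX : H / 2 / (X / 2) = H / X := by
    field_simp
  simp only [id_eq, hHX] at q2
  set δ := H / X with hδ
  set s := Complex.arg (mrpoU : ℂ) with hs
  set T1 := (mrpoR M).filter (fun z => cg D z b ∧ (nm z).Coprime R) with hT1
  set T2 := (mrpoR M).filter (fun z => cg D (mrpoU * z) b ∧ (nm z).Coprime R) with hT2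
  have hc2 : ‖fz R (-1) 2‖ ≤ 1 := (fz_FF R hR (-1) (by simp)).bd 2
  have hcard1 : (T1.card : ℝ) ≤ K := by
    have h1 : T1.card ≤ M * M := (card_le_card (filter_subset _ _)).trans (mrpo_card M)
    rw [hK]
    exact_mod_cast h1
  have hcard2 : (T2.card : ℝ) ≤ K := by
    have h1 : T2.card ≤ M * M := (card_le_card (filter_subset _ _)).trans (mrpo_card M)
    rw [hK]
    exact_mod_cast h1
  -- pointwise bound
  have hpt : ∀ θ : ℝ, ‖Sp (fz R (-1)) D b X δ θ‖ ^ 2 ≤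
      2 * K * (∑ b1 ∈ T1, ‖So L M b1 X δ θ‖ ^ 2 + ∑ b1 ∈ T2, ‖So L M b1 (X / 2) δ (θ - s)‖ ^ 2) := by
    intro θ
    have e1 : ‖Sp (fz R (-1)) D b X δ θ‖ ≤
        (∑ b1 ∈ T1, ‖So L M b1 X δ θ‖) + ∑ b1 ∈ T2, ‖So L M b1 (X / 2) δ (θ - s)‖ := by
      rw [mrpo_dec hD hR]
      refine (norm_add_le _ _).trans (add_le_add (norm_sum_le _ _) ?_)
      rw [norm_mul]
      refine (mul_le_of_le_one_left (norm_nonneg _) hc2).trans (norm_sum_le _ _)
    have e2 : (∑ b1 ∈ T1, ‖So L M b1 X δ θ‖) ^ 2 ≤ K * ∑ b1 ∈ T1, ‖So L M b1 X δ θ‖ ^ 2 :=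
      (sq_sum_le_card_mul_sum_sq).trans (mul_le_mul_of_nonneg_right hcard1 (sum_nonneg fun _ _ => by positivity))
    have e3 : (∑ b1 ∈ T2, ‖So L M b1 (X / 2) δ (θ - s)‖) ^ 2 ≤
        K * ∑ b1 ∈ T2, ‖So L M b1 (X / 2) δ (θ - s)‖ ^ 2 :=
      (sq_sum_le_card_mul_sum_sq).trans (mul_le_mul_of_nonneg_right hcard2 (sum_nonneg fun _ _ => by positivity))
    have e4 := pow_le_pow_left₀ (norm_nonneg _) e1 2
    nlinarith [sq_nonneg ((∑ b1 ∈ T1, ‖So L M b1 X δ θ‖) - ∑ b1 ∈ T2, ‖So L M b1 (X / 2) δ (θ - s)‖)]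
  have hi1 : ∀ b1 ∈ T1, IntervalIntegrable (fun θ => ‖So L M b1 X δ θ‖ ^ 2) volume 0 (2 * Real.pi) := by
    intro b1 _
    have h := mrpo_So_int L M b1 X δ 0 0 (2 * Real.pi)
    simpa only [sub_zero] using h
  have hi2 : ∀ b1 ∈ T2, IntervalIntegrable (fun θ => ‖So L M b1 (X / 2) δ (θ - s)‖ ^ 2) volume 0 (2 * Real.pi) :=
    fun b1 _ => mrpo_So_int L M b1 (X / 2) δ s 0 (2 * Real.pi)
  have hI1 : IntervalIntegrable (fun θ => ∑ b1 ∈ T1, ‖So L M b1 X δ θ‖ ^ 2) volume 0 (2 * Real.pi) := by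
    have := IntervalIntegrable.sum T1 hi1
    have e : (∑ i ∈ T1, fun θ => ‖So L M i X δ θ‖ ^ 2) = fun θ => ∑ b1 ∈ T1, ‖So L M b1 X δ θ‖ ^ 2 := by
      funext θ
      rw [Finset.sum_apply]
    rw [e] at this
    exact this
  have hI2 : IntervalIntegrable (fun θ => ∑ b1 ∈ T2, ‖So L M b1 (X / 2) δ (θ - s)‖ ^ 2) volume 0 (2 * Real.pi) := by
    have := IntervalIntegrable.sum T2 hi2
    have e : (∑ i ∈ T2, fun θ => ‖So L M i (X / 2) δ (θ - s)‖ ^ 2) =
        fun θ => ∑ b1 ∈ T2, ‖So L M b1 (X / 2) δ (θ - s)‖ ^ 2 := by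
      funext θ
      rw [Finset.sum_apply]
    rw [e] at this
    exact this
  have hR1 : IntervalIntegrable (fun θ => 2 * K * (∑ b1 ∈ T1, ‖So L M b1 X δ θ‖ ^ 2 +
      ∑ b1 ∈ T2, ‖So L M b1 (X / 2) δ (θ - s)‖ ^ 2)) volume 0 (2 * Real.pi) := (hI1.add hI2).const_mul _
  have hpi : (0 : ℝ) ≤ 2 * Real.pi := by positivity
  have hmeas : Measurable (fun θ => ‖Sp (fz R (-1)) D b X δ θ‖ ^ 2) := by
    have h : (fun θ => ‖Sp (fz R (-1)) D b X δ θ‖ ^ 2) = fun θ => ‖(∑ b1 ∈ T1, So L M b1 X δ θ) +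
      fz R (-1) 2 * ∑ b1 ∈ T2, So L M b1 (X / 2) δ (θ - s)‖ ^ 2 := by
      funext θ
      rw [mrpo_dec hD hR]
    rw [h]
    refine Measurable.pow_const (Measurable.norm ?_) 2
    refine Measurable.add (Finset.measurable_sum _ fun b1 _ => mrpo_So_meas L M b1 X δ) ?_
    refine Measurable.const_mul (Finset.measurable_sum _ fun b1 _ => ?_) _
    exact (mrpo_So_meas L M b1 (X / 2) δ).comp (measurable_id.sub_const s)
  have hint : IntervalIntegrable (fun θ => ‖Sp (fz R (-1)) D b X δ θ‖ ^ 2) volume 0 (2 * Real.pi) := by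
    refine hR1.mono_fun hmeas.aestronglyMeasurable (Eventually.of_forall fun θ => ?_)
    dsimp only
    rw [Real.norm_of_nonneg (by positivity)]
    exact (hpt θ).trans (le_abs_self _)
  have hmono := intervalIntegral.integral_mono_on hpi hint hR1 (fun θ _ => hpt θ)
  refine hmono.trans ?_
  rw [intervalIntegral.integral_const_mul, intervalIntegral.integral_add hI1 hI2,
    intervalIntegral.integral_finsetSum hi1, intervalIntegral.integral_finsetSum hi2]
  have b1 : ∑ b1 ∈ T1, ∫ θ in (0 : ℝ)..(2 * Real.pi), ‖So L M b1 X δ θ‖ ^ 2 ≤ K * (ε' * H ^ 2) := by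
    refine (sum_le_card_nsmul _ _ (ε' * H ^ 2) (fun b1 hb1 => q1 b1 (mem_filter.1 hb1).1)).trans ?_
    rw [nsmul_eq_mul]
    exact mul_le_mul_of_nonneg_right hcard1 (by positivity)
  have b2 : ∑ b1 ∈ T2, ∫ θ in (0 : ℝ)..(2 * Real.pi), ‖So L M b1 (X / 2) δ (θ - s)‖ ^ 2 ≤
      K * (ε' * (H / 2) ^ 2) := by
    refine (sum_le_card_nsmul _ _ (ε' * (H / 2) ^ 2) (fun b1 hb1 => ?_)).trans ?_
    · rw [mrpo_shift]
      exact q2 b1 (mem_filter.1 hb1).1
    · rw [nsmul_eq_mul]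
      exact mul_le_mul_of_nonneg_right hcard2 (by positivity)
  have hfin : 2 * K * (K * (ε' * H ^ 2) + K * (ε' * (H / 2) ^ 2)) ≤ ε * H ^ 2 := by
    have e1 : 4 * K ^ 2 * ε' = ε := by
      rw [hε']
      field_simp
    have e2 : 2 * K * (K * (ε' * H ^ 2) + K * (ε' * (H / 2) ^ 2)) = (4 * K ^ 2 * ε') * H ^ 2 * (5 / 8) := by ring
    rw [e2, e1]
    have e3 : 0 ≤ ε * H ^ 2 := by positivity
    linarith
  refine le_trans ?_ hfin
  have hK2 : 0 ≤ 2 * K := by positivity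
  exact mul_le_mul_of_nonneg_left (add_le_add b1 b2) hK2

end Pool.Agent.OmEq

end

/-! ### from `Lib_MP_f1a94e_eq.CntA` -/

section

/-!
# Piece CNTA: pairs with a small angle
-/

set_option autoImplicit false

namespace Pool.Agent.OmEq

open Finset Pool.Agent.GaussMR Pool.Agent.OmAll MeasureTheory Filter

/-- the facts about one pair -/
theorem cnta_pair {c0 C0 δ Y : ℝ} (hc0 : 0 < c0) (hY : 0 < Y) (hδ0 : 0 ≤ δ) (hδ1 : δ ≤ 1)
    {e : G × G} (h1 : (nm e.1 : ℝ) ≤ C0 * Y) (h2 : (nm e.2 : ℝ) ≤ C0 * Y)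
    (h3 : c0 * Y ≤ nm e.1) (h4 : c0 * Y ≤ nm e.2) (h5 : |ang e.1 e.2| ≤ δ) :
    0 < dot e.1 e.2 ∧ mE e ≤ C0 * Y ∧ |((det e.1 e.2 : ℤ) : ℝ)| ≤ C0 * Y * δ ∧
      |tE e| ≤ Real.log (C0 / c0) := by
  obtain ⟨V, V'⟩ := e
  simp only at h1 h2 h3 h4 h5 ⊢
  have hcY : 0 < c0 * Y := mul_pos hc0 hY
  have hn1 : (0 : ℝ) < nm V := lt_of_lt_of_le hcY h3
  have hn2 : (0 : ℝ) < nm V' := lt_of_lt_of_le hcY h4
  have hCY : 0 < C0 * Y := lt_of_lt_of_le hn1 h1
  obtain ⟨w, hw⟩ : ∃ w : ℂ, w = ((star V * V' : G) : ℂ) := ⟨_, rfl⟩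
  have hre : w.re = ((dot V V' : ℤ) : ℝ) := by
    rw [hw, star_mul_eq, ← GaussianInt.intCast_re]
  have him : w.im = ((det V V' : ℤ) : ℝ) := by
    rw [hw, star_mul_eq, ← GaussianInt.intCast_im]
  have hns : ‖w‖ ^ 2 = (nm V : ℝ) * nm V' := by
    rw [hw, norm_sq_eq, nm_mul, nm_star]
    push_cast
    rfl
  have hnle : ‖w‖ ≤ C0 * Y := by
    have : ‖w‖ ^ 2 ≤ (C0 * Y) ^ 2 := by
      rw [hns, sq]
      exact mul_le_mul h1 h2 hn2.le hCY.le
    exact le_of_sq_le_sq this hCY.le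
  have hnpos : 0 < ‖w‖ := by
    have h6 : 0 < ‖w‖ ^ 2 := by rw [hns]; positivity
    have h7 : ‖w‖ ≠ 0 := by
      intro h8
      rw [h8] at h6
      norm_num at h6
    exact lt_of_le_of_ne (norm_nonneg _) (Ne.symm h7)
  have hang : |Complex.arg w| ≤ δ := by
    rw [hw]
    exact h5
  have hcos : 0 < Real.cos (Complex.arg w) := by
    apply Real.cos_pos_of_mem_Ioo
    have := Real.pi_gt_three
    rw [abs_le] at hang
    constructor <;> linarith
  have hdot : 0 < ((dot V V' : ℤ) : ℝ) := by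
    rw [← hre, ← Complex.norm_mul_cos_arg]
    exact mul_pos hnpos hcos
  refine ⟨by exact_mod_cast hdot, ?_, ?_, ?_⟩
  · unfold mE
    simp only
    rw [← hre]
    exact (Complex.re_le_norm w).trans hnle
  · rw [← him, ← Complex.norm_mul_sin_arg, abs_mul, abs_norm]
    have h6 : |Real.sin (Complex.arg w)| ≤ δ := (Real.abs_sin_le_abs).trans hang
    exact mul_le_mul hnle h6 (abs_nonneg _) hCY.le
  · unfold tE
    simp only
    have hC0 : 0 < C0 := by
      by_contra h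
      rw [not_lt] at h
      have := mul_nonpos_of_nonpos_of_nonneg h hY.le
      linarith
    have e1 : Real.log (C0 / c0) = Real.log (C0 * Y) - Real.log (c0 * Y) := by
      rw [Real.log_mul hC0.ne' hY.ne', Real.log_mul hc0.ne' hY.ne', Real.log_div hC0.ne' hc0.ne']
      ring
    have a1 := Real.log_le_log hcY h3
    have a2 := Real.log_le_log hcY h4
    have a3 := Real.log_le_log hn1 h1
    have a4 := Real.log_le_log hn2 h2
    rw [e1, abs_le]
    constructor <;> linarith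

theorem cnta_swap {V V' : G} : mE (V', V) = mE (V, V') ∧ |tE (V', V)| = |tE (V, V')| := by
  constructor
  · unfold mE dot
    simp only
    congr 1
    ring
  · unfold tE
    simp only
    rw [abs_sub_comm]

open Classical in
/-- PROOF. `star V * V' = dot + i det` (`star_mul_eq`), so with `φ = ang V V'`: `dot = ρ cos φ`, `det = ρ sin φ`, `ρ = sqrt (nm V nm V') ≤ C0 Y`. For large `Y`, `|φ| ≤ B N / Y < π/2`, so `dot > 0`, `|det| ≤ C0 B N`. For `det = n > 0`: `(V, V') ∈ EN n (C0 Y)` (`En_iff`) with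
`|tE| ≤ log (C0/c0)`; for `det = - n < 0` the same for `(V', V)`; for `det = 0`, `V' = V` (`eq_of_det_zero`), at most `9 C0 Y` pairs (`ball_sub`). By `cnt` the total is `≤ 2 C0 B N * C C0 Y + 9 C0 Y` (`n ≤ C0 B N ≤ C0 Y`). -/
theorem cntA (c0 C0 B : ℝ) (hc0 : 0 < c0) (hC0 : c0 ≤ C0) (hB : 0 < B) : ∃ C : ℝ, 0 < C ∧ ∀ N : ℕ, 1 ≤ N →
    ∀ᶠ Y : ℝ in atTop, (((PV (C0 * Y) ×ˢ PV (C0 * Y)).filter (fun e : G × G => c0 * Y ≤ nm e.1 ∧ c0 * Y ≤ nm e.2 ∧
      |ang e.1 e.2| ≤ B * N / Y)).card : ℝ) ≤ C * N * Y := by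
  obtain ⟨C1, hC1, hcnt⟩ := cnt (Real.log (C0 / c0))
  have hC0' : 0 < C0 := lt_of_lt_of_le hc0 hC0
  refine ⟨2 * (C0 * B * (C1 * C0)) + 9 * C0, by positivity, fun N hN => ?_⟩
  have hN' : (1 : ℝ) ≤ N := by exact_mod_cast hN
  filter_upwards [eventually_ge_atTop (B * N + 1)] with Y hY
  have hBN : 0 < B * N := by positivity
  have hY0 : 0 < Y := by linarith
  have hδ1 : B * N / Y ≤ 1 := by
    rw [div_le_one hY0]
    linarith
  have hδ0 : 0 ≤ B * N / Y := by positivity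
  obtain ⟨S, hS1, hS2, hS3⟩ := TailP.ball_sub (C0 * Y) (by positivity)
  set M : ℕ := ⌊C0 * B * N⌋₊ with hM
  have hMle : (M : ℝ) ≤ C0 * B * N := Nat.floor_le (by positivity)
  set F : ℕ → Finset (G × G) := fun n => (EN n (C0 * Y)).filter (fun e => |tE e| ≤ Real.log (C0 / c0))
    with hF
  have hFc : ∀ n ∈ Icc 1 M, ((F n).card : ℝ) ≤ C1 * (C0 * Y) := by
    intro n hn
    rw [mem_Icc] at hn
    apply hcnt n (by omega)
    have h1 : (n : ℝ) ≤ M := by exact_mod_cast hn.2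
    have h2 : C0 * B * N ≤ C0 * Y := by
      rw [mul_assoc]
      exact mul_le_mul_of_nonneg_left (by linarith) hC0'.le
    linarith
  have hsub : (PV (C0 * Y) ×ˢ PV (C0 * Y)).filter (fun e : G × G => c0 * Y ≤ nm e.1 ∧
      c0 * Y ≤ nm e.2 ∧ |ang e.1 e.2| ≤ B * N / Y) ⊆
      ((Icc 1 M).biUnion F ∪ (Icc 1 M).biUnion (fun n => (F n).image Prod.swap)) ∪
        S.image (fun V => (V, V)) := by
    rintro ⟨V, V'⟩ he
    rw [mem_filter, mem_product, mem_PV, mem_PV] at he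
    obtain ⟨⟨⟨h1, hp1⟩, ⟨h2, hp2⟩⟩, h3, h4, h5⟩ := he
    simp only at h1 hp1 h2 hp2 h3 h4 h5
    obtain ⟨hd, hm, hdet, ht⟩ := cnta_pair (e := (V, V')) hc0 hY0 hδ0 hδ1 h1 h2 h3 h4 h5
    simp only at hd hdet
    have hdet' : |((det V V' : ℤ) : ℝ)| ≤ C0 * B * N := by
      refine hdet.trans (le_of_eq ?_)
      field_simp
    have hnat : ∀ k : ℤ, 0 < k → ((k : ℤ) : ℝ) ≤ C0 * B * N → k.toNat ∈ Icc 1 M := by
      intro k hk hk2
      rw [mem_Icc]
      refine ⟨by omega, ?_⟩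
      rw [hM]
      apply Nat.le_floor
      have : ((k.toNat : ℕ) : ℝ) = ((k : ℤ) : ℝ) := by
        have := Int.toNat_of_nonneg hk.le
        exact_mod_cast this
      rw [this]
      exact hk2
    rw [mem_union, mem_union]
    rcases lt_trichotomy (det V V') 0 with h | h | h
    · left; right
      rw [mem_biUnion]
      have hk : 0 < det V' V := by rw [det_comm]; omega
      refine ⟨(det V' V).toNat, hnat _ hk ?_, ?_⟩
      · rw [det_comm]
        push_cast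
        exact (neg_le_abs _).trans hdet'
      · rw [mem_image]
        refine ⟨(V', V), ?_, rfl⟩
        rw [hF, mem_filter, mem_EN (by omega), En_iff (by omega)]
        refine ⟨⟨⟨?_, ?_, hp2, hp1⟩, ?_⟩, ?_⟩
        · simp only
          rw [Int.toNat_of_nonneg hk.le]
        · have : dot V' V = dot V V' := by unfold dot; ring
          simp only
          rw [this]
          exact hd
        · rw [cnta_swap.1]
          exact hm
        · rw [cnta_swap.2]
          exact ht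
    · right
      rw [mem_image]
      have hVV := eq_of_det_zero hp1 hp2 h hd
      refine ⟨V, hS1 V ?_ h1, by rw [hVV]⟩
      intro h0
      rw [h0, nm_zero] at h3
      have : 0 < c0 * Y := mul_pos hc0 hY0
      push_cast at h3
      linarith
    · left; left
      rw [mem_biUnion]
      refine ⟨(det V V').toNat, hnat _ h ((le_abs_self _).trans hdet'), ?_⟩
      rw [hF, mem_filter, mem_EN (by omega), En_iff (by omega)]
      refine ⟨⟨⟨?_, hd, hp1, hp2⟩, hm⟩, ht⟩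
      simp only
      rw [Int.toNat_of_nonneg h.le]
  have hcard : (((PV (C0 * Y) ×ˢ PV (C0 * Y)).filter (fun e : G × G => c0 * Y ≤ nm e.1 ∧
      c0 * Y ≤ nm e.2 ∧ |ang e.1 e.2| ≤ B * N / Y)).card : ℝ) ≤
      ∑ n ∈ Icc 1 M, ((F n).card : ℝ) + ∑ n ∈ Icc 1 M, ((F n).card : ℝ) + S.card := by
    have h1 := (card_le_card hsub).trans ((card_union_le _ _).trans
      (Nat.add_le_add (card_union_le _ _) card_image_le))
    have h2 : ((Icc 1 M).biUnion F).card ≤ ∑ n ∈ Icc 1 M, (F n).card := card_biUnion_le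
    have h3 : ((Icc 1 M).biUnion (fun n => (F n).image Prod.swap)).card ≤
        ∑ n ∈ Icc 1 M, (F n).card :=
      card_biUnion_le.trans (sum_le_sum fun n _ => card_image_le)
    have h4 := h1.trans (Nat.add_le_add (Nat.add_le_add h2 h3) le_rfl)
    exact_mod_cast h4
  have hsum : ∑ n ∈ Icc 1 M, ((F n).card : ℝ) ≤ C0 * B * N * (C1 * (C0 * Y)) := by
    calc ∑ n ∈ Icc 1 M, ((F n).card : ℝ) ≤ ∑ _n ∈ Icc 1 M, C1 * (C0 * Y) := sum_le_sum hFc
      _ = M * (C1 * (C0 * Y)) := by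
          rw [sum_const, Nat.card_Icc, nsmul_eq_mul, Nat.add_sub_cancel]
      _ ≤ C0 * B * N * (C1 * (C0 * Y)) := mul_le_mul_of_nonneg_right hMle (by positivity)
  have h9 : 9 * (C0 * Y) ≤ 9 * C0 * N * Y := by
    have : 9 * C0 * Y * 1 ≤ 9 * C0 * Y * N := mul_le_mul_of_nonneg_left hN' (by positivity)
    linarith
  calc _ ≤ _ := hcard
    _ ≤ C0 * B * N * (C1 * (C0 * Y)) + C0 * B * N * (C1 * (C0 * Y)) + 9 * C0 * N * Y := by
        linarith
    _ = _ := by ring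

end Pool.Agent.OmEq

end

/-! ### from `Lib_MP_f1a94e_eq.ArcPair` -/

section

/-!
# Piece ARCPAIR: pairs of primitive vectors at a small angle
-/

set_option autoImplicit false

namespace Pool.Agent.OmEq

open Finset Pool.Agent.GaussMR Pool.Agent.OmAll MeasureTheory Filter

open Classical in
theorem arcpair_split {D : ℕ} (hD : 0 < D) (S : Finset G) (g : G → ℂ) :
    ∑ z ∈ S, g z = ∑ b ∈ mrpoR D, ∑ z ∈ S.filter (fun z => cg D z b), g z := by
  have h := mrpo_split hD S (fun _ => True) (fun _ _ _ h => h) g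
  simpa only [filter_true] using h

open Classical in
theorem arcpair_split2 {D : ℕ} (hD : 0 < D) (S : Finset G) (κ : G → G → ℂ)
    (hper : ∀ V V' U U', cg D V U → cg D V' U' → κ V V' = κ U U') (a : G → G → ℂ) :
    ∑ V ∈ S, ∑ V' ∈ S, κ V V' * a V V' = ∑ b ∈ mrpoR D, ∑ b' ∈ mrpoR D, κ b b' *
      ∑ V ∈ S.filter (fun z => cg D z b), ∑ V' ∈ S.filter (fun z => cg D z b'), a V V' := by
  rw [arcpair_split hD]
  apply sum_congr rfl
  intro b _
  have h1 : ∀ V ∈ S.filter (fun z => cg D z b), ∑ V' ∈ S, κ V V' * a V V' =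
      ∑ b' ∈ mrpoR D, κ b b' * ∑ V' ∈ S.filter (fun z => cg D z b'), a V V' := by
    intro V hV
    rw [mem_filter] at hV
    rw [arcpair_split hD]
    apply sum_congr rfl
    intro b' _
    rw [mul_sum]
    apply sum_congr rfl
    intro V' hV'
    rw [mem_filter] at hV'
    rw [hper V V' b b' hV.2 hV'.2]
  rw [sum_congr rfl h1, sum_comm]
  apply sum_congr rfl
  intro b' _
  rw [mul_sum]

open Classical in
theorem arcpair_cell {C0 Y : ℝ} (hC0 : 0 < C0) (hY : 0 < Y) {I i : ℕ} (hi : i < I) (Q : G → Prop) (g : G → ℂ) :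
    ∑ z ∈ (PV (C0 * Y)).filter Q, g z * ((cell C0 I i (nm z / Y) : ℝ) : ℂ) =
      ∑ z ∈ (PV (C0 * Y * ((i + 1 : ℕ) : ℝ) / I)).filter Q, g z - ∑ z ∈ (PV (C0 * Y * ((i : ℕ) : ℝ) / I)).filter Q, g z := by
  have hI : (0 : ℝ) < I := by exact_mod_cast (Nat.zero_le i).trans_lt hi
  have hX : ∀ k : ℕ, k ≤ I → (PV (C0 * Y * (k : ℝ) / I)).filter Q =
      ((PV (C0 * Y)).filter Q).filter (fun z => (nm z : ℝ) ≤ C0 * Y * (k : ℝ) / I) := by
    intro k hk
    have hk' : (k : ℝ) ≤ I := by exact_mod_cast hk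
    have h1 : C0 * Y * (k : ℝ) / I ≤ C0 * Y := by
      rw [div_le_iff₀ hI]
      exact mul_le_mul_of_nonneg_left hk' (by positivity)
    ext z
    simp only [mem_filter, mem_PV]
    constructor
    · rintro ⟨⟨h2, h3⟩, h4⟩
      exact ⟨⟨⟨h2.trans h1, h3⟩, h4⟩, h2⟩
    · rintro ⟨⟨⟨h2, h3⟩, h4⟩, h5⟩
      exact ⟨⟨h5, h3⟩, h4⟩
  rw [hX (i + 1) hi, hX i hi.le, sum_filter (s := (PV (C0 * Y)).filter Q),
    sum_filter (s := (PV (C0 * Y)).filter Q), ← sum_sub_distrib]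
  apply sum_congr rfl
  intro z _
  have e1 : C0 * i / I < (nm z : ℝ) / Y ↔ ¬ (nm z : ℝ) ≤ C0 * Y * (i : ℝ) / I := by
    rw [not_le, div_lt_div_iff₀ hI hY, div_lt_iff₀ hI]
    constructor <;> intro h <;> linarith
  have e2 : (nm z : ℝ) / Y ≤ C0 * (i + 1) / I ↔ (nm z : ℝ) ≤ C0 * Y * ((i + 1 : ℕ) : ℝ) / I := by
    rw [div_le_div_iff₀ hY hI, le_div_iff₀ hI]
    push_cast
    constructor <;> intro h <;> linarith
  have e3 : (nm z : ℝ) ≤ C0 * Y * (i : ℝ) / I → (nm z : ℝ) ≤ C0 * Y * ((i + 1 : ℕ) : ℝ) / I := by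
    intro h
    refine h.trans ?_
    push_cast
    apply div_le_div_of_nonneg_right _ hI.le
    have : 0 < C0 * Y := by positivity
    nlinarith
  unfold cell
  by_cases h1 : (nm z : ℝ) ≤ C0 * Y * (i : ℝ) / I
  · rw [if_neg (fun h => (e1.1 h.1) h1), if_pos (e3 h1), if_pos h1]
    simp
  · by_cases h2 : (nm z : ℝ) ≤ C0 * Y * ((i + 1 : ℕ) : ℝ) / I
    · rw [if_pos ⟨e1.2 h1, e2.2 h2⟩, if_pos h2, if_neg h1]
      simp
    · rw [if_neg (fun h => h2 (e2.1 h.2)), if_neg h2, if_neg h1]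
      simp

open Classical in
theorem arcpair_cells {C0 Y : ℝ} (hC0 : 0 < C0) (hY : 0 < Y) {I i j : ℕ} (hi : i < I) (hj : j < I)
    (Q Q' : G → Prop) (a : G → G → ℂ) (E : ℝ)
    (hE : ∀ k k' : ℕ, k ≤ I → k' ≤ I → ‖∑ V ∈ (PV (C0 * Y * (k : ℝ) / I)).filter Q,
      ∑ V' ∈ (PV (C0 * Y * (k' : ℝ) / I)).filter Q', a V V'‖ ≤ E) :
    ‖∑ V ∈ (PV (C0 * Y)).filter Q, ∑ V' ∈ (PV (C0 * Y)).filter Q',
      a V V' * ((cell C0 I j (nm V' / Y) : ℝ) : ℂ) * ((cell C0 I i (nm V / Y) : ℝ) : ℂ)‖ ≤ 4 * E := by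
  have h1 : ∀ V : G, ∑ V' ∈ (PV (C0 * Y)).filter Q',
      a V V' * ((cell C0 I j (nm V' / Y) : ℝ) : ℂ) * ((cell C0 I i (nm V / Y) : ℝ) : ℂ) =
      (∑ V' ∈ (PV (C0 * Y * ((j + 1 : ℕ) : ℝ) / I)).filter Q', a V V' -
        ∑ V' ∈ (PV (C0 * Y * ((j : ℕ) : ℝ) / I)).filter Q', a V V') * ((cell C0 I i (nm V / Y) : ℝ) : ℂ) := by
    intro V
    rw [← arcpair_cell hC0 hY hj, sum_mul]
  simp only [h1]
  rw [arcpair_cell hC0 hY hi, sum_sub_distrib, sum_sub_distrib]
  have a1 := hE (i + 1) (j + 1) hi hj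
  have a2 := hE (i + 1) j hi hj.le
  have a3 := hE i (j + 1) hi.le hj
  have a4 := hE i j hi.le hj.le
  refine (norm_sub_le _ _).trans ?_
  refine (add_le_add (norm_sub_le _ _) (norm_sub_le _ _)).trans ?_
  linarith

theorem arcpair_prim0 : ¬ Prim (0 : G) := by
  rintro ⟨a, b, hab⟩
  simp at hab

theorem arcpair_PV0 : PV 0 = ∅ := by
  rw [eq_empty_iff_forall_notMem]
  intro z hz
  rw [mem_PV] at hz
  have h1 : nm z = 0 := by
    have : (nm z : ℝ) ≤ 0 := hz.1
    exact_mod_cast le_antisymm this (Nat.cast_nonneg _)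
  rw [nm_eq_zero] at h1
  have h2 := hz.2
  rw [h1] at h2
  exact arcpair_prim0 h2

theorem arcpair_pos {X : ℝ} {z : G} (hz : z ∈ PV X) : 0 < nm z := by
  rw [mem_PV] at hz
  apply nm_pos
  rintro rfl
  exact arcpair_prim0 hz.2

open Classical in
/-- bound for one triple of cells -/
theorem arcpair_term (f : ℕ → ℂ) (D : ℕ) (hD : 0 < D) (κ : G → G → ℂ)
    (hκ : ∀ V V', ‖κ V V'‖ ≤ 2) (hper : ∀ V V' U U', cg D V U → cg D V' U' → κ V V' = κ U U')
    {C0 Y N A δ : ℝ} (hC0 : 0 < C0) (hY : 0 < Y) (hN : 0 < N) {I i j l : ℕ} (hi : i < I) (hj : j < I)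
    (hδ : δ = N / (I * Y)) (hl : ((l : ℝ) + 1) * δ < Real.pi) (hA : 0 ≤ A)
    (hS : ∀ b ∈ mrpoR D, ∀ k ∈ Icc 1 I,
      ∫ θ in (0 : ℝ)..(2 * Real.pi), ‖Sp f D b (C0 * Y * (k : ℝ) / I) δ θ‖ ^ 2 ≤ A) :
    ‖∑ V ∈ PV (C0 * Y), ∑ V' ∈ PV (C0 * Y), κ V V' * (f (nm V) * (starRingEnd ℂ) (f (nm V'))) *
      ((cell C0 I i (nm V / Y) * cell C0 I j (nm V' / Y) * max 0 (1 - |I * (Y * ang V V' / N) - l|) : ℝ) : ℂ)‖ ≤
      8 * ((D : ℝ) ^ 4) * (A / δ) := by
  have hI : (0 : ℝ) < I := by exact_mod_cast (Nat.zero_le i).trans_lt hi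
  have hδ0 : 0 < δ := by
    rw [hδ]
    positivity
  have hAδ : 0 ≤ A / δ := by positivity
  have e0 : ∀ V V' : G, κ V V' * (f (nm V) * (starRingEnd ℂ) (f (nm V'))) *
      ((cell C0 I i (nm V / Y) * cell C0 I j (nm V' / Y) * max 0 (1 - |I * (Y * ang V V' / N) - l|) : ℝ) : ℂ) =
      κ V V' * (f (nm V) * (starRingEnd ℂ) (f (nm V')) * ((max 0 (1 - |ang V V' / δ - l|) : ℝ) : ℂ) *
        ((cell C0 I j (nm V' / Y) : ℝ) : ℂ) * ((cell C0 I i (nm V / Y) : ℝ) : ℂ)) := by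
    intro V V'
    have e1 : (I : ℝ) * (Y * ang V V' / N) = ang V V' / δ := by
      rw [hδ]
      field_simp
    rw [e1]
    push_cast
    ring
  simp only [e0]
  rw [arcpair_split2 hD _ κ hper]
  have hcard : ((mrpoR D).card : ℝ) ≤ (D : ℝ) * D := by exact_mod_cast mrpo_card D
  have hterm : ∀ b ∈ mrpoR D, ∀ b' ∈ mrpoR D, ‖κ b b' * ∑ V ∈ (PV (C0 * Y)).filter (fun z => cg D z b),
      ∑ V' ∈ (PV (C0 * Y)).filter (fun z => cg D z b'),
        (f (nm V) * (starRingEnd ℂ) (f (nm V')) * ((max 0 (1 - |ang V V' / δ - l|) : ℝ) : ℂ) *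
        ((cell C0 I j (nm V' / Y) : ℝ) : ℂ) * ((cell C0 I i (nm V / Y) : ℝ) : ℂ))‖ ≤ 8 * (A / δ) := by
    intro b hb b' hb'
    rw [norm_mul]
    have h4 : ‖∑ V ∈ (PV (C0 * Y)).filter (fun z => cg D z b),
      ∑ V' ∈ (PV (C0 * Y)).filter (fun z => cg D z b'),
        (f (nm V) * (starRingEnd ℂ) (f (nm V')) * ((max 0 (1 - |ang V V' / δ - l|) : ℝ) : ℂ) *
        ((cell C0 I j (nm V' / Y) : ℝ) : ℂ) * ((cell C0 I i (nm V / Y) : ℝ) : ℂ))‖ ≤ 4 * (A / δ) := by
      apply arcpair_cells hC0 hY hi hj (fun z => cg D z b) (fun z => cg D z b')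
        (fun V V' => f (nm V) * (starRingEnd ℂ) (f (nm V')) * ((max 0 (1 - |ang V V' / δ - l|) : ℝ) : ℂ))
      intro k k' hk hk'
      rcases Nat.eq_zero_or_pos k with h0 | h0
      · rw [h0, Nat.cast_zero, mul_zero, zero_div, arcpair_PV0, filter_empty, sum_empty, norm_zero]
        exact hAδ
      · rcases Nat.eq_zero_or_pos k' with h0' | h0'
        · rw [h0', Nat.cast_zero, mul_zero, zero_div, arcpair_PV0, filter_empty]
          simp only [sum_empty, sum_const_zero, norm_zero]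
          exact hAδ
        · exact arc_bound f D b b' _ _ δ A hδ0 l hl (hS b hb k (mem_Icc.2 ⟨h0, hk⟩))
            (hS b' hb' k' (mem_Icc.2 ⟨h0', hk'⟩))
    calc _ ≤ 2 * (4 * (A / δ)) := mul_le_mul (hκ _ _) h4 (norm_nonneg _) (by norm_num)
      _ = 8 * (A / δ) := by ring
  refine (norm_sum_le _ _).trans ?_
  refine (sum_le_card_nsmul _ _ ((D : ℝ) * D * (8 * (A / δ))) (fun b hb => ?_)).trans ?_
  · refine (norm_sum_le _ _).trans ?_
    refine (sum_le_card_nsmul _ _ (8 * (A / δ)) (fun b' hb' => hterm b hb b' hb')).trans ?_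
    rw [nsmul_eq_mul]
    exact mul_le_mul_of_nonneg_right hcard (by positivity)
  · rw [nsmul_eq_mul]
    calc _ ≤ (D : ℝ) * D * ((D : ℝ) * D * (8 * (A / δ))) := mul_le_mul_of_nonneg_right hcard (by positivity)
      _ = 8 * ((D : ℝ) ^ 4) * (A / δ) := by ring

theorem arcpair_ev (f : ℕ → ℂ) (hM : MRP f) {D : ℕ} (hD : 0 < D) {C0 ε : ℝ} (hC0 : 0 < C0) (hε : 0 < ε) {I : ℕ}
    (hI : 1 ≤ I) : ∀ᶠ N : ℕ in atTop, ∀ᶠ Y : ℝ in atTop, ∀ b ∈ mrpoR D, ∀ k ∈ Icc 1 I,
      ∫ θ in (0 : ℝ)..(2 * Real.pi), ‖Sp f D b (C0 * Y * (k : ℝ) / I) (N / (I * Y)) θ‖ ^ 2 ≤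
        ε * ((N : ℝ) * C0 / I) ^ 2 := by
  have hI' : (0 : ℝ) < I := by exact_mod_cast hI
  have h1 : ∀ᶠ N : ℕ in atTop, ∀ b ∈ mrpoR D, ∀ k ∈ Icc 1 I, ∀ᶠ X : ℝ in atTop,
      ∫ θ in (0 : ℝ)..(2 * Real.pi), ‖Sp f D b X ((N * (C0 * k / (I * I))) / X) θ‖ ^ 2 ≤
        ε * ((N : ℝ) * (C0 * k / (I * I))) ^ 2 := by
    rw [eventually_all_finset]
    intro b _
    rw [eventually_all_finset]
    intro k hk
    have hk1 : (1 : ℝ) ≤ k := by exact_mod_cast (mem_Icc.1 hk).1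
    obtain ⟨H0, -, h⟩ := hM D hD b ε hε
    have ht : Tendsto (fun N : ℕ => (N : ℝ) * (C0 * k / (I * I))) atTop atTop :=
      tendsto_natCast_atTop_atTop.atTop_mul_const (by positivity)
    filter_upwards [ht.eventually_ge_atTop H0] with N hN
    obtain ⟨X0, hX0⟩ := h _ hN
    filter_upwards [eventually_ge_atTop X0] with X hX
    exact hX0 X hX
  filter_upwards [h1] with N hN
  rw [eventually_all_finset]
  intro b hb
  rw [eventually_all_finset]
  intro k hk
  have hk1 : (1 : ℝ) ≤ k := by exact_mod_cast (mem_Icc.1 hk).1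
  have hk2 : (k : ℝ) ≤ I := by exact_mod_cast (mem_Icc.1 hk).2
  have ht : Tendsto (fun Y : ℝ => C0 * Y * (k : ℝ) / I) atTop atTop := by
    have h3 : Tendsto (fun Y : ℝ => Y * (C0 * k / I)) atTop atTop := tendsto_id.atTop_mul_const (by positivity)
    refine h3.congr (fun Y => ?_)
    ring
  filter_upwards [ht.eventually (hN b hb k hk), eventually_gt_atTop 0] with Y hY hY0
  have e1 : (N : ℝ) * (C0 * k / (I * I)) / (C0 * Y * (k : ℝ) / I) = N / (I * Y) := by
    field_simp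
  rw [e1] at hY
  refine hY.trans (mul_le_mul_of_nonneg_left (pow_le_pow_left₀ (by positivity) ?_ 2) hε.le)
  rw [mul_div_assoc (N : ℝ)]
  refine mul_le_mul_of_nonneg_left ?_ (Nat.cast_nonneg _)
  rw [div_le_div_iff₀ (by positivity) hI']
  nlinarith [mul_le_mul_of_nonneg_left hk2 (by positivity : 0 ≤ C0 * I)]

/-- PROOF. Given `ε`; `C` from `cntA (c0/2) C0 (B+1)`; `appG` with `ε1 = ε/(8 C)` (`‖κ‖ ≤ 2`): `I`. The difference of the sum and the sum with `F` replaced by its approximation (`x = nm V / Y`, `x' = nm V' / Y ∈ (0, C0]`, `σ = Y ang / N`) is at most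
`2 ε1 C N Y ≤ ε N Y / 2` for `N ≥ 1` and large `Y`. The approximation: split into residue classes `b, b'` modulo `D` (representatives with coordinates in `[0, D)`), `κ V V' = κ b b'`; `cell C0 I i (nm V / Y) = 1_(nm V ≤ X_(i+1)) - 1_(nm V ≤ X_i)`, `X_i = C0 i Y / I`;
`I σ - l = ang / δ - l` with `δ = N / (I Y)`. So it is a sum of at most `I^2 (⌈B⌉ I + 1) D^4 * 4` terms, each at most `2 sup|F|` times a sum as in `arc_bound` with radii `X_i, X_j` (`i, j ≥ 1`; for `i = 0` the ball is `{0}`, no primitive vectors). Let `ε2 > 0` be small. `MRP` with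
`ε2` for the finitely many classes: `H0`. For `X = X_i`, `δ = H/X` with `H = N C0 i / I^2`, which is `≥ H0` for all `i ≥ 1` if `N ≥ N0`; for fixed `N` and large `Y` all the finitely many radii satisfy `X_i ≥ X0`, so the integrals are at most
`A = ε2 (N C0 / I)^2`; `A/δ = ε2 C0^2 N Y / I`; also `(⌈B⌉ I + 2) δ < π` for large `Y`. Choose `ε2` so small that the total is `≤ ε N Y / 2`. -/
theorem arcpair (f : ℕ → ℂ) (hf : ∀ n, ‖f n‖ ≤ 1) (hM : MRP f) (D : ℕ) (hD : 0 < D) (κ : G → G → ℂ)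
    (hκ : ∀ V V', ‖κ V V'‖ ≤ 2) (hper : ∀ V V' U U', cg D V U → cg D V' U' → κ V V' = κ U U')
    (c0 C0 B : ℝ) (hc0 : 0 < c0) (hC0 : c0 ≤ C0) (hB : 0 < B) (F : ℝ → ℝ → ℝ → ℝ)
    (hF : Continuous (fun v : ℝ × ℝ × ℝ => F v.1 v.2.1 v.2.2))
    (h1 : ∀ x x' σ, x ≤ c0 ∨ x' ≤ c0 ∨ C0 ≤ x ∨ C0 ≤ x' ∨ σ ≤ 0 ∨ B ≤ σ → F x x' σ = 0) (ε : ℝ) (hε : 0 < ε) :
    ∃ N0 : ℕ, ∀ N : ℕ, N0 ≤ N → ∀ᶠ Y : ℝ in atTop,
      ‖∑ V ∈ PV (C0 * Y), ∑ V' ∈ PV (C0 * Y), κ V V' * (f (nm V) * (starRingEnd ℂ) (f (nm V'))) *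
        ((F (nm V / Y) (nm V' / Y) (Y * ang V V' / N) : ℝ) : ℂ)‖ ≤ ε * N * Y := by
  classical
  have hC0' : 0 < C0 := hc0.trans_le hC0
  have hD' : (0 : ℝ) < D := by exact_mod_cast hD
  obtain ⟨C, hC, hcnt⟩ := cntA (c0 / 2) C0 (B + 1) (by linarith) (by linarith) (by linarith)
  set ε1 : ℝ := ε / (4 * C) with hε1
  have hε1' : 0 < ε1 := by positivity
  obtain ⟨I, hI, happ⟩ := appG c0 C0 B hc0 hC0 hB F hF h1 ε1 hε1'
  have hI' : (0 : ℝ) < I := by exact_mod_cast hI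
  set Q : Finset (ℕ × ℕ × ℕ) := range I ×ˢ range I ×ˢ range (⌈B⌉₊ * I + 1) with hQ
  set cc : ℕ × ℕ × ℕ → ℝ := fun q => F (C0 * q.1 / I) (C0 * q.2.1 / I) ((q.2.2 : ℝ) / I) with hcc
  set S : ℝ := ∑ q ∈ Q, |cc q| with hS
  have hS0 : 0 ≤ S := sum_nonneg fun _ _ => abs_nonneg _
  set ε2 : ℝ := ε / (16 * (S + 1) * D ^ 4 * C0 ^ 2) with hε2
  have hε2' : 0 < ε2 := by positivity
  obtain ⟨N0, hN0⟩ := eventually_atTop.1 (arcpair_ev f hM hD hC0' hε2' hI)
  refine ⟨max N0 1, fun N hN => ?_⟩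
  have hN1 : 1 ≤ N := (le_max_right _ _).trans hN
  have hNr : (0 : ℝ) < N := by exact_mod_cast hN1
  have hδlim : Tendsto (fun Y : ℝ => ((⌈B⌉₊ * I + 1 : ℕ) + 1 : ℝ) * (N / (I * Y))) atTop (nhds 0) := by
    have h3 : Tendsto (fun Y : ℝ => (((⌈B⌉₊ * I + 1 : ℕ) + 1 : ℝ) * N / I) / Y) atTop (nhds 0) :=
      tendsto_const_nhds.div_atTop tendsto_id
    refine h3.congr (fun Y => ?_)
    ring
  filter_upwards [hN0 N ((le_max_left _ _).trans hN), hcnt N hN1, eventually_gt_atTop 0,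
    hδlim.eventually_lt_const Real.pi_pos] with Y hY1 hY2 hY0 hY3
  set δ : ℝ := N / (I * Y) with hδ
  have hδ0 : 0 < δ := by positivity
  set P := PV (C0 * Y) with hP
  set w : G → G → ℂ := fun V V' => f (nm V) * (starRingEnd ℂ) (f (nm V')) with hw
  have hwb : ∀ V V', ‖w V V'‖ ≤ 1 := by
    intro V V'
    rw [hw]
    dsimp only
    rw [norm_mul, RCLike.norm_conj]
    exact mul_le_one₀ (hf _) (norm_nonneg _) (hf _)
  set u : ℕ × ℕ × ℕ → G → G → ℝ := fun q V V' => cell C0 I q.1 (nm V / Y) * cell C0 I q.2.1 (nm V' / Y) *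
    max 0 (1 - |I * (Y * ang V V' / N) - q.2.2|) with hu
  set Ap : G → G → ℝ := fun V V' => ∑ q ∈ Q, cc q * u q V V' with hAp
  have hap : ∀ V ∈ P, ∀ V' ∈ P, |F (nm V / Y) (nm V' / Y) (Y * ang V V' / N) - Ap V V'| ≤
      if c0 / 2 * Y ≤ nm V ∧ c0 / 2 * Y ≤ nm V' ∧ |ang V V'| ≤ (B + 1) * N / Y then ε1 else 0 := by
    intro V hV V' hV'
    have hVp := arcpair_pos hV
    have hVp' := arcpair_pos hV'
    rw [hP, mem_PV] at hV hV'
    have a1 : (0 : ℝ) < nm V / Y := by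
      have : (0 : ℝ) < nm V := by exact_mod_cast hVp
      positivity
    have a2 : (0 : ℝ) < nm V' / Y := by
      have : (0 : ℝ) < nm V' := by exact_mod_cast hVp'
      positivity
    have a3 : (nm V : ℝ) / Y ≤ C0 := by
      rw [div_le_iff₀ hY0]
      exact hV.1
    have a4 : (nm V' : ℝ) / Y ≤ C0 := by
      rw [div_le_iff₀ hY0]
      exact hV'.1
    have h3 := happ _ _ (Y * ang V V' / N) a1 a3 a2 a4
    have e1 : Ap V V' = ∑ i ∈ range I, ∑ j ∈ range I, ∑ l ∈ range (⌈B⌉₊ * I + 1),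
        F (C0 * i / I) (C0 * j / I) ((l : ℝ) / I) * cell C0 I i (nm V / Y) * cell C0 I j (nm V' / Y) *
          max 0 (1 - |I * (Y * ang V V' / N) - l|) := by
      rw [hAp]
      dsimp only
      rw [hQ, sum_product]
      apply sum_congr rfl
      intro i _
      rw [sum_product]
      apply sum_congr rfl
      intro j _
      apply sum_congr rfl
      intro l _
      rw [hcc, hu]
      dsimp only
      ring
    rw [e1]
    refine h3.trans ?_
    split_ifs with b1 b2 b3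
    · exact le_rfl
    · exfalso
      apply b2
      obtain ⟨c1, c2, c3⟩ := b1
      rw [le_div_iff₀ hY0] at c1 c2
      refine ⟨c1, c2, ?_⟩
      rw [abs_div, abs_mul, abs_of_pos hY0, abs_of_pos hNr, div_le_iff₀ hNr] at c3
      rw [le_div_iff₀ hY0]
      linarith
    · exact hε1'.le
    · exact le_rfl
  -- first part
  have hfirst : ‖∑ V ∈ P, ∑ V' ∈ P, κ V V' * w V V' *
      (((F (nm V / Y) (nm V' / Y) (Y * ang V V' / N) : ℝ) : ℂ) - ((Ap V V' : ℝ) : ℂ))‖ ≤ ε / 2 * N * Y := by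
    have e1 : ∀ V ∈ P, ∀ V' ∈ P, ‖κ V V' * w V V' *
        (((F (nm V / Y) (nm V' / Y) (Y * ang V V' / N) : ℝ) : ℂ) - ((Ap V V' : ℝ) : ℂ))‖ ≤
        2 * (if c0 / 2 * Y ≤ nm V ∧ c0 / 2 * Y ≤ nm V' ∧ |ang V V'| ≤ (B + 1) * N / Y then ε1 else 0) := by
      intro V hV V' hV'
      rw [← Complex.ofReal_sub, norm_mul, Complex.norm_real, Real.norm_eq_abs, norm_mul]
      have h3 := hap V hV V' hV'
      have h4 : ‖κ V V'‖ * ‖w V V'‖ ≤ 2 := by
        have := mul_le_mul (hκ V V') (hwb V V') (norm_nonneg _) (by norm_num)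
        linarith
      exact mul_le_mul h4 h3 (abs_nonneg _) (by norm_num)
    refine (norm_sum_le _ _).trans ?_
    refine (sum_le_sum fun V hV => (norm_sum_le _ _).trans (sum_le_sum fun V' hV' => e1 V hV V' hV')).trans ?_
    rw [← sum_product' P P (fun V V' => 2 * (if c0 / 2 * Y ≤ (nm V : ℝ) ∧ c0 / 2 * Y ≤ (nm V' : ℝ) ∧
      |ang V V'| ≤ (B + 1) * N / Y then ε1 else 0)), ← mul_sum, ← sum_filter, sum_const, nsmul_eq_mul]
    have h5 : 2 * (C * N * Y * ε1) = ε / 2 * N * Y := by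
      rw [hε1]
      field_simp
      ring
    rw [← h5]
    refine mul_le_mul_of_nonneg_left (mul_le_mul_of_nonneg_right ?_ hε1'.le) (by norm_num)
    refine le_trans (le_of_eq ?_) hY2
    congr
  -- second part
  have hsecond : ‖∑ V ∈ P, ∑ V' ∈ P, κ V V' * w V V' * ((Ap V V' : ℝ) : ℂ)‖ ≤ ε / 2 * N * Y := by
    have e1 : ∑ V ∈ P, ∑ V' ∈ P, κ V V' * w V V' * ((Ap V V' : ℝ) : ℂ) =
        ∑ q ∈ Q, ((cc q : ℝ) : ℂ) * ∑ V ∈ P, ∑ V' ∈ P, κ V V' * w V V' * ((u q V V' : ℝ) : ℂ) := by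
      have e2 : ∀ V V' : G, κ V V' * w V V' * ((Ap V V' : ℝ) : ℂ) =
          ∑ q ∈ Q, ((cc q : ℝ) : ℂ) * (κ V V' * w V V' * ((u q V V' : ℝ) : ℂ)) := by
        intro V V'
        rw [hAp]
        dsimp only
        rw [Complex.ofReal_sum, mul_sum]
        apply sum_congr rfl
        intro q _
        rw [Complex.ofReal_mul]
        ring
      simp only [e2, mul_sum]
      rw [sum_congr rfl (fun V _ => sum_comm), sum_comm]
    rw [e1]
    refine (norm_sum_le _ _).trans ?_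
    set A : ℝ := ε2 * ((N : ℝ) * C0 / I) ^ 2 with hA
    have hA0 : 0 ≤ A := by positivity
    have e3 : ∀ q ∈ Q, ‖((cc q : ℝ) : ℂ) * ∑ V ∈ P, ∑ V' ∈ P, κ V V' * w V V' * ((u q V V' : ℝ) : ℂ)‖ ≤
        |cc q| * (8 * ((D : ℝ) ^ 4) * (A / δ)) := by
      intro q hq
      rw [hQ, mem_product, mem_product, mem_range, mem_range, mem_range] at hq
      rw [norm_mul, Complex.norm_real, Real.norm_eq_abs]
      refine mul_le_mul_of_nonneg_left ?_ (abs_nonneg _)
      refine arcpair_term f D hD κ hκ hper hC0' hY0 hNr hq.1 hq.2.1 hδ ?_ hA0 hY1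
      refine lt_of_le_of_lt ?_ hY3
      refine mul_le_mul_of_nonneg_right ?_ hδ0.le
      have : (q.2.2 : ℝ) ≤ (⌈B⌉₊ * I + 1 : ℕ) := by exact_mod_cast hq.2.2.le
      linarith
    refine (sum_le_sum e3).trans ?_
    rw [← sum_mul, ← hS]
    have e4 : A / δ = ε2 * C0 ^ 2 * N * Y / I := by
      rw [hA, hδ]
      field_simp
    rw [e4]
    have e5 : 8 * (D : ℝ) ^ 4 * (ε2 * C0 ^ 2 * N * Y / I) ≤ 8 * (D : ℝ) ^ 4 * (ε2 * C0 ^ 2 * N * Y) := by
      refine mul_le_mul_of_nonneg_left ?_ (by positivity)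
      apply div_le_self (by positivity)
      exact_mod_cast hI
    have e6 : (S + 1) * (8 * (D : ℝ) ^ 4 * (ε2 * C0 ^ 2 * N * Y)) = ε / 2 * N * Y := by
      rw [hε2]
      field_simp
      ring
    rw [← e6]
    exact mul_le_mul (by linarith) e5 (by positivity) (by linarith)
  have hsum : ∑ V ∈ P, ∑ V' ∈ P, κ V V' * (f (nm V) * (starRingEnd ℂ) (f (nm V'))) *
        ((F (nm V / Y) (nm V' / Y) (Y * ang V V' / N) : ℝ) : ℂ) =
      ∑ V ∈ P, ∑ V' ∈ P, κ V V' * w V V' *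
        (((F (nm V / Y) (nm V' / Y) (Y * ang V V' / N) : ℝ) : ℂ) - ((Ap V V' : ℝ) : ℂ)) +
      ∑ V ∈ P, ∑ V' ∈ P, κ V V' * w V V' * ((Ap V V' : ℝ) : ℂ) := by
    rw [← sum_add_distrib]
    apply sum_congr rfl
    intro V _
    rw [← sum_add_distrib]
    apply sum_congr rfl
    intro V' _
    rw [hw]
    dsimp only
    ring
  rw [hsum]
  refine (norm_add_le _ _).trans ((add_le_add hfirst hsecond).trans (le_of_eq ?_))
  ring

end Pool.Agent.OmEq

end

/-! ### from `Lib_MP_f1a94e_eq.QdS` -/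

section

/-!
# Piece QDS: the sums over multiples of `d`
-/

set_option autoImplicit false

namespace Pool.Agent.OmEq

open Finset Pool.Agent.GaussMR Pool.Agent.OmAll MeasureTheory Filter

/-! ### weights -/

/-- the weight `ww` cut near zero -/
noncomputable def qdsW (η s : ℝ) : ℝ := ww s * min 1 (max 0 (s / η))

theorem qdsW_cont (η : ℝ) : Continuous (qdsW η) := by
  unfold qdsW
  exact ww_props.1.mul (continuous_const.min (continuous_const.max (continuous_id.div_const η)))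

theorem qdsW_cut (η s : ℝ) : 0 ≤ min 1 (max 0 (s / η)) ∧ min 1 (max 0 (s / η)) ≤ 1 :=
  ⟨le_min zero_le_one (le_max_left _ _), min_le_left _ _⟩

theorem qdsW_nn (η s : ℝ) : 0 ≤ qdsW η s := mul_nonneg (ww_props.2.1 s) (qdsW_cut η s).1

theorem qdsW_le (η s : ℝ) : qdsW η s ≤ ww s :=
  mul_le_of_le_one_right (ww_props.2.1 s) (qdsW_cut η s).2

theorem qdsW_le1 (η s : ℝ) : qdsW η s ≤ 1 := (qdsW_le η s).trans (ww_props.2.2.1 s)

theorem qdsW_lo {η s : ℝ} (hη : 0 < η) (hs : s ≤ 0) : qdsW η s = 0 := by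
  unfold qdsW
  have h : s / η ≤ 0 := div_nonpos_of_nonpos_of_nonneg hs hη.le
  rw [max_eq_left h, min_eq_right zero_le_one, mul_zero]

theorem qdsW_hi {η s : ℝ} (hs : 1 ≤ s) : qdsW η s = 0 := by
  unfold qdsW
  rw [ww_props.2.2.2 s (hs.trans (le_abs_self s)), zero_mul]

theorem qdsW_eq {η s : ℝ} (hη : 0 < η) (hs : η ≤ s) : qdsW η s = ww s := by
  unfold qdsW
  have h : 1 ≤ s / η := by rwa [le_div_iff₀ hη, one_mul]
  rw [min_eq_left (h.trans (le_max_right _ _)), mul_one]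

theorem qdsW_uc (η : ℝ) (hη : 0 < η) : UniformContinuous (qdsW η) := by
  refine HasCompactSupport.uniformContinuous_of_continuous ?_ (qdsW_cont η)
  refine HasCompactSupport.of_support_subset_isCompact (isCompact_Icc (a := (0 : ℝ)) (b := 1)) ?_
  intro s hs
  rw [Function.mem_support] at hs
  constructor
  · by_contra hc
    exact hs (qdsW_lo hη (not_le.1 hc).le)
  · by_contra hc
    exact hs (qdsW_hi (not_le.1 hc).le)

theorem qds_huc {h : ℝ → ℝ} {h1 h2 : ℝ} (hh : HF h h1 h2) : UniformContinuous h := by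
  refine HasCompactSupport.uniformContinuous_of_continuous ?_ hh.cont
  refine HasCompactSupport.of_support_subset_isCompact (isCompact_Icc (a := h1) (b := h2)) ?_
  intro s hs
  rw [Function.mem_support] at hs
  constructor
  · by_contra hc
    exact hs (hh.lo s (not_le.1 hc).le)
  · by_contra hc
    exact hs (hh.hi s (not_le.1 hc).le)

theorem qds_ps0_nn (t : ℝ) : 0 ≤ ps0 t := le_max_left _ _

theorem qds_ps0_le (t : ℝ) : ps0 t ≤ 1 := by
  unfold ps0
  exact max_le zero_le_one (by linarith [abs_nonneg t])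

theorem qds_ps0_ne {t : ℝ} (h : ps0 t ≠ 0) : |t| < 1 := by
  by_contra hc
  apply h
  unfold ps0
  rw [max_eq_left]
  linarith [not_lt.1 hc]

theorem qds_ps0_cont : Continuous ps0 := by
  unfold ps0
  exact continuous_const.max (continuous_const.sub continuous_abs)

theorem qds_exp1 : Real.exp 1 ≤ 4 := by
  have := Real.exp_one_lt_d9
  linarith

theorem qds_ratio {X X' : ℝ} (hX : 0 < X) (hX' : 0 < X') (h : |Real.log X' - Real.log X| < 1) :
    X' ≤ 4 * X ∧ X ≤ 4 * X' := by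
  rw [abs_lt] at h
  constructor
  · have h1 : Real.log X' < 1 + Real.log X := by linarith
    have h2 := Real.exp_lt_exp.2 h1
    rw [Real.exp_add, Real.exp_log hX, Real.exp_log hX'] at h2
    nlinarith [qds_exp1]
  · have h1 : Real.log X < 1 + Real.log X' := by linarith
    have h2 := Real.exp_lt_exp.2 h1
    rw [Real.exp_add, Real.exp_log hX, Real.exp_log hX'] at h2
    nlinarith [qds_exp1]

theorem qds_sqrt {X X' : ℝ} (hX : 0 < X) (hX' : 0 < X') (h : |Real.log X' - Real.log X| < 1) :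
    Real.sqrt (X * X') ≤ 2 * X ∧ Real.sqrt (X * X') ≤ 2 * X' ∧ X ≤ 2 * Real.sqrt (X * X') ∧
      X' ≤ 2 * Real.sqrt (X * X') := by
  obtain ⟨h1, h2⟩ := qds_ratio hX hX' h
  have hXX : 0 ≤ X * X' := by positivity
  refine ⟨?_, ?_, ?_, ?_⟩
  · rw [Real.sqrt_le_left (by positivity)]
    nlinarith
  · rw [Real.sqrt_le_left (by positivity)]
    nlinarith
  · have h3 : X / 2 ≤ Real.sqrt (X * X') := by
      apply Real.le_sqrt_of_sq_le
      nlinarith
    linarith
  · have h3 : X' / 2 ≤ Real.sqrt (X * X') := by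
      apply Real.le_sqrt_of_sq_le
      nlinarith
    linarith

/-- the weight of `arcpair` -/
noncomputable def qdsF (h : ℝ → ℝ) (η c : ℝ) (x x' σ : ℝ) : ℝ :=
  qdsW η (Real.sqrt (max x c * max x' c) * σ) * h (Real.sqrt (max x c * max x' c)) ^ 2 *
    ps0 (Real.log (max x' c) - Real.log (max x c))

theorem qdsF_cont {h : ℝ → ℝ} (hh : Continuous h) (η : ℝ) {c : ℝ} (hc : 0 < c) :
    Continuous (fun v : ℝ × ℝ × ℝ => qdsF h η c v.1 v.2.1 v.2.2) := by
  have c1 : Continuous (fun v : ℝ × ℝ × ℝ => max v.1 c) := continuous_fst.max continuous_const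
  have c2 : Continuous (fun v : ℝ × ℝ × ℝ => max v.2.1 c) := (continuous_fst.comp continuous_snd).max continuous_const
  have c3 : Continuous (fun v : ℝ × ℝ × ℝ => v.2.2) := continuous_snd.comp continuous_snd
  have c4 : Continuous (fun v : ℝ × ℝ × ℝ => Real.sqrt (max v.1 c * max v.2.1 c)) := (c1.mul c2).sqrt
  have c5 : Continuous (fun v : ℝ × ℝ × ℝ => Real.log (max v.1 c)) :=
    c1.log (fun v => (lt_of_lt_of_le hc (le_max_right _ _)).ne')
  have c6 : Continuous (fun v : ℝ × ℝ × ℝ => Real.log (max v.2.1 c)) :=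
    c2.log (fun v => (lt_of_lt_of_le hc (le_max_right _ _)).ne')
  unfold qdsF
  exact (((qdsW_cont η).comp (c4.mul c3)).mul ((hh.comp c4).pow 2)).mul (qds_ps0_cont.comp (c6.sub c5))

theorem qdsF_van {h : ℝ → ℝ} {h1 h2 : ℝ} (hh : HF h h1 h2) {η : ℝ} (hη : 0 < η) (x x' σ : ℝ)
    (hv : x ≤ h1 / 2 ∨ x' ≤ h1 / 2 ∨ 3 * h2 ≤ x ∨ 3 * h2 ≤ x' ∨ σ ≤ 0 ∨ 1 / h1 ≤ σ) :
    qdsF h η (h1 / 2) x x' σ = 0 := by
  have h1p := hh.pos
  have hc : 0 < h1 / 2 := by linarith
  have hX : 0 < max x (h1 / 2) := lt_of_lt_of_le hc (le_max_right _ _)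
  have hX' : 0 < max x' (h1 / 2) := lt_of_lt_of_le hc (le_max_right _ _)
  by_contra hne
  unfold qdsF at hne
  have n3 := right_ne_zero_of_mul hne
  have n12 := left_ne_zero_of_mul hne
  have n1 := left_ne_zero_of_mul n12
  have n2 : h (Real.sqrt (max x (h1 / 2) * max x' (h1 / 2))) ≠ 0 := by
    intro h0
    apply right_ne_zero_of_mul n12
    rw [h0]
    norm_num
  obtain ⟨s1, s2, s3, s4⟩ := qds_sqrt hX hX' (qds_ps0_ne n3)
  have lo : h1 < Real.sqrt (max x (h1 / 2) * max x' (h1 / 2)) := by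
    by_contra hc
    exact n2 (hh.lo _ (not_lt.1 hc))
  have hi : Real.sqrt (max x (h1 / 2) * max x' (h1 / 2)) < h2 := by
    by_contra hc
    exact n2 (hh.hi _ (not_lt.1 hc))
  have h2p := hh.one
  rcases hv with hv | hv | hv | hv | hv | hv
  · rw [max_eq_right hv] at s1 lo
    linarith
  · rw [max_eq_right hv] at s2 lo
    linarith
  · have := le_max_left x (h1 / 2)
    linarith
  · have := le_max_left x' (h1 / 2)
    linarith
  · apply n1
    apply qdsW_lo hη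
    exact mul_nonpos_of_nonneg_of_nonpos (Real.sqrt_nonneg _) hv
  · apply n1
    apply qdsW_hi
    have h3 : h1 * (1 / h1) = 1 := by field_simp
    rw [← h3]
    exact mul_le_mul lo.le hv (by positivity) (Real.sqrt_nonneg _)

theorem qdsF_eq {h : ℝ → ℝ} {h1 h2 : ℝ} (hh : HF h h1 h2) {η : ℝ} (hη : 0 < η) {x x' : ℝ} (σ : ℝ)
    (hx : 0 < x) (hx' : 0 < x') :
    qdsF h η (h1 / 2) x x' σ = qdsW η (Real.sqrt (x * x') * σ) * h (Real.sqrt (x * x')) ^ 2 *
      ps0 (Real.log x' - Real.log x) := by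
  by_cases hc : h1 / 2 ≤ x ∧ h1 / 2 ≤ x'
  · unfold qdsF
    rw [max_eq_left hc.1, max_eq_left hc.2]
  · have h0 : qdsF h η (h1 / 2) x x' σ = 0 := by
      apply qdsF_van hh hη
      by_contra hn
      apply hc
      constructor
      · by_contra h3
        exact hn (Or.inl (not_le.1 h3).le)
      · by_contra h3
        exact hn (Or.inr (Or.inl (not_le.1 h3).le))
    rw [h0]
    by_contra hne
    have hne' := Ne.symm hne
    have n3 := right_ne_zero_of_mul hne'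
    have n12 := left_ne_zero_of_mul hne'
    have n2 : h (Real.sqrt (x * x')) ≠ 0 := by
      intro h0
      apply right_ne_zero_of_mul n12
      rw [h0]
      norm_num
    obtain ⟨s1, s2, s3, s4⟩ := qds_sqrt hx hx' (qds_ps0_ne n3)
    have lo : h1 < Real.sqrt (x * x') := by
      by_contra hc
      exact n2 (hh.lo _ (not_lt.1 hc))
    apply hc
    constructor <;> linarith

/-! ### geometry of a pair -/

theorem qds_norm (V V' : G) : ‖((star V * V' : G) : ℂ)‖ = Real.sqrt ((nm V : ℝ) * nm V') := by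
  rw [norm_eq_sqrt, nm_mul, nm_star]
  push_cast
  rfl

theorem qds_cos (V V' : G) : Real.sqrt ((nm V : ℝ) * nm V') * Real.cos (ang V V') = ((dot V V' : ℤ) : ℝ) := by
  unfold ang
  rw [← qds_norm, Complex.norm_mul_cos_arg, star_mul_eq, ← GaussianInt.intCast_re]

theorem qds_sin (V V' : G) : Real.sqrt ((nm V : ℝ) * nm V') * Real.sin (ang V V') = ((det V V' : ℤ) : ℝ) := by
  unfold ang
  rw [← qds_norm, Complex.norm_mul_sin_arg, star_mul_eq, ← GaussianInt.intCast_im]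

theorem qds_geo {V V' : G} (hdot : 0 < dot V V') (hdet : 0 < det V V') :
    0 < ang V V' ∧ ((det V V' : ℤ) : ℝ) ≤ Real.sqrt ((nm V : ℝ) * nm V') * ang V V' ∧
    ang V V' * ((dot V V' : ℤ) : ℝ) ≤ ((det V V' : ℤ) : ℝ) ∧
    ((dot V V' : ℤ) : ℝ) ≤ Real.sqrt ((nm V : ℝ) * nm V') ∧
    Real.sqrt ((nm V : ℝ) * nm V') ≤ ((dot V V' : ℤ) : ℝ) + ((det V V' : ℤ) : ℝ) ∧
    (Real.sqrt ((nm V : ℝ) * nm V') * ang V V' - ((det V V' : ℤ) : ℝ)) * ((dot V V' : ℤ) : ℝ) ≤
      ((det V V' : ℤ) : ℝ) ^ 2 := by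
  have hc := qds_cos V V'
  have hs := qds_sin V V'
  have e : ((dot V V' : ℤ) : ℝ) ^ 2 + ((det V V' : ℤ) : ℝ) ^ 2 = (nm V : ℝ) * nm V' := by
    exact_mod_cast dot_sq_add_det_sq V V'
  have hdot' : (0 : ℝ) < ((dot V V' : ℤ) : ℝ) := by exact_mod_cast hdot
  have hdet' : (0 : ℝ) < ((det V V' : ℤ) : ℝ) := by exact_mod_cast hdet
  set x := ((dot V V' : ℤ) : ℝ) with hx
  set y := ((det V V' : ℤ) : ℝ) with hy
  set φ := ang V V' with hφ
  set ρ := Real.sqrt ((nm V : ℝ) * nm V') with hρ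
  have hρ0 : 0 ≤ ρ := Real.sqrt_nonneg _
  have hρ1 : 0 < ρ := by
    rcases hρ0.lt_or_eq with h | h
    · exact h
    · rw [← h, zero_mul] at hc
      linarith
  have hφ1 : 0 ≤ φ := by
    rw [hφ]
    unfold ang
    rw [Complex.arg_nonneg_iff, star_mul_eq, ← GaussianInt.intCast_im]
    exact hdet'.le
  have hφ2 : 0 < φ := by
    rcases hφ1.lt_or_eq with h | h
    · exact h
    · rw [← h, Real.sin_zero, mul_zero] at hs
      linarith
  have hφ3 : φ < Real.pi / 2 := by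
    have h1 : |φ| < Real.pi / 2 := by
      rw [hφ]
      unfold ang
      rw [Complex.abs_arg_lt_pi_div_two_iff]
      left
      rw [star_mul_eq, ← GaussianInt.intCast_re]
      exact hdot'
    exact (le_abs_self _).trans_lt h1
  have hcos : 0 < Real.cos φ := Real.cos_pos_of_mem_Ioo ⟨by linarith, hφ3⟩
  have h1 : y ≤ ρ * φ := by
    rw [← hs]
    exact mul_le_mul_of_nonneg_left (Real.sin_le hφ1) hρ0
  have h2 : φ * x ≤ y := by
    have h3 := Real.le_tan hφ1 hφ3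
    rw [Real.tan_eq_sin_div_cos, le_div_iff₀ hcos] at h3
    rw [← hc, ← hs]
    have h4 := mul_le_mul_of_nonneg_left h3 hρ0
    linarith only [h4]
  have h3 : x ≤ ρ := by
    rw [← hc]
    exact mul_le_of_le_one_right hρ0 (Real.cos_le_one _)
  have h4 : ρ ≤ x + y := by
    rw [hρ, Real.sqrt_le_left (add_nonneg hdot'.le hdet'.le)]
    have h5 := mul_pos hdot' hdet'
    linarith only [h5, e]
  refine ⟨hφ2, h1, h2, h3, h4, ?_⟩
  have h5 : ρ * φ * x ≤ ρ * y := by
    rw [mul_assoc]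
    exact mul_le_mul_of_nonneg_left h2 hρ0
  have h6 := mul_le_mul_of_nonneg_right h4 hdet'.le
  linarith only [h5, h6]

theorem qds_geo2 {V V' : G} (hV : V ≠ 0) (hV' : V' ≠ 0) (h0 : 0 < ang V V') (h1 : ang V V' < Real.pi / 2) :
    0 < dot V V' ∧ 0 < det V V' := by
  have hc := qds_cos V V'
  have hs := qds_sin V V'
  have hcos : 0 < Real.cos (ang V V') := Real.cos_pos_of_mem_Ioo ⟨by linarith, h1⟩
  have hsin : 0 < Real.sin (ang V V') := Real.sin_pos_of_pos_of_lt_pi h0 (by linarith [Real.pi_pos])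
  have hρ : 0 < Real.sqrt ((nm V : ℝ) * nm V') := by
    apply Real.sqrt_pos.2
    have a1 : (0 : ℝ) < nm V := by exact_mod_cast nm_pos hV
    have a2 : (0 : ℝ) < nm V' := by exact_mod_cast nm_pos hV'
    positivity
  constructor
  · have : (0 : ℝ) < ((dot V V' : ℤ) : ℝ) := by
      rw [← hc]
      positivity
    exact_mod_cast this
  · have : (0 : ℝ) < ((det V V' : ℤ) : ℝ) := by
      rw [← hs]
      positivity
    exact_mod_cast this

/-! ### the weight of the sums `Qs` -/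

open Classical in
/-- the periodic factor -/
noncomputable def qdsK (d : ℕ) (V V' : G) : ℂ :=
  if ((d : ℤ) ∣ det V V' ∧ ((4 : ℤ) ∣ det V V' → cg 4 V' V)) then (if (4 : ℤ) ∣ det V V' then 2 else 1) else 0

theorem qdsK_bd (d : ℕ) (V V' : G) : ‖qdsK d V V'‖ ≤ 2 := by
  classical
  unfold qdsK
  split_ifs <;> simp

theorem qdsK_per (d : ℕ) (V V' U U' : G) (h : cg (4 * d) V U) (h' : cg (4 * d) V' U') :
    qdsK d V V' = qdsK d U U' := by
  have h1 := det_cg h h'
  have hd : (d : ℤ) ∣ det V V' ↔ (d : ℤ) ∣ det U U' := by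
    apply dvd_iff_dvd_of_dvd_sub
    exact (Int.natCast_dvd_natCast.2 (dvd_mul_left d 4)).trans h1
  have h4 : (4 : ℤ) ∣ det V V' ↔ (4 : ℤ) ∣ det U U' := by
    apply dvd_iff_dvd_of_dvd_sub
    exact (Int.natCast_dvd_natCast.2 (dvd_mul_right 4 d)).trans h1
  have hc : cg 4 V' V ↔ cg 4 U' U := by
    have a1 : cg 4 V U := cg_mono (dvd_mul_right 4 d) h
    have a2 : cg 4 V' U' := cg_mono (dvd_mul_right 4 d) h'
    exact ⟨fun h => cg_trans (cg_symm a2) (cg_trans h a1), fun h => cg_trans a2 (cg_trans h (cg_symm a1))⟩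
  have hP : ((d : ℤ) ∣ det V V' ∧ ((4 : ℤ) ∣ det V V' → cg 4 V' V)) ↔
      ((d : ℤ) ∣ det U U' ∧ ((4 : ℤ) ∣ det U U' → cg 4 U' U)) := by rw [hd, h4, hc]
  unfold qdsK
  by_cases hp : ((d : ℤ) ∣ det V V' ∧ ((4 : ℤ) ∣ det V V' → cg 4 V' V))
  · rw [if_pos hp, if_pos (hP.1 hp)]
    by_cases h5 : (4 : ℤ) ∣ det V V'
    · rw [if_pos h5, if_pos (h4.1 h5)]
    · rw [if_neg h5, if_neg (fun h6 => h5 (h4.2 h6))]
  · rw [if_neg hp, if_neg (fun h6 => hp (hP.2 h6))]

/-- the weight of a pair in the sums `Qs` -/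
noncomputable def qdsT (h : ℝ → ℝ) (N : ℕ) (Y : ℝ) (e : G × G) : ℝ :=
  if 0 < dot e.1 e.2 ∧ 1 ≤ det e.1 e.2 ∧ det e.1 e.2 ≤ N then
    ww (((det e.1 e.2 : ℤ) : ℝ) / N) * h (mE e / Y) ^ 2 * ps0 (tE e) else 0

theorem qds_Prim_ne {z : G} (hz : Prim z) : z ≠ 0 := by
  rintro rfl
  exact arcpair_prim0 hz

theorem qds_nm_pos {z : G} (hz : Prim z) : (0 : ℝ) < nm z := by
  exact_mod_cast nm_pos (qds_Prim_ne hz)

open Classical in
theorem qds_sum (f : ℕ → ℂ) (d : ℕ) {h : ℝ → ℝ} {h1 h2 : ℝ} (hh : HF h h1 h2) {N : ℕ} {Y : ℝ}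
    (hY : 2 * (N : ℝ) ≤ Y) (hY0 : 0 < Y) :
    ∑ n ∈ (Icc 1 N).filter (fun n => d ∣ n), ((kap n * ww ((n : ℝ) / N) : ℝ) : ℂ) *
      Qs f n (h2 * Y) (fun y t => ((h y ^ 2 * ps0 t : ℝ) : ℂ)) Y =
    ∑ e ∈ PV (3 * h2 * Y) ×ˢ PV (3 * h2 * Y), qdsK d e.1 e.2 * (f (nm e.1) * (starRingEnd ℂ) (f (nm e.2))) *
      ((qdsT h N Y e : ℝ) : ℂ) := by
  have h2p := hh.one
  set P := PV (3 * h2 * Y) ×ˢ PV (3 * h2 * Y) with hP
  set T : G × G → ℂ := fun e => qdsK d e.1 e.2 * (f (nm e.1) * (starRingEnd ℂ) (f (nm e.2))) *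
      ((qdsT h N Y e : ℝ) : ℂ) with hT
  have e1 : ∀ e ∈ P, T e = ∑ n ∈ Icc 1 N, if det e.1 e.2 = (n : ℤ) then T e else 0 := by
    intro e _
    by_cases hc : 1 ≤ det e.1 e.2 ∧ det e.1 e.2 ≤ N
    · rw [sum_eq_single (det e.1 e.2).toNat]
      · rw [if_pos]
        rw [Int.toNat_of_nonneg (by linarith [hc.1])]
      · intro n _ hn
        rw [if_neg]
        intro h3
        apply hn
        rw [h3, Int.toNat_natCast]
      · intro h3
        exfalso
        apply h3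
        rw [mem_Icc]
        omega
    · have h0 : T e = 0 := by
        rw [hT]
        dsimp only
        unfold qdsT
        rw [if_neg (fun h3 => hc h3.2), Complex.ofReal_zero, mul_zero]
      rw [h0]
      symm
      apply sum_eq_zero
      intro n _
      rw [ite_self]
  rw [sum_congr rfl e1, sum_comm, sum_filter]
  apply sum_congr rfl
  intro n hn
  rw [mem_Icc] at hn
  have hn0 : 0 < n := hn.1
  have hnN : (n : ℝ) ≤ N := by exact_mod_cast hn.2
  rw [← sum_filter]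
  split_ifs with hdn
  · unfold Qs
    rw [mul_sum]
    have hd4 : ∀ e : G × G, det e.1 e.2 = (n : ℤ) → ((4 : ℤ) ∣ det e.1 e.2 ↔ 4 ∣ n) := by
      intro e he
      rw [he]
      exact Int.natCast_dvd_natCast
    have hdd : ∀ e : G × G, det e.1 e.2 = (n : ℤ) → (d : ℤ) ∣ det e.1 e.2 := by
      intro e he
      rw [he]
      exact Int.natCast_dvd_natCast.2 hdn
    apply sum_congr_of_eq_on_inter
    · intro e he hne
      rw [mem_filter, mem_EN hn0] at he
      obtain ⟨⟨hEn, hm⟩, hhc⟩ := he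
      have hEn' := (En_iff hn0 e).1 hEn
      have hnP : e ∉ P := by
        intro h3
        exact hne (mem_filter.2 ⟨h3, hEn'.1⟩)
      by_cases hps : ps0 (tE e) = 0
      · dsimp only
        rw [hps]
        simp
      · by_cases hh0 : h (mE e / Y) = 0
        · dsimp only
          rw [hh0]
          simp
        · exfalso
          apply hnP
          have a1 := qds_nm_pos hEn'.2.2.1
          have a2 := qds_nm_pos hEn'.2.2.2
          obtain ⟨s1, s2, s3, s4⟩ := qds_sqrt a1 a2 (qds_ps0_ne hps)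
          have hdet : 0 < det e.1 e.2 := by
            rw [hEn'.1]
            exact_mod_cast hn0
          obtain ⟨-, -, -, -, g5, -⟩ := qds_geo hEn'.2.1 hdet
          have g6 : ((det e.1 e.2 : ℤ) : ℝ) = n := by
            rw [hEn'.1]
            norm_cast
          rw [g6] at g5
          have g7 : ((dot e.1 e.2 : ℤ) : ℝ) ≤ h2 * Y := hm
          have g8 : 2 * (h2 * Y + N) ≤ 3 * h2 * Y := by nlinarith
          rw [hP, mem_product, mem_PV, mem_PV]
          exact ⟨⟨by linarith, hEn'.2.2.1⟩, ⟨by linarith, hEn'.2.2.2⟩⟩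
    · intro e he hne
      rw [mem_filter, hP, mem_product, mem_PV, mem_PV] at he
      obtain ⟨⟨⟨-, p1⟩, -, p2⟩, hdet⟩ := he
      rw [mem_filter, mem_EN hn0, En_iff hn0] at hne
      rw [hT]
      dsimp only
      by_cases hdot : 0 < dot e.1 e.2
      · by_cases hm : mE e ≤ h2 * Y
        · have hnc : ¬ hc n e := fun h3 => hne ⟨⟨⟨hdet, hdot, p1, p2⟩, hm⟩, h3⟩
          have hK : qdsK d e.1 e.2 = 0 := by
            unfold qdsK
            rw [if_neg]
            rintro ⟨-, h4⟩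
            apply hnc
            intro h5
            exact h4 ((hd4 e hdet).2 h5)
          rw [hK]
          simp
        · have hz : h (mE e / Y) = 0 := by
            apply hh.hi
            rw [le_div_iff₀ hY0]
            exact (not_le.1 hm).le
          unfold qdsT
          rw [hz]
          simp
      · unfold qdsT
        rw [if_neg (fun h3 => hdot h3.1)]
        simp
    · intro e he he'
      rw [mem_filter, mem_EN hn0] at he
      obtain ⟨⟨hEn, hm⟩, hhc⟩ := he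
      have hdet := hEn.1
      have hdot := hEn.2.1
      have hK : qdsK d e.1 e.2 = ((kap n : ℝ) : ℂ) := by
        unfold qdsK kap
        rw [if_pos ⟨hdd e hdet, fun h4 => hhc ((hd4 e hdet).1 h4)⟩]
        by_cases h4 : 4 ∣ n
        · rw [if_pos ((hd4 e hdet).2 h4), if_pos h4]
          norm_num
        · rw [if_neg (fun h5 => h4 ((hd4 e hdet).1 h5)), if_neg h4]
          norm_num
      have hTT : qdsT h N Y e = ww ((n : ℝ) / N) * h (mE e / Y) ^ 2 * ps0 (tE e) := by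
        unfold qdsT
        rw [if_pos, hdet, Int.cast_natCast]
        · rw [hdet]
          refine ⟨hdot, ?_, ?_⟩
          · exact_mod_cast hn.1
          · exact_mod_cast hn.2
      rw [hT]
      dsimp only
      rw [hK, hTT]
      push_cast
      ring
  · symm
    apply sum_eq_zero
    intro e he
    rw [mem_filter] at he
    have hK : qdsK d e.1 e.2 = 0 := by
      unfold qdsK
      rw [if_neg]
      rintro ⟨h3, -⟩
      apply hdn
      rw [he.2] at h3
      exact Int.natCast_dvd_natCast.1 h3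
    rw [hT]
    dsimp only
    rw [hK]
    simp

/-- pairs with a small determinant -/
def qdsBad (h2 η : ℝ) (N : ℕ) (Y : ℝ) (e : G × G) : Prop :=
  0 < dot e.1 e.2 ∧ 1 ≤ det e.1 e.2 ∧ ((det e.1 e.2 : ℤ) : ℝ) < η * N ∧ |tE e| ≤ 1 ∧ mE e ≤ h2 * Y

open Classical in
theorem qds_bad {C h2 η : ℝ} (hC : 0 < C) (hη : 0 < η) (hη1 : η ≤ 1) (h2p : 1 ≤ h2)
    (hcnt : ∀ n : ℕ, 0 < n → ∀ x : ℝ, (n : ℝ) ≤ x → (((EN n x).filter (fun e => |tE e| ≤ 1)).card : ℝ) ≤ C * x)
    {N : ℕ} {Y : ℝ} (hY : (N : ℝ) ≤ Y) (X : ℝ) :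
    (((PV X ×ˢ PV X).filter (qdsBad h2 η N Y)).card : ℝ) ≤ η * N * (C * (h2 * Y)) := by
  have hN0 : (0 : ℝ) ≤ N := Nat.cast_nonneg _
  have hsub : (PV X ×ˢ PV X).filter (qdsBad h2 η N Y) ⊆
      (Icc 1 ⌊η * N⌋₊).biUnion (fun n => (EN n (h2 * Y)).filter (fun e => |tE e| ≤ 1)) := by
    intro e he
    rw [mem_filter, mem_product, mem_PV, mem_PV] at he
    obtain ⟨⟨⟨-, p1⟩, -, p2⟩, b1, b2, b3, b4, b5⟩ := he
    rw [mem_biUnion]
    have hd0 : det e.1 e.2 = (((det e.1 e.2).toNat : ℕ) : ℤ) := by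
      rw [Int.toNat_of_nonneg (by linarith)]
    have hn0 : 0 < (det e.1 e.2).toNat := by omega
    refine ⟨(det e.1 e.2).toNat, ?_, ?_⟩
    · rw [mem_Icc]
      refine ⟨hn0, ?_⟩
      apply Nat.le_floor
      have h3 : (((det e.1 e.2).toNat : ℕ) : ℝ) = ((det e.1 e.2 : ℤ) : ℝ) := by
        have := congrArg (fun z : ℤ => (z : ℝ)) hd0
        simp only [Int.cast_natCast] at this
        exact this.symm
      rw [h3]
      exact b3.le
    · rw [mem_filter, mem_EN hn0, En_iff hn0]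
      exact ⟨⟨⟨hd0, b1, p1, p2⟩, b5⟩, b4⟩
  have h3 : (((PV X ×ˢ PV X).filter (qdsBad h2 η N Y)).card : ℝ) ≤
      ∑ n ∈ Icc 1 ⌊η * N⌋₊, (((EN n (h2 * Y)).filter (fun e => |tE e| ≤ 1)).card : ℝ) := by
    have := (card_le_card hsub).trans card_biUnion_le
    exact_mod_cast this
  refine h3.trans ?_
  have hY0 : 0 ≤ Y := hN0.trans hY
  refine (sum_le_card_nsmul _ _ (C * (h2 * Y)) ?_).trans ?_
  · intro n hn
    rw [mem_Icc] at hn
    apply hcnt n hn.1
    have h4 : (n : ℝ) ≤ η * N := (Nat.cast_le.2 hn.2).trans (Nat.floor_le (by positivity))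
    have h5 := mul_le_mul_of_nonneg_right hη1 hN0
    have h6 := mul_le_mul_of_nonneg_right h2p hY0
    linarith only [h4, h5, h6, hY]
  · rw [nsmul_eq_mul, Nat.card_Icc, Nat.add_sub_cancel]
    exact mul_le_mul_of_nonneg_right (Nat.floor_le (by positivity)) (by positivity)

/-- comparison of the weights -/
theorem qds_cmp {h : ℝ → ℝ} {h1 h2 : ℝ} (hh : HF h h1 h2) {η : ℝ} (hη : 0 < η) {N : ℕ} (hN : 1 ≤ N)
    {Y δ : ℝ} (hY0 : 0 < Y) (hY1 : 2 * (N : ℝ) ≤ h1 * Y) (hY2 : (N : ℝ) / (h1 * Y) < Real.pi / 2)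
    (hY3 : 2 * (N : ℝ) / (h1 * Y) < δ) (hY4 : (N : ℝ) / Y < δ)
    (hw : ∀ s s' : ℝ, |s - s'| < δ → |qdsW η s - qdsW η s'| < η / 4)
    (hhu : ∀ s s' : ℝ, |s - s'| < δ → |h s - h s'| < η / 4) (e : G × G) (he1 : Prim e.1) (he2 : Prim e.2) :
    (|qdsT h N Y e - qdsF h η (h1 / 2) (nm e.1 / Y) (nm e.2 / Y) (Y * ang e.1 e.2 / N)| ≤ η ∧
      h1 / 4 * Y ≤ nm e.1 ∧ h1 / 4 * Y ≤ nm e.2 ∧ |ang e.1 e.2| ≤ 2 / h1 * N / Y) ∨
    (|qdsT h N Y e - qdsF h η (h1 / 2) (nm e.1 / Y) (nm e.2 / Y) (Y * ang e.1 e.2 / N)| ≤ 1 + η ∧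
      h1 / 4 * Y ≤ nm e.1 ∧ h1 / 4 * Y ≤ nm e.2 ∧ |ang e.1 e.2| ≤ 2 / h1 * N / Y ∧ qdsBad h2 η N Y e) ∨
    (|qdsT h N Y e - qdsF h η (h1 / 2) (nm e.1 / Y) (nm e.2 / Y) (Y * ang e.1 e.2 / N)| ≤ 0) := by
  have h1p := hh.pos
  have hN' : (0 : ℝ) < N := by exact_mod_cast hN
  have a1 := qds_nm_pos he1
  have a2 := qds_nm_pos he2
  have hx : 0 < (nm e.1 : ℝ) / Y := by positivity
  have hx' : 0 < (nm e.2 : ℝ) / Y := by positivity
  set ρ := Real.sqrt ((nm e.1 : ℝ) * nm e.2) with hρ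
  have hρ0 : 0 < ρ := Real.sqrt_pos.2 (by positivity)
  have hs1 : Real.sqrt ((nm e.1 : ℝ) / Y * (nm e.2 / Y)) = ρ / Y := by
    rw [hρ, ← Real.sqrt_sq hY0.le, ← Real.sqrt_div' _ (by positivity), Real.sqrt_sq hY0.le]
    congr 1
    field_simp
  have hlog : Real.log ((nm e.2 : ℝ) / Y) - Real.log ((nm e.1 : ℝ) / Y) = tE e := by
    unfold tE
    rw [Real.log_div a2.ne' hY0.ne', Real.log_div a1.ne' hY0.ne']
    ring
  have hs2 : ρ / Y * (Y * ang e.1 e.2 / N) = ρ * ang e.1 e.2 / N := by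
    field_simp
  rw [qdsF_eq hh hη _ hx hx', hs1, hlog, hs2]
  by_cases hps : ps0 (tE e) = 0
  · right
    right
    unfold qdsT
    rw [hps]
    simp
  have ht1 := qds_ps0_ne hps
  obtain ⟨s1, s2, s3, s4⟩ := qds_sqrt a1 a2 ht1
  rw [← hρ] at s1 s2 s3 s4
  by_cases hpos : 0 < dot e.1 e.2 ∧ 0 < det e.1 e.2
  · obtain ⟨hdot, hdet⟩ := hpos
    obtain ⟨g1, g2, g3, g4, g5, g6⟩ := qds_geo hdot hdet
    rw [← hρ] at g2 g4 g5 g6
    have hmE : mE e = ((dot e.1 e.2 : ℤ) : ℝ) := rfl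
    have hdot' : (0 : ℝ) < ((dot e.1 e.2 : ℤ) : ℝ) := by exact_mod_cast hdot
    have hdet' : (1 : ℝ) ≤ ((det e.1 e.2 : ℤ) : ℝ) := by exact_mod_cast hdet
    rw [← hmE] at g3 g4 g5 g6 hdot'
    set y := ((det e.1 e.2 : ℤ) : ℝ) with hy
    set φ := ang e.1 e.2 with hφ
    by_cases hcase : y < N ∧ h1 * Y / 2 ≤ mE e
    · obtain ⟨k1, k2⟩ := hcase
      have hA1 : h1 / 4 * Y ≤ nm e.1 := by linarith only [k2, g4, s1]
      have hA2 : h1 / 4 * Y ≤ nm e.2 := by linarith only [k2, g4, s2]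
      have hA3 : |φ| ≤ 2 / h1 * N / Y := by
        rw [abs_of_pos g1, div_mul_eq_mul_div, div_div, le_div_iff₀ (mul_pos h1p hY0)]
        have g7 := mul_le_mul_of_nonneg_left k2 g1.le
        linarith only [g7, g3, k1]
      -- closeness of arguments
      have d1 : |mE e / Y - ρ / Y| < δ := by
        rw [← sub_div, abs_div, abs_of_pos hY0, abs_sub_comm, abs_of_nonneg (sub_nonneg.2 g4)]
        refine lt_of_le_of_lt ?_ hY4
        apply div_le_div_of_nonneg_right _ hY0.le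
        linarith only [g5, k1]
      have d2 : |y / N - ρ * φ / N| < δ := by
        rw [← sub_div, abs_div, abs_of_pos hN', abs_sub_comm, abs_of_nonneg (sub_nonneg.2 g2)]
        refine lt_of_le_of_lt ?_ hY3
        rw [div_le_div_iff₀ hN' (mul_pos h1p hY0)]
        have q1 : (ρ * φ - y) * (h1 * Y / 2) ≤ y ^ 2 := by
          refine le_trans ?_ g6
          exact mul_le_mul_of_nonneg_left k2 (sub_nonneg.2 g2)
        have hy0 : 0 ≤ y := zero_le_one.trans hdet'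
        have q2 : y ^ 2 ≤ (N : ℝ) * N := by
          rw [pow_two]
          exact mul_le_mul k1.le k1.le hy0 hN'.le
        linarith only [q1, q2]
      have w1 := hw _ _ d2
      have w2 := hhu _ _ d1
      have hwn := qdsW_nn η (y / N)
      have hwn' := qdsW_nn η (ρ * φ / N)
      have hw1' := qdsW_le1 η (ρ * φ / N)
      have hb0 := hh.nn (mE e / Y)
      have hb1 := hh.le (mE e / Y)
      have hb0' := hh.nn (ρ / Y)
      have hb1' := hh.le (ρ / Y)
      have hp0 := qds_ps0_nn (tE e)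
      have hp1 := qds_ps0_le (tE e)
      have hmain : |qdsW η (y / N) * h (mE e / Y) ^ 2 * ps0 (tE e) -
          qdsW η (ρ * φ / N) * h (ρ / Y) ^ 2 * ps0 (tE e)| ≤ η := by
        rw [← sub_mul, abs_mul, abs_of_nonneg hp0]
        refine (mul_le_of_le_one_right (abs_nonneg _) hp1).trans ?_
        have e1 : qdsW η (y / N) * h (mE e / Y) ^ 2 - qdsW η (ρ * φ / N) * h (ρ / Y) ^ 2 =
            (qdsW η (y / N) - qdsW η (ρ * φ / N)) * h (mE e / Y) ^ 2 +
              qdsW η (ρ * φ / N) * ((h (mE e / Y) - h (ρ / Y)) * (h (mE e / Y) + h (ρ / Y))) := by ring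
        rw [e1]
        refine (abs_add_le _ _).trans ?_
        rw [abs_mul, abs_mul, abs_mul, abs_of_nonneg (sq_nonneg (h (mE e / Y))), abs_of_nonneg hwn',
          abs_of_nonneg (add_nonneg hb0 hb0')]
        have t1 : |qdsW η (y / N) - qdsW η (ρ * φ / N)| * h (mE e / Y) ^ 2 ≤ η / 4 := by
          refine (mul_le_of_le_one_right (abs_nonneg _) ?_).trans w1.le
          exact pow_le_one₀ hb0 hb1
        have t2 : qdsW η (ρ * φ / N) * (|h (mE e / Y) - h (ρ / Y)| * (h (mE e / Y) + h (ρ / Y))) ≤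
            1 * (η / 4 * 2) := by
          apply mul_le_mul hw1' _ (mul_nonneg (abs_nonneg _) (add_nonneg hb0 hb0')) zero_le_one
          exact mul_le_mul w2.le (by linarith only [hb1, hb1']) (add_nonneg hb0 hb0')
            (by linarith only [hη])
        linarith only [t1, t2, hη]
      by_cases hsm : y < η * N
      · -- small determinant
        by_cases hh0 : h (mE e / Y) = 0
        · left
          have hT : qdsT h N Y e = 0 := by
            unfold qdsT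
            rw [hh0]
            simp
          rw [hh0] at hmain
          rw [hT]
          refine ⟨?_, hA1, hA2, hA3⟩
          have e0 : qdsW η (y / N) * (0 : ℝ) ^ 2 * ps0 (tE e) = 0 := by ring
          rw [e0] at hmain
          exact hmain
        · right
          left
          refine ⟨?_, hA1, hA2, hA3, hdot, hdet, hsm, ht1.le, ?_⟩
          · have hT : qdsT h N Y e = ww (y / N) * h (mE e / Y) ^ 2 * ps0 (tE e) := by
              unfold qdsT
              rw [if_pos]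
              refine ⟨hdot, hdet, ?_⟩
              have : ((det e.1 e.2 : ℤ) : ℝ) < (N : ℤ) := k1
              exact_mod_cast this.le
            have e1 : ww (y / N) * h (mE e / Y) ^ 2 * ps0 (tE e) - qdsW η (ρ * φ / N) * h (ρ / Y) ^ 2 * ps0 (tE e) =
                (ww (y / N) - qdsW η (y / N)) * (h (mE e / Y) ^ 2 * ps0 (tE e)) +
                (qdsW η (y / N) * h (mE e / Y) ^ 2 * ps0 (tE e) -
                  qdsW η (ρ * φ / N) * h (ρ / Y) ^ 2 * ps0 (tE e)) := by ring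
            rw [hT, e1]
            refine (abs_add_le _ _).trans (add_le_add ?_ hmain)
            have t1 := qdsW_le η (y / N)
            have t2 := ww_props.2.2.1 (y / N)
            have t3 : h (mE e / Y) ^ 2 * ps0 (tE e) ≤ 1 := by
              apply mul_le_one₀ (pow_le_one₀ hb0 hb1) hp0 hp1
            rw [abs_mul, abs_of_nonneg (sub_nonneg.2 t1),
              abs_of_nonneg (mul_nonneg (sq_nonneg (h (mE e / Y))) hp0)]
            exact mul_le_one₀ (by linarith only [t2, hwn]) (mul_nonneg (sq_nonneg (h (mE e / Y))) hp0) t3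
          · by_contra hc
            apply hh0
            apply hh.hi
            rw [le_div_iff₀ hY0]
            exact (not_le.1 hc).le
      · left
        refine ⟨?_, hA1, hA2, hA3⟩
        have hT : qdsT h N Y e = qdsW η (y / N) * h (mE e / Y) ^ 2 * ps0 (tE e) := by
          unfold qdsT
          rw [if_pos, qdsW_eq hη]
          · rw [le_div_iff₀ hN']
            exact not_lt.1 hsm
          · refine ⟨hdot, hdet, ?_⟩
            have : ((det e.1 e.2 : ℤ) : ℝ) < (N : ℤ) := k1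
            exact_mod_cast this.le
        rw [hT]
        exact hmain
    · right
      right
      have hT : qdsT h N Y e = 0 := by
        by_contra hne
        apply hcase
        unfold qdsT at hne
        split_ifs at hne with hif
        · have n12 := left_ne_zero_of_mul hne
          have n1 := left_ne_zero_of_mul n12
          have n2 : h (mE e / Y) ≠ 0 := by
            intro h0
            apply right_ne_zero_of_mul n12
            rw [h0]
            norm_num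
          constructor
          · by_contra hc
            apply n1
            apply ww_props.2.2.2
            refine le_trans ?_ (le_abs_self _)
            rw [le_div_iff₀ hN', one_mul]
            exact not_lt.1 hc
          · by_contra hc
            apply n2
            apply hh.lo
            rw [div_le_iff₀ hY0]
            have : 0 < h1 * Y := by positivity
            linarith [not_le.1 hc]
        · exact (hne rfl).elim
      have hF : qdsW η (ρ * φ / N) * h (ρ / Y) ^ 2 * ps0 (tE e) = 0 := by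
        by_contra hne
        apply hcase
        have n12 := left_ne_zero_of_mul hne
        have n1 := left_ne_zero_of_mul n12
        have n2 : h (ρ / Y) ≠ 0 := by
          intro h0
          apply right_ne_zero_of_mul n12
          rw [h0]
          norm_num
        have m1 : ρ * φ < N := by
          by_contra hc
          apply n1
          apply qdsW_hi
          rw [le_div_iff₀ hN', one_mul]
          exact not_lt.1 hc
        have m2 : h1 * Y < ρ := by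
          by_contra hc
          apply n2
          apply hh.lo
          rw [div_le_iff₀ hY0]
          exact not_lt.1 hc
        constructor
        · linarith
        · linarith
      rw [hT, hF]
      simp
  · right
    right
    have hT : qdsT h N Y e = 0 := by
      unfold qdsT
      rw [if_neg]
      rintro ⟨k1, k2, -⟩
      exact hpos ⟨k1, by linarith⟩
    have hF : qdsW η (ρ * ang e.1 e.2 / N) * h (ρ / Y) ^ 2 * ps0 (tE e) = 0 := by
      by_contra hne
      apply hpos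
      have n12 := left_ne_zero_of_mul hne
      have n1 := left_ne_zero_of_mul n12
      have n2 : h (ρ / Y) ≠ 0 := by
        intro h0
        apply right_ne_zero_of_mul n12
        rw [h0]
        norm_num
      have m1 : ρ * ang e.1 e.2 < N := by
        by_contra hc
        apply n1
        apply qdsW_hi
        rw [le_div_iff₀ hN', one_mul]
        exact not_lt.1 hc
      have m2 : h1 * Y < ρ := by
        by_contra hc
        apply n2
        apply hh.lo
        rw [div_le_iff₀ hY0]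
        exact not_lt.1 hc
      have m3 : 0 < ang e.1 e.2 := by
        by_contra hc
        apply n1
        apply qdsW_lo hη
        apply div_nonpos_of_nonpos_of_nonneg _ hN'.le
        exact mul_nonpos_of_nonneg_of_nonpos hρ0.le (not_lt.1 hc)
      apply qds_geo2 (qds_Prim_ne he1) (qds_Prim_ne he2) m3
      refine lt_trans ?_ hY2
      rw [lt_div_iff₀ (mul_pos h1p hY0)]
      have m4 := mul_le_mul_of_nonneg_left m2.le m3.le
      linarith only [m4, m1]
    rw [hT, hF]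
    simp

/-- PROOF. By `En_iff` the pairs `e ∈ EN n (h2 Y)`, `1 ≤ n ≤ N`, are the pairs `(V, V')` of primitive vectors with `1 ≤ det V V' ≤ N`, `0 < dot ≤ h2 Y`, so the sum is
`S = ∑ κ(V, V') f(nm V) conj f(nm V') ww(det/N) h(dot/Y)^2 ps0(tE)` over these pairs, `κ(V, V') = 1_(d ∣ det) kap(det) 1_(4 ∣ det → cg 4 V' V)` (`kap` of an integer: 2 if `4 ∣ det`, else 1), periodic modulo `D = 4 d`, `‖κ‖ ≤ 2`.
Let `0 < η < 1` and `F x x' σ = w(sqrt(x x') σ) h(sqrt(x x'))^2 ps0(log x' - log x)` for `x, x' > 0` (zero otherwise), `w(s) = ww(s) * min 1 (max 0 (s/η))`: continuous (`ww_props`, `h = 0` near `0`), with `h1 < sqrt(x x') < h2` and `|log x' - log x| < 1` on the support, so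
`c0 = h1 exp(-1/2)`, `C0 = h2 exp(1/2)`, `B = 1/h1` are admissible. `arcpair` bounds the sum with `F`. Comparison of the two weights, for a pair with `F ≠ 0` or with weight `≠ 0`: `φ = ang V V'`, `ρ = sqrt(nm V nm V')`, `dot = ρ cos φ`, `det = ρ sin φ`. If `F ≠ 0`: `0 < φ ≤ B N / Y`, so
(`Y` large) `dot > 0`, `det > 0`, `det ≤ ρ φ < N`: the pair is in the range of `S`. In the range of `S` with `h(dot/Y) ≠ 0`: `dot ≥ h1 Y`, `0 < tan φ = det/dot ≤ N/(h1 Y)`. In both cases `φ → 0` uniformly, `dot/Y - ρ/Y → 0` and `det/N - ρ φ/N → 0` uniformly as `Y → ∞` (`N` fixed, `ρ/Y` bounded), and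
`sqrt(x x') = ρ/Y`, `sqrt(x x') σ = ρ φ / N`; so by uniform continuity the weights differ by at most `η` for pairs with `det ≥ η N` (there `w(det/N) = ww(det/N)`) and by at most `1` otherwise. The number of pairs in question (norms between `c0 Y/2` and `2 C0 Y`, `|φ| ≤ 2 B N/Y`) is at most `C N Y`
(`cntA`), and those with `1 ≤ det ≤ η N` (`+` small change) are at most `η N * C Y` (`cnt` for each `n ≤ η N`, `B = 2`). So `‖S - (sum with F)‖ ≤ C' η N Y`. Choose `η`, then `N0` from `arcpair`. -/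
theorem qds (f : ℕ → ℂ) (hf : ∀ n, ‖f n‖ ≤ 1) (hM : MRP f) : QdSmall f := by
  classical
  intro d hd h h1 h2 hh ε hε
  have h1p := hh.pos
  have h2p := hh.one
  by_cases h12 : h1 ≤ h2
  swap
  · -- trivial: `h = 0`
    have hz : ∀ y, h y = 0 := by
      intro y
      rcases le_total y h1 with h3 | h3
      · exact hh.lo y h3
      · exact hh.hi y (by linarith)
    refine ⟨0, fun N _ => ?_⟩
    filter_upwards [eventually_ge_atTop 0] with Y hY
    have h0 : ∑ n ∈ (Icc 1 N).filter (fun n => d ∣ n), ((kap n * ww ((n : ℝ) / N) : ℝ) : ℂ) *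
      Qs f n (h2 * Y) (fun y t => ((h y ^ 2 * ps0 t : ℝ) : ℂ)) Y = 0 := by
      apply sum_eq_zero
      intro n _
      have : Qs f n (h2 * Y) (fun y t => ((h y ^ 2 * ps0 t : ℝ) : ℂ)) Y = 0 := by
        unfold Qs
        apply sum_eq_zero
        intro e _
        dsimp only
        rw [hz]
        simp
      rw [this, mul_zero]
    rw [h0, norm_zero]
    positivity
  obtain ⟨C, hC, hcntA⟩ := cntA (h1 / 4) (3 * h2) (2 / h1) (by linarith) (by linarith) (by positivity)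
  obtain ⟨C1, hC1, hcnt⟩ := cnt 1
  set K : ℝ := C + 2 * C1 * h2 with hK
  have hKp : 0 < K := by positivity
  set η : ℝ := min 1 (ε / (4 * K)) with hηd
  have hη : 0 < η := lt_min one_pos (by positivity)
  have hη1 : η ≤ 1 := min_le_left _ _
  have hη2 : η * (4 * K) ≤ ε := by
    have := min_le_right 1 (ε / (4 * K))
    rwa [← hηd, le_div_iff₀ (by positivity)] at this
  obtain ⟨N0, hN0⟩ := arcpair f hf hM (4 * d) (by omega) (qdsK d) (qdsK_bd d) (qdsK_per d) (h1 / 2) (3 * h2) (1 / h1)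
    (by linarith) (by linarith) (by positivity) (qdsF h η (h1 / 2)) (qdsF_cont hh.cont η (by linarith))
    (qdsF_van hh hη) (ε / 2) (by linarith)
  obtain ⟨δ1, hδ1, hw⟩ := Metric.uniformContinuous_iff.1 (qdsW_uc η hη) (η / 4) (by linarith)
  obtain ⟨δ2, hδ2, hhu⟩ := Metric.uniformContinuous_iff.1 (qds_huc hh) (η / 4) (by linarith)
  set δ := min δ1 δ2 with hδd
  have hδ : 0 < δ := lt_min hδ1 hδ2
  have hw' : ∀ s s' : ℝ, |s - s'| < δ → |qdsW η s - qdsW η s'| < η / 4 := by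
    intro s s' hs
    have := hw (a := s) (b := s') (by rw [Real.dist_eq]; exact hs.trans_le (min_le_left _ _))
    rwa [Real.dist_eq] at this
  have hhu' : ∀ s s' : ℝ, |s - s'| < δ → |h s - h s'| < η / 4 := by
    intro s s' hs
    have := hhu (a := s) (b := s') (by rw [Real.dist_eq]; exact hs.trans_le (min_le_right _ _))
    rwa [Real.dist_eq] at this
  refine ⟨max N0 1, fun N hN => ?_⟩
  have hN1 : 1 ≤ N := (le_max_right _ _).trans hN
  have hN' : (1 : ℝ) ≤ N := by exact_mod_cast hN1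
  have hl1 : Tendsto (fun Y : ℝ => (N : ℝ) / (h1 * Y)) atTop (nhds 0) := by
    have h3 : Tendsto (fun Y : ℝ => ((N : ℝ) / h1) / Y) atTop (nhds 0) := tendsto_const_nhds.div_atTop tendsto_id
    refine h3.congr (fun Y => ?_)
    rw [div_div]
  have hl2 : Tendsto (fun Y : ℝ => 2 * (N : ℝ) / (h1 * Y)) atTop (nhds 0) := by
    have h3 : Tendsto (fun Y : ℝ => (2 * (N : ℝ) / h1) / Y) atTop (nhds 0) := tendsto_const_nhds.div_atTop tendsto_id
    refine h3.congr (fun Y => ?_)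
    rw [div_div]
  have hl3 : Tendsto (fun Y : ℝ => (N : ℝ) / Y) atTop (nhds 0) := tendsto_const_nhds.div_atTop tendsto_id
  filter_upwards [hN0 N ((le_max_left _ _).trans hN), hcntA N hN1, eventually_gt_atTop 0,
    eventually_ge_atTop (2 * (N : ℝ) / h1), eventually_ge_atTop (2 * (N : ℝ)),
    hl1.eventually_lt_const (by positivity : 0 < Real.pi / 2), hl2.eventually_lt_const hδ,
    hl3.eventually_lt_const hδ] with Y hA hB hY0 hY1 hY2 hY3 hY4 hY5
  have hY1' : 2 * (N : ℝ) ≤ h1 * Y := by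
    rw [div_le_iff₀ h1p] at hY1
    linarith
  rw [qds_sum f d hh hY2 hY0]
  set P := PV (3 * h2 * Y) with hP
  rw [← sum_product' P P (fun V V' => qdsK d V V' * (f (nm V) * (starRingEnd ℂ) (f (nm V'))) *
        ((qdsF h η (h1 / 2) (nm V / Y) (nm V' / Y) (Y * ang V V' / N) : ℝ) : ℂ))] at hA
  have hdec : ∑ e ∈ P ×ˢ P, qdsK d e.1 e.2 * (f (nm e.1) * (starRingEnd ℂ) (f (nm e.2))) * ((qdsT h N Y e : ℝ) : ℂ) =
      ∑ e ∈ P ×ˢ P, qdsK d e.1 e.2 * (f (nm e.1) * (starRingEnd ℂ) (f (nm e.2))) *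
        ((qdsF h η (h1 / 2) (nm e.1 / Y) (nm e.2 / Y) (Y * ang e.1 e.2 / N) : ℝ) : ℂ) +
      ∑ e ∈ P ×ˢ P, qdsK d e.1 e.2 * (f (nm e.1) * (starRingEnd ℂ) (f (nm e.2))) *
        ((qdsT h N Y e - qdsF h η (h1 / 2) (nm e.1 / Y) (nm e.2 / Y) (Y * ang e.1 e.2 / N) : ℝ) : ℂ) := by
    rw [← sum_add_distrib]
    apply sum_congr rfl
    intro e _
    rw [Complex.ofReal_sub]
    ring
  rw [hdec]
  refine (norm_add_le _ _).trans ?_
  have hsec : ‖∑ e ∈ P ×ˢ P, qdsK d e.1 e.2 * (f (nm e.1) * (starRingEnd ℂ) (f (nm e.2))) *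
        ((qdsT h N Y e - qdsF h η (h1 / 2) (nm e.1 / Y) (nm e.2 / Y) (Y * ang e.1 e.2 / N) : ℝ) : ℂ)‖ ≤
      ε / 2 * N * Y := by
    have hpt : ∀ e ∈ P ×ˢ P, ‖qdsK d e.1 e.2 * (f (nm e.1) * (starRingEnd ℂ) (f (nm e.2))) *
        ((qdsT h N Y e - qdsF h η (h1 / 2) (nm e.1 / Y) (nm e.2 / Y) (Y * ang e.1 e.2 / N) : ℝ) : ℂ)‖ ≤
        2 * ((if h1 / 4 * Y ≤ nm e.1 ∧ h1 / 4 * Y ≤ nm e.2 ∧ |ang e.1 e.2| ≤ 2 / h1 * N / Y then η else 0) +
          (if qdsBad h2 η N Y e then 2 else 0)) := by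
      intro e he
      rw [mem_product, hP, mem_PV, mem_PV] at he
      have hcm := qds_cmp hh hη hN1 hY0 hY1' hY3 hY4 hY5 hw' hhu' e he.1.2 he.2.2
      set DD := qdsT h N Y e - qdsF h η (h1 / 2) (nm e.1 / Y) (nm e.2 / Y) (Y * ang e.1 e.2 / N) with hDD
      have hKf : ‖qdsK d e.1 e.2 * (f (nm e.1) * (starRingEnd ℂ) (f (nm e.2)))‖ ≤ 2 := by
        rw [norm_mul, norm_mul, RCLike.norm_conj]
        have q1 := qdsK_bd d e.1 e.2
        have q2 : ‖f (nm e.1)‖ * ‖f (nm e.2)‖ ≤ 1 := mul_le_one₀ (hf _) (norm_nonneg _) (hf _)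
        have q3 : 0 ≤ ‖f (nm e.1)‖ * ‖f (nm e.2)‖ := by positivity
        exact (mul_le_mul q1 q2 q3 zero_le_two).trans (by rw [mul_one])
      rw [norm_mul, Complex.norm_real, Real.norm_eq_abs]
      refine mul_le_mul hKf ?_ (abs_nonneg _) (by norm_num)
      rcases hcm with ⟨m1, m2⟩ | ⟨m1, m2, m3, m4, m5⟩ | m1
      · rw [if_pos m2]
        have : (0 : ℝ) ≤ if qdsBad h2 η N Y e then 2 else 0 := by split_ifs <;> norm_num
        linarith
      · rw [if_pos ⟨m2, m3, m4⟩, if_pos m5]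
        linarith
      · have t1 : (0 : ℝ) ≤ if qdsBad h2 η N Y e then 2 else 0 := by split_ifs <;> norm_num
        have t2 : (0 : ℝ) ≤ if h1 / 4 * Y ≤ nm e.1 ∧ h1 / 4 * Y ≤ nm e.2 ∧ |ang e.1 e.2| ≤ 2 / h1 * N / Y then η
            else 0 := by
          split_ifs
          · exact hη.le
          · exact le_rfl
        linarith
    refine (norm_sum_le _ _).trans ((sum_le_sum hpt).trans ?_)
    rw [← mul_sum, sum_add_distrib, ← sum_filter, ← sum_filter, sum_const, sum_const, nsmul_eq_mul, nsmul_eq_mul]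
    have hb := qds_bad hC1 hη hη1 h2p hcnt (N := N) (Y := Y) (by linarith) (3 * h2 * Y)
    rw [← hP] at hb
    have hb2 : (((P ×ˢ P).filter (fun e : G × G => h1 / 4 * Y ≤ nm e.1 ∧ h1 / 4 * Y ≤ nm e.2 ∧
        |ang e.1 e.2| ≤ 2 / h1 * N / Y)).card : ℝ) ≤ C * N * Y := by
      refine le_trans (le_of_eq ?_) hB
      congr
    have hb1 : (((P ×ˢ P).filter (fun e : G × G => qdsBad h2 η N Y e)).card : ℝ) ≤ η * N * (C1 * (h2 * Y)) := by
      refine le_trans (le_of_eq ?_) hb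
      congr
    have t1 := mul_le_mul_of_nonneg_right hb2 hη.le
    have hNY : 0 ≤ (N : ℝ) * Y := by positivity
    have t3 : 2 * (C * N * Y * η + η * N * (C1 * (h2 * Y)) * 2) = η * (4 * K) / 2 * ((N : ℝ) * Y) := by
      rw [hK]
      ring
    have t4 : η * (4 * K) / 2 * ((N : ℝ) * Y) ≤ ε / 2 * ((N : ℝ) * Y) :=
      mul_le_mul_of_nonneg_right (by linarith) hNY
    calc _ ≤ 2 * (C * N * Y * η + η * N * (C1 * (h2 * Y)) * 2) := by linarith
      _ = η * (4 * K) / 2 * ((N : ℝ) * Y) := t3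
      _ ≤ ε / 2 * ((N : ℝ) * Y) := t4
      _ = ε / 2 * N * Y := by ring
  refine (add_le_add hA hsec).trans (le_of_eq ?_)
  ring

end Pool.Agent.OmEq

end
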