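import Pool.Agent.Lib_MP_92ef0c_m.M13
import Pool.Agent.Lib_MP_92ef0c_m.M27
import Pool.Agent.Lib_MP_92ef0c_m.M43
import Pool.Agent.Lib_MP_92ef0c_m.M49
import Pool.Agent.Lib_MP_92ef0c_m.M51

/-!
# MP_92ef0c_nt, split pairs: merged library part M52

Concatenation of smaller files (each in its own section), only to save build time.
-/

/-! ### from `Lib_MP_92ef0c_sp.ArcP3` -/

section

/-!
# Pairs of coprime pairs with close directions
-/

set_option autoImplicit false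

namespace Pool.Agent.Spl

open Finset Pool.Agent.GaussMR Pool.Agent.OmAll Pool.Agent.OmEq MeasureTheory Filter

/-- the residue classes modulo `D` -/
def arcp3R (D : ℕ) : Finset (ℕ × ℕ) := range D ×ˢ range D

theorem arcp3_card (D : ℕ) : (arcp3R D).card = D * D := by
  unfold arcp3R
  rw [card_product, card_range]

theorem arcp3_split {D : ℕ} (hD : 0 < D) (S : Finset (ℕ × ℕ)) (g : ℕ × ℕ → ℂ) :
    ∑ z ∈ S, g z = ∑ b ∈ arcp3R D, ∑ z ∈ S.filter (fun z => z.1 ≡ b.1 [MOD D] ∧ z.2 ≡ b.2 [MOD D]), g z := by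
  rw [← sum_fiberwise_of_maps_to (s := S) (t := arcp3R D) (g := fun z => (z.1 % D, z.2 % D))
    (fun z _ => by
      unfold arcp3R
      rw [mem_product, mem_range, mem_range]
      exact ⟨Nat.mod_lt _ hD, Nat.mod_lt _ hD⟩)]
  refine sum_congr rfl fun b hb => ?_
  refine sum_congr (filter_congr fun z _ => ?_) fun _ _ => rfl
  unfold arcp3R at hb
  rw [mem_product, mem_range, mem_range] at hb
  constructor
  · intro h
    rw [← h]
    exact ⟨(Nat.mod_modEq _ _).symm, (Nat.mod_modEq _ _).symm⟩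
  · rintro ⟨h1, h2⟩
    apply Prod.ext
    · exact (show z.1 % D = b.1 % D from h1).trans (Nat.mod_eq_of_lt hb.1)
    · exact (show z.2 % D = b.2 % D from h2).trans (Nat.mod_eq_of_lt hb.2)

theorem arcp3_split2 {D : ℕ} (hD : 0 < D) (S : Finset (ℕ × ℕ)) (κ : ℕ × ℕ → ℕ × ℕ → ℂ)
    (hper : ∀ V V' U U' : ℕ × ℕ, V.1 ≡ U.1 [MOD D] → V.2 ≡ U.2 [MOD D] → V'.1 ≡ U'.1 [MOD D] →
      V'.2 ≡ U'.2 [MOD D] → κ V V' = κ U U') (a : ℕ × ℕ → ℕ × ℕ → ℂ) :
    ∑ V ∈ S, ∑ V' ∈ S, κ V V' * a V V' = ∑ b ∈ arcp3R D, ∑ b' ∈ arcp3R D, κ b b' *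
      ∑ V ∈ S.filter (fun z => z.1 ≡ b.1 [MOD D] ∧ z.2 ≡ b.2 [MOD D]),
        ∑ V' ∈ S.filter (fun z => z.1 ≡ b'.1 [MOD D] ∧ z.2 ≡ b'.2 [MOD D]), a V V' := by
  rw [arcp3_split hD]
  apply sum_congr rfl
  intro b _
  have h1 : ∀ V ∈ S.filter (fun z => z.1 ≡ b.1 [MOD D] ∧ z.2 ≡ b.2 [MOD D]), ∑ V' ∈ S, κ V V' * a V V' =
      ∑ b' ∈ arcp3R D, κ b b' *
        ∑ V' ∈ S.filter (fun z => z.1 ≡ b'.1 [MOD D] ∧ z.2 ≡ b'.2 [MOD D]), a V V' := by
    intro V hV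
    rw [mem_filter] at hV
    rw [arcp3_split hD]
    apply sum_congr rfl
    intro b' _
    rw [mul_sum]
    apply sum_congr rfl
    intro V' hV'
    rw [mem_filter] at hV'
    rw [hper V V' b b' hV.2.1 hV.2.2 hV'.2.1 hV'.2.2]
  rw [sum_congr rfl h1, sum_comm]
  apply sum_congr rfl
  intro b' _
  rw [mul_sum]

theorem arcp3_mono {C D C' D' : ℝ} (h : C ≤ C') (h' : D ≤ D') : PB C D ⊆ PB C' D' := by
  intro z hz
  rw [mem_PB] at hz ⊢
  exact ⟨⟨hz.1.1, hz.1.2.trans h⟩, ⟨hz.2.1.1, hz.2.1.2.trans h'⟩, hz.2.2⟩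

theorem arcp3_cell {C0 K s : ℝ} (hC0 : 0 < C0) (hs : 0 < s) {I i : ℕ} (hi : i < I) (Q : ℕ × ℕ → Prop)
    [DecidablePred Q] (g : ℕ × ℕ → ℂ) :
    ∑ z ∈ (PB (C0 * s) (K * s)).filter Q, g z * ((cell C0 I i (z.1 / s) : ℝ) : ℂ) =
      ∑ z ∈ (PB (C0 * s * ((i + 1 : ℕ) : ℝ) / I) (K * s)).filter Q, g z -
        ∑ z ∈ (PB (C0 * s * ((i : ℕ) : ℝ) / I) (K * s)).filter Q, g z := by
  have hI : (0 : ℝ) < I := by exact_mod_cast (Nat.zero_le i).trans_lt hi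
  have hX : ∀ k : ℕ, k ≤ I → (PB (C0 * s * (k : ℝ) / I) (K * s)).filter Q =
      ((PB (C0 * s) (K * s)).filter Q).filter (fun z => (z.1 : ℝ) ≤ C0 * s * (k : ℝ) / I) := by
    intro k hk
    have hk' : (k : ℝ) ≤ I := by exact_mod_cast hk
    have h1 : C0 * s * (k : ℝ) / I ≤ C0 * s := by
      rw [div_le_iff₀ hI]
      exact mul_le_mul_of_nonneg_left hk' (by positivity)
    ext z
    simp only [mem_filter, mem_PB]
    constructor
    · rintro ⟨⟨⟨h2, h2'⟩, h3, h3'⟩, h4⟩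
      exact ⟨⟨⟨⟨h2, h2'.trans h1⟩, h3, h3'⟩, h4⟩, h2'⟩
    · rintro ⟨⟨⟨⟨h2, h2'⟩, h3, h3'⟩, h4⟩, h5⟩
      exact ⟨⟨⟨h2, h5⟩, h3, h3'⟩, h4⟩
  rw [hX (i + 1) hi, hX i hi.le, sum_filter (s := (PB (C0 * s) (K * s)).filter Q),
    sum_filter (s := (PB (C0 * s) (K * s)).filter Q), ← sum_sub_distrib]
  apply sum_congr rfl
  intro z _
  have e1 : C0 * i / I < (z.1 : ℝ) / s ↔ ¬ (z.1 : ℝ) ≤ C0 * s * (i : ℝ) / I := by
    rw [not_le, div_lt_div_iff₀ hI hs, div_lt_iff₀ hI]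
    constructor <;> intro h <;> linarith
  have e2 : (z.1 : ℝ) / s ≤ C0 * (i + 1) / I ↔ (z.1 : ℝ) ≤ C0 * s * ((i + 1 : ℕ) : ℝ) / I := by
    rw [div_le_div_iff₀ hs hI, le_div_iff₀ hI]
    push_cast
    constructor <;> intro h <;> linarith
  have e3 : (z.1 : ℝ) ≤ C0 * s * (i : ℝ) / I → (z.1 : ℝ) ≤ C0 * s * ((i + 1 : ℕ) : ℝ) / I := by
    intro h
    refine h.trans ?_
    push_cast
    apply div_le_div_of_nonneg_right _ hI.le
    have : 0 < C0 * s := by positivity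
    nlinarith
  unfold cell
  by_cases h1 : (z.1 : ℝ) ≤ C0 * s * (i : ℝ) / I
  · rw [if_neg (fun h => (e1.1 h.1) h1), if_pos (e3 h1), if_pos h1]
    simp
  · by_cases h2 : (z.1 : ℝ) ≤ C0 * s * ((i + 1 : ℕ) : ℝ) / I
    · rw [if_pos ⟨e1.2 h1, e2.2 h2⟩, if_pos h2, if_neg h1]
      simp
    · rw [if_neg (fun h => h2 (e2.1 h.2)), if_neg h2, if_neg h1]
      simp

theorem arcp3_cells {C0 K s : ℝ} (hC0 : 0 < C0) (hs : 0 < s) {I i j : ℕ} (hi : i < I) (hj : j < I)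
    (Q Q' : ℕ × ℕ → Prop) [DecidablePred Q] [DecidablePred Q'] (a : ℕ × ℕ → ℕ × ℕ → ℂ) (E : ℝ)
    (hE : ∀ k k' : ℕ, k ≤ I → k' ≤ I → ‖∑ V ∈ (PB (C0 * s * (k : ℝ) / I) (K * s)).filter Q,
      ∑ V' ∈ (PB (C0 * s * (k' : ℝ) / I) (K * s)).filter Q', a V V'‖ ≤ E) :
    ‖∑ V ∈ (PB (C0 * s) (K * s)).filter Q, ∑ V' ∈ (PB (C0 * s) (K * s)).filter Q',
      a V V' * ((cell C0 I j (V'.1 / s) : ℝ) : ℂ) * ((cell C0 I i (V.1 / s) : ℝ) : ℂ)‖ ≤ 4 * E := by
  have h1 : ∀ V : ℕ × ℕ, ∑ V' ∈ (PB (C0 * s) (K * s)).filter Q',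
      a V V' * ((cell C0 I j (V'.1 / s) : ℝ) : ℂ) * ((cell C0 I i (V.1 / s) : ℝ) : ℂ) =
      (∑ V' ∈ (PB (C0 * s * ((j + 1 : ℕ) : ℝ) / I) (K * s)).filter Q', a V V' -
        ∑ V' ∈ (PB (C0 * s * ((j : ℕ) : ℝ) / I) (K * s)).filter Q', a V V') *
        ((cell C0 I i (V.1 / s) : ℝ) : ℂ) := by
    intro V
    rw [← arcp3_cell hC0 hs hj, sum_mul]
  simp only [h1]
  rw [arcp3_cell hC0 hs hi, sum_sub_distrib, sum_sub_distrib]
  have a1 := hE (i + 1) (j + 1) hi hj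
  have a2 := hE (i + 1) j hi hj.le
  have a3 := hE i (j + 1) hi.le hj
  have a4 := hE i j hi.le hj.le
  refine (norm_sub_le _ _).trans ?_
  refine (add_le_add (norm_sub_le _ _) (norm_sub_le _ _)).trans ?_
  linarith

theorem arcp3_PB0 (D : ℝ) : PB 0 D = ∅ := by
  rw [eq_empty_iff_forall_notMem]
  intro z hz
  rw [mem_PB] at hz
  have h1 : (0 : ℝ) < z.1 := by exact_mod_cast hz.1.1
  linarith [hz.1.2]

open Classical in
/-- bound for one quadruple of cells -/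
theorem arcp3_term (f : ℕ → ℂ) (hf : ∀ n, ‖f n‖ ≤ 1) (D : ℕ) (hD : 0 < D) (κ : ℕ × ℕ → ℕ × ℕ → ℂ)
    (hκ : ∀ V V', ‖κ V V'‖ ≤ 2) (hper : ∀ V V' U U' : ℕ × ℕ, V.1 ≡ U.1 [MOD D] → V.2 ≡ U.2 [MOD D] →
      V'.1 ≡ U'.1 [MOD D] → V'.2 ≡ U'.2 [MOD D] → κ V V' = κ U U')
    {C0 K s Y N A δ M : ℝ} (hC0 : 0 < C0) (hs : 0 < s) (hY : 0 < Y) (hN : 0 < N) {I i j k l β : ℕ}
    (hi : i < I) (hj : j < I) (hδ : δ = N / (I * Y)) (hA : 0 ≤ A) (hM : 0 ≤ M)
    (hS : ∀ b ∈ arcp3R D, ∀ k ∈ Icc 1 I,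
      ∫ τ, ‖Ss f D b (C0 * s * (k : ℝ) / I) (K * s) δ τ‖ ^ 2 ≤ A)
    (hcnt : (((PB (C0 * s) (K * s) ×ˢ PB (C0 * s) (K * s)).filter
      (fun e : (ℕ × ℕ) × (ℕ × ℕ) => |dirn e.2 - dirn e.1| ≤ (l + 1) * δ)).card : ℝ) ≤ M) :
    ‖∑ V ∈ PB (C0 * s) (K * s), ∑ V' ∈ PB (C0 * s) (K * s), κ V V' * (F2 f V * (starRingEnd ℂ) (F2 f V')) *
      ((cell C0 I i (V.1 / s) * cell C0 I j (V'.1 / s) * max 0 (1 - |I * (dirn V + β) - k|) *
        max 0 (1 - |I * (Y * (dirn V' - dirn V) / N) - l|) : ℝ) : ℂ)‖ ≤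
      8 * ((D : ℝ) ^ 4) * (A / δ + I * δ * M) := by
  have hI : (0 : ℝ) < I := by exact_mod_cast (Nat.zero_le i).trans_lt hi
  have hδ0 : 0 < δ := by
    rw [hδ]
    positivity
  have hE0 : 0 ≤ A / δ + I * δ * M := by positivity
  have e0 : ∀ V V' : ℕ × ℕ, κ V V' * (F2 f V * (starRingEnd ℂ) (F2 f V')) *
      ((cell C0 I i (V.1 / s) * cell C0 I j (V'.1 / s) * max 0 (1 - |I * (dirn V + β) - k|) *
        max 0 (1 - |I * (Y * (dirn V' - dirn V) / N) - l|) : ℝ) : ℂ) =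
      κ V V' * (F2 f V * (starRingEnd ℂ) (F2 f V') * ((max 0 (1 - |I * (dirn V + β) - k|) *
        max 0 (1 - |(dirn V' - dirn V) / δ - l|) : ℝ) : ℂ) *
        ((cell C0 I j (V'.1 / s) : ℝ) : ℂ) * ((cell C0 I i (V.1 / s) : ℝ) : ℂ)) := by
    intro V V'
    have e1 : (I : ℝ) * (Y * (dirn V' - dirn V) / N) = (dirn V' - dirn V) / δ := by
      rw [hδ]
      field_simp
    rw [e1]
    push_cast
    ring
  simp only [e0]
  rw [arcp3_split2 hD _ κ hper]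
  have hcard : ((arcp3R D).card : ℝ) = (D : ℝ) * D := by
    rw [arcp3_card]
    push_cast
    ring
  have hφL : ∀ x y : ℝ, |max 0 (1 - |I * (x + β) - k|) - max 0 (1 - |I * (y + β) - k|)| ≤ I * |x - y| := by
    intro x y
    have g1 : |max 0 (1 - |I * (x + β) - k|) - max 0 (1 - |I * (y + β) - k|)| ≤
        |(1 - |I * (x + β) - k|) - (1 - |I * (y + β) - k|)| := by
      have := abs_max_sub_max_le_abs (1 - |(I : ℝ) * (x + β) - k|) (1 - |(I : ℝ) * (y + β) - k|) 0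
      rwa [max_comm 0, max_comm 0]
    refine g1.trans ?_
    have g2 : (1 - |(I : ℝ) * (x + β) - k|) - (1 - |(I : ℝ) * (y + β) - k|) =
        |(I : ℝ) * (y + β) - k| - |(I : ℝ) * (x + β) - k| := by ring
    rw [g2]
    refine (abs_abs_sub_abs_le_abs_sub _ _).trans (le_of_eq ?_)
    have g3 : (I : ℝ) * (y + β) - k - (I * (x + β) - k) = I * (y - x) := by ring
    rw [g3, abs_mul, abs_of_pos hI, abs_sub_comm]
  have hφ1 : ∀ x : ℝ, |max 0 (1 - |(I : ℝ) * (x + β) - k|)| ≤ 1 := by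
    intro x
    rw [abs_of_nonneg (le_max_left _ _)]
    exact max_le zero_le_one (by linarith [abs_nonneg ((I : ℝ) * (x + β) - k)])
  have hterm : ∀ b ∈ arcp3R D, ∀ b' ∈ arcp3R D, ‖κ b b' *
      ∑ V ∈ (PB (C0 * s) (K * s)).filter (fun z => z.1 ≡ b.1 [MOD D] ∧ z.2 ≡ b.2 [MOD D]),
      ∑ V' ∈ (PB (C0 * s) (K * s)).filter (fun z => z.1 ≡ b'.1 [MOD D] ∧ z.2 ≡ b'.2 [MOD D]),
        (F2 f V * (starRingEnd ℂ) (F2 f V') * ((max 0 (1 - |I * (dirn V + β) - k|) *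
        max 0 (1 - |(dirn V' - dirn V) / δ - l|) : ℝ) : ℂ) *
        ((cell C0 I j (V'.1 / s) : ℝ) : ℂ) * ((cell C0 I i (V.1 / s) : ℝ) : ℂ))‖ ≤
        8 * (A / δ + I * δ * M) := by
    intro b hb b' hb'
    rw [norm_mul]
    have h4 : ‖∑ V ∈ (PB (C0 * s) (K * s)).filter (fun z => z.1 ≡ b.1 [MOD D] ∧ z.2 ≡ b.2 [MOD D]),
      ∑ V' ∈ (PB (C0 * s) (K * s)).filter (fun z => z.1 ≡ b'.1 [MOD D] ∧ z.2 ≡ b'.2 [MOD D]),
        (F2 f V * (starRingEnd ℂ) (F2 f V') * ((max 0 (1 - |I * (dirn V + β) - k|) *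
        max 0 (1 - |(dirn V' - dirn V) / δ - l|) : ℝ) : ℂ) *
        ((cell C0 I j (V'.1 / s) : ℝ) : ℂ) * ((cell C0 I i (V.1 / s) : ℝ) : ℂ))‖ ≤
        4 * (A / δ + I * δ * M) := by
      apply arcp3_cells hC0 hs hi hj (fun z => z.1 ≡ b.1 [MOD D] ∧ z.2 ≡ b.2 [MOD D])
        (fun z => z.1 ≡ b'.1 [MOD D] ∧ z.2 ≡ b'.2 [MOD D])
        (fun V V' => F2 f V * (starRingEnd ℂ) (F2 f V') * ((max 0 (1 - |I * (dirn V + β) - k|) *
        max 0 (1 - |(dirn V' - dirn V) / δ - l|) : ℝ) : ℂ))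
      intro k1 k2 hk1 hk2
      rcases Nat.eq_zero_or_pos k1 with h0 | h0
      · rw [h0, Nat.cast_zero, mul_zero, zero_div, arcp3_PB0, filter_empty, sum_empty, norm_zero]
        exact hE0
      · rcases Nat.eq_zero_or_pos k2 with h0' | h0'
        · rw [h0', Nat.cast_zero, mul_zero, zero_div, arcp3_PB0, filter_empty]
          simp only [sum_empty, sum_const_zero, norm_zero]
          exact hE0
        · refine (arc_bound3 f hf D b b' _ _ _ _ δ A hδ0 l (fun x => max 0 (1 - |I * (x + β) - k|)) I hI.le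
            hφL hφ1 (hS b hb k1 (mem_Icc.2 ⟨h0, hk1⟩)) (hS b' hb' k2 (mem_Icc.2 ⟨h0', hk2⟩))).trans ?_
          have hbox : ∀ m : ℕ, m ≤ I → PB (C0 * s * (m : ℝ) / I) (K * s) ⊆ PB (C0 * s) (K * s) := by
            intro m hm
            apply arcp3_mono _ (le_refl _)
            rw [div_le_iff₀ hI]
            have hm' : (m : ℝ) ≤ I := by exact_mod_cast hm
            exact mul_le_mul_of_nonneg_left hm' (by positivity)
          have h5 : (((PB (C0 * s * (k1 : ℝ) / I) (K * s) ×ˢ PB (C0 * s * (k2 : ℝ) / I) (K * s)).filter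
            (fun e : (ℕ × ℕ) × (ℕ × ℕ) => |dirn e.2 - dirn e.1| ≤ (l + 1) * δ)).card : ℝ) ≤ M := by
            refine le_trans ?_ hcnt
            exact_mod_cast card_le_card (filter_subset_filter _ (product_subset_product (hbox k1 hk1) (hbox k2 hk2)))
          have h6 : (I : ℝ) * δ * _ ≤ I * δ * M := mul_le_mul_of_nonneg_left h5 (by positivity)
          linarith
    calc _ ≤ 2 * (4 * (A / δ + I * δ * M)) := mul_le_mul (hκ _ _) h4 (norm_nonneg _) (by norm_num)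
      _ = 8 * (A / δ + I * δ * M) := by ring
  refine (norm_sum_le _ _).trans ?_
  refine (sum_le_card_nsmul _ _ ((D : ℝ) * D * (8 * (A / δ + I * δ * M))) (fun b hb => ?_)).trans ?_
  · refine (norm_sum_le _ _).trans ?_
    refine (sum_le_card_nsmul _ _ (8 * (A / δ + I * δ * M)) (fun b' hb' => hterm b hb b' hb')).trans ?_
    rw [nsmul_eq_mul, hcard]
  · rw [nsmul_eq_mul, hcard]
    exact le_of_eq (by ring)

theorem arcp3_ev (f : ℕ → ℂ) (hM : MRS f) {D : ℕ} (hD : 0 < D) {C0 K ε : ℝ} (hC0 : 0 < C0) (hK : C0 ≤ K)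
    (hε : 0 < ε) {I : ℕ} (hI : 1 ≤ I) : ∀ᶠ N : ℕ in atTop, ∀ᶠ Y : ℝ in atTop, ∀ b ∈ arcp3R D, ∀ k ∈ Icc 1 I,
      ∫ τ, ‖Ss f D b (C0 * Real.sqrt Y * (k : ℝ) / I) (K * Real.sqrt Y) (N / (I * Y)) τ‖ ^ 2 ≤
        ε * ((N : ℝ) * C0 ^ 2 / I) ^ 2 := by
  have hI' : (0 : ℝ) < I := by exact_mod_cast hI
  have hK0 : 0 < K := hC0.trans_le hK
  have h1 : ∀ᶠ N : ℕ in atTop, ∀ b ∈ arcp3R D, ∀ k ∈ Icc 1 I, ∀ᶠ X : ℝ in atTop,
      ∫ τ, ‖Ss f D b (Real.sqrt X) (K * I / (C0 * k) * Real.sqrt X) (((N : ℝ) * ((C0 * k / I) ^ 2 / I)) / X) τ‖ ^ 2 ≤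
        ε * ((N : ℝ) * ((C0 * k / I) ^ 2 / I)) ^ 2 := by
    rw [eventually_all_finset]
    intro b _
    rw [eventually_all_finset]
    intro k hk
    have hk1 : (1 : ℝ) ≤ k := by exact_mod_cast (mem_Icc.1 hk).1
    have hk2 : (k : ℝ) ≤ I := by exact_mod_cast (mem_Icc.1 hk).2
    have hK1 : 1 ≤ K * I / (C0 * k) := by
      rw [le_div_iff₀ (by positivity), one_mul]
      exact mul_le_mul hK hk2 (by positivity) hK0.le
    obtain ⟨H0, -, h⟩ := hM D hD b _ hK1 ε hε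
    have ht : Tendsto (fun N : ℕ => (N : ℝ) * ((C0 * k / I) ^ 2 / I)) atTop atTop :=
      tendsto_natCast_atTop_atTop.atTop_mul_const (by positivity)
    filter_upwards [ht.eventually_ge_atTop H0] with N hN
    obtain ⟨X0, hX0⟩ := h _ hN
    filter_upwards [eventually_ge_atTop X0] with X hX
    exact hX0 X hX
  filter_upwards [h1] with N hN
  rw [eventually_all_finset]
  intro b hb
  rw [eventually_all_finset]
  intro k hk
  have hk1 : (1 : ℝ) ≤ k := by exact_mod_cast (mem_Icc.1 hk).1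
  have hk2 : (k : ℝ) ≤ I := by exact_mod_cast (mem_Icc.1 hk).2
  have ht : Tendsto (fun Y : ℝ => (C0 * k / I) ^ 2 * Y) atTop atTop :=
    tendsto_id.const_mul_atTop (by positivity)
  filter_upwards [ht.eventually (hN b hb k hk), eventually_gt_atTop 0] with Y hY hY0
  have e1 : Real.sqrt ((C0 * k / I) ^ 2 * Y) = C0 * Real.sqrt Y * k / I := by
    rw [Real.sqrt_mul (by positivity), Real.sqrt_sq (by positivity)]
    ring
  have e2 : K * I / (C0 * k) * (C0 * Real.sqrt Y * k / I) = K * Real.sqrt Y := by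
    field_simp
  have e3 : (N : ℝ) * ((C0 * k / I) ^ 2 / I) / ((C0 * k / I) ^ 2 * Y) = N / (I * Y) := by
    field_simp
  rw [e1, e2, e3] at hY
  refine hY.trans (mul_le_mul_of_nonneg_left (pow_le_pow_left₀ (by positivity) ?_ 2) hε.le)
  rw [mul_div_assoc (N : ℝ)]
  refine mul_le_mul_of_nonneg_left (div_le_div_of_nonneg_right ?_ hI'.le) (Nat.cast_nonneg _)
  refine pow_le_pow_left₀ (by positivity) ?_ 2
  rw [div_le_iff₀ hI']
  exact mul_le_mul_of_nonneg_left hk2 hC0.le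

/-- PROOF. Adapt `arcpair` (`Lib_MP_f1a94e_eq/ArcPair.lean`). Let `P = PB (C0 sqrt Y) (K sqrt Y)`. `C` from `cntA3 (c0/2) C0 K (B+1)`; `appG4` with `ε1 = ε/(8 C)` gives `I`: the difference of the sum and the sum with `F` replaced by its approximation (`x = V.1/sqrt Y`, `x' = V'.1/sqrt Y ∈ (0, C0]`, `τ = dirn V`, `σ = Y (dirn V' - dirn V)/N`) is at most
`2 ε1 C N Y`. The approximation: split into residue classes `b, b'` modulo `D` (`κ V V' = κ b b'`); `cell C0 I i (V.1/sqrt Y)` is the difference of the indicators of `V.1 ≤ C0 (i+1) sqrt Y/I` and `V.1 ≤ C0 i sqrt Y/I`; `I σ - l = (dirn V' - dirn V)/δ - l` with `δ = N/(I Y)`; `φ τ = max 0 (1 - |I (τ + ⌈B⌉) - k|)` is Lipschitz with `L = I`. So it is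
a sum of at most `4 I^2 (2 ⌈B⌉ I + 1)(⌈B⌉ I + 1) D^4` terms, each at most `2 sup |F|` times a sum as in `arc_bound3` with boxes `PB (C0 i sqrt Y/I) (K sqrt Y)`, `PB (C0 j sqrt Y/I) (K sqrt Y)`, `1 ≤ i, j ≤ I` (the box with `i = 0` is empty). With `X_i = (C0 i/I)^2 Y`: `C0 i sqrt Y/I = sqrt X_i`, `K sqrt Y = K_i sqrt X_i`,
`K_i = K I/(C0 i) ≥ 1` (`hK`), `δ = H_i/X_i` with `H_i = N C0^2 i^2/I^3`. `hM` (modulus `D`, the finitely many classes `b`, the finitely many `K_i`, `ε2`): `H_i ≥ H0` if `N ≥ N0`; for fixed `N` and large `Y`: `∫ ‖Ss‖^2 ≤ ε2 H_i^2 ≤ ε2 (N C0^2/I)^2 =: A`, `A/δ = ε2 N C0^4 Y/I`. The second term of `arc_bound3` is at most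
`I δ C' N Y log Y = C' N^2 log Y` (`cntB3` with `(l+1) δ ≤ (⌈B⌉ I + 2) N/(I Y)`, all boxes are subsets of `P`), `o(Y)`. Choose `ε2` small, then `N0`, then `Y` large. -/
theorem arcp3 (f : ℕ → ℂ) (hf : ∀ n, ‖f n‖ ≤ 1) (hM : MRS f) (D : ℕ) (hD : 0 < D) (κ : ℕ × ℕ → ℕ × ℕ → ℂ)
    (hκ : ∀ V V', ‖κ V V'‖ ≤ 2) (hper : ∀ V V' U U' : ℕ × ℕ, V.1 ≡ U.1 [MOD D] → V.2 ≡ U.2 [MOD D] → V'.1 ≡ U'.1 [MOD D] →
      V'.2 ≡ U'.2 [MOD D] → κ V V' = κ U U')
    (c0 C0 B K : ℝ) (hc0 : 0 < c0) (hC0 : c0 ≤ C0) (hB : 0 < B) (hK : C0 ≤ K) (F : ℝ → ℝ → ℝ → ℝ → ℝ)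
    (hF : Continuous (fun v : ℝ × ℝ × ℝ × ℝ => F v.1 v.2.1 v.2.2.1 v.2.2.2))
    (h1 : ∀ x x' τ σ, x ≤ c0 ∨ x' ≤ c0 ∨ C0 ≤ x ∨ C0 ≤ x' ∨ B ≤ |τ| ∨ σ ≤ 0 ∨ B ≤ σ → F x x' τ σ = 0) (ε : ℝ) (hε : 0 < ε) :
    ∃ N0 : ℕ, ∀ N : ℕ, N0 ≤ N → ∀ᶠ Y : ℝ in atTop,
      ‖∑ V ∈ PB (C0 * Real.sqrt Y) (K * Real.sqrt Y), ∑ V' ∈ PB (C0 * Real.sqrt Y) (K * Real.sqrt Y),
        κ V V' * (F2 f V * (starRingEnd ℂ) (F2 f V')) *
        ((F (V.1 / Real.sqrt Y) (V'.1 / Real.sqrt Y) (dirn V) (Y * (dirn V' - dirn V) / N) : ℝ) : ℂ)‖ ≤ ε * N * Y := by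
  classical
  have hC0' : 0 < C0 := hc0.trans_le hC0
  have hK0 : 0 < K := hC0'.trans_le hK
  have hD' : (0 : ℝ) < D := by exact_mod_cast hD
  obtain ⟨C, hC, hcnt⟩ := cntA3 (c0 / 2) C0 K (B + 1) (by linarith) (by linarith) hK0 (by linarith)
  obtain ⟨C', hC', hcnt'⟩ := cntB3 C0 K (⌈B⌉₊ + 1) hC0' hK0 (by positivity)
  set ε1 : ℝ := ε / (4 * C) with hε1
  have hε1' : 0 < ε1 := by positivity
  obtain ⟨I, hI, happ⟩ := appG4 c0 C0 B hc0 hC0 hB F hF h1 ε1 hε1'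
  have hI' : (0 : ℝ) < I := by exact_mod_cast hI
  set Q : Finset (ℕ × ℕ × ℕ × ℕ) :=
    range I ×ˢ range I ×ˢ range (2 * ⌈B⌉₊ * I + 1) ×ˢ range (⌈B⌉₊ * I + 1) with hQ
  set cc : ℕ × ℕ × ℕ × ℕ → ℝ := fun q => F (C0 * q.1 / I) (C0 * q.2.1 / I) ((q.2.2.1 : ℝ) / I - ⌈B⌉₊)
    ((q.2.2.2 : ℝ) / I) with hcc
  set S : ℝ := ∑ q ∈ Q, |cc q| with hS
  have hS0 : 0 ≤ S := sum_nonneg fun _ _ => abs_nonneg _
  set ε2 : ℝ := ε / (32 * (S + 1) * D ^ 4 * C0 ^ 4) with hε2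
  have hε2' : 0 < ε2 := by positivity
  obtain ⟨N0, hN0⟩ := eventually_atTop.1 (arcp3_ev f hM hD hC0' hK hε2' hI)
  refine ⟨max N0 1, fun N hN => ?_⟩
  have hN1 : 1 ≤ N := (le_max_right _ _).trans hN
  have hNr : (0 : ℝ) < N := by exact_mod_cast hN1
  have hlog : ∀ᶠ Y : ℝ in atTop, Real.log Y ≤ ε / (32 * (S + 1) * D ^ 4 * C' * N) * Y := by
    have := Real.isLittleO_log_id_atTop.bound (c := ε / (32 * (S + 1) * D ^ 4 * C' * N)) (by positivity)
    filter_upwards [this, eventually_ge_atTop 1] with Y hY hY1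
    rw [Real.norm_eq_abs, Real.norm_eq_abs, abs_of_nonneg (Real.log_nonneg hY1)] at hY
    simpa only [id, abs_of_pos (lt_of_lt_of_le zero_lt_one hY1)] using hY
  filter_upwards [hN0 N ((le_max_left _ _).trans hN), hcnt N hN1, hcnt' N hN1, eventually_gt_atTop 1,
    hlog] with Y hY1 hY2 hY3 hYone hY4
  have hY0 : 0 < Y := by linarith
  set s : ℝ := Real.sqrt Y with hs
  have hs0 : 0 < s := Real.sqrt_pos.2 hY0
  have hlogY : 0 ≤ Real.log Y := Real.log_nonneg hYone.le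
  set δ : ℝ := N / (I * Y) with hδ
  have hδ0 : 0 < δ := by positivity
  set P := PB (C0 * s) (K * s) with hP
  set w : ℕ × ℕ → ℕ × ℕ → ℂ := fun V V' => F2 f V * (starRingEnd ℂ) (F2 f V') with hw
  have hF2 : ∀ V, ‖F2 f V‖ ≤ 1 := by
    intro V
    unfold F2
    rw [norm_mul, norm_cj]
    exact mul_le_one₀ (hf _) (norm_nonneg _) (hf _)
  have hwb : ∀ V V', ‖w V V'‖ ≤ 1 := by
    intro V V'
    rw [hw]
    dsimp only
    rw [norm_mul, RCLike.norm_conj]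
    exact mul_le_one₀ (hF2 _) (norm_nonneg _) (hF2 _)
  set u : ℕ × ℕ × ℕ × ℕ → ℕ × ℕ → ℕ × ℕ → ℝ := fun q V V' =>
    cell C0 I q.1 (V.1 / s) * cell C0 I q.2.1 (V'.1 / s) * max 0 (1 - |I * (dirn V + ⌈B⌉₊) - q.2.2.1|) *
    max 0 (1 - |I * (Y * (dirn V' - dirn V) / N) - q.2.2.2|) with hu
  set Ap : ℕ × ℕ → ℕ × ℕ → ℝ := fun V V' => ∑ q ∈ Q, cc q * u q V V' with hAp
  have hap : ∀ V ∈ P, ∀ V' ∈ P,
      |F (V.1 / s) (V'.1 / s) (dirn V) (Y * (dirn V' - dirn V) / N) - Ap V V'| ≤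
      if c0 / 2 * s ≤ V.1 ∧ c0 / 2 * s ≤ V'.1 ∧ |dirn V' - dirn V| ≤ (B + 1) * N / Y then ε1 else 0 := by
    intro V hV V' hV'
    rw [hP, mem_PB] at hV hV'
    have b1 : (0 : ℝ) < V.1 := by exact_mod_cast hV.1.1
    have b2 : (0 : ℝ) < V'.1 := by exact_mod_cast hV'.1.1
    have a1 : (0 : ℝ) < V.1 / s := by positivity
    have a2 : (0 : ℝ) < V'.1 / s := by positivity
    have a3 : (V.1 : ℝ) / s ≤ C0 := by
      rw [div_le_iff₀ hs0]
      exact hV.1.2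
    have a4 : (V'.1 : ℝ) / s ≤ C0 := by
      rw [div_le_iff₀ hs0]
      exact hV'.1.2
    have h3 := happ _ _ (dirn V) (Y * (dirn V' - dirn V) / N) a1 a3 a2 a4
    have e1 : Ap V V' = ∑ i ∈ range I, ∑ j ∈ range I, ∑ k ∈ range (2 * ⌈B⌉₊ * I + 1), ∑ l ∈ range (⌈B⌉₊ * I + 1),
        F (C0 * i / I) (C0 * j / I) ((k : ℝ) / I - ⌈B⌉₊) ((l : ℝ) / I) * cell C0 I i (V.1 / s) *
          cell C0 I j (V'.1 / s) * max 0 (1 - |I * (dirn V + ⌈B⌉₊) - k|) *
          max 0 (1 - |I * (Y * (dirn V' - dirn V) / N) - l|) := by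
      rw [hAp]
      dsimp only
      rw [hQ, sum_product]
      apply sum_congr rfl
      intro i _
      rw [sum_product]
      apply sum_congr rfl
      intro j _
      rw [sum_product]
      apply sum_congr rfl
      intro k _
      apply sum_congr rfl
      intro l _
      rw [hcc, hu]
      dsimp only
      ring
    rw [e1]
    refine h3.trans ?_
    split_ifs with b1 b2 b3
    · exact le_rfl
    · exfalso
      apply b2
      obtain ⟨c1, c2, -, c3⟩ := b1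
      rw [le_div_iff₀ hs0] at c1 c2
      refine ⟨c1, c2, ?_⟩
      rw [abs_div, abs_mul, abs_of_pos hY0, abs_of_pos hNr, div_le_iff₀ hNr] at c3
      rw [le_div_iff₀ hY0]
      linarith
    · exact hε1'.le
    · exact le_rfl
  -- first part
  have hfirst : ‖∑ V ∈ P, ∑ V' ∈ P, κ V V' * w V V' *
      (((F (V.1 / s) (V'.1 / s) (dirn V) (Y * (dirn V' - dirn V) / N) : ℝ) : ℂ) - ((Ap V V' : ℝ) : ℂ))‖ ≤
      ε / 2 * N * Y := by
    have e1 : ∀ V ∈ P, ∀ V' ∈ P, ‖κ V V' * w V V' *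
        (((F (V.1 / s) (V'.1 / s) (dirn V) (Y * (dirn V' - dirn V) / N) : ℝ) : ℂ) - ((Ap V V' : ℝ) : ℂ))‖ ≤
        2 * (if c0 / 2 * s ≤ V.1 ∧ c0 / 2 * s ≤ V'.1 ∧ |dirn V' - dirn V| ≤ (B + 1) * N / Y then ε1 else 0) := by
      intro V hV V' hV'
      rw [← Complex.ofReal_sub, norm_mul, Complex.norm_real, Real.norm_eq_abs, norm_mul]
      have h3 := hap V hV V' hV'
      have h4 : ‖κ V V'‖ * ‖w V V'‖ ≤ 2 := by
        have := mul_le_mul (hκ V V') (hwb V V') (norm_nonneg _) (by norm_num)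
        linarith
      exact mul_le_mul h4 h3 (abs_nonneg _) (by norm_num)
    refine (norm_sum_le _ _).trans ?_
    refine (sum_le_sum fun V hV => (norm_sum_le _ _).trans (sum_le_sum fun V' hV' => e1 V hV V' hV')).trans ?_
    rw [← sum_product' P P (fun V V' => 2 * (if c0 / 2 * s ≤ (V.1 : ℝ) ∧ c0 / 2 * s ≤ (V'.1 : ℝ) ∧
      |dirn V' - dirn V| ≤ (B + 1) * N / Y then ε1 else 0)), ← mul_sum, ← sum_filter, sum_const, nsmul_eq_mul]
    have h5 : 2 * (C * N * Y * ε1) = ε / 2 * N * Y := by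
      rw [hε1]
      field_simp
      ring
    rw [← h5]
    exact mul_le_mul_of_nonneg_left (mul_le_mul_of_nonneg_right hY2 hε1'.le) (by norm_num)
  -- second part
  have hsecond : ‖∑ V ∈ P, ∑ V' ∈ P, κ V V' * w V V' * ((Ap V V' : ℝ) : ℂ)‖ ≤ ε / 2 * N * Y := by
    have e1 : ∑ V ∈ P, ∑ V' ∈ P, κ V V' * w V V' * ((Ap V V' : ℝ) : ℂ) =
        ∑ q ∈ Q, ((cc q : ℝ) : ℂ) * ∑ V ∈ P, ∑ V' ∈ P, κ V V' * w V V' * ((u q V V' : ℝ) : ℂ) := by
      have e2 : ∀ V V' : ℕ × ℕ, κ V V' * w V V' * ((Ap V V' : ℝ) : ℂ) =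
          ∑ q ∈ Q, ((cc q : ℝ) : ℂ) * (κ V V' * w V V' * ((u q V V' : ℝ) : ℂ)) := by
        intro V V'
        rw [hAp]
        dsimp only
        rw [Complex.ofReal_sum, mul_sum]
        apply sum_congr rfl
        intro q _
        rw [Complex.ofReal_mul]
        ring
      simp only [e2, mul_sum]
      rw [sum_congr rfl (fun V _ => sum_comm), sum_comm]
    rw [e1]
    refine (norm_sum_le _ _).trans ?_
    set A : ℝ := ε2 * ((N : ℝ) * C0 ^ 2 / I) ^ 2 with hA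
    have hA0 : 0 ≤ A := by positivity
    set M : ℝ := C' * N * Y * Real.log Y with hMd
    have hM0 : 0 ≤ M := by positivity
    have e3 : ∀ q ∈ Q, ‖((cc q : ℝ) : ℂ) * ∑ V ∈ P, ∑ V' ∈ P, κ V V' * w V V' * ((u q V V' : ℝ) : ℂ)‖ ≤
        |cc q| * (8 * ((D : ℝ) ^ 4) * (A / δ + I * δ * M)) := by
      intro q hq
      rw [hQ, mem_product, mem_product, mem_product, mem_range, mem_range, mem_range, mem_range] at hq
      rw [norm_mul, Complex.norm_real, Real.norm_eq_abs]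
      refine mul_le_mul_of_nonneg_left ?_ (abs_nonneg _)
      refine arcp3_term f hf D hD κ hκ hper hC0' hs0 hY0 hNr hq.1 hq.2.1 hδ hA0 hM0 hY1 ?_
      refine le_trans ?_ hY3
      have h7 : ((q.2.2.2 : ℝ) + 1) * δ ≤ (⌈B⌉₊ + 1) * N / Y := by
        have h8 : (q.2.2.2 : ℝ) ≤ ⌈B⌉₊ * I := by
          have : q.2.2.2 ≤ ⌈B⌉₊ * I := by omega
          exact_mod_cast this
        have h9 : (1 : ℝ) ≤ I := by exact_mod_cast hI
        have h10 : (⌈B⌉₊ + 1 : ℝ) * N / Y = ((⌈B⌉₊ + 1) * I) * δ := by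
          rw [hδ]
          field_simp
        rw [h10]
        refine mul_le_mul_of_nonneg_right ?_ hδ0.le
        nlinarith
      refine Nat.cast_le.2 (card_le_card fun e he => ?_)
      rw [mem_filter] at he ⊢
      exact ⟨he.1, he.2.trans h7⟩
    refine (sum_le_sum e3).trans ?_
    rw [← sum_mul, ← hS]
    have e4 : A / δ = ε2 * C0 ^ 4 * N * Y / I := by
      rw [hA, hδ]
      field_simp
    have e4' : I * δ * M = C' * N ^ 2 * Real.log Y := by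
      rw [hMd, hδ]
      field_simp
    rw [e4, e4']
    have e5 : ε2 * C0 ^ 4 * N * Y / I ≤ ε2 * C0 ^ 4 * N * Y := by
      apply div_le_self (by positivity)
      exact_mod_cast hI
    have e5' : C' * N ^ 2 * Real.log Y ≤ C' * N ^ 2 * (ε / (32 * (S + 1) * D ^ 4 * C' * N) * Y) :=
      mul_le_mul_of_nonneg_left hY4 (by positivity)
    have e6 : (S + 1) * (8 * (D : ℝ) ^ 4 * (ε2 * C0 ^ 4 * N * Y +
        C' * N ^ 2 * (ε / (32 * (S + 1) * D ^ 4 * C' * N) * Y))) = ε / 2 * N * Y := by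
      rw [hε2]
      field_simp
      ring
    rw [← e6]
    refine mul_le_mul (by linarith) (mul_le_mul_of_nonneg_left (add_le_add e5 e5') (by positivity)) ?_
      (by linarith)
    have : 0 ≤ C' * N ^ 2 * Real.log Y := by positivity
    positivity
  have hsum : ∑ V ∈ P, ∑ V' ∈ P, κ V V' * (F2 f V * (starRingEnd ℂ) (F2 f V')) *
        ((F (V.1 / s) (V'.1 / s) (dirn V) (Y * (dirn V' - dirn V) / N) : ℝ) : ℂ) =
      ∑ V ∈ P, ∑ V' ∈ P, κ V V' * w V V' *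
        (((F (V.1 / s) (V'.1 / s) (dirn V) (Y * (dirn V' - dirn V) / N) : ℝ) : ℂ) - ((Ap V V' : ℝ) : ℂ)) +
      ∑ V ∈ P, ∑ V' ∈ P, κ V V' * w V V' * ((Ap V V' : ℝ) : ℂ) := by
    rw [← sum_add_distrib]
    apply sum_congr rfl
    intro V _
    rw [← sum_add_distrib]
    apply sum_congr rfl
    intro V' _
    rw [hw]
    dsimp only
    ring
  rw [hsum]
  refine (norm_add_le _ _).trans ((add_le_add hfirst hsecond).trans (le_of_eq ?_))
  ring

end Pool.Agent.Spl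

end

/-! ### from `Lib_MP_92ef0c_la.Arc4` -/

section

/-!
# Pairs of rows with close directions, general functions
-/

set_option autoImplicit false

namespace Pool.Agent.SplL

open Finset Pool.Agent.Spl Pool.Agent.SplB Pool.Agent.GaussMR Pool.Agent.OmAll Pool.Agent.OmEq MeasureTheory Filter

open Classical in
/-- the indicator of an arc as a function of its left end -/
private noncomputable def arci4J (δ s τ : ℝ) : ℝ := if τ ≤ s ∧ s < τ + δ then 1 else 0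

private theorem arci4J_eq (δ s : ℝ) :
    arci4J δ s = (Set.Ioc (s - δ) s).indicator (fun _ => (1 : ℝ)) := by
  classical
  funext τ
  unfold arci4J
  by_cases h : τ ≤ s ∧ s < τ + δ
  · rw [if_pos h, Set.indicator_of_mem]
    exact ⟨by linarith [h.2], h.1⟩
  · rw [if_neg h, Set.indicator_of_notMem]
    rintro ⟨h1, h2⟩
    exact h ⟨h2, by linarith⟩

private theorem arci4J_int (δ s : ℝ) : Integrable (arci4J δ s) := by
  rw [arci4J_eq, integrable_indicator_iff measurableSet_Ioc]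
  exact integrableOn_const (by rw [Real.volume_Ioc]; exact ENNReal.ofReal_ne_top)

private theorem arci4J_meas (δ s : ℝ) : Measurable (arci4J δ s) := by
  rw [arci4J_eq]
  exact measurable_const.indicator measurableSet_Ioc

private theorem arci4J_nonneg (δ s τ : ℝ) : 0 ≤ arci4J δ s τ := by
  classical
  unfold arci4J
  split_ifs <;> norm_num

private theorem arci4J_le (δ s τ : ℝ) : arci4J δ s τ ≤ 1 := by
  classical
  unfold arci4J
  split_ifs <;> norm_num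

private theorem arci4_ov (s s' δ : ℝ) (hδ : 0 < δ) (l : ℕ) :
    ∫ τ : ℝ, arci4J δ s τ * arci4J δ s' (τ + l * δ) = δ * max 0 (1 - |(s' - s) / δ - l|) :=
  arc_overlap3 s s' δ hδ l

private theorem arci4_meas2 (s s' δ c : ℝ) :
    Measurable (fun τ : ℝ => arci4J δ s τ * arci4J δ s' (τ + c)) :=
  (arci4J_meas δ s).mul ((arci4J_meas δ s').comp (measurable_id.add_const c))

private theorem arci4_int2 (s s' δ c : ℝ) (φ : ℝ → ℝ) (hφm : Measurable φ) (B : ℝ) (hB : 0 ≤ B) (hφ : ∀ τ, arci4J δ s τ ≠ 0 → |φ τ| ≤ B) :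
    Integrable (fun τ : ℝ => arci4J δ s τ * arci4J δ s' (τ + c) * φ τ) := by
  refine ((arci4J_int δ s).mul_const B).mono' ((arci4_meas2 s s' δ c).mul hφm).aestronglyMeasurable
    (Filter.Eventually.of_forall (fun τ => ?_))
  rw [Real.norm_eq_abs, abs_mul, abs_mul, abs_of_nonneg (arci4J_nonneg δ s τ),
    abs_of_nonneg (arci4J_nonneg δ s' (τ + c))]
  by_cases h : arci4J δ s τ = 0
  · rw [h, zero_mul, zero_mul, zero_mul]
  · have h1 := hφ τ h
    have h2 := arci4J_nonneg δ s τ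
    have h3 := arci4J_le δ s' (τ + c)
    have h4 := arci4J_nonneg δ s' (τ + c)
    calc arci4J δ s τ * arci4J δ s' (τ + c) * |φ τ| ≤ arci4J δ s τ * 1 * B := by gcongr
      _ = arci4J δ s τ * B := by ring

private theorem arci4_term (s s' δ : ℝ) (hδ : 0 < δ) (l : ℕ) (φ : ℝ → ℝ) (hφm : Measurable φ) (L : ℝ) (hL : 0 ≤ L)
    (hφ : ∀ s t, |φ s - φ t| ≤ L * |s - t|) (hφ1 : ∀ s, |φ s| ≤ 1) :
    |(∫ τ : ℝ, arci4J δ s τ * arci4J δ s' (τ + l * δ) * φ τ) - φ s * (δ * max 0 (1 - |(s' - s) / δ - l|))| ≤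
      L * δ * (δ * max 0 (1 - |(s' - s) / δ - l|)) := by
  have i1 := arci4_int2 s s' δ (l * δ) φ hφm 1 zero_le_one (fun τ _ => hφ1 τ)
  have i2 := arci4_int2 s s' δ (l * δ) (fun _ => φ s) measurable_const 1 zero_le_one (fun _ _ => hφ1 s)
  have i3 := arci4_int2 s s' δ (l * δ) (fun _ => L * δ) measurable_const (L * δ) (by positivity)
    (fun _ _ => by rw [abs_of_nonneg (by positivity)])
  have e0 := arci4_ov s s' δ hδ l
  have e1 : φ s * (δ * max 0 (1 - |(s' - s) / δ - l|)) =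
      ∫ τ : ℝ, arci4J δ s τ * arci4J δ s' (τ + l * δ) * φ s := by
    rw [integral_mul_const, e0]
    ring
  have e2 : L * δ * (δ * max 0 (1 - |(s' - s) / δ - l|)) =
      ∫ τ : ℝ, arci4J δ s τ * arci4J δ s' (τ + l * δ) * (L * δ) := by
    rw [integral_mul_const, e0]
    ring
  rw [e1, e2, ← integral_sub i1 i2, ← Real.norm_eq_abs]
  refine norm_integral_le_of_norm_le i3 (Filter.Eventually.of_forall (fun τ => ?_))
  rw [← mul_sub, Real.norm_eq_abs, abs_mul, abs_mul, abs_of_nonneg (arci4J_nonneg δ s τ),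
    abs_of_nonneg (arci4J_nonneg δ s' (τ + l * δ))]
  by_cases h : arci4J δ s τ = 0
  · rw [h, zero_mul, zero_mul, zero_mul]
  · have h2 := arci4J_nonneg δ s τ
    have h4 := arci4J_nonneg δ s' (τ + l * δ)
    refine mul_le_mul_of_nonneg_left ?_ (mul_nonneg h2 h4)
    refine (hφ τ s).trans (mul_le_mul_of_nonneg_left ?_ hL)
    have h5 : τ ≤ s ∧ s < τ + δ := by
      by_contra h6
      apply h
      unfold arci4J
      exact if_neg h6
    rw [abs_le]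
    exact ⟨by linarith [h5.2], by linarith [h5.1]⟩

open Classical in
private theorem arci4_S2 (β : ℕ × ℕ → ℂ) (m : ℕ) (b : ℕ × ℕ) (C D δ τ : ℝ) :
    S2 β m b C D δ τ = ∑ z ∈ (PB C D).filter (fun z => z.1 ≡ b.1 [MOD m] ∧ z.2 ≡ b.2 [MOD m]),
      β z * ((arci4J δ (dirn z) τ : ℝ) : ℂ) := by
  unfold S2
  rw [Finset.sum_filter, Finset.sum_filter]
  refine Finset.sum_congr rfl (fun z _ => ?_)
  unfold arci4J
  by_cases h1 : z.1 ≡ b.1 [MOD m] ∧ z.2 ≡ b.2 [MOD m]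
  · by_cases h : τ ≤ dirn z ∧ dirn z < τ + δ
    · rw [if_pos h1, if_pos h, if_pos ⟨h1, h⟩, Complex.ofReal_one, mul_one]
    · rw [if_pos h1, if_neg h, if_neg (fun hh => h hh.2), Complex.ofReal_zero, mul_zero]
  · rw [if_neg h1, if_neg (fun hh => h1 hh.1)]

private theorem arci4_max (s s' δ : ℝ) (hδ : 0 < δ) (l : ℕ) (h : ¬ |s' - s| ≤ (l + 1) * δ) :
    max 0 (1 - |(s' - s) / δ - l|) = 0 := by
  push Not at h
  refine max_eq_left ?_
  have h1 : |s' - s| / δ = |(s' - s) / δ| := by rw [abs_div, abs_of_pos hδ]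
  have h2 : (l : ℝ) + 1 < |s' - s| / δ := by
    rw [lt_div_iff₀ hδ]
    exact h
  have h3 : |(s' - s) / δ| ≤ |(s' - s) / δ - l| + |(l : ℝ)| := by
    have := abs_add_le ((s' - s) / δ - l) (l : ℝ)
    rwa [sub_add_cancel] at this
  rw [abs_of_nonneg (Nat.cast_nonneg l : (0 : ℝ) ≤ l)] at h3
  rw [h1] at h2
  linarith

/-- PROOF. Copy of `arc_bound3` (`Lib_MP_92ef0c_sp/ArcI3.lean`; the private lemmas on `arci4J` have to be copied), with `β` in place of `F2 f`. -/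
theorem arc_bound4 (β : ℕ × ℕ → ℂ) (hβ : ∀ z, ‖β z‖ ≤ 1) (m : ℕ) (b b' : ℕ × ℕ) (C D C' D' δ A : ℝ) (hδ : 0 < δ) (l : ℕ)
    (φ : ℝ → ℝ) (L : ℝ) (hL : 0 ≤ L) (hφ : ∀ s t, |φ s - φ t| ≤ L * |s - t|) (hφ1 : ∀ s, |φ s| ≤ 1)
    (h1 : ∫ τ, ‖S2 β m b C D δ τ‖ ^ 2 ≤ A) (h2 : ∫ τ, ‖S2 β m b' C' D' δ τ‖ ^ 2 ≤ A) :
    ‖∑ V ∈ (PB C D).filter (fun z => z.1 ≡ b.1 [MOD m] ∧ z.2 ≡ b.2 [MOD m]),
      ∑ V' ∈ (PB C' D').filter (fun z => z.1 ≡ b'.1 [MOD m] ∧ z.2 ≡ b'.2 [MOD m]),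
      β V * (starRingEnd ℂ) (β V') * ((φ (dirn V) * max 0 (1 - |(dirn V' - dirn V) / δ - l|) : ℝ) : ℂ)‖ ≤
    A / δ + L * δ * (((PB C D ×ˢ PB C' D').filter
      (fun e : (ℕ × ℕ) × (ℕ × ℕ) => |dirn e.2 - dirn e.1| ≤ (l + 1) * δ)).card : ℝ) := by
  have hφc : Continuous φ := by
    have : LipschitzWith (Real.toNNReal L) φ := by
      refine LipschitzWith.of_dist_le_mul (fun x y => ?_)
      rw [Real.dist_eq, Real.dist_eq, Real.coe_toNNReal L hL]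
      exact hφ x y
    exact this.continuous
  have hφm : Measurable φ := hφc.measurable
  set G1 := (PB C D).filter (fun z => z.1 ≡ b.1 [MOD m] ∧ z.2 ≡ b.2 [MOD m]) with hG1
  set G2 := (PB C' D').filter (fun z => z.1 ≡ b'.1 [MOD m] ∧ z.2 ≡ b'.2 [MOD m]) with hG2
  set T1 : ℝ → ℂ := fun τ => S2 β m b C D δ τ with hT1
  set T2 : ℝ → ℂ := fun τ => S2 β m b' C' D' δ (τ + l * δ) with hT2
  have e1 : ∀ τ, T1 τ = ∑ V ∈ G1, β V * ((arci4J δ (dirn V) τ : ℝ) : ℂ) := fun τ => arci4_S2 β m b C D δ τ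
  have e2' : ∀ τ, S2 β m b' C' D' δ τ = ∑ V ∈ G2, β V * ((arci4J δ (dirn V) τ : ℝ) : ℂ) :=
    fun τ => arci4_S2 β m b' C' D' δ τ
  have e2 : ∀ τ, T2 τ = ∑ V ∈ G2, β V * ((arci4J δ (dirn V) (τ + l * δ) : ℝ) : ℂ) :=
    fun τ => arci4_S2 β m b' C' D' δ (τ + l * δ)
  -- general facts for sums of indicators
  have gen : ∀ (G : Finset (ℕ × ℕ)) (S : ℝ → ℂ) (c : ℝ),
      (∀ τ, S τ = ∑ V ∈ G, β V * ((arci4J δ (dirn V) (τ + c) : ℝ) : ℂ)) →
      Measurable S ∧ Integrable (fun τ => ‖S τ‖ ^ 2) := by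
    intro G S c hS
    have hm : Measurable S := by
      have : S = fun τ => ∑ V ∈ G, β V * ((arci4J δ (dirn V) (τ + c) : ℝ) : ℂ) := funext hS
      rw [this]
      refine Finset.measurable_sum _ (fun V _ => ?_)
      exact (Complex.measurable_ofReal.comp ((arci4J_meas δ (dirn V)).comp (measurable_id.add_const c))).const_mul _
    refine ⟨hm, ?_⟩
    have hb : ∀ τ, ‖S τ‖ ≤ ∑ V ∈ G, arci4J δ (dirn V) (τ + c) := by
      intro τ
      rw [hS]
      refine norm_sum_le_of_le _ (fun V _ => ?_)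
      rw [norm_mul, Complex.norm_real, Real.norm_eq_abs, abs_of_nonneg (arci4J_nonneg _ _ _)]
      exact mul_le_of_le_one_left (arci4J_nonneg _ _ _) (hβ V)
    have hb' : ∀ τ, ‖S τ‖ ≤ (G.card : ℝ) := by
      intro τ
      refine (hb τ).trans ?_
      calc ∑ V ∈ G, arci4J δ (dirn V) (τ + c) ≤ ∑ _V ∈ G, (1 : ℝ) := Finset.sum_le_sum (fun V _ => arci4J_le _ _ _)
        _ = (G.card : ℝ) := by rw [Finset.sum_const, nsmul_eq_mul, mul_one]
    have hi : Integrable (fun τ => (G.card : ℝ) * ∑ V ∈ G, arci4J δ (dirn V) (τ + c)) := by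
      refine Integrable.const_mul ?_ _
      exact integrable_finset_sum _ (fun V _ => (arci4J_int δ (dirn V)).comp_add_right c)
    refine hi.mono' (hm.norm.pow_const 2).aestronglyMeasurable (Filter.Eventually.of_forall (fun τ => ?_))
    rw [Real.norm_eq_abs, abs_of_nonneg (by positivity), pow_two]
    exact mul_le_mul (hb' τ) (hb τ) (norm_nonneg _) (Nat.cast_nonneg _)
  obtain ⟨m1, hi1⟩ := gen G1 T1 0 (fun τ => by rw [e1 τ]; simp only [add_zero])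
  obtain ⟨m2, hi2⟩ := gen G2 T2 (l * δ) e2
  have h2' : ∫ τ, ‖T2 τ‖ ^ 2 ≤ A := by
    have k1 := integral_add_right_eq_self (fun τ => ‖S2 β m b' C' D' δ τ‖ ^ 2) ((l : ℝ) * δ) (μ := volume)
    rw [hT2]
    simp only at k1 ⊢
    rw [k1]
    exact h2
  set K : (ℕ × ℕ) → (ℕ × ℕ) → ℝ := fun V V' =>
    ∫ τ : ℝ, arci4J δ (dirn V) τ * arci4J δ (dirn V') (τ + l * δ) * φ τ with hK
  have hmain : ∫ τ, T1 τ * (starRingEnd ℂ) (T2 τ) * ((φ τ : ℝ) : ℂ) =
      ∑ V ∈ G1, ∑ V' ∈ G2, β V * (starRingEnd ℂ) (β V') * ((K V V' : ℝ) : ℂ) := by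
    have k1 : ∀ τ : ℝ, T1 τ * (starRingEnd ℂ) (T2 τ) * ((φ τ : ℝ) : ℂ) = ∑ p ∈ G1 ×ˢ G2,
        (β p.1 * (starRingEnd ℂ) (β p.2)) *
          ((arci4J δ (dirn p.1) τ * arci4J δ (dirn p.2) (τ + l * δ) * φ τ : ℝ) : ℂ) := by
      intro τ
      rw [e1, e2, map_sum, Finset.sum_mul_sum, Finset.sum_mul, Finset.sum_product]
      refine Finset.sum_congr rfl (fun V _ => ?_)
      rw [Finset.sum_mul]
      refine Finset.sum_congr rfl (fun V' _ => ?_)
      rw [map_mul, Complex.conj_ofReal]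
      push_cast
      ring
    have k2 : ∀ p ∈ G1 ×ˢ G2, Integrable (fun τ => (β p.1 * (starRingEnd ℂ) (β p.2)) *
          ((arci4J δ (dirn p.1) τ * arci4J δ (dirn p.2) (τ + l * δ) * φ τ : ℝ) : ℂ)) := by
      intro p _
      exact ((arci4_int2 (dirn p.1) (dirn p.2) δ (l * δ) φ hφm 1 zero_le_one (fun τ _ => hφ1 τ)).ofReal).const_mul _
    simp only [k1]
    rw [integral_finset_sum _ k2, Finset.sum_product]
    refine Finset.sum_congr rfl (fun V _ => Finset.sum_congr rfl (fun V' _ => ?_))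
    rw [integral_const_mul, integral_complex_ofReal]
  have hb : ‖∫ τ, T1 τ * (starRingEnd ℂ) (T2 τ) * ((φ τ : ℝ) : ℂ)‖ ≤ A := by
    calc ‖∫ τ, T1 τ * (starRingEnd ℂ) (T2 τ) * ((φ τ : ℝ) : ℂ)‖
        ≤ ∫ τ, ((1 / 2 : ℝ) * ‖T1 τ‖ ^ 2 + (1 / 2 : ℝ) * ‖T2 τ‖ ^ 2) := by
          refine norm_integral_le_of_norm_le ((hi1.const_mul _).add (hi2.const_mul _)) ?_
          refine Filter.Eventually.of_forall (fun τ => ?_)
          rw [norm_mul, norm_mul, RCLike.norm_conj, Complex.norm_real, Real.norm_eq_abs]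
          have k3 : ‖T1 τ‖ * ‖T2 τ‖ * |φ τ| ≤ ‖T1 τ‖ * ‖T2 τ‖ * 1 :=
            mul_le_mul_of_nonneg_left (hφ1 τ) (by positivity)
          nlinarith [sq_nonneg (‖T1 τ‖ - ‖T2 τ‖)]
      _ = (1 / 2 : ℝ) * (∫ τ, ‖T1 τ‖ ^ 2) + (1 / 2 : ℝ) * (∫ τ, ‖T2 τ‖ ^ 2) := by
          rw [integral_add (hi1.const_mul _) (hi2.const_mul _), integral_const_mul, integral_const_mul]
      _ ≤ A := by linarith
  set T := ∑ V ∈ G1, ∑ V' ∈ G2, β V * (starRingEnd ℂ) (β V') *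
        ((φ (dirn V) * max 0 (1 - |(dirn V' - dirn V) / δ - l|) : ℝ) : ℂ) with hT
  set N : ℝ := (((PB C D ×ˢ PB C' D').filter
      (fun e : (ℕ × ℕ) × (ℕ × ℕ) => |dirn e.2 - dirn e.1| ≤ (l + 1) * δ)).card : ℝ) with hN
  have hdiff : ‖(δ : ℂ) * T - ∫ τ, T1 τ * (starRingEnd ℂ) (T2 τ) * ((φ τ : ℝ) : ℂ)‖ ≤ L * δ ^ 2 * N := by
    have k1 : (δ : ℂ) * T - ∫ τ, T1 τ * (starRingEnd ℂ) (T2 τ) * ((φ τ : ℝ) : ℂ) =
        ∑ p ∈ G1 ×ˢ G2, β p.1 * (starRingEnd ℂ) (β p.2) *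
          ((φ (dirn p.1) * (δ * max 0 (1 - |(dirn p.2 - dirn p.1) / δ - l|)) - K p.1 p.2 : ℝ) : ℂ) := by
      rw [hmain, hT, ← Finset.sum_product', ← Finset.sum_product', Finset.mul_sum, ← Finset.sum_sub_distrib]
      refine Finset.sum_congr rfl (fun p _ => ?_)
      push_cast
      ring
    rw [k1]
    have k2 : ∀ p ∈ G1 ×ˢ G2, ‖β p.1 * (starRingEnd ℂ) (β p.2) *
          ((φ (dirn p.1) * (δ * max 0 (1 - |(dirn p.2 - dirn p.1) / δ - l|)) - K p.1 p.2 : ℝ) : ℂ)‖ ≤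
          if |dirn p.2 - dirn p.1| ≤ (l + 1) * δ then L * δ ^ 2 else 0 := by
      intro p _
      rw [norm_mul, norm_mul, RCLike.norm_conj, Complex.norm_real, Real.norm_eq_abs, abs_sub_comm]
      have k3 := arci4_term (dirn p.1) (dirn p.2) δ hδ l φ hφm L hL hφ hφ1
      have k4 : ‖β p.1‖ * ‖β p.2‖ ≤ 1 := mul_le_one₀ (hβ _) (norm_nonneg _) (hβ _)
      have k5 : ‖β p.1‖ * ‖β p.2‖ *
          |K p.1 p.2 - φ (dirn p.1) * (δ * max 0 (1 - |(dirn p.2 - dirn p.1) / δ - l|))| ≤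
          1 * (L * δ * (δ * max 0 (1 - |(dirn p.2 - dirn p.1) / δ - l|))) :=
        mul_le_mul k4 k3 (abs_nonneg _) zero_le_one
      refine k5.trans ?_
      rw [one_mul]
      by_cases hc : |dirn p.2 - dirn p.1| ≤ (l + 1) * δ
      · rw [if_pos hc]
        have k6 : max 0 (1 - |(dirn p.2 - dirn p.1) / δ - l|) ≤ 1 :=
          max_le zero_le_one (by linarith [abs_nonneg ((dirn p.2 - dirn p.1) / δ - l)])
        calc L * δ * (δ * max 0 (1 - |(dirn p.2 - dirn p.1) / δ - l|)) ≤ L * δ * (δ * 1) := by gcongr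
          _ = L * δ ^ 2 := by ring
      · rw [if_neg hc, arci4_max _ _ δ hδ l hc, mul_zero, mul_zero]
    refine (norm_sum_le_of_le _ k2).trans ?_
    rw [← Finset.sum_filter, Finset.sum_const, nsmul_eq_mul, mul_comm]
    have k7 : ((G1 ×ˢ G2).filter (fun e : (ℕ × ℕ) × (ℕ × ℕ) => |dirn e.2 - dirn e.1| ≤ (l + 1) * δ)).card ≤
        ((PB C D ×ˢ PB C' D').filter
          (fun e : (ℕ × ℕ) × (ℕ × ℕ) => |dirn e.2 - dirn e.1| ≤ (l + 1) * δ)).card := by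
      refine Finset.card_le_card (Finset.filter_subset_filter _ ?_)
      exact Finset.product_subset_product (Finset.filter_subset _ _) (Finset.filter_subset _ _)
    have k8 : (0 : ℝ) ≤ L * δ ^ 2 := by positivity
    refine mul_le_mul_of_nonneg_left ?_ k8
    rw [hN]
    exact_mod_cast k7
  have hfin : ‖(δ : ℂ) * T‖ ≤ A + L * δ ^ 2 * N := by
    have k1 : (δ : ℂ) * T = ((δ : ℂ) * T - ∫ τ, T1 τ * (starRingEnd ℂ) (T2 τ) * ((φ τ : ℝ) : ℂ)) +
        ∫ τ, T1 τ * (starRingEnd ℂ) (T2 τ) * ((φ τ : ℝ) : ℂ) := by ring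
    rw [k1]
    refine (norm_add_le _ _).trans ?_
    linarith
  rw [norm_mul, Complex.norm_real, Real.norm_eq_abs, abs_of_pos hδ] at hfin
  have k9 : A / δ + L * δ * N = (A + L * δ ^ 2 * N) / δ := by
    field_simp
  rw [k9, le_div_iff₀ hδ]
  linarith


open Classical in
/-- bound for one quadruple of cells -/
theorem arcp4_term (g : ℕ × ℕ → ℂ) (hg : ∀ z, ‖g z‖ ≤ 1) (D : ℕ) (hD : 0 < D) (κ : ℕ × ℕ → ℕ × ℕ → ℂ)
    (hκ : ∀ V V', ‖κ V V'‖ ≤ 2) (hper : ∀ V V' U U' : ℕ × ℕ, V.1 ≡ U.1 [MOD D] → V.2 ≡ U.2 [MOD D] →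
      V'.1 ≡ U'.1 [MOD D] → V'.2 ≡ U'.2 [MOD D] → κ V V' = κ U U')
    {C0 K s Y N A δ M : ℝ} (hC0 : 0 < C0) (hs : 0 < s) (hY : 0 < Y) (hN : 0 < N) {I i j k l β : ℕ}
    (hi : i < I) (hj : j < I) (hδ : δ = N / (I * Y)) (hA : 0 ≤ A) (hM : 0 ≤ M)
    (hS : ∀ b ∈ arcp3R D, ∀ k ∈ Icc 1 I,
      ∫ τ, ‖S2 g D b (C0 * s * (k : ℝ) / I) (K * s) δ τ‖ ^ 2 ≤ A)
    (hcnt : (((PB (C0 * s) (K * s) ×ˢ PB (C0 * s) (K * s)).filter
      (fun e : (ℕ × ℕ) × (ℕ × ℕ) => |dirn e.2 - dirn e.1| ≤ (l + 1) * δ)).card : ℝ) ≤ M) :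
    ‖∑ V ∈ PB (C0 * s) (K * s), ∑ V' ∈ PB (C0 * s) (K * s), κ V V' * (g V * (starRingEnd ℂ) (g V')) *
      ((cell C0 I i (V.1 / s) * cell C0 I j (V'.1 / s) * max 0 (1 - |I * (dirn V + β) - k|) *
        max 0 (1 - |I * (Y * (dirn V' - dirn V) / N) - l|) : ℝ) : ℂ)‖ ≤
      8 * ((D : ℝ) ^ 4) * (A / δ + I * δ * M) := by
  have hI : (0 : ℝ) < I := by exact_mod_cast (Nat.zero_le i).trans_lt hi
  have hδ0 : 0 < δ := by
    rw [hδ]
    positivity
  have hE0 : 0 ≤ A / δ + I * δ * M := by positivity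
  have e0 : ∀ V V' : ℕ × ℕ, κ V V' * (g V * (starRingEnd ℂ) (g V')) *
      ((cell C0 I i (V.1 / s) * cell C0 I j (V'.1 / s) * max 0 (1 - |I * (dirn V + β) - k|) *
        max 0 (1 - |I * (Y * (dirn V' - dirn V) / N) - l|) : ℝ) : ℂ) =
      κ V V' * (g V * (starRingEnd ℂ) (g V') * ((max 0 (1 - |I * (dirn V + β) - k|) *
        max 0 (1 - |(dirn V' - dirn V) / δ - l|) : ℝ) : ℂ) *
        ((cell C0 I j (V'.1 / s) : ℝ) : ℂ) * ((cell C0 I i (V.1 / s) : ℝ) : ℂ)) := by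
    intro V V'
    have e1 : (I : ℝ) * (Y * (dirn V' - dirn V) / N) = (dirn V' - dirn V) / δ := by
      rw [hδ]
      field_simp
    rw [e1]
    push_cast
    ring
  simp only [e0]
  rw [arcp3_split2 hD _ κ hper]
  have hcard : ((arcp3R D).card : ℝ) = (D : ℝ) * D := by
    rw [arcp3_card]
    push_cast
    ring
  have hφL : ∀ x y : ℝ, |max 0 (1 - |I * (x + β) - k|) - max 0 (1 - |I * (y + β) - k|)| ≤ I * |x - y| := by
    intro x y
    have g1 : |max 0 (1 - |I * (x + β) - k|) - max 0 (1 - |I * (y + β) - k|)| ≤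
        |(1 - |I * (x + β) - k|) - (1 - |I * (y + β) - k|)| := by
      have := abs_max_sub_max_le_abs (1 - |(I : ℝ) * (x + β) - k|) (1 - |(I : ℝ) * (y + β) - k|) 0
      rwa [max_comm 0, max_comm 0]
    refine g1.trans ?_
    have g2 : (1 - |(I : ℝ) * (x + β) - k|) - (1 - |(I : ℝ) * (y + β) - k|) =
        |(I : ℝ) * (y + β) - k| - |(I : ℝ) * (x + β) - k| := by ring
    rw [g2]
    refine (abs_abs_sub_abs_le_abs_sub _ _).trans (le_of_eq ?_)
    have g3 : (I : ℝ) * (y + β) - k - (I * (x + β) - k) = I * (y - x) := by ring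
    rw [g3, abs_mul, abs_of_pos hI, abs_sub_comm]
  have hφ1 : ∀ x : ℝ, |max 0 (1 - |(I : ℝ) * (x + β) - k|)| ≤ 1 := by
    intro x
    rw [abs_of_nonneg (le_max_left _ _)]
    exact max_le zero_le_one (by linarith [abs_nonneg ((I : ℝ) * (x + β) - k)])
  have hterm : ∀ b ∈ arcp3R D, ∀ b' ∈ arcp3R D, ‖κ b b' *
      ∑ V ∈ (PB (C0 * s) (K * s)).filter (fun z => z.1 ≡ b.1 [MOD D] ∧ z.2 ≡ b.2 [MOD D]),
      ∑ V' ∈ (PB (C0 * s) (K * s)).filter (fun z => z.1 ≡ b'.1 [MOD D] ∧ z.2 ≡ b'.2 [MOD D]),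
        (g V * (starRingEnd ℂ) (g V') * ((max 0 (1 - |I * (dirn V + β) - k|) *
        max 0 (1 - |(dirn V' - dirn V) / δ - l|) : ℝ) : ℂ) *
        ((cell C0 I j (V'.1 / s) : ℝ) : ℂ) * ((cell C0 I i (V.1 / s) : ℝ) : ℂ))‖ ≤
        8 * (A / δ + I * δ * M) := by
    intro b hb b' hb'
    rw [norm_mul]
    have h4 : ‖∑ V ∈ (PB (C0 * s) (K * s)).filter (fun z => z.1 ≡ b.1 [MOD D] ∧ z.2 ≡ b.2 [MOD D]),
      ∑ V' ∈ (PB (C0 * s) (K * s)).filter (fun z => z.1 ≡ b'.1 [MOD D] ∧ z.2 ≡ b'.2 [MOD D]),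
        (g V * (starRingEnd ℂ) (g V') * ((max 0 (1 - |I * (dirn V + β) - k|) *
        max 0 (1 - |(dirn V' - dirn V) / δ - l|) : ℝ) : ℂ) *
        ((cell C0 I j (V'.1 / s) : ℝ) : ℂ) * ((cell C0 I i (V.1 / s) : ℝ) : ℂ))‖ ≤
        4 * (A / δ + I * δ * M) := by
      apply arcp3_cells hC0 hs hi hj (fun z => z.1 ≡ b.1 [MOD D] ∧ z.2 ≡ b.2 [MOD D])
        (fun z => z.1 ≡ b'.1 [MOD D] ∧ z.2 ≡ b'.2 [MOD D])
        (fun V V' => g V * (starRingEnd ℂ) (g V') * ((max 0 (1 - |I * (dirn V + β) - k|) *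
        max 0 (1 - |(dirn V' - dirn V) / δ - l|) : ℝ) : ℂ))
      intro k1 k2 hk1 hk2
      rcases Nat.eq_zero_or_pos k1 with h0 | h0
      · rw [h0, Nat.cast_zero, mul_zero, zero_div, arcp3_PB0, filter_empty, sum_empty, norm_zero]
        exact hE0
      · rcases Nat.eq_zero_or_pos k2 with h0' | h0'
        · rw [h0', Nat.cast_zero, mul_zero, zero_div, arcp3_PB0, filter_empty]
          simp only [sum_empty, sum_const_zero, norm_zero]
          exact hE0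
        · refine (arc_bound4 g hg D b b' _ _ _ _ δ A hδ0 l (fun x => max 0 (1 - |I * (x + β) - k|)) I hI.le
            hφL hφ1 (hS b hb k1 (mem_Icc.2 ⟨h0, hk1⟩)) (hS b' hb' k2 (mem_Icc.2 ⟨h0', hk2⟩))).trans ?_
          have hbox : ∀ m : ℕ, m ≤ I → PB (C0 * s * (m : ℝ) / I) (K * s) ⊆ PB (C0 * s) (K * s) := by
            intro m hm
            apply arcp3_mono _ (le_refl _)
            rw [div_le_iff₀ hI]
            have hm' : (m : ℝ) ≤ I := by exact_mod_cast hm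
            exact mul_le_mul_of_nonneg_left hm' (by positivity)
          have h5 : (((PB (C0 * s * (k1 : ℝ) / I) (K * s) ×ˢ PB (C0 * s * (k2 : ℝ) / I) (K * s)).filter
            (fun e : (ℕ × ℕ) × (ℕ × ℕ) => |dirn e.2 - dirn e.1| ≤ (l + 1) * δ)).card : ℝ) ≤ M := by
            refine le_trans ?_ hcnt
            exact_mod_cast card_le_card (filter_subset_filter _ (product_subset_product (hbox k1 hk1) (hbox k2 hk2)))
          have h6 : (I : ℝ) * δ * _ ≤ I * δ * M := mul_le_mul_of_nonneg_left h5 (by positivity)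
          linarith
    calc _ ≤ 2 * (4 * (A / δ + I * δ * M)) := mul_le_mul (hκ _ _) h4 (norm_nonneg _) (by norm_num)
      _ = 8 * (A / δ + I * δ * M) := by ring
  refine (norm_sum_le _ _).trans ?_
  refine (sum_le_card_nsmul _ _ ((D : ℝ) * D * (8 * (A / δ + I * δ * M))) (fun b hb => ?_)).trans ?_
  · refine (norm_sum_le _ _).trans ?_
    refine (sum_le_card_nsmul _ _ (8 * (A / δ + I * δ * M)) (fun b' hb' => hterm b hb b' hb')).trans ?_
    rw [nsmul_eq_mul, hcard]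
  · rw [nsmul_eq_mul, hcard]
    exact le_of_eq (by ring)

theorem arcp4_ev (g : ℝ → ℕ × ℕ → ℂ) (hM : MRG g) {D : ℕ} (hD : 0 < D) {C0 K ε : ℝ} (hC0 : 0 < C0) (hK : C0 ≤ K)
    (hε : 0 < ε) {I : ℕ} (hI : 1 ≤ I) : ∀ᶠ N : ℕ in atTop, ∀ a : ℝ, 0 < a → ∀ᶠ Y : ℝ in atTop,
      ∀ b ∈ arcp3R D, ∀ k ∈ Icc 1 I,
      ∫ τ, ‖S2 (g (a * Y)) D b (C0 * Real.sqrt Y * (k : ℝ) / I) (K * Real.sqrt Y) (N / (I * Y)) τ‖ ^ 2 ≤
        ε * ((N : ℝ) * C0 ^ 2 / I) ^ 2 := by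
  have hI' : (0 : ℝ) < I := by exact_mod_cast hI
  have hK0 : 0 < K := hC0.trans_le hK
  have h1 : ∀ᶠ N : ℕ in atTop, ∀ b ∈ arcp3R D, ∀ k ∈ Icc 1 I, ∀ a : ℝ, 0 < a → ∀ᶠ X : ℝ in atTop,
      ∫ τ, ‖S2 (g (a * X)) D b (Real.sqrt X) (K * I / (C0 * k) * Real.sqrt X)
        (((N : ℝ) * ((C0 * k / I) ^ 2 / I)) / X) τ‖ ^ 2 ≤
        ε * ((N : ℝ) * ((C0 * k / I) ^ 2 / I)) ^ 2 := by
    rw [eventually_all_finset]
    intro b _
    rw [eventually_all_finset]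
    intro k hk
    have hk1 : (1 : ℝ) ≤ k := by exact_mod_cast (mem_Icc.1 hk).1
    have hk2 : (k : ℝ) ≤ I := by exact_mod_cast (mem_Icc.1 hk).2
    have hK1 : 1 ≤ K * I / (C0 * k) := by
      rw [le_div_iff₀ (by positivity), one_mul]
      exact mul_le_mul hK hk2 (by positivity) hK0.le
    obtain ⟨H0, -, h⟩ := hM D hD b _ hK1 ε hε
    have ht : Tendsto (fun N : ℕ => (N : ℝ) * ((C0 * k / I) ^ 2 / I)) atTop atTop :=
      tendsto_natCast_atTop_atTop.atTop_mul_const (by positivity)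
    filter_upwards [ht.eventually_ge_atTop H0] with N hN
    exact h _ hN
  filter_upwards [h1] with N hN
  intro a ha
  rw [eventually_all_finset]
  intro b hb
  rw [eventually_all_finset]
  intro k hk
  have hk1 : (1 : ℝ) ≤ k := by exact_mod_cast (mem_Icc.1 hk).1
  have hk2 : (k : ℝ) ≤ I := by exact_mod_cast (mem_Icc.1 hk).2
  have hck : 0 < (C0 * k / I) ^ 2 := by positivity
  have ht : Tendsto (fun Y : ℝ => (C0 * k / I) ^ 2 * Y) atTop atTop :=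
    tendsto_id.const_mul_atTop (by positivity)
  filter_upwards [ht.eventually (hN b hb k hk (a / (C0 * k / I) ^ 2) (div_pos ha hck)),
    eventually_gt_atTop 0] with Y hY hY0
  have e0 : a / (C0 * k / I) ^ 2 * ((C0 * k / I) ^ 2 * Y) = a * Y := by
    rw [← mul_assoc, div_mul_cancel₀ _ hck.ne']
  have e1 : Real.sqrt ((C0 * k / I) ^ 2 * Y) = C0 * Real.sqrt Y * k / I := by
    rw [Real.sqrt_mul (by positivity), Real.sqrt_sq (by positivity)]
    ring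
  have e2 : K * I / (C0 * k) * (C0 * Real.sqrt Y * k / I) = K * Real.sqrt Y := by
    field_simp
  have e3 : (N : ℝ) * ((C0 * k / I) ^ 2 / I) / ((C0 * k / I) ^ 2 * Y) = N / (I * Y) := by
    field_simp
  rw [e0, e1, e2, e3] at hY
  refine hY.trans (mul_le_mul_of_nonneg_left (pow_le_pow_left₀ (by positivity) ?_ 2) hε.le)
  rw [mul_div_assoc (N : ℝ)]
  refine mul_le_mul_of_nonneg_left (div_le_div_of_nonneg_right ?_ hI'.le) (Nat.cast_nonneg _)
  refine pow_le_pow_left₀ (by positivity) ?_ 2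
  rw [div_le_iff₀ hI']
  exact mul_le_mul_of_nonneg_left hk2 hC0.le

/-- PROOF. Copy of `arcp3` (`Lib_MP_92ef0c_sp/ArcP3.lean`; `arcp3_split`, `arcp3_split2`, `arcp3_mono`, `arcp3_cell`, `arcp3_cells` can be imported; `arcp3_term`, `arcp3_ev` have to be copied). The box `PB (C0 k sqrt Y / I) (K sqrt Y)` is `PB (sqrt X_k) (K_k sqrt X_k)` with `X_k = (C0 k / I)^2 Y`; the family at `a Y` is the
family at `a_k X_k` with `a_k = a / (C0 k / I)^2`, and in `MRG` the bound `H0` does not depend on `a`. So: `N0` first, then `a`, then `Y` large. -/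
theorem arcp4 (β : ℝ → ℕ × ℕ → ℂ) (hβ : ∀ X z, ‖β X z‖ ≤ 1) (hM : MRG β) (D : ℕ) (hD : 0 < D) (κ : ℕ × ℕ → ℕ × ℕ → ℂ)
    (hκ : ∀ V V', ‖κ V V'‖ ≤ 2) (hper : ∀ V V' U U' : ℕ × ℕ, V.1 ≡ U.1 [MOD D] → V.2 ≡ U.2 [MOD D] → V'.1 ≡ U'.1 [MOD D] →
      V'.2 ≡ U'.2 [MOD D] → κ V V' = κ U U')
    (c0 C0 B K : ℝ) (hc0 : 0 < c0) (hC0 : c0 ≤ C0) (hB : 0 < B) (hK : C0 ≤ K) (F : ℝ → ℝ → ℝ → ℝ → ℝ)
    (hF : Continuous (fun v : ℝ × ℝ × ℝ × ℝ => F v.1 v.2.1 v.2.2.1 v.2.2.2))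
    (h1 : ∀ x x' τ σ, x ≤ c0 ∨ x' ≤ c0 ∨ C0 ≤ x ∨ C0 ≤ x' ∨ B ≤ |τ| ∨ σ ≤ 0 ∨ B ≤ σ → F x x' τ σ = 0) (ε : ℝ) (hε : 0 < ε) :
    ∃ N0 : ℕ, ∀ N : ℕ, N0 ≤ N → ∀ a : ℝ, 0 < a → ∀ᶠ Y : ℝ in atTop,
      ‖∑ V ∈ PB (C0 * Real.sqrt Y) (K * Real.sqrt Y), ∑ V' ∈ PB (C0 * Real.sqrt Y) (K * Real.sqrt Y),
        κ V V' * (β (a * Y) V * (starRingEnd ℂ) (β (a * Y) V')) *
        ((F (V.1 / Real.sqrt Y) (V'.1 / Real.sqrt Y) (dirn V) (Y * (dirn V' - dirn V) / N) : ℝ) : ℂ)‖ ≤ ε * N * Y := by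
  classical
  have hC0' : 0 < C0 := hc0.trans_le hC0
  have hK0 : 0 < K := hC0'.trans_le hK
  have hD' : (0 : ℝ) < D := by exact_mod_cast hD
  obtain ⟨C, hC, hcnt⟩ := cntA3 (c0 / 2) C0 K (B + 1) (by linarith) (by linarith) hK0 (by linarith)
  obtain ⟨C', hC', hcnt'⟩ := cntB3 C0 K (⌈B⌉₊ + 1) hC0' hK0 (by positivity)
  set ε1 : ℝ := ε / (4 * C) with hε1
  have hε1' : 0 < ε1 := by positivity
  obtain ⟨I, hI, happ⟩ := appG4 c0 C0 B hc0 hC0 hB F hF h1 ε1 hε1'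
  have hI' : (0 : ℝ) < I := by exact_mod_cast hI
  set Q : Finset (ℕ × ℕ × ℕ × ℕ) :=
    range I ×ˢ range I ×ˢ range (2 * ⌈B⌉₊ * I + 1) ×ˢ range (⌈B⌉₊ * I + 1) with hQ
  set cc : ℕ × ℕ × ℕ × ℕ → ℝ := fun q => F (C0 * q.1 / I) (C0 * q.2.1 / I) ((q.2.2.1 : ℝ) / I - ⌈B⌉₊)
    ((q.2.2.2 : ℝ) / I) with hcc
  set S : ℝ := ∑ q ∈ Q, |cc q| with hS
  have hS0 : 0 ≤ S := sum_nonneg fun _ _ => abs_nonneg _
  set ε2 : ℝ := ε / (32 * (S + 1) * D ^ 4 * C0 ^ 4) with hε2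
  have hε2' : 0 < ε2 := by positivity
  obtain ⟨N0, hN0⟩ := eventually_atTop.1 (arcp4_ev β hM hD hC0' hK hε2' hI)
  refine ⟨max N0 1, fun N hN a ha => ?_⟩
  have hN1 : 1 ≤ N := (le_max_right _ _).trans hN
  have hNr : (0 : ℝ) < N := by exact_mod_cast hN1
  have hlog : ∀ᶠ Y : ℝ in atTop, Real.log Y ≤ ε / (32 * (S + 1) * D ^ 4 * C' * N) * Y := by
    have := Real.isLittleO_log_id_atTop.bound (c := ε / (32 * (S + 1) * D ^ 4 * C' * N)) (by positivity)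
    filter_upwards [this, eventually_ge_atTop 1] with Y hY hY1
    rw [Real.norm_eq_abs, Real.norm_eq_abs, abs_of_nonneg (Real.log_nonneg hY1)] at hY
    simpa only [id, abs_of_pos (lt_of_lt_of_le zero_lt_one hY1)] using hY
  filter_upwards [hN0 N ((le_max_left _ _).trans hN) a ha, hcnt N hN1, hcnt' N hN1, eventually_gt_atTop 1,
    hlog] with Y hY1 hY2 hY3 hYone hY4
  have hY0 : 0 < Y := by linarith
  set s : ℝ := Real.sqrt Y with hs
  have hs0 : 0 < s := Real.sqrt_pos.2 hY0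
  have hlogY : 0 ≤ Real.log Y := Real.log_nonneg hYone.le
  set δ : ℝ := N / (I * Y) with hδ
  have hδ0 : 0 < δ := by positivity
  set P := PB (C0 * s) (K * s) with hP
  set w : ℕ × ℕ → ℕ × ℕ → ℂ := fun V V' => β (a * Y) V * (starRingEnd ℂ) (β (a * Y) V') with hw
  have hF2 : ∀ V, ‖β (a * Y) V‖ ≤ 1 := fun V => hβ _ V
  have hwb : ∀ V V', ‖w V V'‖ ≤ 1 := by
    intro V V'
    rw [hw]
    dsimp only
    rw [norm_mul, RCLike.norm_conj]
    exact mul_le_one₀ (hF2 _) (norm_nonneg _) (hF2 _)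
  set u : ℕ × ℕ × ℕ × ℕ → ℕ × ℕ → ℕ × ℕ → ℝ := fun q V V' =>
    cell C0 I q.1 (V.1 / s) * cell C0 I q.2.1 (V'.1 / s) * max 0 (1 - |I * (dirn V + ⌈B⌉₊) - q.2.2.1|) *
    max 0 (1 - |I * (Y * (dirn V' - dirn V) / N) - q.2.2.2|) with hu
  set Ap : ℕ × ℕ → ℕ × ℕ → ℝ := fun V V' => ∑ q ∈ Q, cc q * u q V V' with hAp
  have hap : ∀ V ∈ P, ∀ V' ∈ P,
      |F (V.1 / s) (V'.1 / s) (dirn V) (Y * (dirn V' - dirn V) / N) - Ap V V'| ≤
      if c0 / 2 * s ≤ V.1 ∧ c0 / 2 * s ≤ V'.1 ∧ |dirn V' - dirn V| ≤ (B + 1) * N / Y then ε1 else 0 := by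
    intro V hV V' hV'
    rw [hP, mem_PB] at hV hV'
    have b1 : (0 : ℝ) < V.1 := by exact_mod_cast hV.1.1
    have b2 : (0 : ℝ) < V'.1 := by exact_mod_cast hV'.1.1
    have a1 : (0 : ℝ) < V.1 / s := by positivity
    have a2 : (0 : ℝ) < V'.1 / s := by positivity
    have a3 : (V.1 : ℝ) / s ≤ C0 := by
      rw [div_le_iff₀ hs0]
      exact hV.1.2
    have a4 : (V'.1 : ℝ) / s ≤ C0 := by
      rw [div_le_iff₀ hs0]
      exact hV'.1.2
    have h3 := happ _ _ (dirn V) (Y * (dirn V' - dirn V) / N) a1 a3 a2 a4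
    have e1 : Ap V V' = ∑ i ∈ range I, ∑ j ∈ range I, ∑ k ∈ range (2 * ⌈B⌉₊ * I + 1), ∑ l ∈ range (⌈B⌉₊ * I + 1),
        F (C0 * i / I) (C0 * j / I) ((k : ℝ) / I - ⌈B⌉₊) ((l : ℝ) / I) * cell C0 I i (V.1 / s) *
          cell C0 I j (V'.1 / s) * max 0 (1 - |I * (dirn V + ⌈B⌉₊) - k|) *
          max 0 (1 - |I * (Y * (dirn V' - dirn V) / N) - l|) := by
      rw [hAp]
      dsimp only
      rw [hQ, sum_product]
      apply sum_congr rfl
      intro i _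
      rw [sum_product]
      apply sum_congr rfl
      intro j _
      rw [sum_product]
      apply sum_congr rfl
      intro k _
      apply sum_congr rfl
      intro l _
      rw [hcc, hu]
      dsimp only
      ring
    rw [e1]
    refine h3.trans ?_
    split_ifs with b1 b2 b3
    · exact le_rfl
    · exfalso
      apply b2
      obtain ⟨c1, c2, -, c3⟩ := b1
      rw [le_div_iff₀ hs0] at c1 c2
      refine ⟨c1, c2, ?_⟩
      rw [abs_div, abs_mul, abs_of_pos hY0, abs_of_pos hNr, div_le_iff₀ hNr] at c3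
      rw [le_div_iff₀ hY0]
      linarith
    · exact hε1'.le
    · exact le_rfl
  -- first part
  have hfirst : ‖∑ V ∈ P, ∑ V' ∈ P, κ V V' * w V V' *
      (((F (V.1 / s) (V'.1 / s) (dirn V) (Y * (dirn V' - dirn V) / N) : ℝ) : ℂ) - ((Ap V V' : ℝ) : ℂ))‖ ≤
      ε / 2 * N * Y := by
    have e1 : ∀ V ∈ P, ∀ V' ∈ P, ‖κ V V' * w V V' *
        (((F (V.1 / s) (V'.1 / s) (dirn V) (Y * (dirn V' - dirn V) / N) : ℝ) : ℂ) - ((Ap V V' : ℝ) : ℂ))‖ ≤
        2 * (if c0 / 2 * s ≤ V.1 ∧ c0 / 2 * s ≤ V'.1 ∧ |dirn V' - dirn V| ≤ (B + 1) * N / Y then ε1 else 0) := by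
      intro V hV V' hV'
      rw [← Complex.ofReal_sub, norm_mul, Complex.norm_real, Real.norm_eq_abs, norm_mul]
      have h3 := hap V hV V' hV'
      have h4 : ‖κ V V'‖ * ‖w V V'‖ ≤ 2 := by
        have := mul_le_mul (hκ V V') (hwb V V') (norm_nonneg _) (by norm_num)
        linarith
      exact mul_le_mul h4 h3 (abs_nonneg _) (by norm_num)
    refine (norm_sum_le _ _).trans ?_
    refine (sum_le_sum fun V hV => (norm_sum_le _ _).trans (sum_le_sum fun V' hV' => e1 V hV V' hV')).trans ?_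
    rw [← sum_product' P P (fun V V' => 2 * (if c0 / 2 * s ≤ (V.1 : ℝ) ∧ c0 / 2 * s ≤ (V'.1 : ℝ) ∧
      |dirn V' - dirn V| ≤ (B + 1) * N / Y then ε1 else 0)), ← mul_sum, ← sum_filter, sum_const, nsmul_eq_mul]
    have h5 : 2 * (C * N * Y * ε1) = ε / 2 * N * Y := by
      rw [hε1]
      field_simp
      ring
    rw [← h5]
    exact mul_le_mul_of_nonneg_left (mul_le_mul_of_nonneg_right hY2 hε1'.le) (by norm_num)
  -- second part
  have hsecond : ‖∑ V ∈ P, ∑ V' ∈ P, κ V V' * w V V' * ((Ap V V' : ℝ) : ℂ)‖ ≤ ε / 2 * N * Y := by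
    have e1 : ∑ V ∈ P, ∑ V' ∈ P, κ V V' * w V V' * ((Ap V V' : ℝ) : ℂ) =
        ∑ q ∈ Q, ((cc q : ℝ) : ℂ) * ∑ V ∈ P, ∑ V' ∈ P, κ V V' * w V V' * ((u q V V' : ℝ) : ℂ) := by
      have e2 : ∀ V V' : ℕ × ℕ, κ V V' * w V V' * ((Ap V V' : ℝ) : ℂ) =
          ∑ q ∈ Q, ((cc q : ℝ) : ℂ) * (κ V V' * w V V' * ((u q V V' : ℝ) : ℂ)) := by
        intro V V'
        rw [hAp]
        dsimp only
        rw [Complex.ofReal_sum, mul_sum]
        apply sum_congr rfl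
        intro q _
        rw [Complex.ofReal_mul]
        ring
      simp only [e2, mul_sum]
      rw [sum_congr rfl (fun V _ => sum_comm), sum_comm]
    rw [e1]
    refine (norm_sum_le _ _).trans ?_
    set A : ℝ := ε2 * ((N : ℝ) * C0 ^ 2 / I) ^ 2 with hA
    have hA0 : 0 ≤ A := by positivity
    set M : ℝ := C' * N * Y * Real.log Y with hMd
    have hM0 : 0 ≤ M := by positivity
    have e3 : ∀ q ∈ Q, ‖((cc q : ℝ) : ℂ) * ∑ V ∈ P, ∑ V' ∈ P, κ V V' * w V V' * ((u q V V' : ℝ) : ℂ)‖ ≤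
        |cc q| * (8 * ((D : ℝ) ^ 4) * (A / δ + I * δ * M)) := by
      intro q hq
      rw [hQ, mem_product, mem_product, mem_product, mem_range, mem_range, mem_range, mem_range] at hq
      rw [norm_mul, Complex.norm_real, Real.norm_eq_abs]
      refine mul_le_mul_of_nonneg_left ?_ (abs_nonneg _)
      refine arcp4_term (β (a * Y)) (hβ _) D hD κ hκ hper hC0' hs0 hY0 hNr hq.1 hq.2.1 hδ hA0 hM0 hY1 ?_
      refine le_trans ?_ hY3
      have h7 : ((q.2.2.2 : ℝ) + 1) * δ ≤ (⌈B⌉₊ + 1) * N / Y := by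
        have h8 : (q.2.2.2 : ℝ) ≤ ⌈B⌉₊ * I := by
          have : q.2.2.2 ≤ ⌈B⌉₊ * I := by omega
          exact_mod_cast this
        have h9 : (1 : ℝ) ≤ I := by exact_mod_cast hI
        have h10 : (⌈B⌉₊ + 1 : ℝ) * N / Y = ((⌈B⌉₊ + 1) * I) * δ := by
          rw [hδ]
          field_simp
        rw [h10]
        refine mul_le_mul_of_nonneg_right ?_ hδ0.le
        nlinarith
      refine Nat.cast_le.2 (card_le_card fun e he => ?_)
      rw [mem_filter] at he ⊢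
      exact ⟨he.1, he.2.trans h7⟩
    refine (sum_le_sum e3).trans ?_
    rw [← sum_mul, ← hS]
    have e4 : A / δ = ε2 * C0 ^ 4 * N * Y / I := by
      rw [hA, hδ]
      field_simp
    have e4' : I * δ * M = C' * N ^ 2 * Real.log Y := by
      rw [hMd, hδ]
      field_simp
    rw [e4, e4']
    have e5 : ε2 * C0 ^ 4 * N * Y / I ≤ ε2 * C0 ^ 4 * N * Y := by
      apply div_le_self (by positivity)
      exact_mod_cast hI
    have e5' : C' * N ^ 2 * Real.log Y ≤ C' * N ^ 2 * (ε / (32 * (S + 1) * D ^ 4 * C' * N) * Y) :=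
      mul_le_mul_of_nonneg_left hY4 (by positivity)
    have e6 : (S + 1) * (8 * (D : ℝ) ^ 4 * (ε2 * C0 ^ 4 * N * Y +
        C' * N ^ 2 * (ε / (32 * (S + 1) * D ^ 4 * C' * N) * Y))) = ε / 2 * N * Y := by
      rw [hε2]
      field_simp
      ring
    rw [← e6]
    refine mul_le_mul (by linarith) (mul_le_mul_of_nonneg_left (add_le_add e5 e5') (by positivity)) ?_
      (by linarith)
    have : 0 ≤ C' * N ^ 2 * Real.log Y := by positivity
    positivity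
  have hsum : ∑ V ∈ P, ∑ V' ∈ P, κ V V' * (β (a * Y) V * (starRingEnd ℂ) (β (a * Y) V')) *
        ((F (V.1 / s) (V'.1 / s) (dirn V) (Y * (dirn V' - dirn V) / N) : ℝ) : ℂ) =
      ∑ V ∈ P, ∑ V' ∈ P, κ V V' * w V V' *
        (((F (V.1 / s) (V'.1 / s) (dirn V) (Y * (dirn V' - dirn V) / N) : ℝ) : ℂ) - ((Ap V V' : ℝ) : ℂ)) +
      ∑ V ∈ P, ∑ V' ∈ P, κ V V' * w V V' * ((Ap V V' : ℝ) : ℂ) := by
    rw [← sum_add_distrib]
    apply sum_congr rfl
    intro V _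
    rw [← sum_add_distrib]
    apply sum_congr rfl
    intro V' _
    rw [hw]
    dsimp only
    ring
  rw [hsum]
  refine (norm_add_le _ _).trans ((add_le_add hfirst hsecond).trans (le_of_eq ?_))
  ring

end Pool.Agent.SplL

end

/-! ### from `Lib_MP_92ef0c_sp.QdS3` -/

section

/-!
# Stage B: from arcs to weighted sums over the determinants
-/

set_option autoImplicit false

namespace Pool.Agent.Spl

open Finset Pool.Agent.GaussMR Pool.Agent.OmAll Pool.Agent.OmEq MeasureTheory Filter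

/-! ### weights -/

/-- the weight of a pair in terms of the first coordinates and the directions -/
noncomputable def q3C (h : ℝ → ℝ) (η X X' τ σ : ℝ) : ℝ :=
  qdsW η (X * X' * Real.exp τ * σ) * h (X * X' * Real.exp τ) ^ 2 *
    (ps0 (Real.log X' - Real.log X + τ) * ps0 (Real.log X' - Real.log X - τ))

theorem q3_ps0_lip (s s' : ℝ) : |ps0 s - ps0 s'| ≤ |s - s'| := by
  unfold ps0
  rw [max_comm 0, max_comm 0]
  refine (abs_max_sub_max_le_abs _ _ _).trans ?_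
  have e1 : (1 - |s|) - (1 - |s'|) = |s'| - |s| := by ring
  rw [e1, abs_sub_comm s s']
  exact abs_abs_sub_abs_le_abs_sub _ _

theorem q3_exp_lt {x : ℝ} (hx : x < 1) : Real.exp x < 4 :=
  (Real.exp_lt_exp.2 hx).trans_le qds_exp1

theorem q3C_supp {h : ℝ → ℝ} {h1 h2 : ℝ} (hh : HF h h1 h2) {η X X' τ σ : ℝ} (hη : 0 < η) (hX : 0 < X) (hX' : 0 < X')
    (hne : q3C h η X X' τ σ ≠ 0) :
    h1 < 4 * X ^ 2 ∧ h1 < 4 * X' ^ 2 ∧ X ^ 2 < 4 * h2 ∧ X' ^ 2 < 4 * h2 ∧ |τ| < 1 ∧ 0 < σ ∧ σ < 1 / h1 := by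
  have h1p := hh.pos
  unfold q3C at hne
  have nab := right_ne_zero_of_mul hne
  have n12 := left_ne_zero_of_mul hne
  have n1 := left_ne_zero_of_mul n12
  have na := qds_ps0_ne (left_ne_zero_of_mul nab)
  have nb := qds_ps0_ne (right_ne_zero_of_mul nab)
  have n2 : h (X * X' * Real.exp τ) ≠ 0 := by
    intro h0
    apply right_ne_zero_of_mul n12
    rw [h0]
    norm_num
  set y := X * X' * Real.exp τ with hy
  have lo : h1 < y := by
    by_contra hc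
    exact n2 (hh.lo _ (not_lt.1 hc))
  have hi : y < h2 := by
    by_contra hc
    exact n2 (hh.hi _ (not_lt.1 hc))
  set L := Real.log X' - Real.log X with hL
  rw [abs_lt] at na nb
  have eL : Real.exp L = X' / X := by
    rw [hL, Real.exp_sub, Real.exp_log hX', Real.exp_log hX]
  have y1 : y = X ^ 2 * Real.exp (L + τ) := by
    rw [hy, Real.exp_add, eL]
    field_simp
  have y2 : y = X' ^ 2 * Real.exp (-(L - τ)) := by
    have e2 : -(L - τ) = -L + τ := by ring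
    rw [hy, e2, Real.exp_add, Real.exp_neg, eL]
    field_simp
  have y3 : X ^ 2 = y * Real.exp (-(L + τ)) := by
    rw [y1, mul_assoc, ← Real.exp_add]
    simp
  have y4 : X' ^ 2 = y * Real.exp (L - τ) := by
    rw [y2, mul_assoc, ← Real.exp_add]
    simp
  have E1 := q3_exp_lt na.2
  have E2 := q3_exp_lt (by linarith [na.1] : -(L + τ) < 1)
  have E3 := q3_exp_lt nb.2
  have E4 := q3_exp_lt (by linarith [nb.1] : -(L - τ) < 1)
  have hy0 : 0 < y := h1p.trans lo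
  refine ⟨?_, ?_, ?_, ?_, ?_, ?_, ?_⟩
  · have : X ^ 2 * Real.exp (L + τ) < X ^ 2 * 4 := mul_lt_mul_of_pos_left E1 (by positivity)
    rw [← y1] at this
    linarith
  · have : X' ^ 2 * Real.exp (-(L - τ)) < X' ^ 2 * 4 := mul_lt_mul_of_pos_left E4 (by positivity)
    rw [← y2] at this
    linarith
  · rw [y3]
    have : y * Real.exp (-(L + τ)) < y * 4 := mul_lt_mul_of_pos_left E2 hy0
    linarith
  · rw [y4]
    have : y * Real.exp (L - τ) < y * 4 := mul_lt_mul_of_pos_left E3 hy0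
    linarith
  · rw [abs_lt]
    constructor <;> linarith [na.1, na.2, nb.1, nb.2]
  · by_contra hc
    apply n1
    apply qdsW_lo hη
    exact mul_nonpos_of_nonneg_of_nonpos hy0.le (not_lt.1 hc)
  · by_contra hc
    apply n1
    apply qdsW_hi
    have h3 : h1 * (1 / h1) = 1 := by field_simp
    rw [← h3]
    exact mul_le_mul lo.le (not_lt.1 hc) (by positivity) hy0.le

/-- the weight of `arcp3` -/
noncomputable def q3F (h : ℝ → ℝ) (η c x x' τ σ : ℝ) : ℝ := q3C h η (max x c) (max x' c) τ σ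

theorem q3F_cont {h : ℝ → ℝ} (hh : Continuous h) (η : ℝ) {c : ℝ} (hc : 0 < c) :
    Continuous (fun v : ℝ × ℝ × ℝ × ℝ => q3F h η c v.1 v.2.1 v.2.2.1 v.2.2.2) := by
  have c1 : Continuous (fun v : ℝ × ℝ × ℝ × ℝ => max v.1 c) := continuous_fst.max continuous_const
  have c2 : Continuous (fun v : ℝ × ℝ × ℝ × ℝ => max v.2.1 c) :=
    (continuous_fst.comp continuous_snd).max continuous_const
  have c3 : Continuous (fun v : ℝ × ℝ × ℝ × ℝ => v.2.2.1) :=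
    continuous_fst.comp (continuous_snd.comp continuous_snd)
  have c4 : Continuous (fun v : ℝ × ℝ × ℝ × ℝ => v.2.2.2) :=
    continuous_snd.comp (continuous_snd.comp continuous_snd)
  have c5 : Continuous (fun v : ℝ × ℝ × ℝ × ℝ => Real.log (max v.1 c)) :=
    c1.log (fun v => (lt_of_lt_of_le hc (le_max_right _ _)).ne')
  have c6 : Continuous (fun v : ℝ × ℝ × ℝ × ℝ => Real.log (max v.2.1 c)) :=
    c2.log (fun v => (lt_of_lt_of_le hc (le_max_right _ _)).ne')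
  have c7 : Continuous (fun v : ℝ × ℝ × ℝ × ℝ => max v.1 c * max v.2.1 c * Real.exp v.2.2.1) :=
    (c1.mul c2).mul c3.rexp
  have c8 : Continuous (fun v : ℝ × ℝ × ℝ × ℝ => Real.log (max v.2.1 c) - Real.log (max v.1 c) + v.2.2.1) :=
    (c6.sub c5).add c3
  have c9 : Continuous (fun v : ℝ × ℝ × ℝ × ℝ => Real.log (max v.2.1 c) - Real.log (max v.1 c) - v.2.2.1) :=
    (c6.sub c5).sub c3
  unfold q3F q3C
  exact (((qdsW_cont η).comp (c7.mul c4)).mul ((hh.comp c7).pow 2)).mul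
    ((qds_ps0_cont.comp c8).mul (qds_ps0_cont.comp c9))

theorem q3F_van {h : ℝ → ℝ} {h1 h2 : ℝ} (hh : HF h h1 h2) {η : ℝ} (hη : 0 < η) (x x' τ σ : ℝ)
    (hv : x ≤ Real.sqrt h1 / 4 ∨ x' ≤ Real.sqrt h1 / 4 ∨ 4 * Real.sqrt h2 ≤ x ∨ 4 * Real.sqrt h2 ≤ x' ∨
      1 + 1 / h1 ≤ |τ| ∨ σ ≤ 0 ∨ 1 + 1 / h1 ≤ σ) :
    q3F h η (Real.sqrt h1 / 4) x x' τ σ = 0 := by
  have h1p := hh.pos
  have h2p := hh.one
  have hs1 : 0 < Real.sqrt h1 := Real.sqrt_pos.2 h1p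
  have hs2 : 0 < Real.sqrt h2 := Real.sqrt_pos.2 (by linarith)
  have q1 : Real.sqrt h1 ^ 2 = h1 := Real.sq_sqrt h1p.le
  have q2 : Real.sqrt h2 ^ 2 = h2 := Real.sq_sqrt (by linarith)
  have hc : 0 < Real.sqrt h1 / 4 := by positivity
  have hX : 0 < max x (Real.sqrt h1 / 4) := lt_of_lt_of_le hc (le_max_right _ _)
  have hX' : 0 < max x' (Real.sqrt h1 / 4) := lt_of_lt_of_le hc (le_max_right _ _)
  have h1i : 0 < 1 / h1 := by positivity
  by_contra hne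
  obtain ⟨s1, s2, s3, s4, s5, s6, s7⟩ := q3C_supp hh hη hX hX' hne
  rcases hv with hv | hv | hv | hv | hv | hv | hv
  · rw [max_eq_right hv] at s1
    nlinarith
  · rw [max_eq_right hv] at s2
    nlinarith
  · have := le_max_left x (Real.sqrt h1 / 4)
    have h3 : 4 * Real.sqrt h2 ≤ max x (Real.sqrt h1 / 4) := hv.trans this
    nlinarith
  · have := le_max_left x' (Real.sqrt h1 / 4)
    have h3 : 4 * Real.sqrt h2 ≤ max x' (Real.sqrt h1 / 4) := hv.trans this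
    nlinarith
  · linarith
  · linarith
  · linarith

theorem q3F_eq {h : ℝ → ℝ} {h1 h2 : ℝ} (hh : HF h h1 h2) {η : ℝ} (hη : 0 < η) {x x' : ℝ} (τ σ : ℝ)
    (hx : 0 < x) (hx' : 0 < x') :
    q3F h η (Real.sqrt h1 / 4) x x' τ σ = q3C h η x x' τ σ := by
  by_cases hc : Real.sqrt h1 / 4 ≤ x ∧ Real.sqrt h1 / 4 ≤ x'
  · unfold q3F
    rw [max_eq_left hc.1, max_eq_left hc.2]
  · have h0 : q3F h η (Real.sqrt h1 / 4) x x' τ σ = 0 := by
      apply q3F_van hh hη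
      by_contra hn
      apply hc
      constructor
      · by_contra h3
        exact hn (Or.inl (not_le.1 h3).le)
      · by_contra h3
        exact hn (Or.inr (Or.inl (not_le.1 h3).le))
    rw [h0]
    by_contra hne
    have hne' := Ne.symm hne
    obtain ⟨s1, s2, -, -, -, -, -⟩ := q3C_supp hh hη hx hx' hne'
    have h1p := hh.pos
    have hs1 : 0 < Real.sqrt h1 := Real.sqrt_pos.2 h1p
    have q1 : Real.sqrt h1 ^ 2 = h1 := Real.sq_sqrt h1p.le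
    apply hc
    constructor
    · by_contra h3
      have h4 := not_le.1 h3
      nlinarith
    · by_contra h3
      have h4 := not_le.1 h3
      nlinarith

/-! ### pairs and matrices -/

/-- the periodic factor -/
noncomputable def q3K (D : ℕ) (V V' : ℕ × ℕ) : ℂ := if V.1 * V'.2 ≡ V.2 * V'.1 [MOD D] then 1 else 0

theorem q3K_bd1 (D : ℕ) (V V' : ℕ × ℕ) : ‖q3K D V V'‖ ≤ 1 := by
  unfold q3K
  split_ifs <;> simp

theorem q3K_bd (D : ℕ) (V V' : ℕ × ℕ) : ‖q3K D V V'‖ ≤ 2 := (q3K_bd1 D V V').trans (by norm_num)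

theorem q3K_per (D : ℕ) (V V' U U' : ℕ × ℕ) (h1 : V.1 ≡ U.1 [MOD D]) (h2 : V.2 ≡ U.2 [MOD D])
    (h3 : V'.1 ≡ U'.1 [MOD D]) (h4 : V'.2 ≡ U'.2 [MOD D]) : q3K D V V' = q3K D U U' := by
  have a1 : V.1 * V'.2 ≡ U.1 * U'.2 [MOD D] := h1.mul h4
  have a2 : V.2 * V'.1 ≡ U.2 * U'.1 [MOD D] := h2.mul h3
  have hP : (V.1 * V'.2 ≡ V.2 * V'.1 [MOD D]) ↔ (U.1 * U'.2 ≡ U.2 * U'.1 [MOD D]) :=
    ⟨fun h => (a1.symm.trans h).trans a2, fun h => (a1.trans h).trans a2.symm⟩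
  unfold q3K
  by_cases hp : V.1 * V'.2 ≡ V.2 * V'.1 [MOD D]
  · rw [if_pos hp, if_pos (hP.1 hp)]
  · rw [if_neg hp, if_neg (fun h => hp (hP.2 h))]

/-- the matrix of a pair -/
def mk4 (e : (ℕ × ℕ) × (ℕ × ℕ)) : Q4 := ⟨e.1.1, e.1.2, e.2.1, e.2.2⟩

/-- the rows of a matrix -/
def un4 (e : Q4) : (ℕ × ℕ) × (ℕ × ℕ) := ((e.a, e.b), (e.c, e.d))

theorem mk4_un4 (e : Q4) : mk4 (un4 e) = e := rfl

theorem un4_mk4 (e : (ℕ × ℕ) × (ℕ × ℕ)) : un4 (mk4 e) = e := rfl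

theorem un4_inj : Function.Injective un4 := fun e f h => by
  rw [← mk4_un4 e, h, mk4_un4]

theorem mem_un4 {s : Finset Q4} {e : (ℕ × ℕ) × (ℕ × ℕ)} : e ∈ s.image un4 ↔ mk4 e ∈ s := by
  rw [mem_image]
  constructor
  · rintro ⟨q, hq, rfl⟩
    exact hq
  · intro h
    exact ⟨mk4 e, h, rfl⟩

/-- the weight of a pair in the sums `Qs3` -/
noncomputable def q3T (h : ℝ → ℝ) (N : ℕ) (Y : ℝ) (e : (ℕ × ℕ) × (ℕ × ℕ)) : ℝ :=
  if e.1.2 * e.2.1 < e.1.1 * e.2.2 ∧ e.1.1 * e.2.2 ≤ e.1.2 * e.2.1 + N then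
    ww (((e.1.1 : ℝ) * e.2.2 - e.1.2 * e.2.1) / N) * h ((e.1.2 : ℝ) * e.2.1 / Y) ^ 2 *
      (ps0 (Real.log e.2.2 - Real.log e.1.1) * ps0 (Real.log e.2.1 - Real.log e.1.2)) else 0

theorem q3_box {p q M h2 Y : ℝ} (hp : 0 < p) (hq : 0 < q) (hl : |Real.log q - Real.log p| < 1) (hM : p * q ≤ M)
    (hM2 : M ≤ 2 * (h2 * Y)) (h2p : 0 ≤ h2) (hY : 0 ≤ Y) :
    p ≤ 4 * Real.sqrt h2 * Real.sqrt Y ∧ q ≤ 4 * Real.sqrt h2 * Real.sqrt Y := by
  obtain ⟨r1, r2⟩ := qds_ratio hp hq hl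
  have e1 : (4 * Real.sqrt h2 * Real.sqrt Y) ^ 2 = 16 * (h2 * Y) := by
    rw [mul_pow, mul_pow, Real.sq_sqrt h2p, Real.sq_sqrt hY]
    ring
  have hz : 0 ≤ h2 * Y := mul_nonneg h2p hY
  constructor
  · apply le_of_sq_le_sq _ (by positivity)
    rw [e1]
    nlinarith
  · apply le_of_sq_le_sq _ (by positivity)
    rw [e1]
    nlinarith

theorem q3_F4 (f : ℕ → ℂ) (e : (ℕ × ℕ) × (ℕ × ℕ)) :
    F4 f (cj f) (cj f) f (mk4 e) = F2 f e.1 * (starRingEnd ℂ) (F2 f e.2) := by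
  unfold F4 F2 mk4 cj
  simp only [map_mul, Complex.conj_conj]
  ring

theorem q3_sum (f : ℕ → ℂ) (D : ℕ) {h : ℝ → ℝ} {h1 h2 : ℝ} (hh : HF h h1 h2) {N : ℕ} {Y : ℝ}
    (hY : (N : ℝ) ≤ Y) (hY0 : 0 < Y) :
    ∑ n ∈ (Icc 1 N).filter (fun n => D ∣ n), ((ww ((n : ℝ) / N) : ℝ) : ℂ) *
      Qs3 f n (h2 * Y) (Wh (fun y => h y ^ 2)) Y =
    ∑ e ∈ PB (4 * Real.sqrt h2 * Real.sqrt Y) (4 * Real.sqrt h2 * Real.sqrt Y) ×ˢ
        PB (4 * Real.sqrt h2 * Real.sqrt Y) (4 * Real.sqrt h2 * Real.sqrt Y),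
      q3K D e.1 e.2 * (F2 f e.1 * (starRingEnd ℂ) (F2 f e.2)) * ((q3T h N Y e : ℝ) : ℂ) := by
  classical
  have h2p := hh.one
  set R := 4 * Real.sqrt h2 * Real.sqrt Y with hR
  set P := PB R R ×ˢ PB R R with hP
  set T : (ℕ × ℕ) × (ℕ × ℕ) → ℂ := fun e => q3K D e.1 e.2 * (F2 f e.1 * (starRingEnd ℂ) (F2 f e.2)) *
      ((q3T h N Y e : ℝ) : ℂ) with hT
  have e1 : ∀ e ∈ P, T e = ∑ n ∈ Icc 1 N, if e.1.1 * e.2.2 = e.1.2 * e.2.1 + n then T e else 0 := by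
    intro e _
    by_cases hc : e.1.2 * e.2.1 < e.1.1 * e.2.2 ∧ e.1.1 * e.2.2 ≤ e.1.2 * e.2.1 + N
    · rw [sum_eq_single (e.1.1 * e.2.2 - e.1.2 * e.2.1)]
      · rw [if_pos (by omega)]
      · intro n _ hn
        rw [if_neg (by omega)]
      · intro h3
        exfalso
        apply h3
        rw [mem_Icc]
        omega
    · have h0 : T e = 0 := by
        rw [hT]
        dsimp only
        unfold q3T
        rw [if_neg hc, Complex.ofReal_zero, mul_zero]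
      rw [h0]
      symm
      apply sum_eq_zero
      intro n _
      rw [ite_self]
  rw [sum_congr rfl e1, sum_comm, sum_filter]
  apply sum_congr rfl
  intro n hn
  rw [mem_Icc] at hn
  have hn0 : 0 < n := hn.1
  have hnN : (n : ℝ) ≤ N := by exact_mod_cast hn.2
  rw [← sum_filter]
  have hKn : ∀ e : (ℕ × ℕ) × (ℕ × ℕ), e.1.1 * e.2.2 = e.1.2 * e.2.1 + n →
      ((e.1.1 * e.2.2 ≡ e.1.2 * e.2.1 [MOD D]) ↔ D ∣ n) := by
    intro e he
    rw [he]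
    constructor
    · intro h3
      have h4 : e.1.2 * e.2.1 + n ≡ e.1.2 * e.2.1 + 0 [MOD D] := h3
      exact (Nat.modEq_zero_iff_dvd).1 (Nat.ModEq.add_left_cancel' _ h4)
    · intro h3
      have h4 : n ≡ 0 [MOD D] := (Nat.modEq_zero_iff_dvd).2 h3
      exact h4.add_left (e.1.2 * e.2.1)
  split_ifs with hdn
  · unfold Qs3
    rw [mul_sum]
    have him : ∑ i ∈ SN n (h2 * Y), ((ww ((n : ℝ) / N) : ℝ) : ℂ) * (F4 f (cj f) (cj f) f i *
        Wh (fun y => h y ^ 2) (yS i / Y) (tS i) (uS i)) =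
      ∑ e ∈ (SN n (h2 * Y)).image un4, ((ww ((n : ℝ) / N) : ℝ) : ℂ) * (F4 f (cj f) (cj f) f (mk4 e) *
        Wh (fun y => h y ^ 2) (yS (mk4 e) / Y) (tS (mk4 e)) (uS (mk4 e))) := by
      rw [sum_image (fun x _ y _ hxy => un4_inj hxy)]
      simp only [mk4_un4]
    rw [him]
    apply sum_congr_of_eq_on_inter
    · intro e he hne
      rw [mem_un4, mem_SN] at he
      obtain ⟨hEn, hm⟩ := he
      have hnP : e ∉ P := by
        intro h3
        exact hne (mem_filter.2 ⟨h3, hEn.1⟩)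
      obtain ⟨k1, k2, k3, k4, k5, k6, k7⟩ := hEn
      by_cases hps : ps0 (tS (mk4 e)) = 0
      · unfold Wh
        rw [hps]
        simp
      · by_cases hpu : ps0 (uS (mk4 e)) = 0
        · unfold Wh
          rw [hpu]
          simp
        · by_cases hh0 : h (yS (mk4 e) / Y) = 0
          · unfold Wh
            dsimp only
            rw [hh0]
            simp
          · exfalso
            apply hnP
            have ht := qds_ps0_ne hps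
            have hu := qds_ps0_ne hpu
            unfold tS mk4 at ht
            unfold uS mk4 at hu
            dsimp only at ht hu
            unfold yS mk4 at hm
            dsimp only at hm
            unfold mk4 at k1 k2 k3 k4 k5 k6 k7
            dsimp only at k1 k2 k3 k4 k5 k6 k7
            have k2' : (0 : ℝ) < e.1.1 := by exact_mod_cast k2
            have k3' : (0 : ℝ) < e.1.2 := by exact_mod_cast k3
            have k4' : (0 : ℝ) < e.2.1 := by exact_mod_cast k4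
            have k5' : (0 : ℝ) < e.2.2 := by exact_mod_cast k5
            have k1' : (e.1.1 : ℝ) * e.2.2 = e.1.2 * e.2.1 + n := by exact_mod_cast k1
            have hz : Y ≤ h2 * Y := by nlinarith
            obtain ⟨b1, b2⟩ := q3_box k2' k5' ht le_rfl (by linarith : (e.1.1 : ℝ) * e.2.2 ≤ 2 * (h2 * Y))
              (by linarith) hY0.le
            obtain ⟨b3, b4⟩ := q3_box k3' k4' hu le_rfl (by linarith : (e.1.2 : ℝ) * e.2.1 ≤ 2 * (h2 * Y))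
              (by linarith) hY0.le
            rw [hP, mem_product, mem_PB, mem_PB]
            exact ⟨⟨⟨k2, b1⟩, ⟨k3, b3⟩, k6⟩, ⟨⟨k4, b4⟩, ⟨k5, b2⟩, k7⟩⟩
    · intro e he hne
      rw [mem_filter, hP, mem_product, mem_PB, mem_PB] at he
      obtain ⟨⟨⟨⟨p1, -⟩, ⟨p2, -⟩, p3⟩, ⟨⟨p4, -⟩, ⟨p5, -⟩, p6⟩⟩, hdet⟩ := he
      rw [mem_un4, mem_SN] at hne
      rw [hT]
      dsimp only
      have hm : ¬ yS (mk4 e) ≤ h2 * Y := by
        intro h3
        apply hne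
        exact ⟨⟨hdet, p1, p2, p4, p5, p3, p6⟩, h3⟩
      have hz : h ((e.1.2 : ℝ) * e.2.1 / Y) = 0 := by
        apply hh.hi
        rw [le_div_iff₀ hY0]
        exact (not_le.1 hm).le
      unfold q3T
      rw [hz]
      simp
    · intro e he he'
      rw [mem_un4, mem_SN] at he
      obtain ⟨hEn, hm⟩ := he
      have hdet : e.1.1 * e.2.2 = e.1.2 * e.2.1 + n := hEn.1
      have hK : q3K D e.1 e.2 = 1 := by
        unfold q3K
        rw [if_pos ((hKn e hdet).2 hdn)]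
      have hdet' : (e.1.1 : ℝ) * e.2.2 = e.1.2 * e.2.1 + n := by exact_mod_cast hdet
      have hTT : q3T h N Y e = ww ((n : ℝ) / N) * h ((e.1.2 : ℝ) * e.2.1 / Y) ^ 2 *
          (ps0 (Real.log e.2.2 - Real.log e.1.1) * ps0 (Real.log e.2.1 - Real.log e.1.2)) := by
        unfold q3T
        rw [if_pos (by omega), hdet']
        congr 4
        ring
      rw [hT]
      dsimp only
      rw [hK, hTT, q3_F4]
      unfold Wh yS tS uS mk4
      dsimp only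
      push_cast
      ring
  · symm
    apply sum_eq_zero
    intro e he
    rw [mem_filter] at he
    have hK : q3K D e.1 e.2 = 0 := by
      unfold q3K
      rw [if_neg (fun h3 => hdn ((hKn e he.2).1 h3))]
    rw [hT]
    dsimp only
    rw [hK]
    simp

/-- pairs with a small determinant -/
def q3Bad (h2 η : ℝ) (N : ℕ) (Y : ℝ) (e : (ℕ × ℕ) × (ℕ × ℕ)) : Prop :=
  e.1.2 * e.2.1 < e.1.1 * e.2.2 ∧ (e.1.1 : ℝ) * e.2.2 - e.1.2 * e.2.1 < η * N ∧
    |Real.log e.2.2 - Real.log e.1.1| ≤ 1 ∧ |Real.log e.2.1 - Real.log e.1.2| ≤ 1 ∧ (e.1.2 : ℝ) * e.2.1 ≤ h2 * Y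

open Classical in
theorem q3_bad {C h2 η : ℝ} (hC : 0 < C) (hη : 0 < η) (hη1 : η ≤ 1) (h2p : 1 ≤ h2)
    (hcnt : ∀ n : ℕ, 0 < n → ∀ x : ℝ, (n : ℝ) ≤ x →
      (((SN n x).filter (fun e => |tS e| ≤ 1 ∧ |uS e| ≤ 1)).card : ℝ) ≤ C * x)
    {N : ℕ} {Y : ℝ} (hY : (N : ℝ) ≤ Y) (R : ℝ) :
    (((PB R R ×ˢ PB R R).filter (q3Bad h2 η N Y)).card : ℝ) ≤ η * N * (C * (h2 * Y)) := by
  have hN0 : (0 : ℝ) ≤ N := Nat.cast_nonneg _
  have hsub : (PB R R ×ˢ PB R R).filter (q3Bad h2 η N Y) ⊆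
      (Icc 1 ⌊η * N⌋₊).biUnion (fun n =>
        ((SN n (h2 * Y)).filter (fun e => |tS e| ≤ 1 ∧ |uS e| ≤ 1)).image un4) := by
    intro e he
    rw [mem_filter, mem_product, mem_PB, mem_PB] at he
    obtain ⟨⟨⟨⟨p1, -⟩, ⟨p2, -⟩, p3⟩, ⟨⟨p4, -⟩, ⟨p5, -⟩, p6⟩⟩, b1, b2, b3, b4, b5⟩ := he
    rw [mem_biUnion]
    have hd0 : e.1.1 * e.2.2 = e.1.2 * e.2.1 + (e.1.1 * e.2.2 - e.1.2 * e.2.1) := by omega
    have hn0 : 0 < e.1.1 * e.2.2 - e.1.2 * e.2.1 := by omega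
    refine ⟨e.1.1 * e.2.2 - e.1.2 * e.2.1, ?_, ?_⟩
    · rw [mem_Icc]
      refine ⟨hn0, ?_⟩
      apply Nat.le_floor
      have h3 : ((e.1.1 * e.2.2 - e.1.2 * e.2.1 : ℕ) : ℝ) = (e.1.1 : ℝ) * e.2.2 - e.1.2 * e.2.1 := by
        rw [Nat.cast_sub b1.le]
        push_cast
        ring
      rw [h3]
      exact b2.le
    · rw [mem_un4, mem_filter, mem_SN]
      exact ⟨⟨⟨hd0, p1, p2, p4, p5, p3, p6⟩, b5⟩, b3, b4⟩
  have h3 : (((PB R R ×ˢ PB R R).filter (q3Bad h2 η N Y)).card : ℝ) ≤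
      ∑ n ∈ Icc 1 ⌊η * N⌋₊, (((SN n (h2 * Y)).filter (fun e => |tS e| ≤ 1 ∧ |uS e| ≤ 1)).card : ℝ) := by
    have h4 := (card_le_card hsub).trans card_biUnion_le
    have h5 : ∑ n ∈ Icc 1 ⌊η * N⌋₊, (((SN n (h2 * Y)).filter (fun e => |tS e| ≤ 1 ∧ |uS e| ≤ 1)).image un4).card ≤
        ∑ n ∈ Icc 1 ⌊η * N⌋₊, ((SN n (h2 * Y)).filter (fun e => |tS e| ≤ 1 ∧ |uS e| ≤ 1)).card :=
      sum_le_sum (fun n _ => card_image_le)
    exact_mod_cast h4.trans h5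
  refine h3.trans ?_
  have hY0 : 0 ≤ Y := hN0.trans hY
  refine (sum_le_card_nsmul _ _ (C * (h2 * Y)) ?_).trans ?_
  · intro n hn
    rw [mem_Icc] at hn
    apply hcnt n hn.1
    have h4 : (n : ℝ) ≤ η * N := (Nat.cast_le.2 hn.2).trans (Nat.floor_le (by positivity))
    nlinarith
  · rw [nsmul_eq_mul, Nat.card_Icc, Nat.add_sub_cancel]
    exact mul_le_mul_of_nonneg_right (Nat.floor_le (by positivity)) (by positivity)

/-- comparison of the weights -/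
theorem q3_cmp {h : ℝ → ℝ} {h1 h2 : ℝ} (hh : HF h h1 h2) {η : ℝ} (hη : 0 < η) (hη1 : η ≤ 1) {N : ℕ} (hN : 1 ≤ N)
    {Y δ : ℝ} (hY0 : 0 < Y) (hY1 : (N : ℝ) / (h1 * Y) ≤ 1) (hY2 : h2 * N / (h1 ^ 2 * Y) < δ)
    (hY3 : (N : ℝ) / (h1 * Y) ≤ η / 2)
    (hw : ∀ s s' : ℝ, |s - s'| < δ → |qdsW η s - qdsW η s'| < η / 4) (e : (ℕ × ℕ) × (ℕ × ℕ))
    (he1 : 0 < e.1.1) (he2 : 0 < e.1.2) (he3 : 0 < e.2.1) (he4 : 0 < e.2.2) :
    (|q3T h N Y e - q3F h η (Real.sqrt h1 / 4) (e.1.1 / Real.sqrt Y) (e.2.1 / Real.sqrt Y) (dirn e.1)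
        (Y * (dirn e.2 - dirn e.1) / N)| ≤ η ∧
      Real.sqrt h1 / 4 * Real.sqrt Y ≤ e.1.1 ∧ Real.sqrt h1 / 4 * Real.sqrt Y ≤ e.2.1 ∧
      |dirn e.2 - dirn e.1| ≤ 1 / h1 * N / Y) ∨
    (|q3T h N Y e - q3F h η (Real.sqrt h1 / 4) (e.1.1 / Real.sqrt Y) (e.2.1 / Real.sqrt Y) (dirn e.1)
        (Y * (dirn e.2 - dirn e.1) / N)| ≤ 1 + η ∧
      Real.sqrt h1 / 4 * Real.sqrt Y ≤ e.1.1 ∧ Real.sqrt h1 / 4 * Real.sqrt Y ≤ e.2.1 ∧
      |dirn e.2 - dirn e.1| ≤ 1 / h1 * N / Y ∧ q3Bad h2 η N Y e) ∨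
    (|q3T h N Y e - q3F h η (Real.sqrt h1 / 4) (e.1.1 / Real.sqrt Y) (e.2.1 / Real.sqrt Y) (dirn e.1)
        (Y * (dirn e.2 - dirn e.1) / N)| ≤ 0) := by
  have h1p := hh.pos
  have h2p := hh.one
  have hN' : (0 : ℝ) < N := by exact_mod_cast hN
  have a1 : (0 : ℝ) < e.1.1 := by exact_mod_cast he1
  have a2 : (0 : ℝ) < e.1.2 := by exact_mod_cast he2
  have a3 : (0 : ℝ) < e.2.1 := by exact_mod_cast he3
  have a4 : (0 : ℝ) < e.2.2 := by exact_mod_cast he4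
  have hsY : 0 < Real.sqrt Y := Real.sqrt_pos.2 hY0
  have hsY2 : Real.sqrt Y * Real.sqrt Y = Y := Real.mul_self_sqrt hY0.le
  have hx : 0 < (e.1.1 : ℝ) / Real.sqrt Y := by positivity
  have hx' : 0 < (e.2.1 : ℝ) / Real.sqrt Y := by positivity
  have hdz : ∀ z : ℕ × ℕ, dirn z = Real.log z.2 - Real.log z.1 := fun z => rfl
  set a : ℝ := (e.1.1 : ℝ) with ha
  set b : ℝ := (e.1.2 : ℝ) with hb
  set c : ℝ := (e.2.1 : ℝ) with hc
  set d : ℝ := (e.2.2 : ℝ) with hd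
  set Δ := dirn e.2 - dirn e.1 with hΔ
  have hΔ' : Δ = (Real.log d - Real.log c) - (Real.log b - Real.log a) := by
    rw [hΔ, hdz, hdz]
  set t := Real.log d - Real.log a with ht
  set u := Real.log c - Real.log b with hu
  set M := b * c with hM
  have hM0 : 0 < M := mul_pos a2 a3
  set Dt := a * d - M with hDt
  have hexpτ : Real.exp (dirn e.1) = b / a := by
    rw [hdz, ← ha, ← hb, Real.exp_sub, Real.exp_log a2, Real.exp_log a1]
  have hs1 : a / Real.sqrt Y * (c / Real.sqrt Y) * Real.exp (dirn e.1) = M / Y := by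
    rw [hexpτ, hM]
    have h3 : a / Real.sqrt Y * (c / Real.sqrt Y) = a * c / Y := by
      rw [div_mul_div_comm, hsY2]
    rw [h3]
    field_simp
  have hlogx : Real.log (c / Real.sqrt Y) - Real.log (a / Real.sqrt Y) = Real.log c - Real.log a := by
    rw [Real.log_div a3.ne' hsY.ne', Real.log_div a1.ne' hsY.ne']
    ring
  have hF : q3F h η (Real.sqrt h1 / 4) (a / Real.sqrt Y) (c / Real.sqrt Y) (dirn e.1) (Y * Δ / N) =
      qdsW η (M * Δ / N) * h (M / Y) ^ 2 * (ps0 (t - Δ) * ps0 u) := by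
    rw [q3F_eq hh hη _ _ hx hx']
    unfold q3C
    rw [hs1, hlogx]
    have k1 : M / Y * (Y * Δ / N) = M * Δ / N := by field_simp
    have k2 : Real.log c - Real.log a + dirn e.1 = t - Δ := by
      rw [hΔ', ht, hdz, ← ha, ← hb]
      ring
    have k3 : Real.log c - Real.log a - dirn e.1 = u := by
      rw [hu, hdz, ← ha, ← hb]
      ring
    rw [k1, k2, k3]
  have hexpΔ : M * Real.exp Δ = M + Dt := by
    have h3 : Real.exp Δ = a * d / M := by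
      rw [hΔ', Real.exp_sub, Real.exp_sub, Real.exp_sub, Real.exp_log a4, Real.exp_log a3, Real.exp_log a2,
        Real.exp_log a1, hM]
      field_simp
    rw [h3, hDt]
    field_simp
    ring
  have hi : M * Δ ≤ Dt := by
    have h3 := mul_le_mul_of_nonneg_left (Real.add_one_le_exp Δ) hM0.le
    rw [hexpΔ, mul_add, mul_one] at h3
    linarith only [h3]
  rw [hF]
  have hTdef : q3T h N Y e = if e.1.2 * e.2.1 < e.1.1 * e.2.2 ∧ e.1.1 * e.2.2 ≤ e.1.2 * e.2.1 + N then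
      ww (Dt / N) * h (M / Y) ^ 2 * (ps0 t * ps0 u) else 0 := rfl
  by_cases hpu : ps0 u = 0
  · right
    right
    rw [hTdef, hpu]
    simp
  by_cases hh0 : h (M / Y) = 0
  · right
    right
    rw [hTdef, hh0]
    simp
  have hy1 : h1 < M / Y := by
    by_contra hc
    exact hh0 (hh.lo _ (not_lt.1 hc))
  have hy2 : M / Y < h2 := by
    by_contra hc
    exact hh0 (hh.hi _ (not_lt.1 hc))
  rw [lt_div_iff₀ hY0] at hy1
  rw [div_lt_iff₀ hY0] at hy2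
  have hu1 := qds_ps0_ne hpu
  have hhY : 0 < h1 * Y := by positivity
  by_cases hlt : e.1.2 * e.2.1 < e.1.1 * e.2.2
  swap
  · -- nonpositive determinant
    right
    right
    have hDt0 : Dt ≤ 0 := by
      have h3 : (e.1.1 : ℝ) * e.2.2 ≤ e.1.2 * e.2.1 := by exact_mod_cast not_lt.1 hlt
      rw [hDt, hM, ha, hb, hc, hd]
      linarith
    have hΔ0 : M * Δ / N ≤ 0 := by
      apply div_nonpos_of_nonpos_of_nonneg _ hN'.le
      linarith
    rw [hTdef, if_neg (fun h3 => hlt h3.1), qdsW_lo hη hΔ0]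
    simp
  have hDt1 : 0 < Dt := by
    have h3 : (e.1.2 : ℝ) * e.2.1 < e.1.1 * e.2.2 := by exact_mod_cast hlt
    rw [hDt, hM, ha, hb, hc, hd]
    linarith
  have hΔ0 : 0 < Δ := by
    by_contra hcon
    have h3 : Real.exp Δ ≤ 1 := Real.exp_le_one_iff.2 (not_lt.1 hcon)
    have h4 := mul_le_mul_of_nonneg_left h3 hM0.le
    rw [hexpΔ, mul_one] at h4
    linarith only [h4, hDt1]
  by_cases hB : Δ ≤ N / (h1 * Y)
  swap
  · -- large angle
    right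
    right
    have h3 := not_le.1 hB
    rw [div_lt_iff₀ hhY] at h3
    have h4 : (N : ℝ) < M * Δ := by
      have h5 := mul_le_mul_of_nonneg_left hy1.le hΔ0.le
      rw [mul_comm M Δ]
      exact h3.trans_le h5
    have h5 : (1 : ℝ) ≤ M * Δ / N := by
      rw [le_div_iff₀ hN']
      linarith
    have h6 : (1 : ℝ) ≤ Dt / N := by
      rw [le_div_iff₀ hN']
      linarith
    rw [hTdef, qdsW_hi h5, ww_props.2.2.2 _ (h6.trans (le_abs_self _))]
    simp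
  have hΔ1 : Δ ≤ 1 := hB.trans hY1
  by_cases hz : ps0 t = 0 ∧ ps0 (t - Δ) = 0
  · right
    right
    rw [hTdef, hz.1, hz.2]
    simp
  have ht2 : t < 2 ∧ -2 < t := by
    by_cases h3 : ps0 t = 0
    · have h4 : ps0 (t - Δ) ≠ 0 := fun h5 => hz ⟨h3, h5⟩
      have h5 := qds_ps0_ne h4
      rw [abs_lt] at h5
      constructor <;> linarith [h5.1, h5.2]
    · have h5 := qds_ps0_ne h3
      rw [abs_lt] at h5
      constructor <;> linarith [h5.1, h5.2]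
  have hda : d ≤ 16 * a := by
    have h3 : Real.log d < 1 + (1 + Real.log a) := by
      have := ht2.1
      rw [ht] at this
      linarith
    have h4 := Real.exp_lt_exp.2 h3
    rw [Real.exp_add, Real.exp_add, Real.exp_log a4, Real.exp_log a1] at h4
    have h5 := qds_exp1
    have h6 := Real.exp_pos 1
    have h7 : Real.exp 1 * (Real.exp 1 * a) ≤ 4 * (4 * a) :=
      mul_le_mul h5 (mul_le_mul_of_nonneg_right h5 a1.le) (by positivity) (by norm_num)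
    linarith
  have hbc : b ≤ 4 * c ∧ c ≤ 4 * b := by
    have := qds_ratio a2 a3 hu1
    exact ⟨this.2, this.1⟩
  have hsq : (Real.sqrt h1 / 4 * Real.sqrt Y) ^ 2 = h1 * Y / 16 := by
    rw [mul_pow, div_pow, Real.sq_sqrt h1p.le, Real.sq_sqrt hY0.le]
    ring
  have hA1 : Real.sqrt h1 / 4 * Real.sqrt Y ≤ a := by
    apply le_of_sq_le_sq _ a1.le
    rw [hsq]
    have h3 : M < a * d := by linarith
    have h4 := mul_le_mul_of_nonneg_left hda a1.le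
    have h5 : a * (16 * a) = 16 * a ^ 2 := by ring
    linarith only [h3, h4, h5, hy1]
  have hA2 : Real.sqrt h1 / 4 * Real.sqrt Y ≤ c := by
    apply le_of_sq_le_sq _ a3.le
    rw [hsq]
    have h3 : M ≤ 4 * c ^ 2 := by
      have h4 := mul_le_mul_of_nonneg_right hbc.1 a3.le
      have h5 : 4 * c * c = 4 * c ^ 2 := by ring
      rw [h5] at h4
      exact h4
    have h6 := sq_nonneg c
    linarith only [h3, h6, hy1]
  have hA3 : |Δ| ≤ 1 / h1 * N / Y := by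
    rw [abs_of_pos hΔ0]
    refine hB.trans (le_of_eq ?_)
    field_simp
  -- closeness of arguments
  have d1 : |Dt / N - M * Δ / N| < δ := by
    rw [← sub_div, abs_div, abs_of_pos hN', abs_of_nonneg (by linarith)]
    refine lt_of_le_of_lt ?_ hY2
    have h3 := Real.abs_exp_sub_one_sub_id_le (abs_le.2 ⟨by linarith, hΔ1⟩ : |Δ| ≤ 1)
    have h4 := (abs_le.1 h3).2
    have h5 : Dt - M * Δ ≤ M * Δ ^ 2 := by
      have h6 := mul_le_mul_of_nonneg_left h4 hM0.le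
      have h7 : M * (Real.exp Δ - 1 - Δ) = M * Real.exp Δ - M - M * Δ := by ring
      rw [h7, hexpΔ] at h6
      linarith only [h6]
    have h6 : Δ * (h1 * Y) ≤ N := by rwa [le_div_iff₀ hhY] at hB
    rw [div_le_div_iff₀ hN' (by positivity)]
    have h7 : M * Δ ^ 2 ≤ h2 * Y * Δ ^ 2 := mul_le_mul_of_nonneg_right hy2.le (by positivity)
    have h8 : (Δ * (h1 * Y)) ^ 2 ≤ (N : ℝ) ^ 2 := by
      apply pow_le_pow_left₀ (by positivity) h6
    have h9 : (Dt - M * Δ) * (h1 ^ 2 * Y) ≤ h2 * Y * Δ ^ 2 * (h1 ^ 2 * Y) :=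
      mul_le_mul_of_nonneg_right (h5.trans h7) (by positivity)
    have h10 : h2 * Y * Δ ^ 2 * (h1 ^ 2 * Y) = h2 * (Δ * (h1 * Y)) ^ 2 := by ring
    have h11 : h2 * (Δ * (h1 * Y)) ^ 2 ≤ h2 * (N : ℝ) ^ 2 := mul_le_mul_of_nonneg_left h8 (by linarith)
    calc (Dt - M * Δ) * (h1 ^ 2 * Y) ≤ h2 * (N : ℝ) ^ 2 := by linarith
      _ = h2 * N * N := by ring
  have w1 := hw _ _ d1
  have w2 : |ps0 t - ps0 (t - Δ)| ≤ η / 2 := by
    refine (q3_ps0_lip _ _).trans ?_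
    have h3 : t - (t - Δ) = Δ := by ring
    rw [h3, abs_of_pos hΔ0]
    exact hB.trans hY3
  have hwn := qdsW_nn η (Dt / N)
  have hwn' := qdsW_nn η (M * Δ / N)
  have hw1' := qdsW_le1 η (M * Δ / N)
  have hb0 := hh.nn (M / Y)
  have hb1 := hh.le (M / Y)
  have hp0 := qds_ps0_nn t
  have hp1 := qds_ps0_le t
  have hu0 := qds_ps0_nn u
  have hu1' := qds_ps0_le u
  have hmain : |qdsW η (Dt / N) * h (M / Y) ^ 2 * (ps0 t * ps0 u) -
      qdsW η (M * Δ / N) * h (M / Y) ^ 2 * (ps0 (t - Δ) * ps0 u)| ≤ η := by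
    have e1 : qdsW η (Dt / N) * h (M / Y) ^ 2 * (ps0 t * ps0 u) -
        qdsW η (M * Δ / N) * h (M / Y) ^ 2 * (ps0 (t - Δ) * ps0 u) =
        ((qdsW η (Dt / N) - qdsW η (M * Δ / N)) * ps0 t + qdsW η (M * Δ / N) * (ps0 t - ps0 (t - Δ))) *
          (h (M / Y) ^ 2 * ps0 u) := by ring
    rw [e1, abs_mul, abs_of_nonneg (by positivity : 0 ≤ h (M / Y) ^ 2 * ps0 u)]
    have t0 : h (M / Y) ^ 2 * ps0 u ≤ 1 := mul_le_one₀ (pow_le_one₀ hb0 hb1) hu0 hu1'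
    refine (mul_le_of_le_one_right (abs_nonneg _) t0).trans ?_
    refine (abs_add_le _ _).trans ?_
    rw [abs_mul, abs_mul, abs_of_nonneg hp0, abs_of_nonneg hwn']
    have t1 : |qdsW η (Dt / N) - qdsW η (M * Δ / N)| * ps0 t ≤ η / 4 :=
      (mul_le_of_le_one_right (abs_nonneg _) hp1).trans w1.le
    have t2 : qdsW η (M * Δ / N) * |ps0 t - ps0 (t - Δ)| ≤ 1 * (η / 2) :=
      mul_le_mul hw1' w2 (abs_nonneg _) zero_le_one
    linarith
  by_cases hsm : Dt < η * N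
  · -- small determinant
    by_cases hpt : ps0 t = 0
    · left
      have hT : q3T h N Y e = 0 := by
        rw [hTdef, hpt]
        simp
      rw [hpt] at hmain
      rw [hT]
      refine ⟨?_, hA1, hA2, hA3⟩
      have e0 : qdsW η (Dt / N) * h (M / Y) ^ 2 * (0 * ps0 u) = 0 := by ring
      rw [e0] at hmain
      exact hmain
    · right
      left
      refine ⟨?_, hA1, hA2, hA3, hlt, hsm, (qds_ps0_ne hpt).le, hu1.le, hy2.le⟩
      have hDN : e.1.1 * e.2.2 ≤ e.1.2 * e.2.1 + N := by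
        have h3 : Dt < N := lt_of_lt_of_le hsm ((mul_le_mul_of_nonneg_right hη1 hN'.le).trans_eq (one_mul _))
        have h4 : (e.1.1 : ℝ) * e.2.2 ≤ e.1.2 * e.2.1 + N := by
          rw [hDt, hM, ha, hb, hc, hd] at h3
          linarith
        exact_mod_cast h4
      rw [hTdef, if_pos ⟨hlt, hDN⟩]
      have e1 : ww (Dt / N) * h (M / Y) ^ 2 * (ps0 t * ps0 u) -
            qdsW η (M * Δ / N) * h (M / Y) ^ 2 * (ps0 (t - Δ) * ps0 u) =
          (ww (Dt / N) - qdsW η (Dt / N)) * (h (M / Y) ^ 2 * (ps0 t * ps0 u)) +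
          (qdsW η (Dt / N) * h (M / Y) ^ 2 * (ps0 t * ps0 u) -
            qdsW η (M * Δ / N) * h (M / Y) ^ 2 * (ps0 (t - Δ) * ps0 u)) := by ring
      rw [e1]
      refine (abs_add_le _ _).trans (add_le_add ?_ hmain)
      have t1 := qdsW_le η (Dt / N)
      have t2 := ww_props.2.2.1 (Dt / N)
      have t3 : h (M / Y) ^ 2 * (ps0 t * ps0 u) ≤ 1 :=
        mul_le_one₀ (pow_le_one₀ hb0 hb1) (by positivity) (mul_le_one₀ hp1 hu0 hu1')
      rw [abs_mul, abs_of_nonneg (by linarith : 0 ≤ ww (Dt / N) - qdsW η (Dt / N)),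
        abs_of_nonneg (by positivity : 0 ≤ h (M / Y) ^ 2 * (ps0 t * ps0 u))]
      exact mul_le_one₀ (by linarith) (by positivity) t3
  · left
    refine ⟨?_, hA1, hA2, hA3⟩
    have hT : q3T h N Y e = qdsW η (Dt / N) * h (M / Y) ^ 2 * (ps0 t * ps0 u) := by
      rw [hTdef]
      by_cases hDN : e.1.1 * e.2.2 ≤ e.1.2 * e.2.1 + N
      · rw [if_pos ⟨hlt, hDN⟩, qdsW_eq hη]
        rw [le_div_iff₀ hN']
        exact not_lt.1 hsm
      · rw [if_neg (fun h3 => hDN h3.2), qdsW_hi]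
        · simp
        · rw [le_div_iff₀ hN']
          have h4 : (e.1.2 : ℝ) * e.2.1 + N < e.1.1 * e.2.2 := by exact_mod_cast not_le.1 hDN
          rw [hDt, hM, ha, hb, hc, hd]
          linarith
    rw [hT]
    exact hmain

/-- PROOF. Adapt `qds` (`Lib_MP_f1a94e_eq/QdS.lean`). The matrices `e ∈ SN n (h2 Y)`, `1 ≤ n ≤ N`, are the pairs `V = (a, b)`, `V' = (c, d)` of coprime pairs of positive integers with `1 ≤ a d - b c ≤ N`, `b c ≤ h2 Y`, and `F4 f (cj f) (cj f) f e = F2 f V conj (F2 f V')`; so the sum is `S = ∑ κ(V, V') F2 f V conj (F2 f V') w(V, V')`,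
`κ = 1` if `a d ≡ b c mod D`, else `0` (periodic modulo `D`), `w = ww((a d - b c)/N) h(b c/Y)^2 ps0(log(d/a)) ps0(log(c/b))`. Let `0 < η < 1` and, for `x, x' > 0`, `y = x x' exp τ`:
`F x x' τ σ = w_η(y σ) h(y)^2 ps0(log x' - log x + τ) ps0(log x' - log x - τ)`, `F = 0` for `x ≤ 0` or `x' ≤ 0`, `w_η(s) = ww(s) min 1 (max 0 (s/η))` (`qdsW`). On the support `h1 < y < h2`, `|log(x'/x)| < 1`, `|τ| < 1`, `0 < y σ < 1`, so `c0 = sqrt(h1) exp(-1)`, `C0 = sqrt(h2) exp 1`, `B = 1 + 1/h1`, `K = 10 C0` are admissible in `arcp3`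
(continuity: near points with `x` or `x'` small `F = 0`), which bounds the sum with `F`. Comparison of the weights for a pair: put `Δ = dirn V' - dirn V = log(a d/(b c))`, `x = a/sqrt Y`, `x' = c/sqrt Y`, `τ = dirn V = log(b/a)`: `b c/Y = x x' exp τ = y` exactly, `(a d - b c)/N = (b c/Y) Y (exp Δ - 1)/N`, `log(c/b) = log(x'/x) - τ` exactly,
`log(d/a) = log(x'/x) + τ + Δ`. If `F ≠ 0`: `0 < Δ ≤ B N/Y`; if the pair is in the range of `S` with `h(b c/Y) ≠ 0`: `0 < Δ ≤ (a d - b c)/(b c) ≤ N/(h1 Y)`. In both cases `Δ → 0` and `(a d - b c)/N - y σ → 0` uniformly as `Y → ∞` (`N` fixed, `y ≤ h2`); all pairs in question are in the box: `a^2 = a d (a/d) ≤ (h2 Y + N) exp 1`, etc. By uniform continuity of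
`ww`, `ps0` the weights differ by at most `η` for pairs with `a d - b c ≥ 2 η N` and by at most `1` otherwise. The number of pairs in question (`c0/2 sqrt Y ≤ a, c`, `|Δ| ≤ 2 B N/Y`) is at most `C N Y` (`cntA3`), and those with `1 ≤ a d - b c ≤ 2 η N` are at most `2 η N * C Y` (`cnt3` for each `n ≤ 2 η N`, `B = 2`). Choose `η`, then `N0` from `arcp3`.
(Pairs with `a d - b c ≤ 0` do not occur in `S`, and have `F = 0`; pairs with `a d - b c > N`, `F ≠ 0`: `y σ < 1` and `(a d - b c)/N → y σ`, so `ww` is small there by continuity, `ww(s) = 0` for `s ≥ 1`.) -/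
theorem qds3 (f : ℕ → ℂ) (hf : ∀ n, ‖f n‖ ≤ 1) (hM : MRS f) : QdSmall3 f := by
  classical
  intro D hD h h1 h2 hh ε hε
  have h1p := hh.pos
  have h2p := hh.one
  by_cases h12 : h1 ≤ h2
  swap
  · -- trivial: `h = 0`
    have hz : ∀ y, h y = 0 := by
      intro y
      rcases le_total y h1 with h3 | h3
      · exact hh.lo y h3
      · exact hh.hi y (by linarith)
    refine ⟨0, fun N _ => ?_⟩
    filter_upwards [eventually_ge_atTop 0] with Y hY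
    have h0 : ∑ n ∈ (Icc 1 N).filter (fun n => D ∣ n), ((ww ((n : ℝ) / N) : ℝ) : ℂ) *
      Qs3 f n (h2 * Y) (Wh (fun y => h y ^ 2)) Y = 0 := by
      apply sum_eq_zero
      intro n _
      have : Qs3 f n (h2 * Y) (Wh (fun y => h y ^ 2)) Y = 0 := by
        unfold Qs3 Wh
        apply sum_eq_zero
        intro e _
        dsimp only
        rw [hz]
        simp
      rw [this, mul_zero]
    rw [h0, norm_zero]
    positivity
  have hs1 : 0 < Real.sqrt h1 := Real.sqrt_pos.2 h1p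
  have hs2 : 0 < Real.sqrt h2 := Real.sqrt_pos.2 (by linarith)
  have hs12 : Real.sqrt h1 ≤ Real.sqrt h2 := Real.sqrt_le_sqrt h12
  obtain ⟨C, hC, hcntA⟩ := cntA3 (Real.sqrt h1 / 4) (4 * Real.sqrt h2) (4 * Real.sqrt h2) (1 / h1) (by positivity)
    (by linarith) (by positivity) (by positivity)
  obtain ⟨C1, hC1, hcnt⟩ := cnt3 1
  set K : ℝ := C + 2 * C1 * h2 with hK
  have hKp : 0 < K := by positivity
  set η : ℝ := min 1 (ε / (4 * K)) with hηd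
  have hη : 0 < η := lt_min one_pos (by positivity)
  have hη1 : η ≤ 1 := min_le_left _ _
  have hη2 : η * (4 * K) ≤ ε := by
    have := min_le_right 1 (ε / (4 * K))
    rwa [← hηd, le_div_iff₀ (by positivity)] at this
  obtain ⟨N0, hN0⟩ := arcp3 f hf hM D hD (q3K D) (q3K_bd D) (q3K_per D) (Real.sqrt h1 / 4) (4 * Real.sqrt h2)
    (1 + 1 / h1) (4 * Real.sqrt h2) (by positivity) (by linarith) (by positivity) le_rfl
    (q3F h η (Real.sqrt h1 / 4)) (q3F_cont hh.cont η (by positivity))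
    (q3F_van hh hη) (ε / 2) (by linarith)
  obtain ⟨δ, hδ, hw⟩ := Metric.uniformContinuous_iff.1 (qdsW_uc η hη) (η / 4) (by linarith)
  have hw' : ∀ s s' : ℝ, |s - s'| < δ → |qdsW η s - qdsW η s'| < η / 4 := by
    intro s s' hs
    have := hw (a := s) (b := s') (by rw [Real.dist_eq]; exact hs)
    rwa [Real.dist_eq] at this
  refine ⟨max N0 1, fun N hN => ?_⟩
  have hN1 : 1 ≤ N := (le_max_right _ _).trans hN
  have hN' : (1 : ℝ) ≤ N := by exact_mod_cast hN1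
  have hl1 : Tendsto (fun Y : ℝ => (N : ℝ) / (h1 * Y)) atTop (nhds 0) := by
    have h3 : Tendsto (fun Y : ℝ => ((N : ℝ) / h1) / Y) atTop (nhds 0) := tendsto_const_nhds.div_atTop tendsto_id
    refine h3.congr (fun Y => ?_)
    rw [div_div]
  have hl2 : Tendsto (fun Y : ℝ => h2 * (N : ℝ) / (h1 ^ 2 * Y)) atTop (nhds 0) := by
    have h3 : Tendsto (fun Y : ℝ => (h2 * (N : ℝ) / h1 ^ 2) / Y) atTop (nhds 0) :=
      tendsto_const_nhds.div_atTop tendsto_id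
    refine h3.congr (fun Y => ?_)
    rw [div_div]
  filter_upwards [hN0 N ((le_max_left _ _).trans hN), hcntA N hN1, eventually_gt_atTop 0,
    eventually_ge_atTop (N : ℝ), hl1.eventually_lt_const (by norm_num : (0 : ℝ) < 1), hl2.eventually_lt_const hδ,
    hl1.eventually_lt_const (by positivity : 0 < η / 2)] with Y hA hB hY0 hY1 hY2 hY3 hY4
  rw [q3_sum f D hh hY1 hY0]
  set P := PB (4 * Real.sqrt h2 * Real.sqrt Y) (4 * Real.sqrt h2 * Real.sqrt Y) with hP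
  rw [← sum_product' P P (fun V V' => q3K D V V' * (F2 f V * (starRingEnd ℂ) (F2 f V')) *
        ((q3F h η (Real.sqrt h1 / 4) (V.1 / Real.sqrt Y) (V'.1 / Real.sqrt Y) (dirn V)
          (Y * (dirn V' - dirn V) / N) : ℝ) : ℂ))] at hA
  have hdec : ∑ e ∈ P ×ˢ P, q3K D e.1 e.2 * (F2 f e.1 * (starRingEnd ℂ) (F2 f e.2)) * ((q3T h N Y e : ℝ) : ℂ) =
      ∑ e ∈ P ×ˢ P, q3K D e.1 e.2 * (F2 f e.1 * (starRingEnd ℂ) (F2 f e.2)) *
        ((q3F h η (Real.sqrt h1 / 4) (e.1.1 / Real.sqrt Y) (e.2.1 / Real.sqrt Y) (dirn e.1)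
          (Y * (dirn e.2 - dirn e.1) / N) : ℝ) : ℂ) +
      ∑ e ∈ P ×ˢ P, q3K D e.1 e.2 * (F2 f e.1 * (starRingEnd ℂ) (F2 f e.2)) *
        ((q3T h N Y e - q3F h η (Real.sqrt h1 / 4) (e.1.1 / Real.sqrt Y) (e.2.1 / Real.sqrt Y) (dirn e.1)
          (Y * (dirn e.2 - dirn e.1) / N) : ℝ) : ℂ) := by
    rw [← sum_add_distrib]
    apply sum_congr rfl
    intro e _
    rw [Complex.ofReal_sub]
    ring
  rw [hdec]
  refine (norm_add_le _ _).trans ?_
  have hsec : ‖∑ e ∈ P ×ˢ P, q3K D e.1 e.2 * (F2 f e.1 * (starRingEnd ℂ) (F2 f e.2)) *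
        ((q3T h N Y e - q3F h η (Real.sqrt h1 / 4) (e.1.1 / Real.sqrt Y) (e.2.1 / Real.sqrt Y) (dirn e.1)
          (Y * (dirn e.2 - dirn e.1) / N) : ℝ) : ℂ)‖ ≤
      ε / 2 * N * Y := by
    have hpt : ∀ e ∈ P ×ˢ P, ‖q3K D e.1 e.2 * (F2 f e.1 * (starRingEnd ℂ) (F2 f e.2)) *
        ((q3T h N Y e - q3F h η (Real.sqrt h1 / 4) (e.1.1 / Real.sqrt Y) (e.2.1 / Real.sqrt Y) (dirn e.1)
          (Y * (dirn e.2 - dirn e.1) / N) : ℝ) : ℂ)‖ ≤
        (if Real.sqrt h1 / 4 * Real.sqrt Y ≤ e.1.1 ∧ Real.sqrt h1 / 4 * Real.sqrt Y ≤ e.2.1 ∧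
          |dirn e.2 - dirn e.1| ≤ 1 / h1 * N / Y then η else 0) +
          (if q3Bad h2 η N Y e then 2 else 0) := by
      intro e he
      rw [mem_product, hP, mem_PB, mem_PB] at he
      obtain ⟨⟨⟨p1, -⟩, ⟨p2, -⟩, -⟩, ⟨⟨p4, -⟩, ⟨p5, -⟩, -⟩⟩ := he
      have hcm := q3_cmp hh hη hη1 hN1 hY0 hY2.le hY3 hY4.le hw' e p1 p2 p4 p5
      set DD := q3T h N Y e - q3F h η (Real.sqrt h1 / 4) (e.1.1 / Real.sqrt Y) (e.2.1 / Real.sqrt Y) (dirn e.1)
          (Y * (dirn e.2 - dirn e.1) / N) with hDD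
      have hF2 : ∀ z, ‖F2 f z‖ ≤ 1 := by
        intro z
        unfold F2
        rw [norm_mul, norm_cj]
        exact mul_le_one₀ (hf _) (norm_nonneg _) (hf _)
      have hKf : ‖q3K D e.1 e.2 * (F2 f e.1 * (starRingEnd ℂ) (F2 f e.2))‖ ≤ 1 := by
        rw [norm_mul, norm_mul, RCLike.norm_conj]
        exact mul_le_one₀ (q3K_bd1 D e.1 e.2) (by positivity) (mul_le_one₀ (hF2 _) (norm_nonneg _) (hF2 _))
      rw [norm_mul, Complex.norm_real, Real.norm_eq_abs]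
      refine (mul_le_of_le_one_left (abs_nonneg _) hKf).trans ?_
      have t1 : (0 : ℝ) ≤ if q3Bad h2 η N Y e then 2 else 0 := by split_ifs <;> norm_num
      have t2 : (0 : ℝ) ≤ if Real.sqrt h1 / 4 * Real.sqrt Y ≤ e.1.1 ∧ Real.sqrt h1 / 4 * Real.sqrt Y ≤ e.2.1 ∧
          |dirn e.2 - dirn e.1| ≤ 1 / h1 * N / Y then η else 0 := by
        split_ifs
        · exact hη.le
        · exact le_rfl
      rcases hcm with ⟨m1, m2⟩ | ⟨m1, m2, m3, m4, m5⟩ | m1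
      · rw [if_pos m2]
        linarith
      · rw [if_pos ⟨m2, m3, m4⟩, if_pos m5]
        linarith
      · linarith
    refine (norm_sum_le _ _).trans ((sum_le_sum hpt).trans ?_)
    rw [sum_add_distrib, ← sum_filter, ← sum_filter, sum_const, sum_const, nsmul_eq_mul, nsmul_eq_mul]
    have hb := q3_bad hC1 hη hη1 h2p hcnt (N := N) (Y := Y) hY1 (4 * Real.sqrt h2 * Real.sqrt Y)
    rw [← hP] at hb
    have hb2 : (((P ×ˢ P).filter (fun e : (ℕ × ℕ) × (ℕ × ℕ) => Real.sqrt h1 / 4 * Real.sqrt Y ≤ e.1.1 ∧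
        Real.sqrt h1 / 4 * Real.sqrt Y ≤ e.2.1 ∧ |dirn e.2 - dirn e.1| ≤ 1 / h1 * N / Y)).card : ℝ) ≤ C * N * Y := by
      refine le_trans (le_of_eq ?_) hB
      congr
    have hb1 : (((P ×ˢ P).filter (fun e : (ℕ × ℕ) × (ℕ × ℕ) => q3Bad h2 η N Y e)).card : ℝ) ≤
        η * N * (C1 * (h2 * Y)) := by
      refine le_trans (le_of_eq ?_) hb
      congr
    have t1 := mul_le_mul_of_nonneg_right hb2 hη.le
    have hNY : 0 ≤ (N : ℝ) * Y := by positivity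
    have t3 : C * N * Y * η + η * N * (C1 * (h2 * Y)) * 2 = η * (4 * K) / 4 * ((N : ℝ) * Y) := by
      rw [hK]
      ring
    have t4 : η * (4 * K) / 4 * ((N : ℝ) * Y) ≤ ε / 4 * ((N : ℝ) * Y) :=
      mul_le_mul_of_nonneg_right (by linarith) hNY
    calc _ ≤ C * N * Y * η + η * N * (C1 * (h2 * Y)) * 2 := by linarith
      _ = η * (4 * K) / 4 * ((N : ℝ) * Y) := t3
      _ ≤ ε / 4 * ((N : ℝ) * Y) := t4
      _ ≤ ε / 2 * ((N : ℝ) * Y) := mul_le_mul_of_nonneg_right (by linarith) hNY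
      _ = ε / 2 * N * Y := by ring
  refine (add_le_add hA hsec).trans (le_of_eq ?_)
  ring

end Pool.Agent.Spl

end

/-! ### from `Lib_MP_92ef0c_la.QdS4` -/

section

/-!
# The sums over the determinants divisible by `D`
-/

set_option autoImplicit false

namespace Pool.Agent.SplL

open Finset Pool.Agent.Spl Pool.Agent.SplB Pool.Agent.GaussMR Pool.Agent.OmAll Pool.Agent.OmEq MeasureTheory Filter

theorem q4s_R2 (β : ℕ × ℕ → ℂ) (e : (ℕ × ℕ) × (ℕ × ℕ)) :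
    R2 β (cjr β) (mk4 e) = β e.1 * (starRingEnd ℂ) (β e.2) := by
  unfold R2 cjr mk4
  rfl

theorem q4s_sum (β : ℕ × ℕ → ℂ) (D : ℕ) {h : ℝ → ℝ} {h1 h2 : ℝ} (hh : HF h h1 h2) {N : ℕ} {Y : ℝ}
    (hY : (N : ℝ) ≤ Y) (hY0 : 0 < Y) :
    ∑ n ∈ (Icc 1 N).filter (fun n => D ∣ n), ((ww ((n : ℝ) / N) : ℝ) : ℂ) *
      Qs4 β n (h2 * Y) (Wh (fun y => h y ^ 2)) Y =
    ∑ e ∈ PB (4 * Real.sqrt h2 * Real.sqrt Y) (4 * Real.sqrt h2 * Real.sqrt Y) ×ˢ
        PB (4 * Real.sqrt h2 * Real.sqrt Y) (4 * Real.sqrt h2 * Real.sqrt Y),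
      q3K D e.1 e.2 * (β e.1 * (starRingEnd ℂ) (β e.2)) * ((q3T h N Y e : ℝ) : ℂ) := by
  classical
  have h2p := hh.one
  set R := 4 * Real.sqrt h2 * Real.sqrt Y with hR
  set P := PB R R ×ˢ PB R R with hP
  set T : (ℕ × ℕ) × (ℕ × ℕ) → ℂ := fun e => q3K D e.1 e.2 * (β e.1 * (starRingEnd ℂ) (β e.2)) *
      ((q3T h N Y e : ℝ) : ℂ) with hT
  have e1 : ∀ e ∈ P, T e = ∑ n ∈ Icc 1 N, if e.1.1 * e.2.2 = e.1.2 * e.2.1 + n then T e else 0 := by
    intro e _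
    by_cases hc : e.1.2 * e.2.1 < e.1.1 * e.2.2 ∧ e.1.1 * e.2.2 ≤ e.1.2 * e.2.1 + N
    · rw [sum_eq_single (e.1.1 * e.2.2 - e.1.2 * e.2.1)]
      · rw [if_pos (by omega)]
      · intro n _ hn
        rw [if_neg (by omega)]
      · intro h3
        exfalso
        apply h3
        rw [mem_Icc]
        omega
    · have h0 : T e = 0 := by
        rw [hT]
        dsimp only
        unfold q3T
        rw [if_neg hc, Complex.ofReal_zero, mul_zero]
      rw [h0]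
      symm
      apply sum_eq_zero
      intro n _
      rw [ite_self]
  rw [sum_congr rfl e1, sum_comm, sum_filter]
  apply sum_congr rfl
  intro n hn
  rw [mem_Icc] at hn
  have hn0 : 0 < n := hn.1
  have hnN : (n : ℝ) ≤ N := by exact_mod_cast hn.2
  rw [← sum_filter]
  have hKn : ∀ e : (ℕ × ℕ) × (ℕ × ℕ), e.1.1 * e.2.2 = e.1.2 * e.2.1 + n →
      ((e.1.1 * e.2.2 ≡ e.1.2 * e.2.1 [MOD D]) ↔ D ∣ n) := by
    intro e he
    rw [he]
    constructor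
    · intro h3
      have h4 : e.1.2 * e.2.1 + n ≡ e.1.2 * e.2.1 + 0 [MOD D] := h3
      exact (Nat.modEq_zero_iff_dvd).1 (Nat.ModEq.add_left_cancel' _ h4)
    · intro h3
      have h4 : n ≡ 0 [MOD D] := (Nat.modEq_zero_iff_dvd).2 h3
      exact h4.add_left (e.1.2 * e.2.1)
  split_ifs with hdn
  · unfold Qs4
    rw [mul_sum]
    have him : ∑ i ∈ SN n (h2 * Y), ((ww ((n : ℝ) / N) : ℝ) : ℂ) * (R2 β (cjr β) i *
        Wh (fun y => h y ^ 2) (yS i / Y) (tS i) (uS i)) =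
      ∑ e ∈ (SN n (h2 * Y)).image un4, ((ww ((n : ℝ) / N) : ℝ) : ℂ) * (R2 β (cjr β) (mk4 e) *
        Wh (fun y => h y ^ 2) (yS (mk4 e) / Y) (tS (mk4 e)) (uS (mk4 e))) := by
      rw [sum_image (fun x _ y _ hxy => un4_inj hxy)]
      simp only [mk4_un4]
    rw [him]
    apply sum_congr_of_eq_on_inter
    · intro e he hne
      rw [mem_un4, mem_SN] at he
      obtain ⟨hEn, hm⟩ := he
      have hnP : e ∉ P := by
        intro h3
        exact hne (mem_filter.2 ⟨h3, hEn.1⟩)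
      obtain ⟨k1, k2, k3, k4, k5, k6, k7⟩ := hEn
      by_cases hps : ps0 (tS (mk4 e)) = 0
      · unfold Wh
        rw [hps]
        simp
      · by_cases hpu : ps0 (uS (mk4 e)) = 0
        · unfold Wh
          rw [hpu]
          simp
        · by_cases hh0 : h (yS (mk4 e) / Y) = 0
          · unfold Wh
            dsimp only
            rw [hh0]
            simp
          · exfalso
            apply hnP
            have ht := qds_ps0_ne hps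
            have hu := qds_ps0_ne hpu
            unfold tS mk4 at ht
            unfold uS mk4 at hu
            dsimp only at ht hu
            unfold yS mk4 at hm
            dsimp only at hm
            unfold mk4 at k1 k2 k3 k4 k5 k6 k7
            dsimp only at k1 k2 k3 k4 k5 k6 k7
            have k2' : (0 : ℝ) < e.1.1 := by exact_mod_cast k2
            have k3' : (0 : ℝ) < e.1.2 := by exact_mod_cast k3
            have k4' : (0 : ℝ) < e.2.1 := by exact_mod_cast k4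
            have k5' : (0 : ℝ) < e.2.2 := by exact_mod_cast k5
            have k1' : (e.1.1 : ℝ) * e.2.2 = e.1.2 * e.2.1 + n := by exact_mod_cast k1
            have hz : Y ≤ h2 * Y := by nlinarith
            obtain ⟨b1, b2⟩ := q3_box k2' k5' ht le_rfl (by linarith : (e.1.1 : ℝ) * e.2.2 ≤ 2 * (h2 * Y))
              (by linarith) hY0.le
            obtain ⟨b3, b4⟩ := q3_box k3' k4' hu le_rfl (by linarith : (e.1.2 : ℝ) * e.2.1 ≤ 2 * (h2 * Y))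
              (by linarith) hY0.le
            rw [hP, mem_product, mem_PB, mem_PB]
            exact ⟨⟨⟨k2, b1⟩, ⟨k3, b3⟩, k6⟩, ⟨⟨k4, b4⟩, ⟨k5, b2⟩, k7⟩⟩
    · intro e he hne
      rw [mem_filter, hP, mem_product, mem_PB, mem_PB] at he
      obtain ⟨⟨⟨⟨p1, -⟩, ⟨p2, -⟩, p3⟩, ⟨⟨p4, -⟩, ⟨p5, -⟩, p6⟩⟩, hdet⟩ := he
      rw [mem_un4, mem_SN] at hne
      rw [hT]
      dsimp only
      have hm : ¬ yS (mk4 e) ≤ h2 * Y := by
        intro h3
        apply hne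
        exact ⟨⟨hdet, p1, p2, p4, p5, p3, p6⟩, h3⟩
      have hz : h ((e.1.2 : ℝ) * e.2.1 / Y) = 0 := by
        apply hh.hi
        rw [le_div_iff₀ hY0]
        exact (not_le.1 hm).le
      unfold q3T
      rw [hz]
      simp
    · intro e he he'
      rw [mem_un4, mem_SN] at he
      obtain ⟨hEn, hm⟩ := he
      have hdet : e.1.1 * e.2.2 = e.1.2 * e.2.1 + n := hEn.1
      have hK : q3K D e.1 e.2 = 1 := by
        unfold q3K
        rw [if_pos ((hKn e hdet).2 hdn)]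
      have hdet' : (e.1.1 : ℝ) * e.2.2 = e.1.2 * e.2.1 + n := by exact_mod_cast hdet
      have hTT : q3T h N Y e = ww ((n : ℝ) / N) * h ((e.1.2 : ℝ) * e.2.1 / Y) ^ 2 *
          (ps0 (Real.log e.2.2 - Real.log e.1.1) * ps0 (Real.log e.2.1 - Real.log e.1.2)) := by
        unfold q3T
        rw [if_pos (by omega), hdet']
        congr 4
        ring
      rw [hT]
      dsimp only
      rw [hK, hTT, q4s_R2]
      unfold Wh yS tS uS mk4
      dsimp only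
      push_cast
      ring
  · symm
    apply sum_eq_zero
    intro e he
    rw [mem_filter] at he
    have hK : q3K D e.1 e.2 = 0 := by
      unfold q3K
      rw [if_neg (fun h3 => hdn ((hKn e he.2).1 h3))]
    rw [hT]
    dsimp only
    rw [hK]
    simp

/-- PROOF. Copy of `qds3` (`Lib_MP_92ef0c_sp/QdS3.lean`) with `arcp4`; `R2 β (cjr β) (mk4 e) = β e.1 * conj (β e.2)` replaces `q3_F4`; `q3_sum` has to be copied, the other lemmas can be imported. -/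
theorem qds4 (β : ℝ → ℕ × ℕ → ℂ) (hβ : ∀ X z, ‖β X z‖ ≤ 1) (hM : MRG β) : QdSmall4 β := by
  classical
  intro D hD h h1 h2 hh ε hε
  have h1p := hh.pos
  have h2p := hh.one
  by_cases h12 : h1 ≤ h2
  swap
  · -- trivial: `h = 0`
    have hz : ∀ y, h y = 0 := by
      intro y
      rcases le_total y h1 with h3 | h3
      · exact hh.lo y h3
      · exact hh.hi y (by linarith)
    refine ⟨0, fun N _ a _ => ?_⟩
    filter_upwards [eventually_ge_atTop 0] with Y hY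
    have h0 : ∑ n ∈ (Icc 1 N).filter (fun n => D ∣ n), ((ww ((n : ℝ) / N) : ℝ) : ℂ) *
      Qs4 (β (a * Y)) n (h2 * Y) (Wh (fun y => h y ^ 2)) Y = 0 := by
      apply sum_eq_zero
      intro n _
      have : Qs4 (β (a * Y)) n (h2 * Y) (Wh (fun y => h y ^ 2)) Y = 0 := by
        unfold Qs4 Wh
        apply sum_eq_zero
        intro e _
        dsimp only
        rw [hz]
        simp
      rw [this, mul_zero]
    rw [h0, norm_zero]
    positivity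
  have hs1 : 0 < Real.sqrt h1 := Real.sqrt_pos.2 h1p
  have hs2 : 0 < Real.sqrt h2 := Real.sqrt_pos.2 (by linarith)
  have hs12 : Real.sqrt h1 ≤ Real.sqrt h2 := Real.sqrt_le_sqrt h12
  obtain ⟨C, hC, hcntA⟩ := cntA3 (Real.sqrt h1 / 4) (4 * Real.sqrt h2) (4 * Real.sqrt h2) (1 / h1) (by positivity)
    (by linarith) (by positivity) (by positivity)
  obtain ⟨C1, hC1, hcnt⟩ := cnt3 1
  set K : ℝ := C + 2 * C1 * h2 with hK
  have hKp : 0 < K := by positivity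
  set η : ℝ := min 1 (ε / (4 * K)) with hηd
  have hη : 0 < η := lt_min one_pos (by positivity)
  have hη1 : η ≤ 1 := min_le_left _ _
  have hη2 : η * (4 * K) ≤ ε := by
    have := min_le_right 1 (ε / (4 * K))
    rwa [← hηd, le_div_iff₀ (by positivity)] at this
  obtain ⟨N0, hN0⟩ := arcp4 β hβ hM D hD (q3K D) (q3K_bd D) (q3K_per D) (Real.sqrt h1 / 4) (4 * Real.sqrt h2)
    (1 + 1 / h1) (4 * Real.sqrt h2) (by positivity) (by linarith) (by positivity) le_rfl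
    (q3F h η (Real.sqrt h1 / 4)) (q3F_cont hh.cont η (by positivity))
    (q3F_van hh hη) (ε / 2) (by linarith)
  obtain ⟨δ, hδ, hw⟩ := Metric.uniformContinuous_iff.1 (qdsW_uc η hη) (η / 4) (by linarith)
  have hw' : ∀ s s' : ℝ, |s - s'| < δ → |qdsW η s - qdsW η s'| < η / 4 := by
    intro s s' hs
    have := hw (a := s) (b := s') (by rw [Real.dist_eq]; exact hs)
    rwa [Real.dist_eq] at this
  refine ⟨max N0 1, fun N hN a ha => ?_⟩
  have hN1 : 1 ≤ N := (le_max_right _ _).trans hN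
  have hN' : (1 : ℝ) ≤ N := by exact_mod_cast hN1
  have hl1 : Tendsto (fun Y : ℝ => (N : ℝ) / (h1 * Y)) atTop (nhds 0) := by
    have h3 : Tendsto (fun Y : ℝ => ((N : ℝ) / h1) / Y) atTop (nhds 0) := tendsto_const_nhds.div_atTop tendsto_id
    refine h3.congr (fun Y => ?_)
    rw [div_div]
  have hl2 : Tendsto (fun Y : ℝ => h2 * (N : ℝ) / (h1 ^ 2 * Y)) atTop (nhds 0) := by
    have h3 : Tendsto (fun Y : ℝ => (h2 * (N : ℝ) / h1 ^ 2) / Y) atTop (nhds 0) :=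
      tendsto_const_nhds.div_atTop tendsto_id
    refine h3.congr (fun Y => ?_)
    rw [div_div]
  filter_upwards [hN0 N ((le_max_left _ _).trans hN) a ha, hcntA N hN1, eventually_gt_atTop 0,
    eventually_ge_atTop (N : ℝ), hl1.eventually_lt_const (by norm_num : (0 : ℝ) < 1), hl2.eventually_lt_const hδ,
    hl1.eventually_lt_const (by positivity : 0 < η / 2)] with Y hA hB hY0 hY1 hY2 hY3 hY4
  obtain ⟨g, hg⟩ : ∃ g, g = β (a * Y) := ⟨_, rfl⟩
  have hgb : ∀ z, ‖g z‖ ≤ 1 := by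
    intro z
    rw [hg]
    exact hβ _ z
  rw [← hg] at hA ⊢
  rw [q4s_sum g D hh hY1 hY0]
  set P := PB (4 * Real.sqrt h2 * Real.sqrt Y) (4 * Real.sqrt h2 * Real.sqrt Y) with hP
  rw [← sum_product' P P (fun V V' => q3K D V V' * (g V * (starRingEnd ℂ) (g V')) *
        ((q3F h η (Real.sqrt h1 / 4) (V.1 / Real.sqrt Y) (V'.1 / Real.sqrt Y) (dirn V)
          (Y * (dirn V' - dirn V) / N) : ℝ) : ℂ))] at hA
  have hdec : ∑ e ∈ P ×ˢ P, q3K D e.1 e.2 * (g e.1 * (starRingEnd ℂ) (g e.2)) * ((q3T h N Y e : ℝ) : ℂ) =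
      ∑ e ∈ P ×ˢ P, q3K D e.1 e.2 * (g e.1 * (starRingEnd ℂ) (g e.2)) *
        ((q3F h η (Real.sqrt h1 / 4) (e.1.1 / Real.sqrt Y) (e.2.1 / Real.sqrt Y) (dirn e.1)
          (Y * (dirn e.2 - dirn e.1) / N) : ℝ) : ℂ) +
      ∑ e ∈ P ×ˢ P, q3K D e.1 e.2 * (g e.1 * (starRingEnd ℂ) (g e.2)) *
        ((q3T h N Y e - q3F h η (Real.sqrt h1 / 4) (e.1.1 / Real.sqrt Y) (e.2.1 / Real.sqrt Y) (dirn e.1)
          (Y * (dirn e.2 - dirn e.1) / N) : ℝ) : ℂ) := by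
    rw [← sum_add_distrib]
    apply sum_congr rfl
    intro e _
    rw [Complex.ofReal_sub]
    ring
  rw [hdec]
  refine (norm_add_le _ _).trans ?_
  have hsec : ‖∑ e ∈ P ×ˢ P, q3K D e.1 e.2 * (g e.1 * (starRingEnd ℂ) (g e.2)) *
        ((q3T h N Y e - q3F h η (Real.sqrt h1 / 4) (e.1.1 / Real.sqrt Y) (e.2.1 / Real.sqrt Y) (dirn e.1)
          (Y * (dirn e.2 - dirn e.1) / N) : ℝ) : ℂ)‖ ≤
      ε / 2 * N * Y := by
    have hpt : ∀ e ∈ P ×ˢ P, ‖q3K D e.1 e.2 * (g e.1 * (starRingEnd ℂ) (g e.2)) *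
        ((q3T h N Y e - q3F h η (Real.sqrt h1 / 4) (e.1.1 / Real.sqrt Y) (e.2.1 / Real.sqrt Y) (dirn e.1)
          (Y * (dirn e.2 - dirn e.1) / N) : ℝ) : ℂ)‖ ≤
        (if Real.sqrt h1 / 4 * Real.sqrt Y ≤ e.1.1 ∧ Real.sqrt h1 / 4 * Real.sqrt Y ≤ e.2.1 ∧
          |dirn e.2 - dirn e.1| ≤ 1 / h1 * N / Y then η else 0) +
          (if q3Bad h2 η N Y e then 2 else 0) := by
      intro e he
      rw [mem_product, hP, mem_PB, mem_PB] at he
      obtain ⟨⟨⟨p1, -⟩, ⟨p2, -⟩, -⟩, ⟨⟨p4, -⟩, ⟨p5, -⟩, -⟩⟩ := he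
      have hcm := q3_cmp hh hη hη1 hN1 hY0 hY2.le hY3 hY4.le hw' e p1 p2 p4 p5
      set DD := q3T h N Y e - q3F h η (Real.sqrt h1 / 4) (e.1.1 / Real.sqrt Y) (e.2.1 / Real.sqrt Y) (dirn e.1)
          (Y * (dirn e.2 - dirn e.1) / N) with hDD
      have hKf : ‖q3K D e.1 e.2 * (g e.1 * (starRingEnd ℂ) (g e.2))‖ ≤ 1 := by
        rw [norm_mul, norm_mul, RCLike.norm_conj]
        exact mul_le_one₀ (q3K_bd1 D e.1 e.2) (by positivity) (mul_le_one₀ (hgb _) (norm_nonneg _) (hgb _))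
      rw [norm_mul, Complex.norm_real, Real.norm_eq_abs]
      refine (mul_le_of_le_one_left (abs_nonneg _) hKf).trans ?_
      have t1 : (0 : ℝ) ≤ if q3Bad h2 η N Y e then 2 else 0 := by split_ifs <;> norm_num
      have t2 : (0 : ℝ) ≤ if Real.sqrt h1 / 4 * Real.sqrt Y ≤ e.1.1 ∧ Real.sqrt h1 / 4 * Real.sqrt Y ≤ e.2.1 ∧
          |dirn e.2 - dirn e.1| ≤ 1 / h1 * N / Y then η else 0 := by
        split_ifs
        · exact hη.le
        · exact le_rfl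
      rcases hcm with ⟨m1, m2⟩ | ⟨m1, m2, m3, m4, m5⟩ | m1
      · rw [if_pos m2]
        linarith
      · rw [if_pos ⟨m2, m3, m4⟩, if_pos m5]
        linarith
      · linarith
    refine (norm_sum_le _ _).trans ((sum_le_sum hpt).trans ?_)
    rw [sum_add_distrib, ← sum_filter, ← sum_filter, sum_const, sum_const, nsmul_eq_mul, nsmul_eq_mul]
    have hb := q3_bad hC1 hη hη1 h2p hcnt (N := N) (Y := Y) hY1 (4 * Real.sqrt h2 * Real.sqrt Y)
    rw [← hP] at hb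
    have hb2 : (((P ×ˢ P).filter (fun e : (ℕ × ℕ) × (ℕ × ℕ) => Real.sqrt h1 / 4 * Real.sqrt Y ≤ e.1.1 ∧
        Real.sqrt h1 / 4 * Real.sqrt Y ≤ e.2.1 ∧ |dirn e.2 - dirn e.1| ≤ 1 / h1 * N / Y)).card : ℝ) ≤ C * N * Y := by
      refine le_trans (le_of_eq ?_) hB
      congr
    have hb1 : (((P ×ˢ P).filter (fun e : (ℕ × ℕ) × (ℕ × ℕ) => q3Bad h2 η N Y e)).card : ℝ) ≤
        η * N * (C1 * (h2 * Y)) := by
      refine le_trans (le_of_eq ?_) hb
      congr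
    have t1 := mul_le_mul_of_nonneg_right hb2 hη.le
    have hNY : 0 ≤ (N : ℝ) * Y := by positivity
    have t3 : C * N * Y * η + η * N * (C1 * (h2 * Y)) * 2 = η * (4 * K) / 4 * ((N : ℝ) * Y) := by
      rw [hK]
      ring
    have t4 : η * (4 * K) / 4 * ((N : ℝ) * Y) ≤ ε / 4 * ((N : ℝ) * Y) :=
      mul_le_mul_of_nonneg_right (by linarith) hNY
    calc _ ≤ C * N * Y * η + η * N * (C1 * (h2 * Y)) * 2 := by linarith
      _ = η * (4 * K) / 4 * ((N : ℝ) * Y) := t3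
      _ ≤ ε / 4 * ((N : ℝ) * Y) := t4
      _ ≤ ε / 2 * ((N : ℝ) * Y) := mul_le_mul_of_nonneg_right (by linarith) hNY
      _ = ε / 2 * N * Y := by ring
  refine (add_le_add hA hsec).trans (le_of_eq ?_)
  ring

end Pool.Agent.SplL

end
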