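import Pool.Agent.Lib_MP_92ef0c_m.M29
import Pool.Agent.Lib_MP_92ef0c_m.M31
import Pool.Agent.Lib_MP_92ef0c_m.M36
import Pool.Agent.Lib_MP_92ef0c_m.M38

/-!
# MP_92ef0c_nt, split pairs: merged library part M53

Concatenation of smaller files (each in its own section), only to save build time.
-/

/-! ### from `Lib_MP_92ef0c_sp.ProdS` -/

section

/-!
# The product over the primes
-/

set_option autoImplicit false

namespace Pool.Agent.Spl

open Finset Pool.Agent.GaussMR Pool.Agent.OmAll Pool.Agent.OmEq MeasureTheory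

/-- the phase of one prime -/
theorem prodS_re {E : Finset ℕ} {g : ℕ → ℂ}
    (hg1 : ∀ p : ℕ, p.Prime → p ∉ E → ‖g p‖ = 1) {T p : ℕ} (hp : p ∈ PP E T) (τ : ℝ) :
    |(g p * Complex.exp (-(2 * τ * Real.log p : ℝ) * Complex.I)).re| ≤ 1 := by
  obtain ⟨-, h2, h4⟩ := mem_PP.1 hp
  refine (Complex.abs_re_le_norm _).trans ?_
  rw [norm_mul, hg1 p h2 h4, one_mul]
  have : (-(2 * τ * Real.log p : ℝ) * Complex.I : ℂ) = ((-(2 * τ * Real.log p) : ℝ) : ℂ) * Complex.I := by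
    push_cast
    ring
  rw [this, Complex.norm_exp_ofReal_mul_I]

theorem prodS_two {E : Finset ℕ} {T p : ℕ} (hp : p ∈ PP E T) : 2 ≤ p :=
  (mem_PP.1 hp).2.1.two_le

theorem prodS_factor {p : ℕ} (hp : 2 ≤ p) {z c : ℝ} (hz : 0 < z) (hc : |c| ≤ 1) :
    0 ≤ 1 + 2 * As p * (z - 1 + z * c) := by
  obtain ⟨h1, -, -, h2⟩ := As_bound p hp
  have h3 : -1 ≤ c := (abs_le.1 hc).1
  have h4 : -1 ≤ z - 1 + z * c := by nlinarith
  nlinarith

theorem prodS_prod (E : Finset ℕ) (g : ℕ → ℂ) (hg1 : ∀ p : ℕ, p.Prime → p ∉ E → ‖g p‖ = 1)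
    (R : ℝ) (hNP : NPS E g R) (z : ℝ) (hz : 1 / 2 < z) (hz1 : z < 1)
    (B : ℝ) (hBpos : 0 < B) :
    ∃ K : ℝ, ∀ T : ℕ, 3 ≤ T → ∀ τ : ℝ, 0 < |τ| → |τ| ≤ B →
      ∏ p ∈ PP E T,
        (1 + 2 * As p * (z - 1 + z * (g p * Complex.exp (-(2 * τ * Real.log p : ℝ) * Complex.I)).re)) ≤
      (Real.log T) ^ (2 * (z - 1)) * (Real.exp K *
        Real.exp (2 * z * R * max 0 (Real.log (1 / |τ|)))) := by
  obtain ⟨C1, hC1⟩ := muS_bound
  obtain ⟨C2, hC2⟩ := hNP B hBpos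
  have hs : Summable (fun p : ℕ => 6 / (p : ℝ) ^ 2) := by
    have := (Real.summable_one_div_nat_pow (p := 2)).mpr (by norm_num)
    refine (this.mul_left 6).congr (fun p => ?_)
    ring
  obtain ⟨S, hS⟩ : ∃ S : ℝ, S = ∑' p : ℕ, 6 / (p : ℝ) ^ 2 := ⟨_, rfl⟩
  refine ⟨|C1| + E.card + 2 * |C2| + S, fun T hT τ hτ hτB => ?_⟩
  have hlog := ZSm.one_le_logT hT
  obtain ⟨c, hc⟩ : ∃ c : ℕ → ℝ, ∀ p, c p =
    (g p * Complex.exp (-(2 * τ * Real.log p : ℝ) * Complex.I)).re := ⟨_, fun _ => rfl⟩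
  have hc1 : ∀ p ∈ PP E T, |c p| ≤ 1 := by
    intro p hp
    rw [hc]
    exact prodS_re hg1 hp τ
  simp only [← hc]
  have hNP' : ∑ p ∈ PP E T, c p / p ≤ R * max 0 (Real.log (1 / |τ|)) + C2 := by
    have := hC2 T hT τ hτ hτB
    simp only [← hc] at this
    exact this
  have h1 : ∏ p ∈ PP E T, (1 + 2 * As p * (z - 1 + z * c p)) ≤
      Real.exp (∑ p ∈ PP E T, 2 * As p * (z - 1 + z * c p)) := by
    rw [Real.exp_sum]
    apply prod_le_prod
    · intro p hp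
      exact prodS_factor (prodS_two hp) (by linarith) (hc1 p hp)
    · intro p hp
      have := Real.add_one_le_exp (2 * As p * (z - 1 + z * c p))
      linarith
  refine h1.trans ?_
  have h2 : (Real.log T) ^ (2 * (z - 1)) = Real.exp (Real.log (Real.log T) * (2 * (z - 1))) :=
    Real.rpow_def_of_pos (by linarith) _
  rw [h2, ← Real.exp_add, ← Real.exp_add]
  apply Real.exp_le_exp.2
  -- the sum
  have h3 : ∑ p ∈ PP E T, 2 * As p * (z - 1 + z * c p) =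
      (z - 1) * ∑ p ∈ PP E T, 2 * As p + z * ∑ p ∈ PP E T, 2 * As p * c p := by
    rw [mul_sum, mul_sum, ← sum_add_distrib]
    refine sum_congr rfl fun p _ => ?_
    ring
  have h4 : ∑ p ∈ PP ∅ T, 2 * As p ≤ ∑ p ∈ PP E T, 2 * As p + E.card := by
    have hPP : PP E T = PP ∅ T \ E := by
      ext p
      rw [mem_sdiff, mem_PP, mem_PP]
      simp [and_assoc]
    rw [hPP, ← sum_inter_add_sum_sdiff (PP ∅ T) E]
    have h5 : ∑ p ∈ PP ∅ T ∩ E, 2 * As p ≤ E.card := by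
      have h6 : ∑ p ∈ PP ∅ T ∩ E, 2 * As p ≤ ∑ _p ∈ PP ∅ T ∩ E, (1 : ℝ) := by
        apply sum_le_sum
        intro p hp
        have := (As_bound p (prodS_two (mem_inter.1 hp).1)).2.2.2
        linarith
      rw [sum_const, nsmul_eq_mul, mul_one] at h6
      refine h6.trans ?_
      exact_mod_cast card_le_card inter_subset_right
    linarith
  have h5 : (z - 1) * ∑ p ∈ PP E T, 2 * As p ≤
      Real.log (Real.log T) * (2 * (z - 1)) + |C1| + E.card := by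
    have h6 := (abs_le.1 (hC1 T hT)).1
    have h7 : 2 * Real.log (Real.log T) - |C1| - E.card ≤ ∑ p ∈ PP E T, 2 * As p := by
      have := le_abs_self C1
      linarith
    have h8 : (z - 1) * ∑ p ∈ PP E T, 2 * As p ≤
        (z - 1) * (2 * Real.log (Real.log T) - |C1| - E.card) :=
      mul_le_mul_of_nonpos_left h7 (by linarith)
    have h9 : (1 - z) * (|C1| + E.card) ≤ 1 * (|C1| + E.card) :=
      mul_le_mul_of_nonneg_right (by linarith) (by positivity)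
    linarith
  have h6 : ∑ p ∈ PP E T, 2 * As p * c p ≤ 2 * ∑ p ∈ PP E T, c p / p + S := by
    have h7 : ∀ p ∈ PP E T, 2 * As p * c p ≤ 2 * (c p / p) + 6 / (p : ℝ) ^ 2 := by
      intro p hp
      obtain ⟨-, h8, h9, -⟩ := As_bound p (prodS_two hp)
      have h10 := hc1 p hp
      have h11 : 2 * As p * c p - 2 * (c p / p) = 2 * ((1 / (p : ℝ) - As p) * (-c p)) := by ring
      have h12 : (1 / (p : ℝ) - As p) * (-c p) ≤ (1 / (p : ℝ) - As p) * 1 :=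
        mul_le_mul_of_nonneg_left (by linarith [(abs_le.1 h10).1]) (by linarith)
      have h13 : 6 / (p : ℝ) ^ 2 = 2 * (3 / (p : ℝ) ^ 2) := by ring
      linarith
    have h8 := sum_le_sum h7
    rw [sum_add_distrib, ← mul_sum] at h8
    have h9 : ∑ p ∈ PP E T, 6 / (p : ℝ) ^ 2 ≤ S := by
      rw [hS]
      exact hs.sum_le_tsum _ (fun p _ => by positivity)
    linarith
  have hS0 : 0 ≤ S := by rw [hS]; exact tsum_nonneg (fun p => by positivity)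
  have h7 : z * ∑ p ∈ PP E T, 2 * As p * c p ≤
      2 * z * R * max 0 (Real.log (1 / |τ|)) + 2 * |C2| + S := by
    have h8 : ∑ p ∈ PP E T, 2 * As p * c p ≤ 2 * (R * max 0 (Real.log (1 / |τ|)) + C2) + S := by
      linarith
    have h9 := mul_le_mul_of_nonneg_left h8 (by linarith : 0 ≤ z)
    have h10 : z * (2 * C2 + S) ≤ 1 * (2 * |C2| + S) := by
      have e1 : z * (2 * C2 + S) ≤ z * (2 * |C2| + S) :=
        mul_le_mul_of_nonneg_left (by linarith [le_abs_self C2]) (by linarith)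
      have e2 : z * (2 * |C2| + S) ≤ 1 * (2 * |C2| + S) :=
        mul_le_mul_of_nonneg_right hz1.le (by positivity)
      linarith
    linarith
  rw [h3]
  linarith

/-- PROOF. Copy and adapt `prodB` (`Lib_MP_f1a94e_eq/ProdB.lean`): `As` in place of `Ap`, all primes. With `c_p = Re (g p exp (-2 i τ log p))`, `|c_p| ≤ 1`: the factor is `≥ 0` (`2 As p ≤ 1/3`) and `≤ exp (2 As p (z - 1 + z c_p))`; by `As_bound` the sum of the exponents is at most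
`(z - 1) ∑ 2 As p + z ∑_(PP E T) (2/p) c_p + ∑ 12/p^2 ≤ (z - 1)(2 log log T) + 2 z (R max 0 (log (1/|τ|)) + C) + C'` (`muS_bound`; the primes of `E` contribute at most `2 #E`; `NPS` with `B`). So the product is `≤ C4 (log T)^(2 (z-1)) max 1 (|τ|^(-2 z R))`, exactly as in `prodB`. If `R < 1`, `2 z R < 1` and `|τ|^(-2 z R)` is integrable
near `0`; in the second case of `h0`, `‖φ τ‖^2 |τ|^(-2 z R) ≤ C^2 |τ|^(2 - 2 z R)`, `2 - 2 z R > 0`. -/
theorem prodS (E : Finset ℕ) (g : ℕ → ℂ) (hg1 : ∀ p : ℕ, p.Prime → p ∉ E → ‖g p‖ = 1) (R : ℝ)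
    (hR0 : 0 ≤ R) (hR1 : R ≤ 1) (hNP : NPS E g R) (z : ℝ) (hz : 1 / 2 < z) (hz1 : z < 1) (hzR : R < 1 → 2 * z * R < 1)
    (B C : ℝ) (hBpos : 0 < B) (φ : ℝ → ℂ) (hφ : Continuous φ) (hB : ∀ τ, B ≤ |τ| → φ τ = 0)
    (h0 : R < 1 ∨ ∀ τ, ‖φ τ‖ ≤ C * |τ|) :
    ∃ C' : ℝ, ∀ T : ℕ, 3 ≤ T →
      ∫ τ, ‖φ τ‖ ^ 2 * ∏ p ∈ PP E T,
        (1 + 2 * As p * (z - 1 + z * (g p * Complex.exp (-(2 * τ * Real.log p : ℝ) * Complex.I)).re)) ≤
      C' * (Real.log T) ^ (2 * (z - 1)) := by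
  obtain ⟨K, hK⟩ := prodS_prod E g hg1 R hNP z hz hz1 B hBpos
  obtain ⟨h, hi, hh⟩ := prodB_major R z B C hR0 hR1 hz hz1 hzR hBpos φ hφ hB h0
  refine ⟨Real.exp K * ∫ τ, h τ, fun T hT => ?_⟩
  have hlog : 0 < Real.log T := by linarith [ZSm.one_le_logT hT]
  have h1 : ∫ τ, ‖φ τ‖ ^ 2 * ∏ p ∈ PP E T,
        (1 + 2 * As p * (z - 1 + z * (g p * Complex.exp (-(2 * τ * Real.log p : ℝ) * Complex.I)).re)) ≤
      ∫ τ, ((Real.log T) ^ (2 * (z - 1)) * Real.exp K) * h τ := by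
    apply integral_mono_of_nonneg
    · refine Filter.Eventually.of_forall fun τ => ?_
      apply mul_nonneg (by positivity)
      exact prod_nonneg fun p hp => prodS_factor (prodS_two hp) (by linarith) (prodS_re hg1 hp τ)
    · exact hi.const_mul _
    · have h2 : ∀ᵐ τ : ℝ, τ ≠ 0 := by
        simp [ae_iff]
      filter_upwards [h2] with τ hτ
      have hτ' : 0 < |τ| := abs_pos.2 hτ
      by_cases hτB : |τ| ≤ B
      · have e1 := hK T hT τ hτ' hτB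
        have e2 := hh τ hτ'
        calc ‖φ τ‖ ^ 2 * ∏ p ∈ PP E T,
              (1 + 2 * As p * (z - 1 + z * (g p * Complex.exp (-(2 * τ * Real.log p : ℝ) * Complex.I)).re))
            ≤ ‖φ τ‖ ^ 2 * ((Real.log T) ^ (2 * (z - 1)) * (Real.exp K *
                Real.exp (2 * z * R * max 0 (Real.log (1 / |τ|))))) :=
              mul_le_mul_of_nonneg_left e1 (by positivity)
          _ = ((Real.log T) ^ (2 * (z - 1)) * Real.exp K) * (‖φ τ‖ ^ 2 *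
                Real.exp (2 * z * R * max 0 (Real.log (1 / |τ|)))) := by ring
          _ ≤ _ := mul_le_mul_of_nonneg_left e2 (by positivity)
      · have e2 := hh τ hτ'
        rw [hB τ (not_le.1 hτB).le, norm_zero] at e2 ⊢
        have e3 : 0 ≤ h τ := by simpa using e2
        have : 0 ≤ ((Real.log T) ^ (2 * (z - 1)) * Real.exp K) * h τ := by positivity
        simpa using this
  rw [integral_const_mul] at h1
  refine h1.trans (le_of_eq ?_)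
  ring

end Pool.Agent.Spl

end

/-! ### from `Lib_MP_92ef0c_sp.AnIS` -/

section

/-!
# Cauchy-Schwarz for the cluster sums
-/

set_option autoImplicit false

namespace Pool.Agent.Spl

open Finset Pool.Agent.GaussMR Pool.Agent.OmAll Pool.Agent.OmEq MeasureTheory Filter

open Pool.Agent.OmAll.ZSm

theorem anis_Ap {E : Finset ℕ} {T p : ℕ} (h : p ∈ PP E T) :
    0 < As p ∧ As p ≤ 1 / p ∧ 2 * As p ≤ 1 / 3 := by
  obtain ⟨h1, h2, -, h4⟩ := As_bound p (mem_PP.1 h).2.1.two_le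
  exact ⟨h1, h2, h4⟩

theorem anis_Pr (E : Finset ℕ) (T : ℕ) {D : Finset ℕ} (hD : D ⊆ PP E T) : 0 ≤ PrS E T D := by
  unfold PrS
  apply mul_nonneg
  · exact Finset.prod_nonneg fun p hp => (anis_Ap (hD hp)).1.le
  · apply Finset.prod_nonneg
    intro p hp
    have := (anis_Ap (Finset.sdiff_subset hp)).2.2
    linarith

theorem anis_pow (E : Finset ℕ) (T : ℕ) (y : ℝ) :
    ∑ D ∈ (PP E T).powerset, PrS E T D * y ^ D.card = ∏ p ∈ PP E T, (1 + (y - 2) * As p) := by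
  have h1 : ∏ p ∈ PP E T, (1 + (y - 2) * As p) = ∏ p ∈ PP E T, (y * As p + (1 - 2 * As p)) :=
    Finset.prod_congr rfl fun p _ => by ring
  rw [h1, Finset.prod_add]
  apply Finset.sum_congr rfl
  intro D _
  unfold PrS
  rw [Finset.prod_mul_distrib, Finset.prod_const]
  ring

theorem anis_two (E : Finset ℕ) (T : ℕ) :
    ∑ D ∈ (PP E T).powerset, PrS E T D * 2 ^ D.card = 1 := by
  rw [anis_pow]
  apply Finset.prod_eq_one
  intro p _
  ring

theorem anis_lg (E : Finset ℕ) (T : ℕ) :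
    ∑ D ∈ (PP E T).powerset, PrS E T D * ∑ a ∈ D.powerset, lg a ≤ ∑ p ∈ PP E T, 2 * As p * Real.log p := by
  rw [← ani_prod (PP E T) (fun p => 2 * As p) (fun p => Real.log p)]
  apply Finset.sum_le_sum
  intro D hD
  rw [Finset.mem_powerset] at hD
  have h1 : ∑ a ∈ D.powerset, lg a ≤ 2 ^ D.card * lg D := by
    calc ∑ a ∈ D.powerset, lg a ≤ ∑ a ∈ D.powerset, lg D :=
          Finset.sum_le_sum fun a ha => lg_mono (Finset.mem_powerset.1 ha)
      _ = _ := by rw [Finset.sum_const, Finset.card_powerset, nsmul_eq_mul]; push_cast; ring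
  refine (mul_le_mul_of_nonneg_left h1 (anis_Pr E T hD)).trans (le_of_eq ?_)
  unfold PrS lg
  rw [Finset.prod_mul_distrib, Finset.prod_const]
  ring

/-! ### cluster sums -/

theorem anis_gnorm {E : Finset ℕ} {g : ℕ → ℂ}
    (hg1 : ∀ p : ℕ, p.Prime → p ∉ E → ‖g p‖ = 1) {T : ℕ} {a : Finset ℕ}
    (ha : a ⊆ PP E T) : ‖∏ p ∈ a, g p‖ = 1 := by
  rw [norm_prod]
  apply Finset.prod_eq_one
  intro p hp
  have := mem_PP.1 (ha hp)
  exact hg1 p this.2.1 this.2.2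

theorem anis_cs_le {E : Finset ℕ} {g : ℕ → ℂ}
    (hg1 : ∀ p : ℕ, p.Prime → p ∉ E → ‖g p‖ = 1) {T : ℕ} {D : Finset ℕ}
    (hD : D ⊆ PP E T) (ψ : ℝ → ℂ) (t : ℝ) :
    ‖cs g ψ D t‖ ≤ ∑ a ∈ D.powerset, ‖ψ (t - 2 * lg a)‖ := by
  unfold cs
  refine (norm_sum_le _ _).trans (Finset.sum_le_sum fun a ha => ?_)
  rw [norm_mul, anis_gnorm hg1 ((Finset.mem_powerset.1 ha).trans hD), one_mul]

theorem anis_cs_sq (E : Finset ℕ) (g : ℕ → ℂ)
    (hg1 : ∀ p : ℕ, p.Prime → p ∉ E → ‖g p‖ = 1) (T : ℕ) (D : Finset ℕ)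
    (hD : D ⊆ PP E T) {ψ : ℝ → ℂ} (hψ : Continuous ψ) {C : ℝ} (hC : ∀ t, ‖ψ t‖ ≤ C / (1 + t ^ 2)) :
    Integrable (fun t => ‖cs g ψ D t‖ ^ 2) := by
  have hC0 := ani_C hC
  have hb : ∀ t, ‖cs g ψ D t‖ ≤ ∑ a ∈ D.powerset, C := by
    intro t
    refine (anis_cs_le hg1 hD ψ t).trans (Finset.sum_le_sum fun a _ => (hC _).trans ?_)
    apply div_le_self hC0
    nlinarith [sq_nonneg (t - 2 * lg a)]
  refine Integrable.mono' ((ani_cs_int g (ani_int hψ hC) D).norm.const_mul (∑ a ∈ D.powerset, C))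
    ((ani_cs_cont g hψ D).norm.pow 2).aestronglyMeasurable (Eventually.of_forall fun t => ?_)
  rw [Real.norm_eq_abs, abs_of_nonneg (by positivity), sq]
  exact mul_le_mul_of_nonneg_right (hb t) (norm_nonneg _)

/-- the integral of one cluster sum -/
theorem anis_D (E : Finset ℕ) (g : ℕ → ℂ)
    (hg1 : ∀ p : ℕ, p.Prime → p ∉ E → ‖g p‖ = 1) (T : ℕ) (D : Finset ℕ)
    (hD : D ⊆ PP E T) {ψ : ℝ → ℂ} (hψ : Continuous ψ) {C : ℝ} (hC : ∀ t, ‖ψ t‖ ≤ C / (1 + t ^ 2))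
    {z A K l : ℝ} (hz : 0 < z) (hK : 0 < K) (hA : 0 < A) (hl : 0 < l) :
    ∫ t, ‖cs g ψ D t‖ ≤ l * (2 * A + K) * (1 / z) ^ D.card +
      1 / (2 * l) * (z ^ D.card * ∫ t, ‖cs g ψ D t‖ ^ 2) +
      (2 * C / K * 2 ^ D.card + 4 * C / A * ∑ a ∈ D.powerset, lg a) := by
  have hψi := ani_int hψ hC
  have hci := (ani_cs_int g hψi D).norm
  have hsq := anis_cs_sq E g hg1 T D hD hψ hC
  rw [← integral_add_compl (measurableSet_Icc (a := -(2 * A + K)) (b := 2 * A + K)) hci]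
  apply add_le_add
  · have hzc : 0 < z ^ D.card := by positivity
    have h1 : ∀ t, ‖cs g ψ D t‖ ≤ l / 2 * (1 / z) ^ D.card +
        1 / (2 * l) * (z ^ D.card * ‖cs g ψ D t‖ ^ 2) := by
      intro t
      obtain ⟨x, hx⟩ : ∃ x, x = ‖cs g ψ D t‖ := ⟨_, rfl⟩
      obtain ⟨y, hy⟩ : ∃ y, y = z ^ D.card := ⟨_, rfl⟩
      rw [← hx, ← hy, one_div_pow, ← hy]
      rw [← hy] at hzc
      have e : l / 2 * (1 / y) + 1 / (2 * l) * (y * x ^ 2) - x =
          (l - y * x) ^ 2 / (2 * l * y) := by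
        field_simp
        ring
      have : 0 ≤ (l - y * x) ^ 2 / (2 * l * y) := by positivity
      linarith
    have hint : Integrable (fun t => 1 / (2 * l) * (z ^ D.card * ‖cs g ψ D t‖ ^ 2)) :=
      (hsq.const_mul _).const_mul _
    calc ∫ t in Set.Icc (-(2 * A + K)) (2 * A + K), ‖cs g ψ D t‖
        ≤ ∫ t in Set.Icc (-(2 * A + K)) (2 * A + K), (l / 2 * (1 / z) ^ D.card +
            1 / (2 * l) * (z ^ D.card * ‖cs g ψ D t‖ ^ 2)) := by
          apply setIntegral_mono hci.integrableOn _ h1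
          exact (continuousOn_const.integrableOn_compact isCompact_Icc).add hint.integrableOn
      _ = (∫ t in Set.Icc (-(2 * A + K)) (2 * A + K), l / 2 * (1 / z) ^ D.card) +
            ∫ t in Set.Icc (-(2 * A + K)) (2 * A + K),
              1 / (2 * l) * (z ^ D.card * ‖cs g ψ D t‖ ^ 2) :=
          integral_add (continuousOn_const.integrableOn_compact isCompact_Icc) hint.integrableOn
      _ ≤ l * (2 * A + K) * (1 / z) ^ D.card +
            1 / (2 * l) * (z ^ D.card * ∫ t, ‖cs g ψ D t‖ ^ 2) := by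
          apply add_le_add
          · rw [setIntegral_const, Measure.real, Real.volume_Icc, smul_eq_mul,
              ENNReal.toReal_ofReal (by linarith)]
            apply le_of_eq
            ring
          · refine (setIntegral_le_integral hint (Eventually.of_forall fun t => ?_)).trans ?_
            · show 0 ≤ 1 / (2 * l) * (z ^ D.card * ‖cs g ψ D t‖ ^ 2)
              positivity
            · rw [integral_const_mul, integral_const_mul]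
  · calc ∫ t in (Set.Icc (-(2 * A + K)) (2 * A + K))ᶜ, ‖cs g ψ D t‖
        ≤ ∫ t in (Set.Icc (-(2 * A + K)) (2 * A + K))ᶜ, ∑ a ∈ D.powerset, ‖ψ (t - 2 * lg a)‖ := by
          apply setIntegral_mono hci.integrableOn _ (anis_cs_le hg1 hD ψ)
          exact (integrable_finset_sum _ fun a _ =>
            (hψi.comp_sub_right (2 * lg a)).norm).integrableOn
      _ = ∑ a ∈ D.powerset, ∫ t in (Set.Icc (-(2 * A + K)) (2 * A + K))ᶜ, ‖ψ (t - 2 * lg a)‖ :=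
          integral_finset_sum _ fun a _ => (hψi.comp_sub_right (2 * lg a)).norm.integrableOn
      _ ≤ ∑ a ∈ D.powerset, (2 * C / K + 4 * C * lg a / A) :=
          Finset.sum_le_sum fun a _ => ani_one hψ hC (lg_nonneg a) hK hA
      _ = _ := by
          rw [Finset.sum_add_distrib, Finset.sum_const, Finset.card_powerset, nsmul_eq_mul,
            Finset.mul_sum]
          push_cast
          congr 1
          · ring
          · exact Finset.sum_congr rfl fun a _ => by ring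

/-- the density of the subsets with weight `z^(-#D)` -/
theorem anis_S1 (E : Finset ℕ) (z : ℝ) (hz : 1 / 2 < z) (hz1 : z < 1) :
    ∃ C4 : ℝ, 0 < C4 ∧ ∀ T : ℕ, 3 ≤ T →
      ∑ D ∈ (PP E T).powerset, PrS E T D * (1 / z) ^ D.card ≤ C4 * (Real.log T) ^ (1 / z - 2) := by
  obtain ⟨C, hC⟩ := muS_bound
  have hz2 : 1 / z - 2 < 0 := by
    have : 1 / z < 2 := by
      rw [div_lt_iff₀ (by linarith)]
      linarith
    linarith
  refine ⟨Real.exp ((2 - 1 / z) * (C / 2 + E.card)), Real.exp_pos _, fun T hT => ?_⟩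
  have hL := one_le_logT hT
  rw [anis_pow]
  have h1 : ∏ p ∈ PP E T, (1 + (1 / z - 2) * As p) ≤ Real.exp ((1 / z - 2) * ∑ p ∈ PP E T, As p) := by
    rw [Finset.mul_sum, Real.exp_sum]
    apply Finset.prod_le_prod
    · intro p hp
      have h2 := anis_Ap hp
      have h3 : 0 < 1 / z := by positivity
      nlinarith [mul_pos h3 h2.1]
    · intro p _
      have := Real.add_one_le_exp ((1 / z - 2) * As p)
      linarith
  refine h1.trans ?_
  -- lower bound for the sum of `As`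
  have h2 : Real.log (Real.log T) - (C / 2 + E.card) ≤ ∑ p ∈ PP E T, As p := by
    have h3 := (abs_le.1 (hC T hT)).1
    have h4 : ∑ p ∈ PP ∅ T, 2 * As p = 2 * ∑ p ∈ PP ∅ T, As p := by
      rw [Finset.mul_sum]
    have h5 : ∑ p ∈ PP ∅ T, As p = ∑ p ∈ PP E T, As p + ∑ p ∈ PP ∅ T ∩ E, As p := by
      rw [← Finset.sum_sdiff (Finset.inter_subset_left (s₁ := PP ∅ T) (s₂ := E))]
      congr 1
      apply Finset.sum_congr _ fun _ _ => rfl
      ext a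
      simp only [Finset.mem_sdiff, Finset.mem_inter, mem_PP]
      constructor
      · rintro ⟨⟨h1, h2, -⟩, h3⟩
        exact ⟨h1, h2, fun h => h3 ⟨⟨h1, h2, Finset.notMem_empty a⟩, h⟩⟩
      · rintro ⟨h1, h2, h3⟩
        exact ⟨⟨h1, h2, Finset.notMem_empty a⟩, fun h => h3 h.2⟩
    have h6 : ∑ p ∈ PP ∅ T ∩ E, As p ≤ E.card := by
      calc ∑ p ∈ PP ∅ T ∩ E, As p ≤ ∑ p ∈ PP ∅ T ∩ E, 1 := by
            apply Finset.sum_le_sum
            intro p hp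
            rw [Finset.mem_inter] at hp
            have h8 := (anis_Ap hp.1).2.2
            linarith
        _ = ((PP ∅ T ∩ E).card : ℝ) := by simp
        _ ≤ E.card := by exact_mod_cast Finset.card_le_card Finset.inter_subset_right
    linarith
  have h3 : (Real.log T) ^ (1 / z - 2) = Real.exp ((1 / z - 2) * Real.log (Real.log T)) := by
    rw [Real.rpow_def_of_pos (by linarith), mul_comm]
  rw [h3, ← Real.exp_add]
  apply Real.exp_le_exp.2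
  nlinarith [mul_le_mul_of_nonpos_left h2 hz2.le]

theorem anis_S3 (E : Finset ℕ) : ∃ C1 : ℝ, 0 ≤ C1 ∧ ∀ T : ℕ, 3 ≤ T →
    ∑ p ∈ PP E T, 2 * As p * Real.log p ≤ 2 * Real.log T + C1 := by
  obtain ⟨C, hC⟩ := mertSlog
  have hC0 : 0 ≤ C := (abs_nonneg _).trans (hC 2 le_rfl)
  refine ⟨2 * C, by positivity, fun T hT => ?_⟩
  have h1 : ∑ p ∈ PP ∅ T, Real.log p / p ≤ Real.log T + C := by
    have := (abs_le.1 (hC T (by omega : 2 ≤ T))).2
    linarith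
  calc ∑ p ∈ PP E T, 2 * As p * Real.log p ≤ ∑ p ∈ PP E T, 2 * (Real.log p / p) := by
        apply Finset.sum_le_sum
        intro p hp
        have h2 := (anis_Ap hp).2.1
        have h3 := mul_le_mul_of_nonneg_right h2 (Real.log_natCast_nonneg p)
        calc 2 * As p * Real.log p = 2 * (As p * Real.log p) := by ring
          _ ≤ 2 * (1 / (p : ℝ) * Real.log p) := by linarith
          _ = _ := by ring
    _ ≤ ∑ p ∈ PP ∅ T, 2 * (Real.log p / p) := by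
        apply Finset.sum_le_sum_of_subset_of_nonneg
        · intro p hp
          have h4 := mem_PP.1 hp
          exact mem_PP.2 ⟨h4.1, h4.2.1, Finset.notMem_empty p⟩
        · intro p _ _
          have := Real.log_natCast_nonneg p
          positivity
    _ = 2 * ∑ p ∈ PP ∅ T, Real.log p / p := by rw [Finset.mul_sum]
    _ ≤ _ := by linarith

theorem anis_total (E : Finset ℕ) (g : ℕ → ℂ)
    (hg1 : ∀ p : ℕ, p.Prime → p ∉ E → ‖g p‖ = 1) (T : ℕ) {ψ : ℝ → ℂ}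
    (hψ : Continuous ψ) {C : ℝ} (hC : ∀ t, ‖ψ t‖ ≤ C / (1 + t ^ 2))
    {z A K l : ℝ} (hz : 0 < z) (hK : 0 < K) (hA : 0 < A) (hl : 0 < l) :
    IS E g T ψ ≤ l * (2 * A + K) * (∑ D ∈ (PP E T).powerset, PrS E T D * (1 / z) ^ D.card) +
      1 / (2 * l) * (∑ D ∈ (PP E T).powerset, PrS E T D * z ^ D.card * ∫ t, ‖cs g ψ D t‖ ^ 2) +
      (2 * C / K + 4 * C / A * ∑ p ∈ PP E T, 2 * As p * Real.log p) := by
  have hC0 := ani_C hC
  have h1 : IS E g T ψ ≤ ∑ D ∈ (PP E T).powerset, PrS E T D * (l * (2 * A + K) * (1 / z) ^ D.card +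
      1 / (2 * l) * (z ^ D.card * ∫ t, ‖cs g ψ D t‖ ^ 2) +
      (2 * C / K * 2 ^ D.card + 4 * C / A * ∑ a ∈ D.powerset, lg a)) := by
    unfold IS
    apply Finset.sum_le_sum
    intro D hD
    rw [Finset.mem_powerset] at hD
    exact mul_le_mul_of_nonneg_left (anis_D E g hg1 T D hD hψ hC hz hK hA hl) (anis_Pr E T hD)
  refine h1.trans ?_
  have h2 : ∑ D ∈ (PP E T).powerset, PrS E T D * (l * (2 * A + K) * (1 / z) ^ D.card +
      1 / (2 * l) * (z ^ D.card * ∫ t, ‖cs g ψ D t‖ ^ 2) +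
      (2 * C / K * 2 ^ D.card + 4 * C / A * ∑ a ∈ D.powerset, lg a)) =
      l * (2 * A + K) * (∑ D ∈ (PP E T).powerset, PrS E T D * (1 / z) ^ D.card) +
      1 / (2 * l) * (∑ D ∈ (PP E T).powerset, PrS E T D * z ^ D.card * ∫ t, ‖cs g ψ D t‖ ^ 2) +
      (2 * C / K * (∑ D ∈ (PP E T).powerset, PrS E T D * 2 ^ D.card) +
        4 * C / A * ∑ D ∈ (PP E T).powerset, PrS E T D * ∑ a ∈ D.powerset, lg a) := by
    rw [Finset.mul_sum, Finset.mul_sum, Finset.mul_sum, Finset.mul_sum, ← Finset.sum_add_distrib,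
      ← Finset.sum_add_distrib, ← Finset.sum_add_distrib]
    apply Finset.sum_congr rfl
    intro D _
    ring
  rw [h2, anis_two]
  have h3 := mul_le_mul_of_nonneg_left (anis_lg E T) (by positivity : 0 ≤ 4 * C / A)
  linarith

/-- PROOF. Copy and adapt `anI` (`Lib_MP_f1a94e_eq/AnI.lean`; its general lemmas `ani_..` can be reused): `PrS`, `IS`, `PP`, `As` in place of `Pr`, `IT`, `PE`, `Ap`; `∑_D PrS D 2^(#D) = 1`, `∑_D PrS D ∑_(a ⊆ D) lg a = ∑_p As p log p ≤ ∑_(p ≤ T) log p / p ≤ C log T` (`mertSlog`), `∏ (1 + 2 As p (1/z - 1)) ≤ C (log T)^(2 (1/z - 1))` (or the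
form used there; `muS_bound`), and `1/z + 2 z - 3 < 0` for `1/2 < z < 1`. -/
theorem anIS (E : Finset ℕ) (g : ℕ → ℂ) (hg1 : ∀ p : ℕ, p.Prime → p ∉ E → ‖g p‖ = 1)
    (z : ℝ) (hz : 1 / 2 < z) (hz1 : z < 1) (ψ : ℝ → ℂ) (hψ : Continuous ψ) (C : ℝ) (hC : ∀ t, ‖ψ t‖ ≤ C / (1 + t ^ 2))
    (C' : ℝ) (hL2 : ∀ T : ℕ, 3 ≤ T → ∑ D ∈ (PP E T).powerset, PrS E T D * z ^ D.card * ∫ t, ‖cs g ψ D t‖ ^ 2 ≤
      C' * (Real.log T) ^ (2 * (z - 1))) :
    Tendsto (fun T : ℕ => IS E g T ψ) atTop (nhds 0) := by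
  have hz0 : 0 < z := by linarith
  have hC0 := ani_C hC
  obtain ⟨C4, hC4, hS1⟩ := anis_S1 E z hz hz1
  obtain ⟨C1, hC1, hS3⟩ := anis_S3 E
  -- the exponent
  have hexp : 1 / z - 1 < 2 * (1 - z) := by
    rw [sub_lt_iff_lt_add, div_lt_iff₀ hz0]
    nlinarith
  obtain ⟨m, hm1, hm2⟩ := exists_between hexp
  have hlogT : Tendsto (fun T : ℕ => Real.log (T : ℝ)) atTop atTop :=
    Real.tendsto_log_atTop.comp tendsto_natCast_atTop_atTop
  have hl1 : Tendsto (fun T : ℕ => (Real.log (T : ℝ)) ^ (1 / z - 1 - m)) atTop (nhds 0) := by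
    have h1 := (tendsto_rpow_neg_atTop (y := m - (1 / z - 1)) (by linarith)).comp hlogT
    refine h1.congr fun T => ?_
    simp only [Function.comp]
    congr 1
    ring
  have hl2 : Tendsto (fun T : ℕ => (Real.log (T : ℝ)) ^ (m + 2 * (z - 1))) atTop (nhds 0) := by
    have h1 := (tendsto_rpow_neg_atTop (y := 2 * (1 - z) - m) (by linarith)).comp hlogT
    refine h1.congr fun T => ?_
    simp only [Function.comp]
    congr 1
    ring
  -- the bound for fixed `K`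
  have hbound : ∀ K : ℝ, 1 ≤ K → ∀ T : ℕ, 3 ≤ T → IS E g T ψ ≤
      3 * K * C4 * (Real.log (T : ℝ)) ^ (1 / z - 1 - m) +
      C' / 2 * (Real.log (T : ℝ)) ^ (m + 2 * (z - 1)) + (10 * C + 4 * C * C1) / K := by
    intro K hK T hT
    have hL := one_le_logT hT
    have hL0 : 0 < Real.log (T : ℝ) := by linarith
    obtain ⟨L, hLdef⟩ : ∃ L : ℝ, L = Real.log (T : ℝ) := ⟨_, rfl⟩
    have hK0 : 0 < K := by linarith
    have h1 := anis_total E g hg1 T hψ hC (z := z) (A := K * Real.log T) (K := K)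
      (l := (Real.log (T : ℝ)) ^ (-m)) hz0 hK0 (by positivity) (by positivity)
    have h2 := hS1 T hT
    have h3 := hS3 T hT
    have h4 := hL2 T hT
    rw [← hLdef] at h1 h2 h3 h4 hL hL0 ⊢
    refine h1.trans ?_
    apply add_le_add
    · apply add_le_add
      · have h5 : 0 ≤ L ^ (-m) * (2 * (K * L) + K) := by positivity
        refine (mul_le_mul_of_nonneg_left h2 h5).trans ?_
        have h6 : L ^ (-m) * (2 * (K * L) + K) ≤ L ^ (-m) * (3 * K * L) := by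
          apply mul_le_mul_of_nonneg_left _ (by positivity)
          nlinarith
        refine (mul_le_mul_of_nonneg_right h6 (by positivity)).trans (le_of_eq ?_)
        have h7 : L ^ (1 / z - 1 - m) = L ^ (-m) * L * L ^ (1 / z - 2) := by
          rw [← Real.rpow_add_one hL0.ne', ← Real.rpow_add hL0]
          congr 1
          ring
        rw [h7]
        ring
      · have h5 : 0 ≤ 1 / (2 * L ^ (-m)) := by positivity
        refine (mul_le_mul_of_nonneg_left h4 h5).trans (le_of_eq ?_)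
        have h7 : L ^ (m + 2 * (z - 1)) = (L ^ (-m))⁻¹ * L ^ (2 * (z - 1)) := by
          rw [Real.rpow_neg hL0.le, inv_inv, ← Real.rpow_add hL0]
        rw [h7]
        field_simp
    · have h5 : 4 * C / (K * L) * ∑ p ∈ PP E T, 2 * As p * Real.log p ≤
          4 * C / (K * L) * (2 * L + C1) :=
        mul_le_mul_of_nonneg_left h3 (by positivity)
      have h6 : 4 * C / (K * L) * (2 * L + C1) ≤ (8 * C + 4 * C * C1) / K := by
        rw [div_mul_eq_mul_div, div_le_div_iff₀ (by positivity) hK0]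
        have h8 : 4 * C * C1 * K ≤ 4 * C * C1 * K * L := by
          apply le_mul_of_one_le_right (by positivity) hL
        nlinarith
      have h7 : (10 * C + 4 * C * C1) / K = 2 * C / K + (8 * C + 4 * C * C1) / K := by ring
      linarith
  -- conclusion
  have hIT0 : ∀ T, 0 ≤ IS E g T ψ := by
    intro T
    unfold IS
    apply Finset.sum_nonneg
    intro D hD
    rw [Finset.mem_powerset] at hD
    exact mul_nonneg (anis_Pr E T hD) (integral_nonneg fun t => norm_nonneg _)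
  rw [Metric.tendsto_atTop]
  intro ε hε
  obtain ⟨K, hK⟩ := exists_nat_gt (max 1 ((10 * C + 4 * C * C1) / (ε / 2)))
  have hK1 : (1 : ℝ) < K := (le_max_left _ _).trans_lt hK
  have hK2 : (10 * C + 4 * C * C1) / (ε / 2) < K := (le_max_right _ _).trans_lt hK
  have hK3 : (10 * C + 4 * C * C1) / K < ε / 2 := by
    rw [div_lt_iff₀ (by positivity)] at hK2
    rw [div_lt_iff₀ (by linarith)]
    linarith
  have hlim : Tendsto (fun T : ℕ => 3 * K * C4 * (Real.log (T : ℝ)) ^ (1 / z - 1 - m) +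
      C' / 2 * (Real.log (T : ℝ)) ^ (m + 2 * (z - 1))) atTop (nhds 0) := by
    have := (hl1.const_mul (3 * K * C4)).add (hl2.const_mul (C' / 2))
    simpa using this
  obtain ⟨N, hN⟩ := ((hlim.eventually (gt_mem_nhds (show (0:ℝ) < ε / 2 by linarith))).and
    (eventually_ge_atTop 3)).exists_forall_of_atTop
  refine ⟨N, fun T hT => ?_⟩
  obtain ⟨h1, h2⟩ := hN T hT
  have h3 := hbound K hK1.le T h2
  rw [Real.dist_eq, sub_zero, abs_of_nonneg (hIT0 T)]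
  linarith

end Pool.Agent.Spl

end

/-! ### from `Lib_MP_92ef0c_sp.AnS` -/

section

/-!
# The limit quantity tends to zero
-/

set_option autoImplicit false

namespace Pool.Agent.Spl

open Finset Pool.Agent.GaussMR Pool.Agent.OmAll Pool.Agent.OmEq MeasureTheory Filter

namespace AnSP

open Pool.Agent.OmEq.AnP

theorem PrS_nonneg (E : Finset ℕ) (T : ℕ) (D : Finset ℕ) (hD : D ⊆ PP E T) : 0 ≤ PrS E T D := by
  have h : ∀ p ∈ PP E T, 0 < As p ∧ 2 * As p ≤ 1 / 3 := by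
    intro p hp
    rw [mem_PP] at hp
    obtain ⟨h1, -, -, h2⟩ := As_bound p hp.2.1.two_le
    exact ⟨h1, h2⟩
  unfold PrS
  apply mul_nonneg
  · exact prod_nonneg fun p hp => (h p (hD hp)).1.le
  · refine prod_nonneg fun p hp => ?_
    have := (h p (mem_sdiff.mp hp).1).2
    linarith

/-- `∑_D PrS D ∏_(p ∈ D) x_p = ∏ (As p x_p + 1 - 2 As p)` -/
theorem sum_PrS (E : Finset ℕ) (T : ℕ) (x : ℕ → ℝ) :
    ∑ D ∈ (PP E T).powerset, PrS E T D * ∏ p ∈ D, x p =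
      ∏ p ∈ PP E T, (As p * x p + (1 - 2 * As p)) := by
  rw [prod_add]
  refine sum_congr rfl fun D _ => ?_
  unfold PrS
  rw [prod_mul_distrib]
  ring

theorem sum_PrS_two (E : Finset ℕ) (T : ℕ) :
    ∑ D ∈ (PP E T).powerset, PrS E T D * (2 : ℝ) ^ D.card = 1 := by
  have h := sum_PrS E T (fun _ => 2)
  simp only [prod_const] at h
  rw [h]
  refine prod_eq_one fun p _ => ?_
  ring

theorem norm_coefS {E : Finset ℕ} {g : ℕ → ℂ}
    (hg1 : ∀ p : ℕ, p.Prime → p ∉ E → ‖g p‖ = 1) {T : ℕ} {D a : Finset ℕ}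
    (hD : D ⊆ PP E T) (ha : a ⊆ D) : ‖∏ p ∈ a, g p‖ = 1 := by
  rw [norm_prod]
  refine prod_eq_one fun p hp => ?_
  have := mem_PP.mp (hD (ha hp))
  exact hg1 p this.2.1 this.2.2

theorem csS_le {E : Finset ℕ} {g : ℕ → ℂ}
    (hg1 : ∀ p : ℕ, p.Prime → p ∉ E → ‖g p‖ = 1) {T : ℕ} {D : Finset ℕ}
    (hD : D ⊆ PP E T) (w : ℝ → ℂ) (hw : Integrable w) :
    ∫ t, ‖cs g w D t‖ ≤ (2 : ℝ) ^ D.card * ∫ t, ‖w t‖ := by
  have hi : ∀ a : Finset ℕ, Integrable (fun t => ‖w (t - 2 * lg a)‖) := fun a =>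
    (hw.comp_sub_right (2 * lg a)).norm
  calc ∫ t, ‖cs g w D t‖ ≤ ∫ t, ∑ a ∈ D.powerset, ‖w (t - 2 * lg a)‖ := by
        apply integral_mono (cs_int g w hw D).norm (integrable_finsetSum _ fun a _ => hi a)
        intro t
        refine (norm_sum_le _ _).trans (sum_le_sum fun a ha => ?_)
        rw [norm_mul, norm_coefS hg1 hD (mem_powerset.mp ha), one_mul]
    _ = ∑ a ∈ D.powerset, ∫ t, ‖w (t - 2 * lg a)‖ := integral_finsetSum _ fun a _ => hi a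
    _ = ∑ _a ∈ D.powerset, ∫ t, ‖w t‖ := by
        refine sum_congr rfl fun a _ => ?_
        exact integral_sub_right_eq_self (fun t => ‖w t‖) (2 * lg a)
    _ = (2 : ℝ) ^ D.card * ∫ t, ‖w t‖ := by
        rw [sum_const, card_powerset, nsmul_eq_mul]
        push_cast
        ring

theorem IS_nonneg (E : Finset ℕ) (g : ℕ → ℂ) (T : ℕ) (w : ℝ → ℂ) : 0 ≤ IS E g T w := by
  unfold IS
  refine sum_nonneg fun D hD => ?_
  exact mul_nonneg (PrS_nonneg E T D (mem_powerset.mp hD)) (integral_nonneg fun t => norm_nonneg _)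

theorem IS_add (E : Finset ℕ) (g : ℕ → ℂ) (T : ℕ) (w v : ℝ → ℂ) (hw : Integrable w)
    (hv : Integrable v) : IS E g T w ≤ IS E g T v + IS E g T (fun u => w u - v u) := by
  unfold IS
  rw [← sum_add_distrib]
  refine sum_le_sum fun D hD => ?_
  rw [← mul_add]
  refine mul_le_mul_of_nonneg_left ?_ (PrS_nonneg E T D (mem_powerset.mp hD))
  have hs : Integrable (fun t => cs g (fun u => w u - v u) D t) := cs_int g _ (hw.sub hv) D
  rw [← integral_add (cs_int g v hv D).norm hs.norm]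
  apply integral_mono (cs_int g w hw D).norm ((cs_int g v hv D).norm.add hs.norm)
  intro t
  simp only
  rw [cs_sub g w v D t]
  exact norm_add_le _ _

/-- the L2 hypothesis of `anIS` -/
theorem hL2S (E : Finset ℕ) (g : ℕ → ℂ) (hg1 : ∀ p : ℕ, p.Prime → p ∉ E → ‖g p‖ = 1)
    (z : ℝ) (B : ℝ) (φ ψ : ℝ → ℂ) (hφ : Continuous φ) (hB : ∀ τ, B ≤ |τ| → φ τ = 0)
    (hψ : ∀ t, ψ t = ∫ τ, φ τ * Complex.exp ((τ * t : ℝ) * Complex.I)) (hψc : Continuous ψ) (C : ℝ)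
    (hC : ∀ t, ‖ψ t‖ ≤ C / (1 + t ^ 2)) (T : ℕ) :
    ∑ D ∈ (PP E T).powerset, PrS E T D * z ^ D.card * ∫ t, ‖cs g ψ D t‖ ^ 2 =
      2 * Real.pi * ∫ τ, ‖φ τ‖ ^ 2 * ∏ p ∈ PP E T,
        (1 + 2 * As p * (z - 1 + z * (g p * Complex.exp (-(2 * τ * Real.log p : ℝ) * Complex.I)).re)) := by
  have hint : ∀ D : Finset ℕ, Integrable (fun τ : ℝ => ‖φ τ‖ ^ 2 *
      ∏ p ∈ D, ‖1 + g p * Complex.exp (-(2 * τ * Real.log p : ℝ) * Complex.I)‖ ^ 2) := by
    intro D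
    apply Continuous.integrable_of_hasCompactSupport
    · apply Continuous.mul (by fun_prop)
      apply continuous_finsetProd
      intro p _
      fun_prop
    · apply HasCompactSupport.intro (isCompact_Icc : IsCompact (Set.Icc (-B) B))
      intro τ hτ
      have : B ≤ |τ| := by
        by_contra hc
        push Not at hc
        rw [abs_lt] at hc
        exact hτ ⟨hc.1.le, hc.2.le⟩
      rw [hB τ this]
      simp
  calc ∑ D ∈ (PP E T).powerset, PrS E T D * z ^ D.card * ∫ t, ‖cs g ψ D t‖ ^ 2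
      = ∑ D ∈ (PP E T).powerset, ∫ τ, (2 * Real.pi) * ((PrS E T D * z ^ D.card) * (‖φ τ‖ ^ 2 *
        ∏ p ∈ D, ‖1 + g p * Complex.exp (-(2 * τ * Real.log p : ℝ) * Complex.I)‖ ^ 2)) := by
        refine sum_congr rfl fun D _ => ?_
        rw [plan B φ ψ hφ hB hψ hψc C hC g D, integral_const_mul, integral_const_mul]
        ring
    _ = ∫ τ, ∑ D ∈ (PP E T).powerset, (2 * Real.pi) * ((PrS E T D * z ^ D.card) * (‖φ τ‖ ^ 2 *
        ∏ p ∈ D, ‖1 + g p * Complex.exp (-(2 * τ * Real.log p : ℝ) * Complex.I)‖ ^ 2)) := by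
        rw [integral_finsetSum]
        intro D _
        exact ((hint D).const_mul _).const_mul _
    _ = ∫ τ, (2 * Real.pi) * (‖φ τ‖ ^ 2 * ∏ p ∈ PP E T,
        (1 + 2 * As p * (z - 1 + z * (g p * Complex.exp (-(2 * τ * Real.log p : ℝ) *
          Complex.I)).re))) := by
        congr 1
        funext τ
        rw [← mul_sum]
        congr 1
        have h1 : ∑ D ∈ (PP E T).powerset, (PrS E T D * z ^ D.card) * (‖φ τ‖ ^ 2 *
            ∏ p ∈ D, ‖1 + g p * Complex.exp (-(2 * τ * Real.log p : ℝ) * Complex.I)‖ ^ 2) =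
            ‖φ τ‖ ^ 2 * ∑ D ∈ (PP E T).powerset, PrS E T D * ∏ p ∈ D,
              (z * ‖1 + g p * Complex.exp (-(2 * τ * Real.log p : ℝ) * Complex.I)‖ ^ 2) := by
          rw [mul_sum]
          refine sum_congr rfl fun D _ => ?_
          rw [prod_mul_distrib, prod_const]
          ring
        rw [h1, sum_PrS]
        congr 1
        refine prod_congr rfl fun p hp => ?_
        have hp' := mem_PP.mp hp
        have hn : ‖g p * Complex.exp (-(2 * τ * Real.log p : ℝ) * Complex.I)‖ = 1 := by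
          rw [norm_mul, hg1 p hp'.2.1 hp'.2.2, norm_exp_I, one_mul]
        rw [norm_one_add_sq hn]
        ring
    _ = _ := by rw [integral_const_mul]

end AnSP

open AnSP Pool.Agent.OmEq.AnP

/-- PROOF. Copy of `IT_le` (`Lib_MP_f1a94e_eq/An.lean`). -/
theorem IS_le (E : Finset ℕ) (g : ℕ → ℂ) (hg1 : ∀ p : ℕ, p.Prime → p ∉ E → ‖g p‖ = 1) (T : ℕ)
    (w : ℝ → ℂ) (hw : Integrable w) : IS E g T w ≤ ∫ t, ‖w t‖ := by
  unfold IS
  calc ∑ D ∈ (PP E T).powerset, PrS E T D * ∫ t, ‖cs g w D t‖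
      ≤ ∑ D ∈ (PP E T).powerset, PrS E T D * ((2 : ℝ) ^ D.card * ∫ t, ‖w t‖) := by
        refine sum_le_sum fun D hD => ?_
        exact mul_le_mul_of_nonneg_left (csS_le hg1 (mem_powerset.mp hD) w hw)
          (PrS_nonneg E T D (mem_powerset.mp hD))
    _ = (∑ D ∈ (PP E T).powerset, PrS E T D * (2 : ℝ) ^ D.card) * ∫ t, ‖w t‖ := by
        rw [sum_mul]
        refine sum_congr rfl fun D _ => ?_
        ring
    _ = ∫ t, ‖w t‖ := by rw [sum_PrS_two, one_mul]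

/-- PROOF. Copy and adapt `an` (`Lib_MP_f1a94e_eq/An.lean`): `mol`, `plan` (unchanged), `prodS`, `anIS`. -/
theorem anS (E : Finset ℕ) (g : ℕ → ℂ) (hg1 : ∀ p : ℕ, p.Prime → p ∉ E → ‖g p‖ = 1) (R : ℝ)
    (hR0 : 0 ≤ R) (hR1 : R ≤ 1) (hNP : NPS E g R) (w : ℝ → ℂ) (hw : Continuous w) (hc : HasCompactSupport w)
    (h0 : R < 1 ∨ (∫ t, w t) = 0) :
    Tendsto (fun T : ℕ => IS E g T w) atTop (nhds 0) := by
  obtain ⟨z, hz, hz1, hzR⟩ : ∃ z : ℝ, 1 / 2 < z ∧ z < 1 ∧ (R < 1 → 2 * z * R < 1) := by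
    by_cases h : R ≤ 1 / 2
    · exact ⟨3 / 4, by norm_num, by norm_num, fun _ => by linarith⟩
    · push Not at h
      by_cases h1 : R < 1
      · have hR : 0 < 4 * R := by linarith
        refine ⟨(R + 1) / (4 * R), ?_, ?_, fun _ => ?_⟩
        · rw [lt_div_iff₀ hR]; linarith
        · rw [div_lt_one hR]; linarith
        · have : 2 * ((R + 1) / (4 * R)) * R = (R + 1) / 2 := by
            field_simp
            ring
          rw [this]; linarith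
      · exact ⟨3 / 4, by norm_num, by norm_num, fun h2 => absurd h2 h1⟩
  have hwi : Integrable w := hw.integrable_of_hasCompactSupport hc
  rw [Metric.tendsto_atTop]
  intro ε hε
  obtain ⟨B, C, φ, ψ, hB0, hC0, hφ, hB, hψ, hψc, hC, hdiff, hzero⟩ := mol w hw hc (ε / 2) (by linarith)
  have hψi : Integrable ψ := psi_int hψc hC
  have h0' : R < 1 ∨ ∀ τ, ‖φ τ‖ ≤ C * |τ| := by
    rcases h0 with h | h
    · exact Or.inl h
    · exact Or.inr (hzero h)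
  obtain ⟨C', hC'⟩ := prodS E g hg1 R hR0 hR1 hNP z hz hz1 hzR B C hB0 φ hφ hB h0'
  have hlim := anIS E g hg1 z hz hz1 ψ hψc C hC (2 * Real.pi * C') (by
    intro T hT
    rw [hL2S E g hg1 z B φ ψ hφ hB hψ hψc C hC T, mul_assoc (2 * Real.pi) C']
    exact mul_le_mul_of_nonneg_left (hC' T hT) (by positivity))
  rw [Metric.tendsto_atTop] at hlim
  obtain ⟨N, hN⟩ := hlim (ε / 2) (by linarith)
  refine ⟨N, fun T hT => ?_⟩
  have h1 := hN T hT
  rw [Real.dist_eq, sub_zero, abs_of_nonneg (IS_nonneg E g T ψ)] at h1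
  rw [Real.dist_eq, sub_zero, abs_of_nonneg (IS_nonneg E g T w)]
  have h2 := IS_add E g T w ψ hwi hψi
  have h3 := IS_le E g hg1 T (fun u => w u - ψ u) (hwi.sub hψi)
  linarith

end Pool.Agent.Spl

end

/-! ### from `Lib_MP_92ef0c_sp.Ctw3` -/

section

/-!
# The cluster theorems for matrices
-/

set_option autoImplicit false

namespace Pool.Agent.Spl

open Finset Pool.Agent.GaussMR Pool.Agent.OmAll Pool.Agent.OmEq MeasureTheory Filter

namespace Ctw3P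

/-- compact support in a box -/
theorem box {F : ℝ × ℝ × ℝ → ℂ} (hF : HasCompactSupport F) :
    ∃ R0 : ℝ, 0 < R0 ∧ ∀ y t u, F (y, t, u) ≠ 0 → |y| ≤ R0 ∧ |t| ≤ R0 ∧ |u| ≤ R0 := by
  obtain ⟨R1, hR1⟩ := hF.isCompact.isBounded.subset_closedBall (0 : ℝ × ℝ × ℝ)
  refine ⟨max R1 1, by positivity, fun y t u h => ?_⟩
  have h1 : (y, t, u) ∈ tsupport F := subset_tsupport _ h
  have h2 := hR1 h1
  rw [mem_closedBall_zero_iff, Prod.norm_def, max_le_iff, Prod.norm_def, max_le_iff,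
    Real.norm_eq_abs, Real.norm_eq_abs, Real.norm_eq_abs] at h2
  exact ⟨h2.1.trans (le_max_left _ _), h2.2.1.trans (le_max_left _ _),
    h2.2.2.trans (le_max_left _ _)⟩

/-- a function on `ℝ × ℝ × ℝ` that vanishes outside a box -/
theorem hcs3 {M : Type} [AddMonoid M] (H : ℝ × ℝ × ℝ → M) (R0 : ℝ)
    (h : ∀ y t u, H (y, t, u) ≠ 0 → |y| ≤ R0 ∧ |t| ≤ R0 ∧ |u| ≤ R0) : HasCompactSupport H := by
  refine HasCompactSupport.of_support_subset_isCompact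
    ((isCompact_Icc (a := -R0) (b := R0)).prod
      ((isCompact_Icc (a := -R0) (b := R0)).prod (isCompact_Icc (a := -R0) (b := R0)))) ?_
  rintro ⟨y, t, u⟩ h1
  rw [Function.mem_support] at h1
  obtain ⟨h2, h3, h4⟩ := h y t u h1
  rw [Set.mem_prod, Set.mem_prod, Set.mem_Icc, Set.mem_Icc, Set.mem_Icc, ← abs_le, ← abs_le,
    ← abs_le]
  exact ⟨h2, h3, h4⟩

/-- the same on `(ℝ × ℝ) × ℝ` -/
theorem hcs21 {M : Type} [AddMonoid M] (H : (ℝ × ℝ) × ℝ → M) (R0 : ℝ)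
    (h : ∀ y t u, H ((y, t), u) ≠ 0 → |y| ≤ R0 ∧ |t| ≤ R0 ∧ |u| ≤ R0) : HasCompactSupport H := by
  refine HasCompactSupport.of_support_subset_isCompact
    (((isCompact_Icc (a := -R0) (b := R0)).prod (isCompact_Icc (a := -R0) (b := R0))).prod
      (isCompact_Icc (a := -R0) (b := R0))) ?_
  rintro ⟨⟨y, t⟩, u⟩ h1
  rw [Function.mem_support] at h1
  obtain ⟨h2, h3, h4⟩ := h y t u h1
  rw [Set.mem_prod, Set.mem_prod, Set.mem_Icc, Set.mem_Icc, Set.mem_Icc, ← abs_le, ← abs_le,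
    ← abs_le]
  exact ⟨⟨h2, h3⟩, h4⟩

/-- integrals over `(ℝ × ℝ) × ℝ` -/
theorem int21 (H : (ℝ × ℝ) × ℝ → ℝ) (hc : Continuous H) (hs : HasCompactSupport H) :
    Integrable (fun v : ℝ × ℝ => ∫ u, H (v, u)) ∧
      ∫ v : ℝ × ℝ, ∫ u, H (v, u) = ∫ y, ∫ t, ∫ u, H ((y, t), u) := by
  have h1 : Integrable H (volume.prod volume) := by
    have := hc.integrable_of_hasCompactSupport hs (μ := (volume : Measure ((ℝ × ℝ) × ℝ)))
    rwa [Measure.volume_eq_prod] at this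
  have h2 : Integrable (fun v : ℝ × ℝ => ∫ u, H (v, u)) := h1.integral_prod_left
  refine ⟨h2, ?_⟩
  rw [Measure.volume_eq_prod] at h2 ⊢
  rw [integral_prod _ h2]

/-- the order `y, t, u` -/
theorem ord_B (Ψ : ℝ → ℝ → ℝ → ℝ) (hc : Continuous (fun v : ℝ × ℝ × ℝ => Ψ v.1 v.2.1 v.2.2))
    (R0 : ℝ) (hR : ∀ y t u, Ψ y t u ≠ 0 → |y| ≤ R0 ∧ |t| ≤ R0 ∧ |u| ≤ R0) :
    ∫ y, ∫ t, ∫ u, Ψ y t u = ∫ v : ℝ × ℝ, ∫ u, Ψ v.1 v.2 u := by
  have hc' : Continuous (fun w : (ℝ × ℝ) × ℝ => Ψ w.1.1 w.1.2 w.2) :=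
    hc.comp (f := fun w : (ℝ × ℝ) × ℝ => (w.1.1, w.1.2, w.2)) (by fun_prop)
  have h := (int21 (fun w => Ψ w.1.1 w.1.2 w.2) hc' (hcs21 _ R0 hR)).2
  simp only at h
  rw [h]

/-- the order `y, u, t` -/
theorem ord_A (Ψ : ℝ → ℝ → ℝ → ℝ) (hc : Continuous (fun v : ℝ × ℝ × ℝ => Ψ v.1 v.2.1 v.2.2))
    (R0 : ℝ) (hR : ∀ y t u, Ψ y t u ≠ 0 → |y| ≤ R0 ∧ |t| ≤ R0 ∧ |u| ≤ R0) :
    ∫ y, ∫ t, ∫ u, Ψ y t u = ∫ v : ℝ × ℝ, ∫ t, Ψ v.1 t v.2 := by
  have hc' : Continuous (fun v : ℝ × ℝ × ℝ => (fun y u t => Ψ y t u) v.1 v.2.1 v.2.2) :=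
    hc.comp (f := fun w : ℝ × ℝ × ℝ => (w.1, w.2.2, w.2.1)) (by fun_prop)
  have h := ord_B (fun y u t => Ψ y t u) hc' R0 (fun y u t h => by
    obtain ⟨h1, h2, h3⟩ := hR y t u h
    exact ⟨h1, h3, h2⟩)
  rw [← h]
  congr 1
  funext y
  apply integral_integral_swap
  have h1 : Continuous (Function.uncurry fun t u => Ψ y t u) :=
    hc.comp (f := fun w : ℝ × ℝ => (y, w.1, w.2)) (by fun_prop)
  have h2 : HasCompactSupport (Function.uncurry fun t u => Ψ y t u) := by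
    refine HasCompactSupport.of_support_subset_isCompact
      ((isCompact_Icc (a := -R0) (b := R0)).prod (isCompact_Icc (a := -R0) (b := R0))) ?_
    rintro ⟨t, u⟩ h1
    rw [Function.mem_support] at h1
    obtain ⟨-, h3, h4⟩ := hR y t u h1
    rw [Set.mem_prod, Set.mem_Icc, Set.mem_Icc, ← abs_le, ← abs_le]
    exact ⟨h3, h4⟩
  have := h1.integrable_of_hasCompactSupport h2 (μ := (volume : Measure (ℝ × ℝ)))
  rwa [Measure.volume_eq_prod] at this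

/-- a bound for the translations -/
theorem lg_bd (D : Finset ℕ) : ∃ L : ℝ, 0 ≤ L ∧ ∀ a ∈ D.powerset, |2 * lg a| ≤ L := by
  refine ⟨∑ a ∈ D.powerset, |2 * lg a|, sum_nonneg fun _ _ => abs_nonneg _, fun a ha => ?_⟩
  exact single_le_sum (f := fun a => |2 * lg a|) (fun i _ => abs_nonneg _) ha

theorem cs_ne {g : ℕ → ℂ} {w : ℝ → ℂ} {D : Finset ℕ} {t L : ℝ}
    (hL : ∀ a ∈ D.powerset, |2 * lg a| ≤ L) (h : ‖cs g w D t‖ ≠ 0) :
    ∃ s : ℝ, w s ≠ 0 ∧ |t| ≤ |s| + L := by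
  have h1 : cs g w D t ≠ 0 := norm_ne_zero_iff.mp h
  unfold cs at h1
  obtain ⟨a, ha, h2⟩ := exists_ne_zero_of_sum_ne_zero h1
  refine ⟨_, right_ne_zero_of_mul h2, ?_⟩
  have h4 := hL a ha
  have h5 : |t| ≤ |t - 2 * lg a| + |2 * lg a| := by
    have := abs_add_le (t - 2 * lg a) (2 * lg a)
    rwa [sub_add_cancel] at this
  linarith

/-- the limit in `T` -/
theorem limT (E : Finset ℕ) (g : ℕ → ℂ)
    (hg1 : ∀ p : ℕ, p.Prime → p ∉ E → ‖g p‖ = 1) (R : ℝ) (hR0 : 0 ≤ R) (hR1 : R ≤ 1) (hNP : NPS E g R)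
    (K : ℝ × ℝ → ℝ → ℂ) (hK : Continuous (fun w : (ℝ × ℝ) × ℝ => K w.1 w.2))
    (R0 : ℝ) (hR : ∀ y u t, K (y, u) t ≠ 0 → |y| ≤ R0 ∧ |u| ≤ R0 ∧ |t| ≤ R0)
    (h0 : R < 1 ∨ ∀ v, (∫ t, K v t) = 0) (κ ε : ℝ) (hε : 0 < ε) :
    ∃ T : ℕ, κ * ∑ D ∈ (PP E T).powerset, PrS E T D * ∫ v, ∫ t, ‖cs g (K v) D t‖ < ε := by
  have hKv : ∀ v, Continuous (K v) := fun v =>
    hK.comp (f := fun t : ℝ => (v, t)) (by fun_prop)
  have hKs : ∀ v, HasCompactSupport (K v) := by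
    intro v
    refine HasCompactSupport.of_support_subset_isCompact (isCompact_Icc (a := -R0) (b := R0)) ?_
    intro t ht
    rw [Set.mem_Icc, ← abs_le]
    exact (hR v.1 v.2 t ht).2.2
  have hP1 : ∀ D : Finset ℕ, Integrable (fun v : ℝ × ℝ => ∫ t, ‖cs g (K v) D t‖) := by
    intro D
    obtain ⟨L, hL0, hL⟩ := lg_bd D
    refine (int21 (fun w => ‖cs g (K w.1) D w.2‖) ?_ (hcs21 _ (R0 + L) ?_)).1
    · unfold cs
      refine continuous_norm.comp (continuous_finsetSum _ fun a _ => continuous_const.mul ?_)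
      exact hK.comp (f := fun w : (ℝ × ℝ) × ℝ => (w.1, w.2 - 2 * lg a)) (by fun_prop)
    · intro y u t h
      obtain ⟨s, hs, hst⟩ := cs_ne hL h
      obtain ⟨h1, h2, h3⟩ := hR y u s hs
      exact ⟨by linarith, by linarith, by linarith⟩
  have hWi : Integrable (fun v : ℝ × ℝ => ∫ t, ‖K v t‖) := by
    refine (int21 (fun w => ‖K w.1 w.2‖) hK.norm (hcs21 _ R0 ?_)).1
    intro y u t h
    exact hR y u t (norm_ne_zero_iff.mp h)
  have hIT : ∀ T : ℕ, ∑ D ∈ (PP E T).powerset, PrS E T D * ∫ v, ∫ t, ‖cs g (K v) D t‖ =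
      ∫ v, IS E g T (K v) := by
    intro T
    unfold IS
    rw [integral_finsetSum]
    · refine sum_congr rfl fun D _ => ?_
      rw [integral_const_mul]
    · intro D _
      exact (hP1 D).const_mul _
  have hITi : ∀ T : ℕ, Integrable (fun v : ℝ × ℝ => IS E g T (K v)) := by
    intro T
    unfold IS
    exact integrable_finsetSum _ fun D _ => (hP1 D).const_mul _
  have hlim : Tendsto (fun T : ℕ => ∫ v : ℝ × ℝ, IS E g T (K v)) atTop (nhds 0) := by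
    have h1 := tendsto_integral_of_dominated_convergence
      (F := fun T (v : ℝ × ℝ) => IS E g T (K v))
      (f := fun _ => (0 : ℝ)) (fun v : ℝ × ℝ => ∫ t, ‖K v t‖)
      (fun T => (hITi T).aestronglyMeasurable) hWi ?_ ?_
    · rwa [integral_zero] at h1
    · intro T
      refine Filter.Eventually.of_forall fun v => ?_
      rw [Real.norm_eq_abs, abs_of_nonneg (AnSP.IS_nonneg E g T (K v))]
      exact IS_le E g hg1 T (K v) ((hKv v).integrable_of_hasCompactSupport (hKs v))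
    · refine Filter.Eventually.of_forall fun v => ?_
      exact anS E g hg1 R hR0 hR1 hNP (K v) (hKv v) (hKs v) (h0.imp id fun h => h v)
  have hlim' := hlim.const_mul κ
  rw [mul_zero] at hlim'
  obtain ⟨T, hT⟩ := (hlim'.eventually (gt_mem_nhds hε)).exists
  exact ⟨T, by rw [hIT T]; exact hT⟩

end Ctw3P

open Ctw3P

/-- PROOF. Adapt `ctw` (`Lib_MP_f1a94e_eq/Ctw.lean`). `cluA` with `W (· / X)` gives `∑_(e ∈ SN n (b X), bA) Φ e * cs g (fun t => W (yS e / X) t (uS e)) (dA E T e) (tS e)` (`X > 0`), bounded by `∑ Ψ (dA E T e) (yS e / X) (tS e) (uS e)`, `Ψ D y t u = ‖cs g (fun t => W y t u) D t‖`: `TR b (Ψ D)` (finite sum of translates in `t`). `trA`: the limit is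
`κ ∑_D PrS D ∫ y, ∫ t, ∫ u, Ψ D y t u = κ ∫ y, ∫ u, IS E g T (fun t => W y t u)` (Fubini for continuous functions with compact support, finite sum). As `T → ∞` it tends to `0` by dominated convergence (`anS` for each `(y, u)`, `IS_le` as a bound, `y, u` in a compact set). So `limsup_X` of the norm is `≤` an arbitrarily small number. -/
theorem ctwA (n : ℕ) (hn : 0 < n) (E : Finset ℕ) (hE : n.primeFactors ⊆ E) (g : ℕ → ℂ)
    (hg1 : ∀ p : ℕ, p.Prime → p ∉ E → ‖g p‖ = 1) (R : ℝ) (hR0 : 0 ≤ R) (hR1 : R ≤ 1) (hNP : NPS E g R)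
    (Φ : Q4 → ℂ) (hΦ : CmpA n E g Φ) (b : ℝ) (W : ℝ → ℝ → ℝ → ℂ) (hW : TS b W)
    (h0 : R < 1 ∨ ∀ y u, (∫ t, W y t u) = 0) :
    Tendsto (fun X : ℝ => (∑ e ∈ SN n (b * X), Φ e * W (yS e / X) (tS e) (uS e)) / X) atTop (nhds 0) := by
  classical
  obtain ⟨κ, hκ, htr⟩ := trA n hn
  obtain ⟨R1, hR1pos, hbox⟩ := box hW.supp
  simp only at hbox
  rw [Metric.tendsto_atTop]
  intro ε hε
  set Ψ : Finset ℕ → ℝ → ℝ → ℝ → ℝ := fun D y t u => ‖cs g (fun t => W y t u) D t‖ with hΨ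
  have hΨc : ∀ D, Continuous (fun v : ℝ × ℝ × ℝ => Ψ D v.1 v.2.1 v.2.2) := by
    intro D
    rw [hΨ]
    simp only
    unfold cs
    refine continuous_norm.comp (continuous_finsetSum _ fun a _ => continuous_const.mul ?_)
    exact hW.cont.comp (f := fun v : ℝ × ℝ × ℝ => (v.1, v.2.1 - 2 * lg a, v.2.2)) (by fun_prop)
  have hΨs : ∀ D, ∃ R2 : ℝ, ∀ y t u, Ψ D y t u ≠ 0 → |y| ≤ R2 ∧ |t| ≤ R2 ∧ |u| ≤ R2 := by
    intro D
    obtain ⟨L, hL0, hL⟩ := lg_bd D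
    refine ⟨R1 + L, fun y t u h => ?_⟩
    obtain ⟨s, hs, hst⟩ := cs_ne hL h
    obtain ⟨h1, h2, h3⟩ := hbox y s u hs
    exact ⟨by linarith, by linarith, by linarith⟩
  have hΨ0 : ∀ D y t u, (∀ s, W y s u = 0) → Ψ D y t u = 0 := by
    intro D y t u h
    rw [hΨ]
    simp only
    unfold cs
    rw [sum_eq_zero, norm_zero]
    intro a _
    simp only [h, mul_zero]
  have hTR : ∀ D, TR b (Ψ D) := by
    intro D
    obtain ⟨R2, hR2⟩ := hΨs D
    refine ⟨hΨc D, hcs3 _ R2 (fun y t u h => hR2 y t u h), ?_, ?_⟩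
    · intro y t u hy
      exact hΨ0 D y t u fun s => hW.lo y s u hy
    · intro y t u hy
      exact hΨ0 D y t u fun s => hW.hi y s u hy
  obtain ⟨T, hT⟩ := limT E g hg1 R hR0 hR1 hNP (fun v t => W v.1 t v.2)
    (hW.cont.comp (f := fun w : (ℝ × ℝ) × ℝ => (w.1.1, w.2, w.1.2)) (by fun_prop)) R1
    (fun y u t h => by
      obtain ⟨h1, h2, h3⟩ := hbox y t u h
      exact ⟨h1, h3, h2⟩) (h0.imp id fun h v => h v.1 v.2) κ ε hε
  have ht := htr E hE T Ψ b hTR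
  have hsum : ∑ D ∈ (PP E T).powerset, PrS E T D * ∫ y, ∫ t, ∫ u, Ψ D y t u =
      ∑ D ∈ (PP E T).powerset, PrS E T D * ∫ v : ℝ × ℝ, ∫ t, ‖cs g (fun t => W v.1 t v.2) D t‖ := by
    refine sum_congr rfl fun D _ => ?_
    obtain ⟨R2, hR2⟩ := hΨs D
    rw [ord_A (Ψ D) (hΨc D) R2 hR2]
  rw [hsum] at ht
  obtain ⟨X0, hX0⟩ := eventually_atTop.1 (ht.eventually (gt_mem_nhds hT))
  refine ⟨max X0 1, fun X hX => ?_⟩
  have hX1 : X0 ≤ X := (le_max_left _ _).trans hX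
  have hX2 : 0 < X := lt_of_lt_of_le one_pos ((le_max_right _ _).trans hX)
  have h3 := hX0 X hX1
  rw [dist_zero_right, norm_div, Complex.norm_real, Real.norm_eq_abs, abs_of_pos hX2]
  refine lt_of_le_of_lt ?_ h3
  refine div_le_div_of_nonneg_right ?_ hX2.le
  have h4 := cluA n hn E hE g Φ hΦ T (b * X) (fun y t u => W (y / X) t u)
  rw [h4]
  refine (norm_sum_le _ _).trans (sum_le_sum fun e _ => ?_)
  rw [norm_mul]
  exact mul_le_of_le_one_left (norm_nonneg _) (hΦ.bd e)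

/-- PROOF. As `ctwA` with `cluB`, `trB`, `Ψ D y t u = ‖cs g (fun u => W y t u) D u‖`. -/
theorem ctwB (n : ℕ) (hn : 0 < n) (E : Finset ℕ) (hE : n.primeFactors ⊆ E) (g : ℕ → ℂ)
    (hg1 : ∀ p : ℕ, p.Prime → p ∉ E → ‖g p‖ = 1) (R : ℝ) (hR0 : 0 ≤ R) (hR1 : R ≤ 1) (hNP : NPS E g R)
    (Φ : Q4 → ℂ) (hΦ : CmpB n E g Φ) (b : ℝ) (W : ℝ → ℝ → ℝ → ℂ) (hW : TS b W)
    (h0 : R < 1 ∨ ∀ y t, (∫ u, W y t u) = 0) :
    Tendsto (fun X : ℝ => (∑ e ∈ SN n (b * X), Φ e * W (yS e / X) (tS e) (uS e)) / X) atTop (nhds 0) := by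
  classical
  obtain ⟨κ, hκ, htr⟩ := trB n hn
  obtain ⟨R1, hR1pos, hbox⟩ := box hW.supp
  simp only at hbox
  rw [Metric.tendsto_atTop]
  intro ε hε
  set Ψ : Finset ℕ → ℝ → ℝ → ℝ → ℝ := fun D y t u => ‖cs g (fun u => W y t u) D u‖ with hΨ
  have hΨc : ∀ D, Continuous (fun v : ℝ × ℝ × ℝ => Ψ D v.1 v.2.1 v.2.2) := by
    intro D
    rw [hΨ]
    simp only
    unfold cs
    refine continuous_norm.comp (continuous_finsetSum _ fun a _ => continuous_const.mul ?_)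
    exact hW.cont.comp (f := fun v : ℝ × ℝ × ℝ => (v.1, v.2.1, v.2.2 - 2 * lg a)) (by fun_prop)
  have hΨs : ∀ D, ∃ R2 : ℝ, ∀ y t u, Ψ D y t u ≠ 0 → |y| ≤ R2 ∧ |t| ≤ R2 ∧ |u| ≤ R2 := by
    intro D
    obtain ⟨L, hL0, hL⟩ := lg_bd D
    refine ⟨R1 + L, fun y t u h => ?_⟩
    obtain ⟨s, hs, hst⟩ := cs_ne hL h
    obtain ⟨h1, h2, h3⟩ := hbox y t s hs
    exact ⟨by linarith, by linarith, by linarith⟩
  have hΨ0 : ∀ D y t u, (∀ s, W y t s = 0) → Ψ D y t u = 0 := by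
    intro D y t u h
    rw [hΨ]
    simp only
    unfold cs
    rw [sum_eq_zero, norm_zero]
    intro a _
    simp only [h, mul_zero]
  have hTR : ∀ D, TR b (Ψ D) := by
    intro D
    obtain ⟨R2, hR2⟩ := hΨs D
    refine ⟨hΨc D, hcs3 _ R2 (fun y t u h => hR2 y t u h), ?_, ?_⟩
    · intro y t u hy
      exact hΨ0 D y t u fun s => hW.lo y t s hy
    · intro y t u hy
      exact hΨ0 D y t u fun s => hW.hi y t s hy
  obtain ⟨T, hT⟩ := limT E g hg1 R hR0 hR1 hNP (fun v u => W v.1 v.2 u)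
    (hW.cont.comp (f := fun w : (ℝ × ℝ) × ℝ => (w.1.1, w.1.2, w.2)) (by fun_prop)) R1
    (fun y t u h => hbox y t u h) (h0.imp id fun h v => h v.1 v.2) κ ε hε
  have ht := htr E hE T Ψ b hTR
  have hsum : ∑ D ∈ (PP E T).powerset, PrS E T D * ∫ y, ∫ t, ∫ u, Ψ D y t u =
      ∑ D ∈ (PP E T).powerset, PrS E T D * ∫ v : ℝ × ℝ, ∫ u, ‖cs g (fun u => W v.1 v.2 u) D u‖ := by
    refine sum_congr rfl fun D _ => ?_
    obtain ⟨R2, hR2⟩ := hΨs D
    rw [ord_B (Ψ D) (hΨc D) R2 hR2]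
  rw [hsum] at ht
  obtain ⟨X0, hX0⟩ := eventually_atTop.1 (ht.eventually (gt_mem_nhds hT))
  refine ⟨max X0 1, fun X hX => ?_⟩
  have hX1 : X0 ≤ X := (le_max_left _ _).trans hX
  have hX2 : 0 < X := lt_of_lt_of_le one_pos ((le_max_right _ _).trans hX)
  have h3 := hX0 X hX1
  rw [dist_zero_right, norm_div, Complex.norm_real, Real.norm_eq_abs, abs_of_pos hX2]
  refine lt_of_le_of_lt ?_ h3
  refine div_le_div_of_nonneg_right ?_ hX2.le
  have h4 := cluB n hn E hE g Φ hΦ T (b * X) (fun y t u => W (y / X) t u)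
  rw [h4]
  refine (norm_sum_le _ _).trans (sum_le_sum fun e _ => ?_)
  rw [norm_mul]
  exact mul_le_of_le_one_left (norm_nonneg _) (hΦ.bd e)

end Pool.Agent.Spl

end

/-! ### from `Lib_MP_92ef0c_sp.PsiA` -/

section

/-!
# Moves between `a` and `d` with residue classes
-/

set_option autoImplicit false

namespace Pool.Agent.Spl

open Finset Pool.Agent.GaussMR Pool.Agent.OmAll Pool.Agent.OmEq MeasureTheory Filter

/-- the component of `ψ` that is multiplied by `χ w` under `(x1, x4) ↦ (w x1, w⁻¹ x4)` -/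
noncomputable def psA (M : ℕ) [NeZero M] (ψ : ZMod M → ZMod M → ZMod M → ZMod M → ℂ) (χ : DirichletCharacter ℂ M)
    (x1 x2 x3 x4 : ZMod M) : ℂ :=
  (M.totient : ℂ)⁻¹ * ∑ v : (ZMod M)ˣ, χ⁻¹ (v : ZMod M) * ψ ((v : ZMod M) * x1) x2 x3 (((v⁻¹ : (ZMod M)ˣ) : ZMod M) * x4)

/-- PROOF. Exchange the sums: `∑_χ χ⁻¹(v) = φ(M)` if `v = 1` and `0` otherwise (`DirichletCharacter.sum_char_inv_mul_char_eq` or `DirichletCharacter.sum_characters_eq`, `χ ↦ χ⁻¹` is a bijection; see `Lib_MP_f1a94e_eq/Gram.lean`). -/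
theorem psA_sum (M : ℕ) [NeZero M] (ψ : ZMod M → ZMod M → ZMod M → ZMod M → ℂ) (x1 x2 x3 x4 : ZMod M) :
    ∑ χ : DirichletCharacter ℂ M, psA M ψ χ x1 x2 x3 x4 = ψ x1 x2 x3 x4 := by
  classical
  have hφ : ((M.totient : ℕ) : ℂ) ≠ 0 := by
    exact_mod_cast (Nat.totient_pos.2 (Nat.pos_of_ne_zero (NeZero.ne M))).ne'
  have h1 : ∀ v : (ZMod M)ˣ, ∑ χ : DirichletCharacter ℂ M, χ⁻¹ (v : ZMod M) =
      if v = 1 then (M.totient : ℂ) else 0 := by
    intro v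
    have h2 : ∑ χ : DirichletCharacter ℂ M, χ⁻¹ (v : ZMod M) = ∑ χ : DirichletCharacter ℂ M, χ (v : ZMod M) :=
      Fintype.sum_equiv (Equiv.inv (DirichletCharacter ℂ M)) _ _ fun χ => rfl
    rw [h2, DirichletCharacter.sum_characters_eq]
    by_cases hv : v = 1
    · rw [if_pos hv, if_pos (by rw [hv]; rfl)]
    · have hv2 : (v : ZMod M) ≠ 1 := fun h => hv (Units.ext (by rw [h, Units.val_one]))
      rw [if_neg hv, if_neg hv2]
  unfold psA
  rw [← Finset.mul_sum, Finset.sum_comm]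
  have h3 : ∀ v : (ZMod M)ˣ, ∑ χ : DirichletCharacter ℂ M, χ⁻¹ (v : ZMod M) *
      ψ ((v : ZMod M) * x1) x2 x3 (((v⁻¹ : (ZMod M)ˣ) : ZMod M) * x4) =
      if v = 1 then (M.totient : ℂ) * ψ x1 x2 x3 x4 else 0 := by
    intro v
    rw [← Finset.sum_mul, h1 v]
    by_cases hv : v = 1
    · rw [if_pos hv, if_pos hv, hv, inv_one, Units.val_one, one_mul, one_mul]
    · rw [if_neg hv, if_neg hv, zero_mul]
  rw [Finset.sum_congr rfl fun v _ => h3 v, Finset.sum_ite_eq' Finset.univ (1 : (ZMod M)ˣ),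
    if_pos (Finset.mem_univ _), inv_mul_cancel_left₀ hφ]

/-- PROOF. Substitute `v' = v w` in the sum over the units; `χ⁻¹(v' w⁻¹) = χ⁻¹(v') χ(w)`. -/
theorem psA_mul (M : ℕ) [NeZero M] (ψ : ZMod M → ZMod M → ZMod M → ZMod M → ℂ) (χ : DirichletCharacter ℂ M) (w : (ZMod M)ˣ)
    (x1 x2 x3 x4 : ZMod M) :
    psA M ψ χ ((w : ZMod M) * x1) x2 x3 (((w⁻¹ : (ZMod M)ˣ) : ZMod M) * x4) = χ (w : ZMod M) * psA M ψ χ x1 x2 x3 x4 := by
  have hχ : χ (w : ZMod M) * χ⁻¹ (w : ZMod M) = 1 := by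
    rw [← MulChar.mul_apply, mul_inv_cancel, MulChar.one_apply w.isUnit]
  unfold psA
  have hs := Equiv.sum_comp (Equiv.mulRight w) (fun v : (ZMod M)ˣ => χ⁻¹ (v : ZMod M) *
    ψ ((v : ZMod M) * x1) x2 x3 (((v⁻¹ : (ZMod M)ˣ) : ZMod M) * x4))
  rw [← hs, mul_left_comm]
  congr 1
  rw [Finset.mul_sum]
  refine Finset.sum_congr rfl fun v _ => ?_
  rw [Equiv.coe_mulRight, mul_inv_rev, Units.val_mul, Units.val_mul, map_mul]
  have e1 : (v : ZMod M) * ((w : ZMod M) * x1) = (v : ZMod M) * (w : ZMod M) * x1 := by ring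
  have e2 : ((v⁻¹ : (ZMod M)ˣ) : ZMod M) * (((w⁻¹ : (ZMod M)ˣ) : ZMod M) * x4) =
      ((w⁻¹ : (ZMod M)ˣ) : ZMod M) * ((v⁻¹ : (ZMod M)ˣ) : ZMod M) * x4 := by ring
  rw [e1, e2]
  calc χ⁻¹ (v : ZMod M) * ψ ((v : ZMod M) * (w : ZMod M) * x1) x2 x3
        (((w⁻¹ : (ZMod M)ˣ) : ZMod M) * ((v⁻¹ : (ZMod M)ˣ) : ZMod M) * x4)
      = (χ (w : ZMod M) * χ⁻¹ (w : ZMod M)) * (χ⁻¹ (v : ZMod M) * ψ ((v : ZMod M) * (w : ZMod M) * x1) x2 x3
        (((w⁻¹ : (ZMod M)ˣ) : ZMod M) * ((v⁻¹ : (ZMod M)ˣ) : ZMod M) * x4)) := by rw [hχ, one_mul]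
    _ = _ := by ring

/-- PROOF. Triangle inequality, `‖χ⁻¹ v‖ ≤ 1`, `#units = φ(M)` (`ZMod.card_units_eq_totient`). -/
theorem psA_le (M : ℕ) [NeZero M] (ψ : ZMod M → ZMod M → ZMod M → ZMod M → ℂ) (hψ : ∀ x1 x2 x3 x4, ‖ψ x1 x2 x3 x4‖ ≤ 1)
    (χ : DirichletCharacter ℂ M) (x1 x2 x3 x4 : ZMod M) : ‖psA M ψ χ x1 x2 x3 x4‖ ≤ 1 := by
  have hpos : (0 : ℝ) < (M.totient : ℝ) := by
    exact_mod_cast Nat.totient_pos.2 (Nat.pos_of_ne_zero (NeZero.ne M))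
  unfold psA
  rw [norm_mul, norm_inv, Complex.norm_natCast]
  have h1 : ‖∑ v : (ZMod M)ˣ, χ⁻¹ (v : ZMod M) * ψ ((v : ZMod M) * x1) x2 x3 (((v⁻¹ : (ZMod M)ˣ) : ZMod M) * x4)‖ ≤
      ∑ _v : (ZMod M)ˣ, (1 : ℝ) := by
    refine (norm_sum_le _ _).trans (Finset.sum_le_sum fun v _ => ?_)
    rw [norm_mul]
    exact mul_le_one₀ (DirichletCharacter.norm_le_one _ _) (norm_nonneg _) (hψ _ _ _ _)
  rw [Finset.sum_const, Finset.card_univ, ZMod.card_units_eq_totient, nsmul_eq_mul, mul_one] at h1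
  calc (M.totient : ℝ)⁻¹ * ‖∑ v : (ZMod M)ˣ, χ⁻¹ (v : ZMod M) * ψ ((v : ZMod M) * x1) x2 x3
        (((v⁻¹ : (ZMod M)ˣ) : ZMod M) * x4)‖ ≤ (M.totient : ℝ)⁻¹ * (M.totient : ℝ) :=
        mul_le_mul_of_nonneg_left h1 (inv_nonneg.2 hpos.le)
    _ = 1 := inv_mul_cancel₀ hpos.ne'

private theorem psiA_re_lt {z : ℂ} (hz : ‖z‖ = 1) (h1 : z ≠ 1) : z.re < 1 := by
  rcases lt_or_eq_of_le (hz ▸ Complex.re_le_norm z) with h | h
  · exact h
  · exfalso
    apply h1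
    have h2 := Complex.sq_norm_sub_sq_re z
    rw [hz, h] at h2
    have h3 : z.im = 0 := by
      have : z.im ^ 2 = 0 := by rw [← h2]; norm_num
      exact pow_eq_zero_iff (two_ne_zero) |>.1 this
    exact Complex.ext (by simpa using h) (by simpa using h3)

private theorem psiA_cmp (n M : ℕ) [NeZero M] (E : Finset ℕ)
    (f1 f2 f3 f4 : ℕ → ℂ) (ω1 ω4 : ℂ) (h1 : MF f1 E ω1) (h2 : ∀ m, ‖f2 m‖ ≤ 1) (h3 : ∀ m, ‖f3 m‖ ≤ 1) (h4 : MF f4 E ω4)
    (hω4 : ‖ω4‖ = 1) (ψ : ZMod M → ZMod M → ZMod M → ZMod M → ℂ)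
    (hψ : ∀ x1 x2 x3 x4, ‖ψ x1 x2 x3 x4‖ ≤ 1) (χ : DirichletCharacter ℂ M) :
    CmpA n (E ∪ M.primeFactors) (fun p => ω1 * (starRingEnd ℂ) ω4 * χ ((p : ZMod M)))
      (fun e => F4 f1 f2 f3 f4 e * cz M (psA M ψ χ) e) := by
  classical
  refine ⟨fun e => ?_, ?_⟩
  · rw [norm_mul]
    exact mul_le_one₀ (norm_F4_le h1.bd h2 h3 h4.bd e) (norm_nonneg _) (psA_le M ψ hψ χ _ _ _ _)
  · intro p a b c d hp hE _ _
    have hE1 : p ∉ E := fun h => hE (Finset.mem_union_left _ h)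
    have hcop : p.Coprime M := by
      rw [Nat.Prime.coprime_iff_not_dvd hp]
      intro hd
      exact hE (Finset.mem_union_right _ (Nat.mem_primeFactors.mpr ⟨hp, hd, NeZero.ne M⟩))
    have hw : ((ZMod.unitOfCoprime p hcop : (ZMod M)ˣ) : ZMod M) = (p : ZMod M) := ZMod.coe_unitOfCoprime p hcop
    have e1 : f1 (p * a) = ω1 * f1 a := by rw [h1.mul, h1.pr p hp hE1]
    have e2 : f4 (p * d) = ω4 * f4 d := by rw [h4.mul, h4.pr p hp hE1]
    have e3 : (starRingEnd ℂ) ω4 * ω4 = 1 := by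
      rw [mul_comm, Complex.mul_conj, Complex.normSq_eq_norm_sq, hω4]
      norm_num
    have e4 := psA_mul M ψ χ (ZMod.unitOfCoprime p hcop) (a : ZMod M) (b : ZMod M) (c : ZMod M)
      ((p : ZMod M) * (d : ZMod M))
    have e5 : (((ZMod.unitOfCoprime p hcop)⁻¹ : (ZMod M)ˣ) : ZMod M) * ((p : ZMod M) * (d : ZMod M)) = (d : ZMod M) := by
      rw [← hw, ← mul_assoc, Units.inv_mul, one_mul]
    rw [e5, hw] at e4
    show F4 f1 f2 f3 f4 ⟨p * a, b, c, d⟩ * cz M (psA M ψ χ) ⟨p * a, b, c, d⟩ =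
      ω1 * (starRingEnd ℂ) ω4 * χ ((p : ZMod M)) * (F4 f1 f2 f3 f4 ⟨a, b, c, p * d⟩ *
        cz M (psA M ψ χ) ⟨a, b, c, p * d⟩)
    unfold F4 cz
    simp only [Nat.cast_mul]
    rw [e4, e1, e2]
    calc ω1 * f1 a * f2 b * f3 c * f4 d * (χ (p : ZMod M) * psA M ψ χ a b c ((p : ZMod M) * (d : ZMod M)))
        = ω1 * f1 a * f2 b * f3 c * f4 d * (χ (p : ZMod M) * psA M ψ χ a b c ((p : ZMod M) * (d : ZMod M))) *
          ((starRingEnd ℂ) ω4 * ω4) := by rw [e3, mul_one]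
      _ = _ := by ring

private theorem psiA_g (M : ℕ) [NeZero M] (E : Finset ℕ) (ω : ℂ) (hω : ‖ω‖ = 1) (χ : DirichletCharacter ℂ M) :
    ∀ p : ℕ, p.Prime → p ∉ E ∪ M.primeFactors → ‖ω * χ ((p : ZMod M))‖ = 1 := by
  classical
  intro p hp hpE
  have hpn : ¬ p ∣ M := fun h => hpE (mem_union_right _ (Nat.mem_primeFactors.2 ⟨hp, h, NeZero.ne M⟩))
  have hcop : p.Coprime M := (Nat.Prime.coprime_iff_not_dvd hp).2 hpn
  rw [norm_mul, hω, one_mul]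
  have h3 := DirichletCharacter.unit_norm_eq_one χ (ZMod.unitOfCoprime p hcop)
  rwa [ZMod.coe_unitOfCoprime] at h3

/-- PROOF. Let `E' = E ∪ M.primeFactors ⊇ n.primeFactors`. For `p ∉ E'` prime and `w` the unit of `p` modulo `M`: `f1 (p a) = ω1 f1 a`, `f4 d = conj ω4 f4 (p d)` (`‖ω4‖ = 1`), `psA χ (p a, b, c, d) = χ(p) psA χ (a, b, c, p d)` (`psA_mul`, `w⁻¹ (p d) = d`). So
`Φ = F4 f1 f2 f3 f4 * cz (psA ψ χ)` is `CmpA n E' g`, `g p = ω1 conj ω4 χ(p)`, `‖Φ‖ ≤ 1` (`psA_le`), `‖g p‖ = 1`. `npS` with `ω = ω1 conj ω4`: `R = max 0 ω.re`, which is `< 1` if `ω ≠ 1` (`‖ω‖ = 1`), and `≤ 1` always; if `χ ≠ 1` then `R = 0` is possible. `ctwA`, and the sum over the finitely many `χ` (`psA_sum`). -/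
theorem pairA (n M : ℕ) [NeZero M] (hn : 0 < n) (hnM : n.primeFactors ⊆ M.primeFactors) (E : Finset ℕ)
    (f1 f2 f3 f4 : ℕ → ℂ) (ω1 ω4 : ℂ) (h1 : MF f1 E ω1) (h2 : ∀ m, ‖f2 m‖ ≤ 1) (h3 : ∀ m, ‖f3 m‖ ≤ 1) (h4 : MF f4 E ω4)
    (hω1 : ‖ω1‖ = 1) (hω4 : ‖ω4‖ = 1) (ψ : ZMod M → ZMod M → ZMod M → ZMod M → ℂ)
    (hψ : ∀ x1 x2 x3 x4, ‖ψ x1 x2 x3 x4‖ ≤ 1) (b : ℝ) (W : ℝ → ℝ → ℝ → ℂ) (hW : TS b W)
    (h0 : ω1 * (starRingEnd ℂ) ω4 ≠ 1 ∨ ∀ y u, (∫ t, W y t u) = 0) :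
    Tendsto (fun X : ℝ => (∑ e ∈ SN n (b * X), F4 f1 f2 f3 f4 e * cz M ψ e * W (yS e / X) (tS e) (uS e)) / X)
      atTop (nhds 0) := by
  classical
  set ω : ℂ := ω1 * (starRingEnd ℂ) ω4 with hωd
  have hω : ‖ω‖ = 1 := by
    rw [hωd, norm_mul, Complex.norm_conj, hω1, hω4, one_mul]
  have key : ∀ χ : DirichletCharacter ℂ M, Tendsto (fun X : ℝ => (∑ e ∈ SN n (b * X),
      (F4 f1 f2 f3 f4 e * cz M (psA M ψ χ) e) * W (yS e / X) (tS e) (uS e)) / X) atTop (nhds 0) := by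
    intro χ
    have hC := psiA_cmp n M E f1 f2 f3 f4 ω1 ω4 h1 h2 h3 h4 hω4 ψ hψ χ
    rcases h0 with h | h
    · exact ctwA n hn _ (hnM.trans subset_union_right) _ (psiA_g M E ω hω χ) (max 0 ω.re) (le_max_left _ _)
        (max_le zero_le_one (psiA_re_lt hω h).le) (npS M χ ω hω _).1 _ hC b W hW
        (Or.inl (max_lt zero_lt_one (psiA_re_lt hω h)))
    · exact ctwA n hn _ (hnM.trans subset_union_right) _ (psiA_g M E ω hω χ) (max 0 ω.re) (le_max_left _ _)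
        (max_le zero_le_one (hω ▸ Complex.re_le_norm _)) (npS M χ ω hω _).1 _ hC b W hW (Or.inr h)
  have hsum := tendsto_finsetSum (Finset.univ : Finset (DirichletCharacter ℂ M)) fun χ _ => key χ
  rw [Finset.sum_const_zero] at hsum
  refine hsum.congr fun X => ?_
  rw [← Finset.sum_div, Finset.sum_comm]
  congr 1
  refine Finset.sum_congr rfl fun e _ => ?_
  rw [← Finset.sum_mul, ← Finset.mul_sum]
  congr 2
  exact psA_sum M ψ _ _ _ _

/-- PROOF. As `pairA`: `ψ - psA ψ 1 = ∑_(χ ≠ 1) psA ψ χ` (`psA_sum`), and for `χ ≠ 1` `npS` allows `R = 0 < 1` in `ctwA`. -/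
theorem pairA1 (n M : ℕ) [NeZero M] (hn : 0 < n) (hnM : n.primeFactors ⊆ M.primeFactors) (E : Finset ℕ)
    (f1 f2 f3 f4 : ℕ → ℂ) (ω1 ω4 : ℂ) (h1 : MF f1 E ω1) (h2 : ∀ m, ‖f2 m‖ ≤ 1) (h3 : ∀ m, ‖f3 m‖ ≤ 1) (h4 : MF f4 E ω4)
    (hω1 : ‖ω1‖ = 1) (hω4 : ‖ω4‖ = 1) (ψ : ZMod M → ZMod M → ZMod M → ZMod M → ℂ)
    (hψ : ∀ x1 x2 x3 x4, ‖ψ x1 x2 x3 x4‖ ≤ 1) (b : ℝ) (W : ℝ → ℝ → ℝ → ℂ) (hW : TS b W) :
    Tendsto (fun X : ℝ => (∑ e ∈ SN n (b * X), F4 f1 f2 f3 f4 e * (cz M ψ e - cz M (psA M ψ 1) e) *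
      W (yS e / X) (tS e) (uS e)) / X) atTop (nhds 0) := by
  classical
  set ω : ℂ := ω1 * (starRingEnd ℂ) ω4 with hωd
  have hω : ‖ω‖ = 1 := by
    rw [hωd, norm_mul, Complex.norm_conj, hω1, hω4, one_mul]
  have key : ∀ χ ∈ (Finset.univ : Finset (DirichletCharacter ℂ M)).erase 1, Tendsto (fun X : ℝ =>
      (∑ e ∈ SN n (b * X), (F4 f1 f2 f3 f4 e * cz M (psA M ψ χ) e) * W (yS e / X) (tS e) (uS e)) / X)
      atTop (nhds 0) := by
    intro χ hχ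
    have hχ1 : χ ≠ 1 := (Finset.mem_erase.1 hχ).1
    have hC := psiA_cmp n M E f1 f2 f3 f4 ω1 ω4 h1 h2 h3 h4 hω4 ψ hψ χ
    exact ctwA n hn _ (hnM.trans subset_union_right) _ (psiA_g M E ω hω χ) 0 le_rfl zero_le_one
      ((npS M χ ω hω _).2 hχ1) _ hC b W hW (Or.inl zero_lt_one)
  have hsum := tendsto_finsetSum ((Finset.univ : Finset (DirichletCharacter ℂ M)).erase 1) key
  rw [Finset.sum_const_zero] at hsum
  refine hsum.congr fun X => ?_
  rw [← Finset.sum_div, Finset.sum_comm]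
  congr 1
  refine Finset.sum_congr rfl fun e _ => ?_
  rw [← Finset.sum_mul, ← Finset.mul_sum]
  congr 2
  have h5 := psA_sum M ψ (e.a : ZMod M) (e.b : ZMod M) (e.c : ZMod M) (e.d : ZMod M)
  rw [← Finset.add_sum_erase _ _ (Finset.mem_univ (1 : DirichletCharacter ℂ M))] at h5
  show ∑ χ ∈ (Finset.univ : Finset (DirichletCharacter ℂ M)).erase 1,
    psA M ψ χ (e.a : ZMod M) (e.b : ZMod M) (e.c : ZMod M) (e.d : ZMod M) =
    ψ (e.a : ZMod M) (e.b : ZMod M) (e.c : ZMod M) (e.d : ZMod M) -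
      psA M ψ 1 (e.a : ZMod M) (e.b : ZMod M) (e.c : ZMod M) (e.d : ZMod M)
  rw [← h5]
  ring

end Pool.Agent.Spl

end

/-! ### from `Lib_MP_92ef0c_sp.PsiK` -/

section

/-!
# The classes of the correlations, their average
-/

set_option autoImplicit false

namespace Pool.Agent.Spl

open Finset Pool.Agent.GaussMR Pool.Agent.OmAll Pool.Agent.OmEq MeasureTheory Filter

open Classical in
/-- the indicator of `kap3` as a function of the class modulo `n Q` -/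
noncomputable def psk (n Q n0 : ℕ) (x1 x2 x3 x4 : ZMod (n * Q)) : ℂ :=
  if kap3 n Q n0 ⟨x1.val, x2.val, x3.val, x4.val⟩ then 1 else 0

theorem psk_le (n Q n0 : ℕ) (x1 x2 x3 x4 : ZMod (n * Q)) : ‖psk n Q n0 x1 x2 x3 x4‖ ≤ 1 := by
  unfold psk
  split_ifs <;> simp

open Classical in
/-- PROOF. `kap3` depends only on the classes of `a, b, c, d` modulo `n Q` (`ZMod.val_natCast`, `Nat.mod_modEq`, `Nat.ModEq.of_dvd`/`Nat.ModEq.of_mul_right`). -/
theorem cz_psk (n Q n0 : ℕ) (hn : 0 < n) (hQ : 0 < Q) (e : Q4) :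
    cz (n * Q) (psk n Q n0) e = if kap3 n Q n0 e then 1 else 0 := by
  have key : kap3 n Q n0 ⟨(e.a : ZMod (n * Q)).val, (e.b : ZMod (n * Q)).val, (e.c : ZMod (n * Q)).val,
      (e.d : ZMod (n * Q)).val⟩ ↔ kap3 n Q n0 e := by
    unfold kap3
    simp only [ZMod.val_natCast]
    have hm : ∀ x : ℕ, x % (n * Q) ≡ x [MOD n * Q] := fun x => Nat.mod_modEq x _
    have hm' : ∀ x : ℕ, x % (n * Q) ≡ x [MOD n] := fun x => (hm x).of_mul_right Q
    constructor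
    · rintro ⟨h1, ⟨h2, h3⟩, h4⟩
      exact ⟨h1, ⟨(hm' _).symm.trans (h2.trans (hm' _)), (hm' _).symm.trans (h3.trans (hm' _))⟩,
        ((hm e.b).mul (hm e.c)).symm.trans (h4.trans (((hm e.d).mul (hm e.c)).add_right _))⟩
    · rintro ⟨h1, ⟨h2, h3⟩, h4⟩
      exact ⟨h1, ⟨(hm' _).trans (h2.trans (hm' _).symm), (hm' _).trans (h3.trans (hm' _).symm)⟩,
        ((hm e.b).mul (hm e.c)).trans (h4.trans (((hm e.d).mul (hm e.c)).add_right _).symm)⟩
  unfold cz psk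
  simp only [key]

/-- PROOF. Count the units `v` modulo `n Q` with `psk (v a) b c (v⁻¹ d) = 1`, `e = (a, b, c, d)`, `χ = 1`. Write `v` for a natural representative, `v'` for one of the inverse. The conditions are `v a ≡ c`, `b ≡ v' d mod n` (equivalently `v b ≡ d mod n`) and `b c ≡ v' d c + n n0 mod n Q`, equivalently (multiply by `v`) `v b c ≡ d c + v n n0 mod n Q`.
As `a d = b c + n h0` and `(a, b) = (c, d) = 1` there is `λ`, coprime to `n`, unique modulo `n`, with `c ≡ λ a`, `d ≡ λ b mod n` (Bezout `r a + s b = 1`, `λ = r c + s d`). So the first two conditions say `v ≡ λ mod n`. Put `v = λ + n k`, `k` modulo `Q`; as `Q ∣ n`, `v` is coprime to `n Q` for every `k`. Third condition divided by `n`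
(`λ b ≡ d mod n`): `((λ b - d)/n + k b) c ≡ (λ + n k) n0 ≡ λ n0 mod Q` (`Q ∣ n`), i.e. `k b c ≡ λ n0 - ((λ b - d)/n) c mod Q`: exactly one `k` modulo `Q` as `b c` is coprime to `Q`. So exactly one unit `v`, and the value is `1/φ(n Q)`; `φ(n Q) = Q φ(n)` for `Q ∣ n` (every prime divisor of `Q` divides `n`: `Nat.totient_mul_of_prime_of_dvd`,
`Nat.totient_gcd_mul_totient_mul`, or `Nat.totient_eq_mul_prod_factors`). Work over `ℤ` where convenient. -/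
theorem psk_one (n Q n0 h0 : ℕ) (hn : 0 < n) (hQ : 0 < Q) [NeZero (n * Q)] (hQn : Q ∣ n) (e : Q4) (he : Sn (n * h0) e)
    (hc : (e.b * e.c).Coprime Q) :
    cz (n * Q) (psA (n * Q) (psk n Q n0) 1) e = ((1 / (Q * n.totient) : ℝ) : ℂ) := by
  classical
  obtain ⟨hdet, ha, hb, hc0, hd, hab, hcd⟩ := he
  have hex : ∃! v : (ZMod (n * Q))ˣ, kap3 n Q n0 ⟨(v : ZMod (n * Q)).val * e.a, e.b, e.c,
      ((v⁻¹ : (ZMod (n * Q))ˣ) : ZMod (n * Q)).val * e.d⟩ := by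
    obtain ⟨r, s, hrs⟩ : IsCoprime (e.a : ℤ) (e.b : ℤ) := Nat.isCoprime_iff_coprime.2 hab
    obtain ⟨u, w, huw⟩ : IsCoprime (e.c : ℤ) (e.d : ℤ) := Nat.isCoprime_iff_coprime.2 hcd
    obtain ⟨x, y, hxy⟩ : IsCoprime ((e.b * e.c : ℕ) : ℤ) (Q : ℤ) := Nat.isCoprime_iff_coprime.2 hc
    obtain ⟨q, hq⟩ : (Q : ℤ) ∣ (n : ℤ) := by exact_mod_cast hQn
    have hdetZ : (e.a : ℤ) * e.d = e.b * e.c + n * h0 := by exact_mod_cast hdet
    obtain ⟨lam, hlam⟩ : ∃ lam : ℤ, lam = r * e.c + s * e.d := ⟨_, rfl⟩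
    have hla : lam * e.a = e.c + n * (s * h0) := by
      rw [hlam]; linear_combination (e.c : ℤ) * hrs + s * hdetZ
    have hlb : lam * e.b = e.d - n * (r * h0) := by
      rw [hlam]; linear_combination (e.d : ℤ) * hrs - r * hdetZ
    have hlc : IsCoprime lam (n : ℤ) :=
      ⟨u * e.a + w * e.b, h0 * (w * r - u * s), by linear_combination huw + u * hla + w * hlb⟩
    have hchar : ∀ v : (ZMod (n * Q))ˣ, kap3 n Q n0 ⟨(v : ZMod (n * Q)).val * e.a, e.b, e.c,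
        ((v⁻¹ : (ZMod (n * Q))ˣ) : ZMod (n * Q)).val * e.d⟩ ↔
        ((n : ℤ) ∣ ((v : ZMod (n * Q)).val : ℤ) - lam ∧ (n : ℤ) * Q ∣ ((v : ZMod (n * Q)).val : ℤ) * e.b * e.c -
          e.d * e.c - ((v : ZMod (n * Q)).val : ℤ) * n * n0) := by
      intro v
      obtain ⟨V, hV⟩ : ∃ V : ℕ, V = (v : ZMod (n * Q)).val := ⟨_, rfl⟩
      obtain ⟨V', hV'⟩ : ∃ V' : ℕ, V' = ((v⁻¹ : (ZMod (n * Q))ˣ) : ZMod (n * Q)).val := ⟨_, rfl⟩
      rw [← hV, ← hV']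
      have hVV : ((n * Q : ℕ) : ℤ) ∣ (V : ℤ) * V' - 1 := by
        rw [← ZMod.intCast_zmod_eq_zero_iff_dvd]
        push_cast
        rw [hV, hV', ZMod.natCast_zmod_val, ZMod.natCast_zmod_val, Units.mul_inv, sub_self]
      rw [Nat.cast_mul] at hVV
      obtain ⟨z, hz⟩ := hVV
      unfold kap3
      simp only [Nat.modEq_iff_dvd]
      push_cast
      constructor
      · rintro ⟨-, ⟨⟨z1, h1⟩, ⟨z2, h2⟩⟩, ⟨z3, h3⟩⟩
        refine ⟨⟨-(r * z1) - s * V * z2 + s * Q * z * e.d, ?_⟩, ⟨-(V * z3) + z * e.d * e.c, ?_⟩⟩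
        · rw [hlam]
          linear_combination -(V : ℤ) * hrs - r * h1 - s * V * h2 + s * e.d * hz
        · linear_combination -(V : ℤ) * h3 + (e.d : ℤ) * e.c * hz
      · rintro ⟨⟨z1, h1⟩, ⟨z2, h2⟩⟩
        refine ⟨hQn, ⟨⟨-(z1 * e.a) - s * h0, ?_⟩, ⟨-(V' * z1 * e.b) + V' * r * h0 + Q * z * e.b, ?_⟩⟩,
          ⟨-(V' * z2) + z * e.b * e.c - z * n * n0, ?_⟩⟩
        · linear_combination -(e.a : ℤ) * h1 - hla
        · linear_combination -(V' : ℤ) * e.b * h1 - V' * hlb + (e.b : ℤ) * hz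
        · linear_combination -(V' : ℤ) * h2 + ((e.b : ℤ) * e.c - n * n0) * hz
    -- existence
    obtain ⟨k, hk⟩ : ∃ k : ℤ, k = x * (lam * n0 + r * h0 * e.c) := ⟨_, rfl⟩
    obtain ⟨V0, hV0⟩ : ∃ V0 : ℤ, V0 = lam + n * k := ⟨_, rfl⟩
    have hco : IsCoprime ((n * Q : ℕ) : ℤ) V0 := by
      have h1 : IsCoprime (n : ℤ) V0 := by
        rw [hV0]
        exact hlc.symm.add_mul_left_right k
      have h2 : IsCoprime (Q : ℤ) V0 := h1.of_isCoprime_of_dvd_left ⟨q, hq⟩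
      rw [Nat.cast_mul]
      exact h1.mul_left h2
    obtain ⟨v0, hv0⟩ := (ZMod.coe_int_isUnit_iff_isCoprime V0 (n * Q)).2 hco
    have huniq : ∀ v v' : (ZMod (n * Q))ˣ, kap3 n Q n0 ⟨(v : ZMod (n * Q)).val * e.a, e.b, e.c,
        ((v⁻¹ : (ZMod (n * Q))ˣ) : ZMod (n * Q)).val * e.d⟩ → kap3 n Q n0 ⟨(v' : ZMod (n * Q)).val * e.a, e.b, e.c,
        ((v'⁻¹ : (ZMod (n * Q))ˣ) : ZMod (n * Q)).val * e.d⟩ → v = v' := by
      intro v v' h h'
      obtain ⟨⟨z1, h1⟩, ⟨z2, h2⟩⟩ := (hchar v).1 h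
      obtain ⟨⟨z1', h1'⟩, ⟨z2', h2'⟩⟩ := (hchar v').1 h'
      obtain ⟨V, hV⟩ : ∃ V : ℕ, V = (v : ZMod (n * Q)).val := ⟨_, rfl⟩
      obtain ⟨V', hV'⟩ : ∃ V' : ℕ, V' = (v' : ZMod (n * Q)).val := ⟨_, rfl⟩
      rw [← hV] at h1 h2
      rw [← hV'] at h1' h2'
      rw [Nat.cast_mul] at hxy
      have hn' : (n : ℤ) ≠ 0 := by exact_mod_cast hn.ne'
      have h3 : (z1 - z1') * ((e.b : ℤ) * e.c - n * n0) = Q * (z2 - z2') := by
        apply mul_left_cancel₀ hn'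
        linear_combination h2 - h2' - ((e.b : ℤ) * e.c - n * n0) * (h1 - h1')
      have h4 : (n : ℤ) * Q ∣ (V : ℤ) - V' := by
        refine ⟨x * (z2 - z2') + x * q * n0 * (z1 - z1') + y * (z1 - z1'), ?_⟩
        linear_combination h1 - h1' - (n : ℤ) * (z1 - z1') * hxy + (n : ℤ) * x * h3 +
          (n : ℤ) * x * (z1 - z1') * n0 * hq
      have h5 : (((V : ℤ) - V' : ℤ) : ZMod (n * Q)) = 0 := by
        rw [ZMod.intCast_zmod_eq_zero_iff_dvd, Nat.cast_mul]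
        exact h4
      push_cast at h5
      rw [hV, hV', ZMod.natCast_zmod_val, ZMod.natCast_zmod_val, sub_eq_zero] at h5
      exact Units.ext h5
    have hv0k : kap3 n Q n0 ⟨(v0 : ZMod (n * Q)).val * e.a, e.b, e.c,
          ((v0⁻¹ : (ZMod (n * Q))ˣ) : ZMod (n * Q)).val * e.d⟩ := by
      rw [hchar]
      obtain ⟨z, hz⟩ : ((n * Q : ℕ) : ℤ) ∣ ((v0 : ZMod (n * Q)).val : ℤ) - V0 := by
        rw [← ZMod.intCast_zmod_eq_zero_iff_dvd]
        push_cast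
        rw [ZMod.natCast_zmod_val, hv0, sub_self]
      rw [Nat.cast_mul] at hz
      rw [Nat.cast_mul] at hxy
      refine ⟨⟨Q * z + k, ?_⟩, ⟨z * (e.b * e.c - n * n0) - y * (lam * n0 + r * h0 * e.c) - q * k * n0, ?_⟩⟩
      · linear_combination hz + hV0
      · linear_combination ((e.b : ℤ) * e.c - n * n0) * hz + ((e.b : ℤ) * e.c - n * n0) * hV0 + (e.c : ℤ) * hlb +
          (n : ℤ) * e.b * e.c * hk + (n : ℤ) * (lam * n0 + r * h0 * e.c) * hxy - (n : ℤ) * k * n0 * hq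
    exact ⟨v0, hv0k, fun v hv => huniq v v0 hv hv0k⟩
  have hval : ∀ v : (ZMod (n * Q))ˣ, psk n Q n0 ((v : ZMod (n * Q)) * (e.a : ZMod (n * Q))) e.b e.c
      (((v⁻¹ : (ZMod (n * Q))ˣ) : ZMod (n * Q)) * (e.d : ZMod (n * Q))) =
      if kap3 n Q n0 ⟨(v : ZMod (n * Q)).val * e.a, e.b, e.c,
        ((v⁻¹ : (ZMod (n * Q))ˣ) : ZMod (n * Q)).val * e.d⟩ then 1 else 0 := by
    intro v
    rw [← cz_psk n Q n0 hn hQ]
    unfold cz
    simp only [Nat.cast_mul, ZMod.natCast_zmod_val]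
  have hcard : (univ.filter (fun v : (ZMod (n * Q))ˣ => kap3 n Q n0 ⟨(v : ZMod (n * Q)).val * e.a, e.b, e.c,
        ((v⁻¹ : (ZMod (n * Q))ˣ) : ZMod (n * Q)).val * e.d⟩)).card = 1 := by
    obtain ⟨v0, h1, h2⟩ := hex
    rw [Finset.card_eq_one]
    refine ⟨v0, ?_⟩
    ext v
    rw [mem_filter, mem_singleton]
    constructor
    · rintro ⟨-, h⟩
      exact h2 v h
    · rintro rfl
      exact ⟨mem_univ _, h1⟩
  have htot : (n * Q).totient = Q * n.totient := by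
    have h1 := Nat.totient_gcd_mul_totient_mul n Q
    rw [Nat.gcd_eq_right hQn] at h1
    have h2 : 0 < Q.totient := Nat.totient_pos.2 hQ
    have h3 : Q.totient * (n * Q).totient = Q.totient * (Q * n.totient) := by
      rw [h1]; ring
    exact Nat.eq_of_mul_eq_mul_left h2 h3
  unfold cz psA
  simp only [hval, inv_one, MulChar.one_apply_coe, one_mul]
  rw [Finset.sum_boole, hcard, htot]
  push_cast
  rw [mul_one, one_div]

end Pool.Agent.Spl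

end

/-! ### from `Lib_MP_92ef0c_la.CtwT3` -/

section

/-!
# The cluster theorems for families: only primes `≤ T` are moved
-/

set_option autoImplicit false

namespace Pool.Agent.SplL

open Finset Pool.Agent.Spl Pool.Agent.Spl.Ctw3P Pool.Agent.SplB Pool.Agent.GaussMR Pool.Agent.OmAll Pool.Agent.OmEq MeasureTheory
  Filter

private theorem cluT_ndvd {n : ℕ} (hn : 0 < n) {E : Finset ℕ} (hE : n.primeFactors ⊆ E) {p : ℕ} (hp : p.Prime) (hpE : p ∉ E) :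
    ¬ p ∣ n :=
  fun h => hpE (hE (Nat.mem_primeFactors.mpr ⟨hp, h, hn.ne'⟩))

/-- moving a prime from `d` to `a` -/
private theorem cluT_moveA {n : ℕ} {p a b c d : ℕ} (hp : p.Prime) (hpn : ¬ p ∣ n) :
    Sn n ⟨p * a, b, c, d⟩ ↔ Sn n ⟨a, b, c, p * d⟩ := by
  have hnb : ∀ k, p * k = b * c + n → ¬ p ∣ b := by
    intro k hk h
    apply hpn
    have h1 : p ∣ b * c + n := ⟨k, hk.symm⟩
    exact (Nat.dvd_add_right (Dvd.dvd.mul_right h c)).1 h1
  have hnc : ∀ k, p * k = b * c + n → ¬ p ∣ c := by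
    intro k hk h
    apply hpn
    have h1 : p ∣ b * c + n := ⟨k, hk.symm⟩
    exact (Nat.dvd_add_right (Dvd.dvd.mul_left h b)).1 h1
  unfold Sn
  constructor
  · rintro ⟨h1, h2, h3, h4, h5, h6, h7⟩
    simp only at h1 h2 h3 h4 h5 h6 h7 ⊢
    have h8 : p * (a * d) = b * c + n := by rw [← h1]; ring
    have hcp : c.Coprime p := ((Nat.Prime.coprime_iff_not_dvd hp).2 (hnc _ h8)).symm
    refine ⟨by rw [← h8]; ring, Nat.pos_of_mul_pos_left h2, h3, h4, Nat.mul_pos hp.pos h5, ?_, ?_⟩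
    · exact Nat.Coprime.coprime_mul_left h6
    · exact Nat.Coprime.mul_right hcp h7
  · rintro ⟨h1, h2, h3, h4, h5, h6, h7⟩
    simp only at h1 h2 h3 h4 h5 h6 h7 ⊢
    have h8 : p * (a * d) = b * c + n := by rw [← h1]; ring
    have hbp : p.Coprime b := (Nat.Prime.coprime_iff_not_dvd hp).2 (hnb _ h8)
    refine ⟨by rw [← h8]; ring, Nat.mul_pos hp.pos h2, h3, h4, Nat.pos_of_mul_pos_left h5, ?_, ?_⟩
    · exact Nat.Coprime.mul_left hbp h6
    · exact Nat.Coprime.coprime_mul_left_right h7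

/-- moving a prime from `c` to `b` -/
private theorem cluT_moveB {n : ℕ} {p a b c d : ℕ} (hp : p.Prime) (hpn : ¬ p ∣ n) :
    Sn n ⟨a, p * b, c, d⟩ ↔ Sn n ⟨a, b, p * c, d⟩ := by
  have hna : ∀ k, a * d = p * k + n → ¬ p ∣ a := by
    intro k hk h
    apply hpn
    have h1 : p ∣ p * k + n := by rw [← hk]; exact Dvd.dvd.mul_right h d
    exact (Nat.dvd_add_right (Dvd.intro k rfl)).1 h1
  have hnd : ∀ k, a * d = p * k + n → ¬ p ∣ d := by
    intro k hk h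
    apply hpn
    have h1 : p ∣ p * k + n := by rw [← hk]; exact Dvd.dvd.mul_left h a
    exact (Nat.dvd_add_right (Dvd.intro k rfl)).1 h1
  unfold Sn
  constructor
  · rintro ⟨h1, h2, h3, h4, h5, h6, h7⟩
    simp only at h1 h2 h3 h4 h5 h6 h7 ⊢
    have h8 : a * d = p * (b * c) + n := by rw [h1]; ring
    have hdp : p.Coprime d := (Nat.Prime.coprime_iff_not_dvd hp).2 (hnd _ h8)
    refine ⟨by rw [h8]; ring, h2, Nat.pos_of_mul_pos_left h3, Nat.mul_pos hp.pos h4, h5, ?_, ?_⟩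
    · exact Nat.Coprime.coprime_mul_left_right h6
    · exact Nat.Coprime.mul_left hdp h7
  · rintro ⟨h1, h2, h3, h4, h5, h6, h7⟩
    simp only at h1 h2 h3 h4 h5 h6 h7 ⊢
    have h8 : a * d = p * (b * c) + n := by rw [h1]; ring
    have hap : a.Coprime p := ((Nat.Prime.coprime_iff_not_dvd hp).2 (hna _ h8)).symm
    refine ⟨by rw [h8]; ring, h2, Nat.mul_pos hp.pos h3, Nat.pos_of_mul_pos_left h4, h5, ?_, ?_⟩
    · exact Nat.Coprime.mul_right hap h6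
    · exact Nat.Coprime.coprime_mul_left h7

open Classical in
/-- PROOF. Copy of `cluA` (`Lib_MP_92ef0c_sp/CluAB.lean`); only primes `p ∈ PP E T` (so `p ≤ T`) are moved there. -/
theorem cluTA (n : ℕ) (hn : 0 < n) (E : Finset ℕ) (hE : n.primeFactors ⊆ E) (g : ℕ → ℂ) (T : ℕ) (Φ : Q4 → ℂ)
    (hΦ : CmpTA n E T g Φ) (x : ℝ) (W : ℝ → ℝ → ℝ → ℂ) :
    ∑ e ∈ SN n x, Φ e * W (yS e) (tS e) (uS e) =
      ∑ e ∈ (SN n x).filter (bA E T), Φ e * cs g (fun t => W (yS e) t (uS e)) (dA E T e) (tS e) := by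
  refine clus_abs (SN n x) (fun e => e.a) (fun e => e.d) (PP E T) (fun p hp => (mem_PP.1 hp).2.1)
    (fun p e => ⟨p * e.a, e.b, e.c, e.d / p⟩) ?_ ?_ ?_ (fun e he => (mem_SN.1 he).1.2.1)
    (fun e he => (mem_SN.1 he).1.2.2.2.2.1) g Φ ?_ (fun e t => W (yS e) t (uS e)) (fun _ _ _ _ _ _ => rfl)
  · rintro p hp ⟨a, b, c, d⟩ he hd hd2
    obtain ⟨hpT, hpp, hpE⟩ := mem_PP.1 hp
    have hpn := cluT_ndvd hn hE hpp hpE
    obtain ⟨k, rfl⟩ := hd
    obtain ⟨he1, he2⟩ := mem_SN.1 he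
    show ((⟨p * a, b, c, p * k / p⟩ : Q4) ∈ SN n x) ∧ p * a = p * a ∧ p * (p * k / p) = p * k
    rw [Nat.mul_div_cancel_left _ hpp.pos]
    exact ⟨mem_SN.2 ⟨(cluT_moveA hpp hpn).2 he1, he2⟩, rfl, rfl⟩
  · rintro p hp ⟨a, b, c, d⟩ he hd hd2
    obtain ⟨hpT, hpp, hpE⟩ := mem_PP.1 hp
    have hpn := cluT_ndvd hn hE hpp hpE
    obtain ⟨k, rfl⟩ := hd
    obtain ⟨he1, he2⟩ := mem_SN.1 he
    refine ⟨⟨k, b, c, p * d⟩, mem_SN.2 ⟨(cluT_moveA hpp hpn).1 he1, he2⟩, Dvd.intro _ rfl, ?_, ?_⟩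
    · show ¬ p ^ 2 ∣ k * (p * d)
      have h1 : k * (p * d) = p * k * d := by ring
      rw [h1]
      exact hd2
    · show (⟨p * k, b, c, p * d / p⟩ : Q4) = ⟨p * k, b, c, d⟩
      rw [Nat.mul_div_cancel_left _ hpp.pos]
  · rintro p hp ⟨a, b, c, d⟩ he ⟨a', b', c', d'⟩ he' hd hd' h
    obtain ⟨hpT, hpp, hpE⟩ := mem_PP.1 hp
    obtain ⟨k, rfl⟩ := hd
    obtain ⟨k', rfl⟩ := hd'
    simp only [Q4.mk.injEq] at h
    obtain ⟨h1, h2, h3, h4⟩ := h
    rw [Nat.mul_div_cancel_left _ hpp.pos, Nat.mul_div_cancel_left _ hpp.pos] at h4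
    have h5 : a = a' := Nat.eq_of_mul_eq_mul_left hpp.pos h1
    rw [h5, h2, h3, h4]
  · rintro p hp ⟨a, b, c, d⟩ he hd hd2
    obtain ⟨hpT, hpp, hpE⟩ := mem_PP.1 hp
    have hpn := cluT_ndvd hn hE hpp hpE
    obtain ⟨k, rfl⟩ := hd
    obtain ⟨he1, he2⟩ := mem_SN.1 he
    show Φ ⟨p * a, b, c, p * k / p⟩ = g p * Φ ⟨a, b, c, p * k⟩
    rw [Nat.mul_div_cancel_left _ hpp.pos]
    refine hΦ.mv p a b c k hpp hpT hpE ((cluT_moveA hpp hpn).2 he1) ?_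
    have h1 : p * a * k = a * (p * k) := by ring
    rw [h1]
    exact hd2

open Classical in
/-- PROOF. Copy of `cluB` (`Lib_MP_92ef0c_sp/CluAB.lean`). -/
theorem cluTB (n : ℕ) (hn : 0 < n) (E : Finset ℕ) (hE : n.primeFactors ⊆ E) (g : ℕ → ℂ) (T : ℕ) (Φ : Q4 → ℂ)
    (hΦ : CmpTB n E T g Φ) (x : ℝ) (W : ℝ → ℝ → ℝ → ℂ) :
    ∑ e ∈ SN n x, Φ e * W (yS e) (tS e) (uS e) =
      ∑ e ∈ (SN n x).filter (bB E T), Φ e * cs g (fun u => W (yS e) (tS e) u) (dB E T e) (uS e) := by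
  have hy : ∀ p a b k d : ℕ, yS ⟨a, p * b, k, d⟩ = yS ⟨a, b, p * k, d⟩ := by
    intro p a b k d
    unfold yS
    push_cast
    ring
  refine clus_abs (SN n x) (fun e => e.b) (fun e => e.c) (PP E T) (fun p hp => (mem_PP.1 hp).2.1)
    (fun p e => ⟨e.a, p * e.b, e.c / p, e.d⟩) ?_ ?_ ?_ (fun e he => (mem_SN.1 he).1.2.2.1)
    (fun e he => (mem_SN.1 he).1.2.2.2.1) g Φ ?_ (fun e u => W (yS e) (tS e) u) ?_
  · rintro p hp ⟨a, b, c, d⟩ he hd hd2
    obtain ⟨hpT, hpp, hpE⟩ := mem_PP.1 hp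
    have hpn := cluT_ndvd hn hE hpp hpE
    obtain ⟨k, rfl⟩ := hd
    obtain ⟨he1, he2⟩ := mem_SN.1 he
    show ((⟨a, p * b, p * k / p, d⟩ : Q4) ∈ SN n x) ∧ p * b = p * b ∧ p * (p * k / p) = p * k
    rw [Nat.mul_div_cancel_left _ hpp.pos]
    refine ⟨mem_SN.2 ⟨(cluT_moveB hpp hpn).2 he1, ?_⟩, rfl, rfl⟩
    rw [hy]
    exact he2
  · rintro p hp ⟨a, b, c, d⟩ he hd hd2
    obtain ⟨hpT, hpp, hpE⟩ := mem_PP.1 hp
    have hpn := cluT_ndvd hn hE hpp hpE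
    obtain ⟨k, rfl⟩ := hd
    obtain ⟨he1, he2⟩ := mem_SN.1 he
    refine ⟨⟨a, k, p * c, d⟩, mem_SN.2 ⟨(cluT_moveB hpp hpn).1 he1, ?_⟩, Dvd.intro _ rfl, ?_, ?_⟩
    · rw [← hy]
      exact he2
    · show ¬ p ^ 2 ∣ k * (p * c)
      have h1 : k * (p * c) = p * k * c := by ring
      rw [h1]
      exact hd2
    · show (⟨a, p * k, p * c / p, d⟩ : Q4) = ⟨a, p * k, c, d⟩
      rw [Nat.mul_div_cancel_left _ hpp.pos]
  · rintro p hp ⟨a, b, c, d⟩ he ⟨a', b', c', d'⟩ he' hd hd' h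
    obtain ⟨hpT, hpp, hpE⟩ := mem_PP.1 hp
    obtain ⟨k, rfl⟩ := hd
    obtain ⟨k', rfl⟩ := hd'
    simp only [Q4.mk.injEq] at h
    obtain ⟨h1, h2, h3, h4⟩ := h
    rw [Nat.mul_div_cancel_left _ hpp.pos, Nat.mul_div_cancel_left _ hpp.pos] at h3
    have h5 : b = b' := Nat.eq_of_mul_eq_mul_left hpp.pos h2
    rw [h5, h1, h3, h4]
  · rintro p hp ⟨a, b, c, d⟩ he hd hd2
    obtain ⟨hpT, hpp, hpE⟩ := mem_PP.1 hp
    have hpn := cluT_ndvd hn hE hpp hpE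
    obtain ⟨k, rfl⟩ := hd
    obtain ⟨he1, he2⟩ := mem_SN.1 he
    show Φ ⟨a, p * b, p * k / p, d⟩ = g p * Φ ⟨a, b, p * k, d⟩
    rw [Nat.mul_div_cancel_left _ hpp.pos]
    refine hΦ.mv p a b k d hpp hpT hpE ((cluT_moveB hpp hpn).2 he1) ?_
    have h1 : p * b * k = b * (p * k) := by ring
    rw [h1]
    exact hd2
  · rintro p hp ⟨a, b, c, d⟩ he hd hd2
    obtain ⟨hpT, hpp, hpE⟩ := mem_PP.1 hp
    obtain ⟨k, rfl⟩ := hd
    show (fun u => W (yS ⟨a, p * b, p * k / p, d⟩) (tS ⟨a, p * b, p * k / p, d⟩) u) =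
      fun u => W (yS ⟨a, b, p * k, d⟩) (tS ⟨a, b, p * k, d⟩) u
    rw [Nat.mul_div_cancel_left _ hpp.pos, hy]
    rfl

/-- PROOF. Copy of `ctwA` (`Lib_MP_92ef0c_sp/Ctw3.lean`): there `T` is fixed first and then `X → ∞`; use `cluTA` for the large `X` with `CmpTA n E T g (Φ X)`. -/
theorem ctwTA (n : ℕ) (hn : 0 < n) (E : Finset ℕ) (hE : n.primeFactors ⊆ E) (g : ℕ → ℂ)
    (hg1 : ∀ p : ℕ, p.Prime → p ∉ E → ‖g p‖ = 1) (R : ℝ) (hR0 : 0 ≤ R) (hR1 : R ≤ 1) (hNP : NPS E g R)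
    (Φ : ℝ → Q4 → ℂ) (hΦ : ∀ T : ℕ, ∀ᶠ X : ℝ in atTop, CmpTA n E T g (Φ X)) (b : ℝ) (W : ℝ → ℝ → ℝ → ℂ) (hW : TS b W)
    (h0 : R < 1 ∨ ∀ y u, (∫ t, W y t u) = 0) :
    Tendsto (fun X : ℝ => (∑ e ∈ SN n (b * X), Φ X e * W (yS e / X) (tS e) (uS e)) / X) atTop (nhds 0) := by
  classical
  obtain ⟨κ, hκ, htr⟩ := trA n hn
  obtain ⟨R1, hR1pos, hbox⟩ := box hW.supp
  simp only at hbox
  rw [Metric.tendsto_atTop]
  intro ε hε
  set Ψ : Finset ℕ → ℝ → ℝ → ℝ → ℝ := fun D y t u => ‖cs g (fun t => W y t u) D t‖ with hΨ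
  have hΨc : ∀ D, Continuous (fun v : ℝ × ℝ × ℝ => Ψ D v.1 v.2.1 v.2.2) := by
    intro D
    rw [hΨ]
    simp only
    unfold cs
    refine continuous_norm.comp (continuous_finsetSum _ fun a _ => continuous_const.mul ?_)
    exact hW.cont.comp (f := fun v : ℝ × ℝ × ℝ => (v.1, v.2.1 - 2 * lg a, v.2.2)) (by fun_prop)
  have hΨs : ∀ D, ∃ R2 : ℝ, ∀ y t u, Ψ D y t u ≠ 0 → |y| ≤ R2 ∧ |t| ≤ R2 ∧ |u| ≤ R2 := by
    intro D
    obtain ⟨L, hL0, hL⟩ := lg_bd D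
    refine ⟨R1 + L, fun y t u h => ?_⟩
    obtain ⟨s, hs, hst⟩ := cs_ne hL h
    obtain ⟨h1, h2, h3⟩ := hbox y s u hs
    exact ⟨by linarith, by linarith, by linarith⟩
  have hΨ0 : ∀ D y t u, (∀ s, W y s u = 0) → Ψ D y t u = 0 := by
    intro D y t u h
    rw [hΨ]
    simp only
    unfold cs
    rw [sum_eq_zero, norm_zero]
    intro a _
    simp only [h, mul_zero]
  have hTR : ∀ D, TR b (Ψ D) := by
    intro D
    obtain ⟨R2, hR2⟩ := hΨs D
    refine ⟨hΨc D, hcs3 _ R2 (fun y t u h => hR2 y t u h), ?_, ?_⟩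
    · intro y t u hy
      exact hΨ0 D y t u fun s => hW.lo y s u hy
    · intro y t u hy
      exact hΨ0 D y t u fun s => hW.hi y s u hy
  obtain ⟨T, hT⟩ := limT E g hg1 R hR0 hR1 hNP (fun v t => W v.1 t v.2)
    (hW.cont.comp (f := fun w : (ℝ × ℝ) × ℝ => (w.1.1, w.2, w.1.2)) (by fun_prop)) R1
    (fun y u t h => by
      obtain ⟨h1, h2, h3⟩ := hbox y t u h
      exact ⟨h1, h3, h2⟩) (h0.imp id fun h v => h v.1 v.2) κ ε hε
  have ht := htr E hE T Ψ b hTR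
  have hsum : ∑ D ∈ (PP E T).powerset, PrS E T D * ∫ y, ∫ t, ∫ u, Ψ D y t u =
      ∑ D ∈ (PP E T).powerset, PrS E T D * ∫ v : ℝ × ℝ, ∫ t, ‖cs g (fun t => W v.1 t v.2) D t‖ := by
    refine sum_congr rfl fun D _ => ?_
    obtain ⟨R2, hR2⟩ := hΨs D
    rw [ord_A (Ψ D) (hΨc D) R2 hR2]
  rw [hsum] at ht
  obtain ⟨X0, hX0⟩ := eventually_atTop.1 ((ht.eventually (gt_mem_nhds hT)).and (hΦ T))
  refine ⟨max X0 1, fun X hX => ?_⟩
  have hX1 : X0 ≤ X := (le_max_left _ _).trans hX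
  have hX2 : 0 < X := lt_of_lt_of_le one_pos ((le_max_right _ _).trans hX)
  obtain ⟨h3, hΦX⟩ := hX0 X hX1
  rw [dist_zero_right, norm_div, Complex.norm_real, Real.norm_eq_abs, abs_of_pos hX2]
  refine lt_of_le_of_lt ?_ h3
  refine div_le_div_of_nonneg_right ?_ hX2.le
  have h4 := cluTA n hn E hE g T (Φ X) hΦX (b * X) (fun y t u => W (y / X) t u)
  rw [h4]
  refine (norm_sum_le _ _).trans (sum_le_sum fun e _ => ?_)
  rw [norm_mul]
  exact mul_le_of_le_one_left (norm_nonneg _) (hΦX.bd e)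

/-- PROOF. Copy of `ctwB`. -/
theorem ctwTB (n : ℕ) (hn : 0 < n) (E : Finset ℕ) (hE : n.primeFactors ⊆ E) (g : ℕ → ℂ)
    (hg1 : ∀ p : ℕ, p.Prime → p ∉ E → ‖g p‖ = 1) (R : ℝ) (hR0 : 0 ≤ R) (hR1 : R ≤ 1) (hNP : NPS E g R)
    (Φ : ℝ → Q4 → ℂ) (hΦ : ∀ T : ℕ, ∀ᶠ X : ℝ in atTop, CmpTB n E T g (Φ X)) (b : ℝ) (W : ℝ → ℝ → ℝ → ℂ) (hW : TS b W)
    (h0 : R < 1 ∨ ∀ y t, (∫ u, W y t u) = 0) :
    Tendsto (fun X : ℝ => (∑ e ∈ SN n (b * X), Φ X e * W (yS e / X) (tS e) (uS e)) / X) atTop (nhds 0) := by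
  classical
  obtain ⟨κ, hκ, htr⟩ := trB n hn
  obtain ⟨R1, hR1pos, hbox⟩ := box hW.supp
  simp only at hbox
  rw [Metric.tendsto_atTop]
  intro ε hε
  set Ψ : Finset ℕ → ℝ → ℝ → ℝ → ℝ := fun D y t u => ‖cs g (fun u => W y t u) D u‖ with hΨ
  have hΨc : ∀ D, Continuous (fun v : ℝ × ℝ × ℝ => Ψ D v.1 v.2.1 v.2.2) := by
    intro D
    rw [hΨ]
    simp only
    unfold cs
    refine continuous_norm.comp (continuous_finsetSum _ fun a _ => continuous_const.mul ?_)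
    exact hW.cont.comp (f := fun v : ℝ × ℝ × ℝ => (v.1, v.2.1, v.2.2 - 2 * lg a)) (by fun_prop)
  have hΨs : ∀ D, ∃ R2 : ℝ, ∀ y t u, Ψ D y t u ≠ 0 → |y| ≤ R2 ∧ |t| ≤ R2 ∧ |u| ≤ R2 := by
    intro D
    obtain ⟨L, hL0, hL⟩ := lg_bd D
    refine ⟨R1 + L, fun y t u h => ?_⟩
    obtain ⟨s, hs, hst⟩ := cs_ne hL h
    obtain ⟨h1, h2, h3⟩ := hbox y t s hs
    exact ⟨by linarith, by linarith, by linarith⟩
  have hΨ0 : ∀ D y t u, (∀ s, W y t s = 0) → Ψ D y t u = 0 := by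
    intro D y t u h
    rw [hΨ]
    simp only
    unfold cs
    rw [sum_eq_zero, norm_zero]
    intro a _
    simp only [h, mul_zero]
  have hTR : ∀ D, TR b (Ψ D) := by
    intro D
    obtain ⟨R2, hR2⟩ := hΨs D
    refine ⟨hΨc D, hcs3 _ R2 (fun y t u h => hR2 y t u h), ?_, ?_⟩
    · intro y t u hy
      exact hΨ0 D y t u fun s => hW.lo y t s hy
    · intro y t u hy
      exact hΨ0 D y t u fun s => hW.hi y t s hy
  obtain ⟨T, hT⟩ := limT E g hg1 R hR0 hR1 hNP (fun v u => W v.1 v.2 u)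
    (hW.cont.comp (f := fun w : (ℝ × ℝ) × ℝ => (w.1.1, w.1.2, w.2)) (by fun_prop)) R1
    (fun y t u h => hbox y t u h) (h0.imp id fun h v => h v.1 v.2) κ ε hε
  have ht := htr E hE T Ψ b hTR
  have hsum : ∑ D ∈ (PP E T).powerset, PrS E T D * ∫ y, ∫ t, ∫ u, Ψ D y t u =
      ∑ D ∈ (PP E T).powerset, PrS E T D * ∫ v : ℝ × ℝ, ∫ u, ‖cs g (fun u => W v.1 v.2 u) D u‖ := by
    refine sum_congr rfl fun D _ => ?_
    obtain ⟨R2, hR2⟩ := hΨs D
    rw [ord_B (Ψ D) (hΨc D) R2 hR2]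
  rw [hsum] at ht
  obtain ⟨X0, hX0⟩ := eventually_atTop.1 ((ht.eventually (gt_mem_nhds hT)).and (hΦ T))
  refine ⟨max X0 1, fun X hX => ?_⟩
  have hX1 : X0 ≤ X := (le_max_left _ _).trans hX
  have hX2 : 0 < X := lt_of_lt_of_le one_pos ((le_max_right _ _).trans hX)
  obtain ⟨h3, hΦX⟩ := hX0 X hX1
  rw [dist_zero_right, norm_div, Complex.norm_real, Real.norm_eq_abs, abs_of_pos hX2]
  refine lt_of_le_of_lt ?_ h3
  refine div_le_div_of_nonneg_right ?_ hX2.le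
  have h4 := cluTB n hn E hE g T (Φ X) hΦX (b * X) (fun y t u => W (y / X) t u)
  rw [h4]
  refine (norm_sum_le _ _).trans (sum_le_sum fun e _ => ?_)
  rw [norm_mul]
  exact mul_le_of_le_one_left (norm_nonneg _) (hΦX.bd e)

end Pool.Agent.SplL

end

/-! ### from `Lib_MP_92ef0c_sp.PsiB` -/

section

/-!
# Moves between `b` and `c` with residue classes
-/

set_option autoImplicit false

namespace Pool.Agent.Spl

open Finset Pool.Agent.GaussMR Pool.Agent.OmAll Pool.Agent.OmEq MeasureTheory Filter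

namespace PsiBP

/-- the component of `ψ` that is multiplied by `χ w` under `(x2, x3) ↦ (w x2, w⁻¹ x3)` -/
noncomputable def psB (M : ℕ) [NeZero M] (ψ : ZMod M → ZMod M → ZMod M → ZMod M → ℂ) (χ : DirichletCharacter ℂ M)
    (x1 x2 x3 x4 : ZMod M) : ℂ :=
  (M.totient : ℂ)⁻¹ * ∑ v : (ZMod M)ˣ, χ⁻¹ (v : ZMod M) * ψ x1 ((v : ZMod M) * x2) (((v⁻¹ : (ZMod M)ˣ) : ZMod M) * x3) x4

theorem psB_sum (M : ℕ) [NeZero M] (ψ : ZMod M → ZMod M → ZMod M → ZMod M → ℂ) (x1 x2 x3 x4 : ZMod M) :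
    ∑ χ : DirichletCharacter ℂ M, psB M ψ χ x1 x2 x3 x4 = ψ x1 x2 x3 x4 := by
  have hφ : ((M.totient : ℕ) : ℂ) ≠ 0 := by
    exact_mod_cast (Nat.totient_pos.2 (Nat.pos_of_ne_zero (NeZero.ne M))).ne'
  unfold psB
  rw [← mul_sum, sum_comm]
  have h1 : ∀ v : (ZMod M)ˣ, ∑ χ : DirichletCharacter ℂ M, χ⁻¹ (v : ZMod M) *
      ψ x1 ((v : ZMod M) * x2) (((v⁻¹ : (ZMod M)ˣ) : ZMod M) * x3) x4 =
      if v = 1 then (M.totient : ℂ) * ψ x1 x2 x3 x4 else 0 := by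
    intro v
    rw [← sum_mul]
    have h2 : ∑ χ : DirichletCharacter ℂ M, χ⁻¹ (v : ZMod M) =
        ∑ χ : DirichletCharacter ℂ M, χ (v : ZMod M) :=
      Equiv.sum_comp (Equiv.inv (DirichletCharacter ℂ M)) (fun χ => χ (v : ZMod M))
    rw [h2, DirichletCharacter.sum_characters_eq]
    by_cases hv : v = 1
    · subst hv
      simp
    · rw [if_neg hv, if_neg, zero_mul]
      intro h
      exact hv (Units.ext (by simpa using h))
  rw [sum_congr rfl (fun v _ => h1 v), sum_ite_eq' univ (1 : (ZMod M)ˣ), if_pos (mem_univ _),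
    inv_mul_cancel_left₀ hφ]

theorem psB_mul (M : ℕ) [NeZero M] (ψ : ZMod M → ZMod M → ZMod M → ZMod M → ℂ) (χ : DirichletCharacter ℂ M) (w : (ZMod M)ˣ)
    (x1 x2 x3 x4 : ZMod M) :
    psB M ψ χ x1 ((w : ZMod M) * x2) (((w⁻¹ : (ZMod M)ˣ) : ZMod M) * x3) x4 = χ (w : ZMod M) * psB M ψ χ x1 x2 x3 x4 := by
  unfold psB
  rw [mul_left_comm]
  congr 1
  rw [← Equiv.sum_comp (Equiv.mulRight w) (fun v : (ZMod M)ˣ => χ⁻¹ (v : ZMod M) *
    ψ x1 ((v : ZMod M) * x2) (((v⁻¹ : (ZMod M)ˣ) : ZMod M) * x3) x4), mul_sum]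
  refine sum_congr rfl fun v _ => ?_
  rw [Equiv.coe_mulRight]
  have h1 : χ⁻¹ ((v * w : (ZMod M)ˣ) : ZMod M) = χ⁻¹ (v : ZMod M) * χ⁻¹ (w : ZMod M) := by
    rw [Units.val_mul, map_mul]
  have h2 : χ (w : ZMod M) * χ⁻¹ (w : ZMod M) = 1 := by
    have h3 : (χ * χ⁻¹) (w : ZMod M) = 1 := by
      rw [mul_inv_cancel, MulChar.one_apply_coe]
    rwa [MulChar.mul_apply] at h3
  rw [h1, Units.val_mul, mul_inv_rev, Units.val_mul]
  have h4 : (v : ZMod M) * (w : ZMod M) * x2 = (v : ZMod M) * ((w : ZMod M) * x2) := mul_assoc _ _ _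
  have h5 : ((w⁻¹ : (ZMod M)ˣ) : ZMod M) * ((v⁻¹ : (ZMod M)ˣ) : ZMod M) * x3 =
      ((v⁻¹ : (ZMod M)ˣ) : ZMod M) * (((w⁻¹ : (ZMod M)ˣ) : ZMod M) * x3) := by ring
  rw [h4, h5]
  linear_combination (-(χ⁻¹ (v : ZMod M) * ψ x1 ((v : ZMod M) * ((w : ZMod M) * x2))
    (((v⁻¹ : (ZMod M)ˣ) : ZMod M) * (((w⁻¹ : (ZMod M)ˣ) : ZMod M) * x3)) x4)) * h2

theorem psB_le (M : ℕ) [NeZero M] (ψ : ZMod M → ZMod M → ZMod M → ZMod M → ℂ) (hψ : ∀ x1 x2 x3 x4, ‖ψ x1 x2 x3 x4‖ ≤ 1)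
    (χ : DirichletCharacter ℂ M) (x1 x2 x3 x4 : ZMod M) : ‖psB M ψ χ x1 x2 x3 x4‖ ≤ 1 := by
  have hφ : (0 : ℝ) < (M.totient : ℝ) := by
    exact_mod_cast (Nat.totient_pos.2 (Nat.pos_of_ne_zero (NeZero.ne M)))
  unfold psB
  rw [norm_mul, norm_inv, Complex.norm_natCast, inv_mul_le_iff₀ hφ, mul_one]
  refine (norm_sum_le _ _).trans ?_
  calc ∑ v : (ZMod M)ˣ, ‖χ⁻¹ (v : ZMod M) * ψ x1 ((v : ZMod M) * x2) (((v⁻¹ : (ZMod M)ˣ) : ZMod M) * x3) x4‖
      ≤ ∑ v : (ZMod M)ˣ, (1 : ℝ) := by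
        refine sum_le_sum fun v _ => ?_
        rw [norm_mul]
        exact mul_le_one₀ (χ⁻¹.norm_le_one _) (norm_nonneg _) (hψ _ _ _ _)
    _ = (M.totient : ℝ) := by
        rw [sum_const, card_univ, ZMod.card_units_eq_totient, nsmul_eq_mul, mul_one]

theorem re_lt {ω : ℂ} (hω : ‖ω‖ = 1) (h : ω ≠ 1) : ω.re < 1 := by
  refine lt_of_le_of_ne ((Complex.re_le_norm ω).trans hω.le) fun h1 => h ?_
  have h2 : ω.re ^ 2 + ω.im ^ 2 = 1 := by
    have := Complex.sq_norm ω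
    rw [hω, Complex.normSq_apply] at this
    nlinarith
  have h3 : ω.im = 0 := by
    have : ω.im ^ 2 = 0 := by
      rw [h1] at h2
      linarith
    exact pow_eq_zero_iff (two_ne_zero) |>.1 this
  exact Complex.ext (by simpa using h1) (by simpa using h3)

end PsiBP

open PsiBP in
/-- PROOF. As `pairA` (`PsiA.lean`) with `ctwB`: put `psB M ψ χ x1 x2 x3 x4 = (1/φ(M)) ∑_v χ⁻¹(v) ψ x1 (v x2) (v⁻¹ x3) x4`, `∑_χ psB = ψ`, `psB χ x1 (w x2) (w⁻¹ x3) x4 = χ(w) psB χ x1 x2 x3 x4`, `‖psB‖ ≤ 1`. For a prime `p ∉ E ∪ M.primeFactors`: `Φ = F4 f1 f2 f3 f4 * cz (psB ψ χ)` satisfies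
`Φ ⟨a, p b, c, d⟩ = ω2 conj ω3 χ(p) Φ ⟨a, b, p c, d⟩`. -/
theorem pairB (n M : ℕ) [NeZero M] (hn : 0 < n) (hnM : n.primeFactors ⊆ M.primeFactors) (E : Finset ℕ)
    (f1 f2 f3 f4 : ℕ → ℂ) (ω2 ω3 : ℂ) (h1 : ∀ m, ‖f1 m‖ ≤ 1) (h2 : MF f2 E ω2) (h3 : MF f3 E ω3) (h4 : ∀ m, ‖f4 m‖ ≤ 1)
    (hω2 : ‖ω2‖ = 1) (hω3 : ‖ω3‖ = 1) (ψ : ZMod M → ZMod M → ZMod M → ZMod M → ℂ)
    (hψ : ∀ x1 x2 x3 x4, ‖ψ x1 x2 x3 x4‖ ≤ 1) (b : ℝ) (W : ℝ → ℝ → ℝ → ℂ) (hW : TS b W)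
    (h0 : ω2 * (starRingEnd ℂ) ω3 ≠ 1 ∨ ∀ y t, (∫ u, W y t u) = 0) :
    Tendsto (fun X : ℝ => (∑ e ∈ SN n (b * X), F4 f1 f2 f3 f4 e * cz M ψ e * W (yS e / X) (tS e) (uS e)) / X)
      atTop (nhds 0) := by
  classical
  set ω : ℂ := ω2 * (starRingEnd ℂ) ω3 with hωdef
  have hω : ‖ω‖ = 1 := by rw [hωdef, norm_mul, RCLike.norm_conj, hω2, hω3, one_mul]
  have hω33 : (starRingEnd ℂ) ω3 * ω3 = 1 := by
    rw [mul_comm, Complex.mul_conj, Complex.normSq_eq_norm_sq, hω3]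
    norm_num
  have key : ∀ χ : DirichletCharacter ℂ M,
      Tendsto (fun X : ℝ => (∑ e ∈ SN n (b * X), (F4 f1 f2 f3 f4 e * cz M (psB M ψ χ) e) *
        W (yS e / X) (tS e) (uS e)) / X) atTop (nhds 0) := by
    intro χ
    refine ctwB n hn (E ∪ M.primeFactors) (hnM.trans subset_union_right) (fun p => ω * χ ((p : ZMod M))) ?_
      (max 0 ω.re) (le_max_left _ _) (max_le zero_le_one ((Complex.re_le_norm ω).trans hω.le))
      (npS M χ ω hω (E ∪ M.primeFactors)).1 (fun e => F4 f1 f2 f3 f4 e * cz M (psB M ψ χ) e) ?_ b W hW ?_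
    · intro p hp hpE
      have hpM : ¬ p ∣ M := fun h => hpE (mem_union_right _ (Nat.mem_primeFactors.2 ⟨hp, h, NeZero.ne M⟩))
      have hu : p.Coprime M := (Nat.Prime.coprime_iff_not_dvd hp).2 hpM
      rw [norm_mul, hω, one_mul, ← ZMod.coe_unitOfCoprime p hu]
      exact χ.unit_norm_eq_one _
    · refine ⟨fun e => ?_, ?_⟩
      · rw [norm_mul]
        exact mul_le_one₀ (norm_F4_le h1 h2.bd h3.bd h4 e) (norm_nonneg _) (psB_le M ψ hψ χ _ _ _ _)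
      · intro p a b' c d hp hpE _ _
        have hpM : ¬ p ∣ M := fun h => hpE (mem_union_right _ (Nat.mem_primeFactors.2 ⟨hp, h, NeZero.ne M⟩))
        have hpE' : p ∉ E := fun h => hpE (mem_union_left _ h)
        have hu : p.Coprime M := (Nat.Prime.coprime_iff_not_dvd hp).2 hpM
        set w : (ZMod M)ˣ := ZMod.unitOfCoprime p hu with hw
        have hwp : (w : ZMod M) = (p : ZMod M) := ZMod.coe_unitOfCoprime p hu
        have e1 : cz M (psB M ψ χ) ⟨a, p * b', c, d⟩ = χ (p : ZMod M) * cz M (psB M ψ χ) ⟨a, b', p * c, d⟩ := by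
          unfold cz
          simp only
          rw [Nat.cast_mul, Nat.cast_mul, ← hwp, ← psB_mul, Units.inv_mul_cancel_left]
        have e2 : F4 f1 f2 f3 f4 ⟨a, p * b', c, d⟩ = ω * F4 f1 f2 f3 f4 ⟨a, b', p * c, d⟩ := by
          unfold F4
          simp only
          rw [h2.mul, h3.mul, h2.pr p hp hpE', h3.pr p hp hpE', hωdef]
          linear_combination (-(f1 a * ω2 * f2 b' * f3 c * f4 d)) * hω33
        rw [e1, e2]
        ring
    · rcases h0 with h0 | h0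
      · exact Or.inl (max_lt one_pos (re_lt hω h0))
      · exact Or.inr h0
  have hsum := tendsto_finsetSum (univ : Finset (DirichletCharacter ℂ M)) (fun χ _ => key χ)
  rw [sum_const_zero] at hsum
  refine hsum.congr fun X => ?_
  rw [← sum_div, sum_comm]
  congr 1
  refine sum_congr rfl fun e _ => ?_
  rw [← sum_mul, ← mul_sum]
  congr 2
  unfold cz
  exact psB_sum M ψ _ _ _ _

end Pool.Agent.Spl

end
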