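import Pool.Agent.Lib_MP_92ef0c_m.M46
import Pool.Agent.Lib_MP_92ef0c_m.M47
import Pool.Agent.Lib_MP_92ef0c_m.M53

/-!
# MP_92ef0c_nt, split pairs: merged library part M54

Concatenation of smaller files (each in its own section), only to save build time.
-/

/-! ### from `Lib_MP_92ef0c_la.PairT3` -/

section

/-!
# Moves with residue classes, for families
-/

set_option autoImplicit false

namespace Pool.Agent.SplL

open Finset Pool.Agent.Spl Pool.Agent.SplB Pool.Agent.GaussMR Pool.Agent.OmAll Pool.Agent.OmEq MeasureTheory Filter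

/-- PROOF. `χ⁻¹ v = 1` for the trivial character and a unit `v`. -/
theorem avA_eq (M : ℕ) [NeZero M] (ψ : ZMod M → ZMod M → ZMod M → ZMod M → ℂ) : avA M ψ = psA M ψ 1 := by
  funext x1 x2 x3 x4
  unfold avA psA
  congr 1
  refine Finset.sum_congr rfl fun v _ => ?_
  have h1 : (1 : DirichletCharacter ℂ M)⁻¹ (v : ZMod M) = 1 := by
    rw [inv_one, MulChar.one_apply v.isUnit]
  rw [h1, one_mul]

private theorem pt3_re_lt {z : ℂ} (hz : ‖z‖ = 1) (h1 : z ≠ 1) : z.re < 1 := by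
  rcases lt_or_eq_of_le (hz ▸ Complex.re_le_norm z) with h | h
  · exact h
  · exfalso
    apply h1
    have h2 := Complex.sq_norm_sub_sq_re z
    rw [hz, h] at h2
    have h3 : z.im = 0 := by
      have : z.im ^ 2 = 0 := by rw [← h2]; norm_num
      exact pow_eq_zero_iff (two_ne_zero) |>.1 this
    exact Complex.ext (by simpa using h) (by simpa using h3)

private theorem pt3_cmpA (n M : ℕ) [NeZero M] (E : Finset ℕ) (T : ℕ)
    (f1 f2 f3 f4 : ℕ → ℂ) (ω1 ω4 : ℂ) (h1m : ∀ m n, f1 (m * n) = f1 m * f1 n) (h1b : ∀ n, ‖f1 n‖ ≤ 1)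
    (h1 : ∀ p : ℕ, p ≤ T → p.Prime → p ∉ E → f1 p = ω1) (h2 : ∀ m, ‖f2 m‖ ≤ 1)
    (h3 : ∀ m, ‖f3 m‖ ≤ 1) (h4m : ∀ m n, f4 (m * n) = f4 m * f4 n) (h4b : ∀ n, ‖f4 n‖ ≤ 1)
    (h4 : ∀ p : ℕ, p ≤ T → p.Prime → p ∉ E → f4 p = ω4)
    (hω4 : ‖ω4‖ = 1) (ψ : ZMod M → ZMod M → ZMod M → ZMod M → ℂ)
    (hψ : ∀ x1 x2 x3 x4, ‖ψ x1 x2 x3 x4‖ ≤ 1) (χ : DirichletCharacter ℂ M) :
    CmpTA n (E ∪ M.primeFactors) T (fun p => ω1 * (starRingEnd ℂ) ω4 * χ ((p : ZMod M)))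
      (fun e => F4 f1 f2 f3 f4 e * cz M (psA M ψ χ) e) := by
  classical
  refine ⟨fun e => ?_, ?_⟩
  · rw [norm_mul]
    exact mul_le_one₀ (norm_F4_le h1b h2 h3 h4b e) (norm_nonneg _) (psA_le M ψ hψ χ _ _ _ _)
  · intro p a b c d hp hT hE _ _
    have hE1 : p ∉ E := fun h => hE (Finset.mem_union_left _ h)
    have hcop : p.Coprime M := by
      rw [Nat.Prime.coprime_iff_not_dvd hp]
      intro hd
      exact hE (Finset.mem_union_right _ (Nat.mem_primeFactors.mpr ⟨hp, hd, NeZero.ne M⟩))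
    have hw : ((ZMod.unitOfCoprime p hcop : (ZMod M)ˣ) : ZMod M) = (p : ZMod M) := ZMod.coe_unitOfCoprime p hcop
    have e1 : f1 (p * a) = ω1 * f1 a := by rw [h1m, h1 p hT hp hE1]
    have e2 : f4 (p * d) = ω4 * f4 d := by rw [h4m, h4 p hT hp hE1]
    have e3 : (starRingEnd ℂ) ω4 * ω4 = 1 := by
      rw [mul_comm, Complex.mul_conj, Complex.normSq_eq_norm_sq, hω4]
      norm_num
    have e4 := psA_mul M ψ χ (ZMod.unitOfCoprime p hcop) (a : ZMod M) (b : ZMod M) (c : ZMod M)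
      ((p : ZMod M) * (d : ZMod M))
    have e5 : (((ZMod.unitOfCoprime p hcop)⁻¹ : (ZMod M)ˣ) : ZMod M) * ((p : ZMod M) * (d : ZMod M)) = (d : ZMod M) := by
      rw [← hw, ← mul_assoc, Units.inv_mul, one_mul]
    rw [e5, hw] at e4
    show F4 f1 f2 f3 f4 ⟨p * a, b, c, d⟩ * cz M (psA M ψ χ) ⟨p * a, b, c, d⟩ =
      ω1 * (starRingEnd ℂ) ω4 * χ ((p : ZMod M)) * (F4 f1 f2 f3 f4 ⟨a, b, c, p * d⟩ *
        cz M (psA M ψ χ) ⟨a, b, c, p * d⟩)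
    unfold F4 cz
    simp only [Nat.cast_mul]
    rw [e4, e1, e2]
    calc ω1 * f1 a * f2 b * f3 c * f4 d * (χ (p : ZMod M) * psA M ψ χ a b c ((p : ZMod M) * (d : ZMod M)))
        = ω1 * f1 a * f2 b * f3 c * f4 d * (χ (p : ZMod M) * psA M ψ χ a b c ((p : ZMod M) * (d : ZMod M))) *
          ((starRingEnd ℂ) ω4 * ω4) := by rw [e3, mul_one]
      _ = _ := by ring

private theorem pt3_evA (n M : ℕ) [NeZero M] (E : Finset ℕ)
    (f1 f2 f3 f4 : ℝ → ℕ → ℂ) (ω1 ω4 : ℂ) (h1 : FT f1 E ω1) (h2 : ∀ X m, ‖f2 X m‖ ≤ 1)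
    (h3 : ∀ X m, ‖f3 X m‖ ≤ 1) (h4 : FT f4 E ω4) (hω4 : ‖ω4‖ = 1)
    (ψ : ZMod M → ZMod M → ZMod M → ZMod M → ℂ)
    (hψ : ∀ x1 x2 x3 x4, ‖ψ x1 x2 x3 x4‖ ≤ 1) (χ : DirichletCharacter ℂ M) :
    ∀ T : ℕ, ∀ᶠ X : ℝ in atTop, CmpTA n (E ∪ M.primeFactors) T
      (fun p => ω1 * (starRingEnd ℂ) ω4 * χ ((p : ZMod M)))
      (fun e => F4 (f1 X) (f2 X) (f3 X) (f4 X) e * cz M (psA M ψ χ) e) := by
  intro T
  filter_upwards [h1.pr T, h4.pr T] with X hX1 hX4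
  exact pt3_cmpA n M E T _ _ _ _ ω1 ω4 (h1.mul X) (h1.bd X) hX1 (h2 X) (h3 X) (h4.mul X) (h4.bd X)
    hX4 hω4 ψ hψ χ

private theorem pt3_g (M : ℕ) [NeZero M] (E : Finset ℕ) (ω : ℂ) (hω : ‖ω‖ = 1) (χ : DirichletCharacter ℂ M) :
    ∀ p : ℕ, p.Prime → p ∉ E ∪ M.primeFactors → ‖ω * χ ((p : ZMod M))‖ = 1 := by
  classical
  intro p hp hpE
  have hpn : ¬ p ∣ M := fun h => hpE (mem_union_right _ (Nat.mem_primeFactors.2 ⟨hp, h, NeZero.ne M⟩))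
  have hcop : p.Coprime M := (Nat.Prime.coprime_iff_not_dvd hp).2 hpn
  rw [norm_mul, hω, one_mul]
  have h3 := DirichletCharacter.unit_norm_eq_one χ (ZMod.unitOfCoprime p hcop)
  rwa [ZMod.coe_unitOfCoprime] at h3

/-- PROOF. Copy of `pairA` (`Lib_MP_92ef0c_sp/PsiA.lean`) with `ctwTA`: for every `T`, for large `X` the functions `f1 X`, `f4 X` take the values `ω1`, `ω4` at the primes `p ≤ T`, `p ∉ E` (`FT.pr`), so `CmpTA` holds for `F4 .. * cz M (psA M ψ χ)`. -/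
theorem pairTA (n M : ℕ) [NeZero M] (hn : 0 < n) (hnM : n.primeFactors ⊆ M.primeFactors) (E : Finset ℕ)
    (f1 f2 f3 f4 : ℝ → ℕ → ℂ) (ω1 ω4 : ℂ) (h1 : FT f1 E ω1) (h2 : ∀ X m, ‖f2 X m‖ ≤ 1) (h3 : ∀ X m, ‖f3 X m‖ ≤ 1)
    (h4 : FT f4 E ω4) (hω1 : ‖ω1‖ = 1) (hω4 : ‖ω4‖ = 1) (ψ : ZMod M → ZMod M → ZMod M → ZMod M → ℂ)
    (hψ : ∀ x1 x2 x3 x4, ‖ψ x1 x2 x3 x4‖ ≤ 1) (b : ℝ) (W : ℝ → ℝ → ℝ → ℂ) (hW : TS b W)
    (h0 : ω1 * (starRingEnd ℂ) ω4 ≠ 1 ∨ ∀ y u, (∫ t, W y t u) = 0) :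
    Tendsto (fun X : ℝ => (∑ e ∈ SN n (b * X), F4 (f1 X) (f2 X) (f3 X) (f4 X) e * cz M ψ e *
      W (yS e / X) (tS e) (uS e)) / X) atTop (nhds 0) := by
  classical
  set ω : ℂ := ω1 * (starRingEnd ℂ) ω4 with hωd
  have hω : ‖ω‖ = 1 := by
    rw [hωd, norm_mul, Complex.norm_conj, hω1, hω4, one_mul]
  have key : ∀ χ : DirichletCharacter ℂ M, Tendsto (fun X : ℝ => (∑ e ∈ SN n (b * X),
      (F4 (f1 X) (f2 X) (f3 X) (f4 X) e * cz M (psA M ψ χ) e) * W (yS e / X) (tS e) (uS e)) / X)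
      atTop (nhds 0) := by
    intro χ
    have hC := pt3_evA n M E f1 f2 f3 f4 ω1 ω4 h1 h2 h3 h4 hω4 ψ hψ χ
    rcases h0 with h | h
    · exact ctwTA n hn _ (hnM.trans subset_union_right) _ (pt3_g M E ω hω χ) (max 0 ω.re) (le_max_left _ _)
        (max_le zero_le_one (pt3_re_lt hω h).le) (npS M χ ω hω _).1 _ hC b W hW
        (Or.inl (max_lt zero_lt_one (pt3_re_lt hω h)))
    · exact ctwTA n hn _ (hnM.trans subset_union_right) _ (pt3_g M E ω hω χ) (max 0 ω.re) (le_max_left _ _)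
        (max_le zero_le_one (hω ▸ Complex.re_le_norm _)) (npS M χ ω hω _).1 _ hC b W hW (Or.inr h)
  have hsum := tendsto_finsetSum (Finset.univ : Finset (DirichletCharacter ℂ M)) fun χ _ => key χ
  rw [Finset.sum_const_zero] at hsum
  refine hsum.congr fun X => ?_
  rw [← Finset.sum_div, Finset.sum_comm]
  congr 1
  refine Finset.sum_congr rfl fun e _ => ?_
  rw [← Finset.sum_mul, ← Finset.mul_sum]
  congr 2
  exact psA_sum M ψ _ _ _ _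

/-- PROOF. Copy of `pairA1`. -/
theorem pairTA1 (n M : ℕ) [NeZero M] (hn : 0 < n) (hnM : n.primeFactors ⊆ M.primeFactors) (E : Finset ℕ)
    (f1 f2 f3 f4 : ℝ → ℕ → ℂ) (ω1 ω4 : ℂ) (h1 : FT f1 E ω1) (h2 : ∀ X m, ‖f2 X m‖ ≤ 1) (h3 : ∀ X m, ‖f3 X m‖ ≤ 1)
    (h4 : FT f4 E ω4) (hω1 : ‖ω1‖ = 1) (hω4 : ‖ω4‖ = 1) (ψ : ZMod M → ZMod M → ZMod M → ZMod M → ℂ)
    (hψ : ∀ x1 x2 x3 x4, ‖ψ x1 x2 x3 x4‖ ≤ 1) (b : ℝ) (W : ℝ → ℝ → ℝ → ℂ) (hW : TS b W) :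
    Tendsto (fun X : ℝ => (∑ e ∈ SN n (b * X), F4 (f1 X) (f2 X) (f3 X) (f4 X) e * (cz M ψ e - cz M (psA M ψ 1) e) *
      W (yS e / X) (tS e) (uS e)) / X) atTop (nhds 0) := by
  classical
  set ω : ℂ := ω1 * (starRingEnd ℂ) ω4 with hωd
  have hω : ‖ω‖ = 1 := by
    rw [hωd, norm_mul, Complex.norm_conj, hω1, hω4, one_mul]
  have key : ∀ χ ∈ (Finset.univ : Finset (DirichletCharacter ℂ M)).erase 1, Tendsto (fun X : ℝ =>
      (∑ e ∈ SN n (b * X), (F4 (f1 X) (f2 X) (f3 X) (f4 X) e * cz M (psA M ψ χ) e) *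
        W (yS e / X) (tS e) (uS e)) / X)
      atTop (nhds 0) := by
    intro χ hχ
    have hχ1 : χ ≠ 1 := (Finset.mem_erase.1 hχ).1
    have hC := pt3_evA n M E f1 f2 f3 f4 ω1 ω4 h1 h2 h3 h4 hω4 ψ hψ χ
    exact ctwTA n hn _ (hnM.trans subset_union_right) _ (pt3_g M E ω hω χ) 0 le_rfl zero_le_one
      ((npS M χ ω hω _).2 hχ1) _ hC b W hW (Or.inl zero_lt_one)
  have hsum := tendsto_finsetSum ((Finset.univ : Finset (DirichletCharacter ℂ M)).erase 1) key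
  rw [Finset.sum_const_zero] at hsum
  refine hsum.congr fun X => ?_
  rw [← Finset.sum_div, Finset.sum_comm]
  congr 1
  refine Finset.sum_congr rfl fun e _ => ?_
  rw [← Finset.sum_mul, ← Finset.mul_sum]
  congr 2
  have h5 := psA_sum M ψ (e.a : ZMod M) (e.b : ZMod M) (e.c : ZMod M) (e.d : ZMod M)
  rw [← Finset.add_sum_erase _ _ (Finset.mem_univ (1 : DirichletCharacter ℂ M))] at h5
  show ∑ χ ∈ (Finset.univ : Finset (DirichletCharacter ℂ M)).erase 1,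
    psA M ψ χ (e.a : ZMod M) (e.b : ZMod M) (e.c : ZMod M) (e.d : ZMod M) =
    ψ (e.a : ZMod M) (e.b : ZMod M) (e.c : ZMod M) (e.d : ZMod M) -
      psA M ψ 1 (e.a : ZMod M) (e.b : ZMod M) (e.c : ZMod M) (e.d : ZMod M)
  rw [← h5]
  ring

/-- PROOF. Copy of `pairB` (`Lib_MP_92ef0c_sp/PsiB.lean`) with `ctwTB`. -/
theorem pairTB (n M : ℕ) [NeZero M] (hn : 0 < n) (hnM : n.primeFactors ⊆ M.primeFactors) (E : Finset ℕ)
    (f1 f2 f3 f4 : ℝ → ℕ → ℂ) (ω2 ω3 : ℂ) (h1 : ∀ X m, ‖f1 X m‖ ≤ 1) (h2 : FT f2 E ω2) (h3 : FT f3 E ω3)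
    (h4 : ∀ X m, ‖f4 X m‖ ≤ 1) (hω2 : ‖ω2‖ = 1) (hω3 : ‖ω3‖ = 1) (ψ : ZMod M → ZMod M → ZMod M → ZMod M → ℂ)
    (hψ : ∀ x1 x2 x3 x4, ‖ψ x1 x2 x3 x4‖ ≤ 1) (b : ℝ) (W : ℝ → ℝ → ℝ → ℂ) (hW : TS b W)
    (h0 : ω2 * (starRingEnd ℂ) ω3 ≠ 1 ∨ ∀ y t, (∫ u, W y t u) = 0) :
    Tendsto (fun X : ℝ => (∑ e ∈ SN n (b * X), F4 (f1 X) (f2 X) (f3 X) (f4 X) e * cz M ψ e *
      W (yS e / X) (tS e) (uS e)) / X) atTop (nhds 0) := by
  classical
  set ω : ℂ := ω2 * (starRingEnd ℂ) ω3 with hωdef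
  have hω : ‖ω‖ = 1 := by rw [hωdef, norm_mul, RCLike.norm_conj, hω2, hω3, one_mul]
  have hω33 : (starRingEnd ℂ) ω3 * ω3 = 1 := by
    rw [mul_comm, Complex.mul_conj, Complex.normSq_eq_norm_sq, hω3]
    norm_num
  have key : ∀ χ : DirichletCharacter ℂ M,
      Tendsto (fun X : ℝ => (∑ e ∈ SN n (b * X), (F4 (f1 X) (f2 X) (f3 X) (f4 X) e *
        cz M (PsiBP.psB M ψ χ) e) * W (yS e / X) (tS e) (uS e)) / X) atTop (nhds 0) := by
    intro χ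
    refine ctwTB n hn (E ∪ M.primeFactors) (hnM.trans subset_union_right) (fun p => ω * χ ((p : ZMod M))) ?_
      (max 0 ω.re) (le_max_left _ _) (max_le zero_le_one ((Complex.re_le_norm ω).trans hω.le))
      (npS M χ ω hω (E ∪ M.primeFactors)).1
      (fun X e => F4 (f1 X) (f2 X) (f3 X) (f4 X) e * cz M (PsiBP.psB M ψ χ) e) ?_ b W hW ?_
    · exact pt3_g M E ω hω χ
    · intro T
      filter_upwards [h2.pr T, h3.pr T] with X hX2 hX3
      refine ⟨fun e => ?_, ?_⟩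
      · rw [norm_mul]
        exact mul_le_one₀ (norm_F4_le (h1 X) (h2.bd X) (h3.bd X) (h4 X) e) (norm_nonneg _)
          (PsiBP.psB_le M ψ hψ χ _ _ _ _)
      · intro p a b' c d hp hpT hpE _ _
        have hpM : ¬ p ∣ M := fun h => hpE (mem_union_right _ (Nat.mem_primeFactors.2 ⟨hp, h, NeZero.ne M⟩))
        have hpE' : p ∉ E := fun h => hpE (mem_union_left _ h)
        have hu : p.Coprime M := (Nat.Prime.coprime_iff_not_dvd hp).2 hpM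
        set w : (ZMod M)ˣ := ZMod.unitOfCoprime p hu with hw
        have hwp : (w : ZMod M) = (p : ZMod M) := ZMod.coe_unitOfCoprime p hu
        have e1 : cz M (PsiBP.psB M ψ χ) ⟨a, p * b', c, d⟩ =
            χ (p : ZMod M) * cz M (PsiBP.psB M ψ χ) ⟨a, b', p * c, d⟩ := by
          unfold cz
          simp only
          rw [Nat.cast_mul, Nat.cast_mul, ← hwp, ← PsiBP.psB_mul, Units.inv_mul_cancel_left]
        have e2 : F4 (f1 X) (f2 X) (f3 X) (f4 X) ⟨a, p * b', c, d⟩ =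
            ω * F4 (f1 X) (f2 X) (f3 X) (f4 X) ⟨a, b', p * c, d⟩ := by
          unfold F4
          simp only
          rw [h2.mul, h3.mul, hX2 p hpT hp hpE', hX3 p hpT hp hpE', hωdef]
          linear_combination (-(f1 X a * ω2 * f2 X b' * f3 X c * f4 X d)) * hω33
        rw [e1, e2]
        ring
    · rcases h0 with h0 | h0
      · exact Or.inl (max_lt one_pos (pt3_re_lt hω h0))
      · exact Or.inr h0
  have hsum := tendsto_finsetSum (univ : Finset (DirichletCharacter ℂ M)) (fun χ _ => key χ)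
  rw [sum_const_zero] at hsum
  refine hsum.congr fun X => ?_
  rw [← sum_div, sum_comm]
  congr 1
  refine sum_congr rfl fun e _ => ?_
  rw [← sum_mul, ← mul_sum]
  congr 2
  unfold cz
  exact PsiBP.psB_sum M ψ _ _ _ _

private theorem pt3_int_t {b : ℝ} {W : ℝ → ℝ → ℝ → ℂ} (hW : TS b W) (y u : ℝ) : Integrable (fun t => W y t u) := by
  obtain ⟨R, -, hR⟩ := hW.bdd
  have hc : Continuous (fun t => W y t u) :=
    hW.cont.comp (continuous_const.prodMk (continuous_id.prodMk continuous_const))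
  apply hc.integrable_of_hasCompactSupport
  apply HasCompactSupport.intro (isCompact_Icc (a := -R) (b := R))
  intro t ht
  by_contra hne
  exact ht (Set.mem_Icc.2 (abs_le.1 (hR y t u hne).2.1))

private theorem pt3_w1 {b : ℝ} {W : ℝ → ℝ → ℝ → ℂ} (hW : TS b W) (y u : ℝ) :
    (∫ t, (W y t u - ((ps0 t : ℝ) : ℂ) * ∫ t', W y t' u)) = 0 := by
  have h1 : Integrable (fun t => ((ps0 t : ℝ) : ℂ) * ∫ t', W y t' u) :=
    (limh_ps0_cont.integrable_of_hasCompactSupport limh_ps0_supp).ofReal.mul_const _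
  rw [integral_sub (pt3_int_t hW y u) h1, integral_mul_const, limh_ps0_intC, one_mul, sub_self]

private theorem pt3_w2 {b : ℝ} {W : ℝ → ℝ → ℝ → ℂ} (hW : TS b W) (h0 : ∀ y, (∫ t, ∫ u, W y t u) = 0) (y t : ℝ) :
    (∫ u, (((ps0 t : ℝ) : ℂ) * ∫ t', W y t' u)) = 0 := by
  rw [integral_const_mul, ← ts_swap hW y, h0 y, mul_zero]

/-- PROOF. As `tvf2` (`Lib_MP_92ef0c_sp/Tvf2.lean`) with `pairTA` and `pairTB`, for the families `X ↦ f_i (a X)` (`FT.dil`), `F4_R2`. -/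
theorem tvr_pf (E : Finset ℕ) (f1 f2 f3 f4 : ℝ → ℕ → ℂ) (ω1 ω2 ω3 ω4 : ℂ) (h1 : FT f1 E ω1) (h2 : FT f2 E ω2)
    (h3 : FT f3 E ω3) (h4 : FT f4 E ω4) (hω1 : ‖ω1‖ = 1) (hω2 : ‖ω2‖ = 1) (hω3 : ‖ω3‖ = 1) (hω4 : ‖ω4‖ = 1) :
    TVR (fun X => pf (f1 X) (f2 X)) (fun X => pf (f3 X) (f4 X)) := by
  intro a ha n M _ hn hnM ψ hψ b W hW h0
  have hW2 := ts_c1 hW
  have hW1 := hW.sub hW2
  have e1 := pairTA n M hn hnM E (fun X => f1 (a * X)) (fun X => f2 (a * X)) (fun X => f3 (a * X))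
    (fun X => f4 (a * X)) ω1 ω4 (h1.dil ha) (fun X => h2.bd (a * X)) (fun X => h3.bd (a * X)) (h4.dil ha)
    hω1 hω4 ψ hψ b _ hW1 (Or.inr fun y u => pt3_w1 hW y u)
  have e2 := pairTB n M hn hnM E (fun X => f1 (a * X)) (fun X => f2 (a * X)) (fun X => f3 (a * X))
    (fun X => f4 (a * X)) ω2 ω3 (fun X => h1.bd (a * X)) (h2.dil ha) (h3.dil ha) (fun X => h4.bd (a * X))
    hω2 hω3 ψ hψ b _ hW2 (Or.inr fun y t => pt3_w2 hW h0 y t)
  have e3 := e1.add e2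
  rw [add_zero] at e3
  refine e3.congr fun X => ?_
  rw [← add_div, ← sum_add_distrib]
  congr 1
  refine sum_congr rfl fun e _ => ?_
  rw [← F4_R2]
  ring

/-- PROOF. `pairTA1` for the families `X ↦ f_i (a X)` (`FT.dil`), `F4_R2`, `avA_eq`. -/
theorem chr_pf (E : Finset ℕ) (f1 f2 f3 f4 : ℝ → ℕ → ℂ) (ω1 ω2 ω3 ω4 : ℂ) (h1 : FT f1 E ω1) (h2 : FT f2 E ω2)
    (h3 : FT f3 E ω3) (h4 : FT f4 E ω4) (hω1 : ‖ω1‖ = 1) (hω4 : ‖ω4‖ = 1) :
    CHR (fun X => pf (f1 X) (f2 X)) (fun X => pf (f3 X) (f4 X)) := by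
  intro a ha n M _ hn hnM ψ hψ b W hW
  have e1 := pairTA1 n M hn hnM E (fun X => f1 (a * X)) (fun X => f2 (a * X)) (fun X => f3 (a * X))
    (fun X => f4 (a * X)) ω1 ω4 (h1.dil ha) (fun X => h2.bd (a * X)) (fun X => h3.bd (a * X)) (h4.dil ha)
    hω1 hω4 ψ hψ b W hW
  refine e1.congr fun X => ?_
  congr 1
  refine sum_congr rfl fun e _ => ?_
  rw [← F4_R2, avA_eq]

end Pool.Agent.SplL

end

/-! ### from `Lib_MP_92ef0c_la.RedB4` -/

section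

/-!
# From the weighted sums over determinants to the correlations
-/

set_option autoImplicit false

namespace Pool.Agent.SplL

open Finset Pool.Agent.Spl Pool.Agent.SplB Pool.Agent.GaussMR Pool.Agent.OmAll Pool.Agent.OmEq MeasureTheory Filter

open Classical in
/-- PROOF. Copy of `gramB3` (`Lib_MP_92ef0c_sp/GramB3.lean`): `CHR` with `n h0` in place of `n`, `M = n Q`, `ψ = psk n Q n0`, `cz_psk`, `psk_one` (with `avA_eq`); `R2 β (cjr β) e = 0` unless `a, b, c, d` are coprime to `Q` (`hz`). -/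
theorem gramB4 (h0 Q n0 : ℕ) (hQ : HQ h0 Q n0) (n : ℕ) (hn : 0 < n) (hQn : Q ∣ n) (β : ℝ → ℕ × ℕ → ℂ)
    (hC : CHR β (fun X => cjr (β X))) (hz : ∀ X z, ¬ (z.1.Coprime Q ∧ z.2.Coprime Q) → β X z = 0)
    (a : ℝ) (ha : 0 < a) (b : ℝ) (W : ℝ → ℝ → ℝ → ℂ) (hW : TS b W) :
    Tendsto (fun X : ℝ => (∑ e ∈ (SN (n * h0) (b * X)).filter (kap3 n Q n0), R2 (β (a * X)) (cjr (β (a * X))) e *
      W (yS e / X) (tS e) (uS e) - ((1 / (Q * n.totient) : ℝ) : ℂ) * Qs4 (β (a * X)) (n * h0) (b * X) W X) / X)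
      atTop (nhds 0) := by
  haveI : NeZero (n * Q) := ⟨(Nat.mul_pos hn hQ.posQ).ne'⟩
  have hsub : (n * h0).primeFactors ⊆ (n * Q).primeFactors :=
    Nat.primeFactors_mono (Nat.mul_dvd_mul_left n hQ.dvd) (Nat.mul_pos hn hQ.posQ).ne'
  have h1 := hC a ha (n * h0) (n * Q) (Nat.mul_pos hn hQ.pos) hsub (psk n Q n0) (psk_le n Q n0) b W hW
  rw [avA_eq] at h1
  refine h1.congr fun X => ?_
  congr 1
  unfold Qs4
  rw [sum_filter, mul_sum, ← sum_sub_distrib]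
  refine sum_congr rfl fun e he => ?_
  have hS := (mem_SN.1 he).1
  beta_reduce
  rw [cz_psk n Q n0 hn hQ.posQ e]
  by_cases hc : (e.b * e.c).Coprime Q
  · rw [psk_one n Q n0 h0 hn hQ.posQ hQn e hS hc]
    split_ifs <;> ring
  · have hF : R2 (β (a * X)) (cjr (β (a * X))) e = 0 := by
      have h2 : ¬ (e.b.Coprime Q ∧ e.c.Coprime Q) := fun h => hc (Nat.Coprime.mul_left h.1 h.2)
      unfold R2
      by_cases hb : e.b.Coprime Q
      · have hc' : ¬ e.c.Coprime Q := fun h => h2 ⟨hb, h⟩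
        have h3 : cjr (β (a * X)) (e.c, e.d) = 0 := by
          unfold cjr
          rw [hz _ _ (fun h => hc' h.1), map_zero]
        rw [h3, mul_zero]
      · rw [hz _ _ (fun h => hb h.2), zero_mul]
    rw [hF]
    simp

/-- linearity and the change of scale -/
theorem redb4_scale (f : ℕ × ℕ → ℂ) (h : ℝ → ℝ) (h1 h2 : ℝ) (hh : HF h h1 h2) (n : ℕ) (a b X : ℝ) (J : ℕ)
    (hJ : 1 ≤ J) (hX : 0 < X) (hb : (J : ℝ) ^ 2 * h2 ≤ b) :
    Qs4 f n (b * X) (fun y t u => ((a * h (y / (J : ℝ) ^ 2) ^ 2 : ℝ) : ℂ) * ((ps0 t * ps0 u : ℝ) : ℂ)) X =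
      (a : ℂ) * Qs4 f n (h2 * ((J : ℝ) ^ 2 * X)) (Wh (fun y => h y ^ 2)) ((J : ℝ) ^ 2 * X) := by
  classical
  have hJ0 : (0 : ℝ) < (J : ℝ) ^ 2 := by
    have : (0 : ℝ) < J := by exact_mod_cast hJ
    positivity
  unfold Qs4
  rw [Finset.mul_sum]
  symm
  have hsub : SN n (h2 * ((J : ℝ) ^ 2 * X)) ⊆ SN n (b * X) := by
    intro e he
    have he3 := mem_SN.1 he
    refine mem_SN.2 ⟨he3.1, he3.2.trans ?_⟩
    nlinarith
  have key : ∀ e : Q4, h (yS e / ((J : ℝ) ^ 2 * X)) = h (yS e / X / (J : ℝ) ^ 2) := by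
    intro e
    rw [div_div, mul_comm X]
  rw [← Finset.sum_subset hsub]
  · refine Finset.sum_congr rfl (fun e _ => ?_)
    unfold Wh
    beta_reduce
    rw [key]
    push_cast
    ring
  · intro e he hne
    have he3 := mem_SN.1 he
    have h4 : h2 * ((J : ℝ) ^ 2 * X) < yS e := by
      by_contra hcon
      push Not at hcon
      exact hne (mem_SN.2 ⟨he3.1, hcon⟩)
    have h5 : h (yS e / X / (J : ℝ) ^ 2) = 0 := by
      rw [← key]
      apply hh.hi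
      rw [le_div_iff₀ (by positivity)]
      exact h4.le
    beta_reduce
    rw [h5]
    push_cast
    ring

/-- comparison of two weights -/
theorem redb4_cmp (f : ℕ × ℕ → ℂ) (hf : ∀ n, ‖f n‖ ≤ 1) (C : ℝ)
    (hC : ∀ n : ℕ, 0 < n → ∀ x : ℝ, (n : ℝ) ≤ x →
      (((SN n x).filter (fun e => |tS e| ≤ 1 ∧ |uS e| ≤ 1)).card : ℝ) ≤ C * x)
    (n : ℕ) (hn : 0 < n) (c d : ℝ → ℂ) (κ : ℝ) (hκ : 0 ≤ κ) (hcd : ∀ y, ‖c y - d y‖ ≤ κ) (x X : ℝ) (hx : (n : ℝ) ≤ x) :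
    ‖Qs4 f n x (fun y t u => c y * ((ps0 t * ps0 u : ℝ) : ℂ)) X - Qs4 f n x (fun y t u => d y * ((ps0 t * ps0 u : ℝ) : ℂ)) X‖ ≤
      κ * (C * x) := by
  refine le_trans ?_ (mul_le_mul_of_nonneg_left (hC n hn x hx) hκ)
  unfold Qs4
  rw [← Finset.sum_sub_distrib]
  calc ‖∑ e ∈ SN n x, (R2 f (cjr f) e * (c (yS e / X) * ((ps0 (tS e) * ps0 (uS e) : ℝ) : ℂ)) -
        R2 f (cjr f) e * (d (yS e / X) * ((ps0 (tS e) * ps0 (uS e) : ℝ) : ℂ)))‖
      ≤ ∑ e ∈ SN n x, (if |tS e| ≤ 1 ∧ |uS e| ≤ 1 then κ else 0) := by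
        refine norm_sum_le_of_le _ (fun e _ => ?_)
        have e1 : R2 f (cjr f) e * (c (yS e / X) * ((ps0 (tS e) * ps0 (uS e) : ℝ) : ℂ)) -
            R2 f (cjr f) e * (d (yS e / X) * ((ps0 (tS e) * ps0 (uS e) : ℝ) : ℂ)) =
            R2 f (cjr f) e * ((c (yS e / X) - d (yS e / X)) * ((ps0 (tS e) * ps0 (uS e) : ℝ) : ℂ)) := by
          ring
        have a0 := redb_ps0_nonneg (tS e)
        have a0' := redb_ps0_nonneg (uS e)
        rw [e1, norm_mul, norm_mul, Complex.norm_real, Real.norm_eq_abs, abs_of_nonneg (mul_nonneg a0 a0')]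
        have hcj : ∀ m, ‖cjr f m‖ ≤ 1 := fun m => by
          rw [norm_cjr]
          exact hf m
        have a5 := norm_R2_le hf hcj e
        have a7 : ps0 (tS e) * ps0 (uS e) ≤ 1 := mul_le_one₀ (redb_ps0_le _) a0' (redb_ps0_le _)
        have a8 := hcd (yS e / X)
        by_cases ht : |tS e| ≤ 1 ∧ |uS e| ≤ 1
        · rw [if_pos ht]
          calc ‖R2 f (cjr f) e‖ * (‖c (yS e / X) - d (yS e / X)‖ * (ps0 (tS e) * ps0 (uS e))) ≤ 1 * (κ * 1) := by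
                gcongr
            _ = κ := by ring
        · rw [if_neg ht]
          have h0 : ps0 (tS e) * ps0 (uS e) = 0 := by
            by_cases h1 : |tS e| ≤ 1
            · have h2 : ¬ |uS e| ≤ 1 := fun h => ht ⟨h1, h⟩
              push Not at h2
              rw [redb_ps0_zero (uS e) h2.le, mul_zero]
            · push Not at h1
              rw [redb_ps0_zero (tS e) h1.le, zero_mul]
          rw [h0, mul_zero, mul_zero]
    _ = κ * (((SN n x).filter (fun e => |tS e| ≤ 1 ∧ |uS e| ≤ 1)).card : ℝ) := by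
        rw [← Finset.sum_filter, Finset.sum_const, nsmul_eq_mul, mul_comm]

/-- one determinant: the limit statement -/
theorem redb4_one (h0 Q n0 : ℕ) (hQ : HQ h0 Q n0) (β : ℝ → ℕ × ℕ → ℂ) (hβ : ∀ X z, ‖β X z‖ ≤ 1)
    (hC : CHR β (fun X => cjr (β X))) (hT : TVR β (fun X => cjr (β X)))
    (hz : ∀ X z, ¬ (z.1.Coprime Q ∧ z.2.Coprime Q) → β X z = 0) (a : ℝ) (ha : 0 < a) (h' : ℝ → ℝ) (h1 h2 : ℝ)
    (hh : HF h' h1 h2) (J N n : ℕ) (hJ : 1 ≤ J) (hN : 1 ≤ N) (hn : 1 ≤ n) (hQn : Q ∣ n) (b : ℝ)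
    (hb : ((J : ℝ) + N) ^ 2 * h2 ≤ b) (hb0 : 0 < b) :
    Tendsto (fun X : ℝ => (Gm4 h0 Q n0 (β (a * X)) h' J N n (b * X) X - ((1 / (Q * n.totient) : ℝ) : ℂ) *
      Qs4 (β (a * X)) (n * h0) (b * X)
        (fun y t u => (∫ t', ∫ u', WN3 h' J N n y t' u') * ((ps0 t * ps0 u : ℝ) : ℂ)) X) / X)
      atTop (nhds 0) := by
  have hTS := WN3_ts h' h1 h2 hh J N n hJ hN hn b hb
  have hR : ∀ X e, ‖R2 (β (a * X)) (cjr (β (a * X))) e‖ ≤ 1 := fun X e =>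
    norm_R2_le (hβ _) (fun z => by rw [norm_cjr]; exact hβ _ z) e
  have e1 := apxN4 h0 Q n0 hQ.pos (fun X => R2 (β (a * X)) (cjr (β (a * X)))) hR h' h1 h2 hh J N n hJ hN hn b hb0
  have e2 := gramB4 h0 Q n0 hQ n hn hQn β hC hz a ha b (WN3 h' J N n) hTS
  haveI : NeZero (n * h0) := ⟨(Nat.mul_pos hn hQ.pos).ne'⟩
  have e3' := hT a ha (n * h0) (n * h0) (Nat.mul_pos hn hQ.pos) (Finset.Subset.refl _) (fun _ _ _ _ => 1)
    (fun _ _ _ _ => by simp) b _ (hTS.sub (ts_c2 hTS).2) (z4_zero hTS)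
  have e3 := e3'.const_mul ((1 / (Q * n.totient) : ℝ) : ℂ)
  rw [mul_zero] at e3
  have e4 := (e1.add e2).add e3
  rw [add_zero, add_zero] at e4
  refine e4.congr (fun X => ?_)
  have e5 : ∑ e ∈ SN (n * h0) (b * X), R2 (β (a * X)) (cjr (β (a * X))) e *
        cz (n * h0) (fun _ _ _ _ => 1) e *
        (WN3 h' J N n (yS e / X) (tS e) (uS e) -
          (∫ t', ∫ u', WN3 h' J N n (yS e / X) t' u') * ((ps0 (tS e) * ps0 (uS e) : ℝ) : ℂ)) =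
      Qs4 (β (a * X)) (n * h0) (b * X) (WN3 h' J N n) X -
        Qs4 (β (a * X)) (n * h0) (b * X)
          (fun y t u => (∫ t', ∫ u', WN3 h' J N n y t' u') * ((ps0 t * ps0 u : ℝ) : ℂ)) X := by
    unfold Qs4
    rw [← Finset.sum_sub_distrib]
    refine Finset.sum_congr rfl (fun e _ => ?_)
    unfold cz
    ring
  beta_reduce
  rw [e5]
  unfold Gm4
  ring

theorem redb4_gm_zero (h0 Q n0 : ℕ) (f : ℕ × ℕ → ℂ) (h : ℝ → ℝ) (J N n : ℕ) (x X : ℝ) (hn : ¬ Q ∣ n) :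
    Gm4 h0 Q n0 f h J N n x X = 0 := by
  classical
  unfold Gm4
  apply Finset.sum_eq_zero
  intro e he
  exact absurd (mem_filter.1 he).2.1 hn

/-- PROOF. Copy of `redB3` (`Lib_MP_92ef0c_sp/RedB3.lean`; `redb3_int1`, .., `redb3_zero` can be imported, `redb3_scale`, `redb3_cmp`, `redb3_one`, `redb3_gm_zero` have to be copied with `Qs4`, `Gm4`). The family is taken at `a X`; with `Y = J^2 X` it is `a' Y` with `a' = a / J^2` (`QSmall4` holds for all `a' > 0` with the same `N0`).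
`apxN4` with `Φ X = R2 (β (a X)) (cjr (β (a X)))`, `gramB4`, `TVR` with `M = n h0`, `ψ = 1`. -/
theorem redB4 (h0 Q n0 : ℕ) (hQ : HQ h0 Q n0) (β : ℝ → ℕ × ℕ → ℂ) (hβ : ∀ X z, ‖β X z‖ ≤ 1)
    (hC : CHR β (fun X => cjr (β X))) (hT : TVR β (fun X => cjr (β X)))
    (hz : ∀ X z, ¬ (z.1.Coprime Q ∧ z.2.Coprime Q) → β X z = 0) (hq : QSmall4 h0 Q β) :
    GmSmall4 h0 Q n0 β := by
  classical
  intro h' h1 h2 hh ε hε
  have h2one : (1 : ℝ) ≤ h2 := hh.one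
  have h2pos : 0 < h2 := by linarith
  have hh0 : (0 : ℝ) ≤ h0 := Nat.cast_nonneg _
  obtain ⟨C, hCp, hcnt⟩ := cnt3 1
  obtain ⟨N0, hN0⟩ := hq h' h1 h2 hh (ε / 4) (by positivity)
  refine ⟨max N0 1, fun N hN => ?_⟩
  have hN1 : 1 ≤ N := le_trans (le_max_right _ _) hN
  have hNN0 : N0 ≤ N := le_trans (le_max_left _ _) hN
  have hNr : (1 : ℝ) ≤ N := by exact_mod_cast hN1
  have hNpos : (0 : ℝ) < N := by linarith
  set η : ℝ := ε / (40 * C * h2 * (h0 + 1) * N) with hη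
  have hηpos : 0 < η := by positivity
  obtain ⟨J0, hJ01, hcn⟩ := cnB h' h1 h2 hh N hN1 η hηpos
  refine ⟨max J0 N, fun J hJ a ha => ?_⟩
  have hJ0 : J0 ≤ J := le_trans (le_max_left _ _) hJ
  have hJN : N ≤ J := le_trans (le_max_right _ _) hJ
  have hJ1 : 1 ≤ J := le_trans hN1 hJN
  have hJNr : (N : ℝ) ≤ J := by exact_mod_cast hJN
  have hJr : (1 : ℝ) ≤ J := by linarith
  have hJpos : (0 : ℝ) < J := by linarith
  have hQ1 : (1 : ℝ) ≤ Q := by exact_mod_cast hQ.posQ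
  set b : ℝ := ((J : ℝ) + N) ^ 2 * (h0 + 1) * h2 with hb
  have hbpos : 0 < b := by positivity
  have hb1 : ((J : ℝ) + N) ^ 2 * h2 ≤ b := by
    have e1 : 0 ≤ ((J : ℝ) + N) ^ 2 * h2 := by positivity
    have e2 : b = ((J : ℝ) + N) ^ 2 * h2 + ((J : ℝ) + N) ^ 2 * h2 * h0 := by
      rw [hb]
      ring
    rw [e2]
    have e3 : 0 ≤ ((J : ℝ) + N) ^ 2 * h2 * h0 := mul_nonneg e1 hh0
    linarith
  have hb4 : b ≤ 4 * (J : ℝ) ^ 2 * (h0 + 1) * h2 := by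
    have e1 : ((J : ℝ) + N) ^ 2 ≤ 4 * (J : ℝ) ^ 2 := by nlinarith
    rw [hb]
    gcongr
  have hbJ : (J : ℝ) ^ 2 * h2 ≤ b := by
    have e1 : (J : ℝ) ^ 2 ≤ ((J : ℝ) + N) ^ 2 := by nlinarith
    exact (mul_le_mul_of_nonneg_right e1 h2pos.le).trans hb1
  have hbh : (h0 : ℝ) + 1 ≤ b := by
    have e1 : (1 : ℝ) ≤ ((J : ℝ) + N) ^ 2 * h2 := by
      have e2 : (1 : ℝ) ≤ ((J : ℝ) + N) ^ 2 := one_le_pow₀ (by linarith)
      nlinarith
    have e3 : ((h0 : ℝ) + 1) * 1 ≤ (h0 + 1) * (((J : ℝ) + N) ^ 2 * h2) :=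
      mul_le_mul_of_nonneg_left e1 (by positivity)
    rw [hb]
    linarith
  set S : Finset ℕ := (Icc 1 N).filter (fun n => Q ∣ n) with hS
  -- the limit part
  have hlim : Tendsto (fun X : ℝ => ∑ n ∈ S, (Gm4 h0 Q n0 (β (a * X)) h' J N n (b * X) X -
      ((1 / (Q * n.totient) : ℝ) : ℂ) *
      Qs4 (β (a * X)) (n * h0) (b * X) (fun y t u => (∫ t', ∫ u', WN3 h' J N n y t' u') * ((ps0 t * ps0 u : ℝ) : ℂ)) X) / X)
      atTop (nhds 0) := by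
    have := tendsto_finsetSum S (fun n hn => redb4_one h0 Q n0 hQ β hβ hC hT hz a ha h' h1 h2 hh J N n hJ1 hN1
      (mem_Icc.mp (mem_filter.1 hn).1).1 (mem_filter.1 hn).2 b hb1 hbpos)
    rw [Finset.sum_const_zero] at this
    exact this
  have hev := (Metric.tendsto_nhds.mp hlim) (ε / 4) (by positivity)
  have hQev := (tendsto_id.const_mul_atTop (r := (J : ℝ) ^ 2) (by positivity)).eventually
    (hN0 N hNN0 (a / (J : ℝ) ^ 2) (by positivity))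
  filter_upwards [hev, hQev, eventually_gt_atTop (0 : ℝ), eventually_ge_atTop (N : ℝ)] with X hX hXQ hX0 hXN
  rw [dist_zero_right, ← Finset.sum_div, norm_div, Complex.norm_real, Real.norm_eq_abs, abs_of_pos hX0,
    div_lt_iff₀ hX0] at hX
  simp only [id] at hXQ
  have haX : a / (J : ℝ) ^ 2 * ((J : ℝ) ^ 2 * X) = a * X := by
    field_simp
  rw [haX] at hXQ
  set Y : ℝ := (J : ℝ) ^ 2 * X with hY
  -- notation
  set q : ℕ → ℂ := fun n => Qs4 (β (a * X)) (n * h0) (h2 * Y) (Wh (fun y => h' y ^ 2)) Y with hqd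
  set c : ℕ → ℂ := fun n => Qs4 (β (a * X)) (n * h0) (b * X) (fun y t u => (∫ t', ∫ u', WN3 h' J N n y t' u') *
    ((ps0 t * ps0 u : ℝ) : ℂ)) X with hc
  set d : ℕ → ℂ := fun n => Qs4 (β (a * X)) (n * h0) (b * X) (fun y t u =>
    (((4 / 3 * n * N / (J : ℝ) ^ 2 * ww ((n : ℝ) / N)) * h' (y / (J : ℝ) ^ 2) ^ 2 : ℝ) : ℂ) *
      ((ps0 t * ps0 u : ℝ) : ℂ)) X with hd
  have hdq : ∀ n ∈ S, d n = ((4 / 3 * n * N / (J : ℝ) ^ 2 * ww ((n : ℝ) / N) : ℝ) : ℂ) * q n := by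
    intro n hn
    exact redb4_scale (β (a * X)) h' h1 h2 hh (n * h0) (4 / 3 * n * N / (J : ℝ) ^ 2 * ww ((n : ℝ) / N)) b X J hJ1 hX0 hbJ
  have hcd : ∀ n ∈ S, ‖c n - d n‖ ≤ 4 * η * n * N * C * (h0 + 1) * h2 * X := by
    intro n hn
    obtain ⟨hn1, hn2⟩ := mem_Icc.mp (mem_filter.1 hn).1
    have hnr : (1 : ℝ) ≤ n := by exact_mod_cast hn1
    have hnN : (n : ℝ) ≤ N := by exact_mod_cast hn2
    have hbX : ((n * h0 : ℕ) : ℝ) ≤ b * X := by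
      push_cast
      calc (n : ℝ) * h0 ≤ N * (h0 + 1) := by
            have : (n : ℝ) * h0 ≤ N * h0 := mul_le_mul_of_nonneg_right hnN hh0
            linarith
        _ ≤ X * b := mul_le_mul hXN hbh (by positivity) hX0.le
        _ = b * X := mul_comm _ _
    have hw : ∀ y : ℝ, ‖(∫ t', ∫ u', WN3 h' J N n y t' u') -
        (((4 / 3 * n * N / (J : ℝ) ^ 2 * ww ((n : ℝ) / N)) * h' (y / (J : ℝ) ^ 2) ^ 2 : ℝ) : ℂ)‖ ≤
        η * (n * N / (J : ℝ) ^ 2) := by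
      intro y
      have e1 := hcn J hJ0 n hn1 hn2 y
      rw [WN3_int h' h1 h2 hh J N n hJ1 hN1 hn1 y]
      have e2 : (2 / 3 : ℂ) * (∫ s, WN h' J N n y s) -
          (((4 / 3 * n * N / (J : ℝ) ^ 2 * ww ((n : ℝ) / N)) * h' (y / (J : ℝ) ^ 2) ^ 2 : ℝ) : ℂ) =
          (2 / 3 : ℂ) * ((∫ s, WN h' J N n y s) -
            ((2 * n * N / (J : ℝ) ^ 2 * h' (y / (J : ℝ) ^ 2) ^ 2 * ww ((n : ℝ) / N) : ℝ) : ℂ)) := by
        push_cast
        ring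
      rw [e2, norm_mul]
      have e3 : ‖(2 / 3 : ℂ)‖ ≤ 1 := by
        have : (2 / 3 : ℂ) = ((2 / 3 : ℝ) : ℂ) := by push_cast; rfl
        rw [this, Complex.norm_real, Real.norm_eq_abs, abs_of_nonneg (by norm_num)]
        norm_num
      calc ‖(2 / 3 : ℂ)‖ * _ ≤ 1 * (η * (n * N / (J : ℝ) ^ 2)) :=
            mul_le_mul e3 e1 (norm_nonneg _) zero_le_one
        _ = _ := one_mul _
    have e1 := redb4_cmp (β (a * X)) (hβ _) C hcnt (n * h0) (Nat.mul_pos hn1 hQ.pos)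
      (fun y => ∫ t', ∫ u', WN3 h' J N n y t' u')
      (fun y => (((4 / 3 * n * N / (J : ℝ) ^ 2 * ww ((n : ℝ) / N)) * h' (y / (J : ℝ) ^ 2) ^ 2 : ℝ) : ℂ))
      (η * (n * N / (J : ℝ) ^ 2)) (by positivity) hw (b * X) X hbX
    refine e1.trans ?_
    calc η * (n * N / (J : ℝ) ^ 2) * (C * (b * X)) ≤
        η * (n * N / (J : ℝ) ^ 2) * (C * ((4 * (J : ℝ) ^ 2 * (h0 + 1) * h2) * X)) := by
          gcongr
      _ = 4 * η * n * N * C * (h0 + 1) * h2 * X := by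
          field_simp
  -- the decomposition
  have hfil : ∑ n ∈ Icc 1 N, Gm4 h0 Q n0 (β (a * X)) h' J N n (b * X) X =
      ∑ n ∈ S, Gm4 h0 Q n0 (β (a * X)) h' J N n (b * X) X := by
    rw [hS, Finset.sum_filter]
    refine Finset.sum_congr rfl (fun n _ => ?_)
    split_ifs with hn
    · rfl
    · exact redb4_gm_zero h0 Q n0 (β (a * X)) h' J N n (b * X) X hn
  have hdec : ∑ n ∈ S, Gm4 h0 Q n0 (β (a * X)) h' J N n (b * X) X =
      ∑ n ∈ S, (Gm4 h0 Q n0 (β (a * X)) h' J N n (b * X) X - ((1 / (Q * n.totient) : ℝ) : ℂ) * c n) +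
      ∑ n ∈ S, ((1 / (Q * n.totient) : ℝ) : ℂ) * (c n - d n) +
      ((4 / 3 * N / (Q * (J : ℝ) ^ 2) : ℝ) : ℂ) *
        ∑ n ∈ S, (((n / n.totient) * ww ((n : ℝ) / N) : ℝ) : ℂ) * q n := by
    rw [Finset.mul_sum, ← Finset.sum_add_distrib, ← Finset.sum_add_distrib]
    refine Finset.sum_congr rfl (fun n hn => ?_)
    rw [hdq n hn]
    push_cast
    ring
  have hp1 : ‖∑ n ∈ S, (Gm4 h0 Q n0 (β (a * X)) h' J N n (b * X) X - ((1 / (Q * n.totient) : ℝ) : ℂ) * c n)‖ ≤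
      ε / 4 * N ^ 2 * X := by
    refine hX.le.trans ?_
    have : (1 : ℝ) ≤ (N : ℝ) ^ 2 := one_le_pow₀ hNr
    have h3 : ε / 4 * X * 1 ≤ ε / 4 * X * (N : ℝ) ^ 2 := mul_le_mul_of_nonneg_left this (by positivity)
    linarith
  have hp2 : ‖∑ n ∈ S, ((1 / (Q * n.totient) : ℝ) : ℂ) * (c n - d n)‖ ≤ ε / 10 * N ^ 2 * X := by
    calc ‖∑ n ∈ S, ((1 / (Q * n.totient) : ℝ) : ℂ) * (c n - d n)‖
        ≤ ∑ n ∈ S, (1 * (4 * η * N * N * C * (h0 + 1) * h2 * X)) := by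
          refine norm_sum_le_of_le _ (fun n hn => ?_)
          obtain ⟨hn1, hn2⟩ := mem_Icc.mp (mem_filter.1 hn).1
          have hnN : (n : ℝ) ≤ N := by exact_mod_cast hn2
          have hφ : (1 : ℝ) ≤ n.totient := by exact_mod_cast Nat.totient_pos.mpr hn1
          have k0 : (1 : ℝ) ≤ Q * n.totient := by nlinarith
          have k2 : 1 / ((Q : ℝ) * n.totient) ≤ 1 := by
            rw [div_le_iff₀ (by linarith)]
            linarith
          rw [norm_mul, Complex.norm_real, Real.norm_eq_abs, abs_of_nonneg (by positivity)]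
          refine mul_le_mul k2 ((hcd n hn).trans ?_) (norm_nonneg _) (by norm_num)
          gcongr
      _ = S.card * (4 * η * N * N * C * (h0 + 1) * h2 * X) := by
          rw [Finset.sum_const, nsmul_eq_mul, one_mul]
      _ ≤ N * (4 * η * N * N * C * (h0 + 1) * h2 * X) := by
          have hcard : S.card ≤ N := by
            calc S.card ≤ (Icc 1 N).card := Finset.card_filter_le _ _
              _ = N := by rw [Nat.card_Icc, Nat.add_sub_cancel]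
          have hcard' : (S.card : ℝ) ≤ N := by exact_mod_cast hcard
          exact mul_le_mul_of_nonneg_right hcard' (by positivity)
      _ = ε / 10 * N ^ 2 * X := by
          rw [hη]
          field_simp
          ring
  have hp3 : ‖((4 / 3 * N / (Q * (J : ℝ) ^ 2) : ℝ) : ℂ) *
        ∑ n ∈ S, (((n / n.totient) * ww ((n : ℝ) / N) : ℝ) : ℂ) * q n‖ ≤ ε / 3 * N ^ 2 * X := by
    rw [norm_mul, Complex.norm_real, Real.norm_eq_abs, abs_of_nonneg (by positivity)]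
    calc (4 / 3 * N / (Q * (J : ℝ) ^ 2)) * ‖∑ n ∈ S, (((n / n.totient) * ww ((n : ℝ) / N) : ℝ) : ℂ) * q n‖
        ≤ (4 / 3 * N / (1 * (J : ℝ) ^ 2)) * (ε / 4 * N * Y) := by
          refine mul_le_mul ?_ hXQ (norm_nonneg _) (by positivity)
          gcongr
      _ = ε / 3 * N ^ 2 * X := by
          rw [hY]
          field_simp
  rw [hfil, hdec]
  refine (norm_add_le _ _).trans ?_
  have := norm_add_le (∑ n ∈ S, (Gm4 h0 Q n0 (β (a * X)) h' J N n (b * X) X - ((1 / (Q * n.totient) : ℝ) : ℂ) * c n))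
    (∑ n ∈ S, ((1 / (Q * n.totient) : ℝ) : ℂ) * (c n - d n))
  have hpos : 0 ≤ ε * N ^ 2 * X := by positivity
  linarith

end Pool.Agent.SplL

end
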