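import Pool.Agent.Lib_MP_92ef0c_m.M39
import Pool.Agent.Lib_MP_92ef0c_m.M44
import Pool.Agent.Lib_MP_92ef0c_m.M48
import Pool.Agent.Lib_MP_92ef0c_m.M52
import Pool.Agent.Lib_MP_92ef0c_m.M54
import Pool.Agent.Lib_MP_92ef0c_m.M55

/-!
# MP_92ef0c_nt, split pairs: merged library part M56

Concatenation of smaller files (each in its own section), only to save build time.
-/

/-! ### from `Lib_MP_92ef0c_la.Repl4` -/

section

/-!
# The replacement of both rows by the mean values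
-/

set_option autoImplicit false

namespace Pool.Agent.SplL

open Finset Pool.Agent.Spl Pool.Agent.SplB Pool.Agent.GaussMR Pool.Agent.OmAll Pool.Agent.OmEq MeasureTheory Filter

/-! ### The indicator of the numbers coprime to `Q` -/

theorem fs_f00 (Q : ℕ) : FS Q 1 (fun _ => f00 Q) := by
  refine ⟨fun _ m n => ?_, fun _ n => ?_, fun _ => ?_, fun _ p hp hd => ?_, ⟨1, one_pos, fun _ _ p hp hd _ => ?_⟩⟩
  · by_cases hm : m = 0
    · simp [f00, hm]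
    by_cases hn : n = 0
    · simp [f00, hn]
    by_cases h1 : m.Coprime Q
    · by_cases h2 : n.Coprime Q
      · rw [f00_coprime (mul_ne_zero hm hn) (Nat.Coprime.mul_left h1 h2), f00_coprime hm h1, f00_coprime hn h2, one_mul]
      · rw [f00_not (n := m * n) (fun h => h2 (Nat.Coprime.coprime_mul_left h)), f00_not h2, mul_zero]
    · rw [f00_not (n := m * n) (fun h => h1 (Nat.Coprime.coprime_mul_right h)), f00_not h1, zero_mul]
  · show ‖f00 Q n‖ ≤ 1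
    unfold f00
    split_ifs <;> simp
  · show f00 Q 1 = 1
    exact f00_coprime one_ne_zero (Nat.coprime_one_left Q)
  · refine f00_not fun h => ?_
    exact (Nat.Prime.coprime_iff_not_dvd hp).1 h hd
  · exact f00_coprime hp.ne_zero ((Nat.Prime.coprime_iff_not_dvd hp).2 hd)

theorem cj_f00 (Q : ℕ) : cj (f00 Q) = f00 Q := by
  funext n
  unfold cj f00
  split_ifs <;> simp

/-- zero off the numbers coprime to `Q` -/
theorem fs_zero {Q : ℕ} {z : ℂ} {f : ℝ → ℕ → ℂ} (hf : FS Q z f) (Y : ℝ) {n : ℕ} (h : ¬ n.Coprime Q) : f Y n = 0 := by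
  obtain ⟨p, hp, h1, h2⟩ := Nat.Prime.not_coprime_iff_dvd.1 h
  obtain ⟨k, rfl⟩ := h1
  rw [hf.mul, hf.zr Y p hp h2, zero_mul]

/-! ### The centred product -/

/-- the centred product of two families, divided by two -/
noncomputable def bet (Q : ℕ) (f g : ℝ → ℕ → ℂ) (X : ℝ) (z : ℕ × ℕ) : ℂ :=
  (1 / 2 : ℂ) * pf (f X) (g X) z + (-(mf Q f X * mf Q g X) / 2) * pf (f00 Q) (f00 Q) z

section

variable {q Q : ℕ} {z1 z2 z3 z4 : ℂ} {f1 f2 f g : ℝ → ℕ → ℂ}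

theorem norm_pf_le {f g : ℕ → ℂ} (hf : ∀ n, ‖f n‖ ≤ 1) (hg : ∀ n, ‖g n‖ ≤ 1) (z : ℕ × ℕ) : ‖pf f g z‖ ≤ 1 := by
  unfold pf
  rw [norm_mul]
  exact mul_le_one₀ (hf _) (norm_nonneg _) (hg _)

theorem bet_mu (hf : FS Q z3 f) (hg : FS Q z4 g) (X : ℝ) : ‖-(mf Q f X * mf Q g X) / 2‖ ≤ 1 / 2 := by
  rw [norm_div, norm_neg, norm_mul]
  have h1 := mul_le_one₀ (mf_le_one hf X) (norm_nonneg _) (mf_le_one hg X)
  have h2 : ‖(2 : ℂ)‖ = 2 := by simp
  rw [h2]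
  linarith

theorem bet_le (hf : FS Q z3 f) (hg : FS Q z4 g) (X : ℝ) (z : ℕ × ℕ) : ‖bet Q f g X z‖ ≤ 1 := by
  unfold bet
  refine (norm_add_le _ _).trans ?_
  rw [norm_mul, norm_mul]
  have h1 := norm_pf_le (hf.bd X) (hg.bd X) z
  have h2 := norm_pf_le ((fs_f00 Q).bd X) ((fs_f00 Q).bd X) z
  have h3 := bet_mu hf hg X
  have h4 : ‖(1 / 2 : ℂ)‖ = 1 / 2 := by simp
  rw [h4]
  have h5 : ‖-(mf Q f X * mf Q g X) / 2‖ * ‖pf (f00 Q) (f00 Q) z‖ ≤ 1 / 2 * 1 :=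
    mul_le_mul h3 h2 (norm_nonneg _) (by norm_num)
  linarith

theorem bet_zero (hf : FS Q z3 f) (hg : FS Q z4 g) (X : ℝ) (z : ℕ × ℕ) (h : ¬ (z.1.Coprime Q ∧ z.2.Coprime Q)) :
    bet Q f g X z = 0 := by
  have key : ∀ {w w' : ℂ} {u v : ℝ → ℕ → ℂ}, FS Q w u → FS Q w' v → pf (u X) (v X) z = 0 := by
    intro w w' u v hu hv
    unfold pf
    by_cases h1 : z.1.Coprime Q
    · rw [fs_zero hv X (fun h2 => h ⟨h1, h2⟩), mul_zero]
    · rw [fs_zero hu X h1, zero_mul]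
  unfold bet
  rw [key hf hg, key (fs_f00 Q) (fs_f00 Q), mul_zero, mul_zero, add_zero]

theorem cjr_bet (X : ℝ) : cjr (bet Q f g X) = fun z => (1 / 2 : ℂ) * pf (cj (f X)) (cj (g X)) z +
    (starRingEnd ℂ) (-(mf Q f X * mf Q g X) / 2) * pf (f00 Q) (f00 Q) z := by
  funext z
  unfold cjr bet
  rw [map_add, map_mul, map_mul]
  have h1 : (starRingEnd ℂ) (pf (f X) (g X) z) = pf (cj (f X)) (cj (g X)) z := congrFun (cjr_pf (f X) (g X)) z
  have h2 : (starRingEnd ℂ) (pf (f00 Q) (f00 Q) z) = pf (f00 Q) (f00 Q) z := by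
    have := congrFun (cjr_pf (f00 Q) (f00 Q)) z
    rw [cj_f00] at this
    exact this
  rw [h1, h2]
  congr 2
  rw [map_div₀, map_one, map_ofNat]

theorem bet_mr (B : BS) (hq : 0 < q) (hQ : 0 < Q) (hz3 : z3 ^ q = 1) (hz4 : z4 ^ q = 1) (hf : FS Q z3 f) (hg : FS Q z4 g) :
    MRG (bet Q f g) := by
  have h1 : MRB Q f g (fun Y => mf Q f Y * mf Q g Y) := by
    refine B.mrb q Q hq hQ z3 z4 hz3 hz4 f g hf hg _ ?_
    simp only [sub_self]
    exact tendsto_const_nhds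
  have h2 : MRG (fun X z => pf (f X) (g X) z - mf Q f X * mf Q g X * pf (f00 Q) (f00 Q) z) := h1
  have h3 := h2.smul (1 / 2) (by simp; norm_num)
  have h4 : bet Q f g = fun X z => (1 / 2 : ℂ) * (pf (f X) (g X) z - mf Q f X * mf Q g X * pf (f00 Q) (f00 Q) z) := by
    funext X z
    unfold bet
    ring
  rw [h4]
  exact h3

theorem norm_root (hq : 0 < q) {z : ℂ} (hz : z ^ q = 1) : ‖z‖ = 1 := Complex.norm_eq_one_of_pow_eq_one hz hq.ne'

theorem norm_conj_root (hq : 0 < q) {z : ℂ} (hz : z ^ q = 1) : ‖(starRingEnd ℂ) z‖ = 1 := by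
  rw [RCLike.norm_conj]
  exact norm_root hq hz

private theorem half_le (X : ℝ) : ‖(fun _ : ℝ => (1 / 2 : ℂ)) X‖ ≤ 1 := by
  simp
  norm_num

/-- `TVR` for a product and a centred product -/
theorem tvr_bet (hq : 0 < q) (hQ : 0 < Q) (hz1 : z1 ^ q = 1) (hz2 : z2 ^ q = 1) (hz3 : z3 ^ q = 1) (hz4 : z4 ^ q = 1)
    (hf1 : FS Q z1 f1) (hf2 : FS Q z2 f2) (hf : FS Q z3 f) (hg : FS Q z4 g) :
    TVR (fun X => pf (f1 X) (f2 X)) (bet Q f g) := by
  have h00 := FS.ft hQ (fs_f00 Q)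
  have e1 := tvr_pf Q.primeFactors f1 f2 f g z1 z2 z3 z4 (FS.ft hQ hf1) (FS.ft hQ hf2) (FS.ft hQ hf) (FS.ft hQ hg)
    (norm_root hq hz1) (norm_root hq hz2) (norm_root hq hz3) (norm_root hq hz4)
  have e2 := tvr_pf Q.primeFactors f1 f2 _ _ z1 z2 1 1 (FS.ft hQ hf1) (FS.ft hQ hf2) h00 h00
    (norm_root hq hz1) (norm_root hq hz2) norm_one norm_one
  exact e1.comb_right e2 (fun _ => 1 / 2) (fun X => -(mf Q f X * mf Q g X) / 2) 1 half_le
    (fun X => (bet_mu hf hg X).trans (by norm_num))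

/-- `TVR` for the centred product and its conjugate -/
theorem tvr_bb (hq : 0 < q) (hQ : 0 < Q) (hz3 : z3 ^ q = 1) (hz4 : z4 ^ q = 1)
    (hf : FS Q z3 f) (hg : FS Q z4 g) : TVR (bet Q f g) (fun X => cjr (bet Q f g X)) := by
  have h00 := FS.ft hQ (fs_f00 Q)
  have hF := FS.ft hQ hf
  have hG := FS.ft hQ hg
  have key : ∀ (w w' : ℂ) (u v : ℝ → ℕ → ℂ), FT u Q.primeFactors w → FT v Q.primeFactors w' → ‖w‖ = 1 → ‖w'‖ = 1 →
      TVR (fun X => pf (u X) (v X)) (fun X => cjr (bet Q f g X)) := by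
    intro w w' u v hu hv hw hw'
    have e1 := tvr_pf Q.primeFactors u v _ _ w w' _ _ hu hv hF.conj hG.conj hw hw' (norm_conj_root hq hz3)
      (norm_conj_root hq hz4)
    have e2 := tvr_pf Q.primeFactors u v _ _ w w' 1 1 hu hv h00 h00 hw hw' norm_one norm_one
    have e3 := e1.comb_right e2 (fun _ => 1 / 2) (fun X => (starRingEnd ℂ) (-(mf Q f X * mf Q g X) / 2)) 1 half_le
      (fun X => by rw [RCLike.norm_conj]; exact (bet_mu hf hg X).trans (by norm_num))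
    simp only [cjr_bet]
    exact e3
  have e1 := key z3 z4 f g hF hG (norm_root hq hz3) (norm_root hq hz4)
  have e2 := key 1 1 _ _ h00 h00 norm_one norm_one
  exact e1.comb_left e2 (fun _ => 1 / 2) (fun X => -(mf Q f X * mf Q g X) / 2) 1 half_le
    (fun X => (bet_mu hf hg X).trans (by norm_num))

/-- `CHR` for the centred product and its conjugate -/
theorem chr_bb (hq : 0 < q) (hQ : 0 < Q) (hz3 : z3 ^ q = 1) (hz4 : z4 ^ q = 1)
    (hf : FS Q z3 f) (hg : FS Q z4 g) : CHR (bet Q f g) (fun X => cjr (bet Q f g X)) := by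
  have h00 := FS.ft hQ (fs_f00 Q)
  have hF := FS.ft hQ hf
  have hG := FS.ft hQ hg
  have key : ∀ (w w' : ℂ) (u v : ℝ → ℕ → ℂ), FT u Q.primeFactors w → FT v Q.primeFactors w' → ‖w‖ = 1 →
      CHR (fun X => pf (u X) (v X)) (fun X => cjr (bet Q f g X)) := by
    intro w w' u v hu hv hw
    have e1 := chr_pf Q.primeFactors u v _ _ w w' _ _ hu hv hF.conj hG.conj hw (norm_conj_root hq hz4)
    have e2 := chr_pf Q.primeFactors u v _ _ w w' 1 1 hu hv h00 h00 hw norm_one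
    have e3 := e1.comb_right e2 (fun _ => 1 / 2) (fun X => (starRingEnd ℂ) (-(mf Q f X * mf Q g X) / 2)) 1 half_le
      (fun X => by rw [RCLike.norm_conj]; exact (bet_mu hf hg X).trans (by norm_num))
    simp only [cjr_bet]
    exact e3
  have e1 := key z3 z4 f g hF hG (norm_root hq hz3)
  have e2 := key 1 1 _ _ h00 h00 norm_one
  exact e1.comb_left e2 (fun _ => 1 / 2) (fun X => -(mf Q f X * mf Q g X) / 2) 1 half_le
    (fun X => (bet_mu hf hg X).trans (by norm_num))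

/-- the correlations of the centred second rows are small -/
theorem gms_bet (B : BS) (hq : 0 < q) (h0 n0 : ℕ) (hQ : HQ h0 Q n0) (hz3 : z3 ^ q = 1) (hz4 : z4 ^ q = 1)
    (hf : FS Q z3 f) (hg : FS Q z4 g) : GmSmall4 h0 Q n0 (bet Q f g) :=
  redB4 h0 Q n0 hQ (bet Q f g) (bet_le hf hg) (chr_bb hq hQ.posQ hz3 hz4 hf hg) (tvr_bb hq hQ.posQ hz3 hz4 hf hg)
    (bet_zero hf hg) (dsum4 _ (bet_le hf hg) (qds4 _ (bet_le hf hg) (bet_mr B hq hQ.posQ hz3 hz4 hf hg)) h0 Q hQ.pos hQ.posQ)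

/-- replacement of the second row -/
theorem repl2 (B : BS) (hq : 0 < q) (h0 n0 : ℕ) (hQ : HQ h0 Q n0) (hz1 : z1 ^ q = 1) (hz2 : z2 ^ q = 1) (hz3 : z3 ^ q = 1)
    (hz4 : z4 ^ q = 1) (hf1 : FS Q z1 f1) (hf2 : FS Q z2 f2) (hf : FS Q z3 f) (hg : FS Q z4 g) (b : ℝ)
    (W : ℝ → ℝ → ℝ → ℂ) (hW : TS b W) (a : ℝ) (ha : 0 < a) :
    Tendsto (fun X : ℝ => (∑ e ∈ SQ h0 Q n0 (b * X), (F4 (f1 (a * X)) (f2 (a * X)) (f (a * X)) (g (a * X)) e -
      mf Q f (a * X) * mf Q g (a * X) * F4 (f1 (a * X)) (f2 (a * X)) (f00 Q) (f00 Q) e) *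
      W (yS e / X) (tS e) (uS e)) / X) atTop (nhds 0) := by
  have h1 := sm4 h0 Q n0 hQ (fun X => pf (f1 X) (f2 X)) (bet Q f g) (fun X => norm_pf_le (hf1.bd X) (hf2.bd X))
    (bet_le hf hg) (tvr_bet hq hQ.posQ hz1 hz2 hz3 hz4 hf1 hf2 hf hg) (gms_bet B hq h0 n0 hQ hz3 hz4 hf hg) b W hW a ha
  have h2 := h1.const_mul 2
  rw [mul_zero] at h2
  refine h2.congr fun X => ?_
  rw [← mul_div_assoc, mul_sum]
  congr 1
  refine sum_congr rfl fun e _ => ?_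
  unfold F4 R2 bet pf
  ring

end

/-! ### The swap of the rows -/

/-- `(a b; c d) ↦ (d c; b a)` -/
def swp (e : Q4) : Q4 := ⟨e.d, e.c, e.b, e.a⟩

theorem swp_swp (e : Q4) : swp (swp e) = e := rfl

theorem swp_mem {h0 Q n0 : ℕ} {x : ℝ} {e : Q4} (h : e ∈ SQ h0 Q n0 x) : swp e ∈ SQ h0 Q n0 x := by
  rw [mem_SQ] at h ⊢
  obtain ⟨⟨⟨h1, h2, h3, h4, h5, h6, h7⟩, h8⟩, h9⟩ := h
  refine ⟨⟨⟨?_, h5, h4, h3, h2, h7.symm, h6.symm⟩, ?_⟩, ?_⟩
  · show e.d * e.a = e.c * e.b + h0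
    rw [Nat.mul_comm e.d, Nat.mul_comm e.c]
    exact h1
  · unfold yS swp at *
    simp only
    rw [mul_comm]
    exact h8
  · show e.c * e.b ≡ n0 [MOD Q]
    rw [Nat.mul_comm]
    exact h9

theorem sum_swp {h0 Q n0 : ℕ} {x : ℝ} (F : Q4 → ℂ) : ∑ e ∈ SQ h0 Q n0 x, F e = ∑ e ∈ SQ h0 Q n0 x, F (swp e) :=
  Finset.sum_nbij' swp swp (fun _ h => swp_mem h) (fun _ h => swp_mem h) (fun _ _ => rfl) (fun _ _ => rfl)
    (fun _ _ => rfl)

theorem ts_neg {b : ℝ} {W : ℝ → ℝ → ℝ → ℂ} (hW : TS b W) : TS b (fun y t u => W y (-t) (-u)) := by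
  have hc : Continuous (fun v : ℝ × ℝ × ℝ => ((v.1, -v.2.1, -v.2.2) : ℝ × ℝ × ℝ)) := by fun_prop
  refine ⟨hW.cont.comp hc, ?_, fun y t u hy => hW.lo y _ _ hy, fun y t u hy => hW.hi y _ _ hy⟩
  obtain ⟨R, -, hR⟩ := hW.bdd
  refine Ctw3P.hcs3 _ R fun y t u h => ?_
  have h1 := hR y (-t) (-u) h
  rwa [abs_neg, abs_neg] at h1

section

variable {q Q : ℕ} {z1 z2 z3 z4 : ℂ} {f1 f2 f3 f4 : ℝ → ℕ → ℂ}

/-- replacement of the first row -/
theorem repl1 (B : BS) (hq : 0 < q) (h0 n0 : ℕ) (hQ : HQ h0 Q n0) (hz1 : z1 ^ q = 1) (hz2 : z2 ^ q = 1) (hf1 : FS Q z1 f1)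
    (hf2 : FS Q z2 f2) (b : ℝ) (W : ℝ → ℝ → ℝ → ℂ) (hW : TS b W) (a : ℝ) (ha : 0 < a) :
    Tendsto (fun X : ℝ => (∑ e ∈ SQ h0 Q n0 (b * X), (F4 (f1 (a * X)) (f2 (a * X)) (f00 Q) (f00 Q) e -
      mf Q f1 (a * X) * mf Q f2 (a * X) * F4 (f00 Q) (f00 Q) (f00 Q) (f00 Q) e) *
      W (yS e / X) (tS e) (uS e)) / X) atTop (nhds 0) := by
  have h1 := repl2 B hq h0 n0 hQ (one_pow q) (one_pow q) hz2 hz1 (fs_f00 Q) (fs_f00 Q) hf2 hf1 b _ (ts_neg hW) a ha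
  refine h1.congr fun X => ?_
  congr 1
  rw [sum_swp]
  refine sum_congr rfl fun e _ => ?_
  have e1 : yS (swp e) = yS e := mul_comm _ _
  have e2 : tS (swp e) = -tS e := by
    unfold tS swp
    ring
  have e3 : uS (swp e) = -uS e := by
    unfold uS swp
    ring
  rw [e1, e2, e3, neg_neg, neg_neg]
  unfold F4 swp
  ring

/-- all four entries are coprime to `Q` -/
theorem f4_one (h0 n0 : ℕ) (hQ : HQ h0 Q n0) {x : ℝ} {e : Q4} (he : e ∈ SQ h0 Q n0 x) :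
    F4 (f00 Q) (f00 Q) (f00 Q) (f00 Q) e = 1 := by
  rw [mem_SQ] at he
  obtain ⟨⟨⟨h1, h2, h3, h4, h5, h6, h7⟩, h8⟩, h9⟩ := he
  have hbc : (e.b * e.c).Coprime Q := by
    have h10 : (e.b * e.c).gcd Q = n0.gcd Q := Nat.ModEq.gcd_eq h9
    unfold Nat.Coprime
    rw [h10]
    exact hQ.cop
  have had : (e.a * e.d).Coprime Q := by
    have h10 : e.a * e.d ≡ n0 + h0 [MOD Q] := by
      rw [h1]
      exact Nat.ModEq.add_right h0 h9
    have h11 : (e.a * e.d).gcd Q = (n0 + h0).gcd Q := Nat.ModEq.gcd_eq h10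
    unfold Nat.Coprime
    rw [h11]
    exact hQ.cop'
  unfold F4
  rw [f00_coprime h2.ne' (Nat.Coprime.coprime_mul_right had), f00_coprime h3.ne' (Nat.Coprime.coprime_mul_right hbc),
    f00_coprime h4.ne' (Nat.Coprime.coprime_mul_left hbc), f00_coprime h5.ne' (Nat.Coprime.coprime_mul_left had)]
  norm_num

/-- the main theorem, smooth sums: all four entries are replaced by their mean values -/
theorem main4 (B : BS) (hq : 0 < q) (h0 n0 : ℕ) (hQ : HQ h0 Q n0) (hz1 : z1 ^ q = 1) (hz2 : z2 ^ q = 1) (hz3 : z3 ^ q = 1)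
    (hz4 : z4 ^ q = 1) (hf1 : FS Q z1 f1) (hf2 : FS Q z2 f2) (hf3 : FS Q z3 f3) (hf4 : FS Q z4 f4) (b : ℝ)
    (W : ℝ → ℝ → ℝ → ℂ) (hW : TS b W) (a : ℝ) (ha : 0 < a) :
    Tendsto (fun X : ℝ => (∑ e ∈ SQ h0 Q n0 (b * X), F4 (f1 (a * X)) (f2 (a * X)) (f3 (a * X)) (f4 (a * X)) e *
      W (yS e / X) (tS e) (uS e) - mf Q f1 (a * X) * mf Q f2 (a * X) * mf Q f3 (a * X) * mf Q f4 (a * X) *
      ∑ e ∈ SQ h0 Q n0 (b * X), W (yS e / X) (tS e) (uS e)) / X) atTop (nhds 0) := by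
  have h1 := repl2 B hq h0 n0 hQ hz1 hz2 hz3 hz4 hf1 hf2 hf3 hf4 b W hW a ha
  have h2 := bdd_mul_zero (s := fun X => mf Q f3 (a * X) * mf Q f4 (a * X)) (C := 1)
    (fun X => by
      rw [norm_mul]
      exact mul_le_one₀ (mf_le_one hf3 _) (norm_nonneg _) (mf_le_one hf4 _))
    (repl1 B hq h0 n0 hQ hz1 hz2 hf1 hf2 b W hW a ha)
  have h3 := h1.add h2
  rw [add_zero] at h3
  refine h3.congr fun X => ?_
  rw [← mul_div_assoc, ← add_div, mul_sum, ← sum_add_distrib, mul_sum, ← sum_sub_distrib]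
  congr 1
  refine sum_congr rfl fun e he => ?_
  rw [f4_one h0 n0 hQ he]
  ring

end

end Pool.Agent.SplL

end

/-! ### from `Lib_MP_92ef0c_la.Law4` -/

section

/-!
# The joint law over matrices
-/

set_option autoImplicit false

namespace Pool.Agent.SplL

open Finset Pool.Agent.Spl Pool.Agent.SplB Pool.Agent.GaussMR Pool.Agent.OmAll Pool.Agent.OmEq Pool.Agent.LPr
  MeasureTheory Filter

/-- the sums over windows, general families -/
theorem win4 (B : BS) (h0 Q n0 : ℕ) (hQ : HQ h0 Q n0) : ∃ κ : ℝ, 0 < κ ∧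
    ∀ (q : ℕ) (z : Fin 4 → ℂ) (f : Fin 4 → ℝ → ℕ → ℂ) (m : Fin 4 → ℂ), 0 < q → (∀ i, z i ^ q = 1) →
      (∀ i, FS Q (z i) (f i)) → (∀ i, Tendsto (mf Q (f i)) atTop (nhds (m i))) →
      ∀ t1 t2 u1 u2 : ℝ, t1 ≤ t2 → u1 ≤ u2 →
      Tendsto (fun X : ℝ => (∑ e ∈ Spl.SW h0 Q n0 t1 t2 u1 u2 X, F4 (f 0 X) (f 1 X) (f 2 X) (f 3 X) e) / X) atTop
        (nhds ((∏ i, m i) * ((κ * ((t2 - t1) * (u2 - u1)) : ℝ) : ℂ))) := by
  classical
  obtain ⟨κ, hκ, hlim⟩ := tot3 h0 Q n0 hQ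
  obtain ⟨κ', hκ'⟩ := tot1 h0 hQ.pos
  refine ⟨κ, hκ, fun q z f m hq hz hf hm t1 t2 u1 u2 ht hu => ?_⟩
  have hb : ∀ X e, ‖cz Q (psq Q n0) e * F4 (f 0 X) (f 1 X) (f 2 X) (f 3 X) e‖ ≤ 1 := by
    intro X e
    rw [norm_mul]
    exact mul_le_one₀ (psq_le _ _ _ _ _ _) (norm_nonneg _)
      (norm_F4_le ((hf 0).bd X) ((hf 1).bd X) ((hf 2).bd X) ((hf 3).bd X) e)
  have H : ∀ (b : ℝ) (W : ℝ → ℝ → ℝ → ℂ), TS b W →
      Tendsto (fun X : ℝ => (∑ e ∈ SN h0 (b * X), cz Q (psq Q n0) e * F4 (f 0 X) (f 1 X) (f 2 X) (f 3 X) e *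
        W (yS e / X) (tS e) (uS e)) / X) atTop (nhds (((∏ i, m i) * κ) * ∫ y, ∫ t, ∫ u, W y t u)) := by
    intro b W hW
    have e1 := main4 B hq h0 n0 hQ (hz 0) (hz 1) (hz 2) (hz 3) (hf 0) (hf 1) (hf 2) (hf 3) b W hW 1 one_pos
    simp only [one_mul] at e1
    have e2 := real_to_complex (fun b X => SQ h0 Q n0 (b * X)) yS tS uS κ hlim b W hW
    have e3 := (((((hm 0).mul (hm 1)).mul (hm 2)).mul (hm 3)).mul e2)
    have e4 := e1.add e3
    rw [zero_add] at e4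
    have e5 : m 0 * m 1 * m 2 * m 3 * ((κ : ℂ) * ∫ y, ∫ t, ∫ u, W y t u) =
        ((∏ i, m i) * κ) * ∫ y, ∫ t, ∫ u, W y t u := by
      rw [Fin.prod_univ_four]
      ring
    rw [e5] at e4
    refine e4.congr fun X => ?_
    have e6 : ∑ e ∈ SN h0 (b * X), cz Q (psq Q n0) e * F4 (f 0 X) (f 1 X) (f 2 X) (f 3 X) e *
        W (yS e / X) (tS e) (uS e) = ∑ e ∈ SQ h0 Q n0 (b * X), F4 (f 0 X) (f 1 X) (f 2 X) (f 3 X) e *
        W (yS e / X) (tS e) (uS e) := by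
      rw [sum_SQ]
      refine sum_congr rfl fun e _ => ?_
      ring
    rw [e6]
    ring
  have h := sharp4 h0 hQ.pos κ' hκ' _ hb _ H t1 t2 u1 u2 ht hu
  have h2 : (∏ i, m i) * ((κ * ((t2 - t1) * (u2 - u1)) : ℝ) : ℂ) =
      ((∏ i, m i) * κ) * (((t2 - t1) * (u2 - u1) : ℝ) : ℂ) := by
    push_cast
    ring
  rw [h2]
  refine h.congr fun X => ?_
  rw [sum_SW]

/-- facts on the entries -/
theorem ent_facts (h0 Q n0 : ℕ) (hQ : HQ h0 Q n0) (t1 t2 u1 u2 : ℝ) : ∀ᶠ X : ℝ in atTop,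
    ∀ e ∈ Spl.SW h0 Q n0 t1 t2 u1 u2 X, ∀ i, ent i e ≠ 0 ∧ (ent i e).Coprime Q ∧ (ent i e : ℝ) ≤ Real.sqrt X ^ 3 := by
  filter_upwards [eventually_ge_atTop (4 : ℝ), eventually_ge_atTop (h0 : ℝ)] with X hX hX2 e he
  have hX0 : (0 : ℝ) ≤ X := by linarith
  unfold Spl.SW at he
  rw [mem_filter, mem_SQ] at he
  obtain ⟨⟨⟨hS, hy⟩, hc⟩, -⟩ := he
  obtain ⟨⟨c1, c2⟩, c3, c4⟩ := sq_cop hQ hS hc
  obtain ⟨hdet, pa, pb, pc, pd, -, -⟩ := hS
  have h1 : ((e.b * e.c : ℕ) : ℝ) ≤ X := by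
    unfold yS at hy
    push_cast
    exact hy
  have h2 : ((e.a * e.d : ℕ) : ℝ) ≤ X + h0 := by
    rw [hdet]
    push_cast at h1 ⊢
    linarith
  have hs2 : (2 : ℝ) ≤ Real.sqrt X := by
    rw [show (2 : ℝ) = Real.sqrt 4 by
      rw [show (4 : ℝ) = 2 ^ 2 by norm_num, Real.sqrt_sq (by norm_num)]]
    exact Real.sqrt_le_sqrt hX
  have hs3 : X + h0 ≤ Real.sqrt X ^ 3 := by
    have e1 : Real.sqrt X ^ 3 = Real.sqrt X * X := by
      have := Real.mul_self_sqrt hX0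
      calc Real.sqrt X ^ 3 = Real.sqrt X * (Real.sqrt X * Real.sqrt X) := by ring
        _ = Real.sqrt X * X := by rw [this]
    rw [e1]
    nlinarith
  have hb : ∀ m n : ℕ, 0 < m → 0 < n → ((m * n : ℕ) : ℝ) ≤ X + h0 → (m : ℝ) ≤ Real.sqrt X ^ 3 ∧
      (n : ℝ) ≤ Real.sqrt X ^ 3 := by
    intro m n hm hn h
    have g1 : (m : ℝ) ≤ ((m * n : ℕ) : ℝ) := by exact_mod_cast Nat.le_mul_of_pos_right m hn
    have g2 : (n : ℝ) ≤ ((m * n : ℕ) : ℝ) := by exact_mod_cast Nat.le_mul_of_pos_left n hm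
    exact ⟨by linarith, by linarith⟩
  have hh0 : (0 : ℝ) ≤ h0 := Nat.cast_nonneg h0
  obtain ⟨b1, b4⟩ := hb _ _ pa pd h2
  obtain ⟨b2, b3⟩ := hb _ _ pb pc (by linarith)
  intro i
  fin_cases i
  · exact ⟨pa.ne', c1, b1⟩
  · exact ⟨pb.ne', c2, b2⟩
  · exact ⟨pc.ne', c3, b3⟩
  · exact ⟨pd.ne', c4, b4⟩

/-- the coefficients of the expansion of the indicator -/
noncomputable def cf (q K r s : ℕ) (k : ℕ → ℕ) (p : ℕ × (Fin r → ℕ)) : ℂ :=
  ((zq q ^ (p.1 * s))⁻¹ / q) * ((∏ i : Fin r, (zq K ^ (p.2 i * k i))⁻¹) / (K : ℂ) ^ r)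

/-- the index set -/
def ix (q K r : ℕ) : Finset (ℕ × (Fin r → ℕ)) := range q ×ˢ Fintype.piFinset (fun _ : Fin r => range K)

open Classical in
/-- expansion of the indicator, one number -/
theorem ind1 (q : ℕ) (hq : 0 < q) (Q : ℕ) (K : ℕ) (u0 : ℝ) (hu0 : 0 < u0) (hKu : 3 < K * u0) (u v : ℕ → ℝ)
    (r : ℕ) (hu : ∀ i < r, u0 ≤ u i) (k : ℕ → ℕ) (hk : ∀ i < r, k i < K) (s : ℕ) (X : ℝ) (hX : 2 ≤ X)
    (n : ℕ) (hn : n ≠ 0) (hnX : (n : ℝ) ≤ X ^ 3) (hc : n.Coprime Q) :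
    (if ArithmeticFunction.cardFactors n ≡ s [MOD q] ∧ ∀ i < r, wc X (u i) (v i) n = k i then (1 : ℂ) else 0) =
      ∑ p ∈ ix q K r, cf q K r s k p * fx Q (zq q ^ p.1) (phg K u v r p.2) X n := by
  have hK : 0 < K := by
    rcases Nat.eq_zero_or_pos K with h | h
    · rw [h, Nat.cast_zero, zero_mul] at hKu
      linarith
    · exact h
  have hX1 : (1 : ℝ) < X := by linarith
  have hq0 : (q : ℂ) ≠ 0 := by exact_mod_cast hq.ne'
  have hK0 : (K : ℂ) ≠ 0 := by exact_mod_cast hK.ne'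
  set A : ℕ → ℂ := fun i => (zq q ^ (i * s))⁻¹ * (zq q ^ i) ^ ArithmeticFunction.cardFactors n with hA
  set C : (Fin r → ℕ) → ℂ := fun j => (∏ i : Fin r, (zq K ^ (j i * k i))⁻¹) *
    ∏ i : Fin r, (zq K ^ (j i)) ^ wc X (u i) (v i) n with hC
  have h2 : ∑ p ∈ ix q K r, cf q K r s k p * fx Q (zq q ^ p.1) (phg K u v r p.2) X n =
      (∑ i ∈ range q, A i) * (∑ j ∈ Fintype.piFinset (fun _ : Fin r => range K), C j) / ((q : ℂ) * (K : ℂ) ^ r) := by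
    unfold ix
    rw [sum_product, sum_mul_sum, sum_div]
    apply sum_congr rfl
    intro i _
    rw [sum_div]
    apply sum_congr rfl
    intro j _
    unfold fx cf
    rw [if_neg (by tauto), gx_phg K u v r j X hX1]
    simp only [hA, hC]
    generalize (∏ i : Fin r, (zq K ^ (j i * k i))⁻¹) = c1
    generalize (∏ i : Fin r, (zq K ^ (j i)) ^ wc X (u i) (v i) n) = c2
    generalize (zq q ^ (i * s))⁻¹ = a1
    generalize (zq q ^ i) ^ ArithmeticFunction.cardFactors n = a2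
    field_simp
  rw [h2]
  simp only [hA, hC]
  rw [fine_orth hq]
  rw [win_inv K hK r (fun i => k i) (fun i => wc X (u i) (v i) n) (fun i => hk i i.2)
    (fun i => wc_lt K u0 hu0 hKu X hX n hn hnX _ _ (hu i i.2))]
  have e1 : (∀ i < r, wc X (u i) (v i) n = k i) ↔ ∀ i : Fin r, wc X (u i) (v i) n = k i :=
    ⟨fun h i => h i i.2, fun h i hi => h ⟨i, hi⟩⟩
  by_cases c1 : ArithmeticFunction.cardFactors n ≡ s [MOD q]
  · by_cases c3 : ∀ i : Fin r, wc X (u i) (v i) n = k i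
    · rw [if_pos ⟨c1, e1.2 c3⟩, if_pos c1, if_pos c3]
      field_simp
    · rw [if_neg (fun h => c3 (e1.1 h.2)), if_neg c3, mul_zero, zero_div]
  · rw [if_neg (fun h => c1 h.1), if_neg c1, zero_mul, zero_div]

theorem zq_ne_one {q : ℕ} (hq : 0 < q) {i : ℕ} (hi : i < q) (h0 : i ≠ 0) : zq q ^ i ≠ 1 := by
  intro h
  have h1 : zq q ^ i = zq q ^ 0 := by rw [h, pow_zero]
  rw [fine_pow_eq hq] at h1
  unfold Nat.ModEq at h1
  rw [Nat.mod_eq_of_lt hi, Nat.zero_mod] at h1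
  exact h0 h1

theorem zq_root {q : ℕ} (hq : 0 < q) (i : ℕ) : (zq q ^ i) ^ q = 1 := by
  rw [← pow_mul, mul_comm, pow_mul, (fine_prim q hq).pow_eq_one, one_pow]

/-- the value of the limit, one number -/
theorem cf_sum (q : ℕ) (hq : 0 < q) (K : ℕ) (u v : ℕ → ℝ) (r s : ℕ) (k : ℕ → ℕ) :
    ∑ p ∈ ix q K r, cf q K r s k p * mm (zq q ^ p.1) (phg K u v r p.2) = cG K u v r k / q := by
  unfold ix
  rw [sum_product, sum_eq_single 0]
  · have h1 : ∀ φ : ℝ → ℂ, mm (zq q ^ 0) φ = mu φ := by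
      intro φ
      unfold mm
      rw [if_pos (pow_zero _)]
    simp only [h1]
    unfold cG cf
    simp only [zero_mul, pow_zero, inv_one]
    rw [mul_sum, sum_div]
    refine sum_congr rfl fun j _ => ?_
    ring
  · intro i hi h0
    refine sum_eq_zero fun j _ => ?_
    have h2 : mm (zq q ^ i) (phg K u v r j) = 0 := by
      unfold mm
      rw [if_neg (zq_ne_one hq (mem_range.1 hi) h0)]
    simp only [h2, mul_zero]
  · intro h
    exact absurd (mem_range.2 hq) h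

/-- the conditions on the entries -/
def PC (q : ℕ) (s r : Fin 4 → ℕ) (u v : Fin 4 → ℕ → ℝ) (k : Fin 4 → ℕ → ℕ) (x : ℝ) (e : Q4) : Prop :=
  ∀ i, ArithmeticFunction.cardFactors (ent i e) ≡ s i [MOD q] ∧
    ∀ j < r i, wc (Real.sqrt x) (u i j) (v i j) (ent i e) = k i j

open Classical in
/-- the joint law in one class -/
theorem law4 (B : BS) (h0 Q n0 : ℕ) (hQ : HQ h0 Q n0) : ∃ κ : ℝ, 0 < κ ∧
    (∀ t1 t2 u1 u2 : ℝ, t1 ≤ t2 → u1 ≤ u2 → Tendsto (fun X : ℝ => ((Spl.SW h0 Q n0 t1 t2 u1 u2 X).card : ℝ) / X) atTop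
      (nhds (κ * ((t2 - t1) * (u2 - u1))))) ∧
    ∀ (q K : ℕ) (u0 : ℝ) (r : Fin 4 → ℕ) (u v : Fin 4 → ℕ → ℝ) (k : Fin 4 → ℕ → ℕ) (c : Fin 4 → ℝ), 0 < q → 0 < u0 →
      (∀ i, ∀ j < r i, u0 ≤ u i j ∧ u i j ≤ v i j) → 3 < K * u0 → (∀ i, ∀ j < r i, k i j < K) →
      (∀ i, (c i : ℂ) = cG K (u i) (v i) (r i) (k i)) → ∀ s : Fin 4 → ℕ, ∀ t1 t2 u1 u2 : ℝ, t1 ≤ t2 → u1 ≤ u2 →
      Tendsto (fun X : ℝ => (((Spl.SW h0 Q n0 t1 t2 u1 u2 X).filter (PC q s r u v k X)).card : ℝ) / X) atTop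
        (nhds (κ * ((t2 - t1) * (u2 - u1)) * (∏ i, c i) / (q : ℝ) ^ 4)) := by
  obtain ⟨κ, hκ, hW⟩ := win4 B h0 Q n0 hQ
  refine ⟨κ, hκ, ?_, ?_⟩
  · intro t1 t2 u1 u2 ht hu
    have hm : Tendsto (mf Q (fun _ => f00 Q)) atTop (nhds 1) := by
      obtain ⟨c, hc, hlow⟩ := f00_low hQ.posQ
      refine tendsto_const_nhds.congr' ?_
      filter_upwards [hlow, eventually_gt_atTop (0 : ℝ)] with Y hY hY0
      have hs := Real.sqrt_pos.2 hY0
      have hD : ∑ n ∈ Icc 1 ⌊Real.sqrt Y⌋₊, f00 Q n ≠ 0 := by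
        intro h
        rw [h, norm_zero] at hY
        have : 0 < c * Real.sqrt Y := by positivity
        linarith
      unfold mf
      rw [div_self hD]
    have h1 := hW 1 (fun _ => 1) (fun _ _ => f00 Q) (fun _ => 1) one_pos (fun _ => one_pow 1) (fun _ => fs_f00 Q)
      (fun _ => hm) t1 t2 u1 u2 ht hu
    rw [prod_const_one, one_mul] at h1
    have h2 := (Complex.continuous_re.tendsto _).comp h1
    rw [Complex.ofReal_re] at h2
    refine h2.congr fun X => ?_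
    have h3 : ∑ e ∈ Spl.SW h0 Q n0 t1 t2 u1 u2 X, F4 (f00 Q) (f00 Q) (f00 Q) (f00 Q) e =
        (((Spl.SW h0 Q n0 t1 t2 u1 u2 X).card : ℝ) : ℂ) := by
      have h4 : ∀ e ∈ Spl.SW h0 Q n0 t1 t2 u1 u2 X, F4 (f00 Q) (f00 Q) (f00 Q) (f00 Q) e = 1 := by
        intro e he
        unfold Spl.SW at he
        exact f4_one h0 n0 hQ (mem_filter.1 he).1
      rw [sum_congr rfl h4]
      simp
    rw [Function.comp_apply, h3, ← Complex.ofReal_div, Complex.ofReal_re]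
  · intro q K u0 r u v k c hq hu0 hu hKu hk hc s t1 t2 u1 u2 ht hu'
    have hK : 0 < K := by
      rcases Nat.eq_zero_or_pos K with h | h
      · exfalso
        rw [h, Nat.cast_zero, zero_mul] at hKu
        linarith
      · exact h
    set T : ℂ := ((κ * ((t2 - t1) * (u2 - u1)) : ℝ) : ℂ) with hT
    have hterm : ∀ p ∈ Fintype.piFinset (fun i : Fin 4 => ix q K (r i)),
        Tendsto (fun X : ℝ => (∏ i, cf q K (r i) (s i) (k i) (p i)) * ((∑ e ∈ Spl.SW h0 Q n0 t1 t2 u1 u2 X,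
          ∏ i, fxr Q (zq q ^ (p i).1) (phg K (u i) (v i) (r i) (p i).2) X (ent i e)) / X)) atTop
          (nhds ((∏ i, cf q K (r i) (s i) (k i) (p i)) *
            ((∏ i, mm (zq q ^ (p i).1) (phg K (u i) (v i) (r i) (p i).2)) * T))) := by
      intro p _
      have hst : ∀ i, StepF (phg K (u i) (v i) (r i) (p i).2) := fun i =>
        phg_step K hK (u i) (v i) (r i) (fun j hj => ⟨hu0.trans_le (hu i j hj).1, (hu i j hj).2⟩) _
      have h1 := hW q (fun i => zq q ^ (p i).1) (fun i => fxr Q (zq q ^ (p i).1) (phg K (u i) (v i) (r i) (p i).2))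
        (fun i => mm (zq q ^ (p i).1) (phg K (u i) (v i) (r i) (p i).2)) hq (fun i => zq_root hq _)
        (fun i => fs_fx Q _ (fine_norm q hq _) _ (hst i))
        (fun i => mf_fx B q Q hq hQ.posQ _ (zq_root hq _) _ (hst i)) t1 t2 u1 u2 ht hu'
      refine (h1.congr fun X => ?_).const_mul _
      congr 1
      refine sum_congr rfl fun e _ => ?_
      rw [Fin.prod_univ_four]
      rfl
    have hsum := tendsto_finsetSum _ hterm
    have hval : ∑ p ∈ Fintype.piFinset (fun i : Fin 4 => ix q K (r i)), (∏ i, cf q K (r i) (s i) (k i) (p i)) *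
        ((∏ i, mm (zq q ^ (p i).1) (phg K (u i) (v i) (r i) (p i).2)) * T) =
        ((κ * ((t2 - t1) * (u2 - u1)) * (∏ i, c i) / (q : ℝ) ^ 4 : ℝ) : ℂ) := by
      have e1 : ∏ i, ∑ p ∈ ix q K (r i), cf q K (r i) (s i) (k i) p * mm (zq q ^ p.1) (phg K (u i) (v i) (r i) p.2) =
          ∑ p ∈ Fintype.piFinset (fun i : Fin 4 => ix q K (r i)), ∏ i, (cf q K (r i) (s i) (k i) (p i) *
            mm (zq q ^ (p i).1) (phg K (u i) (v i) (r i) (p i).2)) := Finset.prod_univ_sum _ _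
      have e2 : ∑ p ∈ Fintype.piFinset (fun i : Fin 4 => ix q K (r i)), (∏ i, cf q K (r i) (s i) (k i) (p i)) *
          ((∏ i, mm (zq q ^ (p i).1) (phg K (u i) (v i) (r i) (p i).2)) * T) =
          (∑ p ∈ Fintype.piFinset (fun i : Fin 4 => ix q K (r i)), ∏ i, (cf q K (r i) (s i) (k i) (p i) *
            mm (zq q ^ (p i).1) (phg K (u i) (v i) (r i) (p i).2))) * T := by
        rw [sum_mul]
        refine sum_congr rfl fun p _ => ?_
        rw [prod_mul_distrib]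
        ring
      rw [e2, ← e1]
      have e3 : ∏ i, ∑ p ∈ ix q K (r i), cf q K (r i) (s i) (k i) p * mm (zq q ^ p.1) (phg K (u i) (v i) (r i) p.2) =
          ∏ i, ((c i : ℂ) / q) := by
        refine prod_congr rfl fun i _ => ?_
        rw [cf_sum q hq, hc i]
      rw [e3, prod_div_distrib, prod_const, hT]
      simp only [card_univ, Fintype.card_fin]
      push_cast
      ring
    rw [hval] at hsum
    have hre := (Complex.continuous_re.tendsto _).comp hsum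
    rw [Complex.ofReal_re] at hre
    refine hre.congr' ?_
    have hs2 : ∀ᶠ X : ℝ in atTop, (2 : ℝ) ≤ Real.sqrt X := sqrt_atTop.eventually_ge_atTop 2
    filter_upwards [ent_facts h0 Q n0 hQ t1 t2 u1 u2, hs2] with X hX hX2
    rw [Function.comp_apply]
    have h1 : (((Spl.SW h0 Q n0 t1 t2 u1 u2 X).filter (PC q s r u v k X)).card : ℂ) =
        ∑ e ∈ Spl.SW h0 Q n0 t1 t2 u1 u2 X, (if PC q s r u v k X e then (1 : ℂ) else 0) := by
      rw [card_filter]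
      push_cast
      rfl
    have h2 : ∀ e ∈ Spl.SW h0 Q n0 t1 t2 u1 u2 X, (if PC q s r u v k X e then (1 : ℂ) else 0) =
        ∑ p ∈ Fintype.piFinset (fun i : Fin 4 => ix q K (r i)), (∏ i, cf q K (r i) (s i) (k i) (p i)) *
          ∏ i, fxr Q (zq q ^ (p i).1) (phg K (u i) (v i) (r i) (p i).2) X (ent i e) := by
      intro e he
      have g1 : (if PC q s r u v k X e then (1 : ℂ) else 0) = ∏ i, (if
          ArithmeticFunction.cardFactors (ent i e) ≡ s i [MOD q] ∧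
            ∀ j < r i, wc (Real.sqrt X) (u i j) (v i j) (ent i e) = k i j then (1 : ℂ) else 0) := by
        by_cases h : PC q s r u v k X e
        · rw [if_pos h]
          symm
          refine prod_eq_one fun i _ => ?_
          rw [if_pos (h i)]
        · rw [if_neg h]
          symm
          unfold PC at h
          push Not at h
          obtain ⟨i, hi⟩ := h
          refine prod_eq_zero (mem_univ i) ?_
          rw [if_neg]
          rintro ⟨k1, k2⟩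
          obtain ⟨j, hj, hj'⟩ := hi k1
          exact hj' (k2 j hj)
      rw [g1]
      have g2 : ∀ i, (if ArithmeticFunction.cardFactors (ent i e) ≡ s i [MOD q] ∧
            ∀ j < r i, wc (Real.sqrt X) (u i j) (v i j) (ent i e) = k i j then (1 : ℂ) else 0) =
          ∑ p ∈ ix q K (r i), cf q K (r i) (s i) (k i) p *
            fxr Q (zq q ^ p.1) (phg K (u i) (v i) (r i) p.2) X (ent i e) := by
        intro i
        obtain ⟨k1, k2, k3⟩ := hX e he i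
        exact ind1 q hq Q K u0 hu0 hKu (u i) (v i) (r i) (fun j hj => (hu i j hj).1) (k i) (hk i) (s i)
          (Real.sqrt X) hX2 (ent i e) k1 k3 k2
      rw [prod_congr rfl fun i _ => g2 i, Finset.prod_univ_sum]
      refine sum_congr rfl fun p _ => ?_
      rw [prod_mul_distrib]
    have h3 : ∑ p ∈ Fintype.piFinset (fun i : Fin 4 => ix q K (r i)), (∏ i, cf q K (r i) (s i) (k i) (p i)) *
        ((∑ e ∈ Spl.SW h0 Q n0 t1 t2 u1 u2 X,
          ∏ i, fxr Q (zq q ^ (p i).1) (phg K (u i) (v i) (r i) (p i).2) X (ent i e)) / X) =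
        (((Spl.SW h0 Q n0 t1 t2 u1 u2 X).filter (PC q s r u v k X)).card : ℂ) / X := by
      rw [h1, sum_congr rfl h2, sum_comm, sum_div]
      refine sum_congr rfl fun p _ => ?_
      rw [← mul_sum, mul_div_assoc]
    rw [h3, ← Complex.ofReal_natCast, ← Complex.ofReal_div, Complex.ofReal_re]

end Pool.Agent.SplL

end

/-! ### from `Lib_MP_92ef0c_la.FacLaw4` -/

section

/-!
# The joint law over the factorisations `n = b c`, `n + h = a d`
-/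

set_option autoImplicit false

namespace Pool.Agent.SplL

open Finset Pool.Agent.Spl Pool.Agent.SplB Pool.Agent.GaussMR Pool.Agent.OmAll Pool.Agent.OmEq Pool.Agent.LPr
  MeasureTheory Filter

/-- a common lower bound -/
theorem exists_low (u : ℕ → ℝ) (r : ℕ) (h : ∀ i < r, 0 < u i) : ∃ u0 : ℝ, 0 < u0 ∧ ∀ i < r, u0 ≤ u i := by
  induction r with
  | zero => exact ⟨1, one_pos, fun i hi => absurd hi (Nat.not_lt_zero _)⟩
  | succ r ih =>
    obtain ⟨u0, h0, h1⟩ := ih (fun i hi => h i (by omega))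
    refine ⟨min u0 (u r), lt_min h0 (h r (by omega)), fun i hi => ?_⟩
    rcases Nat.lt_succ_iff_lt_or_eq.1 hi with h2 | h2
    · exact (min_le_left _ _).trans (h1 i h2)
    · rw [h2]
      exact min_le_right _ _

/-- common parameters -/
theorem exists_par (r : Fin 4 → ℕ) (u : Fin 4 → ℕ → ℝ) (k : Fin 4 → ℕ → ℕ) (h : ∀ i, ∀ j < r i, 0 < u i j) :
    ∃ (u0 : ℝ) (K : ℕ), 0 < u0 ∧ 3 < K * u0 ∧ (∀ i, ∀ j < r i, u0 ≤ u i j) ∧ ∀ i, ∀ j < r i, k i j < K := by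
  choose w hw hw' using fun i => exists_low (u i) (r i) (h i)
  obtain ⟨i0, hi0⟩ := Finite.exists_min w
  refine ⟨w i0, ⌊3 / w i0⌋₊ + ∑ i, ∑ j ∈ range (r i), k i j + 1, hw i0, ?_, fun i j hj => (hi0 i).trans (hw' i j hj), ?_⟩
  · have h1 : 3 / w i0 < ⌊3 / w i0⌋₊ + 1 := Nat.lt_floor_add_one _
    rw [div_lt_iff₀ (hw i0)] at h1
    push_cast
    have h2 : (0 : ℝ) ≤ ∑ i, ∑ j ∈ range (r i), (k i j : ℝ) := by positivity
    have h3 := mul_nonneg h2 (hw i0).le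
    nlinarith
  · intro i j hj
    have h1 : k i j ≤ ∑ j ∈ range (r i), k i j :=
      single_le_sum (f := fun j => k i j) (fun _ _ => Nat.zero_le _) (mem_range.2 hj)
    have h2 : ∑ j ∈ range (r i), k i j ≤ ∑ i, ∑ j ∈ range (r i), k i j :=
      single_le_sum (f := fun i => ∑ j ∈ range (r i), k i j) (fun _ _ => Nat.zero_le _) (mem_univ i)
    omega

/-- the joint law -/
theorem fac_law4 (B : BS) (h k n0 : ℕ) (hh : 0 < h) (hk : 0 < k) (h1 : n0.Coprime k) (h2 : (n0 + h).Coprime k) :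
    ∃ κ : ℝ, 0 < κ ∧ ∀ α β γ δ : ℝ, 0 < α → α ≤ β → 0 < γ → γ ≤ δ →
      Tendsto (fun x : ℝ => ((WS h k n0 α β γ δ x).ncard : ℝ) / x) atTop
        (nhds (κ * (Real.log (β / α) * Real.log (δ / γ)))) ∧
      ∀ (r : Fin 4 → ℕ) (u v : Fin 4 → ℕ → ℝ) (l : Fin 4 → ℕ → ℕ), (∀ i, ∀ j < r i, 0 < u i j ∧ u i j ≤ v i j) →
        ∃ c : Fin 4 → ℝ, (∀ i, Tendsto (fun y : ℝ => (Set.ncard {n : ℕ | 1 ≤ n ∧ (n : ℝ) ≤ y ∧
          ∀ j < r i, wc y (u i j) (v i j) n = l i j} : ℝ) / y) atTop (nhds (c i))) ∧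
        ∀ q : ℕ, 0 < q → ∀ s : Fin 4 → ℕ,
        Tendsto (fun x : ℝ => ({e : Q4 | e ∈ WS h k n0 α β γ δ x ∧ PC q s r u v l x e}.ncard : ℝ) / x)
          atTop (nhds (κ * (Real.log (β / α) * Real.log (δ / γ)) * (∏ i, c i) / (q : ℝ) ^ 4)) := by
  classical
  have hex : ∀ m : ℕ, ∃ κ : ℝ, m ∈ CS h k n0 → (0 < κ ∧
      (∀ t1 t2 u1 u2 : ℝ, t1 ≤ t2 → u1 ≤ u2 → Tendsto (fun X : ℝ => ((Spl.SW h (k * h) m t1 t2 u1 u2 X).card : ℝ) / X) atTop
        (nhds (κ * ((t2 - t1) * (u2 - u1))))) ∧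
      ∀ (q K : ℕ) (u0 : ℝ) (r : Fin 4 → ℕ) (u v : Fin 4 → ℕ → ℝ) (k' : Fin 4 → ℕ → ℕ) (c : Fin 4 → ℝ), 0 < q → 0 < u0 →
      (∀ i, ∀ j < r i, u0 ≤ u i j ∧ u i j ≤ v i j) → 3 < K * u0 → (∀ i, ∀ j < r i, k' i j < K) →
      (∀ i, (c i : ℂ) = cG K (u i) (v i) (r i) (k' i)) → ∀ s : Fin 4 → ℕ, ∀ t1 t2 u1 u2 : ℝ, t1 ≤ t2 → u1 ≤ u2 →
      Tendsto (fun X : ℝ => (((Spl.SW h (k * h) m t1 t2 u1 u2 X).filter (PC q s r u v k' X)).card : ℝ) / X) atTop
        (nhds (κ * ((t2 - t1) * (u2 - u1)) * (∏ i, c i) / (q : ℝ) ^ 4))) := by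
    intro m
    by_cases hm : m ∈ CS h k n0
    · obtain ⟨κ, hκ⟩ := law4 B h (k * h) m (hq_of_mem hh hk h1 h2 hm)
      exact ⟨κ, fun _ => hκ⟩
    · exact ⟨0, fun h3 => absurd h3 hm⟩
  choose κ hκ using hex
  refine ⟨∑ m ∈ CS h k n0, κ m, sum_pos (fun m hm => (hκ m hm).1) (cs_nonempty hh hk h1), ?_⟩
  intro α β γ δ hα hαβ hγ hγδ
  have hβ : 0 < β := hα.trans_le hαβ
  have hδ : 0 < δ := hγ.trans_le hγδ
  have ht : Real.log α ≤ Real.log β := Real.log_le_log hα hαβ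
  have hu : Real.log γ ≤ Real.log δ := Real.log_le_log hγ hγδ
  have hl : (Real.log (β / α) * Real.log (δ / γ)) = (Real.log β - Real.log α) * (Real.log δ - Real.log γ) := by
    rw [Real.log_div hβ.ne' hα.ne', Real.log_div hδ.ne' hγ.ne']
  rw [hl]
  refine ⟨?_, fun r u v l huv => ?_⟩
  · have h3 : Tendsto (fun x : ℝ => ∑ m ∈ CS h k n0,
        ((Spl.SW h (k * h) m (Real.log α) (Real.log β) (Real.log γ) (Real.log δ) x).card : ℝ) / x) atTop
        (nhds (∑ m ∈ CS h k n0, κ m * ((Real.log β - Real.log α) * (Real.log δ - Real.log γ)))) := by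
      apply tendsto_finsetSum
      intro m hm
      exact (hκ m hm).2.1 _ _ _ _ ht hu
    rw [← sum_mul] at h3
    refine h3.congr (fun x => ?_)
    have h4 := ncard_WS h k n0 hh hk h1 h2 α β γ δ hα hβ hγ hδ x (fun _ => True)
    simp only [and_true, filter_true] at h4
    rw [show {e : Q4 | e ∈ WS h k n0 α β γ δ x} = WS h k n0 α β γ δ x from rfl] at h4
    rw [h4]
    push_cast
    rw [sum_div]
  · obtain ⟨u0, K, hu0, hKu, hur, hlK⟩ := exists_par r u l (fun i j hj => (huv i j hj).1)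
    have hur' : ∀ i, ∀ j < r i, u0 ≤ u i j ∧ u i j ≤ v i j := fun i j hj => ⟨hur i j hj, (huv i j hj).2⟩
    choose c hc hc1 using fun i => int_lawG K u0 hu0 (u i) (v i) (r i) (hur' i) hKu (l i) (hlK i)
    refine ⟨c, hc1, fun q hq s => ?_⟩
    have h3 : Tendsto (fun x : ℝ => ∑ m ∈ CS h k n0,
        (((Spl.SW h (k * h) m (Real.log α) (Real.log β) (Real.log γ) (Real.log δ) x).filter
          (PC q s r u v l x)).card : ℝ) / x) atTop
        (nhds (∑ m ∈ CS h k n0, κ m * ((Real.log β - Real.log α) * (Real.log δ - Real.log γ)) * (∏ i, c i) /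
          (q : ℝ) ^ 4)) := by
      apply tendsto_finsetSum
      intro m hm
      exact (hκ m hm).2.2 q K u0 r u v l c hq hu0 hur' hKu hlK hc s _ _ _ _ ht hu
    rw [← sum_div, ← sum_mul, ← sum_mul] at h3
    refine h3.congr (fun x => ?_)
    have h4 := ncard_WS h k n0 hh hk h1 h2 α β γ δ hα hβ hγ hδ x (PC q s r u v l x)
    rw [h4]
    push_cast
    rw [sum_div]

end Pool.Agent.SplL

end

/-! ### from `Lib_MP_92ef0c_la.Prof4` -/

section

/-!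
# Many `n` with prescribed profiles of the four factors
-/

set_option autoImplicit false

namespace Pool.Agent.SplL

open Finset Pool.Agent.Spl Pool.Agent.SplB Pool.Agent.GaussMR Pool.Agent.OmAll Pool.Agent.OmEq Pool.Agent.LPr
  MeasureTheory Filter

/-- lower bound for the number of factorisations, distinct exponents -/
theorem ws_lowG (B : BS) (h k n0 : ℕ) (hh : 0 < h) (hk : 0 < k) (h1 : n0.Coprime k) (h2 : (n0 + h).Coprime k)
    (α β γ δ : ℝ) (hα : 0 < α) (hαβ : α < β) (hγ : 0 < γ) (hγδ : γ < δ) (q : ℕ) (hq : 0 < q) (s kk : Fin 4 → ℕ)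
    (t : (i : Fin 4) → Fin (kk i) → ℝ) (hinj : ∀ i, Function.Injective (t i)) (ε : ℝ) (hε : 0 < ε) (hε1 : ε ≤ 1)
    (ht : ∀ i j, ε < t i j) (hs : ∀ i, ∑ j, t i j < 1) :
    ∃ c x0 : ℝ, 0 < c ∧ ∀ x : ℝ, x0 ≤ x → c * x ≤
      ((Set.ncard {e : Q4 | e ∈ WS h k n0 α β γ δ x ∧ PB4 q s kk t ε e}) : ℝ) := by
  classical
  have hβ : 0 < β := hα.trans hαβ
  have hδ0 : 0 < δ := hγ.trans hγδ
  set C : ℝ := 1 + Real.sqrt ((1 + h) / α) + Real.sqrt (1 / γ) + Real.sqrt δ + Real.sqrt (β * (1 + h)) with hC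
  have hCp : 0 < C := by positivity
  have hle1 : ∀ i j, t i j ≤ 1 := fun i j =>
    (single_le_sum (f := t i) (fun j _ => (hε.trans (ht i j)).le) (mem_univ j)).trans (hs i).le
  choose d1 hd1 hd1a H1 using fun i => big_prof4 (kk i) (t i) (hinj i) ε hε (ht i) (hle1 i) C hCp
  choose d3 hd3 H3 using fun i => pos_prof (kk i) (t i) (hinj i) (ε / 2) (by linarith) (fun j => by linarith [ht i j]) (hs i)
  obtain ⟨i1, hi1⟩ := Finite.exists_min d1
  obtain ⟨i3, hi3⟩ := Finite.exists_min d3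
  set η : ℝ := min (min (d1 i1) (d3 i3)) (ε / 2) with hη
  have hη0 : 0 < η := lt_min (lt_min (hd1 _) (hd3 _)) (by linarith)
  have he1 : ∀ i, η ≤ d1 i := fun i => ((min_le_left _ _).trans (min_le_left _ _)).trans (hi1 i)
  have he3 : ∀ i, η ≤ d3 i := fun i => ((min_le_left _ _).trans (min_le_right _ _)).trans (hi3 i)
  have he5 : η ≤ ε / 2 := min_le_right _ _
  choose x1 hx1 H1' using fun i => H1 i η hη0 (he1 i)
  obtain ⟨κ, hκ, hlaw⟩ := fac_law4 B h k n0 hh hk h1 h2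
  obtain ⟨hcnt, hlaw⟩ := hlaw α β γ δ hα hαβ.le hγ hγδ.le
  obtain ⟨c, hc, hlim⟩ := hlaw (fun i => kk i + 1) (fun i => vL (kk i) (t i) η ε) (fun i => vR (kk i) (t i))
    (fun i => vK (kk i)) (fun i => v_win (kk i) (t i) η ε hη0.le hε hε1 (fun j => by linarith [ht i j]))
  simp only [v_iff] at hc
  have hcpos : ∀ i, 0 < c i := fun i => H3 i η hη0 (he3 i) (c i) (hc i)
  have hlim := hlim q hq s
  have hl1 : 0 < Real.log (β / α) := Real.log_pos (by rwa [lt_div_iff₀ hα, one_mul])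
  have hl2 : 0 < Real.log (δ / γ) := Real.log_pos (by rwa [lt_div_iff₀ hγ, one_mul])
  set c0 : ℝ := κ * (Real.log (β / α) * Real.log (δ / γ)) * (∏ i, c i) / (q : ℝ) ^ 4 with hc0
  have hc0pos : 0 < c0 := by
    have : (0 : ℝ) < q := by exact_mod_cast hq
    have h3 : 0 < ∏ i, c i := prod_pos fun i _ => hcpos i
    positivity
  -- few matrices with a small product
  have hev1 : ∀ᶠ x : ℝ in atTop, ((WS h k n0 α β γ δ (x ^ (1 - η))).ncard : ℝ) ≤ c0 / 4 * x := by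
    set L : ℝ := κ * (Real.log (β / α) * Real.log (δ / γ)) with hL
    have hLp : 0 < L := by positivity
    have hη1 : η < 1 := by linarith
    have g1 : Tendsto (fun x : ℝ => x ^ (1 - η)) atTop atTop := tendsto_rpow_atTop (by linarith)
    have g2 := (hcnt.comp g1).eventually (gt_mem_nhds (lt_add_one L))
    have g3 : Tendsto (fun x : ℝ => x ^ (-η)) atTop (nhds 0) := tendsto_rpow_neg_atTop hη0
    have g4 : ∀ᶠ x : ℝ in atTop, x ^ (-η) < (c0 / 4) / (L + 1) := g3.eventually (gt_mem_nhds (by positivity))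
    filter_upwards [g2, g4, eventually_gt_atTop 0] with x k2 k4 hx
    rw [Function.comp_apply, div_lt_iff₀ (Real.rpow_pos_of_pos hx _)] at k2
    rw [lt_div_iff₀ (by positivity)] at k4
    have h5 : x ^ (1 - η) = x * x ^ (-η) := by
      rw [sub_eq_add_neg, Real.rpow_add hx, Real.rpow_one]
    have h6 : (L + 1) * x ^ (1 - η) = x * (x ^ (-η) * (L + 1)) := by
      rw [h5]
      ring
    have h7 : x * (x ^ (-η) * (L + 1)) ≤ x * (c0 / 4) := mul_le_mul_of_nonneg_left k4.le hx.le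
    linarith
  have hev2 := hlim.eventually (lt_mem_nhds (half_lt_self hc0pos))
  obtain ⟨x3, hx3⟩ := eventually_atTop.1 (hev1.and (hev2.and (eventually_gt_atTop (1 : ℝ))))
  have hbig : ∀ i, ∃ x4 : ℝ, ∀ x : ℝ, x4 ≤ x → x1 i ≤ Real.sqrt x := fun i =>
    eventually_atTop.1 (sqrt_atTop.eventually_ge_atTop (x1 i))
  choose x4 hx4 using hbig
  obtain ⟨i4, hi4⟩ := Finite.exists_max x4
  refine ⟨c0 / 4, max (x4 i4) x3, by positivity, fun x hx => ?_⟩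
  have hxx : ∀ i, x1 i ≤ Real.sqrt x := fun i => hx4 i x ((hi4 i).trans ((le_max_left _ _).trans hx))
  obtain ⟨g1, g2, g3⟩ := hx3 x ((le_max_right _ _).trans hx)
  have hx0 : 0 < x := by linarith
  rw [lt_div_iff₀ hx0] at g2
  have hfin : (WS h k n0 α β γ δ x).Finite := Pool.Agent.Spc.WS_finite hh hα hβ hγ hδ0 g3.le
  have hfin2 : (WS h k n0 α β γ δ (x ^ (1 - η))).Finite :=
    Pool.Agent.Spc.WS_finite hh hα hβ hγ hδ0 (Real.one_le_rpow g3.le (by linarith))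
  have hsub : {e : Q4 | e ∈ WS h k n0 α β γ δ x ∧ PC q s (fun i => kk i + 1) (fun i => vL (kk i) (t i) η ε)
      (fun i => vR (kk i) (t i)) (fun i => vK (kk i)) x e} ⊆
      {e : Q4 | e ∈ WS h k n0 α β γ δ x ∧ PB4 q s kk t ε e} ∪ WS h k n0 α β γ δ (x ^ (1 - η)) := by
    rintro e ⟨he, hP⟩
    obtain ⟨hy1, hy2, hy3⟩ := size4 hα hβ hγ hδ0 he
    by_cases hm : x ^ (1 - η) < ((e.b * e.c : ℕ) : ℝ)
    · left
      refine ⟨he, fun i => ⟨(hP i).1, ?_⟩⟩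
      have k1 := (hP i).2
      rw [v_iff] at k1
      have k2 : Real.sqrt x ^ (1 - η) < yr e := by
        unfold yr
        have : Real.sqrt x ^ (1 - η) = Real.sqrt (x ^ (1 - η)) := by
          rw [Real.sqrt_eq_rpow, Real.sqrt_eq_rpow, ← Real.rpow_mul hx0.le, ← Real.rpow_mul hx0.le, mul_comm]
        rw [this]
        exact Real.sqrt_lt_sqrt (Real.rpow_nonneg hx0.le _) hm
      exact H1' i (Real.sqrt x) (hxx i) (yr e) k2 hy2 (ent i e) (hy3 i).1 (hy3 i).2 k1.1 k1.2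
    · right
      push Not at hm
      obtain ⟨⟨k1, k2, k3⟩, k4⟩ := he
      exact ⟨⟨k1, k2, hm⟩, k4⟩
  have hcard := Set.ncard_le_ncard hsub ((hfin.subset fun e he => he.1).union hfin2)
  have hcard2 := hcard.trans (Set.ncard_union_le _ _)
  have hcard3 : (Set.ncard {e : Q4 | e ∈ WS h k n0 α β γ δ x ∧ PC q s (fun i => kk i + 1)
      (fun i => vL (kk i) (t i) η ε) (fun i => vR (kk i) (t i)) (fun i => vK (kk i)) x e} : ℝ) ≤
      (Set.ncard {e : Q4 | e ∈ WS h k n0 α β γ δ x ∧ PB4 q s kk t ε e} : ℝ) +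
        ((WS h k n0 α β γ δ (x ^ (1 - η))).ncard : ℝ) := by
    exact_mod_cast hcard2
  linarith

/-- lower bound for the number of factorisations -/
theorem ws_lowP (B : BS) (h k n0 : ℕ) (hh : 0 < h) (hk : 0 < k) (h1 : n0.Coprime k) (h2 : (n0 + h).Coprime k)
    (α β γ δ : ℝ) (hα : 0 < α) (hαβ : α < β) (hγ : 0 < γ) (hγδ : γ < δ) (q : ℕ) (hq : 0 < q) (s kk : Fin 4 → ℕ)
    (t : (i : Fin 4) → Fin (kk i) → ℝ) (ε : ℝ) (hε : 0 < ε) (ht : ∀ i j, 0 < t i j) (hs : ∀ i, ∑ j, t i j ≤ 1) :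
    ∃ c x0 : ℝ, 0 < c ∧ ∀ x : ℝ, x0 ≤ x → c * x ≤
      ((Set.ncard {e : Q4 | e ∈ WS h k n0 α β γ δ x ∧ PB4 q s kk t ε e}) : ℝ) := by
  classical
  choose μ hμ hμt using fun i => exists_lowF (kk i) (t i) (ht i)
  obtain ⟨i0, hi0⟩ := Finite.exists_min μ
  set ε' : ℝ := min (min (ε / 2) 1) (μ i0 / 2) with hε'
  have g1 : 0 < ε' := lt_min (lt_min (by linarith) one_pos) (by have := hμ i0; linarith)
  have g2 : ε' ≤ ε / 2 := (min_le_left _ _).trans (min_le_left _ _)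
  have g3 : ε' ≤ 1 := (min_le_left _ _).trans (min_le_right _ _)
  have g4 : ∀ i, ε' ≤ μ i / 2 := fun i => (min_le_right _ _).trans (by linarith [hi0 i])
  choose τ hτ1 hτ2 hτ3 hτ4 using fun i => pert4 (kk i) (t i) (ht i) (hs i) ε hε (μ i) (hμ i) (hμt i) ε' g2 (g4 i)
  obtain ⟨c, x0, hc, H⟩ := ws_lowG B h k n0 hh hk h1 h2 α β γ δ hα hαβ hγ hγδ q hq s kk τ hτ1 ε' g1 g3 hτ2 hτ3
  refine ⟨c, max x0 1, hc, fun x hx => (H x ((le_max_left _ _).trans hx)).trans ?_⟩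
  norm_cast
  have hx1 : (1 : ℝ) ≤ x := (le_max_right _ _).trans hx
  refine Set.ncard_le_ncard ?_ ((Pool.Agent.Spc.WS_finite hh hα (hα.trans hαβ) hγ (hγ.trans hγδ) hx1).subset fun e he => he.1)
  rintro e ⟨he, hP⟩
  refine ⟨he, fun i => ⟨(hP i).1, ?_⟩⟩
  exact hτ4 i (yr e) _ (size4 hα (hα.trans hαβ) hγ (hγ.trans hγδ) he).1 (hP i).2

/-- many `n` -/
theorem n_prof (B : BS) (h k n0 : ℕ) (hh : 0 < h) (hk : 0 < k) (h1 : n0.Coprime k) (h2 : (n0 + h).Coprime k)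
    (α β γ δ : ℝ) (hα : 0 < α) (hαβ : α < β) (hγ : 0 < γ) (hγδ : γ < δ) (q : ℕ) (hq : 0 < q) (s kk : Fin 4 → ℕ)
    (t : (i : Fin 4) → Fin (kk i) → ℝ) (ε : ℝ) (hε : 0 < ε) (ht : ∀ i j, 0 < t i j) (hs : ∀ i, ∑ j, t i j ≤ 1)
    (A : ℝ) (hA : 4 * Real.log 2 < A) :
    ∀ᶠ x : ℝ in atTop, x / Real.log x ^ A ≤
      (Set.ncard {n : ℕ | (n : ℝ) ≤ x ∧ ∃ e : Q4, e.b * e.c = n ∧ e ∈ WS h k n0 α β γ δ x ∧ PB4 q s kk t ε e} : ℝ) := by
  obtain ⟨c, x0, hc, H⟩ := ws_lowP B h k n0 hh hk h1 h2 α β γ δ hα hαβ hγ hγδ q hq s kk t ε hε ht hs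
  exact Pool.Agent.Spc.many_n h k n0 hh α β γ δ hα (hα.trans hαβ) hγ (hγ.trans hγδ) (PB4 q s kk t ε) c x0 hc H A hA

end Pool.Agent.SplL

end
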